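import Pool.Agent.MP_9cbfe4_an.Stmt
import Pool.Agent.Lib.Birkhoff.Pointwise

set_option linter.all false

attribute [-instance] AddQuantale.instAddLeftMono IdemSemiring.toCanonicallyOrderedAdd
  NumberField.to_charZero AddQuantale.instAddRightMono IdemSemiring.toMulLeftMono RKHS.instFunLike
  Quantale.instMulRightMono Quantale.instMulLeftMono IsOrderedCancelMonoid.toIsOrderedMonoid
  LinearOrderedCommMonoidWithZero.toPosMulStrictMono
  Group.IsPerfect.subsingleton_of_isMulCommutative CanonicallyOrderedAdd.toMulLeftMono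
  Valued.toUniformSpace IdemSemiring.toMulRightMono TotallySeparatedSpace.t2Space
  LinearOrderedCommMonoidWithZero.toIsOrderedMonoid IsScalarTower.complexToReal
  Order.Coframe.toCompleteLattice OmegaCompletePartialOrder.toPartialOrder Invertible.toNeZero
  GrpTypeEquivalenceGrp.grpGroup littleWedderburn CanonicallyOrderedMul.toMulLeftMono
  CoalgHomClass.toSemilinearMapClass TestFunctionClass.toDFunLike
  ContDiffMapSupportedInClass.toDFunLike Order.Frame.toCompleteLattice RightPreLieAlgebra.toModule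
  CategoryTheory.Limits.Concrete.instUniqueToTypeTerminal LeftPreLieAlgebra.toModule
  CStarAlgebra.instOrderClosedTopology IdemSemiring.toSemiring
  LieAdmissibleRing.toNonUnitalNonAssocRing NonUnitalAlgSemiHomClass.toDistribMulActionSemiHomClass
  CStarAlgebra.toNormedRing

/-! ### Part FLAT60 -/

section

/-! Row FLAT (model-free): the flattened cut-off `e * expNegInvGlue ∘ th` has
`|derivatives| ≤ C * value ^ (1 - ε)`. -/

namespace Pool.Agent.MP_9cbfe4_an.FLAT60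

open Polynomial Nat

/-- the flattening `x ↦ exp (1 - 1/x)` for `x > 0`, `0` for `x ≤ 0` -/
noncomputable def fl (y : ℝ) : ℝ := Real.exp 1 * expNegInvGlue y

lemma fl_nonneg (y : ℝ) : 0 ≤ fl y := mul_nonneg (Real.exp_pos _).le (expNegInvGlue.nonneg y)
lemma fl_zero {y : ℝ} (h : y ≤ 0) : fl y = 0 := by simp [fl, expNegInvGlue.zero_of_nonpos h]
lemma fl_one : fl 1 = 1 := by simp [fl, expNegInvGlue, ← Real.exp_add]
lemma fl_mono : Monotone fl := fun _ _ h =>
  mul_le_mul_of_nonneg_left (expNegInvGlue.monotone h) (Real.exp_pos _).le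
lemma fl_le_one {y : ℝ} (h : y ≤ 1) : fl y ≤ 1 := (fl_mono h).trans_eq fl_one
lemma fl_contDiff {n : ℕ∞} : ContDiff ℝ n fl := contDiff_const.mul expNegInvGlue.contDiff

/-- the polynomials in `1/x` of the derivatives -/
noncomputable def P : ℕ → ℝ[X]
  | 0 => 1
  | n + 1 => X ^ 2 * (P n - derivative (P n))

lemma iteratedDeriv_glue (i : ℕ) :
    iteratedDeriv i expNegInvGlue = fun x => (P i).eval x⁻¹ * expNegInvGlue x := by
  induction i with
  | zero => funext x; simp [P]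
  | succ i ih =>
    rw [iteratedDeriv_succ, ih]
    funext x
    exact (expNegInvGlue.hasDerivAt_polynomial_eval_inv_mul (P i) x).deriv

lemma poly_le_exp (p : ℝ[X]) {ε : ℝ} (hε : 0 < ε) :
    ∃ C, 0 ≤ C ∧ ∀ u, 0 ≤ u → |p.eval u| ≤ C * Real.exp (ε * u) := by
  induction p using Polynomial.induction_on' with
  | add p q hp hq =>
    obtain ⟨C, hC, h⟩ := hp
    obtain ⟨C', hC', h'⟩ := hq
    refine ⟨C + C', by positivity, fun u hu => ?_⟩
    rw [eval_add, add_mul]
    exact (abs_add_le _ _).trans (add_le_add (h u hu) (h' u hu))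
  | monomial n a =>
    refine ⟨|a| * (n ! / ε ^ n), by positivity, fun u hu => ?_⟩
    rw [eval_monomial, abs_mul, abs_of_nonneg (pow_nonneg hu n), mul_assoc]
    refine mul_le_mul_of_nonneg_left ?_ (abs_nonneg a)
    obtain h := Real.pow_div_factorial_le_exp (ε * u) (by positivity) n
    rw [div_le_iff₀ (by positivity), mul_pow] at h
    rw [div_mul_eq_mul_div, le_div_iff₀ (by positivity)]
    linarith only [h]

lemma glue_flat (i : ℕ) {ε : ℝ} (hε : 0 < ε) :
    ∃ C, 0 ≤ C ∧ ∀ y, |iteratedDeriv i fl y| ≤ C * fl y ^ (1 - ε) := by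
  obtain ⟨C, hC, h⟩ := poly_le_exp (P i) hε
  refine ⟨C * Real.exp ε, by positivity, fun y => ?_⟩
  obtain e : iteratedDeriv i fl y = Real.exp 1 * ((P i).eval y⁻¹ * expNegInvGlue y) := by
    have : fl = fun y => Real.exp 1 * expNegInvGlue y := rfl
    rw [this, iteratedDeriv_const_mul_field, iteratedDeriv_glue]
  rw [e]
  rcases le_or_gt y 0 with hy | hy
  · rw [expNegInvGlue.zero_of_nonpos hy]
    simp only [mul_zero, abs_zero]
    exact mul_nonneg (by positivity) (Real.rpow_nonneg (fl_nonneg y) _)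
  · obtain e1 : expNegInvGlue y = Real.exp (-y⁻¹) := by simp [expNegInvGlue, not_le.2 hy]
    obtain e2 : fl y ^ (1 - ε) = Real.exp ((1 - y⁻¹) * (1 - ε)) := by
      rw [fl, e1, ← Real.exp_add, ← Real.exp_mul]; congr 1
    rw [e2, e1, abs_mul, abs_mul, abs_of_pos (Real.exp_pos _), abs_of_pos (Real.exp_pos _)]
    calc Real.exp 1 * (|(P i).eval y⁻¹| * Real.exp (-y⁻¹))
        ≤ Real.exp 1 * (C * Real.exp (ε * y⁻¹) * Real.exp (-y⁻¹)) := by
          gcongr; exact h _ (inv_pos.2 hy).le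
      _ = C * (Real.exp 1 * Real.exp (ε * y⁻¹) * Real.exp (-y⁻¹)) := by ring
      _ = C * (Real.exp ε * Real.exp ((1 - y⁻¹) * (1 - ε))) := by
          simp only [← Real.exp_add]; congr 2; ring
      _ = _ := by ring

lemma glue_flat_le (j : ℕ) {ε : ℝ} (hε : 0 < ε) :
    ∃ C, 0 ≤ C ∧ ∀ i ≤ j, ∀ y, |iteratedDeriv i fl y| ≤ C * fl y ^ (1 - ε) := by
  choose C hC h using fun i => glue_flat i hε
  refine ⟨∑ i ∈ Finset.range (j + 1), C i, Finset.sum_nonneg fun i _ => hC i, fun i hi y => ?_⟩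
  refine (h i y).trans (mul_le_mul_of_nonneg_right ?_ (Real.rpow_nonneg (fl_nonneg y) _))
  exact Finset.single_le_sum (fun i _ => hC i) (Finset.mem_range.2 (by omega))

/-- quantitative form: the constant depends on `k`, `ε` only -/
theorem flat_q (k : ℕ) {ε : ℝ} (hε : 0 < ε) : ∃ C, 0 ≤ C ∧ ∀ (th : ℝ → ℝ) (D x : ℝ),
    ContDiff ℝ k th → (∀ i, 1 ≤ i → i ≤ k → |iteratedDeriv i th x| ≤ D ^ i) → ∀ j ≤ k, 0 ≤ D →
    |iteratedDeriv j (fun x => fl (th x)) x| ≤ C * D ^ j * fl (th x) ^ (1 - ε) := by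
  obtain ⟨C, hC, h⟩ := glue_flat_le k hε
  refine ⟨k ! * C, by positivity, fun th D x hth hD j hj hD0 => ?_⟩
  obtain h1 := norm_iteratedFDeriv_comp_le (g := fl) (f := th) (n := j) (N := k)
    (fl_contDiff (n := k)) hth (by exact_mod_cast hj) x (C := C * fl (th x) ^ (1 - ε)) (D := D)
    (fun i hi => by
      rw [norm_iteratedFDeriv_eq_norm_iteratedDeriv]; exact h i (hi.trans hj) _)
    (fun i h1 hi => by
      rw [norm_iteratedFDeriv_eq_norm_iteratedDeriv]; exact hD i h1 (hi.trans hj))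
  rw [norm_iteratedFDeriv_eq_norm_iteratedDeriv] at h1
  refine h1.trans ?_
  obtain h2 : (j ! : ℝ) ≤ k ! := by exact_mod_cast Nat.factorial_le hj
  have h3 : 0 ≤ fl (th x) ^ (1 - ε) := Real.rpow_nonneg (fl_nonneg _) _
  calc (j ! : ℝ) * (C * fl (th x) ^ (1 - ε)) * D ^ j
      ≤ k ! * (C * fl (th x) ^ (1 - ε)) * D ^ j := by (clear * - h2 hC h3 hD0; gcongr)
    _ = _ := by ring

/-- one constant for all orders `j ≤ k`, for a cut-off with bounded derivatives -/
theorem flat_le {th : ℝ → ℝ} (k : ℕ) (hth : ContDiff ℝ k th)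
    (hb : ∀ i, 1 ≤ i → i ≤ k → ∃ B, ∀ x, |iteratedDeriv i th x| ≤ B) {ε : ℝ} (hε : 0 < ε) :
    ∃ C, 0 ≤ C ∧ ∀ j ≤ k, ∀ x,
      |iteratedDeriv j (fun x => fl (th x)) x| ≤ C * fl (th x) ^ (1 - ε) := by
  obtain ⟨C, hC, h⟩ := flat_q k hε
  choose! B hB using hb
  set D : ℝ := 1 + ∑ i ∈ Finset.range (k + 1), |B i| with hDd
  have hs : 0 ≤ ∑ i ∈ Finset.range (k + 1), |B i| := Finset.sum_nonneg fun i _ => abs_nonneg _
  obtain hD1 : 1 ≤ D := by linarith only [hs]
  refine ⟨C * D ^ k, by (clear * - hC; positivity), fun j hj x => ?_⟩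
  refine (h th D x hth (fun i h1 hi => ?_) j hj (by linarith only [hs])).trans ?_
  · obtain h2 : |B i| ≤ ∑ i ∈ Finset.range (k + 1), |B i| :=
      Finset.single_le_sum (f := fun i => |B i|) (fun i _ => abs_nonneg _)
        (Finset.mem_range.2 (by omega))
    have h3 := hB i h1 hi x
    have h4 := le_abs_self (B i)
    obtain h5 : D ≤ D ^ i := le_self_pow₀ hD1 (by omega)
    linarith only [h2, h3, h4, h5]
  · have h3 : 0 ≤ fl (th x) ^ (1 - ε) := Real.rpow_nonneg (fl_nonneg _) _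
    have h4 : D ^ j ≤ D ^ k := pow_le_pow_right₀ hD1 hj
    gcongr

/-- the split used in the model: `|th~^(j)| ≤ C e^{ε y} (th~ + e^{-y})` for every `y` -/
theorem rpow_le_split {s ε y : ℝ} (hs : 0 ≤ s) (hε : 0 < ε) (hε1 : ε ≤ 1) :
    s ^ (1 - ε) ≤ Real.exp (ε * y) * (s + Real.exp (-y)) := by
  rcases le_or_gt s (Real.exp (-y)) with h | h
  · calc s ^ (1 - ε) ≤ Real.exp (-y) ^ (1 - ε) := Real.rpow_le_rpow hs h (by linarith only [hε1])
      _ = Real.exp (ε * y) * Real.exp (-y) := by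
          rw [← Real.exp_mul, ← Real.exp_add]; congr 1; ring
      _ ≤ _ := by gcongr; linarith only [hs]
  · have hp : 0 < s := (Real.exp_pos _).trans h
    obtain h1 : s ^ (-ε) ≤ Real.exp (ε * y) := by
      calc s ^ (-ε) ≤ Real.exp (-y) ^ (-ε) :=
            Real.rpow_le_rpow_of_nonpos (Real.exp_pos _) h.le (by linarith only [hε])
        _ = _ := by rw [← Real.exp_mul]; congr 1; ring
    calc s ^ (1 - ε) = s ^ (-ε) * s := by
          rw [sub_eq_neg_add, Real.rpow_add hp, Real.rpow_one]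
      _ ≤ Real.exp (ε * y) * s := by gcongr
      _ ≤ _ := by gcongr; linarith only [Real.exp_pos (-y)]

end Pool.Agent.MP_9cbfe4_an.FLAT60

end

/-! ### Part SRB2 -/

section

/-! Clause (ii) of `IsSRB` follows from clause (i). -/

namespace Pool.Agent.MP_9cbfe4_an

open MeasureTheory ProbabilityTheory Filter Topology Metric Set
open scoped ENNReal

noncomputable section
namespace SRB2

/-- points of infinite upper linear density -/
def Inf (κ : P2 → Measure P2) : Set P2 :=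
  {x | ∀ k : ℕ, ∃ r : ℚ, 0 < r ∧ (r : ℝ) < 1 / (k + 1) ∧
    ENNReal.ofReal ((k + 1) * r) < κ x (ball x r)}

lemma meas_Inf (κ : Kernel P2 P2) [IsSFiniteKernel κ] : MeasurableSet (Inf κ) := by
  obtain h : ∀ r : ℝ, Measurable fun x => κ x (ball x r) := by
    intro r
    obtain hs : MeasurableSet {p : P2 × P2 | dist p.2 p.1 < r} :=
      (isOpen_lt (by fun_prop) continuous_const).measurableSet
    exact Kernel.measurable_kernel_prodMk_left (κ := κ) hs
  obtain this : Inf κ = ⋂ k : ℕ, ⋃ r : ℚ, ⋃ (_ : 0 < r ∧ (r : ℝ) < 1 / (k + 1)),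
      {x | ENNReal.ofReal ((k + 1) * r) < κ x (ball x r)} := by
    ext x; simp only [Inf, mem_ofPred_eq, mem_iInter, mem_iUnion, exists_prop, and_assoc]
  rw [this]
  exact MeasurableSet.iInter fun k => MeasurableSet.iUnion fun r => MeasurableSet.iUnion fun _ =>
    measurableSet_lt measurable_const (h r)

lemma Inf_null (ν : Measure P2) [IsProbabilityMeasure ν] :
    μH[1] (Inf fun _ => ν) = 0 := by
  set A := Inf fun _ => ν with hA
  obtain hr : ∀ k : ℕ, ∃ r : P2 → ℝ, ∀ x ∈ A, 0 < r x ∧ r x < 1 / (k + 1) ∧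
      ENNReal.ofReal ((k + 1) * r x) < ν (ball x (r x)) := by
    intro k
    obtain this : ∀ x, ∃ r : ℝ, x ∈ A → 0 < r ∧ r < 1 / (k + 1) ∧
        ENNReal.ofReal ((k + 1) * r) < ν (ball x r) := by
      intro x
      by_cases hx : x ∈ A
      · obtain ⟨r, h0, h1, h2⟩ := hx k
        exact ⟨r, fun _ => ⟨by exact_mod_cast h0, h1, h2⟩⟩
      · exact ⟨0, fun h => absurd h hx⟩
    choose r hr using this
    exact ⟨r, hr⟩
  choose r hr using hr
  obtain hu : ∀ k : ℕ, ∃ u ⊆ A, (u.PairwiseDisjoint fun a => closedBall a (r k a)) ∧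
      ∀ a ∈ A, ∃ b ∈ u, closedBall a (r k a) ⊆ closedBall b (5 * r k b) := fun k =>
    Vitali.exists_disjoint_subfamily_covering_enlargement_closedBall A (fun a => a) (r k)
      (1 / (k + 1)) (fun a ha => (hr k a ha).2.1.le) 5 (by norm_num)
  choose u huA hud huc using hu
  have hcount : ∀ k, (u k).Countable := fun k =>
    (hud k).countable_of_nonempty_interior fun a ha =>
      ⟨a, mem_interior_iff_mem_nhds.2 (closedBall_mem_nhds a (hr k a (huA k ha)).1)⟩
  have : ∀ k, Countable (u k) := fun k => (hcount k).to_subtype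
  obtain hlim : Tendsto (fun k : ℕ => ENNReal.ofReal (10 * (1 / ((k : ℝ) + 1)))) atTop (𝓝 0) := by
    have := (tendsto_one_div_add_atTop_nhds_zero_nat (𝕜 := ℝ)).const_mul 10
    rw [mul_zero] at this
    simpa using ENNReal.tendsto_ofReal this
  obtain hdiam : ∀ k (i : u k), ediam (closedBall (i : P2) (5 * r k i)) ≤
      ENNReal.ofReal (10 * r k i) := by
    intro k i
    refine ediam_le_of_forall_dist_le fun x hx y hy => ?_
    have := dist_triangle_right x y i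
    rw [mem_closedBall] at hx hy
    linarith only [hx, hy, this]
  obtain key := Measure.hausdorffMeasure_le_liminf_tsum (ι := fun k => u k) 1 A (l := atTop)
    (fun k : ℕ => ENNReal.ofReal (10 * (1 / ((k : ℝ) + 1)))) hlim
    (fun k i => closedBall (i : P2) (5 * r k i))
    (Eventually.of_forall fun k i => (hdiam k i).trans (ENNReal.ofReal_le_ofReal (by
      have := (hr k i (huA k i.2)).2.1; linarith only [this])))
    (Eventually.of_forall fun k a ha => by
      obtain ⟨b, hb, hab⟩ := huc k a ha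
      exact mem_iUnion.2 ⟨⟨b, hb⟩, hab (mem_closedBall_self (hr k a ha).1.le)⟩)
  refine le_antisymm (key.trans ?_) zero_le
  rw [← hlim.liminf_eq]
  refine liminf_le_liminf (Eventually.of_forall fun k => ?_)
  obtain hk : (0 : ℝ) < (k : ℝ) + 1 := by positivity
  calc ∑' i : u k, ediam (closedBall (i : P2) (5 * r k i)) ^ (1 : ℝ)
      ≤ ∑' i : u k, ENNReal.ofReal (10 * (1 / ((k : ℝ) + 1))) * ν (closedBall (i : P2) (r k i)) := by
        refine ENNReal.tsum_le_tsum fun i => ?_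
        rw [ENNReal.rpow_one]
        refine (hdiam k i).trans ?_
        have h1 := (hr k i (huA k i.2)).2.2.le.trans (measure_mono ball_subset_closedBall)
        calc ENNReal.ofReal (10 * r k i)
            = ENNReal.ofReal (10 * (1 / ((k : ℝ) + 1))) * ENNReal.ofReal ((k + 1) * r k i) := by
              rw [← ENNReal.ofReal_mul (by positivity)]; congr 1; field_simp
          _ ≤ _ := by gcongr
    _ = ENNReal.ofReal (10 * (1 / ((k : ℝ) + 1))) * ν (⋃ i : u k, closedBall (i : P2) (r k i)) := by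
        rw [ENNReal.tsum_mul_left, measure_iUnion]
        · intro i j hij
          exact hud k i.2 j.2 (fun h => hij (Subtype.ext h))
        · exact fun i => isClosed_closedBall.measurableSet
    _ ≤ ENNReal.ofReal (10 * (1 / ((k : ℝ) + 1))) * 1 := by gcongr; exact prob_le_one
    _ = _ := mul_one _

lemma null_off_Inf (ν : Measure P2) [IsProbabilityMeasure ν] {E : Set P2} (hE : μH[1] E = 0) :
    ν (E \ Inf fun _ => ν) = 0 := by
  let B : ℕ → Set P2 := fun k => {x | ∀ r : ℚ, 0 < r → (r : ℝ) < 1 / (k + 1) →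
    ν (ball x r) ≤ ENNReal.ofReal ((k + 1) * r)}
  obtain hsub : (E \ Inf fun _ => ν) ⊆ ⋃ k, E ∩ B k := by
    rintro x ⟨hx, hx'⟩
    simp only [Inf, mem_ofPred_eq, not_forall, not_exists, not_and, not_lt] at hx'
    obtain ⟨k, hk⟩ := hx'
    exact mem_iUnion.2 ⟨k, hx, hk⟩
  refine measure_mono_null hsub (measure_iUnion_null fun k => ?_)
  obtain hk : (0 : ℝ) < (k : ℝ) + 1 := by positivity
  obtain hB : MeasurableSet (B k) := by
    obtain h : ∀ r : ℝ, Measurable fun x : P2 => ν (ball x r) := by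
      intro r
      obtain hs : MeasurableSet {p : P2 × P2 | dist p.2 p.1 < r} :=
        (isOpen_lt (by fun_prop) continuous_const).measurableSet
      exact measurable_measure_prodMk_left (ν := ν) hs
    obtain this : B k = ⋂ r : ℚ, ⋂ (_ : 0 < r), ⋂ (_ : (r : ℝ) < 1 / (k + 1)),
        {x | ν (ball x r) ≤ ENNReal.ofReal ((k + 1) * r)} := by
      ext x; simp only [B, mem_ofPred_eq, mem_iInter]
    rw [this]
    exact MeasurableSet.iInter fun r => MeasurableSet.iInter fun _ => MeasurableSet.iInter fun _ =>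
      measurableSet_le (h r) measurable_const
  obtain hle : ENNReal.ofReal (1 / ((k : ℝ) + 1)) • ν.restrict (B k) ≤ μH[1] := by
    refine Measure.le_hausdorffMeasure 1 _ (ENNReal.ofReal (1 / (2 * ((k : ℝ) + 1))))
      (by rw [ENNReal.ofReal_pos]; positivity) fun s hs => ?_
    rw [ENNReal.rpow_one, Measure.smul_apply, Measure.restrict_apply' hB, smul_eq_mul]
    rcases (s ∩ B k).eq_empty_or_nonempty with h0 | ⟨x, hxs, hxB⟩
    · simp [h0]
    have hfin : ediam s ≠ ⊤ := ne_top_of_le_ne_top ENNReal.ofReal_ne_top hs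
    obtain hd : diam s ≤ 1 / (2 * ((k : ℝ) + 1)) :=
      ENNReal.toReal_le_of_le_ofReal (by positivity) hs
    obtain hlt : 1 / (2 * ((k : ℝ) + 1)) < 1 / ((k : ℝ) + 1) :=
      one_div_lt_one_div_of_lt hk (by linarith only [])
    rw [← ENNReal.ofReal_toReal hfin]
    refine ENNReal.le_of_forall_pos_le_add fun ε hε _ => ?_
    have hε' : (0 : ℝ) < ε := hε
    obtain ⟨r, hr1, hr2⟩ := exists_rat_btwn
      (show diam s < min (diam s + ε) (1 / ((k : ℝ) + 1)) from lt_min (by linarith only [hε]) (by linarith only [hd, hlt]))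
    have hr0 : (0 : ℝ) < r := lt_of_le_of_lt diam_nonneg hr1
    obtain h1 : ν (s ∩ B k) ≤ ENNReal.ofReal ((k + 1) * r) := by
      refine le_trans (measure_mono fun y hy => ?_)
        (hxB r (by exact_mod_cast hr0) (hr2.trans_le (min_le_right _ _)))
      exact (dist_le_diam_of_mem' hfin hy.1 hxs).trans_lt hr1
    calc ENNReal.ofReal (1 / ((k : ℝ) + 1)) * ν (s ∩ B k)
        ≤ ENNReal.ofReal (1 / ((k : ℝ) + 1)) * ENNReal.ofReal ((k + 1) * r) := by gcongr
      _ = ENNReal.ofReal r := by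
          rw [← ENNReal.ofReal_mul (by (clear * -; positivity))]; congr 1; field_simp
      _ ≤ ENNReal.ofReal (diam s + ε) :=
          ENNReal.ofReal_le_ofReal (hr2.le.trans (min_le_left _ _))
      _ = _ := by
          rw [ENNReal.ofReal_add diam_nonneg hε'.le, ENNReal.ofReal_coe_nnreal]; rfl
  have h2 := hle E
  rw [hE, Measure.smul_apply, Measure.restrict_apply' hB, smul_eq_mul, nonpos_iff_eq_zero,
    mul_eq_zero] at h2
  refine h2.resolve_left ?_
  rw [ENNReal.ofReal_eq_zero, not_le]; positivity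

lemma Wu_small {g : P2 → P2} {x z : P2} {C c c' : ℝ} (hc : c' < c)
    (h : ∀ n : ℕ, dist (g^[n] x) (g^[n] z) ≤ C * Real.exp (-c * n)) {ε : ℝ} (hε : 0 < ε) :
    ∃ N : ℕ, ∀ n ≥ N, dist (g^[n] x) (g^[n] z) ≤ ε * Real.exp (-c' * n) := by
  obtain h1 : Tendsto (fun n : ℕ => C * Real.exp (-(c - c') * n)) atTop (𝓝 (C * 0)) := by
    refine Tendsto.const_mul C (Real.tendsto_exp_atBot.comp ?_)
    exact tendsto_natCast_atTop_atTop.const_mul_atTop_of_neg (by linarith only [hc])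
  rw [mul_zero] at h1
  obtain ⟨N, hN⟩ := eventually_atTop.1 (h1.eventually (gt_mem_nhds hε))
  refine ⟨N, fun n hn => (h n).trans ?_⟩
  calc C * Real.exp (-c * n) = C * Real.exp (-(c - c') * n) * Real.exp (-c' * n) := by
        rw [mul_assoc, ← Real.exp_add]; congr 2; ring
    _ ≤ _ := mul_le_mul_of_nonneg_right (hN n hn).le (Real.exp_pos _).le

/-- a set that is null on every fibre is null on the subordinate part of `W^u(x)` -/
lemma null_Wu {g : P2 → P2} {π : P2 → ℝ} {A : Set P2}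
    (hA : ∀ y, μH[1] (A ∩ π ⁻¹' {y}) = 0)
    (hS : ∀ z ∈ A, ∀ c > (0 : ℝ), ∃ ε > (0 : ℝ),
      {y | ∀ n : ℕ, dist (g^[n] z) (g^[n] y) ≤ ε * Real.exp (-c * n)} ⊆ π ⁻¹' {π z})
    (x : P2) : μH[1] (A ∩ Wu g x) = 0 := by
  have hD : ∀ N : ℕ, ∃ D : Set (Fin N → P2), D.Countable ∧ Dense D := fun N =>
    TopologicalSpace.exists_countable_dense _
  choose D hDc hDd using hD
  let r : ℕ → ℝ := fun k => 1 / ((k : ℝ) + 1)
  obtain hr : ∀ k, 0 < r k := fun k => by positivity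
  let Z : (k m N : ℕ) → (Fin N → P2) → Set P2 := fun k m N d =>
    {z | z ∈ A ∧
      {y | ∀ n : ℕ, dist (g^[n] z) (g^[n] y) ≤ 2 * r m * Real.exp (-r k * n)} ⊆ π ⁻¹' {π z} ∧
      (∀ n ≥ N, dist (g^[n] x) (g^[n] z) ≤ r m * Real.exp (-r k * n)) ∧
      dist (fun i : Fin N => g^[i] z) d < r m * Real.exp (-r k * N)}
  obtain hsub : A ∩ Wu g x ⊆ ⋃ k, ⋃ m, ⋃ N, ⋃ d ∈ D N, Z k m N d := by
    rintro z ⟨hzA, C, c, hc, hzW⟩
    obtain ⟨k, hk⟩ := exists_nat_one_div_lt hc
    obtain ⟨ε, hε, hz⟩ := hS z hzA (r k) (hr k)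
    obtain ⟨m, hm⟩ := exists_nat_one_div_lt (show 0 < ε / 2 by positivity)
    obtain ⟨N, hN⟩ := Wu_small (c' := r k) hk hzW (hr m)
    obtain ⟨d, hd, hd'⟩ := (hDd N).exists_dist_lt (fun i : Fin N => g^[i] z)
      (mul_pos (hr m) (Real.exp_pos (-r k * N)))
    refine mem_iUnion.2 ⟨k, mem_iUnion.2 ⟨m, mem_iUnion.2 ⟨N, mem_biUnion hd ⟨hzA, ?_, hN, hd'⟩⟩⟩⟩
    exact fun y hy => hz fun n => (hy n).trans
      (mul_le_mul_of_nonneg_right (by simp only [r]; linarith only [hm]) (Real.exp_pos _).le)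
  refine measure_mono_null hsub (measure_iUnion_null fun k => measure_iUnion_null fun m =>
    measure_iUnion_null fun N => (measure_biUnion_null_iff (hDc N)).2 fun d _ => ?_)
  rcases (Z k m N d).eq_empty_or_nonempty with h0 | ⟨z, hz⟩
  · simp [h0]
  refine measure_mono_null (t := A ∩ π ⁻¹' {π z})
    (fun y hy => ⟨hy.1, hz.2.1 fun n => ?_⟩) (hA (π z))
  by_cases hn : N ≤ n
  · have := dist_triangle_left (g^[n] z) (g^[n] y) (g^[n] x)
    have := hz.2.2.1 n hn
    have := hy.2.2.1 n hn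
    linarith
  · have h1 := (dist_le_pi_dist _ d ⟨n, not_le.1 hn⟩).trans_lt hz.2.2.2
    have h2 := (dist_le_pi_dist _ d ⟨n, not_le.1 hn⟩).trans_lt hy.2.2.2
    have := dist_triangle_right (g^[n] z) (g^[n] y) (d ⟨n, not_le.1 hn⟩)
    obtain h3 : (n : ℝ) ≤ N := by exact_mod_cast (not_le.1 hn).le
    obtain h4 : r m * Real.exp (-r k * N) ≤ r m * Real.exp (-r k * n) :=
      mul_le_mul_of_nonneg_left (Real.exp_le_exp.2 (by nlinarith only [h3, hr k])) (hr m).le
    simp only at h1 h2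
    linarith only [hn, h1, h2, this, h4]

end SRB2

theorem isSRB_of_null (g : P2 → P2) (μ : Measure P2)
    (h : ∀ A, MeasurableSet A → (∀ x, μH[1] (A ∩ Wu g x) = 0) → μ A = 0) : IsSRB g μ := by
  refine ⟨h, fun π κ hπ hκ hsub hcomp hfib => ?_⟩
  set A := SRB2.Inf (κ.comap π hπ) with hA
  have hAm : MeasurableSet A := SRB2.meas_Inf _
  obtain hAf : ∀ y, A ∩ π ⁻¹' {y} = (SRB2.Inf fun _ => κ y) ∩ π ⁻¹' {y} := by
    intro y; ext z
    simp only [hA, SRB2.Inf, mem_inter_iff, mem_ofPred_eq, mem_preimage, mem_singleton_iff,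
      Kernel.comap_apply, and_congr_left_iff]
    rintro rfl; rfl
  obtain ⟨T, hTs, hTm, hT0⟩ := exists_measurable_superset_of_null (ae_iff.1 hsub)
  obtain h1 : μ (A \ T) = 0 := by
    refine h _ (hAm.diff hTm) (SRB2.null_Wu (π := π) (fun y => ?_) fun z hz => ?_)
    · refine measure_mono_null (fun z hz => ?_) (SRB2.Inf_null (κ y))
      have : z ∈ A ∩ π ⁻¹' {y} := ⟨hz.1.1, hz.2⟩
      rw [hAf] at this; exact this.1
    · by_contra hc
      exact hz.2 (hTs fun h' => hc h'.2)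
  obtain h2 : μ A = 0 := by
    refine measure_mono_null (fun z hz => ?_) (measure_union_null h1 hT0)
    by_cases hz' : z ∈ T
    · exact Or.inr hz'
    · exact Or.inl ⟨hz, hz'⟩
  rw [← hcomp, Measure.bind_apply hAm κ.aemeasurable,
    lintegral_eq_zero_iff (κ.measurable_coe hAm)] at h2
  filter_upwards [h2, hfib] with y hy1 hy2
  refine Measure.AbsolutelyContinuous.mk fun E _ hE => ?_
  rw [Measure.restrict_apply' (hπ (measurableSet_singleton y))] at hE
  have h3 := SRB2.null_off_Inf (κ y) hE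
  refine measure_mono_null (fun z hz => ?_) (measure_union_null (measure_union_null hy1 hy2) h3)
  by_cases hz1 : z ∈ π ⁻¹' {y}
  · by_cases hz2 : z ∈ A
    · exact Or.inl (Or.inl hz2)
    · refine Or.inr ⟨⟨hz, hz1⟩, fun hz3 => hz2 ?_⟩
      obtain this : z ∈ A ∩ π ⁻¹' {y} := by rw [hAf]; exact ⟨hz3, hz1⟩
      exact this.1
  · exact Or.inl (Or.inr hz1)

end
end Pool.Agent.MP_9cbfe4_an

end

/-! ### Part G3a -/

section

/-! An ergodic measure in the closed class cut out by the asymptotic bounds of a family of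
starting measures. -/

namespace Pool.Agent.MP_9cbfe4_an.G3

open MeasureTheory ProbabilityTheory Filter Topology Set Pool.Agent.Lib.Birkhoff
open scoped ENNReal

variable {K : Type*} [MetricSpace K] [CompactSpace K] [MeasurableSpace K] [BorelSpace K]
  {f : K → K} {S : Set (ProbabilityMeasure K)}

/-- asymptotic upper bound for the averaged orbits of the measures in `S` -/
def Asy (f : K → K) (S : Set (ProbabilityMeasure K)) (φ : C(K, ℝ)) (b : ℝ) : Prop :=
  ∀ ν ∈ S, ∀ e > 0, ∀ᶠ n : ℕ in atTop,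
    ∫ x, birkhoffSum f φ n x ∂(ν : Measure K) ≤ (b + e) * n

/-- the measures that satisfy all the asymptotic bounds -/
def Cc (f : K → K) (S : Set (ProbabilityMeasure K)) : Set (ProbabilityMeasure K) :=
  {μ | ∀ φ b, Asy f S φ b → ∫ x, φ x ∂(μ : Measure K) ≤ b}

lemma intg (μ : Measure K) [IsFiniteMeasure μ] {φ : K → ℝ} (h : Continuous φ) : Integrable φ μ :=
  h.integrable_of_hasCompactSupport (HasCompactSupport.of_compactSpace _)

omit [CompactSpace K] [MeasurableSpace K] [BorelSpace K] in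
lemma cont_bs (hf : Continuous f) {φ : K → ℝ} (h : Continuous φ) (n : ℕ) :
    Continuous (birkhoffSum f φ n) := by
  unfold birkhoffSum
  exact continuous_finsetSum _ fun k _ => h.comp (hf.iterate k)

lemma integral_bs (hf : Continuous f) (μ : Measure K) [IsFiniteMeasure μ] (φ : C(K, ℝ)) (n : ℕ) :
    ∫ x, birkhoffSum f φ n x ∂μ = ∑ i ∈ Finset.range n, ∫ x, φ (f^[i] x) ∂μ :=
  integral_finsetSum _ fun i _ => intg μ (φ.continuous.comp (hf.iterate i))

lemma asy_of_ev (hf : Continuous f) {φ : C(K, ℝ)} {b : ℝ}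
    (h : ∀ ν ∈ S, ∀ e > 0, ∀ᶠ i : ℕ in atTop, ∫ x, φ (f^[i] x) ∂(ν : Measure K) ≤ b + e) :
    Asy f S φ b := by
  intro ν hν e he
  obtain ⟨N, hN⟩ := eventually_atTop.1 (h ν hν (e / 2) (half_pos he))
  set a : ℕ → ℝ := fun i => ∫ x, φ (f^[i] x) ∂(ν : Measure K)
  obtain h1 : ∀ n, N ≤ n → ∑ i ∈ Finset.range n, a i ≤
      (b + e / 2) * n + (∑ i ∈ Finset.range N, a i - (b + e / 2) * N) := by
    intro n hn
    induction n, hn using Nat.le_induction with
    | base => linarith only []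
    | succ n hn ih =>
      rw [Finset.sum_range_succ]
      have := hN n hn
      push_cast
      linarith only [ih, this]
  filter_upwards [eventually_ge_atTop N, eventually_mul_le (show b + e / 2 < b + e by linarith only [he])
    (∑ i ∈ Finset.range N, a i - (b + e / 2) * N)] with n hn h2
  rw [integral_bs hf]
  exact (h1 n hn).trans h2

lemma isClosed_Cc : IsClosed (Cc f S) := by
  unfold Cc
  simp only [ofPred_forall]
  exact isClosed_iInter fun φ => isClosed_iInter fun b => isClosed_iInter fun _ =>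
    isClosed_le (ProbabilityMeasure.continuous_integral_continuousMap φ) continuous_const

lemma Cc_nonempty (hf : Continuous f) (hS : S.Nonempty) : (Cc f S).Nonempty := by
  obtain ⟨ν, hν⟩ := hS
  let m : ℕ → Measure K := fun n =>
    ((n + 1 : ℕ) : ℝ≥0∞)⁻¹ • ∑ i ∈ Finset.range (n + 1), (ν : Measure K).map f^[i]
  have hm (i : ℕ) : Measurable f^[i] := (hf.iterate i).measurable
  have hp (n : ℕ) : IsProbabilityMeasure (m n) := ⟨by
    simp only [m, Measure.smul_apply, Measure.coe_finsetSum, Finset.sum_apply,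
      Measure.map_apply (hm _) MeasurableSet.univ, preimage_univ, measure_univ, Finset.sum_const,
      Finset.card_range, nsmul_eq_mul, mul_one, smul_eq_mul]
    exact ENNReal.inv_mul_cancel (by simp) (by simp)⟩
  let p : ℕ → ProbabilityMeasure K := fun n => ⟨m n, hp n⟩
  have hi (φ : C(K, ℝ)) (n : ℕ) : ∫ x, φ x ∂(p n : Measure K) =
      ((n + 1 : ℕ) : ℝ)⁻¹ * ∫ x, birkhoffSum f φ (n + 1) x ∂(ν : Measure K) := by
    change ∫ x, φ x ∂(m n) = _
    simp only [m]
    rw [integral_smul_measure, integral_finsetSum_measure fun i _ => intg _ φ.continuous,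
      integral_bs hf, ENNReal.toReal_inv, ENNReal.toReal_natCast, smul_eq_mul]
    congr 1
    exact Finset.sum_congr rfl fun i _ =>
      integral_map (hm i).aemeasurable φ.continuous.aestronglyMeasurable
  obtain ⟨μ, hμ⟩ := exists_clusterPt_of_compactSpace (map p atTop)
  refine ⟨μ, fun φ b h => le_of_forall_pos_le_add fun e he => ?_⟩
  have hc : IsClosed {μ : ProbabilityMeasure K | ∫ x, φ x ∂(μ : Measure K) ≤ b + e} :=
    isClosed_le (ProbabilityMeasure.continuous_integral_continuousMap φ) continuous_const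
  refine hc.closure_subset (mem_closure_iff_clusterPt.2 (hμ.mono (le_principal_iff.2 (mem_map.2 ?_))))
  filter_upwards [(tendsto_add_atTop_nat 1).eventually (h ν hν e he)] with n hn
  change ∫ x, φ x ∂(p n : Measure K) ≤ b + e
  rw [hi, inv_mul_le_iff₀ (by positivity), mul_comm]
  exact hn

omit [CompactSpace K] in
lemma ext_cm {μ ν : Measure K} [IsFiniteMeasure μ] [IsFiniteMeasure ν]
    (h : ∀ φ : C(K, ℝ), ∫ x, φ x ∂μ = ∫ x, φ x ∂ν) : μ = ν :=
  ext_of_forall_integral_eq_of_IsFiniteMeasure fun φ => h φ.toContinuousMap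

lemma Cc_mp (hf : Continuous f) {μ : ProbabilityMeasure K} (hμ : μ ∈ Cc f S) :
    MeasurePreserving f (μ : Measure K) μ := by
  have h (φ : C(K, ℝ)) : ∫ x, φ (f x) ∂(μ : Measure K) ≤ ∫ x, φ x ∂(μ : Measure K) := by
    have h1 := hμ (φ.comp ⟨f, hf⟩ - φ) 0 fun ν _ e he => by
      filter_upwards [eventually_mul_le he (2 * ‖φ‖)] with n hn
      have h2 (x : K) : birkhoffSum f (φ.comp ⟨f, hf⟩ - φ : C(K, ℝ)) n x ≤ 2 * ‖φ‖ := by
        obtain h3 : birkhoffSum f (φ.comp ⟨f, hf⟩ - φ : C(K, ℝ)) n x = φ (f^[n] x) - φ x := by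
          refine Eq.trans ?_ (Finset.sum_range_sub (fun i => φ (f^[i] x)) n)
          exact Finset.sum_congr rfl fun i _ => by simp [Function.iterate_succ_apply']
        have h4 := abs_le.1 (φ.norm_coe_le_norm (f^[n] x))
        have h5 := abs_le.1 (φ.norm_coe_le_norm x)
        linarith only [h3, h4.2, h5.1]
      have h6 := integral_mono (intg (ν : Measure K) (cont_bs hf (map_continuous _) n))
        (integrable_const (2 * ‖φ‖)) h2
      simp only [integral_const, probReal_univ, smul_eq_mul, one_mul] at h6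
      linarith only [hn, h6]
    simp only [ContinuousMap.sub_apply, ContinuousMap.comp_apply, ContinuousMap.coe_mk] at h1
    rw [integral_sub (intg _ (φ.continuous.comp' hf)) (intg _ φ.continuous)] at h1
    linarith only [h1]
  refine ⟨hf.measurable, ext_cm fun φ => ?_⟩
  rw [integral_map hf.measurable.aemeasurable φ.continuous.aestronglyMeasurable]
  have h2 := h (-φ)
  simp only [ContinuousMap.neg_apply, integral_neg] at h2
  linarith only [h2, h φ]

/-- a starting measure that is almost carried by the set where the averages stay above `b + x`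
contradicts the bound `b` -/
lemma not_dense (hf : Continuous f) {φ : C(K, ℝ)} {b x : ℝ} (hx : 0 < x) (h : Asy f S φ b)
    (hD : ∀ e > 0, ∃ ν ∈ S, (ν : Measure K).real (Up f (-φ) (-(b + x))) ≤ e) : False := by
  set U := Up f (-φ) (-(b + x))
  have hU : MeasurableSet U := measurableSet_Up hf.measurable φ.continuous.neg.measurable _
  set C := |b + x| + ‖φ‖ + 1
  obtain hC : 0 < C := by positivity
  obtain ⟨ν, hν, hνU⟩ := hD (x / 4 / C) (by (clear * - hx; positivity))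
  let g : ℕ → K → ℝ := fun n y => max (b + x - birkhoffSum f φ n y / n) 0
  have hg (n : ℕ) : Continuous (g n) :=
    (continuous_const.sub ((cont_bs hf φ.continuous n).div_const _)).max continuous_const
  have hb (n : ℕ) (y : K) : |g n y| ≤ C := by
    obtain h1 : |birkhoffSum f φ n y| ≤ n * ‖φ‖ := by
      refine (Finset.abs_sum_le_sum_abs _ _).trans ?_
      simpa using Finset.sum_le_card_nsmul (Finset.range n) (fun k => |φ (f^[k] y)|) ‖φ‖
        fun k _ => φ.norm_coe_le_norm _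
    obtain h2 : |birkhoffSum f φ n y / n| ≤ ‖φ‖ := by
      rw [abs_div, Nat.abs_cast]
      exact div_le_of_le_mul₀ (by positivity) (by positivity) (by linarith only [h1])
    rw [abs_of_nonneg (le_max_right _ _)]
    refine max_le ?_ hC.le
    linarith only [le_abs_self (b + x), (abs_le.1 h2).1]
  obtain h1 : Tendsto (fun n => ∫ y in Uᶜ, g n y ∂(ν : Measure K)) atTop
      (𝓝 (∫ _ in Uᶜ, (0 : ℝ) ∂(ν : Measure K))) := by
    refine tendsto_integral_of_dominated_convergence (fun _ => C)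
      (fun n => (hg n).aestronglyMeasurable) (integrable_const _)
      (fun n => ae_of_all _ (hb n)) ((ae_restrict_iff' hU.compl).2 (ae_of_all _ fun y hy => ?_))
    refine tendsto_order.2 ⟨fun a ha => Eventually.of_forall fun n =>
      ha.trans_le (le_max_right _ _), fun a ha => ?_⟩
    obtain ⟨q, hq1, hq2⟩ := exists_rat_btwn (show -(b + x) < -(b + x) + a by linarith only [ha])
    have h2 : ¬ ∃ᶠ n : ℕ in atTop, (q : ℝ) * n < birkhoffSum f (-⇑φ) n y := fun h => hy ⟨q, hq1, h⟩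
    filter_upwards [not_frequently.1 h2, eventually_gt_atTop 0] with n hn hn0
    obtain hn' : (0 : ℝ) < n := by exact_mod_cast hn0
    rw [birkhoffSum_neg, not_lt] at hn
    obtain this : -(q : ℝ) ≤ birkhoffSum f φ n y / n := (le_div_iff₀ hn').2 (by linarith only [hn])
    exact max_lt (by linarith only [hq2, this]) ha
  rw [integral_zero] at h1
  obtain ⟨n, ⟨h2, h3⟩, hn0⟩ := (((h1.eventually (gt_mem_nhds (show 0 < x / 4 by positivity))).and
    (h ν hν (x / 4) (by positivity))).and (eventually_gt_atTop 0)).exists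
  obtain hn' : (0 : ℝ) < n := by exact_mod_cast hn0
  have h4 := integral_add_compl hU (intg (ν : Measure K) (hg n))
  obtain h5 : ∫ y in U, g n y ∂(ν : Measure K) ≤ x / 4 := by
    have := norm_setIntegral_le_of_norm_le_const (μ := (ν : Measure K)) (s := U) (f := g n)
      (measure_lt_top _ _) fun y _ => hb n y
    rw [le_div_iff₀ hC] at hνU
    linarith only [hνU, this, le_abs_self (∫ y in U, g n y ∂(ν : Measure K)), Real.norm_eq_abs
      (∫ y in U, g n y ∂(ν : Measure K)), mul_comm C ((ν : Measure K).real U)]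
  have hi := (intg (ν : Measure K) (cont_bs hf φ.continuous n)).div_const (n : ℝ)
  have h6 := integral_mono ((integrable_const (b + x)).sub hi) (intg (ν : Measure K) (hg n))
    fun y => le_max_left _ _
  simp only [Pi.sub_apply] at h6
  rw [integral_sub (integrable_const _) hi, integral_div] at h6
  simp only [integral_const, probReal_univ, smul_eq_mul, one_mul] at h6
  rw [← div_le_iff₀ hn'] at h3
  linarith only [hx, h2, h3, h4, h5, h6]

theorem exists_ergodic (hf : Continuous f) (hS : S.Nonempty)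
    (hD : ∀ μ ∈ Cc f S, ∀ B, MeasurableSet B → f ⁻¹' B = B → (μ : Measure K) B ≠ 0 →
      ∀ e > 0, ∃ ν ∈ S, (ν : Measure K).real Bᶜ ≤ e) :
    ∃ μ ∈ Cc f S, Ergodic f (μ : Measure K) := by
  let ι : ProbabilityMeasure K → C(K, ℝ) → ℝ := fun μ φ => ∫ x, φ x ∂(μ : Measure K)
  have hι : Continuous ι :=
    continuous_pi fun φ => ProbabilityMeasure.continuous_integral_continuousMap φ
  obtain ⟨_, ⟨μ, hμ, rfl⟩, hx⟩ := ((isClosed_Cc (f := f) (S := S)).isCompact.image
    hι).extremePoints_nonempty ((Cc_nonempty hf hS).image ι)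
  have hp := Cc_mp hf hμ
  have key {A : Set K} (hA : MeasurableSet A) (hi : f ⁻¹' A = A) (h0 : (μ : Measure K) A ≠ 0) :
      ∃ ν ∈ Cc f S, (ν : Measure K) Aᶜ = 0 ∧ ∀ φ : C(K, ℝ),
        (μ : Measure K).real A * ι ν φ = ∫ x in A, φ x ∂(μ : Measure K) := by
    have hr : 0 < (μ : Measure K).real A := ENNReal.toReal_pos h0 (measure_ne_top _ _)
    have he (φ : C(K, ℝ)) : (μ : Measure K).real A * ∫ x, φ x ∂((μ : Measure K)[|A]) =
        ∫ x in A, φ x ∂(μ : Measure K) := by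
      rw [ProbabilityTheory.cond, integral_smul_measure, ENNReal.toReal_inv, smul_eq_mul]
      exact mul_inv_cancel_left₀ hr.ne' _
    refine ⟨⟨(μ : Measure K)[|A], cond_isProbabilityMeasure h0⟩, fun φ b h => ?_,
      by simp [cond_apply hA], he⟩
    refine le_of_forall_pos_le_add fun x hx => le_of_mul_le_mul_left ?_ hr
    set U := Up f (-φ) (-(b + x))
    have hU : MeasurableSet U := measurableSet_Up hf.measurable φ.continuous.neg.measurable _
    have hUi : f ⁻¹' U = U := preimage_Up _ _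
    obtain hU0 : (μ : Measure K) Uᶜ = 0 := by
      by_contra h1
      refine not_dense hf hx h fun e he => ?_
      simpa only [compl_compl] using hD μ hμ Uᶜ hU.compl (by rw [preimage_compl, hUi]) h1 e he
    obtain h2 := le_setIntegral_of_subset_Up hp φ.continuous.neg.measurable
      (intg _ φ.continuous.neg) (hA.inter hU) (by rw [preimage_inter, hi, hUi]) inter_subset_right
    have h3 : (A ∩ U : Set K) =ᵐ[(μ : Measure K)] A :=
      inter_ae_eq_left_of_ae_eq_univ (ae_eq_univ.2 hU0)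
    rw [measureReal_congr h3, setIntegral_congr_set h3] at h2
    simp only [Pi.neg_apply, integral_neg] at h2
    exact (he φ).trans_le (by linarith only [h2])
  refine ⟨μ, hμ, hp, ⟨fun A hA hi => ?_⟩⟩
  by_contra H
  obtain ⟨h1, h2⟩ : (μ : Measure K) A ≠ 0 ∧ (μ : Measure K) Aᶜ ≠ 0 := by
    simpa [eventuallyConst_set, ae_iff, and_comm] using! H
  obtain ⟨ν₁, m1, z1, e1⟩ := key hA hi h1
  obtain ⟨ν₂, m2, -, e2⟩ := key hA.compl (by rw [preimage_compl, hi]) h2
  obtain h3 := hx (mem_image_of_mem ι m1) (mem_image_of_mem ι m2)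
    ⟨(μ : Measure K).real A, (μ : Measure K).real Aᶜ, ENNReal.toReal_pos h1 (measure_ne_top _ _),
      ENNReal.toReal_pos h2 (measure_ne_top _ _), probReal_add_probReal_compl hA, funext fun φ => by
        simp only [Pi.add_apply, Pi.smul_apply, smul_eq_mul, e1, e2]
        exact integral_add_compl hA (intg _ φ.continuous)⟩
  exact h2 (ext_cm (μ := (ν₁ : Measure K)) (ν := (μ : Measure K)) (congrFun h3) ▸ z1)

end Pool.Agent.MP_9cbfe4_an.G3

end

/-! ### Part G3b -/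

section

/-! Starting measures carried by a compact family of curves: null lemma, density, ergodicity. -/

namespace Pool.Agent.MP_9cbfe4_an.G3

open MeasureTheory ProbabilityTheory Filter Topology Set

variable {K : Type*} [MetricSpace K] [CompactSpace K] [MeasurableSpace K] [BorelSpace K]
  {f : K → K} {A : Type*}

/-- normalised length on pieces of the curves -/
def St (γ : A → ℝ → K) : Set (ProbabilityMeasure K) :=
  {ν | ∃ H α l, 0 ≤ α ∧ 0 < l ∧ α + l ≤ 100 ∧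
    (ν : Measure K) = (volume[|Icc α (α + l)]).map (γ H)}

omit [CompactSpace K] in
lemma St_ex {γ : A → ℝ → K} (H : A) (hγ : Continuous (γ H)) {α l : ℝ} (h0 : 0 ≤ α) (hl : 0 < l)
    (h1 : α + l ≤ 100) : ∃ ν ∈ St γ, (ν : Measure K) = (volume[|Icc α (α + l)]).map (γ H) := by
  obtain this : IsProbabilityMeasure (volume[|Icc α (α + l)]) :=
    cond_isProbabilityMeasure_of_finite (by simpa using hl) (by simp)
  exact ⟨⟨_, Measure.isProbabilityMeasure_map hγ.measurable.aemeasurable⟩,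
    ⟨H, α, l, h0, hl, h1, rfl⟩, rfl⟩

lemma Cc_le (hf : Continuous f) {γ : A → ℝ → K} (hγ : ∀ H, Continuous (γ H))
    {μ : ProbabilityMeasure K} (hμ : μ ∈ Cc f (St γ)) (φ : C(K, ℝ)) (b : ℝ)
    (h : ∀ H α l, 0 ≤ α → 0 < l → α + l ≤ 100 → ∀ e > 0, ∀ᶠ i : ℕ in atTop,
      ∫ u in α..α + l, φ (f^[i] (γ H u)) ≤ l * (b + e)) : ∫ x, φ x ∂(μ : Measure K) ≤ b := by
  refine hμ φ b (asy_of_ev hf ?_)
  rintro ν ⟨H, α, l, h0, hl, h1, hν⟩ e he
  filter_upwards [h H α l h0 hl h1 e he] with i hi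
  rw [hν, integral_map (hγ H).measurable.aemeasurable
    (φ.continuous.comp' (hf.iterate i)).aestronglyMeasurable, ProbabilityTheory.cond,
    integral_smul_measure, integral_Icc_eq_integral_Ioc,
    ← intervalIntegral.integral_of_le (by linarith only [hl]), Real.volume_Icc, add_sub_cancel_left,
    ENNReal.toReal_inv, ENNReal.toReal_ofReal hl.le, smul_eq_mul, inv_mul_le_iff₀ hl]
  exact hi

lemma dpos (n : ℕ) : 0 < (1 : ℝ) / (n + 1) := by positivity

/-- continuous approximations of the indicator of `F` -/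
noncomputable def ti {X : Type*} [MetricSpace X] (F : Set X) (n : ℕ) : C(X, ℝ) :=
  ⟨fun x => thickenedIndicator (dpos n) F x, by fun_prop⟩

lemma ti_mem {X : Type*} [MetricSpace X] (F : Set X) (n : ℕ) (x : X) :
    0 ≤ ti F n x ∧ ti F n x ≤ 1 :=
  ⟨NNReal.coe_nonneg _, NNReal.coe_le_coe.2 (thickenedIndicator_le_one _ F x)⟩

lemma ti_one {X : Type*} [MetricSpace X] {F : Set X} (n : ℕ) {x : X} (h : x ∈ F) : ti F n x = 1 :=
  congrArg NNReal.toReal (thickenedIndicator_one _ F h)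

lemma ti_lim {X : Type*} [MetricSpace X] [MeasurableSpace X] [BorelSpace X] (μ : Measure X)
    [IsFiniteMeasure μ] {F : Set X} (h : IsClosed F) :
    Tendsto (fun n => ∫ x, ti F n x ∂μ) atTop (𝓝 (μ.real F)) :=
  tendsto_integral_thickenedIndicator_of_isClosed μ h dpos tendsto_one_div_add_atTop_nhds_zero_nat

variable [TopologicalSpace A] [CompactSpace A] [Nonempty A]

omit [CompactSpace K] in
lemma sup_lim {γ : A → ℝ → K} (hγ : Continuous γ.uncurry) {F : Set K} (hF : IsClosed F)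
    (h : ∀ H, volume {u | u ∈ Icc (0 : ℝ) 100 ∧ γ H u ∈ F} = 0) :
    ∃ β : ℕ → ℝ, (∀ n, 0 ≤ β n ∧ β n ≤ 100 ∧ ∀ H, ∫ u in (0 : ℝ)..100, ti F n (γ H u) ≤ β n) ∧
      Tendsto β atTop (𝓝 0) := by
  let I : ℕ → A → ℝ := fun n H => ∫ u in (0 : ℝ)..100, ti F n (γ H u)
  have hc (H : A) : Continuous (γ H) := hγ.uncurry_left H
  have hi (n H) : IntervalIntegrable (fun u => ti F n (γ H u)) volume 0 100 :=
    ((ti F n).continuous.comp (hc H)).intervalIntegrable _ _
  have h0 (n H) : 0 ≤ I n H :=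
    intervalIntegral.integral_nonneg (by norm_num) fun u _ => (ti_mem F n _).1
  have h1 (n H) : I n H ≤ 100 := by
    simpa using intervalIntegral.integral_mono_on (by norm_num) (hi n H)
      (intervalIntegrable_const (c := (1 : ℝ))) fun u _ => (ti_mem F n _).2
  have hb (n) : BddAbove (range (I n)) := ⟨100, forall_mem_range.2 (h1 n)⟩
  obtain hu : TendstoUniformly I (fun _ => 0) atTop := by
    refine Antitone.tendstoUniformly_of_forall_tendsto (fun n => ?_) (fun m n hmn H => ?_)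
      continuous_const fun H => ?_
    · exact intervalIntegral.continuous_parametric_intervalIntegral_of_continuous'
        (f := fun H u => ti F n (γ H u)) ((ti F n).continuous.comp hγ) _ _
    · refine intervalIntegral.integral_mono_on (by norm_num) (hi n H) (hi m H) fun u _ =>
        NNReal.coe_le_coe.2 (thickenedIndicator_mono _ _ ?_ F _)
      gcongr
    · have h2 := ti_lim ((volume.restrict (Icc (0 : ℝ) 100)).map (γ H)) hF
      rw [map_measureReal_apply (hc H).measurable hF.measurableSet, Measure.real,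
        Measure.restrict_apply' measurableSet_Icc, inter_comm,
        (show volume (Icc (0 : ℝ) 100 ∩ γ H ⁻¹' F) = 0 from h H)] at h2
      refine h2.congr fun n => ?_
      rw [integral_map (hc H).measurable.aemeasurable (ti F n).continuous.aestronglyMeasurable,
        integral_Icc_eq_integral_Ioc, ← intervalIntegral.integral_of_le (by norm_num)]
  have h3 (n) : 0 ≤ ⨆ H, I n H := (h0 n (Classical.arbitrary A)).trans (le_ciSup (hb n) _)
  refine ⟨fun n => ⨆ H, I n H, fun n => ⟨h3 n, ciSup_le (h1 n), le_ciSup (hb n)⟩,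
    tendsto_order.2 ⟨fun a ha => Eventually.of_forall fun n => ha.trans_le (h3 n), fun a ha => ?_⟩⟩
  filter_upwards [Metric.tendstoUniformly_iff.1 hu (a / 2) (half_pos ha)] with n hn
  refine (ciSup_le fun H => ?_).trans_lt (half_lt_self ha)
  have := hn H
  rw [Real.dist_eq, abs_lt] at this
  linarith only [this.1]

theorem exists_msr (hf : Continuous f) {γ : ℕ → A → ℝ → K} (hγ : ∀ j, Continuous (γ j).uncurry)
    (hs : ∀ j H u, γ j H u = f (γ (j + 1) H u)) {T : ℕ → ℝ} (hT0 : ∀ j, 0 ≤ T j) (hT : Summable T)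
    (hd : ∀ H α l, 0 ≤ α → 0 < l → α + l ≤ 100 → ∀ ψ : C(K, ℝ), (∀ p, 0 ≤ ψ p ∧ ψ p ≤ 1) →
      ∀ B : ℕ → ℝ, (∀ j, B j ≤ 100) → (∀ j H', ∫ u in (0 : ℝ)..100, ψ (γ j H' u) ≤ B j) →
      ∀ e > 0, ∀ᶠ i : ℕ in atTop,
        ∫ u in α..α + l, ψ (f^[i] (γ 0 H u)) ≤ l * (∑' j, T j * B j + e)) :
    ∃ μ : Measure K, IsProbabilityMeasure μ ∧ Ergodic f μ ∧
      (∀ B, MeasurableSet B → (∀ j H, volume {u | u ∈ Icc (0 : ℝ) 100 ∧ γ j H u ∈ B} = 0) →
        μ B = 0) ∧
      ∀ (φ : C(K, ℝ)) (b : ℝ), (∀ H α l, 0 ≤ α → 0 < l → α + l ≤ 100 → ∀ e > 0,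
        ∀ᶠ i : ℕ in atTop, l * (b - e) ≤ ∫ u in α..α + l, φ (f^[i] (γ 0 H u))) →
        b ≤ ∫ x, φ x ∂μ := by
  have hc (j H) : Continuous (γ j H) := (hγ j).uncurry_left H
  obtain null : ∀ μ ∈ Cc f (St (γ 0)), ∀ B, MeasurableSet B →
      (∀ j H, volume {u | u ∈ Icc (0 : ℝ) 100 ∧ γ j H u ∈ B} = 0) → (μ : Measure K) B = 0 := by
    intro μ hμ B hB h
    by_contra h0
    obtain ⟨F, hFB, hF, hp⟩ := hB.exists_lt_isClosed_of_ne_top (measure_ne_top (μ : Measure K) _)
      (pos_iff_ne_zero.2 h0)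
    choose β hβ hl using fun j => sup_lim (hγ j) hF fun H =>
      measure_mono_null (fun u hu => mem_ofPred.2 ⟨hu.1, hFB hu.2⟩) (h j H)
    obtain h1 : Tendsto (fun n => ∑' j, T j * β j n) atTop (𝓝 (∑' j, T j * 0)) :=
      tendsto_tsum_of_dominated_convergence (hT.mul_right 100) (fun j => (hl j).const_mul _)
        (Eventually.of_forall fun n j => by
          rw [Real.norm_of_nonneg (mul_nonneg (hT0 j) (hβ j n).1)]
          exact mul_le_mul_of_nonneg_left (hβ j n).2.1 (hT0 j))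
    have h2 := le_of_tendsto_of_tendsto' (ti_lim (μ : Measure K) hF) h1 fun n =>
      Cc_le hf (hc 0) hμ _ _ fun H α l a b c => hd H α l a b c _ (ti_mem F n) (β · n)
        (fun j => (hβ j n).2.1) fun j => (hβ j n).2.2
    simp only [mul_zero, tsum_zero] at h2
    exact (ENNReal.toReal_pos hp.ne' (measure_ne_top _ _)).not_ge h2
  obtain ⟨ν, hν, -⟩ := St_ex (Classical.arbitrary A) (hc 0 _) le_rfl one_pos (by norm_num)
  obtain ⟨μ, hμ, he⟩ := exists_ergodic hf ⟨ν, hν⟩ fun μ hμ B hB hi h0 e he => by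
    obtain ⟨j, H, h1⟩ : ∃ j H, volume {u | u ∈ Icc (0 : ℝ) 100 ∧ γ j H u ∈ B} ≠ 0 := by
      by_contra! h
      exact h0 (null μ hμ B hB h)
    have h2 (u : ℝ) (j : ℕ) : γ j H u ∈ B ↔ γ 0 H u ∈ B := by
      induction j with
      | zero => rfl
      | succ j ih => rw [← ih, hs j H u, ← mem_preimage (f := f), hi]
    have hE : MeasurableSet (γ 0 H ⁻¹' B) := (hc 0 H).measurable hB
    obtain ⟨x, ⟨⟨⟨a, b⟩, hx⟩, h3⟩, a', b'⟩ := (((frequently_ae_mem_iff.2 h1).and_eventually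
      (Besicovitch.ae_tendsto_measure_inter_div_of_measurableSet volume hE)).and_eventually
      ((Measure.ae_ne volume 0).and (Measure.ae_ne volume 100))).exists
    rw [indicator_of_mem (show x ∈ γ 0 H ⁻¹' B from (h2 x j).1 hx), Pi.one_apply] at h3
    obtain h4 := ((ENNReal.tendsto_toReal ENNReal.one_ne_top).comp h3).eventually
      (lt_mem_nhds (show 1 - e < ENNReal.toReal 1 by simpa using he))
    obtain ⟨r, h5, h6, h7⟩ := (h4.and (Ioo_mem_nhdsGT (lt_min (a.lt_of_ne a'.symm)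
      (sub_pos.2 (b.lt_of_ne b'))))).exists
    rw [lt_min_iff] at h7
    obtain ⟨ν, hν, e1⟩ := St_ex H (hc 0 H) (α := x - r) (l := 2 * r) (by linarith only [h7.1])
      (by linarith only [h6]) (by linarith only [h7.2])
    refine ⟨ν, hν, ?_⟩
    rw [probReal_compl_eq_one_sub hB, e1, map_measureReal_apply (hc 0 H).measurable hB,
      Measure.real, cond_apply measurableSet_Icc, show x - r + 2 * r = x + r by ring,
      ← Real.closedBall_eq_Icc, inter_comm, ← ENNReal.div_eq_inv_mul]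
    exact sub_le_comm.1 h5.le
  refine ⟨μ, inferInstance, he, null μ hμ, fun φ b h => ?_⟩
  obtain this := Cc_le hf (hc 0) hμ (-φ) (-b) fun H α l a b c e he => by
    filter_upwards [h H α l a b c e he] with i hi
    simp only [ContinuousMap.neg_apply, intervalIntegral.integral_neg]
    linarith only [hi]
  simpa [integral_neg] using this

end Pool.Agent.MP_9cbfe4_an.G3

end

/-! ### Part G4a -/

section

/-! Row G4, part a: two-term linear recursions with visits. -/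

namespace Pool.Agent.MP_9cbfe4_an.G4

open Filter Topology Finset Real

noncomputable section

variable {a b ξ η : ℤ → ℝ} {κ q : ℝ}

/-- full solution of the recursion -/
def Sl (a b ξ : ℤ → ℝ) : Prop := ∀ j, ξ (j + 1) = a j * ξ j + b j * ξ (j - 1)

lemma Sl.sub (h : Sl a b ξ) (h' : Sl a b η) (c : ℝ) : Sl a b fun j => η j - c * ξ j :=
  fun j => by simp only [h j, h' j]; ring

lemma Sl.zero (h : Sl a b ξ) (hb : ∀ j, b j ≠ 0) {m : ℤ} (h0 : ξ m = 0) (h1 : ξ (m - 1) = 0)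
    (j : ℤ) : ξ j = 0 := by
  refine (Int.inductionOn' (motive := fun j => ξ j = 0 ∧ ξ (j - 1) = 0) j m ⟨h0, h1⟩
    (fun k _ e => ⟨by rw [h k, e.1, e.2]; ring, by simpa using e.1⟩) fun k _ e => ⟨e.2, ?_⟩).1
  have := h (k - 1)
  rw [sub_add_cancel, e.1, e.2] at this
  simpa [hb] using this

lemma exists_sl (hb : ∀ j, b j ≠ 0) (a : ℤ → ℝ) (m : ℤ) (x y : ℝ) :
    ∃ ξ, Sl a b ξ ∧ ξ m = x ∧ ξ (m - 1) = y := by
  let Z : ℤ → ℝ × ℝ := fun j => Int.inductionOn' j m (x, y)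
    (fun k _ p => (a k * p.1 + b k * p.2, p.1))
    fun k _ p => (p.2, (p.1 - a (k - 1) * p.2) / b (k - 1))
  have h (k : ℤ) : Z (k + 1) = (a k * (Z k).1 + b k * (Z k).2, (Z k).1) := by
    rcases le_or_gt m k with h | h
    · exact Int.inductionOn'_add_one h
    · have e : Z (k + 1 - 1) = _ := Int.inductionOn'_sub_one (show k + 1 ≤ m from h)
      rw [add_sub_cancel_right] at e
      rw [e]
      have := hb k
      ext
      · simp only; field_simp; ring
      · rfl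
  have h2 (k : ℤ) : (Z k).2 = (Z (k - 1)).1 := by
    have := h (k - 1)
    rw [sub_add_cancel] at this
    rw [this]
  have h0 : Z m = (x, y) := Int.inductionOn'_self
  exact ⟨fun j => (Z j).1, fun j => by simp only [h j, h2 j], by simp only [h0],
    by simp only [← h2, h0]⟩

/-- Wronskian -/
def Wr (ξ η : ℤ → ℝ) (j : ℤ) : ℝ := ξ j * η (j - 1) - ξ (j - 1) * η j

lemma Wr_succ (h : Sl a b ξ) (h' : Sl a b η) (j : ℤ) : Wr ξ η (j + 1) = -b j * Wr ξ η j := by
  simp only [Wr, h j, h' j, add_sub_cancel_right]; ring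

/-- product of the last `j` coefficients -/
def Pr (b : ℤ → ℝ) (m : ℤ) (j : ℕ) : ℝ := ∏ l ∈ range j, b (m - l)

lemma Wr_prod (h : Sl a b ξ) (h' : Sl a b η) (hb : ∀ j, 0 < b j) (m : ℤ) (j : ℕ) :
    |Wr ξ η (m + 1)| = Pr b m j * |Wr ξ η (m - j + 1)| := by
  induction j with
  | zero => simp [Pr]
  | succ j ih =>
    rw [ih, Wr_succ h h', Pr, Pr, prod_range_succ, abs_mul, abs_neg, abs_of_pos (hb _), mul_assoc]
    congr 4
    push_cast; ring

/-- norm of the vector at time `n` -/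
def nV (ξ : ℤ → ℝ) (n : ℤ) : ℝ := max |ξ n| |ξ (n - 1)|

lemma nV_nonneg (ξ : ℤ → ℝ) (n : ℤ) : 0 ≤ nV ξ n := (abs_nonneg _).trans (le_max_left _ _)

lemma nV_mul (c : ℝ) (n : ℤ) : nV (fun j => c * ξ j) n = |c| * nV ξ n := by
  simp only [nV, abs_mul, mul_max_of_nonneg _ _ (abs_nonneg c)]

lemma nV_sub (n : ℤ) : nV (fun j => ξ j - η j) n ≤ nV ξ n + nV η n :=
  max_le ((abs_sub _ _).trans (add_le_add (le_max_left _ _) (le_max_left _ _)))
    ((abs_sub _ _).trans (add_le_add (le_max_right _ _) (le_max_right _ _)))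

/-- one-step bounds -/
structure Bd (κ : ℝ) (a b : ℤ → ℝ) : Prop where
  k0 : 0 ≤ κ
  pos : ∀ j, 0 < b j
  hb : ∀ j, b j ≤ exp κ
  up : ∀ ξ, Sl a b ξ → ∀ n, nV ξ (n + 1) ≤ exp κ * nV ξ n
  dn : ∀ ξ, Sl a b ξ → ∀ n, nV ξ n ≤ exp κ * nV ξ (n + 1)

lemma exists_bd {K e : ℝ} (he : 0 < e) (ha : ∀ j, |a j| ≤ K) (hb : ∀ j, e ≤ b j ∧ b j ≤ K) :
    ∃ κ, Bd κ a b := by
  have hK : 0 ≤ K := (abs_nonneg _).trans (ha 0)
  obtain h1 : 0 ≤ (1 + K) / e := by positivity
  have h2 := add_one_le_exp (2 * K + (1 + K) / e)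
  refine ⟨2 * K + (1 + K) / e, by (clear * - hK he; positivity), fun j => he.trans_le (hb j).1,
    fun j => by linarith only [hK, h1, h2, (hb j).2], fun ξ h n => ?_, fun ξ h n => ?_⟩
  · have h3 := nV_nonneg ξ n
    have h4 : |ξ n| ≤ nV ξ n := le_max_left _ _
    have h5 : |ξ (n - 1)| ≤ nV ξ n := le_max_right _ _
    refine max_le ?_ (by rw [add_sub_cancel_right]; nlinarith only [h4, hK, h3, h1, h2])
    rw [h n]
    refine (abs_add_le _ _).trans ?_
    rw [abs_mul, abs_mul, abs_of_pos (he.trans_le (hb n).1)]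
    have := mul_le_mul (ha n) h4 (abs_nonneg _) hK
    have := mul_le_mul (hb n).2 h5 (abs_nonneg _) hK
    (rename_i zq0; nlinarith only [h3, zq0, this, h1, h2])
  · have h3 := nV_nonneg ξ (n + 1)
    have h4 : |ξ (n + 1)| ≤ nV ξ (n + 1) := le_max_left _ _
    obtain h5 : |ξ n| ≤ nV ξ (n + 1) := by
      rw [nV, add_sub_cancel_right]; exact le_max_right _ _
    refine max_le (by nlinarith only [h5, hK, h3, h1, h2]) ?_
    obtain h6 : e * |ξ (n - 1)| ≤ (1 + K) * nV ξ (n + 1) := by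
      obtain h7 : b n * ξ (n - 1) = ξ (n + 1) - a n * ξ n := by rw [h n]; ring
      have h8 := abs_sub (ξ (n + 1)) (a n * ξ n)
      rw [← h7, abs_mul, abs_mul, abs_of_pos (he.trans_le (hb n).1)] at h8
      have := mul_le_mul (ha n) h5 (abs_nonneg _) hK
      have := mul_le_mul_of_nonneg_right (hb n).1 (abs_nonneg (ξ (n - 1)))
      (rename_i zq0; linarith only [h4, h8, zq0, this])
    obtain h9 : |ξ (n - 1)| ≤ (1 + K) / e * nV ξ (n + 1) := by
      rw [div_mul_eq_mul_div, le_div_iff₀ he]; linarith only [h6]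
    nlinarith only [h3, h9, hK, h2]

lemma Bd.dn' (H : Bd κ a b) (h : Sl a b ξ) (m : ℤ) (d : ℕ) :
    nV ξ m ≤ exp (κ * d) * nV ξ (m + d) := by
  induction d with
  | zero => simp
  | succ d ih =>
    refine ih.trans ((mul_le_mul_of_nonneg_left (H.dn ξ h _) (exp_pos _).le).trans_eq ?_)
    rw [← mul_assoc, ← exp_add]
    push_cast; ring_nf

lemma Bd.wr (H : Bd κ a b) (h : Sl a b ξ) (h' : Sl a b η) (m : ℤ) (d : ℕ) :
    |Wr ξ η (m + d)| ≤ exp (κ * d) * |Wr ξ η m| := by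
  induction d with
  | zero => simp
  | succ d ih =>
    rw [Nat.cast_succ, ← add_assoc, Wr_succ h h', abs_mul, abs_neg, abs_of_pos (H.pos _)]
    refine (mul_le_mul (H.hb _) ih (abs_nonneg _) (exp_pos _).le).trans_eq ?_
    rw [← mul_assoc, ← exp_add]
    push_cast; ring_nf

/-- `m` is a visit for the solution `ξ` -/
def Vis (q : ℝ) (b ξ : ℤ → ℝ) (m : ℤ) : Prop := ξ m ≠ 0 ∧ ∀ j : ℕ, 1 ≤ j →
  |ξ (m - j)| ≤ exp (-q) * |ξ m| ∧ Pr b m j * |ξ (m - j)| ≤ 100 * exp (-(j : ℝ) / 2) * |ξ m|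

lemma Vis.le {m i : ℤ} (h : Vis q b ξ m) (hi : i < m) : |ξ i| ≤ exp (-q) * |ξ m| := by
  obtain this := (h.2 (m - i).toNat (by omega)).1
  rwa [show m - ((m - i).toNat : ℕ) = i by omega] at this

lemma Vis.le' {m i : ℤ} (h : Vis q b ξ m) (hq : 0 ≤ q) (hi : i ≤ m) : |ξ i| ≤ |ξ m| := by
  rcases hi.eq_or_lt with rfl | hi
  · rfl
  · exact (h.le hi).trans (mul_le_of_le_one_left (abs_nonneg _) (exp_le_one_iff.2 (by linarith only [hq])))

/-- uniqueness of the slope -/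
lemma Vis.uniq (H : Bd κ a b) (hq : 0 ≤ q) (h : Sl a b ξ) (h' : Sl a b η) {m m' : ℤ}
    (v : Vis q b ξ m) (v' : Vis q b η m') : Vis q b ξ m' := by
  obtain h0 : |Wr ξ η (m + 1)| ≤ 0 := by
    obtain t : Tendsto (fun j : ℕ => (exp κ + 1) * (100 * exp (-(j : ℝ) / 2) * |ξ m|) * |η m'|) atTop
        (𝓝 ((exp κ + 1) * (100 * 0 * |ξ m|) * |η m'|)) := by
      refine (((Tendsto.const_mul _ ?_).mul_const _).const_mul _).mul_const _
      exact tendsto_exp_atBot.comp ((tendsto_neg_atTop_atBot.comp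
        tendsto_natCast_atTop_atTop).atBot_div_const two_pos)
    simp only [mul_zero, zero_mul] at t
    refine ge_of_tendsto t ?_
    filter_upwards [eventually_ge_atTop 1, eventually_ge_atTop (m - m').toNat] with j j1 j2
    obtain e : m - ((j + 1 : ℕ) : ℤ) = m - j - 1 := by push_cast; ring
    have h1 := (v.2 j j1).2
    obtain h2 := (v.2 (j + 1) (by omega)).2
    obtain h3 := v'.le' hq (i := m - j) (by omega)
    obtain h4 := v'.le' hq (i := m - j - 1) (by omega)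
    have h5 : Pr b m (j + 1) = Pr b m j * b (m - j) := prod_range_succ _ _
    have h6 : 0 ≤ Pr b m j := prod_nonneg fun _ _ => (H.pos _).le
    obtain h7 : exp (-((j + 1 : ℕ) : ℝ) / 2) ≤ exp (-(j : ℝ) / 2) :=
      exp_le_exp.2 (by push_cast; linarith only [])
    rw [Wr_prod h h' H.pos m (j + 1), e, sub_add_cancel]
    rw [e] at h2
    have h8 := abs_sub (ξ (m - j) * η (m - j - 1)) (ξ (m - j - 1) * η (m - j))
    rw [abs_mul, abs_mul] at h8
    obtain h9 : Pr b m (j + 1) * |ξ (m - j)| ≤ exp κ * (100 * exp (-(j : ℝ) / 2) * |ξ m|) := by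
      rw [h5, mul_right_comm, mul_comm]
      exact mul_le_mul (H.hb _) h1 (mul_nonneg h6 (abs_nonneg _)) (exp_pos _).le
    have h10 : 0 ≤ Pr b m (j + 1) := prod_nonneg fun _ _ => (H.pos _).le
    obtain h11 := mul_le_mul h9 h4 (abs_nonneg _) (by (clear * -; positivity))
    obtain h12 := mul_le_mul (h2.trans (show _ ≤ 100 * exp (-(j : ℝ) / 2) * |ξ m| by gcongr)) h3
      (abs_nonneg _) (by (clear * -; positivity))
    have h13 := mul_le_mul_of_nonneg_left h8 h10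
    unfold Wr
    linarith only [h11, h12, h13]
  obtain h1 : ξ (m + 1) * η m - ξ m * η (m + 1) = 0 := by
    simpa only [Wr, add_sub_cancel_right] using abs_nonpos_iff.1 h0
  have hm := v.1
  have h2 (j : ℤ) : η j = η m / ξ m * ξ j := sub_eq_zero.1
    ((h.sub h' _).zero (fun j => (H.pos j).ne') (m := m + 1) (by field_simp; linarith only [h1])
      (by rw [add_sub_cancel_right]; field_simp; ring) j)
  generalize η m / ξ m = c at h2
  obtain hc : 0 < |c| := abs_pos.2 fun e => v'.1 (by rw [h2, e, zero_mul])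
  refine ⟨fun e => v'.1 (by rw [h2, e, mul_zero]), fun j j1 => ?_⟩
  obtain ⟨h3, h4⟩ := v'.2 j j1
  rw [h2 (m' - j), h2 m', abs_mul, abs_mul] at h3 h4
  exact ⟨le_of_mul_le_mul_left (by linarith only [h3]) hc, le_of_mul_le_mul_left (by linarith only [h4]) hc⟩

open Classical in
/-- number of visits before time `n` -/
def cnt (S : ℕ → Prop) (n : ℕ) : ℝ := ∑ k ∈ range n, if S k then 1 else 0

/-- the visits have a positive frequency -/
def Freq (S : ℕ → Prop) : Prop := ∃ θ > 0, Tendsto (fun n : ℕ => cnt S n / n) atTop (𝓝 θ)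

variable {S : ℕ → Prop}

lemma cnt_pos {n : ℕ} (h : S n) : cnt S (n + 1) = cnt S n + 1 := by
  rw [cnt, sum_range_succ, if_pos h, cnt]

lemma cnt_neg {n : ℕ} (h : ¬ S n) : cnt S (n + 1) = cnt S n := by
  rw [cnt, sum_range_succ, if_neg h, add_zero, cnt]

lemma cnt_bd (n : ℕ) : 0 ≤ cnt S n ∧ cnt S n ≤ n := by
  induction n with
  | zero => simp [cnt]
  | succ n ih =>
    by_cases h : S n
    · rw [cnt_pos h]; push_cast; constructor <;> linarith only [ih]
    · rw [cnt_neg h]; push_cast; constructor <;> linarith only [ih]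

lemma cnt_last (n : ℕ) : cnt S n = 0 ∨ ∃ m < n, S m ∧ cnt S n = cnt S m + 1 := by
  induction n with
  | zero => simp [cnt]
  | succ n ih =>
    by_cases h : S n
    · exact Or.inr ⟨n, n.lt_succ_self, h, cnt_pos h⟩
    · rw [cnt_neg h]
      exact ih.imp_right fun ⟨m, h1, h2⟩ => ⟨m, h1.trans n.lt_succ_self, h2⟩

lemma Freq.gap (h : Freq S) : ∃ θ > 0, ∀ δ > 0, ∀ᶠ n : ℕ in atTop,
    θ * n ≤ cnt S n ∧ ∃ m < n, S m ∧ (n : ℝ) - m ≤ δ * n ∧ θ * n ≤ cnt S m := by
  obtain ⟨θ, h0, h⟩ := h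
  refine ⟨θ / 2, half_pos h0, fun δ hδ => ?_⟩
  obtain ⟨ε, e0, e1, e2⟩ : ∃ ε > 0, ε ≤ θ / 4 ∧ ε ≤ θ * δ / 4 :=
    ⟨min (θ / 4) (θ * δ / 4), by positivity, min_le_left _ _, min_le_right _ _⟩
  obtain ⟨N, hN⟩ := eventually_atTop.1 ((Metric.tendsto_nhds.1 h ε e0).and (eventually_gt_atTop 0))
  have hC (m : ℕ) : cnt S m ≤ (θ + ε) * m + N ∧ (N ≤ m → (θ - ε) * m ≤ cnt S m) := by
    have hm : (0 : ℝ) ≤ m := m.cast_nonneg
    rcases le_or_gt N m with h1 | h1
    · obtain ⟨h2, h3⟩ := hN m h1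
      obtain h3 : (0 : ℝ) < m := by exact_mod_cast h3
      rw [Real.dist_eq, abs_sub_lt_iff, sub_lt_iff_lt_add, div_lt_iff₀ h3, sub_lt_comm,
        lt_div_iff₀ h3] at h2
      exact ⟨by linarith only [h2.1, (N.cast_nonneg : (0 : ℝ) ≤ N)], fun _ => h2.2.le⟩
    · obtain this : (m : ℝ) ≤ N := by exact_mod_cast h1.le
      exact ⟨by nlinarith only [this, h0, e0, (cnt_bd (S := S) m).2], fun h => absurd h1 h.not_gt⟩
  filter_upwards [eventually_ge_atTop N, (tendsto_natCast_atTop_atTop (R := ℝ)).eventually_ge_atTop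
    ((N + 1) / ε)] with n n1 n2
  rw [div_le_iff₀ e0] at n2
  have h1 := (hC n).2 n1
  have hn : (0 : ℝ) ≤ n := n.cast_nonneg
  have hN0 : (0 : ℝ) ≤ N := N.cast_nonneg
  have h5 := mul_le_mul_of_nonneg_right e1 hn
  refine ⟨by linarith only [n2, h1, h5], ?_⟩
  rcases cnt_last (S := S) n with h2 | ⟨m, h2, h3, h4⟩
  · linarith only [n2, h1, h5, h2]
  refine ⟨m, h2, h3, le_of_mul_le_mul_left ?_ h0, by linarith only [n2, h1, h5, h4]⟩
  obtain h6 : (m : ℝ) ≤ n := by exact_mod_cast h2.le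
  have h7 := mul_le_mul_of_nonneg_right e2 hn
  have h8 := mul_le_mul_of_nonneg_left h6 e0.le
  linarith only [n2, h1, h4, h7, h8, (hC m).1]

lemma all_of_ev {f g : ℕ → ℝ} {C : ℝ} (hf : ∀ n, 0 ≤ f n) (hg : ∀ n, 0 < g n)
    (h : ∀ᶠ n in atTop, f n ≤ C * g n) : ∃ C > 0, ∀ n, f n ≤ C * g n := by
  obtain ⟨C, h0, h1⟩ := Asymptotics.bound_of_isBigO_nat_atTop (f := f) (g'' := g)
    (Asymptotics.IsBigO.of_bound C (h.mono fun n e => by
      rwa [Real.norm_of_nonneg (hf n), Real.norm_of_nonneg (hg n).le]))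
  exact ⟨C, h0, fun n => by
    simpa only [Real.norm_of_nonneg (hf n), Real.norm_of_nonneg (hg n).le] using h1 (hg n).ne'⟩

/-- backward decay -/
lemma back {j : ℤ} (hq : 0 < q) (hS : Freq S) (hv : ∀ k : ℕ, S k → Vis q b ξ (-k))
    (h0 : 0 ≤ j) (v : Vis q b ξ j) :
    ∃ C e : ℝ, 0 < e ∧ ∀ (n : ℕ) (i : ℤ), i ≤ -n → |ξ i| ≤ C * exp (-e * n) := by
  have h1 (n : ℕ) : ∀ i : ℤ, i ≤ -n → |ξ i| ≤ exp (-q * cnt S n) * |ξ j| := by
    induction n with
    | zero => exact fun i hi => by simpa [cnt] using v.le' hq.le (by omega)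
    | succ n ih =>
      intro i hi
      by_cases h : S n
      · refine ((hv n h).le (by omega)).trans
          ((mul_le_mul_of_nonneg_left (ih _ le_rfl) (exp_pos _).le).trans_eq ?_)
        rw [cnt_pos h, ← mul_assoc, ← exp_add]; ring_nf
      · rw [cnt_neg h]; exact ih i (by omega)
  obtain ⟨θ, t0, ht⟩ := hS.gap
  obtain ⟨C, -, hC⟩ := all_of_ev (f := fun n => exp (-q * cnt S n))
    (g := fun n => exp (-(q * θ) * n)) (C := 1) (fun _ => (exp_pos _).le) (fun _ => exp_pos _)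
    ((ht 1 one_pos).mono fun n e => by
      rw [one_mul]; exact exp_le_exp.2 (by nlinarith only [hq, e.1]))
  exact ⟨C * |ξ j|, q * θ, by positivity, fun n i hi => (h1 n i hi).trans
    ((mul_le_mul_of_nonneg_right (hC n) (abs_nonneg _)).trans_eq (by ring))⟩

lemma nV_pos (H : Bd κ a b) (h : Sl a b ξ) {m : ℤ} (hm : ξ m ≠ 0) (n : ℤ) : 0 < nV ξ n :=
  (nV_nonneg ξ n).lt_of_ne fun e => hm (h.zero (fun j => (H.pos j).ne') (m := n)
    (abs_nonpos_iff.1 ((le_max_left _ _).trans e.ge))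
    (abs_nonpos_iff.1 ((le_max_right _ _).trans e.ge)) m)

lemma exists_neg (H : Bd κ a b) (h : Sl a b ξ) {m : ℤ} (hm : ξ m ≠ 0) : ∃ i < 0, ξ i ≠ 0 := by
  by_contra! e
  exact hm (h.zero (fun j => (H.pos j).ne') (m := -1) (e _ (by omega)) (e _ (by omega)) m)

lemma Bd.dn2 (H : Bd κ a b) (h : Sl a b ξ) {m : ℤ} {n : ℕ} (hm : m ≤ n) {x : ℝ}
    (hx : κ * (n - m) ≤ x) : nV ξ m ≤ exp x * nV ξ n := by
  have := H.dn' h m (n - m).toNat
  rw [show m + ((n - m).toNat : ℕ) = n by omega] at this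
  refine this.trans (mul_le_mul_of_nonneg_right (exp_le_exp.2 (le_of_eq_of_le ?_ hx))
    (nV_nonneg _ _))
  congr 1
  exact_mod_cast (show (((n - m).toNat : ℕ) : ℤ) = n - m by omega)

/-- forward growth -/
lemma grow (H : Bd κ a b) (hq : 0 < q) (h : Sl a b ξ) {m : ℤ} (hm : ξ m ≠ 0) (hS : Freq S)
    (hv : ∀ k : ℕ, S k → Vis q b ξ k) :
    ∃ C e : ℝ, 0 < C ∧ 0 < e ∧ ∀ n : ℕ, C * exp (e * n) ≤ nV ξ n := by
  obtain ⟨i, i0, hi⟩ := exists_neg H h hm
  have h1 (n : ℕ) : ∃ l : ℤ, l < n ∧ exp (q * cnt S n) * |ξ i| ≤ |ξ l| := by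
    induction n with
    | zero => exact ⟨i, i0, by simp [cnt]⟩
    | succ n ih =>
      obtain ⟨l, l1, l2⟩ := ih
      by_cases e : S n
      · refine ⟨n, by omega, ?_⟩
        have := mul_le_mul_of_nonneg_left (l2.trans ((hv n e).le l1)) (exp_pos q).le
        rwa [← mul_assoc, ← mul_assoc, ← exp_add, ← exp_add, add_neg_cancel, exp_zero, one_mul,
          add_comm, ← mul_add_one, ← cnt_pos e] at this
      · exact ⟨l, by omega, by rwa [cnt_neg e]⟩
  obtain ⟨θ, t0, ht⟩ := hS.gap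
  have k0 := H.k0
  have i1 := abs_pos.2 hi
  obtain ⟨C, c0, hC⟩ := all_of_ev (f := fun n => exp (q * θ / 2 * n)) (g := fun n => nV ξ n)
    (C := |ξ i|⁻¹) (fun _ => (exp_pos _).le) (fun _ => nV_pos H h hm _)
    ((ht (q * θ / 2 / (κ + 1)) (by positivity)).mono fun n ⟨_, k, k1, k2, k3, k4⟩ => by
      obtain ⟨l, l1, l2⟩ := h1 k
      obtain k5 : (k : ℝ) ≤ n := by exact_mod_cast k1.le
      obtain h2 := H.dn2 h (m := k) (n := n) (by omega) (x := q * θ / 2 * n) (by
        rw [div_mul_eq_mul_div, le_div_iff₀ (by positivity)] at k3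
        push_cast; linarith only [k3, k5])
      have h3 := (l2.trans ((hv k k2).le' hq.le l1.le)).trans ((le_max_left _ _).trans h2)
      rw [← div_eq_inv_mul, le_div_iff₀ i1]
      refine le_of_mul_le_mul_left (le_trans ?_ h3) (exp_pos _)
      rw [← mul_assoc, ← exp_add]
      exact mul_le_mul_of_nonneg_right (exp_le_exp.2 (by nlinarith only [hq, k4])) i1.le)
  exact ⟨C⁻¹, q * θ / 2, by positivity, by positivity, fun n => (inv_mul_le_iff₀ c0).2 (hC n)⟩

lemma exists_rho {n : ℤ} (h : 0 < nV ξ n) :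
    ∃ ρ, nV (fun j => η j - ρ * ξ j) n * nV ξ n ≤ |Wr ξ η n| := by
  rcases max_cases |ξ n| |ξ (n - 1)| with ⟨e, -⟩ | ⟨e, -⟩
  all_goals
    rw [nV, e, abs_pos] at h
  · refine ⟨η n / ξ n, ?_⟩
    rw [nV, nV, e, div_mul_cancel₀ _ h, sub_self, abs_zero, max_eq_right (abs_nonneg _), ← abs_mul]
    refine le_of_eq (congrArg _ ?_)
    unfold Wr; field_simp
  · refine ⟨η (n - 1) / ξ (n - 1), ?_⟩
    rw [nV, nV, e, div_mul_cancel₀ _ h, sub_self, abs_zero, max_eq_left (abs_nonneg _), ← abs_mul,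
      ← abs_neg]
    refine le_of_eq (congrArg _ ?_)
    unfold Wr; field_simp; ring

/-- a decaying solution -/
lemma decay (H : Bd κ a b) (hq : 0 < q) (h : Sl a b ξ) {m : ℤ} (hm : ξ m ≠ 0) (hS : Freq S)
    (hv : ∀ k : ℕ, S k → Vis q b ξ k) : ∃ (ζ : ℤ → ℝ) (C e : ℝ), Sl a b ζ ∧ (ζ 0, ζ (-1)) ≠ 0 ∧
      0 < e ∧ ∀ n : ℕ, nV ζ n ≤ C * exp (-e * n) := by
  obtain ⟨i, i0, hi⟩ := exists_neg H h hm
  obtain ⟨η, h', e0, e1⟩ := exists_sl (fun j => (H.pos j).ne') a 0 (-ξ (0 - 1)) (ξ 0)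
  have hp := nV_pos H h hm
  choose ρ hρ using fun n : ℕ => exists_rho (η := η) (hp n)
  obtain ⟨θ, -, ht⟩ := hS.gap
  have k0 := H.k0
  have i1 := abs_pos.2 hi
  obtain ⟨N, hN⟩ := eventually_atTop.1 (ht (1 / 20 / (κ + 1)) (by positivity))
  obtain ⟨D, D0, hD⟩ : ∃ D, 0 ≤ D ∧ D * |ξ i| = 100 * |Wr ξ η (i + 1)| :=
    ⟨100 * |Wr ξ η (i + 1)| / |ξ i|, by (clear * - hi; positivity), div_mul_cancel₀ _ i1.ne'⟩
  have hA (k : ℕ) (hk : N ≤ k) : (∀ n : ℤ, n ≤ k → nV ξ n ≤ exp (k / 20) * nV ξ k) ∧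
      nV (fun j => η j - ρ k * ξ j) k ≤ D * exp (-(2 / 5) * k) := by
    obtain ⟨-, l, l1, l2, l3, -⟩ := hN k hk
    rw [div_mul_eq_mul_div, le_div_iff₀ (by positivity)] at l3
    obtain l4 : (l : ℝ) + 1 ≤ k := by exact_mod_cast l1
    obtain h2 := H.dn2 h (m := l) (n := k) (by omega) (x := k / 20) (by push_cast; linarith only [l3, l4])
    have v := hv l l2
    refine ⟨fun n hn => ?_, ?_⟩
    · rcases le_total n l with e | e
      · exact (max_le (v.le' hq.le e) (v.le' hq.le (by omega))).trans ((le_max_left _ _).trans h2)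
      · obtain this : (l : ℝ) ≤ n := by exact_mod_cast e
        exact H.dn2 h hn (by nlinarith only [l3, l4, k0, this])
    obtain ⟨d, rfl⟩ : ∃ d, k = l + 1 + d := ⟨k - (l + 1), by omega⟩
    obtain ⟨j, hj⟩ : ∃ j : ℕ, i = l - j := ⟨(l - i).toNat, by omega⟩
    have h3 := H.wr h h' (l + 1) d
    obtain h4 := (v.2 j (by omega)).2
    obtain h5 : (l : ℝ) ≤ j := by exact_mod_cast (show l ≤ j by omega)
    rw [Wr_prod h h' H.pos l j, ← hj] at h3
    rw [← hj] at h4
    refine le_of_mul_le_mul_right ((hρ _).trans (le_of_mul_le_mul_right ?_ i1)) (hp _)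
    obtain h6 := mul_le_mul_of_nonneg_left (h4.trans (mul_le_mul_of_nonneg_left
      ((le_max_left _ _).trans h2) (by positivity)))
      (mul_nonneg (exp_pos (κ * d)).le (abs_nonneg (Wr ξ η (i + 1))))
    obtain h7 : exp (κ * d) * exp (-(j : ℝ) / 2) * exp (((l + 1 + d : ℕ) : ℝ) / 20) ≤
        exp (-(2 / 5) * ((l + 1 + d : ℕ) : ℝ)) := by
      rw [← exp_add, ← exp_add]
      push_cast at l3 ⊢
      exact exp_le_exp.2 (by linarith only [k0, h5, l3, (d.cast_nonneg : (0 : ℝ) ≤ d)])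
    have h8 := mul_le_mul_of_nonneg_left h7 (mul_nonneg (mul_nonneg D0 i1.le)
      (hp ((l + 1 + d : ℕ) : ℤ)).le)
    have h9 := mul_le_mul_of_nonneg_right h3 i1.le
    push_cast at h6 h8 h9 ⊢
    rw [hD] at h8
    rw [mul_right_comm (D * _), mul_right_comm D, hD]
    linarith only [h9, h6, h8]
  have hB (n k : ℕ) (hn : N ≤ n) : dist (ρ (n + k)) (ρ (n + (k + 1))) ≤
      (exp κ + 1) * D * exp 1 * exp (-(1 / 4) * n) / nV ξ n * exp (-(1 / 4)) ^ k := by
    obtain h1 := (H.up _ (h.sub h' (ρ (n + k))) _).trans (mul_le_mul_of_nonneg_left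
      (hA (n + k) (by omega)).2 (exp_pos _).le)
    obtain ⟨h2, h3⟩ := hA (n + (k + 1)) (by omega)
    have h4 := nV_sub (ξ := fun j => η j - ρ (n + (k + 1)) * ξ j)
      (η := fun j => η j - ρ (n + k) * ξ j) ((n + (k + 1) : ℕ) : ℤ)
    simp only [sub_sub_sub_cancel_left, ← sub_mul, nV_mul] at h4
    rw [show ((n + k : ℕ) : ℤ) + 1 = ((n + (k + 1) : ℕ) : ℤ) by push_cast; ring] at h1
    have hk : (0 : ℝ) ≤ k := k.cast_nonneg
    have hn' : (0 : ℝ) ≤ n := n.cast_nonneg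
    obtain h5 : D * exp (-(2 / 5) * ((n + (k + 1) : ℕ) : ℝ)) ≤ D * exp (-(2 / 5) * ((n + k : ℕ) : ℝ)) :=
      mul_le_mul_of_nonneg_left (exp_le_exp.2 (by push_cast; linarith only [])) D0
    obtain h6 : exp (((n + (k + 1) : ℕ) : ℝ) / 20) * exp (-(2 / 5) * ((n + k : ℕ) : ℝ)) ≤
        exp 1 * exp (-(1 / 4) * n) * exp (-(1 / 4)) ^ k := by
      rw [← exp_nat_mul, ← exp_add, ← exp_add, ← exp_add]
      exact exp_le_exp.2 (by push_cast; linarith only [])
    obtain h7 := mul_le_mul_of_nonneg_left (h2 n (by omega)) (abs_nonneg (ρ (n + k) - ρ (n + (k + 1))))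
    have h8 := mul_le_mul_of_nonneg_left (h4.trans (add_le_add (h3.trans h5) h1))
      (exp_pos (((n + (k + 1) : ℕ) : ℝ) / 20)).le
    obtain h9 := mul_le_mul_of_nonneg_left h6 (show 0 ≤ (exp κ + 1) * D by positivity)
    rw [Real.dist_eq, div_mul_eq_mul_div, le_div_iff₀ (hp n)]
    linarith only [h7, h8, h9]
  obtain r1 : exp (-(1 / 4) : ℝ) < 1 := exp_lt_one_iff.2 (by norm_num)
  obtain ⟨r, hr⟩ := cauchySeq_tendsto_of_complete
    (cauchySeq_of_le_geometric _ _ r1 fun k => hB N k le_rfl)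
  obtain hr' : Tendsto ρ atTop (𝓝 r) :=
    (tendsto_add_atTop_iff_nat N).1 (by simpa only [add_comm] using hr)
  obtain ⟨C, -, hC⟩ := all_of_ev (f := fun n => nV (fun j => η j - r * ξ j) n)
    (g := fun n => exp (-(1 / 4) * n)) (C := D + (exp κ + 1) * D * exp 1 / (1 - exp (-(1 / 4))))
    (fun _ => nV_nonneg _ _) (fun _ => exp_pos _) ((eventually_ge_atTop N).mono fun n hn => by
      obtain h1 := dist_le_of_le_geometric_of_tendsto₀ _ _ r1 (fun k => hB n k hn)
        (a := r) (by simpa only [add_comm n] using (tendsto_add_atTop_iff_nat n).2 hr')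
      rw [Real.dist_eq, add_zero, div_right_comm, le_div_iff₀ (hp n), abs_sub_comm] at h1
      have h2 := nV_sub (ξ := fun j => η j - ρ n * ξ j) (η := fun j => (r - ρ n) * ξ j) (n : ℤ)
      simp only [nV_mul, show ∀ j, η j - ρ n * ξ j - (r - ρ n) * ξ j = η j - r * ξ j from
        fun j => by ring] at h2
      obtain h3 : D * exp (-(2 / 5) * n) ≤ D * exp (-(1 / 4) * n) := mul_le_mul_of_nonneg_left
        (exp_le_exp.2 (by linarith only [(n.cast_nonneg : (0 : ℝ) ≤ n)])) D0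
      rw [add_mul, div_mul_eq_mul_div]
      linarith only [h1, h2, h3, (hA n hn).2])
  refine ⟨_, C, 1 / 4, h.sub h' r, fun e => (hp 0).ne' ?_, by norm_num, hC⟩
  simp only [Prod.mk_eq_zero, zero_sub] at e e0 e1
  rw [e0, e1] at e
  obtain h1 : ξ 0 * ξ 0 + ξ (-1) * ξ (-1) = 0 := by linear_combination ξ 0 * e.2 - ξ (-1) * e.1
  rw [mul_self_add_mul_self_eq_zero] at h1
  simp [nV, h1.1, h1.2]

end
end Pool.Agent.MP_9cbfe4_an.G4

end

/-! ### Part J0 -/

section

/-! Row J0 (model-free): Faà di Bruno majorants for a curve composed with a scalar function,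
with plain derivatives and a multilinear bound for the derivatives of the outer function. -/

namespace Pool.Agent.MP_9cbfe4_an.J0

open Finset Nat

/-! ### Combinatorics of ordered finpartitions -/

lemma sum_ofp_succ {n : ℕ} (F : OrderedFinpartition (n + 1) → ℝ) :
    ∑ c, F c = ∑ c : OrderedFinpartition n,
      (F c.extendLeft + ∑ i : Fin c.length, F (c.extendMiddle i)) := by
  rw [← (OrderedFinpartition.extendEquiv n).sum_comp, Fintype.sum_sigma]
  refine Finset.sum_congr rfl fun c _ => ?_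
  rw [Fintype.sum_option]
  simp

lemma card_ofp_le (n : ℕ) : (Fintype.card (OrderedFinpartition n) : ℝ) ≤ n ! := by
  induction n with
  | zero => simp
  | succ n ih =>
    obtain h : (Fintype.card (OrderedFinpartition (n + 1)) : ℝ) =
        ∑ _c : OrderedFinpartition (n + 1), (1 : ℝ) := by simp
    rw [h, sum_ofp_succ]
    calc ∑ c : OrderedFinpartition n, ((1 : ℝ) + ∑ _i : Fin c.length, (1 : ℝ))
        ≤ ∑ _c : OrderedFinpartition n, ((n : ℝ) + 1) := by
          refine Finset.sum_le_sum fun c _ => ?_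
          obtain this : (c.length : ℝ) ≤ n := by exact_mod_cast c.length_le
          simp only [Finset.sum_const, Finset.card_univ, Fintype.card_fin, nsmul_eq_mul, mul_one]
          linarith only [this]
      _ = ((n : ℝ) + 1) * Fintype.card (OrderedFinpartition n) := by
          rw [Finset.sum_const, Finset.card_univ, nsmul_eq_mul, mul_comm]
      _ ≤ ((n : ℝ) + 1) * n ! := by gcongr
      _ = (n + 1)! := by rw [Nat.factorial_succ]; push_cast; ring

lemma sum_partSize {n : ℕ} (c : OrderedFinpartition n) : ∑ i, c.partSize i = n := by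
  have := Fintype.card_congr c.equivSigma
  simpa using this

lemma sum_len_one (n : ℕ) (y : ℝ) :
    ∑ c : OrderedFinpartition (n + 1), (if c.length = 1 then y else 0) = y := by
  induction n with
  | zero => simp
  | succ n ih =>
    rw [sum_ofp_succ, ← ih]
    refine Finset.sum_congr rfl fun c _ => ?_
    have hp := c.length_pos (Nat.succ_pos n)
    obtain h1 : ¬ c.length + 1 = 1 := by omega
    simp only [OrderedFinpartition.extendLeft_length, OrderedFinpartition.extendMiddle_length,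
      h1, if_false, zero_add, Finset.sum_const, Finset.card_univ, Fintype.card_fin, ih]
    split_ifs with h
    · simp [h]
    · simp

/-- size of the first part -/
def s0 {n : ℕ} (c : OrderedFinpartition n) : ℕ :=
  if h : 0 < c.length then c.partSize ⟨0, h⟩ else 0

lemma sum_len_two (n : ℕ) (ψ : ℕ → ℝ) :
    ∑ c : OrderedFinpartition (n + 1), (if c.length = 2 then ψ (s0 c) else 0) =
      ∑ a ∈ range n, (n.choose (a + 1) : ℝ) * ψ (a + 1) := by
  induction n generalizing ψ with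
  | zero => simp
  | succ n ih =>
    rw [sum_ofp_succ]
    obtain key : ∀ c : OrderedFinpartition (n + 1),
        ((if c.extendLeft.length = 2 then ψ (s0 c.extendLeft) else 0) +
          ∑ i : Fin c.length,
            (if (c.extendMiddle i).length = 2 then ψ (s0 (c.extendMiddle i)) else 0)) =
        (if c.length = 1 then ψ 1 else 0) + ((if c.length = 2 then ψ (s0 c + 1) else 0) +
          (if c.length = 2 then ψ (s0 c) else 0)) := by
      intro c
      congr 1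
      · obtain this : s0 c.extendLeft = 1 := by
          simp only [s0, OrderedFinpartition.extendLeft_length, Nat.succ_pos', dif_pos]
          rfl
        simp [this]
      · by_cases h : c.length = 2
        · obtain hs : ∀ i : Fin c.length, s0 (c.extendMiddle i) =
              if (i : ℕ) = 0 then s0 c + 1 else s0 c := by
            intro i
            obtain h0 : 0 < c.length := by omega
            simp only [s0, OrderedFinpartition.extendMiddle_length, h0, dif_pos,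
              OrderedFinpartition.extendMiddle_partSize]
            split_ifs with hi
            · have : i = ⟨0, h0⟩ := Fin.ext hi
              subst this
              exact Function.update_self _ _ _
            · obtain this : (⟨0, h0⟩ : Fin c.length) ≠ i := fun e => hi (by rw [← e])
              exact Function.update_of_ne this _ _
          simp only [OrderedFinpartition.extendMiddle_length, h, if_true, hs]
          rw [Fin.sum_univ_eq_sum_range
            (fun i => ψ (if i = 0 then s0 c + 1 else s0 c)) c.length, h]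
          simp [Finset.sum_range_succ]
        · simp [h]
    simp only [key, Finset.sum_add_distrib, sum_len_one]
    rw [ih (fun a => ψ (a + 1)), ih ψ]
    simp only [Nat.choose_succ_succ', Nat.cast_add, add_mul, Finset.sum_add_distrib]
    rw [Finset.sum_range_succ' (fun a => (n.choose a : ℝ) * ψ (a + 1)),
      Finset.sum_range_succ (fun a => (n.choose (a + 1) : ℝ) * ψ (a + 1))]
    simp [Nat.choose_succ_self]
    ring

lemma apply_len_one {n : ℕ} (Φ : (k : ℕ) → (Fin k → ℕ) → ℝ) (c : OrderedFinpartition n)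
    (h : c.length = 1) : Φ c.length c.partSize = Φ 1 fun _ => n := by
  have hs := sum_partSize c
  rcases c with ⟨len, ps, _, _, _, _, _, _⟩
  simp only at h hs ⊢
  subst h
  congr 1
  funext i
  have : i = 0 := Subsingleton.elim _ _
  subst this
  simpa using hs

lemma apply_len_two {n : ℕ} (Φ : (k : ℕ) → (Fin k → ℕ) → ℝ) (c : OrderedFinpartition n)
    (h : c.length = 2) : Φ c.length c.partSize = Φ 2 ![s0 c, n - s0 c] := by
  have hs := sum_partSize c
  rcases c with ⟨len, ps, _, _, _, _, _, _⟩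
  simp only at h hs ⊢
  subst h
  congr 1
  rw [Fin.sum_univ_two] at hs
  funext i
  fin_cases i
  · simp [s0]
  · simp [s0]; omega

lemma split_one (n : ℕ) (Φ : (k : ℕ) → (Fin k → ℕ) → ℝ) :
    ∑ c : OrderedFinpartition (n + 1), Φ c.length c.partSize =
      Φ 1 (fun _ => n + 1) + ∑ c : OrderedFinpartition (n + 1),
        (if 2 ≤ c.length then Φ c.length c.partSize else 0) := by
  rw [← sum_len_one n (Φ 1 fun _ => n + 1), ← Finset.sum_add_distrib]
  refine Finset.sum_congr rfl fun c _ => ?_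
  have hp := c.length_pos (Nat.succ_pos n)
  by_cases h : c.length = 1
  · rw [if_pos h, if_neg (by omega), add_zero, apply_len_one Φ c h]
  · rw [if_neg h, if_pos (by omega), zero_add]

lemma split_two (n : ℕ) (Φ : (k : ℕ) → (Fin k → ℕ) → ℝ) :
    ∑ c : OrderedFinpartition (n + 1), (if 2 ≤ c.length then Φ c.length c.partSize else 0) =
      ∑ a ∈ range n, (n.choose (a + 1) : ℝ) * Φ 2 ![a + 1, n - a] +
        ∑ c : OrderedFinpartition (n + 1), (if 3 ≤ c.length then Φ c.length c.partSize else 0) := by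
  have := sum_len_two n fun a => Φ 2 ![a, n + 1 - a]
  simp only [Nat.add_sub_add_right] at this
  rw [← this, ← Finset.sum_add_distrib]
  refine Finset.sum_congr rfl fun c _ => ?_
  by_cases h : c.length = 2
  · rw [if_pos h, if_pos h.ge, if_neg (by omega), add_zero, apply_len_two Φ c h]
  · rw [if_neg h, zero_add]
    by_cases h3 : 3 ≤ c.length
    · rw [if_pos h3, if_pos (by omega)]
    · rw [if_neg h3, if_neg (by omega)]

/-- a sum over the partitions with at least `r` parts is at most `n!` times the largest term -/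
lemma abs_sum_le {n : ℕ} (r : ℕ) (Φ : (k : ℕ) → (Fin k → ℕ) → ℝ) {B : ℝ} (hB : 0 ≤ B)
    (h : ∀ k (s : Fin k → ℕ), r ≤ k → k ≤ n → (∀ i, 0 < s i) → ∑ i, s i = n → |Φ k s| ≤ B) :
    |∑ c : OrderedFinpartition n, (if r ≤ c.length then Φ c.length c.partSize else 0)| ≤ n ! * B := by
  calc _ ≤ ∑ c : OrderedFinpartition n, |if r ≤ c.length then Φ c.length c.partSize else 0| :=
        Finset.abs_sum_le_sum_abs _ _
    _ ≤ ∑ _c : OrderedFinpartition n, B := by
        refine Finset.sum_le_sum fun c _ => ?_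
        split_ifs with hc
        · exact h _ _ hc c.length_le c.partSize_pos (sum_partSize c)
        · simpa using hB
    _ = Fintype.card (OrderedFinpartition n) * B := by simp
    _ ≤ n ! * B := mul_le_mul_of_nonneg_right (card_ofp_le n) hB

/-! ### Products over compositions from a table of pairs -/

lemma prod_le_of_pairs {m : ℕ → ℝ} {Λ : ℝ} {j : ℕ} (hm : ∀ a, 0 ≤ m a) (hΛ : 0 ≤ Λ)
    (H : ∀ a b, 0 < a → 0 < b → a + b < j → m a * m b ≤ Λ * m (a + b)) :
    ∀ k (s : Fin (k + 1) → ℕ), (∀ i, 0 < s i) → ∑ i, s i < j →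
      ∏ i, m (s i) ≤ Λ ^ k * m (∑ i, s i) := by
  intro k
  induction k with
  | zero => intro s _ _; simp
  | succ k ih =>
    intro s hs hj
    rw [Fin.prod_univ_succ]
    rw [Fin.sum_univ_succ] at hj ⊢
    obtain h1 := ih (fun i => s i.succ) (fun i => hs _) (by omega)
    have hp : 0 < ∑ i : Fin (k + 1), s i.succ :=
      Finset.sum_pos (fun i _ => hs _) Finset.univ_nonempty
    calc m (s 0) * ∏ i : Fin (k + 1), m (s i.succ)
        ≤ m (s 0) * (Λ ^ k * m (∑ i : Fin (k + 1), s i.succ)) :=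
          mul_le_mul_of_nonneg_left h1 (hm _)
      _ = Λ ^ k * (m (s 0) * m (∑ i : Fin (k + 1), s i.succ)) := by ring
      _ ≤ Λ ^ k * (Λ * m (s 0 + ∑ i : Fin (k + 1), s i.succ)) :=
          mul_le_mul_of_nonneg_left (H _ _ (hs 0) hp hj) (pow_nonneg hΛ _)
      _ = _ := by ring

/-- products with at least two factors, from the table of pairs -/
lemma prod_two_le {m : ℕ → ℝ} {Λ B : ℝ} {j : ℕ} (hm : ∀ a, 0 ≤ m a) (hΛ : 1 ≤ Λ)
    (H : ∀ a b, 0 < a → 0 < b → a + b < j → m a * m b ≤ Λ * m (a + b))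
    (HB : ∀ a b, 0 < a → 0 < b → a + b = j → m a * m b ≤ B)
    (k : ℕ) (s : Fin k → ℕ) (hk : 2 ≤ k) (hkj : k ≤ j) (hs : ∀ i, 0 < s i) (hj : ∑ i, s i = j) :
    ∏ i, m (s i) ≤ Λ ^ (j - 2) * B := by
  obtain ⟨k, rfl⟩ : ∃ k', k = k' + 2 := ⟨k - 2, by (clear * - hk; omega)⟩
  rw [Fin.prod_univ_succ]
  rw [Fin.sum_univ_succ] at hj
  have h0 := hs 0
  obtain h1 := prod_le_of_pairs hm (by linarith only [hΛ]) H k (fun i => s i.succ) (fun i => hs _) (by omega)
  have hp : 0 < ∑ i : Fin (k + 1), s i.succ :=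
    Finset.sum_pos (fun i _ => hs _) Finset.univ_nonempty
  have h2 := HB _ _ h0 hp hj
  have h3 : 0 ≤ m (s 0) * m (∑ i : Fin (k + 1), s i.succ) := mul_nonneg (hm _) (hm _)
  calc m (s 0) * ∏ i : Fin (k + 1), m (s i.succ)
      ≤ m (s 0) * (Λ ^ k * m (∑ i : Fin (k + 1), s i.succ)) :=
        mul_le_mul_of_nonneg_left h1 (hm _)
    _ = Λ ^ k * (m (s 0) * m (∑ i : Fin (k + 1), s i.succ)) := by ring
    _ ≤ Λ ^ (j - 2) * B :=
        mul_le_mul (pow_le_pow_right₀ hΛ (by omega)) h2 h3 (by positivity)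

/-- products with at least three factors, from the tables of pairs and triples -/
lemma prod_three_le {m : ℕ → ℝ} {Λ B : ℝ} {j : ℕ} (hm : ∀ a, 0 ≤ m a) (hΛ : 1 ≤ Λ)
    (H : ∀ a b, 0 < a → 0 < b → a + b < j → m a * m b ≤ Λ * m (a + b))
    (HB : ∀ a b e, 0 < a → 0 < b → 0 < e → a + b + e = j → m a * m b * m e ≤ B)
    (k : ℕ) (s : Fin k → ℕ) (hk : 3 ≤ k) (hkj : k ≤ j) (hs : ∀ i, 0 < s i) (hj : ∑ i, s i = j) :
    ∏ i, m (s i) ≤ Λ ^ (j - 3) * B := by
  obtain ⟨k, rfl⟩ : ∃ k', k = k' + 3 := ⟨k - 3, by omega⟩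
  rw [Fin.prod_univ_succ, Fin.prod_univ_succ]
  rw [Fin.sum_univ_succ, Fin.sum_univ_succ] at hj
  have h0 := hs 0
  have h0' := hs (Fin.succ 0)
  obtain h1 := prod_le_of_pairs hm (by linarith only [hΛ]) H k (fun i => s i.succ.succ) (fun i => hs _)
    (by omega)
  have hp : 0 < ∑ i : Fin (k + 1), s i.succ.succ :=
    Finset.sum_pos (fun i _ => hs _) Finset.univ_nonempty
  obtain h2 := HB _ _ _ h0 h0' hp (by omega)
  have h3 : 0 ≤ m (s 0) * m (s (Fin.succ 0)) * m (∑ i : Fin (k + 1), s i.succ.succ) :=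
    mul_nonneg (mul_nonneg (hm _) (hm _)) (hm _)
  calc m (s 0) * (m (s (Fin.succ 0)) * ∏ i : Fin (k + 1), m (s i.succ.succ))
      ≤ m (s 0) * (m (s (Fin.succ 0)) * (Λ ^ k * m (∑ i : Fin (k + 1), s i.succ.succ))) :=
        mul_le_mul_of_nonneg_left (mul_le_mul_of_nonneg_left h1 (hm _)) (hm _)
    _ = Λ ^ k * (m (s 0) * m (s (Fin.succ 0)) * m (∑ i : Fin (k + 1), s i.succ.succ)) := by ring
    _ ≤ Λ ^ (j - 3) * B :=
        mul_le_mul (pow_le_pow_right₀ hΛ (by omega)) h2 h3 (by positivity)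

/-! ### The chain rule of order `n + 1` -/

section Chain
variable {E : Type*} [NormedAddCommGroup E] [NormedSpace ℝ E] {g : E → ℝ} {γ : ℝ → E} {x : ℝ}
  {N : WithTop ℕ∞} {j : ℕ}

/-- the term of the Faà di Bruno sum with part sizes `s` -/
noncomputable def term (g : E → ℝ) (γ : ℝ → E) (x : ℝ) (k : ℕ) (s : Fin k → ℕ) : ℝ :=
  iteratedFDeriv ℝ k g (γ x) fun i => iteratedDeriv (s i) γ x

/-- the terms with at least `r` parts -/
noncomputable def rest (g : E → ℝ) (γ : ℝ → E) (x : ℝ) (j r : ℕ) : ℝ :=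
  ∑ c : OrderedFinpartition j, if r ≤ c.length then term g γ x c.length c.partSize else 0

/-- the quadratic main term `∑_{a+b=j, a,b ≥ 1} C(j-1,a) D²g [γ^(a), γ^(b)]` -/
noncomputable def quad (g : E → ℝ) (γ : ℝ → E) (x : ℝ) (j : ℕ) : ℝ :=
  ∑ a ∈ Ioo 0 j, ((j - 1).choose a : ℝ) *
    iteratedFDeriv ℝ 2 g (γ x) ![iteratedDeriv a γ x, iteratedDeriv (j - a) γ x]

theorem expand_one (hg : ContDiffAt ℝ N g (γ x)) (hγ : ContDiffAt ℝ N γ x) (hj : 0 < j)
    (hN : (j : WithTop ℕ∞) ≤ N) :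
    iteratedDeriv j (g ∘ γ) x = fderiv ℝ g (γ x) (iteratedDeriv j γ x) + rest g γ x j 2 := by
  obtain ⟨n, rfl⟩ : ∃ n, j = n + 1 := ⟨j - 1, by omega⟩
  rw [iteratedDeriv_vcomp_eq_sum_orderedFinpartition hg hγ hN]
  have := split_one n (term g γ x)
  simp only [term] at this
  rw [this, iteratedFDeriv_one_apply]
  rfl

theorem rest_two (g : E → ℝ) (γ : ℝ → E) (x : ℝ) (j : ℕ) :
    rest g γ x j 2 = quad g γ x j + rest g γ x j 3 := by
  cases j with
  | zero => simp [rest, quad]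
  | succ n =>
    unfold rest
    rw [split_two n (term g γ x)]
    congr 1
    unfold quad
    obtain h : Ioo 0 (n + 1) = (range n).map ⟨fun a => a + 1, add_left_injective 1⟩ := by
      ext a
      simp only [Finset.mem_Ioo, Finset.mem_map, Finset.mem_range, Function.Embedding.coeFn_mk]
      constructor
      · intro h; exact ⟨a - 1, by omega, by omega⟩
      · rintro ⟨b, hb, rfl⟩; omega
    rw [h, Finset.sum_map]
    refine Finset.sum_congr rfl fun a _ => ?_
    simp only [Function.Embedding.coeFn_mk, Nat.add_sub_cancel, Nat.add_sub_add_right, term]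
    congr 2
    funext i
    fin_cases i <;> rfl

theorem expand_two (hg : ContDiffAt ℝ N g (γ x)) (hγ : ContDiffAt ℝ N γ x) (hj : 0 < j)
    (hN : (j : WithTop ℕ∞) ≤ N) :
    iteratedDeriv j (g ∘ γ) x =
      fderiv ℝ g (γ x) (iteratedDeriv j γ x) + quad g γ x j + rest g γ x j 3 := by
  rw [expand_one hg hγ hj hN, rest_two, add_assoc]

/-- symmetric form of the quadratic term for a symmetric table `q` -/
lemma sum_choose_symm (j : ℕ) (q : ℕ → ℕ → ℝ) (hq : ∀ a b, q a b = q b a) :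
    ∑ a ∈ Ioo 0 j, ((j - 1).choose a : ℝ) * q a (j - a) =
      1 / 2 * ∑ a ∈ Ioo 0 j, (j.choose a : ℝ) * q a (j - a) := by
  obtain h1 : ∑ a ∈ Ioo 0 j, ((j - 1).choose a : ℝ) * q a (j - a) =
      ∑ a ∈ Ioo 0 j, ((j - 1).choose (a - 1) : ℝ) * q a (j - a) := by
    refine Finset.sum_bij' (fun a _ => j - a) (fun a _ => j - a) ?_ ?_ ?_ ?_ ?_
    · intro a ha; simp only [Finset.mem_Ioo] at ha ⊢; omega
    · intro a ha; simp only [Finset.mem_Ioo] at ha ⊢; omega
    · intro a ha; simp only [Finset.mem_Ioo] at ha; omega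
    · intro a ha; simp only [Finset.mem_Ioo] at ha; omega
    · intro a ha
      simp only [Finset.mem_Ioo] at ha
      obtain e1 : j - (j - a) = a := by omega
      obtain e2 : j - a - 1 = j - 1 - a := by omega
      rw [e1, e2, Nat.choose_symm (by omega), hq]
  obtain h2 : ∑ a ∈ Ioo 0 j, (j.choose a : ℝ) * q a (j - a) =
      ∑ a ∈ Ioo 0 j, ((j - 1).choose (a - 1) : ℝ) * q a (j - a) +
        ∑ a ∈ Ioo 0 j, ((j - 1).choose a : ℝ) * q a (j - a) := by
    rw [← Finset.sum_add_distrib]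
    refine Finset.sum_congr rfl fun a ha => ?_
    simp only [Finset.mem_Ioo] at ha
    obtain this := Nat.choose_eq_choose_pred_add (n := j) (k := a) (by omega) ha.1
    rw [this]; push_cast; ring
  rw [h2, ← h1]; ring

theorem quad_symm (hg : ContDiffAt ℝ 2 g (γ x)) (j : ℕ) :
    quad g γ x j = 1 / 2 * ∑ a ∈ Ioo 0 j, (j.choose a : ℝ) *
      iteratedFDeriv ℝ 2 g (γ x) ![iteratedDeriv a γ x, iteratedDeriv (j - a) γ x] := by
  refine sum_choose_symm j (fun a b =>
    iteratedFDeriv ℝ 2 g (γ x) ![iteratedDeriv a γ x, iteratedDeriv b γ x]) fun a b => ?_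
  obtain hs : IsSymmSndFDerivAt ℝ g (γ x) := hg.isSymmSndFDerivAt (by simp)
  simp only [iteratedFDeriv_two_apply, Matrix.cons_val_zero, Matrix.cons_val_one]
  exact hs _ _

variable {p : E → ℝ} {m : ℕ → ℝ} {M B Λ : ℝ}

/-- the terms with at least `r ≥ 2` parts: bound through all compositions -/
theorem abs_rest_le {r : ℕ} (hr : 2 ≤ r) (hM : 0 ≤ M) (hB : 0 ≤ B) (hp : ∀ v, 0 ≤ p v)
    (hD : ∀ k, r ≤ k → k ≤ j → ∀ v : Fin k → E,
      |iteratedFDeriv ℝ k g (γ x) v| ≤ M * ∏ i, p (v i))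
    (hm : ∀ a, 0 < a → a < j → p (iteratedDeriv a γ x) ≤ m a)
    (hprod : ∀ k (s : Fin k → ℕ), r ≤ k → k ≤ j → (∀ i, 0 < s i) → ∑ i, s i = j →
      ∏ i, m (s i) ≤ B) :
    |rest g γ x j r| ≤ j ! * (M * B) := by
  refine abs_sum_le r (term g γ x) (mul_nonneg hM hB) fun k s hk hkj hs hj => ?_
  refine (hD k hk hkj _).trans (mul_le_mul_of_nonneg_left ?_ hM)
  refine le_trans (Finset.prod_le_prod (fun i _ => hp _) fun i _ => hm _ (hs i) ?_)
    (hprod k s hk hkj hs hj)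
  obtain hk2 : 1 < Fintype.card (Fin k) := by simp; omega
  obtain ⟨i', hi'⟩ := Fintype.exists_ne_of_one_lt_card hk2 i
  have := Finset.add_le_sum (f := s) (s := Finset.univ) (fun _ _ => Nat.zero_le _)
    (Finset.mem_univ i) (Finset.mem_univ i') hi'.symm
  have := hs i'
  omega

/-! ### Orders `0` and `1` between two points (the `m₀ m_j` term and the remainder itself) -/

/-- change of the first derivative along a segment -/
theorem fderiv_sub_le {z z' v : E}
    (hg : ∀ τ ∈ Set.Icc (0 : ℝ) 1, ContDiffAt ℝ 2 g (z + τ • (z' - z)))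
    (hD : ∀ τ ∈ Set.Icc (0 : ℝ) 1,
      |iteratedFDeriv ℝ 2 g (z + τ • (z' - z)) ![z' - z, v]| ≤ B) :
    |fderiv ℝ g z' v - fderiv ℝ g z v| ≤ B := by
  obtain hd : ∀ τ ∈ Set.Icc (0 : ℝ) 1, HasDerivAt (fun τ : ℝ => fderiv ℝ g (z + τ • (z' - z)) v)
      (iteratedFDeriv ℝ 2 g (z + τ • (z' - z)) ![z' - z, v]) τ := by
    intro τ hτ
    obtain h1 : DifferentiableAt ℝ (fderiv ℝ g) (z + τ • (z' - z)) :=
      ((hg τ hτ).fderiv_right (m := 1) (by norm_num)).differentiableAt (by simp)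
    obtain h2 : HasDerivAt (fun τ : ℝ => z + τ • (z' - z)) (z' - z) τ := by
      simpa using ((hasDerivAt_id τ).smul_const (z' - z)).const_add z
    have h4 : HasDerivAt (fun τ : ℝ => fderiv ℝ g (z + τ • (z' - z)))
        (fderiv ℝ (fderiv ℝ g) (z + τ • (z' - z)) (z' - z)) τ :=
      HasFDerivAt.comp_hasDerivAt (f := fun τ : ℝ => z + τ • (z' - z)) (l := fderiv ℝ g) τ
        h1.hasFDerivAt h2
    have h3 := h4.clm_apply (hasDerivAt_const τ v)
    rw [map_zero, add_zero] at h3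
    rw [iteratedFDeriv_two_apply]
    exact h3
  have := norm_image_sub_le_of_norm_deriv_le_segment_01' (fun τ hτ => (hd τ hτ).hasDerivWithinAt)
    (C := B) (fun τ hτ => hD τ (Set.Ico_subset_Icc_self hτ))
  simpa using this

/-- Taylor remainder of order one along a segment -/
theorem taylor_one_le {z z' : E}
    (hg : ∀ τ ∈ Set.Icc (0 : ℝ) 1, ContDiffAt ℝ 2 g (z + τ • (z' - z)))
    (hD : ∀ τ ∈ Set.Icc (0 : ℝ) 1,
      |iteratedFDeriv ℝ 2 g (z + τ • (z' - z)) ![z' - z, z' - z]| ≤ B) :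
    |g z' - g z - fderiv ℝ g z (z' - z)| ≤ B := by
  have hB : 0 ≤ B := (abs_nonneg _).trans (hD 0 ⟨le_rfl, zero_le_one⟩)
  obtain hd : ∀ τ ∈ Set.Icc (0 : ℝ) 1,
      HasDerivAt (fun τ : ℝ => g (z + τ • (z' - z)) - τ * fderiv ℝ g z (z' - z))
      (fderiv ℝ g (z + τ • (z' - z)) (z' - z) - fderiv ℝ g z (z' - z)) τ := by
    intro τ hτ
    obtain h1 : DifferentiableAt ℝ g (z + τ • (z' - z)) := (hg τ hτ).differentiableAt (by simp)
    obtain h2 : HasDerivAt (fun τ : ℝ => z + τ • (z' - z)) (z' - z) τ := by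
      simpa using ((hasDerivAt_id τ).smul_const (z' - z)).const_add z
    have h3 := (HasFDerivAt.comp_hasDerivAt (f := fun τ : ℝ => z + τ • (z' - z)) (l := g) τ
      h1.hasFDerivAt h2).sub
      ((hasDerivAt_id τ).mul_const (fderiv ℝ g z (z' - z)))
    rw [one_mul] at h3
    exact h3
  obtain hb : ∀ τ ∈ Set.Ico (0 : ℝ) 1,
      ‖fderiv ℝ g (z + τ • (z' - z)) (z' - z) - fderiv ℝ g z (z' - z)‖ ≤ B := by
    intro τ hτ
    obtain e : ∀ σ : ℝ, z + σ • (z + τ • (z' - z) - z) = z + (σ * τ) • (z' - z) := by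
      intro σ; rw [add_sub_cancel_left, smul_smul]
    have hm : ∀ σ ∈ Set.Icc (0 : ℝ) 1, σ * τ ∈ Set.Icc (0 : ℝ) 1 := fun σ hσ =>
      ⟨mul_nonneg hσ.1 hτ.1, mul_le_one₀ hσ.2 hτ.1 hτ.2.le⟩
    refine fderiv_sub_le (fun σ hσ => by rw [e]; exact hg _ (hm σ hσ)) fun σ hσ => ?_
    rw [e, add_sub_cancel_left]
    have h := hD _ (hm σ hσ)
    simp only [iteratedFDeriv_two_apply, Matrix.cons_val_zero, Matrix.cons_val_one, map_smul,
      smul_apply, smul_eq_mul, abs_mul] at h ⊢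
    rw [abs_of_nonneg hτ.1]
    nlinarith only [hB, h, hτ.1, hτ.2, abs_nonneg ((fderiv ℝ (fderiv ℝ g) (z + (σ * τ) • (z' - z)) (z' - z)) (z' - z))]
  have := norm_image_sub_le_of_norm_deriv_le_segment_01' (fun τ hτ => (hd τ hτ).hasDerivWithinAt)
    (C := B) hb
  simp only [one_smul, add_sub_cancel, one_mul, zero_smul, add_zero, zero_mul, sub_zero,
    Real.norm_eq_abs] at this
  convert this using 2
  ring

/-! ### The nonlinear part `Q` relative to a reference point `z0` -/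

variable {U : Set E} {z0 : E}

lemma seg_mem (hU : Convex ℝ U) {z z' : E} (hz : z ∈ U) (hz' : z' ∈ U) {τ : ℝ}
    (hτ : τ ∈ Set.Icc (0 : ℝ) 1) : z + τ • (z' - z) ∈ U :=
  hU.add_smul_sub_mem hz hz' hτ

theorem fderiv_sub_le_gauge (hU : Convex ℝ U) {z z' : E} (hz : z ∈ U) (hz' : z' ∈ U)
    (hg : ∀ y ∈ U, ContDiffAt ℝ 2 g y)
    (hD : ∀ y ∈ U, ∀ v : Fin 2 → E, |iteratedFDeriv ℝ 2 g y v| ≤ M * ∏ i, p (v i)) (v : E) :
    |fderiv ℝ g z' v - fderiv ℝ g z v| ≤ M * (p (z' - z) * p v) :=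
  fderiv_sub_le (fun _ hτ => hg _ (seg_mem hU hz hz' hτ)) fun _ hτ => by
    simpa [Fin.prod_univ_two] using hD _ (seg_mem hU hz hz' hτ) ![z' - z, v]

theorem taylor_one_le_gauge (hU : Convex ℝ U) {z z' : E} (hz : z ∈ U) (hz' : z' ∈ U)
    (hg : ∀ y ∈ U, ContDiffAt ℝ 2 g y)
    (hD : ∀ y ∈ U, ∀ v : Fin 2 → E, |iteratedFDeriv ℝ 2 g y v| ≤ M * ∏ i, p (v i)) :
    |g z' - g z - fderiv ℝ g z (z' - z)| ≤ M * p (z' - z) ^ 2 :=
  taylor_one_le (fun _ hτ => hg _ (seg_mem hU hz hz' hτ)) fun _ hτ => by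
    simpa [Fin.prod_univ_two, sq] using hD _ (seg_mem hU hz hz' hτ) ![z' - z, z' - z]

end Chain

end Pool.Agent.MP_9cbfe4_an.J0

end

/-! ### Part J0D -/

section

/-! Row J0D (model-free): jets of `g ∘ γ₁ - g ∘ γ₂` for two curves, with the main terms of
orders `1`, `2` and majorants in every order.  `m a` is a common majorant of the jets of both
curves, `z a` a majorant of the jets of their difference. -/

namespace Pool.Agent.MP_9cbfe4_an.J0

open Finset Nat

variable {E : Type*} [NormedAddCommGroup E] [NormedSpace ℝ E] {g : E → ℝ} {γ₁ γ₂ : ℝ → E} {x : ℝ}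
  {N : WithTop ℕ∞} {j : ℕ} {U : Set E} {p : E → ℝ} {m z : ℕ → ℝ} {M B : ℝ}

lemma hasDerivAt_iter {k : ℕ} {y h : E} {τ : ℝ} (v : Fin k → E)
    (hg : ContDiffAt ℝ (k + 1 : ℕ) g (y + τ • h)) :
    HasDerivAt (fun τ : ℝ => iteratedFDeriv ℝ k g (y + τ • h) v)
      (iteratedFDeriv ℝ (k + 1) g (y + τ • h) (Fin.cons h v)) τ := by
  obtain h1 : DifferentiableAt ℝ (iteratedFDeriv ℝ k g) (y + τ • h) :=
    hg.differentiableAt_iteratedFDeriv (by exact_mod_cast Nat.lt_succ_self k)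
  obtain h2 : HasDerivAt (fun τ : ℝ => y + τ • h) h τ := by
    simpa using ((hasDerivAt_id τ).smul_const h).const_add y
  have h3 := (ContinuousMultilinearMap.apply ℝ (fun _ : Fin k => E) ℝ v).hasFDerivAt.comp_hasDerivAt τ
    (h1.hasFDerivAt.comp_hasDerivAt τ h2)
  exact h3

/-- change of the `k`-th derivative along an initial part of a segment -/
lemma iter_seg_le {k : ℕ} {y h : E} (v : Fin k → E)
    (hg : ∀ τ ∈ Set.Icc (0 : ℝ) 1, ContDiffAt ℝ (k + 1 : ℕ) g (y + τ • h))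
    (hD : ∀ τ ∈ Set.Icc (0 : ℝ) 1,
      |iteratedFDeriv ℝ (k + 1) g (y + τ • h) (Fin.cons h v)| ≤ B) {τ : ℝ}
    (hτ : τ ∈ Set.Icc (0 : ℝ) 1) :
    |iteratedFDeriv ℝ k g (y + τ • h) v - iteratedFDeriv ℝ k g y v| ≤ B := by
  have hB : 0 ≤ B := (abs_nonneg _).trans (hD 0 ⟨le_rfl, zero_le_one⟩)
  have := norm_image_sub_le_of_norm_deriv_le_segment' (a := 0) (b := 1)
    (fun σ hσ => (hasDerivAt_iter v (hg σ hσ)).hasDerivWithinAt)
    (C := B) (fun σ hσ => hD σ (Set.Ico_subset_Icc_self hσ)) τ hτ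
  simp only [zero_smul, add_zero, sub_zero, Real.norm_eq_abs] at this
  nlinarith only [this, hB, hτ.1, hτ.2]

/-- change of the `k`-th derivative between two points -/
theorem iter_sub_le {k : ℕ} (hU : Convex ℝ U) {y y' : E} (hy : y ∈ U) (hy' : y' ∈ U)
    (hg : ∀ u ∈ U, ContDiffAt ℝ (k + 1 : ℕ) g u)
    (hD : ∀ u ∈ U, ∀ v : Fin (k + 1) → E,
      |iteratedFDeriv ℝ (k + 1) g u v| ≤ M * ∏ i, p (v i)) (v : Fin k → E) :
    |iteratedFDeriv ℝ k g y' v - iteratedFDeriv ℝ k g y v| ≤ M * (p (y' - y) * ∏ i, p (v i)) := by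
  obtain this := iter_seg_le (B := M * (p (y' - y) * ∏ i, p (v i))) (y := y) (h := y' - y) v
    (fun _ hτ => hg _ (seg_mem hU hy hy' hτ))
    (fun _ hτ => by simpa [Fin.prod_univ_succ] using hD _ (seg_mem hU hy hy' hτ) (Fin.cons (y' - y) v))
    (τ := 1) ⟨zero_le_one, le_rfl⟩
  simpa using this

/-- second order change of the first derivative -/
theorem fderiv_taylor_le (hU : Convex ℝ U) {y y' : E} (hy : y ∈ U) (hy' : y' ∈ U)
    (hg : ∀ u ∈ U, ContDiffAt ℝ 3 g u)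
    (hD : ∀ u ∈ U, ∀ v : Fin 3 → E, |iteratedFDeriv ℝ 3 g u v| ≤ M * ∏ i, p (v i)) (v : E) :
    |fderiv ℝ g y' v - fderiv ℝ g y v - iteratedFDeriv ℝ 2 g y ![y' - y, v]|
      ≤ M * (p (y' - y) ^ 2 * p v) := by
  set h := y' - y with hh
  obtain hd : ∀ τ ∈ Set.Icc (0 : ℝ) 1, HasDerivAt
      (fun τ : ℝ => iteratedFDeriv ℝ 1 g (y + τ • h) ![v] - τ * iteratedFDeriv ℝ 2 g y ![h, v])
      (iteratedFDeriv ℝ 2 g (y + τ • h) ![h, v] - iteratedFDeriv ℝ 2 g y ![h, v]) τ := by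
    intro τ hτ
    obtain h1 := hasDerivAt_iter (k := 1) ![v]
      ((hg _ (seg_mem hU hy hy' hτ)).of_le (by norm_num))
    have h2 := h1.sub ((hasDerivAt_id τ).mul_const (iteratedFDeriv ℝ 2 g y ![h, v]))
    rw [one_mul] at h2
    exact h2
  obtain hb : ∀ τ ∈ Set.Ico (0 : ℝ) 1,
      ‖iteratedFDeriv ℝ 2 g (y + τ • h) ![h, v] - iteratedFDeriv ℝ 2 g y ![h, v]‖
        ≤ M * (p h ^ 2 * p v) := by
    intro τ hτ
    refine iter_seg_le (k := 2) ![h, v] (fun σ hσ => hg _ (seg_mem hU hy hy' hσ))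
      (fun σ hσ => ?_) (Set.Ico_subset_Icc_self hτ)
    have := hD _ (seg_mem hU hy hy' hσ) (Fin.cons h ![h, v])
    refine this.trans (le_of_eq ?_)
    rw [Fin.prod_univ_three]
    show M * (p h * p h * p v) = _
    ring
  have := norm_image_sub_le_of_norm_deriv_le_segment_01' (fun τ hτ => (hd τ hτ).hasDerivWithinAt) hb
  simp only [one_smul, one_mul, zero_smul, add_zero, zero_mul, sub_zero, Real.norm_eq_abs,
    iteratedFDeriv_one_apply, Matrix.cons_val_zero, hh, add_sub_cancel] at this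
  convert this using 2
  ring

/-- telescoping in the arguments of a multilinear map -/
theorem multi_sub_le {k : ℕ} (T : ContinuousMultilinearMap ℝ (fun _ : Fin k => E) ℝ) (hM : 0 ≤ M)
    (hp : ∀ v, 0 ≤ p v) (hT : ∀ v, |T v| ≤ M * ∏ i, p (v i)) {v w : Fin k → E} {a d : Fin k → ℝ}
    (hv : ∀ i, p (v i) ≤ a i) (hw : ∀ i, p (w i) ≤ a i) (hd : ∀ i, p (v i - w i) ≤ d i)
    (hB : ∀ i, d i * ∏ l ∈ univ.erase i, a l ≤ B) : |T v - T w| ≤ k * (M * B) := by
  have e := T.toMultilinearMap.map_sub_map_piecewise v w univ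
  simp only [Finset.piecewise_univ, ContinuousMultilinearMap.coe_coe, mem_univ, forall_true_left] at e
  rw [e]
  refine (abs_sum_le_sum_abs _ _).trans ?_
  obtain this : ∀ i ∈ (univ : Finset (Fin k)),
      |T fun l => if l < i then v l else if i = l then v l - w l else w l| ≤ M * B := by
    intro i _
    refine (hT _).trans (mul_le_mul_of_nonneg_left (le_trans ?_ (hB i)) hM)
    rw [← Finset.mul_prod_erase _ _ (mem_univ i)]
    refine mul_le_mul (by simpa using hd i) (Finset.prod_le_prod (fun l _ => hp _) fun l hl => ?_)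
      (Finset.prod_nonneg fun l _ => hp _) ((hp _).trans (hd i))
    have hl' : i ≠ l := (Finset.ne_of_mem_erase hl).symm
    split_ifs
    · exact hv l
    · exact hw l
  refine (Finset.sum_le_sum this).trans (by simp)

/-- difference of the terms with at least `r ≥ 2` parts -/
theorem rest_sub_le {r : ℕ} (hr : 2 ≤ r) (hU : Convex ℝ U) (h1 : γ₁ x ∈ U) (h2 : γ₂ x ∈ U)
    (hg : ∀ u ∈ U, ContDiffAt ℝ (j + 1 : ℕ) g u) (hM : 0 ≤ M) (hB : 0 ≤ B) (hp : ∀ v, 0 ≤ p v)
    (hD : ∀ k, r ≤ k → k ≤ j + 1 → ∀ u ∈ U, ∀ v : Fin k → E,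
      |iteratedFDeriv ℝ k g u v| ≤ M * ∏ i, p (v i))
    (hm1 : ∀ a, 0 < a → a < j → p (iteratedDeriv a γ₁ x) ≤ m a)
    (hm2 : ∀ a, 0 < a → a < j → p (iteratedDeriv a γ₂ x) ≤ m a)
    (hz0 : p (γ₁ x - γ₂ x) ≤ z 0)
    (hz : ∀ a, 0 < a → a < j → p (iteratedDeriv a γ₁ x - iteratedDeriv a γ₂ x) ≤ z a)
    (hprod : ∀ k (s : Fin k → ℕ), r ≤ k → k ≤ j → (∀ i, 0 < s i) → ∑ i, s i = j →
      z 0 * ∏ i, m (s i) ≤ B ∧ ∀ i, z (s i) * ∏ l ∈ univ.erase i, m (s l) ≤ B) :
    |rest g γ₁ x j r - rest g γ₂ x j r| ≤ j ! * ((j + 1) * (M * B)) := by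
  obtain e : rest g γ₁ x j r - rest g γ₂ x j r = ∑ c : OrderedFinpartition j,
      if r ≤ c.length then
        (fun k s => term g γ₁ x k s - term g γ₂ x k s) c.length c.partSize else 0 := by
    unfold rest
    rw [← Finset.sum_sub_distrib]
    refine Finset.sum_congr rfl fun c _ => ?_
    split_ifs <;> simp
  rw [e]
  refine abs_sum_le r (fun k s => term g γ₁ x k s - term g γ₂ x k s) (B := (j + 1) * (M * B))
    (by (clear * - hM hB; positivity)) fun k s hk hkj hs hj => ?_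
  obtain hlt : ∀ i, s i < j := by
    intro i
    obtain hk2 : 1 < Fintype.card (Fin k) := by simp; omega
    obtain ⟨i', hi'⟩ := Fintype.exists_ne_of_one_lt_card hk2 i
    have := Finset.add_le_sum (f := s) (s := Finset.univ) (fun _ _ => Nat.zero_le _)
      (Finset.mem_univ i) (Finset.mem_univ i') hi'.symm
    have := hs i'
    omega
  obtain ⟨hb0, hb⟩ := hprod k s hk hkj hs hj
  obtain A := iter_sub_le (k := k) hU h2 h1
    (fun u hu => (hg u hu).of_le (by exact_mod_cast (by omega : k + 1 ≤ j + 1)))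
    (hD (k + 1) (by omega) (by omega)) fun i => iteratedDeriv (s i) γ₁ x
  have A' : p (γ₁ x - γ₂ x) * ∏ i, p (iteratedDeriv (s i) γ₁ x) ≤ B :=
    le_trans (mul_le_mul hz0 (Finset.prod_le_prod (fun i _ => hp _) fun i _ => hm1 _ (hs i) (hlt i))
      (Finset.prod_nonneg fun i _ => hp _) ((hp _).trans hz0)) hb0
  obtain C := multi_sub_le (iteratedFDeriv ℝ k g (γ₂ x)) hM hp (hD k hk (by omega) _ h2)
    (fun i => hm1 _ (hs i) (hlt i)) (fun i => hm2 _ (hs i) (hlt i)) (fun i => hz _ (hs i) (hlt i)) hb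
  obtain hkj' : (k : ℝ) ≤ j := by exact_mod_cast hkj
  have hMB : 0 ≤ M * B := mul_nonneg hM hB
  have := abs_add_le
    (iteratedFDeriv ℝ k g (γ₁ x) (fun i => iteratedDeriv (s i) γ₁ x) -
      iteratedFDeriv ℝ k g (γ₂ x) (fun i => iteratedDeriv (s i) γ₁ x))
    (iteratedFDeriv ℝ k g (γ₂ x) (fun i => iteratedDeriv (s i) γ₁ x) -
      iteratedFDeriv ℝ k g (γ₂ x) (fun i => iteratedDeriv (s i) γ₂ x))
  rw [sub_add_sub_cancel] at this
  have A2 := mul_le_mul_of_nonneg_left A' hM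
  have C2 := mul_le_mul_of_nonneg_right hkj' hMB
  simp only [term]
  linarith only [A, C, this, A2, C2]

/-- **any order**: the jet of the difference minus its linear part -/
theorem diff_any (hU : Convex ℝ U) (h1 : γ₁ x ∈ U) (h2 : γ₂ x ∈ U)
    (hg : ∀ u ∈ U, ContDiffAt ℝ (j + 1 : ℕ) g u) (hγ₁ : ContDiffAt ℝ j γ₁ x)
    (hγ₂ : ContDiffAt ℝ j γ₂ x) (hj : 0 < j) (hM : 0 ≤ M) (hB : 0 ≤ B) (hp : ∀ v, 0 ≤ p v)
    (hD : ∀ k, 2 ≤ k → k ≤ j + 1 → ∀ u ∈ U, ∀ v : Fin k → E,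
      |iteratedFDeriv ℝ k g u v| ≤ M * ∏ i, p (v i))
    (hm1 : ∀ a, 0 < a → a ≤ j → p (iteratedDeriv a γ₁ x) ≤ m a)
    (hm2 : ∀ a, 0 < a → a < j → p (iteratedDeriv a γ₂ x) ≤ m a)
    (hz0 : p (γ₁ x - γ₂ x) ≤ z 0)
    (hz : ∀ a, 0 < a → a < j → p (iteratedDeriv a γ₁ x - iteratedDeriv a γ₂ x) ≤ z a)
    (hprod : ∀ k (s : Fin k → ℕ), 2 ≤ k → k ≤ j → (∀ i, 0 < s i) → ∑ i, s i = j →
      z 0 * ∏ i, m (s i) ≤ B ∧ ∀ i, z (s i) * ∏ l ∈ univ.erase i, m (s l) ≤ B) :
    |iteratedDeriv j (g ∘ γ₁) x - iteratedDeriv j (g ∘ γ₂) x -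
        fderiv ℝ g (γ₂ x) (iteratedDeriv j γ₁ x - iteratedDeriv j γ₂ x)|
      ≤ M * (z 0 * m j) + j ! * ((j + 1) * (M * B)) := by
  obtain hj1 : ((j : ℕ) : WithTop ℕ∞) ≤ (j + 1 : ℕ) := by exact_mod_cast Nat.le_succ j
  obtain hj2 : (2 : WithTop ℕ∞) ≤ (j + 1 : ℕ) := by exact_mod_cast (by omega : 2 ≤ j + 1)
  rw [expand_one ((hg _ h1).of_le hj1) hγ₁ hj le_rfl, expand_one ((hg _ h2).of_le hj1) hγ₂ hj le_rfl]
  have A := rest_sub_le le_rfl hU h1 h2 hg hM hB hp hD (fun a h h' => hm1 a h h'.le) hm2 hz0 hz hprod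
  obtain C := fderiv_sub_le_gauge hU h2 h1 (fun u hu => (hg u hu).of_le hj2)
    (hD 2 le_rfl (by omega)) (iteratedDeriv j γ₁ x)
  have C' := mul_le_mul_of_nonneg_left
    (mul_le_mul hz0 (hm1 j hj le_rfl) (hp _) ((hp _).trans hz0)) hM
  rw [map_sub]
  have := abs_add_le (fderiv ℝ g (γ₁ x) (iteratedDeriv j γ₁ x) - fderiv ℝ g (γ₂ x) (iteratedDeriv j γ₁ x))
    (rest g γ₁ x j 2 - rest g γ₂ x j 2)
  refine le_trans (le_of_eq ?_) (this.trans (by linarith only [A, C, C']))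
  congr 1; ring

/-- the linear term for two points and two vectors, with its main part -/
theorem lin_diff (hU : Convex ℝ U) {y₁ y₂ v₁ v₂ : E} (h1 : y₁ ∈ U) (h2 : y₂ ∈ U)
    (hg : ∀ u ∈ U, ContDiffAt ℝ 3 g u) (hM : 0 ≤ M) (hp : ∀ v, 0 ≤ p v)
    (hD2 : ∀ u ∈ U, ∀ v : Fin 2 → E, |iteratedFDeriv ℝ 2 g u v| ≤ M * ∏ i, p (v i))
    (hD3 : ∀ u ∈ U, ∀ v : Fin 3 → E, |iteratedFDeriv ℝ 3 g u v| ≤ M * ∏ i, p (v i))
    {z0 z1 m1 : ℝ} (hz0 : p (y₁ - y₂) ≤ z0) (hz1 : p (v₁ - v₂) ≤ z1) (hm : p v₂ ≤ m1) :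
    |fderiv ℝ g y₁ v₁ - fderiv ℝ g y₂ v₂ - fderiv ℝ g y₂ (v₁ - v₂)
        - iteratedFDeriv ℝ 2 g y₂ ![y₁ - y₂, v₂]| ≤ M * (z0 ^ 2 * m1 + z0 * z1) := by
  have A := fderiv_taylor_le hU h2 h1 hg hD3 v₂
  obtain C := fderiv_sub_le_gauge hU h2 h1 (fun u hu => (hg u hu).of_le (by norm_num)) hD2 (v₁ - v₂)
  have h0 : 0 ≤ z0 := (hp _).trans hz0
  obtain A' := mul_le_mul_of_nonneg_left
    (mul_le_mul (pow_le_pow_left₀ (hp _) hz0 2) hm (hp _) (by positivity)) hM
  have C' := mul_le_mul_of_nonneg_left (mul_le_mul hz0 hz1 (hp _) h0) hM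
  have := abs_add_le
    (fderiv ℝ g y₁ v₂ - fderiv ℝ g y₂ v₂ - iteratedFDeriv ℝ 2 g y₂ ![y₁ - y₂, v₂])
    (fderiv ℝ g y₁ (v₁ - v₂) - fderiv ℝ g y₂ (v₁ - v₂))
  refine le_trans (le_of_eq ?_) (this.trans (by linarith only [A, C, A', C']))
  congr 1
  simp only [map_sub]; ring

/-- order `1` -/
theorem diff_one (hU : Convex ℝ U) (h1 : γ₁ x ∈ U) (h2 : γ₂ x ∈ U)
    (hg : ∀ u ∈ U, ContDiffAt ℝ 3 g u) (hγ₁ : ContDiffAt ℝ 1 γ₁ x) (hγ₂ : ContDiffAt ℝ 1 γ₂ x)
    (hM : 0 ≤ M) (hp : ∀ v, 0 ≤ p v)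
    (hD2 : ∀ u ∈ U, ∀ v : Fin 2 → E, |iteratedFDeriv ℝ 2 g u v| ≤ M * ∏ i, p (v i))
    (hD3 : ∀ u ∈ U, ∀ v : Fin 3 → E, |iteratedFDeriv ℝ 3 g u v| ≤ M * ∏ i, p (v i))
    {z0 z1 m1 : ℝ} (hz0 : p (γ₁ x - γ₂ x) ≤ z0)
    (hz1 : p (iteratedDeriv 1 γ₁ x - iteratedDeriv 1 γ₂ x) ≤ z1)
    (hm : p (iteratedDeriv 1 γ₂ x) ≤ m1) :
    |iteratedDeriv 1 (g ∘ γ₁) x - iteratedDeriv 1 (g ∘ γ₂) x
        - fderiv ℝ g (γ₂ x) (iteratedDeriv 1 γ₁ x - iteratedDeriv 1 γ₂ x)
        - iteratedFDeriv ℝ 2 g (γ₂ x) ![γ₁ x - γ₂ x, iteratedDeriv 1 γ₂ x]|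
      ≤ M * (z0 ^ 2 * m1 + z0 * z1) := by
  obtain r : ∀ γ : ℝ → E, rest g γ x 1 2 = 0 := fun γ =>
    Finset.sum_eq_zero fun c _ => if_neg (by have := c.length_le; omega)
  rw [expand_one ((hg _ h1).of_le (by norm_num)) hγ₁ one_pos le_rfl,
    expand_one ((hg _ h2).of_le (by norm_num)) hγ₂ one_pos le_rfl, r, r, add_zero, add_zero]
  exact lin_diff hU h1 h2 hg hM hp hD2 hD3 hz0 hz1 hm

lemma expand_ord_two {γ : ℝ → E} (hg : ContDiffAt ℝ 2 g (γ x)) (hγ : ContDiffAt ℝ 2 γ x) :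
    iteratedDeriv 2 (g ∘ γ) x = fderiv ℝ g (γ x) (iteratedDeriv 2 γ x) +
      iteratedFDeriv ℝ 2 g (γ x) ![iteratedDeriv 1 γ x, iteratedDeriv 1 γ x] := by
  obtain r : rest g γ x 2 3 = 0 :=
    Finset.sum_eq_zero fun c _ => if_neg (by have := c.length_le; omega)
  rw [expand_two hg hγ two_pos le_rfl, r, add_zero]
  congr 1
  obtain this : Ioo 0 2 = {1} := by decide
  simp [quad, this]

/-- order `2`; `m1` bounds the first jet of `γ₁`, `m2` the second jet of `γ₂` -/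
theorem diff_two (hU : Convex ℝ U) (h1 : γ₁ x ∈ U) (h2 : γ₂ x ∈ U)
    (hg : ∀ u ∈ U, ContDiffAt ℝ 3 g u) (hγ₁ : ContDiffAt ℝ 2 γ₁ x) (hγ₂ : ContDiffAt ℝ 2 γ₂ x)
    (hM : 0 ≤ M) (hp : ∀ v, 0 ≤ p v)
    (hD2 : ∀ u ∈ U, ∀ v : Fin 2 → E, |iteratedFDeriv ℝ 2 g u v| ≤ M * ∏ i, p (v i))
    (hD3 : ∀ u ∈ U, ∀ v : Fin 3 → E, |iteratedFDeriv ℝ 3 g u v| ≤ M * ∏ i, p (v i))
    {z0 z1 z2 m1 m2 : ℝ} (hz0 : p (γ₁ x - γ₂ x) ≤ z0)
    (hz1 : p (iteratedDeriv 1 γ₁ x - iteratedDeriv 1 γ₂ x) ≤ z1)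
    (hz2 : p (iteratedDeriv 2 γ₁ x - iteratedDeriv 2 γ₂ x) ≤ z2)
    (hm1 : p (iteratedDeriv 1 γ₁ x) ≤ m1) (hm2 : p (iteratedDeriv 2 γ₂ x) ≤ m2) :
    |iteratedDeriv 2 (g ∘ γ₁) x - iteratedDeriv 2 (g ∘ γ₂) x
        - fderiv ℝ g (γ₂ x) (iteratedDeriv 2 γ₁ x - iteratedDeriv 2 γ₂ x)
        - iteratedFDeriv ℝ 2 g (γ₂ x) ![γ₁ x - γ₂ x, iteratedDeriv 2 γ₂ x]
        - 2 * iteratedFDeriv ℝ 2 g (γ₂ x)
            ![iteratedDeriv 1 γ₁ x - iteratedDeriv 1 γ₂ x, iteratedDeriv 1 γ₂ x]|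
      ≤ M * (z0 ^ 2 * m2 + z0 * z2 + z1 ^ 2 + z0 * m1 ^ 2) := by
  obtain g2 : ∀ u ∈ U, ContDiffAt ℝ 2 g u := fun u hu => (hg u hu).of_le (by norm_num)
  rw [expand_ord_two (g2 _ h1) hγ₁, expand_ord_two (g2 _ h2) hγ₂]
  have A := lin_diff hU h1 h2 hg hM hp hD2 hD3 hz0 hz2 hm2
  set u₁ := iteratedDeriv 1 γ₁ x
  set u₂ := iteratedDeriv 1 γ₂ x
  have C := iter_sub_le (k := 2) hU h2 h1 hg hD3 ![u₁, u₁]
  have D := hD2 _ h2 ![u₁ - u₂, u₁ - u₂]
  simp only [Fin.prod_univ_two, Matrix.cons_val_zero, Matrix.cons_val_one] at C D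
  have h0 : 0 ≤ z0 := (hp _).trans hz0
  have C' := mul_le_mul_of_nonneg_left (mul_le_mul hz0 (mul_self_le_mul_self (hp _) hm1)
    (mul_self_nonneg _) h0) hM
  have D' := mul_le_mul_of_nonneg_left (mul_self_le_mul_self (hp _) hz1) hM
  obtain hs : IsSymmSndFDerivAt ℝ g (γ₂ x) := (g2 _ h2).isSymmSndFDerivAt (by simp)
  obtain e : iteratedFDeriv ℝ 2 g (γ₂ x) ![u₁, u₁] - iteratedFDeriv ℝ 2 g (γ₂ x) ![u₂, u₂]
      - 2 * iteratedFDeriv ℝ 2 g (γ₂ x) ![u₁ - u₂, u₂]
      = iteratedFDeriv ℝ 2 g (γ₂ x) ![u₁ - u₂, u₁ - u₂] := by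
    have := hs u₁ u₂
    simp only [iteratedFDeriv_two_apply, Matrix.cons_val_zero, Matrix.cons_val_one, map_sub,
      _root_.sub_apply]
    linarith only [this]
  rw [← e] at D
  have t := abs_add_three
    (fderiv ℝ g (γ₁ x) (iteratedDeriv 2 γ₁ x) - fderiv ℝ g (γ₂ x) (iteratedDeriv 2 γ₂ x)
      - fderiv ℝ g (γ₂ x) (iteratedDeriv 2 γ₁ x - iteratedDeriv 2 γ₂ x)
      - iteratedFDeriv ℝ 2 g (γ₂ x) ![γ₁ x - γ₂ x, iteratedDeriv 2 γ₂ x])
    (iteratedFDeriv ℝ 2 g (γ₁ x) ![u₁, u₁] - iteratedFDeriv ℝ 2 g (γ₂ x) ![u₁, u₁])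
    (iteratedFDeriv ℝ 2 g (γ₂ x) ![u₁, u₁] - iteratedFDeriv ℝ 2 g (γ₂ x) ![u₂, u₂]
      - 2 * iteratedFDeriv ℝ 2 g (γ₂ x) ![u₁ - u₂, u₂])
  refine le_trans (le_of_eq ?_) (t.trans (by linarith only [A, C, D, C', D']))
  congr 1; ring

/-- order `3`, majorant only -/
theorem diff_three (hU : Convex ℝ U) (h1 : γ₁ x ∈ U) (h2 : γ₂ x ∈ U)
    (hg : ∀ u ∈ U, ContDiffAt ℝ 4 g u) (hγ₁ : ContDiffAt ℝ 3 γ₁ x) (hγ₂ : ContDiffAt ℝ 3 γ₂ x)
    (hM : 0 ≤ M) (hp : ∀ v, 0 ≤ p v)
    (hD : ∀ k, 2 ≤ k → k ≤ 4 → ∀ u ∈ U, ∀ v : Fin k → E,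
      |iteratedFDeriv ℝ k g u v| ≤ M * ∏ i, p (v i))
    (hm1 : ∀ a, 0 < a → a ≤ 3 → p (iteratedDeriv a γ₁ x) ≤ m a)
    (hm2 : ∀ a, 0 < a → a < 3 → p (iteratedDeriv a γ₂ x) ≤ m a)
    (hz0 : p (γ₁ x - γ₂ x) ≤ z 0)
    (hz : ∀ a, 0 < a → a < 3 → p (iteratedDeriv a γ₁ x - iteratedDeriv a γ₂ x) ≤ z a) :
    |iteratedDeriv 3 (g ∘ γ₁) x - iteratedDeriv 3 (g ∘ γ₂) x -
        fderiv ℝ g (γ₂ x) (iteratedDeriv 3 γ₁ x - iteratedDeriv 3 γ₂ x)|
      ≤ M * (z 0 * m 3) + 24 * (M * (z 0 * (m 1 * m 2) + z 0 * m 1 ^ 3 + z 1 * m 2 + z 2 * m 1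
          + z 1 * m 1 ^ 2)) := by
  have a0 : 0 ≤ z 0 := (hp _).trans hz0
  obtain a1 : 0 ≤ z 1 := (hp _).trans (hz 1 one_pos (by norm_num))
  obtain a2 : 0 ≤ z 2 := (hp _).trans (hz 2 two_pos (by norm_num))
  obtain b1 : 0 ≤ m 1 := (hp _).trans (hm1 1 one_pos (by norm_num))
  obtain b2 : 0 ≤ m 2 := (hp _).trans (hm1 2 two_pos (by norm_num))
  obtain t1 : 0 ≤ z 0 * (m 1 * m 2) := by (clear * - a0 b1 b2; positivity)
  obtain t2 : 0 ≤ z 0 * m 1 ^ 3 := by positivity
  obtain t3 : 0 ≤ z 1 * m 2 := by positivity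
  obtain t4 : 0 ≤ z 2 * m 1 := by positivity
  obtain t5 : 0 ≤ z 1 * m 1 ^ 2 := by positivity
  have := diff_any (j := 3) (B := z 0 * (m 1 * m 2) + z 0 * m 1 ^ 3 + z 1 * m 2 + z 2 * m 1
    + z 1 * m 1 ^ 2) hU h1 h2 hg hγ₁ hγ₂ (by norm_num) hM (by (clear * - a0 b1 b2 a1 a2; positivity)) hp hD hm1 hm2 hz0 hz
    fun k s hk hkj hs hj => by
      interval_cases k
      · rw [Fin.sum_univ_two] at hj
        have p0 := hs 0
        have p1 := hs 1
        obtain e0 : (univ : Finset (Fin 2)).erase 0 = {1} := by decide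
        obtain e1 : (univ : Finset (Fin 2)).erase 1 = {0} := by decide
        rw [Fin.prod_univ_two, Fin.forall_fin_two, e0, e1, prod_singleton, prod_singleton]
        rcases (by omega : s 0 = 1 ∧ s 1 = 2 ∨ s 0 = 2 ∧ s 1 = 1) with ⟨u, v⟩ | ⟨u, v⟩ <;>
          rw [u, v] <;> refine ⟨by linarith only [t2, t3, t4, t5], by linarith only [t1, t2, t4, t5, t3], by linarith only [t1, t2, t3, t5, t4]⟩
      · rw [Fin.sum_univ_three] at hj
        have p0 := hs 0
        have p1 := hs 1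
        have p2 := hs 2
        obtain u : ∀ i, s i = 1 := by
          intro i; fin_cases i <;> simp <;> omega
        simp only [u, prod_const, Finset.card_univ, Fintype.card_fin]
        refine ⟨by linarith only [t1, t3, t4, t5], fun i => ?_⟩
        rw [card_erase_of_mem (mem_univ i), Finset.card_univ, Fintype.card_fin]
        show z 1 * m 1 ^ 2 ≤ _
        linarith only [t1, t2, t3, t4]
  refine this.trans (le_of_eq ?_)
  norm_num [Nat.factorial]; ring

end Pool.Agent.MP_9cbfe4_an.J0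

end

/-! ### Part IFT -/

section

/-! Row IFT (model-free): the root of a scalar equation that is monotone in the unknown,
its smoothness, bounds for its jets along a parameter curve, and comparison of two roots. -/

namespace Pool.Agent.MP_9cbfe4_an.IFT

open Finset Nat Filter Topology

variable {E : Type*} [NormedAddCommGroup E] [NormedSpace ℝ E]

theorem hasDerivAt_snd {Φ : E × ℝ → ℝ} {p : E} {x : ℝ} (h : DifferentiableAt ℝ Φ (p, x)) :
    HasDerivAt (fun y => Φ (p, y)) (fderiv ℝ Φ (p, x) (0, 1)) x :=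
  h.hasFDerivAt.comp_hasDerivAt x ((hasDerivAt_const x p).prodMk (hasDerivAt_id x))

/-- monotonicity in the unknown -/
theorem mono {Φ : E × ℝ → ℝ} {p : E} {a b m ε : ℝ}
    (hΦ : ∀ x ∈ Set.Icc a b, DifferentiableAt ℝ Φ (p, x))
    (hd : ∀ x ∈ Set.Icc a b, m ≤ ε * fderiv ℝ Φ (p, x) (0, 1)) {x y : ℝ} (hx : x ∈ Set.Icc a b)
    (hy : y ∈ Set.Icc a b) (hxy : x ≤ y) : m * (y - x) ≤ ε * Φ (p, y) - ε * Φ (p, x) := by
  have hD : ∀ z ∈ Set.Icc a b, HasDerivAt (fun y => ε * Φ (p, y)) (ε * fderiv ℝ Φ (p, z) (0, 1)) z :=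
    fun z hz => (hasDerivAt_snd (hΦ z hz)).const_mul ε
  refine (convex_Icc a b).mul_sub_le_image_sub_of_le_deriv (f := fun y => ε * Φ (p, y))
    (fun z hz => (hD z hz).continuousAt.continuousWithinAt)
    (fun z hz => (hD z (interior_subset hz)).differentiableAt.differentiableWithinAt)
    (fun z hz => ?_) x hx y hy hxy
  rw [(hD z (interior_subset hz)).deriv]; exact hd z (interior_subset hz)

/-- a function that solves the equation near `p` and is the only nearby solution is smooth;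
form with a local implicit function -/
theorem local_root [CompleteSpace E] {n : WithTop ℕ∞} (hn : n ≠ 0) {Φ : E × ℝ → ℝ} {p : E} {x : ℝ}
    (hΦ : ContDiffAt ℝ n Φ (p, x)) (hd : fderiv ℝ Φ (p, x) (0, 1) ≠ 0) :
    ∃ ψ : E → ℝ, ContDiffAt ℝ n ψ p ∧ ψ p = x ∧ (∀ᶠ q in 𝓝 p, Φ (q, ψ q) = Φ (p, x)) ∧
      ∀ᶠ v in 𝓝 (p, x), Φ v = Φ (p, x) → ψ v.1 = v.2 := by
  obtain hi : (fderiv ℝ Φ (p, x) ∘L .inr ℝ E ℝ).IsInvertible := by
    refine ⟨ContinuousLinearEquiv.unitsEquivAut ℝ (Units.mk0 _ hd), ?_⟩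
    ext; simp
  exact ⟨hΦ.implicitFunction hn hi, hΦ.contDiffAt_implicitFunction hn hi,
    hΦ.implicitFunction_apply_self hn hi, hΦ.eventually_apply_implicitFunction hn hi,
    (hΦ.eventually_apply_eq_iff_implicitFunction hn hi).mono fun _ h => h.1⟩

/-! ### Jets -/

/-- majorant of the jet of order `a` -/
def mj (x δ : ℝ) (a : ℕ) : ℝ := x ^ (2 * a - 1) * δ ^ a

end Pool.Agent.MP_9cbfe4_an.IFT

end

/-! ### Part PIG -/

section

/-! h70s row PIG (helper82): the pigeonhole for `vt` (E3) and the ratio bookkeeping of the chain (E2),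
model free. -/

namespace Pool.Agent.MP_9cbfe4_an.PIG

open Finset

/-- one element: the dyadic thresholds below `x` sum to at most `2 min x (ρ/2^j0)` -/
theorem one {ρ x : ℝ} (hρ : 0 ≤ ρ) (hx : 0 ≤ x) (J : ℕ) : ∀ j0 : ℕ,
    ∑ j ∈ Ico j0 (j0 + J), (if ρ / 2 ^ j ≤ x then ρ / 2 ^ j else 0) ≤
      2 * min x (ρ / 2 ^ j0) := by
  induction J with
  | zero =>
    intro j0
    rw [add_zero, Ico_self, sum_empty]
    exact mul_nonneg (by norm_num) (le_min hx (by positivity))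
  | succ J ih =>
    intro j0
    rw [sum_eq_sum_Ico_succ_bot (by omega), show j0 + (J + 1) = j0 + 1 + J by ring]
    have h1 := ih (j0 + 1)
    obtain h2 : ρ / 2 ^ (j0 + 1) = ρ / 2 ^ j0 / 2 := by rw [pow_succ, div_div]
    obtain h3 : 0 ≤ ρ / 2 ^ j0 := by positivity
    rw [h2] at h1
    split_ifs with h
    · rw [min_eq_right h]
      linarith only [h1, min_le_right x (ρ / 2 ^ j0 / 2)]
    · obtain this : min x (ρ / 2 ^ j0 / 2) ≤ min x (ρ / 2 ^ j0) := min_le_min le_rfl (by linarith only [hx, h])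
      linarith only [h1, this]

open Classical in
/-- Among `J` consecutive dyadic thresholds `vt = 2^-j`, `j0 ≤ j < j0 + J`, one has
`#{x : R x ≥ vt ρ} · vt · ρ · J ≤ 2 ∑ min (R x) (ρ / 2^j0)`. -/
theorem pigeon {ι : Type*} (s : Finset ι) (R : ι → ℝ) (hR : ∀ x ∈ s, 0 ≤ R x) {ρ : ℝ}
    (hρ : 0 ≤ ρ) (j0 : ℕ) {J : ℕ} (hJ : 0 < J) : ∃ j, j0 ≤ j ∧ j < j0 + J ∧
      ((s.filter fun x => ρ / 2 ^ j ≤ R x).card : ℝ) * (ρ / 2 ^ j) * J ≤
        2 * ∑ x ∈ s, min (R x) (ρ / 2 ^ j0) := by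
  obtain hs : ∑ j ∈ Ico j0 (j0 + J), ((s.filter fun x => ρ / 2 ^ j ≤ R x).card : ℝ) * (ρ / 2 ^ j) ≤
      2 * ∑ x ∈ s, min (R x) (ρ / 2 ^ j0) := by
    obtain e : ∀ j : ℕ, ((s.filter fun x => ρ / 2 ^ j ≤ R x).card : ℝ) * (ρ / 2 ^ j) =
        ∑ x ∈ s, (if ρ / 2 ^ j ≤ R x then ρ / 2 ^ j else 0) := by
      intro j
      rw [← sum_filter, sum_const, nsmul_eq_mul]
    simp_rw [e]
    rw [sum_comm, mul_sum]
    exact sum_le_sum fun x hx => one hρ (hR x hx) J j0
  by_contra hc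
  push Not at hc
  obtain hJ' : (0 : ℝ) < J := by exact_mod_cast hJ
  obtain h2 : ∑ _j ∈ Ico j0 (j0 + J), (2 * ∑ x ∈ s, min (R x) (ρ / 2 ^ j0)) / J <
      ∑ j ∈ Ico j0 (j0 + J), ((s.filter fun x => ρ / 2 ^ j ≤ R x).card : ℝ) * (ρ / 2 ^ j) := by
    refine sum_lt_sum_of_nonempty ⟨j0, by simp [hJ]⟩ fun j hj => ?_
    rw [mem_Ico] at hj
    rw [div_lt_iff₀ hJ']
    exact hc j hj.1 hj.2
  rw [sum_const, Nat.card_Ico, nsmul_eq_mul, show j0 + J - j0 = J by omega,
    mul_div_cancel₀ _ hJ'.ne'] at h2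
  linarith only [hs, h2]

open Classical in
/-- The form used in E3: if `∑ R ≤ S ρ` and `2 S ≤ θ J`, some `vt = 2^-j`, `j0 ≤ j < j0 + J`, has
`#deep · vt ≤ θ`. -/
theorem pigeon' {ι : Type*} (s : Finset ι) (R : ι → ℝ) (hR : ∀ x ∈ s, 0 ≤ R x) {ρ S θ : ℝ}
    (hρ : 0 < ρ) (j0 : ℕ) {J : ℕ} (hJ : 0 < J)
    (hS : ∑ x ∈ s, min (R x) (ρ / 2 ^ j0) ≤ S * ρ) (hθ : 2 * S ≤ θ * J) :
    ∃ j, j0 ≤ j ∧ j < j0 + J ∧
      ((s.filter fun x => (1 / 2 ^ j : ℝ) * ρ ≤ R x).card : ℝ) * (1 / 2 ^ j) ≤ θ := by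
  obtain ⟨j, h1, h2, h3⟩ := pigeon s R hR hρ.le j0 hJ
  refine ⟨j, h1, h2, ?_⟩
  obtain hJ' : (0 : ℝ) < J := by exact_mod_cast hJ
  obtain e : (1 / 2 ^ j : ℝ) * ρ = ρ / 2 ^ j := by ring
  simp_rw [e]
  obtain h4 : ((s.filter fun x => ρ / 2 ^ j ≤ R x).card : ℝ) * (1 / 2 ^ j) * (ρ * J) ≤
      θ * (ρ * J) := by
    calc _ = ((s.filter fun x => ρ / 2 ^ j ≤ R x).card : ℝ) * (ρ / 2 ^ j) * J := by ring
      _ ≤ 2 * (S * ρ) := by linarith only [hS, h3]
      _ = 2 * S * ρ := by ring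
      _ ≤ θ * J * ρ := by gcongr
      _ = _ := by ring
  exact le_of_mul_le_mul_right h4 (by (clear * - hρ hJ; positivity))

end Pool.Agent.MP_9cbfe4_an.PIG

end

/-! ### Part T4a -/

section

/-! Row T4, real-analysis part: Lipschitz change of variables, pieces, Vitali sums. -/

namespace Pool.Agent.MP_9cbfe4_an.T4

open MeasureTheory Set Metric
open scoped ENNReal

theorem vol_image_le {g : ℝ → ℝ} {D : Set ℝ} {K : ℝ} (hK : 0 ≤ K)
    (h : ∀ v ∈ D, ∀ v' ∈ D, |g v - g v'| ≤ K * |v - v'|) :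
    volume (g '' D) ≤ ENNReal.ofReal K * volume D := by
  obtain hl : LipschitzOnWith (Real.toNNReal K) g D := by
    refine LipschitzOnWith.of_dist_le_mul fun x hx y hy => ?_
    rw [Real.coe_toNNReal K hK, Real.dist_eq, Real.dist_eq]
    exact h x hx y hy
  have := hl.hausdorffMeasure_image_le (d := 1) zero_le_one
  rw [hausdorffMeasure_real, ENNReal.rpow_one] at this
  exact this

theorem cv {g : ℝ → ℝ} {D : Set ℝ} {K : ℝ} (hK : 0 ≤ K) (hD : MeasurableSet D)
    (h : ∀ v ∈ D, ∀ v' ∈ D, |g v - g v'| ≤ K * |v - v'|) (f : ℝ → ℝ≥0∞) :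
    ∫⁻ u in g '' D, f u ≤ ENNReal.ofReal K * ∫⁻ v in D, f (g v) := by
  obtain hl : LipschitzOnWith (Real.toNNReal K) g D := by
    refine LipschitzOnWith.of_dist_le_mul fun x hx y hy => ?_
    rw [Real.coe_toNNReal K hK, Real.dist_eq, Real.dist_eq]
    exact h x hx y hy
  have hm : AEMeasurable g (volume.restrict D) := hl.continuousOn.aemeasurable hD
  obtain hle : volume.restrict (g '' D) ≤ ENNReal.ofReal K • Measure.map g (volume.restrict D) := by
    refine Measure.le_iff.2 fun A hA => ?_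
    rw [Measure.restrict_apply hA, Measure.smul_apply, Measure.map_apply_of_aemeasurable hm hA,
      smul_eq_mul]
    obtain e : A ∩ g '' D = g '' (g ⁻¹' A ∩ D) := by
      rw [image_preimage_inter]
    rw [e]
    refine (vol_image_le hK fun v hv v' hv' => h v hv.2 v' hv'.2).trans ?_
    exact mul_le_mul_right (Measure.le_restrict_apply D _) _
  calc ∫⁻ u in g '' D, f u ≤ ∫⁻ u, f u ∂(ENNReal.ofReal K • Measure.map g (volume.restrict D)) :=
        lintegral_mono' hle le_rfl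
    _ = ENNReal.ofReal K * ∫⁻ u, f u ∂(Measure.map g (volume.restrict D)) := by
        rw [lintegral_smul_measure, smul_eq_mul]
    _ ≤ _ := mul_le_mul_right (lintegral_map_le f g) _

/-- a piece of image length `100` inside a window on which `h` is almost affine -/
theorem piece {h : ℝ → ℝ} {p q u0 ξ : ℝ} (hξ : ξ ≠ 0) (hpq : 112 / |ξ| ≤ q - p) (hu0 : u0 ∈ Icc p q)
    (hh : ∀ u ∈ Icc p q, ∀ u' ∈ Icc p q, |h u' - h u - (u' - u) * ξ| ≤ |u' - u| * |ξ| / 10) :
    ∃ (x1 : ℝ) (g : ℝ → ℝ), ContinuousOn g (Icc 0 100) ∧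
      (∀ v ∈ Icc (0 : ℝ) 100, g v ∈ Icc p q ∧ h (g v) = x1 + v) ∧
      (∀ u ∈ Icc p q, |u - u0| ≤ 45 / |ξ| → u ∈ g '' Icc 0 100) ∧
      (∀ f : ℝ → ℝ≥0∞, ∫⁻ u in g '' Icc 0 100, f u ≤
        ENNReal.ofReal (10 / (9 * |ξ|)) * ∫⁻ v in Icc (0 : ℝ) 100, f (g v)) ∧
      (∀ f : ℝ → ℝ≥0∞, ∫⁻ v in Icc (0 : ℝ) 100, f (g v) ≤
        ENNReal.ofReal (11 / 10 * |ξ|) * ∫⁻ u in g '' Icc 0 100, f u) := by
  have hw : 0 < |ξ| := abs_pos.2 hξ
  obtain hup : ∀ u ∈ Icc p q, ∀ u' ∈ Icc p q, |h u' - h u| ≤ 11 / 10 * |ξ| * |u' - u| := by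
    intro u hu u' hu'
    have h1 := hh u hu u' hu'
    have h2 := abs_add_le (h u' - h u - (u' - u) * ξ) ((u' - u) * ξ)
    rw [sub_add_cancel, abs_mul] at h2
    linarith only [h1, h2]
  obtain hlo : ∀ u ∈ Icc p q, ∀ u' ∈ Icc p q, 9 / 10 * |ξ| * |u' - u| ≤ |h u' - h u| := by
    intro u hu u' hu'
    have h1 := hh u hu u' hu'
    have h2 := abs_sub (h u' - h u) (h u' - h u - (u' - u) * ξ)
    rw [sub_sub_cancel, abs_mul] at h2
    linarith only [h1, h2]
  have hle : p ≤ q := hu0.1.trans hu0.2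
  have hp : p ∈ Icc p q := left_mem_Icc.2 hle
  have hq : q ∈ Icc p q := right_mem_Icc.2 hle
  obtain hc : ContinuousOn h (Icc p q) := by
    obtain hl : LipschitzOnWith (Real.toNNReal (11 / 10 * |ξ|)) h (Icc p q) := by
      refine LipschitzOnWith.of_dist_le_mul fun x hx y hy => ?_
      rw [Real.coe_toNNReal _ (by positivity), Real.dist_eq, Real.dist_eq]
      exact hup y hy x hx
    exact hl.continuousOn
  obtain hlen : 100 ≤ |h q - h p| := by
    have h1 := hlo p hp q hq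
    rw [abs_of_nonneg (sub_nonneg.2 hle)] at h1
    have h2 : 112 ≤ (q - p) * |ξ| := (div_le_iff₀ hw).1 hpq
    linarith only [h1, h2]
  obtain hin : ∀ u ∈ Icc p q, min (h p) (h q) ≤ h u ∧ h u ≤ max (h p) (h q) := by
    intro u hu
    have h1 := abs_le.1 (hh p hp u hu)
    have h2 := abs_le.1 (hh u hu q hq)
    rw [abs_of_nonneg (sub_nonneg.2 hu.1)] at h1
    rw [abs_of_nonneg (sub_nonneg.2 hu.2)] at h2
    have a1 := sub_nonneg.2 hu.1
    have a2 := sub_nonneg.2 hu.2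
    rcases lt_or_gt_of_ne hξ with h0 | h0
    · rw [abs_of_neg h0] at h1 h2
      exact ⟨(min_le_right _ _).trans (by linarith only [h2]), le_trans (by linarith only [h1]) (le_max_left _ _)⟩
    · rw [abs_of_pos h0] at h1 h2
      exact ⟨(min_le_left _ _).trans (by linarith only [h1]), le_trans (by linarith only [h2]) (le_max_right _ _)⟩
  set A := min (h p) (h q) with hA
  set B := max (h p) (h q) with hB
  obtain hAB : A + 100 ≤ B := by
    rw [hA, hB]
    rcases le_total (h p) (h q) with h1 | h1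
    · rw [min_eq_left h1, max_eq_right h1]; rw [abs_of_nonneg (by linarith only [h1])] at hlen; linarith only [hlen]
    · rw [min_eq_right h1, max_eq_left h1]; rw [abs_of_nonpos (by linarith only [h1])] at hlen; linarith only [hlen]
  set x1 := max A (min (h u0 - 50) (B - 100)) with hx1
  have hx1a : A ≤ x1 := le_max_left _ _
  obtain hx1b : x1 ≤ B - 100 := max_le (by linarith only [hAB]) (min_le_right _ _)
  obtain hsurj : ∀ v : ℝ, ∃ u, v ∈ Icc (0 : ℝ) 100 → u ∈ Icc p q ∧ h u = x1 + v := by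
    intro v
    by_cases hv : v ∈ Icc (0 : ℝ) 100
    · obtain this := intermediate_value_uIcc (a := p) (b := q) (f := h) (by rwa [uIcc_of_le hle])
      obtain hm : x1 + v ∈ uIcc (h p) (h q) := ⟨by change A ≤ _; linarith only [hx1a, hv.1],
        by change _ ≤ B; linarith only [hx1b, hv.2]⟩
      obtain ⟨u, hu, e⟩ := this hm
      rw [uIcc_of_le hle] at hu
      exact ⟨u, fun _ => ⟨hu, e⟩⟩
    · exact ⟨0, fun h => absurd h hv⟩
  choose g hg using hsurj
  obtain hgl : ∀ v ∈ Icc (0 : ℝ) 100, ∀ v' ∈ Icc (0 : ℝ) 100,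
      |g v - g v'| ≤ 10 / (9 * |ξ|) * |v - v'| := by
    intro v hv v' hv'
    have h1 := hlo _ (hg v' hv').1 _ (hg v hv).1
    rw [(hg v hv).2, (hg v' hv').2, add_sub_add_left_eq_sub] at h1
    rw [div_mul_eq_mul_div, le_div_iff₀ (by positivity)]
    linarith only [h1]
  obtain hgc : ContinuousOn g (Icc 0 100) := by
    obtain hl : LipschitzOnWith (Real.toNNReal (10 / (9 * |ξ|))) g (Icc 0 100) := by
      refine LipschitzOnWith.of_dist_le_mul fun x hx y hy => ?_
      rw [Real.coe_toNNReal _ (by positivity), Real.dist_eq, Real.dist_eq]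
      exact hgl x hx y hy
    exact hl.continuousOn
  obtain hinj : ∀ u ∈ Icc p q, ∀ u' ∈ Icc p q, h u' = h u → u' = u := by
    intro u hu u' hu' e
    have h1 := hlo u hu u' hu'
    rw [e, sub_self, abs_zero] at h1
    obtain h2 : |u' - u| ≤ 0 := by
      by_contra h3
      have := mul_pos hw (not_le.1 h3)
      linarith only [h1, this]
    exact sub_eq_zero.1 (abs_nonpos_iff.1 h2)
  refine ⟨x1, g, hgc, hg, ?_, cv (by positivity) measurableSet_Icc hgl, fun f => ?_⟩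
  · intro u hu hd
    have h1 := hup u0 hu0 u hu
    have h2 : |u - u0| * |ξ| ≤ 45 := (le_div_iff₀ hw).1 hd
    obtain h3 : |h u - h u0| ≤ 50 := by linarith only [h1, h2]
    have h4 := abs_le.1 h3
    have h5 := hin u hu
    obtain h6 : x1 ≤ h u := max_le h5.1 ((min_le_left _ _).trans (by linarith only [h4]))
    obtain h7 : h u - 100 ≤ x1 := le_trans (le_min (by linarith only [h4]) (by linarith only [h5.2])) (le_max_right _ _)
    obtain hv : h u - x1 ∈ Icc (0 : ℝ) 100 := ⟨by linarith only [h6], by linarith only [h7]⟩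
    exact ⟨_, hv, hinj u hu _ (hg _ hv).1 (by rw [(hg _ hv).2]; ring)⟩
  · have hK : MeasurableSet (g '' Icc 0 100) := (isCompact_Icc.image_of_continuousOn hgc).measurableSet
    obtain h1 := cv (g := fun u => h u - x1) (D := g '' Icc 0 100) (K := 11 / 10 * |ξ|) (by positivity)
      hK (by
        rintro _ ⟨v, hv, rfl⟩ _ ⟨v', hv', rfl⟩
        have := hup _ (hg v' hv').1 _ (hg v hv).1
        simpa only [sub_sub_sub_cancel_right] using this) fun v => f (g v)
    obtain e1 : (fun u => h u - x1) '' (g '' Icc 0 100) = Icc 0 100 := by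
      rw [image_image]
      refine (image_congr fun v hv => ?_).trans (image_id _)
      rw [(hg v hv).2]; simp
    rw [e1] at h1
    refine h1.trans (le_of_eq ?_)
    congr 1
    refine setLIntegral_congr_fun hK ?_
    rintro _ ⟨v, hv, rfl⟩
    simp only [(hg v hv).2, add_sub_cancel_left]

/-- Vitali selection in the form used twice -/
theorem vitali (E : Set ℝ) (r : ℝ → ℝ) (hr : ∀ u ∈ E, 0 < r u ∧ r u ≤ 100) :
    ∃ U ⊆ E, U.Countable ∧ (U.PairwiseDisjoint fun a => closedBall a (r a)) ∧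
      E ⊆ ⋃ a ∈ U, closedBall a (5 * r a) := by
  obtain ⟨U, hU, hd, hc⟩ := Vitali.exists_disjoint_subfamily_covering_enlargement_closedBall E
    (fun a => a) r 100 (fun a ha => (hr a ha).2) 5 (by norm_num)
  refine ⟨U, hU, hd.countable_of_nonempty_interior fun a ha => ?_, hd, fun a ha => ?_⟩
  · exact ⟨a, interior_mono ball_subset_closedBall
      (by rw [isOpen_ball.interior_eq]; exact mem_ball_self (hr a (hU ha)).1)⟩
  · obtain ⟨b, hb, h⟩ := hc a ha
    exact mem_biUnion hb (h (mem_closedBall_self (hr a ha).1.le))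

/-- upper Vitali sum -/
theorem vit_upper (E W D : Set ℝ) (r : ℝ → ℝ) (f : ℝ → ℝ≥0∞) (B : ℝ≥0∞) (hED : E ⊆ D)
    (hr : ∀ u ∈ E, 0 < r u ∧ r u ≤ 100) (hW : ∀ u ∈ E, closedBall u (r u) ⊆ W)
    (hf : ∀ u ∈ E, ∫⁻ x in closedBall u (5 * r u) ∩ D, f x ≤ B * ENNReal.ofReal (2 * r u)) :
    ∫⁻ x in E, f x ≤ B * volume W := by
  obtain ⟨U, hU, hc, hd, hcov⟩ := vitali E r hr
  have := hc.to_subtype
  obtain h1 : E ⊆ ⋃ a : U, closedBall (a : ℝ) (5 * r a) ∩ D := by
    intro x hx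
    obtain ⟨a, ha, h⟩ := mem_iUnion₂.1 (hcov hx)
    exact mem_iUnion.2 ⟨⟨a, ha⟩, h, hED hx⟩
  calc ∫⁻ x in E, f x ≤ ∫⁻ x in ⋃ a : U, closedBall (a : ℝ) (5 * r a) ∩ D, f x := lintegral_mono_set h1
    _ ≤ ∑' a : U, ∫⁻ x in closedBall (a : ℝ) (5 * r a) ∩ D, f x := lintegral_iUnion_le _ _
    _ ≤ ∑' a : U, B * volume (closedBall (a : ℝ) (r a)) := ENNReal.tsum_le_tsum fun a => by
        rw [Real.volume_closedBall]; exact hf a (hU a.2)
    _ = B * volume (⋃ a ∈ U, closedBall a (r a)) := by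
        rw [ENNReal.tsum_mul_left, measure_biUnion hc hd fun _ _ => measurableSet_closedBall]
    _ ≤ B * volume W := by
        gcongr
        exact iUnion₂_subset fun a ha => hW a (hU ha)

/-- lower Vitali sum -/
theorem vit_lower (E I : Set ℝ) (r : ℝ → ℝ) (f : ℝ → ℝ≥0∞) (B : ℝ≥0∞)
    (hr : ∀ u ∈ E, 0 < r u ∧ r u ≤ 100) (hI : ∀ u ∈ E, closedBall u (r u) ⊆ I)
    (hf : ∀ u ∈ E, B * ENNReal.ofReal (10 * r u) ≤ ∫⁻ x in closedBall u (r u), f x) :
    B * volume E ≤ ∫⁻ x in I, f x := by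
  obtain ⟨U, hU, hc, hd, hcov⟩ := vitali E r hr
  have := hc.to_subtype
  calc B * volume E ≤ B * volume (⋃ a ∈ U, closedBall a (5 * r a)) := by (clear * - hcov; gcongr)
    _ ≤ B * ∑' a : U, volume (closedBall (a : ℝ) (5 * r a)) := by
        gcongr
        exact measure_biUnion_le volume hc _
    _ = ∑' a : U, B * volume (closedBall (a : ℝ) (5 * r a)) := ENNReal.tsum_mul_left.symm
    _ ≤ ∑' a : U, ∫⁻ x in closedBall (a : ℝ) (r a), f x := ENNReal.tsum_le_tsum fun a => by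
        rw [Real.volume_closedBall, show 2 * (5 * r a) = 10 * r a by ring]; exact hf a (hU a.2)
    _ = ∫⁻ x in ⋃ a ∈ U, closedBall a (r a), f x :=
        (lintegral_biUnion hc (fun _ _ => measurableSet_closedBall) hd f).symm
    _ ≤ ∫⁻ x in I, f x := lintegral_mono_set (iUnion₂_subset fun a ha => hI a (hU ha))

theorem ofReal_int {F : ℝ → ℝ} {a b : ℝ} (hab : a ≤ b) (hF : ContinuousOn F (Icc a b))
    (h0 : ∀ u, 0 ≤ F u) :
    ENNReal.ofReal (∫ u in a..b, F u) = ∫⁻ u in Icc a b, ENNReal.ofReal (F u) := by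
  rw [intervalIntegral.integral_of_le hab, ← integral_Icc_eq_integral_Ioc,
    ofReal_integral_eq_lintegral_ofReal (hF.integrableOn_Icc) (Filter.Eventually.of_forall h0)]

end Pool.Agent.MP_9cbfe4_an.T4

end

/-! ### Part FGEO -/

section

/-! Geometric sums of measures over the levels (helper9), shared by the rows FS, F3, F5. -/

namespace Pool.Agent.MP_9cbfe4_an.FGEO

open MeasureTheory

/-- a set covered by pieces `A n`, `n ≥ y0`, of measure `≤ B * exp (-q n)` -/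
theorem geo (S : Set ℝ) (A : ℕ → Set ℝ) {q y0 B : ℝ} (hq : 0 < q) (hB : 0 ≤ B)
    (hS : ∀ t ∈ S, ∃ n : ℕ, y0 ≤ n ∧ t ∈ A n)
    (h : ∀ n : ℕ, y0 ≤ n → volume (A n) ≤ ENNReal.ofReal (B * Real.exp (-(q * n)))) :
    volume S ≤ ENNReal.ofReal (B * Real.exp (-(q * y0)) * (1 + 1 / q)) := by
  set n0 := ⌈y0⌉₊ with hn0
  have h0 : y0 ≤ n0 := Nat.le_ceil _
  obtain sub : S ⊆ ⋃ m : ℕ, A (n0 + m) := by
    intro t ht
    obtain ⟨n, hn, hA⟩ := hS t ht
    obtain ⟨m, rfl⟩ := Nat.exists_eq_add_of_le (Nat.ceil_le.2 hn)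
    exact Set.mem_iUnion.2 ⟨m, hA⟩
  have r0 := Real.exp_pos (-q)
  obtain r2 : Real.exp (-q) * (1 + q) ≤ 1 := by
    have a := mul_le_mul_of_nonneg_left (Real.add_one_le_exp q) r0.le
    rw [← Real.exp_add, neg_add_cancel, Real.exp_zero] at a
    linarith only [a]
  obtain r1 : Real.exp (-q) < 1 := by nlinarith only [r2, hq, r0]
  have C0 : 0 ≤ B * Real.exp (-(q * y0)) := mul_nonneg hB (Real.exp_pos _).le
  calc volume S ≤ ∑' m : ℕ, volume (A (n0 + m)) := (measure_mono sub).trans (measure_iUnion_le _)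
    _ ≤ ∑' m : ℕ, ENNReal.ofReal (B * Real.exp (-(q * y0)) * Real.exp (-q) ^ m) := by
        refine ENNReal.tsum_le_tsum fun m => (h _ ?_).trans (ENNReal.ofReal_le_ofReal ?_)
        · push_cast; linarith only [h0, (Nat.cast_nonneg m : (0 : ℝ) ≤ m)]
        · rw [mul_assoc, ← Real.exp_nat_mul, ← Real.exp_add]
          refine mul_le_mul_of_nonneg_left (Real.exp_le_exp.2 ?_) hB
          push_cast; nlinarith only [hq, h0]
    _ = ENNReal.ofReal (B * Real.exp (-(q * y0)) * (1 - Real.exp (-q))⁻¹) := by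
        rw [← ENNReal.ofReal_tsum_of_nonneg (fun m => by positivity)
          ((summable_geometric_of_lt_one r0.le r1).mul_left _), tsum_mul_left,
          tsum_geometric_of_lt_one r0.le r1]
    _ ≤ _ := by
        refine ENNReal.ofReal_le_ofReal (mul_le_mul_of_nonneg_left ?_ C0)
        rw [inv_eq_one_div, div_le_iff₀ (by linarith only [r1]), add_mul, one_mul, div_mul_eq_mul_div,
          ← sub_le_iff_le_add', le_div_iff₀ hq]
        linarith only [r2]

/-- the form used in section F: total `≤ 1/30` as soon as `exp (q y0) ≥ 30 (1 + 1/q)` -/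
theorem geo30 (S : Set ℝ) (A : ℕ → Set ℝ) {q y0 : ℝ} (hq : 0 < q)
    (hy : 30 * (1 + 1 / q) ≤ Real.exp (q * y0)) (hS : ∀ t ∈ S, ∃ n : ℕ, y0 ≤ n ∧ t ∈ A n)
    (h : ∀ n : ℕ, y0 ≤ n → volume (A n) ≤ ENNReal.ofReal (Real.exp (-(q * n)))) :
    volume S ≤ 1 / 30 := by
  refine (geo S A hq zero_le_one hS fun n hn => by simpa using h n hn).trans ?_
  obtain e : (1 / 30 : ENNReal) = ENNReal.ofReal (1 / 30) := by
    rw [ENNReal.ofReal_div_of_pos (by norm_num)]; simp
  rw [e]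
  refine ENNReal.ofReal_le_ofReal ?_
  rw [one_mul, Real.exp_neg, inv_mul_le_iff₀ (Real.exp_pos _)]
  linarith only [hy]

/-- the floor of a nonnegative number is a natural number -/
theorem floor_nat {x : ℝ} (hx : 0 ≤ x) : ∃ n : ℕ, ((⌊x⌋ : ℤ) : ℝ) = n ∧ x - 1 ≤ n ∧ (n : ℝ) ≤ x :=
  ⟨⌊x⌋₊, by rw [← Int.natCast_floor_eq_floor hx]; simp, (Nat.sub_one_lt_floor x).le, Nat.floor_le hx⟩

end Pool.Agent.MP_9cbfe4_an.FGEO

end
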