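import Pool.Agent.MP_9cbfe4_an.Stmt

set_option linter.all false

attribute [-instance] AddQuantale.instAddLeftMono IdemSemiring.toCanonicallyOrderedAdd
  NumberField.to_charZero AddQuantale.instAddRightMono IdemSemiring.toMulLeftMono RKHS.instFunLike
  Quantale.instMulRightMono Quantale.instMulLeftMono IsOrderedCancelMonoid.toIsOrderedMonoid
  LinearOrderedCommMonoidWithZero.toPosMulStrictMono
  Group.IsPerfect.subsingleton_of_isMulCommutative CanonicallyOrderedAdd.toMulLeftMono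
  Valued.toUniformSpace IdemSemiring.toMulRightMono TotallySeparatedSpace.t2Space
  LinearOrderedCommMonoidWithZero.toIsOrderedMonoid IsScalarTower.complexToReal
  Order.Coframe.toCompleteLattice OmegaCompletePartialOrder.toPartialOrder Invertible.toNeZero
  GrpTypeEquivalenceGrp.grpGroup littleWedderburn CanonicallyOrderedMul.toMulLeftMono
  CoalgHomClass.toSemilinearMapClass TestFunctionClass.toDFunLike
  ContDiffMapSupportedInClass.toDFunLike Order.Frame.toCompleteLattice RightPreLieAlgebra.toModule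
  CategoryTheory.Limits.Concrete.instUniqueToTypeTerminal LeftPreLieAlgebra.toModule
  CStarAlgebra.instOrderClosedTopology IdemSemiring.toSemiring
  LieAdmissibleRing.toNonUnitalNonAssocRing NonUnitalAlgSemiHomClass.toDistribMulActionSemiHomClass
  CStarAlgebra.toNormedRing

/-! ### Part Def -/

section

/-! Definitions for MP_9cbfe4_an (paper /team-store/h42s_paper.md). -/

namespace Pool.Agent.MP_9cbfe4_an

open Finset Filter Topology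

noncomputable section

/-- All constants.  Order of choice: `k0 θb κ CG` then `C0 C1 e3 ε a d1 M1 β L`. -/
structure Cs where
  k0 : ℝ
  θb : ℝ
  κ : ℝ
  CG : ℝ
  C0 : ℝ
  C1 : ℝ
  e3 : ℝ
  ε : ℝ
  a : ℝ
  d1 : ℝ
  M1 : ℝ
  β : ℝ
  L : ℝ

/-- `P` holds when the constants are chosen in the right order (`ε = e3 ^ 20`). -/
def Hier (P : Cs → Prop) : Prop :=
  ∀ k0 θb κ CG : ℝ, 1 / 16 ≤ k0 → k0 < 1 / 2 → 0 < θb → θb < 1 → 0 < κ → 1 ≤ CG →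
    ∀ᶠ C0 in atTop, ∀ᶠ C1 in atTop, ∀ᶠ e3 in 𝓝[>] (0 : ℝ), ∀ᶠ ε in pure (e3 ^ 20),
    ∀ᶠ a in 𝓝[>] (0 : ℝ), ∀ᶠ d1 in 𝓝[>] (0 : ℝ), ∀ᶠ M1 in atTop, ∀ᶠ β in atTop, ∀ᶠ L in atTop,
      P ⟨k0, θb, κ, CG, C0, C1, e3, ε, a, d1, M1, β, L⟩

namespace Cs
variable (c : Cs)
def lam : ℝ := Real.log c.L
def ε' : ℝ := c.e3 ^ 4
def e0 : ℝ := 1 / 2 - c.k0
def chK : ℝ := Real.log (1 / c.k0)
def bl : ℝ := c.β * c.lam
def Q : ℝ := c.a * c.bl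
def cc : ℝ := c.ε * c.lam / 20
def c1 : ℝ := c.ε * c.lam / 2
def cw : ℝ := 1 / c.lam ^ 4
def cb : ℝ := 1 / c.lam ^ 3
def w0 : ℝ := 1 / c.lam ^ 7
def dl : ℝ := Real.exp (-2 * c.bl)
def C4 : ℝ := 2 * c.C1
def C6 : ℝ := 10 * c.C0 * c.C1
def Γ : ℝ := (c.C6 + 3) * c.C4 / c.ε'
def CN : ℝ := 1 / c.e3 ^ 2
def del : ℝ := 3 * c.d1 * (1 + 6 * c.C0 * c.C1)
def KS : ℝ := 10 ^ 6 * c.CG
end Cs

/-- distance to `{π/2, -π/2}` -/
def dP (x : ℝ) : ℝ := min |x - Real.pi / 2| |x + Real.pi / 2|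
/-- `1` on `dP ≤ 2/100`, `0` on `dP ≥ 4/100` -/
def vt (x : ℝ) : ℝ := max 0 (min 1 (2 - 50 * dP x))
def Core (c : Cs) (x : ℝ) : Prop := dP x ≤ (1 - c.e0 / 2) * c.w0

/-- a sequence of positions with the coefficients of the linearised recursion -/
structure Sq where
  X : ℤ → ℝ
  a : ℤ → ℝ
  b : ℤ → ℝ

namespace Sq
variable (c : Cs) (S : Sq)

def kk (j : ℤ) : ℝ := vt (S.X j) * vt (S.X (j - 1))
def ch1 (j : ℤ) : ℝ := S.kk j * c.chK + (1 - S.kk j) * c.bl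
def chi (i j : ℤ) : ℝ := ∑ l ∈ Ioc i j, S.ch1 c l
def NK (i j : ℤ) : ℝ := ∑ l ∈ Ioc i j, S.kk l
def Pb (i j : ℤ) : ℝ := ∏ l ∈ Ioc i j, S.b l
/-- bound for `b l`, monotone in `θ`, valid for `θ ≥ 1/100`; `θ = 2/100` matches `kk l = 1` -/
def bb (θ : ℝ) (l : ℤ) : ℝ :=
  if dP (S.X l) ≤ θ ∧ dP (S.X (l - 1)) ≤ θ then c.k0 * c.L + 1 else Real.exp (-c.bl)
def PB (θ : ℝ) (i j : ℤ) : ℝ := ∏ l ∈ Ioc i j, S.bb c θ l

/-- `(u_{i+n-1}, u_{i+n})` for the solution with `u_{i-1} = 0`, `u_i = 1` -/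
def frP (i : ℤ) : ℕ → ℝ × ℝ
  | 0 => (0, 1)
  | n + 1 => ((frP i n).2, S.a (i + n) * (frP i n).2 + S.b (i + n) * (frP i n).1)
/-- the continuant `ξ^{(i)}_j` (zero for `j < i`) -/
def fr (i j : ℤ) : ℝ := if i ≤ j then (S.frP i (j - i).toNat).2 else 0
/-- `ξ` solves the recursion at all `j ≥ s` -/
def Sol (ξ : ℤ → ℝ) (s : ℤ) : Prop := ∀ j, s ≤ j → ξ (j + 1) = S.a j * ξ j + S.b j * ξ (j - 1)

/-- intrinsic majorant `ŵ_j` of a solution started at `s` -/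
def wh (ξ : ℤ → ℝ) (s j : ℤ) : ℝ :=
  (Icc (s - 1) j).fold max 0 fun i => |ξ i| * Real.exp (-S.chi c i j / 2)
/-- `D_j` for a majorant `w` -/
def DD (w : ℤ → ℝ) (s j : ℤ) : ℝ := ∑ i ∈ Ico s j, |S.fr (i + 1) j| * c.L * w i ^ 2
def AA (ξ : ℤ → ℝ) (s j : ℤ) : ℝ :=
  (Ioc s j).fold max 1 fun l => S.DD c (S.wh c ξ s) s l / S.wh c ξ s l
/-- `Bc_i(j)` for a majorant `w` -/
def Bc (w : ℤ → ℝ) (i j : ℤ) : ℝ := |S.fr (i + 1) j| * c.L * w i / w j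
def WW (ξ : ℤ → ℝ) (s j : ℤ) : ℝ := Real.log (S.AA c ξ s j)
def sig (ξ : ℤ → ℝ) (s j : ℤ) : ℝ := S.WW c ξ s j - Real.log |ξ j|
def sg (ξ : ℤ → ℝ) (s j : ℤ) : ℝ := max (S.sig c ξ s j) 0
/-- `log max (A, w e^r)` -/
def Wt (ξ : ℤ → ℝ) (s j : ℤ) (r : ℝ) : ℝ := max (S.WW c ξ s j) (Real.log |ξ j| + r)
def rho (ξ : ℤ → ℝ) (n J : ℤ) : ℝ := ξ J / (ξ n * S.fr (n + 1) J)
def dep (ξ : ℤ → ℝ) (n J : ℤ) : ℝ := Real.log (c.L / |S.rho ξ n J|)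

/-- queue with drain rate `Q`, started empty at `i`, read at `j` -/
def qu (Q : ℝ) (i j : ℤ) : ℝ :=
  (Icc i j).fold max 0 fun m => ∑ l ∈ Ioc m j, (S.kk l - Q * (1 - S.kk l))
/-- least `N` with `y ≤ χ(n-N, n)` -/
def Nw (n : ℤ) (y : ℝ) : ℕ := sInf {N : ℕ | y ≤ S.chi c (n - N) n}
def load (n : ℤ) (V : ℝ) : ℝ := S.qu c.Q (n - S.Nw c n (c.C0 * V)) n

open Classical in
/-- size of the event at a free time `m` of a run of `ξ` started at `s`, for depth `r` -/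
def ev (ξ : ℤ → ℝ) (s m : ℤ) (r : ℝ) : ℝ :=
  if S.sg c ξ s m / c.e3 + c.cc ≤ r then r
  else if -1 ≤ r ∧ dP (S.X m) < 5 / 100 ∧ S.sig c ξ s m ≤ -(1 - 5 * c.e3) * c.lam then c.lam else 0
def evs (ξ : ℤ → ℝ) (s : ℤ) (Ls : List (ℤ × ℝ)) : ℝ := (Ls.map fun x => S.ev c ξ s x.1 x.2).sum

def Bd (ξ : ℤ → ℝ) (n p : ℤ) (r : ℝ) : Prop :=
  S.rho ξ n p ^ 2 * Real.exp (S.Wt c (S.fr (n + 1)) (n + 1) p r) ≤ c.cb * c.L
def xx (n : ℤ) (V : ℝ) : ℝ := c.C1 * S.load c n V + c.ε * V + c.cc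
end Sq

/-- extra conditions (THM-3/2: `Cstar`; THM-2: helper70's) -/
abbrev ExT := Sq → (ℤ → ℝ) → ℤ → List (ℤ × ℝ) → ℤ → ℝ → Prop

namespace Sq
variable (c : Cs) (Ex : ExT) (S : Sq)

structure Cond (ξ : ℤ → ℝ) (n : ℤ) (Ls : List (ℤ × ℝ)) (p : ℤ) (r : ℝ) : Prop where
  c1 : r ≤ c.κ * S.Wt c (S.fr (n + 1)) (n + 1) p 0 + c.c1
  c2 : c.M1 * S.Wt c (S.fr (n + 1)) (n + 1) p r ≤ S.chi c n p
  c3 : S.evs c (S.fr (n + 1)) (n + 1) Ls + S.ev c (S.fr (n + 1)) (n + 1) p r ≤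
    S.xx c n (S.Wt c (S.fr (n + 1)) (n + 1) p r)
  ex : Ex S ξ n Ls p r

def PBd (ξ : ℤ → ℝ) (n : ℤ) (Ls : List (ℤ × ℝ)) (p : ℤ) (r : ℝ) : Prop :=
  S.Bd c ξ n p r ∧ S.Cond c Ex ξ n Ls p r

/-- `Run ξ s P Ls m`: `m` is a free time, `Ls` the steps made so far (latest first) -/
inductive Run : (ℤ → ℝ) → ℤ → (List (ℤ × ℝ) → ℤ → ℝ → Prop) → List (ℤ × ℝ) → ℤ → Prop
  | start (ξ s P) : Run ξ s P [] s
  | shallow {ξ s P Ls n} : Run ξ s P Ls n → c.cb * c.L ≤ S.rho ξ n (n + 1) ^ 2 →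
      P Ls n (S.dep c ξ n (n + 1)) → Run ξ s P ((n, S.dep c ξ n (n + 1)) :: Ls) (n + 1)
  | block {ξ s P Ls n Ls' p r'} : Run ξ s P Ls n →
      Run (S.fr (n + 1)) (n + 1) (S.PBd c Ex ξ n) Ls' p → S.PBd c Ex ξ n Ls' p r' →
      c.cw * c.L ≤ S.rho ξ n p ^ 2 * Real.exp (S.Wt c (S.fr (n + 1)) (n + 1) p r') →
      P Ls n (S.dep c ξ n p) → Run ξ s P ((n, S.dep c ξ n p) :: Ls) p

/-- the partner run of the fold `(ξ, n)` is bound up to `J` -/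
def BRun (ξ : ℤ → ℝ) (n : ℤ) (Ls : List (ℤ × ℝ)) (J : ℤ) (r : ℝ) : Prop :=
  S.Run c Ex (S.fr (n + 1)) (n + 1) (S.PBd c Ex ξ n) Ls J ∧ S.PBd c Ex ξ n Ls J r

def Wit (ξ : ℤ → ℝ) (n : ℤ) (r : ℝ) : Prop :=
  r ≤ 0 ∨ (|S.rho ξ n (n + 1)| ≤ c.L * Real.exp (-r) ∧ r ≤ c.bl / 3) ∨
    ∃ Ls J rJ, S.BRun c Ex ξ n Ls J rJ ∧ |S.rho ξ n J| ≤ c.L * Real.exp (-r) ∧ 3 * r ≤ S.chi c n J

/-- critical: bound runs of every level -/
def Crit (ξ : ℤ → ℝ) (n : ℤ) : Prop :=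
  ∀ V, ∃ Ls J rJ, S.BRun c Ex ξ n Ls J rJ ∧ V ≤ S.Wt c (S.fr (n + 1)) (n + 1) J rJ

/-- abstract shadowing certificate on `[s, n]` (with `w` also used at `s - 1`) -/
structure Cert (θ : ℝ) (w A : ℤ → ℝ) (s n : ℤ) : Prop where
  pos : 0 ≤ w (s - 1)
  pos' : ∀ j, s ≤ j → j ≤ n → 0 < w j
  backK : ∀ j, s < j → j < n → dP (S.X j) ≤ θ → dP (S.X (j - 1)) ≤ θ → w (j - 1) ≤ 16 * w j
  back : ∀ j, s < j → j ≤ n → w (j - 1) ≤ 4 * Real.exp (c.bl / 2) * w j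
  fwd : ∀ j, s ≤ j → j < n → w (j + 1) ≤ 100 * c.L * w j
  mono : ∀ i j, s ≤ i → i ≤ j → j ≤ n → A i ≤ A j
  Apos : 0 < A s
  dd : ∀ j, s ≤ j → j ≤ n → S.DD c w s j ≤ A j * w j

/-- `ξ` solves the recursion on `[s, n]` and is majorised by `η w` -/
def Maj (ξ : ℤ → ℝ) (η : ℝ) (w : ℤ → ℝ) (s n : ℤ) : Prop :=
  (∀ j, s ≤ j → j < n → ξ (j + 1) = S.a j * ξ j + S.b j * ξ (j - 1)) ∧
  ∀ j, s - 1 ≤ j → j ≤ n → |ξ j| ≤ η * w j

/-- decay bounds towards the end time `n` -/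
def Dec (θ K : ℝ) (w : ℤ → ℝ) (s n : ℤ) : Prop :=
  ∀ i, s ≤ i → i < n →
    S.PB c θ i n * w i ≤ K * Real.exp (-(1 - 4 * c.a) * S.chi c i n) * w n ∧
    w i ≤ K * Real.exp (4 * c.a * S.chi c i n) * w n

open Classical in
/-- tame window of contraction `y` before time `n` (histories are truncated at time `0`) -/
def Tame (ξ : ℤ → ℝ) (n : ℤ) (y : ℝ) : Prop :=
  ξ n ≠ 0 ∧ |ξ (n - 1)| ≤ Real.exp (-c.lam / 5) * |ξ n| ∧
  (y ≤ c.bl / 4 ∨ ∃ (s : ℤ) (w A : ℤ → ℝ) (Rg : Finset ℤ), 0 ≤ s ∧ s ≤ n ∧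
    S.chi c (s + 1) n < y ∧ (y ≤ S.chi c s n ∨ (s = 0 ∧ ξ (-1) = 0)) ∧
    S.Cert c (15 / 1000) w A s n ∧ S.Maj ξ 1 w s n ∧ 0 < w (s - 1) ∧ w n ≤ 4 * |ξ n| ∧
    (∀ i j, s - 1 ≤ i → i < j → j ≤ n →
      w i ≤ Real.exp (3 * c.a * (S.chi c i n + 2 * c.bl)) * w j ∧
      S.PB c (15 / 1000) i j * w i ≤
        Real.exp (3 * c.a * (S.chi c i n + 2 * c.bl) - (1 - 3 * c.a) * S.chi c i j) * w j ∧
      S.Bc c w i j ≤ Real.exp (3 * c.a * (S.chi c i n + 2 * c.bl))) ∧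
    (∀ i, s ≤ i → i < n →
      S.PB c (15 / 1000) i n * w i ≤ 100 * Real.exp (-(1 - 3 * c.a) * S.chi c i n) * w n ∧
      w i ≤ 100 * Real.exp (3 * c.a * S.chi c i n) * w n ∧
      S.Bc c w i n ≤ c.lam * Real.exp (3 * c.a * S.chi c i n)) ∧
    Rg ⊆ Ico s n ∧
    (∀ i ∈ Rg, dP (S.X i) ≤ 2 * c.w0 ∧ w i ≤ 4 * |ξ i| ∧ A (i + 1) ≤ c.lam * w i) ∧
    (((Ico s n).filter fun i => i ∉ Rg ∧ (i - 1 ∈ Rg ∨ i = s)).card : ℝ) ≤ 4 * (y / c.bl + 3) ∧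
    Real.log (A s / w s) + ∑ i ∈ Ico s n \ Rg, Real.log (A (i + 1) / A i) ≤
      20 * c.a * (y + 2 * c.bl) ∧ w s ≤ A s)

end Sq

/-- time shift: `(S.shift k).X j = S.X (j + k)` -/
def Sq.shift (S : Sq) (k : ℤ) : Sq := ⟨fun j => S.X (j + k), fun j => S.a (j + k), fun j => S.b (j + k)⟩

/-- `(C*)` of THM-3/2 -/
def Cstar (c : Cs) : ExT := fun S _ n Ls p r =>
  S.evs c (S.fr (n + 1)) (n + 1) Ls + S.ev c (S.fr (n + 1)) (n + 1) p r ≤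
    c.θb * S.Wt c (S.fr (n + 1)) (n + 1) p r + c.cc

end
end Pool.Agent.MP_9cbfe4_an

end

/-! ### Part Mod -/

section

/-! The model in normal form, orbits, hypothesis `H`, invariants of runs. -/

namespace Pool.Agent.MP_9cbfe4_an

open Finset Filter Topology

noncomputable section

/-- `X_{n+1} = G t X_n X_{n-1}` with its partial derivatives -/
structure Mdl where
  G : ℝ → ℝ → ℝ → ℝ
  Ga : ℝ → ℝ → ℝ → ℝ
  Gb : ℝ → ℝ → ℝ → ℝ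
  Gt : ℝ → ℝ → ℝ → ℝ

def Box (c : Cs) (x : ℝ) : Prop := |x| ≤ 2 * c.L
def TI (t : ℝ) : Prop := 0 ≤ t ∧ t ≤ 1

/-- two points of the plane compared with `y`-nonlinearity constant `m` -/
def Pair (c : Cs) (x y x' y' m : ℝ) : Prop :=
  |x' - x| ≤ 1 / 100 ∧
    ((m = c.dl ∧ (1 / 100 + |x' - x| ≤ dP x ∨ 1 / 100 + |y' - y| ≤ dP y)) ∨
     (m = c.CG * c.L ∧ dP y ≤ c.w0 ∧ dP y' ≤ c.w0 ∧ |y' - y| ≤ 1 / 100))

structure Mdl.OK (c : Cs) (M : Mdl) : Prop where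
  box : ∀ t x y, TI t → Box c x → Box c y → Box c (M.G t x y)
  der : ∀ t x y, TI t → Box c x → Box c y →
    HasFDerivAt (fun p : ℝ × ℝ => M.G t p.1 p.2)
      (M.Ga t x y • ContinuousLinearMap.fst ℝ ℝ ℝ + M.Gb t x y • ContinuousLinearMap.snd ℝ ℝ ℝ) (x, y)
  conta : ∀ t, TI t → ContinuousOn (fun p : ℝ × ℝ => M.Ga t p.1 p.2) {p | Box c p.1 ∧ Box c p.2}
  contb : ∀ t, TI t → ContinuousOn (fun p : ℝ × ℝ => M.Gb t p.1 p.2) {p | Box c p.1 ∧ Box c p.2}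
  val : ∀ t x y, TI t → Box c x → Box c y →
    |M.G t x y - c.L * Real.cos x - t| ≤ (1 - c.e0) * c.w0 * c.L + 1
  valN : ∀ t x y, TI t → Box c x → Box c y → 1 / 100 ≤ dP x →
    |M.G t x y - c.L * Real.cos x - t| ≤ Real.exp (-c.bl / 2)
  sep : ∀ t x y y', TI t → dP x ≤ c.w0 → Core c y → Core c y' → y < 0 → 0 < y' →
    c.e0 * c.w0 * c.L / 100 ≤ |M.G t x y' - M.G t x y|
  b_lo : ∀ t x y, TI t → Box c x → Box c y → Real.exp (-c.bl) / 4 ≤ M.Gb t x y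
  b_hi : ∀ t x y, TI t → Box c x → Box c y → M.Gb t x y ≤ c.k0 * c.L + 1
  b_N : ∀ t x y, TI t → Box c x → Box c y → (1 / 100 ≤ dP x ∨ 1 / 100 ≤ dP y) →
    M.Gb t x y ≤ Real.exp (-c.bl)
  b_K : ∀ t x y, TI t → dP x ≤ c.w0 → dP y ≤ c.w0 → |M.Gb t x y - c.k0 * c.L| ≤ 1
  a_all : ∀ t x y, TI t → Box c x → Box c y → |M.Ga t x y + c.L * Real.sin x| ≤ c.L / c.lam ^ 5
  a_N : ∀ t x y, TI t → Box c x → Box c y → 1 / 100 ≤ dP x →
    |M.Ga t x y + c.L * Real.sin x| ≤ c.dl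
  t_all : ∀ t x y, TI t → Box c x → Box c y → |M.Gt t x y - 1| ≤ c.dl
  tay : ∀ t t' x y x' y' m, TI t → TI t' → Box c x → Box c y → Box c x' → Box c y' →
    Pair c x y x' y' m →
    |M.G t' x' y' - M.G t x y - M.Ga t x y * (x' - x) - M.Gb t x y * (y' - y) - M.Gt t x y * (t' - t)|
      ≤ c.CG * c.L * (x' - x) ^ 2 + m * (|x' - x| * |y' - y| + (y' - y) ^ 2)
        + c.dl * ((t' - t) ^ 2 + |t' - t| * (|x' - x| + |y' - y|)) ∧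
    |M.Ga t' x' y' - M.Ga t x y| ≤ c.CG * c.L * |x' - x| + m * |y' - y| + c.dl * |t' - t| ∧
    |M.Gb t' x' y' - M.Gb t x y| ≤ m * (|x' - x| + |y' - y|) + c.dl * |t' - t|
  tayF : ∀ t t' x y x' y', TI t → TI t' → Box c x → Box c y → Box c x' → Box c y' →
    1 / 100 + |x' - x| ≤ dP x →
    |M.Ga t' x' y' - M.Ga t x y + c.L * (Real.sin x' - Real.sin x)|
      ≤ c.dl * (|x' - x| + |y' - y| + |t' - t|)

/-- `S` is an orbit of `G t` from time `s` on -/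
structure IsOrb (c : Cs) (M : Mdl) (t : ℝ) (S : Sq) (s : ℤ) : Prop where
  box : ∀ j, s - 1 ≤ j → Box c (S.X j)
  step : ∀ j, s ≤ j → S.X (j + 1) = M.G t (S.X j) (S.X (j - 1))
  ha : ∀ j, s ≤ j → S.a j = M.Ga t (S.X j) (S.X (j - 1))
  hb : ∀ j, s ≤ j → S.b j = M.Gb t (S.X j) (S.X (j - 1))
  core : dP (S.X s) < 4 / 100 → dP (S.X (s - 1)) < 4 / 100 → Core c (S.X (s - 1))

def Mdl.f (M : Mdl) (t : ℝ) (p : ℝ × ℝ) : ℝ × ℝ := (M.G t p.1 p.2, p.1)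
/-- positions of the orbit through `(X_s, X_{s-1}) = p`; equal to `p.2` before `s` -/
def Mdl.pos (M : Mdl) (t : ℝ) (s : ℤ) (p : ℝ × ℝ) (j : ℤ) : ℝ :=
  if s ≤ j then ((M.f t)^[(j - s).toNat] p).1 else p.2
def Mdl.orb (M : Mdl) (t : ℝ) (s : ℤ) (p : ℝ × ℝ) : Sq where
  X := M.pos t s p
  a j := M.Ga t (M.pos t s p j) (M.pos t s p (j - 1))
  b j := M.Gb t (M.pos t s p j) (M.pos t s p (j - 1))
/-- the orbit of the point `(v, 10)` of the base segment, started at time `0` -/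
def Mdl.O (M : Mdl) (t v : ℝ) : Sq := M.orb t 0 (v, 10)

/-- what the combinatorial part needs from an orbit -/
structure Sq.OK (c : Cs) (S : Sq) : Prop where
  a_hi : ∀ j, 0 ≤ j → |S.a j| ≤ (1 + 1 / c.lam) * c.L
  b_lo : ∀ j, 0 ≤ j → Real.exp (-c.bl) / 4 ≤ S.b j
  b_hi : ∀ j θ, 0 ≤ j → 1 / 100 ≤ θ → S.b j ≤ S.bb c θ j
  a_Z : ∀ j, 0 ≤ j → dP (S.X j) < 5 / 100 → 9 / 10 * c.L ≤ |S.a j|
  core : ∀ j, 0 ≤ j → dP (S.X (j + 1)) < 5 / 100 → dP (S.X j) < 5 / 100 →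
    Core c (S.X j) ∧ (1 - 1 / c.lam) * c.L ≤ |S.a j|
  far : ∀ j, 0 ≤ j → |S.a j| ≤ c.L / 2 → 1 ≤ dP (S.X (j + 1))
  past : ∀ j, j < 0 → S.X j = 10

/-- hypothesis `H_t` -/
def HH (c : Cs) (Ex : ExT) (M : Mdl) (t : ℝ) : Prop :=
  ∀ v ∈ Set.Icc (0 : ℝ) 100, ∀ (ξ : ℤ → ℝ) (n p : ℤ) (Ls : List (ℤ × ℝ)) (r : ℝ), 0 ≤ n →
    (M.O t v).Sol ξ n →
    (∀ y ≤ c.C0 * (M.O t v).Wt c ((M.O t v).fr (n + 1)) (n + 1) p r, (M.O t v).Tame c ξ n y) →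
    (M.O t v).Run c Ex ((M.O t v).fr (n + 1)) (n + 1) ((M.O t v).PBd c Ex ξ n) Ls p →
    (M.O t v).Bd c ξ n p r → (M.O t v).Wit c Ex ((M.O t v).fr (n + 1)) p r →
    (M.O t v).Cond c Ex ξ n Ls p r

namespace Sq
variable (c : Cs) (Ex : ExT) (S : Sq)

def ff (s i : ℤ) : ℝ := 2 - Real.exp (-S.chi c s i / 24)
/-- admissible start of a run -/
def St (ξ : ℤ → ℝ) (s : ℤ) : Prop :=
  0 ≤ s ∧ S.Sol ξ s ∧ ξ s = 1 ∧ |ξ (s - 1)| ≤ Real.exp (-c.lam / 5)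
/-- admissible outer direction at a fold time -/
def Out (ξ : ℤ → ℝ) (n : ℤ) : Prop :=
  0 ≤ n ∧ S.Sol ξ n ∧ ξ n ≠ 0 ∧ |ξ (n - 1)| ≤ Real.exp (-c.lam / 5) * |ξ n|

/-- (I1)-(I3) at a free time `m` -/
structure RInv (ξ : ℤ → ℝ) (s m : ℤ) : Prop where
  le : s ≤ m
  ne : ξ m ≠ 0
  whm : S.wh c ξ s m = |ξ m|
  i1 : s < m → S.wh c ξ s (m - 1) ≤
    Real.exp (-c.lam / 3) * (2 - Real.exp (-S.chi c s m / 10)) * |ξ m|
  i2 : ∀ i, s ≤ i → i < m →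
    S.PB c (2 / 100) i m * S.wh c ξ s i ≤ S.ff c s i * Real.exp (-(1 - c.a) * S.chi c i m) * |ξ m| ∧
    S.wh c ξ s i ≤ S.ff c s i * Real.exp (c.a * S.chi c i m) * |ξ m|
  i2p : ∀ i j, s ≤ i → i < j → j ≤ m →
    S.wh c ξ s i ≤ S.ff c s i ^ 2 * Real.exp (c.a * S.chi c i m) * S.wh c ξ s j ∧
    S.PB c (2 / 100) i j * S.wh c ξ s i ≤
      S.ff c s i ^ 2 * Real.exp (c.a * S.chi c i m - (1 - 2 * c.a) * S.chi c i j) * S.wh c ξ s j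
  i3 : ∀ i j, s ≤ i → i < j → j ≤ m →
    S.Bc c (S.wh c ξ s) i j ≤ 10 * S.ff c s i * Real.exp (c.a * S.chi c i m)

/-- (I4): one step of a run, from the free time `n` with depth `r` to the free time `p` -/
structure Step (ξ : ℤ → ℝ) (s n : ℤ) (r : ℝ) (p : ℤ) : Prop where
  lt : n < p
  hr : r = S.dep c ξ n p
  r_lo : -1 ≤ r
  A_lo : Real.log |ξ n| + r ≤ S.WW c ξ s p
  A_hi : S.AA c ξ s p ≤ S.AA c ξ s n + 100 * |ξ n| * Real.exp r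
  kz : 1 ≤ r → S.kk (n + 1) = 0
  time : ((p - n : ℤ) : ℝ) ≤ 1 + Real.exp (c.del * r)
  con : S.PB c (2 / 100) n p * |ξ n| ≤ Real.exp (-(1 - c.a / 2) * S.chi c n p) * |ξ p| ∧
    |ξ n| ≤ Real.exp (c.a / 2 * S.chi c n p) * |ξ p|
  dch : r ≤ 1 ∨ r ≤ c.a / 4 * S.chi c n p
  wit : S.Wit c Ex ξ n r
  zone : dP (S.X n) < 5 / 100 → p = n + 1 ∧ r ≤ 1
  ins1 : ∀ j, n < j → j ≤ p → |S.fr (n + 1) j| * c.L * |ξ n| ≤ 2 * Real.exp r * S.wh c ξ s j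
  ins2 : ∀ j, n < j → j ≤ p → S.DD c (S.wh c ξ s) n j ≤ 3 * Real.exp r * |ξ n| * S.wh c ξ s j
  ins3 : ∀ i j, s ≤ i → i < n → n < j → j ≤ p → |S.fr (i + 1) j| * |ξ n| ≤
    (|S.fr (i + 1) n| + 2 * Real.exp r * (S.PB c (2 / 100) i n * S.wh c ξ s i) / (c.L * |ξ n|)) *
      S.wh c ξ s j
  kind : (p = n + 1 ∧ 2 * r ≤ c.lam + 2 * c.c1) ∨
    (c.lam / 2 ≤ r ∧
      (1 - 4 * c.ε) * r - c.C4 * S.load c n (2 * r) ≤ Real.log |ξ p| - Real.log |ξ n| ∧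
      Real.log |ξ p| - Real.log |ξ n| ≤ r + c.lam + 5 ∧
      c.M1 * (2 * r - 2 * c.lam) ≤ S.chi c n p ∧
      c.lam * S.NK n p ≤ c.CN * (c.C1 * S.load c n (2 * r) + 3 * c.ε * r))

/-- consecutive steps from the free time `m0` to the free time `m` -/
inductive Chain (ξ : ℤ → ℝ) (s m0 : ℤ) : List (ℤ × ℝ) → ℤ → Prop
  | nil : S.RInv c ξ s m0 → Chain ξ s m0 [] m0
  | cons {Ls n r p} : Chain ξ s m0 Ls n → S.Step c Ex ξ s n r p → S.RInv c ξ s p →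
      Chain ξ s m0 ((n, r) :: Ls) p

open Classical in
def sumR (Ls : List (ℤ × ℝ)) : ℝ := (Ls.map fun x => if c.cc ≤ x.2 then x.2 else 0).sum

/-- `W''_m` and `x(W''_m)` for the partner run of the fold time `n` -/
def Wp (n m : ℤ) : ℝ := S.WW c (S.fr (n + 1)) (n + 1) m
def xp (n m : ℤ) : ℝ := S.xx c n (S.Wp c n m)
def wp (n : ℤ) : ℤ → ℝ := S.wh c (S.fr (n + 1)) (n + 1)

/-- (I5b)-(I8) at a free time `m` of the partner run of the fold time `n` -/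
structure BInv (n : ℤ) (Ls : List (ℤ × ℝ)) (m : ℤ) : Prop where
  kz : S.kk (n + 1) = 0 ∧ 5 / 100 ≤ dP (S.X n) ∧ 1 ≤ dP (S.X (n + 1))
  ev_le : S.evs c (S.fr (n + 1)) (n + 1) Ls ≤ S.xp c n m
  chi_ge : c.M1 * (S.Wp c n m - 5) ≤ S.chi c n m
  sg_le : S.sg c (S.fr (n + 1)) (n + 1) m ≤ 11 * c.ε' * S.xp c n m
  len : (Ls.length : ℝ) ≤ 10 * (S.Wp c n m + c.lam) / c.lam
  sumr : sumR c Ls ≤ 15 * S.xp c n m
  nk : c.lam * S.NK n m ≤ c.CN * S.xp c n m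
  loads : ∀ x ∈ Ls, S.load c x.1 (2 * x.2) ≤ S.qu c.Q n x.1
  i6 : ∀ i, n < i → i ≤ m →
    (c.lam + 1) * S.NK n i ≤ c.a / 8 * S.chi c n i ∧
    Real.exp (-(c.a / 8 * S.chi c n i)) ≤ S.wp c n i ∧ S.wp c n i ≤ Real.exp (c.a / 4 * S.chi c n i) ∧
    ∀ j, i < j → j ≤ m → S.Bc c (S.wp c n) i j ≤
      Real.exp (c.a / 8 * S.chi c n i) * (1 - Real.exp (-S.chi c i m / 4) / 2)
  i7 : ((m - n : ℤ) : ℝ) ≤ 1 + 2 * Ls.length *
    Real.exp (c.d1 / 2 * S.Wp c n m + 3 * c.d1 * c.C1 * S.load c n (S.Wp c n m))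
  i8n : ∀ j, n < j → j ≤ m → ∑ i ∈ Ico (n + 1) j, |S.fr (i + 1) j| ≤ Ls.length *
    Real.exp (S.Wp c n m + 8 * c.C1 * S.load c n (S.Wp c n m) - c.lam / 2) * S.wp c n j
  i8 : ∀ j, n < j → j ≤ m → ∑ i ∈ Ico (n + 1) j, |S.fr (i + 1) j| ≤
    Real.exp (2 * (S.Wp c n m + 4 * c.C1 * S.load c n (S.Wp c n m))) * S.wp c n j

open Classical in
/-- certificate for the window `[s', m]` with its covering cost; `K = 1` for the intrinsic majorant -/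
structure SufC (K : ℝ) (ξ w A : ℤ → ℝ) (Rg : Finset ℤ) (s' m : ℤ) : Prop where
  mono : ∀ i j, s' ≤ i → i ≤ j → j ≤ m → A i ≤ A j
  lo : w s' ≤ A s'
  lo' : w m ≤ 1000 * K * c.L * A m
  dd : ∀ j, s' ≤ j → j ≤ m → S.DD c w s' j ≤ A j * w j
  sub : Rg ⊆ Ico s' m
  reg : ∀ i ∈ Rg, dP (S.X i) < (35 + 5 * K) / 1000 ∧ dP (S.X (i + 1)) < (35 + 5 * K) / 1000 ∧
    w i ≤ 2 * K * |ξ i| ∧ A (i + 1) ≤ K ^ 4 * c.lam / 64 * w i
  runs : (((Ico s' m).filter fun i => i ∉ Rg ∧ (i - 1 ∈ Rg ∨ i = s')).card : ℝ) ≤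
    K * S.chi c s' m / c.bl + 2
  cost : Real.log (A s' / w s') + ∑ i ∈ Ico s' m \ Rg, Real.log (A (i + 1) / A i) ≤
    3 * K * c.a * S.chi c s' m + 10 * K

/-- one step of a segmented history with abstract majorant `w` on `[h - 1, ·]` -/
structure HStep (ξ w : ℤ → ℝ) (h m : ℤ) (r : ℝ) (m' : ℤ) : Prop where
  lt : m < m'
  wm : w m = |ξ m|
  r_lo : -2 ≤ r
  dch : r ≤ 2 ∨ r ≤ c.a / 2 * S.chi c m m'
  zone : dP (S.X m) < 4 / 100 → m' = m + 1 ∧ r ≤ 2 ∧ c.L / 4 * w m ≤ w m'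
  new : ∀ j, m < j → j ≤ m' → S.DD c w m j ≤ 2000 * Real.exp r * w m * w j ∧
    |S.fr (m + 1) j| * c.L * w m ≤ 10 * Real.exp r * w j
  suf : ∀ s', m < s' → s' < m' → ∃ A Rg, S.SufC c 2 ξ w A Rg s' m'
  gain : w m' ≤ Real.exp (r + c.lam + 7) * w m
  dec : ∀ i, h ≤ i → i < m →
    S.PB c (18 / 1000) i m * w i ≤ 50 * Real.exp (-(1 - 3 * c.a) * S.chi c i m) * w m ∧
    w i ≤ 50 * Real.exp (3 * c.a * S.chi c i m) * w m

inductive HChain (ξ w : ℤ → ℝ) (h : ℤ) : ℤ → Prop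
  | nil : HChain ξ w h h
  | cons {m r m'} : HChain ξ w h m → S.HStep c ξ w h m r m' → HChain ξ w h m'

/-- segmented history on `[h, n]` -/
structure Hist (ξ w : ℤ → ℝ) (h n : ℤ) : Prop where
  h0 : 0 ≤ h
  chain : S.HChain c ξ w h n
  wn : w n = |ξ n|
  slope : |ξ (n - 1)| ≤ Real.exp (-c.lam / 5) * |ξ n|
  pos : ∀ j, h ≤ j → j ≤ n → 0 < w j
  maj : S.Maj ξ 1 w h n
  backK : ∀ j, h < j → j < n → dP (S.X j) ≤ 18 / 1000 → dP (S.X (j - 1)) ≤ 18 / 1000 →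
    w (j - 1) ≤ 16 * w j
  back : ∀ j, h < j → j ≤ n → w (j - 1) ≤ 4 * Real.exp (c.bl / 2) * w j
  fwd : ∀ j, h ≤ j → j < n → w (j + 1) ≤ 100 * c.L * w j
  pw : ∀ i j, h ≤ i → i < j → j ≤ n →
    w i ≤ 50 * Real.exp (2 * c.a * S.chi c i n) * w j ∧
    S.PB c (18 / 1000) i j * w i ≤
      50 * Real.exp (2 * c.a * S.chi c i n - (1 - 3 * c.a) * S.chi c i j) * w j ∧
    S.Bc c w i j ≤ 200 * Real.exp (2 * c.a * S.chi c i n)
  dec : ∀ i, h ≤ i → i < n →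
    S.PB c (18 / 1000) i n * w i ≤ 50 * Real.exp (-(1 - 3 * c.a) * S.chi c i n) * w n

/-- good time of a top-level run started at `s` -/
def Good (ξ : ℤ → ℝ) (s n : ℤ) : Prop :=
  s < n ∧ (∃ Ls, S.Run c Ex ξ s (fun _ _ _ => True) Ls n) ∧ S.sig c ξ s n ≤ -c.lam / 4 ∧
    S.qu (c.Q / 2) s n = 0 ∧ 5 / 100 ≤ dP (S.X n) ∧ 5 / 100 ≤ dP (S.X (n - 1))
end Sq

/-- tangent solution of the orbit of `(v, 10)`, normalised at time `s` -/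
def Mdl.tg (M : Mdl) (t v : ℝ) (s : ℤ) (j : ℤ) : ℝ := (M.O t v).fr 0 j / (M.O t v).fr 0 s

/-- admissible curves: base time `s`, left end `x0`, `φ u` = base point with `X_s = x0 + u` -/
inductive Adm (c : Cs) (Ex : ExT) (M : Mdl) (t : ℝ) : ℤ → ℝ → (ℝ → ℝ) → Prop
  | base : Adm c Ex M t 0 0 id
  | step {s x0 φ u0 n x1 g} : Adm c Ex M t s x0 φ → u0 ∈ Set.Icc (0 : ℝ) 100 →
      (M.O t (φ u0)).Good c Ex (M.tg t (φ u0) s) s n → ContinuousOn g (Set.Icc 0 100) →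
      (∀ u ∈ Set.Icc (0 : ℝ) 100, g u ∈ Set.Icc (0 : ℝ) 100 ∧
        |g u - u0| ≤ 5000 / |M.tg t (φ u0) s n| ∧ (M.O t (φ (g u))).X n = x1 + u) →
      Adm c Ex M t n x1 (φ ∘ g)

end
end Pool.Agent.MP_9cbfe4_an

end

/-! ### Part If1 -/

section

/-! Row statements, parts L, B, T1.  A row proves `Hier fun c => deps c → X_s c`. -/

namespace Pool.Agent.MP_9cbfe4_an

open Finset Filter Topology

noncomputable section

/-- orbits of the model -/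
def SOK_s (c : Cs) : Prop := ∀ M : Mdl, M.OK c → ∀ t, TI t →
  (∀ s p, Box c p.1 → Box c p.2 → (dP p.1 < 4 / 100 → dP p.2 < 4 / 100 → Core c p.2) →
    IsOrb c M t (M.orb t s p) s) ∧
  (∀ v ∈ Set.Icc (0 : ℝ) 100, IsOrb c M t (M.O t v) 0 ∧ (M.O t v).OK c) ∧
  (∀ S s j, IsOrb c M t S s → s ≤ j → IsOrb c M t S j ∧
    (∀ θ, 1 / 100 ≤ θ → S.b j ≤ S.bb c θ j) ∧ Real.exp (-c.bl) / 4 ≤ S.b j ∧ |S.a j| ≤ 2 * c.L ∧
    (dP (S.X (j + 1)) < 5 / 100 → dP (S.X j) < 5 / 100 → dP (S.X j) ≤ (1 - 3 * c.e0 / 4) * c.w0))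

/-- common hypotheses of the shadowing lemmas: `ζ` is the linear part of `Z = X' - X` -/
structure ShH (c : Cs) (M : Mdl) (t t' : ℝ) (S S' : Sq) (θ : ℝ) (w A ζ : ℤ → ℝ) (η : ℝ)
    (s n : ℤ) : Prop where
  ok : M.OK c
  ht : TI t
  ht' : TI t'
  orb : IsOrb c M t S s
  orb' : IsOrb c M t' S' s
  sn : s ≤ n
  θ_lo : 12 / 1000 ≤ θ
  θ_hi : θ ≤ 2 / 100
  cert : S.Cert c θ w A s n
  η0 : 0 ≤ η
  small : η * A n ≤ 1 / c.lam ^ 2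
  maj : S.Maj ζ (2 * η) w s n
  init : ζ s = S'.X s - S.X s
  init' : S.b s * |S'.X (s - 1) - S.X (s - 1) - ζ (s - 1)| ≤ 100 * c.CG * c.L * (η * w s) ^ 2
  pair : ∃ m, Pair c (S.X s) (S.X (s - 1)) (S'.X s) (S'.X (s - 1)) m ∧
    m * |S'.X (s - 1) - S.X (s - 1)| ≤ 100 * c.CG * c.L * (η * w s) ∧
    m * (S'.X (s - 1) - S.X (s - 1)) ^ 2 ≤ 100 * c.CG * c.L * (η * w s) ^ 2
  par : ∀ j, s < j → j ≤ n → |t' - t| * ∑ i ∈ Ico s j, |S.fr (i + 1) j| ≤ η * w j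

/-- Lemma S and the tube corollary S1 -/
def SH_s (c : Cs) : Prop := ∀ M t t' S S' θ w A ζ η s n, ShH c M t t' S S' θ w A ζ η s n →
  (∀ j, s ≤ j → j ≤ n → |S'.X j - S.X j| ≤ 4 * η * w j ∧
    |S'.X j - S.X j - ζ j
      - (t' - t) * ∑ i ∈ Ico s j, S.fr (i + 1) j * M.Gt t (S.X i) (S.X (i - 1))|
      ≤ c.KS * (η * A j) * (η * w j)) ∧
  (∀ j, s ≤ j → j < n → η * w j ≤ 100 * (η * A n) ∧
    |S'.a j - S.a j| ≤ 1000 * c.CG * c.L * (η * w j) ∧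
    |S'.b j - S.b j| * (if j = s then 0 else w (j - 1)) ≤ 1000 * c.CG * c.L * (η * w j ^ 2)) ∧
  (∀ j, s < j → j < n → |S'.ch1 c j - S.ch1 c j| ≤ c.a / 10 * S.ch1 c j ∧
    |S'.kk j - S.kk j| ≤ 40000 * (η * w j + η * w (j - 1)) ∧
    S'.bb c (θ - 1 / 1000) j ≤ S.bb c θ j) ∧
  (∀ (ξ ξ' : ℤ → ℝ) K, 0 ≤ K → S.Maj ξ K w s n →
    (∀ j, s ≤ j → j < n → ξ' (j + 1) = S'.a j * ξ' j + S'.b j * ξ' (j - 1)) →
    ξ' s = ξ s → |S'.b s * ξ' (s - 1) - S.b s * ξ (s - 1)| ≤ 200 * c.CG * c.L * K * (η * w s ^ 2) →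
    ∀ j, s ≤ j → j ≤ n → |ξ' j - ξ j| ≤ c.KS * (η * A j) * K * w j) ∧
  (∀ i B, s ≤ i + 1 → (∀ l, i < l → l ≤ n → |S.fr (i + 1) l| ≤ B * w l) →
    ∀ j, i < j → j ≤ n → |S'.fr (i + 1) j - S.fr (i + 1) j| ≤ c.KS * (η * A j) * B * w j) ∧
  S'.Cert c (θ - 1 / 1000) w (fun j => 2 * A j) s n ∧
  (∀ (s' : ℤ) (A' : ℤ → ℝ), s ≤ s' → (∀ i j, s' ≤ i → i ≤ j → j ≤ n → A' i ≤ A' j) →
    (∀ j, s' ≤ j → j ≤ n → S.DD c w s' j ≤ A' j * w j) →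
    ∀ j, s' ≤ j → j ≤ n → S'.DD c w s' j ≤ (1 + 1 / c.lam) * A' j * w j)

/-- L2': defects at a time `n` with `kk n = 0` -/
def FD_s (c : Cs) : Prop := ∀ M t t' S S' θ w A ζ η s n, ShH c M t t' S S' θ w A ζ η s n → s < n →
  S.kk n = 0 → S.Dec c θ (1000 * c.lam) w s n →
  ∀ ξ, S.Maj ξ 1 w s n → w n ≤ 8 * |ξ n| →
  ((∃ v, ∀ j, ζ j = v * ξ j) →
    S.b n * |S'.X (n - 1) - S.X (n - 1) - ξ (n - 1) / ξ n * (S'.X n - S.X n)|
      ≤ Real.exp (-c.bl / 2) * (|t' - t| + c.L * (η * w n) ^ 2)) ∧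
  ∀ ξ' : ℤ → ℝ, (∀ j, s ≤ j → j < n → ξ' (j + 1) = S'.a j * ξ' j + S'.b j * ξ' (j - 1)) → ξ' s = ξ s →
    |S'.b s * ξ' (s - 1) - S.b s * ξ (s - 1)| ≤ 200 * c.CG * c.L * (η * w s ^ 2) →
    S.b n * |ξ' (n - 1) / ξ' n - ξ (n - 1) / ξ n| ≤ Real.exp (-c.bl / 2) * c.L * (η * w n)

/-- numeric lemma (I5) on chains; `Qr ∈ {Q, Q/2}` -/
def NUM_s (c : Cs) : Prop := ∀ Ex (S : Sq) ξ s m0 Ls m Qr s0 B0, S.OK c → 0 ≤ s → s ≤ m0 → s0 ≤ m0 →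
  c.Q / 2 ≤ Qr → Qr ≤ c.Q → S.Chain c Ex ξ s m0 Ls m →
  (∀ x ∈ Ls, S.load c x.1 (2 * x.2) ≤ S.qu Qr s0 x.1) →
  B0 = S.sg c ξ s m0 + c.Γ * S.qu Qr s0 m0 + c.Γ →
  S.sg c ξ s m + c.Γ * S.qu Qr s0 m ≤ B0 + 10 * c.ε' * S.evs c ξ s Ls ∧
  Sq.sumR c Ls ≤ 2 * S.evs c ξ s Ls + 20 / c.e3 * B0 + c.cc * Ls.length ∧
  c.lam * S.NK m0 m ≤ c.CN / 2 * S.evs c ξ s Ls + 100 * c.CN * c.C0 * c.C1 * B0 +
    (if dP (S.X m0) < 4 / 100 then c.lam else 0) ∧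
  c.lam / 4 * Ls.length ≤ Real.log |ξ m| - Real.log |ξ m0| + 10 * c.C6 * B0 ∧
  S.evs c ξ s Ls ≤ 3 * (Real.log |ξ m| - Real.log |ξ m0|) + 30 * c.C6 * B0 ∧
  Real.log |ξ m| - Real.log |ξ m0| ≤ (1 + c.e3) * S.evs c ξ s Ls + 4 * S.chi c m0 m / c.β +
    100 / c.e3 ^ 2 * B0 + (if dP (S.X m0) < 4 / 100 then 2 * c.lam else 0)

/-- the sandwich inside a block -/
def BLK_s (c : Cs) : Prop := ∀ (S : Sq) ξ s n Ls p, S.OK c → S.St c ξ s → S.RInv c ξ s n →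
  S.RInv c (S.fr (n + 1)) (n + 1) p → S.BInv c n Ls p → S.rho ξ n p ≠ 0 →
  ξ p = S.rho ξ n p * S.fr (n + 1) p * ξ n ∧
  ∀ j, n < j → j ≤ p →
    |ξ j / ξ n - S.rho ξ n p * S.fr (n + 1) j| ≤ Real.exp (-(1 - c.a) * S.chi c n j) ∧
    |ξ n| * Real.exp (-S.chi c n j / 2) ≤ S.wh c ξ s j ∧
    |ξ n| * (|S.rho ξ n p| * S.wp c n j - Real.exp (-S.chi c n j / 2)) ≤ S.wh c ξ s j ∧
    |ξ n| * |S.rho ξ n p| * S.wp c n j ≤ 2 * S.wh c ξ s j ∧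
    S.wh c ξ s j ≤ |ξ n| * (|S.rho ξ n p| * S.wp c n j + Real.exp (-S.chi c n j / 2))

/-- `ν` bound and stability of `ρ` in the horizon, for any outer direction -/
def RHO_s (c : Cs) : Prop := ∀ (S : Sq) ξ n Ls p, S.OK c → S.Out c ξ n →
  S.RInv c (S.fr (n + 1)) (n + 1) p → S.BInv c n Ls p →
  (∀ j, n < j → j ≤ p →
    |ξ j / ξ n - S.rho ξ n p * S.fr (n + 1) j| ≤ Real.exp (-(1 - c.a) * S.chi c n j)) ∧
  ∀ j, n < j → j ≤ p → S.wp c n j = |S.fr (n + 1) j| →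
    |S.rho ξ n j - S.rho ξ n p| ≤ Real.exp (-(1 - 2 * c.a) * S.chi c n j)

/-- step facts (I4) -/
def STEP_s (c : Cs) : Prop := ∀ Ex (S : Sq) ξ s n, S.OK c → S.St c ξ s → S.RInv c ξ s n →
  (c.cb * c.L ≤ S.rho ξ n (n + 1) ^ 2 → S.Step c Ex ξ s n (S.dep c ξ n (n + 1)) (n + 1)) ∧
  ∀ Ls p r', S.BRun c Ex ξ n Ls p r' → S.RInv c (S.fr (n + 1)) (n + 1) p → S.BInv c n Ls p →
    c.cw * c.L ≤ S.rho ξ n p ^ 2 * Real.exp (S.Wt c (S.fr (n + 1)) (n + 1) p r') →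
    S.Step c Ex ξ s n (S.dep c ξ n p) p

/-- propagation of (I1)-(I3) -/
def RINV_s (c : Cs) : Prop := ∀ Ex (S : Sq) ξ s, S.OK c → S.St c ξ s → S.RInv c ξ s s ∧
  ∀ n r p, S.RInv c ξ s n → S.Step c Ex ξ s n r p →
    (p = n + 1 ∨ ∃ Ls, S.RInv c (S.fr (n + 1)) (n + 1) p ∧ S.BInv c n Ls p) → S.RInv c ξ s p

/-- propagation of the invariants of bound runs -/
def BINV_s (c : Cs) : Prop := ∀ Ex (S : Sq) ξ n, S.OK c → S.Out c ξ n →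
  (∀ r, S.Bd c ξ n (n + 1) r → S.BInv c n [] (n + 1)) ∧
  ∀ Ls m r p, S.Chain c Ex (S.fr (n + 1)) (n + 1) (n + 1) Ls m → S.BInv c n Ls m →
    S.PBd c Ex ξ n Ls m r → S.Step c Ex (S.fr (n + 1)) (n + 1) m r p →
    S.RInv c (S.fr (n + 1)) (n + 1) p →
    (p = m + 1 ∨ ∃ Ls', S.RInv c (S.fr (m + 1)) (m + 1) p ∧ S.BInv c m Ls' p ∧ S.Wp c m p ≤ 2 * r) →
    S.BInv c n ((m, r) :: Ls) p

/-- B1, soundness.  `Blk x` records the partner run of a step. -/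
def B1_s (c : Cs) : Prop := ∀ Ex (S : Sq), S.OK c →
  (∀ ξ s P Ls m, S.St c ξ s → S.Run c Ex ξ s P Ls m → S.Chain c Ex ξ s s Ls m ∧ S.RInv c ξ s m) ∧
  (∀ ξ n Ls m r, S.Out c ξ n → S.Run c Ex (S.fr (n + 1)) (n + 1) (S.PBd c Ex ξ n) Ls m →
    S.Bd c ξ n m r → S.BInv c n Ls m) ∧
  (∀ ξ n Ls m r, S.Out c ξ n → S.BRun c Ex ξ n Ls m r →
    r ≤ 11 / 10 * S.xx c n (S.Wt c (S.fr (n + 1)) (n + 1) m r) + c.cc)

/-- a segmented history is tame -/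
def TG_s (c : Cs) : Prop := ∀ (S : Sq) ξ w h n y, S.OK c → S.Hist c ξ w h n →
  (y ≤ c.bl / 4 ∨ y ≤ S.chi c (h + 1) n ∨ (h = 0 ∧ ξ (-1) = 0 ∧ ∀ j, 0 ≤ j → ξ j = ξ 0 * S.fr 0 j)) →
  S.Tame c ξ n y

/-- suffix certificates of a run (structural induction, referee 25 R1) -/
def SUF_s (c : Cs) : Prop := ∀ Ex (S : Sq) ξ s P Ls m, S.OK c → S.St c ξ s → S.Run c Ex ξ s P Ls m →
  ∀ s', s ≤ s' → s' ≤ m → ∃ A Rg, S.SufC c 1 ξ (S.wh c ξ s) A Rg s' m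

/-- a run is a segmented history -/
def H1_s (c : Cs) : Prop := ∀ Ex (S : Sq) ξ s P Ls m, S.OK c → S.St c ξ s → S.Run c Ex ξ s P Ls m →
  S.Hist c ξ (S.wh c ξ s) s m

/-- B3(i): a free time of a run whose start is far enough back is tame -/
def B3_s (c : Cs) : Prop := ∀ Ex (S : Sq) ξ s P Ls m y, S.OK c → S.St c ξ s →
  S.Run c Ex ξ s P Ls m → (y ≤ c.bl / 4 ∨ y ≤ S.chi c (s + 1) m ∨ (s = 0 ∧ ξ = S.fr 0)) →
  S.Tame c ξ m y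

/-- B2, existence under `H` -/
def B2_s (c : Cs) : Prop := ∀ Ex (M : Mdl) t, M.OK c → TI t → HH c Ex M t →
  ∀ v ∈ Set.Icc (0 : ℝ) 100, ∀ ξ s P Ls n, (M.O t v).St c ξ s → (M.O t v).Run c Ex ξ s P Ls n →
  (∀ y, (M.O t v).Tame c ξ n y) → (∀ r, P Ls n r) →
  (∃ r p, (M.O t v).Run c Ex ξ s P ((n, r) :: Ls) p) ∨ (M.O t v).Crit c Ex ξ n

/-- B4(iii): the block map -/
def BM_s (c : Cs) : Prop := ∀ (M : Mdl) t t' (S S' : Sq) ξ n Ls J η1 D1 v, M.OK c → TI t → TI t' →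
  IsOrb c M t S n → IsOrb c M t' S' n → S.OK c → S.Out c ξ n →
  S.RInv c (S.fr (n + 1)) (n + 1) J → S.BInv c n Ls J →
  |S'.X n - S.X n| ≤ η1 → 0 < η1 → η1 ≤ 1 / c.lam ^ 2 →
  S.b n * |S'.X (n - 1) - S.X (n - 1) - ξ (n - 1) / ξ n * (S'.X n - S.X n)| ≤ D1 →
  D1 ≤ 1 / c.lam ^ 2 →
  |S.rho ξ n J| * η1 + 2 * c.CG * c.L * η1 ^ 2 + 2 * D1 + 2 * |t' - t| ≤ v →
  (∀ j, n + 1 < j → j ≤ J → |t' - t| * ∑ i ∈ Ico (n + 1) j, |S.fr (i + 1) j| ≤ v * S.wp c n j) →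
  v * Real.exp (S.Wp c n J) ≤ 1 / (10 * c.lam ^ 2) →
  ∃ (w A ζ : ℤ → ℝ) (Y : ℝ), ShH c M t t' S S' (2 / 100) w A ζ η1 (n + 1) J ∧
    (∀ j, n < j → j ≤ J → η1 * w j = v * S.wp c n j + η1 * Real.exp (-S.chi c n j / 2)) ∧
    (∀ j, η1 * A j = 3 * v * Real.exp (S.Wp c n j) + Real.exp (-c.bl / 4)) ∧
    (∀ j, n ≤ j → ζ j = (S'.X n - S.X n) * (ξ j / ξ n - S.rho ξ n J * S.fr (n + 1) j)
      + Y * S.fr (n + 1) j) ∧
    |Y - S.rho ξ n J * (S'.X n - S.X n) - (t' - t)| ≤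
      2 * c.CG * c.L * (S'.X n - S.X n) ^ 2 + 2 * D1 + 2 * c.dl * |t' - t| ∧
    ∀ i B, n ≤ i → (∀ l, i < l → l ≤ J → |S.fr (i + 1) l| ≤ B * S.wp c n l) →
      ∀ j, i < j → j ≤ J → |S'.fr (i + 1) j - S.fr (i + 1) j| ≤
        c.KS * (v * Real.exp (S.Wp c n j) + η1 * Real.exp (-c.bl / 3)) * B * S.wp c n j

/-- T1: deep points are close -/
def T1_s (c : Cs) : Prop := ∀ Ex (M : Mdl) t t', M.OK c → TI t → TI t' →
  ∀ v ∈ Set.Icc (0 : ℝ) 100, ∀ v' ∈ Set.Icc (0 : ℝ) 100, ∀ ξ ξ' n n' r u y0 y2,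
  (M.O t v).Out c ξ n → (M.O t' v').Out c ξ' n' → 1 ≤ r →
  (M.O t v).Wit c Ex ξ n r → (M.O t' v').Wit c Ex ξ' n' r →
  u = (M.O t' v').X n' - (M.O t v).X n → |u| ≤ 1 / 1000 → |t' - t| ≤ y0 → 0 ≤ y2 →
  (M.O t v).b n * |(M.O t' v').X (n' - 1) - (M.O t v).X (n - 1) - ξ (n - 1) / ξ n * u|
    ≤ c.L * u ^ 2 / c.lam + y0 →
  (M.O t v).b n * |ξ' (n' - 1) / ξ' n' - ξ (n - 1) / ξ n| ≤ c.L * |u| / c.lam + y2 →
  (r ≤ c.bl / 4 ∨ (y0 * Real.exp (r / 100) ≤ 1 / c.lam ^ 3 ∧ y2 * Real.exp (r / 100) ≤ 1)) →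
  |u| ≤ 100 * Real.exp (-r) + 100 * (y2 + y0 * Real.exp (r / 100 - c.bl / 4)) / c.L

/-- B5: `(C*)` and the earlier data give C1, C2 and (for `κ < 1`) parameter speed `1` -/
def B5_s (c : Cs) : Prop := c.θb / (1 - c.θb) < c.κ →
  ∀ Ex : ExT, (∀ S ξ n Ls p r, Ex S ξ n Ls p r → Cstar c S ξ n Ls p r) →
  ∀ (S : Sq) ξ n Ls p r, S.OK c → S.Out c ξ n →
  S.Run c Ex (S.fr (n + 1)) (n + 1) (S.PBd c Ex ξ n) Ls p → S.Bd c ξ n p r →
  ((c.κ < 1 ∨ c.C0 * S.Wp c n p ≤ c.bl) → ∀ j, n < j → j ≤ p →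
    ∑ i ∈ Ico (n + 1) j, |S.fr (i + 1) j| ≤ Real.exp (-c.lam / 3) * S.wp c n j) ∧
  S.evs c (S.fr (n + 1)) (n + 1) Ls ≤ c.θb * S.Wp c n p + c.cc ∧
  S.sg c (S.fr (n + 1)) (n + 1) p ≤ 11 * c.ε' * (S.Wp c n p + c.cc) ∧
  Sq.sumR c Ls ≤ 15 * (S.Wp c n p + c.lam) ∧
  (Cstar c S ξ n Ls p r →
    S.evs c (S.fr (n + 1)) (n + 1) Ls + S.ev c (S.fr (n + 1)) (n + 1) p r ≤
      S.xx c n (S.Wt c (S.fr (n + 1)) (n + 1) p r) →
    r ≤ c.κ * S.Wt c (S.fr (n + 1)) (n + 1) p 0 + c.c1 ∧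
    c.M1 * S.Wt c (S.fr (n + 1)) (n + 1) p r ≤ S.chi c n p)

end
end Pool.Agent.MP_9cbfe4_an

end

/-! ### Part If2 -/

section

/-! Row statements, parts T, Y, E0. -/

namespace Pool.Agent.MP_9cbfe4_an

open Finset Filter Topology MeasureTheory

noncomputable section

/-- abstract nested Vitali covering -/
def VIT_s : Prop := ∀ (Z : Type) (θ : Z → ℝ) (k : ℕ) (R N : ℕ → Z → ℝ) (ko : ℕ → ℝ),
  (∀ i z, 1 ≤ i → i ≤ k → 0 < R i z ∧ R i z ≤ N (i - 1) z ∧ R i z ≤ 1000) → (∀ i, 0 ≤ ko i) →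
  (∀ i z, 1 ≤ i → i ≤ k → ∃ x1 x2 : ℝ, ∀ z', |θ z' - θ z| ≤ R i z →
    Metric.closedBall (θ z') (N i z') ⊆
      Metric.closedBall x1 (ko i * R i z) ∪ Metric.closedBall x2 (ko i * R i z)) →
  volume (⋃ z, Metric.closedBall (θ z) (N k z)) ≤
    ENNReal.ofReal (∏ i ∈ Icc 1 k, 10 * ko i) * volume (⋃ z, Metric.closedBall (θ z) (N 0 z))

open Classical in
/-- symbol of a step: `⌈r⌉` (or `0` if `r < cc`), length, event flag -/
def Sq.sym (c : Cs) (S : Sq) (ξ : ℤ → ℝ) (s n : ℤ) (r : ℝ) (p : ℤ) : ℕ × ℕ × Bool :=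
  (if c.cc ≤ r then ⌈r⌉₊ else 0, (p - n).toNat, decide (0 < S.ev c ξ s n r))
/-- pattern of a list of steps (latest first) ending at time `m` -/
def Sq.pat (c : Cs) (S : Sq) (ξ : ℤ → ℝ) (s : ℤ) : List (ℤ × ℝ) → ℤ → List (ℕ × ℕ × Bool)
  | [], _ => []
  | x :: Ls, m => S.sym c ξ s x.1 x.2 m :: Sq.pat c S ξ s Ls x.1
/-- admissible symbols -/
def SymOK (c : Cs) (x : ℕ × ℕ × Bool) : Prop :=
  (x.1 = 0 ∧ x.2.1 = 1) ∨ (c.cc ≤ x.1 ∧ (x.2.1 : ℝ) ≤ 1 + Real.exp (c.del * x.1))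
/-- size of the event recorded by a symbol -/
def symEv (c : Cs) (x : ℕ × ℕ × Bool) : ℝ := if x.2.2 then (if x.1 = 0 then c.lam else x.1) else 0

/-- Kraft count of patterns -/
def KR_s (c : Cs) : Prop := ∀ N Y : ℝ, ∃ T : Finset (List (ℕ × ℕ × Bool)),
  (T.card : ℝ) ≤ 4 * Real.exp (2 * N + 3 * c.del * Y) ∧
  ∀ π : List (ℕ × ℕ × Bool), (∀ x ∈ π, SymOK c x) → (π.length : ℝ) ≤ N →
    (π.map fun x => (x.1 : ℝ)).sum ≤ Y → π ∈ T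

/-- point of the plane at time `j` -/
def Mdl.pt (M : Mdl) (t v : ℝ) (j : ℤ) : ℝ × ℝ := ((M.O t v).X j, (M.O t v).X (j - 1))

/-- T0: properties of admissible curves -/
structure AdmP (c : Cs) (Ex : ExT) (M : Mdl) (t : ℝ) (s : ℤ) (x0 : ℝ) (φ : ℝ → ℝ) : Prop where
  s0 : 0 ≤ s
  cont : ContinuousOn φ (Set.Icc 0 100)
  mem : ∀ u ∈ Set.Icc (0 : ℝ) 100, φ u ∈ Set.Icc (0 : ℝ) 100 ∧ (M.O t (φ u)).X s = x0 + u ∧
    (M.O t (φ u)).St c (M.tg t (φ u) s) s ∧ 45 / 1000 ≤ dP ((M.O t (φ u)).X (s - 1))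
  lip : ∀ u ∈ Set.Icc (0 : ℝ) 100, ∀ u' ∈ Set.Icc (0 : ℝ) 100, ∀ j, j < s →
    |(M.O t (φ u')).X j - (M.O t (φ u)).X j| ≤ Real.exp (-c.lam / 6) * |u' - u|
  curv : ∀ u ∈ Set.Icc (0 : ℝ) 100, ∀ u' ∈ Set.Icc (0 : ℝ) 100,
    |(M.O t (φ u')).X (s - 1) - (M.O t (φ u)).X (s - 1) - M.tg t (φ u) s (s - 1) * (u' - u)|
      ≤ Real.exp (3 * c.bl / 4) * (u' - u) ^ 2 ∧
    |M.tg t (φ u') s (s - 1) - M.tg t (φ u) s (s - 1)| ≤ Real.exp (3 * c.bl / 4) * |u' - u|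
  p01 : ∀ u ∈ Set.Icc (0 : ℝ) 100, ∀ i, 0 ≤ i → i < s →
    |M.tg t (φ u) s i| ≤ Real.exp (-c.lam / 5) ∧
    (M.O t (φ u)).Pb i s * |M.tg t (φ u) s i| ≤ 100 * Real.exp (-((s - i : ℤ) : ℝ) / 2)
  p2 : ∀ u ∈ Set.Icc (0 : ℝ) 100, ∀ u' ∈ Set.Icc (0 : ℝ) 100, ∀ (j : ℕ) (B : ℝ),
    (∀ l : ℕ, j ≤ l → l ≤ 2 * j → |M.tg t (φ u) s (s - l)| ≤ B) →
    |(M.O t (φ u')).X (s - j) - (M.O t (φ u)).X (s - j)| ≤ 10 ^ 4 * (B + Real.exp (-(j : ℝ) / 4))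
  load : ∀ u ∈ Set.Icc (0 : ℝ) 100, ∀ n V, s ≤ n →
    (M.O t (φ u)).load c n V ≤ (M.O t (φ u)).qu (c.Q / 2) s n
  tame : ∀ u ∈ Set.Icc (0 : ℝ) 100, ∀ Ls n y,
    (M.O t (φ u)).Run c Ex (M.tg t (φ u) s) s (fun _ _ _ => True) Ls n →
    (M.O t (φ u)).Tame c (M.tg t (φ u) s) n y

/-- histories of the points of an admissible curve (invariant behind `AdmP.tame`) -/
def H2_s (c : Cs) : Prop := ∀ Ex (M : Mdl) t s x0 φ, M.OK c → TI t → Adm c Ex M t s x0 φ →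
  ∀ u ∈ Set.Icc (0 : ℝ) 100, ∀ Ls n,
    (M.O t (φ u)).Run c Ex (M.tg t (φ u) s) s (fun _ _ _ => True) Ls n →
    ∃ w, (M.O t (φ u)).Hist c (M.tg t (φ u) s) w 0 n

def T0_s (c : Cs) : Prop := ∀ Ex (M : Mdl) t s x0 φ, M.OK c → TI t → Adm c Ex M t s x0 φ →
  AdmP c Ex M t s x0 φ

/-- shadowing along an admissible curve inside the window of `u` at a free time `n` -/
def WIN_s (c : Cs) : Prop := ∀ Ex (M : Mdl) t s x0 φ, M.OK c → TI t → AdmP c Ex M t s x0 φ →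
  ∀ u ∈ Set.Icc (0 : ℝ) 100, ∀ u' ∈ Set.Icc (0 : ℝ) 100, ∀ Ls n,
  (M.O t (φ u)).Run c Ex (M.tg t (φ u) s) s (fun _ _ _ => True) Ls n →
  |u' - u| * (M.O t (φ u)).AA c (M.tg t (φ u) s) s n ≤ c.cw →
  ShH c M t t (M.O t (φ u)) (M.O t (φ u')) (2 / 100) ((M.O t (φ u)).wh c (M.tg t (φ u) s) s)
    ((M.O t (φ u)).AA c (M.tg t (φ u) s) s) (fun j => (u' - u) * M.tg t (φ u) s j) |u' - u| s n ∧
  |(M.O t (φ u')).X n - (M.O t (φ u)).X n - (u' - u) * M.tg t (φ u) s n|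
    ≤ |u' - u| * |M.tg t (φ u) s n| / 100 ∧
  |M.tg t (φ u') s n - M.tg t (φ u) s n| ≤ |M.tg t (φ u) s n| / 100 ∧
  ∀ u'' ∈ Set.Icc (0 : ℝ) 100, |u'' - u| * (M.O t (φ u)).AA c (M.tg t (φ u) s) s n ≤ c.cw →
    |(M.O t (φ u'')).X n - (M.O t (φ u')).X n - (u'' - u') * M.tg t (φ u) s n|
      ≤ |u'' - u'| * |M.tg t (φ u) s n| / 10

/-- the state conditions of a good time -/
def Sq.GoodAt (c : Cs) (S : Sq) (ξ : ℤ → ℝ) (s n : ℤ) : Prop :=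
  s < n ∧ S.sig c ξ s n ≤ -c.lam / 4 ∧ S.qu (c.Q / 2) s n = 0 ∧ 5 / 100 ≤ dP (S.X n) ∧
    5 / 100 ≤ dP (S.X (n - 1))

/-- T2: numerics of an excursion from `m0` (good, or the start) whose intermediate free times are
not good; and uniform growth of `A` -/
def T2_s (c : Cs) : Prop := ∀ Ex (S : Sq) ξ s, S.OK c → S.St c ξ s →
  (∀ n V, s ≤ n → S.load c n V ≤ S.qu (c.Q / 2) s n) →
  (∀ m0 Ls m, s ≤ m0 → (m0 = s ∨ S.GoodAt c ξ s m0) → S.Chain c Ex ξ s m0 Ls m →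
    (∀ x ∈ Ls, x.1 = m0 ∨ ¬ S.GoodAt c ξ s x.1) →
    (∀ x ∈ S.pat c ξ s Ls m, SymOK c x) ∧
    (Ls.length : ℝ) ≤ 100 * S.evs c ξ s Ls / c.cc + 10 ∧
    ((S.pat c ξ s Ls m).map fun x => (x.1 : ℝ)).sum ≤ 200 * S.evs c ξ s Ls + 20 * c.cc ∧
    ((m - m0 : ℤ) : ℝ) ≤ 20 * Real.exp (S.evs c ξ s Ls / 100) ∧
    (m0 ≠ s → m0 + 2 ≤ m → c.cc ≤ S.evs c ξ s Ls)) ∧
  (∀ Ls m, S.Chain c Ex ξ s s Ls m → ((m - s : ℤ) : ℝ) ≤ Real.exp (S.WW c ξ s m + c.lam))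

/-- T3: the final windows of the excursions from `m0` that last at least `j`; `I` is a set of
parameters of the curve.  `n` is any free time `≥ m0 + j` with no good free time in `(m0, n)`. -/
def T3_s (c : Cs) : Prop := ∀ Ex (M : Mdl) t s x0 φ, M.OK c → TI t → AdmP c Ex M t s x0 φ →
  ∀ (α β ρ : ℝ) (m0 : ℤ) (j : ℕ), 0 ≤ α → β ≤ 100 → s ≤ m0 → 2 ≤ j →
  (∀ u ∈ Set.Icc α β, ∀ L0, (M.O t (φ u)).Run c Ex (M.tg t (φ u) s) s (fun _ _ _ => True) L0 m0 →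
    c.cw ≤ ρ * (M.O t (φ u)).AA c (M.tg t (φ u) s) s m0) →
  volume {x : ℝ | ∃ u ∈ Set.Icc α β, ∃ L0 Ls n, m0 + j ≤ n ∧
      (M.O t (φ u)).Run c Ex (M.tg t (φ u) s) s (fun _ _ _ => True) L0 m0 ∧
      (M.O t (φ u)).Run c Ex (M.tg t (φ u) s) s (fun _ _ _ => True) (Ls ++ L0) n ∧
      (M.O t (φ u)).Chain c Ex (M.tg t (φ u) s) s m0 Ls n ∧
      (m0 = s ∨ (M.O t (φ u)).GoodAt c (M.tg t (φ u) s) s m0) ∧
      (∀ y ∈ Ls, y.1 = m0 ∨ ¬ (M.O t (φ u)).GoodAt c (M.tg t (φ u) s) s y.1) ∧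
      |x - u| * (M.O t (φ u)).AA c (M.tg t (φ u) s) s n ≤ c.cw} ≤
    ENNReal.ofReal ((if m0 = s then Real.exp c.lam else Real.exp (-c.cc / 10)) / j ^ 4 *
      (β - α + 2 * ρ))

/-- critical points of an admissible curve form a null set -/
def CRN_s (c : Cs) : Prop := ∀ Ex (M : Mdl) t s x0 φ, M.OK c → TI t → AdmP c Ex M t s x0 φ →
  volume {u | u ∈ Set.Icc (0 : ℝ) 100 ∧ ∃ Ls n,
    (M.O t (φ u)).Run c Ex (M.tg t (φ u) s) s (fun _ _ _ => True) Ls n ∧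
    (M.O t (φ u)).Crit c Ex (M.tg t (φ u) s) n} = 0

/-- T4: output of part T for the construction of the measure -/
def T4_s (c : Cs) : Prop := ∀ Ex (M : Mdl) t, M.OK c → TI t → HH c Ex M t →
  ∃ (T : ℕ → ℝ) (E : ℕ → ℝ → ℝ) (kL : ℝ), (∀ j, 0 ≤ T j) ∧ Summable T ∧ 0 < kL ∧
    (∀ l, 0 < l → Tendsto (fun i => E i l) atTop (𝓝 0)) ∧
    ∀ s x0 φ, Adm c Ex M t s x0 φ → ∀ (α l : ℝ) (i : ℕ), 0 ≤ α → 0 < l → α + l ≤ 100 →
    (∀ ψ : ℝ × ℝ → ℝ, Continuous ψ → (∀ p, 0 ≤ ψ p ∧ ψ p ≤ 1) → ∀ B : ℕ → ℝ,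
      (∀ j, 0 ≤ B j ∧ B j ≤ 100) →
      (∀ (j : ℕ) s' x' φ', Adm c Ex M t s' x' φ' → (i + j : ℤ) ≤ s' →
        ∫ u in (0 : ℝ)..100, ψ (M.pt t (φ' u) (s' - j)) ≤ B j) →
      ∫ u in α..α + l, ψ (M.pt t (φ u) (s + i)) ≤ l * (∑' j, T j * B j + E i l)) ∧
    volume {u | u ∈ Set.Icc α (α + l) ∧ ¬ ∃ x' φ', Adm c Ex M t (s + i) x' φ' ∧
        ∃ u' ∈ Set.Icc (0 : ℝ) 100, φ' u' = φ u} ≤ ENNReal.ofReal (l * (1 / 200 + E i l)) ∧
    (∀ ψ : ℝ × ℝ → ℝ, Continuous ψ → (∀ p, 0 ≤ ψ p ∧ ψ p ≤ 1) → ∀ (m : ℕ) (B : ℝ),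
      (∀ s' x' φ', Adm c Ex M t s' x' φ' → B ≤ ∫ u in (0 : ℝ)..100, ψ (M.pt t (φ' u) (s' + m))) →
      l * (kL * B - E i l) ≤ ∫ u in α..α + l, ψ (M.pt t (φ u) (s + i + m)))

/-- itinerary in the cores: sign `ω k` at time `n - 1 - k` -/
def Itin (c : Cs) (S : Sq) (ω : ℕ → Bool) (n : ℤ) (N : ℕ) : Prop :=
  ∀ k < N, Core c (S.X (n - 1 - k)) ∧ (0 < S.X (n - 1 - k) ↔ ω k = true)

/-- covering: from any admissible curve one can follow any core itinerary and hit any `x` -/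
def COV_s (c : Cs) : Prop := ∀ Ex (M : Mdl) t s x0 φ, M.OK c → TI t → AdmP c Ex M t s x0 φ →
  ∀ (ω : ℕ → Bool) (N : ℕ), ∃ g : ℝ → ℝ, ContinuousOn g (Set.Icc (-2) 2) ∧ ∀ x ∈ Set.Icc (-2 : ℝ) 2,
    g x ∈ Set.Icc (0 : ℝ) 100 ∧ (M.O t (φ (g x))).X (s + 1 + N) = x ∧
    Itin c (M.O t (φ (g x))) ω (s + 1 + N) N ∧ 1 / 2 ≤ |Real.sin ((M.O t (φ (g x))).X s)|

/-- G6, finite stage: a solution bounded on `[n - N, ∞)` after a long core itinerary -/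
def CRIT_s (c : Cs) : Prop := ∀ Ex (M : Mdl) t, M.OK c → TI t → HH c Ex M t → ∀ N : ℕ,
  ∃ v ∈ Set.Icc (0 : ℝ) 100, ∃ ξ : ℤ → ℝ, |(M.O t v).X (1 + N)| ≤ 2 ∧
    Itin c (M.O t v) (fun _ => true) (1 + N) N ∧ (M.O t v).Sol ξ 0 ∧ ξ (1 + N) = 1 ∧
    ∀ j, 0 ≤ j → |ξ j| ≤ 1

/-- a tame fold datum of load `≤ l`: parameter, base point, direction, time -/
structure Fold (c : Cs) (M : Mdl) (V y l : ℝ) (t v : ℝ) (ξ : ℤ → ℝ) (n : ℤ) : Prop where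
  ht : TI t
  hv : v ∈ Set.Icc (0 : ℝ) 100
  out : (M.O t v).Out c ξ n
  tame : (M.O t v).Tame c ξ n y
  fold : |(M.O t v).a n| ≤ c.L / 100
  load : (M.O t v).load c n V ≤ l

end
end Pool.Agent.MP_9cbfe4_an

end

/-! ### Part If3 -/

section

/-! Row statements, parts G and A. -/

namespace Pool.Agent.MP_9cbfe4_an

open Filter Topology MeasureTheory

noncomputable section

def BoxS (c : Cs) : Set P2 := {p | Box c p.1 ∧ Box c p.2}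
/-- histories: `H j u` is the position `j` steps in the past of the point with parameter `u` -/
abbrev Hs := ℕ → C(Set.Icc (0 : ℝ) 100, ℝ)
/-- histories of admissible curves with base time `≥ m` -/
def AdmH (c : Cs) (Ex : ExT) (M : Mdl) (t : ℝ) (m : ℕ) : Set Hs :=
  {H | ∃ s x0 φ, Adm c Ex M t s x0 φ ∧ (m : ℤ) ≤ s ∧ ∀ (j : ℕ) u, H j u = (M.O t (φ u)).X (s - j)}
def Ab (c : Cs) (Ex : ExT) (M : Mdl) (t : ℝ) : Set Hs := ⋂ m, closure (AdmH c Ex M t m)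
def pr (u : ℝ) : Set.Icc (0 : ℝ) 100 := Set.projIcc 0 100 (by norm_num) u
def hpt (H : Hs) (j : ℕ) (u : ℝ) : P2 := (H j (pr u), H (j + 1) (pr u))
/-- limits of points of admissible curves with long history -/
def Gs (c : Cs) (Ex : ExT) (M : Mdl) (t : ℝ) : Set P2 := {p | ∃ H ∈ Ab c Ex M t, ∃ u, p = hpt H 0 u}
/-- `ξ j` is a backward solution along the history (index `j` = `j` steps in the past) -/
def BSol (M : Mdl) (t : ℝ) (Y : ℕ → ℝ) (ξ : ℕ → ℝ) : Prop :=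
  ∀ j, ξ j = M.Ga t (Y (j + 1)) (Y (j + 2)) * ξ (j + 1) + M.Gb t (Y (j + 1)) (Y (j + 2)) * ξ (j + 2)

/-- closed properties of the limit curves -/
structure AbP (c : Cs) (Ex : ExT) (M : Mdl) (t : ℝ) : Prop where
  cpt : IsCompact (Ab c Ex M t)
  ne : (Ab c Ex M t).Nonempty
  geo : ∀ H ∈ Ab c Ex M t, (∀ j u, Box c (H j u)) ∧ (∀ j u, H j u = M.G t (H (j + 1) u) (H (j + 2) u)) ∧
    (∀ u u', H 0 u' - H 0 u = (u' : ℝ) - u) ∧ (∀ j u u', |H j u' - H j u| ≤ |(u' : ℝ) - u|) ∧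
    ∀ u, 4 / 100 ≤ dP (H 1 u)
  tan : ∀ H ∈ Ab c Ex M t, ∀ u, ∃ ξ : ℕ → ℝ, BSol M t (fun j => H j u) ξ ∧ ξ 0 = 1 ∧
    (∀ j, 1 ≤ j → |ξ j| ≤ Real.exp (-c.lam / 5) ∧
      (∏ l ∈ Finset.range j, M.Gb t (H l u) (H (l + 1) u)) * |ξ j| ≤ 100 * Real.exp (-(j : ℝ) / 2)) ∧
    ∀ u' (j : ℕ) (B : ℝ), (∀ l, j ≤ l → l ≤ 2 * j → |ξ l| ≤ B) →
      |H j u' - H j u| ≤ 10 ^ 4 * (B + Real.exp (-(j : ℝ) / 4))
  dyn : ∃ (T : ℕ → ℝ) (kL : ℝ), (∀ j, 0 ≤ T j) ∧ Summable T ∧ 0 < kL ∧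
    ∀ H ∈ Ab c Ex M t, ∀ α l : ℝ, 0 ≤ α → 0 < l → α + l ≤ 100 →
    (∀ ψ : P2 → ℝ, Continuous ψ → (∀ p, 0 ≤ ψ p ∧ ψ p ≤ 1) → ∀ B : ℕ → ℝ, (∀ j, B j ≤ 100) →
      (∀ j, ∀ H' ∈ Ab c Ex M t, ∫ u in (0 : ℝ)..100, ψ (hpt H' j u) ≤ B j) → ∀ e > 0, ∀ᶠ i in atTop,
      ∫ u in α..α + l, ψ ((M.f t)^[i] (hpt H 0 u)) ≤ l * (∑' j, T j * B j + e)) ∧
    (∀ ψ : P2 → ℝ, Continuous ψ → (∀ p, 0 ≤ ψ p ∧ ψ p ≤ 1) → (∀ p ∈ Gs c Ex M t, ψ p = 1) →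
      ∀ᶠ i in atTop, l * (99 / 100) ≤ ∫ u in α..α + l, ψ ((M.f t)^[i] (hpt H 0 u))) ∧
    (∀ ψ : P2 → ℝ, Continuous ψ → (∀ p, 0 ≤ ψ p ∧ ψ p ≤ 1) → ∀ (m : ℕ) (B : ℝ),
      (∀ s' x' φ', Adm c Ex M t s' x' φ' → B ≤ ∫ u in (0 : ℝ)..100, ψ (M.pt t (φ' u) (s' + m))) →
      ∀ e > 0, ∀ᶠ i in atTop,
      l * (kL * B - e) ≤ ∫ u in α..α + l, ψ ((M.f t)^[i] (hpt H 0 u)))

def G0_s (c : Cs) : Prop := ∀ Ex (M : Mdl) t, M.OK c → TI t → HH c Ex M t → AbP c Ex M t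

/-- the measure: ergodic, dominated by the limit curves, charging what the curves charge -/
structure Msr (c : Cs) (Ex : ExT) (M : Mdl) (t : ℝ) (μ : Measure P2) : Prop where
  prob : IsProbabilityMeasure μ
  box : μ (BoxS c)ᶜ = 0
  erg : ∀ f : P2 → P2, Measurable f → Set.EqOn f (M.f t) (BoxS c) → Ergodic f μ
  gs : (99 / 100 : ℝ) ≤ μ.real (Gs c Ex M t)
  null : ∀ A, MeasurableSet A → (∀ j, ∀ H ∈ Ab c Ex M t, volume {u | u ∈ Set.Icc (0 : ℝ) 100 ∧ hpt H j u ∈ A} = 0) → μ A = 0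
  low : ∀ ψ : P2 → ℝ, Continuous ψ → (∀ p, 0 ≤ ψ p ∧ ψ p ≤ 1) → ∀ (m : ℕ) (B : ℝ), 0 < B →
    (∀ s' x' φ', Adm c Ex M t s' x' φ' → B ≤ ∫ u in (0 : ℝ)..100, ψ (M.pt t (φ' u) (s' + m))) →
    0 < ∫ p, ψ p ∂μ

/-- G1-G3 -/
def G3_s (c : Cs) : Prop := ∀ Ex (M : Mdl) t, M.OK c → TI t → AbP c Ex M t → ∃ μ, Msr c Ex M t μ

/-- full orbit in the box through `p`: `(Y 0, Y (-1)) = p` -/
def FullOrb (c : Cs) (M : Mdl) (t : ℝ) (p : P2) (Y : ℤ → ℝ) : Prop :=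
  p = (Y 0, Y (-1)) ∧ ∀ j, Box c (Y j) ∧ Y (j + 1) = M.G t (Y j) (Y (j - 1))
def FSol (M : Mdl) (t : ℝ) (Y ξ : ℤ → ℝ) : Prop :=
  ∀ j, ξ (j + 1) = M.Ga t (Y j) (Y (j - 1)) * ξ j + M.Gb t (Y j) (Y (j - 1)) * ξ (j - 1)

/-- `A` meets a curve of exponentially asymptotic pasts in positive length -/
def UCurve (c : Cs) (M : Mdl) (t : ℝ) (A : Set P2) : Prop :=
  ∃ (Y : ℝ → ℤ → ℝ) (j : ℕ) (C e : ℝ), 0 < e ∧
    (∀ u ∈ Set.Icc (0 : ℝ) 100, FullOrb c M t (Y u 0, Y u (-1)) (Y u) ∧ ∀ u' ∈ Set.Icc (0 : ℝ) 100,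
      Y u' j - Y u j = u' - u ∧ (∀ i, i ≤ (j : ℤ) → |Y u' i - Y u i| ≤ |u' - u|) ∧
      ∀ n : ℕ, |Y u' (-n) - Y u (-n)| ≤ C * Real.exp (-e * n)) ∧
    volume {u | u ∈ Set.Icc (0 : ℝ) 100 ∧ (Y u 0, Y u (-1)) ∈ A} ≠ 0

/-- the result in normal-form coordinates -/
structure NFRes (c : Cs) (M : Mdl) (t d : ℝ) (μ : Measure P2) : Prop where
  prob : IsProbabilityMeasure μ
  box : μ (BoxS c)ᶜ = 0
  erg : ∀ f : P2 → P2, Measurable f → Set.EqOn f (M.f t) (BoxS c) → Ergodic f μ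
  hyp : ∀ᵐ p ∂μ, ∃ Y, FullOrb c M t p Y ∧
    (∃ ξ C e, FSol M t Y ξ ∧ 0 < C ∧ 0 < e ∧
      ∀ n : ℕ, C * Real.exp (e * n) ≤ max |ξ n| |ξ (n - 1)|) ∧
    (∃ ξ C e, FSol M t Y ξ ∧ (ξ 0, ξ (-1)) ≠ 0 ∧ 0 < e ∧
      ∀ n : ℕ, max |ξ n| |ξ (n - 1)| ≤ C * Real.exp (-e * n))
  srb : ∀ A, MeasurableSet A → μ A ≠ 0 → UCurve c M t A
  dim : ENNReal.ofReal d ≤ dimH μ.support
  nuh : ∃ p ∈ μ.support, ∃ Y ξ, FullOrb c M t p Y ∧ FSol M t Y ξ ∧ ξ 0 = 1 ∧ ∀ j, |ξ j| ≤ 1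

/-- G4 -/
def G4_s (c : Cs) : Prop := ∀ Ex (M : Mdl) t μ, M.OK c → TI t → AbP c Ex M t → Msr c Ex M t μ →
  (∀ᵐ p ∂μ, ∃ Y, FullOrb c M t p Y ∧
    (∃ ξ C e, FSol M t Y ξ ∧ 0 < C ∧ 0 < e ∧
      ∀ n : ℕ, C * Real.exp (e * n) ≤ max |ξ n| |ξ (n - 1)|) ∧
    (∃ ξ C e, FSol M t Y ξ ∧ (ξ 0, ξ (-1)) ≠ 0 ∧ 0 < e ∧
      ∀ n : ℕ, max |ξ n| |ξ (n - 1)| ≤ C * Real.exp (-e * n))) ∧
  ∀ A, MeasurableSet A → μ A ≠ 0 → UCurve c M t A

/-- points of the unstable set of the horseshoe -/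
def Ku (c : Cs) (M : Mdl) (t : ℝ) (ω : ℕ → Bool) (x : ℝ) : Set P2 :=
  {p | ∃ Y, FullOrb c M t p Y ∧ Y 0 = x ∧
    ∀ k : ℕ, Core c (Y (-1 - k)) ∧ (0 < Y (-1 - k) ↔ ω k = true)}

/-- G5: the horseshoe leaves lie in the support -/
def G5_s (c : Cs) : Prop := ∀ Ex (M : Mdl) t μ, M.OK c → TI t → Msr c Ex M t μ →
  ∀ ω, ∀ x ∈ Set.Icc (-2 : ℝ) 2, (Ku c M t ω x).Nonempty ∧ Ku c M t ω x ⊆ μ.support

/-- dimension of the horseshoe leaves -/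
def DIM_s (d : ℝ) (c : Cs) : Prop := d < 1 + Real.log 2 / c.chK → ∀ (M : Mdl) t (K : Set P2),
  M.OK c → TI t → (∀ ω, ∀ x ∈ Set.Icc (-2 : ℝ) 2, (Ku c M t ω x).Nonempty ∧ Ku c M t ω x ⊆ K) →
  ENNReal.ofReal d ≤ dimH K

/-- G6 -/
def G6_s (c : Cs) : Prop := ∀ Ex (M : Mdl) t, M.OK c → TI t → HH c Ex M t →
  ∃ x ∈ Set.Icc (-2 : ℝ) 2, ∃ p ∈ Ku c M t (fun _ => true) x, ∃ Y ξ,
    FullOrb c M t p Y ∧ FSol M t Y ξ ∧ ξ 0 = 1 ∧ ∀ j, |ξ j| ≤ 1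

/-- the normal form `M` of the family `F`: `Φ t z = ((F (t, z)).2, z.2)` conjugates -/
structure NormalForm (c : Cs) (F : ℝ × P2 → P2) (M : Mdl) : Prop where
  ok : M.OK c
  conj : ∀ t, TI t → ∃ Ψ : P2 → P2, ContDiffOn ℝ 1 Ψ (Metric.ball 0 (2 * c.L + 1)) ∧
    (∀ p ∈ BoxS c, F (t, Ψ p) = Ψ (M.f t p)) ∧
    (∃ K : ℝ, ∀ p ∈ BoxS c, ∀ q ∈ BoxS c, dist p q ≤ K * dist (Ψ p) (Ψ q)) ∧
    ∀ p ∈ BoxS c, Function.Injective (fderiv ℝ Ψ p)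

/-- transfer to the original coordinates, with the conditional-measure form of SRB -/
def TR_s : Prop := ∀ (c : Cs) F M t d μ, 0 < c.L → SmoothFamily F → NormalForm c F M → TI t →
  NFRes c M t d μ → HasNUH d fun z => F (t, z)

end
end Pool.Agent.MP_9cbfe4_an

end

/-! ### Part Hier -/

section

/-! Toolkit for `Hier`. -/

namespace Pool.Agent.MP_9cbfe4_an

open Filter Topology

theorem Hier.and {P Q : Cs → Prop} (h : Hier P) (h' : Hier Q) : Hier fun c => P c ∧ Q c := by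
  intro k0 θb κ CG h1 h2 h3 h4 h5 h6
  filter_upwards [h k0 θb κ CG h1 h2 h3 h4 h5 h6, h' k0 θb κ CG h1 h2 h3 h4 h5 h6] with _ a b
  filter_upwards [a, b] with _ a b
  filter_upwards [a, b] with _ a b
  filter_upwards [a, b] with _ a b
  filter_upwards [a, b] with _ a b
  filter_upwards [a, b] with _ a b
  filter_upwards [a, b] with _ a b
  filter_upwards [a, b] with _ a b
  filter_upwards [a, b] with _ a b
  exact ⟨a, b⟩

theorem Hier.mono {P Q : Cs → Prop} (h : Hier P) (hpq : ∀ c, P c → Q c) : Hier Q := by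
  intro k0 θb κ CG h1 h2 h3 h4 h5 h6
  exact (h k0 θb κ CG h1 h2 h3 h4 h5 h6).mono fun _ a => a.mono fun _ a => a.mono fun _ a =>
    a.mono fun _ a => a.mono fun _ a => a.mono fun _ a => a.mono fun _ a => a.mono fun _ a =>
    a.mono fun _ a => hpq _ a

theorem Hier.of_all {P : Cs → Prop} (h : ∀ c, P c) : Hier P := by
  intro k0 θb κ CG _ _ _ _ _ _
  simp [h]

theorem Hier.mp {P Q : Cs → Prop} (h : Hier fun c => P c → Q c) (h' : Hier P) : Hier Q :=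
  (h.and h').mono fun _ x => x.1 x.2

theorem Hier.exists {P : Cs → Prop} (h : Hier P) {k0 θb κ CG : ℝ} (h1 : 1 / 16 ≤ k0) (h2 : k0 < 1 / 2)
    (h3 : 0 < θb) (h4 : θb < 1) (h5 : 0 < κ) (h6 : 1 ≤ CG) :
    ∃ c : Cs, c.k0 = k0 ∧ c.θb = θb ∧ c.κ = κ ∧ c.CG = CG ∧ P c := by
  obtain ⟨_, a⟩ := (h k0 θb κ CG h1 h2 h3 h4 h5 h6).exists
  obtain ⟨_, a⟩ := a.exists
  obtain ⟨_, a⟩ := a.exists
  obtain ⟨_, a⟩ := a.exists
  obtain ⟨_, a⟩ := a.exists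
  obtain ⟨_, a⟩ := a.exists
  obtain ⟨_, a⟩ := a.exists
  obtain ⟨_, a⟩ := a.exists
  obtain ⟨_, a⟩ := a.exists
  exact ⟨_, rfl, rfl, rfl, rfl, a⟩

theorem Hier.base : Hier fun c =>
    1 / 16 ≤ c.k0 ∧ c.k0 < 1 / 2 ∧ 0 < c.θb ∧ c.θb < 1 ∧ 0 < c.κ ∧ 1 ≤ c.CG := by
  intro k0 θb κ CG h1 h2 h3 h4 h5 h6
  simp [h1, h2, h3, h4, h5, h6, -one_div]

/-- any property that holds for large `L` once the other constants satisfy `Q` -/
theorem Hier.ofL {P Q : Cs → Prop} (hQ : Hier Q)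
    (h : ∀ c, Q c → ∀ᶠ L in atTop, P { c with L := L }) : Hier P := by
  intro k0 θb κ CG h1 h2 h3 h4 h5 h6
  refine (hQ k0 θb κ CG h1 h2 h3 h4 h5 h6).mono fun _ a => a.mono fun _ a => a.mono fun _ a =>
    a.mono fun _ a => a.mono fun _ a => a.mono fun _ a => a.mono fun _ a => a.mono fun _ a => ?_
  obtain ⟨L0, hL⟩ := a.exists
  exact h _ hL

/-- `f ≤ lam` for `f` not depending on `L`; use `Hier.lam_ge (fun c => ..) fun _ _ => rfl` -/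
theorem Hier.lam_ge (f : Cs → ℝ) (hf : ∀ c L, f { c with L := L } = f c) :
    Hier fun c => f c ≤ c.lam :=
  Hier.ofL (Hier.of_all fun _ => trivial) fun c _ => by
    filter_upwards [Real.tendsto_log_atTop.eventually_ge_atTop (f c)] with L hL
    rw [hf]; exact hL

theorem Hier.L_ge (f : Cs → ℝ) (hf : ∀ c L, f { c with L := L } = f c) :
    Hier fun c => f c ≤ c.L :=
  Hier.ofL (Hier.of_all fun _ => trivial) fun c _ => by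
    filter_upwards [eventually_ge_atTop (f c)] with L hL
    rw [hf]; exact hL

/-- `K lam^n ≤ exp (s lam)` for `K`, `s > 0` not depending on `L` -/
theorem Hier.pow_le_exp (K s : Cs → ℝ) (n : ℕ) (hK : ∀ c L, K { c with L := L } = K c)
    (hs : ∀ c L, s { c with L := L } = s c) (hpos : Hier fun c => 0 < s c) :
    Hier fun c => K c * c.lam ^ n ≤ Real.exp (s c * c.lam) :=
  Hier.ofL hpos fun c hc => by
    have h1 := (tendsto_exp_mul_div_rpow_atTop (n : ℝ) (s c) hc).comp Real.tendsto_log_atTop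
    filter_upwards [h1.eventually_ge_atTop (K c), Real.tendsto_log_atTop.eventually_gt_atTop 0]
      with L hL h0
    rw [hK, hs]
    simp only [Function.comp, Real.rpow_natCast] at hL
    rw [le_div_iff₀ (pow_pos h0 n)] at hL
    exact hL

theorem Hier.β_ge (f : Cs → ℝ) (hf : ∀ c x L, f { c with β := x, L := L } = f c) :
    Hier fun c => f c ≤ c.β := by
  intro k0 θb κ CG _ _ _ _ _ _
  refine .of_forall fun C0 => .of_forall fun C1 => .of_forall fun e3 => .of_forall fun ε =>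
    .of_forall fun a => .of_forall fun d1 => .of_forall fun M1 => ?_
  filter_upwards [eventually_ge_atTop (f ⟨k0, θb, κ, CG, C0, C1, e3, ε, a, d1, M1, 0, 0⟩)] with x hx
  exact .of_forall fun L => (hf ⟨k0, θb, κ, CG, C0, C1, e3, ε, a, d1, M1, 0, 0⟩ x L).trans_le hx

theorem Hier.M1_ge (f : Cs → ℝ) (hf : ∀ c x y L, f { c with M1 := x, β := y, L := L } = f c) :
    Hier fun c => f c ≤ c.M1 := by
  intro k0 θb κ CG _ _ _ _ _ _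
  refine .of_forall fun C0 => .of_forall fun C1 => .of_forall fun e3 => .of_forall fun ε =>
    .of_forall fun a => .of_forall fun d1 => ?_
  filter_upwards [eventually_ge_atTop (f ⟨k0, θb, κ, CG, C0, C1, e3, ε, a, d1, 0, 0, 0⟩)] with x hx
  exact .of_forall fun y => .of_forall fun L =>
    (hf ⟨k0, θb, κ, CG, C0, C1, e3, ε, a, d1, 0, 0, 0⟩ x y L).trans_le hx

theorem ev_small {y : ℝ} (hy : 0 < y) : ∀ᶠ x in 𝓝[>] (0 : ℝ), 0 < x ∧ x ≤ y := by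
  filter_upwards [Ioc_mem_nhdsGT hy] with x hx using hx

theorem Hier.d1_le (f : Cs → ℝ)
    (hf : ∀ c w x y L, f { c with d1 := w, M1 := x, β := y, L := L } = f c)
    (hpos : Hier fun c => 0 < f c) : Hier fun c => 0 < c.d1 ∧ c.d1 ≤ f c := by
  intro k0 θb κ CG h1 h2 h3 h4 h5 h6
  refine (hpos k0 θb κ CG h1 h2 h3 h4 h5 h6).mono fun C0 a => a.mono fun C1 a => a.mono fun e3 a =>
    a.mono fun ε a => a.mono fun a0 a => ?_
  obtain ⟨w, a⟩ := a.exists; obtain ⟨x, a⟩ := a.exists; obtain ⟨y, a⟩ := a.exists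
  obtain ⟨L, a⟩ := a.exists
  filter_upwards [ev_small a] with w' hw
  exact .of_forall fun x' => .of_forall fun y' => .of_forall fun L' =>
    ⟨hw.1, hw.2.trans_eq (hf ⟨k0, θb, κ, CG, C0, C1, e3, ε, a0, w, x, y, L⟩ w' x' y' L').symm⟩

theorem Hier.a_le (f : Cs → ℝ)
    (hf : ∀ c v w x y L, f { c with a := v, d1 := w, M1 := x, β := y, L := L } = f c)
    (hpos : Hier fun c => 0 < f c) : Hier fun c => 0 < c.a ∧ c.a ≤ f c := by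
  intro k0 θb κ CG h1 h2 h3 h4 h5 h6
  refine (hpos k0 θb κ CG h1 h2 h3 h4 h5 h6).mono fun C0 a => a.mono fun C1 a => a.mono fun e3 a =>
    a.mono fun ε a => ?_
  obtain ⟨v, a⟩ := a.exists
  obtain ⟨w, a⟩ := a.exists; obtain ⟨x, a⟩ := a.exists; obtain ⟨y, a⟩ := a.exists
  obtain ⟨L, a⟩ := a.exists
  filter_upwards [ev_small a] with v' hw
  exact .of_forall fun w' => .of_forall fun x' => .of_forall fun y' => .of_forall fun L' =>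
    ⟨hw.1, hw.2.trans_eq (hf ⟨k0, θb, κ, CG, C0, C1, e3, ε, v, w, x, y, L⟩ v' w' x' y' L').symm⟩

theorem Hier.e3_le (f : Cs → ℝ)
    (hf : ∀ c e u v w x y L,
      f { c with e3 := e, ε := u, a := v, d1 := w, M1 := x, β := y, L := L } = f c)
    (hpos : Hier fun c => 0 < f c) : Hier fun c => 0 < c.e3 ∧ c.e3 ≤ f c := by
  intro k0 θb κ CG h1 h2 h3 h4 h5 h6
  refine (hpos k0 θb κ CG h1 h2 h3 h4 h5 h6).mono fun C0 a => a.mono fun C1 a => ?_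
  obtain ⟨e, a⟩ := a.exists; obtain ⟨u, a⟩ := a.exists; obtain ⟨v, a⟩ := a.exists
  obtain ⟨w, a⟩ := a.exists; obtain ⟨x, a⟩ := a.exists; obtain ⟨y, a⟩ := a.exists
  obtain ⟨L, a⟩ := a.exists
  filter_upwards [ev_small a] with e' hw
  exact .of_forall fun u' => .of_forall fun v' => .of_forall fun w' => .of_forall fun x' =>
    .of_forall fun y' => .of_forall fun L' =>
    ⟨hw.1, hw.2.trans_eq (hf ⟨k0, θb, κ, CG, C0, C1, e, u, v, w, x, y, L⟩ e' u' v' w' x' y' L').symm⟩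

theorem Hier.ε_eq : Hier fun c => c.ε = c.e3 ^ 20 := by
  intro k0 θb κ CG _ _ _ _ _ _
  simp

/-- `ε ≤ f * e3 ^ k` for `k ≤ 19` and `f > 0` depending on `k0 θb κ CG C0 C1` only -/
theorem Hier.ε_le_pow (f : Cs → ℝ) (k : ℕ) (hk : k ≤ 19)
    (hf : ∀ c e u v w x y L,
      f { c with e3 := e, ε := u, a := v, d1 := w, M1 := x, β := y, L := L } = f c)
    (hpos : Hier fun c => 0 < f c) : Hier fun c => 0 < c.ε ∧ c.ε ≤ f c * c.e3 ^ k := by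
  refine ((Hier.ε_eq.and (Hier.e3_le f hf hpos)).and
    (Hier.e3_le (fun _ => 1) (fun _ _ _ _ _ _ _ _ => rfl) (Hier.of_all fun _ => one_pos))).mono ?_
  rintro c ⟨⟨h, h0, h1⟩, -, h2⟩
  rw [h]
  refine ⟨by positivity, ?_⟩
  obtain e : c.e3 ^ 20 = c.e3 * c.e3 ^ (19 - k) * c.e3 ^ k := by
    rw [mul_assoc, ← pow_add, show 19 - k + k = 19 by omega]; ring
  rw [e]
  have h3 : c.e3 ^ (19 - k) ≤ 1 := pow_le_one₀ h0.le h2
  have h4 : c.e3 * c.e3 ^ (19 - k) ≤ f c := (mul_le_of_le_one_right h0.le h3).trans h1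
  exact mul_le_mul_of_nonneg_right h4 (by positivity)

/-- `f k0 θb κ CG C0 ≤ C1` -/
theorem Hier.C1_ge (f : ℝ → ℝ → ℝ → ℝ → ℝ → ℝ) : Hier fun c => f c.k0 c.θb c.κ c.CG c.C0 ≤ c.C1 := by
  intro k0 θb κ CG _ _ _ _ _ _
  refine .of_forall fun C0 => ?_
  filter_upwards [eventually_ge_atTop (f k0 θb κ CG C0)] with x hx
  simp [hx]

theorem Hier.C0_ge (f : ℝ → ℝ → ℝ → ℝ → ℝ) : Hier fun c => f c.k0 c.θb c.κ c.CG ≤ c.C0 := by
  intro k0 θb κ CG _ _ _ _ _ _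
  filter_upwards [eventually_ge_atTop (f k0 θb κ CG)] with x hx
  simp [hx]

end Pool.Agent.MP_9cbfe4_an

end

/-! ### Part SI1 -/

section

/-! Section S, part 1: model-free a priori estimates for the linear recursion.
The fold time is `0`, the history is `[s - 1, 0]`, the future is `[0, J]`. -/

namespace Pool.Agent.MP_9cbfe4_an

open Finset

noncomputable section

namespace Sq
variable (S : Sq)

/-- true contraction from `i` to `j` -/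
def kp (w : ℤ → ℝ) (i j : ℤ) : ℝ := S.Pb i j * w i / w j
/-- defect of `Y` in the recursion at step `j` -/
def df (Y : ℤ → ℝ) (j : ℤ) : ℝ := Y (j + 1) - S.a j * Y j - S.b j * Y (j - 1)
/-- local size of `Y` at step `j` -/
def sz (Y : ℤ → ℝ) (j : ℤ) : ℝ := |Y j| + S.b j * |Y (j - 1)|

/-- history certificate on `[s - 1, 0]` -/
structure HC (E : ℕ) (ξ w μ : ℤ → ℝ) (s : ℤ) : Prop where
  s0 : s ≤ 0
  sol : ∀ j, s ≤ j → j < 0 → ξ (j + 1) = S.a j * ξ j + S.b j * ξ (j - 1)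
  one : ξ 0 = 1
  maj : ∀ j, s - 1 ≤ j → j ≤ 0 → |ξ j| ≤ w j
  w0 : w 0 ≤ 4
  wpos : ∀ j, s - 1 ≤ j → j ≤ 0 → 0 < w j
  bpos : ∀ j, s ≤ j → j ≤ 0 → 0 < S.b j
  ale : ∀ j, s ≤ j → j ≤ 0 → |S.a j| ≤ μ j
  big : ∀ j, s - 1 ≤ j → j ≤ 0 → 1000 ≤ μ j
  mono : ∀ i j, s - 1 ≤ i → i ≤ j → j ≤ 0 → μ j ≤ μ i
  len : ∀ i, s - 1 ≤ i → i ≤ 0 → 2 - (i : ℝ) ≤ μ i
  wle : ∀ i j, s - 1 ≤ i → i ≤ j → j ≤ 0 → w i ≤ μ i * w j
  fwd : ∀ j, s - 1 ≤ j → j < 0 → w (j + 1) ≤ μ (j + 1) * w j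
  frle : ∀ i j, s - 1 ≤ i → i < j → j ≤ 0 → |S.fr (i + 1) j| * w i ≤ μ i * w j
  kap : ∀ e ≤ E, ∀ i j, s - 1 ≤ i → i ≤ j → j ≤ 0 →
    S.kp w i j * μ i ^ e ≤ μ j ^ (e + 1) * (3 / 4) ^ (j - i).toNat
  bmu : ∀ e ≤ E, ∀ j, s ≤ j → j ≤ 0 → S.b j * μ (j - 1) ^ e ≤ μ j ^ (e + 1)

/-- forward certificate on `[0, J]` with decay profile `D` -/
structure FC (E : ℕ) (μ D : ℤ → ℝ) (J : ℤ) : Prop where
  J1 : 1 ≤ J
  bpos : ∀ j, 1 ≤ j → j ≤ J → 0 < S.b j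
  ble : ∀ j, 1 ≤ j → j ≤ J → S.b j ≤ μ j
  ale : ∀ j, 1 ≤ j → j ≤ J → |S.a j| ≤ μ j
  big : ∀ j, 0 ≤ j → j ≤ J → 1000 ≤ μ j
  mono : ∀ i j, 0 ≤ i → i ≤ j → j ≤ J → μ i ≤ μ j
  len : ∀ j, 0 ≤ j → j ≤ J → (j : ℝ) + 2 ≤ μ j
  frle : ∀ i j, 0 ≤ i → i < j → j ≤ J → |S.fr (i + 1) j| ≤ μ j
  frJ : ∀ i, 0 ≤ i → i < J → |S.fr (i + 1) J| ≤ μ i * |S.fr 1 J|
  D0 : D 0 = 1
  Dpos : ∀ j, 0 ≤ j → j ≤ J → 0 < D j
  PbD : ∀ i j, 0 ≤ i → i ≤ j → j ≤ J → S.Pb i j * D i ≤ μ j * D j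
  dec : ∀ e ≤ E, ∀ j i, 0 ≤ j → j ≤ i → i ≤ J →
    μ i ^ e * D i ≤ μ j ^ e * D j * (3 / 4) ^ (i - j).toNat

/-- both certificates, and the gain `δ` at the fold -/
structure CT (E : ℕ) (ξ w μ D : ℤ → ℝ) (s J : ℤ) (Λ L δ : ℝ) : Prop where
  hc : S.HC E ξ w μ s
  fc : S.FC E μ D J
  top : ∀ j, s - 1 ≤ j → j ≤ J → μ j ≤ Λ
  Dneg : ∀ j, j ≤ 0 → D j = 1
  L1 : 1000 ≤ L
  Lmu : L ≤ μ 0
  g0 : S.b 0 * μ (-1) ^ E ≤ δ
  g1 : μ 1 ^ E * D 1 ≤ δ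
  g2 : δ * μ 0 ^ E ≤ 1
end Sq

/-- history boundary value problem -/
def APH_s : Prop := ∀ (S : Sq) (E e : ℕ) (ξ w μ Y : ℤ → ℝ) (s : ℤ) (Λ α β r : ℝ),
  S.HC E ξ w μ s → μ (s - 1) ≤ Λ → e + 10 ≤ E → 0 ≤ α → 0 ≤ β → 0 ≤ r → r * Λ ^ 10 ≤ 1 →
  (∀ j, s ≤ j → j < 0 → |S.df Y j| ≤ α * μ j ^ e + β * S.kp w (s - 1) j + r * S.sz Y j) →
  |ξ s * Y (s - 1) - ξ (s - 1) * Y s| ≤ β * w (s - 1) →
  |Y 0| ≤ α * μ 0 ^ e + β * S.kp w (s - 1) 0 →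
  ∀ j, s - 1 ≤ j → j ≤ 0 → |Y j| ≤ α * μ j ^ (e + 7) + β * Λ ^ 7 * S.kp w (s - 1) j

/-- the same relative to the majorant `w` -/
def APW_s : Prop := ∀ (S : Sq) (E : ℕ) (ξ w μ Y : ℤ → ℝ) (s : ℤ) (Λ α r : ℝ),
  S.HC E ξ w μ s → μ (s - 1) ≤ Λ → 0 ≤ α → 0 ≤ r → r * Λ ^ 10 ≤ 1 →
  (∀ j, s ≤ j → j < 0 → |S.df Y j| ≤ α * w j + r * S.sz Y j) →
  ξ s * Y (s - 1) = ξ (s - 1) * Y s → |Y 0| ≤ α →
  ∀ j, s - 1 ≤ j → j ≤ 0 → |Y j| ≤ α * Λ ^ 7 * w j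

/-- backward estimate -/
def APB_s : Prop := ∀ (S : Sq) (E : ℕ) (ξ w μ Z : ℤ → ℝ) (s : ℤ) (Λ α r : ℝ),
  S.HC E ξ w μ s → μ (s - 1) ≤ Λ → 0 ≤ α → 0 ≤ r → r * Λ ^ 10 ≤ 1 →
  (∀ j, s ≤ j → j < 0 → |S.df Z j| ≤ α + r * S.sz Z j) → Z 0 = 0 →
  ∀ l, s - 1 ≤ l → l ≤ 0 → |Z l| * S.kp w l 0 ≤ Λ ^ 7 * (S.b 0 * |Z (-1)| + α)

/-- forward initial value problem, on any initial part `[0, m]` of `[0, J]` -/
def APF1_s : Prop := ∀ (S : Sq) (E e : ℕ) (μ D Y : ℤ → ℝ) (J m : ℤ) (Λ α r : ℝ),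
  S.FC E μ D J → μ J ≤ Λ → 1 ≤ m → m ≤ J → 0 ≤ α → 0 ≤ r → r * Λ ^ 10 ≤ 1 →
  (∀ j, 1 ≤ j → j < m → |S.df Y j| ≤ α * μ j ^ e + r * S.sz Y j) →
  |Y 0| ≤ α * μ 0 ^ e → |Y 1| ≤ α * μ 1 ^ e →
  ∀ j, 0 ≤ j → j ≤ m → |Y j| ≤ α * μ j ^ (e + 7)

/-- forward boundary value problem -/
def APF2_s : Prop := ∀ (S : Sq) (E e : ℕ) (μ D Y : ℤ → ℝ) (J : ℤ) (Λ α γ r : ℝ),
  S.FC E μ D J → μ J ≤ Λ → e + 10 ≤ E → 0 ≤ α → 0 ≤ γ → 0 ≤ r → r * Λ ^ 10 ≤ 1 →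
  (∀ j, 1 ≤ j → j < J → |S.df Y j| ≤ α * μ j ^ e * D j + γ + r * S.sz Y j) →
  Y 0 = 0 → |Y J| ≤ γ →
  ∀ j, 0 ≤ j → j ≤ J → |Y j| ≤ α * μ j ^ (e + 7) * D j + γ * Λ ^ 7

/-- the linearised seed system: `x` positions, `p` tangent; `p 0 = 0` -/
def LS_s : Prop := ∀ (S : Sq) (E e k : ℕ) (ξ w μ D x p : ℤ → ℝ) (s J : ℤ) (Λ L δ α α0 β γ r : ℝ),
  S.CT E ξ w μ D s J Λ L δ → e + k + 50 ≤ E → 0 ≤ α → 0 ≤ α0 → 0 ≤ β → 0 ≤ γ → 0 ≤ r →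
  r * Λ ^ 10 ≤ 1 →
  (∀ j, s ≤ j → j < J →
    |S.df x j| ≤ α * μ j ^ e + β * S.kp w (s - 1) (min j 0) + γ + r * S.sz x j) →
  (∀ j, s ≤ j → j < J → j ≠ 0 → |S.df p j| ≤ α * μ j ^ e * D j + β * S.kp w (s - 1) (min j 0) + γ
    + μ j ^ k * D j * S.sz x j + r * S.sz p j) →
  L / 2 * |x 0| ≤ α0 + |p 1| + 2 * S.b 0 * |p (-1)| + μ 0 ^ k * S.b 0 * |x (-1)| →
  |ξ s * x (s - 1) - ξ (s - 1) * x s| ≤ β * w (s - 1) →
  |ξ s * p (s - 1) - ξ (s - 1) * p s| ≤ β * w (s - 1) → p 0 = 0 → |p J| ≤ γ →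
  L * |x 0| ≤ 5 / 2 * α0 + 20 * δ * α + Λ ^ (k + 30) * (β * S.kp w (s - 1) 0 + γ) ∧
  ∀ j, s - 1 ≤ j → j ≤ J →
    |x j| ≤ (α + |x 0|) * μ j ^ (e + 20) + Λ ^ (e + 30) * (β * S.kp w (s - 1) (min j 0) + γ) ∧
    |p j| ≤ (α + |x 0|) * μ j ^ (e + k + 30) * D j
      + Λ ^ (e + k + 40) * (β * S.kp w (s - 1) (min j 0) + γ)

end
end Pool.Agent.MP_9cbfe4_an

end

/-! ### Part SI2 -/

section

/-! Section S, part 2: one step of the recursion, model-free calculus. -/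

namespace Pool.Agent.MP_9cbfe4_an.SS

open Finset
open scoped ContDiff Nat

noncomputable section

abbrev R3 := ℝ × ℝ × ℝ
/-- gauge of a tangent vector -/
def pg (dl b : ℝ) (v : R3) : ℝ := max (dl * |v.1|) (max |v.2.1| (b * |v.2.2|))
def gt (g : R3 → ℝ) (z : R3) : ℝ := fderiv ℝ g z (1, 0, 0)
def ga (g : R3 → ℝ) (z : R3) : ℝ := fderiv ℝ g z (0, 1, 0)
def gb (g : R3 → ℝ) (z : R3) : ℝ := fderiv ℝ g z (0, 0, 1)
def cv (T x y : ℝ → ℝ) (σ : ℝ) : R3 := (T σ, x σ, y σ)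
/-- the next tangent value -/
def tg (g : R3 → ℝ) (γ : ℝ → R3) (p q : ℝ → ℝ) (σ : ℝ) : ℝ := ga g (γ σ) * p σ + gb g (γ σ) * q σ

/-- local model on the convex set `U` -/
structure LM (g : R3 → ℝ) (U : Set R3) (N : ℕ) (a b m dl ρ : ℝ) : Prop where
  conv : Convex ℝ U
  sm : ∀ z ∈ U, ContDiffAt ℝ ∞ g z
  b0 : 0 < b
  cst : ((N + 3)! : ℝ) * 2 ^ (N + 3) ≤ m
  dl0 : 0 ≤ dl
  dl1 : dl ≤ 1
  ρ0 : 0 ≤ ρ
  ρ1 : ρ ≤ 1 / 2
  bd : ∀ k, 2 ≤ k → k ≤ N + 2 → ∀ z ∈ U, ∀ v : Fin k → R3,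
    |iteratedFDeriv ℝ k g z v| ≤ m * ∏ i, pg dl b (v i)
  ha : ∀ z ∈ U, |ga g z - a| ≤ ρ
  hb : ∀ z ∈ U, |gb g z - b| ≤ ρ * b
  ht : ∀ z ∈ U, |gt g z - 1| ≤ 1 / 100

/-- nondegenerate fold on `U` -/
def FoldOn (g : R3 → ℝ) (U : Set R3) (L : ℝ) : Prop :=
  ∃ σ : ℝ, (σ = 1 ∨ σ = -1) ∧
    ∀ z ∈ U, 3 / 4 * L ≤ σ * iteratedFDeriv ℝ 2 g z ![(0, 1, 0), (0, 1, 0)]

/-- gauge bounds for the partial derivatives as functions -/
def MG_s : Prop := ∀ g U N a b m dl ρ, LM g U N a b m dl ρ → ∀ z ∈ U,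
  ContDiffAt ℝ ∞ (ga g) z ∧ ContDiffAt ℝ ∞ (gb g) z ∧ ContDiffAt ℝ ∞ (gt g) z ∧
  (∀ v : R3, fderiv ℝ g z v = gt g z * v.1 + ga g z * v.2.1 + gb g z * v.2.2) ∧
  (∀ x : ℝ, fderiv ℝ (ga g) z (0, x, 0) = iteratedFDeriv ℝ 2 g z ![(0, 1, 0), (0, 1, 0)] * x) ∧
  (∀ (k : ℕ) (v : Fin k → R3),
    iteratedFDeriv ℝ k (ga g) z v = iteratedFDeriv ℝ (k + 1) g z (Fin.snoc v (0, 1, 0))) ∧
  ∀ k, 1 ≤ k → k ≤ N + 1 → ∀ v : Fin k → R3,
    |iteratedFDeriv ℝ k (ga g) z v| ≤ m * ∏ i, pg dl b (v i) ∧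
    |iteratedFDeriv ℝ k (gb g) z v| ≤ m * b * ∏ i, pg dl b (v i) ∧
    |iteratedFDeriv ℝ k (gt g) z v| ≤ m * dl * ∏ i, pg dl b (v i)

/-- order `0`: two points -/
def ST0_s : Prop := ∀ g U N a b m dl ρ, LM g U N a b m dl ρ → ∀ z ∈ U, ∀ z' ∈ U,
  |g z' - g z - a * (z'.2.1 - z.2.1) - b * (z'.2.2 - z.2.2)|
    ≤ 2 * |z'.1 - z.1| + ρ * (|z'.2.1 - z.2.1| + b * |z'.2.2 - z.2.2|) ∧
  |g z' - g z - gt g z * (z'.1 - z.1) - ga g z * (z'.2.1 - z.2.1) - gb g z * (z'.2.2 - z.2.2)|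
    ≤ m * pg dl b (z' - z) ^ 2 ∧
  |ga g z' - ga g z| ≤ m * pg dl b (z' - z) ∧ |gb g z' - gb g z| ≤ m * b * pg dl b (z' - z) ∧
  |gt g z' - gt g z| ≤ m * dl * pg dl b (z' - z) ∧
  (∀ p q p' q' d : ℝ, |p'| ≤ d → b * |q'| ≤ d →
    |ga g z' * p' + gb g z' * q' - (ga g z * p + gb g z * q) - a * (p' - p) - b * (q' - q)|
      ≤ 2 * m * d * (|z'.2.1 - z.2.1| + b * |z'.2.2 - z.2.2| + dl * |z'.1 - z.1|)
        + ρ * (|p' - p| + b * |q' - q|)) ∧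
  ∀ L q q' d : ℝ, FoldOn g U L → b * |q'| ≤ d → d ≤ 1 → m * d ≤ L / 4 →
    L / 2 * |z'.2.1 - z.2.1| ≤ |ga g z' + gb g z' * q' - (ga g z + gb g z * q)| + 2 * b * |q' - q|
      + 2 * m * (b * |z'.2.2 - z.2.2| + dl * |z'.1 - z.1|)

/-- jets of order `n ≥ 1` -/
def STJ_s : Prop := ∀ g U N a b m dl ρ, LM g U N a b m dl ρ →
  ∀ (n : ℕ) (T x y p q : ℝ → ℝ) (τ B C d : ℝ), 1 ≤ n → n ≤ N → cv T x y τ ∈ U →
  ContDiffAt ℝ n T τ → ContDiffAt ℝ n x τ → ContDiffAt ℝ n y τ → ContDiffAt ℝ n p τ →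
  ContDiffAt ℝ n q τ → 0 ≤ B → B ≤ C → 1 ≤ C → 0 ≤ d →
  (∀ i, 1 ≤ i → i < n → dl * |iteratedDeriv i T τ| ≤ B ∧ |iteratedDeriv i x τ| ≤ B ∧
    b * |iteratedDeriv i y τ| ≤ B) →
  |iteratedDeriv n (fun σ => g (cv T x y σ)) τ - a * iteratedDeriv n x τ - b * iteratedDeriv n y τ
      - gt g (cv T x y τ) * iteratedDeriv n T τ|
    ≤ m ^ 2 * B ^ 2 * C ^ n + ρ * (|iteratedDeriv n x τ| + b * |iteratedDeriv n y τ|) ∧
  ((∀ i, i < n → |iteratedDeriv i p τ| ≤ d ∧ b * |iteratedDeriv i q τ| ≤ d) →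
    |iteratedDeriv n (tg g (cv T x y) p q) τ - a * iteratedDeriv n p τ - b * iteratedDeriv n q τ|
      ≤ m ^ 2 * B * C ^ (n + 1) * d + 2 * m * d * (|iteratedDeriv n x τ| + b * |iteratedDeriv n y τ|
        + dl * |iteratedDeriv n T τ|) + ρ * (|iteratedDeriv n p τ| + b * |iteratedDeriv n q τ|)) ∧
  ∀ L, FoldOn g U L → (∀ i, i < n → b * |iteratedDeriv i q τ| ≤ d) → d ≤ 1 → m * d ≤ L / 4 →
    L / 2 * |iteratedDeriv n x τ| ≤ |iteratedDeriv n (tg g (cv T x y) (fun _ => 1) q) τ|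
      + 2 * b * |iteratedDeriv n q τ| + 2 * m * (b * |iteratedDeriv n y τ| + dl * |iteratedDeriv n T τ|)
      + m ^ 2 * B * C ^ (n + 1) * (B + d)

/-- difference of the jets of order `i` -/
def dj (i : ℕ) (f' f : ℝ → ℝ) (τ : ℝ) : ℝ := iteratedDeriv i f' τ - iteratedDeriv i f τ

/-- differences of jets of order `n ≥ 1` of two curves with the same time component -/
def STD_s : Prop := ∀ g U N a b m dl ρ, LM g U N a b m dl ρ →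
  ∀ (n : ℕ) (T x y p q x' y' p' q' : ℝ → ℝ) (τ C d z : ℝ), 1 ≤ n → n ≤ N →
  cv T x y τ ∈ U → cv T x' y' τ ∈ U → ContDiffAt ℝ n T τ →
  ContDiffAt ℝ n x τ → ContDiffAt ℝ n y τ → ContDiffAt ℝ n p τ → ContDiffAt ℝ n q τ →
  ContDiffAt ℝ n x' τ → ContDiffAt ℝ n y' τ → ContDiffAt ℝ n p' τ → ContDiffAt ℝ n q' τ →
  1 ≤ C → d ≤ C → 0 ≤ z →
  (∀ i, 1 ≤ i → i ≤ n → dl * |iteratedDeriv i T τ| ≤ C ∧ |iteratedDeriv i x τ| ≤ C ∧
    b * |iteratedDeriv i y τ| ≤ C ∧ |iteratedDeriv i x' τ| ≤ C ∧ b * |iteratedDeriv i y' τ| ≤ C) →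
  (∀ i, i < n → |dj i x' x τ| ≤ z ∧ b * |dj i y' y τ| ≤ z) →
  |dj n (fun σ => g (cv T x' y' σ)) (fun σ => g (cv T x y σ)) τ - a * dj n x' x τ - b * dj n y' y τ|
    ≤ m ^ 2 * C ^ (n + 1) * z + ρ * (|dj n x' x τ| + b * |dj n y' y τ|) ∧
  ((∀ i, 1 ≤ i → i ≤ n → |iteratedDeriv i p' τ| ≤ C ∧ b * |iteratedDeriv i q' τ| ≤ C) →
    |p' τ| ≤ d → b * |q' τ| ≤ d → (∀ i, i < n → |dj i p' p τ| ≤ z ∧ b * |dj i q' q τ| ≤ z) →
    |dj n (tg g (cv T x' y') p' q') (tg g (cv T x y) p q) τ - a * dj n p' p τ - b * dj n q' q τ|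
      ≤ m ^ 2 * C ^ (n + 2) * z + 2 * m * d * (|dj n x' x τ| + b * |dj n y' y τ|)
        + ρ * (|dj n p' p τ| + b * |dj n q' q τ|)) ∧
  ∀ L, FoldOn g U L → (∀ i, 1 ≤ i → i ≤ n → b * |iteratedDeriv i q' τ| ≤ C) → b * |q' τ| ≤ d →
    (∀ i, i < n → b * |dj i q' q τ| ≤ z) → d ≤ 1 → m * d ≤ L / 4 →
    L / 2 * |dj n x' x τ| ≤
      |dj n (tg g (cv T x' y') (fun _ => 1) q') (tg g (cv T x y) (fun _ => 1) q) τ|
        + 2 * b * |dj n q' q τ| + 2 * m * b * |dj n y' y τ| + m ^ 2 * C ^ (n + 2) * z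

/-- bounds relative to `gb` on a vertical segment -/
def VSeg (g : R3 → ℝ) (N : ℕ) (m t x y y' : ℝ) : Prop := ∀ u ∈ Set.uIcc y y',
  ContDiffAt ℝ ∞ g (t, x, u) ∧ 0 ≤ gb g (t, x, u) ∧
  ∀ k, 1 ≤ k → k ≤ N + 1 → ∀ v : Fin k → R3, (∀ i, (v i).2.2 = 0) →
    |iteratedFDeriv ℝ (k + 1) g (t, x, u) (Fin.cons (0, 0, 1) v)|
      ≤ m * gb g (t, x, u) * ∏ i, max |(v i).1| |(v i).2.1|

/-- two curves that differ in the last component only, and may be far apart -/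
def STS_s : Prop := ∀ g U U' N a b a' b' m dl ρ ρ', LM g U N a b m dl ρ → LM g U' N a' b' m dl ρ' →
  ∀ (n : ℕ) (T x y y' : ℝ → ℝ) (τ C : ℝ), n ≤ N → cv T x y τ ∈ U → cv T x y' τ ∈ U' →
  VSeg g N m (T τ) (x τ) (y τ) (y' τ) →
  ContDiffAt ℝ n T τ → ContDiffAt ℝ n x τ → ContDiffAt ℝ n y τ → ContDiffAt ℝ n y' τ →
  1 ≤ C → b ≤ C → b' ≤ C →
  (∀ i, 1 ≤ i → i ≤ n → |iteratedDeriv i T τ| ≤ C ∧ |iteratedDeriv i x τ| ≤ C ∧
    |iteratedDeriv i y τ| ≤ C ∧ |iteratedDeriv i y' τ| ≤ C) →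
  |dj n (fun σ => g (cv T x y' σ)) (fun σ => g (cv T x y σ)) τ|
    ≤ m ^ 2 * C ^ (2 * n + 2) * (|g (cv T x y' τ) - g (cv T x y τ)| + b + b') ∧
  |dj n (fun σ => ga g (cv T x y' σ)) (fun σ => ga g (cv T x y σ)) τ|
    ≤ m ^ 2 * C ^ (2 * n + 2) * (|g (cv T x y' τ) - g (cv T x y τ)| + b + b') ∧
  |iteratedDeriv n (fun σ => gb g (cv T x y' σ)) τ| ≤ m ^ 2 * C ^ (2 * n + 2) * b' ∧
  |iteratedDeriv n (fun σ => gb g (cv T x y σ)) τ| ≤ m ^ 2 * C ^ (2 * n + 2) * b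

end
end Pool.Agent.MP_9cbfe4_an.SS

end

/-! ### Part LS -/

section

/-! Section S, row LS: the linearised seed system. -/

namespace Pool.Agent.MP_9cbfe4_an

open Finset

namespace LS

variable {S : Sq} {E : ℕ} {ξ w μ : ℤ → ℝ} {s : ℤ}

theorem kp_nonneg (h : S.HC E ξ w μ s) {j : ℤ} (h1 : s - 1 ≤ j) (h2 : j ≤ 0) :
    0 ≤ S.kp w (s - 1) j := by
  obtain a1 : 0 ≤ S.Pb (s - 1) j := prod_nonneg fun l hl =>
    (h.bpos l (by have := (mem_Ioc.1 hl).1; omega) (by have := (mem_Ioc.1 hl).2; omega)).le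
  obtain a2 := h.wpos (s - 1) le_rfl (by have := h.s0; omega)
  have a3 := h.wpos j h1 h2
  unfold Sq.kp
  (clear * - a1 a2 a3; positivity)

theorem b_kp (h : S.HC E ξ w μ s) {j : ℤ} (h1 : s ≤ j) (h2 : j ≤ 0) :
    S.b j * S.kp w (s - 1) (j - 1) ≤ μ j * S.kp w (s - 1) j := by
  obtain e : S.Pb (s - 1) j = S.Pb (s - 1) (j - 1) * S.b j := by
    unfold Sq.Pb
    obtain this : Ioc (s - 1) j = insert j (Ioc (s - 1) (j - 1)) := by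
      ext l; simp only [mem_Ioc, mem_insert]; omega
    rw [this, prod_insert (by simp only [mem_Ioc]; omega), mul_comm]
  obtain a0 := kp_nonneg h (j := j) (by omega) h2
  obtain a3 := h.wpos j (by omega) h2
  obtain a4 := h.wpos (j - 1) (by omega) (by omega)
  obtain a5 := h.fwd (j - 1) (by omega) (by omega)
  rw [sub_add_cancel] at a5
  obtain e2 : S.b j * S.kp w (s - 1) (j - 1) = S.kp w (s - 1) j * (w j / w (j - 1)) := by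
    unfold Sq.kp
    rw [e]; field_simp
  rw [e2, mul_comm (μ j)]
  exact mul_le_mul_of_nonneg_left ((div_le_iff₀ a4).2 a5) a0

theorem pw {m : ℝ} (hm : 1000 ≤ m) {a b : ℕ} (h : a ≤ b) : m ^ a ≤ m ^ b :=
  pow_le_pow_right₀ (by linarith only [hm]) h

theorem pw3 {m : ℝ} (hm : 1000 ≤ m) {a b : ℕ} (h : a + 1 ≤ b) : 1000 * m ^ a ≤ m ^ b := by
  have h1 := pw hm h
  obtain h2 : 0 < m ^ a := by positivity
  rw [pow_succ] at h1
  nlinarith only [h1, hm, h2]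

theorem pw1 {m : ℝ} (hm : 1000 ≤ m) (a : ℕ) : 1 ≤ m ^ a := one_le_pow₀ (by linarith only [hm])

theorem pwL {m Λ : ℝ} (hm : 1000 ≤ m) (h : m ≤ Λ) (a : ℕ) : m ^ a ≤ Λ ^ a :=
  pow_le_pow_left₀ (by linarith only [hm]) h a

end LS

namespace LSa

open LS

variable {S : Sq} {E : ℕ} {ξ w μ : ℤ → ℝ} {s : ℤ}

theorem pn {m : ℝ} (hm : 1000 ≤ m) (a : ℕ) : 0 ≤ m ^ a := zero_le_one.trans (pw1 hm a)

theorem i1 {s j : ℤ} (h : s ≤ j) : s - 1 ≤ j := by omega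
theorem i2 {s j : ℤ} (h : s ≤ j) : s - 1 ≤ j - 1 := by omega
theorem i3 {j : ℤ} (h : j ≤ 0) : j - 1 ≤ 0 := by omega
theorem i4 {j J : ℤ} (h : j ≤ 0) (hJ : 1 ≤ J) : j < J := by omega
theorem i5 {j : ℤ} (h : 1 ≤ j) : 0 ≤ j := by omega
theorem i6 {j : ℤ} (h : 1 ≤ j) : 0 ≤ j - 1 := by omega
theorem i7 {j J : ℤ} (h : j < J) : j - 1 ≤ J := by omega
theorem i8 {s : ℤ} (h : s ≤ 0) : s - 1 ≤ -1 := by omega
theorem i9 (j : ℤ) : j - 1 ≤ j := by omega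
theorem n10 : (-1 : ℤ) ≤ 0 := by omega

variable {e k : ℕ} {D x p : ℤ → ℝ} {J : ℤ} {Λ L δ α β γ r A B : ℝ}

theorem m0 (hC : S.CT E ξ w μ D s J Λ L δ) : 1000 ≤ μ 0 := hC.fc.big 0 le_rfl (i5 hC.fc.J1)
theorem m1 (hC : S.CT E ξ w μ D s J Λ L δ) : 1000 ≤ μ 1 := hC.fc.big 1 zero_le_one hC.fc.J1
theorem mm (hC : S.CT E ξ w μ D s J Λ L δ) : 1000 ≤ μ (-1) := hC.hc.big (-1) (i8 hC.hc.s0) n10
theorem t0 (hC : S.CT E ξ w μ D s J Λ L δ) : μ 0 ≤ Λ := hC.top 0 (i1 hC.hc.s0) (i5 hC.fc.J1)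
theorem tL (hC : S.CT E ξ w μ D s J Λ L δ) : 1000 ≤ Λ := (m0 hC).trans (t0 hC)
theorem ts (hC : S.CT E ξ w μ D s J Λ L δ) : μ (s - 1) ≤ Λ :=
  hC.top (s - 1) le_rfl (i4 (i3 hC.hc.s0) hC.fc.J1).le
theorem tJ (hC : S.CT E ξ w μ D s J Λ L δ) : μ J ≤ Λ :=
  hC.top J ((i1 hC.hc.s0).trans (i5 hC.fc.J1)) le_rfl
theorem th (hC : S.CT E ξ w μ D s J Λ L δ) {j : ℤ} (a : s ≤ j) (b : j ≤ 0) : μ j ≤ Λ :=
  hC.top j (i1 a) (i4 b hC.fc.J1).le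
theorem b0 (hC : S.CT E ξ w μ D s J Λ L δ) : 0 < S.b 0 := hC.hc.bpos 0 hC.hc.s0 le_rfl
theorem d0 (hC : S.CT E ξ w μ D s J Λ L δ) : 0 ≤ δ :=
  (mul_nonneg (b0 hC).le (pn (mm hC) E)).trans hC.g0
theorem d1 (hC : S.CT E ξ w μ D s J Λ L δ) : δ ≤ 1 :=
  (le_mul_of_one_le_right (d0 hC) (pw1 (m0 hC) E)).trans hC.g2
theorem k0 (hC : S.CT E ξ w μ D s J Λ L δ) : 0 ≤ S.kp w (s - 1) 0 :=
  kp_nonneg hC.hc (i1 hC.hc.s0) le_rfl
theorem gain (hC : S.CT E ξ w μ D s J Λ L δ) {n : ℕ} (hn : n ≤ E) : S.b 0 * μ (-1) ^ n ≤ δ :=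
  (mul_le_mul_of_nonneg_left (pw (mm hC) hn) (b0 hC).le).trans hC.g0

/-- history, positions -/
theorem hX (hH : APH_s) (hC : S.CT E ξ w μ D s J Λ L δ) (hE : e + k + 50 ≤ E) (hβ : 0 ≤ β)
    (hγ : 0 ≤ γ) (hr : 0 ≤ r) (hrΛ : r * Λ ^ 10 ≤ 1) (A0 : 0 ≤ A) (αA : α ≤ A) (xA : |x 0| ≤ A)
    (hx : ∀ j, s ≤ j → j < J →
      |S.df x j| ≤ α * μ j ^ e + β * S.kp w (s - 1) (min j 0) + γ + r * S.sz x j)
    (bx : |ξ s * x (s - 1) - ξ (s - 1) * x s| ≤ β * w (s - 1)) :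
    ∀ j, s - 1 ≤ j → j ≤ 0 →
      |x j| ≤ (A + γ) * μ j ^ (e + 7) + β * Λ ^ 7 * S.kp w (s - 1) j := by
  obtain n1 : e + 10 ≤ E := by omega
  have AG := add_nonneg A0 hγ
  refine hH S E e ξ w μ x s Λ (A + γ) β r hC.hc (ts hC) n1 AG hβ hr hrΛ (fun j a b => ?_) bx ?_
  · have h1 := hx j a (i4 b.le hC.fc.J1)
    rw [min_eq_left b.le] at h1
    have h2 := pw1 (hC.hc.big j (i1 a) b.le) e
    have h3 := mul_le_mul_of_nonneg_right αA (zero_le_one.trans h2)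
    have h4 := le_mul_of_one_le_right hγ h2
    linarith only [h1, h3, h4]
  · have h3 := le_mul_of_one_le_right AG (pw1 (m0 hC) e)
    have h4 := mul_nonneg hβ (k0 hC)
    linarith only [h3, h4, xA, hγ]

theorem hbX (hC : S.CT E ξ w μ D s J Λ L δ) (hβ : 0 ≤ β)
    (hX : ∀ j, s - 1 ≤ j → j ≤ 0 →
      |x j| ≤ A * μ j ^ (e + 7) + β * Λ ^ 7 * S.kp w (s - 1) j) (j : ℤ) (a : s ≤ j) (b : j ≤ 0) :
    S.b j * |x (j - 1)| ≤ A * (S.b j * μ (j - 1) ^ (e + 7)) + β * Λ ^ 8 * S.kp w (s - 1) j := by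
  have h1 := mul_le_mul_of_nonneg_left (hX (j - 1) (i2 a) (i3 b)) (hC.hc.bpos j a b).le
  have h2 := (b_kp hC.hc a b).trans
    (mul_le_mul_of_nonneg_right (th hC a b) (kp_nonneg hC.hc (i1 a) b))
  have h3 := mul_le_mul_of_nonneg_left h2 (mul_nonneg hβ (pn (tL hC) 7))
  linarith only [h1, h3]

theorem aP {m Λ A G β γ α κ X Y Z : ℝ} {e k : ℕ} (mj : 1000 ≤ m) (tj : m ≤ Λ) (kj : 0 ≤ κ)
    (hβ : 0 ≤ β) (hγ : 0 ≤ γ) (A0 : 0 ≤ A) (αA : α ≤ A) (hG : G = A + γ)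
    (h2 : X ≤ G * m ^ (e + 7) + β * Λ ^ 7 * κ) (h3 : Y ≤ G * Z + β * Λ ^ 8 * κ)
    (h4 : Z ≤ m ^ (e + 7 + 1)) :
    α * m ^ e + β * κ + γ + m ^ k * (X + Y) ≤ G * m ^ (e + k + 9) + β * Λ ^ (k + 9) * κ := by
  have hΛ := mj.trans tj
  have AG : 0 ≤ G := hG ▸ add_nonneg A0 hγ
  have bk := mul_nonneg hβ kj
  obtain n1 : e ≤ e + k + 8 := by omega
  obtain n2 : 7 ≤ 8 := by omega
  have h4 := mul_le_mul_of_nonneg_left h4 AG
  have h5 := mul_le_mul_of_nonneg_left (pw mj (Nat.le_add_right (e + 7) 1)) AG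
  have h6 := mul_le_mul_of_nonneg_right (mul_le_mul_of_nonneg_left
    (pw hΛ n2) hβ) kj
  obtain h7 : X + Y ≤ 2 * G * m ^ (e + 7 + 1) + 2 * (β * κ) * Λ ^ 8 := by
    linarith only [h2, h3, h4, h5, h6]
  have h8 := mul_le_mul_of_nonneg_left h7 (pn mj k)
  have h9 : m ^ k * (2 * (β * κ) * Λ ^ 8) ≤ Λ ^ k * (2 * (β * κ) * Λ ^ 8) :=
    mul_le_mul_of_nonneg_right (pwL mj tj k)
      (mul_nonneg (mul_nonneg zero_le_two bk) (pn hΛ 8))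
  obtain e1 : m ^ k * (2 * G * m ^ (e + 7 + 1) + 2 * (β * κ) * Λ ^ 8)
      = 2 * (G * m ^ (e + k + 8)) + m ^ k * (2 * (β * κ) * Λ ^ 8) := by ring
  obtain e2 : Λ ^ k * (2 * (β * κ) * Λ ^ 8) = 2 * (β * κ * Λ ^ (k + 8)) := by ring
  have g1 := mul_le_mul_of_nonneg_left (pw3 mj (le_refl (e + k + 8 + 1))) AG
  have g2 := mul_le_mul_of_nonneg_left (pw3 hΛ (le_refl (k + 8 + 1))) bk
  have g3 := le_mul_of_one_le_right bk (pw1 hΛ (k + 8))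
  have g4 := le_mul_of_one_le_right hγ (pw1 mj (e + k + 8))
  have g5 : α * m ^ e ≤ A * m ^ (e + k + 8) := mul_le_mul αA (pw mj n1) (pn mj e) A0
  have g6 := mul_nonneg AG (pn mj (e + k + 8))
  have g7 := mul_nonneg bk (pn hΛ (k + 8))
  obtain e3 : G * m ^ (e + k + 8) = A * m ^ (e + k + 8) + γ * m ^ (e + k + 8) := by
    rw [hG, add_mul]
  rw [e1] at h8
  rw [e2] at h9
  linarith only [h8, h9, g1, g2, g3, g4, g5, g6, g7, e3]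

/-- history, tangent -/
theorem hP (hH : APH_s) (hC : S.CT E ξ w μ D s J Λ L δ) (hE : e + k + 50 ≤ E) (hβ : 0 ≤ β)
    (hγ : 0 ≤ γ) (hr : 0 ≤ r) (hrΛ : r * Λ ^ 10 ≤ 1) (A0 : 0 ≤ A) (αA : α ≤ A)
    (hp : ∀ j, s ≤ j → j < J → j ≠ 0 → |S.df p j| ≤ α * μ j ^ e * D j
      + β * S.kp w (s - 1) (min j 0) + γ + μ j ^ k * D j * S.sz x j + r * S.sz p j)
    (bp : |ξ s * p (s - 1) - ξ (s - 1) * p s| ≤ β * w (s - 1)) (p0 : p 0 = 0)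
    (hX : ∀ j, s - 1 ≤ j → j ≤ 0 →
      |x j| ≤ (A + γ) * μ j ^ (e + 7) + β * Λ ^ 7 * S.kp w (s - 1) j) :
    ∀ j, s - 1 ≤ j → j ≤ 0 → |p j| ≤ (A + γ) * μ j ^ (e + k + 9 + 7)
      + β * Λ ^ (k + 9) * Λ ^ 7 * S.kp w (s - 1) j := by
  obtain n1 : e + k + 9 + 10 ≤ E := by omega
  obtain n2 : e + 7 ≤ E := by omega
  have AG := add_nonneg A0 hγ
  have bL := mul_nonneg hβ (pn (tL hC) (k + 9))
  refine hH S E (e + k + 9) ξ w μ p s Λ (A + γ) (β * Λ ^ (k + 9)) r hC.hc (ts hC) n1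
    AG bL hr hrΛ (fun j a b => ?_) ?_ ?_
  · have h1 := hp j a (i4 b.le hC.fc.J1) b.ne
    rw [min_eq_left b.le, hC.Dneg j b.le, mul_one, mul_one] at h1
    exact h1.trans (add_le_add_left (aP (hC.hc.big j (i1 a) b.le) (th hC a b.le)
      (kp_nonneg hC.hc (i1 a) b.le) hβ hγ A0 αA rfl (hX j (i1 a) b.le) (hbX hC hβ hX j a b.le)
      (hC.hc.bmu (e + 7) n2 j a b.le)) _)
  · exact bp.trans (mul_le_mul_of_nonneg_right (le_mul_of_one_le_right hβ (pw1 (tL hC) _))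
      (hC.hc.wpos (s - 1) le_rfl (i3 hC.hc.s0)).le)
  · rw [p0, abs_zero]
    exact add_nonneg (mul_nonneg AG (pn (m0 hC) _)) (mul_nonneg bL (k0 hC))

theorem f1 (hC : S.CT E ξ w μ D s J Λ L δ) (hE : e + k + 50 ≤ E) (hβ : 0 ≤ β) (A0 : 0 ≤ A)
    (βB : β * S.kp w (s - 1) 0 ≤ B)
    (hX : ∀ j, s - 1 ≤ j → j ≤ 0 → |x j| ≤ A * μ j ^ (e + 7) + β * Λ ^ 7 * S.kp w (s - 1) j) :
    μ 0 ^ k * S.b 0 * |x (-1)| ≤ A * δ + Λ ^ (k + 8) * B := by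
  obtain n1 : k + (e + 7) ≤ E := by omega
  have h1 := hbX hC hβ hX 0 hC.hc.s0 le_rfl
  rw [zero_sub] at h1
  have h2 := mul_le_mul_of_nonneg_left h1 (pn (m0 hC) k)
  have mm0 : μ 0 ≤ μ (-1) := hC.hc.mono (-1) 0 (i8 hC.hc.s0) n10 le_rfl
  have h3 := mul_le_mul_of_nonneg_right (pwL (m0 hC) mm0 k)
    (mul_nonneg (b0 hC).le (pn (mm hC) (e + 7)))
  have h6 := gain hC n1
  rw [pow_add, mul_left_comm] at h6
  have h4 := mul_le_mul_of_nonneg_left (h3.trans h6) A0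
  have h5 := mul_le_mul (mul_le_mul_of_nonneg_right (pwL (m0 hC) (t0 hC) k) (pn (tL hC) 8)) βB
    (mul_nonneg hβ (k0 hC)) (mul_nonneg (pn (tL hC) k) (pn (tL hC) 8))
  rw [pow_add]
  linarith only [h2, h4, h5]

theorem f2 (hC : S.CT E ξ w μ D s J Λ L δ) (hE : e + k + 50 ≤ E) (hβ : 0 ≤ β) (A0 : 0 ≤ A)
    (βB : β * S.kp w (s - 1) 0 ≤ B)
    (hX : ∀ j, s - 1 ≤ j → j ≤ 0 → |x j| ≤ A * μ j ^ (e + 7) + β * Λ ^ 7 * S.kp w (s - 1) j) :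
    S.b 0 * |x (-1)| ≤ A * δ + Λ ^ 8 * B := by
  obtain n1 : e + 7 ≤ E := by omega
  have h1 := hbX hC hβ hX 0 hC.hc.s0 le_rfl
  rw [zero_sub] at h1
  have h4 := mul_le_mul_of_nonneg_left (gain hC n1) A0
  have h5 := mul_le_mul_of_nonneg_left βB (pn (tL hC) 8)
  linarith only [h1, h4, h5]

theorem f3 (hC : S.CT E ξ w μ D s J Λ L δ) (hE : e + k + 50 ≤ E) (hβ : 0 ≤ β) (A0 : 0 ≤ A)
    (βB : β * S.kp w (s - 1) 0 ≤ B)
    (hP : ∀ j, s - 1 ≤ j → j ≤ 0 → |p j| ≤ A * μ j ^ (e + k + 9 + 7)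
      + β * Λ ^ (k + 9) * Λ ^ 7 * S.kp w (s - 1) j) :
    S.b 0 * |p (-1)| ≤ A * δ + Λ ^ (k + 17) * B := by
  obtain n1 : e + k + 9 + 7 ≤ E := by omega
  have h1 := mul_le_mul_of_nonneg_left (hP (-1) (i8 hC.hc.s0) n10) (b0 hC).le
  have h2 := b_kp hC.hc hC.hc.s0 le_rfl
  rw [zero_sub] at h2
  have h3 := h2.trans (mul_le_mul_of_nonneg_right (t0 hC) (k0 hC))
  have h4 := mul_le_mul_of_nonneg_left (gain hC n1) A0
  have h5 := mul_le_mul_of_nonneg_left h3 (mul_nonneg hβ (pn (tL hC) (k + 16)))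
  have h6 := mul_le_mul_of_nonneg_left βB (pn (tL hC) (k + 17))
  calc _ ≤ _ := h1
    _ = A * (S.b 0 * μ (-1) ^ (e + k + 9 + 7))
        + β * Λ ^ (k + 16) * (S.b 0 * S.kp w (s - 1) (-1)) := by ring
    _ ≤ A * δ + β * Λ ^ (k + 16) * (Λ * S.kp w (s - 1) 0) := add_le_add h4 h5
    _ = A * δ + Λ ^ (k + 17) * (β * S.kp w (s - 1) 0) := by ring
    _ ≤ _ := add_le_add_right h6 _

/-- future, positions -/
theorem hY (hF1 : APF1_s) (hC : S.CT E ξ w μ D s J Λ L δ) {A1 : ℝ} (hA1 : A1 = A + Λ ^ 8 * B)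
    (hγ : 0 ≤ γ) (hr : 0 ≤ r) (hrΛ : r * Λ ^ 10 ≤ 1) (A0 : 0 ≤ A) (αA : α ≤ A) (xA : |x 0| ≤ A)
    (hB : B = β * S.kp w (s - 1) 0 + γ) (B0 : 0 ≤ B) (γB : γ ≤ B)
    (hx : ∀ j, s ≤ j → j < J →
      |S.df x j| ≤ α * μ j ^ e + β * S.kp w (s - 1) (min j 0) + γ + r * S.sz x j)
    (f2 : S.b 0 * |x (-1)| ≤ (A + γ) * δ + Λ ^ 8 * B) :
    ∀ j, 0 ≤ j → j ≤ J → |x j| ≤ A1 * μ j ^ (e + 2 + 7) := by
  have LB : B ≤ Λ ^ 8 * B := le_mul_of_one_le_left B0 (pw1 (tL hC) 8)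
  obtain A10 : 0 ≤ A1 := by linarith only [hA1, LB, A0, B0]
  obtain AA1 : A ≤ A1 := by linarith only [hA1, LB, B0]
  obtain BA1 : B ≤ A1 := by linarith only [hA1, LB, A0]
  have J1 := hC.fc.J1
  obtain n1 : e + 1 ≤ e + 2 := by omega
  refine hF1 S E (e + 2) μ D x J J Λ A1 r hC.fc (tJ hC) J1 le_rfl A10 hr hrΛ (fun j a b => ?_) ?_ ?_
  · have h1 := hx j (hC.hc.s0.trans (i5 a)) b
    rw [min_eq_right (i5 a)] at h1
    have mj := hC.fc.big j (i5 a) b.le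
    have h2 := mul_le_mul_of_nonneg_left (pw3 mj n1) A10
    have h3 := mul_le_mul_of_nonneg_right (αA.trans AA1) (pn mj e)
    have h4 := le_mul_of_one_le_right A10 (pw1 mj e)
    linarith only [h1, h2, h3, h4, hB, BA1, A10]
  · exact (xA.trans AA1).trans (le_mul_of_one_le_right A10 (pw1 (m0 hC) _))
  · have h1 := hx 0 hC.hc.s0 (i4 le_rfl J1)
    rw [min_self] at h1
    have m1 := m1 hC
    have m01 : μ 0 ≤ μ 1 := hC.fc.mono 0 1 le_rfl zero_le_one J1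
    have Aδ : (A + γ) * δ ≤ A + γ := mul_le_of_le_one_right (add_nonneg A0 hγ) (d1 hC)
    have r1 : r ≤ 1 := le_trans (le_mul_of_one_le_right hr (pw1 (tL hC) 10)) hrΛ
    have x0 := abs_nonneg (x 0)
    obtain e1 : x 1 = S.df x 0 + S.a 0 * x 0 + S.b 0 * x (-1) := by
      unfold Sq.df; rw [zero_add, zero_sub]; ring
    obtain h2 : |x 1| ≤ |S.df x 0| + |S.a 0| * |x 0| + S.b 0 * |x (-1)| := by
      rw [e1]
      refine (abs_add_three _ _ _).trans ?_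
      rw [abs_mul, abs_mul, abs_of_pos (b0 hC)]
    have h9 := (hC.hc.ale 0 hC.hc.s0 le_rfl).trans m01
    have h3 : |S.a 0| * |x 0| ≤ μ 1 * A1 :=
      mul_le_mul h9 (xA.trans AA1) x0 ((abs_nonneg _).trans h9)
    obtain h4 : r * S.sz x 0 ≤ |x 0| + S.b 0 * |x (-1)| := by
      unfold Sq.sz; rw [zero_sub]
      exact mul_le_of_le_one_left (add_nonneg x0 (mul_nonneg (b0 hC).le (abs_nonneg _))) r1
    have h5 : α * μ 0 ^ e ≤ A1 * μ 1 ^ (e + 1) := mul_le_mul (αA.trans AA1)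
      ((pwL (m0 hC) m01 e).trans (pw m1 (Nat.le_add_right e 1))) (pn (m0 hC) e) A10
    obtain h6 : μ 1 * A1 ≤ A1 * μ 1 ^ (e + 1) := by
      rw [mul_comm]
      exact mul_le_mul_of_nonneg_left ((pow_one (μ 1)).ge.trans (pw m1 (Nat.le_add_left 1 e))) A10
    have h7 := le_mul_of_one_le_right A10 (pw1 m1 (e + 1))
    have h8 := mul_le_mul_of_nonneg_left (pw3 m1 (le_refl (e + 1 + 1))) A10
    linarith only [h1, h2, h3, h4, h5, h6, h7, h8, f2, Aδ, hA1, hB, BA1, AA1, xA, γB, A10]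

/-- future, tangent -/
theorem hQ (hF2 : APF2_s) (hC : S.CT E ξ w μ D s J Λ L δ) (hE : e + k + 50 ≤ E)
    (hr : 0 ≤ r) (hrΛ : r * Λ ^ 10 ≤ 1) (A0 : 0 ≤ A) (αA : α ≤ A)
    (hB : B = β * S.kp w (s - 1) 0 + γ) (B0 : 0 ≤ B) (γB : γ ≤ B)
    (hp : ∀ j, s ≤ j → j < J → j ≠ 0 → |S.df p j| ≤ α * μ j ^ e * D j
      + β * S.kp w (s - 1) (min j 0) + γ + μ j ^ k * D j * S.sz x j + r * S.sz p j)
    (p0 : p 0 = 0) (pJ : |p J| ≤ γ) (hY : ∀ j, 0 ≤ j → j ≤ J → |x j| ≤ A * μ j ^ (e + 2 + 7)) :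
    ∀ j, 0 ≤ j → j ≤ J → |p j| ≤ A * μ j ^ (e + k + 11 + 7) * D j + B * Λ ^ 7 := by
  obtain n1 : e + k + 11 + 10 ≤ E := by omega
  obtain n2 : e ≤ e + k + 10 := by omega
  have fc := hC.fc
  refine hF2 S E (e + k + 11) μ D p J Λ A B r fc (tJ hC) n1 A0 B0 hr hrΛ (fun j a b => ?_) p0
    (pJ.trans γB)
  have h1 := hp j (hC.hc.s0.trans (i5 a)) b (zero_lt_one.trans_le a).ne'
  rw [min_eq_right (i5 a)] at h1
  have mj := fc.big j (i5 a) b.le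
  have mj' := fc.big (j - 1) (i6 a) (i7 b)
  have dj := (fc.Dpos j (i5 a) b.le).le
  have h2 := hY j (i5 a) b.le
  have h3 := (hY (j - 1) (i6 a) (i7 b)).trans (mul_le_mul_of_nonneg_left
    (pwL mj' (fc.mono (j - 1) j (i6 a) (i9 j) b.le) _) A0)
  have h4 := mul_le_mul (fc.ble j a b.le) h3 (abs_nonneg _)
    ((fc.bpos j a b.le).le.trans (fc.ble j a b.le))
  have h5 := mul_le_mul_of_nonneg_left (pw mj (Nat.le_add_right (e + 2 + 7) 1)) A0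
  obtain e1 : μ j * (A * μ j ^ (e + 2 + 7)) = A * μ j ^ (e + 2 + 7 + 1) := by
    rw [pow_succ' _ (e + 2 + 7), mul_left_comm]
  obtain h7 : S.sz x j ≤ 2 * (A * μ j ^ (e + 2 + 7 + 1)) := by
    unfold Sq.sz; linarith only [h2, h4, h5, e1]
  have h8 := mul_le_mul_of_nonneg_left h7 (mul_nonneg (pn mj k) dj)
  obtain e2 : μ j ^ k * D j * (2 * (A * μ j ^ (e + 2 + 7 + 1)))
      = 2 * (A * D j * μ j ^ (e + k + 10)) := by
    ring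
  have g1 := mul_le_mul_of_nonneg_left (pw3 mj (le_refl (e + k + 10 + 1))) (mul_nonneg A0 dj)
  have g2 := mul_le_mul_of_nonneg_right (mul_le_mul αA (pw mj n2) (pn mj e) A0) dj
  have g3 := mul_nonneg (mul_nonneg A0 dj) (pn mj (e + k + 10))
  rw [e2] at h8
  linarith only [h1, h8, g1, g2, g3, hB]

theorem z1 {Λ L δ α α0 γ A A1 B X P1 Pm Xm Z : ℝ} {k : ℕ} (hΛ : 1000 ≤ Λ) (L1 : 1000 ≤ L)
    (δ0 : 0 ≤ δ) (δ1 : δ ≤ 1) (hα : 0 ≤ α) (hα0 : 0 ≤ α0) (hγ : 0 ≤ γ) (B0 : 0 ≤ B) (γB : γ ≤ B)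
    (x0 : 0 ≤ X) (hA : A = α + X) (hA1 : A1 = A + Λ ^ 8 * B) (h2 : Z ≤ δ)
    (h0 : L / 2 * X ≤ α0 + P1 + 2 * Pm + Xm) (h1 : P1 ≤ A1 * Z + B * Λ ^ 7)
    (f1 : Xm ≤ (A + γ) * δ + Λ ^ (k + 8) * B) (f3 : Pm ≤ (A + γ) * δ + Λ ^ (k + 17) * B) :
    L * X ≤ 5 / 2 * α0 + 20 * δ * α + Λ ^ (k + 30) * B := by
  obtain n1 : 8 ≤ k + 17 := by omega
  obtain n2 : 7 ≤ k + 17 := by omega
  obtain n3 : k + 8 ≤ k + 17 := by omega
  obtain n4 : k + 17 + 1 ≤ k + 30 := by omega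
  have LB := mul_nonneg (pn hΛ 8) B0
  obtain A10 : 0 ≤ A1 := by linarith only [hA1, hA, LB, hα, x0]
  have h3 := mul_le_mul_of_nonneg_left h2 A10
  have h4 : Λ ^ 8 * B * δ ≤ Λ ^ 8 * B := mul_le_of_le_one_right LB δ1
  have h5 : γ * δ ≤ B := (mul_le_of_le_one_right hγ δ1).trans γB
  have h6 : X * δ ≤ X := mul_le_of_le_one_right x0 δ1
  have l1 := mul_le_mul_of_nonneg_right (pw hΛ n1) B0
  have l2 := mul_le_mul_of_nonneg_right (pw hΛ n2) B0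
  have l3 := mul_le_mul_of_nonneg_right (pw hΛ n3) B0
  have l4 := mul_le_mul_of_nonneg_right (pw3 hΛ n4) B0
  have l5 := le_mul_of_one_le_left B0 (pw1 hΛ (k + 17))
  have l6 := mul_le_mul_of_nonneg_right L1 x0
  have l7 := mul_nonneg δ0 hα
  obtain e1 : A1 * δ = δ * α + X * δ + Λ ^ 8 * B * δ := by rw [hA1, hA]; ring
  obtain e2 : (A + γ) * δ = δ * α + X * δ + γ * δ := by rw [hA]; ring
  rw [e2] at f1 f3
  rw [e1] at h3
  linarith only [h0, h1, f1, f3, h3, h4, h5, h6, l1, l2, l3, l4, l5, l6, l7, hα0, x0, B0]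

theorem z2 {m Λ A β γ κ X : ℝ} {a b c d : ℕ} (mj : 1000 ≤ m) (tj : m ≤ Λ) (A0 : 0 ≤ A)
    (hγ : 0 ≤ γ) (bk : 0 ≤ β * κ) (n1 : a ≤ c) (n2 : a ≤ d) (n3 : b ≤ d)
    (h1 : X ≤ (A + γ) * m ^ a + β * Λ ^ b * κ) : X ≤ A * m ^ c + Λ ^ d * (β * κ + γ) := by
  have hΛ := mj.trans tj
  have h2 := mul_le_mul_of_nonneg_left (pw mj n1) A0
  have h3 := mul_le_mul_of_nonneg_left ((pwL mj tj a).trans (pw hΛ n2)) hγ
  have h4 := mul_le_mul_of_nonneg_left (pw hΛ n3) bk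
  linarith only [h1, h2, h3, h4]

theorem z3 {m Λ A B X : ℝ} {e : ℕ} (mj : 1000 ≤ m) (tj : m ≤ Λ) (A0 : 0 ≤ A) (B0 : 0 ≤ B)
    (h1 : X ≤ (A + Λ ^ 8 * B) * m ^ (e + 2 + 7)) : X ≤ A * m ^ (e + 20) + Λ ^ (e + 30) * B := by
  have hΛ := mj.trans tj
  obtain n1 : e + 2 + 7 ≤ e + 20 := by omega
  obtain n2 : e + 17 ≤ e + 30 := by omega
  have h2 := mul_le_mul_of_nonneg_left (pw mj n1) A0
  have h3 := mul_le_mul_of_nonneg_left (pwL mj tj (e + 2 + 7)) (mul_nonneg (pn hΛ 8) B0)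
  have h4 := mul_le_mul_of_nonneg_right (pw hΛ n2) B0
  obtain e1 : Λ ^ 8 * B * Λ ^ (e + 2 + 7) = Λ ^ (e + 17) * B := by ring
  rw [e1] at h3
  rw [add_mul] at h1
  exact h1.trans (add_le_add h2 (h3.trans h4))

theorem z4 {m Λ A B X d : ℝ} {e : ℕ} (mj : 1000 ≤ m) (tj : m ≤ Λ) (A0 : 0 ≤ A) (B0 : 0 ≤ B)
    (dj : 0 ≤ d) (d1 : d ≤ 1) (h1 : X ≤ (A + Λ ^ 8 * B) * m ^ (e + 11 + 7) * d + B * Λ ^ 7) :
    X ≤ A * m ^ (e + 30) * d + Λ ^ (e + 40) * B := by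
  have hΛ := mj.trans tj
  obtain n1 : e + 11 + 7 ≤ e + 30 := by omega
  obtain n2 : e + 26 + 1 ≤ e + 40 := by omega
  obtain n3 : 7 ≤ e + 26 := by omega
  have h2 := mul_le_mul_of_nonneg_right (mul_le_mul_of_nonneg_left (pw mj n1) A0) dj
  have h3 : m ^ (e + 11 + 7) * d ≤ Λ ^ (e + 11 + 7) :=
    (mul_le_of_le_one_right (pn mj _) d1).trans (pwL mj tj _)
  have h4 := mul_le_mul_of_nonneg_left h3 (mul_nonneg (pn hΛ 8) B0)
  obtain e1 : Λ ^ 8 * B * Λ ^ (e + 11 + 7) = Λ ^ (e + 26) * B := by ring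
  have h5 := mul_le_mul_of_nonneg_right (pw3 hΛ n2) B0
  have h6 := mul_le_mul_of_nonneg_right (pw hΛ n3) B0
  have h7 := mul_nonneg (pn hΛ (e + 26)) B0
  rw [e1] at h4
  linarith only [h1, h2, h4, h5, h6, h7]

theorem dle (fc : S.FC E μ D J) {j : ℤ} (c : 0 ≤ j) (b : j ≤ J) : D j ≤ 1 := by
  have := fc.dec 0 (Nat.zero_le E) 0 j le_rfl c b
  rw [pow_zero, pow_zero, one_mul, one_mul, fc.D0, one_mul] at this
  exact this.trans (pow_le_one₀ (by norm_num) (by norm_num))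

end LSa

open LS LSa in
theorem ls (hH : APH_s) (hF1 : APF1_s) (hF2 : APF2_s) : LS_s := by
  intro S E e k ξ w μ D x p s J Λ L δ α α0 β γ r hC hE hα hα0 hβ hγ hr hrΛ hx hp h0 bx bp p0 pJ
  obtain n1 : e + k + 11 + 7 ≤ E := by omega
  obtain n2 : e + 7 ≤ e + 20 := by omega
  obtain n3 : e + 7 ≤ e + 30 := by omega
  obtain n4 : 7 ≤ e + 30 := by omega
  obtain n5 : e + k + 9 + 7 ≤ e + k + 30 := by omega
  obtain n6 : e + k + 9 + 7 ≤ e + k + 40 := by omega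
  obtain n7 : k + 9 + 7 ≤ e + k + 40 := by omega
  have x0 := abs_nonneg (x 0)
  have A0 := add_nonneg hα x0
  have αA : α ≤ α + |x 0| := le_add_of_nonneg_right x0
  have xA : |x 0| ≤ α + |x 0| := le_add_of_nonneg_left hα
  have AG := add_nonneg A0 hγ
  have βκ := mul_nonneg hβ (k0 hC)
  have B0 := add_nonneg βκ hγ
  have γB : γ ≤ β * S.kp w (s - 1) 0 + γ := le_add_of_nonneg_left βκ
  have βB : β * S.kp w (s - 1) 0 ≤ β * S.kp w (s - 1) 0 + γ := le_add_of_nonneg_right hγ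
  have LB := mul_nonneg (pn (tL hC) 8) B0
  have X := hX hH hC hE hβ hγ hr hrΛ A0 αA xA hx bx
  have P := hP hH hC hE hβ hγ hr hrΛ A0 αA hp bp p0 X
  have Y := hY hF1 hC rfl hγ hr hrΛ A0 αA xA rfl B0 γB hx (f2 hC hE hβ AG βB X)
  have Q := hQ hF2 hC hE hr hrΛ (add_nonneg A0 LB) (αA.trans (le_add_of_nonneg_right LB)) rfl B0
    γB hp p0 pJ Y
  refine ⟨?_, fun j a b => ?_⟩
  · have h1 := Q 1 zero_le_one hC.fc.J1
    rw [mul_assoc 2] at h0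
    rw [mul_assoc] at h1
    exact z1 (tL hC) hC.L1 (d0 hC) (d1 hC) hα hα0 hγ B0 γB x0 rfl rfl
      ((mul_le_mul_of_nonneg_right (pw (m1 hC) n1)
        (hC.fc.Dpos 1 zero_le_one hC.fc.J1).le).trans hC.g1) h0 h1
      (f1 hC hE hβ AG βB X) (f3 hC hE hβ AG βB P)
  · have tj := hC.top j a b
    rcases le_total j 0 with c | c
    · have mj := hC.hc.big j a c
      have bk := mul_nonneg hβ (kp_nonneg hC.hc a c)
      have h1 := P j a c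
      rw [mul_assoc β, ← pow_add] at h1
      rw [min_eq_left c, hC.Dneg j c, mul_one]
      exact ⟨z2 mj tj A0 hγ bk n2 n3 n4 (X j a c), z2 mj tj A0 hγ bk n5 n6 n7 h1⟩
    · have mj := hC.fc.big j c b
      rw [min_eq_right c]
      exact ⟨z3 mj tj A0 B0 (Y j c b),
        z4 mj tj A0 B0 (hC.fc.Dpos j c b).le (dle hC.fc c b) (Q j c b)⟩

end Pool.Agent.MP_9cbfe4_an

end

/-! ### Part Alg -/

section

/-! Row ALG: algebra of continuants, API of `wh`, `AA`, `qu`, `chi`, `load`, shift. -/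

namespace Pool.Agent.MP_9cbfe4_an
open Finset

theorem dP_lip (x y : ℝ) : |dP x - dP y| ≤ |x - y| := by
  unfold dP
  refine (abs_min_sub_min_le_max _ _ _ _).trans (max_le ?_ ?_)
  · exact (abs_abs_sub_abs_le_abs_sub _ _).trans_eq (by congr 1; ring)
  · exact (abs_abs_sub_abs_le_abs_sub _ _).trans_eq (by congr 1; ring)
theorem vt_nonneg (x : ℝ) : 0 ≤ vt x := le_max_left _ _
theorem vt_le_one (x : ℝ) : vt x ≤ 1 := max_le zero_le_one (min_le_left _ _)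
theorem vt_eq_one {x : ℝ} : vt x = 1 ↔ dP x ≤ 2 / 100 := by
  unfold vt
  constructor
  · intro h
    have h1 : (1 : ℝ) ≤ max 0 (min 1 (2 - 50 * dP x)) := h.ge
    rcases le_max_iff.1 h1 with h2 | h2
    · linarith only [h2]
    · have := (le_min_iff.1 h2).2; linarith only [this]
  · intro h
    rw [min_eq_left (by linarith only [h]), max_eq_right zero_le_one]
theorem vt_eq_zero {x : ℝ} : vt x = 0 ↔ 4 / 100 ≤ dP x := by
  unfold vt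
  rw [max_eq_left_iff, min_le_iff]
  constructor
  · rintro (h | h) <;> linarith only [h]
  · intro h; right; linarith only [h]
theorem vt_lip (x y : ℝ) : |vt x - vt y| ≤ 50 * |x - y| := by
  unfold vt
  have h := dP_lip x y
  obtain h0 : 0 ≤ 50 * |x - y| := by (clear * -; positivity)
  refine (abs_max_sub_max_le_max _ _ _ _).trans (max_le (by simpa using h0) ?_)
  refine (abs_min_sub_min_le_max _ _ _ _).trans (max_le (by simpa using h0) ?_)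
  rw [abs_le] at h ⊢
  constructor <;> linarith only [h.1, h.2]

theorem sum_Ioc_add (f : ℤ → ℝ) {i j k : ℤ} (h1 : i ≤ j) (h2 : j ≤ k) :
    ∑ l ∈ Ioc i k, f l = ∑ l ∈ Ioc i j, f l + ∑ l ∈ Ioc j k, f l := by
  rw [← Finset.Ioc_union_Ioc_eq_Ioc h1 h2, sum_union (Finset.Ioc_disjoint_Ioc_of_le le_rfl)]
theorem prod_Ioc_mul (f : ℤ → ℝ) {i j k : ℤ} (h1 : i ≤ j) (h2 : j ≤ k) :
    ∏ l ∈ Ioc i k, f l = (∏ l ∈ Ioc i j, f l) * ∏ l ∈ Ioc j k, f l := by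
  rw [← Finset.Ioc_union_Ioc_eq_Ioc h1 h2, prod_union (Finset.Ioc_disjoint_Ioc_of_le le_rfl)]
theorem Ioc_succ_self (j : ℤ) : Ioc j (j + 1) = {j + 1} := by
  ext l; simp only [mem_Ioc, mem_singleton]; omega
theorem sum_Ico_succ (f : ℤ → ℝ) {s j : ℤ} (h : s ≤ j) :
    ∑ i ∈ Ico s (j + 1), f i = ∑ i ∈ Ico s j, f i + f j := by
  obtain this : Ico s (j + 1) = insert j (Ico s j) := by
    ext l; simp only [mem_Ico, mem_insert]; omega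
  rw [this, sum_insert (by simp), add_comm]
theorem sum_Ioc_one {i j : ℤ} (h : i ≤ j) : ∑ _l ∈ Ioc i j, (1 : ℝ) = ((j - i : ℤ) : ℝ) := by
  rw [sum_const, Int.card_Ioc, nsmul_eq_mul, mul_one, ← Int.cast_natCast,
    Int.toNat_of_nonneg (by omega)]

namespace Sq
variable (c : Cs) (S : Sq)

theorem fr_self (i : ℤ) : S.fr i i = 1 := by simp [fr, frP]
theorem fr_lt {i j : ℤ} (h : j < i) : S.fr i j = 0 := by simp [fr, not_le.2 h]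
theorem fr_pred (i : ℤ) : S.fr i (i - 1) = 0 := S.fr_lt (by omega)
theorem fr_succ_self (i : ℤ) : S.fr (i + 1) i = 0 := S.fr_lt (by omega)
theorem frP_eq (i : ℤ) (n : ℕ) : S.frP i n = (S.fr i (i + n - 1), S.fr i (i + n)) := by
  obtain h2 : ∀ m : ℕ, S.fr i (i + m) = (S.frP i m).2 := fun m => by
    simp [fr]
  refine Prod.ext ?_ (h2 n).symm
  cases n with
  | zero => simp [frP, fr_pred]
  | succ m =>
    obtain this : i + ((m + 1 : ℕ) : ℤ) - 1 = i + m := by push_cast; ring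
    rw [this, h2]; rfl
theorem fr_sol (i : ℤ) : S.Sol (S.fr i) i := by
  intro j hj
  obtain ⟨m, rfl⟩ : ∃ m : ℕ, j = i + m := ⟨(j - i).toNat, by omega⟩
  have h := congrArg Prod.snd (S.frP_eq i (m + 1))
  obtain e : i + ((m + 1 : ℕ) : ℤ) = i + m + 1 := by push_cast; ring
  rw [e] at h
  simp only [frP, S.frP_eq i m] at h
  exact h.symm
theorem fr_succ {i j : ℤ} (h : i ≤ j) :
    S.fr i (j + 1) = S.a j * S.fr i j + S.b j * S.fr i (j - 1) := S.fr_sol i j h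
theorem fr_one (i : ℤ) : S.fr i (i + 1) = S.a i := by
  rw [S.fr_succ le_rfl, fr_self, fr_pred]; ring
theorem Sol.mono {S : Sq} {ξ : ℤ → ℝ} {s n : ℤ} (h : S.Sol ξ s) (hs : s ≤ n) : S.Sol ξ n :=
  fun j hj => h j (hs.trans hj)
/-- variation of constants -/
theorem voc {Z q : ℤ → ℝ} {s n : ℤ}
    (h : ∀ j, s ≤ j → j < n → Z (j + 1) = S.a j * Z j + S.b j * Z (j - 1) + q j) {j : ℤ}
    (h1 : s ≤ j) (h2 : j ≤ n) :
    Z j = Z s * S.fr s j + S.b s * Z (s - 1) * S.fr (s + 1) j + ∑ i ∈ Ico s j, S.fr (i + 1) j * q i := by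
  set G : ℤ → ℝ := fun j => Z s * S.fr s j + S.b s * Z (s - 1) * S.fr (s + 1) j +
    ∑ i ∈ Ico s j, S.fr (i + 1) j * q i with hG
  obtain key : ∀ j, s ≤ j → j ≤ n → Z j = G j ∧ (j = s ∨ Z (j - 1) = G (j - 1)) := by
    intro j hj
    induction j, hj using Int.leInduction with
    | base => exact fun _ => ⟨by simp [hG, fr_self, fr_succ_self], Or.inl rfl⟩
    | succ j hj ih =>
      intro hn
      obtain ⟨e1, e2⟩ := ih (by omega)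
      refine ⟨?_, Or.inr (by rw [add_sub_cancel_right]; exact e1)⟩
      rw [h j hj (by omega)]
      rcases hj.eq_or_lt with rfl | hlt
      · simp only [hG]
        rw [sum_Ico_succ _ le_rfl]
        simp [fr_self, fr_one]; ring
      · rw [e1, e2.resolve_left (by omega)]
        simp only [hG]
        obtain e3 : ∑ i ∈ Ico s j, S.fr (i + 1) (j - 1) * q i =
            ∑ i ∈ Ico s (j - 1), S.fr (i + 1) (j - 1) * q i := by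
          obtain this := sum_Ico_succ (fun i => S.fr (i + 1) (j - 1) * q i) (show s ≤ j - 1 by omega)
          rw [sub_add_cancel, S.fr_pred j, zero_mul, add_zero] at this
          exact this
        obtain e4 : ∑ i ∈ Ico s j, S.fr (i + 1) (j + 1) * q i =
            S.a j * ∑ i ∈ Ico s j, S.fr (i + 1) j * q i +
              S.b j * ∑ i ∈ Ico s j, S.fr (i + 1) (j - 1) * q i := by
          rw [mul_sum, mul_sum, ← sum_add_distrib]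
          refine sum_congr rfl fun i hi => ?_
          rw [S.fr_succ (show i + 1 ≤ j by have := (mem_Ico.1 hi).2; omega)]; ring
        rw [sum_Ico_succ _ hj, e4, e3, fr_self, S.fr_succ hj, S.fr_succ (show s + 1 ≤ j by omega)]
        ring
  exact (key j h1 h2).1
/-- representation of a solution on `[i, n]` by its data at `i - 1`, `i` -/
theorem repr_on {ξ : ℤ → ℝ} {i n : ℤ}
    (h : ∀ j, i ≤ j → j < n → ξ (j + 1) = S.a j * ξ j + S.b j * ξ (j - 1))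
    {p : ℤ} (hp : i ≤ p) (hn : p ≤ n) :
    ξ p = ξ i * S.fr i p + S.b i * ξ (i - 1) * S.fr (i + 1) p := by
  simpa using S.voc (q := fun _ => 0) (fun j h1 h2 => by rw [h j h1 h2, add_zero]) hp hn
/-- `u_j ξ_p - ξ_j u_p` is the Wronskian at `j` times the continuant -/
theorem cross {ξ u : ℤ → ℝ} {j p : ℤ}
    (hξ : ∀ l, j < l → l < p → ξ (l + 1) = S.a l * ξ l + S.b l * ξ (l - 1))
    (hu : ∀ l, j < l → l < p → u (l + 1) = S.a l * u l + S.b l * u (l - 1)) (hp : j ≤ p) :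
    u j * ξ p - ξ j * u p = (u j * ξ (j + 1) - ξ j * u (j + 1)) * S.fr (j + 1) p := by
  rcases hp.eq_or_lt with rfl | hlt
  · simp [mul_comm, fr_succ_self]
  rw [S.repr_on (i := j + 1) (n := p) (fun l h1 h2 => hξ l (by omega) h2) (by omega) le_rfl,
    S.repr_on (i := j + 1) (n := p) (fun l h1 h2 => hu l (by omega) h2) (by omega) le_rfl]
  simp only [add_sub_cancel_right]; ring
theorem Pb_mul {i j l : ℤ} (h1 : i ≤ j) (h2 : j ≤ l) : S.Pb i l = S.Pb i j * S.Pb j l :=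
  prod_Ioc_mul _ h1 h2
theorem Pb_self (i : ℤ) : S.Pb i i = 1 := by simp [Pb]
theorem Pb_one (j : ℤ) : S.Pb j (j + 1) = S.b (j + 1) := by simp [Pb, Ioc_succ_self]
/-- signed Wronskian -/
theorem wronski_sgn {ξ u : ℤ → ℝ} {n j : ℤ} (hj : n ≤ j)
    (hξ : ∀ l, n < l → l ≤ j → ξ (l + 1) = S.a l * ξ l + S.b l * ξ (l - 1))
    (hu : ∀ l, n < l → l ≤ j → u (l + 1) = S.a l * u l + S.b l * u (l - 1)) :
    u j * ξ (j + 1) - ξ j * u (j + 1) =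
      (-1) ^ (j - n).toNat * S.Pb n j * (u n * ξ (n + 1) - ξ n * u (n + 1)) := by
  induction j, hj using Int.leInduction with
  | base => simp [Pb_self]
  | succ j hj ih =>
    obtain e : (j + 1 - n).toNat = (j - n).toNat + 1 := by omega
    obtain ih := ih (fun l h1 h2 => hξ l h1 (by omega)) fun l h1 h2 => hu l h1 (by omega)
    rw [hξ (j + 1) (by omega) le_rfl, hu (j + 1) (by omega) le_rfl, e, pow_succ,
      S.Pb_mul hj (show j ≤ j + 1 by omega), Pb_one]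
    simp only [add_sub_cancel_right]
    linear_combination (-S.b (j + 1)) * ih
/-- (E), signed, for `i ≤ s ≤ j` -/
theorem euler_sgn {ξ : ℤ → ℝ} {i s j : ℤ} (his : i ≤ s) (hsj : s ≤ j)
    (h : ∀ l, i < l → l < j → ξ (l + 1) = S.a l * ξ l + S.b l * ξ (l - 1)) :
    S.fr (i + 1) j * ξ s =
      ξ j * S.fr (i + 1) s + (-1) ^ (s - i).toNat * S.Pb i s * ξ i * S.fr (s + 1) j := by
  rcases hsj.eq_or_lt with rfl | hlt
  · rw [fr_succ_self]; ring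
  obtain hc := S.cross (ξ := ξ) (u := S.fr (i + 1)) (fun l h1 h2 => h l (by omega) h2)
    (fun l h1 _ => S.fr_succ (by omega)) hsj
  rw [S.wronski_sgn his (fun l h1 h2 => h l h1 (by omega)) fun l h1 _ => S.fr_succ (by omega),
    fr_succ_self, fr_self] at hc
  linear_combination (-1 : ℝ) * hc
/-- (E) -/
theorem euler {ξ : ℤ → ℝ} {i s j : ℤ} (his : i < s) (hsj : s ≤ j)
    (h : ∀ l, i < l → l < j → ξ (l + 1) = S.a l * ξ l + S.b l * ξ (l - 1)) :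
    |S.fr (i + 1) j * ξ s - ξ j * S.fr (i + 1) s| = |S.Pb i s| * |ξ i| * |S.fr (s + 1) j| := by
  rw [S.euler_sgn his.le hsj h, add_sub_cancel_left]
  simp [abs_mul, abs_pow]
/-- (N), signed -/
theorem nu_sgn {ξ : ℤ → ℝ} {n J j : ℤ} (h : S.Sol ξ n) (h0 : ξ n ≠ 0) (hJ : S.fr (n + 1) J ≠ 0)
    (h1 : n ≤ j) (h2 : j ≤ J) :
    ξ j / ξ n - S.rho ξ n J * S.fr (n + 1) j =
      (-1) ^ (j - n).toNat * S.Pb n j * S.fr (j + 1) J / S.fr (n + 1) J := by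
  have := S.euler_sgn h1 h2 fun l h1 _ => h l h1.le
  unfold rho
  field_simp
  linear_combination this
/-- (N): `ν_j = ξ_j / ξ_n - ρ ξ''_j` -/
theorem nu_abs {ξ : ℤ → ℝ} {n J j : ℤ} (h : S.Sol ξ n) (h0 : ξ n ≠ 0) (hJ : S.fr (n + 1) J ≠ 0)
    (h1 : n ≤ j) (h2 : j ≤ J) :
    |ξ j / ξ n - S.rho ξ n J * S.fr (n + 1) j| = |S.Pb n j| * |S.fr (j + 1) J| / |S.fr (n + 1) J| := by
  rw [S.nu_sgn h h0 hJ h1 h2]; simp [abs_div, abs_mul, abs_pow]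
theorem rho_one (ξ : ℤ → ℝ) (n : ℤ) : S.rho ξ n (n + 1) = ξ (n + 1) / ξ n := by
  simp [rho, fr_self]
theorem rho_mul {ξ : ℤ → ℝ} {n J : ℤ} (h0 : ξ n ≠ 0) (hJ : S.fr (n + 1) J ≠ 0) :
    ξ J = S.rho ξ n J * S.fr (n + 1) J * ξ n := by
  unfold rho; field_simp
/-- (R) -/
theorem rho_sub {ξ : ℤ → ℝ} {n j : ℤ} (J : ℤ) (h0 : ξ n ≠ 0) (hj : S.fr (n + 1) j ≠ 0) :
    S.rho ξ n j - S.rho ξ n J = (ξ j / ξ n - S.rho ξ n J * S.fr (n + 1) j) / S.fr (n + 1) j := by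
  rw [show S.rho ξ n j = ξ j / (ξ n * S.fr (n + 1) j) from rfl]
  field_simp
/-- `ρ = a + b s + b₊ e` -/
theorem rho_eq {ξ : ℤ → ℝ} {n J : ℤ} (h : S.Sol ξ n) (h0 : ξ n ≠ 0) (hJ : S.fr (n + 1) J ≠ 0)
    (h1 : n < J) : S.rho ξ n J = S.a n + S.b n * (ξ (n - 1) / ξ n)
      + S.b (n + 1) * (S.fr (n + 2) J / S.fr (n + 1) J) := by
  obtain this := S.repr_on (ξ := ξ) (i := n + 1) (n := J) (fun l h1 _ => h l (by omega)) (by omega) le_rfl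
  rw [add_sub_cancel_right, h n le_rfl, show n + 1 + 1 = n + 2 by ring] at this
  unfold rho
  rw [this]; field_simp

theorem kk_mem (j : ℤ) : 0 ≤ S.kk j ∧ S.kk j ≤ 1 :=
  ⟨mul_nonneg (vt_nonneg _) (vt_nonneg _), mul_le_one₀ (vt_le_one _) (vt_nonneg _) (vt_le_one _)⟩
theorem kk_eq_one {j : ℤ} : S.kk j = 1 ↔ dP (S.X j) ≤ 2 / 100 ∧ dP (S.X (j - 1)) ≤ 2 / 100 := by
  rw [← vt_eq_one, ← vt_eq_one]
  unfold kk
  refine ⟨fun h => ?_, fun h => by rw [h.1, h.2, one_mul]⟩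
  have a1 := vt_nonneg (S.X j); have a2 := vt_le_one (S.X j)
  have a3 := vt_nonneg (S.X (j - 1)); have a4 := vt_le_one (S.X (j - 1))
  constructor <;> nlinarith only [h, a1, a4, a2, a3]
theorem kk_eq_zero {j : ℤ} : S.kk j = 0 ↔ 4 / 100 ≤ dP (S.X j) ∨ 4 / 100 ≤ dP (S.X (j - 1)) := by
  rw [← vt_eq_zero, ← vt_eq_zero]; exact mul_eq_zero
theorem kk_lip (S' : Sq) (j j' : ℤ) :
    |S'.kk j' - S.kk j| ≤ 50 * (|S'.X j' - S.X j| + |S'.X (j' - 1) - S.X (j - 1)|) := by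
  have h1 := vt_lip (S'.X j') (S.X j)
  have h2 := vt_lip (S'.X (j' - 1)) (S.X (j - 1))
  obtain e : S'.kk j' - S.kk j = (vt (S'.X j') - vt (S.X j)) * vt (S'.X (j' - 1)) +
      vt (S.X j) * (vt (S'.X (j' - 1)) - vt (S.X (j - 1))) := by unfold kk; ring
  rw [e]
  refine (abs_add_le _ _).trans ?_
  rw [abs_mul, abs_mul, abs_of_nonneg (vt_nonneg (S'.X (j' - 1))), abs_of_nonneg (vt_nonneg (S.X j))]
  have a1 := mul_le_of_le_one_right (abs_nonneg (vt (S'.X j') - vt (S.X j))) (vt_le_one (S'.X (j' - 1)))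
  have a2 := mul_le_of_le_one_left (abs_nonneg (vt (S'.X (j' - 1)) - vt (S.X (j - 1))))
    (vt_le_one (S.X j))
  linarith only [h1, h2, a1, a2]
theorem chi_add {i j l : ℤ} (h1 : i ≤ j) (h2 : j ≤ l) : S.chi c i l = S.chi c i j + S.chi c j l :=
  sum_Ioc_add _ h1 h2
theorem chi_self (i : ℤ) : S.chi c i i = 0 := by simp [chi]
theorem chi_succ (i : ℤ) : S.chi c i (i + 1) = S.ch1 c (i + 1) := by simp [chi, Ioc_succ_self]
theorem ch1_mem (h : c.chK ≤ c.bl) (j : ℤ) : c.chK ≤ S.ch1 c j ∧ S.ch1 c j ≤ c.bl := by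
  obtain ⟨h0, h1⟩ := S.kk_mem j
  unfold ch1; constructor <;> nlinarith only [h, h1, h0]
theorem chi_ge (h : c.chK ≤ c.bl) {i j : ℤ} (hij : i ≤ j) : c.chK * (j - i : ℤ) ≤ S.chi c i j := by
  rw [← sum_Ioc_one hij, mul_sum]
  exact sum_le_sum fun l _ => by rw [mul_one]; exact (S.ch1_mem c h l).1
theorem chi_nonneg (h0 : 0 ≤ c.chK) (h : c.chK ≤ c.bl) (i j : ℤ) : 0 ≤ S.chi c i j :=
  sum_nonneg fun l _ => h0.trans (S.ch1_mem c h l).1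
theorem chi_mono (h0 : 0 ≤ c.chK) (h : c.chK ≤ c.bl) {i i' j j' : ℤ} (h1 : i' ≤ i) (h2 : j ≤ j') :
    S.chi c i j ≤ S.chi c i' j' :=
  sum_le_sum_of_subset_of_nonneg (Ioc_subset_Ioc h1 h2) fun l _ _ => h0.trans (S.ch1_mem c h l).1
theorem chi_eq {i j : ℤ} (hij : i ≤ j) :
    S.chi c i j = c.chK * S.NK i j + c.bl * (((j - i : ℤ) : ℝ) - S.NK i j) := by
  rw [← sum_Ioc_one hij]
  unfold chi NK
  rw [← sum_sub_distrib, mul_sum, mul_sum, ← sum_add_distrib]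
  exact sum_congr rfl fun l _ => by unfold ch1; ring
theorem NK_add {i j l : ℤ} (h1 : i ≤ j) (h2 : j ≤ l) : S.NK i l = S.NK i j + S.NK j l :=
  sum_Ioc_add _ h1 h2
theorem NK_self (i : ℤ) : S.NK i i = 0 := by simp [NK]
theorem NK_one (j : ℤ) : S.NK j (j + 1) = S.kk (j + 1) := by simp [NK, Ioc_succ_self]
theorem NK_nonneg (i j : ℤ) : 0 ≤ S.NK i j := sum_nonneg fun l _ => (S.kk_mem l).1
theorem NK_le {i j : ℤ} (h : i ≤ j) : S.NK i j ≤ ((j - i : ℤ) : ℝ) := by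
  rw [← sum_Ioc_one h]; exact sum_le_sum fun l _ => (S.kk_mem l).2
theorem NK_mono {i i' j j' : ℤ} (h1 : i' ≤ i) (h2 : j ≤ j') : S.NK i j ≤ S.NK i' j' :=
  sum_le_sum_of_subset_of_nonneg (Ioc_subset_Ioc h1 h2) fun l _ _ => (S.kk_mem l).1
theorem PB_mul (θ : ℝ) {i j l : ℤ} (h1 : i ≤ j) (h2 : j ≤ l) :
    S.PB c θ i l = S.PB c θ i j * S.PB c θ j l := prod_Ioc_mul _ h1 h2
theorem PB_self (θ : ℝ) (i : ℤ) : S.PB c θ i i = 1 := by simp [PB]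
theorem bb_pos (hk : 0 < c.k0 * c.L + 1) (θ : ℝ) (l : ℤ) : 0 < S.bb c θ l := by
  unfold bb; split_ifs
  · exact hk
  · exact Real.exp_pos _
theorem PB_pos (hk : 0 < c.k0 * c.L + 1) (θ : ℝ) (i j : ℤ) : 0 < S.PB c θ i j :=
  prod_pos fun l _ => S.bb_pos c hk θ l
theorem bb_mono (h : Real.exp (-c.bl) ≤ c.k0 * c.L + 1) {θ θ' : ℝ} (hθ : θ ≤ θ') (l : ℤ) :
    S.bb c θ l ≤ S.bb c θ' l := by
  unfold bb; split_ifs with h1 h2
  · exact le_rfl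
  · exact absurd ⟨h1.1.trans hθ, h1.2.trans hθ⟩ h2
  · exact h
  · exact le_rfl
theorem PB_mono (h : Real.exp (-c.bl) ≤ c.k0 * c.L + 1) {θ θ' : ℝ} (hθ : θ ≤ θ') (i j : ℤ) :
    S.PB c θ i j ≤ S.PB c θ' i j :=
  prod_le_prod (fun l _ => (S.bb_pos c ((Real.exp_pos _).trans_le h) θ l).le)
    fun l _ => S.bb_mono c h hθ l
theorem bb_le (h0 : 0 < c.k0) (h1 : 1 ≤ c.k0 * c.L) (h : c.chK ≤ c.bl) (hl : 0 ≤ c.lam) (l : ℤ) :
    S.bb c (2 / 100) l ≤ Real.exp (-S.ch1 c l + (c.lam + 1) * S.kk l) := by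
  obtain hL : 0 < c.L := by by_contra hn; nlinarith only [h1, h0, hn]
  unfold bb; split_ifs with hb
  · have e : S.kk l = 1 := S.kk_eq_one.2 hb
    obtain e2 : -S.ch1 c l + (c.lam + 1) * S.kk l = Real.log c.k0 + Real.log c.L + 1 := by
      unfold ch1 Cs.chK Cs.lam; rw [e, one_div, Real.log_inv]; ring
    rw [e2, Real.exp_add, Real.exp_add, Real.exp_log h0, Real.exp_log hL]
    have := Real.add_one_le_exp (1 : ℝ)
    nlinarith only [h1, this]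
  · apply Real.exp_le_exp.2
    have := (S.ch1_mem c h l).2
    obtain this := mul_nonneg (show 0 ≤ c.lam + 1 by linarith only [hl]) (S.kk_mem l).1
    linarith
theorem PB_le (h0 : 0 < c.k0) (h1 : 1 ≤ c.k0 * c.L) (h : c.chK ≤ c.bl) {i j : ℤ} (_hij : i ≤ j)
    (hl : 0 ≤ c.lam) :
    S.PB c (2 / 100) i j ≤ Real.exp (-S.chi c i j + (c.lam + 1) * S.NK i j) := by
  obtain e : -S.chi c i j + (c.lam + 1) * S.NK i j =
      ∑ l ∈ Ioc i j, (-S.ch1 c l + (c.lam + 1) * S.kk l) := by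
    rw [sum_add_distrib, sum_neg_distrib, ← mul_sum]; rfl
  rw [e, Real.exp_sum]
  exact prod_le_prod (fun l _ => (S.bb_pos c (by linarith only [h1]) _ l).le)
    fun l _ => S.bb_le c h0 h1 h hl l
theorem OK.b_pos {c : Cs} {S : Sq} (h : S.OK c) {j : ℤ} (hj : 0 ≤ j) : 0 < S.b j :=
  lt_of_lt_of_le (by positivity) (h.b_lo j hj)
theorem OK.Pb_le {c : Cs} {S : Sq} (h : S.OK c) {θ : ℝ} (hθ : 1 / 100 ≤ θ) {i j : ℤ} (hi : -1 ≤ i) :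
    0 < S.Pb i j ∧ S.Pb i j ≤ S.PB c θ i j :=
  ⟨prod_pos fun l hl => h.b_pos (by have := (mem_Ioc.1 hl).1; omega),
    prod_le_prod (fun l hl => (h.b_pos (by have := (mem_Ioc.1 hl).1; omega)).le)
      fun l hl => h.b_hi l θ (by have := (mem_Ioc.1 hl).1; omega) hθ⟩

theorem le_wh (ξ : ℤ → ℝ) {s i j : ℤ} (h1 : s - 1 ≤ i) (h2 : i ≤ j) :
    |ξ i| * Real.exp (-S.chi c i j / 2) ≤ S.wh c ξ s j :=
  (Finset.le_fold_max _).2 (Or.inr ⟨i, mem_Icc.2 ⟨h1, h2⟩, le_rfl⟩)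
theorem wh_le (ξ : ℤ → ℝ) {s j : ℤ} {B : ℝ} (hB : 0 ≤ B)
    (h : ∀ i, s - 1 ≤ i → i ≤ j → |ξ i| * Real.exp (-S.chi c i j / 2) ≤ B) : S.wh c ξ s j ≤ B :=
  (Finset.fold_max_le _).2 ⟨hB, fun i hi => h i (mem_Icc.1 hi).1 (mem_Icc.1 hi).2⟩
theorem wh_nonneg (ξ : ℤ → ℝ) (s j : ℤ) : 0 ≤ S.wh c ξ s j :=
  (Finset.le_fold_max _).2 (Or.inl le_rfl)
theorem abs_le_wh (ξ : ℤ → ℝ) {s j : ℤ} (h : s - 1 ≤ j) : |ξ j| ≤ S.wh c ξ s j := by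
  simpa [chi_self] using S.le_wh c ξ h le_rfl
theorem exp_chi_add {i j k : ℤ} (h1 : i ≤ j) (h2 : j ≤ k) :
    Real.exp (-S.chi c i k / 2) = Real.exp (-S.chi c i j / 2) * Real.exp (-S.chi c j k / 2) := by
  rw [← Real.exp_add, S.chi_add c h1 h2]; ring_nf
theorem wh_decay' (ξ : ℤ → ℝ) (s : ℤ) {i j : ℤ} (h : i ≤ j) :
    S.wh c ξ s i * Real.exp (-S.chi c i j / 2) ≤ S.wh c ξ s j := by
  rw [← le_div_iff₀ (Real.exp_pos _)]
  refine S.wh_le c ξ (div_nonneg (S.wh_nonneg c _ _ _) (Real.exp_pos _).le) fun l h1 h2 => ?_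
  rw [le_div_iff₀ (Real.exp_pos _), mul_assoc, ← S.exp_chi_add c h2 h]
  exact S.le_wh c ξ h1 (h2.trans h)
theorem wh_decay (ξ : ℤ → ℝ) {s i j : ℤ} (_h1 : s - 1 ≤ i) (h2 : i ≤ j) :
    S.wh c ξ s i * Real.exp (-S.chi c i j / 2) ≤ S.wh c ξ s j := S.wh_decay' c ξ s h2
/-- to bound `wh_j` it is enough to bound `wh_n e^{-χ(n,j)/2}` and the terms after `n` -/
theorem wh_le_of (ξ : ℤ → ℝ) {s n j : ℤ} {B : ℝ} (hn : n ≤ j)
    (h0 : S.wh c ξ s n * Real.exp (-S.chi c n j / 2) ≤ B)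
    (h : ∀ i, n < i → i ≤ j → |ξ i| * Real.exp (-S.chi c i j / 2) ≤ B) : S.wh c ξ s j ≤ B := by
  refine S.wh_le c ξ ((mul_nonneg (S.wh_nonneg c _ _ _) (Real.exp_pos _).le).trans h0)
    fun i h1 h2 => ?_
  rcases le_or_gt i n with hi | hi
  · rw [S.exp_chi_add c hi hn, ← mul_assoc]
    exact (mul_le_mul_of_nonneg_right (S.le_wh c ξ h1 hi) (Real.exp_pos _).le).trans h0
  · exact h i hi h2
theorem wh_succ (ξ : ℤ → ℝ) {s j : ℤ} (h : s ≤ j) :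
    S.wh c ξ s j = max |ξ j| (S.wh c ξ s (j - 1) * Real.exp (-S.ch1 c j / 2)) := by
  obtain e : S.ch1 c j = S.chi c (j - 1) j := by
    have := S.chi_succ c (j - 1); rw [sub_add_cancel] at this; exact this.symm
  rw [e]
  refine le_antisymm (S.wh_le_of c ξ (show j - 1 ≤ j by omega) (le_max_right _ _) fun i h1 h2 => ?_)
    (max_le (S.abs_le_wh c ξ (by omega)) (S.wh_decay' c ξ s (by omega)))
  obtain rfl : i = j := by omega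
  simp [chi_self]
theorem wh_attained (ξ : ℤ → ℝ) {s j : ℤ} (h : s - 1 ≤ j) : ∃ i, s - 1 ≤ i ∧ i ≤ j ∧
    S.wh c ξ s j = |ξ i| * Real.exp (-S.chi c i j / 2) ∧ S.wh c ξ s i = |ξ i| := by
  obtain ⟨i, hi, hm⟩ := exists_max_image (Icc (s - 1) j)
    (fun i => |ξ i| * Real.exp (-S.chi c i j / 2)) ⟨j, mem_Icc.2 ⟨h, le_rfl⟩⟩
  obtain ⟨h1, h2⟩ := mem_Icc.1 hi
  obtain e : S.wh c ξ s j = |ξ i| * Real.exp (-S.chi c i j / 2) :=
    le_antisymm (S.wh_le c ξ (by positivity) fun l a b => hm l (mem_Icc.2 ⟨a, b⟩))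
      (S.le_wh c ξ h1 h2)
  refine ⟨i, h1, h2, e, le_antisymm ?_ (S.abs_le_wh c ξ h1)⟩
  have := S.wh_decay' c ξ s h2
  rw [e] at this
  exact le_of_mul_le_mul_right this (Real.exp_pos _)
theorem wh_pos {ξ : ℤ → ℝ} {s j : ℤ} (h0 : ξ s ≠ 0) (h : s ≤ j) : 0 < S.wh c ξ s j :=
  (mul_pos (abs_pos.2 h0) (Real.exp_pos _)).trans_le (S.le_wh c ξ (by omega) h)
theorem one_le_AA (ξ : ℤ → ℝ) (s j : ℤ) : 1 ≤ S.AA c ξ s j :=
  (Finset.le_fold_max _).2 (Or.inl le_rfl)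
theorem AA_self (ξ : ℤ → ℝ) (s : ℤ) : S.AA c ξ s s = 1 := by simp [AA]
theorem le_AA (ξ : ℤ → ℝ) {s l j : ℤ} (h1 : s < l) (h2 : l ≤ j) :
    S.DD c (S.wh c ξ s) s l / S.wh c ξ s l ≤ S.AA c ξ s j :=
  (Finset.le_fold_max _).2 (Or.inr ⟨l, mem_Ioc.2 ⟨h1, h2⟩, le_rfl⟩)
theorem AA_mono (ξ : ℤ → ℝ) (s : ℤ) {i j : ℤ} (h : i ≤ j) : S.AA c ξ s i ≤ S.AA c ξ s j :=
  (Finset.fold_max_le _).2 ⟨S.one_le_AA c ξ s j, fun _ hl =>
    S.le_AA c ξ (mem_Ioc.1 hl).1 ((mem_Ioc.1 hl).2.trans h)⟩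
theorem DD_le_AA {ξ : ℤ → ℝ} {s j : ℤ} (h0 : ξ s ≠ 0) (h : s ≤ j) :
    S.DD c (S.wh c ξ s) s j ≤ S.AA c ξ s j * S.wh c ξ s j := by
  rcases h.eq_or_lt with rfl | hlt
  · rw [AA_self, one_mul]; simpa [DD] using S.wh_nonneg c ξ s s
  · rw [← div_le_iff₀ (S.wh_pos c h0 h)]; exact S.le_AA c ξ hlt le_rfl
theorem AA_le {ξ : ℤ → ℝ} {s n p : ℤ} {B : ℝ} (h0 : ξ s ≠ 0) (_hs : s ≤ n) (hB : S.AA c ξ s n ≤ B)
    (h : ∀ j, n < j → j ≤ p → S.DD c (S.wh c ξ s) s j ≤ B * S.wh c ξ s j) : S.AA c ξ s p ≤ B := by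
  refine (Finset.fold_max_le _).2 ⟨(S.one_le_AA c ξ s n).trans hB, fun l hl => ?_⟩
  obtain ⟨h1, h2⟩ := mem_Ioc.1 hl
  rcases le_or_gt l n with hn | hn
  · exact (S.le_AA c ξ h1 hn).trans hB
  · rw [div_le_iff₀ (S.wh_pos c h0 h1.le)]; exact h l hn h2
/-- the intrinsic certificate -/
theorem cert_wh {c : Cs} {S : Sq} (h : S.OK c) (hk : 1 / 16 ≤ c.k0) (hk' : c.k0 < 1 / 2)
    (hl : 1 ≤ c.lam) (hb : c.chK ≤ c.bl) {ξ : ℤ → ℝ} {s n : ℤ} (hs : S.St c ξ s) (hn : s ≤ n) :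
    S.Cert c (2 / 100) (S.wh c ξ s) (S.AA c ξ s) s n ∧ S.Maj ξ 1 (S.wh c ξ s) s n ∧
    ∀ j, s ≤ j → S.wh c ξ s (j + 1) ≤ 6 * c.L * S.wh c ξ s j ∧ S.wh c ξ s j ≤ 6 * S.AA c ξ s (j + 1) := by
  obtain ⟨s0, hsol, h1, -⟩ := hs
  obtain hne : ξ s ≠ 0 := by rw [h1]; exact one_ne_zero
  obtain hk0 : 0 < c.k0 := by linarith only [hk, hk']
  obtain hi : 0 < 1 / c.lam := by positivity
  obtain hi' : 1 / c.lam ≤ 1 := by rw [div_le_one (by linarith only [hk', hl, hk0])]; exact hl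
  obtain hL0 : 0 ≤ c.L := by
    have := (abs_nonneg _).trans (h.a_hi 0 le_rfl)
    by_contra hn; nlinarith only [this, hk', hn, hk0, hi]
  obtain hL : 2 ≤ c.L := by
    obtain h0 : c.L ≠ 0 := fun e => by
      obtain this : c.lam = 0 := by unfold Cs.lam; rw [e, Real.log_zero]
      linarith only [hk', hl, hk0, this]
    have e : Real.exp c.lam = c.L := Real.exp_log (lt_of_le_of_ne hL0 (Ne.symm h0))
    have := Real.add_one_le_exp c.lam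
    linarith only [hl, e, this]
  obtain hK0 : 0 ≤ c.chK := Real.log_nonneg (by rw [le_div_iff₀ hk0]; linarith only [hk', hk0])
  obtain hK4 : Real.exp (c.chK / 2) ≤ 4 := by
    obtain e : Real.exp (c.chK / 2) ^ 2 = 1 / c.k0 := by
      rw [← Real.exp_nat_mul, show ((2 : ℕ) : ℝ) * (c.chK / 2) = c.chK by push_cast; ring]
      exact Real.exp_log (by (clear * - hk; positivity))
    obtain this : 1 / c.k0 ≤ 16 := by rw [div_le_iff₀ hk0]; linarith only [hk]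
    nlinarith only [e, this, hk', hk0, Real.exp_pos (c.chK / 2)]
  obtain back : ∀ j, S.wh c ξ s (j - 1) ≤ Real.exp (S.ch1 c j / 2) * S.wh c ξ s j := by
    intro j
    obtain this := S.wh_decay' c ξ s (show j - 1 ≤ j by omega)
    have e := S.chi_succ c (j - 1)
    rw [sub_add_cancel] at e
    rw [e, neg_div, Real.exp_neg, ← div_eq_mul_inv, div_le_iff₀ (Real.exp_pos _), mul_comm] at this
    exact this
  obtain chK_eq : ∀ j, dP (S.X j) ≤ 2 / 100 → dP (S.X (j - 1)) ≤ 2 / 100 → S.ch1 c j = c.chK := by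
    intro j a b
    unfold ch1; rw [S.kk_eq_one.2 ⟨a, b⟩]; ring
  obtain fwd : ∀ j, s ≤ j → S.wh c ξ s (j + 1) ≤ 6 * c.L * S.wh c ξ s j := by
    intro j hj
    have w0 := S.wh_nonneg c ξ s j
    rw [S.wh_succ c ξ (show s ≤ j + 1 by omega), add_sub_cancel_right]
    refine max_le ?_ ?_
    · obtain hb4 : S.b j * Real.exp (S.ch1 c j / 2) ≤ 4 * c.L := by
        refine (mul_le_mul_of_nonneg_right (h.b_hi j (2 / 100) (by omega) (by norm_num))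
          (Real.exp_pos _).le).trans ?_
        unfold bb; split_ifs with hb'
        · rw [chK_eq j hb'.1 hb'.2]
          obtain this : 0 ≤ c.k0 * c.L + 1 := by (clear * - hk hL; positivity)
          nlinarith only [hL, hk', hL0, hk0, hK4, this]
        · rw [← Real.exp_add]
          have := (S.ch1_mem c hb j).2
          obtain this : Real.exp (-c.bl + S.ch1 c j / 2) ≤ 1 := Real.exp_le_one_iff.2 (by linarith only [hb, hK0, this])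
          linarith only [hk', hk0, hL, this]
      obtain bp := (h.b_pos (show 0 ≤ j by omega)).le
      obtain a1 : |S.a j| ≤ 2 * c.L := (h.a_hi j (by omega)).trans (by nlinarith only [hk', hk0, hi', hL0])
      obtain a2 := S.abs_le_wh c ξ (show s - 1 ≤ j by omega)
      obtain a3 := (S.abs_le_wh c ξ (show s - 1 ≤ j - 1 by omega)).trans (back j)
      rw [hsol j hj]
      refine (abs_add_le _ _).trans ?_
      rw [abs_mul, abs_mul, abs_of_nonneg bp]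
      obtain b1 := mul_le_mul a1 a2 (abs_nonneg _) (by linarith only [hk', hk0, hL])
      have b2 := mul_le_mul_of_nonneg_left a3 bp
      have b3 := mul_le_mul_of_nonneg_right hb4 w0
      linarith only [b1, b2, b3]
    · have := (S.ch1_mem c hb (j + 1)).1
      obtain this : Real.exp (-S.ch1 c (j + 1) / 2) ≤ 1 := Real.exp_le_one_iff.2 (by linarith only [hK0, this])
      nlinarith only [hk', hk0, hL0, w0, hL, this]
  refine ⟨⟨S.wh_nonneg c _ _ _, fun j a _ => S.wh_pos c hne a, fun j _ _ a b => ?_, fun j _ _ => ?_,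
    fun j a _ => ?_, fun i j _ a _ => S.AA_mono c ξ s a, by rw [AA_self]; exact one_pos,
    fun j a _ => S.DD_le_AA c hne a⟩,
    ⟨fun j a _ => hsol j a, fun j a _ => by rw [one_mul]; exact S.abs_le_wh c ξ a⟩,
    fun j hj => ⟨fwd j hj, ?_⟩⟩
  · have := back j
    rw [chK_eq j a b] at this
    nlinarith only [this, hk', hk0, hK4, S.wh_nonneg c ξ s j]
  · obtain h2 : Real.exp (S.ch1 c j / 2) ≤ Real.exp (c.bl / 2) :=
      Real.exp_le_exp.2 (by linarith only [(S.ch1_mem c hb j).2])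
    have := back j
    nlinarith only [this, hk', hk0, h2, S.wh_nonneg c ξ s j, Real.exp_pos (c.bl / 2)]
  · have := fwd j a
    nlinarith only [this, hk', hk0, hL0, S.wh_nonneg c ξ s j]
  · have wp := S.wh_pos c hne hj
    obtain d1 := S.DD_le_AA c hne (show s ≤ j + 1 by omega)
    obtain d2 : c.L * S.wh c ξ s j ^ 2 ≤ S.DD c (S.wh c ξ s) s (j + 1) := by
      unfold DD
      rw [sum_Ico_succ _ hj, fr_self, abs_one, one_mul]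
      obtain this : 0 ≤ ∑ i ∈ Ico s j, |S.fr (i + 1) (j + 1)| * c.L * S.wh c ξ s i ^ 2 :=
        sum_nonneg fun i _ => by (clear * - hL; positivity)
      linarith only [this]
    have d3 := mul_le_mul_of_nonneg_left (fwd j hj)
      (zero_le_one.trans (S.one_le_AA c ξ s (j + 1)))
    obtain d4 : c.L * S.wh c ξ s j * S.wh c ξ s j ≤
        c.L * S.wh c ξ s j * (6 * S.AA c ξ s (j + 1)) := by linarith only [d1, d2, d3]
    exact le_of_mul_le_mul_left d4 (by (clear * - hL wp; positivity))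

theorem qu_nonneg (Q : ℝ) (i j : ℤ) : 0 ≤ S.qu Q i j := (Finset.le_fold_max _).2 (Or.inl le_rfl)
theorem qu_self (Q : ℝ) (i : ℤ) : S.qu Q i i = 0 := by simp [qu]
theorem le_qu (Q : ℝ) {i m j : ℤ} (h1 : i ≤ m) (h2 : m ≤ j) :
    ∑ l ∈ Ioc m j, (S.kk l - Q * (1 - S.kk l)) ≤ S.qu Q i j :=
  (Finset.le_fold_max _).2 (Or.inr ⟨m, mem_Icc.2 ⟨h1, h2⟩, le_rfl⟩)
theorem qu_le (Q : ℝ) {i j : ℤ} {B : ℝ} (hB : 0 ≤ B)
    (h : ∀ m, i ≤ m → m ≤ j → ∑ l ∈ Ioc m j, (S.kk l - Q * (1 - S.kk l)) ≤ B) : S.qu Q i j ≤ B :=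
  (Finset.fold_max_le _).2 ⟨hB, fun m hm => h m (mem_Icc.1 hm).1 (mem_Icc.1 hm).2⟩
theorem qu_sum (Q : ℝ) {m j : ℤ} (h : m ≤ j) : ∑ l ∈ Ioc m j, (S.kk l - Q * (1 - S.kk l)) =
    S.NK m j - Q * (((j - m : ℤ) : ℝ) - S.NK m j) := by
  rw [← sum_Ioc_one h]
  unfold NK
  rw [← sum_sub_distrib, mul_sum, ← sum_sub_distrib]
theorem qu_succ (Q : ℝ) {i j : ℤ} (h : i ≤ j) :
    S.qu Q i (j + 1) = max (S.qu Q i j + S.kk (j + 1) - Q * (1 - S.kk (j + 1))) 0 := by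
  obtain sp : ∀ m, m ≤ j → ∑ l ∈ Ioc m (j + 1), (S.kk l - Q * (1 - S.kk l)) =
      ∑ l ∈ Ioc m j, (S.kk l - Q * (1 - S.kk l)) + (S.kk (j + 1) - Q * (1 - S.kk (j + 1))) := by
    intro m hm
    rw [sum_Ioc_add _ hm (show j ≤ j + 1 by omega), Ioc_succ_self, sum_singleton]
  refine le_antisymm (S.qu_le Q (le_max_right _ _) fun m h1 h2 => ?_) (max_le ?_ (S.qu_nonneg _ _ _))
  · rcases h2.eq_or_lt with rfl | hlt
    · simp
    · rw [sp m (by omega)]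
      obtain this := S.le_qu Q h1 (show m ≤ j by omega)
      exact le_max_of_le_left (by linarith only [this])
  · obtain this : S.qu Q i j ≤ S.qu Q i (j + 1) - (S.kk (j + 1) - Q * (1 - S.kk (j + 1))) := by
      refine S.qu_le Q ?_ fun m h1 h2 => ?_
      · obtain this := S.le_qu Q h (show j ≤ j + 1 by omega)
        rw [Ioc_succ_self, sum_singleton] at this
        linarith only [this]
      · obtain this := S.le_qu Q h1 (show m ≤ j + 1 by omega)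
        rw [sp m h2] at this
        linarith only [this]
    linarith only [this]
theorem qu_mono_start (Q : ℝ) {i i' : ℤ} (h : i ≤ i') (j : ℤ) : S.qu Q i' j ≤ S.qu Q i j :=
  S.qu_le Q (S.qu_nonneg _ _ _) fun _ h1 h2 => S.le_qu Q (h.trans h1) h2
theorem qu_mono_rate {Q Q' : ℝ} (h : Q ≤ Q') (i j : ℤ) : S.qu Q' i j ≤ S.qu Q i j :=
  S.qu_le Q' (S.qu_nonneg _ _ _) fun _ h1 h2 => le_trans
    (sum_le_sum fun l _ => by have := (S.kk_mem l).2; nlinarith only [h, this]) (S.le_qu Q h1 h2)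
theorem qsum_le_NK {Q : ℝ} (hQ : 0 ≤ Q) (m j : ℤ) :
    ∑ l ∈ Ioc m j, (S.kk l - Q * (1 - S.kk l)) ≤ S.NK m j :=
  sum_le_sum fun l _ => by have := (S.kk_mem l).2; nlinarith only [hQ, this]
theorem qu_le_NK {Q : ℝ} (hQ : 0 ≤ Q) (i j : ℤ) : S.qu Q i j ≤ S.NK i j :=
  S.qu_le Q (S.NK_nonneg _ _) fun m h1 _ => (S.qsum_le_NK hQ m j).trans (S.NK_mono h1 le_rfl)
theorem qu_step {Q : ℝ} (hQ : 0 ≤ Q) {i n p : ℤ} (_h1 : i ≤ n) (h2 : n ≤ p) :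
    S.qu Q i p ≤ max (S.qu Q i n - Q * (((p - n : ℤ) : ℝ) - S.NK n p)) 0 + S.NK n p := by
  have a0 := le_max_right (S.qu Q i n - Q * (((p - n : ℤ) : ℝ) - S.NK n p)) 0
  have a1 := le_max_left (S.qu Q i n - Q * (((p - n : ℤ) : ℝ) - S.NK n p)) 0
  refine S.qu_le Q (add_nonneg a0 (S.NK_nonneg _ _)) fun m h3 h4 => ?_
  rcases le_or_gt m n with hm | hm
  · rw [sum_Ioc_add _ hm h2, S.qu_sum Q h2]
    have := S.le_qu Q h3 hm
    linarith only [a1, this]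
  · have := (S.qsum_le_NK hQ m p).trans (S.NK_mono hm.le le_rfl)
    linarith only [a0, this]
theorem sum_le_qu (Q : ℝ) {i m j : ℤ} (h1 : i ≤ m) (h2 : m ≤ j) :
    S.NK m j - Q * (((j - m : ℤ) : ℝ) - S.NK m j) ≤ S.qu Q i j := by
  rw [← S.qu_sum Q h2]; exact S.le_qu Q h1 h2
theorem chi_back_ge (h : c.chK ≤ c.bl) (n : ℤ) (N : ℕ) : c.chK * N ≤ S.chi c (n - N) n := by
  obtain this := S.chi_ge c h (show n - N ≤ n by omega)
  rwa [sub_sub_cancel, Int.cast_natCast] at this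
theorem Nw_spec (h0 : 0 < c.chK) (h : c.chK ≤ c.bl) (n : ℤ) (y : ℝ) :
    y ≤ S.chi c (n - S.Nw c n y) n ∧ (∀ N : ℕ, y ≤ S.chi c (n - N) n → S.Nw c n y ≤ N) := by
  refine ⟨Nat.sInf_mem (s := {N : ℕ | y ≤ S.chi c (n - N) n}) ⟨⌈y / c.chK⌉₊, ?_⟩,
    fun N hN => Nat.sInf_le hN⟩
  have := Nat.le_ceil (y / c.chK)
  rw [div_le_iff₀ h0, mul_comm] at this
  exact this.trans (S.chi_back_ge c h n _)
theorem load_nonneg (n : ℤ) (V : ℝ) : 0 ≤ S.load c n V := S.qu_nonneg _ _ _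
theorem load_mono (h0 : 0 < c.chK) (h : c.chK ≤ c.bl) (hC : 0 ≤ c.C0) (n : ℤ) {V V' : ℝ}
    (hV : V ≤ V') : S.load c n V ≤ S.load c n V' := by
  have := (S.Nw_spec c h0 h n (c.C0 * V)).2 _
    ((mul_le_mul_of_nonneg_left hV hC).trans (S.Nw_spec c h0 h n (c.C0 * V')).1)
  exact S.qu_mono_start _ (by omega) n
theorem load_le (h0 : 1 / 2 ≤ c.chK) (h : c.chK ≤ c.bl) (hC : 0 ≤ c.C0) (hQ : 0 ≤ c.Q) (n : ℤ)
    (V : ℝ) : S.load c n V ≤ 2 * c.C0 * max V 0 + 1 := by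
  obtain p0 : 0 ≤ 2 * c.C0 * max V 0 := mul_nonneg (by linarith only [hC]) (le_max_right _ _)
  have h1 := Nat.le_ceil (2 * c.C0 * max V 0)
  have h2 := Nat.ceil_lt_add_one p0
  have h3 := S.chi_back_ge c h n ⌈2 * c.C0 * max V 0⌉₊
  have h4 := mul_le_mul_of_nonneg_left (le_max_left V 0) hC
  obtain h5 := (S.Nw_spec c (by linarith only [h0]) h n (c.C0 * V)).2 ⌈2 * c.C0 * max V 0⌉₊
    (by nlinarith only [h1, h3, h4, h0, Nat.cast_nonneg (α := ℝ) ⌈2 * c.C0 * max V 0⌉₊])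
  obtain h6 := (S.qu_le_NK hQ (n - S.Nw c n (c.C0 * V)) n).trans (S.NK_le (by omega))
  rw [sub_sub_cancel, Int.cast_natCast] at h6
  have h7 : (S.Nw c n (c.C0 * V) : ℝ) ≤ ⌈2 * c.C0 * max V 0⌉₊ := Nat.cast_le.2 h5
  unfold load; linarith only [h2, h6, h7]
theorem load_le_qu (h0 : 0 < c.chK) (h : c.chK ≤ c.bl) {s n : ℤ} {V : ℝ} (hs : s ≤ n)
    (hV : c.C0 * V ≤ S.chi c s n) : S.load c n V ≤ S.qu c.Q s n := by
  obtain e : n - ((n - s).toNat : ℤ) = s := by omega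
  obtain this := (S.Nw_spec c h0 h n (c.C0 * V)).2 (n - s).toNat (by rw [e]; exact hV)
  exact S.qu_mono_start _ (by omega) n
theorem frP_shift (k i : ℤ) (n : ℕ) : (S.shift k).frP i n = S.frP (i + k) n := by
  induction n with
  | zero => rfl
  | succ n ih =>
    simp only [frP, ih]
    simp only [shift, add_right_comm i (n : ℤ) k]
theorem fr_shift (k i j : ℤ) : (S.shift k).fr i j = S.fr (i + k) (j + k) := by
  unfold fr
  simp only [add_le_add_iff_right, add_sub_add_right_eq_sub, frP_shift]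
theorem kk_shift (k j : ℤ) : (S.shift k).kk j = S.kk (j + k) := by
  simp only [kk, shift, sub_add_eq_add_sub]
theorem chi_shift (k i j : ℤ) : (S.shift k).chi c i j = S.chi c (i + k) (j + k) := by
  unfold chi
  rw [← Finset.map_add_right_Ioc, sum_map]
  exact sum_congr rfl fun l _ => by simp only [ch1, kk_shift, addRightEmbedding_apply]
theorem _root_.Pool.Agent.MP_9cbfe4_an.IsOrb.shift {c : Cs} {M : Mdl} {t : ℝ} {S : Sq} {s : ℤ}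
    (h : IsOrb c M t S s) (k : ℤ) : IsOrb c M t (S.shift k) (s - k) := by
  refine ⟨fun j hj => h.box (j + k) (by omega), fun j hj => ?_, fun j hj => ?_, fun j hj => ?_, ?_⟩
  · simp only [Sq.shift, sub_add_eq_add_sub, add_right_comm j 1 k]
    exact h.step (j + k) (by omega)
  · simp only [Sq.shift, sub_add_eq_add_sub]
    exact h.ha (j + k) (by omega)
  · simp only [Sq.shift, sub_add_eq_add_sub]
    exact h.hb (j + k) (by omega)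
  · obtain e : s - k - 1 + k = s - 1 := by ring
    simp only [Sq.shift, sub_add_cancel, e]
    exact h.core

theorem Run.le {Ex ξ s P Ls m} (h : S.Run c Ex ξ s P Ls m) : s ≤ m := by
  induction h with
  | start => exact le_rfl
  | shallow _ _ _ ih => omega
  | block _ _ _ _ _ ih1 ih2 => omega
theorem Run.tail {Ex ξ s P Ls n r p} (h : S.Run c Ex ξ s P ((n, r) :: Ls) p) :
    S.Run c Ex ξ s P Ls n ∧ P Ls n r ∧ n < p ∧ r = S.dep c ξ n p := by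
  cases h with
  | shallow h1 _ h3 => exact ⟨h1, h3, by omega, rfl⟩
  | block h1 h2 _ _ h5 => exact ⟨h1, h5, by have := Run.le c S h2; omega, rfl⟩
theorem Run.nil {Ex ξ s P m} (h : S.Run c Ex ξ s P [] m) : m = s := by
  cases h; rfl
theorem Chain.rinv {Ex ξ s m0 Ls m} (h : S.Chain c Ex ξ s m0 Ls m) : S.RInv c ξ s m ∧ m0 ≤ m := by
  induction h with
  | nil h => exact ⟨h, le_rfl⟩
  | cons _ h2 h3 ih => exact ⟨h3, ih.2.trans h2.lt.le⟩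
theorem Chain.split {Ex ξ s m0 L1 L0 m} (h : S.Chain c Ex ξ s m0 (L1 ++ L0) m) :
    ∃ m1, S.Chain c Ex ξ s m0 L0 m1 ∧ S.Chain c Ex ξ s m1 L1 m := by
  induction L1 generalizing m with
  | nil => exact ⟨m, h, .nil (Chain.rinv c S h).1⟩
  | cons x L1 ih =>
    obtain ⟨n, r⟩ := x
    rw [List.cons_append] at h
    cases h with
    | cons h1 h2 h3 =>
      obtain ⟨m1, a, b⟩ := ih h1
      exact ⟨m1, a, .cons b h2 h3⟩
theorem Wit.anti {Ex ξ n r r'} (hL : 0 ≤ c.L) (h : S.Wit c Ex ξ n r) (hr : r' ≤ r) :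
    S.Wit c Ex ξ n r' := by
  obtain e : c.L * Real.exp (-r) ≤ c.L * Real.exp (-r') :=
    mul_le_mul_of_nonneg_left (Real.exp_le_exp.2 (by linarith only [hr])) hL
  rcases h with h | ⟨h1, h2⟩ | ⟨Ls, J, rJ, h1, h2, h3⟩
  · exact Or.inl (hr.trans h)
  · exact Or.inr (Or.inl ⟨h1.trans e, hr.trans h2⟩)
  · exact Or.inr (Or.inr ⟨Ls, J, rJ, h1, h2.trans e, by linarith only [hr, h3]⟩)
theorem Bd.anti {ξ n p r r'} (h : S.Bd c ξ n p r) (hr : r' ≤ r) : S.Bd c ξ n p r' :=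
  le_trans (mul_le_mul_of_nonneg_left
    (Real.exp_le_exp.2 (max_le_max le_rfl (by linarith only [hr]))) (sq_nonneg _)) h
end Sq

end Pool.Agent.MP_9cbfe4_an

end

/-! ### Part SL -/

section

/-! Sublevel lemmas SL1, SL2 (model free). `F j` is the `j`-th derivative of `F 0` on `I`. -/

namespace Pool.Agent.MP_9cbfe4_an

open Set MeasureTheory

/-- `F (j+1)` is the derivative of `F j` on `I` for `j < k` -/
def DChain (F : ℕ → ℝ → ℝ) (k : ℕ) (I : Set ℝ) : Prop :=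
  ∀ j < k, ∀ t ∈ I, HasDerivAt (F j) (F (j + 1) t) t

theorem DChain.mono {F : ℕ → ℝ → ℝ} {k k' : ℕ} {I I' : Set ℝ} (h : DChain F k I) (hk : k' ≤ k)
    (hI : I' ⊆ I) : DChain F k' I' := fun j hj t ht => h j (hj.trans_le hk) t (hI ht)

theorem DChain.shift {F : ℕ → ℝ → ℝ} {k : ℕ} {I : Set ℝ} (i : ℕ) (h : DChain F (i + k) I) :
    DChain (fun j => F (i + j)) k I := fun j hj t ht => h (i + j) (by omega) t ht

theorem DChain.of_contDiffOn {f : ℝ → ℝ} {k : ℕ} {U : Set ℝ} (hU : IsOpen U)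
    (h : ContDiffOn ℝ k f U) : DChain (fun j => iteratedDeriv j f) k U := fun j hj t ht => by
  have := ((h.differentiableOn_iteratedDerivWithin (m := j) (by exact_mod_cast hj)
    hU.uniqueDiffOn).congr fun x hx => (iteratedDerivWithin_of_isOpen hU hx).symm).differentiableAt
      (hU.mem_nhds ht)
  simpa [iteratedDeriv_succ] using this.hasDerivAt

theorem slope_lo {g g' : ℝ → ℝ} {I : Set ℝ} (hI : I.OrdConnected) {L : ℝ}
    (hg : ∀ t ∈ I, HasDerivAt g (g' t) t) (hL : ∀ t ∈ I, L ≤ |g' t|) {s t : ℝ} (hs : s ∈ I)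
    (ht : t ∈ I) : L * |t - s| ≤ |g t - g s| := by
  wlog h : s < t generalizing s t
  · rcases (not_lt.1 h).eq_or_lt with rfl | h
    · simp
    · rw [abs_sub_comm, abs_sub_comm (g t)]; exact this ht hs h
  obtain ⟨x, hx, e⟩ := exists_hasDerivAt_eq_slope g g' h
    (fun x hx => (hg x (hI.out hs ht hx)).continuousAt.continuousWithinAt)
    fun x hx => hg x (hI.out hs ht (Ioo_subset_Icc_self hx))
  rw [(eq_div_iff (sub_pos.2 h).ne').1 e |>.symm, abs_mul]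
  exact mul_le_mul_of_nonneg_right (hL x (hI.out hs ht (Ioo_subset_Icc_self hx))) (abs_nonneg _)

theorem cut {g g' : ℝ → ℝ} {I : Set ℝ} (hI : I.OrdConnected) {L δ : ℝ} (hL0 : 0 < L)
    (hg : ∀ t ∈ I, HasDerivAt g (g' t) t) (hL : ∀ t ∈ I, L ≤ |g' t|) :
    ∃ p, ∀ t ∈ I, 2 * δ ≤ |t - p| → L * δ ≤ |g t| := by
  by_cases h : ∃ p ∈ I, |g p| < L * δ
  · obtain ⟨p, hp, h⟩ := h
    refine ⟨p, fun t ht h2 => ?_⟩
    have := slope_lo hI hg hL hp ht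
    have := abs_sub (g t) (g p)
    (rename_i zq0; nlinarith only [h, zq0, this, hL0, h2])
  · push Not at h
    exact ⟨0, fun t ht _ => h t ht⟩

/-- SL1: a sublevel set lies in fewer than `2 ^ k` intervals of radius `2 δ` -/
theorem SL1 {F : ℕ → ℝ → ℝ} {δ : ℝ} (hδ : 0 < δ) (k : ℕ) : ∀ {I : Set ℝ} {L : ℝ}, I.OrdConnected →
    0 < L → DChain F k I → (∀ t ∈ I, L ≤ |F k t|) →
    ∃ T : Finset ℝ, T.card < 2 ^ k ∧ ∀ t ∈ I, |F 0 t| < L * δ ^ k → ∃ x ∈ T, |t - x| ≤ 2 * δ := by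
  induction k with
  | zero => exact fun _ _ _ h => ⟨∅, by simp, fun t ht h' => absurd (h t ht) (by simpa using h')⟩
  | succ k ih =>
    intro I L hI hL hF h
    obtain ⟨p, hp⟩ := cut (δ := δ) hI hL (hF k k.lt_succ_self) h
    obtain ⟨T1, c1, h1⟩ := ih (hI.inter (ordConnected_Iic (a := p - 2 * δ))) (mul_pos hL hδ)
      (hF.mono k.le_succ inter_subset_left) fun t ht =>
        hp t ht.1 (le_abs.2 (.inr (by have := ht.2; simp only [mem_Iic] at this; linarith only [this])))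
    obtain ⟨T2, c2, h2⟩ := ih (hI.inter (ordConnected_Ici (a := p + 2 * δ))) (mul_pos hL hδ)
      (hF.mono k.le_succ inter_subset_left) fun t ht =>
        hp t ht.1 (le_abs.2 (.inl (by have := ht.2; simp only [mem_Ici] at this; linarith only [this])))
    refine ⟨insert p (T1 ∪ T2), ?_, fun t ht h' => ?_⟩
    · have := Finset.card_insert_le p (T1 ∪ T2)
      have := Finset.card_union_le T1 T2
      omega
    rw [pow_succ', ← mul_assoc] at h'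
    by_cases a : t ≤ p - 2 * δ
    · obtain ⟨x, hx, e⟩ := h1 t ⟨ht, a⟩ h'
      exact ⟨x, by simp [hx], e⟩
    by_cases b : p + 2 * δ ≤ t
    · obtain ⟨x, hx, e⟩ := h2 t ⟨ht, b⟩ h'
      exact ⟨x, by simp [hx], e⟩
    exact ⟨p, by simp, abs_le.2 ⟨by linarith only [a], by linarith only [b]⟩⟩

theorem vol_pre {g : ℝ → ℝ} {I : Set ℝ} {L : ℝ} (hL : 0 < L)
    (h : ∀ s ∈ I, ∀ t ∈ I, L * |t - s| ≤ |g t - g s|) (E : Set ℝ) :
    volume {t | t ∈ I ∧ g t ∈ E} ≤ ENNReal.ofReal L⁻¹ * volume E := by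
  set A := {t | t ∈ I ∧ g t ∈ E}
  obtain inj : InjOn g A := fun s hs t ht e => by
    have := h s hs.1 t ht.1
    rw [e, sub_self, abs_zero] at this
    exact (sub_eq_zero.1 (abs_nonpos_iff.1 (by nlinarith only [this, hL, abs_nonneg (t - s)]))).symm
  obtain lip : LipschitzOnWith L⁻¹.toNNReal (Function.invFunOn g A) (g '' A) :=
    LipschitzOnWith.of_dist_le' (by
      rintro _ ⟨s, hs, rfl⟩ _ ⟨t, ht, rfl⟩
      rw [inj.leftInvOn_invFunOn hs, inj.leftInvOn_invFunOn ht, Real.dist_eq, Real.dist_eq,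
        inv_mul_eq_div, le_div_iff₀' hL]
      exact h t ht.1 s hs.1)
  have := lip.hausdorffMeasure_image_le (d := 1) zero_le_one
  rw [inj.invFunOn_image subset_rfl, hausdorffMeasure_real, ENNReal.rpow_one] at this
  exact this.trans (mul_le_mul_right (measure_mono (image_subset_iff.2 fun t ht => ht.2)) _)

/-- SL2: preimage of an arbitrary set of small outer measure -/
theorem SL2 {F : ℕ → ℝ → ℝ} {δ : ℝ} (hδ : 0 < δ) (E : Set ℝ) (k : ℕ) : ∀ {I : Set ℝ} {L : ℝ},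
    I.OrdConnected → 0 < L → DChain F (k + 1) I → (∀ t ∈ I, L ≤ |F (k + 1) t|) →
    volume E ≤ ENNReal.ofReal (L * δ ^ (k + 1)) →
    volume {t | t ∈ I ∧ F 0 t ∈ E} ≤ ENNReal.ofReal ((2 ^ (k + 3) - 4) * δ) := by
  induction k with
  | zero =>
    intro I L hI hL hF h hE
    refine (vol_pre hL (fun s hs t ht => slope_lo hI (hF 0 one_pos) h hs ht) E).trans
      ((mul_le_mul_right hE _).trans ?_)
    rw [← ENNReal.ofReal_mul (by positivity), inv_mul_cancel_left₀ hL.ne']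
    exact ENNReal.ofReal_le_ofReal (by norm_num; linarith only [hδ])
  | succ k ih =>
    intro I L hI hL hF h hE
    obtain ⟨p, hp⟩ := cut (δ := δ) hI hL (hF _ (k + 1).lt_succ_self) h
    rw [pow_succ', ← mul_assoc] at hE
    obtain h1 := ih (hI.inter (ordConnected_Iic (a := p - 2 * δ))) (mul_pos hL hδ)
      (hF.mono (k + 1).le_succ inter_subset_left) (fun t ht =>
        hp t ht.1 (le_abs.2 (.inr (by have := ht.2; simp only [mem_Iic] at this; linarith only [this])))) hE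
    obtain h2 := ih (hI.inter (ordConnected_Ici (a := p + 2 * δ))) (mul_pos hL hδ)
      (hF.mono (k + 1).le_succ inter_subset_left) (fun t ht =>
        hp t ht.1 (le_abs.2 (.inl (by have := ht.2; simp only [mem_Ici] at this; linarith only [this])))) hE
    obtain h8 : (8 : ℝ) ≤ 2 ^ (k + 3) := by
      rw [pow_add]; linarith only [one_le_pow₀ (n := k) (one_le_two (α := ℝ))]
    obtain p1 : 0 ≤ (2 ^ (k + 3) - 4) * δ := by nlinarith only [hδ, h8]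
    calc _ ≤ volume (({t | t ∈ I ∩ Iic (p - 2 * δ) ∧ F 0 t ∈ E} ∪
          {t | t ∈ I ∩ Ici (p + 2 * δ) ∧ F 0 t ∈ E}) ∪ Icc (p - 2 * δ) (p + 2 * δ)) :=
          measure_mono fun t ht => by
            by_cases a : t ≤ p - 2 * δ
            · exact .inl (.inl ⟨⟨ht.1, a⟩, ht.2⟩)
            by_cases b : p + 2 * δ ≤ t
            · exact .inl (.inr ⟨⟨ht.1, b⟩, ht.2⟩)
            exact .inr ⟨(not_le.1 a).le, (not_le.1 b).le⟩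
      _ ≤ _ := by
          refine (measure_union_le _ _).trans ((add_le_add
            ((measure_union_le _ _).trans (add_le_add h1 h2)) Real.volume_Icc.le).trans ?_)
          rw [← ENNReal.ofReal_add p1 p1, ← ENNReal.ofReal_add (by (clear * - p1; positivity)) (by linarith only [hδ])]
          exact ENNReal.ofReal_le_ofReal (le_of_eq (by ring))

end Pool.Agent.MP_9cbfe4_an

end

/-! ### Part TW -/

section

/-! Row TW (model-free): Taylor window lemmas for a chain of derivatives, and the sublevel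
corollaries at the natural scale. -/

namespace Pool.Agent.MP_9cbfe4_an.TW

open Set MeasureTheory

variable {F : ℕ → ℝ → ℝ} {K j1 : ℕ} {t0 D h N : ℝ}

/-- the window `|t - t0| ≤ h` -/
def Win (t0 h : ℝ) : Set ℝ := Icc (t0 - h) (t0 + h)

lemma mem_Win {t : ℝ} : t ∈ Win t0 h ↔ |t - t0| ≤ h := by
  rw [Win, mem_Icc, abs_le]; constructor <;> rintro ⟨h1, h2⟩ <;> constructor <;> linarith only [h1, h2]

lemma Win_mono {h' : ℝ} (hh : h ≤ h') : Win t0 h ⊆ Win t0 h' := fun _ ht =>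
  mem_Win.2 ((mem_Win.1 ht).trans hh)

lemma center_mem (hh : 0 ≤ h) : t0 ∈ Win t0 h := mem_Win.2 (by simpa using hh)

lemma ordConnected_Win : (Win t0 h).OrdConnected := ordConnected_Icc

/-- mean value inequality on an order connected set -/
lemma mvt {g g' : ℝ → ℝ} {I : Set ℝ} (hI : I.OrdConnected) {B : ℝ}
    (hg : ∀ t ∈ I, HasDerivAt g (g' t) t) (hB : ∀ t ∈ I, |g' t| ≤ B) {s t : ℝ} (hs : s ∈ I)
    (ht : t ∈ I) : |g t - g s| ≤ B * |t - s| :=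
  Convex.norm_image_sub_le_of_norm_hasDerivWithin_le (𝕜 := ℝ) (f := g) (f' := g')
    (fun x hx => (hg x hx).hasDerivWithinAt) hB hI.convex hs ht

/-- abstract form: any `B` with `m a + h * B (a+1) ≤ B a` bounds the derivatives on the window -/
theorem super {m B : ℕ → ℝ} (hh : 0 ≤ h) (hF : DChain F (K + 1) (Win t0 h))
    (hp : ∀ j, j1 ≤ j → j ≤ K → |F j t0| ≤ m j) (hR : ∀ t ∈ Win t0 h, |F (K + 1) t| ≤ B (K + 1))
    (hB : ∀ j, j1 ≤ j → j ≤ K → m j + h * B (j + 1) ≤ B j) :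
    ∀ a, j1 ≤ a → a ≤ K + 1 → (∀ t ∈ Win t0 h, |F a t| ≤ B a) ∧
      (a ≤ K → ∀ s ∈ Win t0 h, ∀ t ∈ Win t0 h, |F a t - F a s| ≤ B (a + 1) * |t - s|) := by
  obtain key : ∀ i a, j1 ≤ a → a + i = K + 1 → ∀ t ∈ Win t0 h, |F a t| ≤ B a := by
    intro i
    induction i with
    | zero =>
      intro a _ ha t ht
      obtain rfl : a = K + 1 := by omega
      exact hR t ht
    | succ i ih =>
      intro a h1 ha t ht
      obtain h0 := ih (a + 1) (by omega) (by omega)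
      obtain h2 := mvt ordConnected_Win (hF a (by omega)) h0 (center_mem hh) ht
      obtain h3 := hp a h1 (by omega)
      have h5 := mul_le_mul_of_nonneg_left (mem_Win.1 ht) ((abs_nonneg _).trans (h0 t ht))
      obtain h6 := hB a h1 (by omega)
      have := abs_sub_abs_le_abs_sub (F a t) (F a t0)
      linarith only [h2, h3, h5, h6, this]
  intro a h1 ha
  exact ⟨key (K + 1 - a) a h1 (by omega), fun ha' s hs t ht =>
    mvt ordConnected_Win (hF a (by omega)) (key (K - a) (a + 1) (by omega) (by omega)) hs ht⟩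

/-- scale `D`, whole window: loss `K + 2` -/
theorem full (hD : 0 < D) (hN : 0 ≤ N) (hF : DChain F (K + 1) (Win t0 D))
    (hp : ∀ j, j1 ≤ j → j ≤ K → |F j t0| * D ^ j ≤ N)
    (hR : ∀ t ∈ Win t0 D, |F (K + 1) t| * D ^ (K + 1) ≤ N)
    {a : ℕ} (h1 : j1 ≤ a) (ha : a ≤ K + 1) {t : ℝ} (ht : t ∈ Win t0 D) :
    |F a t| * D ^ a ≤ (K + 2) * N := by
  obtain h := (super (m := fun j => N / D ^ j) (B := fun j => ((K : ℝ) + 2 - j) * N / D ^ j) hD.le hF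
    (fun j h1 h2 => (le_div_iff₀ (by positivity)).2 (hp j h1 h2))
    (fun t ht => (le_div_iff₀ (by positivity)).2 ((hR t ht).trans_eq (by push_cast; ring)))
    (fun j _ _ => le_of_eq (by push_cast; field_simp; ring)) a h1 ha).1 t ht
  rw [le_div_iff₀ (by positivity)] at h
  have : (0 : ℝ) ≤ a := Nat.cast_nonneg a
  nlinarith only [h, hN]

/-- scale `D`, window `D / 4` -/
theorem quarter (hD : 0 < D) (hN : 0 ≤ N) (hF : DChain F (K + 1) (Win t0 (D / 4)))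
    (hp : ∀ j, j1 ≤ j → j ≤ K → |F j t0| * D ^ j ≤ N)
    (hR : ∀ t ∈ Win t0 (D / 4), |F (K + 1) t| * D ^ (K + 1) ≤ N)
    {a : ℕ} (h1 : j1 ≤ a) (ha : a ≤ K + 1) :
    (∀ t ∈ Win t0 (D / 4), |F a t| * D ^ a ≤ 4 / 3 * N) ∧
    (a ≤ K → ∀ s ∈ Win t0 (D / 4), ∀ t ∈ Win t0 (D / 4),
      |F a t - F a s| * D ^ (a + 1) ≤ 4 / 3 * N * |t - s|) := by
  obtain h := super (m := fun j => N / D ^ j) (B := fun j => 4 / 3 * N / D ^ j) (by positivity) hF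
    (fun j h1 h2 => (le_div_iff₀ (by positivity)).2 (hp j h1 h2))
    (fun t ht => (le_div_iff₀ (by positivity)).2 ((hR t ht).trans (by linarith only [hN])))
    (fun j _ _ => le_of_eq (by field_simp; ring)) a h1 ha
  refine ⟨fun t ht => (le_div_iff₀ (by positivity)).1 (h.1 t ht), fun ha' s hs t ht => ?_⟩
  have := h.2 ha' s hs t ht
  rwa [div_mul_eq_mul_div, le_div_iff₀ (by positivity)] at this

/-- a jet of size `≥ θ N` keeps size `≥ (θ - 1/3) N` on the window `D / 4`;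
the lower orders `j1 ≤ j ≤ a` need no bound: take `j1 = a + 1` -/
theorem lower (hD : 0 < D) (hN : 0 ≤ N) (hF : DChain F (K + 1) (Win t0 (D / 4))) {a : ℕ}
    (ha : a ≤ K) (hp : ∀ j, a < j → j ≤ K → |F j t0| * D ^ j ≤ N)
    (hR : ∀ t ∈ Win t0 (D / 4), |F (K + 1) t| * D ^ (K + 1) ≤ N) {t : ℝ}
    (ht : t ∈ Win t0 (D / 4)) : |F a t - F a t0| * D ^ a ≤ N / 3 := by
  obtain h0 := (quarter (j1 := a + 1) hD hN hF hp hR le_rfl (by omega)).1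
  obtain h1 := mvt ordConnected_Win (B := 4 / 3 * N / D ^ (a + 1)) (hF a (by omega))
    (fun t ht => (le_div_iff₀ (by positivity)).2 (h0 t ht)) (center_mem (by positivity)) ht
  obtain h2 := mul_le_mul_of_nonneg_left (mem_Win.1 ht)
    (show 0 ≤ 4 / 3 * N / D ^ (a + 1) by positivity)
  obtain e : 4 / 3 * N / D ^ (a + 1) * (D / 4) = N / 3 / D ^ a := by field_simp; ring
  exact (le_div_iff₀ (by positivity)).1 ((h1.trans h2).trans_eq e)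

/-- the maximiser stays at natural size -/
theorem maximiser (hD : 0 < D) (hF : DChain F (K + 1) (Win t0 (D / 4))) {a : ℕ}
    (ha : a ≤ K) (hN : N = |F a t0| * D ^ a) (hp : ∀ j, a < j → j ≤ K → |F j t0| * D ^ j ≤ N)
    (hR : ∀ t ∈ Win t0 (D / 4), |F (K + 1) t| * D ^ (K + 1) ≤ N) {t : ℝ}
    (ht : t ∈ Win t0 (D / 4)) : 2 / 3 * N / D ^ a ≤ |F a t| := by
  obtain h0 : 0 ≤ N := by rw [hN]; positivity
  have h1 := lower hD h0 hF ha hp hR ht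
  have h2 := abs_sub_abs_le_abs_sub (F a t0) (F a t)
  rw [abs_sub_comm] at h2
  obtain h3 := mul_le_mul_of_nonneg_right h2 (show 0 ≤ D ^ a by positivity)
  rw [div_le_iff₀ (by positivity)]
  linarith only [hN, h1, h3]

/-- there is a maximiser among the orders `j1 ≤ j ≤ K` -/
theorem exists_max (F : ℕ → ℝ → ℝ) (t0 D : ℝ) (h : j1 ≤ K) :
    ∃ a, j1 ≤ a ∧ a ≤ K ∧ ∀ j, j1 ≤ j → j ≤ K → |F j t0| * D ^ j ≤ |F a t0| * D ^ a := by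
  obtain ⟨a, ha, hm⟩ := Finset.exists_max_image (Finset.Icc j1 K) (fun j => |F j t0| * D ^ j)
    ⟨j1, Finset.mem_Icc.2 ⟨le_rfl, h⟩⟩
  exact ⟨a, (Finset.mem_Icc.1 ha).1, (Finset.mem_Icc.1 ha).2,
    fun j h1 h2 => hm j (Finset.mem_Icc.2 ⟨h1, h2⟩)⟩

/-- some derivative of order in `[j1, K]` has natural size `≥ (2/3) N` on the window `D / 4`,
if some jet of such an order has size `≥ N` and the remainder is `≤ N` -/
theorem natural (hD : 0 < D) (hF : DChain F (K + 1) (Win t0 (D / 4)))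
    (hj : ∃ j, j1 ≤ j ∧ j ≤ K ∧ N ≤ |F j t0| * D ^ j)
    (hR : ∀ t ∈ Win t0 (D / 4), |F (K + 1) t| * D ^ (K + 1) ≤ N) :
    ∃ a, j1 ≤ a ∧ a ≤ K ∧ ∀ t ∈ Win t0 (D / 4), 2 / 3 * N / D ^ a ≤ |F a t| := by
  obtain ⟨j, h1, h2, h3⟩ := hj
  obtain ⟨a, a1, a2, hm⟩ := exists_max F t0 D (h1.trans h2)
  have h4 := h3.trans (hm j h1 h2)
  refine ⟨a, a1, a2, fun t ht => le_trans ?_ (maximiser hD hF a2 rfl
    (fun j h1 h2 => hm j (by omega) h2) (fun t ht => (hR t ht).trans h4) ht)⟩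
  gcongr

/-- SL1 at the natural scale: the sublevel set of `F j0`, `j0 < j1`, at relative level `δ ^ K / 2`
lies in fewer than `2 ^ K` intervals of radius `2 δ D` -/
theorem sublevel (hD : 0 < D) (hN : 0 < N) (hF : DChain F (K + 1) (Win t0 (D / 4)))
    (hj : ∃ j, j1 ≤ j ∧ j ≤ K ∧ N ≤ |F j t0| * D ^ j)
    (hR : ∀ t ∈ Win t0 (D / 4), |F (K + 1) t| * D ^ (K + 1) ≤ N) {j0 : ℕ} (h0 : j0 ≤ j1)
    {δ : ℝ} (hδ : 0 < δ) (hδ1 : δ ≤ 1) :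
    ∃ T : Finset ℝ, T.card < 2 ^ (K - j0) ∧ ∀ t ∈ Win t0 (D / 4),
      |F j0 t| * D ^ j0 ≤ δ ^ (K - j0) / 2 * N → ∃ x ∈ T, |t - x| ≤ 2 * (δ * D) := by
  obtain ⟨a, a1, a2, ha⟩ := natural hD hF hj hR
  obtain ⟨k, rfl⟩ : ∃ k, a = j0 + k := ⟨a - j0, by omega⟩
  obtain ⟨T, hT, h⟩ := SL1 (F := fun j => F (j0 + j)) (δ := δ * D) (by positivity) k
    ordConnected_Win (L := 2 / 3 * N / D ^ (j0 + k)) (by positivity)
    ((hF.mono (by omega) subset_rfl).shift j0) ha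
  refine ⟨T, hT.trans_le (Nat.pow_le_pow_right two_pos (by omega)), fun t ht h1 => h t ht ?_⟩
  obtain h2 : δ ^ (K - j0) ≤ δ ^ k := pow_le_pow_of_le_one hδ.le hδ1 (by omega)
  obtain h3 : 0 < δ ^ k * N := by positivity
  obtain e : 2 / 3 * N / D ^ (j0 + k) * (δ * D) ^ k = 2 / 3 * (δ ^ k * N) / D ^ j0 := by
    rw [pow_add, mul_pow]; field_simp
  rw [e, lt_div_iff₀ (by positivity)]
  have h4 := mul_le_mul_of_nonneg_right h2 hN.le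
  simp only [add_zero]
  linarith only [h1, h3, h4]

/-- Taylor polynomial with the crude remainder `B |t - t0| ^ n` -/
theorem taylor {I : Set ℝ} (hI : I.OrdConnected) (h0 : t0 ∈ I) {B : ℝ} (n : ℕ) :
    ∀ {F : ℕ → ℝ → ℝ}, DChain F n I → (∀ t ∈ I, |F n t| ≤ B) → ∀ t ∈ I,
      |F 0 t - ∑ l ∈ Finset.range n, F l t0 * (t - t0) ^ l / l.factorial| ≤ B * |t - t0| ^ n := by
  induction n with
  | zero => intro F _ hB t ht; simpa using hB t ht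
  | succ n ih =>
    intro F hF hB t ht
    have hB0 : 0 ≤ B := (abs_nonneg _).trans (hB t ht)
    obtain h1 := ih (F := fun j => F (1 + j)) ((hF.mono (by omega) subset_rfl).shift 1)
      (fun s hs => by simpa [add_comm] using hB s hs)
    have hsub : uIcc t0 t ⊆ I := hI.uIcc_subset h0 ht
    obtain hd : ∀ s ∈ uIcc t0 t, HasDerivAt
        (fun s => F 0 s - ∑ l ∈ Finset.range (n + 1), F l t0 * (s - t0) ^ l / l.factorial)
        (F 1 s - ∑ l ∈ Finset.range n, F (1 + l) t0 * (s - t0) ^ l / l.factorial) s := by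
      intro s hs
      refine (hF 0 (by omega) s (hsub hs)).sub ?_
      simp only [Finset.sum_range_succ']
      refine HasDerivAt.add_const _ (HasDerivAt.fun_sum fun l _ => ?_) |>.congr_of_eventuallyEq
        (f := fun s => ∑ l ∈ Finset.range n, F (l + 1) t0 * (s - t0) ^ (l + 1) / (l + 1).factorial
          + F 0 t0) (.of_forall fun s => by simp)
      have := ((((hasDerivAt_id s).sub_const t0).fun_pow (l + 1)).const_mul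
        (F (l + 1) t0)).div_const ((l + 1).factorial : ℝ)
      refine this.congr_deriv ?_
      rw [Nat.factorial_succ, add_comm 1 l]
      obtain this : ((l.factorial : ℕ) : ℝ) ≠ 0 := by positivity
      push_cast
      simp only [id]
      field_simp
    have h2 := mvt ordConnected_uIcc (B := B * |t - t0| ^ n) hd (fun s hs => by
      refine (h1 s (hsub hs)).trans ?_
      have := abs_sub_left_of_mem_uIcc hs
      (clear * - this hB0; gcongr)) left_mem_uIcc right_mem_uIcc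
    obtain e : F 0 t0 - ∑ l ∈ Finset.range (n + 1), F l t0 * (t0 - t0) ^ l / l.factorial = 0 := by
      simp [Finset.sum_range_succ']
    rw [e, sub_zero] at h2
    exact h2.trans_eq (by ring)

end Pool.Agent.MP_9cbfe4_an.TW

end

/-! ### Part FM -/

section

/-! Model-free covering tools for sections E and F. -/

namespace Pool.Agent.MP_9cbfe4_an

open Finset Set MeasureTheory

noncomputable section

variable {Z : Type}

/-- `C` is covered by at most `N` rectangles `h × d` in the coordinates `(t, lab)` -/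
def Cov (t lab : Z → ℝ) (C : Set Z) (h d N : ℝ) : Prop :=
  ∃ T : Finset (ℝ × ℝ), (T.card : ℝ) ≤ N ∧
    ∀ z ∈ C, ∃ a ∈ T, t z ∈ Set.Icc a.1 (a.1 + h) ∧ lab z ∈ Set.Icc a.2 (a.2 + d)

/-- the part of `C` in one rectangle -/
def Rect (t lab : Z → ℝ) (C : Set Z) (x h y d : ℝ) : Set Z :=
  {z | z ∈ C ∧ t z ∈ Set.Icc x (x + h) ∧ lab z ∈ Set.Icc y (y + d)}

/-- length of `[a, b] ∩ [u, v]` -/
def ovl (a b u v : ℝ) : ℝ := max 0 (min b v - max a u)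

variable {t lab : Z → ℝ} {C C' : Set Z} {h d N h' d' N' : ℝ}

theorem Cov.mono (H : Cov t lab C h d N) (hC : C' ⊆ C) (hh : h ≤ h') (hd : d ≤ d') (hN : N ≤ N') :
    Cov t lab C' h' d' N' := by
  obtain ⟨T, hT, H⟩ := H
  refine ⟨T, hT.trans hN, fun z hz => ?_⟩
  obtain ⟨a, ha, h1, h2⟩ := H z (hC hz)
  exact ⟨a, ha, ⟨h1.1, by linarith only [hh, h1.2]⟩, ⟨h2.1, by linarith only [hd, h2.2]⟩⟩

theorem Cov.empty (hN : 0 ≤ N) : Cov t lab ∅ h d N :=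
  ⟨∅, by simpa using hN, fun _ hz => hz.elim⟩

theorem Cov.vol (H : Cov t lab C h d N) (hh : 0 ≤ h) :
    volume (t '' C) ≤ ENNReal.ofReal (N * h) := by
  obtain ⟨T, hT, H⟩ := H
  calc volume (t '' C) ≤ volume (⋃ a ∈ T, Set.Icc a.1 (a.1 + h)) := by
        refine measure_mono ?_
        rintro _ ⟨z, hz, rfl⟩
        obtain ⟨a, ha, h1, -⟩ := H z hz
        exact Set.mem_biUnion (Finset.mem_coe.2 ha) h1
    _ ≤ ∑ a ∈ T, volume (Set.Icc a.1 (a.1 + h)) := measure_biUnion_finset_le _ _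
    _ = ENNReal.ofReal (T.card * h) := by
        simp only [Real.volume_Icc, add_sub_cancel_left, Finset.sum_const, nsmul_eq_mul]
        rw [ENNReal.ofReal_mul (Nat.cast_nonneg _), ENNReal.ofReal_natCast]
    _ ≤ _ := ENNReal.ofReal_le_ofReal (mul_le_mul_of_nonneg_right hT hh)

/-- one refinement step -/
theorem Cov.step (H : Cov t lab C h d N) (hN : 0 ≤ N')
    (hs : ∀ x y, Cov t lab (Rect t lab C x h y d) h' d' N') : Cov t lab C h' d' (N * N') := by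
  classical
  obtain ⟨T, hT, H⟩ := H
  choose S hS hc using hs
  refine ⟨T.biUnion fun a => S a.1 a.2, ?_, fun z hz => ?_⟩
  · calc ((T.biUnion fun a => S a.1 a.2).card : ℝ) ≤ ∑ a ∈ T, ((S a.1 a.2).card : ℝ) := by
          exact_mod_cast Finset.card_biUnion_le
      _ ≤ ∑ _a ∈ T, N' := Finset.sum_le_sum fun a _ => hS a.1 a.2
      _ = T.card * N' := by rw [Finset.sum_const, nsmul_eq_mul]
      _ ≤ _ := mul_le_mul_of_nonneg_right hT hN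
  · obtain ⟨a, ha, h1, h2⟩ := H z hz
    obtain ⟨b, hb, h3⟩ := hc a.1 a.2 z ⟨hz, h1, h2⟩
    exact ⟨b, Finset.mem_biUnion.2 ⟨a, ha, hb⟩, h3⟩

theorem Cov.chain {I : ℕ} {hh dd n : ℕ → ℝ} (H : Cov t lab C (hh 0) (dd 0) N) (hn : ∀ i, 0 ≤ n i)
    (hs : ∀ i < I, ∀ x y,
      Cov t lab (Rect t lab C x (hh i) y (dd i)) (hh (i + 1)) (dd (i + 1)) (n i)) :
    Cov t lab C (hh I) (dd I) (N * ∏ i ∈ range I, n i) := by
  induction I with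
  | zero => simpa using H
  | succ I ih =>
    rw [Finset.prod_range_succ, ← mul_assoc]
    exact (ih fun i hi => hs i (hi.trans I.lt_succ_self)).step (hn I) (hs I I.lt_succ_self)

/-- product cover from covers of the two coordinates -/
theorem Cov.of_prod (T1 T2 : Finset ℝ) (h1 : ∀ z ∈ C, ∃ x ∈ T1, t z ∈ Set.Icc x (x + h))
    (h2 : ∀ z ∈ C, ∃ y ∈ T2, lab z ∈ Set.Icc y (y + d)) :
    Cov t lab C h d (T1.card * T2.card) := by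
  refine ⟨T1 ×ˢ T2, by rw [Finset.card_product, Nat.cast_mul], fun z hz => ?_⟩
  obtain ⟨x, hx, a1⟩ := h1 z hz
  obtain ⟨y, hy, a2⟩ := h2 z hz
  exact ⟨(x, y), Finset.mem_product.2 ⟨hx, hy⟩, a1, a2⟩

/-- an interval of length `h` is covered by `h / h' + 1` intervals of length `h'` -/
theorem Cov.sub_Icc (x : ℝ) (h0 : 0 ≤ h) (hh : 0 < h') :
    ∃ T : Finset ℝ, (T.card : ℝ) ≤ h / h' + 1 ∧
      ∀ s ∈ Set.Icc x (x + h), ∃ y ∈ T, s ∈ Set.Icc y (y + h') := by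
  classical
  refine ⟨(range (⌊h / h'⌋₊ + 1)).image fun i : ℕ => x + i * h', ?_, fun s hs => ?_⟩
  · obtain a1 : (((range (⌊h / h'⌋₊ + 1)).image fun i : ℕ => x + i * h').card : ℝ)
        ≤ ((⌊h / h'⌋₊ + 1 : ℕ) : ℝ) := by
      exact_mod_cast Finset.card_image_le.trans (Finset.card_range _).le
    have a2 := Nat.floor_le (div_nonneg h0 hh.le)
    push_cast at a1
    linarith only [a2, a1]
  · have s0 : 0 ≤ (s - x) / h' := div_nonneg (sub_nonneg.2 hs.1) hh.le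
    obtain s1 : (s - x) / h' ≤ h / h' := div_le_div_of_nonneg_right (by linarith only [hs.2]) hh.le
    refine ⟨x + (⌊(s - x) / h'⌋₊ : ℕ) * h', Finset.mem_image.2 ⟨_, Finset.mem_range.2
      (Nat.lt_succ_of_le (Nat.floor_le_floor s1)), rfl⟩, ?_, ?_⟩
    · have := (le_div_iff₀ hh).1 (Nat.floor_le s0)
      linarith only [this]
    · have := (div_lt_iff₀ hh).1 (Nat.lt_floor_add_one ((s - x) / h'))
      linarith only [this]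

/-- subdivision -/
theorem Cov.refine (H : Cov t lab C h d N) (h0 : 0 ≤ h) (d0 : 0 ≤ d) (hh : 0 < h') (hd : 0 < d') :
    Cov t lab C h' d' (N * (h / h' + 1) * (d / d' + 1)) := by
  rw [mul_assoc]
  refine H.step (by positivity) fun x y => ?_
  obtain ⟨T1, c1, p1⟩ := Cov.sub_Icc x h0 hh
  obtain ⟨T2, c2, p2⟩ := Cov.sub_Icc y d0 hd
  exact (Cov.of_prod T1 T2 (fun z hz => p1 _ hz.2.1) fun z hz => p2 _ hz.2.2).mono subset_rfl le_rfl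
    le_rfl (mul_le_mul c1 c2 (Nat.cast_nonneg _) (by positivity))

/-- a set of small diameters is one rectangle -/
theorem Cov.of_diam (ht : ∀ z ∈ C, ∀ z' ∈ C, |t z - t z'| ≤ h)
    (hl : ∀ z ∈ C, ∀ z' ∈ C, |lab z - lab z'| ≤ d) : Cov t lab C (2 * h) (2 * d) 1 := by
  rcases C.eq_empty_or_nonempty with rfl | ⟨z0, h0⟩
  · exact Cov.empty zero_le_one
  refine ⟨{(t z0 - h, lab z0 - d)}, by simp, fun z hz => ⟨_, Finset.mem_singleton_self _, ?_, ?_⟩⟩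
  · have := abs_le.1 (ht z hz z0 h0)
    exact ⟨by linarith only [this.1], by linarith only [this.2]⟩
  · have := abs_le.1 (hl z hz z0 h0)
    exact ⟨by linarith only [this.1], by linarith only [this.2]⟩

/-- a cover by intervals of length `l` can be taken on the grid `l ℤ` -/
theorem grid_cover {A : Set ℝ} {l : ℝ} (hl : 0 < l) (T : Finset ℝ)
    (hA : A ⊆ ⋃ x ∈ T, Set.Icc x (x + l)) :
    ∃ G : Finset ℝ, G.card ≤ 2 * T.card ∧ (∀ y ∈ G, ∃ z ∈ A, z ∈ Set.Icc y (y + l)) ∧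
      (∀ y ∈ G, ∀ y' ∈ G, y ≠ y' → l ≤ |y - y'|) ∧ A ⊆ ⋃ y ∈ G, Set.Icc y (y + l) := by
  classical
  obtain cell : ∀ z : ℝ, z ∈ Set.Icc ((⌊z / l⌋ : ℝ) * l) ((⌊z / l⌋ : ℝ) * l + l) := fun z =>
    ⟨(le_div_iff₀ hl).1 (Int.floor_le _), by
      have := (div_lt_iff₀ hl).1 (Int.lt_floor_add_one (z / l)); linarith only [this]⟩
  refine ⟨((T.biUnion fun x => ({⌊x / l⌋, ⌊x / l⌋ + 1} : Finset ℤ)).filter
    fun k => ∃ z ∈ A, ⌊z / l⌋ = k).image fun k : ℤ => (k : ℝ) * l, ?_, ?_, ?_, ?_⟩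
  · refine Finset.card_image_le.trans ((Finset.card_filter_le _ _).trans
      (Finset.card_biUnion_le.trans ?_))
    calc _ ≤ ∑ _x ∈ T, 2 := Finset.sum_le_sum fun x _ => Finset.card_le_two
      _ = _ := by rw [Finset.sum_const, smul_eq_mul, mul_comm]
  · intro y hy
    obtain ⟨k, hk, rfl⟩ := Finset.mem_image.1 hy
    obtain ⟨z, hz, rfl⟩ := (Finset.mem_filter.1 hk).2
    exact ⟨z, hz, cell z⟩
  · intro y hy y' hy' hne
    obtain ⟨k, -, rfl⟩ := Finset.mem_image.1 hy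
    obtain ⟨k', -, rfl⟩ := Finset.mem_image.1 hy'
    obtain hk : k - k' ≠ 0 := fun e => hne (by rw [sub_eq_zero.1 e])
    obtain h1 : (1 : ℝ) ≤ |(k : ℝ) - k'| := by exact_mod_cast Int.one_le_abs hk
    rw [← sub_mul, abs_mul, abs_of_pos hl]
    exact le_mul_of_one_le_left hl.le h1
  · intro z hz
    obtain ⟨x, hx, hzx⟩ := Set.mem_iUnion₂.1 (hA hz)
    refine Set.mem_iUnion₂.2 ⟨_, Finset.mem_image.2 ⟨⌊z / l⌋, Finset.mem_filter.2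
      ⟨Finset.mem_biUnion.2 ⟨x, hx, ?_⟩, z, hz, rfl⟩, rfl⟩, cell z⟩
    have a1 : ⌊x / l⌋ ≤ ⌊z / l⌋ := Int.floor_le_floor (div_le_div_of_nonneg_right hzx.1 hl.le)
    obtain a2 : ⌊z / l⌋ ≤ ⌊x / l⌋ + 1 := by
      rw [← Int.floor_add_one]
      refine Int.floor_le_floor ?_
      rw [div_add_one hl.ne']
      exact div_le_div_of_nonneg_right hzx.2 hl.le
    simp only [Finset.mem_insert, Finset.mem_singleton]
    omega

/-- multiplicity bound -/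
theorem mult_le (G : Finset ℝ) (p : ℝ → ℝ) {l ρ v : ℝ} (hl : 0 < l) (hρ : 0 < ρ) (hv : 0 ≤ v)
    (sep : ∀ y ∈ G, ∀ y' ∈ G, y ≠ y' → l ≤ |y - y'|)
    (inj : ∀ y ∈ G, ∀ y' ∈ G, |p y - p y'| ≤ ρ → |y - y'| ≤ 3 * l) {E : Set ℝ}
    (hE : ∀ y ∈ G, Metric.closedBall (p y) (ρ / 2) ⊆ E) (hvol : volume E ≤ ENNReal.ofReal v) :
    (G.card : ℝ) ≤ 10 * v / ρ := by
  classical
  obtain one : ∀ r : ℤ, ((G.filter fun y => ⌊y / l⌋ % 5 = r).card : ℝ) * ρ ≤ v := by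
    intro r
    set H := G.filter fun y => ⌊y / l⌋ % 5 = r with hH
    obtain dis : Set.PairwiseDisjoint (↑H) fun y => Metric.closedBall (p y) (ρ / 2) := by
      intro y hy y' hy' hne
      obtain ⟨g, e⟩ := Finset.mem_filter.1 hy
      obtain ⟨g', e'⟩ := Finset.mem_filter.1 hy'
      refine Metric.closedBall_disjoint_closedBall ?_
      rw [add_halves, Real.dist_eq]
      by_contra hc
      have b1 := abs_le.1 (inj y g y' g' (not_lt.1 hc))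
      have b2 := sep y g y' g' hne
      have c1 := (le_div_iff₀ hl).1 (Int.floor_le (y / l))
      have c2 := (div_lt_iff₀ hl).1 (Int.lt_floor_add_one (y / l))
      have c3 := (le_div_iff₀ hl).1 (Int.floor_le (y' / l))
      have c4 := (div_lt_iff₀ hl).1 (Int.lt_floor_add_one (y' / l))
      obtain d1 : ((⌊y / l⌋ : ℝ) - ⌊y' / l⌋) < 4 := lt_of_mul_lt_mul_right (by linarith only [b1, c1, c4]) hl.le
      obtain d2 : ((⌊y' / l⌋ : ℝ) - ⌊y / l⌋) < 4 := lt_of_mul_lt_mul_right (by linarith only [b1, c2, c3]) hl.le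
      obtain d3 : ⌊y / l⌋ - ⌊y' / l⌋ < 4 := by exact_mod_cast d1
      obtain d4 : ⌊y' / l⌋ - ⌊y / l⌋ < 4 := by exact_mod_cast d2
      obtain d5 : ⌊y / l⌋ = ⌊y' / l⌋ := by omega
      rw [d5] at c1 c2
      exact absurd b2 (not_le.2 (abs_lt.2 ⟨by linarith only [c1, c4], by linarith only [c2, c3]⟩))
    have m1 := measure_biUnion_finset (μ := volume) dis fun _ _ => measurableSet_closedBall
    have m2 : volume (⋃ y ∈ H, Metric.closedBall (p y) (ρ / 2)) ≤ ENNReal.ofReal v :=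
      (measure_mono (Set.iUnion₂_subset fun y hy => hE y (Finset.mem_filter.1 hy).1)).trans hvol
    rw [m1] at m2
    simp only [Real.volume_closedBall, Finset.sum_const, nsmul_eq_mul] at m2
    rw [← ENNReal.ofReal_natCast, ← ENNReal.ofReal_mul (Nat.cast_nonneg _),
      ENNReal.ofReal_le_ofReal_iff hv] at m2
    linarith only [m2]
  obtain tot : G.card = ∑ r ∈ Finset.Ico (0 : ℤ) 5, (G.filter fun y => ⌊y / l⌋ % 5 = r).card :=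
    Finset.card_eq_sum_card_fiberwise fun y _ => by
      simp only [Finset.coe_Ico, Set.mem_Ico]; (clear * -; omega)
  rw [le_div_iff₀ hρ, tot, Nat.cast_sum, Finset.sum_mul]
  calc _ ≤ ∑ _r ∈ Finset.Ico (0 : ℤ) 5, v := Finset.sum_le_sum fun r _ => one r
    _ = 5 * v := by simp
    _ ≤ _ := by linarith only [hv]

open Classical in
/-- regular stage: `F 0` has a derivative of order `k ≤ K` at natural size on the window -/
theorem reg_stage {x L0 vE mult : ℝ} {K k : ℕ} (hk1 : 1 ≤ k) (hk : k ≤ K) {F : ℕ → ℝ → ℝ}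
    (hh' : 0 < h') (hh : h' ≤ h) (hC : ∀ z ∈ C, t z ∈ Set.Icc x (x + h))
    (hF : DChain F k (Set.Icc (x - h) (x + 2 * h))) (hL : 0 < L0)
    (hlo : ∀ τ ∈ Set.Icc (x - h) (x + 2 * h), L0 / h ^ k ≤ |F k τ|)
    {E : Set ℝ} (hv : 0 < vE) (hE : volume E ≤ ENNReal.ofReal vE) (G : Finset ℝ) (sh : ℝ → ℝ)
    (hm0 : 0 ≤ mult) (hm : ∀ u : ℝ, ((G.filter fun y => u + sh y ∈ E).card : ℝ) ≤ mult)
    (hz : ∀ z ∈ C, ∃ y ∈ G, lab z ∈ Set.Icc y (y + d') ∧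
      ∀ τ, |τ - t z| ≤ h' → F 0 τ + sh y ∈ E) :
    Cov t lab C h' d' (2 ^ (K + 10) * mult * (G.card * vE / L0) ^ (1 / (K : ℝ)) * (h / h')) := by
  have h0 : 0 < h := hh'.trans_le hh
  rcases G.eq_empty_or_nonempty with rfl | hG
  · exact ⟨∅, by rw [Finset.card_empty (α := ℝ × ℝ), Nat.cast_zero]; (clear * - hm0 hv hL h0 hh'; positivity),
      fun z hz' => by simpa using hz z hz'⟩
  obtain hc : (0 : ℝ) < G.card := by exact_mod_cast hG.card_pos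
  set ρ := G.card * vE / L0 with hρ
  obtain hρ0 : 0 < ρ := by (clear * - hG hv hL; positivity)
  let P : ℕ → ℝ → Prop := fun j y => ∀ τ ∈ Set.Icc (x + j * h') (x + j * h' + h'), F 0 τ + sh y ∈ E
  set S := (Finset.range (⌊h / h'⌋₊ + 1)).filter fun j => ∃ y ∈ G, P j y with hS
  set E' := ⋃ y ∈ G, (fun u => u + sh y) ⁻¹' E with hE'
  obtain hvE : volume E' ≤ ENNReal.ofReal (G.card * vE) := by
    refine (measure_biUnion_finset_le _ _).trans ?_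
    simp only [measure_preimage_add_right, Finset.sum_const, nsmul_eq_mul]
    rw [ENNReal.ofReal_mul hc.le, ENNReal.ofReal_natCast]
    exact mul_le_mul_right hE _
  obtain hvol : ENNReal.ofReal (S.card * h') ≤
      volume {τ | τ ∈ Set.Icc (x - h) (x + 2 * h) ∧ F 0 τ ∈ E'} := by
    obtain e : volume (⋃ j ∈ S, Set.Ico (x + (j : ℕ) * h') (x + j * h' + h'))
        = ENNReal.ofReal (S.card * h') := by
      rw [measure_biUnion_finset _ fun _ _ => measurableSet_Ico]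
      · simp only [Real.volume_Ico, add_sub_cancel_left, Finset.sum_const, nsmul_eq_mul]
        rw [ENNReal.ofReal_mul (by (clear * -; positivity)), ENNReal.ofReal_natCast]
      · intro i _ j _ hij
        obtain key : ∀ i j : ℕ, i < j → Disjoint (Set.Ico (x + i * h') (x + i * h' + h'))
            (Set.Ico (x + j * h') (x + j * h' + h')) := fun i j hlt => by
          refine Set.disjoint_left.2 fun τ h1 h2 => ?_
          obtain this : ((i + 1 : ℕ) : ℝ) ≤ j := by exact_mod_cast hlt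
          push_cast at this
          nlinarith only [hh', this, h1.2, h2.1]
        rcases lt_or_gt_of_ne hij with h | h
        · exact key _ _ h
        · exact (key _ _ h).symm
    rw [← e]
    refine measure_mono (Set.iUnion₂_subset fun j hj τ hτ => ?_)
    obtain ⟨a1, y, hy, a2⟩ := Finset.mem_filter.1 hj
    obtain a3 : (j : ℝ) ≤ h / h' :=
      (Nat.cast_le.2 (Nat.lt_succ_iff.1 (Finset.mem_range.1 a1))).trans (Nat.floor_le (by (clear * - h0 hh'; positivity)))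
    rw [le_div_iff₀ hh'] at a3
    obtain a4 : 0 ≤ (j : ℝ) * h' := by (clear * - hh'; positivity)
    exact ⟨⟨by linarith only [hh', hh, a4, hτ.1], by linarith only [hh, a3, hτ.2]⟩, Set.mem_biUnion hy (a2 τ ⟨hτ.1, hτ.2.le⟩)⟩
  obtain hK : (2 : ℝ) ^ (K + 10) = 2 ^ K * 1024 := by rw [pow_add]; norm_num
  have hK1 : (1 : ℝ) ≤ 2 ^ K := one_le_pow₀ one_le_two
  have hr : 0 < ρ ^ (1 / (K : ℝ)) := Real.rpow_pos_of_pos hρ0 _
  obtain hcard : S.card * h' ≤ 2 ^ (K + 10) * ρ ^ (1 / (K : ℝ)) * h := by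
    rw [← ENNReal.ofReal_le_ofReal_iff (by (clear * - hG hv hL h0; positivity))]
    refine hvol.trans ?_
    rcases le_total ρ 1 with h1 | h1
    · obtain ⟨k', rfl⟩ : ∃ k', k = k' + 1 := ⟨k - 1, by omega⟩
      obtain hk0 : (0 : ℝ) < (k' + 1 : ℕ) := by (clear * -; positivity)
      obtain hδ : 0 < h * ρ ^ (1 / ((k' + 1 : ℕ) : ℝ)) := by (clear * - h0 hG hv hL; positivity)
      refine (SL2 hδ E' k' Set.ordConnected_Icc (by positivity) hF hlo (hvE.trans (le_of_eq ?_))).trans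
        (ENNReal.ofReal_le_ofReal ?_)
      · congr 1
        rw [mul_pow, one_div, Real.rpow_inv_natCast_pow hρ0.le (by omega), hρ]
        field_simp
      · obtain h2 : ρ ^ (1 / ((k' + 1 : ℕ) : ℝ)) ≤ ρ ^ (1 / (K : ℝ)) :=
          Real.rpow_le_rpow_of_exponent_ge hρ0 h1
            (one_div_le_one_div_of_le hk0 (by exact_mod_cast hk))
        obtain h3 : (2 : ℝ) ^ (k' + 3) ≤ 2 ^ (K + 10) := pow_le_pow_right₀ one_le_two (by omega)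
        calc _ ≤ 2 ^ (K + 10) * (h * ρ ^ (1 / (K : ℝ))) :=
              mul_le_mul (by linarith only [h3]) (by (clear * - h2 h0; gcongr)) hδ.le (by positivity)
          _ = _ := by ring
    · refine (measure_mono fun τ hτ => hτ.1).trans ?_
      rw [Real.volume_Icc]
      refine ENNReal.ofReal_le_ofReal ?_
      obtain h2 : 1 ≤ ρ ^ (1 / (K : ℝ)) := Real.one_le_rpow h1 (by (clear * -; positivity))
      obtain h3 : 3 ≤ 2 ^ (K + 10) * ρ ^ (1 / (K : ℝ)) := by rw [hK]; nlinarith only [hr, h2, hK1]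
      nlinarith only [hh', h3, hh]
  refine ⟨S.biUnion fun j => (G.filter (P j)).image fun y => (x + j * h', y), ?_, fun z hz' => ?_⟩
  · obtain h1 : ((S.biUnion fun j => (G.filter (P j)).image fun y => (x + j * h', y)).card : ℝ)
        ≤ S.card * mult := by
      refine (Nat.cast_le.2 Finset.card_biUnion_le).trans ?_
      push_cast
      rw [← nsmul_eq_mul]
      refine Finset.sum_le_card_nsmul _ _ _ fun j _ => le_trans ?_ (hm (F 0 (x + j * h')))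
      exact Nat.cast_le.2 (Finset.card_image_le.trans (Finset.card_le_card fun y hy =>
        Finset.mem_filter.2 ⟨(Finset.mem_filter.1 hy).1,
          (Finset.mem_filter.1 hy).2 _ ⟨le_rfl, by linarith only [hh']⟩⟩))
    rw [← le_div_iff₀ hh'] at hcard
    calc _ ≤ 2 ^ (K + 10) * ρ ^ (1 / (K : ℝ)) * h / h' * mult := h1.trans (by (clear * - hcard hm0; gcongr))
      _ = _ := by ring
  · obtain ⟨y, hy, a1, a2⟩ := hz z hz'
    obtain ⟨b1, b2⟩ := hC z hz'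
    have b3 := Nat.floor_le (div_nonneg (sub_nonneg.2 b1) hh'.le)
    have b4 := Nat.lt_floor_add_one ((t z - x) / h')
    obtain b5 : ⌊(t z - x) / h'⌋₊ ≤ ⌊h / h'⌋₊ := Nat.floor_le_floor (by gcongr; linarith only [b2])
    set j := ⌊(t z - x) / h'⌋₊
    rw [le_div_iff₀ hh'] at b3
    rw [div_lt_iff₀ hh'] at b4
    obtain hP : P j y := fun τ hτ => a2 τ (abs_le.2 ⟨by linarith only [b4, hτ.1], by linarith only [b3, hτ.2]⟩)
    exact ⟨(x + j * h', y), Finset.mem_biUnion.2 ⟨j, Finset.mem_filter.2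
      ⟨Finset.mem_range.2 (by omega), y, hy, hP⟩,
      Finset.mem_image_of_mem _ (Finset.mem_filter.2 ⟨hy, hP⟩)⟩, ⟨by linarith only [b3], by linarith only [b4]⟩, a1⟩

theorem ww_step {F : ℕ → ℝ → ℝ} {K i : ℕ} {D B t0 : ℝ} (hD : 0 < D)
    (hF : DChain F (K + 1) (Set.Icc (t0 - D) (t0 + D))) (hi : i ≤ K)
    (hB : ∀ τ ∈ Set.Icc (t0 - D / 4) (t0 + D / 4), |F (i + 1) τ| * D ^ (i + 1) ≤ B) :
    ∀ τ ∈ Set.Icc (t0 - D / 4) (t0 + D / 4), |F i τ - F i t0| * D ^ i ≤ B / 4 := by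
  intro τ hτ
  obtain h0 : t0 ∈ Set.Icc (t0 - D / 4) (t0 + D / 4) := ⟨by linarith only [hD], by linarith only [hD]⟩
  have hp : 0 < D ^ (i + 1) := pow_pos hD _
  obtain hB0 : 0 ≤ B := le_trans (by (clear * - hD; positivity)) (hB t0 h0)
  obtain h1 := (convex_Icc (t0 - D / 4) (t0 + D / 4)).norm_image_sub_le_of_norm_hasDerivWithin_le
    (f := F i) (f' := F (i + 1)) (C := B / D ^ (i + 1))
    (fun x hx => (hF i (by omega) x ⟨by linarith only [hD, hx.1], by linarith only [hD, hx.2]⟩).hasDerivWithinAt)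
    (fun x hx => by rw [Real.norm_eq_abs, le_div_iff₀ hp]; exact hB x hx) h0 hτ
  rw [Real.norm_eq_abs, Real.norm_eq_abs] at h1
  obtain h2 : |τ - t0| ≤ D / 4 := abs_le.2 ⟨by linarith only [hτ.1], by linarith only [hτ.2]⟩
  calc _ ≤ B / D ^ (i + 1) * (D / 4) * D ^ i := by gcongr; exact h1.trans (by gcongr)
    _ = B / 4 := by rw [pow_succ]; field_simp

/-- working window: a polynomial-like function has a derivative at natural size.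
`D` is the scale, `Nn` the largest weighted jet of order in `[j0, K]` at `0`. -/
theorem work_window {F : ℕ → ℝ → ℝ} {K j0 : ℕ} {D Nn t0 : ℝ} (hD : 0 < D) (hN : 0 < Nn)
    (hF : DChain F (K + 1) (Set.Icc (t0 - D) (t0 + D)))
    (hup : ∀ j, j0 ≤ j → j ≤ K → |F j t0| * D ^ j ≤ Nn)
    (hlo : ∃ j, j0 ≤ j ∧ j ≤ K ∧ Nn ≤ |F j t0| * D ^ j)
    (hrem : ∀ τ ∈ Set.Icc (t0 - D) (t0 + D), |F (K + 1) τ| * D ^ (K + 1) ≤ Nn) :
    ∃ j, j0 ≤ j ∧ j ≤ K ∧ (∀ τ ∈ Set.Icc (t0 - D / 4) (t0 + D / 4), Nn / 2 ≤ |F j τ| * D ^ j) ∧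
      ∀ i, j0 ≤ i → i ≤ K + 1 → ∀ τ ∈ Set.Icc (t0 - D / 4) (t0 + D / 4), |F i τ| * D ^ i ≤ 2 * Nn := by
  obtain up : ∀ i, i ≤ K + 1 → j0 ≤ i →
      ∀ τ ∈ Set.Icc (t0 - D / 4) (t0 + D / 4), |F i τ| * D ^ i ≤ 2 * Nn := by
    intro i hi
    induction hi using Nat.decreasingInduction with
    | self => exact fun _ τ hτ => by linarith only [hN, hD, hrem τ ⟨by linarith only [hD, hτ.1], by linarith only [hD, hτ.2]⟩]
    | of_succ i hi ih =>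
      intro h0 τ hτ
      obtain h1 := ww_step hD hF (by omega) (ih (by omega)) τ hτ
      have h2 := mul_le_mul_of_nonneg_right (abs_sub_abs_le_abs_sub (F i τ) (F i t0))
        (pow_pos hD i).le
      linarith only [hN, h1, h2, hi, hup i h0 (by omega)]
  obtain ⟨j, h1, h2, h3⟩ := hlo
  refine ⟨j, h1, h2, fun τ hτ => ?_, fun i a b => up i b a⟩
  obtain h4 := ww_step hD hF h2 (up (j + 1) (by omega) (by omega)) τ hτ
  have h5 := mul_le_mul_of_nonneg_right (abs_sub_abs_le_abs_sub (F j t0) (F j τ)) (pow_pos hD j).le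
  rw [abs_sub_comm] at h5
  linarith only [h3, h4, h5]


theorem ovl_add (a b u v w : ℝ) : ovl a b u w ≤ ovl a b u v + ovl a b v w := by
  simp only [ovl, max_def, min_def]; split_ifs <;> linarith

theorem ovl_chain (a b : ℝ) (u : ℕ → ℝ) (I : ℕ) :
    ovl a b (u 0) (u I) ≤ ∑ i ∈ range I, ovl a b (u i) (u (i + 1)) := by
  induction I with
  | zero => simp only [ovl, max_def, min_def, range_zero, sum_empty]; split_ifs <;> (rename_i zq2 zq1 zq0; linarith only [zq2, zq1, zq0])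
  | succ I ih => rw [sum_range_succ]; linarith only [ih, ovl_add a b (u 0) (u I) (u (I + 1))]

theorem ovl_sum (Ev : Finset ℤ) (a b : ℤ → ℝ) (u : ℝ) :
    (∀ m ∈ Ev, ∀ m' ∈ Ev, m < m' → b m ≤ a m') →
    ∀ v, ∑ m ∈ Ev, ovl (a m) (b m) u v ≤ max 0 (v - u) := by
  induction Ev using Finset.induction_on_max with
  | empty => intro _ v; simp
  | insert m s hm ih =>
    intro h v
    have h1 := ih (fun x hx y hy => h x (mem_insert_of_mem hx) y (mem_insert_of_mem hy)) (min v (a m))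
    obtain h2 : ∑ x ∈ s, ovl (a x) (b x) u v = ∑ x ∈ s, ovl (a x) (b x) u (min v (a m)) :=
      sum_congr rfl fun x hx => by
        have := h x (mem_insert_of_mem hx) m (mem_insert_self _ _) (hm x hx)
        rw [ovl, ovl, min_comm v, ← min_assoc, min_eq_left this]
    rw [sum_insert fun hx => lt_irrefl _ (hm m hx), h2]
    obtain h3 : ovl (a m) (b m) u v + max 0 (min v (a m) - u) ≤ max 0 (v - u) := by
      simp only [ovl, max_def, min_def]; split_ifs <;> linarith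
    linarith only [h1, h3]

/-- FN1: ordered disjoint intervals in `[0, V]` are seen by the stages -/
theorem fn_loc (Ev : Finset ℤ) (a b : ℤ → ℝ) (u : ℕ → ℝ) (I : ℕ) {V : ℝ} (hu : Monotone u)
    (ha : ∀ m ∈ Ev, 0 ≤ a m) (hb : ∀ m ∈ Ev, b m ≤ V)
    (hord : ∀ m ∈ Ev, ∀ m' ∈ Ev, m < m' → b m ≤ a m') :
    ∑ m ∈ Ev, (b m - a m) - max 0 (u 0) - max 0 (V - u I)
      ≤ ∑ i ∈ range I, ∑ m ∈ Ev, ovl (a m) (b m) (u i) (u (i + 1)) ∧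
    ∀ i, ∑ m ∈ Ev, ovl (a m) (b m) (u i) (u (i + 1)) ≤ u (i + 1) - u i := by
  refine ⟨?_, fun i => (ovl_sum Ev a b _ hord _).trans_eq
    (max_eq_right (sub_nonneg.2 (hu i.le_succ)))⟩
  have h1 := ovl_sum Ev a b 0 hord (u 0)
  have h2 := ovl_sum Ev a b (u I) hord V
  obtain h3 : ∑ m ∈ Ev, (b m - a m) ≤ ∑ m ∈ Ev, (ovl (a m) (b m) 0 (u 0) +
      ∑ i ∈ range I, ovl (a m) (b m) (u i) (u (i + 1)) + ovl (a m) (b m) (u I) V) :=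
    sum_le_sum fun m hm => by
      obtain k1 : b m - a m ≤ ovl (a m) (b m) 0 V := by
        rw [ovl, min_eq_left (hb m hm), max_eq_left (ha m hm)]; exact le_max_right _ _
      linarith only [k1, ovl_add (a m) (b m) 0 (u 0) V, ovl_add (a m) (b m) (u 0) (u I) V,
        ovl_chain (a m) (b m) u I]
  rw [sum_add_distrib, sum_add_distrib, sum_comm] at h3
  rw [sub_zero] at h1
  linarith only [h1, h2, h3]

open Classical in
/-- FN2: wasted stages; the stage `i` is charged to `wit i` -/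
theorem fn_waste (Wa : Finset ℕ) (wit : ℕ → ℤ) (lo Δ top : ℤ → ℝ) {w0 ι : ℝ} (hw : 0 < w0)
    (hι : 0 < ι) (_hΔ : ∀ i ∈ Wa, 0 ≤ Δ (wit i))
    (hin : ∀ i ∈ Wa, lo (wit i) ≤ w0 * (1 + ι) ^ i ∧ w0 * (1 + ι) ^ i ≤ lo (wit i) + Δ (wit i) ∧
      w0 * (1 + ι) ^ i ≤ top (wit i)) :
    ∑ i ∈ Wa, ι * (w0 * (1 + ι) ^ i) ≤ ∑ m ∈ Wa.image wit, (Δ m + ι * top m) := by
  rw [← sum_fiberwise_of_maps_to (g := wit) fun i hi => mem_image_of_mem wit hi]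
  refine sum_le_sum fun m hm => ?_
  obtain ⟨i, hi, rfl⟩ := Finset.mem_image.1 hm
  have ne : (Wa.filter fun j => wit j = wit i).Nonempty := ⟨i, mem_filter.2 ⟨hi, rfl⟩⟩
  obtain ⟨a1, a2⟩ := mem_filter.1 (min'_mem _ ne)
  obtain ⟨b1, b2⟩ := mem_filter.1 (max'_mem _ ne)
  have a3 := (hin _ a1).1
  obtain ⟨-, b3, b4⟩ := hin _ b1
  rw [a2] at a3
  rw [b2] at b3 b4
  obtain tel : ∀ n, ∑ j ∈ range n, ι * (w0 * (1 + ι) ^ j) = w0 * (1 + ι) ^ n - w0 := fun n => by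
    induction n with
    | zero => simp
    | succ n ih => rw [sum_range_succ, ih]; ring
  obtain h1 : ∑ j ∈ Wa.filter fun j => wit j = wit i, ι * (w0 * (1 + ι) ^ j) ≤
      ∑ j ∈ Finset.Ico (min' _ ne) (max' _ ne + 1), ι * (w0 * (1 + ι) ^ j) :=
    sum_le_sum_of_subset_of_nonneg
      (fun j hj => Finset.mem_Ico.2 ⟨min'_le _ _ hj, Nat.lt_succ_of_le (le_max' _ _ hj)⟩)
      fun _ _ _ => by positivity
  rw [sum_Ico_eq_sub _ ((min'_le_max' _ ne).trans (Nat.le_succ _)), tel, tel, pow_succ] at h1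
  linarith only [a3, b3, h1, mul_le_mul_of_nonneg_left b4 hι.le]

/-- number of stages -/
theorem fn_count {w0 ι V : ℝ} (hw : 0 < w0) (hι : 0 < ι) (hι1 : ι ≤ 1) (hV : w0 ≤ V) :
    ∃ I : ℕ, w0 * (1 + ι) ^ I ≤ V ∧ V < w0 * (1 + ι) ^ (I + 1) ∧
      (I : ℝ) ≤ 2 * Real.log (V / w0) / ι := by
  obtain ⟨I, h1, h2⟩ := exists_nat_pow_near ((one_le_div hw).2 hV) (show 1 < 1 + ι by linarith only [hι])
  refine ⟨I, (le_div_iff₀' hw).1 h1, (div_lt_iff₀' hw).1 h2, ?_⟩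
  obtain h3 := Real.log_le_log (by positivity) h1
  obtain h4 := Real.one_sub_inv_le_log_of_pos (show 0 < 1 + ι by linarith only [hι])
  obtain h5 : (1 + ι)⁻¹ ≤ 1 - ι / 2 := by
    rw [inv_eq_one_div, div_le_iff₀ (by linarith only [hι])]; nlinarith only [hι, hι1]
  rw [Real.log_pow] at h3
  rw [le_div_iff₀ hι]
  linarith only [h3, h4, h5, mul_le_mul_of_nonneg_left (show ι / 2 ≤ Real.log (1 + ι) by linarith only [h4, h5])
    (Nat.cast_nonneg (α := ℝ) I)]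

end
end Pool.Agent.MP_9cbfe4_an

end

/-! ### Part EI -/

section

/-! Section E of THM-2, abstract interface (helper23).  Everything is indexed by the FREE times
`0, 1, .., N` of one reference orbit (index `0` = time `1`); an index that is not a major has `R = 0`.
All numbers are logarithms: `W` level, `ω = log w`, `R = log (1/η)`.  Jets are PLAIN derivatives. -/

namespace Pool.Agent.MP_9cbfe4_an.E

open Finset MeasureTheory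
open scoped Classical

noncomputable section

/-- constants: order `K`, exponent budget `g`, cancellation exponent `θ`, constant slack `Λ` -/
structure EK where
  K : ℕ
  g : ℝ
  θ : ℝ
  Λ : ℝ

namespace EK
variable (k : EK)
/-- fine slack -/
def sl (x : ℝ) : ℝ := k.θ ^ 2 * x + k.Λ
def C5 : ℝ := 10 ^ 5 * k.K
def Cw : ℝ := 3 * 10 ^ 5 * k.K
def θ0 : ℝ := 1 / (10 ^ 12 * k.K ^ 2 * k.g)
def J0 : ℕ := ⌈10 ^ 8 * k.K / k.θ0⌉₊
structure OK : Prop where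
  K10 : 10 ≤ k.K
  Kbig : (2400 : ℝ) ≤ ∏ i ∈ Icc 4 k.K, (2 * (i : ℝ) - 1 / 10) / (2 * (i : ℝ) - 1)
  g10 : 10 ≤ k.g
  θpos : 0 < k.θ
  θsm : k.θ * (10 ^ 40 * k.K ^ 6 * k.g ^ 4 * 2 ^ k.J0) ≤ 1
  Λbig : 1 / k.θ ^ 2 ≤ k.Λ
end EK

/-- constants of one run: `ρ = r_A` rounded up, `u` = threshold of deep elements -/
structure Par extends EK where
  ρ : ℝ
  u : ℝ

namespace Par
variable (k : Par)
/-- end of the early range -/
def Wc : ℝ := 10 ^ 7 * k.K * k.ρ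
def Rs : ℝ := 1600 * k.ρ
/-- coarse slack -/
def ς : ℝ := 4 * k.K * k.u
/-- bound of the fine slack in the early range -/
def φ : ℝ := k.sl k.Wc
def far : ℝ := Real.exp (-(k.C5 * k.ρ / 4))
structure OK : Prop where
  K10 : 10 ≤ k.K
  g10 : 10 ≤ k.g
  θpos : 0 < k.θ
  Λ1 : 1 ≤ k.Λ
  fine : 10 ^ 6 * k.g * k.K * k.φ ≤ k.u
  th : 10 ^ 5 * k.K * k.θ * k.ρ ≤ k.u
  small : 10 ^ 11 * k.K * k.g * k.ς ≤ k.ρ
  big : 10 ^ 10 * (k.K : ℝ) ^ 2 ≤ k.u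
  big2 : 10 ^ 10 * k.K * k.ρ ≤ k.u ^ 2
end Par

def EK.par (k : EK) (ρ : ℝ) (j : ℕ) : Par := ⟨k, ρ, k.θ0 / 2 ^ j * ρ⟩

/-- skeleton -/
structure Sk where
  N : ℕ
  W : ℕ → ℝ
  ω : ℕ → ℝ
  R : ℕ → ℝ

namespace Sk
variable (k : EK) (S : Sk)
/-- `log s_l` -/
def σ (l : ℕ) : ℝ := k.sl (S.W (l + 1))
/-- `log V_l^{(e)}` -/
def V (e : ℝ) (l : ℕ) : ℝ := e * S.R l - S.ω l
/-- depth of the deepest major `< n` -/
def Rst (n : ℕ) : ℝ := (range n).fold max 0 S.R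
structure OK : Prop where
  W0 : 0 ≤ S.W 0
  ω0 : |S.ω 0| ≤ k.Λ
  mono : ∀ l < S.N, S.W l ≤ S.W (l + 1)
  R0 : ∀ l, 0 ≤ S.R l
  lo : ∀ l ≤ S.N, S.W l ≤ S.ω l + k.sl (S.W l)
  hi : ∀ l ≤ S.N, S.ω l ≤ S.W l + k.Λ
  up : ∀ l < S.N, S.ω l + S.R l ≤ S.W (l + 1) + k.Λ
  dn : ∀ l < S.N, S.W (l + 1) ≤ S.ω l + S.R l + S.σ k l
  maj : ∀ l < S.N, 0 < S.R l → k.Λ ≤ k.θ ^ 2 * S.W (l + 1)
  idx : ∀ l ≤ S.N, (l : ℝ) ≤ Real.exp (k.sl (S.W l))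
/-- strong and `K`-cancelled (factor `c`); `La j m` = jet of order `j` at the free index `m` -/
def NC (La : ℕ → ℕ → ℝ) (c : ℝ) (x : ℕ) : Prop :=
  x < S.N ∧ 0 < S.R x ∧ S.W x ≤ k.Cw * S.R x ∧ ∀ j, 1 ≤ j → j ≤ k.K →
    |La j (x + 1)| ≤ c * Real.exp ((2 * j - 1 - k.θ) * S.R x - S.ω x)
end Sk

/-- chain data: terminal index, cut-offs, `tt j m = log T_j` seen from the index `m` -/
structure Cd where
  M : ℕ
  cut : ℕ → Prop
  tt : ℕ → ℕ → ℝ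

namespace Cd
variable (k : Par) (S : Sk) (La : ℕ → ℕ → ℝ) (d : Cd)
def deep (l : ℕ) : Prop := l < d.M ∧ k.u ≤ S.R l
def nocut (a b : ℕ) : Prop := ∀ c, a ≤ c → c < b → ¬ d.cut c
def nodeep (a b : ℕ) : Prop := ∀ c, a ≤ c → c < b → ¬ d.deep k S c
/-- link data `(kk, TT)` in force after the deep element `B` (`TT = 0`: no link) -/
structure Link (B kk : ℕ) (TT : ℝ) : Prop where
  k4 : 4 ≤ kk
  kK : kk ≤ k.K
  T0 : 0 ≤ TT
  el : ∀ l, B < l → d.deep k S l → d.nocut (B + 1) l →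
    S.R l ≤ max (S.Rst (B + 1)) k.ρ ∨ Real.exp (S.V (2 * kk - 1) l) ≤ Real.exp k.ς * TT
  low : ∀ m, B < m → m ≤ d.M → d.nodeep k S (B + 1) m →
    TT ≤ 4 * |La kk m| ∨ TT ≤ Real.exp (k.ς - S.ω m)
  fin : d.nocut (B + 1) d.M →
    Real.exp (d.tt 2 d.M) ≤ k.far + TT * Real.exp (k.ς - 2 * (kk - 2) * k.Rs) ∧
    Real.exp (d.tt 3 d.M) ≤ k.far + TT * Real.exp (k.ς - 2 * (kk - 3) * k.Rs) ∧
    (k.C5 * k.ρ / 2 ≤ S.ω d.M ∨
      Real.exp ((d.tt 2 d.M - 2 * S.ω d.M) / 3) ≤ TT * Real.exp (k.ς - 2 * (kk - 1) * k.Rs))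
/-- output of E-A = input of E-B -/
structure OK : Prop where
  MN : d.M ≤ S.N
  early : S.W d.M ≤ k.Wc
  cap : ∀ l < d.M, S.R l ≤ k.Rs
  few : (((range d.M).filter (d.deep k S)).card : ℝ) * (10 ^ 11 * k.K * k.g * k.ς) ≤ k.ρ
  cutd : ∀ c, d.cut c → d.deep k S c
  ttA : ∀ j : ℕ, j = 2 ∨ j = 3 → ∀ m l, m ≤ l → d.deep k S l → d.nocut m l →
    S.V (2 * j - 1) l ≤ d.tt j m
  ttB : ∀ j : ℕ, j = 2 ∨ j = 3 → ∀ m ≤ d.M, d.nocut m d.M → d.tt j d.M ≤ d.tt j m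
  ttC : ∀ j : ℕ, j = 2 ∨ j = 3 → ∀ m ≤ d.M,
    (∃ l, m ≤ l ∧ d.deep k S l ∧ d.nocut m l ∧ d.tt j m = S.V (2 * j - 1) l) ∨
    (d.nocut m d.M ∧ d.tt j m = d.tt j d.M)
  fin2 : -S.ω d.M ≤ d.tt 2 d.M
  fin3 : (4 * d.tt 2 d.M + S.ω d.M) / 3 ≤ d.tt 3 d.M + k.ς
  jet1 : ∀ m e, m ≤ e → e ≤ d.M → d.nodeep k S m e →
    |La 1 m| ≤ Real.exp (k.ς + max ((d.tt 2 m - 2 * S.ω e) / 3) (-S.ω m))
  jet : ∀ j : ℕ, j = 2 ∨ j = 3 → ∀ m ≤ d.M, |La j m| ≤ Real.exp (k.ς + max (d.tt j m) (-S.ω m))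
  okc : ∀ c, d.cut c → d.tt 2 (c + 1) + S.ω c + S.R c ≤ 4 * S.Rst (c + 1) - k.ρ / 5
  link : ∀ B, d.deep k S B → ∃ kk TT, d.Link k S La B kk TT
  base : ∃ l0 c, l0 ≤ c ∧ d.cut c ∧ d.deep k S l0 ∧ (∀ l < l0, S.R l ≤ S.R l0) ∧
    (∀ l ≤ c, S.R l ≤ k.ρ) ∧ 2000 * k.g * k.ς ≤ S.R l0 ∧ S.ω l0 ≤ 6 * S.R l0 + k.ρ / 100
  nonc : ∀ x < d.M, ¬ S.NC k.toEK La (1 / 2) x
end Cd

/-- a pair: skeleton of the seed orbit at `t`, label, and `Fd n j τ` = `j`-th derivative at the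
parameter `τ` of the free point number `n` of the seed family, divided by `ξ_n` (fixed, at `t`) -/
structure Pr extends Sk where
  t : ℝ
  lab : ℝ
  Fd : ℕ → ℕ → ℝ → ℝ

namespace Pr
variable (k : Par) (p : Pr)
def La (j n : ℕ) : ℝ := p.Fd n j p.t
def InR (n : ℕ) : Prop := n ≤ p.N ∧ p.W n ≤ k.Wc
def NoNC (n : ℕ) : Prop := ∀ x < n, ¬ p.toSk.NC k.toEK p.La (1 / 2) x
/-- all jets of order `1..K` at scale `D` are at most `μ` -/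
def Jle (n : ℕ) (D μ : ℝ) : Prop := ∀ j, 1 ≤ j → j ≤ k.K → |p.La j n| * D ^ j ≤ μ
/-- admissible tail of type I -/
structure Adm (n : ℕ) (D u ν : ℝ) : Prop where
  inr : p.InR k n
  nonc : p.NoNC k n
  D0 : 0 < D
  clip : Real.log D ≤ -(2 + 2 * k.θ) * p.Rst n - k.g * k.ς
  j1 : |p.La 1 n| * D ≤ u
  jj : ∀ j, 2 ≤ j → j ≤ k.K → |p.La j n| * D ^ j ≤ ν
  val : (u + ν) * Real.exp (p.W n) ≤ Real.exp (-(k.g * k.ς))
  mix : Real.exp (k.g * k.ς) * (u ^ 2 * Real.exp (p.W n) + u * D * Real.exp (2 * p.Rst n)) ≤ ν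

/-- what section J gives for ONE pair (uniform slack `ς` in the early range) -/
structure LA : Prop where
  init : ∀ j, 1 ≤ j → j ≤ k.K → |p.La j 0| ≤ 2
  j3 : ∀ n D u ν, p.Adm k n D u ν → D ^ (k.K + 1) ≤ ν
  j4 : ∀ n D u ν, p.Adm k n D u ν → DChain (p.Fd n) (k.K + 1) (Set.Icc (p.t - D) (p.t + D)) ∧
    ∀ τ, |τ - p.t| ≤ D → |p.Fd n (k.K + 1) τ| * D ^ (k.K + 1) ≤ ν * Real.exp (-k.ς)
  j4b : ∀ n D u ν, p.Adm k n D u ν → ∀ m ≤ n, ∀ j, 1 ≤ j → j ≤ k.K → ∀ b : ℝ,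
    (∀ l, m ≤ l → l < n → k.g * k.ς + p.V (2 * j - 1) l ≤ b) → ∀ τ, |τ - p.t| ≤ D →
    |p.Fd n j τ - p.Fd m j τ| ≤ (if j = 1 then u + ν else ν) * Real.exp (-k.ς) / D ^ j + Real.exp b
  j1f : ∀ n n' D μ, n ≤ n' → p.InR k n' → 0 < D → Real.log D ≤ -2 * p.Rst n' - k.g * k.ς →
    p.Jle k n D μ → (∀ l, n ≤ l → l < n' → D * Real.exp (p.V 1 l) ≤ μ) →
    μ * Real.exp (p.W n') ≤ Real.exp (-(k.g * k.ς)) → p.Jle k n' D (Real.exp (k.g * k.ς) * μ)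

/-- what sections J, R give for TWO pairs of one class: `p` anchor, `q` candidate -/
structure TA (q : Pr) : Prop where
  near : ∀ n, p.InR k n → q.InR k n → |p.W n - q.W n| ≤ 1 ∧ |p.ω n - q.ω n| ≤ 1 ∧
    (p.InR k (n + 1) → q.InR k (n + 1) → |p.R n - q.R n| ≤ 1)
  dt : |p.t - q.t| ≤ 1
  dl : |p.lab - q.lab| ≤ 1
  j5 : ∀ n D u ν, p.Adm k n D u ν → |q.t - p.t| ≤ D → ∀ B m, B < m → m ≤ n → q.InR k m →
    |p.lab - q.lab| * Real.exp (q.W m) ≤ Real.exp (-(k.g * k.ς)) →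
    k.g * k.ς ≤ q.Rst (B + 1) → (∀ l, B < l → l < m → 4 * k.K * q.R l ≤ k.ς) →
    (((range (B + 1)).filter fun l => q.Rst (B + 1) ≤ 2 * q.R l).card : ℝ) ≤ 1 / k.θ →
    ∀ T1 T2 T3 β S2 S3 : ℝ, β = Real.exp (2 * q.Rst (B + 1)) →
    Real.exp (-q.ω m) ≤ T1 → Real.exp (-q.ω m) ≤ T2 → Real.exp (-q.ω m) ≤ T3 →
    |q.La 1 m| ≤ T1 → |q.La 2 m| ≤ T2 → |q.La 3 m| ≤ T3 →
    T2 + T1 ^ 2 * Real.exp (q.W m) + β * T1 ≤ S2 → T3 + S2 * (β + T1 * Real.exp (q.W m)) ≤ S3 →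
    S2 * Real.exp (q.ω B + q.R B) ≤ Real.exp (-(k.g * k.ς)) * β ^ 2 →
    (|p.lab - q.lab| * β ≤ Real.exp (k.g * k.ς) * (|p.Fd m 1 q.t| + T1) ∧
      |p.Fd m 2 q.t| ≤ Real.exp (k.g * k.ς) * (|p.lab - q.lab| * β ^ 2 + S2)) ∨
    (|p.lab - q.lab| * β ^ 2 ≤ Real.exp (k.g * k.ς) * (|p.Fd m 2 q.t| + S2) ∧
      |p.Fd m 3 q.t| ≤ Real.exp (k.g * k.ς) * (|p.lab - q.lab| * β ^ 3 + S3))
  box : ∀ e D μ, p.Adm k e D μ μ → |q.t - p.t| ≤ D → p.InR k (e + 1) → q.InR k (e + 1) →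
    μ ≤ Real.exp (-(k.g * k.ς) - p.R e - p.ω e) → Real.log D ≤ -2 * p.R e - k.g * k.ς →
    k.u ≤ p.R e → k.θ * p.R e ≤ k.ς → |p.lab - q.lab| * Real.exp (p.W e) ≤ Real.exp (-(k.g * k.ς)) →
    |p.lab - q.lab| ≤ Real.exp (k.g * k.ς - p.R e - p.ω e)

/-- candidate with its chain data -/
structure Cand (d : Cd) : Prop where
  sk : p.toSk.OK k.toEK
  la : p.LA k
  ch : d.OK k p.toSk p.La
end Pr

/-- a class of candidates -/
structure Cl {Z : Type} (k : Par) (P : Z → Pr) (d : Z → Cd) (C : Set Z) : Prop where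
  one : ∀ z ∈ C, (P z).Cand k (d z)
  two : ∀ z ∈ C, ∀ z' ∈ C, (P z).TA k (P z')

/-- MAIN STATEMENT OF E-B -/
def RUN_s : Prop := ∀ k : Par, k.OK → ∀ (Z : Type) (P : Z → Pr) (d : Z → Cd) (C : Set Z),
  Cl k P d C → volume ((fun z => (P z).t) '' C) ≤ ENNReal.ofReal (Real.exp (-(4 / 5 * k.ρ)))

/-- constants of a run are fine -/
def PAR_s : Prop := ∀ k : EK, k.OK → ∀ ρ : ℝ, k.Λ ≤ 10 ^ 7 * k.K * k.θ ^ 2 * ρ → ∀ j < k.J0,
  (k.par ρ j).OK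

end
end Pool.Agent.MP_9cbfe4_an.E

end

/-! ### Part EAI -/

section

/-! Section E-A of THM-2 (E1, E2, TF case, E3), model free, on the skeleton `E.Sk` of `EI`
(index = free times, non-major: `R = 0`, all numbers are logarithms).  helper2. -/

namespace Pool.Agent.MP_9cbfe4_an.E

open Finset
open scoped Classical

noncomputable section

namespace EK
variable (k : EK)
def k1 : ℝ := 3 * k.g
def g1 : ℝ := k.g ^ 2
def G : ℝ := 6 * k.g ^ 3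
def c1 : ℝ := 18 * k.g ^ 3
def g2 : ℝ := 18 * k.g ^ 4
def c2 : ℝ := 108 * k.g ^ 5
def g3 : ℝ := 108 * k.g ^ 6
end EK

namespace Sk
variable (k : EK) (S : Sk) (La : ℕ → ℕ → ℝ)

def Maj (x : ℕ) : Prop := x < S.N ∧ 0 < S.R x
def Strong (x : ℕ) : Prop := S.W x ≤ k.Cw * S.R x
def Rec (x : ℕ) : Prop := S.Maj x ∧ ∀ l < x, S.R l ≤ S.R x
def Heavy (x : ℕ) : Prop := k.G * S.σ k x ≤ S.R x
def Canc (i x : ℕ) : Prop := ∀ j : ℕ, 1 ≤ j → j ≤ i →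
  |La j (x + 1)| ≤ Real.exp ((2 * j - 1 - k.θ) * S.R x - S.ω x)
/-- flat of order `i` at the index `x`, for the depth `r`, with slack exponent `c` -/
def Flat (c : ℝ) (i x : ℕ) (r : ℝ) : Prop := ∀ j : ℕ, 1 ≤ j → j ≤ i →
  |La j x| ≤ Real.exp (c * S.σ k x + (2 * j - 1) * r - S.ω x)
/-- largest depth of a heavy major before `x` -/
def rc (x : ℕ) : ℝ := ((range x).filter (S.Heavy k)).fold max 0 S.R
/-- virtual depth -/
def Up (x : ℕ) : ℝ := (S.ω x - k.C5 * S.rc k x - k.θ * S.W x) / 6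
def TF (x : ℕ) : Prop := S.Maj x ∧ 0 ≤ S.Up k x ∧ S.Flat k La 0 3 x (S.Up k x)

/-- the one numeric fact that `Sk.OK` does not contain (`κ ≤ g`) -/
def Jump : Prop := ∀ l < S.N, S.R l ≤ k.g * S.W l + k.Λ

/-- what section J gives for the seed of the top level: D8, J2 Cor, J1 of types II and IV -/
structure Jet : Prop where
  la0 : ∀ j : ℕ, 1 ≤ j → j ≤ k.K → |La j 0| ≤ 2
  d8 : ∀ m < S.N, (∀ x < m, 0 < S.R x → k.g * S.σ k x + S.V 1 x ≤ 0) → 1 / 2 ≤ |La 1 m|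
  j2 : ∀ z i, i ≤ k.K → S.Rec z → S.Strong k z → S.Canc k La i z → ∀ j : ℕ, 1 ≤ j → j ≤ i →
    Real.exp (S.V (2 * j - 1) z - k.g * S.σ k z) ≤ |La j z| ∧
    |La j z| ≤ Real.exp (S.V (2 * j - 1) z + k.g * S.σ k z)
  two : ∀ c : ℝ, 1 ≤ c → c ≤ k.c2 → ∀ n < S.N, ∀ r : ℝ, 0 ≤ r → ∀ i ≤ k.K, S.Flat k La c i n r →
    ∀ m ≤ n, ∀ j : ℕ, 1 ≤ j → j ≤ i → ∀ b ρ : ℝ, 0 ≤ ρ →
    (r ≤ ρ ∨ ∀ x, m ≤ x → x < n → S.R x ≤ ρ) →
    k.g * c * S.σ k n + (2 * j - 2) * r + ρ - S.ω n ≤ b →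
    (∀ x, m ≤ x → x < n → 0 < S.R x → k.g * c * S.σ k x + S.V (2 * j - 1) x ≤ b) →
    k.g * c * S.σ k m - S.ω m ≤ b → |La j m - La j n| ≤ Real.exp b
  four : ∀ c : ℝ, 1 ≤ c → c ≤ k.c2 → ∀ y, S.Maj y → ∀ i ≤ k.K,
    (∀ j : ℕ, 1 ≤ j → j ≤ i → |La j (y + 1)| ≤ Real.exp (c * S.σ k y + S.V (2 * j - 1) y)) →
    ∀ m ≤ y, ∀ j : ℕ, 1 ≤ j → j ≤ i → ∀ b : ℝ,
    (∀ x, m ≤ x → x ≤ y → 0 < S.R x → k.g * c * S.σ k x + S.V (2 * j - 1) x ≤ b) →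
    k.g * c * S.σ k m - S.ω m ≤ b → |La j m| ≤ Real.exp b

/-- derived numeric facts; every row below may use them -/
structure Fa : Prop where
  K10 : 10 ≤ k.K
  g10 : 10 ≤ k.g
  θpos : 0 < k.θ
  θH : 10 ^ 20 * (k.K : ℝ) ^ 2 * k.g ^ 10 * k.θ ≤ 1
  Λ1 : 1 ≤ k.θ ^ 2 * k.Λ
  Λ10 : 100 ≤ k.Λ
  ok : S.OK k
  W0 : ∀ l ≤ S.N, 0 ≤ S.W l
  mono : ∀ l m, l ≤ m → m ≤ S.N → S.W l ≤ S.W m
  σΛ : ∀ l < S.N, k.Λ ≤ S.σ k l
  σlo : ∀ l < S.N, k.sl (S.W l) ≤ S.σ k l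
  σmono : ∀ l m, l ≤ m → m < S.N → S.σ k l ≤ S.σ k m
  σhi : ∀ l < S.N, S.σ k l ≤ k.k1 * k.sl (S.W l)
  σD : ∀ l, S.Maj l → S.σ k l ≤ 12 * k.g ^ 2 * k.θ ^ 2 * S.W l
  /-- a strong major has a negligible slack -/
  σS : ∀ l, S.Maj l → S.Strong k l → 10 ^ 10 * k.K * k.g ^ 8 * S.σ k l ≤ k.θ * S.R l
  /-- master lemma -/
  ml : ∀ y l, y < l → l < S.N → ∀ g a : ℝ, 0 ≤ g → g ≤ 10 ^ 4 * k.g ^ 7 → 1 ≤ 10 * k.K * a → a ≤ 1 →
    g * S.σ k l - a * S.ω l ≤ (g + 2) * k.k1 * S.σ k y - a * (S.ω y + S.R y)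
  ml0 : ∀ y l, y ≤ l → l < S.N → ∀ g a : ℝ, 0 ≤ g → g ≤ 10 ^ 4 * k.g ^ 7 → 1 ≤ 10 * k.K * a → a ≤ 1 →
    g * S.σ k l - a * S.ω l ≤ (g + 2) * k.k1 * S.σ k y - a * S.ω y

/-- state of the chain -/
structure St (z i : ℕ) : Prop where
  isRec : S.Rec z
  str : S.Strong k z
  canc : S.Canc k La i z
  k3 : 3 ≤ i
  kK : i ≤ k.K

/-- `l` qualifies as a creator for the state `(z, i)` -/
def Qual (z i l : ℕ) : Prop :=
  0 < S.R l ∧ |La i z| ≤ 4 * Real.exp (k.G * S.σ k l + S.V (2 * i - 1) l)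

/-- link from the cut-off `v` through the creator `y` to the state `(z, i)` -/
structure Lk (v y z i : ℕ) : Prop where
  vy : v ≤ y
  yz : y < z
  deep : ∀ l ≤ y, S.R l ≤ S.R v
  qual : S.Qual k La z i y
  nq : ∀ l, y < l → l < z → ¬ S.Qual k La z i l
  link : ∀ m, y < m → m ≤ z →
    |La i m - La i z| ≤ |La i z| / 4 + Real.exp (k.g1 * S.σ k m - S.ω m)
  four : ∀ j : ℕ, 1 ≤ j → j ≤ i → |La j (y + 1)| ≤ Real.exp (k.c1 * S.σ k y + S.V (2 * j - 1) y)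

/-- output of E2, cancelled case: states `Z` from `A` to `n`, orders `kk`, previous state `pv`,
creator `yy` -/
structure ChainNC (A n i : ℕ) (Z : Finset ℕ) (kk pv yy : ℕ → ℕ) : Prop where
  AZ : A ∈ Z
  nZ : n ∈ Z
  top : kk n = i
  mem : ∀ z ∈ Z, A ≤ z ∧ z ≤ n ∧ S.St k La z (kk z)
  ratio : S.R A * ∏ a ∈ Icc 4 i, (2 * (a : ℝ) - 1 / 10) / (2 * (a : ℝ) - 1) ≤ S.R n
  lk : ∀ z ∈ Z, z ≠ A → pv z ∈ Z ∧ 4 ≤ kk z ∧ S.Lk k La (pv z) (yy z) z (kk z) ∧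
    ∀ u ∈ Z, u ≤ pv z ∨ z ≤ u

/-- output of E2, triple flat case -/
structure ChainTF (A n : ℕ) : Prop where
  tf : S.TF k La n
  An : A < n
  isRec : S.Rec A
  str : S.Strong k A
  flat : S.Flat k La k.c2 3 A (S.R A)
  rc : S.rc k n = S.R A
  deep : ∀ l < n, S.Heavy k l → S.R l ≤ S.R A
  up : S.Up k n ≤ S.R A + k.c2 * S.σ k A + (S.ω n - S.ω A) / 6

/-! ### Rows of E1, E2.  Each row `X_s` is proved from `S.Fa k`, `S.Jet k La` and the rows named. -/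

def FA_s : Prop := k.OK → S.OK k → S.Jump k → S.Fa k

def E1_s : Prop := ∀ x, S.Rec x → ¬ S.TF k La x → S.Flat k La k.c2 3 x (S.R x) →
  S.Strong k x ∧ S.Up k x ≤ S.R x + k.c2 * S.σ k x

/-- restart at `y + 1` below a record `u` (uses E1) -/
def UC_s : Prop := ∀ u y i, S.Rec u → S.Maj y → u < y → 3 ≤ i → i ≤ k.K → ¬ S.TF k La u →
  (∀ l ≤ y, S.R l ≤ S.R u) →
  (∀ j : ℕ, 1 ≤ j → j ≤ i → |La j (y + 1)| ≤ Real.exp (k.c1 * S.σ k y + S.V (2 * j - 1) y)) →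
  S.St k La u i

/-- `a ≤ m ≤ z`, nobody in `[a, z)` qualifies -/
def LINK_s : Prop := ∀ z i a, S.St k La z i → 4 ≤ i →
  (∀ l, a ≤ l → l < z → ¬ S.Qual k La z i l) → ∀ m, a ≤ m → m ≤ z →
    |La i m - La i z| ≤ |La i z| / 4 + Real.exp (k.g1 * S.σ k m - S.ω m)

/-- existence of the creator (uses LINK) -/
def EXY_s : Prop := ∀ z i, S.St k La z i → 4 ≤ i → ∃ y < z, S.Qual k La z i y ∧
  ∀ l, y < l → l < z → ¬ S.Qual k La z i l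

/-- interpolation between the orders -/
def INT_s : Prop := ∀ z i y, S.St k La z i → 4 ≤ i → y < z → S.Qual k La z i y →
  (∀ l, y < l → l < z → ¬ S.Qual k La z i l) → ∀ l, y < l → l ≤ z →
  ∀ j : ℕ, 1 ≤ j → j < i → ∀ g : ℝ, 0 ≤ g → g ≤ k.g3 →
    g * S.σ k l + S.V (2 * j - 1) l ≤ S.V (2 * j - 1) y
      - 2 * ((i : ℝ) - j) / (2 * i - 1) * S.R y + (k.G + (g + k.g + 3) * k.k1) * S.σ k y

/-- uses E1, UC, LINK, EXY, INT -/
def STEP_s : Prop := ∀ z i, S.St k La z i → 4 ≤ i → (∀ x < z, ¬ S.TF k La x) →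
  ∃ v y i', S.Lk k La v y z i ∧ S.St k La v i' ∧ ((i' = i ∧ S.R v ≤ S.R z) ∨
    (i' + 1 = i ∧ S.R v * (2 * i - 1 / 10) ≤ S.R z * (2 * i - 1)))

/-- uses STEP -/
def CHAIN_s : Prop := ∀ n i, S.St k La n i → (∀ x < n, ¬ S.TF k La x) →
  ∃ A Z kk pv yy, S.ChainNC k La A n i Z kk pv yy

/-- uses E1 -/
def TFC_s : Prop := ∀ n, S.TF k La n → (∀ x < n, ¬ S.TF k La x) → ∃ A, S.ChainTF k La A n

/-- E1 and E2 together (uses UC, CHAIN, TFC) -/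
def E2_s : Prop := (∃ x, S.NC k La 1 x) →
  ∃ A n, (∀ x < n, ¬ S.TF k La x) ∧ (∀ x < n, ¬ S.NC k La 1 x) ∧
    ((∃ Z kk pv yy, S.ChainNC k La A n k.K Z kk pv yy) ∨ S.ChainTF k La A n)
end Sk

/-! ### E3 -/

/-- numbers of one run -/
structure Par.Nu (k : Par) : Prop where
  ok : k.OK
  fine : 10 ^ 6 * k.g ^ 9 * k.φ ≤ k.u
  Kbig : (2400 : ℝ) ≤ ∏ i ∈ Icc 4 k.K, (2 * (i : ℝ) - 1 / 10) / (2 * (i : ℝ) - 1)

namespace Sk
variable (k : Par) (S : Sk) (La : ℕ → ℕ → ℝ)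

/-- `ρ` and the terminal index `M` -/
structure Tm (A n M : ℕ) : Prop where
  RA : k.ρ - 1 ≤ S.R A ∧ S.R A ≤ k.ρ
  AM : A < M
  Mn : M ≤ n
  nN : n < S.N
  early : S.W M ≤ k.Wc
  cap : ∀ l < M, S.R l ≤ k.Rs
  why : M = n ∨ k.Rs < S.R M ∨ k.Wc < S.W (M + 1)

/-- weight of an element `l ≥ M` with depth function `R'` -/
def τ (R' : ℕ → ℝ) (gE : ℝ) (j l : ℕ) : ℝ := gE * S.σ k.toEK l + (2 * j - 1) * R' l - S.ω l

def View (d : Cd) (E : ℕ) (R' : ℕ → ℝ) (gE : ℝ) : Prop :=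
  ∀ m ≤ d.M, ∀ j : ℕ, 1 ≤ j → j ≤ 3 → ∀ b : ℝ,
    (∀ l, m ≤ l → l < d.M → d.nocut m l → k.g3 * S.σ k.toEK l + S.V (2 * j - 1) l ≤ b) →
    (d.nocut m d.M → ∀ l, d.M ≤ l → l ≤ E → S.τ k R' gE j l ≤ b) → |La j m| ≤ 2 * Real.exp b

def Okc (d : Cd) (E : ℕ) (R' : ℕ → ℝ) (gE : ℝ) : Prop := ∀ c, d.cut c →
  (∀ l, c < l → d.deep k S l → d.nocut (c + 1) l →
    S.V 3 l + S.ω c + S.R c ≤ 4 * S.Rst (c + 1) - k.ρ / 5) ∧
  (d.nocut (c + 1) d.M → ∀ l, d.M ≤ l → l ≤ E →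
    S.τ k R' gE 2 l + S.ω c + S.R c ≤ 4 * S.Rst (c + 1) - k.ρ / 5)

def El (d : Cd) (B kk : ℕ) (TT : ℝ) : Prop := ∀ l, B < l → d.deep k S l → d.nocut (B + 1) l →
  S.R l ≤ max (S.Rst (B + 1)) k.ρ ∨ Real.exp (S.V (2 * kk - 1) l) ≤ Real.exp k.ς * TT

def Low (d : Cd) (B kk : ℕ) (TT : ℝ) : Prop := ∀ m, B < m → m ≤ d.M → d.nodeep k S (B + 1) m →
  TT ≤ 2 * |La kk m| ∨ TT ≤ Real.exp (k.ς - S.ω m)

def Fi (M E : ℕ) (R' : ℕ → ℝ) (gE : ℝ) (kk : ℕ) (TT : ℝ) : Prop :=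
  (∀ l, M ≤ l → l ≤ E →
    Real.exp (S.τ k R' gE 2 l) ≤ k.far + TT * Real.exp (k.ς - 2 * (kk - 2) * k.Rs) ∧
    Real.exp (S.τ k R' gE 3 l) ≤ k.far + TT * Real.exp (k.ς - 2 * (kk - 3) * k.Rs)) ∧
  (k.C5 * k.ρ / 2 ≤ S.ω M ∨ ∀ l, M ≤ l → l ≤ E →
    Real.exp ((S.τ k R' gE 2 l - 2 * S.ω M) / 3) ≤ TT * Real.exp (k.ς - 2 * (kk - 1) * k.Rs))

def Lnk (d : Cd) (E : ℕ) (R' : ℕ → ℝ) (gE : ℝ) : Prop := ∀ B, d.deep k S B → ∃ (kk : ℕ) (TT : ℝ),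
  4 ≤ kk ∧ kk ≤ k.K ∧ 0 ≤ TT ∧ S.El k d B kk TT ∧ S.Low k La d B kk TT ∧
  (d.nocut (B + 1) d.M → S.Fi k d.M E R' gE kk TT)

/-- the two cases in one form (`d.tt` plays no role) -/
structure Mid (A n : ℕ) (d : Cd) (E : ℕ) (R' : ℕ → ℝ) (gE : ℝ) : Prop where
  tm : S.Tm k A n d.M
  recA : S.Rec A
  str : S.Strong k.toEK A
  ME : d.M ≤ E
  En : E ≤ n
  gE0 : 0 ≤ gE ∧ gE ≤ k.g3
  R0 : ∀ l, 0 ≤ R' l
  cutA : d.cut A
  cutd : ∀ c, d.cut c → d.deep k S c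
  view : S.View k La d E R' gE
  okc : S.Okc k d E R' gE
  lnk : S.Lnk k La d E R' gE

/-- setting of the cancelled case: `z` is the state that governs the terminal index -/
structure Ctx (A n : ℕ) (Z : Finset ℕ) (kk pv yy : ℕ → ℕ) (M z : ℕ) : Prop where
  fa : S.Fa k.toEK
  jet : S.Jet k.toEK La
  int : S.INT_s k.toEK La
  nu : k.Nu
  ch : S.ChainNC k.toEK La A n k.K Z kk pv yy
  tm : S.Tm k A n M
  zZ : z ∈ Z
  zA : z ≠ A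
  pz : pv z < M
  Mz : M ≤ z

/-- cut-offs of the cancelled case: states and deep creators below `M` -/
def cdN (A : ℕ) (Z : Finset ℕ) (yy : ℕ → ℕ) (M : ℕ) : Cd :=
  ⟨M, fun c => c < M ∧ (c ∈ Z ∨ (k.u ≤ S.R c ∧ ∃ z ∈ Z, z ≠ A ∧ yy z = c)), fun _ _ => 0⟩
def EN (y z M : ℕ) : ℕ := if y < M then z else y
def gN (y M : ℕ) : ℝ := if y < M then k.g1 else k.g2

def VIEWN_s : Prop := ∀ A n Z kk pv yy M z, S.Ctx k La A n Z kk pv yy M z →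
  S.View k La (S.cdN k A Z yy M) (EN (yy z) z M) S.R (gN k (yy z) M)
def OKN_s : Prop := ∀ A n Z kk pv yy M z, S.Ctx k La A n Z kk pv yy M z →
  S.Okc k (S.cdN k A Z yy M) (EN (yy z) z M) S.R (gN k (yy z) M)
/-- the end of the last link -/
def FINN_s : Prop := ∀ A n Z kk pv yy M z, S.Ctx k La A n Z kk pv yy M z →
  (yy z < M → S.Fi k M z S.R k.g1 (kk z) |La (kk z) z|) ∧
  (M ≤ yy z → S.Fi k M (yy z) S.R k.g2 4 0)
/-- uses FINN -/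
def LKN_s : Prop := ∀ A n Z kk pv yy M z, S.Ctx k La A n Z kk pv yy M z →
  S.Lnk k La (S.cdN k A Z yy M) (EN (yy z) z M) S.R (gN k (yy z) M)
/-- uses VIEWN, OKN, LKN -/
def MIDN_s : Prop := S.Fa k.toEK → S.Jet k.toEK La → S.INT_s k.toEK La → k.Nu →
  ∀ A n Z kk pv yy M, S.ChainNC k.toEK La A n k.K Z kk pv yy → S.Tm k A n M →
  ∃ d E R' gE, d.M = M ∧ S.Mid k La A n d E R' gE
/-- `cut = {A}`, `E = n`, `R' = R` except `R' n = Up n`, `gE = g`, `TT = 0` -/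
def MIDT_s : Prop := S.Fa k.toEK → S.Jet k.toEK La → k.Nu →
  ∀ A n M, S.ChainTF k.toEK La A n → S.Tm k A n M →
  ∃ d E R' gE, d.M = M ∧ S.Mid k La A n d E R' gE

def Base (d : Cd) : Prop := ∃ l0 c, l0 ≤ c ∧ d.cut c ∧ d.deep k S l0 ∧ (∀ l < l0, S.R l ≤ S.R l0) ∧
  (∀ l ≤ c, S.R l ≤ k.ρ) ∧ 2000 * k.g * k.ς ≤ S.R l0 ∧ S.ω l0 ≤ 6 * S.R l0 + k.ρ / 100
def BASE_s : Prop := S.Fa k.toEK → k.Nu → ∀ A n d E R' gE, S.Mid k La A n d E R' gE →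
  (∀ x < n, ¬ S.TF k.toEK La x) → S.Base k d

def Few (M : ℕ) : Prop := (((range M).filter fun l => l < M ∧ k.u ≤ S.R l).card : ℝ)
  * (10 ^ 11 * k.K * k.g * k.ς) ≤ k.ρ
/-- the jets of the seed of lower level -/
def Close (La' : ℕ → ℕ → ℝ) : Prop := ∀ j, 1 ≤ j → j ≤ k.K → ∀ m ≤ S.N, S.W m ≤ k.Wc →
  |La' j m - La j m| ≤ Real.exp (-2 * k.Wc)
def ASM_s : Prop := S.Fa k.toEK → k.Nu → ∀ A n d E R' gE, S.Mid k La A n d E R' gE →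
  (∀ x < n, ¬ S.NC k.toEK La 1 x) → S.Base k d → S.Few k d.M →
  ∃ tt, ∀ La', S.Close k La La' → Cd.OK k S La' ⟨d.M, d.cut, tt⟩
end Sk

namespace Sk
variable (k : EK) (S : Sk) (La : ℕ → ℕ → ℝ)
/-- numbers: `ρ = ⌈R A⌉`, terminal index, pigeonhole (uses `PAR_s`) -/
def NUM_s : Prop := k.OK → S.Fa k → ∀ A n, S.Rec A → S.Strong k A → A < n → n < S.N →
  k.Λ ≤ 10 ^ 7 * k.K * k.θ ^ 2 * (⌈S.R A⌉₊ : ℝ) ∧ ∃ M, ∃ j < k.J0, (k.par ⌈S.R A⌉₊ j).Nu ∧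
    S.Tm (k.par ⌈S.R A⌉₊ j) A n M ∧ S.Few (k.par ⌈S.R A⌉₊ j) M

/-- MAIN STATEMENT OF E-A -/
def EA_s : Prop := k.OK → S.OK k → S.Jump k → S.Jet k La → (∃ x, S.NC k La 1 x) →
  ∃ (ρ j : ℕ) (d : Cd), j < k.J0 ∧ k.Λ ≤ 10 ^ 7 * k.K * k.θ ^ 2 * (ρ : ℝ) ∧
    (∃ A < S.N, 0 < S.R A ∧ S.Strong k A ∧ S.R A ≤ ρ ∧ (ρ : ℝ) - 1 ≤ S.R A) ∧ d.M < S.N ∧
    ∀ La', S.Close (k.par ρ j) La La' → d.OK (k.par ρ j) S La'
end Sk

end
end Pool.Agent.MP_9cbfe4_an.E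

end
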