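import Pool.Agent.MP_9cbfe4_an.M01

set_option linter.all false

attribute [-instance] AddQuantale.instAddLeftMono IdemSemiring.toCanonicallyOrderedAdd
  NumberField.to_charZero AddQuantale.instAddRightMono IdemSemiring.toMulLeftMono RKHS.instFunLike
  Quantale.instMulRightMono Quantale.instMulLeftMono IsOrderedCancelMonoid.toIsOrderedMonoid
  LinearOrderedCommMonoidWithZero.toPosMulStrictMono
  Group.IsPerfect.subsingleton_of_isMulCommutative CanonicallyOrderedAdd.toMulLeftMono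
  Valued.toUniformSpace IdemSemiring.toMulRightMono TotallySeparatedSpace.t2Space
  LinearOrderedCommMonoidWithZero.toIsOrderedMonoid IsScalarTower.complexToReal
  Order.Coframe.toCompleteLattice OmegaCompletePartialOrder.toPartialOrder Invertible.toNeZero
  GrpTypeEquivalenceGrp.grpGroup littleWedderburn CanonicallyOrderedMul.toMulLeftMono
  CoalgHomClass.toSemilinearMapClass TestFunctionClass.toDFunLike
  ContDiffMapSupportedInClass.toDFunLike Order.Frame.toCompleteLattice RightPreLieAlgebra.toModule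
  CategoryTheory.Limits.Concrete.instUniqueToTypeTerminal LeftPreLieAlgebra.toModule
  CStarAlgebra.instOrderClosedTopology IdemSemiring.toSemiring
  LieAdmissibleRing.toNonUnitalNonAssocRing NonUnitalAlgSemiHomClass.toDistribMulActionSemiHomClass
  CStarAlgebra.toNormedRing

/-! ### Part Def2 -/

section

/-! THM-2 (all `d < 2`): constants, `C^k` model, condition C5, data, seeds.
Paper /team-store/h70s_paper.md.  Rows of THM-2 have the form `∀ K, Hier fun c => deps → X_s K c`. -/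

namespace Pool.Agent.MP_9cbfe4_an

open Finset Filter Topology MeasureTheory
open scoped ContDiff

noncomputable section

namespace Cs
variable (c : Cs)
/-- cancellation exponent -/
def th : ℝ := 1 / c.C0
/-- slope of the logarithm of the slack -/
def ths : ℝ := c.e3 ^ 3
/-- threshold of majors -/
def am : ℝ := c.e3 ^ 4
def C7 (K : ℕ) : ℝ := 100 * K ^ 2 * c.C1
/-- stable dimension bound `d+` -/
def dpl : ℝ := Real.log 2 / c.chK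
/-- class entropy and loss factor at history level `y` (`y = C0 * V`) -/
def S0 (y : ℝ) : ℝ := Real.exp (Real.sqrt c.a * y)
/-- half width of the parameter window of a seed class -/
def rU (y : ℝ) : ℝ := 1 / c.S0 y ^ 3
end Cs

def tiny (y : ℝ) : ℝ := Real.exp (-y / 4)

/-- `K` is so large that a `K`-fold cancellation forces depth ratio `2400` -/
def KBig (K : ℕ) : Prop :=
  10 ≤ K ∧ (2400 : ℝ) ≤ ∏ k ∈ Icc 4 K, (2 * (k : ℝ) - 1 / 10) / (2 * (k : ℝ) - 1)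

/-- relations between the first constants for THM-2 -/
def First (K : ℕ) (c : Cs) : Prop :=
  KBig K ∧ c.θb / (1 - c.θb) < c.κ ∧ 10 ≤ c.κ ∧ 100 * K * (1 - c.θb) ≤ 1 - c.dpl

def Mdl.GG (M : Mdl) (z : ℝ × ℝ × ℝ) : ℝ := M.G z.1 z.2.1 z.2.2
def OB (c : Cs) : Set (ℝ × ℝ × ℝ) := {z | 0 < z.1 ∧ z.1 < 1 ∧ |z.2.1| < 2 * c.L ∧ |z.2.2| < 2 * c.L}
/-- anisotropic size of a tangent vector -/
def nq (q : ℝ) (v : ℝ × ℝ × ℝ) : ℝ := max |v.1| (max |v.2.1| (q * |v.2.2|))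

/-- `C^k` bounds for the normal form -/
structure Mdl.OKk (c : Cs) (k : ℕ) (M : Mdl) : Prop where
  ok : M.OK c
  smooth : ContDiffOn ℝ ∞ M.GG (OB c)
  d1 : ∀ z ∈ OB c, ∀ v : ℝ × ℝ × ℝ, fderiv ℝ M.GG z v =
    M.Gt z.1 z.2.1 z.2.2 * v.1 + M.Ga z.1 z.2.1 z.2.2 * v.2.1 + M.Gb z.1 z.2.1 z.2.2 * v.2.2
  bd : ∀ j : ℕ, 2 ≤ j → j ≤ k → ∀ z ∈ OB c, ∀ q : ℝ, Real.exp (-c.bl / 2) ≤ q →
    (1 / 100 ≤ dP z.2.1 ∨ 1 / 100 ≤ dP z.2.2 ∨ (dP z.2.2 ≤ c.w0 ∧ 1 / 4 ≤ q)) →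
    ∀ v : Fin j → ℝ × ℝ × ℝ, |iteratedFDeriv ℝ j M.GG z v| ≤ c.CG * c.L * ∏ i, nq q (v i)
  bd' : ∀ j : ℕ, 2 ≤ j → j ≤ k → ∀ z ∈ OB c,
    (1 / 100 ≤ dP z.2.1 ∨ 1 / 100 ≤ dP z.2.2 ∨ dP z.2.2 ≤ c.w0) → ∀ v : Fin j → ℝ × ℝ × ℝ,
    |iteratedFDeriv ℝ j M.GG z v| ≤ c.CG * c.L * ∏ i, max (c.dl * |(v i).1|) (max |(v i).2.1|
      (min (1 / 4) (Real.exp (c.a * c.bl) * M.Gb z.1 z.2.1 z.2.2 / c.L) * |(v i).2.2|))
  bd2 : ∀ j : ℕ, 1 ≤ j → j + 1 ≤ k → ∀ z ∈ OB c, ∀ v : Fin j → ℝ × ℝ × ℝ, (∀ i, (v i).2.2 = 0) →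
    |iteratedFDeriv ℝ (j + 1) M.GG z (Fin.cons (0, 0, 1) v)| ≤ c.CG * Real.exp (c.a * c.bl) *
      M.Gb z.1 z.2.1 z.2.2 * ∏ i, max |(v i).1| |(v i).2.1|
  fold : ∀ j : ℕ, 2 ≤ j → j ≤ k → ∀ z ∈ OB c, 1 / 100 ≤ dP z.2.1 →
    ‖iteratedFDeriv ℝ j (fun z : ℝ × ℝ × ℝ => M.GG z - c.L * Real.cos z.2.1) z‖
      ≤ Real.exp (-(k + 2) * c.bl)

/-- `∂_t G` along the orbit -/
def Mdl.gt (M : Mdl) (t : ℝ) (S : Sq) (i : ℤ) : ℝ := M.Gt t (S.X i) (S.X (i - 1))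
/-- start of the history window of level `y` before `n` -/
def Sq.st (c : Cs) (S : Sq) (n : ℤ) (y : ℝ) : ℤ := max 0 (n - S.Nw c n y)
/-- parameter speed of the critical value coming from the history and from the fold step -/
def Mdl.hist (c : Cs) (M : Mdl) (t : ℝ) (S : Sq) (ξ : ℤ → ℝ) (n : ℤ) (y : ℝ) : ℝ :=
  M.gt t S n + ∑ i ∈ Ico (S.st c n y) n, (-1) ^ (n - i).toNat * S.Pb i n * (ξ i / ξ n) * M.gt t S i
/-- `σ^{(p)}` -/
def Mdl.sgm (c : Cs) (M : Mdl) (t : ℝ) (S : Sq) (ξ : ℤ → ℝ) (n p : ℤ) (y : ℝ) : ℝ :=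
  M.hist c t S ξ n y + ∑ i ∈ Ioo n p, S.fr (i + 1) p / S.fr (n + 1) p * M.gt t S i

/-- condition C5: lower bound for the parameter speed -/
def C5 (K : ℕ) (c : Cs) (M : Mdl) (t : ℝ) (S : Sq) (ξ : ℤ → ℝ) (n p : ℤ) (r : ℝ) : Prop :=
  c.C7 K * S.load c n (S.Wt c (S.fr (n + 1)) (n + 1) p r) ≤ S.Wp c n p →
  |S.rho ξ n p| ≤ Real.exp (-2 * S.Wp c n p) →
  Real.exp (-(1 - 1 / (2 * K)) * S.Wp c n p) / 2
    ≤ |M.sgm c t S ξ n p (c.C0 * S.Wt c (S.fr (n + 1)) (n + 1) p r)|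

/-- the extra conditions of THM-2 -/
def Ex2 (K : ℕ) (c : Cs) (M : Mdl) : ExT := fun S ξ n Ls p r =>
  Cstar c S ξ n Ls p r ∧ ∀ t, TI t → IsOrb c M t S 0 → C5 K c M t S ξ n p r

/-- a fold datum: parameter, base point, outer direction, fold time -/
structure Fd where
  t : ℝ
  v : ℝ
  ξ : ℤ → ℝ
  n : ℤ

def Fd.S (φ : Fd) (M : Mdl) : Sq := M.O φ.t φ.v

/-- tame up to level `y`, bound beyond contraction `y`, almost critical -/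
structure Fd.OK (c : Cs) (Ex : ExT) (M : Mdl) (y : ℝ) (φ : Fd) : Prop where
  y_lo : c.bl / 4 < y
  ht : 1 / 5 ≤ φ.t ∧ φ.t ≤ 4 / 5
  hv : φ.v ∈ Set.Icc (0 : ℝ) 100
  out : (φ.S M).Out c φ.ξ φ.n
  tame : ∀ y' ≤ y, (φ.S M).Tame c φ.ξ φ.n y'
  hor : ∃ Ls J r, (φ.S M).BRun c Ex φ.ξ φ.n Ls J r ∧ y ≤ (φ.S M).chi c φ.n J ∧
    |(φ.S M).rho φ.ξ φ.n J| ≤ 1 / c.S0 y ^ 10

/-- critical value `v t`, critical point `c t`, horizon `J` (absolute time) -/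
structure Seed where
  v : ℝ → ℝ
  c : ℝ → ℝ
  J : ℤ

/-- the orbit of a seed; time `0` is the fold -/
def Seed.orb (σ : Seed) (M : Mdl) (t : ℝ) : Sq := M.orb t 1 (σ.v t, σ.c t)
/-- `ν_1` for the horizon `m` -/
def Sq.nu1 (S : Sq) (m : ℤ) : ℝ := -(S.b 1 * S.fr 2 m / S.fr 1 m)

/-- (Ya): properties of the seed of level `y` of one datum -/
structure Seed.OK (K : ℕ) (c : Cs) (Ex : ExT) (M : Mdl) (y : ℝ) (φ : Fd) (σ : Seed) : Prop where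
  sv : ContDiffOn ℝ (K + 1 : ℕ) σ.v (Set.Ioo (φ.t - 3 * c.rU y) (φ.t + 3 * c.rU y))
  sc : ContDiffOn ℝ (K + 1 : ℕ) σ.c (Set.Ioo (φ.t - 3 * c.rU y) (φ.t + 3 * c.rU y))
  jets : ∀ t ∈ Set.Ioo (φ.t - 3 * c.rU y) (φ.t + 3 * c.rU y),
    |deriv σ.v t - 1| ≤ 1 / 10 ∧ (∀ j : ℕ, 2 ≤ j → j ≤ K + 1 → |iteratedDeriv j σ.v t| ≤ 1) ∧
    (∀ j : ℕ, 1 ≤ j → j ≤ K + 1 → |iteratedDeriv j σ.c t| ≤ 1 / 10) ∧
    |σ.v t| ≤ 3 / 2 * c.L ∧ |σ.c t| ≤ 3 / 2 * c.L ∧ 1 ≤ dP (σ.v t) ∧ 1 ≤ dP (σ.c t)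
  hor : y ≤ (φ.S M).chi c φ.n σ.J ∧ (φ.S M).Wp c φ.n σ.J ≤ Real.sqrt c.a * y / 100 ∧
    (∃ Ls r, (φ.S M).BRun c Ex φ.ξ φ.n Ls σ.J r) ∧
    (σ.orb M φ.t).fr 1 (σ.J - φ.n) ≠ 0
  /-- the seed at `t0` is a point of the leaf through the datum -/
  near : ∃ h, Box c h ∧ σ.v φ.t = M.G φ.t (σ.c φ.t) h ∧
    (φ.S M).b φ.n * |h - (φ.S M).X (φ.n - 1)
      - φ.ξ (φ.n - 1) / φ.ξ φ.n * (σ.c φ.t - (φ.S M).X φ.n)|
      ≤ Real.exp (-c.bl / 4) * (σ.c φ.t - (φ.S M).X φ.n) ^ 2 ∧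
    c.L * |σ.c φ.t - (φ.S M).X φ.n| ≤ 3 * |(φ.S M).rho φ.ξ φ.n σ.J|
  speed : |deriv σ.v φ.t - (σ.orb M φ.t).nu1 (σ.J - φ.n) * deriv σ.c φ.t
      - M.hist c φ.t (φ.S M) φ.ξ φ.n y| ≤ c.S0 y * |σ.c φ.t - (φ.S M).X φ.n|

/-- `A` is covered by at most `N` intervals of length `l` -/
def CovI (A : Set ℝ) (N l : ℝ) : Prop :=
  ∃ T : Finset ℝ, (T.card : ℝ) ≤ N ∧ A ⊆ ⋃ x ∈ T, Set.Icc x (x + l)

/-- (Yb), (Yc): classes of level `y` over the parameter window with centre `tU` -/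
structure Cls (c : Cs) (Ex : ExT) (M : Mdl) (sd : Fd → ℝ → Seed) (y tU : ℝ) (N : ℕ)
    (cl : Fd → Fin N) (nu : Fin N → ℝ) (lab : Fd → ℝ) : Prop where
  card : (N : ℝ) ≤ c.S0 y ^ 8
  nu_eq : ∀ φ : Fd, φ.OK c Ex M y → |φ.t - tU| ≤ c.rU y →
    |((sd φ y).orb M φ.t).nu1 ((sd φ y).J - φ.n) - nu (cl φ)| ≤ 1 / (2 * c.S0 y ^ 2) ∧
    |nu (cl φ)| ≤ Real.exp (-c.bl / 4)
  two : ∀ φ φ' : Fd, φ.OK c Ex M y → φ'.OK c Ex M y → |φ.t - tU| ≤ c.rU y → |φ'.t - tU| ≤ c.rU y →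
    cl φ = cl φ' → |lab φ - lab φ'| ≤ c.rU y ∧ ∀ t, |t - tU| ≤ 3 / 2 * c.rU y →
      |(sd φ y).v t - (sd φ' y).v t - nu (cl φ) * ((sd φ y).c t - (sd φ' y).c t) - (lab φ - lab φ')|
        ≤ |lab φ - lab φ'| / 100 + tiny y ∧
      ∀ j : ℕ, j ≤ 3 →
        |iteratedDeriv j (sd φ y).v t - iteratedDeriv j (sd φ' y).v t|
          ≤ c.S0 y * |lab φ - lab φ'| + tiny y ∧
        |iteratedDeriv j (sd φ y).c t - iteratedDeriv j (sd φ' y).c t|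
          ≤ c.S0 y * |lab φ - lab φ'| + tiny y
  loc : ∀ (H : Fin N) (x l1 l2 : ℝ), tiny y ≤ l2 → l2 ≤ l1 →
    CovI {z | z ∈ Set.Icc x (x + l1) ∧ ∃ φ : Fd, φ.OK c Ex M y ∧ |φ.t - tU| ≤ c.rU y ∧ cl φ = H ∧
      lab φ = z} (c.S0 y * (l1 / l2) ^ c.dpl) l2
  low : ∀ (H : Fin N) (l : ℝ), 0 ≤ l →
    CovI {z | ∃ φ : Fd, φ.OK c Ex M y ∧ |φ.t - tU| ≤ c.rU y ∧ cl φ = H ∧
      (φ.S M).load c φ.n (y / c.C0) ≤ l ∧ lab φ = z} (c.S0 y * 2 ^ l) (tiny y)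

/-- the whole output of section S -/
structure Seeds (K : ℕ) (c : Cs) (Ex : ExT) (M : Mdl) (sd : Fd → ℝ → Seed) : Prop where
  ok : ∀ φ y, φ.OK c Ex M y → (sd φ y).OK K c Ex M y φ
  /-- change of level -/
  cross : ∀ φ y y', φ.OK c Ex M y → φ.OK c Ex M y' → y' ≤ y → ∀ j : ℕ, j ≤ K + 1 →
    |iteratedDeriv j (sd φ y).v φ.t - iteratedDeriv j (sd φ y').v φ.t| ≤ tiny y' ∧
    |iteratedDeriv j (sd φ y).c φ.t - iteratedDeriv j (sd φ y').c φ.t| ≤ tiny y'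
  cls : ∀ y tU, 0 ≤ y → ∃ N cl nu lab, Cls c Ex M sd y tU N cl nu lab
  /-- (Yd) = R6: the same history gives the same critical point -/
  same : ∀ φ φ' y, φ.OK c Ex M y → φ'.OK c Ex M y → |φ'.t - φ.t| ≤ c.rU y →
    ((φ.S M).Nw c φ.n (2 * y + 3 * c.bl) : ℤ) ≤ φ.n → ((φ'.S M).Nw c φ'.n (2 * y) : ℤ) ≤ φ'.n →
    (∀ j : ℕ, j ≤ (φ.S M).Nw c φ.n (2 * y + 3 * c.bl) →
      |(φ'.S M).X (φ'.n - j) - (φ.S M).X (φ.n - j)| ≤ c.rU y) →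
    ∀ t, |t - φ'.t| ≤ c.rU y → |(sd φ y).c t - (sd φ' y).c t| ≤ Real.exp (-y / 2)

/-- section S -/
def S_s (K : ℕ) (c : Cs) : Prop := ∀ M : Mdl, M.OKk c (K + 6) → ∀ Ex : ExT, ∃ sd : Fd → ℝ → Seed, Seeds K c Ex M sd

/-- data of the hypothesis `HH` -/
structure Dat extends Fd where
  Ls : List (ℤ × ℝ)
  p : ℤ
  r : ℝ

namespace Dat
variable (c : Cs) (Ex : ExT) (M : Mdl) (d : Dat)
def S : Sq := d.toFd.S M
/-- the level `V` -/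
def V : ℝ := (d.S M).Wt c ((d.S M).fr (d.n + 1)) (d.n + 1) d.p d.r
def ld : ℝ := (d.S M).load c d.n (d.V c M)
def ev : ℝ := (d.S M).evs c ((d.S M).fr (d.n + 1)) (d.n + 1) d.Ls
  + (d.S M).ev c ((d.S M).fr (d.n + 1)) (d.n + 1) d.p d.r

/-- the hypotheses of `HH`, with `r` capped -/
structure Pre : Prop where
  ht : 1 / 4 ≤ d.t ∧ d.t ≤ 3 / 4
  hv : d.v ∈ Set.Icc (0 : ℝ) 100
  hn : 0 ≤ d.n
  sol : (d.S M).Sol d.ξ d.n
  tame : ∀ y ≤ c.C0 * d.V c M, (d.S M).Tame c d.ξ d.n y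
  run : (d.S M).Run c Ex ((d.S M).fr (d.n + 1)) (d.n + 1) ((d.S M).PBd c Ex d.ξ d.n) d.Ls d.p
  bd : (d.S M).Bd c d.ξ d.n d.p d.r
  wit : (d.S M).Wit c Ex ((d.S M).fr (d.n + 1)) d.p d.r
  cap : d.r ≤ max ((d.S M).sg c ((d.S M).fr (d.n + 1)) (d.n + 1) d.p / c.e3 + c.cc)
    (c.κ * (d.S M).Wt c ((d.S M).fr (d.n + 1)) (d.n + 1) d.p 0 + c.c1 + 1)

def BadS : Prop := c.θb * d.V c M + c.cc < d.ev c M
def Bad3 : Prop := (d.S M).xx c d.n (d.V c M) < d.ev c M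
def Bad5 (K : ℕ) : Prop := ¬ C5 K c M d.t (d.S M) d.ξ d.n d.p d.r
def High : Prop := c.bl / 2 < c.C0 * d.V c M
/-- the history level of the pair -/
def y : ℝ := ⌊c.C0 * d.V c M⌋
end Dat

/-- reduction of `¬ HH` to the three violations (uses B5) -/
def RED_s (K : ℕ) (c : Cs) : Prop := First K c → ∀ M : Mdl, M.OK c → ∀ t, 1 / 4 ≤ t → t ≤ 3 / 4 →
  ¬ HH c (Ex2 K c M) M t → ∃ d : Dat, d.t = t ∧ d.Pre c (Ex2 K c M) M ∧
    (d.BadS c M ∨ d.Bad3 c M ∨ d.Bad5 c M K)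

/-- low level: C5 holds, the other two violations are rare -/
def LOW_s (K : ℕ) (c : Cs) : Prop := First K c → ∀ M : Mdl, M.OK c →
  (∀ d : Dat, d.Pre c (Ex2 K c M) M → ¬ d.High c M → ¬ d.Bad3 c M → ¬ d.Bad5 c M K) ∧
  volume {t | ∃ d : Dat, d.t = t ∧ d.Pre c (Ex2 K c M) M ∧ ¬ d.High c M ∧
    (d.BadS c M ∨ d.Bad3 c M)} ≤ 1 / 20

/-- high data are fold data at every lower level -/
def HI_s (K : ℕ) (c : Cs) : Prop := First K c → ∀ M : Mdl, M.OK c → ∀ d : Dat,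
  d.Pre c (Ex2 K c M) M → ∀ y, c.bl / 4 < y → y ≤ c.C0 * d.V c M → d.toFd.OK c (Ex2 K c M) M y

/-- what replaces `E0_s` -/
def E2_s (K : ℕ) (c : Cs) : Prop := First K c → ∀ M : Mdl, M.OKk c (K + 6) →
  volume {t | TI t ∧ ¬ HH c (Ex2 K c M) M t} ≤ 3 / 4

end
end Pool.Agent.MP_9cbfe4_an

end

/-! ### Part SI3 -/

section

/-! Section S, part 3: the seed system in the tube of a reference orbit (no `Hier`). -/

namespace Pool.Agent.MP_9cbfe4_an.SS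

open Finset Filter Topology
open scoped ContDiff

noncomputable section

/-- the box of radius `r` around the point of step `j` -/
def UB (R : Sq) (t0 r : ℝ) (j : ℤ) : Set R3 :=
  {z | |z.1 - t0| ≤ r ∧ |z.2.1 - R.X j| ≤ r ∧ |z.2.2 - R.X (j - 1)| ≤ r}

/-- all data of a reference orbit -/
structure RD where
  R : Sq
  t0 : ℝ
  ξ : ℤ → ℝ
  w : ℤ → ℝ
  μ : ℤ → ℝ
  D : ℤ → ℝ
  s : ℤ
  J : ℤ
  Λ : ℝ
  L : ℝ
  δ : ℝ
  dl : ℝ
  r : ℝ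

/-- the same reference with a later start of the window -/
def RD.from (P : RD) (i : ℤ) : RD := { P with s := i }
/-- contraction from `s - 1` to `min j 0` -/
def RD.κ (P : RD) (j : ℤ) : ℝ := P.R.kp P.w (P.s - 1) (min j 0)
/-- `ρ` of the reference for the horizon `J` -/
def RD.ρ (P : RD) : ℝ := P.R.a 0 + P.R.b 0 * P.ξ (-1) - P.R.nu1 P.J

structure Ref (g : R3 → ℝ) (N E : ℕ) (P : RD) : Prop where
  ct : P.R.CT E P.ξ P.w P.μ P.D P.s P.J P.Λ P.L P.δ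
  r0 : 0 < P.r
  rE : P.r * P.Λ ^ E ≤ 1
  dlδ : P.dl ≤ P.δ ^ 2
  lm : ∀ j, P.s ≤ j → j ≤ P.J →
    LM g (UB P.R P.t0 P.r j) N (P.R.a j) (P.R.b j) (P.μ j) P.dl (P.Λ ^ 2 * P.r)
  fold : FoldOn g (UB P.R P.t0 P.r 0) P.L
  orb : ∀ j, P.s ≤ j → j < P.J → P.R.X (j + 1) = g (P.t0, P.R.X j, P.R.X (j - 1))
  ea : ∀ j, P.s ≤ j → j ≤ P.J → P.R.a j = ga g (P.t0, P.R.X j, P.R.X (j - 1))
  eb : ∀ j, P.s ≤ j → j ≤ P.J → P.R.b j = gb g (P.t0, P.R.X j, P.R.X (j - 1))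

/-- suffix windows -/
def RFROM_s : Prop := ∀ g N E P i, Ref g N E P → P.s ≤ i → i ≤ 0 → Ref g N E (P.from i)

def EqX (g : R3 → ℝ) (τ : ℝ) (X : ℤ → ℝ) (i J : ℤ) : Prop :=
  ∀ j, i ≤ j → j < J → X (j + 1) = g (τ, X j, X (j - 1))
def EqE (g : R3 → ℝ) (τ : ℝ) (X η : ℤ → ℝ) (i J : ℤ) : Prop :=
  ∀ j, i ≤ j → j < J →
    η (j + 1) = ga g (τ, X j, X (j - 1)) * η j + gb g (τ, X j, X (j - 1)) * η (j - 1)
/-- `X` is within `r` of the reference on `[i, J]` -/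
def Tube (R : Sq) (X : ℤ → ℝ) (i J : ℤ) (r : ℝ) : Prop := ∀ j, i ≤ j → j ≤ J → |X j - R.X j| ≤ r
/-- the seed system at the parameter `τ` -/
structure Sol (g : R3 → ℝ) (P : RD) (τ : ℝ) (X η : ℤ → ℝ) : Prop where
  eqx : EqX g τ X P.s P.J
  eqe : EqE g τ X η P.s P.J
  linx : P.ξ P.s * (X (P.s - 1) - P.R.X (P.s - 1)) = P.ξ (P.s - 1) * (X P.s - P.R.X P.s)
  line : P.ξ P.s * η (P.s - 1) = P.ξ (P.s - 1) * η P.s
  one : η 0 = 1
  zero : η P.J = 0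

/-- order `0`, comparison with the reference -/
def AP0_s : Prop := ∀ g N E P τ X η, Ref g N E P → 100 ≤ E → |τ - P.t0| ≤ P.r → Sol g P τ X η →
  Tube P.R X (P.s - 1) P.J P.r →
  (∀ j, P.s - 1 ≤ j → j ≤ P.J → |η j| ≤ P.μ j ^ 10 * P.D j) ∧
  P.L * |X 0 - P.R.X 0| ≤ 5 / 2 * |P.ρ| + 100 * P.δ * |τ - P.t0| ∧
  ∀ j, P.s - 1 ≤ j → j ≤ P.J → |X j - P.R.X j| ≤ (2 * |τ - P.t0| + |X 0 - P.R.X 0|) * P.μ j ^ 40

/-- existence at one parameter -/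
def EX0_s : Prop := ∀ g N E P τ (r1 : ℝ), Ref g N E P → 200 ≤ E → |τ - P.t0| ≤ r1 → |P.ρ| ≤ r1 →
  r1 * P.Λ ^ 100 ≤ P.r → ∃ X η, Sol g P τ X η ∧ Tube P.R X (P.s - 1) P.J (P.r / 2)

/-- order `0`, two solutions; the second has defects `f`, `f'` at the first step -/
def D0_s : Prop := ∀ g N E (e : ℕ) P τ (X η X' η' : ℤ → ℝ) (f f' β γ : ℝ), Ref g N E P → e + 60 ≤ E →
  |τ - P.t0| ≤ P.r → EqX g τ X P.s P.J → EqE g τ X η P.s P.J →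
  EqX g τ X' (P.s + 1) P.J → EqE g τ X' η' (P.s + 1) P.J →
  X' (P.s + 1) = g (τ, X' P.s, X' (P.s - 1)) + f →
  η' (P.s + 1) = ga g (τ, X' P.s, X' (P.s - 1)) * η' P.s
    + gb g (τ, X' P.s, X' (P.s - 1)) * η' (P.s - 1) + f' →
  η 0 = 1 → η' 0 = 1 → Tube P.R X (P.s - 1) P.J P.r → Tube P.R X' (P.s - 1) P.J P.r →
  (∀ j, P.s - 1 ≤ j → j ≤ P.J → |η' j| ≤ P.μ j ^ e * P.D j) → 0 ≤ β → 0 ≤ γ →
  |f| ≤ β * P.κ P.s → |f'| ≤ β * P.κ P.s →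
  |P.ξ P.s * (X' (P.s - 1) - X (P.s - 1)) - P.ξ (P.s - 1) * (X' P.s - X P.s)| ≤ β * P.w (P.s - 1) →
  |P.ξ P.s * (η' (P.s - 1) - η (P.s - 1)) - P.ξ (P.s - 1) * (η' P.s - η P.s)| ≤ β * P.w (P.s - 1) →
  |η' P.J - η P.J| ≤ γ → ∀ j, P.s - 1 ≤ j → j ≤ P.J →
    |X' j - X j| ≤ P.Λ ^ (2 * e + 70) * (β * P.κ j + γ) ∧
    |η' j - η j| ≤ P.Λ ^ (2 * e + 70) * (β * P.κ j + γ)

/-- forward facts of order `0` -/
def FT_s : Prop := ∀ g N E P τ, Ref g N E P → 100 ≤ E → |τ - P.t0| ≤ P.r →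
  (∀ (X : ℤ → ℝ) (r1 : ℝ), EqX g τ X 1 P.J → |τ - P.t0| ≤ r1 → |X 0 - P.R.X 0| ≤ r1 →
    |X 1 - P.R.X 1| ≤ r1 → r1 * P.Λ ^ 10 ≤ P.r → Tube P.R X 0 P.J (r1 * P.Λ ^ 8)) ∧
  (∀ X η : ℤ → ℝ, EqE g τ X η 1 P.J → Tube P.R X 0 P.J P.r → η 0 = 1 → η P.J = 0 →
    (∀ j, 0 ≤ j → j ≤ P.J → |η j| ≤ P.μ j ^ 10 * P.D j) ∧
    ∀ S : Sq, (∀ j, 1 ≤ j → j < P.J → S.a j = ga g (τ, X j, X (j - 1))) →
      (∀ j, 1 ≤ j → j ≤ P.J → S.b j = gb g (τ, X j, X (j - 1))) →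
      S.fr 1 P.J ≠ 0 ∧ S.nu1 P.J = η 1) ∧
  ∀ (X η X' η' : ℤ → ℝ) (z : ℝ), EqX g τ X 1 P.J → EqE g τ X η 1 P.J → EqX g τ X' 1 P.J →
    EqE g τ X' η' 1 P.J → Tube P.R X 0 P.J P.r → Tube P.R X' 0 P.J P.r → η 0 = 1 → η' 0 = 1 →
    η P.J = 0 → η' P.J = 0 → |X' 0 - X 0| ≤ z → |X' 1 - X 1| ≤ z → |η' 1 - η 1| ≤ P.δ * z

/-- the seed at `t0` lies on the leaf of the datum -/
def NEAR_s : Prop := ∀ g N E P X η, Ref g N E P → 200 ≤ E → Sol g P P.t0 X η →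
  Tube P.R X (P.s - 1) P.J P.r →
  P.R.b 0 * |X (-1) - P.R.X (-1) - P.ξ (-1) * (X 0 - P.R.X 0)| ≤ P.δ * (X 0 - P.R.X 0) ^ 2

/-- separation at `s - 1` is seen in the label -/
def SEP_s : Prop := ∀ g N E (e : ℕ) P τ (X η X' : ℤ → ℝ) (G : ℝ), Ref g N E P → e + 30 ≤ E →
  |τ - P.t0| ≤ P.r → EqX g τ X P.s 1 → EqE g τ X η P.s 1 → EqX g τ X' (P.s + 1) 1 →
  X' (P.s + 1) = g (τ, X' P.s, X (P.s - 1)) + G → η 0 = 1 →
  Tube P.R X (P.s - 1) 0 P.r → Tube P.R X' P.s 0 P.r →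
  (∀ j, P.s - 1 ≤ j → j ≤ 0 → |η j| ≤ P.Λ ^ e) →
  P.R.b P.s * |X' 0 - X 0| * P.Λ ^ (e + 1) ≤ |G| →
  |G| * P.R.kp P.w P.s 0 ≤
    P.Λ ^ (2 * e + 20) * (|X' 1 - X 1 - η 1 * (X' 0 - X 0)| + (X' 0 - X 0) ^ 2)

/-- a family of sequences -/
structure Fm where
  X : ℤ → ℝ → ℝ
  η : ℤ → ℝ → ℝ
def Fm.x (F : Fm) (τ : ℝ) (j : ℤ) : ℝ := F.X j τ
def Fm.e (F : Fm) (τ : ℝ) (j : ℤ) : ℝ := F.η j τ
/-- smooth on `[i, J]` -/
def Fm.Sm (F : Fm) (i J : ℤ) (τ : ℝ) : Prop :=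
  ∀ j, i ≤ j → j ≤ J → ContDiffAt ℝ ∞ (F.X j) τ ∧ ContDiffAt ℝ ∞ (F.η j) τ
/-- bounds for the jets on `[i, J]` -/
def Fm.Jb (F : Fm) (N e : ℕ) (μ D : ℤ → ℝ) (i J : ℤ) (τ : ℝ) : Prop :=
  ∀ j, i ≤ j → j ≤ J → ∀ n ≤ N, (1 ≤ n → |iteratedDeriv n (F.X j) τ| ≤ μ j ^ e) ∧
    |iteratedDeriv n (F.η j) τ| ≤ μ j ^ e * D j

/-- the solutions form a smooth family -/
def SM_s : Prop := ∀ g N E P (h : ℝ), Ref g N E P → 1 ≤ N → 200 ≤ E → h ≤ P.r / 2 →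
  (∀ τ ∈ Set.Ioo (P.t0 - h) (P.t0 + h), ∃ X η, Sol g P τ X η ∧ Tube P.R X (P.s - 1) P.J (P.r / 2)) →
  ∃ F : Fm, ∀ τ ∈ Set.Ioo (P.t0 - h) (P.t0 + h), Sol g P τ (F.x τ) (F.e τ) ∧
    Tube P.R (F.x τ) (P.s - 1) P.J (P.r / 2) ∧ F.Sm (P.s - 1) P.J τ

/-- jets of the seed -/
def JET_s : Prop := ∀ N : ℕ, ∃ e E0 : ℕ, ∀ g E P τ (F : Fm), Ref g N E P → E0 ≤ E →
  |τ - P.t0| ≤ P.r → F.Sm (P.s - 1) P.J τ → (∀ᶠ σ in 𝓝 τ, Sol g P σ (F.x σ) (F.e σ)) →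
  Tube P.R (F.x τ) (P.s - 1) P.J P.r →
  F.Jb N e P.μ P.D (P.s - 1) P.J τ ∧ (∀ n, 1 ≤ n → n ≤ N → |iteratedDeriv n (F.X 0) τ| ≤ P.δ) ∧
  (1 ≤ N → |deriv (F.X 1) τ - 1| ≤ 1 / 10) ∧ ∀ n, 2 ≤ n → n ≤ N → |iteratedDeriv n (F.X 1) τ| ≤ 1

/-- jets of a forward orbit -/
def FWDJ_s : Prop := ∀ N : ℕ, ∃ e E0 : ℕ, ∀ g E P τ (X : ℤ → ℝ → ℝ), Ref g N E P → E0 ≤ E →
  |τ - P.t0| ≤ P.r → (∀ j, 0 ≤ j → j ≤ P.J → ContDiffAt ℝ ∞ (X j) τ) →
  (∀ᶠ σ in 𝓝 τ, EqX g σ (fun j => X j σ) 1 P.J) → Tube P.R (fun j => X j τ) 0 P.J P.r →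
  (∀ n, 1 ≤ n → n ≤ N → |iteratedDeriv n (X 0) τ| ≤ 2 ∧ |iteratedDeriv n (X 1) τ| ≤ 2) →
  ∀ j, 0 ≤ j → j ≤ P.J → ∀ n, 1 ≤ n → n ≤ N → |iteratedDeriv n (X j) τ| ≤ P.μ j ^ e

/-- parameter speed of the label -/
def SPD_s : Prop := ∀ g N E P (F : Fm), Ref g N E P → 1 ≤ N → 200 ≤ E → F.Sm (P.s - 1) P.J P.t0 →
  (∀ᶠ σ in 𝓝 P.t0, Sol g P σ (F.x σ) (F.e σ)) → Tube P.R (F.x P.t0) (P.s - 1) P.J P.r →
  |deriv (F.X 1) P.t0 - F.η 1 P.t0 * deriv (F.X 0) P.t0 - (gt g (P.t0, P.R.X 0, P.R.X (-1))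
      + ∑ i ∈ Ico P.s 0, (-1) ^ (0 - i).toNat * P.R.Pb i 0 * P.ξ i * gt g (P.t0, P.R.X i, P.R.X (i - 1)))|
    ≤ P.Λ ^ 70 * |F.X 0 P.t0 - P.R.X 0|

/-- common hypotheses on two families in the tube; the second solves from step `s + 1` on and is
controlled on `[i', J]` -/
structure Two (g : R3 → ℝ) (N e : ℕ) (P : RD) (τ : ℝ) (F F' : Fm) (i' : ℤ) : Prop where
  ht : |τ - P.t0| ≤ P.r
  sm : F.Sm (P.s - 1) P.J τ
  sm' : F'.Sm (P.s - 1) P.J τ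
  eq : ∀ᶠ σ in 𝓝 τ, EqX g σ (F.x σ) P.s P.J ∧ EqE g σ (F.x σ) (F.e σ) P.s P.J ∧ F.η 0 σ = 1
  eq' : ∀ᶠ σ in 𝓝 τ, EqX g σ (F'.x σ) (P.s + 1) P.J ∧ EqE g σ (F'.x σ) (F'.e σ) (P.s + 1) P.J ∧
    F'.η 0 σ = 1
  tube : Tube P.R (F.x τ) (P.s - 1) P.J P.r
  tube' : Tube P.R (F'.x τ) i' P.J P.r
  jb : F.Jb N e P.μ P.D (P.s - 1) P.J τ
  jb' : F'.Jb N e P.μ P.D i' P.J τ

/-- differences of jets -/
def DIFF_s : Prop := ∀ N e : ℕ, ∃ e' : ℕ, ∀ g E P τ (F F' : Fm) (f f' : ℝ → ℝ) (β γ : ℝ),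
  Ref g N E P → e' ≤ E → Two g N e P τ F F' (P.s - 1) → ContDiffAt ℝ ∞ f τ → ContDiffAt ℝ ∞ f' τ →
  (∀ᶠ σ in 𝓝 τ, F'.X (P.s + 1) σ = g (σ, F'.X P.s σ, F'.X (P.s - 1) σ) + f σ ∧
    F'.η (P.s + 1) σ = ga g (σ, F'.X P.s σ, F'.X (P.s - 1) σ) * F'.η P.s σ
      + gb g (σ, F'.X P.s σ, F'.X (P.s - 1) σ) * F'.η (P.s - 1) σ + f' σ) →
  0 ≤ β → 0 ≤ γ →
  (∀ n ≤ N, |iteratedDeriv n f τ| ≤ β * P.κ P.s ∧ |iteratedDeriv n f' τ| ≤ β * P.κ P.s ∧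
    |P.ξ P.s * dj n (F'.X (P.s - 1)) (F.X (P.s - 1)) τ - P.ξ (P.s - 1) * dj n (F'.X P.s) (F.X P.s) τ|
      ≤ β * P.w (P.s - 1) ∧
    |P.ξ P.s * dj n (F'.η (P.s - 1)) (F.η (P.s - 1)) τ - P.ξ (P.s - 1) * dj n (F'.η P.s) (F.η P.s) τ|
      ≤ β * P.w (P.s - 1) ∧ |dj n (F'.η P.J) (F.η P.J) τ| ≤ γ) →
  ∀ n ≤ N, ∀ j, P.s - 1 ≤ j → j ≤ P.J → |dj n (F'.X j) (F.X j) τ| ≤ P.Λ ^ e' * (β * P.κ j + γ) ∧
    |dj n (F'.η j) (F.η j) τ| ≤ P.Λ ^ e' * (β * P.κ j + γ)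

/-- two exact families, close on the whole window -/
def DCL_s : Prop := ∀ N e : ℕ, ∃ e' : ℕ, ∀ g E P τ (F F' : Fm) (γ : ℝ),
  Ref g N E P → e' ≤ E → Two g N e P τ F F' (P.s - 1) →
  (∀ᶠ σ in 𝓝 τ, EqX g σ (F'.x σ) P.s P.J ∧ EqE g σ (F'.x σ) (F'.e σ) P.s P.J) → 0 ≤ γ →
  (∀ n ≤ N, |dj n (F'.η P.J) (F.η P.J) τ| ≤ γ) →
  (∀ n ≤ N, ∀ j, 0 ≤ j → j ≤ P.J → |dj n (F'.X j) (F.X j) τ| ≤ P.Λ ^ e' * (P.κ 0 + γ)) ∧
  (P.ξ (P.s - 1) = 0 → (∀ᶠ σ in 𝓝 τ, F'.X (P.s - 1) σ = F.X (P.s - 1) σ ∧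
      F'.η (P.s - 1) σ = F.η (P.s - 1) σ) →
    ∀ n ≤ N, ∀ j, 0 ≤ j → j ≤ P.J → |dj n (F'.X j) (F.X j) τ| ≤ P.Λ ^ e' * γ)

/-- two exact families that separate at `s - 1` -/
def SEPD_s : Prop := ∀ N e : ℕ, ∃ e' : ℕ, ∀ g E P τ (F F' : Fm) (U' : Set R3) (a' b' m ρ' : ℝ),
  Ref g N E P → e' ≤ E → Two g N e P τ F F' P.s →
  (∀ᶠ σ in 𝓝 τ, EqX g σ (F'.x σ) P.s P.J ∧ EqE g σ (F'.x σ) (F'.e σ) P.s P.J ∧
    F.η P.J σ = 0 ∧ F'.η P.J σ = 0) →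
  LM g U' N a' b' m P.dl ρ' → m ≤ P.Λ → b' ≤ P.Λ → (τ, F'.X P.s τ, F'.X (P.s - 1) τ) ∈ U' →
  VSeg g N P.Λ τ (F'.X P.s τ) (F.X (P.s - 1) τ) (F'.X (P.s - 1) τ) →
  (∀ n ≤ N, (1 ≤ n → |iteratedDeriv n (F'.X (P.s - 1)) τ| ≤ P.Λ ^ e) ∧
    |iteratedDeriv n (F'.η (P.s - 1)) τ| ≤ P.Λ ^ e) →
  ∀ n ≤ N, ∀ j, 0 ≤ j → j ≤ P.J → |dj n (F'.X j) (F.X j) τ| ≤ P.Λ ^ e' *
    ((|g (τ, F'.X P.s τ, F'.X (P.s - 1) τ) - g (τ, F'.X P.s τ, F.X (P.s - 1) τ)| + P.R.b P.s + b')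
      * P.R.kp P.w P.s 0)

end
end Pool.Agent.MP_9cbfe4_an.SS

end

/-! ### Part MG -/

section

/-! Row MG of section S: the partial derivatives as functions. -/

namespace Pool.Agent.MP_9cbfe4_an.SS

open Finset
open scoped ContDiff Nat

noncomputable section

theorem mg_smooth {g : R3 → ℝ} {z : R3} (h : ContDiffAt ℝ ∞ g z) (e : R3) :
    ContDiffAt ℝ ∞ (fun y => fderiv ℝ g y e) z :=
  (h.fderiv_right (m := ∞) (by simp)).clm_apply contDiffAt_const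

theorem mg_iter {g : R3 → ℝ} {z : R3} (h : ContDiffAt ℝ ∞ g z) (e : R3) (k : ℕ) (v : Fin k → R3) :
    iteratedFDeriv ℝ k (fun y => fderiv ℝ g y e) z v
      = iteratedFDeriv ℝ (k + 1) g z (Fin.snoc v e) := by
  obtain h1 : ContDiffAt ℝ ∞ (fun y => fderiv ℝ g y) z := h.fderiv_right (m := ∞) (by simp)
  have h2 := (ContinuousLinearMap.apply ℝ ℝ e).iteratedFDeriv_comp_left h1 (i := k)
    (by exact_mod_cast le_top)
  rw [iteratedFDeriv_succ_apply_right, Fin.init_snoc, Fin.snoc_last]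
  have h3 : (fun y => fderiv ℝ g y e) = (ContinuousLinearMap.apply ℝ ℝ e) ∘ fun y => fderiv ℝ g y :=
    rfl
  rw [h3, h2]
  rfl

theorem mg_lin (g : R3 → ℝ) (z v : R3) :
    fderiv ℝ g z v = gt g z * v.1 + ga g z * v.2.1 + gb g z * v.2.2 := by
  obtain hv : v = v.1 • ((1, 0, 0) : R3) + v.2.1 • ((0, 1, 0) : R3) + v.2.2 • ((0, 0, 1) : R3) := by
    ext <;> simp
  conv_lhs => rw [hv]
  simp only [map_add, map_smul, smul_eq_mul, gt, ga, gb]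
  ring

theorem pg_nonneg (dl b : ℝ) (v : R3) : 0 ≤ pg dl b v :=
  le_max_of_le_right (le_max_of_le_left (abs_nonneg _))

theorem pg_ea {dl b : ℝ} : pg dl b (0, 1, 0) = 1 := by simp [pg]
theorem pg_eb {dl b : ℝ} (hb : 0 ≤ b) : pg dl b (0, 0, 1) = b := by simp [pg, hb]
theorem pg_et {dl b : ℝ} (hd : 0 ≤ dl) : pg dl b (1, 0, 0) = dl := by simp [pg, hd]

theorem mg_bd {g : R3 → ℝ} {U : Set R3} {N : ℕ} {a b m dl ρ : ℝ} (h : LM g U N a b m dl ρ) {z : R3}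
    (hz : z ∈ U) (e : R3) {k : ℕ} (h1 : 1 ≤ k) (hk : k ≤ N + 1) (v : Fin k → R3) :
    |iteratedFDeriv ℝ k (fun y => fderiv ℝ g y e) z v| ≤ m * pg dl b e * ∏ i, pg dl b (v i) := by
  rw [mg_iter (h.sm z hz)]
  refine (h.bd (k + 1) (by omega) (by omega) z hz _).trans (le_of_eq ?_)
  rw [Fin.prod_univ_castSucc]
  simp only [Fin.snoc_castSucc, Fin.snoc_last]
  ring

theorem mg : MG_s := by
  intro g U N a b m dl ρ h z hz
  have hs := h.sm z hz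
  refine ⟨mg_smooth hs _, mg_smooth hs _, mg_smooth hs _, mg_lin g z, fun x => ?_,
    fun k v => mg_iter hs _ k v, fun k h1 hk v => ⟨?_, ?_, ?_⟩⟩
  · have h1 := mg_iter hs (0, 1, 0) 1 ![(0, 1, 0)]
    rw [iteratedFDeriv_one_apply] at h1
    obtain h2 : ((0, x, 0) : R3) = x • ((0, 1, 0) : R3) := by ext <;> simp
    obtain h3 : (Fin.snoc ![((0, 1, 0) : R3)] ((0, 1, 0) : R3) : Fin 2 → R3)
        = ![(0, 1, 0), (0, 1, 0)] := by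
      ext i : 1; fin_cases i <;> rfl
    rw [h2, map_smul, smul_eq_mul, mul_comm, ← h3, ← h1]
    rfl
  · have h2 := mg_bd h hz (0, 1, 0) h1 hk v
    rw [pg_ea, mul_one] at h2
    exact h2
  · have h2 := mg_bd h hz (0, 0, 1) h1 hk v
    rw [pg_eb h.b0.le] at h2
    exact h2
  · have h2 := mg_bd h hz (1, 0, 0) h1 hk v
    rw [pg_et h.dl0] at h2
    exact h2

end
end Pool.Agent.MP_9cbfe4_an.SS

end

/-! ### Part E0I -/

section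

/-! Interface of section E0 (helper27): sub-rows of the parameter exclusion. -/

namespace Pool.Agent.MP_9cbfe4_an

open Finset Filter Topology MeasureTheory

noncomputable section

/-- a fold datum with its partner run -/
structure EDat where
  t : ℝ
  v : ℝ
  ξ : ℤ → ℝ
  n : ℤ
  Ls : List (ℤ × ℝ)
  p : ℤ
  r : ℝ

open Classical in
/-- first component of the symbol of a step of depth `r` -/
def sgm (c : Cs) (r : ℝ) : ℕ := if c.cc ≤ r then ⌈r⌉₊ else 0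

namespace EDat
variable (c : Cs) (Ex : ExT) (M : Mdl) (z : EDat)

def S : Sq := M.O z.t z.v
/-- the fresh direction of the partner run -/
def f : ℤ → ℝ := (z.S M).fr (z.n + 1)
def V : ℝ := (z.S M).Wt c (z.f M) (z.n + 1) z.p z.r
def W (m : ℤ) : ℝ := (z.S M).Wp c z.n m
/-- `log max (A_m, w_m)` -/
def W0 (m : ℤ) : ℝ := (z.S M).Wt c (z.f M) (z.n + 1) m 0
/-- all free times with their depths, the final one first -/
def Lf : List (ℤ × ℝ) := (z.p, z.r) :: z.Ls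
def ev (x : ℤ × ℝ) : ℝ := (z.S M).ev c (z.f M) (z.n + 1) x.1 x.2
/-- total size of the events -/
def tot : ℝ := (z.S M).evs c (z.f M) (z.n + 1) z.Lf
/-- charged event -/
def Chg (X0 : ℝ) (x : ℤ × ℝ) : Prop := 0 < z.ev c M x ∧ X0 ≤ z.W c M x.1
open Classical in
def chs (X0 : ℝ) : ℝ := (z.Lf.map fun x => if z.Chg c M X0 x then z.ev c M x else 0).sum
open Classical in
def patE (X0 : ℝ) : List (ℤ × ℝ) → ℤ → List (ℕ × ℕ × Bool)
  | [], _ => []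
  | x :: L, m => (sgm c x.2, (m - x.1).toNat, decide (z.Chg c M X0 x)) :: patE X0 L x.1
def pattern (X0 : ℝ) : List (ℕ × ℕ × Bool) := z.patE c M X0 z.Lf (z.p + 1)
open Classical in
/-- covering radius before the event `x` -/
def Rad (x : ℤ × ℝ) : ℝ := c.cw * Real.exp (-(if c.cc ≤ x.2 then z.W0 c M x.1 else z.W c M x.1))
/-- localisation radius after the event `x` -/
def Nad (x : ℤ × ℝ) : ℝ := 3000 * Real.exp (-(sgm c x.2 : ℝ)) / |z.f M x.1|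

/-- data violating `(C*)` or `(C3*)`, with capped final depth -/
structure Viol : Prop where
  ht : TI z.t
  hv : z.v ∈ Set.Icc (0 : ℝ) 100
  out : (z.S M).Out c z.ξ z.n
  run : (z.S M).Run c Ex (z.f M) (z.n + 1) ((z.S M).PBd c Ex z.ξ z.n) z.Ls z.p
  bd : (z.S M).Bd c z.ξ z.n z.p z.r
  wit : (z.S M).Wit c Ex (z.f M) z.p z.r
  tame : ∀ y ≤ c.C0 * z.V c M, (z.S M).Tame c z.ξ z.n y
  bad : min (c.θb * z.V c M) (c.C1 * (z.S M).load c z.n (z.V c M) + c.ε * z.V c M) + c.cc <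
    z.tot c M
  cap : (c.κ < 1 ∧ z.r ≤ c.κ * z.W0 c M z.p + c.c1 + 1) ∨ c.C0 * z.V c M ≤ c.bl

/-- facts about one free time `x.1` (depth `x.2`) of the partner run -/
structure El (x : ℤ × ℝ) : Prop where
  lt : z.n < x.1
  le : x.1 ≤ z.p
  rinv : (z.S M).RInv c (z.f M) (z.n + 1) x.1
  binv : ∃ L, (z.S M).BInv c z.n L x.1
  out : (z.S M).Out c (z.f M) x.1
  wit : (z.S M).Wit c Ex (z.f M) x.1 x.2
  lev : Real.log |z.f M x.1| + x.2 ≤ z.V c M ∧ z.W c M x.1 ≤ z.V c M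
  wle : Real.log |z.f M x.1| ≤ z.W c M x.1 + c.lam + 10
  kind : 0 < z.ev c M x →
    (c.cc ≤ x.2 ∧ z.ev c M x = x.2 ∧ (z.S M).sg c (z.f M) (z.n + 1) x.1 ≤ c.e3 * x.2 ∧
      5 / 100 ≤ dP ((z.S M).X x.1) ∧
      ((c.C0 * z.V c M ≤ c.bl ∧ x.2 ≤ c.bl / 4) ∨ x.2 ≤ z.W0 c M x.1 + c.lam)) ∨
    (x.2 < c.cc ∧ -1 ≤ x.2 ∧ z.ev c M x = c.lam ∧ dP ((z.S M).X x.1) < 5 / 100 ∧
      (z.S M).sig c (z.f M) (z.n + 1) x.1 ≤ -(1 - 5 * c.e3) * c.lam)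
  later : ∀ y ∈ z.Lf, x.1 < y.1 → Real.log |z.f M x.1| + x.2 ≤ z.W c M y.1

/-- the orbit of `z'` (time shifted) shadows the orbit of `z` up to `m`, with absolute error `g` -/
structure Par (z' : EDat) (m : ℤ) (g : ℝ) : Prop where
  pos : |(z'.S M).X (m - z.n + z'.n) - (z.S M).X m - (z'.t - z.t) * z.f M m|
    ≤ (|z'.t - z.t| / 100 + g) * |z.f M m|
  tan : |z'.f M (m - z.n + z'.n) - z.f M m| ≤ |z.f M m| / 100
  d1 : (z.S M).kk m = 0 → (z.S M).b m * |(z'.S M).X (m - z.n + z'.n - 1) - (z.S M).X (m - 1)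
      - z.f M (m - 1) / z.f M m * ((z'.S M).X (m - z.n + z'.n) - (z.S M).X m)|
    ≤ Real.exp (-c.bl / 4) * (|z'.t - z.t| + g + c.L * ((|z'.t - z.t| + g) * |z.f M m|) ^ 2)
  d2 : (z.S M).kk m = 0 → (z.S M).b m *
      |z'.f M (m - z.n + z'.n - 1) / z'.f M (m - z.n + z'.n) - z.f M (m - 1) / z.f M m|
    ≤ Real.exp (-c.bl / 4) * c.L * ((|z'.t - z.t| + g) * |z.f M m|)

/-- shadowing with an error below the resolution of the event `x` -/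
def ParE (z' : EDat) (x : ℤ × ℝ) : Prop :=
  ∃ g, 0 ≤ g ∧ g * |z.f M x.1| * Real.exp x.2 ≤ 1 ∧ z.Par c M z' x.1 g

end EDat

/-- standing hypotheses of section E0 -/
def Std (c : Cs) (Ex : ExT) (M : Mdl) : Prop :=
  c.θb / (1 - c.θb) < c.κ ∧ (∀ S ξ n Ls p r, Ex S ξ n Ls p r → Cstar c S ξ n Ls p r) ∧ M.OK c

/-- row EEL: facts about one violating datum -/
def EEL_s (c : Cs) : Prop := ∀ Ex M (z : EDat), Std c Ex M → z.Viol c Ex M →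
  (∀ x ∈ z.Lf, z.El c Ex M x) ∧ z.Lf.Pairwise (fun x y => y.1 < x.1) ∧
  (∀ j, z.n < j → j ≤ z.p → ∑ i ∈ Ico (z.n + 1) j, |(z.S M).fr (i + 1) j| ≤
    Real.exp (-c.lam / 3) * (z.S M).wp c z.n j) ∧
  0 < z.ev c M (z.p, z.r) ∧ |(z.S M).a z.n| ≤ c.L / 100 ∧
  (c.bl < c.C0 * z.V c M → c.κ < 1 ∧ z.V c M ≤ 2 * z.W c M z.p + 4 * c.lam)

/-- row EPAT: patterns -/
def EPAT_s (c : Cs) : Prop := ∀ Ex M (z : EDat), Std c Ex M → z.Viol c Ex M →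
  (∀ X0, (∀ s ∈ z.pattern c M X0, SymOK c s) ∧
    ((z.pattern c M X0).length : ℝ) ≤ 10 * z.V c M / c.lam + 12 ∧
    ((z.pattern c M X0).map fun s => (s.1 : ℝ)).sum ≤ 40 * (z.V c M + c.lam)) ∧
  (∀ X0 (z' : EDat), z'.Viol c Ex M → z.pattern c M X0 = z'.pattern c M X0 → ∀ x ∈ z.Lf, ∃ x' ∈ z'.Lf,
    x'.1 = x.1 - z.n + z'.n ∧ sgm c x'.2 = sgm c x.2 ∧ (z'.Chg c M X0 x' ↔ z.Chg c M X0 x)) ∧
  z.tot c M ≤ z.chs c M 0 ∧
  (c.κ < 1 → ∀ X0, 0 ≤ X0 → X0 ≤ z.W c M z.p → z.tot c M ≤ z.chs c M X0 + 2 * X0 + 4 * c.lam)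

/-- row ELOC: one event localises the parameter -/
def ELOC_s (c : Cs) : Prop := ∀ Ex M (z z' : EDat) (x x' : ℤ × ℝ), M.OK c → TI z.t → TI z'.t →
  z.v ∈ Set.Icc (0 : ℝ) 100 → z'.v ∈ Set.Icc (0 : ℝ) 100 → z.El c Ex M x → z'.El c Ex M x' →
  x'.1 = x.1 - z.n + z'.n → sgm c x'.2 = sgm c x.2 → 0 < z.ev c M x → 0 < z'.ev c M x' →
  z.ParE c M z' x → |z'.t - z.t| ≤ z.Rad c M x →
  |z'.t - z.t| ≤ z.Nad c M x ∧ z'.Nad c M x' ≤ 2 * z.Nad c M x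

/-- row ECV: nested covering in the parameter for one family with a common pattern -/
def ECV_s (c : Cs) : Prop := ∀ Ex M (F : Set EDat) (X0 N0 Y : ℝ), Std c Ex M →
  (∀ z ∈ F, z.Viol c Ex M) → (∀ z ∈ F, ∀ z' ∈ F, z.pattern c M X0 = z'.pattern c M X0) →
  c.cw * Real.exp (-X0) ≤ N0 →
  (∀ z ∈ F, ∀ z' ∈ F, ∀ x ∈ z.Lf, z.Chg c M X0 x → |z'.t - z.t| ≤ z.Rad c M x → z.ParE c M z' x) →
  (∀ z ∈ F, Y ≤ z.chs c M X0) →
  volume (EDat.t '' F) ≤ ENNReal.ofReal (Real.exp (-(1 - 7 * c.e3) * Y)) *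
    volume (⋃ z ∈ F, Metric.closedBall z.t N0)

/-- row EPL: shadowing at low level (two classes: the sign of `cos X_n`) -/
def EPL_s (c : Cs) : Prop := ∀ Ex M (z z' : EDat) (k : ℝ), Std c Ex M → z.Viol c Ex M →
  z'.Viol c Ex M → k ≤ z.V c M → z.V c M ≤ k + 1 → k ≤ z'.V c M → z.V c M ≤ c.bl / 3 →
  (0 ≤ Real.cos ((z.S M).X z.n) ↔ 0 ≤ Real.cos ((z'.S M).X z'.n)) →
  ∀ x ∈ z.Lf, |z'.t - z.t| ≤ z.Rad c M x → z.ParE c M z' x

end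
end Pool.Agent.MP_9cbfe4_an

end

/-! ### Part EEL -/

section

/-! Row EEL: facts about one violating datum. -/

namespace Pool.Agent.MP_9cbfe4_an
open Finset Filter Topology
namespace EEL
noncomputable section

structure Par (c : Cs) : Prop where
  k1 : 1 / 16 ≤ c.k0
  k2 : c.k0 < 1 / 2
  θ0 : 0 < c.θb
  κ0 : 0 < c.κ
  C0 : 8 ≤ c.C0
  C1 : 0 ≤ c.C1
  e3p : 0 < c.e3
  e3s : c.e3 ≤ 1 / 100
  εp : 0 < c.ε
  εs : c.ε ≤ 1
  a1 : c.a ≤ 1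
  lam : 100 ≤ c.lam
  L : 10 ^ 6 ≤ c.L
  cc : 2 ≤ c.cc
  ch0 : 0 < c.chK
  chb : c.chK ≤ c.bl

theorem par : Hier Par := by
  have hb := Hier.base
  have h0 := Hier.C0_ge fun _ _ _ _ => 8
  have h1 := Hier.C1_ge fun _ _ _ _ _ => 0
  obtain h2 := Hier.e3_le (fun _ => 1 / 100) (fun _ _ _ _ _ _ _ _ => rfl)
    (Hier.of_all fun _ => by norm_num)
  obtain h3 : Hier fun c => 0 < c.ε ∧ c.ε ≤ 1 :=
    (Hier.ε_le_pow (fun _ => 1) 0 (by norm_num) (fun _ _ _ _ _ _ _ _ => rfl)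
      (Hier.of_all fun _ => one_pos)).mono fun _ h => ⟨h.1, by simpa using h.2⟩
  obtain h4 := Hier.a_le (fun _ => 1) (fun _ _ _ _ _ _ => rfl) (Hier.of_all fun _ => by norm_num)
  have h6 := Hier.β_ge (fun _ => 16) fun _ _ _ => rfl
  have h7 := Hier.lam_ge (fun c => 40 / c.ε) fun _ _ => rfl
  have h8 := Hier.lam_ge (fun _ => 100) fun _ _ => rfl
  have h9 := Hier.L_ge (fun _ => 10 ^ 6) fun _ _ => rfl
  refine (hb.and (h0.and (h1.and (h2.and (h3.and (h4.and (h6.and (h7.and (h8.and h9))))))))).mono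
    fun c ⟨hb, h0, h1, h2, h3, h4, h6, h7, h8, h9⟩ => ?_
  obtain ⟨k1, k2, t0, -, κ0, -⟩ := hb
  obtain kp : 0 < c.k0 := by (rename_i zq0; linarith only [zq0])
  refine ⟨k1, k2, t0, κ0, h0, h1, h2.1, h2.2, h3.1, h3.2, h4.2, h8, h9, ?_, ?_, ?_⟩
  · unfold Cs.cc
    rw [div_le_iff₀ h3.1] at h7
    linarith only [h7]
  · unfold Cs.chK
    exact Real.log_pos (by rw [lt_div_iff₀ kp]; (rename_i zq0; linarith only [zq0]))
  · unfold Cs.chK Cs.bl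
    obtain a : Real.log (1 / c.k0) ≤ 1 / c.k0 - 1 := Real.log_le_sub_one_of_pos (by positivity)
    obtain b : 1 / c.k0 ≤ 16 := by rw [div_le_iff₀ kp]; (rename_i zq0; linarith only [zq0])
    (rename_i zq0; nlinarith only [zq0, a, b])

variable {c : Cs} {Ex : ExT} {S : Sq} {ξ : ℤ → ℝ} {n : ℤ}

theorem st_fr (hn : 0 ≤ n) : S.St c (S.fr (n + 1)) (n + 1) :=
  ⟨by omega, S.fr_sol _, S.fr_self _, by rw [S.fr_pred, abs_zero]; exact (Real.exp_pos _).le⟩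

theorem WW_nonneg (ξ : ℤ → ℝ) (s j : ℤ) : 0 ≤ S.WW c ξ s j := Real.log_nonneg (S.one_le_AA c ξ s j)

theorem WW_mono (ξ : ℤ → ℝ) (s : ℤ) {i j : ℤ} (h : i ≤ j) : S.WW c ξ s i ≤ S.WW c ξ s j :=
  Real.log_le_log (lt_of_lt_of_le one_pos (S.one_le_AA c ξ s i)) (S.AA_mono c ξ s h)

theorem exp_small (h : Par c) : Real.exp (-c.lam / 5) ≤ 1 / 10 := by
  have a := Real.add_one_le_exp (c.lam / 5)
  obtain e : Real.exp (-c.lam / 5) = (Real.exp (c.lam / 5))⁻¹ := by rw [← Real.exp_neg]; ring_nf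
  rw [e, one_div]
  exact inv_anti₀ (by norm_num) (by linarith only [a, h.lam])

theorem out_fr (h : Par c) (hn : 0 ≤ n) {m : ℤ} (ri : S.RInv c (S.fr (n + 1)) (n + 1) m) :
    S.Out c (S.fr (n + 1)) m := by
  have le := ri.le
  refine ⟨by omega, (S.fr_sol _).mono le, ri.ne, ?_⟩
  rcases eq_or_lt_of_le le with e | lt
  · rw [← e, S.fr_pred, abs_zero]; positivity
  · have a := ri.i1 lt
    obtain b := S.abs_le_wh c (S.fr (n + 1)) (s := n + 1) (j := m - 1) (by omega)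
    obtain e : Real.exp (-c.lam / 5) = Real.exp (-c.lam / 3) * Real.exp (2 * c.lam / 15) := by
      rw [← Real.exp_add]; ring_nf
    have e2 := Real.add_one_le_exp (2 * c.lam / 15)
    have e3 := Real.exp_pos (-S.chi c (n + 1) m / 10)
    refine b.trans (a.trans (mul_le_mul_of_nonneg_right ?_ (abs_nonneg _)))
    rw [e]
    exact mul_le_mul_of_nonneg_left (by linarith only [e2, e3, h.lam]) (Real.exp_pos _).le

theorem wle (h : Par c) (ok : S.OK c) (hn : 0 ≤ n) {m : ℤ}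
    (ri : S.RInv c (S.fr (n + 1)) (n + 1) m) :
    Real.log |S.fr (n + 1) m| ≤ S.WW c (S.fr (n + 1)) (n + 1) m + c.lam + 10 := by
  have W0 := WW_nonneg (c := c) (S := S) (S.fr (n + 1)) (n + 1) m
  have hl := h.lam
  rcases eq_or_lt_of_le ri.le with e | lt
  · rw [← e, S.fr_self, abs_one, Real.log_one]; rw [← e] at W0; linarith only [W0, hl]
  · obtain a := (Sq.cert_wh ok h.k1 h.k2 (by linarith only [hl]) h.chb (st_fr hn) le_rfl).2.2 (m - 1) (by omega)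
    rw [sub_add_cancel, ri.whm] at a
    obtain L0 : 0 < c.L := by linarith only [h.L]
    have A0 : 0 < S.AA c (S.fr (n + 1)) (n + 1) m :=
      lt_of_lt_of_le one_pos (S.one_le_AA c _ _ _)
    obtain b : |S.fr (n + 1) m| ≤ 36 * c.L * S.AA c (S.fr (n + 1)) (n + 1) m := by nlinarith only [L0, a.1, a.2]
    have d := Real.log_le_log (abs_pos.2 ri.ne) b
    rw [Real.log_mul (by positivity) A0.ne', Real.log_mul (by norm_num) L0.ne'] at d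
    obtain e : Real.log 36 ≤ 10 := by
      rw [Real.log_le_iff_le_exp (by norm_num)]
      have e1 := Real.add_one_le_exp 5
      obtain e2 : Real.exp 10 = Real.exp 5 * Real.exp 5 := by rw [← Real.exp_add]; norm_num
      nlinarith only [e1, e2]
    unfold Sq.WW Cs.lam at *
    linarith only [d, e]

theorem ratio {m : ℤ} (o : S.Out c ξ m) :
    ξ (m + 1) / ξ m = S.a m + S.b m * (ξ (m - 1) / ξ m) ∧
    |ξ (m - 1) / ξ m| ≤ Real.exp (-c.lam / 5) := by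
  refine ⟨?_, ?_⟩
  · rw [o.2.1 m le_rfl]; field_simp [o.2.2.1]
  · rw [abs_div, div_le_iff₀ (abs_pos.2 o.2.2.1)]; exact o.2.2.2

/-- a witness of depth `≥ 1` excludes the zone -/
theorem far_of_wit (h : Par c) (hB : B1_s c) (ok : S.OK c) {m : ℤ} {r : ℝ} (o : S.Out c ξ m)
    (w : S.Wit c Ex ξ m r) (hr : 1 ≤ r) : 5 / 100 ≤ dP (S.X m) := by
  rcases w with w | ⟨w, -⟩ | ⟨Ls, J, rJ, w, -⟩
  · linarith only [hr, w]
  · by_contra hf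
    have a := ok.a_Z m o.1 (not_le.1 hf)
    obtain ⟨e, sl⟩ := ratio o
    rw [S.rho_one, e] at w
    have L0 := h.L
    have b0 := (ok.b_pos o.1).le
    obtain b1 : S.b m ≤ c.L := by
      refine (ok.b_hi m (2 / 100) o.1 (by norm_num)).trans ?_
      unfold Sq.bb
      split_ifs
      · nlinarith only [L0, h.k2]
      · obtain this : Real.exp (-c.bl) ≤ 1 := Real.exp_le_one_iff.2 (by linarith only [h.ch0, h.chb])
        linarith only [L0, this]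
    have s1 := exp_small h
    obtain b2 : |S.b m * (ξ (m - 1) / ξ m)| ≤ c.L / 10 := by
      rw [abs_mul, abs_of_nonneg b0]
      nlinarith only [b1, sl, b0, s1, abs_nonneg (ξ (m - 1) / ξ m)]
    obtain t : |S.a m| ≤ |S.a m + S.b m * (ξ (m - 1) / ξ m)| + |S.b m * (ξ (m - 1) / ξ m)| := by
      have := abs_sub (S.a m + S.b m * (ξ (m - 1) / ξ m)) (S.b m * (ξ (m - 1) / ξ m))
      rwa [add_sub_cancel_right] at this
    obtain e1 : Real.exp (-r) ≤ 1 / 2 := by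
      have a := Real.add_one_le_exp r
      rw [Real.exp_neg, one_div]
      exact inv_anti₀ (by norm_num) (by linarith only [hr, a])
    nlinarith only [w, a, L0, b2, t, e1]
  · exact ((hB Ex S ok).2.1 ξ m Ls J rJ o w.1 w.2.1).kz.2.1

/-- the steps of a bound run -/
theorem pre (hB : B1_s c) (ok : S.OK c) (hn : 0 ≤ n) (Ls : List (ℤ × ℝ)) :
    ∀ m, S.Run c Ex (S.fr (n + 1)) (n + 1) (S.PBd c Ex ξ n) Ls m →
    (∀ x ∈ Ls, ∃ L p', S.Run c Ex (S.fr (n + 1)) (n + 1) (S.PBd c Ex ξ n) L x.1 ∧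
      S.PBd c Ex ξ n L x.1 x.2 ∧ S.Step c Ex (S.fr (n + 1)) (n + 1) x.1 x.2 p' ∧ p' ≤ m ∧
      ∀ y ∈ Ls, x.1 < y.1 → p' ≤ y.1) ∧ Ls.Pairwise fun x y => y.1 < x.1 := by
  induction Ls with
  | nil => simp
  | cons x0 Ls ih =>
    obtain ⟨n1, r1⟩ := x0
    intro m run
    obtain ⟨run', pb, lt, -⟩ := Sq.Run.tail _ _ run
    obtain ⟨ih1, ih2⟩ := ih n1 run'
    obtain lo : ∀ y ∈ Ls, y.1 < n1 := fun y hy => by
      obtain ⟨_, _, -, -, st, le, -⟩ := ih1 y hy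
      exact st.lt.trans_le le
    refine ⟨fun x hx => ?_, List.pairwise_cons.2 ⟨lo, ih2⟩⟩
    rcases List.mem_cons.1 hx with rfl | hx
    · have ch := ((hB Ex S ok).1 _ _ _ _ _ (st_fr hn) run).1
      cases ch with
      | cons _ st _ =>
        refine ⟨Ls, m, run', pb, st, le_rfl, fun y hy lt' => ?_⟩
        rcases List.mem_cons.1 hy with rfl | hy
        · exact absurd lt' (lt_irrefl _)
        · exact absurd (lo y hy) (not_lt.2 lt'.le)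
    · obtain ⟨L, p', a1, a2, a3, a4, a5⟩ := ih1 x hx
      refine ⟨L, p', a1, a2, a3, a4.trans lt.le, fun y hy lt' => ?_⟩
      rcases List.mem_cons.1 hy with rfl | hy
      · exact a4
      · exact a5 y hy lt'

theorem ev_nonneg (h : Par c) (s m : ℤ) (r : ℝ) : 0 ≤ S.ev c ξ s m r := by
  unfold Sq.ev
  split_ifs with a b
  · have : 0 ≤ S.sg c ξ s m / c.e3 := div_nonneg (le_max_right _ _) h.e3p.le
    linarith only [a, this, h.cc]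
  · linarith only [h.lam]
  · exact le_rfl

/-- the two kinds of events -/
theorem kind (h : Par c) (hB : B1_s c) (ok : S.OK c) {s m : ℤ} {r V : ℝ} (o : S.Out c ξ m)
    (w : S.Wit c Ex ξ m r) (lev : Real.log |ξ m| + r ≤ V)
    (cap : (c.κ < 1 ∧ r ≤ c.κ * S.Wt c ξ s m 0 + c.c1 + 1) ∨ c.C0 * V ≤ c.bl)
    (he : 0 < S.ev c ξ s m r) :
    (c.cc ≤ r ∧ S.ev c ξ s m r = r ∧ S.sg c ξ s m ≤ c.e3 * r ∧ 5 / 100 ≤ dP (S.X m) ∧
      ((c.C0 * V ≤ c.bl ∧ r ≤ c.bl / 4) ∨ r ≤ S.Wt c ξ s m 0 + c.lam)) ∨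
    (r < c.cc ∧ -1 ≤ r ∧ S.ev c ξ s m r = c.lam ∧ dP (S.X m) < 5 / 100 ∧
      S.sig c ξ s m ≤ -(1 - 5 * c.e3) * c.lam) := by
  have e3 := h.e3p
  have cc := h.cc
  have hl := h.lam
  have W0 := WW_nonneg (c := c) (S := S) ξ s m
  by_cases a : S.sg c ξ s m / c.e3 + c.cc ≤ r
  · left
    have s0 : 0 ≤ S.sg c ξ s m := le_max_right _ _
    have s1 : 0 ≤ S.sg c ξ s m / c.e3 := div_nonneg s0 e3.le
    obtain s2 : S.sg c ξ s m ≤ c.e3 * r := by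
      obtain this : S.sg c ξ s m / c.e3 ≤ r := by linarith only [cc, a]
      rwa [div_le_iff₀ e3, mul_comm] at this
    refine ⟨by linarith only [a, s1], by unfold Sq.ev; rw [if_pos a], s2, far_of_wit h hB ok o w (by linarith only [cc, a, s1]), ?_⟩
    rcases cap with ⟨k, cap⟩ | cap
    · right
      have : 0 ≤ S.Wt c ξ s m 0 := W0.trans (le_max_left _ _)
      obtain c1 : c.c1 ≤ c.lam / 2 := by unfold Cs.c1; nlinarith only [hl, h.εs]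
      nlinarith only [hl, cap, c1, k, this]
    · left
      refine ⟨cap, ?_⟩
      have s3 : S.sig c ξ s m ≤ S.sg c ξ s m := le_max_left _ _
      unfold Sq.sig at s3
      obtain this : r ≤ 2 * V := by nlinarith only [lev, cc, W0, a, s1, s2, s3, e3, s0, h.e3s]
      nlinarith only [cap, this, cc, a, s1, h.C0]
  · right
    unfold Sq.ev at he ⊢
    rw [if_neg a] at he ⊢
    split_ifs at he ⊢ with b
    · obtain z : S.sg c ξ s m = 0 := max_eq_right (by nlinarith only [hl, e3, b.2.2, h.e3s])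
      rw [z, zero_div, zero_add] at a
      exact ⟨not_le.1 a, b.1, rfl, b.2.1, b.2.2⟩
    · exact absurd he (lt_irrefl _)

theorem a_small (h : Par c) (hR : RHO_s c) (ok : S.OK c) (o : S.Out c ξ n) {Ls : List (ℤ × ℝ)}
    {p : ℤ} {r : ℝ} (ri : S.RInv c (S.fr (n + 1)) (n + 1) p) (bi : S.BInv c n Ls p)
    (bd : S.Bd c ξ n p r) : |S.a n| ≤ c.L / 100 := by
  obtain a := (hR S ξ n Ls p ok o ri bi).1 (n + 1) (by omega) ri.le
  obtain ⟨e, sl⟩ := ratio o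
  rw [S.fr_self, mul_one, e] at a
  have L0 := h.L
  have hl := h.lam
  obtain a1 : Real.exp (-(1 - c.a) * S.chi c n (n + 1)) ≤ 1 := by
    refine Real.exp_le_one_iff.2 ?_
    nlinarith only [S.chi_nonneg c h.ch0.le h.chb n (n + 1), h.a1]
  have b0 := (ok.b_pos o.1).le
  obtain b1 : S.b n ≤ 1 := by
    refine (ok.b_hi n (2 / 100) o.1 (by norm_num)).trans ?_
    unfold Sq.bb
    rw [if_neg fun x => by linarith only [x.1, bi.kz.2.1]]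
    exact Real.exp_le_one_iff.2 (by linarith only [h.ch0, h.chb])
  have s1 := exp_small h
  obtain b2 : |S.b n * (ξ (n - 1) / ξ n)| ≤ 1 := by
    rw [abs_mul, abs_of_nonneg b0]
    nlinarith only [b1, sl, b0, s1, abs_nonneg (ξ (n - 1) / ξ n)]
  have v : 1 ≤ Real.exp (S.Wt c (S.fr (n + 1)) (n + 1) p r) :=
    Real.one_le_exp ((WW_nonneg _ _ _).trans (le_max_left _ _))
  obtain cb : c.cb ≤ 1 := by
    unfold Cs.cb
    rw [div_le_one (by (clear * - hl; positivity))]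
    exact one_le_pow₀ (by linarith only [hl])
  obtain r1 : S.rho ξ n p ^ 2 ≤ (c.L / 1000) ^ 2 := by
    unfold Sq.Bd at bd
    nlinarith only [bd, L0, cb, v, sq_nonneg (S.rho ξ n p)]
  obtain r2 := abs_le_of_sq_le_sq' r1 (by linarith only [L0])
  rw [abs_le] at a b2 ⊢
  constructor <;> linarith only [L0, a1, a.1, a.2, b2.1, b2.2, r2.1, r2.2]

theorem eel_of (h : Par c) (hS : SOK_s c) (hB : B1_s c) (h5 : B5_s c) (hR : RHO_s c) :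
    EEL_s c := by
  intro Ex M z ⟨s1, s2, s3⟩ v
  have ok : (z.S M).OK c := ((hS M s3 z.t v.ht).2.1 z.v v.hv).2
  have hn : 0 ≤ z.n := v.out.1
  have hl := h.lam
  have run := v.run
  have rp : (z.S M).RInv c (z.f M) (z.n + 1) z.p :=
    ((hB Ex _ ok).1 _ _ _ _ _ (st_fr hn) run).2
  have bp : (z.S M).BInv c z.n z.Ls z.p := (hB Ex _ ok).2.1 _ _ _ _ _ v.out run v.bd
  obtain ⟨p1, p2⟩ := pre hB ok hn z.Ls z.p run
  obtain lo : ∀ y ∈ z.Ls, y.1 < z.p := fun y hy => by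
    obtain ⟨_, _, -, -, st, le, -⟩ := p1 y hy
    exact st.lt.trans_le le
  have WV : z.W c M z.p ≤ z.V c M := le_max_left _ _
  have W0 : 0 ≤ z.W c M z.p := WW_nonneg _ _ _
  obtain ⟨b1, b2, -⟩ := h5 s1 Ex s2 _ _ _ _ _ _ ok v.out run v.bd
  refine ⟨fun x hx => ?_, List.pairwise_cons.2 ⟨lo, p2⟩, b1 ?_, ?_, a_small h hR ok v.out rp bp v.bd,
    fun hV => ?_⟩
  · rcases List.mem_cons.1 hx with rfl | hx
    · have o := out_fr h hn rp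
      refine ⟨rp.le, le_rfl, rp, ⟨_, bp⟩, o, v.wit, ⟨le_max_right _ _, WV⟩, wle h ok hn rp,
        kind h hB ok o v.wit (le_max_right _ _) v.cap, fun y hy lt => ?_⟩
      rcases List.mem_cons.1 hy with rfl | hy
      · exact absurd lt (lt_irrefl _)
      · exact absurd (lo y hy) (not_lt.2 lt.le)
    · obtain ⟨L, p', a1, a2, st, a4, a5⟩ := p1 x hx
      have ri : (z.S M).RInv c (z.f M) (z.n + 1) x.1 := ((hB Ex _ ok).1 _ _ _ _ _ (st_fr hn) a1).2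
      have o := out_fr h hn ri
      have lev : Real.log |z.f M x.1| + x.2 ≤ z.V c M :=
        st.A_lo.trans ((WW_mono _ _ a4).trans WV)
      refine ⟨ri.le, (lo x hx).le, ri, ⟨L, (hB Ex _ ok).2.1 _ _ _ _ _ v.out a1 a2.1⟩, o, st.wit,
        ⟨lev, (WW_mono _ _ (lo x hx).le).trans WV⟩, wle h ok hn ri,
        kind h hB ok o st.wit lev (v.cap.imp_left fun k => ⟨k.1, a2.2.c1.trans (by
          exact le_add_of_nonneg_right zero_le_one)⟩), fun y hy lt => ?_⟩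
      rcases List.mem_cons.1 hy with rfl | hy
      · exact st.A_lo.trans (WW_mono _ _ a4)
      · exact st.A_lo.trans (WW_mono _ _ (a5 y hy lt))
  · refine v.cap.imp (fun k => k.1) fun k => le_trans ?_ k
    exact mul_le_mul_of_nonneg_left WV (by linarith only [h.C0])
  · by_contra he
    have e0 : z.ev c M (z.p, z.r) = 0 := le_antisymm (not_lt.1 he) (ev_nonneg h _ _ _)
    obtain e1 : z.tot c M = (z.S M).evs c (z.f M) (z.n + 1) z.Ls := by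
      obtain this : z.tot c M = z.ev c M (z.p, z.r) + (z.S M).evs c (z.f M) (z.n + 1) z.Ls := by
        simp [EDat.tot, EDat.Lf, EDat.ev, Sq.evs]
      rw [this, e0, zero_add]
    have bad := v.bad
    rw [e1] at bad
    have t1 : c.θb * z.W c M z.p ≤ c.θb * z.V c M := mul_le_mul_of_nonneg_left WV h.θ0.le
    have t2 : c.ε * z.W c M z.p ≤ c.ε * z.V c M := mul_le_mul_of_nonneg_left WV h.εp.le
    obtain t3 : c.C1 * (z.S M).load c z.n (z.W c M z.p) ≤ c.C1 * (z.S M).load c z.n (z.V c M) :=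
      mul_le_mul_of_nonneg_left ((z.S M).load_mono c h.ch0 h.chb (by linarith only [h.C0]) _ WV) h.C1
    have t4 : (z.S M).evs c (z.f M) (z.n + 1) z.Ls ≤ c.C1 * (z.S M).load c z.n (z.W c M z.p)
      + c.ε * z.W c M z.p + c.cc := bp.ev_le
    have t5 : (z.S M).evs c (z.f M) (z.n + 1) z.Ls ≤ c.θb * z.W c M z.p + c.cc := b2
    obtain this : (z.S M).evs c (z.f M) (z.n + 1) z.Ls - c.cc ≤ min (c.θb * z.V c M)
        (c.C1 * (z.S M).load c z.n (z.V c M) + c.ε * z.V c M) := le_min (by linarith only [t1, t5]) (by linarith only [t2, t3, t4])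
    linarith only [bad, this]
  · obtain ⟨k, cap⟩ := v.cap.resolve_right (not_le.2 hV)
    refine ⟨k, ?_⟩
    have w : Real.log |z.f M z.p| ≤ z.W c M z.p + c.lam + 10 := wle h ok hn rp
    obtain u1 : z.W0 c M z.p ≤ z.W c M z.p + c.lam + 10 :=
      max_le (by show z.W c M z.p ≤ _; linarith only [hl]) (by linarith only [w])
    have u0 : 0 ≤ z.W0 c M z.p := W0.trans (le_max_left _ _)
    obtain c1 : c.c1 ≤ c.lam / 2 := by unfold Cs.c1; nlinarith only [hl, h.εs]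
    obtain u2 : z.r ≤ z.W0 c M z.p + c.lam := by nlinarith only [hl, cap, c1, k, u0]
    exact max_le (by show z.W c M z.p ≤ _; linarith only [hl, W0]) (by linarith only [hl, w, u1, u2])

end
end EEL

theorem eel : Hier fun c => SOK_s c → B1_s c → B5_s c → RHO_s c → EEL_s c :=
  EEL.par.mono fun _ h => EEL.eel_of h

end Pool.Agent.MP_9cbfe4_an

end

/-! ### Part YI -/

section

/-! Row statements of section Y. -/

namespace Pool.Agent.MP_9cbfe4_an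

open Finset Filter Topology

noncomputable section

/-- `exp (k a ρ)` -/
def Cs.E (c : Cs) (ρ k : ℝ) : ℝ := Real.exp (k * (c.a * ρ))

open Classical in
/-- tame window, shifted to `[0, N]` and scaled to `w 0 = 1` -/
structure TW (c : Cs) (M : Mdl) (ρ t : ℝ) (S : Sq) (ξ w A : ℤ → ℝ) (Rg : Finset ℤ) (N : ℤ) : Prop where
  ht : TI t
  orb : IsOrb c M t S 0
  N0 : 0 ≤ N
  Nle : (N : ℝ) + 2 ≤ c.E ρ 1
  box : ∀ j, -1 ≤ j → |S.X j| ≤ 2 * c.L - 1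
  core : ∀ j, -1 ≤ j → dP (S.X (j + 1)) < 5 / 100 → dP (S.X j) < 5 / 100 →
    dP (S.X j) ≤ (1 - 3 * c.e0 / 4) * c.w0
  cert : S.Cert c (15 / 1000) w A 0 N
  maj : S.Maj ξ 1 w 0 N
  w0 : w 0 = 1
  lo : 1 ≤ A 0
  wm : 0 < w (-1)
  wN : w N ≤ 4 * |ξ N|
  slope : |ξ (N - 1)| ≤ Real.exp (-c.lam / 5) * |ξ N|
  far : 1 ≤ dP (S.X N)
  pw : ∀ i j, -1 ≤ i → i < j → j ≤ N → w i ≤ c.E ρ 40 * w j ∧
    S.PB c (15 / 1000) i j * w i ≤ c.E ρ 40 * Real.exp (-(1 - 3 * c.a) * S.chi c i j) * w j ∧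
    S.Bc c w i j ≤ c.E ρ 40
  dec : ∀ i, 0 ≤ i → i < N →
    S.PB c (15 / 1000) i N * w i ≤ 100 * Real.exp (-(1 - 3 * c.a) * S.chi c i N) * w N ∧
    w i ≤ 100 * Real.exp (3 * c.a * S.chi c i N) * w N ∧
    S.Bc c w i N ≤ c.lam * Real.exp (3 * c.a * S.chi c i N)
  sub : Rg ⊆ Ico 0 N
  reg : ∀ i ∈ Rg, dP (S.X i) ≤ 2 * c.w0 ∧ w i ≤ 4 * |ξ i| ∧ A (i + 1) ≤ c.lam * w i
  runs : (((Ico 0 N).filter fun i => i ∉ Rg ∧ (i - 1 ∈ Rg ∨ i = 0)).card : ℝ) ≤ 41 * ρ / c.bl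
  cost : Real.log (A 0) + ∑ i ∈ Ico 0 N \ Rg, Real.log (A (i + 1) / A i) ≤ 142 * (c.a * ρ)
  long : (1 + 10 * c.a) * ρ ≤ S.chi c 0 N ∨ (S.X (-1) = 10 ∧ ξ (-1) = 0)

/-- the orbit with `(X 1, X 0) = p + v d` -/
def Mdl.lo (M : Mdl) (t : ℝ) (p d : ℝ × ℝ) (v : ℝ) : Sq := M.orb t 1 (p.1 + v * d.1, p.2 + v * d.2)
/-- the solution with `(ξ 1, ξ 0) = d` -/
def Sq.ltg (S : Sq) (d : ℝ × ℝ) (j : ℤ) : ℝ :=
  if j ≤ 0 then d.2 else d.1 * S.fr 1 j + S.b 1 * d.2 * S.fr 2 j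

/-- `(t', p, d)` is a line close to the window at time `1` -/
def NearL (c : Cs) (ρ t : ℝ) (S : Sq) (ξ : ℤ → ℝ) (t' : ℝ) (p d : ℝ × ℝ) : Prop :=
  TI t' ∧ |t' - t| ≤ 2 * c.E ρ (-1000) ∧ |p.1 - S.X 1| ≤ c.E ρ (-800) ∧ |p.2 - S.X 0| ≤ c.E ρ (-800) ∧
    |d.1 - ξ 1| ≤ c.E ρ (-800) ∧ |d.2 - ξ 0| ≤ c.E ρ (-800)

open Classical in
/-- window of a point of the line `(t, p, d)`, on `[1, N]` -/
structure SW (c : Cs) (M : Mdl) (ρ t : ℝ) (p d : ℝ × ℝ) (v : ℝ) (w A : ℤ → ℝ) (Rg : Finset ℤ)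
    (N : ℤ) : Prop where
  ht : TI t
  N1 : 1 ≤ N
  hv : |v| ≤ c.E ρ (-580)
  hd : |d.1| ≤ c.E ρ 1 ∧ |d.2| ≤ c.E ρ 1
  orb : IsOrb c M t (M.lo t p d v) 1
  cert : (M.lo t p d v).Cert c (14 / 1000) w A 1 N
  back1 : w 0 ≤ 4 * Real.exp (c.bl / 2) * w 1
  backK1 : dP ((M.lo t p d v).X 1) ≤ 14 / 1000 → dP ((M.lo t p d v).X 0) ≤ 14 / 1000 → w 0 ≤ 16 * w 1
  maj : (M.lo t p d v).Maj ((M.lo t p d v).ltg d) 2 w 1 N
  top : ∀ j, 0 ≤ j → j ≤ N → w j ≤ c.E ρ 1 * A N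
  sub : Rg ⊆ Ico 1 N
  reg : ∀ i ∈ Rg, dP ((M.lo t p d v).X i) ≤ 3 * c.w0 ∧ w i ≤ 8 * |(M.lo t p d v).ltg d i| ∧
    A (i + 1) ≤ 2 * c.lam * w i
  runs : (((Ico 1 N).filter fun i => i ∉ Rg ∧ (i - 1 ∈ Rg ∨ i = 1)).card : ℝ) ≤ 41 * ρ / c.bl
  lo : 1 ≤ A 1
  cost : Real.log (A 1) + ∑ i ∈ Ico 1 N \ Rg, Real.log (A (i + 1) / A i) ≤ 144 * (c.a * ρ)

/-- three points of one line -/
def YLOC_s (c : Cs) : Prop := ∀ M : Mdl, M.OK c → ∀ ρ t p d v0 w A Rg N v1 v2 i, c.bl / 3 ≤ ρ →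
  SW c M ρ t p d v0 w A Rg N → |v1| ≤ c.E ρ (-580) → |v2| ≤ c.E ρ (-580) →
  IsOrb c M t (M.lo t p d v1) 1 → IsOrb c M t (M.lo t p d v2) 1 → 1 ≤ i → i ≤ N →
  |v1 - v0| * A i ≤ c.cw → |v2 - v0| * A i ≤ c.cw → ∀ j, 0 ≤ j → j ≤ i →
    |(M.lo t p d v1).ltg d j - (M.lo t p d v0).ltg d j| ≤ w j / 100 ∧
    |(M.lo t p d v2).X j - (M.lo t p d v1).X j - (v2 - v1) * (M.lo t p d v0).ltg d j|
      ≤ |v2 - v1| * w j / 50

/-- `[i, j)` is a maximal irregular run that follows a regular index -/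
def IRun (Rg : Finset ℤ) (N i j : ℤ) : Prop :=
  i - 1 ∈ Rg ∧ i < j ∧ j ≤ N ∧ (∀ l, i ≤ l → l < j → l ∉ Rg) ∧ (j ∈ Rg ∨ j = N)

/-- covering of one line by points with the same code -/
def YCOV_s (c : Cs) : Prop := ∀ M : Mdl, M.OK c → ∀ (ρ t : ℝ) (p d : ℝ × ℝ) (Rg : Finset ℤ) (N : ℤ)
  (D : ℤ → ℕ) (Z : Type) (v : Z → ℝ) (w A : Z → ℤ → ℝ), c.bl / 3 ≤ ρ →
  (∀ z, SW c M ρ t p d (v z) (w z) (A z) Rg N) →
  (∀ z z', ∀ i ∈ Rg, 0 < (M.lo t p d (v z)).X i ↔ 0 < (M.lo t p d (v z')).X i) →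
  (∀ z i j, IRun Rg N i j → Real.log (A z j / A z i) ≤ D i) →
  (∑ i ∈ Ico 1 N, (D i : ℝ)) ≤ 146 * (c.a * ρ) →
  ∃ (K : ℕ) (cl : Z → Fin K), (K : ℝ) ≤ c.E ρ 750 ∧ ∀ z z', cl z = cl z' → ∀ j, 0 ≤ j → j ≤ N →
    |(M.lo t p d (v z')).X j - (M.lo t p d (v z)).X j| ≤ c.E ρ (-590)

end
end Pool.Agent.MP_9cbfe4_an

end

/-! ### Part YASM -/

section

/-! Assembly of section Y. -/

namespace Pool.Agent.MP_9cbfe4_an

open Finset Filter Topology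

noncomputable section

namespace YA

lemma classes {Z κ : Type} (key : Z → κ) (KS : Finset κ) (hk : ∀ z, key z ∈ KS) (B : ℝ) (hB : 0 ≤ B)
    (R : Z → Z → Prop)
    (h : ∀ k, ∃ (K : ℕ) (cl : {z // key z = k} → Fin K), (K : ℝ) ≤ B ∧
      ∀ z z', cl z = cl z' → R z.1 z'.1) :
    ∃ (n : ℕ) (cl : Z → Fin n), (n : ℝ) ≤ KS.card * B ∧ ∀ z z', cl z = cl z' → R z z' := by
  choose K cl hK hR using h
  obtain hf : ∀ z k (e : key z = k), ((cl (key z) ⟨z, rfl⟩ : Fin _) : ℕ) = cl k ⟨z, e⟩ := by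
    intro z k e; subst e; rfl
  let g : Z → KS × Fin ⌊B⌋₊ := fun z => (⟨key z, hk z⟩, ⟨cl (key z) ⟨z, rfl⟩,
    lt_of_lt_of_le (cl (key z) ⟨z, rfl⟩).2 (Nat.le_floor (hK _))⟩)
  refine ⟨Fintype.card (KS × Fin ⌊B⌋₊), fun z => Fintype.equivFin _ (g z), ?_, fun z z' e => ?_⟩
  · simp only [Fintype.card_prod, Fintype.card_coe, Fintype.card_fin, Nat.cast_mul]
    exact mul_le_mul_of_nonneg_left (Nat.floor_le hB) (by (clear * -; positivity))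
  · have e' := (Fintype.equivFin _).injective e
    have e1 : key z' = key z := (congrArg (fun x => (x.1 : κ)) e').symm
    have e2 : ((cl (key z) ⟨z, rfl⟩ : Fin _) : ℕ) = (cl (key z') ⟨z', rfl⟩ : Fin _) :=
      congrArg (fun x => (x.2 : ℕ)) e'
    rw [hf z' (key z) e1] at e2
    exact hR (key z) ⟨z, rfl⟩ ⟨z', e1⟩ (Fin.ext e2)

lemma irun_uniq {Rg : Finset ℤ} {N i j j' : ℤ} (h : IRun Rg N i j) (h' : IRun Rg N i j') : j = j' := by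
  obtain ⟨-, a1, a2, a3, a4⟩ := h
  obtain ⟨-, b1, b2, b3, b4⟩ := h'
  rcases lt_trichotomy j j' with q | q | q
  · rcases a4 with a4 | a4
    · exact absurd a4 (b3 j a1.le q)
    · omega
  · exact q
  · rcases b4 with b4 | b4
    · exact absurd b4 (a3 j' b1.le q)
    · omega

lemma tele (A : ℤ → ℝ) (i : ℤ) : ∀ j, i ≤ j → (∀ l, i ≤ l → l ≤ j → 0 < A l) →
    Real.log (A j / A i) = ∑ l ∈ Ico i j, Real.log (A (l + 1) / A l) := by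
  intro j hj
  induction j, hj using Int.leInduction with
  | base => intro h; simp [(h i le_rfl le_rfl).ne']
  | succ j hj ih =>
    intro h
    obtain e : Ico i (j + 1) = insert j (Ico i j) := by ext x; simp; omega
    rw [e, Finset.sum_insert (by simp), ← ih fun l a b => h l a (by omega)]
    obtain p1 := (h i le_rfl (by omega)).ne'
    obtain p2 := (h j hj (by omega)).ne'
    obtain p3 := (h (j + 1) (by omega) le_rfl).ne'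
    rw [Real.log_div p3 p1, Real.log_div p3 p2, Real.log_div p2 p1]; ring

open Classical in
def DD (Rg : Finset ℤ) (N : ℤ) (A : ℤ → ℝ) (i : ℤ) : ℕ :=
  if h : ∃ j, IRun Rg N i j then ⌈Real.log (A h.choose / A i)⌉₊ else 0

lemma DD_ge {Rg : Finset ℤ} {N i j : ℤ} (A : ℤ → ℝ) (h : IRun Rg N i j) :
    Real.log (A j / A i) ≤ DD Rg N A i := by
  have h' : ∃ j, IRun Rg N i j := ⟨j, h⟩
  rw [DD, dif_pos h', irun_uniq h'.choose_spec h]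
  exact Nat.le_ceil _

lemma DD_supp {Rg : Finset ℤ} {N i : ℤ} (A : ℤ → ℝ) (hs : Rg ⊆ Ico 1 N) (h : DD Rg N A i ≠ 0) :
    i ∈ Ico 1 N ∧ i ∉ Rg ∧ i - 1 ∈ Rg := by
  obtain h' : ∃ j, IRun Rg N i j := by
    by_contra q; exact h (by rw [DD, dif_neg q])
  obtain ⟨j, a0, a1, a2, a3, -⟩ := h'
  have := Finset.mem_Ico.1 (hs a0)
  exact ⟨Finset.mem_Ico.2 ⟨by omega, by omega⟩, a3 i le_rfl a1, a0⟩

open Classical in
lemma DD_sum {Rg : Finset ℤ} {N : ℤ} {A : ℤ → ℝ}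
    (mono : ∀ i j, 1 ≤ i → i ≤ j → j ≤ N → A i ≤ A j) (pos : 0 < A 1) :
    (∑ i ∈ Ico 1 N, (DD Rg N A i : ℝ)) ≤ ∑ i ∈ Ico 1 N \ Rg, Real.log (A (i + 1) / A i) +
      (((Ico 1 N).filter fun i => i ∉ Rg ∧ (i - 1 ∈ Rg ∨ i = 1)).card : ℝ) := by
  have hp : ∀ l, 1 ≤ l → l ≤ N → 0 < A l := fun l a b => pos.trans_le (mono 1 l le_rfl a b)
  obtain hf : ∀ l ∈ Ico 1 N, 0 ≤ Real.log (A (l + 1) / A l) := fun l hl => by
    have := Finset.mem_Ico.1 hl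
    exact Real.log_nonneg ((one_le_div (hp l this.1 this.2.le)).2 (mono _ _ this.1 (by omega) (by omega)))
  set St := (Ico 1 N).filter fun i => ∃ j, IRun Rg N i j with hSt
  let en : ℤ → ℤ := fun i => if h : ∃ j, IRun Rg N i j then h.choose else i
  obtain hen : ∀ i ∈ St, IRun Rg N i (en i) := fun i hi => by
    have h := (Finset.mem_filter.1 hi).2
    simp only [en, dif_pos h]; exact h.choose_spec
  obtain h1 : (∑ i ∈ Ico 1 N, (DD Rg N A i : ℝ)) = ∑ i ∈ St, (DD Rg N A i : ℝ) := by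
    rw [hSt, Finset.sum_filter]
    refine Finset.sum_congr rfl fun i _ => ?_
    split_ifs with h
    · rfl
    · rw [DD, dif_neg h]; simp
  obtain h2 : ∀ i ∈ St, (DD Rg N A i : ℝ) ≤ ∑ l ∈ Ico i (en i), Real.log (A (l + 1) / A l) + 1 := by
    intro i hi
    have h := (Finset.mem_filter.1 hi).2
    have hi1 := Finset.mem_Ico.1 (Finset.mem_filter.1 hi).1
    obtain ⟨-, a1, a2, -, -⟩ := hen i hi
    obtain e : h.choose = en i := by simp only [en, dif_pos h]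
    rw [DD, dif_pos h, e, ← tele A i (en i) a1.le fun l a b => hp l (by omega) (by omega)]
    refine (Nat.ceil_lt_add_one ?_).le
    exact Real.log_nonneg ((one_le_div (hp i hi1.1 hi1.2.le)).2 (mono _ _ hi1.1 a1.le a2))
  obtain h3 : ∑ i ∈ St, ∑ l ∈ Ico i (en i), Real.log (A (l + 1) / A l) ≤
      ∑ i ∈ Ico 1 N \ Rg, Real.log (A (i + 1) / A i) := by
    rw [← Finset.sum_biUnion]
    · refine Finset.sum_le_sum_of_subset_of_nonneg (fun l hl => ?_)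
        fun l hl _ => hf l (Finset.mem_sdiff.1 hl).1
      obtain ⟨i, hi, hl⟩ := Finset.mem_biUnion.1 hl
      have hi1 := Finset.mem_Ico.1 (Finset.mem_filter.1 hi).1
      obtain ⟨-, a1, a2, a3, -⟩ := hen i hi
      have := Finset.mem_Ico.1 hl
      exact Finset.mem_sdiff.2 ⟨Finset.mem_Ico.2 ⟨by omega, by omega⟩, a3 l this.1 this.2⟩
    · intro i hi i' hi' ne
      obtain ⟨a0, a1, a2, a3, -⟩ := hen i hi
      obtain ⟨b0, b1, b2, b3, -⟩ := hen i' hi'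
      refine Finset.disjoint_left.2 fun l q q' => ?_
      have q := Finset.mem_Ico.1 q
      have q' := Finset.mem_Ico.1 q'
      rcases lt_or_gt_of_ne ne with r | r
      · exact a3 (i' - 1) (by omega) (by omega) b0
      · exact b3 (i - 1) (by omega) (by omega) a0
  obtain h4 : (St.card : ℝ) ≤
      (((Ico 1 N).filter fun i => i ∉ Rg ∧ (i - 1 ∈ Rg ∨ i = 1)).card : ℝ) := by
    refine Nat.cast_le.2 (Finset.card_le_card fun i hi => ?_)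
    obtain ⟨a0, a1, -, a3, -⟩ := hen i hi
    exact Finset.mem_filter.2 ⟨(Finset.mem_filter.1 hi).1, a3 i le_rfl a1, .inl a0⟩
  rw [h1]
  refine (Finset.sum_le_sum h2).trans ?_
  rw [Finset.sum_add_distrib, Finset.sum_const, nsmul_eq_mul, mul_one]
  linarith only [h3, h4]

lemma floor_close {x y e : ℝ} (he : 0 < e) (h : ⌊x / e⌋ = ⌊y / e⌋) : |x - y| ≤ e := by
  have h1 := Int.abs_sub_lt_one_of_floor_eq_floor h
  rw [← sub_div, abs_div, abs_of_pos he, div_lt_one he] at h1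
  exact h1.le

lemma floor_mem {x e B : ℝ} (he : 0 < e) (h : |x| ≤ B * e) : ⌊x / e⌋ ∈ Icc (-⌈B⌉) ⌈B⌉ := by
  obtain h1 : |x / e| ≤ B := by rw [abs_div, abs_of_pos he, div_le_iff₀ he]; exact h
  have h2 := abs_le.1 h1
  have h3 := Int.le_ceil B
  refine Finset.mem_Icc.2 ⟨Int.le_floor.2 (by push_cast; linarith only [h2, h3]), ?_⟩
  have := Int.floor_le (x / e)
  exact_mod_cast (show ((⌊x / e⌋ : ℤ) : ℝ) ≤ (⌈B⌉ : ℤ) by linarith only [h2, h3, this])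

structure Num (c : Cs) : Prop where
  a0 : 0 < c.a
  a1 : c.a ≤ 1 / 100
  bl1 : 1 ≤ c.bl
  abl : 300 ≤ c.a * c.bl
  lg : 82 * Real.log c.bl ≤ c.a * c.bl
  L : 100 * c.L ≤ Real.exp (c.a * c.bl / 3)
  L0 : 0 ≤ c.L
  w0 : c.w0 ≤ 1 / 100
  chK : 0 < c.chK

lemma num : Hier Num := by
  obtain h1 := Hier.a_le (fun _ => 1 / 100) (fun _ _ _ _ _ _ => rfl) (Hier.of_all fun _ => by norm_num)
  have h2 := Hier.β_ge (fun c => 6 / c.a + 1) (fun _ _ _ => rfl)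
  have h3 := Hier.lam_ge (fun c => (164 / c.a) ^ 2 + 100) (fun _ _ => rfl)
  have h4 := Hier.L_ge (fun _ => 1) (fun _ _ => rfl)
  refine ((((h1.and h2).and h3).and h4).and Hier.base).mono ?_
  rintro c ⟨⟨⟨⟨⟨a0, a1⟩, hβ⟩, hl⟩, hL⟩, k0, k1, -⟩
  obtain q0 : 0 < 6 / c.a := by (clear * - a0; positivity)
  obtain q1 : c.a * (6 / c.a) = 6 := by field_simp
  obtain q2 : 0 < 164 / c.a := by (clear * - a0; positivity)
  obtain q3 : c.a * (164 / c.a) = 164 := by field_simp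
  obtain l1 : 100 ≤ c.lam := by nlinarith only [hl]
  obtain aβ : 6 ≤ c.a * c.β := by nlinarith only [a0, q1, hβ]
  obtain b1 : c.lam ≤ c.bl := by unfold Cs.bl; nlinarith only [hβ, q0, hl]
  obtain b2 : 6 * c.lam ≤ c.a * c.bl := by unfold Cs.bl; nlinarith only [aβ, hl]
  refine ⟨a0, a1, by linarith only [a0, a1, l1, b1], by linarith only [a0, a1, l1, b2], ?_, ?_, by linarith only [hL, a0, a1], ?_, ?_⟩
  · obtain s0 : 164 / c.a ≤ Real.sqrt c.bl := Real.le_sqrt_of_sq_le (by linarith only [hl, a0, a1, b1])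
    obtain s1 : Real.log (Real.sqrt c.bl) ≤ Real.sqrt c.bl :=
      (Real.log_le_sub_one_of_pos (by linarith only [q2, s0])).trans (by linarith only [a0, a1])
    rw [Real.log_sqrt (by linarith only [a0, a1, l1, b1])] at s1
    obtain s2 : Real.sqrt c.bl * Real.sqrt c.bl = c.bl := Real.mul_self_sqrt (by linarith only [a0, a1, l1, b1])
    obtain s3 : 164 ≤ c.a * Real.sqrt c.bl := by nlinarith only [q3, a0, s0]
    nlinarith only [hl, a1, q3, b2, s2, a0, q2, s1, b1, s0]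
  · obtain e1 : Real.exp c.lam = c.L := Real.exp_log (by linarith only [hL, a0, a1])
    have e2 := Real.add_one_le_exp c.lam
    calc 100 * c.L ≤ Real.exp c.lam * Real.exp c.lam := by rw [← e1]; gcongr; linarith only [a0, a1, l1, e2]
      _ = Real.exp (c.lam + c.lam) := (Real.exp_add _ _).symm
      _ ≤ _ := Real.exp_le_exp.2 (by linarith only [b2])
  · unfold Cs.w0
    refine one_div_le_one_div_of_le (by norm_num) (l1.trans ?_)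
    exact le_self_pow₀ (by linarith only [a0, a1, l1]) (by norm_num)
  · exact Real.log_pos (by rw [lt_div_iff₀ (by linarith only [a0, a1, k0])]; linarith only [a0, a1, k1])

lemma E_le {c : Cs} {ρ k k' : ℝ} (h : 0 ≤ c.a * ρ) (hk : k ≤ k') : c.E ρ k ≤ c.E ρ k' :=
  Real.exp_le_exp.2 (mul_le_mul_of_nonneg_right hk h)
lemma E_add (c : Cs) (ρ k k' : ℝ) : c.E ρ (k + k') = c.E ρ k * c.E ρ k' := by
  unfold Cs.E; rw [← Real.exp_add]; congr 1; ring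
lemma E_pos (c : Cs) (ρ k : ℝ) : 0 < c.E ρ k := Real.exp_pos _
lemma E_big {c : Cs} {ρ : ℝ} (h : 100 ≤ c.a * ρ) : 100 ≤ c.E ρ 1 := by
  have := Real.add_one_le_exp (1 * (c.a * ρ)); unfold Cs.E; linarith only [h, this]
lemma E_step {c : Cs} {ρ k k' : ℝ} (h : 100 ≤ c.a * ρ) (hk : k + 1 ≤ k') :
    100 * c.E ρ k ≤ c.E ρ k' := by
  refine le_trans ?_ (E_le (by linarith only [h]) hk)
  rw [E_add, mul_comm]
  exact mul_le_mul_of_nonneg_left (E_big h) (E_pos c ρ k).le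

end YA

end
end Pool.Agent.MP_9cbfe4_an

end

/-! ### Part YCNT -/

section

/-! Row YCNT: the number of codes. -/

namespace Pool.Agent.MP_9cbfe4_an

open Finset

noncomputable section

namespace YCNT

/-- membership, with `0` counted as regular -/
def mem (Rg : Finset ℤ) (i : ℤ) : Prop := i ∈ Rg ∨ i = 0
open Classical in
def up (Rg : Finset ℤ) (i : ℤ) : ℕ := if ¬ mem Rg (i - 1) ∧ mem Rg i then 1 else 0
open Classical in
def dn (Rg : Finset ℤ) (i : ℤ) : ℕ := if mem Rg (i - 1) ∧ ¬ mem Rg i then 1 else 0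
def enc (p : Finset ℤ × (ℤ → ℕ)) (i : ℤ) : ℕ := up p.1 i + 2 * dn p.1 i + p.2 i
def wt (x : ℝ) (k : ℕ) : ℝ := if k = 0 then 1 else x / 2 ^ k

theorem wt_nonneg {x : ℝ} (hx : 0 < x) (k : ℕ) : 0 ≤ wt x k := by
  unfold wt; split_ifs <;> positivity

theorem wt_sum (x : ℝ) (M : ℕ) : ∑ k ∈ range (M + 1), wt x k = 1 + x - x / 2 ^ M := by
  induction M with
  | zero => simp [wt]
  | succ M ih =>
    rw [sum_range_succ, ih]
    simp only [wt, Nat.add_eq_zero_iff, one_ne_zero, and_false, if_false]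
    field_simp; ring

open Classical in
theorem tele (Rg : Finset ℤ) {n : ℤ} (hn : 1 ≤ n) :
    ∑ i ∈ Ico 1 n, ((up Rg i : ℝ) - dn Rg i) = (if mem Rg (n - 1) then 1 else 0) - 1 := by
  induction n, hn using Int.leInduction with
  | base => simp [mem]
  | succ n hn ih =>
    obtain e : Ico 1 (n + 1) = insert n (Ico 1 n) := by
      ext l; simp only [mem_Ico, mem_insert]; omega
    rw [e, sum_insert (by simp), ih, add_sub_cancel_right]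
    unfold up dn
    by_cases h1 : mem Rg (n - 1) <;> by_cases h2 : mem Rg n <;> simp [h1, h2]

theorem up_le (Rg : Finset ℤ) (N : ℤ) :
    ∑ i ∈ Ico 1 N, (up Rg i : ℝ) ≤ ∑ i ∈ Ico 1 N, (dn Rg i : ℝ) := by
  rcases le_or_gt 1 N with h | h
  · have := tele Rg h
    rw [sum_sub_distrib] at this
    split_ifs at this <;> linarith only [this]
  · rw [Ico_eq_empty (by omega)]; simp

open Classical in
theorem dn_eq (Rg : Finset ℤ) (N : ℤ) : ∑ i ∈ Ico 1 N, (dn Rg i : ℝ) =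
    (((Ico 1 N).filter fun i => i ∉ Rg ∧ (i - 1 ∈ Rg ∨ i = 1)).card : ℝ) := by
  rw [card_filter]; push_cast
  refine sum_congr rfl fun i hi => ?_
  have hi := mem_Ico.1 hi
  obtain e : (mem Rg (i - 1) ∧ ¬ mem Rg i) ↔ (i ∉ Rg ∧ (i - 1 ∈ Rg ∨ i = 1)) := by
    unfold mem
    obtain a : i - 1 = 0 ↔ i = 1 := by omega
    obtain b : i ≠ 0 := by omega
    tauto
  unfold dn
  by_cases h1 : i ∉ Rg ∧ (i - 1 ∈ Rg ∨ i = 1)
  · rw [if_pos h1, if_pos (e.2 h1)]; simp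
  · rw [if_neg h1, if_neg (fun h2 => h1 (e.1 h2))]; simp

/-- `D` lives on the starts of irregular runs -/
def Sup (N : ℤ) (p : Finset ℤ × (ℤ → ℕ)) : Prop :=
  p.1 ⊆ Ico 1 N ∧ ∀ i, p.2 i ≠ 0 → i ∈ Ico 1 N ∧ i ∉ p.1 ∧ i - 1 ∈ p.1

theorem Sup.cases {N : ℤ} {p : Finset ℤ × (ℤ → ℕ)} (h : Sup N p) (i : ℤ) :
    ((mem p.1 (i - 1) ↔ mem p.1 i) ∧ up p.1 i = 0 ∧ dn p.1 i = 0 ∧ p.2 i = 0) ∨
    (¬ mem p.1 (i - 1) ∧ mem p.1 i ∧ up p.1 i = 1 ∧ dn p.1 i = 0 ∧ p.2 i = 0) ∨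
    (mem p.1 (i - 1) ∧ ¬ mem p.1 i ∧ up p.1 i = 0 ∧ dn p.1 i = 1) := by
  obtain hD : p.2 i ≠ 0 → mem p.1 (i - 1) ∧ ¬ mem p.1 i := fun h0 => by
    obtain ⟨a, b, c⟩ := h.2 i h0
    have := mem_Ico.1 a
    exact ⟨Or.inl c, fun hm => hm.elim b (by omega)⟩
  unfold up dn
  by_cases h1 : mem p.1 (i - 1) <;> by_cases h2 : mem p.1 i
  · exact Or.inl ⟨iff_of_true h1 h2, by simp [h1], by simp [h2],
      by by_contra h0; exact (hD h0).2 h2⟩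
  · exact Or.inr (Or.inr ⟨h1, h2, by simp [h1], by simp [h1, h2]⟩)
  · exact Or.inr (Or.inl ⟨h1, h2, by simp [h1, h2], by simp [h1],
      by by_contra h0; exact h1 (hD h0).1⟩)
  · exact Or.inl ⟨iff_of_false h1 h2, by simp [h2], by simp [h1],
      by by_contra h0; exact h1 (hD h0).1⟩

theorem enc_inj {N : ℤ} {p q : Finset ℤ × (ℤ → ℕ)} (hp : Sup N p) (hq : Sup N q)
    (h : ∀ i ∈ Ico 1 N, enc p i = enc q i) : p = q := by
  obtain hm : ∀ i, 0 ≤ i → i < N → (mem p.1 i ↔ mem q.1 i) := by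
    intro i hi
    induction i, hi using Int.leInduction with
    | base => intro _; simp [mem]
    | succ i hi ih =>
      intro hN
      obtain a := ih (by omega)
      obtain b := h (i + 1) (mem_Ico.2 ⟨by omega, hN⟩)
      have c1 := hp.cases (i + 1)
      have c2 := hq.cases (i + 1)
      rw [add_sub_cancel_right] at c1 c2
      unfold enc at b
      rcases c1 with c1 | c1 | c1 <;> rcases c2 with c2 | c2 | c2 <;>
        first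
        | omega
        | exact c1.1.symm.trans (a.trans c2.1)
        | exact iff_of_true c1.2.1 c2.2.1
        | exact iff_of_false c1.2.1 c2.2.1
  obtain h1 : p.1 = q.1 := by
    ext i
    by_cases hi : i ∈ Ico 1 N
    · have hi' := mem_Ico.1 hi
      obtain this := hm i (by omega) hi'.2
      unfold mem at this
      obtain b : i ≠ 0 := by omega
      tauto
    · exact ⟨fun a => absurd (hp.1 a) hi, fun a => absurd (hq.1 a) hi⟩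
  refine Prod.ext h1 (funext fun i => ?_)
  by_cases hi : i ∈ Ico 1 N
  · have b := h i hi
    unfold enc at b
    rw [h1] at b
    omega
  · obtain a : p.2 i = 0 := by by_contra h0; exact hi (hp.2 i h0).1
    obtain b : q.2 i = 0 := by by_contra h0; exact hi (hq.2 i h0).1
    rw [a, b]

theorem wt_enc {N : ℤ} {p : Finset ℤ × (ℤ → ℕ)} (h : Sup N p) {x : ℝ} (hx : 0 < x) (i : ℤ) :
    wt x (enc p i) = Real.exp (-(Real.log (1 / x) * ((up p.1 i : ℝ) + dn p.1 i) +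
      Real.log 2 * ((up p.1 i : ℝ) + 2 * dn p.1 i + p.2 i))) := by
  obtain key : ∀ k : ℕ, x / 2 ^ k = Real.exp (-(Real.log (1 / x) * 1 + Real.log 2 * k)) := fun k => by
    rw [neg_add, Real.exp_add, mul_one, one_div, Real.log_inv, neg_neg, Real.exp_log hx,
      Real.exp_neg, mul_comm (Real.log 2), Real.exp_nat_mul, Real.exp_log two_pos, div_eq_mul_inv]
  unfold enc wt
  rcases h.cases i with c | c | c
  · rw [c.2.1, c.2.2.1, c.2.2.2]; simp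
  · rw [c.2.2.1, c.2.2.2.1, c.2.2.2.2, if_neg (by omega), key]; congr 1; push_cast; ring
  · rw [c.2.2.1, c.2.2.2, if_neg (by omega), key]; congr 1; push_cast; ring

end YCNT

end
end Pool.Agent.MP_9cbfe4_an

end

/-! ### Part CCI -/

section

/-! Interface of the part TRU + RET + CC of section F (helper26). -/

namespace Pool.Agent.MP_9cbfe4_an

open Finset Filter Topology MeasureTheory

noncomputable section

/-- two orbits with directions are related at the times `s`, `s'` like two points of one curve;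
`κ` is the curvature constant, `ℓ` the resolution -/
structure Sq.Rel (c : Cs) (S S' : Sq) (ξ ξ' : ℤ → ℝ) (s s' : ℤ) (θ κ ℓ μ : ℝ) : Prop where
  sm : |S'.X s' - S.X s| ≤ μ ∧ |S'.X (s' - 1) - S.X (s - 1)| ≤ μ
  prev : S.bb c θ s * (S'.X (s' - 1) - S.X (s - 1)) ^ 2 ≤ κ * c.L * (|S'.X s' - S.X s| + ℓ) ^ 2
  d1 : S.bb c θ s * |S'.X (s' - 1) - S.X (s - 1) - ξ (s - 1) / ξ s * (S'.X s' - S.X s)|
    ≤ κ * c.L * (|S'.X s' - S.X s| + ℓ) ^ 2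
  d2 : S.bb c θ s * |ξ' (s' - 1) / ξ' s' - ξ (s - 1) / ξ s| ≤ κ * c.L * (|S'.X s' - S.X s| + ℓ)

namespace Fd
variable (c : Cs) (Ex : ExT) (M : Mdl) (φ : Fd)

/-- the fresh direction of the partner run -/
def f : ℤ → ℝ := (φ.S M).fr (φ.n + 1)
def W (m : ℤ) : ℝ := (φ.S M).Wp c φ.n m
/-- `log max (A_m, w_m)` -/
def W0 (m : ℤ) : ℝ := (φ.S M).Wt c (φ.f M) (φ.n + 1) m 0

/-- `m` is a free time of a bound partner run -/
structure Fr (m : ℤ) : Prop where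
  ht : TI φ.t
  hv : φ.v ∈ Set.Icc (0 : ℝ) 100
  out : (φ.S M).Out c φ.ξ φ.n
  rinv : (φ.S M).RInv c (φ.f M) (φ.n + 1) m
  binv : ∃ L, (φ.S M).BInv c φ.n L m

/-- the point `(c0, h)` of the leaf through the datum is shadowed up to `s` at level `U` -/
structure Near (c0 h : ℝ) (s : ℤ) (U : ℝ) : Prop where
  fr : φ.Fr c M s
  bx : Box c c0 ∧ Box c h ∧ 1 ≤ dP c0
  leaf : (φ.S M).b φ.n * |h - (φ.S M).X (φ.n - 1)
      - φ.ξ (φ.n - 1) / φ.ξ φ.n * (c0 - (φ.S M).X φ.n)|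
    ≤ Real.exp (-c.bl / 4) * (c0 - (φ.S M).X φ.n) ^ 2
  adm : c.L * (c0 - (φ.S M).X φ.n) ^ 2 * Real.exp U ≤ 100 * c.cb
  rho : (φ.S M).rho φ.ξ φ.n s ^ 2 * Real.exp U ≤ 100 * c.cb * c.L
  lev : φ.W c M s ≤ U ∧ Real.log |φ.f M s| ≤ U + 2 ∧ 4 * U ≤ (φ.S M).chi c φ.n s

/-- the orbit of the point `(c0, h)`; time `0` is the fold (`= Seed.orb`) -/
def R (c0 h : ℝ) : Sq := M.orb φ.t 1 (M.G φ.t c0 h, c0)
/-- resolution of the comparison true orbit / seed orbit -/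
def res (s : ℤ) (U : ℝ) : ℝ := Real.exp (-U - 20) * |φ.f M s|

/-- parameter condition on `(s, m]` -/
def ParH (τ g : ℝ) (s m : ℤ) : Prop := ∀ j, s < j → j ≤ m →
  |τ| * ∑ i ∈ Ico s j, |(φ.S M).fr (i + 1) j| ≤ g * (φ.S M).wp c φ.n j

/-- the inner fold at the free time `m` -/
def inn (m : ℤ) : Fd := ⟨φ.t, φ.v, φ.f M, m⟩
open Classical in
/-- the critical point seen from the free time `m` at depth `r` -/
def crt (sd : Fd → ℝ → Seed) (m : ℤ) (r : ℝ) : ℝ → ℝ :=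
  if r ≤ c.bl / 3 then fun _ => Real.pi * round ((φ.S M).X m / Real.pi)
  else (sd (φ.inn M m) (3 * r)).c

/-- a return of depth `r` with a long history inside the run -/
structure Deep (m : ℤ) (r : ℝ) : Prop where
  ht : 1 / 5 ≤ φ.t ∧ φ.t ≤ 4 / 5
  fr : φ.Fr c M m
  run : ∃ P Ls, (φ.S M).Run c Ex (φ.f M) (φ.n + 1) P Ls m
  wit : (φ.S M).Wit c Ex (φ.f M) m r
  lo : 3 ≤ r
  far : r ≤ c.bl / 3 ∨ 20 * r ≤ (φ.S M).chi c (φ.n + 2) m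

/-- data of one member of a family in one stage: relative stage time `j`, scale `ω`, window
`[u, u']`, events `k ∈ Ev` (relative times) with levels `a k, b k`, kind `kd k` (`true` = return),
profile numbers `lw k ≈ log w`, `rr k` -/
structure CCD (j : ℤ) (ω u u' : ℝ) (Ev : Finset ℤ) (a b lw rr : ℤ → ℝ) (kd : ℤ → Bool) : Prop where
  fr : φ.Fr c M (φ.n + j)
  om : ω ≤ |φ.f M (φ.n + j)| ∧ |φ.f M (φ.n + j)| ≤ 3 * ω
  ev : ∀ k ∈ Ev, max (a k) u < min (b k) u' → j ≤ k ∧ φ.Fr c M (φ.n + k) ∧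
    |Real.log |φ.f M (φ.n + k)| - lw k| ≤ 1 ∧
    (kd k = true → (φ.S M).Wit c Ex (φ.f M) (φ.n + k) (rr k) ∧
      φ.W0 c M (φ.n + k) + 5 * Real.log c.lam ≤ a k ∧ b k ≤ lw k + rr k - 10) ∧
    (kd k = false → dP ((φ.S M).X (φ.n + k)) < 5 / 100 ∧
      φ.W c M (φ.n + k) + 5 * Real.log c.lam ≤ a k ∧ b k ≤ lw k - 10)
end Fd

/-- row TSN (from `TS_s` of TSI): true orbit against the orbit of a point of its leaf -/
def TSN_s (c : Cs) : Prop := ∀ (M : Mdl) (φ : Fd) c0 h s U, M.OK c → φ.Near c M c0 h s U →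
  (∀ i, φ.n ≤ i → i ≤ s → |(φ.R M c0 h).X (i - φ.n) - (φ.S M).X i| ≤
    Real.exp (-U - 20) / c.lam ^ 2 * (φ.S M).wp c φ.n i
      + Real.exp (-U / 2 - (φ.S M).chi c φ.n i / 2 - c.lam / 3)) ∧
  (∀ i, φ.n < i → i ≤ s → |(φ.R M c0 h).fr 1 (i - φ.n) - φ.f M i| ≤
    (φ.S M).wp c φ.n i / c.lam ^ 2) ∧
  |(φ.R M c0 h).X (s - φ.n) - (φ.S M).X s| ≤ φ.res M s U / c.lam ^ 2 ∧
  |(φ.R M c0 h).X (s - φ.n - 1) - (φ.S M).X (s - 1)| ≤ 1 / c.lam ∧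
  (φ.S M).bb c (2 / 100) s * ((φ.R M c0 h).X (s - φ.n - 1) - (φ.S M).X (s - 1)) ^ 2
    ≤ c.L * (φ.res M s U / c.lam ^ 2) ^ 2 ∧
  (φ.S M).bb c (2 / 100) s * |(φ.R M c0 h).X (s - φ.n - 1) - (φ.S M).X (s - 1)
      - φ.f M (s - 1) / φ.f M s * ((φ.R M c0 h).X (s - φ.n) - (φ.S M).X s)|
    ≤ c.L * (φ.res M s U / c.lam ^ 2) ^ 2 ∧
  (φ.S M).bb c (2 / 100) s * |(φ.R M c0 h).fr 1 (s - φ.n - 1) / (φ.R M c0 h).fr 1 (s - φ.n)
      - φ.f M (s - 1) / φ.f M s| ≤ c.L * (φ.res M s U / c.lam ^ 2)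

/-- row TRU: a relation of two seed orbits passes to the true orbits -/
def TRU_s (c : Cs) : Prop := ∀ (M : Mdl) (φ φ' : Fd) c0 h c0' h' j U U' θ κ ℓ μ, M.OK c →
  φ.Near c M c0 h (φ.n + j) U → φ'.Near c M c0' h' (φ'.n + j) U' →
  θ ≤ 19 / 1000 → 1 / c.lam ^ 2 ≤ κ → μ ≤ 1 / 2000 →
  φ.res M (φ.n + j) U ≤ ℓ → φ'.res M (φ'.n + j) U' ≤ ℓ →
  (φ.R M c0 h).Rel c (φ'.R M c0' h') ((φ.R M c0 h).fr 1) ((φ'.R M c0' h').fr 1) j j θ κ ℓ μ →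
  (φ.S M).Rel c (φ'.S M) (φ.f M) (φ'.f M) (φ.n + j) (φ'.n + j) (θ - 1 / 1000) (20 * κ) ℓ
    (1 / 1000) ∧
  |((φ'.S M).X (φ'.n + j) - (φ.S M).X (φ.n + j))
    - ((φ'.R M c0' h').X j - (φ.R M c0 h).X j)| ≤ 2 * ℓ / c.lam ^ 2

/-- row SHS: a relation at a free time starts the shadowing lemma -/
def SHS_s (c : Cs) : Prop := ∀ (M : Mdl) (φ φ' : Fd) s s' m θ κ ℓ η, M.OK c →
  φ.Fr c M s → φ.Fr c M m → φ'.Fr c M s' → s ≤ m → 11 / 1000 ≤ θ → θ ≤ 2 / 100 → κ ≤ c.lam →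
  0 ≤ ℓ → (φ.S M).Rel c (φ'.S M) (φ.f M) (φ'.f M) s s' θ κ ℓ (1 / 1000) →
  η * |φ.f M s| = c.lam * (|(φ'.S M).X s' - (φ.S M).X s| + ℓ) →
  η * Real.exp (φ.W c M m) ≤ 1 / c.lam ^ 2 → φ.ParH c M (φ'.t - φ.t) η s m →
  ShH c M φ.t φ'.t (φ.S M) ((φ'.S M).shift (s' - s)) (2 / 100) ((φ.S M).wp c φ.n)
    ((φ.S M).AA c (φ.f M) (φ.n + 1))
    (fun i => ((φ'.S M).X s' - (φ.S M).X s) / φ.f M s * φ.f M i) η s m ∧
  (s < m → |(φ'.S M).b s' * (φ.f M s / φ'.f M s' * φ'.f M (s' - 1)) - (φ.S M).b s * φ.f M (s - 1)|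
    ≤ 200 * c.CG * c.L * (η * (φ.S M).wp c φ.n s ^ 2))

/-- row RET0: two related returns of depth `r` are close -/
def RET0_s (c : Cs) : Prop := ∀ Ex (M : Mdl) (φ φ' : Fd) s s' θ κ ℓ r, M.OK c →
  φ.Fr c M s → φ'.Fr c M s' → 1 / 100 ≤ θ → κ ≤ 1 / (4 * c.lam) → 0 ≤ ℓ →
  (φ.S M).Rel c (φ'.S M) (φ.f M) (φ'.f M) s s' θ κ ℓ (1 / 1000) →
  (φ.S M).Wit c Ex (φ.f M) s r → (φ'.S M).Wit c Ex (φ'.f M) s' r → 1 ≤ r →
  ℓ * Real.exp r ≤ 100 → |φ'.t - φ.t| * Real.exp (r + r / 100) ≤ 1 →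
  |(φ'.S M).X s' - (φ.S M).X s| ≤ 200 * Real.exp (-r)

/-- row RET: the same for seed orbits (BOX lemma of section E) -/
def RET_s (c : Cs) : Prop := ∀ Ex (M : Mdl) (φ φ' : Fd) c0 h c0' h' j U U' θ κ ℓ r, M.OK c →
  φ.Near c M c0 h (φ.n + j) U → φ'.Near c M c0' h' (φ'.n + j) U' →
  11 / 1000 ≤ θ → θ ≤ 19 / 1000 → κ ≤ 1 / (100 * c.lam) →
  φ.res M (φ.n + j) U ≤ ℓ → φ'.res M (φ'.n + j) U' ≤ ℓ →
  (φ.R M c0 h).Rel c (φ'.R M c0' h') ((φ.R M c0 h).fr 1) ((φ'.R M c0' h').fr 1) j j θ κ ℓ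
    (1 / 2000) →
  (φ.S M).Wit c Ex (φ.f M) (φ.n + j) r → (φ'.S M).Wit c Ex (φ'.f M) (φ'.n + j) r → 1 ≤ r →
  ℓ * Real.exp r ≤ 100 → |φ'.t - φ.t| * Real.exp (r + r / 100) ≤ 1 →
  |(φ'.R M c0' h').X j - (φ.R M c0 h).X j| ≤ 300 * Real.exp (-r)

/-- row LOC: an event at `m ≥ s` localises the position at `s` -/
def LOC_s (c : Cs) : Prop := ∀ Ex (M : Mdl) (φ φ' : Fd) s s' m m' θ κ ℓ, M.OK c →
  φ.Fr c M s → φ.Fr c M m → φ'.Fr c M s' → φ'.Fr c M m' → s ≤ m → m' - s' = m - s →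
  11 / 1000 ≤ θ → θ ≤ 2 / 100 → κ ≤ c.lam → 0 ≤ ℓ →
  (φ.S M).Rel c (φ'.S M) (φ.f M) (φ'.f M) s s' θ κ ℓ (1 / 1000) →
  φ.ParH c M (φ'.t - φ.t) (ℓ / |φ.f M s|) s m →
  ((|(φ'.S M).X s' - (φ.S M).X s| + ℓ) * Real.exp (φ.W c M m) ≤ 10 * c.cw * |φ.f M s| →
    dP ((φ.S M).X m) < 5 / 100 → dP ((φ'.S M).X m') < 5 / 100 →
    |(φ'.S M).X s' - (φ.S M).X s| ≤ 4 * |φ.f M s| / |φ.f M m| + 3 * ℓ) ∧
  ∀ r, (|(φ'.S M).X s' - (φ.S M).X s| + ℓ) * Real.exp (φ.W0 c M m) ≤ 10 * c.cw * |φ.f M s| →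
    (φ.S M).Wit c Ex (φ.f M) m r → (φ'.S M).Wit c Ex (φ'.f M) m' r → 1 ≤ r →
    ℓ * |φ.f M m| * Real.exp r ≤ 100 * |φ.f M s| → |φ'.t - φ.t| * Real.exp (r + r / 100) ≤ 1 →
    (m = s → κ ≤ 1 / (4 * c.lam)) →
    |(φ'.S M).X s' - (φ.S M).X s| ≤ 1000 * Real.exp (-r) * |φ.f M s| / |φ.f M m|

/-- row CC: measure of the target set of one stage -/
def CC_s (c : Cs) : Prop := ∀ Ex (M : Mdl) (Z : Type) (p : Z → Fd) (j : ℤ) (ω u u' θ κ ℓ : ℝ)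
  (Ev : Finset ℤ) (a b lw rr : ℤ → ℝ) (kd : ℤ → Bool), M.OK c → 0 < ω → u ≤ u' →
  (∀ m ∈ Ev, ∀ m' ∈ Ev, m < m' → b m ≤ a m') →
  11 / 1000 ≤ θ → θ ≤ 2 / 100 → κ ≤ c.lam → 0 ≤ ℓ → ℓ ≤ ω * Real.exp (-u' - 10) →
  (j ∈ Ev → max (a j) u < min (b j) u' → kd j = true → κ ≤ 1 / (4 * c.lam)) →
  (∀ z, (p z).CCD c Ex M j ω u u' Ev a b lw rr kd) →
  (∀ z z', ((p z).S M).Rel c ((p z').S M) ((p z).f M) ((p z').f M) ((p z).n + j) ((p z').n + j)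
      θ κ ℓ (1 / 1000) ∧
    |((p z').S M).X ((p z').n + j) - ((p z).S M).X ((p z).n + j)| ≤ ω * Real.exp (-u) ∧
    ∀ k ∈ Ev, max (a k) u < min (b k) u' →
      (p z).ParH c M ((p z').t - (p z).t) (ℓ / (3 * ω)) ((p z).n + j) ((p z).n + k) ∧
      (kd k = true → |(p z').t - (p z).t| * Real.exp (2 * (min (b k) u' + 10 - lw k)) ≤ 1)) →
  volume (⋃ z, Metric.closedBall (((p z).S M).X ((p z).n + j)) (ω * Real.exp (-u'))) ≤
    ENNReal.ofReal (4 * ω * 20 ^ Ev.card *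
      Real.exp (-u - ∑ k ∈ Ev, max 0 (min (b k) u' - max (a k) u)))

/-- row PAR: the parameter sum between two free times of one run -/
def PAR_s (c : Cs) : Prop := ∀ Ex (S : Sq) ξ n Ls m r s, S.OK c → S.Out c ξ n →
  S.Run c Ex (S.fr (n + 1)) (n + 1) (S.PBd c Ex ξ n) Ls m → S.Bd c ξ n m r →
  (∃ x ∈ Ls, x.1 = s) → ∀ j, s < j → j ≤ m → ∑ i ∈ Ico s j, |S.fr (i + 1) j| ≤
    Real.exp (4 * (S.Wp c n m - S.Wp c n s) - S.Wp c n s + 100 * c.ε' * S.xp c n m) * S.wp c n j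

/-- row RETD: deep returns and the critical curve -/
def RETD_s (K : ℕ) (c : Cs) : Prop := ∀ Ex (M : Mdl) (sd : Fd → ℝ → Seed), M.OK c →
  Seeds K c Ex M sd → ∀ (φ : Fd) m r, φ.Deep c Ex M m r →
  ContDiffOn ℝ (K + 1 : ℕ) (φ.crt c M sd m r)
    (Set.Ioo (φ.t - 3 * c.rU (3 * r)) (φ.t + 3 * c.rU (3 * r))) ∧
  (∀ t ∈ Set.Ioo (φ.t - 3 * c.rU (3 * r)) (φ.t + 3 * c.rU (3 * r)), ∀ i : ℕ, 1 ≤ i → i ≤ K + 1 →
    |iteratedDeriv i (φ.crt c M sd m r) t| ≤ 1 / 10) ∧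
  |(φ.S M).X m - φ.crt c M sd m r φ.t| ≤ 10 * Real.exp (-r) ∧
  ∀ (φ' : Fd) m', φ'.Deep c Ex M m' r → m' - φ'.n = m - φ.n → |φ'.t - φ.t| ≤ c.rU (3 * r) →
    (∀ i, φ.n < i → i ≤ m → |(φ'.S M).X (i - φ.n + φ'.n) - (φ.S M).X i| ≤ c.rU (3 * r)) →
    ∀ t, |t - φ'.t| ≤ c.rU (3 * r) →
      |φ.crt c M sd m r t - φ'.crt c M sd m' r t| ≤ Real.exp (-r)

/-- facts about a free time `x.1` (depth `x.2`) of a datum -/
structure Dat.El (c : Cs) (Ex : ExT) (M : Mdl) (d : Dat) (x : ℤ × ℝ) : Prop where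
  lt : d.n < x.1 ∧ x.1 ≤ d.p
  fr : d.toFd.Fr c M x.1
  run : ∃ L, (d.S M).Run c Ex (d.toFd.f M) (d.n + 1) ((d.S M).PBd c Ex d.ξ d.n) L x.1 ∧
    (d.S M).Bd c d.ξ d.n x.1 x.2 ∧ ∀ y ∈ d.Ls, y.1 < x.1 → y ∈ L
  wit : (d.S M).Wit c Ex (d.toFd.f M) x.1 x.2
  lev : Real.log |d.toFd.f M x.1| + x.2 ≤ d.V c M ∧ d.toFd.W c M x.1 ≤ d.V c M
  wle : Real.log |d.toFd.f M x.1| ≤ d.toFd.W c M x.1 + c.lam + 10
  sg : (d.S M).sg c (d.toFd.f M) (d.n + 1) x.1 ≤ 11 * c.ε' * (d.S M).xp c d.n x.1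
  chi : c.bl ≤ (d.S M).chi c d.n x.1 ∧ c.M1 * (d.toFd.W c M x.1 - 5) ≤ (d.S M).chi c d.n x.1
  step : x ∈ d.Ls → -1 ≤ x.2 ∧
    c.M1 * (d.S M).Wt c (d.toFd.f M) (d.n + 1) x.1 x.2 ≤ (d.S M).chi c d.n x.1 ∧
    ∃ y ∈ (d.p, d.r) :: d.Ls, x.1 < y.1 ∧ (∀ z ∈ d.Ls, x.1 < z.1 → y.1 ≤ z.1) ∧
      d.toFd.W c M y.1 ≤ (d.S M).Wt c (d.toFd.f M) (d.n + 1) x.1 x.2 + 5
  later : ∀ y ∈ (d.p, d.r) :: d.Ls, x.1 < y.1 →
    Real.log |d.toFd.f M x.1| + x.2 ≤ d.toFd.W c M y.1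
  kind : 0 < (d.S M).ev c (d.toFd.f M) (d.n + 1) x.1 x.2 →
    (c.cc ≤ x.2 ∧ (d.S M).ev c (d.toFd.f M) (d.n + 1) x.1 x.2 = x.2 ∧
      (d.S M).sg c (d.toFd.f M) (d.n + 1) x.1 ≤ c.e3 * x.2 ∧ 5 / 100 ≤ dP ((d.S M).X x.1)) ∨
    (x.2 < c.cc ∧ -1 ≤ x.2 ∧ (d.S M).ev c (d.toFd.f M) (d.n + 1) x.1 x.2 = c.lam ∧
      dP ((d.S M).X x.1) < 5 / 100 ∧
      (d.S M).sig c (d.toFd.f M) (d.n + 1) x.1 ≤ -(1 - 5 * c.e3) * c.lam)

/-- row FR: the free times of a datum, and the seed of a high datum is near -/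
def FR_s (K : ℕ) (c : Cs) : Prop := ∀ Ex (M : Mdl) (d : Dat), M.OK c → d.Pre c Ex M →
  (∀ x ∈ (d.p, d.r) :: d.Ls, d.El c Ex M x) ∧
  ((d.p, d.r) :: d.Ls).Pairwise (fun x y => y.1 < x.1) ∧
  ∀ (σ : Seed) y s, σ.OK K c Ex M y d.toFd → 4 * d.V c M ≤ y → d.toFd.Fr c M s → s ≤ d.p →
    Real.log |d.toFd.f M s| ≤ d.V c M + 2 → 4 * d.V c M ≤ (d.S M).chi c d.n s →
    ∃ h, σ.orb M d.t = d.toFd.R M (σ.c d.t) h ∧ d.toFd.Near c M (σ.c d.t) h s (d.V c M)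

end
end Pool.Agent.MP_9cbfe4_an

end

/-! ### Part ST0 -/

section

/-! Row ST0 of section S: two points. -/

namespace Pool.Agent.MP_9cbfe4_an.SS

open Finset
open scoped ContDiff Nat

noncomputable section

theorem st0_mvt {f : R3 → ℝ} {U : Set R3} (hU : Convex ℝ U) (hf : ∀ z ∈ U, ContDiffAt ℝ ∞ f z)
    {z z' : R3} (hz : z ∈ U) (hz' : z' ∈ U) :
    ∃ ζ ∈ U, (∃ s : ℝ, 0 ≤ s ∧ s ≤ 1 ∧ ζ - z = s • (z' - z)) ∧ f z' - f z = fderiv ℝ f ζ (z' - z) := by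
  obtain ⟨ζ, h1, h2⟩ := domain_mvt (f := f) (f' := fun y => fderiv ℝ f y)
    (fun y hy => ((hf y hy).differentiableAt (by simp)).hasFDerivAt.hasFDerivWithinAt) hU hz hz'
  refine ⟨ζ, hU.segment_subset hz hz' h1, ?_, h2⟩
  obtain ⟨u, s, hu, hs, hus, rfl⟩ := h1
  refine ⟨s, hs, by linarith only [hu, hus], ?_⟩
  obtain this : u = 1 - s := by linarith only [hus]
  subst this
  module

theorem pg_smul_le {dl b s : ℝ} (hd : 0 ≤ dl) (hb : 0 ≤ b) (h0 : 0 ≤ s) (h1 : s ≤ 1) (v : R3) :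
    pg dl b (s • v) ≤ pg dl b v := by
  obtain key : ∀ x : ℝ, |s * x| ≤ |x| := fun x => by
    rw [abs_mul, abs_of_nonneg h0]; exact mul_le_of_le_one_left (abs_nonneg x) h1
  unfold pg
  exact max_le_max (mul_le_mul_of_nonneg_left (key _) hd)
    (max_le_max (key _) (mul_le_mul_of_nonneg_left (key _) hb))

theorem pg_le_sum {dl b : ℝ} (hd : 0 ≤ dl) (hb : 0 ≤ b) (v : R3) :
    pg dl b v ≤ |v.2.1| + b * |v.2.2| + dl * |v.1| := by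
  have h1 := mul_nonneg hd (abs_nonneg v.1)
  have h2 := mul_nonneg hb (abs_nonneg v.2.2)
  have h3 := abs_nonneg v.2.1
  exact max_le (by linarith only [h2, h3]) (max_le (by linarith only [h1, h2]) (by linarith only [h1, h3]))

variable {g : R3 → ℝ} {U : Set R3} {N : ℕ} {a b m dl ρ : ℝ}

theorem LM.m0 (h : LM g U N a b m dl ρ) : 0 ≤ m := le_trans (by (clear * -; positivity)) h.cst

theorem st0_d2 (h : LM g U N a b m dl ρ) {ζ : R3} (hζ : ζ ∈ U) (e v : R3) :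
    |fderiv ℝ (fun y => fderiv ℝ g y e) ζ v| ≤ m * pg dl b e * pg dl b v := by
  obtain h1 := mg_bd h hζ e (k := 1) le_rfl (by omega) ![v]
  rw [iteratedFDeriv_one_apply] at h1
  simpa using h1

theorem st0_lip (h : LM g U N a b m dl ρ) {z z' : R3} (hz : z ∈ U) (hz' : z' ∈ U) (e : R3) :
    |fderiv ℝ g z' e - fderiv ℝ g z e| ≤ m * pg dl b e * pg dl b (z' - z) := by
  obtain ⟨ζ, hζ, -, h2⟩ := st0_mvt (f := fun y => fderiv ℝ g y e) h.conv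
    (fun y hy => mg_smooth (h.sm y hy) e) hz hz'
  rw [h2]
  exact st0_d2 h hζ e _

theorem st0 : ST0_s := by
  intro g U N a b m dl ρ h z hz z' hz'
  have hm := h.m0
  have hb := h.b0.le
  have hd := h.dl0
  have hρ := h.ρ0
  have hP := pg_nonneg dl b (z' - z)
  obtain hA : |ga g z' - ga g z| ≤ m * pg dl b (z' - z) := by
    have h1 := st0_lip h hz hz' (0, 1, 0)
    rw [pg_ea, mul_one] at h1
    exact h1
  obtain hB : |gb g z' - gb g z| ≤ m * b * pg dl b (z' - z) := by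
    have h1 := st0_lip h hz hz' (0, 0, 1)
    rw [pg_eb hb] at h1
    exact h1
  obtain hT : |gt g z' - gt g z| ≤ m * dl * pg dl b (z' - z) := by
    have h1 := st0_lip h hz hz' (1, 0, 0)
    rw [pg_et hd] at h1
    exact h1
  have hS : pg dl b (z' - z) ≤ |z'.2.1 - z.2.1| + b * |z'.2.2 - z.2.2| + dl * |z'.1 - z.1| :=
    pg_le_sum hd hb (z' - z)
  obtain ⟨ζ, hζ, ⟨s, s0, s1, hs⟩, h2⟩ := st0_mvt h.conv h.sm hz hz'
  refine ⟨?_, ?_, hA, hB, hT, fun p q p' q' d hp hq => ?_, fun L q q' d hF hq d1 hL => ?_⟩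
  · rw [mg_lin] at h2
    simp only [Prod.fst_sub, Prod.snd_sub] at h2
    obtain e1 : g z' - g z - a * (z'.2.1 - z.2.1) - b * (z'.2.2 - z.2.2)
        = gt g ζ * (z'.1 - z.1) + (ga g ζ - a) * (z'.2.1 - z.2.1)
          + (gb g ζ - b) * (z'.2.2 - z.2.2) := by rw [h2]; ring
    obtain t1 : |gt g ζ| ≤ 2 := by
      have := abs_le.1 (h.ht ζ hζ)
      exact abs_le.2 ⟨by linarith only [this], by linarith only [this]⟩
    obtain u1 : |gt g ζ * (z'.1 - z.1)| ≤ 2 * |z'.1 - z.1| := by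
      rw [abs_mul]; exact mul_le_mul_of_nonneg_right t1 (abs_nonneg _)
    obtain u2 : |(ga g ζ - a) * (z'.2.1 - z.2.1)| ≤ ρ * |z'.2.1 - z.2.1| := by
      rw [abs_mul]; exact mul_le_mul_of_nonneg_right (h.ha ζ hζ) (abs_nonneg _)
    obtain u3 : |(gb g ζ - b) * (z'.2.2 - z.2.2)| ≤ ρ * b * |z'.2.2 - z.2.2| := by
      rw [abs_mul]; exact mul_le_mul_of_nonneg_right (h.hb ζ hζ) (abs_nonneg _)
    rw [e1]
    refine (abs_add_three _ _ _).trans ?_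
    linarith only [u1, u2, u3]
  · obtain e1 : g z' - g z - gt g z * (z'.1 - z.1) - ga g z * (z'.2.1 - z.2.1)
        - gb g z * (z'.2.2 - z.2.2) = fderiv ℝ g ζ (z' - z) - fderiv ℝ g z (z' - z) := by
      rw [h2, mg_lin g z (z' - z)]
      simp only [Prod.fst_sub, Prod.snd_sub]
      ring
    rw [e1]
    refine (st0_lip h hz hζ (z' - z)).trans ?_
    rw [hs, sq, ← mul_assoc]
    exact mul_le_mul_of_nonneg_left (pg_smul_le hd hb s0 s1 _) (mul_nonneg hm hP)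
  · have d0 : 0 ≤ d := (abs_nonneg _).trans hp
    obtain e1 : ga g z' * p' + gb g z' * q' - (ga g z * p + gb g z * q) - a * (p' - p) - b * (q' - q)
        = ((ga g z' - ga g z) * p' + (gb g z' - gb g z) * q')
          + ((ga g z - a) * (p' - p) + (gb g z - b) * (q' - q)) := by ring
    obtain u1 : |(ga g z' - ga g z) * p'| ≤ m * pg dl b (z' - z) * d := by
      rw [abs_mul]; exact mul_le_mul hA hp (abs_nonneg _) (mul_nonneg hm hP)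
    obtain u2 : |(gb g z' - gb g z) * q'| ≤ m * pg dl b (z' - z) * d := by
      rw [abs_mul]
      calc _ ≤ m * b * pg dl b (z' - z) * |q'| := mul_le_mul_of_nonneg_right hB (abs_nonneg _)
        _ = m * pg dl b (z' - z) * (b * |q'|) := by ring
        _ ≤ _ := mul_le_mul_of_nonneg_left hq (mul_nonneg hm hP)
    obtain u3 : |(ga g z - a) * (p' - p)| ≤ ρ * |p' - p| := by
      rw [abs_mul]; exact mul_le_mul_of_nonneg_right (h.ha z hz) (abs_nonneg _)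
    obtain u4 : |(gb g z - b) * (q' - q)| ≤ ρ * b * |q' - q| := by
      rw [abs_mul]; exact mul_le_mul_of_nonneg_right (h.hb z hz) (abs_nonneg _)
    have u5 := mul_le_mul_of_nonneg_left hS (mul_nonneg hm d0)
    rw [e1]
    refine (abs_add_le _ _).trans ?_
    have v1 := abs_add_le ((ga g z' - ga g z) * p') ((gb g z' - gb g z) * q')
    have v2 := abs_add_le ((ga g z - a) * (p' - p)) ((gb g z - b) * (q' - q))
    linarith only [u1, u2, u3, u4, u5, v1, v2]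
  · have d0 : 0 ≤ d := (mul_nonneg hb (abs_nonneg _)).trans hq
    obtain ⟨σ, hσ, hF⟩ := hF
    obtain ⟨η, hη, -, h3⟩ := st0_mvt (f := ga g) h.conv
      (fun y hy => mg_smooth (h.sm y hy) (0, 1, 0)) hz hz'
    obtain sp : z' - z = ((0, z'.2.1 - z.2.1, 0) : R3) + (z'.1 - z.1, 0, z'.2.2 - z.2.2) := by
      ext <;> simp
    rw [sp, map_add, (mg g U N a b m dl ρ h η hη).2.2.2.2.1] at h3
    set G := iteratedFDeriv ℝ 2 g η ![(0, 1, 0), (0, 1, 0)] with hG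
    obtain g1 : 3 / 4 * L ≤ |G| := by
      have h4 := hF η hη
      rcases hσ with rfl | rfl
      · exact h4.trans (by rw [one_mul]; exact le_abs_self _)
      · exact h4.trans (by rw [neg_one_mul]; exact neg_le_abs _)
    set R := fderiv ℝ (ga g) η (z'.1 - z.1, 0, z'.2.2 - z.2.2) with hR
    obtain g2 : |R| ≤ m * (b * |z'.2.2 - z.2.2| + dl * |z'.1 - z.1|) := by
      have h4 := st0_d2 h hη (0, 1, 0) (z'.1 - z.1, 0, z'.2.2 - z.2.2)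
      rw [pg_ea, mul_one] at h4
      refine h4.trans (mul_le_mul_of_nonneg_left ?_ hm)
      simpa using pg_le_sum hd hb (z'.1 - z.1, 0, z'.2.2 - z.2.2)
    obtain u2 : |(gb g z' - gb g z) * q'| ≤ m * pg dl b (z' - z) * d := by
      rw [abs_mul]
      calc _ ≤ m * b * pg dl b (z' - z) * |q'| := mul_le_mul_of_nonneg_right hB (abs_nonneg _)
        _ = m * pg dl b (z' - z) * (b * |q'|) := by ring
        _ ≤ _ := mul_le_mul_of_nonneg_left hq (mul_nonneg hm hP)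
    obtain u3 : |gb g z * (q' - q)| ≤ 2 * b * |q' - q| := by
      rw [abs_mul]
      refine mul_le_mul_of_nonneg_right ?_ (abs_nonneg _)
      have h4 := abs_le.1 (h.hb z hz)
      have h5 : ρ * b ≤ 1 / 2 * b := mul_le_mul_of_nonneg_right h.ρ1 hb
      exact abs_le.2 ⟨by linarith only [hb, h4, h5], by linarith only [hb, h4, h5]⟩
    have u5 := mul_le_mul_of_nonneg_left hS (mul_nonneg hm d0)
    obtain w0 : 0 ≤ b * |z'.2.2 - z.2.2| + dl * |z'.1 - z.1| := by (clear * - hb hd; positivity)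
    have u6 : m * d * (b * |z'.2.2 - z.2.2| + dl * |z'.1 - z.1|)
        ≤ m * (b * |z'.2.2 - z.2.2| + dl * |z'.1 - z.1|) :=
      mul_le_mul_of_nonneg_right (mul_le_of_le_one_right hm d1) w0
    have u7 : m * d * |z'.2.1 - z.2.1| ≤ L / 4 * |z'.2.1 - z.2.1| :=
      mul_le_mul_of_nonneg_right hL (abs_nonneg _)
    obtain u8 : 3 / 4 * L * |z'.2.1 - z.2.1| ≤ |G * (z'.2.1 - z.2.1)| := by
      rw [abs_mul]; exact mul_le_mul_of_nonneg_right g1 (abs_nonneg _)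
    obtain e1 : G * (z'.2.1 - z.2.1) = (ga g z' + gb g z' * q' - (ga g z + gb g z * q))
        - R - (gb g z' - gb g z) * q' - gb g z * (q' - q) := by linarith only [h3]
    have v1 := abs_sub (ga g z' + gb g z' * q' - (ga g z + gb g z * q) - R
      - (gb g z' - gb g z) * q') (gb g z * (q' - q))
    have v2 := abs_sub (ga g z' + gb g z' * q' - (ga g z + gb g z * q) - R)
      ((gb g z' - gb g z) * q')
    have v3 := abs_sub (ga g z' + gb g z' * q' - (ga g z + gb g z * q)) R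
    rw [e1] at u8
    linarith only [g2, u2, u3, u5, u6, u7, u8, v1, v2, v3]

end
end Pool.Agent.MP_9cbfe4_an.SS

end

/-! ### Part SCI -/

section

/-! Section S, counting half: `Cls.loc` and `Cls.low` from two comparison properties of labels. -/

namespace Pool.Agent.MP_9cbfe4_an

open Finset Filter Topology

noncomputable section

open Classical in
/-- the body of `Tame` -/
def Sq.TameW (c : Cs) (S : Sq) (ξ : ℤ → ℝ) (n : ℤ) (y : ℝ) (s : ℤ) (w A : ℤ → ℝ) (Rg : Finset ℤ) :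
    Prop :=
  0 ≤ s ∧ s ≤ n ∧
    S.chi c (s + 1) n < y ∧ (y ≤ S.chi c s n ∨ (s = 0 ∧ ξ (-1) = 0)) ∧
    S.Cert c (15 / 1000) w A s n ∧ S.Maj ξ 1 w s n ∧ 0 < w (s - 1) ∧ w n ≤ 4 * |ξ n| ∧
    (∀ i j, s - 1 ≤ i → i < j → j ≤ n →
      w i ≤ Real.exp (3 * c.a * (S.chi c i n + 2 * c.bl)) * w j ∧
      S.PB c (15 / 1000) i j * w i ≤
        Real.exp (3 * c.a * (S.chi c i n + 2 * c.bl) - (1 - 3 * c.a) * S.chi c i j) * w j ∧
      S.Bc c w i j ≤ Real.exp (3 * c.a * (S.chi c i n + 2 * c.bl))) ∧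
    (∀ i, s ≤ i → i < n →
      S.PB c (15 / 1000) i n * w i ≤ 100 * Real.exp (-(1 - 3 * c.a) * S.chi c i n) * w n ∧
      w i ≤ 100 * Real.exp (3 * c.a * S.chi c i n) * w n ∧
      S.Bc c w i n ≤ c.lam * Real.exp (3 * c.a * S.chi c i n)) ∧
    Rg ⊆ Ico s n ∧
    (∀ i ∈ Rg, dP (S.X i) ≤ 2 * c.w0 ∧ w i ≤ 4 * |ξ i| ∧ A (i + 1) ≤ c.lam * w i) ∧
    (((Ico s n).filter fun i => i ∉ Rg ∧ (i - 1 ∈ Rg ∨ i = s)).card : ℝ) ≤ 4 * (y / c.bl + 3) ∧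
    Real.log (A s / w s) + ∑ i ∈ Ico s n \ Rg, Real.log (A (i + 1) / A i) ≤
      20 * c.a * (y + 2 * c.bl) ∧ w s ≤ A s

theorem Sq.Tame.ex {c : Cs} {S : Sq} {ξ : ℤ → ℝ} {n : ℤ} {y : ℝ} (h : S.Tame c ξ n y)
    (hy : c.bl / 4 < y) : ∃ s w A Rg, S.TameW c ξ n y s w A Rg :=
  h.2.2.resolve_left (not_le.2 hy)

open Classical in
/-- `TW` without the clauses on the length of the window -/
structure TW0 (c : Cs) (M : Mdl) (ρ t : ℝ) (S : Sq) (ξ w A : ℤ → ℝ) (Rg : Finset ℤ) (N : ℤ) : Prop where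
  ht : TI t
  orb : IsOrb c M t S 0
  N0 : 0 ≤ N
  Nle : (N : ℝ) + 2 ≤ c.E ρ 1
  box : ∀ j, -1 ≤ j → |S.X j| ≤ 2 * c.L - 1
  core : ∀ j, -1 ≤ j → dP (S.X (j + 1)) < 5 / 100 → dP (S.X j) < 5 / 100 →
    dP (S.X j) ≤ (1 - 3 * c.e0 / 4) * c.w0
  cert : S.Cert c (15 / 1000) w A 0 N
  maj : S.Maj ξ 1 w 0 N
  w0 : w 0 = 1
  lo : 1 ≤ A 0
  wN : w N ≤ 4 * |ξ N|
  far : 2 / 100 ≤ dP (S.X N)
  pw : ∀ i j, -1 ≤ i → i < j → j ≤ N → w i ≤ c.E ρ 40 * w j ∧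
    S.PB c (15 / 1000) i j * w i ≤ c.E ρ 40 * Real.exp (-(1 - 3 * c.a) * S.chi c i j) * w j ∧
    S.Bc c w i j ≤ c.E ρ 40
  sub : Rg ⊆ Ico 0 N
  reg : ∀ i ∈ Rg, dP (S.X i) ≤ 2 * c.w0 ∧ w i ≤ 4 * |ξ i| ∧ A (i + 1) ≤ c.lam * w i
  runs : (((Ico 0 N).filter fun i => i ∉ Rg ∧ (i - 1 ∈ Rg ∨ i = 0)).card : ℝ) ≤ 41 * ρ / c.bl
  cost : Real.log (A 0) + ∑ i ∈ Ico 0 N \ Rg, Real.log (A (i + 1) / A i) ≤ 142 * (c.a * ρ)

def YBVP0_s (c : Cs) : Prop := ∀ M : Mdl, M.OK c → ∀ ρ t S ξ w A Rg N t' p d, c.bl / 3 ≤ ρ →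
  TW0 c M ρ t S ξ w A Rg N → 1 ≤ N → NearL c ρ t S ξ t' p d →
  ∃ v, |v| ≤ c.E ρ (-580) ∧ IsOrb c M t' (M.lo t' p d v) 1 ∧
    ∀ j, 0 ≤ j → j ≤ N → |(M.lo t' p d v).X j - S.X j| ≤ c.E ρ (-700)

def YTR0_s (c : Cs) : Prop := ∀ M : Mdl, M.OK c → ∀ ρ t S ξ w A Rg N t' p d v, c.bl / 3 ≤ ρ →
  TW0 c M ρ t S ξ w A Rg N → 1 ≤ N → NearL c ρ t S ξ t' p d → |v| ≤ c.E ρ (-580) →
  IsOrb c M t' (M.lo t' p d v) 1 →
  (∀ j, 0 ≤ j → j ≤ N → |(M.lo t' p d v).X j - S.X j| ≤ c.E ρ (-700)) →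
  SW c M ρ t' p d v w (fun j => 2 * A j) (Rg.erase 0) N

open Classical in
/-- number of codes without signs -/
def YCNT0_s : Prop := ∀ (N : ℤ) (R Dm x : ℝ), 0 ≤ N → 0 ≤ R → 0 < x → x ≤ 1 →
  ∃ T : Finset (Finset ℤ × (ℤ → ℕ)),
    (T.card : ℝ) ≤ Real.exp (x * N + 2 * R * Real.log (1 / x) + Real.log 2 * (3 * R + Dm)) ∧
    ∀ (Rg : Finset ℤ) (D : ℤ → ℕ), Rg ⊆ Ico 1 N →
      (((Ico 1 N).filter fun i => i ∉ Rg ∧ (i - 1 ∈ Rg ∨ i = 1)).card : ℝ) ≤ R →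
      (∀ i, D i ≠ 0 → i ∈ Ico 1 N ∧ i ∉ Rg ∧ i - 1 ∈ Rg) → (∑ i ∈ Ico 1 N, (D i : ℝ)) ≤ Dm →
      (Rg, D) ∈ T

/-- few classes; inside a class the signs at the regular indices determine the window -/
def Y4_s (c : Cs) : Prop := ∀ M : Mdl, M.OK c → ∀ (ρ : ℝ) (Z : Type) (t : Z → ℝ) (S : Z → Sq)
  (ξ w A : Z → ℤ → ℝ) (Rg : Z → Finset ℤ) (N : Z → ℤ), c.bl / 3 ≤ ρ →
  (∀ z, TW0 c M ρ (t z) (S z) (ξ z) (w z) (A z) (Rg z) (N z)) →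
  (∀ z z', |t z' - t z| ≤ 2 * c.E ρ (-1000)) → (∀ z, (N z : ℝ) ≤ 3 * ρ) →
  ∃ (n : ℕ) (cl : Z → Fin n), (n : ℝ) ≤ c.E ρ 4200 ∧ ∀ z z', cl z = cl z' →
    N z' = N z ∧ (Rg z').erase 0 = (Rg z).erase 0 ∧
    ((∀ i ∈ (Rg z).erase 0, 0 < (S z).X i ↔ 0 < (S z').X i) →
      ∀ j, 0 ≤ j → j ≤ N z → |(S z').X j - (S z).X j| ≤ c.E ρ (-500))

/-- every final part `[i, n]` of a tame window is a window -/
def SUBW_s (c : Cs) : Prop := ∀ M : Mdl, M.OK c → ∀ y ρ t v ξ n s w A Rg i, c.bl / 4 < y → 3 * y ≤ ρ →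
  TI t → v ∈ Set.Icc (0 : ℝ) 100 → 2 / 100 ≤ dP ((M.O t v).X n) →
  (M.O t v).TameW c ξ n y s w A Rg → s ≤ i → i ≤ n →
  ∃ A' Rg', TW0 c M ρ t ((M.O t v).shift i) (fun j => ξ (j + i) / w i) (fun j => w (j + i) / w i)
    A' Rg' (n - i) ∧ (∀ j ∈ Rg', j + i ∈ Rg) ∧ ((n - i : ℤ) : ℝ) ≤ 3 * ρ

/-- position `j` steps before the fold -/
def Fd.Xo (φ : Fd) (M : Mdl) (j : ℕ) : ℝ := (φ.S M).X (φ.n - j)
/-- true contraction over the last `j` steps -/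
def Fd.ko (φ : Fd) (M : Mdl) (w : ℤ → ℝ) (j : ℕ) : ℝ := (φ.S M).kp w (φ.n - j) φ.n

/-- a family of data with windows of the same length `N` -/
structure WinF (c : Cs) (M : Mdl) (y tU : ℝ) {Z : Type} (φ : Z → Fd) (s : Z → ℤ) (w A : Z → ℤ → ℝ)
    (Rg : Z → Finset ℤ) (N : ℕ) : Prop where
  y_lo : c.bl / 4 < y
  ht : ∀ z, TI (φ z).t ∧ |(φ z).t - tU| ≤ c.rU y
  hv : ∀ z, (φ z).v ∈ Set.Icc (0 : ℝ) 100
  far : ∀ z, 2 / 100 ≤ dP (((φ z).S M).X (φ z).n)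
  tame : ∀ z, ((φ z).S M).TameW c (φ z).ξ (φ z).n y (s z) (w z) (A z) (Rg z)
  len : ∀ z, (φ z).n - s z = N

/-- `Y4_s` for the last `k z` steps of the windows -/
def Y5_s (c : Cs) : Prop := ∀ M : Mdl, M.OK c → ∀ (y tU : ℝ) (Z : Type) (φ : Z → Fd) (s : Z → ℤ)
  (w A : Z → ℤ → ℝ) (Rg : Z → Finset ℤ) (N : ℕ) (k : Z → ℕ), WinF c M y tU φ s w A Rg N →
  (∀ z, k z ≤ N) → ∃ (n : ℕ) (cl : Z → Fin n) (R : Fin n → Finset ℕ),
    (n : ℝ) ≤ Real.exp (Real.sqrt c.a * y / 20) ∧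
    (∀ z, ∀ j ∈ R (cl z), j < k z ∧ (φ z).n - j ∈ Rg z) ∧ ∀ z z', cl z = cl z' → k z' = k z ∧
      ((∀ j ∈ R (cl z), 0 < (φ z).Xo M j ↔ 0 < (φ z').Xo M j) → ∀ j ≤ k z,
        |(φ z').Xo M j - (φ z).Xo M j| ≤ Real.exp (-(Real.sqrt c.a * y / 200)))

/-- labels that measure the distance of histories -/
structure LabF (c : Cs) (M : Mdl) (y tU : ℝ) {Z : Type} (φ : Z → Fd) (s : Z → ℤ) (w A : Z → ℤ → ℝ)
    (Rg : Z → Finset ℤ) (N : ℕ) (lab : Z → ℝ) : Prop extends WinF c M y tU φ s w A Rg N where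
  /-- close histories have close labels -/
  up : ∀ z z' (k : ℕ), k ≤ N →
    (∀ j ≤ k, |(φ z').Xo M j - (φ z).Xo M j| ≤ Real.exp (-(Real.sqrt c.a * y / 200))) →
    |lab z' - lab z| ≤ Real.exp (Real.sqrt c.a * y / 4) * (φ z).ko M (w z) k + tiny y / 4
  /-- the same for truncated histories -/
  upT : ∀ z z', ((φ z).S M).chi c (s z) (φ z).n < y →
    (∀ j ≤ N, |(φ z').Xo M j - (φ z).Xo M j| ≤ Real.exp (-(Real.sqrt c.a * y / 200))) →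
    |lab z' - lab z| ≤ tiny y / 4
  /-- close labels have close histories -/
  sep : ∀ z z' (k : ℕ), k ≤ N →
    (∀ j ≤ k, Real.exp (Real.sqrt c.a * y / 4) * (|lab z' - lab z| + tiny y) ≤ (φ z).ko M (w z) j) →
    |(φ z').Xo M k - (φ z).Xo M k| ≤ 1

/-- `Cls.loc` -/
def CLOC_s (c : Cs) : Prop := ∀ M : Mdl, M.OK c → ∀ (y tU : ℝ) (Z : Type) (φ : Z → Fd) (s : Z → ℤ)
  (w A : Z → ℤ → ℝ) (Rg : Z → Finset ℤ) (N : ℕ) (lab : Z → ℝ), LabF c M y tU φ s w A Rg N lab →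
  ∀ x l1 l2 : ℝ, tiny y ≤ l2 → l2 ≤ l1 →
    CovI {u | u ∈ Set.Icc x (x + l1) ∧ ∃ z, lab z = u} (c.S0 y * (l1 / l2) ^ c.dpl) l2

/-- `Cls.low` -/
def CLOW_s (c : Cs) : Prop := ∀ M : Mdl, M.OK c → ∀ (y tU : ℝ) (Z : Type) (φ : Z → Fd) (s : Z → ℤ)
  (w A : Z → ℤ → ℝ) (Rg : Z → Finset ℤ) (N : ℕ) (lab : Z → ℝ), LabF c M y tU φ s w A Rg N lab →
  ∀ l : ℝ, 0 ≤ l → CovI {u | ∃ z, ((φ z).S M).load c (φ z).n (y / c.C0) ≤ l ∧ lab z = u}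
    (c.S0 y * 2 ^ l) (tiny y)

end
end Pool.Agent.MP_9cbfe4_an

end

/-! ### Part PRI -/

section

/-! Profiles of data: definition, count, and the input of `CC_s` (helper26). -/

namespace Pool.Agent.MP_9cbfe4_an

open Finset Filter Topology MeasureTheory

noncomputable section

/-- for each relative free time: `⌊W⌋`, `⌊log w⌋`, rounded depth, kind (`0` none, `1` K, `2` R) -/
abbrev Prof := List (ℤ × ℤ × ℤ × ℕ × ℕ)

namespace Prof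
variable (c : Cs) (π : Prof)
def get (k : ℤ) : ℤ × ℤ × ℕ × ℕ := (List.lookup k π).getD (0, 0, 0, 0)
/-- relative free times -/
def T : Finset ℤ := (List.map Prod.fst π).toFinset
def Wr (k : ℤ) : ℝ := (π.get k).1
def lw (k : ℤ) : ℝ := (π.get k).2.1
def sr (k : ℤ) : ℕ := (π.get k).2.2.1
def kind (k : ℤ) : ℕ := (π.get k).2.2.2
def Ev : Finset ℤ := π.T.filter fun k => π.kind k ≠ 0
def kd (k : ℤ) : Bool := decide (π.kind k = 2)
def rr (k : ℤ) : ℝ := (π.sr k : ℝ) - 1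
def a (k : ℤ) : ℝ :=
  (if π.kind k = 2 then max (π.Wr k) (π.lw k) else π.Wr k) + 1 + 5 * Real.log c.lam
def b (k : ℤ) : ℝ := π.lw k + (if π.kind k = 2 then π.rr k else 0) - 10
/-- the part of the window `[u, u']` covered by events (`FM.ovl` unfolded) -/
def Loc (u u' : ℝ) : ℝ := ∑ k ∈ π.Ev, max 0 (min (π.b k) u' - max (π.a c k) u)
end Prof

namespace Dat
variable (c : Cs) (M : Mdl) (d : Dat)
/-- all free times with their depths, the final one first -/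
def Lf : List (ℤ × ℝ) := (d.p, d.r) :: d.Ls
def evx (x : ℤ × ℝ) : ℝ := (d.S M).ev c (d.toFd.f M) (d.n + 1) x.1 x.2
open Classical in
def ent (x : ℤ × ℝ) : ℤ × ℤ × ℕ × ℕ :=
  (⌊d.toFd.W c M x.1⌋, ⌊Real.log |d.toFd.f M x.1|⌋, if c.cc ≤ x.2 then ⌈x.2⌉₊ else 0,
    if 0 < d.evx c M x then (if c.cc ≤ x.2 then 2 else 1) else 0)
def prof : Prof := d.Lf.map fun x => (x.1 - d.n, d.ent c M x)
end Dat

/-- row PRC: the number of profiles -/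
def PRC_s (K : ℕ) (c : Cs) : Prop := First K c → ∀ M : Mdl, M.OK c → ∀ k : ℝ, 0 ≤ k →
  ∃ T : Finset Prof, (T.card : ℝ) ≤ Real.exp (400 * c.del * (k + c.lam)) ∧
    ∀ d : Dat, d.Pre c (Ex2 K c M) M → d.V c M ≤ k → d.prof c M ∈ T

/-- row PRD: what the profile says about the datum -/
def PRD_s (c : Cs) : Prop := ∀ Ex (M : Mdl) (d : Dat) (π : Prof), M.OK c → d.Pre c Ex M →
  π = d.prof c M →
  (∀ k, k ∈ π.T ↔ ∃ x ∈ d.Lf, x.1 = d.n + k) ∧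
  (∀ x ∈ d.Lf, π.get (x.1 - d.n) = d.ent c M x) ∧
  (∀ k ∈ π.T, π.Wr k ≤ d.toFd.W c M (d.n + k) ∧ d.toFd.W c M (d.n + k) ≤ π.Wr k + 1 ∧
    π.lw k ≤ Real.log |d.toFd.f M (d.n + k)| ∧ Real.log |d.toFd.f M (d.n + k)| ≤ π.lw k + 1 ∧
    1 ≤ k ∧ k ≤ d.p - d.n ∧ 0 ≤ π.Wr k) ∧
  (1 ∈ π.T ∧ π.Wr 1 = 0 ∧ d.p - d.n ∈ π.T) ∧
  (∀ k ∈ π.T, ∀ k' ∈ π.T, k < k' → π.Wr k ≤ π.Wr k' ∧ (k ∈ π.Ev → π.b k ≤ π.Wr k' - 8)) ∧
  (∀ k ∈ π.Ev, 0 ≤ π.a c k ∧ π.a c k ≤ π.b k ∧ π.b k ≤ d.V c M - 9 ∧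
    (π.kd k = true → 5 / 100 ≤ dP ((d.S M).X (d.n + k)))) ∧
  (∀ k ∈ π.Ev, ∀ k' ∈ π.Ev, k < k' → π.b k ≤ π.a c k') ∧
  (1 - 7 * c.e3) * d.ev c M ≤ ∑ k ∈ π.Ev, (π.b k - π.a c k) ∧
  (c.cc * π.Ev.card ≤ d.ev c M ∧ d.ev c M ≤ 2 * d.V c M ∧
    (d.Lf.length : ℝ) ≤ 10 * d.V c M / c.lam + 12) ∧
  ∀ j ∈ π.T, ∀ u u', π.Wr j ≤ u → ∀ E ⊆ π.Ev,
    d.toFd.CCD c Ex M j (Real.exp (π.lw j)) u u' E (π.a c) π.b π.lw π.rr π.kd

end
end Pool.Agent.MP_9cbfe4_an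

end

/-! ### Part FR -/

section

/-! Row FR: the free times of a datum; the seed of a high datum is near. -/

namespace Pool.Agent.MP_9cbfe4_an
open Finset Filter Topology
namespace FR
noncomputable section
open EEL

variable {c : Cs} {Ex : ExT} {S : Sq} {ξ : ℤ → ℝ} {n : ℤ}

/-- the steps of a bound run, with the prefix list and the next free time -/
theorem pre2 (hB : B1_s c) (ok : S.OK c) (hn : 0 ≤ n) (Ls : List (ℤ × ℝ)) :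
    ∀ m r, S.Run c Ex (S.fr (n + 1)) (n + 1) (S.PBd c Ex ξ n) Ls m →
    ∀ x ∈ Ls, ∃ L, ∃ y ∈ (m, r) :: Ls, S.Run c Ex (S.fr (n + 1)) (n + 1) (S.PBd c Ex ξ n) L x.1 ∧
      S.PBd c Ex ξ n L x.1 x.2 ∧ S.Step c Ex (S.fr (n + 1)) (n + 1) x.1 x.2 y.1 ∧ y.1 ≤ m ∧
      (∀ z ∈ Ls, x.1 < z.1 → y.1 ≤ z.1) ∧ ∀ z ∈ Ls, z.1 < x.1 → z ∈ L := by
  induction Ls with
  | nil => simp
  | cons x0 Ls ih =>
    obtain ⟨n1, r1⟩ := x0
    intro m r run x hx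
    obtain ⟨run', pb, lt, -⟩ := Sq.Run.tail _ _ run
    have ih1 := ih n1 r1 run'
    obtain lo : ∀ y ∈ Ls, y.1 < n1 := fun y hy => by
      obtain ⟨_, _, -, -, -, st, le, -⟩ := ih1 y hy
      exact st.lt.trans_le le
    rcases List.mem_cons.1 hx with rfl | hx
    · have ch := ((hB Ex S ok).1 _ _ _ _ _ (st_fr hn) run).1
      cases ch with
      | cons _ st _ =>
        refine ⟨Ls, (m, r), List.mem_cons_self, run', pb, st, le_rfl, fun y hy lt' => ?_,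
          fun y hy lt' => ?_⟩
        · rcases List.mem_cons.1 hy with rfl | hy
          · exact absurd lt' (lt_irrefl _)
          · exact absurd (lo y hy) (not_lt.2 lt'.le)
        · rcases List.mem_cons.1 hy with rfl | hy
          · exact absurd lt' (lt_irrefl _)
          · exact hy
    · obtain ⟨L, y, hy, a1, a2, a3, a4, a5, a6⟩ := ih1 x hx
      refine ⟨L, y, List.mem_cons_of_mem _ hy, a1, a2, a3, a4.trans lt.le, fun z hz lt' => ?_,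
        fun z hz lt' => ?_⟩
      · rcases List.mem_cons.1 hz with rfl | hz
        · exact a4
        · exact a5 z hz lt'
      · rcases List.mem_cons.1 hz with rfl | hz
        · exact absurd (lo x hx) (not_lt.2 lt'.le)
        · exact a6 z hz lt'

/-- the two kinds of events -/
theorem kind0 (h : Par c) (hB : B1_s c) (ok : S.OK c) {s m : ℤ} {r : ℝ} (o : S.Out c ξ m)
    (w : S.Wit c Ex ξ m r) (he : 0 < S.ev c ξ s m r) :
    (c.cc ≤ r ∧ S.ev c ξ s m r = r ∧ S.sg c ξ s m ≤ c.e3 * r ∧ 5 / 100 ≤ dP (S.X m)) ∨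
    (r < c.cc ∧ -1 ≤ r ∧ S.ev c ξ s m r = c.lam ∧ dP (S.X m) < 5 / 100 ∧
      S.sig c ξ s m ≤ -(1 - 5 * c.e3) * c.lam) := by
  have e3 := h.e3p
  have cc := h.cc
  have hl := h.lam
  by_cases a : S.sg c ξ s m / c.e3 + c.cc ≤ r
  · left
    have s0 : 0 ≤ S.sg c ξ s m := le_max_right _ _
    have s1 : 0 ≤ S.sg c ξ s m / c.e3 := div_nonneg s0 e3.le
    obtain s2 : S.sg c ξ s m ≤ c.e3 * r := by
      obtain this : S.sg c ξ s m / c.e3 ≤ r := by linarith only [cc, a]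
      rwa [div_le_iff₀ e3, mul_comm] at this
    exact ⟨by linarith only [a, s1], by unfold Sq.ev; rw [if_pos a], s2, far_of_wit h hB ok o w (by linarith only [cc, a, s1])⟩
  · right
    unfold Sq.ev at he ⊢
    rw [if_neg a] at he ⊢
    split_ifs at he ⊢ with b
    · obtain z : S.sg c ξ s m = 0 := max_eq_right (by nlinarith only [hl, e3, b.2.2, h.e3s])
      rw [z, zero_div, zero_add] at a
      exact ⟨not_le.1 a, b.1, rfl, b.2.1, b.2.2⟩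
    · exact absurd he (lt_irrefl _)

theorem chi_bl (h : Par c) {L : List (ℤ × ℝ)} {m : ℤ} (bi : S.BInv c n L m) (hm : n < m) :
    c.bl ≤ S.chi c n m := by
  obtain a : S.chi c n (n + 1) = c.bl := by
    rw [S.chi_succ]; unfold Sq.ch1; rw [bi.kz.1]; ring
  rw [← a]
  exact S.chi_mono c h.ch0.le h.chb le_rfl (by omega)

theorem W_next {s m p : ℤ} {r : ℝ} (st : S.Step c Ex ξ s m r p) (h0 : ξ m ≠ 0) :
    S.WW c ξ s p ≤ S.Wt c ξ s m r + 5 := by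
  have A0 : 0 < S.AA c ξ s m := lt_of_lt_of_le one_pos (S.one_le_AA c _ _ _)
  have A1 : 0 < S.AA c ξ s p := lt_of_lt_of_le one_pos (S.one_le_AA c _ _ _)
  have a1 : S.AA c ξ s m ≤ Real.exp (S.Wt c ξ s m r) :=
    (Real.log_le_iff_le_exp A0).1 (le_max_left _ _)
  obtain a2 : |ξ m| * Real.exp r ≤ Real.exp (S.Wt c ξ s m r) := by
    rw [← Real.exp_log (abs_pos.2 h0), ← Real.exp_add]
    exact Real.exp_le_exp.2 (le_max_right _ _)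
  obtain e5 : (101 : ℝ) ≤ Real.exp 5 := by
    have := Real.exp_one_gt_d9
    obtain e : Real.exp 5 = Real.exp 1 ^ 5 := by rw [← Real.exp_nat_mul]; norm_num
    rw [e]
    calc (101 : ℝ) ≤ 2.7 ^ 5 := by norm_num
      _ ≤ _ := pow_le_pow_left₀ (by norm_num) (by linarith only [this]) 5
  unfold Sq.WW
  rw [Real.log_le_iff_le_exp A1, Real.exp_add]
  nlinarith only [a1, a2, A0, e5, st.A_hi, Real.exp_pos (S.Wt c ξ s m r)]

/-- `ρ` at another free horizon of large contraction -/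
theorem rho_sq (ha : c.a ≤ 1 / 4) (hc : 1 ≤ c.cb * c.L) (hR : RHO_s c) (ok : S.OK c)
    (o : S.Out c ξ n) {L L' : List (ℤ × ℝ)} {p j : ℤ} {V : ℝ} (hV : 0 ≤ V)
    (rp : S.RInv c (S.fr (n + 1)) (n + 1) p) (bp : S.BInv c n L p)
    (rj : S.RInv c (S.fr (n + 1)) (n + 1) j) (bj : S.BInv c n L' j)
    (hp : 4 * V ≤ S.chi c n p) (hj : 4 * V ≤ S.chi c n j)
    (bd : S.rho ξ n p ^ 2 * Real.exp V ≤ c.cb * c.L) :
    S.rho ξ n j ^ 2 * Real.exp V ≤ 4 * (c.cb * c.L) := by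
  obtain d : |S.rho ξ n j - S.rho ξ n p| ≤ Real.exp (-V) := by
    rcases le_total j p with le | le
    · refine ((hR S ξ n L p ok o rp bp).2 j rj.le le rj.whm).trans (Real.exp_le_exp.2 ?_)
      nlinarith only [hV, hj, ha]
    · rw [abs_sub_comm]
      refine ((hR S ξ n L' j ok o rj bj).2 p rp.le le rp.whm).trans (Real.exp_le_exp.2 ?_)
      nlinarith only [hV, hp, ha]
  have e0 := Real.exp_pos V
  obtain e1 : Real.exp (-V) * Real.exp V = 1 := by rw [← Real.exp_add]; simp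
  obtain e2 : Real.exp (-V) ≤ 1 := Real.exp_le_one_iff.2 (by linarith only [hV])
  obtain d2 : (S.rho ξ n j - S.rho ξ n p) ^ 2 ≤ Real.exp (-V) := by
    have := sq_le_sq' (abs_le.1 d).1 (abs_le.1 d).2
    nlinarith only [e2, e0, this, e1, Real.exp_pos (-V)]
  obtain d3 : (S.rho ξ n j - S.rho ξ n p) ^ 2 * Real.exp V ≤ 1 := by nlinarith only [e1, e0, d2]
  obtain d4 : S.rho ξ n j ^ 2 ≤ 2 * S.rho ξ n p ^ 2 + 2 * (S.rho ξ n j - S.rho ξ n p) ^ 2 := by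
    linarith only [sq_nonneg (S.rho ξ n j - 2 * S.rho ξ n p)]
  linarith only [hc, bd, d3, mul_le_mul_of_nonneg_right d4 e0.le]

theorem fr_of (K : ℕ) (h : Par c) (ha : c.a ≤ 1 / 4) (hc : 1 ≤ c.cb * c.L) (hS : SOK_s c)
    (hB : B1_s c) (hR : RHO_s c) : FR_s K c := by
  intro Ex M d hM v
  obtain ti : TI d.t := ⟨by linarith only [v.ht.1], by linarith only [v.ht.2]⟩
  have ok : (d.S M).OK c := ((hS M hM d.t ti).2.1 d.v v.hv).2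
  have hn := v.hn
  have hl := h.lam
  have run := v.run
  have WV : d.toFd.W c M d.p ≤ d.V c M := le_max_left _ _
  have W0 : 0 ≤ d.toFd.W c M d.p := WW_nonneg _ _ _
  have V0 : 0 ≤ d.V c M := W0.trans WV
  obtain tm := v.tame 0 (mul_nonneg (by linarith only [h.C0]) V0)
  have out : (d.S M).Out c d.ξ d.n := ⟨hn, v.sol, tm.1, tm.2.1⟩
  have rp : (d.S M).RInv c (d.toFd.f M) (d.n + 1) d.p :=
    ((hB Ex _ ok).1 _ _ _ _ _ (st_fr hn) run).2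
  have bp : (d.S M).BInv c d.n d.Ls d.p := (hB Ex _ ok).2.1 _ _ _ _ _ out run v.bd
  have p1 := pre2 hB ok hn d.Ls d.p d.r run
  obtain lo : ∀ y ∈ d.Ls, y.1 < d.p := fun y hy => by
    obtain ⟨_, _, -, -, -, st, le, -⟩ := p1 y hy
    exact st.lt.trans_le le
  refine ⟨fun x hx => ?_, List.pairwise_cons.2 ⟨lo, (pre hB ok hn d.Ls d.p run).2⟩,
    fun σ y s hσ hy fs sp ws cs => ?_⟩
  · rcases List.mem_cons.1 hx with rfl | hx
    · have o := out_fr h hn rp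
      refine ⟨⟨rp.le, le_rfl⟩, ⟨ti, v.hv, out, rp, _, bp⟩, ⟨_, run, v.bd, fun y hy _ => hy⟩, v.wit,
        ⟨le_max_right _ _, WV⟩, wle h ok hn rp, bp.sg_le, ⟨chi_bl h bp rp.le, bp.chi_ge⟩,
        fun hx => absurd (lo _ hx) (lt_irrefl _), fun y hy lt => ?_, kind0 h hB ok o v.wit⟩
      rcases List.mem_cons.1 hy with rfl | hy
      · exact absurd lt (lt_irrefl _)
      · exact absurd (lo y hy) (not_lt.2 lt.le)
    · obtain ⟨L, y, hy, a1, a2, st, a4, a5, a6⟩ := p1 x hx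
      have ri : (d.S M).RInv c (d.toFd.f M) (d.n + 1) x.1 :=
        ((hB Ex _ ok).1 _ _ _ _ _ (st_fr hn) a1).2
      have bi : (d.S M).BInv c d.n L x.1 := (hB Ex _ ok).2.1 _ _ _ _ _ out a1 a2.1
      have o := out_fr h hn ri
      refine ⟨⟨ri.le, (lo x hx).le⟩, ⟨ti, v.hv, out, ri, _, bi⟩, ⟨L, a1, a2.1, a6⟩, st.wit,
        ⟨st.A_lo.trans ((WW_mono _ _ a4).trans WV), (WW_mono _ _ (lo x hx).le).trans WV⟩,
        wle h ok hn ri, bi.sg_le, ⟨chi_bl h bi ri.le, bi.chi_ge⟩,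
        fun _ => ⟨st.r_lo, a2.2.c2, y, hy, st.lt, a5, W_next st ri.ne⟩, fun z hz lt => ?_,
        kind0 h hB ok o st.wit⟩
      rcases List.mem_cons.1 hz with rfl | hz
      · exact st.A_lo.trans (WW_mono _ _ a4)
      · exact st.A_lo.trans (WW_mono _ _ (a5 z hz lt))
  · obtain ⟨g, bg, e, leaf, cl⟩ := hσ.near
    obtain rU : 0 < c.rU y := by unfold Cs.rU Cs.S0; positivity
    obtain ⟨-, -, -, -, j1, -, j2⟩ := hσ.jets d.t ⟨by linarith only [rU], by linarith only [rU]⟩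
    obtain ⟨h1, -, ⟨LJ, rJ, br⟩, -⟩ := hσ.hor
    have rJ' : (d.S M).RInv c (d.toFd.f M) (d.n + 1) σ.J :=
      ((hB Ex _ ok).1 _ _ _ _ _ (st_fr hn) br.1).2
    have bJ : (d.S M).BInv c d.n LJ σ.J := (hB Ex _ ok).2.1 _ _ _ _ _ out br.1 br.2.1
    obtain ⟨Ls', bs⟩ := fs.binv
    have cp : 4 * d.V c M ≤ (d.S M).chi c d.n d.p :=
      cs.trans ((d.S M).chi_mono c h.ch0.le h.chb le_rfl sp)
    have q1 := rho_sq ha hc hR ok out V0 rp bp rJ' bJ cp (hy.trans h1) v.bd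
    have q2 := rho_sq ha hc hR ok out V0 rp bp fs.rinv bs cp cs v.bd
    obtain L0 : 0 < c.L := by linarith only [h.L]
    refine ⟨g, ?_, fs, ⟨?_, bg, j2⟩, leaf, ?_, ?_, (WW_mono _ _ sp).trans WV, ws, cs⟩
    · unfold Seed.orb Fd.R; rw [e]
    · unfold Box; linarith only [j1, L0]
    · obtain a : (c.L * |σ.c d.t - (d.S M).X d.n|) ^ 2 ≤ (3 * |(d.S M).rho d.ξ d.n σ.J|) ^ 2 :=
        pow_le_pow_left₀ (by (clear * - L0; positivity)) cl 2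
      rw [mul_pow, mul_pow, sq_abs, sq_abs] at a
      have b := mul_le_mul_of_nonneg_right a (Real.exp_pos (d.V c M)).le
      refine le_of_mul_le_mul_left (a := c.L) ?_ L0
      show c.L * (c.L * (σ.c d.t - (d.S M).X d.n) ^ 2 * Real.exp (d.V c M)) ≤ _
      linarith only [hc, q1, b]
    · show (d.S M).rho d.ξ d.n s ^ 2 * Real.exp (d.V c M) ≤ _
      linarith only [hc, q2]

end
end FR

theorem fr_row (K : ℕ) : Hier fun c => SOK_s c → B1_s c → RHO_s c → FR_s K c := by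
  obtain h4 := Hier.a_le (fun _ => 1 / 4) (fun _ _ _ _ _ _ => rfl) (Hier.of_all fun _ => by norm_num)
  have h5 := Hier.pow_le_exp (fun _ => 1) (fun _ => 1) 3 (fun _ _ => rfl) (fun _ _ => rfl)
    (Hier.of_all fun _ => one_pos)
  refine (EEL.par.and (h4.and h5)).mono fun c ⟨h, a, b⟩ => FR.fr_of K h a.2 ?_
  obtain L0 : 0 < c.L := by linarith [h.L]
  obtain l0 : 0 < c.lam := by linarith [h.lam]
  simp only [one_mul] at b
  have e : Real.exp c.lam = c.L := Real.exp_log L0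
  unfold Cs.cb
  rw [div_mul_eq_mul_div, one_mul, le_div_iff₀ (by positivity)]
  linarith only [b, e]

end Pool.Agent.MP_9cbfe4_an

end
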