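import Pool.Agent.MP_9cbfe4_an.M00
import Pool.Agent.MP_9cbfe4_an.M01
import Pool.Agent.Lib.Birkhoff.Pointwise

set_option linter.all false

attribute [-instance] AddQuantale.instAddLeftMono IdemSemiring.toCanonicallyOrderedAdd
  NumberField.to_charZero AddQuantale.instAddRightMono IdemSemiring.toMulLeftMono RKHS.instFunLike
  Quantale.instMulRightMono Quantale.instMulLeftMono IsOrderedCancelMonoid.toIsOrderedMonoid
  LinearOrderedCommMonoidWithZero.toPosMulStrictMono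
  Group.IsPerfect.subsingleton_of_isMulCommutative CanonicallyOrderedAdd.toMulLeftMono
  Valued.toUniformSpace IdemSemiring.toMulRightMono TotallySeparatedSpace.t2Space
  LinearOrderedCommMonoidWithZero.toIsOrderedMonoid IsScalarTower.complexToReal
  Order.Coframe.toCompleteLattice OmegaCompletePartialOrder.toPartialOrder Invertible.toNeZero
  GrpTypeEquivalenceGrp.grpGroup littleWedderburn CanonicallyOrderedMul.toMulLeftMono
  CoalgHomClass.toSemilinearMapClass TestFunctionClass.toDFunLike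
  ContDiffMapSupportedInClass.toDFunLike Order.Frame.toCompleteLattice RightPreLieAlgebra.toModule
  CategoryTheory.Limits.Concrete.instUniqueToTypeTerminal LeftPreLieAlgebra.toModule
  CStarAlgebra.instOrderClosedTopology IdemSemiring.toSemiring
  LieAdmissibleRing.toNonUnitalNonAssocRing NonUnitalAlgSemiHomClass.toDistribMulActionSemiHomClass
  CStarAlgebra.toNormedRing

/-! ### Part APB -/

section

/-! Row APB: the backward a priori estimate. -/

namespace Pool.Agent.MP_9cbfe4_an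
open Finset

namespace APB
variable {S : Sq} {E : ℕ} {ξ w μ Z : ℤ → ℝ} {s : ℤ}

theorem Pb_pos (H : S.HC E ξ w μ s) {i j : ℤ} (hi : s - 1 ≤ i) (hj : j ≤ 0) : 0 < S.Pb i j :=
  prod_pos fun l hl => H.bpos l (by have := (mem_Ioc.1 hl).1; omega) ((mem_Ioc.1 hl).2.trans hj)

theorem kp_pos (H : S.HC E ξ w μ s) {i j : ℤ} (hi : s - 1 ≤ i) (hij : i ≤ j) (hj : j ≤ 0) :
    0 < S.kp w i j :=
  div_pos (mul_pos (Pb_pos H hi hj) (H.wpos i hi (hij.trans hj))) (H.wpos j (hi.trans hij) hj)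

theorem kp_mul (H : S.HC E ξ w μ s) {l i : ℤ} (hl : s - 1 ≤ l) (hli : l ≤ i) (hi : i ≤ 0) :
    S.kp w l 0 = S.kp w l i * S.kp w i 0 := by
  have := (H.wpos i (hl.trans hli) hi).ne'
  unfold Sq.kp
  rw [S.Pb_mul hli hi]
  field_simp

theorem kp_le (H : S.HC E ξ w μ s) {i j : ℤ} (hi : s - 1 ≤ i) (hij : i ≤ j) (hj : j ≤ 0) :
    S.kp w i j ≤ μ j := by
  have h := H.kap 0 (Nat.zero_le _) i j hi hij hj
  obtain h1 : (3 / 4 : ℝ) ^ (j - i).toNat ≤ 1 := pow_le_one₀ (by norm_num) (by norm_num)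
  have h2 := H.big j (hi.trans hij) hj
  simp only [pow_zero, mul_one, zero_add, pow_one] at h
  nlinarith only [h1, h, h2]

theorem kp_b (H : S.HC E ξ w μ s) {i : ℤ} (hi : s ≤ i) (hi0 : i ≤ 0) :
    S.kp w i 0 * S.b i ≤ μ i * S.kp w (i - 1) 0 := by
  obtain h := H.fwd (i - 1) (by omega) (by omega)
  rw [sub_add_cancel] at h
  obtain e : S.Pb (i - 1) 0 = S.b i * S.Pb i 0 := by
    rw [S.Pb_mul (show i - 1 ≤ i by omega) hi0]
    have := S.Pb_one (i - 1)
    rw [sub_add_cancel] at this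
    rw [this]
  obtain w0 := H.wpos 0 (by have := H.s0; omega) le_rfl
  obtain p := mul_pos (H.bpos i hi hi0) (Pb_pos H (show s - 1 ≤ i by omega) le_rfl)
  unfold Sq.kp
  rw [e, div_mul_eq_mul_div, ← mul_div_assoc]
  refine div_le_div_of_nonneg_right ?_ w0.le
  linarith only [mul_le_mul_of_nonneg_left h p.le]

theorem sum_Ico_left (f : ℤ → ℝ) {l n : ℤ} (h : l < n) :
    ∑ i ∈ Ico l n, f i = f l + ∑ i ∈ Ico (l + 1) n, f i := by
  obtain this : Ico l n = insert l (Ico (l + 1) n) := by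
    ext m; simp only [mem_Ico, mem_insert]; omega
  rw [this, sum_insert (by simp)]

/-- the Wronskian, transported back from time `0` -/
theorem wr (H : S.HC E ξ w μ s) (h0 : Z 0 = 0) {l : ℤ} (hl : l ≤ -1) (hs : s - 1 ≤ l) :
    S.Pb l 0 * |ξ (l + 1) * Z l - ξ l * Z (l + 1)| ≤
      S.b 0 * |Z (-1)| + ∑ i ∈ Ico (l + 1) 0, S.Pb i 0 * w i * |S.df Z i| := by
  induction l, hl using Int.leInductionDown with
  | base =>
    have := S.Pb_one (-1)
    norm_num at this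
    simp [this, H.one, h0]
  | pred l hl ih =>
    obtain ih := ih (by omega)
    rw [sub_add_cancel, sum_Ico_left _ (show l < 0 by omega)]
    obtain e : S.Pb (l - 1) 0 = S.Pb l 0 * S.b l := by
      rw [S.Pb_mul (show l - 1 ≤ l by omega) (show l ≤ 0 by omega)]
      have := S.Pb_one (l - 1)
      rw [sub_add_cancel] at this
      rw [this, mul_comm]
    obtain bp := H.bpos l (by omega) (by omega)
    obtain pp := Pb_pos H (show s - 1 ≤ l by omega) le_rfl
    obtain e2 : S.b l * (ξ l * Z (l - 1) - ξ (l - 1) * Z l) =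
        -(ξ (l + 1) * Z l - ξ l * Z (l + 1)) - ξ l * S.df Z l := by
      rw [H.sol l (by omega) (by omega)]; unfold Sq.df; ring
    obtain h1 : S.b l * |ξ l * Z (l - 1) - ξ (l - 1) * Z l| ≤
        |ξ (l + 1) * Z l - ξ l * Z (l + 1)| + w l * |S.df Z l| := by
      rw [← abs_of_pos bp, ← abs_mul, e2]
      refine (abs_sub _ _).trans ?_
      rw [abs_neg, abs_mul]
      obtain this := mul_le_mul_of_nonneg_right (H.maj l (by omega) (by omega)) (abs_nonneg (S.df Z l))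
      linarith only [this]
    have h2 := mul_le_mul_of_nonneg_left h1 pp.le
    rw [e]
    linarith only [ih, h2]

/-- representation of `Z l` -/
theorem rep (H : S.HC E ξ w μ s) (h0 : Z 0 = 0) {l : ℤ} (hl : l ≤ -1) (hs : s - 1 ≤ l) :
    Z l = (ξ (l + 1) * Z l - ξ l * Z (l + 1)) * S.fr (l + 1) 0 -
      ξ l * ∑ i ∈ Ico (l + 1) 0, S.fr (i + 1) 0 * S.df Z i := by
  obtain h1 := S.voc (Z := Z) (q := S.df Z) (s := l + 1) (n := 0)
    (fun j _ _ => by unfold Sq.df; ring) (show l + 1 ≤ 0 by omega) le_rfl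
  obtain h2 := S.repr_on (ξ := ξ) (i := l + 1) (n := 0) (fun j a b => H.sol j (by omega) b)
    (show l + 1 ≤ 0 by omega) le_rfl
  rw [add_sub_cancel_right] at h1 h2
  rw [h0] at h1
  rw [H.one] at h2
  linear_combination Z l * h2 - ξ l * h1

/-- the main inequality -/
theorem main (H : S.HC E ξ w μ s) (h0 : Z 0 = 0) {Λ : ℝ} (hΛ : μ (s - 1) ≤ Λ) {l : ℤ}
    (hl : l ≤ -1) (hs : s - 1 ≤ l) :
    |Z l| * S.kp w l 0 ≤ Λ * (S.b 0 * |Z (-1)|) +
      8 * Λ ^ 3 * ∑ i ∈ Ico (l + 1) 0, S.kp w i 0 * |S.df Z i| := by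
  have mu : ∀ j, s - 1 ≤ j → j ≤ 0 → μ j ≤ Λ := fun j a b => (H.mono _ j le_rfl a b).trans hΛ
  obtain L1 : 1000 ≤ Λ := (H.big l hs (by omega)).trans (mu l hs (by omega))
  obtain w0 := H.wpos 0 (by omega) le_rfl
  obtain wl := H.wpos l hs (by omega)
  obtain kl := kp_pos H hs (show l ≤ 0 by omega) le_rfl
  have pl := Pb_pos H hs (le_refl 0)
  set T := ∑ i ∈ Ico (l + 1) 0, S.kp w i 0 * |S.df Z i| with hT
  obtain T0 : 0 ≤ T := sum_nonneg fun i hi => mul_nonneg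
    (kp_pos H (by have := (mem_Ico.1 hi).1; omega) (mem_Ico.1 hi).2.le le_rfl).le (abs_nonneg _)
  obtain a1 : |(ξ (l + 1) * Z l - ξ l * Z (l + 1)) * S.fr (l + 1) 0| * S.kp w l 0 ≤
      Λ * (S.b 0 * |Z (-1)|) + 4 * Λ * T := by
    have h1 := wr H h0 hl hs
    obtain e : ∑ i ∈ Ico (l + 1) 0, S.Pb i 0 * w i * |S.df Z i| = w 0 * T := by
      rw [hT, mul_sum]
      refine sum_congr rfl fun i _ => ?_
      unfold Sq.kp; field_simp
    rw [e] at h1
    obtain h2 : |S.fr (l + 1) 0| * w l / w 0 ≤ Λ := by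
      rw [div_le_iff₀ w0]
      exact (H.frle l 0 hs (by omega) le_rfl).trans
        (mul_le_mul_of_nonneg_right (mu l hs (by omega)) w0.le)
    obtain h3 := mul_le_mul h2 h1 (by (clear * - pl; positivity)) (by linarith only [L1])
    have h4 : w 0 * T ≤ 4 * T := mul_le_mul_of_nonneg_right H.w0 T0
    calc _ = |S.fr (l + 1) 0| * w l / w 0 *
          (S.Pb l 0 * |ξ (l + 1) * Z l - ξ l * Z (l + 1)|) := by
          rw [abs_mul]; unfold Sq.kp; ring
      _ ≤ _ := h3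
      _ ≤ _ := by nlinarith only [h4, L1]
  obtain a2 : |ξ l * ∑ i ∈ Ico (l + 1) 0, S.fr (i + 1) 0 * S.df Z i| * S.kp w l 0 ≤
      4 * Λ ^ 3 * T := by
    rw [mul_sum, hT, mul_sum]
    refine (mul_le_mul_of_nonneg_right (abs_sum_le_sum_abs _ _) kl.le).trans ?_
    rw [sum_mul]
    refine sum_le_sum fun i hi => ?_
    obtain ⟨i1, i2⟩ := mem_Ico.1 hi
    obtain wi := H.wpos i (by omega) i2.le
    obtain ki := kp_pos H (show s - 1 ≤ i by omega) i2.le le_rfl
    obtain b1 : |ξ l| ≤ Λ * w i := ((H.maj l hs (by omega)).trans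
      (H.wle l i hs (by omega) i2.le)).trans (mul_le_mul_of_nonneg_right (mu l hs (by omega)) wi.le)
    obtain b2 : |S.fr (i + 1) 0| * w i ≤ Λ * 4 := (H.frle i 0 (by omega) i2 le_rfl).trans
      (mul_le_mul (mu i (by omega) i2.le) H.w0 w0.le (by linarith only [L1]))
    obtain b3 : S.kp w l i ≤ Λ := (kp_le H hs (by omega) i2.le).trans (mu i (by omega) i2.le)
    obtain b4 : |ξ l| * |S.fr (i + 1) 0| ≤ Λ * (Λ * 4) := by
      calc _ ≤ Λ * w i * |S.fr (i + 1) 0| := mul_le_mul_of_nonneg_right b1 (abs_nonneg _)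
        _ = Λ * (|S.fr (i + 1) 0| * w i) := by ring
        _ ≤ _ := mul_le_mul_of_nonneg_left b2 (by linarith only [L1])
    obtain b5 := mul_le_mul b4 b3 (kp_pos H hs (by omega) i2.le).le (by positivity)
    have b6 := mul_le_mul_of_nonneg_right b5 (mul_nonneg ki.le (abs_nonneg (S.df Z i)))
    rw [kp_mul H hs (show l ≤ i by omega) i2.le, abs_mul, abs_mul]
    calc _ = |ξ l| * |S.fr (i + 1) 0| * S.kp w l i * (S.kp w i 0 * |S.df Z i|) := by ring
      _ ≤ _ := b6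
      _ = _ := by ring
  obtain a3 : |Z l| ≤ |(ξ (l + 1) * Z l - ξ l * Z (l + 1)) * S.fr (l + 1) 0| +
      |ξ l * ∑ i ∈ Ico (l + 1) 0, S.fr (i + 1) 0 * S.df Z i| := by
    conv_lhs => rw [rep H h0 hl hs]
    exact abs_sub _ _
  have a4 := mul_le_mul_of_nonneg_right a3 kl.le
  obtain a5 : Λ * T ≤ Λ ^ 3 * T :=
    mul_le_mul_of_nonneg_right (le_self_pow₀ (by linarith only [L1]) (by norm_num)) T0
  linarith only [a1, a2, a4, a5]
end APB

open APB in
theorem apb : APB_s := by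
  intro S E ξ w μ Z s Λ α r H hΛ hα hr hrΛ hq h0
  have s0 := H.s0
  have mu : ∀ j, s - 1 ≤ j → j ≤ 0 → μ j ≤ Λ := fun j a b => (H.mono _ j le_rfl a b).trans hΛ
  obtain L1 : 1000 ≤ Λ := (H.big 0 (by omega) le_rfl).trans (mu 0 (by omega) le_rfl)
  have b0 : 0 ≤ S.b 0 * |Z (-1)| := mul_nonneg (H.bpos 0 s0 le_rfl).le (abs_nonneg _)
  obtain ⟨l, hl, hm⟩ := exists_max_image (Icc (s - 1) 0) (fun l => |Z l| * S.kp w l 0)
    ⟨0, mem_Icc.2 ⟨by omega, le_rfl⟩⟩
  obtain ⟨l1, l2⟩ := mem_Icc.1 hl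
  set N := |Z l| * S.kp w l 0 with hN
  have N0 : 0 ≤ N := mul_nonneg (abs_nonneg _) (kp_pos H l1 l2 le_rfl).le
  suffices h : N ≤ Λ ^ 7 * (S.b 0 * |Z (-1)| + α) from
    fun j a b => (hm j (mem_Icc.2 ⟨a, b⟩)).trans h
  rcases l2.eq_or_lt with rfl | l3
  · rw [hN, h0, abs_zero, zero_mul]; (clear * - L1 b0 hα; positivity)
  obtain h1 := main H h0 hΛ (show l ≤ -1 by omega) l1
  obtain h2 : ∀ i ∈ Ico (l + 1) 0, S.kp w i 0 * |S.df Z i| ≤ Λ * α + 2 * r * Λ * N := by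
    intro i hi
    obtain ⟨i1, i2⟩ := mem_Ico.1 hi
    obtain ki := kp_pos H (show s - 1 ≤ i by omega) i2.le le_rfl
    obtain c1 := mul_le_mul_of_nonneg_left (hq i (by omega) i2) ki.le
    obtain c2 : S.kp w i 0 ≤ Λ := (kp_le H (by omega) i2.le le_rfl).trans (mu 0 (by omega) le_rfl)
    obtain c3 : |Z i| * S.kp w i 0 ≤ N := hm i (mem_Icc.2 ⟨by omega, i2.le⟩)
    obtain c4 : |Z (i - 1)| * S.kp w (i - 1) 0 ≤ N := hm (i - 1) (mem_Icc.2 ⟨by omega, by omega⟩)
    obtain c5 := mul_le_mul_of_nonneg_right (kp_b H (show s ≤ i by omega) i2.le)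
      (abs_nonneg (Z (i - 1)))
    obtain c6 : μ i * (|Z (i - 1)| * S.kp w (i - 1) 0) ≤ Λ * N := mul_le_mul (mu i (by omega) i2.le)
      c4 (mul_nonneg (abs_nonneg _) (kp_pos H (by omega) (by omega) le_rfl).le) (by linarith only [L1])
    obtain c7 : S.kp w i 0 * S.sz Z i ≤ 2 * Λ * N := by
      unfold Sq.sz; nlinarith only [N0, c3, c5, c6, L1]
    have c8 := mul_le_mul_of_nonneg_left c7 hr
    have c9 := mul_le_mul_of_nonneg_right c2 hα
    linarith only [c1, c8, c9]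
  have h4 := sum_le_card_nsmul _ _ _ h2
  obtain h5 : ((Ico (l + 1) 0).card : ℝ) ≤ Λ := by
    have := (H.len l l1 l2).trans (mu l l1 l2)
    rw [Int.card_Ico, ← Int.cast_natCast, Int.toNat_of_nonneg (by omega)]
    push_cast; linarith only [this]
  rw [nsmul_eq_mul] at h4
  obtain h6 := h4.trans (mul_le_mul_of_nonneg_right h5 (by (clear * - L1 hα hr N0; positivity)))
  obtain h7 := h1.trans (add_le_add_right (mul_le_mul_of_nonneg_left h6 (by positivity)) _)
  obtain p5 : 32 ≤ Λ ^ 5 := le_trans (by norm_num) (pow_le_pow_left₀ (by norm_num) L1 5)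
  obtain h8 : 32 * (r * Λ ^ 5) ≤ 1 := by
    obtain this : 0 ≤ r * Λ ^ 5 := by positivity
    nlinarith only [hrΛ, p5, this]
  have h9 := mul_le_mul_of_nonneg_right h8 N0
  obtain q1 : 2 * Λ ≤ Λ ^ 7 := by
    obtain this : 2 ≤ Λ ^ 6 := le_trans (by norm_num) (pow_le_pow_left₀ (by norm_num) L1 6)
    nlinarith only [L1, p5, this]
  obtain q2 : 16 * Λ ^ 5 ≤ Λ ^ 7 := by
    obtain this : 16 ≤ Λ ^ 2 := by nlinarith only [L1]
    nlinarith only [L1, p5, this]
  have q3 := mul_le_mul_of_nonneg_right q1 b0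
  have q4 := mul_le_mul_of_nonneg_right q2 hα
  linarith only [h7, h9, q3, q4]

end Pool.Agent.MP_9cbfe4_an

end

/-! ### Part CRIT -/

section

/-! Row CRIT: a critical point after a long core itinerary. -/

namespace Pool.Agent.MP_9cbfe4_an

open Finset Filter Topology

namespace CritR

structure Big (c : Cs) : Prop where
  k_lo : 1 / 16 ≤ c.k0
  k_hi : c.k0 < 1 / 2
  a0 : 0 < c.a
  a1 : c.a ≤ 1 / 10
  lam : 100 ≤ c.lam
  L : 1000 ≤ c.L
  β : 1 ≤ c.β
  M1 : 1 ≤ c.M1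

theorem big : Hier Big := by
  obtain h1 := Hier.a_le (fun _ => 1 / 10) (fun _ _ _ _ _ _ => rfl) (Hier.of_all fun _ => by norm_num)
  have h2 := Hier.lam_ge (fun _ => 100) fun _ _ => rfl
  have h3 := Hier.L_ge (fun _ => 1000) fun _ _ => rfl
  have h4 := Hier.β_ge (fun _ => 1) fun _ _ _ => rfl
  have h5 := Hier.M1_ge (fun _ => 1) fun _ _ _ _ => rfl
  refine (Hier.base.and (h1.and (h2.and (h3.and (h4.and h5))))).mono fun c h => ?_
  exact ⟨h.1.1, h.1.2.1, h.2.1.1, h.2.1.2, h.2.2.1, h.2.2.2.1, h.2.2.2.2.1, h.2.2.2.2.2⟩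

variable {c : Cs}

theorem Big.chK_lo (h : Big c) : 69 / 100 ≤ c.chK := by
  obtain hk : 0 < c.k0 := by have := h.k_lo; linarith only [this]
  obtain h2 : (2 : ℝ) ≤ 1 / c.k0 := by
    rw [le_div_iff₀ hk]; have := h.k_hi; linarith only [this]
  obtain this := Real.log_le_log (by norm_num) h2
  have h3 := Real.log_two_gt_d9
  unfold Cs.chK; linarith only [this, h3]

theorem Big.bl_ge (h : Big c) : 100 ≤ c.bl := by
  have := h.lam; have := h.β; unfold Cs.bl; (rename_i zq0; nlinarith only [zq0, this])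

theorem Big.chK_hi (h : Big c) : c.chK ≤ c.bl := by
  obtain hk : 0 < c.k0 := by have := h.k_lo; linarith only [this]
  obtain h2 : 1 / c.k0 ≤ 16 := by
    rw [div_le_iff₀ hk]; have := h.k_lo; linarith only [this]
  obtain h3 := Real.log_le_sub_one_of_pos (show 0 < 1 / c.k0 by positivity)
  have := h.bl_ge
  unfold Cs.chK; linarith only [h2, h3, this]

theorem Big.cb_le (h : Big c) : c.cb ≤ 1 := by
  have := h.lam
  unfold Cs.cb
  rw [div_le_one (by positivity)]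
  exact one_le_pow₀ (by linarith only [this])

theorem Big.w0_le (h : Big c) : 0 ≤ c.w0 ∧ c.w0 ≤ 1 / 100 := by
  have := h.lam
  unfold Cs.w0
  refine ⟨by positivity, one_div_le_one_div_of_le (by norm_num) ?_⟩
  exact this.trans (le_self_pow₀ (by linarith only [this]) (by norm_num))

theorem Big.l5 (h : Big c) : c.L / c.lam ^ 5 ≤ c.L / 100 := by
  have := h.lam; have := h.L
  refine div_le_div_of_nonneg_left (by linarith only [this]) (by norm_num) ?_
  exact h.lam.trans (le_self_pow₀ (by (rename_i zq0; linarith only [zq0])) (by norm_num))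

theorem Big.b_le (h : Big c) {S : Sq} (hS : S.OK c) {j : ℤ} (hj : 0 ≤ j) :
    0 ≤ S.b j ∧ S.b j ≤ c.L := by
  refine ⟨le_trans (by positivity) (hS.b_lo j hj), (hS.b_hi j (1 / 100) hj le_rfl).trans ?_⟩
  have := h.L; have := h.k_hi; have := h.bl_ge
  unfold Sq.bb
  split_ifs
  · (rename_i zq2 zq1 _; nlinarith only [zq2, zq1])
  · exact (Real.exp_le_one_iff.2 (by linarith only [this])).trans (by (rename_i zq2 _ _; linarith only [zq2]))

theorem chi_nn (h : Big c) (S : Sq) {i j : ℤ} (hij : i ≤ j) : 0 ≤ S.chi c i j := by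
  have h1 := S.chi_ge c h.chK_hi hij
  have h2 := h.chK_lo
  obtain h3 : (0 : ℝ) ≤ ((j - i : ℤ) : ℝ) := by exact_mod_cast sub_nonneg.2 hij
  exact le_trans (mul_nonneg (by linarith only [h2]) h3) h1

theorem chi_lo (h : Big c) (S : Sq) {i j : ℤ} (hij : i < j) : 69 / 100 ≤ S.chi c i j := by
  have h1 := S.chi_ge c h.chK_hi hij.le
  have h2 := h.chK_lo
  obtain h3 : (1 : ℝ) ≤ ((j - i : ℤ) : ℝ) := by exact_mod_cast (by omega : (1 : ℤ) ≤ j - i)
  nlinarith only [h1, h2, h3]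

/-! continuity in the base point -/

section Cont
variable {M : Mdl} {t : ℝ} {g : ℝ → ℝ}

theorem X_cont (hM : M.OK c) (ht : TI t) (hg : Continuous g)
    (hO : ∀ x, IsOrb c M t (M.O t (g x)) 0 ∧ (M.O t (g x)).OK c) (j : ℤ) :
    Continuous fun x => (M.O t (g x)).X j := by
  obtain hneg : ∀ j : ℤ, j < 0 → Continuous fun x => (M.O t (g x)).X j := fun j hj => by
    have : (fun x => (M.O t (g x)).X j) = fun _ => 10 := funext fun x => (hO x).2.past j hj
    rw [this]; exact continuous_const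
  obtain key : ∀ n : ℕ, (Continuous fun x => (M.O t (g x)).X n) ∧
      Continuous fun x => (M.O t (g x)).X (n - 1) := by
    intro n
    induction n with
    | zero =>
      refine ⟨?_, hneg _ (by norm_num)⟩
      obtain this : (fun x => (M.O t (g x)).X ((0 : ℕ) : ℤ)) = g := funext fun x => by
        simp [Mdl.O, Mdl.orb, Mdl.pos]
      rw [this]; exact hg
    | succ n ih =>
      refine ⟨?_, by simpa using ih.1⟩
      obtain this : (fun x => (M.O t (g x)).X ((n + 1 : ℕ) : ℤ)) =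
          fun x => (fun p : ℝ × ℝ => M.G t p.1 p.2) ((M.O t (g x)).X n, (M.O t (g x)).X (n - 1)) :=
        funext fun x => by
          push_cast
          exact (hO x).1.step n (by omega)
      rw [this]
      refine continuous_iff_continuousAt.2 fun x => ?_
      exact ContinuousAt.comp (g := fun p : ℝ × ℝ => M.G t p.1 p.2)
        (f := fun x => ((M.O t (g x)).X n, (M.O t (g x)).X (n - 1)))
        (hM.der t _ _ ht ((hO x).1.box _ (by omega)) ((hO x).1.box _ (by omega))).continuousAt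
        (ih.1.prodMk ih.2).continuousAt
  rcases lt_or_ge j 0 with hj | hj
  · exact hneg j hj
  · obtain ⟨n, rfl⟩ := Int.eq_ofNat_of_zero_le hj
    exact (key n).1

theorem ab_cont (hM : M.OK c) (ht : TI t) (hg : Continuous g)
    (hO : ∀ x, IsOrb c M t (M.O t (g x)) 0 ∧ (M.O t (g x)).OK c) {j : ℤ} (hj : 0 ≤ j) :
    (Continuous fun x => (M.O t (g x)).a j) ∧ Continuous fun x => (M.O t (g x)).b j := by
  have hp : Continuous fun x => ((M.O t (g x)).X j, (M.O t (g x)).X (j - 1)) :=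
    (X_cont hM ht hg hO j).prodMk (X_cont hM ht hg hO (j - 1))
  obtain hb : ∀ x, ((M.O t (g x)).X j, (M.O t (g x)).X (j - 1)) ∈
      {p : ℝ × ℝ | Box c p.1 ∧ Box c p.2} := fun x =>
    ⟨(hO x).1.box _ (by omega), (hO x).1.box _ (by omega)⟩
  exact ⟨(hM.conta t ht).comp_continuous hp hb, (hM.contb t ht).comp_continuous hp hb⟩

theorem fr_cont (hM : M.OK c) (ht : TI t) (hg : Continuous g)
    (hO : ∀ x, IsOrb c M t (M.O t (g x)) 0 ∧ (M.O t (g x)).OK c) {i : ℤ} (hi : 0 ≤ i) (j : ℤ) :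
    Continuous fun x => (M.O t (g x)).fr i j := by
  obtain key : ∀ n : ℕ, Continuous fun x => (M.O t (g x)).frP i n := by
    intro n
    induction n with
    | zero => exact continuous_const
    | succ n ih =>
      obtain h := ab_cont hM ht hg hO (j := i + n) (by omega)
      exact ih.snd.prodMk ((h.1.mul ih.snd).add (h.2.mul ih.fst))
  unfold Sq.fr
  split_ifs
  · exact (key _).snd
  · exact continuous_const

theorem chi_cont (hM : M.OK c) (ht : TI t) (hg : Continuous g)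
    (hO : ∀ x, IsOrb c M t (M.O t (g x)) 0 ∧ (M.O t (g x)).OK c) (i j : ℤ) :
    Continuous fun x => (M.O t (g x)).chi c i j := by
  obtain hv : Continuous vt := by unfold vt dP; fun_prop
  have hk : ∀ l, Continuous fun x => (M.O t (g x)).kk l := fun l =>
    (hv.comp (X_cont hM ht hg hO l)).mul (hv.comp (X_cont hM ht hg hO (l - 1)))
  unfold Sq.chi Sq.ch1
  exact continuous_finsetSum _ fun l _ =>
    ((hk l).mul continuous_const).add ((continuous_const.sub (hk l)).mul continuous_const)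

end Cont

/-! the sign argument -/

/-- `ρ` describes `q` up to the horizon `J`, with margin at `J` -/
def Cer (q f E : ℤ → ℝ) (n J : ℤ) (ρ : ℝ) : Prop :=
  n < J ∧ E J < |q J| ∧ ∀ j ∈ Ioc n J, |q j - ρ * f j| < E j

theorem same_sign {A u : ℝ} (h : |A - u| < |A|) : 0 < u * A := by
  have h1 : (A - u) ^ 2 < A ^ 2 := sq_lt_sq.2 h
  linarith only [h1, sq_nonneg u]

theorem Cer.mul_pos {q f E : ℤ → ℝ} {n J J' : ℤ} {ρ ρ' : ℝ} (h : Cer q f E n J ρ)
    (h' : Cer q f E n J' ρ') (hJ : J ≤ J') : 0 < ρ * ρ' := by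
  have h1 := same_sign ((h.2.2 J (mem_Ioc.2 ⟨h.1, le_rfl⟩)).trans h.2.1)
  have h2 := same_sign ((h'.2.2 J (mem_Ioc.2 ⟨h.1, hJ⟩)).trans h.2.1)
  have h3 := _root_.mul_pos h1 h2
  obtain h4 : ρ * f J * q J * (ρ' * f J * q J) = ρ * ρ' * (f J * q J) ^ 2 := by ring
  rw [h4] at h3
  by_contra hc
  push Not at hc
  linarith only [h3, mul_nonneg (neg_nonneg.2 hc) (sq_nonneg (f J * q J))]

theorem sign_arg {q f E : ℝ → ℤ → ℝ} {n : ℤ} (hq : ∀ j, Continuous fun x => q x j)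
    (hf : ∀ j, Continuous fun x => f x j) (hE : ∀ j, Continuous fun x => E x j)
    (hall : ∀ x, ∃ J ρ, Cer (q x) (f x) (E x) n J ρ) {x1 x2 : ℝ}
    (h1 : ∃ J ρ, 0 < ρ ∧ Cer (q x1) (f x1) (E x1) n J ρ)
    (h2 : ∃ J ρ, ρ < 0 ∧ Cer (q x2) (f x2) (E x2) n J ρ) : False := by
  obtain hop : ∀ J ρ, IsOpen {x | Cer (q x) (f x) (E x) n J ρ} := fun J ρ => by
    obtain this : {x | Cer (q x) (f x) (E x) n J ρ} = {_x | n < J} ∩ ({x | E x J < |q x J|} ∩
        ⋂ j ∈ Ioc n J, {x | |q x j - ρ * f x j| < E x j}) := by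
      ext x; simp [Cer]
    rw [this]
    refine isOpen_const.inter ((isOpen_lt (hE J) (hq J).abs).inter ?_)
    exact isOpen_biInter_finset fun j _ =>
      isOpen_lt ((hq j).sub (continuous_const.mul (hf j))).abs (hE j)
  obtain hU : ∀ p : ℝ → Prop, IsOpen {x | ∃ J ρ, p ρ ∧ Cer (q x) (f x) (E x) n J ρ} := fun p => by
    obtain this : {x | ∃ J ρ, p ρ ∧ Cer (q x) (f x) (E x) n J ρ} =
        ⋃ J, ⋃ ρ, ({_x | p ρ} ∩ {x | Cer (q x) (f x) (E x) n J ρ}) := by
      ext x; simp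
    rw [this]
    exact isOpen_iUnion fun J => isOpen_iUnion fun ρ => isOpen_const.inter (hop J ρ)
  obtain ⟨x, -, ⟨J, ρ, hρ, h⟩, J', ρ', hρ', h'⟩ := isPreconnected_univ (α := ℝ) _ _
    (hU fun ρ => 0 < ρ) (hU fun ρ => ρ < 0) (fun x _ => by
      obtain ⟨J, ρ, h⟩ := hall x
      have := h.mul_pos h le_rfl
      rcases lt_trichotomy ρ 0 with h0 | h0 | h0
      · exact Or.inr ⟨J, ρ, h0, h⟩
      · simp [h0] at this
      · exact Or.inl ⟨J, ρ, h0, h⟩) ⟨x1, trivial, h1⟩ ⟨x2, trivial, h2⟩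
  rcases le_total J J' with hJ | hJ
  · have := h.mul_pos h' hJ; nlinarith only [this, hρ, hρ']
  · have := h'.mul_pos h hJ; nlinarith only [this, hρ, hρ']

/-! runs -/

theorem run_inv {Ex : ExT} {S : Sq} {ξ s P L p} (h : S.Run c Ex ξ s P L p) :
    ∀ n r Ls, L = (n, r) :: Ls → p = n + 1 ∨ ∃ Ls' r', S.BRun c Ex ξ n Ls' p r' := by
  intro n r Ls hL
  cases h with
  | start => simp at hL
  | shallow _ _ _ =>
    simp only [List.cons.injEq, Prod.mk.injEq] at hL
    exact Or.inl (by rw [hL.1.1])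
  | block _ h2 h3 _ _ =>
    simp only [List.cons.injEq, Prod.mk.injEq] at hL
    obtain ⟨⟨rfl, -⟩, -⟩ := hL
    exact Or.inr ⟨_, _, h2, h3⟩

theorem chain_inv {Ex : ExT} {S : Sq} {ξ s m0 L p} (h : S.Chain c Ex ξ s m0 L p) :
    ∀ n r Ls, L = (n, r) :: Ls → S.Step c Ex ξ s n r p := by
  intro n r Ls hL
  cases h with
  | nil => simp at hL
  | cons _ h2 _ =>
    simp only [List.cons.injEq, Prod.mk.injEq] at hL
    obtain ⟨⟨rfl, rfl⟩, -⟩ := hL
    exact h2

theorem st_fr (S : Sq) {i : ℤ} (hi : 0 ≤ i) : S.St c (S.fr i) i :=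
  ⟨hi, S.fr_sol i, S.fr_self i, by rw [S.fr_lt (by omega), abs_zero]; positivity⟩

/-- a run of shallow steps -/
theorem shallow_run (h : Big c) (Ex : ExT) {S : Sq} (hS : S.OK c) (n : ℕ)
    (ha : ∀ k : ℤ, 0 ≤ k → k < n → 2 / 5 * c.L ≤ |S.a k|) :
    (∃ Ls, S.Run c Ex (S.fr 0) 0 (fun _ _ _ => True) Ls n) ∧ S.fr 0 n ≠ 0 ∧
      c.L / 4 * |S.fr 0 (n - 1)| ≤ |S.fr 0 n| ∧ ∀ i : ℤ, 0 ≤ i → i ≤ n → |S.fr 0 i| ≤ |S.fr 0 n| := by
  induction n with
  | zero =>
    refine ⟨⟨[], Sq.Run.start _ _ _⟩, by simp [S.fr_self], ?_, fun i h1 h2 => ?_⟩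
    · rw [S.fr_lt (by simp)]; simp
    · obtain rfl : i = 0 := by omega
      simp
  | succ n ih =>
    obtain ⟨⟨Ls, hr⟩, h0, h1, h2⟩ := ih fun k hk hk' => ha k hk (by push_cast; omega)
    have hL := h.L
    obtain hb := h.b_le hS (j := n) (by omega)
    obtain han := ha n (by omega) (by push_cast; omega)
    obtain hrec := S.fr_sol 0 n (by omega)
    have hp : 0 < |S.fr 0 n| := abs_pos.2 h0
    obtain hk : c.L / 4 * |S.fr 0 n| ≤ |S.fr 0 (n + 1)| := by
      obtain e1 : |S.a n * S.fr 0 n| ≤ |S.fr 0 (n + 1)| + |S.b n * S.fr 0 (n - 1)| := by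
        obtain this : S.a n * S.fr 0 n = S.fr 0 (n + 1) - S.b n * S.fr 0 (n - 1) := by rw [hrec]; ring
        rw [this]; exact abs_sub _ _
      rw [abs_mul, abs_mul, abs_of_nonneg hb.1] at e1
      have e2 : S.b n * |S.fr 0 (n - 1)| ≤ c.L * |S.fr 0 (n - 1)| :=
        mul_le_mul_of_nonneg_right hb.2 (abs_nonneg _)
      have e3 : 2 / 5 * c.L * |S.fr 0 n| ≤ |S.a n| * |S.fr 0 n| :=
        mul_le_mul_of_nonneg_right han hp.le
      nlinarith only [h1, hp, e1, e2, e3, hL]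
    obtain hk1 : |S.fr 0 n| ≤ |S.fr 0 (n + 1)| := by nlinarith only [hp, hk, hL]
    push_cast
    refine ⟨⟨_, Sq.Run.shallow hr ?_ trivial⟩, abs_pos.1 (by linarith only [hp, hk1]), by simpa using hk,
      fun i hi hi' => ?_⟩
    · rw [S.rho_one, ← sq_abs, abs_div]
      obtain e1 : c.L / 4 ≤ |S.fr 0 (n + 1)| / |S.fr 0 n| := by rwa [le_div_iff₀ hp]
      have e2 := h.cb_le
      nlinarith only [hL, e1, e2]
    · rcases eq_or_lt_of_le hi' with rfl | hlt
      · exact le_rfl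
      · exact (h2 i hi (by omega)).trans hk1

theorem brun_rho (hB1 : B1_s c) (hR : RHO_s c) {Ex : ExT} {S : Sq} (hS : S.OK c) {ξ n Ls J r}
    (ho : S.Out c ξ n) (hb : S.BRun c Ex ξ n Ls J r) :
    ∀ j, n < j → j ≤ J →
      |ξ j / ξ n - S.rho ξ n J * S.fr (n + 1) j| ≤ Real.exp (-(1 - c.a) * S.chi c n j) :=
  (hR S ξ n Ls J hS ho ((hB1 Ex S hS).1 _ _ _ _ _ (st_fr S (by have := ho.1; omega)) hb.1).2
    ((hB1 Ex S hS).2.1 ξ n Ls J r ho hb.1 hb.2.1)).1

theorem crit_le (h : Big c) (hB1 : B1_s c) (hR : RHO_s c) {Ex : ExT} {S : Sq} (hS : S.OK c) {ξ n}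
    (ho : S.Out c ξ n) (hc : S.Crit c Ex ξ n) {j : ℤ} (hj : n < j) : |ξ j / ξ n| ≤ 1 := by
  refine le_of_forall_pos_le_add fun ε hε => ?_
  set F := |S.fr (n + 1) j| with hF
  have hF0 : 0 ≤ F := abs_nonneg _
  obtain ⟨Ls, J, rJ, hb, hV⟩ := hc (max (S.chi c n j + 1) ((F + 1) ^ 2 / ε ^ 2 * c.L))
  set W := S.Wt c (S.fr (n + 1)) (n + 1) J rJ with hW
  have hχ := chi_nn h S hj.le
  have hV1 : S.chi c n j + 1 ≤ W := (le_max_left _ _).trans hV
  have hV2 : (F + 1) ^ 2 / ε ^ 2 * c.L ≤ W := (le_max_right _ _).trans hV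
  have hnJ : n + 1 ≤ J := Sq.Run.le c S hb.1
  obtain hjJ : j ≤ J := by
    by_contra hlt
    obtain e1 := S.chi_add c (show n ≤ J by omega) (show J ≤ j by omega)
    obtain e2 := chi_nn h S (show J ≤ j by omega)
    have e3 := hb.2.2.c2
    have e4 := h.M1
    rw [← hW] at e3
    nlinarith only [hV1, e1, e2, e3, e4, hχ]
  have e1 := brun_rho hB1 hR hS ho hb j hj hjJ
  obtain e2 : Real.exp (-(1 - c.a) * S.chi c n j) ≤ 1 :=
    Real.exp_le_one_iff.2 (by have := h.a1; nlinarith only [hχ, this])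
  have e3 : S.rho ξ n J ^ 2 * Real.exp W ≤ c.cb * c.L := hb.2.1
  have hL := h.L
  obtain e4 : S.rho ξ n J ^ 2 * ((F + 1) ^ 2 / ε ^ 2 * c.L) ≤ 1 * c.L := by
    have := Real.add_one_le_exp W
    have e5 := h.cb_le
    calc _ ≤ S.rho ξ n J ^ 2 * Real.exp W :=
          mul_le_mul_of_nonneg_left (by linarith only [hV2, this]) (sq_nonneg _)
      _ ≤ c.cb * c.L := e3
      _ ≤ 1 * c.L := mul_le_mul_of_nonneg_right e5 (by linarith only [hL])
  obtain e5 : (S.rho ξ n J * (F + 1)) ^ 2 ≤ ε ^ 2 := by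
    rw [← mul_assoc] at e4
    obtain e6 := le_of_mul_le_mul_right e4 (by linarith only [hL])
    rw [← mul_div_assoc, div_le_one (by positivity)] at e6
    rwa [mul_pow]
  obtain e6 : |S.rho ξ n J| * (F + 1) ≤ ε := by
    have := sq_le_sq.1 e5
    rwa [abs_mul, abs_of_pos hε, abs_of_nonneg (by linarith only [hF0] : 0 ≤ F + 1)] at this
  obtain e7 : |ξ j / ξ n| ≤ |ξ j / ξ n - S.rho ξ n J * S.fr (n + 1) j| + |S.rho ξ n J| * F := by
    rw [hF, ← abs_mul]
    calc _ = |(ξ j / ξ n - S.rho ξ n J * S.fr (n + 1) j) + S.rho ξ n J * S.fr (n + 1) j| := by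
          ring_nf
      _ ≤ _ := abs_add_le _ _
  linarith only [e1, e2, e6, e7, abs_nonneg (S.rho ξ n J)]

theorem cer_one {S : Sq} {ξ : ℤ → ℝ} {n : ℤ} {E : ℤ → ℝ} (hE : 0 < E (n + 1))
    (h : E (n + 1) < |ξ (n + 1) / ξ n|) :
    Cer (fun j => ξ j / ξ n) (S.fr (n + 1)) E n (n + 1) (ξ (n + 1) / ξ n) := by
  refine ⟨by omega, h, fun j hj => ?_⟩
  obtain rfl : j = n + 1 := by have := mem_Ioc.1 hj; omega
  simpa [S.fr_self] using hE

theorem step_cer (h : Big c) (hB1 : B1_s c) (hR : RHO_s c) {Ex : ExT} {S : Sq} (hS : S.OK c)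
    {ξ s P Ls n r p} (hs : S.St c ξ s) (ho : S.Out c ξ n) (hr : S.Run c Ex ξ s P ((n, r) :: Ls) p) :
    ∃ J ρ, Cer (fun j => ξ j / ξ n) (S.fr (n + 1))
      (fun j => 6 / 5 * Real.exp (-(1 - c.a) * S.chi c n j)) n J ρ := by
  have hst := chain_inv ((hB1 Ex S hS).1 _ _ _ _ _ hs hr).1 n r Ls rfl
  have hp : 0 < |ξ n| := abs_pos.2 ho.2.2.1
  obtain hm : 6 / 5 * Real.exp (-(1 - c.a) * S.chi c n p) < |ξ p / ξ n| := by
    have e1 := hst.con.2
    have e2 := chi_lo h S hst.lt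
    obtain e3 : Real.exp (-(c.a / 2 * S.chi c n p)) ≤ |ξ p / ξ n| := by
      rw [abs_div, le_div_iff₀ hp, Real.exp_neg, inv_mul_le_iff₀ (Real.exp_pos _)]
      exact e1
    refine lt_of_lt_of_le ?_ e3
    obtain e4 : -(c.a / 2 * S.chi c n p) =
        (1 - 3 / 2 * c.a) * S.chi c n p + -(1 - c.a) * S.chi c n p := by ring
    rw [e4, Real.exp_add]
    refine mul_lt_mul_of_pos_right ?_ (Real.exp_pos _)
    have e5 := Real.add_one_le_exp ((1 - 3 / 2 * c.a) * S.chi c n p)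
    have := h.a1
    nlinarith only [e2, e5, this]
  rcases run_inv hr n r Ls rfl with rfl | ⟨Ls', r', hb⟩
  · exact ⟨_, _, cer_one (by positivity) hm⟩
  · refine ⟨p, S.rho ξ n p, hst.lt, hm, fun j hj => ?_⟩
    have e1 := brun_rho hB1 hR hS ho hb j (mem_Ioc.1 hj).1 (mem_Ioc.1 hj).2
    have e2 := Real.exp_pos (-(1 - c.a) * S.chi c n j)
    linarith only [e1, e2]

theorem sin_two : 7 / 10 ≤ Real.sin 2 := by
  have h1 := Real.pi_gt_d2
  have h2 := Real.pi_lt_d2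
  obtain h3 := Real.mul_le_sin (x := Real.pi - 2) (by linarith only [h1, h2]) (by linarith only [h1, h2])
  rw [Real.sin_pi_sub] at h3
  refine le_trans ?_ h3
  rw [div_mul_eq_mul_div, le_div_iff₀ (by linarith only [h1, h2])]
  linarith only [h1, h2]

theorem crit_main (h : Big c) (hSOK : SOK_s c) (hT0 : T0_s c) (hCOV : COV_s c) (hB1 : B1_s c)
    (hB2 : B2_s c) (hR : RHO_s c) : CRIT_s c := by
  intro Ex M t hM ht hH N
  have hA := hT0 Ex M t 0 0 id hM ht Adm.base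
  obtain ⟨g0, hg0, hg⟩ := hCOV Ex M t 0 0 id hM ht hA (fun _ => true) N
  simp only [id, zero_add] at hg
  let pj : ℝ → Set.Icc (-2 : ℝ) 2 := Set.projIcc (-2) 2 (by norm_num)
  let g : ℝ → ℝ := fun x => g0 (pj x)
  have hgc : Continuous g :=
    hg0.comp_continuous (continuous_subtype_val.comp continuous_projIcc) fun x => (pj x).2
  have hO : ∀ x, IsOrb c M t (M.O t (g x)) 0 ∧ (M.O t (g x)).OK c := fun x =>
    (hSOK M hM t ht).2.1 _ (hg _ (pj x).2).1
  have hL := h.L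
  obtain hn : ((N + 1 : ℕ) : ℤ) = 1 + N := by push_cast; ring
  obtain hrun : ∀ x, (∃ Ls, (M.O t (g x)).Run c Ex ((M.O t (g x)).fr 0) 0 (fun _ _ _ => True) Ls (1 + N)) ∧
      (M.O t (g x)).fr 0 (1 + N) ≠ 0 ∧
      c.L / 4 * |(M.O t (g x)).fr 0 (1 + N - 1)| ≤ |(M.O t (g x)).fr 0 (1 + N)| ∧
      ∀ i : ℤ, 0 ≤ i → i ≤ 1 + N → |(M.O t (g x)).fr 0 i| ≤ |(M.O t (g x)).fr 0 (1 + N)| := by
    intro x
    rw [← hn]
    refine shallow_run h Ex (hO x).2 (N + 1) fun k hk hk' => ?_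
    obtain ⟨-, -, hI, hs⟩ := hg _ (pj x).2
    rcases eq_or_lt_of_le hk with rfl | hk0
    · obtain e1 := hM.a_all t _ _ ht ((hO x).1.box 0 (by omega)) ((hO x).1.box (0 - 1) (by omega))
      rw [← (hO x).1.ha 0 le_rfl] at e1
      have e2 := h.l5
      obtain e3 : |c.L * Real.sin ((M.O t (g x)).X 0)| ≤
          |(M.O t (g x)).a 0 + c.L * Real.sin ((M.O t (g x)).X 0)| + |(M.O t (g x)).a 0| := by
        calc _ = |((M.O t (g x)).a 0 + c.L * Real.sin ((M.O t (g x)).X 0)) - (M.O t (g x)).a 0| := by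
              ring_nf
          _ ≤ _ := abs_sub _ _
      rw [abs_mul, abs_of_pos (by linarith only [hL] : 0 < c.L)] at e3
      obtain e4 : c.L * (1 / 2) ≤ c.L * |Real.sin ((M.O t (g x)).X 0)| :=
        mul_le_mul_of_nonneg_left hs (by linarith only [hL])
      linarith only [hL, e1, e2, e3, e4]
    · obtain e1 := (hI (N - k).toNat (by omega)).1
      obtain e2 : (1 + N - 1 - ((N - k).toNat : ℕ) : ℤ) = k := by omega
      rw [e2] at e1
      have e3 := h.w0_le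
      obtain e4 : 0 ≤ c.e0 := by have := h.k_hi; unfold Cs.e0; linarith only [this]
      obtain e5 := (hO x).2.a_Z k hk (by
        have : dP ((M.O t (g x)).X k) ≤ (1 - c.e0 / 2) * c.w0 := e1
        nlinarith only [e3, this, e4])
      linarith only [hL, e5]
  obtain htg : ∀ v, M.tg t v 0 = (M.O t v).fr 0 := fun v => funext fun j => by
    simp [Mdl.tg, Sq.fr_self]
  obtain htame : ∀ x y, (M.O t (g x)).Tame c ((M.O t (g x)).fr 0) (1 + N) y := fun x y => by
    obtain ⟨Ls, hr⟩ := (hrun x).1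
    have := hA.tame (g x) (hg _ (pj x).2).1 Ls (1 + N) y
    simp only [id, htg] at this
    exact this hr
  obtain hout : ∀ x, (M.O t (g x)).Out c ((M.O t (g x)).fr 0) (1 + N) := fun x =>
    ⟨by omega, fun j hj => Sq.fr_sol _ 0 j (by omega), (htame x 0).1, (htame x 0).2.1⟩
  obtain hcr : ∃ x, (M.O t (g x)).Crit c Ex ((M.O t (g x)).fr 0) (1 + N) := by
    by_contra hno
    push Not at hno
    obtain hend : ∀ x, |(M.O t (g x)).fr 0 (1 + N + 1) / (M.O t (g x)).fr 0 (1 + N)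
        + c.L * Real.sin (pj x)| ≤ c.L / 100 + 4 := fun x => by
      obtain ⟨-, h0, h1, -⟩ := hrun x
      obtain e1 := hM.a_all t _ _ ht ((hO x).1.box (1 + N) (by omega))
        ((hO x).1.box (1 + N - 1) (by omega))
      rw [← (hO x).1.ha (1 + N) (by omega), (hg _ (pj x).2).2.1] at e1
      have e2 := h.l5
      obtain hb := h.b_le (hO x).2 (j := 1 + N) (by omega)
      have hp : 0 < |(M.O t (g x)).fr 0 (1 + N)| := abs_pos.2 h0
      obtain e3 : |(M.O t (g x)).b (1 + N) *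
          ((M.O t (g x)).fr 0 (1 + N - 1) / (M.O t (g x)).fr 0 (1 + N))| ≤ 4 := by
        rw [abs_mul, abs_div, abs_of_nonneg hb.1, ← mul_div_assoc, div_le_iff₀ hp]
        have := mul_le_mul_of_nonneg_right hb.2 (abs_nonneg ((M.O t (g x)).fr 0 (1 + N - 1)))
        linarith only [h1, this]
      obtain e4 : (M.O t (g x)).fr 0 (1 + N + 1) / (M.O t (g x)).fr 0 (1 + N) + c.L * Real.sin (pj x) =
          ((M.O t (g x)).a (1 + N) + c.L * Real.sin (pj x)) + (M.O t (g x)).b (1 + N) *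
            ((M.O t (g x)).fr 0 (1 + N - 1) / (M.O t (g x)).fr 0 (1 + N)) := by
        rw [Sq.fr_sol _ 0 (1 + N) (by omega)]
        field_simp
        ring
      rw [e4]
      exact (abs_add_le _ _).trans (by linarith only [e1, e2, e3])
    obtain hE : ∀ x, 6 / 5 * Real.exp (-(1 - c.a) * (M.O t (g x)).chi c (1 + N) (1 + N + 1)) ≤ 6 / 5 :=
      fun x => by
        obtain e1 := chi_nn h (M.O t (g x)) (show (1 + N : ℤ) ≤ 1 + N + 1 by omega)
        obtain e2 : Real.exp (-(1 - c.a) * (M.O t (g x)).chi c (1 + N) (1 + N + 1)) ≤ 1 :=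
          Real.exp_le_one_iff.2 (by have := h.a1; nlinarith only [e1, this])
        linarith only [e2]
    have hs2 := sin_two
    obtain hLs : c.L * (7 / 10) ≤ c.L * Real.sin 2 := mul_le_mul_of_nonneg_left hs2 (by linarith only [hL])
    refine sign_arg (n := 1 + N)
      (q := fun x j => (M.O t (g x)).fr 0 j / (M.O t (g x)).fr 0 (1 + N))
      (f := fun x => (M.O t (g x)).fr (1 + N + 1))
      (E := fun x j => 6 / 5 * Real.exp (-(1 - c.a) * (M.O t (g x)).chi c (1 + N) j))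
      (fun j => (fr_cont hM ht hgc hO le_rfl j).div (fr_cont hM ht hgc hO le_rfl _)
        fun x => (hrun x).2.1)
      (fun j => fr_cont hM ht hgc hO (by omega) j)
      (fun j => continuous_const.mul (Real.continuous_exp.comp
        (continuous_const.mul (chi_cont hM ht hgc hO _ j))))
      (fun x => ?_) (x1 := -2) (x2 := 2) ?_ ?_
    · obtain ⟨Ls, hr⟩ := (hrun x).1
      rcases hB2 Ex M t hM ht hH (g x) (hg _ (pj x).2).1 _ 0 _ Ls (1 + N) (st_fr _ le_rfl) hr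
        (htame x) (fun _ => trivial) with ⟨r, p, hr'⟩ | hc
      · exact step_cer h hB1 hR (hO x).2 (st_fr _ le_rfl) (hout x) hr'
      · exact absurd hc (hno x)
    · have e1 := hend (-2)
      obtain e2 : ((pj (-2) : Set.Icc (-2 : ℝ) 2) : ℝ) = -2 := by simp [pj]
      rw [e2, Real.sin_neg] at e1
      have e3 := (abs_le.1 e1).1
      refine ⟨_, _, ?_, cer_one (by positivity) ((hE _).trans_lt (lt_abs.2 (Or.inl ?_)))⟩ <;> linarith only [hL, hLs, e3]
    · have e1 := hend 2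
      obtain e2 : ((pj 2 : Set.Icc (-2 : ℝ) 2) : ℝ) = 2 := by simp [pj]
      rw [e2] at e1
      have e3 := (abs_le.1 e1).2
      refine ⟨_, _, ?_, cer_one (by positivity) ((hE _).trans_lt (lt_abs.2 (Or.inr ?_)))⟩ <;> linarith only [hL, hLs, e3]
  obtain ⟨x, hc⟩ := hcr
  obtain ⟨hv, hX, hI, -⟩ := hg _ (pj x).2
  obtain ⟨-, h0, -, hmono⟩ := hrun x
  refine ⟨g x, hv, fun j => (M.O t (g x)).fr 0 j / (M.O t (g x)).fr 0 (1 + N), ?_, hI, ?_,
    div_self h0, fun j hj => ?_⟩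
  · rw [hX]; exact abs_le.2 (pj x).2
  · intro j hj
    beta_reduce
    rw [Sq.fr_sol _ 0 j hj]; ring
  · rcases le_or_gt j (1 + N) with hle | hlt
    · rw [abs_div, div_le_one (abs_pos.2 h0)]; exact hmono j hj hle
    · exact crit_le h hB1 hR (hO x).2 (hout x) hc hlt

end CritR

theorem crit : Hier fun c => SOK_s c → T0_s c → COV_s c → B1_s c → B2_s c → RHO_s c → CRIT_s c :=
  CritR.big.mono fun _ h => CritR.crit_main h

end Pool.Agent.MP_9cbfe4_an

end

/-! ### Part TR -/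

section

/-! Row TR: transfer from the normal form to the original coordinates. -/

namespace Pool.Agent.MP_9cbfe4_an

open MeasureTheory Filter Topology Metric Set
open scoped ENNReal NNReal

noncomputable section
namespace TR

lemma box_eq (c : Cs) : BoxS c = Icc (-(2 * c.L)) (2 * c.L) ×ˢ Icc (-(2 * c.L)) (2 * c.L) := by
  ext p; simp only [BoxS, Box, abs_le, mem_ofPred_eq, mem_prod, mem_Icc]

lemma box_cpt (c : Cs) : IsCompact (BoxS c) := by
  rw [box_eq]; exact isCompact_Icc.prod isCompact_Icc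

lemma box_cvx (c : Cs) : Convex ℝ (BoxS c) := by
  rw [box_eq]; exact (convex_Icc _ _).prod (convex_Icc _ _)

lemma box_ud (c : Cs) (hL : 0 < c.L) : UniqueDiffOn ℝ (BoxS c) := by
  rw [box_eq]
  exact (uniqueDiffOn_Icc (by linarith only [hL])).prod (uniqueDiffOn_Icc (by linarith only [hL]))

lemma box_sub (c : Cs) : BoxS c ⊆ ball 0 (2 * c.L + 1) := by
  intro p hp
  rw [mem_ball_zero_iff, Prod.norm_def, max_lt_iff]
  exact ⟨lt_of_le_of_lt hp.1 (by linarith only []), lt_of_le_of_lt hp.2 (by linarith only [])⟩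

/-- a Lipschitz left inverse of an expanding map -/
lemma exists_inv {X Y : Type*} [Nonempty X] [MetricSpace X] [MetricSpace Y] {φ : X → Y} {s : Set X}
    {K : ℝ} (h : ∀ a ∈ s, ∀ b ∈ s, dist a b ≤ K * dist (φ a) (φ b)) {E : Set X} (hE : E ⊆ s) :
    ∃ ψ : Y → X, LipschitzOnWith K.toNNReal ψ (φ '' E) ∧ ψ '' (φ '' E) = E := by
  obtain hinj : InjOn φ s := fun a ha b hb hab => by
    have := h a ha b hb
    rw [hab, dist_self, mul_zero] at this
    exact dist_le_zero.1 this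
  have hl : ∀ a ∈ E, Function.invFunOn φ s (φ a) = a := fun a ha => hinj.leftInvOn_invFunOn (hE ha)
  refine ⟨Function.invFunOn φ s, LipschitzOnWith.of_dist_le_mul ?_, ?_⟩
  · rintro _ ⟨a, ha, rfl⟩ _ ⟨b, hb, rfl⟩
    rw [hl a ha, hl b hb]
    exact (h a (hE ha) b (hE hb)).trans
      (mul_le_mul_of_nonneg_right (Real.le_coe_toNNReal K) dist_nonneg)
  · rw [image_image]
    exact (image_congr hl).trans (image_id' E)

lemma fderiv_iter {f : P2 → P2} (hf : Differentiable ℝ f) (z w : ℤ → P2)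
    (hz : ∀ j, f (z j) = z (j + 1)) (hw : ∀ j, fderiv ℝ f (z j) (w j) = w (j + 1)) (j : ℤ) (n : ℕ) :
    f^[n] (z j) = z (j + n) ∧ fderiv ℝ (f^[n]) (z j) (w j) = w (j + n) := by
  induction n with
  | zero => simp
  | succ n ih =>
    obtain e : j + ((n + 1 : ℕ) : ℤ) = j + n + 1 := by push_cast; ring
    rw [Function.iterate_succ', e]
    refine ⟨by rw [Function.comp_apply, ih.1, hz], ?_⟩
    rw [fderiv_comp _ (hf _) (hf.iterate n _), ContinuousLinearMap.comp_apply, ih.1, ih.2, hw]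

lemma not_unifHyp {f : P2 → P2} (hf : Differentiable ℝ f) {K : Set P2} (z w : ℤ → P2) (B : ℝ)
    (hz : ∀ j, f (z j) = z (j + 1)) (hw : ∀ j, fderiv ℝ f (z j) (w j) = w (j + 1))
    (hK : ∀ j, z j ∈ K) (hB : ∀ j, ‖w j‖ ≤ B) (h0 : w 0 ≠ 0) : ¬ UnifHyp f K := by
  rintro ⟨Es, Eu, C, c, hC, hc, H⟩
  obtain hexp : Tendsto (fun n : ℕ => Real.exp (-c * n)) atTop (𝓝 0) :=
    Real.tendsto_exp_atBot.comp
      (tendsto_natCast_atTop_atTop.const_mul_atTop_of_neg (by linarith only [hc]))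
  obtain hle : ∀ n : ℕ, Real.exp (-c * n) ≤ 1 := fun n =>
    Real.exp_le_one_iff.2 (by nlinarith only [hc, Nat.cast_nonneg (α := ℝ) n])
  obtain hs : ∀ j, w j ∈ Es (z j) := by
    intro j
    obtain ⟨hc', -, -, h1, h2⟩ := H _ (hK j)
    obtain this : w j ∈ Es (z j) ⊔ Eu (z j) := by rw [hc'.sup_eq_top]; trivial
    obtain ⟨s, hs, u, hu, hsu⟩ := Submodule.mem_sup.1 this
    obtain hb : ∀ n : ℕ, ‖u‖ ≤ Real.exp (-c * n) * (C * (B + C * ‖s‖)) := by
      intro n
      obtain e1 : fderiv ℝ (f^[n]) (z j) u = w (j + n) - fderiv ℝ (f^[n]) (z j) s := by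
        rw [← (fderiv_iter hf z w hz hw j n).2, ← hsu, map_add]; abel
      obtain e2 : ‖fderiv ℝ (f^[n]) (z j) u‖ ≤ B + C * ‖s‖ := by
        rw [e1]
        refine (norm_sub_le _ _).trans (add_le_add (hB _) ((h1 s hs n).trans ?_))
        have := mul_le_mul_of_nonneg_left (hle n) hC.le
        exact mul_le_mul_of_nonneg_right (by linarith only [this]) (norm_nonneg _)
      have e3 := (h2 u hu n).trans (mul_le_mul_of_nonneg_left e2 hC.le)
      calc ‖u‖ = Real.exp (-c * n) * (Real.exp (c * n) * ‖u‖) := by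
            rw [← mul_assoc, ← Real.exp_add]; simp
        _ ≤ _ := mul_le_mul_of_nonneg_left e3 (Real.exp_pos _).le
    have hl := hexp.mul_const (C * (B + C * ‖s‖))
    rw [zero_mul] at hl
    have hu0 : u = 0 := norm_le_zero_iff.1 (ge_of_tendsto' hl hb)
    rw [← hsu, hu0, add_zero]; exact hs
  obtain hb : ∀ n : ℕ, ‖w 0‖ ≤ Real.exp (-c * n) * (C * B) := by
    intro n
    have e1 := (fderiv_iter hf z w hz hw (-n) n).2
    rw [neg_add_cancel] at e1
    have e2 := (H _ (hK (-n))).2.2.2.1 _ (hs (-n)) n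
    rw [e1] at e2
    refine e2.trans ?_
    calc C * Real.exp (-c * n) * ‖w (-n)‖ ≤ C * Real.exp (-c * n) * B :=
          mul_le_mul_of_nonneg_left (hB _) (by positivity)
      _ = _ := by ring
  have hl := hexp.mul_const (C * B)
  rw [zero_mul] at hl
  exact h0 (norm_le_zero_iff.1 (ge_of_tendsto' hl hb))

lemma supp_fwd {f : P2 → P2} {ν : Measure P2} (hf : Continuous f) (hm : MeasurePreserving f ν ν)
    {z : P2} (hz : z ∈ ν.support) : f z ∈ ν.support := by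
  rw [Measure.mem_support_iff_forall] at hz ⊢
  intro U hU
  obtain ⟨V, hVU, hV, hzV⟩ := _root_.mem_nhds_iff.1 hU
  refine lt_of_lt_of_le ?_ (measure_mono hVU)
  rw [← hm.measure_preimage hV.measurableSet.nullMeasurableSet]
  exact hz _ (hf.continuousAt (hV.mem_nhds hzV))

/-- data of the conjugacy -/
structure Conj (c : Cs) (M : Mdl) (t : ℝ) (f Ψ : P2 → P2) (K K1 k : ℝ) : Prop where
  meas : Measurable Ψ
  cont : ∀ p ∈ BoxS c, ContinuousAt Ψ p
  conj : ∀ p ∈ BoxS c, f (Ψ p) = Ψ (M.f t p)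
  anti : ∀ p ∈ BoxS c, ∀ q ∈ BoxS c, dist p q ≤ K * dist (Ψ p) (Ψ q)
  lip : ∀ p ∈ BoxS c, ∀ q ∈ BoxS c, dist (Ψ p) (Ψ q) ≤ K1 * dist p q
  K1pos : 0 < K1
  kpos : 0 < k
  up : ∀ p ∈ BoxS c, ∀ v, ‖fderiv ℝ Ψ p v‖ ≤ K1 * ‖v‖
  lo : ∀ p ∈ BoxS c, ∀ v, k * ‖v‖ ≤ ‖fderiv ℝ Ψ p v‖
  der : ∀ p ∈ BoxS c, ∀ v : P2, fderiv ℝ f (Ψ p) (fderiv ℝ Ψ p v) =
    fderiv ℝ Ψ (M.f t p) (M.Ga t p.1 p.2 * v.1 + M.Gb t p.1 p.2 * v.2, v.1)

lemma f_box {c : Cs} {M : Mdl} {t : ℝ} (hM : M.OK c) (ht : TI t) {p : P2} (hp : p ∈ BoxS c) :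
    M.f t p ∈ BoxS c := ⟨hM.box t _ _ ht hp.1 hp.2, hp.1⟩

lemma f_der {c : Cs} {M : Mdl} {t : ℝ} (hM : M.OK c) (ht : TI t) {p : P2} (hp : p ∈ BoxS c) :
    HasFDerivAt (M.f t) ((M.Ga t p.1 p.2 • ContinuousLinearMap.fst ℝ ℝ ℝ +
      M.Gb t p.1 p.2 • ContinuousLinearMap.snd ℝ ℝ ℝ).prod (ContinuousLinearMap.fst ℝ ℝ ℝ)) p :=
  (hM.der t p.1 p.2 ht hp.1 hp.2).prodMk hasFDerivAt_fst

lemma exists_conj {c : Cs} {F : ℝ × P2 → P2} {M : Mdl} {t : ℝ} (hL : 0 < c.L)
    (hf : Differentiable ℝ fun z => F (t, z)) (hN : NormalForm c F M) (ht : TI t) :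
    ∃ Ψ K K1 k, Conj c M t (fun z => F (t, z)) Ψ K K1 k := by
  classical
  obtain ⟨Ψ0, hC0, hconj0, ⟨K, hK0⟩, hinj0⟩ := hN.conj t ht
  set U : Set P2 := ball 0 (2 * c.L + 1) with hU
  have hUo : IsOpen U := isOpen_ball
  have hBU := box_sub c
  set Ψ := U.piecewise Ψ0 (fun _ => 0) with hΨ
  have heq : EqOn Ψ Ψ0 U := fun p hp => piecewise_eq_of_mem _ _ _ hp
  have hC : ContDiffOn ℝ 1 Ψ U := hC0.congr heq
  have hfd : ∀ p ∈ U, fderiv ℝ Ψ p = fderiv ℝ Ψ0 p := fun p hp =>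
    (heq.eventuallyEq_of_mem (hUo.mem_nhds hp)).fderiv_eq
  obtain hconj : ∀ p ∈ BoxS c, F (t, Ψ p) = Ψ (M.f t p) := fun p hp => by
    rw [heq (hBU hp), heq (hBU (f_box hN.ok ht hp))]; exact hconj0 p hp
  have hdiff : ∀ p ∈ BoxS c, DifferentiableAt ℝ Ψ p := fun p hp =>
    (hC.contDiffAt (hUo.mem_nhds (hBU hp))).differentiableAt one_ne_zero
  have hcd : ContinuousOn (fderiv ℝ Ψ) (BoxS c) :=
    (hC.continuousOn_fderiv_of_isOpen hUo le_rfl).mono hBU
  obtain ⟨B, hB⟩ := (box_cpt c).exists_bound_of_continuousOn hcd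
  obtain ⟨L1, hL1⟩ := (hC.mono hBU).exists_lipschitzOnWith one_ne_zero (box_cvx c) (box_cpt c)
  obtain h0B : (0 : P2) ∈ BoxS c := by constructor <;> simp [Box, hL.le]
  have hsph : IsCompact (BoxS c ×ˢ sphere (0 : P2) 1) := (box_cpt c).prod (isCompact_sphere _ _)
  have hcn : ContinuousOn (fun x : P2 × P2 => ‖fderiv ℝ Ψ x.1 x.2‖) (BoxS c ×ˢ sphere (0 : P2) 1) :=
    ((hcd.comp continuousOn_fst fun x hx => hx.1).clm_apply continuousOn_snd).norm
  obtain ⟨x0, hx0, hmin⟩ := hsph.exists_isMinOn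
    ⟨(0, (1, 0)), h0B, by simp [Prod.norm_def]⟩ hcn
  obtain hk : 0 < ‖fderiv ℝ Ψ x0.1 x0.2‖ := by
    rw [norm_pos_iff]
    intro h
    obtain h1 : x0.2 = 0 := by
      apply hinj0 x0.1 hx0.1
      rw [← hfd _ (hBU hx0.1), h, map_zero]
    have := hx0.2
    simp [h1] at this
  refine ⟨Ψ, K, max (max B L1) 1, _, ?_, fun p hp => (hdiff p hp).continuousAt, hconj, ?_, ?_,
    lt_max_of_lt_right one_pos, hk, ?_, ?_, ?_⟩
  · exact hC0.continuousOn.measurable_piecewise continuousOn_const hUo.measurableSet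
  · intro p hp q hq
    rw [heq (hBU hp), heq (hBU hq)]; exact hK0 p hp q hq
  · intro p hp q hq
    exact (hL1.dist_le_mul p hp q hq).trans (mul_le_mul_of_nonneg_right
      ((le_max_right _ _).trans (le_max_left _ _)) dist_nonneg)
  · intro p hp v
    exact (ContinuousLinearMap.le_opNorm _ _).trans (mul_le_mul_of_nonneg_right
      ((hB p hp).trans ((le_max_left _ _).trans (le_max_left _ _))) (norm_nonneg _))
  · intro p hp v
    by_cases hv : v = 0
    · simp [hv]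
    have hn : 0 < ‖v‖ := norm_pos_iff.2 hv
    obtain h1 : ‖fderiv ℝ Ψ x0.1 x0.2‖ ≤ ‖fderiv ℝ Ψ p (‖v‖⁻¹ • v)‖ :=
      hmin (a := (p, ‖v‖⁻¹ • v)) ⟨hp, by simp [norm_smul, hn.ne']⟩
    rw [map_smul, norm_smul, norm_inv, norm_norm, inv_mul_eq_div, le_div_iff₀ hn] at h1
    exact h1
  · intro p hp v
    have d1 : HasFDerivAt ((fun z => F (t, z)) ∘ Ψ) _ p :=
      (hf (Ψ p)).hasFDerivAt.comp p (hdiff p hp).hasFDerivAt
    have d2 : HasFDerivAt (Ψ ∘ M.f t) _ p :=
      (hdiff _ (f_box hN.ok ht hp)).hasFDerivAt.comp p (f_der hN.ok ht hp)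
    have d3 := (d2.hasFDerivWithinAt (s := BoxS c)).congr (f₁ := (fun z => F (t, z)) ∘ Ψ)
      (fun q hq => hconj q hq) (hconj p hp)
    have e := (box_ud c hL p hp).eq d1.hasFDerivWithinAt d3
    have := congrArg (fun A : P2 →L[ℝ] P2 => A v) e
    simpa using this

/-- lifting a full orbit and a solution of the linearised recursion -/
lemma lift {c : Cs} {M : Mdl} {t : ℝ} {f Ψ : P2 → P2} {K K1 k : ℝ} (h : Conj c M t f Ψ K K1 k)
    {p : P2} {Y : ℤ → ℝ} (hY : FullOrb c M t p Y) :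
    (∀ j, (Y j, Y (j - 1)) ∈ BoxS c) ∧
    (∀ j, f (Ψ (Y j, Y (j - 1))) = Ψ (Y (j + 1), Y (j + 1 - 1))) ∧
    ∀ ξ, FSol M t Y ξ → ∀ j, fderiv ℝ f (Ψ (Y j, Y (j - 1)))
      (fderiv ℝ Ψ (Y j, Y (j - 1)) (ξ j, ξ (j - 1))) =
      fderiv ℝ Ψ (Y (j + 1), Y (j + 1 - 1)) (ξ (j + 1), ξ (j + 1 - 1)) := by
  have hb : ∀ j, (Y j, Y (j - 1)) ∈ BoxS c := fun j => ⟨(hY.2 j).1, (hY.2 (j - 1)).1⟩
  obtain hs : ∀ j, M.f t (Y j, Y (j - 1)) = (Y (j + 1), Y (j + 1 - 1)) := fun j => by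
    simp [Mdl.f, (hY.2 j).2]
  refine ⟨hb, fun j => by rw [h.conj _ (hb j), hs], fun ξ hξ j => ?_⟩
  rw [h.der _ (hb j), hs, hξ j]
  simp

end TR

open TR in
theorem tr : TR_s := by
  classical
  intro c F M t d μ hL _ hN ht hR g hg
  obtain hf1 : ContDiff ℝ 1 fun z => F (t, z) := hg.smooth.of_le (by exact_mod_cast le_top)
  have hfd : Differentiable ℝ fun z => F (t, z) := hf1.differentiable one_ne_zero
  obtain ⟨Ψ, K, K1, k, h⟩ := exists_conj hL hfd hN ht
  set f : P2 → P2 := fun z => F (t, z) with hfdef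
  have hM := hN.ok
  have := hR.prob
  have hBm : MeasurableSet (BoxS c) := (box_cpt c).isClosed.measurableSet
  have hB : ∀ᵐ p ∂μ, p ∈ BoxS c := hR.box
  have hΨc : ContinuousOn Ψ (BoxS c) := fun p hp => (h.cont p hp).continuousWithinAt
  obtain hinj : InjOn Ψ (BoxS c) := fun a ha b hb hab => by
    have := h.anti a ha b hb
    rw [hab, dist_self, mul_zero] at this
    exact dist_le_zero.1 this
  obtain hae : ∀ Q : P2 → Prop, (∀ᵐ p ∂μ, Q (Ψ p)) → ∀ᵐ z ∂(μ.map Ψ), Q z := by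
    intro Q hQ
    obtain ⟨T, hTs, hTm, hT0⟩ := exists_measurable_superset_of_null (ae_iff.1 hQ)
    have hm : MeasurableSet (Ψ '' (BoxS c \ T)) :=
      (hBm.diff hTm).image_of_continuousOn_injOn (hΨc.mono sdiff_subset) (hinj.mono sdiff_subset)
    obtain h1 : ∀ᵐ z ∂(μ.map Ψ), z ∈ Ψ '' (BoxS c \ T) := by
      refine (ae_map_iff (p := (· ∈ Ψ '' (BoxS c \ T))) h.meas.aemeasurable hm).2 ?_
      filter_upwards [hB, measure_eq_zero_iff_ae_notMem.1 hT0] with p hp hp'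
      exact ⟨p, ⟨hp, hp'⟩, rfl⟩
    filter_upwards [h1] with z hz
    obtain ⟨p, hp, rfl⟩ := hz
    by_contra hc
    exact hp.2 (hTs hc)
  -- ergodicity
  set f0 := (BoxS c).piecewise (M.f t) id with hf0
  have hf0m : Measurable f0 := ContinuousOn.measurable_piecewise
    (fun p hp => (f_der hM ht hp).continuousAt.continuousWithinAt) continuousOn_id hBm
  have hE0 : Ergodic f0 μ := hR.erg f0 hf0m fun p hp => piecewise_eq_of_mem _ _ _ hp
  obtain hsc : f ∘ Ψ =ᵐ[μ] Ψ ∘ f0 := by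
    filter_upwards [hB] with p hp
    simp only [Function.comp_apply, hf0, piecewise_eq_of_mem _ _ _ hp]
    exact h.conj p hp
  have hfm : Measurable f := hf1.continuous.measurable
  obtain hmp : MeasurePreserving f (μ.map Ψ) (μ.map Ψ) := ⟨hfm, by
    rw [Measure.map_map hfm h.meas, Measure.map_congr hsc, ← Measure.map_map h.meas hf0m,
      hE0.toMeasurePreserving.map_eq]⟩
  obtain hE : Ergodic f (μ.map Ψ) := by
    refine ⟨hmp, ⟨fun s hs hfs => ?_⟩⟩
    obtain h1 : f0 ⁻¹' (Ψ ⁻¹' s) =ᵐ[μ] Ψ ⁻¹' s := by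
      filter_upwards [hsc] with p hp
      obtain e : f (Ψ p) ∈ s ↔ Ψ p ∈ s := by rw [← mem_preimage, hfs]
      simp only [Function.comp_apply] at hp
      rw [hp] at e
      exact propext e
    rw [eventuallyConst_set]
    exact (hE0.quasiErgodic.ae_mem_or_ae_notMem₀ (h.meas hs).nullMeasurableSet h1).imp
      (hae (· ∈ s)) (hae (· ∉ s))
  obtain hgm : MeasurePreserving g (μ.map Ψ) (μ.map Ψ) := ⟨hg.smooth_inv.continuous.measurable, by
    conv_lhs => rw [← hmp.map_eq]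
    rw [Measure.map_map hg.smooth_inv.continuous.measurable hfm, hg.left.comp_eq_id,
      Measure.map_id]⟩
  have hsB : μ.support ⊆ BoxS c := Measure.support_subset_of_isClosed (box_cpt c).isClosed hB
  obtain hsupp : Ψ '' μ.support ⊆ (μ.map Ψ).support := by
    rintro _ ⟨p, hp, rfl⟩
    rw [Measure.mem_support_iff_forall]
    intro U hU
    exact lt_of_lt_of_le ((Measure.mem_support_iff_forall p).1 hp _ (h.cont p (hsB hp) hU))
      (Measure.le_map_apply h.meas.aemeasurable U)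
  have hIc : IsCompact (Ψ '' BoxS c) := (box_cpt c).image_of_continuousOn hΨc
  refine ⟨μ.map Ψ, Measure.isProbabilityMeasure_map h.meas.aemeasurable, hE, ?_, ?_, ?_, ?_, ?_⟩
  · refine hae _ ?_
    filter_upwards [hR.hyp] with p hp
    obtain ⟨Y, hY, ⟨ξ, C, e, hξ, hC, he, hb⟩, ⟨ξ', C', e', hξ', h0, he', hb'⟩⟩ := hp
    obtain ⟨hbx, hz, hw⟩ := lift h hY
    obtain hp0 : p = (Y 0, Y (0 - 1)) := by simpa using hY.1
    constructor
    · refine ⟨fderiv ℝ Ψ (Y 0, Y (0 - 1)) (ξ 0, ξ (0 - 1)), k * C, e, mul_pos h.kpos hC, he,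
        fun n => ?_⟩
      have := (fderiv_iter hfd (fun j => Ψ (Y j, Y (j - 1)))
        (fun j => fderiv ℝ Ψ (Y j, Y (j - 1)) (ξ j, ξ (j - 1))) hz (hw ξ hξ) 0 n).2
      rw [hp0, this, zero_add]
      refine le_trans ?_ (h.lo _ (hbx n) _)
      rw [mul_assoc]
      exact mul_le_mul_of_nonneg_left (hb n) h.kpos.le
    · refine ⟨fderiv ℝ Ψ (Y 0, Y (0 - 1)) (ξ' 0, ξ' (0 - 1)), K1 * C', e', ?_, he', fun n => ?_⟩
      · intro h1
        have h2 := h.lo _ (hbx 0) (ξ' 0, ξ' (0 - 1))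
        rw [h1, norm_zero] at h2
        obtain h3 : 0 < ‖(ξ' 0, ξ' (0 - 1))‖ := norm_pos_iff.2 (by simpa using h0)
        nlinarith only [h2, h3, h.kpos]
      have := (fderiv_iter hfd (fun j => Ψ (Y j, Y (j - 1)))
        (fun j => fderiv ℝ Ψ (Y j, Y (j - 1)) (ξ' j, ξ' (j - 1))) hz (hw ξ' hξ') 0 n).2
      rw [hp0, this, zero_add]
      refine (h.up _ (hbx n) _).trans ?_
      rw [mul_assoc]
      exact mul_le_mul_of_nonneg_left (hb' n) h.K1pos.le
  · refine isSRB_of_null g _ fun A hA hA0 => ?_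
    rw [Measure.map_apply h.meas hA]
    by_contra hne
    obtain ⟨Y, j, C, e, he, hY, hvol⟩ := hR.srb _ (h.meas hA) hne
    apply hvol
    obtain h0 : (0 : ℝ) ∈ Icc (0 : ℝ) 100 := by norm_num
    set z : ℝ → ℤ → P2 := fun u i => Ψ (Y u i, Y u (i - 1)) with hz
    have hzb : ∀ u ∈ Icc (0 : ℝ) 100, ∀ i, (Y u i, Y u (i - 1)) ∈ BoxS c := fun u hu =>
      (lift h (hY u hu).1).1
    have hzf : ∀ u ∈ Icc (0 : ℝ) 100, ∀ i, f (z u i) = z u (i + 1) := fun u hu =>
      (lift h (hY u hu).1).2.1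
    obtain hfw : ∀ u ∈ Icc (0 : ℝ) 100, ∀ n : ℕ, f^[n] (z u 0) = z u n := by
      intro u hu n
      induction n with
      | zero => rfl
      | succ n ih => rw [Function.iterate_succ_apply', ih, hzf u hu]; push_cast; rfl
    obtain hbw : ∀ u ∈ Icc (0 : ℝ) 100, ∀ n : ℕ, g^[n] (z u 0) = z u (-n) := by
      intro u hu n
      induction n with
      | zero => rfl
      | succ n ih =>
        obtain e1 : -(n : ℤ) = -((n + 1 : ℕ) : ℤ) + 1 := by push_cast; ring
        rw [Function.iterate_succ_apply', ih, e1, ← hzf u hu]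
        exact hg.left _
    obtain hWu : ∀ u ∈ Icc (0 : ℝ) 100, z u 0 ∈ Wu g (z 0 0) := by
      intro u hu
      refine ⟨K1 * |C|, e, he, fun n => ?_⟩
      rw [hbw 0 h0, hbw u hu]
      refine (h.lip _ (hzb 0 h0 _) _ (hzb u hu _)).trans ?_
      rw [mul_assoc]
      refine mul_le_mul_of_nonneg_left ?_ h.K1pos.le
      have a1 := ((hY u hu).2 0 h0).2.2 n
      have a2 := ((hY u hu).2 0 h0).2.2 (n + 1)
      obtain e1 : -((n + 1 : ℕ) : ℤ) = -(n : ℤ) - 1 := by push_cast; ring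
      rw [e1] at a2
      obtain a3 : Real.exp (-e * ((n + 1 : ℕ) : ℝ)) ≤ Real.exp (-e * n) :=
        Real.exp_le_exp.2 (by push_cast; linarith only [he])
      rw [Prod.dist_eq, Real.dist_eq, Real.dist_eq]
      refine max_le (a1.trans ?_) (a2.trans ?_)
      · exact mul_le_mul_of_nonneg_right (le_abs_self C) (Real.exp_pos _).le
      · exact (mul_le_mul_of_nonneg_right (le_abs_self C) (Real.exp_pos _).le).trans
          (mul_le_mul_of_nonneg_left a3 (abs_nonneg _))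
    obtain hfj : ∀ n : ℕ, ContDiff ℝ 1 (f^[n]) := by
      intro n
      induction n with
      | zero => exact contDiff_id
      | succ n ih => rw [Function.iterate_succ']; exact hf1.comp ih
    obtain ⟨L2, hL2⟩ := ((hfj j).locallyLipschitz.locallyLipschitzOn
      (s := Ψ '' BoxS c)).exists_lipschitzOnWith_of_compact hIc
    obtain hanti : ∀ a ∈ Icc (0 : ℝ) 100, ∀ b ∈ Icc (0 : ℝ) 100,
        dist a b ≤ |K| * L2 * dist (z a 0) (z b 0) := by
      intro a ha b hb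
      have a1 := h.anti _ (hzb a ha j) _ (hzb b hb j)
      have a2 := hL2.dist_le_mul (z a 0) ⟨_, hzb a ha 0, rfl⟩ (z b 0) ⟨_, hzb b hb 0, rfl⟩
      rw [hfw a ha, hfw b hb] at a2
      obtain a3 : dist a b ≤ dist (Y a j, Y a (j - 1)) (Y b j, Y b (j - 1)) := by
        rw [Prod.dist_eq, Real.dist_eq, Real.dist_eq, ((hY b hb).2 a ha).1]
        exact le_max_left _ _
      calc dist a b ≤ K * dist (z a j) (z b j) := a3.trans a1
        _ ≤ |K| * dist (z a j) (z b j) := mul_le_mul_of_nonneg_right (le_abs_self K) dist_nonneg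
        _ ≤ |K| * (L2 * dist (z a 0) (z b 0)) := mul_le_mul_of_nonneg_left a2 (abs_nonneg _)
        _ = _ := by ring
    set E := {u | u ∈ Icc (0 : ℝ) 100 ∧ (Y u 0, Y u (-1)) ∈ Ψ ⁻¹' A} with hEdef
    obtain ⟨ψ, hψ, hψE⟩ := exists_inv hanti (E := E) fun u hu => hu.1
    have a1 := hψ.hausdorffMeasure_image_le (d := 1) zero_le_one
    obtain a2 : μH[1] ((fun u => z u 0) '' E) = 0 := by
      refine measure_mono_null ?_ (hA0 (z 0 0))
      rintro _ ⟨u, hu, rfl⟩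
      exact ⟨by simpa [hz] using hu.2, hWu u hu.1⟩
    rw [hψE, a2, mul_zero, hausdorffMeasure_real] at a1
    exact le_antisymm a1 zero_le
  · refine hIc.of_isClosed_subset Measure.isClosed_support
      (Measure.support_subset_of_isClosed hIc.isClosed (hae (· ∈ Ψ '' BoxS c) ?_))
    filter_upwards [hB] with p hp
    exact ⟨p, hp, rfl⟩
  · obtain ⟨ψ, hψ, hψE⟩ := exists_inv h.anti hsB
    have a1 := hψ.dimH_image_le
    rw [hψE] at a1
    exact hR.dim.trans (a1.trans (dimH_mono hsupp))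
  · obtain ⟨p, hp, Y, ξ, hY, hξ, h1, hb⟩ := hR.nuh
    obtain ⟨hbx, hz, hw⟩ := lift h hY
    obtain hp0 : p = (Y 0, Y (0 - 1)) := by simpa using hY.1
    refine not_unifHyp hfd (fun j => Ψ (Y j, Y (j - 1)))
      (fun j => fderiv ℝ Ψ (Y j, Y (j - 1)) (ξ j, ξ (j - 1))) (K1 * 1) hz (hw ξ hξ)
      (fun j => ?_) (fun j => ?_) ?_
    · induction j using Int.induction_on with
      | zero => exact hsupp ⟨p, hp, by rw [hp0]⟩
      | succ n ih => rw [← hz]; exact supp_fwd hf1.continuous hmp ih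
      | pred n ih =>
        have e1 := hz (-(n : ℤ) - 1)
        rw [sub_add_cancel] at e1
        have e2 := supp_fwd hg.smooth_inv.continuous hgm ih
        rw [← e1, hg.left] at e2
        exact e2
    · refine (h.up _ (hbx j) _).trans (mul_le_mul_of_nonneg_left ?_ h.K1pos.le)
      exact max_le (hb _) (hb _)
    · intro h1'
      have h2 := h.lo _ (hbx 0) (ξ 0, ξ (0 - 1))
      rw [h1', norm_zero] at h2
      obtain h3 : 0 < ‖(ξ 0, ξ (0 - 1))‖ := norm_pos_iff.2 (by simp [h1])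
      nlinarith only [h2, h3, h.kpos]

end
end Pool.Agent.MP_9cbfe4_an

end

/-! ### Part G0a -/

section

/-! Rows G0 and G6, part a: orbits of the base segment, compactness of histories, row G6. -/

namespace Pool.Agent.MP_9cbfe4_an

open MeasureTheory Filter Topology Metric Set

noncomputable section
namespace G0

lemma dP_cont : Continuous dP := by unfold dP; fun_prop

lemma O_neg (M : Mdl) (t v : ℝ) {j : ℤ} (h : j < 0) : (M.O t v).X j = 10 := by
  simp [Mdl.O, Mdl.orb, Mdl.pos, not_le.2 h]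

lemma pt_nat (M : Mdl) (t v : ℝ) (n : ℕ) : M.pt t v n = (M.f t)^[n] (v, 10) := by
  cases n with
  | zero => simp [Mdl.pt, Mdl.O, Mdl.orb, Mdl.pos]
  | succ n =>
    obtain e : ((n + 1 : ℕ) : ℤ) - 1 = n := by push_cast; ring
    simp only [Mdl.pt, e]
    simp only [Mdl.O, Mdl.orb, Mdl.pos, Int.natCast_nonneg, if_true, sub_zero, Int.toNat_natCast]
    rw [Function.iterate_succ_apply']
    rfl

lemma pt_add (M : Mdl) (t v : ℝ) {s : ℤ} (hs : 0 ≤ s) (i : ℕ) :
    M.pt t v (s + i) = (M.f t)^[i] (M.pt t v s) := by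
  obtain ⟨n, rfl⟩ := Int.eq_ofNat_of_zero_le hs
  rw [← Nat.cast_add, pt_nat, pt_nat, add_comm, Function.iterate_add_apply]

lemma O_step (M : Mdl) (t v : ℝ) {j : ℤ} (h : 0 ≤ j) :
    (M.O t v).X (j + 1) = M.G t ((M.O t v).X j) ((M.O t v).X (j - 1)) :=
  congrArg Prod.fst (pt_add M t v h 1)

lemma iter_box {c : Cs} {M : Mdl} {t : ℝ} (hM : M.OK c) (ht : TI t) (i : ℕ) :
    MapsTo ((M.f t)^[i]) (BoxS c) (BoxS c) :=
  MapsTo.iterate (fun _ hp => TR.f_box hM ht hp) i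

lemma iter_cont {c : Cs} {M : Mdl} {t : ℝ} (hM : M.OK c) (ht : TI t) (i : ℕ) :
    ContinuousOn ((M.f t)^[i]) (BoxS c) :=
  ContinuousOn.iterate (fun _ hp => (TR.f_der hM ht hp).continuousAt.continuousWithinAt)
    (fun _ hp => TR.f_box hM ht hp) i

lemma O_box {c : Cs} {M : Mdl} {t : ℝ} (hM : M.OK c) (ht : TI t) (hL : 50 ≤ c.L) {v : ℝ}
    (hv : v ∈ Icc (0 : ℝ) 100) (j : ℤ) : Box c ((M.O t v).X j) := by
  obtain h10 : Box c 10 := by unfold Box; rw [abs_of_pos (by norm_num)]; linarith only [hL]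
  rcases lt_or_ge j 0 with h | h
  · rw [O_neg M t v h]; exact h10
  · obtain ⟨n, rfl⟩ := Int.eq_ofNat_of_zero_le h
    obtain h0 : ((v, 10) : P2) ∈ BoxS c :=
      ⟨by unfold Box; rw [abs_of_nonneg hv.1]; linarith only [hL, hv.2], h10⟩
    have := iter_box hM ht n h0
    rw [← pt_nat] at this
    exact this.1

lemma fr_rec (S : Sq) {j : ℤ} (h : 0 ≤ j) :
    S.fr 0 (j + 1) = S.a j * S.fr 0 j + S.b j * S.fr 0 (j - 1) := by
  obtain ⟨n, rfl⟩ := Int.eq_ofNat_of_zero_le h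
  obtain e1 : S.fr 0 ((n : ℤ) + 1) = (S.frP 0 (n + 1)).2 := by
    simp only [Sq.fr, sub_zero]
    rw [if_pos (by positivity), show ((n : ℤ) + 1).toNat = n + 1 by omega]
  obtain e2 : S.fr 0 (n : ℤ) = (S.frP 0 n).2 := by simp [Sq.fr]
  obtain e3 : S.fr 0 ((n : ℤ) - 1) = (S.frP 0 n).1 := by
    cases n with
    | zero => simp [Sq.fr, Sq.frP]
    | succ n =>
      obtain e : ((n + 1 : ℕ) : ℤ) - 1 = n := by push_cast; ring
      rw [e]; simp [Sq.fr, Sq.frP]
  rw [e1, e2, e3]; simp [Sq.frP]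

/-- limits of a function of two box coordinates -/
lemma lim2 {c : Cs} {g : P2 → ℝ} (hg : ContinuousOn g (BoxS c)) {x y : ℕ → ℝ} {a b : ℝ}
    (hx : Tendsto x atTop (𝓝 a)) (hy : Tendsto y atTop (𝓝 b)) (hb : ∀ n, Box c (x n) ∧ Box c (y n))
    (hab : Box c a ∧ Box c b) : Tendsto (fun n => g (x n, y n)) atTop (𝓝 (g (a, b))) :=
  (hg (a, b) hab).tendsto.comp (tendsto_nhdsWithin_iff.2
    ⟨hx.prodMk_nhds hy, Eventually.of_forall hb⟩)

lemma G_cont {c : Cs} {M : Mdl} {t : ℝ} (hM : M.OK c) (ht : TI t) :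
    ContinuousOn (fun p : P2 => M.G t p.1 p.2) (BoxS c) := fun p hp =>
  (hM.der t p.1 p.2 ht hp.1 hp.2).continuousAt.continuousWithinAt

lemma box_lim {c : Cs} {x : ℕ → ℝ} {a : ℝ} (hx : Tendsto x atTop (𝓝 a)) (hb : ∀ n, Box c (x n)) :
    Box c a := le_of_tendsto' hx.abs hb

lemma ev_ge {φ : ℕ → ℕ} (hφ : StrictMono φ) (k : ℤ) : ∀ᶠ n in atTop, k ≤ (φ n : ℤ) := by
  filter_upwards [hφ.tendsto_atTop.eventually_ge_atTop k.toNat] with n hn
  omega

end G0

open G0 in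
theorem g6 : Hier fun c => CRIT_s c → G6_s c := by
  refine ((Hier.base.and (Hier.L_ge (fun _ => 50) fun _ _ => rfl)).and
    (Hier.lam_ge (fun _ => 1) fun _ _ => rfl)).mono ?_
  rintro c ⟨⟨hb, hL⟩, hlam⟩ hC Ex M t hM ht hH
  choose v hv ξ hx hI hS h1 hξ using hC Ex M t hM ht hH
  let Y : ℕ → ℤ → ℝ := fun N j => (M.O t (v N)).X (1 + N + j)
  let η : ℕ → ℤ → ℝ := fun N j => if 0 ≤ 1 + N + j then ξ N (1 + N + j) else 0
  have hK : IsCompact ((univ.pi fun _ : ℤ => Icc (-(2 * c.L)) (2 * c.L)) ×ˢ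
      (univ.pi fun _ : ℤ => Icc (-1 : ℝ) 1)) :=
    (isCompact_univ_pi fun _ => isCompact_Icc).prod (isCompact_univ_pi fun _ => isCompact_Icc)
  have hYb : ∀ N j, Box c (Y N j) := fun N j => O_box hM ht hL (hv N) _
  obtain hηb : ∀ N j, |η N j| ≤ 1 := fun N j => by
    simp only [η]; split_ifs with h
    · exact hξ N _ h
    · simp
  obtain ⟨⟨Z, ζ⟩, -, φ, hφ, hlim⟩ := hK.tendsto_subseq (x := fun N => (Y N, η N))
    fun N => ⟨fun j _ => abs_le.1 (hYb N j), fun j _ => abs_le.1 (hηb N j)⟩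
  have hZ : ∀ j, Tendsto (fun n => Y (φ n) j) atTop (𝓝 (Z j)) := fun j =>
    tendsto_pi_nhds.1 (continuous_fst.tendsto _ |>.comp hlim) j
  have hζ : ∀ j, Tendsto (fun n => η (φ n) j) atTop (𝓝 (ζ j)) := fun j =>
    tendsto_pi_nhds.1 (continuous_snd.tendsto _ |>.comp hlim) j
  have hZb : ∀ j, Box c (Z j) := fun j => box_lim (hZ j) fun n => hYb _ _
  obtain hFO : FullOrb c M t (Z 0, Z (-1)) Z := by
    refine ⟨rfl, fun j => ⟨hZb j, ?_⟩⟩
    refine tendsto_nhds_unique (hZ (j + 1)) ((lim2 (G_cont hM ht) (hZ j) (hZ (j - 1))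
      (fun n => ⟨hYb _ _, hYb _ _⟩) ⟨hZb _, hZb _⟩).congr' ?_)
    filter_upwards [ev_ge hφ (-j)] with n hn
    simp only [Y]
    rw [← add_assoc, O_step M t _ (by omega), add_sub_assoc]
  refine ⟨Z 0, ?_, (Z 0, Z (-1)), ⟨Z, hFO, rfl, fun k => ?_⟩, Z, ζ, hFO, fun j => ?_, ?_, fun j => ?_⟩
  · exact abs_le.1 (le_of_tendsto' (hZ 0).abs fun n => by simpa [Y] using hx (φ n))
  · obtain hev : ∀ᶠ n in atTop, Core c (Y (φ n) (-1 - k)) ∧ 0 < Y (φ n) (-1 - k) := by
      filter_upwards [ev_ge hφ (k + 1)] with n hn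
      obtain this := hI (φ n) k (by omega)
      obtain e : 1 + (φ n : ℤ) + (-1 - k) = 1 + φ n - 1 - k := by ring
      simp only [Y, e]
      exact ⟨this.1, this.2.2 rfl⟩
    have hc : Core c (Z (-1 - k)) :=
      le_of_tendsto ((dP_cont.tendsto _).comp (hZ _)) (hev.mono fun n hn => hn.1)
    have h0 : 0 ≤ Z (-1 - k) := ge_of_tendsto (hZ _) (hev.mono fun n hn => hn.2.le)
    refine ⟨hc, fun _ => rfl, fun _ => lt_of_le_of_ne h0 fun h => ?_⟩
    rw [← h] at hc
    obtain hw : c.w0 ≤ 1 := by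
      unfold Cs.w0; rw [div_le_one (by positivity)]; exact one_le_pow₀ hlam
    obtain hw0 : 0 ≤ c.w0 := by unfold Cs.w0; positivity
    obtain he : 0 ≤ c.e0 := by unfold Cs.e0; linarith only [hb.2.1]
    have hpi := Real.pi_gt_three
    obtain this : dP 0 = Real.pi / 2 := by
      unfold dP
      rw [zero_sub, zero_add, abs_neg, min_self, abs_of_pos (by linarith only [hb, hpi])]
    unfold Core at hc
    nlinarith only [hc, hw, this, hb, hpi, hw0, he]
  · refine tendsto_nhds_unique (hζ (j + 1)) ((((lim2 (hM.conta t ht) (hZ j) (hZ (j - 1))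
      (fun n => ⟨hYb _ _, hYb _ _⟩) ⟨hZb _, hZb _⟩).mul (hζ j)).add
      ((lim2 (hM.contb t ht) (hZ j) (hZ (j - 1))
      (fun n => ⟨hYb _ _, hYb _ _⟩) ⟨hZb _, hZb _⟩).mul (hζ (j - 1)))).congr' ?_)
    filter_upwards [ev_ge hφ (-j)] with n hn
    simp only [Y, η]
    rw [if_pos (by omega), if_pos (by omega), if_pos (by omega), ← add_assoc,
      hS (φ n) _ (by omega), ← add_sub_assoc]
    rfl
  · refine tendsto_nhds_unique (hζ 0) (tendsto_const_nhds.congr fun n => ?_)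
    simp only [η]
    rw [if_pos (by omega), add_zero, h1]
  · exact le_of_tendsto' (hζ j).abs fun n => hηb _ _

end
end Pool.Agent.MP_9cbfe4_an

end

/-! ### Part G0 -/

section

/-! Row G0: closed properties of the limit curves. -/

namespace Pool.Agent.MP_9cbfe4_an

open MeasureTheory Filter Topology Metric Set

noncomputable section
namespace G0

abbrev II := Set.Icc (0 : ℝ) 100

/-- histories in the box that are `1`-Lipschitz -/
def Kc (c : Cs) : Set Hs :=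
  {H | (∀ j u, Box c (H j u)) ∧ ∀ j u u', |H j u' - H j u| ≤ |(u' : ℝ) - u|}

lemma Kc_cpt (c : Cs) : IsCompact (Kc c) := by
  let S : Set C(II, ℝ) := {g | (∀ u, Box c (g u)) ∧ ∀ u u', |g u' - g u| ≤ |(u' : ℝ) - u|}
  obtain hS : IsCompact S := by
    refine ArzelaAscoli.isCompact_of_equicontinuous S ?_ ?_
    · obtain e : ContinuousMap.toFun '' S = (univ.pi fun _ : II => Icc (-(2 * c.L)) (2 * c.L)) ∩
          ⋂ u : II, ⋂ u' : II, {g : II → ℝ | |g u' - g u| ≤ |(u' : ℝ) - u|} := by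
        ext g
        simp only [mem_image, mem_inter_iff, Set.mem_pi, mem_univ, true_imp_iff, mem_iInter,
          mem_ofPred_eq]
        constructor
        · rintro ⟨g, hg, rfl⟩
          exact ⟨fun u => abs_le.1 (hg.1 u), hg.2⟩
        · rintro ⟨h1, h2⟩
          obtain this : LipschitzWith 1 g := LipschitzWith.of_dist_le_mul fun u u' => by
            rw [NNReal.coe_one, one_mul]; exact h2 u' u
          exact ⟨⟨g, this.continuous⟩, ⟨fun u => abs_le.2 (h1 u), h2⟩, rfl⟩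
      rw [e]
      exact (isCompact_univ_pi fun _ => isCompact_Icc).inter_right
        (isClosed_iInter fun u => isClosed_iInter fun u' => isClosed_le (by fun_prop) (by fun_prop))
    · exact Metric.equicontinuous_of_continuity_modulus id tendsto_id _
        fun x y g => g.2.2 y x
  obtain e : Kc c = univ.pi fun _ => S := by
    ext H
    simp only [Kc, S, mem_ofPred_eq, Set.mem_pi, mem_univ, true_imp_iff, forall_and]
  rw [e]
  exact isCompact_univ_pi fun _ => hS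

lemma ev_lim {Hn : ℕ → Hs} {H : Hs} (h : Tendsto Hn atTop (𝓝 H)) (j : ℕ) (u : II) :
    Tendsto (fun n => Hn n j u) atTop (𝓝 (H j u)) :=
  ((continuous_eval_const u).tendsto _).comp (tendsto_pi_nhds.1 h j)

lemma hpt_lim {Hn : ℕ → Hs} {H : Hs} (h : Tendsto Hn atTop (𝓝 H)) (j : ℕ) (u : ℝ) :
    Tendsto (fun n => hpt (Hn n) j u) atTop (𝓝 (hpt H j u)) :=
  (ev_lim h j _).prodMk_nhds (ev_lim h (j + 1) _)

lemma hpt_cont (H : Hs) (j : ℕ) : Continuous (hpt H j) := by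
  obtain this : Continuous pr := continuous_projIcc (h := by norm_num)
  exact ((H j).continuous.comp this).prodMk ((H (j + 1)).continuous.comp this)

lemma hpt_box {c : Cs} {H : Hs} (h : H ∈ Kc c) (j : ℕ) (u : ℝ) : hpt H j u ∈ BoxS c :=
  ⟨h.1 _ _, h.1 _ _⟩

lemma pr_coe {u : ℝ} (hu : u ∈ II) : (pr u : ℝ) = u := by
  unfold pr; rw [projIcc_of_mem _ hu]

/-- standing hypotheses -/
structure Ctx (c : Cs) (Ex : ExT) (M : Mdl) (t : ℝ) : Prop where
  hM : M.OK c
  ht : TI t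
  hL : 50 ≤ c.L
  hlam : 0 ≤ c.lam
  hT0 : ∀ s x0 φ, Adm c Ex M t s x0 φ → AdmP c Ex M t s x0 φ

variable {c : Cs} {Ex : ExT} {M : Mdl} {t : ℝ}

lemma lip1 (h : Ctx c Ex M t) {s x0 φ} (hA : Adm c Ex M t s x0 φ) (j : ℕ) {u u' : ℝ} (hu : u ∈ II)
    (hu' : u' ∈ II) : |(M.O t (φ u')).X (s - j) - (M.O t (φ u)).X (s - j)| ≤ |u' - u| := by
  have hP := h.hT0 _ _ _ hA
  rcases Nat.eq_zero_or_pos j with rfl | hj
  · simp only [Nat.cast_zero, sub_zero]
    rw [(hP.mem u hu).2.1, (hP.mem u' hu').2.1, add_sub_add_left_eq_sub]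
  · refine (hP.lip u hu u' hu' _ (by omega)).trans (mul_le_of_le_one_left (abs_nonneg _) ?_)
    exact Real.exp_le_one_iff.2 (by linarith only [h.hlam])

lemma exists_hist (h : Ctx c Ex M t) {s x0 φ} (hA : Adm c Ex M t s x0 φ) :
    ∃ H : Hs, ∀ (j : ℕ) (u : II), H j u = (M.O t (φ u)).X (s - j) := by
  refine ⟨fun j => ⟨fun u => (M.O t (φ u)).X (s - j), ?_⟩, fun _ _ => rfl⟩
  exact (LipschitzWith.of_dist_le_mul (K := 1) fun u u' => by
    rw [NNReal.coe_one, one_mul]; exact lip1 h hA j u'.2 u.2).continuous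

lemma AdmH_sub (h : Ctx c Ex M t) (m : ℕ) : AdmH c Ex M t m ⊆ Kc c := by
  rintro H ⟨s, x0, φ, hA, -, hH⟩
  refine ⟨fun j u => ?_, fun j u u' => ?_⟩
  · rw [hH]; exact O_box h.hM h.ht h.hL ((h.hT0 _ _ _ hA).mem u u.2).1 _
  · rw [hH, hH]; exact lip1 h hA j u.2 u'.2

lemma AdmH_anti {m m' : ℕ} (hm : m ≤ m') : AdmH c Ex M t m' ⊆ AdmH c Ex M t m := by
  rintro H ⟨s, x0, φ, hA, hs, hH⟩
  exact ⟨s, x0, φ, hA, le_trans (by exact_mod_cast hm) hs, hH⟩

lemma Ab_sub (h : Ctx c Ex M t) : Ab c Ex M t ⊆ Kc c :=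
  (iInter_subset _ 0).trans (closure_minimal (AdmH_sub h 0) (Kc_cpt c).isClosed)

lemma seq {H : Hs} (hH : H ∈ Ab c Ex M t) :
    ∃ Hn : ℕ → Hs, (∀ n, Hn n ∈ AdmH c Ex M t n) ∧ Tendsto Hn atTop (𝓝 H) := by
  obtain ⟨U, hU⟩ := (𝓝 H).exists_antitone_basis
  have : ∀ n, ∃ G, G ∈ U n ∧ G ∈ AdmH c Ex M t n := fun n =>
    mem_closure_iff_nhds.1 (mem_iInter.1 hH n) _ (hU.mem n)
  choose G h1 h2 using this
  exact ⟨G, h2, hU.tendsto h1⟩

lemma sublim (h : Ctx c Ex M t) {Hn : ℕ → Hs} (hn : ∀ n, Hn n ∈ AdmH c Ex M t n) :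
    ∃ H ∈ Ab c Ex M t, ∃ φ : ℕ → ℕ, StrictMono φ ∧ Tendsto (Hn ∘ φ) atTop (𝓝 H) := by
  obtain ⟨H, -, φ, hφ, hl⟩ := (Kc_cpt c).tendsto_subseq fun n => AdmH_sub h n (hn n)
  refine ⟨H, mem_iInter.2 fun m => mem_closure_of_tendsto hl ?_, φ, hφ, hl⟩
  filter_upwards [hφ.tendsto_atTop.eventually_ge_atTop m] with n hm
  exact AdmH_anti hm (hn _)

lemma hpt_eq {H : Hs} {s : ℤ} {φ : ℝ → ℝ}
    (hH : ∀ (j : ℕ) (u : II), H j u = (M.O t (φ u)).X (s - j)) (j : ℕ) {u : ℝ} (hu : u ∈ II) :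
    hpt H j u = M.pt t (φ u) (s - j) := by
  simp only [hpt, Mdl.pt, hH, pr_coe hu]
  push_cast
  rw [sub_add_eq_sub_sub]

lemma cont_comp (h : Ctx c Ex M t) {H : Hs} (hH : H ∈ Kc c) {ψ : P2 → ℝ} (hψ : Continuous ψ)
    (i j : ℕ) : Continuous fun u => ψ ((M.f t)^[i] (hpt H j u)) :=
  hψ.comp ((iter_cont h.hM h.ht i).comp_continuous (hpt_cont H j) (hpt_box hH j))

lemma int_lim (h : Ctx c Ex M t) {Hn : ℕ → Hs} {H : Hs} (hn : ∀ n, Hn n ∈ Kc c) (hH : H ∈ Kc c)
    (hl : Tendsto Hn atTop (𝓝 H)) {ψ : P2 → ℝ} (hψ : Continuous ψ) (hb : ∀ p, 0 ≤ ψ p ∧ ψ p ≤ 1)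
    (i j : ℕ) (a b : ℝ) :
    Tendsto (fun n => ∫ u in a..b, ψ ((M.f t)^[i] (hpt (Hn n) j u))) atTop
      (𝓝 (∫ u in a..b, ψ ((M.f t)^[i] (hpt H j u)))) := by
  refine intervalIntegral.tendsto_integral_filter_of_dominated_convergence (fun _ => 1)
    (Eventually.of_forall fun n => (cont_comp h (hn n) hψ i j).aestronglyMeasurable)
    (Eventually.of_forall fun n => ae_of_all _ fun u _ => ?_) intervalIntegrable_const
    (ae_of_all _ fun u _ => ?_)
  · rw [Real.norm_eq_abs, abs_of_nonneg (hb _).1]; exact (hb _).2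
  · exact (hψ.tendsto _).comp ((iter_cont h.hM h.ht i _ (hpt_box hH j u)).tendsto.comp
      (tendsto_nhdsWithin_iff.2 ⟨hpt_lim hl j u, Eventually.of_forall fun n => hpt_box (hn n) j u⟩))

lemma int_eq (h : Ctx c Ex M t) {H : Hs} {s x0 φ} (hA : Adm c Ex M t s x0 φ)
    (hH : ∀ (j : ℕ) (u : II), H j u = (M.O t (φ u)).X (s - j)) (ψ : P2 → ℝ) (i : ℕ) {α l : ℝ}
    (h0 : 0 ≤ α) (hl : 0 < l) (h1 : α + l ≤ 100) :
    ∫ u in α..α + l, ψ ((M.f t)^[i] (hpt H 0 u)) = ∫ u in α..α + l, ψ (M.pt t (φ u) (s + i)) := by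
  refine intervalIntegral.integral_congr fun u hu => ?_
  rw [uIcc_of_le (by linarith only [hl])] at hu
  have hu' : u ∈ II := ⟨h0.trans hu.1, hu.2.trans h1⟩
  simp only [hpt_eq hH 0 hu', Nat.cast_zero, sub_zero, pt_add M t _ (h.hT0 _ _ _ hA).s0]

lemma sup_lim (h : Ctx c Ex M t) {ψ : P2 → ℝ} (hψ : Continuous ψ) (hb : ∀ p, 0 ≤ ψ p ∧ ψ p ≤ 1)
    (j : ℕ) {B δ : ℝ} (hδ : 0 < δ) (hB : ∀ H' ∈ Ab c Ex M t, ∫ u in (0 : ℝ)..100, ψ (hpt H' j u) ≤ B) :
    ∀ᶠ m : ℕ in atTop, ∀ s' x' φ', Adm c Ex M t s' x' φ' → (m : ℤ) ≤ s' →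
      ∫ u in (0 : ℝ)..100, ψ (M.pt t (φ' u) (s' - j)) ≤ B + δ := by
  suffices ∃ m : ℕ, ∀ s' x' φ', Adm c Ex M t s' x' φ' → (m : ℤ) ≤ s' →
      ∫ u in (0 : ℝ)..100, ψ (M.pt t (φ' u) (s' - j)) ≤ B + δ by
    obtain ⟨m, hm⟩ := this
    filter_upwards [eventually_ge_atTop m] with k hk s' x' φ' hA hs
    exact hm s' x' φ' hA (le_trans (by exact_mod_cast hk) hs)
  by_contra hc
  push Not at hc
  obtain this : ∀ m : ℕ, ∃ G ∈ AdmH c Ex M t m, B + δ ≤ ∫ u in (0 : ℝ)..100, ψ (hpt G j u) := by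
    intro m
    obtain ⟨s', x', φ', hA, hs, hlt⟩ := hc m
    obtain ⟨G, hG⟩ := exists_hist h hA
    refine ⟨G, ⟨s', x', φ', hA, hs, hG⟩, hlt.le.trans_eq ?_⟩
    refine intervalIntegral.integral_congr fun u hu => ?_
    rw [uIcc_of_le (by norm_num)] at hu
    simp only [hpt_eq hG j hu]
  choose G hG hG' using this
  obtain ⟨H, hH, φ, -, hl⟩ := sublim h hG
  have h1 := int_lim h (fun n => AdmH_sub h _ (hG (φ n))) (Ab_sub h hH) hl hψ hb 0 j 0 100
  have h2 := ge_of_tendsto' h1 fun n => hG' (φ n)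
  have h3 := hB H hH
  simp only [Function.iterate_zero, id] at h2
  linarith only [hδ, h2, h3]

lemma gs_lim (h : Ctx c Ex M t) {ψ : P2 → ℝ} (hψ : Continuous ψ)
    (h1 : ∀ p ∈ Gs c Ex M t, ψ p = 1) {δ : ℝ} (hδ : 0 < δ) :
    ∃ m : ℕ, ∀ s' x' φ', Adm c Ex M t s' x' φ' → (m : ℤ) ≤ s' → ∀ u ∈ II,
      1 - δ ≤ ψ (M.pt t (φ' u) s') := by
  by_contra hc
  push Not at hc
  obtain this : ∀ m : ℕ, ∃ G ∈ AdmH c Ex M t m, ∃ u ∈ II, ψ (hpt G 0 u) ≤ 1 - δ := by
    intro m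
    obtain ⟨s', x', φ', hA, hs, u, hu, hlt⟩ := hc m
    obtain ⟨G, hG⟩ := exists_hist h hA
    refine ⟨G, ⟨s', x', φ', hA, hs, hG⟩, u, hu, ?_⟩
    rw [hpt_eq hG 0 hu]; simpa using hlt.le
  choose G hG u hu hG' using this
  obtain ⟨H, hH, φ, -, hl⟩ := sublim h hG
  obtain ⟨w, hw, φ', hφ', hl'⟩ := (isCompact_Icc (a := (0 : ℝ)) (b := 100)).tendsto_subseq
    (x := u ∘ φ) fun n => hu _
  have hl2 := hl.comp hφ'.tendsto_atTop
  obtain key : ∀ j, Tendsto (fun n => G (φ (φ' n)) j (pr (u (φ (φ' n))))) atTop (𝓝 (H j (pr w))) := by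
    intro j
    have a1 := ev_lim hl2 j (pr w)
    obtain a2 : Tendsto (fun n => G (φ (φ' n)) j (pr (u (φ (φ' n)))) - G (φ (φ' n)) j (pr w)) atTop
        (𝓝 0) := by
      have a3 := (hl'.sub_const w).abs
      rw [sub_self, abs_zero] at a3
      refine squeeze_zero_norm (fun n => ?_) a3
      have := (AdmH_sub h _ (hG (φ (φ' n)))).2 j (pr w) (pr (u (φ (φ' n))))
      rwa [pr_coe hw, pr_coe (hu _)] at this
    simpa using a2.add a1
  have a4 := (hψ.tendsto _).comp ((key 0).prodMk_nhds (key 1))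
  have a5 := le_of_tendsto' a4 fun n => hG' (φ (φ' n))
  have a6 := h1 (hpt H 0 w) ⟨H, hH, w, rfl⟩
  unfold hpt at a6
  simp only [zero_add] at a6
  linarith only [hδ, a5, a6]

lemma int_low {g : ℝ → ℝ} (hg : Continuous g) (hb : ∀ u, 0 ≤ g u) {α l δ η : ℝ} (hl : 0 < l)
    (hδ : 0 ≤ δ) (hη : 0 ≤ η) {N : Set ℝ} (hN : volume N ≤ ENNReal.ofReal η)
    (h : ∀ u ∈ Icc α (α + l), u ∉ N → 1 - δ ≤ g u) :
    l * (1 - δ) - η ≤ ∫ u in α..α + l, g u := by
  set N' := toMeasurable volume N with hN'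
  have hm : MeasurableSet N' := measurableSet_toMeasurable _ _
  have hi : IntervalIntegrable (N'.indicator fun _ => (1 : ℝ)) volume α (α + l) :=
    ⟨(integrableOn_const measure_Ioc_lt_top.ne).indicator hm,
      (integrableOn_const measure_Ioc_lt_top.ne).indicator hm⟩
  obtain h1 : ∫ u in α..α + l, N'.indicator (fun _ => (1 : ℝ)) u ≤ η := by
    rw [intervalIntegral.integral_of_le (by linarith only [hl]), integral_indicator hm, setIntegral_const,
      smul_eq_mul, mul_one]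
    refine ENNReal.toReal_le_of_le_ofReal hη ((Measure.restrict_apply_le _ _).trans ?_)
    rw [hN', measure_toMeasurable]; exact hN
  obtain h2 : ∫ u in α..α + l, ((1 - δ) - N'.indicator (fun _ => (1 : ℝ)) u) ≤
      ∫ u in α..α + l, g u := by
    refine intervalIntegral.integral_mono_on (by linarith only [hl]) (intervalIntegrable_const.sub hi)
      (hg.intervalIntegrable _ _) fun u hu => ?_
    by_cases hu' : u ∈ N'
    · rw [indicator_of_mem hu']; linarith only [hδ, hb u]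
    · rw [indicator_of_notMem hu', sub_zero]
      exact h u hu fun h' => hu' (subset_toMeasurable _ _ h')
  rw [intervalIntegral.integral_sub intervalIntegrable_const hi, intervalIntegral.integral_const,
    smul_eq_mul, add_sub_cancel_left] at h2
  linarith only [h1, h2]

lemma geo (h : Ctx c Ex M t) {H : Hs} (hH : H ∈ Ab c Ex M t) :
    (∀ j u, Box c (H j u)) ∧ (∀ j u, H j u = M.G t (H (j + 1) u) (H (j + 2) u)) ∧
    (∀ u u', H 0 u' - H 0 u = (u' : ℝ) - u) ∧ (∀ j u u', |H j u' - H j u| ≤ |(u' : ℝ) - u|) ∧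
    ∀ u, 4 / 100 ≤ dP (H 1 u) := by
  have hK := Ab_sub h hH
  obtain ⟨G, hG, hl⟩ := seq hH
  have hGK := fun n => AdmH_sub h n (hG n)
  choose s x φ hA hs hGe using hG
  refine ⟨hK.1, fun j u => ?_, fun u u' => ?_, hK.2, fun u => ?_⟩
  · refine tendsto_nhds_unique (ev_lim hl j u) ((lim2 (G_cont h.hM h.ht) (ev_lim hl (j + 1) u)
      (ev_lim hl (j + 2) u) (fun n => ⟨(hGK n).1 _ _, (hGK n).1 _ _⟩) ⟨hK.1 _ _, hK.1 _ _⟩).congr' ?_)
    filter_upwards [eventually_ge_atTop (j + 1)] with n hn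
    have := hs n
    obtain e := O_step M t (φ n u) (j := s n - (j + 1 : ℕ)) (by omega)
    rw [hGe, hGe, hGe, show s n - (j : ℤ) = s n - (j + 1 : ℕ) + 1 by push_cast; ring, e,
      show s n - ((j + 2 : ℕ) : ℤ) = s n - (j + 1 : ℕ) - 1 by push_cast; ring]
  · refine tendsto_nhds_unique ((ev_lim hl 0 u').sub (ev_lim hl 0 u))
      (tendsto_const_nhds.congr fun n => ?_)
    have hP := h.hT0 _ _ _ (hA n)
    rw [hGe, hGe, Nat.cast_zero, sub_zero, (hP.mem u u.2).2.1, (hP.mem u' u'.2).2.1,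
      add_sub_add_left_eq_sub]
  · refine ge_of_tendsto' ((dP_cont.tendsto _).comp (ev_lim hl 1 u)) fun n => ?_
    have := ((h.hT0 _ _ _ (hA n)).mem u u.2).2.2.2
    simp only [Function.comp_apply, hGe, Nat.cast_one]
    linarith only [this]

lemma prod_Ioc (g : ℤ → ℝ) (s : ℤ) (j : ℕ) :
    ∏ l ∈ Finset.Ioc (s - j) s, g l = ∏ l ∈ Finset.range j, g (s - l) := by
  symm
  refine Finset.prod_bij (fun l _ => s - (l : ℤ)) ?_ ?_ ?_ fun _ _ => rfl
  · intro a ha
    rw [Finset.mem_range] at ha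
    rw [Finset.mem_Ioc]; omega
  · intro a _ b _ hab
    omega
  · intro b hb
    rw [Finset.mem_Ioc] at hb
    exact ⟨(s - b).toNat, Finset.mem_range.2 (by omega), by omega⟩

lemma tan (h : Ctx c Ex M t) {H : Hs} (hH : H ∈ Ab c Ex M t) (u : II) :
    ∃ ξ : ℕ → ℝ, BSol M t (fun j => H j u) ξ ∧ ξ 0 = 1 ∧
    (∀ j, 1 ≤ j → |ξ j| ≤ Real.exp (-c.lam / 5) ∧
      (∏ l ∈ Finset.range j, M.Gb t (H l u) (H (l + 1) u)) * |ξ j| ≤ 100 * Real.exp (-(j : ℝ) / 2)) ∧
    ∀ u' (j : ℕ) (B : ℝ), (∀ l, j ≤ l → l ≤ 2 * j → |ξ l| ≤ B) →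
      |H j u' - H j u| ≤ 10 ^ 4 * (B + Real.exp (-(j : ℝ) / 4)) := by
  have hK := Ab_sub h hH
  obtain ⟨G, hG, hl0⟩ := seq hH
  have hGK := fun n => AdmH_sub h n (hG n)
  choose s x φ hA hs hGe using hG
  have hP := fun n => h.hT0 _ _ _ (hA n)
  let ζ : ℕ → ℕ → ℝ := fun n j => M.tg t (φ n u) (s n) (s n - j)
  obtain hζ0 : ∀ n, ζ n 0 = 1 := fun n => by
    simp only [ζ, Nat.cast_zero, sub_zero]; exact ((hP n).mem u u.2).2.2.1.2.2.1
  obtain hζ1 : ∀ n j, 1 ≤ j → |ζ n j| ≤ Real.exp (-c.lam / 5) := by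
    intro n j hj
    by_cases hj' : 0 ≤ s n - j
    · exact ((hP n).p01 u u.2 _ hj' (by omega)).1
    · simp only [ζ, Mdl.tg, Sq.fr, if_neg hj', zero_div, abs_zero]
      exact (Real.exp_pos _).le
  obtain hζb : ∀ n j, |ζ n j| ≤ 1 := by
    intro n j
    rcases Nat.eq_zero_or_pos j with rfl | hj
    · rw [hζ0, abs_one]
    · exact (hζ1 n j hj).trans (Real.exp_le_one_iff.2 (by linarith only [h.hlam]))
  obtain ⟨ξ, -, k, hk, hlim⟩ := (isCompact_univ_pi fun _ : ℕ =>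
    (isCompact_Icc (a := (-1 : ℝ)) (b := 1))).tendsto_subseq (x := ζ)
    fun n j _ => abs_le.1 (hζb n j)
  have hξ : ∀ j, Tendsto (fun n => ζ (k n) j) atTop (𝓝 (ξ j)) := fun j => tendsto_pi_nhds.1 hlim j
  have hl := hl0.comp hk.tendsto_atTop
  have hb2 : ∀ {g : P2 → ℝ}, ContinuousOn g (BoxS c) → ∀ i j, Tendsto
      (fun n => g (G (k n) i u, G (k n) j u)) atTop (𝓝 (g (H i u, H j u))) := fun hg i j =>
    lim2 hg (ev_lim hl i u) (ev_lim hl j u) (fun n => ⟨(hGK _).1 _ _, (hGK _).1 _ _⟩)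
      ⟨hK.1 _ _, hK.1 _ _⟩
  refine ⟨ξ, fun j => ?_, ?_, fun j hj => ⟨?_, ?_⟩, fun u' j B hB => ?_⟩
  · refine tendsto_nhds_unique (hξ j) ((((hb2 (h.hM.conta t h.ht) (j + 1) (j + 2)).mul
      (hξ (j + 1))).add ((hb2 (h.hM.contb t h.ht) (j + 1) (j + 2)).mul (hξ (j + 2)))).congr' ?_)
    filter_upwards [ev_ge hk (j + 1)] with n hn
    have := hs (k n)
    obtain e := fr_rec (M.O t (φ (k n) u)) (j := s (k n) - (j + 1 : ℕ)) (by omega)
    simp only [ζ, Mdl.tg, hGe]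
    rw [show s (k n) - (j : ℤ) = s (k n) - (j + 1 : ℕ) + 1 by push_cast; ring, e,
      show s (k n) - ((j + 2 : ℕ) : ℤ) = s (k n) - (j + 1 : ℕ) - 1 by push_cast; ring,
      add_div, mul_div_assoc, mul_div_assoc]
    rfl
  · exact tendsto_nhds_unique (hξ 0) (tendsto_const_nhds.congr fun n => (hζ0 _).symm)
  · exact le_of_tendsto' (hξ j).abs fun n => hζ1 _ j hj
  · refine le_of_tendsto ((tendsto_finsetProd _ fun l _ =>
      hb2 (h.hM.contb t h.ht) l (l + 1)).mul (hξ j).abs) ?_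
    filter_upwards [ev_ge hk j] with n hn
    have := hs (k n)
    obtain e := ((hP (k n)).p01 u u.2 (s (k n) - j) (by omega) (by omega)).2
    rw [sub_sub_cancel, Int.cast_natCast, Sq.Pb, prod_Ioc] at e
    refine le_of_eq_of_le ?_ e
    congr 1
    refine Finset.prod_congr rfl fun l _ => ?_
    simp only [hGe]
    rw [show s (k n) - ((l + 1 : ℕ) : ℤ) = s (k n) - l - 1 by push_cast; ring]
    rfl
  · refine le_of_forall_pos_le_add fun δ hδ => ?_
    refine le_of_tendsto ((ev_lim hl j u').sub (ev_lim hl j u)).abs ?_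
    obtain hev : ∀ᶠ n in atTop, ∀ l ∈ Finset.Icc j (2 * j), |ζ (k n) l| ≤ B + δ / 10 ^ 4 := by
      rw [eventually_all_finset]
      intro l hl'
      rw [Finset.mem_Icc] at hl'
      obtain this : |ξ l| < B + δ / 10 ^ 4 := (hB l hl'.1 hl'.2).trans_lt (by linarith only [hδ])
      exact ((hξ l).abs.eventually (gt_mem_nhds this)).mono fun n hn => hn.le
    filter_upwards [hev] with n hn
    have e := (hP (k n)).p2 u u.2 u' u'.2 j (B + δ / 10 ^ 4)
      fun l h1 h2 => hn l (Finset.mem_Icc.2 ⟨h1, h2⟩)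
    simp only [Function.comp_apply, hGe]
    linarith only [e]

end G0

open G0 in
theorem g0 : Hier fun c => T0_s c → T4_s c → G0_s c := by
  refine ((Hier.L_ge (fun _ => 50) fun _ _ => rfl).and
    (Hier.lam_ge (fun _ => 0) fun _ _ => rfl)).mono ?_
  rintro c ⟨hL, hlam⟩ hT0 hT4 Ex M t hM ht hH
  have h : Ctx c Ex M t := ⟨hM, ht, hL, hlam, fun s x0 φ => hT0 Ex M t s x0 φ hM ht⟩
  obtain ⟨T, E, kL, hT, hTs, hkL, hE, hD⟩ := hT4 Ex M t hM ht hH
  obtain hne : ∀ m : ℕ, ∃ G, G ∈ AdmH c Ex M t m := by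
    intro m
    obtain ⟨i, hi1, hi2⟩ := (((hE 100 (by norm_num)).eventually
      (gt_mem_nhds (show (0 : ℝ) < 1 / 200 by norm_num))).and (eventually_ge_atTop m)).exists
    obtain h2 := (hD 0 0 id Adm.base 0 100 i le_rfl (by norm_num) (by norm_num)).2.1
    by_contra hc
    obtain h3 : Icc (0 : ℝ) (0 + 100) ⊆ {u | u ∈ Icc (0 : ℝ) (0 + 100) ∧ ¬ ∃ x' φ',
        Adm c Ex M t (0 + i) x' φ' ∧ ∃ u' ∈ Icc (0 : ℝ) 100, φ' u' = id u} := by
      refine fun u hu => ⟨hu, ?_⟩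
      rintro ⟨x', φ', hA, -⟩
      obtain ⟨G, hG⟩ := exists_hist h hA
      exact hc ⟨G, _, x', φ', hA, by omega, hG⟩
    have h4 := (measure_mono h3).trans h2
    rw [Real.volume_Icc, ENNReal.ofReal_le_ofReal_iff'] at h4
    rcases h4 with h4 | h4 <;> linarith only [hi1, h4]
  refine ⟨(Kc_cpt c).of_isClosed_subset (isClosed_iInter fun _ => isClosed_closure) (Ab_sub h), ?_,
    fun H hH => geo h hH, fun H hH u => tan h hH u, T, kL, hT, hTs, hkL, ?_⟩
  · choose G hG using hne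
    obtain ⟨H, hH, -⟩ := sublim h hG
    exact ⟨H, hH⟩
  intro H hH α l h0 hl h1
  have hK := Ab_sub h hH
  obtain ⟨G, hG, hlim⟩ := seq hH
  have hGK := fun n => AdmH_sub h n (hG n)
  choose s x φ hA hs hGe using hG
  refine ⟨fun ψ hψ hb B hB hB' e he => ?_, fun ψ hψ hb hg => ?_, fun ψ hψ hb m B hB e he => ?_⟩
  · obtain hB0 : ∀ j, 0 ≤ B j := fun j =>
      (intervalIntegral.integral_nonneg (by norm_num) fun u _ => (hb _).1).trans (hB' j H hH)
    have hS0 : 0 ≤ ∑' j, T j := tsum_nonneg hT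
    let τ : ℕ → ℕ → ℝ := fun J j => if j < J then 0 else T j
    obtain hτ : ∀ J j, 0 ≤ τ J j ∧ τ J j ≤ T j := fun J j => by
      simp only [τ]; split_ifs
      · exact ⟨le_rfl, hT j⟩
      · exact ⟨hT j, le_rfl⟩
    obtain htail : Tendsto (fun J => ∑' j, τ J j) atTop (𝓝 (∑' _ : ℕ, (0 : ℝ))) := by
      refine tendsto_tsum_of_dominated_convergence hTs (fun j => ?_)
        (Eventually.of_forall fun J j => ?_)
      · refine tendsto_const_nhds.congr' ?_
        filter_upwards [eventually_gt_atTop j] with J hJ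
        simp [τ, hJ]
      · rw [Real.norm_eq_abs, abs_of_nonneg (hτ J j).1]; exact (hτ J j).2
    rw [tsum_zero] at htail
    obtain ⟨J, hJ⟩ := (htail.eventually (gt_mem_nhds (show 0 < e / 300 by positivity))).exists
    set δ := e / (3 * (∑' j, T j + 1)) with hδ
    obtain hδ0 : 0 < δ := by (clear * - he hS0; positivity)
    obtain hδ1 : δ * ∑' j, T j ≤ e / 3 := by
      rw [hδ, div_mul_eq_mul_div, div_le_div_iff₀ (by positivity) (by norm_num)]
      linarith only [he]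
    let B' : ℕ → ℝ := fun j => if j < J then min (B j + δ) 100 else 100
    obtain hB'b : ∀ j, 0 ≤ B' j ∧ B' j ≤ 100 := fun j => by
      simp only [B']; split_ifs
      · exact ⟨le_min (by linarith only [hδ0, hB0 j]) (by norm_num), min_le_right _ _⟩
      · norm_num
    have sTB : Summable fun j => T j * B j :=
      Summable.of_nonneg_of_le (fun j => mul_nonneg (hT j) (hB0 j))
        (fun j => mul_le_mul_of_nonneg_left (hB j) (hT j)) (hTs.mul_right 100)
    have sTB' : Summable fun j => T j * B' j :=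
      Summable.of_nonneg_of_le (fun j => mul_nonneg (hT j) (hB'b j).1)
        (fun j => mul_le_mul_of_nonneg_left (hB'b j).2 (hT j)) (hTs.mul_right 100)
    have sτ : Summable (τ J) := Summable.of_nonneg_of_le (fun j => (hτ J j).1) (fun j => (hτ J j).2) hTs
    obtain hsum : ∑' j, T j * B' j ≤ ∑' j, T j * B j + δ * ∑' j, T j + 100 * ∑' j, τ J j := by
      rw [← tsum_mul_left, ← tsum_mul_left, ← sTB.tsum_add (hTs.mul_left δ),
        ← (sTB.add (hTs.mul_left δ)).tsum_add (sτ.mul_left 100)]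
      refine sTB'.tsum_le_tsum (fun j => ?_) ((sTB.add (hTs.mul_left δ)).add (sτ.mul_left 100))
      simp only [B', τ]
      split_ifs
      · nlinarith only [min_le_left (B j + δ) 100, hT j]
      · nlinarith only [hδ0, hT j, hB0 j]
    have hev : ∀ᶠ m : ℕ in atTop, ∀ j ∈ Finset.range J, ∀ s' x' φ', Adm c Ex M t s' x' φ' →
        (m : ℤ) ≤ s' → ∫ u in (0 : ℝ)..100, ψ (M.pt t (φ' u) (s' - j)) ≤ B j + δ :=
      (eventually_all_finset _).2 fun j _ => sup_lim h hψ hb j hδ0 (hB' j)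
    filter_upwards [hev, (hE l hl).eventually (gt_mem_nhds (show 0 < e / 3 by positivity))]
      with i hi hiE
    refine le_of_tendsto' (int_lim h hGK hK hlim hψ hb i 0 α (α + l)) fun n => ?_
    rw [int_eq h (hA n) (hGe n) ψ i h0 hl h1]
    refine ((hD _ _ _ (hA n) α l i h0 hl h1).1 ψ hψ hb B' hB'b fun j s' x' φ' hA' hs' => ?_).trans
      (mul_le_mul_of_nonneg_left (by linarith only [hJ, hδ1, hsum, hiE]) hl.le)
    obtain h100 : ∫ u in (0 : ℝ)..100, ψ (M.pt t (φ' u) (s' - j)) ≤ 100 := by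
      obtain this := intervalIntegral.norm_integral_le_of_norm_le_const (a := 0) (b := 100) (C := 1)
        (f := fun u => ψ (M.pt t (φ' u) (s' - j))) fun u _ => by
          rw [Real.norm_eq_abs, abs_of_nonneg (hb _).1]; exact (hb _).2
      have h5 := (le_abs_self _).trans this
      norm_num at h5
      exact h5
    simp only [B']
    split_ifs with hj
    · exact le_min (hi j (Finset.mem_range.2 hj) s' x' φ' hA' (by omega)) h100
    · exact h100
  · obtain ⟨m, hm⟩ := gs_lim h hψ hg (show (0 : ℝ) < 1 / 400 by norm_num)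
    filter_upwards [eventually_ge_atTop m,
      (hE l hl).eventually (gt_mem_nhds (show (0 : ℝ) < 1 / 400 by norm_num))] with i hi hiE
    refine ge_of_tendsto' (int_lim h hGK hK hlim hψ hb i 0 α (α + l)) fun n => ?_
    obtain h2 := (hD _ _ _ (hA n) α l i h0 hl h1).2.1.trans (ENNReal.ofReal_le_ofReal
      (mul_le_mul_of_nonneg_left (show 1 / 200 + E i l ≤ 3 / 400 by linarith only [hiE]) hl.le))
    obtain h3 := int_low (cont_comp h (hGK n) hψ i 0) (fun u => (hb _).1) hl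
      (show (0 : ℝ) ≤ 1 / 400 by norm_num) (by positivity) h2 fun u hu hN => by
        have hu' : u ∈ II := ⟨h0.trans hu.1, hu.2.trans h1⟩
        have hs0 := (h.hT0 _ _ _ (hA n)).s0
        rw [mem_ofPred_eq, not_and, not_not] at hN
        obtain ⟨x', φ', hA', u', hu'', he⟩ := hN hu
        obtain this := hm _ x' φ' hA' (by omega) u' hu''
        rw [he, pt_add M t _ hs0] at this
        rw [hpt_eq (hGe n) 0 hu', Nat.cast_zero, sub_zero]
        exact this
    linarith only [h3]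
  · have hE' := ((hE l hl).comp (tendsto_sub_atTop_nat m)).eventually (gt_mem_nhds he)
    filter_upwards [hE', eventually_ge_atTop m] with i hiE hi
    refine ge_of_tendsto' (int_lim h hGK hK hlim hψ hb i 0 α (α + l)) fun n => ?_
    rw [int_eq h (hA n) (hGe n) ψ i h0 hl h1]
    have h2 := (hD _ _ _ (hA n) α l (i - m) h0 hl h1).2.2 ψ hψ hb m B hB
    rw [show s n + ((i - m : ℕ) : ℤ) + m = s n + i by omega] at h2
    refine le_trans (mul_le_mul_of_nonneg_left ?_ hl.le) h2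
    simp only [Function.comp_apply] at hiE
    linarith only [hiE]

end
end Pool.Agent.MP_9cbfe4_an

end

/-! ### Part G3 -/

section

/-! Row G3: the ergodic measure. -/

namespace Pool.Agent.MP_9cbfe4_an

open MeasureTheory Filter Topology Set G3

lemma isCompact_BoxS (c : Cs) : IsCompact (BoxS c) := by
  obtain this : BoxS c = Icc (-(2 * c.L)) (2 * c.L) ×ˢ Icc (-(2 * c.L)) (2 * c.L) := by
    ext p
    simp only [BoxS, Box, abs_le, mem_ofPred, mem_prod, mem_Icc]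
  exact this ▸ isCompact_Icc.prod isCompact_Icc

lemma continuous_hpt (j : ℕ) : Continuous fun q : Hs × ℝ => hpt q.1 j q.2 := by
  obtain this : Continuous pr := continuous_projIcc (h := by norm_num)
  unfold hpt
  fun_prop

theorem g3 (c : Cs) : G3_s c := by
  intro Ex M t hM ht hA
  have hK := isCompact_BoxS c
  have : CompactSpace (BoxS c) := isCompact_iff_compactSpace.1 hK
  have : CompactSpace (Ab c Ex M t) := isCompact_iff_compactSpace.1 hA.cpt
  have : Nonempty (Ab c Ex M t) := hA.ne.to_subtype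
  let f : BoxS c → BoxS c := fun p => ⟨M.f t p, hM.box t _ _ ht p.2.1 p.2.2, p.2.1⟩
  obtain hf : Continuous f := by
    refine Continuous.subtype_mk (Continuous.prodMk ?_ (by fun_prop)) _
    exact continuous_iff_continuousAt.2 fun p =>
      ContinuousAt.comp (f := Subtype.val) (x := p) (hM.der t _ _ ht p.2.1 p.2.2).continuousAt
        continuous_subtype_val.continuousAt
  have hit (i : ℕ) (p : BoxS c) : (f^[i] p : P2) = (M.f t)^[i] p :=
    Function.Semiconj.iterate_right (f := Subtype.val) (ga := f) (fun _ => rfl) i p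
  let γ : ℕ → Ab c Ex M t → ℝ → BoxS c := fun j H u =>
    ⟨hpt H.1 j u, (hA.geo _ H.2).1 _ _, (hA.geo _ H.2).1 _ _⟩
  obtain ⟨T, kL, hT0, hT, hk, hd⟩ := hA.dyn
  obtain ⟨μ, hp, he, hn, hl⟩ := exists_msr hf (γ := γ) (T := T)
    (fun j => ((continuous_hpt j).comp
      (continuous_subtype_val.prodMap continuous_id)).subtype_mk _)
    (fun j H u => Subtype.ext (Prod.ext ((hA.geo _ H.2).2.1 _ _) rfl)) hT0 hT
    fun H α l a b d ψ hψ B hB h e he => by
      obtain ⟨g, hg, rfl⟩ := ψ.exists_restrict_eq_forall_mem_of_closed (t := Icc 0 1) hψ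
        (nonempty_Icc.2 zero_le_one) hK.isClosed
      simpa only [ContinuousMap.restrict_apply, hit] using
        (hd _ H.2 α l a b d).1 g g.continuous hg B hB (fun j H' h' => h j ⟨H', h'⟩) e he
  have hv : Measurable (Subtype.val : BoxS c → P2) := measurable_subtype_coe
  have low (ψ : P2 → ℝ) (hψ : Continuous ψ) (b : ℝ) (h : ∀ H ∈ Ab c Ex M t, ∀ α l, 0 ≤ α →
      0 < l → α + l ≤ 100 → ∀ e > 0, ∀ᶠ i : ℕ in atTop,
        l * (b - e) ≤ ∫ u in α..α + l, ψ ((M.f t)^[i] (hpt H 0 u))) :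
      b ≤ ∫ p, ψ p ∂μ.map Subtype.val := by
    rw [integral_map hv.aemeasurable hψ.aestronglyMeasurable]
    exact hl ⟨fun p => ψ p, hψ.comp continuous_subtype_val⟩ b fun H α l a b d e he => by
      simpa only [ContinuousMap.coe_mk, hit] using h _ H.2 α l a b d e he
  have := Measure.isProbabilityMeasure_map (μ := μ) hv.aemeasurable
  refine ⟨μ.map Subtype.val, this, ?_, fun g hg h => ?_, ?_, fun B hB h => ?_,
    fun ψ hψ h0 m B hB h => (mul_pos hk hB).trans_le (low ψ hψ _ fun H hH α l a b d =>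
      (hd H hH α l a b d).2.2 ψ hψ h0 m B h)⟩
  · rw [Measure.map_apply hv hK.measurableSet.compl, preimage_compl, Subtype.coe_preimage_self,
      compl_univ, measure_empty]
  · exact MeasurePreserving.ergodic_of_ergodic_semiconj ⟨hv, rfl⟩ he hg fun p => (h p.2).symm
  · obtain hG : IsClosed (Gs c Ex M t) := by
      obtain this : Gs c Ex M t = (fun q : Hs × ℝ => hpt q.1 0 q.2) '' (Ab c Ex M t ×ˢ Icc 0 100) := by
        ext p
        refine ⟨fun ⟨H, hH, u, e⟩ => ⟨(H, pr u), ⟨hH, (pr u).2⟩, ?_⟩,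
          fun ⟨q, hq, e⟩ => ⟨q.1, hq.1, q.2, e.symm⟩⟩
        simp only [e, hpt, pr, projIcc_val]
      exact this ▸ ((hA.cpt.prod isCompact_Icc).image (continuous_hpt 0)).isClosed
    refine ge_of_tendsto' (ti_lim _ hG) fun n => low _ (ti _ n).continuous _
      fun H hH α l a b d e he => ?_
    filter_upwards [(hd H hH α l a b d).2.1 _ (ti _ n).continuous (ti_mem _ n)
      fun p hp => ti_one n hp] with i hi
    exact le_trans (by gcongr; linarith only [he]) hi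
  · rw [Measure.map_apply hv hB]
    exact hn _ (hv hB) fun j H => h j _ H.2

end Pool.Agent.MP_9cbfe4_an

end

/-! ### Part G4 -/

section

/-! Row G4: exponents and unstable curves. -/

namespace Pool.Agent.MP_9cbfe4_an

open Filter Topology MeasureTheory Set

noncomputable section

namespace G4

lemma freq_ae {α : Type} [MeasurableSpace α] {μ : Measure α} [IsProbabilityMeasure μ] {T : α → α}
    (hT : Ergodic T μ) {G : Set α} (hG : MeasurableSet G) (h0 : 0 < μ.real G) :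
    ∀ᵐ x ∂μ, Freq fun k => T^[k] x ∈ G := by
  have hm : Measurable (-G.indicator (1 : α → ℝ)) := (measurable_one.indicator hG).neg
  have hC (x : α) : |(-G.indicator (1 : α → ℝ)) x| ≤ 1 := by by_cases h : x ∈ G <;> simp [h]
  filter_upwards [Lib.Birkhoff.ae_tendsto hT.toMeasurePreserving hm hC,
    Lib.Birkhoff.ae_limit_neg hT.toMeasurePreserving hm
      (Integrable.of_bound hm.aestronglyMeasurable 1 (Eventually.of_forall hC)) fun A hA h1 h2 => by
      rcases hT.ae_empty_or_univ hA h1 with h | h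
      · exact absurd (by simpa using measure_congr h) h2
      · rw [Measure.restrict_congr_set h, Measure.restrict_univ]
        simp only [Pi.neg_apply, integral_neg, integral_indicator_one hG]
        linarith only [h0]] with x ⟨y, h1⟩ h2
  refine ⟨-y, neg_pos.2 (h2 y h1), h1.neg.congr fun n => ?_⟩
  simp only [birkhoffSum, Pi.neg_apply, Finset.sum_neg_distrib, neg_div, neg_neg, cnt]
  rfl

variable {c : Cs} {M : Mdl} {t : ℝ} {Ex : ExT}

lemma box_cpt (c : Cs) : IsCompact (BoxS c) := by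
  convert (isCompact_Icc (a := -(2 * c.L)) (b := 2 * c.L)).prod
    (isCompact_Icc (a := -(2 * c.L)) (b := 2 * c.L))
  exact Set.ext fun p => and_congr abs_le abs_le

lemma f_map (hM : M.OK c) (ht : TI t) : MapsTo (M.f t) (BoxS c) (BoxS c) :=
  fun _ h => ⟨hM.box t _ _ ht h.1 h.2, h.1⟩

lemma f_cont (hM : M.OK c) (ht : TI t) : ContinuousOn (M.f t) (BoxS c) := fun _ h =>
  ((hM.der t _ _ ht h.1 h.2).continuousAt.prodMk continuousAt_fst).continuousWithinAt

lemma f_inj (hM : M.OK c) (ht : TI t) : InjOn (M.f t) (BoxS c) := by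
  rintro ⟨x, y⟩ h ⟨x', y'⟩ h' e
  obtain ⟨e1, rfl⟩ : M.G t x y = M.G t x' y' ∧ x = x' := Prod.ext_iff.1 e
  have hd (z : ℝ) (hz : z ∈ Icc (-(2 * c.L)) (2 * c.L)) :
      HasDerivAt (fun z => M.G t x z) (M.Gb t x z) z := by
    have := (hM.der t x z ht h.1 (abs_le.2 hz)).comp_hasDerivAt z
      ((hasDerivAt_const z x).prodMk (hasDerivAt_id z))
    simp only [add_apply, smul_apply,
      ContinuousLinearMap.coe_fst', ContinuousLinearMap.coe_snd', smul_eq_mul, mul_zero, mul_one,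
      zero_add] at this
    exact this
  exact congrArg (Prod.mk x) ((strictMonoOn_of_deriv_pos (convex_Icc _ _)
    (fun z hz => (hd z hz).continuousAt.continuousWithinAt) fun z hz => by
      replace hz := interior_subset hz
      rw [(hd z hz).deriv]
      exact lt_of_lt_of_le (by positivity) (hM.b_lo t x z ht h.1 (abs_le.2 hz))).injOn (abs_le.1 h.2) (abs_le.1 h'.2) e1)

/-- the orbit conditions of `FullOrb` -/
def Or (c : Cs) (M : Mdl) (t : ℝ) (Y : ℤ → ℝ) : Prop :=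
  ∀ j, Box c (Y j) ∧ Y (j + 1) = M.G t (Y j) (Y (j - 1))

lemma Or.step {Y : ℤ → ℝ} (h : Or c M t Y) (j : ℤ) :
    M.f t (Y j, Y (j - 1)) = (Y (j + 1), Y (j + 1 - 1)) := by
  rw [add_sub_cancel_right, (h j).2]; rfl

lemma mk_orb (hM : M.OK c) (ht : TI t) (W : ℕ → P2)
    (hW : ∀ n, W n ∈ BoxS c ∧ M.f t (W (n + 1)) = W n) (m : ℤ) :
    ∃ Y, Or c M t Y ∧ ∀ n : ℕ, (Y (m - n), Y (m - n - 1)) = W n := by
  let Z : ℤ → P2 := fun j => if m ≤ j then (M.f t)^[(j - m).toNat] (W 0) else W (m - j).toNat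
  have h0 (n : ℕ) : Z (m - n) = W n := by
    cases n with
    | zero => simp [Z]
    | succ n => simp only [Z]; rw [if_neg (by omega)]; congr 1; omega
  have h1 (j : ℤ) : Z j ∈ BoxS c ∧ Z (j + 1) = M.f t (Z j) := by
    rcases le_or_gt m j with h | h
    · simp only [Z]
      rw [if_pos h, if_pos (by omega), show (j + 1 - m).toNat = (j - m).toNat + 1 by omega,
        Function.iterate_succ_apply']
      exact ⟨(f_map hM ht).iterate _ (hW 0).1, rfl⟩
    · obtain ⟨n, rfl⟩ : ∃ n : ℕ, j = m - (n + 1 : ℕ) := ⟨(m - j - 1).toNat, by omega⟩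
      rw [show m - (n + 1 : ℕ) + 1 = m - n by omega, h0, h0]
      exact ⟨(hW _).1, (hW n).2.symm⟩
  have h2 (j : ℤ) : (Z (j - 1)).1 = (Z j).2 := by
    have := (h1 (j - 1)).2
    rw [sub_add_cancel] at this
    rw [this]; rfl
  exact ⟨fun j => (Z j).1, fun j => ⟨(h1 j).1.1, by simp only [h2, (h1 j).2]; rfl⟩,
    fun n => by simp only [h2, h0]⟩

lemma hpt_orb (hA : AbP c Ex M t) {H : Hs} (hH : H ∈ Ab c Ex M t) (u : ℝ) (n : ℕ) :
    hpt H n u ∈ BoxS c ∧ M.f t (hpt H (n + 1) u) = hpt H n u :=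
  ⟨⟨(hA.geo H hH).1 _ _, (hA.geo H hH).1 _ _⟩, Prod.ext ((hA.geo H hH).2.1 n _).symm rfl⟩

lemma gs_cpt (hA : AbP c Ex M t) : IsCompact (Gs c Ex M t) := by
  convert (hA.cpt.prod (isCompact_univ (X := Icc (0 : ℝ) 100))).image
    (f := fun x => (x.1 0 x.2, x.1 1 x.2)) (by fun_prop)
  ext p
  exact ⟨fun ⟨H, h, u, e⟩ => ⟨(H, pr u), ⟨h, trivial⟩, e.symm⟩, fun ⟨x, h, e⟩ =>
    ⟨x.1, h.1, x.2, by rw [← e, hpt, pr, projIcc_val]⟩⟩

/-- almost every point has a full orbit, with visits of positive frequency in both directions -/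
lemma typ (hM : M.OK c) (ht : TI t) (hA : AbP c Ex M t) {μ : Measure P2} (hμ : Msr c Ex M t μ) :
    ∀ᵐ p ∂μ, (∃ Y, FullOrb c M t p Y) ∧ ∀ Y, FullOrb c M t p Y →
      (Freq fun k => (Y k, Y (k - 1)) ∈ Gs c Ex M t) ∧
      Freq fun k => (Y (-k), Y (-k - 1)) ∈ Gs c Ex M t := by
  classical
  have := hμ.prob
  have hB := (box_cpt c).measurableSet
  let F : P2 → P2 := (BoxS c).piecewise (M.f t) id
  have e : EqOn F (M.f t) (BoxS c) := fun _ h => piecewise_eq_of_mem _ _ _ h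
  have e' (p) (h : p ∉ BoxS c) : F p = p := piecewise_eq_of_notMem _ _ _ h
  have hm : Measurable F := (f_cont hM ht).measurable_piecewise continuousOn_id hB
  obtain hF : MeasurableEmbedding F := hm.measurableEmbedding fun p p' h => by
    by_cases h1 : p ∈ BoxS c <;> by_cases h2 : p' ∈ BoxS c
    · exact f_inj hM ht h1 h2 (by rwa [e h1, e h2] at h)
    · exact absurd (by rw [← e' p' h2, ← h, e h1]; exact f_map hM ht h1) h2
    · exact absurd (by rw [← e' p h1, h, e h2]; exact f_map hM ht h2) h1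
    · rwa [e' p h1, e' p' h2] at h
  have E := hμ.erg F hm e
  have hg : ∀ p, hF.invFun (F p) = p := hF.leftInverse_invFun
  have hgm := hF.measurable_invFun
  generalize hF.invFun = g at hg hgm
  obtain E' : Ergodic g μ := ⟨⟨hgm, by
      conv_lhs => rw [← E.map_eq, Measure.map_map hgm hm, show g ∘ F = id from funext hg]
      exact Measure.map_id⟩,
    ⟨fun s hs h => E.aeconst_set hs (by
      conv_lhs => rw [← h]
      exact Set.ext fun p => by simp [hg])⟩⟩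
  have hG := (gs_cpt hA).measurableSet
  obtain h0 : 0 < μ.real (Gs c Ex M t) := lt_of_lt_of_le (by norm_num) hμ.gs
  obtain h1 : ∀ᵐ p ∂μ, F (g p) = p := by
    rw [← E.map_eq, hF.ae_map_iff]
    exact Eventually.of_forall fun p => by rw [hg]
  have h2 : ∀ᵐ p ∂μ, ∀ k : ℕ, g^[k] p ∈ BoxS c ∧ F (g (g^[k] p)) = g^[k] p := ae_all_iff.2 fun k =>
    (E'.toMeasurePreserving.iterate k).quasiMeasurePreserving.ae
      ((show ∀ᵐ p ∂μ, p ∈ BoxS c from hμ.box).and h1)
  filter_upwards [h2, freq_ae E hG h0, freq_ae E' hG h0] with p p1 p2 p3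
  refine ⟨?_, fun Y hY => ?_⟩
  · obtain ⟨Y, y1, y2⟩ := mk_orb hM ht (fun k => g^[k] p) (fun k => ⟨(p1 k).1, by
      rw [← e (p1 _).1, Function.iterate_succ_apply', (p1 k).2]⟩) 0
    exact ⟨Y, by simpa using (y2 0).symm, y1⟩
  have s (j : ℤ) : F (Y j, Y (j - 1)) = (Y (j + 1), Y (j + 1 - 1)) :=
    (e ⟨(hY.2 _).1, (hY.2 _).1⟩).trans (Or.step hY.2 j)
  have s1 (k : ℕ) : F^[k] p = (Y k, Y (k - 1)) := by
    induction k with
    | zero => simpa using hY.1
    | succ k ih => rw [Function.iterate_succ_apply', ih, s, Nat.cast_succ]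
  have s2 (k : ℕ) : g^[k] p = (Y (-k), Y (-k - 1)) := by
    induction k with
    | zero => simpa using hY.1
    | succ k ih =>
      rw [Function.iterate_succ_apply', ih, show -(k : ℤ) = -(k + 1 : ℕ) + 1 by omega, ← s, hg]
  exact ⟨by simpa only [s1] using p2, by simpa only [s2] using p3⟩

/-- the coefficients along a full orbit -/
def ca (M : Mdl) (t : ℝ) (Y : ℤ → ℝ) (j : ℤ) : ℝ := M.Ga t (Y j) (Y (j - 1))
def cb (M : Mdl) (t : ℝ) (Y : ℤ → ℝ) (j : ℤ) : ℝ := M.Gb t (Y j) (Y (j - 1))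

lemma Or.bd (hM : M.OK c) (ht : TI t) {Y : ℤ → ℝ} (h : Or c M t Y) :
    ∃ κ, Bd κ (ca M t Y) (cb M t Y) := by
  obtain ⟨K, hK⟩ := (box_cpt c).exists_bound_of_continuousOn (hM.conta t ht)
  obtain ⟨K', hK'⟩ := (box_cpt c).exists_bound_of_continuousOn (hM.contb t ht)
  exact exists_bd (K := max K K') (e := Real.exp (-c.bl) / 4) (by positivity)
    (fun j => (hK (Y j, Y (j - 1)) ⟨(h _).1, (h _).1⟩).trans (le_max_left _ _)) fun j =>
      ⟨hM.b_lo t _ _ ht (h _).1 (h _).1, (le_abs_self _).trans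
        ((hK' (Y j, Y (j - 1)) ⟨(h _).1, (h _).1⟩).trans (le_max_right _ _))⟩

lemma hist (hM : M.OK c) (ht : TI t) (hA : AbP c Ex M t) {Y : ℤ → ℝ} (h : Or c M t Y) {H : Hs}
    (hH : H ∈ Ab c Ex M t) {u : ℝ} {m : ℤ} (e : (Y m, Y (m - 1)) = hpt H 0 u) :
    ∃ ξ, Sl (ca M t Y) (cb M t Y) ξ ∧ Vis (c.lam / 5) (cb M t Y) ξ m ∧
      ∀ u' (j : ℕ) (B : ℝ), (∀ i ≤ m - j, |ξ i| ≤ B) →
        |H j u' - H j (pr u)| ≤ 10 ^ 4 * (B + Real.exp (-(j : ℝ) / 4)) := by
  have h1 (n : ℕ) : (Y (m - n), Y (m - n - 1)) = hpt H n u := by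
    induction n with
    | zero => simpa using e
    | succ n ih =>
      refine f_inj hM ht ⟨(h _).1, (h _).1⟩ (hpt_orb hA hH u _).1 ?_
      rw [h.step, (hpt_orb hA hH u n).2, ← ih, show m - (n + 1 : ℕ) + 1 = m - n by omega]
  have h2 (n : ℕ) : Y (m - n) = H n (pr u) := congrArg Prod.fst (h1 n)
  have h3 (n : ℕ) : Y (m - n - 1) = H (n + 1) (pr u) := congrArg Prod.snd (h1 n)
  obtain ⟨κ, hκ⟩ := h.bd hM ht
  obtain ⟨ζ, z1, z2, z3, z4⟩ := hA.tan H hH (pr u)
  obtain ⟨ξ, x1, x2, x3⟩ := exists_sl (fun j => (hκ.pos j).ne') (ca M t Y) m (ζ 0) (ζ 1)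
  have h4 (n : ℕ) : ξ (m - n) = ζ n ∧ ξ (m - n - 1) = ζ (n + 1) := by
    induction n with
    | zero => simpa using ⟨x2, x3⟩
    | succ n ih =>
      obtain e1 : m - n - 1 = m - (n + 1 : ℕ) := by omega
      rw [e1] at ih
      refine ⟨ih.2, mul_left_cancel₀ (hκ.pos (m - (n + 1 : ℕ))).ne' ?_⟩
      have e2 := x1 (m - (n + 1 : ℕ))
      rw [show m - (n + 1 : ℕ) + 1 = m - n by omega, ih.1, ih.2, z1 n] at e2
      simp only [ca, cb, h2, h3] at e2 ⊢
      linarith only [e2]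
  refine ⟨ξ, x1, ⟨by rw [x2, z2]; exact one_ne_zero, fun j hj => ?_⟩, fun u' j B hB =>
    z4 u' j B fun l hl _ => (h4 l).1 ▸ hB _ (by omega)⟩
  simpa only [x2, z2, (h4 j).1, abs_one, mul_one, neg_div, Pr, cb, h2, h3] using z3 j hj

/-- one solution serves all visits -/
lemma all_vis (hL : 0 < c.lam) (hM : M.OK c) (ht : TI t) (hA : AbP c Ex M t) {Y ξ : ℤ → ℝ}
    (h : Or c M t Y) {m : ℤ} (x : Sl (ca M t Y) (cb M t Y) ξ) (v : Vis (c.lam / 5) (cb M t Y) ξ m)
    (k : ℤ) (hk : (Y k, Y (k - 1)) ∈ Gs c Ex M t) : Vis (c.lam / 5) (cb M t Y) ξ k := by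
  obtain ⟨H, hH, u, e⟩ := hk
  obtain ⟨η, y, w, -⟩ := hist hM ht hA h hH e
  obtain ⟨κ, hκ⟩ := h.bd hM ht
  exact v.uniq hκ (by positivity) x y w

end G4

open G4 in
theorem g4' {c : Cs} (hL : 1 < c.L) : G4_s c := by
  intro Ex M t μ hM ht hA hμ
  have h0 : 0 < c.lam := Real.log_pos hL
  obtain hq : 0 < c.lam / 5 := by positivity
  have T := typ hM ht hA hμ
  refine ⟨T.mono fun p ⟨⟨Y, hY⟩, h⟩ => ⟨Y, hY, ?_⟩, fun A mA hA0 => ?_⟩
  · obtain ⟨f, -⟩ := h Y hY
    obtain ⟨θ, -, g⟩ := f.gap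
    obtain ⟨-, -, m, -, ⟨H, hH, u, e⟩, -⟩ := (g 1 one_pos).exists
    obtain ⟨ξ, x, v, -⟩ := hist hM ht hA hY.2 hH e
    obtain ⟨κ, hκ⟩ := Or.bd hM ht hY.2
    have hv := fun (k : ℕ) => all_vis h0 hM ht hA hY.2 x v k
    obtain ⟨C, e, h1⟩ := grow hκ hq x v.1 f hv
    exact ⟨⟨ξ, C, e, x, h1⟩, decay hκ hq x v.1 f hv⟩
  obtain ⟨N, n1, n2, n3⟩ := exists_measurable_superset_of_null (ae_iff.1 T)
  obtain h1 := mt (hμ.null _ (mA.diff n2)) (by rwa [measure_sdiff_null n3])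
  push Not at h1
  obtain ⟨j, H, hH, h1⟩ := h1
  obtain ⟨u, u1, u2⟩ := nonempty_of_measure_ne_zero h1
  choose Y y1 y2 using fun u => mk_orb hM ht _ (hpt_orb hA hH u) j
  have y3 (u) (n : ℕ) : Y u (j - n) = H n (pr u) := congrArg Prod.fst (y2 u n)
  have y4 (u) : (Y u 0, Y u (-1)) = hpt H j u := by simpa using y2 u j
  have y5 (u) (h : u ∈ Icc (0 : ℝ) 100) : (pr u : ℝ) = u := by rw [pr, projIcc_of_mem _ h]
  obtain ⟨-, f⟩ := (not_not.1 fun h => u2.2 (n1 h)).2 (Y u) ⟨(y4 u).symm, y1 u⟩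
  obtain ⟨ξ, x, v, hx⟩ := hist hM ht hA (y1 u) hH (m := j) (by simpa using y2 u 0)
  obtain ⟨C, e, e0, hC⟩ := back hq f (fun k => all_vis h0 hM ht hA (y1 u) x v _) j.cast_nonneg v
  obtain ⟨-, -, g1, g2, -⟩ := hA.geo H hH
  obtain hC0 : 0 ≤ C := by simpa using (abs_nonneg _).trans (hC 0 0 le_rfl)
  have h2 (w) (n : ℕ) : |H (j + n) w - H (j + n) (pr u)| ≤
      10 ^ 4 * (C + 1) * Real.exp (-min e (1 / 4) * n) := by
    have hn : (0 : ℝ) ≤ n := n.cast_nonneg
    refine (hx w (j + n) _ fun i hi => hC n i (by omega)).trans ?_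
    rw [mul_assoc, add_mul, one_mul]
    gcongr
    · exact min_le_left _ _
    · push_cast
      nlinarith only [min_le_right e (1 / 4), (j.cast_nonneg : (0 : ℝ) ≤ j)]
  refine ⟨Y, j, 2 * (10 ^ 4 * (C + 1)), min e (1 / 4), by positivity,
    fun w hw => ⟨⟨rfl, y1 w⟩, fun w' hw' => ⟨?_, fun i hi => ?_, fun n => ?_⟩⟩,
    fun h => h1 (measure_mono_null (fun w hw => And.intro hw.1 ((y4 w).symm ▸ hw.2.1)) h)⟩
  · have := g1 (pr w) (pr w')
    rwa [← y3, ← y3, y5 w hw, y5 w' hw', Nat.cast_zero, sub_zero] at this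
  · have := g2 (j - i).toNat (pr w) (pr w')
    rwa [← y3, ← y3, y5 w hw, y5 w' hw', show (j : ℤ) - ((j - i).toNat : ℕ) = i by omega] at this
  · rw [show -(n : ℤ) = j - (j + n : ℕ) by omega, y3, y3]
    have := abs_sub_le (H (j + n) (pr w')) (H (j + n) (pr u)) (H (j + n) (pr w))
    rw [abs_sub_comm (H (j + n) (pr u))] at this
    linarith only [this, h2 (pr w) n, h2 (pr w') n]

theorem g4 : Hier G4_s :=
  (Hier.of_all (P := fun _ => True) fun _ => trivial).ofL fun _ _ =>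
    (eventually_gt_atTop 1).mono fun _ h => g4' h

end
end Pool.Agent.MP_9cbfe4_an

end

/-! ### Part DIM -/

section

/-! Row DIM: dimension of the horseshoe leaves (mass distribution principle). -/

namespace Pool.Agent.MP_9cbfe4_an

open Filter Topology MeasureTheory Set

noncomputable section

namespace DIM

/-- mass distribution principle for a family parametrised by a rectangle -/
theorem mass {K : Set P2} (P : ℝ × ℝ → P2) (al C : ℝ) (hal : 0 ≤ al) (hC : 0 < C)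
    (hK : ∀ q ∈ Icc (-2 : ℝ) 2 ×ˢ Ico (0 : ℝ) 1, P q ∈ K)
    (hx : ∀ q ∈ Icc (-2 : ℝ) 2 ×ˢ Ico (0 : ℝ) 1, ∀ q' ∈ Icc (-2 : ℝ) 2 ×ˢ Ico (0 : ℝ) 1,
      |q.1 - q'.1| ≤ dist (P q) (P q'))
    (hs : ∀ q ∈ Icc (-2 : ℝ) 2 ×ˢ Ico (0 : ℝ) 1, ∀ q' ∈ Icc (-2 : ℝ) 2 ×ˢ Ico (0 : ℝ) 1,
      |q.2 - q'.2| ≤ C * dist (P q) (P q') ^ al) :
    ENNReal.ofReal (1 + al) ≤ dimH K := by
  set D : Set (ℝ × ℝ) := Icc (-2 : ℝ) 2 ×ˢ Ico (0 : ℝ) 1 with hD
  have hDm : MeasurableSet D := measurableSet_Icc.prod measurableSet_Ico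
  let ν : OuterMeasure P2 := (ENNReal.ofReal C)⁻¹ •
    OuterMeasure.map P ((volume : Measure (ℝ × ℝ)).restrict D).toOuterMeasure
  obtain hν : ∀ U, ν U = (ENNReal.ofReal C)⁻¹ * volume (P ⁻¹' U ∩ D) := by
    intro U
    simp only [ν, smul_apply, OuterMeasure.map_apply, smul_eq_mul]
    rw [← Measure.restrict_apply' hDm]; rfl
  obtain hC0 : ENNReal.ofReal C ≠ 0 := by simpa using hC
  obtain hle : ν ≤ OuterMeasure.mkMetric (fun r => r ^ (1 + al)) := by
    refine OuterMeasure.le_mkMetric _ ν 1 one_pos fun U hU => ?_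
    have hfin : Metric.ediam U ≠ ⊤ := ne_top_of_le_ne_top ENNReal.one_ne_top hU
    set δ := (Metric.ediam U).toReal with hδ
    have hδ0 : 0 ≤ δ := ENNReal.toReal_nonneg
    have hUd : Metric.ediam U = ENNReal.ofReal δ := (ENNReal.ofReal_toReal hfin).symm
    obtain hd : ∀ p ∈ U, ∀ p' ∈ U, dist p p' ≤ δ := fun p hp p' hp' => by
      rw [dist_edist]
      exact ENNReal.toReal_mono hfin (Metric.edist_le_ediam_of_mem hp hp')
    set A := P ⁻¹' U ∩ D with hA
    obtain h1 : volume (Prod.fst '' A) ≤ ENNReal.ofReal δ := by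
      refine (Real.volume_le_diam _).trans (Metric.ediam_le ?_)
      rintro _ ⟨q, hq, rfl⟩ _ ⟨q', hq', rfl⟩
      rw [edist_dist, Real.dist_eq]
      exact ENNReal.ofReal_le_ofReal ((hx q hq.2 q' hq'.2).trans (hd _ hq.1 _ hq'.1))
    obtain h2 : volume (Prod.snd '' A) ≤ ENNReal.ofReal (C * δ ^ al) := by
      refine (Real.volume_le_diam _).trans (Metric.ediam_le ?_)
      rintro _ ⟨q, hq, rfl⟩ _ ⟨q', hq', rfl⟩
      rw [edist_dist, Real.dist_eq]
      refine ENNReal.ofReal_le_ofReal ((hs q hq.2 q' hq'.2).trans ?_)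
      exact mul_le_mul_of_nonneg_left
        (Real.rpow_le_rpow dist_nonneg (hd _ hq.1 _ hq'.1) hal) hC.le
    obtain h3 : volume A ≤ ENNReal.ofReal δ * ENNReal.ofReal (C * δ ^ al) := by
      calc volume A ≤ volume ((Prod.fst '' A) ×ˢ (Prod.snd '' A)) :=
            measure_mono fun q hq => ⟨⟨q, hq, rfl⟩, ⟨q, hq, rfl⟩⟩
        _ = volume (Prod.fst '' A) * volume (Prod.snd '' A) := by
            rw [Measure.volume_eq_prod, Measure.prod_prod]
        _ ≤ _ := mul_le_mul' h1 h2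
    rw [hν, hUd, ENNReal.ofReal_rpow_of_nonneg hδ0 (by linarith only [hal])]
    obtain h4 : ENNReal.ofReal δ * ENNReal.ofReal (C * δ ^ al) =
        ENNReal.ofReal C * ENNReal.ofReal (δ ^ (1 + al)) := by
      rw [← ENNReal.ofReal_mul hδ0, ← ENNReal.ofReal_mul hC.le,
        Real.rpow_add' hδ0 (by linarith only [hal]), Real.rpow_one]
      congr 1; ring
    calc (ENNReal.ofReal C)⁻¹ * volume A
        ≤ (ENNReal.ofReal C)⁻¹ * (ENNReal.ofReal C * ENNReal.ofReal (δ ^ (1 + al))) := by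
          rw [← h4]; exact mul_le_mul_right h3 _
      _ = _ := by rw [← mul_assoc, ENNReal.inv_mul_cancel hC0 ENNReal.ofReal_ne_top, one_mul]
  obtain hpos : ν K ≠ 0 := by
    rw [hν]
    have e : P ⁻¹' K ∩ D = D := inter_eq_right.2 fun q hq => hK q hq
    rw [e, hD, Measure.volume_eq_prod, Measure.prod_prod]
    simp
  obtain hH : (μH[1 + al] : Measure P2) K ≠ 0 := by
    intro h0
    apply hpos
    have h5 := hle K
    obtain h6 : (OuterMeasure.mkMetric (fun r => r ^ (1 + al)) : OuterMeasure P2) K =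
        (μH[1 + al] : Measure P2) K := by
      rw [← Measure.mkMetric_toOuterMeasure]; rfl
    rw [h6, h0] at h5
    exact le_antisymm h5 zero_le
  obtain h7 := le_dimH_of_hausdorffMeasure_ne_zero (d := ⟨1 + al, by linarith only [hal]⟩) (s := K) hH
  rwa [ENNReal.ofReal_eq_coe_nnreal (by linarith only [hal] : (0 : ℝ) ≤ 1 + al)]

/-- binary digits -/
def dig (s : ℝ) (k : ℕ) : Bool := decide (⌊2 ^ (k + 1) * s⌋ % 2 = 1)

theorem floor_two (x : ℝ) : 2 * ⌊x⌋ ≤ ⌊2 * x⌋ ∧ ⌊2 * x⌋ < 2 * ⌊x⌋ + 2 := by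
  have h1 := Int.floor_le x
  have h2 := Int.lt_floor_add_one x
  refine ⟨Int.le_floor.2 ?_, Int.floor_lt.2 ?_⟩ <;> push_cast <;> linarith only [h1, h2]

theorem dig_floor {s s' : ℝ} (hs : s ∈ Ico (0 : ℝ) 1) (hs' : s' ∈ Ico (0 : ℝ) 1) (m : ℕ)
    (h : ∀ k < m, dig s k = dig s' k) : ⌊2 ^ m * s⌋ = ⌊2 ^ m * s'⌋ := by
  induction m with
  | zero =>
    simp only [pow_zero, one_mul]
    rw [Int.floor_eq_zero_iff.2 hs, Int.floor_eq_zero_iff.2 hs']
  | succ m ih =>
    obtain h0 := ih fun k hk => h k (by omega)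
    obtain h1 := h m (by omega)
    have a := floor_two (2 ^ m * s)
    have b := floor_two (2 ^ m * s')
    obtain e : ∀ x : ℝ, 2 * (2 ^ m * x) = 2 ^ (m + 1) * x := fun x => by ring
    rw [e] at a b
    simp only [dig, decide_eq_decide] at h1
    omega

theorem dig_close {s s' : ℝ} (hs : s ∈ Ico (0 : ℝ) 1) (hs' : s' ∈ Ico (0 : ℝ) 1) (m : ℕ)
    (h : ∀ k < m, dig s k = dig s' k) : 2 ^ m * |s - s'| ≤ 1 := by
  have h0 := Int.abs_sub_lt_one_of_floor_eq_floor (dig_floor hs hs' m h)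
  rw [← mul_sub, abs_mul, abs_of_pos (by positivity : (0 : ℝ) < 2 ^ m)] at h0
  exact h0.le

theorem dP_pos {y w : ℝ} (hw : w ≤ 1) (h : dP y ≤ w) (hy : 0 < y) : |y - Real.pi / 2| ≤ w := by
  have hp := Real.pi_gt_three
  rcases min_le_iff.1 h with h | h
  · exact h
  · have := le_abs_self (y + Real.pi / 2); linarith only [hw, hy, hp, h, this]

theorem dP_neg {y w : ℝ} (hw : w ≤ 1) (h : dP y ≤ w) (hy : ¬ 0 < y) :
    |y - -(Real.pi / 2)| ≤ w := by
  have hp := Real.pi_gt_three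
  rcases min_le_iff.1 h with h | h
  · have := neg_abs_le (y - Real.pi / 2); have := not_lt.1 hy; (rename_i zq0; linarith only [hw, hy, hp, h, zq0])
  · rwa [sub_neg_eq_add]

theorem dP_abs {y w : ℝ} (hw : w ≤ 1) (h : dP y ≤ w) : |y| ≤ 3 := by
  have hp := Real.pi_lt_four
  have hp' := Real.pi_gt_three
  rcases min_le_iff.1 h with h | h <;> rw [abs_le] at h ⊢ <;> constructor <;> linarith only [hw, hp, hp', h.1, h.2]

variable {c : Cs} {M : Mdl} {t : ℝ}

theorem derx (hM : M.OK c) (ht : TI t) {x y : ℝ} (hx : Box c x) (hy : Box c y) :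
    HasDerivAt (fun z => M.G t z y) (M.Ga t x y) x := by
  have h := (hM.der t x y ht hx hy).comp_hasDerivAt x
    ((hasDerivAt_id x).prodMk (hasDerivAt_const x y))
  simpa [Function.comp_def] using h

theorem dery (hM : M.OK c) (ht : TI t) {x y : ℝ} (hx : Box c x) (hy : Box c y) :
    HasDerivAt (fun z => M.G t x z) (M.Gb t x y) y := by
  have h := (hM.der t x y ht hx hy).comp_hasDerivAt y
    ((hasDerivAt_const y x).prodMk (hasDerivAt_id y))
  simpa [Function.comp_def] using h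

theorem lipx (hM : M.OK c) (ht : TI t) (hL : 0 ≤ c.L) {x x' y : ℝ} (hx : Box c x) (hx' : Box c x')
    (hy : Box c y) : |M.G t x' y - M.G t x y| ≤ (1 + 1 / c.lam ^ 5) * c.L * |x' - x| := by
  have hb : ∀ z ∈ Icc (-(2 * c.L)) (2 * c.L), Box c z := fun z hz => abs_le.2 hz
  obtain h := Convex.norm_image_sub_le_of_norm_hasDerivWithin_le (f := fun z => M.G t z y)
    (f' := fun z => M.Ga t z y) (C := (1 + 1 / c.lam ^ 5) * c.L) (s := Icc (-(2 * c.L)) (2 * c.L))
    (fun z hz => (derx hM ht (hb z hz) hy).hasDerivWithinAt) (fun z hz => by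
      have h1 := hM.a_all t z y ht (hb z hz) hy
      obtain h2 : |c.L * Real.sin z| ≤ c.L := by
        rw [abs_mul, abs_of_nonneg hL]
        exact mul_le_of_le_one_right hL (Real.abs_sin_le_one z)
      have h3 := abs_sub (M.Ga t z y + c.L * Real.sin z) (c.L * Real.sin z)
      rw [add_sub_cancel_right] at h3
      rw [Real.norm_eq_abs]
      obtain e : (1 + 1 / c.lam ^ 5) * c.L = c.L / c.lam ^ 5 + c.L := by ring
      linarith only [h1, h2, h3, e])
    (convex_Icc _ _) (abs_le.1 hx) (abs_le.1 hx')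
  simpa only [Real.norm_eq_abs] using h

theorem expy (hM : M.OK c) (ht : TI t) (hL : 2 ≤ c.L) (hw : c.w0 ≤ 1) {x y y' σ : ℝ}
    (hσ : σ = Real.pi / 2 ∨ σ = -(Real.pi / 2)) (hx : dP x ≤ c.w0) (hy : |y - σ| ≤ c.w0)
    (hy' : |y' - σ| ≤ c.w0) : (c.k0 * c.L - 1) * |y' - y| ≤ |M.G t x y' - M.G t x y| := by
  obtain hbox : ∀ z, dP z ≤ c.w0 → Box c z := fun z hz => by
    have := dP_abs hw hz; unfold Box; linarith only [hL, this]
  obtain hd : ∀ z ∈ Icc (σ - c.w0) (σ + c.w0), dP z ≤ c.w0 := fun z hz => by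
    obtain h1 : |z - σ| ≤ c.w0 := abs_le.2 ⟨by linarith only [hz.1], by linarith only [hz.2]⟩
    rcases hσ with rfl | rfl
    · exact (min_le_left _ _).trans h1
    · rw [sub_neg_eq_add] at h1; exact (min_le_right _ _).trans h1
  obtain h := Convex.mul_sub_le_image_sub_of_le_deriv (convex_Icc (σ - c.w0) (σ + c.w0))
    (f := fun z => M.G t x z) (C := c.k0 * c.L - 1)
    (fun z hz => (dery hM ht (hbox x hx) (hbox z (hd z hz))).continuousAt.continuousWithinAt)
    (fun z hz => (dery hM ht (hbox x hx)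
      (hbox z (hd z (interior_subset hz)))).differentiableAt.differentiableWithinAt)
    (fun z hz => by
      rw [(dery hM ht (hbox x hx) (hbox z (hd z (interior_subset hz)))).deriv]
      have := (abs_le.1 (hM.b_K t x z ht hx (hd z (interior_subset hz)))).1
      linarith only [this])
  obtain my : y ∈ Icc (σ - c.w0) (σ + c.w0) :=
    ⟨by linarith only [(abs_le.1 hy).1], by linarith only [(abs_le.1 hy).2]⟩
  obtain my' : y' ∈ Icc (σ - c.w0) (σ + c.w0) :=
    ⟨by linarith only [(abs_le.1 hy').1], by linarith only [(abs_le.1 hy').2]⟩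
  rcases le_total y y' with hle | hle
  · rw [abs_of_nonneg (sub_nonneg.2 hle)]
    exact (h y my y' my' hle).trans (le_abs_self _)
  · rw [abs_sub_comm y', abs_sub_comm (M.G t x y'), abs_of_nonneg (sub_nonneg.2 hle)]
    exact (h y' my' y my hle).trans (le_abs_self _)

/-- separation of two points of the leaves whose codes first differ at `n` -/
theorem sepn (hM : M.OK c) (ht : TI t) (hL : 32 ≤ c.L) (hk : 1 / 16 ≤ c.k0) (hk' : c.k0 < 1 / 2)
    (hl : 1 ≤ c.lam) {R : ℝ} (hR1 : 1 ≤ R)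
    (hR : (1 + 1 / c.lam ^ 5) * c.L + 1 ≤ R * (c.k0 * c.L - 1))
    {ω ω' : ℕ → Bool} {x x' : ℝ} {p p' : P2} (hp : p ∈ Ku c M t ω x) (hp' : p' ∈ Ku c M t ω' x')
    (n : ℕ) (hag : ∀ k < n, ω k = ω' k) (hn : ω n ≠ ω' n) :
    c.e0 * c.w0 / 300 ≤ dist p p' * R ^ n := by
  obtain ⟨Y, ⟨rfl, hY⟩, -, hc⟩ := hp
  obtain ⟨Y', ⟨rfl, hY'⟩, -, hc'⟩ := hp'
  set D := dist ((Y 0, Y (-1)) : P2) (Y' 0, Y' (-1)) with hD
  have hD0 : 0 ≤ D := dist_nonneg
  obtain hw0 : 0 < c.w0 := by unfold Cs.w0; positivity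
  obtain hw : c.w0 ≤ 1 := by
    unfold Cs.w0; rw [div_le_one (by positivity)]; exact one_le_pow₀ hl
  obtain hτ : 1 / c.lam ^ 5 ≤ 1 := by rw [div_le_one (by positivity)]; exact one_le_pow₀ hl
  obtain hτ0 : 0 ≤ 1 / c.lam ^ 5 := by positivity
  obtain he0 : 0 < c.e0 := by unfold Cs.e0; linarith only [hk']
  obtain he1 : c.e0 ≤ 1 := by unfold Cs.e0; linarith only [hk, hk']
  obtain hcore : ∀ z, Core c z → dP z ≤ c.w0 := fun z hz => by
    unfold Core at hz; nlinarith only [hz, hk, hk', hw0, he0]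
  obtain hkL : 0 < c.k0 * c.L - 1 := by nlinarith only [hL, hk, hk']
  set Λ := (1 + 1 / c.lam ^ 5) * c.L with hΛ
  obtain hΛ0 : 0 ≤ Λ := by positivity
  obtain hΛ2 : Λ ≤ 2 * c.L := by nlinarith only [hτ, hL]
  let v : ℕ → ℝ := fun i => |Y' (-(i : ℤ)) - Y (-(i : ℤ))|
  obtain hv0 : v 0 ≤ D := by
    simp only [v, hD, Prod.dist_eq, Real.dist_eq, Nat.cast_zero, neg_zero]
    rw [abs_sub_comm]; exact le_max_left _ _
  obtain hv1 : v 1 ≤ D := by
    simp only [v, hD, Prod.dist_eq, Real.dist_eq, Nat.cast_one]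
    rw [abs_sub_comm]; exact le_max_right _ _
  obtain i1 : ∀ k : ℕ, (-((k + 1 : ℕ) : ℤ)) = -1 - k := fun k => by push_cast; ring
  obtain i2 : ∀ k : ℕ, (-((k + 2 : ℕ) : ℤ)) = -1 - ((k + 1 : ℕ) : ℤ) := fun k => by push_cast; ring
  -- the one-step inequality
  obtain key : ∀ k : ℕ, |M.G t (Y' (-1 - k)) (Y' (-1 - ((k + 1 : ℕ) : ℤ))) -
      M.G t (Y' (-1 - k)) (Y (-1 - ((k + 1 : ℕ) : ℤ)))| ≤ v k + Λ * v (k + 1) := fun k => by
    obtain e1 : (-1 - (k : ℤ)) + 1 = -(k : ℤ) := by ring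
    obtain e2 : (-1 - (k : ℤ)) - 1 = -1 - ((k + 1 : ℕ) : ℤ) := by push_cast; ring
    have a := (hY (-1 - k)).2
    have a' := (hY' (-1 - k)).2
    rw [e1, e2] at a a'
    obtain b := lipx hM ht (by linarith only [hL, hk, hk']) (hY (-1 - k)).1 (hY' (-1 - k)).1
      (hY (-1 - ((k + 1 : ℕ) : ℤ))).1
    rw [← a] at b
    rw [← a']
    simp only [v, i1]
    have := abs_sub_le (Y' (-(k : ℤ))) (Y (-(k : ℤ)))
      (M.G t (Y' (-1 - k)) (Y (-1 - ((k + 1 : ℕ) : ℤ))))
    rw [abs_sub_comm (Y (-(k : ℤ)))] at this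
    linarith only [b, this]
  obtain ind : ∀ i, i < n → v i ≤ D * R ^ i ∧ v (i + 1) ≤ D * R ^ i := by
    intro i
    induction i with
    | zero => intro _; simpa using ⟨hv0, hv1⟩
    | succ i ih =>
      intro hi
      obtain ⟨a, b⟩ := ih (by omega)
      obtain hRi : 0 ≤ D * R ^ i := by positivity
      obtain e : D * R ^ (i + 1) = R * (D * R ^ i) := by ring
      refine ⟨by rw [e]; nlinarith only [b, hk, hk', hR1, hRi], ?_⟩
      have hsame := hag (i + 1) hi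
      have c1 := hc (i + 1)
      have c2 := hc' (i + 1)
      obtain hexp : (c.k0 * c.L - 1) * |Y' (-1 - ((i + 1 : ℕ) : ℤ)) - Y (-1 - ((i + 1 : ℕ) : ℤ))| ≤
          |M.G t (Y' (-1 - i)) (Y' (-1 - ((i + 1 : ℕ) : ℤ))) -
            M.G t (Y' (-1 - i)) (Y (-1 - ((i + 1 : ℕ) : ℤ)))| := by
        by_cases hpos : 0 < Y (-1 - ((i + 1 : ℕ) : ℤ))
        · have hpos' : 0 < Y' (-1 - ((i + 1 : ℕ) : ℤ)) := c2.2.2 (hsame ▸ c1.2.1 hpos)
          exact expy hM ht (by linarith only [hL, hk, hk']) hw (Or.inl rfl) (hcore _ (hc' i).1)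
            (dP_pos hw (hcore _ c1.1) hpos) (dP_pos hw (hcore _ c2.1) hpos')
        · have hpos' : ¬ 0 < Y' (-1 - ((i + 1 : ℕ) : ℤ)) := fun h =>
            hpos (c1.2.2 (hsame ▸ c2.2.1 h))
          exact expy hM ht (by linarith only [hL, hk, hk']) hw (Or.inr rfl) (hcore _ (hc' i).1)
            (dP_neg hw (hcore _ c1.1) hpos) (dP_neg hw (hcore _ c2.1) hpos')
      obtain hv : v (i + 1 + 1) = |Y' (-1 - ((i + 1 : ℕ) : ℤ)) - Y (-1 - ((i + 1 : ℕ) : ℤ))| := by
        simp only [v]; rw [i1 (i + 1)]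
      rw [← hv] at hexp
      obtain h3 : (c.k0 * c.L - 1) * v (i + 1 + 1) ≤ (c.k0 * c.L - 1) * (R * (D * R ^ i)) := by
        have h4 := mul_le_mul_of_nonneg_left b hΛ0
        have h5 := mul_le_mul_of_nonneg_right hR hRi
        linarith only [a, hexp, h4, h5, key i]
      rw [e]; exact le_of_mul_le_mul_left h3 hkL
  obtain hsign : ∀ k, ω k ≠ ω' k → (Y (-1 - k) < 0 ∧ 0 < Y' (-1 - k) ∧ 1 ≤ Y' (-1 - k) - Y (-1 - k)) ∨
      (Y' (-1 - k) < 0 ∧ 0 < Y (-1 - k) ∧ 1 ≤ Y (-1 - k) - Y' (-1 - k)) := fun k hk => by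
    have hp := Real.pi_gt_three
    have c1 := hc k
    have c2 := hc' k
    by_cases hpos : 0 < Y (-1 - k)
    · have hpos' : ¬ 0 < Y' (-1 - k) := fun h => hk ((c1.2.1 hpos).trans (c2.2.1 h).symm)
      have a := abs_le.1 (dP_pos hw (hcore _ c1.1) hpos)
      have b := abs_le.1 (dP_neg hw (hcore _ c2.1) hpos')
      exact Or.inr ⟨by (rename_i zq0; linarith only [zq0, hk', hw, hp, b.2]), hpos, by linarith only [hw, hp, a.1, b.2]⟩
    · obtain hpos' : 0 < Y' (-1 - k) := by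
        refine c2.2.2 ?_
        have h1 : ω k ≠ true := fun h => hpos (c1.2.2 h)
        revert hk h1; cases ω k <;> cases ω' k <;> simp
      have a := abs_le.1 (dP_neg hw (hcore _ c1.1) hpos)
      have b := abs_le.1 (dP_pos hw (hcore _ c2.1) hpos')
      exact Or.inl ⟨by (rename_i zq0; linarith only [zq0, hk', hw, hp, a.2]), hpos', by linarith only [hw, hp, a.2, b.1]⟩
  have hew : c.e0 * c.w0 ≤ 1 := mul_le_one₀ he1 hw0.le hw
  rcases n with _ | m
  · obtain h1 : 1 ≤ v (0 + 1) := by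
      simp only [v, i1]
      rcases hsign 0 hn with h | h
      · exact h.2.2.trans (le_abs_self _)
      · rw [abs_sub_comm]; exact h.2.2.trans (le_abs_self _)
    rw [pow_zero, mul_one]
    rw [zero_add] at h1
    linarith only [hk, hk', hv1, hew, h1]
  · obtain ⟨a, b⟩ := ind m (by omega)
    obtain hRi : 0 ≤ D * R ^ m := by positivity
    obtain h1 : c.e0 * c.w0 * c.L / 100 ≤ v m + Λ * v (m + 1) := by
      refine le_trans ?_ (key m)
      rcases hsign (m + 1) hn with h | h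
      · exact hM.sep t _ _ _ ht (hcore _ (hc' m).1) (hc (m + 1)).1 (hc' (m + 1)).1 h.1 h.2.1
      · rw [abs_sub_comm]
        exact hM.sep t _ _ _ ht (hcore _ (hc' m).1) (hc' (m + 1)).1 (hc (m + 1)).1 h.1 h.2.1
    obtain h2 : v m + Λ * v (m + 1) ≤ 3 * c.L * (D * R ^ m) := by
      have h4 := mul_le_mul_of_nonneg_left b hΛ0
      nlinarith only [a, hRi, h4, hL, hk, hk', hΛ2]
    obtain h3 : c.e0 * c.w0 / 300 ≤ D * R ^ m := by
      obtain this : c.L * (c.e0 * c.w0 / 300) ≤ c.L * (D * R ^ m) := by linarith only [h1, h2]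
      exact le_of_mul_le_mul_left this (by linarith only [hL, hk, hk'])
    obtain e : D * R ^ (m + 1) = R * (D * R ^ m) := by ring
    rw [e]; nlinarith only [h3, hk, hk', hR1, hRi]

theorem core (hM : M.OK c) (ht : TI t) (hL : 32 ≤ c.L) (hk : 1 / 16 ≤ c.k0) (hk' : c.k0 < 1 / 2)
    (hl : 1 ≤ c.lam) {R : ℝ} (hR1 : 1 < R)
    (hR : (1 + 1 / c.lam ^ 5) * c.L + 1 ≤ R * (c.k0 * c.L - 1)) {K : Set P2}
    (hK : ∀ ω, ∀ x ∈ Set.Icc (-2 : ℝ) 2, (Ku c M t ω x).Nonempty ∧ Ku c M t ω x ⊆ K) :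
    ENNReal.ofReal (1 + Real.log 2 / Real.log R) ≤ dimH K := by
  classical
  choose! P hP using fun ω x hx => (hK ω x hx).1
  set al := Real.log 2 / Real.log R with hal
  have hal0 : 0 < al := div_pos (Real.log_pos one_lt_two) (Real.log_pos hR1)
  obtain hRal : R ^ al = 2 := Real.rpow_logb (by linarith only [hk, hk', hR1]) hR1.ne' two_pos
  set c0 := c.e0 * c.w0 / 300 with hc0
  obtain hc00 : 0 < c0 := by
    obtain hw0 : 0 < c.w0 := by unfold Cs.w0; positivity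
    obtain he0 : 0 < c.e0 := by unfold Cs.e0; linarith only [hk']
    (clear * - he0 hw0; positivity)
  have hca : 0 < c0 ^ al := Real.rpow_pos_of_pos hc00 al
  refine mass (fun q => P (dig q.2) q.1) al (c0 ^ al)⁻¹ hal0.le (inv_pos.2 hca)
    (fun q hq => (hK _ _ hq.1).2 (hP _ _ hq.1)) (fun q hq q' hq' => ?_) (fun q hq q' hq' => ?_)
  · obtain ⟨Y, ⟨e, -⟩, h0, -⟩ := hP (dig q.2) q.1 hq.1
    obtain ⟨Y', ⟨e', -⟩, h0', -⟩ := hP (dig q'.2) q'.1 hq'.1
    rw [e, e', h0, h0', Prod.dist_eq, Real.dist_eq]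
    exact le_max_left _ _
  · set D := dist (P (dig q.2) q.1) (P (dig q'.2) q'.1) with hD
    have hD0 : 0 ≤ D := dist_nonneg
    by_cases hex : ∃ n, dig q.2 n ≠ dig q'.2 n
    · have hn := Nat.find_spec hex
      have hag : ∀ k < Nat.find hex, dig q.2 k = dig q'.2 k := fun k hk =>
        not_not.1 (Nat.find_min hex hk)
      set n := Nat.find hex
      have h1 : c0 ≤ D * R ^ n :=
        sepn hM ht hL hk hk' hl hR1.le hR (hP _ _ hq.1) (hP _ _ hq'.1) n hag hn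
      have h2 := Real.rpow_le_rpow hc00.le h1 hal0.le
      rw [Real.mul_rpow hD0 (by positivity), ← Real.rpow_pow_comm (by linarith only [hk, hk', hR1]), hRal] at h2
      have h3 := dig_close hq.2 hq'.2 n hag
      rw [inv_mul_eq_div, le_div_iff₀ hca]
      have h4 : 0 ≤ D ^ al := Real.rpow_nonneg hD0 al
      calc |q.2 - q'.2| * c0 ^ al ≤ |q.2 - q'.2| * (D ^ al * 2 ^ n) :=
            mul_le_mul_of_nonneg_left h2 (abs_nonneg _)
        _ = D ^ al * (2 ^ n * |q.2 - q'.2|) := by ring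
        _ ≤ D ^ al := mul_le_of_le_one_right h4 h3
    · have hag : ∀ n, dig q.2 n = dig q'.2 n := fun n => not_not.1 fun h => hex ⟨n, h⟩
      obtain h0 : |q.2 - q'.2| ≤ 0 := by
        by_contra hpos
        have hpos := not_le.1 hpos
        obtain ⟨n, hn⟩ := pow_unbounded_of_one_lt (1 / |q.2 - q'.2|) (one_lt_two (α := ℝ))
        rw [div_lt_iff₀ hpos] at hn
        exact absurd (dig_close hq.2 hq'.2 n fun k _ => hag k) (not_le.2 hn)
      exact h0.trans (by (clear * - hc00; positivity))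

end DIM

theorem dim (d : ℝ) : Hier (DIM_s d) := by
  refine Hier.ofL Hier.base fun c hc => ?_
  obtain ⟨h1, h2, -⟩ := hc
  set k0 := c.k0 with hk0def
  by_cases hd : d < 1 + Real.log 2 / Real.log (1 / k0)
  swap
  · exact .of_forall fun L h => absurd h hd
  obtain hk0 : 0 < k0 := by linarith only [h1, h2]
  obtain hk1 : 1 < 1 / k0 := by rw [lt_div_iff₀ hk0]; linarith only [h2, hk0]
  let Rf : ℝ → ℝ := fun L => (1 + ((Real.log L) ^ 5)⁻¹ + L⁻¹) / (k0 - L⁻¹)
  obtain t1 : Tendsto (fun L : ℝ => ((Real.log L) ^ 5)⁻¹) atTop (𝓝 0) :=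
    tendsto_inv_atTop_zero.comp ((tendsto_pow_atTop (by norm_num)).comp Real.tendsto_log_atTop)
  obtain t2 : Tendsto Rf atTop (𝓝 (1 / k0)) := by
    obtain this := ((tendsto_const_nhds (x := (1 : ℝ))).add t1 |>.add tendsto_inv_atTop_zero).div
      ((tendsto_const_nhds (x := k0)).sub tendsto_inv_atTop_zero) (by simpa using hk0.ne')
    simp only [add_zero, sub_zero] at this
    exact this
  obtain t3 : Tendsto (fun L => 1 + Real.log 2 / Real.log (Rf L)) atTop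
      (𝓝 (1 + Real.log 2 / Real.log (1 / k0))) :=
    tendsto_const_nhds.add (tendsto_const_nhds.div (t2.log (by linarith only [h2, hk0, hk1])) (Real.log_pos hk1).ne')
  filter_upwards [t3.eventually (lt_mem_nhds hd), t2.eventually (lt_mem_nhds hk1),
    eventually_ge_atTop (32 : ℝ), Real.tendsto_log_atTop.eventually_ge_atTop 1] with L a1 a2 a3 a4
  intro _ M t K hM ht hK
  refine (ENNReal.ofReal_le_ofReal a1.le).trans (DIM.core hM ht a3 h1 h2 a4 a2 ?_ hK)
  obtain hL0 : L ≠ 0 := by linarith only [h2, hk0, a3]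
  obtain hkL : k0 - L⁻¹ ≠ 0 := by
    obtain this : L⁻¹ ≤ 1 / 32 := by rw [one_div]; exact inv_anti₀ (by norm_num) a3
    linarith only [h1, hk0, this]
  obtain e : k0 * L - 1 = (k0 - L⁻¹) * L := by field_simp
  refine le_of_eq ?_
  show (1 + 1 / Real.log L ^ 5) * L + 1 = Rf L * (k0 * L - 1)
  rw [e, ← mul_assoc]
  simp only [Rf]
  rw [div_mul_cancel₀ _ hkL, one_div, add_mul _ L⁻¹, inv_mul_cancel₀ hL0]

end
end Pool.Agent.MP_9cbfe4_an

end

/-! ### Part VIT -/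

section

/-! Row VIT: abstract nested Vitali covering. -/

namespace Pool.Agent.MP_9cbfe4_an

open Finset Filter Topology MeasureTheory Metric
open scoped ENNReal

namespace VITp

lemma one_step {Z : Type} (θ R N0 N1 : Z → ℝ) (ko : ℝ) (hko : 0 ≤ ko)
    (hR : ∀ z, 0 < R z ∧ R z ≤ N0 z ∧ R z ≤ 1000)
    (h : ∀ z, ∃ x1 x2 : ℝ, ∀ z', |θ z' - θ z| ≤ R z →
      closedBall (θ z') (N1 z') ⊆ closedBall x1 (ko * R z) ∪ closedBall x2 (ko * R z)) :
    volume (⋃ z, closedBall (θ z) (N1 z)) ≤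
      ENNReal.ofReal (10 * ko) * volume (⋃ z, closedBall (θ z) (N0 z)) := by
  choose x1 x2 hx using h
  obtain ⟨u, -, hd, hc⟩ := Vitali.exists_disjoint_subfamily_covering_enlargement_closedBall
    (Set.univ : Set Z) θ (fun z => R z / 5) 200
    (fun z _ => by have := (hR z).2.2; linarith only [this]) 5 (by norm_num)
  obtain hcount : u.Countable := by
    refine hd.countable_of_nonempty_interior fun z _ => ?_
    obtain this : 0 < R z / 5 := by have := (hR z).1; positivity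
    exact ⟨θ z, ball_subset_interior_closedBall (mem_ball_self this)⟩
  obtain hsub : (⋃ z, closedBall (θ z) (N1 z)) ⊆
      ⋃ z ∈ u, (closedBall (x1 z) (ko * R z) ∪ closedBall (x2 z) (ko * R z)) := by
    refine Set.iUnion_subset fun z' => ?_
    obtain ⟨z, hz, hzz⟩ := hc z' (Set.mem_univ _)
    obtain h1 : θ z' ∈ closedBall (θ z) (5 * (R z / 5)) :=
      hzz (mem_closedBall_self (by have := (hR z').1; positivity))
    obtain h2 : |θ z' - θ z| ≤ R z := by
      rw [mem_closedBall, Real.dist_eq] at h1; linarith only [h1]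
    exact (hx z z' h2).trans (Set.subset_biUnion_of_mem
      (u := fun z => closedBall (x1 z) (ko * R z) ∪ closedBall (x2 z) (ko * R z)) hz)
  have := hcount.to_subtype
  calc volume (⋃ z, closedBall (θ z) (N1 z))
      ≤ volume (⋃ z ∈ u, (closedBall (x1 z) (ko * R z) ∪ closedBall (x2 z) (ko * R z))) :=
        measure_mono hsub
    _ ≤ ∑' z : u, volume (closedBall (x1 z) (ko * R z) ∪ closedBall (x2 z) (ko * R z)) :=
        measure_biUnion_le _ hcount _
    _ ≤ ∑' z : u, ENNReal.ofReal (10 * ko) * volume (closedBall (θ z) (R z / 5)) := by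
        refine ENNReal.tsum_le_tsum fun z => (measure_union_le _ _).trans ?_
        have h0 : 0 ≤ ko * R z := mul_nonneg hko (hR z).1.le
        rw [Real.volume_closedBall, Real.volume_closedBall, Real.volume_closedBall,
          ← ENNReal.ofReal_add (by linarith only [h0]) (by linarith only [h0]),
          ← ENNReal.ofReal_mul (by linarith only [hko])]
        exact ENNReal.ofReal_le_ofReal (le_of_eq (by ring))
    _ = ENNReal.ofReal (10 * ko) * volume (⋃ z ∈ u, closedBall (θ z) (R z / 5)) := by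
        rw [ENNReal.tsum_mul_left,
          measure_biUnion hcount hd fun z _ => measurableSet_closedBall]
    _ ≤ ENNReal.ofReal (10 * ko) * volume (⋃ z, closedBall (θ z) (N0 z)) := by
        refine mul_le_mul_right (measure_mono ?_) _
        refine Set.iUnion₂_subset fun z _ => ?_
        refine (closedBall_subset_closedBall ?_).trans
          (Set.subset_iUnion (fun z => closedBall (θ z) (N0 z)) z)
        have := hR z; linarith only [this.1, this.2.1]

end VITp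

theorem VIT : VIT_s := by
  intro Z θ k R N ko hR hko h
  induction k with
  | zero => simp
  | succ k ih =>
    have ih' := ih (fun i z h1 h2 => hR i z h1 (h2.trans (Nat.le_succ k)))
      (fun i z h1 h2 => h i z h1 (h2.trans (Nat.le_succ k)))
    have st := VITp.one_step θ (R (k + 1)) (N k) (N (k + 1)) (ko (k + 1)) (hko _)
      (fun z => by simpa using hR (k + 1) z (Nat.le_add_left 1 k) le_rfl)
      (fun z => h (k + 1) z (Nat.le_add_left 1 k) le_rfl)
    rw [Finset.prod_Icc_succ_top (Nat.le_add_left 1 k), mul_comm (∏ i ∈ Icc 1 k, 10 * ko i),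
      ENNReal.ofReal_mul (by have := hko (k + 1); positivity), mul_assoc]
    exact st.trans (by gcongr)

end Pool.Agent.MP_9cbfe4_an

end

/-! ### Part KR -/

section

/-! Row KR: Kraft count of patterns. -/

namespace Pool.Agent.MP_9cbfe4_an

open Finset Filter Topology

namespace KRp

lemma lists {α : Type} [DecidableEq α] (A : Finset α) (w : α → ℝ) (hw : ∀ x, 0 ≤ w x)
    (hA : ∑ x ∈ A, w x ≤ 3 / 4) (n : ℕ) :
    ∃ T : Finset (List α), ∑ π ∈ T, (π.map w).prod ≤ 4 ∧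
      ∀ π : List α, (∀ x ∈ π, x ∈ A) → π.length ≤ n → π ∈ T := by
  obtain hp : ∀ π : List α, 0 ≤ (π.map w).prod := fun π =>
    List.prod_nonneg fun y hy => by
      obtain ⟨x, -, rfl⟩ := List.mem_map.1 hy; exact hw x
  induction n with
  | zero =>
    refine ⟨{[]}, by simp, fun π _ h => ?_⟩
    simpa using List.eq_nil_of_length_eq_zero (Nat.le_zero.1 h)
  | succ n ih =>
    obtain ⟨T, hT, hT'⟩ := ih
    refine ⟨insert [] ((A ×ˢ T).image fun p => p.1 :: p.2), ?_, fun π h1 h2 => ?_⟩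
    · rw [Finset.sum_insert (by simp), Finset.sum_image (fun p _ q _ h => by
        obtain ⟨h1, h2⟩ := List.cons.inj h; exact Prod.ext h1 h2), Finset.sum_product]
      simp only [List.map_cons, List.prod_cons, List.map_nil, List.prod_nil]
      rw [← Finset.sum_mul_sum]
      have h0 : 0 ≤ ∑ π ∈ T, (π.map w).prod := Finset.sum_nonneg fun π _ => hp π
      nlinarith only [hT, hA, h0]
    · cases π with
      | nil => simp
      | cons x π =>
        refine Finset.mem_insert_of_mem (Finset.mem_image.2 ⟨(x, π), ?_, rfl⟩)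
        exact Finset.mem_product.2 ⟨h1 x (by simp), hT' π (fun y hy => h1 y (by simp [hy]))
          (by simpa using h2)⟩

lemma wprod (δ : ℝ) (π : List (ℕ × ℕ × Bool)) :
    (π.map fun x => Real.exp (-2 - 3 * δ * x.1)).prod =
      Real.exp (-2 * π.length - 3 * δ * (π.map fun x => (x.1 : ℝ)).sum) := by
  induction π with
  | nil => simp
  | cons x π ih =>
    simp only [List.map_cons, List.prod_cons, List.sum_cons, List.length_cons, ih,
      ← Real.exp_add]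
    congr 1; push_cast; ring

lemma sum_bi {ι α : Type} [DecidableEq α] (s : Finset ι) (t : ι → Finset α) (w : α → ℝ)
    (hw : ∀ x, 0 ≤ w x) : ∑ x ∈ s.biUnion t, w x ≤ ∑ i ∈ s, ∑ x ∈ t i, w x := by
  classical
  induction s using Finset.induction_on with
  | empty => simp
  | insert i s hi ih =>
    rw [Finset.biUnion_insert, Finset.sum_insert hi]
    have := Finset.sum_union_inter (s₁ := t i) (s₂ := s.biUnion t) (f := w)
    have h0 : 0 ≤ ∑ x ∈ t i ∩ s.biUnion t, w x := Finset.sum_nonneg fun x _ => hw x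
    linarith only [ih, this, h0]

lemma core (c : Cs) (hδ : 0 < c.del)
    (h : Real.exp (-(2 * c.del) * c.cc) ≤ (1 - Real.exp (-(2 * c.del))) / 4) : KR_s c := by
  intro N Y
  set δ := c.del with hδd
  set w : ℕ × ℕ × Bool → ℝ := fun x => Real.exp (-2 - 3 * δ * x.1) with hwd
  have hw : ∀ x, 0 ≤ w x := fun x => (Real.exp_pos _).le
  set F : ℕ → Finset (ℕ × ℕ × Bool) := fun m =>
    {m} ×ˢ (range (⌊1 + Real.exp (δ * m)⌋₊ + 1) ×ˢ univ) with hF
  set A0 : Finset (ℕ × ℕ × Bool) := {(0, 1, true), (0, 1, false)} with hA0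
  set A := A0 ∪ (Ico ⌈c.cc⌉₊ (⌊Y⌋₊ + 1)).biUnion F with hA
  obtain e2 : Real.exp (-2) ≤ 1 / 6 := by
    obtain h1 : (6 : ℝ) ≤ Real.exp 2 := by
      have := Real.exp_one_gt_d9
      obtain h2 : Real.exp 2 = Real.exp 1 * Real.exp 1 := by rw [← Real.exp_add]; norm_num
      nlinarith only [this, h2]
    rw [Real.exp_neg, ← one_div]
    exact one_div_le_one_div_of_le (by norm_num) h1
  set q := Real.exp (-(2 * δ)) with hq
  obtain hq1 : q < 1 := Real.exp_lt_one_iff.2 (by linarith only [hδ])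
  obtain hFm : ∀ m, ∑ x ∈ F m, w x ≤ q ^ m := by
    intro m
    obtain h1 : ∑ x ∈ F m, w x = ((⌊1 + Real.exp (δ * m)⌋₊ + 1 : ℕ) * 2 : ℝ) *
        Real.exp (-2 - 3 * δ * m) := by
      simp [hF, hwd]
    obtain h2 : 1 ≤ Real.exp (δ * m) := Real.one_le_exp (by (clear * - hδ; positivity))
    obtain h3 : (⌊1 + Real.exp (δ * m)⌋₊ : ℝ) ≤ 1 + Real.exp (δ * m) :=
      Nat.floor_le (by positivity)
    obtain h4 : Real.exp (δ * m) * Real.exp (-2 - 3 * δ * m) = Real.exp (-2) * q ^ m := by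
      rw [hq, ← Real.exp_nat_mul, ← Real.exp_add, ← Real.exp_add]; congr 1; ring
    obtain h5 : 0 ≤ q ^ m := by positivity
    have h6 := Real.exp_pos (-2 - 3 * δ * m)
    rw [h1]; push_cast
    calc ((⌊1 + Real.exp (δ * m)⌋₊ : ℝ) + 1) * 2 * Real.exp (-2 - 3 * δ * m)
        ≤ 6 * Real.exp (δ * m) * Real.exp (-2 - 3 * δ * m) :=
          mul_le_mul_of_nonneg_right (by linarith only [h2, h3]) h6.le
      _ = 6 * (Real.exp (-2) * q ^ m) := by rw [mul_assoc, h4]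
      _ ≤ q ^ m := by nlinarith only [e2, h5]
  obtain hsum : ∑ x ∈ A, w x ≤ 3 / 4 := by
    obtain a1 : ∑ x ∈ A0, w x ≤ 1 / 3 := by
      rw [hA0, Finset.sum_pair (by simp)]
      simp only [hwd, Nat.cast_zero, mul_zero, sub_zero]; linarith only [e2]
    obtain a2 : ∑ x ∈ (Ico ⌈c.cc⌉₊ (⌊Y⌋₊ + 1)).biUnion F, w x ≤ 1 / 4 := by
      refine (sum_bi _ _ _ hw).trans ((Finset.sum_le_sum fun m _ => hFm m).trans ?_)
      refine (geom_sum_Ico_le_of_lt_one (Real.exp_pos _).le hq1).trans ?_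
      rw [div_le_iff₀ (by linarith only [hq1])]
      obtain this : q ^ ⌈c.cc⌉₊ ≤ Real.exp (-(2 * δ) * c.cc) := by
        rw [hq, ← Real.exp_nat_mul]
        refine Real.exp_le_exp.2 ?_
        have := Nat.le_ceil c.cc
        nlinarith only [hδ, this]
      linarith only [h, this]
    have := Finset.sum_union_inter (s₁ := A0) (s₂ := (Ico ⌈c.cc⌉₊ (⌊Y⌋₊ + 1)).biUnion F) (f := w)
    have h0 : 0 ≤ ∑ x ∈ A0 ∩ (Ico ⌈c.cc⌉₊ (⌊Y⌋₊ + 1)).biUnion F, w x :=
      Finset.sum_nonneg fun x _ => hw x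
    linarith only [a1, a2, this, h0]
  obtain ⟨T, hT, hT'⟩ := lists A w hw hsum ⌊N⌋₊
  classical
  refine ⟨T.filter fun π => (π.length : ℝ) ≤ N ∧ (π.map fun x => (x.1 : ℝ)).sum ≤ Y, ?_, ?_⟩
  · obtain hp : ∀ π : List (ℕ × ℕ × Bool), 0 ≤ (π.map w).prod := fun π => by
      rw [hwd, wprod]; exact (Real.exp_pos _).le
    calc (((T.filter fun π => (π.length : ℝ) ≤ N ∧
            (π.map fun x => (x.1 : ℝ)).sum ≤ Y).card : ℕ) : ℝ)
        = ∑ _π ∈ T.filter fun π => (π.length : ℝ) ≤ N ∧ (π.map fun x => (x.1 : ℝ)).sum ≤ Y,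
            (1 : ℝ) := by simp
      _ ≤ ∑ π ∈ T.filter fun π => (π.length : ℝ) ≤ N ∧ (π.map fun x => (x.1 : ℝ)).sum ≤ Y,
            (π.map w).prod * Real.exp (2 * N + 3 * δ * Y) := by
          refine Finset.sum_le_sum fun π hπ => ?_
          obtain ⟨-, h1, h2⟩ := Finset.mem_filter.1 hπ
          rw [hwd, wprod, ← Real.exp_add]
          refine Real.one_le_exp ?_
          nlinarith only [h1, hδ, h2]
      _ ≤ ∑ π ∈ T, (π.map w).prod * Real.exp (2 * N + 3 * δ * Y) :=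
          Finset.sum_le_sum_of_subset_of_nonneg (Finset.filter_subset _ _)
            fun π _ _ => mul_nonneg (hp π) (Real.exp_pos _).le
      _ ≤ 4 * Real.exp (2 * N + 3 * δ * Y) := by
          rw [← Finset.sum_mul]; gcongr
  · intro π h1 h2 h3
    refine Finset.mem_filter.2 ⟨hT' π (fun x hx => ?_) (Nat.le_floor h2), h2, h3⟩
    obtain ⟨m, l, b⟩ := x
    rcases h1 _ hx with ⟨a1, a2⟩ | ⟨a1, a2⟩
    · refine Finset.mem_union_left _ ?_
      simp only at a1 a2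
      subst a1 a2
      cases b <;> simp [hA0]
    · refine Finset.mem_union_right _ (Finset.mem_biUnion.2 ⟨m, ?_, ?_⟩)
      · obtain hm : (m : ℝ) ≤ Y := le_trans (List.single_le_sum (fun y hy => by
          obtain ⟨z, -, rfl⟩ := List.mem_map.1 hy; positivity) _
          (List.mem_map.2 ⟨_, hx, rfl⟩)) h3
        exact Finset.mem_Ico.2 ⟨Nat.ceil_le.2 a1, Nat.lt_succ_of_le (Nat.le_floor hm)⟩
      · simp only [hF, Finset.mem_product, Finset.mem_singleton, Finset.mem_range,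
          Finset.mem_univ, and_true, true_and]
        exact Nat.lt_succ_of_le (Nat.le_floor a2)

end KRp

theorem KR : Hier KR_s := by
  intro k0 θb κ CG _ _ _ _ _ _
  filter_upwards [eventually_gt_atTop 0] with C0 hC0
  filter_upwards [eventually_gt_atTop 0] with C1 hC1
  filter_upwards [self_mem_nhdsWithin] with e3 he3
  rw [eventually_pure]
  have hε' : 0 < e3 ^ 20 := pow_pos he3 20
  generalize e3 ^ 20 = ε at hε' ⊢
  filter_upwards with a
  filter_upwards [self_mem_nhdsWithin] with d1 hd1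
  filter_upwards with M1
  filter_upwards with β
  have hd1' : 0 < d1 := hd1
  obtain hδ : 0 < 3 * d1 * (1 + 6 * C0 * C1) := by positivity
  set δ := 3 * d1 * (1 + 6 * C0 * C1) with hδd
  obtain ht : Tendsto (fun L : ℝ => Real.exp (-(2 * δ) * (ε * Real.log L / 20))) atTop (𝓝 0) := by
    refine Real.tendsto_exp_atBot.comp ?_
    refine Tendsto.const_mul_atTop_of_neg (by linarith only [hδ]) ?_
    exact (Real.tendsto_log_atTop.const_mul_atTop hε').atTop_div_const (by norm_num)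
  obtain h1 : Real.exp (-(2 * δ)) < 1 := Real.exp_lt_one_iff.2 (by linarith only [hδ])
  filter_upwards [ht.eventually (ge_mem_nhds (show (0 : ℝ) < (1 - Real.exp (-(2 * δ))) / 4 by
    linarith only [h1]))] with L hL
  exact KRp.core _ hδ hL

end Pool.Agent.MP_9cbfe4_an

end

/-! ### Part EPAR -/

section

/-! Row PAR of section E: the constants of a run. -/

namespace Pool.Agent.MP_9cbfe4_an.E

theorem par_num {K g θ Λ ρ P u : ℝ} (hK : 10 ≤ K) (hg : 10 ≤ g) (h0 : 0 < θ) (hP : 1 ≤ P)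
    (hθ : θ * (10 ^ 40 * K ^ 6 * g ^ 4 * P) ≤ 1) (hΛ : 1 / θ ^ 2 ≤ Λ)
    (hρ : Λ ≤ 10 ^ 7 * K * θ ^ 2 * ρ) (lo : ρ ≤ 10 ^ 12 * K ^ 2 * g * P * u)
    (hi : 10 ^ 12 * K ^ 2 * g * u ≤ ρ) :
    1 ≤ Λ ∧ 10 ^ 6 * g * K * (θ ^ 2 * (10 ^ 7 * K * ρ) + Λ) ≤ u ∧ 10 ^ 5 * K * θ * ρ ≤ u ∧
      10 ^ 11 * K * g * (4 * K * u) ≤ ρ ∧ 10 ^ 10 * K ^ 2 ≤ u ∧ 10 ^ 10 * K * ρ ≤ u ^ 2 := by
  obtain K1 : 1 ≤ K := by linarith only [hK]
  obtain g1 : 1 ≤ g := by linarith only [hg]
  obtain key : ∀ (A : ℝ) (a b : ℕ), 0 ≤ A → A ≤ 10 ^ 40 → a ≤ 6 → b ≤ 4 →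
      θ * (A * K ^ a * g ^ b * P) ≤ 1 := fun A a b h1 h2 h3 h4 => le_trans (by gcongr) hθ
  obtain θ1 : θ ≤ 1 := by
    have := key 1 0 0 (by norm_num) (by norm_num) (by norm_num) (by norm_num)
    nlinarith only [this, h0, hP]
  obtain Λ1 : 1 ≤ Λ := le_trans (by rw [le_div_iff₀ (by positivity)]; nlinarith only [θ1, h0]) hΛ
  obtain ρ1 : 1 ≤ 10 ^ 7 * K * θ ^ 4 * ρ := by
    have := hΛ.trans hρ
    rw [div_le_iff₀ (by positivity)] at this
    linarith only [this]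
  obtain ρ0 : 0 < ρ := by
    by_contra h
    obtain this : 10 ^ 7 * K * θ ^ 4 * ρ ≤ 0 := mul_nonpos_of_nonneg_of_nonpos (by positivity) (not_lt.1 h)
    linarith only [ρ1, this]
  obtain u0 : 0 < u := by
    by_contra h
    obtain this : 10 ^ 12 * K ^ 2 * g * P * u ≤ 0 :=
      mul_nonpos_of_nonneg_of_nonpos (by positivity) (not_lt.1 h)
    linarith only [lo, ρ0, this]
  obtain e1 : θ * ρ * (10 ^ 14 * K ^ 2 * g) ≤ u := by
    calc _ ≤ θ * (10 ^ 12 * K ^ 2 * g * P * u) * (10 ^ 14 * K ^ 2 * g) := by gcongr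
      _ = θ * (10 ^ 26 * K ^ 4 * g ^ 2 * P) * u := by ring
      _ ≤ 1 * u := by gcongr; exact key _ 4 2 (by norm_num) (by norm_num) (by norm_num) (by norm_num)
      _ = u := one_mul u
  obtain e0 : 0 < θ * ρ := by positivity
  obtain e2 : θ ^ 2 * ρ ≤ θ * ρ := by gcongr; nlinarith only [h0, θ1]
  obtain e3 : K ≤ K ^ 2 * g := by nlinarith only [hK, hg]
  obtain e4 : 10 ^ 10 * K ≤ θ ^ 2 * ρ := by
    have a1 := key (10 ^ 17) 2 0 (by norm_num) (by norm_num) (by norm_num) (by norm_num)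
    obtain a2 : θ * (10 ^ 17 * K ^ 2) ≤ 1 := le_trans (by
      rw [pow_zero, mul_one]
      exact mul_le_mul_of_nonneg_left (le_mul_of_one_le_right (by positivity) hP) h0.le) a1
    calc 10 ^ 10 * K ≤ 10 ^ 10 * K * (10 ^ 7 * K * θ ^ 4 * ρ) := le_mul_of_one_le_right (by positivity) ρ1
      _ = θ * (10 ^ 17 * K ^ 2) * θ * (θ ^ 2 * ρ) := by ring
      _ ≤ 1 * 1 * (θ ^ 2 * ρ) := by gcongr
      _ = _ := by ring
  obtain e5 : θ * ρ * K ≤ u := by
    refine le_trans ?_ e1; gcongr; linarith only [hK, e3]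
  refine ⟨Λ1, ?_, ?_, ?_, ?_, ?_⟩
  · calc _ ≤ 10 ^ 6 * g * K * (2 * 10 ^ 7 * K * (θ ^ 2 * ρ)) := by gcongr; linarith only [hρ]
      _ ≤ 10 ^ 6 * g * K * (10 ^ 8 * K * (θ * ρ)) := by gcongr; norm_num
      _ = θ * ρ * (10 ^ 14 * K ^ 2 * g) := by ring
      _ ≤ u := e1
  · calc _ = θ * ρ * (10 ^ 5 * K) := by ring
      _ ≤ θ * ρ * (10 ^ 14 * K ^ 2 * g) := by gcongr ?_ * ?_; linarith only [hK, e3]
      _ ≤ u := e1
  · obtain this : 0 < K ^ 2 * g * u := by positivity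
    linarith only [hi, this]
  · calc _ = 10 ^ 10 * K * K := by ring
      _ ≤ θ * ρ * K := mul_le_mul_of_nonneg_right (e4.trans e2) (by positivity)
      _ ≤ u := e5
  · have a1 : θ * ρ ≤ u := le_trans (le_mul_of_one_le_right e0.le K1) e5
    calc _ ≤ θ ^ 2 * ρ * ρ := by gcongr
      _ = (θ * ρ) ^ 2 := by ring
      _ ≤ _ := by gcongr

theorem par : PAR_s := by
  intro k h ρ hρ j hj
  obtain hK : (10 : ℝ) ≤ k.K := by exact_mod_cast h.K10
  have hg := h.g10
  have h0 := h.θpos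
  obtain ρ0 : 0 ≤ ρ := by
    obtain h1 : 0 < k.Λ := lt_of_lt_of_le (by positivity) h.Λbig
    by_contra hn
    obtain this : 10 ^ 7 * (k.K : ℝ) * k.θ ^ 2 * ρ ≤ 0 :=
      mul_nonpos_of_nonneg_of_nonpos (by positivity) (not_le.1 hn).le
    linarith only [hρ, h1, this]
  obtain p1 : (1 : ℝ) ≤ 2 ^ j := one_le_pow₀ (by norm_num)
  obtain p2 : (2 : ℝ) ^ j ≤ 2 ^ k.J0 := pow_le_pow_right₀ (by norm_num) hj.le
  obtain e : 10 ^ 12 * (k.K : ℝ) ^ 2 * k.g * 2 ^ j * (k.θ0 / 2 ^ j * ρ) = ρ := by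
    unfold EK.θ0; field_simp
  obtain u0 : 0 ≤ k.θ0 / 2 ^ j * ρ := by unfold EK.θ0; (clear * - hK hg ρ0; positivity)
  obtain ⟨a1, a2, a3, a4, a5, a6⟩ := par_num (u := k.θ0 / 2 ^ j * ρ) hK hg h0 (p1.trans p2) h.θsm
    h.Λbig hρ (e.symm.trans_le (by gcongr))
    (le_trans (mul_le_mul_of_nonneg_right (le_mul_of_one_le_right (by positivity) p1) u0) e.le)
  exact ⟨h.K10, hg, h0, a1, a2, a3, a4, a5, a6⟩

end Pool.Agent.MP_9cbfe4_an.E

end

/-! ### Part EAfa -/

section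

/-! Row FA of section E-A: the derived numeric facts. -/

namespace Pool.Agent.MP_9cbfe4_an.E

open Finset

theorem EK.J0_ge (k : EK) : 10 ^ 8 * (k.K : ℝ) / k.θ0 ≤ k.J0 := Nat.le_ceil _

theorem EK.g6 (k : EK) (h : k.OK) : k.g ^ 6 ≤ 2 ^ k.J0 := by
  obtain hK : (10 : ℝ) ≤ k.K := by exact_mod_cast h.K10
  have hg := h.g10
  obtain e : 10 ^ 8 * (k.K : ℝ) / k.θ0 = 10 ^ 20 * (k.K : ℝ) ^ 3 * k.g := by
    unfold EK.θ0; field_simp
  have h1 := k.J0_ge
  rw [e] at h1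
  obtain h2 : (1 : ℝ) ≤ (k.K : ℝ) ^ 3 := one_le_pow₀ (by linarith only [hK])
  obtain h3 : 12 * k.g ≤ k.J0 := by nlinarith only [hg, h1, h2]
  obtain h4 : ((6 * ⌈k.g⌉₊ : ℕ) : ℝ) ≤ k.J0 := by
    obtain this := Nat.ceil_lt_add_one (a := k.g) (by linarith only [hg])
    push_cast; linarith only [hg, h3, this]
  obtain h5 : 6 * ⌈k.g⌉₊ ≤ k.J0 := by exact_mod_cast h4
  obtain h6 : k.g ≤ 2 ^ ⌈k.g⌉₊ := by
    obtain a : ((⌈k.g⌉₊ : ℕ) : ℝ) ≤ ((2 ^ ⌈k.g⌉₊ : ℕ) : ℝ) := by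
      exact_mod_cast (Nat.lt_two_pow_self (n := ⌈k.g⌉₊)).le
    push_cast at a
    exact (Nat.le_ceil _).trans a
  calc k.g ^ 6 ≤ (2 ^ ⌈k.g⌉₊) ^ 6 := pow_le_pow_left₀ (by linarith only [hg]) h6 6
    _ = 2 ^ (6 * ⌈k.g⌉₊) := by rw [← pow_mul, mul_comm]
    _ ≤ _ := pow_le_pow_right₀ (by norm_num) h5

theorem EK.θH (k : EK) (h : k.OK) : 10 ^ 20 * (k.K : ℝ) ^ 2 * k.g ^ 10 * k.θ ≤ 1 := by
  obtain hK : (1 : ℝ) ≤ k.K := by have := h.K10; exact_mod_cast (by omega : 1 ≤ k.K)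
  obtain hg : 0 ≤ k.g := by linarith only [h.g10]
  have h0 := h.θpos
  have h6 := k.g6 h
  calc _ = k.θ * (10 ^ 20 * (k.K : ℝ) ^ 2 * k.g ^ 4 * k.g ^ 6) := by ring
    _ ≤ k.θ * (10 ^ 40 * (k.K : ℝ) ^ 6 * k.g ^ 4 * 2 ^ k.J0) := by gcongr <;> norm_num
    _ ≤ 1 := h.θsm

theorem fa_key {K g θ : ℝ} (hK : 1 ≤ K) (hg : 1 ≤ g) (h0 : 0 < θ)
    (H : 10 ^ 20 * K ^ 2 * g ^ 10 * θ ≤ 1) (A : ℝ) (a b : ℕ) (h1 : 0 ≤ A) (h2 : A ≤ 10 ^ 20)
    (h3 : a ≤ 2) (h4 : b ≤ 10) : A * K ^ a * g ^ b * θ ≤ 1 := le_trans (by gcongr) H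

theorem Sk.fa (k : EK) (S : Sk) : S.FA_s k := by
  intro h ok jp
  obtain hK : (1 : ℝ) ≤ k.K := by have := h.K10; exact_mod_cast (by omega : 1 ≤ k.K)
  have hg := h.g10
  obtain g1 : 1 ≤ k.g := by linarith only [hg]
  have h0 := h.θpos
  have H := k.θH h
  have key := fa_key hK g1 h0 H
  obtain θ1 : k.θ ≤ 1 / 10 := by
    obtain this := key 10 0 0 (by norm_num) (by norm_num) (by norm_num) (by norm_num)
    linarith only [this]
  obtain θ2 : k.θ ^ 2 ≤ 1 / 100 := by nlinarith only [θ1, h0]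
  obtain θ0 : 0 < k.θ ^ 2 := by positivity
  obtain Λ1 : 1 ≤ k.θ ^ 2 * k.Λ := by
    have := h.Λbig
    rw [div_le_iff₀ θ0] at this
    linarith only [this]
  obtain Λ0 : 0 < k.Λ := lt_of_lt_of_le (by positivity) h.Λbig
  obtain Λ10 : 100 ≤ k.Λ := by nlinarith only [Λ1, θ2, Λ0]
  obtain mono : ∀ l m, l ≤ m → m ≤ S.N → S.W l ≤ S.W m := by
    intro l m hl
    induction m, hl using Nat.le_induction with
    | base => intro _; exact le_rfl
    | succ m _ ih => intro hm; exact (ih (by omega)).trans (ok.mono m (by omega))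
  have W0 : ∀ l ≤ S.N, 0 ≤ S.W l := fun l hl => ok.W0.trans (mono 0 l (Nat.zero_le _) hl)
  obtain σΛ : ∀ l < S.N, k.Λ ≤ S.σ k l := fun l hl => by
    have := mul_nonneg θ0.le (W0 (l + 1) hl)
    unfold Sk.σ EK.sl; linarith only [this]
  obtain slm : ∀ a b : ℝ, a ≤ b → k.sl a ≤ k.sl b := fun a b hab => by
    have := mul_le_mul_of_nonneg_left hab θ0.le
    unfold EK.sl; linarith only [this]
  obtain Wup : ∀ l < S.N, S.W (l + 1) ≤ 2 * (k.g + 1) * S.W l + 6 * k.Λ := fun l hl => by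
    have a1 := ok.dn l hl
    have a2 := ok.hi l hl.le
    have a3 := jp l hl
    have a4 := mul_le_mul_of_nonneg_right θ2 (W0 (l + 1) hl)
    have a5 := W0 (l + 1) hl
    unfold Sk.σ EK.sl at a1
    linarith only [a1, a2, a3, a4, a5]
  obtain σhi : ∀ l < S.N, S.σ k l ≤ k.k1 * k.sl (S.W l) := fun l hl => by
    have a1 := mul_le_mul_of_nonneg_left (Wup l hl) θ0.le
    have a2 := mul_nonneg θ0.le (W0 l hl.le)
    have a3 := mul_le_mul_of_nonneg_right θ2 Λ0.le
    have a4 := mul_le_mul_of_nonneg_right hg a2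
    have a5 := mul_le_mul_of_nonneg_right hg Λ0.le
    unfold Sk.σ EK.sl EK.k1
    linarith only [θ2, θ0, Λ10, a1, a2, a3, a4, a5]
  obtain σD : ∀ l, S.Maj l → S.σ k l ≤ 12 * k.g ^ 2 * k.θ ^ 2 * S.W l := fun l hl => by
    have a0 := ok.maj l hl.1 hl.2
    have a1 := Wup l hl.1
    have a2 := mul_le_mul_of_nonneg_right θ2 (W0 (l + 1) hl.1)
    have a5 := W0 (l + 1) hl.1
    obtain a3 : S.W (l + 1) ≤ 4 * (k.g + 1) * S.W l := by linarith only [θ2, θ0, Λ10, a0, a1, a2]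
    have a4 := mul_le_mul_of_nonneg_left a3 θ0.le
    have a6 := mul_nonneg θ0.le (W0 l hl.1.le)
    obtain a7 : 8 * (k.g + 1) ≤ 12 * k.g ^ 2 := by nlinarith only [hg, θ2, θ0]
    have a8 := mul_le_mul_of_nonneg_right a7 a6
    unfold Sk.σ EK.sl
    linarith only [a0, a4, a8]
  obtain k1 : 1 ≤ k.k1 := by unfold EK.k1; linarith only [hg, θ2, θ0]
  obtain ml : ∀ y l, y < l → l < S.N → ∀ g a : ℝ, 0 ≤ g → g ≤ 10 ^ 4 * k.g ^ 7 → 1 ≤ 10 * k.K * a →
      a ≤ 1 → g * S.σ k l - a * S.ω l ≤ (g + 2) * k.k1 * S.σ k y - a * (S.ω y + S.R y) := by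
    intro y l hy hl g a g0 gle a1 a2
    obtain a0 : 0 < a := by
      by_contra hn
      obtain this : 10 * (k.K : ℝ) * a ≤ 0 := mul_nonpos_of_nonneg_of_nonpos (by positivity) (not_lt.1 hn)
      linarith only [θ2, θ0, a1, this]
    have b1 := mul_le_mul_of_nonneg_left (σhi l hl) g0
    have b2 := mul_le_mul_of_nonneg_left (ok.lo l hl.le) a0.le
    obtain b3 := mul_le_mul_of_nonneg_left (ok.up y (by omega)) a0.le
    have b4 : 0 ≤ S.W l - S.W (y + 1) := sub_nonneg.2 (mono (y + 1) l hy hl.le)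
    obtain b5 := σΛ y (by omega)
    obtain b6 : (g * k.k1 + a) * k.θ ^ 2 ≤ a := by
      obtain c1 := key (10 ^ 6) 1 8 (by norm_num) (by norm_num) (by norm_num) (by norm_num)
      have c2 : (1 : ℝ) ≤ k.g ^ 8 := one_le_pow₀ g1
      obtain c3 : g * k.k1 ≤ 10 ^ 4 * k.g ^ 7 * (3 * k.g) := by unfold EK.k1; gcongr
      obtain c4 : g * k.k1 + a ≤ 10 ^ 5 * k.g ^ 8 := by linarith only [θ2, θ0, a2, c2, c3]
      calc (g * k.k1 + a) * k.θ ^ 2 ≤ 10 ^ 5 * k.g ^ 8 * k.θ ^ 2 * 1 := by rw [mul_one]; (clear * - c4 h0; gcongr)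
        _ ≤ 10 ^ 5 * k.g ^ 8 * k.θ ^ 2 * (10 * k.K * a) := by gcongr
        _ = 10 ^ 6 * (k.K : ℝ) ^ 1 * k.g ^ 8 * k.θ * k.θ * a := by ring
        _ ≤ 1 * 1 * a := by gcongr; linarith only [θ1, θ2, θ0]
        _ = a := by ring
    have b7 := mul_le_mul_of_nonneg_right b6 b4
    obtain b8 : k.sl (S.W l) = S.σ k y + k.θ ^ 2 * (S.W l - S.W (y + 1)) := by
      unfold Sk.σ EK.sl; ring
    obtain b9 : 0 ≤ S.σ k y := by linarith only [θ2, θ0, Λ10, b5]
    have c1 := mul_le_mul_of_nonneg_left b5 a0.le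
    have c2 := mul_le_mul_of_nonneg_right (a2.trans k1) b9
    rw [b8] at b1 b2
    linarith only [b1, b2, b3, b7, c1, c2]
  refine ⟨h.K10, hg, h0, H, Λ1, Λ10, ok, W0, mono, σΛ,
    fun l hl => slm _ _ (ok.mono l hl), fun l m hl hm => slm _ _ (mono _ _ (by omega) hm),
    σhi, σD, ?_, ml, ?_⟩
  · intro l hl hs
    have a1 := σD l hl
    have a2 : S.W l ≤ 3 * 10 ^ 5 * k.K * S.R l := hs
    obtain a3 := key (36 * 10 ^ 15) 2 10 (by norm_num) (by norm_num) (by norm_num) (by norm_num)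
    have a4 := hl.2
    calc 10 ^ 10 * k.K * k.g ^ 8 * S.σ k l
        ≤ 10 ^ 10 * k.K * k.g ^ 8 * (12 * k.g ^ 2 * k.θ ^ 2 * (3 * 10 ^ 5 * k.K * S.R l)) := by
          gcongr
          exact a1.trans (by (clear * - a2 hg h0; gcongr))
      _ = 36 * 10 ^ 15 * (k.K : ℝ) ^ 2 * k.g ^ 10 * k.θ * (k.θ * S.R l) := by ring
      _ ≤ 1 * (k.θ * S.R l) := by (clear * - a3 h0 a4; gcongr)
      _ = _ := one_mul _
  · intro y l hy hl g a g0 gle a1 a2
    obtain a0 : 0 ≤ a := by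
      by_contra hn
      obtain this : 10 * (k.K : ℝ) * a ≤ 0 :=
        mul_nonpos_of_nonneg_of_nonpos (by positivity) (not_le.1 hn).le
      linarith only [θ2, θ0, a1, this]
    rcases hy.eq_or_lt with rfl | hy
    · obtain b9 : 0 ≤ S.σ k y := by linarith only [θ2, θ0, Λ10, σΛ y hl]
      obtain b1 : g ≤ (g + 2) * k.k1 := by nlinarith only [θ1, k1, θ2, h0, θ0, g0]
      have := mul_le_mul_of_nonneg_right b1 b9
      linarith only [this]
    · have b1 := ml y l hy hl g a g0 gle a1 a2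
      have b2 := mul_nonneg a0 (ok.R0 y)
      linarith only [b1, b2]

end Pool.Agent.MP_9cbfe4_an.E

end

/-! ### Part EAbase -/

section

/-! Row EAbase: the base element of the chain. -/

namespace Pool.Agent.MP_9cbfe4_an.E

open Finset
open scoped Classical

theorem Sk.base (k : Par) (S : Sk) (La : ℕ → ℕ → ℝ) : S.BASE_s k La := by
  intro hF hN A n d E R' gE hM hTF
  obtain ⟨⟨hA1, hA2⟩, hAM, hMn, hnN, hW, -, -⟩ := hM.tm
  have ho := hN.ok
  obtain hK : (10 : ℝ) ≤ k.K := by exact_mod_cast ho.K10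
  have hg := ho.g10
  have hθ := ho.θpos
  obtain hu : (10 : ℝ) ^ 12 ≤ k.u := le_trans (by nlinarith only [hK]) ho.big
  obtain hς : 40 * k.u ≤ k.ς := by unfold Par.ς; nlinarith only [hK, hu]
  obtain hgς : 10 * k.ς ≤ k.g * k.ς := by nlinarith only [hg, hu, hς]
  obtain hs : 10 ^ 11 * (k.K * (k.g * k.ς)) ≤ k.ρ := by have := ho.small; linarith only [this]
  obtain hKς : 10 * (k.g * k.ς) ≤ k.K * (k.g * k.ς) := by nlinarith only [hK, hu, hς, hgς]
  -- slacks below `M`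
  obtain hWl : ∀ l ≤ d.M, S.W l ≤ k.Wc := fun l hl => (hF.mono l d.M hl (by omega)).trans hW
  obtain hσ : ∀ l ≤ A, 0 ≤ S.σ k.toEK l ∧ S.σ k.toEK l ≤ k.φ := fun l hl => by
    refine ⟨le_trans (by linarith only [hF.Λ10]) (hF.σΛ l (by omega)), ?_⟩
    have := mul_le_mul_of_nonneg_left (hWl (l + 1) (by omega)) (sq_nonneg k.θ)
    unfold Sk.σ Par.φ EK.sl; linarith only [this]
  have hφ : 0 ≤ k.φ := (hσ A le_rfl).1.trans (hσ A le_rfl).2
  obtain hg1 : (1 : ℝ) ≤ k.g := by linarith only [hg]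
  obtain hg6 : 10 ^ 6 * (k.g ^ 6 * k.φ) ≤ k.u := by
    have := mul_le_mul_of_nonneg_right (pow_le_pow_right₀ hg1 (by norm_num : 6 ≤ 9)) hφ
    have := hN.fine
    linarith
  obtain hg1' : 10 ^ 6 * (k.g * k.φ) ≤ k.u := by
    have := mul_le_mul_of_nonneg_right (le_self_pow₀ hg1 (by norm_num : 6 ≠ 0)) hφ
    linarith only [hg6, this]
  obtain hk1 : ∀ l ≤ A, (0 + 2) * k.k1 * S.σ k.toEK l ≤ k.u / 1000 := fun l hl => by
    have := mul_le_mul_of_nonneg_left (hσ l hl).2 (by linarith only [hg] : 0 ≤ k.g)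
    unfold EK.k1; linarith only [hu, hg1', this]
  obtain hg3 : ∀ l ≤ A, k.g3 * S.σ k.toEK l ≤ k.u / 1000 := fun l hl => by
    have := mul_le_mul_of_nonneg_left (hσ l hl).2 (by positivity : 0 ≤ k.g ^ 6)
    unfold EK.g3; linarith only [hu, hg6, this]
  obtain h7 : (0 : ℝ) ≤ 10 ^ 4 * k.g ^ 7 := by positivity
  obtain ha : (1 : ℝ) ≤ 10 * k.K * 1 := by linarith only [hK]
  -- the first deep index
  obtain hex : ∃ x, 2000 * k.g * k.ς ≤ S.R x := ⟨A, by linarith only [hA1, hu, hς, hgς, hs, hKς]⟩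
  obtain ⟨x, hx, hx'⟩ : ∃ x, 2000 * k.g * k.ς ≤ S.R x ∧ ∀ l < x, S.R l < 2000 * k.g * k.ς :=
    ⟨Nat.find hex, Nat.find_spec hex, fun l hl => not_le.1 (Nat.find_min hex hl)⟩
  obtain hxA : x ≤ A := not_lt.1 fun h => by have := hx' A h; linarith only [hA1, hu, hς, hgς, hs, hKς, this]
  obtain hrc : S.rc k.toEK x ≤ 2000 * k.g * k.ς :=
    (Finset.fold_max_le _).2 ⟨by linarith only [hu, hς, hgς], fun l hl =>
      (hx' l (Finset.mem_range.1 (Finset.mem_filter.1 hl).1)).le⟩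
  obtain hUp : -(k.ρ / 500 + 100 * k.u) ≤ 6 * S.Up k.toEK x - S.ω x := by
    have h1 := mul_le_mul_of_nonneg_left hrc (by linarith only [hK] : (0 : ℝ) ≤ k.K)
    have h2 := mul_le_mul_of_nonneg_left (hWl x (by omega)) hθ.le
    have h3 := ho.th
    unfold Par.Wc at h2
    unfold Sk.Up EK.C5
    linarith only [hs, h1, h2, h3]
  have hne : (Icc x A).Nonempty := ⟨x, Finset.mem_Icc.2 ⟨le_rfl, hxA⟩⟩
  obtain key : ∃ l ∈ Icc x A, -(k.ρ / 100) ≤ S.V 6 l := by
    by_cases h0 : 0 ≤ S.Up k.toEK x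
    swap
    · refine ⟨x, Finset.mem_Icc.2 ⟨le_rfl, hxA⟩, ?_⟩
      have := hF.ok.R0 x
      unfold Sk.V; linarith only [hu, hς, hgς, hs, hKς, hx, hUp, h0]
    obtain h1 : ¬ S.Flat k.toEK La 0 3 x (S.Up k.toEK x) := fun h =>
      hTF x (by omega) ⟨⟨by omega, by linarith only [hu, hς, hgς, hx]⟩, h0, h⟩
    unfold Sk.Flat at h1
    push Not at h1
    obtain ⟨j, hj1, hj3, hj⟩ := h1
    obtain ⟨l, hl, hmax⟩ := Finset.exists_max_image (Icc x A)
      (fun l => k.g3 * S.σ k.toEK l + S.V (2 * j - 1) l) hne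
    have hv := hM.view x (by omega) j hj1 hj3 _
      (fun l' h1 _ h3 => hmax l' (Finset.mem_Icc.2 ⟨h1, not_lt.1 fun h => h3 A hxA h hM.cutA⟩))
      fun h => (h A hxA hAM hM.cutA).elim
    refine ⟨l, hl, ?_⟩
    obtain ⟨hl1, hl2⟩ := Finset.mem_Icc.1 hl
    obtain h2 : (2 : ℝ) ≤ Real.exp 1 := by have := Real.add_one_le_exp 1; linarith only [this]
    have h3 := (hj.trans_le hv).trans_le (mul_le_mul_of_nonneg_right h2 (Real.exp_pos _).le)
    rw [← Real.exp_add, Real.exp_lt_exp] at h3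
    have h4 := hF.ml0 x l hl1 (by omega) 0 1 le_rfl h7 ha le_rfl
    have h5 := hk1 x hxA
    have h6 := hg3 l hl2
    unfold Sk.V at h3 ⊢
    interval_cases j <;> push_cast at h3 <;> linarith only [hu, hς, hgς, hs, hKς, hUp, h4, h5, h6, h3]
  obtain ⟨l1, hl1, hV⟩ := key
  obtain ⟨l0, hl0, hmax⟩ := Finset.exists_max_image (Icc x A) (S.V 6) hne
  obtain ⟨h1, h2⟩ := Finset.mem_Icc.1 hl0
  obtain hcmp : ∀ l, x ≤ l → l < l0 → S.R l ≤ S.R l0 ∨ S.R l ≤ k.u := fun l hl hl' => by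
    have h3 := hmax l (Finset.mem_Icc.2 ⟨hl, by omega⟩)
    have h4 := hF.ml l l0 hl' (by omega) 0 1 le_rfl h7 ha le_rfl
    have h5 := hk1 l (by omega)
    unfold Sk.V at h3
    by_contra hc
    push Not at hc
    linarith only [hu, h3, h4, h5, hc.1, hc.2]
  obtain hR : 2000 * k.g * k.ς ≤ S.R l0 := by
    rcases h1.eq_or_lt with rfl | h
    · exact hx
    · rcases hcmp x le_rfl h with h | h <;> linarith only [hx, h, hu, hς, hgς]
  refine ⟨l0, A, h2, hM.cutA, ⟨by omega, by linarith only [hu, hς, hgς, hR]⟩, fun l hl => ?_, fun l hl => ?_, hR, ?_⟩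
  · rcases lt_or_ge l x with h | h
    · exact (hx' l h).le.trans hR
    · rcases hcmp l h hl with h | h <;> linarith only [h, hu, hς, hgς, hR]
  · rcases hl.eq_or_lt with rfl | h
    · exact hA2
    · exact (hM.recA.2 l h).trans hA2
  · have := hV.trans (hmax l1 hl1)
    unfold Sk.V at this; linarith only [this]

end Pool.Agent.MP_9cbfe4_an.E

end

/-! ### Part T3a -/

section

/-! Row T3, part a: constants and the deep-point estimate along a curve. -/

namespace Pool.Agent.MP_9cbfe4_an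

open Finset Filter Topology MeasureTheory Metric
open scoped ENNReal

noncomputable section
namespace T3p

/-- constants used in this row -/
structure Num (c : Cs) : Prop where
  L0 : 0 < c.L
  lam : 100 ≤ c.lam
  k0 : 1 / 16 ≤ c.k0
  k1 : c.k0 < 1 / 2
  chb : c.chK ≤ c.bl
  bl : 4 * c.lam ≤ c.bl
  a0 : 0 < c.a
  e0 : 0 < c.e3
  e1 : c.e3 ≤ 1 / 100
  CG : 1 ≤ c.CG
  cc : 10000 ≤ c.cc
  ccl : c.cc ≤ c.lam / 20
  del0 : 0 < c.del
  del1 : c.del ≤ 1 / 10000
  p1 : 4000 * c.lam ^ 4 ≤ Real.exp (c.cc / 8)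
  p2 : 10 * c.lam ^ 4 ≤ Real.exp (c.lam / 8)

lemma chK_bd {c : Cs} (h0 : 1 / 16 ≤ c.k0) (h1 : c.k0 < 1 / 2) : 0 < c.chK ∧ c.chK ≤ 15 := by
  obtain hk : 0 < c.k0 := by linarith only [h0, h1]
  obtain a1 : 2 < 1 / c.k0 := by rw [lt_div_iff₀ hk]; linarith only [h1]
  obtain a2 : 1 / c.k0 ≤ 16 := by rw [div_le_iff₀ hk]; linarith only [h0]
  refine ⟨Real.log_pos (by linarith only [h1, hk, a1]), ?_⟩
  obtain this := Real.log_le_sub_one_of_pos (show 0 < 1 / c.k0 by positivity)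
  unfold Cs.chK; linarith only [a2, this]

lemma num : Hier Num := by
  obtain hε := (Hier.ε_le_pow (fun _ => 1) 0 (by norm_num) (fun _ _ _ _ _ _ _ _ => rfl)
    (.of_all fun _ => one_pos)).mono (Q := fun c => 0 < c.ε ∧ c.ε ≤ 1) fun c h => by simpa using h
  have hC0 := Hier.C0_ge fun _ _ _ _ => 1
  have hC1 := Hier.C1_ge fun _ _ _ _ _ => 1
  obtain hd := Hier.d1_le (fun c => 1 / (30000 * (1 + 6 * c.C0 * c.C1))) (fun _ _ _ _ _ => rfl)
    ((hC0.and hC1).mono fun c h => by have := h.1; have := h.2; positivity)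
  have h1 := Hier.L_ge (fun _ => 1) fun _ _ => rfl
  have h2 := Hier.lam_ge (fun _ => 100) fun _ _ => rfl
  have h3 := Hier.β_ge (fun _ => 4) fun _ _ _ => rfl
  have h4 := Hier.a_le (fun _ => 1) (fun _ _ _ _ _ _ => rfl) (.of_all fun _ => one_pos)
  obtain h5 := Hier.e3_le (fun _ => 1 / 100) (fun _ _ _ _ _ _ _ _ => rfl)
    (.of_all fun _ => by norm_num)
  have h6 := Hier.lam_ge (fun c => 200000 / c.ε) fun _ _ => rfl
  obtain h7 := Hier.pow_le_exp (fun _ => 4000) (fun c => c.ε / 160) 4 (fun _ _ => rfl)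
    (fun _ _ => rfl) (hε.mono fun c h => by have := h.1; positivity)
  obtain h8 := Hier.pow_le_exp (fun _ => 10) (fun _ => 1 / 8) 4 (fun _ _ => rfl)
    (fun _ _ => rfl) (.of_all fun _ => by norm_num)
  refine (Hier.base.and <| hε.and <| hC0.and <| hC1.and <| hd.and <| h1.and <| h2.and <|
    h3.and <| h4.and <| h5.and <| h6.and <| h7.and h8).mono ?_
  rintro c ⟨⟨k0, k1, -, -, -, CG⟩, ⟨ε0, ε1⟩, C0, C1, ⟨d0, d1⟩, L1, l1, b1, ⟨a0, -⟩, ⟨e0, e1⟩, l2,
    p1, p2⟩
  obtain hb : 4 * c.lam ≤ c.bl := by unfold Cs.bl; nlinarith only [b1, k0, k1, l1]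
  obtain hD : 0 < 1 + 6 * c.C0 * c.C1 := by (clear * - C0 C1; positivity)
  refine ⟨by linarith only [L1, e0, e1], l1, k0, k1, by linarith only [l1, e0, e1, hb, (chK_bd k0 k1).2], hb, a0, e0, e1, CG, ?_, ?_, ?_,
    ?_, ?_, ?_⟩
  · rw [div_le_iff₀ ε0] at l2; unfold Cs.cc; linarith only [l2]
  · unfold Cs.cc; nlinarith only [ε1, k0, k1, l1]
  · unfold Cs.del; (clear * - d0 C0 C1; positivity)
  · rw [le_div_iff₀ (by (clear * - C0 C1; positivity))] at d1; unfold Cs.del; linarith only [d1]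
  · convert p1 using 2; unfold Cs.cc; ring
  · convert p2 using 2; ring

variable {c : Cs}

lemma Num.expL (h : Num c) : Real.exp c.lam = c.L := Real.exp_log h.L0

lemma Num.cw (h : Num c) : 0 < c.cw ∧ c.cw ≤ 1 / 10 ^ 8 ∧ c.cw * c.lam ^ 4 = 1 := by
  obtain h0 : 0 < c.lam := by linarith only [h.lam]
  refine ⟨by unfold Cs.cw; positivity, ?_, by unfold Cs.cw; field_simp⟩
  refine one_div_le_one_div_of_le (by norm_num) ?_
  calc (10 : ℝ) ^ 8 = 100 ^ 4 := by norm_num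
    _ ≤ c.lam ^ 4 := by gcongr; exact h.lam

lemma exp_neg_le {x : ℝ} (hx : 0 < x) : Real.exp (-x) ≤ 1 / x := by
  rw [Real.exp_neg, ← one_div]
  exact one_div_le_one_div_of_le hx (by linarith only [Real.add_one_le_exp x])

/-- a deep step starts away from the zones -/
lemma far_of_wit (h : Num c) (hB : B1_s c) {Ex} {S : Sq} (hS : S.OK c) {ξ n r}
    (ho : S.Out c ξ n) (hw : S.Wit c Ex ξ n r) (hr : 1 ≤ r) : 5 / 100 ≤ dP (S.X n) := by
  rcases hw with h0 | ⟨h1, -⟩ | ⟨Ls, J, rJ, hb, -⟩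
  · linarith only [hr, h0]
  · by_contra hc
    push Not at hc
    obtain ⟨n0, hs, hne, hsl⟩ := ho
    have ha := hS.a_Z n n0 hc
    obtain hb := hS.b_hi n (2 / 100) n0 (by norm_num)
    have hb0 := hS.b_lo n n0
    have hL := h.L0
    have hl := h.lam
    obtain hL1 : 100 ≤ c.L := by rw [← h.expL]; linarith only [hl, Real.add_one_le_exp c.lam]
    obtain hb1 : S.b n ≤ c.L := by
      refine hb.trans ?_
      unfold Sq.bb; split_ifs
      · nlinarith only [hL1, hL, h.k1]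
      · obtain this : Real.exp (-c.bl) ≤ 1 := Real.exp_le_one_iff.2 (by linarith only [hl, h.bl])
        linarith only [hL1, this]
    obtain hbp : 0 ≤ S.b n := le_trans (by positivity) hb0
    obtain e1 : Real.exp (-c.lam / 5) ≤ 1 / 20 := by
      obtain this := exp_neg_le (show (0 : ℝ) < 20 by norm_num)
      exact (Real.exp_le_exp.2 (by linarith only [hl])).trans this
    obtain e2 : Real.exp (-r) ≤ 1 / 2 := by
      obtain h2 : Real.exp (-r) ≤ Real.exp (-1) := Real.exp_le_exp.2 (by linarith only [hr])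
      have := Real.exp_neg_one_lt_d9
      linarith only [h2, this]
    have hx : 0 < |ξ n| := abs_pos.2 hne
    rw [S.rho_one, abs_div, div_le_iff₀ hx, hs n le_rfl] at h1
    obtain h3 : |S.a n * ξ n| ≤ |S.a n * ξ n + S.b n * ξ (n - 1)| + |S.b n * ξ (n - 1)| := by
      have := abs_sub (S.a n * ξ n + S.b n * ξ (n - 1)) (S.b n * ξ (n - 1))
      simpa using this
    rw [abs_mul, abs_mul, abs_of_nonneg hbp] at h3
    obtain h4 : S.b n * |ξ (n - 1)| ≤ c.L * (1 / 20 * |ξ n|) :=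
      mul_le_mul hb1 (hsl.trans (by (clear * - e1 hne; gcongr))) (abs_nonneg _) hL.le
    obtain h5 : c.L * Real.exp (-r) * |ξ n| ≤ c.L * (1 / 2) * |ξ n| := by gcongr
    obtain h6 : 9 / 10 * c.L * |ξ n| ≤ |S.a n| * |ξ n| := by gcongr
    linarith only [h1, h3, h4, h5, h6, mul_pos hL hx]
  · exact ((hB Ex S hS).2.1 ξ n Ls J rJ ho hb.1 hb.2.1).kz.2.1

lemma Num.ebl (h : Num c) : Real.exp (-c.bl / 4) * 2 ≤ 1 / c.lam := by
  have hl := h.lam
  obtain h1 : Real.exp (-c.bl / 4) ≤ Real.exp (-c.lam) := Real.exp_le_exp.2 (by linarith only [h.bl])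
  obtain h2 : Real.exp (-c.lam) * 2 ≤ 1 / c.lam := by
    rw [Real.exp_neg, le_div_iff₀ (by linarith only [hl]), mul_assoc, inv_mul_le_iff₀ (Real.exp_pos _)]
    obtain this := Real.quadratic_le_exp_of_nonneg (show 0 ≤ c.lam by linarith only [hl])
    nlinarith only [hl, this]
  linarith only [h1, h2]

lemma Num.L1 (h : Num c) : 100 ≤ c.L := by
  rw [← h.expL]; linarith only [Real.add_one_le_exp c.lam, h.lam]

/-- two points of the curve that are both deep at time `n` are close -/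
lemma deep (h : Num c) (hO : SOK_s c) (hB : B1_s c) (hW : WIN_s c) (hF : FD_s c) (hT : T1_s c)
    {Ex M t s x0 φ} (hM : M.OK c) (ht : TI t) (hA : AdmP c Ex M t s x0 φ) {u u' : ℝ}
    (hu : u ∈ Set.Icc (0 : ℝ) 100) (hu' : u' ∈ Set.Icc (0 : ℝ) 100) {L L' n r}
    (hR : (M.O t (φ u)).Run c Ex (M.tg t (φ u) s) s (fun _ _ _ => True) L n)
    (hR' : (M.O t (φ u')).Run c Ex (M.tg t (φ u') s) s (fun _ _ _ => True) L' n)
    (h1 : |u' - u| * (M.O t (φ u)).AA c (M.tg t (φ u) s) s n ≤ c.cw)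
    (h2 : |u' - u| * |M.tg t (φ u) s n| ≤ c.cw) (hr : 1 ≤ r)
    (hw : (M.O t (φ u)).Wit c Ex (M.tg t (φ u) s) n r)
    (hw' : (M.O t (φ u')).Wit c Ex (M.tg t (φ u') s) n r) :
    |u' - u| * |M.tg t (φ u) s n| ≤ 102 * Real.exp (-r) := by
  obtain ⟨hsh, hZ, -, -⟩ := hW Ex M t s x0 φ hM ht hA u hu u' hu' L n hR h1
  obtain ⟨hv, hX, hSt, hd⟩ := hA.mem u hu
  obtain ⟨hv', hX', hSt', hd'⟩ := hA.mem u' hu'
  obtain ⟨cu1, cu2⟩ := hA.curv u hu u' hu'
  have hS := ((hO M hM t ht).2.1 _ hv).2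
  have hS' := ((hO M hM t ht).2.1 _ hv').2
  have ta := hA.tame u hu L n 0 hR
  have ta' := hA.tame u' hu' L' n 0 hR'
  have hI := ((hB Ex _ hS).1 _ s _ L n hSt hR).2
  have hT' := hT Ex M t t hM ht ht _ hv _ hv' (M.tg t (φ u) s) (M.tg t (φ u') s) n n r
  set S := M.O t (φ u)
  set S' := M.O t (φ u')
  set ξ := M.tg t (φ u) s
  set ξ' := M.tg t (φ u') s
  set η := |u' - u| with hη
  have hη0 : 0 ≤ η := abs_nonneg _
  have sn : s ≤ n := hI.le
  have n0 : 0 ≤ n := hA.s0.trans sn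
  have ho : S.Out c ξ n := ⟨n0, fun j hj => hSt.2.1 j (sn.trans hj), ta.1, ta.2.1⟩
  have ho' : S'.Out c ξ' n := ⟨n0, fun j hj => hSt'.2.1 j (sn.trans hj), ta'.1, ta'.2.1⟩
  have far := far_of_wit h hB hS ho hw hr
  set Z := S'.X n - S.X n with hZd
  have hx : 0 < |ξ n| := abs_pos.2 ta.1
  obtain z1 : |Z| ≤ 101 / 100 * (η * |ξ n|) := by
    have := abs_add_le (Z - (u' - u) * ξ n) ((u' - u) * ξ n)
    rw [sub_add_cancel, abs_mul] at this
    linarith only [hZ, this]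
  obtain z2 : 99 / 100 * (η * |ξ n|) ≤ |Z| := by
    have := abs_sub Z (Z - (u' - u) * ξ n)
    rw [sub_sub_cancel, abs_mul] at this
    linarith only [hZ, this]
  obtain ⟨cw0, cw1, -⟩ := h.cw
  have hl := h.lam
  have hL := h.L1
  have eb := h.ebl
  obtain bs : ∀ {T : Sq}, T.OK c → 45 / 1000 ≤ dP (T.X (s - 1)) →
      0 ≤ T.b s ∧ T.b s ≤ Real.exp (-c.bl) := fun {T} hT hd => by
    refine ⟨le_trans (by positivity) (hT.b_lo s hA.s0), ?_⟩
    obtain this := hT.b_hi s (2 / 100) hA.s0 (by norm_num)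
    rwa [Sq.bb, if_neg (fun hh => by linarith only [cw0, cw1, hd, hh.2])] at this
  obtain ee : Real.exp (-c.bl) * Real.exp (3 * c.bl / 4) = Real.exp (-c.bl / 4) := by
    rw [← Real.exp_add]; congr 1; ring
  have ep := Real.exp_pos (-c.bl / 4)
  obtain key : S.b n * |S'.X (n - 1) - S.X (n - 1) - ξ (n - 1) / ξ n * Z| ≤ c.L * Z ^ 2 / c.lam ∧
      S.b n * |ξ' (n - 1) / ξ' n - ξ (n - 1) / ξ n| ≤ c.L * |Z| / c.lam := by
    rcases sn.eq_or_lt with rfl | sn'
    · obtain zz : Z = u' - u := by rw [hZd, hX, hX']; ring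
      obtain ⟨b0, b1⟩ := bs hS hd
      rw [hSt.2.2.1, hSt'.2.2.1, div_one, div_one, zz, mul_div_right_comm, mul_div_right_comm]
      obtain q : Real.exp (-c.bl / 4) ≤ c.L / c.lam := by
        obtain this : 1 / c.lam ≤ c.L / c.lam := by gcongr; linarith only [cw0, cw1, hL]
        linarith only [eb, ep, this]
      constructor
      · calc _ ≤ Real.exp (-c.bl) * (Real.exp (3 * c.bl / 4) * (u' - u) ^ 2) := by (clear * - b1 cu1; gcongr)
          _ ≤ _ := by rw [← mul_assoc, ee]; (clear * - q; gcongr)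
      · calc _ ≤ Real.exp (-c.bl) * (Real.exp (3 * c.bl / 4) * η) := by (clear * - b1 cu2; gcongr)
          _ ≤ _ := by rw [← mul_assoc, ee]; (clear * - q; gcongr)
    · obtain hk : S.kk n = 0 := S.kk_eq_zero.2 (Or.inl (by linarith only [far, cw0, cw1]))
      have hch := chK_bd h.k0 h.k1
      obtain hDec : S.Dec c (2 / 100) (1000 * c.lam) (S.wh c ξ s) s n := by
        intro i i1 i2
        obtain ⟨a1, a2⟩ := hI.i2 i i1 i2
        obtain c0 : 0 ≤ S.chi c i n := le_trans (by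
          obtain this : (0 : ℝ) ≤ ((n - i : ℤ) : ℝ) := by exact_mod_cast (by omega : 0 ≤ n - i)
          have := hch.1
          (clear * - this i2; positivity)) (S.chi_ge c h.chb i2.le)
        obtain f2 : S.ff c s i ≤ 1000 * c.lam := by
          unfold Sq.ff; linarith only [cw0, cw1, hl, Real.exp_pos (-S.chi c s i / 24)]
        have a0 := h.a0
        rw [hI.whm]
        constructor
        · refine a1.trans ?_
          gcongr
          linarith only [a0]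
        · refine a2.trans ?_
          gcongr
          linarith only [a0]
      obtain hMaj := (Sq.cert_wh hS h.k0 h.k1 (by linarith only [cw0, cw1, hl]) h.chb hSt sn).2.1
      obtain ⟨f1, f2⟩ := hF M t t S S' _ _ _ _ η s n hsh sn' hk hDec ξ hMaj
        (by rw [hI.whm]; linarith only [hx])
      have f1 := f1 ⟨u' - u, fun _ => rfl⟩
      obtain ws : 1 ≤ S.wh c ξ s s := by
        obtain this := S.abs_le_wh c ξ (show s - 1 ≤ s by omega)
        rwa [hSt.2.2.1, abs_one] at this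
      obtain f2 := f2 ξ' (fun j j1 _ => hSt'.2.1 j j1) (by rw [hSt.2.2.1, hSt'.2.2.1]) (by
        obtain ⟨m, hp, hm, -⟩ := hsh.pair
        obtain ty := (hM.tay t t _ _ _ _ m ht ht (hsh.orb.box s (by omega))
          (hsh.orb.box (s - 1) le_rfl) (hsh.orb'.box s (by omega)) (hsh.orb'.box (s - 1) le_rfl)
          hp).2.2
        rw [← hsh.orb.hb s le_rfl, ← hsh.orb'.hb s le_rfl, sub_self, abs_zero, mul_zero,
          add_zero, hX, hX', show x0 + u' - (x0 + u) = u' - u by ring] at ty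
        have CG := h.CG
        obtain CL : 100 ≤ c.CG * c.L := by nlinarith only [hL, CG, cw0, cw1]
        obtain mle : m ≤ c.CG * c.L := by
          rcases hp.2 with ⟨rfl, -⟩ | ⟨rfl, -⟩
          · obtain this : c.dl ≤ 1 := Real.exp_le_one_iff.2 (by linarith only [cw0, cw1, hl, h.bl])
            linarith only [cw0, cw1, CL, this]
          · exact le_rfl
        obtain ⟨b0, b1⟩ := bs hS' hd'
        obtain s1 : |ξ (s - 1)| ≤ 1 := hSt.2.2.2.trans (Real.exp_le_one_iff.2 (by linarith only [cw0, cw1, hl]))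
        obtain q1 : S'.b s * |ξ' (s - 1) - ξ (s - 1)| ≤ η := by
          calc _ ≤ Real.exp (-c.bl) * (Real.exp (3 * c.bl / 4) * η) := by (clear * - b1 cu2; gcongr)
            _ ≤ 1 * η := by
              rw [← mul_assoc, ee]; gcongr
              exact Real.exp_le_one_iff.2 (by linarith only [cw0, cw1, hl, h.bl])
            _ = η := one_mul _
        have q2 : |S'.b s - S.b s| * |ξ (s - 1)| ≤ |S'.b s - S.b s| :=
          mul_le_of_le_one_right (abs_nonneg _) s1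
        have q3 := abs_add_le (S'.b s * (ξ' (s - 1) - ξ (s - 1))) ((S'.b s - S.b s) * ξ (s - 1))
        rw [abs_mul, abs_mul, abs_of_nonneg b0, show S'.b s * (ξ' (s - 1) - ξ (s - 1)) +
          (S'.b s - S.b s) * ξ (s - 1) = S'.b s * ξ' (s - 1) - S.b s * ξ (s - 1) by ring] at q3
        set w := S.wh c ξ s s
        obtain q4 : m * η ≤ c.CG * c.L * η := by (clear * - mle; gcongr)
        have q5 : η ≤ η * w := le_mul_of_one_le_right hη0 ws
        obtain q6 : η * w ≤ η * w ^ 2 := by gcongr; nlinarith only [ws]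
        obtain q7 : c.CG * c.L * η ≤ c.CG * c.L * (η * w ^ 2) := by gcongr; linarith only [q5, q6]
        obtain q8 : c.CG * c.L * (η * w) ≤ c.CG * c.L * (η * w ^ 2) := by (clear * - q6 CG hL; gcongr)
        obtain q9 : η ≤ c.CG * c.L * η := le_mul_of_one_le_left hη0 (by linarith only [cw0, cw1, CL])
        rw [mul_add] at ty
        linarith only [hη0, ty, q1, q2, q3, hm, q4, q7, q8, q9])
      rw [hI.whm] at f1 f2
      rw [sub_self, abs_zero, zero_add] at f1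
      obtain e2 : Real.exp (-c.bl / 2) ≤ Real.exp (-c.bl / 4) :=
        Real.exp_le_exp.2 (by linarith only [cw0, cw1, hl, h.bl])
      obtain y0 : 0 ≤ η * |ξ n| := by (clear * - hx; positivity)
      constructor
      · obtain y1 : (η * |ξ n|) ^ 2 ≤ 2 * Z ^ 2 := by
          rw [← sq_abs Z]; nlinarith only [z1, z2]
        calc _ ≤ Real.exp (-c.bl / 4) * (c.L * (2 * Z ^ 2)) := f1.trans (by (clear * - e2 y1 hL; gcongr))
          _ = Real.exp (-c.bl / 4) * 2 * (c.L * Z ^ 2) := by ring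
          _ ≤ 1 / c.lam * (c.L * Z ^ 2) := by (clear * - eb hL; gcongr)
          _ = _ := by ring
      · obtain y1 : η * |ξ n| ≤ 2 * |Z| := by linarith only [z1, z2]
        calc _ ≤ Real.exp (-c.bl / 4) * c.L * (2 * |Z|) :=
            f2.trans (mul_le_mul (by (clear * - e2 hL; gcongr)) y1 y0 (by positivity))
          _ = Real.exp (-c.bl / 4) * 2 * (c.L * |Z|) := by ring
          _ ≤ 1 / c.lam * (c.L * |Z|) := by (clear * - eb hL; gcongr)
          _ = _ := by ring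
  obtain fin := hT' Z 0 0 ho ho' hr hw hw' rfl (by linarith only [h2, z1, cw0, cw1]) (by simp) le_rfl
    (by rw [add_zero]; exact key.1) (by rw [add_zero]; exact key.2)
    (Or.inr ⟨by rw [zero_mul]; (clear * - hl; positivity), by simp⟩)
  simp only [zero_mul, add_zero, mul_zero, zero_div] at fin
  linarith only [z1, z2, fin, Real.exp_pos (-r)]

end T3p
end
end Pool.Agent.MP_9cbfe4_an

end

/-! ### Part T3 -/

section

/-! Row T3: nested covering along an admissible curve. -/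

namespace Pool.Agent.MP_9cbfe4_an

open Finset Filter Topology MeasureTheory Metric
open scoped ENNReal

noncomputable section
namespace T3p
variable {c : Cs}

lemma ev_cases (h : Num c) (S : Sq) (ξ s n r p) (he : 0 < S.ev c ξ s n r) :
    (S.sg c ξ s n / c.e3 + c.cc ≤ r ∧ c.cc ≤ r ∧ S.ev c ξ s n r = r ∧
      (S.sym c ξ s n r p).1 = ⌈r⌉₊ ∧ ⌈r⌉₊ ≠ 0) ∨
    (-1 ≤ r ∧ dP (S.X n) < 5 / 100 ∧ S.sig c ξ s n ≤ -(1 - 5 * c.e3) * c.lam ∧
      S.ev c ξ s n r = c.lam ∧ (S.sym c ξ s n r p).1 = 0) := by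
  have e0 := h.e0
  have cc := h.cc
  by_cases h1 : S.sg c ξ s n / c.e3 + c.cc ≤ r
  · have h2 : 0 ≤ S.sg c ξ s n / c.e3 := div_nonneg (le_max_right _ _) e0.le
    obtain h3 : c.cc ≤ r := by linarith only [h1, h2]
    refine Or.inl ⟨h1, h3, by rw [Sq.ev, if_pos h1], by simp [Sq.sym, h3], ?_⟩
    exact (Nat.ceil_pos.2 (by linarith only [cc, h1, h2])).ne'
  · rw [Sq.ev, if_neg h1] at he
    split_ifs at he with h2
    · obtain h3 : S.sg c ξ s n = 0 := max_eq_right (by nlinarith only [e0, he, h2.2.2, h.e1, h.lam])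
      rw [h3, zero_div, zero_add] at h1
      refine Or.inr ⟨h2.1, h2.2.1, h2.2.2, ?_, by simp [Sq.sym, h1]⟩
      rw [Sq.ev, h3, zero_div, zero_add, if_neg h1, if_pos h2]
    · exact absurd he (lt_irrefl _)

lemma evs_le (h : Num c) (S : Sq) (ξ s Ls n) :
    S.evs c ξ s Ls ≤ ((S.pat c ξ s Ls n).map (symEv c)).sum := by
  induction Ls generalizing n with
  | nil => simp [Sq.evs, Sq.pat]
  | cons x Ls ih =>
    have := ih x.1
    simp only [Sq.evs, Sq.pat, List.map_cons, List.sum_cons] at this ⊢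
    refine add_le_add ?_ this
    by_cases he : 0 < S.ev c ξ s x.1 x.2
    · obtain hf : (S.sym c ξ s x.1 x.2 n).2.2 = true := by simp [Sq.sym, he]
      rcases ev_cases h S ξ s x.1 x.2 n he with ⟨-, -, a, b, d⟩ | ⟨-, -, -, a, b⟩
      · rw [symEv, if_pos hf, b, if_neg d, a]; exact Nat.le_ceil _
      · rw [symEv, if_pos hf, b, if_pos rfl, a]
    · obtain hf : ¬ (S.sym c ξ s x.1 x.2 n).2.2 = true := by simp [Sq.sym, he]
      rw [symEv, if_neg hf]; exact not_lt.1 he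

lemma pat_len (S : Sq) (ξ s Ls n) : (S.pat c ξ s Ls n).length = Ls.length := by
  induction Ls generalizing n with
  | nil => rfl
  | cons x Ls ih => simp [Sq.pat, ih]

lemma time {Ex} {S : Sq} {ξ s m0 Ls n} (hc : S.Chain c Ex ξ s m0 Ls n) :
    n = m0 + ((S.pat c ξ s Ls n).map fun x => (x.2.1 : ℤ)).sum := by
  induction hc with
  | nil => simp [Sq.pat]
  | cons h1 h2 h3 ih =>
    have := h2.lt
    simp only [Sq.pat, List.map_cons, List.sum_cons, Sq.sym] at ih ⊢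
    omega

open Classical in
/-- radius after the last event -/
def rad (c : Cs) (S : Sq) (ξ : ℤ → ℝ) (s m0 : ℤ) : List (ℤ × ℝ) → ℝ
  | [] => c.cw / S.AA c ξ s m0
  | x :: Ls => if 0 < S.ev c ξ s x.1 x.2 then c.cw * Real.exp (-x.2) / |ξ x.1|
      else rad c S ξ s m0 Ls

lemma rad_ge (h : Num c) {Ex} {S : Sq} {ξ s m0 Ls n} (hc : S.Chain c Ex ξ s m0 Ls n) :
    c.cw / S.AA c ξ s n ≤ rad c S ξ s m0 Ls := by
  have cw := h.cw.1
  induction hc with
  | nil => exact le_rfl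
  | @cons Ls n r p h1 h2 h3 ih =>
    have a1 := S.one_le_AA c ξ s p
    have a2 := S.one_le_AA c ξ s n
    rw [rad]
    split_ifs
    · have hx : 0 < |ξ n| := abs_pos.2 (Sq.Chain.rinv c S h1).1.ne
      have := Real.exp_le_exp.2 h2.A_lo
      rw [Real.exp_add, Real.exp_log hx, Sq.WW, Real.exp_log (by linarith only [a1])] at this
      rw [Real.exp_neg, mul_div_assoc, div_eq_mul_inv, div_eq_mul_inv, ← mul_inv, mul_comm _ |ξ n|]
      gcongr
    · refine le_trans ?_ ih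
      gcongr
      exact S.AA_mono c ξ s h2.lt.le

structure Dat where
  u : ℝ
  L0 : List (ℤ × ℝ)
  Ls : List (ℤ × ℝ)
  n : ℤ

section
variable (c) (Ex : ExT) (M : Mdl) (t : ℝ) (s : ℤ) (φ : ℝ → ℝ) (α β : ℝ) (m0 : ℤ)

structure Val (π : List (ℕ × ℕ × Bool)) (z : Dat) : Prop where
  hu : z.u ∈ Set.Icc α β
  r0 : (M.O t (φ z.u)).Run c Ex (M.tg t (φ z.u) s) s (fun _ _ _ => True) z.L0 m0
  r1 : (M.O t (φ z.u)).Run c Ex (M.tg t (φ z.u) s) s (fun _ _ _ => True) (z.Ls ++ z.L0) z.n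
  ch : (M.O t (φ z.u)).Chain c Ex (M.tg t (φ z.u) s) s m0 z.Ls z.n
  pt : (M.O t (φ z.u)).pat c (M.tg t (φ z.u) s) s z.Ls z.n = π

def rd (z : Dat) : ℝ := rad c (M.O t (φ z.u)) (M.tg t (φ z.u) s) s m0 z.Ls

def UU (π : List (ℕ × ℕ × Bool)) : Set ℝ :=
  ⋃ z : {z // Val c Ex M t s φ α β m0 π z}, closedBall z.1.u (rd c M t s φ m0 z.1)
end

/-- the last step of a datum -/
lemma Val.last {Ex M t s φ α β m0 x π z} (hz : Val c Ex M t s φ α β m0 (x :: π) z) :
    ∃ r Ls', z.Ls = (m0 + (π.map fun x => (x.2.1 : ℤ)).sum, r) :: Ls' ∧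
      Val c Ex M t s φ α β m0 π ⟨z.u, z.L0, Ls', m0 + (π.map fun x => (x.2.1 : ℤ)).sum⟩ ∧
      (M.O t (φ z.u)).Step c Ex (M.tg t (φ z.u) s) s (m0 + (π.map fun x => (x.2.1 : ℤ)).sum) r z.n ∧
      (M.O t (φ z.u)).sym c (M.tg t (φ z.u) s) s (m0 + (π.map fun x => (x.2.1 : ℤ)).sum) r z.n
        = x := by
  obtain ⟨u, L0, Ls, p⟩ := z
  obtain ⟨hu, r0, r1, ch, pt⟩ := hz
  simp only at hu r0 r1 ch pt ⊢
  cases ch with
  | nil => simp [Sq.pat] at pt
  | @cons Ls' n r p h1 h2 h3 =>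
    simp only [Sq.pat, List.cons.injEq] at pt
    have ht := time h1
    rw [pt.2] at ht
    subst ht
    exact ⟨r, Ls', rfl, ⟨hu, r0, (Sq.Run.tail c _ r1).1, h1, pt.2⟩, h2, pt.1⟩

lemma step (h : Num c) (hO : SOK_s c) (hB : B1_s c) (hW : WIN_s c) (hF : FD_s c) (hT : T1_s c)
    {Ex M t s x0 φ} (hM : M.OK c) (ht : TI t) (hA : AdmP c Ex M t s x0 φ) {α β : ℝ} (hα : 0 ≤ α)
    (hβ : β ≤ 100) (m0 : ℤ) (x : ℕ × ℕ × Bool) (π : List (ℕ × ℕ × Bool)) :
    volume (UU c Ex M t s φ α β m0 (x :: π)) ≤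
      ENNReal.ofReal (Real.exp (-(3 / 4) * symEv c x)) * volume (UU c Ex M t s φ α β m0 π) := by
  set n := m0 + (π.map fun x => (x.2.1 : ℤ)).sum with hn
  choose r L hL hV hSt hx using fun z : {z // Val c Ex M t s φ α β m0 (x :: π) z} => z.2.last
  rw [← hn] at hL hV hSt hx
  have hU : (⋃ z : {z // Val c Ex M t s φ α β m0 (x :: π) z},
      closedBall z.1.u (rd c M t s φ m0 ⟨z.1.u, z.1.L0, L z, n⟩)) ⊆ UU c Ex M t s φ α β m0 π :=
    Set.iUnion_subset fun z => Set.subset_iUnion_of_subset ⟨_, hV z⟩ subset_rfl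
  have hmem : ∀ z : {z // Val c Ex M t s φ α β m0 (x :: π) z}, z.1.u ∈ Set.Icc (0 : ℝ) 100 :=
    fun z => ⟨hα.trans z.2.hu.1, z.2.hu.2.trans hβ⟩
  obtain ⟨cw0, cw1, cw2⟩ := h.cw
  have hl := h.lam
  by_cases hf : x.2.2 = true
  swap
  · rw [symEv, if_neg hf, mul_zero, Real.exp_zero, ENNReal.ofReal_one, one_mul]
    refine measure_mono (le_trans (le_of_eq ?_) hU)
    refine Set.iUnion_congr fun z => ?_
    obtain he : ¬ 0 < (M.O t (φ z.1.u)).ev c (M.tg t (φ z.1.u) s) s n (r z) := by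
      rw [← hx z] at hf; simpa [Sq.sym] using hf
    simp only [rd, hL z, rad, if_neg he]
  obtain he : ∀ z, 0 < (M.O t (φ z.1.u)).ev c (M.tg t (φ z.1.u) s) s n (r z) := fun z => by
    rw [← hx z] at hf; simpa [Sq.sym] using hf
  obtain hrd : ∀ z : {z // Val c Ex M t s φ α β m0 (x :: π) z},
      rd c M t s φ m0 z.1 = c.cw * Real.exp (-r z) / |M.tg t (φ z.1.u) s n| :=
    fun z => by simp only [rd, hL z, rad, if_pos (he z)]
  have hw : ∀ z : {z // Val c Ex M t s φ α β m0 (x :: π) z}, 0 < |M.tg t (φ z.1.u) s n| :=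
    fun z => abs_pos.2 (Sq.Chain.rinv c _ (hV z).ch).1.ne
  have hA1 : ∀ z : {z // Val c Ex M t s φ α β m0 (x :: π) z},
      1 ≤ (M.O t (φ z.1.u)).AA c (M.tg t (φ z.1.u) s) s n := fun z => Sq.one_le_AA c _ _ _ _
  obtain hsig : ∀ z : {z // Val c Ex M t s φ α β m0 (x :: π) z},
      (M.O t (φ z.1.u)).AA c (M.tg t (φ z.1.u) s) s n = |M.tg t (φ z.1.u) s n| *
        Real.exp ((M.O t (φ z.1.u)).sig c (M.tg t (φ z.1.u) s) s n) := fun z => by
    rw [Sq.sig, Sq.WW, Real.exp_sub, Real.exp_log (by linarith only [cw0, cw1, hA1 z]), Real.exp_log (hw z)]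
    field_simp [(hw z).ne']
  obtain main : ∀ (R : {z // Val c Ex M t s φ α β m0 (x :: π) z} → ℝ) (ko : ℝ), 0 ≤ ko →
      10 * ko ≤ Real.exp (-(3 / 4) * symEv c x) →
      (∀ z, 0 < R z ∧ R z * (M.O t (φ z.1.u)).AA c (M.tg t (φ z.1.u) s) s n ≤ c.cw) →
      (∀ z, ∃ x1 x2 : ℝ, ∀ z' : {z // Val c Ex M t s φ α β m0 (x :: π) z},
        |z'.1.u - z.1.u| ≤ R z → closedBall z'.1.u (rd c M t s φ m0 z'.1) ⊆
        closedBall x1 (ko * R z) ∪ closedBall x2 (ko * R z)) →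
      volume (UU c Ex M t s φ α β m0 (x :: π)) ≤
        ENNReal.ofReal (Real.exp (-(3 / 4) * symEv c x)) * volume (UU c Ex M t s φ α β m0 π) := by
    intro R ko k0 k1 hR hc
    refine (VITp.one_step (fun z : {z // Val c Ex M t s φ α β m0 (x :: π) z} => z.1.u) R
      (fun z => rd c M t s φ m0 ⟨z.1.u, z.1.L0, L z, n⟩) (fun z => rd c M t s φ m0 z.1) ko k0
      (fun z => ⟨(hR z).1, ?_, ?_⟩) hc).trans
      (mul_le_mul' (ENNReal.ofReal_le_ofReal k1) (measure_mono hU))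
    · refine le_trans ?_ (rad_ge h (hV z).ch)
      rw [le_div_iff₀ (by linarith only [cw0, cw1, hA1 z])]; exact (hR z).2
    · nlinarith only [cw1, cw0, hR z, hA1 z]
  obtain win : ∀ z z' : {z // Val c Ex M t s φ α β m0 (x :: π) z}, ∀ R, |z'.1.u - z.1.u| ≤ R →
      R * (M.O t (φ z.1.u)).AA c (M.tg t (φ z.1.u) s) s n ≤ c.cw →
      |z'.1.u - z.1.u| * (M.O t (φ z.1.u)).AA c (M.tg t (φ z.1.u) s) s n ≤ c.cw :=
    fun z z' R h1 h2 => le_trans (by have := hA1 z; (clear * - h1 this; gcongr)) h2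
  obtain cmp : ∀ z z' : {z // Val c Ex M t s φ α β m0 (x :: π) z},
      |z'.1.u - z.1.u| * (M.O t (φ z.1.u)).AA c (M.tg t (φ z.1.u) s) s n ≤ c.cw → ∀ B,
      Real.exp (-r z') ≤ B → rd c M t s φ m0 z'.1 ≤ B / 10 ^ 6 / |M.tg t (φ z.1.u) s n| := by
    intro z z' h1 B hB'
    have q := (hW Ex M t s x0 φ hM ht hA _ (hmem z) _ (hmem z') _ n (hV z).r1 h1).2.2.1
    have q1 := abs_sub (M.tg t (φ z'.1.u) s n) (M.tg t (φ z'.1.u) s n - M.tg t (φ z.1.u) s n)
    rw [sub_sub_cancel] at q1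
    have w1 := hw z
    have w2 := hw z'
    have e1 := Real.exp_pos (-r z')
    rw [hrd, div_le_div_iff₀ w2 w1]
    calc c.cw * Real.exp (-r z') * |M.tg t (φ z.1.u) s n|
        ≤ 1 / 10 ^ 8 * B * (2 * |M.tg t (φ z'.1.u) s n|) := by gcongr; linarith only [hB', e1]; linarith only [q, q1, w2]
      _ ≤ _ := by linarith only [mul_pos (e1.trans_le hB') w2]
  by_cases h0 : x.1 = 0
  · obtain hK := fun z => (ev_cases h _ _ s n (r z) z.1.n (he z)).resolve_left fun hh =>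
      hh.2.2.2.2 (by rw [← hh.2.2.2.1, hx z, h0])
    set ko := c.lam ^ 4 * Real.exp (-(1 - 5 * c.e3) * c.lam) with hko
    refine main (fun z => c.cw / (M.O t (φ z.1.u)).AA c (M.tg t (φ z.1.u) s) s n) ko
      (by positivity) ?_ (fun z => ⟨by have := hA1 z; (clear * - cw0 this; positivity), ?_⟩) fun z => ?_
    · rw [symEv, if_pos hf, if_pos h0, hko, ← mul_assoc]
      calc _ ≤ Real.exp (c.lam / 8) * Real.exp (-(1 - 5 * c.e3) * c.lam) := by gcongr; exact h.p2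
        _ ≤ _ := by rw [← Real.exp_add]; exact Real.exp_le_exp.2 (by nlinarith only [cw1, hl, cw0, h.e1])
    · rw [div_mul_cancel₀ _ (by linarith only [cw0, cw1, hA1 z])]
    · set R := c.cw / (M.O t (φ z.1.u)).AA c (M.tg t (φ z.1.u) s) s n with hR
      have a1 := hA1 z
      have w1 := hw z
      obtain hRA : R * (M.O t (φ z.1.u)).AA c (M.tg t (φ z.1.u) s) s n ≤ c.cw := by
        rw [hR, div_mul_cancel₀ _ (by linarith only [cw0, cw1, a1])]
      obtain hk : 1 / |M.tg t (φ z.1.u) s n| ≤ ko * R := by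
        rw [hR, hko, mul_div_assoc', div_le_div_iff₀ w1 (by linarith only [cw0, cw1, a1]), hsig z, one_mul,
          mul_right_comm (c.lam ^ 4), mul_comm _ c.cw, cw2, one_mul, mul_comm]
        gcongr
        exact (hK z).2.2.1
      obtain one : ∀ y : ℝ, ∃ x1, ∀ z' : {z // Val c Ex M t s φ α β m0 (x :: π) z},
          |z'.1.u - z.1.u| ≤ R → |(M.O t (φ z'.1.u)).X n - y| < 5 / 100 →
          closedBall z'.1.u (rd c M t s φ m0 z'.1) ⊆ closedBall x1 (ko * R) := by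
        intro y
        by_cases hy : ∃ z'' : {z // Val c Ex M t s φ α β m0 (x :: π) z},
            |z''.1.u - z.1.u| ≤ R ∧ |(M.O t (φ z''.1.u)).X n - y| < 5 / 100
        · obtain ⟨z'', b1, b2⟩ := hy
          refine ⟨z''.1.u, fun z' b3 b4 => closedBall_subset_closedBall' ?_⟩
          have q := (hW Ex M t s x0 φ hM ht hA _ (hmem z) _ (hmem z'') _ n (hV z).r1
            (win z z'' R b1 hRA)).2.2.2 _ (hmem z') (win z z' R b3 hRA)
          obtain q1 := cmp z z' (win z z' R b3 hRA) 3 (by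
            obtain this : Real.exp (-r z') ≤ Real.exp 1 := Real.exp_le_exp.2 (by linarith only [(hK z').1])
            linarith only [cw0, cw1, this, Real.exp_one_lt_d9])
          obtain q2 : |(M.O t (φ z'.1.u)).X n - (M.O t (φ z''.1.u)).X n| ≤ 1 / 10 := by
            have := abs_sub_le ((M.O t (φ z'.1.u)).X n) y ((M.O t (φ z''.1.u)).X n)
            rw [abs_sub_comm y] at this; linarith only [b2, b4, this]
          have q3 := abs_sub ((M.O t (φ z'.1.u)).X n - (M.O t (φ z''.1.u)).X n)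
            ((M.O t (φ z'.1.u)).X n - (M.O t (φ z''.1.u)).X n -
              (z'.1.u - z''.1.u) * M.tg t (φ z.1.u) s n)
          rw [sub_sub_cancel, abs_mul] at q3
          obtain q4 : |z'.1.u - z''.1.u| ≤ 1 / 9 / |M.tg t (φ z.1.u) s n| := by
            rw [le_div_iff₀ w1]; linarith only [q, q2, q3]
          rw [Real.dist_eq]
          refine le_trans (add_le_add q1 q4) (le_trans ?_ hk)
          rw [← add_div]; gcongr; norm_num
        · exact ⟨0, fun z' b3 b4 => absurd ⟨z', b3, b4⟩ hy⟩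
      obtain ⟨x1, h1⟩ := one (Real.pi / 2)
      obtain ⟨x2, h2⟩ := one (-(Real.pi / 2))
      refine ⟨x1, x2, fun z' b => ?_⟩
      rcases min_lt_iff.1 (hK z').2.1 with d | d
      · exact (h1 z' b d).trans Set.subset_union_left
      · exact (h2 z' b (by rwa [sub_neg_eq_add])).trans Set.subset_union_right
  · obtain hE := fun z => (ev_cases h _ _ s n (r z) z.1.n (he z)).resolve_right fun hh =>
      h0 (by rw [← hx z, hh.2.2.2.2])
    obtain hm : ∀ z, (x.1 : ℝ) - 1 ≤ r z ∧ r z ≤ x.1 := fun z => by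
      obtain e : x.1 = ⌈r z⌉₊ := by rw [← hx z, (hE z).2.2.2.1]
      rw [e]
      obtain this := Nat.ceil_lt_add_one (show 0 ≤ r z by linarith only [cw0, cw1, (hE z).2.1, h.cc])
      exact ⟨by linarith only [this], Nat.le_ceil _⟩
    by_cases hne : Nonempty {z // Val c Ex M t s φ α β m0 (x :: π) z}
    swap
    · rw [not_nonempty_iff] at hne
      simp [UU]
    obtain ⟨z0⟩ := hne
    have mc : c.cc ≤ x.1 := (hE z0).2.1.trans (hm z0).2
    have cc := h.cc
    set ko := 104 * c.lam ^ 4 * Real.exp (c.e3 * x.1) * Real.exp (-((x.1 : ℝ) - 1)) with hko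
    have sg0 : ∀ z : {z // Val c Ex M t s φ α β m0 (x :: π) z},
        1 ≤ Real.exp ((M.O t (φ z.1.u)).sg c (M.tg t (φ z.1.u) s) s n) :=
      fun z => Real.one_le_exp (le_max_right _ _)
    obtain hRA : ∀ z : {z // Val c Ex M t s φ α β m0 (x :: π) z},
        c.cw / (|M.tg t (φ z.1.u) s n| *
          Real.exp ((M.O t (φ z.1.u)).sg c (M.tg t (φ z.1.u) s) s n)) *
          (M.O t (φ z.1.u)).AA c (M.tg t (φ z.1.u) s) s n ≤ c.cw := fun z => by
      have := hw z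
      rw [div_mul_eq_mul_div, div_le_iff₀ (by positivity), hsig z]
      gcongr
      exact le_max_left _ _
    refine main (fun z => c.cw / (|M.tg t (φ z.1.u) s n| *
      Real.exp ((M.O t (φ z.1.u)).sg c (M.tg t (φ z.1.u) s) s n))) ko (by positivity) ?_
      (fun z => ⟨by have := hw z; (clear * - cw0 this; positivity), hRA z⟩) fun z => ⟨z.1.u, z.1.u, fun z' b => ?_⟩
    · rw [symEv, if_pos hf, if_neg h0, hko]
      obtain e1 : Real.exp (c.e3 * x.1) * Real.exp (-((x.1 : ℝ) - 1)) * Real.exp (c.cc / 8) ≤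
          Real.exp 1 * Real.exp (-(3 / 4) * x.1) := by
        rw [← Real.exp_add, ← Real.exp_add, ← Real.exp_add]
        exact Real.exp_le_exp.2 (by nlinarith only [cw0, cw1, mc, cc, h.e1])
      have e2 := Real.exp_one_lt_d9
      have e3 := h.p1
      have e4 := Real.exp_pos (-(3 / 4) * x.1)
      obtain e5 : 0 < Real.exp (c.e3 * x.1) * Real.exp (-((x.1 : ℝ) - 1)) := by positivity
      have e6 := mul_le_mul_of_nonneg_left e3 e5.le
      nlinarith only [e1, e6, cw0, e5, cw1, e4, cw2, e2]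
    · rw [Set.union_self]
      have w1 := hw z
      have s1 := sg0 z
      have b1 := win z z' _ b (hRA z)
      obtain b2 : |z'.1.u - z.1.u| * |M.tg t (φ z.1.u) s n| ≤ c.cw := by
        rw [le_div_iff₀ (by (clear * - w1; positivity))] at b
        refine le_trans ?_ b
        gcongr
        exact le_mul_of_one_le_right w1.le s1
      obtain q := deep h hO hB hW hF hT hM ht hA (hmem z) (hmem z') (hV z).r1 (hV z').r1 b1 b2
        (r := (x.1 : ℝ) - 1) (by linarith only [cw0, cw1, mc, cc]) (Sq.Wit.anti c _ h.L0.le (hSt z).wit (hm z).1)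
        (Sq.Wit.anti c _ h.L0.le (hSt z').wit (hm z').1)
      obtain q1 := cmp z z' b1 (Real.exp (-((x.1 : ℝ) - 1)))
        (Real.exp_le_exp.2 (by linarith only [(hm z').1]))
      rw [← le_div_iff₀ w1] at q
      refine closedBall_subset_closedBall' ?_
      rw [Real.dist_eq]
      refine (add_le_add q1 q).trans ?_
      obtain s2 : Real.exp ((M.O t (φ z.1.u)).sg c (M.tg t (φ z.1.u) s) s n) ≤
          Real.exp (c.e3 * x.1) := by
        refine Real.exp_le_exp.2 ?_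
        have a1 := (hE z).1
        have a2 := (hm z).2
        obtain this : (M.O t (φ z.1.u)).sg c (M.tg t (φ z.1.u) s) s n / c.e3 ≤ x.1 := by linarith only [cw0, cw1, cc, a1, a2]
        rwa [div_le_iff₀ h.e0, mul_comm] at this
      have e1 := Real.exp_pos (-((x.1 : ℝ) - 1))
      rw [← add_div, hko, mul_div_assoc', mul_comm |M.tg t (φ z.1.u) s n|, ← div_div]
      gcongr
      rw [le_div_iff₀ (by positivity)]
      calc _ ≤ 104 * Real.exp (-((x.1 : ℝ) - 1)) * Real.exp (c.e3 * x.1) := by gcongr; linarith only [e1]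
        _ = _ := by
          rw [show 104 * c.lam ^ 4 * Real.exp (c.e3 * x.1) * Real.exp (-((x.1 : ℝ) - 1)) * c.cw =
            104 * Real.exp (-((x.1 : ℝ) - 1)) * Real.exp (c.e3 * x.1) * (c.cw * c.lam ^ 4) by ring,
            cw2, mul_one]

lemma volU (h : Num c) (hO : SOK_s c) (hB : B1_s c) (hW : WIN_s c) (hF : FD_s c) (hT : T1_s c)
    {Ex M t s x0 φ} (hM : M.OK c) (ht : TI t) (hA : AdmP c Ex M t s x0 φ) {α β ρ : ℝ} (hα : 0 ≤ α)
    (hβ : β ≤ 100) (m0 : ℤ) (hρ : ∀ u ∈ Set.Icc α β, ∀ L0,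
      (M.O t (φ u)).Run c Ex (M.tg t (φ u) s) s (fun _ _ _ => True) L0 m0 →
      c.cw ≤ ρ * (M.O t (φ u)).AA c (M.tg t (φ u) s) s m0) (π : List (ℕ × ℕ × Bool)) :
    volume (UU c Ex M t s φ α β m0 π) ≤
      ENNReal.ofReal (Real.exp (-(3 / 4) * (π.map (symEv c)).sum)) *
        ENNReal.ofReal (β - α + 2 * ρ) := by
  induction π with
  | nil =>
    obtain this : UU c Ex M t s φ α β m0 [] ⊆ Set.Icc (α - ρ) (β + ρ) := by
      refine Set.iUnion_subset fun z x hx => ?_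
      obtain hL : z.1.Ls = [] := List.eq_nil_of_length_eq_zero (by
        rw [← pat_len (c := c) _ _ _ _ z.1.n, z.2.pt]; rfl)
      have h1 := hρ _ z.2.hu _ z.2.r0
      have h2 := (M.O t (φ z.1.u)).one_le_AA c (M.tg t (φ z.1.u) s) s m0
      rw [← div_le_iff₀ (by linarith only [h2])] at h1
      simp only [rd, hL, rad, mem_closedBall, Real.dist_eq] at hx
      have := abs_le.1 (hx.trans h1)
      exact ⟨by linarith only [this, z.2.hu.1], by linarith only [this, z.2.hu.2]⟩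
    refine (measure_mono this).trans (le_of_eq ?_)
    simp only [Real.volume_Icc, List.map_nil, List.sum_nil, mul_zero, Real.exp_zero,
      ENNReal.ofReal_one, one_mul]
    congr 1; ring
  | cons x π ih =>
    refine (step h hO hB hW hF hT hM ht hA hα hβ m0 x π).trans ?_
    rw [List.map_cons, List.sum_cons, mul_add, Real.exp_add,
      ENNReal.ofReal_mul (Real.exp_pos _).le, mul_assoc]
    gcongr

lemma numer (h : Num c) {y j k : ℝ} (hy : 0 ≤ y) (hj0 : 0 < j)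
    (hj : j ≤ 20 * Real.exp ((y + 1) / 100)) (hk : 121 + 6 / 1000 * c.cc - 53 / 100 * y ≤ k) :
    4 * Real.exp (2 * (100 * (y + 1) / c.cc + 10) + 3 * c.del * (200 * (y + 1) + 20 * c.cc)) *
      Real.exp (-(3 / 4) * y) ≤ Real.exp k / j ^ 4 * (1 / 11 * Real.exp (-y / 10)) := by
  have cc := h.cc
  obtain a1 : 100 * (y + 1) / c.cc ≤ (y + 1) / 100 := by
    rw [div_le_div_iff₀ (by linarith only [cc]) (by norm_num)]; nlinarith only [cc, hy]
  obtain a2 : 3 * c.del * (200 * (y + 1) + 20 * c.cc) ≤ 3 / 10000 * (200 * (y + 1) + 20 * c.cc) := by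
    have := h.del1
    gcongr; linarith only [this]
  obtain a3 : j ^ 4 ≤ 160000 * Real.exp ((y + 1) / 25) := by
    calc j ^ 4 ≤ (20 * Real.exp ((y + 1) / 100)) ^ 4 := by gcongr
      _ = _ := by rw [mul_pow, ← Real.exp_nat_mul]; norm_num; ring
  obtain a4 : (7040000 : ℝ) ≤ Real.exp 100 := by
    obtain this := Real.pow_div_factorial_le_exp (100 : ℝ) (by norm_num) 5
    norm_num [Nat.factorial] at this
    linarith only [this]
  rw [div_mul_eq_mul_div, le_div_iff₀ (by positivity)]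
  set E := 2 * (100 * (y + 1) / c.cc + 10) + 3 * c.del * (200 * (y + 1) + 20 * c.cc)
  calc 4 * Real.exp E * Real.exp (-(3 / 4) * y) * j ^ 4
      ≤ 4 * Real.exp E * Real.exp (-(3 / 4) * y) * (160000 * Real.exp ((y + 1) / 25)) := by gcongr
    _ = 1 / 11 * (7040000 * (Real.exp E * Real.exp (-(3 / 4) * y) * Real.exp ((y + 1) / 25))) := by
        ring
    _ ≤ 1 / 11 * (Real.exp 100 *
        (Real.exp E * Real.exp (-(3 / 4) * y) * Real.exp ((y + 1) / 25))) := by gcongr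
    _ ≤ 1 / 11 * (Real.exp k * Real.exp (-y / 10)) := by
        rw [← Real.exp_add, ← Real.exp_add, ← Real.exp_add, ← Real.exp_add]
        refine mul_le_mul_of_nonneg_left (Real.exp_le_exp.2 ?_) (by norm_num)
        simp only [E]; linarith only [hk, a1, a2]
    _ = _ := by ring

end T3p

open T3p in
theorem t3 : Hier fun c => SOK_s c → B1_s c → WIN_s c → FD_s c → T1_s c → T2_s c → KR_s c →
    T3_s c := by
  refine num.mono fun c h hO hB hW hF hT h2 hK => ?_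
  intro Ex M t s x0 φ hM ht hA α β ρ m0 j hα hβ hs hj hρ
  classical
  choose T hT1 hT2 using fun y : ℕ =>
    hK (100 * (y + 1) / c.cc + 10) (200 * (y + 1) + 20 * c.cc)
  set k := if m0 = s then c.lam else -c.cc / 10 with hk
  obtain hek : (if m0 = s then Real.exp c.lam else Real.exp (-c.cc / 10)) = Real.exp k := by
    rw [hk]; split_ifs <;> rfl
  set F : ℕ → Finset (List (ℕ × ℕ × Bool)) := fun y => (T y).filter fun π =>
    (y : ℝ) ≤ (π.map (symEv c)).sum ∧ (j : ℝ) ≤ 20 * Real.exp ((y + 1) / 100) ∧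
      121 + 6 / 1000 * c.cc - 53 / 100 * y ≤ k with hFd
  have cc := h.cc
  obtain j0 : (0 : ℝ) < j := by exact_mod_cast (by omega : 0 < j)
  obtain hy : ∀ y : ℕ, volume (⋃ π ∈ F y, UU c Ex M t s φ α β m0 π) ≤
      ENNReal.ofReal (Real.exp k / j ^ 4 * (1 / 11 * Real.exp (-1 / 10) ^ y)) *
        ENNReal.ofReal (β - α + 2 * ρ) := by
    intro y
    rcases (F y).eq_empty_or_nonempty with h0 | ⟨π0, h0⟩
    · simp [h0]
    obtain ⟨-, -, b1, b2⟩ := Finset.mem_filter.1 h0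
    refine (measure_biUnion_finset_le _ _).trans ?_
    refine (Finset.sum_le_card_nsmul _ _ (ENNReal.ofReal (Real.exp (-(3 / 4) * y)) *
      ENNReal.ofReal (β - α + 2 * ρ)) fun π hπ => ?_).trans ?_
    · refine (volU h hO hB hW hF hT hM ht hA hα hβ m0 hρ π).trans ?_
      have := (Finset.mem_filter.1 hπ).2.1
      gcongr ENNReal.ofReal (Real.exp ?_) * _
      linarith only [this]
    · rw [nsmul_eq_mul, ← mul_assoc, ← ENNReal.ofReal_natCast,
        ← ENNReal.ofReal_mul (Nat.cast_nonneg _)]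
      refine mul_le_mul_left (ENNReal.ofReal_le_ofReal ?_) _
      obtain c1 : ((F y).card : ℝ) ≤ (T y).card := by
        exact_mod_cast Finset.card_filter_le _ _
      rw [← Real.exp_nat_mul, show (y : ℝ) * (-1 / 10) = -y / 10 by ring]
      refine le_trans ?_ (numer h (Nat.cast_nonneg y) j0 b1 b2)
      gcongr
      exact c1.trans (hT1 y)
  refine le_trans (measure_mono (t := ⋃ y : ℕ, ⋃ π ∈ F y, UU c Ex M t s φ α β m0 π) ?_) ?_
  · rintro x ⟨u, hu, L0, Ls, n, hn, r0, r1, ch, g0, g1, hx⟩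
    have hu' : u ∈ Set.Icc (0 : ℝ) 100 := ⟨hα.trans hu.1, hu.2.trans hβ⟩
    obtain ⟨hv, -, hSt, -⟩ := hA.mem u hu'
    obtain ⟨a1, a2, a3, a4, a5⟩ := (h2 Ex _ _ s ((hO M hM t ht).2.1 _ hv).2 hSt
      (hA.load u hu')).1 m0 Ls n hs g0 ch g1
    have e1 := evs_le h (M.O t (φ u)) (M.tg t (φ u) s) s Ls n
    have e2 := rad_ge h ch
    set R := (M.O t (φ u)).evs c (M.tg t (φ u) s) s Ls
    have r2 := Nat.lt_floor_add_one R
    obtain jn : (j : ℝ) ≤ ((n - m0 : ℤ) : ℝ) := by exact_mod_cast (by omega : (j : ℤ) ≤ n - m0)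
    obtain s0 : 0 ≤ (((M.O t (φ u)).pat c (M.tg t (φ u) s) s Ls n).map (symEv c)).sum :=
      List.sum_nonneg fun y hy => by
        obtain ⟨z, -, rfl⟩ := List.mem_map.1 hy
        have := h.lam
        unfold symEv; split_ifs <;> positivity
    refine Set.mem_iUnion.2 ⟨⌊R⌋₊, Set.mem_iUnion₂.2 ⟨_, Finset.mem_filter.2
      ⟨hT2 _ _ a1 ?_ (by linarith only [a3, r2]), ?_, ?_, ?_⟩,
      Set.mem_iUnion.2 ⟨⟨⟨u, L0, Ls, n⟩, hu, r0, r1, ch, rfl⟩, ?_⟩⟩⟩
    · rw [pat_len]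
      refine a2.trans ?_
      (clear * - r2 cc; gcongr)
    · rcases le_total 0 R with p | p
      · exact (Nat.floor_le p).trans e1
      · rwa [Nat.floor_of_nonpos p, Nat.cast_zero]
    · refine jn.trans (a4.trans ?_)
      (clear * - r2; gcongr)
    · rw [hk]
      split_ifs with e
      · have : (0 : ℝ) ≤ ⌊R⌋₊ := Nat.cast_nonneg _
        linarith only [cc, h.ccl]
      · obtain this := a5 e (by omega)
        linarith only [cc, r2, this]
    · have := (M.O t (φ u)).one_le_AA c (M.tg t (φ u) s) s n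
      rw [← le_div_iff₀ (by linarith only [this])] at hx
      exact hx.trans e2
  · refine (measure_iUnion_le _).trans ((ENNReal.tsum_le_tsum hy).trans ?_)
    have q0 := Real.exp_pos (-1 / 10)
    obtain q1 : Real.exp (-1 / 10) ≤ 10 / 11 := by
      rw [neg_div, Real.exp_neg, inv_le_comm₀ (Real.exp_pos _) (by norm_num)]
      linarith only [Real.add_one_le_exp (1 / 10 : ℝ)]
    obtain hg := hasSum_geometric_of_lt_one q0.le (by linarith only [q0, q1])
    have hs := (hg.mul_left (1 / 11)).mul_left (Real.exp k / j ^ 4)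
    rw [ENNReal.tsum_mul_right, ← ENNReal.ofReal_tsum_of_nonneg (fun y => by positivity)
      hs.summable, hs.tsum_eq, hek, ENNReal.ofReal_mul (p := Real.exp k / j ^ 4) (q := β - α + 2 * ρ)
      (by positivity)]
    gcongr
    refine mul_le_of_le_one_right (by positivity) ?_
    rw [← div_eq_mul_inv, div_le_one (by linarith only [q0, q1])]
    linarith only [q1]

end
end Pool.Agent.MP_9cbfe4_an

end
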