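import Pool.Agent.MP_9cbfe4_an.Spec

/-! Families over a parameter interval `I`; only the values on `I × ℝ²` matter. -/

namespace Pool.Agent.MP_9cbfe4_an.Spec

open scoped ContDiff

/-- a smooth family of diffeomorphisms of the plane with parameter in `I` -/
def FamilyOn (I : Set ℝ) (F : ℝ × (ℝ × ℝ) → ℝ × ℝ) : Prop :=
  ContDiffOn ℝ ∞ F (I ×ˢ Set.univ) ∧ ∀ t ∈ I, ∃ g, Diffeo (fun z => F (t, z)) g

/-- `U` is a set of families over `I`, open for uniform convergence of the derivatives of order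
`≤ r` on compact subsets of `I × ℝ²` -/
def OpenOn (I : Set ℝ) (r : ℕ) (U : Set (ℝ × (ℝ × ℝ) → ℝ × ℝ)) : Prop :=
  ∀ F ∈ U, FamilyOn I F ∧ ∃ (K : Set (ℝ × (ℝ × ℝ))) (δ : ℝ), IsCompact K ∧ K ⊆ I ×ˢ Set.univ ∧
    0 < δ ∧ ∀ F', FamilyOn I F' →
      (∀ k ≤ r, ∀ p ∈ K, ‖iteratedFDerivWithin ℝ k (F' - F) (I ×ˢ Set.univ) p‖ < δ) → F' ∈ U

end Pool.Agent.MP_9cbfe4_an.Spec
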