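import Pool.Agent.MP_9cbfe4_an.M00
import Pool.Agent.MP_9cbfe4_an.M01
import Pool.Agent.MP_9cbfe4_an.SpecI
import Pool.Agent.Lib.Birkhoff.Pointwise

set_option linter.all false

attribute [-instance] AddQuantale.instAddLeftMono IdemSemiring.toCanonicallyOrderedAdd
  NumberField.to_charZero AddQuantale.instAddRightMono IdemSemiring.toMulLeftMono RKHS.instFunLike
  Quantale.instMulRightMono Quantale.instMulLeftMono IsOrderedCancelMonoid.toIsOrderedMonoid
  LinearOrderedCommMonoidWithZero.toPosMulStrictMono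
  Group.IsPerfect.subsingleton_of_isMulCommutative CanonicallyOrderedAdd.toMulLeftMono
  Valued.toUniformSpace IdemSemiring.toMulRightMono TotallySeparatedSpace.t2Space
  LinearOrderedCommMonoidWithZero.toIsOrderedMonoid IsScalarTower.complexToReal
  Order.Coframe.toCompleteLattice OmegaCompletePartialOrder.toPartialOrder Invertible.toNeZero
  GrpTypeEquivalenceGrp.grpGroup littleWedderburn CanonicallyOrderedMul.toMulLeftMono
  CoalgHomClass.toSemilinearMapClass TestFunctionClass.toDFunLike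
  ContDiffMapSupportedInClass.toDFunLike Order.Frame.toCompleteLattice RightPreLieAlgebra.toModule
  CategoryTheory.Limits.Concrete.instUniqueToTypeTerminal LeftPreLieAlgebra.toModule
  CStarAlgebra.instOrderClosedTopology IdemSemiring.toSemiring
  LieAdmissibleRing.toNonUnitalNonAssocRing NonUnitalAlgSemiHomClass.toDistribMulActionSemiHomClass
  CStarAlgebra.toNormedRing

/-! ### Part NUM -/

section

/-! Row NUM: the numeric lemma (I5) on chains of steps. -/

namespace Pool.Agent.MP_9cbfe4_an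

open Finset Filter Topology

noncomputable section

namespace NUM

/-- numeric facts on the constants -/
structure NC (c : Cs) : Prop where
  C0 : 1 ≤ c.C0
  C1 : 1 ≤ c.C1
  e0 : 0 < c.e3
  e1 : c.e3 ≤ 1 / 100
  e2 : c.e3 * (c.C0 * c.C1) ≤ 1 / 100
  ε0 : 0 < c.ε
  ε1 : c.ε ≤ c.e3 ^ 5
  a0 : 0 < c.a
  M1 : 10 ≤ c.a * c.M1
  β1 : 10 ≤ c.a * c.β
  β2 : 3 ≤ c.β
  l1 : c.Γ + 10 ≤ c.e3 ^ 5 * c.lam
  l2 : c.Γ * (c.CN * (6 * (c.C0 * c.C1))) ≤ c.ε' * c.lam
  l3 : c.a * (18 * (c.CN * (c.C0 * c.C1))) ≤ c.lam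
  l4 : 100 * c.C1 ≤ c.lam
  l5 : 20 ≤ c.ε * c.lam
  L0 : 0 < c.L
  k1 : 1 / 2 ≤ c.chK
  k2 : c.chK ≤ 3

theorem hier_NC : Hier NC := by
  have hb := Hier.base
  have h0 : Hier fun c => 1 ≤ c.C0 := Hier.C0_ge fun _ _ _ _ => 1
  have h1 : Hier fun c => 1 ≤ c.C1 := Hier.C1_ge fun _ _ _ _ _ => 1
  obtain he : Hier fun c => 0 < c.e3 ∧ c.e3 ≤ 1 / (100 * (c.C0 * c.C1)) :=
    Hier.e3_le (fun c => 1 / (100 * (c.C0 * c.C1))) (fun _ _ _ _ _ _ _ _ => rfl)
      ((h0.and h1).mono fun c h => by have := h.1; have := h.2; positivity)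
  obtain hε : Hier fun c => 0 < c.ε ∧ c.ε ≤ c.e3 ^ 5 :=
    (Hier.ε_le_pow (fun _ => 1) 5 (by norm_num) (fun _ _ _ _ _ _ _ _ => rfl)
      (Hier.of_all fun _ => one_pos)).mono fun c h => ⟨h.1, by simpa using h.2⟩
  have ha : Hier fun c => 0 < c.a ∧ c.a ≤ 1 :=
    Hier.a_le (fun _ => 1) (fun _ _ _ _ _ _ => rfl) (Hier.of_all fun _ => one_pos)
  have hM : Hier fun c => 10 / c.a ≤ c.M1 := Hier.M1_ge (fun c => 10 / c.a) fun _ _ _ _ => rfl
  have hβ : Hier fun c => 10 / c.a ≤ c.β := Hier.β_ge (fun c => 10 / c.a) fun _ _ _ => rfl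
  have hβ' : Hier fun c => 3 ≤ c.β := Hier.β_ge (fun _ => 3) fun _ _ _ => rfl
  have l1 : Hier fun c => (c.Γ + 10) / c.e3 ^ 5 ≤ c.lam :=
    Hier.lam_ge (fun c => (c.Γ + 10) / c.e3 ^ 5) fun _ _ => rfl
  have l2 : Hier fun c => c.Γ * (c.CN * (6 * (c.C0 * c.C1))) / c.ε' ≤ c.lam :=
    Hier.lam_ge (fun c => c.Γ * (c.CN * (6 * (c.C0 * c.C1))) / c.ε') fun _ _ => rfl
  have l3 : Hier fun c => c.a * (18 * (c.CN * (c.C0 * c.C1))) ≤ c.lam :=
    Hier.lam_ge (fun c => c.a * (18 * (c.CN * (c.C0 * c.C1)))) fun _ _ => rfl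
  have l4 : Hier fun c => 100 * c.C1 ≤ c.lam := Hier.lam_ge (fun c => 100 * c.C1) fun _ _ => rfl
  have l5 : Hier fun c => 20 / c.ε ≤ c.lam := Hier.lam_ge (fun c => 20 / c.ε) fun _ _ => rfl
  have L0 : Hier fun c => 1 ≤ c.L := Hier.L_ge (fun _ => 1) fun _ _ => rfl
  refine ((((hb.and h0).and (h1.and he)).and ((hε.and ha).and (hM.and hβ))).and
    (((hβ'.and l1).and (l2.and l3)).and ((l4.and l5).and L0))).mono ?_
  rintro c ⟨⟨⟨⟨hb, h0⟩, h1, he⟩, ⟨hε, ha⟩, hM, hβ⟩, ⟨⟨hβ', l1⟩, l2, l3⟩, ⟨l4, l5⟩, L0⟩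
  have hC : 1 ≤ c.C0 * c.C1 := one_le_mul_of_one_le_of_one_le h0 h1
  obtain he2 : c.e3 * (c.C0 * c.C1) ≤ 1 / 100 := by
    have := he.2
    rw [le_div_iff₀ (by positivity)] at this
    linarith only [this]
  have he0 := he.1
  obtain hk0 : 0 < c.k0 := by linarith only [hb.1]
  refine ⟨h0, h1, he.1, by nlinarith only [he2, he, hC], he2, hε.1, hε.2, ha.1, ?_, ?_, hβ', ?_, ?_, l3, l4, ?_,
    by linarith only [hb, L0, hk0], ?_, ?_⟩
  · rw [div_le_iff₀ ha.1] at hM; linarith only [hM]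
  · rw [div_le_iff₀ ha.1] at hβ; linarith only [hβ]
  · rw [div_le_iff₀ (by (clear * - he0; positivity))] at l1; linarith only [l1]
  · rw [div_le_iff₀ (by unfold Cs.ε'; positivity)] at l2; linarith only [l2]
  · rw [div_le_iff₀ hε.1] at l5; linarith only [l5]
  · obtain h2 : (2 : ℝ) ≤ 1 / c.k0 := by rw [le_div_iff₀ hk0]; linarith only [hb.2.1]
    have := Real.log_le_log two_pos h2
    have := Real.log_two_gt_d9
    unfold Cs.chK; (rename_i zq0; linarith only [hb, hk0, zq0, this])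
  · obtain h2 : 1 / c.k0 ≤ 2 ^ 4 := by rw [div_le_iff₀ hk0]; linarith only [hb.1]
    obtain h3 := Real.log_le_log (by positivity) h2
    rw [Real.log_pow] at h3
    have := Real.log_two_lt_d9
    unfold Cs.chK; push_cast at h3; linarith only [hb, hk0, h3, this]

/-- additive bookkeeping: `D` dissipation, `sr` large depths, `E` events, `nk` K-count, `G` gain -/
def Tot (c : Cs) (D sr E nk J0 J1 G ch len : ℝ) : Prop :=
  0 ≤ D ∧ 0 ≤ E ∧ sr ≤ E + 10 * (D / c.e3) + c.cc * len ∧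
  c.lam * nk + c.lam * J1 ≤ c.lam * J0 + E / c.e3 + 30 * (c.C0 * c.C1) * (D / c.e3 ^ 2) ∧
  2 / 5 * c.lam * len ≤ G + c.C6 * D ∧ E ≤ 2 * G + 3 * c.C6 * D ∧
  G + 2 * c.lam * J1 ≤ 2 * c.lam * J0 + (1 + c.e3 / 2) * E + 4 * ch / c.β + 20 * (D / c.e3)

theorem Tot.add {c : Cs} {D sr E nk J0 J1 G ch len D' sr' E' nk' J2 G' ch' len' : ℝ}
    (h : Tot c D sr E nk J0 J1 G ch len) (h' : Tot c D' sr' E' nk' J1 J2 G' ch' len') :
    Tot c (D + D') (sr + sr') (E + E') (nk + nk') J0 J2 (G + G') (ch + ch') (len + len') := by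
  obtain ⟨a1, a2, a3, a4, a5, a6, a7⟩ := h
  obtain ⟨b1, b2, b3, b4, b5, b6, b7⟩ := h'
  refine ⟨by linarith only [a1, b1], by linarith only [a2, b2], ?_, ?_, ?_, ?_, ?_⟩ <;>
    simp only [add_div, mul_add] at * <;> linarith only [b3, a3, b4, a4, b5, a5, b6, a6, b7, a7]

theorem Tot.zero (c : Cs) (J : ℝ) : Tot c 0 0 0 0 J J 0 0 0 := by
  simp [Tot]

section
variable {c : Cs} (h : NC c)
include h

theorem NC.sc : 0 < c.lam ∧ 0 ≤ c.Γ ∧ c.e3 * c.lam ≤ c.lam / 100 ∧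
    c.e3 ^ 2 * c.lam ≤ c.e3 * c.lam / 100 ∧ c.e3 ^ 4 * c.lam ≤ c.e3 ^ 2 * c.lam / 10000 ∧
    c.e3 ^ 5 * c.lam ≤ c.e3 ^ 4 * c.lam / 100 ∧ c.ε * c.lam ≤ c.e3 ^ 5 * c.lam ∧
    1 ≤ c.C0 * c.C1 ∧ c.chK ≤ c.bl := by
  have h0 := h.e0; have h1 := h.e1; have hC0 := h.C0; have hC1 := h.C1
  obtain hl : 0 < c.lam := by linarith only [h0, h1, hC1, h.l4]
  obtain hΓ : 0 ≤ c.Γ := by unfold Cs.Γ Cs.C6 Cs.C4 Cs.ε'; positivity
  obtain a1 : 0 < c.e3 * c.lam := by positivity
  obtain a2 : 0 < c.e3 ^ 2 * c.lam := by positivity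
  obtain a3 : 0 < c.e3 ^ 3 * c.lam := by positivity
  obtain a4 : 0 < c.e3 ^ 4 * c.lam := by positivity
  obtain b2 : c.e3 ^ 3 * c.lam ≤ c.e3 ^ 2 * c.lam / 100 := by nlinarith only [h1, a2]
  refine ⟨hl, hΓ, by nlinarith only [h1, hl], by nlinarith only [b2, h0], by nlinarith only [b2, h0], by nlinarith only [b2],
    mul_le_mul_of_nonneg_right h.ε1 hl.le, one_le_mul_of_one_le_of_one_le hC0 hC1, ?_⟩
  have := h.k2; have := h.β2; have := h.l4
  unfold Cs.bl; (rename_i zq1 zq0; nlinarith only [hC1, zq1, this, h0, h1, hl, zq0])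

theorem NC.dv {D : ℝ} (hD : 0 ≤ D) : 100 * D ≤ D / c.e3 ∧ 100 * (D / c.e3) ≤ D / c.e3 ^ 2 := by
  have h0 := h.e0; have h1 := h.e1
  obtain k : ∀ x, 0 ≤ x → 100 * x ≤ x / c.e3 := fun x hx => by
    rw [le_div_iff₀ h0]; nlinarith only [h1, hx]
  refine ⟨k D hD, ?_⟩
  obtain this := k (D / c.e3) (by positivity)
  rwa [div_div, ← sq] at this

theorem NC.rs {r : ℝ} (r0 : 0 ≤ r) : c.e3 * r ≤ r / 100 ∧ c.e3 ^ 4 * r ≤ c.e3 * r / 10000 ∧
    c.ε * r ≤ c.e3 ^ 4 * r / 100 ∧ c.e3 * (c.e3 * r) ≤ r := by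
  have e0 := h.e0; have e1 := h.e1
  obtain k : ∀ x, 0 ≤ x → c.e3 * x ≤ x / 100 := fun x hx => by nlinarith only [e1, hx]
  have b1 := k r r0
  obtain b2 := k (c.e3 * r) (by positivity)
  obtain b3 := k (c.e3 ^ 2 * r) (by positivity)
  obtain b4 := k (c.e3 ^ 3 * r) (by positivity)
  obtain b5 := k (c.e3 ^ 4 * r) (by positivity)
  have b6 := mul_le_mul_of_nonneg_right h.ε1 r0
  obtain b7 : 0 ≤ c.e3 ^ 3 * r := by positivity
  refine ⟨b1, by linarith only [b7, b4, b3, b2], by linarith only [b5, b6], by linarith only [b2, b1, r0]⟩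

/-- core facts of a short step -/
theorem NC.short_core {sn sp r k qn qp ev In Ip D : ℝ}
    (hr' : 2 * r ≤ c.lam + 2 * c.c1) (hs : sp ≤ max sn r + r - c.lam + 5)
    (hk1 : k ≤ 1) (hk : 1 ≤ r → k = 0) (hq : qp ≤ qn + k)
    (hIn : (-(1 - 5 * c.e3) * c.lam < sn ∧ In = 1) ∨ In = 0)
    (hIn' : -(1 - 5 * c.e3) * c.lam < sn → In = 1)
    (hIp : (-(1 - 5 * c.e3) * c.lam < sp ∧ Ip = 1) ∨ (sp ≤ -(1 - 5 * c.e3) * c.lam ∧ Ip = 0))
    (hev : (ev = r ∧ max sn 0 / c.e3 + c.cc ≤ r) ∨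
      (ev = c.lam ∧ r < max sn 0 / c.e3 + c.cc ∧ sn ≤ -(1 - 5 * c.e3) * c.lam) ∨
      (ev = 0 ∧ r < max sn 0 / c.e3 + c.cc ∧ (0 < k → In = 1)))
    (hD : D = max sn 0 + c.Γ * qn + c.Γ * In + 10 * c.ε' * ev - (max sp 0 + c.Γ * qp + c.Γ * Ip)) :
    0 ≤ D ∧ (ev = 0 → c.e3 * (r - c.cc) ≤ 10 * D) ∧
      (Ip = 1 → r < 2 * (c.e3 * c.lam) → 2 * (c.e3 * c.lam) ≤ D) ∧
      (ev = c.lam → r < c.cc ∧ Ip = 0) := by
  obtain ⟨hl, hΓ, s1, s2, s4, s5, s6, hC, -⟩ := h.sc
  have l1 := h.l1; have l5 := h.l5; have e0 := h.e0; have e1 := h.e1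
  have hcc : c.cc = c.ε * c.lam / 20 := rfl
  have hc1 : c.c1 = c.ε * c.lam / 2 := rfl
  have hε' : c.ε' = c.e3 ^ 4 := rfl
  obtain hqk : c.Γ * qp ≤ c.Γ * qn + c.Γ * k := by nlinarith only [hq, hΓ]
  obtain hΓk : c.Γ * k ≤ c.Γ := by nlinarith only [hk1, hΓ]
  obtain hIn0 : 0 ≤ c.Γ * In := by rcases hIn with h | h <;> simp [h, hΓ]
  have m1 := le_max_left sn 0
  have m2 := le_max_right sn 0
  obtain hT : -(1 - 5 * c.e3) * c.lam = -c.lam + 5 * (c.e3 * c.lam) := by ring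
  rw [hT] at hIn hIn' hIp hev
  rcases hev with ⟨hev, hR⟩ | ⟨hev, hR, hsn⟩ | ⟨hev, hR, hK⟩
  · -- R-event
    have hdv := (h.dv m2).1
    obtain hr1 : 1 ≤ r := by linarith only [hdv, hR, m2, hcc, l5]
    have hk0 := hk hr1
    obtain hmx : max sn r = r := max_eq_right (by linarith only [hdv, hR, m2, m1, hcc, l5])
    obtain hpos : 0 ≤ c.e3 ^ 4 * r := by (clear * - e0 hr1; positivity)
    rw [hmx] at hs
    rw [hk0, mul_zero] at hqk
    rw [hev, hε'] at hD
    refine ⟨?_, fun h0 => by linarith only [h0, hdv, hR, hev, m2, hcc, l5], fun hI hlt => ?_, fun h0 => by linarith only [h0, hev, hc1, l5, s6, s5, s4, s2, s1, hr']⟩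
    · rcases hIp with ⟨hp, hI⟩ | ⟨hp, hI⟩
      · obtain hr2 : 2 * (c.e3 * c.lam) ≤ r := by linarith only [hp, l5, s6, s5, s4, s2, hs]
        obtain this : 2 * (c.e3 ^ 5 * c.lam) ≤ c.e3 ^ 4 * r := by
          have := mul_le_mul_of_nonneg_left hr2 (pow_pos e0 4).le
          linarith only [this, show c.e3 ^ 4 * (2 * (c.e3 * c.lam)) = 2 * (c.e3 ^ 5 * c.lam) by ring]
        obtain hm : max sp 0 ≤ c.ε * c.lam + 5 := max_le (by linarith only [hc1, hs, hr']) (by linarith only [l5])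
        rw [hI] at hD; linarith only [hm, this, m2, hIn0, hqk, l5, l1, s6, hD]
      · obtain hm : max sp 0 = 0 := max_eq_right (by linarith only [hp, l5, s6, s5, s4, s2, s1])
        rw [hI, hm] at hD; linarith only [hpos, m2, hIn0, hqk, hD]
    · rcases hIp with ⟨hp, -⟩ | ⟨-, hI'⟩
      · linarith only [hp, hlt, l5, s6, s5, s4, s2, hs]
      · linarith only [hI', hI]
  · -- K-event
    obtain hm0 : max sn 0 = 0 := max_eq_right (by linarith only [hsn, l5, s6, s5, s4, s2, s1])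
    rw [hm0, zero_div] at hR
    obtain hmx : max sn r ≤ c.cc := max_le (by linarith only [hsn, hcc, l5, s6, s5, s4, s2, s1]) (by linarith only [hR])
    obtain hI : Ip = 0 := by
      rcases hIp with ⟨hp, -⟩ | ⟨-, hI'⟩
      · linarith only [hp, hmx, hR, hcc, l5, s6, s5, s4, s2, hs]
      · exact hI'
    obtain hm : max sp 0 = 0 := max_eq_right (by linarith only [hmx, hR, hcc, l5, s6, s5, s4, s2, s1, hs])
    rw [hev, hε', hI, hm] at hD
    refine ⟨by linarith only [m2, hIn0, hΓk, hqk, l5, l1, s6, s5, hD], fun h0 => by linarith only [h0, hev, l5, s6, s5, s4, s2, s1], fun h1 => by linarith only [h1, hI], fun _ => ⟨by linarith only [hR], hI⟩⟩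
  · -- no event
    obtain hsg : c.e3 * (r - c.cc) ≤ max sn 0 := by
      obtain this : r - c.cc ≤ max sn 0 / c.e3 := by linarith only [hR]
      rw [le_div_iff₀ e0] at this; linarith only [this]
    rw [hev, mul_zero] at hD
    obtain her : c.e3 * (r - c.cc) ≤ c.e3 * c.lam := by
      apply mul_le_mul_of_nonneg_left _ e0.le; linarith only [hc1, hcc, l5, s6, s5, s4, s2, s1, hr']
    rcases hIp with ⟨hp, hI⟩ | ⟨hp, hI⟩
    · rcases le_total r sn with hle | hle
      · rw [max_eq_left hle] at hs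
        obtain hsn : 0 < sn := by linarith only [hle, hp, l5, s6, s5, s4, s2, hs]
        rw [hIn' (by linarith only [hle, hp, l5, s6, s5, s4, s2, s1, hs]), hI, max_eq_left hsn.le] at hD
        obtain hm : max sp 0 ≤ sn - (5 / 2 * (c.e3 * c.lam) - 3) :=
          max_le (by linarith only [hc1, l5, s6, s5, s4, s2, s1, hs, hr']) (by linarith only [hle, hp, hs])
        obtain hD2 : 2 * (c.e3 * c.lam) ≤ D := by linarith only [hm, hΓk, hqk, l5, l1, s6, s5, s4, s2, hD]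
        exact ⟨by linarith only [hm, hΓk, hqk, l5, l1, s6, s5, s4, s2, hD], fun _ => by linarith only [hm, her, hΓk, hqk, l5, l1, s6, s5, s4, s2, hD], fun _ _ => hD2, fun h0 => by linarith only [h0, hev, l5, s6, s5, s4, s2, s1]⟩
      · rw [max_eq_right hle] at hs
        obtain hr2 : 2 * (c.e3 * c.lam) ≤ r := by linarith only [hp, l5, s6, s5, s4, s2, hs]
        obtain hk0 := hk (by linarith only [hp, l5, s6, s5, s4, s2, hs])
        obtain hb : c.e3 ^ 2 * c.lam ≤ c.e3 * (r - c.cc) := by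
          obtain this : c.e3 * (c.e3 * c.lam) ≤ c.e3 * (r - c.cc) :=
            mul_le_mul_of_nonneg_left (by linarith only [hp, hcc, l5, s6, s5, s4, s2, hs]) e0.le
          linarith only [this, show c.e3 * (c.e3 * c.lam) = c.e3 ^ 2 * c.lam by ring]
        obtain hsn : 0 < sn := by
          by_contra hcon
          rw [max_eq_right (not_lt.1 hcon)] at hsg; linarith only [hb, hsg, l5, s6, s5, s4]
        rw [hk0, mul_zero] at hqk
        rw [hIn' (by linarith only [hsn, l5, s6, s5, s4, s2, s1]), hI] at hD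
        obtain hm : max sp 0 ≤ c.ε * c.lam + 5 := max_le (by linarith only [hc1, hs, hr']) (by linarith only [l5])
        exact ⟨by linarith only [hm, hb, hsg, hqk, l5, s6, s5, s4, hD], fun _ => by linarith only [hm, hb, hsg, hqk, l5, s6, s5, s4, hD], fun _ _ => by (rename_i zq0; linarith only [hs, s2, s4, s5, s6, l5, e0, e1, hp, zq0]), fun h0 => by linarith only [h0, hev, l5, s6, s5, s4, s2, s1]⟩
    · obtain hm : max sp 0 = 0 := max_eq_right (by linarith only [hp, l5, s6, s5, s4, s2, s1])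
      rw [hI, hm] at hD
      obtain hkI : c.Γ * k ≤ c.Γ * In := by
        by_cases hk0 : 0 < k
        · rw [hK hk0]; linarith only [hΓk]
        · nlinarith only [hIn0, hΓ, not_lt.1 hk0]
      obtain hD2 : max sn 0 ≤ D := by linarith only [hkI, hqk, hD]
      exact ⟨by linarith only [hkI, m2, hqk, hD], fun _ => by linarith only [hkI, hsg, m2, hqk, hD], fun h1 => by linarith only [h1, hI], fun h0 => by linarith only [h0, hev, l5, s6, s5, s4, s2, s1]⟩

open Classical in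
/-- bookkeeping of a short step -/
theorem NC.short {r k ev Ip Jn Jp D ch : ℝ}
    (hr : -1 ≤ r) (hr' : 2 * r ≤ c.lam + 2 * c.c1) (hk0 : 0 ≤ k) (hk1 : k ≤ 1) (hk : 1 ≤ r → k = 0)
    (hev : (ev = r ∧ c.cc ≤ r) ∨ ev = c.lam ∨ (ev = 0 ∧ (0 < k → Jn = 1)))
    (hJn : 0 ≤ Jn) (hJp : Jp = 0 ∨ (Jp = 1 ∧ Ip = 1))
    (hch : 0 ≤ 4 * ch / c.β) (hch' : k = 0 → 4 * c.lam ≤ 4 * ch / c.β)
    (H : 0 ≤ D ∧ (ev = 0 → c.e3 * (r - c.cc) ≤ 10 * D) ∧
      (Ip = 1 → r < 2 * (c.e3 * c.lam) → 2 * (c.e3 * c.lam) ≤ D) ∧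
      (ev = c.lam → r < c.cc ∧ Ip = 0)) :
    Tot c D (if c.cc ≤ r then r else 0) ev k Jn Jp (c.lam - r) ch 1 := by
  obtain ⟨hl, hΓ, s1, s2, s4, s5, s6, hC, -⟩ := h.sc
  obtain ⟨D0, D1, D3, D4⟩ := H
  have l1 := h.l1; have l5 := h.l5; have e0 := h.e0; have e1 := h.e1
  have hcc : c.cc = c.ε * c.lam / 20 := rfl
  have hc1 : c.c1 = c.ε * c.lam / 2 := rfl
  obtain hev0 : 0 ≤ ev := by rcases hev with h | h | h <;> linarith only [h, hcc, l5, s6, s5, s4, s2, s1]
  obtain ⟨d1, d2⟩ := h.dv D0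
  have d3 := (h.dv hev0).1
  obtain hC6 : 0 ≤ c.C6 * D := by
    have := h.C0; have := h.C1; unfold Cs.C6; (rename_i zq0; clear * - zq0 this D0; positivity)
  obtain hCD : D / c.e3 ^ 2 ≤ c.C0 * c.C1 * (D / c.e3 ^ 2) :=
      le_mul_of_one_le_left (by (clear * - D0 e0; positivity)) hC
  obtain hlJ : 0 ≤ c.lam * Jn := by (clear * - hl hJn; positivity)
  obtain hlk : c.lam * k ≤ c.lam := by nlinarith only [hk1, hl]
  obtain hD3 : Ip = 1 → r < 2 * (c.e3 * c.lam) → 2 * c.lam ≤ D / c.e3 := fun a b => by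
    rw [le_div_iff₀ e0]; linarith only [D3 a b]
  obtain hee : 0 ≤ c.e3 * ev := by (clear * - e0 hev0; positivity)
  refine ⟨D0, hev0, ?_, ?_, by linarith only [hC6, hc1, l5, s6, s5, s4, s2, s1, hr'], ?_, ?_⟩
  · split_ifs with hc
    · rcases hev with ⟨h1, -⟩ | h1 | ⟨h1, -⟩
      · linarith only [h1, d1, hcc, l5, D0]
      · linarith only [hr', s1, s2, s4, s5, s6, D0, l5, e0, e1, hcc, hc1, d1, h1, (D4 h1).1]
      · obtain this : r - c.cc ≤ 10 * D / c.e3 := by rw [le_div_iff₀ e0]; linarith only [D1 h1]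
        rw [mul_div_assoc] at this; linarith only [hev0, this]
    · linarith only [d1, hev0, hcc, l5, D0]
  · obtain P1 : c.lam * Jp ≤ ev / c.e3 / 2 + 10 * (D / c.e3 ^ 2) := by
      rcases hJp with h0 | ⟨h1, hI⟩
      · rw [h0]; linarith only [d3, d2, d1, hev0, D0]
      · rw [h1, mul_one]
        by_cases hlt : r < 2 * (c.e3 * c.lam)
        · linarith only [s1, s2, s4, s5, s6, l5, e0, e1, hev0, d2, d3, hD3 hI hlt]
        · push Not at hlt
          rcases hev with ⟨h1, -⟩ | h1 | ⟨h1, -⟩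
          · obtain this : 2 * c.lam ≤ ev / c.e3 := by rw [le_div_iff₀ e0]; linarith only [hlt, h1]
            linarith only [this, d2, d1, D0]
          · linarith only [h1, d3, d2, d1, l5, D0, s6, s5, s4, s2, s1]
          · obtain h2 : c.e3 * (c.e3 * c.lam) ≤ c.e3 * (r - c.cc) :=
              mul_le_mul_of_nonneg_left (by linarith only [hlt, hcc, l5, s6, s5, s4, s2]) e0.le
            obtain this : c.lam ≤ 10 * D / c.e3 ^ 2 := by
              rw [le_div_iff₀ (by positivity)]; linarith only [h2, D1 h1]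
            rw [mul_div_assoc] at this; linarith only [this, d3, hev0]
    obtain P2 : c.lam * k ≤ c.lam * Jn + ev / c.e3 / 2 := by
      rcases hk0.eq_or_lt with h0 | h0
      · rw [← h0]; linarith only [hlJ, d3, hev0]
      · rcases hev with ⟨-, h1⟩ | h1 | ⟨-, h1⟩
        · linarith only [h0, l5, hcc, h1, hk (by linarith only [h1, hcc, l5])]
        · linarith only [h1, hlk, hlJ, d3, l5, s6, s5, s4, s2, s1]
        · rw [h1 h0]; linarith only [hlk, d3, hev0]
    linarith only [P2, P1, hCD, d2, d1, D0]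
  · rcases hev with ⟨h1, -⟩ | h1 | ⟨h1, -⟩
    · linarith only [h1, hC6, hc1, l5, s6, s5, s4, s2, s1, hr']
    · linarith only [s1, s2, s4, s5, s6, l5, e0, e1, hcc, hC6, h1, (D4 h1).1]
    · linarith only [h1, hC6, hc1, l5, s6, s5, s4, s2, s1, hr']
  · obtain hJ1 : c.lam * Jp ≤ c.lam := by rcases hJp with h0 | ⟨h0, -⟩ <;> rw [h0] <;> linarith only [l5, s6, s5, s4, s2, s1]
    rcases hk0.eq_or_lt with h0 | h0
    · linarith only [hr, s1, s2, s4, s5, s6, D0, l5, e0, e1, hev0, d1, hlJ, hee, hJ1, hch' h0.symm]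
    · obtain hr1 : r < 1 := by
        by_contra hcon
        linarith only [h0, hk (not_lt.1 hcon)]
      rcases hev with ⟨-, h1⟩ | h1 | ⟨h1, h2⟩
      · linarith only [h1, hr1, hcc, l5]
      · obtain hJ0 : Jp = 0 := by
          rcases hJp with h0 | ⟨-, h0⟩
          · exact h0
          · linarith only [e0, e1, h0, (D4 h1).2]
        rw [hJ0, h1]; linarith only [hlJ, d1, l5, D0, s6, s5, s4, s2, hch, hr]
      · rw [h2 h0, h1]
        rcases hJp with h3 | ⟨h3, hI⟩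
        · rw [h3]; linarith only [d1, l5, D0, s6, s5, s4, s2, s1, hch, hr]
        · rw [h3]; linarith only [hr, hch, s1, s2, s4, s5, s6, l5, e0, e1, hr1, hD3 hI (by linarith only [hr1, l5, s6, s5, s4, s2])]

open Classical in
/-- bookkeeping of a block step -/
theorem NC.block {sn sp r g l nk F Qr qn qp ev In Ip Jn Jp D ch : ℝ}
    (hr : c.lam / 2 ≤ r) (hl1 : l ≤ qn) (hl2 : l ≤ 4 * c.C0 * r + 1) (hqn : 0 ≤ qn)
    (hg : (1 - 4 * c.ε) * r - c.C4 * l ≤ g) (hg' : g ≤ r + c.lam + 5)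
    (hM : c.M1 * (2 * r - 2 * c.lam) ≤ ch) (hnk : c.lam * nk ≤ c.CN * (c.C1 * l + 3 * c.ε * r))
    (hnk0 : 0 ≤ nk) (hch : ch = c.chK * nk + c.bl * F) (hF : 1 ≤ F) (hQ : c.Q / 2 ≤ Qr)
    (hq : qp ≤ max (qn - Qr * F) 0 + nk) (hs : sp ≤ max sn r - g + 5)
    (hIn : 0 ≤ In) (hIn' : 0 < sn → In = 1) (hIp : Ip ≤ 1) (hJn : 0 ≤ Jn) (hJp : Jp ≤ 1)
    (hev : (ev = r ∧ max sn 0 / c.e3 + c.cc ≤ r) ∨ (ev = 0 ∧ r < max sn 0 / c.e3 + c.cc))
    (hD : D = max sn 0 + c.Γ * qn + c.Γ * In + 10 * c.ε' * ev - (max sp 0 + c.Γ * qp + c.Γ * Ip)) :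
    Tot c D (if c.cc ≤ r then r else 0) ev nk Jn Jp g ch 1 := by
  obtain ⟨hl, hΓ, s1, s2, s4, s5, s6, hC, -⟩ := h.sc
  have l1 := h.l1; have l5 := h.l5; have e0 := h.e0; have e1 := h.e1; have l4 := h.l4
  have hC0 := h.C0; have hC1 := h.C1; have a0 := h.a0; have ε0 := h.ε0
  have hcc : c.cc = c.ε * c.lam / 20 := rfl
  have hε' : c.ε' = c.e3 ^ 4 := rfl
  have hC4 : c.C4 = 2 * c.C1 := rfl
  obtain hC6 : c.C6 = 10 * (c.C0 * c.C1) := by unfold Cs.C6; ring
  have hCN : c.CN = 1 / c.e3 ^ 2 := rfl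
  obtain hCN0 : 0 < c.CN := by rw [hCN]; positivity
  obtain r0 : 0 < r := by linarith only [l5, s6, s5, s4, s2, s1, hr]
  obtain ⟨t1, t4, t5, t7⟩ := h.rs r0.le
  obtain t0 : 0 < c.e3 ^ 4 * r := by (clear * - e0 r0; positivity)
  obtain t5' : 0 < c.ε * r := by positivity
  obtain t6 : c.e3 ^ 4 * c.lam ≤ 2 * (c.e3 ^ 4 * r) := by
    have := mul_le_mul_of_nonneg_left hr (pow_pos e0 4).le
    linarith only [this]
  have hCr : r ≤ c.C0 * c.C1 * r := le_mul_of_one_le_left r0.le hC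
  obtain hCl : c.C1 * l ≤ 4 * (c.C0 * c.C1 * r) + c.C1 := by
    obtain this := mul_le_mul_of_nonneg_left hl2 (by linarith only [hC1] : 0 ≤ c.C1)
    linarith only [this]
  obtain hnk1 : c.lam * nk ≤ c.CN * (6 * (c.C0 * c.C1 * r)) :=
    hnk.trans (mul_le_mul_of_nonneg_left (by linarith only [hCl, hCr, t5, t4, t1, l4, l5, s6, s5, s4, s2, s1, hr]) hCN0.le)
  obtain hΓnk : c.Γ * nk ≤ c.e3 ^ 4 * r := by
    have h1 := mul_le_mul_of_nonneg_left hnk1 hΓ
    have h2 := mul_le_mul_of_nonneg_right h.l2 r0.le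
    rw [hε'] at h2
    refine le_of_mul_le_mul_left ?_ hl
    linarith only [h1, h2]
  obtain hank : c.a * (c.chK * nk) ≤ r := by
    have h1 := mul_le_mul_of_nonneg_left hnk1 a0.le
    have h2 := mul_le_mul_of_nonneg_right h.l3 r0.le
    obtain h3 : 3 * (c.a * nk) ≤ r := by
      refine le_of_mul_le_mul_left ?_ hl
      linarith only [h1, h2]
    obtain h4 : 0 ≤ c.a * nk := by (clear * - a0 hnk0; positivity)
    have := mul_le_mul_of_nonneg_right h.k2 h4
    linarith only [h3, this]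
  have hbl : c.bl = c.β * c.lam := rfl
  obtain hβ0 : 0 < c.β := by linarith only [e0, e1, h.β2]
  obtain hbl0 : 0 < c.bl := by rw [hbl]; (clear * - hβ0 hl; positivity)
  have hblF : c.bl ≤ c.bl * F := le_mul_of_one_le_right hbl0.le hF
  obtain hQF : r ≤ Qr * F := by
    obtain h1 : c.a * (c.bl * F) / 2 ≤ Qr * F := by
      obtain this := mul_le_mul_of_nonneg_right hQ (by linarith only [hF] : 0 ≤ F)
      unfold Cs.Q at this; linarith only [this]
    rcases le_total r (2 * c.lam) with hc | hc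
    · have h2 := mul_le_mul_of_nonneg_left hblF a0.le
      have h3 := mul_le_mul_of_nonneg_right h.β1 hl.le
      rw [hbl] at h2 h1; linarith only [h3, h2, hc, h1, l5, s6, s5, s4, s2, s1]
    · have h2 := mul_le_mul_of_nonneg_left hM a0.le
      obtain h3 := mul_le_mul_of_nonneg_right h.M1 (by linarith only [hc, l5, s6, s5, s4, s2, s1] : 0 ≤ 2 * r - 2 * c.lam)
      rw [hch] at h2; linarith only [h3, h2, hc, h1, hank, l5, s6, s5, s4, s2, s1]
  obtain hX : 4 * c.lam ≤ 4 * ch / c.β := by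
    rw [le_div_iff₀ hβ0, hch]
    obtain this : 0 ≤ c.chK * nk := mul_nonneg (by linarith only [e0, e1, h.k1]) hnk0
    linarith only [this, hblF, hbl]
  have m1 := le_max_left sn 0
  have m2 := le_max_right sn 0
  have hΓI : c.Γ * Ip ≤ c.Γ := mul_le_of_le_one_right hΓ hIp
  obtain hΓI' : 0 ≤ c.Γ * In := by (clear * - hΓ hIn; positivity)
  have hΓq := mul_le_mul_of_nonneg_left hq hΓ
  rw [mul_add] at hΓq
  obtain hev0 : 0 ≤ ev := by rcases hev with h | h <;> linarith only [hr, s1, s2, s4, s5, s6, l5, e0, e1, h.1]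
  obtain hevr : ev ≤ r := by rcases hev with h | h <;> linarith only [hr, s1, s2, s4, s5, s6, l5, e0, e1, h.1]
  obtain hεev : 0 ≤ c.e3 ^ 4 * ev := by (clear * - e0 hev0; positivity)
  obtain hlJ : 0 ≤ c.lam * Jn := by (clear * - hl hJn; positivity)
  have hlJ' : c.lam * Jp ≤ c.lam := mul_le_of_le_one_right hl.le hJp
  obtain hee : 0 ≤ c.e3 * ev := by (clear * - e0 hev0; positivity)
  obtain hsr : (if c.cc ≤ r then r else 0) = r := if_pos (by linarith only [hcc, l5, s6, s5, s4, s2, s1, hr])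
  rw [hsr]
  rw [hε'] at hD
  obtain hmsr : max sn r ≤ max sn 0 + r := max_le (by linarith only [m1, l5, s6, s5, s4, s2, s1, hr]) (by linarith only [m2])
  by_cases hgood : c.C4 * qn ≤ c.e3 ^ 4 * r
  · obtain hC4l : c.C4 * l ≤ c.e3 ^ 4 * r :=
      (mul_le_mul_of_nonneg_left hl1 (by rw [hC4]; linarith only [hC1])).trans hgood
    obtain hg1 : r - 2 * (c.e3 ^ 4 * r) ≤ g := by linarith only [hC4l, t0, t5, hg]
    obtain hmq : c.Γ * max (qn - Qr * F) 0 ≤ c.Γ * qn :=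
      mul_le_mul_of_nonneg_left (max_le (by linarith only [hQF, l5, s6, s5, s4, s2, s1, hr]) hqn) hΓ
    obtain key : 0 ≤ D ∧ r ≤ ev + 10 * (D / c.e3) := by
      rcases hev with ⟨h1, h2⟩ | ⟨h1, h2⟩
      · obtain hm : max sp 0 ≤ max sn 0 + 2 * (c.e3 ^ 4 * r) + 5 := by
          refine max_le ?_ (by linarith only [m2, t0])
          rcases le_total sn r with h3 | h3
          · rw [max_eq_right h3] at hs; linarith only [hC4l, m2, t0, t5, hs, hg]
          · rw [max_eq_left h3] at hs; linarith only [hC4l, m1, t0, t5, l5, s6, s5, s4, s2, s1, hs, hg, hr]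
        obtain hD0 : 0 ≤ D := by rw [h1] at hD; linarith only [hm, hmq, hΓq, hΓI', hΓI, hΓnk, t6, l5, l1, s6, s5, hD]
        have := (h.dv hD0).1
        exact ⟨hD0, by linarith only [this, hD0, h1]⟩
      · obtain hsg : c.e3 * (r - c.cc) ≤ max sn 0 := by
          obtain this : r - c.cc ≤ max sn 0 / c.e3 := by linarith only [h2]
          rw [le_div_iff₀ e0] at this; linarith only [this]
        obtain hb : c.e3 * (9 / 10 * r) ≤ c.e3 * (r - c.cc) :=
          mul_le_mul_of_nonneg_left (by linarith only [hcc, l5, s6, s5, s4, s2, s1, hr]) e0.le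
        obtain hsn : 0 < sn := by
          by_contra hcon
          rw [max_eq_right (not_lt.1 hcon)] at hsg; linarith only [hb, hsg, t0, t4]
        obtain hm : max sp 0 ≤ max sn 0 - 8 / 10 * (c.e3 * r) + 5 := by
          refine max_le ?_ (by linarith only [hb, hsg, t6, t4, l5, s6, s5])
          rcases le_total sn r with h3 | h3
          · rw [max_eq_right h3] at hs; linarith only [hb, hsg, hC4l, t6, t5, t4, l5, s6, s5, hs, hg]
          · rw [max_eq_left h3] at hs; linarith only [hC4l, m1, t5, t4, t1, l5, s6, s5, s4, s2, s1, hs, hg, hr]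
        obtain hD1 : c.e3 * r ≤ 2 * D := by rw [h1, hIn' hsn] at hD; linarith only [hm, hmq, hΓq, hΓI, hΓnk, t6, t4, l5, s6, s5, hD]
        obtain hD2 : r ≤ 2 * D / c.e3 := by rw [le_div_iff₀ e0]; linarith only [hm, hmq, hεev, hΓq, hΓI', hΓI, hΓnk, t6, t4, l5, l1, s6, s5, hD]
        rw [mul_div_assoc] at hD2
        exact ⟨by linarith only [hm, hmq, hεev, hΓq, hΓI', hΓI, hΓnk, t6, t4, l5, l1, s6, s5, hD], by linarith only [hD2, hev0, l5, s6, s5, s4, s2, s1, hr]⟩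
    obtain ⟨D0, D1⟩ := key
    obtain ⟨d1, d2⟩ := h.dv D0
    have d3 := (h.dv hev0).1
    obtain hC6D : 0 ≤ c.C6 * D := by rw [hC6]; (clear * - hC0 hC1 D0; positivity)
    obtain hCD : D / c.e3 ^ 2 ≤ c.C0 * c.C1 * (D / c.e3 ^ 2) :=
      le_mul_of_one_le_left (by (clear * - D0 e0; positivity)) hC
    obtain hnk2 : c.lam * nk ≤ r := by
      obtain h1 : c.CN * (c.C1 * l + 3 * c.ε * r) ≤ c.CN * (c.e3 ^ 4 * r) :=
        mul_le_mul_of_nonneg_left (by rw [hC4] at hC4l; linarith only [hC4l, t0, t5]) hCN0.le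
      obtain h2 : c.CN * (c.e3 ^ 4 * r) = c.e3 * (c.e3 * r) := by rw [hCN]; field_simp
      linarith only [h2, h1, t7, hnk]
    exact ⟨D0, hev0, by linarith only [D1, hcc, l5], by linarith only [hnk2, hCD, d3, d2, D1, hlJ', hlJ, hevr, l5, s6, s5, s4, s2, s1, hr], by linarith only [hC6D, hC4l, t5, t4, t1, l5, s6, s5, s4, s2, s1, hg, hr], by linarith only [hC6D, hC4l, hevr, t5, t4, t1, l5, s6, s5, s4, s2, s1, hg, hr], by linarith only [D1, hee, hlJ', hlJ, hevr, hX, l5, s6, s5, s4, s2, s1, hg']⟩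
  · push Not at hgood
    obtain hC60 : 0 ≤ c.C6 + 3 := by rw [hC6]; linarith only [hC]
    obtain hΓe : c.Γ * c.e3 ^ 4 = (c.C6 + 3) * c.C4 := by unfold Cs.Γ Cs.ε'; field_simp
    obtain hΓ1 : (c.C6 + 3) * r ≤ c.Γ * qn := by
      refine le_of_mul_le_mul_left ?_ (pow_pos e0 4)
      have := mul_le_mul_of_nonneg_left hgood.le hC60
      calc c.e3 ^ 4 * ((c.C6 + 3) * r) = (c.C6 + 3) * (c.e3 ^ 4 * r) := by ring
        _ ≤ (c.C6 + 3) * (c.C4 * qn) := this
        _ = c.Γ * c.e3 ^ 4 * qn := by rw [hΓe]; ring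
        _ = _ := by ring
    obtain hΓ2 : (c.C6 + 3) * r ≤ c.Γ * (Qr * F) := by
      obtain h1 : c.Γ * (c.e3 ^ 4 * r) ≤ c.Γ * (Qr * F) := mul_le_mul_of_nonneg_left (by linarith only [hQF, t4, t1, l5, s6, s5, s4, s2, s1, hr]) hΓ
      obtain h2 : (c.C6 + 3) * r * 1 ≤ (c.C6 + 3) * r * c.C4 :=
        mul_le_mul_of_nonneg_left (by linarith only [hC4, hC1]) (by (clear * - hC60 r0; positivity))
      obtain h3 : c.Γ * (c.e3 ^ 4 * r) = (c.C6 + 3) * r * c.C4 := by
        rw [← mul_assoc, hΓe]; ring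
      linarith only [h3, h2, h1]
    obtain hmq : c.Γ * max (qn - Qr * F) 0 ≤ c.Γ * qn - (c.C6 + 3) * r := by
      rcases le_total (qn - Qr * F) 0 with h3 | h3
      · rw [max_eq_right h3]; linarith only [hΓ1]
      · rw [max_eq_left h3]; linarith only [hΓ2]
    obtain hg1 : -(9 * (c.C0 * c.C1 * r)) ≤ g - r / 2 := by rw [hC4] at hg; linarith only [hCl, hCr, t5, t4, t1, l4, l5, s6, s5, s4, s2, s1, hg, hr]
    obtain hm : max sp 0 ≤ max sn 0 + 10 * (c.C0 * c.C1 * r) := max_le (by linarith only [hg1, hmsr, hCr, l5, s6, s5, s4, s2, s1, hs, hr]) (by linarith only [m2, hCr, l5, s6, s5, s4, s2, s1, hr])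
    obtain D1 : r ≤ D := by rw [hC6] at hmq; linarith only [hm, hmq, hεev, hΓq, hΓI', hΓI, hΓnk, t4, t1, l5, l1, s6, s5, s4, s2, s1, hD, hr]
    obtain D0 : 0 ≤ D := by linarith only [D1, l5, s6, s5, s4, s2, s1, hr]
    obtain ⟨d1, d2⟩ := h.dv D0
    have d3 := (h.dv hev0).1
    obtain hCD : D / c.e3 ^ 2 ≤ c.C0 * c.C1 * (D / c.e3 ^ 2) :=
      le_mul_of_one_le_left (by positivity) hC
    obtain hCD' : c.C0 * c.C1 * r ≤ c.C0 * c.C1 * D := mul_le_mul_of_nonneg_left D1 (by linarith only [hC])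
    obtain hnk2 : c.lam * nk ≤ 6 * (c.C0 * c.C1 * (D / c.e3 ^ 2)) := by
      obtain h1 : c.CN * (6 * (c.C0 * c.C1 * r)) ≤ c.CN * (6 * (c.C0 * c.C1 * D)) :=
        mul_le_mul_of_nonneg_left (by linarith only [hCD']) hCN0.le
      obtain h2 : c.CN * (6 * (c.C0 * c.C1 * D)) = 6 * (c.C0 * c.C1 * (D / c.e3 ^ 2)) := by
        rw [hCN]; ring
      linarith only [h2, h1, hnk1]
    refine ⟨D0, hev0, by linarith only [d1, D1, hev0, hcc, l5, s6, s5, s4, s2, s1, hr], by linarith only [hnk2, hCD, d3, d2, d1, D1, hlJ', hlJ, hev0, l5, s6, s5, s4, s2, s1, hr], ?_, ?_, by linarith only [d1, D1, hee, hlJ', hlJ, hev0, hX, l5, s6, s5, s4, s2, s1, hg', hr]⟩ <;> rw [hC6] <;> linarith only [hCD', hg1, hCr, l5, s6, s5, s4, s2, s1, hr, hevr]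

end

open Classical in
/-- the prepayment indicator -/
def II (c : Cs) (S : Sq) (ξ : ℤ → ℝ) (s n : ℤ) : ℝ :=
  if -(1 - 5 * c.e3) * c.lam < S.sig c ξ s n then 1 else 0
open Classical in
/-- indicator of a possible uncharged K-step -/
def JJ (c : Cs) (S : Sq) (ξ : ℤ → ℝ) (s n : ℤ) : ℝ :=
  if -(1 - 5 * c.e3) * c.lam < S.sig c ξ s n ∧ dP (S.X n) < 4 / 100 then 1 else 0
/-- the potential -/
def Phi (c : Cs) (S : Sq) (ξ : ℤ → ℝ) (s : ℤ) (Qr : ℝ) (s0 n : ℤ) : ℝ :=
  S.sg c ξ s n + c.Γ * S.qu Qr s0 n + c.Γ * II c S ξ s n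

theorem NK_one (S : Sq) (n : ℤ) : S.NK n (n + 1) = S.kk (n + 1) := by
  obtain this : Ioc n (n + 1) = {n + 1} := by ext x; simp only [mem_Ioc, mem_singleton]; omega
  simp [Sq.NK, this]

theorem NK_mem (S : Sq) {i j : ℤ} (h : i ≤ j) : 0 ≤ S.NK i j ∧ S.NK i j ≤ ((j - i : ℤ) : ℝ) := by
  refine ⟨sum_nonneg fun l _ => (S.kk_mem l).1, ?_⟩
  have h1 : S.NK i j ≤ ∑ _l ∈ Ioc i j, (1 : ℝ) := sum_le_sum fun l _ => (S.kk_mem l).2
  rw [sum_const, Int.card_Ioc, nsmul_eq_mul, mul_one] at h1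
  obtain h2 : (((j - i).toNat : ℤ) : ℝ) = ((j - i : ℤ) : ℝ) := by
    rw [Int.toNat_of_nonneg (by omega)]
  rw [← h2]; exact_mod_cast h1

theorem sig_le {c : Cs} {S : Sq} {ξ : ℤ → ℝ} {s n p : ℤ} {r : ℝ} (hn : ξ n ≠ 0)
    (h : S.AA c ξ s p ≤ S.AA c ξ s n + 100 * |ξ n| * Real.exp r) :
    S.sig c ξ s p ≤ max (S.sig c ξ s n) r - (Real.log |ξ p| - Real.log |ξ n|) + 5 := by
  have h0 : 0 < |ξ n| := abs_pos.2 hn
  have a1 := S.one_le_AA c ξ s n
  have a2 := S.one_le_AA c ξ s p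
  set m := max (S.sig c ξ s n) r + Real.log |ξ n| with hm
  obtain b1 : S.AA c ξ s n ≤ Real.exp m := by
    rw [← Real.log_le_iff_le_exp (by linarith only [a1])]
    have := le_max_left (S.sig c ξ s n) r
    unfold Sq.sig Sq.WW at this hm; linarith only [hm, this]
  obtain b2 : |ξ n| * Real.exp r ≤ Real.exp m := by
    rw [hm, Real.exp_add, Real.exp_log h0, mul_comm]
    exact mul_le_mul_of_nonneg_right (Real.exp_le_exp.2 (le_max_right _ _)) h0.le
  obtain b3 : (101 : ℝ) ≤ Real.exp 5 := by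
    obtain h1 : Real.exp 5 = Real.exp 1 ^ 5 := by rw [← Real.exp_nat_mul]; norm_num
    obtain h2 : (2.7 : ℝ) ^ 5 ≤ Real.exp 1 ^ 5 :=
      pow_le_pow_left₀ (by norm_num) (by linarith only [Real.exp_one_gt_d9]) 5
    rw [h1]; linarith only [h2, show (101 : ℝ) ≤ 2.7 ^ 5 by norm_num]
  obtain b4 : S.AA c ξ s p ≤ Real.exp (m + 5) := by
    rw [Real.exp_add]
    have := mul_le_mul_of_nonneg_left b3 (Real.exp_pos m).le
    linarith only [this, b2, b1, h]
  rw [← Real.log_le_iff_le_exp (by linarith only [a2])] at b4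
  unfold Sq.sig Sq.WW at *; linarith only [hm, b4]

open Classical in
theorem step_tot {c : Cs} (h : NC c) {Ex : ExT} {S : Sq} {ξ : ℤ → ℝ} {s n p s0 : ℤ} {r Qr : ℝ}
    (hs0 : s0 ≤ n) (hQ : c.Q / 2 ≤ Qr) (hn : ξ n ≠ 0) (hp : ξ p ≠ 0) (st : S.Step c Ex ξ s n r p)
    (hl : S.load c n (2 * r) ≤ S.qu Qr s0 n) :
    Tot c (Phi c S ξ s Qr s0 n + 10 * c.ε' * S.ev c ξ s n r - Phi c S ξ s Qr s0 p)
      (if c.cc ≤ r then r else 0) (S.ev c ξ s n r) (S.NK n p) (JJ c S ξ s n) (JJ c S ξ s p)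
      (Real.log |ξ p| - Real.log |ξ n|) (S.chi c n p) 1 := by
  obtain ⟨hl0, hΓ, s1, s2, s4, s5, s6, hC, hK⟩ := h.sc
  have l1 := h.l1; have l5 := h.l5; have e0 := h.e0; have a0 := h.a0
  obtain hβ0 : 0 < c.β := by linarith only [h.β2]
  have hbl : c.bl = c.β * c.lam := rfl
  have hcc : c.cc = c.ε * c.lam / 20 := rfl
  obtain hQ0 : 0 ≤ c.Q := by unfold Cs.Q; rw [hbl]; (clear * - a0 hβ0 hl0; positivity)
  obtain hQr : 0 ≤ Qr := by linarith only [hQ, hQ0]
  have hsig := sig_le hn st.A_hi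
  have hq := S.qu_step hQr hs0 st.lt.le
  have hq0 := S.qu_nonneg Qr s0 n
  have hchi := S.chi_eq c st.lt.le
  have hNK := NK_mem S st.lt.le
  obtain hJn : 0 ≤ JJ c S ξ s n := by unfold JJ; split_ifs <;> norm_num
  obtain hT : -(1 - 5 * c.e3) * c.lam = -c.lam + 5 * (c.e3 * c.lam) := by ring
  obtain hsg0 : 0 ≤ max (S.sig c ξ s n) 0 / c.e3 := by (clear * - e0; positivity)
  rcases st.kind with ⟨rfl, hr⟩ | ⟨hr, g1, g2, g3, g4⟩
  · obtain hg : Real.log |ξ (n + 1)| - Real.log |ξ n| = c.lam - r := by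
      have h1 := st.hr
      have h2 := abs_pos.2 hn
      have h3 := abs_pos.2 hp
      unfold Sq.dep at h1
      rw [S.rho_one, abs_div, Real.log_div h.L0.ne' (by (clear * - hp hn; positivity)),
        Real.log_div h3.ne' h2.ne'] at h1
      unfold Cs.lam; linarith only [h1]
    rw [NK_one] at hq hchi hNK ⊢
    rw [hg] at hsig ⊢
    have hk := S.kk_mem (n + 1)
    obtain hz : 0 < S.kk (n + 1) → dP (S.X n) < 4 / 100 := fun h0 => by
      by_contra hcon
      obtain this : S.kk (n + 1) = 0 := S.kk_eq_zero.2 (Or.inr (by simpa using not_lt.1 hcon))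
      linarith only [h0, this]
    obtain hone : ((n + 1 - n : ℤ) : ℝ) = 1 := by push_cast; ring
    rw [hone] at hq hchi
    obtain hq' : S.qu Qr s0 (n + 1) ≤ S.qu Qr s0 n + S.kk (n + 1) := by
      obtain this : 0 ≤ Qr * (1 - S.kk (n + 1)) := mul_nonneg hQr (by linarith only [hk.2])
      obtain this : max (S.qu Qr s0 n - Qr * (1 - S.kk (n + 1))) 0 ≤ S.qu Qr s0 n :=
        max_le (by linarith only [this]) hq0
      linarith only [hq, this]
    obtain hev : (S.ev c ξ s n r = r ∧ max (S.sig c ξ s n) 0 / c.e3 + c.cc ≤ r) ∨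
        (S.ev c ξ s n r = c.lam ∧ r < max (S.sig c ξ s n) 0 / c.e3 + c.cc ∧
          S.sig c ξ s n ≤ -(1 - 5 * c.e3) * c.lam) ∨
        (S.ev c ξ s n r = 0 ∧ r < max (S.sig c ξ s n) 0 / c.e3 + c.cc ∧
          (0 < S.kk (n + 1) → -(1 - 5 * c.e3) * c.lam < S.sig c ξ s n)) := by
      unfold Sq.ev Sq.sg
      split_ifs with h1 h2
      · exact Or.inl ⟨rfl, h1⟩
      · exact Or.inr (Or.inl ⟨rfl, not_le.1 h1, h2.2.2⟩)
      · refine Or.inr (Or.inr ⟨rfl, not_le.1 h1, fun h0 => ?_⟩)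
        by_contra hcon
        exact h2 ⟨st.r_lo, by linarith only [hz h0], not_lt.1 hcon⟩
    refine h.short (Ip := II c S ξ s (n + 1)) st.r_lo hr hk.1 hk.2 st.kz ?_ hJn ?_ ?_ ?_
      (h.short_core (sn := S.sig c ξ s n) (sp := S.sig c ξ s (n + 1)) (In := II c S ξ s n)
        hr (by linarith only [hsig]) hk.2 st.kz hq' ?_ ?_ ?_ ?_ rfl)
    · rcases hev with h1 | h1 | h1
      · exact Or.inl ⟨h1.1, by linarith only [hsg0, h1.2]⟩
      · exact Or.inr (Or.inl h1.1)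
      · exact Or.inr (Or.inr ⟨h1.1, fun h0 => if_pos ⟨h1.2.2 h0, hz h0⟩⟩)
    · unfold JJ II
      split_ifs with h1 h2
      · exact Or.inr ⟨rfl, rfl⟩
      · exact absurd h1.1 h2
      · exact Or.inl rfl
      · exact Or.inl rfl
    · obtain this : 0 ≤ S.chi c n (n + 1) := by
        rw [hchi, hbl]
        obtain this := h.k1; have := hk.1; have : 0 ≤ 1 - S.kk (n + 1) := by linarith only [hk.2]
        (rename_i zq1 zq0; clear * - zq1 zq0 hβ0 hl0 this; positivity)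
      (clear * - this hβ0; positivity)
    · intro h0
      rw [hchi, h0, hbl, le_div_iff₀ hβ0]; linarith only []
    · unfold II
      split_ifs with h1
      · exact Or.inl ⟨h1, rfl⟩
      · exact Or.inr rfl
    · exact fun h1 => if_pos h1
    · unfold II
      split_ifs with h1
      · exact Or.inl ⟨h1, rfl⟩
      · exact Or.inr ⟨not_lt.1 h1, rfl⟩
    · rcases hev with h1 | h1 | h1
      · exact Or.inl h1
      · exact Or.inr (Or.inl h1)
      · exact Or.inr (Or.inr ⟨h1.1, h1.2.1, fun h0 => if_pos (h1.2.2 h0)⟩)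
  · obtain hr1 : 1 ≤ r := by linarith only [hr, l5, s6, s5, s4, s2, s1]
    obtain hF : 1 ≤ ((p - n : ℤ) : ℝ) - S.NK n p := by
      obtain h1 := S.NK_add (show n ≤ n + 1 by omega) (show n + 1 ≤ p from st.lt)
      have h2 := (NK_mem S (show n + 1 ≤ p from st.lt)).2
      rw [NK_one, st.kz hr1] at h1
      push_cast at h2 ⊢; linarith only [h1, h2]
    obtain hld := S.load_le c h.k1 hK (by linarith only [h.C0]) hQ0 n (2 * r)
    rw [max_eq_left (by linarith only [hr, l5, s6, s5, s4, s2, s1])] at hld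
    refine h.block (sn := S.sig c ξ s n) (sp := S.sig c ξ s p) (In := II c S ξ s n)
      (Ip := II c S ξ s p) hr hl (by linarith only [hld]) hq0 g1 g2 g3 g4 hNK.1 hchi hF hQ hq hsig
      ?_ ?_ ?_ hJn ?_ ?_ rfl
    · unfold II; split_ifs <;> norm_num
    · exact fun h1 => if_pos (by linarith only [h1, l5, s6, s5, s4, s2, s1])
    · unfold II; split_ifs <;> norm_num
    · unfold JJ; split_ifs <;> norm_num
    · unfold Sq.ev Sq.sg
      split_ifs with h1 h2
      · exact Or.inl ⟨rfl, h1⟩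
      · rw [max_eq_right (by linarith only [s1, s2, s4, s5, s6, l5, h2.2.2]), zero_div] at h1
        exact absurd (by linarith only [hr, hcc, l5, s6, s5, s4, s2, s1]) h1
      · exact Or.inr ⟨rfl, not_le.1 h1⟩

theorem chain_tot {c : Cs} (h : NC c) {Ex : ExT} {S : Sq} {ξ : ℤ → ℝ} {s m0 m s0 : ℤ} {Qr : ℝ}
    {Ls : List (ℤ × ℝ)} (hs0 : s0 ≤ m0) (hQ : c.Q / 2 ≤ Qr) (ch : S.Chain c Ex ξ s m0 Ls m)
    (hl : ∀ x ∈ Ls, S.load c x.1 (2 * x.2) ≤ S.qu Qr s0 x.1) :
    m0 ≤ m ∧ ξ m ≠ 0 ∧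
    Tot c (Phi c S ξ s Qr s0 m0 + 10 * c.ε' * S.evs c ξ s Ls - Phi c S ξ s Qr s0 m)
      (Sq.sumR c Ls) (S.evs c ξ s Ls) (S.NK m0 m) (JJ c S ξ s m0) (JJ c S ξ s m)
      (Real.log |ξ m| - Real.log |ξ m0|) (S.chi c m0 m) Ls.length := by
  induction ch with
  | nil hR =>
    refine ⟨le_rfl, hR.ne, ?_⟩
    have := Tot.zero c (JJ c S ξ s m0)
    simpa [Sq.sumR, Sq.evs, Sq.NK, Sq.chi] using this
  | @cons Ls n r p _ st hR ih =>
    obtain ⟨i1, i2, i3⟩ := ih fun x hx => hl x (List.mem_cons_of_mem _ hx)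
    refine ⟨i1.trans st.lt.le, hR.ne, ?_⟩
    have := i3.add (step_tot h (hs0.trans i1) hQ i2 hR.ne st (hl (n, r) List.mem_cons_self))
    rw [← S.NK_add i1 st.lt.le, ← S.chi_add c i1 st.lt.le] at this
    convert this using 1
    · simp only [Sq.evs, List.map_cons, List.sum_cons]; ring
    · simp only [Sq.sumR, List.map_cons, List.sum_cons]; ring
    · simp only [Sq.evs, List.map_cons, List.sum_cons]; ring
    · ring
    · simp

theorem num_of {c : Cs} (h : NC c) : NUM_s c := by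
  intro Ex S ξ s m0 Ls m Qr s0 B0 _ _ _ hs0 hQ _ ch hl hB
  obtain ⟨-, -, D0, E0, T2, T3, T4, T5, T6⟩ := chain_tot h hs0 hQ ch hl
  obtain ⟨hl0, hΓ, -, -, -, -, -, hC, -⟩ := h.sc
  have e0 := h.e0; have e1 := h.e1; have e2 := h.e2
  obtain hI : ∀ n, 0 ≤ c.Γ * II c S ξ s n ∧ c.Γ * II c S ξ s n ≤ c.Γ := fun n => by
    unfold II; split_ifs <;> simp [hΓ]
  obtain hJ : ∀ n, 0 ≤ c.lam * JJ c S ξ s n := fun n => by
    unfold JJ; split_ifs <;> simp [hl0.le]
  obtain hJ0 : c.lam * JJ c S ξ s m0 ≤ if dP (S.X m0) < 4 / 100 then c.lam else 0 := by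
    clear * - hl0
    unfold JJ; split_ifs with h1 h2 h2 <;> simp_all [hl0.le]
  obtain hJ0' : 2 * c.lam * JJ c S ξ s m0 ≤ if dP (S.X m0) < 4 / 100 then 2 * c.lam else 0 := by
    clear * - hJ0
    split_ifs at hJ0 ⊢ <;> linarith only [hJ0]
  have hP : ∀ n, 0 ≤ S.sg c ξ s n + c.Γ * S.qu Qr s0 n := fun n =>
    add_nonneg (le_max_right _ _) (mul_nonneg hΓ (S.qu_nonneg _ _ _))
  set E := S.evs c ξ s Ls
  set G := Real.log |ξ m| - Real.log |ξ m0|
  set D := Phi c S ξ s Qr s0 m0 + 10 * c.ε' * E - Phi c S ξ s Qr s0 m with hD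
  have hε' : c.ε' = c.e3 ^ 4 := rfl
  obtain hC6 : c.C6 = 10 * (c.C0 * c.C1) := by unfold Cs.C6; ring
  have hCN : c.CN = 1 / c.e3 ^ 2 := rfl
  obtain hB0 : 0 ≤ B0 := by linarith only [hB, hΓ, hP m0]
  obtain hDB : D ≤ B0 + 10 * c.e3 ^ 4 * E := by
    unfold Phi at hD; rw [hε'] at hD; linarith only [hB, hD, hP m, (hI m).1, (hI m0).2]
  obtain ⟨r1, r4, -, r7⟩ := h.rs E0
  have k : ∀ x, 0 ≤ x → c.e3 * x ≤ x / 100 := fun x hx => (h.rs hx).1
  obtain p2 := k (c.e3 * E) (by (clear * - e0 E0; positivity))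
  obtain p3 := k (c.e3 ^ 2 * E) (by (clear * - e0 E0; positivity))
  obtain q1 : D / c.e3 ≤ B0 / c.e3 + 10 * (c.e3 ^ 3 * E) := by
    refine (div_le_div_of_nonneg_right hDB e0.le).trans_eq ?_
    field_simp
  obtain q2 : D / c.e3 ^ 2 ≤ B0 / c.e3 ^ 2 + 10 * (c.e3 ^ 2 * E) := by
    refine (div_le_div_of_nonneg_right hDB (by positivity)).trans_eq ?_
    field_simp
  obtain q3 := mul_le_mul_of_nonneg_left q2 (by linarith only [hC] : 0 ≤ c.C0 * c.C1)
  obtain q4 := mul_le_mul_of_nonneg_left hDB (by linarith only [hC] : 0 ≤ c.C0 * c.C1)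
  obtain q5 := mul_le_mul_of_nonneg_right e2 (by positivity : 0 ≤ c.e3 * E)
  obtain q6 := mul_le_mul_of_nonneg_right e2 (by positivity : 0 ≤ c.e3 ^ 3 * E)
  obtain ⟨d1, d2⟩ := h.dv E0
  obtain ⟨d3, d4⟩ := h.dv hB0
  obtain q7 : 0 ≤ c.C0 * c.C1 * B0 := by (clear * - hC hB0; positivity)
  obtain q8 : 0 ≤ c.C0 * c.C1 * (B0 / c.e3 ^ 2) := by (clear * - hC hB0 e0; positivity)
  obtain q9 : 0 ≤ c.lam * Ls.length := by (clear * - hl0; positivity)
  obtain u1 : 20 / c.e3 * B0 = 20 * (B0 / c.e3) := by ring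
  obtain u2 : c.CN / 2 * E = E / c.e3 ^ 2 / 2 := by rw [hCN]; ring
  obtain u3 : 100 * c.CN * c.C0 * c.C1 * B0 = 100 * (c.C0 * c.C1 * (B0 / c.e3 ^ 2)) := by
    rw [hCN]; ring
  obtain u4 : 100 / c.e3 ^ 2 * B0 = 100 * (B0 / c.e3 ^ 2) := by ring
  obtain p0 : 0 ≤ c.e3 * E := by (clear * - e0 E0; positivity)
  rw [hC6] at T4 T5
  rw [u1, u2, u3, u4, hC6]
  refine ⟨?_, by linarith only [d3, q1, p3, r7, hB0, T2], by linarith only [hJ0, E0, T3, r1, q3, q5, d1, d2, q8, hJ m], by linarith only [q7, q6, q4, p3, r7, T5, T4, E0], by linarith only [q7, q6, q4, p3, r7, T5, E0], by linarith only [hJ0', D0, T6, hB0, hDB, r4, p2, p3, q1, d3, d4, hJ m]⟩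
  unfold Phi at hD; linarith only [hB, D0, hD, (hI m).1, (hI m0).2]

end NUM

theorem num : Hier NUM_s := NUM.hier_NC.mono fun _ h => NUM.num_of h

end
end Pool.Agent.MP_9cbfe4_an

end

/-! ### Part SRB3 -/

section

/-! A measurable partition into pieces of unstable manifolds with absolutely continuous
conditional measures. -/

namespace Pool.Agent.MP_9cbfe4_an.SRB3

open MeasureTheory ProbabilityTheory Filter Topology Set

variable (μ : Measure P2) [IsProbabilityMeasure μ]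

lemma cut {φ : P2 → ℝ} (hφ : Measurable φ) {η : ℝ} (hη : 0 < η) {M : ℕ} (hM : 0 < M) :
    ∃ (c : P2 → ℤ) (B : Set P2), Measurable c ∧ μ.real B ≤ 1 / M ∧
      (∀ x y, c x = c y → |φ x - φ y| ≤ 2 * M * η) ∧
      ∀ x y, y ∉ B → |φ x - φ y| < η → c x = c y := by
  let B : ℕ → Set P2 := fun j => ⋃ i : ℤ, {y | |φ y - (2 * j * η + 2 * M * η * i)| < η}
  obtain hB : ∀ j, MeasurableSet (B j) := fun j => .iUnion fun i =>
    measurableSet_lt (by fun_prop) measurable_const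
  obtain hM' : (0 : ℝ) < M := by exact_mod_cast hM
  obtain hd : (Finset.range M : Set ℕ).PairwiseDisjoint B := by
    intro j hj j' hj' hne
    refine Set.disjoint_left.2 fun y h1 h2 => hne ?_
    obtain ⟨i, h1⟩ := mem_iUnion.1 h1
    obtain ⟨i', h2⟩ := mem_iUnion.1 h2
    simp only [mem_ofPred_eq, abs_lt, Finset.coe_range, mem_Iio] at h1 h2 hj hj'
    obtain a1 : ((j - j' + M * (i - i') : ℤ) : ℝ) < 1 := by
      push_cast
      refine lt_of_mul_lt_mul_left ?_ hη.le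
      linarith only [h1.1, h2.2]
    obtain a2 : (-1 : ℝ) < ((j - j' + M * (i - i') : ℤ) : ℝ) := by
      push_cast
      refine lt_of_mul_lt_mul_left ?_ hη.le
      linarith only [h1.2, h2.1]
    obtain a3 : (j - j' + M * (i - i') : ℤ) < 1 := by exact_mod_cast a1
    obtain a4 : (-1 : ℤ) < (j - j' + M * (i - i') : ℤ) := by exact_mod_cast a2
    obtain a5 : (j - j' : ℤ) = 0 := Int.eq_zero_of_abs_lt_dvd (m := M) ⟨i' - i, by linarith only [a4, a3]⟩
      (abs_lt.2 ⟨by omega, by omega⟩)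
    omega
  obtain ⟨j, -, hj⟩ := Finset.exists_le_of_sum_le (f := fun j => μ.real (B j))
    (g := fun _ => (1 / M : ℝ)) (Finset.nonempty_range_iff.2 hM.ne') (by
      rw [← measureReal_biUnion_finset hd fun j _ => hB j]
      simp [hM'.ne'])
  obtain hp : 0 < 2 * M * η := by positivity
  refine ⟨fun y => ⌊(φ y - 2 * j * η) / (2 * M * η)⌋, B j, by fun_prop, hj, fun x y h => ?_,
    fun x y hy h => ?_⟩
  · have := Int.abs_sub_lt_one_of_floor_eq_floor h
    rw [← sub_div, abs_div, abs_of_pos hp, div_lt_one hp] at this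
    simpa using this.le
  · set i := ⌊(φ y - 2 * j * η) / (2 * M * η)⌋
    have h1 : (i : ℝ) ≤ _ := Int.floor_le _
    have h2 : _ < (i : ℝ) + 1 := Int.lt_floor_add_one _
    rw [le_div_iff₀ hp] at h1
    rw [div_lt_iff₀ hp] at h2
    simp only [B, mem_iUnion, mem_ofPred_eq, not_exists, not_lt] at hy
    have h3 := hy i
    have h4 := hy (i + 1)
    rw [abs_of_nonneg (by linarith only [h1])] at h3
    rw [abs_of_nonpos (by push_cast; linarith only [h2])] at h4
    push_cast at h4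
    rw [abs_lt] at h
    exact Int.floor_eq_iff.2 ⟨(le_div_iff₀ hp).2 (by linarith only [h3, h.1]),
      (div_lt_iff₀ hp).2 (by linarith only [h4, h.2])⟩

lemma tail_countable {α : Type} [Countable α] (σ : ℕ → α) :
    {τ : ℕ → α | ∀ᶠ n in atTop, τ n = σ n}.Countable := by
  refine (countable_range fun (l : List α) n => (l[n]?).getD (σ n)).mono fun τ hτ => ?_
  obtain ⟨N, hN⟩ := eventually_atTop.1 hτ
  refine ⟨(List.range N).map τ, funext fun n => ?_⟩
  rcases lt_or_ge n N with h | h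
  · simp [h]
  · simp [h, hN n h]

lemma grid {g : P2 → P2} (hg : Measurable g) {C a : ℝ} (hC : 0 < C) (ha : 0 < a) :
    ∃ π : P2 → ℝ, Measurable π ∧ (∀ x, π ⁻¹' {π x} ⊆ Wu g x) ∧ ∃ G, (∀ᵐ x ∂μ, x ∈ G) ∧
      ∀ x, (π '' (G ∩ {y | ∀ n : ℕ, dist (g^[n] x) (g^[n] y) < C * Real.exp (-(2 * a) * n)})
        ).Countable := by
  have hM : ∀ n : ℕ, 0 < ⌈Real.exp (a * n)⌉₊ := fun n => Nat.ceil_pos.2 (Real.exp_pos _)
  obtain hη : ∀ n : ℕ, 0 < C * Real.exp (-(2 * a) * n) := fun n => by positivity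
  choose c1 B1 m1 b1 s1 t1 using fun n : ℕ =>
    cut μ (measurable_fst.comp (hg.iterate n)) (hη n) (hM n)
  choose c2 B2 m2 b2 s2 t2 using fun n : ℕ =>
    cut μ (measurable_snd.comp (hg.iterate n)) (hη n) (hM n)
  have he := measurableEmbedding_embeddingReal (ℕ → ℤ × ℤ)
  obtain bc : ∀ B : ℕ → Set P2, (∀ n : ℕ, μ.real (B n) ≤ 1 / (⌈Real.exp (a * n)⌉₊ : ℝ)) →
      ∀ᵐ x ∂μ, ∀ᶠ n in atTop, x ∉ B n := by
    intro B hB
    refine ae_eventually_notMem (ne_top_of_le_ne_top (Summable.tsum_ofReal_ne_top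
      (Real.summable_exp_nat_mul_iff.2 (neg_lt_zero.2 ha))) (ENNReal.tsum_le_tsum fun n => ?_))
    rw [← ofReal_measureReal]
    refine ENNReal.ofReal_le_ofReal ((hB n).trans ?_)
    rw [show (n : ℝ) * -a = -(a * n) by ring, Real.exp_neg, one_div]
    exact inv_anti₀ (Real.exp_pos _) (Nat.le_ceil _)
  refine ⟨fun x => embeddingReal _ fun n => (c1 n x, c2 n x),
    he.measurable.comp (measurable_pi_lambda _ fun n => (m1 n).prodMk (m2 n)), fun x y hy => ?_,
    {x | (∀ᶠ n in atTop, x ∉ B1 n) ∧ ∀ᶠ n in atTop, x ∉ B2 n}, (bc B1 b1).and (bc B2 b2),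
    fun x => ?_⟩
  · have h := he.injective hy
    refine ⟨4 * C, a, ha, fun n => ?_⟩
    have h1 := congrArg Prod.fst (congrFun h n)
    have h2 := congrArg Prod.snd (congrFun h n)
    obtain h3 : (⌈Real.exp (a * n)⌉₊ : ℝ) ≤ 2 * Real.exp (a * n) := by
      linarith only [ha, Nat.ceil_lt_add_one (Real.exp_pos (a * n)).le,
        Real.one_le_exp (show 0 ≤ a * n by (clear * - ha; positivity))]
    obtain h4 : Real.exp (a * n) * Real.exp (-(2 * a) * n) = Real.exp (-a * n) := by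
      rw [← Real.exp_add]; congr 1; ring
    obtain h5 : 2 * (⌈Real.exp (a * n)⌉₊ : ℝ) * (C * Real.exp (-(2 * a) * n))
        ≤ 4 * C * Real.exp (-a * n) := by
      rw [← h4]; nlinarith only [h3, hη n]
    rw [Prod.dist_eq]
    exact max_le ((s1 n x y h1.symm).trans h5) ((s2 n x y h2.symm).trans h5)
  · refine ((tail_countable fun n => (c1 n x, c2 n x)).image (embeddingReal _)).mono ?_
    rintro _ ⟨y, ⟨⟨h1, h2⟩, h3⟩, rfl⟩
    refine mem_image_of_mem _ ((h1.and h2).mono fun n hn => ?_)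
    have h4 := h3 n
    rw [Prod.dist_eq, max_lt_iff] at h4
    exact Prod.ext (t1 n x y hn.1 h4.1).symm (t2 n x y hn.2 h4.2).symm

lemma disint {π : P2 → ℝ} (hπ : Measurable π) : ∃ κ : Kernel ℝ P2, IsMarkovKernel κ ∧
    κ ∘ₘ (μ.map π) = μ ∧ ∀ᵐ y ∂(μ.map π), κ y (π ⁻¹' {y})ᶜ = 0 := by
  refine ⟨condDistrib id π μ, inferInstance, ?_, ?_⟩
  · rw [condDistrib_comp_map hπ.aemeasurable aemeasurable_id, Measure.map_id]
  · obtain hs : MeasurableSet {p : ℝ × P2 | π p.2 = p.1} :=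
      measurableSet_eq_fun (by fun_prop) measurable_fst
    obtain this := (Measure.ae_compProd_iff (μ := μ.map π) (κ := condDistrib id π μ) hs).1 (by
      rw [compProd_map_condDistrib aemeasurable_id, ae_map_iff (by fun_prop) hs]
      exact .of_forall fun _ => rfl)
    exact this

variable {μ}

omit [IsProbabilityMeasure μ] in
/-- a set off the singular set with null fibres is null -/
lemma null_of_fib {π : P2 → ℝ} (hπ : Measurable π) {κ : Kernel ℝ P2} [IsMarkovKernel κ]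
    (hc : κ ∘ₘ (μ.map π) = μ) (hf : ∀ᵐ y ∂(μ.map π), κ y (π ⁻¹' {y})ᶜ = 0) {N : Set P2}
    (hN : MeasurableSet N) (h1 : ∀ z ∈ N, z ∉ SRB2.Inf (κ.comap π hπ))
    (h2 : ∀ y, μH[1] (N ∩ π ⁻¹' {y}) = 0) : μ N = 0 := by
  rw [← hc, Measure.bind_apply hN κ.aemeasurable, lintegral_eq_zero_iff (κ.measurable_coe hN)]
  filter_upwards [hf] with y hy
  refine measure_mono_null (fun z hz => ?_)
    (measure_union_null hy (SRB2.null_off_Inf (κ y) (h2 y)))
  by_cases h : π z = y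
  · subst h
    exact .inr ⟨⟨hz, rfl⟩, h1 z hz⟩
  · exact .inl h

omit [IsProbabilityMeasure μ] in
/-- if the singular set is null the conditional measures are absolutely continuous -/
lemma ac_of_null {π : P2 → ℝ} (hπ : Measurable π) {κ : Kernel ℝ P2} [IsMarkovKernel κ]
    (hc : κ ∘ₘ (μ.map π) = μ) (hf : ∀ᵐ y ∂(μ.map π), κ y (π ⁻¹' {y})ᶜ = 0)
    (h : μ (SRB2.Inf (κ.comap π hπ)) = 0) :
    ∀ᵐ y ∂(μ.map π), κ y ≪ (μH[1] : Measure P2).restrict (π ⁻¹' {y}) := by
  have hA := SRB2.meas_Inf (κ.comap π hπ)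
  rw [← hc, Measure.bind_apply hA κ.aemeasurable,
    lintegral_eq_zero_iff (κ.measurable_coe hA)] at h
  filter_upwards [h, hf] with y hy1 hy2
  refine Measure.AbsolutelyContinuous.mk fun E _ hE => ?_
  rw [Measure.restrict_apply' (hπ (measurableSet_singleton y))] at hE
  refine measure_mono_null (fun z hz => ?_)
    (measure_union_null (measure_union_null hy1 hy2) (SRB2.null_off_Inf (κ y) hE))
  by_cases h1 : π z = y
  · subst h1
    by_cases h2 : z ∈ SRB2.Inf (κ.comap π hπ)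
    · exact .inl (.inl h2)
    · exact .inr ⟨⟨hz, rfl⟩, h2⟩
  · exact .inl (.inr h1)

/-- the part of the singular set in countably many fibres has length zero -/
lemma len_zero {π : P2 → ℝ} (hπ : Measurable π) (κ : Kernel ℝ P2) [IsMarkovKernel κ]
    {S : Set P2} (h : (π '' S).Countable) : μH[1] (SRB2.Inf (κ.comap π hπ) ∩ S) = 0 :=
  measure_mono_null (t := ⋃ y ∈ π '' S, SRB2.Inf fun _ => κ y)
    (fun _ hu => mem_biUnion (mem_image_of_mem π hu.2) hu.1)
    ((measure_biUnion_null_iff h).2 fun y _ => SRB2.Inf_null (κ y))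

theorem exists_part {g : P2 → P2} (hg : Measurable g)
    (h : ∀ A, MeasurableSet A → (∀ x, μH[1] (A ∩ Wu g x) = 0) → μ A = 0) :
    ∃ (π : P2 → ℝ) (κ : Kernel ℝ P2), (Measurable π ∧ IsMarkovKernel κ ∧ κ ∘ₘ (μ.map π) = μ ∧
      ∀ᵐ y ∂(μ.map π), κ y (π ⁻¹' {y})ᶜ = 0) ∧ (∀ x, π ⁻¹' {π x} ⊆ Wu g x) ∧
      ∀ᵐ y ∂(μ.map π), κ y ≪ (μH[1] : Measure P2).restrict (π ⁻¹' {y}) := by
  classical
  choose p pm pw G hG pc using fun k : ℕ => grid μ hg (C := k + 1) (a := 1 / (k + 1))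
    (by positivity) (by (clear * -; positivity))
  choose q qm qc qf using fun k => disint μ (pm k)
  let A : ℕ → Set P2 := fun k => SRB2.Inf ((q k).comap (p k) (pm k))
  have hA : ∀ k, MeasurableSet (A k) := fun k => SRB2.meas_Inf _
  have hI : MeasurableSet (⋂ k, A k) := .iInter hA
  obtain h0 : μ (⋂ k, A k) = 0 := by
    obtain ⟨T, hTs, hTm, hT0⟩ := exists_measurable_superset_of_null (ae_iff.1 (ae_all_iff.2 hG))
    refine measure_mono_null (subset_sdiff_union _ T) (measure_union_null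
      (h _ (hI.diff hTm) fun x => ?_) hT0)
    refine measure_mono_null (fun z hz => ?_)
      (measure_iUnion_null fun k => len_zero (pm k) (q k) (pc k x))
    obtain ⟨⟨h1, h2⟩, C, c, hc, h3⟩ := hz
    obtain ⟨k, hk⟩ := exists_nat_gt (max C (2 / c))
    refine mem_iUnion.2 ⟨k, mem_iInter.1 h1 k, by_contra fun h4 => h2 (hTs fun h5 => h4 (h5 k)),
      fun n => (h3 n).trans_lt ?_⟩
    obtain h5 : 2 * (1 / (k + 1 : ℝ)) ≤ c := by
      have := (div_lt_iff₀ hc).1 ((le_max_right _ _).trans_lt hk)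
      rw [mul_one_div, div_le_iff₀ (by (clear * -; positivity))]
      linarith only [hc, this]
    obtain h6 : Real.exp (-c * n) ≤ Real.exp (-(2 * (1 / (k + 1 : ℝ))) * n) :=
      Real.exp_le_exp.2 (mul_le_mul_of_nonneg_right (by linarith only [h5]) n.cast_nonneg)
    refine lt_of_lt_of_le (mul_lt_mul_of_pos_right ?_ (Real.exp_pos _))
      (mul_le_mul_of_nonneg_left h6 (by positivity))
    linarith only [hk, le_max_left C (2 / c)]
  obtain ex : ∀ x, ∃ k, x ∈ (A k)ᶜ ∪ ⋂ k, A k := fun x => by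
    by_cases hx : x ∈ ⋂ k, A k
    · exact ⟨0, .inr hx⟩
    · obtain ⟨k, hk⟩ := not_forall.1 (mem_iInter.not.1 hx)
      exact ⟨k, .inl hk⟩
  have hk : Measurable fun x => Nat.find (ex x) :=
    measurable_find ex fun k => (hA k).compl.union hI
  have he := measurableEmbedding_embeddingReal (ℕ × ℝ)
  have hπ : Measurable fun x => embeddingReal (ℕ × ℝ) (Nat.find (ex x), p (Nat.find (ex x)) x) :=
    he.measurable.comp (hk.prodMk (Measurable.find (p := fun k x => x ∈ (A k)ᶜ ∪ ⋂ k, A k) pm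
      (fun k => (hA k).compl.union hI) ex))
  obtain ⟨κ, hκ, hc, hf⟩ := disint μ hπ
  refine ⟨_, κ, ⟨hπ, hκ, hc, hf⟩, fun x y hy => ?_, ac_of_null hπ hc hf ?_⟩
  · obtain ⟨e1, e2⟩ := Prod.ext_iff.1 (he.injective hy)
    simp only at e1 e2
    rw [e1] at e2
    exact pw _ x e2
  · set N := SRB2.Inf (κ.comap _ hπ)
    have hN : MeasurableSet N := SRB2.meas_Inf _
    refine measure_mono_null (t := (⋂ k, A k) ∪ ⋃ k, (N ∩ {x | Nat.find (ex x) = k}) \ A k)
      (fun z hz => ?_) (measure_union_null h0 (measure_iUnion_null fun k => ?_))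
    · exact (Nat.find_spec (ex z)).elim (fun h => .inr (mem_iUnion.2 ⟨_, ⟨hz, rfl⟩, h⟩)) .inl
    · refine null_of_fib (pm k) (qc k) (qf k)
        ((hN.inter (hk (measurableSet_singleton k))).diff (hA k)) (fun z hz => hz.2) fun y => ?_
      refine measure_mono_null (fun z hz => ?_) (SRB2.Inf_null (κ (embeddingReal _ (k, y))))
      obtain ⟨⟨⟨h1, rfl⟩, -⟩, rfl⟩ := hz
      exact h1

end Pool.Agent.MP_9cbfe4_an.SRB3

end

/-! ### Part Lya -/

section

/-! Two-sided exponential bounds give true Lyapunov exponents. -/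

namespace Pool.Agent.MP_9cbfe4_an

open MeasureTheory Filter Topology Set
open scoped ContDiff

noncomputable section
namespace Lya

/-- the area form -/
def om (x y : P2) : ℝ := x.1 * y.2 - x.2 * y.1
def dt (A : P2 →L[ℝ] P2) : ℝ := om (A (1, 0)) (A (0, 1))
def nn (A : P2 →L[ℝ] P2) : ℝ := max ‖A (1, 0)‖ ‖A (0, 1)‖

lemma app (A : P2 →L[ℝ] P2) (x : P2) : A x = x.1 • A (1, 0) + x.2 • A (0, 1) := by
  rw [← map_smul, ← map_smul, ← map_add]; congr 1; ext <;> simp

lemma om_map (A : P2 →L[ℝ] P2) (x y : P2) : om (A x) (A y) = dt A * om x y := by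
  rw [app A x, app A y]; simp [om, dt]; ring

lemma om_le (x y : P2) : |om x y| ≤ 2 * (‖x‖ * ‖y‖) := by
  have h1 : |x.1| ≤ ‖x‖ := norm_fst_le x
  have h2 : |x.2| ≤ ‖x‖ := norm_snd_le x
  have h3 : |y.1| ≤ ‖y‖ := norm_fst_le y
  have h4 : |y.2| ≤ ‖y‖ := norm_snd_le y
  obtain a : |x.1 * y.2| ≤ ‖x‖ * ‖y‖ := by rw [abs_mul]; gcongr
  obtain b : |x.2 * y.1| ≤ ‖x‖ * ‖y‖ := by rw [abs_mul]; gcongr
  have := abs_sub (x.1 * y.2) (x.2 * y.1)
  unfold om; linarith only [a, b, this]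

/-- `v` is within `|om w v| / ‖w‖` of the line through `w` -/
lemma near_line {w : P2} (hw : w ≠ 0) (v : P2) : ∃ t : ℝ, ‖v - t • w‖ ≤ |om w v| / ‖w‖ := by
  have hp : 0 < ‖w‖ := norm_pos_iff.2 hw
  rcases le_total |w.1| |w.2| with h | h
  · obtain e : ‖w‖ = |w.2| := by rw [Prod.norm_def]; exact max_eq_right h
    obtain h2 : w.2 ≠ 0 := by rw [e] at hp; exact abs_pos.1 hp
    refine ⟨v.2 / w.2, le_of_eq ?_⟩
    obtain this : v - (v.2 / w.2) • w = (-(om w v / w.2), 0) := by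
      ext <;> simp [om] <;> field_simp <;> ring
    rw [this, e, Prod.norm_def]; simp; positivity
  · obtain e : ‖w‖ = |w.1| := by rw [Prod.norm_def]; exact max_eq_left h
    obtain h2 : w.1 ≠ 0 := by rw [e] at hp; exact abs_pos.1 hp
    refine ⟨v.1 / w.1, le_of_eq ?_⟩
    obtain this : v - (v.1 / w.1) • w = (0, om w v / w.1) := by
      ext <;> simp [om] <;> (field_simp; try ring)
    rw [this, e, Prod.norm_def]; simp; (clear * - h2; positivity)

lemma nn_lim {M : ℕ → P2 →L[ℝ] P2} {v w : P2} (hv : ∀ n, M n v ≠ 0)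
    (h : Tendsto (fun n => ‖M n w‖ / ‖M n v‖) atTop (𝓝 0)) :
    Tendsto (fun n => nn (M n) * |om w v| / ‖M n v‖) atTop (𝓝 ‖w‖) := by
  obtain key : ∀ x : P2, Tendsto (fun n => ‖M n x‖ * |om w v| / ‖M n v‖) atTop (𝓝 |om w x|) := by
    intro x
    obtain e : om w v • x = om w x • v + om x v • w := by ext <;> simp [om] <;> ring
    rw [tendsto_iff_norm_sub_tendsto_zero]
    refine squeeze_zero (fun _ => norm_nonneg _) (fun n => ?_) (by simpa using h.const_mul |om x v|)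
    have hp : 0 < ‖M n v‖ := norm_pos_iff.2 (hv n)
    obtain e1 : ‖M n x‖ * |om w v| = ‖om w x • M n v + om x v • M n w‖ := by
      rw [← map_smul, ← map_smul, ← map_add, ← e, map_smul, norm_smul, mul_comm]; rfl
    have e2 := abs_norm_sub_norm_le (om w x • M n v + om x v • M n w) (om w x • M n v)
    rw [add_sub_cancel_left, norm_smul, norm_smul, Real.norm_eq_abs, Real.norm_eq_abs] at e2
    rw [e1, Real.norm_eq_abs, div_sub' hp.ne', abs_div, abs_of_pos hp, ← mul_div_assoc,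
      mul_comm ‖M n v‖]
    exact div_le_div_of_nonneg_right e2 hp.le
  have h3 := (key (1, 0)).max (key (0, 1))
  obtain e3 : max |om w (1, 0)| |om w (0, 1)| = ‖w‖ := by
    rw [Prod.norm_def, max_comm]; simp [om]
  rw [e3] at h3
  refine h3.congr fun n => ?_
  rw [nn, max_div_div_right (norm_nonneg _), max_mul_of_nonneg _ _ (abs_nonneg _)]

/-- a sequence driven by `p` from above and bounded by `p` from below has the rate of `p` -/
lemma rate {u p : ℕ → ℝ} {K e C c : ℝ} (hp : ∀ n, 0 < p n) (hK : 0 ≤ K)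
    (h1 : ∀ n, u (n + 1) ≤ u n + K * p n) (h2 : ∀ n, p n ≤ 2 * u n)
    (h3 : Tendsto (fun n : ℕ => Real.log (p n) / n) atTop (𝓝 e)) (hC : 0 < C) (hc : 0 < c)
    (h4 : ∀ n : ℕ, C * Real.exp (c * n) ≤ u n) :
    Tendsto (fun n : ℕ => Real.log (u n) / n) atTop (𝓝 e) := by
  obtain hu : ∀ n, 0 < u n := fun n => by linarith only [hp n, h2 n]
  have h0 : ∀ x : ℝ, Tendsto (fun n : ℕ => x / n) atTop (𝓝 0) :=
    tendsto_const_div_atTop_nhds_zero_nat
  obtain up : ∀ m, 0 < m → e < m → ∃ D, ∀ n : ℕ, 1 ≤ n → Real.log (u n) / n ≤ D / n + m := by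
    intro m hm hem
    obtain ⟨N, hN⟩ := eventually_atTop.1 (h3.eventually (gt_mem_nhds hem))
    obtain ⟨P, hP0, hP⟩ : ∃ P, 0 < P ∧ ∀ n : ℕ, p n ≤ P * Real.exp (m * n) := by
      refine ⟨1 + ∑ k ∈ Finset.range (N + 1), p k, ?_, fun n => ?_⟩
      · have := Finset.sum_nonneg (s := Finset.range (N + 1)) fun k _ => (hp k).le
        linarith only [this]
      have hs := Finset.sum_nonneg (s := Finset.range (N + 1)) fun k _ => (hp k).le
      obtain he : 1 ≤ Real.exp (m * n) := Real.one_le_exp (by (clear * - hm; positivity))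
      rcases le_or_gt n N with hn | hn
      · have := Finset.single_le_sum (f := p) (fun k _ => (hp k).le)
          (Finset.mem_range.2 (Nat.lt_succ_of_le hn))
        nlinarith only [he, this, hs]
      · have h5 := hN n hn.le
        obtain hn0 : (0 : ℝ) < n := by exact_mod_cast (Nat.zero_le N).trans_lt hn
        rw [div_lt_iff₀ hn0, Real.log_lt_iff_lt_exp (hp n)] at h5
        nlinarith only [hs, h5, he]
    have hm1 : m + 1 ≤ Real.exp m := Real.add_one_le_exp m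
    obtain hD : ∀ n : ℕ, u n ≤ (u 0 + K * P / m) * Real.exp (m * n) := by
      intro n
      induction n with
      | zero =>
        obtain this : 0 ≤ K * P / m := by (clear * - hK hP0 hm; positivity)
        simpa using this
      | succ n ih =>
        obtain e1 : Real.exp (m * ((n + 1 : ℕ) : ℝ)) = Real.exp (m * n) * Real.exp m := by
          rw [← Real.exp_add]; push_cast; ring_nf
        have hE := Real.exp_pos (m * n)
        have a1 : K * p n ≤ K * (P * Real.exp (m * n)) := mul_le_mul_of_nonneg_left (hP n) hK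
        obtain a2 : K * P ≤ (u 0 + K * P / m) * m := by
          rw [add_mul, div_mul_cancel₀ _ hm.ne']; nlinarith only [hm, hu 0]
        obtain a3 : 0 < u 0 + K * P / m := by have := hu 0; (clear * - this hK hP0 hm; positivity)
        obtain a4 : (u 0 + K * P / m) * Real.exp (m * n) * (m + 1) ≤
            (u 0 + K * P / m) * Real.exp (m * n) * Real.exp m :=
          mul_le_mul_of_nonneg_left hm1 (by positivity)
        have a5 : K * P * Real.exp (m * n) ≤ (u 0 + K * P / m) * m * Real.exp (m * n) :=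
          mul_le_mul_of_nonneg_right a2 hE.le
        rw [e1]; linarith only [ih, a1, a4, a5, h1 n]
    refine ⟨Real.log (u 0 + K * P / m), fun n hn => ?_⟩
    obtain hn0 : (0 : ℝ) < n := by exact_mod_cast hn
    obtain a3 : 0 < u 0 + K * P / m := by have := hu 0; (clear * - this hK hP0 hm; positivity)
    have := Real.log_le_log (hu n) (hD n)
    rw [Real.log_mul a3.ne' (Real.exp_pos _).ne', Real.log_exp] at this
    rw [div_add' _ _ _ hn0.ne']
    exact div_le_div_of_nonneg_right this hn0.le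
  obtain lo : ∀ n : ℕ, 1 ≤ n → Real.log C / n + c ≤ Real.log (u n) / n := by
    intro n hn
    obtain hn0 : (0 : ℝ) < n := by exact_mod_cast hn
    obtain this := Real.log_le_log (by positivity) (h4 n)
    rw [Real.log_mul hC.ne' (Real.exp_pos _).ne', Real.log_exp] at this
    rw [div_add' _ _ _ hn0.ne']
    exact div_le_div_of_nonneg_right this hn0.le
  obtain he : 0 < e := by
    by_contra hne
    obtain ⟨D, hD⟩ := up (c / 2) (by linarith only [hc]) (by linarith only [hc, hne])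
    have := le_of_tendsto_of_tendsto ((h0 (Real.log C)).add_const c) ((h0 D).add_const (c / 2))
      ((eventually_ge_atTop 1).mono fun n hn => (lo n hn).trans (hD n hn))
    linarith only [hc, this]
  rw [tendsto_order]
  refine ⟨fun a ha => ?_, fun a ha => ?_⟩
  · have h5 := h3.sub (h0 (Real.log 2))
    rw [sub_zero] at h5
    filter_upwards [h5.eventually (lt_mem_nhds ha)] with n hn
    refine hn.trans_le ?_
    have := Real.log_le_log (hp n) (h2 n)
    rw [Real.log_mul two_ne_zero (hu n).ne'] at this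
    rw [← sub_div]
    exact div_le_div_of_nonneg_right (by linarith only [this]) (Nat.cast_nonneg n)
  · obtain ⟨D, hD⟩ := up ((e + a) / 2) (by linarith only [he, ha]) (by linarith only [ha])
    filter_upwards [(h0 D).eventually (gt_mem_nhds (show (0 : ℝ) < (a - e) / 2 by linarith only [ha])),
      eventually_ge_atTop 1] with n hn hn1
    linarith only [hn, hD n hn1]

/-- Birkhoff averages along orbits on which the function is bounded, in telescoped form -/
lemma birk {μ : Measure P2} [IsFiniteMeasure μ] {f : P2 → P2} (hf : MeasurePreserving f μ μ)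
    {φ : P2 → ℝ} (hφ : Measurable φ) (B : ℝ) :
    ∀ᵐ z ∂μ, ∀ x : ℕ → ℝ, (∀ n, x (n + 1) - x n = φ (f^[n] z)) → (∀ n, |x (n + 1) - x n| ≤ B) →
      ∃ l, Tendsto (fun n : ℕ => x n / n) atTop (𝓝 l) := by
  obtain hm : Measurable fun z => max (-|B|) (min |B| (φ z)) := by fun_prop
  obtain hb : ∀ z, |max (-|B|) (min |B| (φ z))| ≤ |B| := fun z =>
    abs_le.2 ⟨le_max_left _ _, max_le (by linarith only [abs_nonneg B]) (min_le_left _ _)⟩
  filter_upwards [Lib.Birkhoff.ae_tendsto hf hm hb] with z hz x h1 h2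
  obtain ⟨l, hl⟩ := hz
  obtain e : ∀ n, birkhoffSum f (fun z => max (-|B|) (min |B| (φ z))) n z = x n - x 0 := by
    intro n
    induction n with
    | zero => simp
    | succ n ih =>
      have h3 := abs_le.1 ((h2 n).trans (le_abs_self B))
      rw [birkhoffSum_succ, ih, ← h1 n, min_eq_right h3.2, max_eq_right h3.1]; ring
  refine ⟨l + 0, (hl.add (tendsto_const_div_atTop_nhds_zero_nat (x 0))).congr fun n => ?_⟩
  rw [e, ← add_div, sub_add_cancel]

lemma sign {x : ℕ → ℝ} {l C c : ℝ} (h : Tendsto (fun n : ℕ => x n / n) atTop (𝓝 l))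
    (hx : ∀ n : ℕ, C + c * n ≤ x n) : c ≤ l := by
  have h0 := (tendsto_const_div_atTop_nhds_zero_nat C).add_const c
  rw [zero_add] at h0
  refine le_of_tendsto_of_tendsto h0 h ((eventually_ge_atTop 1).mono fun n hn => ?_)
  obtain hn0 : (0 : ℝ) < n := by exact_mod_cast hn
  show C / n + c ≤ x n / n
  rw [div_add' _ _ _ hn0.ne']
  exact div_le_div_of_nonneg_right (hx n) hn0.le

lemma seq {A : ℕ → P2 →L[ℝ] P2} {v w : ℕ → P2} {B C c C' c' l d : ℝ} (hB0 : 0 ≤ B)
    (hv : ∀ n, v (n + 1) = A n (v n)) (hw : ∀ n, w (n + 1) = A n (w n))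
    (hB : ∀ n x, ‖A n x‖ ≤ B * ‖x‖) (hB' : ∀ n x, ‖x‖ ≤ B * ‖A n x‖) (w0 : ∀ n, w n ≠ 0)
    (o0 : ∀ n, om (w n) (v n) ≠ 0) (hC : 0 < C) (hc : 0 < c) (hc' : 0 < c')
    (gv : ∀ n : ℕ, C * Real.exp (c * n) ≤ ‖v n‖) (gw : ∀ n : ℕ, ‖w n‖ ≤ C' * Real.exp (-c' * n))
    (hl : Tendsto (fun n : ℕ => Real.log (|om (w n) (v n)| / ‖w n‖) / n) atTop (𝓝 l))
    (hd : Tendsto (fun n : ℕ => Real.log |om (w n) (v n)| / n) atTop (𝓝 d)) :
    (∃ l > 0, Tendsto (fun n : ℕ => Real.log ‖v n‖ / n) atTop (𝓝 l)) ∧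
      ∃ l < 0, Tendsto (fun n : ℕ => Real.log ‖w n‖ / n) atTop (𝓝 l) := by
  have wp : ∀ n, 0 < ‖w n‖ := fun n => norm_pos_iff.2 (w0 n)
  obtain vp : ∀ n, 0 < ‖v n‖ := fun n => lt_of_lt_of_le (by positivity) (gv n)
  have op : ∀ n, 0 < |om (w n) (v n)| := fun n => abs_pos.2 (o0 n)
  obtain hC' : 0 < C' := by simpa using (wp 0).trans_le (gw 0)
  obtain h1 : Tendsto (fun n : ℕ => Real.log ‖w n‖ / n) atTop (𝓝 (d - l)) :=
    (hd.sub hl).congr fun n => by rw [Real.log_div (op n).ne' (wp n).ne']; ring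
  obtain h2 : Tendsto (fun n : ℕ => Real.log (|om (w n) (v n)| / ‖w n‖ / ‖w n‖) / n) atTop
      (𝓝 (l - (d - l))) :=
    (hl.sub h1).congr fun n => by
      rw [Real.log_div (div_pos (op n) (wp n)).ne' (wp n).ne']; ring
  have h3 := rate (u := fun n => ‖v n‖ / ‖w n‖) (K := 1 + B ^ 2) (C := C / C') (c := c)
    (fun n => div_pos (div_pos (op n) (wp n)) (wp n)) (by positivity) (fun n => ?_) (fun n => ?_) h2
    (by positivity) hc (fun n => ?_)
  · obtain h4 : Tendsto (fun n : ℕ => Real.log ‖v n‖ / n) atTop (𝓝 (l - (d - l) + (d - l))) :=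
      (h3.add h1).congr fun n => by rw [Real.log_div (vp n).ne' (wp n).ne']; ring
    refine ⟨⟨_, hc.trans_le (sign (C := Real.log C) h4 fun n => ?_), h4⟩, d - l, ?_, h1⟩
    · obtain this := Real.log_le_log (by positivity) (gv n)
      rwa [Real.log_mul hC.ne' (Real.exp_pos _).ne', Real.log_exp] at this
    · obtain h5 : Tendsto (fun n : ℕ => -Real.log ‖w n‖ / n) atTop (𝓝 (-(d - l))) :=
        h1.neg.congr fun n => by ring
      obtain this := sign (C := -Real.log C') (c := c') h5 fun n => by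
        have := Real.log_le_log (wp n) (gw n)
        rw [Real.log_mul hC'.ne' (Real.exp_pos _).ne', Real.log_exp] at this
        linarith only [this]
      linarith only [hc', this]
  · obtain ⟨t, ht⟩ := near_line (w0 n) (v n)
    set q := |om (w n) (v n)| / ‖w n‖ with hq
    have hq0 : 0 ≤ q := (div_pos (op n) (wp n)).le
    obtain a1 : |t| ≤ ‖v n‖ / ‖w n‖ + q / ‖w n‖ := by
      rw [← add_div, le_div_iff₀ (wp n)]
      have := norm_sub_norm_le (t • w n) (v n)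
      rw [norm_sub_rev, norm_smul, Real.norm_eq_abs] at this
      linarith only [ht, this]
    obtain a2 : ‖v (n + 1)‖ ≤ |t| * ‖w (n + 1)‖ + B * q := by
      obtain e : v (n + 1) = t • w (n + 1) + A n (v n - t • w n) := by
        rw [hv, hw, map_sub, map_smul]; abel
      have := norm_add_le (t • w (n + 1)) (A n (v n - t • w n))
      rw [← e, norm_smul, Real.norm_eq_abs] at this
      linarith only [this, hB n (v n - t • w n), mul_le_mul_of_nonneg_left ht hB0]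
    obtain a3 : B * q ≤ B ^ 2 * (q / ‖w n‖) * ‖w (n + 1)‖ := by
      have h6 := hB' n (w n)
      rw [← hw] at h6
      have h7 : 0 ≤ B * (q / ‖w n‖) := mul_nonneg hB0 (div_nonneg hq0 (wp n).le)
      have := mul_le_mul_of_nonneg_left h6 h7
      rw [mul_assoc, div_mul_cancel₀ _ (wp n).ne'] at this
      linarith only [this]
    show ‖v (n + 1)‖ / ‖w (n + 1)‖ ≤ _
    rw [div_le_iff₀ (wp (n + 1))]
    linarith only [a2, a3, mul_le_mul_of_nonneg_right a1 (wp (n + 1)).le]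
  · show _ ≤ 2 * (‖v n‖ / ‖w n‖)
    rw [← mul_div_assoc]
    refine div_le_div_of_nonneg_right ?_ (wp n).le
    rw [div_le_iff₀ (wp n)]
    linarith only [om_le (w n) (v n)]
  · show _ ≤ ‖v n‖ / ‖w n‖
    rw [le_div_iff₀ (wp n)]
    refine le_trans ?_ (gv n)
    obtain h6 : ‖w n‖ ≤ C' := (gw n).trans (mul_le_of_le_one_right hC'.le
      (Real.exp_le_one_iff.2 (by have := Nat.cast_nonneg (α := ℝ) n; nlinarith only [hc'])))
    calc C / C' * Real.exp (c * n) * ‖w n‖ ≤ C / C' * Real.exp (c * n) * C' := by (clear * - h6 hC hC'; gcongr)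
      _ = _ := by field_simp

end Lya

open Lya in
theorem lya {f g : P2 → P2} (hd : IsDiffeo f g) {μ : Measure P2} [IsFiniteMeasure μ]
    (hf : MeasurePreserving f μ μ) (hK : IsCompact μ.support) (h : HypMeasure f μ) :
    Spec.Hyperbolic f μ := by
  obtain hit : ∀ n, ContDiff ℝ ∞ (f^[n]) := by
    intro n
    induction n with
    | zero => exact contDiff_id
    | succ n ih => rw [Function.iterate_succ]; exact ih.comp hd.smooth
  obtain hdf : ∀ n, Differentiable ℝ (f^[n]) := fun n => (hit n).differentiable (by simp)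
  obtain hcf : ∀ n, Continuous (fderiv ℝ (f^[n])) := fun n => (hit n).continuous_fderiv (by simp)
  have hc1 : Continuous (fderiv ℝ f) := hcf 1
  obtain hcg : Continuous (fderiv ℝ g) := hd.smooth_inv.continuous_fderiv (by simp)
  obtain coc : ∀ m n z x, fderiv ℝ (f^[m + n]) z x =
      fderiv ℝ (f^[m]) (f^[n] z) (fderiv ℝ (f^[n]) z x) := by
    intro m n z x
    rw [Function.iterate_add, fderiv_comp z (hdf m _) (hdf n _)]; rfl
  obtain inv : ∀ z x, fderiv ℝ g (f z) (fderiv ℝ f z x) = x := by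
    intro z x
    obtain e := fderiv_comp z (hd.smooth_inv.differentiable (by simp) (f z)) (hdf 1 z)
    have e2 : g ∘ f = id := funext hd.left
    rw [e2, fderiv_id] at e
    exact (congrArg (fun L : P2 →L[ℝ] P2 => L x) e).symm
  obtain hdt : ∀ z, dt (fderiv ℝ f z) ≠ 0 := by
    intro z h0
    have := om_map (fderiv ℝ g (f z)) (fderiv ℝ f z (1, 0)) (fderiv ℝ f z (0, 1))
    rw [inv, inv, om_map, h0] at this
    simp [om] at this
  obtain cdt : Continuous fun z => dt (fderiv ℝ f z) := by unfold dt om; fun_prop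
  have clog : Continuous fun z => Real.log |dt (fderiv ℝ f z)| :=
    cdt.abs.log fun z => abs_ne_zero.2 (hdt z)
  obtain ⟨B1, hB1⟩ := hK.exists_bound_of_continuousOn hc1.continuousOn
  obtain ⟨B2, hB2⟩ := hK.exists_bound_of_continuousOn (hcg.comp hd.smooth.continuous).continuousOn
  obtain ⟨B3, hB3⟩ := hK.exists_bound_of_continuousOn clog.continuousOn
  set B := max 1 (max B1 B2) with hB
  have b1 : 1 ≤ B := le_max_left _ _
  have horb : ∀ᵐ z ∂μ, ∀ n, f^[n] z ∈ μ.support :=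
    ae_all_iff.2 fun n => (hf.iterate n).quasiMeasurePreserving.ae μ.support_mem_ae
  obtain m2 : Measurable fun z => Real.log (limsup (fun m =>
      nn (fderiv ℝ (f^[m + 1]) z) / nn (fderiv ℝ (f^[m]) (f z))) atTop) := by
    obtain cn : Continuous nn := by unfold nn; fun_prop
    exact (Measurable.limsup fun m => (cn.comp (hcf _)).measurable.div
      (cn.comp ((hcf _).comp hd.smooth.continuous)).measurable).log
  filter_upwards [h, horb, birk hf clog.measurable B3, birk hf m2 (B3 + B)] with z hz ho k1 k2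
  obtain ⟨⟨v0, C, c, hC, hc, gv⟩, ⟨w0, C', c', hw0, hc', gw⟩⟩ := hz
  set v : ℕ → P2 := fun n => fderiv ℝ (f^[n]) z v0 with hvd
  set w : ℕ → P2 := fun n => fderiv ℝ (f^[n]) z w0 with hwd
  obtain hv : ∀ n, v (n + 1) = fderiv ℝ f (f^[n] z) (v n) := fun n => by
    simp only [hvd]; rw [add_comm, coc]; rfl
  obtain hw : ∀ n, w (n + 1) = fderiv ℝ f (f^[n] z) (w n) := fun n => by
    simp only [hwd]; rw [add_comm, coc]; rfl
  have hA : ∀ n x, ‖fderiv ℝ f (f^[n] z) x‖ ≤ B * ‖x‖ := fun n x =>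
    (ContinuousLinearMap.le_opNorm _ x).trans (mul_le_mul_of_nonneg_right
      ((hB1 _ (ho n)).trans ((le_max_left _ _).trans (le_max_right _ _))) (norm_nonneg _))
  obtain hA' : ∀ n x, ‖x‖ ≤ B * ‖fderiv ℝ f (f^[n] z) x‖ := fun n x => by
    conv_lhs => rw [← inv (f^[n] z) x]
    exact (ContinuousLinearMap.le_opNorm _ _).trans (mul_le_mul_of_nonneg_right
      ((hB2 _ (ho n)).trans ((le_max_right _ _).trans (le_max_right _ _))) (norm_nonneg _))
  obtain e0 : v 0 = v0 ∧ w 0 = w0 := by simp [hvd, hwd]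
  obtain vp : ∀ n, 0 < ‖v n‖ := fun n => lt_of_lt_of_le (by (clear * - hC; positivity)) (gv n)
  obtain wp : ∀ n, 0 < ‖w n‖ := by
    intro n
    induction n with
    | zero => rw [e0.2]; exact norm_pos_iff.2 hw0
    | succ n ih =>
      have := hA' n (w n)
      rw [← hw] at this
      exact (mul_pos_iff_of_pos_left (by linarith only [b1])).1 (ih.trans_le this)
  obtain rat : Tendsto (fun n => ‖w n‖ / ‖v n‖) atTop (𝓝 0) := by
    obtain h1 : Tendsto (fun n : ℕ => |C'| / C * Real.exp (-c * n)) atTop (𝓝 (|C'| / C * 0)) :=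
      Tendsto.const_mul _ (Real.tendsto_exp_atBot.comp
        (tendsto_natCast_atTop_atTop.const_mul_atTop_of_neg (by linarith only [hc])))
    rw [mul_zero] at h1
    refine squeeze_zero (fun n => by (clear * -; positivity)) (fun n => ?_) h1
    obtain h6 : ‖w n‖ ≤ |C'| := (gw n).trans ((le_abs_self _).trans (by
      rw [abs_mul, abs_of_pos (Real.exp_pos _)]
      exact mul_le_of_le_one_right (abs_nonneg _)
        (Real.exp_le_one_iff.2 (by have := Nat.cast_nonneg (α := ℝ) n; nlinarith only [hc']))))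
    calc ‖w n‖ / ‖v n‖ ≤ |C'| / (C * Real.exp (c * n)) := by gcongr; exact gv n
      _ = _ := by rw [neg_mul, Real.exp_neg]; field_simp
  obtain os : ∀ n, om (w (n + 1)) (v (n + 1)) = dt (fderiv ℝ f (f^[n] z)) * om (w n) (v n) :=
    fun n => by rw [hv, hw, om_map]
  obtain o0 : ∀ n, om (w n) (v n) ≠ 0 := by
    intro n
    induction n with
    | succ n ih => rw [os]; exact mul_ne_zero (hdt _) ih
    | zero =>
      intro h0
      obtain ⟨t, ht⟩ := near_line (norm_pos_iff.1 (wp 0)) (v 0)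
      rw [h0, abs_zero, zero_div, norm_le_zero_iff, sub_eq_zero, e0.1, e0.2] at ht
      have h1 := rat.const_mul |t|
      obtain h2 : ∀ n, |t| * (‖w n‖ / ‖v n‖) = 1 := fun n => by
        obtain this : ‖v n‖ = |t| * ‖w n‖ := by
          simp only [hvd, hwd]; rw [ht, map_smul, norm_smul]; rfl
        rw [← mul_div_assoc, ← this, div_self (vp n).ne']
      simp only [h2] at h1
      simpa using tendsto_nhds_unique h1 tendsto_const_nhds
  have op : ∀ n, 0 < |om (w n) (v n)| := fun n => abs_pos.2 (o0 n)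
  obtain s1 : ∀ n, Real.log |om (w (n + 1)) (v (n + 1))| - Real.log |om (w n) (v n)| =
      Real.log |dt (fderiv ℝ f (f^[n] z))| := fun n => by
    rw [os, abs_mul, Real.log_mul (abs_ne_zero.2 (hdt _)) (op n).ne']; ring
  obtain nl : ∀ n, Tendsto (fun m => nn (fderiv ℝ (f^[m]) (f^[n] z)) * |om (w n) (v n)| / ‖v (m + n)‖)
      atTop (𝓝 ‖w n‖) := by
    intro n
    obtain this := nn_lim (M := fun m => fderiv ℝ (f^[m]) (f^[n] z)) (v := v n) (w := w n)
      (fun m => by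
        simp only [hvd]; rw [← coc]; exact norm_pos_iff.1 (vp _))
      ((rat.comp (tendsto_add_atTop_nat n)).congr fun m => by
        simp only [hvd, hwd, Function.comp]; rw [← coc, ← coc])
    refine this.congr fun m => ?_
    simp only [hvd]; rw [← coc]
  obtain ⟨d, hdl⟩ := k1 (fun n => Real.log |om (w n) (v n)|) s1 fun n => by
    rw [s1]; exact hB3 _ (ho n)
  refine (k2 (fun n => Real.log (|om (w n) (v n)| / ‖w n‖)) (fun n => ?_) (fun n => ?_)).elim
    fun l hl => ?_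
  rotate_right
  · obtain ⟨⟨l1, p1, t1⟩, l2, p2, t2⟩ := seq (by linarith only [b1]) hv hw hA hA'
      (fun n => norm_pos_iff.1 (wp n)) o0 hC hc hc' gv gw hl hdl
    exact ⟨⟨v0, l1, p1, e0.1 ▸ norm_pos_iff.1 (vp 0), t1⟩, w0, l2, p2, hw0, t2⟩
  · have t1 := ((((nl n).comp (tendsto_add_atTop_nat 1)).div (nl (n + 1)) (wp _).ne').mul_const
      (|om (w (n + 1)) (v (n + 1))| / |om (w n) (v n)|))
    obtain t2 : Tendsto (fun m => nn (fderiv ℝ (f^[m + 1]) (f^[n] z)) /
        nn (fderiv ℝ (f^[m]) (f (f^[n] z)))) atTop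
        (𝓝 (‖w n‖ / ‖w (n + 1)‖ * (|om (w (n + 1)) (v (n + 1))| / |om (w n) (v n)|))) := by
      refine t1.congr fun m => ?_
      obtain e1 : m + 1 + n = m + (n + 1) := by ring
      have := vp (m + (n + 1)); have := op n; have := op (n + 1)
      simp only [Function.comp, Pi.div_apply, e1, Function.iterate_succ_apply' f n z]
      by_cases hb : nn (fderiv ℝ (f^[m]) (f (f^[n] z))) = 0
      · simp [hb]
      · field_simp
    rw [t2.limsup_eq, ← Real.log_div (div_pos (op _) (wp _)).ne' (div_pos (op _) (wp _)).ne']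
    have := wp n; have := wp (n + 1); have := op n
    congr 1; field_simp
  · rw [Real.log_div (op _).ne' (wp _).ne', Real.log_div (op _).ne' (wp _).ne']
    have a1 := abs_le.1 (show abs (Real.log |dt (fderiv ℝ f (f^[n] z))|) ≤ B3 from hB3 _ (ho n))
    have a2 := Real.log_le_log (wp (n + 1)) (hw n ▸ hA n (w n))
    have a3 := Real.log_le_log (wp n) (hA' n (w n))
    rw [← hw] at a3
    rw [Real.log_mul (by linarith only [b1]) (wp _).ne'] at a2 a3
    obtain a4 := Real.log_le_self (show 0 ≤ B by linarith only [b1])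
    have := s1 n
    rw [abs_le]; constructor <;> linarith only [a2, a4, this, a3, a1.1, a1.2]

end
end Pool.Agent.MP_9cbfe4_an

end

/-! ### Part Brg -/

section

/-! From the internal statement `Main` to the hand-in statement. -/

namespace Pool.Agent.MP_9cbfe4_an

open MeasureTheory ProbabilityTheory Filter Topology Set
open scoped ContDiff

theorem Wu_trans {g : P2 → P2} {x z z' : P2} (hz : z ∈ Wu g x) (hz' : z' ∈ Wu g x) :
    z' ∈ Wu g z := by
  obtain ⟨C, c, hc, h⟩ := hz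
  obtain ⟨C', c', hc', h'⟩ := hz'
  refine ⟨|C| + |C'|, min c c', lt_min hc hc', fun n => ?_⟩
  obtain e1 : Real.exp (-c * n) ≤ Real.exp (-min c c' * n) :=
    Real.exp_le_exp.2 (by nlinarith only [min_le_left c c', Nat.cast_nonneg (α := ℝ) n])
  obtain e2 : Real.exp (-c' * n) ≤ Real.exp (-min c c' * n) :=
    Real.exp_le_exp.2 (by nlinarith only [min_le_right c c', Nat.cast_nonneg (α := ℝ) n])
  have a1 : C * Real.exp (-c * n) ≤ |C| * Real.exp (-min c c' * n) :=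
    (mul_le_mul_of_nonneg_right (le_abs_self C) (Real.exp_pos _).le).trans
      (mul_le_mul_of_nonneg_left e1 (abs_nonneg _))
  have a2 : C' * Real.exp (-c' * n) ≤ |C'| * Real.exp (-min c c' * n) :=
    (mul_le_mul_of_nonneg_right (le_abs_self C') (Real.exp_pos _).le).trans
      (mul_le_mul_of_nonneg_left e2 (abs_nonneg _))
  have := dist_triangle_left (g^[n] z) (g^[n] z') (g^[n] x)
  have := h n
  have := h' n
  linarith

theorem spec_srb {g : P2 → P2} (hg : Measurable g) (μ : Measure P2) [IsProbabilityMeasure μ]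
    (h : ∀ A, MeasurableSet A → (∀ x, μH[1] (A ∩ Wu g x) = 0) → μ A = 0) : Spec.SRB g μ := by
  refine ⟨SRB3.exists_part hg h, fun π κ ⟨hπ, hκ, hc, hf⟩ ⟨G, hG, hsub⟩ =>
    SRB3.ac_of_null hπ hc hf ?_⟩
  obtain ⟨T, hTs, hTm, hT0⟩ := exists_measurable_superset_of_null (ae_iff.1 hG)
  have hin : ∀ z, z ∉ T → z ∈ G := fun z hz => by_contra fun hc => hz (hTs hc)
  refine measure_mono_null (subset_sdiff_union _ T) (measure_union_null
    (h _ ((SRB2.meas_Inf _).diff hTm) fun x => ?_) hT0)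
  rcases ((SRB2.Inf (κ.comap π hπ) \ T) ∩ Wu g x).eq_empty_or_nonempty with h0 | ⟨z, hz⟩
  · rw [h0, measure_empty]
  refine measure_mono_null (fun u hu => ?_) (SRB3.len_zero hπ κ (hsub z (hin z hz.1.2)).2)
  exact ⟨hu.1.1, hin u hu.1.2, Wu_trans hz.2 hu.2⟩

end Pool.Agent.MP_9cbfe4_an

end

/-! ### Part BrgI -/

section

/-! From the internal statement `Main` to the hand-in statement over any parameter interval. -/

namespace Pool.Agent.MP_9cbfe4_an

open MeasureTheory ProbabilityTheory Filter Topology Set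
open scoped ContDiff

namespace BrgI

theorem cut : ∃ φ : ℝ → ℝ, ContDiff ℝ ∞ φ ∧ (∀ s, -2 < φ s ∧ φ s < 3) ∧
    ∀ s, -3 / 2 < s → s < 5 / 2 → φ s = s := by
  let b : ContDiffBump (1 / 2 : ℝ) := ⟨2, 5 / 2, by norm_num, by norm_num⟩
  refine ⟨fun s => b s * s, b.contDiff.mul contDiff_id, fun s => ?_, fun s h1 h2 => ?_⟩
  · have h0 : 0 ≤ b s := b.nonneg
    have h1 : b s ≤ 1 := b.le_one
    by_cases h : (5 / 2 : ℝ) ≤ dist s (1 / 2)
    · have : b s = 0 := b.zero_of_le_dist h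
      simp only [this]; norm_num
    · rw [not_le, Real.dist_eq, abs_lt] at h
      constructor <;> nlinarith only [h0, h1, h.1, h.2]
  · obtain this : b s = 1 := b.one_of_mem_closedBall (by
      rw [Metric.mem_closedBall, Real.dist_eq, abs_le]
      constructor <;> simp only [b] <;> linarith only [h1, h2])
    simp only [this, one_mul]

theorem aff (G : ℝ × P2 → P2) (α l : ℝ) (l0 : 0 < l) (l1 : l ≤ 1) (k : ℕ) (p : ℝ × P2) :
    ‖iteratedFDeriv ℝ k (fun q : ℝ × P2 => G (l * q.1 + α, q.2)) p‖ ≤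
      ‖iteratedFDeriv ℝ k G (l * p.1 + α, p.2)‖ := by
  let e : (ℝ × P2) ≃L[ℝ] (ℝ × P2) :=
    (ContinuousLinearEquiv.unitsEquivAut ℝ (Units.mk0 l l0.ne')).prodCongr
      (ContinuousLinearEquiv.refl ℝ P2)
  obtain he : ∀ q, e q = (l * q.1, q.2) := fun q => by simp [e, mul_comm]
  obtain h1 : (fun q : ℝ × P2 => G (l * q.1 + α, q.2)) = (fun q => G (q + (α, 0))) ∘ e := by
    funext q; simp [he]
  have h2 := e.iteratedFDerivWithin_comp_right (fun q => G (q + (α, 0))) uniqueDiffOn_univ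
    (mem_univ (e p)) k
  rw [preimage_univ, iteratedFDerivWithin_univ, iteratedFDerivWithin_univ,
    iteratedFDeriv_comp_add_right] at h2
  obtain h3 : ‖(e : ℝ × P2 →L[ℝ] ℝ × P2)‖ ≤ 1 :=
    ContinuousLinearMap.opNorm_le_bound _ zero_le_one fun q => by
      rw [one_mul, ContinuousLinearEquiv.coe_coe, he, Prod.norm_def, Prod.norm_def q]
      refine max_le_max ?_ le_rfl
      rw [norm_mul, Real.norm_eq_abs, abs_of_pos l0]
      exact mul_le_of_le_one_left (norm_nonneg _) l1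
  obtain h4 : e p + (α, 0) = (l * p.1 + α, p.2) := by simp [he]
  rw [h1, h2, h4]
  refine (ContinuousMultilinearMap.norm_compContinuousLinearMap_le _ _).trans ?_
  exact mul_le_of_le_one_right (norm_nonneg _)
    (Finset.prod_le_one (fun _ _ => norm_nonneg _) fun _ _ => h3)

end BrgI

theorem bridgeI {r : ℕ} {d : ℝ} (h : Main r d) {I : Set ℝ} (hI : I.OrdConnected)
    (hN : I.Nontrivial) :
    ∃ U : Set (ℝ × (ℝ × ℝ) → ℝ × ℝ), U.Nonempty ∧ Spec.OpenOn I r U ∧ ∀ F ∈ U,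
      ∃ T ⊆ I, MeasurableSet T ∧ 0 < volume T ∧ ∀ t ∈ T, ∀ g,
        Spec.Diffeo (fun z => F (t, z)) g →
        ∃ μ : Measure (ℝ × ℝ), IsProbabilityMeasure μ ∧ Ergodic (fun z => F (t, z)) μ ∧
          Spec.Hyperbolic (fun z => F (t, z)) μ ∧ Spec.SRB g μ ∧ IsCompact μ.support ∧
          ENNReal.ofReal d ≤ dimH μ.support ∧ ¬ Spec.UnifHyp (fun z => F (t, z)) μ.support := by
  obtain ⟨F0, R, δ, hδ, hF0, hM⟩ := h
  obtain ⟨a, ha, b, hb, ab⟩ := hN.exists_lt
  obtain ⟨φ, φs, φb, φe⟩ := BrgI.cut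
  have dif : ∀ f g, Spec.Diffeo f g ↔ IsDiffeo f g := fun f g =>
    ⟨fun h => ⟨h.1, h.2.1, h.2.2.1, h.2.2.2⟩, fun h => ⟨h.1, h.2, h.3, h.4⟩⟩
  obtain ⟨l, l0, l1, l2⟩ : ∃ l : ℝ, 0 < l ∧ l ≤ 1 ∧ 8 * l ≤ b - a :=
    ⟨min 1 ((b - a) / 8), lt_min one_pos (by linarith only [ab]), min_le_left _ _,
      by linarith only [min_le_right 1 ((b - a) / 8)]⟩
  obtain ⟨α, hα⟩ : ∃ α, α = a + 3 * l := ⟨_, rfl⟩
  have hsub : Ioo a b ⊆ I := Ioo_subset_Icc_self.trans (hI.out ha hb)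
  obtain hin : ∀ s, -2 < s → s < 3 → l * s + α ∈ Ioo a b := fun s h1 h2 =>
    ⟨by nlinarith only [l0, hα, h1], by nlinarith only [l0, l2, hα, h2]⟩
  obtain hU : UniqueDiffOn ℝ (I ×ˢ (univ : Set P2)) :=
    (uniqueDiffOn_convex hI.convex ⟨_, interior_maximal hsub isOpen_Ioo
      (hin 0 (by norm_num) (by norm_num))⟩).prod uniqueDiffOn_univ
  set F1 : ℝ × P2 → P2 := fun q => F0 (l⁻¹ * (q.1 - α), q.2) with hF1
  obtain s1 : ContDiff ℝ ∞ F1 := hF0.1.comp (by fun_prop)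
  obtain f1 : Spec.FamilyOn I F1 := ⟨s1.contDiffOn, fun t _ => by
    obtain ⟨g, hg⟩ := hF0.2 (l⁻¹ * (t - α))
    exact ⟨g, (dif _ _).2 hg⟩⟩
  set K : Set (ℝ × P2) := Icc (l * (-1) + α) (l * 2 + α) ×ˢ Metric.closedBall (0 : P2) R
  have hK : IsCompact K := isCompact_Icc.prod (isCompact_closedBall _ _)
  obtain hKI : K ⊆ I ×ˢ (univ : Set P2) := fun p hp =>
    ⟨hsub ⟨(hin (-1) (by norm_num) (by norm_num)).1.trans_le hp.1.1,
      hp.1.2.trans_lt (hin 2 (by norm_num) (by norm_num)).2⟩, trivial⟩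
  refine ⟨{F | Spec.FamilyOn I F ∧ ∀ k ≤ r, ∀ p ∈ K,
      ‖iteratedFDerivWithin ℝ k (F - F1) (I ×ˢ univ) p‖ < δ},
    ⟨F1, f1, fun k _ p _ => by simpa using hδ⟩, fun F hF => ⟨hF.1, K, ?_⟩, fun F hF => ?_⟩
  · have hs : ContDiffOn ℝ ∞ (F - F1) (I ×ˢ univ) := hF.1.1.sub f1.1
    obtain h1 : ∀ k ∈ Finset.range (r + 1), ∀ᶠ η in 𝓝[>] (0 : ℝ), ∀ p ∈ K,
        ‖iteratedFDerivWithin ℝ k (F - F1) (I ×ˢ univ) p‖ + η < δ := by
      intro k hk
      obtain hc := ((hs.continuousOn_iteratedFDerivWithin (m := k) (by exact_mod_cast le_top)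
        hU).mono hKI).norm
      rcases K.eq_empty_or_nonempty with h0 | h0
      · simp [h0]
      obtain ⟨q, hq, hm⟩ := hK.exists_isMaxOn h0 hc
      have hq' := hF.2 k (Nat.lt_succ_iff.1 (Finset.mem_range.1 hk)) q hq
      filter_upwards [nhdsWithin_le_nhds (gt_mem_nhds (sub_pos.2 hq'))] with η hη p hp
      have : ‖iteratedFDerivWithin ℝ k (F - F1) (I ×ˢ univ) p‖ ≤
        ‖iteratedFDerivWithin ℝ k (F - F1) (I ×ˢ univ) q‖ := hm hp
      linarith only [hη, this]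
    obtain ⟨η, hη, h0⟩ := (((eventually_all_finset _).2 h1).and self_mem_nhdsWithin).exists
    refine ⟨η, hK, hKI, h0, fun F' hF' hc => ⟨hF', fun k hk p hp => ?_⟩⟩
    have hs' : ContDiffOn ℝ ∞ (F' - F) (I ×ˢ univ) := hF'.1.sub hF.1.1
    obtain e : F' - F1 = (F' - F) + (F - F1) := by abel
    rw [e, iteratedFDerivWithin_add_apply ((hs' p (hKI hp)).of_le (by exact_mod_cast le_top))
      ((hs p (hKI hp)).of_le (by exact_mod_cast le_top)) hU (hKI hp)]
    have := hη k (Finset.mem_range.2 (Nat.lt_succ_of_le hk)) p hp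
    linarith only [this, norm_add_le (iteratedFDerivWithin ℝ k (F' - F) (I ×ˢ univ) p)
      (iteratedFDerivWithin ℝ k (F - F1) (I ×ˢ univ) p), hc k hk p hp]
  · have hφ : ∀ s, l * φ s + α ∈ I := fun s => hsub (hin _ (φb s).1 (φb s).2)
    set G : ℝ × P2 → P2 := fun q => F (l * φ q.1 + α, q.2) with hG
    obtain sG : SmoothFamily G := ⟨hF.1.1.comp_contDiff (f := fun q : ℝ × P2 => (l * φ q.1 + α, q.2))
      (((contDiff_const.mul (φs.comp contDiff_fst)).add contDiff_const).prodMk contDiff_snd)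
      fun q => ⟨hφ _, trivial⟩, fun s => by
        obtain ⟨g, hg⟩ := hF.1.2 _ (hφ s)
        exact ⟨g, (dif _ _).1 hg⟩⟩
    obtain ⟨T, hT1, hT, hT0, hH⟩ := hM G sG fun k hk p hp => by
      obtain e : G - F0 =ᶠ[𝓝 p] fun q : ℝ × P2 => (F - F1) (l * q.1 + α, q.2) := by
        obtain this : Ioo (-3 / 2 : ℝ) (5 / 2) ×ˢ (univ : Set P2) ∈ 𝓝 p :=
          (isOpen_Ioo.prod isOpen_univ).mem_nhds
            ⟨⟨by linarith only [hp.1.1], by linarith only [hp.1.2]⟩, trivial⟩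
        filter_upwards [this] with q hq
        simp only [hG, hF1, Pi.sub_apply, φe _ hq.1.1 hq.1.2, add_sub_cancel_right,
          inv_mul_cancel_left₀ l0.ne']
      rw [(e.iteratedFDeriv ℝ k).self_of_nhds]
      refine (BrgI.aff _ α l l0 l1 k p).trans_lt ?_
      obtain hp' : (l * p.1 + α, p.2) ∈ K :=
        ⟨⟨by nlinarith only [l0, hp.1.1], by nlinarith only [l0, hp.1.2]⟩, hp.2⟩
      obtain hn : I ×ˢ (univ : Set P2) ∈ 𝓝 (l * p.1 + α, p.2) :=
        mem_of_superset ((isOpen_Ioo.prod isOpen_univ).mem_nhds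
          ⟨hin _ (by linarith only [hp.1.1]) (by linarith only [hp.1.2]), trivial⟩)
          (prod_mono hsub subset_rfl)
      have := hF.2 k hk _ hp'
      rwa [iteratedFDerivWithin_congr_set (eventuallyEq_univ.2 hn), iteratedFDerivWithin_univ]
        at this
    obtain key : ∀ t, l⁻¹ * (t - α) ∈ T → l * φ (l⁻¹ * (t - α)) + α = t := fun t ht => by
      rw [φe _ (by linarith only [(hT1 ht).1]) (by linarith only [(hT1 ht).2]), mul_inv_cancel_left₀ l0.ne']
      ring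
    refine ⟨(fun t => t - α) ⁻¹' ((fun u => l⁻¹ * u) ⁻¹' T), fun t ht => key t ht ▸ hφ _,
      (hT.preimage (by fun_prop)).preimage (by fun_prop), ?_, fun t ht g hg => ?_⟩
    · simp only [sub_eq_add_neg]
      rw [measure_preimage_add_right, Real.volume_preimage_mul_left (inv_ne_zero l0.ne')]
      exact ENNReal.mul_pos (by simpa using l0.ne') hT0.ne'
    · obtain e : (fun z => G (l⁻¹ * (t - α), z)) = fun z => F (t, z) := by
        funext z; simp only [hG, key t ht]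
      have hh := hH _ ht
      rw [e] at hh
      obtain ⟨μ, hp, he, hh, hs, hc, hd, hu⟩ := hh g ((dif _ _).1 hg)
      exact ⟨μ, hp, he, lya ((dif _ _).1 hg) he.toMeasurePreserving hc hh,
        spec_srb hg.2.1.continuous.measurable μ hs.1, hc, hd, hu⟩

end Pool.Agent.MP_9cbfe4_an

end
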