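import Pool.Agent.MP_9cbfe4_an.M01

set_option linter.all false

attribute [-instance] AddQuantale.instAddLeftMono IdemSemiring.toCanonicallyOrderedAdd
  NumberField.to_charZero AddQuantale.instAddRightMono IdemSemiring.toMulLeftMono RKHS.instFunLike
  Quantale.instMulRightMono Quantale.instMulLeftMono IsOrderedCancelMonoid.toIsOrderedMonoid
  LinearOrderedCommMonoidWithZero.toPosMulStrictMono
  Group.IsPerfect.subsingleton_of_isMulCommutative CanonicallyOrderedAdd.toMulLeftMono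
  Valued.toUniformSpace IdemSemiring.toMulRightMono TotallySeparatedSpace.t2Space
  LinearOrderedCommMonoidWithZero.toIsOrderedMonoid IsScalarTower.complexToReal
  Order.Coframe.toCompleteLattice OmegaCompletePartialOrder.toPartialOrder Invertible.toNeZero
  GrpTypeEquivalenceGrp.grpGroup littleWedderburn CanonicallyOrderedMul.toMulLeftMono
  CoalgHomClass.toSemilinearMapClass TestFunctionClass.toDFunLike
  ContDiffMapSupportedInClass.toDFunLike Order.Frame.toCompleteLattice RightPreLieAlgebra.toModule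
  CategoryTheory.Limits.Concrete.instUniqueToTypeTerminal LeftPreLieAlgebra.toModule
  CStarAlgebra.instOrderClosedTopology IdemSemiring.toSemiring
  LieAdmissibleRing.toNonUnitalNonAssocRing NonUnitalAlgSemiHomClass.toDistribMulActionSemiHomClass
  CStarAlgebra.toNormedRing

/-! ### Part APF -/

section

/-! Rows APF1, APF2 of section S: forward a priori estimates. -/

namespace Pool.Agent.MP_9cbfe4_an
open Finset

namespace APF

theorem small {r x Λ : ℝ} (hr : 0 ≤ r) (h : r * Λ ^ 10 ≤ 1) (h1 : 1000 ≤ x) (h2 : x ≤ Λ) :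
    r * (x ^ 7 + x ^ 8) ≤ 1 := by
  obtain h0 : 0 ≤ x := by linarith only [h1]
  have h3 : x ^ 10 ≤ Λ ^ 10 := pow_le_pow_left₀ h0 h2 10
  have h4 : 0 ≤ x ^ 7 := pow_nonneg h0 7
  obtain h5 : 1 + x ≤ x ^ 3 := by nlinarith only [h1, mul_nonneg h0 h0]
  obtain h6 : x ^ 7 + x ^ 8 ≤ x ^ 10 := by
    obtain this := mul_le_mul_of_nonneg_left h5 h4
    linarith only [this]
  exact (mul_le_mul_of_nonneg_left (h6.trans h3) hr).trans h

theorem geo {j J : ℤ} (h : j ≤ J) :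
    ∑ i ∈ Ico j J, (3 / 4 : ℝ) ^ (i - j).toNat ≤ 4 - 4 * (3 / 4) ^ (J - j).toNat := by
  induction J, h using Int.leInduction with
  | base => simp
  | succ n hn ih =>
    rw [sum_Ico_succ _ hn, show (n + 1 - j).toNat = (n - j).toNat + 1 by omega, pow_succ]
    linarith only [ih]

theorem sum_le_card {f : ℤ → ℝ} {i j : ℤ} {B N : ℝ} (hB : 0 ≤ B) (hij : i ≤ j)
    (hN : (j : ℝ) - i ≤ N) (h : ∀ l, i ≤ l → l < j → f l ≤ B) : ∑ l ∈ Ico i j, f l ≤ N * B := by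
  have h1 : ∑ l ∈ Ico i j, f l ≤ (Ico i j).card • B :=
    sum_le_card_nsmul _ _ _ fun l hl => h l (mem_Ico.1 hl).1 (mem_Ico.1 hl).2
  obtain h2 : ((Ico i j).card : ℝ) = (j : ℝ) - i := by
    rw [Int.card_Ico, ← Int.cast_natCast, Int.toNat_of_nonneg (by omega)]
    push_cast; ring
  rw [nsmul_eq_mul, h2] at h1
  exact h1.trans (mul_le_mul_of_nonneg_right hN hB)

theorem rec_df (S : Sq) (Y : ℤ → ℝ) (j : ℤ) :
    Y (j + 1) = S.a j * Y j + S.b j * Y (j - 1) + S.df Y j := by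
  unfold Sq.df; ring

variable {S : Sq} {E : ℕ} {μ D : ℤ → ℝ} {J : ℤ}

theorem Pb_pos (h : S.FC E μ D J) {i j : ℤ} (hi : 0 ≤ i) (hj : j ≤ J) : 0 < S.Pb i j :=
  prod_pos fun l hl => h.bpos l (by have := (mem_Ioc.1 hl).1; omega) ((mem_Ioc.1 hl).2.trans hj)

theorem Pb_le (h : S.FC E μ D J) {i j : ℤ} (hi : 0 ≤ i) (hij : i ≤ j) (hj : j ≤ J) :
    S.Pb i j ≤ μ j := by
  have h1 := h.PbD i j hi hij hj
  have h2 := h.dec 0 (Nat.zero_le _) i j hi hij hj
  obtain h3 : (3 / 4 : ℝ) ^ (j - i).toNat ≤ 1 := pow_le_one₀ (by norm_num) (by norm_num)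
  have h4 := h.Dpos i hi (hij.trans hj)
  have h5 := h.big j (hi.trans hij) hj
  simp only [pow_zero, one_mul] at h2
  have h6 : D j ≤ D i := h2.trans (mul_le_of_le_one_right h4.le h3)
  obtain h7 : μ j * D j ≤ μ j * D i := mul_le_mul_of_nonneg_left h6 (by linarith only [h5])
  exact le_of_mul_le_mul_right (h1.trans h7) h4

theorem frJ' (h : S.FC E μ D J) {j : ℤ} (h0 : 0 ≤ j) (hj : j ≤ J) :
    |S.fr (j + 1) J| ≤ μ j * |S.fr 1 J| := by
  rcases hj.eq_or_lt with rfl | hlt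
  · obtain this := h.big j h0 le_rfl
    rw [S.fr_succ_self, abs_zero]
    exact mul_nonneg (by linarith only [this]) (abs_nonneg _)
  · exact h.frJ j h0 hlt

/-- the linear boundary value problem -/
theorem lin (h : S.FC E μ D J) {e : ℕ} {Y : ℤ → ℝ} {Λ α g γ : ℝ} (hΛ : μ J ≤ Λ) (he : e + 1 ≤ E)
    (hα : 0 ≤ α) (hg : 0 ≤ g) (hq : ∀ j, 1 ≤ j → j < J → |S.df Y j| ≤ α * μ j ^ e * D j + g)
    (h0 : Y 0 = 0) (hJ : |Y J| ≤ γ) {j : ℤ} (hj1 : 1 ≤ j) (hj : j ≤ J) :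
    |Y j| ≤ 2 * (α * μ j ^ (e + 4) * D j) + 2 * (g * Λ ^ 4) + γ * Λ ^ 2 := by
  have J1 := h.J1
  have hγ : 0 ≤ γ := (abs_nonneg _).trans hJ
  have top : ∀ i, 0 ≤ i → i ≤ J → μ i ≤ Λ := fun i h1 h2 => (h.mono i J h1 h2 le_rfl).trans hΛ
  obtain hM := h.big j (by omega) hj
  obtain hMΛ := top j (by omega) hj
  obtain hD := h.Dpos j (by omega) hj
  obtain hM0 : 0 ≤ μ j := by linarith only [hM]
  obtain hΛ0 : 0 ≤ Λ := by linarith only [hM, hMΛ]
  obtain vo : ∀ l, 1 ≤ l → l ≤ J →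
      Y l = Y 1 * S.fr 1 l + ∑ i ∈ Ico 1 l, S.fr (i + 1) l * S.df Y i := fun l h1 h2 => by
    have := S.voc (Z := Y) (q := S.df Y) (s := 1) (n := J) (fun i _ _ => rec_df S Y i) h1 h2
    rw [show (1 : ℤ) - 1 = 0 by ring, h0] at this
    rw [this]; ring
  obtain hu : ∀ l, 1 ≤ l → l ≤ J → |S.fr 1 l| ≤ μ l := fun l h1 h2 => by
    simpa using h.frle 0 l le_rfl (by omega) h2
  obtain hU : 1 ≤ Λ * |S.fr 1 J| := by
    obtain h1 := h.frJ (J - 1) (by omega) (by omega)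
    rw [sub_add_cancel, S.fr_self, abs_one] at h1
    exact h1.trans (mul_le_mul_of_nonneg_right (top _ (by omega) (by omega)) (abs_nonneg _))
  obtain hU0 : 0 < |S.fr 1 J| := by
    by_contra hn
    obtain this : |S.fr 1 J| = 0 := le_antisymm (not_lt.1 hn) (abs_nonneg _)
    rw [this] at hU; linarith only [hU]
  obtain split : ∑ i ∈ Ico 1 J, S.fr (i + 1) J * S.df Y i =
      ∑ i ∈ Ico 1 j, S.fr (i + 1) J * S.df Y i + ∑ i ∈ Ico j J, S.fr (i + 1) J * S.df Y i := by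
    rw [← Finset.Ico_union_Ico_eq_Ico hj1 hj, sum_union (Finset.Ico_disjoint_Ico_consecutive _ _ _)]
  obtain key : S.fr 1 J * Y j = S.fr 1 j * Y J
      - ∑ i ∈ Ico 1 j, (S.fr (i + 1) J * S.fr 1 j - S.fr 1 J * S.fr (i + 1) j) * S.df Y i
      - ∑ i ∈ Ico j J, S.fr 1 j * S.fr (i + 1) J * S.df Y i := by
    obtain e1 : ∑ i ∈ Ico 1 j, (S.fr (i + 1) J * S.fr 1 j - S.fr 1 J * S.fr (i + 1) j) * S.df Y i =
        S.fr 1 j * ∑ i ∈ Ico 1 j, S.fr (i + 1) J * S.df Y i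
          - S.fr 1 J * ∑ i ∈ Ico 1 j, S.fr (i + 1) j * S.df Y i := by
      rw [mul_sum, mul_sum, ← sum_sub_distrib]
      exact sum_congr rfl fun i _ => by ring
    obtain e2 : ∑ i ∈ Ico j J, S.fr 1 j * S.fr (i + 1) J * S.df Y i =
        S.fr 1 j * ∑ i ∈ Ico j J, S.fr (i + 1) J * S.df Y i := by
      rw [mul_sum]
      exact sum_congr rfl fun i _ => by ring
    have v1 := vo j hj1 hj
    have v2 := vo J J1 le_rfl
    rw [split] at v2
    rw [e1, e2]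
    linear_combination S.fr 1 J * v1 - S.fr 1 j * v2
  set U := |S.fr 1 J| with hUdef
  set P := α * μ j ^ e * D j with hP
  have hP0 : 0 ≤ P := mul_nonneg (mul_nonneg hα (pow_nonneg hM0 _)) hD.le
  obtain s1 : ∑ i ∈ Ico 1 j, |(S.fr (i + 1) J * S.fr 1 j - S.fr 1 J * S.fr (i + 1) j) * S.df Y i| ≤
      μ j * (U * (μ j ^ 3 * (P + g))) := by
    refine sum_le_card (by (clear * - hU0 hM hα hD hg; positivity)) hj1 (by have := h.len j (by omega) hj; push_cast; linarith only [this])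
      fun i h1 h2 => ?_
    obtain hb := h.big i (by omega) (by omega)
    obtain hm := h.mono i j (by omega) h2.le hj
    obtain hPb := Pb_pos h (show 0 ≤ i by omega) hj
    obtain hDi := h.Dpos i (by omega) (by omega)
    obtain t1 : S.Pb i j * |S.df Y i| ≤ μ j * (P + g) := by
      obtain a1 := h.PbD i j (by omega) h2.le hj
      obtain a2 := Pb_le h (show 0 ≤ i by omega) h2.le hj
      obtain a3 : α * μ i ^ e ≤ α * μ j ^ e :=
        mul_le_mul_of_nonneg_left (pow_le_pow_left₀ (by linarith only [hb]) hm e) hα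
      obtain a4 : α * μ i ^ e * (S.Pb i j * D i) ≤ α * μ j ^ e * (μ j * D j) :=
        mul_le_mul a3 a1 (by (clear * - hPb hDi; positivity)) (by (clear * - hα hM; positivity))
      obtain a5 := mul_le_mul_of_nonneg_left (hq i h1 (by omega)) hPb.le
      obtain a6 := mul_le_mul_of_nonneg_right a2 hg
      rw [hP]; linarith only [a4, a5, a6]
    rw [abs_mul, S.euler (ξ := S.fr 1) h2 hj fun l h3 _ => S.fr_succ (by omega), abs_of_pos hPb]
    obtain t2 : |S.fr 1 i| * |S.fr (j + 1) J| ≤ μ j * (μ j * U) :=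
      mul_le_mul ((hu i h1 (by omega)).trans hm) (frJ' h (by omega) hj) (abs_nonneg _) hM0
    obtain t3 := mul_le_mul t2 t1 (by (clear * - hPb; positivity)) (by (clear * - hM hU0; positivity))
    calc _ = |S.fr 1 i| * |S.fr (j + 1) J| * (S.Pb i j * |S.df Y i|) := by ring
      _ ≤ _ := t3
      _ = _ := by ring
  obtain s2 : ∑ i ∈ Ico j J, |S.fr 1 j * S.fr (i + 1) J * S.df Y i| ≤
      U * (μ j ^ 2 * P) * 4 + Λ * (U * (Λ ^ 2 * g)) := by
    obtain t0 : ∀ i ∈ Ico j J, |S.fr 1 j * S.fr (i + 1) J * S.df Y i| ≤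
        U * (μ j ^ 2 * P) * (3 / 4) ^ (i - j).toNat + U * (Λ ^ 2 * g) := fun i hi => by
      obtain ⟨h1, h2⟩ := mem_Ico.1 hi
      obtain hb := h.big i (by omega) h2.le
      obtain hb0 : 0 ≤ μ i := by linarith only [hb]
      obtain a1 := h.dec (e + 1) he j i (by omega) h1 h2.le
      obtain a2 : μ i * |S.df Y i| ≤ μ j * P * (3 / 4) ^ (i - j).toNat + Λ * g := by
        obtain b1 := mul_le_mul_of_nonneg_left (hq i (by omega) h2) hb0
        obtain b2 := mul_le_mul_of_nonneg_left a1 hα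
        obtain b3 := mul_le_mul_of_nonneg_right (top i (by omega) h2.le) hg
        rw [pow_succ, pow_succ] at b2
        rw [hP]; linarith only [b1, b2, b3]
      obtain a3 : |S.fr 1 j| * |S.fr (i + 1) J| ≤ μ j * (μ i * U) :=
        mul_le_mul (hu j hj1 hj) (h.frJ i (by omega) h2) (abs_nonneg _) hM0
      have a4 := mul_le_mul_of_nonneg_right a3 (abs_nonneg (S.df Y i))
      have a5 := mul_le_mul_of_nonneg_left a2 (mul_nonneg hM0 hU0.le)
      obtain a6 : μ j * (U * (Λ * g)) ≤ Λ * (U * (Λ * g)) :=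
        mul_le_mul_of_nonneg_right hMΛ (by (clear * - hU0 hΛ0 hg; positivity))
      rw [abs_mul, abs_mul]
      linarith only [a4, a5, a6]
    refine (sum_le_sum t0).trans ?_
    rw [sum_add_distrib, ← mul_sum]
    refine add_le_add (mul_le_mul_of_nonneg_left ?_ (by (clear * - hU0 hM hα hD; positivity))) ?_
    · obtain this := geo hj
      obtain h3 : (0 : ℝ) ≤ (3 / 4) ^ (J - j).toNat := by positivity
      linarith only [this, h3]
    · refine sum_le_card (by (clear * - hU0 hg; positivity)) hj ?_ fun _ _ _ => le_rfl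
      obtain a1 := h.len J (by omega) le_rfl
      obtain a2 : (1 : ℝ) ≤ j := by exact_mod_cast hj1
      linarith only [hΛ, a1, a2]
  obtain s0 : |S.fr 1 j * Y J| ≤ U * (γ * Λ ^ 2) := by
    rw [abs_mul]
    obtain a1 : |S.fr 1 j| * |Y J| ≤ Λ * γ :=
      mul_le_mul ((hu j hj1 hj).trans hMΛ) hJ (abs_nonneg _) hΛ0
    obtain a2 := mul_le_mul_of_nonneg_left hU (mul_nonneg hΛ0 hγ)
    linarith only [a1, a2]
  obtain tot : U * |Y j| ≤ U * (γ * Λ ^ 2) + μ j * (U * (μ j ^ 3 * (P + g)))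
      + (U * (μ j ^ 2 * P) * 4 + Λ * (U * (Λ ^ 2 * g))) := by
    rw [hUdef, ← abs_mul, key]
    refine (abs_sub _ _).trans (add_le_add ((abs_sub _ _).trans (add_le_add s0 ?_)) ?_)
    · exact (abs_sum_le_sum_abs _ _).trans s1
    · exact (abs_sum_le_sum_abs _ _).trans s2
  obtain fin : |Y j| ≤ γ * Λ ^ 2 + μ j ^ 4 * (P + g) + (4 * μ j ^ 2 * P + Λ ^ 3 * g) :=
    le_of_mul_le_mul_left (by linarith only [tot]) hU0
  obtain c1 : 4 * μ j ^ 2 ≤ μ j ^ 4 := by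
    obtain b1 : 4 ≤ μ j ^ 2 := by nlinarith only [hM]
    obtain b2 := mul_le_mul_of_nonneg_right b1 (sq_nonneg (μ j))
    linarith only [b2]
  have c2 : μ j ^ 4 ≤ Λ ^ 4 := pow_le_pow_left₀ hM0 hMΛ 4
  obtain c3 : Λ ^ 3 ≤ Λ ^ 4 := pow_le_pow_right₀ (by linarith only [hM, hMΛ]) (by norm_num)
  have c4 := mul_le_mul_of_nonneg_right c1 hP0
  have c5 := mul_le_mul_of_nonneg_right c2 hg
  have c6 := mul_le_mul_of_nonneg_right c3 hg
  obtain c7 : α * μ j ^ (e + 4) * D j = μ j ^ 4 * P := by rw [hP]; ring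
  rw [c7]; linarith only [fin, c4, c5, c6]

end APF

theorem apf1 : APF1_s := by
  intro S E e μ D Y J m Λ α r h hΛ hm1 hm hα hr hrΛ hq h0 h1
  obtain main : ∀ n : ℕ, ∀ j : ℤ, 0 ≤ j → j ≤ m → j < n → |Y j| ≤ α * μ j ^ (e + 7) := by
    intro n
    induction n with
    | zero => intro j a1 _ a3; omega
    | succ n ih =>
      intro j a1 a2 a3
      obtain hM := h.big j a1 (by omega)
      obtain hM0 : 0 ≤ μ j := by linarith only [hM]
      obtain hMΛ : μ j ≤ Λ := (h.mono j J a1 (by omega) le_rfl).trans hΛ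
      set P := α * μ j ^ e with hP
      obtain hP0 : 0 ≤ P := mul_nonneg hα (pow_nonneg hM0 _)
      obtain up : ∀ i, 0 ≤ i → i ≤ j → ∀ k : ℕ, α * μ i ^ k ≤ α * μ j ^ k := fun i b1 b2 k =>
        mul_le_mul_of_nonneg_left (pow_le_pow_left₀
          (by have := h.big i b1 (by omega); linarith only [this]) (h.mono i j b1 b2 (by omega)) k) hα
      obtain e7 : α * μ j ^ (e + 7) = μ j ^ 7 * P := by rw [hP]; ring
      obtain c1 : μ j + 3 * μ j ^ 2 ≤ μ j ^ 7 := by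
        obtain b1 : μ j ^ 3 ≤ μ j ^ 7 := pow_le_pow_right₀ (by linarith only [hM]) (by norm_num)
        nlinarith only [hM, b1, mul_nonneg hM0 hM0]
      obtain c2 := mul_le_mul_of_nonneg_right c1 hP0
      rcases a1.eq_or_lt with rfl | hj
      · rw [e7]
        obtain b1 : (1 : ℝ) ≤ μ 0 ^ 7 := one_le_pow₀ (by linarith only [hM])
        exact h0.trans (le_mul_of_one_le_left hP0 b1)
      obtain v := S.voc (Z := Y) (q := S.df Y) (s := 1) (n := m) (fun i _ _ => APF.rec_df S Y i)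
        (show 1 ≤ j by omega) a2
      rw [show (1 : ℤ) - 1 = 0 by ring] at v
      obtain f1 : |S.fr 1 j| ≤ μ j := by simpa using h.frle 0 j le_rfl hj (by omega)
      obtain f2 : |S.fr (1 + 1) j| ≤ μ j := by
        rcases (show 1 = j ∨ 1 < j by omega) with rfl | b
        · rw [S.fr_succ_self, abs_zero]; exact hM0
        · exact h.frle 1 j (by omega) b (by omega)
      obtain t1 : |Y 1 * S.fr 1 j| ≤ P * μ j := by
        rw [abs_mul]
        exact mul_le_mul (h1.trans (up 1 (by omega) (by omega) e)) f1 (abs_nonneg _) hP0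
      obtain t2 : |S.b 1 * Y 0 * S.fr (1 + 1) j| ≤ μ j * P * μ j := by
        rw [abs_mul, abs_mul, abs_of_pos (h.bpos 1 le_rfl h.J1)]
        refine mul_le_mul (mul_le_mul ?_ (h0.trans (up 0 le_rfl hj.le e)) (abs_nonneg _) hM0) f2
          (abs_nonneg _) (mul_nonneg hM0 hP0)
        exact (h.ble 1 le_rfl h.J1).trans (h.mono 1 j (by omega) (by omega) (by omega))
      obtain t3 : ∑ i ∈ Ico 1 j, |S.fr (i + 1) j * S.df Y i| ≤ μ j * (μ j * (2 * P)) := by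
        refine APF.sum_le_card (by (clear * - hM hα; positivity)) (by omega)
          (by have := h.len j hj.le (by omega); push_cast; linarith only [this]) fun i b1 b2 => ?_
        rw [abs_mul]
        refine mul_le_mul (h.frle i j (by omega) b2 (by omega)) ?_ (abs_nonneg _) hM0
        obtain d1 := (ih i (by omega) (by omega) (by omega)).trans (up i (by omega) b2.le _)
        obtain d2 := (ih (i - 1) (by omega) (by omega) (by omega)).trans
          (up (i - 1) (by omega) (by omega) _)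
        rw [e7] at d1 d2
        obtain d3 : S.b i * |Y (i - 1)| ≤ μ j * (μ j ^ 7 * P) :=
          mul_le_mul ((h.ble i b1 (by omega)).trans (h.mono i j (by omega) b2.le (by omega))) d2
            (abs_nonneg _) hM0
        obtain d4 : r * S.sz Y i ≤ r * ((μ j ^ 7 + μ j ^ 8) * P) :=
          mul_le_mul_of_nonneg_left (by unfold Sq.sz; linarith only [d1, d3]) hr
        obtain d5 := mul_le_mul_of_nonneg_right (APF.small hr hrΛ hM hMΛ) hP0
        obtain d6 := hq i b1 (by omega)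
        obtain d7 := up i (by omega) b2.le e
        linarith only [d4, d5, d6, d7]
      obtain t4 := (abs_sum_le_sum_abs _ _).trans t3
      rw [e7, v]
      refine (abs_add_le _ _).trans ((add_le_add ((abs_add_le _ _).trans (add_le_add t1 t2)) t4).trans ?_)
      linarith only [c2]
  intro j a1 a2
  exact main (j.toNat + 1) j a1 a2 (by omega)

theorem apf2 : APF2_s := by
  intro S E e μ D Y J Λ α γ r h hΛ he hα hγ hr hrΛ hq h0 hJ
  obtain J1 := h.J1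
  obtain top : ∀ i, 0 ≤ i → i ≤ J → μ i ≤ Λ := fun i h1 h2 => (h.mono i J h1 h2 le_rfl).trans hΛ
  obtain hΛ1 : 1000 ≤ Λ := (h.big J (by omega) le_rfl).trans hΛ
  obtain hΛ0 : 0 ≤ Λ := by linarith only [hΛ1]
  obtain ⟨j0, hj0, hmax⟩ := exists_max_image (Icc 0 J)
    (fun j => |Y j| - (α * μ j ^ (e + 7) * D j + γ * Λ ^ 7)) ⟨0, mem_Icc.2 ⟨le_rfl, by omega⟩⟩
  obtain ⟨a1, a2⟩ := mem_Icc.1 hj0
  set T := |Y j0| - (α * μ j0 ^ (e + 7) * D j0 + γ * Λ ^ 7) with hT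
  obtain hY : ∀ j, 0 ≤ j → j ≤ J → |Y j| ≤ α * μ j ^ (e + 7) * D j + γ * Λ ^ 7 + T := fun j b1 b2 => by
    obtain this := hmax j (mem_Icc.2 ⟨b1, b2⟩)
    linarith only [this]
  obtain hT0 : T ≤ 0 := by
    by_contra hn
    obtain hT1 : 0 < T := not_le.1 hn
    obtain hM := h.big j0 a1 a2
    obtain hM0 : 0 ≤ μ j0 := by linarith only [hM]
    obtain hD := h.Dpos j0 a1 a2
    obtain hQ : 0 ≤ α * μ j0 ^ (e + 4) * D j0 := by (clear * - hα hM hD; positivity)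
    obtain e7 : α * μ j0 ^ (e + 7) * D j0 = μ j0 ^ 3 * (α * μ j0 ^ (e + 4) * D j0) := by ring
    obtain c0 : 4 ≤ μ j0 ^ 3 := by nlinarith only [hM, mul_nonneg hM0 hM0]
    obtain c1 := mul_le_mul_of_nonneg_right c0 hQ
    obtain c2 : 0 ≤ γ * Λ ^ 7 := by (clear * - hγ hΛ1; positivity)
    rcases a1.eq_or_lt with rfl | hj
    · rw [h0, abs_zero] at hT
      linarith only [c2, hT, hn, hQ, e7, c1]
    obtain hq' : ∀ i, 1 ≤ i → i < J →
        |S.df Y i| ≤ 2 * α * μ i ^ e * D i + (2 * γ + r * (1 + Λ) * T) := fun i b1 b2 => by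
      obtain hi := h.big i (by omega) b2.le
      obtain hi0 : 0 ≤ μ i := by linarith only [hi]
      obtain hDi := h.Dpos i (by omega) b2.le
      have hb := h.bpos i b1 b2.le
      obtain hP : 0 ≤ α * μ i ^ e * D i := by (clear * - hα hi hDi; positivity)
      obtain d1 := hY i (by omega) b2.le
      obtain d2 := mul_le_mul_of_nonneg_left (hY (i - 1) (by omega) (by omega)) hb.le
      obtain d3 : S.b i * D (i - 1) ≤ μ i * D i := by
        obtain this := h.PbD (i - 1) i (by omega) (by omega) b2.le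
        obtain e1 := S.Pb_one (i - 1)
        rw [sub_add_cancel] at e1
        rwa [e1] at this
      obtain d4 : α * μ (i - 1) ^ (e + 7) ≤ α * μ i ^ (e + 7) :=
        mul_le_mul_of_nonneg_left (pow_le_pow_left₀
          (by have := h.big (i - 1) (by omega) (by omega); linarith only [this])
          (h.mono (i - 1) i (by omega) (by omega) b2.le) _) hα
      obtain d5 := mul_le_mul d4 d3 (mul_pos hb (h.Dpos (i - 1) (by omega) (by omega))).le
        (by (clear * - hα hi; positivity))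
      obtain d6 : S.b i * (γ * Λ ^ 7 + T) ≤ Λ * (γ * Λ ^ 7 + T) :=
        mul_le_mul_of_nonneg_right ((h.ble i b1 b2.le).trans (top i (by omega) b2.le)) (by linarith only [hn, c2])
      have e8 : μ i ^ (e + 7) = μ i ^ e * μ i ^ 7 := pow_add _ _ _
      obtain d7 : S.sz Y i ≤ (μ i ^ 7 + μ i ^ 8) * (α * μ i ^ e * D i) + (Λ ^ 7 + Λ ^ 8) * γ
          + (1 + Λ) * T := by
        rw [e8] at d1 d5
        unfold Sq.sz
        linarith only [d1, d2, d5, d6]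
      have d8 := mul_le_mul_of_nonneg_left d7 hr
      obtain d9 := mul_le_mul_of_nonneg_right (APF.small hr hrΛ hi (top i (by omega) b2.le)) hP
      have d10 := mul_le_mul_of_nonneg_right (APF.small hr hrΛ hΛ1 le_rfl) hγ
      have d11 := hq i b1 b2
      linarith only [d8, d9, d10, d11]
    obtain L := APF.lin h hΛ (show e + 1 ≤ E by (clear * - he; omega)) (show 0 ≤ 2 * α by linarith only [hα])
      (show 0 ≤ 2 * γ + r * (1 + Λ) * T by (clear * - hγ hr hΛ1 hT1; positivity)) hq' h0 hJ (show 1 ≤ j0 by omega) a2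
    obtain p4 : 0 ≤ Λ ^ 4 := pow_nonneg hΛ0 4
    obtain c3 : 4 * Λ ^ 4 + Λ ^ 2 ≤ Λ ^ 7 := by
      obtain b1 : Λ ^ 2 ≤ Λ ^ 4 := pow_le_pow_right₀ (by linarith only [hΛ1]) (by norm_num)
      obtain b2 : Λ ^ 5 ≤ Λ ^ 7 := pow_le_pow_right₀ (by linarith only [hΛ1]) (by norm_num)
      obtain b3 := mul_le_mul_of_nonneg_right hΛ1 p4
      linarith only [p4, b1, b2, b3]
    obtain c4 := mul_le_mul_of_nonneg_right c3 hγ
    obtain c5 : 4 * ((1 + Λ) * Λ ^ 4) ≤ Λ ^ 10 := by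
      obtain b1 : Λ ^ 4 ≤ Λ ^ 5 := pow_le_pow_right₀ (by linarith only [hΛ1]) (by norm_num)
      obtain b2 : Λ ^ 6 ≤ Λ ^ 10 := pow_le_pow_right₀ (by linarith only [hΛ1]) (by norm_num)
      obtain b3 := mul_le_mul_of_nonneg_right hΛ1 (pow_nonneg hΛ0 5)
      linarith only [p4, b1, b2, b3]
    obtain c6 := mul_le_mul_of_nonneg_right ((mul_le_mul_of_nonneg_left c5 hr).trans hrΛ) hT1.le
    linarith only [hn, e7, c1, L, c4, c6]
  intro j b1 b2
  obtain this := hY j b1 b2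
  linarith only [hT0, this]

end Pool.Agent.MP_9cbfe4_an

end

/-! ### Part BW -/

section

/-! Row BW: the exact backward and forward identities (Bw), (Fw) for the recursion with sources. -/

namespace Pool.Agent.MP_9cbfe4_an
open Finset
namespace Sq
variable (S : Sq)

/-- weighted Wronskian of `P` and `ξ` at time `l` -/
def Wr (P ξ : ℤ → ℝ) (l : ℤ) : ℝ := S.b l * (P l * ξ (l - 1) - ξ l * P (l - 1))

variable {S} {P Q ξ : ℤ → ℝ}

/-- two-time identity, `l ≤ n`; only the recursion on `[l, n)` is used -/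
theorem two_time {l n : ℤ} (hln : l ≤ n)
    (hP : ∀ j, l ≤ j → j < n → P (j + 1) = S.a j * P j + S.b j * P (j - 1) + Q j)
    (hξ : ∀ j, l ≤ j → j < n → ξ (j + 1) = S.a j * ξ j + S.b j * ξ (j - 1)) :
    P l * ξ n - ξ l * P n =
      S.fr (l + 1) n * S.Wr P ξ l - ξ l * ∑ i ∈ Ico l n, S.fr (i + 1) n * Q i := by
  rw [S.voc hP hln le_rfl, S.repr_on hξ hln le_rfl, Wr]; ring

theorem Wr_succ {l : ℤ} (hP : P (l + 1) = S.a l * P l + S.b l * P (l - 1) + Q l)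
    (hξ : ξ (l + 1) = S.a l * ξ l + S.b l * ξ (l - 1)) :
    S.Wr P ξ (l + 1) = -S.b (l + 1) * (S.Wr P ξ l - ξ l * Q l) := by
  simp only [Wr, add_sub_cancel_right]; rw [hP, hξ]; ring

/-- the Wronskian as a sum over the past -/
theorem Wr_eq {s l : ℤ} (hsl : s ≤ l)
    (hP : ∀ j, s ≤ j → j < l → P (j + 1) = S.a j * P j + S.b j * P (j - 1) + Q j)
    (hξ : ∀ j, s ≤ j → j < l → ξ (j + 1) = S.a j * ξ j + S.b j * ξ (j - 1)) :
    S.Wr P ξ l = (-1) ^ (l - s).toNat * S.Pb s l * S.Wr P ξ s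
      - ∑ i ∈ Ico s l, (-1) ^ (l - i).toNat * S.Pb i l * ξ i * Q i := by
  induction l, hsl using Int.leInduction with
  | base => simp [Pb_self]
  | succ l hl ih =>
    obtain ih := ih (fun j h1 h2 => hP j h1 (by omega)) fun j h1 h2 => hξ j h1 (by omega)
    obtain e : ∑ i ∈ Ico s l, (-1) ^ (l + 1 - i).toNat * S.Pb i (l + 1) * ξ i * Q i =
        -S.b (l + 1) * ∑ i ∈ Ico s l, (-1) ^ (l - i).toNat * S.Pb i l * ξ i * Q i := by
      rw [mul_sum]
      refine sum_congr rfl fun i hi => ?_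
      have h := (mem_Ico.1 hi).2
      rw [show (l + 1 - i).toNat = (l - i).toNat + 1 by omega, pow_succ,
        S.Pb_mul h.le (show l ≤ l + 1 by omega), Pb_one]; ring
    rw [Wr_succ (hP l hl (by omega)) (hξ l hl (by omega)), sum_Ico_succ _ hl, e, ih,
      show (l + 1 - s).toNat = (l - s).toNat + 1 by omega, pow_succ,
      S.Pb_mul hl (show l ≤ l + 1 by omega), Pb_one, show (l + 1 - l).toNat = 1 by omega]
    ring

/-- `B i` majorises `|Pb i l|`, `w` majorises `|ξ|`, `q` majorises `|Q|` -/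
theorem Wr_le {s l : ℤ} (hsl : s ≤ l) {B w q : ℤ → ℝ}
    (hP : ∀ j, s ≤ j → j < l → P (j + 1) = S.a j * P j + S.b j * P (j - 1) + Q j)
    (hξ : ∀ j, s ≤ j → j < l → ξ (j + 1) = S.a j * ξ j + S.b j * ξ (j - 1))
    (hB : ∀ i, s ≤ i → i < l → |S.Pb i l| ≤ B i) (hw : ∀ i, s ≤ i → i < l → |ξ i| ≤ w i)
    (hq : ∀ i, s ≤ i → i < l → |Q i| ≤ q i) :
    |S.Wr P ξ l| ≤ |S.Pb s l| * |S.Wr P ξ s| + ∑ i ∈ Ico s l, B i * w i * q i := by
  rw [Wr_eq hsl hP hξ]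
  refine (abs_sub _ _).trans (add_le_add (by simp [abs_mul, abs_pow])
    ((abs_sum_le_sum_abs _ _).trans (sum_le_sum fun i hi => ?_)))
  obtain ⟨h1, h2⟩ := mem_Ico.1 hi
  simp only [abs_mul, abs_pow, abs_neg, abs_one, one_pow, one_mul]
  exact mul_le_mul (mul_le_mul (hB i h1 h2) (hw i h1 h2) (abs_nonneg _)
    ((abs_nonneg _).trans (hB i h1 h2))) (hq i h1 h2) (abs_nonneg _)
    (mul_nonneg ((abs_nonneg _).trans (hB i h1 h2)) ((abs_nonneg _).trans (hw i h1 h2)))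

/-- (Bw), local form, with `E_i^n = fr (i+1) n / ξ n` -/
theorem bw_loc {l n : ℤ} (hln : l ≤ n) (h0 : ξ n ≠ 0)
    (hP : ∀ j, l ≤ j → j < n → P (j + 1) = S.a j * P j + S.b j * P (j - 1) + Q j)
    (hξ : ∀ j, l ≤ j → j < n → ξ (j + 1) = S.a j * ξ j + S.b j * ξ (j - 1)) :
    P l = ξ l * (P n / ξ n) - ξ l * ∑ i ∈ Ico l n, S.fr (i + 1) n / ξ n * Q i
      + S.fr (l + 1) n / ξ n * S.Wr P ξ l := by
  have h := two_time hln hP hξ
  obtain e : ∑ i ∈ Ico l n, S.fr (i + 1) n / ξ n * Q i =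
      (∑ i ∈ Ico l n, S.fr (i + 1) n * Q i) / ξ n := by
    rw [sum_div]; exact sum_congr rfl fun i _ => by ring
  rw [e]; field_simp; linear_combination h

/-- (Bw) -/
theorem bw {s l n : ℤ} (hsl : s ≤ l) (hln : l ≤ n) (h0 : ξ n ≠ 0)
    (hP : ∀ j, s ≤ j → j < n → P (j + 1) = S.a j * P j + S.b j * P (j - 1) + Q j)
    (hξ : ∀ j, s ≤ j → j < n → ξ (j + 1) = S.a j * ξ j + S.b j * ξ (j - 1)) :
    P l = ξ l * (P n / ξ n) - ξ l * ∑ i ∈ Ico l n, S.fr (i + 1) n / ξ n * Q i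
      + S.fr (l + 1) n / ξ n * ((-1) ^ (l - s).toNat * S.Pb s l * S.Wr P ξ s
        - ∑ i ∈ Ico s l, (-1) ^ (l - i).toNat * S.Pb i l * ξ i * Q i) := by
  rw [← Wr_eq hsl (fun j h1 h2 => hP j h1 (by omega)) fun j h1 h2 => hξ j h1 (by omega)]
  exact bw_loc hln h0 (fun j h1 => hP j (hsl.trans h1)) fun j h1 => hξ j (hsl.trans h1)

/-- (Fw), local form, `n ≤ l` -/
theorem fw_loc {n l : ℤ} (hnl : n ≤ l) (h0 : ξ n ≠ 0)
    (hP : ∀ j, n ≤ j → j < l → P (j + 1) = S.a j * P j + S.b j * P (j - 1) + Q j)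
    (hξ : ∀ j, n ≤ j → j < l → ξ (j + 1) = S.a j * ξ j + S.b j * ξ (j - 1)) :
    P l = ξ l * (P n / ξ n) + ∑ i ∈ Ico n l, S.fr (i + 1) l * Q i
      - S.fr (n + 1) l * (S.Wr P ξ n / ξ n) := by
  have h := two_time hnl hP hξ
  field_simp; linear_combination (-1 : ℝ) * h

/-- (Bw) in absolute values: `E i` majorises `|fr (i+1) n / ξ n|` -/
theorem bw_le {s l n : ℤ} (hsl : s ≤ l) (hln : l ≤ n) (h0 : ξ n ≠ 0) {B E w q : ℤ → ℝ}
    (hP : ∀ j, s ≤ j → j < n → P (j + 1) = S.a j * P j + S.b j * P (j - 1) + Q j)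
    (hξ : ∀ j, s ≤ j → j < n → ξ (j + 1) = S.a j * ξ j + S.b j * ξ (j - 1))
    (hB : ∀ i, s ≤ i → i < l → |S.Pb i l| ≤ B i) (hw : ∀ i, s ≤ i → i ≤ l → |ξ i| ≤ w i)
    (hE : ∀ i, l ≤ i → i ≤ n → |S.fr (i + 1) n / ξ n| ≤ E i)
    (hq : ∀ i, s ≤ i → i < n → |Q i| ≤ q i) :
    |P l - ξ l * (P n / ξ n)| ≤ w l * ∑ i ∈ Ico l n, E i * q i
      + E l * (|S.Pb s l| * |S.Wr P ξ s| + ∑ i ∈ Ico s l, B i * w i * q i) := by
  have h := bw_loc hln h0 (fun j h1 => hP j (hsl.trans h1)) fun j h1 => hξ j (hsl.trans h1)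
  obtain h1 : |∑ i ∈ Ico l n, S.fr (i + 1) n / ξ n * Q i| ≤ ∑ i ∈ Ico l n, E i * q i :=
    (abs_sum_le_sum_abs _ _).trans (sum_le_sum fun i hi => by
      obtain ⟨a, b⟩ := mem_Ico.1 hi
      rw [abs_mul]
      exact mul_le_mul (hE i a b.le) (hq i (hsl.trans a) b) (abs_nonneg _)
        ((abs_nonneg _).trans (hE i a b.le)))
  obtain h2 := Wr_le hsl (fun j a b => hP j a (by omega)) (fun j a b => hξ j a (by omega)) hB
    (fun i a b => hw i a b.le) fun i a b => hq i a (by omega)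
  rw [show P l - ξ l * (P n / ξ n) = S.fr (l + 1) n / ξ n * S.Wr P ξ l
    - ξ l * ∑ i ∈ Ico l n, S.fr (i + 1) n / ξ n * Q i by linarith only [h]]
  refine (abs_sub _ _).trans ?_
  rw [abs_mul, abs_mul, add_comm]
  exact add_le_add (mul_le_mul (hw l hsl le_rfl) h1 (abs_nonneg _)
    ((abs_nonneg _).trans (hw l hsl le_rfl)))
    (mul_le_mul (hE l le_rfl hln) h2 (abs_nonneg _) ((abs_nonneg _).trans (hE l le_rfl hln)))

/-- block identity behind J2: (Fw) from `x` to `J`, divided by `fr (x+1) J` -/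
theorem blk_id {x J : ℤ} (hxJ : x < J) (h0 : ξ x ≠ 0) (hJ : S.fr (x + 1) J ≠ 0)
    (hP : ∀ j, x ≤ j → j < J → P (j + 1) = S.a j * P j + S.b j * P (j - 1) + Q j)
    (hξ : ∀ j, x ≤ j → j < J → ξ (j + 1) = S.a j * ξ j + S.b j * ξ (j - 1)) :
    P J / S.fr (x + 1) J = S.rho ξ x J * P x + Q x - S.Wr P ξ x / ξ x
      + ∑ i ∈ Ico (x + 1) J, S.fr (i + 1) J / S.fr (x + 1) J * Q i := by
  have h := fw_loc hxJ.le h0 hP hξ
  obtain e : Ico x J = insert x (Ico (x + 1) J) := by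
    ext l; simp only [mem_Ico, mem_insert]; omega
  obtain e2 : ∑ i ∈ Ico (x + 1) J, S.fr (i + 1) J / S.fr (x + 1) J * Q i =
      (∑ i ∈ Ico (x + 1) J, S.fr (i + 1) J * Q i) / S.fr (x + 1) J := by
    rw [sum_div]; exact sum_congr rfl fun i _ => by ring
  rw [e, sum_insert (by simp)] at h
  rw [e2, rho, h]; field_simp; ring

end Sq
end Pool.Agent.MP_9cbfe4_an

end

/-! ### Part APH -/

section

/-! Row APH: the history boundary value problem. -/

namespace Pool.Agent.MP_9cbfe4_an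
namespace APH
open Finset

/-- closing an a priori estimate on a finite interval -/
theorem close {y T : ℤ → ℝ} {a b : ℤ} (hT : ∀ l, a ≤ l → l ≤ b → 0 < T l)
    (h : ∀ N : ℝ, 0 ≤ N → (∀ l, a ≤ l → l ≤ b → y l ≤ N * T l) →
      ∀ l, a ≤ l → l ≤ b → y l ≤ (1 + N) / 2 * T l) : ∀ l, a ≤ l → l ≤ b → y l ≤ T l := by
  intro l h1 h2
  obtain ⟨m, hm, H⟩ := exists_max_image (Icc a b) (fun l => y l / T l) ⟨l, mem_Icc.2 ⟨h1, h2⟩⟩
  rw [mem_Icc] at hm
  have key : ∀ N, y m / T m ≤ N → ∀ l, a ≤ l → l ≤ b → y l ≤ N * T l := fun N hN l h1 h2 =>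
    (div_le_iff₀ (hT l h1 h2)).1 ((H l (mem_Icc.2 ⟨h1, h2⟩)).trans hN)
  by_cases h0 : y m / T m ≤ 1
  · simpa using key 1 h0 l h1 h2
  · obtain this := h (y m / T m) (by linarith only [h0]) (key _ le_rfl) m hm.1 hm.2
    rw [← div_le_iff₀ (hT m hm.1 hm.2)] at this
    linarith only [h0, this]

theorem geo (l : ℤ) (n : ℕ) :
    ∑ i ∈ Ico (l - n) l, (3 / 4 : ℝ) ^ (l - i).toNat = 3 - 3 * (3 / 4) ^ n := by
  induction n with
  | zero => simp
  | succ n ih =>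
    obtain e : Ico (l - (n + 1 : ℕ)) l = insert (l - (n + 1 : ℕ)) (Ico (l - n) l) := by
      ext i; simp only [mem_Ico, mem_insert]; omega
    rw [e, sum_insert (by simp only [mem_Ico]; omega), ih, sub_sub_cancel, Int.toNat_natCast]
    ring

theorem geo_le (s l : ℤ) : ∑ i ∈ Ico s l, (3 / 4 : ℝ) ^ (l - i).toNat ≤ 3 := by
  rcases le_total s l with h | h
  · obtain ⟨n, rfl⟩ : ∃ n : ℕ, s = l - n := ⟨(l - s).toNat, by omega⟩
    rw [geo]; linarith only [pow_pos (show (0 : ℝ) < 3 / 4 by norm_num) n]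
  · simp [Ico_eq_empty_of_le h]

theorem sum_le_mul {f : ℤ → ℝ} {a b : ℤ} {A n : ℝ} (hA : 0 ≤ A) (hn0 : 0 ≤ n) (hn : (b : ℝ) - a ≤ n)
    (h : ∀ i, a ≤ i → i < b → f i ≤ A) : ∑ i ∈ Ico a b, f i ≤ n * A := by
  refine (sum_le_card_nsmul _ _ A fun i hi => h i (mem_Ico.1 hi).1 (mem_Ico.1 hi).2).trans ?_
  rw [nsmul_eq_mul, Int.card_Ico]
  gcongr
  rcases le_total 0 (b - a) with h0 | h0
  · obtain this : (((b - a).toNat : ℤ) : ℝ) = ((b - a : ℤ) : ℝ) := by rw [Int.toNat_of_nonneg h0]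
    push_cast at this; linarith only [hn, this]
  · simp [Int.toNat_eq_zero.2 h0, hn0]

variable {S : Sq} {E : ℕ} {ξ w μ Y : ℤ → ℝ} {s : ℤ} (H : S.HC E ξ w μ s)
include H

theorem Pb_pos {i j : ℤ} (hi : s - 1 ≤ i) (hj : j ≤ 0) : 0 < S.Pb i j :=
  prod_pos fun l hl => H.bpos l (by have := (mem_Ioc.1 hl).1; omega) ((mem_Ioc.1 hl).2.trans hj)

theorem kp_pos {i j : ℤ} (hi : s - 1 ≤ i) (hij : i ≤ j) (hj : j ≤ 0) : 0 < S.kp w i j :=
  div_pos (mul_pos (Pb_pos H hi hj) (H.wpos i hi (by omega))) (H.wpos j (by omega) hj)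

theorem kp_mul {i j l : ℤ} (hi : s - 1 ≤ i) (hij : i ≤ j) (hjl : j ≤ l) (hl : l ≤ 0) :
    S.kp w i l = S.kp w i j * S.kp w j l := by
  obtain this := (H.wpos j (by omega) (by omega)).ne'
  unfold Sq.kp; rw [S.Pb_mul hij hjl]; field_simp

theorem kp_le {i j : ℤ} (hi : s - 1 ≤ i) (hij : i ≤ j) (hj : j ≤ 0) : S.kp w i j ≤ μ j := by
  have h1 := H.kap 0 (Nat.zero_le _) i j hi hij hj
  rw [pow_zero, mul_one, zero_add, pow_one] at h1
  exact h1.trans (mul_le_of_le_one_right (by linarith only [hi, hij, H.big j (by omega) hj])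
    (pow_le_one₀ (by norm_num) (by norm_num)))

theorem fr_le {l : ℤ} (h1 : s - 1 ≤ l) (h2 : l ≤ 0) : |S.fr (l + 1) 0| * w l ≤ 4 * μ l := by
  obtain hμ : 0 ≤ μ l := by linarith only [H.big l h1 h2]
  rcases eq_or_lt_of_le h2 with rfl | h3
  · rw [S.fr_succ_self, abs_zero, zero_mul]; linarith only [hμ]
  · exact (H.frle l 0 h1 h3 le_rfl).trans
      ((mul_le_mul_of_nonneg_left H.w0 hμ).trans_eq (mul_comm _ _))

/-- the Green function bound -/
theorem green {B : ℝ} {q : ℤ → ℝ} (hq : ∀ i, s ≤ i → i < 0 → |S.df Y i| ≤ q i) (_hB0 : 0 ≤ B)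
    (hB : |ξ s * Y (s - 1) - ξ (s - 1) * Y s| ≤ B * w (s - 1)) {l : ℤ} (h1 : s - 1 ≤ l) (h2 : l ≤ 0) :
    |Y l| ≤ w l * |Y 0| + ∑ i ∈ Ico (max l s) 0, w l * (|S.fr (i + 1) 0| * q i) +
      4 * μ l * (B * S.kp w (s - 1) l + ∑ i ∈ Ico s l, S.kp w i l * q i) := by
  obtain hP : ∀ j, s ≤ j → j < 0 → Y (j + 1) = S.a j * Y j + S.b j * Y (j - 1) + S.df Y j :=
    fun j _ _ => by unfold Sq.df; ring
  have hw := H.wpos l h1 h2
  have hξ := H.maj l h1 h2
  have hf := fr_le H h1 h2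
  obtain e1 : |ξ l * Y 0| ≤ w l * |Y 0| := by rw [abs_mul]; gcongr
  obtain e2 : |ξ l * ∑ i ∈ Ico (max l s) 0, S.fr (i + 1) 0 * S.df Y i| ≤
      ∑ i ∈ Ico (max l s) 0, w l * (|S.fr (i + 1) 0| * q i) := by
    rw [abs_mul, ← mul_sum]
    refine mul_le_mul hξ ((abs_sum_le_sum_abs _ _).trans (sum_le_sum fun i hi => ?_)) (abs_nonneg _)
      hw.le
    rw [mem_Ico] at hi
    rw [abs_mul]
    exact mul_le_mul_of_nonneg_left (hq i (by omega) hi.2) (abs_nonneg _)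
  obtain fin : ∀ W C : ℝ, Y l = ξ l * Y 0 - ξ l * ∑ i ∈ Ico (max l s) 0, S.fr (i + 1) 0 * S.df Y i +
      S.fr (l + 1) 0 * W → |W| ≤ w l * C → |Y l| ≤ w l * |Y 0| +
        ∑ i ∈ Ico (max l s) 0, w l * (|S.fr (i + 1) 0| * q i) + 4 * μ l * C := fun W C e hW => by
    have hC : 0 ≤ C := nonneg_of_mul_nonneg_right ((abs_nonneg _).trans hW) hw
    obtain e3 : |S.fr (l + 1) 0 * W| ≤ 4 * μ l * C := by
      rw [abs_mul]
      calc _ ≤ |S.fr (l + 1) 0| * (w l * C) := by gcongr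
        _ = |S.fr (l + 1) 0| * w l * C := by ring
        _ ≤ _ := by gcongr
    rw [e]
    exact (abs_add_le _ _).trans (add_le_add ((abs_sub _ _).trans (add_le_add e1 e2)) e3)
  rcases eq_or_lt_of_le h1 with rfl | h3
  · refine fin (ξ s * Y (s - 1) - ξ (s - 1) * Y s) _ ?_ ?_
    · have a1 := S.voc hP H.s0 le_rfl
      have a2 := S.repr_on H.sol H.s0 le_rfl
      rw [H.one] at a2
      rw [max_eq_right (by omega), sub_add_cancel]
      linear_combination Y (s - 1) * a2 - ξ (s - 1) * a1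
    · rw [Ico_eq_empty_of_le (by omega), sum_empty, add_zero, Sq.kp, S.Pb_self, one_mul, div_self hw.ne']
      linarith only [hB]
  · obtain h4 : s ≤ l := by omega
    refine fin (S.Wr Y ξ l) _ ?_ ?_
    · obtain a1 := Sq.two_time h2 (fun j a => hP j (by omega)) fun j a => H.sol j (by omega)
      rw [H.one] at a1
      rw [max_eq_left h4]; linear_combination a1
    · obtain a1 := Sq.Wr_le (B := fun i => S.Pb i l) (w := w) (q := q) h4 (fun j a b => hP j a (by omega))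
        (fun j a b => H.sol j a (by omega))
        (fun i a _ => (abs_of_pos (Pb_pos H (by omega) h2)).le)
        (fun i a b => H.maj i (by omega) (by omega)) fun i a b => hq i a (by omega)
      refine a1.trans (le_of_le_of_eq (add_le_add (show _ ≤ S.Pb (s - 1) l * (B * w (s - 1)) from ?_) le_rfl) ?_)
      · have b0 := H.bpos s le_rfl H.s0
        obtain p0 := Pb_pos H (show s - 1 ≤ s by omega) h2
        obtain e : S.Pb (s - 1) l = S.b s * S.Pb s l := by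
          rw [S.Pb_mul (show s - 1 ≤ s by omega) h4]
          have := S.Pb_one (s - 1); rw [sub_add_cancel] at this; rw [this]
        rw [Sq.Wr, abs_mul, abs_of_pos b0, abs_of_pos p0, e, abs_sub_comm, mul_comm (Y s)]
        calc _ ≤ S.Pb s l * (S.b s * (B * w (s - 1))) := by gcongr
          _ = _ := by ring
      · rw [mul_add, mul_sum]
        congr 1
        · unfold Sq.kp; field_simp
        · exact sum_congr rfl fun i _ => by unfold Sq.kp; field_simp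

omit H in
theorem i1 {s j : ℤ} (h : s ≤ j) : s - 1 ≤ j := by omega
omit H in
theorem i2 {s j : ℤ} (h : s ≤ j) : s - 1 ≤ j - 1 := by omega
omit H in
theorem i3 {j : ℤ} (h : j < 0) : j - 1 < 0 := by omega
omit H in
theorem i4 (j : ℤ) : j - 1 ≤ j := by omega

omit H in
theorem q1 {m Λ : ℝ} (m0 : 1000 ≤ m) (m1 : m ≤ Λ) :
    4 * m + 4 * m ^ 3 + 12 * m ^ 2 ≤ m ^ 7 / 2 ∧
      4 * m * Λ + 4 * m ^ 3 * Λ + 4 * m + 4 * m * Λ ≤ Λ ^ 7 / 2 := by
  obtain c1 : 1 ≤ m := by linarith only [m0]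
  obtain c0 : 0 ≤ m := by linarith only [m0]
  have l1 : 1 ≤ Λ := c1.trans m1
  have l0 : 0 ≤ Λ := c0.trans m1
  have p3 := pow_nonneg c0 3
  have q3 := mul_nonneg (pow_nonneg l0 3) l0
  constructor
  · obtain a2 : m ≤ m ^ 3 := le_self_pow₀ c1 (by norm_num)
    obtain a3 : m ^ 2 ≤ m ^ 3 := pow_le_pow_right₀ c1 (by norm_num)
    obtain a4 : m ^ (3 + 1) ≤ m ^ 7 := pow_le_pow_right₀ c1 (by norm_num)
    have a5 : m ^ 3 * 1000 ≤ m ^ 3 * m := mul_le_mul_of_nonneg_left m0 p3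
    rw [pow_succ] at a4
    linarith only [a2, a3, a4, a5, p3]
  · obtain a1 : m ≤ Λ ^ 3 := m1.trans (le_self_pow₀ l1 (by norm_num))
    have a2 : m ^ 3 ≤ Λ ^ 3 := pow_le_pow_left₀ c0 m1 3
    have a3 : m * Λ ≤ Λ ^ 3 * Λ := mul_le_mul_of_nonneg_right a1 l0
    have a4 : m ^ 3 * Λ ≤ Λ ^ 3 * Λ := mul_le_mul_of_nonneg_right a2 l0
    have a5 : m ≤ m * Λ := le_mul_of_one_le_right c0 l1
    obtain a6 : Λ ^ (3 + 1 + 1) ≤ Λ ^ 7 := pow_le_pow_right₀ l1 (by norm_num)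
    have a7 : Λ ^ 3 * Λ * 1000 ≤ Λ ^ 3 * Λ * Λ := mul_le_mul_of_nonneg_left (m0.trans m1) q3
    rw [pow_succ, pow_succ] at a6
    linarith only [a3, a4, a5, a6, a7, q3]

omit H in
theorem q2 {m Λ α β r N κ κ' b y y' Z d : ℝ} {e : ℕ} (m0 : 1000 ≤ m) (m1 : m ≤ Λ) (hα : 0 ≤ α)
    (hβ : 0 ≤ β) (hr : 0 ≤ r) (hN : 0 ≤ N) (k0 : 0 ≤ κ) (b0 : 0 ≤ b) (r8 : r * Λ ^ 10 ≤ 1)
    (y1 : y ≤ N * (α * m ^ (e + 7) + β * Λ ^ 7 * κ)) (y2 : y' ≤ N * (α * Z + β * Λ ^ 7 * κ'))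
    (c1 : b * Z ≤ m ^ (e + 7 + 1)) (c2 : b * κ' ≤ Λ * κ)
    (hq : d ≤ α * m ^ e + β * κ + r * (y + b * y')) : d ≤ (1 + N) * (α * m ^ e + β * κ) := by
  obtain c0 : 0 ≤ m := by linarith only [m0]
  obtain l1 : 1 ≤ Λ := by linarith only [m0, m1]
  obtain l2 : 2 ≤ Λ := by linarith only [m0, m1]
  have l0 : 0 ≤ Λ := c0.trans m1
  have pe := pow_nonneg c0 e
  obtain d3 : Λ ^ 7 ≤ Λ ^ 8 := pow_le_pow_right₀ l1 (by norm_num)
  obtain r9 : r * (Λ ^ 8 * 2) ≤ 1 := by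
    refine le_trans (mul_le_mul_of_nonneg_left ?_ hr) r8
    refine (mul_le_mul_of_nonneg_left l2 (pow_nonneg l0 8)).trans ?_
    rw [← pow_succ]
    exact pow_le_pow_right₀ l1 (by norm_num)
  obtain d1 : m ^ (e + 7) ≤ m ^ e * Λ ^ 8 := by
    rw [pow_add]
    exact mul_le_mul_of_nonneg_left ((pow_le_pow_left₀ c0 m1 7).trans d3) pe
  obtain d2 : m ^ (e + 7 + 1) ≤ m ^ e * Λ ^ 8 := by
    rw [add_assoc, pow_add]
    exact mul_le_mul_of_nonneg_left (pow_le_pow_left₀ c0 m1 8) pe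
  have z1 := mul_le_mul_of_nonneg_left d1 hα
  have z2 := mul_le_mul_of_nonneg_left (c1.trans d2) hα
  have z3 := mul_le_mul_of_nonneg_right (mul_le_mul_of_nonneg_left d3 hβ) k0
  have z4 := mul_le_mul_of_nonneg_left c2 (mul_nonneg hβ (pow_nonneg l0 7))
  obtain z0 : α * m ^ (e + 7) + β * Λ ^ 7 * κ + b * (α * Z + β * Λ ^ 7 * κ') ≤
      Λ ^ 8 * 2 * (α * m ^ e + β * κ) := by linarith only [z1, z2, z3, z4]
  obtain z5 : y + b * y' ≤ N * (Λ ^ 8 * 2 * (α * m ^ e + β * κ)) := by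
    refine le_trans ?_ (mul_le_mul_of_nonneg_left z0 hN)
    rw [mul_add N, mul_left_comm N b]
    exact add_le_add y1 (mul_le_mul_of_nonneg_left y2 b0)
  have u0 := add_nonneg (mul_nonneg hα pe) (mul_nonneg hβ k0)
  generalize α * m ^ e + β * κ = U at hq z5 u0 ⊢
  have z6 := mul_le_mul_of_nonneg_right r9 (mul_nonneg hN u0)
  have z7 := mul_le_mul_of_nonneg_left z5 hr
  generalize Λ ^ 8 * 2 = V at z6 z7
  linarith only [hq, z6, z7]

omit H in
theorem q3 {m Λ N a k y T1 T2 T3 : ℝ} (m0 : 1000 ≤ m) (m1 : m ≤ Λ) (hN : 0 ≤ N) (a0 : 0 ≤ a)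
    (k0 : 0 ≤ k) (G : y ≤ T1 + T2 + 4 * m * (k + T3)) (t1 : T1 ≤ 4 * m * (a + k * Λ))
    (t2 : T2 ≤ m * (m * (4 * m) * ((1 + N) * (a + k * Λ))))
    (t3 : T3 ≤ (1 + N) * (a * m * 3 + Λ * k)) : y ≤ (1 + N) / 2 * (a * m ^ 7 + k * Λ ^ 7) := by
  obtain c0 : 0 ≤ 4 * m := by linarith only [m0]
  obtain l0 : 0 ≤ Λ := by linarith only [m0, m1]
  have N1 : 1 ≤ 1 + N := le_add_of_nonneg_right hN
  have N0 := zero_le_one.trans N1
  have t3' := mul_le_mul_of_nonneg_left t3 c0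
  have t1' := le_mul_of_one_le_left (mul_nonneg c0 (add_nonneg a0 (mul_nonneg k0 l0))) N1
  have t4 := le_mul_of_one_le_left (mul_nonneg c0 k0) N1
  have n3 := mul_le_mul_of_nonneg_left (q1 m0 m1).1 (mul_nonneg N0 a0)
  have n4 := mul_le_mul_of_nonneg_left (q1 m0 m1).2 (mul_nonneg N0 k0)
  generalize 1 + N = M at *
  linarith only [G, t1, t2, t3', t1', t4, n3, n4]

theorem b_kp {i : ℤ} (a : s ≤ i) (b : i < 0) :
    S.b i * S.kp w (s - 1) (i - 1) ≤ μ i * S.kp w (s - 1) i := by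
  have w1 := H.wpos (i - 1) (i2 a) (i3 b).le
  have w2 := H.wpos i (i1 a) b.le
  have f := H.fwd (i - 1) (i2 a) (i3 b)
  rw [sub_add_cancel] at f
  have p1 := S.Pb_one (i - 1); rw [sub_add_cancel] at p1
  obtain e1 : S.b i * S.kp w (s - 1) (i - 1) = w i / w (i - 1) * S.kp w (s - 1) i := by
    unfold Sq.kp; rw [S.Pb_mul (i2 a) (i4 i), p1]
    field_simp
  rw [e1]
  exact mul_le_mul_of_nonneg_right ((div_le_iff₀ w1).2 f) (kp_pos H le_rfl (i1 a) b.le).le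

theorem mu0 {i : ℤ} (a : s - 1 ≤ i) (b : i ≤ 0) : 0 ≤ μ i := by linarith only [H.big i a b]

theorem later {e : ℕ} {Λ α β : ℝ} (hΛ : μ (s - 1) ≤ Λ) (hα : 0 ≤ α) (hβ : 0 ≤ β) {l i : ℤ}
    (h1 : s - 1 ≤ l) (a : l ≤ i) (b : i ≤ 0) : α * μ i ^ e + β * S.kp w (s - 1) i ≤
      α * μ l ^ e + β * S.kp w (s - 1) l * Λ := by
  rw [kp_mul H le_rfl h1 a b, mul_assoc]
  exact add_le_add (mul_le_mul_of_nonneg_left
    (pow_le_pow_left₀ (mu0 H (h1.trans a) b) (H.mono l i h1 a b) e) hα)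
    (mul_le_mul_of_nonneg_left (mul_le_mul_of_nonneg_left ((kp_le H h1 a b).trans
      ((H.mono _ i le_rfl (h1.trans a) b).trans hΛ)) (kp_pos H le_rfl h1 (a.trans b)).le) hβ)

theorem t2 {q : ℤ → ℝ} {X : ℝ} (hX : 0 ≤ X) {l : ℤ} (h1 : s - 1 ≤ l) (h2 : l ≤ 0)
    (hq : ∀ i, l ≤ i → i < 0 → q i ≤ X) :
    ∑ i ∈ Ico (max l s) 0, w l * (|S.fr (i + 1) 0| * q i) ≤ μ l * (μ l * (4 * μ l) * X) := by
  have m0 := mu0 H h1 h2
  have m4 : 0 ≤ μ l * (4 * μ l) := mul_nonneg m0 (mul_nonneg zero_le_four m0)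
  refine sum_le_mul (mul_nonneg m4 hX) m0 ?_ fun i a b => ?_
  · have c1 := H.len l h1 h2
    have c2 : (l : ℝ) ≤ ((max l s : ℤ) : ℝ) := Int.cast_le.2 (le_max_left l s)
    rw [Int.cast_zero]
    linarith only [c1, c2]
  · have a1 : l ≤ i := (le_max_left _ _).trans a
    have f1 := (fr_le H (h1.trans a1) b.le).trans
      (mul_le_mul_of_nonneg_left (H.mono l i h1 a1 b.le) zero_le_four)
    obtain f2 : w l * |S.fr (i + 1) 0| ≤ μ l * (4 * μ l) := by
      refine (mul_le_mul_of_nonneg_right (H.wle l i h1 a1 b.le) (abs_nonneg _)).trans ?_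
      rw [mul_assoc, mul_comm (w i)]
      exact mul_le_mul_of_nonneg_left f1 m0
    rw [← mul_assoc]
    exact (mul_le_mul_of_nonneg_left (hq i a1 b)
      (mul_nonneg (H.wpos l h1 h2).le (abs_nonneg _))).trans (mul_le_mul_of_nonneg_right f2 hX)

theorem t3 {e : ℕ} {Λ α β M : ℝ} (hΛ : μ (s - 1) ≤ Λ) (he : e ≤ E) (hα : 0 ≤ α) (hβ : 0 ≤ β)
    (hM : 0 ≤ M) {l : ℤ} (h1 : s - 1 ≤ l) (h2 : l ≤ 0) :
    ∑ i ∈ Ico s l, S.kp w i l * (M * (α * μ i ^ e + β * S.kp w (s - 1) i)) ≤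
      M * (α * μ l ^ e * μ l * 3 + Λ * (β * S.kp w (s - 1) l)) := by
  obtain u1 : ∑ i ∈ Ico s l, α * μ l ^ (e + 1) * (3 / 4 : ℝ) ^ (l - i).toNat ≤
      α * μ l ^ (e + 1) * 3 := by
    rw [← mul_sum]
    exact mul_le_mul_of_nonneg_left (geo_le s l) (mul_nonneg hα (pow_nonneg (mu0 H h1 h2) _))
  obtain u2 : ∑ _i ∈ Ico s l, β * S.kp w (s - 1) l ≤ Λ * (β * S.kp w (s - 1) l) := by
    refine sum_le_mul (mul_nonneg hβ (kp_pos H le_rfl h1 h2).le)
      ((mu0 H le_rfl (h1.trans h2)).trans hΛ) ?_ fun _ _ _ => le_rfl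
    have c1 := H.len (s - 1) le_rfl (h1.trans h2)
    have c2 : (l : ℝ) ≤ ((0 : ℤ) : ℝ) := Int.cast_le.2 h2
    rw [Int.cast_sub, Int.cast_one] at c1
    rw [Int.cast_zero] at c2
    linarith only [c1, c2, hΛ]
  rw [mul_assoc α (μ l ^ e), ← pow_succ]
  refine le_trans ?_ (mul_le_mul_of_nonneg_left (add_le_add u1 u2) hM)
  rw [← sum_add_distrib, mul_sum]
  refine sum_le_sum fun i hi => ?_
  rw [mem_Ico] at hi
  have v1 := mul_le_mul_of_nonneg_left (H.kap e he i l (i1 hi.1) hi.2.le h2) hα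
  rw [kp_mul H le_rfl (i1 hi.1) hi.2.le h2, mul_left_comm]
  refine mul_le_mul_of_nonneg_left ?_ hM
  linarith only [v1]

theorem aph_pos {e : ℕ} {Λ α β r : ℝ} (hΛ : μ (s - 1) ≤ Λ) (he : e + 10 ≤ E) (hα : 0 < α) (hβ : 0 ≤ β)
    (hr : 0 ≤ r) (hrΛ : r * Λ ^ 10 ≤ 1)
    (hq : ∀ j, s ≤ j → j < 0 → |S.df Y j| ≤ α * μ j ^ e + β * S.kp w (s - 1) j + r * S.sz Y j)
    (hB : |ξ s * Y (s - 1) - ξ (s - 1) * Y s| ≤ β * w (s - 1))
    (h0 : |Y 0| ≤ α * μ 0 ^ e + β * S.kp w (s - 1) 0) :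
    ∀ j, s - 1 ≤ j → j ≤ 0 → |Y j| ≤ α * μ j ^ (e + 7) + β * Λ ^ 7 * S.kp w (s - 1) j := by
  obtain n1 : e + 7 ≤ E := by omega
  obtain n2 : e ≤ E := by omega
  have top : ∀ j, s - 1 ≤ j → j ≤ 0 → μ j ≤ Λ := fun j a b => (H.mono _ j le_rfl a b).trans hΛ
  refine close (y := fun j => |Y j|) (fun l a b => ?_) fun N hN hY l h1 h2 => ?_
  · have c1 := H.big l a b
    obtain c2 : 0 < μ l := by linarith only [c1]
    exact add_pos_of_pos_of_nonneg (mul_pos hα (pow_pos c2 _)) (mul_nonneg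
      (mul_nonneg hβ (pow_nonneg (c2.le.trans (top l a b)) 7)) (kp_pos H le_rfl a b).le)
  have hq' : ∀ i, s ≤ i → i < 0 →
      |S.df Y i| ≤ (1 + N) * (α * μ i ^ e + β * S.kp w (s - 1) i) := fun i a b =>
    q2 (H.big i (i1 a) b.le) (top i (i1 a) b.le) hα.le hβ hr hN (kp_pos H le_rfl (i1 a) b.le).le
      (H.bpos i a b.le).le hrΛ (hY i (i1 a) b.le) (hY (i - 1) (i2 a) (i3 b).le)
      (H.bmu (e + 7) n1 i a b.le) ((b_kp H a b).trans (mul_le_mul_of_nonneg_right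
        (top i (i1 a) b.le) (kp_pos H le_rfl (i1 a) b.le).le)) (hq i a b)
  have m0 := mu0 H h1 h2
  have a0 := mul_nonneg hα.le (pow_nonneg m0 e)
  have k0 := mul_nonneg hβ (kp_pos H le_rfl h1 h2).le
  have X0 := add_nonneg a0 (mul_nonneg k0 (m0.trans (top l h1 h2)))
  have N0 : 0 ≤ 1 + N := add_nonneg zero_le_one hN
  have t1 : w l * |Y 0| ≤ 4 * μ l * (α * μ l ^ e + β * S.kp w (s - 1) l * Λ) :=
    mul_le_mul ((H.wle l 0 h1 h2 le_rfl).trans ((mul_le_mul_of_nonneg_left H.w0 m0).trans_eq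
      (mul_comm _ _))) (h0.trans (later H hΛ hα.le hβ h1 h2 le_rfl)) (abs_nonneg _)
      (mul_nonneg zero_le_four m0)
  have := q3 (H.big l h1 h2) (top l h1 h2) hN a0 k0 (green H hq' hβ hB h1 h2) t1
    (t2 H (mul_nonneg N0 X0) h1 h2 fun i a b =>
      mul_le_mul_of_nonneg_left (later H hΛ hα.le hβ h1 a b.le) N0)
    (t3 H hΛ n2 hα.le hβ N0 h1 h2)
  rw [pow_add, ← mul_assoc α, mul_right_comm β]
  exact this

end APH

theorem aph : APH_s := by
  intro S E e ξ w μ Y s Λ α β r H hΛ he hα hβ hr hrΛ hq hB h0 j h1 h2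
  refine le_of_forall_pos_le_add fun ε hε => ?_
  obtain hm : ∀ i, s - 1 ≤ i → i ≤ 0 → 0 < μ i := fun i a b => by linarith only [H.big i a b]
  have p := pow_pos (hm j h1 h2) (e + 7)
  have d := div_pos hε p
  obtain this := APH.aph_pos H (α := α + ε / μ j ^ (e + 7)) hΛ he (by linarith only [hα, d]) hβ hr hrΛ
    (fun i a b => (hq i a b).trans (by have := hm i (by omega) b.le; gcongr; linarith only [d])) hB
    (h0.trans (by have := hm 0 (by omega) le_rfl; gcongr; linarith only [d])) j h1 h2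
  rw [add_mul, div_mul_cancel₀ _ p.ne'] at this
  linarith only [this]

end Pool.Agent.MP_9cbfe4_an

end

/-! ### Part SOK -/

section

/-! Row SOK: orbits of the model. -/

namespace Pool.Agent.MP_9cbfe4_an

open Finset Filter Topology

namespace SOK

/-- the numeric facts used in rows SOK, COV, G5 -/
structure Big (c : Cs) : Prop where
  k_lo : 1 / 16 ≤ c.k0
  k_hi : c.k0 < 1 / 2
  lam : 10 ≤ c.lam
  L : 1000 ≤ c.L
  e_lam : 128 / c.e0 ≤ c.lam
  e_L : 64 / c.e0 * c.lam ^ 7 ≤ c.L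

theorem big : Hier Big := by
  have h1 := Hier.lam_ge (fun _ => 10) fun _ _ => rfl
  have h2 := Hier.L_ge (fun _ => 1000) fun _ _ => rfl
  have h3 := Hier.lam_ge (fun c => 128 / c.e0) fun _ _ => rfl
  have h4 := Hier.pow_le_exp (fun c => 64 / c.e0) (fun _ => 1) 7 (fun _ _ => rfl) (fun _ _ => rfl)
    (Hier.of_all fun _ => one_pos)
  refine ((((Hier.base.and h1).and h2).and h3).and h4).mono fun c h => ?_
  obtain ⟨⟨⟨⟨hb, h1⟩, h2⟩, h3⟩, h4⟩ := h
  refine ⟨hb.1, hb.2.1, h1, h2, h3, ?_⟩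
  obtain this : Real.exp (1 * c.lam) = c.L := by
    rw [one_mul, Cs.lam, Real.exp_log (by linarith only [h2, hb])]
  rwa [this] at h4

namespace Big
variable {c : Cs} (h : Big c)
include h

theorem e0_pos : 0 < c.e0 := by have := h.k_hi; unfold Cs.e0; linarith only [this]
theorem e0_lt : c.e0 < 1 / 2 := by have := h.k_lo; unfold Cs.e0; linarith only [this]
theorem lam_pos : 0 < c.lam := by have := h.lam; linarith only [this]
theorem L_pos : 0 < c.L := by have := h.L; linarith only [this]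
theorem w0_pos : 0 < c.w0 := by have := h.lam_pos; unfold Cs.w0; positivity
theorem lam_le_pow (n : ℕ) (hn : n ≠ 0) : c.lam ≤ c.lam ^ n :=
  le_self_pow₀ (by have := h.lam; linarith only [this]) hn
theorem w0_le' : c.w0 ≤ c.e0 / 128 := by
  have h1 := h.e_lam
  obtain h2 := h.lam_le_pow 7 (by norm_num)
  have h3 := h.e0_pos
  have h4 := h.lam_pos
  rw [div_le_iff₀ h3] at h1
  unfold Cs.w0
  rw [div_le_div_iff₀ (by positivity) (by norm_num)]
  nlinarith only [h1, h2, h3]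
theorem w0_le : c.w0 ≤ 1 / 256 := by have := h.w0_le'; have := h.e0_lt; (rename_i zq0; linarith only [zq0, this])
theorem w0L : 64 ≤ c.e0 * c.w0 * c.L := by
  have h1 := h.e_L
  have h3 := h.e0_pos
  have h4 := h.lam_pos
  obtain h5 : 0 < c.lam ^ 7 := by positivity
  rw [div_mul_eq_mul_div, div_le_iff₀ h3] at h1
  unfold Cs.w0
  rw [show c.e0 * (1 / c.lam ^ 7) * c.L = c.L * c.e0 / c.lam ^ 7 by ring, le_div_iff₀ h5]
  exact h1
theorem l5 : c.L / c.lam ^ 5 ≤ c.L / (2 * c.lam) := by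
  have h4 := h.lam
  have h5 := h.L_pos
  obtain this : 2 * c.lam ≤ c.lam ^ 5 := by
    obtain h2 := h.lam_le_pow 4 (by norm_num)
    rw [pow_succ]; nlinarith only [h4, h2]
  exact div_le_div_of_nonneg_left h5.le (by linarith only [h4]) this
theorem l5' : c.L / c.lam ^ 5 ≤ c.L / 20 :=
  h.l5.trans (div_le_div_of_nonneg_left h.L_pos.le (by norm_num) (by have := h.lam; linarith only [this]))
end Big

theorem dP_nn (x : ℝ) : 0 ≤ dP x := le_min (abs_nonneg _) (abs_nonneg _)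

theorem abs_sin_abs (x : ℝ) : |Real.sin (|x|)| = |Real.sin x| := by
  rcases abs_choice x with h | h <;> rw [h]
  rw [Real.sin_neg, abs_neg]

theorem abs_cos_dP (x : ℝ) : |Real.cos x| = |Real.sin (dP x)| := by
  unfold dP
  rcases min_choice |x - Real.pi / 2| |x + Real.pi / 2| with h | h <;> rw [h, abs_sin_abs]
  · rw [Real.sin_sub_pi_div_two, abs_neg]
  · rw [Real.sin_add_pi_div_two]

theorem abs_sin_dP (x : ℝ) : |Real.sin x| = |Real.cos (dP x)| := by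
  unfold dP
  rcases min_choice |x - Real.pi / 2| |x + Real.pi / 2| with h | h <;> rw [h, Real.cos_abs]
  · rw [Real.cos_sub_pi_div_two]
  · rw [Real.cos_add_pi_div_two, abs_neg]

theorem abs_le_dP (x : ℝ) : |x| ≤ dP x + 2 := by
  have h1 := Real.pi_lt_four
  have h2 := Real.pi_pos
  unfold dP
  rcases min_choice |x - Real.pi / 2| |x + Real.pi / 2| with h | h <;> rw [h]
  · have := abs_sub_abs_le_abs_sub x (Real.pi / 2)
    rw [abs_of_pos (by positivity : 0 < Real.pi / 2)] at this; linarith only [h1, this]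
  · have := abs_sub_abs_le_abs_sub x (-(Real.pi / 2))
    rw [abs_neg, abs_of_pos (by positivity : 0 < Real.pi / 2), sub_neg_eq_add] at this; linarith only [h1, this]

theorem sin_lo (x : ℝ) : 1 - dP x ^ 2 / 2 ≤ |Real.sin x| := by
  rw [abs_sin_dP]
  exact Real.one_sub_sq_div_two_le_cos.trans (le_abs_self _)

theorem cos_lo (x : ℝ) : dP x - dP x ^ 3 / 6 ≤ |Real.cos x| := by
  rw [abs_cos_dP]
  rcases (dP_nn x).eq_or_lt with h0 | h0
  · rw [← h0]; simp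
  · exact (Real.sin_gt_sub_cube h0).le.trans (le_abs_self _)

variable {c : Cs} {M : Mdl} {t : ℝ}

theorem a_abs (hM : M.OK c) (ht : TI t) {x y : ℝ} (hx : Box c x) (hy : Box c y) (hL : 0 ≤ c.L) :
    c.L * |Real.sin x| - c.L / c.lam ^ 5 ≤ |M.Ga t x y| ∧
      |M.Ga t x y| ≤ c.L * |Real.sin x| + c.L / c.lam ^ 5 := by
  have h1 := hM.a_all t x y ht hx hy
  have h2 := abs_sub_abs_le_abs_sub (M.Ga t x y) (-(c.L * Real.sin x))
  have h3 := abs_sub_abs_le_abs_sub (-(c.L * Real.sin x)) (M.Ga t x y)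
  rw [abs_sub_comm] at h3
  rw [sub_neg_eq_add, abs_neg, abs_mul, abs_of_nonneg hL] at h2 h3
  constructor <;> linarith only [h1, h3, h2]

theorem g_abs (hM : M.OK c) (ht : TI t) {x y : ℝ} (hx : Box c x) (hy : Box c y) (hL : 0 ≤ c.L) :
    c.L * |Real.cos x| ≤ |M.G t x y| + (1 - c.e0) * c.w0 * c.L + 2 := by
  have h1 := hM.val t x y ht hx hy
  obtain h2 : |c.L * Real.cos x| ≤ |M.G t x y| + |M.G t x y - c.L * Real.cos x - t| + |t| := by
    obtain e : c.L * Real.cos x = M.G t x y - (M.G t x y - c.L * Real.cos x - t) - t := by ring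
    calc |c.L * Real.cos x| = |M.G t x y - (M.G t x y - c.L * Real.cos x - t) - t| := by rw [← e]
      _ ≤ |M.G t x y - (M.G t x y - c.L * Real.cos x - t)| + |t| := abs_sub _ _
      _ ≤ _ := by gcongr; exact abs_sub _ _
  rw [abs_mul, abs_of_nonneg hL, abs_of_nonneg ht.1] at h2
  linarith only [h1, h2, ht.2]

/-- two consecutive visits of the zone force the core -/
theorem core_of (h : Big c) (hM : M.OK c) (ht : TI t) {x y : ℝ} (hx : Box c x) (hy : Box c y)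
    (h1 : dP (M.G t x y) < 5 / 100) (h2 : dP x < 5 / 100) : dP x ≤ (1 - 3 * c.e0 / 4) * c.w0 := by
  have g1 := g_abs hM ht hx hy h.L_pos.le
  have g2 := abs_le_dP (M.G t x y)
  have g3 := cos_lo x
  have hd := dP_nn x
  have hL := h.L_pos
  have he := h.e0_pos
  have he' := h.e0_lt
  have hw := h.w0_pos
  have hw1 := h.w0_le
  have hw2 := h.w0_le'
  have hwL := h.w0L
  set d := dP x
  obtain g4 : d - d ^ 3 / 6 ≤ (1 - c.e0) * c.w0 + c.e0 * c.w0 / 8 := by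
    obtain this : c.L * (d - d ^ 3 / 6) ≤ c.L * ((1 - c.e0) * c.w0 + c.e0 * c.w0 / 8) := by
      have := mul_le_mul_of_nonneg_left g3 hL.le
      linarith only [h1, g1, g2, he', hw, hw2, hwL, this]
    exact le_of_mul_le_mul_left this hL
  obtain hd2 : d ^ 2 ≤ 1 := by nlinarith only [hw1, g4, h2, he', hw, hw2, hd]
  obtain g5 : d ≤ 2 * c.w0 := by
    obtain this : d ^ 3 ≤ d := by nlinarith
    nlinarith only [g1, g2, he', hw, hw2, hwL, h1, hL, g3, hd, this]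
  obtain g6 : d ^ 3 ≤ c.e0 * c.w0 / 2 := by
    have a1 : d ^ 3 ≤ (2 * c.w0) ^ 3 := pow_le_pow_left₀ hd g5 3
    obtain a2 : c.w0 ^ 2 ≤ c.e0 / 128 := by nlinarith only [hw2, he, hw, he', hw1]
    nlinarith
  nlinarith

theorem core_of' (h : Big c) {x : ℝ} (hx : dP x ≤ (1 - 3 * c.e0 / 4) * c.w0) : Core c x := by
  have := h.e0_pos
  have := h.w0_pos
  unfold Core; (rename_i zq0; nlinarith only [hx, zq0, this])

theorem iter_box (hM : M.OK c) (ht : TI t) {p : ℝ × ℝ} (h1 : Box c p.1) (h2 : Box c p.2) (k : ℕ) :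
    Box c ((M.f t)^[k] p).1 ∧ Box c ((M.f t)^[k] p).2 := by
  induction k with
  | zero => exact ⟨h1, h2⟩
  | succ k ih =>
    rw [Function.iterate_succ_apply']
    exact ⟨hM.box t _ _ ht ih.1 ih.2, ih.1⟩

theorem pos_add (M : Mdl) (t : ℝ) (s : ℤ) (p : ℝ × ℝ) (k : ℕ) :
    (M.pos t s p (s + k), M.pos t s p (s + k - 1)) = (M.f t)^[k] p := by
  obtain e1 : ∀ k : ℕ, M.pos t s p (s + k) = ((M.f t)^[k] p).1 := fun k => by
    unfold Mdl.pos; rw [if_pos (by omega)]; simp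
  refine Prod.ext (e1 k) ?_
  cases k with
  | zero => simp [Mdl.pos]
  | succ k =>
    obtain this : s + ((k + 1 : ℕ) : ℤ) - 1 = s + k := by push_cast; ring
    rw [this, Function.iterate_succ_apply']
    exact e1 k

theorem isOrb (hM : M.OK c) (ht : TI t) (s : ℤ) (p : ℝ × ℝ) (h1 : Box c p.1) (h2 : Box c p.2)
    (h3 : dP p.1 < 4 / 100 → dP p.2 < 4 / 100 → Core c p.2) : IsOrb c M t (M.orb t s p) s := by
  have e0 := pos_add M t s p 0
  simp only [Nat.cast_zero, add_zero, Function.iterate_zero, id] at e0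
  have e1 : M.pos t s p s = p.1 := congrArg Prod.fst e0
  have e2 : M.pos t s p (s - 1) = p.2 := congrArg Prod.snd e0
  refine ⟨fun j hj => ?_, fun j hj => ?_, fun _ _ => rfl, fun _ _ => rfl, ?_⟩
  · obtain ⟨k, rfl⟩ : ∃ k : ℕ, j = s + k - 1 := ⟨(j - s + 1).toNat, by omega⟩
    have := (iter_box hM ht h1 h2 k).2
    rw [← pos_add M t s p k] at this
    exact this
  · obtain ⟨k, rfl⟩ : ∃ k : ℕ, j = s + k := ⟨(j - s).toNat, by omega⟩
    have a := pos_add M t s p (k + 1)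
    rw [Function.iterate_succ_apply', ← pos_add M t s p k] at a
    have b := congrArg Prod.fst a
    simp only [Nat.cast_add, Nat.cast_one, ← add_assoc] at b
    exact b
  · show dP (M.pos t s p s) < _ → dP (M.pos t s p (s - 1)) < _ → Core c (M.pos t s p (s - 1))
    rw [e1, e2]; exact h3

theorem later (h : Big c) (hM : M.OK c) (ht : TI t) {S : Sq} {s j : ℤ} (hS : IsOrb c M t S s)
    (hj : s ≤ j) : IsOrb c M t S j ∧
    (∀ θ, 1 / 100 ≤ θ → S.b j ≤ S.bb c θ j) ∧ Real.exp (-c.bl) / 4 ≤ S.b j ∧ |S.a j| ≤ 2 * c.L ∧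
    (dP (S.X (j + 1)) < 5 / 100 → dP (S.X j) < 5 / 100 →
      dP (S.X j) ≤ (1 - 3 * c.e0 / 4) * c.w0) := by
  obtain bx := hS.box j (by omega)
  obtain by' := hS.box (j - 1) (by omega)
  refine ⟨⟨fun i hi => hS.box i (by omega), fun i hi => hS.step i (by omega),
    fun i hi => hS.ha i (by omega), fun i hi => hS.hb i (by omega), fun a b => ?_⟩,
    fun θ hθ => ?_, ?_, ?_, fun a b => ?_⟩
  · rcases hj.eq_or_lt with rfl | hlt
    · exact hS.core a b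
    · obtain e := hS.step (j - 1) (by omega)
      rw [sub_add_cancel] at e
      rw [e] at a
      exact core_of' h (core_of h hM ht by' (hS.box (j - 1 - 1) (by omega)) (by linarith only [a])
        (by linarith only [b]))
  · rw [hS.hb j hj]
    unfold Sq.bb
    split_ifs with hc
    · exact hM.b_hi t _ _ ht bx by'
    · refine hM.b_N t _ _ ht bx by' ?_
      rw [not_and_or, not_le, not_le] at hc
      exact hc.imp (fun a => by linarith only [hθ, a]) fun a => by linarith only [hθ, a]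
  · rw [hS.hb j hj]; exact hM.b_lo t _ _ ht bx by'
  · rw [hS.ha j hj]
    obtain a1 := (a_abs hM ht bx by' h.L_pos.le).2
    have a2 := mul_le_mul_of_nonneg_left (Real.abs_sin_le_one (S.X j)) h.L_pos.le
    have a3 := h.l5'
    have a4 := h.L_pos
    linarith only [a1, a2, a3, a4]
  · rw [hS.step j hj] at a
    exact core_of h hM ht bx by' a b

theorem orbO (h : Big c) (hM : M.OK c) (ht : TI t) {v : ℝ} (hv : v ∈ Set.Icc (0 : ℝ) 100) :
    IsOrb c M t (M.O t v) 0 := by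
  have hL := h.L
  refine isOrb hM ht 0 (v, 10) ?_ ?_ fun _ a => ?_
  · show |v| ≤ _
    rw [abs_of_nonneg hv.1]; linarith only [hL, hv.2]
  · show |(10 : ℝ)| ≤ _
    rw [abs_of_nonneg (by norm_num)]; linarith only [hL]
  · have := abs_le_dP 10
    rw [abs_of_nonneg (by norm_num)] at this
    exact absurd a (by simp only [not_lt]; linarith only [a, this])

theorem past (M : Mdl) (t v : ℝ) {j : ℤ} (hj : j < 0) : (M.O t v).X j = 10 := by
  show M.pos t 0 (v, 10) j = 10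
  unfold Mdl.pos; rw [if_neg (by omega)]

theorem okO (h : Big c) (hM : M.OK c) (ht : TI t) {v : ℝ} (hv : v ∈ Set.Icc (0 : ℝ) 100) :
    (M.O t v).OK c := by
  have hS := orbO h hM ht hv
  have hL := h.L
  have hl := h.lam
  have l5 := h.l5
  have l5' := h.l5'
  obtain hab : ∀ j : ℤ, 0 ≤ j → _ := fun j hj =>
    a_abs hM ht (hS.box j (by omega)) (hS.box (j - 1) (by omega)) h.L_pos.le
  obtain hinv : c.L / (2 * c.lam) = 1 / c.lam * c.L / 2 := by field_simp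
  obtain hinv0 : 0 ≤ 1 / c.lam * c.L := by have := h.lam_pos; have := h.L_pos; positivity
  refine ⟨fun j hj => ?_, fun j hj => (later h hM ht hS hj).2.2.1,
    fun j θ hj => (later h hM ht hS hj).2.1 θ, fun j hj a => ?_, fun j hj a b => ?_,
    fun j hj a => ?_, fun j hj => past M t v hj⟩
  · rw [hS.ha j hj]
    have a2 := mul_le_mul_of_nonneg_left (Real.abs_sin_le_one ((M.O t v).X j)) h.L_pos.le
    linarith only [l5, hinv, hinv0, a2, (hab j hj).2]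
  · rw [hS.ha j hj]
    have a1 := sin_lo ((M.O t v).X j)
    have a0 := dP_nn ((M.O t v).X j)
    obtain a2 : 99 / 100 ≤ |Real.sin ((M.O t v).X j)| := by nlinarith only [a, a1, a0]
    have a3 := mul_le_mul_of_nonneg_left a2 h.L_pos.le
    linarith only [hL, l5', a3, (hab j hj).1]
  · have a1 := (later h hM ht hS hj).2.2.2.2 a b
    refine ⟨core_of' h a1, ?_⟩
    rw [hS.ha j hj]
    have a2 := sin_lo ((M.O t v).X j)
    have a0 := dP_nn ((M.O t v).X j)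
    have he := h.e0_pos
    have hw := h.w0_pos
    have hw1 := h.w0_le
    obtain a3 : dP ((M.O t v).X j) ≤ c.w0 := by nlinarith only [a1, he, hw]
    obtain a4 : c.w0 ≤ 1 / c.lam := by
      unfold Cs.w0
      exact div_le_div_of_nonneg_left zero_le_one h.lam_pos (h.lam_le_pow 7 (by norm_num))
    obtain a5 : 1 - 1 / c.lam / 2 ≤ |Real.sin ((M.O t v).X j)| := by nlinarith only [a2, hw, a3, a4, b, a0]
    have a6 := mul_le_mul_of_nonneg_left a5 h.L_pos.le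
    linarith only [l5, hinv, a6, (hab j hj).1]
  · rw [hS.ha j hj] at a
    have a1 := (hab j hj).1
    obtain g1 := g_abs hM ht (hS.box j (by omega)) (hS.box (j - 1) (by omega)) h.L_pos.le
    rw [← hS.step j hj] at g1
    have g2 := abs_le_dP ((M.O t v).X (j + 1))
    obtain s1 : |Real.sin ((M.O t v).X j)| ≤ 3 / 5 := by
      obtain this : c.L * |Real.sin ((M.O t v).X j)| ≤ c.L * (3 / 5) := by linarith only [hL, l5', a, a1]
      exact le_of_mul_le_mul_left this h.L_pos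
    obtain s2 : 4 / 5 ≤ |Real.cos ((M.O t v).X j)| := by
      have q := Real.sin_sq_add_cos_sq ((M.O t v).X j)
      rw [← sq_abs, ← sq_abs (Real.cos _)] at q
      have := abs_nonneg (Real.sin ((M.O t v).X j))
      have := abs_nonneg (Real.cos ((M.O t v).X j))
      (rename_i zq0; nlinarith only [s1, q, zq0, this])
    have s3 := mul_le_mul_of_nonneg_left s2 h.L_pos.le
    have he := h.e0_pos
    have hw := h.w0_pos
    have hw1 := h.w0_le
    obtain s4 : (1 - c.e0) * c.w0 ≤ 1 / 256 := by nlinarith only [hw1, he, hw]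
    have s5 := mul_le_mul_of_nonneg_right s4 h.L_pos.le
    linarith only [hL, g1, g2, s3, hw, hw1, s5]

end SOK

theorem sok : Hier SOK_s :=
  SOK.big.mono fun _ h _ hM _ ht =>
    ⟨fun s p => SOK.isOrb hM ht s p, fun _ hv => ⟨SOK.orbO h hM ht hv, SOK.okO h hM ht hv⟩,
      fun _ _ _ hS hj => SOK.later h hM ht hS hj⟩

end Pool.Agent.MP_9cbfe4_an

end

/-! ### Part B1I -/

section

/-! Section B1: sub-rows of `BINV_s` and `SUF_s`. -/

namespace Pool.Agent.MP_9cbfe4_an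

open Finset

noncomputable section

namespace Sq
variable (c : Cs) (Ex : ExT) (S : Sq)

/-- the hypotheses of the inductive step of `BINV_s` -/
structure BH (ξ : ℤ → ℝ) (n : ℤ) (Ls : List (ℤ × ℝ)) (m : ℤ) (r : ℝ) (p : ℤ) : Prop where
  ok : S.OK c
  out : S.Out c ξ n
  chain : S.Chain c Ex (S.fr (n + 1)) (n + 1) (n + 1) Ls m
  binv : S.BInv c n Ls m
  pbd : S.PBd c Ex ξ n Ls m r
  step : S.Step c Ex (S.fr (n + 1)) (n + 1) m r p
  rinv : S.RInv c (S.fr (n + 1)) (n + 1) p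
  inner : p = m + 1 ∨
    ∃ Ls', S.RInv c (S.fr (m + 1)) (m + 1) p ∧ S.BInv c m Ls' p ∧ S.Wp c m p ≤ 2 * r

/-- numeric facts of that step -/
structure BF (n : ℤ) (Ls : List (ℤ × ℝ)) (m : ℤ) (r : ℝ) (p : ℤ) : Prop where
  ev_le : S.evs c (S.fr (n + 1)) (n + 1) ((m, r) :: Ls) ≤ S.xp c n p
  chi_ge : c.M1 * (S.Wp c n p - 5) ≤ S.chi c n p
  sg_le : S.sg c (S.fr (n + 1)) (n + 1) p ≤ 11 * c.ε' * S.xp c n p
  len : ((((m, r) :: Ls).length : ℕ) : ℝ) ≤ 10 * (S.Wp c n p + c.lam) / c.lam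
  sumr : sumR c ((m, r) :: Ls) ≤ 15 * S.xp c n p
  nk : c.lam * S.NK n p ≤ c.CN * S.xp c n p
  loads : ∀ x ∈ (m, r) :: Ls, S.load c x.1 (2 * x.2) ≤ S.qu c.Q n x.1
  bl_le : c.bl ≤ S.chi c n m
  W_mono : S.Wp c n m ≤ S.Wp c n p ∧ S.load c n (S.Wp c n m) ≤ S.load c n (S.Wp c n p) ∧
    S.xp c n m ≤ S.xp c n p
  r_le : r ≤ 11 / 10 * S.xp c n p + c.cc
  q_le : c.lam * S.load c m (2 * r) ≤ c.CN * S.xp c n p
  small : 2 * c.CN * S.xp c n p + S.Wp c n p + 2 * c.lam ≤ c.a / 100 * S.chi c n m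

/-- the suffix certificate with the slack `φ ∈ [1, 2]` that closes the induction on runs -/
structure SufI (φ : ℝ) (ξ w A : ℤ → ℝ) (Rg : Finset ℤ) (s' m : ℤ) : Prop where
  mono : ∀ i j, s' ≤ i → i ≤ j → j ≤ m → A i ≤ A j
  lo : w s' ≤ A s'
  dd : ∀ j, s' ≤ j → j ≤ m → S.DD c w s' j ≤ A j * w j
  sub : Rg ⊆ Ico s' m
  reg : ∀ i ∈ Rg, dP (S.X i) < 4 / 100 ∧ dP (S.X (i + 1)) < 4 / 100 ∧
    w i ≤ φ * |ξ i| ∧ A (i + 1) ≤ φ ^ 4 * c.lam / 1024 * w i
  runs : (((Ico s' m).filter fun i => i ∉ Rg ∧ (i - 1 ∈ Rg ∨ i = s')).card : ℝ) ≤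
    S.chi c s' m / c.bl + 1
  cost : Real.log (A s' / w s') + ∑ i ∈ Ico s' m \ Rg, Real.log (A (i + 1) / A i) ≤
    3 * c.a * S.chi c s' m + 4 * Real.log φ
end Sq

/-- numerics of the step of a bound run (from `NUM_s`) -/
def BINVa_s (c : Cs) : Prop := ∀ Ex (S : Sq) ξ n Ls m r p, S.BH c Ex ξ n Ls m r p → S.BF c n Ls m r p

/-- (I6), first three items, and (I7) -/
def BINVb_s (c : Cs) : Prop := ∀ Ex (S : Sq) ξ n Ls m r p, S.BH c Ex ξ n Ls m r p →
  S.BF c n Ls m r p →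
  (∀ i, n < i → i ≤ p → (c.lam + 1) * S.NK n i ≤ c.a / 8 * S.chi c n i ∧
    Real.exp (-(c.a / 8 * S.chi c n i)) ≤ S.wp c n i ∧
    S.wp c n i ≤ Real.exp (c.a / 4 * S.chi c n i)) ∧
  ((p - n : ℤ) : ℝ) ≤ 1 + 2 * ((((m, r) :: Ls).length : ℕ) : ℝ) *
    Real.exp (c.d1 * S.Wp c n p / 2 + 3 * c.d1 * c.C1 * S.load c n (S.Wp c n p))

/-- (I6), last item -/
def BINVc_s (c : Cs) : Prop := ∀ Ex (S : Sq) ξ n Ls m r p, S.BH c Ex ξ n Ls m r p →
  S.BF c n Ls m r p → ∀ i, n < i → ∀ j, i < j → j ≤ p → S.Bc c (S.wp c n) i j ≤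
    Real.exp (c.a / 8 * S.chi c n i) * (1 - Real.exp (-S.chi c i p / 4) / 2)

/-- (I8) -/
def BINVd_s (c : Cs) : Prop := ∀ Ex (S : Sq) ξ n Ls m r p, S.BH c Ex ξ n Ls m r p →
  S.BF c n Ls m r p → ∀ j, n < j → j ≤ p → ∑ i ∈ Ico (n + 1) j, |S.fr (i + 1) j| ≤
    ((((m, r) :: Ls).length : ℕ) : ℝ) *
      Real.exp (S.Wp c n p + 8 * c.C1 * S.load c n (S.Wp c n p) - c.lam / 2) * S.wp c n j

/-- extension of a suffix certificate by one step -/
def SUFa_s (c : Cs) : Prop := ∀ Ex (S : Sq) ξ s n r p s' φ A Rg, S.OK c → S.St c ξ s →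
  S.RInv c ξ s n → S.Step c Ex ξ s n r p → s ≤ s' → s' ≤ n → 1 ≤ φ → φ ≤ 2 →
  (s' = n → A n = S.wh c ξ s n) → S.SufI c φ ξ (S.wh c ξ s) A Rg s' n →
  ∃ A' Rg', S.SufI c φ ξ (S.wh c ξ s) A' Rg' s' p

/-- window start late in a block: rescale the certificate of the partner -/
def SUFb_s (c : Cs) : Prop := ∀ (S : Sq) ξ s n Ls p s' A Rg, S.OK c → S.St c ξ s →
  S.RInv c ξ s n → S.RInv c (S.fr (n + 1)) (n + 1) p → S.BInv c n Ls p → S.rho ξ n p ≠ 0 →
  n < s' → s' ≤ p → 12 * S.dep c ξ n p ≤ S.chi c n s' →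
  S.SufI c (S.ff c (n + 1) s') (S.fr (n + 1)) (S.wp c n) A Rg s' p →
  ∃ A', S.SufI c (S.ff c s s') ξ (S.wh c ξ s) A' Rg s' p

/-- window start early in a deep block: one irregular run -/
def SUFc_s (c : Cs) : Prop := ∀ Ex (S : Sq) ξ s n r p s', S.OK c → S.St c ξ s →
  S.RInv c ξ s n → S.Step c Ex ξ s n r p → S.RInv c ξ s p → n < s' → s' < p →
  S.chi c n s' < 12 * r → ∃ A, S.SufI c 1 ξ (S.wh c ξ s) A ∅ s' p

end
end Pool.Agent.MP_9cbfe4_an

end

/-! ### Part BINVd -/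

section

/-! Row BINVd: propagation of (I8) along a bound run. -/

namespace Pool.Agent.MP_9cbfe4_an

open Finset

namespace BINVd

theorem geo (s : ℤ) {m : ℤ} (h : s ≤ m) :
    ∑ i ∈ Ico s m, Real.exp (-(((m - i : ℤ) : ℝ) / 4)) ≤ 4 := by
  induction m, h using Int.leInduction with
  | base => simp
  | succ m hm ih =>
    rw [← Finset.insert_Ico_right_eq_Ico_add_one hm, Finset.sum_insert (by simp)]
    obtain e : ∀ i : ℤ, Real.exp (-(((m + 1 - i : ℤ) : ℝ) / 4)) =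
        Real.exp (-(1 / 4)) * Real.exp (-(((m - i : ℤ) : ℝ) / 4)) := fun i => by
      rw [← Real.exp_add]; congr 1; push_cast; ring
    simp only [e, ← Finset.mul_sum]
    obtain h1 : Real.exp (-(1 / 4 : ℝ)) ≤ 4 / 5 := by
      rw [Real.exp_neg, inv_le_comm₀ (Real.exp_pos _) (by norm_num)]
      linarith only [Real.add_one_le_exp (1 / 4 : ℝ)]
    obtain h2 : Real.exp (-(((m - m : ℤ) : ℝ) / 4)) = 1 := by simp
    rw [h2]
    nlinarith only [h1, ih, Real.exp_pos (-(1 / 4 : ℝ))]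

/-- the contracted past of a free time -/
theorem past {c : Cs} {S : Sq} {ξ : ℤ → ℝ} {s m : ℤ} (hK : 1 / 2 ≤ c.chK) (hKb : c.chK ≤ c.bl)
    (ha : c.a ≤ 1 / 2) (hr : S.RInv c ξ s m) :
    ∑ i ∈ Ico s m, S.PB c (2 / 100) i m * S.wh c ξ s i ≤ 8 * |ξ m| := by
  obtain h1 : ∀ i ∈ Ico s m, S.PB c (2 / 100) i m * S.wh c ξ s i ≤
      2 * |ξ m| * Real.exp (-(((m - i : ℤ) : ℝ) / 4)) := fun i hi => by
    obtain ⟨h1, h2⟩ := mem_Ico.1 hi
    refine (hr.i2 i h1 h2).1.trans ?_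
    obtain a1 : S.ff c s i ≤ 2 := by
      unfold Sq.ff; linarith only [Real.exp_pos (-S.chi c s i / 24)]
    have a2 := S.chi_ge c hKb h2.le
    obtain a3 : (0 : ℝ) ≤ ((m - i : ℤ) : ℝ) := by exact_mod_cast (by omega : 0 ≤ m - i)
    obtain a4 : ((m - i : ℤ) : ℝ) / 2 ≤ S.chi c i m := by nlinarith only [a2, hK, a3]
    obtain a5 : Real.exp (-(1 - c.a) * S.chi c i m) ≤ Real.exp (-(((m - i : ℤ) : ℝ) / 4)) :=
      Real.exp_le_exp.2 (by nlinarith only [a4, ha, a3])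
    calc _ ≤ 2 * Real.exp (-(((m - i : ℤ) : ℝ) / 4)) * |ξ m| :=
          mul_le_mul_of_nonneg_right
            (mul_le_mul a1 a5 (Real.exp_pos _).le (by norm_num)) (abs_nonneg _)
      _ = _ := by ring
  refine (sum_le_sum h1).trans ?_
  rw [← mul_sum]
  nlinarith only [geo s hr.le, abs_nonneg (ξ m)]

/-- the inner part of the sum -/
theorem inner {c : Cs} (hB : BLK_s c) {Ex : ExT} {S : Sq} {ξ : ℤ → ℝ} {n m p j : ℤ} {r : ℝ}
    {Ls : List (ℤ × ℝ)} (hl : 40 ≤ c.lam) (hL : 0 < c.L) (hK : 0 < c.chK) (hKb : c.chK ≤ c.bl)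
    (hC0 : 0 ≤ c.C0) (hC1 : 0 ≤ c.C1) (H : S.BH c Ex ξ n Ls m r p) (hj : m < j) (hjp : j ≤ p) :
    (∑ i ∈ Ico (m + 1) j, |S.fr (i + 1) j|) * (c.L * |S.fr (n + 1) m|) ≤
      2 * Real.exp (4 * max r 0 + 8 * c.C1 * S.load c m (2 * r)) * S.wp c n j := by
  have hw : 0 ≤ S.wp c n j := S.wh_nonneg c _ _ _
  rcases (by omega : j = m + 1 ∨ m + 1 < j) with rfl | hj1
  · simp only [Ico_self, sum_empty, zero_mul]
    (clear * - hw; positivity)
  obtain ⟨Ls', hr', hb', hW⟩ := H.inner.resolve_left (by omega)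
  obtain hk := (H.step.kind.resolve_left fun h => by omega).1
  have hrm := (Sq.Chain.rinv c S H.chain).1
  obtain hst : S.St c (S.fr (n + 1)) (n + 1) := by
    refine ⟨by linarith only [H.out.1], S.fr_sol _, S.fr_self _, ?_⟩
    rw [S.fr_lt (by omega), abs_zero]
    exact (Real.exp_pos _).le
  obtain hρ : S.rho (S.fr (n + 1)) m p ≠ 0 := fun h => by
    have := H.step.hr
    unfold Sq.dep at this
    rw [h, abs_zero, div_zero, Real.log_zero] at this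
    linarith only [hl, hk, this]
  have hρ' : 0 < |S.rho (S.fr (n + 1)) m p| := abs_pos.2 hρ
  obtain he : Real.exp r * |S.rho (S.fr (n + 1)) m p| = c.L := by
    rw [H.step.hr]
    unfold Sq.dep
    rw [Real.exp_log (div_pos hL hρ'), div_mul_cancel₀ _ hρ'.ne']
  have h4 := ((hB S _ _ m Ls' p H.ok hst hrm hr' hb' hρ).2 j hj hjp).2.2.2.1
  obtain h5 : S.wp c m j * (c.L * |S.fr (n + 1) m|) ≤ Real.exp r * (2 * S.wp c n j) := by
    rw [← he]
    have := mul_le_mul_of_nonneg_left h4 (Real.exp_pos r).le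
    calc _ = Real.exp r * (|S.fr (n + 1) m| * |S.rho (S.fr (n + 1)) m p| * S.wp c m j) := by ring
      _ ≤ _ := this
  obtain h6 : (Ls'.length : ℝ) ≤ Real.exp r := by
    refine hb'.len.trans ?_
    rw [div_le_iff₀ (by linarith only [hl])]
    have := Real.add_one_le_exp r
    nlinarith only [hl, hW, hk, this]
  obtain h7 : Real.exp (S.Wp c m p + 8 * c.C1 * S.load c m (S.Wp c m p) - c.lam / 2) ≤
      Real.exp (2 * r + 8 * c.C1 * S.load c m (2 * r)) := by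
    have := mul_le_mul_of_nonneg_left (S.load_mono c hK hKb hC0 m hW) hC1
    exact Real.exp_le_exp.2 (by linarith only [hl, hW, this])
  have hw' : 0 ≤ S.wp c m j := S.wh_nonneg c _ _ _
  have h8 : ∑ i ∈ Ico (m + 1) j, |S.fr (i + 1) j| ≤
      Real.exp r * Real.exp (2 * r + 8 * c.C1 * S.load c m (2 * r)) * S.wp c m j :=
    (hb'.i8n j hj hjp).trans (mul_le_mul_of_nonneg_right
      (mul_le_mul h6 h7 (Real.exp_pos _).le (Real.exp_pos _).le) hw')
  obtain h9 : Real.exp (4 * max r 0 + 8 * c.C1 * S.load c m (2 * r)) =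
      Real.exp r * Real.exp (2 * r + 8 * c.C1 * S.load c m (2 * r)) * Real.exp r := by
    rw [← Real.exp_add, ← Real.exp_add, max_eq_left (by linarith only [hl, hk])]
    congr 1; ring
  rw [h9]
  calc _ ≤ Real.exp r * Real.exp (2 * r + 8 * c.C1 * S.load c m (2 * r)) * S.wp c m j *
        (c.L * |S.fr (n + 1) m|) := mul_le_mul_of_nonneg_right h8 (by (clear * - hL; positivity))
    _ = Real.exp r * Real.exp (2 * r + 8 * c.C1 * S.load c m (2 * r)) *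
        (S.wp c m j * (c.L * |S.fr (n + 1) m|)) := by ring
    _ ≤ Real.exp r * Real.exp (2 * r + 8 * c.C1 * S.load c m (2 * r)) *
        (Real.exp r * (2 * S.wp c n j)) := mul_le_mul_of_nonneg_left h5 (by positivity)
    _ = _ := by ring

/-- the increment is at most one unit -/
theorem num {c : Cs} {Ex : ExT} {S : Sq} {ξ : ℤ → ℝ} {n m p : ℤ} {r : ℝ} {Ls : List (ℤ × ℝ)}
    (hl : 100 ≤ c.lam) (hL : 0 < c.L) (hC1 : 0 ≤ c.C1) (he : 0 < c.e3) (he' : c.e3 ≤ 1 / 10)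
    (hε : 0 ≤ c.ε) (hε' : c.ε ≤ 1 / 10) (hN : 80 * c.C1 * c.CN ≤ c.lam)
    (H : S.BH c Ex ξ n Ls m r p) (F : S.BF c n Ls m r p) :
    20 * Real.exp (4 * max r 0 + 8 * c.C1 * S.load c m (2 * r)) ≤
      Real.exp (S.Wp c n p + 8 * c.C1 * S.load c n (S.Wp c n p) - c.lam / 2) *
        (c.L * |S.fr (n + 1) m|) := by
  have hrm := (Sq.Chain.rinv c S H.chain).1
  have hx : 0 < |S.fr (n + 1) m| := abs_pos.2 hrm.ne
  have hW : 0 ≤ S.Wp c n p := Real.log_nonneg (S.one_le_AA c _ _ _)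
  have hWm : 0 ≤ S.WW c (S.fr (n + 1)) (n + 1) m := Real.log_nonneg (S.one_le_AA c _ _ _)
  have hl0 := S.load_nonneg c n (S.Wp c n p)
  have hq0 := S.load_nonneg c m (2 * r)
  have hcl : 0 ≤ c.C1 * S.load c n (S.Wp c n p) := mul_nonneg hC1 hl0
  have hc : c.cc = c.ε * c.lam / 20 := rfl
  obtain hc0 : 0 ≤ c.cc := by rw [hc]; (clear * - hε hl; positivity)
  obtain hc1 : c.cc ≤ c.lam / 200 := by rw [hc]; nlinarith only [hε', hl]
  have hxp : S.xp c n p = c.C1 * S.load c n (S.Wp c n p) + c.ε * S.Wp c n p + c.cc := rfl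
  obtain hεW : c.ε * S.Wp c n p ≤ S.Wp c n p / 10 := by nlinarith only [he, he', hε', hW]
  have hεW0 : 0 ≤ c.ε * S.Wp c n p := mul_nonneg hε hW
  obtain hx0 : 0 ≤ S.xp c n p := by rw [hxp]; linarith only [hcl, hc0, hεW0]
  obtain h1 : max r 0 ≤ 11 / 10 * S.xp c n p + c.cc := max_le F.r_le (by linarith only [hcl, hc0, hxp, hεW0])
  obtain h2 : -Real.log |S.fr (n + 1) m| ≤ S.xp c n p / 10 := by
    obtain a1 : -Real.log |S.fr (n + 1) m| ≤ S.sg c (S.fr (n + 1)) (n + 1) m := by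
      refine le_trans ?_ (le_max_left _ _)
      unfold Sq.sig
      linarith only [hWm]
    obtain a0 : 0 ≤ c.ε' := by unfold Cs.ε'; positivity
    have a2 : c.ε' ≤ (1 / 10) ^ 4 := pow_le_pow_left₀ he.le he' 4
    have a3 := mul_le_mul_of_nonneg_left F.W_mono.2.2 a0
    have a4 := mul_le_mul_of_nonneg_right a2 hx0
    have a5 := H.binv.sg_le
    linarith only [hcl, hc0, hxp, hεW0, a1, a3, a4, a5]
  obtain h3 : 8 * c.C1 * S.load c m (2 * r) ≤ S.xp c n p / 10 := by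
    have a1 := mul_le_mul_of_nonneg_left F.q_le hC1
    have a2 := mul_le_mul_of_nonneg_right hN hx0
    refine le_of_mul_le_mul_left ?_ (by linarith only [hl, he, he'] : 0 < c.lam)
    linarith only [a1, a2]
  obtain e1 : c.L * |S.fr (n + 1) m| = Real.exp (c.lam + Real.log |S.fr (n + 1) m|) := by
    rw [Real.exp_add, Real.exp_log hx, Cs.lam, Real.exp_log hL]
  rw [e1, ← Real.exp_add]
  calc _ ≤ Real.exp 19 * Real.exp (4 * max r 0 + 8 * c.C1 * S.load c m (2 * r)) :=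
        mul_le_mul_of_nonneg_right (by linarith only [Real.add_one_le_exp (19 : ℝ)]) (Real.exp_pos _).le
    _ ≤ _ := by
        rw [← Real.exp_add]
        exact Real.exp_le_exp.2 (by linarith only [hl, he, he', hW, hcl, hc1, hxp, hεW, h1, h2, h3])

end BINVd

open BINVd in
theorem binvd : Hier fun c => BLK_s c → BINVd_s c := by
  have H1 := Hier.lam_ge (fun _ => 100) fun _ _ => rfl
  have H2 := Hier.L_ge (fun _ => 1) fun _ _ => rfl
  obtain H3 := Hier.e3_le (fun _ => 1 / 10) (fun _ _ _ _ _ _ _ _ => rfl)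
    (Hier.of_all fun _ => by norm_num)
  obtain H4 := Hier.ε_le_pow (fun _ => 1 / 10) 0 (by norm_num) (fun _ _ _ _ _ _ _ _ => rfl)
    (Hier.of_all fun _ => by norm_num)
  have H5 := Hier.C0_ge fun _ _ _ _ => 0
  have H6 := Hier.C1_ge fun _ _ _ _ _ => 0
  have H7 := Hier.β_ge (fun _ => 1) fun _ _ _ => rfl
  have H8 := Hier.lam_ge (fun c => c.chK) fun _ _ => rfl
  have H9 := Hier.lam_ge (fun c => 80 * c.C1 * c.CN) fun _ _ => rfl
  obtain H10 := Hier.a_le (fun _ => 1 / 2) (fun _ _ _ _ _ _ => rfl)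
    (Hier.of_all fun _ => by norm_num)
  refine (H1.and (H2.and (H3.and (H4.and (H5.and (H6.and (H7.and (H8.and (H9.and
    (H10.and Hier.base)))))))))).mono ?_
  rintro c ⟨hl, hL, ⟨he, he'⟩, ⟨hε, hε'⟩, hC0, hC1, hβ, hK, hN, ⟨-, ha⟩, hk0, hk1, -⟩ hB
    Ex S ξ n Ls m r p H F j hnj hjp
  rw [pow_zero, mul_one] at hε'
  obtain hL0 : 0 < c.L := by linarith only [hL, he, he']
  obtain hK2 : 1 / 2 ≤ c.chK := by
    unfold Cs.chK
    obtain h2 : (2 : ℝ) ≤ 1 / c.k0 := by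
      rw [le_div_iff₀ (by linarith only [he, he', hk0])]
      linarith only [hk1]
    linarith only [he, he', Real.log_le_log (by norm_num) h2, Real.log_two_gt_d9]
  obtain hKb : c.chK ≤ c.bl := by
    unfold Cs.bl
    nlinarith only [hβ, hK, hl]
  have hrm := (Sq.Chain.rinv c S H.chain).1
  have hw : 0 ≤ S.wp c n j := S.wh_nonneg c _ _ _
  set E := Real.exp (S.Wp c n p + 8 * c.C1 * S.load c n (S.Wp c n p) - c.lam / 2) with hE
  have hE0 : 0 < E := Real.exp_pos _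
  have hlen : (0 : ℝ) ≤ Ls.length := Nat.cast_nonneg _
  obtain hold : ∀ l, n < l → l ≤ m →
      ∑ i ∈ Ico (n + 1) l, |S.fr (i + 1) l| ≤ Ls.length * E * S.wp c n l := fun l h1 h2 => by
    refine (H.binv.i8n l h1 h2).trans (mul_le_mul_of_nonneg_right
      (mul_le_mul_of_nonneg_left (Real.exp_le_exp.2 ?_) hlen) (S.wh_nonneg c _ _ _))
    have := mul_le_mul_of_nonneg_left F.W_mono.2.1 hC1
    linarith only [this, F.W_mono.1]
  rw [List.length_cons, Nat.cast_succ]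
  rcases le_or_gt j m with hjm | hjm
  · refine (hold j hnj hjm).trans ?_
    linarith only [mul_nonneg hE0.le hw]
  have hsm : n + 1 ≤ m := hrm.le
  set x := |S.fr (n + 1) m| with hx
  have hx0 : 0 < x := abs_pos.2 hrm.ne
  have hLx : 0 < c.L * x := mul_pos hL0 hx0
  set T := Real.exp (4 * max r 0 + 8 * c.C1 * S.load c m (2 * r)) with hT
  obtain hrT : Real.exp r ≤ T := by
    have a1 := mul_nonneg hC1 (S.load_nonneg c m (2 * r))
    have a2 := le_max_left r 0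
    have a3 := le_max_right r 0
    exact Real.exp_le_exp.2 (by linarith only [a1, a2, a3])
  obtain h1 : (∑ i ∈ Ico (n + 1) m, |S.fr (i + 1) j|) * (c.L * x) ≤
      (Ls.length * E * (c.L * x) + 16 * T) * S.wp c n j := by
    obtain a1 : ∑ i ∈ Ico (n + 1) m, |S.fr (i + 1) j| * x ≤ ∑ i ∈ Ico (n + 1) m,
        (|S.fr (i + 1) m| + 2 * Real.exp r / (c.L * x) *
          (S.PB c (2 / 100) i m * S.wp c n i)) * S.wp c n j :=
      sum_le_sum fun i hi => by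
        refine (H.step.ins3 i j (mem_Ico.1 hi).1 (mem_Ico.1 hi).2 hjm hjp).trans_eq ?_
        unfold Sq.wp
        ring
    rw [← sum_mul, ← sum_mul, sum_add_distrib, ← mul_sum] at a1
    obtain a2 := hold m (by omega) le_rfl
    have a3 : S.wp c n m = x := hrm.whm
    rw [a3] at a2
    have a4 : ∑ i ∈ Ico (n + 1) m, S.PB c (2 / 100) i m * S.wp c n i ≤ 8 * x :=
      past hK2 hKb ha hrm
    obtain a5 : 2 * Real.exp r / (c.L * x) *
        ∑ i ∈ Ico (n + 1) m, S.PB c (2 / 100) i m * S.wp c n i ≤ 16 * T / c.L := by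
      calc _ ≤ 2 * T / (c.L * x) * (8 * x) := by
            refine le_trans (mul_le_mul_of_nonneg_left a4 (by (clear * - hL hx0; positivity))) ?_
            (clear * - hrT hL hx0; gcongr)
        _ = _ := by field_simp; ring
    have a6 := a1.trans (mul_le_mul_of_nonneg_right (add_le_add a2 a5) hw)
    calc _ = c.L * ((∑ i ∈ Ico (n + 1) m, |S.fr (i + 1) j|) * x) := by ring
      _ ≤ c.L * ((Ls.length * E * x + 16 * T / c.L) * S.wp c n j) :=
          mul_le_mul_of_nonneg_left a6 hL0.le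
      _ = _ := by field_simp
  obtain h2 : |S.fr (m + 1) j| * (c.L * x) ≤ 2 * T * S.wp c n j := by
    have a1 := H.step.ins1 j hjm hjp
    have a2 := mul_le_mul_of_nonneg_right hrT hw
    calc _ = |S.fr (m + 1) j| * c.L * x := by ring
      _ ≤ 2 * Real.exp r * S.wp c n j := a1
      _ ≤ _ := by linarith only [a2]
  obtain h3 := inner hB (by linarith only [hl, he, he']) hL0 (by linarith only [he, he', hK2]) hKb hC0 hC1 H hjm hjp
  have h4 := mul_le_mul_of_nonneg_right (num hl hL0 hC1 he he' hε.le hε' hN H F) hw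
  obtain hs : ∑ i ∈ Ico (n + 1) j, |S.fr (i + 1) j| = ∑ i ∈ Ico (n + 1) m, |S.fr (i + 1) j| +
      (|S.fr (m + 1) j| + ∑ i ∈ Ico (m + 1) j, |S.fr (i + 1) j|) := by
    rw [← Finset.Ico_union_Ico_eq_Ico hsm hjm.le,
      sum_union (Finset.Ico_disjoint_Ico_consecutive _ _ _),
      ← Finset.insert_Ico_add_one_left_eq_Ico hjm, sum_insert (by simp)]
  refine le_of_mul_le_mul_right ?_ hLx
  rw [hs]
  rw [← hE, ← hx, ← hT] at h4
  rw [← hx, ← hT] at h3
  linarith only [h1, h2, h3, h4]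

end Pool.Agent.MP_9cbfe4_an

end

/-! ### Part ES -/

section

/-! Section E-B of THM-2: stages of the run E4 and the rows (helper23).  `G = g ς`. -/

namespace Pool.Agent.MP_9cbfe4_an.E

open Finset MeasureTheory
open scoped Classical

noncomputable section

namespace Par
variable (k : Par)
def G : ℝ := k.g * k.ς
/-- smallest scale that is ever tested -/
def Dst : ℝ := Real.exp (-(3100 * k.ρ))
/-- first window -/
def D0 : ℝ := Real.exp (-(8 * k.ρ + k.ρ / 20))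
/-- potential -/
def Ψ (r : ℝ) : ℝ := min (min (12 * k.ρ + 3 * r) (151 * k.ρ + 19 / 10 * r)) (3050 * k.ρ)
end Par

/-- data of a stage, common to all candidates of a zone -/
structure St where
  B : ℕ
  B' : ℕ
  r : ℤ
  y : ℤ
  t1 : ℤ
  t2 : ℤ
  t3 : ℤ

namespace St
variable (s : St)
def β : ℝ := Real.exp (2 * s.r)
def D2 (D : ℝ) : ℝ := (Real.exp s.t2 + s.β * Real.exp s.t1) * D ^ 2
def DD (D : ℝ) : ℝ := Real.exp s.t3 * D ^ 3 + s.D2 D
/-- label size of a zone -/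
def zl (k : Par) : ℝ := Real.exp (-((k.g + 2) * k.ς) - s.y)
end St

namespace Pr
variable (k : Par) (p : Pr) (d : Cd)
/-- `OK(B)` of the paper -/
def OKs (B : ℕ) : Prop :=
  d.tt 2 (B + 1) + p.ω B + p.R B ≤ 4 * p.Rst (B + 1) - (k.g + 11) * k.ς
/-- number of deep elements after `B` -/
def dd (B : ℕ) : ℕ := ((Ioo B d.M).filter (d.deep k p.toSk)).card

/-- `s` is the stage data of `p` (definition) -/
structure SF (s : St) : Prop where
  deep : d.deep k p.toSk s.B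
  ok : p.OKs k d s.B
  lt : s.B < s.B'
  le : s.B' ≤ d.M
  nod : d.nodeep k p.toSk (s.B + 1) s.B'
  nxt : d.deep k p.toSk s.B' ∨ s.B' = d.M
  hv : 1000 * k.G ≤ p.Rst (s.B + 1)
  r : s.r = ⌈p.Rst (s.B + 1)⌉
  y : s.y = ⌈p.R s.B + p.ω s.B⌉
  t1 : s.t1 = ⌈(d.tt 2 (s.B + 1) - 2 * p.ω s.B') / 3⌉
  t2 : s.t2 = ⌈d.tt 2 (s.B + 1)⌉
  t3 : s.t3 = ⌈d.tt 3 (s.B + 1)⌉

/-- consequences of `SF` that do not mention the chain data (all that DICH, TL, Y use) -/
structure SD (s : St) : Prop where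
  lt : s.B < s.B'
  inr : ∀ n ≤ s.B', p.InR k n
  nonc : p.NoNC k s.B'
  shal : ∀ l, s.B < l → l < s.B' → p.R l < k.u
  rst : ∀ n, s.B < n → n ≤ s.B' → p.Rst n = p.Rst (s.B + 1)
  hv : 1000 * k.G ≤ p.Rst (s.B + 1)
  r1 : p.Rst (s.B + 1) ≤ s.r
  r2 : (s.r : ℝ) ≤ p.Rst (s.B + 1) + 1
  r3 : (s.r : ℝ) ≤ 1601 * k.ρ
  y1 : p.W (s.B + 1) ≤ s.y + k.φ
  card : (((range (s.B + 1)).filter fun l => p.Rst (s.B + 1) ≤ 2 * p.R l).card : ℝ) ≤ 1 / k.θ
  j1 : ∀ m, s.B < m → m ≤ s.B' → |p.La 1 m| ≤ Real.exp (k.ς + max (s.t1 : ℝ) (-p.ω m))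
  j2 : ∀ m, s.B < m → m ≤ s.B' → |p.La 2 m| ≤ Real.exp (k.ς + max (s.t2 : ℝ) (-p.ω m))
  j3 : ∀ m, s.B < m → m ≤ s.B' → |p.La 3 m| ≤ Real.exp (k.ς + max (s.t3 : ℝ) (-p.ω m))
  f1 : -p.ω s.B' ≤ s.t1
  f2 : -p.ω s.B' ≤ s.t2
  t12 : (s.t1 : ℝ) ≤ (s.t2 - 2 * p.ω s.B') / 3 + 1
  t123 : (s.t1 : ℝ) + s.t2 + p.ω s.B' ≤ s.t3 + 2 * k.ς
  ok : (s.t2 : ℝ) + p.ω s.B + p.R s.B ≤ 4 * s.r - (k.g + 10) * k.ς

/-- the scale `D` is valid at `B+` -/
structure VL (s : St) (D : ℝ) : Prop where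
  D0 : 0 < D
  c1 : Real.log D ≤ -2 * s.r - 30 * k.G
  c2 : Real.log D ≤ -8 * k.ρ
  jet : p.Jle k (s.B + 1) D (Real.exp (-((k.g + 2) * k.ς) - p.W (s.B + 1)))

/-- a jet of order `≥ 4` dominates -/
def HI (s : St) (D : ℝ) : Prop := ∃ n j, s.B < n ∧ n ≤ s.B' ∧ 4 ≤ j ∧ j ≤ k.K ∧
  p.Adm k n D (|p.La 1 n| * D) (|p.La j n| * D ^ j) ∧
  Real.exp (4 * k.G) * (s.DD D + s.β * D ^ 2 * Real.exp (-p.ω n)) ≤ |p.La j n| * D ^ j

def FAIL (s : St) (D : ℝ) : Prop := ∃ n ν, s.B < n ∧ n ≤ s.B' ∧ p.Adm k n D (|p.La 1 n| * D) ν ∧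
  ν ≤ Real.exp (25 * k.G) * s.DD D ∧
  Real.exp (-p.ω n) ≤ Real.exp (25 * k.G) * (Real.exp s.t1 + s.DD D)

/-- `FAIL` with the order-3 tolerance removed -/
def LO (s : St) (D : ℝ) : Prop := ∃ n ν, s.B < n ∧ n ≤ s.B' ∧ p.Adm k n D (|p.La 1 n| * D) ν ∧
  ν ≤ Real.exp (60 * k.G) * s.D2 D ∧
  Real.exp (-p.ω n) ≤ Real.exp (60 * k.G) * (Real.exp s.t1 + s.D2 D)

/-- the link and the universal lower bound are below the tolerance -/
def LK (s : St) (D : ℝ) : Prop := D ^ (k.K + 1) ≤ Real.exp (60 * k.G) * s.D2 D ∧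
  ∃ kk TT, d.Link k p.toSk p.La s.B kk TT ∧ TT * D ^ kk ≤ Real.exp (60 * k.G) * s.D2 D

/-- numeric facts on the next stage `E`; `Q` = number of deep elements in `(B, E]` -/
structure NX (s : St) (D : ℝ) (E Q : ℕ) : Prop where
  le : s.B' ≤ E
  deep : d.deep k p.toSk E
  ok : p.OKs k d E
  Q1 : 1 ≤ Q
  dd : p.dd k d E + Q = p.dd k d s.B
  rr : s.r ≤ ⌈p.Rst (E + 1)⌉
  kn2 : (s.t2 : ℝ) + p.ω E + p.R E ≤ 4 * p.Rst (E + 1) + 3 * k.G * Q
  kn1 : 2 * (s.r : ℝ) + s.t1 + p.ω E + p.R E ≤ 4 * p.Rst (E + 1) + 3 * k.G * Q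
  cnt : max ((s.t2 : ℝ) - 4 * s.r) (-s.r - p.ω s.B') + p.ω E
    ≤ max 0 (3 * (⌈p.Rst (E + 1)⌉ : ℝ) - 4 * s.r) + 4 * k.G * Q
  el : ∀ l, s.B < l → l < E → d.deep k p.toSk l → p.V 3 l ≤ s.t2
  j1 : |p.La 1 E| ≤ Real.exp (k.ς + 2 * p.Rst (E + 1) - p.R E - p.ω E)
  clip : Real.log D ≤ -2 * (⌈p.Rst (E + 1)⌉ : ℝ) + 35 * k.G * Q

/-- entry into the stage `E` with the window `D` -/
structure EN (E : ℕ) (D : ℝ) : Prop where
  deep : d.deep k p.toSk E
  ok : p.OKs k d E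
  hv : 1000 * k.G ≤ p.Rst (E + 1)
  D0 : 0 < D
  c1 : Real.log D ≤ -2 * (⌈p.Rst (E + 1)⌉ : ℝ) - 30 * k.G
  c2 : Real.log D ≤ -8 * k.ρ
  jet : p.Jle k E D (Real.exp (-(3 * k.G) - p.R E - p.ω E))
end Pr

/-! ### rows -/

/-- numeric -/
def SD_s : Prop := ∀ (k : Par) (p : Pr) (d : Cd) (s : St), k.OK → p.Cand k d → p.SF k d s → p.SD k s

/-- numeric: jumping over elements that are not OK -/
def JMP_s : Prop := ∀ (k : Par) (p : Pr) (d : Cd), k.OK → p.Cand k d →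
  (∀ c, d.cut c → p.OKs k d c) ∧
  (∀ m, d.deep k p.toSk m → d.tt 2 m ≤ max (p.V 3 m) (d.tt 2 (m + 1))) ∧
  (∀ E, d.deep k p.toSk E → p.OKs k d E → d.tt 2 E + p.ω E + p.R E ≤ 4 * p.Rst (E + 1)) ∧
  (∀ a b, a ≤ b → b ≤ d.M → d.nocut a b → d.tt 2 b ≤ d.tt 2 a) ∧
  (∀ a b, a ≤ b → b ≤ d.M → (∀ l, a ≤ l → l < b → d.deep k p.toSk l → ¬ p.OKs k d l) →
    d.tt 2 a ≤ d.tt 2 b + (k.g + 11) * k.ς * ((Ico a b).filter (d.deep k p.toSk)).card) ∧
  (∀ e E, e < E → d.deep k p.toSk e → ¬ p.OKs k d e → 1000 * k.G ≤ p.R e → d.deep k p.toSk E →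
    p.OKs k d E → p.R e < p.Rst (E + 1))

/-- one pair, `j1f` -/
def DICH_s : Prop := ∀ (k : Par) (p : Pr) (s : St) (D : ℝ), k.OK → p.toSk.OK k.toEK → p.LA k →
  p.SD k s → p.VL k s D → p.HI k s D ∨ p.FAIL k s D

/-- one pair, numeric + `j3` -/
def LOW_s : Prop := ∀ (k : Par) (p : Pr) (d : Cd) (s : St) (D : ℝ), k.OK → p.Cand k d → p.SF k d s →
  p.SD k s → p.VL k s D → k.Dst ≤ D → p.FAIL k s D → p.LO k s D ∧ p.LK k d s D

/-- numeric: the run cannot fail when no OK element is left -/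
def TERM_s : Prop := ∀ (k : Par) (p : Pr) (d : Cd) (s : St) (D : ℝ), k.OK → p.Cand k d → p.SF k d s →
  p.SD k s → p.VL k s D → k.Dst ≤ D → p.LK k d s D →
  ∃ E, s.B < E ∧ d.deep k p.toSk E ∧ p.OKs k d E

/-- numeric: `E` = first OK deep element after `B` -/
def NEXT_s : Prop := ∀ (k : Par) (p : Pr) (d : Cd) (s : St) (D : ℝ), k.OK → p.Cand k d → p.SF k d s →
  p.SD k s → p.VL k s D → p.LK k d s D →
  (∃ E, s.B < E ∧ d.deep k p.toSk E ∧ p.OKs k d E) → ∃ E Q, p.NX k d s D E Q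

/-- one pair, `j4b`: claim (a) -/
def AA_s : Prop := ∀ (k : Par) (p : Pr) (d : Cd) (s : St) (D : ℝ) (E Q : ℕ), k.OK → p.Cand k d →
  p.SD k s → p.VL k s D → p.LO k s D → p.NX k d s D E Q →
  ∀ D', 0 < D' → D' ≤ D * Real.exp (-(100 * k.G * Q)) → p.EN k d E D'

/-- one pair, `j1f`: entry gives a stage with a valid window and bounded data -/
def ENT_s : Prop := ∀ (k : Par) (p : Pr) (d : Cd) (E : ℕ) (D : ℝ), k.OK → p.Cand k d → p.EN k d E D →
  k.Dst ≤ D → ∃ s : St, s.B = E ∧ p.SF k d s ∧ p.VL k s D ∧ 100 * (s.B' : ℝ) ≤ Real.exp k.ς ∧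
    |(s.r : ℝ)| ≤ 2 * k.Wc ∧ |(s.y : ℝ)| ≤ 2 * k.Wc ∧ |(s.t1 : ℝ)| ≤ 2 * k.Wc ∧
    |(s.t2 : ℝ)| ≤ 2 * k.Wc ∧ |(s.t3 : ℝ)| ≤ 2 * k.Wc

/-- one pair, numeric + `j1f` from index `0` -/
def BASE_s : Prop := ∀ (k : Par) (p : Pr) (d : Cd), k.OK → p.Cand k d → ∃ E, p.EN k d E k.D0 ∧
  p.Rst (E + 1) ≤ k.ρ ∧ p.ω E ≤ 6 * p.Rst (E + 1) + k.ρ / 40

/-- two pairs: the common core of TL and Y.  `X1, X2` bound the jets of the anchor at `q.t`. -/
def CORE_s : Prop := ∀ (k : Par) (p q : Pr) (s : St) (D ν : ℝ) (n : ℕ), k.OK →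
  p.toSk.OK k.toEK → p.LA k → p.SD k s → p.VL k s D → q.toSk.OK k.toEK → q.SD k s → p.TA k q →
  s.B < n → n ≤ s.B' → p.Adm k n D (|p.La 1 n| * D) ν → |q.t - p.t| ≤ D / 4 →
  |p.lab - q.lab| ≤ s.zl k → ∀ X : ℝ, X = s.D2 D + s.β * D ^ 2 * Real.exp (-p.ω n) →
  (|p.lab - q.lab| * s.β ^ 2 * D ^ 2 ≤ Real.exp (2 * k.G) * (X + s.β * D * ν) ∧
    |p.Fd n 2 q.t| * D ^ 2 ≤ Real.exp (-k.ς) * ν + Real.exp (3 * k.G) * (X + s.β * D * ν)) ∨
  (|p.lab - q.lab| * s.β ^ 2 * D ^ 2 ≤ Real.exp (2 * k.G) * (X + ν) ∧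
    |p.Fd n 3 q.t| * D ^ 3 ≤ Real.exp (-k.ς) * ν +
      Real.exp (3 * k.G) * (X + Real.exp s.t3 * D ^ 3 + s.β * D * ν))

/-- localisation in `t` -/
def TL_s : Prop := ∀ (k : Par) (p : Pr) (s : St) (D : ℝ), k.OK → p.toSk.OK k.toEK → p.LA k →
  p.SD k s → p.VL k s D → p.HI k s D → ∃ T : Finset ℝ, T.card ≤ 2 ^ k.K ∧ ∀ q : Pr,
    q.toSk.OK k.toEK → q.SD k s → p.TA k q → |q.t - p.t| ≤ D / 4 → |p.lab - q.lab| ≤ s.zl k →
    ∃ x ∈ T, |q.t - x| ≤ D * Real.exp (-(k.ς / (2 * k.K))) / 8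

/-- localisation in the label -/
def YB_s : Prop := ∀ (k : Par) (p q : Pr) (s : St) (D : ℝ), k.OK → p.toSk.OK k.toEK → p.LA k →
  p.SD k s → p.VL k s D → p.LO k s D → q.toSk.OK k.toEK → q.SD k s → p.TA k q →
  |q.t - p.t| ≤ D / 4 → |p.lab - q.lab| ≤ s.zl k →
  |p.lab - q.lab| ≤ Real.exp (70 * k.G + max ((s.t2 : ℝ) - 4 * s.r) (-s.r - p.ω s.B'))

/-- the box lemma at an entry -/
def BOX_s : Prop := ∀ (k : Par) (p q : Pr) (d d' : Cd) (E : ℕ) (D : ℝ), k.OK → p.Cand k d →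
  q.Cand k d' → p.EN k d E D → q.EN k d' E D → p.TA k q → |q.t - p.t| ≤ D →
  |p.lab - q.lab| ≤ Real.exp (-(2 * k.G) - p.ω E) →
  |p.lab - q.lab| ≤ Real.exp (k.G - p.R E - p.ω E)

/-- numeric: the potential -/
def PSI_s : Prop := ∀ (k : Par) (r r' : ℝ), k.OK → 0 ≤ r → r ≤ r' → 2 * r' ≤ k.Ψ r + k.ρ / 10 →
  k.Ψ r + max 0 (3 * r' - 4 * r) ≤ k.Ψ r'

/-- all one-pair rows together -/
def PST_s : Prop := ∀ (k : Par) (p : Pr) (d : Cd) (s : St) (D : ℝ), k.OK → p.Cand k d → p.SF k d s →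
  p.VL k s D → k.Dst ≤ D → ¬ p.HI k s D → p.LO k s D ∧ ∃ E Q, p.NX k d s D E Q ∧
    ∀ D', 0 < D' → D' ≤ D * Real.exp (-(100 * k.G * Q)) → p.EN k d E D'

theorem pst (h1 : SD_s) (h2 : DICH_s) (h3 : LOW_s) (h4 : TERM_s) (h5 : NEXT_s) (h6 : AA_s) : PST_s := by
  intro k p d s D hk hc hs hv hD hn
  have sd := h1 k p d s hk hc hs
  have f := (h2 k p s D hk hc.sk hc.la sd hv).resolve_left hn
  obtain ⟨lo, lk⟩ := h3 k p d s D hk hc hs sd hv hD f
  obtain ⟨E, Q, nx⟩ := h5 k p d s D hk hc hs sd hv lk (h4 k p d s D hk hc hs sd hv hD lk)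
  exact ⟨lo, E, Q, nx, h6 k p d s D E Q hk hc sd hv lo nx⟩

/-- measure of one entry cell: the induction claim of the run -/
def CELL (k : Par) (n : ℕ) : Prop := ∀ (Z : Type) (P : Z → Pr) (d : Z → Cd) (C : Set Z) (E : ℕ) (r : ℤ)
  (D : ℝ), Cl k P d C →
  (∀ z ∈ C, (P z).EN k (d z) E D ∧ ⌈(P z).Rst (E + 1)⌉ = r ∧ (P z).dd k (d z) E ≤ n) →
  (∀ z ∈ C, ∀ z' ∈ C, |(P z).t - (P z').t| ≤ D / 4 ∧
    |(P z).lab - (P z').lab| ≤ Real.exp (-(2 * k.G) - (P z).ω E)) →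
  volume ((fun z => (P z).t) '' C) ≤ ENNReal.ofReal (Real.exp (-k.Ψ r + 1000 * k.G * (n + 1)))

/-- measure of a zone in which `HI` fails for every candidate -/
def ZF (k : Par) (n : ℕ) : Prop := ∀ (Z : Type) (P : Z → Pr) (d : Z → Cd) (C : Set Z) (s : St) (D : ℝ),
  Cl k P d C → Real.exp (-k.Ψ s.r) ≤ D →
  (∀ z ∈ C, (P z).SF k (d z) s ∧ (P z).VL k s D ∧ (P z).dd k (d z) s.B ≤ n ∧ ¬ (P z).HI k s D) →
  (∀ z ∈ C, ∀ z' ∈ C, |(P z).t - (P z').t| ≤ D / 4 ∧ |(P z).lab - (P z').lab| ≤ s.zl k) →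
  volume ((fun z => (P z).t) '' C) ≤
    ENNReal.ofReal (Real.exp (-k.Ψ s.r + 1000 * k.G * (n + 1) - 500 * k.G))

/-- RUN, part 1 (step to the next stage) -/
def RUNA_s : Prop := SD_s → PST_s → YB_s → PSI_s → ∀ k : Par, k.OK → ∀ n,
  (∀ n' < n, CELL k n') → ZF k n
/-- RUN, part 2 (box, partition by stage data, iteration of TL) -/
def RUNB_s : Prop := SD_s → ENT_s → BOX_s → TL_s → ∀ k : Par, k.OK → ∀ n, ZF k n → CELL k n
/-- RUN, part 3 (base) -/
def RUNC_s : Prop := BASE_s → (∀ k : Par, k.OK → ∀ n, CELL k n) → RUN_s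

theorem run_of (a : RUNA_s) (b : RUNB_s) (c : RUNC_s) (sd : SD_s) (ps : PST_s) (yb : YB_s)
    (psi : PSI_s) (ent : ENT_s) (box : BOX_s) (tl : TL_s) (ba : BASE_s) : RUN_s :=
  c ba fun k hk n => Nat.strong_induction_on n fun n ih =>
    b sd ent box tl k hk n (a sd ps yb psi k hk n ih)

end
end Pool.Agent.MP_9cbfe4_an.E

end

/-! ### Part EN0 -/

section

/-! Section E-B: elementary facts on the constants and on the skeleton (helper23). -/

namespace Pool.Agent.MP_9cbfe4_an.E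

open Finset

namespace Par.OK
variable {k : Par} (h : k.OK)
include h
theorem K1 : (10 : ℝ) ≤ k.K := by exact_mod_cast h.K10
theorem u_big : 10 ^ 12 ≤ k.u := by nlinarith only [h.big, h.K1]
theorem u_le : 40 * k.u ≤ k.ς := by unfold Par.ς; nlinarith only [h.u_big, h.K1]
theorem Ku : 4 * k.K * k.u = k.ς := rfl
theorem ς_big : 10 ^ 13 ≤ k.ς := by linarith only [h.u_big, h.u_le]
theorem ς_K : 10 ^ 10 * (k.K : ℝ) ^ 2 ≤ k.ς := by linarith only [h.u_big, h.u_le, h.big]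
theorem G_ge : 10 * k.ς ≤ k.G := by unfold Par.G; nlinarith only [h.g10, h.ς_big]
theorem G_eq : k.g * k.ς = k.G := rfl
theorem G_pos : 0 < k.G := by linarith only [h.G_ge, h.ς_big]
theorem KG_le : 10 ^ 11 * (k.K * k.G) ≤ k.ρ := by
  have := h.small; unfold Par.G; linarith only [this]
theorem G_le : 10 ^ 12 * k.G ≤ k.ρ := by nlinarith only [h.KG_le, h.K1, h.G_pos]
theorem ρ_pos : 0 < k.ρ := by linarith only [h.G_le, h.G_pos]
theorem θρ : 10 ^ 6 * (k.θ * k.ρ) ≤ k.u := by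
  have := mul_pos h.θpos h.ρ_pos
  nlinarith only [this, h.th, h.K1]
theorem θ_le : k.θ ≤ 1 / 10 ^ 6 := by
  obtain h1 : k.u ≤ k.ρ := by linarith only [h.u_le, h.G_ge, h.G_le, h.u_big]
  obtain h2 : 10 ^ 6 * k.θ * k.ρ ≤ 1 * k.ρ := by linarith only [h1, h.θρ]
  have := le_of_mul_le_mul_right h2 h.ρ_pos
  linarith only [this]
theorem Wc_ge : 10 ^ 8 * k.ρ ≤ k.Wc := by unfold Par.Wc; nlinarith only [h.K1, h.ρ_pos]
theorem Λ_le : k.Λ ≤ k.φ := by
  unfold Par.φ EK.sl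
  obtain this : 0 ≤ k.θ ^ 2 * k.Wc := mul_nonneg (sq_nonneg _) (by linarith only [h.Wc_ge, h.ρ_pos])
  linarith only [this]
theorem φ_ge : 1 ≤ k.φ := h.Λ1.trans h.Λ_le
theorem φ_le : 10 ^ 8 * k.φ ≤ k.u := by
  obtain h1 : (100 : ℝ) ≤ k.g * k.K := by nlinarith only [h.g10, h.K1]
  nlinarith only [h1, h.fine, h.φ_ge]
theorem sl_le {x : ℝ} (hx : x ≤ k.Wc) : k.sl x ≤ k.φ := by
  unfold Par.φ EK.sl
  nlinarith only [hx, sq_nonneg k.θ]
/-- every integer datum has at most `e^ς` values -/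
theorem count : 100 * k.Wc ≤ Real.exp k.ς := by
  obtain h1 : k.u ^ 2 ≤ Real.exp k.ς := by
    have a := Real.add_one_le_exp (k.ς / 2)
    obtain b : Real.exp k.ς = Real.exp (k.ς / 2) ^ 2 := by rw [← Real.exp_nat_mul]; ring_nf
    rw [b]
    exact pow_le_pow_left₀ (by linarith only [h.u_big]) (by linarith only [a, h.u_le, h.u_big]) 2
  have h2 : 0 ≤ k.K * k.ρ := mul_nonneg (Nat.cast_nonneg _) h.ρ_pos.le
  unfold Par.Wc
  linarith only [h1, h2, h.big2]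
/-- `(g + c) ς ≤ G + c G / 10` -/
theorem g11 : (k.g + 11) * k.ς ≤ 21 / 10 * k.G := by
  have := h.G_ge; have e := h.G_eq; linarith only [this, e]
end Par.OK

namespace Sk
variable {S : Sk}
theorem Rst_nonneg (n : ℕ) : 0 ≤ S.Rst n := (Finset.le_fold_max _).2 (.inl le_rfl)
theorem le_Rst {l n : ℕ} (h : l < n) : S.R l ≤ S.Rst n :=
  (Finset.le_fold_max _).2 (.inr ⟨l, mem_range.2 h, le_rfl⟩)
theorem Rst_le {n : ℕ} {x : ℝ} (h0 : 0 ≤ x) (h : ∀ l < n, S.R l ≤ x) : S.Rst n ≤ x :=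
  (Finset.fold_max_le _).2 ⟨h0, fun l hl => h l (mem_range.1 hl)⟩
theorem Rst_mono {m n : ℕ} (h : m ≤ n) : S.Rst m ≤ S.Rst n :=
  Rst_le (Rst_nonneg n) fun _ hl => le_Rst (hl.trans_le h)
theorem Rst_eq (n : ℕ) : S.Rst n = 0 ∨ ∃ l < n, S.Rst n = S.R l := by
  rcases (Finset.le_fold_max _).1 (le_refl (S.Rst n)) with h | ⟨l, hl, h⟩
  · exact .inl (le_antisymm h (Rst_nonneg n))
  · exact .inr ⟨l, mem_range.1 hl, le_antisymm h (le_Rst (mem_range.1 hl))⟩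

namespace OK
variable {k : Par}
theorem W_mono {e : EK} (h : S.OK e) {a b : ℕ} (hab : a ≤ b) (hb : b ≤ S.N) : S.W a ≤ S.W b := by
  induction b, hab using Nat.le_induction with
  | base => exact le_rfl
  | succ b _ ih => exact (ih (by omega)).trans (h.mono b (by omega))
theorem W_nonneg {e : EK} (h : S.OK e) {b : ℕ} (hb : b ≤ S.N) : 0 ≤ S.W b :=
  h.W0.trans (h.W_mono b.zero_le hb)
variable (hk : k.OK) (h : S.OK k.toEK)
include hk h
theorem W_le {n : ℕ} (hn : n ≤ S.N) (hW : S.W n ≤ k.Wc) : S.W n ≤ S.ω n + k.φ :=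
  (h.lo n hn).trans (by linarith only [hk.sl_le hW])
theorem ω_le {n : ℕ} (hn : n ≤ S.N) : S.ω n ≤ S.W n + k.φ := (h.hi n hn).trans (by linarith only [hk.Λ_le])
theorem W_succ {l : ℕ} (hn : l + 1 ≤ S.N) (hW : S.W (l + 1) ≤ k.Wc) :
    S.W (l + 1) ≤ S.ω l + S.R l + k.φ := (h.dn l hn).trans (by unfold σ; linarith only [hk.sl_le hW])
theorem le_ω {a l : ℕ} (ha : a ≤ l) (hl : l ≤ S.N) (hW : S.W a ≤ k.Wc) : S.W a - k.φ ≤ S.ω l := by
  have h1 := h.lo l hl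
  have h2 := h.W_mono ha hl
  have h3 := hk.sl_le hW
  obtain h4 : k.θ ^ 2 ≤ 1 := by nlinarith only [hk.θ_le, hk.θpos]
  unfold EK.sl at h1 h3
  nlinarith only [h1, h3, h2, h4]
theorem ω_lo {l : ℕ} (hl : l ≤ S.N) : -k.φ ≤ S.ω l := by
  have h1 := h.lo l hl
  have h2 := h.W_nonneg hl
  obtain h4 : k.θ ^ 2 ≤ 1 := by nlinarith only [hk.θ_le, hk.θpos]
  unfold EK.sl at h1
  nlinarith only [h1, h2, h4, hk.Λ_le]
/-- almost monotone -/
theorem ω_mono {a l : ℕ} (ha : a ≤ l) (hl : l ≤ S.N) (hW : S.W a ≤ k.Wc) : S.ω a - 2 * k.φ ≤ S.ω l := by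
  linarith only [h.le_ω hk ha hl hW, h.ω_le hk (ha.trans hl)]
/-- K1 -/
theorem K1 {y l : ℕ} (hy : y < l) (hl : l ≤ S.N) (hW : S.W (y + 1) ≤ k.Wc) :
    S.ω y + S.R y - 2 * k.φ ≤ S.ω l := by
  linarith only [h.le_ω hk hy hl hW, h.up y (by omega), hk.Λ_le]
theorem idx_le {l : ℕ} (hl : l ≤ S.N) (hW : S.W l ≤ k.Wc) : 100 * (l : ℝ) ≤ Real.exp k.ς := by
  have h1 := (h.idx l hl).trans (Real.exp_le_exp.2 (hk.sl_le hW))
  obtain h2 : (100 : ℝ) ≤ Real.exp (k.ς - k.φ) := by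
    linarith only [Real.add_one_le_exp (k.ς - k.φ), hk.φ_le, hk.u_le, hk.u_big]
  calc 100 * (l : ℝ) ≤ Real.exp (k.ς - k.φ) * Real.exp k.φ := by gcongr
    _ = Real.exp k.ς := by rw [← Real.exp_add]; ring_nf
end OK
end Sk

theorem Pr.Cand.inr {k : Par} {p : Pr} {d : Cd} (h : p.Cand k d) {n : ℕ} (hn : n ≤ d.M) : p.InR k n :=
  ⟨hn.trans h.ch.MN, (h.sk.W_mono hn h.ch.MN).trans h.ch.early⟩

end Pool.Agent.MP_9cbfe4_an.E

end
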