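import Pool.Agent.MP_9cbfe4_an.M00
import Pool.Agent.MP_9cbfe4_an.M01

set_option linter.all false

attribute [-instance] AddQuantale.instAddLeftMono IdemSemiring.toCanonicallyOrderedAdd
  NumberField.to_charZero AddQuantale.instAddRightMono IdemSemiring.toMulLeftMono RKHS.instFunLike
  Quantale.instMulRightMono Quantale.instMulLeftMono IsOrderedCancelMonoid.toIsOrderedMonoid
  LinearOrderedCommMonoidWithZero.toPosMulStrictMono
  Group.IsPerfect.subsingleton_of_isMulCommutative CanonicallyOrderedAdd.toMulLeftMono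
  Valued.toUniformSpace IdemSemiring.toMulRightMono TotallySeparatedSpace.t2Space
  LinearOrderedCommMonoidWithZero.toIsOrderedMonoid IsScalarTower.complexToReal
  Order.Coframe.toCompleteLattice OmegaCompletePartialOrder.toPartialOrder Invertible.toNeZero
  GrpTypeEquivalenceGrp.grpGroup littleWedderburn CanonicallyOrderedMul.toMulLeftMono
  CoalgHomClass.toSemilinearMapClass TestFunctionClass.toDFunLike
  ContDiffMapSupportedInClass.toDFunLike Order.Frame.toCompleteLattice RightPreLieAlgebra.toModule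
  CategoryTheory.Limits.Concrete.instUniqueToTypeTerminal LeftPreLieAlgebra.toModule
  CStarAlgebra.instOrderClosedTopology IdemSemiring.toSemiring
  LieAdmissibleRing.toNonUnitalNonAssocRing NonUnitalAlgSemiHomClass.toDistribMulActionSemiHomClass
  CStarAlgebra.toNormedRing

/-! ### Part STJ -/

section

/-! Row STJ: jets of order `n ≥ 1` through one step of the recursion. -/

namespace Pool.Agent.MP_9cbfe4_an.SS

open Finset
open scoped ContDiff Nat

namespace STJ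

lemma pg_nonneg (dl b : ℝ) (v : R3) : 0 ≤ pg dl b v :=
  le_max_of_le_right (le_max_of_le_left (abs_nonneg _))

lemma pg_le {dl b B : ℝ} {v : R3} (h1 : dl * |v.1| ≤ B) (h2 : |v.2.1| ≤ B) (h3 : b * |v.2.2| ≤ B) :
    pg dl b v ≤ B := max_le h1 (max_le h2 h3)

lemma cv_jet {T x y : ℝ → ℝ} {τ : ℝ} {n i : ℕ} (hT : ContDiffAt ℝ n T τ) (hx : ContDiffAt ℝ n x τ)
    (hy : ContDiffAt ℝ n y τ) (hi : i ≤ n) : iteratedDeriv i (cv T x y) τ =
      (iteratedDeriv i T τ, iteratedDeriv i x τ, iteratedDeriv i y τ) := by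
  obtain h : (i : WithTop ℕ∞) ≤ n := by exact_mod_cast hi
  have e : cv T x y = fun σ => (T σ, (fun σ => (x σ, y σ)) σ) := rfl
  rw [e]
  simp only [iteratedDeriv, iteratedFDeriv_prodMk hT (hx.prodMk hy) h,
    iteratedFDeriv_prodMk hx hy h, ContinuousMultilinearMap.prod_apply]

variable {h : R3 → ℝ} {γ : ℝ → R3} {τ M B C dl b : ℝ} {n : ℕ}

/-- the part beyond the linear term -/
lemma rest_bd {j : ℕ} (hh : ContDiffAt ℝ ∞ h (γ τ)) (hγ : ContDiffAt ℝ n γ τ) (hj : 1 ≤ j)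
    (hjn : j ≤ n) (hM : 0 ≤ M) (hB : 0 ≤ B) (hBC : B ≤ C) (hC : 1 ≤ C)
    (hD : ∀ k, 2 ≤ k → k ≤ n → ∀ v : Fin k → R3,
      |iteratedFDeriv ℝ k h (γ τ) v| ≤ M * ∏ i, pg dl b (v i))
    (hm : ∀ a, 1 ≤ a → a < n → pg dl b (iteratedDeriv a γ τ) ≤ B) :
    |iteratedDeriv j (fun σ => h (γ σ)) τ - fderiv ℝ h (γ τ) (iteratedDeriv j γ τ)|
      ≤ n ! * (M * (B ^ 2 * C ^ (n - 1))) ∧
    |iteratedDeriv j (fun σ => h (γ σ)) τ - fderiv ℝ h (γ τ) (iteratedDeriv j γ τ)|
      ≤ n ! * (M * (B * C ^ n)) := by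
  obtain e := J0.expand_one (g := h) (γ := γ) (x := τ) (N := n) (j := j)
    (hh.of_le (by exact_mod_cast le_top)) hγ hj (by exact_mod_cast hjn)
  obtain e' : iteratedDeriv j (fun σ => h (γ σ)) τ - fderiv ℝ h (γ τ) (iteratedDeriv j γ τ) =
      J0.rest h γ τ j 2 := by
    rw [← add_sub_cancel_left (fderiv ℝ h (γ τ) (iteratedDeriv j γ τ)) (J0.rest h γ τ j 2), ← e]; rfl
  obtain hC0 : 0 ≤ C := by linarith only [hC]
  obtain h1 : |J0.rest h γ τ j 2| ≤ j ! * (M * (B ^ 2 * C ^ (n - 1))) :=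
    J0.abs_rest_le (p := pg dl b) (m := fun _ => B) le_rfl hM (by (clear * - hC; positivity)) (pg_nonneg dl b)
      (fun k hk hkj => hD k hk (hkj.trans hjn)) (fun a ha haj => hm a ha (by omega))
      fun k s hk hkj _ _ => by
        obtain ⟨k, rfl⟩ : ∃ k', k = 2 + k' := ⟨k - 2, by omega⟩
        rw [Finset.prod_const, Finset.card_univ, Fintype.card_fin, pow_add]
        exact mul_le_mul_of_nonneg_left
          ((pow_le_pow_left₀ hB hBC k).trans (pow_le_pow_right₀ hC (by omega))) (by (clear * -; positivity))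
  obtain h2 : (j ! : ℝ) ≤ n ! := by exact_mod_cast Nat.factorial_le hjn
  obtain h3 : |J0.rest h γ τ j 2| ≤ n ! * (M * (B ^ 2 * C ^ (n - 1))) :=
    h1.trans (mul_le_mul_of_nonneg_right h2 (by (clear * - hM hC; positivity)))
  rw [e']
  refine ⟨h3, h3.trans ?_⟩
  obtain ⟨n, rfl⟩ : ∃ n', n = n' + 1 := ⟨n - 1, by omega⟩
  rw [Nat.add_sub_cancel]
  obtain this : B ^ 2 * C ^ n ≤ B * C ^ (n + 1) := by
    rw [pow_succ C, sq, mul_assoc, mul_comm (C ^ n)]
    gcongr
  (clear * - this hM; gcongr)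

/-- Leibniz rule: everything beyond the term `A p⁽ⁿ⁾` -/
lemma leib {A p : ℝ → ℝ} {E P d : ℝ} (hA : ContDiffAt ℝ n A τ) (hp : ContDiffAt ℝ n p τ)
    (hn : 1 ≤ n) (hE : 0 ≤ E) (hP : 0 ≤ P) (hd : 0 ≤ d)
    (h1 : ∀ i, 1 ≤ i → i < n → |iteratedDeriv i A τ| ≤ E) (h2 : |iteratedDeriv n A τ| ≤ E + P)
    (h3 : ∀ i, i < n → |iteratedDeriv i p τ| ≤ d) :
    |iteratedDeriv n (fun σ => A σ * p σ) τ - A τ * iteratedDeriv n p τ| ≤ 2 ^ n * E * d + P * d := by
  have e : iteratedDeriv n (fun σ => A σ * p σ) τ = _ := iteratedDeriv_mul hA hp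
  rw [e, Finset.sum_range_succ']
  simp only [Nat.choose_zero_right, Nat.cast_one, one_mul, iteratedDeriv_zero, Nat.sub_zero,
    add_sub_cancel_right]
  obtain hs : ∑ i ∈ range n, (n.choose (i + 1) : ℝ) ≤ 2 ^ n := by
    have := Nat.sum_range_choose n
    rw [Finset.sum_range_succ'] at this
    obtain h' : ∑ i ∈ range n, n.choose (i + 1) ≤ 2 ^ n := by omega
    exact_mod_cast h'
  calc _ ≤ ∑ i ∈ range n, ((n.choose (i + 1) : ℝ) * (E * d) + if i = n - 1 then P * d else 0) := by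
        refine (Finset.abs_sum_le_sum_abs _ _).trans (Finset.sum_le_sum fun i hi => ?_)
        have hi := Finset.mem_range.1 hi
        rw [abs_mul, abs_mul, Nat.abs_cast, mul_assoc]
        obtain h4 := h3 (n - (i + 1)) (by omega)
        split_ifs with hin
        · obtain this : i + 1 = n := by omega
          rw [this] at h4 ⊢
          rw [Nat.choose_self, Nat.cast_one, one_mul, one_mul, ← add_mul]
          exact mul_le_mul h2 h4 (abs_nonneg _) (by (clear * - hE hP; positivity))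
        · rw [add_zero]
          exact mul_le_mul_of_nonneg_left
            (mul_le_mul (h1 _ (by omega) (by omega)) h4 (abs_nonneg _) hE) (by (clear * -; positivity))
    _ = (∑ i ∈ range n, (n.choose (i + 1) : ℝ)) * (E * d) + P * d := by
        rw [Finset.sum_add_distrib, ← Finset.sum_mul, Finset.sum_ite_eq',
          if_pos (Finset.mem_range.2 (by omega))]
    _ ≤ _ := by rw [mul_assoc]; gcongr

/-- product of a composed function with a scalar function -/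
lemma leib_comp {p : ℝ → ℝ} {d : ℝ} (hh : ContDiffAt ℝ ∞ h (γ τ)) (hγ : ContDiffAt ℝ n γ τ)
    (hp : ContDiffAt ℝ n p τ) (hn : 1 ≤ n) (hM : 0 ≤ M) (hB : 0 ≤ B) (hBC : B ≤ C) (hC : 1 ≤ C)
    (hd : 0 ≤ d)
    (hD : ∀ k, 1 ≤ k → k ≤ n → ∀ v : Fin k → R3,
      |iteratedFDeriv ℝ k h (γ τ) v| ≤ M * ∏ i, pg dl b (v i))
    (hm : ∀ a, 1 ≤ a → a < n → pg dl b (iteratedDeriv a γ τ) ≤ B)
    (h3 : ∀ i, i < n → |iteratedDeriv i p τ| ≤ d) :
    |iteratedDeriv n (fun σ => h (γ σ) * p σ) τ - h (γ τ) * iteratedDeriv n p τ|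
      ≤ 2 ^ (n + 1) * n ! * (M * (B * C ^ n)) * d + M * pg dl b (iteratedDeriv n γ τ) * d := by
  obtain hC0 : 0 ≤ C := by linarith only [hC]
  obtain hf : ∀ v, |fderiv ℝ h (γ τ) v| ≤ M * pg dl b v := fun v => by
    simpa using hD 1 le_rfl hn fun _ => v
  obtain hr := fun j hj hjn => (rest_bd (j := j) hh hγ hj hjn hM hB hBC hC
    (fun k hk => hD k (by omega)) hm).2
  obtain h1 : (1 : ℝ) ≤ n ! := by exact_mod_cast Nat.factorial_pos n
  obtain h2 : M * B ≤ n ! * (M * (B * C ^ n)) := by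
    have := one_le_pow₀ (n := n) hC
    calc M * B = 1 * (M * (B * 1)) := by ring
      _ ≤ _ := by (clear * - h1 this hB hM; gcongr)
  obtain h0 : 0 ≤ n ! * (M * (B * C ^ n)) := by (clear * - hM hB hC; positivity)
  obtain tri : ∀ u v : ℝ, |u| ≤ |u - v| + |v| := fun u v => by
    simpa using abs_add_le (u - v) v
  obtain this := leib (A := fun σ => h (γ σ)) (E := 2 * (n ! * (M * (B * C ^ n))))
    (P := M * pg dl b (iteratedDeriv n γ τ))
    ((hh.of_le (by exact_mod_cast le_top)).comp τ hγ) hp hn (by (clear * - hM hB hC; positivity))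
    (mul_nonneg hM (pg_nonneg _ _ _)) hd
    (fun i hi hin => (tri _ _).trans (by
      have := hr i hi hin.le
      have h4 := (hf (iteratedDeriv i γ τ)).trans (mul_le_mul_of_nonneg_left (hm i hi hin) hM)
      linarith))
    ((tri _ _).trans (by
      have := hr n hn le_rfl
      have h4 := hf (iteratedDeriv n γ τ)
      linarith)) h3
  refine this.trans (le_of_eq ?_)
  ring

end STJ

open STJ in
theorem stj (hG : MG_s) : STJ_s := by
  intro g U N a b m dl ρ hL n T x y p q τ B C d hn hnN hU hT hx hy hp hq hB hBC hC hd hj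
  obtain ⟨sa, sb, -, hlin, haa, -, hbd⟩ := hG g U N a b m dl ρ hL _ hU
  have hγ : ContDiffAt ℝ n (cv T x y) τ := hT.prodMk (hx.prodMk hy)
  have hb := hL.b0
  have hdl := hL.dl0
  obtain hC0 : 0 ≤ C := by linarith only [hC]
  obtain hcst : (2 : ℝ) ^ (n + 2) * n ! ≤ m := by
    refine le_trans ?_ hL.cst
    rw [mul_comm]
    obtain h1 : (n ! : ℝ) ≤ (N + 3)! := by exact_mod_cast Nat.factorial_le (by omega)
    exact mul_le_mul h1 (pow_le_pow_right₀ one_le_two (by omega)) (by positivity) (by positivity)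
  obtain hf1 : (0 : ℝ) < n ! := by exact_mod_cast Nat.factorial_pos n
  have h21 : (1 : ℝ) ≤ 2 ^ n := one_le_pow₀ one_le_two
  obtain hc2 : (2 : ℝ) ^ (n + 1) * n ! ≤ m / 2 := by rw [pow_succ _ (n + 1)] at hcst; linarith only [hcst]
  obtain hc1 : (n ! : ℝ) ≤ m := by
    rw [pow_succ] at hc2; nlinarith only [hf1, hc2, h21]
  have hm0 : 0 ≤ m := hf1.le.trans hc1
  obtain hm : ∀ i, 1 ≤ i → i < n → pg dl b (iteratedDeriv i (cv T x y) τ) ≤ B := fun i hi hin => by
    rw [cv_jet hT hx hy hin.le]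
    exact pg_le (hj i hi hin).1 (hj i hi hin).2.1 (hj i hi hin).2.2
  have hjn := cv_jet hT hx hy (le_refl n)
  set Tn := iteratedDeriv n T τ
  set xn := iteratedDeriv n x τ
  set yn := iteratedDeriv n y τ
  obtain t0 : 0 ≤ dl * |Tn| := by (clear * - hdl; positivity)
  obtain y0 : 0 ≤ b * |yn| := by (clear * - hb; positivity)
  have x0 := abs_nonneg xn
  obtain hP : pg dl b (iteratedDeriv n (cv T x y) τ) ≤ |xn| + b * |yn| + dl * |Tn| := by
    rw [hjn]
    exact pg_le (by simp only; linarith only [y0, x0]) (by simp only; linarith only [t0, y0]) (by simp only; linarith only [t0, x0])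
  have hCn : C ^ n ≤ C ^ (n + 1) := pow_le_pow_right₀ hC n.le_succ
  have hCn' : C ^ (n - 1) ≤ C ^ n := pow_le_pow_right₀ hC (Nat.sub_le _ _)
  have ha := hL.ha _ hU
  have hb' := hL.hb _ hU
  have hρ := hL.ρ0
  -- the product with `gb`
  obtain hgb : (∀ i, i < n → b * |iteratedDeriv i q τ| ≤ d) →
      |iteratedDeriv n (fun σ => gb g (cv T x y σ) * q σ) τ - gb g (cv T x y τ) * iteratedDeriv n q τ|
        ≤ m ^ 2 * B * C ^ (n + 1) * d / 2 + m * d * (|xn| + b * |yn| + dl * |Tn|) := fun h3 => by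
    obtain this := leib_comp (M := m * b) (d := d / b) sb hγ hq hn (by (clear * - hm0 hb; positivity)) hB hBC hC (by (clear * - hd hb; positivity))
      (fun k hk hkn v => (hbd k hk (by omega) v).2.1) hm
      (fun i hi => by rw [le_div_iff₀' hb]; exact h3 i hi)
    refine this.trans ?_
    obtain e1 : 2 ^ (n + 1) * n ! * (m * b * (B * C ^ n)) * (d / b) =
        2 ^ (n + 1) * n ! * (m * (B * C ^ n) * d) := by field_simp
    obtain e2 : m * b * pg dl b (iteratedDeriv n (cv T x y) τ) * (d / b) =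
        m * d * pg dl b (iteratedDeriv n (cv T x y) τ) := by field_simp
    rw [e1, e2]
    refine add_le_add ?_ (mul_le_mul_of_nonneg_left hP (by positivity))
    calc _ ≤ m / 2 * (m * (B * C ^ (n + 1)) * d) := by (clear * - hc2 hCn hB hm0 hd hC; gcongr)
      _ = _ := by ring
  obtain sA : ContDiffAt ℝ n (fun σ => ga g (cv T x y σ)) τ :=
    (sa.of_le (by exact_mod_cast le_top)).comp τ hγ
  obtain sB : ContDiffAt ℝ n (fun σ => gb g (cv T x y σ)) τ :=
    (sb.of_le (by exact_mod_cast le_top)).comp τ hγ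
  have hadd : ∀ p : ℝ → ℝ, ContDiffAt ℝ n p τ → iteratedDeriv n (tg g (cv T x y) p q) τ =
      iteratedDeriv n (fun σ => ga g (cv T x y σ) * p σ) τ +
        iteratedDeriv n (fun σ => gb g (cv T x y σ) * q σ) τ := fun p hp =>
    iteratedDeriv_add (sA.mul hp) (sB.mul hq)
  obtain mul_bd : ∀ u r v : ℝ, |u| ≤ r → |u * v| ≤ r * |v| := fun u r v h => by
    rw [abs_mul]; exact mul_le_mul_of_nonneg_right h (abs_nonneg _)
  refine ⟨?_, fun h3 => ?_, fun L hF h3 hd1 hdL => ?_⟩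
  · obtain h1 := (rest_bd (hL.sm _ hU) hγ hn le_rfl hm0 hB hBC hC
      (fun k hk hkn => hL.bd k hk (by omega) _ hU) hm).1
    rw [hlin, hjn] at h1
    simp only at h1
    obtain h2 : n ! * (m * (B ^ 2 * C ^ (n - 1))) ≤ m ^ 2 * B ^ 2 * C ^ n := by
      calc _ ≤ m * (m * (B ^ 2 * C ^ n)) := by (clear * - hc1 hCn' hm0 hC; gcongr)
        _ = _ := by ring
    have h4 := mul_bd _ _ xn ha
    have h5 := mul_bd _ _ yn hb'
    rw [abs_le] at h1 h4 h5 ⊢
    constructor <;> linarith only [h2, h1.1, h1.2, h4.1, h4.2, h5.1, h5.2]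
  · obtain h1 := leib_comp sa hγ hp hn hm0 hB hBC hC hd
      (fun k hk hkn v => (hbd k hk (by omega) v).1) hm fun i hi => (h3 i hi).1
    obtain h2 : 2 ^ (n + 1) * n ! * (m * (B * C ^ n)) * d ≤ m ^ 2 * B * C ^ (n + 1) * d / 2 := by
      calc _ ≤ m / 2 * (m * (B * C ^ (n + 1))) * d := by (clear * - hc2 hCn hB hm0 hC hd; gcongr)
        _ = _ := by ring
    obtain h2' : m * pg dl b (iteratedDeriv n (cv T x y) τ) * d ≤
        m * d * (|xn| + b * |yn| + dl * |Tn|) := by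
      rw [mul_right_comm]; exact mul_le_mul_of_nonneg_left hP (by positivity)
    have h6 := hgb fun i hi => (h3 i hi).2
    have h4 := mul_bd _ _ (iteratedDeriv n p τ) ha
    have h5 := mul_bd _ _ (iteratedDeriv n q τ) hb'
    rw [hadd p hp]
    rw [abs_le] at h1 h4 h5 h6 ⊢
    constructor <;> linarith only [h2, h2', h1.1, h1.2, h4.1, h4.2, h5.1, h5.2, h6.1, h6.2]
  · obtain ⟨s, hs, hF⟩ := hF
    have h0 := hF _ hU
    set w := iteratedFDeriv ℝ 2 g (cv T x y τ) ![(0, 1, 0), (0, 1, 0)]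
    obtain hw : 3 / 4 * L ≤ |w| := by
      rcases hs with rfl | rfl
      · exact h0.trans (by rw [one_mul]; exact le_abs_self w)
      · exact h0.trans (by rw [neg_one_mul]; exact neg_le_abs w)
    obtain h1 := (rest_bd sa hγ hn le_rfl hm0 hB hBC hC
      (fun k hk hkn v => (hbd k (by omega) (by omega) v).1) hm).1
    obtain e : fderiv ℝ (ga g) (cv T x y τ) (iteratedDeriv n (cv T x y) τ) =
        w * xn + fderiv ℝ (ga g) (cv T x y τ) (Tn, 0, yn) := by
      rw [hjn, ← haa, ← map_add]; simp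
    obtain h2 : |fderiv ℝ (ga g) (cv T x y τ) (Tn, 0, yn)| ≤ m * (b * |yn| + dl * |Tn|) := by
      obtain this := (hbd 1 le_rfl (by omega) fun _ => (Tn, 0, yn)).1
      simp only [iteratedFDeriv_one_apply, Finset.univ_unique, Finset.prod_singleton] at this
      refine this.trans (mul_le_mul_of_nonneg_left (pg_le ?_ ?_ ?_) hm0) <;>
        simp only [abs_zero] <;> linarith only [y0, t0]
    obtain h7 : n ! * (m * (B ^ 2 * C ^ (n - 1))) ≤ m ^ 2 * B * C ^ (n + 1) * B := by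
      calc _ ≤ m * (m * (B ^ 2 * C ^ (n + 1))) := by have := hCn'.trans hCn; (clear * - hc1 this hm0 hC; gcongr)
        _ = _ := by ring
    have h6 := hgb h3
    obtain h5 : |gb g (cv T x y τ) * iteratedDeriv n q τ| ≤ 2 * b * |iteratedDeriv n q τ| := by
      refine mul_bd _ _ _ ?_
      have := hL.ρ1
      rw [abs_le] at hb' ⊢
      constructor <;> nlinarith only [hb, this, hb'.1, hb'.2]
    obtain h8 : m * d * (|xn| + b * |yn| + dl * |Tn|) ≤ L / 4 * |xn| + m * (b * |yn| + dl * |Tn|) := by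
      have h9 : m * d ≤ m := mul_le_of_le_one_right hm0 hd1
      linarith only [mul_le_mul_of_nonneg_right hdL x0, mul_le_mul_of_nonneg_right h9 (add_nonneg y0 t0)]
    obtain h9 : 3 / 4 * L * |xn| ≤ |w * xn| := by
      rw [abs_mul]; exact mul_le_mul_of_nonneg_right hw x0
    obtain h10 : 0 ≤ m ^ 2 * B * C ^ (n + 1) * d := by (clear * - hB hC hd; positivity)
    have e1 := hadd (fun _ => 1) contDiffAt_const
    simp only [mul_one] at e1
    rw [e] at h1
    set D := iteratedDeriv n (tg g (cv T x y) (fun _ => 1) q) τ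
    obtain h11 : |w * xn| ≤ |D| + (m ^ 2 * B * C ^ (n + 1) * B + m * (b * |yn| + dl * |Tn|) +
        2 * b * |iteratedDeriv n q τ| + (m ^ 2 * B * C ^ (n + 1) * d / 2 +
          m * d * (|xn| + b * |yn| + dl * |Tn|))) := by
      have d1 := le_abs_self D
      have d2 := neg_abs_le D
      rw [abs_le] at h1 h2 h5 h6 ⊢
      constructor <;> linarith only [h7, e1, d2, d1, h1.1, h1.2, h2.1, h2.2, h5.1, h5.2, h6.1, h6.2]
    linarith only [h8, h9, h10, h11]

end Pool.Agent.MP_9cbfe4_an.SS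

end

/-! ### Part STD -/

section

/-! Row STD: differences of jets along two curves with the same time component. -/

namespace Pool.Agent.MP_9cbfe4_an.SS

open Finset
open scoped ContDiff Nat

namespace STD

variable {E : Type*} [NormedAddCommGroup E] [NormedSpace ℝ E]

/-- two curves with bounded jets and close lower jets -/
structure Two (U : Set E) (p : E → ℝ) (γ' γ : ℝ → E) (τ : ℝ) (n : ℕ) (C z : ℝ) : Prop where
  conv : Convex ℝ U
  m' : γ' τ ∈ U
  m : γ τ ∈ U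
  s' : ContDiffAt ℝ n γ' τ
  s : ContDiffAt ℝ n γ τ
  hp : ∀ v, 0 ≤ p v
  C1 : 1 ≤ C
  z0 : 0 ≤ z
  n1 : 1 ≤ n
  b' : ∀ i, 1 ≤ i → i ≤ n → p (iteratedDeriv i γ' τ) ≤ C
  b : ∀ i, 1 ≤ i → i ≤ n → p (iteratedDeriv i γ τ) ≤ C
  d : ∀ i, i < n → p (iteratedDeriv i γ' τ - iteratedDeriv i γ τ) ≤ z

variable {U : Set E} {p : E → ℝ} {γ' γ : ℝ → E} {τ C z M : ℝ} {n j : ℕ} {h : E → ℝ}

lemma le_inf (k : ℕ) : (k : WithTop ℕ∞) ≤ ∞ := by exact_mod_cast le_top

lemma cast_le {a b : ℕ} (h : a ≤ b) : (a : WithTop ℕ∞) ≤ b := by exact_mod_cast h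

lemma fact_le (hj : j ≤ n) : (j ! : ℝ) * (j + 1) ≤ (n + 1)! := by
  obtain this : (j + 1)! ≤ (n + 1)! := Nat.factorial_le (by omega)
  rw [Nat.factorial_succ] at this
  rw [mul_comm]
  exact_mod_cast this

lemma fact_one (n : ℕ) : (1 : ℝ) ≤ (n + 1)! := by exact_mod_cast Nat.factorial_pos _

lemma Two.diff (H : Two U p γ' γ τ n C z) (hM : 0 ≤ M) (hs : ∀ u ∈ U, ContDiffAt ℝ ∞ h u)
    (hD : ∀ k, 2 ≤ k → k ≤ n + 1 → ∀ u ∈ U, ∀ v : Fin k → E,
      |iteratedFDeriv ℝ k h u v| ≤ M * ∏ i, p (v i)) (hj : 0 < j) (hjn : j ≤ n) :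
    |dj j (h ∘ γ') (h ∘ γ) τ - fderiv ℝ h (γ τ) (iteratedDeriv j γ' τ - iteratedDeriv j γ τ)|
      ≤ 2 * (n + 1)! * (M * (z * C ^ n)) := by
  have hC := H.C1
  have hz := H.z0
  have hpw : ∀ k, k ≤ n → z * C ^ k ≤ z * C ^ n := fun k hk =>
    mul_le_mul_of_nonneg_left (pow_le_pow_right₀ hC hk) hz
  obtain hB : 0 ≤ z * C ^ n := by positivity
  obtain A := J0.diff_any (m := fun _ => C) (z := fun _ => z) (B := z * C ^ n) (j := j) H.conv H.m' H.m
    (fun u hu => (hs u hu).of_le (le_inf _)) (H.s'.of_le (cast_le hjn)) (H.s.of_le (cast_le hjn))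
    hj hM hB H.hp (fun k h1 h2 => hD k h1 (by omega))
    (fun a h1 h2 => H.b' a h1 (by omega)) (fun a h1 h2 => H.b a h1 (by omega))
    (by simpa using H.d 0 H.n1) (fun a _ h2 => H.d a (by omega))
    (fun k s h1 h2 _ _ => ⟨by simpa using hpw k (by omega), fun i => by
      simpa [Finset.card_erase_of_mem] using hpw (k - 1) (by omega)⟩)
  refine A.trans ?_
  obtain h1 : M * (z * C) ≤ M * (z * C ^ n) :=
    mul_le_mul_of_nonneg_left (by simpa using hpw 1 H.n1) hM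
  have h2 := fact_le hjn
  have h3 := fact_one n
  obtain h4 : 0 ≤ M * (z * C ^ n) := by (clear * - hM hz hC; positivity)
  linarith only [h1, mul_le_mul_of_nonneg_right h2 h4, mul_le_mul_of_nonneg_right h3 h4]

lemma fd_le {u v : E} (hD : ∀ v : Fin 1 → E, |iteratedFDeriv ℝ 1 h u v| ≤ M * ∏ i, p (v i)) :
    |fderiv ℝ h u v| ≤ M * p v := by
  simpa using hD ![v]

lemma Two.low (H : Two U p γ' γ τ n C z) (hM : 0 ≤ M) (hs : ∀ u ∈ U, ContDiffAt ℝ ∞ h u)
    (hD : ∀ k, 1 ≤ k → k ≤ n + 1 → ∀ u ∈ U, ∀ v : Fin k → E,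
      |iteratedFDeriv ℝ k h u v| ≤ M * ∏ i, p (v i)) (hjn : j < n) :
    |dj j (h ∘ γ') (h ∘ γ) τ| ≤ 3 * (n + 1)! * (M * (z * C ^ n)) := by
  have hz := H.z0
  have hC := H.C1
  have h0 : M * z ≤ M * (z * C ^ n) :=
    mul_le_mul_of_nonneg_left (le_mul_of_one_le_right hz (one_le_pow₀ hC)) hM
  have h3 := fact_one n
  obtain h4 : 0 ≤ M * (z * C ^ n) := by (clear * - hM hz hC; positivity)
  have h5 := mul_le_mul_of_nonneg_right h3 h4
  rcases Nat.eq_zero_or_pos j with rfl | hj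
  · obtain A := J0.iter_sub_le (k := 0) (g := h) H.conv H.m H.m'
      (fun u hu => (hs u hu).of_le (le_inf _)) (hD 1 le_rfl (by omega)) ![]
    obtain B : p (γ' τ - γ τ) ≤ z := by simpa using H.d 0 hjn
    have := mul_le_mul_of_nonneg_left B hM
    simp only [iteratedFDeriv_zero_apply, univ_eq_empty, prod_empty, mul_one] at A
    simp only [dj, iteratedDeriv_zero, Function.comp]
    linarith only [h0, h4, h5, this, A]
  · obtain A := H.diff hM hs (fun k h1 => hD k (by omega)) hj hjn.le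
    obtain B := (fd_le (v := iteratedDeriv j γ' τ - iteratedDeriv j γ τ)
      (hD 1 le_rfl (by omega) _ H.m)).trans (mul_le_mul_of_nonneg_left (H.d j hjn) hM)
    have := abs_sub_abs_le_abs_sub (dj j (h ∘ γ') (h ∘ γ) τ)
      (fderiv ℝ h (γ τ) (iteratedDeriv j γ' τ - iteratedDeriv j γ τ))
    linarith only [h0, h5, A, B, this]

lemma Two.jet (H : Two U p γ' γ τ n C z) (hM : 0 ≤ M) (hs : ∀ u ∈ U, ContDiffAt ℝ ∞ h u)
    (hD : ∀ k, 1 ≤ k → k ≤ n + 1 → ∀ u ∈ U, ∀ v : Fin k → E,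
      |iteratedFDeriv ℝ k h u v| ≤ M * ∏ i, p (v i)) (hj : 0 < j) (hjn : j ≤ n) :
    |iteratedDeriv j (h ∘ γ) τ| ≤ 2 * (n + 1)! * (M * C ^ n) := by
  have hC := H.C1
  have hpw : ∀ k, k ≤ n → C ^ k ≤ C ^ n := fun k hk => pow_le_pow_right₀ hC hk
  rw [J0.expand_one ((hs _ H.m).of_le (le_inf n)) H.s hj (cast_le hjn)]
  obtain A := J0.abs_rest_le (g := h) (γ := γ) (x := τ) (j := j) (m := fun _ => C) (B := C ^ n) le_rfl
    hM (by positivity) H.hp (fun k h1 h2 => hD k (by omega) (by omega) _ H.m)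
    (fun a h1 h2 => H.b a h1 (by omega)) (fun k s _ h2 _ _ => by simpa using hpw k (by omega))
  obtain B := (fd_le (v := iteratedDeriv j γ τ)
      (hD 1 le_rfl (by omega) _ H.m)).trans (mul_le_mul_of_nonneg_left (H.b j hj hjn) hM)
  obtain h1 : M * C ≤ M * C ^ n := mul_le_mul_of_nonneg_left (by simpa using hpw 1 H.n1) hM
  obtain h2 : (j ! : ℝ) ≤ (n + 1)! := by exact_mod_cast Nat.factorial_le (by omega)
  have h3 := fact_one n
  obtain h4 : 0 ≤ M * C ^ n := by (clear * - hM hC; positivity)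
  have := abs_add_le (fderiv ℝ h (γ τ) (iteratedDeriv j γ τ)) (J0.rest h γ τ j 2)
  linarith only [A, B, h1, this, mul_le_mul_of_nonneg_right h2 h4, mul_le_mul_of_nonneg_right h3 h4]

lemma sum_choose_le {F : ℕ → ℝ} {s : Finset ℕ} {B : ℝ} (hB : 0 ≤ B) (hs : s ⊆ range (n + 1))
    (hF : ∀ i ∈ s, |F i| ≤ B) : |∑ i ∈ s, (n.choose i : ℝ) * F i| ≤ 2 ^ n * B := by
  calc _ ≤ ∑ i ∈ s, |(n.choose i : ℝ) * F i| := abs_sum_le_sum_abs _ _
    _ ≤ ∑ i ∈ s, (n.choose i : ℝ) * B := sum_le_sum fun i hi => by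
        rw [abs_mul, Nat.abs_cast]
        exact mul_le_mul_of_nonneg_left (hF i hi) (Nat.cast_nonneg _)
    _ ≤ ∑ i ∈ range (n + 1), (n.choose i : ℝ) * B :=
        sum_le_sum_of_subset_of_nonneg hs fun i _ _ => by (clear * - hB; positivity)
    _ = 2 ^ n * B := by
        rw [← sum_mul]
        congr 1
        exact_mod_cast Nat.sum_range_choose n

/-- Leibniz rule for the difference of two products -/
lemma dj_mul {A A' P P' : ℝ → ℝ} (hA : ContDiffAt ℝ n A τ) (hA' : ContDiffAt ℝ n A' τ)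
    (hP : ContDiffAt ℝ n P τ) (hP' : ContDiffAt ℝ n P' τ) :
    dj n (A' * P') (A * P) τ - A τ * dj n P' P τ - dj n A' A τ * P' τ =
      ∑ i ∈ (range (n + 1)).erase 0, (n.choose i : ℝ) * (iteratedDeriv i A τ * dj (n - i) P' P τ) +
      ∑ i ∈ (range (n + 1)).erase n, (n.choose i : ℝ) * (dj i A' A τ * iteratedDeriv (n - i) P' τ) := by
  rw [sum_erase_eq_sub (by simp), sum_erase_eq_sub (by simp)]
  simp only [dj, iteratedDeriv_mul hA' hP', iteratedDeriv_mul hA hP, Nat.choose_zero_right,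
    Nat.choose_self, Nat.cast_one, one_mul, Nat.sub_zero, Nat.sub_self, iteratedDeriv_zero]
  obtain this : ∑ i ∈ range (n + 1), (n.choose i : ℝ) * iteratedDeriv i A' τ * iteratedDeriv (n - i) P' τ -
      ∑ i ∈ range (n + 1), (n.choose i : ℝ) * iteratedDeriv i A τ * iteratedDeriv (n - i) P τ =
      ∑ i ∈ range (n + 1), (n.choose i : ℝ) * (iteratedDeriv i A τ *
        (iteratedDeriv (n - i) P' τ - iteratedDeriv (n - i) P τ)) +
      ∑ i ∈ range (n + 1), (n.choose i : ℝ) * ((iteratedDeriv i A' τ - iteratedDeriv i A τ) *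
        iteratedDeriv (n - i) P' τ) := by
    rw [← sum_sub_distrib, ← sum_add_distrib]
    exact sum_congr rfl fun i _ => by ring
  rw [this]
  ring

lemma Two.prod (H : Two U p γ' γ τ n C z) (hM : 0 ≤ M) (hs : ∀ u ∈ U, ContDiffAt ℝ ∞ h u)
    (hD : ∀ k, 1 ≤ k → k ≤ n + 1 → ∀ u ∈ U, ∀ v : Fin k → E,
      |iteratedFDeriv ℝ k h u v| ≤ M * ∏ i, p (v i)) {P P' : ℝ → ℝ} {m : ℝ} (hm : 0 ≤ m)
    (hP : ContDiffAt ℝ n P τ) (hP' : ContDiffAt ℝ n P' τ)
    (h1 : ∀ i, i < n → M * |dj i P' P τ| ≤ m * z)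
    (h2 : ∀ i, i ≤ n → M * |iteratedDeriv i P' τ| ≤ m * C) :
    |dj n ((h ∘ γ') * P') ((h ∘ γ) * P) τ - h (γ τ) * dj n P' P τ -
        fderiv ℝ h (γ τ) (iteratedDeriv n γ' τ - iteratedDeriv n γ τ) * P' τ|
      ≤ 7 * 2 ^ n * (n + 1)! * (m * (z * C ^ (n + 1))) := by
  have hC := H.C1
  have hz := H.z0
  have hA : ContDiffAt ℝ n (h ∘ γ) τ := ((hs _ H.m).of_le (le_inf n)).comp τ H.s
  have hA' : ContDiffAt ℝ n (h ∘ γ') τ := ((hs _ H.m').of_le (le_inf n)).comp τ H.s'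
  have e := dj_mul hA hA' hP hP'
  have hK := fact_one n
  set K : ℝ := (((n + 1)! : ℕ) : ℝ) with hKd
  set W : ℝ := K * (m * (z * C ^ (n + 1))) with hW
  obtain hW0 : 0 ≤ W := by (clear * - hm hz hC; positivity)
  obtain hCn : 0 ≤ C ^ n := by positivity
  obtain s1 := sum_choose_le (n := n) (s := (range (n + 1)).erase 0) (B := 2 * W)
    (F := fun i => iteratedDeriv i (h ∘ γ) τ * dj (n - i) P' P τ) (by (clear * - hm hz hC; positivity)) (erase_subset _ _)
    fun i hi => by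
      simp only [mem_erase, mem_range] at hi
      obtain a := H.jet hM hs hD (Nat.pos_of_ne_zero hi.1) (by omega : i ≤ n)
      obtain b := h1 (n - i) (by omega)
      rw [abs_mul]
      calc _ ≤ 2 * K * (M * C ^ n) * |dj (n - i) P' P τ| := by gcongr
        _ = 2 * K * C ^ n * (M * |dj (n - i) P' P τ|) := by ring
        _ ≤ 2 * K * C ^ (n + 1) * (m * z) := by gcongr; omega
        _ = _ := by rw [hW]; ring
  obtain key : ∀ (c r t : ℝ), 0 ≤ c → |r| ≤ c * K * (M * (z * C ^ n)) → M * |t| ≤ m * C →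
      |r * t| ≤ c * W := fun c r t hc a b => by
    rw [abs_mul]
    calc _ ≤ c * K * (M * (z * C ^ n)) * |t| := by gcongr
      _ = c * K * (z * C ^ n) * (M * |t|) := by ring
      _ ≤ c * K * (z * C ^ n) * (m * C) := by gcongr
      _ = _ := by rw [hW]; ring
  obtain s2 := sum_choose_le (n := n) (s := (range (n + 1)).erase n) (B := 3 * W)
    (F := fun i => dj i (h ∘ γ') (h ∘ γ) τ * iteratedDeriv (n - i) P' τ) (by (clear * - hm hz hC; positivity))
    (erase_subset _ _) fun i hi => by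
      simp only [mem_erase, mem_range] at hi
      exact key 3 _ _ (by norm_num) (H.low hM hs hD (by omega)) (h2 _ (by omega))
  obtain s3 := key 2 _ (P' τ) (by norm_num) (H.diff hM hs (fun k h1 => hD k (by omega)) H.n1 le_rfl)
    (by simpa using h2 0 (by omega))
  obtain t : (1 : ℝ) ≤ 2 ^ n := one_le_pow₀ (by norm_num)
  have t' := mul_le_mul_of_nonneg_right t hW0
  obtain e2 : dj n ((h ∘ γ') * P') ((h ∘ γ) * P) τ - h (γ τ) * dj n P' P τ -
      fderiv ℝ h (γ τ) (iteratedDeriv n γ' τ - iteratedDeriv n γ τ) * P' τ =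
      (dj n ((h ∘ γ') * P') ((h ∘ γ) * P) τ - (h ∘ γ) τ * dj n P' P τ -
        dj n (h ∘ γ') (h ∘ γ) τ * P' τ) + (dj n (h ∘ γ') (h ∘ γ) τ -
      fderiv ℝ h (γ τ) (iteratedDeriv n γ' τ - iteratedDeriv n γ τ)) * P' τ := by
    simp only [Function.comp]; ring
  rw [e2, e]
  refine (abs_add_le _ _).trans ?_
  refine (add_le_add (abs_add_le _ _) le_rfl).trans ?_
  obtain this : 7 * 2 ^ n * K * (m * (z * C ^ (n + 1))) = 7 * (2 ^ n * W) := by rw [hW]; ring
  rw [this]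
  linarith only [s1, s2, s3, t']

lemma jet_cv {T x y : ℝ → ℝ} (hT : ContDiffAt ℝ n T τ) (hx : ContDiffAt ℝ n x τ)
    (hy : ContDiffAt ℝ n y τ) (hj : j ≤ n) :
    iteratedDeriv j (cv T x y) τ = (iteratedDeriv j T τ, iteratedDeriv j x τ, iteratedDeriv j y τ) := by
  have e : cv T x y = fun σ => (T σ, (fun σ => (x σ, y σ)) σ) := rfl
  rw [e]
  simp only [iteratedDeriv, iteratedFDeriv_prodMk hT (hx.prodMk hy) (cast_le hj),
    iteratedFDeriv_prodMk hx hy (cast_le hj), ContinuousMultilinearMap.prod_apply]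

lemma pg_nonneg (dl b : ℝ) (v : R3) : 0 ≤ pg dl b v :=
  (abs_nonneg _).trans ((le_max_left _ _).trans (le_max_right _ _))

lemma pg_le {dl b B : ℝ} {v : R3} (h1 : dl * |v.1| ≤ B) (h2 : |v.2.1| ≤ B) (h3 : b * |v.2.2| ≤ B) :
    pg dl b v ≤ B := max_le h1 (max_le h2 h3)

lemma pg_zero {dl b : ℝ} (hb : 0 < b) (s t : ℝ) : pg dl b (0, s, t) ≤ |s| + b * |t| := by
  obtain this : 0 ≤ b * |t| := by positivity
  have := abs_nonneg s
  refine pg_le ?_ ?_ ?_ <;> simp <;> linarith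

lemma cst_le {N : ℕ} {m : ℝ} (h : ((N + 3)! : ℝ) * 2 ^ (N + 3) ≤ m) (hn : n ≤ N) :
    14 * 2 ^ n * ((n + 1)! : ℝ) ≤ m := by
  refine le_trans ?_ h
  obtain a : 2 * (n + 1)! ≤ (N + 3)! := by
    refine le_trans ?_ (Nat.factorial_le (by omega : n + 2 ≤ N + 3))
    rw [Nat.factorial_succ (n + 1)]
    exact Nat.mul_le_mul_right _ (by omega)
  obtain a' : 2 * ((n + 1)! : ℝ) ≤ (N + 3)! := by exact_mod_cast a
  obtain b : (2 : ℝ) ^ n * 8 ≤ 2 ^ (N + 3) := by
    rw [pow_add]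
    exact mul_le_mul (pow_le_pow_right₀ one_le_two hn) (by norm_num) (by norm_num) (by positivity)
  have c := fact_one n
  calc 14 * 2 ^ n * ((n + 1)! : ℝ) ≤ (2 * ((n + 1)! : ℝ)) * (2 ^ n * 8) := by
        obtain this : (0 : ℝ) ≤ 2 ^ n * ((n + 1)! : ℝ) := by positivity
        linarith only [this]
    _ ≤ _ := by gcongr

lemma lin_le {α β a b ρ s t : ℝ} (ha : |α - a| ≤ ρ) (hb : |β - b| ≤ ρ * b) :
    |α * s + β * t - a * s - b * t| ≤ ρ * (|s| + b * |t|) := by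
  obtain e : α * s + β * t - a * s - b * t = (α - a) * s + (β - b) * t := by ring
  rw [e]
  refine (abs_add_le _ _).trans ?_
  rw [abs_mul, abs_mul]
  linarith only [mul_le_mul_of_nonneg_right ha (abs_nonneg s), mul_le_mul_of_nonneg_right hb (abs_nonneg t)]

lemma dj_add {A B A' B' : ℝ → ℝ} (hA : ContDiffAt ℝ n A τ) (hA' : ContDiffAt ℝ n A' τ)
    (hB : ContDiffAt ℝ n B τ) (hB' : ContDiffAt ℝ n B' τ) :
    dj n (A' + B') (A + B) τ = dj n A' A τ + dj n B' B τ := by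
  simp only [dj, iteratedDeriv_add hA hB, iteratedDeriv_add hA' hB']
  ring

end STD

open STD in
theorem std (MG : MG_s) : STD_s := by
  intro g U N a b m dl ρ L0 n T x y p q x' y' p' q' τ C d z n1 nN hU hU' sT sx sy sp sq sx' sy' sp' sq'
    C1 dC z0 hb hd
  have b0 := L0.b0
  have hc := cst_le L0.cst nN
  have hK := fact_one n
  obtain t2 : (1 : ℝ) ≤ 2 ^ n := one_le_pow₀ (by norm_num)
  obtain hK2 : (2 : ℝ) * (n + 1)! ≤ m := by nlinarith only [hc, hK, t2]
  obtain m0 : 0 ≤ m := by linarith only [hK, hK2]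
  obtain eΔ : ∀ i, i ≤ n → iteratedDeriv i (cv T x' y') τ - iteratedDeriv i (cv T x y) τ =
      (0, dj i x' x τ, dj i y' y τ) := fun i hi => by
    rw [jet_cv sT sx' sy' hi, jet_cv sT sx sy hi]
    simp [dj]
  obtain H : Two U (pg dl b) (cv T x' y') (cv T x y) τ n C z :=
    { conv := L0.conv, m' := hU', m := hU, s' := sT.prodMk (sx'.prodMk sy')
      s := sT.prodMk (sx.prodMk sy), hp := pg_nonneg dl b, C1 := C1, z0 := z0, n1 := n1
      b' := fun i h1 h2 => by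
        rw [jet_cv sT sx' sy' h2]
        exact pg_le (hb i h1 h2).1 (hb i h1 h2).2.2.2.1 (hb i h1 h2).2.2.2.2
      b := fun i h1 h2 => by
        rw [jet_cv sT sx sy h2]
        exact pg_le (hb i h1 h2).1 (hb i h1 h2).2.1 (hb i h1 h2).2.2.1
      d := fun i h1 => by
        rw [eΔ i h1.le]
        exact pg_le (by simpa using z0) (hd i h1).1 (hd i h1).2 }
  have G := MG g U N a b m dl ρ L0
  obtain Da : ∀ k, 1 ≤ k → k ≤ n + 1 → ∀ u ∈ U, ∀ v : Fin k → R3,
      |iteratedFDeriv ℝ k (ga g) u v| ≤ m * ∏ i, pg dl b (v i) := fun k h1 h2 u hu v =>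
    ((G u hu).2.2.2.2.2.2 k h1 (by omega) v).1
  obtain Db : ∀ k, 1 ≤ k → k ≤ n + 1 → ∀ u ∈ U, ∀ v : Fin k → R3,
      |iteratedFDeriv ℝ k (gb g) u v| ≤ m * b * ∏ i, pg dl b (v i) := fun k h1 h2 u hu v =>
    ((G u hu).2.2.2.2.2.2 k h1 (by omega) v).2.1
  have sa : ∀ u ∈ U, ContDiffAt ℝ ∞ (ga g) u := fun u hu => (G u hu).1
  have sb : ∀ u ∈ U, ContDiffAt ℝ ∞ (gb g) u := fun u hu => (G u hu).2.1
  set sx0 := dj n x' x τ with hsx0
  set sy0 := dj n y' y τ with hsy0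
  set γ0 := cv T x y τ with hγ0
  -- the product estimate for `tg`
  obtain TG : ∀ P P' : ℝ → ℝ, ContDiffAt ℝ n P τ → ContDiffAt ℝ n P' τ →
      (∀ i, i < n → |dj i P' P τ| ≤ z) → (∀ i, i ≤ n → |iteratedDeriv i P' τ| ≤ C) →
      (∀ i, i < n → b * |dj i q' q τ| ≤ z) → (∀ i, i ≤ n → b * |iteratedDeriv i q' τ| ≤ C) →
      |dj n (tg g (cv T x' y') P' q') (tg g (cv T x y) P q) τ -
        (ga g γ0 * dj n P' P τ + gb g γ0 * dj n q' q τ) -
        (fderiv ℝ (ga g) γ0 (0, sx0, sy0) * P' τ + fderiv ℝ (gb g) γ0 (0, sx0, sy0) * q' τ)|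
        ≤ m ^ 2 * C ^ (n + 2) * z := by
    intro P P' sP sP' h1 h2 h3 h4
    have A := H.prod m0 sa Da m0 sP sP' (fun i hi => mul_le_mul_of_nonneg_left (h1 i hi) m0)
      (fun i hi => mul_le_mul_of_nonneg_left (h2 i hi) m0)
    obtain B := H.prod (by (clear * - m0 b0; positivity)) sb Db m0 sq sq'
      (fun i hi => by rw [mul_assoc]; exact mul_le_mul_of_nonneg_left (h3 i hi) m0)
      (fun i hi => by rw [mul_assoc]; exact mul_le_mul_of_nonneg_left (h4 i hi) m0)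
    rw [eΔ n le_rfl] at A B
    have e1 : tg g (cv T x' y') P' q' = (ga g ∘ cv T x' y') * P' + (gb g ∘ cv T x' y') * q' := rfl
    have e2 : tg g (cv T x y) P q = (ga g ∘ cv T x y) * P + (gb g ∘ cv T x y) * q := rfl
    have ca : ContDiffAt ℝ n (ga g ∘ cv T x y) τ := ((sa _ hU).of_le (le_inf n)).comp τ H.s
    have ca' : ContDiffAt ℝ n (ga g ∘ cv T x' y') τ := ((sa _ hU').of_le (le_inf n)).comp τ H.s'
    have cb : ContDiffAt ℝ n (gb g ∘ cv T x y) τ := ((sb _ hU).of_le (le_inf n)).comp τ H.s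
    have cb' : ContDiffAt ℝ n (gb g ∘ cv T x' y') τ := ((sb _ hU').of_le (le_inf n)).comp τ H.s'
    rw [e1, e2, dj_add (A := (ga g ∘ cv T x y) * P) (A' := (ga g ∘ cv T x' y') * P')
      (B := (gb g ∘ cv T x y) * q) (B' := (gb g ∘ cv T x' y') * q')
      (ca.mul sP) (ca'.mul sP') (cb.mul sq) (cb'.mul sq')]
    obtain hW : 0 ≤ m * (z * C ^ (n + 1)) := by (clear * - m0 z0 C1; positivity)
    have f1 := mul_le_mul_of_nonneg_right hc hW
    obtain f2 : m * (m * (z * C ^ (n + 1))) ≤ m ^ 2 * C ^ (n + 2) * z := by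
      obtain this : C ^ (n + 1) ≤ C ^ (n + 2) := pow_le_pow_right₀ C1 (by omega)
      calc _ = m ^ 2 * C ^ (n + 1) * z := by ring
        _ ≤ _ := by (clear * - this z0; gcongr)
    rw [abs_le] at A B ⊢
    constructor <;> linarith only [f1, f2, A.1, A.2, B.1, B.2]
  have pz := pg_zero (dl := dl) b0 sx0 sy0
  obtain fa : |fderiv ℝ (ga g) γ0 (0, sx0, sy0)| ≤ m * (|sx0| + b * |sy0|) :=
    (fd_le (Da 1 le_rfl (by omega) _ hU)).trans (mul_le_mul_of_nonneg_left pz m0)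
  obtain fb : |fderiv ℝ (gb g) γ0 (0, sx0, sy0)| ≤ m * b * (|sx0| + b * |sy0|) :=
    (fd_le (Db 1 le_rfl (by omega) _ hU)).trans (mul_le_mul_of_nonneg_left pz (by (clear * - m0 b0; positivity)))
  obtain S0 : 0 ≤ |sx0| + b * |sy0| := by (clear * - b0; positivity)
  obtain fq : b * |q' τ| ≤ d → |fderiv ℝ (gb g) γ0 (0, sx0, sy0) * q' τ| ≤
      m * d * (|sx0| + b * |sy0|) := fun h => by
    rw [abs_mul]
    calc _ ≤ m * b * (|sx0| + b * |sy0|) * |q' τ| := by (clear * - fb; gcongr)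
      _ = m * (b * |q' τ|) * (|sx0| + b * |sy0|) := by ring
      _ ≤ _ := by (clear * - h m0 b0; gcongr)
  obtain q0 : (∀ i, 1 ≤ i → i ≤ n → b * |iteratedDeriv i q' τ| ≤ C) → b * |q' τ| ≤ d →
      ∀ i, i ≤ n → b * |iteratedDeriv i q' τ| ≤ C := fun h1 h2 i hi => by
    rcases Nat.eq_zero_or_pos i with rfl | h
    · simpa using h2.trans dC
    · exact h1 i h hi
  refine ⟨?_, ?_, ?_⟩
  · obtain A := H.diff m0 L0.sm (fun k h1 h2 => L0.bd k h1 (by omega)) n1 le_rfl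
    rw [eΔ n le_rfl, (G _ hU).2.2.2.1] at A
    have B := lin_le (s := sx0) (t := sy0) (L0.ha _ hU) (L0.hb _ hU)
    obtain hW : 0 ≤ m * (z * C ^ n) := by (clear * - m0 z0 C1; positivity)
    have f1 := mul_le_mul_of_nonneg_right hK2 hW
    obtain f2 : m * (m * (z * C ^ n)) ≤ m ^ 2 * C ^ (n + 1) * z := by
      obtain this : C ^ n ≤ C ^ (n + 1) := pow_le_pow_right₀ C1 (by omega)
      calc _ = m ^ 2 * C ^ n * z := by ring
        _ ≤ _ := by (clear * - this z0; gcongr)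
    change |dj n (g ∘ cv T x' y') (g ∘ cv T x y) τ - _ - _| ≤ _
    simp only [mul_zero, zero_add] at A
    rw [abs_le] at A B ⊢
    constructor <;> linarith only [f1, f2, A.1, A.2, B.1, B.2]
  · intro h1 h2 h3 h4
    obtain A := TG p p' sp sp' (fun i hi => (h4 i hi).1) (fun i hi => by
      rcases Nat.eq_zero_or_pos i with rfl | h
      · simpa using h2.trans dC
      · exact (h1 i h hi).1) (fun i hi => (h4 i hi).2) (q0 (fun i a b => (h1 i a b).2) h3)
    have B := lin_le (s := dj n p' p τ) (t := dj n q' q τ) (L0.ha _ hU) (L0.hb _ hU)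
    have f1 := fq h3
    obtain f2 : |fderiv ℝ (ga g) γ0 (0, sx0, sy0) * p' τ| ≤ m * d * (|sx0| + b * |sy0|) := by
      rw [abs_mul]
      calc _ ≤ m * (|sx0| + b * |sy0|) * d := by (clear * - fa h2 m0 b0; gcongr)
        _ = _ := by ring
    rw [abs_le] at A B f1 f2 ⊢
    constructor <;> linarith only [A.1, A.2, B.1, B.2, f1.1, f1.2, f2.1, f2.2]
  · rintro L ⟨σ, hσ, hF⟩ h1 h2 h3 d1 dL
    obtain A := TG (fun _ => 1) (fun _ => 1) contDiffAt_const contDiffAt_const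
      (fun i _ => by simpa [dj] using z0) (fun i _ => by
        rw [iteratedDeriv_const]
        split_ifs <;> simp <;> linarith only [C1]) h3 (q0 h1 h2)
    obtain e0 : dj n (fun _ : ℝ => (1 : ℝ)) (fun _ => 1) τ = 0 := by simp [dj]
    obtain e1 : fderiv ℝ (ga g) γ0 (0, sx0, sy0) =
        iteratedFDeriv ℝ 2 g γ0 ![(0, 1, 0), (0, 1, 0)] * sx0 + fderiv ℝ (ga g) γ0 (0, 0, sy0) := by
      rw [← (G _ hU).2.2.2.2.1, ← map_add]
      simp
    obtain f0 : |fderiv ℝ (ga g) γ0 (0, 0, sy0)| ≤ m * (b * |sy0|) :=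
      (fd_le (Da 1 le_rfl (by omega) _ hU)).trans
        (mul_le_mul_of_nonneg_left (by simpa using pg_zero (dl := dl) b0 0 sy0) m0)
    have f1 := fq h2
    obtain f2 : 3 / 4 * L * |sx0| ≤ |iteratedFDeriv ℝ 2 g γ0 ![(0, 1, 0), (0, 1, 0)] * sx0| := by
      rw [abs_mul]
      refine mul_le_mul_of_nonneg_right ((hF _ hU).trans ?_) (abs_nonneg _)
      rcases hσ with rfl | rfl
      · simpa using le_abs_self _
      · simpa using neg_le_abs _
    obtain f3 : |gb g γ0 * dj n q' q τ| ≤ 2 * b * |dj n q' q τ| := by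
      rw [abs_mul]
      refine mul_le_mul_of_nonneg_right ?_ (abs_nonneg _)
      have u := L0.hb _ hU
      have v := mul_le_mul_of_nonneg_right L0.ρ1 b0.le
      rw [abs_le] at u ⊢
      constructor <;> linarith only [b0, v, u.1, u.2]
    obtain f4 : m * d * (|sx0| + b * |sy0|) ≤ L / 4 * |sx0| + m * (b * |sy0|) := by
      have u := mul_le_mul_of_nonneg_right dL (abs_nonneg sx0)
      obtain v : m * d * (b * |sy0|) ≤ m * 1 * (b * |sy0|) := by (clear * - d1 m0 b0; gcongr)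
      linarith only [u, v]
    rw [e0, e1] at A
    simp only [mul_zero, zero_add, mul_one] at A
    set D := dj n (tg g (cv T x' y') (fun _ => 1) q') (tg g (cv T x y) (fun _ => 1) q) τ
    set w := iteratedFDeriv ℝ 2 g γ0 ![(0, 1, 0), (0, 1, 0)] * sx0
    have u1 := le_abs_self D
    have u2 := neg_le_abs D
    obtain f5 : |w| ≤ |D| + 2 * b * |dj n q' q τ| + m * (b * |sy0|) + m * d * (|sx0| + b * |sy0|)
        + m ^ 2 * C ^ (n + 2) * z := by
      rw [abs_le] at A f0 f1 f3 ⊢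
      constructor <;> linarith only [u2, u1, A.1, A.2, f0.1, f0.2, f1.1, f1.2, f3.1, f3.2]
    linarith only [f4, f2, f5]

end Pool.Agent.MP_9cbfe4_an.SS

end

/-! ### Part STS -/

section

/-! Row STS: two curves that differ in the last component only. -/

namespace Pool.Agent.MP_9cbfe4_an.SS

open Finset
open scoped ContDiff Nat

noncomputable section

theorem sts_vs {g : R3 → ℝ} {N k : ℕ} {m t x y y' : ℝ} (h : VSeg g N m t x y y') (hk : 1 ≤ k)
    (hkN : k ≤ N + 1) (w : Fin k → R3) (hw : ∀ i, (w i).2.2 = 0) {A : ℝ} (hm : 0 ≤ m)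
    (hA : ∏ i, max |(w i).1| |(w i).2.1| ≤ A) :
    |iteratedFDeriv ℝ k g (t, x, y') w - iteratedFDeriv ℝ k g (t, x, y) w|
      ≤ m * A * |g (t, x, y') - g (t, x, y)| := by
  have hA0 : 0 ≤ A := (Finset.prod_nonneg fun i _ => le_max_of_le_left (abs_nonneg _)).trans hA
  obtain pt : ∀ u : ℝ, ((t, x, 0) : R3) + u • ((0, 0, 1) : R3) = (t, x, u) := fun u => by simp
  obtain d1 : ∀ u ∈ Set.uIcc y y', HasDerivAt (fun u : ℝ => iteratedFDeriv ℝ k g (t, x, u) w)
      (iteratedFDeriv ℝ (k + 1) g (t, x, u) (Fin.cons (0, 0, 1) w)) u := by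
    intro u hu
    obtain this := J0.hasDerivAt_iter (g := g) (y := (t, x, 0)) (h := (0, 0, 1)) (τ := u) w
      (by rw [pt]; exact (h u hu).1.of_le (by exact_mod_cast le_top))
    simpa only [pt] using this
  obtain d2 : ∀ u ∈ Set.uIcc y y', HasDerivAt (fun u : ℝ => g (t, x, u)) (gb g (t, x, u)) u := by
    intro u hu
    have h2 : HasDerivAt (fun u : ℝ => ((t, x, u) : R3)) (0, 0, 1) u :=
      (hasDerivAt_const u t).prodMk ((hasDerivAt_const u x).prodMk (hasDerivAt_id u))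
    exact ((h u hu).1.differentiableAt (by simp)).hasFDerivAt.comp_hasDerivAt u h2
  obtain bd : ∀ u ∈ Set.uIcc y y', |iteratedFDeriv ℝ (k + 1) g (t, x, u) (Fin.cons (0, 0, 1) w)|
      ≤ m * A * gb g (t, x, u) := fun u hu =>
    ((h u hu).2.2 k hk hkN w hw).trans (by
      have := mul_le_mul_of_nonneg_left hA (mul_nonneg hm (h u hu).2.1)
      linarith only [this])
  obtain mono : ∀ e : ℝ, e = 1 ∨ e = -1 → MonotoneOn (fun u : ℝ =>
      m * A * g (t, x, u) + e * iteratedFDeriv ℝ k g (t, x, u) w) (Set.uIcc y y') := by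
    intro e he
    have dd : ∀ u ∈ Set.uIcc y y', HasDerivAt (fun u : ℝ =>
        m * A * g (t, x, u) + e * iteratedFDeriv ℝ k g (t, x, u) w) (m * A * gb g (t, x, u) +
        e * iteratedFDeriv ℝ (k + 1) g (t, x, u) (Fin.cons (0, 0, 1) w)) u := fun u hu =>
      ((d2 u hu).const_mul _).add ((d1 u hu).const_mul _)
    refine monotoneOn_of_deriv_nonneg (convex_uIcc y y')
      (fun u hu => (dd u hu).continuousAt.continuousWithinAt)
      (fun u hu => (dd u (interior_subset hu)).differentiableAt.differentiableWithinAt)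
      fun u hu => ?_
    rw [(dd u (interior_subset hu)).deriv]
    have := abs_le.1 (bd u (interior_subset hu))
    rcases he with rfl | rfl <;> linarith only [this.1, this.2]
  have hmA := mul_nonneg hm hA0
  have e1 := mul_le_mul_of_nonneg_left (le_abs_self (g (t, x, y') - g (t, x, y))) hmA
  have e2 := mul_le_mul_of_nonneg_left (neg_abs_le (g (t, x, y') - g (t, x, y))) hmA
  rcases le_total y y' with hy | hy
  · have a1 := mono 1 (.inl rfl) Set.left_mem_uIcc Set.right_mem_uIcc hy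
    have a2 := mono (-1) (.inr rfl) Set.left_mem_uIcc Set.right_mem_uIcc hy
    simp only at a1 a2
    rw [abs_le]; constructor <;> linarith only [e1, a1, a2]
  · have a1 := mono 1 (.inl rfl) Set.right_mem_uIcc Set.left_mem_uIcc hy
    have a2 := mono (-1) (.inr rfl) Set.right_mem_uIcc Set.left_mem_uIcc hy
    simp only at a1 a2
    rw [abs_le]; constructor <;> linarith only [e2, a2, a1]

/-- horizontal part of a vector -/
def hz (v : R3) : R3 := (v.1, v.2.1, 0)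
/-- all components at most `C` -/
def Sm (C : ℝ) (v : R3) : Prop := |v.1| ≤ C ∧ |v.2.1| ≤ C ∧ |v.2.2| ≤ C

theorem sts_pg {dl b C : ℝ} (d1 : dl ≤ 1) (hb : b ≤ C) (hC : 1 ≤ C) {v : R3}
    (hv : Sm C v) : pg dl b v ≤ C ^ 2 := by
  obtain ⟨h1, h2, h3⟩ := hv
  have := abs_nonneg v.1
  have := abs_nonneg v.2.2
  refine max_le (by (rename_i zq0; nlinarith only [hC, h1, d1, zq0])) (max_le (by nlinarith only [hC, h2]) (by nlinarith only [h3, hb, this, hC]))

theorem sts_pg0 (dl b : ℝ) (v : R3) : 0 ≤ pg dl b v :=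
  le_max_of_le_right (le_max_of_le_left (abs_nonneg _))

theorem sts_hz {dl b C m : ℝ} (d1 : dl ≤ 1) (b0 : 0 < b) (hb : b ≤ C) (hC : 1 ≤ C) (hm : 0 ≤ m)
    {k n : ℕ} (hk : k ≤ n) (T : ContinuousMultilinearMap ℝ (fun _ : Fin k => R3) ℝ)
    (hT : ∀ v, |T v| ≤ m * ∏ i, pg dl b (v i)) (v : Fin k → R3) (hv : ∀ i, Sm C (v i)) :
    |T v - T fun i => hz (v i)| ≤ n * (m * (C ^ (2 * n + 2) * b)) := by
  obtain h := J0.multi_sub_le T hm (sts_pg0 dl b) hT (v := v) (w := fun i => hz (v i))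
    (a := fun _ => C ^ 2) (d := fun _ => b * C) (B := C ^ (2 * n + 2) * b)
    (fun i => sts_pg d1 hb hC (hv i))
    (fun i => sts_pg d1 hb hC ⟨(hv i).1, (hv i).2.1, by simp [hz]; linarith only [b0, hb]⟩)
    (fun i => by
      have := mul_le_mul_of_nonneg_left (hv i).2.2 b0.le
      obtain h0 : 0 ≤ b * |(v i).2.2| := by positivity
      simp only [pg, hz, Prod.fst_sub, Prod.snd_sub, sub_self, abs_zero, mul_zero, sub_zero]
      exact max_le (h0.trans this) (max_le (h0.trans this) this))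
    (fun i => by
      rw [Finset.prod_const, ← pow_mul]
      obtain c1 : (univ.erase i).card ≤ n :=
        (Finset.card_le_card (Finset.erase_subset _ _)).trans (by simpa using hk)
      obtain this : C * C ^ (2 * (univ.erase i).card) ≤ C ^ (2 * n + 2) := by
        rw [← pow_succ']; exact pow_le_pow_right₀ hC (by omega)
      nlinarith only [b0, this])
  refine h.trans (mul_le_mul_of_nonneg_right (by exact_mod_cast hk) (by positivity))

theorem sts_jet {T x y : ℝ → ℝ} {τ : ℝ} {n i : ℕ} (hT : ContDiffAt ℝ n T τ)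
    (hx : ContDiffAt ℝ n x τ) (hy : ContDiffAt ℝ n y τ) (hi : i ≤ n) :
    iteratedDeriv i (cv T x y) τ =
      (iteratedDeriv i T τ, iteratedDeriv i x τ, iteratedDeriv i y τ) := by
  obtain hi' : (i : WithTop ℕ∞) ≤ n := by exact_mod_cast hi
  unfold cv
  simp only [iteratedDeriv, iteratedFDeriv_prodMk hT (hx.prodMk hy) hi',
    iteratedFDeriv_prodMk hx hy hi', ContinuousMultilinearMap.prod_apply]

theorem sts_exp {h : R3 → ℝ} {T x y : ℝ → ℝ} {τ : ℝ} {n : ℕ} (hn : 1 ≤ n)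
    (hh : ContDiffAt ℝ ∞ h (cv T x y τ)) (hT : ContDiffAt ℝ n T τ)
    (hx : ContDiffAt ℝ n x τ) (hy : ContDiffAt ℝ n y τ) :
    iteratedDeriv n (fun σ => h (cv T x y σ)) τ = ∑ c : OrderedFinpartition n,
      if 1 ≤ c.length then J0.term h (cv T x y) τ c.length c.partSize else 0 := by
  obtain this := iteratedDeriv_vcomp_eq_sum_orderedFinpartition (f := cv T x y) (g := h) (i := n)
    (hh.of_le (by exact_mod_cast le_top)) (hT.prodMk (hx.prodMk hy)) le_rfl
  rw [show (fun σ => h (cv T x y σ)) = h ∘ cv T x y from rfl, this]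
  exact Finset.sum_congr rfl fun c _ => (if_pos (c.length_pos hn)).symm

theorem sts_le {k n : ℕ} {s : Fin k → ℕ} (hs : ∑ i, s i = n) (i : Fin k) : s i ≤ n :=
  hs ▸ Finset.single_le_sum (f := s) (fun _ _ => Nat.zero_le _) (mem_univ i)

theorem sts_key {h : R3 → ℝ} {T x y y' : ℝ → ℝ} {τ C B B' B0 : ℝ} {n : ℕ} (hn : 1 ≤ n)
    (hh : ContDiffAt ℝ ∞ h (cv T x y τ)) (hh' : ContDiffAt ℝ ∞ h (cv T x y' τ))
    (hT : ContDiffAt ℝ n T τ) (hx : ContDiffAt ℝ n x τ) (hy : ContDiffAt ℝ n y τ)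
    (hy' : ContDiffAt ℝ n y' τ) (hB : 0 ≤ B' + B0 + B)
    (hj : ∀ i, 1 ≤ i → i ≤ n → |iteratedDeriv i T τ| ≤ C ∧ |iteratedDeriv i x τ| ≤ C ∧
      |iteratedDeriv i y τ| ≤ C ∧ |iteratedDeriv i y' τ| ≤ C)
    (H : ∀ k, 1 ≤ k → k ≤ n → ∀ v : Fin k → R3, (∀ i, Sm C (v i)) →
      |iteratedFDeriv ℝ k h (cv T x y τ) v - iteratedFDeriv ℝ k h (cv T x y τ) fun i => hz (v i)| ≤ B ∧
      |iteratedFDeriv ℝ k h (cv T x y' τ) v
        - iteratedFDeriv ℝ k h (cv T x y' τ) fun i => hz (v i)| ≤ B' ∧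
      |(iteratedFDeriv ℝ k h (cv T x y' τ) fun i => hz (v i))
        - iteratedFDeriv ℝ k h (cv T x y τ) fun i => hz (v i)| ≤ B0) :
    |dj n (fun σ => h (cv T x y' σ)) (fun σ => h (cv T x y σ)) τ| ≤ n ! * (B' + B0 + B) := by
  obtain e := J0.abs_sum_le (n := n) 1 (fun k s => J0.term h (cv T x y') τ k s
    - J0.term h (cv T x y) τ k s) hB fun k s hk hkn hs hsn => by
      obtain e1 := H k hk hkn (fun i => iteratedDeriv (s i) (cv T x y) τ) fun i => by
        rw [sts_jet hT hx hy (sts_le hsn i)]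
        have := hj _ (hs i) (sts_le hsn i)
        exact ⟨this.1, this.2.1, this.2.2.1⟩
      obtain e2 := H k hk hkn (fun i => iteratedDeriv (s i) (cv T x y') τ) fun i => by
        rw [sts_jet hT hx hy' (sts_le hsn i)]
        have := hj _ (hs i) (sts_le hsn i)
        exact ⟨this.1, this.2.1, this.2.2.2⟩
      obtain e3 : (fun i => hz (iteratedDeriv (s i) (cv T x y') τ)) =
          fun i => hz (iteratedDeriv (s i) (cv T x y) τ) := funext fun i => by
        rw [sts_jet hT hx hy (sts_le hsn i), sts_jet hT hx hy' (sts_le hsn i)]; rfl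
      have a1 := abs_le.1 e1.1
      have a2 := abs_le.1 e2.2.1
      have a3 := abs_le.1 e1.2.2
      rw [e3] at a2
      unfold J0.term
      rw [abs_le]; constructor <;> linarith only [a1.1, a1.2, a2.1, a2.2, a3.1, a3.2]
  unfold dj
  rw [sts_exp hn hh hT hx hy, sts_exp hn hh' hT hx hy', ← Finset.sum_sub_distrib]
  refine le_trans (le_of_eq ?_) e
  congr 1
  exact Finset.sum_congr rfl fun c _ => by split_ifs <;> simp

theorem sts_m {g : R3 → ℝ} {U : Set R3} {N n : ℕ} {a b m dl ρ : ℝ} (h : LM g U N a b m dl ρ)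
    (hn : n ≤ N) : 2 ≤ m ∧ (n ! : ℝ) * (n + 1) ≤ m := by
  obtain h1 : ((n + 1)! : ℝ) ≤ (N + 3)! := by exact_mod_cast Nat.factorial_le (by omega)
  obtain h2 : (2 : ℝ) ≤ 2 ^ (N + 3) := le_self_pow₀ (by norm_num) (by omega)
  obtain h3 : (1 : ℝ) ≤ (N + 3)! := by exact_mod_cast Nat.factorial_pos _
  have h4 := h.cst
  rw [Nat.factorial_succ n] at h1
  push_cast at h1
  constructor <;> nlinarith only [h3, h4, h2, h1]

theorem sts_gb0 {g : R3 → ℝ} {U : Set R3} {N : ℕ} {a b m dl ρ : ℝ} (h : LM g U N a b m dl ρ)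
    {z : R3} (hz : z ∈ U) : |gb g z| ≤ 2 * b := by
  have h1 := abs_le.1 (h.hb z hz)
  have := mul_le_mul_of_nonneg_right h.ρ1 h.b0.le
  have := h.b0
  rw [abs_le]; constructor <;> (rename_i zq0; linarith only [zq0, this, h1.1, h1.2])

theorem sts_gb (mg : MG_s) {g : R3 → ℝ} {U : Set R3} {N n : ℕ} {a b m dl ρ C τ : ℝ}
    (h : LM g U N a b m dl ρ) (hn : n ≤ N) {T x y : ℝ → ℝ} (hU : cv T x y τ ∈ U)
    (hT : ContDiffAt ℝ n T τ) (hx : ContDiffAt ℝ n x τ) (hy : ContDiffAt ℝ n y τ) (hC : 1 ≤ C)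
    (hb : b ≤ C) (hj : ∀ i, 1 ≤ i → i ≤ n → |iteratedDeriv i T τ| ≤ C ∧ |iteratedDeriv i x τ| ≤ C ∧
      |iteratedDeriv i y τ| ≤ C) :
    |iteratedDeriv n (fun σ => gb g (cv T x y σ)) τ| ≤ m ^ 2 * C ^ (2 * n + 2) * b := by
  obtain ⟨m2, mn⟩ := sts_m h hn
  have b0 := h.b0
  have hP : 1 ≤ C ^ (2 * n + 2) := one_le_pow₀ hC
  rcases Nat.eq_zero_or_pos n with rfl | h1
  · have := sts_gb0 h hU
    rw [iteratedDeriv_zero]
    obtain this : 2 ≤ m ^ 2 * C ^ (2 * 0 + 2) := by nlinarith only [m2, hP]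
    (rename_i zq0; nlinarith only [zq0, b0, this])
  obtain ⟨-, s2, -, -, -, -, bd⟩ := mg g U N a b m dl ρ h _ hU
  rw [sts_exp h1 s2 hT hx hy]
  refine (J0.abs_sum_le 1 (J0.term (gb g) (cv T x y) τ) (B := m * b * C ^ (2 * n + 2))
    (by positivity) fun k s hk hkn hs hsn => ?_).trans ?_
  · refine (bd k hk (by omega) _).2.1.trans (mul_le_mul_of_nonneg_left ?_ (by positivity))
    refine (Finset.prod_le_prod (fun i _ => sts_pg0 _ _ _) (g := fun _ => C ^ 2) fun i _ =>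
      sts_pg h.dl1 hb hC ?_).trans ?_
    · rw [sts_jet hT hx hy (sts_le hsn i)]; exact hj _ (hs i) (sts_le hsn i)
    · rw [Finset.prod_const, ← pow_mul]
      exact pow_le_pow_right₀ hC (by simp; omega)
  · obtain h0 : (0 : ℝ) ≤ n ! := by positivity
    obtain h2 : (n ! : ℝ) ≤ m := by nlinarith only [mn, Nat.cast_nonneg (α := ℝ) n]
    obtain this := mul_le_mul_of_nonneg_right h2 (show 0 ≤ m * b * C ^ (2 * n + 2) by positivity)
    linarith only [this]

theorem sts_g1 (mg : MG_s) {g : R3 → ℝ} {U : Set R3} {N n k : ℕ} {a b m dl ρ C : ℝ}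
    (h : LM g U N a b m dl ρ) (hn : n ≤ N) {z : R3} (hU : z ∈ U) (hC : 1 ≤ C) (hb : b ≤ C)
    (hk : 1 ≤ k) (hkn : k ≤ n) (v : Fin k → R3) (hv : ∀ i, Sm C (v i)) :
    |iteratedFDeriv ℝ k g z v - iteratedFDeriv ℝ k g z fun i => hz (v i)|
      ≤ n * (m * (C ^ (2 * n + 2) * b)) := by
  obtain ⟨m2, -⟩ := sts_m h hn
  have b0 := h.b0
  rcases hk.eq_or_lt with rfl | h2
  · obtain ⟨-, -, -, e, -⟩ := mg g U N a b m dl ρ h _ hU
    rw [iteratedFDeriv_one_apply, iteratedFDeriv_one_apply, e, e]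
    simp only [hz, mul_zero, add_zero, add_sub_cancel_left, abs_mul]
    obtain h1 := mul_le_mul (sts_gb0 h hU) (hv 0).2.2 (abs_nonneg _) (by positivity)
    obtain h3 : C ≤ C ^ (2 * n + 2) := le_self_pow₀ hC (by omega)
    obtain h4 : (1 : ℝ) ≤ n := by exact_mod_cast hkn
    obtain h5 : 2 * (C * b) ≤ m * (C ^ (2 * n + 2) * b) :=
      mul_le_mul m2 (mul_le_mul_of_nonneg_right h3 b0.le) (by positivity) (by positivity)
    obtain h6 : 0 ≤ m * (C ^ (2 * n + 2) * b) := by positivity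
    nlinarith only [h1, h5, h4, h6]
  · exact sts_hz h.dl1 b0 hb hC (by linarith only [m2]) hkn _ (h.bd k h2 (by omega) z hU) v hv

theorem sts (mg : MG_s) : STS_s := by
  intro g U U' N a b a' b' m dl ρ ρ' h h' n T x y y' τ C hn hU hU' hV hT hx hy hy' hC hb hb' hj
  obtain ⟨m2, mn⟩ := sts_m h hn
  have b0 := h.b0
  have b0' := h'.b0
  obtain m0 : 0 ≤ m := by linarith only [m2]
  have hP : 1 ≤ C ^ (2 * n + 2) := one_le_pow₀ hC
  set Δ := |g (cv T x y' τ) - g (cv T x y τ)| with hΔ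
  have Δ0 : 0 ≤ Δ := abs_nonneg _
  obtain vs : ∀ k, 1 ≤ k → k ≤ n + 1 → ∀ w : Fin k → R3, (∀ i, (w i).2.2 = 0 ∧ Sm C (w i)) →
      |iteratedFDeriv ℝ k g (cv T x y' τ) w - iteratedFDeriv ℝ k g (cv T x y τ) w|
        ≤ m * C ^ (2 * n + 2) * Δ := fun k hk hkn w hw =>
    sts_vs hV hk (by omega) w (fun i => (hw i).1) m0 ((Finset.prod_le_prod
      (fun i _ => le_max_of_le_left (abs_nonneg _)) (g := fun _ => C) fun i _ =>
        max_le (hw i).2.1 (hw i).2.2.1).trans (by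
      rw [Finset.prod_const]; exact pow_le_pow_right₀ hC (by simp; omega)))
  obtain shz : ∀ v, Sm C v → (hz v).2.2 = 0 ∧ Sm C (hz v) := fun v hv =>
    ⟨rfl, hv.1, hv.2.1, by simp [hz]; linarith only [hC]⟩
  obtain sx : ((0, 1, 0) : R3).2.2 = 0 ∧ Sm C (0, 1, 0) :=
    ⟨rfl, by simp; linarith only [hC], by simpa using hC, by simp; linarith only [hC]⟩
  obtain ⟨s1, -, -, -, -, sn, bd⟩ := mg g U N a b m dl ρ h _ hU
  obtain ⟨s1', -, -, -, -, sn', bd'⟩ := mg g U' N a' b' m dl ρ' h' _ hU'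
  obtain va : ∀ k, k ≤ n → ∀ w : Fin k → R3, (∀ i, (w i).2.2 = 0 ∧ Sm C (w i)) →
      |iteratedFDeriv ℝ k (ga g) (cv T x y' τ) w - iteratedFDeriv ℝ k (ga g) (cv T x y τ) w|
        ≤ m * C ^ (2 * n + 2) * Δ := fun k hk w hw => by
    rw [sn, sn']
    refine vs (k + 1) (by omega) (by omega) _ fun i => ?_
    induction i using Fin.lastCases with
    | last => rw [Fin.snoc_last]; exact sx
    | cast i => rw [Fin.snoc_castSucc]; exact hw i
  refine ⟨?_, ?_, sts_gb mg h' hn hU' hT hx hy' hC hb' fun i h1 h2 =>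
    ⟨(hj i h1 h2).1, (hj i h1 h2).2.1, (hj i h1 h2).2.2.2⟩, sts_gb mg h hn hU hT hx hy hC hb
    fun i h1 h2 => ⟨(hj i h1 h2).1, (hj i h1 h2).2.1, (hj i h1 h2).2.2.1⟩⟩
  all_goals
    set P := C ^ (2 * n + 2) with hPd
    obtain f1 : (n ! : ℝ) * (n * (m * (P * b')) + m * P * Δ + n * (m * (P * b)))
        ≤ m ^ 2 * P * (Δ + b + b') := by
      obtain h0 : (0 : ℝ) ≤ n ! := by positivity
      have hn0 : (0 : ℝ) ≤ n := Nat.cast_nonneg n
      obtain h2 : (n ! : ℝ) ≤ m := by nlinarith only [mn]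
      obtain h3 : (n ! : ℝ) * n ≤ m := by linarith only [mn]
      obtain q1 := mul_le_mul_of_nonneg_right h2 (show 0 ≤ m * P * Δ by (clear * - m2 hC; positivity))
      obtain q2 := mul_le_mul_of_nonneg_right h3 (show 0 ≤ m * (P * b) by positivity)
      obtain q3 := mul_le_mul_of_nonneg_right h3 (show 0 ≤ m * (P * b') by positivity)
      linarith only [q1, q2, q3]
    obtain f0 : m * P * Δ ≤ m ^ 2 * P * (Δ + b + b') := by
      obtain q1 : 0 ≤ m * P * Δ := by (clear * - m2 hC; positivity)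
      obtain q2 : 0 ≤ m ^ 2 * P * (b + b') := by positivity
      nlinarith only [q1, q2, m2]
  · rcases Nat.eq_zero_or_pos n with rfl | h1
    · refine le_trans ?_ f0
      simp only [dj, iteratedDeriv_zero, ← hΔ]
      obtain this : 1 ≤ m * P := by nlinarith only [m2, hP]
      nlinarith only [Δ0, this]
    refine (sts_key h1 (h.sm _ hU) (h'.sm _ hU') hT hx hy hy' (by (clear * - h1 m2 hC b0' b0; positivity)) hj
      fun k hk hkn v hv => ⟨sts_g1 mg h hn hU hC hb hk hkn v hv,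
        sts_g1 mg h' hn hU' hC hb' hk hkn v hv,
        vs k hk (by omega) _ fun i => shz _ (hv i)⟩).trans f1
  · rcases Nat.eq_zero_or_pos n with rfl | h1
    · refine le_trans ?_ f0
      simpa [dj] using va 0 le_rfl (fun i => i.elim0) fun i => i.elim0
    refine (sts_key h1 s1 s1' hT hx hy hy' (by (clear * - h1 m2 hC b0' b0; positivity)) hj
      fun k hk hkn v hv => ⟨sts_hz h.dl1 b0 hb hC m0 hkn _
        (fun v => (bd k hk (by omega) v).1) v hv, sts_hz h.dl1 b0' hb' hC m0 hkn _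
        (fun v => (bd' k hk (by omega) v).1) v hv, va k hkn _ fun i => shz _ (hv i)⟩).trans f1

end
end Pool.Agent.MP_9cbfe4_an.SS

end

/-! ### Part EAlink -/

section

/-! Rows LINK and EXY of section E-A. -/

namespace Pool.Agent.MP_9cbfe4_an.E

variable {k : EK} {S : Sk} {La : ℕ → ℕ → ℝ}

theorem Sk.link (fa : S.Fa k) (jet : S.Jet k La) : S.LINK_s k La := by
  intro z i a st i4 nq m am mz
  have zN := st.isRec.1.1
  have Rz := st.isRec.1.2
  have g10 := fa.g10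
  obtain K10 : (10 : ℝ) ≤ k.K := by exact_mod_cast fa.K10
  obtain iK : (i : ℝ) ≤ k.K := by exact_mod_cast st.kK
  obtain i4' : (4 : ℝ) ≤ i := by exact_mod_cast i4
  have j2 := jet.j2 z i st.kK st.isRec st.str st.canc
  obtain ⟨lo, hi⟩ := j2 i (by omega) le_rfl
  have T0 : 0 < |La i z| := (Real.exp_pos _).trans_le lo
  obtain g2 : k.g ≤ k.g ^ 2 := by nlinarith only [g10]
  obtain g3 : 10 * k.g ^ 2 ≤ k.g ^ 3 := by nlinarith only [g10]
  obtain g1 : 1 ≤ k.g := by linarith only [g10]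
  have pw : ∀ a b : ℕ, a ≤ b → k.g ^ a ≤ k.g ^ b := fun a b h => pow_le_pow_right₀ g1 h
  set T := Real.log (|La i z| / 4) with hT
  obtain eT : Real.exp T = |La i z| / 4 := Real.exp_log (by positivity)
  obtain nq' : ∀ x, m ≤ x → x < z → 0 < S.R x → k.G * S.σ k x + S.V (2 * i - 1) x ≤ T := by
    intro x h1 h2 h3
    have := not_and.1 (nq x (am.trans h1) h2) h3
    rw [← Real.exp_le_exp, eT]; linarith only [not_le.1 this]
  obtain Thi : T ≤ S.V (2 * i - 1) z + k.g * S.σ k z := by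
    rw [← Real.exp_le_exp, eT]; linarith only [hi, T0]
  obtain Tlo : S.V (2 * i - 1) z - k.g * S.σ k z - 3 ≤ T := by
    rw [← Real.exp_le_exp, eT, Real.exp_sub, div_le_div_iff₀ (Real.exp_pos _) (by norm_num)]
    nlinarith only [lo, T0, Real.add_one_le_exp (3 : ℝ)]
  have σ0 : ∀ x < S.N, 100 ≤ S.σ k x := fun x hx => fa.Λ10.trans (fa.σΛ x hx)
  set q := S.R z / (2 * i) with hq
  obtain eq : S.R z = 2 * i * q := by rw [hq]; field_simp
  obtain q0 : 0 ≤ q := by positivity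
  have := jet.two k.g g1 (by unfold EK.c2; linarith only [g10, pw 1 5 (by norm_num), pow_one k.g]) z zN (S.R z)
    Rz.le i st.kK (fun j a b => (j2 j a b).2.trans_eq (by unfold Sk.V; congr 1; ring)) m mz i
    (by omega) le_rfl (max T (k.g1 * S.σ k m - S.ω m)) (S.R z - q) (by nlinarith only [Rz, eq, i4'])
    (Or.inr fun x h1 h2 => ?_) (le_max_of_le_left ?_)
    (fun x h1 h2 h3 => le_max_of_le_left (le_trans ?_ (nq' x h1 h2 h3)))
    (le_max_of_le_right (by unfold EK.g1; rw [sq]))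
  · refine this.trans ?_
    rcases le_total T (k.g1 * S.σ k m - S.ω m) with h | h
    · rw [max_eq_right h]; linarith only [T0]
    · rw [max_eq_left h, eT]; linarith only [Real.exp_pos (k.g1 * S.σ k m - S.ω m)]
  · rcases (fa.ok.R0 x).eq_or_lt with h3 | h3
    · rw [← h3]; nlinarith only [Rz, eq, i4']
    have a1 := nq' x h1 h2 h3
    obtain a2 := fa.ml x z h2 zN k.g 1 (by linarith only [g10]) (by linarith only [g10, pw 1 7 (by norm_num), pow_one k.g])
      (by linarith only [K10]) le_rfl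
    obtain a3 : (k.g + 2) * k.k1 * S.σ k x ≤ k.G * S.σ k x :=
      mul_le_mul_of_nonneg_right (by unfold EK.k1 EK.G; linarith only [g10, g2, g3]) (by linarith only [σ0 x (h2.trans zN)])
    unfold Sk.V at a1 Thi
    refine le_of_mul_le_mul_left ?_ (show (0 : ℝ) < 2 * i by linarith only [i4'])
    linarith only [Thi, eq, a1, a2, a3]
  · have a1 := fa.σS z st.isRec.1 st.str
    have a0 := σ0 z zN
    obtain θ1 : k.θ ≤ 1 := by
      have := fa.θH; have := fa.θpos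
      obtain a : (1 : ℝ) ≤ 10 ^ 20 * (k.K : ℝ) ^ 2 * k.g ^ 10 :=
        one_le_mul_of_one_le_of_one_le (by nlinarith only [K10]) (one_le_pow₀ g1)
      (rename_i zq0; nlinarith only [zq0, this, a])
    have a2 := mul_le_mul_of_nonneg_right θ1 Rz.le
    have a3 := mul_le_mul_of_nonneg_right iK q0
    obtain a4 : 10 * (k.g ^ 2 * S.σ k z) ≤ q := by
      refine le_of_mul_le_mul_left ?_ (show (0 : ℝ) < 2 * k.K by linarith only [K10])
      obtain this := mul_le_mul_of_nonneg_right (pw 2 8 (by norm_num)) (show 0 ≤ k.K * S.σ k z by positivity)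
      obtain this : 0 ≤ k.g ^ 8 * (k.K * S.σ k z) := by positivity
      (rename_i zq0; linarith only [Rz, eq, a1, a2, a3, zq0])
    obtain a5 := mul_le_mul_of_nonneg_right g2 (show 0 ≤ S.σ k z by linarith only [a0])
    obtain a6 := mul_le_mul_of_nonneg_right g1 (show 0 ≤ S.σ k z by linarith only [a0])
    unfold Sk.V at Tlo
    linarith only [Tlo, a0, a4, a5, a6]
  · obtain this := mul_le_mul_of_nonneg_right (show k.g * k.g ≤ k.G by unfold EK.G; linarith only [g10, g2, g3])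
      (show 0 ≤ S.σ k x by linarith only [σ0 x (h2.trans zN)])
    linarith only [this]

theorem Sk.exy (fa : S.Fa k) (jet : S.Jet k La) (lk : S.LINK_s k La) : S.EXY_s k La := by
  intro z i st i4
  classical
  suffices h : ∃ y < z, S.Qual k La z i y by
    obtain ⟨y, hy, hm⟩ := Finset.exists_max_image ((Finset.range z).filter (S.Qual k La z i)) id
      (h.imp fun y hy => by simpa using hy)
    obtain ⟨h1, h2⟩ := Finset.mem_filter.1 hy
    exact ⟨y, Finset.mem_range.1 h1, h2, fun l a b c =>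
      a.not_ge (hm l (Finset.mem_filter.2 ⟨Finset.mem_range.2 b, c⟩))⟩
  by_contra hn
  have nq : ∀ l < z, ¬ S.Qual k La z i l := fun l a b => hn ⟨l, a, b⟩
  have zN := st.isRec.1.1
  have Rz := st.isRec.1.2
  have g10 := fa.g10
  obtain i4' : (4 : ℝ) ≤ i := by exact_mod_cast i4
  obtain g2 : 10 * k.g ≤ k.g ^ 2 := by nlinarith only [g10]
  obtain g3 : 10 * k.g ^ 2 ≤ k.g ^ 3 := by nlinarith only [g10]
  have σ0 : ∀ x < S.N, 100 ≤ S.σ k x := fun x hx => fa.Λ10.trans (fa.σΛ x hx)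
  obtain s0 := σ0 0 (by omega)
  have sz := σ0 z zN
  have j2 := jet.j2 z i st.kK st.isRec st.str st.canc
  obtain T1 : |La i z| ≤ 4 * Real.exp ((k.g ^ 2 + 1) * S.σ k 0) := by
    obtain a1 := lk z i 0 st i4 (fun l _ b => nq l b) 0 le_rfl (by omega)
    obtain a2 := jet.la0 i (by omega) st.kK
    have a3 := abs_sub_abs_le_abs_sub (La i z) (La i 0)
    rw [abs_sub_comm] at a3
    obtain a4 : Real.exp (k.g1 * S.σ k 0 - S.ω 0) ≤ Real.exp ((k.g ^ 2 + 1) * S.σ k 0) :=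
      Real.exp_le_exp.2 (by
        unfold EK.g1; linarith only [zN, (abs_le.1 fa.ok.ω0).1, fa.σΛ 0 (by omega)])
    obtain a5 : 1 ≤ Real.exp ((k.g ^ 2 + 1) * S.σ k 0) := Real.one_le_exp (by positivity)
    linarith only [a1, a2, a3, a4, a5]
  obtain L1 : |La 1 z| < 1 / 2 := by
    obtain a1 : S.V (2 * i - 1) z - k.g * S.σ k z ≤ 3 + (k.g ^ 2 + 1) * S.σ k z := by
      rw [← Real.exp_le_exp, Real.exp_add]
      refine ((j2 i (by omega) le_rfl).1.trans T1).trans (mul_le_mul ?_ (Real.exp_le_exp.2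
        (mul_le_mul_of_nonneg_left (fa.σmono 0 z (by omega) zN) (by positivity)))
        (Real.exp_pos _).le (Real.exp_pos _).le)
      linarith only [Real.add_one_le_exp (3 : ℝ)]
    have a2 := fa.ok.lo z zN.le
    have a3 := fa.σlo z zN
    have a4 := fa.σD z st.isRec.1
    have W0 := fa.W0 z zN.le
    have θ0 := fa.θpos
    obtain K10 : (10 : ℝ) ≤ k.K := by exact_mod_cast fa.K10
    obtain a5 : 1000 * k.g ^ 2 * k.θ ≤ 1 := by
      refine le_trans (mul_le_mul_of_nonneg_right ?_ θ0.le) fa.θH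
      exact mul_le_mul (by nlinarith only [K10]) (pow_le_pow_right₀ (by linarith only [g10]) (by norm_num))
        (by positivity) (by positivity)
    obtain a6 : (1000 * k.g ^ 2 * k.θ) ^ 2 ≤ 1 := pow_le_one₀ (by positivity) a5
    obtain a7 : 100 * (k.g ^ 2 * S.σ k z) ≤ S.W z := by
      obtain this := mul_le_mul_of_nonneg_left a4 (show 0 ≤ k.g ^ 2 by positivity)
      have := mul_le_mul_of_nonneg_right a6 W0
      obtain this : 0 ≤ k.g ^ 2 * S.σ k z := by positivity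
      (rename_i zq1 zq0; linarith only [W0, zq1, zq0])
    obtain a8 := mul_le_mul_of_nonneg_right g2 (show 0 ≤ S.σ k z by linarith only [sz])
    obtain a9 := mul_le_mul_of_nonneg_right g10 (show 0 ≤ S.σ k z by linarith only [sz])
    have a10 := mul_le_mul_of_nonneg_right i4' Rz.le
    refine (j2 1 le_rfl (by omega)).2.trans_lt (lt_of_le_of_lt
      (Real.exp_le_exp.2 (show _ ≤ -1 by unfold Sk.V at a1 ⊢; push_cast; linarith only [sz, a1, a2, a3, a7, a8, a9, a10])) ?_)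
    rw [Real.exp_neg, inv_lt_comm₀ (Real.exp_pos _) (by norm_num)]
    linarith only [Real.exp_one_gt_d9]
  refine L1.not_ge (jet.d8 z zN fun x xz Rx => not_lt.1 fun h => nq x xz ⟨Rx, T1.trans ?_⟩)
  have sx := σ0 x (xz.trans zN)
  obtain a1 := mul_le_mul_of_nonneg_left (fa.σmono 0 x (by omega) (xz.trans zN))
    (show 0 ≤ k.g ^ 2 + 1 by positivity)
  obtain a2 := mul_le_mul_of_nonneg_right (show k.g ^ 2 + 1 + k.g ≤ k.G by unfold EK.G; linarith only [g10, g2, g3])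
    (show 0 ≤ S.σ k x by linarith only [sx])
  have a3 := mul_le_mul_of_nonneg_right i4' Rx.le
  refine mul_le_mul_of_nonneg_left (Real.exp_le_exp.2 ?_) (by norm_num)
  unfold Sk.V at h ⊢
  linarith only [Rx, h, a1, a2, a3]

end Pool.Agent.MP_9cbfe4_an.E

end

/-! ### Part EAstep -/

section

/-! Row EAstep of E-A: one step of the chain E2. -/

namespace Pool.Agent.MP_9cbfe4_an.E

open Finset
open scoped Classical

namespace STp

theorem two_exp {x y : ℝ} (h : x + 1 ≤ y) : 2 * Real.exp x ≤ Real.exp y := by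
  have h1 := Real.add_one_le_exp (1 : ℝ)
  have h2 := Real.exp_le_exp.2 h
  rw [Real.exp_add] at h2
  nlinarith only [h2, h1, Real.exp_pos x]

theorem pw {g : ℝ} (h : 10 ≤ g) : g ≤ g ^ 2 ∧ g ^ 2 ≤ 108 * g ^ 6 ∧ g ^ 2 ≤ 10 ^ 4 * g ^ 7 ∧
    6 * g ^ 3 + (g ^ 2 + g + 3) * (3 * g) ≤ 10 * g ^ 3 ∧ (g ^ 2 + 2) * (3 * g) ≤ 6 * g ^ 3 ∧
    g ≤ 108 * g ^ 5 ∧ 11 * g ^ 3 ≤ 108 * g ^ 5 ∧ 11 * g ^ 3 ≤ g ^ 8 ∧ 1 ≤ g ^ 3 ∧
    g ^ 2 ≤ g ^ 3 ∧ (g + 2) * (3 * g) ≤ g ^ 3 := by
  obtain h1 : (1 : ℝ) ≤ g := by linarith only [h]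
  have p : ∀ a b : ℕ, a ≤ b → g ^ a ≤ g ^ b := fun a b => pow_le_pow_right₀ h1
  obtain q : ∀ a : ℕ, 10 * g ^ a ≤ g ^ (a + 1) := fun a => by
    rw [pow_succ]; nlinarith only [h, pow_pos (show 0 < g by linarith only [h]) a]
  obtain a1 := p 1 2 (by norm_num)
  obtain a2 := p 2 6 (by norm_num)
  obtain a3 := p 2 7 (by norm_num)
  have a4 := q 1
  have a5 := q 2
  have a6 := q 3
  have a7 := q 4
  obtain a8 := p 5 8 (by norm_num)
  obtain a9 := p 0 3 (by norm_num)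
  simp only [pow_one, pow_zero, Nat.reduceAdd] at *
  refine ⟨?_, ?_, ?_, ?_, ?_, ?_, ?_, ?_, ?_, ?_, ?_⟩ <;> linarith only [h, a4, a2, a3, a5, a6, a7, a8]

variable {k : EK} {S : Sk} {La : ℕ → ℕ → ℝ}

/-- type II bound from the state `z`, for the orders below `i` -/
theorem low (fa : S.Fa k) (jet : S.Jet k La) {z i : ℕ} (st : S.St k La z i) {m j : ℕ} (mz : m ≤ z)
    (j1 : 1 ≤ j) (ji : j ≤ i) {b : ℝ}
    (hb : ∀ l, m ≤ l → l ≤ z → k.g ^ 2 * S.σ k l + S.V (2 * j - 1) l ≤ b) :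
    |La j m| ≤ 2 * Real.exp b := by
  obtain ⟨p1, -, -, -, -, p6, -⟩ := pw fa.g10
  have zN := st.isRec.1.1
  have g10 := fa.g10
  have up := fun j a b => (jet.j2 z i st.kK st.isRec st.str st.canc j a b).2
  have hz := hb z mz le_rfl
  have hm := hb m le_rfl mz
  obtain j1' : (1 : ℝ) ≤ j := by exact_mod_cast j1
  obtain h1 := jet.two k.g (by linarith only [g10]) p6 z zN (S.R z) (fa.ok.R0 z) i st.kK
    (fun j a b => (up j a b).trans_eq (by unfold Sk.V; congr 1; ring)) m mz j j1 ji b (S.R z)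
    (fa.ok.R0 z) (.inl le_rfl) (by unfold Sk.V at hz; linarith only [hz])
    (fun x a b _ => by linarith only [hb x a b.le])
    (by unfold Sk.V at hm; nlinarith only [hm, j1', fa.ok.R0 m])
  obtain s0 : 0 ≤ S.σ k z := by linarith only [fa.σΛ z zN, fa.Λ10]
  obtain h2 : |La j z| ≤ Real.exp b :=
    (up j j1 ji).trans (Real.exp_le_exp.2 (by nlinarith only [hz, p1, s0]))
  linarith only [h1, h2, abs_sub_abs_le_abs_sub (La j m) (La j z)]

end STp

open STp in
theorem Sk.step {k : EK} {S : Sk} {La : ℕ → ℕ → ℝ} (fa : S.Fa k) (jet : S.Jet k La)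
    (e1 : S.E1_s k La) (uc : S.UC_s k La) (lk : S.LINK_s k La) (ex : S.EXY_s k La)
    (int : S.INT_s k La) : S.STEP_s k La := by
  intro z i st i4 tf
  obtain ⟨y, yz, ⟨Ry, qu⟩, nq⟩ := ex z i st i4
  obtain ⟨p1, p2, p3, p4, p5, p6, p7, p8, p9, p10, p11⟩ := pw fa.g10
  have zN := st.isRec.1.1
  have yN : y < S.N := yz.trans zN
  have g10 := fa.g10
  obtain K10 : (10 : ℝ) ≤ k.K := by exact_mod_cast fa.K10
  obtain iK : (i : ℝ) ≤ k.K := by exact_mod_cast st.kK
  obtain i4' : (4 : ℝ) ≤ i := by exact_mod_cast i4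
  have s1 : 100 ≤ S.σ k y := fa.Λ10.trans (fa.σΛ y yN)
  obtain s3 : S.σ k y ≤ k.g ^ 3 * S.σ k y := le_mul_of_one_le_left (by linarith only [s1]) p9
  obtain it : ∀ j : ℕ, 1 ≤ j → j < i → ∀ l, y < l → l ≤ z → k.g ^ 2 * S.σ k l + S.V (2 * j - 1) l ≤
      S.V (2 * j - 1) y - 2 * ((i : ℝ) - j) / (2 * i - 1) * S.R y + 10 * k.g ^ 3 * S.σ k y := by
    intro j a b l c d
    obtain this := int z i y st i4 yz ⟨Ry, qu⟩ nq l c d j a b (k.g ^ 2) (by positivity) p2
    obtain h := mul_le_mul_of_nonneg_right p4 (show 0 ≤ S.σ k y by linarith only [s1])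
    unfold EK.G EK.k1 at this
    linarith only [this, h]
  obtain mg : ∀ j : ℕ, j < i → 1 / (k.K : ℝ) ≤ 2 * ((i : ℝ) - j) / (2 * i - 1) := fun j h => by
    obtain this : (j : ℝ) + 1 ≤ i := by exact_mod_cast h
    rw [div_le_div_iff₀ (by linarith only [K10]) (by linarith only [i4'])]
    nlinarith only [iK, this]
  obtain mg0 : ∀ j : ℕ, j < i → 0 ≤ 2 * ((i : ℝ) - j) / (2 * i - 1) * S.R y := fun j h =>
    mul_nonneg (le_trans (by positivity) (mg j h)) Ry.le
  have hA : ∀ j : ℕ, 1 ≤ j → j < i → |La j (y + 1)| ≤ 2 * Real.exp (S.V (2 * j - 1) y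
      - 2 * ((i : ℝ) - j) / (2 * i - 1) * S.R y + 10 * k.g ^ 3 * S.σ k y) := fun j a b =>
    low fa jet st yz a b.le fun l c d => it j a b l c d
  have link := lk z i (y + 1) st i4 fun l a b => nq l a b
  obtain fl : k.g1 * S.σ k (y + 1) - S.ω (y + 1) ≤ 6 * k.g ^ 3 * S.σ k y - (S.ω y + S.R y) := by
    obtain this := fa.ml y (y + 1) y.lt_succ_self (lt_of_le_of_lt yz zN) (k.g ^ 2) 1 (by positivity) p3
      (by linarith only [K10]) le_rfl
    obtain h := mul_le_mul_of_nonneg_right p5 (show 0 ≤ S.σ k y by linarith only [s1])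
    unfold EK.k1 at this
    unfold EK.g1
    linarith only [this, h]
  obtain hB : |La i (y + 1)| ≤ 5 / 4 * |La i z|
      + Real.exp (6 * k.g ^ 3 * S.σ k y - (S.ω y + S.R y)) := by
    linarith only [link (y + 1) le_rfl yz, abs_sub_abs_le_abs_sub (La i (y + 1)) (La i z),
      Real.exp_le_exp.2 fl]
  obtain four : ∀ j : ℕ, 1 ≤ j → j ≤ i →
      |La j (y + 1)| ≤ Real.exp (k.c1 * S.σ k y + S.V (2 * j - 1) y) := by
    intro j a b
    unfold EK.c1
    rcases b.lt_or_eq with b | rfl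
    · exact (hA j a b).trans (two_exp (by linarith only [s1, s3, mg0 j b]))
    · unfold EK.G at qu
      obtain h1 : Real.exp (6 * k.g ^ 3 * S.σ k y - (S.ω y + S.R y)) ≤
          Real.exp (6 * k.g ^ 3 * S.σ k y + S.V (2 * j - 1) y) :=
        Real.exp_le_exp.2 (by unfold Sk.V; nlinarith only [Ry])
      have h2 := two_exp (x := 6 * k.g ^ 3 * S.σ k y + S.V (2 * j - 1) y) le_rfl
      have h3 := two_exp (x := 6 * k.g ^ 3 * S.σ k y + S.V (2 * j - 1) y + 1) le_rfl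
      obtain h4 := two_exp (x := 6 * k.g ^ 3 * S.σ k y + S.V (2 * j - 1) y + 1 + 1)
        (y := 18 * k.g ^ 3 * S.σ k y + S.V (2 * j - 1) y) (by linarith only [s1, s3])
      linarith only [qu, hB, h1, h2, h3, h4, Real.exp_pos (6 * k.g ^ 3 * S.σ k y + S.V (2 * j - 1) y)]
  by_cases hr : S.Rec y
  swap
  · obtain ⟨v, hv, hm⟩ := exists_max_image (range (y + 1)) S.R ⟨y, self_mem_range_succ y⟩
    have vy : v ≤ y := Nat.lt_succ_iff.1 (mem_range.1 hv)
    have hm' : ∀ l ≤ y, S.R l ≤ S.R v := fun l h => hm l (mem_range.2 (Nat.lt_succ_of_le h))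
    have rv : S.Rec v := ⟨⟨vy.trans_lt yN, Ry.trans_le (hm' y le_rfl)⟩,
      fun l h => hm' l (h.le.trans vy)⟩
    have vy' : v < y := vy.lt_of_ne fun e => hr (e ▸ rv)
    exact ⟨v, y, i, ⟨vy, yz, hm', ⟨Ry, qu⟩, nq, link, four⟩,
      uc v y i rv ⟨yN, Ry⟩ vy' st.k3 st.kK (tf v (vy'.trans yz)) hm' four,
      .inl ⟨rfl, st.isRec.2 v (vy'.trans yz)⟩⟩
  obtain L : S.Lk k La y y z i := ⟨le_rfl, yz, fun l h => h.lt_or_eq.elim (hr.2 l) fun e => by rw [e],
    ⟨Ry, qu⟩, nq, link, four⟩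
  obtain str : S.Strong k y := (e1 y hr (tf y yz) fun j a b => by
    obtain ji : j < i := by omega
    refine (low fa jet st yz.le a ji.le (b := S.V (2 * j - 1) y + 10 * k.g ^ 3 * S.σ k y)
      fun l c d => ?_).trans (two_exp ?_)
    · rcases c.lt_or_eq with c | rfl
      · linarith only [it j a ji l c d, mg0 j ji]
      · linarith only [s1, s3, mul_le_mul_of_nonneg_right p10 (show 0 ≤ S.σ k y by linarith only [s1])]
    · obtain this := mul_le_mul_of_nonneg_right p7 (show 0 ≤ S.σ k y by linarith only [s1])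
      unfold EK.c2 Sk.V
      linarith only [s1, s3, this]).1
  have θ0 := fa.θpos
  obtain sS : 11 * k.g ^ 3 * S.σ k y ≤ k.θ * S.R y := by
    refine le_trans ?_ (fa.σS y hr.1 str)
    obtain h1 := mul_le_mul_of_nonneg_right p8 (show 0 ≤ S.σ k y by linarith only [s1])
    obtain h2 : 0 ≤ k.g ^ 8 * S.σ k y := by positivity
    nlinarith only [g10, K10, s1, h1, p1, p4, p9, s3]
  obtain θK : 40 * k.K * k.θ ≤ 1 := by
    refine le_trans ?_ fa.θH
    obtain h1 : (1 : ℝ) ≤ k.g ^ 10 := one_le_pow₀ (by linarith only [g10])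
    obtain h2 : (k.K : ℝ) ≤ (k.K : ℝ) ^ 2 * k.g ^ 10 := by nlinarith only [K10, h1]
    nlinarith only [θ0, K10, h2]
  obtain θ1 : 40 * k.θ ≤ 1 := by nlinarith only [K10, θK]
  obtain θR : 40 * (k.θ * S.R y) ≤ S.R y := by nlinarith only [K10, θ0, θ1, s1, s3, sS, Ry, θK]
  obtain cn : ∀ j : ℕ, 1 ≤ j → j < i →
      |La j (y + 1)| ≤ Real.exp ((2 * j - 1 - k.θ) * S.R y - S.ω y) := fun j a b => by
    refine (hA j a b).trans (two_exp ?_)
    obtain h1 : 2 * k.θ ≤ 1 / (k.K : ℝ) := by rw [le_div_iff₀ (by linarith only [K10, θ0, θ1])]; linarith only [θ0, θK, θ1]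
    have h2 := mul_le_mul_of_nonneg_right (h1.trans (mg j b)) Ry.le
    unfold Sk.V
    linarith only [s1, s3, θ0, sS, θ1, h2]
  by_cases hc : S.Canc k La i y
  · exact ⟨y, y, i, L, ⟨hr, str, hc, st.k3, st.kK⟩, .inl ⟨rfl, st.isRec.2 y yz⟩⟩
  refine ⟨y, y, i - 1, L, ⟨hr, str, fun j a b => cn j a (by omega), by omega,
    by have := st.kK; omega⟩, .inr ⟨by omega, ?_⟩⟩
  obtain h1 : Real.exp ((2 * i - 1 - k.θ) * S.R y - S.ω y) < |La i (y + 1)| := by
    by_contra h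
    exact hc fun j a b => b.lt_or_eq.elim (cn j a) fun e => by rw [e]; exact not_lt.1 h
  obtain h2 := two_exp (x := 6 * k.g ^ 3 * S.σ k y - (S.ω y + S.R y))
    (y := (2 * i - 1 - k.θ) * S.R y - S.ω y) (by nlinarith only [i4', θ0, sS, θ1, θR, s1, s3, Ry])
  obtain h3 := (jet.j2 z i st.kK st.isRec st.str st.canc i (by omega) le_rfl).2
  have h4 := two_exp (x := S.V (2 * i - 1) z + k.g * S.σ k z) le_rfl
  have h5 := two_exp (x := S.V (2 * i - 1) z + k.g * S.σ k z + 1) le_rfl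
  obtain h6 : (2 * i - 1 - k.θ) * S.R y - S.ω y < S.V (2 * i - 1) z + k.g * S.σ k z + 1 + 1 :=
    Real.exp_lt_exp.1 (by linarith only [hB, h1, h2, h3, h4, h5, Real.exp_pos (S.V (2 * i - 1) z + k.g * S.σ k z)])
  obtain h7 := fa.ml y z yz zN k.g 1 (by linarith only [g10, θ0, θ1]) (p1.trans p3) (by linarith only [K10, θ0, θ1]) le_rfl
  obtain h8 := mul_le_mul_of_nonneg_right p11 (show 0 ≤ S.σ k y by linarith only [s1, θ0, θ1])
  unfold EK.k1 at h7
  unfold Sk.V at h6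
  linarith only [s1, s3, θ0, sS, θ1, θR, h6, h7, h8]

end Pool.Agent.MP_9cbfe4_an.E

end

/-! ### Part EAtfc -/

section

/-! Row EAtfc of section E-A: the chain in the triple flat case. -/

namespace Pool.Agent.MP_9cbfe4_an.E

open Finset
open scoped Classical

namespace TFCaux

theorem two_exp {b s t : ℝ} (hs : 1 ≤ s) (h : b + s ≤ t) : 2 * Real.exp b ≤ Real.exp t := by
  obtain h1 : (2 : ℝ) ≤ Real.exp s := by
    have := Real.add_one_le_exp s
    linarith only [hs, this]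
  have h2 : Real.exp (b + s) ≤ Real.exp t := Real.exp_le_exp.mpr h
  rw [Real.exp_add] at h2
  have h3 := Real.exp_pos b
  nlinarith only [h2, h1, h3]

theorem num {g θ K : ℝ} (hg : 10 ≤ g) (hK : 10 ≤ K) (hθ : 0 < θ)
    (h : 10 ^ 20 * K ^ 2 * g ^ 10 * θ ≤ 1) : (g + 6 * g ^ 3 + 1) * (12 * g ^ 2 * θ ^ 2) ≤ 1 := by
  obtain g0 : 0 < g := by linarith only [hg]
  obtain g1 : 1 ≤ g := by linarith only [hg]
  obtain g3 : g ≤ g ^ 3 := by
    calc g = g ^ 1 := (pow_one g).symm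
      _ ≤ g ^ 3 := pow_le_pow_right₀ g1 (by norm_num)
  obtain g5 : g ^ 5 ≤ g ^ 10 := pow_le_pow_right₀ g1 (by norm_num)
  have g10 : 1 ≤ g ^ 10 := one_le_pow₀ g1
  obtain K2 : 1 ≤ K ^ 2 := one_le_pow₀ (by linarith only [hK])
  obtain a1 : 10 ^ 20 * (g ^ 10 * θ) ≤ 1 := by
    obtain p : 0 ≤ g ^ 10 * θ := by positivity
    have q : 1 * (g ^ 10 * θ) ≤ K ^ 2 * (g ^ 10 * θ) := mul_le_mul_of_nonneg_right K2 p
    obtain e : 10 ^ 20 * K ^ 2 * g ^ 10 * θ = 10 ^ 20 * (K ^ 2 * (g ^ 10 * θ)) := by ring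
    linarith only [h, q]
  obtain a2 : θ ≤ g ^ 10 * θ := by
    have := mul_le_mul_of_nonneg_right g10 hθ.le
    linarith only [this]
  obtain a3 : θ ≤ 1 := by linarith only [hθ, a1, a2]
  have a4 : g ^ 5 * θ ≤ g ^ 10 * θ := mul_le_mul_of_nonneg_right g5 hθ.le
  obtain a5 : g + 6 * g ^ 3 + 1 ≤ 8 * g ^ 3 := by linarith only [hg, hθ, g3, a1, a2]
  obtain a6 : (g + 6 * g ^ 3 + 1) * (12 * g ^ 2 * θ ^ 2) ≤ 8 * g ^ 3 * (12 * g ^ 2 * θ ^ 2) :=
    mul_le_mul_of_nonneg_right a5 (by positivity)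
  obtain a7 : g ^ 5 * θ * θ ≤ g ^ 5 * θ * 1 := mul_le_mul_of_nonneg_left a3 (by positivity)
  obtain e : 8 * g ^ 3 * (12 * g ^ 2 * θ ^ 2) = 96 * (g ^ 5 * θ * θ) := by ring
  obtain p : 0 ≤ g ^ 10 * θ := by positivity
  linarith only [hθ, a1, a2, a4, a6, a7]

theorem num2 {g : ℝ} (hg : 10 ≤ g) :
    g + 5 * (6 * g ^ 3) ≤ 10 ^ 4 * g ^ 7 ∧ g ≤ 10 ^ 4 * g ^ 7 ∧
    (g + 2) * (3 * g) + 1 ≤ g ^ 3 ∧
    5 * ((g + 5 * (6 * g ^ 3) + 2) * (3 * g) + 1) + (g + 2) * (3 * g) + 1 ≤ 108 * g ^ 5 ∧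
    1 ≤ 108 * g ^ 5 := by
  obtain g0 : 0 < g := by linarith only [hg]
  obtain h2 : 10 * g ≤ g ^ 2 := by nlinarith only [hg]
  obtain h3 : 10 * g ^ 2 ≤ g ^ 3 := by
    obtain this := mul_le_mul_of_nonneg_right hg (by positivity : 0 ≤ g ^ 2)
    obtain e : g * g ^ 2 = g ^ 3 := by ring
    linarith only [this]
  obtain h4 : 10 * g ^ 3 ≤ g ^ 4 := by
    obtain this := mul_le_mul_of_nonneg_right hg (by positivity : 0 ≤ g ^ 3)
    obtain e : g * g ^ 3 = g ^ 4 := by ring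
    linarith only [this]
  obtain h5 : 10 * g ^ 4 ≤ g ^ 5 := by
    obtain this := mul_le_mul_of_nonneg_right hg (by positivity : 0 ≤ g ^ 4)
    obtain e : g * g ^ 4 = g ^ 5 := by ring
    linarith only [this]
  obtain h7 : g ^ 5 ≤ g ^ 7 := pow_le_pow_right₀ (by linarith only [hg]) (by norm_num)
  obtain e1 : (g + 2) * (3 * g) = 3 * g ^ 2 + 6 * g := by ring
  obtain e2 : (g + 5 * (6 * g ^ 3) + 2) * (3 * g) = 3 * g ^ 2 + 90 * g ^ 4 + 6 * g := by ring
  rw [e1, e2]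
  refine ⟨?_, ?_, ?_, ?_, ?_⟩ <;> linarith only [hg, h2, h3, h4, h5, h7]

end TFCaux

namespace Sk
variable {k : EK} {S : Sk} {La : ℕ → ℕ → ℝ}

/-- a major lies high compared with its slack -/
theorem tfc_om (fa : S.Fa k) {x : ℕ} (hx : S.Maj x) : (k.g + k.G) * S.σ k x ≤ S.ω x := by
  obtain hK : (10 : ℝ) ≤ k.K := by exact_mod_cast fa.K10
  have h1 := TFCaux.num fa.g10 hK fa.θpos fa.θH
  have h2 := fa.σD x hx
  have h3 := fa.ok.lo x hx.1.le
  have h4 := fa.σlo x hx.1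
  have h5 := fa.W0 x hx.1.le
  obtain g0 : 0 ≤ k.g + 6 * k.g ^ 3 + 1 := by
    obtain this : 0 < k.g := by linarith only [fa.g10]
    (clear * - this; positivity)
  have h6 := mul_le_mul_of_nonneg_left h2 g0
  have h7 := mul_le_mul_of_nonneg_right h1 h5
  obtain e1 : (k.g + 6 * k.g ^ 3 + 1) * (12 * k.g ^ 2 * k.θ ^ 2 * S.W x)
      = (k.g + 6 * k.g ^ 3 + 1) * (12 * k.g ^ 2 * k.θ ^ 2) * S.W x := by ring
  obtain e2 : (k.g + 6 * k.g ^ 3 + 1) * S.σ k x = (k.g + k.G) * S.σ k x + S.σ k x := by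
    unfold EK.G; ring
  linarith only [h3, h4, h6, h7, e2]

theorem tfc_heavy (fa : S.Fa k) (jet : S.Jet k La) {n : ℕ} (tf : S.TF k La n) :
    ∃ l < n, S.Heavy k l := by
  by_contra hno
  push Not at hno
  have hN := tf.1.1
  obtain g0 : 0 < k.g := by linarith only [fa.g10]
  obtain G0 : 0 ≤ k.G := by unfold EK.G; positivity
  obtain hrc : S.rc k n = 0 := by
    unfold rc
    rw [filter_eq_empty_iff.mpr (fun l hl => hno l (mem_range.mp hl))]
    exact fold_empty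
  obtain h8 := jet.d8 n hN (fun x hx hR => by
    have a1 := tfc_om fa (x := x) ⟨lt_trans hx hN, hR⟩
    have a2 := hno x hx
    unfold Heavy at a2
    push Not at a2
    unfold V
    obtain e : (k.g + k.G) * S.σ k x = k.g * S.σ k x + k.G * S.σ k x := by ring
    linarith only [a1, a2])
  obtain h9 := tf.2.2 1 le_rfl (by norm_num)
  have a1 := tfc_om fa tf.1
  have a2 := fa.σΛ n hN
  have a3 := fa.Λ10
  obtain a4 : 1 * S.σ k n ≤ (k.g + k.G) * S.σ k n :=
    mul_le_mul_of_nonneg_right (by linarith only [g0, G0, fa.g10]) (by linarith only [a2, a3])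
  have a5 : 0 ≤ k.θ * S.W n := mul_nonneg fa.θpos.le (fa.W0 n hN.le)
  obtain a6 : 0 * S.σ k n + (2 * ((1 : ℕ) : ℝ) - 1) * S.Up k n - S.ω n + 2 ≤ 0 := by
    unfold Up
    rw [hrc]
    push_cast
    linarith only [a1, a2, a3, a4, a5]
  obtain a7 := TFCaux.two_exp (b := 0 * S.σ k n + (2 * ((1 : ℕ) : ℝ) - 1) * S.Up k n - S.ω n)
    (s := 1) (t := -1) le_rfl (by linarith only [a6])
  obtain a8 : Real.exp (-1) < 1 := by
    rw [← Real.exp_zero]
    exact Real.exp_lt_exp.mpr (by norm_num)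
  linarith only [h8, h9, a7, a8]

theorem tfc (fa : S.Fa k) (jet : S.Jet k La) (e1 : S.E1_s k La) : S.TFC_s k La := by
  intro n tf hno
  have hN := tf.1.1
  obtain hK : (10 : ℝ) ≤ k.K := by exact_mod_cast fa.K10
  have hg := fa.g10
  obtain g0 : 0 < k.g := by linarith only [hg]
  obtain G0 : 0 < k.G := by unfold EK.G; positivity
  obtain ⟨n1, n2, n3, n4, n5⟩ := TFCaux.num2 hg
  obtain ⟨l0, hl0, hH0⟩ := tfc_heavy fa jet tf
  obtain ⟨A, hA, hmax⟩ := exists_max_image ((range n).filter (S.Heavy k)) S.R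
    ⟨l0, mem_filter.mpr ⟨mem_range.mpr hl0, hH0⟩⟩
  obtain ⟨hAn, hAH⟩ := mem_filter.mp hA
  have An : A < n := mem_range.mp hAn
  have AN : A < S.N := lt_trans An hN
  have deep : ∀ l < n, S.Heavy k l → S.R l ≤ S.R A := fun l hl hH =>
    hmax l (mem_filter.mpr ⟨mem_range.mpr hl, hH⟩)
  have sA : 100 ≤ S.σ k A := le_trans fa.Λ10 (fa.σΛ A AN)
  have sn : 100 ≤ S.σ k n := le_trans fa.Λ10 (fa.σΛ n hN)
  obtain sA0 : 0 ≤ S.σ k A := by linarith only [sA]
  have hAH' : k.G * S.σ k A ≤ S.R A := hAH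
  obtain RA : 0 < S.R A := lt_of_lt_of_le (mul_pos G0 (by linarith only [sA])) hAH'
  have maj : S.Maj A := ⟨AN, RA⟩
  obtain isRec : S.Rec A := by
    refine ⟨maj, fun l hl => ?_⟩
    by_cases hH : S.Heavy k l
    · exact deep l (lt_trans hl An) hH
    · unfold Heavy at hH
      push Not at hH
      have := mul_le_mul_of_nonneg_left (fa.σmono l A hl.le AN) G0.le
      linarith only [hAH', hH, this]
  obtain rcle : ∀ x ≤ n, S.rc k x ≤ S.R A := fun x hx => by
    unfold rc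
    rw [fold_max_le]
    refine ⟨RA.le, fun l hl => ?_⟩
    obtain ⟨h1, h2⟩ := mem_filter.mp hl
    exact deep l (lt_of_lt_of_le (mem_range.mp h1) hx) h2
  obtain rcn : S.rc k n = S.R A := by
    refine le_antisymm (rcle n le_rfl) ?_
    unfold rc
    rw [le_fold_max]
    exact Or.inr ⟨A, hA, le_rfl⟩
  obtain hUp : S.Up k n ≤ S.Up k A + (S.ω n - S.ω A) / 6 := by
    obtain C0 : 0 ≤ k.C5 := by unfold EK.C5; positivity
    have a1 := mul_le_mul_of_nonneg_left (rcle A An.le) C0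
    have a2 := mul_le_mul_of_nonneg_left (fa.mono A n An.le hN.le) fa.θpos.le
    unfold Up
    rw [rcn]
    linarith only [a1, a2]
  obtain fl1 : S.Flat k La 1 3 n (S.Up k n) := fun j h1 h3 =>
    le_trans (tf.2.2 j h1 h3) (Real.exp_le_exp.mpr (by linarith only [sn]))
  -- the type II estimate seen from `A`
  obtain key : ∀ j : ℕ, 1 ≤ j → j ≤ 3 → ∀ b : ℝ,
      (k.g + 5 * k.G + 2) * k.k1 * S.σ k A + (2 * j - 1) * S.R A - S.ω A ≤ b →
      (2 * j - 1) * S.Up k A - S.ω A - S.R A / 6 + (k.g + 2) * k.k1 * S.σ k A ≤ b →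
      |La j A| ≤ 2 * Real.exp b := by
    intro j j1 j3 b b1 b2
    obtain j1' : (1 : ℝ) ≤ j := by exact_mod_cast j1
    obtain j3' : (j : ℝ) ≤ 3 := by exact_mod_cast j3
    obtain e0 : (0 : ℝ) ≤ 2 * j - 1 := by linarith only [j1']
    obtain hn : k.g * S.σ k n + (2 * j - 1) * S.Up k n - S.ω n ≤ b := by
      obtain a1 := fa.ml A n An hN k.g ((7 - 2 * j) / 6) g0.le n2 (by nlinarith only [hK, j3']) (by linarith only [j1'])
      have a2 := mul_le_mul_of_nonneg_left hUp e0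
      obtain a3 : 1 / 6 * S.R A ≤ (7 - 2 * j) / 6 * S.R A :=
        mul_le_mul_of_nonneg_right (by linarith only [j3']) RA.le
      obtain x1 : (2 * (j : ℝ) - 1) * (S.Up k A + (S.ω n - S.ω A) / 6)
          = (2 * j - 1) * S.Up k A + (S.ω n - (7 - 2 * j) / 6 * S.ω n)
            - (S.ω A - (7 - 2 * j) / 6 * S.ω A) := by ring
      obtain x2 : (7 - 2 * (j : ℝ)) / 6 * (S.ω A + S.R A)
          = (7 - 2 * j) / 6 * S.ω A + (7 - 2 * j) / 6 * S.R A := by ring
      linarith only [b2, a1, a2, a3]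
    obtain hx : ∀ x, A ≤ x → x < n → k.g * S.σ k x + (2 * j - 1) * S.R x - S.ω x ≤ b := by
      intro x Ax xn
      have xN : x < S.N := lt_trans xn hN
      have sx : 0 ≤ S.σ k x := le_trans sA0 (fa.σmono A x Ax xN)
      have Gx : 0 ≤ k.G * S.σ k x := mul_nonneg G0.le sx
      obtain a0 : S.R x ≤ S.R A + k.G * S.σ k x := by
        by_cases hH : S.Heavy k x
        · have := deep x xn hH
          linarith only [Gx, this]
        · unfold Heavy at hH
          push Not at hH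
          linarith only [RA, hH]
      obtain a1 := fa.ml0 A x Ax xN (k.g + 5 * k.G) 1 (by linarith only [hg, G0]) (by unfold EK.G; exact n1)
        (by linarith only [hK]) le_rfl
      have a2 := mul_le_mul_of_nonneg_left a0 e0
      obtain a3 : (2 * (j : ℝ) - 1) * (k.G * S.σ k x) ≤ 5 * (k.G * S.σ k x) :=
        mul_le_mul_of_nonneg_right (by linarith only [j3']) Gx
      obtain x1 : (2 * (j : ℝ) - 1) * (S.R A + k.G * S.σ k x)
          = (2 * j - 1) * S.R A + (2 * j - 1) * (k.G * S.σ k x) := by ring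
      obtain x2 : (k.g + 5 * k.G) * S.σ k x = k.g * S.σ k x + 5 * (k.G * S.σ k x) := by ring
      linarith only [b1, a1, a2, a3]
    obtain two := jet.two 1 le_rfl (by unfold EK.c2; exact n5) n hN (S.Up k n) tf.2.1 3
      (le_trans (by norm_num) fa.K10) fl1 A An.le j j1 j3 b (S.Up k n) tf.2.1 (Or.inl le_rfl)
      (by
        obtain x1 : (2 * (j : ℝ) - 1) * S.Up k n = (2 * j - 2) * S.Up k n + S.Up k n := by ring
        linarith only [hn])
      (fun x Ax xn _ => by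
        have := hx x Ax xn
        unfold V
        linarith only [this])
      (by
        have a1 := hx A le_rfl An
        have a2 := mul_nonneg e0 RA.le
        linarith only [a1, a2])
    obtain top : |La j n| ≤ Real.exp b := by
      refine le_trans (tf.2.2 j j1 j3) (Real.exp_le_exp.mpr ?_)
      obtain this : 0 ≤ k.g * S.σ k n := mul_nonneg g0.le (by linarith only [sn])
      linarith only [hn, this]
    obtain tri : |La j A| ≤ |La j A - La j n| + |La j n| := by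
      have := abs_add_le (La j A - La j n) (La j n)
      simpa using this
    linarith only [two, top, tri]
  obtain ⟨c', hc'⟩ : ∃ c', c' = (k.g + 5 * k.G + 2) * k.k1 := ⟨_, rfl⟩
  obtain ⟨c'', hc''⟩ : ∃ c'', c'' = (k.g + 2) * k.k1 := ⟨_, rfl⟩
  rw [← hc', ← hc''] at key
  obtain c0 : 0 ≤ c' := by
    rw [hc']; unfold EK.k1; positivity
  obtain c1 : 0 ≤ c'' := by
    rw [hc'']; unfold EK.k1; positivity
  obtain m3 : 6 * (c'' + 1) ≤ k.G := by
    rw [hc'']; unfold EK.k1 EK.G; linarith only [n3]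
  obtain m4 : 5 * (c' + 1) + c'' + 1 ≤ k.c2 := by
    rw [hc', hc'']; unfold EK.k1 EK.G EK.c2; exact n4
  obtain p0 : 0 ≤ (c' + 1) * S.σ k A := mul_nonneg (by linarith only [c0]) sA0
  have p1 : 0 ≤ c'' * S.σ k A := mul_nonneg c1 sA0
  obtain x0 : (c' + 1) * S.σ k A = c' * S.σ k A + S.σ k A := by ring
  obtain hU : S.Up k A ≤ S.R A + (c' + 1) * S.σ k A := by
    by_contra hU
    push Not at hU
    refine hno A An ⟨maj, by linarith only [RA, p0, hU], fun j j1 j3 => ?_⟩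
    obtain j1' : (1 : ℝ) ≤ j := by exact_mod_cast j1
    obtain e0 : (0 : ℝ) ≤ 2 * j - 1 := by linarith only [j1']
    have a1 := mul_le_mul_of_nonneg_left hU.le e0
    obtain a2 : 1 * ((c' + 1) * S.σ k A) ≤ (2 * j - 1) * ((c' + 1) * S.σ k A) :=
      mul_le_mul_of_nonneg_right (by linarith only [j1']) p0
    have a3 := mul_le_mul_of_nonneg_right m3 sA0
    obtain x1 : (2 * (j : ℝ) - 1) * (S.R A + (c' + 1) * S.σ k A)
        = (2 * j - 1) * S.R A + (2 * j - 1) * ((c' + 1) * S.σ k A) := by ring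
    obtain x2 : 6 * (c'' + 1) * S.σ k A = 6 * (c'' * S.σ k A) + 6 * S.σ k A := by ring
    refine le_trans (key j j1 j3 ((2 * j - 1) * S.Up k A - S.ω A - S.σ k A) (by linarith only [a1, a2])
      (by linarith only [hAH', a3])) (TFCaux.two_exp (s := S.σ k A) (by linarith only [sA]) (by linarith only []))
  obtain flat : S.Flat k La k.c2 3 A (S.R A) := by
    intro j j1 j3
    obtain j1' : (1 : ℝ) ≤ j := by exact_mod_cast j1
    obtain j3' : (j : ℝ) ≤ 3 := by exact_mod_cast j3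
    obtain e0 : (0 : ℝ) ≤ 2 * j - 1 := by linarith only [j1']
    have a1 := mul_le_mul_of_nonneg_left hU e0
    obtain a2 : (2 * j - 1) * ((c' + 1) * S.σ k A) ≤ 5 * ((c' + 1) * S.σ k A) :=
      mul_le_mul_of_nonneg_right (by linarith only [j3']) p0
    have a3 := mul_le_mul_of_nonneg_right m4 sA0
    obtain x1 : (2 * (j : ℝ) - 1) * (S.R A + (c' + 1) * S.σ k A)
        = (2 * j - 1) * S.R A + (2 * j - 1) * ((c' + 1) * S.σ k A) := by ring
    obtain x2 : (5 * (c' + 1) + c'' + 1) * S.σ k A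
        = 5 * ((c' + 1) * S.σ k A) + c'' * S.σ k A + S.σ k A := by ring
    refine le_trans (key j j1 j3 (k.c2 * S.σ k A + (2 * j - 1) * S.R A - S.ω A - S.σ k A)
      (by linarith only [sA, p0, p1, a3]) (by linarith only [RA, a1, a2, a3])) (TFCaux.two_exp (s := S.σ k A) (by linarith only [sA]) (by linarith only []))
  obtain ⟨str, up⟩ := e1 A isRec (hno A An) flat
  exact ⟨A, tf, An, isRec, str, flat, rcn, deep, by linarith only [hUp, up]⟩

end Sk

end Pool.Agent.MP_9cbfe4_an.E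

end

/-! ### Part EAokn -/

section

/-! Row OKN of section E-A. -/

namespace Pool.Agent.MP_9cbfe4_an.E

open Finset

noncomputable section

namespace Sk
variable {k : Par} {S : Sk} {La : ℕ → ℕ → ℝ}

theorem okn_num (fa : S.Fa k.toEK) (nu : k.Nu) : 10 ≤ k.u ∧ 10 * k.u ≤ k.ρ := by
  obtain K10 : (10 : ℝ) ≤ k.K := by exact_mod_cast fa.K10
  have g10 := fa.g10
  obtain u1 : 10 ≤ k.u := le_trans (by nlinarith only [K10]) nu.ok.big
  obtain h1 : 10 * k.u ≤ k.ς := by unfold Par.ς; nlinarith only [K10, u1]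
  refine ⟨u1, h1.trans (le_trans (le_mul_of_one_le_left (by linarith only [u1, h1]) ?_) nu.ok.small)⟩
  nlinarith only [K10, g10]

theorem okn_early {A n M : ℕ} (fa : S.Fa k.toEK) (nu : k.Nu) (tm : S.Tm k A n M) {l : ℕ}
    (hl : l ≤ M) {a : ℝ} (ha : a ≤ 100 * k.g ^ 5) : a * S.σ k.toEK l ≤ k.u := by
  have g10 := fa.g10
  have MN : M < S.N := tm.Mn.trans_lt tm.nN
  obtain g1 : (1 : ℝ) ≤ k.g := by linarith only [g10]
  obtain h0 : k.sl (S.W l) ≤ k.φ := by
    have := mul_le_mul_of_nonneg_left ((fa.mono l M hl MN.le).trans tm.early) (sq_nonneg k.θ)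
    unfold Par.φ EK.sl; linarith only [this]
  obtain φ0 : 0 ≤ k.φ := by
    obtain this := mul_nonneg (sq_nonneg k.θ) (fa.W0 l (by omega))
    have := nu.ok.Λ1
    unfold EK.sl at h0; linarith
  obtain h1 : S.σ k.toEK l ≤ 3 * k.g * k.φ :=
    (fa.σhi l (by omega)).trans (mul_le_mul_of_nonneg_left h0 (by unfold EK.k1; linarith only [g10]))
  obtain σ0 : 0 ≤ S.σ k.toEK l := by linarith only [hl, MN, fa.σΛ l (by omega), fa.Λ10]
  obtain p6 : k.g ^ 6 ≤ k.g ^ 9 := pow_le_pow_right₀ g1 (by norm_num)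
  obtain p0 : 0 ≤ k.g ^ 6 := by positivity
  calc a * S.σ k.toEK l ≤ 100 * k.g ^ 5 * (3 * k.g * k.φ) := mul_le_mul ha h1 σ0 (by positivity)
    _ = 300 * k.g ^ 6 * k.φ := by ring
    _ ≤ 10 ^ 6 * k.g ^ 9 * k.φ := mul_le_mul_of_nonneg_right (by linarith only [p6, p0]) φ0
    _ ≤ _ := nu.fine

/-- the estimate inside the link that follows the cut-off `c` -/
theorem okn_core {A n : ℕ} {Z : Finset ℕ} {kk pv yy : ℕ → ℕ} {M z : ℕ}
    (h : S.Ctx k La A n Z kk pv yy M z) {c w l : ℕ} (cM : c < M) (wZ : w ∈ Z) (wA : w ≠ A)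
    (hc : c = pv w ∨ c = yy w) (cl : c < l) (lw : l ≤ w)
    (hy : yy w < l → yy w < M ∧ (c < yy w → S.R (yy w) < k.u)) {g : ℝ} (g0 : 0 ≤ g)
    (hg : g ≤ k.g2) :
    g * S.σ k.toEK l + S.V 3 l + S.ω c + S.R c ≤ 4 * S.Rst (c + 1) - k.ρ / 5 := by
  obtain ⟨fa, -, int, nu, ch, tm, -, -, -, -⟩ := h
  obtain ⟨u1, uρ⟩ := okn_num fa nu
  obtain ⟨-, wn, st⟩ := ch.mem w wZ
  obtain ⟨pZ, i4, lk, -⟩ := ch.lk w wZ wA
  have wN : w < S.N := wn.trans_lt tm.nN
  obtain K10 : (10 : ℝ) ≤ k.K := by exact_mod_cast fa.K10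
  have g10 := fa.g10
  obtain g1 : (1 : ℝ) ≤ k.g := by linarith only [g10]
  have vy := lk.vy
  have yz := lk.yz
  obtain Ac : A ≤ c := by have := (ch.mem _ pZ).1; omega
  obtain rs : ∀ x ≤ c, S.R x ≤ S.Rst (c + 1) := fun x hx =>
    (Finset.le_fold_max _).2 (.inr ⟨x, mem_range.2 (by omega), le_rfl⟩)
  have r1 := rs c le_rfl
  have r2 := tm.RA.1.trans (rs A Ac)
  unfold EK.g2 at hg
  obtain p1 : k.g ≤ k.g ^ 4 := by simpa using pow_le_pow_right₀ g1 (show 1 ≤ 4 by norm_num)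
  obtain p3 : k.g ^ 3 ≤ k.g ^ 5 := pow_le_pow_right₀ g1 (by norm_num)
  obtain p5 : k.g ≤ k.g ^ 5 := by simpa using pow_le_pow_right₀ g1 (show 1 ≤ 5 by norm_num)
  obtain p6 : k.g ^ 4 ≤ k.g ^ 6 := pow_le_pow_right₀ g1 (by norm_num)
  obtain p7 : k.g ^ 4 ≤ k.g ^ 7 := pow_le_pow_right₀ g1 (by norm_num)
  obtain k1 : ∀ x : ℝ, x ≤ 20 * k.g ^ 4 → x * k.k1 ≤ 60 * k.g ^ 5 := fun x hx =>
    (mul_le_mul_of_nonneg_right hx (by unfold EK.k1; linarith only [g10])).trans_eq (by unfold EK.k1; ring)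
  rcases le_or_gt l (yy w) with h1 | h1
  · obtain h2 : S.R l ≤ S.R c := by
      obtain this : c = pv w := by omega
      rw [this]; exact lk.deep l h1
    obtain h3 := fa.ml c l cl (by omega) g 1 g0 (by linarith only [hg, g10, p1, p7]) (by linarith only [K10]) le_rfl
    obtain h4 := okn_early fa nu tm cM.le (a := (g + 2) * k.k1)
      (by linarith only [g10, p5, hg, p1, k1 (g + 2) (by linarith only [hg, g10, p1])])
    unfold V; linarith only [u1, uρ, r1, r2, h2, h3, h4]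
  obtain ⟨yM, hy⟩ := hy h1
  obtain h2 := int w _ _ st i4 yz lk.qual lk.nq l h1 lw 2 (by norm_num) (by omega) g g0
    (by unfold EK.g3; linarith only [hg, g10, p1, p6])
  obtain h3 := okn_early fa nu tm yM.le (a := k.G + (g + k.g + 3) * k.k1)
    (by unfold EK.G; linarith only [g10, p3, p5, hg, p1, k1 (g + k.g + 3) (by linarith only [hg, g10, p1])])
  obtain i4' : (4 : ℝ) ≤ kk w := by exact_mod_cast i4
  obtain h4 : 4 / 7 ≤ 2 * ((kk w : ℝ) - 2) / (2 * kk w - 1) := by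
    rw [le_div_iff₀ (by linarith only [i4'])]; linarith only [i4']
  have R0 := fa.ok.R0 (yy w)
  have h5 := mul_le_mul_of_nonneg_right h4 R0
  unfold V at h2 ⊢
  push_cast at h2
  rcases (show c = yy w ∨ c < yy w by omega) with h6 | h6
  · rw [← h6] at h2 h3 h5
    linarith only [u1, uρ, r1, r2, h2, h3, h5]
  · obtain h7 := fa.ml c _ h6 (by omega) 0 1 le_rfl (by positivity) (by linarith only [K10]) le_rfl
    obtain h8 := okn_early fa nu tm cM.le (a := (0 + 2) * k.k1)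
      (by linarith only [g10, p5, p1, k1 (0 + 2) (by linarith only [g10, p1])])
    have h9 := hy h6
    linarith only [u1, uρ, r2, h2, h3, h5, h7, h8, h9]

variable (k S La)

theorem okn : S.OKN_s k La := by
  intro A n Z kk pv yy M z h c hc
  obtain ⟨cM, hc⟩ := hc
  have ch := h.ch
  have Mn := h.tm.Mn
  obtain ⟨w, hw, hmin⟩ := exists_min_image (Z.filter (c < ·)) id
    ⟨n, mem_filter.2 ⟨ch.nZ, by omega⟩⟩
  obtain ⟨wZ, cw⟩ := mem_filter.1 hw
  have hm : ∀ x ∈ Z, c < x → w ≤ x := fun x h1 h2 => hmin x (mem_filter.2 ⟨h1, h2⟩)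
  obtain key : w ≠ A ∧ (c = pv w ∨ c = yy w) := by
    rcases hc with hc | ⟨-, x, xZ, xA, hx⟩
    · obtain wA : w ≠ A := by have := (ch.mem c hc).1; omega
      obtain ⟨pZ, -, lk, ls⟩ := ch.lk w wZ wA
      have := hm _ pZ; have := ls c hc; have := lk.vy; have := lk.yz
      exact ⟨wA, .inl (by omega)⟩
    · obtain ⟨pZ, -, lk, ls⟩ := ch.lk x xZ xA
      have := hm x xZ; have := ls w wZ; have := lk.vy; have := lk.yz
      obtain e : w = x := by omega
      exact ⟨e ▸ xA, .inr (e ▸ hx.symm)⟩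
  obtain ⟨wA, hcw⟩ := key
  obtain nc : ∀ b, (S.cdN k A Z yy M).nocut (c + 1) b → b ≤ M → b ≤ w ∧
      (yy w < b → c < yy w → S.R (yy w) < k.u) := fun b h1 h2 =>
    ⟨not_lt.1 fun h3 => h1 w cw h3 ⟨by omega, .inl wZ⟩, fun h3 h4 => not_le.1 fun h5 =>
      h1 _ h4 h3 ⟨by omega, .inr ⟨h5, w, wZ, wA, rfl⟩⟩⟩
  obtain g0 : 0 ≤ k.g := by linarith only [h.fa.g10]
  refine ⟨fun l cl hd hn => ?_, fun hn l h1 h2 => ?_⟩
  · have lM : l < M := hd.1
    obtain ⟨a, b⟩ := nc l hn lM.le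
    simpa using okn_core h cM wZ wA hcw cl a (fun h1 => ⟨by omega, b h1⟩) le_rfl
      (by unfold EK.g2; (clear * -; positivity))
  · obtain ⟨a, b⟩ := nc M hn le_rfl
    have h1 : M ≤ l := h1
    obtain ⟨-, -, lk, ls⟩ := ch.lk z h.zZ h.zA
    obtain e : w = z := by
      have := hm z h.zZ; have := ls w wZ; have := h.pz; have := h.Mz; omega
    subst e
    have yz := lk.yz
    obtain g1 : (1 : ℝ) ≤ k.g := by linarith only [h.fa.g10]
    obtain p : k.g ^ 2 ≤ k.g ^ 4 := pow_le_pow_right₀ g1 (by norm_num)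
    obtain p0 : 0 ≤ k.g ^ 2 := by positivity
    obtain hE : l ≤ w ∧ (yy w < l → yy w < M) := by
      unfold EN at h2; split_ifs at h2 <;> omega
    obtain hg : 0 ≤ gN k (yy w) M ∧ gN k (yy w) M ≤ k.g2 := by
      unfold gN EK.g1 EK.g2; split_ifs <;> constructor <;> linarith only [p0, p]
    obtain this := okn_core h cM wZ wA hcw (by omega) hE.1 (fun h3 => ⟨hE.2 h3, b (hE.2 h3)⟩) hg.1 hg.2
    unfold V at this
    unfold τ; push_cast; linarith only [this]

end Sk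
end
end Pool.Agent.MP_9cbfe4_an.E

end

/-! ### Part EAmidt -/

section

/-! Row EAmidt of section E-A: the triple flat case in the common form `Mid`. -/

namespace Pool.Agent.MP_9cbfe4_an.E

open Finset
open scoped Classical

noncomputable section

namespace Sk
variable {k : Par} {S : Sk} {La : ℕ → ℕ → ℝ}

lemma midt_pw {g : ℝ} (hg : 10 ≤ g) {a b : ℕ} (h : a ≤ b) : g ^ a ≤ g ^ b :=
  pow_le_pow_right₀ (by linarith only [hg]) h

lemma midt_σ0 (hF : S.Fa k.toEK) {l : ℕ} (hl : l < S.N) : 0 ≤ S.σ k.toEK l := by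
  have := hF.σΛ l hl
  have := hF.Λ10
  linarith

/-- the size of `u` and `ρ` -/
lemma midt_u (hN : k.Nu) : 10 ^ 10 ≤ k.u ∧ 10 ^ 10 * k.u ≤ k.ρ := by
  obtain hK : (10 : ℝ) ≤ k.K := by exact_mod_cast hN.ok.K10
  have hg := hN.ok.g10
  obtain h1 : 10 ^ 10 ≤ k.u := by have := hN.ok.big; nlinarith only [hK, this]
  refine ⟨h1, le_trans ?_ hN.ok.small⟩
  unfold Par.ς
  obtain h2 : (1 : ℝ) ≤ k.K * k.g * k.K := by nlinarith only [hK, hg, mul_le_mul hK hg (by norm_num) (by linarith only [hK])]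
  linarith only [h1, mul_le_mul_of_nonneg_right h2 (show 0 ≤ k.u by linarith only [h1])]

/-- early slacks are negligible -/
lemma midt_σ (hF : S.Fa k.toEK) (hN : k.Nu) {A n M : ℕ} (hT : S.Tm k A n M) {y : ℕ} (hy : y ≤ M)
    {c : ℝ} (hc : c ≤ 10 ^ 5 * k.g ^ 8) : c * S.σ k.toEK y ≤ k.u := by
  have hM : M < S.N := hT.Mn.trans_lt hT.nN
  have hg := hF.g10
  have h0 := midt_σ0 hF (hy.trans_lt hM)
  have h1 := hF.σhi y (hy.trans_lt hM)
  obtain h2 : k.sl (S.W y) ≤ k.φ := by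
    unfold Par.φ EK.sl
    have := (hF.mono y M hy hM.le).trans hT.early
    nlinarith only [this, sq_nonneg k.θ]
  obtain h3 : S.σ k.toEK y ≤ 3 * k.g * k.φ :=
    h1.trans (mul_le_mul_of_nonneg_left h2 (by unfold EK.k1; linarith only [hg]))
  obtain h4 : 0 ≤ k.g ^ 8 := by positivity
  obtain h5 : 0 ≤ k.φ := by nlinarith only [h0, h3, hg]
  obtain h6 : 0 ≤ k.g ^ 9 * k.φ := by positivity
  calc c * S.σ k.toEK y ≤ 10 ^ 5 * k.g ^ 8 * (3 * k.g * k.φ) :=
        mul_le_mul hc h3 h0 (by positivity)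
    _ = 3 * 10 ^ 5 * (k.g ^ 9 * k.φ) := by ring
    _ ≤ k.u := by have := hN.fine; linarith only [h6, this]

lemma midt_G (hF : S.Fa k.toEK) : 0 ≤ k.G ∧ k.G ≤ 10 ^ 5 * k.g ^ 8 ∧
    k.g + 5 * k.G ≤ 10 ^ 4 * k.g ^ 7 ∧ (k.g + 5 * k.G + 2) * k.k1 ≤ 10 ^ 5 * k.g ^ 8 ∧
    (k.g + 5 * k.G + 2) * k.k1 + 3 * k.c2 ≤ 10 ^ 5 * k.g ^ 8 ∧ 1 ≤ k.c2 ∧ k.c2 ≤ k.g3 ∧
    k.g ≤ k.g3 ∧ k.g * k.c2 = k.g3 := by
  have hg := hF.g10
  obtain p1 := midt_pw hg (show 1 ≤ 2 by norm_num)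
  obtain p2 := midt_pw hg (show 2 ≤ 3 by norm_num)
  obtain p3 := midt_pw hg (show 3 ≤ 4 by norm_num)
  obtain p4 := midt_pw hg (show 4 ≤ 5 by norm_num)
  obtain p5 := midt_pw hg (show 5 ≤ 6 by norm_num)
  obtain p6 := midt_pw hg (show 6 ≤ 7 by norm_num)
  obtain p7 := midt_pw hg (show 7 ≤ 8 by norm_num)
  rw [pow_one] at p1
  obtain e : (k.g + 5 * k.G + 2) * k.k1 = 3 * k.g ^ 2 + 90 * k.g ^ 4 + 6 * k.g := by
    unfold EK.G EK.k1; ring
  rw [e]
  unfold EK.G EK.c2 EK.g3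
  refine ⟨?_, ?_, ?_, ?_, ?_, ?_, ?_, ?_, by ring⟩ <;> linarith only [hg, p1, p2, p3, p4, p5, p6, p7]

/-- real elements after `y`: heavy ones are not deeper than `A`, light ones are absorbed -/
lemma midt_el (hF : S.Fa k.toEK) {A n : ℕ} (hC : S.ChainTF k.toEK La A n) (hn : n < S.N) {l : ℕ}
    (hl : l < n) {e : ℝ} (he0 : 0 ≤ e) (he : e ≤ 5) :
    k.g * S.σ k.toEK l + e * S.R l ≤ (k.g + 5 * k.G) * S.σ k.toEK l + e * S.R A := by
  have h0 := midt_σ0 hF (hl.trans hn)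
  have hG := mul_nonneg (midt_G hF).1 h0
  have hA := hF.ok.R0 A
  by_cases h : S.Heavy k.toEK l
  · have := mul_le_mul_of_nonneg_left (hC.deep l hl h) he0
    linarith only [hG, this]
  · have h1 : S.R l ≤ k.G * S.σ k.toEK l := (not_le.1 h).le
    obtain this := mul_le_mul he h1 (hF.ok.R0 l) (by norm_num)
    linarith only [this, mul_nonneg he0 hA]

lemma midt_deep (hF : S.Fa k.toEK) (hN : k.Nu) {A n M : ℕ} (hC : S.ChainTF k.toEK La A n)
    (hT : S.Tm k A n M) {l : ℕ} (hl : l < M) (hu : k.u ≤ S.R l) : S.R l ≤ S.R A :=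
  hC.deep l (hl.trans_le hT.Mn) ((midt_σ hF hN hT hl.le (midt_G hF).2.1).trans hu)

lemma midt_rst (S : Sk) (A : ℕ) : S.R A ≤ S.Rst (A + 1) :=
  (le_fold_max _).2 (Or.inr ⟨A, self_mem_range_succ A, le_rfl⟩)

/-- the level at a terminal index before `n` -/
lemma midt_late (hF : S.Fa k.toEK) (hN : k.Nu) {A n M : ℕ} (hC : S.ChainTF k.toEK La A n)
    (hT : S.Tm k A n M) (hM : M < n) : k.Wc - 3 * k.ρ ≤ S.ω M := by
  obtain ⟨u1, u2⟩ := midt_u hN
  have hg := hF.g10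
  obtain hR : S.R M ≤ k.ρ := by
    by_cases h : S.Heavy k.toEK M
    · exact (hC.deep M hM h).trans hT.RA.2
    · have := midt_σ hF hN hT le_rfl (midt_G hF).2.1
      have h1 : S.R M ≤ k.G * S.σ k.toEK M := (not_le.1 h).le
      linarith only [u1, u2, this, h1]
  rcases hT.why with h | h | h
  · omega
  · unfold Par.Rs at h; linarith only [u1, u2, hR, h]
  · have h1 := hF.ok.dn M (hM.trans hT.nN)
    obtain h8 : (1 : ℝ) ≤ k.g ^ 8 := one_le_pow₀ (by linarith only [hg])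
    obtain h2 := midt_σ hF hN hT le_rfl (c := 1) (by linarith only [h8])
    linarith only [u1, u2, hR, h, h1, h2]

lemma midt_view (hF : S.Fa k.toEK) (hJ : S.Jet k.toEK La) {A n M : ℕ}
    (hC : S.ChainTF k.toEK La A n) (hT : S.Tm k A n M) :
    S.View k La ⟨M, fun c => c = A, fun _ _ => 0⟩ n (Function.update S.R n (S.Up k.toEK n)) k.g := by
  intro m hm j j1 j3 b h1 h2
  obtain ⟨-, -, -, -, -, c1, c2, c3, c4⟩ := midt_G hF
  obtain hj : (0 : ℝ) ≤ 2 * j - 1 := by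
    obtain this : (1 : ℝ) ≤ j := by exact_mod_cast j1
    linarith only [this]
  obtain K3 : 3 ≤ k.K := by have := hF.K10; omega
  have hM : M < S.N := hT.Mn.trans_lt hT.nN
  change m ≤ M at hm
  obtain tri : ∀ x, |La j m - La j x| ≤ Real.exp b → |La j x| ≤ Real.exp b →
      |La j m| ≤ 2 * Real.exp b := fun x a c => by
    have := abs_add_le (La j m - La j x) (La j x)
    rw [sub_add_cancel] at this
    linarith only [a, c, this]
  by_cases hA : m ≤ A
  · obtain H : ∀ l, m ≤ l → l ≤ A → k.g * k.c2 * S.σ k.toEK l + S.V (2 * j - 1) l ≤ b :=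
      fun l a c => by
        rw [c4]
        exact h1 l a (c.trans_lt hT.AM) fun x _ hx e => by change x = A at e; omega
    have HA := H A hA le_rfl
    have Hm := H m le_rfl hA
    unfold V at HA Hm
    refine tri A (hJ.two k.c2 c1 le_rfl A (hT.AM.trans hM) (S.R A) (hF.ok.R0 A) 3 K3 hC.flat m hA
      j j1 j3 b (S.R A) (hF.ok.R0 A) (Or.inl le_rfl) (by linarith only [HA])
      (fun x a c _ => H x a c.le) ?_) ((hC.flat j j1 j3).trans (Real.exp_le_exp.2 ?_))
    · linarith only [Hm, mul_nonneg hj (hF.ok.R0 m)]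
    · rw [c4] at HA
      linarith only [HA, mul_le_mul_of_nonneg_right c2 (midt_σ0 hF (hT.AM.trans hM))]
  · obtain nc : ∀ l, Cd.nocut ⟨M, fun c => c = A, fun _ _ => 0⟩ m l :=
      fun l x hx _ e => by change x = A at e; omega
    obtain H : ∀ l, m ≤ l → l ≤ n →
        S.τ k (Function.update S.R n (S.Up k.toEK n)) k.g j l ≤ b := fun l a c => by
      by_cases hl : l < M
      · have := h1 l a hl (nc l)
        unfold τ
        unfold V at this
        rw [Function.update_of_ne (hl.trans_le hT.Mn).ne]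
        linarith only [this, mul_le_mul_of_nonneg_right c3 (midt_σ0 hF (hl.trans hM))]
      · exact h2 (nc _) l (not_lt.1 hl) c
    have U0 := hC.tf.2.1
    have s0 := midt_σ0 hF hT.nN
    have Hn := H n (hm.trans hT.Mn) le_rfl
    have Hm := H m le_rfl (hm.trans hT.Mn)
    unfold τ at Hn Hm
    rw [Function.update_self] at Hn
    obtain R0 : 0 ≤ Function.update S.R n (S.Up k.toEK n) m := by
      rw [Function.update_apply]
      split_ifs
      exacts [U0, hF.ok.R0 m]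
    refine tri n (hJ.two 1 le_rfl c1 n hT.nN _ U0 3 K3
      (fun i a c => (hC.tf.2.2 i a c).trans (Real.exp_le_exp.2 (by linarith only [s0]))) m (hm.trans hT.Mn)
      j j1 j3 b _ U0 (Or.inl le_rfl) (by linarith only [Hn]) (fun x a c _ => ?_) ?_)
      ((hC.tf.2.2 j j1 j3).trans (Real.exp_le_exp.2 ?_))
    · have := H x a c.le
      unfold τ at this
      unfold V
      rw [Function.update_of_ne c.ne] at this
      linarith only [this]
    · linarith only [Hm, mul_nonneg hj R0]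
    · linarith only [Hn, mul_nonneg (show 0 ≤ k.g by have := hF.g10; linarith only [this]) s0]

lemma midt_okc (hF : S.Fa k.toEK) (hN : k.Nu) {A n M : ℕ}
    (hC : S.ChainTF k.toEK La A n) (hT : S.Tm k A n M) :
    S.Okc k ⟨M, fun c => c = A, fun _ _ => 0⟩ n (Function.update S.R n (S.Up k.toEK n)) k.g := by
  rintro c (rfl : c = A)
  obtain ⟨u1, u2⟩ := midt_u hN
  obtain ⟨G0, -, G2, G3, G4, -⟩ := midt_G hF
  have hg := hF.g10
  obtain hK : (10 : ℝ) ≤ k.K := by exact_mod_cast hF.K10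
  have r1 := midt_rst S c
  have r2 := hT.RA.1
  have s1 := midt_σ hF hN hT hT.AM.le G3
  obtain ml := fun l (a : c < l) (b : l < S.N) x (h1 : 1 / 2 ≤ x) (h2 : x ≤ 1) =>
    hF.ml c l a b (k.g + 5 * k.G) x (by linarith only [G0, hg]) G2 (by nlinarith only [hK, h1]) h2
  obtain real : ∀ l, c < l → l < n →
      k.g * S.σ k.toEK l + 3 * S.R l - S.ω l + S.ω c + S.R c ≤ 4 * S.Rst (c + 1) - k.ρ / 5 :=
    fun l a b => by
      obtain h1 := midt_el hF hC hT.nN b (e := 3) (by norm_num) (by norm_num)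
      obtain h2 := ml l a (b.trans hT.nN) 1 (by norm_num) le_rfl
      linarith only [u1, u2, r1, r2, s1, h1, h2]
  refine ⟨fun l a b _ => ?_, fun _ l a b => ?_⟩
  · have hl : l < n := b.1.trans_le hT.Mn
    have := real l a hl
    obtain this := mul_nonneg (show 0 ≤ k.g by linarith only [hg]) (midt_σ0 hF (hl.trans hT.nN))
    unfold V
    linarith
  · unfold τ
    rcases b.lt_or_eq with b | rfl
    · rw [Function.update_of_ne b.ne]
      have := real l (hT.AM.trans_le a) b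
      push_cast
      linarith only [this]
    · rw [Function.update_self]
      have h1 := hC.up
      obtain h2 := ml l hC.An hT.nN (1 / 2) le_rfl (by norm_num)
      have h3 := midt_σ hF hN hT hT.AM.le G4
      have h4 := mul_nonneg G0 (midt_σ0 hF hT.nN)
      push_cast
      linarith only [u1, u2, r1, r2, h1, h2, h3, h4]

lemma midt_fi (hF : S.Fa k.toEK) (hN : k.Nu) {A n M : ℕ}
    (hC : S.ChainTF k.toEK La A n) (hT : S.Tm k A n M) :
    S.Fi k M n (Function.update S.R n (S.Up k.toEK n)) k.g 4 0 := by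
  obtain ⟨u1, u2⟩ := midt_u hN
  obtain ⟨G0, -, G2, G3, -⟩ := midt_G hF
  have hg := hF.g10
  obtain hK : (10 : ℝ) ≤ k.K := by exact_mod_cast hF.K10
  have r2 := hT.RA
  have U0 := hC.tf.2.1
  have W0 := hF.W0 n hT.nN.le
  have hθ := hF.θpos
  obtain Kρ : 10 * k.ρ ≤ k.K * k.ρ := mul_le_mul_of_nonneg_right hK (by linarith only [u1, u2])
  obtain KR : k.K * k.ρ ≤ 2 * (k.K * S.R A) := by nlinarith only [u1, u2, Kρ, r2]
  obtain eU : 6 * S.Up k.toEK n = S.ω n - 10 ^ 5 * (k.K * S.R A) - k.θ * S.W n := by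
    unfold Up EK.C5
    rw [hC.rc]
    ring
  obtain eC : k.C5 * k.ρ = 10 ^ 5 * (k.K * k.ρ) := by unfold EK.C5; ring
  obtain eW : k.Wc = 10 ^ 7 * (k.K * k.ρ) := by unfold Par.Wc; ring
  have θW := mul_nonneg hθ.le W0
  obtain main : ∀ l, M ≤ l → l ≤ n → ∀ e : ℝ, 0 ≤ e → e ≤ 5 → k.g * S.σ k.toEK l
      + e * Function.update S.R n (S.Up k.toEK n) l - S.ω l ≤ -(k.C5 * k.ρ / 4) := by
    intro l a b e e0 e5
    rcases b.lt_or_eq with b | rfl
    · rw [Function.update_of_ne b.ne]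
      have h1 := midt_el hF hC hT.nN b e0 e5
      obtain h2 := hF.ml0 M l a (b.trans hT.nN) (k.g + 5 * k.G) 1 (by linarith only [G0, hg]) G2 (by linarith only [hK]) le_rfl
      have h3 := midt_σ hF hN hT le_rfl G3
      have h4 := midt_late hF hN hC hT (a.trans_lt b)
      obtain h5 := mul_le_mul e5 r2.2 (hF.ok.R0 A) (by norm_num)
      linarith only [u1, u2, Kρ, eC, eW, h1, h2, h3, h4, h5]
    · rw [Function.update_self]
      obtain h1 := mul_le_mul_of_nonneg_left (hF.σD l hC.tf.1) (show 0 ≤ k.g by linarith only [hg])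
      obtain h2 : 12 * k.g ^ 3 * k.θ ≤ 1 := by
        refine le_trans (mul_le_mul_of_nonneg_right ?_ hθ.le) hF.θH
        obtain p := midt_pw hg (show 3 ≤ 10 by norm_num)
        obtain q : 0 ≤ k.g ^ 10 := by positivity
        obtain q2 : (1 : ℝ) ≤ (k.K : ℝ) ^ 2 := one_le_pow₀ (by linarith only [hK])
        linarith only [p, q, q2, mul_le_mul_of_nonneg_right q2 q]
      have h3 := mul_le_mul_of_nonneg_right h2 θW
      have h4 := mul_le_mul_of_nonneg_right e5 U0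
      obtain h5 : k.g * (12 * k.g ^ 2 * k.θ ^ 2 * S.W l) = 12 * k.g ^ 3 * k.θ * (k.θ * S.W l) := by
        ring
      linarith only [u1, u2, Kρ, KR, eC, U0, eU, h1, h3, h4]
  refine ⟨fun l a b => ?_, Or.inl ?_⟩
  · rw [zero_mul, zero_mul, add_zero]
    unfold τ Par.far
    exact ⟨Real.exp_le_exp.2 (main l a b _ (by norm_num) (by norm_num)),
      Real.exp_le_exp.2 (main l a b _ (by norm_num) (by norm_num))⟩
  · rcases hT.Mn.lt_or_eq with h | rfl
    · have := midt_late hF hN hC hT h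
      linarith only [u1, u2, Kρ, eC, eW, this]
    · linarith only [KR, eC, U0, eU, θW]

variable (k S La) in
theorem midt : S.MIDT_s k La := by
  intro hF hJ hN A n M hC hT
  obtain ⟨u1, u2⟩ := midt_u hN
  have hg := hF.g10
  refine ⟨⟨M, fun c => c = A, fun _ _ => 0⟩, n, Function.update S.R n (S.Up k.toEK n), k.g, rfl,
    hT, hC.isRec, hC.str, hT.Mn, le_rfl, ⟨by linarith only [hg], (midt_G hF).2.2.2.2.2.2.2.1⟩, fun l => ?_,
    rfl, ?_, midt_view hF hJ hC hT, midt_okc hF hN hC hT, fun B _ => ⟨4, 0, le_rfl, ?_, le_rfl,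
      fun l _ b _ => Or.inl (((midt_deep hF hN hC hT b.1 b.2).trans hT.RA.2).trans
        (le_max_right _ _)), fun m _ _ _ => Or.inl (by (clear * -; positivity)),
      fun _ => midt_fi hF hN hC hT⟩⟩
  · rw [Function.update_apply]
    split_ifs
    exacts [hC.tf.2.1, hF.ok.R0 l]
  · rintro c (rfl : c = A)
    exact ⟨hT.AM, by have := hT.RA.1; linarith only [u1, u2, this]⟩
  · have := hF.K10
    omega

end Sk

end
end Pool.Agent.MP_9cbfe4_an.E

end

/-! ### Part EAasm -/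

section

/-! Section E-A of THM-2, row ASM: from the common form `Mid` to the chain data `Cd.OK`. -/

namespace Pool.Agent.MP_9cbfe4_an.E

open Finset
open scoped Classical

namespace EAasm

variable {k : Par} {S : Sk} {La : ℕ → ℕ → ℝ}

theorem nums (h : k.Nu) : 100 ≤ k.u ∧ 40 * k.u ≤ k.ς ∧ k.ς ≤ k.Wc ∧ k.Λ ≤ k.φ ∧ k.φ ≤ k.u ∧
    (k.g3 + 2) * k.k1 * (k.k1 * k.φ) ≤ k.u ∧ 1 ≤ k.k1 ∧ 0 ≤ k.g3 ∧ k.g3 ≤ 10 ^ 4 * k.g ^ 7 := by
  obtain K1 : (10 : ℝ) ≤ k.K := by exact_mod_cast h.ok.K10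
  have g1 := h.ok.g10
  obtain hu : 100 ≤ k.u := by nlinarith only [K1, h.ok.big]
  obtain hς : 40 * k.u ≤ k.ς := by unfold Par.ς; nlinarith only [K1, hu]
  obtain hρ : k.ς ≤ k.ρ := by
    obtain a : (1 : ℝ) ≤ 10 ^ 11 * k.K * k.g := by nlinarith only [K1, g1]
    nlinarith only [K1, g1, hu, a, hς, h.ok.small]
  obtain hW : k.ρ ≤ k.Wc := by unfold Par.Wc; nlinarith only [K1, hu, hς, hρ]
  obtain hΛ : k.Λ ≤ k.φ := by
    unfold Par.φ EK.sl
    obtain this : 0 ≤ k.θ ^ 2 * k.Wc := mul_nonneg (sq_nonneg _) (by linarith only [hu, hς, hρ, hW])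
    linarith only [this]
  obtain φ0 : 0 ≤ k.φ := by linarith only [hΛ, h.ok.Λ1]
  obtain g0 : (1 : ℝ) ≤ k.g := by linarith only [g1]
  have p6 : (1 : ℝ) ≤ k.g ^ 6 := one_le_pow₀ g0
  have p9 : (1 : ℝ) ≤ k.g ^ 9 := one_le_pow₀ g0
  obtain p89 : k.g ^ 8 ≤ k.g ^ 9 := pow_le_pow_right₀ g0 (by norm_num)
  obtain p29 : k.g ^ 2 ≤ k.g ^ 9 := pow_le_pow_right₀ g0 (by norm_num)
  obtain p67 : k.g ^ 6 ≤ k.g ^ 7 := pow_le_pow_right₀ g0 (by norm_num)
  have f := h.fine
  refine ⟨hu, hς, hρ.trans hW, hΛ, by nlinarith only [hu, f, φ0, p9], ?_, ?_, ?_, ?_⟩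
  · obtain e : (k.g3 + 2) * k.k1 * (k.k1 * k.φ) = (972 * k.g ^ 8 + 18 * k.g ^ 2) * k.φ := by
      unfold EK.g3 EK.k1; ring
    obtain a : (972 * k.g ^ 8 + 18 * k.g ^ 2) * k.φ ≤ 10 ^ 6 * k.g ^ 9 * k.φ :=
      mul_le_mul_of_nonneg_right (by linarith only [p9, p89, p29]) φ0
    linarith only [f, e, a]
  · unfold EK.k1; linarith only [g1]
  · unfold EK.g3; linarith only [p6]
  · unfold EK.g3; linarith only [p6, p67]

/-- the slack of an early index -/
theorem slack (F : S.Fa k.toEK) (h : k.Nu) {y : ℕ} (hy : y < S.N) (hW : S.W y ≤ k.Wc) {g : ℝ}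
    (g0 : 0 ≤ g) (g1 : g ≤ k.g3) : (g + 2) * k.k1 * S.σ k.toEK y ≤ k.u ∧ g * S.σ k.toEK y ≤ k.u := by
  obtain ⟨-, -, -, -, -, a, b, c, -⟩ := nums h
  obtain s0 : 0 ≤ S.σ k.toEK y := by linarith only [F.σΛ y hy, F.Λ10]
  obtain s1 : k.sl (S.W y) ≤ k.φ := by
    unfold Par.φ EK.sl
    nlinarith only [hW, sq_nonneg k.θ]
  obtain s2 : S.σ k.toEK y ≤ k.k1 * k.φ :=
    (F.σhi y hy).trans (mul_le_mul_of_nonneg_left s1 (by linarith only [b]))
  obtain s3 : (g + 2) * k.k1 * S.σ k.toEK y ≤ (k.g3 + 2) * k.k1 * (k.k1 * k.φ) :=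
    mul_le_mul (mul_le_mul_of_nonneg_right (by linarith only [g1]) (by linarith only [b])) s2 s0 (by positivity)
  obtain s4 : g * S.σ k.toEK y ≤ (g + 2) * k.k1 * S.σ k.toEK y :=
    mul_le_mul_of_nonneg_right (by nlinarith only [b, g0]) s0
  exact ⟨s3.trans a, s4.trans (s3.trans a)⟩

/-- master lemma with the coarse slack -/
theorem ml (F : S.Fa k.toEK) (h : k.Nu) {y l : ℕ} (hy : y ≤ l) (hl : l < S.N) (hW : S.W y ≤ k.Wc)
    {g a : ℝ} (g0 : 0 ≤ g) (g1 : g ≤ k.g3) (a0 : 1 / 3 ≤ a) (a1 : a ≤ 1) :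
    g * S.σ k.toEK l - a * S.ω l ≤ k.u - a * S.ω y := by
  obtain K1 : (10 : ℝ) ≤ k.K := by exact_mod_cast F.K10
  obtain this := F.ml0 y l hy hl g a g0 (g1.trans (nums h).2.2.2.2.2.2.2.2) (by nlinarith only [K1, a0]) a1
  linarith only [this, (slack F h (hy.trans_lt hl) hW g0 g1).1]

theorem three (x : ℝ) : 3 * Real.exp (x - 2) ≤ Real.exp x := by
  have a := Real.add_one_le_exp (2 : ℝ)
  obtain e : Real.exp x = Real.exp 2 * Real.exp (x - 2) := by rw [← Real.exp_add]; congr 1; ring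
  rw [e]
  exact mul_le_mul_of_nonneg_right (by linarith only [a]) (Real.exp_pos _).le

/-- the numbers `tt` -/
theorem exists_tt (k : Par) (S : Sk) (d : Cd) (hc : ∀ c, d.cut c → d.deep k S c) (v : ℕ → ℝ) (t : ℝ) :
    ∃ tt : ℕ → ℝ, tt d.M = t ∧ (∀ m l, m ≤ l → d.deep k S l → d.nocut m l → v l ≤ tt m) ∧
      (∀ m ≤ d.M, d.nocut m d.M → t ≤ tt m) ∧
      ∀ m ≤ d.M, (∃ l, m ≤ l ∧ d.deep k S l ∧ d.nocut m l ∧ tt m = v l) ∨
        (d.nocut m d.M ∧ tt m = t) := by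
  obtain key : ∀ m, ∃ x : ℝ, m ≤ d.M → ((∀ l, m ≤ l → d.deep k S l → d.nocut m l → v l ≤ x) ∧
      (d.nocut m d.M → t ≤ x) ∧
      ((∃ l, m ≤ l ∧ d.deep k S l ∧ d.nocut m l ∧ x = v l) ∨ (d.nocut m d.M ∧ x = t))) := by
    intro m
    by_cases hm : m ≤ d.M
    swap
    · exact ⟨0, fun h => absurd h hm⟩
    let T := (range (d.M + 1)).filter fun l => m ≤ l ∧ d.nocut m l ∧ (d.deep k S l ∨ l = d.M)
    obtain hT : ∀ l, l ∈ T ↔ l < d.M + 1 ∧ m ≤ l ∧ d.nocut m l ∧ (d.deep k S l ∨ l = d.M) :=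
      fun l => by simp only [T, mem_filter, mem_range]
    obtain ne : T.Nonempty := by
      by_cases hn : d.nocut m d.M
      · exact ⟨d.M, (hT _).2 ⟨by omega, hm, hn, .inr rfl⟩⟩
      · obtain ex : ∃ c, m ≤ c ∧ d.cut c := by
          by_contra hx
          exact hn fun c h1 _ h2 => hx ⟨c, h1, h2⟩
        have s := Nat.find_spec ex
        have dp := hc _ s.2
        exact ⟨Nat.find ex, (hT _).2 ⟨by have := dp.1; omega, s.1,
          fun c h1 h2 h3 => Nat.find_min ex h2 ⟨h1, h3⟩, .inl dp⟩⟩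
    obtain ⟨l0, h0, hmax⟩ := T.exists_max_image (fun l => if l = d.M then t else v l) ne
    obtain ⟨-, b1, b2, b3⟩ := (hT _).1 h0
    refine ⟨if l0 = d.M then t else v l0, fun _ => ⟨fun l h1 h2 h3 => ?_, fun hn => ?_, ?_⟩⟩
    · obtain this := hmax l ((hT _).2 ⟨by have := h2.1; omega, h1, h3, .inl h2⟩)
      rwa [if_neg h2.1.ne] at this
    · obtain this := hmax d.M ((hT _).2 ⟨by omega, hm, hn, .inr rfl⟩)
      rwa [if_pos rfl] at this
    · by_cases e : l0 = d.M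
      · exact .inr ⟨e ▸ b2, if_pos e⟩
      · exact .inl ⟨l0, b1, b3.resolve_right e, b2, if_neg e⟩
  choose tt htt using key
  refine ⟨tt, ?_, fun m l h1 h2 h3 => (htt m (h1.trans h2.1.le)).1 l h1 h2 h3,
    fun m hm => (htt m hm).2.1, fun m hm => (htt m hm).2.2⟩
  rcases (htt d.M le_rfl).2.2 with ⟨l, h1, h2, -⟩ | h
  · exact absurd h2.1 (not_lt.2 h1)
  · exact h.2

end EAasm

open EAasm in
theorem Sk.asm (k : Par) (S : Sk) (La : ℕ → ℕ → ℝ) : S.ASM_s k La := by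
  intro F h A n d E R' gE m nc bs fw
  obtain ⟨u1, u2, u3, u4, u5, -, -, g3, -⟩ := nums h
  have MN : d.M < S.N := m.tm.Mn.trans_lt m.tm.nN
  have EN : E < S.N := m.En.trans_lt m.tm.nN
  have early : ∀ l ≤ d.M, S.W l ≤ k.Wc := fun l hl => (F.mono l _ hl MN.le).trans m.tm.early
  obtain ωhi : ∀ l ≤ d.M, S.ω l ≤ k.Wc + k.u := fun l hl => by
    linarith only [u4, u5, F.ok.hi l (hl.trans MN.le), early l hl]
  obtain ht : ∀ j : ℕ, ∃ l, (d.M ≤ l ∧ l ≤ E) ∧
      ∀ l', d.M ≤ l' → l' ≤ E → S.τ k R' gE j l' ≤ S.τ k R' gE j l := fun j => by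
    obtain ⟨l, h1, h2⟩ := (Icc d.M E).exists_max_image (S.τ k R' gE j) ⟨_, mem_Icc.2 ⟨le_rfl, m.ME⟩⟩
    exact ⟨l, mem_Icc.1 h1, fun l' a b => h2 l' (mem_Icc.2 ⟨a, b⟩)⟩
  choose lt hl hmax using ht
  choose tt tM tA tB tC using fun j : ℕ =>
    exists_tt k S d m.cutd (S.V (2 * j - 1)) (S.τ k R' gE j (lt j))
  obtain σ0 : ∀ l < S.N, 0 ≤ S.σ k.toEK l := fun l hl => by linarith only [F.σΛ l hl, F.Λ10]
  refine ⟨tt, fun La' cl => ?_⟩
  -- from `View` to the jets of the other seed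
  obtain view : ∀ m' ≤ d.M, ∀ j : ℕ, 1 ≤ j → j ≤ 3 → ∀ X : ℝ, -S.ω m' ≤ X →
      (∀ l, m' ≤ l → d.deep k S l → d.nocut m' l →
        k.g3 * S.σ k.toEK l + S.V (2 * j - 1) l ≤ k.u + X) →
      (d.nocut m' d.M → ∀ l, d.M ≤ l → l ≤ E → S.τ k R' gE j l ≤ k.u + X) →
      |La' j m'| ≤ Real.exp (k.ς + X) := by
    intro m' hm j j1 j3 X hX h1 h2
    have a := m.view m' hm j j1 j3 (k.ς + X - 2) (fun l b1 b2 b3 => ?_)
      fun b l b1 b2 => by linarith only [u1, u2, h2 b l b1 b2]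
    · obtain b := cl j j1 (j3.trans (by linarith only [F.K10])) m' (hm.trans MN.le) (early m' hm)
      obtain c : Real.exp (-2 * k.Wc) ≤ Real.exp (k.ς + X - 2) :=
        Real.exp_le_exp.2 (by linarith only [u1, u2, u3, hX, ωhi m' hm])
      have e := abs_sub_abs_le_abs_sub (La' j m') (La j m')
      linarith only [a, b, c, e, three (k.ς + X)]
    · by_cases dp : d.deep k S l
      · linarith only [u1, u2, h1 l b1 dp b3]
      · have r : S.R l ≤ k.u := le_of_not_ge fun r => dp ⟨b2, r⟩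
        obtain q := ml F h b1 (b2.trans MN) (early m' hm) g3 le_rfl (a := 1) (by norm_num) le_rfl
        obtain j3' : (j : ℝ) ≤ 3 := by exact_mod_cast j3
        obtain j1' : (1 : ℝ) ≤ j := by exact_mod_cast j1
        obtain r5 : (2 * (j : ℝ) - 1) * S.R l ≤ 5 * k.u :=
          mul_le_mul (by linarith only [j3']) r (F.ok.R0 l) (by norm_num)
        unfold Sk.V
        linarith only [u1, u2, hX, q, r5]
  refine ⟨MN.le, m.tm.early, m.tm.cap, ?_, m.cutd, fun j _ => tA j, fun j _ m' hm hn => ?_,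
    fun j _ m' hm => ?_, ?_, ?_, fun m' e h1 h2 nd => ?_, fun j hj m' hm => ?_, fun c hc => ?_,
    fun B hB => ?_, bs, fun x hx hn => ?_⟩
  · refine le_trans (le_of_eq ?_) fw
    congr 3
    exact filter_congr fun l _ => Iff.rfl
  · exact (tM j).trans_le (tB j m' hm hn)
  · exact (tC j m' hm).imp id fun a => ⟨a.1, a.2.trans (tM j).symm⟩
  · change -S.ω d.M ≤ tt 2 d.M
    have a := hmax 2 d.M le_rfl m.ME
    have b := mul_nonneg m.gE0.1 (σ0 _ MN)
    have c := m.R0 d.M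
    rw [tM]
    unfold Sk.τ at a ⊢
    push_cast at a ⊢
    linarith only [a, b, c]
  · change (4 * tt 2 d.M + S.ω d.M) / 3 ≤ tt 3 d.M + k.ς
    have a := hmax 3 (lt 2) (hl 2).1 (hl 2).2
    obtain q := ml F h (hl 2).1 ((hl 2).2.trans_lt EN) m.tm.early (g := gE / 3) (a := 1 / 3)
      (by linarith only [m.gE0.1]) (by linarith only [g3, m.gE0.1, m.gE0.2]) le_rfl (by norm_num)
    have c := m.R0 (lt 2)
    rw [tM, tM]
    refine le_trans ?_ (add_le_add a le_rfl)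
    unfold Sk.τ
    push_cast
    linarith only [u1, u2, q, c]
  · refine view m' (h1.trans h2) 1 le_rfl (by norm_num) _ (le_max_right _ _)
      (fun l b1 b2 b3 => ?_) fun b l b1 b2 => ?_
    · have el : e ≤ l := le_of_not_gt fun r => nd l b1 r b2
      have a := tA 2 m' l b1 b2 b3
      obtain q := ml F h el (b2.1.trans MN) (early e h2) g3 le_rfl (a := 2 / 3) (by norm_num)
        (by norm_num)
      refine le_trans ?_ (add_le_add le_rfl (le_max_left _ _))
      change _ ≤ k.u + (tt 2 m' - 2 * S.ω e) / 3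
      unfold Sk.V at a ⊢
      push_cast at a ⊢
      linarith only [a, q]
    · have a := (hmax 2 l b1 b2).trans (tB 2 m' (h1.trans h2) b)
      obtain q := ml F h (h2.trans b1) (b2.trans_lt EN) (early e h2) (g := 2 / 3 * gE) (a := 2 / 3)
        (by linarith only [m.gE0.1]) (by linarith only [g3, m.gE0.1, m.gE0.2]) (by norm_num) (by norm_num)
      refine le_trans ?_ (add_le_add le_rfl (le_max_left _ _))
      change _ ≤ k.u + (tt 2 m' - 2 * S.ω e) / 3
      unfold Sk.τ at a ⊢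
      push_cast at a ⊢
      linarith only [a, q]
  · refine view m' hm j (by omega) (by omega) _ (le_max_right _ _)
      (fun l b1 b2 b3 => ?_) fun b l b1 b2 => ?_
    · have a := (tA j m' l b1 b2 b3).trans (le_max_left _ (-S.ω m'))
      linarith only [a, (slack F h (b2.1.trans MN) (early l b2.1.le) g3 le_rfl).2]
    · have a := ((hmax j l b1 b2).trans (tB j m' hm b)).trans (le_max_left _ (-S.ω m'))
      linarith only [u1, a]
  · change tt 2 (c + 1) + _ + _ ≤ _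
    rcases tC 2 (c + 1) (m.cutd c hc).1 with ⟨l, b1, b2, b3, b4⟩ | ⟨b1, b2⟩
    · have a := (m.okc c hc).1 l b1 b2 b3
      rw [b4]
      norm_num
      exact a
    · rw [b2]
      exact (m.okc c hc).2 b1 _ (hl 2).1 (hl 2).2
  · obtain ⟨kk, TT, b1, b2, b3, b4, b5, b6⟩ := m.lnk B hB
    refine ⟨kk, TT, b1, b2, b3, b4, fun m' c1 c2 c3 => ?_, fun c => ?_⟩
    · rcases b5 m' c1 c2 c3 with a | a
      · obtain b := cl kk (by omega) b2 m' (c2.trans MN.le) (early m' c2)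
        have e := abs_sub_abs_le_abs_sub (La kk m') (La' kk m')
        rw [abs_sub_comm] at e
        by_cases r : Real.exp (-2 * k.Wc) ≤ |La' kk m'|
        · exact .inl (by linarith only [a, b, e, r])
        · obtain c : Real.exp (-2 * k.Wc) ≤ Real.exp (k.ς - S.ω m' - 2 - 2) :=
            Real.exp_le_exp.2 (by linarith only [u1, u2, u3, ωhi m' c2])
          have p := Real.exp_pos (k.ς - S.ω m' - 2 - 2)
          exact .inr (by linarith only [a, b, e, r, c, p, three (k.ς - S.ω m'), three (k.ς - S.ω m' - 2)])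
      · exact .inr a
    · obtain ⟨f1, f2⟩ := b6 c
      refine ⟨?_, ?_, f2.imp id fun a => ?_⟩
      · exact (congrArg Real.exp (tM 2)).trans_le (f1 _ (hl 2).1 (hl 2).2).1
      · exact (congrArg Real.exp (tM 3)).trans_le (f1 _ (hl 3).1 (hl 3).2).2
      · change Real.exp ((tt 2 d.M - 2 * S.ω d.M) / 3) ≤ _
        rw [tM]
        exact a _ (hl 2).1 (hl 2).2
  · obtain ⟨n1, n2, n3, n4⟩ := hn
    have hx' : x < d.M := hx
    refine nc x (hx'.trans_le m.tm.Mn) ⟨n1, n2, n3, fun j j1 j2 => ?_⟩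
    have b := cl j j1 j2 (x + 1) n1 (early _ hx')
    have e := abs_sub_abs_le_abs_sub (La j (x + 1)) (La' j (x + 1))
    rw [abs_sub_comm] at e
    obtain θ1 : k.θ ≤ 1 := by
      obtain K1 : (10 : ℝ) ≤ k.K := by exact_mod_cast F.K10
      obtain p : (1 : ℝ) ≤ k.g ^ 10 := one_le_pow₀ (by linarith only [F.g10])
      obtain q : (1 : ℝ) ≤ 10 ^ 20 * (k.K : ℝ) ^ 2 * k.g ^ 10 := by nlinarith only [K1, p]
      nlinarith only [K1, p, q, F.θH, F.θpos]
    obtain j1' : (1 : ℝ) ≤ j := by exact_mod_cast j1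
    obtain r : 0 ≤ (2 * (j : ℝ) - 1 - k.θ) * S.R x := mul_nonneg (by linarith only [θ1, j1']) n2.le
    obtain c : Real.exp (-2 * k.Wc) ≤ Real.exp ((2 * j - 1 - k.θ) * S.R x - S.ω x - 2) :=
      Real.exp_le_exp.2 (by linarith only [u1, u2, u3, r, ωhi x hx'.le])
    have p := Real.exp_pos ((2 * j - 1 - k.θ) * S.R x - S.ω x - 2)
    linarith only [b, e, c, p, three ((2 * j - 1 - k.θ) * S.R x - S.ω x), n4 j j1 j2]

end Pool.Agent.MP_9cbfe4_an.E

end

/-! ### Part EAnum -/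

section

/-! Row NUM of section E-A: `ρ`, the terminal index and the pigeonhole for the threshold. -/

namespace Pool.Agent.MP_9cbfe4_an.E

open Finset
open scoped Classical

theorem num_fine {K g θ Λ ρ P Q : ℝ} (hK : 1 ≤ K) (hg : 1 ≤ g) (h0 : 0 < θ) (hQ : 0 < Q)
    (hP : Q ≤ P) (hθ : θ * (10 ^ 40 * K ^ 6 * g ^ 4 * P) ≤ 1)
    (H : 10 ^ 20 * K ^ 2 * g ^ 10 * θ ≤ 1) (hρ : Λ ≤ 10 ^ 7 * K * θ ^ 2 * ρ) (ρ0 : 0 ≤ ρ) :
    10 ^ 6 * g ^ 9 * (θ ^ 2 * (10 ^ 7 * K * ρ) + Λ) ≤ 1 / (10 ^ 12 * K ^ 2 * g) / Q * ρ := by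
  obtain a1 : θ * (10 ^ 7 * K ^ 3 * Q) ≤ 1 := by
    refine le_trans ?_ hθ
    have b : (1 : ℝ) ≤ g ^ 4 := one_le_pow₀ hg
    calc θ * (10 ^ 7 * K ^ 3 * Q) = θ * (10 ^ 7 * K ^ 3 * 1 * Q) := by ring
      _ ≤ _ := by gcongr <;> norm_num
  obtain a2 : 10 ^ 20 * g ^ 10 * θ ≤ 1 := by
    refine le_trans ?_ H
    have b : (1 : ℝ) ≤ K ^ 2 := one_le_pow₀ hK
    calc 10 ^ 20 * g ^ 10 * θ = 10 ^ 20 * 1 * g ^ 10 * θ := by ring
      _ ≤ _ := by gcongr
  obtain e : 1 / (10 ^ 12 * K ^ 2 * g) / Q * ρ = ρ / (10 ^ 12 * K ^ 2 * g * Q) := by field_simp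
  rw [e, le_div_iff₀ (by positivity)]
  calc _ ≤ 10 ^ 6 * g ^ 9 * (10 ^ 9 * K * θ ^ 2 * ρ) * (10 ^ 12 * K ^ 2 * g * Q) := by
        gcongr
        obtain this : 0 ≤ K * θ ^ 2 * ρ := by positivity
        linarith only [hρ, this]
    _ = θ * (10 ^ 7 * K ^ 3 * Q) * (10 ^ 20 * g ^ 10 * θ) * ρ := by ring
    _ ≤ 1 * 1 * ρ := by gcongr
    _ = ρ := by ring

theorem Sk.num (k : EK) (S : Sk) (par : PAR_s) : S.NUM_s k := by
  intro h fa A n hA hs An nN
  obtain hK10 : (10 : ℝ) ≤ k.K := by exact_mod_cast h.K10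
  obtain hK : (1 : ℝ) ≤ k.K := by linarith only [hK10]
  have hg := h.g10
  obtain g1 : 1 ≤ k.g := by linarith only [hg]
  have h0 := h.θpos
  obtain θ0 : 0 < k.θ ^ 2 := by positivity
  have ok := fa.ok
  have AN : A < S.N := hA.1.1
  have RA : 0 < S.R A := hA.1.2
  have r1 : S.R A ≤ (⌈S.R A⌉₊ : ℝ) := Nat.le_ceil _
  obtain r2 : (⌈S.R A⌉₊ : ℝ) - 1 ≤ S.R A := by linarith only [Nat.ceil_lt_add_one RA.le]
  generalize (⌈S.R A⌉₊ : ℝ) = ρ at r1 r2 ⊢
  obtain ρ0 : 0 < ρ := by linarith only [RA, r1]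
  obtain θ1 : k.θ ≤ 1 := by
    have a := fa.θH
    have b : (1 : ℝ) ≤ (k.K : ℝ) ^ 2 * k.g ^ 10 :=
      one_le_mul_of_one_le_of_one_le (one_le_pow₀ hK) (one_le_pow₀ g1)
    nlinarith only [θ0, a, b, h0]
  obtain σA : S.σ k A ≤ S.R A := by
    have a := fa.σS A hA.1 hs
    have b : (1 : ℝ) ≤ (k.K : ℝ) * k.g ^ 8 := one_le_mul_of_one_le_of_one_le hK (one_le_pow₀ g1)
    obtain c : 0 ≤ S.σ k A := by linarith only [fa.σΛ A AN, fa.Λ10]
    have d := mul_le_mul_of_nonneg_right b c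
    have e := mul_le_mul_of_nonneg_right θ1 RA.le
    linarith only [RA, a, d, e]
  obtain WA : S.W (A + 1) ≤ 10 ^ 6 * k.K * ρ := by
    have a1 := ok.dn A AN
    have a2 := ok.hi A AN.le
    have a3 := fa.σΛ A AN
    have a4 : S.W A ≤ 3 * 10 ^ 5 * k.K * S.R A := hs
    obtain a5 := mul_le_mul_of_nonneg_left r1 (by linarith only [hK10] : (0 : ℝ) ≤ k.K)
    have a6 := mul_le_mul_of_nonneg_right hK ρ0.le
    linarith only [RA, r1, σA, a1, a2, a3, a4, a5, a6]
  obtain Kρ : 0 < (k.K : ℝ) * ρ := by (clear * - hK10 ρ0; positivity)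
  obtain hΛ : k.Λ ≤ 10 ^ 7 * k.K * k.θ ^ 2 * ρ := by
    have a1 := ok.maj A AN RA
    have a2 := mul_le_mul_of_nonneg_left WA θ0.le
    have a3 := mul_pos θ0 Kρ
    linarith only [a1, a2, a3]
  refine ⟨hΛ, ?_⟩
  obtain fine : ∀ j ≤ k.J0, 10 ^ 6 * k.g ^ 9 * k.sl (10 ^ 7 * k.K * ρ) ≤ k.θ0 / 2 ^ j * ρ :=
    fun j hj => num_fine hK g1 h0 (by positivity) (pow_le_pow_right₀ (by norm_num) hj) h.θsm fa.θH
      hΛ ρ0.le
  have ex : ∃ m, m = n ∨ 1600 * ρ < S.R m ∨ 10 ^ 7 * k.K * ρ < S.W (m + 1) := ⟨n, Or.inl rfl⟩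
  obtain ⟨M, why, hmin, Mn⟩ : ∃ M, (M = n ∨ 1600 * ρ < S.R M ∨ 10 ^ 7 * k.K * ρ < S.W (M + 1)) ∧
      (∀ l < M, S.R l ≤ 1600 * ρ ∧ S.W (l + 1) ≤ 10 ^ 7 * k.K * ρ) ∧ M ≤ n :=
    ⟨Nat.find ex, Nat.find_spec ex, fun l hl => by
      have := Nat.find_min ex hl
      simp only [not_or, not_lt] at this
      exact this.2, Nat.find_min' ex (Or.inl rfl)⟩
  obtain AM : A < M := by
    by_contra hn
    have hM : M ≤ A := not_lt.1 hn
    rcases why with w | w | w
    · omega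
    · obtain this : S.R M ≤ S.R A := by
        rcases hM.eq_or_lt with e | e
        · rw [e]
        · exact hA.2 M e
      linarith only [RA, r1, w, this]
    · obtain this := fa.mono (M + 1) (A + 1) (by omega) AN
      linarith only [WA, Kρ, w, this]
  obtain early : S.W M ≤ 10 ^ 7 * k.K * ρ := by
    obtain this := (hmin (M - 1) (by omega)).2
    rwa [show M - 1 + 1 = M by omega] at this
  obtain t0 : 0 < k.θ0 := by unfold EK.θ0; (clear * - hK10 hg; positivity)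
  have J1 : 10 ^ 8 * (k.K : ℝ) / k.θ0 ≤ k.J0 := Nat.le_ceil _
  obtain J2 : 0 < k.J0 := by
    obtain this : (0 : ℝ) < k.J0 := lt_of_lt_of_le (by (clear * - hK10 t0; positivity)) J1
    exact_mod_cast this
  obtain ⟨um, hum⟩ : ∃ um, um = k.θ0 / 2 ^ k.J0 * ρ := ⟨_, rfl⟩
  obtain ⟨R', hR'⟩ : ∃ R' : ℕ → ℝ, R' = fun l => if um ≤ S.R l then S.R l else 0 := ⟨_, rfl⟩
  obtain R0 : ∀ l, 0 ≤ R' l := fun l => by
    rw [hR']; dsimp only; split_ifs
    exacts [ok.R0 l, le_rfl]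
  obtain step : ∀ l < M, R' l ≤ 2 * (S.W (l + 1) - S.W l) := fun l hl => by
    obtain lN : l < S.N := by omega
    rw [hR']; dsimp only; split_ifs with c
    · have a1 := ok.up l lN
      have a2 := ok.lo l lN.le
      have a3 := fine k.J0 le_rfl
      have a4 : S.W l ≤ 10 ^ 7 * k.K * ρ := (ok.mono l lN).trans (hmin l hl).2
      have a5 := mul_le_mul_of_nonneg_left a4 θ0.le
      have a6 := mul_pos θ0 Kρ
      have a7 : (1 : ℝ) ≤ k.g ^ 9 := one_le_pow₀ g1
      have a8 := fa.Λ10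
      obtain a9 : 0 ≤ k.sl (10 ^ 7 * k.K * ρ) := by unfold EK.sl; linarith only [a6, a8]
      have b1 := mul_le_mul_of_nonneg_right a7 a9
      rw [← hum] at a3
      unfold EK.sl at a2 a3 b1 a9
      linarith only [c, a1, a2, a3, a5, a6, a8, b1]
    · linarith only [ok.mono l lN]
  obtain hsum : ∑ x ∈ range M, min (R' x) (k.θ0 * ρ / 2 ^ 0) ≤
      2 * 10 ^ 7 * k.K / k.θ0 * (k.θ0 * ρ) := by
    obtain e : 2 * 10 ^ 7 * (k.K : ℝ) / k.θ0 * (k.θ0 * ρ) = 2 * (10 ^ 7 * k.K * ρ) := by field_simp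
    calc _ ≤ ∑ x ∈ range M, 2 * (S.W (x + 1) - S.W x) :=
          sum_le_sum fun x hx => (min_le_left _ _).trans (step x (mem_range.1 hx))
      _ = 2 * (S.W M - S.W 0) := by rw [← mul_sum, sum_range_sub]
      _ ≤ _ := by rw [e]; linarith only [early, ok.W0]
  obtain hJ : 2 * (2 * 10 ^ 7 * (k.K : ℝ) / k.θ0) ≤ 1 * k.J0 := by
    obtain a : 0 < (k.K : ℝ) / k.θ0 := by (clear * - hK10 t0; positivity)
    rw [mul_div_assoc] at J1 ⊢
    linarith only [J1, a]
  obtain ⟨j, -, hj, hc⟩ := PIG.pigeon' (range M) R' (fun x _ => R0 x) (mul_pos t0 ρ0) 0 J2 hsum hJ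
  rw [zero_add] at hj
  refine ⟨M, j, hj, ⟨par k h ρ hΛ j hj, fine j hj.le, h.Kbig⟩,
    ⟨⟨r2, r1⟩, AM, Mn, nN, early, fun l hl => (hmin l hl).1, why⟩, ?_⟩
  obtain le : um ≤ k.θ0 / 2 ^ j * ρ := by
    rw [hum]; gcongr; norm_num
  obtain sub : ((range M).filter fun l => l < M ∧ k.θ0 / 2 ^ j * ρ ≤ S.R l) ⊆
      (range M).filter fun x => (1 / 2 ^ j : ℝ) * (k.θ0 * ρ) ≤ R' x := by
    intro l hl
    rw [mem_filter] at hl ⊢
    refine ⟨hl.1, ?_⟩
    rw [hR']; dsimp only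
    rw [if_pos (le.trans hl.2.2)]
    calc _ = k.θ0 / 2 ^ j * ρ := by ring
      _ ≤ _ := hl.2.2
  have cd : (((range M).filter fun l => l < M ∧ k.θ0 / 2 ^ j * ρ ≤ S.R l).card : ℝ) ≤ _ :=
    Nat.cast_le.2 (card_le_card sub)
  obtain e : 10 ^ 11 * (k.K : ℝ) * k.g * (4 * k.K * (k.θ0 / 2 ^ j * ρ)) = 1 / 2 ^ j * (2 / 5 * ρ) := by
    unfold EK.θ0; field_simp; norm_num
  change (((range M).filter fun l => l < M ∧ k.θ0 / 2 ^ j * ρ ≤ S.R l).card : ℝ) *
    (10 ^ 11 * (k.K : ℝ) * k.g * (4 * k.K * (k.θ0 / 2 ^ j * ρ))) ≤ ρ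
  rw [e, ← mul_assoc]
  calc _ ≤ 1 * (2 / 5 * ρ) := by
        gcongr
        exact le_trans (by gcongr) hc
    _ ≤ ρ := by linarith only [RA, r1]

end Pool.Agent.MP_9cbfe4_an.E

end

/-! ### Part CCA -/

section

/-! Model-free nested covering with uniform radii (the counting part of CC). -/

namespace Pool.Agent.MP_9cbfe4_an

open Finset MeasureTheory Metric
open scoped ENNReal

namespace CCA

/-- one Vitali step with a uniform radius -/
lemma one {Z : Type} (θ : Z → ℝ) {R r : ℝ} (hR : 0 < R) (hr : 0 ≤ r)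
    (h : ∀ z, ∃ x1 x2 : ℝ, ∀ z', |θ z' - θ z| ≤ R → |θ z' - x1| ≤ r ∨ |θ z' - x2| ≤ r) :
    volume (⋃ z, closedBall (θ z) r) ≤
      ENNReal.ofReal (20 * (r / R)) * volume (⋃ z, closedBall (θ z) R) := by
  choose x1 x2 hx using h
  obtain ⟨u, -, hd, hc⟩ := Vitali.exists_disjoint_subfamily_covering_enlargement_closedBall
    (Set.univ : Set Z) θ (fun _ => R / 5) (R / 5) (fun _ _ => le_rfl) 5 (by norm_num)
  obtain hcount : u.Countable := hd.countable_of_nonempty_interior fun z _ =>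
    ⟨θ z, ball_subset_interior_closedBall (mem_ball_self (by positivity))⟩
  obtain hsub : (⋃ z, closedBall (θ z) r) ⊆
      ⋃ z ∈ u, (closedBall (x1 z) (2 * r) ∪ closedBall (x2 z) (2 * r)) := by
    refine Set.iUnion_subset fun z' => ?_
    obtain ⟨z, hz, hzz⟩ := hc z' (Set.mem_univ _)
    obtain h1 : θ z' ∈ closedBall (θ z) (5 * (R / 5)) := hzz (mem_closedBall_self (by positivity))
    rw [mem_closedBall, Real.dist_eq] at h1
    refine subset_trans ?_ (Set.subset_biUnion_of_mem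
      (u := fun z => closedBall (x1 z) (2 * r) ∪ closedBall (x2 z) (2 * r)) hz)
    rcases hx z z' (by linarith only [h1]) with h2 | h2
    · exact (closedBall_subset_closedBall' (by rw [Real.dist_eq]; linarith only [h2])).trans
        Set.subset_union_left
    · exact (closedBall_subset_closedBall' (by rw [Real.dist_eq]; linarith only [h2])).trans
        Set.subset_union_right
  have := hcount.to_subtype
  calc volume (⋃ z, closedBall (θ z) r)
      ≤ ∑' z : u, volume (closedBall (x1 z) (2 * r) ∪ closedBall (x2 z) (2 * r)) :=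
        (measure_mono hsub).trans (measure_biUnion_le _ hcount _)
    _ ≤ ∑' z : u, ENNReal.ofReal (20 * (r / R)) * volume (closedBall (θ z) (R / 5)) := by
        refine ENNReal.tsum_le_tsum fun z => (measure_union_le _ _).trans ?_
        rw [Real.volume_closedBall, Real.volume_closedBall, Real.volume_closedBall,
          ← ENNReal.ofReal_add (by linarith only [hr]) (by linarith only [hr]),
          ← ENNReal.ofReal_mul (by positivity)]
        exact ENNReal.ofReal_le_ofReal (le_of_eq (by field_simp; ring))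
    _ = ENNReal.ofReal (20 * (r / R)) * volume (⋃ z ∈ u, closedBall (θ z) (R / 5)) := by
        rw [ENNReal.tsum_mul_left,
          measure_biUnion hcount hd fun z _ => measurableSet_closedBall]
    _ ≤ _ := by
        refine mul_le_mul_right (measure_mono (Set.iUnion₂_subset fun z _ => ?_)) _
        exact (closedBall_subset_closedBall (by linarith only [hR])).trans
          (Set.subset_iUnion (fun z => closedBall (θ z) R) z)

lemma aux {Z : Type} (θ : Z → ℝ) (a b : ℤ → ℝ) {s u u' : ℝ} (hs : 0 < s) (Ev : Finset ℤ)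
    (hord : ∀ m ∈ Ev, ∀ m' ∈ Ev, m < m' → b m ≤ a m')
    (hev : ∀ m ∈ Ev, max (a m) u < min (b m) u' → ∀ z, ∃ x1 x2 : ℝ, ∀ z',
      |θ z' - θ z| ≤ s * Real.exp (-max (a m) u) →
      |θ z' - x1| ≤ s * Real.exp (-min (b m) u') ∨ |θ z' - x2| ≤ s * Real.exp (-min (b m) u'))
    (v : ℝ) (hv : u ≤ v) (hb : ∀ m ∈ Ev, min (b m) u' ≤ v) :
    volume (⋃ z, closedBall (θ z) (s * Real.exp (-v))) ≤
      ENNReal.ofReal (20 ^ Ev.card * Real.exp (-∑ m ∈ Ev, max 0 (min (b m) u' - max (a m) u))) *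
        volume (⋃ z, closedBall (θ z) (s * Real.exp (-u))) := by
  obtain mono : ∀ {x y : ℝ}, x ≤ y → volume (⋃ z, closedBall (θ z) (s * Real.exp (-y))) ≤
      volume (⋃ z, closedBall (θ z) (s * Real.exp (-x))) := fun hxy =>
    measure_mono (Set.iUnion_mono fun z => closedBall_subset_closedBall (by gcongr))
  induction Ev using Finset.induction_on_max generalizing v with
  | empty => simpa using mono hv
  | insert m Ev hm ih =>
    have hn : m ∉ Ev := fun h => lt_irrefl _ (hm m h)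
    have ih' := ih (fun x hx y hy => hord x (mem_insert_of_mem hx) y (mem_insert_of_mem hy))
      fun x hx => hev x (mem_insert_of_mem hx)
    rw [card_insert_of_notMem hn, sum_insert hn]
    by_cases hc : max (a m) u < min (b m) u'
    · have i1 := ih' (max (a m) u) (le_max_right _ _) fun x hx => (min_le_left _ _).trans
        ((hord x (mem_insert_of_mem hx) m (mem_insert_self _ _) (hm x hx)).trans (le_max_left _ _))
      obtain i2 := one θ (by positivity) (by positivity) (hev m (mem_insert_self _ _) hc)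
      refine (mono (hb m (mem_insert_self _ _))).trans (i2.trans ?_)
      refine (mul_le_mul_right i1 _).trans (le_of_eq ?_)
      rw [← mul_assoc, ← ENNReal.ofReal_mul (by positivity), max_eq_right (sub_nonneg.2 hc.le),
        mul_div_mul_left _ _ hs.ne', ← Real.exp_sub, neg_add, Real.exp_add]
      congr 2
      rw [show -min (b m) u' - -max (a m) u = -(min (b m) u' - max (a m) u) by ring]
      ring
    · refine (ih' v hv fun x hx => hb x (mem_insert_of_mem hx)).trans ?_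
      rw [max_eq_left (sub_nonpos.2 (not_lt.1 hc)), zero_add]
      gcongr <;> norm_num

end CCA

/-- Events `m ∈ Ev` localise `θ` from scale `s e^{-a m}` to scale `s e^{-b m}` (two targets);
only the part of `[a m, b m]` inside `[u, u']` is used. -/
theorem cc_abs {Z : Type} (θ : Z → ℝ) (a b : ℤ → ℝ) {s u u' : ℝ} (hs : 0 < s) (hu : u ≤ u')
    (Ev : Finset ℤ) (hord : ∀ m ∈ Ev, ∀ m' ∈ Ev, m < m' → b m ≤ a m')
    (hev : ∀ m ∈ Ev, max (a m) u < min (b m) u' → ∀ z, ∃ x1 x2 : ℝ, ∀ z',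
      |θ z' - θ z| ≤ s * Real.exp (-max (a m) u) →
      |θ z' - x1| ≤ s * Real.exp (-min (b m) u') ∨ |θ z' - x2| ≤ s * Real.exp (-min (b m) u'))
    (h0 : ∀ z z', |θ z' - θ z| ≤ s * Real.exp (-u)) :
    volume (⋃ z, closedBall (θ z) (s * Real.exp (-u'))) ≤ ENNReal.ofReal (4 * s * 20 ^ Ev.card *
      Real.exp (-u - ∑ m ∈ Ev, max 0 (min (b m) u' - max (a m) u))) := by
  refine (CCA.aux θ a b hs Ev hord hev u' hu fun _ _ => min_le_right _ _).trans ?_
  obtain h1 : volume (⋃ z, closedBall (θ z) (s * Real.exp (-u))) ≤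
      ENNReal.ofReal (4 * s * Real.exp (-u)) := by
    rcases isEmpty_or_nonempty Z with h | ⟨⟨z0⟩⟩
    · simp
    · refine (measure_mono (t := closedBall (θ z0) (2 * (s * Real.exp (-u))))
        (Set.iUnion_subset fun z => closedBall_subset_closedBall' ?_)).trans (le_of_eq ?_)
      · rw [Real.dist_eq]; linarith only [h0 z0 z]
      · rw [Real.volume_closedBall]; congr 1; ring
  refine (mul_le_mul_right h1 _).trans (le_of_eq ?_)
  rw [← ENNReal.ofReal_mul (by positivity), sub_eq_add_neg, Real.exp_add]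
  congr 1; ring

end Pool.Agent.MP_9cbfe4_an

end
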