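import Pool.Agent.MP_9cbfe4_an.M01

set_option linter.all false

attribute [-instance] AddQuantale.instAddLeftMono IdemSemiring.toCanonicallyOrderedAdd
  NumberField.to_charZero AddQuantale.instAddRightMono IdemSemiring.toMulLeftMono RKHS.instFunLike
  Quantale.instMulRightMono Quantale.instMulLeftMono IsOrderedCancelMonoid.toIsOrderedMonoid
  LinearOrderedCommMonoidWithZero.toPosMulStrictMono
  Group.IsPerfect.subsingleton_of_isMulCommutative CanonicallyOrderedAdd.toMulLeftMono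
  Valued.toUniformSpace IdemSemiring.toMulRightMono TotallySeparatedSpace.t2Space
  LinearOrderedCommMonoidWithZero.toIsOrderedMonoid IsScalarTower.complexToReal
  Order.Coframe.toCompleteLattice OmegaCompletePartialOrder.toPartialOrder Invertible.toNeZero
  GrpTypeEquivalenceGrp.grpGroup littleWedderburn CanonicallyOrderedMul.toMulLeftMono
  CoalgHomClass.toSemilinearMapClass TestFunctionClass.toDFunLike
  ContDiffMapSupportedInClass.toDFunLike Order.Frame.toCompleteLattice RightPreLieAlgebra.toModule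
  CategoryTheory.Limits.Concrete.instUniqueToTypeTerminal LeftPreLieAlgebra.toModule
  CStarAlgebra.instOrderClosedTopology IdemSemiring.toSemiring
  LieAdmissibleRing.toNonUnitalNonAssocRing NonUnitalAlgSemiHomClass.toDistribMulActionSemiHomClass
  CStarAlgebra.toNormedRing

/-! ### Part B5 -/

section

/-! Row B5: `(C*)` and the earlier data give C1, C2 and parameter speed `1`. -/

namespace Pool.Agent.MP_9cbfe4_an
open Finset

namespace B5

/-- the numeric facts about the constants -/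
structure K (c : Cs) : Prop where
  k0 : 0 < c.k0 ∧ c.k0 < 1 / 2 ∧ 1 / 16 ≤ c.k0
  θb : 0 < c.θb ∧ c.θb < 1
  κ : 0 < c.κ
  C0 : 1 ≤ c.C0
  C1 : 1 ≤ c.C1
  e3 : 0 < c.e3 ∧ c.e3 ≤ 1 / 200
  e3κ : c.e3 ≤ c.κ
  e3δ : c.κ < 1 → 100 * c.e3 ≤ 1 - c.κ
  ε : 0 < c.ε ∧ c.ε ≤ 1 / 5
  a : 0 < c.a ∧ c.a ≤ 1 / 10
  M1 : 1 ≤ c.M1
  β : 16 * c.M1 ≤ c.β
  L : 1 ≤ c.L
  lam : 20 ≤ c.lam
  l1 : 20 * c.Γ / (c.ε * c.ε') ≤ c.lam
  l2 : 20 / c.e3 * c.Γ ≤ c.lam
  l3 : 100 / c.e3 ^ 2 * c.Γ + c.Γ / c.e3 ≤ c.lam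
  l4 : c.κ < 1 → 8 ≤ (1 - c.κ) * c.lam
  e3θ : 4 * c.e3 ≤ 1 - c.θb
  βθ : 8 * c.M1 ≤ (1 - c.θb) * c.β
  l5 : 6 * (c.Γ + 10 * c.C6 * c.Γ + 4) ≤ c.lam
  εκ : 2 * c.ε ≤ c.κ
  εg : c.θb / (1 - c.θb) < c.κ → c.ε ≤ c.κ * (1 - c.θb) - c.θb
  βC : c.C0 ≤ (1 - c.θb) * c.β

theorem hK : Hier K := by
  have hb := Hier.base
  obtain e1 := Hier.e3_le (fun _ => 1 / 200) (fun _ _ _ _ _ _ _ _ => rfl) (.of_all fun _ => by norm_num)
  have e2 := Hier.e3_le (fun c => c.κ) (fun _ _ _ _ _ _ _ _ => rfl) (hb.mono fun _ h => h.2.2.2.2.1)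
  obtain e3 := Hier.e3_le (fun c => if c.κ < 1 then (1 - c.κ) / 100 else 1)
    (fun _ _ _ _ _ _ _ _ => rfl) (.of_all fun c => by split_ifs <;> (rename_i zq0; linarith only [zq0]))
  obtain e4 := Hier.ε_le_pow (fun _ => 1 / 5) 0 (by norm_num) (fun _ _ _ _ _ _ _ _ => rfl)
    (.of_all fun _ => by norm_num)
  obtain f8 := Hier.ε_le_pow (fun c => c.κ / 2) 0 (by norm_num) (fun _ _ _ _ _ _ _ _ => rfl)
    (hb.mono fun _ h => half_pos h.2.2.2.2.1)
  obtain f9 := Hier.ε_le_pow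
    (fun c => if c.θb / (1 - c.θb) < c.κ then c.κ * (1 - c.θb) - c.θb else 1) 0 (by norm_num)
    (fun _ _ _ _ _ _ _ _ => rfl) (hb.mono fun c h => by
      split_ifs with h1
      · rw [div_lt_iff₀ (by linarith only [h.2.2.2.1])] at h1; linarith only [h1]
      · exact one_pos)
  have f10 := Hier.β_ge (fun c => c.C0 / (1 - c.θb)) (fun _ _ _ => rfl)
  obtain e5 := Hier.a_le (fun _ => 1 / 10) (fun _ _ _ _ _ _ => rfl) (.of_all fun _ => by norm_num)
  have e6 := Hier.M1_ge (fun _ => 1) (fun _ _ _ _ => rfl)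
  have e7 := Hier.β_ge (fun c => 16 * c.M1) (fun _ _ _ => rfl)
  have e8 := Hier.L_ge (fun _ => 1) (fun _ _ => rfl)
  have e9 := Hier.lam_ge (fun _ => 20) (fun _ _ => rfl)
  have f1 := Hier.lam_ge (fun c => 20 * c.Γ / (c.ε * c.ε')) (fun _ _ => rfl)
  have f2 := Hier.lam_ge (fun c => 20 / c.e3 * c.Γ) (fun _ _ => rfl)
  have f3 := Hier.lam_ge (fun c => 100 / c.e3 ^ 2 * c.Γ + c.Γ / c.e3) (fun _ _ => rfl)
  have f4 := Hier.lam_ge (fun c => 8 / (1 - c.κ)) (fun _ _ => rfl)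
  have f5 := Hier.lam_ge (fun c => 6 * (c.Γ + 10 * c.C6 * c.Γ + 4)) (fun _ _ => rfl)
  obtain f6 := Hier.e3_le (fun c => (1 - c.θb) / 4) (fun _ _ _ _ _ _ _ _ => rfl)
    (hb.mono fun _ h => by have := h.2.2.2.1; linarith only [h])
  have f7 := Hier.β_ge (fun c => 8 * c.M1 / (1 - c.θb)) (fun _ _ _ => rfl)
  have g0 := Hier.C0_ge (fun _ _ _ _ => 1)
  have g1 := Hier.C1_ge (fun _ _ _ _ _ => 1)
  refine (hb.and (e1.and (e2.and (e3.and (e4.and (e5.and (e6.and (e7.and (e8.and (e9.and (f1.and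
    (f2.and (f3.and (f4.and (f5.and (g0.and (g1.and (f6.and (f7.and
    (f8.and (f9.and f10))))))))))))))))))))).mono ?_
  rintro c ⟨⟨b1, b2, b3, b4, b5, -⟩, e1, e2, e3, e4, e5, e6, e7, e8, e9, f1, f2, f3, f4, f5, g0, g1,
    f6, f7, f8, f9, f10⟩
  rw [pow_zero, mul_one] at e4 f8 f9
  refine ⟨⟨by linarith only [b1, e1], b2, b1⟩, ⟨b3, b4⟩, b5, g0, g1, e1, e2.2, fun h => ?_, e4, e5, e6, e7, e8, e9,
    f1, f2, f3, fun h => ?_, by linarith only [f6.2], ?_, f5, by linarith only [f8.2], fun h => ?_, ?_⟩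
  · have := e3.2; rw [if_pos h] at this; linarith only [this]
  · rw [div_le_iff₀ (by linarith only [h])] at f4; linarith only [f4]
  · rw [div_le_iff₀ (by linarith only [e1, f6])] at f7; linarith only [f7]
  · have := f9.2; rwa [if_pos h] at this
  · rw [div_le_iff₀ (by linarith only [e1, f6])] at f10; linarith only [f10]

variable {c : Cs}

theorem K.C6 (h : K c) : 0 ≤ c.C6 := by
  have := h.C0; have := h.C1; unfold Cs.C6; positivity

theorem K.ε' (h : K c) : 0 < c.ε' ∧ c.ε' ≤ c.e3 ∧ c.ε' / c.e3 = c.e3 ^ 3 ∧ 11 * c.e3 ^ 3 ≤ c.e3 := by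
  obtain ⟨h1, h2⟩ := h.e3
  obtain h3 : c.e3 ^ 2 ≤ 1 / 11 := by nlinarith only [h1, h2]
  obtain h4 : 11 * c.e3 ^ 3 ≤ c.e3 := by nlinarith
  unfold Cs.ε'
  refine ⟨by positivity, by nlinarith only [h3, h1, h2], by field_simp, h4⟩

theorem K.Γ (h : K c) : 0 ≤ c.Γ := by
  have := h.C6; have := h.C1; have := h.ε'.1; unfold Cs.Γ Cs.C4; positivity

theorem K.cc (h : K c) : 0 ≤ c.cc ∧ c.cc ≤ c.lam / 20 ∧ c.c1 = 10 * c.cc ∧ c.Γ ≤ c.ε' * c.cc := by
  have h1 := h.ε; have h2 := h.lam; have h3 := h.l1; have h4 := h.ε'.1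
  rw [div_le_iff₀ (mul_pos h1.1 h4)] at h3
  unfold Cs.cc Cs.c1
  exact ⟨by have := h1.1; positivity, by nlinarith only [h1, h2], by ring, by linarith only [h3]⟩

theorem K.chK (h : K c) : 2 / 3 ≤ c.chK ∧ c.chK ≤ c.bl ∧ 0 ≤ c.Q := by
  obtain ⟨h1, h2, h3⟩ := h.k0
  obtain h4 : Real.log 2 ≤ c.chK := Real.log_le_log (by norm_num) (by rw [le_div_iff₀ h1]; linarith only [h2])
  obtain h5 : c.chK ≤ 1 / c.k0 - 1 := Real.log_le_sub_one_of_pos (by positivity)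
  obtain h6 : 1 / c.k0 ≤ 16 := by rw [div_le_iff₀ h1]; linarith only [h3]
  have h7 := Real.log_two_gt_d9
  have := h.M1; have := h.β; have := h.lam; have := h.a.1
  obtain h8 : 15 ≤ c.bl := by unfold Cs.bl; (rename_i zq2 zq1 zq0; nlinarith only [zq2, zq1, zq0, h1, h2])
  exact ⟨by linarith only [h1, h2, h4, h7], by linarith only [h5, h6, h8], by unfold Cs.Q; positivity⟩

theorem st_fr (S : Sq) {n : ℤ} (hn : 0 ≤ n) : S.St c (S.fr (n + 1)) (n + 1) :=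
  ⟨by omega, S.fr_sol _, S.fr_self _, by
    rw [S.fr_lt (by omega), abs_zero]; exact (Real.exp_pos _).le⟩

theorem out_of (h : K c) {S : Sq} {n m : ℤ} (hn : 0 ≤ n)
    (hr : S.RInv c (S.fr (n + 1)) (n + 1) m) : S.Out c (S.fr (n + 1)) m := by
  have hle := hr.le
  refine ⟨by omega, fun j hj => S.fr_sol _ j (by omega), hr.ne, ?_⟩
  rcases hle.eq_or_lt with e | e
  · rw [S.fr_lt (by omega), abs_zero]; positivity
  · refine ((S.abs_le_wh c _ (by omega)).trans (hr.i1 e)).trans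
      (mul_le_mul_of_nonneg_right ?_ (abs_nonneg _))
    have h1 := Real.add_one_le_exp (2 * c.lam / 15)
    obtain h2 : Real.exp (-c.lam / 5) = Real.exp (-c.lam / 3) * Real.exp (2 * c.lam / 15) := by
      rw [← Real.exp_add]; congr 1; ring
    rw [h2]
    have := Real.exp_pos (-S.chi c (n + 1) m / 10); have := h.lam
    exact mul_le_mul_of_nonneg_left (by (rename_i zq0; linarith only [h1, zq0, this])) (Real.exp_pos _).le

theorem ev_nonneg (h : K c) (S : Sq) (ξ : ℤ → ℝ) (s m : ℤ) (r : ℝ) : 0 ≤ S.ev c ξ s m r := by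
  have h1 : 0 ≤ S.sg c ξ s m / c.e3 := div_nonneg (le_max_right _ _) h.e3.1.le
  have := h.cc.1; have := h.lam
  unfold Sq.ev; split_ifs <;> (rename_i zq1 zq0; linarith only [h1, zq1, zq0, this])

theorem evs_nonneg (h : K c) (S : Sq) (ξ : ℤ → ℝ) (s : ℤ) (Ls : List (ℤ × ℝ)) :
    0 ≤ S.evs c ξ s Ls :=
  List.sum_nonneg fun x hx => by
    obtain ⟨y, -, rfl⟩ := List.mem_map.1 hx
    exact ev_nonneg h S ξ s _ _

theorem WW_nonneg (S : Sq) (ξ : ℤ → ℝ) (s j : ℤ) : 0 ≤ S.WW c ξ s j :=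
  Real.log_nonneg (S.one_le_AA c ξ s j)

/-- the numeric lemma for a bound run -/
theorem num (h : K c) (hN : NUM_s c) {Ex : ExT} {S : Sq} {n m : ℤ} {Ls : List (ℤ × ℝ)}
    (hS : S.OK c) (hn : 0 ≤ n) (hc : S.Chain c Ex (S.fr (n + 1)) (n + 1) (n + 1) Ls m)
    (hb : S.BInv c n Ls m) :
    S.sg c (S.fr (n + 1)) (n + 1) m ≤ c.Γ + 10 * c.ε' * S.evs c (S.fr (n + 1)) (n + 1) Ls ∧
    Sq.sumR c Ls ≤ 2 * S.evs c (S.fr (n + 1)) (n + 1) Ls + 20 / c.e3 * c.Γ + c.cc * Ls.length ∧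
    c.lam / 4 * Ls.length ≤ Real.log |S.fr (n + 1) m| + 10 * c.C6 * c.Γ ∧
    S.evs c (S.fr (n + 1)) (n + 1) Ls ≤ 3 * Real.log |S.fr (n + 1) m| + 30 * c.C6 * c.Γ ∧
    Real.log |S.fr (n + 1) m| ≤ (1 + c.e3) * S.evs c (S.fr (n + 1)) (n + 1) Ls
      + 4 * S.chi c (n + 1) m / c.β + 100 / c.e3 ^ 2 * c.Γ := by
  have hQ := h.chK.2.2
  obtain q0 : S.qu c.Q n (n + 1) = 0 := by
    rw [S.qu_succ _ le_rfl, S.qu_self, hb.kz.1]
    exact max_eq_right (by linarith only [hQ])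
  obtain s0 : S.sg c (S.fr (n + 1)) (n + 1) (n + 1) = 0 := by
    simp [Sq.sg, Sq.sig, Sq.WW, Sq.AA_self, Sq.fr_self]
  obtain ⟨a1, a2, -, a4, a5, a6⟩ := hN Ex S _ (n + 1) (n + 1) Ls m c.Q n c.Γ hS (by omega) le_rfl
    (by omega) (by linarith only [hQ]) le_rfl hc hb.loads (by rw [q0, s0]; ring)
  rw [S.fr_self, abs_one, Real.log_one, sub_zero] at a4 a5 a6
  rw [if_neg (by have := hb.kz.2.2; linarith only [this]), add_zero] at a6
  have := mul_nonneg h.Γ (S.qu_nonneg c.Q n m)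
  exact ⟨by linarith only [a1, this], a2, a4, a5, a6⟩

theorem geo {q : ℝ} (h0 : 0 ≤ q) (h1 : q ≤ 3 / 5) (s : ℤ) (m : ℤ) (hm : s ≤ m) :
    ∑ i ∈ Ico s m, q ^ (m - i).toNat ≤ 3 / 2 := by
  induction m, hm using Int.leInduction with
  | base => simp; norm_num
  | succ m hm ih =>
    obtain e : ∑ i ∈ Ico s m, q ^ (m + 1 - i).toNat = q * ∑ i ∈ Ico s m, q ^ (m - i).toNat := by
      rw [mul_sum]
      refine sum_congr rfl fun i hi => ?_
      rw [show (m + 1 - i).toNat = (m - i).toNat + 1 by have := (mem_Ico.1 hi).2; omega, pow_succ']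
    rw [← insert_Ico_right_eq_Ico_add_one hm, sum_insert (by simp), e]
    simp only [add_sub_cancel_left, Int.toNat_one, pow_one]
    nlinarith only [h1, h0, ih]

theorem decay (h : K c) (S : Sq) {i m : ℤ} (him : i ≤ m) :
    Real.exp (-(1 - c.a) * S.chi c i m) ≤ (3 / 5) ^ (m - i).toNat := by
  obtain ⟨h1, h2, -⟩ := h.chK
  have h3 := S.chi_ge c h2 him
  obtain h4 : (((m - i).toNat : ℕ) : ℝ) = ((m - i : ℤ) : ℝ) := by
    rw [← Int.cast_natCast, Int.toNat_of_nonneg (by omega)]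
  obtain h5 : Real.exp (-(3 / 5)) ≤ 3 / 5 := by
    obtain this := Real.quadratic_le_exp_of_nonneg (x := 3 / 5) (by norm_num)
    rw [Real.exp_neg, inv_le_comm₀ (Real.exp_pos _) (by norm_num)]
    linarith only [this]
  refine le_trans ?_ (pow_le_pow_left₀ (Real.exp_pos _).le h5 _)
  rw [← Real.exp_nat_mul, h4]
  obtain h6 : (0 : ℝ) ≤ ((m - i : ℤ) : ℝ) := by rw [← h4]; positivity
  have h7 := h.a
  obtain h8 : 2 / 3 * ((m - i : ℤ) : ℝ) ≤ S.chi c i m := by nlinarith only [h3, h1, h4]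
  exact Real.exp_le_exp.2 (by nlinarith only [h4, h8, h7])

/-- one step of the sum of continuants -/
theorem step (h : K c) {S : Sq} (hS : S.OK c) {n m j : ℤ} {B ρ : ℝ} (hn : 0 ≤ n)
    (hr : S.RInv c (S.fr (n + 1)) (n + 1) m) (hj : m < j) (hρ : 0 < ρ)
    (hT : ∑ i ∈ Ico (n + 1) m, |S.fr (i + 1) m| ≤ B * |S.fr (n + 1) m|)
    (hw : |S.fr (n + 1) m| * ρ * S.wp c m j ≤ 2 * S.wp c n j)
    (hin : ∑ i ∈ Ico (m + 1) j, |S.fr (i + 1) j| ≤ S.wp c m j) :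
    ∑ i ∈ Ico (n + 1) j, |S.fr (i + 1) j| ≤ (B + 10 / (|S.fr (n + 1) m| * ρ)) * S.wp c n j := by
  have hle := hr.le
  have w0 : 0 < |S.fr (n + 1) m| := abs_pos.2 hr.ne
  obtain hF : |S.fr (m + 1) j| ≤ S.wp c m j := S.abs_le_wh c _ (by omega)
  obtain hx : |S.fr (n + 1) j| ≤ S.wp c n j := S.abs_le_wh c _ (by omega)
  have F0 := abs_nonneg (S.fr (m + 1) j)
  obtain key : ∀ i ∈ Ico (n + 1) m, |S.fr (i + 1) j| ≤ S.wp c n j / |S.fr (n + 1) m| * |S.fr (i + 1) m|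
      + 2 * |S.fr (m + 1) j| * (3 / 5) ^ (m - i).toNat := by
    intro i hi
    obtain ⟨i1, i2⟩ := mem_Ico.1 hi
    obtain e := S.euler (ξ := S.fr (n + 1)) i2 hj.le fun l h1 _ => S.fr_sol _ l (by omega)
    obtain ⟨p1, p2⟩ := hS.Pb_le (θ := 2 / 100) (by norm_num) (i := i) (j := m) (by omega)
    obtain b1 : |S.Pb i m| * |S.fr (n + 1) i| ≤ 2 * (3 / 5) ^ (m - i).toNat * |S.fr (n + 1) m| := by
      rw [abs_of_pos p1]
      refine (mul_le_mul p2 (S.abs_le_wh c _ (by omega)) (abs_nonneg _) (p1.le.trans p2)).trans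
        ((hr.i2 i i1 i2).1.trans (mul_le_mul_of_nonneg_right ?_ w0.le))
      have := Real.exp_pos (-S.chi c (n + 1) i / 24)
      exact mul_le_mul (by unfold Sq.ff; linarith only [this]) (decay h S i2.le) (Real.exp_pos _).le (by norm_num)
    have b2 := abs_sub_abs_le_abs_sub (S.fr (i + 1) j * S.fr (n + 1) m)
      (S.fr (n + 1) j * S.fr (i + 1) m)
    rw [e, abs_mul, abs_mul] at b2
    have b3 := mul_le_mul_of_nonneg_right b1 F0
    have b4 := mul_le_mul_of_nonneg_right hx (abs_nonneg (S.fr (i + 1) m))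
    refine le_of_mul_le_mul_right ?_ w0
    rw [add_mul, mul_right_comm (_ / _), div_mul_cancel₀ _ w0.ne']
    linarith only [b2, b3, b4]
  have s1 := sum_le_sum key
  rw [sum_add_distrib, ← mul_sum, ← mul_sum] at s1
  obtain s2 := mul_le_mul_of_nonneg_left (geo (q := 3 / 5) (by norm_num) le_rfl _ _ hle) F0
  have p0 : 0 ≤ S.wp c n j := S.wh_nonneg c _ _ _
  have s3 := mul_le_mul_of_nonneg_left hT (div_nonneg p0 w0.le)
  rw [mul_comm B, ← mul_assoc, div_mul_cancel₀ _ w0.ne'] at s3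
  obtain s4 : S.wp c m j ≤ 2 / (|S.fr (n + 1) m| * ρ) * S.wp c n j := by
    rw [div_mul_eq_mul_div, le_div_iff₀ (mul_pos w0 hρ)]; linarith only [hw]
  obtain s5 : 10 / (|S.fr (n + 1) m| * ρ) * S.wp c n j
      = 5 * (2 / (|S.fr (n + 1) m| * ρ) * S.wp c n j) := by ring
  rw [← Ico_union_Ico_eq_Ico hle hj.le, sum_union (Ico_disjoint_Ico_consecutive _ _ _),
    ← Ico_union_Ico_eq_Ico (a := m) (b := m + 1) (by omega) (by omega),
    sum_union (Ico_disjoint_Ico_consecutive _ _ _), Ico_add_one_right_eq_Icc, Icc_self,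
    sum_singleton, add_mul, s5]
  linarith only [hin, hF, s1, s2, s3, s4]

theorem Wt_le (S : Sq) (ξ : ℤ → ℝ) (s m : ℤ) (r : ℝ) :
    S.Wt c ξ s m r ≤ Real.log |ξ m| + max (S.sg c ξ s m) r := by
  have h1 : S.sig c ξ s m ≤ S.sg c ξ s m := le_max_left _ _
  have h2 := le_max_left (S.sg c ξ s m) r
  have h3 := le_max_right (S.sg c ξ s m) r
  unfold Sq.sig at h1
  exact max_le (by linarith only [h1, h2]) (by linarith only [h3])

theorem wt_le (hB : B1_s c) {Ex : ExT} {S : Sq} (hS : S.OK c) {ξ : ℤ → ℝ} {s m p : ℤ} {r : ℝ} {P Ls}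
    (hs : S.St c ξ s) (hR : S.Run c Ex ξ s P ((m, r) :: Ls) p) :
    S.Wt c ξ s m r ≤ S.WW c ξ s p := by
  obtain ⟨hc, -⟩ := (hB Ex S hS).1 _ _ _ _ _ hs hR
  cases hc with
  | cons _ hs _ =>
    exact max_le (Real.log_le_log (zero_lt_one.trans_le (S.one_le_AA c _ _ _))
      (S.AA_mono c _ _ hs.lt.le)) hs.A_lo

theorem Wt_le_add (S : Sq) (ξ : ℤ → ℝ) (s m : ℤ) {r : ℝ} (hr : 0 ≤ r) :
    S.Wt c ξ s m r ≤ S.Wt c ξ s m 0 + r := by
  have h1 := le_max_left (S.WW c ξ s m) (Real.log |ξ m| + 0)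
  have h2 := le_max_right (S.WW c ξ s m) (Real.log |ξ m| + 0)
  unfold Sq.Wt
  exact max_le (by linarith only [hr, h1]) (by linarith only [h2])

/-- no load at a low level -/
theorem xx_low (h : K c) {S : Sq} {n : ℤ} {V : ℝ} (hk : 5 / 100 ≤ dP (S.X n))
    (hV : c.C0 * V ≤ c.bl) : S.xx c n V ≤ c.ε * V + c.cc := by
  obtain ⟨h1, h2, hQ⟩ := h.chK
  obtain ⟨m, rfl⟩ : ∃ m, n = m + 1 := ⟨n - 1, by ring⟩
  obtain k0 : S.kk (m + 1) = 0 := S.kk_eq_zero.2 (Or.inl (by linarith only [hk]))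
  obtain q0 : S.qu c.Q m (m + 1) = 0 := by
    rw [S.qu_succ _ le_rfl, S.qu_self, k0]
    exact max_eq_right (by linarith only [hQ])
  obtain h3 := S.load_le_qu c (by linarith only [h1]) h2 (s := m) (n := m + 1) (V := V) (by omega)
    (by rw [S.chi_succ, Sq.ch1, k0]; linarith only [hV])
  obtain h4 : c.C1 * S.load c (m + 1) V ≤ 0 :=
    mul_nonpos_of_nonneg_of_nonpos (by linarith only [h.C1]) (q0 ▸ h3)
  unfold Sq.xx; linarith only [h4]

theorem low (h : K c) (hB : B1_s c) {Ex : ExT} {S : Sq} (hS : S.OK c) {ξ : ℤ → ℝ} {n m : ℤ} {r : ℝ}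
    {Ls : List (ℤ × ℝ)} (ho : S.Out c ξ n)
    (hR : S.Run c Ex (S.fr (n + 1)) (n + 1) (S.PBd c Ex ξ n) Ls m) (hP : S.PBd c Ex ξ n Ls m r)
    (hV : c.C0 * S.Wt c (S.fr (n + 1)) (n + 1) m r ≤ c.bl) :
    r ≤ 11 / 50 * S.Wt c (S.fr (n + 1)) (n + 1) m r + 21 / 10 * c.cc := by
  have h1 := (hB Ex S hS).2.2 _ _ _ _ _ ho ⟨hR, hP⟩
  have h2 := xx_low h ((hB Ex S hS).2.1 _ _ _ _ _ ho hR hP.1).kz.2.1 hV
  have h3 := mul_le_mul_of_nonneg_right h.ε.2
    ((WW_nonneg (c := c) S (S.fr (n + 1)) (n + 1) m).trans (le_max_left _ (Real.log |S.fr (n + 1) m| + r)))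
  unfold Sq.Wt at *
  linarith only [h1, h2, h3]

/-- size of the increment -/
theorem inc (h : K c) {κ : ℝ} (κ0 : 0 ≤ κ) (d1 : 100 * c.e3 ≤ 1 - κ) (d2 : 8 ≤ (1 - κ) * c.lam)
    (hB : B1_s c) (hN : NUM_s c) {Ex : ExT} {S : Sq}
    (hS : S.OK c) {ξ : ℤ → ℝ} {n m p : ℤ} {Ls : List (ℤ × ℝ)} (ho : S.Out c ξ n)
    (hR : S.Run c Ex (S.fr (n + 1)) (n + 1) (S.PBd c Ex ξ n) Ls m)
    (hP : S.PBd c Ex ξ n Ls m (S.dep c (S.fr (n + 1)) m p)) (hρ : S.rho (S.fr (n + 1)) m p ≠ 0)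
    (c1 : S.dep c (S.fr (n + 1)) m p ≤ κ * S.Wt c (S.fr (n + 1)) (n + 1) m 0 + c.c1) :
    10 / (|S.fr (n + 1) m| * |S.rho (S.fr (n + 1)) m p|) ≤
      Real.exp (-c.lam / 3) * (1 / 2) ^ (Ls.length + 1) := by
  obtain ⟨hc, hr⟩ := (hB Ex S hS).1 _ _ _ _ _ (st_fr S ho.1) hR
  obtain ⟨a1, -, a3, a4, -⟩ := num h hN hS ho.1 hc ((hB Ex S hS).2.1 _ _ _ _ _ ho hR hP.1)
  have c2 := Wt_le (c := c) S (S.fr (n + 1)) (n + 1) m 0
  have sg0 : 0 ≤ S.sg c (S.fr (n + 1)) (n + 1) m := le_max_right _ _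
  rw [max_eq_left sg0] at c2
  have w0 : 0 < |S.fr (n + 1) m| := abs_pos.2 hr.ne
  have r0 := abs_pos.2 hρ
  obtain L0 : 0 < c.L := by linarith only [h.L]
  obtain e : 10 / (|S.fr (n + 1) m| * |S.rho (S.fr (n + 1)) m p|) =
      10 * Real.exp (S.dep c (S.fr (n + 1)) m p - Real.log |S.fr (n + 1) m| - c.lam) := by
    rw [Real.exp_sub, Real.exp_sub, Sq.dep, Cs.lam, Real.exp_log (div_pos L0 r0), Real.exp_log w0,
      Real.exp_log L0]
    field_simp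
  generalize S.dep c (S.fr (n + 1)) m p = r at *
  generalize Real.log |S.fr (n + 1) m| = g at *
  generalize S.sg c (S.fr (n + 1)) (n + 1) m = σ at *
  generalize S.evs c (S.fr (n + 1)) (n + 1) Ls = y at *
  generalize Ls.length = k at *
  obtain ⟨ε1, ε2, -⟩ := h.ε'
  have k0 : (0 : ℝ) ≤ k := Nat.cast_nonneg k
  have l0 := h.lam
  have d3 := mul_nonneg h.C6 h.Γ
  obtain hκ : κ < 1 := by linarith only [d1, ε1, ε2, h.e3.1]
  obtain ⟨G, hG⟩ : ∃ G, G = g + 10 * c.C6 * c.Γ := ⟨_, rfl⟩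
  obtain G0 : 0 ≤ G := by nlinarith only [a3, hG, l0]
  obtain b1 : σ ≤ c.Γ + (1 - κ) / 2 * G := by
    obtain this : c.ε' * y ≤ c.ε' * (3 * G) := mul_le_mul_of_nonneg_left (by linarith only [a4, hG]) ε1.le
    nlinarith only [a1, hG, this, d2, κ0, d1, a3, G0, ε1, ε2]
  obtain b2 : (k : ℝ) ≤ (1 - κ) / 2 * G := by
    obtain this : (1 - κ) * (c.lam / 4 * k) ≤ (1 - κ) * G :=
      mul_le_mul_of_nonneg_left (by linarith only [a3, hG]) (by linarith only [d1, ε1, ε2])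
    nlinarith only [this, d2]
  have b3 : κ * S.Wt c (S.fr (n + 1)) (n + 1) m 0 ≤ κ * (g + σ) :=
    mul_le_mul_of_nonneg_left c2 κ0
  obtain b4 : κ * σ ≤ σ := by nlinarith only [d1, sg0, ε1, ε2]
  obtain b5 : (1 - κ) * (c.C6 * c.Γ) ≤ c.C6 * c.Γ := by nlinarith only [κ0, d3]
  obtain b6 : r - g - c.lam ≤ -c.lam / 3 + (-4 + k * -1) := by
    have := h.cc; have := h.l5
    (rename_i zq0; nlinarith only [c1, hG, b1, b2, b3, b4, b5, zq0, this, κ0])
  obtain b7 : Real.exp (-1) ≤ 1 / 2 := by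
    have := Real.add_one_le_exp 1
    rw [Real.exp_neg, inv_le_comm₀ (Real.exp_pos _) (by norm_num)]; linarith only [this]
  obtain b8 : Real.exp (-4) ≤ 1 / 20 := by
    obtain h1 := pow_le_pow_left₀ (by norm_num) Real.exp_one_gt_d9.le 4
    rw [← Real.exp_nat_mul] at h1
    rw [Real.exp_neg, inv_le_comm₀ (Real.exp_pos _) (by norm_num)]
    norm_num at h1 ⊢; linarith only [κ0, d1, ε1, ε2, h1]
  have b9 := Real.exp_le_exp.2 b6
  rw [Real.exp_add, Real.exp_add, Real.exp_nat_mul] at b9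
  obtain b10 := mul_le_mul b8 (pow_le_pow_left₀ (Real.exp_pos _).le b7 k) (by positivity) (by norm_num)
  have b11 := mul_le_mul_of_nonneg_left b10 (Real.exp_pos (-c.lam / 3)).le
  rw [e, pow_succ]
  linarith only [b9, b11]

theorem nest (h : K c) {S : Sq} {ξ : ℤ → ℝ} {n p : ℤ} {r : ℝ} (hd : S.Bd c ξ n p r)
    (hρ : S.rho ξ n p ≠ 0) : S.Wp c n p ≤ 2 * S.dep c ξ n p - c.lam := by
  obtain L0 : 0 < c.L := by linarith only [h.L]
  have r0 := abs_pos.2 hρ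
  obtain b1 : c.cb ≤ 1 := by
    unfold Cs.cb
    rw [div_le_one (by have := h.lam; positivity)]
    exact one_le_pow₀ (by linarith only [h.lam])
  obtain h1 : |S.rho ξ n p| ^ 2 * Real.exp (S.Wt c (S.fr (n + 1)) (n + 1) p r) ≤ c.L := by
    rw [sq_abs]; exact hd.trans (mul_le_of_le_one_left L0.le b1)
  obtain h2 := Real.log_le_log (by positivity) h1
  rw [Real.log_mul (by positivity) (Real.exp_pos _).ne', Real.log_exp, Real.log_pow] at h2
  have h3 : S.Wp c n p ≤ S.Wt c (S.fr (n + 1)) (n + 1) p r := le_max_left _ _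
  rw [Sq.dep, Real.log_div L0.ne' r0.ne', Cs.lam]
  push_cast at h2
  linarith only [h2, h3]

/-- parameter speed along a bound run -/
theorem speed (h : K c) (hB : B1_s c) (hN : NUM_s c) (hK : BLK_s c) {Ex : ExT}
    {S : Sq} (hS : S.OK c) {η s P Ls m} (hR : S.Run c Ex η s P Ls m) :
    ∀ ξ n, η = S.fr (n + 1) → s = n + 1 → P = S.PBd c Ex ξ n → S.Out c ξ n →
      (c.κ < 1 ∨ c.C0 * S.Wp c n m ≤ c.bl) → ∀ j, n < j → j ≤ m →
      ∑ i ∈ Ico (n + 1) j, |S.fr (i + 1) j| ≤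
        Real.exp (-c.lam / 3) * (1 - (1 / 2) ^ Ls.length) * S.wp c n j := by
  obtain L0 : 0 < c.L := by linarith only [h.L]
  obtain l0 : 0 < c.lam := by linarith only [h.lam]
  obtain C0 : 0 ≤ c.C0 := by linarith only [h.C0]
  have mono : ∀ {n m p : ℤ}, m ≤ p → (c.κ < 1 ∨ c.C0 * S.Wp c n p ≤ c.bl) →
      (c.κ < 1 ∨ c.C0 * S.Wp c n m ≤ c.bl) := fun hm hH => hH.imp_right fun h1 =>
    (mul_le_mul_of_nonneg_left (Real.log_le_log (zero_lt_one.trans_le (S.one_le_AA c _ _ _))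
      (S.AA_mono c _ _ hm)) C0).trans h1
  obtain gen : ∀ {ξ : ℤ → ℝ} {n m p : ℤ} {Ls : List (ℤ × ℝ)}, S.Out c ξ n →
      S.Run c Ex (S.fr (n + 1)) (n + 1) (S.PBd c Ex ξ n) Ls m →
      S.PBd c Ex ξ n Ls m (S.dep c (S.fr (n + 1)) m p) → S.rho (S.fr (n + 1)) m p ≠ 0 →
      (c.κ < 1 ∨ c.C0 * S.Wt c (S.fr (n + 1)) (n + 1) m (S.dep c (S.fr (n + 1)) m p) ≤ c.bl) →
      (∀ j, n < j → j ≤ m → ∑ i ∈ Ico (n + 1) j, |S.fr (i + 1) j| ≤
        Real.exp (-c.lam / 3) * (1 - (1 / 2) ^ Ls.length) * S.wp c n j) →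
      (∀ j, m < j → j ≤ p →
        |S.fr (n + 1) m| * |S.rho (S.fr (n + 1)) m p| * S.wp c m j ≤ 2 * S.wp c n j ∧
        ∑ i ∈ Ico (m + 1) j, |S.fr (i + 1) j| ≤ S.wp c m j) →
      ∀ j, n < j → j ≤ p → ∑ i ∈ Ico (n + 1) j, |S.fr (i + 1) j| ≤
        Real.exp (-c.lam / 3) * (1 - (1 / 2) ^ (Ls.length + 1)) * S.wp c n j := by
    intro ξ n m p Ls ho hR hP hρ hH ih hs j h1 h2
    have hr := ((hB Ex S hS).1 _ _ _ _ _ (st_fr S ho.1) hR).2
    have p0 : 0 ≤ S.wp c n j := S.wh_nonneg c _ _ _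
    have e0 := Real.exp_pos (-c.lam / 3)
    obtain q0 : (0 : ℝ) < (1 / 2) ^ Ls.length := by positivity
    rcases le_or_gt j m with hj | hj
    · refine (ih j h1 hj).trans (mul_le_mul_of_nonneg_right
        (mul_le_mul_of_nonneg_left ?_ e0.le) p0)
      rw [pow_succ]; linarith only [q0]
    · obtain hT := ih m (by have := hr.le; omega) le_rfl
      rw [show S.wp c n m = |S.fr (n + 1) m| from hr.whm] at hT
      refine (step h hS ho.1 hr hj (abs_pos.2 hρ) hT (hs j hj h2).1 (hs j hj h2).2).trans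
        (mul_le_mul_of_nonneg_right ?_ p0)
      obtain this : 10 / (|S.fr (n + 1) m| * |S.rho (S.fr (n + 1)) m p|) ≤
          Real.exp (-c.lam / 3) * (1 / 2) ^ (Ls.length + 1) := by
        rcases hH with hκ | hV
        · exact inc h h.κ.le (h.e3δ hκ) (h.l4 hκ) hB hN hS ho hR hP hρ hP.2.c1
        · refine inc h (κ := 1 / 2) (by norm_num) (by linarith only [h.e3.2]) (by linarith only [h.lam])
            hB hN hS ho hR hP hρ ?_
          have a1 := low h hB hS ho hR hP hV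
          obtain ⟨c0, -, c2, -⟩ := h.cc
          have a2 : 0 ≤ S.Wt c (S.fr (n + 1)) (n + 1) m 0 :=
            (WW_nonneg S _ _ _).trans (le_max_left _ _)
          rcases le_total 0 (S.dep c (S.fr (n + 1)) m p) with r0 | r0
          · have := Wt_le_add (c := c) S (S.fr (n + 1)) (n + 1) m r0
            linarith only [a1, c0, c2, a2, this]
          · linarith only [c0, c2, a2, r0]
      rw [pow_succ] at this ⊢
      linarith only [this]
  induction hR with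
  | start =>
    rintro ξ n rfl rfl rfl - - j h1 h2
    rw [show j = n + 1 by omega]; simp
  | @shallow η s P Ls m hR hc hP ih =>
    rintro ξ n rfl rfl rfl ho hH
    have hW := wt_le hB hS (st_fr S ho.1) (.shallow hR hc hP)
    have hr := ((hB Ex S hS).1 _ _ _ _ _ (st_fr S ho.1) hR).2
    obtain hρ : S.rho (S.fr (n + 1)) m (m + 1) ≠ 0 := by
      intro e
      obtain this : 0 < c.cb * c.L := by unfold Cs.cb; positivity
      rw [e] at hc; norm_num at hc; linarith only [this, hc]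
    refine gen ho hR hP hρ (hH.imp_right fun h1 => (mul_le_mul_of_nonneg_left hW C0).trans h1)
      (ih ξ n rfl rfl rfl ho (mono (by omega) hH)) fun j h1 h2 => ?_
    obtain rfl : j = m + 1 := by omega
    have hle := hr.le
    obtain e : S.wp c m (m + 1) = 1 := by
      refine le_antisymm (S.wh_le c _ zero_le_one fun i i1 i2 => ?_) ?_
      · rcases i2.eq_or_lt with rfl | i3
        · simp [Sq.fr_self, Sq.chi_self]
        · simp [S.fr_lt i3]
      · obtain this := S.abs_le_wh c (S.fr (m + 1)) (s := m + 1) (j := m + 1) (by omega)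
        rwa [S.fr_self, abs_one] at this
    obtain h3 : |S.fr (n + 1) (m + 1)| ≤ S.wp c n (m + 1) := S.abs_le_wh c _ (by omega)
    have h4 := abs_nonneg (S.fr (n + 1) (m + 1))
    rw [e, S.rho_one, ← abs_mul, mul_div_cancel₀ _ hr.ne]
    exact ⟨by linarith only [h3, h4], by simp⟩
  | @block η s P Ls m Ls' p r' hR hR' hP' hc hP ih ih' =>
    rintro ξ n rfl rfl rfl ho hH
    have hW := wt_le hB hS (st_fr S ho.1) (.block hR hR' hP' hc hP)
    have hmp : m + 1 ≤ p := hR'.le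
    have hr := ((hB Ex S hS).1 _ _ _ _ _ (st_fr S ho.1) hR).2
    have ho' := out_of h ho.1 hr
    obtain hρ : S.rho (S.fr (n + 1)) m p ≠ 0 := by
      intro e
      obtain this : 0 < c.cw * c.L := by unfold Cs.cw; positivity
      rw [e] at hc; norm_num at hc; linarith only [this, hc]
    obtain hH' : c.κ < 1 ∨ c.C0 * S.Wp c m p ≤ c.bl := hH.imp_right fun h1 => by
      refine le_trans (mul_le_mul_of_nonneg_left ?_ C0) h1
      have a1 := low h hB hS ho hR hP ((mul_le_mul_of_nonneg_left hW C0).trans h1)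
      have a2 := nest h hP'.1 hρ
      have a3 : 0 ≤ S.WW c (S.fr (n + 1)) (n + 1) p := WW_nonneg S _ _ _
      have a4 := h.cc.2.1
      unfold Sq.Wp at *
      linarith only [l0, hW, a1, a2, a3, a4]
    refine gen ho hR hP hρ (hH.imp_right fun h1 => (mul_le_mul_of_nonneg_left hW C0).trans h1)
      (ih ξ n rfl rfl rfl ho (mono (by omega) hH)) fun j h1 h2 => ⟨?_, ?_⟩
    · exact ((hK S _ _ m Ls' p hS (st_fr S ho.1) hr
        ((hB Ex S hS).1 _ _ _ _ _ (st_fr S ho'.1) hR').2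
        ((hB Ex S hS).2.1 _ _ _ _ _ ho' hR' hP'.1) hρ).2 j h1 h2).2.2.2.1
    · refine (ih' _ m rfl rfl rfl ho' hH' j h1 h2).trans
        (mul_le_of_le_one_left (S.wh_nonneg c _ _ _) ?_)
      obtain h3 : Real.exp (-c.lam / 3) ≤ 1 := Real.exp_le_one_iff.2 (by linarith only [l0])
      obtain h4 : (0 : ℝ) < (1 / 2) ^ Ls'.length := by positivity
      obtain h5 : (1 / 2 : ℝ) ^ Ls'.length ≤ 1 := pow_le_one₀ (by norm_num) (by norm_num)
      exact mul_le_one₀ h3 (by linarith only [h5]) (by linarith only [h4])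

theorem fin {M e θ β x l cc V : ℝ} (M0 : 1 ≤ M) (b0 : 16 * M ≤ β) (b1 : 8 * M ≤ (1 - θ) * β)
    (b2 : 4 * e ≤ 1 - θ) (e0 : 0 < e) (θ0 : 0 < θ) (c0 : 0 ≤ cc) (c1 : cc ≤ l / 20) (V0 : 0 ≤ V)
    (hV : V ≤ (1 + 2 * e) * (θ * V + cc) + 4 * x / β + l + cc) (_x0 : 0 ≤ x) :
    M * V ≤ β * l + x := by
  obtain β0 : 0 < β := by linarith only [M0, b0, b2, e0, θ0]
  obtain h0 : θ * V ≤ V := by nlinarith only [V0, M0, b0, b1]
  obtain h1 : 2 * e * (θ * V) ≤ (1 - θ) / 2 * V := by nlinarith only [b2, V0, e0, h0]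
  obtain h1' : e * cc ≤ cc := by nlinarith only [c0, b2, θ0]
  obtain h2 : (1 - θ) / 2 * V ≤ 4 * x / β + 2 * l := by linarith only [c0, c1, hV, h1, h1']
  have h3 := mul_le_mul_of_nonneg_left h2 β0.le
  rw [mul_add, mul_div_cancel₀ _ β0.ne'] at h3
  have h4 := mul_le_mul_of_nonneg_right b1 V0
  obtain h5 : 0 ≤ β * l := mul_nonneg β0.le (by linarith only [c0, c1])
  linarith only [h3, h4, h5]

theorem c1big {r θ κ W ε l : ℝ} (hr : r ≤ θ * (W + r) + ε * l / 20) (θ1 : θ < 1)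
    (hε : ε ≤ κ * (1 - θ) - θ) (ε0 : 0 < ε) (hW : l / 5 ≤ W) (l0 : 0 ≤ l) : r ≤ κ * W := by
  obtain h1 := mul_le_mul hε hW (by linarith only [l0]) (by linarith only [hε, ε0])
  have h2 := mul_nonneg ε0.le l0
  refine le_of_mul_le_mul_right ?_ (show 0 < 1 - θ by linarith only [θ1])
  linarith only [hr, h1, h2]

theorem c1small {r θ W cc l C β : ℝ} (hr : r ≤ θ * (W + r) + cc) (_θ0 : 0 < θ) (θ1 : θ < 1)
    (c1 : cc ≤ l / 20) (hW : W ≤ l / 5) (l0 : 0 ≤ l) (C0 : 0 ≤ C)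
    (hβ : C ≤ (1 - θ) * β) : C * (W + r) ≤ β * l := by
  obtain h1 : (W + r) * (1 - θ) ≤ l := by linarith only [hr, c1, hW, l0]
  have h2 := mul_le_mul_of_nonneg_left h1 C0
  have h3 := mul_le_mul_of_nonneg_right hβ l0
  refine le_of_mul_le_mul_right ?_ (show 0 < 1 - θ by linarith only [θ1])
  linarith only [h2, h3]

/-- items 2-4; `Ex` is any condition that implies `(C*)` -/
theorem mainA (h : K c) (hB : B1_s c) (hN : NUM_s c) {Ex : ExT}
    (hE : ∀ S ξ n Ls p r, Ex S ξ n Ls p r → Cstar c S ξ n Ls p r) {S : Sq} {ξ n Ls p r}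
    (hS : S.OK c) (ho : S.Out c ξ n)
    (hR : S.Run c Ex (S.fr (n + 1)) (n + 1) (S.PBd c Ex ξ n) Ls p) (hd : S.Bd c ξ n p r) :
    S.evs c (S.fr (n + 1)) (n + 1) Ls ≤ c.θb * S.Wp c n p + c.cc ∧
    S.sg c (S.fr (n + 1)) (n + 1) p ≤ 11 * c.ε' * (S.Wp c n p + c.cc) ∧
    Sq.sumR c Ls ≤ 15 * (S.Wp c n p + c.lam) := by
  obtain ⟨hc, hr⟩ := (hB Ex S hS).1 _ _ _ _ _ (st_fr S ho.1) hR
  have hb := (hB Ex S hS).2.1 _ _ _ _ _ ho hR hd
  obtain ⟨a1, a2, -, -, -⟩ := num h hN hS ho.1 hc hb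
  have W0 : 0 ≤ S.Wp c n p := WW_nonneg S _ _ _
  obtain ⟨θ0, θ1⟩ := h.θb
  obtain ⟨c0, c1, -, c3⟩ := h.cc
  have ε0 := h.ε'.1
  have l0 := h.lam
  obtain i2 : S.evs c (S.fr (n + 1)) (n + 1) Ls ≤ c.θb * S.Wp c n p + c.cc := by
    rcases Ls with _ | ⟨⟨m, r'⟩, Ls⟩
    · exact add_nonneg (mul_nonneg θ0.le W0) c0
    · have h1 : _ ≤ _ := hE _ _ _ _ _ _ (hR.tail c S).2.1.2.ex
      have h2 : _ ≤ S.Wp c n p := wt_le hB hS (st_fr S ho.1) hR
      have h3 := mul_le_mul_of_nonneg_left h2 θ0.le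
      obtain h4 : S.evs c (S.fr (n + 1)) (n + 1) ((m, r') :: Ls) =
        S.ev c (S.fr (n + 1)) (n + 1) m r' + S.evs c (S.fr (n + 1)) (n + 1) Ls := by simp [Sq.evs]
      linarith only [h1, h3, h4]
  obtain i2' : S.evs c (S.fr (n + 1)) (n + 1) Ls ≤ S.Wp c n p + c.cc := by
    have := mul_le_mul_of_nonneg_right θ1.le W0
    linarith only [i2, this]
  refine ⟨i2, ?_, ?_⟩
  · have h1 := mul_le_mul_of_nonneg_left i2' ε0.le
    have h2 := mul_nonneg ε0.le W0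
    linarith only [a1, c3, h1, h2]
  · have h1 := hb.len
    rw [le_div_iff₀ (by linarith only [θ0, θ1, l0])] at h1
    have h2 : c.cc * Ls.length ≤ c.lam / 20 * Ls.length :=
      mul_le_mul_of_nonneg_right c1 (Nat.cast_nonneg _)
    have := h.l2
    linarith only [a2, W0, θ0, θ1, c1, l0, i2', h1, h2, this]

/-- item 5 -/
theorem mainB (h : K c) (hθ : c.θb / (1 - c.θb) < c.κ) (hB : B1_s c) (hN : NUM_s c) {Ex : ExT}
    (hE : ∀ S ξ n Ls p r, Ex S ξ n Ls p r → Cstar c S ξ n Ls p r) {S : Sq} {ξ n Ls p r}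
    (hS : S.OK c) (ho : S.Out c ξ n)
    (hR : S.Run c Ex (S.fr (n + 1)) (n + 1) (S.PBd c Ex ξ n) Ls p) (hd : S.Bd c ξ n p r)
    (hC : Cstar c S ξ n Ls p r)
    (h3 : S.evs c (S.fr (n + 1)) (n + 1) Ls + S.ev c (S.fr (n + 1)) (n + 1) p r ≤
      S.xx c n (S.Wt c (S.fr (n + 1)) (n + 1) p r)) :
    r ≤ c.κ * S.Wt c (S.fr (n + 1)) (n + 1) p 0 + c.c1 ∧
      c.M1 * S.Wt c (S.fr (n + 1)) (n + 1) p r ≤ S.chi c n p := by
  obtain ⟨hc, hr⟩ := (hB Ex S hS).1 _ _ _ _ _ (st_fr S ho.1) hR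
  have hb := (hB Ex S hS).2.1 _ _ _ _ _ ho hR hd
  obtain ⟨a1, -, -, -, a5⟩ := num h hN hS ho.1 hc hb
  have i3 := (mainA h hB hN hE hS ho hR hd).2.1
  have W0 : 0 ≤ S.Wp c n p := WW_nonneg S _ _ _
  obtain ⟨θ0, θ1⟩ := h.θb
  obtain ⟨c0, c1, c2, c3⟩ := h.cc
  obtain ⟨ε0, ε1, ε2, ε3⟩ := h.ε'
  obtain ⟨e0, e1⟩ := h.e3
  have l0 := h.lam
  have y0 := evs_nonneg h S (S.fr (n + 1)) (n + 1) Ls
  have hC' : _ ≤ _ := hC
  have v0 := ev_nonneg h S (S.fr (n + 1)) (n + 1) p r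
  have sg0 : 0 ≤ S.sg c (S.fr (n + 1)) (n + 1) p := le_max_right _ _
  have w1 : S.Wp c n p ≤ S.Wt c (S.fr (n + 1)) (n + 1) p 0 := le_max_left _ _
  have w2 := Wt_le (c := c) S (S.fr (n + 1)) (n + 1) p r
  obtain s1 : S.sg c (S.fr (n + 1)) (n + 1) p ≤ S.sg c (S.fr (n + 1)) (n + 1) p / c.e3 :=
    le_div_self sg0 e0 (by linarith only [ε0, ε1, e1])
  obtain x0 : 0 ≤ S.chi c (n + 1) p := by
    refine le_trans (mul_nonneg (by linarith only [ε0, ε1, e1, h.chK.1]) ?_) (S.chi_ge c h.chK.2.1 hr.le)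
    exact_mod_cast sub_nonneg.2 hr.le
  obtain x1 : S.chi c n p = c.β * c.lam + S.chi c (n + 1) p := by
    rw [S.chi_add c (by omega) hr.le, S.chi_succ, Sq.ch1, hb.kz.1, Cs.bl]; ring
  have V0 : 0 ≤ S.Wt c (S.fr (n + 1)) (n + 1) p r := W0.trans (le_max_left _ _)
  have fn := fun hV => fin h.M1 h.β h.βθ h.e3θ e0 θ0 c0 c1 V0 hV x0
  rw [← x1] at fn
  have g0 : 0 ≤ c.Γ / c.e3 := div_nonneg h.Γ e0.le
  have l3 := h.l3
  have k0 := mul_nonneg h.κ.le (W0.trans w1)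
  have ey := mul_nonneg e0.le y0
  obtain h5 := mul_le_mul_of_nonneg_left hC' (show 0 ≤ 1 + 2 * c.e3 by linarith only [ε0, ε1, e1])
  by_cases hv : S.sg c (S.fr (n + 1)) (n + 1) p / c.e3 + c.cc ≤ r
  · have e : S.ev c (S.fr (n + 1)) (n + 1) p r = r := if_pos hv
    rw [e] at hC' h3 h5
    obtain r0 : 0 ≤ r := by linarith only [c0, sg0, s1, hv]
    have er := mul_nonneg e0.le r0
    rw [max_eq_right (by linarith only [c0, s1, hv])] at w2
    refine ⟨?_, fn (by linarith only [a5, c0, w2, g0, l3, ey, h5, er])⟩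
    have h1 := Wt_le_add (c := c) S (S.fr (n + 1)) (n + 1) p r0
    have h2 := mul_le_mul_of_nonneg_left h1 θ0.le
    obtain h4 : r ≤ c.θb * (S.Wt c (S.fr (n + 1)) (n + 1) p 0 + r) + c.cc := by linarith only [y0, hC', h2]
    rcases le_total (c.lam / 5) (S.Wt c (S.fr (n + 1)) (n + 1) p 0) with hW | hW
    · obtain this := c1big h4 θ1 (h.εg hθ) h.ε.1 hW (by linarith only [ε0, ε1, e1, l0])
      linarith only [c0, c2, this]
    · obtain C0 : 0 ≤ c.C0 := by linarith only [ε0, ε1, e1, h.C0]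
      obtain h6 := xx_low h hb.kz.2.1 ((mul_le_mul_of_nonneg_left h1 C0).trans
        (c1small h4 θ0 θ1 c1 hW (by linarith only [ε0, ε1, e1, l0]) C0 h.βC))
      have h7 := mul_le_mul_of_nonneg_left h1 h.ε.1.le
      have h8 := mul_le_mul_of_nonneg_right h.ε.2 r0
      have h9 := mul_le_mul_of_nonneg_right h.εκ (W0.trans w1)
      linarith only [h3, c0, c2, y0, k0, h6, h7, h8, h9]
  · obtain h1 : S.sg c (S.fr (n + 1)) (n + 1) p / c.e3 ≤ 11 * c.e3 ^ 3 * (S.Wp c n p + c.cc) := by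
      rw [div_le_iff₀ e0]; refine i3.trans_eq ?_; unfold Cs.ε'; ring
    obtain h2 : S.sg c (S.fr (n + 1)) (n + 1) p / c.e3 ≤
        c.Γ / c.e3 + 10 * c.e3 ^ 3 * S.evs c (S.fr (n + 1)) (n + 1) Ls := by
      rw [div_le_iff₀ e0, add_mul, div_mul_cancel₀ _ e0.ne']
      refine a1.trans_eq ?_; unfold Cs.ε'; ring
    obtain h3 : max (S.sg c (S.fr (n + 1)) (n + 1) p) r ≤
        S.sg c (S.fr (n + 1)) (n + 1) p / c.e3 + c.cc := max_le (by linarith only [c0, s1]) (by linarith only [hv])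
    obtain h4 : 10 * c.e3 ^ 3 * S.evs c (S.fr (n + 1)) (n + 1) Ls ≤
        c.e3 * S.evs c (S.fr (n + 1)) (n + 1) Ls :=
      mul_le_mul_of_nonneg_right (by linarith only [ε0, ε1, ε3, pow_pos e0 3]) y0
    have ev := mul_nonneg e0.le v0
    refine ⟨?_, fn (by linarith only [a5, v0, w2, l3, h5, h2, h3, h4, ev])⟩
    have h6 := mul_le_mul_of_nonneg_right ε3 (add_nonneg W0 c0)
    have h7 := mul_le_mul (h.e3κ) w1 W0 h.κ.le
    obtain h8 : c.e3 * c.cc ≤ c.cc := mul_le_of_le_one_left c0 (by linarith only [ε0, ε1, e1])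
    linarith only [c0, c2, hv, h1, h6, h7, h8]

end B5

theorem b5 : Hier fun c => B1_s c → NUM_s c → BLK_s c → B5_s c := by
  refine B5.hK.mono fun c h hB hN hK hθ Ex hE S ξ n Ls p r hS ho hR hd => ?_
  obtain ⟨a1, a2, a3⟩ := B5.mainA h hB hN hE hS ho hR hd
  refine ⟨fun hH j h1 h2 => ?_, a1, a2, a3, B5.mainB h hθ hB hN hE hS ho hR hd⟩
  refine (B5.speed h hB hN hK hS hR ξ n rfl rfl rfl ho hH j h1 h2).trans
    (mul_le_mul_of_nonneg_right (mul_le_of_le_one_right (Real.exp_pos _).le ?_)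
      (S.wh_nonneg c _ _ _))
  obtain this : (0 : ℝ) < (1 / 2) ^ Ls.length := by positivity
  linarith only [this]

end Pool.Agent.MP_9cbfe4_an

end

/-! ### Part T1a -/

section

/-! Row T1, part a: constants, the fold lemma, the horizon of a witness. -/

namespace Pool.Agent.MP_9cbfe4_an
namespace T1
open Finset

structure Big (c : Cs) : Prop where
  k_lo : 1 / 16 ≤ c.k0
  k_hi : c.k0 < 1 / 2
  CG : 1 ≤ c.CG
  C0 : 1 ≤ c.C0
  C1 : 1 ≤ c.C1
  a0 : 0 < c.a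
  a1 : c.a ≤ 1 / 100
  M1 : 6000 * (2 + 16 * c.C0 * c.C1) ≤ c.M1
  β : 300 ≤ c.β
  lam : 10 ^ 4 * (2 + 16 * c.C0 * c.C1) ≤ c.lam
  L0 : 1 ≤ c.L
  L : 10 ^ 13 * c.CG ^ 2 * c.lam ^ 2 ≤ Real.exp (1 * c.lam)

theorem big : Hier Big := by
  have h1 := Hier.C0_ge fun _ _ _ _ => 1
  have h2 := Hier.C1_ge fun _ _ _ _ _ => 1
  obtain h3 := Hier.a_le (fun _ => 1 / 100) (fun _ _ _ _ _ _ => rfl) (Hier.of_all fun _ => by norm_num)
  have h4 := Hier.M1_ge (fun c => 6000 * (2 + 16 * c.C0 * c.C1)) fun _ _ _ _ => rfl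
  have h5 := Hier.β_ge (fun _ => 300) fun _ _ _ => rfl
  have h6 := Hier.lam_ge (fun c => 10 ^ 4 * (2 + 16 * c.C0 * c.C1)) fun _ _ => rfl
  have h7 := Hier.L_ge (fun _ => 1) fun _ _ => rfl
  have h8 := Hier.pow_le_exp (fun c => 10 ^ 13 * c.CG ^ 2) (fun _ => 1) 2 (fun _ _ => rfl)
    (fun _ _ => rfl) (Hier.of_all fun _ => one_pos)
  refine (Hier.base.and (h1.and (h2.and (h3.and (h4.and (h5.and (h6.and (h7.and h8)))))))).mono ?_
  rintro c ⟨⟨b1, b2, -, -, -, b3⟩, e1, e2, ⟨e3, e3'⟩, e4, e5, e6, e7, e8⟩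
  exact ⟨b1, b2, b3, e1, e2, e3, e3', e4, e5, e6, e7, e8⟩

namespace Big
variable {c : Cs} (h : Big c)
include h

theorem K0 : 1 ≤ c.C0 * c.C1 := one_le_mul_of_one_le_of_one_le h.C0 h.C1
theorem lam4 : 10 ^ 4 ≤ c.lam := by have := h.lam; have := h.K0; (rename_i zq0; linarith only [zq0, this])
theorem expL : Real.exp c.lam = c.L := Real.exp_log (by have := h.L0; linarith only [this])
theorem Lbig : 10 ^ 13 * c.CG ^ 2 * c.lam ^ 2 ≤ c.L := by
  have := h.L; rwa [one_mul, h.expL] at this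
theorem Lbig' : 10 ^ 13 * c.CG ^ 2 ≤ c.L := by
  have h1 := h.Lbig
  obtain h2 : 1 ≤ c.lam ^ 2 := one_le_pow₀ (by have := h.lam4; linarith only [this])
  obtain h3 : 0 ≤ 10 ^ 13 * c.CG ^ 2 := by positivity
  nlinarith only [h1, h2]
theorem L13 : 10 ^ 13 ≤ c.L := by
  have h1 := h.Lbig'
  have h2 : 1 ≤ c.CG ^ 2 := one_le_pow₀ h.CG
  linarith only [h1, h2]
theorem bl : 300 * c.lam ≤ c.bl := by
  have := h.β; have := h.lam4; unfold Cs.bl; (rename_i zq0; nlinarith only [zq0, this])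
theorem chK : 1 / 2 ≤ c.chK ∧ c.chK ≤ 15 := by
  have h1 := h.k_lo; have h2 := h.k_hi
  obtain h0 : 0 < c.k0 := by linarith only [h1, h2]
  obtain e1 : 2 ≤ 1 / c.k0 := by rw [le_div_iff₀ h0]; linarith only [h2]
  obtain e2 : 1 / c.k0 ≤ 16 := by rw [div_le_iff₀ h0]; linarith only [h1]
  unfold Cs.chK
  constructor
  · obtain this := Real.log_le_log (by norm_num) e1
    have := Real.log_two_gt_d9
    (rename_i zq0; linarith only [h2, h0, zq0, this])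
  · obtain this := Real.log_le_sub_one_of_pos (show 0 < 1 / c.k0 by positivity)
    linarith only [e2, this]
theorem chK_bl : c.chK ≤ c.bl := by have := h.chK.2; have := h.bl; have := h.lam4; (rename_i zq1 zq0; linarith only [zq1, zq0, this])
end Big

theorem sin_sub {x u : ℝ} (hx : |Real.sin x| ≤ 1 / 100) (hu : |u| ≤ 1 / 1000) :
    9 / 10 * |u| ≤ |Real.sin (x + u) - Real.sin x| := by
  obtain hc : 99 / 100 ≤ |Real.cos x| := by
    have h1 := Real.sin_sq_add_cos_sq x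
    obtain h2 : Real.sin x ^ 2 ≤ (1 / 100) ^ 2 := by rw [← sq_abs]; gcongr
    by_contra hh
    obtain h3 : |Real.cos x| ^ 2 ≤ (99 / 100) ^ 2 := by
      have := abs_nonneg (Real.cos x); gcongr; linarith only [hh]
    rw [sq_abs] at h3; linarith only [h1, h2, h3]
  obtain hs : 99 / 100 * |u| ≤ |Real.sin u| := by
    obtain key : ∀ y : ℝ, 0 < y → y ≤ 1 / 1000 → 99 / 100 * y ≤ Real.sin y := fun y h0 h1 => by
      have := Real.sin_gt_sub_cube h0
      nlinarith only [h0, this, h1, mul_pos h0 h0]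
    rcases lt_trichotomy u 0 with h0 | h0 | h0
    · rw [abs_of_neg h0] at hu ⊢
      obtain this := key (-u) (by linarith only [h0]) hu
      rw [Real.sin_neg] at this
      exact this.trans (neg_le_abs _)
    · simp [h0]
    · rw [abs_of_pos h0] at hu ⊢
      exact (key u h0 hu).trans (le_abs_self _)
  obtain hcu : |Real.cos u - 1| ≤ |u| := by
    have := Real.abs_cos_sub_cos_le u 0
    simpa using this
  obtain e : Real.cos x * Real.sin u = (Real.sin (x + u) - Real.sin x) - Real.sin x * (Real.cos u - 1) := by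
    rw [Real.sin_add]; ring
  obtain h1 : |Real.cos x| * |Real.sin u| ≤ |Real.sin (x + u) - Real.sin x| + 1 / 100 * |u| := by
    rw [← abs_mul, e]
    refine (abs_sub _ _).trans ?_
    rw [abs_mul]; gcongr
  obtain h2 : 99 / 100 * (99 / 100 * |u|) ≤ |Real.cos x| * |Real.sin u| := by gcongr
  have := abs_nonneg u
  linarith only [h1, h2, this]

variable {c : Cs} {Ex : ExT} {S : Sq} {ξ : ℤ → ℝ} {n : ℤ}

theorem st_fr (hn : 0 ≤ n) : S.St c (S.fr (n + 1)) (n + 1) :=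
  ⟨by omega, S.fr_sol _, S.fr_self _, by
    rw [S.fr_lt (by omega), abs_zero]; exact (Real.exp_pos _).le⟩

theorem wp_one (c : Cs) (S : Sq) (n : ℤ) : S.wp c n (n + 1) = 1 := by
  apply le_antisymm
  · refine S.wh_le c _ zero_le_one fun i h1 h2 => ?_
    rcases eq_or_lt_of_le h2 with rfl | h3
    · simp [S.fr_self, S.chi_self]
    · simp [S.fr_lt h3]
  · obtain this := S.abs_le_wh c (S.fr (n + 1)) (s := n + 1) (j := n + 1) (by omega)
    rwa [S.fr_self, abs_one] at this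

theorem ch1_zero {j : ℤ} (h : S.kk j = 0) : S.ch1 c j = c.bl := by simp [Sq.ch1, h]

theorem brun_inv (hB1 : B1_s c) (hS : S.OK c) (ho : S.Out c ξ n) {Ls J r}
    (h : S.BRun c Ex ξ n Ls J r) :
    S.Chain c Ex (S.fr (n + 1)) (n + 1) (n + 1) Ls J ∧ S.RInv c (S.fr (n + 1)) (n + 1) J ∧
      S.BInv c n Ls J :=
  have h1 := (hB1 Ex S hS).1 _ _ _ _ _ (st_fr ho.1) h.1
  ⟨h1.1, h1.2, (hB1 Ex S hS).2.1 ξ n Ls J r ho h.1 h.2.1⟩

/-- the one-step ratio at a witnessed time -/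
theorem rt_le (h : Big c) (hB1 : B1_s c) (hR : RHO_s c) (hS : S.OK c) (ho : S.Out c ξ n) {r : ℝ}
    (hr : 1 ≤ r) (hw : S.Wit c Ex ξ n r) :
    |S.rho ξ n (n + 1)| ≤ c.L * Real.exp (-r) + Real.exp (-(3 / 4 * c.bl)) := by
  rcases hw with hw | hw | ⟨Ls, J, rJ, hb, h1, -⟩
  · linarith only [hr, hw]
  · have := Real.exp_pos (-(3 / 4 * c.bl)); linarith only [this, hw.1]
  · obtain ⟨-, hi, hbi⟩ := brun_inv hB1 hS ho hb
    obtain h2 := (hR S ξ n Ls J hS ho hi hbi).2 (n + 1) (by omega) hi.le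
      (by rw [wp_one, S.fr_self, abs_one])
    rw [S.chi_succ, ch1_zero hbi.kz.1] at h2
    obtain h3 : Real.exp (-(1 - 2 * c.a) * c.bl) ≤ Real.exp (-(3 / 4 * c.bl)) := by
      apply Real.exp_le_exp.2
      have := h.a1; have := h.bl; have := h.lam4
      (rename_i zq1 zq0; nlinarith only [zq1, zq0, this])
    have := abs_sub_abs_le_abs_sub (S.rho ξ n (n + 1)) (S.rho ξ n J)
    linarith only [h1, h2, h3, this]

theorem slope_le (ho : S.Out c ξ n) : |ξ (n - 1) / ξ n| ≤ Real.exp (-c.lam / 5) := by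
  rw [abs_div, div_le_iff₀ (abs_pos.2 ho.2.2.1)]; exact ho.2.2.2

theorem slope_small (h : Big c) : Real.exp (-c.lam / 5) ≤ 1 / 10 := by
  have h1 := Real.add_one_le_exp (c.lam / 5)
  have h2 := h.lam4
  rw [neg_div, Real.exp_neg, inv_le_comm₀ (Real.exp_pos _) (by norm_num)]
  linarith only [h1, h2]

/-- a witnessed time is a fold time -/
theorem fold (h : Big c) {M : Mdl} {t r : ℝ} (hM : M.OK c) (ht : TI t) (hO : IsOrb c M t S n)
    (hS : S.OK c) (ho : S.Out c ξ n) (hr : 1 ≤ r)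
    (hρ : |S.rho ξ n (n + 1)| ≤ c.L * Real.exp (-r) + Real.exp (-(3 / 4 * c.bl))) :
    5 / 100 ≤ dP (S.X n) ∧ S.b n ≤ Real.exp (-c.bl) ∧
      c.L * |Real.sin (S.X n)| ≤ c.L * Real.exp (-r) + 3 * Real.exp (-(3 / 4 * c.bl)) := by
  have hL := h.L13
  obtain hbl : 0 ≤ c.bl := by have := h.bl; have := h.lam4; (rename_i zq0; linarith only [zq0, this])
  obtain hx := hO.box n (by omega)
  have hy := hO.box (n - 1) le_rfl
  obtain e : S.a n = S.rho ξ n (n + 1) - S.b n * (ξ (n - 1) / ξ n) := by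
    rw [S.rho_one, ho.2.1 n le_rfl]; field_simp [ho.2.2.1]; ring
  have hs := (slope_le ho).trans (slope_small h)
  obtain hb0 : 0 ≤ S.b n := le_trans (by positivity) (hS.b_lo n ho.1)
  obtain ha : |S.a n| ≤ |S.rho ξ n (n + 1)| + S.b n * (1 / 10) := by
    rw [e]; refine (abs_sub _ _).trans ?_
    rw [abs_mul, abs_of_nonneg hb0]; (clear * - hs hb0; gcongr)
  obtain e1 : Real.exp (-(3 / 4 * c.bl)) ≤ 1 := Real.exp_le_one_iff.2 (by linarith only [hbl])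
  obtain hd : 5 / 100 ≤ dP (S.X n) := by
    by_contra hd
    have h1 := hS.a_Z n ho.1 (not_le.1 hd)
    obtain h2 : S.b n ≤ c.k0 * c.L + 1 := by rw [hO.hb n le_rfl]; exact hM.b_hi t _ _ ht hx hy
    obtain h3 : Real.exp (-r) ≤ 1 / 2 := by
      have := Real.add_one_le_exp r
      rw [Real.exp_neg, inv_le_comm₀ (Real.exp_pos _) (by norm_num)]; linarith only [hr, this]
    obtain h4 : c.L * Real.exp (-r) ≤ c.L * (1 / 2) := by (clear * - h3 hL; gcongr)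
    obtain h5 : c.k0 * c.L ≤ 1 / 2 * c.L := by have := h.k_hi; gcongr
    linarith only [hρ, hL, ha, e1, h1, h2, h4, h5]
  obtain hb : S.b n ≤ Real.exp (-c.bl) := by
    rw [hO.hb n le_rfl]; exact hM.b_N t _ _ ht hx hy (Or.inl (by linarith only [hd]))
  refine ⟨hd, hb, ?_⟩
  obtain h1 := hM.a_N t _ _ ht hx hy (by linarith only [hd])
  rw [← hO.ha n le_rfl] at h1
  obtain h2 : c.dl ≤ Real.exp (-(3 / 4 * c.bl)) := Real.exp_le_exp.2 (by linarith only [hbl])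
  obtain h3 : Real.exp (-c.bl) ≤ Real.exp (-(3 / 4 * c.bl)) := Real.exp_le_exp.2 (by linarith only [hbl])
  obtain h4 : c.L * |Real.sin (S.X n)| = |S.a n + c.L * Real.sin (S.X n) - S.a n| := by
    rw [add_sub_cancel_left, abs_mul, abs_of_nonneg (by linarith only [hL] : 0 ≤ c.L)]
  have h5 := abs_sub (S.a n + c.L * Real.sin (S.X n)) (S.a n)
  linarith only [hρ, hb0, ha, hb, h1, h2, h3, h4, h5]

/-- the first free time of a bound run with contraction `≥ y` -/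
theorem first_free (h : Big c) (hB1 : B1_s c) (hS : S.OK c) (ho : S.Out c ξ n) {y : ℝ} (hy : 0 ≤ y) :
    ∀ Ls J r, S.BRun c Ex ξ n Ls J r → y ≤ S.chi c n J →
      ∃ Ls' j r', S.BRun c Ex ξ n Ls' j r' ∧ j ≤ J ∧ y ≤ S.chi c n j ∧ S.Wp c n j ≤ y / c.M1 + 5 := by
  obtain hM : 0 < c.M1 := by have := h.M1; have := h.K0; (rename_i zq0; linarith only [zq0, this])
  intro Ls
  induction Ls with
  | nil =>
    intro J r hb hy'
    refine ⟨[], J, r, hb, le_rfl, hy', ?_⟩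
    have : J = n + 1 := Sq.Run.nil c S hb.1
    subst this
    obtain this : 0 ≤ y / c.M1 := by (clear * - hy hM; positivity)
    simp only [Sq.Wp, Sq.WW, S.AA_self, Real.log_one]; linarith only [this]
  | cons x Ls ih =>
    obtain ⟨m, rm⟩ := x
    intro J r hb hy'
    obtain ⟨h1, h2, h3, -⟩ := Sq.Run.tail c S hb.1
    by_cases hc : y ≤ S.chi c n m
    · obtain ⟨Ls', j, r', e1, e2, e3⟩ := ih m rm ⟨h1, h2⟩ hc
      exact ⟨Ls', j, r', e1, by omega, e3⟩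
    refine ⟨_, J, r, hb, le_rfl, hy', ?_⟩
    obtain ⟨hch, -, -⟩ := brun_inv hB1 hS ho hb
    cases hch with
    | cons _ hst _ =>
      have e1 := hst.A_hi
      have e2 := h2.2.c2
      set W := S.Wt c (S.fr (n + 1)) (n + 1) m rm with hW
      obtain e3 : W ≤ y / c.M1 := by rw [le_div_iff₀ hM]; linarith only [hc, e2]
      obtain e4 : S.AA c (S.fr (n + 1)) (n + 1) m ≤ Real.exp W := by
        have h1 := S.one_le_AA c (S.fr (n + 1)) (n + 1) m
        rw [← Real.exp_log (lt_of_lt_of_le one_pos h1)]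
        exact Real.exp_le_exp.2 (le_max_left _ _)
      obtain e5 : |S.fr (n + 1) m| * Real.exp rm ≤ Real.exp W := by
        rcases eq_or_lt_of_le (abs_nonneg (S.fr (n + 1) m)) with h0 | h0
        · rw [← h0, zero_mul]; exact (Real.exp_pos _).le
        · rw [← Real.exp_log h0, ← Real.exp_add]
          exact Real.exp_le_exp.2 (le_max_right _ _)
      obtain e6 : (101 : ℝ) ≤ Real.exp 5 := by
        obtain h1 : (2.7 : ℝ) ≤ Real.exp 1 := by have := Real.exp_one_gt_d9; linarith only [this]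
        obtain h2 : Real.exp 5 = Real.exp 1 ^ 5 := by rw [← Real.exp_nat_mul]; norm_num
        obtain h3 : (2.7 : ℝ) ^ 5 ≤ Real.exp 1 ^ 5 := by (clear * - h1; gcongr)
        rw [h2]; linarith only [h3, show (101 : ℝ) ≤ 2.7 ^ 5 by norm_num]
      obtain e7 : S.AA c (S.fr (n + 1)) (n + 1) J ≤ Real.exp (W + 5) := by
        rw [Real.exp_add]; nlinarith only [e1, e4, e5, e6, Real.exp_pos W]
      have h1 := S.one_le_AA c (S.fr (n + 1)) (n + 1) J
      obtain e8 : S.Wp c n J ≤ W + 5 := (Real.log_le_iff_le_exp (by linarith only [h1])).2 e7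
      linarith only [e3, e8]

/-- horizon data of a deep witness -/
theorem horizon (h : Big c) (hB1 : B1_s c) (hR : RHO_s c) (hS : S.OK c) (ho : S.Out c ξ n) {r : ℝ}
    (hr : 3 / 4 * c.bl ≤ r) (hw : S.Wit c Ex ξ n r) :
    ∃ Ls j, S.RInv c (S.fr (n + 1)) (n + 1) j ∧ S.BInv c n Ls j ∧ 3 * r ≤ S.chi c n j ∧
      S.Wp c n j ≤ 3 * r / c.M1 + 5 ∧ |S.rho ξ n j| ≤ 2 * (c.L * Real.exp (-r)) := by
  have hbl := h.bl; have hl := h.lam4
  rcases hw with hw | hw | ⟨Ls, J, rJ, hb, h1, h2⟩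
  · linarith only [hr, hbl, hl, hw]
  · linarith only [hr, hbl, hl, hw.2]
  obtain ⟨Ls', j, r', e1, e2, e3, e4⟩ := first_free h hB1 hS ho (by linarith only [hr, hbl, hl]) Ls J rJ hb h2
  obtain ⟨-, hi, hbi⟩ := brun_inv hB1 hS ho hb
  obtain ⟨-, hi', hbi'⟩ := brun_inv hB1 hS ho e1
  refine ⟨Ls', j, hi', hbi', e3, e4, ?_⟩
  obtain h3 := (hR S ξ n Ls J hS ho hi hbi).2 j (by have := hi'.le; omega) e2 hi'.whm
  obtain h4 : Real.exp (-(1 - 2 * c.a) * S.chi c n j) ≤ Real.exp (-r) := by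
    apply Real.exp_le_exp.2
    have := h.a1
    nlinarith only [hr, hbl, hl, e3, this]
  have h5 : Real.exp (-r) ≤ c.L * Real.exp (-r) := le_mul_of_one_le_left (Real.exp_pos _).le h.L0
  have := abs_sub_abs_le_abs_sub (S.rho ξ n j) (S.rho ξ n J)
  linarith only [h1, h3, h4, h5, this]

end T1
end Pool.Agent.MP_9cbfe4_an

end

/-! ### Part T1b -/

section

/-! Row T1, part b: comparison of two deep points at a common horizon. -/

namespace Pool.Agent.MP_9cbfe4_an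
namespace T1
open Finset

variable {c : Cs} {S T : Sq} {n j : ℤ} {r : ℝ}

theorem growth (h : Big c) {Ls} (hb : S.BInv c n Ls j) (hr : 3 / 4 * c.bl ≤ r)
    (hW : S.Wp c n j ≤ 3 * r / c.M1 + 5) :
    Real.exp (S.Wp c n j) ≤ Real.exp (r / 1000) ∧ ∀ l, n < l → l ≤ j →
      ∑ i ∈ Ico (n + 1) l, |S.fr (i + 1) l| ≤ Real.exp (r / 1000) * S.wp c n l := by
  have hK := h.K0; have hbl := h.bl; have hl := h.lam4; have hl' := h.lam; have hM := h.M1
  have hC0 := h.C0; have hC1 := h.C1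
  set W := S.Wp c n j with hWd
  have hW0 : 0 ≤ W := Real.log_nonneg (S.one_le_AA c _ _ _)
  set K := 2 + 16 * c.C0 * c.C1 with hKd
  obtain hK1 : 1 ≤ K := by rw [hKd]; linarith only [hK]
  obtain hr0 : 0 ≤ r := by linarith only [hr, hK, hbl, hl']
  obtain e1 : K * (3 * r / c.M1) ≤ r / 2000 := by
    rw [← mul_div_assoc, div_le_div_iff₀ (by linarith only [hK, hM]) (by norm_num)]; nlinarith only [hM, hr, hbl, hl]
  obtain e2 : K * W ≤ r / 1000 := by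
    obtain this : K * W ≤ K * (3 * r / c.M1 + 5) := by gcongr
    linarith only [hr, hK, hbl, hl', e1, this]
  refine ⟨Real.exp_le_exp.2 (by nlinarith only [hr, hK, hbl, hW, hl', e1, hW0]), fun l h1 h2 => (hb.i8n l h1 h2).trans ?_⟩
  refine mul_le_mul_of_nonneg_right ?_ (S.wh_nonneg c _ _ _)
  obtain hQ : 0 ≤ c.Q := mul_nonneg h.a0.le (by linarith only [hK, hbl, hl'])
  obtain e3 := S.load_le c h.chK.1 h.chK_bl (by linarith only [hC0]) hQ n W
  rw [max_eq_left hW0] at e3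
  obtain e4 : (Ls.length : ℝ) ≤ Real.exp (W + 9) := by
    refine hb.len.trans ?_
    rw [div_le_iff₀ (by linarith only [hK, hl'])]
    have := Real.add_one_le_exp (W + 9)
    nlinarith only [hW0, this, hl]
  rw [← hWd]
  calc _ ≤ Real.exp (W + 9) * Real.exp (W + 8 * c.C1 * S.load c n W - c.lam / 2) := by (clear * - e4; gcongr)
    _ ≤ _ := by
      rw [← Real.exp_add]
      apply Real.exp_le_exp.2
      obtain e5 : 8 * c.C1 * S.load c n W ≤ 8 * c.C1 * (2 * c.C0 * W + 1) := by (clear * - e3 hC1; gcongr)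
      obtain e6 : c.C1 ≤ c.C0 * c.C1 := le_mul_of_one_le_left (by linarith only [hC1]) hC0
      obtain e7 : K * W = 2 * W + 8 * c.C1 * (2 * c.C0 * W) := by rw [hKd]; ring
      obtain e8 : K = 2 + 16 * (c.C0 * c.C1) := by rw [hKd]; ring
      linarith only [hK, hl', e2, e5, e6]

theorem chi_cmp (h : Big c) (hk : S.kk (n + 1) = 0) (hk' : T.kk (n + 1) = 0) (hj : n < j)
    (H : ∀ l, n + 1 < l → l < j → |T.ch1 c l - S.ch1 c l| ≤ c.a / 10 * S.ch1 c l) :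
    (1 - c.a / 10) * S.chi c n j - c.bl ≤ T.chi c n j := by
  have ha := h.a0; have ha' := h.a1; have hK := h.chK.1
  obtain e : c.bl = ∑ l ∈ Ioc n j, if l = j then c.bl else 0 := by simp [hj]
  conv_lhs => rw [e]
  unfold Sq.chi
  rw [mul_sum, ← sum_sub_distrib]
  refine sum_le_sum fun l hl => ?_
  rw [mem_Ioc] at hl
  have h1 := S.ch1_mem c h.chK_bl l
  have h2 := T.ch1_mem c h.chK_bl l
  obtain h3 : 0 ≤ c.a / 10 * S.ch1 c l := mul_nonneg (by linarith only [ha]) (by linarith only [ha, ha', hK, h1])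
  split_ifs with hc
  · linarith only [ha, ha', hK, h1, h2, h3]
  · rcases eq_or_lt_of_le (show n + 1 ≤ l by omega) with rfl | h4
    · rw [ch1_zero hk'] ; rw [ch1_zero hk] at h3 ⊢; linarith only [h3]
    · obtain this := (abs_le.1 (H l h4 (by omega))).1; linarith only [this]

theorem ratio {f1 f1' f2 f2' δ B W : ℝ} (hW : 0 < W) (h1 : |f1| = W) (h1' : |f1' - f1| ≤ δ * 1 * W)
    (h2 : |f2| ≤ B * W) (h2' : |f2' - f2| ≤ δ * B * W) (hδ : δ ≤ 1 / 2) :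
    W / 2 ≤ |f1'| ∧ |f2' / f1' - f2 / f1| ≤ 4 * (δ * B) ∧ |f2 / f1| ≤ B := by
  obtain e1 : W / 2 ≤ |f1'| := by
    have := abs_sub_abs_le_abs_sub f1 f1'
    rw [abs_sub_comm] at this
    nlinarith only [h1, h1', this, hW, hδ]
  obtain n1 : f1 ≠ 0 := by rw [← abs_pos]; linarith only [hW, h1]
  obtain n1' : f1' ≠ 0 := by rw [← abs_pos]; linarith only [hW, e1]
  refine ⟨e1, ?_, by rw [abs_div, h1, div_le_iff₀ hW]; exact h2⟩
  obtain e : f2' / f1' - f2 / f1 = ((f2' - f2) * f1 - f2 * (f1' - f1)) / (f1' * f1) := by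
    field_simp; ring
  have hB : 0 ≤ δ * B * W := (abs_nonneg _).trans h2'
  obtain hB' : 0 ≤ δ * B := by by_contra hh; nlinarith only [hB, hW, hh]
  rw [e, abs_div, abs_mul, h1, div_le_iff₀ (by positivity)]
  refine (abs_sub _ _).trans ?_
  rw [abs_mul, abs_mul, h1]
  have e2 : |f2| * |f1' - f1| ≤ B * W * (δ * 1 * W) :=
    mul_le_mul h2 h1' (abs_nonneg _) ((abs_nonneg _).trans h2)
  obtain e3 : |f2' - f2| * W ≤ δ * B * W * W := by gcongr
  obtain e4 : 4 * (δ * B) * (W / 2 * W) ≤ 4 * (δ * B) * (|f1'| * W) := by gcongr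
  linarith only [e2, e3, e4]

/-- the scales -/
theorem scales (h : Big c) (hr : 3 / 4 * c.bl ≤ r) :
    c.L * Real.exp (-r) ≤ Real.exp (-(r / 200)) ∧ Real.exp (-(r / 200)) * c.L ≤ 1 ∧
    1 ≤ Real.exp (r / 1000) ∧ Real.exp (-(r / 200)) * Real.exp (r / 1000) ^ 2 ≤ 1 ∧
    Real.exp (r / 1000) ^ 2 ≤ Real.exp (r / 100) ∧
    Real.exp (-c.bl) * Real.exp (c.a / 8 * c.bl) * c.L ≤ Real.exp (-(c.bl / 4)) ∧
    1 ≤ Real.exp (c.a / 8 * c.bl) ∧ Real.exp (-(c.bl / 4)) ≤ 1 := by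
  have hbl := h.bl; have hl := h.lam4; have ha := h.a0; have ha' := h.a1
  obtain hab : 0 ≤ c.a / 8 * c.bl ∧ c.a / 8 * c.bl ≤ c.bl / 8 := by constructor <;> nlinarith only [ha, hbl, hl, ha']
  rw [← h.expL]
  simp only [sq, ← Real.exp_add, Real.exp_le_exp, Real.exp_le_one_iff, Real.one_le_exp_iff]
  refine ⟨?_, ?_, ?_, ?_, ?_, ?_, ?_, ?_⟩ <;> linarith only [hr, hbl, hl, ha, ha', hab]

/-- arithmetic of the block-map hypotheses -/
theorem arith1 {L CG lam e G U y0 y2 ρ : ℝ} (hCG : 1 ≤ CG) (hl : 10 ^ 4 ≤ lam)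
    (hL : 10 ^ 13 * CG ^ 2 * lam ^ 2 ≤ L) (he0 : 0 ≤ e) (he : e * L ≤ 1) (hG : 1 ≤ G)
    (heG : e * G ^ 2 ≤ 1) (hU0 : 0 ≤ U) (hU : L * U ≤ 300 * e) (hy0 : 0 ≤ y0) (hy : y0 ≤ e * e)
    (hy2 : y2 ≤ e) (hρ : ρ ≤ 2 * e) :
    ρ * U + 2 * CG * L * U ^ 2 + 2 * (8 * (L * U ^ 2 / lam) + 4 * y0 + 4 * y2 * U) + 2 * y0
      ≤ 2000 * CG * e * U + 10 * y0 * G ∧
    (2000 * CG * e * U + 10 * y0 * G) * G ≤ 2000 * CG * U + 10 * y0 * G ^ 2 ∧
    (3000 * CG * U + 10 * y0 * G ^ 2) * L ≤ 10 ^ 6 * CG := by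
  obtain hL1 : 1 ≤ L := by
    have : 1 ≤ CG ^ 2 := one_le_pow₀ hCG
    obtain this : 1 ≤ lam ^ 2 := one_le_pow₀ (by linarith only [hl])
    (rename_i zq0; nlinarith only [hL, this, zq0])
  obtain he1 : e ≤ 1 := by nlinarith only [he, he0, hL1]
  obtain heU : 0 ≤ e * U := by positivity
  obtain h1 : L * U ^ 2 ≤ 300 * (e * U) := by nlinarith only [hU0, hU]
  refine ⟨?_, ?_, ?_⟩
  · obtain h2 : L * U ^ 2 / lam ≤ e * U := by rw [div_le_iff₀ (by linarith only [hl])]; nlinarith only [heU, h1, hl]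
    obtain h3 : ρ * U ≤ 2 * e * U := by gcongr
    obtain h4 : y2 * U ≤ e * U := by gcongr
    obtain h5 : CG * (L * U ^ 2) ≤ CG * (300 * (e * U)) := by gcongr
    have h6 : e * U ≤ CG * (e * U) := le_mul_of_one_le_left heU hCG
    have h7 : y0 ≤ y0 * G := le_mul_of_one_le_right hy0 hG
    linarith only [heU, h2, h3, h4, h5, h6, h7]
  · obtain h2 : e * G ≤ 1 := by linarith only [heG, hG, mul_nonneg he0 (mul_nonneg (by linarith only [hG] : 0 ≤ G) (by linarith only [hG] : 0 ≤ G - 1))]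
    obtain h3 : CG * U * (e * G) ≤ CG * U * 1 := by (clear * - h2 hCG hU0; gcongr)
    linarith only [h3]
  · obtain h2 : y0 * (G ^ 2 * L) ≤ e * e * (G ^ 2 * L) := by gcongr
    obtain h3 : (e * G ^ 2) * (e * L) ≤ 1 * 1 := by gcongr
    obtain h4 : CG * (L * U) ≤ CG * (300 * 1) := mul_le_mul_of_nonneg_left (by linarith only [hU, he1]) (by linarith only [hCG])
    linarith only [hCG, h2, h3, h4]

theorem final {L σ ρ ρ' a a' b b' s s' b1 b1' e e' E1 E2 E D2 η B : ℝ} (hL : 0 ≤ L)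
    (h : ρ = a + b * s + b1 * e) (h' : ρ' = a' + b' * s' + b1' * e') (ha : |a' - a + L * σ| ≤ E1)
    (hb : |b' - b| ≤ E1) (hb0 : 0 ≤ b) (hs : b * |s' - s| ≤ D2) (hs' : |s'| ≤ 1) (hb1 : |b1'| ≤ E)
    (he : |e' - e| ≤ η) (he' : |e| ≤ B) (hb1' : |b1' - b1| ≤ E2) :
    L * |σ| ≤ |ρ| + |ρ'| + D2 + 2 * E1 + E * η + E2 * B := by
  obtain e1 : L * σ = (a' - a + L * σ) + ρ + -ρ' + b * (s' - s) + (b' - b) * s' + b1' * (e' - e)
      + (b1' - b1) * e := by rw [h, h']; ring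
  obtain h1 : |(b' - b) * s'| ≤ E1 * 1 := by
    rw [abs_mul]; exact mul_le_mul hb hs' (abs_nonneg _) ((abs_nonneg _).trans hb)
  obtain h2 : |b1' * (e' - e)| ≤ E * η := by
    rw [abs_mul]; exact mul_le_mul hb1 he (abs_nonneg _) ((abs_nonneg _).trans hb1)
  obtain h3 : |(b1' - b1) * e| ≤ E2 * B := by
    rw [abs_mul]; exact mul_le_mul hb1' he' (abs_nonneg _) ((abs_nonneg _).trans hb1')
  obtain h4 : |b * (s' - s)| ≤ D2 := by rwa [abs_mul, abs_of_nonneg hb0]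
  rw [← abs_of_nonneg hL, ← abs_mul, abs_le]
  have := abs_le.1 ha; have := abs_le.1 h1; have := abs_le.1 h2; have := abs_le.1 h3
  have := abs_le.1 h4; have := le_abs_self ρ; have := neg_abs_le ρ; have := le_abs_self ρ'
  have := neg_abs_le ρ'
  constructor <;> (rename_i zq7 zq6 zq5 zq4 zq3 zq2 zq1 zq0; linarith only [h, h', zq7, zq6, zq5, zq4, zq3, zq1, zq0, zq2, this])

theorem arith2 {L CG lam Z : ℝ} (hCG : 1 ≤ CG) (hl : 10 ^ 4 ≤ lam)
    (hL : 10 ^ 13 * CG ^ 2 * lam ^ 2 ≤ L) (hZ0 : 0 ≤ Z) (hZ : Z * L ≤ 10 ^ 6 * CG) :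
    Z ≤ 1 / (10 * lam ^ 2) ∧ Z ≤ 1 / lam ^ 2 ∧ Z ≤ 1 / 1000 ∧ 10 ^ 6 * CG * Z ≤ 1 / 2 := by
  obtain h1 : Z * (10 ^ 13 * CG ^ 2 * lam ^ 2) ≤ 10 ^ 6 * CG := le_trans (by gcongr) hZ
  obtain h2 : 10 ^ 6 * CG * (Z * (10 ^ 7 * CG * lam ^ 2)) ≤ 10 ^ 6 * CG * 1 := by linarith only [h1]
  obtain h3 : Z * (10 ^ 7 * CG * lam ^ 2) ≤ 1 := le_of_mul_le_mul_left h2 (by positivity)
  obtain h4 : 1 ≤ lam ^ 2 := one_le_pow₀ (by linarith only [hl])
  obtain h5 : Z * lam ^ 2 ≤ CG * (Z * lam ^ 2) := le_mul_of_one_le_left (by positivity) hCG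
  have h6 : Z ≤ Z * lam ^ 2 := le_mul_of_one_le_right hZ0 h4
  obtain h7 : CG * Z ≤ CG * (Z * lam ^ 2) := by (clear * - h6 hCG; gcongr)
  refine ⟨?_, ?_, ?_, ?_⟩
  · rw [le_div_iff₀ (by positivity)]; linarith only [h3, h5]
  · rw [le_div_iff₀ (by positivity)]; linarith only [h3, h5]
  · linarith only [h3, h5, h6]
  · linarith only [h3, h7]

theorem arith3 {L CG U Y P q : ℝ} (hCG : 1 ≤ CG) (hL : 10 ^ 13 * CG ^ 2 ≤ L) (hU : 0 ≤ U)
    (hY : 0 ≤ Y) (hP : 0 ≤ P) (hq : P * L ≤ q) (hq1 : q ≤ 1) :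
    5 * (10 ^ 6 * CG) * ((3000 * CG * U + 10 * Y) * P) ≤ U + Y * q := by
  obtain h1 : P * (10 ^ 13 * CG ^ 2) ≤ q := le_trans (by gcongr) hq
  obtain h2 : P * CG ≤ P * CG ^ 2 := by gcongr; nlinarith only [hCG]
  obtain h3 : U * (P * (10 ^ 13 * CG ^ 2)) ≤ U * 1 := by gcongr; linarith only [hq1, h1]
  obtain h4 : Y * (P * (10 ^ 13 * CG ^ 2)) ≤ Y * q := by gcongr
  obtain h5 : Y * (P * CG) ≤ Y * (P * CG ^ 2) := by gcongr
  obtain h6 : 0 ≤ U * (P * CG ^ 2) := by positivity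
  obtain h7 : 0 ≤ Y * (P * CG) := by positivity
  linarith only [hU, h3, h4, h5, h7]

/-- what the block map gives at the horizon -/
theorem tang (h : Big c) (hSH : SH_s c) (hBM : BM_s c) {M : Mdl} {t t' U D1 v Z G : ℝ} {ξ : ℤ → ℝ}
    {Ls} (hM : M.OK c) (ht : TI t) (ht' : TI t') (hO : IsOrb c M t S n) (hO' : IsOrb c M t' T n)
    (hS : S.OK c) (ho : S.Out c ξ n) (hd' : 5 / 100 ≤ dP (T.X n))
    (hi : S.RInv c (S.fr (n + 1)) (n + 1) j) (hb : S.BInv c n Ls j) (hnj : n + 1 < j)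
    (hU : |T.X n - S.X n| ≤ U) (hU0 : 0 < U)
    (hD1 : S.b n * |T.X (n - 1) - S.X (n - 1) - ξ (n - 1) / ξ n * (T.X n - S.X n)| ≤ D1)
    (hv : |S.rho ξ n j| * U + 2 * c.CG * c.L * U ^ 2 + 2 * D1 + 2 * |t' - t| ≤ v)
    (hτ : |t' - t| * G ≤ v) (hD : D1 ≤ Z) (hG : 1 ≤ G) (g1 : Real.exp (S.Wp c n j) ≤ G)
    (g2 : ∀ l, n < l → l ≤ j → ∑ i ∈ Ico (n + 1) l, |S.fr (i + 1) l| ≤ G * S.wp c n l)
    (hZ : v * G + U ≤ Z) (hZL : Z * c.L ≤ 10 ^ 6 * c.CG) :
    S.wp c n j / 2 ≤ |T.fr (n + 1) j| ∧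
    |T.fr (n + 2) j / T.fr (n + 1) j - S.fr (n + 2) j / S.fr (n + 1) j| ≤
      4 * (10 ^ 6 * c.CG * Z * Real.exp (c.a / 8 * c.bl)) ∧
    |S.fr (n + 2) j / S.fr (n + 1) j| ≤ Real.exp (c.a / 8 * c.bl) ∧
    |T.X (n + 1) - S.X (n + 1)| ≤ 4 * Z ∧ (1 - c.a / 10) * S.chi c n j - c.bl ≤ T.chi c n j := by
  obtain hbl : 0 ≤ c.bl := by have := h.bl; have := h.lam4; (rename_i zq0; linarith only [zq0, this])
  have hCG := h.CG
  obtain hv0 : 0 ≤ v := le_trans (mul_nonneg (abs_nonneg _) (by linarith only [hG])) hτ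
  have hvG : v ≤ v * G := le_mul_of_one_le_right hv0 hG
  obtain ⟨z1, z2, -, z4⟩ := arith2 hCG h.lam4 h.Lbig (by linarith only [hU0, hZ, hv0, hvG]) hZL
  obtain hvW : v * Real.exp (S.Wp c n j) ≤ v * G := by gcongr
  obtain ⟨w, A, ζ, Y, hsh, hw, -, -, -, htan⟩ := hBM M t t' S T ξ n Ls j U D1 v hM ht ht' hO hO' hS ho
    hi hb hU hU0 (by linarith only [hZ, hv0, hvG, z2]) hD1 (hD.trans z2) hv
    (fun l h1 h2 => by
      have h4 : 0 ≤ S.wp c n l := S.wh_nonneg c _ _ _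
      calc _ ≤ |t' - t| * (G * S.wp c n l) := mul_le_mul_of_nonneg_left (g2 l (by omega) h2) (abs_nonneg _)
        _ = |t' - t| * G * S.wp c n l := by ring
        _ ≤ _ := by (clear * - hτ h4; gcongr))
    (by linarith only [hU0, hZ, z1, hvW])
  obtain ⟨sh1, -, sh3, -⟩ := hSH M t t' S T _ w A ζ U _ _ hsh
  have wpos : ∀ l, n < l → l ≤ j → 0 < S.wp c n l := fun l h1 h2 =>
    (Real.exp_pos _).trans_le (hb.i6 l h1 h2).2.1
  obtain hB : ∀ l, n + 1 < l → l ≤ j →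
      |S.fr (n + 1 + 1) l| ≤ Real.exp (c.a / 8 * c.bl) * S.wp c n l := fun l h1 h2 => by
    obtain h3 := (hb.i6 (n + 1) (by omega) hi.le).2.2.2 l h1 h2
    obtain h4 := wpos l (by omega) h2
    rw [Sq.Bc, wp_one, S.chi_succ c n, ch1_zero hb.kz.1, div_le_iff₀ h4, mul_one] at h3
    have h5 := Real.exp_pos (-S.chi c (n + 1) j / 4)
    refine (le_mul_of_one_le_right (abs_nonneg _) h.L0).trans (h3.trans ?_)
    exact mul_le_mul_of_nonneg_right (mul_le_of_le_one_right (Real.exp_pos _).le (by linarith only [h5])) h4.le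
  obtain t1 := htan n 1 le_rfl (fun l h1 _ => by
    rw [one_mul]; exact S.abs_le_wh c _ (by omega)) j (by omega) le_rfl
  obtain t2 := htan (n + 1) _ (by omega) hB j hnj le_rfl
  obtain hδ1 : c.KS * (v * Real.exp (S.Wp c n j) + U * Real.exp (-c.bl / 3)) ≤ 10 ^ 6 * c.CG * Z := by
    obtain this : U * Real.exp (-c.bl / 3) ≤ U :=
      mul_le_of_le_one_right hU0.le (Real.exp_le_one_iff.2 (by linarith only [hbl]))
    exact mul_le_mul_of_nonneg_left (by linarith only [hZ, hvW, this]) (by unfold Cs.KS; positivity)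
  obtain ⟨r1, r2, r3⟩ := ratio (wpos j (by omega) le_rfl) hi.whm.symm t1 (hB j hnj le_rfl) t2
    (hδ1.trans z4)
  rw [add_assoc, one_add_one_eq_two] at r2 r3
  refine ⟨r1, r2.trans (by gcongr 4 * (?_ * _)), r3, ?_, chi_cmp h hb.kz.1 (T.kk_eq_zero.2 (Or.inr ?_)) (by omega)
    fun l h1 h2 => (sh3 l h1 h2).1⟩
  · have q1 := (sh1 (n + 1) le_rfl hi.le).1
    obtain q2 := hw (n + 1) (by omega) hi.le
    rw [wp_one, S.chi_succ, ch1_zero hb.kz.1] at q2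
    obtain q3 : U * Real.exp (-c.bl / 2) ≤ U :=
      mul_le_of_le_one_right hU0.le (Real.exp_le_one_iff.2 (by linarith only [hbl]))
    linarith only [q1, q2, q3, hvG, hZ]
  · rw [add_sub_cancel_right]; linarith only [hd']

/-- the ratio of the second point at the horizon of the first -/
theorem rho2 (h : Big c) {ξ' : ℤ → ℝ} {ρ' W : ℝ} (hn' : ξ' n ≠ 0) (hr : 3 / 4 * c.bl ≤ r)
    (hχ : 3 * r ≤ S.chi c n j) (hχ' : (1 - c.a / 10) * S.chi c n j - c.bl ≤ T.chi c n j)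
    (hW : Real.exp (-(c.a / 8 * S.chi c n j)) ≤ W) (hW' : W / 2 ≤ |T.fr (n + 1) j|)
    (hρ' : |ρ'| ≤ 2 * (c.L * Real.exp (-r)))
    (hν : |ξ' j / ξ' n - ρ' * T.fr (n + 1) j| ≤ Real.exp (-(1 - c.a) * T.chi c n j)) :
    T.fr (n + 1) j ≠ 0 ∧ |T.rho ξ' n j| ≤ 3 * (c.L * Real.exp (-r)) := by
  have hbl := h.bl; have hl := h.lam4; have hL := h.L13; have ha := h.a0; have ha' := h.a1
  have hW0 : 0 < W := (Real.exp_pos _).trans_le hW
  obtain n1 : T.fr (n + 1) j ≠ 0 := by rw [← abs_pos]; linarith only [hW', hW0]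
  refine ⟨n1, ?_⟩
  obtain e1 : T.rho ξ' n j - ρ' = (ξ' j / ξ' n - ρ' * T.fr (n + 1) j) / T.fr (n + 1) j := by
    rw [Sq.rho]; field_simp
  obtain e3 : Real.exp (-(1 - c.a) * T.chi c n j) ≤
      Real.exp (-r) * Real.exp (-(c.a / 8 * S.chi c n j)) := by
    rw [← Real.exp_add]; apply Real.exp_le_exp.2
    obtain q1 : c.a * S.chi c n j ≤ 1 / 100 * S.chi c n j := by gcongr; linarith only [hr, hχ, hbl, hl, ha, ha']
    obtain q2 : 0 ≤ T.chi c n j := by linarith only [hr, hχ, hχ', hbl, hl, ha, ha', q1]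
    obtain q3 : c.a * T.chi c n j ≤ 1 / 100 * T.chi c n j := by gcongr
    linarith only [hr, hχ, hχ', hbl, hl, ha, ha', q1, q3]
  obtain e4 : |T.rho ξ' n j - ρ'| ≤ c.L * Real.exp (-r) := by
    rw [e1, abs_div, div_le_iff₀ (abs_pos.2 n1)]
    have q1 := Real.exp_pos (-r)
    calc _ ≤ Real.exp (-r) * W := hν.trans (e3.trans (by (clear * - hW; gcongr)))
      _ = 2 * Real.exp (-r) * (W / 2) := by ring
      _ ≤ _ := by gcongr; linarith only [hL, ha, ha']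
  have := abs_sub_abs_le_abs_sub (T.rho ξ' n j) ρ'
  linarith only [hρ', e4, this]

/-- differences of the coefficients at a fold -/
theorem coef (h : Big c) {M : Mdl} {t t' s Z : ℝ} (hM : M.OK c) (ht : TI t) (ht' : TI t')
    (hO : IsOrb c M t S n) (hO' : IsOrb c M t' T n) (hd : 5 / 100 ≤ dP (S.X n))
    (hd' : 5 / 100 ≤ dP (T.X n)) (hs : |s| ≤ 1) (hZ : Z ≤ 1 / 1000) (hU : |T.X n - S.X n| ≤ Z)
    (hτ : |t' - t| ≤ Z) (hZ1 : |T.X (n + 1) - S.X (n + 1)| ≤ 4 * Z)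
    (hD : 2 * (S.b n * |T.X (n - 1) - S.X (n - 1) - s * (T.X n - S.X n)|) ≤ Z) :
    |T.a n - S.a n + c.L * (Real.sin (T.X n) - Real.sin (S.X n))| ≤ Real.exp (-c.bl) * (5 * Z) ∧
    |T.b n - S.b n| ≤ Real.exp (-c.bl) * (5 * Z) ∧ |T.b (n + 1)| ≤ Real.exp (-c.bl) ∧
    |T.b (n + 1) - S.b (n + 1)| ≤ Real.exp (-c.bl) * (6 * Z) := by
  obtain hx := hO.box n (by omega); have hy := hO.box (n - 1) le_rfl
  obtain hx1 := hO.box (n + 1) (by omega)
  obtain hx' := hO'.box n (by omega); have hy' := hO'.box (n - 1) le_rfl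
  obtain hx1' := hO'.box (n + 1) (by omega)
  obtain hbl : 0 ≤ c.bl := by have := h.bl; have := h.lam4; (rename_i zq0; linarith only [zq0, this])
  have hE0 := Real.exp_pos (-c.bl)
  obtain q4 : c.dl = Real.exp (-c.bl) * Real.exp (-c.bl) := by
    rw [← Real.exp_add, Cs.dl]; congr 1; ring
  obtain s7 : c.dl ≤ Real.exp (-c.bl) := Real.exp_le_exp.2 (by linarith only [hbl])
  have hdl : 0 ≤ c.dl := (Real.exp_pos _).le
  have hZ0 : 0 ≤ Z := (abs_nonneg _).trans hU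
  have hb0 := hM.b_lo t _ _ ht hx hy
  obtain c1 := hM.tayF t t' _ _ _ _ ht ht' hx hy hx' hy' (by linarith only [hd, hZ, hU])
  obtain c2 := (hM.tay t t' _ _ _ _ c.dl ht ht' hx hy hx' hy'
    ⟨by linarith only [hZ, hU], Or.inl ⟨rfl, Or.inl (by linarith only [hd, hZ, hU])⟩⟩).2.2
  obtain c3 := (hM.tay t t' _ _ _ _ c.dl ht ht' hx1 hx hx1' hx'
    ⟨by linarith only [hZ, hZ1], Or.inl ⟨rfl, Or.inr (by linarith only [hd, hZ, hU])⟩⟩).2.2
  obtain c4 := hM.b_N t' _ _ ht' hx1' hx' (Or.inr (by linarith only [hd']))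
  have c5 := hM.b_lo t' _ _ ht' hx1' hx'
  obtain b1 := hO.hb (n + 1) (by omega); have b1' := hO'.hb (n + 1) (by omega)
  rw [add_sub_cancel_right] at b1 b1'
  rw [← hO.ha n le_rfl, ← hO'.ha n le_rfl] at c1
  rw [← hO.hb n le_rfl, ← hO'.hb n le_rfl] at c2
  rw [← hO.hb n le_rfl] at hb0
  rw [← b1, ← b1'] at c3
  rw [← b1'] at c4 c5
  obtain hE1 : c.dl * (|T.X n - S.X n| + |T.X (n - 1) - S.X (n - 1)| + |t' - t|) ≤
      Real.exp (-c.bl) * (5 * Z) := by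
    obtain q1 : |s * (T.X n - S.X n)| ≤ 1 * Z := by rw [abs_mul]; (clear * - hs hU; gcongr)
    have q2 := abs_sub_abs_le_abs_sub (T.X (n - 1) - S.X (n - 1)) (s * (T.X n - S.X n))
    generalize hd0 : |T.X (n - 1) - S.X (n - 1) - s * (T.X n - S.X n)| = d at q2 hD
    have q0 : 0 ≤ d := hd0 ▸ abs_nonneg _
    obtain q3 : Real.exp (-c.bl) / 4 * d ≤ S.b n * d := by (clear * - hb0 q0; gcongr)
    obtain q5 : c.dl * d ≤ Real.exp (-c.bl) * (2 * Z) := by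
      rw [q4, mul_assoc]; exact mul_le_mul_of_nonneg_left (by linarith only [hD, q3]) hE0.le
    obtain q6 : c.dl * (3 * Z) ≤ Real.exp (-c.bl) * (3 * Z) := by (clear * - s7 hZ0; gcongr)
    obtain q7 : c.dl * (|T.X n - S.X n| + |T.X (n - 1) - S.X (n - 1)| + |t' - t|) ≤ c.dl * (3 * Z + d) :=
      mul_le_mul_of_nonneg_left (by linarith only [hU, hτ, q1, q2]) hdl
    linarith only [q5, q6, q7]
  refine ⟨c1.trans hE1, by linarith only [c2, hE1], by rw [abs_of_nonneg (by linarith only [hE0, c5])]; exact c4, ?_⟩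
  obtain this : c.dl * (|T.X (n + 1) - S.X (n + 1)| + |T.X n - S.X n| + |t' - t|) ≤
      Real.exp (-c.bl) * (6 * Z) := mul_le_mul s7 (by linarith only [hU, hτ, hZ1]) (by (clear * -; positivity)) hE0.le
  linarith only [c3, this]

theorem arith4 {L CG lam U Z E B x y2 Y σ ρ ρ' : ℝ} (hCG : 1 ≤ CG) (hl : 10 ^ 4 ≤ lam)
    (hL : 10 ^ 13 ≤ L) (hU : 0 ≤ U) (hZ : 0 ≤ Z) (hE : 0 ≤ E) (hB : 1 ≤ B) (hx : 0 ≤ x) (hy2 : 0 ≤ y2)
    (hY : 0 ≤ Y) (hρ : ρ ≤ 2 * x) (hρ' : ρ' ≤ 3 * x) (hσ : 9 / 10 * U ≤ σ)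
    (k3 : 5 * (10 ^ 6 * CG) * (Z * (E * B)) ≤ U + Y)
    (key : L * σ ≤ ρ + ρ' + (4 * (L * U / lam) + 4 * y2) + 2 * (E * (5 * Z)) +
      E * (4 * (10 ^ 6 * CG * Z * B)) + E * (6 * Z) * B) :
    L * U ≤ 10 * x + 10 * (y2 + Y) := by
  obtain k2 : L * (9 / 10 * U) ≤ L * σ := by gcongr
  obtain k4 : Z * E ≤ Z * (E * B) := by gcongr; exact le_mul_of_one_le_right hE hB
  obtain k5 : Z * (E * B) ≤ CG * (Z * (E * B)) := le_mul_of_one_le_left (by positivity) hCG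
  obtain k7 : L * U / lam ≤ L * U / 100 := by gcongr; linarith only [hl]
  obtain k8 : 100 * U ≤ L * U := by gcongr; linarith only [hL]
  obtain k9 : 0 ≤ Z * (E * B) := by positivity
  linarith only [hx, hy2, hY, hρ, hρ', k3, key, k2, k4, k5, k7, k8]

/-- comparison at the horizon `j` of the first point; `T` is the second orbit, shifted -/
theorem core (h : Big c) (hSH : SH_s c) (hBM : BM_s c) {M : Mdl} {t t' y0 y2 ρ' U : ℝ} {ξ ξ' : ℤ → ℝ}
    {Ls} (hM : M.OK c) (ht : TI t) (ht' : TI t') (hO : IsOrb c M t S n) (hO' : IsOrb c M t' T n)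
    (hS : S.OK c) (ho : S.Out c ξ n) (hs' : T.Sol ξ' n) (hn' : ξ' n ≠ 0)
    (hsl : |ξ' (n - 1) / ξ' n| ≤ 1) (hr : 3 / 4 * c.bl ≤ r) (hd : 5 / 100 ≤ dP (S.X n))
    (hd' : 5 / 100 ≤ dP (T.X n)) (hsin : |Real.sin (S.X n)| ≤ 1 / 100)
    (hi : S.RInv c (S.fr (n + 1)) (n + 1) j) (hb : S.BInv c n Ls j) (hχ : 3 * r ≤ S.chi c n j)
    (hW : S.Wp c n j ≤ 3 * r / c.M1 + 5) (hρ : |S.rho ξ n j| ≤ 2 * (c.L * Real.exp (-r)))
    (hρ' : |ρ'| ≤ 2 * (c.L * Real.exp (-r)))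
    (hν : |ξ' j / ξ' n - ρ' * T.fr (n + 1) j| ≤ Real.exp (-(1 - c.a) * T.chi c n j))
    (hU : |T.X n - S.X n| = U) (hU0 : 0 < U) (hu : c.L * U ≤ 300 * Real.exp (-(r / 200)))
    (hτ : |t' - t| ≤ y0) (hy0 : y0 ≤ Real.exp (-(r / 200)) * Real.exp (-(r / 200)))
    (hy20 : 0 ≤ y2) (hy2 : y2 ≤ Real.exp (-(r / 200)))
    (hD1 : S.b n * |T.X (n - 1) - S.X (n - 1) - ξ (n - 1) / ξ n * (T.X n - S.X n)| ≤
      8 * (c.L * U ^ 2 / c.lam) + 4 * y0 + 4 * y2 * U)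
    (hD2 : S.b n * |ξ' (n - 1) / ξ' n - ξ (n - 1) / ξ n| ≤ 4 * (c.L * U / c.lam) + 4 * y2) :
    c.L * U ≤ 10 * (c.L * Real.exp (-r)) +
      10 * (y2 + y0 * (Real.exp (r / 100) * Real.exp (-(c.bl / 4)))) := by
  obtain ⟨s1, s2, s3, s4, s5, s6, s9, s10⟩ := scales h hr
  obtain ⟨g1, g2⟩ := growth h hb hr hW
  have hCG := h.CG
  have hy00 : 0 ≤ y0 := (abs_nonneg _).trans hτ
  have he0 := Real.exp_pos (-(r / 200))
  obtain ⟨a1, a2, a3⟩ := arith1 (ρ := |S.rho ξ n j|) hCG h.lam4 h.Lbig he0.le s2 s3 s4 hU0.le hu hy00 hy0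
    hy2 (by linarith only [hρ, s1])
  generalize Real.exp (-(r / 200)) = e at *
  generalize Real.exp (r / 1000) = G at *
  generalize 8 * (c.L * U ^ 2 / c.lam) + 4 * y0 + 4 * y2 * U = D1 at *
  have hUC : U ≤ c.CG * U := le_mul_of_one_le_left hU0.le hCG
  obtain p0 : 0 ≤ 2000 * c.CG * e * U := by (clear * - hCG he0 hU0; positivity)
  obtain p1 : 0 ≤ |S.rho ξ n j| * U := by (clear * - hU0; positivity)
  obtain p2 : 0 ≤ 2 * c.CG * c.L * U ^ 2 := by have := h.L0; (clear * - hCG this hU0; positivity)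
  obtain p3 : |t' - t| * G ≤ y0 * G := by (clear * - hτ s3; gcongr)
  have p4 : y0 ≤ y0 * G := le_mul_of_one_le_right hy00 s3
  obtain p5 : |t' - t| * G ≤ 2000 * c.CG * e * U + 10 * y0 * G := by linarith only [p0, p3, p4, hy00]
  obtain p6 : y0 ≤ 2000 * c.CG * e * U + 10 * y0 * G := by linarith only [p0, p4, hy00]
  generalize 2000 * c.CG * e * U + 10 * y0 * G = v at *
  have hvG : v ≤ v * G := le_mul_of_one_le_right (hy00.trans p6) s3
  obtain k3 := arith3 hCG h.Lbig' hU0.le (show 0 ≤ y0 * G ^ 2 by (clear * - hy00 s3; positivity)) (by positivity) s6 s10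
  rw [← mul_assoc 10] at k3
  obtain hZ1 : v * G + U ≤ 3000 * c.CG * U + 10 * y0 * G ^ 2 := by linarith only [a2, hUC, hU0]
  generalize 3000 * c.CG * U + 10 * y0 * G ^ 2 = Z at *
  obtain hZ0 : 0 ≤ Z := by linarith only [hZ1, hvG, p6, hy00, hU0]
  obtain hb0 : 0 ≤ S.b n := le_trans (by positivity) (hS.b_lo n ho.1)
  have hD0 : 0 ≤ D1 := le_trans (mul_nonneg hb0 (abs_nonneg _)) hD1
  obtain hDZ : 2 * D1 ≤ Z := by linarith only [a1, p1, p2, hy00, hvG, hZ1, hU0]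
  obtain hnj : n + 1 < j := by
    rcases eq_or_lt_of_le hi.le with e1 | e1
    · rw [← e1, S.chi_succ, ch1_zero hb.kz.1] at hχ; linarith only [hχ, hr, h.bl, h.lam4]
    · exact e1
  obtain ⟨r1, r2, r3, r4, r5⟩ := tang h hSH hBM hM ht ht' hO hO' hS ho hd' hi hb hnj hU.le hU0 hD1
    (by linarith only [a1, hτ]) p5 (by linarith only [hDZ, hD0]) s3 g1 g2 hZ1 a3
  obtain ⟨n1, hρ2⟩ := rho2 h hn' hr hχ r5 (hb.i6 j (by omega) le_rfl).2.1 r1 hρ' hν
  have z3 := (arith2 hCG h.lam4 h.Lbig hZ0 a3).2.2.1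
  obtain ⟨c1, c2, c3, c4⟩ := coef h hM ht ht' hO hO' hd hd'
    (by linarith only [(slope_le ho).trans (slope_small h)] : |ξ (n - 1) / ξ n| ≤ 1) z3
    (by linarith only [hU, hZ1, hvG, p6, hy00]) (by linarith only [hτ, hZ1, hvG, p6, hU0]) r4
    (by linarith only [hD1, hDZ])
  obtain key := final (by linarith only [h.L0]) (S.rho_eq ho.2.1 ho.2.2.1 hi.ne (by omega))
    (T.rho_eq hs' hn' n1 (by omega)) c1 c2 hb0 hD2 hsl c3 r2 r3 c4
  obtain k1 := sin_sub hsin (show |T.X n - S.X n| ≤ 1 / 1000 by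
    linarith only [hU, hZ1, hvG, p6, hy00, z3])
  rw [add_sub_cancel, hU] at k1
  obtain k6 : y0 * G ^ 2 * Real.exp (-(c.bl / 4)) ≤
      y0 * (Real.exp (r / 100) * Real.exp (-(c.bl / 4))) := by rw [mul_assoc]; (clear * - s5 hy00; gcongr)
  exact arith4 hCG h.lam4 h.L13 hU0.le hZ0 (Real.exp_pos _).le s9 (by have := h.L0; positivity) hy20
    (by positivity) hρ hρ2 k1 (by linarith only [k3, k6]) key

end T1
end Pool.Agent.MP_9cbfe4_an

end

/-! ### Part T1 -/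

section

/-! Row T1: deep points are close. -/

namespace Pool.Agent.MP_9cbfe4_an
namespace T1
open Finset

variable {c : Cs} {Ex : ExT} {S S' : Sq} {n n' : ℤ} {r : ℝ} {M : Mdl} {t t' y0 y2 : ℝ} {ξ ξ' : ℤ → ℝ}

/-- a deep point -/
structure Pt (c : Cs) (M : Mdl) (t : ℝ) (S : Sq) (ξ : ℤ → ℝ) (n : ℤ) : Prop where
  ht : TI t
  orb : IsOrb c M t S n
  ok : S.OK c
  out : S.Out c ξ n

theorem core' (h : Big c) (hSH : SH_s c) (hBM : BM_s c) (hR : RHO_s c) (hM : M.OK c)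
    (p : Pt c M t S ξ n) (p' : Pt c M t' S' ξ' n') (hr : 3 / 4 * c.bl ≤ r) {U : ℝ} {j j' : ℤ} {Ls Ls'}
    (hd : 5 / 100 ≤ dP (S.X n)) (hd' : 5 / 100 ≤ dP (S'.X n')) (hsin : |Real.sin (S.X n)| ≤ 1 / 100)
    (H : S.RInv c (S.fr (n + 1)) (n + 1) j ∧ S.BInv c n Ls j ∧ 3 * r ≤ S.chi c n j ∧
      S.Wp c n j ≤ 3 * r / c.M1 + 5 ∧ |S.rho ξ n j| ≤ 2 * (c.L * Real.exp (-r)))
    (H' : S'.RInv c (S'.fr (n' + 1)) (n' + 1) j' ∧ S'.BInv c n' Ls' j' ∧ 3 * r ≤ S'.chi c n' j' ∧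
      S'.Wp c n' j' ≤ 3 * r / c.M1 + 5 ∧ |S'.rho ξ' n' j'| ≤ 2 * (c.L * Real.exp (-r)))
    (hj : j - n ≤ j' - n')
    (hU : |S'.X n' - S.X n| = U) (hU0 : 0 < U) (hu : c.L * U ≤ 300 * Real.exp (-(r / 200)))
    (hτ : |t' - t| ≤ y0) (hy0 : y0 ≤ Real.exp (-(r / 200)) * Real.exp (-(r / 200)))
    (hy20 : 0 ≤ y2) (hy2 : y2 ≤ Real.exp (-(r / 200)))
    (hD1 : S.b n * |S'.X (n' - 1) - S.X (n - 1) - ξ (n - 1) / ξ n * (S'.X n' - S.X n)| ≤
      8 * (c.L * U ^ 2 / c.lam) + 4 * y0 + 4 * y2 * U)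
    (hD2 : S.b n * |ξ' (n' - 1) / ξ' n' - ξ (n - 1) / ξ n| ≤ 4 * (c.L * U / c.lam) + 4 * y2) :
    c.L * U ≤ 10 * (c.L * Real.exp (-r)) +
      10 * (y2 + y0 * (Real.exp (r / 100) * Real.exp (-(c.bl / 4)))) := by
  obtain ⟨k, rfl⟩ : ∃ k, n' = n + k := ⟨n' - n, by ring⟩
  obtain e1 : n + k - 1 = n - 1 + k := by ring
  obtain e2 : n + k + 1 = n + 1 + k := by ring
  have hO' := p'.orb.shift k
  rw [add_sub_cancel_right] at hO'
  obtain hν := (hR S' ξ' _ Ls' j' p'.ok p'.out H'.1 H'.2.1).1 (j + k) (by have := H.1.le; omega) (by omega)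
  have hsl := (slope_le p'.out).trans (slope_small h)
  rw [e1] at hD1 hD2 hsl
  refine core (T := S'.shift k) (ξ' := fun l => ξ' (l + k)) h hSH hBM hM p.ht p'.ht p.orb hO' p.ok p.out
    (fun l hl => ?_) p'.out.2.2.1 (hsl.trans (by norm_num)) hr hd hd' hsin H.1 H.2.1 H.2.2.1 H.2.2.2.1
    H.2.2.2.2 H'.2.2.2.2 ?_ hU hU0 hu hτ hy0 hy20 hy2 hD1 hD2
  · obtain this := p'.out.2.1 (l + k) (by omega)
    rw [show l + k + 1 = l + 1 + k by ring, show l + k - 1 = l - 1 + k by ring] at this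
    exact this
  · rw [S'.fr_shift, S'.chi_shift, ← e2]; exact hν

theorem swap {b b' z u s s' A B : ℝ} (hb : b' ≤ 4 * b) (hb' : 0 ≤ b') (h1 : b * |z - s * u| ≤ A)
    (h2 : b * |s' - s| ≤ B) : b' * |-z - s' * -u| ≤ 4 * A + 4 * B * |u| ∧ b' * |s - s'| ≤ 4 * B := by
  obtain h3 : b' * |s' - s| ≤ 4 * B := by nlinarith only [h2, hb, abs_nonneg (s' - s)]
  obtain h4 : b' * |z - s * u| ≤ 4 * A := by nlinarith only [h1, hb, abs_nonneg (z - s * u)]
  refine ⟨?_, by rwa [abs_sub_comm]⟩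
  obtain h5 : |-z - s' * -u| ≤ |z - s * u| + |s' - s| * |u| := by
    rw [show -z - s' * -u = (s' - s) * u - (z - s * u) by ring, add_comm, ← abs_mul]
    exact abs_sub _ _
  obtain h6 : b' * |s' - s| * |u| ≤ 4 * B * |u| := by gcongr
  nlinarith only [h4, h6, hb', h5]

theorem direct (h : Big c) (hB1 : B1_s c) (hR : RHO_s c) (hM : M.OK c)
    (p : Pt c M t S ξ n) (p' : Pt c M t' S' ξ' n') (hr1 : 1 ≤ r) (hr : r ≤ 3 / 4 * c.bl)
    (hw : S.Wit c Ex ξ n r) (hw' : S'.Wit c Ex ξ' n' r) (hu : |S'.X n' - S.X n| ≤ 1 / 1000) :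
    |S'.X n' - S.X n| ≤ 100 * Real.exp (-r) := by
  by_cases he : 1 / 1000 ≤ 100 * Real.exp (-r)
  · exact hu.trans he
  have hL := h.L13
  obtain key : ∀ x, c.L * x ≤ c.L * Real.exp (-r) + 3 * Real.exp (-(3 / 4 * c.bl)) →
      x ≤ 2 * Real.exp (-r) := fun x hx => by
    obtain h1 : Real.exp (-(3 / 4 * c.bl)) ≤ Real.exp (-r) := Real.exp_le_exp.2 (by linarith only [hr])
    obtain h2 : 3 * Real.exp (-r) ≤ c.L * Real.exp (-r) := by gcongr; linarith only [hL]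
    exact le_of_mul_le_mul_left (a := c.L) (by linarith only [hx, h1, h2]) (by linarith only [hL])
  have h1 := key _ (fold h hM p.ht p.orb p.ok p.out hr1 (rt_le h hB1 hR p.ok p.out hr1 hw)).2.2
  have h2 := key _ (fold h hM p'.ht p'.orb p'.ok p'.out hr1 (rt_le h hB1 hR p'.ok p'.out hr1 hw')).2.2
  obtain h3 := sin_sub (show |Real.sin (S.X n)| ≤ 1 / 100 by linarith only [he, h1]) hu
  rw [add_sub_cancel] at h3
  have h4 := abs_sub (Real.sin (S'.X n')) (Real.sin (S.X n))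
  have := Real.exp_pos (-r)
  linarith only [h1, h2, h3, h4, this]

theorem deep (h : Big c) (hSH : SH_s c) (hBM : BM_s c) (hB1 : B1_s c) (hR : RHO_s c) (hM : M.OK c)
    (p : Pt c M t S ξ n) (p' : Pt c M t' S' ξ' n') (hr : 3 / 4 * c.bl ≤ r)
    (hw : S.Wit c Ex ξ n r) (hw' : S'.Wit c Ex ξ' n' r) {U : ℝ}
    (hU : |S'.X n' - S.X n| = U) (hU0 : 0 < U) (hu : c.L * U ≤ 300 * Real.exp (-(r / 200)))
    (hτ : |t' - t| ≤ y0) (hy0 : y0 ≤ Real.exp (-(r / 200)) * Real.exp (-(r / 200)))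
    (hy20 : 0 ≤ y2) (hy2 : y2 ≤ Real.exp (-(r / 200)))
    (hD1 : S.b n * |S'.X (n' - 1) - S.X (n - 1) - ξ (n - 1) / ξ n * (S'.X n' - S.X n)| ≤
      c.L * U ^ 2 / c.lam + y0)
    (hD2 : S.b n * |ξ' (n' - 1) / ξ' n' - ξ (n - 1) / ξ n| ≤ c.L * U / c.lam + y2) :
    c.L * U ≤ 10 * (c.L * Real.exp (-r)) +
      10 * (y2 + y0 * (Real.exp (r / 100) * Real.exp (-(c.bl / 4)))) := by
  have hL := h.L13; have hl := h.lam4; have hbl := h.bl
  obtain hr1 : 1 ≤ r := by linarith only [hr, hl, hbl]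
  obtain key : ∀ x, c.L * x ≤ c.L * Real.exp (-r) + 3 * Real.exp (-(3 / 4 * c.bl)) →
      x ≤ 1 / 100 := fun x hx => by
    obtain h1 : Real.exp (-(3 / 4 * c.bl)) ≤ 1 := Real.exp_le_one_iff.2 (by linarith only [hl, hbl])
    obtain h2 : Real.exp (-r) ≤ 1 / 1000 := by
      have := Real.add_one_le_exp r
      rw [Real.exp_neg, inv_le_comm₀ (Real.exp_pos _) (by norm_num)]; linarith only [hr, hl, hbl, this]
    obtain h3 : c.L * Real.exp (-r) ≤ c.L * (1 / 1000) := by gcongr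
    exact le_of_mul_le_mul_left (a := c.L) (by linarith only [hL, hx, h1, h3]) (by linarith only [hL])
  obtain ⟨f1, f2, f3⟩ := fold h hM p.ht p.orb p.ok p.out hr1 (rt_le h hB1 hR p.ok p.out hr1 hw)
  obtain ⟨f1', f2', f3'⟩ := fold h hM p'.ht p'.orb p'.ok p'.out hr1 (rt_le h hB1 hR p'.ok p'.out hr1 hw')
  obtain ⟨Ls, j, H⟩ := horizon h hB1 hR p.ok p.out hr hw
  obtain ⟨Ls', j', H'⟩ := horizon h hB1 hR p'.ok p'.out hr hw'
  have hy00 : 0 ≤ y0 := (abs_nonneg _).trans hτ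
  obtain q1 : 0 ≤ c.L * U ^ 2 / c.lam := by positivity
  obtain q2 : 0 ≤ c.L * U / c.lam := by (clear * - hL hU0 hl; positivity)
  obtain q3 : 0 ≤ y2 * U := by positivity
  rcases le_total (j - n) (j' - n') with hj | hj
  · exact core' h hSH hBM hR hM p p' hr f1 f1' (key _ f3) H H' hj hU hU0 hu hτ hy0 hy20 hy2
      (by linarith only [hD1, hy00, q1, q3]) (by linarith only [hy20, hD2, q2])
  · have b1 := p.ok.b_lo n p.out.1
    have b2 := p'.ok.b_lo n' p'.out.1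
    have b3 := Real.exp_pos (-c.bl)
    obtain ⟨w1, w2⟩ := swap (b' := S'.b n') (by linarith only [f2', b1]) (by linarith only [b2, b3]) hD1 hD2
    rw [neg_sub, neg_sub, hU] at w1
    refine core' h hSH hBM hR hM p' p hr f1' f1 (key _ f3') H' H hj (by rw [abs_sub_comm, hU]) hU0 hu
      (by rwa [abs_sub_comm]) hy0 hy20 hy2 (w1.trans_eq (by ring)) (w2.trans_eq (by ring))

theorem main (h : Big c) (hSH : SH_s c) (hBM : BM_s c) (hB1 : B1_s c) (hR : RHO_s c) (hM : M.OK c)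
    (p : Pt c M t S ξ n) (p' : Pt c M t' S' ξ' n') {U : ℝ} (hU : |S'.X n' - S.X n| = U)
    (hu : U ≤ 1 / 1000) (hτ : |t' - t| ≤ y0) (hy20 : 0 ≤ y2)
    (hD1 : S.b n * |S'.X (n' - 1) - S.X (n - 1) - ξ (n - 1) / ξ n * (S'.X n' - S.X n)| ≤
      c.L * U ^ 2 / c.lam + y0)
    (hD2 : S.b n * |ξ' (n' - 1) / ξ' n' - ξ (n - 1) / ξ n| ≤ c.L * U / c.lam + y2) (k : ℕ) :
    ∀ r : ℝ, r ≤ k → 1 ≤ r → S.Wit c Ex ξ n r → S'.Wit c Ex ξ' n' r →
    (r ≤ c.bl / 4 ∨ (y0 * Real.exp (r / 100) ≤ 1 / c.lam ^ 3 ∧ y2 * Real.exp (r / 100) ≤ 1)) →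
    U ≤ 100 * Real.exp (-r) + 100 * (y2 + y0 * Real.exp (r / 100 - c.bl / 4)) / c.L := by
  have hL := h.L13; have hl := h.lam4; have hbl := h.bl
  have hy00 : 0 ≤ y0 := (abs_nonneg _).trans hτ
  obtain hL0 : 0 < c.L := by linarith only [hL]
  induction k with
  | zero => intro r h1 h2; simp only [Nat.cast_zero] at h1; linarith only [h2, h1]
  | succ k ih =>
    intro r hk hr1 hw hw' hy
    obtain pos : 0 ≤ 100 * (y2 + y0 * Real.exp (r / 100 - c.bl / 4)) / c.L := by (clear * - hy20 hy00 hL; positivity)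
    rcases le_total r (3 / 4 * c.bl) with hr | hr
    · have := direct h hB1 hR hM p p' hr1 hr hw hw' (hU.trans_le hu)
      linarith only [hU, pos, this]
    rcases eq_or_lt_of_le (hU ▸ abs_nonneg _ : 0 ≤ U) with hU0 | hU0
    · have := Real.exp_pos (-r); linarith only [pos, hU0, this]
    obtain ⟨y1, y1'⟩ := hy.resolve_left (by linarith only [hu, hl, hbl, hr, hU0])
    obtain e1 : Real.exp (r / 2 / 100) ≤ Real.exp (r / 100) := Real.exp_le_exp.2 (by linarith only [hu, hl, hbl, hr, hU0])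
    obtain IH := ih (r / 2) (by push_cast at hk; linarith only [hu, hl, hbl, hr, hU0, hk]) (by linarith only [hu, hl, hbl, hr, hU0])
      (Sq.Wit.anti c S hL0.le hw (by linarith only [hu, hl, hbl, hr, hU0])) (Sq.Wit.anti c S' hL0.le hw' (by linarith only [hu, hl, hbl, hr, hU0]))
      (Or.inr ⟨le_trans (by gcongr) y1, le_trans (by (clear * - e1 hy20; gcongr)) y1'⟩)
    have e0 := Real.exp_pos (-(r / 200))
    obtain e2 : Real.exp (r / 100) * (Real.exp (-(r / 200)) * Real.exp (-(r / 200))) = 1 := by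
      rw [← Real.exp_add, ← Real.exp_add, ← Real.exp_zero]; congr 1; ring
    obtain e3 : 1 / c.lam ^ 3 ≤ 1 := by
      rw [div_le_one (by (clear * - hl; positivity))]; exact one_le_pow₀ (by linarith only [hu, hl, hU0])
    obtain e4 : ∀ y : ℝ, y * Real.exp (r / 100) ≤ 1 →
        y ≤ Real.exp (-(r / 200)) * Real.exp (-(r / 200)) := fun y hy =>
      le_of_mul_le_mul_left (a := Real.exp (r / 100)) (by linarith only [e2, hy]) (Real.exp_pos _)
    obtain e5 : Real.exp (-(r / 200)) * Real.exp (-(r / 200)) ≤ Real.exp (-(r / 200)) :=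
      mul_le_of_le_one_right e0.le (Real.exp_le_one_iff.2 (by linarith only [hu, hl, hbl, hr, hU0]))
    have z0 := e4 y0 (y1.trans e3)
    have z2 := (e4 y2 y1').trans e5
    obtain e6 : c.L * Real.exp (-(r / 2)) ≤ Real.exp (-(r / 200)) := by
      rw [← h.expL, ← Real.exp_add]; exact Real.exp_le_exp.2 (by linarith only [hu, hl, hbl, hr, hU0])
    obtain e7 : y0 * Real.exp (r / 2 / 100 - c.bl / 4) ≤ Real.exp (-(r / 200)) := by
      calc _ ≤ Real.exp (-(r / 200)) * Real.exp (-(r / 200)) * Real.exp (r / 2 / 100 - c.bl / 4) := by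
            gcongr
        _ ≤ _ := by rw [← Real.exp_add, ← Real.exp_add]; exact Real.exp_le_exp.2 (by linarith only [hu, hl, hbl, hU0])
    obtain e8 : ∀ a b : ℝ, U ≤ 100 * a + 100 * b / c.L ↔ c.L * U ≤ 100 * (c.L * a) + 100 * b := by
      intro a b
      rw [← sub_le_iff_le_add', le_div_iff₀ hL0]
      constructor <;> intro _ <;> linarith
    rw [e8] at IH ⊢
    obtain this := deep h hSH hBM hB1 hR hM p p' hr hw hw' hU hU0 (by linarith only [IH, z2, e6, e7]) hτ z0 hy20 z2 hD1 hD2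
    rw [← Real.exp_add, ← sub_eq_add_neg] at this
    obtain q1 : 0 ≤ c.L * Real.exp (-r) := by positivity
    obtain q2 : 0 ≤ y0 * Real.exp (r / 100 - c.bl / 4) := by positivity
    linarith only [hy20, this, q1, q2]

end T1

theorem t1 : Hier fun c => SOK_s c → SH_s c → RHO_s c → B1_s c → BM_s c → T1_s c :=
  T1.big.mono fun c h hS hSH hR hB1 hBM Ex M t t' hM ht ht' v hv v' hv' ξ ξ' n n' r u y0 y2 ho ho' hr
      hw hw' hu hu1 hτ hy hD1 hD2 hc => by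
    subst hu
    have o := (hS M hM t ht).2.1 v hv
    have o' := (hS M hM t' ht').2.1 v' hv'
    exact T1.main h hSH hBM hB1 hR hM ⟨ht, ((hS M hM t ht).2.2 _ _ n o.1 ho.1).1, o.2, ho⟩
      ⟨ht', ((hS M hM t' ht').2.2 _ _ n' o'.1 ho'.1).1, o'.2, ho'⟩ rfl hu1 hτ hy
      (by rwa [sq_abs]) hD2 ⌈r⌉₊ r (Nat.le_ceil r) hr hw hw' hc

end Pool.Agent.MP_9cbfe4_an

end

/-! ### Part WIN -/

section

/-! Rows WIN and CRN: shadowing along admissible curves, critical points are isolated. -/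

namespace Pool.Agent.MP_9cbfe4_an

open Finset Filter Topology MeasureTheory

noncomputable section

/-- the constants used in this file -/
structure WC (c : Cs) : Prop where
  k1 : 1 / 16 ≤ c.k0
  k2 : c.k0 < 1 / 2
  cg : 1 ≤ c.CG
  lam : 10 ^ 8 * c.CG ≤ c.lam
  L : 1 ≤ c.L
  be : 4 ≤ c.β
  ch : c.chK ≤ c.β
  a : 0 < c.a
  M1 : 2 ≤ c.M1

theorem hier_WC : Hier WC :=
  ((Hier.base.and ((Hier.lam_ge (fun c => 10 ^ 8 * c.CG) fun _ _ => rfl).and
    ((Hier.L_ge (fun _ => 1) fun _ _ => rfl).and ((Hier.β_ge (fun _ => 4) fun _ _ _ => rfl).and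
    ((Hier.β_ge (fun c => c.chK) fun _ _ _ => rfl).and
    ((Hier.a_le (fun _ => 1) (fun _ _ _ _ _ _ => rfl) (Hier.of_all fun _ => one_pos)).and
    (Hier.M1_ge (fun _ => 2) fun _ _ _ _ => rfl)))))))).mono
    fun _ ⟨h, h1, h2, h3, h4, h5, h6⟩ => ⟨h.1, h.2.1, h.2.2.2.2.2, h1, h2, h3, h4, h5.1, h6⟩

namespace WC
variable {c : Cs} (h : WC c)
include h

theorem lam8 : 10 ^ 8 ≤ c.lam := by linarith only [h.cg, h.lam]
theorem bl4 : 4 * c.lam ≤ c.bl := mul_le_mul_of_nonneg_right h.be (by linarith only [h.lam8])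
theorem chb : c.chK ≤ c.bl := by
  obtain this : c.β ≤ c.bl := le_mul_of_one_le_right (by linarith only [h.be]) (by linarith only [h.lam8])
  linarith only [this, h.ch]
theorem chp : 0 < c.chK := Real.log_pos (one_lt_one_div (by linarith only [h.k1]) (by linarith only [h.k2]))
theorem dl : 0 ≤ c.dl ∧ c.dl ≤ 1 :=
  ⟨(Real.exp_pos _).le, Real.exp_le_one_iff.2 (by linarith only [h.bl4, h.lam8])⟩
theorem cw1 : c.KS * c.cw ≤ 1 / 100 := by
  have h8 := h.lam8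
  rw [Cs.cw, Cs.KS, mul_one_div, div_le_iff₀ (by positivity)]
  obtain this : c.lam ≤ c.lam ^ 4 := le_self_pow₀ (by linarith only [h8]) (by norm_num)
  linarith only [this, h.lam]
theorem cw2 : 4 * c.cw ≤ 1 / c.lam ^ 2 := by
  have h8 := h.lam8
  rw [Cs.cw, mul_one_div, div_le_div_iff₀ (by positivity) (by positivity)]
  obtain this : 4 ≤ c.lam ^ 2 := by nlinarith only [h8]
  nlinarith only [this, sq_nonneg c.lam]
theorem cw3 : 0 < c.cw ∧ c.cw ≤ 1 / 2000 := by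
  have h8 := h.lam8
  refine ⟨by rw [Cs.cw]; positivity, one_div_le_one_div_of_le (by norm_num) ?_⟩
  obtain this : c.lam ≤ c.lam ^ 4 := le_self_pow₀ (by linarith only [h8]) (by norm_num)
  linarith only [h8, this]
theorem KS : 0 ≤ c.KS := by have := h.cg; rw [Cs.KS]; positivity
theorem gl : 1 ≤ c.CG * c.L := one_le_mul_of_one_le_of_one_le h.cg h.L
theorem ebl : Real.exp (-c.bl) * Real.exp (3 * c.bl / 4) ≤ 1 := by
  rw [← Real.exp_add]; exact Real.exp_le_one_iff.2 (by linarith only [h.bl4, h.lam8])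
theorem Ll : 1 ≤ c.L / c.lam := by
  rw [le_div_iff₀ (by linarith only [h.lam8]), one_mul]
  exact (Real.log_le_sub_one_of_pos (by linarith only [h.L])).trans (by linarith only [])
theorem eb2 : 2 * Real.exp (-c.bl / 2) ≤ 1 / c.lam := by
  have h8 := h.lam8
  obtain this : 2 * c.lam + 1 ≤ Real.exp (c.bl / 2) :=
    le_trans (by linarith only [h.bl4]) (Real.add_one_le_exp _)
  rw [neg_div, Real.exp_neg, ← div_eq_mul_inv, div_le_div_iff₀ (Real.exp_pos _) (by linarith only [h8])]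
  linarith only [this]
end WC

section curve
variable {c : Cs} (h : WC c) (hS : SOK_s c) {Ex : ExT} {M : Mdl} {t : ℝ} {s : ℤ} {x0 : ℝ}
  {φ : ℝ → ℝ} (hM : M.OK c) (ht : TI t) (hA : AdmP c Ex M t s x0 φ)
include hS hM ht hA

theorem adm_orb {u : ℝ} (hu : u ∈ Set.Icc (0 : ℝ) 100) :
    IsOrb c M t (M.O t (φ u)) s ∧ (M.O t (φ u)).OK c ∧ 0 ≤ (M.O t (φ u)).b s ∧
      (M.O t (φ u)).b s ≤ Real.exp (-c.bl) := by
  obtain ⟨-, h2, h3⟩ := hS M hM t ht
  obtain ⟨m1, -, -, m4⟩ := hA.mem u hu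
  obtain ⟨o, k⟩ := h2 _ m1
  refine ⟨(h3 _ 0 s o hA.s0).1, k, le_trans (by positivity) (k.b_lo s hA.s0), ?_⟩
  obtain this := k.b_hi s (2 / 100) hA.s0 (by norm_num)
  rwa [Sq.bb, if_neg fun e => by linarith only [m4, e.2]] at this

include h

theorem adm_near {u u' : ℝ} (hu : u ∈ Set.Icc (0 : ℝ) 100) (hu' : u' ∈ Set.Icc (0 : ℝ) 100)
    (hη : |u' - u| ≤ 1 / 1000) :
    (M.O t (φ u')).X s - (M.O t (φ u)).X s = u' - u ∧
    |(M.O t (φ u')).X (s - 1) - (M.O t (φ u)).X (s - 1)| ≤ |u' - u| ∧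
    Pair c ((M.O t (φ u)).X s) ((M.O t (φ u)).X (s - 1)) ((M.O t (φ u')).X s)
      ((M.O t (φ u')).X (s - 1)) c.dl ∧
    (M.O t (φ u)).b s * |(M.O t (φ u')).X (s - 1) - (M.O t (φ u)).X (s - 1)
      - M.tg t (φ u) s (s - 1) * (u' - u)| ≤ (u' - u) ^ 2 ∧
    (M.O t (φ u)).b s * |M.tg t (φ u') s (s - 1) - M.tg t (φ u) s (s - 1)| ≤ |u' - u| ∧
    |(M.O t (φ u')).b s * M.tg t (φ u') s (s - 1) - (M.O t (φ u)).b s * M.tg t (φ u) s (s - 1)|
      ≤ 3 * |u' - u| := by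
  obtain ⟨o, -, b0, b1⟩ := adm_orb hS hM ht hA hu
  obtain ⟨o', -, -, -⟩ := adm_orb hS hM ht hA hu'
  obtain ⟨-, m2, -, m4⟩ := hA.mem u hu
  obtain ⟨-, m2', m3', -⟩ := hA.mem u' hu'
  obtain e1 : (M.O t (φ u')).X s - (M.O t (φ u)).X s = u' - u := by rw [m2, m2']; ring
  obtain e2 : |(M.O t (φ u')).X (s - 1) - (M.O t (φ u)).X (s - 1)| ≤ |u' - u| :=
    (hA.lip u hu u' hu' _ (by omega)).trans (mul_le_of_le_one_left (abs_nonneg _)
      (Real.exp_le_one_iff.2 (by linarith only [h.lam8])))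
  obtain e3 : Pair c ((M.O t (φ u)).X s) ((M.O t (φ u)).X (s - 1)) ((M.O t (φ u')).X s)
      ((M.O t (φ u')).X (s - 1)) c.dl :=
    ⟨by rw [e1]; linarith only [hη], .inl ⟨rfl, .inr (by linarith only [hη, m4, e2])⟩⟩
  obtain ⟨c1, c2⟩ := hA.curv u hu u' hu'
  obtain k : ∀ x y : ℝ, 0 ≤ y → |x| ≤ Real.exp (3 * c.bl / 4) * y → (M.O t (φ u)).b s * |x| ≤ y :=
    fun x y hy hx => calc
      _ ≤ Real.exp (-c.bl) * (Real.exp (3 * c.bl / 4) * y) :=
        mul_le_mul b1 hx (abs_nonneg _) (Real.exp_pos _).le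
      _ ≤ y := by rw [← mul_assoc]; exact mul_le_of_le_one_left hy h.ebl
  have e5 := k _ _ (abs_nonneg _) c2
  refine ⟨e1, e2, e3, k _ _ (sq_nonneg _) c1, e5, ?_⟩
  obtain e6 := (hM.tay t t _ _ _ _ _ ht ht (o.box s (by omega)) (o.box (s - 1) le_rfl)
    (o'.box s (by omega)) (o'.box (s - 1) le_rfl) e3).2.2
  rw [← o.hb s le_rfl, ← o'.hb s le_rfl, e1, sub_self, abs_zero, mul_zero, add_zero] at e6
  obtain e7 : |M.tg t (φ u') s (s - 1)| ≤ 1 :=
    m3'.2.2.2.trans (Real.exp_le_one_iff.2 (by linarith only [h.lam8]))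
  obtain e8 : |(M.O t (φ u')).b s - (M.O t (φ u)).b s| ≤ 2 * |u' - u| :=
    e6.trans ((mul_le_of_le_one_left (by (clear * -; positivity)) h.dl.2).trans (by linarith only [e2]))
  calc _ = |(M.O t (φ u)).b s * (M.tg t (φ u') s (s - 1) - M.tg t (φ u) s (s - 1)) +
        ((M.O t (φ u')).b s - (M.O t (φ u)).b s) * M.tg t (φ u') s (s - 1)| := by congr 1; ring
    _ ≤ _ := by
      refine (abs_add_le _ _).trans ?_
      rw [abs_mul, abs_mul, abs_of_nonneg b0]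
      linarith only [e5, e8, mul_le_of_le_one_right (abs_nonneg ((M.O t (φ u')).b s - (M.O t (φ u)).b s)) e7]

theorem adm_shh {u u' : ℝ} (hu : u ∈ Set.Icc (0 : ℝ) 100) (hu' : u' ∈ Set.Icc (0 : ℝ) 100)
    {θ : ℝ} {w A : ℤ → ℝ} {n : ℤ} (hn : s ≤ n) (θ1 : 12 / 1000 ≤ θ) (θ2 : θ ≤ 2 / 100)
    (hc : (M.O t (φ u)).Cert c θ w A s n)
    (hw : ∀ j, s - 1 ≤ j → j ≤ n → |M.tg t (φ u) s j| ≤ 2 * w j) (h1 : 1 ≤ w s)
    (hη : |u' - u| ≤ 1 / 1000) (hs : |u' - u| * A n ≤ 1 / c.lam ^ 2) :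
    ShH c M t t (M.O t (φ u)) (M.O t (φ u')) θ w A (fun j => (u' - u) * M.tg t (φ u) s j)
      |u' - u| s n := by
  obtain ⟨e1, e2, e3, e4, -, -⟩ := adm_near h hS hM ht hA hu hu' hη
  obtain ⟨-, -, m3, -⟩ := hA.mem u hu
  have p0 := abs_nonneg (u' - u)
  have p1 : |u' - u| ≤ |u' - u| * w s := le_mul_of_one_le_right p0 h1
  obtain p2 : (u' - u) ^ 2 ≤ (|u' - u| * w s) ^ 2 := by
    rw [← sq_abs]; exact pow_le_pow_left₀ p0 p1 2
  obtain g : ∀ x y : ℝ, 0 ≤ y → x ≤ y → x ≤ 100 * c.CG * c.L * y := fun x y hy hx => by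
    nlinarith only [hy, hx, h.gl]
  refine ⟨hM, ht, ht, (adm_orb hS hM ht hA hu).1, (adm_orb hS hM ht hA hu').1, hn, θ1, θ2, hc, p0,
    hs, ⟨fun j j1 _ => by simp only [m3.2.1 j j1]; ring, fun j j1 j2 => ?_⟩, by rw [m3.2.2.1, e1, mul_one],
    g _ _ (sq_nonneg _) ?_, ⟨_, e3, g _ _ (by linarith only [p0, p1]) ?_, g _ _ (sq_nonneg _) ?_⟩,
    fun j j1 j2 => ?_⟩
  · rw [abs_mul]; nlinarith only [p0, hw j j1 j2]
  · rw [mul_comm (u' - u)]; exact e4.trans p2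
  · exact (mul_le_of_le_one_left (abs_nonneg _) h.dl.2).trans (e2.trans p1)
  · refine (mul_le_of_le_one_left (sq_nonneg _) h.dl.2).trans (le_trans ?_ p2)
    exact sq_le_sq.2 e2
  · rw [sub_self, abs_zero, zero_mul]
    exact mul_nonneg p0 (hc.pos' j j1.le j2).le

end curve

theorem one_le_wh {c : Cs} {S : Sq} {ξ : ℤ → ℝ} {s : ℤ} (h : S.St c ξ s) : 1 ≤ S.wh c ξ s s := by
  obtain this := S.abs_le_wh c ξ (s := s) (j := s) (by omega)
  rwa [h.2.2.1, abs_one] at this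

theorem win_of {c : Cs} (h : WC c) (hS : SOK_s c) (hH : SH_s c) (hB : B1_s c) : WIN_s c := by
  intro Ex M t s x0 φ hM ht hA u hu u' hu' Ls n hR hη
  obtain ⟨-, ok, -, -⟩ := adm_orb hS hM ht hA hu
  obtain ⟨-, -, st, -⟩ := hA.mem u hu
  obtain ⟨-, -, st', -⟩ := hA.mem u' hu'
  have hn := hR.le
  have whn := ((hB Ex _ ok).1 _ _ _ _ _ st hR).2.whm
  obtain ⟨hc, hm, -⟩ := Sq.cert_wh ok h.k1 h.k2 (by linarith only [h.lam8]) h.chb st hn
  have w1 := one_le_wh st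
  have A1 := (M.O t (φ u)).one_le_AA c (M.tg t (φ u) s) s
  have Am := fun j => (M.O t (φ u)).AA_mono c (M.tg t (φ u) s) s (i := j) (j := n)
  have w0 := (M.O t (φ u)).wh_nonneg c (M.tg t (φ u) s) s
  generalize (M.O t (φ u)).wh c (M.tg t (φ u) s) s = w at *
  generalize (M.O t (φ u)).AA c (M.tg t (φ u) s) s = A at *
  have sm : ∀ x : ℝ, |x| * A n ≤ c.cw → |x| ≤ 1 / 2000 := fun x hx =>
    (le_mul_of_one_le_right (abs_nonneg _) (A1 n)).trans (hx.trans h.cw3.2)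
  have p0 := abs_nonneg (u' - u)
  obtain hη1 : |u' - u| ≤ 1 / 1000 := by linarith only [sm _ hη]
  obtain sh := adm_shh h hS hM ht hA hu hu' hn (by norm_num) le_rfl hc
    (fun j j1 j2 => by linarith only [hm.2 j j1 j2, w0 j]) w1 hη1 (by linarith only [hη, h.cw2, h.cw3.1])
  obtain ⟨s1, -, -, s4, -, s6, -⟩ := hH _ _ _ _ _ _ _ _ _ _ _ _ sh
  have kk : ∀ j, j ≤ n → c.KS * (|u' - u| * A j) ≤ 1 / 100 := fun j hj =>
    (mul_le_mul_of_nonneg_left ((mul_le_mul_of_nonneg_left (Am j hj) p0).trans hη) h.KS).trans h.cw1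
  obtain t4 : ∀ j, s ≤ j → j ≤ n → |M.tg t (φ u') s j - M.tg t (φ u) s j| ≤ w j / 100 := by
    intro j j1 j2
    obtain this := s4 _ _ 1 zero_le_one hm (fun j j1 _ => st'.2.1 j j1) (by rw [st'.2.2.1, st.2.2.1])
      ((adm_near h hS hM ht hA hu hu' hη1).2.2.2.2.2.trans (by
        have : |u' - u| ≤ |u' - u| * w s ^ 2 := le_mul_of_one_le_right p0 (one_le_pow₀ w1)
        nlinarith only [p0, this, h.gl])) j j1 j2
    nlinarith only [this, kk j j2, w0 j]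
  refine ⟨sh, ?_, whn ▸ t4 n hn le_rfl, fun u'' hu'' hη' => ?_⟩
  · have := (s1 n hn le_rfl).2
    rw [sub_self, zero_mul, sub_zero, whn] at this
    nlinarith only [this, kk n le_rfl, mul_nonneg p0 (abs_nonneg (M.tg t (φ u) s n))]
  · let w' : ℤ → ℝ := fun j => if j < s then 1 else w j
    obtain ew : ∀ j, s ≤ j → w' j = w j := fun j hj => if_neg (by omega)
    obtain hc' : (M.O t (φ u')).Cert c (2 / 100 - 1 / 1000) w' (fun j => 2 * A j) s n :=
      ⟨by simp [w'], fun j j1 j2 => by rw [ew j j1]; exact s6.pos' j j1 j2,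
        fun j j1 j2 a b => by rw [ew j j1.le, ew _ (by omega)]; exact s6.backK j j1 j2 a b,
        fun j j1 j2 => by rw [ew j j1.le, ew _ (by omega)]; exact s6.back j j1 j2,
        fun j j1 j2 => by rw [ew j j1, ew _ (by omega)]; exact s6.fwd j j1 j2, s6.mono, s6.Apos,
        fun j j1 j2 => by
          rw [ew j j1]
          refine le_of_eq_of_le (sum_congr rfl fun i hi => ?_) (s6.dd j j1 j2)
          rw [ew i (mem_Ico.1 hi).1]⟩
    obtain tri : |u'' - u'| ≤ |u'' - u| + |u' - u| := by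
      rw [show u'' - u' = (u'' - u) - (u' - u) by ring]; exact abs_sub _ _
    have q0 := abs_nonneg (u'' - u')
    obtain q1 : |u'' - u'| * (2 * A n) ≤ 4 * c.cw := by nlinarith only [hη, hη', tri, A1 n]
    obtain sh' := adm_shh h hS hM ht hA hu' hu'' hn (by norm_num) (by norm_num) hc'
      (fun j j1 j2 => by
        rcases lt_or_ge j s with hj | hj
        · obtain rfl : j = s - 1 := by omega
          obtain this : Real.exp (-c.lam / 5) ≤ 1 := Real.exp_le_one_iff.2 (by linarith only [h.lam8])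
          simp only [w', if_pos hj]
          linarith only [this, st'.2.2.2]
        · rw [ew j hj]
          linarith only [abs_sub_abs_le_abs_sub (M.tg t (φ u') s j) (M.tg t (φ u) s j), t4 j hj j2,
            hm.2 j j1 j2, w0 j])
      (by rwa [ew s le_rfl]) (by linarith only [tri, sm _ hη, sm _ hη']) (q1.trans h.cw2)
    have := ((hH _ _ _ _ _ _ _ _ _ _ _ _ sh').1 n hn le_rfl).2
    rw [sub_self, zero_mul, sub_zero, ew n hn, whn] at this
    obtain q2 : c.KS * (|u'' - u'| * (2 * A n)) ≤ 4 / 100 := by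
      linarith only [mul_le_mul_of_nonneg_left q1 h.KS, h.cw1]
    have q3 := t4 n hn le_rfl
    rw [whn] at q3
    calc _ = |((M.O t (φ u'')).X n - (M.O t (φ u')).X n - (u'' - u') * M.tg t (φ u') s n) +
          (u'' - u') * (M.tg t (φ u') s n - M.tg t (φ u) s n)| := by congr 1; ring
      _ ≤ _ := by
        refine (abs_add_le _ _).trans ?_
        rw [abs_mul]
        nlinarith only [this, q2, mul_nonneg q0 (abs_nonneg (M.tg t (φ u) s n)), mul_le_mul_of_nonneg_left q3 q0]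

theorem win : Hier fun c => SOK_s c → SH_s c → B1_s c → WIN_s c := hier_WC.mono fun _ => win_of

theorem out_of_run {c : Cs} (h : WC c) (hB : B1_s c) {Ex S ξ s P Ls n} (ok : Sq.OK c S)
    (st : S.St c ξ s) (hR : S.Run c Ex ξ s P Ls n) : S.Out c ξ n := by
  have ri := ((hB Ex _ ok).1 _ _ _ _ _ st hR).2
  refine ⟨st.1.trans ri.le, fun j hj => st.2.1 j (ri.le.trans hj), ri.ne, ?_⟩
  rcases ri.le.eq_or_lt with rfl | hn
  · rw [st.2.2.1, abs_one, mul_one]; exact st.2.2.2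
  · refine ((S.abs_le_wh c ξ (by omega)).trans (ri.i1 hn)).trans
      (mul_le_mul_of_nonneg_right ?_ (abs_nonneg _))
    obtain e : Real.exp (-c.lam / 5) = Real.exp (-c.lam / 3) * Real.exp (2 * c.lam / 15) := by
      rw [← Real.exp_add]; congr 1; ring
    rw [e]
    refine mul_le_mul_of_nonneg_left ?_ (Real.exp_pos _).le
    linarith only [Real.add_one_le_exp (2 * c.lam / 15), h.lam8, Real.exp_pos (-S.chi c s n / 10)]

theorem wit_of_crit {c : Cs} (h : WC c) {Ex} {S : Sq} {ξ n} (hc : S.Crit c Ex ξ n) {r : ℝ}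
    (hr : 0 ≤ r) : S.Wit c Ex ξ n r := by
  obtain ⟨Ls, J, rJ, hb, hV⟩ := hc (2 * r)
  refine .inr (.inr ⟨Ls, J, rJ, hb, ?_, by nlinarith only [hr, hV, hb.2.2.c2, h.M1]⟩)
  have h8 := h.lam8
  have hL := h.L
  obtain e1 : c.cb ≤ 1 := by
    rw [Cs.cb, div_le_one (by positivity)]; exact one_le_pow₀ (by linarith only [h8])
  obtain e2 : S.rho ξ n J ^ 2 * Real.exp (2 * r) ≤ c.L ^ 2 :=
    (mul_le_mul_of_nonneg_left (Real.exp_le_exp.2 hV) (sq_nonneg _)).trans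
      (le_trans hb.2.1 (by nlinarith only [hL, e1]))
  refine abs_le_of_sq_le_sq ?_ (by positivity)
  obtain e3 : Real.exp (2 * r) * Real.exp (-r) ^ 2 = 1 := by
    rw [sq, ← Real.exp_add, ← Real.exp_add]; simp [two_mul]
  calc _ = S.rho ξ n J ^ 2 * Real.exp (2 * r) * Real.exp (-r) ^ 2 := by rw [mul_assoc, e3, mul_one]
    _ ≤ _ := by rw [mul_pow]; exact mul_le_mul_of_nonneg_right e2 (sq_nonneg _)

theorem crn_of {c : Cs} (h : WC c) (hS : SOK_s c) (hB : B1_s c) (hF : FD_s c) (hT : T1_s c)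
    (hW : WIN_s c) : CRN_s c := by
  intro Ex M t s x0 φ hM ht hA
  let C : ℤ → Set ℝ := fun n => {u | u ∈ Set.Icc (0 : ℝ) 100 ∧ ∃ Ls,
    (M.O t (φ u)).Run c Ex (M.tg t (φ u) s) s (fun _ _ _ => True) Ls n ∧
    (M.O t (φ u)).Crit c Ex (M.tg t (φ u) s) n}
  refine measure_mono_null (t := ⋃ n, C n) (fun u ⟨hu, Ls, n, a⟩ => Set.mem_iUnion.2 ⟨n, hu, Ls, a⟩)
    (measure_iUnion_null fun n => Set.Countable.measure_zero ?_ _)
  refine (HereditarilyLindelofSpace.isLindelof _).countable_of_isDiscrete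
    (isDiscrete_iff_forall_mem_exists_isOpen.2 ?_)
  rintro u ⟨hu, Ls, hR, hC⟩
  obtain ⟨-, ok, -, -⟩ := adm_orb hS hM ht hA hu
  obtain ⟨m1, -, st, -⟩ := hA.mem u hu
  have out := out_of_run h hB ok st hR
  have ri := ((hB Ex _ ok).1 _ _ _ _ _ st hR).2
  have x0' : 0 < |M.tg t (φ u) s n| := abs_pos.2 ri.ne
  have A1 := (M.O t (φ u)).one_le_AA c (M.tg t (φ u) s) s n
  have c3 := h.cw3
  refine ⟨Metric.ball u (min (c.cw / (M.O t (φ u)).AA c (M.tg t (φ u) s) s n)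
    (1 / 2000 / |M.tg t (φ u) s n|)), Metric.isOpen_ball, Set.eq_singleton_iff_unique_mem.2
    ⟨⟨Metric.mem_ball_self (lt_min (div_pos c3.1 (by linarith only [A1, c3])) (by (clear * - x0'; positivity))), hu, Ls, hR, hC⟩,
      ?_⟩⟩
  rintro u' ⟨hb, hu', Ls', hR', hC'⟩
  rw [Metric.mem_ball, Real.dist_eq, lt_min_iff, lt_div_iff₀ (by linarith only [A1, c3]), lt_div_iff₀ x0'] at hb
  obtain ⟨-, ok', -, -⟩ := adm_orb hS hM ht hA hu'
  obtain ⟨m1', -, st', -⟩ := hA.mem u' hu'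
  obtain ⟨sh, w2, -, -⟩ := hW Ex M t s x0 φ hM ht hA u hu u' hu' Ls n hR hb.1.le
  have p0 := abs_nonneg (u' - u)
  obtain hη1 : |u' - u| ≤ 1 / 1000 := by nlinarith only [c3, x0', A1, p0, hb.1]
  obtain ⟨n1, -, -, n4, n5, n6⟩ := adm_near h hS hM ht hA hu hu' hη1
  set U := (M.O t (φ u')).X n - (M.O t (φ u)).X n with hU
  obtain u1 : |u' - u| * |M.tg t (φ u) s n| - |U| ≤ |u' - u| * |M.tg t (φ u) s n| / 100 := by
    rw [← abs_mul]
    exact (abs_sub_abs_le_abs_sub _ _).trans ((abs_sub_comm _ _).trans_le (by rwa [abs_mul]))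
  obtain u2 : |U| - |u' - u| * |M.tg t (φ u) s n| ≤ |u' - u| * |M.tg t (φ u) s n| / 100 := by
    rw [← abs_mul]
    exact (abs_sub_abs_le_abs_sub _ _).trans (by rwa [abs_mul])
  have q0 := mul_nonneg p0 x0'.le
  have h8 := h.lam8
  have hL := h.L
  obtain D : (M.O t (φ u)).b n * |(M.O t (φ u')).X (n - 1) - (M.O t (φ u)).X (n - 1) -
        M.tg t (φ u) s (n - 1) / M.tg t (φ u) s n * U| ≤ c.L * U ^ 2 / c.lam + 0 ∧
      (M.O t (φ u)).b n * |M.tg t (φ u') s (n - 1) / M.tg t (φ u') s n -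
        M.tg t (φ u) s (n - 1) / M.tg t (φ u) s n| ≤ c.L * |U| / c.lam + 0 := by
    rw [add_zero, add_zero]
    rcases ri.le.eq_or_lt with rfl | hn
    · rw [hU, n1, st.2.2.1, st'.2.2.1, div_one, div_one, mul_div_right_comm, mul_div_right_comm]
      exact ⟨n4.trans (le_mul_of_one_le_left (sq_nonneg _) h.Ll),
        n5.trans (le_mul_of_one_le_left p0 h.Ll)⟩
    · obtain ⟨L1, J, rJ, hb1, -⟩ := hC 0
      have kz := ((hB Ex _ ok).2.1 _ _ _ _ _ out hb1.1 hb1.2.1).kz.2.1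
      have w1 := one_le_wh st
      obtain ⟨f1, f2⟩ := hF _ _ _ _ _ _ _ _ _ _ _ _ sh hn
        ((Sq.kk_eq_zero _).2 (.inl (by linarith only [c3, kz]))) (fun i i1 i2 => by
          obtain x1 : 0 ≤ c.a * (M.O t (φ u)).chi c i n := mul_nonneg h.a.le (le_trans
            (mul_nonneg h.chp.le (by exact_mod_cast (by omega : (0 : ℤ) ≤ n - i)))
            (Sq.chi_ge c _ h.chb i2.le))
          obtain x2 : (M.O t (φ u)).ff c s i ≤ 1000 * c.lam := by
            rw [Sq.ff]; linarith only [c3, h8, Real.exp_pos (-(M.O t (φ u)).chi c s i / 24)]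
          rw [ri.whm]
          refine ⟨(ri.i2 i i1 i2).1.trans ?_, (ri.i2 i i1 i2).2.trans ?_⟩ <;>
          exact mul_le_mul_of_nonneg_right ((mul_le_mul_of_nonneg_right x2 (Real.exp_pos _).le).trans
            (mul_le_mul_of_nonneg_left (Real.exp_le_exp.2 (by linarith only [x1])) (by linarith only [c3, h8]))) x0'.le)
        _ (Sq.cert_wh ok h.k1 h.k2 (by linarith only [c3, h8]) h.chb st ri.le).2.1 (by rw [ri.whm]; linarith only [x0'])
      have g1 := f1 ⟨_, fun _ => rfl⟩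
      obtain g2 := f2 _ (fun j j1 _ => st'.2.1 j j1) (by rw [st'.2.2.1, st.2.2.1]) (n6.trans (by
        have : |u' - u| ≤ |u' - u| * (M.O t (φ u)).wh c (M.tg t (φ u) s) s s ^ 2 :=
          le_mul_of_one_le_right p0 (one_le_pow₀ w1)
        nlinarith only [p0, this, c3, h.gl]))
      rw [sub_self, abs_zero, zero_add, ri.whm] at g1
      rw [ri.whm] at g2
      obtain y1 : |u' - u| * |M.tg t (φ u) s n| ≤ 5 / 4 * |U| := by linarith only [u1, u2]
      obtain y2 : (|u' - u| * |M.tg t (φ u) s n|) ^ 2 ≤ 2 * U ^ 2 :=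
        (pow_le_pow_left₀ q0 y1 2).trans (by rw [mul_pow, sq_abs]; linarith only [sq_nonneg U])
      have e0 := (Real.exp_pos (-c.bl / 2)).le
      obtain k : ∀ x y : ℝ, 0 ≤ y → x ≤ 2 * y →
          Real.exp (-c.bl / 2) * (c.L * x) ≤ c.L * y / c.lam := fun x y hy hx => calc
        _ ≤ Real.exp (-c.bl / 2) * (c.L * (2 * y)) := by (clear * - hx hL; gcongr)
        _ = 2 * Real.exp (-c.bl / 2) * (c.L * y) := by ring
        _ ≤ 1 / c.lam * (c.L * y) := mul_le_mul_of_nonneg_right h.eb2 (by (clear * - hL hy; positivity))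
        _ = _ := by ring
      exact ⟨g1.trans (k _ _ (sq_nonneg _) y2), g2.trans ((mul_assoc _ _ _).trans_le
        (k _ _ (abs_nonneg _) (by linarith only [u1, u2, abs_nonneg U])))⟩
  obtain key : ∀ r : ℝ, 1 ≤ r → |U| ≤ 100 * Real.exp (-r) := fun r hr => by
    simpa using hT Ex M t t hM ht ht _ m1 _ m1' _ _ n n r U 0 0 out (out_of_run h hB ok' st' hR') hr
      (wit_of_crit h hC (by linarith only [c3, hr])) (wit_of_crit h hC' (by linarith only [c3, hr])) rfl (by linarith only [c3, u2, hb.2])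
      (by simp) le_rfl D.1 D.2 (.inr ⟨by rw [zero_mul]; (clear * - h8; positivity), by simp⟩)
  obtain z : |U| ≤ 0 := by
    refine ge_of_tendsto (x := atTop) (f := fun r : ℝ => 100 * Real.exp (-r)) ?_
      ((eventually_ge_atTop 1).mono key)
    simpa using Real.tendsto_exp_neg_atTop_nhds_zero.const_mul 100
  obtain this : |u' - u| ≤ 0 := by
    by_contra hn
    linarith only [u1, z, mul_pos (not_le.1 hn) x0']
  exact sub_eq_zero.1 (abs_nonpos_iff.1 this)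

theorem crn : Hier fun c => SOK_s c → B1_s c → FD_s c → T1_s c → WIN_s c → CRN_s c :=
  hier_WC.mono fun _ => crn_of

end
end Pool.Agent.MP_9cbfe4_an

end
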