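import Pool.Agent.MP_9cbfe4_an.M00
import Pool.Agent.MP_9cbfe4_an.M01

set_option linter.all false

attribute [-instance] AddQuantale.instAddLeftMono IdemSemiring.toCanonicallyOrderedAdd
  NumberField.to_charZero AddQuantale.instAddRightMono IdemSemiring.toMulLeftMono RKHS.instFunLike
  Quantale.instMulRightMono Quantale.instMulLeftMono IsOrderedCancelMonoid.toIsOrderedMonoid
  LinearOrderedCommMonoidWithZero.toPosMulStrictMono
  Group.IsPerfect.subsingleton_of_isMulCommutative CanonicallyOrderedAdd.toMulLeftMono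
  Valued.toUniformSpace IdemSemiring.toMulRightMono TotallySeparatedSpace.t2Space
  LinearOrderedCommMonoidWithZero.toIsOrderedMonoid IsScalarTower.complexToReal
  Order.Coframe.toCompleteLattice OmegaCompletePartialOrder.toPartialOrder Invertible.toNeZero
  GrpTypeEquivalenceGrp.grpGroup littleWedderburn CanonicallyOrderedMul.toMulLeftMono
  CoalgHomClass.toSemilinearMapClass TestFunctionClass.toDFunLike
  ContDiffMapSupportedInClass.toDFunLike Order.Frame.toCompleteLattice RightPreLieAlgebra.toModule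
  CategoryTheory.Limits.Concrete.instUniqueToTypeTerminal LeftPreLieAlgebra.toModule
  CStarAlgebra.instOrderClosedTopology IdemSemiring.toSemiring
  LieAdmissibleRing.toNonUnitalNonAssocRing NonUnitalAlgSemiHomClass.toDistribMulActionSemiHomClass
  CStarAlgebra.toNormedRing

/-! ### Part RINV3 -/

section

/-! Row RINV3: propagation of the field `i3` of `RInv` along a step. -/

namespace Pool.Agent.MP_9cbfe4_an

open Finset Filter Topology

structure R3C (c : Cs) : Prop where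
  a0 : 0 < c.a
  a1 : c.a ≤ 1 / 10
  chK : 1 / 2 ≤ c.chK
  chb : c.chK ≤ c.bl
  bl : 24 ≤ c.bl
  L8 : 8 ≤ c.L
  lam : 30 / c.a ≤ c.lam

theorem r3c : Hier R3C := by
  obtain h1 := Hier.a_le (fun _ => 1 / 10) (fun _ _ _ _ _ _ => rfl) (Hier.of_all fun _ => by norm_num)
  have h2 := Hier.β_ge (fun _ => 1) fun _ _ _ => rfl
  have h3 := Hier.lam_ge (fun c => 30 / c.a) fun _ _ => rfl
  have h4 := Hier.L_ge (fun _ => 8) fun _ _ => rfl
  have h5 := Hier.lam_ge (fun _ => 24) fun _ _ => rfl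
  refine (Hier.base.and (h1.and (h2.and (h3.and (h4.and h5))))).mono ?_
  rintro c ⟨⟨k1, k2, -⟩, ⟨a0, a1⟩, b1, l1, L8, l2⟩
  obtain k0 : 0 < c.k0 := by linarith only [k1, a0, a1]
  obtain hbl : 24 ≤ c.bl := by unfold Cs.bl; nlinarith only [b1, l2, a0, a1]
  refine ⟨a0, a1, ?_, ?_, hbl, L8, l1⟩
  · unfold Cs.chK
    obtain this : Real.log 2 ≤ Real.log (1 / c.k0) :=
      Real.log_le_log (by norm_num) (by rw [le_div_iff₀ k0]; linarith only [k2])
    linarith only [a0, a1, this, Real.log_two_gt_d9]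
  · unfold Cs.chK
    obtain h16 : 1 / c.k0 ≤ 16 := by rw [div_le_iff₀ k0]; linarith only [k1]
    obtain this := Real.log_le_sub_one_of_pos (show 0 < 1 / c.k0 by positivity)
    linarith only [a0, a1, hbl, h16, this]

namespace R3C
variable {c : Cs} (hc : R3C c) (S : Sq)
include hc

theorem chi0 {i j : ℤ} (h : i ≤ j) : 0 ≤ S.chi c i j := by
  have h1 := S.chi_ge c hc.chb h
  obtain h2 : (0 : ℝ) ≤ ((j - i : ℤ) : ℝ) := by exact_mod_cast sub_nonneg.2 h
  nlinarith only [h1, h2, hc.chK]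

theorem chi1 {i j : ℤ} (h : i < j) : 1 / 2 ≤ S.chi c i j := by
  have h1 := S.chi_ge c hc.chb h.le
  obtain h2 : (1 : ℝ) ≤ ((j - i : ℤ) : ℝ) := by exact_mod_cast (by omega : (1 : ℤ) ≤ j - i)
  nlinarith only [h1, h2, hc.chK]

theorem ff1 {s i : ℤ} (h : s ≤ i) : 1 ≤ S.ff c s i ∧ S.ff c s i ≤ 2 := by
  have h1 := hc.chi0 S h
  obtain h2 : Real.exp (-S.chi c s i / 24) ≤ 1 := Real.exp_le_one_iff.2 (by linarith only [h1])
  have h3 := Real.exp_pos (-S.chi c s i / 24)
  unfold Sq.ff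
  constructor <;> linarith only [h2, h3]

/-- the increment of `Bc` is paid by the growth of the exponential -/
theorem pay {r x : ℝ} (hx : 1 / 2 ≤ x) (h : r ≤ 1 ∨ r ≤ c.a / 4 * x) :
    16 * Real.exp (r - c.lam / 3) ≤ 10 * (Real.exp (c.a * x) - 1) := by
  have a0 := hc.a0
  obtain l0 : 10 / c.a ≤ c.lam / 3 := by
    obtain this : 30 / c.a = 3 * (10 / c.a) := by ring
    linarith only [this, hc.lam]
  obtain p10 : 0 < 10 / c.a := by positivity
  by_cases hr : r ≤ 1
  · obtain e1 : Real.exp (r - c.lam / 3) * Real.exp (c.lam / 3) = Real.exp r := by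
      rw [← Real.exp_add]; ring_nf
    obtain e2 : Real.exp r ≤ 3 :=
      (Real.exp_le_exp.2 hr).trans (by linarith only [Real.exp_one_lt_d9])
    obtain e3 : 10 / c.a ≤ Real.exp (c.lam / 3) := by linarith only [l0, Real.add_one_le_exp (c.lam / 3)]
    obtain e4 : Real.exp (r - c.lam / 3) * (10 / c.a) ≤ 3 :=
      (mul_le_mul_of_nonneg_left e3 (Real.exp_pos _).le).trans (by rw [e1]; exact e2)
    obtain e5 : Real.exp (r - c.lam / 3) ≤ 3 * c.a / 10 := by
      rw [← le_div_iff₀ p10] at e4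
      calc _ ≤ _ := e4
        _ = _ := by field_simp
    have e6 := Real.add_one_le_exp (c.a * x)
    nlinarith only [a0, e5, e6, hx]
  · have hr' := h.resolve_left hr
    push Not at hr
    obtain e1 : Real.exp (r - c.lam / 3) ≤ Real.exp r := Real.exp_le_exp.2 (by linarith only [l0, p10])
    obtain e2 : Real.exp r * Real.exp (3 * r) ≤ Real.exp (c.a * x) := by
      rw [← Real.exp_add]; exact Real.exp_le_exp.2 (by linarith only [hr'])
    have e3 := Real.add_one_le_exp (3 * r)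
    have e4 := Real.add_one_le_exp r
    nlinarith only [hr, e1, e2, e3, e4]

end R3C

theorem exp_dep {c : Cs} {S : Sq} {ξ : ℤ → ℝ} {n p : ℤ} (hL : 0 < c.L) (h : S.rho ξ n p ≠ 0) :
    Real.exp (S.dep c ξ n p) * |S.rho ξ n p| = c.L := by
  have := abs_pos.2 h
  unfold Sq.dep
  rw [Real.exp_log (by positivity)]
  field_simp

/-- old index `i < n`, new index `j > n` -/
theorem bc_old {c : Cs} (hc : R3C c) {S : Sq} {ξ : ℤ → ℝ} {s n i j : ℤ} {R : ℝ} (ok : S.OK c)
    (st : S.St c ξ s) (hn : S.RInv c ξ s n) (hi : s ≤ i) (hin : i < n) (hj : n < j)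
    (hR : |S.fr (n + 1) j| * c.L * |ξ n| ≤ R * S.wh c ξ s j) :
    S.Bc c (S.wh c ξ s) i j ≤ S.Bc c (S.wh c ξ s) i n + 8 * S.ff c s i * Real.exp (-c.lam / 3) * R := by
  obtain ⟨s0, sol, s1, -⟩ := st
  obtain hs : ξ s ≠ 0 := by rw [s1]; exact one_ne_zero
  obtain L0 : 0 < c.L := by linarith only [hc.L8]
  have wi := S.wh_pos c hs hi
  obtain wj := S.wh_pos c hs (show s ≤ j by omega)
  have wn : 0 < |ξ n| := abs_pos.2 hn.ne
  obtain eu := S.euler hin hj.le fun l h1 _ => sol l (by omega)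
  obtain ⟨P0, P1⟩ := ok.Pb_le (θ := 2 / 100) (by norm_num) (i := i) (j := n) (by omega)
  obtain ⟨f1, f2⟩ := hc.ff1 S hi
  have x0 := hc.chi0 S hin.le
  obtain xi := S.abs_le_wh c ξ (show s - 1 ≤ i by omega)
  obtain xj := S.abs_le_wh c ξ (show s - 1 ≤ j by omega)
  set x := S.chi c i n
  set f := S.ff c s i
  set e := Real.exp (-c.lam / 3) with he
  have e0 : 0 < e := Real.exp_pos _
  -- `w_i ≤ 8 e e^{a x} w_n`
  obtain b1 : S.wh c ξ s (n - 1) ≤ 2 * e * |ξ n| := by
    obtain h := hn.i1 (by omega)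
    have := Real.exp_pos (-S.chi c s n / 10)
    obtain h' : e * (2 - Real.exp (-S.chi c s n / 10)) * |ξ n| ≤ 2 * e * |ξ n| := by
      apply mul_le_mul_of_nonneg_right _ wn.le
      linarith only [mul_pos e0 this]
    exact h.trans h'
  have ea : 1 ≤ Real.exp (c.a * x) := Real.one_le_exp (mul_nonneg hc.a0.le x0)
  obtain b2 : S.wh c ξ s i ≤ 8 * e * Real.exp (c.a * x) * |ξ n| := by
    obtain t0 : 0 < e * |ξ n| := by (clear * - wn; positivity)
    rcases eq_or_lt_of_le (show i ≤ n - 1 by omega) with h | h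
    · rw [h]; linarith only [b1, t0, ea, mul_le_mul_of_nonneg_left ea t0.le]
    · obtain h1 := (hn.i2p i (n - 1) hi h (by omega)).1
      obtain h2 : f ^ 2 ≤ 4 := by nlinarith only [f2, f1]
      calc _ ≤ _ := h1
        _ ≤ 4 * Real.exp (c.a * x) * (2 * e * |ξ n|) :=
          mul_le_mul (mul_le_mul_of_nonneg_right h2 (by positivity)) b1 (S.wh_nonneg c ξ s _)
            (by positivity)
        _ = _ := by ring
  have b3 := (hn.i2 i hi hin).1
  obtain b4 : Real.exp (-(1 - c.a) * x) * Real.exp (c.a * x) ≤ 1 := by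
    rw [← Real.exp_add]; exact Real.exp_le_one_iff.2 (by nlinarith only [x0, hc.a1])
  -- `Pb |ξ i| w_i ≤ 8 f e w_n ^ 2`
  obtain b5 : |S.Pb i n| * |ξ i| * S.wh c ξ s i ≤ 8 * f * e * |ξ n| ^ 2 := by
    rw [abs_of_pos P0]
    have t1 : S.Pb i n * |ξ i| ≤ f * Real.exp (-(1 - c.a) * x) * |ξ n| :=
      (mul_le_mul P1 xi (abs_nonneg _) (P0.le.trans P1)).trans b3
    calc _ ≤ f * Real.exp (-(1 - c.a) * x) * |ξ n| * (8 * e * Real.exp (c.a * x) * |ξ n|) :=
          mul_le_mul t1 b2 wi.le (by (clear * - f1 wn; positivity))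
      _ = 8 * f * e * |ξ n| ^ 2 * (Real.exp (-(1 - c.a) * x) * Real.exp (c.a * x)) := by ring
      _ ≤ 8 * f * e * |ξ n| ^ 2 * 1 := mul_le_mul_of_nonneg_left b4 (by (clear * - f1 wn; positivity))
      _ = _ := mul_one _
  obtain b6 : |S.fr (i + 1) j| * |ξ n| ≤
      |ξ j| * |S.fr (i + 1) n| + |S.Pb i n| * |ξ i| * |S.fr (n + 1) j| := by
    rw [← eu, ← abs_mul, ← abs_mul]
    have := abs_add_le (ξ j * S.fr (i + 1) n) (S.fr (i + 1) j * ξ n - ξ j * S.fr (i + 1) n)
    rwa [add_sub_cancel] at this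
  unfold Sq.Bc
  rw [hn.whm, div_le_iff₀ wj]
  set wI := S.wh c ξ s i
  set wJ := S.wh c ξ s j
  set u := |ξ n|
  have F0 := abs_nonneg (S.fr (i + 1) n)
  have G0 := abs_nonneg (S.fr (n + 1) j)
  apply le_of_mul_le_mul_right _ wn
  obtain t1 : |ξ j| * |S.fr (i + 1) n| * (c.L * wI) ≤ wJ * |S.fr (i + 1) n| * (c.L * wI) := by (clear * - xj L0 wi; gcongr)
  obtain t2 : |S.Pb i n| * |ξ i| * wI * (|S.fr (n + 1) j| * c.L) ≤
      8 * f * e * u ^ 2 * (|S.fr (n + 1) j| * c.L) := by (clear * - b5 L0; gcongr)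
  obtain t3 : 8 * f * e * u * (|S.fr (n + 1) j| * c.L * u) ≤ 8 * f * e * u * (R * wJ) := by (clear * - hR f1 wn; gcongr)
  obtain t4 : |S.fr (i + 1) j| * u * (c.L * wI) ≤
      (|ξ j| * |S.fr (i + 1) n| + |S.Pb i n| * |ξ i| * |S.fr (n + 1) j|) * (c.L * wI) := by (clear * - b6 L0 wi; gcongr)
  obtain t5 : (|S.fr (i + 1) n| * c.L * wI / u + 8 * f * e * R) * wJ * u =
      wJ * |S.fr (i + 1) n| * (c.L * wI) + 8 * f * e * u * (R * wJ) := by field_simp
  rw [t5]
  linarith only [t1, t2, t3, t4]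

/-- both indices inside the block -/
theorem bc_in {c : Cs} (hc : R3C c) {S : Sq} {ξ : ℤ → ℝ} {s n p i j : ℤ} {r ρ : ℝ} {Ls}
    (st : S.St c ξ s) (hs : s ≤ n) (wn : 0 < |ξ n|) (hp : S.RInv c (S.fr (n + 1)) (n + 1) p)
    (hb : S.BInv c n Ls p) (hρ : Real.exp r * ρ = c.L) (dch : r ≤ 1 ∨ r ≤ c.a / 4 * S.chi c n p)
    (hi : n < i) (hij : i < j) (hj : j ≤ p)
    (u1 : S.wh c ξ s i ≤ |ξ n| * (ρ * S.wp c n i + Real.exp (-S.chi c n i / 2)))
    (l1 : |ξ n| * (ρ * S.wp c n j - Real.exp (-S.chi c n j / 2)) ≤ S.wh c ξ s j)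
    (l2 : |ξ n| * ρ * S.wp c n j ≤ 2 * S.wh c ξ s j) :
    S.Bc c (S.wh c ξ s) i j ≤ 10 * S.ff c s i * Real.exp (c.a * S.chi c i p) := by
  obtain ⟨s0, sol, s1, -⟩ := st
  obtain hs1 : ξ s ≠ 0 := by rw [s1]; exact one_ne_zero
  have L8 := hc.L8
  have a0 := hc.a0
  have a1 := hc.a1
  have er := Real.exp_pos r
  obtain ρ0 : 0 < ρ := by
    obtain this : 0 < Real.exp r * ρ := by rw [hρ]; linarith only [L8, a0, a1]
    exact (pos_iff_pos_of_mul_pos this).1 er
  obtain wi := S.wh_pos c hs1 (show s ≤ i by omega)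
  obtain wj := S.wh_pos c hs1 (show s ≤ j by omega)
  obtain ⟨-, pi, -, bi⟩ := hb.i6 i hi (by omega)
  obtain ⟨-, pj, -, -⟩ := hb.i6 j (by omega) hj
  have qi : 0 < S.wp c n i := (Real.exp_pos _).trans_le pi
  have qj : 0 < S.wp c n j := (Real.exp_pos _).trans_le pj
  obtain ch : S.chi c n i = c.bl + S.chi c (n + 1) i := by
    rw [S.chi_add c (show n ≤ n + 1 by omega) (show n + 1 ≤ i by omega), S.chi_succ]
    unfold Sq.ch1
    rw [hb.kz.1]; ring
  obtain y0 := hc.chi0 S (show n + 1 ≤ i by omega)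
  obtain cp := S.chi_add c hi.le (show i ≤ p by omega)
  have cj := S.chi_add c hi.le hij.le
  have cs := S.chi_add c hs hi.le
  have z0 := hc.chi0 S hij.le
  have z1 := hc.chi0 S hs
  have bl := hc.bl
  obtain ⟨f1, f2⟩ := hc.ff1 S (show s ≤ i by omega)
  -- `E_l ≤ (e^{t} / L) ρ wp_l`
  obtain key : ∀ l t, Real.exp (-(c.a / 8 * S.chi c n l)) ≤ S.wp c n l →
      -S.chi c n l / 2 + c.a / 8 * S.chi c n l + r ≤ t →
      8 * Real.exp (-S.chi c n l / 2) ≤ Real.exp t * (ρ * S.wp c n l) := by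
    intro l t h1 h2
    obtain e1 : Real.exp (-S.chi c n l / 2) * Real.exp r ≤
        Real.exp t * Real.exp (-(c.a / 8 * S.chi c n l)) := by
      rw [← Real.exp_add, ← Real.exp_add]; exact Real.exp_le_exp.2 (by linarith only [h2])
    have e2 := Real.exp_pos (-S.chi c n l / 2)
    have e3 := Real.exp_pos t
    calc _ ≤ Real.exp (-S.chi c n l / 2) * (Real.exp r * ρ) := by
          rw [hρ, mul_comm]; exact mul_le_mul_of_nonneg_left L8 e2.le
      _ = Real.exp (-S.chi c n l / 2) * Real.exp r * ρ := by ring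
      _ ≤ Real.exp t * S.wp c n l * ρ := by
        apply mul_le_mul_of_nonneg_right _ ρ0.le
        exact e1.trans (mul_le_mul_of_nonneg_left h1 e3.le)
      _ = _ := by ring
  -- reduction to a comparison of ratios
  obtain red : ∀ B K : ℝ, 0 ≤ K → S.Bc c (S.wp c n) i j ≤ B →
      S.wh c ξ s i * S.wp c n j ≤ K * (S.wp c n i * S.wh c ξ s j) →
      S.Bc c (S.wh c ξ s) i j ≤ B * K := by
    intro B K K0 h1 h2
    unfold Sq.Bc at h1 ⊢
    rw [div_le_iff₀ qj] at h1
    rw [div_le_iff₀ wj]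
    apply le_of_mul_le_mul_right _ qj
    obtain F0 : 0 ≤ |S.fr (i + 1) j| * c.L := mul_nonneg (abs_nonneg _) (by linarith only [L8, a0, a1])
    calc _ = |S.fr (i + 1) j| * c.L * (S.wh c ξ s i * S.wp c n j) := by ring
      _ ≤ |S.fr (i + 1) j| * c.L * (K * (S.wp c n i * S.wh c ξ s j)) := by (clear * - h2 L8; gcongr)
      _ = |S.fr (i + 1) j| * c.L * S.wp c n i * (K * S.wh c ξ s j) := by ring
      _ ≤ B * S.wp c n j * (K * S.wh c ξ s j) := by (clear * - h1 K0 wj; gcongr)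
      _ = _ := by ring
  obtain m1 : c.a * S.chi c n i ≤ 1 / 10 * S.chi c n i := mul_le_mul_of_nonneg_right a1 (by linarith only [a0, a1, ch, y0, bl])
  obtain m2 : c.a * S.chi c n j ≤ 1 / 10 * S.chi c n j := mul_le_mul_of_nonneg_right a1 (by linarith only [a0, a1, ch, y0, cj, z0, bl])
  set u := |ξ n|
  set wI := S.wh c ξ s i
  set wJ := S.wh c ξ s j
  set qI := S.wp c n i
  set qJ := S.wp c n j
  by_cases hcase : 12 * r ≤ S.chi c n i
  · set x := Real.exp (-S.chi c (n + 1) i / 24) with hx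
    have x0 : 0 < x := Real.exp_pos _
    obtain x1 : x ≤ 1 := Real.exp_le_one_iff.2 (by linarith only [y0])
    obtain k1 := key i (-S.chi c (n + 1) i / 24) pi (by linarith only [a0, a1, ch, y0, bl, m1, hcase])
    obtain k2 := key j (-S.chi c (n + 1) i / 24) pj (by linarith only [a0, a1, ch, y0, cj, z0, bl, m2, hcase])
    rw [← hx] at k1 k2
    obtain hB := hp.i3 i j (by omega) hij hj
    obtain g1 : wI ≤ u * ρ * qI * (1 + x / 8) :=
      u1.trans (by linarith only [mul_le_mul_of_nonneg_left k1 wn.le])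
    obtain g2 : u * ρ * qJ * (1 - x / 8) ≤ wJ :=
      le_trans (by linarith only [mul_le_mul_of_nonneg_left k2 wn.le]) l1
    obtain g3 : wI * qJ ≤ (1 + x / 8) / (1 - x / 8) * (qI * wJ) := by
      rw [div_mul_eq_mul_div, le_div_iff₀ (by linarith only [a0, a1, x1])]
      calc wI * qJ * (1 - x / 8) ≤ u * ρ * qI * (1 + x / 8) * qJ * (1 - x / 8) := by
            obtain this : 0 ≤ 1 - x / 8 := by linarith only [a0, a1, x1]
            (clear * - g1 qj this; gcongr)
        _ = (1 + x / 8) * qI * (u * ρ * qJ * (1 - x / 8)) := by ring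
        _ ≤ (1 + x / 8) * qI * wJ := by (clear * - g2 qi; gcongr)
        _ = _ := by ring
    refine (red _ _ (div_nonneg (by linarith only [a0, a1, x0]) (by linarith only [a0, a1, x1])) hB g3).trans ?_
    obtain g4 : Real.exp (-S.chi c s i / 24) ≤ x / 2 := by
      obtain e1 : Real.exp (-S.chi c s i / 24) * Real.exp 1 ≤ x := by
        rw [hx, ← Real.exp_add]; exact Real.exp_le_exp.2 (by linarith only [ch, cs, z1, bl])
      have e2 := Real.add_one_le_exp (1 : ℝ)
      have e3 := Real.exp_pos (-S.chi c s i / 24)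
      linarith only [e1, mul_le_mul_of_nonneg_left e2 e3.le]
    obtain g5 : S.ff c (n + 1) i * ((1 + x / 8) / (1 - x / 8)) ≤ S.ff c s i := by
      unfold Sq.ff
      rw [← hx, ← mul_div_assoc, div_le_iff₀ (by linarith only [a0, a1, x1])]
      have e3 := Real.exp_pos (-S.chi c s i / 24)
      linarith only [g4, mul_pos e3 x0, mul_pos x0 x0]
    have e4 := Real.exp_pos (c.a * S.chi c i p)
    linarith only [mul_le_mul_of_nonneg_left g5 e4.le]
  · push Not at hcase
    obtain r1 : 1 < r := by linarith only [a0, a1, ch, y0, bl, hcase]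
    obtain hd := dch.resolve_left (by linarith only [a0, a1, ch, y0, bl, hcase])
    obtain k1 := key i r pi (by linarith only [a0, a1, ch, y0, bl, m1])
    obtain e1 : 1 ≤ Real.exp r := Real.one_le_exp (by linarith only [a0, a1, ch, y0, bl, hcase])
    obtain t0 : 0 < ρ * qI := by (clear * - ρ0 qi; positivity)
    obtain g1 : wI ≤ u * ρ * qI * (2 * Real.exp r) := by
      refine u1.trans ?_
      obtain this : ρ * qI + Real.exp (-S.chi c n i / 2) ≤ ρ * qI * (2 * Real.exp r) := by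
        linarith only [k1, t0, e1, mul_le_mul_of_nonneg_left e1 t0.le]
      calc _ ≤ u * (ρ * qI * (2 * Real.exp r)) := by (clear * - this wn; gcongr)
        _ = _ := by ring
    obtain g3 : wI * qJ ≤ 4 * Real.exp r * (qI * wJ) := by
      calc wI * qJ ≤ u * ρ * qI * (2 * Real.exp r) * qJ := by (clear * - g1 qj; gcongr)
        _ = 2 * Real.exp r * qI * (u * ρ * qJ) := by ring
        _ ≤ 2 * Real.exp r * qI * (2 * wJ) := by (clear * - l2 qi; gcongr)
        _ = _ := by ring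
    obtain hB : S.Bc c (S.wp c n) i j ≤ Real.exp (c.a / 8 * S.chi c n i) := by
      refine (bi j hij hj).trans ?_
      linarith only [mul_pos (Real.exp_pos (-S.chi c i p / 4)) (Real.exp_pos (c.a / 8 * S.chi c n i))]
    refine (red _ _ (by positivity) hB g3).trans ?_
    obtain e2 : Real.exp (c.a / 8 * S.chi c n i) * Real.exp r ≤ Real.exp (c.a * S.chi c i p) := by
      rw [← Real.exp_add]
      have m3 := mul_le_mul_of_nonneg_left hcase.le a0.le
      obtain m4 := mul_le_mul_of_nonneg_right a1 (show 0 ≤ r by linarith only [a0, a1, ch, y0, bl, hcase])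
      rw [cp] at hd
      exact Real.exp_le_exp.2 (by linarith only [a0, a1, ch, y0, bl, m1, hcase, hd])
    have e4 := Real.exp_pos (c.a * S.chi c i p)
    linarith only [e2, e4, f1, mul_le_mul_of_nonneg_left f1 e4.le]

theorem rinv3 : Hier fun c => BLK_s c → ∀ Ex (S : Sq) ξ s n r p, S.OK c → S.St c ξ s →
    S.RInv c ξ s n → S.Step c Ex ξ s n r p →
    (p = n + 1 ∨ ∃ Ls, S.RInv c (S.fr (n + 1)) (n + 1) p ∧ S.BInv c n Ls p) →
    ∀ i j, s ≤ i → i < j → j ≤ p →
      S.Bc c (S.wh c ξ s) i j ≤ 10 * S.ff c s i * Real.exp (c.a * S.chi c i p) := by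
  refine r3c.mono ?_
  intro c hc blk Ex S ξ s n r p ok st hn step hk i j hi hij hj
  obtain L0 : 0 < c.L := by linarith only [hc.L8]
  have a0 := hc.a0
  have np := step.lt
  have sn := hn.le
  have wn : 0 < |ξ n| := abs_pos.2 hn.ne
  obtain hξp : ξ p ≠ 0 := by
    intro h
    have := step.con.2
    rw [h, abs_zero, mul_zero] at this
    linarith only [wn, this]
  obtain hfp : S.fr (n + 1) p ≠ 0 := by
    rcases hk with h | ⟨Ls, h, -⟩
    · rw [h, S.fr_self]; exact one_ne_zero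
    · exact h.ne
  have hρ : S.rho ξ n p ≠ 0 := div_ne_zero hξp (mul_ne_zero hn.ne hfp)
  obtain hL : Real.exp r * |S.rho ξ n p| = c.L := by rw [step.hr]; exact exp_dep L0 hρ
  have er := Real.exp_pos r
  obtain ⟨f1, f2⟩ := hc.ff1 S hi
  obtain hR : ∀ l, n < l → l ≤ p →
      |S.fr (n + 1) l| * c.L * |ξ n| ≤ 2 * Real.exp r * S.wh c ξ s l := by
    intro l h1 h2
    rcases hk with h | ⟨Ls, h, hb⟩
    · obtain hl : l = n + 1 := by omega
      obtain e1 : |S.rho ξ n p| * |ξ n| = |ξ l| := by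
        rw [h, S.rho_one, hl, abs_div]; field_simp
      obtain e2 := S.abs_le_wh c ξ (show s - 1 ≤ l by omega)
      obtain e3 : S.fr (n + 1) l = 1 := by rw [hl, S.fr_self]
      rw [e3, abs_one, one_mul, ← hL, mul_assoc, e1]
      linarith only [mul_le_mul_of_nonneg_left e2 er.le, mul_nonneg er.le (abs_nonneg (ξ l))]
    · obtain ⟨-, -, -, e1, -⟩ := (blk S ξ s n Ls p ok st hn h hb hρ).2 l h1 h2
      obtain e2 : |S.fr (n + 1) l| ≤ S.wp c n l := S.abs_le_wh c _ (by omega)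
      rw [← hL]
      calc _ ≤ S.wp c n l * (Real.exp r * |S.rho ξ n p|) * |ξ n| := by (clear * - e2 hρ wn; gcongr)
        _ = Real.exp r * (|ξ n| * |S.rho ξ n p| * S.wp c n l) := by ring
        _ ≤ Real.exp r * (2 * S.wh c ξ s l) := by (clear * - e1; gcongr)
        _ = _ := by ring
  have x1 := hc.chi1 S np
  by_cases hjn : j ≤ n
  · refine (hn.i3 i j hi hij hjn).trans ?_
    obtain this := S.chi_add c (show i ≤ n by omega) np.le
    gcongr
    linarith only [x1, this]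
  push Not at hjn
  rcases lt_trichotomy i n with h | h | h
  · refine (bc_old hc ok st hn hi h hjn (hR j hjn hj)).trans ?_
    have h1 := hn.i3 i n hi h le_rfl
    have h2 := hc.pay x1 step.dch
    obtain h3 : Real.exp (r - c.lam / 3) = Real.exp (-c.lam / 3) * Real.exp r := by
      rw [← Real.exp_add]; ring_nf
    have h4 : 1 ≤ Real.exp (c.a * S.chi c i n) :=
      Real.one_le_exp (mul_nonneg a0.le (hc.chi0 S h.le))
    obtain h5 : Real.exp (c.a * S.chi c i p) =
        Real.exp (c.a * S.chi c i n) * Real.exp (c.a * S.chi c n p) := by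
      rw [← Real.exp_add, S.chi_add c h.le np.le]; ring_nf
    obtain h6 : 1 ≤ Real.exp (c.a * S.chi c n p) := Real.one_le_exp (by (clear * - a0 x1; positivity))
    rw [h5]
    rw [h3] at h2
    set E1 := Real.exp (c.a * S.chi c i n)
    set E2 := Real.exp (c.a * S.chi c n p)
    set f := S.ff c s i
    obtain h7 : f * (16 * (Real.exp (-c.lam / 3) * Real.exp r)) ≤ f * (10 * (E2 - 1)) := by (clear * - h2 f1; gcongr)
    obtain h8 : f * (10 * (E2 - 1)) * 1 ≤ f * (10 * (E2 - 1)) * E1 :=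
      mul_le_mul_of_nonneg_left h4 (mul_nonneg (by linarith only [f1]) (by linarith only [h6]))
    linarith only [h1, h7, h8]
  · subst h
    obtain wj := S.wh_pos c (show ξ s ≠ 0 by rw [st.2.2.1]; exact one_ne_zero) (show s ≤ j by omega)
    obtain h1 : S.Bc c (S.wh c ξ s) i j ≤ 2 * Real.exp r := by
      unfold Sq.Bc
      rw [hn.whm, div_le_iff₀ wj]; exact hR j hjn hj
    refine h1.trans ?_
    obtain h6 : 1 ≤ Real.exp (c.a * S.chi c i p) := Real.one_le_exp (by (clear * - a0 x1; positivity))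
    rcases step.dch with h | h
    · obtain this : Real.exp r ≤ 3 := (Real.exp_le_exp.2 h).trans (by linarith only [Real.exp_one_lt_d9])
      linarith only [h6, this, f1, mul_le_mul_of_nonneg_left f1 (zero_le_one.trans h6)]
    · obtain this : Real.exp r ≤ Real.exp (c.a * S.chi c i p) :=
        Real.exp_le_exp.2 (by linarith only [h, x1, mul_pos a0 (show 0 < S.chi c i p by linarith only [x1])])
      linarith only [h6, this, f1, mul_le_mul_of_nonneg_left f1 (zero_le_one.trans h6)]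
  · rcases hk with h' | ⟨Ls, hp, hb⟩
    · omega
    · have B := (blk S ξ s n Ls p ok st hn hp hb hρ).2
      exact bc_in hc st sn wn hp hb hL step.dch h hij hj (B i h (by omega)).2.2.2.2
        (B j hjn hj).2.2.1 (B j hjn hj).2.2.2.1

end Pool.Agent.MP_9cbfe4_an

end

/-! ### Part RINV -/

section

/-! Row RINV: propagation of (I1), (I2) along a step. -/

namespace Pool.Agent.MP_9cbfe4_an
open Finset Real

namespace RI

structure HC (c : Cs) : Prop where
  k1 : 1 / 16 ≤ c.k0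
  k2 : c.k0 < 1 / 2
  lam : 100 ≤ c.lam
  L : 100 ≤ c.L
  a0 : 0 < c.a
  a1 : c.a ≤ 1 / 10
  ε0 : 0 < c.ε
  ε1 : c.ε ≤ 1 / 8
  C0 : 0 ≤ c.C0
  M1 : 2 * c.C0 + 1 ≤ c.M1
  β1 : 100 ≤ c.β
  β2 : 4 * c.C0 ≤ c.β
  β3 : 1 / c.a ≤ c.β

theorem hc : Hier HC := by
  have h1 := Hier.base
  have h2 := Hier.lam_ge (fun _ => 100) fun _ _ => rfl
  have h3 := Hier.L_ge (fun _ => 100) fun _ _ => rfl
  obtain h4 := Hier.a_le (fun _ => 1 / 10) (fun _ _ _ _ _ _ => rfl) (Hier.of_all fun _ => by norm_num)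
  obtain h5 := Hier.ε_le_pow (fun _ => 1 / 8) 0 (by norm_num) (fun _ _ _ _ _ _ _ _ => rfl)
    (Hier.of_all fun _ => by norm_num)
  have h6 := Hier.C0_ge fun _ _ _ _ => 0
  have h7 := Hier.M1_ge (fun c => 2 * c.C0 + 1) fun _ _ _ _ => rfl
  have h8 := Hier.β_ge (fun _ => 100) fun _ _ _ => rfl
  have h9 := Hier.β_ge (fun c => 4 * c.C0) fun _ _ _ => rfl
  have h10 := Hier.β_ge (fun c => 1 / c.a) fun _ _ _ => rfl
  exact (h1.and (h2.and (h3.and (h4.and (h5.and (h6.and (h7.and (h8.and (h9.and h10))))))))).mono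
    fun c ⟨a1, a2, a3, a4, a5, a6, a7, a8, a9, a10⟩ =>
      ⟨a1.1, a1.2.1, a2, a3, a4.1, a4.2, a5.1, by simpa using a5.2, a6, a7, a8, a9, a10⟩

variable {c : Cs} {S : Sq}

theorem HC.bl (h : HC c) : 100 * c.lam ≤ c.bl := by
  have := h.lam; have := h.β1
  unfold Cs.bl; (rename_i zq0; nlinarith only [this, zq0])

theorem HC.abl (h : HC c) : 100 ≤ c.a * c.bl := by
  have h1 := h.lam; have h2 := h.β3; have h3 := h.a0
  rw [div_le_iff₀ h3] at h2
  unfold Cs.bl; nlinarith only [h1, h2]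

theorem HC.chK0 (h : HC c) : 0 < c.chK := by
  have h1 := h.k1; have h2 := h.k2
  exact log_pos (by rw [lt_div_iff₀ (by linarith only [h1, h2])]; linarith only [h1, h2])

theorem HC.chK1 (h : HC c) : c.chK ≤ c.bl := by
  have h1 := h.k1; have h2 := h.bl; have h3 := h.lam
  obtain h4 : c.chK ≤ 1 / c.k0 - 1 := log_le_sub_one_of_pos (by (clear * - h1; positivity))
  obtain h5 : 1 / c.k0 ≤ 16 := by rw [div_le_iff₀ (by linarith only [h1])]; linarith only [h1]
  linarith only [h2, h3, h4, h5]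

theorem HC.eL (h : HC c) : exp c.lam = c.L := exp_log (by linarith only [h.L])

theorem HC.chi0 (h : HC c) {i j : ℤ} (hij : i ≤ j) : 0 ≤ S.chi c i j :=
  le_trans (mul_nonneg h.chK0.le (by exact_mod_cast sub_nonneg.2 hij)) (S.chi_ge c h.chK1 hij)

theorem HC.ff1 (h : HC c) {s i : ℤ} (hs : s ≤ i) : 1 ≤ S.ff c s i ∧ S.ff c s i ≤ 2 := by
  obtain h1 : exp (-S.chi c s i / 24) ≤ 1 := exp_le_one_iff.2 (by linarith only [h.chi0 (S := S) hs])
  have h2 := exp_pos (-S.chi c s i / 24)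
  unfold Sq.ff; constructor <;> linarith only [h1, h2]

theorem HC.PB0 (h : HC c) (i j : ℤ) : 0 ≤ S.PB c (2 / 100) i j := by
  refine prod_nonneg fun l _ => ?_
  have h1 := h.k1; have h2 := h.L
  unfold Sq.bb; split_ifs <;> positivity

theorem NK0 (i j : ℤ) : 0 ≤ S.NK i j := sum_nonneg fun l _ => (S.kk_mem l).1

theorem exp_half {x : ℝ} (hx : x ≤ -1) : exp x ≤ 1 / 2 := by
  have h1 : exp x ≤ exp (-1) := exp_le_exp.2 hx
  obtain h2 : exp (-1 : ℝ) * exp 1 = 1 := by rw [← exp_add]; simp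
  have h3 := add_one_le_exp (1 : ℝ)
  have h4 := exp_pos (-1 : ℝ)
  nlinarith only [h1, h2, h3, h4]

theorem exp_tenth {x : ℝ} (hx : x ≤ -9) : exp x ≤ 1 / 10 := by
  have h1 : exp x ≤ exp (-9) := exp_le_exp.2 hx
  obtain h2 : exp (-9 : ℝ) * exp 9 = 1 := by rw [← exp_add]; simp
  have h3 := add_one_le_exp (9 : ℝ)
  have h4 := exp_pos (-9 : ℝ)
  nlinarith only [h1, h2, h3, h4]

/-- `e^x ≤ e^y / 10` when `x ≤ y - 9` -/
theorem exp_gap {x y : ℝ} (h : x ≤ y - 9) : exp x ≤ exp y / 10 := by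
  obtain h1 : exp x = exp y * exp (x - y) := by rw [← exp_add]; ring_nf
  obtain h2 := exp_tenth (x := x - y) (by linarith only [h])
  have h3 := exp_pos y
  nlinarith only [h1, h2, h3]

/-- gain of the weights when a contraction `bl` lies between the two starts -/
theorem gain {x y b t : ℝ} (ht : 0 < t) (hx : y + b ≤ x) (hb : t ≤ b) :
    (2 - exp (-y / t)) + exp (-y / t) / 2 ≤ 2 - exp (-x / t) := by
  obtain h1 : exp (-x / t) = exp (-y / t) * exp (-(x - y) / t) := by rw [← exp_add]; ring_nf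
  obtain h2 : exp (-(x - y) / t) ≤ 1 / 2 := exp_half (by rw [div_le_iff₀ ht]; linarith only [hx, hb])
  have h3 := exp_pos (-y / t)
  nlinarith only [h1, h2, h3]

/-- what is used about a block `(n, p]` -/
structure Blk (c : Cs) (S : Sq) (ξ : ℤ → ℝ) (s n p : ℤ) (r R : ℝ) : Prop where
  R0 : 0 < R
  Rr : R * exp (r - c.lam) = 1
  N0 : 0 < |ξ n|
  xp : |ξ p| = |ξ n| * R * |S.fr (n + 1) p|
  lo1 : ∀ j, n < j → j ≤ p → |ξ n| * R * S.wp c n j ≤ S.wh c ξ s j + |ξ n| * exp (-S.chi c n j / 2)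
  lo2 : ∀ j, n < j → j ≤ p → |ξ n| * R * S.wp c n j ≤ 2 * S.wh c ξ s j
  hi : ∀ j, n < j → j ≤ p → S.wh c ξ s j ≤ |ξ n| * R * S.wp c n j + |ξ n| * exp (-S.chi c n j / 2)
  chi1 : S.chi c n (n + 1) = c.bl
  wlo : ∀ j, n < j → j ≤ p → exp (-(c.a / 8 * S.chi c n j)) ≤ S.wp c n j
  whi : ∀ j, n < j → j ≤ p → S.wp c n j ≤ exp (c.a / 4 * S.chi c n j)
  pb : ∀ i j, n ≤ i → i < j → j ≤ p →
    S.PB c (2 / 100) i j ≤ exp (-S.chi c i j + c.a / 8 * S.chi c n j)
  inn : S.RInv c (S.fr (n + 1)) (n + 1) p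

variable {Ex : ExT} {ξ : ℤ → ℝ} {s n p : ℤ} {r : ℝ}

theorem ne_p (hn : S.RInv c ξ s n) (hs : S.Step c Ex ξ s n r p) : ξ p ≠ 0 := by
  intro h0
  have h1 := hs.con.2
  rw [h0, abs_zero, mul_zero] at h1
  exact hn.ne (abs_nonpos_iff.1 h1)

theorem rho_r (h : HC c) (hs : S.Step c Ex ξ s n r p) (h0 : S.rho ξ n p ≠ 0) :
    |S.rho ξ n p| * exp (r - c.lam) = 1 := by
  have h1 : 0 < |S.rho ξ n p| := abs_pos.2 h0
  obtain h2 : 0 < c.L := by linarith only [h.L]
  rw [exp_sub, h.eL, hs.hr, Sq.dep, exp_log (by (clear * - h2 h0; positivity))]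
  field_simp

theorem blk (h : HC c) (hB : BLK_s c) (ok : S.OK c) (st : S.St c ξ s) (hn : S.RInv c ξ s n)
    (hs : S.Step c Ex ξ s n r p) {Ls} (hi : S.RInv c (S.fr (n + 1)) (n + 1) p)
    (hb : S.BInv c n Ls p) : Blk c S ξ s n p r |S.rho ξ n p| := by
  have h0 : S.rho ξ n p ≠ 0 := div_ne_zero (ne_p hn hs) (mul_ne_zero hn.ne hi.ne)
  obtain ⟨b1, b2⟩ := hB S ξ s n Ls p ok st hn hi hb h0
  refine ⟨abs_pos.2 h0, rho_r h hs h0, abs_pos.2 hn.ne, ?_, fun j h1 h2 => ?_,
    fun j h1 h2 => (b2 j h1 h2).2.2.2.1, fun j h1 h2 => ?_, ?_, fun j h1 h2 => (hb.i6 j h1 h2).2.1,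
    fun j h1 h2 => (hb.i6 j h1 h2).2.2.1, fun i j h1 h2 h3 => ?_, hi⟩
  · rw [b1, abs_mul, abs_mul]; ring
  · linarith only [(b2 j h1 h2).2.2.1]
  · linarith only [(b2 j h1 h2).2.2.2.2]
  · rw [S.chi_succ, Sq.ch1, hb.kz.1]; ring
  · have k1 := h.k1; have k2 := h.L; have k3 := h.lam
    refine (S.PB_le c (by linarith only [k1]) (by nlinarith only [k1, k2]) h.chK1 h2.le
      (by first | assumption | linarith only [k3] | positivity)).trans (exp_le_exp.2 ?_)
    obtain h4 := (hb.i6 j (by omega) h3).1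
    have h5 := S.NK_add h1 h2.le
    have h6 := NK0 (S := S) n i
    nlinarith only [h4, h5, h6, k3]

namespace Blk
variable {R : ℝ}

theorem chi_ge (B : Blk c S ξ s n p r R) (h : HC c) {i : ℤ} (hi : n < i) :
    S.chi c n i = c.bl + S.chi c (n + 1) i ∧ 0 ≤ S.chi c (n + 1) i := by
  rw [← B.chi1]
  exact ⟨S.chi_add c (by omega) (by omega), h.chi0 (by omega)⟩

theorem ffg (B : Blk c S ξ s n p r R) (h : HC c) (hs : s ≤ n) {i : ℤ} (hi : n < i) :
    S.ff c (n + 1) i + exp (-S.chi c (n + 1) i / 24) / 2 ≤ S.ff c s i := by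
  have h1 := B.chi_ge h hi
  have h2 := S.chi_add c hs hi.le
  have h3 := h.chi0 (S := S) hs
  exact gain (b := c.bl) (by norm_num) (by linarith only [h1, h2, h3]) (by linarith only [h.bl, h.lam])

/-- `|ξ n|` against the majorant inside the block -/
theorem Nle (B : Blk c S ξ s n p r R) {j : ℤ} (h1 : n < j) (h2 : j ≤ p) :
    |ξ n| ≤ 2 * exp (r - c.lam + c.a / 8 * S.chi c n j) * S.wh c ξ s j := by
  have a1 := B.lo2 j h1 h2
  have a2 := B.wlo j h1 h2
  have a3 := B.Rr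
  obtain a4 : exp (-(c.a / 8 * S.chi c n j)) * exp (c.a / 8 * S.chi c n j) = 1 := by
    rw [← exp_add]; simp
  have a5 : |ξ n| * R * exp (-(c.a / 8 * S.chi c n j)) ≤ 2 * S.wh c ξ s j :=
    le_trans (mul_le_mul_of_nonneg_left a2 (mul_pos B.N0 B.R0).le) a1
  calc |ξ n| = |ξ n| * R * exp (-(c.a / 8 * S.chi c n j)) *
        (exp (r - c.lam) * exp (c.a / 8 * S.chi c n j)) := by
          linear_combination (-|ξ n| * (R * exp (r - c.lam))) * a4 - |ξ n| * a3
    _ ≤ 2 * S.wh c ξ s j * (exp (r - c.lam) * exp (c.a / 8 * S.chi c n j)) := by gcongr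
    _ = _ := by rw [exp_add]; ring

theorem Nle' (B : Blk c S ξ s n p r R) (h : HC c) (hs : S.Step c Ex ξ s n r p) {j : ℤ} (h1 : n < j)
    (h2 : j ≤ p) :
    |ξ n| ≤ exp (c.a / 4 * S.chi c n p + c.a / 8 * S.chi c n j) * S.wh c ξ s j := by
  refine (B.Nle h1 h2).trans (mul_le_mul_of_nonneg_right ?_ (S.wh_nonneg c ξ s j))
  obtain a1 : 0 ≤ c.a / 4 * S.chi c n p := mul_nonneg (by linarith only [h.a0]) (h.chi0 hs.lt.le)
  obtain a2 := exp_gap (x := r - c.lam + c.a / 8 * S.chi c n j)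
    (y := c.a / 4 * S.chi c n p + c.a / 8 * S.chi c n j)
    (by rcases hs.dch with a | a <;> linarith only [a1, a, h.lam])
  linarith only [a2, exp_pos (r - c.lam + c.a / 8 * S.chi c n j)]
end Blk

theorem slope (h : HC c) (st : S.St c ξ s) (hn : S.RInv c ξ s n) : |ξ (n - 1)| ≤ |ξ n| / 5 := by
  have hl := h.lam
  rcases hn.le.eq_or_lt with e | e
  · subst e
    obtain this := exp_tenth (x := -c.lam / 5) (by linarith only [hl])
    rw [st.2.2.1, abs_one]; linarith only [this, st.2.2.2]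
  · have a1 := hn.i1 e
    obtain a2 := S.abs_le_wh c ξ (s := s) (j := n - 1) (by omega)
    obtain a3 := exp_tenth (x := -c.lam / 3) (by linarith only [hl])
    have a4 := exp_pos (-S.chi c s n / 10)
    have a5 := exp_pos (-c.lam / 3)
    obtain a6 : exp (-c.lam / 3) * (2 - exp (-S.chi c s n / 10)) ≤ 1 / 5 := by nlinarith only [a3, a4, a5]
    nlinarith only [a1, a2, a3, a5, a6, abs_nonneg (ξ n)]

theorem r_le (h : HC c) (ok : S.OK c) (st : S.St c ξ s) (hn : S.RInv c ξ s n)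
    (hs : S.Step c Ex ξ s n r (n + 1)) :
    |ξ n| = |ξ (n + 1)| * exp (r - c.lam) ∧ r ≤ 2 * c.lam / 3 := by
  have hl := h.lam; have e0 := h.ε0; have e1 := h.ε1; have hL := h.L; have hb := h.bl
  have N0 : 0 < |ξ n| := abs_pos.2 hn.ne
  have P0 : 0 < |ξ (n + 1)| := abs_pos.2 (ne_p hn hs)
  obtain a1 := rho_r h hs (by rw [S.rho_one]; exact div_ne_zero (ne_p hn hs) hn.ne)
  rw [S.rho_one, abs_div, div_mul_eq_mul_div, div_eq_one_iff_eq N0.ne'] at a1
  refine ⟨a1.symm, ?_⟩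
  rcases hs.kind with ⟨-, k⟩ | ⟨k1, k2, -, k4, -⟩
  · unfold Cs.c1 at k; nlinarith only [hl, e0, e1, k]
  have n0 : 0 ≤ n := st.1.trans hn.le
  obtain a2 : log |ξ n| = log |ξ (n + 1)| + (r - c.lam) := by
    rw [← a1, log_mul P0.ne' (exp_pos _).ne', log_exp]
  obtain a3 : |ξ (n + 1)| ≤ c.L / 10 * |ξ n| := by
    obtain b1 := exp_gap (x := c.lam - r) (y := c.lam) (by linarith only [hl, e0, e1, k1])
    obtain b2 : exp (r - c.lam) * exp (c.lam - r) = 1 := by rw [← exp_add]; simp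
    rw [h.eL] at b1
    calc |ξ (n + 1)| = exp (c.lam - r) * |ξ n| := by
          linear_combination (-|ξ (n + 1)|) * b2 + exp (c.lam - r) * a1
      _ ≤ _ := by (clear * - b1 N0; gcongr)
  obtain a4 : |S.b n| ≤ c.L := by
    have b1 := ok.b_lo n n0
    obtain b2 := ok.b_hi n (2 / 100) n0 (by norm_num)
    have b3 := exp_pos (-c.bl)
    obtain b4 : exp (-c.bl) ≤ 1 := exp_le_one_iff.2 (by linarith only [hl, e0, e1, hb])
    have b5 := h.k2
    rw [abs_of_nonneg (by linarith only [b1, b3])]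
    unfold Sq.bb at b2; split_ifs at b2 <;> nlinarith only [hL, b2, e0, e1, b5, b1, b3, b4]
  obtain a5 : |S.a n| * |ξ n| ≤ |ξ (n + 1)| + |S.b n| * |ξ (n - 1)| := by
    rw [← abs_mul, ← abs_mul, show S.a n * ξ n = ξ (n + 1) - S.b n * ξ (n - 1) by
      rw [st.2.1 n hn.le]; ring]
    exact abs_sub _ _
  obtain a6 : |S.b n| * |ξ (n - 1)| ≤ c.L * (|ξ n| / 5) := by gcongr; exact slope h st hn
  obtain a7 : S.kk n = 0 := by
    refine S.kk_eq_zero.2 (Or.inl (not_lt.1 fun hd => ?_))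
    obtain b1 := mul_le_mul_of_nonneg_right (ok.a_Z n n0 (by linarith only [e0, e1, hd])) N0.le
    linarith only [P0, a3, a5, a6, b1, mul_pos (show 0 < c.L by linarith only [P0, a3, a5, a6, b1]) N0]
  obtain a8 : S.chi c (n - 1) n = c.bl := by
    have := S.chi_succ c (n - 1)
    rw [sub_add_cancel, Sq.ch1, a7] at this
    rw [this]; ring
  obtain a9 : c.C0 * (2 * r) ≤ S.chi c (n - 1) n := by
    rw [a8]
    rw [S.chi_succ] at k4
    have b1 := (S.ch1_mem c h.chK1 (n + 1)).2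
    have b2 := h.C0; have b3 := h.M1
    obtain b4 : 4 * c.C0 * c.lam ≤ c.bl := mul_le_mul_of_nonneg_right h.β2 (by linarith only [hl, e0, e1])
    rcases le_total r c.lam with b5 | b5 <;> nlinarith only [hl, e1, hb, b4, b5, e0, k1, k4, b1, b3]
  obtain a10 : S.load c n (2 * r) = 0 := by
    refine le_antisymm ((S.load_le_qu c h.chK0 h.chK1 (by omega) a9).trans
      ((S.qu_le_NK (by unfold Cs.Q; linarith only [e0, e1, h.abl]) _ _).trans ?_)) (S.load_nonneg c _ _)
    obtain this : Ioc (n - 1) n = {n} := by ext x; simp; omega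
    rw [Sq.NK, this, sum_singleton, a7]
  rw [a10] at k2
  nlinarith only [k2, a2, e0, e1, k1]

theorem i1 (h : HC c) (hB : BLK_s c) (ok : S.OK c) (st : S.St c ξ s) (hn : S.RInv c ξ s n)
    (hs : S.Step c Ex ξ s n r p)
    (hp : p = n + 1 ∨ ∃ Ls, S.RInv c (S.fr (n + 1)) (n + 1) p ∧ S.BInv c n Ls p) :
    S.wh c ξ s (p - 1) ≤ exp (-c.lam / 3) * (2 - exp (-S.chi c s p / 10)) * |ξ p| := by
  have hl := h.lam; have hb := h.bl; have lt := hs.lt; have le := hn.le
  rcases eq_or_lt_of_le (show n + 1 ≤ p by omega) with e | e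
  · subst e
    obtain ⟨a1, a2⟩ := r_le h ok st hn hs
    obtain a3 : exp (r - c.lam) ≤ exp (-c.lam / 3) := exp_le_exp.2 (by linarith only [a2])
    obtain a4 : exp (-S.chi c s (n + 1) / 10) ≤ 1 :=
      exp_le_one_iff.2 (by linarith only [le, h.chi0 (S := S) (show s ≤ n + 1 by omega)])
    have a5 := exp_pos (-c.lam / 3)
    rw [add_sub_cancel_right, hn.whm, a1, mul_comm]
    gcongr
    nlinarith only [a3, a4, a5]
  obtain ⟨Ls, hi, hbi⟩ := hp.resolve_left e.ne'
  have B := blk h hB ok st hn hs hi hbi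
  obtain a1 := B.hi (p - 1) (by omega) (by omega)
  have a2 : S.wp c n (p - 1) ≤ _ := hi.i1 e
  obtain ⟨a3, a3'⟩ := B.chi_ge h (i := p - 1) (by omega)
  obtain ⟨a4, -⟩ := B.chi_ge h lt
  obtain a5 : S.chi c n p ≤ S.chi c n (p - 1) + c.bl := by
    have b1 := S.chi_succ c (p - 1)
    rw [sub_add_cancel] at b1
    rw [S.chi_add c (show n ≤ p - 1 by omega) (show p - 1 ≤ p by omega), b1]
    linarith only [(S.ch1_mem c h.chK1 p).2]
  obtain a6 := gain (x := S.chi c s p) (y := S.chi c (n + 1) p) (b := c.bl) (t := 10) (by norm_num)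
    (by linarith only [a4, S.chi_add c le lt.le, h.chi0 (S := S) le]) (by linarith only [hl, hb])
  obtain a7 := exp_gap (x := c.a / 2 * S.chi c n p + -S.chi c n (p - 1) / 2)
    (y := -c.lam / 3 + -S.chi c (n + 1) p / 10) (by nlinarith only [hl, hb, a3, a3', a4, a5, h.a0, h.a1])
  rw [exp_add, exp_add] at a7
  obtain a8 : |ξ n| * exp (-S.chi c n (p - 1) / 2) ≤
      exp (-c.lam / 3) * exp (-S.chi c (n + 1) p / 10) / 10 * |ξ p| :=
    calc _ ≤ exp (c.a / 2 * S.chi c n p) * |ξ p| * exp (-S.chi c n (p - 1) / 2) := by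
          gcongr; exact hs.con.2
      _ = exp (c.a / 2 * S.chi c n p) * exp (-S.chi c n (p - 1) / 2) * |ξ p| := by ring
      _ ≤ _ := by (clear * - a7; gcongr)
  have a9 := mul_le_mul_of_nonneg_left a2 (mul_pos B.N0 B.R0).le
  obtain a10 : |ξ n| * |S.rho ξ n p| * S.wp c n (p - 1) ≤
      exp (-c.lam / 3) * (2 - exp (-S.chi c (n + 1) p / 10)) * |ξ p| := by rw [B.xp]; linarith only [a9]
  have a11 := mul_le_mul_of_nonneg_left a6 (mul_nonneg (exp_pos (-c.lam / 3)).le (abs_nonneg (ξ p)))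
  obtain a12 : 0 ≤ exp (-c.lam / 3) * exp (-S.chi c (n + 1) p / 10) * |ξ p| := by (clear * -; positivity)
  linarith only [a1, a8, a10, a11, a12]

theorem whm (h : HC c) (hsp : s < p)
    (h1 : S.wh c ξ s (p - 1) ≤ exp (-c.lam / 3) * (2 - exp (-S.chi c s p / 10)) * |ξ p|) :
    S.wh c ξ s p = |ξ p| := by
  rw [S.wh_succ c ξ hsp.le]
  refine max_eq_left ?_
  obtain a1 : exp (-S.ch1 c p / 2) ≤ 1 :=
    exp_le_one_iff.2 (by linarith only [(S.ch1_mem c h.chK1 p).1, h.chK0])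
  obtain a3 := exp_tenth (x := -c.lam / 3) (by linarith only [h.lam])
  have a4 := exp_pos (-S.chi c s p / 10)
  have a5 := exp_pos (-c.lam / 3)
  obtain a6 : exp (-c.lam / 3) * (2 - exp (-S.chi c s p / 10)) ≤ 1 := by nlinarith only [a3, a5, a4]
  nlinarith only [h1, a1, a3, a5, a6, abs_nonneg (ξ p), S.wh_nonneg c ξ s (p - 1)]

/-- `x ≤ e^u y`, `u ≤ v`, `1 ≤ f` give `x ≤ f e^v y` -/
theorem up {x y u v f g : ℝ} (hx : x ≤ f * exp u * y) (hy : 0 ≤ y) (huv : u ≤ v) (hf : f ≤ g)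
    (hg : 0 ≤ g) : x ≤ g * exp v * y := by
  have h1 := exp_le_exp.2 huv
  have h2 := exp_pos u
  exact hx.trans (by gcongr)

theorem old (h : HC c) (hn : S.RInv c ξ s n) {i : ℤ} (h1 : s ≤ i) (h2 : i ≤ n) :
    S.PB c (2 / 100) i n * S.wh c ξ s i ≤ S.ff c s i * exp (-(1 - c.a) * S.chi c i n) * |ξ n| ∧
    S.wh c ξ s i ≤ S.ff c s i * exp (c.a * S.chi c i n) * |ξ n| := by
  rcases h2.eq_or_lt with e | e
  · subst e
    have := (h.ff1 (S := S) h1).1
    simp only [Sq.PB, Ioc_self, prod_empty, S.chi_self, mul_zero, exp_zero, hn.whm, mul_one, one_mul]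
    constructor <;> nlinarith only [this, abs_nonneg (ξ i)]
  · exact hn.i2 i h1 e

theorem i2 (h : HC c) (hB : BLK_s c) (ok : S.OK c) (st : S.St c ξ s) (hn : S.RInv c ξ s n)
    (hs : S.Step c Ex ξ s n r p)
    (hp : p = n + 1 ∨ ∃ Ls, S.RInv c (S.fr (n + 1)) (n + 1) p ∧ S.BInv c n Ls p)
    (i : ℤ) (h1 : s ≤ i) (h2 : i < p) :
    S.PB c (2 / 100) i p * S.wh c ξ s i ≤ S.ff c s i * exp (-(1 - c.a) * S.chi c i p) * |ξ p| ∧
    S.wh c ξ s i ≤ S.ff c s i * exp (c.a * S.chi c i p) * |ξ p| := by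
  have lt := hs.lt; have a0 := h.a0; have a1 := h.a1; have hb := h.bl; have hl := h.lam
  have f1 := h.ff1 (S := S) h1
  obtain f0 : 0 ≤ S.ff c s i := by linarith only [a0, a1, f1]
  have P0 := abs_nonneg (ξ p)
  rcases le_or_gt i n with e | e
  · obtain ⟨b1, b2⟩ := old h hn h1 e
    have b3 := S.chi_add c e lt.le
    have b4 := mul_nonneg a0.le (h.chi0 (S := S) lt.le)
    have b5 := h.PB0 (S := S) n p
    constructor
    · refine up (u := -(1 - c.a) * S.chi c i n + -(1 - c.a / 2) * S.chi c n p) ?_ P0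
        (by rw [b3]; linarith only [b4]) le_rfl f0
      calc _ = S.PB c (2 / 100) i n * S.wh c ξ s i * S.PB c (2 / 100) n p := by
            rw [S.PB_mul c _ e lt.le]; ring
        _ ≤ S.ff c s i * exp (-(1 - c.a) * S.chi c i n) * |ξ n| * S.PB c (2 / 100) n p := by (clear * - b1 b5; gcongr)
        _ = S.ff c s i * exp (-(1 - c.a) * S.chi c i n) * (S.PB c (2 / 100) n p * |ξ n|) := by ring
        _ ≤ S.ff c s i * exp (-(1 - c.a) * S.chi c i n) *
            (exp (-(1 - c.a / 2) * S.chi c n p) * |ξ p|) :=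
            mul_le_mul_of_nonneg_left hs.con.1 (by (clear * - f0; positivity))
        _ = _ := by rw [exp_add]; ring
    · refine up (u := c.a * S.chi c i n + c.a / 2 * S.chi c n p) ?_ P0
        (by rw [b3]; linarith only [b4]) le_rfl f0
      calc _ ≤ _ := b2
        _ ≤ S.ff c s i * exp (c.a * S.chi c i n) * (exp (c.a / 2 * S.chi c n p) * |ξ p|) := by
            gcongr; exact hs.con.2
        _ = _ := by rw [exp_add]; ring
  obtain ⟨Ls, hi, hbi⟩ := hp.resolve_left (by omega)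
  have B := blk h hB ok st hn hs hi hbi
  obtain ⟨b1, b2⟩ := hi.i2 i (by omega) h2
  have b3 := B.hi i e h2.le
  have b4 := B.ffg h hn.le e
  obtain ⟨b5, b6⟩ := B.chi_ge h e
  have b7 := S.chi_add c e.le h2.le
  have b8 := h.chi0 (S := S) h2.le
  have b9 := mul_nonneg a0.le b8
  obtain b10 : c.a * S.chi c n i ≤ 1 / 10 * S.chi c n i := by gcongr; linarith only [a0, a1, hb, hl, b5, b6]
  have NR := (mul_pos B.N0 B.R0).le
  have b11 := h.PB0 (S := S) i p
  obtain E : |ξ n| * exp (-S.chi c n i / 2) ≤ exp (c.a / 2 * S.chi c n p + -S.chi c n i / 2) * |ξ p| :=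
    calc _ ≤ exp (c.a / 2 * S.chi c n p) * |ξ p| * exp (-S.chi c n i / 2) := by
          gcongr; exact hs.con.2
      _ = _ := by rw [exp_add]; ring
  constructor
  · have d1 := mul_le_mul_of_nonneg_left b1 NR
    obtain d2 := exp_gap (x := -S.chi c i p + c.a / 8 * S.chi c n p +
        (c.a / 2 * S.chi c n p + -S.chi c n i / 2))
      (y := -S.chi c (n + 1) i / 24 + -(1 - c.a) * S.chi c i p) (by rw [b7]; linarith only [a0, a1, hb, hl, b5, b6, b9, b10])
    obtain d3 : S.PB c (2 / 100) i p * (|ξ n| * exp (-S.chi c n i / 2)) ≤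
        exp (-S.chi c (n + 1) i / 24) * exp (-(1 - c.a) * S.chi c i p) / 10 * |ξ p| :=
      calc _ ≤ exp (-S.chi c i p + c.a / 8 * S.chi c n p) *
            (exp (c.a / 2 * S.chi c n p + -S.chi c n i / 2) * |ξ p|) := by
            gcongr; exact B.pb i p e.le h2 le_rfl
        _ ≤ _ := by rw [← mul_assoc, ← exp_add, ← exp_add]; gcongr
    have d4 := mul_le_mul_of_nonneg_left b3 b11
    have d5 := mul_le_mul_of_nonneg_right b4
      (mul_nonneg (exp_pos (-(1 - c.a) * S.chi c i p)).le P0)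
    obtain d6 : 0 ≤ exp (-S.chi c (n + 1) i / 24) * exp (-(1 - c.a) * S.chi c i p) * |ξ p| := by
      (clear * -; positivity)
    obtain d7 : |ξ n| * |S.rho ξ n p| * (S.PB c (2 / 100) i p * S.wp c n i) ≤
        S.ff c (n + 1) i * exp (-(1 - c.a) * S.chi c i p) * |ξ p| := by
      rw [B.xp]; exact d1.trans_eq (by ring)
    linarith only [d3, d4, d5, d6, d7]
  · have d1 := mul_le_mul_of_nonneg_left b2 NR
    obtain d2 := exp_gap (x := c.a / 2 * S.chi c n p + -S.chi c n i / 2)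
      (y := -S.chi c (n + 1) i / 24 + c.a * S.chi c i p) (by rw [b7]; linarith only [a0, a1, hb, hl, b5, b6, b9, b10])
    obtain d3 : |ξ n| * exp (-S.chi c n i / 2) ≤
        exp (-S.chi c (n + 1) i / 24) * exp (c.a * S.chi c i p) / 10 * |ξ p| :=
      E.trans (by rw [← exp_add]; (clear * - d2; gcongr))
    have d5 := mul_le_mul_of_nonneg_right b4 (mul_nonneg (exp_pos (c.a * S.chi c i p)).le P0)
    obtain d6 : 0 ≤ exp (-S.chi c (n + 1) i / 24) * exp (c.a * S.chi c i p) * |ξ p| := by (clear * -; positivity)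
    obtain d7 : |ξ n| * |S.rho ξ n p| * S.wp c n i ≤
        S.ff c (n + 1) i * exp (c.a * S.chi c i p) * |ξ p| := by
      rw [B.xp]; exact d1.trans_eq (by ring)
    linarith only [b3, d3, d5, d6, d7]

theorem comb {x y A B K M T e1 e2 d f g : ℝ} (hK : 0 ≤ K) (hM : 0 ≤ M) (hT : 0 ≤ T) (hy : 0 ≤ y)
    (hd : 0 ≤ d) (g1 : 1 ≤ g) (g2 : g ≤ 2) (hf : g + d / 2 ≤ f) (h1 : x ≤ K * A + e1)
    (h2 : K * B ≤ y + e2) (h3 : M * A ≤ g ^ 2 * T * B) (h4 : M * e1 ≤ d / 10 * T * y)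
    (h5 : e2 ≤ d / 5 * y) : M * x ≤ f ^ 2 * T * y := by
  have a1 := mul_le_mul_of_nonneg_left h1 hM
  have a2 := mul_le_mul_of_nonneg_left h3 hK
  have a3 := mul_le_mul_of_nonneg_left (h2.trans (add_le_add_right h5 y))
    (mul_nonneg (sq_nonneg g) hT)
  obtain a4 : g ^ 2 * d ≤ 4 * d := by gcongr; nlinarith only [g2, g1]
  obtain a5 : g ^ 2 + g ^ 2 * d / 5 + d / 10 ≤ f ^ 2 := by
    obtain this : (g + d / 2) ^ 2 ≤ f ^ 2 := by (clear * - g1 hd hf; gcongr)
    linarith only [hd, a4, this, g1, mul_nonneg hd (sub_nonneg.2 g1), sq_nonneg d]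
  have a6 := mul_le_mul_of_nonneg_right a5 (mul_nonneg hT hy)
  linarith only [h4, a1, a2, a3, a6]

theorem i2p_in {R : ℝ} (h : HC c) (B : Blk c S ξ s n p r R) (le : s ≤ n)
    (hs : S.Step c Ex ξ s n r p) {i j : ℤ} (h1 : n < i) (h2 : i < j) (h3 : j ≤ p) :
    S.wh c ξ s i ≤ S.ff c s i ^ 2 * exp (c.a * S.chi c i p) * S.wh c ξ s j ∧
    S.PB c (2 / 100) i j * S.wh c ξ s i ≤
      S.ff c s i ^ 2 * exp (c.a * S.chi c i p - (1 - 2 * c.a) * S.chi c i j) * S.wh c ξ s j := by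
  have a0 := h.a0; have a1 := h.a1; have hb := h.bl; have hl := h.lam; have hab := h.abl
  obtain hip : i ≤ p := by omega
  obtain hnj : n < j := by omega
  obtain ⟨b5, b6⟩ := B.chi_ge h h1
  have b7 := S.chi_add c h1.le hip
  have b7' := S.chi_add c h1.le h2.le
  have b7'' := S.chi_add c h2.le h3
  have b8 := h.chi0 (S := S) h2.le
  have b8' := h.chi0 (S := S) h3
  have b9 := mul_nonneg a0.le b8
  have b9' := mul_nonneg a0.le b8'
  have b9'' := mul_nonneg a0.le b6
  obtain b10 : c.a * S.chi c n i ≤ 1 / 10 * S.chi c n i := by gcongr; linarith only [a0, a1, hb, hl, b5, b6]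
  obtain b10' : c.a * S.chi c i j ≤ 1 / 10 * S.chi c i j := by (clear * - a1 b8; gcongr)
  have NR := (mul_pos B.N0 B.R0).le
  have b11 := h.PB0 (S := S) i j
  have b12 := B.pb i j h1.le h2 h3
  have W0 := S.wh_nonneg c ξ s j
  have W1 := S.wh_nonneg c ξ s i
  have b13 := B.Nle' h hs hnj h3
  have b3 := B.hi i h1 hip
  rcases le_or_gt (3 * r) (S.chi c n i) with e | e
  · obtain ⟨g1, g2⟩ := h.ff1 (S := S) (show n + 1 ≤ i by omega)
    obtain ⟨d1, d2⟩ := B.inn.i2p i j (by omega) h2 h3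
    obtain d3 : |ξ n| * exp (-S.chi c n j / 2) ≤ exp (-S.chi c (n + 1) i / 24) / 5 * S.wh c ξ s j := by
      obtain d4 := exp_gap (x := r - c.lam + c.a / 8 * S.chi c n j + -S.chi c n j / 2)
        (y := -S.chi c (n + 1) i / 24) (by rw [b7']; linarith only [a0, a1, hb, hl, b5, b6, b8, b10, b10', e])
      calc _ ≤ 2 * exp (r - c.lam + c.a / 8 * S.chi c n j) * S.wh c ξ s j *
            exp (-S.chi c n j / 2) := by gcongr; exact B.Nle hnj h3
        _ = 2 * exp (r - c.lam + c.a / 8 * S.chi c n j + -S.chi c n j / 2) * S.wh c ξ s j := by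
            rw [exp_add _ (-S.chi c n j / 2)]; ring
        _ ≤ _ := by gcongr; linarith only [d4]
    obtain E : |ξ n| * exp (-S.chi c n i / 2) ≤
        exp (c.a / 4 * S.chi c n p + c.a / 8 * S.chi c n j + -S.chi c n i / 2) * S.wh c ξ s j :=
      calc _ ≤ exp (c.a / 4 * S.chi c n p + c.a / 8 * S.chi c n j) * S.wh c ξ s j *
            exp (-S.chi c n i / 2) := by gcongr
        _ = _ := by rw [exp_add _ (-S.chi c n i / 2)]; ring
    constructor
    · rw [← one_mul (S.wh c ξ s i)]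
      refine comb NR zero_le_one (exp_pos _).le W0 (exp_pos _).le g1 g2 (B.ffg h le h1) b3
        (B.lo1 j hnj h3) (by rw [one_mul]; exact d1) ?_ d3
      obtain d4 := exp_gap (x := c.a / 4 * S.chi c n p + c.a / 8 * S.chi c n j + -S.chi c n i / 2)
        (y := -S.chi c (n + 1) i / 24 + c.a * S.chi c i p) (by rw [b7, b7', b7'']; linarith only [a0, a1, hb, hl, b5, b6, b9, b9', b10])
      rw [one_mul, div_mul_eq_mul_div, ← exp_add]
      exact E.trans (by (clear * - d4 W0; gcongr))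
    · refine comb NR b11 (exp_pos _).le W0 (exp_pos _).le g1 g2 (B.ffg h le h1) b3
        (B.lo1 j hnj h3) d2 ?_ d3
      obtain d4 := exp_gap (x := -S.chi c i j + c.a / 8 * S.chi c n j +
          (c.a / 4 * S.chi c n p + c.a / 8 * S.chi c n j + -S.chi c n i / 2))
        (y := -S.chi c (n + 1) i / 24 + (c.a * S.chi c i p - (1 - 2 * c.a) * S.chi c i j))
        (by rw [b7, b7', b7'']; linarith only [a0, a1, hb, hl, b5, b6, b9, b9', b10])
      rw [div_mul_eq_mul_div, ← exp_add]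
      calc _ ≤ exp (-S.chi c i j + c.a / 8 * S.chi c n j) * (exp (c.a / 4 * S.chi c n p +
            c.a / 8 * S.chi c n j + -S.chi c n i / 2) * S.wh c ξ s j) := by (clear * - b12 E; gcongr)
        _ ≤ _ := by rw [← mul_assoc, ← exp_add]; (clear * - d4 W0; gcongr)
  · obtain f1 := (h.ff1 (S := S) (show s ≤ i by omega)).1
    obtain f2 : 3 / 10 ≤ S.ff c s i ^ 2 := by nlinarith only [f1]
    obtain d0 : r ≤ c.a / 4 * S.chi c n p := hs.dch.resolve_left (by linarith only [a0, a1, hb, hl, b5, b6, e])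
    obtain d1 : c.a * S.chi c n p ≤ 1 / 10 * S.chi c n p := by gcongr; linarith only [a0, a1, hb, hl, b5, b6, b7, b7'', b8, b8']
    obtain d2 : c.a * S.chi c n i ≤ c.a * (1 / 4 * S.chi c n p) := by gcongr; linarith only [a0, a1, hb, hl, b5, b6, e, d0, d1]
    obtain d3 : c.a * c.bl ≤ c.a * S.chi c n p := by gcongr; linarith only [a0, a1, hb, hl, b5, b6, e, d0, d1]
    obtain d4 : c.a * S.chi c n j ≤ c.a * S.chi c n p := by gcongr; linarith only [b7, b7', b7'', b8']
    obtain d5 : c.a * S.chi c n p = c.a * S.chi c n i + c.a * S.chi c i p := by rw [b7]; ring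
    obtain d6 : |ξ n| * R * S.wp c n i ≤ 2 * exp (3 / 8 * (c.a * S.chi c n p)) * S.wh c ξ s j := by
      have k1 := (mul_le_mul_of_nonneg_left (B.wlo j hnj h3) NR).trans (B.lo2 j hnj h3)
      refine up (u := c.a / 4 * S.chi c n i + c.a / 8 * S.chi c n j) ?_ W0 (by linarith only [a0, a1, hb, hl, b5, b6, b10, e, d0, d4]) le_rfl
        zero_le_two
      calc _ ≤ |ξ n| * R * exp (c.a / 4 * S.chi c n i) := by gcongr; exact B.whi i h1 hip
        _ = |ξ n| * R * exp (-(c.a / 8 * S.chi c n j)) *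
            exp (c.a / 4 * S.chi c n i + c.a / 8 * S.chi c n j) := by
            rw [mul_assoc _ (exp _), ← exp_add]; ring_nf
        _ ≤ 2 * S.wh c ξ s j * exp (c.a / 4 * S.chi c n i + c.a / 8 * S.chi c n j) := by (clear * - k1; gcongr)
        _ = _ := by ring
    obtain d7 : |ξ n| * exp (-S.chi c n i / 2) ≤
        1 * exp (3 / 8 * (c.a * S.chi c n p)) * S.wh c ξ s j := by
      refine up (u := c.a / 4 * S.chi c n p + c.a / 8 * S.chi c n j) ?_ W0 (by linarith only [d4]) le_rfl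
        zero_le_one
      rw [one_mul]
      exact (mul_le_of_le_one_right (abs_nonneg _) (exp_le_one_iff.2 (by linarith only [a0, a1, hb, hl, b5, b6]))).trans b13
    obtain d8 : S.wh c ξ s i ≤ 3 * exp (3 / 8 * (c.a * S.chi c n p)) * S.wh c ξ s j := by linarith only [b3, d6, d7]
    constructor
    · obtain k1 := exp_gap (x := 3 / 8 * (c.a * S.chi c n p)) (y := c.a * S.chi c i p) (by linarith only [a0, a1, hb, hl, b5, b6, b10, e, d0, d5])
      refine up (f := 3 / 10) (d8.trans ?_) W0 le_rfl f2 (by (clear * - f1; positivity))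
      exact mul_le_mul_of_nonneg_right (by linarith only [k1]) W0
    · obtain k1 := exp_gap (x := -S.chi c i j + c.a / 8 * S.chi c n j + 3 / 8 * (c.a * S.chi c n p))
        (y := c.a * S.chi c i p - (1 - 2 * c.a) * S.chi c i j) (by linarith only [a0, a1, hb, hl, b5, b6, b9, b10, e, d0, d4, d5])
      refine up (f := 3 / 10) ?_ W0 le_rfl f2 (by (clear * - f1; positivity))
      calc _ ≤ exp (-S.chi c i j + c.a / 8 * S.chi c n j) *
            (3 * exp (3 / 8 * (c.a * S.chi c n p)) * S.wh c ξ s j) := by (clear * - b12 d8 W1; gcongr)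
        _ = 3 * exp (-S.chi c i j + c.a / 8 * S.chi c n j + 3 / 8 * (c.a * S.chi c n p)) *
            S.wh c ξ s j := by rw [exp_add _ (3 / 8 * _)]; ring
        _ ≤ _ := mul_le_mul_of_nonneg_right (by linarith only [k1]) W0

theorem i2p (h : HC c) (hB : BLK_s c) (ok : S.OK c) (st : S.St c ξ s) (hn : S.RInv c ξ s n)
    (hs : S.Step c Ex ξ s n r p)
    (hp : p = n + 1 ∨ ∃ Ls, S.RInv c (S.fr (n + 1)) (n + 1) p ∧ S.BInv c n Ls p)
    (hw : S.wh c ξ s p = |ξ p|) (i j : ℤ) (h1 : s ≤ i) (h2 : i < j) (h3 : j ≤ p) :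
    S.wh c ξ s i ≤ S.ff c s i ^ 2 * exp (c.a * S.chi c i p) * S.wh c ξ s j ∧
    S.PB c (2 / 100) i j * S.wh c ξ s i ≤
      S.ff c s i ^ 2 * exp (c.a * S.chi c i p - (1 - 2 * c.a) * S.chi c i j) * S.wh c ξ s j := by
  have lt := hs.lt; have a0 := h.a0
  have f1 := (h.ff1 (S := S) h1).1
  obtain f0 : 0 ≤ S.ff c s i := by linarith only [f1]
  obtain f2 : S.ff c s i ≤ S.ff c s i ^ 2 := by nlinarith only [f1]
  have W0 := S.wh_nonneg c ξ s j
  have x0 := mul_nonneg a0.le (h.chi0 (S := S) lt.le)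
  rcases le_or_gt j n with e | e
  · obtain ⟨b1, b2⟩ := hn.i2p i j h1 h2 e
    have b3 := S.chi_add c (h2.le.trans e) lt.le
    exact ⟨up b1 W0 (by rw [b3]; linarith only [x0]) le_rfl (by positivity),
      up b2 W0 (by rw [b3]; linarith only [x0]) le_rfl (by positivity)⟩
  rcases h3.eq_or_lt with e' | e'
  · subst e'
    obtain ⟨b1, b2⟩ := i2 h hB ok st hn hs hp i h1 h2
    have b3 := mul_nonneg a0.le (h.chi0 (S := S) h2.le)
    rw [hw]
    exact ⟨up b2 (abs_nonneg _) le_rfl f2 (by positivity),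
      up b1 (abs_nonneg _) (by linarith only [b3]) f2 (by positivity)⟩
  obtain ⟨Ls, hi, hbi⟩ := hp.resolve_left (by omega)
  have B := blk h hB ok st hn hs hi hbi
  rcases le_or_gt i n with e'' | e''
  swap
  · exact i2p_in h B hn.le hs e'' h2 h3
  obtain ⟨b1, b2⟩ := old h hn h1 e''
  have b3 := B.Nle' h hs e h3
  have b4 := S.chi_add c e'' lt.le
  have b5 := S.chi_add c e'' e.le
  have b6 := S.chi_add c e.le h3
  have b7 := mul_nonneg a0.le (h.chi0 (S := S) e.le)
  have b8 := mul_nonneg a0.le (h.chi0 (S := S) h3)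
  have b9 := mul_nonneg a0.le (h.chi0 (S := S) e'')
  constructor
  · refine up (u := c.a * S.chi c i n + (c.a / 4 * S.chi c n p + c.a / 8 * S.chi c n j)) ?_ W0
      (by rw [b4, b6]; linarith only [b7, b8]) f2 (by positivity)
    calc _ ≤ _ := b2
      _ ≤ S.ff c s i * exp (c.a * S.chi c i n) *
          (exp (c.a / 4 * S.chi c n p + c.a / 8 * S.chi c n j) * S.wh c ξ s j) := by gcongr
      _ = _ := by rw [exp_add (c.a * S.chi c i n)]; ring
  · refine up (u := -(1 - c.a) * S.chi c i n + (c.a / 4 * S.chi c n p + c.a / 8 * S.chi c n j) +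
      (-S.chi c n j + c.a / 8 * S.chi c n j)) ?_ W0 (by rw [b4, b5, b6]; linarith only [b7, b8, b9]) f2 (by positivity)
    have b10 := h.PB0 (S := S) n j
    calc _ = S.PB c (2 / 100) i n * S.wh c ξ s i * S.PB c (2 / 100) n j := by
          rw [S.PB_mul c _ e'' e.le]; ring
      _ ≤ S.ff c s i * exp (-(1 - c.a) * S.chi c i n) * |ξ n| * S.PB c (2 / 100) n j := by (clear * - b1 b10; gcongr)
      _ ≤ S.ff c s i * exp (-(1 - c.a) * S.chi c i n) *
          (exp (c.a / 4 * S.chi c n p + c.a / 8 * S.chi c n j) * S.wh c ξ s j) *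
          exp (-S.chi c n j + c.a / 8 * S.chi c n j) := by
          gcongr; exact B.pb n j le_rfl e h3
      _ = _ := by rw [exp_add (_ + _) (-S.chi c n j + _), exp_add (-(1 - c.a) * S.chi c i n)]; ring

theorem start (h : HC c) (st : S.St c ξ s) : S.RInv c ξ s s := by
  refine ⟨le_rfl, by rw [st.2.2.1]; exact one_ne_zero, ?_, fun e => absurd e (lt_irrefl _),
    fun i _ _ => by omega, fun i j _ _ _ => by omega, fun i j _ _ _ => by omega⟩
  refine le_antisymm (S.wh_le c ξ (abs_nonneg _) fun i h1 h2 => ?_) (S.abs_le_wh c ξ (by omega))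
  obtain a1 : exp (-S.chi c i s / 2) ≤ 1 := exp_le_one_iff.2 (by linarith only [h.chi0 (S := S) h2])
  refine (mul_le_of_le_one_right (abs_nonneg _) a1).trans ?_
  rcases h2.eq_or_lt with e | e
  · rw [e]
  · rw [show i = s - 1 by omega, st.2.2.1, abs_one]
    exact st.2.2.2.trans (exp_le_one_iff.2 (by linarith only [h.lam]))

end RI

theorem rinv : Hier fun c => BLK_s c → RINV_s c :=
  (RI.hc.and rinv3).mono fun _ ⟨h, h3⟩ hB Ex S ξ s ok st =>
    ⟨RI.start h st, fun n r p hn hs hp =>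
      have h1 := RI.i1 h hB ok st hn hs hp
      have hw := RI.whm h (hn.le.trans_lt hs.lt) h1
      ⟨hn.le.trans hs.lt.le, RI.ne_p hn hs, hw, fun _ => h1, RI.i2 h hB ok st hn hs hp,
        RI.i2p h hB ok st hn hs hp hw, h3 hB Ex S ξ s n r p ok st hn hs hp⟩⟩

end Pool.Agent.MP_9cbfe4_an

end

/-! ### Part T2 -/

section

/-! Row T2: numerics of an excursion between good times, uniform growth of `A`. -/

namespace Pool.Agent.MP_9cbfe4_an
open Finset Filter Topology
namespace T2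
noncomputable section

structure Par (c : Cs) : Prop where
  e3p : 0 < c.e3
  e3s : c.e3 ≤ 1 / 100
  εp : 0 < c.ε
  εs : c.ε ≤ c.e3
  Γ1 : 1 ≤ c.Γ
  C6 : 0 ≤ c.C6
  Qb : c.lam ≤ c.Q
  del0 : 0 ≤ c.del
  del1 : c.del ≤ 1 / 10000
  cc1 : 1000 ≤ c.cc
  Γl : 200 * c.Γ ≤ c.e3 * c.cc
  C6l : 10 * c.C6 * c.Γ + 5 ≤ c.lam / 4

theorem par : Hier Par := by
  have h0 := Hier.C0_ge fun _ _ _ _ => 1
  have h1 := Hier.C1_ge fun _ _ _ _ _ => 1
  obtain h2 := Hier.e3_le (fun _ => 1 / 100) (fun _ _ _ _ _ _ _ _ => rfl)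
    (Hier.of_all fun _ => by norm_num)
  obtain h3 : Hier fun c => 0 < c.ε ∧ c.ε ≤ c.e3 :=
    (Hier.ε_le_pow (fun _ => 1) 1 (by norm_num) (fun _ _ _ _ _ _ _ _ => rfl)
      (Hier.of_all fun _ => one_pos)).mono fun _ h => ⟨h.1, by simpa using h.2⟩
  obtain h4 := Hier.a_le (fun _ => 1) (fun _ _ _ _ _ _ => rfl) (Hier.of_all fun _ => by norm_num)
  obtain h5 := Hier.d1_le (fun c => 1 / (30000 * (1 + 6 * c.C0 * c.C1))) (fun _ _ _ _ _ => rfl)
    ((h0.and h1).mono fun c h => by have := h.1; have := h.2; (rename_i zq0; clear * - zq0 this; positivity))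
  have h6 := Hier.β_ge (fun c => 1 / c.a) fun _ _ _ => rfl
  have h7 := Hier.lam_ge (fun c => 20000 / c.ε) fun _ _ => rfl
  have h8 := Hier.lam_ge (fun c => 4000 * c.Γ / (c.e3 * c.ε)) fun _ _ => rfl
  have h9 := Hier.lam_ge (fun c => 4 * (10 * c.C6 * c.Γ + 5)) fun _ _ => rfl
  refine (h0.and (h1.and (h2.and (h3.and (h4.and (h5.and (h6.and (h7.and (h8.and h9))))))))).mono
    fun c ⟨h0, h1, h2, h3, h4, h5, h6, h7, h8, h9⟩ => ?_
  obtain hl : 0 < c.lam := lt_of_lt_of_le (by have := h3.1; positivity) h7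
  obtain hC : 0 < 1 + 6 * c.C0 * c.C1 := by positivity
  obtain hC6 : 0 ≤ c.C6 := by unfold Cs.C6; positivity
  refine ⟨h2.1, h2.2, h3.1, h3.2, ?_, hC6, ?_, ?_, ?_, ?_, ?_, by (rename_i zq0; linarith only [zq0])⟩
  · unfold Cs.Γ Cs.ε' Cs.C4
    obtain e4 : c.e3 ^ 4 ≤ 1 := pow_le_one₀ h2.1.le (by (rename_i zq0; linarith only [zq0, h2.2]))
    rw [le_div_iff₀ (pow_pos h2.1 4)]
    (rename_i zq0; nlinarith only [zq0, hC6, e4])
  · unfold Cs.Q Cs.bl
    obtain this : 1 ≤ c.a * c.β := by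
      have := h6; rw [div_le_iff₀ h4.1] at this; linarith only [this]
    (rename_i zq0; nlinarith only [zq0, hl, this])
  · unfold Cs.del; have := h5.1; positivity
  · unfold Cs.del
    have := h5.2
    rw [le_div_iff₀ (by positivity)] at this
    linarith only [this]
  · unfold Cs.cc
    rw [div_le_iff₀ h3.1] at h7
    linarith only [h7]
  · unfold Cs.cc
    rw [div_le_iff₀ (mul_pos h2.1 h3.1)] at h8
    linarith only [h8]

variable {c : Cs} {Ex : ExT} {S : Sq} {ξ : ℤ → ℝ} {s : ℤ}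

theorem Par.cc_le (h : Par c) : 20 * c.cc ≤ c.e3 * c.lam ∧ 100 * (c.e3 * c.lam) ≤ c.lam := by
  have h1 := h.cc1
  have h2 := h.εp
  obtain hl : 0 < c.lam := by
    unfold Cs.cc at h1
    by_contra hn
    have : c.ε * c.lam ≤ 0 := mul_nonpos_of_nonneg_of_nonpos h2.le (not_lt.1 hn)
    linarith only [h1, this]
  refine ⟨?_, ?_⟩
  · unfold Cs.cc; nlinarith only [hl, h.εs]
  · nlinarith only [hl, h.e3s]

theorem sg_nonneg (m : ℤ) : 0 ≤ S.sg c ξ s m := le_max_right _ _

theorem ev_cases (h : Par c) (m : ℤ) (r : ℝ) :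
    (S.ev c ξ s m r = 0 ∧ r < S.sg c ξ s m / c.e3 + c.cc ∧
      ¬ (-1 ≤ r ∧ dP (S.X m) < 5 / 100 ∧ S.sig c ξ s m ≤ -(1 - 5 * c.e3) * c.lam)) ∨
    c.cc ≤ S.ev c ξ s m r := by
  have h1 := h.cc_le
  have h2 := h.cc1
  unfold Sq.ev
  split_ifs with a b
  · right
    have : 0 ≤ S.sg c ξ s m / c.e3 := div_nonneg (sg_nonneg m) h.e3p.le
    linarith only [a, this]
  · right; linarith only [h2, h1.1, h1.2]
  · left; exact ⟨rfl, not_le.1 a, b⟩

theorem ev_nonneg (h : Par c) (m : ℤ) (r : ℝ) : 0 ≤ S.ev c ξ s m r := by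
  rcases ev_cases (S := S) (ξ := ξ) (s := s) h m r with a | a
  · exact a.1.ge
  · linarith only [a, h.cc1]

theorem evs_cons (x : ℤ × ℝ) (Ls : List (ℤ × ℝ)) :
    S.evs c ξ s (x :: Ls) = S.ev c ξ s x.1 x.2 + S.evs c ξ s Ls := by simp [Sq.evs]

theorem evs_nonneg (h : Par c) (Ls : List (ℤ × ℝ)) : 0 ≤ S.evs c ξ s Ls := by
  induction Ls with
  | nil => simp [Sq.evs]
  | cons x Ls ih => rw [evs_cons]; linarith only [ih, ev_nonneg (S := S) (ξ := ξ) (s := s) h x.1 x.2]

open Classical in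
theorem sumR_cons (x : ℤ × ℝ) (Ls : List (ℤ × ℝ)) :
    Sq.sumR c (x :: Ls) = (if c.cc ≤ x.2 then x.2 else 0) + Sq.sumR c Ls := by simp [Sq.sumR]

theorem sumR_nonneg (h : Par c) (Ls : List (ℤ × ℝ)) : 0 ≤ Sq.sumR c Ls := by
  induction Ls with
  | nil => simp [Sq.sumR]
  | cons x Ls ih => rw [sumR_cons]; split_ifs <;> (rename_i zq0; linarith only [ih, zq0, h.cc1])

/-- a step of depth `< lam / 2` has length one -/
theorem step_one {n p : ℤ} {r : ℝ} (st : S.Step c Ex ξ s n r p) (hr : r < c.lam / 2) :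
    p = n + 1 := by
  rcases st.kind with a | a
  · exact a.1
  · linarith only [hr, a.1]

theorem gain_one (h : Par c) {n : ℤ} {r : ℝ} (st : S.Step c Ex ξ s n r (n + 1)) (h0 : ξ n ≠ 0)
    (h1 : ξ (n + 1) ≠ 0) : Real.log |ξ (n + 1)| = Real.log |ξ n| + c.lam - r := by
  obtain hL : c.L ≠ 0 := by
    intro e
    have a := h.cc_le
    have b := h.cc1
    obtain this : c.lam = 0 := by unfold Cs.lam; rw [e, Real.log_zero]
    rw [this] at a
    linarith only [b, a.1]
  rw [st.hr]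
  unfold Sq.dep
  rw [S.rho_one, abs_div, Real.log_div hL (div_ne_zero (abs_ne_zero.2 h1) (abs_ne_zero.2 h0)),
    Real.log_div (abs_ne_zero.2 h1) (abs_ne_zero.2 h0)]
  unfold Cs.lam
  ring

theorem sig_one (h : Par c) {n : ℤ} {r : ℝ} (st : S.Step c Ex ξ s n r (n + 1)) (h0 : ξ n ≠ 0)
    (h1 : ξ (n + 1) ≠ 0) :
    S.sig c ξ s (n + 1) ≤ max (S.sig c ξ s n) (r + 5) + 1 + r - c.lam := by
  set M := max (S.sig c ξ s n) (r + 5) with hM
  have hw : 0 < |ξ n| := abs_pos.2 h0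
  have hA : 0 < S.AA c ξ s n := lt_of_lt_of_le one_pos (S.one_le_AA c ξ s n)
  have hA' : 0 < S.AA c ξ s (n + 1) := lt_of_lt_of_le one_pos (S.one_le_AA c ξ s (n + 1))
  obtain a1 : S.AA c ξ s n ≤ Real.exp (Real.log |ξ n| + M) := by
    rw [← Real.log_le_iff_le_exp hA]
    have : S.sig c ξ s n ≤ M := le_max_left _ _
    unfold Sq.sig Sq.WW at this
    linarith only [this]
  obtain e5 : (100 : ℝ) ≤ Real.exp 5 := by
    have := Real.exp_one_gt_d9
    obtain e : Real.exp 5 = Real.exp 1 ^ 5 := by rw [← Real.exp_nat_mul]; norm_num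
    rw [e]
    calc (100 : ℝ) ≤ 2.7 ^ 5 := by norm_num
      _ ≤ _ := pow_le_pow_left₀ (by norm_num) (by linarith only [this]) 5
  obtain a2 : 100 * |ξ n| * Real.exp r ≤ Real.exp (Real.log |ξ n| + M) := by
    rw [Real.exp_add, Real.exp_log hw]
    obtain this : Real.exp 5 * Real.exp r ≤ Real.exp M := by
      rw [← Real.exp_add]; exact Real.exp_le_exp.2 (by linarith only [le_max_right (S.sig c ξ s n) (r + 5)])
    obtain this : 100 * Real.exp r ≤ Real.exp M := by nlinarith only [this, e5, Real.exp_pos r]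
    nlinarith only [hw, this]
  obtain a3 : S.AA c ξ s (n + 1) ≤ Real.exp (Real.log |ξ n| + M + 1) := by
    rw [Real.exp_add _ 1]
    have := Real.exp_one_gt_d9
    nlinarith only [hA, a1, a2, this, st.A_hi, Real.exp_pos (Real.log |ξ n| + M)]
  rw [← Real.log_le_iff_le_exp hA'] at a3
  have g := gain_one h st h0 h1
  unfold Sq.sig Sq.WW
  linarith only [a3, g]

theorem chain_mem {m0 m : ℤ} {Ls : List (ℤ × ℝ)} (ch : S.Chain c Ex ξ s m0 Ls m) :
    ∀ x ∈ Ls, m0 ≤ x.1 := by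
  induction ch with
  | nil _ => simp
  | cons ch' _ _ ih =>
    intro x hx
    rcases List.mem_cons.1 hx with rfl | hx
    · exact ch'.rinv.2
    · exact ih x hx

/-- the potential of the numeric lemma -/
def Ph (c : Cs) (S : Sq) (ξ : ℤ → ℝ) (s n : ℤ) : ℝ := S.sg c ξ s n + c.Γ * S.qu (c.Q / 2) s n

open Classical in
/-- distance (in uneventful steps) from a good time -/
def tau (c : Cs) (S : Sq) (ξ : ℤ → ℝ) (s n : ℤ) : ℝ :=
  if S.sig c ξ s n ≤ -(1 - 5 * c.e3) * c.lam then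
    (if 5 / 100 ≤ dP (S.X (n - 1)) then (if S.qu (c.Q / 2) s n = 0 then 0 else 1) else 2) else 3

theorem tau_mem (n : ℤ) : 0 ≤ tau c S ξ s n ∧ tau c S ξ s n ≤ 3 := by
  unfold tau; split_ifs <;> norm_num

theorem Ph_nonneg (h : Par c) (n : ℤ) : 0 ≤ Ph c S ξ s n := by
  have := sg_nonneg (c := c) (S := S) (ξ := ξ) (s := s) n
  have := S.qu_nonneg (c.Q / 2) s n
  have := h.Γ1
  unfold Ph; positivity

theorem qu_one (h : Par c) {n : ℤ} (hn : s ≤ n) :
    S.qu (c.Q / 2) s (n + 1) ≤ S.qu (c.Q / 2) s n + 1 := by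
  rw [S.qu_succ _ hn]
  have a := S.kk_mem (n + 1)
  have b := S.qu_nonneg (c.Q / 2) s n
  obtain q : 0 ≤ c.Q := by linarith only [h.Qb, h.cc_le.1, h.cc_le.2, h.cc1]
  refine max_le ?_ (by linarith only [b])
  nlinarith only [q, a.1, a.2]

theorem qu_far {n : ℤ} (hn : s ≤ n) (hf : 5 / 100 ≤ dP (S.X n)) :
    S.qu (c.Q / 2) s (n + 1) = max (S.qu (c.Q / 2) s n - c.Q / 2) 0 := by
  rw [S.qu_succ _ hn, (S.kk_eq_zero (j := n + 1)).2 (Or.inr (by rw [add_sub_cancel_right]; linarith only [hf]))]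
  congr 1; ring

/-- uneventful small step from a time with small `sg` -/
theorem stepA (h : Par c) {n : ℤ} {r : ℝ} (hn : s ≤ n) (st : S.Step c Ex ξ s n r (n + 1))
    (h0 : ξ n ≠ 0) (h1 : ξ (n + 1) ≠ 0) (hr : r < 10 * c.cc) (hs : S.sg c ξ s n < c.e3 * c.lam) :
    S.sig c ξ s (n + 1) ≤ -(1 - 5 * c.e3) * c.lam ∧ S.sg c ξ s (n + 1) = 0 ∧
    Ph c S ξ s (n + 1) + c.e3 * c.lam / 2 * tau c S ξ s (n + 1) + 9 / 10 * (c.e3 * c.lam / 2)
      ≤ Ph c S ξ s n + c.e3 * c.lam / 2 * 3 := by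
  have a := sig_one h st h0 h1
  obtain ⟨b1, b2⟩ := h.cc_le
  have b3 := h.cc1
  have s1 : S.sig c ξ s n ≤ S.sg c ξ s n := le_max_left _ _
  obtain m1 : max (S.sig c ξ s n) (r + 5) ≤ c.e3 * c.lam := max_le (by linarith only [hs, s1]) (by linarith only [hr, b1, b3])
  obtain calm : S.sig c ξ s (n + 1) ≤ -(1 - 5 * c.e3) * c.lam := by linarith only [hr, a, b1, b3, m1]
  obtain z : S.sg c ξ s (n + 1) = 0 := max_eq_right (by linarith only [hr, a, b1, b2, b3, m1])
  refine ⟨calm, z, ?_⟩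
  obtain t : tau c S ξ s (n + 1) ≤ 2 := by
    unfold tau; rw [if_pos calm]; split_ifs <;> norm_num
  have q := qu_one (S := S) h hn
  obtain g : c.Γ ≤ c.cc := by nlinarith only [b1, b2, b3, h.Γl, h.e3s, h.Γ1]
  have := sg_nonneg (c := c) (S := S) (ξ := ξ) (s := s) n
  have g1 := h.Γ1
  obtain t' : c.e3 * c.lam / 2 * tau c S ξ s (n + 1) ≤ c.e3 * c.lam / 2 * 2 :=
    mul_le_mul_of_nonneg_left t (by linarith only [b1, b3])
  obtain q' : c.Γ * S.qu (c.Q / 2) s (n + 1) ≤ c.Γ * (S.qu (c.Q / 2) s n + 1) :=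
    mul_le_mul_of_nonneg_left q (by linarith only [g1])
  unfold Ph
  rw [z]
  linarith only [b1, g, this, t', q']

/-- uneventful small step from a time that is not good -/
theorem stepB (h : Par c) {n : ℤ} {r : ℝ} (hn : s < n) (st : S.Step c Ex ξ s n r (n + 1))
    (h0 : ξ n ≠ 0) (h1 : ξ (n + 1) ≠ 0) (hr : r < 10 * c.cc)
    (hK : ¬ (-1 ≤ r ∧ dP (S.X n) < 5 / 100 ∧ S.sig c ξ s n ≤ -(1 - 5 * c.e3) * c.lam))
    (hg : ¬ S.GoodAt c ξ s n) :
    Ph c S ξ s (n + 1) + c.e3 * c.lam / 2 * tau c S ξ s (n + 1) + 9 / 10 * (c.e3 * c.lam / 2)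
      ≤ Ph c S ξ s n + c.e3 * c.lam / 2 * tau c S ξ s n := by
  obtain ⟨b1, b2⟩ := h.cc_le
  have b3 := h.cc1
  have g1 := h.Γ1
  obtain g : c.Γ ≤ c.cc := by nlinarith only [b1, b2, b3, g1, h.Γl, h.e3s, h.Γ1]
  by_cases calm : S.sig c ξ s n ≤ -(1 - 5 * c.e3) * c.lam
  · obtain far : 5 / 100 ≤ dP (S.X n) := by
      by_contra hf
      exact hK ⟨st.r_lo, not_le.1 hf, calm⟩
    obtain z0 : S.sg c ξ s n = 0 := max_eq_right (by linarith only [b1, b2, b3, calm])
    obtain ⟨calm', z, -⟩ := stepA h hn.le st h0 h1 hr (by rw [z0]; linarith only [b1, b3])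
    have q := qu_far (c := c) (S := S) hn.le far
    have q0 := S.qu_nonneg (c.Q / 2) s n
    have hQ := h.Qb
    obtain far' : 5 / 100 ≤ dP (S.X (n + 1 - 1)) := by rw [add_sub_cancel_right]; exact far
    obtain t1 : 1 ≤ tau c S ξ s n := by
      unfold tau
      rw [if_pos calm]
      split_ifs with a b
      · exact absurd ⟨hn, by linarith only [b1, b2, b3, calm], b, far, a⟩ hg
      · norm_num
      · norm_num
    obtain t1' : c.e3 * c.lam / 2 * 1 ≤ c.e3 * c.lam / 2 * tau c S ξ s n :=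
      mul_le_mul_of_nonneg_left t1 (by linarith only [b1, b3])
    unfold Ph
    rw [z, z0]
    by_cases qz : S.qu (c.Q / 2) s (n + 1) = 0
    · obtain this : tau c S ξ s (n + 1) = 0 := by
        unfold tau; rw [if_pos calm', if_pos far', if_pos qz]
      rw [this, qz]
      nlinarith only [b1, b3, q0, t1', g1]
    · obtain this : tau c S ξ s (n + 1) = 1 := by
        unfold tau; rw [if_pos calm', if_pos far', if_neg qz]
      rw [this]
      obtain e : S.qu (c.Q / 2) s (n + 1) = S.qu (c.Q / 2) s n - c.Q / 2 := by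
        rcases max_cases (S.qu (c.Q / 2) s n - c.Q / 2) 0 with a | a
        · rw [q, a.1]
        · exact absurd (q.trans a.1) qz
      rw [e]
      nlinarith only [b1, b2, b3, g1, hQ, t1']
  · obtain t3 : tau c S ξ s n = 3 := by unfold tau; rw [if_neg calm]
    rw [t3]
    by_cases hs : S.sg c ξ s n < c.e3 * c.lam
    · exact (stepA h hn.le st h0 h1 hr hs).2.2
    · have hs' := not_lt.1 hs
      have a := sig_one h st h0 h1
      have s1 : S.sig c ξ s n ≤ S.sg c ξ s n := le_max_left _ _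
      obtain m1 : max (S.sig c ξ s n) (r + 5) ≤ S.sg c ξ s n := max_le s1 (by linarith only [hr, b1, b3, hs])
      obtain z : S.sg c ξ s (n + 1) ≤ S.sg c ξ s n - c.e3 * c.lam :=
        max_le (by linarith only [hr, b1, b2, b3, a, m1]) (by linarith only [hs])
      have q := qu_one (S := S) h hn.le
      obtain t' : c.e3 * c.lam / 2 * tau c S ξ s (n + 1) ≤ c.e3 * c.lam / 2 * 3 :=
        mul_le_mul_of_nonneg_left (tau_mem _).2 (by linarith only [b1, b3])
      obtain q' : c.Γ * S.qu (c.Q / 2) s (n + 1) ≤ c.Γ * (S.qu (c.Q / 2) s n + 1) :=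
        mul_le_mul_of_nonneg_left q (by linarith only [g1])
      unfold Ph
      linarith only [b1, b3, g, z, t', q']

/-- the numeric lemma with rate `Q / 2` and the queue started at `s` -/
theorem num (h : Par c) (hN : NUM_s c) (ok : S.OK c) (hst : S.St c ξ s)
    (hl : ∀ n V, s ≤ n → S.load c n V ≤ S.qu (c.Q / 2) s n) {m0 m : ℤ} {Ls : List (ℤ × ℝ)}
    (hs : s ≤ m0) (ch : S.Chain c Ex ξ s m0 Ls m) :
    Ph c S ξ s m ≤ Ph c S ξ s m0 + c.Γ + 10 * c.ε' * S.evs c ξ s Ls ∧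
    Sq.sumR c Ls ≤ 2 * S.evs c ξ s Ls + 20 / c.e3 * (Ph c S ξ s m0 + c.Γ) + c.cc * Ls.length ∧
    c.lam / 4 * Ls.length ≤ Real.log |ξ m| - Real.log |ξ m0| + 10 * c.C6 * (Ph c S ξ s m0 + c.Γ) := by
  obtain q : 0 ≤ c.Q := by linarith only [h.Qb, h.cc_le.1, h.cc_le.2, h.cc1]
  obtain this := hN Ex S ξ s m0 Ls m (c.Q / 2) s _ ok hst.1 hs hs le_rfl (by linarith only [q]) ch
    (fun x hx => hl _ _ (hs.trans (chain_mem ch x hx))) rfl
  exact ⟨this.1, this.2.1, this.2.2.2.1⟩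

theorem Ph_start (h : Par c) (hst : S.St c ξ s) {m0 : ℤ} (hm : m0 = s ∨ S.GoodAt c ξ s m0) :
    S.sg c ξ s m0 = 0 ∧ Ph c S ξ s m0 = 0 := by
  obtain hl : 0 ≤ c.lam := by linarith only [h.cc_le.1, h.cc_le.2, h.cc1]
  obtain this : S.sg c ξ s m0 = 0 ∧ S.qu (c.Q / 2) s m0 = 0 := by
    rcases hm with rfl | g
    · refine ⟨?_, S.qu_self _ _⟩
      unfold Sq.sg Sq.sig Sq.WW
      rw [S.AA_self, hst.2.2.1]
      simp
    · exact ⟨max_eq_right (by linarith only [hl, g.2.1]), g.2.2.1⟩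
  exact ⟨this.1, by unfold Ph; rw [this.1, this.2]; ring⟩

open Classical in
/-- the counting potential along an excursion -/
theorem pot (h : Par c) (hN : NUM_s c) (ok : S.OK c) (hst : S.St c ξ s)
    (hl : ∀ n V, s ≤ n → S.load c n V ≤ S.qu (c.Q / 2) s n) {m0 m : ℤ} {Ls : List (ℤ × ℝ)}
    (hs : s ≤ m0) (hm : m0 = s ∨ S.GoodAt c ξ s m0) (ch : S.Chain c Ex ξ s m0 Ls m)
    (hng : ∀ x ∈ Ls, x.1 = m0 ∨ ¬ S.GoodAt c ξ s x.1) :
    Ph c S ξ s m + c.e3 * c.lam / 2 * (if m = m0 then 3 else tau c S ξ s m)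
      + 9 / 10 * (c.e3 * c.lam / 2) * Ls.length ≤ c.e3 * c.lam / 2 * 3
      + 4 * (c.e3 * c.lam / 2) * (S.evs c ξ s Ls / c.cc + Sq.sumR c Ls / (10 * c.cc))
      + 10 * c.ε' * S.evs c ξ s Ls := by
  obtain ⟨b1, b2⟩ := h.cc_le
  have b3 := h.cc1
  obtain g : c.Γ ≤ c.cc := by nlinarith only [b1, b2, b3, h.Γl, h.e3s, h.Γ1]
  obtain ⟨z0, z1⟩ := Ph_start h hst hm
  induction ch with
  | nil _ => simp [z1, Sq.evs, Sq.sumR]
  | @cons Ls n r p ch' st ri ih =>
    have ih := ih fun x hx => hng x (List.mem_cons_of_mem _ hx)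
    have hn := hng (n, r) List.mem_cons_self
    obtain ⟨rn, le⟩ := ch'.rinv
    have lt := st.lt
    rw [if_neg (by omega), evs_cons, sumR_cons, List.length_cons]
    push_cast
    set u := c.e3 * c.lam / 2 with hu
    set t := (if n = m0 then 3 else tau c S ξ s n) with ht
    obtain t0 : 0 ≤ t := by rw [ht]; split_ifs; norm_num; exact (tau_mem _).1
    obtain u0 : 0 < u := by linarith only [b1, b3, hu]
    have e0 := ev_nonneg (S := S) (ξ := ξ) (s := s) h n r
    obtain ε0 : 0 ≤ c.ε' := by unfold Cs.ε'; (clear * -; positivity)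
    set R := (if c.cc ≤ r then r else 0) with hR
    obtain R0 : 0 ≤ R := by rw [hR]; split_ifs <;> (rename_i zq0; linarith only [b3, zq0])
    suffices key : Ph c S ξ s p + u * tau c S ξ s p + 9 / 10 * u ≤ Ph c S ξ s n + u * t
        + 4 * u * (S.ev c ξ s n r / c.cc + R / (10 * c.cc)) + 10 * c.ε' * S.ev c ξ s n r by
      obtain e : (S.ev c ξ s n r + S.evs c ξ s Ls) / c.cc + (R + Sq.sumR c Ls) / (10 * c.cc)
          = (S.ev c ξ s n r / c.cc + R / (10 * c.cc))
            + (S.evs c ξ s Ls / c.cc + Sq.sumR c Ls / (10 * c.cc)) := by ring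
      rw [e]
      linarith only [ih, key]
    obtain k0 : 0 ≤ S.ev c ξ s n r / c.cc := by (clear * - e0 b3; positivity)
    obtain k1 : 0 ≤ R / (10 * c.cc) := by (clear * - R0 b3; positivity)
    by_cases big : 1 ≤ S.ev c ξ s n r / c.cc + R / (10 * c.cc)
    · have a := (num h hN ok hst hl (hs.trans le) (Sq.Chain.cons (Sq.Chain.nil rn) st ri)).1
      rw [evs_cons] at a
      simp only [Sq.evs, List.map_nil, List.sum_nil, add_zero] at a
      have t' : u * tau c S ξ s p ≤ u * 3 := mul_le_mul_of_nonneg_left (tau_mem _).2 u0.le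
      obtain this : 0 ≤ u * t := by (clear * - u0 t0; positivity)
      nlinarith only [g, hu, big, a, t', this, b1, k0, k1, b3]
    · have big := not_le.1 big
      obtain ne : S.ev c ξ s n r < c.cc := by
        obtain this : S.ev c ξ s n r / c.cc < 1 := by (rename_i zq0; linarith only [k1, zq0])
        rwa [div_lt_one (by linarith only [b3])] at this
      obtain hr : r < 10 * c.cc := by
        obtain this : R / (10 * c.cc) < 1 := by (rename_i zq0; linarith only [k0, zq0])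
        rw [div_lt_one (by linarith only [b3]), hR] at this
        split_ifs at this with a
        · exact this
        · linarith only [b3, not_le.1 a]
      obtain rfl := step_one st (by linarith only [b1, b2, b3, hr])
      obtain pos : 0 ≤ 4 * u * (S.ev c ξ s n r / c.cc + R / (10 * c.cc))
          + 10 * c.ε' * S.ev c ξ s n r := by (clear * - u0 e0 b3 R0 ε0; positivity)
      by_cases e : n = m0
      · obtain this := (stepA h (hs.trans le) st rn.ne ri.ne hr (by rw [e, z0]; linarith only [b1, b3])).2.2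
        rw [← hu] at this
        rw [ht, if_pos e]
        linarith only [pos, this]
      · rcases ev_cases (S := S) (ξ := ξ) (s := s) h n r with a | a
        · obtain this := stepB h (by omega) st rn.ne ri.ne hr a.2.2 (hn.resolve_left e)
          rw [← hu] at this
          rw [ht, if_neg e]
          linarith only [pos, this]
        · linarith only [ne, a]

theorem len_le (h : Par c) (hN : NUM_s c) (ok : S.OK c) (hst : S.St c ξ s)
    (hl : ∀ n V, s ≤ n → S.load c n V ≤ S.qu (c.Q / 2) s n) {m0 m : ℤ} {Ls : List (ℤ × ℝ)}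
    (hs : s ≤ m0) (hm : m0 = s ∨ S.GoodAt c ξ s m0) (ch : S.Chain c Ex ξ s m0 Ls m)
    (hng : ∀ x ∈ Ls, x.1 = m0 ∨ ¬ S.GoodAt c ξ s x.1) :
    (Ls.length : ℝ) ≤ 12 * (S.evs c ξ s Ls / c.cc) + 7 ∧
    Sq.sumR c Ls ≤ 14 * S.evs c ξ s Ls + 8 * c.cc := by
  obtain ⟨b1, b2⟩ := h.cc_le
  have b3 := h.cc1
  have a := pot h hN ok hst hl hs hm ch hng
  have b := (num h hN ok hst hl hs ch).2.1
  rw [(Ph_start h hst hm).2, zero_add] at b
  obtain g : 20 / c.e3 * c.Γ ≤ c.cc / 10 := by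
    rw [div_mul_eq_mul_div, div_le_iff₀ h.e3p]; linarith only [h.Γl]
  have e0 := evs_nonneg (S := S) (ξ := ξ) (s := s) h Ls
  set e := S.evs c ξ s Ls
  set u := c.e3 * c.lam / 2 with hu
  obtain u0 : 0 < u := by linarith only [b1, b3, hu]
  set y := e / c.cc with hy
  obtain y0 : 0 ≤ y := by (clear * - e0 b3; positivity)
  obtain ey : e = y * c.cc := by rw [hy]; field_simp
  obtain r1 : Sq.sumR c Ls / (10 * c.cc) ≤ y / 5 + 1 / 100 + Ls.length / 10 := by
    rw [div_le_iff₀ (by linarith only [b3])]; linarith only [g, b, ey]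
  obtain ε1 : 10 * c.ε' * e ≤ u * y := by
    obtain this : c.ε' ≤ 1 := by unfold Cs.ε'; exact pow_le_one₀ h.e3p.le (by linarith only [h.e3s])
    obtain h2 : 10 * c.ε' * e ≤ 10 * e := by nlinarith only [e0, this]
    nlinarith only [ey, h2, b1, y0, hu]
  have p0 := Ph_nonneg (S := S) (ξ := ξ) (s := s) h m
  obtain t0 : 0 ≤ u * (if m = m0 then 3 else tau c S ξ s m) := by
    refine mul_nonneg u0.le ?_
    split_ifs; norm_num; exact (tau_mem _).1
  obtain r2 : 4 * u * (y + Sq.sumR c Ls / (10 * c.cc))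
      ≤ 4 * u * (y + (y / 5 + 1 / 100 + Ls.length / 10)) :=
    mul_le_mul_of_nonneg_left (by linarith only [r1]) (by linarith only [b1, b3, hu])
  obtain k : u * (Ls.length / 2) ≤ u * (6 * y + 31 / 10) := by nlinarith only [b1, b3, e0, hu, a, ey, ε1, p0, t0, r2, y0]
  have k' := le_of_mul_le_mul_left k u0
  obtain l : (Ls.length : ℝ) ≤ 12 * y + 7 := by linarith only [k']
  refine ⟨l, ?_⟩
  obtain this : c.cc * Ls.length ≤ c.cc * (12 * y + 7) := mul_le_mul_of_nonneg_left l (by linarith only [b3])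
  linarith only [b3, g, b, ey, this]

theorem symOK (h : Par c) {m0 m : ℤ} {Ls : List (ℤ × ℝ)} (ch : S.Chain c Ex ξ s m0 Ls m) :
    ∀ x ∈ S.pat c ξ s Ls m, SymOK c x := by
  obtain ⟨b1, b2⟩ := h.cc_le
  have b3 := h.cc1
  induction ch with
  | nil _ => simp [Sq.pat]
  | @cons Ls n r p ch' st ri ih =>
    intro x hx
    simp only [Sq.pat, List.mem_cons] at hx
    rcases hx with rfl | hx
    · unfold SymOK Sq.sym
      by_cases a : c.cc ≤ r
      · right
        simp only [if_pos a]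
        have c1 : r ≤ (⌈r⌉₊ : ℝ) := Nat.le_ceil r
        refine ⟨by linarith only [a, c1], ?_⟩
        obtain e : (((p - n).toNat : ℕ) : ℝ) = ((p - n : ℤ) : ℝ) := by
          have := st.lt
          obtain e : (((p - n).toNat : ℕ) : ℤ) = p - n := Int.toNat_of_nonneg (by omega)
          exact_mod_cast e
        rw [e]
        have := Real.exp_le_exp.2 (mul_le_mul_of_nonneg_left c1 h.del0)
        linarith only [this, st.time]
      · left
        obtain rfl := step_one st (by linarith only [b1, b2, b3, not_le.1 a])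
        simp [if_neg a]
    · exact ih x hx

theorem pat_sum (h : Par c) (Ls : List (ℤ × ℝ)) (m : ℤ) :
    ((S.pat c ξ s Ls m).map fun x => (x.1 : ℝ)).sum ≤ 2 * Sq.sumR c Ls := by
  induction Ls generalizing m with
  | nil => simp [Sq.pat, Sq.sumR]
  | cons x Ls ih =>
    rw [sumR_cons]
    simp only [Sq.pat, List.map_cons, List.sum_cons, Sq.sym]
    have := ih x.1
    split_ifs with a
    · obtain b := (Nat.ceil_lt_add_one (a := x.2) (by linarith only [a, h.cc1])).le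
      linarith only [this, a, b, h.cc1]
    · simpa using this

theorem le_sumR (h : Par c) {Ls : List (ℤ × ℝ)} {x : ℤ × ℝ} (hx : x ∈ Ls) (a : c.cc ≤ x.2) :
    x.2 ≤ Sq.sumR c Ls := by
  induction Ls with
  | nil => simp at hx
  | cons y Ls ih =>
    rw [sumR_cons]
    rcases List.mem_cons.1 hx with rfl | hx
    · rw [if_pos a]; linarith only [sumR_nonneg h Ls]
    · have := ih hx
      split_ifs <;> (rename_i zq0; linarith only [this, zq0, h.cc1])

/-- duration of a chain whose deep steps cost at most `B` -/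
theorem dur {m0 m : ℤ} {Ls : List (ℤ × ℝ)} {B : ℝ} (hB : 0 ≤ B) (ch : S.Chain c Ex ξ s m0 Ls m)
    (hb : ∀ x ∈ Ls, c.lam / 2 ≤ x.2 → Real.exp (c.del * x.2) ≤ B) :
    ((m - m0 : ℤ) : ℝ) ≤ Ls.length * (1 + B) := by
  induction ch with
  | nil _ => simp
  | @cons Ls n r p ch' st ri ih =>
    have ih := ih fun x hx => hb x (List.mem_cons_of_mem _ hx)
    obtain k : ((p - n : ℤ) : ℝ) ≤ 1 + B := by
      by_cases a : c.lam / 2 ≤ r
      · linarith only [st.time, hb (n, r) List.mem_cons_self a]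
      · obtain rfl := step_one st (not_le.1 a)
        simp [hB]
    rw [List.length_cons]
    push_cast at *
    linarith only [ih, k]

/-- an excursion from a good time without events has at most one step -/
theorem short (h : Par c) {m0 m : ℤ} {Ls : List (ℤ × ℝ)} (g : S.GoodAt c ξ s m0)
    (ch : S.Chain c Ex ξ s m0 Ls m) (hng : ∀ x ∈ Ls, x.1 = m0 ∨ ¬ S.GoodAt c ξ s x.1)
    (he : S.evs c ξ s Ls < c.cc) :
    m = m0 ∨ (m = m0 + 1 ∧ S.sig c ξ s m ≤ -(1 - 5 * c.e3) * c.lam ∧ S.qu (c.Q / 2) s m = 0) := by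
  obtain ⟨b1, b2⟩ := h.cc_le
  have b3 := h.cc1
  induction ch with
  | nil _ => exact Or.inl rfl
  | @cons Ls n r p ch' st ri ih =>
    rw [evs_cons] at he
    have e0 := ev_nonneg (S := S) (ξ := ξ) (s := s) h n r
    have e1 := evs_nonneg (S := S) (ξ := ξ) (s := s) h Ls
    obtain ih := ih (fun x hx => hng x (List.mem_cons_of_mem _ hx)) (by linarith only [he, e0])
    have hn := hng (n, r) List.mem_cons_self
    obtain ⟨rn, le⟩ := ch'.rinv
    rcases ev_cases (S := S) (ξ := ξ) (s := s) h n r with a | a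
    swap
    · exfalso; simp only at he; linarith only [he, e1, a]
    rcases ih with rfl | ⟨rfl, calm, q⟩
    · obtain z : S.sg c ξ s n = 0 := max_eq_right (by linarith only [b1, b2, b3, g.2.1])
      obtain hr : r < c.cc := by have := a.2.1; rwa [z, zero_div, zero_add] at this
      obtain rfl := step_one st (by linarith only [b1, b2, b3, hr])
      refine Or.inr ⟨rfl, (stepA h g.1.le st rn.ne ri.ne (by linarith only [b3, hr]) (by rw [z]; linarith only [b1, b3])).1, ?_⟩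
      rw [qu_far g.1.le g.2.2.2.1, g.2.2.1]
      exact max_eq_right (by linarith only [b1, b2, b3, h.Qb])
    · exfalso
      obtain far : 5 / 100 ≤ dP (S.X (m0 + 1)) := by
        by_contra hf
        exact a.2.2 ⟨st.r_lo, not_le.1 hf, calm⟩
      refine hn.elim (fun e => by simp at e) fun ng => ng ⟨by linarith only [g.1], by linarith only [b1, b2, b3, calm], q, far, ?_⟩
      rw [add_sub_cancel_right]; exact g.2.2.2.1

theorem WW_mono {i j : ℤ} (h : i ≤ j) : S.WW c ξ s i ≤ S.WW c ξ s j :=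
  Real.log_le_log (lt_of_lt_of_le one_pos (S.one_le_AA c ξ s i)) (S.AA_mono c ξ s h)

theorem depth_le (h : Par c) (hN : NUM_s c) (ok : S.OK c) (hst : S.St c ξ s)
    (hl : ∀ n V, s ≤ n → S.load c n V ≤ S.qu (c.Q / 2) s n) {m : ℤ} {Ls : List (ℤ × ℝ)}
    (ch : S.Chain c Ex ξ s s Ls m) :
    (∀ x ∈ Ls, x.2 ≤ S.WW c ξ s m + c.lam) ∧ Real.log |ξ m| ≤ S.WW c ξ s m + c.lam + 5 := by
  obtain l0 : 0 ≤ c.lam := by linarith only [h.cc_le.1, h.cc_le.2, h.cc1]
  induction ch with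
  | nil _ =>
    refine ⟨by simp, ?_⟩
    have : 0 ≤ S.WW c ξ s s := Real.log_nonneg (S.one_le_AA c ξ s s)
    rw [hst.2.2.1, abs_one, Real.log_one]; linarith only [l0, this]
  | @cons Ls n r p ch' st ri ih =>
    have a := (num h hN ok hst hl le_rfl ch').2.2
    rw [(Ph_start h hst (Or.inl rfl)).2, zero_add, hst.2.2.1, abs_one, Real.log_one] at a
    obtain this : 0 ≤ c.lam / 4 * (Ls.length : ℝ) := by (clear * - l0; positivity)
    have lo := st.A_lo
    have c6 := h.C6l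
    refine ⟨fun x hx => ?_, ?_⟩
    · rcases List.mem_cons.1 hx with rfl | hx
      · simp only; linarith only [l0, a, this, lo, c6]
      · linarith only [ih.1 x hx, WW_mono (c := c) (S := S) (ξ := ξ) (s := s) st.lt.le]
    · rcases st.kind with ⟨rfl, -⟩ | k
      · have := gain_one h st ch'.rinv.1.ne ri.ne
        linarith only [lo, this, st.r_lo]
      · linarith only [lo, k.2.2.1]

theorem grow (h : Par c) (hN : NUM_s c) (ok : S.OK c) (hst : S.St c ξ s)
    (hl : ∀ n V, s ≤ n → S.load c n V ≤ S.qu (c.Q / 2) s n) {m : ℤ} {Ls : List (ℤ × ℝ)}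
    (ch : S.Chain c Ex ξ s s Ls m) : ((m - s : ℤ) : ℝ) ≤ Real.exp (S.WW c ξ s m + c.lam) := by
  obtain ⟨b1, b2⟩ := h.cc_le
  have b3 := h.cc1
  obtain ⟨d1, d2⟩ := depth_le h hN ok hst hl ch
  have a := (num h hN ok hst hl le_rfl ch).2.2
  rw [(Ph_start h hst (Or.inl rfl)).2, zero_add, hst.2.2.1, abs_one, Real.log_one] at a
  have W0 : 0 ≤ S.WW c ξ s m := Real.log_nonneg (S.one_le_AA c ξ s m)
  set W := S.WW c ξ s m
  have d := dur (Real.exp_pos ((W + c.lam) / 2)).le ch fun x hx hx' => by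
    refine Real.exp_le_exp.2 ?_
    have := d1 x hx
    nlinarith only [b1, b2, b3, W0, this, hx', h.del0, h.del1]
  obtain n0 : (0 : ℝ) ≤ Ls.length := by positivity
  have c6 := h.C6l
  obtain l : (Ls.length : ℝ) ≤ (W + c.lam) / 4 := by
    obtain this : c.lam / 4 * Ls.length ≤ c.lam / 4 * ((W + c.lam) / 4) := by nlinarith only [b1, b2, b3, a, d2, W0, c6]
    exact le_of_mul_le_mul_left this (by linarith only [b1, b2, b3])
  have e1 := Real.add_one_le_exp ((W + c.lam) / 2)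
  obtain e2 : Real.exp (W + c.lam) = Real.exp ((W + c.lam) / 2) * Real.exp ((W + c.lam) / 2) := by
    rw [← Real.exp_add]; ring_nf
  rw [e2]
  nlinarith only [b1, b2, b3, a, d2, W0, d, c6, e1]

theorem t2_of (h : Par c) (hN : NUM_s c) : T2_s c := by
  obtain ⟨b1, b2⟩ := h.cc_le
  have b3 := h.cc1
  intro Ex S ξ s ok hst hl
  refine ⟨fun m0 Ls m hs hm ch hng => ?_, fun Ls m ch => grow h hN ok hst hl ch⟩
  obtain ⟨l1, l2⟩ := len_le h hN ok hst hl hs hm ch hng
  have e0 := evs_nonneg (S := S) (ξ := ξ) (s := s) h Ls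
  obtain y0 : 0 ≤ S.evs c ξ s Ls / c.cc := by (clear * - e0 b3; positivity)
  obtain n0 : (0 : ℝ) ≤ Ls.length := by (clear * -; positivity)
  refine ⟨symOK h ch, ?_, ?_, ?_, fun ne lo => ?_⟩
  · rw [mul_div_assoc]; linarith only [l1, y0]
  · linarith only [b3, l2, e0, pat_sum (S := S) (ξ := ξ) (s := s) h Ls m]
  · set e := S.evs c ξ s Ls
    by_cases he : e < c.cc
    · obtain d := dur le_rfl ch fun x hx hx' => by
        obtain this := le_sumR h hx (by linarith only [b1, b2, b3, hx'])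
        exfalso; linarith only [b1, b2, b3, l2, he, hx', this]
      obtain y1 : e / c.cc < 1 := by rwa [div_lt_one (by linarith only [b3])]
      have := Real.add_one_le_exp (e / 100)
      linarith only [l1, e0, d, y1, this]
    · have he := not_lt.1 he
      have d := dur (Real.exp_pos (e / 400)).le ch fun x hx hx' => by
        refine Real.exp_le_exp.2 ?_
        obtain this := le_sumR h hx (by linarith only [b1, b2, b3, hx'])
        nlinarith only [b1, b2, b3, l2, hx', this, h.del0, h.del1]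
      obtain y1 : 1 ≤ e / c.cc := by rwa [one_le_div (by linarith only [b3])]
      obtain y2 : e / c.cc ≤ e / 1000 := div_le_div_of_nonneg_left e0 (by norm_num) b3
      have e1 := Real.add_one_le_exp (e / 400)
      have e2 := Real.add_one_le_exp (3 * e / 400)
      obtain e3 : Real.exp (e / 100) = Real.exp (3 * e / 400) * Real.exp (e / 400) := by
        rw [← Real.exp_add]; ring_nf
      rw [e3]
      obtain l3 : (Ls.length : ℝ) ≤ 10 * Real.exp (3 * e / 400) := by (rename_i zq0; linarith only [b3, l1, zq0, y2, e2])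
      (rename_i zq0; nlinarith only [b3, l1, zq0, d, y2, e1, e2, e0, Real.exp_pos (3 * e / 400)])
  · by_contra he
    rcases short h (hm.resolve_left ne) ch hng (not_le.1 he) with a | a <;> omega

end
end T2

theorem t2 : Hier fun c => NUM_s c → T2_s c := T2.par.mono fun _ h => T2.t2_of h

end Pool.Agent.MP_9cbfe4_an

end

/-! ### Part T4 -/

section

/-! Row T4: the output of part T. -/

namespace Pool.Agent.MP_9cbfe4_an.T4

open MeasureTheory Set Metric Filter Topology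
open scoped ENNReal

variable {c : Cs} {Ex : ExT} {M : Mdl} {t : ℝ}

theorem one_le_AA (S : Sq) (ξ : ℤ → ℝ) (s j : ℤ) : 1 ≤ S.AA c ξ s j :=
  (Finset.le_fold_max _).2 (Or.inl le_rfl)

theorem cont_iter (hM : M.OK c) (ht : TI t) (hL : 50 ≤ c.L) (k : ℕ) :
    ContinuousOn (fun v : ℝ => (M.f t)^[k] (v, 10)) (Icc 0 100) ∧
      ∀ v ∈ Icc (0 : ℝ) 100, Box c ((M.f t)^[k] (v, 10)).1 ∧ Box c ((M.f t)^[k] (v, 10)).2 := by
  induction k with
  | zero =>
    refine ⟨by simp only [Function.iterate_zero, id]; fun_prop, fun v hv => ⟨?_, ?_⟩⟩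
    · change |v| ≤ _
      rw [abs_of_nonneg hv.1]; linarith only [hL, hv.2]
    · change |(10 : ℝ)| ≤ _
      rw [abs_of_nonneg (by norm_num)]; linarith only [hL]
  | succ k ih =>
    simp only [Function.iterate_succ_apply']
    refine ⟨fun v hv => ?_, fun v hv => ⟨hM.box t _ _ ht (ih.2 v hv).1 (ih.2 v hv).2, (ih.2 v hv).1⟩⟩
    have h1 := (hM.der t _ _ ht (ih.2 v hv).1 (ih.2 v hv).2).continuousAt
    exact (ContinuousAt.comp_continuousWithinAt (f := fun v : ℝ => (M.f t)^[k] (v, 10)) h1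
      (ih.1 v hv)).prodMk (ih.1 v hv).fst

theorem cont_X (hM : M.OK c) (ht : TI t) (hL : 50 ≤ c.L) (j : ℤ) :
    ContinuousOn (fun v : ℝ => (M.O t v).X j) (Icc 0 100) := by
  change ContinuousOn (fun v : ℝ => M.pos t 0 (v, 10) j) _
  unfold Mdl.pos
  split_ifs
  · exact (cont_iter hM ht hL _).1.fst
  · exact continuousOn_const

theorem cont_F (hM : M.OK c) (ht : TI t) (hL : 50 ≤ c.L) {s x0 φ} (hP : AdmP c Ex M t s x0 φ)
    {ψ : ℝ × ℝ → ℝ} (hψ : Continuous ψ) (k : ℤ) :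
    ContinuousOn (fun u => ψ (M.pt t (φ u) k)) (Icc 0 100) := by
  refine hψ.comp_continuousOn (ContinuousOn.prodMk ?_ ?_)
  · exact (cont_X hM ht hL k).comp hP.cont fun u hu => (hP.mem u hu).1
  · exact (cont_X hM ht hL (k - 1)).comp hP.cont fun u hu => (hP.mem u hu).1

/-- excursion from `m0` to `n` without intermediate good times -/
def Exc (c : Cs) (Ex : ExT) (S : Sq) (ξ : ℤ → ℝ) (s m0 n : ℤ) : Prop :=
  ∃ L0 Ls, S.Run c Ex ξ s (fun _ _ _ => True) L0 m0 ∧ S.Run c Ex ξ s (fun _ _ _ => True) (Ls ++ L0) n ∧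
    S.Chain c Ex ξ s m0 Ls n ∧ (m0 = s ∨ S.GoodAt c ξ s m0) ∧ ∀ y ∈ Ls, y.1 = m0 ∨ ¬ S.GoodAt c ξ s y.1

theorem exc_exists {S : Sq} {ξ : ℤ → ℝ} {s : ℤ} (hB : B1_s c) (hS : S.OK c) (hst : S.St c ξ s)
    (hstep : ∀ Ls n, S.Run c Ex ξ s (fun _ _ _ => True) Ls n →
      ∃ r p, S.Run c Ex ξ s (fun _ _ _ => True) ((n, r) :: Ls) p) {i : ℤ} (hi : s < i) (k : ℕ) :
    ∃ m0 n, s ≤ m0 ∧ m0 < i ∧ Exc c Ex S ξ s m0 n ∧ ((i ≤ n ∧ S.GoodAt c ξ s n) ∨ s + k ≤ n) := by
  have hb := (hB Ex S hS).1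
  induction k with
  | zero =>
    have h0 := Sq.Run.start (c := c) (Ex := Ex) (S := S) ξ s (fun _ _ _ => True)
    exact ⟨s, s, le_rfl, hi, ⟨[], [], h0, h0, (hb _ _ _ _ _ hst h0).1, Or.inl rfl, by simp⟩,
      Or.inr (by simp)⟩
  | succ k ih =>
    obtain ⟨m0, n, h1, h2, ⟨L0, Ls, r0, r1, ch, hg, hn⟩, h3⟩ := ih
    by_cases hd : i ≤ n ∧ S.GoodAt c ξ s n
    · exact ⟨m0, n, h1, h2, ⟨L0, Ls, r0, r1, ch, hg, hn⟩, Or.inl hd⟩
    have h4 : s + k ≤ n := h3.resolve_left hd
    obtain ⟨r, p, r2⟩ := hstep _ _ r1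
    have ch2 := (hb _ _ _ _ _ hst r2).1
    have hn' := (hb _ _ _ _ _ hst r1).2
    obtain ⟨st, rp⟩ : S.Step c Ex ξ s n r p ∧ S.RInv c ξ s p := by
      cases ch2 with
      | cons _ a b => exact ⟨a, b⟩
    obtain hp : s + (k + 1 : ℕ) ≤ p := by have := st.lt; push_cast; omega
    by_cases hG : S.GoodAt c ξ s n
    · refine ⟨n, p, hn'.le, not_le.1 fun h => hd ⟨h, hG⟩,
        ⟨Ls ++ L0, [(n, r)], r1, r2, (Sq.Chain.nil hn').cons st rp, Or.inr hG, by simp⟩, Or.inr hp⟩
    · refine ⟨m0, p, h1, h2, ⟨L0, (n, r) :: Ls, r0, r2, ch.cons st rp, hg, ?_⟩, Or.inr hp⟩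
      intro y hy
      rcases List.mem_cons.1 hy with rfl | hy
      · exact Or.inr hG
      · exact hn y hy

/-- the admissible piece around a good point -/
theorem pc (hW : WIN_s c) (hc : 200 * Real.exp (-c.lam / 4) ≤ c.cw) (hc1 : c.cw ≤ 1) (hM : M.OK c)
    (ht : TI t) {s x0 φ} (hA : Adm c Ex M t s x0 φ) (hP : AdmP c Ex M t s x0 φ) {u0 : ℝ}
    (hu0 : u0 ∈ Icc (0 : ℝ) 100) {Ls n}
    (hR : (M.O t (φ u0)).Run c Ex (M.tg t (φ u0) s) s (fun _ _ _ => True) Ls n)
    (hG : (M.O t (φ u0)).GoodAt c (M.tg t (φ u0) s) s n) {w : ℝ} (hw : w = |M.tg t (φ u0) s n|) :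
    0 < w ∧ 200 / w * (M.O t (φ u0)).AA c (M.tg t (φ u0) s) s n ≤ c.cw ∧
    ∃ x1 g, Adm c Ex M t n x1 (φ ∘ g) ∧ g '' Icc 0 100 ⊆ closedBall u0 (200 / w) ∧
      closedBall u0 (45 / w) ∩ Icc 0 100 ⊆ g '' Icc 0 100 ∧
      (∀ f : ℝ → ℝ≥0∞, ∫⁻ u in g '' Icc 0 100, f u ≤
        ENNReal.ofReal (10 / (9 * w)) * ∫⁻ v in Icc (0 : ℝ) 100, f (g v)) ∧
      (∀ f : ℝ → ℝ≥0∞, ∫⁻ v in Icc (0 : ℝ) 100, f (g v) ≤
        ENNReal.ofReal (11 / 10 * w) * ∫⁻ u in g '' Icc 0 100, f u) := by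
  set A := (M.O t (φ u0)).AA c (M.tg t (φ u0) s) s n with hAd
  have hA1 : 1 ≤ A := one_le_AA _ _ _ _
  obtain hs : Real.log A - Real.log w ≤ -c.lam / 4 := by rw [hw]; exact hG.2.1
  obtain he : Real.exp (-c.lam / 4) < 1 := by linarith only [hc, hc1, Real.exp_pos (-c.lam / 4)]
  have hl : -c.lam / 4 < 0 := Real.exp_lt_one_iff.1 he
  obtain hw0 : 0 < w := by
    rcases (hw ▸ abs_nonneg _ : 0 ≤ w).eq_or_lt with h | h
    · rw [← h, Real.log_zero] at hs
      linarith only [hs, hl, Real.log_nonneg hA1]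
    · exact h
  obtain hAw : A / w ≤ Real.exp (-c.lam / 4) := by
    rw [← Real.log_div (by linarith only [hA1]) hw0.ne'] at hs
    exact (Real.log_le_iff_le_exp (by (clear * - hA1 hw0; positivity))).1 hs
  obtain h200 : 200 / w * A ≤ c.cw := by
    rw [show 200 / w * A = 200 * (A / w) by ring]; linarith only [hc, hAw]
  obtain hr0 : 0 < 200 / w := by (clear * - hw0; positivity)
  obtain hr1 : 200 / w ≤ 1 := by nlinarith only [hc1, h200, hA1, hr0]
  refine ⟨hw0, h200, ?_⟩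
  set p := max 0 (u0 - 200 / w) with hp
  set q := min 100 (u0 + 200 / w) with hq
  obtain hJ : ∀ u ∈ Icc p q, u ∈ Icc (0 : ℝ) 100 ∧ |u - u0| ≤ 200 / w := fun u hu =>
    ⟨⟨(le_max_left _ _).trans hu.1, hu.2.trans (min_le_left _ _)⟩,
      abs_le.2 ⟨by linarith only [(le_max_right _ _).trans hu.1], by linarith only [hu.2.trans (min_le_right _ _)]⟩⟩
  obtain hu0J : u0 ∈ Icc p q := ⟨max_le hu0.1 (by linarith only [hr0]), le_min hu0.2 (by linarith only [hr0])⟩
  obtain hpq : 112 / w ≤ q - p := by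
    obtain this : 112 / w ≤ 200 / w := by gcongr; norm_num
    rcases le_total u0 50 with h | h
    · obtain this : u0 + 200 / w ≤ q := le_min (by linarith only [hr1, h]) le_rfl
      (rename_i zq0; linarith only [zq0, this, hu0J.1])
    · obtain this : p ≤ u0 - 200 / w := max_le (by linarith only [hr1, h]) le_rfl
      (rename_i zq0; linarith only [zq0, this, hu0J.2])
  obtain hwin : ∀ u ∈ Icc p q, |u - u0| * A ≤ c.cw := fun u hu =>
    (mul_le_mul_of_nonneg_right (hJ u hu).2 (by linarith only [hA1])).trans h200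
  obtain ⟨x1, g, gc, gm, gcov, gu, gl⟩ := piece (h := fun u => (M.O t (φ u)).X n) (p := p) (q := q)
    (u0 := u0) (ξ := M.tg t (φ u0) s n) (abs_pos.1 (hw ▸ hw0)) (hw ▸ hpq) hu0J fun u hu u' hu' =>
      (hW Ex M t s x0 φ hM ht hP u0 hu0 u (hJ u hu).1 Ls n hR (hwin u hu)).2.2.2 u' (hJ u' hu').1
        (hwin u' hu')
  rw [← hw] at gcov gu gl
  refine ⟨x1, g, Adm.step hA hu0 ⟨hG.1, ⟨Ls, hR⟩, hG.2⟩ gc fun v hv =>
    ⟨(hJ _ (gm v hv).1).1, (hJ _ (gm v hv).1).2.trans ?_, (gm v hv).2⟩, ?_, ?_, gu, gl⟩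
  · rw [← hw]; gcongr; norm_num
  · rintro _ ⟨v, hv, rfl⟩
    exact (hJ _ (gm v hv).1).2
  · rintro u ⟨h1, h2⟩
    have h3 : |u - u0| ≤ 45 / w := h1
    obtain h4 : 45 / w ≤ 200 / w := by gcongr; norm_num
    have h5 := abs_le.1 (h3.trans h4)
    exact gcov u ⟨max_le h2.1 (by linarith only [h5]), le_min h2.2 (by linarith only [h5])⟩ h3

theorem sum_sq (n : ℕ) : ∑ k ∈ Finset.range n, 1 / ((k : ℝ) + 1) ^ 2 ≤ 2 := by
  obtain this : ∑ k ∈ Finset.range n, 1 / ((k : ℝ) + 1) ^ 2 ≤ 2 - 2 / ((n : ℝ) + 1) := by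
    induction n with
    | zero => simp
    | succ n ih =>
      rw [Finset.sum_range_succ]
      obtain h : 1 / ((n : ℝ) + 1) ^ 2 + 2 / ((n : ℝ) + 1 + 1) ≤ 2 / ((n : ℝ) + 1) := by
        rw [div_add_div _ _ (by (clear * -; positivity)) (by positivity), div_le_div_iff₀ (by positivity) (by positivity)]
        have : (0 : ℝ) ≤ n := n.cast_nonneg
        linarith only [mul_nonneg this this, mul_nonneg this (mul_nonneg this this)]
      push_cast
      linarith only [ih, h]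
  obtain h : 0 ≤ 2 / ((n : ℝ) + 1) := by (clear * -; positivity)
  linarith only [this, h]

theorem sum_u {i : ℕ} (hi : 1 ≤ i) {l e : ℝ} (hl : 0 ≤ l) (he : 0 ≤ e) :
    ∑ k ∈ Finset.range i, (l / 400 * (1 / ((i : ℝ) - k) ^ 2) +
      e * (2 * (1 / (k : ℝ) ^ 2) + 2 * (1 / ((i : ℝ) - k) ^ 2) + if k = 0 then 102 else 0)) ≤
      l / 200 + 110 * e := by
  obtain h1 : ∑ k ∈ Finset.range i, 1 / ((i : ℝ) - k) ^ 2 ≤ 2 := by
    refine le_trans (le_of_eq ?_) (sum_sq i)
    rw [← Finset.sum_range_reflect (fun k : ℕ => 1 / ((k : ℝ) + 1) ^ 2) i]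
    refine Finset.sum_congr rfl fun k hk => ?_
    have hk' := Finset.mem_range.1 hk
    obtain this : ((i - 1 - k : ℕ) : ℝ) + 1 = i - k := by
      obtain this : i = (i - 1 - k) + 1 + k := by omega
      have h2 := congrArg (Nat.cast : ℕ → ℝ) this
      push_cast at h2
      linarith only [h2]
    rw [this]
  obtain h2 : ∑ k ∈ Finset.range i, 1 / (k : ℝ) ^ 2 ≤ 2 := by
    obtain ⟨j, rfl⟩ : ∃ j, i = j + 1 := ⟨i - 1, by omega⟩
    rw [Finset.sum_range_succ']
    simpa using sum_sq j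
  obtain h3 : ∑ k ∈ Finset.range i, (if k = 0 then (102 : ℝ) else 0) = 102 := by
    rw [Finset.sum_ite_eq' (Finset.range i) 0 fun _ => (102 : ℝ), if_pos (Finset.mem_range.2 hi)]
  rw [Finset.sum_add_distrib, ← Finset.mul_sum, ← Finset.mul_sum, Finset.sum_add_distrib,
    Finset.sum_add_distrib, ← Finset.mul_sum, ← Finset.mul_sum, h3]
  nlinarith only [hl, h1, he, h2]

/-- windows of the excursions that start before `s + i` and end at or after `s + i + j` -/
def RR (c : Cs) (Ex : ExT) (M : Mdl) (t : ℝ) (s : ℤ) (φ : ℝ → ℝ) (α l : ℝ) (i j : ℕ) : Set ℝ :=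
  {x | ∃ u ∈ Icc α (α + l), ∃ m0 n, s ≤ m0 ∧ m0 < s + i ∧ s + i + j ≤ n ∧
    Exc c Ex (M.O t (φ u)) (M.tg t (φ u) s) s m0 n ∧
    |x - u| * (M.O t (φ u)).AA c (M.tg t (φ u) s) s n ≤ c.cw}

theorem A_grow (h1 : SOK_s c) (hB : B1_s c) (h2 : T2_s c) (hM : M.OK c) (ht : TI t) {s x0 φ}
    (hP : AdmP c Ex M t s x0 φ) {u : ℝ} (hu : u ∈ Icc (0 : ℝ) 100) {Ls m}
    (hR : (M.O t (φ u)).Run c Ex (M.tg t (φ u) s) s (fun _ _ _ => True) Ls m) :
    ((m - s : ℤ) : ℝ) ≤ Real.exp c.lam * (M.O t (φ u)).AA c (M.tg t (φ u) s) s m := by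
  have hS := ((h1 M hM t ht).2.1 _ (hP.mem u hu).1).2
  have hst := (hP.mem u hu).2.2.1
  have := (h2 Ex _ _ s hS hst (hP.load u hu)).2 Ls m ((hB Ex _ hS).1 _ _ _ _ _ hst hR).1
  rwa [Real.exp_add, Sq.WW, Real.exp_log (by linarith only [one_le_AA (c := c) (M.O t (φ u)) (M.tg t (φ u) s) s m]),
    mul_comm] at this

theorem vol_RR (h1 : SOK_s c) (hB : B1_s c) (h2 : T2_s c) (h3 : T3_s c) (hc1 : c.cw ≤ 1)
    (hcc : Real.exp (-c.cc / 10) ≤ 1 / 400) (hM : M.OK c) (ht : TI t) {s x0 φ}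
    (hP : AdmP c Ex M t s x0 φ) {α l : ℝ} (hα : 0 ≤ α) (hl : 0 < l) (hαl : α + l ≤ 100) {i j : ℕ}
    (hi : 1 ≤ i) (hj : 1 ≤ j) :
    volume (RR c Ex M t s φ α l i j) ≤
      ENNReal.ofReal ((l / 200 + 110 * (Real.exp c.lam / i)) / ((j : ℝ) + 1) ^ 2) := by
  set e := Real.exp c.lam / i with he
  obtain hi' : (1 : ℝ) ≤ i := by exact_mod_cast hi
  obtain hj' : (1 : ℝ) ≤ j := by exact_mod_cast hj
  have hE := Real.exp_pos c.lam
  obtain he0 : 0 < e := by (clear * - hi; positivity)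
  let Z : ℕ → Set ℝ := fun k => {x : ℝ | ∃ u ∈ Set.Icc α (α + l), ∃ L0 Ls n,
      (s + k) + ((j + (i - k) : ℕ) : ℤ) ≤ n ∧
      (M.O t (φ u)).Run c Ex (M.tg t (φ u) s) s (fun _ _ _ => True) L0 (s + k) ∧
      (M.O t (φ u)).Run c Ex (M.tg t (φ u) s) s (fun _ _ _ => True) (Ls ++ L0) n ∧
      (M.O t (φ u)).Chain c Ex (M.tg t (φ u) s) s (s + k) Ls n ∧
      (s + k = s ∨ (M.O t (φ u)).GoodAt c (M.tg t (φ u) s) s (s + k)) ∧
      (∀ y ∈ Ls, y.1 = s + k ∨ ¬ (M.O t (φ u)).GoodAt c (M.tg t (φ u) s) s y.1) ∧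
      |x - u| * (M.O t (φ u)).AA c (M.tg t (φ u) s) s n ≤ c.cw}
  obtain hsub : RR c Ex M t s φ α l i j ⊆ ⋃ k ∈ Finset.range i, Z k := by
    rintro x ⟨u, hu, m0, n, a1, a2, a3, ⟨L0, Ls, b1, b2, b3, b4, b5⟩, a5⟩
    obtain ⟨k, rfl⟩ : ∃ k : ℕ, m0 = s + k := ⟨(m0 - s).toNat, by omega⟩
    obtain hk : k < i := by omega
    exact mem_biUnion (Finset.mem_range.2 hk) ⟨u, hu, L0, Ls, n, by omega, b1, b2, b3, b4, b5, a5⟩
  obtain hZ : ∀ k ∈ Finset.range i, volume (Z k) ≤ ENNReal.ofReal ((l / 400 * (1 / ((i : ℝ) - k) ^ 2) +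
      e * (2 * (1 / (k : ℝ) ^ 2) + 2 * (1 / ((i : ℝ) - k) ^ 2) + if k = 0 then 102 else 0)) /
        ((j : ℝ) + 1) ^ 2) := by
    intro k hk
    have hk' := Finset.mem_range.1 hk
    obtain hd : (1 : ℝ) ≤ (i : ℝ) - k := by
      obtain this : ((k + 1 : ℕ) : ℝ) ≤ i := by exact_mod_cast hk'
      push_cast at this; linarith only [this]
    obtain hcast : ((j + (i - k) : ℕ) : ℝ) = j + ((i : ℝ) - k) := by
      push_cast [Nat.cast_sub hk'.le]; ring
    set d := (i : ℝ) - k with hdd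
    obtain hpow : ((j : ℝ) + 1) ^ 2 * d ^ 2 ≤ (j + d) ^ 4 := by
      rw [show ((j : ℝ) + d) ^ 4 = (j + d) ^ 2 * (j + d) ^ 2 by ring]
      gcongr
      linarith only [hj']
    obtain hinv : 1 / ((j : ℝ) + d) ^ 4 ≤ 1 / d ^ 2 / ((j : ℝ) + 1) ^ 2 := by
      rw [div_div, mul_comm]
      exact one_div_le_one_div_of_le (by (clear * - hj hd; positivity)) hpow
    rcases Nat.eq_zero_or_pos k with rfl | hk0
    · refine (h3 Ex M t s x0 φ hM ht hP α (α + l) 1 (s + (0 : ℕ)) (j + (i - 0)) hα hαl (by omega)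
        (by omega) fun u _ L0 _ => by
          linarith only [hc1, one_le_AA (c := c) (M.O t (φ u)) (M.tg t (φ u) s) s (s + (0 : ℕ))]).trans
        (ENNReal.ofReal_le_ofReal ?_)
      rw [if_pos (by simp), hcast, if_pos rfl]
      obtain hdi : d = i := by rw [hdd]; simp
      obtain h4 : Real.exp c.lam * (1 / d ^ 2) ≤ e := by
        rw [hdi, he, mul_one_div]
        gcongr
        nlinarith only [hi']
      calc Real.exp c.lam / (j + d) ^ 4 * (α + l - α + 2 * 1)
          = Real.exp c.lam * (1 / (j + d) ^ 4) * (l + 2) := by ring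
        _ ≤ Real.exp c.lam * (1 / d ^ 2 / ((j : ℝ) + 1) ^ 2) * 102 := by gcongr; linarith only [hα, hαl]
        _ = Real.exp c.lam * (1 / d ^ 2) * 102 / ((j : ℝ) + 1) ^ 2 := by ring
        _ ≤ _ := by
          gcongr
          obtain this : 0 ≤ l / 400 * (1 / d ^ 2) := by (clear * - hl hd; positivity)
          obtain this : 0 ≤ e * (2 * (1 / ((0 : ℕ) : ℝ) ^ 2) + 2 * (1 / d ^ 2)) := by (clear * - hi hd; positivity)
          (rename_i zq0; linarith only [h4, zq0, this])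
    · obtain hk1 : (1 : ℝ) ≤ k := by exact_mod_cast hk0
      refine (h3 Ex M t s x0 φ hM ht hP α (α + l) (Real.exp c.lam / k) (s + k) (j + (i - k)) hα hαl
        (by omega) (by omega) fun u hu L0 hR => ?_).trans (ENNReal.ofReal_le_ofReal ?_)
      · have := A_grow h1 hB h2 hM ht hP ⟨hα.trans hu.1, hu.2.trans hαl⟩ hR
        rw [add_sub_cancel_left, Int.cast_natCast] at this
        rw [div_mul_eq_mul_div, le_div_iff₀ (by (clear * - hk0; positivity))]
        nlinarith only [this, hc1]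
      rw [if_neg (by omega), hcast, if_neg (by omega)]
      obtain h4 : 1 / 400 * (1 / d ^ 2) * (2 * (Real.exp c.lam / k)) ≤
          e * (2 * (1 / (k : ℝ) ^ 2) + 2 * (1 / d ^ 2)) := by
        obtain hik : (i : ℝ) = k + d := by rw [hdd]; ring
        obtain h5 : 1 / 400 * (1 / d ^ 2) * (2 / k) ≤ 1 / i * (2 * (1 / (k : ℝ) ^ 2) + 2 * (1 / d ^ 2)) := by
          rw [hik]
          obtain hd0 : 0 < d := by linarith only [hd]
          obtain hk0' : (0 : ℝ) < k := by linarith only [hk1]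
          field_simp
          nlinarith only [mul_pos hd0 hk0', sq_nonneg ((k : ℝ) - d)]
        calc _ = Real.exp c.lam * (1 / 400 * (1 / d ^ 2) * (2 / k)) := by ring
          _ ≤ Real.exp c.lam * (1 / i * (2 * (1 / (k : ℝ) ^ 2) + 2 * (1 / d ^ 2))) := by (clear * - h5; gcongr)
          _ = _ := by rw [he]; ring
      calc Real.exp (-c.cc / 10) / (j + d) ^ 4 * (α + l - α + 2 * (Real.exp c.lam / k))
          = Real.exp (-c.cc / 10) * (1 / (j + d) ^ 4) * (l + 2 * (Real.exp c.lam / k)) := by ring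
        _ ≤ 1 / 400 * (1 / d ^ 2 / ((j : ℝ) + 1) ^ 2) * (l + 2 * (Real.exp c.lam / k)) := by (clear * - hcc hinv hj hd hl hk0; gcongr)
        _ = (l / 400 * (1 / d ^ 2) + 1 / 400 * (1 / d ^ 2) * (2 * (Real.exp c.lam / k))) /
            ((j : ℝ) + 1) ^ 2 := by ring
        _ ≤ _ := by rw [add_zero]; (clear * - h4 hj; gcongr)
  refine (measure_mono hsub).trans ((measure_biUnion_finset_le _ _).trans
    ((Finset.sum_le_sum hZ).trans ?_))
  rw [← ENNReal.ofReal_sum_of_nonneg fun k _ => by (clear * - hl hi hj; positivity), ← Finset.sum_div]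
  refine ENNReal.ofReal_le_ofReal ?_
  gcongr
  exact sum_u hi hl.le he0.le

/-- points whose first good time at or after `s + i` (along some run) is `s + i + j` -/
def EE (c : Cs) (Ex : ExT) (M : Mdl) (t : ℝ) (s : ℤ) (φ : ℝ → ℝ) (α l : ℝ) (i j : ℕ) : Set ℝ :=
  {u | u ∈ Icc α (α + l) ∧ ∃ m0, s ≤ m0 ∧ m0 < s + i ∧
    Exc c Ex (M.O t (φ u)) (M.tg t (φ u) s) s m0 (s + i + j) ∧
    (M.O t (φ u)).GoodAt c (M.tg t (φ u) s) s (s + i + j)}

theorem cover (h1 : SOK_s c) (hB : B1_s c) (hB2 : B2_s c) (hC : CRN_s c) (hc0 : 0 ≤ c.cw)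
    (hM : M.OK c) (ht : TI t) (hH : HH c Ex M t) {s x0 φ}
    (hP : AdmP c Ex M t s x0 φ) {α l : ℝ} (hα : 0 ≤ α) (hαl : α + l ≤ 100) {i : ℕ} (hi : 1 ≤ i) :
    ∃ N : Set ℝ, volume N = 0 ∧ ∀ J : ℕ, Icc α (α + l) ⊆
      N ∪ ((⋃ j ∈ Finset.range J, EE c Ex M t s φ α l i j) ∪ RR c Ex M t s φ α l i J) := by
  refine ⟨_, hC Ex M t s x0 φ hM ht hP, fun J u hu => ?_⟩
  have hu' : u ∈ Icc (0 : ℝ) 100 := ⟨hα.trans hu.1, hu.2.trans hαl⟩
  refine or_iff_not_imp_left.2 fun hN => ?_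
  have hst := (hP.mem u hu').2.2.1
  obtain ⟨m0, n, a1, a2, a3, a4⟩ := exc_exists (Ex := Ex) (i := s + i) hB
    ((h1 M hM t ht).2.1 _ (hP.mem u hu').1).2 hst (fun Ls n hR =>
      (hB2 Ex M t hM ht hH _ (hP.mem u hu').1 _ s _ Ls n hst hR (fun y => hP.tame u hu' Ls n y hR)
        fun _ => trivial).resolve_right fun h => hN ⟨hu', Ls, n, hR, h⟩) (by omega) (i + J)
  by_cases hn : s + i + J ≤ n
  · exact Or.inr ⟨u, hu, m0, n, a1, a2, hn, a3, by simpa using hc0⟩
  · obtain ⟨b1, b2⟩ := a4.resolve_right (by push_cast; omega)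
    obtain ⟨j, rfl⟩ : ∃ j : ℕ, n = s + i + j := ⟨(n - (s + i)).toNat, by omega⟩
    exact Or.inl (mem_biUnion (Finset.mem_range.2 (by omega)) ⟨hu, m0, a1, a2, a3, b2⟩)

theorem int_le {F : ℝ → ℝ} (hF : ∀ u, 0 ≤ F u ∧ F u ≤ 1) {a b : ℝ} (hab : a ≤ b) :
    0 ≤ ∫ u in a..b, F u ∧ ∫ u in a..b, F u ≤ b - a := by
  refine ⟨intervalIntegral.integral_nonneg hab fun u _ => (hF u).1, ?_⟩
  obtain this := intervalIntegral.norm_integral_le_of_norm_le_const (a := a) (b := b) (C := 1) (f := F)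
    fun u _ => by rw [Real.norm_eq_abs, abs_of_nonneg (hF u).1]; exact (hF u).2
  rw [one_mul, abs_of_nonneg (sub_nonneg.2 hab)] at this
  exact (le_abs_self _).trans this

theorem main (h1 : SOK_s c) (hB : B1_s c) (hB2 : B2_s c) (h0 : T0_s c) (hW : WIN_s c) (h2 : T2_s c)
    (h3 : T3_s c) (hC : CRN_s c) (hc : 200 * Real.exp (-c.lam / 4) ≤ c.cw) (hc1 : c.cw ≤ 1)
    (hcc : Real.exp (-c.cc / 10) ≤ 1 / 400) (hL : 50 ≤ c.L) : T4_s c := by
  intro Ex M t hM ht hH
  obtain hc0 : 0 ≤ c.cw := by linarith only [hc, Real.exp_pos (-c.lam / 4)]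
  have hE := Real.exp_pos c.lam
  obtain hT : Summable fun j : ℕ => 1 / ((j : ℝ) + 1) ^ 2 :=
    summable_of_sum_range_le (fun _ => by (clear * -; positivity)) sum_sq
  refine ⟨fun j => 1 / ((j : ℝ) + 1) ^ 2,
    fun i l => if i = 0 then 1 else 400 * (110 * (Real.exp c.lam / i)) / l, 1 / 4400,
    fun _ => by (clear * -; positivity), hT, by norm_num, fun l _ => ?_, ?_⟩
  · have := (((tendsto_const_div_atTop_nhds_zero_nat (Real.exp c.lam)).const_mul 110).const_mul
      400).div_const l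
    simp only [mul_zero, zero_div] at this
    refine this.congr' ?_
    filter_upwards [eventually_gt_atTop 0] with i hi
    rw [if_neg hi.ne']
  intro s x0 φ hA α l i hα hl hαl
  have hP := h0 Ex M t s x0 φ hM ht hA
  obtain hB100 : ∀ (ψ : ℝ × ℝ → ℝ), (∀ p, 0 ≤ ψ p ∧ ψ p ≤ 1) → ∀ (m : ℕ) (B : ℝ),
      (∀ s' x' φ', Adm c Ex M t s' x' φ' → B ≤ ∫ u in (0 : ℝ)..100, ψ (M.pt t (φ' u) (s' + m))) →
      B ≤ 100 := fun ψ hψ m B h =>
    (h _ _ _ Adm.base).trans ((int_le (fun _ => hψ _) (by norm_num)).2.trans (by norm_num))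
  obtain hle : α ≤ α + l := by linarith only [hl]
  rcases Nat.eq_zero_or_pos i with rfl | hi
  · simp only [if_pos]
    refine ⟨fun ψ _ hψ B hB _ => (int_le (fun _ => hψ _) hle).2.trans ?_, ?_,
      fun ψ _ hψ m B h => le_trans ?_ (int_le (fun _ => hψ _) hle).1⟩
    · obtain this : 0 ≤ ∑' j : ℕ, 1 / ((j : ℝ) + 1) ^ 2 * B j :=
        tsum_nonneg fun j => mul_nonneg (by (clear * -; positivity)) (hB j).1
      nlinarith only [hl, this]
    · refine (measure_mono fun u hu => hu.1).trans ?_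
      rw [Real.volume_Icc]
      exact ENNReal.ofReal_le_ofReal (by linarith only [hl])
    · have := hB100 ψ hψ m B h
      nlinarith only [hl, this]
  simp only [if_neg hi.ne']
  obtain hi' : (0 : ℝ) < i := by exact_mod_cast hi
  set e := 110 * (Real.exp c.lam / i) with he
  obtain he0 : 0 < e := by (clear * - hi; positivity)
  obtain hlE : l * (400 * e / l) = 400 * e := by field_simp
  have hI : Icc α (α + l) ⊆ Icc (0 : ℝ) 100 := Icc_subset_Icc hα hαl
  obtain ⟨N, hN, hcov⟩ := cover h1 hB hB2 hC hc0 hM ht hH hP hα hαl hi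
  have hRR : ∀ j : ℕ, 1 ≤ j → volume (RR c Ex M t s φ α l i j) ≤
      ENNReal.ofReal ((l / 200 + e) / ((j : ℝ) + 1) ^ 2) := fun j hj =>
    vol_RR h1 hB h2 h3 hc1 hcc hM ht hP hα hl hαl hi hj
  obtain hR1 : volume (RR c Ex M t s φ α l i 1) ≤ ENNReal.ofReal (l / 200 + e) :=
    (hRR 1 le_rfl).trans (ENNReal.ofReal_le_ofReal (div_le_self (by (clear * - hl hi; positivity)) (by norm_num)))
  let w : ℕ → ℝ → ℝ := fun j u => |M.tg t (φ u) s (s + i + j)|
  obtain hpc : ∀ j, ∀ u ∈ EE c Ex M t s φ α l i j, 0 < w j u ∧ 200 / w j u ≤ 1 ∧ 200 / w j u ≤ e ∧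
      closedBall u (200 / w j u) ⊆ RR c Ex M t s φ α l i j ∧
      ∃ x1 g, Adm c Ex M t (s + i + j) x1 (φ ∘ g) ∧ g '' Icc 0 100 ⊆ closedBall u (200 / w j u) ∧
      closedBall u (45 / w j u) ∩ Icc 0 100 ⊆ g '' Icc 0 100 ∧
      (∀ f : ℝ → ℝ≥0∞, ∫⁻ u in g '' Icc 0 100, f u ≤
        ENNReal.ofReal (10 / (9 * w j u)) * ∫⁻ v in Icc (0 : ℝ) 100, f (g v)) ∧
      (∀ f : ℝ → ℝ≥0∞, ∫⁻ v in Icc (0 : ℝ) 100, f (g v) ≤
        ENNReal.ofReal (11 / 10 * w j u) * ∫⁻ u in g '' Icc 0 100, f u) := by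
    rintro j u ⟨hu, m0, a1, a2, a3, a4⟩
    obtain ⟨L0, Ls, -, hR, -⟩ := id a3
    obtain ⟨b1, b2, b3⟩ := pc hW hc hc1 hM ht hA hP (hI hu) hR a4 (w := w j u) rfl
    have hA1 := one_le_AA (c := c) (M.O t (φ u)) (M.tg t (φ u) s) s (s + i + j)
    have hg := A_grow h1 hB h2 hM ht hP (hI hu) hR
    obtain hr : 0 < 200 / w j u := by (clear * - b1; positivity)
    refine ⟨b1, by nlinarith only [hc1, b2, hA1, hr], ?_, fun x hx => ⟨u, hu, m0, _, a1, a2, le_rfl, a3,
      (mul_le_mul_of_nonneg_right (show |x - u| ≤ _ from hx) (by linarith only [hA1])).trans b2⟩, b3⟩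
    obtain h4 : (i : ℝ) ≤ ((s + i + j - s : ℤ) : ℝ) := by
      push_cast; linarith only [(j.cast_nonneg : (0 : ℝ) ≤ j)]
    obtain h5 : 200 / w j u ≤ Real.exp c.lam / i := by
      rw [le_div_iff₀ hi']
      calc 200 / w j u * i ≤ 200 / w j u * (Real.exp c.lam *
            (M.O t (φ u)).AA c (M.tg t (φ u) s) s (s + i + j)) := by gcongr; exact h4.trans hg
        _ = Real.exp c.lam * (200 / w j u * (M.O t (φ u)).AA c (M.tg t (φ u) s) s (s + i + j)) := by ring
        _ ≤ Real.exp c.lam * 1 := by gcongr; exact b2.trans hc1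
        _ = _ := mul_one _
    obtain this : 0 < Real.exp c.lam / i := by (clear * - hi; positivity)
    linarith only [hr, h5]
  obtain hcov1 : Icc α (α + l) ⊆ N ∪ (EE c Ex M t s φ α l i 0 ∪ RR c Ex M t s φ α l i 1) := by
    simpa using hcov 1
  refine ⟨fun ψ hψc hψ B hBj hB' => ?_, ?_, fun ψ hψc hψ m B hB' => ?_⟩
  · -- domination
    let f : ℝ → ℝ≥0∞ := fun u => ENNReal.ofReal (ψ (M.pt t (φ u) (s + i)))
    obtain hEj : ∀ j : ℕ, ∫⁻ u in EE c Ex M t s φ α l i j, f u ≤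
        ENNReal.ofReal (1 / ((j : ℝ) + 1) ^ 2 * B j * (l + 2 * e)) := by
      intro j
      obtain key : ∀ W : Set ℝ, (∀ u ∈ EE c Ex M t s φ α l i j, closedBall u (200 / w j u) ⊆ W) →
          ∫⁻ u in EE c Ex M t s φ α l i j, f u ≤ ENNReal.ofReal (B j) * volume W := by
        intro W hW'
        refine vit_upper _ W (Icc 0 100) (fun u => 9 / w j u) f _ (fun u hu => hI hu.1)
          (fun u hu => ?_) (fun u hu => ?_) fun u hu => ?_
        · obtain ⟨b1, b2, -⟩ := hpc j u hu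
          obtain this : 9 / w j u ≤ 200 / w j u := by gcongr; norm_num
          exact ⟨by (clear * - b1; positivity), by linarith only [b2, this]⟩
        · have b1 := (hpc j u hu).1
          exact (closedBall_subset_closedBall (by gcongr; norm_num)).trans (hW' u hu)
        · obtain ⟨b1, -, -, -, x1, g, hA', -, g2, g3, -⟩ := hpc j u hu
          rw [show 5 * (9 / w j u) = 45 / w j u by ring]
          refine (lintegral_mono_set g2).trans ((g3 f).trans ?_)
          have hP' := h0 Ex M t _ _ _ hM ht hA'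
          obtain h6 := hB' j _ _ _ hA' (by have := hP.s0; omega)
          rw [add_sub_cancel_right] at h6
          obtain h7 := ofReal_int (by norm_num) (cont_F hM ht hL hP' hψc (s + i)) fun _ => (hψ _).1
          rw [mul_comm]
          refine mul_le_mul' (h7.symm.trans_le (ENNReal.ofReal_le_ofReal h6))
            (ENNReal.ofReal_le_ofReal ?_)
          rw [← div_div, ← mul_div_assoc]
          gcongr; norm_num
      rcases Nat.eq_zero_or_pos j with rfl | hj
      · refine (key (Icc (α - e) (α + l + e)) fun u hu x hx => ?_).trans (le_of_eq ?_)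
        · have b3 := (hpc 0 u hu).2.2.1
          have := abs_le.1 (show |x - u| ≤ _ from hx)
          exact ⟨by linarith only [b3, this, hu.1.1], by linarith only [b3, this, hu.1.2]⟩
        · rw [Real.volume_Icc, ← ENNReal.ofReal_mul (hBj 0).1]
          congr 1
          push_cast; ring
      · refine (key _ fun u hu => (hpc j u hu).2.2.2.1).trans ?_
        refine (mul_le_mul_right (hRR j hj) _).trans ?_
        rw [← ENNReal.ofReal_mul (hBj j).1]
        refine ENNReal.ofReal_le_ofReal ?_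
        have := (hBj j).1
        rw [show 1 / ((j : ℝ) + 1) ^ 2 * B j * (l + 2 * e) = B j * ((l + 2 * e) / ((j : ℝ) + 1) ^ 2) by ring]
        gcongr <;> linarith only [hl, he0]
    have hone : ∀ Z : Set ℝ, ∫⁻ u in Z, f u ≤ volume Z := fun Z =>
      (lintegral_mono fun u => ENNReal.ofReal_le_one.2 (hψ _).2).trans (setLIntegral_one Z).le
    obtain hsum : Summable fun j : ℕ => 1 / ((j : ℝ) + 1) ^ 2 * B j :=
      (hT.mul_right 100).of_nonneg_of_le (fun j => mul_nonneg (by (clear * -; positivity)) (hBj j).1) fun j =>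
        mul_le_mul_of_nonneg_left (hBj j).2 (by (clear * -; positivity))
    obtain hJ : ∀ J : ℕ, 1 ≤ J → ∫ u in α..α + l, ψ (M.pt t (φ u) (s + i)) ≤
        l * (∑' j : ℕ, 1 / ((j : ℝ) + 1) ^ 2 * B j + 400 * e / l) +
          (l / 200 + e) * (1 / ((J : ℝ) + 1) ^ 2) := by
      intro J hJ
      obtain hn : ∀ j : ℕ, 0 ≤ 1 / ((j : ℝ) + 1) ^ 2 * B j := fun j =>
        mul_nonneg (by (clear * -; positivity)) (hBj j).1
      obtain h8 : ∫⁻ u in Icc α (α + l), f u ≤ ENNReal.ofReal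
          (∑ j ∈ Finset.range J, 1 / ((j : ℝ) + 1) ^ 2 * B j * (l + 2 * e) +
            (l / 200 + e) / ((J : ℝ) + 1) ^ 2) := by
        refine (lintegral_mono_set (hcov J)).trans ((lintegral_union_le _ _ _).trans ?_)
        rw [nonpos_iff_eq_zero.1 ((hone N).trans hN.le), zero_add,
          ENNReal.ofReal_add (Finset.sum_nonneg fun j _ => mul_nonneg (hn j) (by positivity))
            (by (clear * - hl hi hJ; positivity)),
          ENNReal.ofReal_sum_of_nonneg fun j _ => mul_nonneg (hn j) (by positivity)]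
        refine (lintegral_union_le _ _ _).trans (add_le_add ?_ ((hone _).trans (hRR J hJ)))
        refine le_trans ?_ (Finset.sum_le_sum fun j _ => hEj j)
        induction Finset.range J using Finset.induction_on with
        | empty => simp
        | insert a S ha ih =>
          rw [Finset.set_biUnion_insert, Finset.sum_insert ha]
          exact (lintegral_union_le _ _ _).trans (add_le_add le_rfl ih)
      rw [← ofReal_int hle ((cont_F hM ht hL hP hψc (s + i)).mono hI) fun _ => (hψ _).1,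
        ENNReal.ofReal_le_ofReal_iff (add_nonneg (Finset.sum_nonneg fun j _ =>
          mul_nonneg (hn j) (by (clear * - hl hi; positivity))) (by (clear * - hl hi hJ; positivity))), ← Finset.sum_mul] at h8
      have h9 := hsum.sum_le_tsum (Finset.range J) fun j _ => hn j
      obtain h10 : ∑ j ∈ Finset.range J, 1 / ((j : ℝ) + 1) ^ 2 * B j ≤ 200 := by
        refine (Finset.sum_le_sum fun j _ =>
          mul_le_mul_of_nonneg_left (hBj j).2 (by (clear * -; positivity))).trans ?_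
        rw [← Finset.sum_mul]
        linarith only [sum_sq J]
      rw [mul_add, hlE, mul_one_div]
      nlinarith only [h8, hl, h9, he0, h10]
    have hlim := ((hT.tendsto_atTop_zero.const_mul (l / 200 + e)).const_add
      (l * (∑' j : ℕ, 1 / ((j : ℝ) + 1) ^ 2 * B j + 400 * e / l)))
    rw [mul_zero, add_zero] at hlim
    exact ge_of_tendsto hlim (eventually_atTop.2 ⟨1, hJ⟩)
  · -- good times
    refine (measure_mono (t := N ∪ RR c Ex M t s φ α l i 1) fun u hu => ?_).trans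
      ((measure_union_le _ _).trans ?_)
    · rcases hcov1 hu.1 with h | h | h
      · exact Or.inl h
      · obtain ⟨b1, -, -, -, x1, g, hA', -, g2, -⟩ := hpc 0 u h
        obtain ⟨v, hv, e1⟩ := g2 ⟨mem_closedBall_self (by positivity), hI hu.1⟩
        exact absurd ⟨x1, φ ∘ g, by simpa using hA', v, hv, by simp [e1]⟩ hu.2
      · exact Or.inr h
    · rw [hN, zero_add]
      refine hR1.trans (ENNReal.ofReal_le_ofReal ?_)
      rw [mul_add, hlE]; linarith only [he0]
  · -- lower bound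
    have hb := hB100 ψ hψ m B hB'
    have hint := (int_le (F := fun u => ψ (M.pt t (φ u) (s + i + m))) (fun _ => hψ _) hle).1
    rw [mul_sub, hlE]
    rcases le_total B 0 with hB0 | hB0
    · nlinarith only [he0, hint, hl, hB0]
    let f : ℝ → ℝ≥0∞ := fun u => ENNReal.ofReal (ψ (M.pt t (φ u) (s + i + m)))
    set E' := EE c Ex M t s φ α l i 0 ∩ Icc (α + e) (α + l - e) with hE'
    have h5 := vit_lower E' (Icc α (α + l)) (fun u => 200 / w 0 u) f (ENNReal.ofReal (B / 2200))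
      (fun u hu => by
        obtain ⟨b1, b2, -⟩ := hpc 0 u hu.1
        exact ⟨by (clear * - b1; positivity), by linarith only [b2]⟩)
      (fun u hu x hx => by
        have b3 := (hpc 0 u hu.1).2.2.1
        have := abs_le.1 (show |x - u| ≤ _ from hx)
        exact ⟨by linarith only [b3, this, hu.2.1], by linarith only [b3, this, hu.2.2]⟩)
      (fun u hu => by
        obtain ⟨b1, -, -, -, x1, g, hA', g1, -, -, g4⟩ := hpc 0 u hu.1
        have hP' := h0 Ex M t _ _ _ hM ht hA'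
        have h6 := hB' _ _ _ hA'
        rw [Nat.cast_zero, add_zero] at h6
        obtain h7 := ofReal_int (by norm_num) (cont_F hM ht hL hP' hψc (s + i + m)) fun _ => (hψ _).1
        have h8 := ((ENNReal.ofReal_le_ofReal h6).trans h7.le).trans (g4 f)
        refine le_trans ?_ (lintegral_mono_set g1)
        calc ENNReal.ofReal (B / 2200) * ENNReal.ofReal (10 * (200 / w 0 u))
            = ENNReal.ofReal (1 / (11 / 10 * w 0 u)) * ENNReal.ofReal B := by
              rw [← ENNReal.ofReal_mul (by (clear * - hB0; positivity)), ← ENNReal.ofReal_mul (by (clear * - b1; positivity))]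
              congr 1; field_simp; ring
          _ ≤ ENNReal.ofReal (1 / (11 / 10 * w 0 u)) * (ENNReal.ofReal (11 / 10 * w 0 u) *
              ∫⁻ u in g '' Icc 0 100, f u) := mul_le_mul_right h8 _
          _ = _ := by
              rw [← mul_assoc, ← ENNReal.ofReal_mul (by (clear * - b1; positivity)), one_div_mul_cancel (by (clear * - b1; positivity)),
                ENNReal.ofReal_one, one_mul])
    obtain h6 : volume (Icc (α + e) (α + l - e)) ≤ volume E' + ENNReal.ofReal (l / 200 + e) := by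
      refine (measure_mono (t := N ∪ (E' ∪ RR c Ex M t s φ α l i 1)) fun u hu => ?_).trans
        ((measure_union_le _ _).trans ?_)
      · rcases hcov1 (show u ∈ _ from ⟨by linarith only [he0, hu.1], by linarith only [he0, hu.2]⟩) with h | h | h
        · exact Or.inl h
        · exact Or.inr (Or.inl ⟨h, hu⟩)
        · exact Or.inr (Or.inr h)
      · rw [hN, zero_add]
        exact (measure_union_le _ _).trans (add_le_add le_rfl hR1)
    obtain h7 : ENNReal.ofReal (l / 2 - 3 * e) ≤ volume E' := by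
      rw [Real.volume_Icc, ← tsub_le_iff_right, ← ENNReal.ofReal_sub _ (by positivity)] at h6
      exact (ENNReal.ofReal_le_ofReal (by linarith only [hl])).trans h6
    have h8 := (mul_le_mul_right h7 _).trans h5
    rw [← ENNReal.ofReal_mul (by (clear * - hB0; positivity)),
      ← ofReal_int hle ((cont_F hM ht hL hP hψc (s + i + m)).mono hI) fun _ => (hψ _).1,
      ENNReal.ofReal_le_ofReal_iff hint] at h8
    nlinarith only [he0, h8, hb]

end Pool.Agent.MP_9cbfe4_an.T4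

namespace Pool.Agent.MP_9cbfe4_an

theorem t4 : Hier fun c => SOK_s c → B1_s c → B2_s c → T0_s c → WIN_s c → T2_s c → T3_s c →
    CRN_s c → T4_s c := by
  obtain hε : Hier fun c => 0 < c.ε :=
    (Hier.ε_le_pow (fun _ => 1) 0 (by norm_num) (fun _ _ _ _ _ _ _ _ => rfl)
      (Hier.of_all fun _ => one_pos)).mono fun _ h => h.1
  refine ((((hε.and (Hier.lam_ge (fun c => 80000 / c.ε) fun _ _ => rfl)).and
    (Hier.lam_ge (fun _ => 1) fun _ _ => rfl)).and (Hier.L_ge (fun _ => 50) fun _ _ => rfl)).and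
    (Hier.pow_le_exp (fun _ => 200) (fun _ => 1 / 4) 4 (fun _ _ => rfl) (fun _ _ => rfl)
      (Hier.of_all fun _ => by norm_num))).mono ?_
  rintro c ⟨⟨⟨⟨a1, a2⟩, a3⟩, a4⟩, a5⟩ h1 hB hB2 h0 hW h2 h3 hC
  refine T4.main h1 hB hB2 h0 hW h2 h3 hC ?_ ?_ ?_ a4
  · unfold Cs.cw
    rw [le_div_iff₀ (by positivity), show -c.lam / 4 = -(1 / 4 * c.lam) by ring, Real.exp_neg,
      mul_right_comm, ← div_eq_mul_inv, div_le_one (Real.exp_pos _)]
    exact a5
  · unfold Cs.cw
    rw [div_le_one (by (clear * - a3; positivity))]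
    exact one_le_pow₀ a3
  · rw [div_le_iff₀ a1] at a2
    rw [show -c.cc / 10 = -(c.cc / 10) by ring, Real.exp_neg, one_div]
    refine inv_anti₀ (by norm_num) (le_trans ?_ (Real.add_one_le_exp _))
    unfold Cs.cc
    linarith only [a2]

end Pool.Agent.MP_9cbfe4_an

end
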