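import Pool.Agent.MP_9cbfe4_an.M02
import Pool.Agent.MP_9cbfe4_an.M05
import Pool.Agent.MP_9cbfe4_an.M07

set_option linter.all false

attribute [-instance] AddQuantale.instAddLeftMono IdemSemiring.toCanonicallyOrderedAdd
  NumberField.to_charZero AddQuantale.instAddRightMono IdemSemiring.toMulLeftMono RKHS.instFunLike
  Quantale.instMulRightMono Quantale.instMulLeftMono IsOrderedCancelMonoid.toIsOrderedMonoid
  LinearOrderedCommMonoidWithZero.toPosMulStrictMono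
  Group.IsPerfect.subsingleton_of_isMulCommutative CanonicallyOrderedAdd.toMulLeftMono
  Valued.toUniformSpace IdemSemiring.toMulRightMono TotallySeparatedSpace.t2Space
  LinearOrderedCommMonoidWithZero.toIsOrderedMonoid IsScalarTower.complexToReal
  Order.Coframe.toCompleteLattice OmegaCompletePartialOrder.toPartialOrder Invertible.toNeZero
  GrpTypeEquivalenceGrp.grpGroup littleWedderburn CanonicallyOrderedMul.toMulLeftMono
  CoalgHomClass.toSemilinearMapClass TestFunctionClass.toDFunLike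
  ContDiffMapSupportedInClass.toDFunLike Order.Frame.toCompleteLattice RightPreLieAlgebra.toModule
  CategoryTheory.Limits.Concrete.instUniqueToTypeTerminal LeftPreLieAlgebra.toModule
  CStarAlgebra.instOrderClosedTopology IdemSemiring.toSemiring
  LieAdmissibleRing.toNonUnitalNonAssocRing NonUnitalAlgSemiHomClass.toDistribMulActionSemiHomClass
  CStarAlgebra.toNormedRing

/-! ### Part B1 -/

section

/-! Rows B1 (soundness of runs) and B3 (free times of runs are tame). -/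

namespace Pool.Agent.MP_9cbfe4_an

open Finset Filter Topology

namespace B1

/-- the fresh solution is an admissible start -/
theorem st_fr (c : Cs) (S : Sq) {n : ℤ} (hn : 0 ≤ n) : S.St c (S.fr n) n := by
  refine ⟨hn, S.fr_sol n, S.fr_self n, ?_⟩
  rw [S.fr_lt (by omega : n - 1 < n), abs_zero]
  exact (Real.exp_pos _).le

/-- a free time of a run is an admissible outer direction -/
theorem out_of_rinv {c : Cs} {S : Sq} {ξ : ℤ → ℝ} {s n : ℤ} (hl : 10 ≤ c.lam)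
    (hs : S.St c ξ s) (hr : S.RInv c ξ s n) : S.Out c ξ n := by
  have hle := hr.le
  refine ⟨hs.1.trans hle, fun j hj => hs.2.1 j (hle.trans hj), hr.ne, ?_⟩
  rcases hle.eq_or_lt with h | h
  · subst h
    rw [hs.2.2.1, abs_one, mul_one]
    exact hs.2.2.2
  · have h1 := hr.i1 h
    obtain h2 : |ξ (n - 1)| ≤ S.wh c ξ s (n - 1) := S.abs_le_wh c ξ (by omega)
    obtain h3 : Real.exp (-c.lam / 3) * 2 ≤ Real.exp (-c.lam / 5) := by
      obtain e : Real.exp (-c.lam / 5) = Real.exp (-c.lam / 3) * Real.exp (2 * c.lam / 15) := by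
        rw [← Real.exp_add]; congr 1; ring
      rw [e]
      have := Real.add_one_le_exp (2 * c.lam / 15)
      exact mul_le_mul_of_nonneg_left (by linarith only [hl, this]) (Real.exp_pos _).le
    obtain h4 : Real.exp (-c.lam / 3) * (2 - Real.exp (-S.chi c s n / 10)) ≤
        Real.exp (-c.lam / 3) * 2 :=
      mul_le_mul_of_nonneg_left (by linarith only [Real.exp_pos (-S.chi c s n / 10)])
        (Real.exp_pos _).le
    exact h2.trans (h1.trans (mul_le_mul_of_nonneg_right (h4.trans h3) (abs_nonneg _)))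

/-- the level of the partner at a release time is at most twice the depth -/
theorem wp_le {c : Cs} {S : Sq} {ξ : ℤ → ℝ} {n p : ℤ} {r' : ℝ} (hl : 10 ≤ c.lam) (hL : 1 ≤ c.L)
    (hb : S.Bd c ξ n p r')
    (hw : c.cw * c.L ≤ S.rho ξ n p ^ 2 * Real.exp (S.Wt c (S.fr (n + 1)) (n + 1) p r')) :
    S.Wp c n p ≤ 2 * S.dep c ξ n p := by
  obtain hl0 : 0 < c.lam := by linarith only [hl]
  obtain hcw : 0 < c.cw := by unfold Cs.cw; positivity
  obtain hcb : c.cb ≤ 1 := by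
    unfold Cs.cb
    rw [div_le_one (by positivity)]
    exact one_le_pow₀ (by linarith only [hl])
  obtain hρ : S.rho ξ n p ≠ 0 := by
    intro h
    rw [h] at hw
    obtain this : 0 < c.cw * c.L := by positivity
    simp at hw
    linarith only [this, hw]
  have hρ' : 0 < |S.rho ξ n p| := abs_pos.2 hρ
  have h1 : S.Wp c n p ≤ S.Wt c (S.fr (n + 1)) (n + 1) p r' := le_max_left _ _
  obtain h2 : |S.rho ξ n p| ^ 2 * Real.exp (S.Wp c n p) ≤ c.L ^ 2 := by
    rw [sq_abs]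
    have h3 : S.rho ξ n p ^ 2 * Real.exp (S.Wp c n p) ≤ c.cb * c.L :=
      (mul_le_mul_of_nonneg_left (Real.exp_le_exp.2 h1) (sq_nonneg _)).trans hb
    nlinarith only [hL, hcb, h3]
  obtain h4 : Real.exp (S.Wp c n p) ≤ (c.L / |S.rho ξ n p|) ^ 2 := by
    rw [div_pow, le_div_iff₀ (by positivity)]
    linarith only [h2]
  have h5 := Real.log_le_log (Real.exp_pos _) h4
  rw [Real.log_exp, Real.log_pow] at h5
  exact_mod_cast h5

theorem ev_nonneg {c : Cs} (S : Sq) (hl : 0 ≤ c.lam) (he : 0 < c.e3) (hε : 0 ≤ c.ε)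
    (ξ : ℤ → ℝ) (s m : ℤ) (r : ℝ) : 0 ≤ S.ev c ξ s m r := by
  obtain hc : 0 ≤ c.cc := by unfold Cs.cc; (clear * - hε hl; positivity)
  have hs : 0 ≤ S.sg c ξ s m / c.e3 := div_nonneg (le_max_right _ _) he.le
  unfold Sq.ev
  split_ifs with h1 h2
  · linarith only [hc, hs, h1]
  · exact hl
  · exact le_rfl

theorem evs_nonneg {c : Cs} (S : Sq) (hl : 0 ≤ c.lam) (he : 0 < c.e3) (hε : 0 ≤ c.ε)
    (ξ : ℤ → ℝ) (s : ℤ) (Ls : List (ℤ × ℝ)) : 0 ≤ S.evs c ξ s Ls := by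
  unfold Sq.evs
  refine List.sum_nonneg fun x hx => ?_
  obtain ⟨y, _, rfl⟩ := List.mem_map.1 hx
  exact ev_nonneg S hl he hε _ _ _ _

/-- the structural induction -/
theorem main {c : Cs} (hl : 10 ≤ c.lam) (hL : 1 ≤ c.L) (hR : RINV_s c) (hS : STEP_s c)
    (hB : BINV_s c) {Ex : ExT} {S : Sq} (hok : S.OK c) {ξ s P Ls m}
    (h : S.Run c Ex ξ s P Ls m) : S.St c ξ s →
      S.Chain c Ex ξ s s Ls m ∧ S.RInv c ξ s m ∧
      ∀ ξ0 n r, ξ = S.fr (n + 1) → s = n + 1 → P = S.PBd c Ex ξ0 n → S.Out c ξ0 n →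
        S.Bd c ξ0 n m r → S.BInv c n Ls m := by
  induction h with
  | start ξ s P =>
    intro hs
    have h0 := (hR Ex S ξ s hok hs).1
    refine ⟨.nil h0, h0, ?_⟩
    rintro ξ0 n r - rfl - ho hb
    exact (hB Ex S ξ0 n hok ho).1 r hb
  | @shallow ξ s P Ls n _ hρ hP ih =>
    intro hs
    obtain ⟨hc, hr, hb⟩ := ih hs
    have hst := (hS Ex S ξ s n hok hs hr).1 hρ
    have hr' := (hR Ex S ξ s hok hs).2 n _ _ hr hst (Or.inl rfl)
    refine ⟨.cons hc hst hr', hr', ?_⟩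
    rintro ξ0 n0 r rfl rfl rfl ho -
    exact (hB Ex S ξ0 n0 hok ho).2 Ls n _ _ hc (hb ξ0 n0 _ rfl rfl rfl ho hP.1) hP hst hr'
      (Or.inl rfl)
  | @block ξ s P Ls n Ls' p r' _ hrun hPB hw hP ih ih' =>
    intro hs
    obtain ⟨hc, hr, hb⟩ := ih hs
    have ho := out_of_rinv hl hs hr
    obtain ⟨-, hr2, hb2⟩ := ih' (st_fr c S (by linarith only [ho.1]))
    have hbi := hb2 ξ n r' rfl rfl rfl ho hPB.1
    have hst := (hS Ex S ξ s n hok hs hr).2 Ls' p r' ⟨hrun, hPB⟩ hr2 hbi hw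
    have hr' := (hR Ex S ξ s hok hs).2 n _ _ hr hst (Or.inr ⟨Ls', hr2, hbi⟩)
    refine ⟨.cons hc hst hr', hr', ?_⟩
    rintro ξ0 n0 r rfl rfl rfl ho0 -
    exact (hB Ex S ξ0 n0 hok ho0).2 Ls n _ _ hc (hb ξ0 n0 _ rfl rfl rfl ho0 hP.1) hP hst hr'
      (Or.inr ⟨Ls', hr2, hbi, wp_le hl hL hPB.1 hw⟩)

end B1

open B1 in
theorem b1 : Hier fun c => RINV_s c → STEP_s c → BINV_s c → B1_s c := by
  have H1 := Hier.lam_ge (fun _ => 10) fun _ _ => rfl
  have H2 := Hier.L_ge (fun _ => 1) fun _ _ => rfl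
  obtain H3 := Hier.e3_le (fun _ => 1 / 10) (fun _ _ _ _ _ _ _ _ => rfl)
    (Hier.of_all fun _ => by norm_num)
  obtain H4 := Hier.ε_le_pow (fun _ => 1) 0 (by norm_num) (fun _ _ _ _ _ _ _ _ => rfl)
    (Hier.of_all fun _ => by norm_num)
  have H5 := Hier.C0_ge fun _ _ _ _ => 0
  have H6 := Hier.C1_ge fun _ _ _ _ _ => 0
  have H7 := Hier.β_ge (fun _ => 1) fun _ _ _ => rfl
  have H8 := Hier.lam_ge (fun c => c.chK) fun _ _ => rfl
  refine (H1.and (H2.and (H3.and (H4.and (H5.and (H6.and (H7.and (H8.and Hier.base)))))))).mono ?_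
  rintro c ⟨hl, hL, ⟨he, he'⟩, ⟨hε, -⟩, hC0, hC1, hβ, hK, hk0, hk1, -⟩ hR hS hB Ex S hok
  obtain hl0 : 0 ≤ c.lam := by linarith only [hl, he, he']
  obtain hK0 : 0 < c.chK := by
    unfold Cs.chK
    apply Real.log_pos
    rw [lt_div_iff₀ (by linarith only [he, he', hk0])]
    linarith only [he, he', hk1]
  obtain hKb : c.chK ≤ c.bl := by
    unfold Cs.bl
    nlinarith only [hβ, hK, hl]
  obtain h2 : ∀ ξ n Ls m r, S.Out c ξ n →
      S.Run c Ex (S.fr (n + 1)) (n + 1) (S.PBd c Ex ξ n) Ls m → S.Bd c ξ n m r →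
      S.BInv c n Ls m := fun ξ n Ls m r ho hr hb =>
    (main hl hL hR hS hB hok hr (st_fr c S (by linarith only [ho.1]))).2.2 ξ n r rfl rfl rfl ho hb
  refine ⟨fun ξ s P Ls m hs hr => ?_, h2, fun ξ n Ls m r ho hr => ?_⟩
  · obtain ⟨a, b, -⟩ := main hl hL hR hS hB hok hr hs
    exact ⟨a, b⟩
  · have hbi := h2 ξ n Ls m r ho hr.1 hr.2.1
    have h3 := hr.2.2.c3
    have h4 := evs_nonneg S hl0 he hε.le (S.fr (n + 1)) (n + 1) Ls
    have h5 := ev_nonneg S hl0 he hε.le (S.fr (n + 1)) (n + 1) m r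
    obtain hc : 0 ≤ c.cc := by unfold Cs.cc; positivity
    set V := S.Wt c (S.fr (n + 1)) (n + 1) m r with hV
    by_cases hev : S.sg c (S.fr (n + 1)) (n + 1) m / c.e3 + c.cc ≤ r
    · obtain e : S.ev c (S.fr (n + 1)) (n + 1) m r = r := by unfold Sq.ev; rw [if_pos hev]
      rw [e] at h3 h5
      linarith only [h4, h5, hc, h3]
    · have hW : S.Wp c n m ≤ V := le_max_left _ _
      obtain hx : S.xp c n m ≤ S.xx c n V := by
        unfold Sq.xp Sq.xx
        have a1 := mul_le_mul_of_nonneg_left (S.load_mono c hK0 hKb hC0 n hW) hC1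
        have a2 := mul_le_mul_of_nonneg_left hW hε.le
        linarith only [a1, a2]
      obtain hx0 : 0 ≤ S.xx c n V := by linarith only [h4, h5, h3]
      have h6 := hbi.sg_le
      obtain h7 : S.sg c (S.fr (n + 1)) (n + 1) m / c.e3 ≤ 11 / 10 * S.xx c n V := by
        rw [div_le_iff₀ he]
        obtain a1 : c.ε' ≤ c.e3 / 10 := by
          unfold Cs.ε'
          have : c.e3 ^ 3 ≤ (1 / 10) ^ 3 := pow_le_pow_left₀ he.le he' 3
          nlinarith only [he, he', this]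
        obtain a0 : 0 ≤ c.ε' := by unfold Cs.ε'; positivity
        have a2 := mul_le_mul_of_nonneg_left hx a0
        have a3 := mul_le_mul_of_nonneg_right a1 hx0
        linarith only [h6, a2, a3]
      linarith only [h7, not_le.1 hev]

theorem b3 : Hier fun c => H1_s c → TG_s c → B3_s c := by
  refine Hier.of_all fun c hH hT Ex S ξ s P Ls m y hok hs hr hy => ?_
  refine hT S ξ _ s m y hok (hH Ex S ξ s P Ls m hok hs hr) ?_
  rcases hy with h | h | ⟨h, rfl⟩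
  · exact .inl h
  · exact .inr (.inl h)
  · refine .inr (.inr ⟨h, S.fr_lt (by norm_num), fun j _ => ?_⟩)
    rw [S.fr_self, one_mul]

end Pool.Agent.MP_9cbfe4_an

end

/-! ### Part DRP -/

section

/-! Row DRP: drop and `Bc` bounds of bound runs in terms of `xp`, and the structure of one step. -/

namespace Pool.Agent.MP_9cbfe4_an

open Finset Filter Topology

noncomputable section

namespace Sq
variable (c : Cs) (S : Sq)

/-- slack exponent of the step from the free time `x` with depth `r` -/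
def Zb (x : ℤ) (r : ℝ) : ℝ := 20 * (c.C1 * S.load c x (2 * r) + 3 * c.ε * max r 0)
/-- the partner part of the majorant inside the step from `x` to `p` -/
def om (ξ : ℤ → ℝ) (x p i : ℤ) : ℝ := |ξ x| * |S.rho ξ x p| * S.wp c x i
/-- drop and `Bc` of the partner majorant on `(n, m]` are at most `exp Z` -/
def Drp (n m : ℤ) (Z : ℝ) : Prop := ∀ i j, n < i → i ≤ j → j ≤ m →
  S.wp c n i ≤ Real.exp Z * S.wp c n j ∧ (i < j → S.Bc c (S.wp c n) i j ≤ Real.exp Z)

/-- one step (shallow or block) from `x` with depth `r` to `p` -/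
structure Blk2 (ξ : ℤ → ℝ) (s x : ℤ) (r : ℝ) (p : ℤ) : Prop where
  eta : |S.rho ξ x p| = c.L * Real.exp (-r)
  drp : S.Drp c x p (S.Zb c x r)
  last : S.om c ξ x p p = |ξ p|
  up : ∀ i, x < i → i ≤ p → S.om c ξ x p i ≤ 2 * S.wh c ξ s i
  lo : ∀ i, x < i → i ≤ p →
    S.wh c ξ s i ≤ S.om c ξ x p i + |ξ x| * Real.exp (-S.chi c x i / 2)
  base : ∀ i, x < i → i ≤ p → |ξ x| * |S.rho ξ x p| ≤ Real.exp (S.Zb c x r) * S.om c ξ x p i
  mono : ∀ i j, x < i → i ≤ j → j ≤ p → S.om c ξ x p i ≤ Real.exp (S.Zb c x r) * S.om c ξ x p j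
  bc : ∀ i j, x < i → i < j → j ≤ p →
    |S.fr (i + 1) j| * c.L * S.om c ξ x p i ≤ Real.exp (S.Zb c x r) * S.om c ξ x p j
  pb : ∀ i j, x ≤ i → i ≤ j → j ≤ p →
    S.PB c (2 / 100) i j ≤ Real.exp (c.CN * S.Zb c x r / 10 + c.lam + 1 - S.chi c i j)
end Sq

/-- row DRP -/
def DRP_s (c : Cs) : Prop := ∀ Ex (S : Sq), S.OK c →
  (∀ ξ n Ls m r, S.Out c ξ n → S.Run c Ex (S.fr (n + 1)) (n + 1) (S.PBd c Ex ξ n) Ls m →
    S.Bd c ξ n m r → S.Drp c n m (20 * S.xp c n m) ∧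
      ∀ i, n < i → i ≤ m → S.wp c n i ≤ Real.exp (2 * S.xp c n m) * S.wp c n m) ∧
  (∀ ξ s P Ls x r p, S.St c ξ s → S.Run c Ex ξ s P ((x, r) :: Ls) p → S.Blk2 c ξ s x r p) ∧
  (∀ ξ s m0 Ls m i E B, S.St c ξ s → S.Chain c Ex ξ s m0 Ls m → s ≤ i → i < m0 → 0 ≤ B →
    (∀ l, i < l → l ≤ m0 → |S.fr (i + 1) l| ≤ E * S.wh c ξ s l) →
    (∀ z ∈ Ls, Real.exp (z.2 - 5 / 8 * S.chi c i z.1) ≤ B * (c.L * |ξ z.1|)) →
    ∀ l, i < l → l ≤ m → |S.fr (i + 1) l| ≤ (E + 32 * B) * S.wh c ξ s l)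

/-- every time lies in exactly one step of a run -/
theorem Sq.Run.tile {c : Cs} {S : Sq} {Ex ξ s P Ls m} (h : S.Run c Ex ξ s P Ls m) :
    (∀ y ∈ Ls, s ≤ y.1 ∧ y.1 < m) ∧ ∀ i, s ≤ i → i < m → ∃ L1 L0 x r p, Ls = L1 ++ (x, r) :: L0 ∧
      S.Run c Ex ξ s P ((x, r) :: L0) p ∧ x ≤ i ∧ i < p ∧ p ≤ m ∧ (∀ y ∈ L1, p ≤ y.1) ∧
      (∀ y ∈ L0, y.1 < x) ∧ (p = m ∨ ∃ r', (p, r') ∈ L1) := by
  induction Ls generalizing m with
  | nil =>
    obtain rfl := Sq.Run.nil c S h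
    exact ⟨by simp, fun i h1 h2 => by omega⟩
  | cons y Ls ih =>
    obtain ⟨n, r⟩ := y
    obtain ⟨h1, -, h3, -⟩ := Sq.Run.tail c S h
    obtain ⟨a, b⟩ := ih h1
    have hs := Sq.Run.le c S h1
    refine ⟨fun y hy => ?_, fun i i1 i2 => ?_⟩
    · rcases List.mem_cons.1 hy with rfl | hy
      · exact ⟨hs, h3⟩
      · exact ⟨(a y hy).1, (a y hy).2.trans h3⟩
    rcases lt_or_ge i n with h4 | h4
    · obtain ⟨L1, L0, x, r', p, e, q1, q2, q3, q4, q5, q6, q7⟩ := b i i1 h4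
      refine ⟨(n, r) :: L1, L0, x, r', p, by rw [e]; rfl, q1, q2, q3, by omega, fun y hy => ?_, q6,
        Or.inr ?_⟩
      · rcases List.mem_cons.1 hy with rfl | hy
        · exact q4
        · exact q5 y hy
      · rcases q7 with rfl | ⟨r2, q7⟩
        · exact ⟨r, List.mem_cons_self⟩
        · exact ⟨r2, List.mem_cons_of_mem _ q7⟩
    · exact ⟨[], Ls, n, r, m, rfl, h, h4, i2, le_rfl, by simp, fun y hy => (a y hy).2, Or.inl rfl⟩

namespace DRP

structure K (c : Cs) : Prop where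
  k1 : 1 / 16 ≤ c.k0
  k2 : c.k0 < 1 / 2
  lam : 10 ≤ c.lam
  L : 16 ≤ c.L
  a0 : 0 < c.a
  a1 : c.a ≤ 1 / 10
  β : 100 ≤ c.β
  C0 : 0 ≤ c.C0
  C1 : 0 ≤ c.C1
  e0 : 0 < c.e3
  e1 : c.e3 ≤ 1 / 10
  ε0 : 0 < c.ε
  ε1 : c.ε ≤ 1 / 20000
  cc : 40 / c.ε ≤ c.lam
  CN : 400 * c.C1 * c.CN ≤ c.lam

theorem hK : Hier K := by
  have h1 := Hier.lam_ge (fun _ => 10) fun _ _ => rfl
  have h2 := Hier.L_ge (fun _ => 16) fun _ _ => rfl
  obtain h3 := Hier.a_le (fun _ => 1 / 10) (fun _ _ _ _ _ _ => rfl) (Hier.of_all fun _ => by norm_num)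
  have h5 := Hier.β_ge (fun _ => 100) fun _ _ _ => rfl
  have h6 := Hier.C0_ge fun _ _ _ _ => 0
  have h7 := Hier.C1_ge fun _ _ _ _ _ => 0
  obtain h8 := Hier.e3_le (fun _ => 1 / 10) (fun _ _ _ _ _ _ _ _ => rfl)
    (Hier.of_all fun _ => by norm_num)
  obtain h9 := Hier.ε_le_pow (fun _ => 1 / 20000) 0 (by norm_num) (fun _ _ _ _ _ _ _ _ => rfl)
    (Hier.of_all fun _ => by norm_num)
  have h10 := Hier.lam_ge (fun c => 40 / c.ε) fun _ _ => rfl
  have h11 := Hier.lam_ge (fun c => 400 * c.C1 * c.CN) fun _ _ => rfl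
  refine (Hier.base.and (h1.and (h2.and (h3.and (h5.and (h6.and (h7.and (h8.and (h9.and
    (h10.and h11)))))))))).mono ?_
  rintro c ⟨b, h1, h2, h3, h5, h6, h7, h8, h9, h10, h11⟩
  exact ⟨b.1, b.2.1, h1, h2, h3.1, h3.2, h5, h6, h7, h8.1, h8.2, h9.1, by simpa using h9.2, h10, h11⟩

variable {c : Cs}

theorem K.chK (h : K c) : 2 / 3 ≤ c.chK ∧ c.chK ≤ c.bl := by
  obtain h0 : 0 < c.k0 := by linarith only [h.k1]
  constructor
  · obtain h1 : Real.log 2 ≤ c.chK :=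
      Real.log_le_log two_pos (by rw [le_div_iff₀ h0]; linarith only [h.k2])
    linarith only [Real.log_two_gt_d9, h1]
  obtain h1 : c.chK ≤ 1 / c.k0 - 1 := Real.log_le_sub_one_of_pos (by positivity)
  obtain h2 : 1 / c.k0 ≤ 16 := by rw [div_le_iff₀ h0]; linarith only [h.k1]
  have : c.bl = c.β * c.lam := rfl
  nlinarith only [h.β, h.lam, h1, h2, this]

theorem K.chi0 (h : K c) (S : Sq) (i j : ℤ) : 0 ≤ S.chi c i j :=
  S.chi_nonneg c (by linarith only [h.chK.1]) h.chK.2 i j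

theorem K.cc2 (h : K c) : 2 ≤ c.cc := by
  have := h.cc
  rw [div_le_iff₀ h.ε0] at this
  unfold Cs.cc
  linarith only [this]

theorem K.ff (h : K c) (S : Sq) (i j : ℤ) : 1 ≤ S.ff c i j ∧ S.ff c i j ≤ 2 := by
  obtain h1 : Real.exp (-S.chi c i j / 24) ≤ 1 :=
    Real.exp_le_one_iff.2 (by linarith only [h.chi0 S i j])
  have h2 := Real.exp_pos (-S.chi c i j / 24)
  unfold Sq.ff
  constructor <;> linarith only [h1, h2]

/-- the potential drops by a definite fraction in one step -/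
theorem K.pot (h : K c) (S : Sq) {i n p : ℤ} (h1 : i ≤ n) (h2 : n < p) :
    8 * Real.exp (-S.chi c i p / 4) ≤ 7 * Real.exp (-S.chi c i n / 4) := by
  have a1 := S.chi_ge c h.chK.2 h2.le
  obtain a2 : (1 : ℝ) ≤ ((p - n : ℤ) : ℝ) := by exact_mod_cast (by omega : 1 ≤ p - n)
  obtain a3 : 2 / 3 ≤ S.chi c n p := by nlinarith only [h.chK.1, a1, a2]
  obtain e : Real.exp (-S.chi c i n / 4) =
      Real.exp (-S.chi c i p / 4) * Real.exp (S.chi c n p / 4) := by
    rw [← Real.exp_add, S.chi_add c h1 h2.le]; congr 1; ring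
  have a4 := Real.add_one_le_exp (S.chi c n p / 4)
  have a5 := Real.exp_pos (-S.chi c i p / 4)
  rw [e]
  nlinarith only [a3, a4, a5]

theorem K.xp2 (h : K c) (S : Sq) (n m : ℤ) : 2 ≤ S.xp c n m := by
  have a1 := mul_nonneg h.C1 (S.load_nonneg c n (S.Wp c n m))
  have a2 : 0 ≤ S.Wp c n m := Real.log_nonneg (S.one_le_AA c _ _ _)
  have a3 := mul_nonneg h.ε0.le a2
  unfold Sq.xp Sq.xx
  linarith only [a1, a3, h.cc2]

theorem K.xp_mono (h : K c) (S : Sq) (n : ℤ) {m p : ℤ} (hp : m ≤ p) : S.xp c n m ≤ S.xp c n p := by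
  obtain hW : S.Wp c n m ≤ S.Wp c n p :=
    Real.log_le_log (by linarith only [S.one_le_AA c (S.fr (n + 1)) (n + 1) m]) (S.AA_mono c _ _ hp)
  unfold Sq.xp Sq.xx
  obtain a1 := mul_le_mul_of_nonneg_left
    (S.load_mono c (by linarith only [h.chK.1]) h.chK.2 h.C0 n hW) h.C1
  have a2 := mul_le_mul_of_nonneg_left hW h.ε0.le
  linarith only [a1, a2]

theorem K.Zb0 (h : K c) (S : Sq) (x : ℤ) (r : ℝ) : 0 ≤ S.Zb c x r := by
  have a1 := mul_nonneg h.C1 (S.load_nonneg c x (2 * r))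
  have a2 := mul_nonneg h.ε0.le (le_max_right r 0)
  unfold Sq.Zb
  linarith only [a1, a2]

theorem wp_one (S : Sq) (n : ℤ) : S.wp c n (n + 1) = 1 := by
  unfold Sq.wp
  rw [S.wh_succ c _ le_rfl, S.fr_self, add_sub_cancel_right]
  obtain this : S.wh c (S.fr (n + 1)) (n + 1) n = 0 :=
    le_antisymm (S.wh_le c _ le_rfl fun i h1 h2 => by
      rw [S.fr_lt (by omega : i < n + 1)]; simp) (S.wh_nonneg c _ _ _)
  rw [this]; simp

theorem wp_pos (S : Sq) {n i : ℤ} (h : n < i) : 0 < S.wp c n i :=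
  S.wh_pos c (by rw [S.fr_self]; exact one_ne_zero) (by omega)

theorem Drp_mono {S : Sq} {n m : ℤ} {Z Z' : ℝ} (h : S.Drp c n m Z) (hZ : Z ≤ Z') : S.Drp c n m Z' :=
  fun i j h1 h2 h3 => ⟨(h i j h1 h2 h3).1.trans (mul_le_mul_of_nonneg_right (Real.exp_le_exp.2 hZ)
    (wp_pos S (by omega)).le), fun h4 => ((h i j h1 h2 h3).2 h4).trans (Real.exp_le_exp.2 hZ)⟩

theorem Drp_one (S : Sq) (n : ℤ) {Z : ℝ} (hZ : 0 ≤ Z) : S.Drp c n (n + 1) Z := fun i j h1 h2 h3 => by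
  obtain rfl : i = n + 1 := by omega
  obtain rfl : j = n + 1 := by omega
  exact ⟨le_mul_of_one_le_left (wp_pos S h1).le (Real.one_le_exp hZ), fun h => absurd h (lt_irrefl _)⟩

/-- the fields that follow from the sandwich and the partner drop bound -/
theorem blk2 (h : K c) {Ex : ExT} {S : Sq} {ξ : ℤ → ℝ} {s x p : ℤ} {r : ℝ}
    (st : S.Step c Ex ξ s x r p) (hρ : S.rho ξ x p ≠ 0) (drp : S.Drp c x p (S.Zb c x r))
    (last : S.om c ξ x p p = |ξ p|)
    (up : ∀ i, x < i → i ≤ p → S.om c ξ x p i ≤ 2 * S.wh c ξ s i)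
    (lo : ∀ i, x < i → i ≤ p →
      S.wh c ξ s i ≤ S.om c ξ x p i + |ξ x| * Real.exp (-S.chi c x i / 2)) :
    S.Blk2 c ξ s x r p := by
  obtain hL : 0 < c.L := by linarith only [h.L]
  obtain q0 : 0 ≤ |ξ x| * |S.rho ξ x p| := by (clear * - hρ; positivity)
  obtain mono : ∀ i j, x < i → i ≤ j → j ≤ p →
      S.om c ξ x p i ≤ Real.exp (S.Zb c x r) * S.om c ξ x p j := fun i j h1 h2 h3 => by
    have := mul_le_mul_of_nonneg_left (drp i j h1 h2 h3).1 q0
    unfold Sq.om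
    linarith only [this]
  refine ⟨?_, drp, last, up, lo, fun i h1 h2 => ?_, mono, fun i j h1 h2 h3 => ?_,
    fun i j h1 h2 h3 => ?_⟩
  · rw [st.hr, Sq.dep, Real.exp_neg, Real.exp_log (div_pos hL (abs_pos.2 hρ))]
    field_simp
  · obtain this := mono (x + 1) i (by omega) h1 h2
    rwa [Sq.om, wp_one, mul_one] at this
  · have a := (drp i j h1 h2.le h3).2 h2
    rw [Sq.Bc, div_le_iff₀ (wp_pos S (by omega))] at a
    have := mul_le_mul_of_nonneg_left a q0
    unfold Sq.om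
    linarith only [this]
  · refine (S.PB_le c (by linarith only [h.k1]) (by nlinarith only [h.k1, h.L, hL]) h.chK.2 h2
      (by linarith only [h.lam])).trans (Real.exp_le_exp.2 ?_)
    have a1 := S.NK_mono h1 h3
    have a2 := S.NK_nonneg i j
    obtain hN : 0 ≤ c.CN := by unfold Cs.CN; (clear * -; positivity)
    have a3 := mul_nonneg hN (h.Zb0 S x r)
    rcases st.kind with ⟨e, -⟩ | ⟨k1, -, -, -, k5⟩
    · have a4 := S.NK_le st.lt.le
      obtain e' : ((p - x : ℤ) : ℝ) = 1 := by rw [e]; simp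
      rw [e'] at a4
      nlinarith only [h.lam, a1, a3, a4]
    · obtain e : c.CN * S.Zb c x r / 10 = 2 * (c.CN * (c.C1 * S.load c x (2 * r) + 3 * c.ε * r)) := by
        rw [Sq.Zb, max_eq_left (by linarith only [k1, h.lam])]; ring
      rw [e]
      nlinarith only [h.lam, a1, a2, a3, k5, e]

theorem blk2_one (h : K c) {Ex : ExT} {S : Sq} {ξ : ℤ → ℝ} {s x : ℤ} {r : ℝ}
    (st : S.Step c Ex ξ s x r (x + 1)) (hx : S.RInv c ξ s x) (hp : S.RInv c ξ s (x + 1)) :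
    S.Blk2 c ξ s x r (x + 1) := by
  obtain last : S.om c ξ x (x + 1) (x + 1) = |ξ (x + 1)| := by
    rw [Sq.om, wp_one, S.rho_one, abs_div, mul_one]
    field_simp [abs_ne_zero.2 hx.ne]
  refine blk2 h st (by rw [S.rho_one]; exact div_ne_zero hp.ne hx.ne) (Drp_one S x (h.Zb0 S x r))
    last (fun i h1 h2 => ?_) fun i h1 h2 => ?_
  · obtain rfl : i = x + 1 := by omega
    rw [last, hp.whm]; linarith only [abs_nonneg (ξ (x + 1))]
  · obtain rfl : i = x + 1 := by omega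
    rw [last, hp.whm]
    exact le_add_of_nonneg_right (by (clear * -; positivity))

theorem blk2_block (h : K c) (hB : BLK_s c) {Ex : ExT} {S : Sq} (hS : S.OK c) {ξ : ℤ → ℝ}
    {s x p : ℤ} {r : ℝ} {Ls} (hs : S.St c ξ s) (st : S.Step c Ex ξ s x r p) (hx : S.RInv c ξ s x)
    (hp : S.RInv c ξ s p) (hp' : S.RInv c (S.fr (x + 1)) (x + 1) p) (hb : S.BInv c x Ls p)
    (hW : S.Wp c x p ≤ 2 * r) (drp : S.Drp c x p (20 * S.xp c x p)) : S.Blk2 c ξ s x r p := by
  rcases st.kind with ⟨rfl, -⟩ | ⟨k1, -⟩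
  · exact blk2_one h st hx hp
  have hρ : S.rho ξ x p ≠ 0 := div_ne_zero hp.ne (mul_ne_zero hx.ne hp'.ne)
  obtain ⟨e, b⟩ := hB S ξ s x Ls p hS hs hx hp' hb hρ
  refine blk2 h st hρ (Drp_mono drp ?_) ?_ (fun i h1 h2 => (b i h1 h2).2.2.2.1) fun i h1 h2 => ?_
  · obtain a1 := mul_le_mul_of_nonneg_left
      (S.load_mono c (by linarith only [h.chK.1]) h.chK.2 h.C0 x hW) h.C1
    have a2 := mul_le_mul_of_nonneg_left hW h.ε0.le
    have a3 := mul_le_mul_of_nonneg_left k1 h.ε0.le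
    obtain a4 := mul_nonneg h.ε0.le (show 0 ≤ c.lam by linarith only [h.lam])
    rw [Sq.Zb, max_eq_left (by linarith only [k1, h.lam])]
    unfold Sq.xp Sq.xx Cs.cc
    linarith only [a1, a2, a3, a4]
  · rw [Sq.om, Sq.wp, hp'.whm]
    conv_rhs => rw [e]
    simp only [abs_mul]; ring
  · have := (b i h1 h2).2.2.2.2
    unfold Sq.om
    linarith only [this]

/-- one application of `ins3` -/
theorem ins (h : K c) {Ex : ExT} {S : Sq} {ξ : ℤ → ℝ} {s n p i j : ℤ} {r : ℝ}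
    (st : S.Step c Ex ξ s n r p) (hn : S.RInv c ξ s n) (h0 : s ≤ i) (h1 : i < n) (h2 : n < j)
    (h3 : j ≤ p) : |S.fr (i + 1) j| ≤ (|S.fr (i + 1) n| / |ξ n| +
      4 * Real.exp (r - (1 - c.a) * S.chi c i n) / (c.L * |ξ n|)) * S.wh c ξ s j := by
  obtain hL : 0 < c.L := by linarith only [h.L]
  have hw : 0 < |ξ n| := abs_pos.2 hn.ne
  have a1 := st.ins3 i j h0 h1 h2 h3
  have a2 := (hn.i2 i h0 h1).1
  obtain a3 : S.PB c (2 / 100) i n * S.wh c ξ s i ≤
      2 * Real.exp (-(1 - c.a) * S.chi c i n) * |ξ n| :=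
    a2.trans (by gcongr; exact (h.ff S s i).2)
  obtain a4 : 2 * Real.exp r * (S.PB c (2 / 100) i n * S.wh c ξ s i) / (c.L * |ξ n|) ≤
      4 * Real.exp (r - (1 - c.a) * S.chi c i n) / c.L := by
    rw [div_le_div_iff₀ (by (clear * - hL hw; positivity)) hL, sub_eq_add_neg, Real.exp_add, ← neg_mul]
    obtain this := mul_le_mul_of_nonneg_left a3 (show 0 ≤ 2 * Real.exp r * c.L by positivity)
    linarith only [this]
  refine le_of_mul_le_mul_right (a1.trans ?_) hw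
  obtain e : (|S.fr (i + 1) n| / |ξ n| +
      4 * Real.exp (r - (1 - c.a) * S.chi c i n) / (c.L * |ξ n|)) * S.wh c ξ s j * |ξ n| =
      (|S.fr (i + 1) n| + 4 * Real.exp (r - (1 - c.a) * S.chi c i n) / c.L) * S.wh c ξ s j := by
    field_simp
  rw [e]
  exact mul_le_mul_of_nonneg_right (by linarith only [a4]) (S.wh_nonneg c _ _ _)

theorem d3 (h : K c) {Ex : ExT} {S : Sq} {ξ : ℤ → ℝ} {s m0 m i : ℤ} {Ls} {E B : ℝ}
    (hc : S.Chain c Ex ξ s m0 Ls m) (h0 : s ≤ i) (h1 : i < m0) (hB : 0 ≤ B)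
    (hE : ∀ l, i < l → l ≤ m0 → |S.fr (i + 1) l| ≤ E * S.wh c ξ s l)
    (hz : ∀ z ∈ Ls, Real.exp (z.2 - 5 / 8 * S.chi c i z.1) ≤ B * (c.L * |ξ z.1|)) :
    ∀ l, i < l → l ≤ m →
      |S.fr (i + 1) l| ≤ (E + 32 * B * (1 - Real.exp (-S.chi c i m / 4))) * S.wh c ξ s l := by
  obtain hL : 0 < c.L := by linarith only [h.L]
  induction hc with
  | nil _ =>
    intro l l1 l2
    refine (hE l l1 l2).trans (mul_le_mul_of_nonneg_right ?_ (S.wh_nonneg c _ _ _))
    obtain this : Real.exp (-S.chi c i m0 / 4) ≤ 1 := Real.exp_le_one_iff.2 (by linarith only [h.chi0 S i m0])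
    nlinarith only [hB, this]
  | @cons Ls n r p hc st hp ih =>
    intro l l1 l2
    have ih := ih fun z hz' => hz z (List.mem_cons_of_mem _ hz')
    obtain ⟨hn, hm⟩ := Sq.Chain.rinv c S hc
    have hw : 0 < |ξ n| := abs_pos.2 hn.ne
    obtain pot := h.pot S (show i ≤ n by omega) st.lt
    have e1 := Real.exp_pos (-S.chi c i p / 4)
    have e2 := Real.exp_pos (-S.chi c i n / 4)
    rcases le_or_gt l n with h2 | h2
    · refine (ih l l1 h2).trans (mul_le_mul_of_nonneg_right ?_ (S.wh_nonneg c _ _ _))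
      nlinarith only [hB, pot, e1]
    refine (ins h st hn h0 (by omega) h2 l2).trans
      (mul_le_mul_of_nonneg_right ?_ (S.wh_nonneg c _ _ _))
    obtain a1 := ih n (by omega) le_rfl
    rw [hn.whm, ← div_le_iff₀ hw] at a1
    have a2 := hz (n, r) List.mem_cons_self
    obtain a3 : Real.exp (r - (1 - c.a) * S.chi c i n) ≤
        Real.exp (r - 5 / 8 * S.chi c i n) * Real.exp (-S.chi c i n / 4) := by
      rw [← Real.exp_add]
      exact Real.exp_le_exp.2 (by nlinarith only [h.chi0 S i n, h.a1])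
    obtain a4 : 4 * Real.exp (r - (1 - c.a) * S.chi c i n) / (c.L * |ξ n|) ≤
        4 * B * Real.exp (-S.chi c i n / 4) := by
      rw [div_le_iff₀ (by (clear * - hL hw; positivity))]
      have := mul_le_mul_of_nonneg_right a2 e2.le
      simp only at this
      linarith only [a3, this]
    nlinarith only [hB, pot, a1, a4]

/-- the invariant of the induction -/
structure Inv (c : Cs) (S : Sq) (n m : ℤ) : Prop where
  U : ∀ i, n < i → i ≤ m → S.wp c n i ≤ Real.exp (S.xp c n m) *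
    max (Real.exp 1 * S.AA c (S.fr (n + 1)) (n + 1) m) (S.wp c n m)
  D : ∀ i j, n < i → i ≤ j → j ≤ m → S.wp c n i ≤ Real.exp (20 * S.xp c n m) * S.wp c n j
  B : ∀ i j, n < i → i < j → j ≤ m → S.Bc c (S.wp c n) i j ≤
    Real.exp (19 * S.xp c n m) * (2 - Real.exp (-S.chi c i m / 4))

theorem Inv.start (h : K c) (S : Sq) (n : ℤ) : Inv c S n (n + 1) := by
  have hx := h.xp2 S n (n + 1)
  refine ⟨fun i h1 h2 => ?_, fun i j h1 h2 h3 => (Drp_one S n (by linarith only [hx]) i j h1 h2 h3).1,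
    fun i j h1 h2 h3 => by omega⟩
  obtain rfl : i = n + 1 := by omega
  exact (le_max_right _ _).trans (le_mul_of_one_le_left
    ((wp_pos S h1).le.trans (le_max_right _ _)) (Real.one_le_exp (by linarith only [hx])))

theorem Inv.up (h : K c) {S : Sq} {n m : ℤ} {Ls} (H : Inv c S n m)
    (hr : S.RInv c (S.fr (n + 1)) (n + 1) m) (hb : S.BInv c n Ls m) :
    ∀ i, n < i → i ≤ m → S.wp c n i ≤ Real.exp (2 * S.xp c n m) * S.wp c n m := fun i h1 h2 => by
  have hx := h.xp2 S n m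
  have hw : 0 < S.wp c n m := wp_pos S (by omega)
  have e : S.wp c n m = |S.fr (n + 1) m| := hr.whm
  have a1 : c.ε' ≤ 1 / 10000 := by
    have : c.e3 ^ 4 ≤ (1 / 10) ^ 4 := pow_le_pow_left₀ h.e0.le h.e1 4
    unfold Cs.ε'; linarith only [this]
  obtain a2 : S.sig c (S.fr (n + 1)) (n + 1) m ≤ S.xp c n m - 1 := by
    have := (le_max_left _ _).trans hb.sg_le
    nlinarith only [hx, a1, this]
  obtain a3 : Real.exp 1 * S.AA c (S.fr (n + 1)) (n + 1) m ≤ Real.exp (S.xp c n m) * S.wp c n m := by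
    obtain hA : 0 < S.AA c (S.fr (n + 1)) (n + 1) m := by linarith only [S.one_le_AA c (S.fr (n + 1)) (n + 1) m]
    rw [← Real.exp_log hA, ← Real.exp_log hw, ← Real.exp_add, ← Real.exp_add, e]
    unfold Sq.sig Sq.WW at a2
    exact Real.exp_le_exp.2 (by linarith only [a2])
  obtain a4 : S.wp c n m ≤ Real.exp (S.xp c n m) * S.wp c n m :=
    le_mul_of_one_le_left hw.le (Real.one_le_exp (by linarith only [hx]))
  rw [two_mul, Real.exp_add, mul_assoc]
  exact (H.U i h1 h2).trans (mul_le_mul_of_nonneg_left (max_le a3 a4) (Real.exp_pos _).le)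

theorem Inv.drp (h : K c) {S : Sq} {n m : ℤ} (H : Inv c S n m) : S.Drp c n m (20 * S.xp c n m) :=
  fun i j h1 h2 h3 => ⟨H.D i j h1 h2 h3, fun h4 => (H.B i j h1 h4 h3).trans <| by
    have a1 := Real.add_one_le_exp (S.xp c n m)
    have a2 := Real.exp_pos (-S.chi c i m / 4)
    have e : Real.exp (20 * S.xp c n m) = Real.exp (19 * S.xp c n m) * Real.exp (S.xp c n m) := by
      rw [← Real.exp_add]; congr 1; ring
    rw [e]
    exact mul_le_mul_of_nonneg_left (by linarith only [a1, a2, h.xp2 S n m]) (Real.exp_pos _).le⟩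

/-- depth and slack of a step of a bound run against `xp` at its end -/
theorem small (h : K c) {S : Sq} {n m p : ℤ} {r : ℝ} {Ls} (hp : m < p)
    (hb : S.BInv c n ((m, r) :: Ls) p) :
    r ≤ 15 * S.xp c n p ∧ S.Zb c m r ≤ S.xp c n p / 10 := by
  have hx := h.xp2 S n p
  obtain hc : c.cc ≤ S.xp c n p := by
    have a1 := mul_nonneg h.C1 (S.load_nonneg c n (S.Wp c n p))
    have a2 : 0 ≤ S.Wp c n p := Real.log_nonneg (S.one_le_AA c _ _ _)
    have a3 := mul_nonneg h.ε0.le a2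
    unfold Sq.xp Sq.xx
    linarith only [a1, a3]
  obtain hr : r ≤ 15 * S.xp c n p := by
    by_cases h1 : c.cc ≤ r
    · have a1 := hb.sumr
      obtain a2 : 0 ≤ Sq.sumR c Ls := List.sum_nonneg fun y hy => by
        obtain ⟨z, -, rfl⟩ := List.mem_map.1 hy
        split_ifs with h2
        · linarith only [h2, h.cc2]
        · exact le_rfl
      obtain e : Sq.sumR c ((m, r) :: Ls) = r + Sq.sumR c Ls := by simp [Sq.sumR, h1]
      linarith only [a1, a2, e]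
    · linarith only [hx, hc, not_le.1 h1]
  refine ⟨hr, ?_⟩
  obtain hQ : 0 ≤ c.Q := by
    have := h.a0; have := h.β; have := h.lam
    unfold Cs.Q Cs.bl; positivity
  have a1 : S.load c m (2 * r) ≤ S.NK n p :=
    (hb.loads (m, r) List.mem_cons_self).trans ((S.qu_le_NK hQ n m).trans (S.NK_mono le_rfl hp.le))
  have a2 := hb.nk
  obtain a3 : c.C1 * S.NK n p ≤ S.xp c n p / 400 := by
    have b1 := mul_le_mul_of_nonneg_left a2 h.C1
    obtain b2 := mul_le_mul_of_nonneg_right h.CN (show 0 ≤ S.xp c n p by linarith only [hx])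
    refine le_of_mul_le_mul_left ?_ (show 0 < c.lam by linarith only [h.lam])
    linarith only [b1, b2]
  have a4 := mul_le_mul_of_nonneg_left a1 h.C1
  obtain a5 : max r 0 ≤ 15 * S.xp c n p := max_le hr (by linarith only [hx])
  obtain a6 := mul_le_mul h.ε1 a5 (le_max_right _ _) (by norm_num)
  unfold Sq.Zb
  linarith only [hx, a3, a4, a6]

theorem Inv.step (h : K c) {Ex : ExT} {S : Sq} {n m p : ℤ} {r : ℝ} {Ls} (H : Inv c S n m)
    (hr : S.RInv c (S.fr (n + 1)) (n + 1) m) (hb : S.BInv c n Ls m)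
    (st : S.Step c Ex (S.fr (n + 1)) (n + 1) m r p) (hr' : S.RInv c (S.fr (n + 1)) (n + 1) p)
    (hb' : S.BInv c n ((m, r) :: Ls) p) (b : S.Blk2 c (S.fr (n + 1)) (n + 1) m r p) :
    Inv c S n p := by
  obtain hm : n < m := by linarith only [hr.le]
  have hp := st.lt
  obtain hL : 0 < c.L := by linarith only [h.L]
  obtain ⟨r15, hZ⟩ := small h hp hb'
  have hX := h.xp_mono S n hp.le
  have hx := h.xp2 S n p
  have Z0 := h.Zb0 S m r
  have U' := H.up h hr hb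
  have em : S.wp c n m = |S.fr (n + 1) m| := hr.whm
  have ep : S.wp c n p = |S.fr (n + 1) p| := hr'.whm
  have wpos : ∀ i, n < i → 0 < S.wp c n i := fun i hi => wp_pos S hi
  have bup : ∀ i, m < i → i ≤ p → S.om c (S.fr (n + 1)) m p i ≤ 2 * S.wp c n i := b.up
  obtain blo : ∀ i, m < i → i ≤ p → S.wp c n i ≤ S.om c (S.fr (n + 1)) m p i + S.wp c n m :=
    fun i h1 h2 => (b.lo i h1 h2).trans <| by
      obtain this : Real.exp (-S.chi c m i / 2) ≤ 1 := Real.exp_le_one_iff.2 (by linarith only [h.chi0 S m i])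
      have := mul_le_mul_of_nonneg_left this (abs_nonneg (S.fr (n + 1) m))
      linarith only [em, this]
  have blast : S.om c (S.fr (n + 1)) m p p = S.wp c n p := b.last.trans ep.symm
  have bmono := b.mono
  have bbc := b.bc
  set X := S.xp c n p
  set Z := S.Zb c m r
  set w := S.wp c n
  set o := S.om c (S.fr (n + 1)) m p
  set y := Real.exp X with hy
  obtain y3 : 3 ≤ y := by linarith only [hx, Real.add_one_le_exp X]
  have ypow : ∀ k : ℕ, Real.exp (k * X) = y ^ k := fun k => Real.exp_nat_mul X k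
  obtain hz : 2 * Real.exp Z ≤ y := by
    obtain e : y = Real.exp Z * Real.exp (X - Z) := by rw [← Real.exp_add, hy]; congr 1; ring
    have := Real.add_one_le_exp (X - Z)
    rw [e]; nlinarith only [Real.exp_pos Z, hx, Z0, hZ, y3, e, this]
  have z1 : 1 ≤ Real.exp Z := Real.one_le_exp Z0
  obtain er : Real.exp r ≤ y ^ 15 := by rw [← ypow]; exact Real.exp_le_exp.2 (by exact_mod_cast r15)
  obtain y15 : 1 ≤ y ^ 15 := one_le_pow₀ (by linarith only [y3])
  obtain opos : ∀ i, m < i → 0 ≤ o i := fun i hi =>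
    mul_nonneg (by (clear * -; positivity)) (wp_pos S hi).le
  -- the start of the block against the partner part
  obtain hbase : ∀ i, m < i → i ≤ p → w m ≤ Real.exp Z * y ^ 15 * o i := fun i h1 h2 => by
    have a1 := b.base i h1 h2
    rw [b.eta, ← em] at a1
    obtain a2 : 1 ≤ c.L * Real.exp (-r) * y ^ 15 := by
      obtain e : Real.exp (-r) * Real.exp r = 1 := by rw [← Real.exp_add]; simp
      have := mul_le_mul_of_nonneg_left er (Real.exp_pos (-r)).le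
      nlinarith only [h.L, hL, e, this]
    obtain a3 := mul_le_mul_of_nonneg_right a1 (show 0 ≤ y ^ 15 by linarith only [y15])
    nlinarith only [wpos m hm, hm, a2, a3]
  obtain hdrop : ∀ j, m < j → j ≤ p → w m ≤ y ^ 16 * w j := fun j h1 h2 => by
    have a1 := hbase j h1 h2
    obtain a2 := mul_le_mul_of_nonneg_left (bup j h1 h2) (show 0 ≤ Real.exp Z * y ^ 15 by positivity)
    obtain a3 := mul_le_mul_of_nonneg_right hz
      (show 0 ≤ y ^ 15 * w j from mul_nonneg (by linarith only [y15]) (wpos j (by omega)).le)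
    nlinarith only [a1, a2, a3]
  obtain hA : 0 < S.AA c (S.fr (n + 1)) (n + 1) p := by linarith only [S.one_le_AA c (S.fr (n + 1)) (n + 1) p]
  obtain wA : w m ≤ Real.exp 1 * S.AA c (S.fr (n + 1)) (n + 1) p := by
    have a1 := st.A_lo
    rw [← Real.exp_log hA, ← Real.exp_log (wpos m hm), ← Real.exp_add, em]
    unfold Sq.WW at a1
    exact Real.exp_le_exp.2 (by linarith only [a1, st.r_lo])
  obtain eX : ∀ k : ℕ, Real.exp (k * S.xp c n m) ≤ y ^ k := fun k => by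
    rw [← ypow]; exact Real.exp_le_exp.2 (mul_le_mul_of_nonneg_left hX (Nat.cast_nonneg k))
  obtain e20 : Real.exp (20 * X) = y ^ 20 := by exact_mod_cast ypow 20
  obtain e19 : Real.exp (19 * X) = y ^ 19 := by exact_mod_cast ypow 19
  obtain pw : ∀ k l : ℕ, k ≤ l → y ^ k ≤ y ^ l := fun k l hkl => pow_le_pow_right₀ (by linarith only [y3]) hkl
  refine ⟨fun i h1 h2 => ?_, fun i j h1 h2 h3 => ?_, fun i j h1 h2 h3 => ?_⟩
  · set Mx := max (Real.exp 1 * S.AA c (S.fr (n + 1)) (n + 1) p) (w p)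
    have m1 : Real.exp 1 * S.AA c (S.fr (n + 1)) (n + 1) p ≤ Mx := le_max_left _ _
    have m2 : w p ≤ Mx := le_max_right _ _
    obtain m0 : 0 ≤ Mx := (wpos p (by omega)).le.trans m2
    rcases le_or_gt i m with h4 | h4
    · refine (H.U i h1 h4).trans (mul_le_mul (Real.exp_le_exp.2 hX) (max_le ?_ (wA.trans m1))
        ((wpos m hm).le.trans (le_max_right _ _)) (by linarith only [y3]))
      exact (mul_le_mul_of_nonneg_left (S.AA_mono c _ _ hp.le) (Real.exp_pos _).le).trans m1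
    · have a1 := blo i h4 h2
      have a2 := bmono i p h4 h2 le_rfl
      rw [blast] at a2
      have a3 := mul_le_mul_of_nonneg_left m2 (Real.exp_pos Z).le
      nlinarith only [y3, hz, wA, m1, m0, a1, a2, a3]
  · rw [e20]
    obtain wj := wpos j (by omega)
    rcases le_or_gt j m with h4 | h4
    · exact (H.D i j h1 h2 h4).trans (mul_le_mul_of_nonneg_right (by exact_mod_cast eX 20) wj.le)
    have a0 := hdrop j h4 h3
    rcases le_or_gt i m with h5 | h5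
    · obtain a1 := (U' i h1 h5).trans
        (mul_le_mul_of_nonneg_right (show _ ≤ y ^ 2 by exact_mod_cast eX 2) (wpos m hm).le)
      obtain a2 := mul_le_mul_of_nonneg_left a0 (show 0 ≤ y ^ 2 by positivity)
      obtain a3 := mul_le_mul_of_nonneg_right (pw 18 20 (by norm_num)) wj.le
      obtain e : y ^ 2 * (y ^ 16 * w j) = y ^ 18 * w j := by ring
      linarith only [a1, a2, a3]
    · have a1 := blo i h5 (h2.trans h3)
      have a2 := bmono i j h5 h2 h3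
      have a3 := mul_le_mul_of_nonneg_left (bup j h4 h3) (Real.exp_pos Z).le
      have a4 := mul_le_mul_of_nonneg_right hz wj.le
      obtain a5 : y + y ^ 16 ≤ y ^ 20 := by
        obtain b1 := pw 1 16 (by norm_num)
        obtain b2 := pw 17 20 (by norm_num)
        obtain e : y ^ 17 = y ^ 16 * y := by ring
        obtain this : 0 ≤ y ^ 16 := by positivity
        nlinarith only [y3, b1, b2]
      have a6 := mul_le_mul_of_nonneg_right a5 wj.le
      linarith only [a0, a1, a2, a3, a4, a6]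
  · rw [e19]
    obtain wj := wpos j (by omega)
    have wi := wpos i h1
    obtain y19 : 0 ≤ y ^ 19 := by positivity
    have e1 := Real.exp_pos (-S.chi c i p / 4)
    obtain e1' : Real.exp (-S.chi c i p / 4) ≤ 1 := Real.exp_le_one_iff.2 (by linarith only [h.chi0 S i p])
    obtain one : y ^ 19 ≤ y ^ 19 * (2 - Real.exp (-S.chi c i p / 4)) :=
      le_mul_of_one_le_right y19 (by linarith only [e1'])
    rcases lt_trichotomy i m with h5 | rfl | h5
    · have pot := h.pot S h5.le hp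
      have e2 := Real.exp_pos (-S.chi c i m / 4)
      obtain e2' : Real.exp (-S.chi c i m / 4) ≤ 1 := Real.exp_le_one_iff.2 (by linarith only [h.chi0 S i m])
      obtain old : ∀ j, i < j → j ≤ m → S.Bc c w i j ≤ y ^ 19 * (2 - Real.exp (-S.chi c i m / 4)) :=
        fun j j1 j2 => (H.B i j h1 j1 j2).trans
          (mul_le_mul_of_nonneg_right (by exact_mod_cast eX 19) (by linarith only [e1, pot, e2']))
      rcases le_or_gt j m with h4 | h4
      · exact (old j h2 h4).trans (mul_le_mul_of_nonneg_left (by linarith only [e1, pot]) y19)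
      obtain a1 := ins h st hr (by omega) h5 h4 h3
      rw [← em] at a1
      have a2 := old m h5 le_rfl
      obtain a3 : w i ≤ 2 * Real.exp (c.a * S.chi c i m) * w m := by
        rw [em]
        exact (hr.i2 i (by omega) h5).2.trans (by gcongr; exact (h.ff S _ i).2)
      have wm := wpos m hm
      obtain a4 : Real.exp (r - (1 - c.a) * S.chi c i m) * Real.exp (c.a * S.chi c i m) ≤
          y ^ 15 * Real.exp (-S.chi c i m / 4) := by
        refine le_trans ?_ (mul_le_mul_of_nonneg_right er e2.le)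
        rw [← Real.exp_add, ← Real.exp_add]
        exact Real.exp_le_exp.2 (by nlinarith only [h.chi0 S i m, h.a1, e1, pot, e2'])
      obtain a5 : S.Bc c w i j ≤ S.Bc c w i m +
          4 * Real.exp (r - (1 - c.a) * S.chi c i m) * (w i / w m) := by
        unfold Sq.Bc
        rw [div_le_iff₀ wj]
        refine (mul_le_mul_of_nonneg_right (mul_le_mul_of_nonneg_right a1 hL.le) wi.le).trans_eq ?_
        change _ * w j * _ * _ = _
        field_simp
      obtain a6 : w i / w m ≤ 2 * Real.exp (c.a * S.chi c i m) := by rwa [div_le_iff₀ wm]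
      obtain a7 := mul_le_mul_of_nonneg_left a6
        (show 0 ≤ 4 * Real.exp (r - (1 - c.a) * S.chi c i m) by positivity)
      obtain a8 : 64 * y ^ 15 ≤ y ^ 19 := by
        obtain b1 : (3 : ℝ) ^ 4 ≤ y ^ 4 := pow_le_pow_left₀ (by norm_num) y3 4
        obtain e : y ^ 19 = y ^ 4 * y ^ 15 := by ring
        nlinarith only [y15, e1, pot, e2', b1]
      have a9 := mul_le_mul_of_nonneg_right a8 e2.le
      have a10 := mul_le_mul_of_nonneg_left pot y19
      linarith only [a2, a4, a5, a7, a9, a10]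
    · refine le_trans ?_ one
      have a1 := st.ins1 j h2 h3
      rw [← em] at a1
      unfold Sq.Bc
      rw [div_le_iff₀ wj]
      refine a1.trans (mul_le_mul_of_nonneg_right ?_ wj.le)
      obtain b2 := pw 16 19 (by norm_num)
      obtain e : y ^ 16 = y ^ 15 * y := by ring
      nlinarith only [y3, er, y15, b2]
    · refine le_trans ?_ one
      have a1 := bbc i j h5 h2 h3
      obtain a2 := mul_le_mul_of_nonneg_left (bup j (by omega) h3) (Real.exp_pos Z).le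
      have a3 := mul_le_mul_of_nonneg_right hz wj.le
      obtain a4 : w i ≤ y ^ 16 * o i := by
        obtain b1 := blo i h5 (by omega)
        obtain b2 := hbase i h5 (by omega)
        obtain b3 : 1 + Real.exp Z * y ^ 15 ≤ y ^ 16 := by
          obtain e : y ^ 16 = y * y ^ 15 := by ring
          nlinarith only [y3, hz, y15]
        have b4 := mul_le_mul_of_nonneg_right b3 (opos i h5)
        linarith only [b1, b2, b4]
      unfold Sq.Bc
      rw [div_le_iff₀ wj]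
      obtain a5 := mul_le_mul_of_nonneg_left a4 (show 0 ≤ |S.fr (i + 1) j| * c.L by (clear * - hL; positivity))
      obtain a6 : |S.fr (i + 1) j| * c.L * o i ≤ y * w j := by linarith only [a1, a2, a3]
      obtain a7 := mul_le_mul_of_nonneg_left a6 (show 0 ≤ y ^ 16 by positivity)
      obtain a8 := mul_le_mul_of_nonneg_right (pw 17 19 (by norm_num)) wj.le
      obtain e : y ^ 16 * (y * w j) = y ^ 17 * w j := by ring
      linarith only [a5, a7, a8]

theorem main (h : K c) (hB : B1_s c) (hk : BLK_s c) {Ex : ExT} {S : Sq} (hS : S.OK c) {ξ s P Ls m}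
    (hR : S.Run c Ex ξ s P Ls m) : S.St c ξ s →
      (∀ x r L, Ls = (x, r) :: L → S.Blk2 c ξ s x r m) ∧
      ∀ ξ0 n r, ξ = S.fr (n + 1) → s = n + 1 → P = S.PBd c Ex ξ0 n → S.Out c ξ0 n →
        S.Bd c ξ0 n m r → Inv c S n m := by
  obtain stp : ∀ {ξ s P Ls n r p}, S.St c ξ s → S.Run c Ex ξ s P ((n, r) :: Ls) p →
      S.Step c Ex ξ s n r p ∧ S.RInv c ξ s p := fun hs hR => by
    obtain ⟨h1, h2⟩ := (hB Ex S hS).1 _ _ _ _ _ hs hR
    cases h1 with
    | cons _ st _ => exact ⟨st, h2⟩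
  induction hR with
  | start ξ s P =>
    refine fun _ => ⟨fun _ _ _ e => by simp at e, ?_⟩
    rintro ξ0 n r - rfl - - -
    exact Inv.start h S n
  | @shallow ξ s P Ls n hR e1 e2 ih =>
    intro hs
    have hn := ((hB Ex S hS).1 _ _ _ _ _ hs hR).2
    obtain ⟨st, hp⟩ := stp hs (hR.shallow e1 e2)
    have b := blk2_one h st hn hp
    refine ⟨fun x r L e => by cases e; exact b, ?_⟩
    rintro ξ0 n0 r rfl rfl rfl ho hb
    exact ((ih hs).2 ξ0 n0 _ rfl rfl rfl ho e2.1).step h hn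
      ((hB Ex S hS).2.1 _ _ _ _ _ ho hR e2.1) st hp
      ((hB Ex S hS).2.1 _ _ _ _ _ ho (hR.shallow e1 e2) hb) b
  | @block ξ s P Ls n Ls' p r' hR hR' e1 e2 e3 ih ih' =>
    intro hs
    have hn := ((hB Ex S hS).1 _ _ _ _ _ hs hR).2
    obtain ⟨st, hp⟩ := stp hs (hR.block hR' e1 e2 e3)
    have ho := B1.out_of_rinv h.lam hs hn
    obtain hs' := B1.st_fr c S (show 0 ≤ n + 1 by linarith only [ho.1])
    obtain b := blk2_block h hk hS hs st hn hp ((hB Ex S hS).1 _ _ _ _ _ hs' hR').2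
      ((hB Ex S hS).2.1 _ _ _ _ _ ho hR' e1.1) (B1.wp_le h.lam (by linarith only [h.L]) e1.1 e2)
      (((ih' hs').2 ξ n r' rfl rfl rfl ho e1.1).drp h)
    refine ⟨fun x r L e => by cases e; exact b, ?_⟩
    rintro ξ0 n0 r rfl rfl rfl ho0 hb
    exact ((ih hs).2 ξ0 n0 _ rfl rfl rfl ho0 e3.1).step h hn
      ((hB Ex S hS).2.1 _ _ _ _ _ ho0 hR e3.1) st hp
      ((hB Ex S hS).2.1 _ _ _ _ _ ho0 (hR.block hR' e1 e2 e3) hb) b

end DRP

open DRP in
theorem drp : Hier fun c => B1_s c → BLK_s c → DRP_s c := hK.mono fun c h hB hk Ex S hS => by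
  refine ⟨fun ξ n Ls m r ho hR hb => ?_, fun ξ s P Ls x r p hs hR => ?_,
    fun ξ s m0 Ls m i E B _ hc h0 h1 hB hE hz l l1 l2 => ?_⟩
  · have hs := B1.st_fr c S (show 0 ≤ n + 1 by linarith only [ho.1])
    have H := (main h hB hk hS hR hs).2 ξ n r rfl rfl rfl ho hb
    exact ⟨H.drp h, H.up h ((hB Ex S hS).1 _ _ _ _ _ hs hR).2 ((hB Ex S hS).2.1 _ _ _ _ _ ho hR hb)⟩
  · exact (main h hB hk hS hR hs).1 x r Ls rfl
  · refine (d3 h hc h0 h1 hB hE hz l l1 l2).trans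
      (mul_le_mul_of_nonneg_right ?_ (S.wh_nonneg c _ _ _))
    nlinarith only [Real.exp_pos (-S.chi c i m / 4), hB]

end
end Pool.Agent.MP_9cbfe4_an

end

/-! ### Part DS0 -/

section

/-! Row DS0: the numbers of a bound run in terms of `cW = min (W, C1 l + ε W + cc)`. -/

namespace Pool.Agent.MP_9cbfe4_an

open Finset Filter Topology

noncomputable section

/-- the scale of the slack at level `y` for the load bound `l` -/
def Cs.cW (c : Cs) (l y : ℝ) : ℝ := min y (c.C1 * l + c.ε * y + c.cc)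

namespace Cs
variable {c : Cs} {l : ℝ}
theorem cW_le (y : ℝ) : c.cW l y ≤ y := min_le_left _ _
theorem cW_le' (y : ℝ) : c.cW l y ≤ c.C1 * l + c.ε * y + c.cc := min_le_right _ _
theorem cW_mono (h0 : 0 ≤ c.ε) {y y' : ℝ} (h : y ≤ y') : c.cW l y ≤ c.cW l y' :=
  min_le_min h (by nlinarith only [h0, h])
theorem cW_lip (h1 : c.ε ≤ 1) {y y' : ℝ} (h : y ≤ y') : c.cW l y' ≤ c.cW l y + (y' - y) := by
  rw [← sub_le_iff_le_add]
  exact le_min (by linarith only [cW_le (c := c) (l := l) y'])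
    (by nlinarith only [h1, h, cW_le' (c := c) (l := l) y'])
theorem le_cW (h1 : c.ε ≤ 1) (hl : 0 ≤ c.C1 * l) (hc : 0 ≤ c.cc) {y : ℝ} (hy : 0 ≤ y) :
    c.ε * y ≤ c.cW l y := le_min (by nlinarith only [h1, hy]) (by linarith only [hl, hc])
theorem cW_scale (h1 : c.ε ≤ 1) (hl : 0 ≤ c.C1 * l) (hc : 0 ≤ c.cc) {k b y : ℝ} (hk : 1 ≤ k)
    (hb : 0 ≤ b) : c.cW l (k * y + b) ≤ k * c.cW l y + b := by
  have a1 := cW_le (c := c) (l := l) (k * y + b)
  have a2 := cW_le' (c := c) (l := l) (k * y + b)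
  rcases min_choice y (c.C1 * l + c.ε * y + c.cc) with e | e
  · rw [show c.cW l y = y from e]; exact a1
  · rw [show c.cW l y = _ from e]; nlinarith only [h1, hl, hc, hk, hb, a2]
end Cs

namespace Sq
variable (c : Cs) (S : Sq)

/-- numbers at a free time `m` of the partner run of the fold `n` -/
structure Fr0 (n : ℤ) (l : ℝ) (m : ℤ) : Prop where
  sg : S.sg c (S.fr (n + 1)) (n + 1) m ≤ 11 * c.ε' * (c.cW l (S.Wp c n m) + c.cc)
  lo : S.Wp c n m - 11 * c.ε' * (c.cW l (S.Wp c n m) + c.cc) ≤ Real.log |S.fr (n + 1) m|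
  hi : Real.log |S.fr (n + 1) m| ≤ S.Wp c n m + c.lam + 4
  nk : c.lam * S.NK n m ≤ c.CN * (c.cW l (S.Wp c n m) + c.lam)
  time : ((m - n : ℤ) : ℝ) ≤ Real.exp (2 * c.ε * c.cW l (S.Wp c n m) + 5)

/-- numbers of the step from the free time `x` (depth `r`) to the next free time `p` -/
structure St0 (n : ℤ) (l : ℝ) (x : ℤ) (r : ℝ) (p : ℤ) : Prop where
  lo : Real.log |S.fr (n + 1) x| + r ≤ S.Wp c n p ∧ S.Wp c n x ≤ S.Wp c n p ∧ -1 ≤ r
  hi : S.Wp c n p ≤ max (S.Wp c n x) (Real.log |S.fr (n + 1) x| + r) + 5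
  r_hi : r ≤ c.κ * (S.Wp c n x + c.lam + 4) + c.c1
  W_hi : S.Wp c n p ≤ (1 + c.κ) * (S.Wp c n x + 2 * c.lam)
  u_hi : c.cW l (S.Wp c n p) ≤ (1 + c.κ) * (c.cW l (S.Wp c n x) + 2 * c.lam)
  r_u : r ≤ 2 * (1 + c.κ) * (c.cW l (S.Wp c n x) + 2 * c.lam)
  ld : c.C1 * S.load c x (2 * r) ≤ c.ε * (c.cW l (S.Wp c n x) + c.lam)
  zb : S.Zb c x r ≤ c.e3 ^ 19 * (c.cW l (S.Wp c n x) + c.lam)
  zb' : c.CN * S.Zb c x r ≤ c.e3 ^ 17 * (c.cW l (S.Wp c n x) + c.lam)
  low : c.C0 * max (S.Wp c n x) (Real.log |S.fr (n + 1) x| + r) ≤ c.bl →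
    r ≤ 2 * c.ε * S.Wp c n x + 3 * c.ε * c.lam
  p7 : c.lam ≤ r → c.lam ≤ S.Wp c n x
  p6 : ∀ Cw, 0 < Cw → 4 * Cw * c.ε ≤ 1 → S.Wp c n x ≤ Cw * (r - c.lam) →
    c.bl ≤ 2 * c.C0 * (Cw + 1) * (r - c.lam)
  d5 : ∀ δ, 0 ≤ δ → δ * c.cW l (S.Wp c n x) + c.lam ≤ r →
    c.M1 * δ * c.ε * S.Wp c n p ≤ 2 * (1 + c.κ) * S.chi c x p
end Sq

/-- row DS0 -/
def DS0_s (c : Cs) : Prop := c.θb / (1 - c.θb) < c.κ →
  ∀ Ex : ExT, (∀ S ξ n Ls p r, Ex S ξ n Ls p r → Cstar c S ξ n Ls p r) →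
  ∀ (S : Sq) ξ n l, S.OK c → S.Out c ξ n →
  (∀ Ls m r, S.Run c Ex (S.fr (n + 1)) (n + 1) (S.PBd c Ex ξ n) Ls m → S.Bd c ξ n m r →
    S.load c n (S.Wp c n m) ≤ l → S.Fr0 c n l m) ∧
  (∀ Ls x r p r', S.Run c Ex (S.fr (n + 1)) (n + 1) (S.PBd c Ex ξ n) ((x, r) :: Ls) p →
    S.Bd c ξ n p r' → S.load c n (S.Wp c n p) ≤ l → S.Fr0 c n l x ∧ S.St0 c n l x r p)

namespace DS0

structure K (c : Cs) : Prop where
  k : DRP.K c
  θ1 : c.θb < 1
  θ0 : 0 < c.θb
  κ0 : 0 < c.κ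
  C0 : 1 ≤ c.C0
  e3 : c.e3 ≤ 1 / (400 * (1 + c.κ))
  εe : c.ε = c.e3 ^ 20
  d0 : 0 < c.d1
  d1 : c.d1 ≤ c.ε ^ 2 / (3 + 6 * c.C0 * c.C1 + 3 * c.C1)
  M : 0 ≤ c.M1
  β : 6 * c.C0 * (1 + c.κ) ≤ c.β
  l1 : 200 * c.C0 * c.C1 * c.Γ ≤ c.lam
  l2 : c.C1 * c.CN / c.ε ≤ c.lam
  l3 : 1 / c.ε ^ 2 ≤ c.lam
  l4 : 20 ≤ c.lam

theorem hK : Hier K := by
  have h0 := Hier.C0_ge fun _ _ _ _ => 1
  obtain h1 := Hier.e3_le (fun c => 1 / (400 * (1 + c.κ))) (fun _ _ _ _ _ _ _ _ => rfl)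
    (Hier.base.mono fun c h => by have := h.2.2.2.2.1; positivity)
  obtain h2 := Hier.d1_le (fun c => c.ε ^ 2 / (3 + 6 * c.C0 * c.C1 + 3 * c.C1))
    (fun _ _ _ _ _ => rfl) (DRP.hK.mono fun c h => by
      have := h.ε0; have := h.C0; have := h.C1; (rename_i zq1 zq0; clear * - zq1 zq0 this; positivity))
  have h3 := Hier.M1_ge (fun _ => 0) fun _ _ _ _ => rfl
  have h4 := Hier.β_ge (fun c => 6 * c.C0 * (1 + c.κ)) fun _ _ _ => rfl
  have h5 := Hier.lam_ge (fun c => 200 * c.C0 * c.C1 * c.Γ) fun _ _ => rfl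
  have h6 := Hier.lam_ge (fun c => c.C1 * c.CN / c.ε) fun _ _ => rfl
  have h7 := Hier.lam_ge (fun c => 1 / c.ε ^ 2) fun _ _ => rfl
  have h8 := Hier.lam_ge (fun _ => 20) fun _ _ => rfl
  refine (DRP.hK.and (Hier.base.and (h0.and (h1.and (Hier.ε_eq.and (h2.and (h3.and (h4.and
    (h5.and (h6.and (h7.and h8))))))))))).mono ?_
  rintro c ⟨k, b, h0, h1, he, h2, h3, h4, h5, h6, h7, h8⟩
  exact ⟨k, b.2.2.2.1, b.2.2.1, b.2.2.2.2.1, h0, h1.2, he, h2.1, h2.2, h3, h4, h5, h6, h7, h8⟩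

variable {c : Cs}

theorem Wp0 (S : Sq) (n m : ℤ) : 0 ≤ S.Wp c n m := Real.log_nonneg (S.one_le_AA c _ _ _)

theorem K.εκ (h : K c) : 400 * (1 + c.κ) * c.ε ≤ c.e3 ^ 19 ∧ c.e3 ^ 19 ≤ 1 := by
  have h0 := h.k.e0
  have h1 := h.e3
  have := h.κ0
  rw [le_div_iff₀ (by positivity)] at h1
  refine ⟨?_, pow_le_one₀ h0.le (by linarith only [h.k.e1])⟩
  obtain e : c.e3 ^ 20 = c.e3 * c.e3 ^ 19 := by ring
  obtain p : 0 < c.e3 ^ 19 := by positivity
  rw [h.εe, e]; nlinarith only [h1, p]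

theorem free (h : K c) (hB : B1_s c) (hN : NUM_s c) {Ex : ExT} {S : Sq} {ξ : ℤ → ℝ} {n m : ℤ}
    {l r : ℝ} {Ls} (hS : S.OK c) (ho : S.Out c ξ n)
    (hR : S.Run c Ex (S.fr (n + 1)) (n + 1) (S.PBd c Ex ξ n) Ls m) (hb : S.Bd c ξ n m r)
    (hl : S.load c n (S.Wp c n m) ≤ l)
    (ev : S.evs c (S.fr (n + 1)) (n + 1) Ls ≤ c.θb * S.Wp c n m + c.cc)
    (sg : S.sg c (S.fr (n + 1)) (n + 1) m ≤ 11 * c.ε' * (S.Wp c n m + c.cc)) : S.Fr0 c n l m := by
  have k := h.k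
  obtain hs := B1.st_fr c S (show 0 ≤ n + 1 by linarith only [ho.1])
  obtain ⟨ch, hr⟩ := (hB Ex S hS).1 _ _ _ _ _ hs hR
  have bi := (hB Ex S hS).2.1 _ _ _ _ _ ho hR hb
  have W0 := Wp0 (c := c) S n m
  have l0 := S.load_nonneg c n (S.Wp c n m)
  have cc := k.cc2
  have lam := h.l4
  have ε0 := k.ε0
  have ε1 := k.ε1
  obtain hx : S.xp c n m ≤ c.C1 * l + c.ε * S.Wp c n m + c.cc := by
    have := mul_le_mul_of_nonneg_left hl k.C1
    unfold Sq.xp Sq.xx; linarith only [this]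
  obtain e' : 0 ≤ c.ε' := by unfold Cs.ε'; exact pow_nonneg k.e0.le 4
  obtain CN : 0 ≤ c.CN := by unfold Cs.CN; (clear * -; positivity)
  obtain ccl : c.cc ≤ c.lam := by unfold Cs.cc; nlinarith only [lam, ε0, ε1]
  obtain hu : c.ε * S.Wp c n m ≤ c.cW l (S.Wp c n m) :=
    Cs.le_cW (by linarith only [ε0, ε1]) (mul_nonneg k.C1 (l0.trans hl)) (by linarith only [cc, ε0, ε1]) W0
  obtain s1 : S.sg c (S.fr (n + 1)) (n + 1) m ≤ 11 * c.ε' * (c.cW l (S.Wp c n m) + c.cc) := by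
    rcases min_choice (S.Wp c n m) (c.C1 * l + c.ε * S.Wp c n m + c.cc) with e | e
    · rw [show c.cW l (S.Wp c n m) = _ from e]; exact sg
    · rw [show c.cW l (S.Wp c n m) = _ from e]
      exact bi.sg_le.trans (mul_le_mul_of_nonneg_left (by linarith only [cc, ε0, ε1, hx]) (by (clear * - e'; positivity)))
  obtain hL : 0 < c.L := by linarith only [ε0, ε1, k.L]
  refine ⟨s1, ?_, ?_, ?_, ?_⟩
  · have := (le_max_left _ _).trans s1
    unfold Sq.sig at this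
    unfold Sq.Wp at this ⊢
    linarith only [this]
  · rcases hr.le.eq_or_lt with e | e
    · rw [← e, S.fr_self, abs_one, Real.log_one, e]; linarith only [W0, lam, ε0, ε1]
    obtain ⟨a1, a2⟩ := (Sq.cert_wh hS k.k1 k.k2 (by linarith only [lam, ε0, ε1]) k.chK.2 hs hr.le).2.2 (m - 1)
      (by omega)
    rw [sub_add_cancel] at a1 a2
    rw [hr.whm] at a1
    obtain hA : 0 < S.AA c (S.fr (n + 1)) (n + 1) m := by
      linarith only [ε0, ε1, S.one_le_AA c (S.fr (n + 1)) (n + 1) m]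
    obtain a3 : |S.fr (n + 1) m| ≤ 36 * (c.L * S.AA c (S.fr (n + 1)) (n + 1) m) := by nlinarith only [ε0, ε1, hL, a1, a2]
    have a4 := Real.log_le_log (abs_pos.2 hr.ne) a3
    rw [Real.log_mul (by norm_num) (by (clear * - hL hA; positivity)), Real.log_mul hL.ne' hA.ne'] at a4
    obtain a5 : Real.log 36 ≤ 4 := by
      rw [Real.log_le_iff_le_exp (by norm_num)]
      obtain e4 : Real.exp 4 = Real.exp 1 ^ 4 := by rw [← Real.exp_nat_mul]; norm_num
      obtain this : (2.5 : ℝ) ^ 4 ≤ Real.exp 1 ^ 4 :=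
        pow_le_pow_left₀ (by norm_num) (by linarith only [Real.exp_one_gt_d9, ε0, ε1]) 4
      rw [e4]; linarith only [ε0, ε1, this]
    unfold Sq.Wp Sq.WW Cs.lam
    linarith only [a4, a5]
  · rcases min_choice (S.Wp c n m) (c.C1 * l + c.ε * S.Wp c n m + c.cc) with e | e
    · rw [show c.cW l (S.Wp c n m) = _ from e]
      obtain hQ : 0 ≤ c.Q := by
        have := k.a0; have := k.β
        unfold Cs.Q Cs.bl; (rename_i zq0; clear * - zq0 this lam; positivity)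
      obtain a1 := (hN Ex S _ (n + 1) (n + 1) Ls m c.Q n _ hS hs.1 le_rfl (by omega) (by linarith only [hQ])
        le_rfl ch bi.loads rfl).2.2.1
      obtain q0 : S.qu c.Q n (n + 1) = 0 := by
        rw [S.qu_succ _ le_rfl, S.qu_self, bi.kz.1, max_eq_right (by linarith only [hQ])]
      obtain g0 : S.sg c (S.fr (n + 1)) (n + 1) (n + 1) = 0 := by
        simp [Sq.sg, Sq.sig, Sq.WW, S.AA_self, S.fr_self]
      rw [q0, g0, if_neg (by linarith only [bi.kz.2.2, ε0, ε1])] at a1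
      rw [S.NK_add (show n ≤ n + 1 by omega) hr.le, S.NK_one, bi.kz.1, zero_add]
      have a2 := mul_le_mul_of_nonneg_left ev CN
      have a3 := mul_le_mul_of_nonneg_left h.l1 CN
      have a4 := mul_le_mul_of_nonneg_left ccl CN
      obtain a5 := mul_le_mul_of_nonneg_left
        (show c.θb * S.Wp c n m ≤ S.Wp c n m by nlinarith only [h.θ1, W0]) CN
      have a6 := mul_nonneg CN W0
      linarith only [a1, a2, a3, a4, a5, a6]
    · rw [show c.cW l (S.Wp c n m) = _ from e]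
      exact bi.nk.trans (mul_le_mul_of_nonneg_left (by linarith only [lam, ε0, ε1, hx]) CN)
  · set u := c.cW l (S.Wp c n m) with hu'
    have u0 : 0 ≤ u := (mul_nonneg ε0.le W0).trans hu
    have C0 := k.C0
    have C1 := k.C1
    have d0 := h.d0
    have d1 := h.d1
    rw [le_div_iff₀ (by (clear * - C0 C1; positivity))] at d1
    have p1 := mul_nonneg d0.le (mul_nonneg C0 C1)
    have p2 := mul_nonneg d0.le C1
    obtain ε2 : c.ε ^ 2 ≤ c.ε := by nlinarith only [ε0, ε1, d0, d1, p1, p2]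
    obtain a1 : c.d1 / 2 * S.Wp c n m + 3 * c.d1 * c.C1 * S.load c n (S.Wp c n m) ≤ c.ε * u + 1 := by
      rcases min_choice (S.Wp c n m) (c.C1 * l + c.ε * S.Wp c n m + c.cc) with e | e
      · obtain hQ : 0 ≤ c.Q := by
          have := k.a0; have := k.β
          unfold Cs.Q Cs.bl; (rename_i zq0; clear * - zq0 this lam; positivity)
        obtain b1 := S.load_le c (by linarith only [ε1, d0, d1, p1, p2, ε2, k.chK.1]) k.chK.2 C0 hQ n (S.Wp c n m)
        rw [max_eq_left W0] at b1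
        have b2 := mul_le_mul_of_nonneg_left b1 p2
        obtain b3 : c.d1 / 2 + 6 * (c.d1 * (c.C0 * c.C1)) ≤ c.ε := by nlinarith only [d0, d1, p2, ε2]
        have b4 := mul_le_mul_of_nonneg_right b3 W0
        rw [hu', show c.cW l (S.Wp c n m) = _ from e]
        nlinarith only [ε1, d0, d1, p1, p2, ε2, b2, b4]
      · have b2 := mul_le_mul_of_nonneg_left hl p2
        obtain b3 : 3 * c.d1 ≤ c.ε ^ 2 := by nlinarith only [d1, p1, p2]
        have b4 := mul_le_mul_of_nonneg_right b3 W0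
        have b5 := mul_le_mul_of_nonneg_right (b3.trans ε2) (mul_nonneg C1 (l0.trans hl))
        have b6 := mul_nonneg d0.le W0
        obtain b7 := mul_nonneg ε0.le (show 0 ≤ c.cc by linarith only [cc, ε1, d0, d1, p1, p2, ε2])
        rw [hu', show c.cW l (S.Wp c n m) = _ from e]
        nlinarith only [ε1, d0, d1, p1, p2, ε2, b2, b4, b5, b6, b7]
    obtain a2 : S.Wp c n m / c.lam ≤ c.ε * u := by
      have b1 := h.l3
      rw [div_le_iff₀ (by positivity)] at b1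
      rw [div_le_iff₀ (by linarith only [lam, ε1, d0, d1, p1, p2, ε2])]
      have b2 := mul_le_mul_of_nonneg_right b1 W0
      obtain b3 := mul_le_mul_of_nonneg_left hu (show 0 ≤ c.ε * c.lam by (clear * - ε0 lam; positivity))
      nlinarith only [b2, b3]
    obtain a3 : (Ls.length : ℝ) ≤ 10 * Real.exp (c.ε * u) := by
      obtain e : 10 * (S.Wp c n m + c.lam) / c.lam = 10 * (S.Wp c n m / c.lam + 1) := by
        field_simp
      have := Real.add_one_le_exp (c.ε * u)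
      linarith only [bi.len, a2, e, this]
    obtain a4 := mul_le_mul a3 (Real.exp_le_exp.2 a1) (Real.exp_pos _).le (by positivity)
    obtain e1 : Real.exp (c.ε * u) * Real.exp (c.ε * u + 1) = Real.exp (2 * c.ε * u + 1) := by
      rw [← Real.exp_add]; congr 1; ring
    obtain e2 : Real.exp (2 * c.ε * u + 5) = Real.exp (2 * c.ε * u + 1) * Real.exp 1 ^ 4 := by
      rw [← Real.exp_nat_mul, ← Real.exp_add]; congr 1; push_cast; ring
    obtain a5 : (2.5 : ℝ) ^ 4 ≤ Real.exp 1 ^ 4 :=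
      pow_le_pow_left₀ (by norm_num) (by linarith only [Real.exp_one_gt_d9, ε1, d0, d1, p1, p2, ε2]) 4
    obtain a6 : 1 ≤ Real.exp (2 * c.ε * u + 1) := Real.one_le_exp (by (clear * - ε0 u0; positivity))
    have a7 := bi.i7
    rw [e2]
    nlinarith only [ε0, ε1, d0, d1, p1, p2, ε2, a4, e1, a5, a6, a7]

theorem step (h : K c) {Ex : ExT} {S : Sq} {n x p : ℤ} {l r : ℝ} {Ls}
    (st : S.Step c Ex (S.fr (n + 1)) (n + 1) x r p) (hr : S.RInv c (S.fr (n + 1)) (n + 1) x)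
    (F : S.Fr0 c n l x) (hl : S.load c n (S.Wp c n p) ≤ l) (bi : S.BInv c n ((x, r) :: Ls) p)
    (c1 : r ≤ c.κ * S.Wt c (S.fr (n + 1)) (n + 1) x 0 + c.c1)
    (c3 : r ≤ 11 / 10 * S.xx c n (S.Wt c (S.fr (n + 1)) (n + 1) x r) + c.cc) :
    S.St0 c n l x r p := by
  have k := h.k
  have W0 := Wp0 (c := c) S n x
  have lam := h.l4
  have ε0 := k.ε0
  have ε1 := k.ε1
  have κ0 := h.κ0
  obtain ⟨εκ, e19⟩ := h.εκ
  have l0 : 0 ≤ c.C1 * l := mul_nonneg k.C1 ((S.load_nonneg c n _).trans hl)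
  have cc := k.cc2
  have ecc : c.cc = c.ε * c.lam / 20 := rfl
  have ec1 : c.c1 = c.ε * c.lam / 2 := rfl
  obtain εl : c.ε * c.lam ≤ c.lam / 20000 := by nlinarith only [lam, ε1]
  obtain εl0 : 0 ≤ c.ε * c.lam := by positivity
  have hi := F.hi
  have A1 := S.one_le_AA c (S.fr (n + 1)) (n + 1) x
  obtain mo : S.Wp c n x ≤ S.Wp c n p := Real.log_le_log (by linarith only [ε0, ε1, A1]) (S.AA_mono c _ _ st.lt.le)
  have lo : Real.log |S.fr (n + 1) x| + r ≤ S.Wp c n p := st.A_lo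
  have eT : ∀ r, S.Wt c (S.fr (n + 1)) (n + 1) x r =
      max (S.Wp c n x) (Real.log |S.fr (n + 1) x| + r) := fun _ => rfl
  rw [eT] at c1 c3
  obtain hA : S.Wp c n p ≤ max (S.Wp c n x) (Real.log |S.fr (n + 1) x| + r) + 5 := by
    set T := max (S.Wp c n x) (Real.log |S.fr (n + 1) x| + r)
    obtain a1 : S.AA c (S.fr (n + 1)) (n + 1) x ≤ Real.exp T := by
      rw [← Real.exp_log (show 0 < S.AA c (S.fr (n + 1)) (n + 1) x by linarith only [ε0, ε1, A1])]
      exact Real.exp_le_exp.2 (le_max_left _ _)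
    obtain a2 : |S.fr (n + 1) x| * Real.exp r ≤ Real.exp T := by
      rw [← Real.exp_log (abs_pos.2 hr.ne), ← Real.exp_add]
      exact Real.exp_le_exp.2 (le_max_right _ _)
    obtain e5 : Real.exp (T + 5) = Real.exp T * Real.exp 1 ^ 5 := by
      rw [← Real.exp_nat_mul, ← Real.exp_add]; norm_num
    obtain a3 : (2.6 : ℝ) ^ 5 ≤ Real.exp 1 ^ 5 :=
      pow_le_pow_left₀ (by norm_num) (by linarith only [Real.exp_one_gt_d9, ε0, ε1]) 5
    have a4 := st.A_hi
    have a5 := Real.exp_pos T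
    unfold Sq.Wp Sq.WW
    rw [Real.log_le_iff_le_exp (by linarith only [S.one_le_AA c (S.fr (n + 1)) (n + 1) p, ε0, ε1]), e5]
    nlinarith only [ε0, ε1, A1, a1, a2, a3, a4]
  set W := S.Wp c n x
  set W' := S.Wp c n p
  set g := Real.log |S.fr (n + 1) x|
  set u := c.cW l W with hu'
  obtain hu : c.ε * W ≤ u := Cs.le_cW (by linarith only [ε0, ε1]) l0 (by linarith only [ε0, ε1, cc]) W0
  have u0 : 0 ≤ u := (mul_nonneg ε0.le W0).trans hu
  have TW : max W (g + r) ≤ W' := max_le mo lo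
  obtain rhi : r ≤ c.κ * (W + c.lam + 4) + c.c1 :=
    c1.trans (by gcongr; exact max_le (by linarith only [lam, ε0, ε1]) (by linarith only [hi]))
  obtain κl : 0 ≤ c.κ * (c.lam - 4) := mul_nonneg κ0.le (by linarith only [lam, ε0, ε1])
  have κW : 0 ≤ c.κ * W := mul_nonneg κ0.le W0
  obtain Whi : W' ≤ (1 + c.κ) * (W + 2 * c.lam) := by
    refine hA.trans ?_
    rw [← le_sub_iff_add_le]
    exact max_le (by nlinarith only [ε0, ε1, κ0, cc, ecc, εl, κl, κW]) (by nlinarith only [ε0, ε1, cc, ecc, ec1, εl, hi, rhi, κl])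
  obtain uhi : c.cW l W' ≤ (1 + c.κ) * (u + 2 * c.lam) := by
    obtain a1 := Cs.cW_scale (c := c) (l := l) (by linarith only [ε0, ε1]) l0 (by linarith only [ε0, ε1, cc]) (k := 1 + c.κ)
      (b := (1 + c.κ) * (2 * c.lam)) (y := W) (by linarith only [κ0]) (by positivity)
    obtain a2 := Cs.cW_mono (c := c) (l := l) ε0.le
      (show W' ≤ (1 + c.κ) * W + (1 + c.κ) * (2 * c.lam) by linarith only [Whi])
    linarith only [a1, a2]
  obtain lT : S.load c n (max W (g + r)) ≤ l :=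
    (S.load_mono c (by linarith only [ε0, ε1, k.chK.1]) k.chK.2 k.C0 n TW).trans hl
  obtain ru : r ≤ 2 * (1 + c.κ) * (u + 2 * c.lam) := by
    rcases min_choice W (c.C1 * l + c.ε * W + c.cc) with e | e
    · rw [hu', show c.cW l W = _ from e]; nlinarith only [ε0, ε1, κ0, cc, ecc, ec1, εl, W0, rhi, κl, κW]
    · rw [hu', show c.cW l W = _ from e]
      have a1 := mul_le_mul_of_nonneg_left lT k.C1
      have a2 := mul_le_mul_of_nonneg_left (TW.trans Whi) ε0.le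
      have a3 := mul_nonneg κ0.le l0
      have a4 := mul_nonneg κ0.le (mul_nonneg ε0.le W0)
      obtain a5 := mul_nonneg κ0.le (show 0 ≤ c.cc by linarith only [ε0, ε1, cc])
      have a6 := mul_le_mul_of_nonneg_left εl κ0.le
      have a7 := mul_nonneg ε0.le W0
      obtain a8 := mul_nonneg κ0.le (show 0 ≤ c.lam by linarith only [ε0, ε1, cc, ecc, εl])
      unfold Sq.xx at c3
      linarith only [ε0, ε1, κ0, l0, cc, ecc, εl, c3, κl, a1, a2, a3, a4, a5, a6, a7]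
  obtain hQ : 0 ≤ c.Q := by
    have := k.a0; have := k.β
    unfold Cs.Q Cs.bl; positivity
  obtain ld : c.C1 * S.load c x (2 * r) ≤ c.ε * (u + c.lam) := by
    have a1 : S.load c x (2 * r) ≤ S.NK n x :=
      (bi.loads (x, r) List.mem_cons_self).trans (S.qu_le_NK hQ n x)
    have a2 := mul_le_mul_of_nonneg_left F.nk k.C1
    have a3 := h.l2
    rw [div_le_iff₀ ε0] at a3
    obtain a4 := mul_le_mul_of_nonneg_right a3 (show 0 ≤ u + c.lam by linarith only [ε0, ε1, cc, ecc, εl, u0])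
    refine (mul_le_mul_of_nonneg_left a1 k.C1).trans
      (le_of_mul_le_mul_left ?_ (show 0 < c.lam by linarith only [ε0, ε1, cc, ecc, εl]))
    linarith only [a2, a4]
  obtain zb : S.Zb c x r ≤ c.e3 ^ 19 * (u + c.lam) := by
    obtain a1 : max r 0 ≤ 4 * (1 + c.κ) * (u + c.lam) := max_le (by nlinarith only [ε0, κ0, hu, u0, κW, ru]) (by positivity)
    have a2 := mul_le_mul_of_nonneg_left a1 ε0.le
    obtain a3 := mul_le_mul_of_nonneg_right εκ (show 0 ≤ u + c.lam by linarith only [ε0, ε1, cc, ecc, εl, u0])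
    obtain a4 : 0 ≤ c.κ * c.ε * (u + c.lam) := by positivity
    obtain a5 : 0 ≤ c.ε * (u + c.lam) := by positivity
    unfold Sq.Zb
    linarith only [ld, a2, a3, a4, a5]
  obtain low : c.C0 * max W (g + r) ≤ c.bl → r ≤ 2 * c.ε * W + 3 * c.ε * c.lam := fun hb => by
    obtain kz : S.kk n = 0 := S.kk_eq_zero.2 (Or.inl (by linarith only [bi.kz.2.1, ε0, ε1]))
    obtain e1 : S.chi c (n - 1) n = c.bl := by
      have := S.chi_succ c (n - 1)
      rw [sub_add_cancel] at this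
      rw [this, Sq.ch1, kz]; ring
    obtain e2 : S.qu c.Q (n - 1) n = 0 := by
      have := S.qu_succ c.Q (le_refl (n - 1))
      rw [sub_add_cancel] at this
      rw [this, S.qu_self, kz, max_eq_right (by linarith only [hQ])]
    obtain a1 := S.load_le_qu c (by linarith only [k.chK.1, ε0, ε1]) k.chK.2 (show n - 1 ≤ n by omega)
      (V := max W (g + r)) (by rw [e1]; exact hb)
    rw [e2] at a1
    have a2 := mul_le_mul_of_nonneg_left a1 k.C1
    rcases le_or_gt r 0 with r0 | r0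
    · nlinarith only [ε0, ε1, cc, ecc, W0, r0]
    obtain a3 : max W (g + r) ≤ W + 6 / 5 * c.lam + r := max_le (by linarith only [ε0, ε1, cc, ecc, εl, r0]) (by linarith only [ε0, ε1, cc, ecc, εl, hi])
    have a4 := mul_le_mul_of_nonneg_left a3 ε0.le
    have a5 := mul_le_mul_of_nonneg_right ε1 r0.le
    have a6 := mul_nonneg ε0.le W0
    unfold Sq.xx at c3
    linarith only [ε0, ε1, cc, ecc, c3, a2, r0, a4, a5]
  have ebl : c.bl = c.β * c.lam := rfl
  have C0 := h.C0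
  obtain hβ := mul_le_mul_of_nonneg_right h.β (show 0 ≤ c.lam by linarith only [ε0, ε1, cc, ecc, εl])
  obtain p7 : c.lam ≤ r → c.lam ≤ W := fun h1 => by
    by_contra h2
    have h2 := (not_le.1 h2).le
    have a1 := mul_le_mul_of_nonneg_left h2 ε0.le
    refine absurd (low ?_) (by linarith only [ε0, ε1, cc, ecc, εl, h1, a1])
    obtain a2 : max W (g + r) ≤ (1 + c.κ) * (3 * c.lam) :=
      TW.trans (Whi.trans (mul_le_mul_of_nonneg_left (by (rename_i zq0; linarith only [zq0])) (by linarith only [ε0, ε1, κ0])))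
    have a3 := mul_le_mul_of_nonneg_left a2 k.C0
    obtain a4 : 0 ≤ c.C0 * (1 + c.κ) * c.lam := by positivity
    linarith only [ebl, hβ, a3, a4]
  refine ⟨⟨lo, mo, st.r_lo⟩, hA, rhi, Whi, uhi, ru, ld, zb, ?_, low, p7, fun Cw w0 w1 w2 => ?_,
    fun δ δ0 h1 => ?_⟩
  · have e0 := k.e0
    obtain e : c.e3 ^ 17 = c.CN * c.e3 ^ 19 := by unfold Cs.CN; field_simp
    rw [e, mul_assoc]
    exact mul_le_mul_of_nonneg_left zb (by unfold Cs.CN; positivity)
  · have R0 : 0 ≤ r - c.lam := nonneg_of_mul_nonneg_right (W0.trans w2) w0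
    by_cases hb : c.C0 * max W (g + r) ≤ c.bl
    · have a1 := low hb
      have a2 := mul_le_mul_of_nonneg_left w2 ε0.le
      have a3 := mul_le_mul_of_nonneg_right w1 R0
      linarith only [ε0, ε1, cc, ecc, εl, R0, a1, a2, a3]
    · obtain a1 : max W (g + r) ≤ (Cw + 1) * (r - c.lam) + 3 * c.lam :=
        max_le (by linarith only [ε0, ε1, cc, ecc, εl, w2, R0]) (by linarith only [ε0, ε1, cc, ecc, εl, hi, w2])
      have a2 := mul_le_mul_of_nonneg_left a1 k.C0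
      obtain a4 : 0 ≤ c.C0 * c.κ * c.lam := by positivity
      linarith only [ebl, hβ, a2, a4, not_le.1 hb]
  · obtain h2 : c.lam ≤ r := by nlinarith only [u0, δ0, h1]
    have h3 := p7 h2
    rcases st.kind with ⟨-, k1⟩ | ⟨-, -, -, k4, -⟩
    · linarith only [ε0, ε1, cc, ecc, ec1, εl, h2, k1]
    obtain a1 : W' ≤ (1 + c.κ) * (3 * W) :=
      Whi.trans (mul_le_mul_of_nonneg_left (by linarith only [h3]) (by linarith only [ε0, ε1, κ0]))
    have M := h.M
    obtain a2 := mul_le_mul_of_nonneg_left a1 (show 0 ≤ c.M1 * δ * c.ε by (clear * - M δ0 ε0; positivity))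
    obtain a3 := mul_le_mul_of_nonneg_left hu (show 0 ≤ (1 + c.κ) * (c.M1 * δ) by (clear * - κ0 M δ0; positivity))
    obtain a4 : c.M1 * (2 * (δ * u)) ≤ S.chi c x p :=
      (mul_le_mul_of_nonneg_left (by linarith only [h1]) M).trans k4
    obtain a5 := mul_le_mul_of_nonneg_left a4 (show 0 ≤ 1 + c.κ by linarith only [ε0, ε1, κ0])
    obtain a6 : 0 ≤ (1 + c.κ) * (c.M1 * δ) * u := by (clear * - κ0 u0 δ0 M; positivity)
    linarith only [a2, a3, a5, a6]

end DS0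

open DS0 in
theorem ds0 : Hier fun c => B1_s c → NUM_s c → B5_s c → DS0_s c :=
  hK.mono fun c h hB hN h5 hκ Ex hE S ξ n l hS ho => by
  have fr : ∀ Ls m r, S.Run c Ex (S.fr (n + 1)) (n + 1) (S.PBd c Ex ξ n) Ls m → S.Bd c ξ n m r →
      S.load c n (S.Wp c n m) ≤ l → S.Fr0 c n l m := fun Ls m r hR hb hl => by
    obtain ⟨-, a, b, -⟩ := h5 hκ Ex hE S ξ n Ls m r hS ho hR hb
    exact free h hB hN hS ho hR hb hl a b
  refine ⟨fr, fun Ls x r p r' hR hb hl => ?_⟩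
  obtain ⟨hR0, hP, -, -⟩ := Sq.Run.tail c S hR
  have hs := B1.st_fr c S (show 0 ≤ n + 1 by linarith only [ho.1])
  obtain ⟨ch, -⟩ := (hB Ex S hS).1 _ _ _ _ _ hs hR
  have st : S.Step c Ex (S.fr (n + 1)) (n + 1) x r p := by
    cases ch with
    | cons _ st _ => exact st
  have mo : S.Wp c n x ≤ S.Wp c n p :=
    Real.log_le_log (by linarith only [S.one_le_AA c (S.fr (n + 1)) (n + 1) x])
      (S.AA_mono c _ _ st.lt.le)
  have F := fr Ls x r hR0 hP.1
    ((S.load_mono c (by linarith only [h.k.chK.1]) h.k.chK.2 h.k.C0 n mo).trans hl)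
  exact ⟨F, DS0.step h st ((hB Ex S hS).1 _ _ _ _ _ hs hR0).2 F hl
    ((hB Ex S hS).2.1 _ _ _ _ _ ho hR hb) hP.2.c1 ((hB Ex S hS).2.2 _ _ _ _ _ ho ⟨hR0, hP⟩)⟩

end
end Pool.Agent.MP_9cbfe4_an

end

/-! ### Part ESD -/

section

/-! Section E-B, row SD: consequences of the stage data. -/

namespace Pool.Agent.MP_9cbfe4_an.E

open Finset
open scoped Classical

namespace SD
variable {k : Par} {p : Pr} {d : Cd} {s : St}

theorem nocut (hc : p.Cand k d) (hs : p.SF k d s) {m l : ℕ} (hm : m ≤ s.B') (h : d.nocut m l) :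
    d.nocut (s.B + 1) l := fun c h1 h2 hcut => by
  by_cases h3 : c < m
  · exact hs.nod c h1 (h3.trans_le hm) (hc.ch.cutd c hcut)
  · exact h c (not_lt.1 h3) h2 hcut

theorem tt_le (hc : p.Cand k d) (hs : p.SF k d s) (j : ℕ) (hj : j = 2 ∨ j = 3) {m : ℕ}
    (h1 : s.B < m) (h2 : m ≤ s.B') : d.tt j m ≤ d.tt j (s.B + 1) := by
  rcases hc.ch.ttC j hj m (h2.trans hs.le) with ⟨l, hl, hd, hn, e⟩ | ⟨hn, e⟩
  · rw [e]
    exact hc.ch.ttA j hj _ l (by omega) hd (nocut hc hs h2 hn)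
  · rw [e]
    exact hc.ch.ttB j hj _ (by have := hs.lt; have := hs.le; omega) (nocut hc hs h2 hn)

theorem f2 (hc : p.Cand k d) (hs : p.SF k d s) : -p.ω s.B' ≤ d.tt 2 (s.B + 1) := by
  have hn : d.nocut (s.B + 1) s.B' := nocut hc hs le_rfl fun c h1 h2 => absurd h2 (not_lt.2 h1)
  rcases hs.nxt with h | h
  · have a := hc.ch.ttA 2 (.inl rfl) _ _ hs.lt h hn
    have b := hc.sk.R0 s.B'
    simp only [Sk.V, Nat.cast_ofNat] at a
    linarith only [a, b]
  · have a := hc.ch.ttB 2 (.inl rfl) (s.B + 1) (hs.lt.trans_le hs.le) (h ▸ hn)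
    rw [h]
    exact hc.ch.fin2.trans a

theorem t123 (hk : k.OK) (hc : p.Cand k d) (hs : p.SF k d s) :
    (4 * d.tt 2 (s.B + 1) + p.ω s.B') / 3 ≤ d.tt 3 (s.B + 1) + k.ς + k.φ := by
  have hM : s.B + 1 ≤ d.M := hs.lt.trans_le hs.le
  have hW := (hc.inr hs.le).2
  have hφ := hk.φ_ge
  have hς := hk.ς_big
  rcases hc.ch.ttC 2 (.inl rfl) _ hM with ⟨l, hl, hd, hn, e⟩ | ⟨hn, e⟩
  · have h1 : s.B' ≤ l := not_lt.1 fun h => hs.nod l hl h hd
    have a := hc.ch.ttA 3 (.inr rfl) _ l hl hd hn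
    have b := hc.sk.R0 l
    have c := hc.sk.ω_mono hk h1 (hd.1.le.trans hc.ch.MN) hW
    simp only [Sk.V, Nat.cast_ofNat] at a e
    linarith only [hφ, hς, e, a, b, c]
  · have a := hc.ch.ttB 3 (.inr rfl) _ hM hn
    have b := hc.ch.fin3
    have c := hc.sk.ω_mono hk hs.le hc.ch.MN hW
    linarith only [hφ, e, a, b, c]

theorem card (hk : k.OK) (hc : p.Cand k d) (hs : p.SF k d s) :
    (((range (s.B + 1)).filter fun l => p.Rst (s.B + 1) ≤ 2 * p.R l).card : ℝ) ≤ 1 / k.θ := by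
  have hM : s.B + 1 ≤ d.M := hs.lt.trans_le hs.le
  have h1 : (((range (s.B + 1)).filter fun l => p.Rst (s.B + 1) ≤ 2 * p.R l).card : ℝ) ≤
      ((range d.M).filter (d.deep k p.toSk)).card := by
    refine Nat.cast_le.2 (card_le_card fun l hl => ?_)
    obtain ⟨a, b⟩ := mem_filter.1 hl
    have a' : l < d.M := (mem_range.1 a).trans_le hM
    refine mem_filter.2 ⟨mem_range.2 a', a', ?_⟩
    linarith only [b, hs.hv, hk.G_ge, hk.u_le, hk.u_big]
  refine h1.trans ?_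
  have h2 := hc.ch.few
  set c : ℝ := (((range d.M).filter (d.deep k p.toSk)).card : ℝ)
  have c0 : 0 ≤ c := Nat.cast_nonneg _
  have h3 : k.u ≤ 10 ^ 11 * k.K * k.g * k.ς := by
    have e : 10 ^ 11 * k.K * k.g * k.ς = 10 ^ 11 * (k.K * k.G) := by unfold Par.G; ring
    have : 10 * k.G ≤ k.K * k.G := mul_le_mul_of_nonneg_right hk.K1 hk.G_pos.le
    rw [e]
    linarith only [this, hk.G_ge, hk.u_le, hk.u_big]
  have h4 : c * k.u ≤ k.ρ := (mul_le_mul_of_nonneg_left h3 c0).trans h2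
  have h5 : c * k.θ * k.u ≤ 1 * k.u := by
    have := mul_le_mul_of_nonneg_left h4 hk.θpos.le
    have := mul_pos hk.θpos hk.ρ_pos
    (rename_i zq0; linarith only [zq0, this, hk.θρ])
  rw [le_div_iff₀ hk.θpos]
  exact le_of_mul_le_mul_right h5 (by linarith only [hk.u_big])

end SD

theorem sd : SD_s := by
  intro k p d s hk hc hs
  have hM : s.B + 1 ≤ d.M := hs.lt.trans_le hs.le
  have r1 : p.Rst (s.B + 1) ≤ s.r := hs.r ▸ Int.le_ceil _
  have r2 : (s.r : ℝ) ≤ p.Rst (s.B + 1) + 1 := hs.r ▸ (Int.ceil_lt_add_one _).le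
  have a1 : (d.tt 2 (s.B + 1) - 2 * p.ω s.B') / 3 ≤ s.t1 := hs.t1 ▸ Int.le_ceil _
  have b1 : (s.t1 : ℝ) ≤ (d.tt 2 (s.B + 1) - 2 * p.ω s.B') / 3 + 1 :=
    hs.t1 ▸ (Int.ceil_lt_add_one _).le
  have a2 : d.tt 2 (s.B + 1) ≤ s.t2 := hs.t2 ▸ Int.le_ceil _
  have b2 : (s.t2 : ℝ) ≤ d.tt 2 (s.B + 1) + 1 := hs.t2 ▸ (Int.ceil_lt_add_one _).le
  have a3 : d.tt 3 (s.B + 1) ≤ s.t3 := hs.t3 ▸ Int.le_ceil _
  have ay : p.R s.B + p.ω s.B ≤ s.y := hs.y ▸ Int.le_ceil _
  have f2 := SD.f2 hc hs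
  have shal : ∀ l, s.B < l → l < s.B' → p.R l < k.u := fun l h1 h2 =>
    not_le.1 fun h => hs.nod l h1 h2 ⟨h2.trans_le hs.le, h⟩
  have mx : ∀ {x a b c : ℝ}, x ≤ Real.exp (k.ς + max a c) → a ≤ b →
      x ≤ Real.exp (k.ς + max b c) := fun h1 h2 =>
    h1.trans (Real.exp_le_exp.2 (add_le_add le_rfl (max_le_max h2 le_rfl)))
  refine ⟨hs.lt, fun n hn => hc.inr (hn.trans hs.le), fun x hx => hc.ch.nonc x (hx.trans_le hs.le),
    shal, fun n h1 h2 => le_antisymm (Sk.Rst_le (Sk.Rst_nonneg _) fun l hl => ?_) (Sk.Rst_mono h1),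
    hs.hv, r1, r2, ?_, ?_, SD.card hk hc hs, fun m h1 h2 => ?_, fun m h1 h2 => ?_,
    fun m h1 h2 => ?_, by linarith only [a1, f2], by linarith only [a2, f2], by linarith only [b1, a2], ?_, ?_⟩
  · by_cases h : l < s.B + 1
    · exact Sk.le_Rst h
    · linarith only [h, h2, hl, shal l (by omega) (by omega), hs.hv, hk.G_ge, hk.u_le, hk.u_big]
  · have : p.Rst (s.B + 1) ≤ k.Rs := Sk.Rst_le (by unfold Par.Rs; linarith only [hk.ρ_pos])
      fun l hl => hc.ch.cap l (hl.trans_le hM)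
    unfold Par.Rs at this
    linarith only [r2, this, hk.G_le, hk.G_ge, hk.ς_big]
  · linarith only [ay, hc.sk.W_succ hk (hc.inr hM).1 (hc.inr hM).2]
  · refine mx (hc.ch.jet1 m s.B' h2 hs.le fun c c1 c2 => hs.nod c (by omega) c2) ?_
    linarith only [a1, SD.tt_le hc hs 2 (.inl rfl) h1 h2]
  · exact mx (hc.ch.jet 2 (.inl rfl) m (h2.trans hs.le))
      ((SD.tt_le hc hs 2 (.inl rfl) h1 h2).trans a2)
  · exact mx (hc.ch.jet 3 (.inr rfl) m (h2.trans hs.le))
      ((SD.tt_le hc hs 3 (.inr rfl) h1 h2).trans a3)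
  · linarith only [b1, b2, a3, SD.t123 hk hc hs, hk.φ_le, hk.u_le, hk.u_big, hk.φ_ge]
  · have := hs.ok
    unfold Pr.OKs at this
    linarith only [r1, b2, this, hk.ς_big]

end Pool.Agent.MP_9cbfe4_an.E

end

/-! ### Part EJMP -/

section

/-! Section E-B, row JMP: jumping over elements that are not OK. -/

namespace Pool.Agent.MP_9cbfe4_an.E

open Finset
open scoped Classical

namespace JMP
variable {k : Par} {p : Pr} {d : Cd}

theorem ttA (h : p.Cand k d) {m l : ℕ} (hml : m ≤ l) (hl : d.deep k p.toSk l) (hn : d.nocut m l) :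
    p.V 3 l ≤ d.tt 2 m := by
  have := h.ch.ttA 2 (.inl rfl) m l hml hl hn
  norm_num at this
  exact this

theorem ttC (h : p.Cand k d) {m : ℕ} (hm : m ≤ d.M) :
    (∃ l, m ≤ l ∧ d.deep k p.toSk l ∧ d.nocut m l ∧ d.tt 2 m = p.V 3 l) ∨
    (d.nocut m d.M ∧ d.tt 2 m = d.tt 2 d.M) := by
  have := h.ch.ttC 2 (.inl rfl) m hm
  norm_num at this
  exact this

theorem nocut_mono {a a' b : ℕ} (h : d.nocut a b) (ha : a ≤ a') : d.nocut a' b :=
  fun c h1 h2 => h c (ha.trans h1) h2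

/-- either attained before `b`, or at most the value seen from `b` -/
theorem split (h : p.Cand k d) {a b : ℕ} (hab : a ≤ b) (hb : b ≤ d.M) :
    (∃ l, a ≤ l ∧ l < b ∧ d.deep k p.toSk l ∧ d.tt 2 a = p.V 3 l) ∨ d.tt 2 a ≤ d.tt 2 b := by
  rcases ttC h (hab.trans hb) with ⟨l, h1, h2, h3, h4⟩ | ⟨h1, h2⟩
  · rcases lt_or_ge l b with h5 | h5
    · exact .inl ⟨l, h1, h5, h2, h4⟩
    · exact .inr (h4 ▸ ttA h h5 h2 (nocut_mono h3 hab))
  · exact .inr (h2 ▸ h.ch.ttB 2 (.inl rfl) b hb (nocut_mono h1 hab))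

theorem step (h : p.Cand k d) {m : ℕ} (hm : m < d.M) :
    (d.deep k p.toSk m ∧ d.tt 2 m = p.V 3 m) ∨ d.tt 2 m ≤ d.tt 2 (m + 1) := by
  rcases split h (Nat.le_succ m) hm with ⟨l, h1, h2, h3, h4⟩ | h1
  · obtain rfl : l = m := by omega
    exact .inl ⟨h3, h4⟩
  · exact .inr h1

end JMP

open JMP in
theorem jmp : JMP_s := by
  intro k p d hk h
  have g1 := hk.g11
  have g2 := hk.G_le
  have g3 := hk.G_pos
  have g4 := hk.G_ge
  have g5 := hk.φ_le
  have g6 := hk.u_le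
  have g7 := hk.φ_ge
  obtain g0 : 0 ≤ (k.g + 11) * k.ς := mul_nonneg (by linarith only [hk.g10]) (by linarith only [g5, g6, g7])
  have h2 : ∀ m, d.deep k p.toSk m → d.tt 2 m ≤ max (p.V 3 m) (d.tt 2 (m + 1)) := fun m hm =>
    (step h hm.1).elim (fun x => x.2.le.trans (le_max_left _ _)) fun x => x.trans (le_max_right _ _)
  refine ⟨fun c hc => ?_, h2, fun E hE ho => ?_, fun a b hab hb hn => ?_, fun a b hab => ?_,
    fun e E heE he hne hR hE ho => ?_⟩
  · have := h.ch.okc c hc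
    unfold Pr.OKs
    linarith only [g1, g2, g4, g5, g6, g7, this]
  · have a1 : p.R E ≤ p.Rst (E + 1) := Sk.le_Rst (Nat.lt_succ_self E)
    unfold Pr.OKs at ho
    rcases le_max_iff.1 (h2 E hE) with a | a
    · unfold Sk.V at a
      linarith only [a1, a]
    · linarith only [g0, ho, a]
  · rcases ttC h hb with ⟨l, h1, h2, h3, h4⟩ | ⟨h1, h2⟩
    · rw [h4]
      exact ttA h (hab.trans h1) h2 fun c c1 c2 =>
        (lt_or_ge c b).elim (hn c c1) fun c3 => h3 c c3 c2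
    · rw [h2]
      exact h.ch.ttB 2 (.inl rfl) a (hab.trans hb) fun c c1 c2 =>
        (lt_or_ge c b).elim (hn c c1) fun c3 => h1 c c3 c2
  · induction b, hab using Nat.le_induction with
    | base => intro _ _; simp
    | succ b hab ih =>
      intro hb hno
      have i := ih (by omega) fun l l1 l2 => hno l l1 (by omega)
      rw [card_filter, sum_Ico_succ_top hab, ← card_filter]
      push_cast
      by_cases hd : d.deep k p.toSk b
      · have a1 : p.R b ≤ p.Rst (b + 1) := Sk.le_Rst (Nat.lt_succ_self b)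
        have a2 := hno b hab (Nat.lt_succ_self b) hd
        unfold Pr.OKs at a2
        rw [if_pos hd, mul_add, mul_one]
        rcases le_max_iff.1 (h2 b hd) with a | a
        · unfold Sk.V at a
          linarith only [i, a1, a, not_le.1 a2]
        · linarith only [g0, i, a]
      · rw [if_neg hd, add_zero]
        rcases step h (show b < d.M by omega) with a | a
        · exact absurd a.1 hd
        · linarith only [i, a]
  · by_contra hc
    have c1 := not_lt.1 hc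
    have a1 : p.R e ≤ p.Rst (e + 1) := Sk.le_Rst (Nat.lt_succ_self e)
    have hW := (h.inr (show e + 1 ≤ d.M from he.1)).2
    unfold Pr.OKs at ho hne
    have a2 := not_le.1 hne
    rcases split h (show e + 1 ≤ E + 1 by omega) hE.1 with ⟨l, h1, h2, h3, h4⟩ | h1
    · have a3 : p.R l ≤ p.Rst (E + 1) := Sk.le_Rst h2
      have a4 := h.sk.K1 hk (show e < l from h1) (h3.1.le.trans h.ch.MN) hW
      unfold Sk.V at h4
      linarith only [g1, g4, g5, g6, g7, hne, hR, hc, a1, h4, a3, a4]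
    · have a4 := h.sk.K1 hk heE (hE.1.le.trans h.ch.MN) hW
      have a5 := hE.2
      linarith only [g5, g7, hne, ho, hc, a1, h1, a4, a5]

end Pool.Agent.MP_9cbfe4_an.E

end

/-! ### Part ETERM -/

section

/-! Row TERM of section E-B: the run cannot fail when no OK element is left. -/

namespace Pool.Agent.MP_9cbfe4_an.E

open Finset
open scoped Classical

namespace TERM

lemma pow_lo {D x : ℝ} (h : Real.exp (-x) ≤ D) (n : ℕ) :
    Real.exp (-(x * n)) * D ^ 2 ≤ D ^ (n + 2) := by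
  have h1 : Real.exp (-x) ^ n ≤ D ^ n := pow_le_pow_left₀ (Real.exp_pos _).le h n
  rw [← Real.exp_nat_mul] at h1
  rw [pow_add, show -(x * n) = n * -x by ring]
  exact mul_le_mul_of_nonneg_right h1 (sq_nonneg D)

lemma eight {a b : ℝ} (h : a + 3 ≤ b) : 8 * Real.exp a ≤ Real.exp b := by
  obtain h1 : (8 : ℝ) ≤ Real.exp 3 := by
    obtain h2 : (2 : ℝ) ≤ Real.exp 1 := by linarith only [Real.add_one_le_exp (1 : ℝ)]
    obtain h3 : Real.exp 3 = Real.exp 1 ^ 3 := by rw [← Real.exp_nat_mul]; norm_num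
    rw [h3]
    calc (8 : ℝ) = 2 ^ 3 := by norm_num
      _ ≤ _ := pow_le_pow_left₀ (by norm_num) h2 3
  calc 8 * Real.exp a ≤ Real.exp 3 * Real.exp a :=
        mul_le_mul_of_nonneg_right h1 (Real.exp_pos _).le
    _ = Real.exp (a + 3) := by rw [← Real.exp_add, add_comm]
    _ ≤ _ := Real.exp_le_exp.2 h

/-- the final contradiction -/
lemma fin {D x c f e TT P : ℝ} {n m : ℕ} (hD : Real.exp (-x) ≤ D) (hT : 0 ≤ TT)
    (hP : P ≤ 2 * Real.exp c * (Real.exp f + TT * Real.exp e))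
    (h1 : D ^ (n + 2) ≤ P * D ^ 2) (h2 : TT * D ^ (m + 2) ≤ P * D ^ 2)
    (hf : c + f + 3 ≤ -(x * n)) (he : c + e + 3 ≤ -(x * m)) : False := by
  have hD0 : 0 < D ^ 2 := pow_pos ((Real.exp_pos _).trans_le hD) 2
  have a1 : Real.exp (-(x * n)) ≤ P := le_of_mul_le_mul_right ((pow_lo hD n).trans h1) hD0
  have a2 : TT * Real.exp (-(x * m)) ≤ P := le_of_mul_le_mul_right
    (((mul_assoc _ _ _).trans_le (mul_le_mul_of_nonneg_left (pow_lo hD m) hT)).trans h2) hD0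
  have b1 := eight hf
  have b2 := mul_le_mul_of_nonneg_left (eight he) hT
  rw [Real.exp_add] at b1 b2
  have := Real.exp_pos (-(x * n))
  linarith only [hP, a1, a2, b1, b2, this]

end TERM

theorem term (h : JMP_s) : TERM_s := by
  intro k p d s D hk hc hs sd hv hD lk
  by_contra hn
  push Not at hn
  obtain ⟨j1, -, -, j4, j5, -⟩ := h k p d hk hc
  obtain ⟨l1, kk, TT, L, l2⟩ := lk
  have hBM : s.B + 1 ≤ d.M := hs.deep.1
  have nc : d.nocut (s.B + 1) d.M := fun c h1 _ h3 => hn c h1 (hc.ch.cutd c h3) (j1 c h3)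
  have hG := hk.G_pos
  have hρ := hk.G_le
  have hς := hk.G_ge
  have hς' := hk.ς_big
  have hK := hk.K1
  obtain hφ : k.φ ≤ k.G := by linarith only [hς, hς', hk.φ_le, hk.u_le, hk.φ_ge]
  have hKρ : 10 * k.ρ ≤ k.K * k.ρ := mul_le_mul_of_nonneg_right hK hk.ρ_pos.le
  obtain e1 : d.tt 2 (s.B + 1) ≤ d.tt 2 d.M + k.ρ := by
    have a := j5 (s.B + 1) d.M hBM le_rfl fun l h1 _ h3 => hn l h1 h3
    obtain b : (((Ico (s.B + 1) d.M).filter (d.deep k p.toSk)).card : ℝ) ≤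
        ((range d.M).filter (d.deep k p.toSk)).card := by
      exact_mod_cast card_le_card (filter_subset_filter _ fun x hx =>
        mem_range.2 (mem_Ico.1 hx).2)
    have c := hc.ch.few
    have c0 : (0 : ℝ) ≤ ((Ico (s.B + 1) d.M).filter (d.deep k p.toSk)).card := Nat.cast_nonneg _
    obtain c1 : (k.g + 11) * k.ς ≤ 10 ^ 11 * k.K * k.g * k.ς := by
      have := hk.g11
      obtain e : 10 ^ 11 * k.K * k.g * k.ς = 10 ^ 11 * (k.K * k.G) := by rw [← hk.G_eq]; ring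
      nlinarith only [hK, this, e, hς, hς', hG]
    obtain c2 := mul_le_mul c1 b c0 (by nlinarith only [hς', hK, c1, hk.g11, hk.g10])
    linarith only [a, c, c2, mul_comm (10 ^ 11 * k.K * k.g * k.ς)
      (((range d.M).filter (d.deep k p.toSk)).card : ℝ)]
  obtain hR : p.Rst (s.B + 1) ≤ k.Rs := Sk.Rst_le (by unfold Par.Rs; linarith only [hρ, hς, hς', hk.ρ_pos])
    fun l hl => hc.ch.cap l (by omega)
  have hr := sd.r2
  obtain t1 : (s.t1 : ℝ) ≤ (d.tt 2 (s.B + 1) - 2 * p.ω s.B') / 3 + 1 := by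
    rw [hs.t1]; exact (Int.ceil_lt_add_one _).le
  obtain t2 : (s.t2 : ℝ) ≤ d.tt 2 (s.B + 1) + 1 := by
    rw [hs.t2]; exact (Int.ceil_lt_add_one _).le
  obtain ⟨f1, -, f3⟩ := L.fin nc
  have g11 := hk.g11
  have hE := mul_nonneg L.T0 (Real.exp_pos (k.ς - 2 * (kk - 2) * k.Rs)).le
  have hF : 0 < k.far := Real.exp_pos _
  obtain hc0 : 1 ≤ Real.exp (k.ρ + 2 * k.G) := Real.one_le_exp (by linarith only [hρ, hς, hς', hk.ρ_pos])
  obtain key : ∀ x, x ≤ d.tt 2 d.M + (k.ρ + 2 * k.G) → Real.exp x ≤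
      Real.exp (k.ρ + 2 * k.G) * (k.far + TT * Real.exp (k.ς - 2 * (kk - 2) * k.Rs)) :=
    fun x hx => (Real.exp_le_exp.2 hx).trans (by
      rw [Real.exp_add, mul_comm]
      exact mul_le_mul_of_nonneg_left f1 (Real.exp_pos _).le)
  obtain q2 := key s.t2 (by linarith only [hς, hς', e1, t2])
  obtain q1 : s.β * Real.exp s.t1 ≤
      Real.exp (k.ρ + 2 * k.G) * (k.far + TT * Real.exp (k.ς - 2 * (kk - 2) * k.Rs)) := by
    rw [St.β, ← Real.exp_add]
    rcases hs.nxt with hd | hM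
    · have a := hn s.B' hs.lt hd
      rw [Pr.OKs, not_le] at a
      obtain b := j4 (s.B + 1) (s.B' + 1) (by have := hs.lt; omega) hd.1
        fun c h1 h2 => nc c h1 (lt_of_lt_of_le h2 hd.1)
      have c1 : p.R s.B' ≤ p.Rst (s.B' + 1) := Sk.le_Rst (Nat.lt_succ_self _)
      obtain c2 : p.Rst (s.B + 1) ≤ p.Rst (s.B' + 1) := Sk.Rst_mono (by have := hs.lt; omega)
      exact key _ (by linarith only [hς, hς', e1, hr, t1, g11, a, b, c1, c2])
    · rw [hM] at t1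
      rcases f3 with f3 | f3
      · have a := hs.ok
        rw [Pr.OKs] at a
        obtain b := hc.sk.ω_lo hk (l := s.B) (by have := hc.ch.MN; omega)
        have c := hc.sk.R0 s.B
        obtain c1 : 0 ≤ (k.g + 11) * k.ς := by nlinarith only [hς', hk.g10]
        obtain c2 : Real.exp (2 * s.r + s.t1) ≤ k.far := Real.exp_le_exp.2 (by
          unfold EK.C5 at f3 ⊢
          unfold Par.Rs at hR
          linarith only [hρ, hς, hς', hφ, hKρ, hR, hr, t1, f3, a, b, c, c1])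
        nlinarith only [hE, c2, hc0, hF]
      · obtain a : Real.exp (2 * s.r + s.t1) ≤ Real.exp (k.ρ + 2 * k.G) *
            (Real.exp ((d.tt 2 d.M - 2 * p.ω d.M) / 3) * Real.exp (2 * k.Rs)) := by
          rw [← Real.exp_add, ← Real.exp_add]
          exact Real.exp_le_exp.2 (by linarith only [hρ, hς, hς', e1, hR, hr, t1, hk.ρ_pos])
        obtain b : Real.exp (k.ς - 2 * (kk - 1) * k.Rs) * Real.exp (2 * k.Rs) =
            Real.exp (k.ς - 2 * (kk - 2) * k.Rs) := by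
          rw [← Real.exp_add]; congr 1; ring
        refine a.trans (mul_le_mul_of_nonneg_left ?_ (Real.exp_pos _).le)
        have c := mul_le_mul_of_nonneg_right f3 (Real.exp_pos (2 * k.Rs)).le
        rw [mul_assoc, b] at c
        linarith only [hF, c]
  obtain ⟨n, hn'⟩ : ∃ n, k.K + 1 = n + 2 := ⟨k.K - 1, by have := hk.K10; omega⟩
  obtain ⟨m, rfl⟩ : ∃ m, kk = m + 2 := ⟨kk - 2, by have := L.k4; omega⟩
  obtain hm : (2 : ℝ) ≤ m := by exact_mod_cast (show 2 ≤ m by have := L.k4; omega)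
  obtain hnK : (n : ℝ) ≤ k.K := by exact_mod_cast (show n ≤ k.K by omega)
  have hnρ := mul_le_mul_of_nonneg_right hnK hk.ρ_pos.le
  have hmρ := mul_le_mul_of_nonneg_right hm hk.ρ_pos.le
  rw [hn'] at l1
  rw [St.D2, ← mul_assoc] at l1 l2
  refine TERM.fin (x := 3100 * k.ρ) (c := 60 * k.G + (k.ρ + 2 * k.G))
    (f := -(k.C5 * k.ρ / 4)) (e := k.ς - 2 * ((m + 2 : ℕ) - 2) * k.Rs) hD L.T0 ?_ l1 l2 ?_ ?_
  · rw [Real.exp_add (60 * k.G)]
    have := mul_le_mul_of_nonneg_left (add_le_add q2 q1) (Real.exp_pos (60 * k.G)).le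
    unfold Par.far at this
    linarith only [this]
  · unfold EK.C5; linarith only [hρ, hς, hς', hKρ, hnρ]
  · unfold Par.Rs; push_cast; linarith only [hρ, hς, hς', hmρ]

end Pool.Agent.MP_9cbfe4_an.E

end

/-! ### Part ENEXT -/

section

/-! Section E-B, row NEXT: numeric facts on the first OK deep element after `B` (helper63). -/

namespace Pool.Agent.MP_9cbfe4_an.E

open Finset
open scoped Classical

namespace NEXT

theorem card_split (P : ℕ → Prop) {B E M : ℕ} (h1 : B < E) (h2 : E < M) :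
    ((Ioo E M).filter P).card + ((Ioc B E).filter P).card = ((Ioo B M).filter P).card := by
  rw [← card_union_of_disjoint, ← filter_union]
  · congr 2
    ext x
    simp only [mem_union, mem_Ioo, mem_Ioc]
    omega
  · refine disjoint_filter_filter (disjoint_left.2 fun x a b => ?_)
    simp only [mem_Ioo, mem_Ioc] at a b
    omega

theorem card_last (P : ℕ → Prop) {B E : ℕ} (h1 : B < E) (h2 : P E) :
    ((Ioc B E).filter P).card = ((Ico (B + 1) E).filter P).card + 1 := by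
  obtain e : (Ioc B E).filter P = insert E ((Ico (B + 1) E).filter P) := by
    ext x
    simp only [mem_insert, mem_filter, mem_Ioc, mem_Ico]
    constructor
    · rintro ⟨⟨a, b⟩, c⟩
      rcases b.eq_or_lt with rfl | b
      · exact .inl rfl
      · exact .inr ⟨⟨a, b⟩, c⟩
    · rintro (rfl | ⟨⟨a, b⟩, c⟩)
      · exact ⟨⟨h1, le_rfl⟩, h2⟩
      · exact ⟨⟨a, b.le⟩, c⟩
  rw [e, card_insert_of_notMem]
  simp

/-- the link forces a small scale -/
theorem clip_aux {D TT a b c1 c2 ς R : ℝ} {kk : ℕ} (hD : 0 < D) (hk : 4 ≤ kk)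
    (h1 : Real.exp ((2 * kk - 1) * R - a) ≤ Real.exp ς * TT)
    (h2 : TT * D ^ kk ≤ Real.exp b * ((Real.exp c1 + Real.exp c2) * D ^ 2)) {x : ℝ}
    (h3 : c1 ≤ 3 * R - a + x) (h4 : c2 ≤ 3 * R - a + x) (h5 : 0 ≤ 1 + b + x + ς) :
    Real.log D ≤ -2 * R + (1 + b + x + ς) / 2 := by
  obtain e1 : D ^ kk = Real.exp (kk * Real.log D) := by
    rw [Real.exp_nat_mul, Real.exp_log hD]
  obtain e2 : D ^ 2 = Real.exp (2 * Real.log D) := by
    have := Real.exp_nat_mul (Real.log D) 2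
    rw [Real.exp_log hD] at this
    exact_mod_cast this.symm
  obtain s1 : Real.exp c1 + Real.exp c2 ≤ Real.exp (1 + (3 * R - a + x)) := by
    have a1 := Real.exp_le_exp.2 h3
    have a2 := Real.exp_le_exp.2 h4
    obtain a3 : (2 : ℝ) ≤ Real.exp 1 := by linarith only [Real.add_one_le_exp (1 : ℝ)]
    rw [Real.exp_add]
    nlinarith only [a1, a2, a3, Real.exp_pos (3 * R - a + x)]
  obtain s2 : Real.exp ((2 * kk - 1) * R - a + kk * Real.log D) ≤
      Real.exp (ς + (b + (1 + (3 * R - a + x) + 2 * Real.log D))) := by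
    calc Real.exp ((2 * kk - 1) * R - a + kk * Real.log D)
        = Real.exp ((2 * kk - 1) * R - a) * D ^ kk := by rw [Real.exp_add, e1]
      _ ≤ Real.exp ς * TT * D ^ kk := by gcongr
      _ = Real.exp ς * (TT * D ^ kk) := by ring
      _ ≤ Real.exp ς * (Real.exp b * ((Real.exp c1 + Real.exp c2) * D ^ 2)) := by gcongr
      _ ≤ Real.exp ς * (Real.exp b * (Real.exp (1 + (3 * R - a + x)) * D ^ 2)) := by gcongr
      _ = _ := by rw [e2, ← Real.exp_add, ← Real.exp_add, ← Real.exp_add]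
  have s3 := Real.exp_le_exp.1 s2
  obtain hk' : (4 : ℝ) ≤ kk := by exact_mod_cast hk
  obtain s4 : (kk - 2) * (Real.log D + 2 * R) ≤ 1 + b + x + ς := by linarith only [s3]
  by_contra hc
  have hc := not_le.1 hc
  (rename_i zq0; nlinarith only [s3, zq0, h5, hk'])

end NEXT

theorem next (h : JMP_s) : NEXT_s := by
  intro k p d s D hk hc hs sd hv lk hex
  obtain ⟨J1, -, J3, J4, J5, J6⟩ := h k p d hk hc
  obtain ⟨E, ⟨hBE, hEd, hEo⟩, hmin⟩ : ∃ E, (s.B < E ∧ d.deep k p.toSk E ∧ p.OKs k d E) ∧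
      ∀ l, s.B < l → l < E → d.deep k p.toSk l → ¬ p.OKs k d l :=
    ⟨Nat.find hex, Nat.find_spec hex, fun l a b c e => Nat.find_min hex b ⟨a, c, e⟩⟩
  have hEM : E < d.M := hEd.1
  obtain hnc : ∀ l ≤ E, d.nocut (s.B + 1) l := fun l hl c a b e =>
    hmin c a (by omega) (hc.ch.cutd c e) (J1 c e)
  obtain hle : s.B' ≤ E := by
    by_contra hn
    exact hs.nod E hBE (by omega) hEd
  obtain ⟨q, hq⟩ : ∃ q, q = ((Ico (s.B + 1) E).filter (d.deep k p.toSk)).card := ⟨_, rfl⟩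
  have q0 : (0 : ℝ) ≤ q := Nat.cast_nonneg q
  have hG := hk.G_pos
  have hG1 := hk.G_ge
  have hς := hk.ς_big
  have hρ := hk.G_le
  have Gq : 0 ≤ k.G * q := mul_nonneg hG.le q0
  have g11 := hk.g11
  obtain t5 : d.tt 2 (s.B + 1) ≤ d.tt 2 E + 21 / 10 * (k.G * q) := by
    have a := J5 (s.B + 1) E hBE hEM.le fun l a b c => hmin l a b c
    rw [← hq] at a
    nlinarith only [a, g11]
  have t3 := J3 E hEd hEo
  have RE : p.R E ≤ p.Rst (E + 1) := Sk.le_Rst (Nat.lt_succ_self E)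
  have R0 : 0 ≤ p.R E := hc.sk.R0 E
  obtain Rm : p.Rst (s.B + 1) ≤ p.Rst (E + 1) := Sk.Rst_mono (by omega)
  have hvv := hs.hv
  have r1 := sd.r1
  have r2 := sd.r2
  have c1 : p.Rst (E + 1) ≤ (⌈p.Rst (E + 1)⌉ : ℝ) := Int.le_ceil _
  have c2 : (⌈p.Rst (E + 1)⌉ : ℝ) ≤ p.Rst (E + 1) + 1 := (Int.ceil_lt_add_one _).le
  obtain e2 : (s.t2 : ℝ) ≤ d.tt 2 (s.B + 1) + 1 := by rw [hs.t2]; exact (Int.ceil_lt_add_one _).le
  obtain e2' : d.tt 2 (s.B + 1) ≤ (s.t2 : ℝ) := by rw [hs.t2]; exact Int.le_ceil _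
  obtain e1 : (s.t1 : ℝ) ≤ (d.tt 2 (s.B + 1) - 2 * p.ω s.B') / 3 + 1 := by
    rw [hs.t1]; exact (Int.ceil_lt_add_one _).le
  obtain dich : p.Rst (E + 1) = p.R E ∨ p.Rst (E + 1) = p.Rst (s.B + 1) := by
    rcases Sk.Rst_eq (S := p.toSk) (E + 1) with a | ⟨l, hl, a⟩
    · exact .inr (by linarith only [hG1, hς, Rm, hvv, a])
    · by_cases b : l ≤ s.B
      · exact .inr (le_antisymm (a ▸ Sk.le_Rst (by omega)) Rm)
      · rcases (Nat.lt_succ_iff.1 hl).eq_or_lt with rfl | c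
        · exact .inl a
        · obtain dl : d.deep k p.toSk l := ⟨by omega, by linarith only [hG1, hς, Rm, hvv, a, hk.u_le]⟩
          obtain this := J6 l E c dl (hmin l (by omega) c dl) (by linarith only [Rm, hvv, a]) hEd hEo
          linarith only [a, this]
  obtain cas : s.B' = E ∨ -p.ω s.B' ≤ d.tt 2 (s.B + 1) - 3 * p.Rst (s.B + 1) + 21 / 10 * k.G := by
    rcases hle.eq_or_lt with a | a
    · exact .inl a
    · right
      obtain dl : d.deep k p.toSk s.B' := hs.nxt.resolve_right (by omega)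
      have b := not_le.1 (hmin s.B' hs.lt a dl)
      obtain c := J4 (s.B + 1) (s.B' + 1) (by have := hs.lt; omega) (by omega) (hnc _ a)
      have e : p.R s.B' ≤ p.Rst (s.B' + 1) := Sk.le_Rst (Nat.lt_succ_self _)
      obtain f : p.Rst (s.B + 1) ≤ p.Rst (s.B' + 1) := Sk.Rst_mono (by have := hs.lt; omega)
      linarith only [g11, b, c, e, f]
  obtain hQ : ((((Ioc s.B E).filter (d.deep k p.toSk)).card : ℕ) : ℝ) = q + 1 := by
    rw [NEXT.card_last _ hBE hEd, ← hq]; push_cast; rfl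
  obtain kn2 : (s.t2 : ℝ) + p.ω E + p.R E ≤ 4 * p.Rst (E + 1) + 3 * k.G * (q + 1) := by linarith only [hG1, hς, Gq, t5, t3, e2]
  obtain kn1 : 2 * (s.r : ℝ) + s.t1 + p.ω E + p.R E ≤ 4 * p.Rst (E + 1) + 3 * k.G * (q + 1) := by
    rcases cas with a | a
    · rw [a] at e1; linarith only [hG1, hς, Gq, t5, t3, RE, Rm, r2, e1]
    · linarith only [hG1, hς, Gq, t5, t3, r2, e1, a]
  have m0 := le_max_left (0 : ℝ) (3 * (⌈p.Rst (E + 1)⌉ : ℝ) - 4 * s.r)
  have m1 := le_max_right (0 : ℝ) (3 * (⌈p.Rst (E + 1)⌉ : ℝ) - 4 * s.r)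
  obtain m2 : 4 * p.Rst (E + 1) - p.R E - 4 * s.r ≤ max 0 (3 * (⌈p.Rst (E + 1)⌉ : ℝ) - 4 * s.r) := by
    rcases dich with a | a <;> linarith only [c1, m1, a, R0, r1, m0]
  obtain clip0 : p.Rst (E + 1) = p.Rst (s.B + 1) →
      Real.log D ≤ -2 * (⌈p.Rst (E + 1)⌉ : ℝ) + 35 * k.G * (q + 1) := fun a => by
    have := hv.c1
    linarith only [hG1, hς, Gq, r1, c2, a, this]
  refine ⟨E, ((Ioc s.B E).filter (d.deep k p.toSk)).card, hle, hEd, hEo, ?_,
    NEXT.card_split _ hBE hEM, ?_, ?_, ?_, ?_, ?_, ?_, ?_⟩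
  · rw [NEXT.card_last _ hBE hEd]; omega
  · rw [hs.r]; exact Int.ceil_mono Rm
  · rw [hQ]; exact kn2
  · rw [hQ]; exact kn1
  · rw [hQ]
    obtain this : max ((s.t2 : ℝ) - 4 * s.r) (-s.r - p.ω s.B') ≤
        max 0 (3 * (⌈p.Rst (E + 1)⌉ : ℝ) - 4 * s.r) + 4 * k.G * (q + 1) - p.ω E := by
      refine max_le (by linarith only [hG1, hς, Gq, t5, t3, e2, m2]) ?_
      rcases cas with a | a
      · rw [a]; linarith only [hG1, hς, Gq, hvv, r1, m0]
      · linarith only [hG1, hς, Gq, t5, t3, r2, m2, a]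
    linarith only [this]
  · intro l a b c
    have e := hc.ch.ttA 2 (.inl rfl) (s.B + 1) l a c (hnc l b.le)
    obtain f : (2 * ((2 : ℕ) : ℝ) - 1) = 3 := by norm_num
    rw [f] at e
    exact e.trans e2'
  · refine (hc.ch.jet1 E E le_rfl hEM.le fun c a b => by omega).trans (Real.exp_le_exp.2 ?_)
    obtain this : max ((d.tt 2 E - 2 * p.ω E) / 3) (-p.ω E) ≤ 2 * p.Rst (E + 1) - p.R E - p.ω E :=
      max_le (by linarith only [t3, RE]) (by linarith only [hG1, hς, RE, Rm, hvv])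
    linarith only [this]
  · rw [hQ]
    rcases dich with a | a
    · obtain ⟨-, kk, TT, hl, hT⟩ := lk
      rcases hl.el E hBE hEd (hnc E le_rfl) with b | b
      · rcases le_max_iff.1 b with b | b
        · exact clip0 (by linarith only [Rm, a, b])
        · have := hv.c2
          linarith only [hG1, hς, hρ, Gq, c2, a, b, this]
      · obtain hT' : TT * D ^ kk ≤ Real.exp (60 * k.G) *
            ((Real.exp s.t2 + Real.exp (2 * s.r + s.t1)) * D ^ 2) := by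
          rw [Real.exp_add]; exact hT
        obtain this := NEXT.clip_aux (a := p.ω E) (R := p.R E) (x := 3 * k.G * (q + 1)) hv.D0 hl.k4 b hT'
          (by linarith only [hG1, hς, Gq, t5, t3, e2, a]) (by linarith only [kn1, a]) (by linarith only [hG1, hς, Gq])
        linarith only [hG1, hς, Gq, c2, a, this]
    · exact clip0 a

end Pool.Agent.MP_9cbfe4_an.E

end

/-! ### Part RUNB -/

section

/-! Row RUNB of section E-B: box, partition by stage data, iteration of TL (helper27). -/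

namespace Pool.Agent.MP_9cbfe4_an.E

open Finset MeasureTheory
open scoped Classical

noncomputable section

namespace RB

variable {Z : Type} {t : Z → ℝ} {C : Set Z} {b : ℝ}

theorem vol_cover {ι : Type} (T : Finset ι) (Q : ι → Z → Prop) {N : ℝ} (hN : (T.card : ℝ) ≤ N)
    (hb0 : 0 ≤ b) (h : ∀ z ∈ C, ∃ a ∈ T, Q a z)
    (hb : ∀ a, ∀ C' ⊆ C, (∀ z ∈ C', Q a z) → volume (t '' C') ≤ ENNReal.ofReal b) :
    volume (t '' C) ≤ ENNReal.ofReal (N * b) := by
  calc volume (t '' C) ≤ volume (⋃ a ∈ T, t '' {z | z ∈ C ∧ Q a z}) := by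
        refine measure_mono ?_
        rintro _ ⟨z, hz, rfl⟩
        obtain ⟨a, ha, h1⟩ := h z hz
        exact Set.mem_biUnion (Finset.mem_coe.2 ha) ⟨z, ⟨hz, h1⟩, rfl⟩
    _ ≤ ∑ a ∈ T, volume (t '' {z | z ∈ C ∧ Q a z}) := measure_biUnion_finset_le _ _
    _ ≤ ∑ _a ∈ T, ENNReal.ofReal b :=
        Finset.sum_le_sum fun a _ => hb a _ (fun _ hz => hz.1) fun _ hz => hz.2
    _ = ENNReal.ofReal (T.card * b) := by
        rw [Finset.sum_const, nsmul_eq_mul, ENNReal.ofReal_mul (Nat.cast_nonneg _),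
          ENNReal.ofReal_natCast]
    _ ≤ _ := ENNReal.ofReal_le_ofReal (mul_le_mul_of_nonneg_right hN hb0)

/-- partition by an integer -/
theorem vol_int (f : Z → ℤ) {X : ℝ} (hX : 0 ≤ X) (hb0 : 0 ≤ b) (hf : ∀ z ∈ C, |(f z : ℝ)| ≤ X)
    (hb : ∀ a : ℤ, ∀ C' ⊆ C, (∀ z ∈ C', f z = a) → volume (t '' C') ≤ ENNReal.ofReal b) :
    volume (t '' C) ≤ ENNReal.ofReal ((2 * X + 1) * b) := by
  have h0 : 0 ≤ ⌊X⌋ := Int.floor_nonneg.2 hX
  refine vol_cover (Finset.Icc (-⌊X⌋) ⌊X⌋) (fun a z => f z = a) ?_ hb0 (fun z hz => ?_) hb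
  · obtain e : ((Finset.Icc (-⌊X⌋) ⌊X⌋).card : ℤ) = ⌊X⌋ + 1 - -⌊X⌋ :=
      Int.card_Icc_of_le _ _ (by omega)
    obtain e' : ((Finset.Icc (-⌊X⌋) ⌊X⌋).card : ℝ) = (⌊X⌋ : ℝ) + 1 - -(⌊X⌋ : ℝ) := by
      exact_mod_cast e
    have := Int.floor_le X
    linarith only [e', this]
  · have h := abs_le.1 (hf z hz)
    have a1 : f z ≤ ⌊X⌋ := Int.le_floor.2 h.2
    obtain a2 : -f z ≤ ⌊X⌋ := Int.le_floor.2 (by push_cast; linarith only [h.1])
    exact ⟨f z, Finset.mem_Icc.2 ⟨by omega, a1⟩, rfl⟩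

theorem vol_diam {h : ℝ} (H : ∀ z ∈ C, ∀ z' ∈ C, |t z - t z'| ≤ h) (hb : 2 * h ≤ b) :
    volume (t '' C) ≤ ENNReal.ofReal b := by
  rcases C.eq_empty_or_nonempty with rfl | ⟨z0, h0⟩
  · simp
  calc volume (t '' C) ≤ volume (Set.Icc (t z0 - h) (t z0 + h)) := by
        refine measure_mono ?_
        rintro _ ⟨z, hz, rfl⟩
        have := abs_le.1 (H z hz z0 h0)
        exact ⟨by linarith only [this.1], by linarith only [this.2]⟩
    _ ≤ _ := by
        rw [Real.volume_Icc]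
        exact ENNReal.ofReal_le_ofReal (by linarith only [hb])

/-- partition of a label interval -/
theorem vol_lab (lab : Z → ℝ) {ℓ X : ℝ} (hl : 0 < ℓ) (hX : 0 ≤ X) (hb0 : 0 ≤ b)
    (H : ∀ z ∈ C, ∀ z' ∈ C, |lab z - lab z'| ≤ X * ℓ)
    (hb : ∀ C' ⊆ C, (∀ z ∈ C', ∀ z' ∈ C', |lab z - lab z'| ≤ ℓ) →
      volume (t '' C') ≤ ENNReal.ofReal b) :
    volume (t '' C) ≤ ENNReal.ofReal ((2 * (X + 1) + 1) * b) := by
  rcases C.eq_empty_or_nonempty with rfl | ⟨z0, h0⟩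
  · simp
  refine vol_int (fun z => ⌊(lab z - lab z0) / ℓ⌋) (by linarith only [hX]) hb0 (fun z hz => ?_)
    fun a C' hC e => hb C' hC fun z hz z' hz' => ?_
  · have h := abs_le.1 (H z hz z0 h0)
    have a1 : (lab z - lab z0) / ℓ ≤ X := (div_le_iff₀ hl).2 h.2
    obtain a2 : -X ≤ (lab z - lab z0) / ℓ := (le_div_iff₀ hl).2 (by linarith only [h.1])
    have a3 := Int.floor_le ((lab z - lab z0) / ℓ)
    have a4 := Int.lt_floor_add_one ((lab z - lab z0) / ℓ)
    exact abs_le.2 ⟨by linarith only [a2, a4], by linarith only [a1, a3]⟩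
  · have h := Int.abs_sub_lt_one_of_floor_eq_floor ((e z hz).trans (e z' hz').symm)
    obtain e2 : (lab z - lab z0) / ℓ - (lab z' - lab z0) / ℓ = (lab z - lab z') / ℓ := by ring
    rw [e2, abs_div, abs_of_pos hl, div_lt_one hl] at h
    exact h.le

theorem Cl.sub {k : Par} {P : Z → Pr} {d : Z → Cd} {C' : Set Z} (h : Cl k P d C) (hC : C' ⊆ C) :
    Cl k P d C' :=
  ⟨fun z hz => h.one z (hC hz), fun z hz z' hz' => h.two z (hC hz) z' (hC hz')⟩

theorem VL.mono {k : Par} {p : Pr} {s : St} {D D' : ℝ} (h : p.VL k s D) (h0 : 0 < D')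
    (hD : D' ≤ D) : p.VL k s D' := by
  have l := Real.log_le_log h0 hD
  refine ⟨h0, l.trans h.c1, l.trans h.c2, fun j h1 h2 => le_trans ?_ (h.jet j h1 h2)⟩
  exact mul_le_mul_of_nonneg_left (pow_le_pow_left₀ h0.le hD j) (abs_nonneg _)

/-- numeric facts -/
structure Nm (k : Par) : Prop where
  K : (10 : ℝ) ≤ k.K
  u : 10 ^ 10 ≤ k.u
  ρ0 : 0 < k.ρ
  ς : 40 * k.u ≤ k.ς
  G : 10 * k.ς ≤ k.G
  W0 : 0 ≤ k.Wc
  W : 2 * (11 * k.Wc) + 1 ≤ Real.exp (2 * k.u)
  q : k.ς / (2 * k.K) = 2 * k.u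
  I : 1525 * k.ρ / k.u + 1 ≤ k.u

theorem nm {k : Par} (h : k.OK) : Nm k := by
  obtain hK : (10 : ℝ) ≤ k.K := by exact_mod_cast h.K10
  have hg := h.g10
  obtain hu : 10 ^ 10 ≤ k.u := by nlinarith only [hK, h.big]
  obtain hς : 40 * k.u ≤ k.ς := by unfold Par.ς; nlinarith only [hK, hu]
  obtain hG : 10 * k.ς ≤ k.G := by unfold Par.G; nlinarith only [hg, hu, hς]
  obtain hρ : 0 < k.ρ := by
    refine lt_of_lt_of_le ?_ h.small
    obtain this : 0 < k.ς := by linarith only [hu, hς]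
    positivity
  have b2 := h.big2
  obtain e1 : k.u ≤ Real.exp k.u := by linarith only [Real.add_one_le_exp k.u]
  obtain e2 : k.u ^ 2 ≤ Real.exp (2 * k.u) := by
    rw [two_mul, Real.exp_add, sq]
    exact mul_le_mul e1 e1 (by linarith only [hu]) (by positivity)
  refine ⟨hK, hu, hρ, hς, hG, by unfold Par.Wc; (clear * - hK hρ; positivity), ?_, ?_, ?_⟩
  · unfold Par.Wc
    nlinarith only [hu, hρ, b2, e2, hK]
  · unfold Par.ς
    field_simp
    ring
  · obtain this : 1525 * k.ρ / k.u ≤ k.u / 2 := by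
      rw [div_le_iff₀ (by linarith only [hu])]
      nlinarith only [hρ, b2, hK]
    linarith only [hu, this]

/-- iteration of TL inside one zone -/
theorem iter (sd : SD_s) (tl : TL_s) {k : Par} (hk : k.OK) {n : ℕ} (zf : ZF k n) {P : Z → Pr}
    {d : Z → Cd} {s : St} {v : ℝ}
    (hv : v = Real.exp (-k.Ψ s.r + 1000 * k.G * (n + 1) - 500 * k.G)) (j : ℕ) :
    ∀ (D : ℝ) (C : Set Z), Cl k P d C → D * Real.exp (-(2 * k.u * j)) ≤ Real.exp (-k.Ψ s.r) →
    (∀ z ∈ C, (P z).SF k (d z) s ∧ (P z).VL k s D ∧ (P z).dd k (d z) s.B ≤ n) →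
    (∀ z ∈ C, ∀ z' ∈ C, |(P z).t - (P z').t| ≤ D / 4 ∧ |(P z).lab - (P z').lab| ≤ s.zl k) →
    volume ((fun z => (P z).t) '' C) ≤ ENNReal.ofReal (Real.exp ((k.K + 1) * j) * v) := by
  have N := nm hk
  have v0 : 0 < v := hv ▸ Real.exp_pos _
  obtain hG : 0 ≤ k.G := by linarith only [N.G, N.ς, N.u]
  obtain v1 : Real.exp (-k.Ψ s.r) ≤ v := by
    rw [hv]
    refine Real.exp_le_exp.2 ?_
    obtain this : (0 : ℝ) ≤ k.G * n := by (clear * - hG; positivity)
    linarith only [hG, this]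
  obtain ge1 : ∀ j : ℕ, v ≤ Real.exp ((k.K + 1) * j) * v := fun j =>
    le_mul_of_one_le_left v0.le (Real.one_le_exp (by (clear * -; positivity)))
  obtain small : ∀ (j : ℕ) (D : ℝ) (C : Set Z), D ≤ Real.exp (-k.Ψ s.r) →
      (∀ z ∈ C, ∀ z' ∈ C, |(P z).t - (P z').t| ≤ D / 4 ∧ |(P z).lab - (P z').lab| ≤ s.zl k) →
      volume ((fun z => (P z).t) '' C) ≤ ENNReal.ofReal (Real.exp ((k.K + 1) * j) * v) :=
    fun j D C hD h => vol_diam (fun z hz z' hz' => (h z hz z' hz').1) (by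
      linarith only [v0, v1, hD, ge1 j, Real.exp_pos (-k.Ψ s.r)])
  induction j with
  | zero =>
    intro D C _ hD _ h
    exact small 0 D C (by simpa using hD) h
  | succ j ih =>
    intro D C hC hD h1 h2
    rcases le_total D (Real.exp (-k.Ψ s.r)) with c | c
    · exact small _ D C c h2
    have D0 : 0 < D := (Real.exp_pos _).trans_le c
    set b := Real.exp ((k.K + 1) * j) * v with hb
    obtain b0 : 0 < b := by positivity
    obtain A : volume ((fun z => (P z).t) '' {z | z ∈ C ∧ ¬ (P z).HI k s D}) ≤ ENNReal.ofReal v := by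
      rw [hv]
      exact zf Z P d _ s D (Cl.sub hC fun _ hz => hz.1) c
        (fun z hz => ⟨(h1 z hz.1).1, (h1 z hz.1).2.1, (h1 z hz.1).2.2, hz.2⟩)
        fun z hz z' hz' => h2 z hz.1 z' hz'.1
    obtain B : volume ((fun z => (P z).t) '' {z | z ∈ C ∧ (P z).HI k s D})
        ≤ ENNReal.ofReal (2 ^ k.K * b) := by
      rcases Set.eq_empty_or_nonempty {z | z ∈ C ∧ (P z).HI k s D} with e | ⟨z0, h0, hi⟩
      · rw [e]; simp
      have c0 := hC.one z0 h0
      obtain ⟨T, hT, hq⟩ := tl k (P z0) s D hk c0.sk c0.la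
        (sd k _ _ s hk c0 (h1 z0 h0).1) (h1 z0 h0).2.1 hi
      rw [N.q] at hq
      obtain q1 : Real.exp (-(2 * k.u)) ≤ 1 := Real.exp_le_one_iff.2 (by linarith only [N.u])
      refine vol_cover T (fun x z => |(P z).t - x| ≤ D * Real.exp (-(2 * k.u)) / 8)
        (by exact_mod_cast hT) b0.le (fun z hz => ?_) fun x C' hs hx => ?_
      · exact hq (P z) (hC.one z hz.1).sk (sd k _ _ s hk (hC.one z hz.1) (h1 z hz.1).1)
          (hC.two z0 h0 z hz.1) (h2 z hz.1 z0 h0).1 (h2 z0 h0 z hz.1).2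
      · have hs' : C' ⊆ C := fun z hz => (hs hz).1
        refine ih (D * Real.exp (-(2 * k.u))) C' (Cl.sub hC hs') ?_ (fun z hz => ?_)
          fun z hz z' hz' => ⟨?_, (h2 z (hs' hz) z' (hs' hz')).2⟩
        · refine le_trans (le_of_eq ?_) hD
          rw [mul_assoc, ← Real.exp_add]
          congr 2
          push_cast
          ring
        · have := h1 z (hs' hz)
          exact ⟨this.1, VL.mono this.2.1 (by positivity) (mul_le_of_le_one_right D0.le q1),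
            this.2.2⟩
        · have a1 := abs_le.1 (hx z hz)
          have a2 := abs_le.1 (hx z' hz')
          exact abs_le.2 ⟨by linarith only [a1.1, a2.2], by linarith only [a1.2, a2.1]⟩
    obtain two : (2 : ℝ) ^ (k.K + 1) ≤ Real.exp (k.K + 1) := by
      obtain this : (2 : ℝ) ≤ Real.exp 1 := by linarith only [Real.add_one_le_exp (1 : ℝ)]
      calc (2 : ℝ) ^ (k.K + 1) ≤ Real.exp 1 ^ (k.K + 1) := pow_le_pow_left₀ (by norm_num) this _
        _ = _ := by rw [← Real.exp_nat_mul]; push_cast; rw [mul_one]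
    calc volume ((fun z => (P z).t) '' C)
        ≤ volume ((fun z => (P z).t) '' {z | z ∈ C ∧ ¬ (P z).HI k s D} ∪
            (fun z => (P z).t) '' {z | z ∈ C ∧ (P z).HI k s D}) := by
          refine measure_mono ?_
          rintro _ ⟨z, hz, rfl⟩
          by_cases hi : (P z).HI k s D
          · exact Or.inr ⟨z, ⟨hz, hi⟩, rfl⟩
          · exact Or.inl ⟨z, ⟨hz, hi⟩, rfl⟩
      _ ≤ ENNReal.ofReal v + ENNReal.ofReal (2 ^ k.K * b) :=
          (measure_union_le _ _).trans (add_le_add A B)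
      _ = ENNReal.ofReal (v + 2 ^ k.K * b) := (ENNReal.ofReal_add v0.le (by positivity)).symm
      _ ≤ _ := by
          refine ENNReal.ofReal_le_ofReal ?_
          obtain e : Real.exp ((k.K + 1) * ((j + 1 : ℕ) : ℝ)) * v = Real.exp (k.K + 1) * b := by
            rw [hb, ← mul_assoc, ← Real.exp_add]
            congr 2
            push_cast
            ring
          have a1 : v ≤ b := ge1 j
          obtain a2 : b ≤ 2 ^ k.K * b := le_mul_of_one_le_left b0.le (one_le_pow₀ (by norm_num))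
          have a3 := mul_le_mul_of_nonneg_right two b0.le
          rw [pow_succ] at a3
          rw [e]
          linarith only [a1, a2, a3]

end RB

open RB

theorem runb : RUNB_s := by
  intro sd ent box tl k hk n zf Z P d C E r D hC h1 h2
  have N := nm hk
  have hu := N.u
  have hς := N.ς
  have hG := N.G
  obtain hn : (0 : ℝ) ≤ k.G * n := mul_nonneg (by linarith only [hu, hς, hG]) (Nat.cast_nonneg _)
  rcases le_total D (Real.exp (-k.Ψ r)) with c | c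
  · refine vol_diam (fun z hz z' hz' => (h2 z hz z' hz').1) ?_
    obtain this : Real.exp (-k.Ψ r) ≤ Real.exp (-k.Ψ r + 1000 * k.G * (n + 1)) :=
      Real.exp_le_exp.2 (by linarith only [hu, hς, hG, hn])
    linarith only [c, this, Real.exp_pos (-k.Ψ r)]
  have D0 : 0 < D := (Real.exp_pos _).trans_le c
  have hΨ : k.Ψ r ≤ 3050 * k.ρ := min_le_right _ _
  obtain hD : k.Dst ≤ D := (Real.exp_le_exp.2 (by linarith only [hΨ, N.ρ0])).trans c
  obtain ex : ∀ z, ∃ s : St, z ∈ C → s.B = E ∧ (P z).SF k (d z) s ∧ (P z).VL k s D ∧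
      100 * (s.B' : ℝ) ≤ Real.exp k.ς ∧ |(s.r : ℝ)| ≤ 2 * k.Wc ∧ |(s.y : ℝ)| ≤ 2 * k.Wc ∧
      |(s.t1 : ℝ)| ≤ 2 * k.Wc ∧ |(s.t2 : ℝ)| ≤ 2 * k.Wc ∧ |(s.t3 : ℝ)| ≤ 2 * k.Wc := fun z => by
    by_cases hz : z ∈ C
    · obtain ⟨s, hs⟩ := ent k (P z) (d z) E D hk (hC.one z hz) (h1 z hz).1 hD
      exact ⟨s, fun _ => hs⟩
    · exact ⟨⟨0, 0, 0, 0, 0, 0, 0⟩, fun h => (hz h).elim⟩
  choose S hS using ex
  set v := Real.exp (-k.Ψ r + 1000 * k.G * (n + 1) - 500 * k.G) with hv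
  set I := ⌈1525 * k.ρ / k.u⌉₊ with hI
  set b := Real.exp ((k.K + 1) * I) * v with hb
  set X := Real.exp (2 * k.G + 2 * k.ς + 1) with hX
  set w := 2 * (11 * k.Wc) + 1 with hw
  have W0 := N.W0
  obtain b0 : 0 < b := by positivity
  obtain X0 : 0 < X := by positivity
  obtain w0 : 0 < w := by (clear * - W0; positivity)
  obtain x0 : 0 ≤ 11 * k.Wc := by positivity
  obtain main : volume ((fun z => (P z).t) '' C) ≤
      ENNReal.ofReal ((2 * (Real.exp k.ς / 100) + 1) *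
        (w * (w * (w * (w * ((2 * (X + 1) + 1) * b)))))) := by
    refine vol_int (fun z => ((S z).B' : ℤ)) (by positivity) (by (clear * - W0; positivity)) (fun z hz => ?_)
      fun a1 C1 s1 e1 => ?_
    · have := (hS z hz).2.2.2.1
      push_cast
      rw [abs_of_nonneg (Nat.cast_nonneg _)]
      linarith only [this]
    refine vol_int (fun z => (S z).y) x0 (by (clear * - W0; positivity))
      (fun z hz => by linarith only [W0, (hS z (s1 hz)).2.2.2.2.2.1]) fun a2 C2 s2 e2 => ?_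
    refine vol_int (fun z => (S z).t1) x0 (by (clear * - W0; positivity))
      (fun z hz => by linarith only [W0, (hS z (s1 (s2 hz))).2.2.2.2.2.2.1]) fun a3 C3 s3 e3 => ?_
    refine vol_int (fun z => (S z).t2) x0 (by (clear * - W0; positivity))
      (fun z hz => by linarith only [W0, (hS z (s1 (s2 (s3 hz)))).2.2.2.2.2.2.2.1]) fun a4 C4 s4 e4 => ?_
    refine vol_int (fun z => (S z).t3) x0 (by positivity)
      (fun z hz => by linarith only [W0, (hS z (s1 (s2 (s3 (s4 hz))))).2.2.2.2.2.2.2.2])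
      fun a5 C5 s5 e5 => ?_
    have sub : C5 ⊆ C := fun z hz => s1 (s2 (s3 (s4 (s5 hz))))
    set s : St := ⟨E, a1.toNat, r, a2, a3, a4, a5⟩ with hs
    obtain eS : ∀ z ∈ C5, S z = s := fun z hz => by
      have f := hS z (sub hz)
      have f0 : (S z).B = E := f.1
      obtain f1 : (S z).B' = a1.toNat := by
        have := e1 z (s2 (s3 (s4 (s5 hz))))
        omega
      obtain f2 : (S z).r = r := by
        rw [f.2.1.r, f0]
        exact (h1 z (sub hz)).2.1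
      have f3 : (S z).y = a2 := e2 z (s3 (s4 (s5 hz)))
      have f4 : (S z).t1 = a3 := e3 z (s4 (s5 hz))
      have f5 : (S z).t2 = a4 := e4 z (s5 hz)
      have f6 : (S z).t3 = a5 := e5 z hz
      rw [hs, ← f0, ← f1, ← f2, ← f3, ← f4, ← f5, ← f6]
    have sf : ∀ z ∈ C5, (P z).SF k (d z) s := fun z hz => eS z hz ▸ (hS z (sub hz)).2.1
    have vl : ∀ z ∈ C5, (P z).VL k s D := fun z hz => eS z hz ▸ (hS z (sub hz)).2.2.1
    refine vol_lab (fun z => (P z).lab) (ℓ := s.zl k) (Real.exp_pos _) X0.le b0.le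
      (fun z hz z' hz' => ?_) fun C6 s6 hl => ?_
    · have hz0 := sub hz
      have hz1 := sub hz'
      refine (box k (P z) (P z') (d z) (d z') E D hk (hC.one z hz0) (hC.one z' hz1) (h1 z hz0).1
        (h1 z' hz1).1 (hC.two z hz0 z' hz1) (by linarith only [D0, (h2 z' hz1 z hz0).1])
        (h2 z hz0 z' hz1).2).trans ?_
      obtain y1 : (s.y : ℝ) < (P z).R E + (P z).ω E + 1 := by
        rw [(sf z hz).y]
        exact Int.ceil_lt_add_one _
      rw [hX, St.zl, ← Real.exp_add]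
      refine Real.exp_le_exp.2 ?_
      have : k.G = k.g * k.ς := rfl
      linarith only [y1, this]
    · have z6 : ∀ z ∈ C6, z ∈ C := fun z hz => sub (s6 hz)
      rcases C6.eq_empty_or_nonempty with rfl | ⟨z0, h0⟩
      · simp
      refine iter sd tl hk zf (s := s) hv I D C6 (Cl.sub hC z6) ?_
        (fun z hz => ⟨sf z (s6 hz), vl z (s6 hz), (h1 z (z6 z hz)).2.2⟩)
        fun z hz z' hz' => ⟨(h2 z (z6 z hz) z' (z6 z' hz')).1, hl z hz z' hz'⟩
      obtain d1 : D ≤ 1 := by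
        have := (vl z0 (s6 h0)).c2
        exact (Real.log_nonpos_iff D0.le).1 (by linarith only [this, N.ρ0])
      obtain i1 : 1525 * k.ρ ≤ I * k.u := (div_le_iff₀ (by linarith only [hu])).1 (Nat.le_ceil _)
      refine (mul_le_of_le_one_left (Real.exp_pos _).le d1).trans (Real.exp_le_exp.2 ?_)
      have : k.Ψ s.r = k.Ψ r := rfl
      linarith only [hΨ, i1]
  refine main.trans (ENNReal.ofReal_le_ofReal ?_)
  obtain i2 : (I : ℝ) ≤ k.u := by
    obtain this := Nat.ceil_lt_add_one (a := 1525 * k.ρ / k.u) (by have := N.ρ0; positivity)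
    linarith only [this, N.I]
  obtain i3 : ((k.K : ℝ) + 1) * I ≤ k.ς := by
    obtain this := mul_le_mul_of_nonneg_left i2 (by positivity : (0 : ℝ) ≤ k.K + 1)
    have e : k.ς = 4 * k.K * k.u := rfl
    linarith only [hu, hς, this, e, N.K]
  obtain x1 : 1 ≤ X := Real.one_le_exp (by linarith only [hu, hς, hG])
  obtain x2 : 2 * (X + 1) + 1 ≤ Real.exp 4 * X := by
    obtain this : (5 : ℝ) ≤ Real.exp 4 := by linarith only [Real.add_one_le_exp (4 : ℝ)]
    nlinarith only [x1, X0, this]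
  have hw' := N.W
  rw [← hw] at hw'
  obtain x3 : 2 * (Real.exp k.ς / 100) + 1 ≤ Real.exp k.ς := by
    linarith only [hu, hς, Real.add_one_le_exp k.ς]
  calc (2 * (Real.exp k.ς / 100) + 1) * (w * (w * (w * (w * ((2 * (X + 1) + 1) * b)))))
      ≤ Real.exp k.ς * (Real.exp (2 * k.u) * (Real.exp (2 * k.u) * (Real.exp (2 * k.u) *
        (Real.exp (2 * k.u) * ((Real.exp 4 * X) * b))))) := by (clear * - x3 hw' x2 W0; gcongr)
    _ ≤ _ := by
        rw [hX, hb, hv]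
        simp only [← Real.exp_add]
        exact Real.exp_le_exp.2 (by linarith only [hu, hς, hG, i3])

end
end Pool.Agent.MP_9cbfe4_an.E

end

/-! ### Part DS1 -/

section

/-! Row DS1: flat description of a bound run; D4, D6, D8, relative B5, crude bound, stability of `ρ`. -/

namespace Pool.Agent.MP_9cbfe4_an

open Finset Filter Topology

noncomputable section

namespace Sq
variable (c : Cs) (Ex : ExT) (S : Sq)

/-- more facts on one step of any run -/
structure Blk3 (ξ : ℤ → ℝ) (s x : ℤ) (r : ℝ) (p : ℤ) : Prop where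
  inner : p = x + 1 ∨ ∃ Ls r', S.BRun c Ex ξ x Ls p r' ∧ S.RInv c (S.fr (x + 1)) (x + 1) p ∧
    S.BInv c x Ls p ∧ S.Wp c x p ≤ 2 * r ∧
    c.cw * c.L ≤ S.rho ξ x p ^ 2 * Real.exp (S.Wt c (S.fr (x + 1)) (x + 1) p r')
  whA : ∀ i, x ≤ i → i ≤ p → S.wh c ξ s i ≤ Real.exp (S.Zb c x r + c.lam + 5) * S.AA c ξ s p
  d4 : ∀ i l, s ≤ i → i ≤ l → x ≤ l → l ≤ p → S.PB c (2 / 100) i l * S.wh c ξ s i ≤
    2 * Real.exp (c.CN * S.Zb c x r / 10 + c.lam + 1 - S.chi c i l / 2) * S.wh c ξ s l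
  e0 : ∀ i j, x ≤ i → i < j → j ≤ p →
    |S.fr (i + 1) j| * (c.L * |ξ x|) ≤ 2 * Real.exp (2 * S.Zb c x r + r) * S.wh c ξ s j
  sharp : 1 ≤ r → ∀ i, x < i → i ≤ p →
    S.PB c (2 / 100) x i ≤ Real.exp (-(1 - c.a) * S.chi c x i) ∧
    Real.exp (-(c.a / 8 * S.chi c x i)) ≤ S.wp c x i ∧ S.wp c x i ≤ Real.exp (c.a / 4 * S.chi c x i) ∧
    |ξ i / ξ x - S.rho ξ x p * S.fr (x + 1) i| ≤ Real.exp (-(1 - c.a) * S.chi c x i) ∧
    ∀ j, i < j → j ≤ p → |S.fr (i + 1) j| * c.L ≤ Real.exp (c.a / 4 * S.chi c x i) * S.wp c x j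

/-- the partner run of the fold `(ξ, n)` is bound up to `p`, with load at most `l` -/
structure Top (ξ : ℤ → ℝ) (n : ℤ) (l : ℝ) (Ls : List (ℤ × ℝ)) (p : ℤ) : Prop where
  ok : S.OK c
  out : S.Out c ξ n
  run : S.Run c Ex (S.fr (n + 1)) (n + 1) (S.PBd c Ex ξ n) Ls p
  bd : ∃ r, S.Bd c ξ n p r
  ld : S.load c n (S.Wp c n p) ≤ l

/-- everything about the step `(x, r, q)` of a run with steps `Ls` ending at `p` -/
structure AllS (ξ : ℤ → ℝ) (n : ℤ) (l : ℝ) (Ls : List (ℤ × ℝ)) (p x : ℤ) (r : ℝ) (q : ℤ) : Prop where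
  mem : (x, r) ∈ Ls
  lt : n < x ∧ x < q ∧ q ≤ p
  nxt : q = p ∨ ∃ r', (q, r') ∈ Ls
  gap : ∀ y ∈ Ls, y.1 < x ∨ y = (x, r) ∨ q ≤ y.1
  cut : ∃ L1 L0, Ls = L1 ++ (x, r) :: L0 ∧ S.Top c Ex ξ n l L0 x ∧ S.PBd c Ex ξ n L0 x r ∧
    S.Top c Ex ξ n l ((x, r) :: L0) q ∧ S.Chain c Ex (S.fr (n + 1)) (n + 1) q L1 p ∧
    ∀ y ∈ L1, q ≤ y.1
  step : S.Step c Ex (S.fr (n + 1)) (n + 1) x r q
  rx : S.RInv c (S.fr (n + 1)) (n + 1) x
  rq : S.RInv c (S.fr (n + 1)) (n + 1) q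
  b2 : S.Blk2 c (S.fr (n + 1)) (n + 1) x r q
  b3 : S.Blk3 c Ex (S.fr (n + 1)) (n + 1) x r q
  fx : S.Fr0 c n l x
  fq : S.Fr0 c n l q
  st : S.St0 c n l x r q
end Sq

/-- row DS1 -/
def DS1_s (c : Cs) : Prop :=
  (∀ Ex (S : Sq) ξ s P Ls x r p, S.OK c → S.St c ξ s → S.Run c Ex ξ s P ((x, r) :: Ls) p →
    S.Blk3 c Ex ξ s x r p) ∧
  (c.θb / (1 - c.θb) < c.κ →
  ∀ Ex : ExT, (∀ S ξ n Ls p r, Ex S ξ n Ls p r → Cstar c S ξ n Ls p r) →
  ∀ (S : Sq) ξ n l Ls p, S.Top c Ex ξ n l Ls p →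
  -- flat description
  (∀ i, n < i → i < p → ∃ x r q, x ≤ i ∧ i < q ∧ S.AllS c Ex ξ n l Ls p x r q) ∧
  (∀ z ∈ Ls, ∃ q, S.AllS c Ex ξ n l Ls p z.1 z.2 q) ∧
  -- D8
  (∀ δ B, δ ≤ 1 / 4 → 0 ≤ B →
    (∀ z ∈ Ls, δ * c.cW l (S.Wp c n z.1) + c.lam ≤ z.2 →
      Real.exp (c.e3 ^ 18 * (c.cW l (S.Wp c n z.1) + c.lam) + z.2) ≤ B * (c.L * |S.fr (n + 1) z.1|)) →
    ∀ j, n < j → j ≤ p →
      ∑ i ∈ Ico (n + 1) j, |S.fr (i + 1) j| ≤ (Real.exp (-c.lam / 3) + B) * S.wp c n j) ∧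
  -- relative B5 between free times
  (∀ m z, (m = p ∨ ∃ r, (m, r) ∈ Ls) → (z = p ∨ ∃ r, (z, r) ∈ Ls) → m ≤ z →
    S.Wp c n z ≤ (1 + c.κ) * (2 * S.Wp c n m + 6 * c.lam + 5 * S.chi c m z / c.β)) ∧
  -- crude bound and stability of the fold coefficient
  (∀ x r q, S.AllS c Ex ξ n l Ls p x r q →
    (∀ i j, x ≤ i → i < q → i < j → j ≤ p →
      |S.fr (i + 1) j| ≤ Real.exp (9 * (1 + c.κ) ^ 2 * (S.Wp c n q + c.lam)) * S.wp c n j) ∧
    (c.ε * c.cW l (S.Wp c n x) + c.lam ≤ r → ∀ j, q ≤ j → j ≤ p →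
      |S.fr (x + 1) j * S.fr (n + 1) x * S.rho (S.fr (n + 1)) x q - S.fr (n + 1) j| ≤
        Real.exp (-S.chi c x q / 2) * S.wp c n j)))

namespace DS1

structure K (c : Cs) : Prop where
  k : DS0.K c
  β : 8 * (1 + c.κ) ^ 2 ≤ c.β
  M : 500 * (1 + c.κ) ^ 4 / c.ε ^ 2 ≤ c.M1
  l1 : 400 * c.Γ * c.CN / c.e3 ^ 2 ≤ c.lam
  l2 : 200 * c.Γ / c.e3 ^ 2 ≤ c.lam
  l3 : 100 ≤ c.lam

theorem hK : Hier K := by
  have h1 := Hier.β_ge (fun c => 8 * (1 + c.κ) ^ 2) fun _ _ _ => rfl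
  have h2 := Hier.M1_ge (fun c => 500 * (1 + c.κ) ^ 4 / c.ε ^ 2) fun _ _ _ _ => rfl
  have h3 := Hier.lam_ge (fun c => 400 * c.Γ * c.CN / c.e3 ^ 2) fun _ _ => rfl
  have h4 := Hier.lam_ge (fun c => 200 * c.Γ / c.e3 ^ 2) fun _ _ => rfl
  have h5 := Hier.lam_ge (fun _ => 100) fun _ _ => rfl
  exact (DS0.hK.and (h1.and (h2.and (h3.and (h4.and h5))))).mono fun c h =>
    ⟨h.1, h.2.1, h.2.2.1, h.2.2.2.1, h.2.2.2.2.1, h.2.2.2.2.2⟩

variable {c : Cs}

theorem wh_le_A (k : DRP.K c) {S : Sq} (hS : S.OK c) {ξ : ℤ → ℝ} {s p : ℤ} (hs : S.St c ξ s)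
    (hp : s < p) : S.wh c ξ s p ≤ 36 * c.L * S.AA c ξ s p := by
  obtain ⟨a1, a2⟩ := (Sq.cert_wh hS k.k1 k.k2 (by linarith only [k.lam]) k.chK.2 hs hp.le).2.2 (p - 1)
    (by omega)
  rw [sub_add_cancel] at a1 a2
  nlinarith only [k.L, a1, a2]

theorem blk3 (k : DRP.K c) (hB : B1_s c) (hρ : RHO_s c) (hD : DRP_s c) {Ex : ExT} {S : Sq}
    {ξ : ℤ → ℝ} {s x p : ℤ} {r : ℝ} {P Ls} (hS : S.OK c) (hs : S.St c ξ s)
    (hR : S.Run c Ex ξ s P ((x, r) :: Ls) p) : S.Blk3 c Ex ξ s x r p := by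
  have b := (hD Ex S hS).2.1 ξ s P Ls x r p hs hR
  obtain ⟨ch, hp⟩ := (hB Ex S hS).1 _ _ _ _ _ hs hR
  obtain ⟨hR0, -, xp, -⟩ := Sq.Run.tail c S hR
  have hx := ((hB Ex S hS).1 _ _ _ _ _ hs hR0).2
  obtain st : S.Step c Ex ξ s x r p := by
    cases ch with
    | cons _ st _ => exact st
  have ho := B1.out_of_rinv k.lam hs hx
  obtain hL : 0 < c.L := by linarith [k.L]
  have Z0 := k.Zb0 S x r
  have z1 : 1 ≤ Real.exp (S.Zb c x r) := Real.one_le_exp Z0
  have wx : 0 < |ξ x| := abs_pos.2 hx.ne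
  have w0 := S.wh_nonneg c ξ s
  obtain inner : p = x + 1 ∨ ∃ Ls r', S.BRun c Ex ξ x Ls p r' ∧ S.RInv c (S.fr (x + 1)) (x + 1) p ∧
      S.BInv c x Ls p ∧ S.Wp c x p ≤ 2 * r ∧
      c.cw * c.L ≤ S.rho ξ x p ^ 2 * Real.exp (S.Wt c (S.fr (x + 1)) (x + 1) p r') := by
    cases hR with
    | shallow => exact Or.inl rfl
    | block _ hR' e1 e2 _ =>
      obtain hs' := B1.st_fr c S (show 0 ≤ x + 1 by linarith [ho.1])
      exact Or.inr ⟨_, _, ⟨hR', e1⟩, ((hB Ex S hS).1 _ _ _ _ _ hs' hR').2,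
        (hB Ex S hS).2.1 _ _ _ _ _ ho hR' e1.1, B1.wp_le k.lam (by linarith [k.L]) e1.1 e2, e2⟩
  refine ⟨inner, fun i h1 h2 => ?_, fun i l h0 h1 h2 h3 => ?_, fun i j h1 h2 h3 => ?_,
    fun r1 i h1 h2 => ?_⟩
  · have A1 := S.one_le_AA c ξ s p
    obtain a1 : |ξ x| ≤ Real.exp 1 * S.AA c ξ s p := by
      have a1 := st.A_lo
      rw [← Real.exp_log (show 0 < S.AA c ξ s p by linarith), ← Real.exp_log wx, ← Real.exp_add]
      unfold Sq.WW at a1
      exact Real.exp_le_exp.2 (by linarith [st.r_lo])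
    obtain a2 := wh_le_A k hS hs (show s < p by linarith [hx.le])
    rw [hp.whm] at a2
    obtain e : Real.exp (S.Zb c x r + c.lam + 5) = Real.exp (S.Zb c x r) * c.L * Real.exp 1 ^ 5 := by
      rw [Real.exp_add, Real.exp_add, Cs.lam, Real.exp_log hL, ← Real.exp_nat_mul]; norm_num
    obtain a3 : (2.6 : ℝ) ^ 5 ≤ Real.exp 1 ^ 5 :=
      pow_le_pow_left₀ (by norm_num) (by linarith [Real.exp_one_gt_d9]) 5
    obtain a4 : Real.exp 1 * S.AA c ξ s p ≤ 3 * S.AA c ξ s p :=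
      mul_le_mul_of_nonneg_right (by linarith [Real.exp_one_lt_d9]) (by linarith)
    obtain a5 : 1 ≤ Real.exp (S.Zb c x r) * c.L := by nlinarith only [k.L, hL, z1]
    obtain a6 := mul_le_mul_of_nonneg_right a5 (show 0 ≤ S.AA c ξ s p by linarith)
    obtain a7 := mul_le_mul_of_nonneg_left a3
      (show 0 ≤ Real.exp (S.Zb c x r) * c.L * S.AA c ξ s p by (clear * - hL A1; positivity))
    rw [e]
    rcases h1.eq_or_lt with rfl | h1
    · rw [hx.whm]; linarith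
    · have b1 := b.lo i h1 h2
      have b2 := b.mono i p h1 h2 le_rfl
      rw [b.last] at b2
      obtain b3 : Real.exp (-S.chi c x i / 2) ≤ 1 := Real.exp_le_one_iff.2 (by linarith only [k.chi0 S x i])
      have b4 := mul_le_mul_of_nonneg_left b3 wx.le
      have b5 := mul_le_mul_of_nonneg_left a2 (Real.exp_pos (S.Zb c x r)).le
      linarith
  · obtain P0 := fun i j => (S.PB_pos c (show 0 < c.k0 * c.L + 1 by nlinarith only [k.k1, hL]) (2 / 100) i j).le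
    rcases le_or_gt x i with h4 | h4
    · have a1 := mul_le_mul_of_nonneg_right (b.pb i l h4 h1 h3) (w0 i)
      have a2 := mul_le_mul_of_nonneg_left (S.wh_decay' c ξ s h1)
        (Real.exp_pos (c.CN * S.Zb c x r / 10 + c.lam + 1 - S.chi c i l / 2)).le
      obtain e : Real.exp (c.CN * S.Zb c x r / 10 + c.lam + 1 - S.chi c i l) =
          Real.exp (c.CN * S.Zb c x r / 10 + c.lam + 1 - S.chi c i l / 2) *
            Real.exp (-S.chi c i l / 2) := by rw [← Real.exp_add]; congr 1; ring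
      rw [e] at a1
      have := mul_nonneg (Real.exp_pos (c.CN * S.Zb c x r / 10 + c.lam + 1 - S.chi c i l / 2)).le
        (w0 l)
      linarith
    · obtain a1 : S.PB c (2 / 100) i x * S.wh c ξ s i ≤ 2 * Real.exp (-S.chi c i x / 2) * |ξ x| :=
        (hx.i2 i h0 h4).1.trans (by
          gcongr
          · exact (k.ff S s i).2
          · nlinarith only [k.chi0 S i x, k.a1])
      obtain a2 := mul_le_mul a1 (b.pb x l le_rfl h2 h3) (P0 _ _) (by (clear * - wx; positivity))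
      obtain a3 := mul_le_mul_of_nonneg_left (S.le_wh c ξ (show s - 1 ≤ x by omega) h2)
        (show 0 ≤ 2 * Real.exp (c.CN * S.Zb c x r / 10 + c.lam + 1 - S.chi c i l / 2) by positivity)
      obtain e : Real.exp (-S.chi c i x / 2) *
          Real.exp (c.CN * S.Zb c x r / 10 + c.lam + 1 - S.chi c x l) =
          Real.exp (c.CN * S.Zb c x r / 10 + c.lam + 1 - S.chi c i l / 2) *
            Real.exp (-S.chi c x l / 2) := by
        rw [← Real.exp_add, ← Real.exp_add, S.chi_add c h4.le h2]; congr 1; ring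
      rw [S.PB_mul c _ h4.le h2]
      calc _ = S.PB c (2 / 100) i x * S.wh c ξ s i * S.PB c (2 / 100) x l := by ring
        _ ≤ 2 * (Real.exp (-S.chi c i x / 2) *
          Real.exp (c.CN * S.Zb c x r / 10 + c.lam + 1 - S.chi c x l)) * |ξ x| := by linarith only [a2]
        _ ≤ _ := by rw [e]; linarith only [a3]
  · obtain e : Real.exp (2 * S.Zb c x r + r) =
        Real.exp (S.Zb c x r) * Real.exp (S.Zb c x r) * Real.exp r := by
      rw [← Real.exp_add, ← Real.exp_add]; congr 1; ring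
    have er := Real.exp_pos r
    rw [e]
    rcases h1.eq_or_lt with rfl | h1
    · have a1 := st.ins1 j h2 h3
      obtain a2 : 1 ≤ Real.exp (S.Zb c x r) * Real.exp (S.Zb c x r) := by nlinarith only [z1]
      have a3 := mul_le_mul_of_nonneg_right a2 (mul_nonneg er.le (w0 j))
      linarith
    · obtain a1 := b.base i h1 (by omega)
      rw [b.eta] at a1
      obtain a2 : |ξ x| ≤ Real.exp (S.Zb c x r) * S.om c ξ x p i * Real.exp r := by
        obtain e1 : Real.exp (-r) * Real.exp r = 1 := by rw [← Real.exp_add]; simp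
        have b1 := mul_le_mul_of_nonneg_right a1 er.le
        obtain b2 : |ξ x| * (c.L * Real.exp (-r)) * Real.exp r = |ξ x| * c.L := by
          rw [mul_assoc, mul_assoc, e1, mul_one]
        nlinarith only [k.L, hL, wx, b1, b2]
      obtain a3 := mul_le_mul_of_nonneg_left a2 (show 0 ≤ |S.fr (i + 1) j| * c.L by (clear * - hL; positivity))
      obtain a4 := (b.bc i j h1 h2 h3).trans
        (mul_le_mul_of_nonneg_left (b.up j (by omega) h3) (by linarith))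
      obtain a5 := mul_le_mul_of_nonneg_left a4
        (show 0 ≤ Real.exp (S.Zb c x r) * Real.exp r by positivity)
      linarith
  · have c0 := k.chi0 S x i
    have a0 := k.a0
    obtain PB := S.PB_le c (by linarith [k.k1]) (by nlinarith [k.k1, k.L]) k.chK.2 h1.le
      (by linarith [k.lam])
    rcases inner with rfl | ⟨L, r', -, r2, b2, -, -⟩
    · obtain rfl : i = x + 1 := by omega
      rw [S.NK_one, st.kz r1] at PB
      rw [DRP.wp_one, S.rho_one, S.fr_self]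
      refine ⟨PB.trans (Real.exp_le_exp.2 (by nlinarith)), Real.exp_le_one_iff.2 (by nlinarith only [a0, c0]),
        Real.one_le_exp (by positivity), by simp [(Real.exp_pos _).le], fun j j1 j2 => by omega⟩
    · obtain ⟨i1, i2, i3, i4⟩ := b2.i6 i h1 h2
      refine ⟨PB.trans (Real.exp_le_exp.2 (by nlinarith only [c0, a0, i1])), i2, i3,
        (hρ S ξ x L p hS ho r2 b2).1 i h1 h2, fun j j1 j2 => ?_⟩
      have a1 := i4 j j1 j2
      obtain wj := DRP.wp_pos (c := c) S (show x < j by omega)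
      rw [Sq.Bc, div_le_iff₀ wj] at a1
      obtain a2 : Real.exp (c.a / 8 * S.chi c x i) * (1 - Real.exp (-S.chi c i p / 4) / 2) * S.wp c x j
          ≤ Real.exp (c.a / 8 * S.chi c x i) * S.wp c x j := by
        have := mul_pos (mul_pos (Real.exp_pos (c.a / 8 * S.chi c x i))
          (Real.exp_pos (-S.chi c i p / 4))) wj
        linarith
      obtain a3 := mul_le_mul_of_nonneg_left i2 (show 0 ≤ |S.fr (i + 1) j| * c.L by (clear * - hL; positivity))
      have a4 := mul_le_mul_of_nonneg_right (a3.trans (a1.trans a2))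
        (Real.exp_pos (c.a / 8 * S.chi c x i)).le
      obtain e1 : Real.exp (-(c.a / 8 * S.chi c x i)) * Real.exp (c.a / 8 * S.chi c x i) = 1 := by
        rw [← Real.exp_add]; simp
      obtain e2 : Real.exp (c.a / 4 * S.chi c x i) =
          Real.exp (c.a / 8 * S.chi c x i) * Real.exp (c.a / 8 * S.chi c x i) := by
        rw [← Real.exp_add]; congr 1; ring
      rw [mul_assoc _ _ (Real.exp _), e1] at a4
      rw [e2]; linarith only [a4]

theorem chain_first {Ex : ExT} {S : Sq} {ξ s m0 L m} (h : S.Chain c Ex ξ s m0 L m) :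
    (∀ y ∈ L, m0 ≤ y.1) ∧ (m0 = m ∧ L = [] ∨ ∃ r, (m0, r) ∈ L) := by
  induction h with
  | nil _ => simp
  | @cons L n r p hc _ _ ih =>
    refine ⟨fun y hy => ?_, Or.inr ?_⟩
    · rcases List.mem_cons.1 hy with rfl | hy
      · exact (Sq.Chain.rinv c S hc).2
      · exact ih.1 y hy
    · rcases ih.2 with ⟨rfl, -⟩ | ⟨r', h⟩
      · exact ⟨r, List.mem_cons_self⟩
      · exact ⟨r', List.mem_cons_of_mem _ h⟩

theorem run_mem {Ex : ExT} {S : Sq} {ξ s P Ls m} (h : S.Run c Ex ξ s P Ls m) :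
    ∀ y ∈ Ls, ∃ L, P L y.1 y.2 := by
  induction Ls generalizing m with
  | nil => simp
  | cons z Ls ih =>
    obtain ⟨h1, h2, -⟩ := Sq.Run.tail c S (n := z.1) (r := z.2) h
    intro y hy
    rcases List.mem_cons.1 hy with rfl | hy
    · exact ⟨Ls, h2⟩
    · exact ih h1 y hy

theorem sum_sq (n : ℤ) {j : ℤ} (h : n + 1 ≤ j) :
    ∑ i ∈ Ico (n + 1) j, 1 / ((i - n : ℤ) : ℝ) ^ 2 ≤ 2 - 2 / ((j - n : ℤ) : ℝ) := by
  induction j, h using Int.leInduction with
  | base => simp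
  | succ j hj ih =>
    rw [sum_Ico_succ _ hj]
    obtain a : (1 : ℝ) ≤ ((j - n : ℤ) : ℝ) := by exact_mod_cast (by omega : 1 ≤ j - n)
    obtain e : ((j + 1 - n : ℤ) : ℝ) = ((j - n : ℤ) : ℝ) + 1 := by push_cast; ring
    rw [e]
    generalize ((j - n : ℤ) : ℝ) = t at *
    obtain this : 1 / t ^ 2 ≤ 2 / t - 2 / (t + 1) := by
      rw [div_sub_div _ _ (by linarith) (by linarith), div_le_div_iff₀ (by positivity) (by positivity)]
      nlinarith only [a]
    linarith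

/-- the rows used below, specialised to one orbit -/
structure R (c : Cs) (Ex : ExT) : Prop where
  k : K c
  B : B1_s c
  N : NUM_s c
  ρ : RHO_s c
  D : DRP_s c
  κ : c.θb / (1 - c.θb) < c.κ
  E : ∀ S ξ n Ls p r, Ex S ξ n Ls p r → Cstar c S ξ n Ls p r
  b5 : B5_s c
  d0 : DS0_s c

variable {Ex : ExT} {S : Sq} {ξ : ℤ → ℝ} {n p : ℤ} {l : ℝ} {Ls : List (ℤ × ℝ)}

theorem Wp_mono (S : Sq) (n : ℤ) {x q : ℤ} (h : x ≤ q) : S.Wp c n x ≤ S.Wp c n q :=
  Real.log_le_log (by linarith [S.one_le_AA c (S.fr (n + 1)) (n + 1) x]) (S.AA_mono c _ _ h)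

theorem R.tile (h : R c Ex) (T : S.Top c Ex ξ n l Ls p) (i : ℤ) (h1 : n < i) (h2 : i < p) :
    ∃ x r q, x ≤ i ∧ i < q ∧ S.AllS c Ex ξ n l Ls p x r q := by
  have k := h.k.k.k
  obtain hs := B1.st_fr c S (show 0 ≤ n + 1 by linarith [T.out.1])
  obtain ⟨t0, t1⟩ := T.run.tile
  obtain ⟨L1, L0, x, r, q, e, hR, q1, q2, q3, q4, q5, q6⟩ := t1 i h1 h2
  obtain ⟨hR0, hP, xq, -⟩ := Sq.Run.tail c S hR
  obtain ld : ∀ y, y ≤ p → S.load c n (S.Wp c n y) ≤ l := fun y hy =>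
    (S.load_mono c (by linarith [k.chK.1]) k.chK.2 k.C0 n (Wp_mono S n hy)).trans T.ld
  have sub : ∀ y ∈ L1, y ∈ Ls := fun y hy => e ▸ List.mem_append_left _ hy
  obtain bq : ∃ r, S.Bd c ξ n q r := by
    rcases q6 with rfl | ⟨r', hq⟩
    · exact T.bd
    · obtain ⟨L, hL⟩ := run_mem T.run _ (sub _ hq)
      exact ⟨r', hL.1⟩
  obtain ⟨ch, rq⟩ := (h.B Ex S T.ok).1 _ _ _ _ _ hs hR
  obtain st : S.Step c Ex (S.fr (n + 1)) (n + 1) x r q := by
    cases ch with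
    | cons _ st _ => exact st
  have rx := ((h.B Ex S T.ok).1 _ _ _ _ _ hs hR0).2
  obtain chq : S.Chain c Ex (S.fr (n + 1)) (n + 1) q L1 p := by
    have c0 := ((h.B Ex S T.ok).1 _ _ _ _ _ hs T.run).1
    rw [e] at c0
    obtain ⟨m1, -, c1⟩ := Sq.Chain.split c S c0
    obtain ⟨f1, f2⟩ := chain_first c1
    obtain this : m1 = q := by
      rcases f2 with ⟨rfl, rfl⟩ | ⟨r1, f2⟩
      · rcases q6 with rfl | ⟨r', hq⟩
        · rfl
        · simp at hq
      · have a1 := q4 _ f2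
        have a2 := (t0 _ (sub _ f2)).2
        rcases q6 with rfl | ⟨r', hq⟩
        · simp only at a1 a2; omega
        · exact le_antisymm (f1 _ hq) a1
    rwa [this] at c1
  obtain ⟨rb, hb⟩ := bq
  obtain ⟨d1, d2⟩ := h.d0 h.κ Ex h.E S ξ n l T.ok T.out
  obtain ⟨fx, s0⟩ := d2 L0 x r q rb hR hb (ld q q3)
  refine ⟨x, r, q, q1, q2, e ▸ List.mem_append_right _ List.mem_cons_self,
    ⟨by linarith [rx.le], xq, q3⟩, q6.imp id fun ⟨r', hq⟩ => ⟨r', sub _ hq⟩, fun y hy => ?_,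
    ⟨L1, L0, e, ⟨T.ok, T.out, hR0, ⟨r, hP.1⟩, ld x (by omega)⟩, hP,
      ⟨T.ok, T.out, hR, ⟨rb, hb⟩, ld q q3⟩, chq, q4⟩, st, rx, rq,
    (h.D Ex S T.ok).2.1 _ _ _ _ _ _ _ hs hR, blk3 k h.B h.ρ h.D T.ok hs hR, fx,
    d1 _ q rb hR hb (ld q q3), s0⟩
  rw [e] at hy
  rcases List.mem_append.1 hy with hy | hy
  · exact Or.inr (Or.inr (q4 y hy))
  rcases List.mem_cons.1 hy with hy | hy
  · exact Or.inr (Or.inl hy)
  · exact Or.inl (q5 y hy)

theorem R.mem (h : R c Ex) (T : S.Top c Ex ξ n l Ls p) (z : ℤ × ℝ) (hz : z ∈ Ls) :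
    ∃ q, S.AllS c Ex ξ n l Ls p z.1 z.2 q := by
  obtain ⟨a, b⟩ := T.run.tile.1 z hz
  obtain ⟨x, r, q, h1, h2, A⟩ := h.tile T z.1 (by omega) b
  rcases A.gap z hz with h3 | rfl | h3
  · omega
  · exact ⟨q, A⟩
  · omega

/-- transport of the bound in one step to all later times -/
theorem R.trans (h : R c Ex) (T : S.Top c Ex ξ n l Ls p) {x q i : ℤ} {r E B : ℝ}
    (A : S.AllS c Ex ξ n l Ls p x r q) (h1 : x ≤ i) (h2 : i < q) (hB : 0 ≤ B)
    (hE : 2 * Real.exp (2 * S.Zb c x r + r) ≤ E * (c.L * |S.fr (n + 1) x|))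
    (hz : ∀ z ∈ Ls, q ≤ z.1 →
      Real.exp (z.2 - 5 / 8 * S.chi c i z.1) ≤ B * (c.L * |S.fr (n + 1) z.1|)) :
    ∀ j, i < j → j ≤ p → |S.fr (i + 1) j| ≤ (E + 32 * B) * S.wp c n j := by
  obtain ⟨L1, L0, e, -, -, -, ch, q4⟩ := A.cut
  obtain hs := B1.st_fr c S (show 0 ≤ n + 1 by linarith [T.out.1])
  obtain hw : 0 < c.L * |S.fr (n + 1) x| :=
    mul_pos (by linarith [h.k.k.k.L]) (abs_pos.2 A.rx.ne)
  refine (h.D Ex S T.ok).2.2 _ _ q L1 p i E B hs ch (by linarith [A.lt.1]) h2 hB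
    (fun j j1 j2 => le_of_mul_le_mul_right ((A.b3.e0 i j h1 j1 j2).trans ?_) hw)
    fun z hz' => hz z (e ▸ List.mem_append_left _ hz') (q4 z hz')
  have := mul_le_mul_of_nonneg_right hE (S.wh_nonneg c (S.fr (n + 1)) (n + 1) j)
  linarith

theorem R.u0 (h : R c Ex) (T : S.Top c Ex ξ n l Ls p) (x : ℤ) :
    0 ≤ c.cW l (S.Wp c n x) ∧ c.cW l (S.Wp c n x) ≤ S.Wp c n x := by
  have k := h.k.k.k
  have W0 := DS0.Wp0 (c := c) S n x
  exact ⟨(mul_nonneg k.ε0.le W0).trans (Cs.le_cW (by linarith [k.ε1])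
    (mul_nonneg k.C1 ((S.load_nonneg c n _).trans T.ld)) (by linarith [k.cc2]) W0), Cs.cW_le _⟩

theorem K.small (h : K c) : c.e3 ≤ 1 / 400 ∧ c.e3 * (1 + c.κ) ≤ 1 / 400 ∧ 0 ≤ c.ε' ∧
    c.ε' ≤ c.e3 / 1000 ∧ 0 < c.e3 ^ 19 ∧ c.e3 ^ 19 ≤ c.e3 ^ 18 / 10 ∧ c.e3 ^ 18 ≤ 1 / 400 ∧
    c.cc ≤ c.lam / 1000 ∧ c.c1 ≤ c.lam / 1000 := by
  have e0 := h.k.k.e0
  have e1 := h.k.k.e1
  have κ0 := h.k.κ0
  have a1 := h.k.e3
  rw [le_div_iff₀ (by positivity)] at a1
  obtain a2 : c.e3 ≤ 1 / 400 := by nlinarith only [e0, κ0, a1]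
  have a3 : c.e3 ^ 3 ≤ (1 / 10) ^ 3 := pow_le_pow_left₀ e0.le e1 3
  obtain a4 : c.e3 ^ 17 ≤ 1 := pow_le_one₀ e0.le (by linarith only [e0, a2])
  obtain p18 : 0 < c.e3 ^ 18 := by positivity
  obtain e4 : c.ε' = c.e3 ^ 3 * c.e3 := by unfold Cs.ε'; ring
  obtain e19 : c.e3 ^ 19 = c.e3 ^ 18 * c.e3 := by ring
  obtain e18 : c.e3 ^ 18 = c.e3 ^ 17 * c.e3 := by ring
  obtain l0 := mul_le_mul_of_nonneg_right h.k.k.ε1 (show 0 ≤ c.lam by linarith [h.l3])
  refine ⟨a2, by linarith, by rw [e4]; positivity, by rw [e4]; nlinarith only [e0, a3], by positivity,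
    by rw [e19]; nlinarith only [e1, p18], by rw [e18]; nlinarith only [e0, κ0, a1, a4], ?_, ?_⟩
  · unfold Cs.cc; linarith only [h.l3, e0, a2, l0]
  · unfold Cs.c1; linarith only [h.l3, e0, a2, l0]

/-- the weight of one step in D8 -/
theorem R.wt (h : R c Ex) (T : S.Top c Ex ξ n l Ls p) {x q : ℤ} {r δ B : ℝ}
    (A : S.AllS c Ex ξ n l Ls p x r q) (hδ : δ ≤ 1 / 4) (hB : 0 ≤ B)
    (hz : δ * c.cW l (S.Wp c n x) + c.lam ≤ r →
      Real.exp (c.e3 ^ 18 * (c.cW l (S.Wp c n x) + c.lam) + r) ≤ B * (c.L * |S.fr (n + 1) x|)) :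
    68 * (((q - n : ℤ) : ℝ) ^ 2 * Real.exp (2 * S.Zb c x r + r)) ≤
      (Real.exp (-c.lam / 3) + B) * (c.L * |S.fr (n + 1) x|) := by
  have k := h.k.k.k
  obtain hL : 0 < c.L := by linarith [k.L]
  have hw := abs_pos.2 A.rx.ne
  obtain ⟨s1, s2, s3, s4, s5, s6, s7, s8, s9⟩ := h.k.small
  obtain ⟨u0, u1⟩ := h.u0 T x
  have lam := h.k.l3
  have ε0 := k.ε0
  have εκ := h.k.k.εκ.1
  set u := c.cW l (S.Wp c n x)
  set W := S.Wp c n x
  obtain t0 : (0 : ℝ) ≤ ((q - n : ℤ) : ℝ) := by exact_mod_cast (by linarith only [A.lt] : 0 ≤ q - n)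
  have t1 := pow_le_pow_left₀ t0 A.fq.time 2
  obtain t2 : (68 : ℝ) ≤ Real.exp 5 := by
    obtain e5 : Real.exp 5 = Real.exp 1 ^ 5 := by rw [← Real.exp_nat_mul]; norm_num
    obtain this : (2.6 : ℝ) ^ 5 ≤ Real.exp 1 ^ 5 :=
      pow_le_pow_left₀ (by norm_num) (by linarith only [Real.exp_one_gt_d9, s5, s6, s7]) 5
    rw [e5]; linarith only [s5, s6, s7, this]
  obtain g1 : 4 * c.ε * c.cW l (S.Wp c n q) + 2 * S.Zb c x r ≤ c.e3 ^ 18 * (u + c.lam) / 2 := by
    have a1 := mul_le_mul_of_nonneg_left A.st.u_hi ε0.le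
    obtain a2 := mul_le_mul_of_nonneg_right εκ (show 0 ≤ u + 2 * c.lam by linarith only [s5, s6, s7, lam, u0])
    obtain a3 := mul_le_mul_of_nonneg_right s6 (show 0 ≤ u + c.lam by linarith only [s5, s6, s7, lam, u0])
    have a4 := mul_nonneg s5.le u0
    obtain a5 := mul_nonneg s5.le (show 0 ≤ c.lam by linarith)
    linarith only [A.st.zb, a1, a2, a3, a4, a5]
  obtain g2 : 30 ≤ c.e3 ^ 18 * c.lam := by
    have a1 := k.cc
    rw [div_le_iff₀ ε0] at a1
    obtain a2 : c.ε ≤ c.e3 ^ 18 := by nlinarith only [h.k.k.κ0, s2, s5, s6, ε0, εκ]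
    nlinarith only [s5, s6, s7, lam, a1, a2]
  obtain g3 := mul_nonneg (show 0 ≤ c.e3 ^ 18 by linarith only [s5, s6]) u0
  obtain main : 68 * (((q - n : ℤ) : ℝ) ^ 2 * Real.exp (2 * S.Zb c x r + r)) ≤
      Real.exp (c.e3 ^ 18 * (u + c.lam) + r) := by
    refine (mul_le_mul t2 (mul_le_mul_of_nonneg_right t1 (Real.exp_pos _).le) (by (clear * -; positivity))
      (Real.exp_pos _).le).trans ?_
    rw [← Real.exp_nat_mul, ← Real.exp_add, ← Real.exp_add]
    exact Real.exp_le_exp.2 (by push_cast; linarith only [g1, g2, g3])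
  refine main.trans ?_
  by_cases hm : δ * u + c.lam ≤ r
  · exact (hz hm).trans (mul_le_mul_of_nonneg_right (by linarith only [Real.exp_pos (-c.lam / 3)])
      (by (clear * - hL hw; positivity)))
  refine le_trans ?_ (mul_le_mul_of_nonneg_right (le_add_of_nonneg_right hB) (by (clear * - hL hw; positivity)))
  rw [← Real.exp_log hw, ← Real.exp_log hL, ← Real.exp_add, ← Real.exp_add]
  refine Real.exp_le_exp.2 ?_
  change _ ≤ _ + (c.lam + _)
  have f1 := A.fx.lo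
  obtain a1 := mul_le_mul_of_nonneg_right s7 (show 0 ≤ u + c.lam by linarith only [s5, s6, s7, lam, u0])
  obtain a2 : c.ε' * (u + c.cc) ≤ 1 / 400000 * (u + c.cc) :=
    mul_le_mul_of_nonneg_right (by linarith only [s1, s4]) (by linarith only [k.cc2, s5, s6, s7, u0])
  have W0 : 0 ≤ W := u0.trans u1
  by_cases hb : c.C0 * max W (Real.log |S.fr (n + 1) x| + r) ≤ c.bl
  · have a3 := A.st.low hb
    have a4 := mul_le_mul_of_nonneg_right k.ε1 W0
    obtain a5 := mul_le_mul_of_nonneg_right k.ε1 (show 0 ≤ c.lam by linarith only [s5, s6, s7, lam])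
    linarith only [s5, s6, s7, s8, u0, u1, g2, g3, f1, a1, a2, a3, a4, a5]
  · have a3 : max W (Real.log |S.fr (n + 1) x| + r) ≤ (1 + c.κ) * (W + 2 * c.lam) :=
      (max_le A.st.lo.2.1 A.st.lo.1).trans A.st.W_hi
    have a4 := mul_le_mul_of_nonneg_left a3 k.C0
    obtain a5 := mul_le_mul_of_nonneg_right h.k.k.β (show 0 ≤ c.lam by linarith only [s5, s6, s7, lam])
    have ebl : c.bl = c.β * c.lam := rfl
    obtain a6 : 4 * c.lam ≤ W := by
      refine le_of_mul_le_mul_left ?_ (show 0 < c.C0 * (1 + c.κ) from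
        mul_pos (by linarith only [h.k.k.C0, s5, s6, s7]) (by linarith only [h.k.k.κ0, s5, s6, s7]))
      linarith only [not_le.1 hb, hb, a4, a5, ebl]
    have a7 := mul_le_mul_of_nonneg_right hδ u0
    linarith only [not_le.1 hm, s5, s6, s7, s8, u1, g2, g3, hm, f1, a1, a2, a6, a7]

theorem R.d8 (h : R c Ex) (T : S.Top c Ex ξ n l Ls p) {δ B : ℝ} (hδ : δ ≤ 1 / 4) (hB : 0 ≤ B)
    (hz : ∀ z ∈ Ls, δ * c.cW l (S.Wp c n z.1) + c.lam ≤ z.2 →
      Real.exp (c.e3 ^ 18 * (c.cW l (S.Wp c n z.1) + c.lam) + z.2) ≤ B * (c.L * |S.fr (n + 1) z.1|))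
    (j : ℤ) (j1 : n < j) (j2 : j ≤ p) :
    ∑ i ∈ Ico (n + 1) j, |S.fr (i + 1) j| ≤ (Real.exp (-c.lam / 3) + B) * S.wp c n j := by
  have k := h.k.k.k
  set H := Real.exp (-c.lam / 3) + B
  obtain H0 : 0 ≤ H := by positivity
  have wj := (DRP.wp_pos (c := c) S j1).le
  obtain pt : ∀ i ∈ Ico (n + 1) j, |S.fr (i + 1) j| ≤ H / 2 * S.wp c n j * (1 / ((i - n : ℤ) : ℝ) ^ 2) := by
    intro i hi
    obtain ⟨i1, i2⟩ := mem_Ico.1 hi
    obtain t1 : (0 : ℝ) < ((i - n : ℤ) : ℝ) := by exact_mod_cast (by omega : 0 < i - n)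
    obtain key : ∀ x r q, S.AllS c Ex ξ n l Ls p x r q → i ≤ q → Real.exp (2 * S.Zb c x r + r) ≤
        H / 68 / ((i - n : ℤ) : ℝ) ^ 2 * (c.L * |S.fr (n + 1) x|) := fun x r q A hq => by
      have a1 := h.wt T A hδ hB (hz (x, r) A.mem)
      obtain a2 : ((i - n : ℤ) : ℝ) ^ 2 ≤ ((q - n : ℤ) : ℝ) ^ 2 :=
        pow_le_pow_left₀ t1.le (by exact_mod_cast (by omega : i - n ≤ q - n)) 2
      have a3 := mul_le_mul_of_nonneg_right a2 (Real.exp_pos (2 * S.Zb c x r + r)).le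
      rw [div_mul_eq_mul_div, le_div_iff₀ (by (clear * - t1; positivity))]
      linarith only [a1, a3]
    obtain ⟨x, r, q, h1, h2, A⟩ := h.tile T i (by omega) (by omega)
    refine (h.trans T A h1 h2 (E := 2 * (H / 68 / ((i - n : ℤ) : ℝ) ^ 2))
      (B := H / 68 / ((i - n : ℤ) : ℝ) ^ 2) (by (clear * - hB t1; positivity)) (by linarith [key x r q A h2.le])
      (fun z hz' hq => ?_) j i2 j2).trans_eq (by ring)
    obtain ⟨q', A'⟩ := h.mem T z hz'
    exact (Real.exp_le_exp.2 (by linarith [k.chi0 S i z.1, k.Zb0 S z.1 z.2])).trans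
      (key _ _ q' A' (by linarith [A'.lt]))
  refine (sum_le_sum pt).trans ?_
  rw [← mul_sum]
  obtain a1 := sum_sq n (show n + 1 ≤ j by omega)
  obtain a2 : (0 : ℝ) ≤ 2 / ((j - n : ℤ) : ℝ) :=
    div_nonneg (by norm_num) (by exact_mod_cast (by omega : 0 ≤ j - n))
  obtain this := mul_le_mul_of_nonneg_left (show _ ≤ (2 : ℝ) by linarith only [a1, a2] :
    ∑ i ∈ Ico (n + 1) j, 1 / ((i - n : ℤ) : ℝ) ^ 2 ≤ 2) (show 0 ≤ H / 2 * S.wp c n j by (clear * - hB wj; positivity))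
  linarith only [this]

/-- relative B5 up to the end of the run -/
theorem R.rel0 (h : R c Ex) (T : S.Top c Ex ξ n l Ls p) {m : ℤ} (hm : m = p ∨ ∃ r, (m, r) ∈ Ls) :
    S.Wp c n p ≤ (1 + c.κ) * (2 * S.Wp c n m + 6 * c.lam + 5 * S.chi c m p / c.β) := by
  have k := h.k.k.k
  have κ0 := h.k.k.κ0
  have lam := h.k.l3
  obtain c0 : 0 ≤ S.chi c m p / c.β := div_nonneg (k.chi0 S m p) (by linarith [k.β])
  obtain e5 : 5 * S.chi c m p / c.β = 5 * (S.chi c m p / c.β) := by ring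
  have W0 := DS0.Wp0 (c := c) S n m
  have Wp := DS0.Wp0 (c := c) S n p
  rw [e5]
  rcases hm with rfl | ⟨r, hm⟩
  · nlinarith only [κ0, lam, W0, c0]
  obtain ⟨q, A⟩ := h.mem T _ hm
  simp only at A
  obtain ⟨L1, L0, e, -, -, -, ch, -⟩ := A.cut
  obtain ⟨rp, bp⟩ := T.bd
  have bi := (h.B Ex S T.ok).2.1 _ _ _ _ _ T.out T.run bp
  obtain ⟨-, ev, -⟩ := h.b5 h.κ Ex h.E S ξ n Ls p rp T.ok T.out T.run bp
  have fp := (h.d0 h.κ Ex h.E S ξ n l T.ok T.out).1 Ls p rp T.run bp T.ld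
  obtain ch2 : S.Chain c Ex (S.fr (n + 1)) (n + 1) m (L1 ++ [(m, r)]) p := by
    clear e
    have base : S.Chain c Ex (S.fr (n + 1)) (n + 1) m [(m, r)] q := .cons (.nil A.rx) A.step A.rq
    clear A bi ev fp T hm bp c0 e5 Wp
    induction ch with
    | nil _ => exact base
    | cons _ st hp ih => exact .cons ih st hp
  obtain e' : Ls = (L1 ++ [(m, r)]) ++ L0 := by rw [e]; simp
  obtain hQ : 0 ≤ c.Q := by
    have := k.a0; have := k.β
    unfold Cs.Q Cs.bl; positivity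
  obtain a1 := (h.N Ex S _ (n + 1) m _ p c.Q n _ T.ok (by linarith [T.out.1]) A.rx.le A.lt.1.le
    (by linarith) le_rfl ch2 (fun y hy => bi.loads y (e' ▸ List.mem_append_left _ hy)) rfl).2.2.2.2.2
  obtain a2 : S.evs c (S.fr (n + 1)) (n + 1) (L1 ++ [(m, r)]) ≤ S.evs c (S.fr (n + 1)) (n + 1) Ls := by
    obtain this := B1.evs_nonneg S (show 0 ≤ c.lam by linarith) k.e0 k.ε0.le (S.fr (n + 1)) (n + 1) L0
    rw [e']
    unfold Sq.evs at this ⊢
    rw [List.map_append (l₁ := L1 ++ [(m, r)]), List.sum_append (l₁ := List.map _ (L1 ++ [(m, r)]))]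
    linarith only [this]
  obtain ⟨s1, s2, s3, s4, -, -, -, s8, -⟩ := h.k.small
  have e0 := k.e0
  have cc := k.cc2
  obtain ⟨u0, u1⟩ := h.u0 T m
  obtain ⟨v0, v1⟩ := h.u0 T p
  obtain Γ0 : 0 ≤ c.Γ := by
    have := k.C0; have := k.C1
    unfold Cs.Γ Cs.C6 Cs.C4; (rename_i zq0; clear * - zq0 this s3; positivity)
  obtain CN : 0 ≤ c.CN := by unfold Cs.CN; positivity
  obtain b1 : 100 / c.e3 ^ 2 * S.sg c (S.fr (n + 1)) (n + 1) m ≤ (S.Wp c n m + c.lam) / 100 := by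
    obtain d1 := mul_le_mul_of_nonneg_left A.fx.sg (show 0 ≤ 100 / c.e3 ^ 2 by positivity)
    obtain d2 : 100 / c.e3 ^ 2 * (11 * c.ε' * (c.cW l (S.Wp c n m) + c.cc)) =
        1100 * c.e3 ^ 2 * (c.cW l (S.Wp c n m) + c.cc) := by unfold Cs.ε'; field_simp; ring
    obtain d3 : 1100 * c.e3 ^ 2 ≤ 1 / 100 := by nlinarith only [κ0, s1, s2, s3, s4, e0]
    obtain d4 := mul_le_mul_of_nonneg_right d3 (show 0 ≤ c.cW l (S.Wp c n m) + c.cc by linarith only [s1, e0, cc, u0])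
    linarith only [s1, s8, e0, cc, u1, d1, d2, d4]
  obtain b2 : 100 / c.e3 ^ 2 * (c.Γ * S.qu c.Q n m) ≤ (S.Wp c n m + c.lam) / 4 := by
    obtain d1 : c.lam * S.qu c.Q n m ≤ c.CN * (S.Wp c n m + c.lam) :=
      (mul_le_mul_of_nonneg_left (S.qu_le_NK hQ n m) (by linarith only [s1, s8, e0, cc])).trans
        (A.fx.nk.trans (mul_le_mul_of_nonneg_left (by linarith only [u1]) CN))
    obtain d2 := mul_le_mul_of_nonneg_left d1 (show 0 ≤ 100 / c.e3 ^ 2 * c.Γ by (clear * - e0 Γ0; positivity))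
    obtain d3 := mul_le_mul_of_nonneg_right h.k.l1 (show 0 ≤ S.Wp c n m + c.lam by linarith only [W0, s1, s8, e0, cc])
    obtain d4 : 400 * c.Γ * c.CN / c.e3 ^ 2 = 4 * (100 / c.e3 ^ 2 * c.Γ * c.CN) := by ring
    rw [d4] at d3
    refine le_of_mul_le_mul_left ?_ (show 0 < c.lam by linarith only [s1, s8, e0, cc])
    linarith only [d2, d3]
  obtain b3 : 100 / c.e3 ^ 2 * c.Γ ≤ c.lam / 2 := by
    obtain d4 : 200 * c.Γ / c.e3 ^ 2 = 2 * (100 / c.e3 ^ 2 * c.Γ) := by ring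
    linarith only [h.k.l2, d4]
  obtain b4 : (if dP (S.X m) < 4 / 100 then 2 * c.lam else 0) ≤ 2 * c.lam := by
    split_ifs <;> linarith only [s1, s8, e0, cc]
  obtain b5 := mul_le_mul_of_nonneg_left (a2.trans ev) (show 0 ≤ 1 + c.e3 by linarith only [s1, e0])
  obtain b6 : c.ε' * (c.cW l (S.Wp c n p) + c.cc) ≤ c.e3 / 1000 * (S.Wp c n p + c.cc) :=
    mul_le_mul s4 (by linarith only [v1]) (by linarith only [s1, e0, cc, v0]) (by linarith only [e0])
  have θ0 := h.k.k.θ0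
  have θ1 := h.k.k.θ1
  obtain b7 : c.e3 * (c.θb * S.Wp c n p) ≤ c.e3 * S.Wp c n p :=
    mul_le_mul_of_nonneg_left (by nlinarith only [Wp, θ1]) e0.le
  obtain b8 := mul_le_mul_of_nonneg_right s1 (show 0 ≤ c.cc by linarith only [s1, e0, cc])
  obtain e4 : 4 * S.chi c m p / c.β = 4 * (S.chi c m p / c.β) := by ring
  have f1 := fp.lo
  have f2 := A.fx.hi
  obtain g : (1 - c.θb - 2 * c.e3) * S.Wp c n p ≤
      3 / 2 * S.Wp c n m + 5 * c.lam + 4 * (S.chi c m p / c.β) := by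
    have := mul_nonneg e0.le Wp
    rw [e4] at a1
    linarith only [W0, a1, s1, s8, e0, cc, b1, b2, b3, b4, b5, b6, b7, b8, f1, f2, this]
  have hκ := h.κ
  rw [div_lt_iff₀ (by linarith only [θ1])] at hκ
  obtain g1 : 9 / 10 ≤ (1 + c.κ) * (1 - c.θb - 2 * c.e3) := by linarith only [s1, s2, e0, hκ]
  obtain g2 := mul_le_mul_of_nonneg_left g (show 0 ≤ 1 + c.κ by linarith only [κ0, s1, e0])
  have g3 := mul_le_mul_of_nonneg_right g1 Wp
  obtain g4 := mul_nonneg (show 0 ≤ 1 + c.κ by linarith only [κ0, s1, e0]) W0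
  obtain g5 := mul_nonneg (show 0 ≤ 1 + c.κ by linarith only [κ0, s1, e0]) (show 0 ≤ c.lam by linarith only [s1, s8, e0, cc])
  obtain g6 := mul_nonneg (show 0 ≤ 1 + c.κ by linarith only [κ0, s1, e0]) c0
  linarith only [Wp, g2, g3, g4, g6]

theorem R.rel (h : R c Ex) (T : S.Top c Ex ξ n l Ls p) (m z : ℤ) (hm : m = p ∨ ∃ r, (m, r) ∈ Ls)
    (hz : z = p ∨ ∃ r, (z, r) ∈ Ls) (hmz : m ≤ z) :
    S.Wp c n z ≤ (1 + c.κ) * (2 * S.Wp c n m + 6 * c.lam + 5 * S.chi c m z / c.β) := by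
  rcases hz with rfl | ⟨r, hz⟩
  · exact h.rel0 T hm
  obtain ⟨q, A⟩ := h.mem T _ hz
  simp only at A
  obtain ⟨L1, L0, e, T0, -, -, -, q4⟩ := A.cut
  refine h.rel0 T0 ?_
  rcases hm with rfl | ⟨r', hm⟩
  · linarith [A.lt]
  rw [e] at hm
  rcases List.mem_append.1 hm with hy | hy
  · linarith [q4 _ hy, A.lt]
  rcases List.mem_cons.1 hy with hy | hy
  · exact Or.inl (congrArg Prod.fst hy)
  · exact Or.inr ⟨r', hy⟩

theorem R.crude (h : R c Ex) (T : S.Top c Ex ξ n l Ls p) {x q : ℤ} {r : ℝ}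
    (A : S.AllS c Ex ξ n l Ls p x r q) (i j : ℤ) (h1 : x ≤ i) (h2 : i < q) (h3 : i < j) (h4 : j ≤ p) :
    |S.fr (i + 1) j| ≤ Real.exp (9 * (1 + c.κ) ^ 2 * (S.Wp c n q + c.lam)) * S.wp c n j := by
  have k := h.k.k.k
  have κ0 := h.k.k.κ0
  have lam := h.k.l3
  obtain hL : 0 < c.L := by linarith [k.L]
  obtain ⟨s1, s2, s3, s4, s5, s6, s7, s8, s9⟩ := h.k.small
  have cc := k.cc2
  have W0 := DS0.Wp0 (c := c) S n q
  obtain k1 : 1 + c.κ ≤ (1 + c.κ) ^ 2 := by nlinarith only [κ0]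
  set G := (1 + c.κ) ^ 2 * (S.Wp c n q + c.lam) with hG
  obtain G1 : S.Wp c n q + c.lam ≤ G := le_mul_of_one_le_left (by linarith only [s5, s6, s7, s8, cc, W0]) (by linarith only [κ0, k1])
  obtain lw : ∀ y, S.Fr0 c n l y → -(S.Wp c n y + c.lam) / 100 ≤ Real.log |S.fr (n + 1) y| := fun y F => by
    obtain ⟨u0, u1⟩ := h.u0 T y
    obtain this : c.ε' * (c.cW l (S.Wp c n y) + c.cc) ≤ 1 / 400000 * (c.cW l (S.Wp c n y) + c.cc) :=
      mul_le_mul_of_nonneg_right (by linarith only [s1, s4]) (by linarith only [s5, s6, s7, cc, u0])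
    linarith only [F.lo, s5, s6, s7, s8, cc, u0, u1, this]
  obtain ex : ∀ y (a b : ℝ), S.fr (n + 1) y ≠ 0 → a ≤ b + (c.lam + Real.log |S.fr (n + 1) y|) →
      Real.exp a ≤ Real.exp b * (c.L * |S.fr (n + 1) y|) := fun y a b hy hab => by
    rw [← Real.exp_log (abs_pos.2 hy), ← Real.exp_log hL, ← Real.exp_add, ← Real.exp_add]
    exact Real.exp_le_exp.2 hab
  refine (h.trans T A h1 h2 (E := 2 * Real.exp (8 * G)) (B := Real.exp (8 * G)) (Real.exp_pos _).le
    ?_ (fun z hz hq => ?_) j h3 h4).trans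
    (mul_le_mul_of_nonneg_right ?_ (DRP.wp_pos S (by linarith only [A.lt, h1, h3])).le)
  · rw [mul_assoc 2 (Real.exp (8 * G))]
    refine mul_le_mul_of_nonneg_left (ex x _ _ A.rx.ne ?_) (by norm_num)
    obtain ⟨u0, u1⟩ := h.u0 T x
    obtain a1 := mul_le_mul_of_nonneg_right (show c.e3 ^ 19 ≤ 1 by linarith only [s5, s6, s7])
      (show 0 ≤ c.cW l (S.Wp c n x) + c.lam by linarith only [s5, s6, s7, s8, cc, u0])
    linarith only [A.st.zb, A.st.lo.1, A.st.lo.2.1, lw x A.fx, s5, s6, s7, s8, cc, W0, G1, u1, a1]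
  · obtain ⟨q', A'⟩ := h.mem T z hz
    refine ex _ _ _ A'.rx.ne ?_
    have a1 := h.rel T q z.1 A.nxt (Or.inr ⟨z.2, hz⟩) hq
    have a2 := A'.st.r_hi
    have a3 := lw _ A'.fx
    have Wz := DS0.Wp0 (c := c) S n z.1
    obtain a4 := mul_le_mul_of_nonneg_left a1 (show 0 ≤ 1 + c.κ by linarith only [κ0, s5, s6, s7])
    obtain a5 : S.chi c q z.1 ≤ S.chi c i z.1 :=
      S.chi_mono c (by linarith only [k.chK.1, s5, s6, s7]) k.chK.2 h2.le le_rfl
    obtain a6 : (1 + c.κ) ^ 2 * (5 * S.chi c q z.1 / c.β) ≤ 5 / 8 * S.chi c q z.1 := by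
      rw [← mul_div_assoc, div_le_iff₀ (by linarith only [k.β, s5, s6, s7])]
      have := mul_le_mul_of_nonneg_right h.k.β (k.chi0 S q z.1)
      linarith only [this]
    obtain a7 := mul_le_mul_of_nonneg_right k1 (show 0 ≤ c.lam by linarith only [s5, s6, s7, s8, cc])
    obtain a8 := mul_nonneg κ0.le (show 0 ≤ c.lam - 4 by linarith only [s5, s6, s7, s8, cc])
    have a9 := mul_nonneg (sq_nonneg (1 + c.κ)) W0
    linarith only [s5, s6, s7, s8, s9, cc, a2, a3, Wz, a4, a5, a6, a7, a8, a9]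
  · obtain e : Real.exp (9 * (1 + c.κ) ^ 2 * (S.Wp c n q + c.lam)) = Real.exp (8 * G) * Real.exp G := by
      rw [← Real.exp_add, hG]; congr 1; ring
    have := Real.add_one_le_exp G
    rw [e]
    nlinarith only [Real.exp_pos (8 * G), s5, s6, s7, s8, cc, W0, G1, this]

theorem R.rho (h : R c Ex) (T : S.Top c Ex ξ n l Ls p) {x q : ℤ} {r : ℝ}
    (A : S.AllS c Ex ξ n l Ls p x r q) (hm : c.ε * c.cW l (S.Wp c n x) + c.lam ≤ r) (j : ℤ)
    (h1 : q ≤ j) (h2 : j ≤ p) :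
    |S.fr (x + 1) j * S.fr (n + 1) x * S.rho (S.fr (n + 1)) x q - S.fr (n + 1) j| ≤
      Real.exp (-S.chi c x q / 2) * S.wp c n j := by
  have k := h.k.k.k
  have κ0 := h.k.k.κ0
  have lam := h.k.l3
  obtain hL : 0 < c.L := by linarith [k.L]
  obtain ⟨l1, l2, l3⟩ := A.lt
  obtain wj := (DRP.wp_pos (c := c) S (show n < j by omega)).le
  have fx := A.rx.ne
  obtain ρ0 : S.rho (S.fr (n + 1)) x q ≠ 0 := by
    rw [← abs_pos, A.b2.eta]; positivity
  obtain fq : S.fr (x + 1) q ≠ 0 := fun e => ρ0 (by simp [Sq.rho, e])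
  obtain eu := S.euler (ξ := S.fr (n + 1)) l2 h1 fun y y1 _ => S.fr_succ (by omega)
  obtain e1 : S.fr (x + 1) j * S.fr (n + 1) x * S.rho (S.fr (n + 1)) x q - S.fr (n + 1) j =
      (S.fr (x + 1) j * S.fr (n + 1) q - S.fr (n + 1) j * S.fr (x + 1) q) / S.fr (x + 1) q := by
    unfold Sq.rho; field_simp
  rw [e1, abs_div, eu, div_le_iff₀ (abs_pos.2 fq)]
  rcases h1.eq_or_lt with rfl | h1
  · rw [S.fr_succ_self, abs_zero, mul_zero]; (clear * - fq wj; positivity)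
  obtain ⟨u0, u1⟩ := h.u0 T x
  obtain r1 : c.lam ≤ r := by linarith [mul_nonneg k.ε0.le u0]
  have Wl : c.lam ≤ S.Wp c n q := (A.st.p7 r1).trans A.st.lo.2.1
  obtain ⟨x', r', q', g1, g2, A'⟩ := h.tile T q (by omega) (by omega)
  obtain xq : x' = q := by
    rcases A.gap _ A'.mem with g | g | g
    · rcases A'.gap _ A.mem with g' | g' | g' <;> simp only [Prod.mk.injEq] at g g' <;> omega
    · rcases A.nxt with e | ⟨r2, e⟩
      · omega
      · rcases A'.gap _ e with g' | g' | g' <;> simp only [Prod.mk.injEq] at g g' <;> omega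
    · simp only at g; omega
  subst xq
  have cr := h.crude T A' x' j le_rfl g2 h1 h2
  obtain ⟨P0, P1⟩ := T.ok.Pb_le (θ := 2 / 100) (by norm_num) (i := x) (j := x')
    (by linarith [T.out.1])
  obtain a1 : |S.Pb x x'| * |S.fr (n + 1) x| ≤
      Real.exp (-(1 - c.a / 2) * S.chi c x x') * |S.fr (n + 1) x'| := by
    rw [abs_of_pos P0]
    exact (mul_le_mul_of_nonneg_right P1 (abs_nonneg _)).trans A.step.con.1
  obtain a2 : |S.fr (n + 1) x'| ≤ Real.exp (S.Wp c n x') * |S.fr (x + 1) x'| := by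
    rw [S.rho_mul fx fq, abs_mul, abs_mul, A.b2.eta, ← Real.exp_log (abs_pos.2 fx),
      ← Real.exp_log hL, ← Real.exp_add, mul_right_comm, ← Real.exp_add]
    refine mul_le_mul_of_nonneg_right (Real.exp_le_exp.2 ?_) (abs_nonneg _)
    change c.lam + _ + _ ≤ _
    linarith [A.st.lo.1]
  obtain a3 := mul_le_mul (a1.trans (mul_le_mul_of_nonneg_left a2 (Real.exp_pos _).le)) cr
    (abs_nonneg _) (by (clear * - fq; positivity))
  refine a3.trans ?_
  obtain a4 : Real.exp (-(1 - c.a / 2) * S.chi c x x') * Real.exp (S.Wp c n x') *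
      Real.exp (9 * (1 + c.κ) ^ 2 * (S.Wp c n q' + c.lam)) ≤ Real.exp (-S.chi c x x' / 2) := by
    rw [← Real.exp_add, ← Real.exp_add]
    refine Real.exp_le_exp.2 ?_
    have b1 := A.st.d5 c.ε k.ε0.le hm
    have b2 := h.k.M
    rw [div_le_iff₀ (by have := k.ε0; positivity)] at b2
    obtain b3 := mul_le_mul_of_nonneg_right b2 (show 0 ≤ S.Wp c n x' by linarith only [lam, Wl])
    obtain b4 : 250 * (1 + c.κ) ^ 3 * S.Wp c n x' ≤ S.chi c x x' := by
      refine le_of_mul_le_mul_left ?_ (show 0 < 2 * (1 + c.κ) by linarith only [κ0])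
      nlinarith only [b1, b3]
    obtain b5 : S.Wp c n q' + c.lam ≤ (1 + c.κ) * (4 * S.Wp c n x') := by
      have := A'.st.W_hi
      nlinarith only [κ0, lam, Wl, this]
    obtain b6 := mul_le_mul_of_nonneg_left b5 (show 0 ≤ 9 * (1 + c.κ) ^ 2 by positivity)
    obtain b7 : S.Wp c n x' ≤ (1 + c.κ) ^ 3 * S.Wp c n x' :=
      le_mul_of_one_le_left (by linarith only [lam, Wl]) (one_le_pow₀ (by linarith))
    have b8 := mul_le_mul_of_nonneg_right k.a1 (k.chi0 S x x')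
    nlinarith only [lam, Wl, b4, b6, b7, b8]
  have := mul_le_mul_of_nonneg_right a4 (mul_nonneg wj (abs_nonneg (S.fr (x + 1) x')))
  linarith only [this]

end DS1

open DS1 in
theorem ds1 : Hier fun c => B1_s c → NUM_s c → RHO_s c → B5_s c → DRP_s c → DS0_s c → DS1_s c :=
  hK.mono fun c k hB hN hρ h5 hD h0 =>
    ⟨fun _ _ _ _ _ _ _ _ _ hS hs hR => blk3 k.k.k hB hρ hD hS hs hR, fun hκ Ex hE _ _ _ _ _ _ T =>
      have h : R c Ex := ⟨k, hB, hN, hρ, hD, hκ, hE, h5, h0⟩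
      ⟨h.tile T, h.mem T, fun _ _ hδ hB hz => h.d8 T hδ hB hz, h.rel T,
        fun _ _ _ A => ⟨h.crude T A, h.rho T A⟩⟩⟩

end
end Pool.Agent.MP_9cbfe4_an

end

/-! ### Part D7a -/

section

/-! Row D7, true orbit: the time at which C5 is read and the later terms of the speed. -/

namespace Pool.Agent.MP_9cbfe4_an
open Finset

namespace D7

structure Nm (K : ℕ) (c : Cs) : Prop where
  b5 : B5.K c
  εK : 1000 * (K + 1) * c.ε ≤ 1
  cn : 80 * c.C1 * c.CN ≤ c.lam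
  lK : 40 * K ≤ c.lam
  lam : 1000 ≤ c.lam
  M1 : 10 ≤ c.M1
  C0 : 10 ≤ c.C0
  CG : 1 ≤ c.CG
  LG : 10 ^ 12 * c.CG ≤ c.L

theorem nm (K : ℕ) : Hier (Nm K) := by
  obtain e1 := Hier.ε_le_pow (fun _ => 1 / (1000 * (K + 1))) 0 (by norm_num)
    (fun _ _ _ _ _ _ _ _ => rfl) (.of_all fun _ => by (clear * -; positivity))
  have e2 := Hier.lam_ge (fun c => 80 * c.C1 * c.CN) fun _ _ => rfl
  have e3 := Hier.lam_ge (fun _ => 40 * K) fun _ _ => rfl
  have e4 := Hier.lam_ge (fun _ => 1000) fun _ _ => rfl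
  have e5 := Hier.M1_ge (fun _ => 10) fun _ _ _ _ => rfl
  have e6 := Hier.C0_ge fun _ _ _ _ => 10
  have e7 := Hier.L_ge (fun c => 10 ^ 12 * c.CG) fun _ _ => rfl
  refine (B5.hK.and (e1.and (e2.and (e3.and (e4.and (e5.and (e6.and (e7.and Hier.base)))))))).mono ?_
  rintro c ⟨a0, ⟨-, a1⟩, a2, a3, a4, a5, a6, a7, -, -, -, -, -, a8⟩
  rw [pow_zero, mul_one, le_div_iff₀ (by (clear * -; positivity))] at a1
  exact ⟨a0, by linarith only [a1], a2, a3, a4, a5, a6, a8, a7⟩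

variable {K : ℕ} {c : Cs}

theorem Nm.L0 (h : Nm K c) : 0 < c.L := by linarith only [h.b5.L]
theorem Nm.expl (h : Nm K c) : Real.exp c.lam = c.L := Real.exp_log h.L0
theorem Nm.ε (h : Nm K c) : 0 < c.ε ∧ c.ε ≤ 1 / 1000 ∧ 1000 * K * c.ε ≤ 1 := by
  have := h.εK; have h0 := h.b5.ε.1
  obtain this : (0 : ℝ) ≤ K * c.ε := by (clear * - h0; positivity)
  exact ⟨h0, by (rename_i zq0; linarith only [zq0, this]), by (rename_i zq0; linarith only [zq0, h0])⟩
theorem Nm.cc (h : Nm K c) : 0 ≤ c.cc ∧ c.cc ≤ c.lam / 20000 := by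
  obtain ⟨a, b, -⟩ := h.ε
  have := h.lam
  unfold Cs.cc
  exact ⟨by (clear * - a this; positivity), by nlinarith only [b, this]⟩
theorem Nm.bl (h : Nm K c) : 160 * c.lam ≤ c.bl := by
  have := h.b5.β; have := h.M1; have := h.lam
  unfold Cs.bl; (rename_i zq1 zq0; nlinarith only [zq1, zq0, this])

theorem WW_mono (S : Sq) (ξ : ℤ → ℝ) (s : ℤ) {i j : ℤ} (h : i ≤ j) : S.WW c ξ s i ≤ S.WW c ξ s j :=
  Real.log_le_log (zero_lt_one.trans_le (S.one_le_AA c _ _ _)) (S.AA_mono c _ _ h)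

/-- `wh_j ≤ 36 L A_j` -/
theorem wp_le (h : Nm K c) {S : Sq} (hS : S.OK c) {n j : ℤ} (hn : 0 ≤ n) (hj : n < j) :
    S.wp c n j ≤ 36 * c.L * S.AA c (S.fr (n + 1)) (n + 1) j := by
  have A1 := S.one_le_AA c (S.fr (n + 1)) (n + 1) j
  have hL := h.b5.L
  rcases (by omega : j = n + 1 ∨ n + 1 < j) with rfl | h1
  · obtain this : S.wp c n (n + 1) ≤ 1 := S.wh_le c _ zero_le_one fun i _ i2 => by
      rcases i2.eq_or_lt with rfl | i3
      · simp [Sq.fr_self, Sq.chi_self]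
      · simp [S.fr_lt i3]
    nlinarith only [hL, A1, this]
  · obtain ⟨a, b⟩ := (Sq.cert_wh hS h.b5.k0.2.2 h.b5.k0.2.1 (by linarith only [h.lam]) h.b5.chK.2.1
      (B5.st_fr S hn) le_rfl).2.2 (j - 1) (by omega)
    rw [sub_add_cancel] at a b
    unfold Sq.wp
    nlinarith only [a, b, hL]

theorem logw_le (h : Nm K c) {S : Sq} (hS : S.OK c) {n j : ℤ} (hn : 0 ≤ n) (hj : n < j)
    (h0 : S.fr (n + 1) j ≠ 0) : Real.log |S.fr (n + 1) j| ≤ S.Wp c n j + c.lam + 4 := by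
  obtain a := (S.abs_le_wh c (S.fr (n + 1)) (s := n + 1) (j := j) (by omega)).trans (wp_le h hS hn hj)
  have A1 := S.one_le_AA c (S.fr (n + 1)) (n + 1) j
  obtain e4 : (36 : ℝ) ≤ Real.exp 4 := by
    have := Real.add_one_le_exp (3 / 2 : ℝ)
    have h1 := Real.exp_one_gt_d9
    obtain this : Real.exp 4 = Real.exp 1 ^ 4 := by rw [← Real.exp_nat_mul]; norm_num
    rw [this]
    calc (36 : ℝ) ≤ 2.7 ^ 4 := by norm_num
      _ ≤ _ := pow_le_pow_left₀ (by norm_num) (by linarith only [h1]) 4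
  rw [Real.log_le_iff_le_exp (abs_pos.2 h0), Real.exp_add, Real.exp_add, h.expl, Sq.Wp, Sq.WW,
    Real.exp_log (by linarith only [A1])]
  have := h.L0
  refine a.trans ?_
  obtain this := mul_le_mul_of_nonneg_left e4 (show 0 ≤ S.AA c (S.fr (n + 1)) (n + 1) j * c.L by (clear * - A1 this; positivity))
  linarith only [this]

/-- the data of the last step of a bound run -/
theorem bh (h : Nm K c) (hB : B1_s c) {Ex : ExT} {S : Sq} (hS : S.OK c) {ξ : ℤ → ℝ} {n m p : ℤ}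
    {r : ℝ} {Ls : List (ℤ × ℝ)} (ho : S.Out c ξ n)
    (hR : S.Run c Ex (S.fr (n + 1)) (n + 1) (S.PBd c Ex ξ n) ((m, r) :: Ls) p) :
    S.BH c Ex ξ n Ls m r p := by
  have st := B5.st_fr (c := c) S ho.1
  obtain ⟨hc, hp⟩ := (hB Ex S hS).1 _ _ _ _ _ st hR
  obtain ⟨h1, h2, -, -⟩ := hR.tail c S
  have hm := ((hB Ex S hS).1 _ _ _ _ _ st h1).2
  have ho' := B5.out_of h.b5 ho.1 hm
  cases hc with
  | cons hc hs _ =>
  refine ⟨hS, ho, hc, (hB Ex S hS).2.1 _ _ _ _ _ ho h1 h2.1, h2, hs, hp, ?_⟩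
  cases hR with
  | shallow => exact Or.inl rfl
  | block _ hR' hP' hrel _ =>
    refine Or.inr ⟨_, ((hB Ex S hS).1 _ _ _ _ _ (B5.st_fr S ho'.1) hR').2,
      (hB Ex S hS).2.1 _ _ _ _ _ ho' hR' hP'.1, ?_⟩
    obtain hρ : S.rho (S.fr (n + 1)) m p ≠ 0 := by
      intro e
      obtain this : 0 < c.cw * c.L := by have := h.L0; have := h.lam; unfold Cs.cw; (rename_i zq0; clear * - this zq0; positivity)
      rw [e] at hrel; norm_num at hrel; linarith only [this, hrel]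
    have := B5.nest h.b5 hP'.1 hρ
    linarith only [this, h.lam]

/-- increment of the partial sums of continuants over one step -/
theorem incr (h : Nm K c) (hK : BLK_s c) {Ex : ExT} {S : Sq} {ξ : ℤ → ℝ} {n m p s j : ℤ} {r B : ℝ}
    {Ls : List (ℤ × ℝ)} (H : S.BH c Ex ξ n Ls m r p) (hs : n < s) (hsm : s ≤ m)
    (hT : ∑ i ∈ Ico s m, |S.fr (i + 1) m| ≤ B * S.wp c n m) (hj : m < j) (hjp : j ≤ p) :
    ∑ i ∈ Ico s j, |S.fr (i + 1) j| ≤ (B + 20 * Real.exp (4 * max r 0 + 8 * c.C1 * S.load c m (2 * r))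
      / (c.L * |S.fr (n + 1) m|)) * S.wp c n j := by
  obtain ⟨k1, k2, -⟩ := h.b5.chK
  have L0 := h.L0
  have hr := (Sq.Chain.rinv c S H.chain).1
  have w0 : 0 < |S.fr (n + 1) m| := abs_pos.2 hr.ne
  rw [show S.wp c n m = |S.fr (n + 1) m| from hr.whm] at hT
  have p0 : 0 ≤ S.wp c n j := S.wh_nonneg c _ _ _
  obtain C1 : 0 ≤ c.C1 := by linarith only [h.b5.C1]
  obtain i3 := BINVd.inner hK (by linarith only [h.lam]) L0 (by linarith only [k1]) k2 (by linarith only [h.C0]) C1 H hj hjp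
  have i2 := H.step.ins1 j hj hjp
  obtain pa := BINVd.past (by linarith only [k1]) k2 (by linarith only [h.b5.a.2]) hr
  set E := Real.exp (4 * max r 0 + 8 * c.C1 * S.load c m (2 * r)) with hE
  obtain eE : Real.exp r ≤ E := Real.exp_le_exp.2 (by
    have := le_max_left r 0; have := le_max_right r 0
    have := mul_nonneg C1 (S.load_nonneg c m (2 * r)); (rename_i zq1 zq0; linarith only [zq1, zq0, this]))
  have e0 := Real.exp_pos r
  obtain kp : 0 < c.k0 * c.L + 1 := by have := h.b5.k0.1; (clear * - this L0; positivity)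
  obtain pa' : ∑ i ∈ Ico s m, S.PB c (2 / 100) i m * S.wh c (S.fr (n + 1)) (n + 1) i ≤
      8 * |S.fr (n + 1) m| := (sum_le_sum_of_subset_of_nonneg (Ico_subset_Ico_left (by omega))
    fun i _ _ => mul_nonneg (S.PB_pos c kp _ _ _).le (S.wh_nonneg c _ _ _)).trans pa
  obtain i1 : (∑ i ∈ Ico s m, |S.fr (i + 1) j|) * |S.fr (n + 1) m| ≤
      (B * |S.fr (n + 1) m| + 16 * Real.exp r / c.L) * S.wp c n j := by
    rw [sum_mul]
    refine (sum_le_sum fun i hi => H.step.ins3 i j (by have := (mem_Ico.1 hi).1; omega)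
      (mem_Ico.1 hi).2 hj hjp).trans ?_
    rw [← sum_mul, sum_add_distrib, ← sum_div, ← mul_sum]
    refine mul_le_mul_of_nonneg_right (add_le_add hT ?_) p0
    rw [div_le_div_iff₀ (by (clear * - L0 w0; positivity)) L0]
    obtain this := mul_le_mul_of_nonneg_left pa' (show 0 ≤ 2 * Real.exp r * c.L by (clear * - L0; positivity))
    linarith only [this]
  rw [← Ico_union_Ico_eq_Ico hsm hj.le, sum_union (Ico_disjoint_Ico_consecutive _ _ _),
    ← Ico_union_Ico_eq_Ico (a := m) (b := m + 1) (by omega) (by omega),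
    sum_union (Ico_disjoint_Ico_consecutive _ _ _), Ico_add_one_right_eq_Icc, Icc_self,
    sum_singleton]
  refine le_of_mul_le_mul_right ?_ (mul_pos L0 w0)
  obtain e1 : (B + 20 * E / (c.L * |S.fr (n + 1) m|)) * S.wp c n j * (c.L * |S.fr (n + 1) m|) =
      (B * |S.fr (n + 1) m| * c.L + 20 * E) * S.wp c n j := by field_simp
  obtain e2 : (B * |S.fr (n + 1) m| + 16 * Real.exp r / c.L) * S.wp c n j * c.L =
      (B * |S.fr (n + 1) m| * c.L + 16 * Real.exp r) * S.wp c n j := by field_simp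
  have i1' := mul_le_mul_of_nonneg_right i1 L0.le
  rw [e2] at i1'
  have := mul_le_mul_of_nonneg_right eE p0
  have i2' : |S.fr (m + 1) j| * c.L * |S.fr (n + 1) m| ≤ 2 * Real.exp r * S.wp c n j := i2
  rw [e1]
  linarith only [i3, i1', this, i2']

/-- sizes at a bound free time when the load is at most `l` -/
theorem sizes (h : Nm K c) (hB : B1_s c) {Ex : ExT} {S : Sq} (hS : S.OK c) {ξ : ℤ → ℝ} {n m : ℤ}
    {r l : ℝ} {Ls : List (ℤ × ℝ)} (ho : S.Out c ξ n) (hR : S.BRun c Ex ξ n Ls m r)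
    (hl : S.load c n (S.Wt c (S.fr (n + 1)) (n + 1) m r) ≤ l) :
    ∃ x, 0 ≤ x ∧ x ≤ 101 / 100 * (c.C1 * l + c.ε * S.Wp c n m) + c.lam / 400 ∧
      max r 0 ≤ 11 / 10 * x + c.cc ∧ S.xp c n m ≤ x ∧
      S.Wt c (S.fr (n + 1)) (n + 1) m r ≤ S.Wp c n m + c.lam + 4 + max r 0 := by
  obtain ⟨k1, k2, -⟩ := h.b5.chK
  obtain ⟨ε0, ε1, -⟩ := h.ε
  obtain ⟨c0, c1⟩ := h.cc
  obtain C1 : 0 ≤ c.C1 := by linarith only [ε0, ε1, h.b5.C1]
  have hr := ((hB Ex S hS).1 _ _ _ _ _ (B5.st_fr S ho.1) hR.1).2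
  have a1 := (hB Ex S hS).2.2 _ _ _ _ _ ho hR
  obtain a2 := logw_le h hS ho.1 (by have := hr.le; omega) hr.ne
  have W0 : 0 ≤ S.Wp c n m := B5.WW_nonneg S _ _ _
  have r1 := le_max_left r 0
  have r2 := le_max_right r 0
  have l0 := h.lam
  set V := S.Wt c (S.fr (n + 1)) (n + 1) m r with hV
  obtain a3 : V ≤ S.Wp c n m + c.lam + 4 + max r 0 :=
    max_le (by unfold Sq.Wp at *; linarith only [ε0, ε1, r2, l0]) (by linarith only [a2, r1])
  have a4 : S.Wp c n m ≤ V := le_max_left _ _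
  have q0 := mul_nonneg C1 (S.load_nonneg c n V)
  have q1 := mul_le_mul_of_nonneg_left hl C1
  obtain q2 := mul_le_mul_of_nonneg_left
    (S.load_mono c (by linarith only [k1, ε0, ε1]) k2 (by linarith only [ε0, ε1, h.C0]) n a4) C1
  have q3 := mul_le_mul_of_nonneg_left a4 ε0.le
  have q4 := mul_nonneg ε0.le W0
  obtain x0 : 0 ≤ S.xx c n V := by unfold Sq.xx; linarith only [c0, q0, q3, q4]
  obtain a5 : max r 0 ≤ 11 / 10 * S.xx c n V + c.cc := max_le a1 (by linarith only [c0, x0])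
  refine ⟨S.xx c n V, x0, ?_, a5, by unfold Sq.xp Sq.xx; linarith only [q2, q3], a3⟩
  have q5 := mul_le_mul_of_nonneg_left (a3.trans (add_le_add_right a5 _)) ε0.le
  have q6 := mul_le_mul_of_nonneg_right ε1 x0
  obtain q7 := mul_le_mul_of_nonneg_right ε1 (show 0 ≤ c.lam + 4 + c.cc by linarith only [ε0, ε1, c0, l0])
  have e : S.xx c n V = c.C1 * S.load c n V + c.ε * V + c.cc := rfl
  linarith only [ε0, ε1, c1, l0, q0, q1, q4, q5, q6, q7, e]

/-- the lower bound given by C5 at level `W`, up to the factor `1/2` -/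
noncomputable def EE (K : ℕ) (W : ℝ) : ℝ := Real.exp (-(1 - 1 / (2 * K)) * W)

theorem C7l (h : Nm K c) (hK1 : 1 ≤ K) {l : ℝ} (l0 : 0 ≤ l) :
    100 * K * (c.C1 * l) ≤ c.C7 K * l ∧ 100 * (c.C1 * l) ≤ c.C7 K * l ∧ 0 ≤ c.C1 * l := by
  obtain k1 : (1 : ℝ) ≤ K := by exact_mod_cast hK1
  obtain a : 0 ≤ c.C1 * l := mul_nonneg (by linarith only [h.b5.C1]) l0
  obtain e : c.C7 K * l = 100 * K ^ 2 * (c.C1 * l) := by unfold Cs.C7; ring
  obtain k2 : (K : ℝ) ≤ K ^ 2 := by nlinarith only [k1]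
  rw [e]
  exact ⟨by nlinarith only [a, k2], by nlinarith only [k1, a, k2], a⟩

theorem small (h : Nm K c) (hK1 : 1 ≤ K) (hB : B1_s c) {Ex : ExT} {S : Sq} {ξ : ℤ → ℝ} {n m p : ℤ}
    {r r' l W1 : ℝ} {Ls : List (ℤ × ℝ)} (H : S.BH c Ex ξ n Ls m r p)
    (hR : S.Run c Ex (S.fr (n + 1)) (n + 1) (S.PBd c Ex ξ n) ((m, r) :: Ls) p)
    (hd : S.Bd c ξ n p r') (hl : S.load c n (S.Wt c (S.fr (n + 1)) (n + 1) m r) ≤ l)
    (hW : c.C7 K * l ≤ W1) (hW' : W1 ≤ S.Wp c n m) :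
    20 * Real.exp (4 * max r 0 + 8 * c.C1 * S.load c m (2 * r)) / (c.L * |S.fr (n + 1) m|) ≤
      EE K W1 / 10 ^ 4 * (1 / 2) ^ (Ls.length + 1) := by
  have l0 : 0 ≤ l := (S.load_nonneg c _ _).trans hl
  obtain ⟨x, x0, x1, x2, x3, -⟩ := sizes h hB H.ok H.out ⟨(hR.tail c S).1, H.pbd⟩ hl
  obtain ⟨b1, -, b3⟩ := C7l h hK1 l0
  obtain ⟨ε0, ε1, ε2⟩ := h.ε
  obtain ⟨c0, c1⟩ := h.cc
  obtain k1 : (1 : ℝ) ≤ K := by exact_mod_cast hK1
  have lm := h.lam
  obtain C1 : 0 ≤ c.C1 := by linarith only [ε0, ε1, h.b5.C1]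
  have hr := (Sq.Chain.rinv c S H.chain).1
  have w0 : 0 < |S.fr (n + 1) m| := abs_pos.2 hr.ne
  have W0 : 0 ≤ S.Wp c n m := B5.WW_nonneg S _ _ _
  have hb := (hB Ex S H.ok).2.1 _ _ _ _ _ H.out hR hd
  obtain CN : 0 ≤ c.CN := by unfold Cs.CN; (clear * -; positivity)
  obtain q1 : c.lam * S.load c m (2 * r) ≤ c.CN * x :=
    (mul_le_mul_of_nonneg_left ((hb.loads (m, r) (by simp)).trans
      (S.qu_le_NK h.b5.chK.2.2 _ _)) (by linarith only [ε0, ε1, lm])).trans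
      (H.binv.nk.trans (mul_le_mul_of_nonneg_left x3 CN))
  obtain q2 : 8 * c.C1 * S.load c m (2 * r) ≤ x / 10 := by
    have a1 := mul_le_mul_of_nonneg_left q1 C1
    have a2 := mul_le_mul_of_nonneg_right h.cn x0
    refine le_of_mul_le_mul_left ?_ (by linarith only [ε0, ε1, lm] : 0 < c.lam)
    linarith only [a1, a2]
  obtain q3 : S.Wp c n m - Real.log |S.fr (n + 1) m| ≤ x / 10 := by
    have a1 : S.sig c (S.fr (n + 1)) (n + 1) m ≤ S.sg c (S.fr (n + 1)) (n + 1) m := le_max_left _ _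
    obtain ⟨a2, a3, -, -⟩ := h.b5.ε'
    have a4 := mul_le_mul_of_nonneg_left x3 a2.le
    have a5 := mul_le_mul_of_nonneg_right (a3.trans h.b5.e3.2) x0
    have a6 := H.binv.sg_le
    unfold Sq.sig at a1
    unfold Sq.Wp
    linarith only [x0, a1, a4, a5, a6]
  set W := S.Wp c n m with hWm
  set u := W / K with hu
  obtain hu' : W = K * u := by rw [hu]; field_simp
  obtain u0 : 0 ≤ u := by (clear * - W0 hK1; positivity)
  obtain q4 : 100 * (c.C1 * l) ≤ u := by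
    rw [hu, le_div_iff₀ (by linarith only [ε0, ε1, k1])]; linarith only [hW, b1, hW']
  obtain q5 : 1000 * (c.ε * W) ≤ u := by
    rw [hu']; have := mul_le_mul_of_nonneg_right ε2 u0; linarith only [this]
  obtain q6 : (Ls.length : ℝ) - 10 ≤ u / 4 := by
    have a1 := H.binv.len
    rw [le_div_iff₀ (by linarith only [ε0, ε1, lm])] at a1
    rcases le_total (Ls.length : ℝ) 10 with a2 | a2
    · linarith only [u0, a2]
    · have a3 := mul_le_mul_of_nonneg_left h.lK (sub_nonneg.2 a2)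
      refine le_of_mul_le_mul_left ?_ (by linarith only [ε0, ε1, k1] : (0 : ℝ) < K)
      linarith only [hu', a1, a3]
  obtain q7 : -(1 - 1 / (2 * K)) * W ≤ -(1 - 1 / (2 * K)) * W1 := by
    obtain this : 1 / (2 * (K : ℝ)) ≤ 1 := by rw [div_le_one (by linarith only [ε0, ε1, k1])]; linarith only [ε0, ε1, k1]
    nlinarith only [ε0, ε1, hW', this]
  obtain q8 : -(1 - 1 / (2 * K)) * W = -W + u / 2 := by rw [hu]; field_simp; ring
  obtain e1 : c.L * |S.fr (n + 1) m| = Real.exp (c.lam + Real.log |S.fr (n + 1) m|) := by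
    rw [Real.exp_add, Real.exp_log w0, h.expl]
  obtain e2 : Real.exp (-((Ls.length + 1 : ℕ) : ℝ)) ≤ (1 / 2) ^ (Ls.length + 1) := by
    rw [← mul_neg_one, Real.exp_nat_mul]
    refine pow_le_pow_left₀ (Real.exp_pos _).le ?_ _
    rw [Real.exp_neg, inv_le_comm₀ (Real.exp_pos _) (by norm_num)]
    linarith only [Real.add_one_le_exp (1 : ℝ)]
  obtain e4 : (200000 : ℝ) ≤ Real.exp 100 := by
    obtain this := Real.pow_div_factorial_le_exp (x := 100) (by norm_num) 4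
    norm_num [Nat.factorial] at this
    linarith only [ε0, ε1, this]
  rw [e1, mul_div_assoc, ← Real.exp_sub]
  refine le_trans ?_ (mul_le_mul_of_nonneg_left e2 (by unfold EE; positivity))
  rw [div_mul_eq_mul_div, le_div_iff₀ (by norm_num), EE, ← Real.exp_add]
  refine le_trans (?_ : _ ≤ Real.exp 100 * _) (by
    rw [← Real.exp_add]
    exact Real.exp_le_exp.2 (show 100 + (4 * max r 0 + 8 * c.C1 * S.load c m (2 * r) -
      (c.lam + Real.log |S.fr (n + 1) m|)) ≤ _ by push_cast; linarith only [x2, ε0, ε1, c1, lm, q2, x1, q3, u0, q4, q5, q6, q7, q8]))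
  have := mul_le_mul_of_nonneg_right e4 (Real.exp_pos (4 * max r 0 + 8 * c.C1 * S.load c m (2 * r) -
      (c.lam + Real.log |S.fr (n + 1) m|))).le
  linarith only [this]

/-- the first free time above the threshold of C5 -/
theorem pick (h : Nm K c) (hK1 : 1 ≤ K) (hB : B1_s c) (hK : BLK_s c) {Ex : ExT} {S : Sq}
    (hS : S.OK c) {ξ : ℤ → ℝ} {n : ℤ} {l : ℝ} (ho : S.Out c ξ n) (Ls : List (ℤ × ℝ)) :
    ∀ p r', S.Run c Ex (S.fr (n + 1)) (n + 1) (S.PBd c Ex ξ n) Ls p → S.Bd c ξ n p r' →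
      S.load c n (S.Wp c n p) ≤ l → c.C7 K * l ≤ S.Wp c n p →
      ∃ q, n < q ∧ q ≤ p ∧ c.C7 K * l ≤ S.Wp c n q ∧ S.Wp c n q ≤ 2 * (c.C7 K * l) + 2 * c.lam ∧
        (q = p ∨ ∃ L1 r1, S.BRun c Ex ξ n L1 q r1 ∧
          S.Wt c (S.fr (n + 1)) (n + 1) q r1 ≤ S.Wp c n p) ∧
        ∀ j, q < j → j ≤ p → ∑ i ∈ Ico q j, |S.fr (i + 1) j| ≤
          EE K (S.Wp c n q) / 10 ^ 4 * (1 - (1 / 2) ^ Ls.length) * S.wp c n j := by
  obtain ⟨k1, k2, -⟩ := h.b5.chK
  have lm := h.lam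
  obtain lmono := fun {V V' : ℝ} (hV : V ≤ V') =>
    S.load_mono c (by linarith only [k1]) k2 (by linarith only [h.C0]) n hV
  induction Ls with
  | nil =>
    intro p r' hR _ hl hW
    obtain rfl := hR.nil c S
    have l0 : 0 ≤ l := (S.load_nonneg c _ _).trans hl
    obtain ⟨-, b2, b3⟩ := C7l h hK1 l0
    obtain this : S.Wp c n (n + 1) = 0 := by simp [Sq.Wp, Sq.WW, Sq.AA_self]
    exact ⟨n + 1, by omega, le_rfl, hW, by linarith only [lm, b2, b3, this], Or.inl rfl, fun j a b => by omega⟩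
  | cons x Ls ih =>
    obtain ⟨m, r⟩ := x
    intro p r' hR hd hl hW
    have H := bh h hB hS ho hR
    have hmp := H.step.lt
    have hr := (Sq.Chain.rinv c S H.chain).1
    have hnm := hr.le
    have hV : _ ≤ S.Wp c n p := B5.wt_le hB hS (B5.st_fr S ho.1) hR
    have hWm : S.Wp c n m ≤ S.Wp c n p := WW_mono S _ _ hmp.le
    have l0 : 0 ≤ l := (S.load_nonneg c _ _).trans hl
    obtain ⟨-, b2, b3⟩ := C7l h hK1 l0
    rcases le_or_gt (c.C7 K * l) (S.Wp c n m) with hm | hm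
    · obtain ⟨q, q1, q2, q3, q4, q5, q6⟩ := ih m r (hR.tail c S).1 H.pbd.1 ((lmono hWm).trans hl) hm
      obtain E0 : 0 < EE K (S.Wp c n q) / 10 ^ 4 := by unfold EE; positivity
      obtain t0 : (0 : ℝ) < (1 / 2) ^ Ls.length := by positivity
      refine ⟨q, q1, by omega, q3, q4, Or.inr ?_, fun j j1 j2 => ?_⟩
      · rcases q5 with rfl | ⟨L1, r1, a, b⟩
        · exact ⟨_, _, ⟨(hR.tail c S).1, H.pbd⟩, hV⟩
        · exact ⟨L1, r1, a, b.trans hWm⟩
      have p0 : 0 ≤ S.wp c n j := S.wh_nonneg c _ _ _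
      rw [List.length_cons]
      rcases le_or_gt j m with hj | hj
      · refine (q6 j j1 hj).trans (mul_le_mul_of_nonneg_right
          (mul_le_mul_of_nonneg_left ?_ E0.le) p0)
        rw [pow_succ]; linarith only [t0]
      · obtain hT : ∑ i ∈ Ico q m, |S.fr (i + 1) m| ≤
            EE K (S.Wp c n q) / 10 ^ 4 * (1 - (1 / 2) ^ Ls.length) * S.wp c n m := by
          rcases q2.eq_or_lt with rfl | q2'
          · rw [Ico_self, sum_empty]
            obtain this : (1 / 2 : ℝ) ^ Ls.length ≤ 1 := pow_le_one₀ (by norm_num) (by norm_num)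
            exact mul_nonneg (mul_nonneg E0.le (by linarith only [this])) (S.wh_nonneg c _ _ _)
          · exact q6 m q2' le_rfl
        refine (incr h hK H q1 q2 hT hj j2).trans (mul_le_mul_of_nonneg_right ?_ p0)
        have := small h hK1 hB H hR hd ((lmono hV).trans hl) q3 (WW_mono S _ _ q2)
        rw [pow_succ (1 / 2 : ℝ)] at this ⊢
        linarith only [this]
    · refine ⟨p, by omega, le_rfl, hW, ?_, Or.inl rfl, fun j a b => by omega⟩
      obtain ⟨x, x0, x1, x2, -, x4⟩ := sizes h hB hS ho ⟨(hR.tail c S).1, H.pbd⟩ ((lmono hV).trans hl)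
      obtain ⟨ε0, ε1, -⟩ := h.ε
      obtain ⟨c0, c1⟩ := h.cc
      have W0 : 0 ≤ S.Wp c n m := B5.WW_nonneg S _ _ _
      have a1 := mul_le_mul_of_nonneg_right ε1 W0
      have A1 := S.one_le_AA c (S.fr (n + 1)) (n + 1) m
      have A2 := S.one_le_AA c (S.fr (n + 1)) (n + 1) p
      set V := S.Wt c (S.fr (n + 1)) (n + 1) m r with hVd
      obtain a2 : S.AA c (S.fr (n + 1)) (n + 1) m ≤ Real.exp V := by
        rw [← Real.log_le_iff_le_exp (by linarith only [ε0, ε1, A1])]; exact le_max_left _ _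
      obtain a3 : |S.fr (n + 1) m| * Real.exp r ≤ Real.exp V := by
        rw [← Real.exp_log (abs_pos.2 hr.ne), ← Real.exp_add]
        exact Real.exp_le_exp.2 (le_max_right _ _)
      obtain a4 : S.Wp c n p ≤ V + 100 := by
        rw [Sq.Wp, Sq.WW, Real.log_le_iff_le_exp (by linarith only [ε0, ε1, A2]), Real.exp_add]
        have := H.step.A_hi
        have e := mul_le_mul_of_nonneg_left (Real.add_one_le_exp (100 : ℝ)) (Real.exp_pos V).le
        linarith only [a2, a3, this, e]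
      linarith only [lm, b2, hm, x1, x2, ε0, ε1, c1, W0, a1, x4, a4]

theorem gt_le (h : Nm K c) {M : Mdl} (hM : M.OK c) {t : ℝ} (ht : TI t) {S : Sq} {s i : ℤ}
    (ho : IsOrb c M t S s) (hi : s ≤ i) : |M.gt t S i| ≤ 2 := by
  obtain a := hM.t_all t _ _ ht (ho.box i (by omega)) (ho.box (i - 1) (by omega))
  obtain b : c.dl ≤ 1 := Real.exp_le_one_iff.2 (by linarith only [h.bl, h.lam])
  rw [abs_le] at a ⊢
  unfold Mdl.gt
  constructor <;> linarith only [b, a.1, a.2]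

theorem ff_le (S : Sq) (s i : ℤ) : S.ff c s i ≤ 2 := by
  unfold Sq.ff; linarith only [Real.exp_pos (-S.chi c s i / 24)]

/-- a time with `dP ≥ 4/100` contracts by `bl` -/
theorem chi_fold (h : Nm K c) {S : Sq} {i x : ℤ} (hi : i < x) (hx : S.kk x = 0) :
    c.bl ≤ S.chi c i x := by
  obtain ⟨k1, k2, -⟩ := h.b5.chK
  obtain a := S.chi_mono c (by linarith only [k1]) k2 (i := x - 1) (j := x) (i' := i) (j' := x) (by omega) le_rfl
  have b := S.chi_succ c (x - 1)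
  rw [sub_add_cancel, Sq.ch1, hx] at b
  linarith only [a, b]

end D7

/-- order-one source at the fold time `x` of the fresh direction from `s`, horizon `J` -/
noncomputable def Mdl.sigF (M : Mdl) (t : ℝ) (S : Sq) (s x J : ℤ) : ℝ :=
  M.gt t S x + ∑ i ∈ Ico s x, (-1) ^ (x - i).toNat * S.Pb i x * (S.fr s i / S.fr s x) * M.gt t S i
    + ∑ i ∈ Ioo x J, S.fr (i + 1) J / S.fr (x + 1) J * M.gt t S i

namespace D7
variable {K : ℕ} {c : Cs}

theorem hist (h : Nm K c) {M : Mdl} (hM : M.OK c) {t : ℝ} (ht : TI t) {S : Sq}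
    (ho : IsOrb c M t S 0) (hS : S.OK c) {s x J : ℤ} {y : ℝ} (hs : 0 ≤ s)
    (hr : S.RInv c (S.fr s) s x) (hx : S.kk x = 0) :
    |M.sgm c t S (S.fr s) x J y - M.sigF t S s x J| ≤ 16 * Real.exp (-((y + c.bl) / 4)) := by
  obtain ⟨k1, k2, -⟩ := h.b5.chK
  have hsx := hr.le
  have w0 : 0 < |S.fr s x| := abs_pos.2 hr.ne
  set F : ℤ → ℝ := fun i => (-1) ^ (x - i).toNat * S.Pb i x * (S.fr s i / S.fr s x) * M.gt t S i
    with hF
  obtain e : M.sgm c t S (S.fr s) x J y - M.sigF t S s x J =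
      ∑ i ∈ Ico (S.st c x y) x, F i - ∑ i ∈ Ico s x, F i := by
    unfold Mdl.sgm Mdl.hist Mdl.sigF; ring
  rw [e]
  rcases le_or_gt (S.st c x y) s with h1 | h1
  · rw [← Ico_union_Ico_eq_Ico h1 hsx, sum_union (Ico_disjoint_Ico_consecutive _ _ _),
      sum_eq_zero fun i hi => by simp [hF, S.fr_lt (mem_Ico.1 hi).2]]
    simp only [zero_add, sub_self, abs_zero]
    positivity
  obtain h2 : S.st c x y = x - S.Nw c x y := by
    unfold Sq.st at h1 ⊢
    rcases le_total 0 (x - S.Nw c x y) with a | a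
    · exact max_eq_right a
    · rw [max_eq_left a] at h1; omega
  obtain h3 : S.st c x y ≤ x := by rw [h2]; omega
  obtain h4 : y ≤ S.chi c (S.st c x y) x := h2 ▸ (S.Nw_spec c (by linarith only [k1]) k2 x y).1
  rw [← Ico_union_Ico_eq_Ico h1.le h3, sum_union (Ico_disjoint_Ico_consecutive _ _ _),
    sub_add_cancel_right, abs_neg]
  refine (abs_sum_le_sum_abs _ _).trans ?_
  obtain key : ∀ i ∈ Ico s (S.st c x y), |F i| ≤
      4 * Real.exp (-((y + c.bl) / 4)) * Real.exp (-(((x - i : ℤ) : ℝ) / 4)) := by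
    intro i hi
    obtain ⟨i1, i2⟩ := mem_Ico.1 hi
    obtain ⟨p1, p2⟩ := hS.Pb_le (θ := 2 / 100) (by norm_num) (i := i) (j := x) (by omega)
    obtain g := gt_le h hM ht ho (i := i) (by omega)
    obtain a1 := S.chi_mono c (by linarith only [k1]) k2 (i := S.st c x y) (j := x) i2.le le_rfl
    obtain a2 := chi_fold h (i := i) (by omega) hx
    obtain a3 := S.chi_ge c k2 (i := i) (j := x) (by omega)
    obtain a4 : (0 : ℝ) ≤ ((x - i : ℤ) : ℝ) := by exact_mod_cast (by omega : 0 ≤ x - i)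
    have a5 := h.b5.a
    obtain a6 : 0 ≤ S.chi c i x := S.chi_nonneg c (by linarith only [k1, a5]) k2 _ _
    obtain a7 : Real.exp (-(1 - c.a) * S.chi c i x) ≤
        Real.exp (-((y + c.bl) / 4)) * Real.exp (-(((x - i : ℤ) : ℝ) / 4)) := by
      rw [← Real.exp_add]; exact Real.exp_le_exp.2 (by nlinarith only [k1, k2, h4, a1, a2, a3, a5, a4])
    obtain b1 : S.Pb i x * |S.fr s i| ≤ 2 * (Real.exp (-((y + c.bl) / 4)) *
        Real.exp (-(((x - i : ℤ) : ℝ) / 4))) * |S.fr s x| :=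
      (mul_le_mul p2 (S.abs_le_wh c _ (by omega)) (abs_nonneg _) (p1.le.trans p2)).trans
        ((hr.i2 i i1 (by omega)).1.trans (mul_le_mul_of_nonneg_right
          (mul_le_mul (ff_le S _ _) a7 (Real.exp_pos _).le (by norm_num)) w0.le))
    obtain b2 : |F i| = S.Pb i x * |S.fr s i| / |S.fr s x| * |M.gt t S i| := by
      simp only [hF, abs_mul, abs_pow, abs_neg, abs_one, one_pow, one_mul, abs_div, abs_of_pos p1]
      ring
    rw [b2]
    rw [← div_le_iff₀ w0] at b1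
    refine (mul_le_mul b1 g (abs_nonneg _) (by positivity)).trans_eq (by ring)
  refine (sum_le_sum key).trans ?_
  rw [← mul_sum]
  have := (sum_le_sum_of_subset_of_nonneg (Ico_subset_Ico_right h3) fun i _ _ =>
    (Real.exp_pos (-(((x - i : ℤ) : ℝ) / 4))).le).trans (BINVd.geo s hsx)
  nlinarith only [this, Real.exp_pos (-((y + c.bl) / 4))]

/-- what the true orbit provides at a heavy fold `x` with release time `p` -/
structure Core7 (K : ℕ) (c : Cs) (M : Mdl) (t : ℝ) (S : Sq) (n x p q : ℤ) (r Ω : ℝ) : Prop where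
  nx : n < x
  xq : x < q
  qp : q ≤ p
  rx : S.RInv c (S.fr (n + 1)) (n + 1) x
  rq : S.RInv c (S.fr (x + 1)) (x + 1) q
  rp : S.RInv c (S.fr (x + 1)) (x + 1) p
  bp : ∃ Ls, S.BInv c x Ls p
  rho : |S.rho (S.fr (n + 1)) x p| = c.L * Real.exp (-r)
  Ap : |S.rho (S.fr (n + 1)) x p| ^ 2 * S.AA c (S.fr (x + 1)) (x + 1) p ≤ c.L
  Alo : |S.fr (n + 1) x| * Real.exp r ≤ Real.exp (S.Wp c n p)
  Wq : S.Wp c x q ≤ Ω
  lo : 49 / 100 * EE K (S.Wp c x q) ≤ |M.sigF t S (n + 1) x q|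
  tail : ∀ j, q < j → j ≤ p → ∑ i ∈ Ico q j, |S.fr (i + 1) j| ≤
    EE K (S.Wp c x q) / 10 ^ 4 * S.wp c x j
  head : ∀ j, x < j → j ≤ q → ∑ i ∈ Ico (x + 1) j, |S.fr (i + 1) j| ≤ Real.exp (2 * Ω) * S.wp c x j

theorem core (h : Nm K c) (hK1 : 1 ≤ K) (hB : B1_s c) (hK : BLK_s c) (hH : RHO_s c) {M : Mdl}
    (hM : M.OK c) {t : ℝ} (ht : TI t) {S : Sq} (ho : IsOrb c M t S 0) (hS : S.OK c) {n x p : ℤ}
    {r Ω : ℝ} {P L2} (hn : 0 ≤ n)
    (hR : S.Run c (Ex2 K c M) (S.fr (n + 1)) (n + 1) P ((x, r) :: L2) p)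
    (hΩ : 2 * (c.C7 K * S.load c x (2 * r)) + 2 * c.lam ≤ Ω) (hr : 3 * Ω ≤ r) :
    ∃ q, Core7 K c M t S n x p q r Ω := by
  obtain ⟨k1, k2, -⟩ := h.b5.chK
  have lm := h.lam
  have L0 := h.L0
  have hbl := h.bl
  obtain ⟨ε0, ε1, -⟩ := h.ε
  obtain ⟨c0, c1⟩ := h.cc
  obtain lmono := fun {V V' : ℝ} (hV : V ≤ V') =>
    S.load_mono c (by linarith only [k1, ε0, ε1]) k2 (by linarith only [ε0, ε1, h.C0]) x hV
  set l := S.load c x (2 * r) with hl
  have l0 : 0 ≤ l := S.load_nonneg c _ _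
  obtain ⟨-, b2, b3⟩ := C7l h hK1 l0
  have st := B5.st_fr (c := c) S hn
  obtain ⟨hc, -⟩ := (hB _ S hS).1 _ _ _ _ _ st hR
  obtain ⟨h1, -, hxp, hdep⟩ := hR.tail c S
  have rx := ((hB _ S hS).1 _ _ _ _ _ st h1).2
  have hnx := rx.le
  have ho' := B5.out_of h.b5 hn rx
  obtain hρ : S.rho (S.fr (n + 1)) x p ≠ 0 := fun e => by
    rw [Sq.dep, e, abs_zero, div_zero, Real.log_zero] at hdep; linarith only [hr, lm, ε0, ε1, hΩ, b2, b3, hdep]
  have ρ0 := abs_pos.2 hρ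
  obtain eρ : |S.rho (S.fr (n + 1)) x p| = c.L * Real.exp (-r) := by
    rw [hdep, Sq.dep, Real.exp_neg, Real.exp_log (div_pos L0 ρ0)]; field_simp
  obtain eρ' : |S.rho (S.fr (n + 1)) x p| = Real.exp (c.lam - r) := by
    rw [eρ, sub_eq_add_neg, Real.exp_add, h.expl]
  obtain cb1 : c.cb ≤ 1 := by
    unfold Cs.cb; rw [div_le_one (by positivity)]; exact one_le_pow₀ (by linarith only [lm, ε0, ε1])
  obtain cw1 : Real.exp (-c.lam) ≤ c.cw := by
    obtain a := Real.pow_div_factorial_le_exp (x := c.lam) (by linarith only [lm, ε0, ε1]) 5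
    norm_num [Nat.factorial] at a
    unfold Cs.cw
    rw [Real.exp_neg, ← one_div]
    refine one_div_le_one_div_of_le (by positivity) (le_trans ?_ a)
    rw [le_div_iff₀ (by norm_num), pow_succ c.lam 4]
    exact mul_le_mul_of_nonneg_left (by linarith only [lm, ε0, ε1]) (by positivity)
  obtain cwb : c.cw ≤ c.cb := by
    unfold Cs.cw Cs.cb
    exact one_div_le_one_div_of_le (by positivity) (pow_le_pow_right₀ (by linarith only [lm, ε0, ε1]) (by norm_num))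
  obtain hstep : S.Step c (Ex2 K c M) (S.fr (n + 1)) (n + 1) x r p := by
    cases hc with
    | cons _ hs _ => exact hs
  obtain ⟨Ls, rs, hR', hP', hrel⟩ : ∃ Ls rs,
      S.Run c (Ex2 K c M) (S.fr (x + 1)) (x + 1) (S.PBd c (Ex2 K c M) (S.fr (n + 1)) x) Ls p ∧
      S.PBd c (Ex2 K c M) (S.fr (n + 1)) x Ls p rs ∧ c.cw * c.L ≤
        S.rho (S.fr (n + 1)) x p ^ 2 * Real.exp (S.Wt c (S.fr (x + 1)) (x + 1) p rs) := by
    cases hR with
    | shallow _ hs _ =>
      exfalso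
      rw [← sq_abs, eρ', ← Real.exp_nat_mul] at hs
      have a := mul_le_mul_of_nonneg_right (cw1.trans cwb) L0.le
      rw [← h.expl, ← Real.exp_add] at a
      have := Real.exp_le_exp.1 (a.trans (h.expl ▸ hs))
      push_cast at this
      linarith only [lm, ε0, ε1, hr, hΩ, b2, b3, this]
    | block _ a b d _ => exact ⟨_, _, a, b, d⟩
  have rp := ((hB _ S hS).1 _ _ _ _ _ (B5.st_fr S ho'.1) hR').2
  have bp := (hB _ S hS).2.1 _ _ _ _ _ ho' hR' hP'.1
  set V := S.Wt c (S.fr (x + 1)) (x + 1) p rs with hV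
  obtain V1 : V ≤ 2 * r := by
    have a : _ ≤ _ := hP'.1
    rw [← sq_abs, eρ', ← Real.exp_nat_mul, ← Real.exp_add] at a
    have b := a.trans (mul_le_of_le_one_left L0.le cb1)
    rw [← h.expl] at b
    have := Real.exp_le_exp.1 b
    push_cast at this
    linarith only [lm, ε0, ε1, this]
  obtain V2 : 2 * r - 2 * c.lam ≤ V := by
    rw [← sq_abs, eρ', ← Real.exp_nat_mul, ← Real.exp_add] at hrel
    have a := mul_le_mul_of_nonneg_right cw1 L0.le
    rw [← h.expl, ← Real.exp_add] at a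
    have := Real.exp_le_exp.1 (a.trans (h.expl ▸ hrel))
    push_cast at this
    linarith only [this]
  have Wp1 : S.Wp c x p ≤ V := le_max_left _ _
  have W0 : 0 ≤ S.Wp c x p := B5.WW_nonneg S _ _ _
  obtain Wp2 : c.C7 K * l ≤ S.Wp c x p := by
    obtain ⟨z, z0, z1, z2, -, z4⟩ := sizes h hB hS ho' ⟨hR', hP'⟩ (lmono V1)
    have := mul_le_mul_of_nonneg_right ε1 W0
    linarith only [hr, lm, ε0, ε1, c1, hΩ, b2, V2, W0, z1, z2, z4, this]
  obtain ⟨q, q1, q2, q3, q4, q5, q6⟩ := pick h hK1 hB hK hS ho' Ls p rs hR' hP'.1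
    (lmono (Wp1.trans V1)) Wp2
  obtain ⟨L1, r1, hq, hq'⟩ : ∃ L1 r1, S.BRun c (Ex2 K c M) (S.fr (n + 1)) x L1 q r1 ∧
      S.Wt c (S.fr (x + 1)) (x + 1) q r1 ≤ 2 * r := by
    rcases q5 with rfl | ⟨L1, r1, a, b⟩
    · exact ⟨_, _, ⟨hR', hP'⟩, V1⟩
    · exact ⟨_, _, a, b.trans (Wp1.trans V1)⟩
  have rq := ((hB _ S hS).1 _ _ _ _ _ (B5.st_fr S ho'.1) hq.1).2
  have bq := (hB _ S hS).2.1 _ _ _ _ _ ho' hq.1 hq.2.1
  set W := S.Wp c x q with hW
  have W1 : 0 ≤ W := B5.WW_nonneg S _ _ _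
  have W2 : W ≤ S.Wt c (S.fr (x + 1)) (x + 1) q r1 := le_max_left _ _
  obtain kx : S.kk x = 0 := S.kk_eq_zero.2 (Or.inl (by linarith only [ε0, ε1, bp.kz.2.1]))
  obtain half : ∀ z : ℝ, z ≤ -2 * W - 1 → Real.exp z ≤ Real.exp (-2 * W) / 2 := fun z hz => by
    have a := Real.exp_le_exp.2 hz
    rw [sub_eq_add_neg, Real.exp_add, Real.exp_neg] at a
    obtain b : (Real.exp 1)⁻¹ ≤ 1 / 2 := by
      rw [inv_le_comm₀ (Real.exp_pos _) (by norm_num)]; linarith only [Real.add_one_le_exp (1 : ℝ)]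
    nlinarith only [a, ε0, ε1, b, Real.exp_pos (-2 * W)]
  obtain ρq : |S.rho (S.fr (n + 1)) x q| ≤ Real.exp (-2 * W) := by
    have a := (hH S _ x Ls p hS ho' rp bp).2 q q1 q2 rq.whm
    have a1 := hq.2.2.c2
    obtain a2 : c.bl ≤ S.chi c x q := by
      obtain this := S.chi_mono c (by linarith only [k1, ε0, ε1]) k2 (i := x) (j := x + 1) (i' := x) (j' := q) le_rfl (by (clear * - q1; omega))
      rw [S.chi_succ, Sq.ch1, bp.kz.1] at this; linarith only [this]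
    obtain a3 := mul_le_mul h.M1 W2 W1 (by linarith only [ε0, ε1, h.M1])
    have a4 := h.b5.a
    obtain a5 := half (-(1 - 2 * c.a) * S.chi c x q) (by nlinarith only [lm, hbl, ε1, a1, a2, a3, a4, k1, k2, ε0])
    obtain a6 := half (c.lam - r) (by linarith only [hr, lm, ε0, ε1, hΩ, b2, b3, q4])
    have a7 := abs_sub_abs_le_abs_sub (S.rho (S.fr (n + 1)) x q) (S.rho (S.fr (n + 1)) x p)
    linarith only [eρ', a, a5, a6, a7]
  obtain C70 : 0 ≤ c.C7 K := by have := h.b5.C1; unfold Cs.C7; (clear * - hK1 this; positivity)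
  have c5 := hq.2.2.ex.2 t ht ho ((mul_le_mul_of_nonneg_left (lmono hq') C70).trans q3) ρq
  obtain hi := hist h hM ht ho hS (J := q) (y := c.C0 * S.Wt c (S.fr (x + 1)) (x + 1) q r1)
    (by omega) rx kx
  have E0 : 0 < EE K W := Real.exp_pos _
  refine ⟨q, by omega, q1, q2, rx, rq, rp, ⟨_, bp⟩, eρ, ?_, ?_, by linarith only [hΩ, q4], ?_, fun j j1 j2 => ?_,
    fun j j1 j2 => ?_⟩
  · have a : _ ≤ _ := hP'.1
    have A1 := S.one_le_AA c (S.fr (x + 1)) (x + 1) p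
    obtain b : S.AA c (S.fr (x + 1)) (x + 1) p ≤ Real.exp V := by
      rw [← Real.log_le_iff_le_exp (by linarith only [ε0, ε1, A1])]; exact Wp1
    rw [sq_abs]
    exact ((mul_le_mul_of_nonneg_left b (sq_nonneg _)).trans a).trans
      (mul_le_of_le_one_left L0.le cb1)
  · rw [← Real.exp_log (abs_pos.2 rx.ne), ← Real.exp_add]
    exact Real.exp_le_exp.2 hstep.A_lo
  · obtain a1 := mul_le_mul h.C0 W2 W1 (by linarith only [ε0, ε1, h.C0])
    obtain a2 : Real.exp (-((c.C0 * S.Wt c (S.fr (x + 1)) (x + 1) q r1 + c.bl) / 4)) ≤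
        EE K W * Real.exp (-1600) := by
      rw [EE, ← Real.exp_add]
      obtain this : 0 ≤ 1 / (2 * (K : ℝ)) * W := by (clear * - hK1 W1; positivity)
      exact Real.exp_le_exp.2 (by linarith only [lm, hbl, ε0, ε1, b2, b3, q3, a1, this])
    obtain a3 : Real.exp (-1600) ≤ 1 / 1600 := by
      rw [Real.exp_neg, inv_le_comm₀ (Real.exp_pos _) (by norm_num)]
      linarith only [ε0, ε1, Real.add_one_le_exp (1600 : ℝ)]
    have a4 := mul_le_mul_of_nonneg_left a3 E0.le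
    have a5 := abs_sub_abs_le_abs_sub
      (M.sgm c t S (S.fr (n + 1)) x q (c.C0 * S.Wt c (S.fr (x + 1)) (x + 1) q r1))
      (M.sigF t S (n + 1) x q)
    have a6 : EE K W / 2 ≤ _ := c5
    linarith only [hi, a2, a4, a5, a6]
  · refine (q6 j j1 j2).trans (mul_le_mul_of_nonneg_right (mul_le_of_le_one_right (by (clear * - E0; positivity)) ?_)
      (S.wh_nonneg c _ _ _))
    obtain this : (0 : ℝ) < (1 / 2) ^ Ls.length := by positivity
    linarith only [this]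
  · refine (bq.i8n j j1 j2).trans (mul_le_mul_of_nonneg_right ?_ (S.wh_nonneg c _ _ _))
    have a1 := bq.len
    rw [le_div_iff₀ (by linarith only [lm, ε0, ε1])] at a1
    have a0 : (0 : ℝ) ≤ L1.length := Nat.cast_nonneg _
    obtain a2 : (L1.length : ℝ) ≤ Real.exp (Ω / 2) := by
      have := Real.add_one_le_exp (Ω / 2)
      have := mul_le_mul_of_nonneg_left lm a0
      rcases le_total (L1.length : ℝ) 20 with b | b
      · (rename_i zq0; linarith only [lm, ε0, ε1, hΩ, b2, b3, q4, a1, zq0, this])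
      · obtain this := mul_le_mul_of_nonneg_right b (show 0 ≤ c.lam by linarith only [lm, ε0, ε1])
        (rename_i zq1 zq0; linarith only [lm, ε0, ε1, hΩ, b2, b3, q4, a1, zq1, zq0])
    obtain a3 := mul_le_mul_of_nonneg_left (lmono (W2.trans hq')) (show 0 ≤ c.C1 by linarith only [ε0, ε1, h.b5.C1])
    obtain e : Real.exp (2 * Ω) = Real.exp (Ω / 2) * Real.exp (3 / 2 * Ω) := by
      rw [← Real.exp_add]; congr 1; ring
    rw [e]
    exact mul_le_mul a2 (Real.exp_le_exp.2 (by linarith only [lm, ε0, ε1, hΩ, b2, b3, q4, a3])) (Real.exp_pos _).le (Real.exp_pos _).le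

end D7
end Pool.Agent.MP_9cbfe4_an

end
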