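import Pool.Agent.MP_9cbfe4_an.M02
import Pool.Agent.MP_9cbfe4_an.M05

set_option linter.all false

attribute [-instance] AddQuantale.instAddLeftMono IdemSemiring.toCanonicallyOrderedAdd
  NumberField.to_charZero AddQuantale.instAddRightMono IdemSemiring.toMulLeftMono RKHS.instFunLike
  Quantale.instMulRightMono Quantale.instMulLeftMono IsOrderedCancelMonoid.toIsOrderedMonoid
  LinearOrderedCommMonoidWithZero.toPosMulStrictMono
  Group.IsPerfect.subsingleton_of_isMulCommutative CanonicallyOrderedAdd.toMulLeftMono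
  Valued.toUniformSpace IdemSemiring.toMulRightMono TotallySeparatedSpace.t2Space
  LinearOrderedCommMonoidWithZero.toIsOrderedMonoid IsScalarTower.complexToReal
  Order.Coframe.toCompleteLattice OmegaCompletePartialOrder.toPartialOrder Invertible.toNeZero
  GrpTypeEquivalenceGrp.grpGroup littleWedderburn CanonicallyOrderedMul.toMulLeftMono
  CoalgHomClass.toSemilinearMapClass TestFunctionClass.toDFunLike
  ContDiffMapSupportedInClass.toDFunLike Order.Frame.toCompleteLattice RightPreLieAlgebra.toModule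
  CategoryTheory.Limits.Concrete.instUniqueToTypeTerminal LeftPreLieAlgebra.toModule
  CStarAlgebra.instOrderClosedTopology IdemSemiring.toSemiring
  LieAdmissibleRing.toNonUnitalNonAssocRing NonUnitalAlgSemiHomClass.toDistribMulActionSemiHomClass
  CStarAlgebra.toNormedRing

/-! ### Part COV -/

section

/-! Row COV: covering along core itineraries. -/

namespace Pool.Agent.MP_9cbfe4_an

open Filter Topology Set

namespace COV
open SOK

variable {c : Cs} {M : Mdl} {t : ℝ}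

theorem box_uIcc {a b ξ : ℝ} (ha : Box c a) (hb : Box c b) (h : ξ ∈ uIcc a b) : Box c ξ := by
  unfold Box at *
  rw [abs_le] at *
  rcases mem_uIcc.1 h with h | h <;> constructor <;> linarith only [h.1, h.2, ha.1, ha.2, hb.1, hb.2]

theorem mvt {f f' : ℝ → ℝ} {a b : ℝ} (h : ∀ x ∈ uIcc a b, HasDerivAt f (f' x) x) :
    ∃ ξ ∈ uIcc a b, f b - f a = f' ξ * (b - a) := by
  rcases lt_trichotomy a b with hab | rfl | hab
  · rw [uIcc_of_le hab.le] at h ⊢
    obtain ⟨ξ, h1, h2⟩ := exists_hasDerivAt_eq_slope f f' hab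
      (fun x hx => (h x hx).continuousAt.continuousWithinAt) fun x hx => h x (Ioo_subset_Icc_self hx)
    exact ⟨ξ, Ioo_subset_Icc_self h1, by rw [h2, div_mul_cancel₀ _ (sub_pos.2 hab).ne']⟩
  · exact ⟨a, left_mem_uIcc, by simp⟩
  · rw [uIcc_of_ge hab.le] at h ⊢
    obtain ⟨ξ, h1, h2⟩ := exists_hasDerivAt_eq_slope f f' hab
      (fun x hx => (h x hx).continuousAt.continuousWithinAt) fun x hx => h x (Ioo_subset_Icc_self hx)
    refine ⟨ξ, Ioo_subset_Icc_self h1, ?_⟩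
    have := div_mul_cancel₀ (f a - f b) (sub_pos.2 hab).ne'
    rw [← h2] at this
    linarith only [this]

theorem derx (hM : M.OK c) (ht : TI t) {x y : ℝ} (hx : Box c x) (hy : Box c y) :
    HasDerivAt (fun x => M.G t x y) (M.Ga t x y) x := by
  have h := (hM.der t x y ht hx hy).comp_hasDerivAt x
    ((hasDerivAt_id x).prodMk (hasDerivAt_const x y))
  simpa [Function.comp_def] using h

theorem dery (hM : M.OK c) (ht : TI t) {x y : ℝ} (hx : Box c x) (hy : Box c y) :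
    HasDerivAt (fun y => M.G t x y) (M.Gb t x y) y := by
  have h := (hM.der t x y ht hx hy).comp_hasDerivAt y
    ((hasDerivAt_const y x).prodMk (hasDerivAt_id y))
  simpa [Function.comp_def] using h

/-- exact difference formula with averaged coefficients -/
theorem diff (h : Big c) (hM : M.OK c) (ht : TI t) {x y x' y' : ℝ} (hx : Box c x) (hy : Box c y)
    (hx' : Box c x') (hy' : Box c y') : ∃ ξ ∈ uIcc x x', ∃ A B : ℝ,
      |A + c.L * Real.sin ξ| ≤ c.L / 20 ∧ 0 ≤ B ∧ B ≤ c.L / 2 + 1 ∧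
      M.G t x' y' - M.G t x y = A * (x' - x) + B * (y' - y) := by
  obtain ⟨ξ, h1, h2⟩ := mvt (f := fun x => M.G t x y') (a := x) (b := x')
    fun z hz => derx hM ht (box_uIcc hx hx' hz) hy'
  obtain ⟨η, h3, h4⟩ := mvt (f := fun y => M.G t x y) (a := y) (b := y')
    fun z hz => dery hM ht hx (box_uIcc hy hy' hz)
  have bη := box_uIcc hy hy' h3
  refine ⟨ξ, h1, _, _, (hM.a_all t ξ y' ht (box_uIcc hx hx' h1) hy').trans h.l5',
    le_trans (by positivity) (hM.b_lo t x η ht hx bη), (hM.b_hi t x η ht hx bη).trans ?_, ?_⟩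
  · have := mul_le_mul_of_nonneg_right h.k_hi.le h.L_pos.le
    linarith only [this]
  · linarith only [h2, h4]

theorem lipG (h : Big c) (hM : M.OK c) (ht : TI t) {x y x' y' D : ℝ} (hx : Box c x) (hy : Box c y)
    (hx' : Box c x') (hy' : Box c y') (h1 : |x' - x| ≤ D) (h2 : |y' - y| ≤ D) :
    |M.G t x' y' - M.G t x y| ≤ 2 * c.L * D := by
  obtain ⟨ξ, -, A, B, a1, a2, a3, e⟩ := diff h hM ht hx hy hx' hy'
  have hL := h.L
  have hD : 0 ≤ D := (abs_nonneg _).trans h1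
  obtain a4 : |A| ≤ 21 / 20 * c.L := by
    have b1 := abs_sub (A + c.L * Real.sin ξ) (c.L * Real.sin ξ)
    rw [add_sub_cancel_right, abs_mul, abs_of_pos h.L_pos] at b1
    have := mul_le_mul_of_nonneg_left (Real.abs_sin_le_one ξ) h.L_pos.le
    linarith only [a1, b1, this]
  calc _ ≤ |A * (x' - x)| + |B * (y' - y)| := by rw [e]; exact abs_add_le _ _
    _ = |A| * |x' - x| + B * |y' - y| := by rw [abs_mul, abs_mul, abs_of_nonneg a2]
    _ ≤ 21 / 20 * c.L * D + (c.L / 2 + 1) * D := by (clear * - a4 h1 hL a3 h2; gcongr)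
    _ ≤ _ := by nlinarith only [a2, hD, a3, hL]

theorem sin_near {z δ : ℝ} (hz : Real.cos z = 0) (hδ : |δ| ≤ 1 / 2) :
    7 / 8 ≤ |Real.sin (z + δ)| := by
  obtain h1 : |Real.sin z| = 1 := by
    have q := Real.sin_sq_add_cos_sq z
    rw [hz, ← sq_abs] at q
    have := abs_nonneg (Real.sin z)
    nlinarith only [q, this]
  rw [Real.sin_add, hz, zero_mul, add_zero, abs_mul, h1, one_mul]
  have h2 := Real.one_sub_sq_div_two_le_cos (x := δ)
  obtain h3 : δ ^ 2 ≤ (1 / 2) ^ 2 := by rw [← sq_abs]; exact pow_le_pow_left₀ (abs_nonneg _) hδ 2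
  exact le_trans (by linarith only [h2, h3]) (le_abs_self _)

/-- expansion near a zero of the cosine -/
theorem expG (h : Big c) (hM : M.OK c) (ht : TI t) {z x y x' y' : ℝ} (hz : Real.cos z = 0)
    (hx : Box c x) (hy : Box c y) (hx' : Box c x') (hy' : Box c y') (h1 : |x - z| ≤ 1 / 2)
    (h2 : |x' - z| ≤ 1 / 2) :
    4 / 5 * c.L * |x' - x| ≤ |M.G t x' y' - M.G t x y| + (c.L / 2 + 1) * |y' - y| := by
  obtain ⟨ξ, hξ, A, B, a1, a2, a3, e⟩ := diff h hM ht hx hy hx' hy'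
  have hL := h.L
  obtain b0 : |ξ - z| ≤ 1 / 2 := by
    rw [abs_le] at *
    rcases mem_uIcc.1 hξ with q | q <;> constructor <;> linarith only [q.1, q.2, h1.1, h1.2, h2.1, h2.2]
  have b1 := sin_near hz b0
  rw [add_sub_cancel] at b1
  obtain a4 : 4 / 5 * c.L ≤ |A| := by
    have b2 := abs_sub (A + c.L * Real.sin ξ) A
    rw [add_sub_cancel_left, abs_mul, abs_of_pos h.L_pos] at b2
    have := mul_le_mul_of_nonneg_left b1 h.L_pos.le
    linarith only [a1, hL, b2, this]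
  have b3 := abs_sub (M.G t x' y' - M.G t x y) (B * (y' - y))
  rw [show M.G t x' y' - M.G t x y - B * (y' - y) = A * (x' - x) by linarith only [e], abs_mul, abs_mul,
    abs_of_nonneg a2] at b3
  have b4 := mul_le_mul_of_nonneg_right a4 (abs_nonneg (x' - x))
  have b5 := mul_le_mul_of_nonneg_right a3 (abs_nonneg (y' - y))
  linarith only [b3, b4, b5]

/-- an inverse branch over `[-2, 2]` -/
theorem branch (h : Big c) (hM : M.OK c) (ht : TI t) {z r : ℝ} (hz : Real.cos z = 0) (hr : 0 ≤ r)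
    (hr' : r ≤ 1 / 2) (hb : (1 - c.e0) * c.w0 * c.L + 4 ≤ c.L * Real.sin r) {y : ℝ → ℝ}
    (hbox : ∀ x, |x - z| ≤ r → Box c x ∧ Box c (y x))
    (hlip : ∀ x x', |x - z| ≤ r → |x' - z| ≤ r → |y x' - y x| ≤ |x' - x|) :
    ∃ k : ℝ → ℝ, ∀ w ∈ Icc (-2 : ℝ) 2, |k w - z| ≤ r ∧ M.G t (k w) (y (k w)) = w ∧
      ∀ w' ∈ Icc (-2 : ℝ) 2, |k w' - k w| ≤ |w' - w| := by
  have hL := h.L
  obtain hJ : ∀ x ∈ uIcc (z - r) (z + r), |x - z| ≤ r := fun x hx => by
    rw [uIcc_of_le (by linarith only [hr])] at hx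
    rw [abs_le]; constructor <;> linarith only [hx.1, hx.2]
  obtain hc : ContinuousOn (fun x => M.G t x (y x)) (uIcc (z - r) (z + r)) := by
    refine (LipschitzOnWith.of_dist_le' (K := 2 * c.L) fun x hx x' hx' => ?_).continuousOn
    rw [Real.dist_eq, Real.dist_eq]
    exact lipG h hM ht (hbox _ (hJ _ hx')).1 (hbox _ (hJ _ hx')).2 (hbox _ (hJ _ hx)).1
      (hbox _ (hJ _ hx)).2 le_rfl (hlip _ _ (hJ _ hx') (hJ _ hx))
  have e1 : |z - r - z| ≤ r := hJ _ left_mem_uIcc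
  have e2 : |z + r - z| ≤ r := hJ _ right_mem_uIcc
  have v1 := abs_le.1 (hM.val t _ _ ht (hbox _ e1).1 (hbox _ e1).2)
  have v2 := abs_le.1 (hM.val t _ _ ht (hbox _ e2).1 (hbox _ e2).2)
  rw [Real.cos_sub, hz, zero_mul, zero_add] at v1
  rw [Real.cos_add, hz, zero_mul, zero_sub] at v2
  obtain hs : Real.sin z = 1 ∨ Real.sin z = -1 := by
    have q := Real.sin_sq_add_cos_sq z
    rw [hz] at q
    exact sq_eq_one_iff.1 (by simpa using q)
  obtain hsub : ∀ w ∈ Icc (-2 : ℝ) 2, ∃ x, |x - z| ≤ r ∧ M.G t x (y x) = w := fun w hw => by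
    obtain this : w ∈ uIcc (M.G t (z - r) (y (z - r))) (M.G t (z + r) (y (z + r))) := by
      rw [mem_uIcc]
      rcases hs with q | q <;> rw [q] at v1 v2
      · right; constructor <;> linarith only [hb, v1.1, v2.2, hw.1, hw.2, ht.1, ht.2]
      · left; constructor <;> linarith only [hb, v1.2, v2.1, hw.1, hw.2, ht.1, ht.2]
    obtain ⟨x, hx, e⟩ := intermediate_value_uIcc hc this
    exact ⟨x, hJ x hx, e⟩
  choose! k hk using hsub
  refine ⟨k, fun w hw => ⟨(hk w hw).1, (hk w hw).2, fun w' hw' => ?_⟩⟩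
  have a := expG h hM ht hz (hbox _ (hk w hw).1).1 (hbox _ (hk w hw).1).2 (hbox _ (hk w' hw').1).1
    (hbox _ (hk w' hw').1).2 ((hk w hw).1.trans hr') ((hk w' hw').1.trans hr')
  rw [(hk w hw).2, (hk w' hw').2] at a
  obtain b := mul_le_mul_of_nonneg_left (hlip _ _ (hk w hw).1 (hk w' hw').1)
    (by linarith only [hL] : 0 ≤ c.L / 2 + 1)
  have := abs_nonneg (k w' - k w)
  nlinarith only [a, b, this, hL]

theorem contLip {k : ℝ → ℝ} {I : Set ℝ} (h : ∀ w ∈ I, ∀ w' ∈ I, |k w' - k w| ≤ |w' - w|) :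
    ContinuousOn k I :=
  (LipschitzOnWith.of_dist_le' (K := 1) fun x hx x' hx' => by
    rw [Real.dist_eq, Real.dist_eq, one_mul]; exact h _ hx' _ hx).continuousOn

/-- centre of the core with sign `b` -/
noncomputable def ctr (b : Bool) : ℝ := if b then Real.pi / 2 else -(Real.pi / 2)

theorem cos_ctr (b : Bool) : Real.cos (ctr b) = 0 := by cases b <;> simp [ctr]

theorem rad (h : Big c) : 0 ≤ (1 - c.e0 / 2) * c.w0 ∧ (1 - c.e0 / 2) * c.w0 ≤ 1 / 256 := by
  have := h.e0_pos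
  have := h.e0_lt
  have := h.w0_pos
  have := h.w0_le
  constructor <;> (rename_i zq2 zq1 zq0; nlinarith only [zq0, zq1, this, zq2])

theorem core_iff (h : Big c) (b : Bool) (x : ℝ) :
    (Core c x ∧ (0 < x ↔ b = true)) ↔ |x - ctr b| ≤ (1 - c.e0 / 2) * c.w0 := by
  have hr := rad h
  have hp := Real.pi_gt_three
  unfold Core dP
  rw [min_le_iff, abs_le, abs_le, abs_le]
  cases b
  · simp only [ctr, Bool.false_eq_true, iff_false, not_lt, if_false, sub_neg_eq_add]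
    constructor
    · rintro ⟨a | a, b⟩
      · linarith only [hr, hp, b, a.1]
      · exact a
    · exact fun a => ⟨Or.inr a, by linarith only [hr, hp, a.2]⟩
  · simp only [ctr, iff_true, if_true]
    constructor
    · rintro ⟨a | a, b⟩
      · exact a
      · linarith only [hr, hp, b, a.2]
    · exact fun a => ⟨Or.inl a, by linarith only [hr, hp, a.1]⟩

theorem ctr_mem (h : Big c) (b : Bool) {x : ℝ} (hx : |x - ctr b| ≤ (1 - c.e0 / 2) * c.w0) :
    x ∈ Icc (-2 : ℝ) 2 := by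
  have hr := rad h
  have hp := Real.pi_lt_d2
  have hp' := Real.pi_pos
  rw [abs_le] at hx
  cases b <;> simp only [ctr, Bool.false_eq_true, if_false, if_true] at hx <;>
    constructor <;> linarith only [hr, hp, hp', hx.1, hx.2]

theorem rad_big (h : Big c) :
    (1 - c.e0) * c.w0 * c.L + 4 ≤ c.L * Real.sin ((1 - c.e0 / 2) * c.w0) := by
  have he := h.e0_pos
  have he' := h.e0_lt
  have hw := h.w0_pos
  have hw1 := h.w0_le
  have hw2 := h.w0_le'
  have hwL := h.w0L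
  have hL := h.L_pos
  obtain r0 : 0 < (1 - c.e0 / 2) * c.w0 := mul_pos (by linarith only [he', hw, hw2]) hw
  obtain r1 : (1 - c.e0 / 2) * c.w0 ≤ c.w0 := by nlinarith only [he, hw]
  have s1 := (Real.sin_gt_sub_cube r0).le
  have s2 : ((1 - c.e0 / 2) * c.w0) ^ 3 ≤ c.w0 ^ 3 := pow_le_pow_left₀ r0.le r1 3
  obtain s3 : c.w0 ^ 3 ≤ c.e0 * c.w0 := by
    obtain this : c.w0 ^ 2 ≤ c.e0 := by nlinarith only [hw2, he, hw, he', hw1]
    nlinarith
  obtain s4 : (1 - c.e0) * c.w0 + c.e0 * c.w0 / 4 ≤ Real.sin ((1 - c.e0 / 2) * c.w0) := by linarith only [r1, s1, s2, s3]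
  have s5 := mul_le_mul_of_nonneg_left s4 hL.le
  linarith only [he', hw, hw2, hwL, s5]

theorem cov (h : Big c) (hM : M.OK c) (ht : TI t) {Ex s x0 φ} (hA : AdmP c Ex M t s x0 φ) (N : ℕ) :
    ∀ ω : ℕ → Bool, ∃ g : ℝ → ℝ, ContinuousOn g (Icc (-2) 2) ∧ ∀ x ∈ Icc (-2 : ℝ) 2,
      (g x ∈ Icc (0 : ℝ) 100 ∧ (M.O t (φ (g x))).X (s + 1 + N) = x ∧
        Itin c (M.O t (φ (g x))) ω (s + 1 + N) N ∧ 1 / 2 ≤ |Real.sin ((M.O t (φ (g x))).X s)|) ∧
      ∀ x' ∈ Icc (-2 : ℝ) 2,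
        |(M.O t (φ (g x'))).X (s + N) - (M.O t (φ (g x))).X (s + N)| ≤ |x' - x| := by
  have hs := hA.s0
  have horb : ∀ u ∈ Icc (0 : ℝ) 100, IsOrb c M t (M.O t (φ u)) 0 := fun u hu =>
    orbO h hM ht (hA.mem u hu).1
  induction N with
  | zero =>
    intro ω
    obtain ⟨z, hz, z1, z2⟩ : ∃ z, Real.cos z = 0 ∧ x0 + 1 ≤ z ∧ z ≤ x0 + 5 := by
      have hp := Real.pi_pos
      have hp' := Real.pi_lt_four
      have a1 := Int.le_ceil ((x0 + 1 - Real.pi / 2) / Real.pi)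
      have a2 := Int.ceil_lt_add_one ((x0 + 1 - Real.pi / 2) / Real.pi)
      rw [div_le_iff₀ hp] at a1
      rw [← sub_lt_iff_lt_add, lt_div_iff₀ hp] at a2
      refine ⟨⌈(x0 + 1 - Real.pi / 2) / Real.pi⌉ * Real.pi + Real.pi / 2, ?_, by linarith only [a1],
        by linarith only [hp', a2]⟩
      rw [Real.cos_add_pi_div_two, Real.sin_int_mul_pi, neg_zero]
    obtain hu : ∀ x, |x - z| ≤ 1 / 2 → x - x0 ∈ Icc (0 : ℝ) 100 := fun x hx => by
      rw [abs_le] at hx; constructor <;> linarith only [z1, z2, hx.1, hx.2]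
    obtain hX : ∀ x, |x - z| ≤ 1 / 2 → (M.O t (φ (x - x0))).X s = x := fun x hx => by
      rw [(hA.mem _ (hu x hx)).2.1]; ring
    refine (branch h hM ht hz (r := 1 / 2) (by norm_num) le_rfl ?b1
      (y := fun x => (M.O t (φ (x - x0))).X (s - 1)) (fun x hx => ?b2)
      fun x x' hx hx' => ?b3).elim fun k hk => ?b0
    rotate_right
    · refine ⟨fun w => k w - x0, (contLip fun w hw => (hk w hw).2.2).sub continuousOn_const,
        fun w hw => ⟨⟨hu _ (hk w hw).1, ?_, fun i hi => absurd hi (Nat.not_lt_zero i), ?_⟩,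
          fun w' hw' => ?_⟩⟩
      · rw [Nat.cast_zero, add_zero, (horb _ (hu _ (hk w hw).1)).step s hs, hX _ (hk w hw).1]
        exact (hk w hw).2.1
      · rw [hX _ (hk w hw).1]
        have := sin_near hz (hk w hw).1
        rw [add_sub_cancel] at this
        linarith only [this]
      · rw [Nat.cast_zero, add_zero, hX _ (hk w hw).1, hX _ (hk w' hw').1]
        exact (hk w hw).2.2 w' hw'
    · obtain s1 := (Real.sin_gt_sub_cube (x := 1 / 2) (by norm_num)).le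
      have s2 := mul_le_mul_of_nonneg_left s1 h.L_pos.le
      have he := h.e0_pos
      have hw := h.w0_pos
      have hw1 := h.w0_le
      obtain s4 : (1 - c.e0) * c.w0 ≤ 1 / 256 := by nlinarith only [hw1, he, hw]
      have s5 := mul_le_mul_of_nonneg_right s4 h.L_pos.le
      have := h.L
      linarith only [s2, hw, hw1, s5, this]
    · refine ⟨?_, (horb _ (hu x hx)).box _ (by omega)⟩
      obtain this := (horb _ (hu x hx)).box s (by omega)
      rwa [hX x hx] at this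
    · obtain a := hA.lip _ (hu x hx) _ (hu x' hx') (s - 1) (by omega)
      rw [sub_sub_sub_cancel_right] at a
      refine a.trans (mul_le_of_le_one_left (abs_nonneg _) ?_)
      rw [Real.exp_le_one_iff]
      linarith only [h.lam]
  | succ N ih =>
    intro ω
    obtain ⟨g, gc, hg⟩ := ih fun i => ω (i + 1)
    have hm := fun x => ctr_mem h (ω 0) (x := x)
    refine (branch h hM ht (cos_ctr (ω 0)) (rad h).1 ((rad h).2.trans (by norm_num))
      (rad_big h) (y := fun x => (M.O t (φ (g x))).X (s + N)) (fun x hx => ?c2)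
      fun x x' hx hx' => (hg x (hm x hx)).2 x' (hm x' hx')).elim fun k hk => ?c0
    rotate_right
    · obtain e1 : s + 1 + ((N + 1 : ℕ) : ℤ) = s + 1 + N + 1 := by push_cast; ring
      obtain e2 : s + ((N + 1 : ℕ) : ℤ) = s + 1 + N := by push_cast; ring
      obtain e3 : s + 1 + (N : ℤ) - 1 = s + N := by ring
      refine ⟨g ∘ k, gc.comp (contLip fun w hw => (hk w hw).2.2) fun w hw => hm _ (hk w hw).1,
        fun w hw => ?_⟩
      obtain ⟨⟨g1, g2, g3, g4⟩, -⟩ := hg _ (hm _ (hk w hw).1)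
      refine ⟨⟨g1, ?_, fun i hi => ?_, g4⟩, fun w' hw' => ?_⟩
      · rw [e1, Function.comp, (horb _ g1).step _ (by omega), g2, e3]
        exact (hk w hw).2.1
      · cases i with
        | zero =>
          rw [e1, Function.comp, Nat.cast_zero, sub_zero, add_sub_cancel_right, g2]
          exact (core_iff h _ _).2 (hk w hw).1
        | succ i =>
          obtain this := g3 i (by omega)
          rwa [show s + 1 + (N : ℤ) - 1 - i = s + 1 + ((N + 1 : ℕ) : ℤ) - 1 - ((i + 1 : ℕ) : ℤ) by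
            push_cast; ring] at this
      · rw [e2, Function.comp, Function.comp, g2, (hg _ (hm _ (hk w' hw').1)).1.2.1]
        exact (hk w hw).2.2 w' hw'
    · obtain ⟨⟨g1, g2, -⟩, -⟩ := hg _ (hm _ hx)
      refine ⟨?_, (horb _ g1).box _ (by omega)⟩
      obtain this := (horb _ g1).box (s + 1 + N) (by omega)
      rwa [g2] at this

end COV

theorem cov : Hier COV_s :=
  SOK.big.mono fun _ h _ _ _ _ _ _ hM ht hA ω N =>
    (COV.cov h hM ht hA N ω).imp fun _ hg => ⟨hg.1, fun x hx => (hg.2 x hx).1⟩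

end Pool.Agent.MP_9cbfe4_an

end

/-! ### Part G5 -/

section

/-! Row G5: the horseshoe leaves lie in the support. -/

namespace Pool.Agent.MP_9cbfe4_an

open Filter Topology Set MeasureTheory

namespace G5
open SOK COV

variable {c : Cs} {M : Mdl} {t : ℝ}

/-- vertical contraction of histories with a common core itinerary -/
theorem contr (h : Big c) (hM : M.OK c) (ht : TI t) {y y' : ℕ → ℝ} {z : ℕ → ℝ} {N : ℕ}
    (hz : ∀ k, Real.cos (z k) = 0) (hb : ∀ k, Box c (y k)) (hb' : ∀ k, Box c (y' k))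
    (hs : ∀ k < N, y k = M.G t (y (k + 1)) (y (k + 2)) ∧ |y (k + 1) - z k| ≤ 1 / 2)
    (hs' : ∀ k < N, y' k = M.G t (y' (k + 1)) (y' (k + 2)) ∧ |y' (k + 1) - z k| ≤ 1 / 2) (i : ℕ) :
    ∀ k, k + i = N → |y' (k + 1) - y (k + 1)| ≤ |y' k - y k| / 10 + 4 * c.L * (3 / 4) ^ i := by
  have hL := h.L
  induction i with
  | zero =>
    intro k _
    have a := abs_sub (y' (k + 1)) (y (k + 1))
    have a1 : |y (k + 1)| ≤ 2 * c.L := hb _
    have a2 : |y' (k + 1)| ≤ 2 * c.L := hb' _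
    have := abs_nonneg (y' k - y k)
    rw [pow_zero]; linarith only [a, a1, a2, this]
  | succ i ih =>
    intro k hk
    obtain a := ih (k + 1) (by omega)
    obtain b := expG h hM ht (hz k) (hb (k + 1)) (hb (k + 2)) (hb' (k + 1)) (hb' (k + 2))
      (hs k (by omega)).2 (hs' k (by omega)).2
    rw [← (hs k (by omega)).1, ← (hs' k (by omega)).1] at b
    obtain e : 4 * c.L * (3 / 4) ^ (i + 1) = 3 / 4 * (4 * c.L * (3 / 4) ^ i) := by ring
    obtain hE : 0 ≤ 4 * c.L * (3 / 4 : ℝ) ^ i := by have := h.L_pos; positivity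
    rw [e]
    generalize 4 * c.L * (3 / 4 : ℝ) ^ i = E at *
    obtain b1 := mul_le_mul_of_nonneg_left a (by linarith only [hL] : 0 ≤ c.L / 2 + 1)
    have n0 := abs_nonneg (y' k - y k)
    have n1 := abs_nonneg (y' (k + 1) - y (k + 1))
    refine le_of_mul_le_mul_left (a := 74 / 100 * c.L) ?_ (by linarith only [hL])
    have m0 := mul_le_mul_of_nonneg_right hL n0
    have m1 := mul_le_mul_of_nonneg_right hL n1
    have m2 := mul_le_mul_of_nonneg_right hL hE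
    have e2 : |y' (k + 1 + 1) - y (k + 1 + 1)| = |y' (k + 2) - y (k + 2)| := rfl
    rw [e2] at b1
    linarith only [b, b1, n0, n1, m0, m1, m2]

theorem grow (h : Big c) (hM : M.OK c) (ht : TI t) {S S' : Sq} {s : ℤ} {D : ℝ}
    (hS : IsOrb c M t S 0) (hS' : IsOrb c M t S' 0) (hs : 0 ≤ s) (h1 : |S'.X s - S.X s| ≤ D)
    (h2 : |S'.X (s - 1) - S.X (s - 1)| ≤ D) (m : ℕ) :
    |S'.X (s + m) - S.X (s + m)| ≤ (2 * c.L) ^ m * D ∧
      |S'.X (s + m - 1) - S.X (s + m - 1)| ≤ (2 * c.L) ^ m * D := by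
  induction m with
  | zero => simpa using ⟨h1, h2⟩
  | succ m ih =>
    obtain e : s + ((m + 1 : ℕ) : ℤ) = s + m + 1 := by push_cast; ring
    obtain e2 : (2 * c.L) ^ (m + 1) * D = 2 * c.L * ((2 * c.L) ^ m * D) := by ring
    rw [e, e2, add_sub_cancel_right, hS.step _ (by omega), hS'.step _ (by omega)]
    refine ⟨lipG h hM ht (hS.box _ (by omega)) (hS.box _ (by omega)) (hS'.box _ (by omega))
      (hS'.box _ (by omega)) ih.1 ih.2, ih.1.trans ?_⟩
    exact le_mul_of_one_le_left ((abs_nonneg _).trans ih.1) (by linarith only [h.L])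

theorem lipA (h : Big c) (hM : M.OK c) (ht : TI t) {Ex s x0 φ} (hA : AdmP c Ex M t s x0 φ) (m : ℕ)
    {u u' : ℝ} (hu : u ∈ Icc (0 : ℝ) 100) (hu' : u' ∈ Icc (0 : ℝ) 100) :
    dist (M.pt t (φ u') (s + m)) (M.pt t (φ u) (s + m)) ≤ (2 * c.L) ^ m * |u' - u| := by
  obtain a := grow h hM ht (orbO h hM ht (hA.mem u hu).1) (orbO h hM ht (hA.mem u' hu').1) hA.s0
    (D := |u' - u|) (by rw [(hA.mem u hu).2.1, (hA.mem u' hu').2.1, add_sub_add_left_eq_sub])
    ((hA.lip u hu u' hu' (s - 1) (by omega)).trans (mul_le_of_le_one_left (abs_nonneg _)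
      (by rw [Real.exp_le_one_iff]; linarith only [h.lam]))) m
  rw [Prod.dist_eq, Real.dist_eq, Real.dist_eq]
  exact max_le a.1 a.2

theorem boxO (h : Big c) (hM : M.OK c) (ht : TI t) {v : ℝ} (hv : v ∈ Icc (0 : ℝ) 100) (j : ℤ) :
    Box c ((M.O t v).X j) := by
  rcases lt_or_ge j 0 with hj | hj
  · rw [past M t v hj, ← past M t v (j := -1) (by norm_num)]
    exact (orbO h hM ht hv).box _ (by norm_num)
  · exact (orbO h hM ht hv).box _ (by omega)

theorem nonempty (h : Big c) (hM : M.OK c) (ht : TI t) {Ex} (hA : AdmP c Ex M t 0 0 id)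
    (ω : ℕ → Bool) {x : ℝ} (hx : x ∈ Icc (-2 : ℝ) 2) : (Ku c M t ω x).Nonempty := by
  obtain ex : ∀ N : ℕ, ∃ Y : ℤ → ℝ, Y ∈ (univ.pi fun _ => Icc (-(2 * c.L)) (2 * c.L)) ∧ Y 0 = x ∧
      (∀ j : ℤ, -(N : ℤ) ≤ j → Y (j + 1) = M.G t (Y j) (Y (j - 1))) ∧
      ∀ k < N, |Y (-1 - (k : ℕ)) - ctr (ω k)| ≤ (1 - c.e0 / 2) * c.w0 := fun N => by
    obtain ⟨g, -, hg⟩ := COV.cov h hM ht hA N ω
    obtain ⟨⟨g1, g2, g3, -⟩, -⟩ := hg x hx
    refine ⟨fun j => (M.O t (g x)).X (j + (0 + 1 + N)), fun j _ => abs_le.1 (boxO h hM ht g1 _),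
      by simpa using g2, fun j hj => ?_, fun k hk => ?_⟩
    · obtain this := (orbO h hM ht g1).step (j + (0 + 1 + N)) (by omega)
      rwa [add_right_comm j, ← sub_add_eq_add_sub j] at this
    · have := (core_iff h _ _).1 (g3 k hk)
      rwa [show (0 : ℤ) + 1 + N - 1 - k = -1 - k + (0 + 1 + N) by ring] at this
  choose Y h1 h2 h3 h4 using ex
  obtain ⟨a, ha, σ, hσ, hl⟩ := (isCompact_univ_pi fun _ => isCompact_Icc).tendsto_subseq h1
  have hl' : ∀ j, Tendsto (fun n => Y (σ n) j) atTop (𝓝 (a j)) := tendsto_pi_nhds.1 hl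
  have hb : ∀ j, Box c (a j) := fun j => abs_le.2 (ha j trivial)
  have ev : ∀ k : ℕ, ∀ᶠ n in atTop, k < σ n := fun k => hσ.tendsto_atTop.eventually_gt_atTop k
  refine ⟨(a 0, a (-1)), a, ⟨rfl, fun j => ⟨hb j, ?_⟩⟩, ?_, fun k => (core_iff h _ _).2 ?_⟩
  · have l1 := (hM.der t _ _ ht (hb j) (hb (j - 1))).continuousAt.tendsto.comp
      ((hl' j).prodMk_nhds (hl' (j - 1)))
    refine tendsto_nhds_unique_of_eventuallyEq (hl' (j + 1)) l1 ?_
    filter_upwards [ev (-j).toNat] with n hn using h3 _ j (by omega)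
  · exact tendsto_nhds_unique (hl' 0) (by simp only [h2]; exact tendsto_const_nhds)
  · refine le_of_tendsto ((hl' _).sub_const _).abs ?_
    filter_upwards [ev k] with n hn using h4 _ k hn

theorem near (h : Big c) (hM : M.OK c) (ht : TI t) {Ex s x0 φ} (hA : AdmP c Ex M t s x0 φ)
    {ω : ℕ → Bool} {x : ℝ} (hx : x ∈ Icc (-2 : ℝ) 2) {p : P2} (hp : p ∈ Ku c M t ω x) (N : ℕ) :
    ∃ u ∈ Icc (0 : ℝ) 100, dist (M.pt t (φ u) (s + (N + 1 : ℕ))) p ≤ 4 * c.L * (3 / 4) ^ N := by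
  obtain ⟨g, -, hg⟩ := COV.cov h hM ht hA N ω
  obtain ⟨⟨g1, g2, g3, -⟩, -⟩ := hg x hx
  obtain ⟨Y, ⟨rfl, hY⟩, y0, hc⟩ := hp
  have hv := (hA.mem _ g1).1
  have hs := hA.s0
  obtain hr : (1 - c.e0 / 2) * c.w0 ≤ 1 / 2 := (rad h).2.trans (by norm_num)
  have a := contr h hM ht (y := fun k => Y (-k)) (N := N)
    (y' := fun k => (M.O t (φ (g x))).X (s + 1 + N - k)) (fun k => cos_ctr (ω k))
    (fun k => (hY _).1) (fun k => boxO h hM ht hv _) (fun k _ => ⟨?_, ?_⟩) (fun k hk => ⟨?_, ?_⟩)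
    N 0 (zero_add N)
  · refine ⟨g x, g1, ?_⟩
    simp only [Nat.cast_zero, neg_zero, sub_zero, zero_add, Nat.cast_one, g2, y0, sub_self, abs_zero,
      zero_div] at a
    rw [show s + ((N + 1 : ℕ) : ℤ) = s + 1 + N by push_cast; ring, Prod.dist_eq, Real.dist_eq,
      Real.dist_eq]
    refine max_le ?_ a
    show |(M.O t (φ (g x))).X (s + 1 + N) - Y 0| ≤ _
    rw [g2, y0, sub_self, abs_zero]
    have := h.L_pos
    positivity
  · have := (hY (-((k + 1 : ℕ) : ℤ))).2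
    rwa [show -((k + 1 : ℕ) : ℤ) + 1 = -k by push_cast; ring,
      show -((k + 1 : ℕ) : ℤ) - 1 = -((k + 2 : ℕ) : ℤ) by push_cast; ring] at this
  · have := ((core_iff h _ _).1 (hc k)).trans hr
    rwa [show -1 - (k : ℤ) = -((k + 1 : ℕ) : ℤ) by push_cast; ring] at this
  · obtain this := (orbO h hM ht hv).step (s + 1 + N - ((k + 1 : ℕ) : ℤ)) (by omega)
    rwa [show s + 1 + N - ((k + 1 : ℕ) : ℤ) + 1 = s + 1 + N - k by push_cast; ring,
      show s + 1 + N - ((k + 1 : ℕ) : ℤ) - 1 = s + 1 + N - ((k + 2 : ℕ) : ℤ) by push_cast; ring]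
      at this
  · have := ((core_iff h _ _).1 (g3 k hk)).trans hr
    rwa [show s + 1 + N - 1 - (k : ℤ) = s + 1 + N - ((k + 1 : ℕ) : ℤ) by push_cast; ring] at this

theorem supp (h : Big c) (hM : M.OK c) (ht : TI t) {Ex} {μ : Measure P2}
    (hT : ∀ s x0 φ, Adm c Ex M t s x0 φ → AdmP c Ex M t s x0 φ) (hμ : Msr c Ex M t μ)
    {ω : ℕ → Bool} {x : ℝ} (hx : x ∈ Icc (-2 : ℝ) 2) {p : P2} (hp : p ∈ Ku c M t ω x) :
    p ∈ μ.support := by
  rw [Measure.mem_support_iff_forall]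
  intro U hU
  obtain ⟨ε2, hε2, hball⟩ := Metric.mem_nhds_iff.1 hU
  obtain ⟨ε, hε, rfl⟩ : ∃ ε : ℝ, 0 < ε ∧ ε2 = 2 * ε := ⟨ε2 / 2, by linarith only [hε2], by ring⟩
  have hL := h.L_pos
  obtain ⟨N, hN⟩ := exists_pow_lt_of_lt_one (x := ε / 2 / (4 * c.L)) (y := (3 / 4 : ℝ))
    (by positivity) (by norm_num)
  rw [lt_div_iff₀ (by positivity), mul_comm] at hN
  set ψ : P2 → ℝ := fun q => max 0 (min 1 (2 - dist q p / ε)) with hψ
  obtain ψc : Continuous ψ := by fun_prop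
  have ψ01 : ∀ q, 0 ≤ ψ q ∧ ψ q ≤ 1 := fun q =>
    ⟨le_max_left _ _, max_le zero_le_one (min_le_left _ _)⟩
  obtain ψ1 : ∀ q, dist q p ≤ ε → ψ q = 1 := fun q hq => by
    have : dist q p / ε ≤ 1 := (div_le_one hε).2 hq
    simp only [hψ]
    rw [min_eq_left (by linarith only [this]), max_eq_right zero_le_one]
  obtain hΛ : 0 < (2 * c.L) ^ (N + 1) := by positivity
  obtain ⟨ρ, ρ0, ρ1, ρ2⟩ : ∃ ρ : ℝ, 0 < ρ ∧ ρ ≤ 50 ∧ (2 * c.L) ^ (N + 1) * ρ ≤ ε / 2 :=
    ⟨min 50 (ε / 2 / (2 * c.L) ^ (N + 1)), by positivity, min_le_left _ _, by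
      rw [mul_comm, ← le_div_iff₀ hΛ]; exact min_le_right _ _⟩
  have key := hμ.low ψ ψc ψ01 (N + 1) ρ ρ0 fun s x0 φ hA => by
    have hP := hT s x0 φ hA
    obtain ⟨u, hu, hd⟩ := near h hM ht hP hx hp N
    obtain ⟨α, α0, α1, α2, α3⟩ : ∃ α : ℝ, 0 ≤ α ∧ α + ρ ≤ 100 ∧ α ≤ u ∧ u ≤ α + ρ := by
      rcases le_total u 50 with q | q
      · exact ⟨u, hu.1, by linarith only [ρ1, q], le_rfl, by linarith only [ρ0]⟩
      · exact ⟨u - ρ, by linarith only [ρ1, q], by linarith only [hu.2], by linarith only [ρ0], by linarith only []⟩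
    obtain hc : ContinuousOn (fun u => M.pt t (φ u) (s + (N + 1 : ℕ))) (Icc 0 100) :=
      (LipschitzOnWith.of_dist_le' (K := (2 * c.L) ^ (N + 1)) fun a ha b hb => by
        rw [Real.dist_eq]; exact lipA h hM ht hP _ hb ha).continuousOn
    refine le_trans ?_ (intervalIntegral.integral_mono_interval α0 (by linarith only [ρ0]) α1
      (Eventually.of_forall fun u => (ψ01 _).1)
      ((ψc.comp_continuousOn hc).intervalIntegrable_of_Icc (by norm_num)))
    rw [intervalIntegral.integral_congr (g := fun _ => (1 : ℝ)) fun v hv => ?_]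
    · simp
    · rw [uIcc_of_le (by linarith only [ρ0])] at hv
      refine ψ1 _ ((dist_triangle _ (M.pt t (φ u) (s + (N + 1 : ℕ))) _).trans ?_)
      obtain a := lipA h hM ht hP (N + 1) hu (u' := v) ⟨by linarith only [α0, hv.1], by linarith only [α1, hv.2]⟩
      obtain b : |v - u| ≤ ρ := abs_le.2 ⟨by linarith only [α3, hv.1], by linarith only [α2, hv.2]⟩
      have := mul_le_mul_of_nonneg_left b hΛ.le
      linarith only [hN, ρ2, hd, a, this]
  by_contra h0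
  rw [not_lt, nonpos_iff_eq_zero] at h0
  refine key.ne' (integral_eq_zero_of_ae (measure_mono_null (fun q hq => hball ?_) h0))
  by_contra hq'
  rw [Metric.mem_ball, not_lt, ← le_div_iff₀ hε] at hq'
  exact hq (max_eq_left ((min_le_right _ _).trans (by linarith only [hq'])))

end G5

theorem g5 : Hier fun c => T0_s c → G5_s c :=
  SOK.big.mono fun _ h hT Ex M t _ hM ht hμ ω _ hx =>
    ⟨G5.nonempty h hM ht (hT Ex M t _ _ _ hM ht .base) ω hx,
      fun _ hp => G5.supp h hM ht (fun s x0 φ => hT Ex M t s x0 φ hM ht) hμ hx hp⟩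

end Pool.Agent.MP_9cbfe4_an

end

/-! ### Part FD -/

section

/-! Row FD (L2'): finite differences of slopes at a time with `kk n = 0`. -/

namespace Pool.Agent.MP_9cbfe4_an

open Finset

namespace FD

theorem chi_succ (c : Cs) (S : Sq) {i j : ℤ} (h : i ≤ j) :
    S.chi c i (j + 1) = S.chi c i j + S.ch1 c (j + 1) := by
  unfold Sq.chi
  rw [← Finset.insert_Ioc_right_eq_Ioc_add_one h, Finset.sum_insert (by simp), add_comm]

theorem PB_succ (c : Cs) (S : Sq) (θ : ℝ) {i j : ℤ} (h : i ≤ j) :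
    S.PB c θ i (j + 1) = S.PB c θ i j * S.bb c θ (j + 1) := by
  unfold Sq.PB
  rw [← Finset.insert_Ioc_right_eq_Ioc_add_one h, Finset.prod_insert (by simp), mul_comm]

theorem sum_succ (f : ℤ → ℝ) {i j : ℤ} (h : i ≤ j) :
    ∑ l ∈ Ico i (j + 1), f l = ∑ l ∈ Ico i j, f l + f j := by
  rw [← Finset.insert_Ico_right_eq_Ico_add_one h, Finset.sum_insert (by simp), add_comm]

theorem vt_mem (x : ℝ) : 0 ≤ vt x ∧ vt x ≤ 1 :=
  ⟨le_max_left _ _, max_le zero_le_one (min_le_left _ _)⟩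

theorem ch1_ge (c : Cs) (S : Sq) (h : c.chK ≤ c.bl) (j : ℤ) : c.chK ≤ S.ch1 c j := by
  have h1 := vt_mem (S.X j)
  have h2 := vt_mem (S.X (j - 1))
  have h3 : S.kk j ≤ 1 := mul_le_one₀ h1.2 h2.1 h2.2
  unfold Sq.ch1
  linarith only [mul_nonneg (sub_nonneg.2 h3) (sub_nonneg.2 h)]

theorem chi_nonneg (c : Cs) (S : Sq) (h0 : 0 ≤ c.chK) (h : c.chK ≤ c.bl) (i j : ℤ) :
    0 ≤ S.chi c i j := Finset.sum_nonneg fun l _ => h0.trans (ch1_ge c S h l)

theorem dP_lip (x y : ℝ) : dP y ≤ dP x + |y - x| := by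
  unfold dP
  have h1 := abs_sub_le y x (Real.pi / 2)
  have h2 := abs_sub_le y x (-(Real.pi / 2))
  rw [sub_neg_eq_add, sub_neg_eq_add] at h2
  rcases le_total |x - Real.pi / 2| |x + Real.pi / 2| with h | h
  · rw [min_eq_left h]; exact (min_le_left _ _).trans (by linarith only [h1])
  · rw [min_eq_right h]; exact (min_le_right _ _).trans (by linarith only [h2])

/-- geometric sum of the contraction weights -/
theorem geo (c : Cs) (S : Sq) (hK : Real.exp (-(3 / 4) * c.chK) ≤ 2 / 3) (h : c.chK ≤ c.bl)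
    {s n : ℤ} (hsn : s ≤ n) : ∑ i ∈ Ico s (n + 1), Real.exp (-(3 / 4) * S.chi c i n) ≤ 3 := by
  induction n, hsn using Int.leInduction with
  | base =>
    rw [sum_succ _ le_rfl]
    simp [Sq.chi]
  | succ n hn ih =>
    rw [sum_succ _ (by omega)]
    obtain h1 : ∑ i ∈ Ico s (n + 1), Real.exp (-(3 / 4) * S.chi c i (n + 1)) ≤
        ∑ i ∈ Ico s (n + 1), Real.exp (-(3 / 4) * S.chi c i n) * (2 / 3) := by
      refine Finset.sum_le_sum fun i hi => ?_
      rw [chi_succ c S (by have := Finset.mem_Ico.1 hi; omega), mul_add, Real.exp_add]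
      refine mul_le_mul_of_nonneg_left (le_trans (Real.exp_le_exp.2 ?_) hK) (Real.exp_pos _).le
      linarith only [ch1_ge c S h (n + 1)]
    rw [← Finset.sum_mul] at h1
    obtain h2 : Real.exp (-(3 / 4) * S.chi c (n + 1) (n + 1)) = 1 := by simp [Sq.chi]
    linarith only [ih, h1, h2]

/-- propagation of a Wronskian -/
theorem wr (c : Cs) (S : Sq) (θ : ℝ) {W g : ℤ → ℝ} {s n : ℤ}
    (hb : ∀ j, s < j → j ≤ n → 0 ≤ S.b j ∧ S.b j ≤ S.bb c θ j) (h0 : |W (s + 1)| ≤ g s)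
    (h1 : ∀ j, s < j → j < n → |W (j + 1)| ≤ S.b j * |W j| + g j) (j : ℤ) (hj : s + 1 ≤ j) :
    j ≤ n → S.bb c θ j * |W j| ≤ ∑ i ∈ Ico s j, S.PB c θ i j * g i := by
  induction j, hj using Int.leInduction with
  | base =>
    intro hn
    obtain this := hb (s + 1) (by omega) hn
    rw [sum_succ _ le_rfl, PB_succ c S θ le_rfl]
    simp only [Finset.Ico_self, Finset.sum_empty, zero_add, Sq.PB, Finset.Ioc_self,
      Finset.prod_empty, one_mul]
    exact mul_le_mul_of_nonneg_left h0 (this.1.trans this.2)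
  | succ j hj ih =>
    intro hn
    obtain a1 := hb (j + 1) (by omega) hn
    obtain a2 := hb j (by omega) (by omega)
    obtain a3 := h1 j (by omega) (by omega)
    obtain a4 := ih (by omega)
    obtain a5 : ∑ i ∈ Ico s j, S.PB c θ i (j + 1) * g i =
        (∑ i ∈ Ico s j, S.PB c θ i j * g i) * S.bb c θ (j + 1) := by
      rw [Finset.sum_mul]
      refine Finset.sum_congr rfl fun i hi => ?_
      rw [PB_succ c S θ (by have := Finset.mem_Ico.1 hi; omega)]
      ring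
    obtain a6 : S.PB c θ j j = 1 := by simp [Sq.PB]
    rw [sum_succ _ (by omega), a5, PB_succ c S θ le_rfl, a6]
    have a7 := mul_le_mul_of_nonneg_right a2.2 (abs_nonneg (W j))
    obtain a8 := mul_le_mul_of_nonneg_left (show |W (j + 1)| ≤
      ∑ i ∈ Ico s j, S.PB c θ i j * g i + g j by linarith only [a3, a4, a7]) (a1.1.trans a1.2)
    linarith only [a8]

/-- the weighted sum of the sources -/
theorem wsum (c : Cs) (S : Sq) {θ K x y : ℝ} {w : ℤ → ℝ} {s n : ℤ} (h0 : 0 ≤ c.chK)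
    (hK : Real.exp (-(3 / 4) * c.chK) ≤ 2 / 3) (h : c.chK ≤ c.bl) (ha : 0 ≤ c.a)
    (ha' : c.a ≤ 1 / 48) (hK1 : 1 ≤ K) (hx : 0 ≤ x) (hy : 0 ≤ y) (hsn : s < n) (hk : S.kk n = 0)
    (hw : ∀ j, s ≤ j → j ≤ n → 0 < w j) (hD : S.Dec c θ K w s n) :
    ∑ i ∈ Ico s n, S.PB c θ i n * (w i * (x + y * w i ^ 2)) ≤
      3 * K ^ 3 * Real.exp (-(3 / 4) * c.bl) * (w n * (x + y * w n ^ 2)) := by
  obtain ⟨m, rfl⟩ : ∃ m, n = m + 1 := ⟨n - 1, by ring⟩
  have hn := hw (m + 1) hsn.le le_rfl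
  obtain hc : S.ch1 c (m + 1) = c.bl := by simp [Sq.ch1, hk]
  obtain hT : 0 ≤ w (m + 1) * (x + y * w (m + 1) ^ 2) := by (clear * - hn hx hy; positivity)
  obtain h1 : ∀ i ∈ Ico s (m + 1), S.PB c θ i (m + 1) * (w i * (x + y * w i ^ 2)) ≤
      Real.exp (-(3 / 4) * S.chi c i m) *
        (K ^ 3 * Real.exp (-(3 / 4) * c.bl) * (w (m + 1) * (x + y * w (m + 1) ^ 2))) := by
    intro i hi
    have hi' := Finset.mem_Ico.1 hi
    obtain ⟨d1, d2⟩ := hD i hi'.1 hi'.2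
    have hwi := hw i hi'.1 hi'.2.le
    have hχ := chi_nonneg c S h0 h i (m + 1)
    set χ := S.chi c i (m + 1) with hχd
    obtain e1 : 1 ≤ K * Real.exp (4 * c.a * χ) :=
      one_le_mul_of_one_le_of_one_le hK1 (Real.one_le_exp (by (clear * - ha hχ; positivity)))
    obtain e2 : w i ^ 2 ≤ (K * Real.exp (4 * c.a * χ)) ^ 2 * w (m + 1) ^ 2 := by
      rw [← mul_pow]; exact pow_le_pow_left₀ hwi.le d2 2
    obtain e3 : x + y * w i ^ 2 ≤ (K * Real.exp (4 * c.a * χ)) ^ 2 * (x + y * w (m + 1) ^ 2) := by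
      have := mul_le_mul_of_nonneg_left e2 hy
      have := mul_le_mul_of_nonneg_right (one_le_pow₀ (n := 2) e1) hx
      (rename_i zq0; linarith only [zq0, this])
    obtain e4 : Real.exp (-(1 - 4 * c.a) * χ) * Real.exp (4 * c.a * χ) ^ 2 ≤
        Real.exp (-(3 / 4) * S.chi c i m) * Real.exp (-(3 / 4) * c.bl) := by
      rw [← Real.exp_nat_mul, ← Real.exp_add, ← Real.exp_add]
      refine Real.exp_le_exp.2 ?_
      obtain e5 : χ = S.chi c i m + c.bl := by rw [hχd, chi_succ c S (by omega), hc]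
      have := mul_nonneg (sub_nonneg.2 ha') hχ
      push_cast
      linarith only [e5, this]
    calc S.PB c θ i (m + 1) * (w i * (x + y * w i ^ 2))
        = S.PB c θ i (m + 1) * w i * (x + y * w i ^ 2) := by ring
      _ ≤ K * Real.exp (-(1 - 4 * c.a) * χ) * w (m + 1) *
          ((K * Real.exp (4 * c.a * χ)) ^ 2 * (x + y * w (m + 1) ^ 2)) :=
        mul_le_mul d1 e3 (by (clear * - hx hy hwi; positivity)) (by positivity)
      _ = (Real.exp (-(1 - 4 * c.a) * χ) * Real.exp (4 * c.a * χ) ^ 2) *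
          (K ^ 3 * (w (m + 1) * (x + y * w (m + 1) ^ 2))) := by ring
      _ ≤ _ := (mul_le_mul_of_nonneg_right e4 (by (clear * - hK1 hn hx hy; positivity))).trans_eq (by ring)
  refine (Finset.sum_le_sum h1).trans ?_
  rw [← Finset.sum_mul]
  refine (mul_le_mul_of_nonneg_right (geo c S hK h (by omega)) (by (clear * - hK1 hn hx hy; positivity))).trans_eq (by ring)

/-- numeric facts used in this file -/
structure Nm (c : Cs) : Prop where
  cg : 1 ≤ c.CG
  e0 : 0 ≤ c.e0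
  k0 : 0 ≤ c.chK
  k1 : Real.exp (-(3 / 4) * c.chK) ≤ 2 / 3
  kb : c.chK ≤ c.bl
  a0 : 0 ≤ c.a
  a1 : c.a ≤ 1 / 48
  L : 10 ≤ c.L
  lam : 1000 ≤ c.lam
  ks : 16 * c.KS ≤ c.lam
  dl : c.dl * (1 + 8 * c.L) ≤ 1
  big : 10 ^ 16 * c.CG * c.lam ^ 3 ≤ Real.exp (c.bl / 4)

theorem nm : Hier Nm := by
  obtain ha := Hier.a_le (fun _ => 1 / 48) (fun _ _ _ _ _ _ => rfl) (Hier.of_all fun _ => by norm_num)
  have hβ := Hier.β_ge (fun _ => 4) fun _ _ _ => rfl
  have hL := Hier.L_ge (fun _ => 10) fun _ _ => rfl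
  have hl := Hier.lam_ge (fun _ => 1000) fun _ _ => rfl
  have hl' := Hier.lam_ge (fun c => 16 * c.KS) fun _ _ => rfl
  have hp := Hier.pow_le_exp (fun c => 10 ^ 16 * c.CG) (fun _ => 1) 3 (fun _ _ => rfl)
    (fun _ _ => rfl) (Hier.of_all fun _ => one_pos)
  refine (Hier.base.and (ha.and (hβ.and (hL.and (hl.and (hl'.and hp)))))).mono ?_
  rintro c ⟨⟨b1, b2, -, -, -, b3⟩, ⟨a1, a2⟩, hβ, hL, hl, hl', hp⟩
  obtain hk : 0 < c.k0 := by linarith only [b1, a1, a2]
  obtain h2 : Real.log 2 ≤ c.chK :=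
    Real.log_le_log two_pos (by rw [le_div_iff₀ hk]; linarith only [b2])
  obtain h16 : c.chK ≤ 15 := by
    have := Real.log_le_sub_one_of_pos (one_div_pos.2 hk)
    obtain h3 : 1 / c.k0 ≤ 16 := by rw [div_le_iff₀ hk]; linarith only [b1]
    unfold Cs.chK; linarith only [this, h3]
  obtain hb : 4 * c.lam ≤ c.bl := mul_le_mul_of_nonneg_right hβ (by linarith only [a1, a2, hl])
  have hl2 := Real.log_two_gt_d9
  refine ⟨b3, by unfold Cs.e0; linarith only [b2], by linarith only [a1, a2, h2, hl2], ?_, by linarith only [a1, a2, hl, h16, hb], a1.le, a2, hL, hl, hl', ?_,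
    hp.trans (Real.exp_le_exp.2 (by linarith only [hb]))⟩
  · obtain h3 : Real.exp (-(3 / 4) * c.chK) ≤ Real.exp (-(1 / 2)) := Real.exp_le_exp.2 (by linarith only [a1, a2, h2, hl2])
    have h4 := Real.add_one_le_exp (1 / 2 : ℝ)
    rw [Real.exp_neg] at h3
    refine h3.trans ?_
    rw [inv_le_comm₀ (Real.exp_pos _) (by norm_num)]
    linarith only [h4]
  · obtain h3 : Real.exp c.lam = c.L := Real.exp_log (by linarith only [a1, a2, hL])
    obtain h4 : c.dl ≤ Real.exp (-(c.lam + c.lam)) := Real.exp_le_exp.2 (by linarith only [a1, a2, hl, hb])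
    rw [Real.exp_neg, Real.exp_add, h3] at h4
    obtain h5 : (c.L * c.L)⁻¹ * (1 + 8 * c.L) ≤ 1 := by
      rw [inv_mul_le_iff₀ (by (clear * - hL; positivity))]; nlinarith only [a2, hL, a1]
    exact (mul_le_mul_of_nonneg_right h4 (by linarith only [a1, a2, hL])).trans h5

/-- a comparison constant `m` at each index of the shadowing interval -/
theorem pair {c M t t' S S' θ w A ζ η s n} (N : Nm c) (hS : SOK_s c)
    (H : ShH c M t t' S S' θ w A ζ η s n)
    (hZ : ∀ j, s ≤ j → j ≤ n → |S'.X j - S.X j| ≤ 4 * η * w j)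
    (hw : ∀ j, s ≤ j → j < n → η * w j ≤ 100 * (η * A n)) {i : ℤ} (h1 : s ≤ i) (h2 : i < n) :
    ∃ m, Pair c (S.X i) (S.X (i - 1)) (S'.X i) (S'.X (i - 1)) m ∧
      m * |S'.X (i - 1) - S.X (i - 1)| ≤ 5000 * (c.CG * c.L * (η * w i)) ∧
      m * (S'.X (i - 1) - S.X (i - 1)) ^ 2 ≤ 5000 * (c.CG * c.L * (η * w i) ^ 2) := by
  have hη := H.η0
  have hwi := H.cert.pos' i h1 h2.le
  have hL := N.L
  obtain hCL : 1 ≤ c.CG * c.L := one_le_mul_of_one_le_of_one_le N.cg (by linarith only [hL])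
  obtain hu : 0 ≤ η * w i := by (clear * - hη hwi; positivity)
  have p1 : η * w i ≤ c.CG * c.L * (η * w i) := le_mul_of_one_le_left hu hCL
  obtain p2 : (η * w i) ^ 2 ≤ c.CG * c.L * (η * w i) ^ 2 := le_mul_of_one_le_left (by (clear * -; positivity)) hCL
  rcases h1.eq_or_lt with rfl | h1
  · obtain ⟨m, a1, a2, a3⟩ := H.pair
    exact ⟨m, a1, by linarith only [hu, p1, a2], by nlinarith only [p2, a3]⟩
  obtain sm : ∀ j, s ≤ j → j < n → |S'.X j - S.X j| ≤ 1 / 1000 := by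
    intro j a1 a2
    have b1 := hZ j a1 a2.le
    have b2 := hw j a1 a2
    have b3 := H.small
    obtain b4 : 1 / c.lam ^ 2 ≤ 1 / 1000 ^ 2 :=
      one_div_le_one_div_of_le (by norm_num) (pow_le_pow_left₀ (by norm_num) N.lam 2)
    linarith only [b1, b2, b3, b4]
  have z1 := sm i h1.le h2
  obtain z2 := sm (i - 1) (by omega) (by omega)
  obtain z3 := hZ (i - 1) (by omega) (by omega)
  have z4 : (S'.X (i - 1) - S.X (i - 1)) ^ 2 = |S'.X (i - 1) - S.X (i - 1)| ^ 2 := (sq_abs _).symm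
  set y := |S'.X (i - 1) - S.X (i - 1)| with hy
  have y0 : 0 ≤ y := abs_nonneg _
  by_cases hc : dP (S.X i) < 11 / 1000 ∧ dP (S.X (i - 1)) < 11 / 1000
  · obtain k1 := H.cert.backK i h1 h2 (by linarith only [hc, H.θ_lo]) (by linarith only [hc, H.θ_lo])
    obtain q := (hS M H.ok t H.ht).2.2 S s (i - 1) H.orb (by omega)
    obtain q' := (hS M H.ok t' H.ht').2.2 S' s (i - 1) H.orb' (by omega)
    rw [sub_add_cancel] at q q'
    have l1 := dP_lip (S.X i) (S'.X i)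
    have l2 := dP_lip (S.X (i - 1)) (S'.X (i - 1))
    obtain w0 : 0 ≤ c.w0 := by have := N.lam; unfold Cs.w0; (clear * - this; positivity)
    obtain w1 : (1 - 3 * c.e0 / 4) * c.w0 ≤ c.w0 := by linarith only [mul_nonneg N.e0 w0]
    obtain y1 : y ≤ 64 * (η * w i) := by linarith only [z3, mul_le_mul_of_nonneg_left k1 hη]
    refine ⟨c.CG * c.L, ⟨by linarith only [z1], Or.inr ⟨rfl, (q.2.2.2.2 (by linarith only [hc]) (by linarith only [hc])).trans w1,
      (q'.2.2.2.2 (by linarith only [z1, hc, l1]) (by linarith only [z2, hc, l2])).trans w1, by linarith only [z2]⟩⟩, ?_, ?_⟩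
    · linarith only [hu, p1, mul_le_mul_of_nonneg_left y1 (zero_le_one.trans hCL)]
    · rw [z4]
      have y2 := mul_le_mul_of_nonneg_left (pow_le_pow_left₀ y0 y1 2) (zero_le_one.trans hCL)
      nlinarith only [p2, y2]
  · have k1 := H.cert.back i h1 h2.le
    have hb : 0 ≤ c.bl := N.k0.trans N.kb
    set E := Real.exp (c.bl / 2) with hE
    obtain E1 : 1 ≤ E := Real.one_le_exp (by linarith only [hb])
    obtain E2 : c.dl * E ^ 2 ≤ 1 := by
      rw [hE, ← Real.exp_nat_mul, Cs.dl, ← Real.exp_add]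
      exact Real.exp_le_one_iff.2 (by push_cast; linarith only [hb])
    have d0 : 0 ≤ c.dl := (Real.exp_pos _).le
    obtain E3 : c.dl * E ≤ 1 := by linarith only [E2, mul_nonneg d0 (mul_nonneg (zero_le_one.trans E1) (sub_nonneg.2 E1))]
    obtain y1 : y ≤ 16 * E * (η * w i) := by linarith only [z3, mul_le_mul_of_nonneg_left k1 hη]
    refine ⟨c.dl, ⟨by linarith only [z1], Or.inl ⟨rfl, ?_⟩⟩, ?_, ?_⟩
    · rcases not_and_or.1 hc with h | h
      · exact Or.inl (by linarith only [z1, not_lt.1 h])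
      · exact Or.inr (by linarith only [z2, not_lt.1 h])
    · have := mul_le_mul_of_nonneg_left y1 d0
      linarith only [hu, p1, this, E3, mul_le_mul_of_nonneg_right E3 hu]
    · rw [z4]
      have y2 := mul_le_mul_of_nonneg_left (pow_le_pow_left₀ y0 y1 2) d0
      have y3 := mul_le_mul_of_nonneg_right E2 (sq_nonneg (η * w i))
      nlinarith only [p2, y2, y3]

/-- the source of the linear recursion for `Z = X' - X` -/
theorem src {c M t t' S S' θ w A ζ η s n} (N : Nm c) (hS : SOK_s c)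
    (H : ShH c M t t' S S' θ w A ζ η s n)
    (hZ : ∀ j, s ≤ j → j ≤ n → |S'.X j - S.X j| ≤ 4 * η * w j)
    (hw : ∀ j, s ≤ j → j < n → η * w j ≤ 100 * (η * A n)) {i : ℤ} (h1 : s ≤ i) (h2 : i < n) :
    |S'.X (i + 1) - S.X (i + 1) - S.a i * (S'.X i - S.X i)
      - S.b i * (S'.X (i - 1) - S.X (i - 1))| ≤
      3 * |t' - t| + 30000 * (c.CG * c.L * (η * w i) ^ 2) := by
  obtain ⟨m, p1, p2, p3⟩ := pair N hS H hZ hw h1 h2
  obtain b1 := H.orb.box i (by omega)
  obtain b2 := H.orb.box (i - 1) (by omega)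
  obtain b3 := H.orb'.box i (by omega)
  obtain b4 := H.orb'.box (i - 1) (by omega)
  have q := (H.ok.tay t t' _ _ _ _ m H.ht H.ht' b1 b2 b3 b4 p1).1
  have g := H.ok.t_all t _ _ H.ht b1 b2
  rw [H.orb.step i h1, H.orb'.step i h1, H.orb.ha i h1, H.orb.hb i h1]
  have z := hZ i h1 h2.le
  have hL := N.L
  have hu : 0 ≤ η * w i := mul_nonneg H.η0 (H.cert.pos' i h1 h2.le).le
  obtain hCL : 0 ≤ c.CG * c.L := mul_nonneg (zero_le_one.trans N.cg) (by linarith only [hL])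
  have d0 : 0 ≤ c.dl := (Real.exp_pos _).le
  obtain x4 : |S'.X i - S.X i| ≤ 4 * c.L := (abs_sub _ _).trans (by unfold Box at b1 b3; linarith only [b1, b3])
  obtain y4 : |S'.X (i - 1) - S.X (i - 1)| ≤ 4 * c.L :=
    (abs_sub _ _).trans (by unfold Box at b2 b4; linarith only [b2, b4])
  obtain τ1 : |t' - t| ≤ 1 := abs_le.2 ⟨by linarith only [H.ht.2, H.ht'.1], by linarith only [H.ht.1, H.ht'.2]⟩
  rw [← sq_abs (S'.X i - S.X i), ← sq_abs (t' - t)] at q
  set x := |S'.X i - S.X i|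
  set y := |S'.X (i - 1) - S.X (i - 1)|
  set τ := |t' - t| with hτ
  have x0 : 0 ≤ x := abs_nonneg _
  have τ0 : 0 ≤ τ := abs_nonneg _
  obtain r1 : c.CG * c.L * x ^ 2 ≤ 16 * (c.CG * c.L * (η * w i) ^ 2) := by
    have := mul_le_mul_of_nonneg_left (pow_le_pow_left₀ x0 z 2) hCL
    linarith only [this]
  obtain r2 : x * (m * y) ≤ 20000 * (c.CG * c.L * (η * w i) ^ 2) :=
    ((mul_le_mul_of_nonneg_left p2 x0).trans
      (mul_le_mul_of_nonneg_right z (by (clear * - hCL hu; positivity)))).trans_eq (by ring)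
  obtain r3 : c.dl * (τ ^ 2 + τ * (x + y)) ≤ τ := by
    obtain u1 : τ ^ 2 + τ * (x + y) ≤ τ * (1 + 8 * c.L) := by
      linarith only [x4, y4, τ1, mul_le_mul_of_nonneg_left (show τ + (x + y) ≤ 1 + 8 * c.L by linarith only [x4, y4, τ1]) τ0]
    have u2 := mul_le_mul_of_nonneg_left u1 d0
    linarith only [u2, mul_le_mul_of_nonneg_left N.dl τ0]
  obtain r4 : |M.Gt t (S.X i) (S.X (i - 1)) * (t' - t)| ≤ 2 * τ := by
    rw [abs_mul]
    obtain u1 : c.dl ≤ 1 := by nlinarith only [hL, d0, N.dl]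
    have u2 := abs_le.1 g
    exact mul_le_mul_of_nonneg_right (abs_le.2 ⟨by linarith only [u1, u2], by linarith only [u1, u2]⟩) τ0
  have r5 := abs_le.1 q
  have r6 := abs_le.1 r4
  obtain r7 : 0 ≤ c.CG * c.L * (η * w i) ^ 2 := by (clear * - hCL; positivity)
  refine abs_le.2 ⟨?_, ?_⟩ <;> linarith only [p3, r1, r2, r3, r5, r6, r7]

theorem fin (c : Cs) (N : Nm c) {C T : ℝ} (hC : C ≤ 10 ^ 6 * c.CG) (hT : 0 ≤ T) :
    C * (3 * (1000 * c.lam) ^ 3 * Real.exp (-(3 / 4) * c.bl)) * T ≤ Real.exp (-c.bl / 2) * T := by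
  refine mul_le_mul_of_nonneg_right ?_ hT
  obtain h0 : 0 ≤ c.lam := by linarith only [N.lam]
  obtain h1 : Real.exp (-c.bl / 2) = Real.exp (c.bl / 4) * Real.exp (-(3 / 4) * c.bl) := by
    rw [← Real.exp_add]; congr 1; ring
  obtain h2 : 0 ≤ c.CG * c.lam ^ 3 := mul_nonneg (zero_le_one.trans N.cg) (by positivity)
  obtain h3 : C * (3 * (1000 * c.lam) ^ 3) ≤ Real.exp (c.bl / 4) := by
    obtain this := mul_le_mul_of_nonneg_right hC (show 0 ≤ 3 * (1000 * c.lam) ^ 3 by (clear * - h0; positivity))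
    linarith only [h2, this, N.big]
  rw [h1, ← mul_assoc]
  exact mul_le_mul_of_nonneg_right h3 (Real.exp_pos _).le

theorem main {c : Cs} (N : Nm c) (hS : SOK_s c) (hH : SH_s c) : FD_s c := by
  intro M t t' S S' θ w A ζ η s n H hsn hk hD ξ hξ hn
  obtain ⟨s1, s2, -, s4, -⟩ := hH M t t' S S' θ w A ζ η s n H
  have hη := H.η0
  have hL := N.L
  have hl := N.lam
  have hG : 0 ≤ c.CG := zero_le_one.trans N.cg
  obtain hL0 : 0 ≤ c.L := by linarith only [hL]
  have hCL : 0 ≤ c.CG * c.L := mul_nonneg hG hL0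
  have hw := H.cert.pos'
  have hwn := hw n hsn.le le_rfl
  obtain hξn : 0 < |ξ n| := by linarith only [hn, hwn]
  have hξ0 : ξ n ≠ 0 := abs_pos.1 hξn
  obtain hm : ∀ j, s - 1 ≤ j → j ≤ n → |ξ j| ≤ w j := fun j a b => by simpa using hξ.2 j a b
  obtain hb : ∀ j, s ≤ j → 0 ≤ S.b j ∧ S.b j ≤ S.bb c θ j := fun j a => by
    have q := (hS M H.ok t H.ht).2.2 S s j H.orb a
    exact ⟨le_trans (by positivity) q.2.2.1, q.2.1 θ (by linarith only [H.θ_lo])⟩
  have hbn := hb n hsn.le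
  obtain key : ∀ (W : ℤ → ℝ) (x y : ℝ), 0 ≤ x → 0 ≤ y →
      |W (s + 1)| ≤ w s * (x + y * w s ^ 2) →
      (∀ j, s < j → j < n → |W (j + 1)| ≤ S.b j * |W j| + w j * (x + y * w j ^ 2)) →
      S.b n * |W n| ≤ 3 * (1000 * c.lam) ^ 3 * Real.exp (-(3 / 4) * c.bl) *
        (w n * (x + y * w n ^ 2)) := fun W x y hx hy a b =>
    ((mul_le_mul_of_nonneg_right hbn.2 (abs_nonneg _)).trans
      (wr c S θ (g := fun i => w i * (x + y * w i ^ 2)) (fun j u _ => hb j u.le) a b n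
        (by omega) le_rfl)).trans
      (wsum c S N.k0 N.k1 N.kb N.a0 N.a1 (by linarith only [hl]) hx hy hsn hk hw hD)
  set E := 3 * (1000 * c.lam) ^ 3 * Real.exp (-(3 / 4) * c.bl) with hE
  obtain E0 : 0 ≤ E := by (clear * - hl; positivity)
  refine ⟨fun ⟨v, hv⟩ => ?_, fun ξ' r1 r2 r3 => ?_⟩
  · have sq := fun i a b => src N hS H (fun j a b => (s1 j a b).1) (fun j a b => (s2 j a b).1)
      (i := i) a b
    have τ0 := abs_nonneg (t' - t)
    have k := key (fun j => ξ j * (S'.X (j - 1) - S.X (j - 1)) - ξ (j - 1) * (S'.X j - S.X j))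
      (3 * |t' - t|) (30100 * (c.CG * c.L * η ^ 2)) (by (clear * -; positivity)) (by (clear * - hG hL; positivity)) ?_ ?_
    · obtain e1 : S'.X (n - 1) - S.X (n - 1) - ξ (n - 1) / ξ n * (S'.X n - S.X n) =
          (ξ n * (S'.X (n - 1) - S.X (n - 1)) - ξ (n - 1) * (S'.X n - S.X n)) / ξ n := by
        field_simp
      obtain T0 : 0 ≤ c.L * (η * w n) ^ 2 := by (clear * - hL; positivity)
      refine le_trans ?_ (fin c N (C := 240800 * c.CG) (by linarith only [hG, N.cg]) (add_nonneg τ0 T0))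
      rw [e1, abs_div, ← mul_div_assoc, div_le_iff₀ hξn]
      refine k.trans ?_
      obtain e2 : 3 * |t' - t| + 30100 * (c.CG * c.L * η ^ 2) * w n ^ 2 ≤
          30100 * c.CG * (|t' - t| + c.L * (η * w n) ^ 2) := by
        linarith only [τ0, mul_le_mul_of_nonneg_right N.cg τ0]
      refine (mul_le_mul_of_nonneg_left (mul_le_mul hn e2 (by (clear * - hG hL hwn; positivity)) (by (clear * - hξ0; positivity)))
        E0).trans_eq (by rw [← hE]; ring)
    · obtain e1 : ξ (s + 1) * (S'.X (s + 1 - 1) - S.X (s + 1 - 1)) -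
          ξ (s + 1 - 1) * (S'.X (s + 1) - S.X (s + 1)) =
          -(ξ s * ((S'.X (s + 1) - S.X (s + 1) - S.a s * (S'.X s - S.X s)
            - S.b s * (S'.X (s - 1) - S.X (s - 1))) +
            S.b s * (S'.X (s - 1) - S.X (s - 1) - ζ (s - 1)))) := by
        rw [add_sub_cancel_right, hξ.1 s le_rfl hsn, ← H.init, hv, hv]; ring
      rw [e1, abs_neg, abs_mul]
      refine mul_le_mul (hm s (by omega) hsn.le) ((abs_add_le _ _).trans ?_) (abs_nonneg _)
        (hw s le_rfl hsn.le).le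
      rw [abs_mul (S.b s), abs_of_nonneg (hb s le_rfl).1]
      have := sq s le_rfl hsn
      have := H.init'
      (rename_i zq0; linarith only [zq0, this])
    · intro j a b
      obtain e1 : ξ (j + 1) * (S'.X (j + 1 - 1) - S.X (j + 1 - 1)) -
          ξ (j + 1 - 1) * (S'.X (j + 1) - S.X (j + 1)) =
          -(S.b j * (ξ j * (S'.X (j - 1) - S.X (j - 1)) - ξ (j - 1) * (S'.X j - S.X j)) +
            ξ j * (S'.X (j + 1) - S.X (j + 1) - S.a j * (S'.X j - S.X j)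
            - S.b j * (S'.X (j - 1) - S.X (j - 1)))) := by
        rw [add_sub_cancel_right, hξ.1 j a.le b]; ring
      rw [e1, abs_neg]
      refine (abs_add_le _ _).trans ?_
      rw [abs_mul, abs_mul, abs_of_nonneg (hb j a.le).1]
      refine add_le_add le_rfl (mul_le_mul (hm j (by omega) b.le) ?_ (abs_nonneg _)
        (hw j a.le b.le).le)
      have := sq j a.le b
      obtain this : 0 ≤ c.CG * c.L * (η * w j) ^ 2 := by (clear * - hG hL; positivity)
      (rename_i zq0; linarith only [zq0, this])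
  · obtain d : ∀ j, s ≤ j → j ≤ n → |ξ' j - ξ j| ≤ w j / 16 := by
      intro j a b
      obtain u1 := s4 ξ ξ' 1 zero_le_one hξ r1 r2 (by simpa using r3) j a b
      have u2 := mul_le_mul_of_nonneg_left (H.cert.mono j n a b le_rfl) hη
      obtain u3 : 0 ≤ c.KS := by have := N.cg; unfold Cs.KS; (clear * - this; positivity)
      obtain u4 : c.KS * (1 / c.lam ^ 2) ≤ 1 / 16 := by
        rw [mul_one_div, div_le_iff₀ (by positivity)]; nlinarith only [hl, N.ks]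
      have u5 := (mul_le_mul_of_nonneg_left (u2.trans H.small) u3).trans u4
      linarith only [u1, mul_le_mul_of_nonneg_right u5 (hw j a b).le]
    obtain d2 : ∀ j, s ≤ j → j ≤ n → |ξ' j| ≤ 2 * w j := by
      intro j a b
      have := abs_sub_abs_le_abs_sub (ξ' j) (ξ j)
      linarith only [this, d j a b, hm j (by omega) b, hw j a b]
    obtain d3 : w n ≤ 16 * |ξ' n| := by
      have := abs_sub_abs_le_abs_sub (ξ n) (ξ' n)
      rw [abs_sub_comm] at this
      linarith only [hn, this, d n hsn.le le_rfl]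
    obtain hξn' : 0 < |ξ' n| := by linarith only [hwn, d3]
    have hξ0' : ξ' n ≠ 0 := abs_pos.1 hξn'
    have k := key (fun j => ξ j * ξ' (j - 1) - ξ (j - 1) * ξ' j)
      0 (4000 * (c.CG * c.L * η)) le_rfl (by (clear * - hG hL hη; positivity)) ?_ ?_
    · obtain e1 : ξ' (n - 1) / ξ' n - ξ (n - 1) / ξ n =
          (ξ n * ξ' (n - 1) - ξ (n - 1) * ξ' n) / (ξ n * ξ' n) := by
        field_simp
      obtain T0 : 0 ≤ c.L * (η * w n) := by (clear * - hL hη hwn; positivity)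
      rw [mul_assoc (Real.exp _)]
      refine le_trans ?_ (fin c N (C := 512000 * c.CG) (by linarith only [hG, N.cg]) T0)
      rw [e1, abs_div, ← mul_div_assoc, abs_mul, div_le_iff₀ (mul_pos hξn hξn')]
      refine k.trans ?_
      obtain e2 := mul_le_mul hn d3 hwn.le (by (clear * - hξ0; positivity))
      obtain e3 : 0 ≤ E * (4000 * (c.CG * c.L * (η * w n))) := by (clear * - hl hG hL hη hwn; positivity)
      refine le_trans (le_of_eq ?_) ((mul_le_mul_of_nonneg_left e2 e3).trans_eq ?_)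
      · ring
      · rw [← hE]; ring
    · obtain e1 : ξ (s + 1) * ξ' (s + 1 - 1) - ξ (s + 1 - 1) * ξ' (s + 1) =
          -(ξ s * ((S'.a s - S.a s) * ξ s + (S'.b s * ξ' (s - 1) - S.b s * ξ (s - 1)))) := by
        rw [add_sub_cancel_right, hξ.1 s le_rfl hsn, r1 s le_rfl hsn, r2]; ring
      rw [e1, abs_neg, abs_mul]
      have ws := hw s le_rfl hsn.le
      refine mul_le_mul (hm s (by omega) hsn.le) ((abs_add_le _ _).trans ?_) (abs_nonneg _) ws.le
      rw [abs_mul]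
      obtain u1 := mul_le_mul (s2 s le_rfl hsn).2.1 (hm s (by omega) hsn.le) (abs_nonneg _)
        (by (clear * - hG hL hη ws; positivity))
      obtain this : 0 ≤ c.CG * c.L * (η * w s ^ 2) := by (clear * - hG hL hη ws; positivity)
      linarith only [r3, u1, this]
    · intro j a b
      obtain e1 : ξ (j + 1) * ξ' (j + 1 - 1) - ξ (j + 1 - 1) * ξ' (j + 1) =
          -(S.b j * (ξ j * ξ' (j - 1) - ξ (j - 1) * ξ' j) +
            ξ j * ((S'.a j - S.a j) * ξ' j + (S'.b j - S.b j) * ξ' (j - 1))) := by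
        rw [add_sub_cancel_right, hξ.1 j a.le b, r1 j a.le b]; ring
      rw [e1, abs_neg]
      refine (abs_add_le _ _).trans ?_
      rw [abs_mul, abs_mul, abs_of_nonneg (hb j a.le).1]
      have wj := hw j a.le b.le
      refine add_le_add le_rfl (mul_le_mul (hm j (by omega) b.le) ((abs_add_le _ _).trans ?_)
        (abs_nonneg _) wj.le)
      rw [abs_mul, abs_mul]
      obtain ⟨-, u1, u2⟩ := s2 j a.le b
      rw [if_neg a.ne'] at u2
      obtain u3 := mul_le_mul u1 (d2 j a.le b.le) (abs_nonneg _) (by (clear * - hG hL hη wj; positivity))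
      obtain u4 := mul_le_mul_of_nonneg_left (d2 (j - 1) (by (clear * - a; omega)) (by omega))
        (abs_nonneg (S'.b j - S.b j))
      linarith only [u2, u3, u4]

end FD

theorem fd : Hier fun c => SOK_s c → SH_s c → FD_s c :=
  FD.nm.mono fun _ N hS hH => FD.main N hS hH

end Pool.Agent.MP_9cbfe4_an

end

/-! ### Part BM -/

section

/-! Row BM: the block map (B4(iii)). -/

namespace Pool.Agent.MP_9cbfe4_an

open Finset

noncomputable section

namespace BMap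

/-- numeric facts on the constants -/
structure Nm (c : Cs) : Prop where
  k0 : 1 / 16 ≤ c.k0
  k1 : c.k0 < 1 / 2
  cg : 1 ≤ c.CG
  a0 : 0 < c.a
  a1 : c.a ≤ 1 / 2
  be : 4 ≤ c.β
  lam : 100 ≤ c.lam
  lcg : 10000 * c.CG ≤ c.lam
  ex : 2 * c.lam ^ 2 ≤ Real.exp (1 * c.lam)
  L : 1 ≤ c.L

theorem hier_Nm : Hier Nm := by
  have h1 := Hier.base
  obtain h2 := Hier.a_le (fun _ => 1 / 2) (fun _ _ _ _ _ _ => rfl) (Hier.of_all fun _ => by norm_num)
  have h3 := Hier.β_ge (fun _ => 4) fun _ _ _ => rfl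
  have h4 := Hier.lam_ge (fun _ => 100) fun _ _ => rfl
  have h5 := Hier.lam_ge (fun c => 10000 * c.CG) fun _ _ => rfl
  have h6 := Hier.pow_le_exp (fun _ => 2) (fun _ => 1) 2 (fun _ _ => rfl) (fun _ _ => rfl)
    (Hier.of_all fun _ => one_pos)
  have h7 := Hier.L_ge (fun _ => 1) fun _ _ => rfl
  exact (h1.and (h2.and (h3.and (h4.and (h5.and (h6.and h7)))))).mono fun c h =>
    ⟨h.1.1, h.1.2.1, h.1.2.2.2.2.2, h.2.1.1, h.2.1.2, h.2.2.1, h.2.2.2.1, h.2.2.2.2.1,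
      h.2.2.2.2.2.1, h.2.2.2.2.2.2⟩

variable {c : Cs}

theorem Nm.bl_ge (h : Nm c) : 4 * c.lam ≤ c.bl := by
  have := h.be; have := h.lam
  unfold Cs.bl; (rename_i zq0; nlinarith only [zq0, this])

theorem Nm.chK_lo (h : Nm c) : 2 / 3 ≤ c.chK := by
  obtain h0 : 0 < c.k0 := by linarith only [h.k0]
  obtain h2 : (2 : ℝ) ≤ 1 / c.k0 := by rw [le_div_iff₀ h0]; linarith only [h.k1]
  obtain this := Real.log_le_log (by norm_num) h2
  have := Real.log_two_gt_d9
  unfold Cs.chK; (rename_i zq0; linarith only [zq0, this])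

theorem Nm.exp_chK (h : Nm c) : Real.exp c.chK ≤ 16 := by
  obtain h0 : 0 < c.k0 := by linarith only [h.k0]
  unfold Cs.chK
  rw [Real.exp_log (by positivity), div_le_iff₀ h0]; linarith only [h.k0]

theorem Nm.chK_bl (h : Nm c) : c.chK ≤ c.bl := by
  have := h.exp_chK; have := Real.add_one_le_exp c.chK; have := h.bl_ge; have := h.lam
  (rename_i zq2 zq1 zq0; linarith only [zq2, zq1, zq0, this])

theorem Nm.ebl (h : Nm c) : Real.exp (-c.bl / 4) ≤ 1 / (2 * c.lam ^ 2) := by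
  have h1 := h.bl_ge; have h2 := h.lam; have h3 := h.ex
  obtain h4 : Real.exp (-c.bl / 4) ≤ Real.exp (-(1 * c.lam)) := Real.exp_le_exp.2 (by linarith only [h1])
  refine h4.trans ?_
  rw [Real.exp_neg, one_div]
  exact inv_anti₀ (by positivity) h3

theorem Nm.il (h : Nm c) : 1 / c.lam ^ 2 ≤ 1 / 10000 := by
  have := h.lam
  exact one_div_le_one_div_of_le (by norm_num) (by nlinarith only [this])

theorem Nm.ilc (h : Nm c) : c.CG * (1 / c.lam ^ 2) ≤ 1 / 10 ^ 6 := by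
  have h1 := h.lam; have h2 := h.lcg; have h3 := h.cg
  rw [mul_one_div, div_le_div_iff₀ (by positivity) (by positivity)]
  nlinarith only [h2, h3, h1]

theorem chi_nonneg (h : Nm c) (S : Sq) {i j : ℤ} (hij : i ≤ j) : 0 ≤ S.chi c i j := by
  have h1 := S.chi_ge c h.chK_bl hij
  obtain h2 : (0 : ℝ) ≤ (j - i : ℤ) := by exact_mod_cast sub_nonneg.2 hij
  have := h.chK_lo
  nlinarith only [h1, h2, this]

theorem chi_pred (S : Sq) {n j : ℤ} (hj : n < j) :
    S.chi c n j = S.chi c n (j - 1) + S.ch1 c j := by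
  obtain h1 := S.chi_add c (i := n) (j := j - 1) (l := j) (by omega) (by omega)
  have h2 := S.chi_succ c (j - 1)
  rw [sub_add_cancel] at h2
  rw [h1, h2]

theorem chi_one {S : Sq} {n : ℤ} (hk : S.kk (n + 1) = 0) : S.chi c n (n + 1) = c.bl := by
  rw [S.chi_succ c n, Sq.ch1, hk]; ring

/-- geometric sum over a block -/
theorem geo (h : Nm c) {S : Sq} {n : ℤ} (hk : S.kk (n + 1) = 0) {j : ℤ} (hj : n + 1 ≤ j) :
    ∑ i ∈ Ico (n + 1) j, Real.exp (-(3 / 8 * S.chi c n i)) ≤ Real.exp (-c.bl / 3) := by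
  obtain key : ∀ j, n + 1 ≤ j → ∑ i ∈ Ico (n + 1) j, Real.exp (-(3 / 8 * S.chi c n i)) ≤
      5 * (Real.exp (-(3 / 8 * c.bl)) - Real.exp (-(3 / 8 * S.chi c n j))) := by
    intro j hj
    induction j, hj using Int.leInduction with
    | base => simp [chi_one hk]
    | succ j hj ih =>
      rw [← Finset.insert_Ico_right_eq_Ico_add_one hj, sum_insert right_notMem_Ico]
      obtain h1 := chi_pred (c := c) S (n := n) (j := j + 1) (by omega)
      rw [add_sub_cancel_right] at h1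
      have h2 := (S.ch1_mem c h.chK_bl (j + 1)).1
      have h3 := h.chK_lo
      obtain h4 : Real.exp (-(3 / 8 * S.chi c n (j + 1))) ≤
          Real.exp (-(3 / 8 * S.chi c n j)) * Real.exp (-(1 / 4)) := by
        rw [← Real.exp_add]; exact Real.exp_le_exp.2 (by linarith only [h1, h2, h3])
      obtain h5 : Real.exp (-(1 / 4) : ℝ) ≤ 4 / 5 := by
        rw [Real.exp_neg, inv_le_comm₀ (Real.exp_pos _) (by norm_num)]
        linarith only [Real.add_one_le_exp (1 / 4 : ℝ)]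
      have h6 := Real.exp_pos (-(3 / 8 * S.chi c n j))
      nlinarith only [ih, h4, h5, h6]
  have h1 := key j hj
  have h2 := Real.exp_pos (-(3 / 8 * S.chi c n j))
  obtain h3 : Real.exp (-c.bl / 3) = Real.exp (-(3 / 8 * c.bl)) * Real.exp (c.bl / 24) := by
    rw [← Real.exp_add]; congr 1; ring
  have h4 := Real.add_one_le_exp (c.bl / 24)
  have h5 := h.bl_ge; have h6 := h.lam
  have h7 := Real.exp_pos (-(3 / 8 * c.bl))
  rw [h3]; nlinarith only [h1, h2, h7, h4, h5, h6]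

theorem st_fr {S : Sq} {n : ℤ} (hn : 0 ≤ n) : S.St c (S.fr (n + 1)) (n + 1) :=
  ⟨by omega, S.fr_sol _, S.fr_self _, by
    rw [S.fr_lt (by omega), abs_zero]; exact (Real.exp_pos _).le⟩

theorem wp_pos (S : Sq) {n j : ℤ} (hj : n < j) : 0 < S.wp c n j :=
  S.wh_pos c (by rw [S.fr_self]; exact one_ne_zero) (by omega)

theorem wp_self (S : Sq) (n : ℤ) : S.wp c n n = 0 := by
  refine le_antisymm (S.wh_le c _ le_rfl fun i h1 h2 => ?_) (S.wh_nonneg c _ _ _)
  rw [S.fr_lt (by omega)]; simp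

theorem exp_Wp (S : Sq) (n j : ℤ) :
    Real.exp (S.Wp c n j) = S.AA c (S.fr (n + 1)) (n + 1) j :=
  Real.exp_log (lt_of_lt_of_le one_pos (S.one_le_AA c _ _ _))

/-- `|fr (i+1) j| L wp i ≤ e^{(a/8) χ(n,i)} wp j` -/
theorem fr_le {S : Sq} {n J : ℤ} {Ls : List (ℤ × ℝ)} (hB : S.BInv c n Ls J) {i j : ℤ}
    (h1 : n < i) (h2 : i < j) (h3 : j ≤ J) :
    |S.fr (i + 1) j| * c.L * S.wp c n i ≤ Real.exp (c.a / 8 * S.chi c n i) * S.wp c n j := by
  obtain h4 := (hB.i6 i h1 (by omega)).2.2.2 j h2 h3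
  obtain h5 := wp_pos (c := c) S (n := n) (j := j) (by omega)
  rw [Sq.Bc, div_le_iff₀ h5] at h4
  refine h4.trans (mul_le_mul_of_nonneg_right ?_ h5.le)
  have := Real.exp_pos (-S.chi c i J / 4)
  have := Real.exp_pos (c.a / 8 * S.chi c n i)
  (rename_i zq0; nlinarith only [zq0, this])

/-- the majorant of the block -/
def ww (c : Cs) (S : Sq) (n : ℤ) (η v : ℝ) (j : ℤ) : ℝ :=
  v / η * S.wp c n j + Real.exp (-S.chi c n j / 2)
def Aa (c : Cs) (S : Sq) (n : ℤ) (η v : ℝ) (j : ℤ) : ℝ :=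
  (3 * v * Real.exp (S.Wp c n j) + Real.exp (-c.bl / 4)) / η

theorem ww_eq (S : Sq) (n : ℤ) {η : ℝ} (hη : 0 < η) (v : ℝ) (j : ℤ) :
    η * ww c S n η v j = v * S.wp c n j + η * Real.exp (-S.chi c n j / 2) := by
  unfold ww; field_simp

theorem Aa_eq (S : Sq) (n : ℤ) {η : ℝ} (hη : 0 < η) (v : ℝ) (j : ℤ) :
    η * Aa c S n η v j = 3 * v * Real.exp (S.Wp c n j) + Real.exp (-c.bl / 4) := by
  unfold Aa; field_simp

theorem E_pred (S : Sq) {n j : ℤ} (hj : n < j) :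
    Real.exp (-S.chi c n (j - 1) / 2) = Real.exp (S.ch1 c j / 2) * Real.exp (-S.chi c n j / 2) := by
  rw [← Real.exp_add, chi_pred S hj]; congr 1; ring

theorem cert (h : Nm c) {S : Sq} (hS : S.OK c) {n J : ℤ} {Ls : List (ℤ × ℝ)} (hn : 0 ≤ n)
    (hJ : n + 1 ≤ J) (hB : S.BInv c n Ls J) {η v : ℝ} (hη : 0 < η) (hv : 2 * η ^ 2 ≤ v) :
    S.Cert c (2 / 100) (ww c S n η v) (Aa c S n η v) (n + 1) J := by
  obtain hv0 : 0 < v := lt_of_lt_of_le (by positivity) hv
  have hq : 0 < v / η := div_pos hv0 hη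
  have hL := h.L
  obtain ⟨hC, -, -⟩ := Sq.cert_wh hS h.k0 h.k1 (by linarith only [h.lam]) h.chK_bl (st_fr (c := c) hn) hJ
  refine ⟨?_, ?_, ?_, ?_, ?_, ?_, ?_, ?_⟩
  · have := S.wh_nonneg c (S.fr (n + 1)) (n + 1) (n + 1 - 1)
    unfold ww Sq.wp; (clear * - hv0 hη this; positivity)
  · intro j h1 _
    obtain this := wp_pos (c := c) S (n := n) (j := j) (by omega)
    unfold ww; (clear * - hv0 hη this; positivity)
  · intro j h1 h2 h3 h4
    have h5 := hC.backK j h1 h2 h3 h4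
    obtain h6 := E_pred (c := c) S (n := n) (j := j) (by omega)
    obtain h7 : S.ch1 c j = c.chK := by rw [Sq.ch1, (S.kk_eq_one).2 ⟨h3, h4⟩]; ring
    obtain h8 : Real.exp (S.ch1 c j / 2) ≤ 16 :=
      (Real.exp_le_exp.2 (by rw [h7]; linarith only [h.chK_lo])).trans h.exp_chK
    have h9 := Real.exp_pos (-S.chi c n j / 2)
    have h10 := mul_le_mul_of_nonneg_left h5 hq.le
    unfold ww Sq.wp; rw [h6]; nlinarith only [h10, h8, h9]
  · intro j h1 h2
    have h5 := hC.back j h1 h2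
    obtain h6 := E_pred (c := c) S (n := n) (j := j) (by omega)
    obtain h8 : Real.exp (S.ch1 c j / 2) ≤ Real.exp (c.bl / 2) :=
      Real.exp_le_exp.2 (by linarith only [(S.ch1_mem c h.chK_bl j).2])
    have h9 := Real.exp_pos (-S.chi c n j / 2)
    have h10 := mul_le_mul_of_nonneg_left h5 hq.le
    have h11 := mul_pos (Real.exp_pos (c.bl / 2)) h9
    have h12 := mul_le_mul_of_nonneg_right h8 h9.le
    unfold ww Sq.wp; rw [h6]; linarith only [h10, h11, h12]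
  · intro j h1 h2
    have h5 := hC.fwd j h1 h2
    obtain h6 := chi_pred (c := c) S (n := n) (j := j + 1) (by omega)
    rw [add_sub_cancel_right] at h6
    obtain h8 : Real.exp (-S.chi c n (j + 1) / 2) ≤ Real.exp (-S.chi c n j / 2) :=
      Real.exp_le_exp.2 (by linarith only [h6, (S.ch1_mem c h.chK_bl (j + 1)).1, h.chK_lo])
    have h9 := Real.exp_pos (-S.chi c n j / 2)
    have h10 := mul_le_mul_of_nonneg_left h5 hq.le
    unfold ww Sq.wp; nlinarith only [h8, h9, h10, hL]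
  · intro i j _ h2 _
    have h3 := S.AA_mono c (S.fr (n + 1)) (n + 1) h2
    unfold Aa; rw [exp_Wp, exp_Wp]; gcongr
  · unfold Aa; (clear * - hv0 hη; positivity)
  · intro j h1 h2
    have h3 := hC.dd j h1 h2
    have h4 := geo h hB.kz.1 h1
    obtain hw := wp_pos (c := c) S (n := n) (j := j) (by omega)
    obtain h5 : S.DD c (ww c S n η v) (n + 1) j ≤
        2 * (v / η) ^ 2 * S.DD c (S.wp c n) (n + 1) j +
          2 * S.wp c n j * ∑ i ∈ Ico (n + 1) j, Real.exp (-(3 / 8 * S.chi c n i)) := by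
      unfold Sq.DD
      rw [mul_sum, mul_sum, ← sum_add_distrib]
      refine sum_le_sum fun i hi => ?_
      obtain ⟨hi1, hi2⟩ := mem_Ico.1 hi
      obtain g1 := fr_le hB (i := i) (j := j) (by omega) hi2 h2
      obtain g2 := (hB.i6 i (by omega) (by omega)).2.1
      obtain g0 := chi_nonneg h S (i := n) (j := i) (by omega)
      obtain g3 : 0 ≤ |S.fr (i + 1) j| * c.L := by (clear * - hL; positivity)
      obtain g4 : |S.fr (i + 1) j| * c.L * Real.exp (-S.chi c n i / 2) ^ 2 ≤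
          S.wp c n j * Real.exp (-(3 / 8 * S.chi c n i)) := by
        obtain e1 : Real.exp (-S.chi c n i / 2) ^ 2 = Real.exp (-(c.a / 8 * S.chi c n i)) *
            Real.exp (c.a / 8 * S.chi c n i - S.chi c n i) := by
          rw [← Real.exp_add, sq, ← Real.exp_add]; congr 1; ring
        obtain e2 : Real.exp (c.a / 8 * S.chi c n i) * Real.exp (c.a / 8 * S.chi c n i - S.chi c n i)
            ≤ Real.exp (-(3 / 8 * S.chi c n i)) := by
          rw [← Real.exp_add]; exact Real.exp_le_exp.2 (by nlinarith only [g0, h.a1])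
        have e3 := Real.exp_pos (c.a / 8 * S.chi c n i - S.chi c n i)
        calc _ = |S.fr (i + 1) j| * c.L * Real.exp (-(c.a / 8 * S.chi c n i)) *
              Real.exp (c.a / 8 * S.chi c n i - S.chi c n i) := by rw [e1]; ring
          _ ≤ |S.fr (i + 1) j| * c.L * S.wp c n i *
              Real.exp (c.a / 8 * S.chi c n i - S.chi c n i) := by (clear * - g2 hL; gcongr)
          _ ≤ Real.exp (c.a / 8 * S.chi c n i) * S.wp c n j *
              Real.exp (c.a / 8 * S.chi c n i - S.chi c n i) := by gcongr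
          _ = S.wp c n j * (Real.exp (c.a / 8 * S.chi c n i) *
              Real.exp (c.a / 8 * S.chi c n i - S.chi c n i)) := by ring
          _ ≤ _ := by gcongr
      obtain g5 : ww c S n η v i ^ 2 ≤
          2 * (v / η) ^ 2 * S.wp c n i ^ 2 + 2 * Real.exp (-S.chi c n i / 2) ^ 2 := by
        unfold ww
        linarith only [sq_nonneg (v / η * S.wp c n i - Real.exp (-S.chi c n i / 2))]
      have g6 := mul_le_mul_of_nonneg_left g5 g3
      linarith only [g4, g6]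
    obtain h6 : Real.exp (-c.bl / 3) ≤ Real.exp (-c.bl / 4) :=
      Real.exp_le_exp.2 (by linarith only [h.bl_ge, h.lam])
    have hA := S.one_le_AA c (S.fr (n + 1)) (n + 1) j
    obtain h7 : 2 ≤ v / η / η := by rw [div_div, le_div_iff₀ (by positivity)]; linarith only [hv]
    obtain h8 : Aa c S n η v j * (v / η * S.wp c n j) =
        3 * (v / η) ^ 2 * (S.AA c (S.fr (n + 1)) (n + 1) j * S.wp c n j) +
          v / η / η * (Real.exp (-c.bl / 4) * S.wp c n j) := by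
      unfold Aa; rw [exp_Wp]; field_simp
    obtain h9 : Aa c S n η v j * (v / η * S.wp c n j) ≤ Aa c S n η v j * ww c S n η v j := by
      refine mul_le_mul_of_nonneg_left ?_ (by unfold Aa; positivity)
      unfold ww; linarith only [Real.exp_pos (-S.chi c n j / 2)]
    obtain h10 : 2 * (v / η) ^ 2 * S.DD c (S.wp c n) (n + 1) j ≤
        2 * (v / η) ^ 2 * (S.AA c (S.fr (n + 1)) (n + 1) j * S.wp c n j) :=
      mul_le_mul_of_nonneg_left h3 (by positivity)
    obtain h11 : 0 ≤ (v / η) ^ 2 * (S.AA c (S.fr (n + 1)) (n + 1) j * S.wp c n j) := by (clear * - hv0 hη hA hw; positivity)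
    obtain h12 := mul_le_mul_of_nonneg_left (h4.trans h6) (show 0 ≤ 2 * S.wp c n j by (clear * - hw; positivity))
    obtain h13 := mul_le_mul_of_nonneg_right h7
      (show 0 ≤ Real.exp (-c.bl / 4) * S.wp c n j by positivity)
    linarith only [h5, h8, h9, h10, h11, h12, h13]

theorem Nm.eb (h : Nm c) : Real.exp (-c.bl) ≤ 1 / 10000 := by
  obtain h1 : Real.exp (-c.bl) ≤ Real.exp (-c.bl / 4) :=
    Real.exp_le_exp.2 (by linarith only [h.bl_ge, h.lam])
  have h2 := h.ebl; have h3 := h.il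
  obtain h4 : 1 / (2 * c.lam ^ 2) = 1 / c.lam ^ 2 / 2 := by rw [div_div, mul_comm]
  linarith only [h1, h2, h3, h4, Real.exp_pos (-c.bl)]

theorem dl_eq (c : Cs) : c.dl = Real.exp (-c.bl) ^ 2 := by
  rw [Cs.dl, sq, ← Real.exp_add]; congr 1; ring

theorem arithY {K e u z d τ D g q : ℝ} (hK : 1 ≤ K) (he0 : 0 < e) (he : e ≤ 1 / 10000)
    (hu0 : 0 ≤ u) (hu : u ≤ 1 / 10000) (hd0 : 0 ≤ d) (hd : e * d ≤ 4 * D) (hD : D ≤ 1 / 10000)
    (hτ0 : 0 ≤ τ) (hτ : τ ≤ 1 / 10000) (hz0 : 0 ≤ z) (hz : z ≤ d + u) (hg : g ≤ e ^ 2)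
    (hq : q ≤ K * u ^ 2 + e ^ 2 * (u * z + z ^ 2) + e ^ 2 * (τ ^ 2 + τ * (u + z))) :
    q + D + g * τ ≤ 2 * K * u ^ 2 + 2 * D + 2 * e ^ 2 * τ := by
  obtain hed : 0 ≤ e * d := by positivity
  obtain hD0 : 0 ≤ D := by linarith only [hd, hed]
  obtain h1 : e * z ≤ 4 * D + e * u := by nlinarith only [hd, he0, hz]
  obtain hez : 0 ≤ e * z := by positivity
  obtain heu : 0 ≤ e * u := by positivity
  obtain h2 : (e * z) ^ 2 ≤ 32 * D ^ 2 + 2 * (e * u) ^ 2 := by
    linarith only [pow_le_pow_left₀ hez h1 2, sq_nonneg (4 * D - e * u)]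
  have h3 : (e * u) * (e * z) ≤ (e * u) * (4 * D + e * u) := mul_le_mul_of_nonneg_left h1 heu
  obtain h4 : (e * τ) * (e * z) ≤ (e * τ) * (4 * D + e * u) :=
    mul_le_mul_of_nonneg_left h1 (by positivity)
  obtain h5 : (e * u) ^ 2 ≤ u ^ 2 / 10 := by
    rw [mul_pow]; nlinarith only [sq_nonneg u, mul_le_mul he he he0.le (by norm_num : (0 : ℝ) ≤ 1 / 10000)]
  obtain h6 : e * u ≤ 1 / 100 := by nlinarith only [he, he0, hu]
  obtain h7 : e * τ ≤ 1 / 100 := by nlinarith only [he, he0, hτ]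
  obtain h8 : e * u * (4 * D) ≤ D / 10 := by nlinarith only [hd, hed, he0, he, h6]
  obtain h9 : e * τ * (4 * D) ≤ D / 10 := by nlinarith only [hd, hed, he0, he, h7]
  obtain h10 : 32 * D ^ 2 ≤ D / 10 := by nlinarith only [he0, he, hd, hD, hed]
  have h11 : g * τ ≤ e ^ 2 * τ := mul_le_mul_of_nonneg_right hg hτ0
  obtain h12 : e ^ 2 * τ * (τ + 2 * u) ≤ e ^ 2 * τ * 1 :=
    mul_le_mul_of_nonneg_left (by linarith only [he0, he, hu, hτ]) (by positivity)
  obtain h13 : u ^ 2 ≤ K * u ^ 2 := by nlinarith only [hK, sq_nonneg u]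
  nlinarith only [hq, h2, h3, h4, h5, h8, h9, h10, h11, h12, h13, sq_nonneg u]

/-- the first step after the fold -/
theorem first (h : Nm c) {M : Mdl} {t t' : ℝ} {S S' : Sq} {ξ : ℤ → ℝ} {n : ℤ} {D1 : ℝ}
    (hM : M.OK c) (ht : TI t) (ht' : TI t') (ho : IsOrb c M t S n) (ho' : IsOrb c M t' S' n)
    (hS : S.OK c) (hO : S.Out c ξ n) (hz : 5 / 100 ≤ dP (S.X n))
    (hu : |S'.X n - S.X n| ≤ 1 / c.lam ^ 2)
    (hD : S.b n * |S'.X (n - 1) - S.X (n - 1) - ξ (n - 1) / ξ n * (S'.X n - S.X n)| ≤ D1)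
    (hD1 : D1 ≤ 1 / c.lam ^ 2) (hτ : |t' - t| ≤ 1 / c.lam ^ 2) :
    |S'.X (n + 1) - S.X (n + 1) - (S'.X n - S.X n) * (ξ (n + 1) / ξ n) - (t' - t)| ≤
      2 * c.CG * c.L * (S'.X n - S.X n) ^ 2 + 2 * D1 + 2 * c.dl * |t' - t| := by
  obtain ⟨hn, hsol, h0, hsl⟩ := hO
  have il := h.il
  obtain b1 := ho.box n (by omega); have b2 := ho.box (n - 1) le_rfl
  obtain b3 := ho'.box n (by omega); have b4 := ho'.box (n - 1) le_rfl
  obtain hT := (hM.tay t t' _ _ _ _ c.dl ht ht' b1 b2 b3 b4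
    ⟨by linarith only [hu, il], Or.inl ⟨rfl, Or.inl (by linarith only [hz, hu, il])⟩⟩).1
  have hG := hM.t_all t _ _ ht b1 b2
  rw [← ho.step n le_rfl, ← ho'.step n le_rfl, ← ho.ha n le_rfl, ← ho.hb n le_rfl] at hT
  have hb := hS.b_lo n hn
  have he := Real.exp_pos (-c.bl)
  obtain hs : |ξ (n - 1) / ξ n| ≤ 1 := by
    rw [abs_div, div_le_one (abs_pos.2 h0)]
    refine hsl.trans (mul_le_of_le_one_left (abs_nonneg _) ?_)
    exact Real.exp_le_one_iff.2 (by linarith only [h.lam])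
  obtain hr : ξ (n + 1) / ξ n = S.a n + S.b n * (ξ (n - 1) / ξ n) := by
    rw [hsol n le_rfl]; field_simp
  rw [hr]
  generalize S'.X (n + 1) - S.X (n + 1) = Z1 at *
  generalize S'.X n - S.X n = u at *
  generalize S'.X (n - 1) - S.X (n - 1) = z at *
  generalize ξ (n - 1) / ξ n = s at *
  generalize M.Gt t (S.X n) (S.X (n - 1)) = g at *
  generalize t' - t = τ at *
  obtain e1 : Z1 - u * (S.a n + S.b n * s) - τ =
      (Z1 - S.a n * u - S.b n * z - g * τ) + S.b n * (z - s * u) + (g - 1) * τ := by ring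
  obtain e2 : |S.b n * (z - s * u)| ≤ D1 := by
    rw [abs_mul, abs_of_pos (by linarith only [hb, he])]; exact hD
  obtain e3 : |z| ≤ |z - s * u| + |u| := by
    obtain this : |s * u| ≤ |u| := by rw [abs_mul]; exact mul_le_of_le_one_left (abs_nonneg _) hs
    have := abs_add_le (z - s * u) (s * u)
    rw [sub_add_cancel] at this; (rename_i zq0; linarith only [zq0, this])
  obtain e4 : Real.exp (-c.bl) * |z - s * u| ≤ 4 * D1 := by nlinarith only [hD, hb, abs_nonneg (z - s * u)]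
  obtain e5 := arithY (K := c.CG * c.L) (q := |Z1 - S.a n * u - S.b n * z - g * τ|) (g := |g - 1|)
    (by nlinarith only [h.cg, h.L]) he h.eb (abs_nonneg u) (by linarith only [il, hu]) (abs_nonneg _) e4 (by linarith only [hD1, il])
    (abs_nonneg τ) (by linarith only [il, hτ]) (abs_nonneg z) e3 (by rw [← dl_eq]; exact hG)
    (by rw [← dl_eq, sq_abs, sq_abs, sq_abs]; exact hT)
  rw [← dl_eq, sq_abs] at e5
  rw [e1]
  refine (abs_add_three _ _ _).trans ?_
  rw [abs_mul (g - 1)]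
  linarith only [e2, e5]

/-- the linear part -/
def zz (S S' : Sq) (ξ : ℤ → ℝ) (n J : ℤ) (Y : ℝ) (j : ℤ) : ℝ :=
  (S'.X n - S.X n) * (ξ j / ξ n - S.rho ξ n J * S.fr (n + 1) j) + Y * S.fr (n + 1) j
def YY (S S' : Sq) (ξ : ℤ → ℝ) (n J : ℤ) : ℝ :=
  S'.X (n + 1) - S.X (n + 1) - (S'.X n - S.X n) * (ξ (n + 1) / ξ n - S.rho ξ n J)

/-- the hypotheses of `BM_s` -/
structure Hy (c : Cs) (M : Mdl) (t t' : ℝ) (S S' : Sq) (ξ : ℤ → ℝ) (n : ℤ) (Ls : List (ℤ × ℝ))
    (J : ℤ) (η D1 v : ℝ) : Prop where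
  hM : M.OK c
  ht : TI t
  ht' : TI t'
  ho : IsOrb c M t S n
  ho' : IsOrb c M t' S' n
  hS : S.OK c
  hO : S.Out c ξ n
  hR : S.RInv c (S.fr (n + 1)) (n + 1) J
  hB : S.BInv c n Ls J
  hu : |S'.X n - S.X n| ≤ η
  η0 : 0 < η
  η1 : η ≤ 1 / c.lam ^ 2
  hD : S.b n * |S'.X (n - 1) - S.X (n - 1) - ξ (n - 1) / ξ n * (S'.X n - S.X n)| ≤ D1
  hD1 : D1 ≤ 1 / c.lam ^ 2
  hv : |S.rho ξ n J| * η + 2 * c.CG * c.L * η ^ 2 + 2 * D1 + 2 * |t' - t| ≤ v
  par : ∀ j, n + 1 < j → j ≤ J →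
    |t' - t| * ∑ i ∈ Ico (n + 1) j, |S.fr (i + 1) j| ≤ v * S.wp c n j
  sm : v * Real.exp (S.Wp c n J) ≤ 1 / (10 * c.lam ^ 2)

variable {M : Mdl} {t t' : ℝ} {S S' : Sq} {ξ : ℤ → ℝ} {n : ℤ} {Ls : List (ℤ × ℝ)} {J : ℤ}
  {η D1 v : ℝ}

theorem Hy.D0 (H : Hy c M t t' S S' ξ n Ls J η D1 v) : 0 ≤ D1 :=
  le_trans (mul_nonneg (le_trans (by positivity) (H.hS.b_lo n H.hO.1)) (abs_nonneg _)) H.hD

theorem Hy.v2 (h : Nm c) (H : Hy c M t t' S S' ξ n Ls J η D1 v) : 2 * η ^ 2 ≤ v := by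
  have h1 := H.hv; have h2 := H.D0; have h3 := H.η0
  obtain h4 : 0 ≤ |S.rho ξ n J| * η := by (clear * - h3; positivity)
  obtain h5 : 1 ≤ c.CG * c.L := by nlinarith only [h.cg, h.L]
  nlinarith only [h1, h2, h4, h5, abs_nonneg (t' - t), sq_nonneg η]

theorem Hy.v0 (h : Nm c) (H : Hy c M t t' S S' ξ n Ls J η D1 v) : 0 < v :=
  lt_of_lt_of_le (by have := H.η0; positivity) (H.v2 h)

theorem Hy.smj (h : Nm c) (H : Hy c M t t' S S' ξ n Ls J η D1 v) {j : ℤ} (hj : j ≤ J) :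
    v * Real.exp (S.Wp c n j) ≤ 1 / c.lam ^ 2 / 10 := by
  have h1 := H.sm
  have h2 := S.AA_mono c (S.fr (n + 1)) (n + 1) hj
  rw [exp_Wp] at h1 ⊢
  rw [div_div, mul_comm _ 10]
  exact (mul_le_mul_of_nonneg_left h2 (H.v0 h).le).trans h1

theorem Hy.v1 (h : Nm c) (H : Hy c M t t' S S' ξ n Ls J η D1 v) : v ≤ 1 / c.lam ^ 2 / 10 := by
  have h1 := H.smj h le_rfl
  rw [exp_Wp] at h1
  nlinarith only [h1, S.one_le_AA c (S.fr (n + 1)) (n + 1) J, H.v0 h]

theorem Hy.tau (h : Nm c) (H : Hy c M t t' S S' ξ n Ls J η D1 v) : 2 * |t' - t| ≤ v := by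
  have h1 := H.hv; have h2 := H.D0; have h3 := H.η0
  obtain h4 : 0 ≤ |S.rho ξ n J| * η := by positivity
  obtain h5 : 0 ≤ 2 * c.CG * c.L * η ^ 2 := by have := h.cg; have := h.L; positivity
  linarith only [h1, h2, h4, h5]

theorem Hy.Yb (h : Nm c) (H : Hy c M t t' S S' ξ n Ls J η D1 v) :
    |YY S S' ξ n J - S.rho ξ n J * (S'.X n - S.X n) - (t' - t)| ≤
      2 * c.CG * c.L * (S'.X n - S.X n) ^ 2 + 2 * D1 + 2 * c.dl * |t' - t| := by
  obtain h1 := first h H.hM H.ht H.ht' H.ho H.ho' H.hS H.hO H.hB.kz.2.1 (H.hu.trans H.η1) H.hD H.hD1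
    (by linarith only [H.tau h, H.v1 h, H.v0 h])
  convert h1 using 2
  unfold YY; ring

theorem Hy.Yv (h : Nm c) (H : Hy c M t t' S S' ξ n Ls J η D1 v) : |YY S S' ξ n J| ≤ v := by
  have h1 := H.Yb h; have h2 := H.hv
  obtain h3 : |S.rho ξ n J * (S'.X n - S.X n)| ≤ |S.rho ξ n J| * η := by
    rw [abs_mul]; exact mul_le_mul_of_nonneg_left H.hu (abs_nonneg _)
  obtain h4 : (S'.X n - S.X n) ^ 2 ≤ η ^ 2 := by
    rw [← sq_abs]; exact pow_le_pow_left₀ (abs_nonneg _) H.hu 2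
  obtain h5 : 2 * c.CG * c.L * (S'.X n - S.X n) ^ 2 ≤ 2 * c.CG * c.L * η ^ 2 :=
    mul_le_mul_of_nonneg_left h4 (by have := h.cg; have := h.L; positivity)
  obtain h6 : 2 * c.dl ≤ 1 := by
    rw [dl_eq]; nlinarith only [h.eb, Real.exp_pos (-c.bl)]
  have h7 := mul_le_mul_of_nonneg_right h6 (abs_nonneg (t' - t))
  have h8 := abs_add_three (YY S S' ξ n J - S.rho ξ n J * (S'.X n - S.X n) - (t' - t))
    (S.rho ξ n J * (S'.X n - S.X n)) (t' - t)
  rw [show YY S S' ξ n J - S.rho ξ n J * (S'.X n - S.X n) - (t' - t) +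
    S.rho ξ n J * (S'.X n - S.X n) + (t' - t) = YY S S' ξ n J by ring] at h8
  linarith only [h1, h2, h3, h5, h7, h8]

theorem zz_one (S S' : Sq) (ξ : ℤ → ℝ) (n J : ℤ) :
    zz S S' ξ n J (YY S S' ξ n J) (n + 1) = S'.X (n + 1) - S.X (n + 1) := by
  unfold zz YY; rw [S.fr_self]; ring

/-- `|ζ j| ≤ v wp j + η E j` -/
theorem Hy.zb (h : Nm c) (hρ : RHO_s c) (H : Hy c M t t' S S' ξ n Ls J η D1 v) {j : ℤ}
    (h1 : n ≤ j) (h2 : j ≤ J) : |zz S S' ξ n J (YY S S' ξ n J) j| ≤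
      v * S.wp c n j + η * Real.exp (-S.chi c n j / 2) := by
  obtain g1 : |ξ j / ξ n - S.rho ξ n J * S.fr (n + 1) j| ≤ Real.exp (-S.chi c n j / 2) := by
    rcases h1.eq_or_lt with rfl | h1
    · rw [S.fr_lt (by omega), div_self H.hO.2.2.1, S.chi_self]; simp
    · refine ((hρ S ξ n Ls J H.hS H.hO H.hR H.hB).1 j h1 h2).trans (Real.exp_le_exp.2 ?_)
      nlinarith only [chi_nonneg h S h1.le, h.a1]
  obtain g2 : |S.fr (n + 1) j| ≤ S.wp c n j := S.abs_le_wh c _ (by omega)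
  unfold zz
  refine (abs_add_le _ _).trans ?_
  rw [abs_mul, abs_mul, add_comm]
  exact add_le_add (mul_le_mul (H.Yv h) g2 (abs_nonneg _) (H.v0 h).le)
    (mul_le_mul H.hu g1 (abs_nonneg _) H.η0.le)

theorem wp_one (S : Sq) (n : ℤ) : S.wp c n (n + 1) = 1 := by
  have h1 := S.wh_succ c (S.fr (n + 1)) (s := n + 1) (j := n + 1) le_rfl
  have h2 := wp_self (c := c) S n
  unfold Sq.wp at *
  rw [h1, add_sub_cancel_right, h2, S.fr_self]; simp

/-- `|Z (n+1)| ≤ v + η e^{-bl/2}` -/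
theorem Hy.Z1 (h : Nm c) (hρ : RHO_s c) (H : Hy c M t t' S S' ξ n Ls J η D1 v) :
    |S'.X (n + 1) - S.X (n + 1)| ≤ v + η * Real.exp (-c.bl / 2) := by
  obtain h1 := H.zb h hρ (j := n + 1) (by omega) H.hR.le
  rwa [zz_one, wp_one, mul_one, chi_one H.hB.kz.1] at h1

theorem Hy.pair (h : Nm c) (hρ : RHO_s c) (H : Hy c M t t' S S' ξ n Ls J η D1 v) :
    Pair c (S.X (n + 1)) (S.X n) (S'.X (n + 1)) (S'.X n) c.dl := by
  have h1 := H.Z1 h hρ
  obtain h2 : Real.exp (-c.bl / 2) ≤ 1 := Real.exp_le_one_iff.2 (by linarith only [h.bl_ge, h.lam])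
  have h3 := mul_le_mul_of_nonneg_left h2 H.η0.le
  obtain h4 : |S'.X (n + 1) - S.X (n + 1)| ≤ 1 / 1000 := by linarith only [h1, h3, H.v1 h, H.η1, h.il]
  exact ⟨by linarith only [h4], Or.inl ⟨rfl, Or.inl (by linarith only [h4, H.hB.kz.2.2])⟩⟩

/-- `|b' (n+1) - b (n+1)| ≤ 2 dl (v + η)` -/
theorem Hy.db (h : Nm c) (hρ : RHO_s c) (H : Hy c M t t' S S' ξ n Ls J η D1 v) :
    |S'.b (n + 1) - S.b (n + 1)| ≤ 2 * c.dl * (v + η) := by
  obtain hT := (H.hM.tay t t' _ _ _ _ c.dl H.ht H.ht' (H.ho.box (n + 1) (by omega))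
    (H.ho.box n (by omega)) (H.ho'.box (n + 1) (by omega)) (H.ho'.box n (by omega))
    (H.pair h hρ)).2.2
  rw [H.ho.hb (n + 1) (by omega), H.ho'.hb (n + 1) (by omega), add_sub_cancel_right]
  refine hT.trans ?_
  have h1 := H.Z1 h hρ
  obtain h2 : Real.exp (-c.bl / 2) ≤ 1 := Real.exp_le_one_iff.2 (by linarith only [h.bl_ge, h.lam])
  have h3 := mul_le_mul_of_nonneg_left h2 H.η0.le
  have h4 : 0 ≤ c.dl := (Real.exp_pos _).le
  obtain h5 : |S'.X (n + 1) - S.X (n + 1)| + |S'.X n - S.X n| + |t' - t| ≤ 2 * (v + η) := by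
    linarith only [h1, h3, H.hu, H.tau h, H.v0 h]
  linarith only [mul_le_mul_of_nonneg_left h5 h4]

theorem Hy.shh (h : Nm c) (hk : SOK_s c) (hρ : RHO_s c) (H : Hy c M t t' S S' ξ n Ls J η D1 v) :
    ShH c M t t' S S' (2 / 100) (ww c S n η v) (Aa c S n η v) (zz S S' ξ n J (YY S S' ξ n J)) η
      (n + 1) J := by
  have hη := H.η0; have hv := H.v0 h
  obtain hK : 1 ≤ 100 * c.CG * c.L := by nlinarith only [h.cg, h.L]
  have he := Real.exp_pos (-c.bl)
  obtain hw : η * Real.exp (-c.bl / 2) ≤ η * ww c S n η v (n + 1) := by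
    rw [ww_eq S n hη, wp_one, chi_one H.hB.kz.1]; linarith only [hv]
  obtain he2 : Real.exp (-c.bl / 2) ^ 2 = Real.exp (-c.bl) := by
    rw [sq, ← Real.exp_add]; congr 1; ring
  obtain he3 : c.dl ≤ Real.exp (-c.bl) := by rw [dl_eq]; nlinarith only [he, he2, h.eb]
  obtain he4 : Real.exp (-c.bl) ≤ Real.exp (-c.bl / 2) :=
    Real.exp_le_exp.2 (by linarith only [h.bl_ge, h.lam])
  obtain hw0 : 0 < η * Real.exp (-c.bl / 2) := by positivity
  refine ⟨H.hM, H.ht, H.ht', ((hk M H.hM t H.ht).2.2 S n (n + 1) H.ho (by omega)).1,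
    ((hk M H.hM t' H.ht').2.2 S' n (n + 1) H.ho' (by omega)).1, H.hR.le, by norm_num, le_rfl,
    cert h H.hS H.hO.1 H.hR.le H.hB hη (H.v2 h), hη.le, ?_, ⟨?_, ?_⟩, zz_one S S' ξ n J, ?_,
    ⟨c.dl, ?_, ?_, ?_⟩, ?_⟩
  · rw [Aa_eq S n hη]
    have h1 := H.smj h le_rfl; have h2 := h.ebl
    obtain h4 : 1 / (2 * c.lam ^ 2) = 1 / c.lam ^ 2 / 2 := by rw [div_div, mul_comm]
    obtain this : 0 ≤ 1 / c.lam ^ 2 := by (clear * -; positivity)
    linarith only [h1, h2, h4, this]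
  · intro j h1 _
    unfold zz
    rw [H.hO.2.1 j (by omega), S.fr_sol (n + 1) j h1]; ring
  · intro j h1 h2
    refine (H.zb h hρ (by omega) h2).trans ?_
    rw [mul_assoc, ww_eq S n hη]
    have := S.wh_nonneg c (S.fr (n + 1)) (n + 1) j
    obtain this : 0 ≤ v * S.wp c n j + η * Real.exp (-S.chi c n j / 2) := by unfold Sq.wp; (clear * - hv this hη; positivity)
    linarith only [this]
  · rw [add_sub_cancel_right]
    unfold zz
    rw [S.fr_lt (by omega), div_self H.hO.2.2.1]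
    simp only [mul_zero, sub_zero, mul_one, add_zero, sub_self, abs_zero]
    (clear * - hK; positivity)
  · rw [add_sub_cancel_right]; exact H.pair h hρ
  · rw [add_sub_cancel_right]
    calc _ ≤ Real.exp (-c.bl / 2) * η := mul_le_mul (he3.trans he4) H.hu (abs_nonneg _) (by positivity)
      _ ≤ 1 * (η * ww c S n η v (n + 1)) := by linarith only [hw]
      _ ≤ _ := mul_le_mul_of_nonneg_right hK (by linarith only [hw, hw0])
  · rw [add_sub_cancel_right]
    obtain h4 : (S'.X n - S.X n) ^ 2 ≤ η ^ 2 := by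
      rw [← sq_abs]; exact pow_le_pow_left₀ (abs_nonneg _) H.hu 2
    calc _ ≤ Real.exp (-c.bl) * η ^ 2 := mul_le_mul he3 h4 (sq_nonneg _) he.le
      _ = (η * Real.exp (-c.bl / 2)) ^ 2 := by rw [mul_pow, he2]; ring
      _ ≤ 1 * (η * ww c S n η v (n + 1)) ^ 2 := by
        rw [one_mul]; exact pow_le_pow_left₀ hw0.le hw 2
      _ ≤ _ := mul_le_mul_of_nonneg_right hK (sq_nonneg _)
  · intro j h1 h2
    refine (H.par j h1 h2).trans ?_
    rw [ww_eq S n hη]
    obtain this : 0 < η * Real.exp (-S.chi c n j / 2) := by positivity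
    linarith only [this]

theorem ww_ratio (S : Sq) {n l : ℤ} (hl : n < l) {η v : ℝ} :
    ww c S n η v l * S.wp c n (l - 1) ≤ S.wp c n l * ww c S n η v (l - 1) := by
  obtain h1 := S.wh_succ c (S.fr (n + 1)) (s := n + 1) (j := l) (by omega)
  obtain h2 : S.wp c n (l - 1) * Real.exp (-S.ch1 c l / 2) ≤ S.wp c n l := by
    unfold Sq.wp; rw [h1]; exact le_max_right _ _
  obtain h3 : Real.exp (-S.chi c n l / 2) =
      Real.exp (-S.ch1 c l / 2) * Real.exp (-S.chi c n (l - 1) / 2) := by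
    rw [← Real.exp_add, chi_pred S hl]; congr 1; ring
  have h4 := mul_le_mul_of_nonneg_right h2 (Real.exp_pos (-S.chi c n (l - 1) / 2)).le
  unfold ww; rw [h3]; linarith only [h4]

/-- resolvent sum with the majorant `wp` -/
theorem Hy.res (h : Nm c) (H : Hy c M t t' S S' ξ n Ls J η D1 v) {i j : ℤ} (hi : n ≤ i)
    (h1 : i < j) (h2 : j ≤ J) :
    ∑ l ∈ Ico (i + 1) j, |S.fr (l + 1) j| * c.L * (η * ww c S n η v l * S.wp c n l) ≤
      (v * Real.exp (S.Wp c n j) + η * Real.exp (-c.bl / 3)) * S.wp c n j := by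
  have hη := H.η0; have hv := H.v0 h; have hL := h.L
  obtain hw := wp_pos (c := c) S (n := n) (j := j) (by omega)
  obtain g1 : ∑ l ∈ Ico (i + 1) j, |S.fr (l + 1) j| * c.L * (η * ww c S n η v l * S.wp c n l) ≤
      ∑ l ∈ Ico (n + 1) j, |S.fr (l + 1) j| * c.L * (η * ww c S n η v l * S.wp c n l) := by
    refine sum_le_sum_of_subset_of_nonneg (Ico_subset_Ico_left (by omega)) fun l hl _ => ?_
    obtain this := wp_pos (c := c) S (n := n) (j := l) (by have := (mem_Ico.1 hl).1; omega)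
    unfold ww; (clear * - hL hη hv this; positivity)
  obtain g2 : ∑ l ∈ Ico (n + 1) j, |S.fr (l + 1) j| * c.L * (η * ww c S n η v l * S.wp c n l) ≤
      v * S.DD c (S.wp c n) (n + 1) j +
        η * S.wp c n j * ∑ l ∈ Ico (n + 1) j, Real.exp (-(3 / 8 * S.chi c n l)) := by
    unfold Sq.DD
    rw [mul_sum, mul_sum, ← sum_add_distrib]
    refine sum_le_sum fun l hl => ?_
    obtain ⟨hl1, hl2⟩ := mem_Ico.1 hl
    obtain e1 := fr_le H.hB (i := l) (j := j) (by omega) hl2 h2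
    obtain e0 := chi_nonneg h S (i := n) (j := l) (by omega)
    obtain e2 : Real.exp (c.a / 8 * S.chi c n l) * Real.exp (-S.chi c n l / 2) ≤
        Real.exp (-(3 / 8 * S.chi c n l)) := by
      rw [← Real.exp_add]; exact Real.exp_le_exp.2 (by nlinarith only [e0, h.a1])
    obtain e3 := mul_le_mul_of_nonneg_right e1
      (show 0 ≤ η * Real.exp (-S.chi c n l / 2) by positivity)
    obtain e4 := mul_le_mul_of_nonneg_left e2 (show 0 ≤ η * S.wp c n j by (clear * - hη hw; positivity))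
    rw [ww_eq S n hη]
    linarith only [e3, e4]
  obtain g3 : S.DD c (S.wp c n) (n + 1) j ≤ Real.exp (S.Wp c n j) * S.wp c n j := by
    rw [exp_Wp]; exact S.DD_le_AA c (by rw [S.fr_self]; exact one_ne_zero) (by omega)
  obtain g4 := geo h H.hB.kz.1 (j := j) (by omega)
  have g5 := mul_le_mul_of_nonneg_left g3 hv.le
  obtain g6 := mul_le_mul_of_nonneg_left g4 (show 0 ≤ η * S.wp c n j by positivity)
  linarith only [g1, g2, g5, g6]

theorem Hy.tan (h : Nm c) (hk : SOK_s c) (hs : SH_s c) (hρ : RHO_s c)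
    (H : Hy c M t t' S S' ξ n Ls J η D1 v) {i : ℤ} {B : ℝ} (hi : n ≤ i)
    (hB : ∀ l, i < l → l ≤ J → |S.fr (i + 1) l| ≤ B * S.wp c n l) {j : ℤ} (h1 : i < j) (h2 : j ≤ J) :
    |S'.fr (i + 1) j - S.fr (i + 1) j| ≤
      4000 * c.CG * (v * Real.exp (S.Wp c n j) + η * Real.exp (-c.bl / 3)) * B * S.wp c n j := by
  have hη := H.η0; have hv := H.v0 h; have hL := h.L; have hG := h.cg
  have hsh := H.shh h hk hρ
  have hd := (hs _ _ _ _ _ _ _ _ _ _ _ _ hsh).2.1
  obtain hB0 : 0 < B := by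
    obtain e1 := hB (i + 1) (by omega) (by omega)
    rw [S.fr_self, abs_one] at e1
    obtain e2 := wp_pos (c := c) S (n := n) (j := i + 1) (by omega)
    by_contra hc
    nlinarith only [e1, e2, not_lt.1 hc]
  obtain sm : ∀ l, l ≤ J →
      4000 * c.CG * (v * Real.exp (S.Wp c n l) + η * Real.exp (-c.bl / 3)) ≤ 1 := by
    intro l hl
    have e1 := H.smj h hl
    obtain e2 : Real.exp (-c.bl / 3) ≤ 1 := Real.exp_le_one_iff.2 (by linarith only [h.bl_ge, h.lam])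
    have e3 := mul_le_mul_of_nonneg_left e2 hη.le
    obtain e4 : v * Real.exp (S.Wp c n l) + η * Real.exp (-c.bl / 3) ≤ 2 * (1 / c.lam ^ 2) := by
      obtain this : 0 ≤ 1 / c.lam ^ 2 := by (clear * -; positivity)
      linarith only [hη, e1, e3, H.η1]
    obtain e5 := mul_le_mul_of_nonneg_left e4 (show 0 ≤ 4000 * c.CG by positivity)
    linarith only [e5, h.ilc]
  obtain key : ∀ m, i + 1 ≤ m → ∀ j, i < j → j ≤ m → j ≤ J → |S'.fr (i + 1) j - S.fr (i + 1) j| ≤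
      4000 * c.CG * (v * Real.exp (S.Wp c n j) + η * Real.exp (-c.bl / 3)) * B * S.wp c n j := by
    intro m hm
    induction m, hm using Int.leInduction with
    | base =>
      intro j g1 g2 _
      obtain rfl : j = i + 1 := by omega
      obtain this := wp_pos (c := c) S (n := n) (j := i + 1) (by omega)
      rw [S.fr_self, S'.fr_self, sub_self, abs_zero]; (clear * - hG hv hη hB0 this; positivity)
    | succ m hm ih =>
      intro j g1 g2 g3
      obtain U : ∀ l, i < l → l < j → |S'.fr (i + 1) l| ≤ 2 * B * S.wp c n l := by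
        intro l e1 e2
        obtain e3 := ih l e1 (by omega) (by omega)
        obtain e4 := hB l e1 (by omega)
        obtain e5 := wp_pos (c := c) S (n := n) (j := l) (by omega)
        obtain e6 := mul_le_mul_of_nonneg_right (sm l (by omega)) (mul_pos hB0 e5).le
        have e7 := abs_add_le (S'.fr (i + 1) l - S.fr (i + 1) l) (S.fr (i + 1) l)
        rw [sub_add_cancel] at e7
        linarith only [e3, e4, e6, e7]
      obtain V := S.voc (Z := fun l => S'.fr (i + 1) l - S.fr (i + 1) l)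
        (q := fun l => (S'.a l - S.a l) * S'.fr (i + 1) l + (S'.b l - S.b l) * S'.fr (i + 1) (l - 1))
        (s := i + 1) (n := j) (fun l e1 _ => by
          rw [S.fr_sol (i + 1) l e1, S'.fr_sol (i + 1) l e1]; ring) (j := j) (by omega) le_rfl
      rw [S.fr_self, S'.fr_self, S.fr_lt (j := i + 1 - 1) (by omega),
        S'.fr_lt (j := i + 1 - 1) (by omega)] at V
      simp only [sub_self, zero_mul, mul_zero, zero_add] at V
      rw [V]
      refine (abs_sum_le_sum_abs _ _).trans ?_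
      obtain R := mul_le_mul_of_nonneg_left (H.res h hi g1 g3) (show 0 ≤ 4000 * c.CG * B by (clear * - hG hB0; positivity))
      refine le_trans ?_ (R.trans_eq (by ring))
      rw [mul_sum]
      refine sum_le_sum fun l hl => ?_
      obtain ⟨l1, l2⟩ := mem_Ico.1 hl
      obtain ⟨-, d1, d2⟩ := hd l (by omega) (by omega)
      obtain p1 := wp_pos (c := c) S (n := n) (j := l) (by omega)
      obtain p2 := hsh.cert.pos' l (by omega) (by omega)
      obtain a1 : |(S'.a l - S.a l) * S'.fr (i + 1) l| ≤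
          1000 * c.CG * c.L * (η * ww c S n η v l) * (2 * B * S.wp c n l) := by
        rw [abs_mul]; exact mul_le_mul d1 (U l (by omega) l2) (abs_nonneg _) (by (clear * - hG hL hη p2; positivity))
      obtain a2 : |(S'.b l - S.b l) * S'.fr (i + 1) (l - 1)| ≤
          1000 * c.CG * c.L * (η * ww c S n η v l) * (2 * B * S.wp c n l) := by
        rcases l1.eq_or_lt with e | e
        · rw [S'.fr_lt (j := l - 1) (by omega), mul_zero, abs_zero]; (clear * - hG hL hη p2 hB0 p1; positivity)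
        · rw [if_neg (by omega)] at d2
          obtain p3 := hsh.cert.pos' (l - 1) (by omega) (by omega)
          obtain p4 := wp_pos (c := c) S (n := n) (j := l - 1) (by omega)
          obtain r := ww_ratio (c := c) S (n := n) (l := l) (by omega) (η := η) (v := v)
          obtain b1 : |S'.b l - S.b l| * S.wp c n (l - 1) ≤
              1000 * c.CG * c.L * (η * ww c S n η v l) * S.wp c n l := by
            refine le_of_mul_le_mul_right ?_ p3
            calc _ = |S'.b l - S.b l| * ww c S n η v (l - 1) * S.wp c n (l - 1) := by ring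
              _ ≤ 1000 * c.CG * c.L * (η * ww c S n η v l ^ 2) * S.wp c n (l - 1) := by (clear * - d2 p4; gcongr)
              _ = 1000 * c.CG * c.L * (η * ww c S n η v l) *
                  (ww c S n η v l * S.wp c n (l - 1)) := by ring
              _ ≤ 1000 * c.CG * c.L * (η * ww c S n η v l) *
                  (S.wp c n l * ww c S n η v (l - 1)) := by (clear * - r hG hL hη p2; gcongr)
              _ = _ := by ring
          rw [abs_mul]
          calc _ ≤ |S'.b l - S.b l| * (2 * B * S.wp c n (l - 1)) :=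
                mul_le_mul_of_nonneg_left (U (l - 1) (by omega) (by omega)) (abs_nonneg _)
            _ = 2 * B * (|S'.b l - S.b l| * S.wp c n (l - 1)) := by ring
            _ ≤ 2 * B * (1000 * c.CG * c.L * (η * ww c S n η v l) * S.wp c n l) := by gcongr
            _ = _ := by ring
      rw [abs_mul]
      have a3 := mul_le_mul_of_nonneg_left ((abs_add_le _ _).trans (add_le_add a1 a2))
        (abs_nonneg (S.fr (l + 1) j))
      exact a3.trans_eq (by ring)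
  exact key j (by omega) j h1 le_rfl h2

end BMap

open BMap in
theorem bm : Hier fun c => SOK_s c → SH_s c → RHO_s c → BM_s c :=
  hier_Nm.mono fun c h hk hs hρ M t t' S S' ξ n Ls J η D1 v h1 h2 h3 h4 h5 h6 h7 h8 h9 h10 h11 h12
      h13 h14 h15 h16 h17 => by
    have H : Hy c M t t' S S' ξ n Ls J η D1 v :=
      ⟨h1, h2, h3, h4, h5, h6, h7, h8, h9, h10, h11, h12, h13, h14, h15, h16, h17⟩
    refine ⟨_, _, _, YY S S' ξ n J, H.shh h hk hρ, fun j _ _ => ww_eq S n h11 v j,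
      fun j => Aa_eq S n h11 v j, fun j _ => rfl, H.Yb h, fun i B hi hB j g1 g2 => ?_⟩
    refine (H.tan h hk hs hρ hi hB g1 g2).trans ?_
    have e1 := hB (i + 1) (by omega) (by omega)
    have e2 := wp_pos (c := c) S (n := n) (j := i + 1) (by omega)
    have e3 := wp_pos (c := c) S (n := n) (j := j) (by omega)
    have e4 : 0 ≤ B := by
      by_contra hc
      nlinarith only [e1, e2, not_le.1 hc, abs_nonneg (S.fr (i + 1) (i + 1)), S.fr_self (i + 1)]
    have e5 := H.v0 h; have e6 := h.cg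
    unfold Cs.KS
    gcongr
    norm_num

end
end Pool.Agent.MP_9cbfe4_an

end

/-! ### Part BMR -/

section

/-! Row BMR: position and defects at the end of the block map, for the fresh directions. -/

namespace Pool.Agent.MP_9cbfe4_an

open Finset

noncomputable section

namespace BMap

variable {c : Cs} {M : Mdl} {t t' : ℝ} {S S' : Sq} {ξ : ℤ → ℝ} {n : ℤ} {Ls : List (ℤ × ℝ)} {J : ℤ}
  {η D1 v : ℝ}

theorem Hy.wpJ (H : Hy c M t t' S S' ξ n Ls J η D1 v) : S.wp c n J = |S.fr (n + 1) J| := H.hR.whm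

theorem ff_le (S : Sq) (s i : ℤ) : S.ff c s i ≤ 2 := by
  unfold Sq.ff; linarith only [Real.exp_pos (-S.chi c s i / 24)]

theorem Hy.i2 (H : Hy c M t t' S S' ξ n Ls J η D1 v) {i : ℤ} (h1 : n < i) (h2 : i < J) :
    S.PB c (2 / 100) i J * S.wp c n i ≤ 2 * Real.exp (-(1 - c.a) * S.chi c i J) * S.wp c n J ∧
    S.wp c n i ≤ 2 * Real.exp (c.a * S.chi c i J) * S.wp c n J := by
  obtain ⟨a1, a2⟩ := H.hR.i2 i (by omega) h2
  rw [H.wpJ]
  have := ff_le (c := c) S (n + 1) i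
  exact ⟨a1.trans (by (clear * - this; gcongr)), a2.trans (by gcongr)⟩

theorem Hy.dec (h : Nm c) (H : Hy c M t t' S S' ξ n Ls J η D1 v) :
    S.Dec c (2 / 100) (1000 * c.lam) (S.wp c n) (n + 1) J := by
  intro i h1 h2
  obtain ⟨a1, a2⟩ := H.i2 (i := i) (by omega) h2
  have h0 := chi_nonneg h S h2.le
  obtain hw := wp_pos (c := c) S (n := n) (j := J) (by omega)
  obtain hl : (2 : ℝ) ≤ 1000 * c.lam := by linarith only [h.lam]
  have ha := h.a0
  refine ⟨a1.trans ?_, a2.trans ?_⟩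
  · gcongr; linarith only [ha]
  · gcongr; linarith only [ha]

theorem Hy.close (h : Nm c) (hk : SOK_s c) (hs : SH_s c) (hρ : RHO_s c)
    (H : Hy c M t t' S S' ξ n Ls J η D1 v) {j : ℤ} (h1 : n < j) (h2 : j ≤ J) :
    |S'.fr (n + 1) j - S.fr (n + 1) j| ≤ S.wp c n j / 100 := by
  obtain g := H.tan h hk hs hρ (i := n) (B := 1) le_rfl
    (fun l a _ => by rw [one_mul]; exact S.abs_le_wh c _ (by omega)) h1 h2
  have e1 := H.smj h h2
  obtain e2 : Real.exp (-c.bl / 3) ≤ 1 := Real.exp_le_one_iff.2 (by linarith only [h.bl_ge, h.lam])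
  have e3 := mul_le_mul_of_nonneg_left e2 H.η0.le
  obtain e4 : v * Real.exp (S.Wp c n j) + η * Real.exp (-c.bl / 3) ≤ 2 * (1 / c.lam ^ 2) := by
    obtain this : 0 ≤ 1 / c.lam ^ 2 := by (clear * -; positivity)
    linarith only [e1, e3, this, H.η1]
  obtain e5 := mul_le_mul_of_nonneg_left e4 (show 0 ≤ 4000 * c.CG by linarith only [h.cg])
  obtain e6 : 4000 * c.CG * (v * Real.exp (S.Wp c n j) + η * Real.exp (-c.bl / 3)) ≤ 1 / 100 := by
    linarith only [e5, h.ilc]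
  have e7 := mul_le_mul_of_nonneg_right e6 (wp_pos (c := c) S h1).le
  linarith only [g, e7]

/-- backward geometric sum -/
theorem geob (h : Nm c) (S : Sq) {s m : ℤ} (hm : s ≤ m + 1) :
    ∑ i ∈ Ico s (m + 1), Real.exp (-(3 / 8 * S.chi c i m)) ≤ 5 := by
  rcases hm.eq_or_lt with e | e
  · simp [e]
  obtain hm' : s ≤ m := by omega
  clear e hm
  induction m, hm' using Int.leInduction with
  | base => rw [FD.sum_succ _ le_rfl, S.chi_self]; norm_num
  | succ m hm ih =>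
    rw [FD.sum_succ _ (by omega), S.chi_self]
    obtain h5 : Real.exp (-(1 / 4) : ℝ) ≤ 4 / 5 := by
      rw [Real.exp_neg, inv_le_comm₀ (Real.exp_pos _) (by norm_num)]
      linarith only [Real.add_one_le_exp (1 / 4 : ℝ)]
    obtain h1 : ∑ i ∈ Ico s (m + 1), Real.exp (-(3 / 8 * S.chi c i (m + 1))) ≤
        ∑ i ∈ Ico s (m + 1), Real.exp (-(3 / 8 * S.chi c i m)) * (4 / 5) := by
      refine sum_le_sum fun i hi => ?_
      have e1 := chi_pred (c := c) S (n := i) (j := m + 1) (mem_Ico.1 hi).2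
      rw [add_sub_cancel_right] at e1
      have e2 := (S.ch1_mem c h.chK_bl (m + 1)).1
      refine le_trans ?_ (mul_le_mul_of_nonneg_left h5 (Real.exp_pos _).le)
      rw [← Real.exp_add]; exact Real.exp_le_exp.2 (by linarith only [e1, e2, h.chK_lo])
    rw [← sum_mul] at h1
    simp only [mul_zero, neg_zero, Real.exp_zero]
    linarith only [ih, h1]

theorem Nm.expL (h : Nm c) : Real.exp c.lam = c.L := Real.exp_log (by linarith only [h.L])

theorem Hy.bb (hk : SOK_s c) (H : Hy c M t t' S S' ξ n Ls J η D1 v) {j : ℤ} (hj : n ≤ j) :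
    0 ≤ S.b j ∧ S.b j ≤ S.bb c (2 / 100) j := by
  have q := (hk M H.hM t H.ht).2.2 S n j H.ho hj
  exact ⟨le_trans (by positivity) q.2.2.1, q.2.1 _ (by norm_num)⟩

/-- the weighted sum, also for the empty range -/
theorem Hy.wsum (h : Nm c) (N : FD.Nm c) (H : Hy c M t t' S S' ξ n Ls J η D1 v) (hJ : S.kk J = 0)
    {x y : ℝ} (hx : 0 ≤ x) (hy : 0 ≤ y) :
    ∑ i ∈ Ico (n + 1) J, S.PB c (2 / 100) i J * (S.wp c n i * (x + y * S.wp c n i ^ 2)) ≤
      3 * (1000 * c.lam) ^ 3 * Real.exp (-(3 / 4) * c.bl) *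
        (S.wp c n J * (x + y * S.wp c n J ^ 2)) := by
  rcases H.hR.le.eq_or_lt with e | e
  · obtain this := wp_pos (c := c) S (n := n) (j := J) (by omega)
    have := h.lam
    rw [← e, Ico_self, sum_empty, e]; (rename_i zq0; clear * - this zq0 hx hy; positivity)
  · exact FD.wsum c S N.k0 N.k1 N.kb N.a0 N.a1 (by linarith only [h.lam]) hx hy e hJ
      (fun j a _ => wp_pos S (by omega)) (H.dec h)

theorem sq_exp (x : ℝ) : Real.exp x ^ 2 = Real.exp (2 * x) := by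
  rw [sq, ← Real.exp_add, two_mul]

theorem sum_split (g : ℤ → ℝ) {n J : ℤ} (h : n + 1 ≤ J) :
    ∑ i ∈ Ico n J, g i = g n + ∑ i ∈ Ico (n + 1) J, g i := by
  rw [← Finset.insert_Ico_add_one_left_eq_Ico (by omega : n < J), sum_insert (by simp)]

/-- the source of the tangent recursion with the majorant `wp` -/
theorem Hy.src2 (h : Nm c) (hk : SOK_s c) (hs : SH_s c) (hρ : RHO_s c)
    (H : Hy c M t t' S S' ξ n Ls J η D1 v) {l : ℤ} (l1 : n < l) (l2 : l < J) :
    |(S'.a l - S.a l) * S'.fr (n + 1) l + (S'.b l - S.b l) * S'.fr (n + 1) (l - 1)| ≤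
      4000 * c.CG * c.L * (η * ww c S n η v l) * S.wp c n l := by
  have hη := H.η0; have hv := H.v0 h; have hL := h.L; have hG := h.cg
  have hsh := H.shh h hk hρ
  obtain ⟨-, d1, d2⟩ := (hs _ _ _ _ _ _ _ _ _ _ _ _ hsh).2.1 l (by omega) l2
  obtain U : ∀ j, n < j → j ≤ J → |S'.fr (n + 1) j| ≤ 2 * S.wp c n j := by
    intro j a b
    have e1 := H.close h hk hs hρ a b
    obtain e2 : |S.fr (n + 1) j| ≤ S.wp c n j := S.abs_le_wh c _ (by omega)
    have e3 := abs_sub_abs_le_abs_sub (S'.fr (n + 1) j) (S.fr (n + 1) j)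
    linarith only [e1, e2, e3, wp_pos (c := c) S a]
  have p1 := wp_pos (c := c) S l1
  obtain p2 := hsh.cert.pos' l (by omega) l2.le
  obtain a1 : |(S'.a l - S.a l) * S'.fr (n + 1) l| ≤
      1000 * c.CG * c.L * (η * ww c S n η v l) * (2 * S.wp c n l) := by
    rw [abs_mul]; exact mul_le_mul d1 (U l l1 l2.le) (abs_nonneg _) (by (clear * - hG hL hη p2; positivity))
  obtain a2 : |(S'.b l - S.b l) * S'.fr (n + 1) (l - 1)| ≤
      1000 * c.CG * c.L * (η * ww c S n η v l) * (2 * S.wp c n l) := by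
    rcases (show n + 1 ≤ l by omega).eq_or_lt with e | e
    · rw [S'.fr_lt (j := l - 1) (by omega), mul_zero, abs_zero]; (clear * - hG hL hη p2 p1; positivity)
    · rw [if_neg (by omega)] at d2
      obtain p3 := hsh.cert.pos' (l - 1) (by omega) (by omega)
      obtain p4 := wp_pos (c := c) S (n := n) (j := l - 1) (by omega)
      have r := ww_ratio (c := c) S l1 (η := η) (v := v)
      obtain b1 : |S'.b l - S.b l| * S.wp c n (l - 1) ≤
          1000 * c.CG * c.L * (η * ww c S n η v l) * S.wp c n l := by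
        refine le_of_mul_le_mul_right ?_ p3
        calc _ = |S'.b l - S.b l| * ww c S n η v (l - 1) * S.wp c n (l - 1) := by ring
          _ ≤ 1000 * c.CG * c.L * (η * ww c S n η v l ^ 2) * S.wp c n (l - 1) := by (clear * - d2 p4; gcongr)
          _ = 1000 * c.CG * c.L * (η * ww c S n η v l) *
              (ww c S n η v l * S.wp c n (l - 1)) := by ring
          _ ≤ 1000 * c.CG * c.L * (η * ww c S n η v l) *
              (S.wp c n l * ww c S n η v (l - 1)) := by (clear * - r hG hL hη p2; gcongr)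
          _ = _ := by ring
      rw [abs_mul]
      calc _ ≤ |S'.b l - S.b l| * (2 * S.wp c n (l - 1)) :=
            mul_le_mul_of_nonneg_left (U (l - 1) (by omega) (by omega)) (abs_nonneg _)
        _ = 2 * (|S'.b l - S.b l| * S.wp c n (l - 1)) := by ring
        _ ≤ 2 * (1000 * c.CG * c.L * (η * ww c S n η v l) * S.wp c n l) := by gcongr
        _ = _ := by ring
  exact ((abs_add_le _ _).trans (add_le_add a1 a2)).trans_eq (by ring)

end BMap

end
end Pool.Agent.MP_9cbfe4_an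

end

/-! ### Part YSH -/

section

/-! Row YSH: from a fold datum to a shifted and scaled window. -/

namespace Pool.Agent.MP_9cbfe4_an

open Finset

namespace YSH

theorem bb_shift (c : Cs) (S : Sq) (θ : ℝ) (k j : ℤ) : (S.shift k).bb c θ j = S.bb c θ (j + k) := by
  simp only [Sq.bb, Sq.shift, sub_add_eq_add_sub]

theorem PB_shift (c : Cs) (S : Sq) (θ : ℝ) (k i j : ℤ) :
    (S.shift k).PB c θ i j = S.PB c θ (i + k) (j + k) := by
  unfold Sq.PB
  rw [← Finset.map_add_right_Ioc, prod_map]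
  exact prod_congr rfl fun l _ => bb_shift c S θ k l

theorem fr_shift' (S : Sq) (k i j : ℤ) : (S.shift k).fr (i + 1) j = S.fr (i + k + 1) (j + k) := by
  rw [Sq.fr_shift, add_right_comm]

theorem DD_shift (c : Cs) (S : Sq) (w : ℤ → ℝ) (x : ℝ) (k i j : ℤ) :
    (S.shift k).DD c (fun l => w (l + k) / x) i j = S.DD c w (i + k) (j + k) / x ^ 2 := by
  unfold Sq.DD
  rw [← Finset.map_add_right_Ico, sum_map, sum_div]
  refine sum_congr rfl fun l _ => ?_
  rw [fr_shift', div_pow, mul_div_assoc]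
  rfl

theorem Bc_shift (c : Cs) (S : Sq) (w : ℤ → ℝ) {x : ℝ} (hx : x ≠ 0) (k i j : ℤ) :
    (S.shift k).Bc c (fun l => w (l + k) / x) i j = S.Bc c w (i + k) (j + k) := by
  unfold Sq.Bc
  rw [fr_shift', ← mul_div_assoc, div_div_div_cancel_right₀ hx]

theorem cert_shift {c : Cs} {S : Sq} {θ : ℝ} {w A : ℤ → ℝ} {s n : ℤ} {x : ℝ} (hx : 0 < x)
    (h : S.Cert c θ w A s n) :
    (S.shift s).Cert c θ (fun l => w (l + s) / x) (fun l => A (l + s) / x) 0 (n - s) := by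
  obtain d : ∀ {p q k : ℝ}, p ≤ k * q → p / x ≤ k * (q / x) := fun h => by
    rw [← mul_div_assoc]; exact div_le_div_of_nonneg_right h hx.le
  refine ⟨?_, fun j a b => div_pos (h.pos' _ (by omega) (by omega)) hx, fun j a b u v => ?_,
    fun j a b => ?_, fun j a b => ?_, fun i j a b e => ?_, ?_, fun j a b => ?_⟩
  · have := h.pos
    rw [show s - 1 = 0 - 1 + s by ring] at this
    exact div_nonneg this hx.le
  · obtain this := h.backK (j + s) (by omega) (by omega) u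
      (by rw [show j + s - 1 = j - 1 + s by ring]; exact v)
    rw [show j + s - 1 = j - 1 + s by ring] at this
    exact d this
  · obtain this := h.back (j + s) (by omega) (by omega)
    rw [show j + s - 1 = j - 1 + s by ring] at this
    exact d this
  · obtain this := h.fwd (j + s) (by omega) (by omega)
    rw [show j + s + 1 = j + 1 + s by ring] at this
    exact d this
  · exact div_le_div_of_nonneg_right (h.mono _ _ (by omega) (by omega) (by omega)) hx.le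
  · have := h.Apos
    rw [show s = 0 + s by ring] at this
    exact div_pos this hx
  · rw [DD_shift, zero_add, div_mul_div_comm, ← sq]
    exact div_le_div_of_nonneg_right (h.dd _ (by omega) (by omega)) (by positivity)

theorem maj_shift {S : Sq} {ξ w : ℤ → ℝ} {s n : ℤ} {x : ℝ} (hx : 0 < x) (h : S.Maj ξ 1 w s n) :
    (S.shift s).Maj (fun l => ξ (l + s) / x) 1 (fun l => w (l + s) / x) 0 (n - s) := by
  refine ⟨fun j a b => ?_, fun j a b => ?_⟩
  · obtain this := h.1 (j + s) (by omega) (by omega)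
    rw [show j + s + 1 = j + 1 + s by ring, show j + s - 1 = j - 1 + s by ring] at this
    simp only [Sq.shift]
    rw [this]; ring
  · obtain this := h.2 (j + s) (by omega) (by omega)
    rw [abs_div, abs_of_pos hx, ← mul_div_assoc]
    exact div_le_div_of_nonneg_right this hx.le

open Classical in
/-- regular indices are K-steps, except the first one of each regular run -/
theorem card_le (S : Sq) (Rg : Finset ℤ) {s : ℤ} (hs : s - 1 ∉ Rg)
    (hk : ∀ i ∈ Rg, dP (S.X i) ≤ 2 / 100) (m : ℤ) (hm : s ≤ m) :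
    (((Ico s m).filter fun i => i ∈ Rg).card : ℝ) ≤ S.NK (s - 1) (m - 1) +
      (((Ico s m).filter fun i => i ∉ Rg ∧ (i - 1 ∈ Rg ∨ i = s)).card : ℝ) +
      if m - 1 ∈ Rg then 1 else 0 := by
  induction m, hm using Int.leInduction with
  | base => simp [hs, Sq.NK_self]
  | succ m hm ih =>
    obtain e : Ico s (m + 1) = insert m (Ico s m) := by
      ext x; simp only [mem_insert, mem_Ico]; omega
    obtain e2 : S.NK (s - 1) m = S.NK (s - 1) (m - 1) + S.kk m := by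
      rw [S.NK_add (show s - 1 ≤ m - 1 by omega) (show m - 1 ≤ m by omega)]
      have := S.NK_one (m - 1)
      rw [sub_add_cancel] at this
      rw [this]
    have k0 := (S.kk_mem m).1
    rw [e, filter_insert, filter_insert, add_sub_cancel_right, e2]
    by_cases h1 : m ∈ Rg <;> by_cases h2 : m - 1 ∈ Rg
    · have : S.kk m = 1 := S.kk_eq_one.2 ⟨hk m h1, hk _ h2⟩
      rw [if_pos h1, if_neg (by simp [h1]), if_pos h1, card_insert_of_notMem (by simp)]
      rw [if_pos h2] at ih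
      push_cast; linarith only [ih, this]
    · rw [if_pos h1, if_neg (by simp [h1]), if_pos h1, card_insert_of_notMem (by simp)]
      rw [if_neg h2] at ih
      push_cast; linarith only [ih, k0]
    · rw [if_neg h1, if_pos ⟨h1, Or.inl h2⟩, if_neg h1, card_insert_of_notMem (by simp)]
      rw [if_pos h2] at ih
      push_cast; linarith only [ih, k0]
    · rw [if_neg h2] at ih
      rw [if_neg h1, if_neg h1]
      split_ifs
      · rw [card_insert_of_notMem (by simp)]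
        push_cast; linarith only [ih, k0]
      · linarith only [ih, k0]

/-- numeric facts used in this file -/
structure Nm (c : Cs) : Prop where
  big : SOK.Big c
  a0 : 0 < c.a
  a1 : c.a ≤ 1 / 100
  ab : 100 ≤ c.a ^ 2 * c.bl
  k0 : Real.log 2 ≤ c.chK
  kb : c.chK ≤ c.bl

theorem nm : Hier Nm := by
  obtain ha := Hier.a_le (fun _ => 1 / 100) (fun _ _ _ _ _ _ => rfl) (Hier.of_all fun _ => by norm_num)
  have hβ := Hier.β_ge (fun _ => 1) fun _ _ _ => rfl
  have hl := Hier.lam_ge (fun c => 100 / c.a ^ 2) fun _ _ => rfl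
  have hl' := Hier.lam_ge (fun _ => 15) fun _ _ => rfl
  refine (SOK.big.and (ha.and (hβ.and (hl.and hl')))).mono ?_
  rintro c ⟨b, ⟨a1, a2⟩, hβ, hl, hl'⟩
  have b1 := b.k_lo
  have b2 := b.k_hi
  obtain hk : 0 < c.k0 := by linarith only [a1, a2, b1]
  obtain h2 : Real.log 2 ≤ c.chK := Real.log_le_log two_pos (by rw [le_div_iff₀ hk]; linarith only [b2])
  obtain h16 : c.chK ≤ 15 := by
    have := Real.log_le_sub_one_of_pos (one_div_pos.2 hk)
    obtain h3 : 1 / c.k0 ≤ 16 := by rw [div_le_iff₀ hk]; linarith only [b1]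
    unfold Cs.chK; linarith only [this, h3]
  obtain hb : c.lam ≤ c.bl := le_mul_of_one_le_left (by linarith only [a1, a2, hl']) hβ
  rw [div_le_iff₀ (by positivity)] at hl
  exact ⟨b, a1, a2, by nlinarith only [hl, hb, sq_nonneg c.a], h2, by linarith only [hl', h16, hb]⟩

end YSH

end Pool.Agent.MP_9cbfe4_an

end

/-! ### Part SI4 -/

section

/-! Section S, part 4: certificates of a fold datum, packages, classes. -/

namespace Pool.Agent.MP_9cbfe4_an.SS

open Finset Filter Topology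
open scoped ContDiff

noncomputable section

/-- contraction between `j` and the fold time `0` -/
def chd (c : Cs) (S : Sq) (j : ℤ) : ℝ := S.chi c j 0 + S.chi c 0 j
def mu (K : ℕ) (c : Cs) (y : ℝ) (S : Sq) (j : ℤ) : ℝ :=
  Real.exp ((K + 30) * (c.a * c.bl) + 8 * c.a * min (chd c S j) (y + 2 * c.bl))
def Lam (K : ℕ) (c : Cs) (y : ℝ) : ℝ :=
  Real.exp ((K + 30) * (c.a * c.bl) + 8 * c.a * (y + 2 * c.bl))
def Dd (c : Cs) (θ : ℝ) (S : Sq) (j : ℤ) : ℝ := Real.exp (-θ * S.chi c 0 j)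
def del (c : Cs) : ℝ := Real.exp (-c.bl / 4)
/-- radius of the tube -/
def rr (K E : ℕ) (c : Cs) (y : ℝ) : ℝ := 1 / Lam K c y ^ E

/-- the orbit of the datum with the fold at time `0` -/
def FR (M : Mdl) (φ : Fd) : Sq := (φ.S M).shift φ.n
def Fxi (φ : Fd) (j : ℤ) : ℝ := φ.ξ (j + φ.n) / φ.ξ φ.n
def Fs (c : Cs) (M : Mdl) (y : ℝ) (φ : Fd) : ℤ := (φ.S M).st c φ.n y - φ.n
/-- first bound free time with contraction `≥ y`, relative to the fold -/
def FJ (c : Cs) (Ex : ExT) (M : Mdl) (y : ℝ) (φ : Fd) : ℤ :=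
  (sInf {N : ℕ | ∃ Ls r, (φ.S M).BRun c Ex φ.ξ φ.n Ls (φ.n + N) r ∧
    y ≤ (φ.S M).chi c φ.n (φ.n + N)} : ℕ)
/-- the history is truncated -/
def Tr (c : Cs) (M : Mdl) (y : ℝ) (φ : Fd) : Prop := (FR M φ).chi c (Fs c M y φ) 0 < y

def rd (K E : ℕ) (c : Cs) (Ex : ExT) (M : Mdl) (y : ℝ) (φ : Fd) (w : ℤ → ℝ) (θ : ℝ) : RD where
  R := FR M φ
  t0 := φ.t
  ξ := Fxi φ
  w := w
  μ := mu K c y (FR M φ)
  D := Dd c θ (FR M φ)
  s := Fs c M y φ
  J := FJ c Ex M y φ
  Λ := Lam K c y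
  L := c.L
  δ := del c
  dl := c.dl
  r := rr K E c y

/-- numbers -/
structure NuS (K E : ℕ) (c : Cs) : Prop where
  a0 : 0 < c.a
  aE : 10 ^ 4 * ((E : ℝ) + K + 30) ^ 2 * c.a ≤ 1
  abl : 10 ^ 4 ≤ c.a * c.bl
  chK : Real.log 2 ≤ c.chK ∧ c.chK ≤ 3 ∧ 10 ^ 4 ≤ c.bl
  L : 10 ^ 4 ≤ c.L ∧ 10 ^ 4 * c.CG * c.L * c.bl ≤ Real.exp (c.a * c.bl) ∧ 1 ≤ c.CG
  fac : ((K + 7).factorial : ℝ) * 2 ^ (K + 7) ≤ Real.exp (c.a * c.bl)
  lam : ∀ y, c.bl / 4 < y → 10 ^ 4 * c.L * c.bl ≤ Lam K c y ∧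
    Lam K c y ^ (20 * E + 1000) ≤ c.S0 y ∧ c.S0 y ^ 100 ≤ Real.exp (y / 100) ∧
    Real.exp (c.a * y) ≤ Lam K c y

def NS_s : Prop := ∀ K E, Hier (NuS K E)

/-- comparison of the weights of two close sequences and of two levels -/
def MUC_s : Prop := ∀ K E c y, NuS K E c → c.bl / 4 < y →
  (∀ (S S' : Sq) (i J : ℤ), i ≤ 0 → 0 ≤ J →
    (∀ j, i ≤ j → j ≤ J → |S'.X j - S.X j| ≤ 1 / Lam K c y) →
    (∀ p q, i ≤ p → q ≤ J → S'.chi c p q ≤ 11 / 10 * S.chi c p q ∧ S.chi c p q ≤ 11 / 10 * S'.chi c p q) ∧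
    ∀ j, i ≤ j → j ≤ J → mu K c y S' j ≤ mu K c y S j ^ 2 ∧ Dd c 1 S' j ≤ Dd c (9 / 10) S j) ∧
  (∀ (S : Sq) j θ θ', θ' ≤ θ → 1 ≤ mu K c y S j ∧ mu K c y S j ≤ Lam K c y ∧ Dd c θ S j ≤ Dd c θ' S j) ∧
  ∀ (S : Sq) j y', c.bl / 4 < y' → y' ≤ y → (chd c S j ≤ y' + 2 * c.bl → mu K c y S j = mu K c y' S j) ∧
    ∀ e ≤ E, 0 ≤ j → mu K c y S j ^ e * Dd c 1 S j ≤ mu K c y' S j ^ e * Dd c (1 / 2) S j

/-- `w` comes from a tame window -/
def FromT (c : Cs) (M : Mdl) (y : ℝ) (φ : Fd) (w : ℤ → ℝ) : Prop :=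
  ∃ wT A Rg, (φ.S M).TameW c φ.ξ φ.n y ((φ.S M).st c φ.n y) wT A Rg ∧
    ∀ i, Fs c M y φ ≤ i → i ≤ 0 → (FR M φ).kp w i 0 = (φ.S M).kp wT (φ.n + i) φ.n

/-- history certificate of a datum -/
def HCR_s (K E : ℕ) (c : Cs) : Prop := ∀ M : Mdl, M.OK c → ∀ Ex y (φ : Fd), φ.OK c Ex M y →
  5 / 100 ≤ dP ((FR M φ).X 0) → ∃ w, (FR M φ).HC E (Fxi φ) w (mu K c y (FR M φ)) (Fs c M y φ) ∧
    (∀ i j, Fs c M y φ - 1 ≤ i → i ≤ j → j ≤ 0 →
      (FR M φ).kp w i j ≤ Lam K c y ^ 2 * Real.exp (-(FR M φ).chi c i j)) ∧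
    (FR M φ).chi c (Fs c M y φ + 1) 0 < y ∧
    (Tr c M y φ → Fs c M y φ = -φ.n ∧ φ.ξ (-1) = 0) ∧
    (FR M φ).b 0 * mu K c y (FR M φ) (-1) ^ E ≤ del c ∧ del c * mu K c y (FR M φ) 0 ^ E ≤ 1 ∧
    FromT c M y φ w

/-- the horizon -/
def JS_s (c : Cs) : Prop := ∀ M : Mdl, M.OK c → ∀ Ex y (φ : Fd), φ.OK c Ex M y →
  (∃ Ls r, (φ.S M).BRun c Ex φ.ξ φ.n Ls (φ.n + FJ c Ex M y φ) r ∧
    (φ.S M).RInv c ((φ.S M).fr (φ.n + 1)) (φ.n + 1) (φ.n + FJ c Ex M y φ) ∧
    (φ.S M).BInv c φ.n Ls (φ.n + FJ c Ex M y φ)) ∧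
  y ≤ (φ.S M).chi c φ.n (φ.n + FJ c Ex M y φ) ∧
  (φ.S M).Wp c φ.n (φ.n + FJ c Ex M y φ) ≤ y / c.M1 + 5 ∧
  |(φ.S M).rho φ.ξ φ.n (φ.n + FJ c Ex M y φ)| ≤ 2 / c.S0 y ^ 10 ∧
  ∀ y' ≤ y, FJ c Ex M y' φ ≤ FJ c Ex M y φ ∧ Fs c M y φ ≤ Fs c M y' φ

/-- forward certificate -/
def FCR_s (K E : ℕ) (c : Cs) : Prop := ∀ (S : Sq) (n J : ℤ) Ls (y θ : ℝ), S.OK c → 0 ≤ n →
  S.RInv c (S.fr (n + 1)) (n + 1) (n + J) → S.BInv c n Ls (n + J) → c.bl / 4 < y →
  S.Wp c n (n + J) ≤ y / c.M1 + 5 → 1 / 2 ≤ θ → θ ≤ 1 →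
  (S.shift n).FC E (mu K c y (S.shift n)) (Dd c θ (S.shift n)) J ∧
  mu K c y (S.shift n) 1 ^ E * Dd c θ (S.shift n) 1 ≤ del c

/-- the model in the tube of an orbit -/
def TBR_s (K E : ℕ) (c : Cs) : Prop := 10 ≤ E → ∀ M : Mdl, M.OKk c (K + 6) → ∀ y, c.bl / 4 < y →
  (∀ z ∈ OB c, ga M.GG z = M.Ga z.1 z.2.1 z.2.2 ∧ gb M.GG z = M.Gb z.1 z.2.1 z.2.2 ∧
    gt M.GG z = M.Gt z.1 z.2.1 z.2.2) ∧
  (∀ t x u u', (t, x, u) ∈ OB c → (t, x, u') ∈ OB c → VSeg M.GG (K + 4) (Lam K c y) t x u u') ∧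
  ∀ φ : Fd, 1 / 5 ≤ φ.t → φ.t ≤ 4 / 5 → φ.v ∈ Set.Icc (0 : ℝ) 100 → 0 ≤ φ.n →
    (∀ j, |(FR M φ).X j| ≤ 5 / 4 * c.L) ∧
    (∀ j, -φ.n ≤ j → UB (FR M φ) φ.t (rr K E c y) j ⊆ OB c ∧
      LM M.GG (UB (FR M φ) φ.t (rr K E c y) j) (K + 4) ((FR M φ).a j) ((FR M φ).b j)
        (mu K c y (FR M φ) j) c.dl (Lam K c y ^ 2 * rr K E c y)) ∧
    (|(FR M φ).a 0| ≤ 1 → 5 / 100 ≤ dP ((FR M φ).X 0) →
      FoldOn M.GG (UB (FR M φ) φ.t (rr K E c y) 0) c.L ∧
      11 / 10 ≤ dP ((FR M φ).X 0) ∧ 11 / 10 ≤ dP ((FR M φ).X 1))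

/-- certificate of a datum at level `y` -/
structure RefD (K E : ℕ) (c : Cs) (Ex : ExT) (M : Mdl) (y : ℝ) (φ : Fd) (w : ℤ → ℝ) : Prop where
  ok : φ.OK c Ex M y
  ref : ∀ θ, 1 / 2 ≤ θ → θ ≤ 1 → Ref M.GG (K + 4) E (rd K E c Ex M y φ w θ)
  rho : (rd K E c Ex M y φ w 1).ρ = (φ.S M).rho φ.ξ φ.n (φ.n + FJ c Ex M y φ)
  rho_le : |(rd K E c Ex M y φ w 1).ρ| ≤ 2 / c.S0 y ^ 10
  kchi : ∀ i j, Fs c M y φ - 1 ≤ i → i ≤ j → j ≤ 0 →
    (FR M φ).kp w i j ≤ Lam K c y ^ 2 * Real.exp (-(FR M φ).chi c i j)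
  short : (FR M φ).chi c (Fs c M y φ + 1) 0 < y
  lo : -φ.n ≤ Fs c M y φ
  trunc : Tr c M y φ → Fs c M y φ = -φ.n ∧ (FR M φ).X (Fs c M y φ - 1) = 10 ∧
    Fxi φ (Fs c M y φ - 1) = 0
  hor : y ≤ (FR M φ).chi c 0 (FJ c Ex M y φ)
  wp : (φ.S M).Wp c φ.n (φ.n + FJ c Ex M y φ) ≤ Real.sqrt c.a * y / 100
  brun : ∃ Ls r, (φ.S M).BRun c Ex φ.ξ φ.n Ls (φ.n + FJ c Ex M y φ) r
  pos : ∀ j, |(FR M φ).X j| ≤ 5 / 4 * c.L
  a0 : |(FR M φ).a 0| ≤ 1
  far : 11 / 10 ≤ dP ((FR M φ).X 0) ∧ 11 / 10 ≤ dP ((FR M φ).X 1)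
  tw : FromT c M y φ w

def CERT_s (K E : ℕ) (c : Cs) : Prop := 10 ≤ E → ∀ M : Mdl, M.OKk c (K + 6) → ∀ Ex y (φ : Fd),
  φ.OK c Ex M y → ∃ w, RefD K E c Ex M y φ w

/-- certificate and seed family of a datum -/
structure Good (K E e : ℕ) (c : Cs) (Ex : ExT) (M : Mdl) (y : ℝ) (φ : Fd) (w : ℤ → ℝ) (F : Fm) :
    Prop where
  rf : RefD K E c Ex M y φ w
  sol : ∀ τ ∈ Set.Ioo (φ.t - 3 * c.rU y) (φ.t + 3 * c.rU y),
    Sol M.GG (rd K E c Ex M y φ w 1) τ (F.x τ) (F.e τ)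
  tube : ∀ τ ∈ Set.Ioo (φ.t - 3 * c.rU y) (φ.t + 3 * c.rU y),
    Tube (FR M φ) (F.x τ) (Fs c M y φ - 1) (FJ c Ex M y φ) (1 / c.S0 y ^ 2)
  sm : ∀ τ ∈ Set.Ioo (φ.t - 3 * c.rU y) (φ.t + 3 * c.rU y), F.Sm (Fs c M y φ - 1) (FJ c Ex M y φ) τ
  jb : ∀ τ ∈ Set.Ioo (φ.t - 3 * c.rU y) (φ.t + 3 * c.rU y),
    F.Jb (K + 4) e (mu K c y (FR M φ)) (Dd c 1 (FR M φ)) (Fs c M y φ - 1) (FJ c Ex M y φ) τ
  jc : ∀ τ ∈ Set.Ioo (φ.t - 3 * c.rU y) (φ.t + 3 * c.rU y),
    (∀ n, 1 ≤ n → n ≤ K + 4 → |iteratedDeriv n (F.X 0) τ| ≤ del c) ∧ |deriv (F.X 1) τ - 1| ≤ 1 / 10 ∧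
    ∀ n, 2 ≤ n → n ≤ K + 4 → |iteratedDeriv n (F.X 1) τ| ≤ 1

def PKG_s (K E e : ℕ) (c : Cs) : Prop := ∀ M : Mdl, M.OKk c (K + 6) → ∀ Ex y (φ : Fd),
  φ.OK c Ex M y → ∃ w F, Good K E e c Ex M y φ w F

def seed (c : Cs) (Ex : ExT) (M : Mdl) (y : ℝ) (φ : Fd) (F : Fm) : Seed :=
  ⟨F.X 1, F.X 0, φ.n + FJ c Ex M y φ⟩

def ROK_s (K E e : ℕ) (c : Cs) : Prop := ∀ M : Mdl, M.OKk c (K + 6) → ∀ Ex y φ w F,
  Good K E e c Ex M y φ w F → (seed c Ex M y φ F).OK K c Ex M y φ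

def RCR_s (K E e : ℕ) (c : Cs) : Prop := ∀ M : Mdl, M.OKk c (K + 6) → ∀ Ex y y' φ w F w' F',
  Good K E e c Ex M y φ w F → Good K E e c Ex M y' φ w' F' → y' ≤ y → ∀ n ≤ K + 1,
    |dj n (F.X 1) (F'.X 1) φ.t| ≤ tiny y' ∧ |dj n (F.X 0) (F'.X 0) φ.t| ≤ tiny y'

def RSM_s (K E e : ℕ) (c : Cs) : Prop := ∀ M : Mdl, M.OKk c (K + 6) → ∀ Ex y φ w F φ' w' F',
  Good K E e c Ex M y φ w F → Good K E e c Ex M y φ' w' F' → |φ'.t - φ.t| ≤ c.rU y →
  ((φ.S M).Nw c φ.n (2 * y + 3 * c.bl) : ℤ) ≤ φ.n → ((φ'.S M).Nw c φ'.n (2 * y) : ℤ) ≤ φ'.n →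
  (∀ j : ℕ, j ≤ (φ.S M).Nw c φ.n (2 * y + 3 * c.bl) →
    |(φ'.S M).X (φ'.n - j) - (φ.S M).X (φ.n - j)| ≤ c.rU y) →
  ∀ t, |t - φ'.t| ≤ c.rU y → |F.X 0 t - F'.X 0 t| ≤ Real.exp (-y / 2)

/-- two packages in one class over the window with centre `tU` -/
structure SameC (K E e : ℕ) (c : Cs) (Ex : ExT) (M : Mdl) (y tU : ℝ) (φ : Fd) (w : ℤ → ℝ) (F : Fm)
    (φ' : Fd) (w' : ℤ → ℝ) (F' : Fm) : Prop where
  g : Good K E e c Ex M y φ w F
  g' : Good K E e c Ex M y φ' w' F'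
  ht : |φ.t - tU| ≤ c.rU y
  ht' : |φ'.t - tU| ≤ c.rU y
  hs : Fs c M y φ' = Fs c M y φ
  hJ : FJ c Ex M y φ' = FJ c Ex M y φ
  tr : Tr c M y φ' ↔ Tr c M y φ
  c0 : |F'.X 0 tU - F.X 0 tU| ≤ c.rU y / 10
  v0 : |F'.X 1 tU - F.X 1 tU| ≤ c.rU y / 10

/-- the orbits of two data are close on `[i, 0]` -/
def Cl (K E : ℕ) (c : Cs) (M : Mdl) (y : ℝ) (φ φ' : Fd) (i : ℤ) : Prop :=
  ∀ l, i ≤ l → l ≤ 0 → |(FR M φ').X l - (FR M φ).X l| ≤ rr K E c y / 4

/-- the second family seen from the first reference -/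
def RPRE_s (K E e : ℕ) (c : Cs) : Prop := ∀ M : Mdl, M.OKk c (K + 6) → ∀ Ex y tU φ w F φ' w' F',
  SameC K E e c Ex M y tU φ w F φ' w' F' → Cl K E c M y φ φ' 0 ∧
  ∀ τ, |τ - tU| ≤ 3 / 2 * c.rU y → |F'.X 0 τ - F.X 0 τ| ≤ c.rU y ∧ |F'.X 1 τ - F.X 1 τ| ≤ c.rU y ∧
    |F.η 1 τ - F.η 1 tU| ≤ c.rU y ∧ |F'.η 1 τ - F.η 1 τ| ≤ c.rU y ∧ |F.η 1 τ| ≤ del c ∧
    ∀ i, Fs c M y φ ≤ i → i ≤ 0 → ∀ i', i - 1 ≤ i' → i' ≤ 0 → Cl K E c M y φ φ' i' →
      Two M.GG (K + 4) (2 * e) ((rd K E c Ex M y φ w (1 / 2)).from i) τ F F' i'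

/-- close histories -/
def RTA_s (K E e : ℕ) (c : Cs) : Prop := ∀ M : Mdl, M.OKk c (K + 6) → ∀ Ex y tU φ w F φ' w' F',
  SameC K E e c Ex M y tU φ w F φ' w' F' → ∀ τ, |τ - tU| ≤ 3 / 2 * c.rU y → ∀ n ≤ K + 4,
  (∀ i, Fs c M y φ - 1 ≤ i → i ≤ -1 → Cl K E c M y φ φ' i →
    |dj n (F'.X 0) (F.X 0) τ| ≤ Lam K c y ^ E * (FR M φ).kp w i 0 ∧
    |dj n (F'.X 1) (F.X 1) τ| ≤ Lam K c y ^ E * (FR M φ).kp w i 0) ∧
  (Cl K E c M y φ φ' (Fs c M y φ) →
    |dj n (F'.X 0) (F.X 0) τ| ≤ tiny y / 8 ∧ |dj n (F'.X 1) (F.X 1) τ| ≤ tiny y / 8)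

/-- separated histories -/
def RTB_s (K E e : ℕ) (c : Cs) : Prop := ∀ M : Mdl, M.OKk c (K + 6) → ∀ Ex y tU φ w F φ' w' F' (ν : ℝ),
  SameC K E e c Ex M y tU φ w F φ' w' F' → |F.η 1 tU - ν| ≤ c.rU y →
  ∀ j, Fs c M y φ ≤ j → j ≤ 0 → Cl K E c M y φ φ' j →
  rr K E c y / 4 < |(FR M φ').X (j - 1) - (FR M φ).X (j - 1)| → ∀ τ, |τ - tU| ≤ 3 / 2 * c.rU y →
  (FR M φ).kp w (j - 1) 0
    ≤ Lam K c y ^ (4 * E) * |F'.X 1 τ - F.X 1 τ - ν * (F'.X 0 τ - F.X 0 τ)| ∧
  ∀ n ≤ K + 4,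
    |dj n (F'.X 0) (F.X 0) τ| ≤ Lam K c y ^ (4 * E) * |F'.X 1 τ - F.X 1 τ - ν * (F'.X 0 τ - F.X 0 τ)| ∧
    |dj n (F'.X 1) (F.X 1) τ| ≤ Lam K c y ^ (4 * E) * |F'.X 1 τ - F.X 1 τ - ν * (F'.X 0 τ - F.X 0 τ)|

/-- the clause `two` of `Cls` -/
def RTW_s (K E e : ℕ) (c : Cs) : Prop := ∀ M : Mdl, M.OKk c (K + 6) → ∀ Ex y tU φ w F φ' w' F' (ν l : ℝ),
  SameC K E e c Ex M y tU φ w F φ' w' F' → |F.η 1 tU - ν| ≤ c.rU y → |ν| ≤ 1 →
  l = F'.X 1 tU - F.X 1 tU - ν * (F'.X 0 tU - F.X 0 tU) → ∀ τ, |τ - tU| ≤ 3 / 2 * c.rU y →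
  |F'.X 1 τ - F.X 1 τ - ν * (F'.X 0 τ - F.X 0 τ) - l| ≤ |l| / 100 + tiny y ∧ ∀ n ≤ 3,
    |dj n (F'.X 1) (F.X 1) τ| ≤ c.S0 y * |l| + tiny y ∧ |dj n (F'.X 0) (F.X 0) τ| ≤ c.S0 y * |l| + tiny y

/-- what the count needs from two labels -/
structure PairF (K E : ℕ) (c : Cs) (M : Mdl) (y : ℝ) (φ : Fd) (w : ℤ → ℝ) (φ' : Fd) (d : ℝ) : Prop where
  c0 : Cl K E c M y φ φ' 0
  d0 : |d| ≤ 1
  a1 : ∀ i, Fs c M y φ - 1 ≤ i → i ≤ -1 → Cl K E c M y φ φ' i →
    |d| ≤ 2 * Lam K c y ^ E * (FR M φ).kp w i 0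
  a2 : Cl K E c M y φ φ' (Fs c M y φ) → |d| ≤ tiny y / 4
  b : ∀ j, Fs c M y φ ≤ j → j ≤ 0 → Cl K E c M y φ φ' j →
    rr K E c y / 4 < |(FR M φ').X (j - 1) - (FR M φ).X (j - 1)| →
    (FR M φ).kp w (j - 1) 0 ≤ Lam K c y ^ (4 * E) * |d|

/-- the clauses `loc` and `low` of `Cls` -/
def RLL_s (K E : ℕ) (c : Cs) : Prop := ∀ M : Mdl, M.OK c → ∀ (Ex : ExT) (y tU : ℝ) (Z : Type)
  (φ : Z → Fd) (w : Z → ℤ → ℝ) (lab : Z → ℝ), c.bl / 4 < y →
  (∀ z, RefD K E c Ex M y (φ z) (w z)) → (∀ z, |(φ z).t - tU| ≤ c.rU y) →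
  (∀ z z', Fs c M y (φ z') = Fs c M y (φ z)) →
  (∀ z z', PairF K E c M y (φ z) (w z) (φ z') (lab z' - lab z)) →
  (∀ x l1 l2, tiny y ≤ l2 → l2 ≤ l1 →
    CovI {u | u ∈ Set.Icc x (x + l1) ∧ ∃ z, lab z = u} (c.S0 y * (l1 / l2) ^ c.dpl) l2) ∧
  ∀ l, 0 ≤ l → CovI {u | ∃ z, ((φ z).S M).load c (φ z).n (y / c.C0) ≤ l ∧ lab z = u}
    (c.S0 y * 2 ^ l) (tiny y)

end
end Pool.Agent.MP_9cbfe4_an.SS

end

/-! ### Part NS -/

section

/-! Section S, rows NS and MUC, and small facts about the numbers. -/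

namespace Pool.Agent.MP_9cbfe4_an.SS

open Finset Filter Topology

theorem Lam_pos (K : ℕ) (c : Cs) (y : ℝ) : 0 < Lam K c y := Real.exp_pos _
theorem mu_pos (K : ℕ) (c : Cs) (y : ℝ) (S : Sq) (j : ℤ) : 0 < mu K c y S j := Real.exp_pos _
theorem S0_pos (c : Cs) (y : ℝ) : 0 < c.S0 y := Real.exp_pos _
theorem rU_pos (c : Cs) (y : ℝ) : 0 < c.rU y := by
  have := S0_pos c y
  unfold Cs.rU; positivity
theorem rr_pos (K E : ℕ) (c : Cs) (y : ℝ) : 0 < rr K E c y := by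
  have := Lam_pos K c y
  unfold rr; positivity
theorem tiny_pos (y : ℝ) : 0 < tiny y := Real.exp_pos _
namespace NuS
variable {K E : ℕ} {c : Cs} (h : NuS K E c)
include h

theorem bl_ge : 10000 ≤ c.bl := by have := h.chK.2.2; norm_num at this; exact this
theorem L_ge : 10000 ≤ c.L := by have := h.L.1; norm_num at this; exact this
theorem chK_ge : 1 / 2 ≤ c.chK := le_trans (by linarith only [Real.log_two_gt_d9]) h.chK.1
theorem chK_bl : c.chK ≤ c.bl := by linarith only [h.chK.2.1, h.bl_ge]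
theorem chi_nonneg (S : Sq) (i j : ℤ) : 0 ≤ S.chi c i j :=
  S.chi_nonneg c (by linarith only [h.chK_ge]) h.chK_bl i j
theorem chd_nonneg (S : Sq) (j : ℤ) : 0 ≤ chd c S j :=
  add_nonneg (h.chi_nonneg S _ _) (h.chi_nonneg S _ _)
/-- `10 ^ 4 (E + K + 30) a ≤ 1` -/
theorem aE1 : 10000 * ((E : ℝ) + K + 30) * c.a ≤ 1 := by
  have h1 := h.aE
  obtain h2 : (1 : ℝ) ≤ (E : ℝ) + K + 30 := by
    have : (0 : ℝ) ≤ E := Nat.cast_nonneg E
    have : (0 : ℝ) ≤ K := Nat.cast_nonneg K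
    linarith only []
  have h3 : (E : ℝ) + K + 30 ≤ ((E : ℝ) + K + 30) ^ 2 := le_self_pow₀ h2 two_ne_zero
  have h4 := mul_le_mul_of_nonneg_right h3 h.a0.le
  norm_num at h1
  linarith only [h4, h1]
theorem del_le : del c ≤ 1 / 1000 := by
  have h1 := Real.add_one_le_exp (c.bl / 4)
  have h2 := h.bl_ge
  rw [del, neg_div, Real.exp_neg, ← one_div]
  exact one_div_le_one_div_of_le (by norm_num) (by linarith only [h1, h2])

variable {y : ℝ} (hy : c.bl / 4 < y)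
include hy

theorem y_ge : 2500 ≤ y := by linarith only [hy, h.bl_ge]
theorem Lam_ge : 10 ^ 12 ≤ Lam K c y := by
  have h1 := (h.lam y hy).1
  have h2 := h.L_ge
  have h3 := h.bl_ge
  obtain this : (10000 : ℝ) * 10000 ≤ c.L * c.bl := mul_le_mul h2 h3 (by norm_num) (by linarith only [h2])
  norm_num at h1 ⊢
  linarith only [this, h1]
theorem Lam_ge' : 1000 ≤ Lam K c y := le_trans (by norm_num) (h.Lam_ge hy)
theorem Lam_pow {a b : ℕ} (hab : a ≤ b) : Lam K c y ^ a ≤ Lam K c y ^ b :=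
  pow_le_pow_right₀ (by linarith only [h.Lam_ge' hy]) hab
theorem Lam_pow_S0 {k : ℕ} (hk : k ≤ 20 * E + 1000) : Lam K c y ^ k ≤ c.S0 y :=
  (h.Lam_pow hy hk).trans (h.lam y hy).2.1
theorem Lam_S0 : Lam K c y ≤ c.S0 y := by simpa using h.Lam_pow_S0 hy (k := 1) (by omega)
theorem S0_ge : 1000 ≤ c.S0 y := (h.Lam_ge' hy).trans (h.Lam_S0 hy)
theorem S0_pow {a b : ℕ} (hab : a ≤ b) : c.S0 y ^ a ≤ c.S0 y ^ b :=
  pow_le_pow_right₀ (by linarith only [h.S0_ge hy]) hab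
theorem S0_pow_exp {k : ℕ} (hk : k ≤ 100) : c.S0 y ^ k ≤ Real.exp (y / 100) :=
  (h.S0_pow hy hk).trans (h.lam y hy).2.2.1
/-- `Λ^k / S0 ≤ r` -/
theorem inv_S0_rr {k : ℕ} (hk : k ≤ 19 * E + 1000) : Lam K c y ^ k * (1 / c.S0 y) ≤ rr K E c y := by
  have h0 := S0_pos c y
  have h1 := Lam_pos K c y
  obtain h2 := h.Lam_pow_S0 hy (k := k + E) (by omega)
  rw [rr, mul_one_div, div_le_div_iff₀ h0 (by positivity), one_mul, ← pow_add]
  exact h2
/-- `Λ^k / S0^2 ≤ r / 1000` -/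
theorem inv_S0_sq_rr {k : ℕ} (hk : k ≤ 19 * E + 1000) :
    Lam K c y ^ k * (1 / c.S0 y ^ 2) ≤ rr K E c y / 1000 := by
  have h0 := S0_pos c y
  have h1 := h.inv_S0_rr hy hk
  obtain h2 : 1 / c.S0 y ≤ 1 / 1000 := one_div_le_one_div_of_le (by norm_num) (h.S0_ge hy)
  calc Lam K c y ^ k * (1 / c.S0 y ^ 2) = Lam K c y ^ k * (1 / c.S0 y) * (1 / c.S0 y) := by
        field_simp
    _ ≤ rr K E c y * (1 / 1000) := mul_le_mul h1 h2 (by positivity) (rr_pos K E c y).le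
    _ = _ := by ring
theorem S0_sq_rr : 1 / c.S0 y ^ 2 ≤ rr K E c y / 1000 := by
  simpa using h.inv_S0_sq_rr hy (k := 0) (by omega)
/-- `1000 S0^k ≤ e^{y/100}` -/
theorem S0_exp {k : ℕ} (hk : k ≤ 99) : 1000 * c.S0 y ^ k ≤ Real.exp (y / 100) := by
  refine le_trans ?_ (h.S0_pow_exp hy (k := k + 1) (by omega))
  rw [pow_succ']
  exact mul_le_mul_of_nonneg_right (h.S0_ge hy) (pow_pos (S0_pos c y) k).le
theorem S0_pow_tiny {k : ℕ} (hk : k ≤ 99) : c.S0 y ^ k * Real.exp (-y / 2) ≤ tiny y / 1000 := by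
  have h1 := mul_le_mul_of_nonneg_right (h.S0_exp hy hk) (Real.exp_pos (-y / 2)).le
  rw [← Real.exp_add] at h1
  obtain h2 : Real.exp (y / 100 + -y / 2) ≤ tiny y :=
    Real.exp_le_exp.2 (by linarith only [h.y_ge hy])
  linarith only [h1, h2]
theorem Lam_pow_tiny {k : ℕ} (hk : k ≤ 20 * E + 1000) :
    Lam K c y ^ k * Real.exp (-y / 2) ≤ tiny y / 1000 := by
  obtain this := h.S0_pow_tiny hy (k := 1) (by omega)
  rw [pow_one] at this
  exact (mul_le_mul_of_nonneg_right (h.Lam_pow_S0 hy hk) (Real.exp_pos _).le).trans this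
theorem one_le_mu (S : Sq) (j : ℤ) : 1 ≤ mu K c y S j := by
  obtain h1 : 0 ≤ min (chd c S j) (y + 2 * c.bl) :=
    le_min (h.chd_nonneg S j) (by linarith only [hy, h.bl_ge])
  have h2 := h.a0
  have h3 := h.bl_ge
  exact Real.one_le_exp (by (clear * - h2 h3 h1; positivity))
omit hy in
theorem mu_le (y : ℝ) (S : Sq) (j : ℤ) : mu K c y S j ≤ Lam K c y := by
  obtain this := mul_le_mul_of_nonneg_left (min_le_right (chd c S j) (y + 2 * c.bl))
    (by linarith only [h.a0] : 0 ≤ 8 * c.a)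
  exact Real.exp_le_exp.2 (by linarith only [this])

theorem ch1_le {S S' : Sq} {l : ℤ} (h1 : |S'.X l - S.X l| ≤ 1 / Lam K c y)
    (h2 : |S'.X (l - 1) - S.X (l - 1)| ≤ 1 / Lam K c y) : S'.ch1 c l ≤ 11 / 10 * S.ch1 c l := by
  have k := S.kk_lip S' l l
  have hL := Lam_pos K c y
  have a1 := (h.lam y hy).1
  have a2 := h.L_ge
  have a3 := h.bl_ge
  have a4 := h.chK_ge
  have a5 := (S.ch1_mem c h.chK_bl l).1
  obtain b1 : 1 / Lam K c y * c.bl ≤ 1 / 10000 := by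
    rw [one_div_mul_eq_div, div_le_iff₀ hL]
    obtain this := mul_le_mul_of_nonneg_right a2 (le_trans (by norm_num) a3 : (0 : ℝ) ≤ c.bl)
    linarith only [a1, this, a3]
  obtain b2 : |S'.kk l - S.kk l| * c.bl ≤ 1 / 100 := by
    obtain this := mul_le_mul_of_nonneg_right (show |S'.kk l - S.kk l| ≤ 100 * (1 / Lam K c y) by linarith only [h1, h2, k])
      (by linarith only [a3] : 0 ≤ c.bl)
    linarith only [b1, this]
  obtain e : S'.ch1 c l = S.ch1 c l + -(S'.kk l - S.kk l) * (c.bl - c.chK) := by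
    unfold Sq.ch1; ring
  obtain b3 : -(S'.kk l - S.kk l) * (c.bl - c.chK) ≤ |S'.kk l - S.kk l| * c.bl :=
    mul_le_mul (neg_le_abs _) (by linarith only [a4]) (by linarith only [h.chK_bl]) (abs_nonneg _)
  linarith only [a4, a5, b2, e, b3]
end NuS

theorem muc : MUC_s := by
  intro K E c y h hy
  have a0 := h.a0
  have bl := h.bl_ge
  refine ⟨fun S S' i J hi hJ hX => ?_, fun S j θ θ' hθ => ⟨h.one_le_mu hy S j, h.mu_le y S j, ?_⟩,
    fun S j y' hy' hyy => ⟨fun hc => ?_, fun e he hj => ?_⟩⟩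
  · obtain key : ∀ p q, i ≤ p → q ≤ J →
        S'.chi c p q ≤ 11 / 10 * S.chi c p q ∧ S.chi c p q ≤ 11 / 10 * S'.chi c p q := by
      intro p q hp hq
      unfold Sq.chi
      rw [mul_sum, mul_sum]
      refine ⟨sum_le_sum fun l hl => ?_, sum_le_sum fun l hl => ?_⟩
      · have := mem_Ioc.1 hl
        exact h.ch1_le hy (hX l (by omega) (by omega)) (hX (l - 1) (by omega) (by omega))
      · have := mem_Ioc.1 hl
        exact h.ch1_le hy (by rw [abs_sub_comm]; exact hX l (by omega) (by omega))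
          (by rw [abs_sub_comm]; exact hX (l - 1) (by omega) (by omega))
    refine ⟨key, fun j a b => ⟨?_, ?_⟩⟩
    · have k1 := (key j 0 a hJ).1
      have k2 := (key 0 j hi b).1
      have n1 := h.chd_nonneg S j
      obtain m : min (chd c S' j) (y + 2 * c.bl) ≤ 2 * min (chd c S j) (y + 2 * c.bl) := by
        rcases le_total (chd c S j) (y + 2 * c.bl) with d | d
        · rw [min_eq_left d]
          refine (min_le_left _ _).trans ?_
          unfold chd at n1 ⊢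
          linarith only [k1, k2, n1]
        · rw [min_eq_right d]
          exact (min_le_right _ _).trans (by linarith only [hy, bl])
      obtain m2 := mul_le_mul_of_nonneg_left m (by linarith only [a0] : 0 ≤ 8 * c.a)
      obtain p : 0 ≤ ((K : ℝ) + 30) * (c.a * c.bl) := by (clear * - a0 bl; positivity)
      rw [mu, mu, ← Real.exp_nat_mul]
      refine Real.exp_le_exp.2 ?_
      push_cast
      linarith only [m2, p]
    · have k2 := (key 0 j hi b).2
      have := h.chi_nonneg S' 0 j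
      exact Real.exp_le_exp.2 (by linarith only [k2, this])
  · have := mul_le_mul_of_nonneg_right hθ (h.chi_nonneg S 0 j)
    exact Real.exp_le_exp.2 (by linarith only [this])
  · rw [mu, mu, min_eq_left hc, min_eq_left (by linarith only [hyy, hc])]
  · obtain e0 : chd c S j = S.chi c 0 j := by
      obtain this : Ioc j 0 = ∅ := Ioc_eq_empty (by omega)
      simp [chd, Sq.chi, this]
    have n := h.chi_nonneg S 0 j
    have m1 : min (S.chi c 0 j) (y + 2 * c.bl) ≤ S.chi c 0 j := min_le_left _ _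
    obtain m2 : 0 ≤ min (S.chi c 0 j) (y' + 2 * c.bl) := le_min n (by linarith only [bl, hy'])
    obtain he' : (e : ℝ) ≤ E := by exact_mod_cast he
    have e1 : (0 : ℝ) ≤ e := Nat.cast_nonneg e
    have k0 : (0 : ℝ) ≤ K := Nat.cast_nonneg K
    obtain ea : 16 * (e * c.a) ≤ 1 := by
      linarith only [h.aE1, mul_le_mul_of_nonneg_right he' a0.le, mul_nonneg e1 a0.le,
        mul_nonneg k0 a0.le, a0]
    obtain ea0 : 0 ≤ e * c.a := by positivity
    have q1 := mul_le_mul_of_nonneg_left m1 ea0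
    have q2 := mul_nonneg ea0 m2
    have q3 := mul_le_mul_of_nonneg_right ea n
    rw [mu, mu, Dd, Dd, e0, ← Real.exp_nat_mul, ← Real.exp_nat_mul, ← Real.exp_add, ← Real.exp_add]
    refine Real.exp_le_exp.2 ?_
    linarith only [q1, q2, q3]

theorem ns : NS_s := by
  intro K E
  obtain ⟨A, hA⟩ : ∃ A : ℝ, A = 10000 * (20 * (E : ℝ) + 1000) * (4 * K + 192) := ⟨_, rfl⟩
  have e0 : (0 : ℝ) ≤ E := Nat.cast_nonneg E
  have k0 : (0 : ℝ) ≤ K := Nat.cast_nonneg K
  obtain A1 : 100 * ((E : ℝ) + K + 30) ≤ A := by rw [hA]; linarith only [mul_nonneg e0 k0, e0, k0]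
  obtain A2 : 10000 ≤ A := by rw [hA]; linarith only [mul_nonneg e0 k0, e0, k0]
  obtain A0 : 0 < A := by linarith only [A2]
  obtain H1 := Hier.a_le (fun _ => 1 / A ^ 2) (fun _ _ _ _ _ _ => rfl) (Hier.of_all fun _ => by positivity)
  have H2 := Hier.β_ge (fun c => max 10000 (10000 / c.a)) fun _ _ _ => rfl
  have H3 := Hier.lam_ge (fun _ => max 1 (((K + 7).factorial : ℝ) * 2 ^ (K + 7))) fun _ _ => rfl
  have H4 := Hier.L_ge (fun c => max 10000 (10000 * c.CG * c.β)) fun _ _ => rfl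
  refine (Hier.base.and (H1.and (H2.and (H3.and H4)))).mono ?_
  rintro c ⟨⟨b1, b2, -, -, -, b6⟩, ⟨a0, a1⟩, h2, h3, h4⟩
  obtain ⟨β1, β2⟩ := max_le_iff.1 h2
  obtain ⟨l1, l2⟩ := max_le_iff.1 h3
  obtain ⟨L1, L2⟩ := max_le_iff.1 h4
  rw [div_le_iff₀ a0] at β2
  rw [le_div_iff₀ (by positivity)] at a1
  obtain bl : 10000 ≤ c.bl := by
    unfold Cs.bl
    linarith only [l1, mul_le_mul_of_nonneg_right β1 (zero_le_one.trans l1)]
  obtain abl : 10000 * c.lam ≤ c.a * c.bl := by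
    unfold Cs.bl
    linarith only [mul_le_mul_of_nonneg_right β2 (zero_le_one.trans l1)]
  obtain L0 : 0 < c.L := by linarith only [b1, b2, L1]
  have eL : Real.exp c.lam = c.L := Real.exp_log L0
  obtain lL : c.lam ≤ c.L := by linarith only [b1, b2, eL, Real.add_one_le_exp c.lam]
  obtain big : 10 ^ 4 * c.CG * c.L * c.bl ≤ Real.exp (c.a * c.bl) := by
    obtain h5 : Real.exp (3 * c.lam) ≤ Real.exp (c.a * c.bl) := Real.exp_le_exp.2 (by linarith only [b1, b2, l1, abl])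
    obtain h6 : Real.exp (3 * c.lam) = c.L * c.L * c.L := by
      rw [show 3 * c.lam = c.lam + c.lam + c.lam by ring, Real.exp_add, Real.exp_add, eL]
    obtain h7 : 10000 * c.CG * c.β * c.lam ≤ c.L * c.L := mul_le_mul L2 lL (by linarith only [b1, b2, l1]) L0.le
    have h8 := mul_le_mul_of_nonneg_right h7 L0.le
    obtain this : 10 ^ 4 * c.CG * c.L * c.bl = 10000 * c.CG * c.β * c.lam * c.L := by unfold Cs.bl; ring
    linarith only [h5, h6, h8, this]
  obtain k0' : 0 < c.k0 := by linarith only [b1, b2]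
  obtain ⟨s, hs⟩ : ∃ s, s = Real.sqrt c.a := ⟨_, rfl⟩
  have s0 : 0 < s := hs ▸ Real.sqrt_pos.2 a0
  obtain s2 : c.a = s * s := by rw [hs, Real.mul_self_sqrt a0.le]
  obtain sA : s * A ≤ 1 := by
    refine (pow_le_pow_iff_left₀ (by positivity) zero_le_one two_ne_zero).1 ?_
    rw [mul_pow, sq s, ← s2, one_pow]
    exact a1
  refine ⟨a0, ?_, by norm_num; linarith only [l1, abl], ⟨?_, ?_, by norm_num; exact bl⟩,
    ⟨by norm_num; exact L1, big, b6⟩, ?_, fun y hy => ?_⟩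
  · obtain h5 : (100 * ((E : ℝ) + K + 30)) ^ 2 ≤ A ^ 2 := pow_le_pow_left₀ (by positivity) A1 2
    have h6 := mul_le_mul_of_nonneg_left h5 a0.le
    linarith only [h6, a1]
  · refine Real.log_le_log (by norm_num) ?_
    rw [le_div_iff₀ k0']; linarith only [b2]
  · obtain h5 : c.chK ≤ Real.log 16 := by
      refine Real.log_le_log (by positivity) ?_
      rw [div_le_iff₀ k0']; linarith only [b1]
    obtain h6 : Real.log 16 = 4 * Real.log 2 := by
      rw [show (16 : ℝ) = 2 ^ 4 by norm_num, Real.log_pow]; norm_num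
    linarith only [b2, k0', h5, h6, Real.log_two_lt_d9]
  · linarith only [b2, l1, l2, abl, k0', Real.add_one_le_exp (c.a * c.bl)]
  · obtain y0 : 0 < y := by linarith only [b2, bl, k0', hy]
    obtain p1 : 0 ≤ c.a * c.bl := by linarith only [b2, l1, abl, k0']
    obtain p2 : 0 ≤ c.a * y := by positivity
    obtain p3 : 0 ≤ K * (c.a * c.bl) := by positivity
    obtain p4 : c.a * c.bl ≤ 4 * (c.a * y) := by
      linarith only [mul_le_mul_of_nonneg_left hy.le a0.le]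
    refine ⟨?_, ?_, ?_, ?_⟩
    · obtain h5 : Real.exp (c.a * c.bl) ≤ Lam K c y := Real.exp_le_exp.2 (by linarith only [b2, l1, abl, k0', p3, p4])
      obtain h6 : c.L * c.bl ≤ c.CG * (c.L * c.bl) := le_mul_of_one_le_left (by positivity) b6
      linarith only [big, h5, h6]
    · rw [Lam, Cs.S0, ← Real.exp_nat_mul, ← hs]
      refine Real.exp_le_exp.2 ?_
      obtain h5 : ((K : ℝ) + 30) * (c.a * c.bl) + 8 * c.a * (y + 2 * c.bl)
          ≤ (4 * K + 192) * (c.a * y) := by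
        linarith only [mul_le_mul_of_nonneg_left p4 k0, p4]
      obtain h6 := mul_le_mul_of_nonneg_left h5 (by positivity : 0 ≤ 20 * (E : ℝ) + 1000)
      obtain h7 := mul_le_mul_of_nonneg_right sA (by positivity : 0 ≤ s * y)
      obtain h8 : (20 * (E : ℝ) + 1000) * ((4 * K + 192) * (c.a * y)) = s * A * (s * y) / 10000 := by
        rw [hA, s2]; ring
      obtain h9 : 0 ≤ s * y := by positivity
      push_cast
      linarith only [h6, h7, h8, h9]
    · rw [Cs.S0, ← Real.exp_nat_mul, ← hs]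
      refine Real.exp_le_exp.2 ?_
      have h5 : s * 10000 ≤ 1 := (mul_le_mul_of_nonneg_left A2 s0.le).trans sA
      have h6 := mul_le_mul_of_nonneg_right h5 y0.le
      push_cast
      linarith only [h6]
    · exact Real.exp_le_exp.2 (by linarith only [b2, l1, abl, k0', p3, p4])

end Pool.Agent.MP_9cbfe4_an.SS

end
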