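import Pool.Agent.MP_9cbfe4_an.M02
import Pool.Agent.MP_9cbfe4_an.M05
import Pool.Agent.MP_9cbfe4_an.M07

set_option linter.all false

attribute [-instance] AddQuantale.instAddLeftMono IdemSemiring.toCanonicallyOrderedAdd
  NumberField.to_charZero AddQuantale.instAddRightMono IdemSemiring.toMulLeftMono RKHS.instFunLike
  Quantale.instMulRightMono Quantale.instMulLeftMono IsOrderedCancelMonoid.toIsOrderedMonoid
  LinearOrderedCommMonoidWithZero.toPosMulStrictMono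
  Group.IsPerfect.subsingleton_of_isMulCommutative CanonicallyOrderedAdd.toMulLeftMono
  Valued.toUniformSpace IdemSemiring.toMulRightMono TotallySeparatedSpace.t2Space
  LinearOrderedCommMonoidWithZero.toIsOrderedMonoid IsScalarTower.complexToReal
  Order.Coframe.toCompleteLattice OmegaCompletePartialOrder.toPartialOrder Invertible.toNeZero
  GrpTypeEquivalenceGrp.grpGroup littleWedderburn CanonicallyOrderedMul.toMulLeftMono
  CoalgHomClass.toSemilinearMapClass TestFunctionClass.toDFunLike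
  ContDiffMapSupportedInClass.toDFunLike Order.Frame.toCompleteLattice RightPreLieAlgebra.toModule
  CategoryTheory.Limits.Concrete.instUniqueToTypeTerminal LeftPreLieAlgebra.toModule
  CStarAlgebra.instOrderClosedTopology IdemSemiring.toSemiring
  LieAdmissibleRing.toNonUnitalNonAssocRing NonUnitalAlgSemiHomClass.toDistribMulActionSemiHomClass
  CStarAlgebra.toNormedRing

/-! ### Part APW -/

section

/-! Row APW. -/

namespace Pool.Agent.MP_9cbfe4_an

open Finset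

theorem apw : APW_s := by
  intro S E ξ w μ Y s Λ α r H hΛ α0 r0 hr hq hl h0
  have s0 := H.s0
  have mΛ : ∀ j, s - 1 ≤ j → j ≤ 0 → μ j ≤ Λ := fun j a b => (H.mono _ j le_rfl a b).trans hΛ
  obtain Λ1 : 1000 ≤ Λ := (H.big _ le_rfl (by omega)).trans hΛ
  obtain ⟨k, hk, hm⟩ := exists_max_image (Icc (s - 1) 0) (fun j => |Y j| / w j)
    ⟨0, mem_Icc.2 ⟨by omega, le_rfl⟩⟩
  obtain ⟨k1, k2⟩ := mem_Icc.1 hk
  have wk := H.wpos k k1 k2
  obtain ⟨N, hN⟩ : ∃ N, N = |Y k| / w k := ⟨_, rfl⟩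
  have N0 : 0 ≤ N := hN ▸ div_nonneg (abs_nonneg _) wk.le
  have yN : ∀ j, s - 1 ≤ j → j ≤ 0 → |Y j| ≤ N * w j := fun j a b =>
    (div_le_iff₀ (H.wpos j a b)).1 (hN ▸ hm j (mem_Icc.2 ⟨a, b⟩))
  obtain B0 : 0 ≤ α + 2 * Λ * (r * N) := by positivity
  obtain q : ∀ i, s ≤ i → i < 0 → |S.df Y i| ≤ w i * (α + 2 * Λ * (r * N)) := by
    intro i a b
    have wi := H.wpos i (by omega) b.le
    have e := H.kap 0 (Nat.zero_le _) (i - 1) i (by omega) (by omega) b.le
    have p := S.Pb_one (i - 1)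
    rw [sub_add_cancel] at p
    rw [Sq.kp, p, pow_zero, mul_one, zero_add, pow_one, div_le_iff₀ wi] at e
    obtain e1 : S.b i * w (i - 1) ≤ Λ * w i := e.trans (mul_le_mul_of_nonneg_right
      ((mul_le_of_le_one_right (by linarith only [a, H.big i (by omega) b.le])
        (pow_le_one₀ (by norm_num) (by norm_num))).trans (mΛ i (by omega) b.le)) wi.le)
    obtain e2 : S.sz Y i ≤ N * (2 * Λ * w i) := by
      rw [Sq.sz]
      nlinarith only [Λ1, yN i (by omega) b.le, mul_le_mul_of_nonneg_left e1 N0, mul_nonneg N0 wi.le,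
        mul_le_mul_of_nonneg_left (yN (i - 1) (by omega) (by omega)) (H.bpos i a b.le).le]
    linarith only [hq i a b, mul_le_mul_of_nonneg_left e2 r0]
  obtain sm : ∀ j, s - 1 ≤ j → j ≤ 0 → |∑ i ∈ Ico s j, S.fr (i + 1) j * S.df Y i| ≤
      Λ * (Λ * w j * (α + 2 * Λ * (r * N))) := by
    intro j a b
    have wj := H.wpos j a b
    refine ((abs_sum_le_sum_abs _ _).trans (sum_le_card_nsmul _ _
      (Λ * w j * (α + 2 * Λ * (r * N))) fun i hi => ?_)).trans ?_
    · obtain ⟨i1, i2⟩ := mem_Ico.1 hi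
      rw [abs_mul]
      refine (mul_le_mul_of_nonneg_left (q i i1 (by omega)) (abs_nonneg _)).trans ?_
      rw [← mul_assoc]
      exact mul_le_mul_of_nonneg_right ((H.frle i j (by omega) i2 b).trans
        (mul_le_mul_of_nonneg_right (mΛ i (by omega) (by omega)) wj.le)) B0
    · rw [nsmul_eq_mul]
      refine mul_le_mul_of_nonneg_right ?_ (by positivity)
      have := H.len (s - 1) le_rfl (by omega)
      rw [Int.card_Ico, ← Int.cast_natCast]
      exact (Int.cast_le.2 (show _ ≤ 2 - (s - 1) by omega)).trans (by push_cast at this ⊢; linarith only [hΛ, this])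
  have v := fun j => S.voc (Z := Y) (q := S.df Y) (s := s) (n := 0) (j := j)
    fun j _ _ => by rw [Sq.df]; ring
  have x0 := S.repr_on H.sol s0 le_rfl
  rw [H.one] at x0
  obtain ⟨c, hc⟩ : ∃ c, c = Y s * S.fr s 0 + S.b s * Y (s - 1) * S.fr (s + 1) 0 := ⟨_, rfl⟩
  obtain c1 : Y s = c * ξ s := by rw [hc]; linear_combination Y s * x0 - S.b s * S.fr (s + 1) 0 * hl
  obtain c2 : Y (s - 1) = c * ξ (s - 1) := by
    rw [hc]; linear_combination Y (s - 1) * x0 + S.fr s 0 * hl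
  obtain c3 : |c| ≤ α + Λ * (Λ * 4 * (α + 2 * Λ * (r * N))) := by
    rw [show c = Y 0 - ∑ i ∈ Ico s 0, S.fr (i + 1) 0 * S.df Y i by rw [v 0 s0 le_rfl, hc]; ring]
    refine (abs_sub _ _).trans (add_le_add h0 ((sm 0 (by omega) le_rfl).trans ?_))
    gcongr
    exact H.w0
  obtain e : Y k = c * ξ k + ∑ i ∈ Ico s k, S.fr (i + 1) k * S.df Y i := by
    rcases k1.eq_or_lt with rfl | k1
    · rw [c2, Ico_eq_empty (by omega), sum_empty, add_zero]
    · rw [v k (by omega) k2, S.repr_on H.sol (show s ≤ k by omega) k2, c1, c2]; ring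
  obtain e1 : N ≤ α + 5 * Λ ^ 2 * (α + 2 * Λ * (r * N)) := by
    rw [hN, div_le_iff₀ wk, ← hN, e]
    refine (abs_add_le _ _).trans ?_
    rw [abs_mul]
    linarith only [mul_le_mul c3 (H.maj k k1 k2) (abs_nonneg _) ((abs_nonneg _).trans c3), sm k k1 k2]
  obtain p7 : 20 ≤ Λ ^ 7 := le_trans (by linarith only [Λ1]) (le_self_pow₀ (by linarith only [Λ1]) (by norm_num))
  obtain e2 : 20 * (r * Λ ^ 3) ≤ 1 := by
    linarith only [hr, r0, Λ1, mul_le_mul_of_nonneg_left p7 (show 0 ≤ r * Λ ^ 3 by positivity)]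
  obtain e3 : 2 + 10 * Λ ^ 2 ≤ Λ ^ 7 := by
    obtain this : Λ ^ 3 ≤ Λ ^ 7 := pow_le_pow_right₀ (by linarith only [Λ1]) (by norm_num)
    nlinarith only [p7, this, Λ1]
  obtain e4 : N ≤ α * Λ ^ 7 := by
    linarith only [e1, mul_le_mul_of_nonneg_right e2 N0, mul_le_mul_of_nonneg_left e3 α0]
  exact fun j a b => (yN j a b).trans (mul_le_mul_of_nonneg_right e4 (H.wpos j a b).le)

end Pool.Agent.MP_9cbfe4_an

end

/-! ### Part RHO -/

section

/-! Rows RHO and BLK. -/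

namespace Pool.Agent.MP_9cbfe4_an
open Finset

/-- numeric facts used by RHO and BLK -/
structure RhoNum (c : Cs) : Prop where
  k0 : 0 < c.k0
  kL : 1 ≤ c.k0 * c.L
  L1 : 1 ≤ c.L
  lam : 0 ≤ c.lam
  K0 : 0 ≤ c.chK
  Kb : c.chK ≤ c.bl
  a0 : 0 < c.a
  a1 : c.a ≤ 1 / 2

theorem rhoNum : Hier RhoNum := by
  have h1 := Hier.base
  have h2 := Hier.L_ge (fun _ => 16) fun _ _ => rfl
  have h3 := Hier.lam_ge (fun _ => 1) fun _ _ => rfl
  have h4 := Hier.β_ge (fun _ => 16) fun _ _ _ => rfl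
  obtain h5 := Hier.a_le (fun _ => 1 / 2) (fun _ _ _ _ _ _ => rfl) (Hier.of_all fun _ => by norm_num)
  refine ((((h1.and h2).and h3).and h4).and h5).mono ?_
  rintro c ⟨⟨⟨⟨⟨k1, k2, -⟩, hL⟩, hl⟩, hb⟩, a0, a1⟩
  obtain k0 : 0 < c.k0 := by linarith only [k1, a0, a1]
  obtain e1 : 1 ≤ 1 / c.k0 := by rw [le_div_iff₀ k0]; linarith only [k2, k0]
  obtain e2 : 1 / c.k0 ≤ 16 := by rw [div_le_iff₀ k0]; linarith only [k1]
  refine ⟨k0, by nlinarith only [hL, k1], by linarith only [hL, k2, k0], by linarith only [hl, k2, k0], Real.log_nonneg e1, ?_, a0, a1⟩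
  obtain this := Real.log_le_sub_one_of_pos (show 0 < 1 / c.k0 by linarith only [k2, k0, e1])
  unfold Cs.chK Cs.bl; nlinarith only [hb, hl, k2, k0, e2, this]

namespace Sq
variable {c : Cs} {S : Sq}

theorem nu_le (N : RhoNum c) {ξ : ℤ → ℝ} {n p : ℤ} {Ls} (h : S.OK c) (n0 : 0 ≤ n) (hs : S.Sol ξ n)
    (h0 : ξ n ≠ 0) (R : S.RInv c (S.fr (n + 1)) (n + 1) p) (B : S.BInv c n Ls p) {j : ℤ}
    (h1 : n < j) (h2 : j ≤ p) :
    |ξ j / ξ n - S.rho ξ n p * S.fr (n + 1) j| ≤ Real.exp (-(1 - c.a) * S.chi c n j) := by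
  rw [S.nu_abs hs h0 R.ne h1.le h2]
  rcases h2.eq_or_lt with rfl | hlt
  · rw [fr_succ_self]; simp [Real.exp_nonneg]
  obtain ⟨i1, i2, -, i4⟩ := B.i6 j h1 h2
  have i4 := i4 p hlt le_rfl
  have x0 := S.chi_nonneg c N.K0 N.Kb n j
  obtain ⟨p0, p1⟩ := h.Pb_le (θ := 2 / 100) (by norm_num) (i := n) (j := j) (by omega)
  have p2 := p1.trans (S.PB_le c N.k0 N.kL N.Kb h1.le N.lam)
  obtain p3 : S.Pb n j ≤ Real.exp (-S.chi c n j + c.a / 8 * S.chi c n j) :=
    p2.trans (Real.exp_le_exp.2 (by linarith only [i1]))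
  have wp : S.wp c n p = |S.fr (n + 1) p| := R.whm
  have up : 0 < |S.fr (n + 1) p| := abs_pos.2 R.ne
  obtain b1 : S.Bc c (S.wp c n) j p ≤ Real.exp (c.a / 8 * S.chi c n j) :=
    i4.trans (mul_le_of_le_one_right (Real.exp_pos _).le
      (by have := Real.exp_pos (-S.chi c j p / 4); linarith only [this]))
  unfold Bc at b1
  rw [wp] at b1
  set q := |S.fr (j + 1) p| / |S.fr (n + 1) p| with hq
  obtain q0 : 0 ≤ q := by (clear * - up; positivity)
  obtain b2 : q * (c.L * S.wp c n j) ≤ Real.exp (c.a / 8 * S.chi c n j) := by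
    rw [hq]; refine le_trans (le_of_eq ?_) b1; ring
  have b3 : Real.exp (-(c.a / 8 * S.chi c n j)) ≤ c.L * S.wp c n j :=
    i2.trans (le_mul_of_one_le_left ((Real.exp_pos _).le.trans i2) N.L1)
  obtain b4 : q ≤ Real.exp (c.a / 8 * S.chi c n j + c.a / 8 * S.chi c n j) := by
    have := (mul_le_mul_of_nonneg_left b3 q0).trans b2
    rw [Real.exp_neg, ← div_eq_mul_inv, div_le_iff₀ (Real.exp_pos _), ← Real.exp_add] at this
    exact this
  rw [abs_of_pos p0, mul_div_assoc, ← hq]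
  refine (mul_le_mul p3 b4 q0 (Real.exp_pos _).le).trans ?_
  rw [← Real.exp_add]
  exact Real.exp_le_exp.2 (by linarith only [mul_nonneg N.a0.le x0])

end Sq

theorem rho : Hier RHO_s := rhoNum.mono fun c N S ξ n Ls p h ho R B => by
  obtain ⟨n0, hs, h0, -⟩ := ho
  refine ⟨fun j h1 h2 => Sq.nu_le N h n0 hs h0 R B h1 h2, fun j h1 h2 hw => ?_⟩
  have i2 := (B.i6 j h1 h2).2.1
  rw [hw] at i2
  have up : 0 < |S.fr (n + 1) j| := (Real.exp_pos _).trans_le i2
  have x0 := S.chi_nonneg c N.K0 N.Kb n j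
  rw [S.rho_sub p h0 (abs_pos.1 up), abs_div, div_le_iff₀ up]
  refine (Sq.nu_le N h n0 hs h0 R B h1 h2).trans
    (le_trans ?_ (mul_le_mul_of_nonneg_left i2 (Real.exp_pos _).le))
  rw [← Real.exp_add]
  exact Real.exp_le_exp.2 (by linarith only [mul_nonneg N.a0.le x0])

theorem blk : Hier BLK_s := rhoNum.mono fun c N S ξ s n Ls p h hst Rn R B hρ => by
  obtain ⟨s0, hs, -, -⟩ := hst
  have sn := Rn.le
  have h0 := Rn.ne
  have hs' := hs.mono sn
  have x0 := abs_pos.2 h0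
  have r0 := abs_pos.2 hρ
  refine ⟨S.rho_mul h0 R.ne, fun j h1 h2 => ?_⟩
  -- the `ν` part of `ξ i`, damped to time `j`
  have key : ∀ i, n < i → i ≤ j → |ξ i - ξ n * S.rho ξ n p * S.fr (n + 1) i| *
      Real.exp (-S.chi c i j / 2) ≤ |ξ n| * Real.exp (-S.chi c n j / 2) := by
    intro i a b
    obtain e : ξ i - ξ n * S.rho ξ n p * S.fr (n + 1) i =
        ξ n * (ξ i / ξ n - S.rho ξ n p * S.fr (n + 1) i) := by field_simp
    have xi := S.chi_nonneg c N.K0 N.Kb n i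
    obtain this := (Sq.nu_le N h (by omega) hs' h0 R B a (b.trans h2)).trans
      (Real.exp_le_exp.2 (show _ ≤ -S.chi c n i / 2 by nlinarith only [xi, N.a1]))
    rw [e, abs_mul, S.exp_chi_add c a.le b, mul_assoc]
    exact mul_le_mul_of_nonneg_left (mul_le_mul_of_nonneg_right this (Real.exp_pos _).le) x0.le
  obtain c2 : |ξ n| * Real.exp (-S.chi c n j / 2) ≤ S.wh c ξ s j := S.le_wh c ξ (by omega) h1.le
  have E0 := mul_pos x0 (Real.exp_pos (-S.chi c n j / 2))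
  obtain c3 : |ξ n| * |S.rho ξ n p| * S.wp c n j ≤
      S.wh c ξ s j + |ξ n| * Real.exp (-S.chi c n j / 2) := by
    rw [← le_div_iff₀' (mul_pos x0 r0)]
    refine S.wh_le c _ (div_nonneg (by linarith only [c2, E0]) (mul_pos x0 r0).le) fun i a b => ?_
    rw [le_div_iff₀' (mul_pos x0 r0)]
    rcases (show n ≤ i by omega).eq_or_lt with rfl | hlt
    · rw [Sq.fr_succ_self]; simp only [abs_zero, zero_mul, mul_zero]; linarith only [c2, E0]
    · have k := key i hlt b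
      obtain l := S.le_wh c ξ (show s - 1 ≤ i by omega) b
      obtain t : |ξ n| * |S.rho ξ n p| * |S.fr (n + 1) i| ≤
          |ξ i| + |ξ i - ξ n * S.rho ξ n p * S.fr (n + 1) i| := by
        rw [← abs_mul, ← abs_mul]
        have := abs_sub (ξ i) (ξ i - ξ n * S.rho ξ n p * S.fr (n + 1) i)
        rwa [sub_sub_cancel] at this
      have := mul_le_mul_of_nonneg_right t (Real.exp_pos (-S.chi c i j / 2)).le
      linarith only [k, l, this]
  refine ⟨Sq.nu_le N h (by omega) hs' h0 R B h1 h2, c2, by linarith only [c3], by linarith only [c2, c3], ?_⟩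
  have w0 : 0 ≤ |ξ n| * |S.rho ξ n p| * S.wp c n j := mul_nonneg (mul_pos x0 r0).le (S.wh_nonneg c _ _ _)
  refine S.wh_le_of c ξ h1.le (by rw [Rn.whm]; linarith only [w0]) fun i a b => ?_
  have k := key i a b
  obtain l : |S.fr (n + 1) i| * Real.exp (-S.chi c i j / 2) ≤ S.wp c n j :=
    S.le_wh c _ (by omega) b
  obtain t : |ξ i| ≤ |ξ n| * |S.rho ξ n p| * |S.fr (n + 1) i| +
      |ξ i - ξ n * S.rho ξ n p * S.fr (n + 1) i| := by
    rw [← abs_mul, ← abs_mul]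
    have := abs_add_le (ξ n * S.rho ξ n p * S.fr (n + 1) i)
      (ξ i - ξ n * S.rho ξ n p * S.fr (n + 1) i)
    rwa [add_sub_cancel] at this
  have t1 := mul_le_mul_of_nonneg_right t (Real.exp_pos (-S.chi c i j / 2)).le
  have t2 := mul_le_mul_of_nonneg_left l (mul_pos x0 r0).le
  linarith only [k, t1, t2]

end Pool.Agent.MP_9cbfe4_an

end

/-! ### Part BINVb -/

section

/-! Row BINVb: (I6), first three items, and (I7) for the step of a bound run. -/

namespace Pool.Agent.MP_9cbfe4_an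

open Finset

namespace BINVb

structure K (c : Cs) : Prop where
  k1 : 1 / 16 ≤ c.k0
  k2 : c.k0 < 1 / 2
  β : 1 ≤ c.β
  lam : 4 ≤ c.lam
  lamd : 80 / c.d1 ≤ c.lam
  lamC : 30 * c.C1 / c.e3 ^ 2 ≤ c.lam
  L : 2 ≤ c.L
  e3 : 0 < c.e3 ∧ c.e3 ≤ 1 / 3
  ε : c.ε = c.e3 ^ 20
  a : 0 < c.a
  d1 : 0 < c.d1
  C0 : 0 ≤ c.C0
  C1 : 0 ≤ c.C1

theorem hK : Hier K := by
  have h1 := Hier.base
  have h2 := Hier.β_ge (fun _ => 1) fun _ _ _ => rfl
  have h3 := Hier.lam_ge (fun _ => 4) fun _ _ => rfl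
  have h4 := Hier.lam_ge (fun c => 80 / c.d1) fun _ _ => rfl
  have h5 := Hier.lam_ge (fun c => 30 * c.C1 / c.e3 ^ 2) fun _ _ => rfl
  have h6 := Hier.L_ge (fun _ => 2) fun _ _ => rfl
  obtain h7 := Hier.e3_le (fun _ => 1 / 3) (fun _ _ _ _ _ _ _ _ => rfl) (Hier.of_all fun _ => by norm_num)
  have h8 := Hier.ε_eq
  have h9 := Hier.a_le (fun _ => 1) (fun _ _ _ _ _ _ => rfl) (Hier.of_all fun _ => one_pos)
  have h10 := Hier.d1_le (fun _ => 1) (fun _ _ _ _ _ => rfl) (Hier.of_all fun _ => one_pos)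
  have h11 := Hier.C0_ge fun _ _ _ _ => 0
  have h12 := Hier.C1_ge fun _ _ _ _ _ => 0
  refine (h1.and (h2.and (h3.and (h4.and (h5.and (h6.and (h7.and (h8.and (h9.and (h10.and
    (h11.and h12))))))))))).mono ?_
  rintro c ⟨a1, a2, a3, a4, a5, a6, a7, a8, a9, a10, a11, a12⟩
  exact ⟨a1.1, a1.2.1, a2, a3, a4, a5, a6, a7, a8, a9.1, a10.1, a11, a12⟩

theorem K.chK {c : Cs} (h : K c) : 0 < c.chK ∧ c.chK ≤ c.bl := by
  obtain k0 : 0 < c.k0 := by linarith only [h.k1]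
  obtain h2 : (2 : ℝ) ≤ 1 / c.k0 := by rw [le_div_iff₀ k0]; linarith only [h.k2]
  obtain h16 : 1 / c.k0 ≤ 16 := by rw [div_le_iff₀ k0]; linarith only [h.k1]
  refine ⟨Real.log_pos (by linarith only [h2]), ?_⟩
  obtain h3 : Real.log (1 / c.k0) ≤ 4 := by
    rw [Real.log_le_iff_le_exp (by positivity)]
    have h5 := Real.add_one_le_exp (1 : ℝ)
    obtain e : Real.exp 4 = Real.exp 1 ^ 4 := by rw [← Real.exp_nat_mul]; norm_num
    obtain h6 : (2 : ℝ) ^ 4 ≤ Real.exp 1 ^ 4 := pow_le_pow_left₀ (by norm_num) (by linarith only [h5]) 4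
    rw [e]; linarith only [h16, h6]
  obtain h4 : c.lam ≤ c.β * c.lam := le_mul_of_one_le_left (by linarith only [h.lam]) h.β
  unfold Cs.chK Cs.bl
  linarith only [h3, h4, h.lam]

theorem K.eps {c : Cs} (h : K c) : 0 ≤ c.ε ∧ c.ε ≤ 1 / 10 ∧ 0 ≤ c.ε' ∧ c.ε' ≤ 1 ∧ 9 ≤ c.CN := by
  have h0 := h.e3.1
  have h1 := h.e3.2
  obtain h2 : c.e3 ^ 2 ≤ 1 / 9 := by nlinarith only [h1, h0]
  obtain h3 : c.e3 ^ 20 ≤ c.e3 ^ 4 := pow_le_pow_of_le_one h0.le (by linarith only [h0, h1]) (by norm_num)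
  obtain h4 : c.e3 ^ 4 ≤ 1 / 81 := by
    obtain this : c.e3 ^ 4 = c.e3 ^ 2 * c.e3 ^ 2 := by ring
    rw [this]; nlinarith only [h2, pow_pos h0 2]
  refine ⟨by rw [h.ε]; positivity, by rw [h.ε]; linarith only [h0, h1, h3, h4], by unfold Cs.ε'; positivity,
    by unfold Cs.ε'; linarith only [h0, h1, h4], ?_⟩
  unfold Cs.CN
  rw [le_div_iff₀ (by positivity)]
  linarith only [h2]

theorem chi_nn {c : Cs} (h : K c) (S : Sq) {i j : ℤ} (hij : i ≤ j) : 0 ≤ S.chi c i j := by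
  refine le_trans ?_ (S.chi_ge c h.chK.2 hij)
  obtain this : (0 : ℝ) ≤ ((j - i : ℤ) : ℝ) := by exact_mod_cast sub_nonneg.2 hij
  exact mul_nonneg h.chK.1.le this

theorem NK_nn (S : Sq) (i j : ℤ) : 0 ≤ S.NK i j := sum_nonneg fun l _ => (S.kk_mem l).1

theorem Wp_nn (c : Cs) (S : Sq) (n m : ℤ) : 0 ≤ S.Wp c n m := Real.log_nonneg (S.one_le_AA c _ _ _)

theorem st_fr (c : Cs) (S : Sq) {n : ℤ} (hn : 0 ≤ n) : S.St c (S.fr n) n := by
  refine ⟨hn, S.fr_sol n, S.fr_self n, ?_⟩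
  rw [S.fr_lt (by omega : n - 1 < n), abs_zero]
  exact (Real.exp_pos _).le

theorem main {c : Cs} (h : K c) (hB : BLK_s c) : BINVb_s c := by
  intro Ex S ξ n Ls m r p H F
  obtain ⟨hc0, hc1⟩ := h.chK
  obtain ⟨e0, e1, e2, e3, e4⟩ := h.eps
  have hl := h.lam
  have hL := h.L
  have ha := h.a
  have hn : 0 ≤ n := H.out.1
  obtain hst := st_fr c S (show 0 ≤ n + 1 by omega)
  obtain ⟨hrm, hnm⟩ := Sq.Chain.rinv c S H.chain
  have hmp := H.step.lt
  have hW := Wp_nn c S n p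
  have hld := S.load_nonneg c n (S.Wp c n p)
  have hcc : c.cc = c.ε * c.lam / 20 := rfl
  obtain hcc0 : 0 ≤ c.cc := by rw [hcc]; (clear * - e0 hl; positivity)
  obtain hcc1 : c.cc ≤ c.lam / 200 := by rw [hcc]; nlinarith only [e1, hl]
  have hxp : S.xp c n p = c.C1 * S.load c n (S.Wp c n p) + c.ε * S.Wp c n p + c.cc := rfl
  have hA0 : 0 ≤ c.C1 * S.load c n (S.Wp c n p) := mul_nonneg h.C1 hld
  have hB0 : 0 ≤ c.ε * S.Wp c n p := mul_nonneg e0 hW
  obtain hB1 : c.ε * S.Wp c n p ≤ S.Wp c n p / 10 := by nlinarith only [e1, hW]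
  obtain hx0 : 0 ≤ S.xp c n p := by rw [hxp]; linarith only [hcc0, hA0, hB0]
  obtain hCN : 18 * S.xp c n p ≤ 2 * c.CN * S.xp c n p := by nlinarith only [e4, hcc0, hxp, hA0, hB0]
  have hsm := F.small
  obtain hχ0 : 0 ≤ S.chi c n m := chi_nn h S (by omega)
  obtain haχ : 0 ≤ c.a * S.chi c n m := by (clear * - ha hχ0; positivity)
  obtain heL : Real.exp c.lam = c.L := Real.exp_log (by linarith only [hL])
  refine ⟨fun i hni hip => ?_, ?_⟩
  · by_cases him : i ≤ m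
    · obtain ⟨a1, a2, a3, -⟩ := H.binv.i6 i hni him
      exact ⟨a1, a2, a3⟩
    obtain hmi : m < i := by omega
    obtain hadd := S.chi_add c (show n ≤ m by omega) hmi.le
    have hχ1 : 0 ≤ S.chi c m i := chi_nn h S hmi.le
    obtain haχ1 : 0 ≤ c.a * S.chi c m i := by (clear * - ha hχ1; positivity)
    refine ⟨?_, ?_, ?_⟩
    · obtain h1 : S.NK n i ≤ S.NK n p := by
        rw [S.NK_add hni.le hip]; linarith only [NK_nn S i p]
      have h2 := F.nk
      have h3 := NK_nn S n i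
      obtain h4 : (c.lam + 1) * S.NK n i ≤ 2 * (c.lam * S.NK n p) := by nlinarith only [h1, h3, hl]
      rw [hadd]; linarith only [hl, hW, hcc0, hxp, hA0, hB0, hCN, hsm, haχ1, h2, h4]
    · have hζ : 0 < |S.fr (n + 1) m| := abs_pos.2 hrm.ne
      obtain hsg : S.sg c (S.fr (n + 1)) (n + 1) m ≤ 11 * S.xp c n p := by
        have h1 := H.binv.sg_le
        have h2 := F.W_mono.2.2
        obtain h3 : 11 * c.ε' * S.xp c n m ≤ 11 * c.ε' * S.xp c n p :=
          mul_le_mul_of_nonneg_left h2 (by linarith only [e2])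
        nlinarith only [hxp, h1, h3, e2, e3, hcc0, hA0, hB0]
      obtain hlog : -(11 * S.xp c n p) ≤ Real.log |S.fr (n + 1) m| := by
        have h1 : S.sig c (S.fr (n + 1)) (n + 1) m ≤ S.sg c (S.fr (n + 1)) (n + 1) m := le_max_left _ _
        have h2 := Wp_nn c S n m
        unfold Sq.sig at h1
        unfold Sq.Wp at h2
        linarith only [hsg, h1, h2]
      obtain hζ1 : Real.exp (-(11 * S.xp c n p)) ≤ |S.fr (n + 1) m| := by
        rw [← Real.exp_log hζ]; exact Real.exp_le_exp.2 hlog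
      obtain hfp : S.fr (m + 1) p ≠ 0 := by
        rcases H.inner with e | ⟨Ls', r1, -, -⟩
        · rw [e, S.fr_self]; exact one_ne_zero
        · exact r1.ne
      have hρ : S.rho (S.fr (n + 1)) m p ≠ 0 :=
        div_ne_zero H.rinv.ne (mul_ne_zero hrm.ne hfp)
      have hρ0 : 0 < |S.rho (S.fr (n + 1)) m p| := abs_pos.2 hρ
      obtain hρ1 : |S.rho (S.fr (n + 1)) m p| = c.L * Real.exp (-r) := by
        rw [H.step.hr, Sq.dep, Real.exp_neg, Real.exp_log (div_pos (by linarith only [hL]) hρ0)]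
        field_simp
      obtain hkey : Real.exp (-(c.a / 8 * S.chi c n m)) * 2 ≤
          |S.fr (n + 1) m| * |S.rho (S.fr (n + 1)) m p| := by
        rw [hρ1]
        obtain h1 : Real.exp (-(c.a / 8 * S.chi c n m)) ≤
            Real.exp (-(11 * S.xp c n p)) * Real.exp (-r) := by
          rw [← Real.exp_add]
          refine Real.exp_le_exp.2 ?_
          have := F.r_le
          linarith only [hl, hW, hcc0, hxp, hA0, hB0, hCN, hsm, this]
        have h2 := Real.exp_pos (-r)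
        calc _ ≤ Real.exp (-(11 * S.xp c n p)) * Real.exp (-r) * c.L :=
              mul_le_mul h1 hL (by norm_num) (by positivity)
          _ = Real.exp (-(11 * S.xp c n p)) * (c.L * Real.exp (-r)) := by ring
          _ ≤ _ := mul_le_mul_of_nonneg_right hζ1 (by positivity)
      obtain hsplit : Real.exp (-(c.a / 8 * S.chi c n i)) =
          Real.exp (-(c.a / 8 * S.chi c n m)) * Real.exp (-(c.a / 8 * S.chi c m i)) := by
        rw [← Real.exp_add, hadd]; congr 1; ring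
      rw [hsplit]
      have hE := Real.exp_pos (-(c.a / 8 * S.chi c n m))
      have hE' := Real.exp_pos (-(c.a / 8 * S.chi c m i))
      rcases H.inner with e | ⟨Ls', r1, b1, -⟩
      · obtain ei : i = m + 1 := by omega
        obtain h1 : |S.fr (n + 1) i| ≤ S.wp c n i := S.abs_le_wh c _ (by omega)
        obtain h2 : |S.fr (n + 1) m| * |S.rho (S.fr (n + 1)) m p| = |S.fr (n + 1) i| := by
          rw [e, S.rho_one, ← abs_mul, ei]
          congr 1
          field_simp [hrm.ne]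
        obtain h3 : Real.exp (-(c.a / 8 * S.chi c m i)) ≤ 1 := by
          rw [Real.exp_le_one_iff]; linarith only [haχ1]
        nlinarith only [hkey, hE, h1, h2, h3]
      · have h1 := ((hB S _ (n + 1) m Ls' p H.ok hst hrm r1 b1 hρ).2 i hmi hip).2.2.2.1
        have h2 := (b1.i6 i hmi hip).2.1
        obtain h3 : Real.exp (-(c.a / 8 * S.chi c n m)) * 2 * Real.exp (-(c.a / 8 * S.chi c m i)) ≤
            |S.fr (n + 1) m| * |S.rho (S.fr (n + 1)) m p| * S.wp c m i :=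
          mul_le_mul hkey h2 hE'.le (by (clear * - hζ hρ; positivity))
        have h4 : S.wp c n i = S.wh c (S.fr (n + 1)) (n + 1) i := rfl
        rw [h4]; linarith only [h1, h3]
    · obtain hc := (Sq.cert_wh H.ok h.k1 h.k2 (by linarith only [hl]) hc1 hst (le_refl (n + 1))).2.2 (i - 1)
        (by omega)
      rw [sub_add_cancel] at hc
      obtain h1 : S.AA c (S.fr (n + 1)) (n + 1) i ≤ Real.exp (S.Wp c n p) := by
        unfold Sq.Wp Sq.WW
        rw [Real.exp_log (by linarith only [S.one_le_AA c (S.fr (n + 1)) (n + 1) p])]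
        exact S.AA_mono c _ _ hip
      obtain h36 : (36 : ℝ) ≤ Real.exp c.lam := by
        obtain h5 : (2.7 : ℝ) ≤ Real.exp 1 := by linarith only [Real.exp_one_gt_d9]
        obtain e : Real.exp 4 = Real.exp 1 ^ 4 := by rw [← Real.exp_nat_mul]; norm_num
        obtain h6 : (2.7 : ℝ) ^ 4 ≤ Real.exp 1 ^ 4 := pow_le_pow_left₀ (by norm_num) h5 4
        have h7 := Real.exp_le_exp.2 hl
        rw [e] at h7; norm_num at h6; linarith only [e, h7, h6]
      obtain h2 : S.wp c n i ≤ 6 * c.L * (6 * Real.exp (S.Wp c n p)) :=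
        hc.1.trans (mul_le_mul_of_nonneg_left (hc.2.trans (by linarith only [h1])) (by linarith only [hL]))
      obtain h3 : Real.exp (S.Wp c n p + 2 * c.lam) ≤ Real.exp (c.a / 4 * S.chi c n i) := by
        refine Real.exp_le_exp.2 ?_
        rw [hadd]; linarith only [hl, hW, hcc0, hxp, hA0, hB0, hCN, hsm, haχ1]
      refine h2.trans (le_trans ?_ h3)
      rw [two_mul, Real.exp_add, Real.exp_add, heL]
      rw [heL] at h36
      have h4 := Real.exp_pos (S.Wp c n p)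
      obtain h5 : 36 * c.L ≤ c.L * c.L := mul_le_mul_of_nonneg_right h36 (by linarith only [h36])
      nlinarith only [h4, h5]
  · have hd := h.d1
    set EX := Real.exp (c.d1 * S.Wp c n p / 2 + 3 * c.d1 * c.C1 * S.load c n (S.Wp c n p)) with hEX
    obtain hEX1 : 1 ≤ EX := Real.one_le_exp (by have := h.C1; (clear * - hd hW this hld; positivity))
    obtain h1 : ((m - n : ℤ) : ℝ) ≤ 1 + 2 * Ls.length * EX := by
      refine H.binv.i7.trans ?_
      obtain this : Real.exp (c.d1 / 2 * S.Wp c n m + 3 * c.d1 * c.C1 * S.load c n (S.Wp c n m)) ≤ EX := by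
        refine Real.exp_le_exp.2 ?_
        have a1 := mul_le_mul_of_nonneg_left F.W_mono.1 hd.le
        obtain a2 := mul_le_mul_of_nonneg_left F.W_mono.2.1
          (show 0 ≤ 3 * c.d1 * c.C1 by have := h.C1; positivity)
        linarith only [a1, a2]
      obtain this := mul_le_mul_of_nonneg_left this (show (0 : ℝ) ≤ 2 * Ls.length by (clear * -; positivity))
      linarith only [this]
    obtain h2 : ((p - m : ℤ) : ℝ) ≤ 2 * EX := by
      by_cases e : p = m + 1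
      · rw [e]; push_cast; linarith only [hEX1]
      obtain ⟨Ls', -, b1, w1⟩ := H.inner.resolve_left e
      have hr : c.lam / 2 ≤ r := (H.step.kind.resolve_left fun x => e x.1).1
      obtain hl0 : 0 < c.lam := by linarith only [hl]
      have hq := S.load_mono c hc0 hc1 h.C0 m w1
      have hq0 := S.load_nonneg c m (2 * r)
      obtain hlen : 2 * (Ls'.length : ℝ) ≤ Real.exp (c.d1 * r) := by
        have a1 := b1.len
        obtain a2 : 10 * (S.Wp c m p + c.lam) / c.lam ≤ 40 * r / c.lam :=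
          div_le_div_of_nonneg_right (by linarith only [w1, hr]) hl0.le
        have a3 : 80 ≤ c.lam * c.d1 := (div_le_iff₀ hd).1 h.lamd
        obtain a4 : 80 * r / c.lam ≤ c.d1 * r := by
          rw [div_le_iff₀ hl0]; nlinarith only [a3, hl, hr]
        have a5 := Real.add_one_le_exp (c.d1 * r)
        obtain a6 : 80 * r / c.lam = 2 * (40 * r / c.lam) := by ring
        linarith only [a1, a2, a4, a5, a6]
      obtain hq1 : 30 * (c.C1 * S.load c m (2 * r)) ≤ S.xp c n p := by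
        have a1 := F.q_le
        obtain a2 : 30 * c.C1 * c.CN ≤ c.lam := by
          have := h.lamC
          unfold Cs.CN
          rwa [mul_one_div]
        obtain a3 : 30 * c.C1 * (c.lam * S.load c m (2 * r)) ≤ 30 * c.C1 * (c.CN * S.xp c n p) :=
          mul_le_mul_of_nonneg_left a1 (by have := h.C1; positivity)
        have a4 : 30 * c.C1 * c.CN * S.xp c n p ≤ c.lam * S.xp c n p :=
          mul_le_mul_of_nonneg_right a2 hx0
        obtain a5 : c.lam * (30 * (c.C1 * S.load c m (2 * r))) ≤ c.lam * S.xp c n p := by linarith only [a3, a4]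
        exact le_of_mul_le_mul_left a5 hl0
      obtain hnum : 2 * r + 3 * (c.C1 * S.load c m (2 * r)) ≤
          S.Wp c n p / 2 + 3 * (c.C1 * S.load c n (S.Wp c n p)) := by
        have := F.r_le
        rw [hxp] at this hq1
        linarith only [hl, hW, hcc1, hB1, hr, hq1, this]
      obtain hexp : Real.exp (c.d1 * r) *
          Real.exp (c.d1 / 2 * S.Wp c m p + 3 * c.d1 * c.C1 * S.load c m (S.Wp c m p)) ≤ EX := by
        rw [← Real.exp_add]
        refine Real.exp_le_exp.2 ?_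
        have a1 := mul_le_mul_of_nonneg_left w1 hd.le
        obtain a2 := mul_le_mul_of_nonneg_left hq
          (show 0 ≤ 3 * c.d1 * c.C1 by have := h.C1; (clear * - hd this; positivity))
        have a3 := mul_le_mul_of_nonneg_left hnum hd.le
        linarith only [a1, a2, a3]
      have a7 := mul_le_mul_of_nonneg_right hlen (Real.exp_pos
        (c.d1 / 2 * S.Wp c m p + 3 * c.d1 * c.C1 * S.load c m (S.Wp c m p))).le
      have a8 := b1.i7
      linarith only [hEX1, hexp, a7, a8]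
    obtain e : ((p - n : ℤ) : ℝ) = ((m - n : ℤ) : ℝ) + ((p - m : ℤ) : ℝ) := by push_cast; ring
    rw [e, List.length_cons]
    push_cast at h1 h2 ⊢
    linarith only [h1, h2]

end BINVb

theorem binvb : Hier fun c => BLK_s c → BINVb_s c := BINVb.hK.mono fun _ h => BINVb.main h

end Pool.Agent.MP_9cbfe4_an

end

/-! ### Part SUFb -/

section

/-! Row SUFb: rescaling the suffix certificate of the partner run. -/

namespace Pool.Agent.MP_9cbfe4_an

open Finset

namespace SUFb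

/-- abstract rescaling -/
theorem resc {c : Cs} {S : Sq} {φ φ' η c0 : ℝ} {ξ ξ' w w' A : ℤ → ℝ} {Rg : Finset ℤ} {s' p : ℤ}
    (h : S.SufI c φ ξ w A Rg s' p) (hsp : s' ≤ p) (hc : 0 < c0) (h0 : 0 ≤ η) (h8 : η ≤ 1 / 8)
    (hφ1 : 1 ≤ φ) (hφ2 : φ ≤ 2) (hφ : φ * (1 + 4 * η) ≤ φ') (hl : 0 ≤ c.lam) (hL : 0 ≤ c.L)
    (pos : ∀ j, s' ≤ j → j ≤ p → 0 < w j)
    (lo : ∀ j, s' ≤ j → j ≤ p → c0 * (1 - η) * w j ≤ w' j)
    (hi : ∀ j, s' ≤ j → j ≤ p → w' j ≤ c0 * (1 + η) * w j)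
    (hx : ∀ j, s' ≤ j → j ≤ p → c0 * (|ξ j| - η * w j) ≤ |ξ' j|) :
    S.SufI c φ' ξ' w' (fun j => c0 * (1 + 4 * η) * A j) Rg s' p := by
  obtain hg : 0 < c0 * (1 + 4 * η) := by positivity
  obtain h1 : 0 < 1 - η := by linarith only [h8]
  have hA : ∀ j, s' ≤ j → j ≤ p → 0 < A j := fun j a b =>
    ((pos s' le_rfl hsp).trans_le h.lo).trans_le (h.mono s' j le_rfl a b)
  have pos' : ∀ j, s' ≤ j → j ≤ p → 0 < w' j := fun j a b =>
    lt_of_lt_of_le (mul_pos (mul_pos hc h1) (pos j a b)) (lo j a b)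
  obtain hq : (1 + 4 * η) ≤ (1 + 4 * η) ^ 4 * (1 - η) := by
    obtain e1 : 1 ≤ (1 + 4 * η) * (1 - η) := by nlinarith only [h0, h8]
    obtain e2 : 1 ≤ (1 + 4 * η) ^ 2 := by nlinarith only [h0]
    obtain e3 : 1 ≤ (1 + 4 * η) ^ 2 * ((1 + 4 * η) * (1 - η)) := by nlinarith only [e2, e1]
    nlinarith only [e3, h0]
  obtain hp4 : φ ^ 4 * (1 + 4 * η) ^ 4 ≤ φ' ^ 4 := by
    rw [← mul_pow]; exact pow_le_pow_left₀ (by positivity) hφ 4
  refine ⟨fun i j a b d => mul_le_mul_of_nonneg_left (h.mono i j a b d) hg.le, ?_, ?_, h.sub, ?_,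
    h.runs, ?_⟩
  · refine (hi s' le_rfl hsp).trans ?_
    exact mul_le_mul (by nlinarith only [hc, h0]) h.lo (pos s' le_rfl hsp).le hg.le
  · intro j a b
    obtain e1 : S.DD c w' s' j ≤ (c0 * (1 + η)) ^ 2 * S.DD c w s' j := by
      unfold Sq.DD
      rw [mul_sum]
      refine sum_le_sum fun i hi' => ?_
      obtain ⟨i1, i2⟩ := mem_Ico.1 hi'
      obtain e : w' i ^ 2 ≤ (c0 * (1 + η) * w i) ^ 2 :=
        pow_le_pow_left₀ (pos' i i1 (by omega)).le (hi i i1 (by omega)) 2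
      calc |S.fr (i + 1) j| * c.L * w' i ^ 2 ≤ |S.fr (i + 1) j| * c.L * (c0 * (1 + η) * w i) ^ 2 :=
            mul_le_mul_of_nonneg_left e (by positivity)
        _ = _ := by ring
    have e2 := mul_le_mul_of_nonneg_left (h.dd j a b) (sq_nonneg (c0 * (1 + η)))
    have e3 := mul_le_mul_of_nonneg_left (lo j a b) (mul_pos hg (hA j a b)).le
    obtain e4 : (1 + η) ^ 2 ≤ (1 + 4 * η) * (1 - η) := by nlinarith only [h0, h8]
    obtain e5 := mul_le_mul_of_nonneg_left e4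
      (by have := hA j a b; have := pos j a b; positivity : 0 ≤ c0 ^ 2 * (A j * w j))
    calc S.DD c w' s' j ≤ (c0 * (1 + η)) ^ 2 * (A j * w j) := e1.trans e2
      _ = c0 ^ 2 * (A j * w j) * (1 + η) ^ 2 := by ring
      _ ≤ c0 ^ 2 * (A j * w j) * ((1 + 4 * η) * (1 - η)) := e5
      _ = c0 * (1 + 4 * η) * A j * (c0 * (1 - η) * w j) := by ring
      _ ≤ _ := e3
  · intro i hi'
    obtain ⟨i1, i2⟩ := mem_Ico.1 (h.sub hi')
    obtain ⟨r1, r2, r3, r4⟩ := h.reg i hi'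
    have wp := pos i i1 i2.le
    refine ⟨r1, r2, ?_, ?_⟩
    · obtain e1 : c0 * ((1 - 2 * η) * w i) ≤ φ * |ξ' i| := by
        obtain e := mul_le_mul_of_nonneg_left (hx i i1 i2.le) (by linarith only [hφ1] : 0 ≤ φ)
        obtain e' : (1 - 2 * η) * w i ≤ φ * (|ξ i| - η * w i) := by
          obtain this : φ * (η * w i) ≤ 2 * (η * w i) := mul_le_mul_of_nonneg_right hφ2 (by positivity)
          linarith only [r3, this]
        calc _ ≤ c0 * (φ * (|ξ i| - η * w i)) := mul_le_mul_of_nonneg_left e' hc.le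
          _ = φ * (c0 * (|ξ i| - η * w i)) := by ring
          _ ≤ _ := e
      obtain e2 : 1 + η ≤ (1 + 4 * η) * (1 - 2 * η) := by nlinarith only [h0, h8]
      calc w' i ≤ c0 * (1 + η) * w i := hi i i1 i2.le
        _ = c0 * w i * (1 + η) := by ring
        _ ≤ c0 * w i * ((1 + 4 * η) * (1 - 2 * η)) := mul_le_mul_of_nonneg_left e2 (by positivity)
        _ = (1 + 4 * η) * (c0 * ((1 - 2 * η) * w i)) := by ring
        _ ≤ (1 + 4 * η) * (φ * |ξ' i|) := mul_le_mul_of_nonneg_left e1 (by positivity)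
        _ = φ * (1 + 4 * η) * |ξ' i| := by ring
        _ ≤ _ := mul_le_mul_of_nonneg_right hφ (abs_nonneg _)
    · obtain e1 : (1 + 4 * η) * φ ^ 4 ≤ φ' ^ 4 * (1 - η) := by
        obtain a1 := mul_le_mul_of_nonneg_right hq (by positivity : 0 ≤ φ ^ 4)
        have a2 := mul_le_mul_of_nonneg_right hp4 h1.le
        linarith only [a1, a2]
      obtain hφ' : 0 ≤ φ' ^ 4 * c.lam / 1024 := by positivity
      calc c0 * (1 + 4 * η) * A (i + 1) ≤ c0 * (1 + 4 * η) * (φ ^ 4 * c.lam / 1024 * w i) :=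
            mul_le_mul_of_nonneg_left r4 hg.le
        _ = c0 * (c.lam / 1024 * w i) * ((1 + 4 * η) * φ ^ 4) := by ring
        _ ≤ c0 * (c.lam / 1024 * w i) * (φ' ^ 4 * (1 - η)) :=
            mul_le_mul_of_nonneg_left e1 (by (clear * - hc hl wp; positivity))
        _ = φ' ^ 4 * c.lam / 1024 * (c0 * (1 - η) * w i) := by ring
        _ ≤ _ := mul_le_mul_of_nonneg_left (lo i i1 i2.le) hφ'
  · have e0 : ∀ i, c0 * (1 + 4 * η) * A (i + 1) / (c0 * (1 + 4 * η) * A i) = A (i + 1) / A i :=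
      fun i => mul_div_mul_left _ _ hg.ne'
    simp only [e0]
    have a0 := hA s' le_rfl hsp
    have w0 := pos s' le_rfl hsp
    have w0' := pos' s' le_rfl hsp
    obtain e1 : c0 * (1 + 4 * η) * A s' / w' s' ≤ A s' / w s' * (1 + 4 * η) ^ 4 := by
      rw [div_le_iff₀ w0']
      obtain a1 := mul_le_mul_of_nonneg_left (lo s' le_rfl hsp)
        (by positivity : 0 ≤ A s' / w s' * (1 + 4 * η) ^ 4)
      refine le_trans ?_ a1
      obtain this : A s' / w s' * (1 + 4 * η) ^ 4 * (c0 * (1 - η) * w s')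
          = c0 * ((1 + 4 * η) ^ 4 * (1 - η)) * A s' := by field_simp
      rw [this]
      exact mul_le_mul_of_nonneg_right (mul_le_mul_of_nonneg_left hq hc.le) a0.le
    obtain e2 := Real.log_le_log (by positivity) e1
    rw [Real.log_mul (by positivity) (by positivity), Real.log_pow] at e2
    obtain e3 := Real.log_le_log (by positivity) hφ
    rw [Real.log_mul (by positivity) (by positivity)] at e3
    have := h.cost
    push_cast at e2
    linarith only [e2, e3, this]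

theorem consts : Hier fun c => 0 < c.chK ∧ c.chK ≤ c.bl ∧ 240 ≤ c.bl ∧ 0 < c.a ∧ c.a ≤ 1 / 2 ∧
    1 ≤ c.lam ∧ 1 ≤ c.L := by
  have h1 := Hier.β_ge (fun c => max 240 c.chK) fun _ _ _ => rfl
  have h2 := Hier.lam_ge (fun _ => 1) fun _ _ => rfl
  have h3 := Hier.L_ge (fun _ => 1) fun _ _ => rfl
  obtain h4 := Hier.a_le (fun _ => 1 / 2) (fun _ _ _ _ _ _ => rfl) (Hier.of_all fun _ => by norm_num)
  refine ((((h1.and h2).and h3).and h4).and Hier.base).mono ?_
  rintro c ⟨⟨⟨⟨a1, a2⟩, a3⟩, a4, a5⟩, b1, b2, -⟩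
  obtain k : 0 < c.chK := Real.log_pos (by rw [lt_div_iff₀ (by linarith only [a4, a5, b1])]; linarith only [a4, a5, b2])
  have m1 := le_max_left 240 c.chK
  have m2 := le_max_right 240 c.chK
  obtain e : c.β ≤ c.bl := by unfold Cs.bl; nlinarith only [a2, a1, m1]
  exact ⟨k, by linarith only [a1, m2, e], by linarith only [a1, m1, e], a4, a5, a2, a3⟩

end SUFb

theorem sufb : Hier fun c => BLK_s c → SUFb_s c := by
  refine SUFb.consts.mono ?_
  rintro c ⟨k0, kb, b240, a0, a2, l1, L1⟩ hB S ξ s n Ls p s' A Rg ok st rn rp bi hρ h1 h2 hr h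
  obtain ⟨-, blk⟩ := hB S ξ s n Ls p ok st rn rp bi hρ
  obtain cn : ∀ i j : ℤ, i ≤ j → 0 ≤ S.chi c i j := fun i j hij =>
    le_trans (mul_nonneg k0.le (by exact_mod_cast sub_nonneg.2 hij)) (S.chi_ge c kb hij)
  obtain e1 : S.chi c n s' = c.bl + S.chi c (n + 1) s' := by
    rw [S.chi_add c (by omega : n ≤ n + 1) (by omega : n + 1 ≤ s'), S.chi_succ, Sq.ch1, bi.kz.1]
    ring
  obtain y0 := cn (n + 1) s' (by omega)
  obtain e2 : S.chi c n s' ≤ S.chi c s s' := by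
    rw [S.chi_add c rn.le h1.le]; linarith only [cn s n rn.le]
  have hR : 0 < |S.rho ξ n p| := abs_pos.2 hρ
  have hN : 0 < |ξ n| := abs_pos.2 rn.ne
  obtain hRe : Real.exp (-S.dep c ξ n p) ≤ |S.rho ξ n p| := by
    rw [Real.exp_neg, Sq.dep, Real.exp_log (by positivity), inv_div, div_le_iff₀ (by linarith only [a0, a2, L1])]
    nlinarith only [a0, a2, L1, hR]
  obtain hE : ∀ j, s' ≤ j → j ≤ p → Real.exp (-S.chi c n j / 2) ≤
      Real.exp (-S.chi c n s' / 3) * (|S.rho ξ n p| * S.wp c n j) := by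
    intro j a b
    obtain m : S.chi c n s' ≤ S.chi c n j := by
      rw [S.chi_add c h1.le a]; linarith only [cn s' j a]
    obtain w1 := (bi.i6 j (by omega) b).2.1
    have w2 := mul_le_mul hRe w1 (Real.exp_pos _).le hR.le
    refine le_trans ?_ (mul_le_mul_of_nonneg_left w2 (Real.exp_pos _).le)
    rw [← Real.exp_add, ← Real.exp_add]
    refine Real.exp_le_exp.2 ?_
    obtain this : c.a * S.chi c n j ≤ 1 / 2 * S.chi c n j :=
      mul_le_mul_of_nonneg_right a2 (cn n j (by omega))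
    obtain this := cn n j (by omega)
    linarith
  obtain t9 : Real.exp (-c.bl / 24) ≤ 1 / 9 := by
    have := Real.add_one_le_exp (c.bl / 24)
    rw [neg_div, Real.exp_neg, inv_le_comm₀ (Real.exp_pos _) (by norm_num)]
    norm_num; linarith only [b240, a0, a2, this]
  obtain ty : Real.exp (-S.chi c (n + 1) s' / 24) ≤ 1 := Real.exp_le_one_iff.2 (by linarith only [y0])
  have tp := Real.exp_pos (-S.chi c (n + 1) s' / 24)
  obtain tf : Real.exp (-S.chi c n s' / 24) ≤ Real.exp (-S.chi c (n + 1) s' / 24) / 9 := by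
    obtain this : -S.chi c n s' / 24 = -c.bl / 24 + -S.chi c (n + 1) s' / 24 := by rw [e1]; ring
    rw [this, Real.exp_add]; nlinarith only [a0, a2, t9, tp]
  obtain tη : Real.exp (-S.chi c n s' / 3) ≤ Real.exp (-S.chi c n s' / 24) :=
    Real.exp_le_exp.2 (by linarith only [b240, a0, a2, e1, y0])
  obtain ts : Real.exp (-S.chi c s s' / 24) ≤ Real.exp (-S.chi c n s' / 24) :=
    Real.exp_le_exp.2 (by linarith only [e2])
  have η0 := Real.exp_pos (-S.chi c n s' / 3)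
  refine ⟨_, SUFb.resc (c0 := |ξ n| * |S.rho ξ n p|) (η := Real.exp (-S.chi c n s' / 3)) h h2
    (by (clear * - hN hρ; positivity)) η0.le (by linarith only [ty, tf, tη, η0]) (by unfold Sq.ff; linarith only [ty]) (by unfold Sq.ff; linarith only [tf, tη, η0]) ?_
    (by linarith only [l1, ty, tf, tη, η0]) (by linarith only [L1, ty, tf, tη, η0]) ?_ ?_ ?_ ?_⟩
  · unfold Sq.ff; linarith only [tf, tη, ts, mul_pos tp η0]
  · exact fun j a b => (Real.exp_pos _).trans_le (bi.i6 j (by omega) b).2.1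
  · intro j a b
    refine le_trans ?_ (blk j (by omega) b).2.2.1
    have := mul_le_mul_of_nonneg_left (hE j a b) hN.le
    linarith only [this]
  · intro j a b
    refine le_trans (blk j (by omega) b).2.2.2.2 ?_
    have := mul_le_mul_of_nonneg_left (hE j a b) hN.le
    linarith only [this]
  · intro j a b
    obtain q1 := (blk j (by omega) b).1
    obtain q2 : Real.exp (-(1 - c.a) * S.chi c n j) ≤ Real.exp (-S.chi c n j / 2) := by
      refine Real.exp_le_exp.2 ?_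
      obtain this : c.a * S.chi c n j ≤ 1 / 2 * S.chi c n j :=
        mul_le_mul_of_nonneg_right a2 (cn n j (by omega))
      linarith only [this]
    have q3 := abs_sub_abs_le_abs_sub (S.rho ξ n p * S.fr (n + 1) j) (ξ j / ξ n)
    rw [abs_sub_comm, abs_mul, abs_div] at q3
    obtain q4 : |S.rho ξ n p| * (|S.fr (n + 1) j| - Real.exp (-S.chi c n s' / 3) * S.wp c n j)
        ≤ |ξ j| / |ξ n| := by
      have := hE j a b
      linarith only [q1, q2, q3, this]
    rw [le_div_iff₀ hN] at q4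
    linarith only [q4]

end Pool.Agent.MP_9cbfe4_an

end

/-! ### Part RED -/

section

/-! Row RED of THM-2: reduction of the failure of `HH` to three violations. -/

namespace Pool.Agent.MP_9cbfe4_an

open Real

namespace RED

lemma hK : Hier fun c => 0 ≤ c.C0 ∧ 0 ≤ c.L ∧ c.dl ≤ 1 / 3 := by
  have h2 := Hier.β_ge (fun _ => 1) fun _ _ _ => rfl
  have h3 := Hier.lam_ge (fun _ => 1) fun _ _ => rfl
  have h4 := Hier.L_ge (fun _ => 0) fun _ _ => rfl
  have h5 := Hier.C0_ge fun _ _ _ _ => 0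
  refine (h2.and (h3.and (h4.and h5))).mono ?_
  rintro c ⟨b, l, L, c0⟩
  refine ⟨c0, L, ?_⟩
  obtain hbl : 1 ≤ c.bl := by unfold Cs.bl; nlinarith only [b, l]
  unfold Cs.dl
  rw [neg_mul, exp_neg, inv_le_comm₀ (exp_pos _) (by norm_num)]
  linarith only [hbl, add_one_le_exp (2 * c.bl)]

/-- an orbit determines its parameter -/
lemma t_eq {c : Cs} (hd : c.dl ≤ 1 / 3) {M : Mdl} (hM : M.OK c) {t t' : ℝ} (ht : TI t) (ht' : TI t')
    {S : Sq} (ok : S.OK c) (o : IsOrb c M t S 0) (o' : IsOrb c M t' S 0) : t' = t := by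
  have e := (o'.step 0 le_rfl).symm.trans (o.step 0 le_rfl)
  have bx := o.box 0 (by omega)
  have by' := o.box (0 - 1) le_rfl
  obtain hy : 1 / 100 + |S.X (0 - 1) - S.X (0 - 1)| ≤ dP (S.X (0 - 1)) := by
    rw [sub_self, abs_zero, ok.past _ (by omega), dP]
    have := pi_le_four
    have := pi_pos
    refine le_min (le_abs.2 (.inl ?_)) (le_abs.2 (.inl ?_)) <;> linarith
  have h := (hM.tay t t' _ _ _ _ c.dl ht ht' bx by' bx by'
    ⟨by rw [sub_self, abs_zero]; norm_num, .inl ⟨rfl, .inr hy⟩⟩).1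
  have g := abs_le.1 (hM.t_all t _ _ ht bx by')
  rw [e] at h
  simp only [sub_self, mul_zero, abs_zero, add_zero, zero_sub, abs_neg, abs_mul, ne_eq,
    OfNat.ofNat_ne_zero, not_false_eq_true, zero_pow, zero_add] at h
  rw [zero_sub] at g
  obtain g1 : 2 / 3 ≤ |M.Gt t (S.X 0) (S.X (-1))| := le_abs.2 (.inl (by linarith only [hd, g.1]))
  obtain u : |t' - t| ≤ 1 := abs_le.2 ⟨by linarith only [ht.2, ht'.1], by linarith only [ht.1, ht'.2]⟩
  have v := abs_nonneg (t' - t)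
  have d0 : 0 < c.dl := exp_pos _
  rw [← sq_abs] at h
  obtain this : |t' - t| ≤ 0 := by
    linarith only [h, mul_le_mul_of_nonneg_right g1 v, mul_le_mul_of_nonneg_right u v,
      mul_le_mul_of_nonneg_right hd (mul_nonneg v v)]
  exact sub_eq_zero.1 (abs_nonpos_iff.1 this)

end RED

open RED

theorem red (K : ℕ) : Hier fun c => B5_s c → SOK_s c → RED_s K c := hK.mono fun c k h5 hS => by
  obtain ⟨c0, L0, hd⟩ := k
  intro hF M hM t t1 t2 hH
  have ht : TI t := ⟨by linarith only [t1], by linarith only [t2]⟩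
  simp only [HH, not_forall] at hH
  obtain ⟨v, hv, ξ, n, p, Ls, r, hn, sol, tame, run, bd, wit, hc⟩ := hH
  obtain ⟨o, ok⟩ := (hS M hM t ht).2.1 v hv
  set S := M.O t v with hSd
  set rb := max (S.sg c (S.fr (n + 1)) (n + 1) p / c.e3 + c.cc)
    (c.κ * S.Wt c (S.fr (n + 1)) (n + 1) p 0 + c.c1 + 1) with hrb
  have hr : min r rb ≤ r := min_le_left _ _
  have hW : S.Wt c (S.fr (n + 1)) (n + 1) p (min r rb) ≤ S.Wt c (S.fr (n + 1)) (n + 1) p r :=
    max_le_max le_rfl (by linarith only [hr])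
  have T := tame _ le_rfl
  have hc' : ¬ S.Cond c (Ex2 K c M) ξ n Ls p (min r rb) := by
    rcases le_total r rb with x | x
    · rwa [min_eq_left x]
    · rw [min_eq_right x]
      have y : _ ≤ rb := le_max_right _ _
      exact fun h => by linarith only [y, h.c1]
  refine ⟨⟨⟨t, v, ξ, n⟩, Ls, p, min r rb⟩, rfl, ⟨⟨t1, t2⟩, hv, hn, sol,
    fun y hy => tame y (hy.trans (mul_le_mul_of_nonneg_left hW c0)), run, Sq.Bd.anti c S bd hr,
    Sq.Wit.anti c S L0 wit hr, min_le_right _ _⟩, ?_⟩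
  by_contra hb
  simp only [not_or] at hb
  obtain ⟨b1, b2, b3⟩ := hb
  have s1 : Cstar c S ξ n Ls p (min r rb) := not_lt.1 b1
  have s3 := not_lt.1 b2
  obtain ⟨q1, q2⟩ := (h5 hF.2.1 (Ex2 K c M) (fun _ _ _ _ _ _ h => h.1) S ξ n Ls p (min r rb) ok
    ⟨hn, sol, T.1, T.2.1⟩ run (Sq.Bd.anti c S bd hr)).2.2.2.2 s1 s3
  refine hc' ⟨q1, q2, s3, s1, fun t' ht' o' => ?_⟩
  rw [t_eq hd hM ht ht' ok o o']
  exact not_not.1 b3

end Pool.Agent.MP_9cbfe4_an

end

/-! ### Part EX0 -/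

section

/-! Section S, row EX0: existence of the seed at one parameter (cut-off and one IVT). -/

namespace Pool.Agent.MP_9cbfe4_an.SS

open Finset Filter Topology
open scoped ContDiff

noncomputable section

namespace EX0

def rec2 (F : ℤ → ℝ × ℝ → ℝ) (s : ℤ) (u : ℝ × ℝ) : ℕ → ℝ × ℝ
  | 0 => u
  | n + 1 => ((rec2 F s u n).2, F (s + n) ((rec2 F s u n).2, (rec2 F s u n).1))

theorem ex_rec (s J : ℤ) (F : ℤ → ℝ × ℝ × ℝ → ℝ) (u0 u1 : ℝ → ℝ)
    (hF : ∀ j, s ≤ j → j < J → Continuous (F j)) (h0 : Continuous u0) (h1 : Continuous u1) :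
    ∃ Y : ℝ → ℤ → ℝ, (∀ v, Y v (s - 1) = u0 v) ∧ (∀ v, Y v s = u1 v) ∧
      (∀ v j, s ≤ j → Y v (j + 1) = F j (v, Y v j, Y v (j - 1))) ∧
      ∀ j, s - 1 ≤ j → j ≤ J → Continuous fun v => Y v j := by
  set Y : ℝ → ℤ → ℝ := fun v j =>
    (rec2 (fun j p => F j (v, p)) s (u0 v, u1 v) (j - s + 1).toNat).1 with hY
  obtain a0 : ∀ v, Y v (s - 1) = u0 v := fun v => by
    simp only [hY, show (s - 1 - s + 1).toNat = 0 by omega, rec2]
  obtain a1 : ∀ v, Y v s = u1 v := fun v => by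
    simp only [hY, show (s - s + 1).toNat = 0 + 1 by omega, rec2]
  obtain a2 : ∀ v j, s ≤ j → Y v (j + 1) = F j (v, Y v j, Y v (j - 1)) := fun v j hj => by
    obtain ⟨n, rfl⟩ : ∃ n : ℕ, j = s + n := ⟨(j - s).toNat, by omega⟩
    simp only [hY, show (s + n + 1 - s + 1).toNat = n + 1 + 1 by omega,
      show (s + n - s + 1).toNat = n + 1 by omega, show (s + n - 1 - s + 1).toNat = n by omega, rec2]
  refine ⟨Y, a0, a1, a2, ?_⟩
  obtain key : ∀ j, s ≤ j → (j ≤ J ∨ j = s) →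
      (Continuous fun v => Y v j) ∧ Continuous fun v => Y v (j - 1) := by
    intro j hj
    induction j, hj using Int.leInduction with
    | base => exact fun _ => ⟨by simpa only [a1] using h1, by simpa only [a0] using h0⟩
    | succ j hj ih =>
      intro hn
      obtain ⟨c1, c2⟩ := ih (by omega)
      refine ⟨?_, by simpa only [add_sub_cancel_right] using c1⟩
      simp only [fun v => a2 v j hj]
      exact (hF j hj (by omega)).comp (continuous_id.prodMk (c1.prodMk c2))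
  intro j h1 h2
  rcases h1.eq_or_lt with rfl | hlt
  · exact (key s le_rfl (Or.inr rfl)).2
  · exact (key j (by omega) (Or.inl h2)).1

/-- cut-off -/
def cl (c y : ℝ) : ℝ := max (-c) (min c y)
theorem cl_cont (c : ℝ) : Continuous (cl c) := by unfold cl; fun_prop
theorem cl_le {c : ℝ} (hc : 0 ≤ c) (y : ℝ) : |cl c y| ≤ c := by
  unfold cl; rw [abs_le]; exact ⟨le_max_left _ _, max_le (by linarith only [hc]) (min_le_left _ _)⟩
theorem cl_eq {c y : ℝ} (h : |y| ≤ c) : cl c y = y := by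
  unfold cl; rw [abs_le] at h; rw [min_eq_right h.2, max_eq_right h.1]
theorem cl_top {c y : ℝ} (hc : 0 ≤ c) (h : c ≤ y) : cl c y = c := by
  unfold cl; rw [min_eq_left h, max_eq_right (by linarith only [hc])]
theorem cl_bot {c y : ℝ} (hc : 0 ≤ c) (h : y ≤ -c) : cl c y = -c := by
  unfold cl; rw [min_eq_right (by linarith only [hc, h]), max_eq_left h]
theorem cl_abs {c y : ℝ} (hc : 0 ≤ c) (h : c ≤ |y|) : |cl c y| = c := by
  rcases le_abs.1 h with h | h
  · rw [cl_top hc h, abs_of_nonneg hc]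
  · rw [cl_bot hc (by linarith only [h]), abs_neg, abs_of_nonneg hc]
theorem cl_le' {c : ℝ} (hc : 0 ≤ c) (y : ℝ) : |cl c y| ≤ |y| := by
  rcases le_total |y| c with h | h
  · rw [cl_eq h]
  · rw [cl_abs hc h]; exact h

variable {S : Sq} {E : ℕ} {ξ w μ D : ℤ → ℝ} {s J : ℤ} {Λ L δ : ℝ}

theorem big (h : S.CT E ξ w μ D s J Λ L δ) {j : ℤ} (h1 : s - 1 ≤ j) (h2 : j ≤ J) : 1000 ≤ μ j := by
  rcases le_total j 0 with h0 | h0
  · exact h.hc.big j h1 h0
  · exact h.fc.big j h0 h2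

theorem bpos (h : S.CT E ξ w μ D s J Λ L δ) {j : ℤ} (h1 : s ≤ j) (h2 : j ≤ J) : 0 < S.b j := by
  rcases le_or_gt j 0 with h0 | h0
  · exact h.hc.bpos j h1 h0
  · exact h.fc.bpos j h0 h2

theorem bmu (h : S.CT E ξ w μ D s J Λ L δ) {e : ℕ} (he : e ≤ E) {j : ℤ} (h1 : s ≤ j) (h2 : j ≤ J) :
    S.b j * μ (j - 1) ^ e ≤ μ j ^ (e + 1) := by
  rcases le_or_gt j 0 with h0 | h0
  · exact h.hc.bmu e he j h1 h0
  · have a1 := h.fc.ble j h0 h2
    obtain a2 := h.fc.mono (j - 1) j (by omega) (by omega) h2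
    obtain a3 := h.fc.big (j - 1) (by omega) (by omega)
    have a4 := h.fc.bpos j h0 h2
    rw [pow_succ']
    exact mul_le_mul a1 (pow_le_pow_left₀ (by linarith only [a3]) a2 e) (by positivity) (by linarith only [a2, a3])

theorem b0 (h : S.CT E ξ w μ D s J Λ L δ) {e : ℕ} (he : e ≤ E) : S.b 0 * μ (-1) ^ e ≤ δ := by
  have s0 := h.hc.s0
  obtain a1 := h.hc.big (-1) (by omega) (by omega)
  have a2 := h.hc.bpos 0 s0 le_rfl
  exact le_trans (mul_le_mul_of_nonneg_left (pow_le_pow_right₀ (by linarith only [a1]) he) a2.le) h.g0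

theorem del_pos (h : S.CT E ξ w μ D s J Λ L δ) : 0 < δ := by
  have := b0 h (Nat.zero_le E)
  have a2 := h.hc.bpos 0 h.hc.s0 le_rfl
  simp only [pow_zero, mul_one] at this; linarith only [a2, this]

theorem del_mu (h : S.CT E ξ w μ D s J Λ L δ) (hE : 1 ≤ E) : δ * μ 0 ≤ 1 := by
  have s0 := h.hc.s0
  obtain a1 := h.hc.big 0 (by omega) le_rfl
  refine le_trans (mul_le_mul_of_nonneg_left ?_ (del_pos h).le) h.g2
  exact le_self_pow₀ (by linarith only [a1]) (by omega)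

theorem two_mul_le {x u : ℝ} (hx : 1000 ≤ x) (hu : 0 ≤ u) (k : ℕ) : 2 * (u * x ^ k) ≤ u * x ^ (k + 1) := by
  obtain this : 0 ≤ u * x ^ k := mul_nonneg hu (pow_nonneg (by linarith only [hx]) k)
  rw [pow_succ]; nlinarith only [this, hx]

/-- a priori bound for the position -/
theorem apri (hH : APH_s) (hF : APF1_s) (h : S.CT E ξ w μ D s J Λ L δ) (hE : 50 ≤ E) {Y : ℤ → ℝ}
    {α ρ : ℝ} (hα : 0 ≤ α) (hρ : 0 ≤ ρ) (hρ1 : ρ * Λ ^ 10 ≤ 1) (hρ2 : ρ ≤ 1)
    (hd : ∀ j, s ≤ j → j < J → |S.df Y j| ≤ α + ρ * S.sz Y j)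
    (hb : ξ s * Y (s - 1) = ξ (s - 1) * Y s) :
    ∀ j, s - 1 ≤ j → j ≤ J → |Y j| ≤ (α + |Y 0|) * μ j ^ 16 := by
  have s0 := h.hc.s0
  have J1 := h.fc.J1
  set A := α + |Y 0| with hA
  have y0 := abs_nonneg (Y 0)
  obtain A0 : 0 ≤ A := by positivity
  obtain m0 := big h (j := 0) (by omega) (by omega)
  obtain H := hH S E 0 ξ w μ Y s Λ A 0 ρ h.hc (h.top _ le_rfl (by omega)) (by omega) A0 le_rfl hρ hρ1
    (fun j h1 h2 => by have := hd j h1 (by omega); simp only [pow_zero]; linarith only [y0, this])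
    (by rw [hb]; simp) (by simp only [pow_zero]; linarith only [hα])
  obtain H' : ∀ j, s - 1 ≤ j → j ≤ 0 → |Y j| ≤ A * μ j ^ 7 := fun j h1 h2 => by
    simpa using H j h1 h2
  obtain y1 : |Y 1| ≤ A * μ 0 ^ 9 := by
    obtain d0 := hd 0 s0 (by omega)
    obtain e : Y 1 = S.df Y 0 + S.a 0 * Y 0 + S.b 0 * Y (-1) := by simp only [Sq.df, zero_add, zero_sub]; ring
    have b0 := h.hc.bpos 0 s0 le_rfl
    have a0 := h.hc.ale 0 s0 le_rfl
    obtain t1 : S.b 0 * |Y (-1)| ≤ A * μ 0 ^ 8 := by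
      obtain q1 : S.b 0 * μ (-1) ^ 7 ≤ μ 0 ^ 8 := by simpa using bmu h (e := 7) (by omega) s0 (by omega)
      obtain q2 := mul_le_mul_of_nonneg_left (H' (-1) (by omega) (by omega)) b0.le
      have q3 := mul_le_mul_of_nonneg_left q1 A0
      linarith only [q2, q3]
    obtain t2 : |Y 1| ≤ |S.df Y 0| + μ 0 * |Y 0| + S.b 0 * |Y (-1)| := by
      rw [e]
      refine (abs_add_three _ _ _).trans ?_
      rw [abs_mul, abs_mul, abs_of_pos b0]
      have := mul_le_mul_of_nonneg_right a0 y0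
      linarith only [this]
    obtain t3 : ρ * S.sz Y 0 ≤ |Y 0| + S.b 0 * |Y (-1)| := by
      obtain this : S.sz Y 0 = |Y 0| + S.b 0 * |Y (-1)| := by simp [Sq.sz]
      rw [this]
      exact mul_le_of_le_one_left (by (clear * - b0; positivity)) hρ2
    obtain t4 : μ 0 ≤ μ 0 ^ 8 := le_self_pow₀ (by linarith only [m0]) (by norm_num)
    obtain t5 : μ 0 * |Y 0| ≤ A * μ 0 ^ 8 := by nlinarith only [hα, m0, t4, y0]
    obtain t6 : A ≤ A * μ 0 ^ 8 := by nlinarith only [y0, t5, hα, m0, t4]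
    obtain t7 : 4 * (A * μ 0 ^ 8) ≤ A * μ 0 ^ 9 := by
      obtain this : 0 ≤ A * μ 0 ^ 8 := by (clear * - hα m0; positivity)
      rw [show A * μ 0 ^ 9 = μ 0 * (A * μ 0 ^ 8) by ring]; nlinarith only [hα, y0, t6, m0]
    linarith only [d0, t1, t2, t3, t5, t6, t7]
  obtain F := hF S E 9 μ D Y J J Λ A ρ h.fc (h.top _ (by omega) le_rfl) J1 le_rfl A0 hρ hρ1
    (fun j h1 h2 => by
      obtain x := hd j (by omega) h2
      obtain m := big h (j := j) (by omega) h2.le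
      obtain this : 1 ≤ μ j ^ 9 := one_le_pow₀ (by linarith only [m])
      linarith only [x, y0, mul_le_mul_of_nonneg_left this A0, hA])
    (by have : 1 ≤ μ 0 ^ 9 := one_le_pow₀ (by linarith only [m0])
        nlinarith only [hα, this, y0])
    (y1.trans (mul_le_mul_of_nonneg_left
      (pow_le_pow_left₀ (by linarith only [m0]) (h.fc.mono 0 1 le_rfl (by omega) J1) 9) A0))
  intro j h1 h2
  rcases le_total j 0 with h0 | h0
  · have m := big h h1 h2
    exact (H' j h1 h0).trans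
      (mul_le_mul_of_nonneg_left (pow_le_pow_right₀ (by linarith only [m]) (by norm_num)) A0)
  · exact F j h0 h2

theorem df_eq {A B Z : ℤ → ℝ} {j : ℤ} (hZ : Z (j + 1) = A j * Z j + B j * Z (j - 1)) :
    S.df Z j = (A j - S.a j) * Z j + (B j - S.b j) * Z (j - 1) := by
  rw [Sq.df, hZ]; ring

theorem df_le {A B Z : ℤ → ℝ} {j : ℤ} {x : ℝ} (hZ : Z (j + 1) = A j * Z j + B j * Z (j - 1))
    (hA : |A j - S.a j| ≤ x) (hB : |B j - S.b j| ≤ x * S.b j) : |S.df Z j| ≤ x * S.sz Z j := by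
  rw [df_eq hZ, Sq.sz]
  refine (abs_add_le _ _).trans ?_
  rw [abs_mul, abs_mul]
  have := mul_le_mul_of_nonneg_right hA (abs_nonneg (Z j))
  have := mul_le_mul_of_nonneg_right hB (abs_nonneg (Z (j - 1)))
  linarith

/-- the history solution does not vanish at the fold -/
theorem hist0 (hH : APH_s) (h : S.CT E ξ w μ D s J Λ L δ) (hE : 50 ≤ E) {A B Z : ℤ → ℝ} {ρ : ℝ}
    (hρ : 0 ≤ ρ) (hρ1 : ρ * Λ ^ 10 ≤ 1)
    (hA : ∀ j, s ≤ j → j < 0 → |A j - S.a j| ≤ ρ ∧ |B j - S.b j| ≤ ρ * S.b j)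
    (hZ : ∀ j, s ≤ j → j < 0 → Z (j + 1) = A j * Z j + B j * Z (j - 1))
    (h0 : Z (s - 1) = ξ (s - 1)) (h1 : Z s = ξ s) : Z 0 ≠ 0 := by
  intro hz
  have s0 := h.hc.s0
  have J1 := h.fc.J1
  obtain H := hH S E 0 ξ w μ Z s Λ 0 0 ρ h.hc (h.top _ le_rfl (by omega)) (by omega) le_rfl le_rfl hρ
    hρ1 (fun j h1 h2 => by simpa using df_le (hZ j h1 h2) (hA j h1 h2).1 (hA j h1 h2).2)
    (by rw [h0, h1, mul_comm]; simp) (by simp [hz])
  obtain e0 : ξ (s - 1) = 0 := by simpa [h0] using H (s - 1) le_rfl (by omega)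
  have e1 : ξ s = 0 := by simpa [h1] using H s (by omega) s0
  have := S.repr_on h.hc.sol s0 le_rfl
  rw [h.hc.one, e0, e1] at this
  simp at this

/-- the history term of the fold equation -/
theorem hist1 (hH : APH_s) (h : S.CT E ξ w μ D s J Λ L δ) (hE : 50 ≤ E) {A B Z : ℤ → ℝ} {ρ u : ℝ}
    (hρ : 0 ≤ ρ) (hρ1 : ρ * Λ ^ 10 ≤ 1) (hu : 0 ≤ u)
    (hA : ∀ j, s ≤ j → j < 0 → |A j - S.a j| ≤ ρ ∧ |B j - S.b j| ≤ ρ * S.b j)
    (hA' : ∀ j, s ≤ j → j ≤ 0 → |A j - S.a j| ≤ u * μ j ^ 18 ∧ |B j - S.b j| ≤ u * μ j ^ 18 * S.b j)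
    (hZ : ∀ j, s ≤ j → j < 0 → Z (j + 1) = A j * Z j + B j * Z (j - 1))
    (hb : ξ s * Z (s - 1) = ξ (s - 1) * Z s) (h1 : Z 0 = 1) :
    |B 0 * Z (-1) - S.b 0 * ξ (-1)| ≤ 2 * (u * δ) := by
  have s0 := h.hc.s0
  have J1 := h.fc.J1
  obtain top := h.top _ le_rfl (show s - 1 ≤ J by omega)
  obtain H := hH S E 0 ξ w μ Z s Λ 1 0 ρ h.hc top (by omega) zero_le_one le_rfl hρ
    hρ1 (fun j h1 h2 => by
      have := df_le (hZ j h1 h2) (hA j h1 h2).1 (hA j h1 h2).2
      simp only [pow_zero]; linarith only [this])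
    (by rw [hb]; simp) (by simp [h1])
  obtain H1 : ∀ j, s - 1 ≤ j → j ≤ 0 → |Z j| ≤ μ j ^ 7 := fun j h1 h2 => by simpa using H j h1 h2
  obtain L1 : (1000 : ℝ) ≤ Λ := (h.hc.big _ le_rfl (by omega)).trans top
  obtain H2 := hH S E 27 ξ w μ (fun j => Z j - ξ j) s Λ u 0 0 h.hc top (by omega) hu le_rfl le_rfl
    (by simp) (fun j h1 h2 => by
      obtain e : S.df (fun j => Z j - ξ j) j = S.df Z j := by
        simp only [Sq.df, h.hc.sol j h1 h2]; ring
      obtain m := h.hc.big j (by omega) h2.le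
      have d := df_le (hZ j h1 h2) (hA' j h1 h2.le).1 (hA' j h1 h2.le).2
      obtain z1 : S.sz Z j ≤ 2 * μ j ^ 8 := by
        obtain a1 := H1 j (by omega) h2.le
        obtain a2 := mul_le_mul_of_nonneg_left (H1 (j - 1) (by omega) (by omega))
          (h.hc.bpos j h1 h2.le).le
        obtain a3 : S.b j * μ (j - 1) ^ 7 ≤ μ j ^ 8 := h.hc.bmu 7 (by omega) j h1 h2.le
        obtain a4 : μ j ^ 7 ≤ μ j ^ 8 := pow_le_pow_right₀ (by linarith only [m]) (by norm_num)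
        rw [Sq.sz]; linarith only [a1, a2, a3, a4]
      obtain z2 := mul_le_mul_of_nonneg_left z1 (show 0 ≤ u * μ j ^ 18 by positivity)
      have z3 := two_mul_le m hu 26
      rw [e]
      simp only [zero_mul, add_zero]
      calc _ ≤ u * μ j ^ 18 * (2 * μ j ^ 8) := d.trans z2
        _ = 2 * (u * μ j ^ 26) := by ring
        _ ≤ _ := z3)
    (by rw [show ξ s * (Z (s - 1) - ξ (s - 1)) - ξ (s - 1) * (Z s - ξ s) = 0 by linarith only [hb]]; simp)
    (by have := h.hc.big 0 (by omega) le_rfl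
        simp only [h1, h.hc.one, sub_self, abs_zero, zero_mul, add_zero]; (clear * - hu this; positivity))
  obtain p1 : |Z (-1) - ξ (-1)| ≤ u * μ (-1) ^ 34 := by simpa using H2 (-1) (by omega) (by omega)
  have bp := h.hc.bpos 0 s0 le_rfl
  obtain m0 := h.hc.big 0 (by omega) le_rfl
  obtain m1 := h.hc.mono (-1) 0 (by omega) (by omega) le_rfl
  rw [show B 0 * Z (-1) - S.b 0 * ξ (-1) = (B 0 - S.b 0) * Z (-1) + S.b 0 * (Z (-1) - ξ (-1)) by ring]
  refine (abs_add_le _ _).trans ?_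
  rw [abs_mul, abs_mul, abs_of_pos bp]
  obtain q1 : S.b 0 * |Z (-1) - ξ (-1)| ≤ u * δ := by
    linarith only [mul_le_mul_of_nonneg_left (b0 h (e := 34) (by omega)) hu,
      mul_le_mul_of_nonneg_left p1 bp.le]
  have q2 : |B 0 - S.b 0| * |Z (-1)| ≤ u * δ := by
    obtain a1 := mul_le_mul (hA' 0 s0 le_rfl).2 (H1 (-1) (by omega) (by omega)) (abs_nonneg _)
      (by (clear * - hu m0 bp; positivity))
    obtain a2 : μ 0 ^ 18 ≤ μ (-1) ^ 18 := pow_le_pow_left₀ (by linarith only [m0]) m1 18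
    have a3 := mul_le_mul_of_nonneg_left (b0 h (e := 25) (by omega)) hu
    have a4 : 0 ≤ u * (S.b 0 * μ (-1) ^ 7) := by have : 0 ≤ μ (-1) := by linarith only [m0, m1]
                                                 (clear * - hu bp this; positivity)
    calc _ ≤ _ := a1
      _ = μ 0 ^ 18 * (u * (S.b 0 * μ (-1) ^ 7)) := by ring
      _ ≤ μ (-1) ^ 18 * (u * (S.b 0 * μ (-1) ^ 7)) := mul_le_mul_of_nonneg_right a2 a4
      _ = u * (S.b 0 * μ (-1) ^ 25) := by ring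
      _ ≤ _ := a3
  linarith only [q1, q2]

/-- the forward continuant does not vanish at the horizon -/
theorem fwd0 (hF : APF2_s) (h : S.CT E ξ w μ D s J Λ L δ) (hE : 50 ≤ E) {A B Z : ℤ → ℝ} {ρ : ℝ}
    (hρ : 0 ≤ ρ) (hρ1 : ρ * Λ ^ 10 ≤ 1)
    (hA : ∀ j, 1 ≤ j → j < J → |A j - S.a j| ≤ ρ ∧ |B j - S.b j| ≤ ρ * S.b j)
    (hZ : ∀ j, 1 ≤ j → j < J → Z (j + 1) = A j * Z j + B j * Z (j - 1))
    (h0 : Z 0 = 0) (h1 : Z 1 = 1) : Z J ≠ 0 := by
  intro hz
  have s0 := h.hc.s0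
  have J1 := h.fc.J1
  obtain H := hF S E 0 μ D Z J Λ 0 0 ρ h.fc (h.top _ (by omega) le_rfl) (by omega) le_rfl le_rfl hρ hρ1
    (fun j h1 h2 => by simpa using df_le (hZ j h1 h2) (hA j h1 h2).1 (hA j h1 h2).2) h0 (by simp [hz])
  obtain this := H 1 (by omega) J1
  rw [h1] at this
  norm_num at this

theorem bD (h : S.CT E ξ w μ D s J Λ L δ) {j : ℤ} (h1 : 1 ≤ j) (h2 : j ≤ J) :
    S.b j * D (j - 1) ≤ μ j * D j := by
  obtain this := h.fc.PbD (j - 1) j (by omega) (by omega) h2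
  have e := S.Pb_one (j - 1)
  rw [sub_add_cancel] at e
  rwa [e] at this

/-- the forward term of the fold equation -/
theorem fwd1 (hF : APF2_s) (h : S.CT E ξ w μ D s J Λ L δ) (hE : 50 ≤ E) {A B Z : ℤ → ℝ} {ρ u : ℝ}
    (hρ : 0 ≤ ρ) (hρ1 : ρ * Λ ^ 10 ≤ 1) (hρ2 : ρ ≤ 1) (hu : 0 ≤ u)
    (hA : ∀ j, 1 ≤ j → j < J → |A j - S.a j| ≤ ρ ∧ |B j - S.b j| ≤ ρ * S.b j)
    (hA' : ∀ j, 1 ≤ j → j < J → |A j - S.a j| ≤ u * μ j ^ 18 ∧ |B j - S.b j| ≤ u * μ j ^ 18 * S.b j)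
    (hZ : ∀ j, 1 ≤ j → j < J → Z (j + 1) = A j * Z j + B j * Z (j - 1))
    (h0 : Z 0 = 1) (h1 : Z J = 0) : |Z 1 - S.nu1 J| ≤ u * δ := by
  have s0 := h.hc.s0
  have J1 := h.fc.J1
  obtain top := h.top J (by omega) le_rfl
  have H := hF S E 1 μ D (fun j => if j = 0 then 0 else Z j) J Λ 2 0 ρ h.fc top (by omega)
    (by norm_num) le_rfl hρ hρ1 (fun j j1 j2 => by
      have d := df_le (hZ j j1 j2) (hA j j1 j2).1 (hA j j1 j2).2
      obtain m := h.fc.big j (by omega) j2.le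
      obtain Dp := h.fc.Dpos j (by omega) j2.le
      have bp := h.fc.bpos j j1 j2.le
      rcases j1.eq_or_lt with rfl | hlt
      · have b1 := bD h le_rfl j2.le
        simp only [Sq.df, Sq.sz, sub_self, h0, h.fc.D0, mul_one, abs_one, pow_one, add_zero] at *
        norm_num
        obtain e : Z 2 - S.a 1 * Z 1 = (Z (1 + 1) - S.a 1 * Z 1 - S.b 1) + S.b 1 := by norm_num
        rw [e]
        refine (abs_add_le _ _).trans ?_
        rw [abs_of_pos bp]
        nlinarith only [d, b1, hρ2, bp]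
      · obtain this : 0 ≤ 2 * μ j ^ 1 * D j := by positivity
        simp only [Sq.df, Sq.sz, if_neg (show j + 1 ≠ 0 by omega), if_neg (show j ≠ 0 by omega),
          if_neg (show j - 1 ≠ 0 by omega)] at *
        linarith only [d, this]) (by simp) (by simp [h1])
  obtain H1 : ∀ j, 0 ≤ j → j ≤ J → |Z j| ≤ μ j ^ 9 * D j := fun j j0 j1 => by
    have m := h.fc.big j j0 j1
    have Dp := h.fc.Dpos j j0 j1
    rcases j0.eq_or_lt with rfl | hlt
    · rw [h0, h.fc.D0, abs_one, mul_one]; exact one_le_pow₀ (by linarith only [m])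
    · have := H j j0 j1
      simp only [if_neg (show j ≠ 0 by omega), zero_mul, add_zero] at this
      have t := two_mul_le m Dp.le 8
      calc _ ≤ _ := this
        _ = 2 * (D j * μ j ^ 8) := by ring
        _ ≤ D j * μ j ^ (8 + 1) := t
        _ = _ := by ring
  obtain fJ : S.fr 1 J ≠ 0 := by
    intro hz
    obtain this := h.fc.frJ (J - 1) (by omega) (by omega)
    rw [sub_add_cancel, S.fr_self, hz] at this
    norm_num at this
  set ν : ℤ → ℝ := fun j => if j = 0 then 1 else S.nu1 J * S.fr 1 j + S.b 1 * S.fr 2 j with hν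
  obtain n0 : ν 0 = 1 := by simp [hν]
  obtain n1 : ν 1 = S.nu1 J := by simp [hν, S.fr_self, S.fr_lt (show (1 : ℤ) < 2 by norm_num)]
  obtain nJ : ν J = 0 := by
    simp only [hν, if_neg (show J ≠ 0 by omega), Sq.nu1]; field_simp; ring
  obtain ns : ∀ j, 1 ≤ j → ν (j + 1) = S.a j * ν j + S.b j * ν (j - 1) := fun j j1 => by
    rcases j1.eq_or_lt with rfl | hlt
    · rw [sub_self, n0, n1]
      simp only [hν, if_neg (show (1 : ℤ) + 1 ≠ 0 by omega), S.fr_one,
        show S.fr 2 (1 + 1) = 1 from S.fr_self 2]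
      ring
    · simp only [hν, if_neg (show j + 1 ≠ 0 by omega), if_neg (show j ≠ 0 by omega),
        if_neg (show j - 1 ≠ 0 by omega), S.fr_succ j1, S.fr_succ (show 2 ≤ j by omega)]
      ring
  obtain H2 := hF S E 29 μ D (fun j => Z j - ν j) J Λ u 0 0 h.fc top (by omega) hu le_rfl le_rfl
    (by simp) (fun j j1 j2 => by
      obtain e : S.df (fun j => Z j - ν j) j = S.df Z j := by
        simp only [Sq.df, ns j j1]; ring
      obtain m := h.fc.big j (by omega) j2.le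
      obtain Dp := h.fc.Dpos j (by omega) j2.le
      have d := df_le (hZ j j1 j2) (hA' j j1 j2).1 (hA' j j1 j2).2
      obtain z1 : S.sz Z j ≤ 2 * (μ j ^ 10 * D j) := by
        obtain a1 := H1 j (by omega) j2.le
        obtain a2 := mul_le_mul_of_nonneg_left (H1 (j - 1) (by omega) (by omega))
          (h.fc.bpos j j1 j2.le).le
        have a3 := bD h j1 j2.le
        obtain a4 : μ j ^ 9 ≤ μ j ^ 10 := pow_le_pow_right₀ (by linarith only [m]) (by norm_num)
        obtain a5 : μ (j - 1) ^ 9 ≤ μ j ^ 9 := pow_le_pow_left₀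
          (by have := h.fc.big (j - 1) (by omega) (by omega); linarith only [this])
          (h.fc.mono _ _ (by omega) (by omega) j2.le) 9
        obtain a6 := mul_le_mul a5 a3 (mul_pos (h.fc.bpos j j1 j2.le)
          (h.fc.Dpos (j - 1) (by omega) (by omega))).le (by positivity)
        have a7 := mul_le_mul_of_nonneg_right a4 Dp.le
        rw [Sq.sz]
        calc _ ≤ μ j ^ 10 * D j + μ (j - 1) ^ 9 * (S.b j * D (j - 1)) := by linarith only [a1, a2, a7]
          _ ≤ μ j ^ 10 * D j + μ j ^ 9 * (μ j * D j) := by linarith only [a6]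
          _ = _ := by ring
      obtain z2 := mul_le_mul_of_nonneg_left z1 (show 0 ≤ u * μ j ^ 18 by (clear * - hu m; positivity))
      have z3 := two_mul_le m (mul_nonneg hu Dp.le) 28
      rw [e]
      simp only [zero_mul, add_zero]
      calc _ ≤ u * μ j ^ 18 * (2 * (μ j ^ 10 * D j)) := d.trans z2
        _ = 2 * (u * D j * μ j ^ 28) := by ring
        _ ≤ u * D j * μ j ^ (28 + 1) := z3
        _ = _ := by ring)
    (by simp [h0, n0]) (by simp [h1, nJ])
  obtain p := H2 1 (by omega) J1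
  simp only [n1, zero_mul, add_zero] at p
  obtain m := h.fc.big 1 (by omega) J1
  obtain Dp := h.fc.Dpos 1 (by omega) J1
  obtain q : μ 1 ^ (29 + 7) * D 1 ≤ δ := le_trans
    (mul_le_mul_of_nonneg_right (pow_le_pow_right₀ (by linarith only [m]) (by omega)) Dp.le) h.g1
  have := mul_le_mul_of_nonneg_left q hu
  linarith only [p, this, mul_assoc u (μ 1 ^ (29 + 7)) (D 1)]

/-- the fold is monotone -/
theorem fold_mono (hM : MG_s) {g : R3 → ℝ} {U : Set R3} {N : ℕ} {a b m dl ρ L : ℝ}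
    (h : LM g U N a b m dl ρ) (hf : FoldOn g U L) : ∃ σ : ℝ, (σ = 1 ∨ σ = -1) ∧
      ∀ t x x' y : ℝ, (t, x, y) ∈ U → (t, x', y) ∈ U → x ≤ x' →
        3 / 4 * L * (x' - x) ≤ σ * ga g (t, x', y) - σ * ga g (t, x, y) := by
  obtain ⟨σ, hσ, hb⟩ := hf
  refine ⟨σ, hσ, fun t x x' y hx hx' hle => ?_⟩
  obtain cv : Convex ℝ {u : ℝ | ((t, u, y) : R3) ∈ U} := by
    intro p hp q hq α β hα hβ hab
    have := h.conv hp hq hα hβ hab
    obtain e : α • ((t, p, y) : R3) + β • ((t, q, y) : R3) = (t, α • p + β • q, y) := by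
      simp only [Prod.smul_mk, Prod.mk_add_mk, smul_eq_mul, ← add_mul, hab, one_mul]
    rwa [e] at this
  obtain hd : ∀ u ∈ {u : ℝ | ((t, u, y) : R3) ∈ U}, HasDerivAt (fun u => σ * ga g (t, u, y))
      (σ * iteratedFDeriv ℝ 2 g (t, u, y) ![(0, 1, 0), (0, 1, 0)]) u := fun u hu => by
    obtain ⟨c1, -, -, -, c2, -⟩ := hM g U N a b m dl ρ h _ hu
    have d1 : HasDerivAt (fun u : ℝ => ((t, u, y) : R3)) (0, 1, 0) u :=
      (hasDerivAt_const u t).prodMk ((hasDerivAt_id u).prodMk (hasDerivAt_const u y))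
    obtain d2 := ((c1.differentiableAt (by simp)).hasFDerivAt.comp_hasDerivAt u d1).const_mul σ
    rw [c2, mul_one] at d2
    exact d2
  exact cv.mul_sub_le_image_sub_of_le_deriv
    (fun u hu => (hd u hu).continuousAt.continuousWithinAt)
    (fun u hu => (hd u (interior_subset hu)).differentiableAt.differentiableWithinAt)
    (fun u hu => by
      have hu' : u ∈ {u : ℝ | ((t, u, y) : R3) ∈ U} := interior_subset hu
      rw [(hd u hu').deriv]; exact hb _ hu')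
    x hx x' hx' hle

/-- uniformly bounded defects give a uniformly bounded deviation -/
theorem bdd {Y : ℝ → ℤ → ℝ} (h : S.HC E ξ w μ s) (h0 : ∀ v, Y v (s - 1) = v * ξ (s - 1))
    (h1 : ∀ v, Y v s = v * ξ s) (hd : ∀ j, s ≤ j → j < 0 → ∃ K, ∀ v, |S.df (Y v) j| ≤ K) :
    ∃ K, ∀ v, |Y v 0 - v| ≤ K := by
  obtain key : ∀ j, s ≤ j → j ≤ 0 → ∃ K, ∀ v, |Y v j - v * ξ j| ≤ K ∧
      |Y v (j - 1) - v * ξ (j - 1)| ≤ K := by
    intro j hj
    induction j, hj using Int.leInduction with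
    | base => exact fun _ => ⟨0, fun v => by simp [h0, h1]⟩
    | succ j hj ih =>
      intro hn
      obtain ⟨K, hK⟩ := ih (by omega)
      obtain ⟨K', hK'⟩ := hd j hj (by omega)
      refine ⟨max K (K' + |S.a j| * K + |S.b j| * K), fun v => ⟨?_, ?_⟩⟩
      · refine le_trans ?_ (le_max_right _ _)
        obtain e : Y v (j + 1) - v * ξ (j + 1) = S.df (Y v) j + S.a j * (Y v j - v * ξ j)
            + S.b j * (Y v (j - 1) - v * ξ (j - 1)) := by
          rw [Sq.df, h.sol j hj (by omega)]; ring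
        rw [e]
        refine (abs_add_three _ _ _).trans ?_
        rw [abs_mul, abs_mul]
        have := mul_le_mul_of_nonneg_left (hK v).1 (abs_nonneg (S.a j))
        have := mul_le_mul_of_nonneg_left (hK v).2 (abs_nonneg (S.b j))
        linarith [hK' v]
      · rw [add_sub_cancel_right]; exact (hK v).1.trans (le_max_left _ _)
  obtain ⟨K, hK⟩ := key 0 h.s0 le_rfl
  exact ⟨K, fun v => by simpa [h.one] using (hK v).1⟩

/-- cut-off point of step `j` -/
def pt (R : Sq) (τ c : ℝ) (j : ℤ) (y y' : ℝ) : R3 := (τ, R.X j + cl c y, R.X (j - 1) + cl c y')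

theorem pt_mem {R : Sq} {τ t0 r : ℝ} (hr : 0 < r) (hτ : |τ - t0| ≤ r) (j : ℤ) (y y' : ℝ) :
    pt R τ (r / 2) j y y' ∈ UB R t0 r j := by
  obtain a := cl_le (c := r / 2) (by linarith only [hr]) y
  obtain b := cl_le (c := r / 2) (by linarith only [hr]) y'
  refine ⟨hτ, ?_, ?_⟩ <;> simp only [pt, add_sub_cancel_left] <;> linarith only [hr, a, b]

theorem pt_cont {R : Sq} {τ t0 r : ℝ} (hr : 0 < r) (hτ : |τ - t0| ≤ r) {j : ℤ} {f : R3 → ℝ}
    (hf : ∀ z ∈ UB R t0 r j, ContDiffAt ℝ ∞ f z) {X : Type} [TopologicalSpace X] {y y' : X → ℝ}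
    (hy : Continuous y) (hy' : Continuous y') :
    Continuous fun x => f (pt R τ (r / 2) j (y x) (y' x)) := by
  have c : Continuous fun x => pt R τ (r / 2) j (y x) (y' x) :=
    continuous_const.prodMk ((continuous_const.add ((cl_cont _).comp hy)).prodMk
      (continuous_const.add ((cl_cont _).comp hy')))
  exact continuous_iff_continuousAt.2 fun x =>
    ContinuousAt.comp (f := fun x => pt R τ (r / 2) j (y x) (y' x))
      (hf _ (pt_mem hr hτ j _ _)).continuousAt c.continuousAt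

end EX0

open EX0 in
theorem ex0 (hM : MG_s) (hS : ST0_s) (hH : APH_s) (hF1 : APF1_s) (hF2 : APF2_s) : EX0_s := by
  intro g N E P τ r1 h hE hτ hρ hr
  obtain ⟨R, t0, ξ, w, μ, D, s, J, Λ, L, δ, dl, r⟩ := P
  obtain ⟨ct, r0, rE, dlδ, lm, fold, orb, ea, eb⟩ := h
  simp only [RD.ρ] at *
  have s0 := ct.hc.s0
  have J1 := ct.fc.J1
  obtain m0 := big ct (j := 0) (by omega) (by omega)
  obtain Λ1 : 1000 ≤ Λ := m0.trans (ct.top 0 (by omega) (by omega))
  have r10 : 0 ≤ r1 := (abs_nonneg _).trans hτ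
  obtain rΛ : r1 * (1000 * Λ ^ 16) ≤ r := by
    refine le_trans (mul_le_mul_of_nonneg_left ?_ r10) hr
    calc 1000 * Λ ^ 16 ≤ Λ * Λ ^ 16 := mul_le_mul_of_nonneg_right Λ1 (by positivity)
      _ = Λ ^ 17 := by ring
      _ ≤ _ := pow_le_pow_right₀ (by linarith only [Λ1]) (by norm_num)
  obtain Λ16 : 1 ≤ Λ ^ 16 := one_le_pow₀ (by linarith only [Λ1])
  obtain r1r : 1000 * r1 ≤ r := by nlinarith only [rΛ, r10, Λ16]
  obtain hτr : |τ - t0| ≤ r := by linarith only [hτ, r0, r1r]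
  obtain ρ0 : 0 ≤ Λ ^ 2 * r := by positivity
  obtain ρ1 : Λ ^ 2 * r * Λ ^ 10 ≤ 1 := by
    refine le_trans ?_ rE
    rw [show Λ ^ 2 * r * Λ ^ 10 = r * Λ ^ 12 by ring]
    exact mul_le_mul_of_nonneg_left (pow_le_pow_right₀ (by linarith only [Λ1]) (by omega)) r0.le
  obtain lm0 := lm 0 s0 (by omega)
  obtain ρ2 : Λ ^ 2 * r ≤ 1 := by linarith only [lm0.ρ1]
  obtain c0 : 0 ≤ r / 2 := by linarith only [r0]
  have δ0 := del_pos ct
  obtain δ1 := del_mu ct (by omega)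
  obtain δ2 : δ ≤ 1 / 1000 := by nlinarith only [δ1, m0, δ0]
  obtain mem0 : ∀ j, ((t0, R.X j, R.X (j - 1)) : R3) ∈ UB R t0 r j := fun j => by
    refine ⟨?_, ?_, ?_⟩ <;> simp [r0.le]
  obtain ⟨Y, Y0, Y1, Yr, Yc⟩ := ex_rec s J (fun j p => g (pt R τ (r / 2) j p.2.1 p.2.2) - R.X (j + 1)
      + R.a j * (p.2.1 - cl (r / 2) p.2.1) + R.b j * (p.2.2 - cl (r / 2) p.2.2))
    (fun v => v * ξ (s - 1)) (fun v => v * ξ s) (fun j j1 j2 => by
      obtain c1 := pt_cont r0 hτr (lm j j1 j2.le).sm (y := fun p : ℝ × ℝ × ℝ => p.2.1)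
        (y' := fun p => p.2.2) (by fun_prop) (by fun_prop)
      obtain c2 : Continuous fun p : ℝ × ℝ × ℝ => p.2.1 := by fun_prop
      obtain c3 : Continuous fun p : ℝ × ℝ × ℝ => p.2.2 := by fun_prop
      exact ((c1.sub continuous_const).add (continuous_const.mul (c2.sub ((cl_cont _).comp c2)))).add
        (continuous_const.mul (c3.sub ((cl_cont _).comp c3)))) (by fun_prop) (by fun_prop)
  simp only at Yr
  set A : ℝ → ℤ → ℝ := fun v j => ga g (pt R τ (r / 2) j (Y v j) (Y v (j - 1))) with hA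
  set B : ℝ → ℤ → ℝ := fun v j => gb g (pt R τ (r / 2) j (Y v j) (Y v (j - 1))) with hB
  obtain ABc : ∀ j, s ≤ j → j < J →
      Continuous fun p : ℝ × ℝ × ℝ => A p.1 j * p.2.1 + B p.1 j * p.2.2 := fun j j1 j2 => by
    obtain c1 : Continuous fun v => A v j := pt_cont r0 hτr
      (fun z hz => (hM _ _ _ _ _ _ _ _ (lm j j1 j2.le) z hz).1) (Yc j (by omega) j2.le)
      (Yc (j - 1) (by omega) (by omega))
    obtain c2 : Continuous fun v => B v j := pt_cont r0 hτr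
      (fun z hz => (hM _ _ _ _ _ _ _ _ (lm j j1 j2.le) z hz).2.1) (Yc j (by omega) j2.le)
      (Yc (j - 1) (by omega) (by omega))
    exact ((c1.comp continuous_fst).mul (by fun_prop)).add ((c2.comp continuous_fst).mul (by fun_prop))
  obtain ⟨Z, Z0, Z1, Zr, Zc⟩ := ex_rec s J (fun j p => A p.1 j * p.2.1 + B p.1 j * p.2.2)
    (fun _ => ξ (s - 1)) (fun _ => ξ s) ABc continuous_const continuous_const
  obtain ⟨f, f0, f1, fr, fc⟩ := ex_rec 1 J (fun j p => A p.1 j * p.2.1 + B p.1 j * p.2.2)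
    (fun _ => 0) (fun _ => 1) (fun j j1 j2 => ABc j (by omega) j2) continuous_const continuous_const
  simp only [sub_self] at Zr fr f0
  obtain dY : ∀ v j, s ≤ j → j < J → |R.df (Y v) j| ≤
      2 * r1 + Λ ^ 2 * r * (|cl (r / 2) (Y v j)| + R.b j * |cl (r / 2) (Y v (j - 1))|) := by
    intro v j j1 j2
    have t := (hS _ _ _ _ _ _ _ _ (lm j j1 j2.le) _ (mem0 j) _
      (pt_mem r0 hτr j (Y v j) (Y v (j - 1)))).1
    obtain e : R.df (Y v) j = g (pt R τ (r / 2) j (Y v j) (Y v (j - 1))) - g (t0, R.X j, R.X (j - 1))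
        - R.a j * cl (r / 2) (Y v j) - R.b j * cl (r / 2) (Y v (j - 1)) := by
      rw [Sq.df, Yr v j j1, orb j j1 j2]; ring
    simp only [pt, add_sub_cancel_left] at t
    rw [e]; simp only [pt]; linarith only [hτ, t]
  obtain bY : ∀ v j, s - 1 ≤ j → j ≤ J → |Y v j| ≤ (2 * r1 + |Y v 0|) * μ j ^ 16 := fun v =>
    apri hH hF1 ct (by omega) (by linarith only [r10]) ρ0 ρ1 ρ2 (fun j j1 j2 => by
      have a := cl_le' c0 (Y v j)
      have b := mul_le_mul_of_nonneg_left (cl_le' c0 (Y v (j - 1))) (bpos ct j1 j2.le).le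
      have c := mul_le_mul_of_nonneg_left (add_le_add a b) ρ0
      have := dY v j j1 j2
      rw [Sq.sz]; linarith only [c, this]) (by rw [Y0, Y1]; ring)
  obtain ⟨K, hK⟩ := bdd ct.hc Y0 Y1 fun j j1 j2 =>
    ⟨2 * r1 + Λ ^ 2 * r * (r / 2 + R.b j * (r / 2)), fun v => by
      have a := cl_le c0 (Y v j)
      obtain b := mul_le_mul_of_nonneg_left (cl_le c0 (Y v (j - 1))) (bpos ct j1 (by omega)).le
      have c := mul_le_mul_of_nonneg_left (add_le_add a b) ρ0
      obtain this := dY v j j1 (by omega)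
      linarith only [c, this]⟩
  set u : ℝ → ℝ := fun v => 2 * r1 + |cl (r / 2) (Y v 0)| with hu
  obtain u0 : ∀ v, 2 * r1 ≤ u v := fun v => by simp [hu]
  obtain u1 : ∀ v, 0 ≤ u v := fun v => by linarith only [r10, u0 v]
  obtain bC : ∀ v j, s - 1 ≤ j → j ≤ J → |cl (r / 2) (Y v j)| ≤ u v * μ j ^ 16 := by
    intro v j j1 j2
    rcases le_total |Y v 0| (r / 2) with c | c
    · simp only [hu, cl_eq c]; exact (cl_le' c0 _).trans (bY v j j1 j2)
    · have m := big ct j1 j2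
      obtain b : 1 ≤ μ j ^ 16 := one_le_pow₀ (by linarith only [m])
      have a := cl_le c0 (Y v j)
      obtain this : r / 2 ≤ u v := by simp only [hu, cl_abs c0 c]; linarith only [r10]
      exact (a.trans this).trans (le_mul_of_one_le_right (u1 v) b)
  obtain bC' : ∀ v j, s ≤ j → j ≤ J → R.b j * |cl (r / 2) (Y v (j - 1))| ≤ u v * μ j ^ 17 := by
    intro v j j1 j2
    obtain a := mul_le_mul_of_nonneg_left (bC v (j - 1) (by omega) (by omega)) (bpos ct j1 j2).le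
    obtain b : R.b j * μ (j - 1) ^ 16 ≤ μ j ^ 17 := bmu ct (by omega) j1 j2
    have c := mul_le_mul_of_nonneg_left b (u1 v)
    linarith only [a, c]
  obtain dτ : dl * |τ - t0| ≤ r1 := by
    have := mul_le_mul lm0.dl1 hτ (abs_nonneg _) zero_le_one
    linarith only [this]
  have AB1 : ∀ v j, s ≤ j → j ≤ J → |A v j - R.a j| ≤ Λ ^ 2 * r ∧ |B v j - R.b j| ≤ Λ ^ 2 * r * R.b j :=
    fun v j j1 j2 => ⟨(lm j j1 j2).ha _ (pt_mem r0 hτr j _ _), (lm j j1 j2).hb _ (pt_mem r0 hτr j _ _)⟩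
  obtain AB2 : ∀ v j, s ≤ j → j ≤ J →
      |A v j - R.a j| ≤ u v * μ j ^ 18 ∧ |B v j - R.b j| ≤ u v * μ j ^ 18 * R.b j := by
    intro v j j1 j2
    obtain ⟨-, -, t1, t2, -⟩ := hS _ _ _ _ _ _ _ _ (lm j j1 j2) _ (mem0 j) _
      (pt_mem r0 hτr j (Y v j) (Y v (j - 1)))
    obtain m := big ct (j := j) (by omega) j2
    have bp := bpos ct j1 j2
    obtain p17 : 1 ≤ μ j ^ 17 := one_le_pow₀ (by linarith only [δ0, δ2, m])
    obtain q : pg dl (R.b j) (pt R τ (r / 2) j (Y v j) (Y v (j - 1)) - (t0, R.X j, R.X (j - 1)))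
        ≤ u v * μ j ^ 17 := by
      simp only [pg, pt, Prod.mk_sub_mk, add_sub_cancel_left]
      refine max_le ?_ (max_le ?_ (bC' v j j1 j2))
      · nlinarith only [r10, dτ, p17, δ0, δ2, u0 v]
      · exact (bC v j (by omega) j2).trans (mul_le_mul_of_nonneg_left
          (pow_le_pow_right₀ (by linarith only [δ0, δ2, m]) (by norm_num)) (u1 v))
    rw [← ea j j1 j2] at t1
    rw [← eb j j1 j2] at t2
    obtain q1 := mul_le_mul_of_nonneg_left q (show 0 ≤ μ j by linarith only [δ0, δ2, m])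
    obtain q2 := mul_le_mul_of_nonneg_left q (show 0 ≤ μ j * R.b j by positivity)
    refine ⟨(t1.trans q1).trans_eq (by ring), (t2.trans q2).trans_eq (by ring)⟩
  obtain Zne : ∀ v, Z v 0 ≠ 0 := fun v => hist0 hH ct (by omega) ρ0 ρ1
    (fun j j1 j2 => AB1 v j j1 (by omega)) (fun j j1 _ => Zr v j j1) (Z0 v) (Z1 v)
  obtain fne : ∀ v, f v J ≠ 0 := fun v => fwd0 hF2 ct (by omega) ρ0 ρ1
    (fun j j1 j2 => AB1 v j (by omega) j2.le) (fun j j1 _ => fr v j j1) (f0 v) (f1 v)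
  set Ψ : ℝ → ℝ := fun v => Z v J / (Z v 0 * f v J) with hΨ
  obtain Ψc : Continuous Ψ := (Zc J (by omega) le_rfl).div
    ((Zc 0 (by omega) (by omega)).mul (fc J (by omega) le_rfl)) fun v => mul_ne_zero (Zne v) (fne v)
  obtain ⟨σ, hσ, hm⟩ := fold_mono hM lm0 fold
  obtain σ1 : |σ| = 1 := by rcases hσ with rfl | rfl <;> simp
  obtain mem1 : ∀ v, ((τ, R.X 0, R.X (0 - 1) + cl (r / 2) (Y v (0 - 1))) : R3) ∈ UB R t0 r 0 := fun v => by
    have := pt_mem (R := R) r0 hτr 0 0 (Y v (0 - 1))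
    rwa [pt, cl_eq (by simpa using c0), add_zero] at this
  obtain est : ∀ v, |σ * Ψ v - (σ * A v 0 - σ * ga g (τ, R.X 0, R.X (0 - 1) + cl (r / 2) (Y v (0 - 1))))|
      ≤ r1 + 4 * (u v * δ) := by
    intro v
    have z := Zne v
    obtain e1 := hist1 hH ct (by omega) (Z := fun j => Z v j / Z v 0) ρ0 ρ1 (u1 v)
      (fun j j1 j2 => AB1 v j j1 (by omega)) (fun j j1 j2 => AB2 v j j1 (by omega))
      (fun j j1 _ => by rw [Zr v j j1]; ring) (by rw [Z0, Z1]; ring) (div_self z)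
    obtain e2 := fwd1 hF2 ct (by omega) (Z := fun j => Z v j / Z v 0 - Ψ v * f v j) ρ0 ρ1 ρ2 (u1 v)
      (fun j j1 j2 => AB1 v j (by omega) j2.le) (fun j j1 j2 => AB2 v j (by omega) j2.le)
      (fun j j1 _ => by rw [Zr v j (by omega), fr v j j1]; ring) (by simp [f0, div_self z])
      (by have := fne v
          simp only [hΨ]; field_simp; ring)
    obtain e3 : Z v 1 = A v 0 * Z v 0 + B v 0 * Z v (-1) := by simpa using Zr v 0 s0
    obtain e4 : Z v 1 / Z v 0 = A v 0 + B v 0 * (Z v (-1) / Z v 0) := by rw [e3]; field_simp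
    obtain ⟨-, -, t1, -⟩ := hS _ _ _ _ _ _ _ _ lm0 _ (mem0 0) _ (mem1 v)
    obtain e5 := ea 0 s0 (by omega)
    obtain q : μ 0 * pg dl (R.b 0) ((τ, R.X 0, R.X (0 - 1) + cl (r / 2) (Y v (0 - 1)))
        - (t0, R.X 0, R.X (0 - 1))) ≤ u v * δ := by
      simp only [pg, Prod.mk_sub_mk, add_sub_cancel_left, sub_self, abs_zero]
      rw [mul_max_of_nonneg _ _ (by linarith only [m0, δ0, δ2]), mul_max_of_nonneg _ _ (by linarith only [m0, δ0, δ2]), mul_zero]
      refine max_le ?_ (max_le (mul_nonneg (u1 v) δ0.le) ?_)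
      · obtain a := mul_le_mul dlδ hτ (abs_nonneg _) (by positivity)
        obtain b := mul_le_mul_of_nonneg_left a (show 0 ≤ μ 0 by linarith only [m0, δ0, δ2])
        have c := mul_le_mul_of_nonneg_right δ1 (mul_nonneg r10 δ0.le)
        have d := mul_le_mul_of_nonneg_right (u0 v) δ0.le
        nlinarith only [b, c, d, r10, δ0]
      · obtain bp := bpos ct s0 (show (0 : ℤ) ≤ J by omega)
        obtain a := mul_le_mul_of_nonneg_left (bC v (0 - 1) (by omega) (by omega)) bp.le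
        obtain m1 := ct.hc.mono (0 - 1) 0 (by omega) (by omega) le_rfl
        obtain b := mul_le_mul m1 a (by (clear * - bp; positivity)) (by linarith only [m0, δ0, δ2, m1])
        obtain c := mul_le_mul_of_nonneg_left (b0 ct (e := 17) (by omega)) (u1 v)
        simp only [zero_sub] at *
        calc _ ≤ _ := b
          _ = u v * (R.b 0 * μ (-1) ^ 17) := by ring
          _ ≤ _ := c
    simp only [f1, mul_one, e4] at e1 e2
    rw [← mul_sub, ← mul_sub, abs_mul, σ1, one_mul]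
    obtain t2 : |ga g (τ, R.X 0, R.X (0 - 1) + cl (r / 2) (Y v (0 - 1))) - R.a 0| ≤ u v * δ := by
      rw [e5]; exact t1.trans q
    rw [abs_le] at e1 e2 t2 hρ ⊢
    constructor <;> linarith only [e1.1, e1.2, e2.1, e2.2, t2.1, t2.2, hρ.1, hρ.2]
  have L1 := ct.L1
  obtain uδ : ∀ v, u v * δ ≤ (2 * r1 + |cl (r / 2) (Y v 0)|) / 1000 := fun v => by
    have := mul_le_mul_of_nonneg_left δ2 (u1 v)
    simp only [hu] at this ⊢; linarith only [this]
  obtain pos : ∀ v, 0 ≤ cl (r / 2) (Y v 0) → 700 * cl (r / 2) (Y v 0) - 2 * r1 ≤ σ * Ψ v := by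
    intro v hv
    obtain a := hm _ _ _ _ (mem1 v) (pt_mem r0 hτr 0 (Y v 0) (Y v (0 - 1))) (by linarith only [hv])
    have b := (abs_le.1 (est v)).1
    have c := uδ v
    rw [abs_of_nonneg hv] at c
    simp only [hA, pt, add_sub_cancel_left] at a b
    linarith only [r10, hv, c, a, b, mul_le_mul_of_nonneg_right L1 hv]
  obtain neg : ∀ v, cl (r / 2) (Y v 0) ≤ 0 → σ * Ψ v ≤ 700 * cl (r / 2) (Y v 0) + 2 * r1 := by
    intro v hv
    obtain a := hm _ _ _ _ (pt_mem r0 hτr 0 (Y v 0) (Y v (0 - 1))) (mem1 v) (by linarith only [hv])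
    have b := (abs_le.1 (est v)).2
    have c := uδ v
    rw [abs_of_nonpos hv] at c
    simp only [hA, pt] at a b
    linarith only [r10, hv, c, a, b, mul_le_mul_of_nonneg_right L1 (neg_nonneg.2 hv)]
  obtain ⟨v, hv⟩ : ∃ v, σ * Ψ v = 0 := by
    obtain p1 := cl_top c0 (show r / 2 ≤ Y (K + r / 2) 0 by linarith only [(abs_le.1 (hK (K + r / 2))).1])
    obtain p2 := cl_bot c0
      (show Y (-(K + r / 2)) 0 ≤ -(r / 2) by linarith only [(abs_le.1 (hK (-(K + r / 2)))).2])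
    obtain q1 := pos (K + r / 2) (by linarith only [r0, p1])
    obtain q2 := neg (-(K + r / 2)) (by linarith only [r0, p2])
    exact intermediate_value_univ (f := fun v => σ * Ψ v) (-(K + r / 2)) (K + r / 2)
      (continuous_const.mul Ψc) ⟨by linarith only [r0, r1r, p2, q2], by linarith only [r0, r1r, p1, q1]⟩
  obtain c1 : |cl (r / 2) (Y v 0)| ≤ r1 := by
    rcases le_total 0 (cl (r / 2) (Y v 0)) with c | c
    · have := pos v c; rw [abs_of_nonneg c]; linarith only [r10, hv, this]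
    · have := neg v c; rw [abs_of_nonpos c]; linarith only [r10, hv, this]
  obtain c2 : |Y v 0| ≤ r1 := by
    rcases le_total |Y v 0| (r / 2) with c | c
    · rwa [cl_eq c] at c1
    · rw [cl_abs c0 c] at c1; linarith only [r0, r1r, c1]
  obtain c3 : ∀ j, s - 1 ≤ j → j ≤ J → |Y v j| ≤ r / 2 := fun j j1 j2 => by
    have m := big ct j1 j2
    obtain a : μ j ^ 16 ≤ Λ ^ 16 := pow_le_pow_left₀ (by linarith only [δ0, δ2, m]) (ct.top j j1 j2) 16
    obtain b := mul_le_mul (show 2 * r1 + |Y v 0| ≤ 3 * r1 by linarith only [c2]) a (by positivity) (by linarith only [r10])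
    obtain c : 0 ≤ r1 * Λ ^ 16 := by (clear * - r10 Λ1; positivity)
    linarith only [r0, rΛ, b, bY v j j1 j2]
  obtain c4 : ∀ j, s ≤ j → j ≤ J → pt R τ (r / 2) j (Y v j) (Y v (j - 1))
      = (τ, R.X j + Y v j, R.X (j - 1) + Y v (j - 1)) := fun j j1 j2 => by
    rw [pt, cl_eq (c3 j (by omega) j2), cl_eq (c3 (j - 1) (by omega) (by omega))]
  have z := Zne v
  obtain zJ : Z v J = 0 := by
    obtain a : Ψ v = 0 := (mul_eq_zero.1 hv).resolve_left (by rintro rfl; simp at σ1)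
    exact (div_eq_zero_iff.1 a).resolve_right (mul_ne_zero z (fne v))
  refine ⟨fun j => R.X j + Y v j, fun j => Z v j / Z v 0, ⟨fun j j1 j2 => ?_, fun j j1 j2 => ?_, ?_, ?_,
    div_self z, by simp [zJ]⟩, fun j j1 j2 => by simpa using c3 j j1 j2⟩
  · simp only at j1 j2 ⊢
    rw [Yr v j j1, c4 j j1 j2.le, cl_eq (c3 j (by omega) j2.le),
      cl_eq (c3 (j - 1) (by omega) (by omega))]
    ring
  · simp only at j1 j2 ⊢
    rw [Zr v j j1, ← c4 j j1 j2.le]
    simp only [hA, hB]; ring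
  · simp only [add_sub_cancel_left, Y0, Y1]; ring
  · simp only [Z0, Z1]; ring

end
end Pool.Agent.MP_9cbfe4_an.SS

end

/-! ### Part DIFF -/

section

/-! Section S, row DIFF: differences of jets. -/

namespace Pool.Agent.MP_9cbfe4_an.SS

open Finset Filter Topology
open scoped ContDiff

lemma diff_Pb (S : Sq) {i j k : ℤ} (h1 : i ≤ j) (h2 : j ≤ k) : S.Pb i j * S.Pb j k = S.Pb i k := by
  rw [Sq.Pb, Sq.Pb, Sq.Pb, ← prod_union (Ioc_disjoint_Ioc_of_le le_rfl), Ioc_union_Ioc_eq_Ioc h1 h2]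

lemma diff_Pb1 (S : Sq) (j : ℤ) : S.Pb (j - 1) j = S.b j := by
  rw [Sq.Pb, show Ioc (j - 1) j = {j} by ext; simp only [mem_Ioc, mem_singleton]; omega,
    prod_singleton]

lemma diff_dj (n : ℕ) {A' A u' u φ : ℝ → ℝ} {τ : ℝ} (hu : ContDiffAt ℝ ∞ u' τ)
    (hφ : ContDiffAt ℝ ∞ φ τ) (h' : ∀ᶠ σ in 𝓝 τ, u' σ = A' σ + φ σ) (h : ∀ᶠ σ in 𝓝 τ, u σ = A σ) :
    dj n u' u τ = dj n A' A τ + iteratedDeriv n φ τ := by
  obtain e : A' =ᶠ[𝓝 τ] u' - φ := h'.mono fun σ hσ => by simp [hσ]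
  rw [dj, dj, e.iteratedDeriv_eq n, EventuallyEq.iteratedDeriv_eq n h,
    iteratedDeriv_sub (hu.of_le (by exact_mod_cast le_top)) (hφ.of_le (by exact_mod_cast le_top))]
  ring

section
variable {g : R3 → ℝ} {N E : ℕ} {P : RD} (h : Ref g N E P) {j : ℤ}
include h

lemma diff_mu (h1 : P.s - 1 ≤ j) (h2 : j ≤ P.J) : 1000 ≤ P.μ j :=
  (le_total j 0).elim (h.ct.hc.big j h1) fun h0 => h.ct.fc.big j h0 h2

lemma diff_L : 1000 ≤ P.Λ := by
  have := h.ct.hc.s0
  have := h.ct.fc.J1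
  exact (diff_mu h (j := 0) (by omega) (by omega)).trans (h.ct.top 0 (by omega) (by omega))

lemma diff_D (h2 : j ≤ P.J) : 0 < P.D j ∧ P.D j ≤ 1 := by
  rcases le_total j 0 with h0 | h0
  · simp [h.ct.Dneg j h0]
  · refine ⟨h.ct.fc.Dpos j h0 h2, ?_⟩
    have := h.ct.fc.dec 0 (Nat.zero_le _) 0 j le_rfl h0 h2
    simp only [pow_zero, one_mul, h.ct.fc.D0] at this
    exact this.trans (pow_le_one₀ (by norm_num) (by norm_num))

lemma diff_b {e : ℕ} (he : e ≤ E) (h1 : P.s ≤ j) (h2 : j ≤ P.J) :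
    P.R.b j * (P.μ (j - 1) ^ e * P.D (j - 1)) ≤ P.μ j ^ (e + 1) * P.D j := by
  rcases le_or_gt j 0 with h0 | h0
  · rw [h.ct.Dneg j h0, h.ct.Dneg (j - 1) (by omega), mul_one, mul_one]
    exact h.ct.hc.bmu e he j h1 h0
  · obtain a := h.ct.fc.PbD (j - 1) j (by omega) (by omega) h2
    rw [diff_Pb1] at a
    obtain m0 : 0 ≤ P.μ (j - 1) := by linarith only [h1, h2, diff_mu h (j := j - 1) (by omega) (by omega)]
    obtain m := pow_le_pow_left₀ m0 (h.ct.fc.mono (j - 1) j (by omega) (by omega) h2) e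
    calc _ = P.μ (j - 1) ^ e * (P.R.b j * P.D (j - 1)) := by ring
      _ ≤ P.μ j ^ e * (P.μ j * P.D j) := mul_le_mul m a
        (mul_pos (h.lm j h1 h2).b0 (diff_D h (by omega)).1).le ((pow_nonneg m0 e).trans m)
      _ = _ := by ring

lemma diff_bm (h1 : P.s ≤ j) (h2 : j ≤ P.J) : P.R.b j ≤ P.μ j := by
  rcases le_or_gt j 0 with h0 | h0
  · simpa using h.ct.hc.bmu 0 (Nat.zero_le _) j h1 h0
  · exact h.ct.fc.ble j h0 h2

lemma diff_k0 (h1 : P.s - 1 ≤ j) : 0 ≤ P.κ j := by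
  have := h.ct.hc.s0
  refine div_nonneg (mul_nonneg (prod_nonneg fun l hl => ?_)
    (h.ct.hc.wpos _ le_rfl (by omega)).le) (h.ct.hc.wpos _ (by omega) (by omega)).le
  rw [mem_Ioc] at hl
  exact (h.ct.hc.bpos l (by omega) (by omega)).le

lemma diff_kb (h1 : P.s ≤ j) (h2 : j ≤ P.J) : P.R.b j * P.κ (j - 1) ≤ P.μ j * P.κ j := by
  rcases le_or_gt j 0 with h0 | h0
  · obtain a := h.ct.hc.fwd (j - 1) (by omega) (by omega)
    rw [sub_add_cancel] at a
    obtain w1 := h.ct.hc.wpos j (by omega) h0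
    obtain w2 := h.ct.hc.wpos (j - 1) (by omega) (by omega)
    obtain e : P.R.b j * P.κ (j - 1) = P.w j / P.w (j - 1) * P.κ j := by
      simp only [RD.κ, Sq.kp, min_eq_left h0, min_eq_left (show j - 1 ≤ 0 by omega)]
      rw [← diff_Pb P.R (show P.s - 1 ≤ j - 1 by omega) (show j - 1 ≤ j by omega), diff_Pb1]
      field_simp
    rw [e]
    exact mul_le_mul_of_nonneg_right ((div_le_iff₀ w2).2 a) (diff_k0 h (by omega))
  · obtain e : P.κ (j - 1) = P.κ j := by
      simp only [RD.κ, min_eq_right h0.le, min_eq_right (show 0 ≤ j - 1 by omega)]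
    rw [e]
    exact mul_le_mul_of_nonneg_right (diff_bm h h1 h2) (diff_k0 h (by omega))

lemma diff_kz (h1 : P.s - 1 ≤ j) : P.κ 0 ≤ P.Λ * P.κ j := by
  have := h.ct.hc.s0
  have := h.ct.fc.J1
  have hL := diff_L h
  rcases le_total j 0 with h0 | h0
  · have a := h.ct.hc.kap 0 (Nat.zero_le _) j 0 h1 h0 le_rfl
    have w1 := h.ct.hc.wpos j h1 h0
    obtain e : P.κ 0 = P.R.kp P.w j 0 * P.κ j := by
      simp only [RD.κ, Sq.kp, min_eq_left h0, min_self]
      rw [← diff_Pb P.R h1 h0]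
      field_simp
    rw [e]
    refine mul_le_mul_of_nonneg_right ?_ (diff_k0 h h1)
    obtain m := diff_mu h (j := 0) (by omega) (by omega)
    obtain t := h.ct.top 0 (by omega) (by omega)
    obtain this : (3 / 4 : ℝ) ^ (0 - j).toNat ≤ 1 := pow_le_one₀ (by norm_num) (by norm_num)
    simp only [pow_zero, mul_one, zero_add, pow_one] at a
    nlinarith only [t, this, a, m]
  · obtain e : P.κ j = P.κ 0 := by simp only [RD.κ, min_eq_right h0, min_self]
    rw [e]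
    (rename_i zq0; nlinarith only [zq0, hL, diff_k0 h (j := 0) (by omega)])

end

lemma diff_jb {g : R3 → ℝ} {N E e i : ℕ} {P : RD} (h : Ref g N E P) (he : e ≤ E) {G : Fm} {τ : ℝ}
    (hG : G.Jb N e P.μ P.D (P.s - 1) P.J τ) {j : ℤ} (h1 : P.s ≤ j) (h2 : j ≤ P.J) (hi : i ≤ N) :
    (1 ≤ i → |iteratedDeriv i (G.X j) τ| ≤ P.Λ ^ (e + 1) ∧
      P.R.b j * |iteratedDeriv i (G.X (j - 1)) τ| ≤ P.Λ ^ (e + 1)) ∧
    |iteratedDeriv i (G.η j) τ| ≤ P.μ j ^ (e + 1) * P.D j ∧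
    P.R.b j * |iteratedDeriv i (G.η (j - 1)) τ| ≤ P.μ j ^ (e + 1) * P.D j ∧
    P.μ j ^ (e + 1) * P.D j ≤ P.Λ ^ (e + 1) := by
  have hL := diff_L h
  obtain m : ∀ k, P.s - 1 ≤ k → k ≤ P.J → ∀ a, P.μ k ^ a ≤ P.Λ ^ a := fun k a b c =>
    pow_le_pow_left₀ (by linarith only [diff_mu h a b]) (h.ct.top k a b) c
  obtain m1 := diff_mu h (j := j) (by omega) h2
  obtain a := hG j (by omega) h2 i hi
  obtain b := hG (j - 1) (by omega) (by omega) i hi
  have b0 := (h.lm j h1 h2).b0.le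
  have hD := diff_D h h2
  refine ⟨fun i1 => ⟨((a.1 i1).trans (m j (by omega) h2 e)).trans
    (pow_le_pow_right₀ (by linarith only [hL]) (Nat.le_succ e)), ?_⟩, a.2.trans (mul_le_mul_of_nonneg_right
    (pow_le_pow_right₀ (by linarith only [m1]) (Nat.le_succ e)) hD.1.le),
    (mul_le_mul_of_nonneg_left b.2 b0).trans (diff_b h he h1 h2),
    (mul_le_of_le_one_right (by positivity) hD.2).trans (m j (by omega) h2 _)⟩
  rw [pow_succ']
  exact mul_le_mul ((diff_bm h h1 h2).trans (h.ct.top j (by omega) h2))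
    ((b.1 i1).trans (m _ (by omega) (by omega) e)) (abs_nonneg _) (by linarith only [hL])

lemma diff_fin {Λ L W K K0 x0 u m : ℝ} {k a b : ℕ} (hΛ : 1000 ≤ Λ) (hL : 1000 ≤ L) (hW : 0 ≤ W)
    (hK : 0 ≤ K) (h0 : 0 ≤ K0) (hz : K0 ≤ Λ * K) (hx : 0 ≤ x0)
    (h1 : L * x0 ≤ 5 / 2 * (W * K0) + Λ ^ (k + 30) * (W * K0)) (hm : m ≤ Λ ^ a) (m0 : 0 ≤ m)
    (h2 : u ≤ x0 * m + Λ ^ b * (W * K)) (ha : a ≤ k + 30) (hb : b ≤ k + 40) :
    u ≤ W * Λ ^ (2 * k + 62) * K := by
  obtain p1 : 1 ≤ Λ ^ (k + 30) := one_le_pow₀ (by linarith only [hΛ])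
  have wk := mul_nonneg hW h0
  obtain e1 : x0 ≤ Λ ^ (k + 30) * (W * K0) := by nlinarith only [h1, hL, hx, mul_le_mul_of_nonneg_right p1 wk]
  obtain e2 : x0 * m ≤ Λ ^ (2 * k + 61) * (W * K) :=
    calc _ ≤ Λ ^ (k + 30) * (W * (Λ * K)) * Λ ^ (k + 30) := by
          refine mul_le_mul (e1.trans ?_) (hm.trans (pow_le_pow_right₀ (by linarith only [hΛ]) ha)) m0
            (by positivity)
          gcongr
      _ = _ := by ring
  obtain e3 : Λ ^ b * (W * K) ≤ Λ ^ (2 * k + 61) * (W * K) :=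
    mul_le_mul_of_nonneg_right (pow_le_pow_right₀ (by linarith only [hΛ]) (by omega)) (by positivity)
  obtain e4 : 0 ≤ Λ ^ (2 * k + 61) * (W * K) := by (clear * - hΛ hW hK; positivity)
  calc u ≤ 2 * (Λ ^ (2 * k + 61) * (W * K)) := by linarith only [h2, e2, e3]
    _ ≤ Λ * (Λ ^ (2 * k + 61) * (W * K)) := mul_le_mul_of_nonneg_right (by linarith only [hΛ]) e4
    _ = _ := by ring

lemma diff_step (hD : STD_s) (hS : LS_s) {g : R3 → ℝ} {N E e c n : ℕ} {P : RD} (h : Ref g N E P)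
    {τ β γ : ℝ} {F F' : Fm} {f f' : ℝ → ℝ} (T : Two g N e P τ F F' (P.s - 1))
    (hf : ContDiffAt ℝ ∞ f τ) (hf' : ContDiffAt ℝ ∞ f' τ)
    (hs : ∀ᶠ σ in 𝓝 τ, F'.X (P.s + 1) σ = g (σ, F'.X P.s σ, F'.X (P.s - 1) σ) + f σ ∧
      F'.η (P.s + 1) σ = ga g (σ, F'.X P.s σ, F'.X (P.s - 1) σ) * F'.η P.s σ
        + gb g (σ, F'.X P.s σ, F'.X (P.s - 1) σ) * F'.η (P.s - 1) σ + f' σ)
    (hβ : 0 ≤ β) (hγ : 0 ≤ γ) (n1 : 1 ≤ n) (nN : n ≤ N) (hE : e + 53 ≤ E)
    (b1 : |iteratedDeriv n f τ| ≤ β * P.κ P.s) (b2 : |iteratedDeriv n f' τ| ≤ β * P.κ P.s)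
    (b3 : |P.ξ P.s * dj n (F'.X (P.s - 1)) (F.X (P.s - 1)) τ
      - P.ξ (P.s - 1) * dj n (F'.X P.s) (F.X P.s) τ| ≤ β * P.w (P.s - 1))
    (b4 : |P.ξ P.s * dj n (F'.η (P.s - 1)) (F.η (P.s - 1)) τ
      - P.ξ (P.s - 1) * dj n (F'.η P.s) (F.η P.s) τ| ≤ β * P.w (P.s - 1))
    (b5 : |dj n (F'.η P.J) (F.η P.J) τ| ≤ γ)
    (ih : ∀ i < n, ∀ j, P.s - 1 ≤ j → j ≤ P.J →
      |dj i (F'.X j) (F.X j) τ| ≤ P.Λ ^ c * (β * P.κ j + γ) ∧
      |dj i (F'.η j) (F.η j) τ| ≤ P.Λ ^ c * (β * P.κ j + γ)) (j : ℤ) (h1 : P.s - 1 ≤ j)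
    (h2 : j ≤ P.J) :
    |dj n (F'.X j) (F.X j) τ| ≤ P.Λ ^ (c + (e + 1) * (n + 2) + 2 * e + 72) * (β * P.κ j + γ) ∧
    |dj n (F'.η j) (F.η j) τ| ≤ P.Λ ^ (c + (e + 1) * (n + 2) + 2 * e + 72) * (β * P.κ j + γ) := by
  have s0 := h.ct.hc.s0
  have J1 := h.ct.fc.J1
  have hL := diff_L h
  obtain le : ((n : ℕ∞) : WithTop ℕ∞) ≤ ∞ := by exact_mod_cast le_top
  obtain C1 : 1 ≤ P.Λ ^ (e + 1) := one_le_pow₀ (by linarith only [hL])
  have K0 : ∀ j, P.s - 1 ≤ j → 0 ≤ β * P.κ j + γ := fun j a =>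
    add_nonneg (mul_nonneg hβ (diff_k0 h a)) hγ
  obtain z1 : ∀ j, P.s ≤ j → j ≤ P.J → ∀ u v : ℝ, u ≤ P.Λ ^ c * (β * P.κ j + γ) →
      v ≤ P.Λ ^ c * (β * P.κ (j - 1) + γ) →
      u ≤ P.Λ ^ (c + 1) * (β * P.κ j + γ) ∧ P.R.b j * v ≤ P.Λ ^ (c + 1) * (β * P.κ j + γ) := by
    intro j a b u v hu hv
    refine ⟨hu.trans (mul_le_mul_of_nonneg_right (pow_le_pow_right₀ (by linarith only [hL]) (Nat.le_succ c))
      (K0 j (by omega))), (mul_le_mul_of_nonneg_left hv (h.lm j a b).b0.le).trans ?_⟩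
    obtain t := h.ct.top j (by omega) b
    obtain e1 := mul_le_mul_of_nonneg_left ((diff_kb h a b).trans
      (mul_le_mul_of_nonneg_right t (diff_k0 h (by omega)))) hβ
    have e2 := mul_le_mul_of_nonneg_right ((diff_bm h a b).trans t) hγ
    calc _ = P.Λ ^ c * (β * (P.R.b j * P.κ (j - 1)) + P.R.b j * γ) := by ring
      _ ≤ P.Λ ^ c * (β * (P.Λ * P.κ j) + P.Λ * γ) := by (clear * - e1 e2 hL; gcongr)
      _ = _ := by ring
  have A := fun (j : ℤ) (a : P.s ≤ j) (b : j ≤ P.J) (d : ℝ) (hd : d ≤ P.Λ ^ (e + 1)) =>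
    hD g _ N _ _ _ _ _ (h.lm j a b) n id (F.X j) (F.X (j - 1)) (F.η j) (F.η (j - 1)) (F'.X j)
      (F'.X (j - 1)) (F'.η j) (F'.η (j - 1)) τ _ d (P.Λ ^ (c + 1) * (β * P.κ j + γ)) n1 nN
      ⟨T.ht, T.tube j (by omega) b, T.tube (j - 1) (by omega) (by omega)⟩
      ⟨T.ht, T.tube' j (by omega) b, T.tube' (j - 1) (by omega) (by omega)⟩ contDiffAt_id
      ((T.sm j (by omega) b).1.of_le le) ((T.sm (j - 1) (by omega) (by omega)).1.of_le le)
      ((T.sm j (by omega) b).2.of_le le) ((T.sm (j - 1) (by omega) (by omega)).2.of_le le)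
      ((T.sm' j (by omega) b).1.of_le le) ((T.sm' (j - 1) (by omega) (by omega)).1.of_le le)
      ((T.sm' j (by omega) b).2.of_le le) ((T.sm' (j - 1) (by omega) (by omega)).2.of_le le)
      C1 hd (mul_nonneg (by positivity) (K0 j (by omega)))
      (fun i i1 i2 => ⟨by
          refine (mul_le_one₀ (h.lm j a b).dl1 (abs_nonneg _) ?_).trans C1
          rw [iteratedDeriv_id, if_neg (by omega)]
          split_ifs <;> simp,
        ((diff_jb h (by omega) T.jb a b (i2.trans nN)).1 i1).1,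
        ((diff_jb h (by omega) T.jb a b (i2.trans nN)).1 i1).2,
        (diff_jb h (by omega) T.jb' a b (i2.trans nN)).1 i1⟩)
      fun i hi => z1 j a b _ _ (ih i hi j (by omega) b).1 (ih i hi (j - 1) (by omega) (by omega)).1
  obtain ze := fun (j : ℤ) (a : P.s ≤ j) (b : j ≤ P.J) i (hi : i < n) =>
    z1 j a b _ _ (ih i hi j (by omega) b).2 (ih i hi (j - 1) (by omega) (by omega)).2
  obtain jb := fun (j : ℤ) (a : P.s ≤ j) (b : j ≤ P.J) i (hi : i ≤ n) =>
    (diff_jb h (show e ≤ E by omega) T.jb' a b (hi.trans nN)).2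
  obtain eqs : ∀ j, P.s ≤ j → j < P.J → ∃ u v : ℝ, |u| ≤ β * P.κ j ∧ |v| ≤ β * P.κ j ∧
      dj n (F'.X (j + 1)) (F.X (j + 1)) τ = dj n (fun σ => g (cv id (F'.X j) (F'.X (j - 1)) σ))
        (fun σ => g (cv id (F.X j) (F.X (j - 1)) σ)) τ + u ∧
      dj n (F'.η (j + 1)) (F.η (j + 1)) τ =
        dj n (tg g (cv id (F'.X j) (F'.X (j - 1))) (F'.η j) (F'.η (j - 1)))
          (tg g (cv id (F.X j) (F.X (j - 1))) (F.η j) (F.η (j - 1))) τ + v := by
    intro j a b
    obtain sm := T.sm' (j + 1) (by omega) (by omega)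
    have e1 := T.eq.mono fun σ hσ => hσ.1 j a b
    have e2 := T.eq.mono fun σ hσ => hσ.2.1 j a b
    rcases a.eq_or_lt with rfl | a'
    · exact ⟨_, _, b1, b2, diff_dj n sm.1 hf (hs.mono fun σ hσ => hσ.1) e1,
        diff_dj n sm.2 hf' (hs.mono fun σ hσ => hσ.2) e2⟩
    · obtain k : |iteratedDeriv n (fun _ : ℝ => (0 : ℝ)) τ| ≤ β * P.κ j := by
        simpa using mul_nonneg hβ (diff_k0 h (by omega))
      exact ⟨_, _, k, k, diff_dj n sm.1 contDiffAt_const
        (T.eq'.mono fun σ hσ => (hσ.1 j a' b).trans (add_zero _).symm) e1, diff_dj n sm.2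
        contDiffAt_const (T.eq'.mono fun σ hσ => (hσ.2.1 j a' b).trans (add_zero _).symm) e2⟩
  obtain ⟨W, hW⟩ : ∃ W, W = P.Λ ^ (c + (e + 1) * (n + 2) + 4) := ⟨_, rfl⟩
  obtain W1 : 1 ≤ W := hW ▸ one_le_pow₀ (by linarith only [hL])
  obtain bW : ∀ j, P.s ≤ j → j ≤ P.J → ∀ m ≤ n + 2, P.μ j ^ 2 * (P.Λ ^ (e + 1)) ^ m *
      (P.Λ ^ (c + 1) * (β * P.κ j + γ)) + β * P.κ j ≤ W * (β * P.κ j + γ) := by
    intro j a b m hm
    obtain k := K0 j (by omega)
    obtain m1 := diff_mu h (j := j) (by omega) b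
    obtain t := h.ct.top j (by omega) b
    obtain e0 : 1 ≤ P.Λ ^ (c + (e + 1) * (n + 2) + 3) := one_le_pow₀ (by linarith only [hL])
    obtain e1 : P.μ j ^ 2 * (P.Λ ^ (e + 1)) ^ m * (P.Λ ^ (c + 1) * (β * P.κ j + γ)) ≤
        P.Λ ^ (c + (e + 1) * (n + 2) + 3) * (β * P.κ j + γ) :=
      calc _ ≤ P.Λ ^ 2 * (P.Λ ^ (e + 1)) ^ (n + 2) * (P.Λ ^ (c + 1) * (β * P.κ j + γ)) := by (clear * - m1 t C1 hm hL k; gcongr)
        _ = _ := by rw [← pow_mul]; ring
    have e2 := mul_le_mul_of_nonneg_right e0 k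
    obtain e3 := mul_le_mul_of_nonneg_right (show 2 ≤ P.Λ by linarith only [hL])
      (mul_nonneg (zero_le_one.trans e0) k)
    rw [hW, pow_succ P.Λ (c + (e + 1) * (n + 2) + 3)]
    linarith only [hγ, e1, e2, e3]
  obtain two : ∀ j, P.s ≤ j → j ≤ P.J → 2 * P.μ j ≤ P.μ j ^ 2 := fun j a b => by
    nlinarith only [a, diff_mu h (j := j) (by omega) b]
  obtain m0 := diff_mu h (j := 0) (by omega) (by omega)
  obtain b0 := (h.lm 0 s0 (by omega)).b0
  obtain mE : ∀ j, P.s - 1 ≤ j → j ≤ P.J → ∀ a ≤ E, P.μ j ^ a ≤ P.μ j ^ E := fun j a b _ c =>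
    pow_le_pow_right₀ (by linarith only [diff_mu h a b]) c
  obtain g0 : P.R.b 0 * P.μ (-1) ^ e ≤ P.δ := (mul_le_mul_of_nonneg_left
    (mE _ (by omega) (by omega) e (by omega)) b0.le).trans h.ct.g0
  obtain d0 : 0 ≤ P.δ := le_trans (mul_nonneg b0.le (pow_nonneg
    (by linarith only [s0, J1, diff_mu h (j := -1) (by omega) (by omega)]) e)) g0
  obtain g2 : P.μ 0 * P.δ ≤ 1 := by
    obtain this := mul_le_mul_of_nonneg_left (mE 0 (by omega) (by omega) 1 (by omega)) d0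
    linarith only [h.ct.g2, pow_one (P.μ 0) ▸ this]
  obtain d1 : P.δ ≤ 1 := by nlinarith only [g2, m0, d0]
  obtain w0 := (h.ct.hc.wpos _ le_rfl (by omega)).le
  obtain bw : β * P.w (P.s - 1) ≤ W * β * P.w (P.s - 1) := by
    nlinarith only [W1, mul_nonneg hβ w0]
  obtain ⟨r1, r2⟩ := hS P.R E 0 (e + 3) P.ξ P.w P.μ P.D (fun j => dj n (F'.X j) (F.X j) τ)
    (fun j => dj n (F'.η j) (F.η j) τ) P.s P.J P.Λ P.L P.δ 0 (W * (β * P.κ 0 + γ)) (W * β) (W * γ)
    (P.Λ ^ 2 * P.r) h.ct (by omega) le_rfl (mul_nonneg (by linarith only [W1]) (K0 0 (by omega)))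
    (by positivity) (by positivity) (mul_nonneg (by positivity) h.r0.le)
    (by
      obtain this := mul_le_mul_of_nonneg_left
        (pow_le_pow_right₀ (show 1 ≤ P.Λ by linarith only [hL]) (show 12 ≤ E by omega)) h.r0.le
      linarith only [this, h.rE, show P.Λ ^ 2 * P.r * P.Λ ^ 10 = P.r * P.Λ ^ 12 by ring])
    (fun j a b => by
      obtain ⟨u, -, hu, -, e1, -⟩ := eqs j a b
      have e2 := (A j a b.le 1 C1).1
      obtain e3 := bW j a b.le (n + 1) (by omega)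
      simp only [Sq.df, Sq.sz, e1]
      rw [show ∀ a b c d : ℝ, a + b - c - d = a - c - d + b by intros; ring]
      refine (abs_add_le _ _).trans ?_
      change _ ≤ _ + W * β * P.κ j + _ + _
      linarith only [hu, e2, e3])
    (fun j a b _ => by
      obtain ⟨-, v, -, hv, -, e1⟩ := eqs j a b
      have j0 := jb j a b.le 0 (Nat.zero_le _)
      have e2 := (A j a b.le _ j0.2.2).2.1 (fun i _ i2 => ⟨(jb j a b.le i i2).1.trans j0.2.2,
        (jb j a b.le i i2).2.1.trans j0.2.2⟩) j0.1 j0.2.1 (ze j a b.le)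
      have e3 := bW j a b.le (n + 2) le_rfl
      obtain e4 : 2 * P.μ j * (P.μ j ^ (e + 1) * P.D j) ≤ P.μ j ^ (e + 3) * P.D j := by
        have := mul_le_mul_of_nonneg_right (two j a b.le) ((abs_nonneg _).trans j0.1)
        linarith only [this, show P.μ j ^ 2 * (P.μ j ^ (e + 1) * P.D j) = P.μ j ^ (e + 3) * P.D j by ring]
      have e5 := mul_le_mul_of_nonneg_right e4 (add_nonneg (abs_nonneg (dj n (F'.X j) (F.X j) τ))
        (mul_nonneg (h.lm j a b.le).b0.le (abs_nonneg (dj n (F'.X (j - 1)) (F.X (j - 1)) τ))))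
      simp only [Sq.df, Sq.sz, e1]
      rw [show ∀ a b c d : ℝ, a + b - c - d = a - c - d + b by intros; ring]
      refine (abs_add_le _ _).trans ?_
      change _ ≤ _ + W * β * P.κ j + _ + _ + _
      linarith only [hv, e2, e3, e5])
    (by
      obtain ⟨-, v, -, hv, -, e1⟩ := eqs 0 s0 (by omega)
      obtain j0 := jb 0 s0 (by omega) 0 (Nat.zero_le _)
      obtain q := (T.jb' (-1) (by omega) (by omega) 0 (Nat.zero_le _)).2
      rw [h.ct.Dneg (-1) (by omega), mul_one] at q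
      obtain e2 := (A 0 s0 (by omega) _ (d1.trans C1)).2.2 P.L h.fold
        (fun i _ i2 => (jb 0 s0 (by omega) i i2).2.1.trans j0.2.2)
        ((mul_le_mul_of_nonneg_left q b0.le).trans g0) (fun i hi => (ze 0 s0 (by omega) i hi).2) d1
        (by linarith only [g2, h.ct.L1])
      obtain k : ∀ G : Fm, (∀ᶠ σ in 𝓝 τ, G.η 0 σ = 1) →
          iteratedDeriv n (tg g (cv id (G.X 0) (G.X (0 - 1))) (G.η 0) (G.η (0 - 1))) τ =
          iteratedDeriv n (tg g (cv id (G.X 0) (G.X (0 - 1))) (fun _ => 1) (G.η (0 - 1))) τ :=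
        fun G hG => EventuallyEq.iteratedDeriv_eq n (hG.mono fun σ hσ => by simp only [tg, hσ])
      rw [dj.eq_1 n (tg _ _ _ _), k F (T.eq.mono fun σ hσ => hσ.2.2),
        k F' (T.eq'.mono fun σ hσ => hσ.2.2), ← dj.eq_1, ← sub_eq_iff_eq_add] at e1
      rw [← e1] at e2
      obtain e3 := bW 0 s0 (by omega) (n + 2) le_rfl
      obtain e4 := mul_le_mul_of_nonneg_right ((two 0 s0 (by omega)).trans (pow_le_pow_right₀
        (by linarith only [m0]) (show 2 ≤ e + 3 by omega))) (mul_nonneg b0.le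
        (abs_nonneg (dj n (F'.X (-1)) (F.X (-1)) τ)))
      have e5 := abs_sub (dj n (F'.η 1) (F.η 1) τ) v
      simp only [zero_add, zero_sub] at e2
      linarith only [hv, e3, e4, e5, e2])
    (b3.trans bw) (b4.trans bw)
    (sub_eq_zero.2 (EventuallyEq.iteratedDeriv_eq n ((T.eq.and T.eq').mono fun σ hσ =>
      hσ.2.2.2.trans hσ.1.2.2.symm)))
    (b5.trans (le_mul_of_one_le_left hγ W1))
  have r3 := r2 j h1 h2
  have m1 := diff_mu h h1 h2
  obtain mp := fun a => pow_le_pow_left₀ (show 0 ≤ P.μ j by linarith only [m1]) (h.ct.top j h1 h2) a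
  obtain hz : β * P.κ 0 + γ ≤ P.Λ * (β * P.κ j + γ) := by
    nlinarith only [hγ, hL, mul_le_mul_of_nonneg_left (diff_kz h h1) hβ]
  obtain hk : ∀ i, W * β * P.R.kp P.w (P.s - 1) (min i 0) + W * γ = W * (β * P.κ i + γ) :=
    fun i => by rw [RD.κ]; ring
  have hk0 := hk 0
  rw [min_self] at hk0
  rw [mul_zero, add_zero, hk0] at r1
  rw [hk, zero_add, mul_assoc _ _ (P.D j)] at r3
  rw [show P.Λ ^ (c + (e + 1) * (n + 2) + 2 * e + 72) = W * P.Λ ^ (2 * (e + 3) + 62) by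
    rw [hW]; ring]
  exact ⟨diff_fin hL h.ct.L1 (by linarith only [W1]) (K0 j h1) (K0 0 (by omega)) hz (abs_nonneg _) r1 (mp _)
    (by positivity) r3.1 (by omega) (by omega), diff_fin hL h.ct.L1 (by linarith only [W1]) (K0 j h1)
    (K0 0 (by omega)) hz (abs_nonneg _) r1 ((mul_le_of_le_one_right (by positivity)
      (diff_D h h2).2).trans (mp _)) (mul_nonneg (by positivity) (diff_D h h2).1.le) r3.2 (by omega)
    (by omega)⟩

theorem diff (h0 : D0_s) (hD : STD_s) (hS : LS_s) : DIFF_s := by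
  intro N e
  suffices H : ∀ m : ℕ, ∃ e' : ℕ, e + 60 ≤ e' ∧ ∀ g E P τ (F F' : Fm) (f f' : ℝ → ℝ) (β γ : ℝ),
      Ref g N E P → e + 60 ≤ E → Two g N e P τ F F' (P.s - 1) → ContDiffAt ℝ ∞ f τ →
      ContDiffAt ℝ ∞ f' τ →
      (∀ᶠ σ in 𝓝 τ, F'.X (P.s + 1) σ = g (σ, F'.X P.s σ, F'.X (P.s - 1) σ) + f σ ∧
        F'.η (P.s + 1) σ = ga g (σ, F'.X P.s σ, F'.X (P.s - 1) σ) * F'.η P.s σ
          + gb g (σ, F'.X P.s σ, F'.X (P.s - 1) σ) * F'.η (P.s - 1) σ + f' σ) → 0 ≤ β → 0 ≤ γ →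
      (∀ n ≤ N, |iteratedDeriv n f τ| ≤ β * P.κ P.s ∧ |iteratedDeriv n f' τ| ≤ β * P.κ P.s ∧
        |P.ξ P.s * dj n (F'.X (P.s - 1)) (F.X (P.s - 1)) τ
          - P.ξ (P.s - 1) * dj n (F'.X P.s) (F.X P.s) τ| ≤ β * P.w (P.s - 1) ∧
        |P.ξ P.s * dj n (F'.η (P.s - 1)) (F.η (P.s - 1)) τ
          - P.ξ (P.s - 1) * dj n (F'.η P.s) (F.η P.s) τ| ≤ β * P.w (P.s - 1) ∧
        |dj n (F'.η P.J) (F.η P.J) τ| ≤ γ) → ∀ n ≤ m, n ≤ N → ∀ j, P.s - 1 ≤ j → j ≤ P.J →
        |dj n (F'.X j) (F.X j) τ| ≤ P.Λ ^ e' * (β * P.κ j + γ) ∧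
        |dj n (F'.η j) (F.η j) τ| ≤ P.Λ ^ e' * (β * P.κ j + γ) by
    obtain ⟨e', he, H⟩ := H N
    exact ⟨e', fun g E P τ F F' f f' β γ h hE T hf hf' hs hβ hγ hb n hn =>
      H g E P τ F F' f f' β γ h (he.trans hE) T hf hf' hs hβ hγ hb n hn hn⟩
  intro m
  induction m with
  | zero =>
    refine ⟨2 * e + 70, by omega, fun g E P τ F F' f f' β γ h hE T _ _ hs hβ hγ hb n hn _ => ?_⟩
    obtain rfl := Nat.le_zero.1 hn
    obtain ⟨a1, a2, a3⟩ := T.eq.self_of_nhds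
    obtain ⟨a4, a5, a6⟩ := T.eq'.self_of_nhds
    obtain ⟨b1, b2, b3, b4, b5⟩ := hb 0 (Nat.zero_le _)
    exact h0 g N E e P τ (F.x τ) (F.e τ) (F'.x τ) (F'.e τ) (f τ) (f' τ) β γ h hE T.ht a1 a2 a4 a5
      hs.self_of_nhds.1 hs.self_of_nhds.2 a3 a6 T.tube T.tube'
      (fun j a b => (T.jb' j a b 0 (Nat.zero_le _)).2) hβ hγ b1 b2 b3 b4 b5
  | succ m ih =>
    obtain ⟨c, hc, ih⟩ := ih
    refine ⟨c + (e + 1) * (m + 1 + 2) + 2 * e + 72, by omega,
      fun g E P τ F F' f f' β γ h hE T hf hf' hs hβ hγ hb n hn nN j h1 h2 => ?_⟩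
    replace ih := ih g E P τ F F' f f' β γ h hE T hf hf' hs hβ hγ hb
    rcases hn.eq_or_lt with rfl | hn
    · obtain ⟨b1, b2, b3, b4, b5⟩ := hb _ nN
      exact diff_step hD hS h T hf hf' hs hβ hγ (by omega) nN (by omega) b1 b2 b3 b4 b5
        (fun i hi => ih i (by omega) (by omega)) j h1 h2
    · obtain this := mul_le_mul_of_nonneg_right (pow_le_pow_right₀ (show 1 ≤ P.Λ by linarith only [diff_L h])
        (show c ≤ c + (e + 1) * (m + 1 + 2) + 2 * e + 72 by omega))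
        (add_nonneg (mul_nonneg hβ (diff_k0 h h1)) hγ)
      exact (ih n (by omega) nN j h1 h2).imp (·.trans this) (·.trans this)

end Pool.Agent.MP_9cbfe4_an.SS

end

/-! ### Part DCL -/

section

/-! Row DCL: two exact families that are close on the whole window. -/

namespace Pool.Agent.MP_9cbfe4_an.SS

open Finset Filter Topology
open scoped ContDiff

namespace DC
variable {g : R3 → ℝ} {N E e : ℕ} {P : RD} {τ : ℝ}

lemma big (h : Ref g N E P) : 1000 ≤ P.Λ :=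
  (h.ct.hc.big 0 (by have := h.ct.hc.s0; omega) le_rfl).trans
    (h.ct.top 0 (by have := h.ct.hc.s0; omega) (by have := h.ct.fc.J1; omega))

lemma r1 (h : Ref g N E P) : P.r ≤ 1 := by
  obtain h1 : 1 ≤ P.Λ ^ E := one_le_pow₀ (by linarith only [big h])
  nlinarith only [h1, h.rE, h.r0]

lemma kp0 (h : Ref g N E P) {i : ℤ} (hi : P.s - 1 ≤ i) {j : ℤ} (hij : P.s - 1 ≤ j) (hi0 : i ≤ 0)
    (hj : j ≤ 0) : 0 ≤ P.R.kp P.w i j := by
  have h1 := h.ct.hc.wpos i hi hi0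
  have h2 := h.ct.hc.wpos j hij hj
  obtain h3 : 0 ≤ P.R.Pb i j := Finset.prod_nonneg fun l hl => by
    have := Finset.mem_Ioc.1 hl
    exact (h.ct.hc.bpos l (by omega) (by omega)).le
  unfold Sq.kp; (clear * - h3 h1 h2; positivity)

lemma muE (h : Ref g N E P) {j : ℤ} (h1 : P.s - 1 ≤ j) (h2 : j ≤ 0) (e : ℕ) :
    P.μ j ^ e ≤ P.Λ ^ e :=
  pow_le_pow_left₀ (by linarith only [h.ct.hc.big j h1 h2])
    (h.ct.top j h1 (by have := h.ct.fc.J1; omega)) e

/-- jets in the history part of the window -/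
lemma jets (h : Ref g N E P) {F : Fm} {i j : ℤ} (hb : F.Jb N e P.μ P.D i P.J τ) (hi : i ≤ j)
    (h1 : P.s - 1 ≤ j) (h2 : j ≤ 0) {n : ℕ} (hn : n ≤ N) :
    (1 ≤ n → |iteratedDeriv n (F.X j) τ| ≤ P.Λ ^ e) ∧ |iteratedDeriv n (F.η j) τ| ≤ P.Λ ^ e := by
  obtain ⟨a, b⟩ := hb j hi (by have := h.ct.fc.J1; omega) n hn
  rw [h.ct.Dneg j h2, mul_one] at b
  exact ⟨fun hn => (a hn).trans (muE h h1 h2 e), b.trans (muE h h1 h2 e)⟩

lemma djs (h : Ref g N E P) {F F' : Fm} {i j : ℤ} (T : Two g N e P τ F F' i) (hi : i ≤ j)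
    (h1 : P.s - 1 ≤ j) (h2 : j ≤ 0) {n : ℕ} (hn : n ≤ N) :
    |dj n (F'.X j) (F.X j) τ| ≤ 2 * P.Λ ^ e ∧ |dj n (F'.η j) (F.η j) τ| ≤ 2 * P.Λ ^ e := by
  obtain ⟨a, b⟩ := jets h T.jb h1 h1 h2 hn
  obtain ⟨a', b'⟩ := jets h T.jb' hi h1 h2 hn
  obtain hJ : j ≤ P.J := by have := h.ct.fc.J1; omega
  unfold dj
  refine ⟨?_, (abs_sub _ _).trans (by linarith only [b, b'])⟩
  rcases Nat.eq_zero_or_pos n with rfl | hn
  · have c := abs_le.1 (T.tube j h1 hJ)
    have c' := abs_le.1 (T.tube' j hi hJ)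
    obtain h1 : 1 ≤ P.Λ ^ e := one_le_pow₀ (by linarith only [big h])
    have := r1 h
    simp only [iteratedDeriv_zero]
    unfold Fm.x at c c'
    rw [abs_le]; constructor <;> linarith only [h1, this, c.1, c.2, c'.1, c'.2]
  · exact (abs_sub _ _).trans (by linarith only [a hn, a' hn])

lemma dj0 {f f' : ℝ → ℝ} (h : ∀ᶠ σ in 𝓝 τ, f' σ = f σ) (n : ℕ) : dj n f' f τ = 0 :=
  sub_eq_zero.2 (Filter.EventuallyEq.iteratedDeriv_eq n h)

lemma kap (P : RD) {j : ℤ} (hj : 0 ≤ j) : P.κ j = P.κ 0 := by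
  unfold RD.κ; rw [min_eq_right hj, min_self]
end DC

open DC in
theorem dcl (hD : DIFF_s) : DCL_s := by
  intro N e
  obtain ⟨e', he'⟩ := hD N e
  refine ⟨e' + (e + 2), fun g E P τ F F' γ h hE T heq hγ hJ => ?_⟩
  have hs := h.ct.hc.s0
  have hJ1 := h.ct.fc.J1
  have hΛ := big h
  obtain hk : ∀ j, P.s - 1 ≤ j → 0 ≤ P.κ j := fun j hj =>
    kp0 h le_rfl (le_min hj (by omega)) (by omega) (min_le_right _ _)
  have key := fun β => he' g E P τ F F' (fun _ => 0) (fun _ => 0) β γ h (by omega) T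
    contDiffAt_const contDiffAt_const (heq.mono fun σ hσ =>
      ⟨by rw [add_zero]; exact hσ.1 _ le_rfl (by omega),
        by rw [add_zero]; exact hσ.2 _ le_rfl (by omega)⟩)
  obtain h1 : 1 ≤ P.Λ ^ (e + 2) := one_le_pow₀ (by linarith only [hΛ])
  obtain h2 : 0 ≤ P.Λ ^ e' := by positivity
  obtain hz : ∀ (n : ℕ) (β : ℝ), 0 ≤ β → |iteratedDeriv n (fun _ : ℝ => (0 : ℝ)) τ| ≤ β * P.κ P.s :=
    fun n β hβ => by
      rw [iteratedDeriv_fun_const_zero, abs_zero]; exact mul_nonneg hβ (hk _ (by omega))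
  constructor
  · have hw := h.ct.hc.wpos (P.s - 1) le_rfl (by omega)
    have m1 := h.ct.hc.maj (P.s - 1) le_rfl (by omega)
    obtain m2 : |P.ξ P.s| ≤ P.Λ * P.w (P.s - 1) := by
      have a := h.ct.hc.fwd (P.s - 1) le_rfl (by omega)
      rw [sub_add_cancel] at a
      exact (h.ct.hc.maj P.s (by omega) hs).trans (a.trans
        (mul_le_mul_of_nonneg_right (h.ct.top _ (by omega) (by omega)) hw.le))
    obtain hb : ∀ A B : ℝ, |A| ≤ 2 * P.Λ ^ e → |B| ≤ 2 * P.Λ ^ e →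
        |P.ξ P.s * A - P.ξ (P.s - 1) * B| ≤ P.Λ ^ (e + 2) * P.w (P.s - 1) := fun A B hA hB => by
      obtain c : 0 ≤ P.Λ ^ e * P.w (P.s - 1) := by positivity
      have a := mul_le_mul m2 hA (abs_nonneg _) (by positivity)
      have b := mul_le_mul m1 hB (abs_nonneg _) hw.le
      obtain d : 2 * P.Λ + 2 ≤ P.Λ ^ 2 := by nlinarith only [hΛ]
      have := mul_le_mul_of_nonneg_right d c
      refine (abs_sub _ _).trans ?_
      rw [abs_mul, abs_mul, pow_add]
      linarith only [a, b, this]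
    intro n hn j hj0 hj
    have := (key _ (by linarith only [h1]) hγ (fun n hn => ⟨hz n _ (by linarith only [h1]), hz n _ (by linarith only [h1]),
      hb _ _ (djs h T le_rfl le_rfl (by omega) hn).1 (djs h T (by omega) (by omega) hs hn).1,
      hb _ _ (djs h T le_rfl le_rfl (by omega) hn).2 (djs h T (by omega) (by omega) hs hn).2,
      hJ n hn⟩) n hn j (by omega) hj).1
    rw [kap P hj0] at this
    refine this.trans ?_
    rw [pow_add _ e', mul_assoc]
    exact mul_le_mul_of_nonneg_left (by nlinarith only [hγ, h1]) h2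
  · intro h0 hev n hn j hj0 hj
    have := (key 0 le_rfl hγ (fun n hn => ⟨hz n _ le_rfl, hz n _ le_rfl,
      by rw [h0, dj0 (hev.mono fun _ h => h.1)]; simp,
      by rw [h0, dj0 (hev.mono fun _ h => h.2)]; simp, hJ n hn⟩) n hn j (by omega) hj).1
    refine this.trans ?_
    rw [pow_add _ e', mul_assoc, zero_mul, zero_add]
    exact mul_le_mul_of_nonneg_left (by nlinarith only [hγ, h1]) h2

end Pool.Agent.MP_9cbfe4_an.SS

end

/-! ### Part SEPD -/

section

/-! Row SEPD: two exact families that separate at `s - 1`. -/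

namespace Pool.Agent.MP_9cbfe4_an.SS

open Finset Filter Topology
open scoped ContDiff

namespace DC

lemma lm_mono {g : R3 → ℝ} {U : Set R3} {N : ℕ} {a b m m' dl ρ : ℝ} (h : LM g U N a b m dl ρ)
    (hm : m ≤ m') : LM g U N a b m' dl ρ :=
  { h with
    cst := h.cst.trans hm
    bd := fun k h1 h2 z hz v => (h.bd k h1 h2 z hz v).trans (mul_le_mul_of_nonneg_right hm
      (Finset.prod_nonneg fun _ _ => le_max_of_le_right (le_max_of_le_left (abs_nonneg _)))) }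

lemma leib {A p : ℝ → ℝ} {τ K d : ℝ} {n : ℕ} (hA : ContDiffAt ℝ n A τ) (hp : ContDiffAt ℝ n p τ)
    (h1 : ∀ i ≤ n, |iteratedDeriv i A τ| ≤ K) (h2 : ∀ i ≤ n, |iteratedDeriv i p τ| ≤ d) :
    |iteratedDeriv n (fun σ => A σ * p σ) τ| ≤ 2 ^ n * (K * d) := by
  have hK : 0 ≤ K := (abs_nonneg _).trans (h1 0 n.zero_le)
  obtain hs : ∑ i ∈ range (n + 1), (n.choose i : ℝ) = 2 ^ n := by exact_mod_cast Nat.sum_range_choose n
  rw [iteratedDeriv_fun_mul hA hp, ← hs, Finset.sum_mul]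
  refine (Finset.abs_sum_le_sum_abs _ _).trans (Finset.sum_le_sum fun i hi => ?_)
  have hi := Finset.mem_range.1 hi
  rw [abs_mul, abs_mul, Nat.abs_cast, mul_assoc]
  exact mul_le_mul_of_nonneg_left
    (mul_le_mul (h1 i (by omega)) (h2 _ (by omega)) (abs_nonneg _) hK) (by positivity)

/-- `F'` with the index `i` taken from `F` -/
noncomputable def sw (F F' : Fm) (i : ℤ) : Fm :=
  ⟨fun j => if j = i then F.X j else F'.X j, fun j => if j = i then F.η j else F'.η j⟩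
lemma swX (F F' : Fm) {i j : ℤ} (h : j ≠ i) : (sw F F' i).X j = F'.X j := if_neg h
lemma swE (F F' : Fm) {i j : ℤ} (h : j ≠ i) : (sw F F' i).η j = F'.η j := if_neg h
lemma swX0 (F F' : Fm) (i : ℤ) : (sw F F' i).X i = F.X i := if_pos rfl
lemma swE0 (F F' : Fm) (i : ℤ) : (sw F F' i).η i = F.η i := if_pos rfl

lemma two_sw {g : R3 → ℝ} {N e : ℕ} {P : RD} {τ : ℝ} {F F' : Fm} (hs : P.s ≤ 0)
    (T : Two g N e P τ F F' P.s) : Two g N e P τ F (sw F F' (P.s - 1)) (P.s - 1) :=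
  { T with
    sm' := fun j h1 h2 => by
      rcases h1.eq_or_lt with rfl | h
      · rw [swX0, swE0]; exact T.sm _ le_rfl h2
      · rw [swX _ _ h.ne', swE _ _ h.ne']; exact T.sm' j h1 h2
    eq' := T.eq'.mono fun σ hσ => by
      refine ⟨fun j h1 h2 => ?_, fun j h1 h2 => ?_, ?_⟩
      · have := hσ.1 j h1 h2
        simp only [Fm.x] at this ⊢
        rwa [swX _ _ (by omega), swX _ _ (by omega), swX _ _ (by omega)]
      · have := hσ.2.1 j h1 h2
        simp only [Fm.x, Fm.e] at this ⊢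
        rwa [swX _ _ (by omega), swX _ _ (by omega), swE _ _ (by omega), swE _ _ (by omega),
          swE _ _ (by omega)]
      · rw [swE _ _ (by omega)]; exact hσ.2.2
    tube' := fun j h1 h2 => by
      rcases h1.eq_or_lt with rfl | h
      · unfold Fm.x; rw [swX0]; exact T.tube _ le_rfl h2
      · unfold Fm.x; rw [swX _ _ h.ne']; exact T.tube' j (by omega) h2
    jb' := fun j h1 h2 => by
      rcases h1.eq_or_lt with rfl | h
      · rw [swX0, swE0]; exact T.jb _ le_rfl h2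
      · rw [swX _ _ h.ne', swE _ _ h.ne']; exact T.jb' j (by omega) h2 }
end DC

open DC in
theorem sepd (hG : MG_s) (hS : STS_s) (hD : DIFF_s) : SEPD_s := by
  intro N e
  obtain ⟨e', he'⟩ := hD N e
  refine ⟨e' + (N + 1 + (2 + (e + 1) * (2 * N + 2)) + (e + 1)),
    fun g E P τ F F' U' a' b' m ρ' h hE T heq hL hm hb' hU' hV hj' => ?_⟩
  have hs := h.ct.hc.s0
  have hJ1 := h.ct.fc.J1
  have hΛ := big h
  obtain hΛ1 : 1 ≤ P.Λ := by linarith only [hΛ]
  set x := F'.X P.s with hx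
  set y := F.X (P.s - 1) with hy
  set y' := F'.X (P.s - 1) with hy'
  obtain hL0 := lm_mono (h.lm P.s le_rfl (by omega)) (h.ct.top _ (by omega) (by omega))
  have hL1 := lm_mono hL hm
  obtain hU : cv (fun σ => σ) x y τ ∈ UB P.R P.t0 P.r P.s :=
    ⟨T.ht, T.tube' _ le_rfl (by omega), T.tube _ le_rfl (by omega)⟩
  have hU1 : cv (fun σ => σ) x y' τ ∈ U' := hU'
  have hb0 := hL0.b0
  have hb1 := hL.b0
  obtain hbΛ : P.R.b P.s ≤ P.Λ := by
    have := h.ct.hc.bmu 0 E.zero_le P.s le_rfl hs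
    rw [pow_zero, mul_one, zero_add, pow_one] at this
    exact this.trans (h.ct.top _ (by omega) (by omega))
  obtain ⟨sx, sp⟩ := T.sm' P.s (by omega) (by omega)
  obtain ⟨sy, sq⟩ := T.sm (P.s - 1) le_rfl (by omega)
  obtain ⟨sy', sq'⟩ := T.sm' (P.s - 1) le_rfl (by omega)
  have sc : ContDiffAt ℝ ∞ (cv (fun σ => σ) x y) τ := contDiffAt_id.prodMk (sx.prodMk sy)
  have sc' : ContDiffAt ℝ ∞ (cv (fun σ => σ) x y') τ := contDiffAt_id.prodMk (sx.prodMk sy')
  obtain ⟨ma, mb, -⟩ := hG _ _ _ _ _ _ _ _ hL0 _ hU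
  obtain ⟨ma', mb', -⟩ := hG _ _ _ _ _ _ _ _ hL1 _ hU1
  have sg : ContDiffAt ℝ ∞ (fun σ => g (cv (fun σ => σ) x y σ)) τ := (hL0.sm _ hU).comp τ sc
  have sg' : ContDiffAt ℝ ∞ (fun σ => g (cv (fun σ => σ) x y' σ)) τ := (hL1.sm _ hU1).comp τ sc'
  have sa : ContDiffAt ℝ ∞ (fun σ => ga g (cv (fun σ => σ) x y σ)) τ := ma.comp τ sc
  have sa' : ContDiffAt ℝ ∞ (fun σ => ga g (cv (fun σ => σ) x y' σ)) τ := ma'.comp τ sc'
  have sb : ContDiffAt ℝ ∞ (fun σ => gb g (cv (fun σ => σ) x y σ)) τ := mb.comp τ sc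
  have sb' : ContDiffAt ℝ ∞ (fun σ => gb g (cv (fun σ => σ) x y' σ)) τ := mb'.comp τ sc'
  obtain lo : ∀ {f : ℝ → ℝ} (n : ℕ), ContDiffAt ℝ ∞ f τ → ContDiffAt ℝ n f τ := fun n hf =>
    hf.of_le (by exact_mod_cast le_top)
  set G := |g (τ, x τ, y' τ) - g (τ, x τ, y τ)| + P.R.b P.s + b' with hGd
  obtain hG0 : P.R.b P.s + b' ≤ G := by rw [hGd]; linarith only [abs_nonneg (g (τ, x τ, y' τ) - g (τ, x τ, y τ))]
  obtain hGp : 0 < G := by linarith only [hb0, hb1, hG0]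
  set K := P.Λ ^ (2 + (e + 1) * (2 * N + 2)) with hK
  obtain hK0 : 0 ≤ K := by positivity
  obtain hC : P.Λ ^ e ≤ P.Λ ^ (e + 1) := pow_le_pow_right₀ hΛ1 (by omega)
  obtain hC1 : P.Λ ≤ P.Λ ^ (e + 1) := le_self_pow₀ hΛ1 (by omega)
  obtain st : ∀ n ≤ N,
      |dj n (fun σ => g (cv (fun σ => σ) x y' σ)) (fun σ => g (cv (fun σ => σ) x y σ)) τ| ≤ K * G ∧
      |dj n (fun σ => ga g (cv (fun σ => σ) x y' σ)) (fun σ => ga g (cv (fun σ => σ) x y σ)) τ|
        ≤ K * G ∧ |iteratedDeriv n (fun σ => gb g (cv (fun σ => σ) x y' σ)) τ| ≤ K * G ∧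
      |iteratedDeriv n (fun σ => gb g (cv (fun σ => σ) x y σ)) τ| ≤ K * G := fun n hn => by
    obtain ⟨c1, c2, c3, c4⟩ := hS _ _ _ _ _ _ _ _ _ _ _ _ hL0 hL1 n (fun σ => σ) x y y' τ
      (P.Λ ^ (e + 1)) hn hU hU1 hV contDiffAt_id (lo n sx) (lo n sy) (lo n sy') (by linarith only [hΛ, hC1])
      (by linarith only [hbΛ, hC1]) (by linarith only [hb', hC1]) fun i h1 h2 => ⟨by
        rw [iteratedDeriv_fun_id, if_neg (by omega)]
        split_ifs <;> simp <;> linarith only [hΛ, hC1],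
        ((jets h T.jb' le_rfl (by omega) hs (h2.trans hn)).1 h1).trans hC,
        ((jets h T.jb le_rfl le_rfl (by omega) (h2.trans hn)).1 h1).trans hC,
        ((hj' i (h2.trans hn)).1 h1).trans hC⟩
    obtain hk : P.Λ ^ 2 * (P.Λ ^ (e + 1)) ^ (2 * n + 2) ≤ K := by
      rw [hK, ← pow_mul, ← pow_add]
      exact pow_le_pow_right₀ hΛ1 (by (clear * - hn; gcongr))
    exact ⟨c1.trans (mul_le_mul_of_nonneg_right hk hGp.le),
      c2.trans (mul_le_mul_of_nonneg_right hk hGp.le),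
      c3.trans (mul_le_mul hk (by linarith only [hb0, hG0]) hb1.le hK0),
      c4.trans (mul_le_mul hk (by linarith only [hb1, hG0]) hb0.le hK0)⟩
  set M := P.Λ ^ (N + 1 + (2 + (e + 1) * (2 * N + 2)) + (e + 1)) with hM
  obtain hMe : M = P.Λ ^ (N + 1) * K * (P.Λ ^ e * P.Λ) := by rw [hM, hK, pow_add, pow_add, pow_succ _ e]
  have e1 : 1 ≤ P.Λ ^ e := one_le_pow₀ hΛ1
  have k1 : 1 ≤ K := one_le_pow₀ hΛ1
  obtain n1 : P.Λ ≤ P.Λ ^ (N + 1) := le_self_pow₀ hΛ1 (by omega)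
  obtain hw := h.ct.hc.wpos (P.s - 1) le_rfl (by omega)
  obtain hw1 := h.ct.hc.wpos P.s (by omega) hs
  obtain hw0 := h.ct.hc.wpos 0 (by omega) le_rfl
  obtain hP1 : P.R.Pb (P.s - 1) P.s = P.R.b P.s := by
    have := P.R.Pb_one (P.s - 1); rwa [sub_add_cancel] at this
  set β := M * G * P.w P.s / (P.R.b P.s * P.w (P.s - 1)) with hβ
  obtain b1 : β * P.κ P.s = M * G := by
    rw [hβ, RD.κ, min_eq_left hs, Sq.kp, hP1]; field_simp
  obtain b2 : β * P.κ 0 = M * (G * P.R.kp P.w P.s 0) := by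
    rw [hβ, RD.κ, min_self, Sq.kp, Sq.kp, P.R.Pb_mul (show P.s - 1 ≤ P.s by omega) hs, hP1]
    field_simp
  obtain b3 : 2 * P.Λ ^ e ≤ β := by
    rw [hβ, le_div_iff₀ (by positivity)]
    obtain a := (h.ct.hc.wle (P.s - 1) P.s le_rfl (by omega) hs).trans
      (mul_le_mul_of_nonneg_right (h.ct.top _ le_rfl (by omega)) hw1.le)
    calc _ ≤ (P.Λ ^ (N + 1) * K) * P.Λ ^ e * (G * (P.Λ * P.w P.s)) := by
          gcongr
          · nlinarith only [k1, hΛ, hK0, n1]
          · linarith only [hb1, hG0]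
      _ = _ := by rw [hMe]; ring
  obtain hf : K * G ≤ M * G := by
    refine mul_le_mul_of_nonneg_right ?_ hGp.le
    rw [hK, hM]; exact pow_le_pow_right₀ hΛ1 (by omega)
  obtain hbd : ∀ A B : ℝ, A = 0 → |B| ≤ 2 * P.Λ ^ e →
      |P.ξ P.s * A - P.ξ (P.s - 1) * B| ≤ β * P.w (P.s - 1) := fun A B hA hB => by
    rw [hA, mul_zero, zero_sub, abs_neg, abs_mul, mul_comm]
    exact mul_le_mul (hB.trans b3) (h.ct.hc.maj _ le_rfl (by omega)) (abs_nonneg _) (by linarith only [e1, b3])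
  obtain ns : P.s ≠ P.s - 1 := by omega
  have T2 := two_sw hs T
  have key := he' g E P τ F (sw F F' (P.s - 1))
    (fun σ => g (cv (fun σ => σ) x y' σ) - g (cv (fun σ => σ) x y σ))
    (fun σ => (ga g (cv (fun σ => σ) x y' σ) - ga g (cv (fun σ => σ) x y σ)) * F'.η P.s σ
      + gb g (cv (fun σ => σ) x y' σ) * F'.η (P.s - 1) σ
      - gb g (cv (fun σ => σ) x y σ) * F.η (P.s - 1) σ) β 0 h (by omega) T2 (sg'.sub sg)
    ((((sa'.sub sa).mul sp).add (sb'.mul sq')).sub (sb.mul sq))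
    (heq.mono fun σ hσ => by
      obtain c1 := hσ.1 _ le_rfl (by omega)
      obtain c2 := hσ.2.1 _ le_rfl (by omega)
      simp only [Fm.x, Fm.e] at c1 c2
      rw [swX _ _ ns, swE _ _ ns, swX0, swE0, swX _ _ (by omega), swE _ _ (by omega), c1, c2]
      simp only [cv, hx, hy, hy']
      constructor <;> ring) (by linarith only [e1, b3]) le_rfl
    fun n hn => by
      obtain d := djs h T2 (show P.s - 1 ≤ P.s by omega) (by omega) hs hn
      refine ⟨?_, ?_, hbd _ _ (by rw [swX0]; exact sub_self _) d.1,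
        hbd _ _ (by rw [swE0]; exact sub_self _) d.2, ?_⟩
      · rw [b1, iteratedDeriv_fun_sub (lo n sg') (lo n sg)]
        exact (st n hn).1.trans hf
      · obtain l1 := leib (K := K * G) (lo n (sa'.sub sa)) (lo n sp)
          (fun i hi => by
            rw [iteratedDeriv_fun_sub (lo i sa') (lo i sa)]; exact (st i (hi.trans hn)).2.1)
          fun i hi => (jets h T.jb' le_rfl (by omega) hs (hi.trans hn)).2
        have l2 := leib (lo n sb') (lo n sq') (fun i hi => (st i (hi.trans hn)).2.2.1)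
          fun i hi => (hj' i (hi.trans hn)).2
        obtain l3 := leib (lo n sb) (lo n sq) (fun i hi => (st i (hi.trans hn)).2.2.2)
          fun i hi => (jets h T.jb le_rfl le_rfl (by omega) (hi.trans hn)).2
        rw [b1, iteratedDeriv_fun_sub (lo n (((sa'.sub sa).mul sp).add (sb'.mul sq')))
          (lo n (sb.mul sq)), iteratedDeriv_fun_add (lo n ((sa'.sub sa).mul sp))
          (lo n (sb'.mul sq'))]
        obtain p2 : (2 : ℝ) ^ n ≤ P.Λ ^ (N + 1) :=
          (pow_le_pow_left₀ (by norm_num) (by linarith only [hΛ]) n).trans (pow_le_pow_right₀ hΛ1 (by omega))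
        obtain p3 : 2 ^ n * (K * G * P.Λ ^ e) * 3 ≤ P.Λ ^ (N + 1) * (K * G * P.Λ ^ e) * P.Λ := by
          gcongr; linarith only [hΛ]
        refine (abs_sub _ _).trans ((add_le_add_left (abs_add_le _ _) _).trans ?_)
        rw [hMe]; linarith only [l1, l2, l3, p3]
      · rw [swE _ _ (by omega), dj0 (heq.mono fun σ hσ => hσ.2.2.2.trans hσ.2.2.1.symm), abs_zero]
  intro n hn j hj0 hj
  obtain this := (key n hn j (by omega) hj).1
  rw [swX _ _ (by omega), kap P hj0, add_zero, b2, ← mul_assoc, hM, ← pow_add] at this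
  exact this

end Pool.Agent.MP_9cbfe4_an.SS

end

/-! ### Part SHS -/

section

/-! Row SHS: a relation at a free time starts the shadowing lemma. -/

namespace Pool.Agent.MP_9cbfe4_an

open Finset Filter Topology

namespace SHS

structure Big (c : Cs) : Prop extends SOK.Big c where
  cg : 1 ≤ c.CG
  β : 1 ≤ c.β

theorem big : Hier Big :=
  ((SOK.big.and Hier.base).and (Hier.β_ge (fun _ => 1) fun _ _ _ => rfl)).mono
    fun _ h => ⟨h.1.1, h.1.2.2.2.2.2.2, h.2⟩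

variable {c : Cs} {M : Mdl}

theorem Big.bl (h : Big c) : c.lam ≤ c.bl := le_mul_of_one_le_left h.lam_pos.le h.β
theorem Big.chb (h : Big c) : c.chK ≤ c.bl := by
  have h1 := h.k_lo
  obtain this : 1 / c.k0 ≤ 16 := by rw [div_le_iff₀ (by linarith only [h1])]; linarith only [h1]
  obtain a := Real.log_le_log (by positivity) this
  rw [show (16 : ℝ) = 2 ^ 4 by norm_num, Real.log_pow] at a
  have := Real.log_two_lt_d9
  unfold Cs.chK
  push_cast at a
  linarith only [a, this, h.bl, h.lam]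
theorem Big.ebl (h : Big c) : Real.exp (-c.bl) ≤ 1 :=
  Real.exp_le_one_iff.2 (by linarith only [h.bl, h.lam])
theorem Big.dl (h : Big c) : 0 < c.dl ∧ c.dl ≤ Real.exp (-c.bl) :=
  ⟨Real.exp_pos _, Real.exp_le_exp.2 (by linarith only [h.bl, h.lam])⟩

theorem st {φ : Fd} {s : ℤ} (hf : φ.Fr c M s) : (φ.S M).St c (φ.f M) (φ.n + 1) :=
  ⟨by have := hf.out.1; omega, (φ.S M).fr_sol _, (φ.S M).fr_self _, by
    rw [Fd.f, (φ.S M).fr_lt (by omega), abs_zero]; exact (Real.exp_pos _).le⟩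

/-- the slope of the fresh direction at a free time -/
theorem slope {φ : Fd} {s : ℤ} (hf : φ.Fr c M s) :
    |φ.f M (s - 1) / φ.f M s| ≤ 2 * Real.exp (-c.lam / 3) := by
  have r := hf.rinv
  rcases r.le.eq_or_lt with e | e
  · rw [Fd.f, (φ.S M).fr_lt (j := s - 1) (by omega), zero_div, abs_zero]; positivity
  · rw [abs_div, div_le_iff₀ (abs_pos.2 r.ne)]
    refine ((φ.S M).abs_le_wh c _ (s := φ.n + 1) (by omega)).trans ((r.i1 e).trans ?_)
    have := Real.exp_pos (-(φ.S M).chi c (φ.n + 1) s / 10)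
    rw [mul_comm 2]
    gcongr; linarith only [this]

theorem slope1 (h : Big c) {φ : Fd} {s : ℤ} (hf : φ.Fr c M s) : |φ.f M (s - 1) / φ.f M s| ≤ 1 := by
  refine (slope hf).trans ?_
  have a := Real.add_one_le_exp (c.lam / 3)
  rw [neg_div, Real.exp_neg, ← div_eq_mul_inv, div_le_one (Real.exp_pos _)]
  linarith only [a, h.lam]

theorem orb (h : Big c) (hM : M.OK c) {φ : Fd} {s : ℤ} (hf : φ.Fr c M s) :
    IsOrb c M φ.t (φ.S M) s ∧ (φ.S M).OK c ∧ 1 ≤ s :=
  have s1 : 1 ≤ s := by have := hf.out.1; have := hf.rinv.le; omega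
  ⟨(SOK.later h.toBig hM hf.ht (SOK.orbO h.toBig hM hf.ht hf.hv) (by omega)).1,
    SOK.okO h.toBig hM hf.ht hf.hv, s1⟩

theorem core_w0 (h : Big c) {S : Sq} (hS : S.OK c) {s : ℤ} (hs : 1 ≤ s)
    (h1 : dP (S.X s) < 5 / 100) (h2 : dP (S.X (s - 1)) < 5 / 100) : dP (S.X (s - 1)) ≤ c.w0 := by
  obtain a : dP (S.X (s - 1)) ≤ _ := (hS.core (s - 1) (by omega) (by rwa [sub_add_cancel]) h2).1
  have := h.e0_pos
  have := h.w0_pos
  (rename_i zq0; nlinarith only [a, zq0, this])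

/-- the pair data of a relation; `y` bounds `lam * (|Z| + ℓ)` -/
theorem pair (h : Big c) {S S' : Sq} (hS : S.OK c) (hS' : S'.OK c) {s s' : ℤ} (hs : 1 ≤ s)
    (hs' : 1 ≤ s') {θ y : ℝ} (θ1 : 11 / 1000 ≤ θ) (θ2 : θ ≤ 2 / 100) (hy : 0 ≤ y)
    (z1 : |S'.X s' - S.X s| ≤ 1 / 1000) (z2 : |S'.X (s' - 1) - S.X (s - 1)| ≤ 1 / 1000)
    (hp : S.bb c θ s * (S'.X (s' - 1) - S.X (s - 1)) ^ 2 ≤ c.L * y ^ 2) :
    ∃ m, Pair c (S.X s) (S.X (s - 1)) (S'.X s') (S'.X (s' - 1)) m ∧ 0 ≤ m ∧ m ≤ c.CG * c.L ∧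
      m * |S'.X (s' - 1) - S.X (s - 1)| ≤ 100 * c.CG * c.L * y ∧
      m * (S'.X (s' - 1) - S.X (s - 1)) ^ 2 ≤ 100 * c.CG * c.L * y ^ 2 := by
  have hL := h.L
  have hG := h.cg
  obtain gl : c.L ≤ c.CG * c.L := le_mul_of_one_le_left (by linarith only [hL]) hG
  have y2 := sq_nonneg y
  have p2 := sq_nonneg (S'.X (s' - 1) - S.X (s - 1))
  unfold Sq.bb at hp
  split_ifs at hp with hc
  · have d1 := abs_le.1 ((dP_lip _ _).trans z1)
    have d2 := abs_le.1 ((dP_lip _ _).trans z2)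
    obtain q : (S'.X (s' - 1) - S.X (s - 1)) ^ 2 ≤ 16 * y ^ 2 := by
      have a := mul_le_mul_of_nonneg_right h.k_lo h.L_pos.le
      have b := mul_le_mul_of_nonneg_right a p2
      refine le_of_mul_le_mul_left (a := c.L) ?_ h.L_pos
      nlinarith only [hp, b]
    obtain q' : |S'.X (s' - 1) - S.X (s - 1)| ≤ 4 * y :=
      abs_le_of_sq_le_sq' (by linarith only [q]) (by positivity) |> abs_le.2
    refine ⟨c.CG * c.L, ⟨by linarith only [z1], .inr ⟨rfl, core_w0 h hS hs (by linarith only [θ2, hc.1])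
      (by linarith only [θ2, hc.2]), core_w0 h hS' hs' (by linarith only [θ2, hc.1, d1.2]) (by linarith only [θ2, hc.2, d2.2]),
      by linarith only [z2]⟩⟩, by linarith only [hL, gl], le_rfl, ?_, ?_⟩
    · obtain this := mul_le_mul_of_nonneg_left q' (by linarith only [hL, gl] : 0 ≤ c.CG * c.L)
      obtain this := mul_nonneg (by linarith only [hL, gl] : 0 ≤ c.CG * c.L) hy
      (rename_i zq0; linarith only [zq0, this])
    · obtain this := mul_le_mul_of_nonneg_left q (by linarith only [hL, gl] : 0 ≤ c.CG * c.L)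
      obtain this := mul_nonneg (by linarith only [hL, gl] : 0 ≤ c.CG * c.L) y2
      (rename_i zq0; linarith only [zq0, this])
  · rw [not_and_or, not_le, not_le] at hc
    obtain ⟨d0, d1⟩ := h.dl
    have d2 := d1.trans h.ebl
    have q : c.dl * (S'.X (s' - 1) - S.X (s - 1)) ^ 2 ≤ c.L * y ^ 2 :=
      (mul_le_mul_of_nonneg_right d1 p2).trans hp
    refine ⟨c.dl, ⟨by linarith only [z1], .inl ⟨rfl, hc.imp (fun a => by linarith only [θ1, z1, a]) fun a => by linarith only [θ1, z2, a]⟩⟩,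
      d0.le, by linarith only [hL, gl, d2], ?_, ?_⟩
    · obtain q1 : (c.dl * (S'.X (s' - 1) - S.X (s - 1))) ^ 2 ≤ (c.L * y) ^ 2 := by
        obtain a : c.dl * (c.dl * (S'.X (s' - 1) - S.X (s - 1)) ^ 2) ≤ 1 * (c.L * y ^ 2) :=
          mul_le_mul d2 q (by (clear * - d0; positivity)) zero_le_one
        obtain b : 1 * (c.L * y ^ 2) ≤ c.L * (c.L * y ^ 2) :=
          mul_le_mul_of_nonneg_right (by linarith only [hL]) (mul_nonneg h.L_pos.le y2)
        linarith only [a, b]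
      have q2 := abs_le.2 (abs_le_of_sq_le_sq' q1 (mul_nonneg h.L_pos.le hy))
      rw [abs_mul, abs_of_pos d0] at q2
      have := mul_le_mul_of_nonneg_right gl hy
      have := mul_nonneg h.L_pos.le hy
      (rename_i zq0; linarith only [q2, zq0, this])
    · have := mul_le_mul_of_nonneg_right gl y2
      have := mul_nonneg h.L_pos.le y2
      (rename_i zq0; linarith only [q, zq0, this])

theorem cert (h : Big c) (hM : M.OK c) {φ : Fd} {s m : ℤ} (hf : φ.Fr c M s) (hm : s ≤ m) :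
    (φ.S M).Cert c (2 / 100) ((φ.S M).wp c φ.n) ((φ.S M).AA c (φ.f M) (φ.n + 1)) s m := by
  have l := hf.rinv.le
  obtain k := (Sq.cert_wh (orb h hM hf).2.1 h.k_lo h.k_hi (by linarith only [h.lam]) h.chb (st hf)
    (l.trans hm)).1
  refine ⟨(φ.S M).wh_nonneg c _ _ _, fun j a b => k.pos' j (by omega) b,
    fun j a b => k.backK j (by omega) b, fun j a b => k.back j (by omega) b,
    fun j a b => k.fwd j (by omega) b, fun i j a b d => k.mono i j (by omega) b d,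
    one_pos.trans_le ((φ.S M).one_le_AA c _ _ _), fun j a b => le_trans ?_ (k.dd j (by omega) b)⟩
  have := h.L_pos
  exact sum_le_sum_of_subset_of_nonneg (Ico_subset_Ico l le_rfl) fun _ _ _ => by (clear * - this; positivity)

theorem shs (h : Big c) : SHS_s c := by
  intro M φ φ' s s' m θ κ ℓ η hM hf _ hf' hm θ1 θ2 hκ hℓ hR hη hs hp
  obtain ⟨o, k, s1⟩ := orb h hM hf
  obtain ⟨o', k', s1'⟩ := orb h hM hf'
  have hl := h.lam
  have hL := h.L_pos
  have hG := h.cg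
  have gl : c.L ≤ c.CG * c.L := le_mul_of_one_le_left hL.le hG
  have r := hf.rinv
  have f0 : 0 < |φ.f M s| := abs_pos.2 r.ne
  have ws : (φ.S M).wp c φ.n s = |φ.f M s| := r.whm
  set Z := (φ'.S M).X s' - (φ.S M).X s with hZ
  obtain y0 : 0 ≤ |Z| + ℓ := by (clear * - hℓ; positivity)
  obtain y1 : |Z| + ℓ ≤ η * |φ.f M s| := by rw [hη]; exact le_mul_of_one_le_left y0 (by linarith only [hl])
  have η0 : 0 ≤ η := nonneg_of_mul_nonneg_left (y0.trans y1) f0
  have e0 : 0 ≤ η * |φ.f M s| := y0.trans y1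
  obtain q1 : κ * c.L * (|Z| + ℓ) ≤ c.L * (η * |φ.f M s|) := by
    rw [hη, mul_right_comm, mul_comm c.L]
    exact mul_le_mul_of_nonneg_right (mul_le_mul_of_nonneg_right hκ y0) hL.le
  obtain q2 : κ * c.L * (|Z| + ℓ) ^ 2 ≤ c.L * (η * |φ.f M s|) ^ 2 := by
    rw [pow_two, pow_two, ← mul_assoc, ← mul_assoc c.L]
    exact mul_le_mul q1 y1 y0 (by (clear * - hL η0 f0; positivity))
  obtain bb := k.b_hi s θ (by omega) (by linarith only [θ1])
  obtain b0 : 0 ≤ (φ.S M).b s := le_trans (by positivity) (k.b_lo s (by omega))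
  obtain ⟨μ, p1, μ0, μ1, p2, p3⟩ :=
    pair h k k' s1 s1' θ1 θ2 e0 hR.sm.1 hR.sm.2 (hR.prev.trans q2)
  have ce := cert h hM hf hm
  obtain x1 : ((φ'.S M).shift (s' - s)).X s = (φ'.S M).X s' := by
    show (φ'.S M).X _ = _; congr 1; ring
  obtain x2 : ((φ'.S M).shift (s' - s)).X (s - 1) = (φ'.S M).X (s' - 1) := by
    show (φ'.S M).X _ = _; congr 1; ring
  refine ⟨⟨hM, hf.ht, hf'.ht, o, by simpa using o'.shift (s' - s), hm, by norm_num, le_rfl, ce, η0,
    ?_, ⟨fun j a _ => ?_, fun j a _ => ?_⟩, ?_, ?_, ⟨μ, ?_⟩, hp⟩, fun hlt => ?_⟩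
  · rwa [Fd.W, Sq.Wp, Sq.WW, Real.exp_log (one_pos.trans_le ((φ.S M).one_le_AA c _ _ _))] at hs
  · have := (φ.S M).fr_sol (φ.n + 1) j (r.le.trans a)
    simp only [Fd.f]
    rw [this]; ring
  · obtain a1 : |φ.f M j| ≤ (φ.S M).wp c φ.n j :=
      (φ.S M).abs_le_wh c _ (s := φ.n + 1) (by have := r.le; omega)
    obtain a2 : |Z / φ.f M s| ≤ 2 * η := by
      rw [abs_div, div_le_iff₀ f0]; linarith only [hℓ, y0, y1]
    rw [abs_mul]
    exact mul_le_mul a2 a1 (abs_nonneg _) (by linarith only [η0])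
  · rw [x1]; exact div_mul_cancel₀ _ r.ne
  · rw [x2, ws, show Z / φ.f M s * φ.f M (s - 1) = φ.f M (s - 1) / φ.f M s * Z by ring]
    refine ((mul_le_mul_of_nonneg_right bb (abs_nonneg _)).trans (hR.d1.trans q2)).trans ?_
    exact mul_le_mul_of_nonneg_right (by linarith only [hL, gl]) (sq_nonneg _)
  · rw [x1, x2, ws]; exact ⟨p1, p2, p3⟩
  · obtain t := (hM.tay φ.t φ'.t _ _ _ _ _ hf.ht hf'.ht (o.box s (by omega)) (o.box (s - 1) le_rfl)
      (o'.box s' (by omega)) (o'.box (s' - 1) le_rfl) p1).2.2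
    rw [← o.hb s le_rfl, ← o'.hb s' le_rfl, ← hZ, mul_add] at t
    obtain t1 := hp (s + 1) (by omega) (by omega)
    rw [show Ico s (s + 1) = {s} by ext; simp; omega, sum_singleton, (φ.S M).fr_self, abs_one, mul_one] at t1
    obtain t2 := mul_le_mul_of_nonneg_left
      ((Sq.cert_wh k h.k_lo h.k_hi (by linarith only [hl]) h.chb (st hf) r.le).2.2 s r.le).1 η0
    rw [r.whm] at t2
    have t3 : c.dl * |φ'.t - φ.t| ≤ |φ'.t - φ.t| :=
      mul_le_of_le_one_left (abs_nonneg _) (h.dl.2.trans h.ebl)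
    obtain t4 : μ * |Z| ≤ c.CG * c.L * (η * |φ.f M s|) :=
      mul_le_mul μ1 (by linarith only [hℓ, y1]) (abs_nonneg _) (by linarith only [hL, gl])
    have t5 := mul_le_mul_of_nonneg_right gl e0
    obtain t6 : |(φ'.S M).b s' - (φ.S M).b s| ≤ 107 * (c.CG * c.L * (η * |φ.f M s|)) := by
      have : η * (φ.S M).wp c φ.n (s + 1) ≤ η * (6 * c.L * |φ.f M s|) := t2
      linarith only [p2, t, t1, t3, t4, t5, this]
    have t7 := (mul_le_mul_of_nonneg_right bb (abs_nonneg _)).trans (hR.d2.trans q1)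
    have t8 := mul_le_of_le_one_right (abs_nonneg ((φ'.S M).b s' - (φ.S M).b s)) (slope1 h hf')
    obtain e : (φ'.S M).b s' * (φ.f M s / φ'.f M s' * φ'.f M (s' - 1)) - (φ.S M).b s * φ.f M (s - 1)
        = φ.f M s * ((φ.S M).b s * (φ'.f M (s' - 1) / φ'.f M s' - φ.f M (s - 1) / φ.f M s)
          + ((φ'.S M).b s' - (φ.S M).b s) * (φ'.f M (s' - 1) / φ'.f M s')) := by
      have := r.ne
      field_simp
      ring
    obtain t9 : |(φ.S M).b s * (φ'.f M (s' - 1) / φ'.f M s' - φ.f M (s - 1) / φ.f M s)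
          + ((φ'.S M).b s' - (φ.S M).b s) * (φ'.f M (s' - 1) / φ'.f M s')|
        ≤ 200 * (c.CG * c.L * (η * |φ.f M s|)) := by
      refine (abs_add_le _ _).trans ?_
      rw [abs_mul, abs_mul, abs_of_nonneg b0]
      have := mul_nonneg hL.le e0
      linarith only [t5, t6, t7, t8, this]
    rw [e, abs_mul, ws]
    exact (mul_le_mul_of_nonneg_left t9 f0.le).trans (le_of_eq (by ring))

end SHS

theorem shs : Hier SHS_s := SHS.big.mono fun _ h => SHS.shs h

end Pool.Agent.MP_9cbfe4_an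

end

/-! ### Part LOC -/

section

/-! Row LOC: an event at a later free time localises the position. -/

namespace Pool.Agent.MP_9cbfe4_an

open Finset Filter Topology

noncomputable section

namespace Loc
variable {c : Cs}

theorem expL (h : WC c) : Real.exp c.lam = c.L := Real.exp_log (by linarith only [h.L])

theorem big (h : WC c) : 10 ^ 7 * c.lam ^ 5 ≤ c.L := by
  have h8 := h.lam8
  obtain e := Real.pow_div_factorial_le_exp c.lam (by linarith only [h8]) 7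
  rw [expL h, show ((Nat.factorial 7 : ℕ) : ℝ) = 5040 by norm_num [Nat.factorial]] at e
  refine le_trans ?_ e
  rw [le_div_iff₀ (by norm_num)]
  obtain h2 : (10 : ℝ) ^ 7 * 5040 ≤ c.lam ^ 2 := by nlinarith only [h8]
  calc 10 ^ 7 * c.lam ^ 5 * 5040 = (10 ^ 7 * 5040) * c.lam ^ 5 := by ring
    _ ≤ c.lam ^ 2 * c.lam ^ 5 := mul_le_mul_of_nonneg_right h2 (by positivity)
    _ = c.lam ^ 7 := by ring

theorem eL (h : WC c) : Real.exp (-c.bl / 2) * c.L * c.L ≤ 1 := by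
  rw [← expL h, ← Real.exp_add, ← Real.exp_add]
  exact Real.exp_le_one_iff.2 (by linarith only [h.bl4])

theorem out_of_fr (h : WC c) {M : Mdl} {φ : Fd} {m : ℤ} (fr : φ.Fr c M m) :
    (φ.S M).Out c (φ.f M) m := by
  have ri := fr.rinv
  have n0 := fr.out.1
  have le := ri.le
  refine ⟨by omega, ((φ.S M).fr_sol _).mono le, ri.ne, ?_⟩
  rcases le.eq_or_lt with rfl | hn
  · rw [Fd.f, Sq.fr_pred, abs_zero]; (clear * -; positivity)
  · refine (((φ.S M).abs_le_wh c _ (by omega)).trans (ri.i1 hn)).trans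
      (mul_le_mul_of_nonneg_right ?_ (abs_nonneg _))
    obtain e : Real.exp (-c.lam / 5) = Real.exp (-c.lam / 3) * Real.exp (2 * c.lam / 15) := by
      rw [← Real.exp_add]; congr 1; ring
    rw [e]
    refine mul_le_mul_of_nonneg_left ?_ (Real.exp_pos _).le
    linarith only [Real.add_one_le_exp (2 * c.lam / 15), h.lam8,
      Real.exp_pos (-(φ.S M).chi c (φ.n + 1) m / 10)]

theorem far_of_wit (h : WC c) (hB : B1_s c) {Ex} {S : Sq} (ok : S.OK c) {ξ m r} (o : S.Out c ξ m)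
    (w : S.Wit c Ex ξ m r) (hr : 1 ≤ r) : 5 / 100 ≤ dP (S.X m) := by
  rcases w with w | ⟨w, -⟩ | ⟨Ls, J, rJ, w, -⟩
  · linarith only [hr, w]
  · by_contra hf
    have a := ok.a_Z m o.1 (not_le.1 hf)
    have h8 := h.lam8
    obtain e : ξ (m + 1) / ξ m = S.a m + S.b m * (ξ (m - 1) / ξ m) := by
      rw [o.2.1 m le_rfl]; field_simp [o.2.2.1]
    obtain sl : |ξ (m - 1) / ξ m| ≤ Real.exp (-c.lam / 5) := by
      rw [abs_div, div_le_iff₀ (abs_pos.2 o.2.2.1)]; exact o.2.2.2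
    rw [S.rho_one, e] at w
    obtain L0 : 100 ≤ c.L := by rw [← expL h]; linarith only [h8, Real.add_one_le_exp c.lam]
    have b0 := (ok.b_pos o.1).le
    obtain b1 : S.b m ≤ c.L := by
      refine (ok.b_hi m (2 / 100) o.1 (by norm_num)).trans ?_
      unfold Sq.bb
      split_ifs
      · nlinarith only [L0, h.k2]
      · obtain this : Real.exp (-c.bl) ≤ 1 := Real.exp_le_one_iff.2 (by linarith only [h8, h.bl4])
        linarith only [L0, this]
    obtain s1 : Real.exp (-c.lam / 5) ≤ 1 / 10 := by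
      have a := Real.add_one_le_exp (c.lam / 5)
      rw [neg_div, Real.exp_neg, one_div]
      exact inv_anti₀ (by norm_num) (by linarith only [h8, a])
    obtain b2 : |S.b m * (ξ (m - 1) / ξ m)| ≤ c.L / 10 := by
      rw [abs_mul, abs_of_nonneg b0]
      nlinarith only [b1, sl, b0, s1, abs_nonneg (ξ (m - 1) / ξ m)]
    obtain t : |S.a m| ≤ |S.a m + S.b m * (ξ (m - 1) / ξ m)| + |S.b m * (ξ (m - 1) / ξ m)| := by
      have := abs_sub (S.a m + S.b m * (ξ (m - 1) / ξ m)) (S.b m * (ξ (m - 1) / ξ m))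
      rwa [add_sub_cancel_right] at this
    obtain e1 : Real.exp (-r) ≤ 1 / 2 := by
      have a := Real.add_one_le_exp r
      rw [Real.exp_neg, one_div]
      exact inv_anti₀ (by norm_num) (by linarith only [hr, a])
    nlinarith only [w, a, L0, b2, t, e1]
  · exact ((hB Ex _ ok).2.1 _ _ _ _ _ o w.1 w.2.1).kz.2.1

theorem zone {x y : ℝ} (hx : dP x < 5 / 100) (hy : dP y < 5 / 100) : |y - x| ≤ 13 / 4 := by
  have p := Real.pi_lt_d2
  have p0 := Real.pi_pos
  unfold dP at hx hy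
  rw [min_lt_iff, abs_lt, abs_lt] at hx hy
  rw [abs_le]
  rcases hx with hx | hx <;> rcases hy with hy | hy <;> constructor <;> linarith only [p, p0, hx.1, hx.2, hy.1, hy.2]

/-- numeric end of the return case -/
theorem fin (h : WC c) {r Z l τ P B1 B2 : ℝ} (hr : 1 ≤ r) (l0 : 0 ≤ l)
    (hl : l * Real.exp r ≤ 100) (hτ : |τ| * Real.exp (r + r / 100) ≤ 1) (P0 : 0 ≤ P)
    (hP : P ≤ 4 * c.lam * (|Z| + l))
    (g1 : B1 ≤ Real.exp (-c.bl / 2) * (|τ| + c.L * P ^ 2))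
    (g2 : B2 ≤ Real.exp (-c.bl / 2) * c.L * P) :
    ∃ y0 y2 : ℝ, |τ| ≤ y0 ∧ 0 ≤ y2 ∧ B1 ≤ c.L * Z ^ 2 / c.lam + y0 ∧
      B2 ≤ c.L * |Z| / c.lam + y2 ∧
      (r ≤ c.bl / 4 ∨ (y0 * Real.exp (r / 100) ≤ 1 / c.lam ^ 3 ∧ y2 * Real.exp (r / 100) ≤ 1)) ∧
      100 * Real.exp (-r) + 100 * (y2 + y0 * Real.exp (r / 100 - c.bl / 4)) / c.L
        ≤ 200 * Real.exp (-r) := by
  have h8 := h.lam8
  have hb := big h
  have he := eL h
  obtain L0 : 100 ≤ c.L := by rw [← expL h]; linarith only [h8, Real.add_one_le_exp c.lam]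
  set E := Real.exp (-c.bl / 2) with hE
  have E0 : 0 < E := Real.exp_pos _
  set x := Real.exp (-r) with hx
  have x0 : 0 < x := Real.exp_pos _
  set e := Real.exp (r / 100) with he'
  have e0 : 0 < e := Real.exp_pos _
  obtain xr : Real.exp r * x = 1 := by rw [hx, ← Real.exp_add]; simp
  obtain xe : x * e ≤ 1 := by
    rw [hx, he', ← Real.exp_add]; exact Real.exp_le_one_iff.2 (by linarith only [hr])
  obtain l1 : l ≤ 100 * x := by
    calc l = l * Real.exp r * x := by rw [mul_assoc, xr, mul_one]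
      _ ≤ _ := mul_le_mul_of_nonneg_right hl x0.le
  obtain t1 : |τ| * e ≤ x := by
    rw [Real.exp_add] at hτ
    calc |τ| * e = |τ| * (Real.exp r * e) * x := by
          rw [show |τ| * (Real.exp r * e) * x = |τ| * e * (Real.exp r * x) by ring, xr, mul_one]
      _ ≤ 1 * x := mul_le_mul_of_nonneg_right hτ x0.le
      _ = x := one_mul _
  obtain q5 : 10 ^ 7 * c.lam ^ 5 * (E * c.L) ≤ 1 :=
    (mul_le_mul_of_nonneg_right hb (by (clear * - L0; positivity))).trans (by linarith only [he])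
  obtain p1 : c.lam ≤ c.lam ^ 5 := le_self_pow₀ (by linarith only [h8]) (by norm_num)
  obtain p2 : c.lam ^ 2 ≤ c.lam ^ 5 := pow_le_pow_right₀ (by linarith only [h8]) (by norm_num)
  obtain p3 : c.lam ^ 3 ≤ c.lam ^ 5 := pow_le_pow_right₀ (by linarith only [h8]) (by norm_num)
  obtain EL0 : 0 < E * c.L := by positivity
  obtain EL : E ≤ E * c.L := le_mul_of_one_le_right E0.le (by linarith only [h8, hb, p1])
  obtain q1 : 400 * c.lam * (E * c.L) ≤ 1 :=
    (mul_le_mul_of_nonneg_right (by linarith only [h8, p1]) EL0.le).trans q5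
  obtain q2 : 320000 * c.lam ^ 2 * (E * c.L) ≤ 1 :=
    (mul_le_mul_of_nonneg_right (by linarith only [h8, p1, p2, sq_nonneg c.lam]) EL0.le).trans q5
  obtain q3 : 32 * c.lam ^ 3 * E ≤ 1 :=
    (mul_le_mul (by linarith only [h8, p1, p3, pow_pos (show 0 < c.lam by linarith only [h8]) 3]) EL E0.le
      (by positivity)).trans q5
  obtain q4 : 4 * c.lam ^ 2 * E ≤ 1 :=
    (mul_le_mul (by linarith only [sq_nonneg c.lam]) EL E0.le (by positivity)).trans q2
  obtain E1 : E ≤ 1 := Real.exp_le_one_iff.2 (by linarith only [h8, h.bl4])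
  obtain y2x : 4 * c.lam * (E * c.L) * l ≤ x := by
    calc _ ≤ 4 * c.lam * (E * c.L) * (100 * x) := mul_le_mul_of_nonneg_left l1 (by positivity)
      _ = 400 * c.lam * (E * c.L) * x := by ring
      _ ≤ 1 * x := mul_le_mul_of_nonneg_right q1 x0.le
      _ = x := one_mul _
  obtain y0x : (|τ| + 32 * c.lam ^ 2 * (E * c.L) * l ^ 2) * e ≤ 2 * x := by
    have a1 : l ^ 2 ≤ (100 * x) ^ 2 := pow_le_pow_left₀ l0 l1 2
    obtain a2 : 32 * c.lam ^ 2 * (E * c.L) * l ^ 2 * e ≤ x := by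
      calc _ ≤ 32 * c.lam ^ 2 * (E * c.L) * (100 * x) ^ 2 * e := by (clear * - a1 h8 L0; gcongr)
        _ = 320000 * c.lam ^ 2 * (E * c.L) * (x * e) * x := by ring
        _ ≤ 1 * 1 * x := by (clear * - q2 xe; gcongr)
        _ = x := by ring
    linarith only [t1, a2]
  refine ⟨|τ| + 32 * c.lam ^ 2 * (E * c.L) * l ^ 2, 4 * c.lam * (E * c.L) * l,
    le_add_of_nonneg_right (by (clear * - h8 L0; positivity)), by (clear * - h8 L0 l0; positivity), g1.trans ?_, g2.trans ?_, ?_, ?_⟩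
  · obtain a1 : P ^ 2 ≤ 32 * c.lam ^ 2 * (Z ^ 2 + l ^ 2) := by
      refine (pow_le_pow_left₀ P0 hP 2).trans ?_
      obtain this : (|Z| + l) ^ 2 ≤ 2 * (Z ^ 2 + l ^ 2) := by
        linarith only [sq_abs Z, sq_nonneg (|Z| - l)]
      calc (4 * c.lam * (|Z| + l)) ^ 2 = 16 * c.lam ^ 2 * (|Z| + l) ^ 2 := by ring
        _ ≤ 16 * c.lam ^ 2 * (2 * (Z ^ 2 + l ^ 2)) := mul_le_mul_of_nonneg_left this (by positivity)
        _ = _ := by ring
    have a2 : E * |τ| ≤ |τ| := mul_le_of_le_one_left (abs_nonneg _) E1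
    obtain a3 : 32 * c.lam ^ 2 * E * (c.L * Z ^ 2) ≤ c.L * Z ^ 2 / c.lam := by
      rw [le_div_iff₀ (by linarith only [h8])]
      calc _ = 32 * c.lam ^ 3 * E * (c.L * Z ^ 2) := by ring
        _ ≤ 1 * (c.L * Z ^ 2) := mul_le_mul_of_nonneg_right q3 (by (clear * - L0; positivity))
        _ = _ := one_mul _
    have a4 := mul_le_mul_of_nonneg_left a1 EL0.le
    calc E * (|τ| + c.L * P ^ 2) = E * |τ| + E * c.L * P ^ 2 := by ring
      _ ≤ |τ| + E * c.L * (32 * c.lam ^ 2 * (Z ^ 2 + l ^ 2)) := add_le_add a2 a4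
      _ = 32 * c.lam ^ 2 * E * (c.L * Z ^ 2) + (|τ| + 32 * c.lam ^ 2 * (E * c.L) * l ^ 2) := by ring
      _ ≤ _ := add_le_add_left a3 _
  · obtain a3 : 4 * c.lam * E * (c.L * |Z|) ≤ c.L * |Z| / c.lam := by
      rw [le_div_iff₀ (by linarith only [h8])]
      calc _ = 4 * c.lam ^ 2 * E * (c.L * |Z|) := by ring
        _ ≤ 1 * (c.L * |Z|) := mul_le_mul_of_nonneg_right q4 (by (clear * - L0; positivity))
        _ = _ := one_mul _
    have a4 := mul_le_mul_of_nonneg_left hP EL0.le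
    calc E * c.L * P ≤ _ := a4
      _ = 4 * c.lam * E * (c.L * |Z|) + 4 * c.lam * (E * c.L) * l := by ring
      _ ≤ _ := add_le_add_left a3 _
  · rcases le_total r (c.bl / 4) with hc | hc
    · exact .inl hc
    · refine .inr ⟨y0x.trans ?_, (mul_le_mul_of_nonneg_right y2x e0.le).trans xe⟩
      obtain a1 : c.L * x ≤ 1 := by
        rw [← expL h, hx, ← Real.exp_add]; exact Real.exp_le_one_iff.2 (by linarith only [hc, h.bl4])
      rw [le_div_iff₀ (by positivity)]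
      obtain a0 := pow_pos (show 0 < c.lam by linarith only [h8]) 3
      obtain a2 : 2 * c.lam ^ 3 ≤ c.L := by linarith only [a0, p3, hb]
      calc 2 * x * c.lam ^ 3 = 2 * c.lam ^ 3 * x := by ring
        _ ≤ c.L * x := mul_le_mul_of_nonneg_right a2 x0.le
        _ ≤ 1 := a1
  · obtain a1 : Real.exp (r / 100 - c.bl / 4) ≤ e := Real.exp_le_exp.2 (by linarith only [h8, h.bl4])
    obtain a2 := (mul_le_mul_of_nonneg_left a1
      (show 0 ≤ |τ| + 32 * c.lam ^ 2 * (E * c.L) * l ^ 2 by (clear * - h8 L0; positivity))).trans y0x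
    obtain a3 : 100 * (4 * c.lam * (E * c.L) * l + (|τ| + 32 * c.lam ^ 2 * (E * c.L) * l ^ 2) *
        Real.exp (r / 100 - c.bl / 4)) / c.L ≤ 100 * x := by
      rw [div_le_iff₀ (by linarith only [L0])]
      have a4 := mul_le_mul_of_nonneg_left L0 x0.le
      linarith only [a4, a2, y2x, x0]
    linarith only [a3]

theorem loc_of (h : WC c) (hS : SOK_s c) (hH : SH_s c) (hF : FD_s c) (hB : B1_s c) (hT : T1_s c)
    (hI : SHS_s c) (hR : RET0_s c) : LOC_s c := by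
  intro Ex M φ φ' s s' m m' θ κ ℓ hM fs fm fs' fm' sm hm θ1 θ2 κ1 l0 rel par
  obtain rfl : m' = m + (s' - s) := by omega
  have h8 := h.lam8
  set S := φ.S M with hSd
  set S' := φ'.S M with hSd'
  set u := S'.X s' - S.X s with hu
  set Z := S'.X (m + (s' - s)) - S.X m with hZ
  have F0 : 0 < |φ.f M s| := abs_pos.2 fs.rinv.ne
  have G0 : 0 < |φ.f M m| := abs_pos.2 fm.rinv.ne
  have u0 := abs_nonneg u
  have wm : S.wp c φ.n m = |φ.f M m| := fm.rinv.whm
  have ns := fs.rinv.le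
  set ρ := |φ.f M m| / |φ.f M s| with hρ
  have ρ0 : 0 < ρ := div_pos G0 F0
  set η := c.lam * (|u| + ℓ) / |φ.f M s| with hη
  have ηF : η * |φ.f M s| = c.lam * (|u| + ℓ) := div_mul_cancel₀ _ F0.ne'
  obtain ηG : η * |φ.f M m| = c.lam * ((|u| + ℓ) * ρ) := by rw [hη, hρ]; ring
  have eA : Real.exp (φ.W c M m) = S.AA c (φ.f M) (φ.n + 1) m :=
    Real.exp_log (one_pos.trans_le (S.one_le_AA c (φ.f M) (φ.n + 1) m))
  obtain sm3 : ∀ B : ℝ, (|u| + ℓ) * B ≤ 10 * c.cw * |φ.f M s| → η * B ≤ 10 / c.lam ^ 3 := by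
    intro B hB
    rw [hη, div_mul_eq_mul_div, div_le_iff₀ F0, mul_assoc]
    refine (mul_le_mul_of_nonneg_left hB (by linarith only [h8])).trans (le_of_eq ?_)
    rw [Cs.cw]; field_simp
  obtain base : (|u| + ℓ) * Real.exp (φ.W c M m) ≤ 10 * c.cw * |φ.f M s| →
      (ShH c M φ.t φ'.t S (S'.shift (s' - s)) (2 / 100) (S.wp c φ.n) (S.AA c (φ.f M) (φ.n + 1))
        (fun i => u / φ.f M s * φ.f M i) η s m ∧
      (s < m → |S'.b s' * (φ.f M s / φ'.f M s' * φ'.f M (s' - 1)) - S.b s * φ.f M (s - 1)|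
        ≤ 200 * c.CG * c.L * (η * S.wp c φ.n s ^ 2))) ∧ |Z| ≤ 4 * η * |φ.f M m| ∧
      |u| * ρ ≤ |Z| + 2 * (ℓ * ρ) + (|u| + ℓ) * ρ / 100 := by
    intro hb
    have a1 := sm3 _ hb
    obtain a2 : 10 / c.lam ^ 3 ≤ 1 / c.lam ^ 2 := by
      rw [div_le_div_iff₀ (by (clear * - h8; positivity)) (by (clear * - h8; positivity))]
      linarith only [sq_nonneg c.lam, mul_le_mul_of_nonneg_left h8 (sq_nonneg c.lam)]
    obtain lη : ℓ / |φ.f M s| ≤ η := div_le_div_of_nonneg_right (by nlinarith only [l0, u0, h8]) F0.le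
    obtain ⟨sh, i2⟩ := hI M φ φ' s s' m θ κ ℓ η hM fs fm fs' sm θ1 θ2 κ1 l0 rel ηF (a1.trans a2)
      fun j j1 j2 => (par j j1 j2).trans (mul_le_mul_of_nonneg_right lη (Sq.wh_nonneg _ _ _ _ _))
    obtain ⟨z1, z2⟩ := (hH _ _ _ _ _ _ _ _ _ _ _ _ sh).1 m sm le_rfl
    refine ⟨⟨sh, i2⟩, by rw [← wm]; exact z1, ?_⟩
    set T := (φ'.t - φ.t) * ∑ i ∈ Ico s m, S.fr (i + 1) m * M.Gt φ.t (S.X i) (S.X (i - 1)) with hT
    obtain t1 : |T| ≤ 2 * (ℓ * ρ) := by
      rcases sm.eq_or_lt with rfl | lt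
      · rw [hT, Ico_self, sum_empty, mul_zero, abs_zero]; (clear * - l0 F0; positivity)
      · have p := par m lt le_rfl
        rw [← hSd, wm] at p
        obtain q : |∑ i ∈ Ico s m, S.fr (i + 1) m * M.Gt φ.t (S.X i) (S.X (i - 1))| ≤
            2 * ∑ i ∈ Ico s m, |S.fr (i + 1) m| := by
          rw [mul_sum]
          refine (abs_sum_le_sum_abs _ _).trans (sum_le_sum fun i hi => ?_)
          have i1 := (mem_Ico.1 hi).1
          obtain g := abs_le.1 (hM.t_all φ.t _ _ sh.ht (sh.orb.box i (by omega))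
            (sh.orb.box (i - 1) (by omega)))
          rw [abs_mul, mul_comm]
          exact mul_le_mul_of_nonneg_right
            (abs_le.2 ⟨by linarith only [h.dl.2, g.1], by linarith only [h.dl.2, g.2]⟩) (abs_nonneg _)
        rw [hT, abs_mul]
        refine (mul_le_mul_of_nonneg_left q (abs_nonneg _)).trans ?_
        obtain e : ℓ / |φ.f M s| * |φ.f M m| = ℓ * ρ := by rw [hρ]; ring
        linarith only [p, e]
    obtain t2 : c.KS * (η * S.AA c (φ.f M) (φ.n + 1) m) * (η * S.wp c φ.n m) ≤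
        (|u| + ℓ) * ρ / 100 := by
      rw [wm, ηG, ← eA]
      obtain k : c.KS * (10 / c.lam ^ 3) * c.lam ≤ 1 / 100 := by
        obtain e : c.KS * (10 / c.lam ^ 3) * c.lam = 10 * c.KS / c.lam ^ 2 := by field_simp
        rw [e, div_le_iff₀ (by positivity), Cs.KS]
        nlinarith only [h8, h.lam, h.cg]
      obtain D0 : 0 ≤ (|u| + ℓ) * ρ := by (clear * - l0 G0 F0; positivity)
      calc _ ≤ c.KS * (10 / c.lam ^ 3) * (c.lam * ((|u| + ℓ) * ρ)) :=
            mul_le_mul_of_nonneg_right (mul_le_mul_of_nonneg_left a1 h.KS) (by (clear * - h8 l0 G0 F0; positivity))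
        _ = c.KS * (10 / c.lam ^ 3) * c.lam * ((|u| + ℓ) * ρ) := by ring
        _ ≤ 1 / 100 * ((|u| + ℓ) * ρ) := mul_le_mul_of_nonneg_right k D0
        _ = _ := by ring
    have z3 : |Z - u / φ.f M s * φ.f M m - T| ≤ (|u| + ℓ) * ρ / 100 := le_trans z2 t2
    obtain e : |u| * ρ = |u / φ.f M s * φ.f M m| := by rw [abs_mul, abs_div, hρ]; ring
    rw [e]
    obtain e2 : u / φ.f M s * φ.f M m = Z - T - (Z - u / φ.f M s * φ.f M m - T) := by ring
    have t3 := abs_sub (Z - T) (Z - u / φ.f M s * φ.f M m - T)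
    have t4 := abs_sub Z T
    rw [← e2] at t3
    linarith only [t1, z3, t3, t4]
  obtain inv : ∀ B : ℝ, B * |φ.f M s| / |φ.f M m| = B / ρ := fun B => by
    rw [hρ]; field_simp
  refine ⟨fun hb d1 d2 => ?_, fun r hb w w' hr hl hτ hκ => ?_⟩
  · obtain ⟨-, -, k⟩ := base hb
    have z : |Z| ≤ 13 / 4 := zone d1 d2
    rw [inv]
    obtain this : (|u| - 3 * ℓ) * ρ ≤ 4 := by
      rw [add_mul] at k
      rw [sub_mul, mul_assoc]
      linarith only [k, z, mul_nonneg l0 ρ0.le]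
    have := (le_div_iff₀ ρ0).2 this
    linarith only [this]
  · rw [inv, le_div_iff₀ ρ0]
    have x0 := Real.exp_pos (-r)
    obtain hl' : ℓ * ρ * Real.exp r ≤ 100 := by
      rw [hρ, ← mul_div_assoc, div_mul_eq_mul_div, div_le_iff₀ F0]; exact hl
    rcases sm.eq_or_lt with rfl | lt
    · have r1 : ρ = 1 := div_self F0.ne'
      rw [r1, mul_one] at hl' ⊢
      obtain w2 : S'.Wit c Ex (φ'.f M) s' r := by rwa [add_sub_cancel] at w'
      obtain this := hR Ex M φ φ' s s' θ κ ℓ r hM fs fs' (by linarith only [θ1]) (hκ rfl) l0 rel w w2 hr hl' hτ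
      linarith only [x0, this]
    · obtain D0 : 0 ≤ |u| + ℓ := by (clear * - l0; positivity)
      have b1 : (|u| + ℓ) * Real.exp (φ.W c M m) ≤ 10 * c.cw * |φ.f M s| :=
        (mul_le_mul_of_nonneg_left (Real.exp_le_exp.2 (le_max_left _ _)) D0).trans hb
      obtain b2 : (|u| + ℓ) * |φ.f M m| ≤ 10 * c.cw * |φ.f M s| := by
        refine (mul_le_mul_of_nonneg_left ?_ D0).trans hb
        rw [← Real.exp_log G0, Real.log_abs, ← Real.log_abs]
        exact Real.exp_le_exp.2 (le_trans (by rw [add_zero]) (le_max_right _ _))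
      obtain ⟨⟨sh, i2⟩, z1, k⟩ := base b1
      have ok : S.OK c := ((hS M hM φ.t fs.ht).2.1 φ.v fs.hv).2
      have om := out_of_fr h fm
      have om' := out_of_fr h fm'
      have kz := far_of_wit h hB ok om w hr
      have ri := fm.rinv
      obtain ⟨f1, f2⟩ := hF _ _ _ _ _ _ _ _ _ _ _ _ sh lt
        ((Sq.kk_eq_zero _).2 (.inl (by linarith only [kz]))) (fun i i1 i2 => by
          have x1 : 0 ≤ c.a * S.chi c i m := mul_nonneg h.a.le (S.chi_nonneg c h.chp.le h.chb _ _)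
          obtain x2 : S.ff c (φ.n + 1) i ≤ 1000 * c.lam := by
            rw [Sq.ff]; linarith only [h8, Real.exp_pos (-S.chi c (φ.n + 1) i / 24)]
          rw [wm]
          refine ⟨(ri.i2 i (by (clear * - ns i1; omega)) i2).1.trans ?_, (ri.i2 i (by omega) i2).2.trans ?_⟩ <;>
          exact mul_le_mul_of_nonneg_right ((mul_le_mul_of_nonneg_right x2 (Real.exp_pos _).le).trans
            (mul_le_mul_of_nonneg_left (Real.exp_le_exp.2 (by linarith only [x1])) (by linarith only [h8]))) G0.le)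
        (φ.f M) ⟨fun j j1 _ => S.fr_sol _ j (by omega),
          fun j j1 _ => by rw [one_mul]; exact S.abs_le_wh c _ (by omega)⟩ (by rw [wm]; linarith only [G0])
      have g1 := f1 ⟨_, fun _ => rfl⟩
      have ns' := fs'.rinv.le
      obtain g2 := f2 (fun j => φ.f M s / φ'.f M s' * φ'.f M (j + (s' - s))) (fun j j1 _ => by
          obtain e := S'.fr_sol (φ'.n + 1) (j + (s' - s)) (by omega)
          obtain e1 : j + 1 + (s' - s) = j + (s' - s) + 1 := by ring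
          obtain e2 : j - 1 + (s' - s) = j + (s' - s) - 1 := by ring
          simp only [Sq.shift, e1, e2]
          rw [show φ'.f M (j + (s' - s) + 1) = _ from e]
          simp only [Fd.f]; ring)
        (by simp only [add_sub_cancel]; exact div_mul_cancel₀ _ fs'.rinv.ne)
        (by
          obtain e2 : s - 1 + (s' - s) = s' - 1 := by ring
          simp only [Sq.shift, add_sub_cancel, e2]; exact i2 lt)
      obtain e3 : m - 1 + (s' - s) = m + (s' - s) - 1 := by ring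
      simp only [Sq.shift, e3] at g1 g2
      rw [mul_div_mul_left _ _ (div_ne_zero fs.rinv.ne fs'.rinv.ne)] at g2
      rw [wm] at g1 g2
      obtain l1 : 0 ≤ ℓ * ρ := by (clear * - l0 G0 F0; positivity)
      obtain hP : η * |φ.f M m| ≤ 4 * c.lam * (|Z| + ℓ * ρ) := by
        rw [ηG, mul_comm 4, mul_assoc]
        refine mul_le_mul_of_nonneg_left ?_ (by linarith only [h8])
        have e : (|u| + ℓ) * ρ = |u| * ρ + ℓ * ρ := add_mul _ _ _
        rw [e] at k ⊢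
        linarith only [k, l1, abs_nonneg Z]
      obtain ⟨y0, y2, c1, c2, c3, c4, c5, c6⟩ := fin h hr l1 hl' hτ
        (mul_nonneg sh.η0 G0.le) hP g1 g2
      obtain z4 : |Z| ≤ 1 / 1000 := by
        have a := sm3 _ b2
        obtain a2 : 10 / c.lam ^ 3 ≤ 1 / 4000 := by
          rw [div_le_iff₀ (by (clear * - h8; positivity))]
          obtain this : c.lam ≤ c.lam ^ 3 := le_self_pow₀ (by linarith only [h8]) (by norm_num)
          linarith only [h8, this]
        linarith only [z1, a, a2]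
      have key := (hT Ex M φ.t φ'.t hM fm.ht fm'.ht _ fm.hv _ fm'.hv _ _ m (m + (s' - s)) r Z y0 y2
        om om' hr w w' rfl z4 c1 c2 c3 c4 c5).trans c6
      obtain l2 : ℓ * ρ ≤ 100 * Real.exp (-r) := by
        obtain xr : Real.exp r * Real.exp (-r) = 1 := by rw [← Real.exp_add]; simp
        calc ℓ * ρ = ℓ * ρ * Real.exp r * Real.exp (-r) := by rw [mul_assoc (ℓ * ρ), xr, mul_one]
          _ ≤ _ := mul_le_mul_of_nonneg_right hl' x0.le
      rw [add_mul] at k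
      linarith only [k, key, l2, x0]

end Loc

theorem loc : Hier fun c => SOK_s c → SH_s c → FD_s c → B1_s c → T1_s c → SHS_s c → RET0_s c →
    LOC_s c := hier_WC.mono fun _ => Loc.loc_of

end
end Pool.Agent.MP_9cbfe4_an

end

/-! ### Part RETD -/

section

/-! Row RETD: deep returns and the critical curve. -/

namespace Pool.Agent.MP_9cbfe4_an

theorem RETD_dnn {a b : ℝ} (ha : 0 ≤ a) (hb : 0 < b) : 0 ≤ a / b := div_nonneg ha hb.le

open Finset

namespace RETD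

structure K (c : Cs) : Prop where
  k2 : 0 < c.k0 ∧ c.k0 < 1 / 2
  β : 6 ≤ c.β
  lam : 30 ≤ c.lam
  L : 10 ≤ c.L
  a : 0 < c.a ∧ c.a ≤ (1 / 60) ^ 2

theorem hK : Hier K := by
  have h1 := Hier.base
  have h2 := Hier.β_ge (fun _ => 6) fun _ _ _ => rfl
  have h3 := Hier.lam_ge (fun _ => 30) fun _ _ => rfl
  have h4 := Hier.L_ge (fun _ => 10) fun _ _ => rfl
  obtain h5 := Hier.a_le (fun _ => (1 / 60) ^ 2) (fun _ _ _ _ _ _ => rfl)
    (Hier.of_all fun _ => by norm_num)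
  refine (h1.and (h2.and (h3.and (h4.and h5)))).mono ?_
  rintro c ⟨a1, a2, a3, a4, a5⟩
  exact ⟨⟨by linarith only [a5, a1.1], a1.2.1⟩, a2, a3, a4, a5⟩

theorem exp_neg_le {x : ℝ} (n : ℕ) (h : n ≤ x) : Real.exp (-x) ≤ (1 / 2) ^ n * (3 / 4) ^ n := by
  obtain e : Real.exp (-n) = Real.exp (-1) ^ n := by rw [← Real.exp_nat_mul]; norm_num
  refine (Real.exp_le_exp.2 (neg_le_neg h)).trans ?_
  rw [e, ← mul_pow]
  exact pow_le_pow_left₀ (Real.exp_pos _).le (by linarith only [Real.exp_neg_one_lt_d9]) n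

theorem round_le (x : ℝ) : |x - Real.pi * round (x / Real.pi)| ≤ 2 * |Real.sin x| := by
  have hp := Real.pi_pos
  obtain h1 : |x - Real.pi * round (x / Real.pi)| ≤ Real.pi / 2 := by
    have h := abs_sub_round (x / Real.pi)
    obtain e : x - Real.pi * round (x / Real.pi) = Real.pi * (x / Real.pi - round (x / Real.pi)) := by
      field_simp
    rw [e, abs_mul, abs_of_pos hp]
    nlinarith only [hp, h]
  have h2 := Real.mul_abs_le_abs_sin h1
  obtain h3 : |Real.sin (x - Real.pi * round (x / Real.pi))| = |Real.sin x| := by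
    rw [mul_comm, Real.sin_sub_int_mul_pi, abs_mul, abs_zpow, abs_neg, abs_one, one_zpow, one_mul]
  rw [h3, div_mul_eq_mul_div, div_le_iff₀ hp] at h2
  have h4 := Real.pi_lt_four
  have h5 := abs_nonneg (Real.sin x)
  nlinarith only [h2, h4, h5]

theorem st (c : Cs) (S : Sq) {n : ℤ} (hn : 0 ≤ n) : S.St c (S.fr (n + 1)) (n + 1) := by
  refine ⟨by omega, S.fr_sol _, S.fr_self _, ?_⟩
  rw [S.fr_pred, abs_zero]
  exact (Real.exp_pos _).le

/-- a free time of a partner run is an admissible fold time -/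
theorem out {c : Cs} (h : K c) {S : Sq} {n m : ℤ} (hn : 0 ≤ n)
    (hr : S.RInv c (S.fr (n + 1)) (n + 1) m) : S.Out c (S.fr (n + 1)) m := by
  refine ⟨by have := hr.le; omega, (S.fr_sol _).mono hr.le, hr.ne, ?_⟩
  rcases hr.le.eq_or_lt with e | e
  · rw [← e, S.fr_pred, abs_zero]; exact mul_nonneg (le_of_lt (Real.exp_pos (-Cs.lam c / (5 : ℝ)))) (abs_nonneg (Sq.fr S (n + (1 : ℤ)) (n + (1 : ℤ))))
  refine (S.abs_le_wh c _ (s := n + 1) (by omega)).trans ((hr.i1 e).trans ?_)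
  refine mul_le_mul_of_nonneg_right ?_ (abs_nonneg _)
  have h1 := Real.exp_pos (-S.chi c (n + 1) m / 10)
  have h2 := Real.exp_pos (-c.lam / 3)
  obtain h3 : Real.exp (-c.lam / 5) = Real.exp (-c.lam / 3) * Real.exp (2 * c.lam / 15) := by
    rw [← Real.exp_add]; ring_nf
  have h4 := Real.add_one_le_exp (2 * c.lam / 15)
  have := h.lam
  rw [h3]
  exact mul_le_mul_of_nonneg_left (by linarith only [h1, h4, this]) h2.le

/-- `ρ` at two horizons of bound runs -/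
theorem rho_two {c : Cs} (h : K c) (hB : B1_s c) (hR : RHO_s c) {Ex} {S : Sq} {ξ : ℤ → ℝ} {m : ℤ}
    (ok : S.OK c) (ho : S.Out c ξ m) {Ls Ls' J J' r r'} (b : S.BRun c Ex ξ m Ls J r)
    (b' : S.BRun c Ex ξ m Ls' J' r') {y : ℝ} (h0 : 0 ≤ y) (hy : y ≤ S.chi c m J)
    (hy' : y ≤ S.chi c m J') : |S.rho ξ m J - S.rho ξ m J'| ≤ Real.exp (-y / 2) := by
  obtain key : ∀ {Ls Ls' J J' r r'}, S.BRun c Ex ξ m Ls J r → S.BRun c Ex ξ m Ls' J' r' →
      y ≤ S.chi c m J → J ≤ J' → |S.rho ξ m J - S.rho ξ m J'| ≤ Real.exp (-y / 2) := by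
    intro Ls Ls' J J' r r' b b' hy hJ
    have i1 := ((hB Ex S ok).1 _ _ _ _ _ (st c S ho.1) b.1).2
    have i2 := ((hB Ex S ok).1 _ _ _ _ _ (st c S ho.1) b'.1).2
    have i3 := (hB Ex S ok).2.1 _ _ _ _ _ ho b'.1 b'.2.1
    refine ((hR S ξ m _ _ ok ho i2 i3).2 J (by have := i1.le; omega) hJ i1.whm).trans ?_
    refine Real.exp_le_exp.2 ?_
    have := h.a
    nlinarith only [h0, hy, this]
  rcases le_total J J' with e | e
  · exact key b b' hy e
  · rw [abs_sub_comm]; exact key b' b hy' e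

/-- low returns are close to a multiple of `π` -/
theorem low {c : Cs} (h : K c) (hS : SOK_s c) (hB : B1_s c) (hR : RHO_s c) {Ex} {M : Mdl}
    (hM : M.OK c) {φ : Fd} {m : ℤ} {r : ℝ} (d : φ.Deep c Ex M m r) (hr : r ≤ c.bl / 3) :
    |(φ.S M).X m - Real.pi * round ((φ.S M).X m / Real.pi)| ≤ 6 * Real.exp (-r) := by
  obtain ⟨orb, ok⟩ := (hS M hM φ.t d.fr.ht).2.1 φ.v d.fr.hv
  change IsOrb c M φ.t (φ.S M) 0 at orb
  change (φ.S M).OK c at ok
  have ho : (φ.S M).Out c (φ.f M) m := out h d.fr.out.1 d.fr.rinv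
  have hw := d.wit
  have h3 := d.lo
  have ht := d.fr.ht
  generalize φ.f M = ξ at *
  generalize φ.S M = S at *
  have hL := h.L
  have ha := h.a
  have hE := Real.exp_pos (-r)
  obtain hbl : Real.exp (-c.bl) ≤ Real.exp (-r) := Real.exp_le_exp.2 (by linarith only [hr, h3, ha])
  obtain h1 : |S.rho ξ m (m + 1)| ≤ (c.L + 1) * Real.exp (-r) := by
    rcases hw with e | e | ⟨Ls, J, rJ, b, e, -⟩
    · linarith only [h3, ha, e]
    · linarith only [hE, e.1]
    have i2 := ((hB Ex S ok).1 _ _ _ _ _ (st c S ho.1) b.1).2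
    have i3 := (hB Ex S ok).2.1 _ _ _ _ _ ho b.1 b.2.1
    have i1 := ((hB Ex S ok).1 _ _ (fun _ _ _ => True) _ _ (st c S ho.1) (.start _ _ _)).2
    obtain i4 := (hR S ξ m _ _ ok ho i2 i3).2 (m + 1) (by omega) i2.le i1.whm
    obtain i5 : S.chi c m (m + 1) = c.bl := by rw [S.chi_succ, Sq.ch1, i3.kz.1]; ring
    rw [i5] at i4
    obtain i6 : Real.exp (-(1 - 2 * c.a) * c.bl) ≤ Real.exp (-r) :=
      Real.exp_le_exp.2 (by nlinarith only [hr, h3, ha])
    have := abs_sub_abs_le_abs_sub (S.rho ξ m (m + 1)) (S.rho ξ m J)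
    linarith only [e, i4, i6, this]
  obtain h2 : S.rho ξ m (m + 1) = S.a m + S.b m * (ξ (m - 1) / ξ m) := by
    rw [S.rho_one, ho.2.1 m le_rfl]; have := ho.2.2.1; field_simp
  obtain h4 : |ξ (m - 1) / ξ m| ≤ Real.exp (-c.lam / 5) := by
    rw [abs_div, div_le_iff₀ (abs_pos.2 ho.2.2.1)]; exact ho.2.2.2
  obtain h5 : Real.exp (-c.lam / 5) ≤ 1 / 100 := by
    obtain this := exp_neg_le (x := c.lam / 5) 6 (by push_cast; linarith only [h.lam])
    rw [neg_div]; refine this.trans (by norm_num)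
  obtain h6 : Real.exp (-r) ≤ 1 / 10 := (exp_neg_le 3 (by push_cast; linarith only [h3])).trans (by norm_num)
  have hb := ok.b_pos ho.1
  obtain h7 : |S.a m| ≤ (c.L + 1) * Real.exp (-r) + S.b m / 100 := by
    obtain e : S.a m = S.rho ξ m (m + 1) - S.b m * (ξ (m - 1) / ξ m) := by rw [h2]; ring
    rw [e]
    refine (abs_sub _ _).trans (add_le_add h1 ?_)
    rw [abs_mul, abs_of_pos hb]
    nlinarith only [ha, h4, h5, hb]
  obtain bx := orb.box m (by have := ho.1; omega)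
  obtain bx' := orb.box (m - 1) (by have := ho.1; omega)
  obtain h8 : 5 / 100 ≤ dP (S.X m) := by
    by_contra hn
    have a1 := ok.a_Z m ho.1 (not_le.1 hn)
    obtain a2 : S.b m ≤ c.k0 * c.L + 1 := by rw [orb.hb m ho.1]; exact hM.b_hi _ _ _ ht bx bx'
    have := h.k2
    nlinarith only [hL, ha, h6, h7, a1, a2, this]
  obtain h9 : S.b m ≤ Real.exp (-c.bl) := by
    rw [orb.hb m ho.1]; exact hM.b_N _ _ _ ht bx bx' (.inl (by linarith only [ha, h8]))
  obtain h10 := hM.a_N _ _ _ ht bx bx' (by linarith only [ha, h8])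
  rw [← orb.ha m ho.1] at h10
  obtain h11 : c.dl ≤ Real.exp (-r) := Real.exp_le_exp.2 (by linarith only [hr, h3, ha])
  obtain h12 : c.L * |Real.sin (S.X m)| ≤ c.L * (3 * Real.exp (-r)) := by
    obtain e : c.L * Real.sin (S.X m) = (S.a m + c.L * Real.sin (S.X m)) - S.a m := by ring
    have a1 := abs_sub (S.a m + c.L * Real.sin (S.X m)) (S.a m)
    rw [← e, abs_mul, abs_of_pos (show 0 < c.L by linarith only [hL, ha])] at a1
    nlinarith only [hL, hE, hbl, h7, h9, h10, h11, a1]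
  obtain h13 := le_of_mul_le_mul_left h12 (by linarith only [hL, ha])
  linarith only [h13, round_le (S.X m)]

/-- high returns are fold data of level `3 r` -/
theorem high {c : Cs} (h : K c) (hS : SOK_s c) (h3 : B3_s c) {Ex} {M : Mdl}
    (hM : M.OK c) {φ : Fd} {m : ℤ} {r : ℝ} (d : φ.Deep c Ex M m r) (hr : ¬ r ≤ c.bl / 3) :
    (φ.inn M m).OK c Ex M (3 * r) ∧ (φ.S M).OK c ∧
    (∃ Ls J rJ, (φ.S M).BRun c Ex (φ.f M) m Ls J rJ ∧
      |(φ.S M).rho (φ.f M) m J| ≤ c.L * Real.exp (-r) ∧ 3 * r ≤ (φ.S M).chi c m J) ∧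
    ∀ y, y ≤ 20 * r → ((φ.S M).Nw c m y : ℤ) ≤ m - (φ.n + 2) := by
  obtain ⟨-, ok⟩ := (hS M hM φ.t d.fr.ht).2.1 φ.v d.fr.hv
  change (φ.S M).OK c at ok
  have hl := d.lo
  have hf := d.far.resolve_left hr
  obtain hw := (d.wit.resolve_left (by linarith only [hl])).resolve_left fun e => hr e.2
  have hr' := not_le.1 hr
  obtain hb : 6 * c.lam ≤ c.bl := mul_le_mul_of_nonneg_right h.β (by linarith only [h.lam])
  refine ⟨⟨by linarith only [hr, hl, h.lam], d.ht, d.fr.hv, out h d.fr.out.1 d.fr.rinv, fun y hy => ?_, ?_⟩,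
    ok, hw, fun y hy => ?_⟩
  · obtain ⟨P, Ls, hrun⟩ := d.run
    refine h3 Ex _ _ _ P Ls m y ok (st c _ d.fr.out.1) hrun (.inr (.inl ?_))
    rw [add_assoc, one_add_one_eq_two]
    exact hy.trans (le_trans (by linarith only [hl]) hf)
  · obtain ⟨Ls, J, rJ, b, e1, e2⟩ := hw
    refine ⟨Ls, J, rJ, b, e2, e1.trans ?_⟩
    obtain s1 : Real.sqrt c.a ≤ 1 / 60 := Real.sqrt_le_iff.2 ⟨by norm_num, h.a.2⟩
    obtain s3 : 1 / c.S0 (3 * r) ^ 10 = Real.exp (-(10 * (Real.sqrt c.a * (3 * r)))) := by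
      rw [Cs.S0, ← Real.exp_nat_mul, Real.exp_neg, one_div]; norm_num
    obtain s4 : c.L = Real.exp c.lam := by rw [Cs.lam, Real.exp_log (by linarith only [h.L])]
    rw [s3, s4, ← Real.exp_add]
    exact Real.exp_le_exp.2 (by nlinarith only [hr, hl, hb, s1])
  · obtain hm : φ.n + 2 ≤ m := by
      by_contra hn
      rw [Sq.chi, Finset.Ioc_eq_empty (by omega), sum_empty] at hf
      linarith only [hl, hf]
    obtain this : (φ.S M).Nw c m y ≤ (m - (φ.n + 2)).toNat := Nat.sInf_le (by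
      rw [Set.mem_ofPred_eq, Int.toNat_of_nonneg (by omega), sub_sub_cancel]; linarith only [hf, hy])
    omega

theorem main {c : Cs} (h : K c) (hS : SOK_s c) (hB : B1_s c) (h3 : B3_s c) (hR : RHO_s c) (N : ℕ) :
    RETD_s N c := by
  intro Ex M sd hM hsd φ m r d
  have hE := Real.exp_pos (-r)
  have hl := d.lo
  by_cases hr : r ≤ c.bl / 3
  · have e : ∀ (ψ : Fd) k, ψ.crt c M sd k r = fun _ => Real.pi * round ((ψ.S M).X k / Real.pi) :=
      fun ψ k => if_pos hr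
    have a1 := low h hS hB hR hM d hr
    rw [e]
    refine ⟨contDiffOn_const, fun t _ i hi _ => ?_, by linarith only [hE, a1], fun φ' m' d' hm _ hx t _ => ?_⟩
    · rw [iteratedDeriv_const, if_neg (by omega), abs_zero]; norm_num
    have a2 := low h hS hB hR hM d' hr
    obtain a3 := hx m (by have := d.fr.rinv.le; omega) le_rfl
    rw [show m - φ.n + φ'.n = m' by omega] at a3
    obtain a4 : c.rU (3 * r) ≤ 1 := by
      obtain this : 1 ≤ c.S0 (3 * r) := Real.one_le_exp (by exact mul_nonneg (Real.sqrt_nonneg (Cs.a c)) (le_of_lt (mul_pos (Nat.ofNat_pos : (0 : ℝ) < 3) (lt_of_lt_of_le (Nat.ofNat_pos : (0 : ℝ) < 3) hl))))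
      rw [Cs.rU, div_le_one (by exact pow_pos (lt_of_lt_of_le (one_pos : (0 : ℝ) < 1) this) (3 : ℕ))]
      exact one_le_pow₀ this
    obtain a5 : Real.exp (-r) ≤ 1 / 10 := (exp_neg_le 3 (by push_cast; linarith only [hl])).trans (by norm_num)
    rw [e]
    have hp := Real.pi_gt_three
    generalize round ((φ.S M).X m / Real.pi) = k at *
    generalize round ((φ'.S M).X m' / Real.pi) = k' at *
    obtain a6 : |k - k'| < 1 := by
      obtain b1 : ((|k - k'| : ℤ) : ℝ) < 1 := by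
        rw [abs_le] at a1 a2 a3
        push_cast
        rw [abs_lt]
        constructor <;> nlinarith only [hE, a3, a4, a5, hp, a1, a2]
      exact_mod_cast b1
    rw [show k = k' by rw [abs_lt] at a6; omega, sub_self, abs_zero]
    exact hE.le
  have e : ∀ (ψ : Fd) k, ψ.crt c M sd k r = (sd (ψ.inn M k) (3 * r)).c := fun ψ k => if_neg hr
  obtain ⟨a1, ok, ⟨Ls, J, rJ, b, e1, e2⟩, a2⟩ := high h hS h3 hM d hr
  have s := hsd.ok _ _ a1
  have hn := d.fr.out.1
  rw [e]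
  refine ⟨s.sc, fun t ht => (s.jets t ht).2.2.1, ?_, fun φ' m' d' hm ht hx t htt => ?_⟩
  · obtain ⟨z, -, -, -, c1⟩ := s.near
    obtain ⟨c2, -, ⟨Ls', r', b'⟩, -⟩ := s.hor
    obtain c3 := rho_two h hB hR ok a1.out b b' (by linarith only [hl]) e2 c2
    obtain c4 : Real.exp (-(3 * r) / 2) ≤ Real.exp (-r) := Real.exp_le_exp.2 (by linarith only [hl])
    change c.L * |(sd (φ.inn M m) (3 * r)).c φ.t - (φ.S M).X m| ≤
      3 * |(φ.S M).rho (φ.f M) m (sd (φ.inn M m) (3 * r)).J| at c1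
    change |(φ.S M).rho (φ.f M) m J - (φ.S M).rho (φ.f M) m (sd (φ.inn M m) (3 * r)).J| ≤ _ at c3
    rw [abs_sub_comm] at c1 c3
    have c5 := abs_sub_abs_le_abs_sub ((φ.S M).rho (φ.f M) m (sd (φ.inn M m) (3 * r)).J)
      ((φ.S M).rho (φ.f M) m J)
    have hL := h.L
    refine le_of_mul_le_mul_left (a := c.L) ?_ (by linarith only [hL])
    nlinarith only [hE, e1, c4, c1, c3, c5, hL]
  · obtain ⟨a1', -, -, a2'⟩ := high h hS h3 hM d' hr
    have hr' := not_le.1 hr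
    have hn' := d'.fr.out.1
    obtain c1 := a2 (2 * (3 * r) + 3 * c.bl) (by linarith only [hl, hr])
    obtain c2 := a2' (2 * (3 * r)) (by linarith only [hl])
    rw [e]
    refine (hsd.same _ _ _ a1 a1' ht (c1.trans (show _ ≤ m by omega))
      (c2.trans (show _ ≤ m' by omega)) (fun j hj => ?_) t htt).trans
      (Real.exp_le_exp.2 (by linarith only [hl]))
    obtain hj' : (j : ℤ) ≤ ((φ.S M).Nw c m (2 * (3 * r) + 3 * c.bl) : ℤ) := by exact_mod_cast hj
    obtain c3 := hx (m - j) (by omega) (by omega)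
    rwa [show m - j - φ.n + φ'.n = m' - j by omega] at c3

end RETD

theorem retd (K : ℕ) : Hier fun c => SOK_s c → B1_s c → B3_s c → RHO_s c → RETD_s K c :=
  RETD.hK.mono fun _ h a b d e => RETD.main h a b d e K

end Pool.Agent.MP_9cbfe4_an

end
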