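import Pool.Agent.MP_9cbfe4_an.M02
import Pool.Agent.MP_9cbfe4_an.M05

set_option linter.all false

attribute [-instance] AddQuantale.instAddLeftMono IdemSemiring.toCanonicallyOrderedAdd
  NumberField.to_charZero AddQuantale.instAddRightMono IdemSemiring.toMulLeftMono RKHS.instFunLike
  Quantale.instMulRightMono Quantale.instMulLeftMono IsOrderedCancelMonoid.toIsOrderedMonoid
  LinearOrderedCommMonoidWithZero.toPosMulStrictMono
  Group.IsPerfect.subsingleton_of_isMulCommutative CanonicallyOrderedAdd.toMulLeftMono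
  Valued.toUniformSpace IdemSemiring.toMulRightMono TotallySeparatedSpace.t2Space
  LinearOrderedCommMonoidWithZero.toIsOrderedMonoid IsScalarTower.complexToReal
  Order.Coframe.toCompleteLattice OmegaCompletePartialOrder.toPartialOrder Invertible.toNeZero
  GrpTypeEquivalenceGrp.grpGroup littleWedderburn CanonicallyOrderedMul.toMulLeftMono
  CoalgHomClass.toSemilinearMapClass TestFunctionClass.toDFunLike
  ContDiffMapSupportedInClass.toDFunLike Order.Frame.toCompleteLattice RightPreLieAlgebra.toModule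
  CategoryTheory.Limits.Concrete.instUniqueToTypeTerminal LeftPreLieAlgebra.toModule
  CStarAlgebra.instOrderClosedTopology IdemSemiring.toSemiring
  LieAdmissibleRing.toNonUnitalNonAssocRing NonUnitalAlgSemiHomClass.toDistribMulActionSemiHomClass
  CStarAlgebra.toNormedRing

/-! ### Part BINVa -/

section

/-! Row BINVa: numerics of one step of a bound run. -/

namespace Pool.Agent.MP_9cbfe4_an

namespace BINVa

/-- the constraints on the constants -/
structure K (c : Cs) : Prop where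
  k1 : 1 / 16 ≤ c.k0
  k2 : c.k0 < 1 / 2
  C0 : 1 ≤ c.C0
  C1 : 1 ≤ c.C1
  e0 : 0 < c.e3
  e1 : c.e3 ≤ 1 / 10
  e2 : c.e3 ≤ 1 / c.C0
  ε0 : 0 < c.ε
  ε1 : c.ε ≤ 1 * c.e3 ^ 2
  a0 : 0 < c.a
  a1 : c.a ≤ 1
  M : 300 * (6 * c.CN * c.C0 * c.C1 + 1) / c.a ≤ c.M1
  β : 1200 / c.a ≤ c.β
  L : 1 ≤ c.L
  l1 : 5 * (6 * c.CN * c.C0 * c.C1 + 1) + 2 * c.CN * c.C1 ≤ c.lam
  l2 : 16 + 40 * c.C6 * c.Γ ≤ c.lam
  l3 : c.Γ / c.ε' ≤ c.cc
  l4 : 20 / c.e3 * c.Γ ≤ c.cc
  l5 : 200 * c.C0 * c.C1 * c.Γ ≤ c.cc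

lemma cc_ge (f : Cs → ℝ) (hf : ∀ c L, f { c with L := L } = f c) : Hier fun c => f c ≤ c.cc :=
  ((Hier.lam_ge (fun c => 20 * f c / c.ε) fun c L => by rw [hf]).and
    (Hier.ε_le_pow (fun _ => 1) 0 (by omega) (fun _ _ _ _ _ _ _ _ => rfl)
      (Hier.of_all fun _ => one_pos))).mono fun c h => by
    have := (div_le_iff₀ h.2.1).1 h.1
    unfold Cs.cc; linarith only [this]

lemma hK : Hier K := by
  have one : Hier fun _ => (0 : ℝ) < 1 := Hier.of_all fun _ => one_pos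
  have c0 := Hier.C0_ge fun _ _ _ _ => 1
  refine ((((((((((((((Hier.base.and c0).and (Hier.C1_ge fun _ _ _ _ _ => 1)).and
    (Hier.e3_le (fun _ => 1 / 10) (fun _ _ _ _ _ _ _ _ => rfl) (Hier.of_all fun _ => by norm_num))).and
    (Hier.e3_le (fun c => 1 / c.C0) (fun _ _ _ _ _ _ _ _ => rfl)
      (c0.mono fun c h => one_div_pos.2 (one_pos.trans_le h)))).and
    (Hier.ε_le_pow (fun _ => 1) 2 (by omega) (fun _ _ _ _ _ _ _ _ => rfl) one)).and
    (Hier.a_le (fun _ => 1) (fun _ _ _ _ _ _ => rfl) one)).and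
    (Hier.M1_ge (fun c => 300 * (6 * c.CN * c.C0 * c.C1 + 1) / c.a) fun _ _ _ _ => rfl)).and
    (Hier.β_ge (fun c => 1200 / c.a) fun _ _ _ => rfl)).and
    (Hier.L_ge (fun _ => 1) fun _ _ => rfl)).and
    (Hier.lam_ge (fun c => 5 * (6 * c.CN * c.C0 * c.C1 + 1) + 2 * c.CN * c.C1) fun _ _ => rfl)).and
    (Hier.lam_ge (fun c => 16 + 40 * c.C6 * c.Γ) fun _ _ => rfl)).and
    (cc_ge (fun c => c.Γ / c.ε') fun _ _ => rfl)).and
    (cc_ge (fun c => 20 / c.e3 * c.Γ) fun _ _ => rfl)).and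
    (cc_ge (fun c => 200 * c.C0 * c.C1 * c.Γ) fun _ _ => rfl)).mono ?_
  rintro c ⟨⟨⟨⟨⟨⟨⟨⟨⟨⟨⟨⟨⟨⟨h, h1⟩, h2⟩, h3⟩, h4⟩, h5⟩, h6⟩, h7⟩, h8⟩, h9⟩, h10⟩, h11⟩, h12⟩, h13⟩, h14⟩
  exact ⟨h.1, h.2.1, h1, h2, h3.1, h3.2, h4.2, h5.1, h5.2, h6.1, h6.2, h7, h8, h9, h10, h11, h12,
    h13, h14⟩

lemma ev_nonneg {c : Cs} (he : 0 ≤ c.e3) (hc : 0 ≤ c.cc) (hl : 0 ≤ c.lam) (S : Sq) (ξ s m r) :
    0 ≤ S.ev c ξ s m r := by
  unfold Sq.ev
  split_ifs with h
  · exact le_trans (add_nonneg (div_nonneg (le_max_right _ _) he) hc) h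
  · exact hl
  · exact le_rfl

lemma small {CN C0 C1 a M β lam ε W l χ : ℝ} (hN : 0 ≤ CN) (h0 : 1 ≤ C0) (h1 : 1 ≤ C1) (ha : 0 < a)
    (hM : 300 * (6 * CN * C0 * C1 + 1) / a ≤ M) (hβ : 1200 / a ≤ β)
    (hl : 5 * (6 * CN * C0 * C1 + 1) + 2 * CN * C1 ≤ lam) (hε : ε ≤ 1) (hε' : CN * ε ≤ 1)
    (hW : 0 ≤ W) (hl' : l ≤ 2 * C0 * W + 1) (hχ : M * (W - 5) ≤ χ) (hb : β * lam ≤ χ) :
    2 * CN * (C1 * l + ε * W + ε * lam / 20) + W + 2 * lam ≤ a / 100 * χ := by
  set k := 6 * CN * C0 * C1 + 1 with hk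
  obtain k0 : 0 < k := by positivity
  obtain l0 : 0 ≤ lam := le_trans (by positivity) hl
  rw [div_le_iff₀ ha] at hM hβ
  obtain b1 : 1200 * lam ≤ a * χ := by
    linarith only [mul_le_mul_of_nonneg_right hβ l0, mul_le_mul_of_nonneg_left hb ha.le]
  obtain b2 : 300 * (k * (W - 5)) ≤ a * χ := by
    rcases le_total W 5 with h | h
    · linarith only [l0, b1, mul_nonneg k0.le (sub_nonneg.2 h)]
    · linarith only [mul_le_mul_of_nonneg_right hM (sub_nonneg.2 h), mul_le_mul_of_nonneg_left hχ ha.le]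
  obtain b3 : C1 * l + ε * W ≤ 3 * C0 * C1 * W + C1 := by
    have : 1 ≤ C0 * C1 := one_le_mul_of_one_le_of_one_le h0 h1
    linarith only [mul_le_mul_of_nonneg_left hl' (zero_le_one.trans h1),
      mul_le_mul_of_nonneg_right (hε.trans this) hW]
  have b4 := mul_le_mul_of_nonneg_left b3 hN
  have b5 := mul_le_mul_of_nonneg_right hε' l0
  obtain b6 : k * (W - 5) = 2 * (CN * (3 * C0 * C1 * W)) + W - 5 * k := by rw [hk]; ring
  linarith only [hl, l0, b1, b2, b4, b5]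

end BINVa

open BINVa in
theorem binva : Hier fun c => NUM_s c → BINVa_s c := hK.mono fun c k num Ex S ξ n Ls m r p H => by
  have e0 := k.e0
  have ε0 := k.ε0
  have C0 : 0 < c.C0 := one_pos.trans_le k.C0
  have C1 : 0 < c.C1 := one_pos.trans_le k.C1
  have CN : 0 < c.CN := by unfold Cs.CN; positivity
  have C6 : 0 < c.C6 := by unfold Cs.C6; positivity
  have ε' : 0 < c.ε' := by unfold Cs.ε'; positivity
  have Γ0 : 0 < c.Γ := by unfold Cs.Γ Cs.C4; positivity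
  have l16 : 16 ≤ c.lam := le_trans (le_add_of_nonneg_right (by positivity)) k.l2
  have l0 : 0 < c.lam := by linarith only [l16]
  have cc0 : 0 < c.cc := by unfold Cs.cc; positivity
  have β1 : 1 ≤ c.β := le_trans (by rw [le_div_iff₀ k.a0]; linarith only [k.a1]) k.β
  have k0 : 0 < c.k0 := by linarith only [k.k1]
  have K1 : 1 / 2 ≤ c.chK := by
    obtain this : (2 : ℝ) ≤ 1 / c.k0 := by rw [le_div_iff₀ k0]; linarith only [k.k2]
    linarith only [Real.log_two_gt_d9, Real.log_le_log two_pos this, show c.chK = Real.log (1 / c.k0) from rfl]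
  obtain K0 : 0 < c.chK := by linarith only [K1]
  obtain K2 : c.chK ≤ c.bl := by
    obtain h1 : 1 / c.k0 ≤ 16 := by rw [div_le_iff₀ k0]; linarith only [k.k1]
    have h2 := Real.log_le_sub_one_of_pos (one_div_pos.2 k0)
    have h3 : c.lam ≤ c.bl := le_mul_of_one_le_left l0.le β1
    linarith only [l16, h1, h2, h3, show c.chK = Real.log (1 / c.k0) from rfl]
  have Q0 : 0 ≤ c.Q := mul_nonneg k.a0.le (K0.le.trans K2)
  obtain εN : c.CN * c.ε ≤ 1 := by
    unfold Cs.CN; rw [one_div, inv_mul_le_iff₀ (by positivity)]; linarith only [k.ε1]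
  obtain e31 : c.e3 ≤ 1 := k.e1.trans (by norm_num)
  obtain ε1 : c.ε ≤ 1 := k.ε1.trans (by rw [one_mul]; exact pow_le_one₀ e0.le e31)
  obtain N0 : c.C0 ≤ c.CN := by
    have := (le_div_iff₀ C0).1 k.e2
    unfold Cs.CN; rw [le_div_iff₀ (by positivity)]
    linarith only [mul_le_mul this e31 e0.le one_pos.le]
  have n0 := H.out.1
  obtain st : S.St c (S.fr (n + 1)) (n + 1) :=
    ⟨by omega, S.fr_sol _, S.fr_self _, by rw [S.fr_lt (by omega), abs_zero]; positivity⟩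
  obtain ⟨rm, nm⟩ := Sq.Chain.rinv c S H.chain
  have mp := H.step.lt
  obtain chi0 : ∀ i j, i ≤ j → 0 ≤ S.chi c i j := fun i j h =>
    le_trans (mul_nonneg K0.le (by exact_mod_cast sub_nonneg.2 h)) (S.chi_ge c K2 h)
  have A0 : ∀ j, 0 < S.AA c (S.fr (n + 1)) (n + 1) j := fun j =>
    one_pos.trans_le (S.one_le_AA c _ _ j)
  have W0 : 0 ≤ S.Wp c n p := Real.log_nonneg (S.one_le_AA c _ _ p)
  have w1 : S.Wp c n m ≤ S.Wp c n p := Real.log_le_log (A0 m) (S.AA_mono c _ _ mp.le)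
  obtain xm : ∀ V V', V ≤ V' → S.xx c n V ≤ S.xx c n V' := fun V V' h => by
    have := mul_le_mul_of_nonneg_left (S.load_mono c K0 K2 C0.le n h) C1.le
    have := mul_le_mul_of_nonneg_left h ε0.le
    unfold Sq.xx; linarith
  obtain ⟨V, hV⟩ : ∃ V, V = S.Wt c (S.fr (n + 1)) (n + 1) m r := ⟨_, rfl⟩
  have v1 : V ≤ S.Wp c n p := hV ▸ max_le w1 H.step.A_lo
  obtain v2 : S.Wp c n p ≤ V + 5 := by
    have h1 : S.AA c (S.fr (n + 1)) (n + 1) m ≤ Real.exp V :=
      (Real.log_le_iff_le_exp (A0 m)).1 (hV ▸ le_max_left _ _)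
    obtain h2 : |S.fr (n + 1) m| * Real.exp r ≤ Real.exp V := by
      rw [← Real.exp_log (abs_pos.2 rm.ne), ← Real.exp_add]
      exact Real.exp_le_exp.2 (hV ▸ le_max_right _ _)
    obtain h3 : (101 : ℝ) ≤ Real.exp 5 := by
      have := Real.exp_one_gt_d9
      obtain h : Real.exp 5 = Real.exp 1 ^ 5 := by rw [← Real.exp_nat_mul]; norm_num
      rw [h]; exact le_trans (by norm_num) (pow_le_pow_left₀ (by norm_num) this.le 5)
    refine (Real.log_le_iff_le_exp (A0 p)).2 (H.step.A_hi.trans ?_)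
    rw [Real.exp_add]; linarith only [h1, h2, mul_le_mul_of_nonneg_left h3 (Real.exp_pos V).le]
  have c2 := H.pbd.2.c2
  have c3 := H.pbd.2.c3
  rw [← hV] at c2 c3
  obtain M0 : 0 ≤ c.M1 := le_trans (by have := k.a0; positivity) k.M
  obtain g0 : c.M1 * (S.Wp c n p - 5) ≤ S.chi c n m :=
    (mul_le_mul_of_nonneg_left (by linarith only [v2]) M0).trans c2
  obtain bl : c.bl ≤ S.chi c n m := by
    rw [S.chi_add c (by omega : n ≤ n + 1) nm, S.chi_succ]
    unfold Sq.ch1; rw [H.binv.kz.1]; linarith only [chi0 _ _ nm]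
  obtain ec : S.evs c (S.fr (n + 1)) (n + 1) ((m, r) :: Ls) =
      S.ev c (S.fr (n + 1)) (n + 1) m r + S.evs c (S.fr (n + 1)) (n + 1) Ls := by simp [Sq.evs]
  obtain ev : S.evs c (S.fr (n + 1)) (n + 1) ((m, r) :: Ls) ≤ S.xp c n p := by
    rw [ec, add_comm]; exact c3.trans (xm _ _ v1)
  have x1 : S.xp c n m ≤ S.xp c n p := xm _ _ w1
  obtain x2 : c.ε * S.Wp c n p + c.cc ≤ S.xp c n p := by
    have := mul_nonneg C1.le (S.load_nonneg c n (S.Wp c n p))
    unfold Sq.xp Sq.xx; linarith only [this]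
  have εW := mul_nonneg ε0.le W0
  obtain x3 : c.cc ≤ S.xp c n p := by linarith only [x2, εW]
  obtain sm : 2 * c.CN * S.xp c n p + S.Wp c n p + 2 * c.lam ≤ c.a / 100 * S.chi c n m := by
    have := S.load_le c K1 K2 C0.le Q0 n (S.Wp c n p)
    rw [max_eq_left W0] at this
    exact small CN.le k.C0 k.C1 k.a0 k.M k.β k.l1 ε1 εN W0 this g0 bl
  obtain rl : r ≤ 11 / 10 * S.xp c n p + c.cc := by
    by_cases h : S.sg c (S.fr (n + 1)) (n + 1) m / c.e3 + c.cc ≤ r
    · obtain h1 : S.ev c (S.fr (n + 1)) (n + 1) m r = r := by unfold Sq.ev; rw [if_pos h]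
      obtain h2 : 0 ≤ S.evs c (S.fr (n + 1)) (n + 1) Ls := List.sum_nonneg fun x hx => by
        obtain ⟨y, -, rfl⟩ := List.mem_map.1 hx
        exact ev_nonneg e0.le cc0.le l0.le ..
      linarith only [cc0, ec, ev, x2, εW, h1, h2]
    · obtain h1 : S.sg c (S.fr (n + 1)) (n + 1) m / c.e3 ≤ 11 / 10 * S.xp c n p := by
        rw [div_le_iff₀ e0]
        obtain h2 : c.ε' ≤ c.e3 / 10 := by
          have : c.e3 ^ 2 ≤ 1 := pow_le_one₀ e0.le e31
          obtain h : c.ε' = c.e3 * c.e3 * c.e3 ^ 2 := by unfold Cs.ε'; ring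
          linarith only [h, mul_le_mul (mul_le_mul_of_nonneg_left k.e1 e0.le) this (sq_nonneg _)
            (by positivity)]
        have h3 := mul_le_mul h2 x1
        obtain h4 : 0 ≤ S.xp c n m := by
          have := mul_nonneg C1.le (S.load_nonneg c n (S.Wp c n m))
          have := mul_nonneg ε0.le (show 0 ≤ S.Wp c n m from Real.log_nonneg (S.one_le_AA c _ _ m))
          unfold Sq.xp Sq.xx; linarith
        linarith only [e0, H.binv.sg_le, h3 h4 (by positivity)]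
      linarith only [h1, not_le.1 h]
  obtain ld : S.load c m (2 * r) ≤ S.qu c.Q n m := by
    refine S.load_le_qu c K0 K2 (by omega) ?_
    obtain h1 := mul_le_mul_of_nonneg_left (show r ≤ 21 / 10 * S.xp c n p by linarith only [x2, εW, rl]) C0.le
    have h2 := mul_le_mul_of_nonneg_right N0 (cc0.le.trans x3)
    obtain h3 := mul_le_mul_of_nonneg_right k.a1 (chi0 n m (by omega))
    linarith only [l16, K0, K2, W0, bl, sm, h1, h2, h3, chi0 n m (by omega)]
  have lds : ∀ x ∈ (m, r) :: Ls, S.load c x.1 (2 * x.2) ≤ S.qu c.Q n x.1 :=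
    List.forall_mem_cons.2 ⟨ld, H.binv.loads⟩
  obtain b0 : c.Γ = S.sg c (S.fr (n + 1)) (n + 1) (n + 1) + c.Γ * S.qu c.Q n (n + 1) + c.Γ := by
    rw [S.qu_succ _ le_rfl, S.qu_self, H.binv.kz.1, max_eq_right (by linarith only [Q0])]
    simp [Sq.sg, Sq.sig, Sq.WW, S.AA_self, S.fr_self]
  obtain ⟨u1, u2, u3, u4, -⟩ := num Ex S _ _ _ _ p c.Q n c.Γ H.ok st.1 le_rfl (by omega)
    (by linarith only [Q0]) le_rfl (.cons H.chain H.step H.rinv) lds b0
  rw [if_neg (by linarith only [H.binv.kz.2.2])] at u3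
  rw [S.fr_self, abs_one, Real.log_one] at u4
  obtain lg : Real.log |S.fr (n + 1) p| ≤ S.Wp c n p + c.lam + 4 := by
    obtain ⟨-, -, h⟩ := Sq.cert_wh H.ok k.k1 k.k2 (by linarith only [l16]) K2 st le_rfl
    obtain ⟨h1, h2⟩ := h (p - 1) (by omega)
    rw [sub_add_cancel, H.rinv.whm] at h1
    rw [sub_add_cancel] at h2
    have L0 : 0 < c.L := one_pos.trans_le k.L
    obtain h3 : (36 : ℝ) ≤ Real.exp 4 := by
      have := Real.exp_one_gt_d9
      obtain h : Real.exp 4 = Real.exp 1 ^ 4 := by rw [← Real.exp_nat_mul]; norm_num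
      rw [h]; exact le_trans (by norm_num) (pow_le_pow_left₀ (by norm_num) this.le 4)
    rw [Real.log_le_iff_le_exp (abs_pos.2 H.rinv.ne), Real.exp_add, Real.exp_add, Sq.Wp, Sq.WW,
      Real.exp_log (A0 p), Cs.lam, Real.exp_log L0]
    linarith only [h1, mul_le_mul_of_nonneg_left h2 L0.le,
      mul_le_mul_of_nonneg_left h3 (mul_pos (A0 p) L0).le]
  obtain ln : ((((m, r) :: Ls).length : ℕ) : ℝ) * c.lam ≤ 10 * (S.Wp c n p + c.lam) := by
    linarith only [l16, W0, u4, lg, k.l2]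
  refine ⟨ev, g0.trans ?_, ?_, (le_div_iff₀ l0).2 ln, ?_, ?_, lds, bl,
    ⟨w1, S.load_mono c K0 K2 C0.le n w1, x1⟩, rl, ?_, sm⟩
  · rw [S.chi_add c (by omega : n ≤ m) mp.le]; linarith only [chi0 _ _ mp.le]
  · have h1 := (div_le_iff₀ ε').1 (k.l3.trans x3)
    have h2 := mul_nonneg Γ0.le (S.qu_nonneg c.Q n p)
    have h3 := mul_le_mul_of_nonneg_left ev ε'.le
    linarith only [u1, h1, h2, h3]
  · have h1 := mul_le_mul_of_nonneg_left ln ε0.le
    have h2 : c.cc = c.ε * c.lam / 20 := rfl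
    obtain h3 : c.cc * ((((m, r) :: Ls).length : ℕ) : ℝ) ≤ c.ε * S.Wp c n p / 2 + 10 * c.cc := by
      rw [h2]; linarith only [h1]
    linarith only [cc0, ev, x2, εW, u2, h3, k.l4]
  · obtain h1 : S.NK n (n + 1) = 0 := by
      rw [Sq.NK, show Finset.Ioc n (n + 1) = {n + 1} by ext; simp; omega, Finset.sum_singleton,
        H.binv.kz.1]
    have h2 := mul_le_mul_of_nonneg_left ev CN.le
    have h3 := mul_le_mul_of_nonneg_left (k.l5.trans x3) CN.le
    rw [S.NK_add (by omega : n ≤ n + 1) (by omega), h1]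
    linarith only [u3, h2, h3]
  · exact (mul_le_mul_of_nonneg_left (ld.trans (S.qu_le_NK Q0 n m)) l0.le).trans
      (H.binv.nk.trans (mul_le_mul_of_nonneg_left x1 CN.le))

end Pool.Agent.MP_9cbfe4_an

end

/-! ### Part BINVc -/

section

/-! Row BINVc: the last item of (I6) along a bound run. -/

namespace Pool.Agent.MP_9cbfe4_an

open Finset Real

namespace BINVc

/-- the constants used in this row -/
structure K (c : Cs) : Prop where
  a0 : 0 < c.a
  a1 : c.a ≤ 1 / 10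
  ab : 100 ≤ c.a * c.bl
  k1 : 2 / 3 ≤ c.chK
  k2 : c.chK ≤ c.bl
  cn : 1 ≤ c.CN
  e0 : 0 < c.ε
  e1 : c.ε ≤ 1
  c1 : 0 ≤ c.C1
  l1 : 1 ≤ c.lam
  L1 : 1 ≤ c.L

lemma hK : Hier K := by
  obtain h1 := Hier.a_le (fun _ => 1 / 10) (fun _ _ _ _ _ _ => rfl) (Hier.of_all fun _ => by norm_num)
  have h2 := Hier.β_ge (fun c => 100 / c.a + 16) fun _ _ _ => rfl
  have h3 := Hier.lam_ge (fun _ => 1) fun _ _ => rfl
  have h4 := Hier.L_ge (fun _ => 1) fun _ _ => rfl
  have h5 := Hier.e3_le (fun _ => 1) (fun _ _ _ _ _ _ _ _ => rfl) (Hier.of_all fun _ => one_pos)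
  have h6 := Hier.C1_ge fun _ _ _ _ _ => 0
  refine (h1.and (h2.and (h3.and (h4.and (h5.and (h6.and (Hier.ε_eq.and Hier.base))))))).mono ?_
  rintro c ⟨⟨a0, a1⟩, b, l, L, ⟨e0, e1⟩, c1, he, k0, k1, -⟩
  obtain hb : 100 ≤ c.a * (c.β - 16) := by
    obtain this : 100 / c.a ≤ c.β - 16 := by linarith only [b]
    rwa [div_le_iff₀ a0, mul_comm] at this
  obtain hb0 : 16 ≤ c.β := by have := div_pos (by norm_num : (0 : ℝ) < 100) a0; linarith only [b, this]
  obtain hbl : c.β ≤ c.bl := by unfold Cs.bl; nlinarith only [l, a0, hb]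
  obtain k00 : 0 < c.k0 := by linarith only [a0, a1, k0]
  refine ⟨a0, a1, by nlinarith only [hb, a0, a1, hbl], ?_, ?_, ?_, he ▸ pow_pos e0 _, he ▸ pow_le_one₀ e0.le e1, c1, l, L⟩
  · obtain this : (2 : ℝ) ≤ 1 / c.k0 := by rw [le_div_iff₀ k00]; linarith only [k1]
    have h := log_le_log two_pos this
    have := log_two_gt_d9
    unfold Cs.chK; linarith only [h, this]
  · obtain this : 1 / c.k0 ≤ 16 := by rw [div_le_iff₀ k00]; linarith only [k0]
    have h := log_le_sub_one_of_pos (one_div_pos.2 k00)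
    unfold Cs.chK; linarith only [hb0, hbl, this, h]
  · unfold Cs.CN
    rw [le_div_iff₀ (pow_pos e0 2), one_mul]
    exact pow_le_one₀ e0.le e1

lemma half {x : ℝ} (hx : 0 ≤ x) : 1 / 2 ≤ 1 - exp (-x / 4) / 2 := by
  obtain this : exp (-x / 4) ≤ 1 := exp_le_one_iff.2 (by linarith only [hx])
  linarith only [this]

lemma big {x y k : ℝ} (hk : k ≤ 200) (h : x + 6 ≤ y) : k * exp x ≤ exp y := by
  obtain h1 : (200 : ℝ) ≤ exp 6 := by
    obtain h2 : exp 6 = exp 1 ^ 6 := by rw [← exp_nat_mul]; norm_num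
    obtain h3 : (2.7 : ℝ) ^ 6 ≤ exp 1 ^ 6 :=
      pow_le_pow_left₀ (by norm_num) (by have := exp_one_gt_d9; linarith only [this]) 6
    rw [h2]; refine le_trans ?_ h3; norm_num
  calc k * exp x ≤ exp 6 * exp x := mul_le_mul_of_nonneg_right (hk.trans h1) (exp_pos _).le
    _ = exp (x + 6) := by rw [exp_add, mul_comm]
    _ ≤ exp y := exp_le_exp.2 h

lemma gap {x y : ℝ} (h : 2 / 3 ≤ y) : exp (-(x + y) / 4) ≤ 9 / 10 * exp (-x / 4) := by
  obtain h1 : exp (-y / 4) ≤ 9 / 10 := by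
    obtain h2 : 1 + y / 4 ≤ exp (y / 4) := by linarith only [add_one_le_exp (y / 4)]
    rw [neg_div, exp_neg, inv_le_comm₀ (exp_pos _) (by norm_num)]
    linarith only [h, h2]
  rw [show -(x + y) / 4 = -y / 4 + -x / 4 by ring, exp_add]
  exact mul_le_mul_of_nonneg_right h1 (exp_pos _).le

variable {c : Cs} (k : K c) (S : Sq)
include k

lemma chi0 {i j : ℤ} (h : i ≤ j) : 0 ≤ S.chi c i j :=
  le_trans (mul_nonneg (by linarith only [k.k1]) (by exact_mod_cast sub_nonneg.2 h)) (S.chi_ge c k.k2 h)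

lemma chi1 {i j : ℤ} (h : i < j) : 2 / 3 ≤ S.chi c i j := by
  obtain h1 : (1 : ℝ) ≤ ((j - i : ℤ) : ℝ) := by exact_mod_cast (by omega : 1 ≤ j - i)
  have := S.chi_ge c k.k2 h.le
  nlinarith only [h1, this, k.k1]

lemma chib {n i : ℤ} (h0 : S.kk (n + 1) = 0) (h : n < i) : 100 ≤ c.a * S.chi c n i := by
  obtain h1 := S.chi_add c (i := n) (j := n + 1) (l := i) (by omega) h
  obtain h2 : S.chi c n (n + 1) = c.bl := by rw [S.chi_succ, Sq.ch1, h0]; ring
  have := mul_nonneg k.a0.le (chi0 k S (show n + 1 ≤ i from h))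
  rw [h1, h2, mul_add]
  linarith only [this, k.ab]

lemma ff2 {s i : ℤ} (h : s ≤ i) : 0 ≤ S.ff c s i ∧ S.ff c s i ≤ 2 := by
  obtain h1 : exp (-S.chi c s i / 24) ≤ 1 := exp_le_one_iff.2 (by linarith only [chi0 k S h])
  have := exp_pos (-S.chi c s i / 24)
  unfold Sq.ff; constructor <;> linarith only [h1, this]

lemma rle {n m p : ℤ} {Ls : List (ℤ × ℝ)} {r : ℝ} (f : S.BF c n Ls m r p) :
    r ≤ c.a / 100 * S.chi c n m := by
  have hW : 0 ≤ S.Wp c n p := log_nonneg (S.one_le_AA c _ _ _)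
  obtain hc : 0 ≤ c.cc ∧ c.cc ≤ c.lam := by
    unfold Cs.cc; constructor <;> nlinarith only [k.e0, k.e1, k.l1]
  have hx : 0 ≤ S.xp c n p :=
    add_nonneg (add_nonneg (mul_nonneg k.c1 (S.load_nonneg c _ _)) (mul_nonneg k.e0.le hW)) hc.1
  have := mul_le_mul_of_nonneg_right k.cn hx
  linarith only [hW, hc, hx, this, f.r_le, f.small, k.l1]

end BINVc

open BINVc

theorem binvc : Hier fun c => BLK_s c → BINVc_s c := hK.mono fun c k hB => by
  intro Ex S ξ n Ls m r p h f i hi j hij hjp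
  obtain ⟨hm, hnm⟩ := Sq.Chain.rinv c S h.chain
  have hmp := h.step.lt
  have hr := rle k S f
  have h1 : S.fr (n + 1) (n + 1) ≠ 0 := by rw [S.fr_self]; exact one_ne_zero
  have wpos : ∀ l, n < l → 0 < S.wp c n l := fun l hl => S.wh_pos c h1 hl
  have hL : 0 < c.L := by linarith only [k.L1]
  have hbi := chib k S h.binv.kz.1 hi
  have hbm := chib k S h.binv.kz.1 (show n < m from hnm)
  have hwm : S.wp c n m = |S.fr (n + 1) m| := hm.whm
  have hm0 : 0 < |S.fr (n + 1) m| := abs_pos.2 hm.ne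
  have hj := wpos j (by omega)
  have hip := chi0 k S (show i ≤ p by omega)
  rcases le_or_gt j m with hjm | hjm
  · refine ((h.binv.i6 i hi (by omega)).2.2.2 j hij hjm).trans
      (mul_le_mul_of_nonneg_left ?_ (exp_pos _).le)
    have e := S.chi_add c (show i ≤ m by omega) hmp.le
    have : exp (-S.chi c i p / 4) ≤ exp (-S.chi c i m / 4) :=
      exp_le_exp.2 (by linarith only [e, chi0 k S hmp.le])
    linarith only [this]
  rcases lt_trichotomy i m with him | rfl | him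
  · have a1 := h.step.ins3 i j hi him hjm hjp
    have a2 := (h.binv.i6 i hi him.le).2.2.2 m him le_rfl
    obtain ⟨a3, a4⟩ := hm.i2 i hi him
    obtain ⟨f0, f2⟩ := ff2 k S (show n + 1 ≤ i from hi)
    have hwi := wpos i hi
    have e1 := S.chi_add c him.le hmp.le
    have e2 := S.chi_add c hi.le him.le
    have c0 := chi0 k S him.le
    change _ ≤ _ * S.wp c n j at a1
    change _ * S.wp c n i ≤ _ at a3
    change S.wp c n i ≤ _ at a4
    change _ ≤ (_ + _ * (_ * S.wp c n i) / _) * _ at a1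
    unfold Sq.Bc at a2 ⊢
    rw [hwm] at a2
    set W := |S.fr (n + 1) m|
    set P := S.PB c (2 / 100) i m * S.wp c n i
    set E1 := exp (-(1 - c.a) * S.chi c i m)
    set E2 := exp (c.a * S.chi c i m)
    have E10 : 0 < E1 := exp_pos _
    have E20 : 0 < E2 := exp_pos _
    have b3 : P / W ≤ 2 * E1 := by
      rw [div_le_iff₀ hm0]; exact a3.trans (by (clear * - f2 hm0; gcongr))
    have b4 : S.wp c n i / W ≤ 2 * E2 := by
      rw [div_le_iff₀ hm0]; exact a4.trans (by (clear * - f2 hm0; gcongr))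
    have b5 : P / W * (S.wp c n i / W) ≤ 2 * E1 * (2 * E2) :=
      mul_le_mul b3 b4 (by (clear * - hwi hm0; positivity)) (by positivity)
    have b1 : |S.fr (i + 1) j| * c.L * S.wp c n i / S.wp c n j ≤
        |S.fr (i + 1) m| * c.L * S.wp c n i / W + 2 * exp r * (P / W * (S.wp c n i / W)) := by
      rw [div_le_iff₀ hj]
      have := mul_le_mul_of_nonneg_right a1 (show 0 ≤ c.L * S.wp c n i / W by (clear * - hL hwi hm0; positivity))
      calc _ = |S.fr (i + 1) j| * W * (c.L * S.wp c n i / W) := by field_simp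
        _ ≤ _ := this
        _ = _ := by field_simp
    have b6 : 160 * exp (r + (-(1 - c.a) * S.chi c i m + c.a * S.chi c i m)) ≤
        exp (c.a / 8 * S.chi c n i + -S.chi c i m / 4) := by
      refine big (by norm_num) ?_
      have := mul_le_mul_of_nonneg_right k.a1 c0
      rw [e2] at hr
      linarith only [hr, hbi, c0, this]
    rw [exp_add, exp_add, exp_add] at b6
    have b7 := gap (x := S.chi c i m) (chi1 k S hmp)
    rw [← e1] at b7
    have b8 := mul_le_mul_of_nonneg_left b7 (exp_pos (c.a / 8 * S.chi c n i)).le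
    have b9 := mul_le_mul_of_nonneg_left b5 (exp_pos r).le
    change 160 * (exp r * (E1 * E2)) ≤ _ at b6
    linarith only [a2, b1, b8, b9, b6]
  · have a1 := h.step.ins1 j hjm hjp
    change _ ≤ _ * S.wp c n j at a1
    have b1 : S.Bc c (S.wp c n) i j ≤ 2 * exp r := by
      unfold Sq.Bc
      rw [div_le_iff₀ hj, hwm]; exact a1
    have b2 : 4 * exp r ≤ exp (c.a / 8 * S.chi c n i) := big (by norm_num) (by linarith only [hbi, hr])
    have := mul_le_mul_of_nonneg_left (half hip) (exp_pos (c.a / 8 * S.chi c n i)).le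
    linarith only [b1, b2, this]
  · obtain ⟨Ls', g1, g2, -⟩ := h.inner.resolve_left (by omega)
    have hρ : S.rho (S.fr (n + 1)) m p ≠ 0 := div_ne_zero h.rinv.ne (mul_ne_zero hm.ne g1.ne)
    have hSt : S.St c (S.fr (n + 1)) (n + 1) :=
      ⟨by linarith only [h.out.1], S.fr_sol _, S.fr_self _, by
        rw [S.fr_lt (by omega), abs_zero]; exact (exp_pos _).le⟩
    have hb := (hB S _ _ m Ls' p h.ok hSt hm g1 g2 hρ).2
    have a4 := (hb j hjm hjp).2.2.2.1
    have a5 := (hb i him (by omega)).2.2.2.2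
    obtain ⟨-, a6, -, a7⟩ := g2.i6 i him (by omega)
    have a8 := a7 j hij hjp
    have h2 : S.fr (m + 1) (m + 1) ≠ 0 := by rw [S.fr_self]; exact one_ne_zero
    have vi : 0 < S.wp c m i := S.wh_pos c h2 him
    have vj : 0 < S.wp c m j := S.wh_pos c h2 hjm
    have ρ0 := abs_pos.2 hρ
    have hρr : exp r = c.L / |S.rho (S.fr (n + 1)) m p| := by
      rw [h.step.hr, Sq.dep, exp_log (div_pos hL ρ0)]
    have c0 := chi0 k S him.le
    have e2 := S.chi_add c (show n ≤ m by omega) him.le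
    change _ ≤ 2 * S.wp c n j at a4
    change S.wp c n i ≤ _ at a5
    set W := |S.fr (n + 1) m|
    set ρ := |S.rho (S.fr (n + 1)) m p|
    set R := c.a / 100 * S.chi c n m
    have R1 : 1 ≤ exp R := one_le_exp (by simp only [R]; linarith only [hbm])
    have b1 : exp (-S.chi c m i / 2) ≤ exp R * (ρ * S.wp c m i) := by
      have t1 : exp (-S.chi c m i / 2) ≤ S.wp c m i := by
        refine le_trans (exp_le_exp.2 ?_) a6
        have := mul_le_mul_of_nonneg_right k.a1 c0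
        linarith only [c0, this]
      have t2 : 1 ≤ exp R * ρ := by
        have t3 : c.L / ρ ≤ exp R := hρr ▸ exp_le_exp.2 hr
        rw [div_le_iff₀ ρ0] at t3
        linarith only [t3, k.L1]
      nlinarith only [t1, vi, t2]
    have b2 : S.wp c n i ≤ W * (2 * exp R * (ρ * S.wp c m i)) := by
      refine a5.trans (mul_le_mul_of_nonneg_left ?_ hm0.le)
      have := mul_le_mul_of_nonneg_right R1 (mul_pos ρ0 vi).le
      linarith only [b1, this]
    have b3 : S.Bc c (S.wp c m) i j ≤ exp (c.a / 8 * S.chi c m i) := by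
      refine a8.trans (mul_le_of_le_one_right (exp_pos _).le ?_)
      linarith only [exp_pos (-S.chi c i p / 4)]
    have b4 : S.Bc c (S.wp c n) i j ≤ 4 * exp R * exp (c.a / 8 * S.chi c m i) := by
      unfold Sq.Bc at b3 ⊢
      rw [div_le_iff₀ vj] at b3
      rw [div_le_iff₀ hj]
      calc _ ≤ |S.fr (i + 1) j| * c.L * (W * (2 * exp R * (ρ * S.wp c m i))) := by (clear * - b2 hL; gcongr)
        _ = 2 * exp R * (W * ρ) * (|S.fr (i + 1) j| * c.L * S.wp c m i) := by ring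
        _ ≤ 2 * exp R * (W * ρ) * (exp (c.a / 8 * S.chi c m i) * S.wp c m j) := by (clear * - b3 hm0 hρ; gcongr)
        _ = 2 * exp R * exp (c.a / 8 * S.chi c m i) * (W * ρ * S.wp c m j) := by ring
        _ ≤ 2 * exp R * exp (c.a / 8 * S.chi c m i) * (2 * S.wp c n j) := by (clear * - a4; gcongr)
        _ = _ := by ring
    have b5 : 8 * exp (R + c.a / 8 * S.chi c m i) ≤ exp (c.a / 8 * S.chi c n i) :=
      big (by norm_num) (by rw [e2]; simp only [R]; linarith only [hbm])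
    rw [exp_add] at b5
    have := mul_le_mul_of_nonneg_left (half hip) (exp_pos (c.a / 8 * S.chi c n i)).le
    linarith only [b4, b5, this]

end Pool.Agent.MP_9cbfe4_an

end

/-! ### Part SUFa -/

section

/-! Row SUFa: extension of a suffix certificate by one step. -/

namespace Pool.Agent.MP_9cbfe4_an

open Finset

namespace SUFa

/-- numeric facts used in this file -/
structure Big (c : Cs) : Prop where
  k_lo : 1 / 16 ≤ c.k0
  k_hi : c.k0 < 1 / 2
  a0 : 0 < c.a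
  a1 : c.a ≤ 1 / 100
  lam : 600000 ≤ c.lam
  L1 : 1 ≤ c.L
  β : 100 ≤ c.β
  aβ : 1 ≤ c.a * c.β
  alam : 300000 ≤ c.a * c.lam

theorem big : Hier Big := by
  obtain ha : Hier fun c => 0 < c.a ∧ c.a ≤ 1 / 100 :=
    Hier.a_le (fun _ => 1 / 100) (fun _ _ _ _ _ _ => rfl) (Hier.of_all fun _ => by norm_num)
  refine (Hier.base.and (ha.and ((Hier.lam_ge (fun _ => 600000) fun _ _ => rfl).and
    ((Hier.L_ge (fun _ => 1) fun _ _ => rfl).and ((Hier.β_ge (fun _ => 100) fun _ _ _ => rfl).and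
    ((Hier.β_ge (fun c => 1 / c.a) fun _ _ _ => rfl).and
    (Hier.lam_ge (fun c => 300000 / c.a) fun _ _ => rfl))))))).mono ?_
  rintro c ⟨h0, ⟨h1, h2⟩, h3, h4, h5, h6, h7⟩
  refine ⟨h0.1, h0.2.1, h1, h2, h3, h4, h5, ?_, ?_⟩
  · rw [div_le_iff₀ h1] at h6; linarith only [h6]
  · rw [div_le_iff₀ h1] at h7; linarith only [h7]

variable {c : Cs} {S : Sq}

theorem Big.chK_lo (h : Big c) : 2 / 3 ≤ c.chK := by
  obtain h0 : 0 < c.k0 := by linarith only [h.k_lo]
  obtain h1 : (2 : ℝ) ≤ 1 / c.k0 := by rw [le_div_iff₀ h0]; linarith only [h.k_hi]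
  obtain this := Real.log_le_log (by norm_num) h1
  have := Real.log_two_gt_d9
  unfold Cs.chK; (rename_i zq0; linarith only [zq0, this])

theorem Big.bl_lo (h : Big c) : 100 ≤ c.bl := by
  unfold Cs.bl; nlinarith only [h.β, h.lam]

theorem Big.chK_le (h : Big c) : c.chK ≤ c.bl := by
  obtain h0 : 0 < c.k0 := by linarith only [h.k_lo]
  obtain h1 : 1 / c.k0 ≤ 16 := by rw [div_le_iff₀ h0]; linarith only [h.k_lo]
  obtain h2 := Real.log_le_sub_one_of_pos (show 0 < 1 / c.k0 by positivity)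
  have := h.bl_lo
  unfold Cs.chK; linarith only [h1, h2, this]

theorem Big.chi_nonneg (h : Big c) {i j : ℤ} (hij : i ≤ j) : 0 ≤ S.chi c i j := by
  have h1 := S.chi_ge c h.chK_le hij
  obtain h2 : (0 : ℝ) ≤ ((j - i : ℤ) : ℝ) := by exact_mod_cast sub_nonneg.2 hij
  have := h.chK_lo
  exact le_trans (by (clear * - this hij; positivity)) h1

theorem Big.ff_mem (h : Big c) {s i : ℤ} (hi : s ≤ i) : 1 ≤ S.ff c s i ∧ S.ff c s i ≤ 2 := by
  have h1 := h.chi_nonneg (S := S) hi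
  obtain h2 : Real.exp (-S.chi c s i / 24) ≤ 1 := Real.exp_le_one_iff.2 (by linarith only [h1])
  have h3 := Real.exp_pos (-S.chi c s i / 24)
  unfold Sq.ff; constructor <;> linarith only [h2, h3]

theorem Big.exp_lam (h : Big c) : Real.exp c.lam = c.L := Real.exp_log (by linarith only [h.L1])

variable {f : ℝ} {ξ w A : ℤ → ℝ} {Rg : Finset ℤ} {s s' n m p : ℤ}

/-- the end value of `w` is controlled by `A` -/
theorem lo' (h : S.SufI c f ξ w A Rg s' m) (hL : 1 ≤ c.L) (hs : s' ≤ m) (hw : 0 < w m)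
    (hf : s' < m → w m ≤ 6 * c.L * w (m - 1)) : w m ≤ 36 * c.L * A m := by
  rcases hs.eq_or_lt with rfl | hlt
  · nlinarith only [hw, hL, h.lo]
  · have h1 := h.dd m hs le_rfl
    obtain h2 : |S.fr (m - 1 + 1) m| * c.L * w (m - 1) ^ 2 ≤ S.DD c w s' m :=
      single_le_sum (f := fun i => |S.fr (i + 1) m| * c.L * w i ^ 2)
        (fun i _ => by positivity) (mem_Ico.2 ⟨by omega, by omega⟩)
    rw [sub_add_cancel, S.fr_self, abs_one, one_mul] at h2
    have h3 := hf hlt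
    have h4 : w m ^ 2 ≤ (6 * c.L * w (m - 1)) ^ 2 := pow_le_pow_left₀ hw.le h3 2
    obtain h5 : w m * w m ≤ (36 * c.L * A m) * w m := by nlinarith only [h1, h2, h4, hL]
    exact le_of_mul_le_mul_right h5 hw

/-- extension of `A` by a jump after time `n` -/
noncomputable def ext (A : ℤ → ℝ) (n : ℤ) (B : ℝ) (j : ℤ) : ℝ := if j ≤ n then A j else A n + B

theorem ext_le {B : ℝ} {j : ℤ} (h : j ≤ n) : ext A n B j = A j := if_pos h
theorem ext_gt {B : ℝ} {j : ℤ} (h : n < j) : ext A n B j = A n + B := if_neg (not_le.2 h)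

theorem ext_mono (h : S.SufI c f ξ w A Rg s' n) {B : ℝ} (hB : 0 ≤ B) (i j : ℤ) (h1 : s' ≤ i)
    (h2 : i ≤ j) : ext A n B i ≤ ext A n B j := by
  by_cases hj : j ≤ n
  · rw [ext_le hj, ext_le (h2.trans hj)]; exact h.mono _ _ h1 h2 hj
  · rw [ext_gt (not_le.1 hj)]
    by_cases hi : i ≤ n
    · rw [ext_le hi]; linarith only [hB, h.mono _ _ h1 hi le_rfl]
    · rw [ext_gt (not_le.1 hi)]

/-- the new indices are all irregular -/
theorem irr (h : S.SufI c f ξ w A Rg s' n) (hb : Big c) (hs : s' ≤ n) (hp : n < p) {B : ℝ}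
    (hB : 0 ≤ B) (hA : 0 < A n)
    (hdd : ∀ j, n < j → j ≤ p → S.DD c w s' j ≤ (A n + B) * w j)
    (hc : Real.log ((A n + B) / A n) ≤ 3 * c.a * S.chi c n p)
    (hr : c.bl ≤ S.chi c n p ∨ (n - 1 ∉ Rg ∧ n ≠ s')) : S.SufI c f ξ w (ext A n B) Rg s' p := by
  have hchi := S.chi_add c hs hp.le
  obtain hbl : 0 < c.bl := by linarith only [hb.bl_lo]
  have hnn := hb.chi_nonneg (S := S) hp.le
  refine ⟨fun i j h1 h2 _ => ext_mono h hB i j h1 h2, by rw [ext_le hs]; exact h.lo,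
    fun j h1 h2 => ?_, h.sub.trans (Ico_subset_Ico_right hp.le),
    fun i hi => ?_, ?_, ?_⟩
  · by_cases hj : j ≤ n
    · rw [ext_le hj]; exact h.dd j h1 hj
    · rw [ext_gt (not_le.1 hj)]; exact hdd j (not_le.1 hj) h2
  · have := mem_Ico.1 (h.sub hi)
    rw [ext_le (by omega)]; exact h.reg i hi
  · have h0 := h.runs
    obtain key : ∀ i ∈ (Ico s' p).filter fun i => i ∉ Rg ∧ (i - 1 ∈ Rg ∨ i = s'), i ≤ n := by
      intro i hi
      obtain ⟨-, -, h2 | h2⟩ := mem_filter.1 hi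
      · have := mem_Ico.1 (h.sub h2); omega
      · omega
    rcases hr with hr | hr
    · obtain h1 : ((Ico s' p).filter fun i => i ∉ Rg ∧ (i - 1 ∈ Rg ∨ i = s')) ⊆
          insert n ((Ico s' n).filter fun i => i ∉ Rg ∧ (i - 1 ∈ Rg ∨ i = s')) := by
        intro i hi
        have h2 := key i hi
        obtain ⟨h3, h4⟩ := mem_filter.1 hi
        rcases h2.eq_or_lt with e | e
        · exact mem_insert.2 (Or.inl e)
        · exact mem_insert_of_mem (mem_filter.2 ⟨mem_Ico.2 ⟨(mem_Ico.1 h3).1, e⟩, h4⟩)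
      have h2 := (card_le_card h1).trans (card_insert_le _ _)
      obtain h3 : 1 ≤ S.chi c n p / c.bl := by rwa [le_div_iff₀ hbl, one_mul]
      rw [hchi, add_div]
      have h4 := (Nat.cast_le (α := ℝ)).2 h2
      push_cast at h4
      linarith only [h0, h3, h4]
    · obtain h1 : ((Ico s' p).filter fun i => i ∉ Rg ∧ (i - 1 ∈ Rg ∨ i = s')) ⊆
          ((Ico s' n).filter fun i => i ∉ Rg ∧ (i - 1 ∈ Rg ∨ i = s')) := by
        intro i hi
        have h2 := key i hi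
        obtain ⟨h3, h4⟩ := mem_filter.1 hi
        rcases h2.eq_or_lt with e | e
        · subst e; rcases h4.2 with h5 | h5
          · exact absurd h5 hr.1
          · exact absurd h5 hr.2
        · exact mem_filter.2 ⟨mem_Ico.2 ⟨(mem_Ico.1 h3).1, e⟩, h4⟩
      have h4 := (Nat.cast_le (α := ℝ)).2 (card_le_card h1)
      obtain h3 : 0 ≤ S.chi c n p / c.bl := by (clear * - hnn hbl; positivity)
      rw [hchi, add_div]
      linarith only [h0, h4, h3]
  · have h0 := h.cost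
    obtain e : Ico s' p \ Rg = (Ico s' n \ Rg) ∪ insert n (Ico (n + 1) p) := by
      ext i
      simp only [Finset.mem_sdiff, mem_Ico, mem_union, mem_insert]
      constructor
      · rintro ⟨⟨h1, h2⟩, h3⟩
        by_cases hi : i < n
        · exact Or.inl ⟨⟨h1, hi⟩, h3⟩
        · right; omega
      · rintro (⟨⟨h1, h2⟩, h3⟩ | h1)
        · exact ⟨⟨h1, by omega⟩, h3⟩
        · exact ⟨by omega, fun hi => by have := mem_Ico.1 (h.sub hi); omega⟩
    obtain hd : Disjoint (Ico s' n \ Rg) (insert n (Ico (n + 1) p)) := by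
      rw [disjoint_left]
      intro i h1 h2
      simp only [Finset.mem_sdiff, mem_Ico, mem_insert] at h1 h2
      omega
    rw [e, sum_union hd, sum_insert (by simp), ext_le hs, ext_gt (lt_add_one n), ext_le le_rfl]
    obtain e1 : ∑ i ∈ Ico s' n \ Rg, Real.log (ext A n B (i + 1) / ext A n B i) =
        ∑ i ∈ Ico s' n \ Rg, Real.log (A (i + 1) / A i) := sum_congr rfl fun i hi => by
      have := mem_Ico.1 (Finset.mem_sdiff.1 hi).1
      rw [ext_le (by omega), ext_le (by omega)]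
    obtain e2 : ∑ i ∈ Ico (n + 1) p, Real.log (ext A n B (i + 1) / ext A n B i) = 0 :=
      sum_eq_zero fun i hi => by
        have := mem_Ico.1 hi
        rw [ext_gt (by omega), ext_gt (by omega), div_self (by positivity), Real.log_one]
    rw [e1, e2, hchi]
    linarith only [hc, h0]

/-- the new index is regular -/
theorem regular (h : S.SufI c f ξ w A Rg s' n) (hb : Big c) (hs : s' ≤ n) {B : ℝ} (hB : 0 ≤ B)
    (hdd : S.DD c w s' (n + 1) ≤ (A n + B) * w (n + 1))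
    (hr : dP (S.X n) < 4 / 100 ∧ dP (S.X (n + 1)) < 4 / 100 ∧
      w n ≤ f * |ξ n| ∧ A n + B ≤ f ^ 4 * c.lam / 1024 * w n) :
    S.SufI c f ξ w (ext A n B) (insert n Rg) s' (n + 1) := by
  have hchi := S.chi_add c hs (lt_add_one n).le
  obtain hbl : 0 < c.bl := by linarith only [hb.bl_lo]
  have hnn := hb.chi_nonneg (S := S) (lt_add_one n).le
  refine ⟨fun i j h1 h2 _ => ext_mono h hB i j h1 h2, by rw [ext_le hs]; exact h.lo,
    fun j h1 h2 => ?_, ?_, fun i hi => ?_, ?_, ?_⟩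
  · by_cases hj : j ≤ n
    · rw [ext_le hj]; exact h.dd j h1 hj
    · obtain rfl : j = n + 1 := by omega
      rw [ext_gt (lt_add_one n)]; exact hdd
  · exact insert_subset (mem_Ico.2 ⟨hs, lt_add_one n⟩)
      (h.sub.trans (Ico_subset_Ico_right (lt_add_one n).le))
  · rcases mem_insert.1 hi with rfl | hi
    · rw [ext_gt (lt_add_one i)]; exact hr
    · have := mem_Ico.1 (h.sub hi)
      rw [ext_le (by omega)]; exact h.reg i hi
  · have h0 := h.runs
    obtain h1 : ((Ico s' (n + 1)).filter fun i => i ∉ insert n Rg ∧ (i - 1 ∈ insert n Rg ∨ i = s')) ⊆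
        ((Ico s' n).filter fun i => i ∉ Rg ∧ (i - 1 ∈ Rg ∨ i = s')) := by
      intro i hi
      simp only [mem_filter, mem_Ico, mem_insert, not_or] at hi ⊢
      obtain ⟨⟨h1, h2⟩, ⟨h3, h4⟩, h5⟩ := hi
      refine ⟨⟨h1, by omega⟩, h4, ?_⟩
      rcases h5 with (h5 | h5) | h5
      · omega
      · exact Or.inl h5
      · exact Or.inr h5
    have h4 := (Nat.cast_le (α := ℝ)).2 (card_le_card h1)
    obtain h3 : 0 ≤ S.chi c n (n + 1) / c.bl := by (clear * - hnn hbl; positivity)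
    rw [hchi, add_div]
    linarith only [h0, h4, h3]
  · have h0 := h.cost
    obtain e : Ico s' (n + 1) \ insert n Rg = Ico s' n \ Rg := by
      ext i
      simp only [Finset.mem_sdiff, mem_Ico, mem_insert, not_or]
      constructor
      · rintro ⟨⟨h1, h2⟩, h3, h4⟩; exact ⟨⟨h1, by omega⟩, h4⟩
      · rintro ⟨⟨h1, h2⟩, h3⟩; exact ⟨⟨h1, by omega⟩, by omega, h3⟩
    obtain e1 : ∑ i ∈ Ico s' n \ Rg, Real.log (ext A n B (i + 1) / ext A n B i) =
        ∑ i ∈ Ico s' n \ Rg, Real.log (A (i + 1) / A i) := sum_congr rfl fun i hi => by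
      have := mem_Ico.1 (Finset.mem_sdiff.1 hi).1
      rw [ext_le (by omega), ext_le (by omega)]
    rw [e, e1, ext_le hs, hchi]
    have := hb.a0
    nlinarith only [h0, hnn, this]

theorem geo (n : ℕ) (s : ℤ) : ∑ i ∈ Ico s (s + n), Real.exp (-(((s + n - i : ℤ) : ℝ)) / 2) ≤ 2 := by
  induction n with
  | zero => simp
  | succ n ih =>
    obtain hq : Real.exp (-1 / 2) ≤ 2 / 3 := by
      have h1 := Real.add_one_le_exp (1 / 2 : ℝ)
      obtain h2 : Real.exp (-1 / 2) * Real.exp (1 / 2) = 1 := by rw [← Real.exp_add]; norm_num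
      nlinarith only [h1, h2, Real.exp_pos (-1 / 2 : ℝ)]
    obtain e : Ico s (s + ((n + 1 : ℕ) : ℤ)) = insert (s + n) (Ico s (s + n)) := by
      ext i; simp only [mem_Ico, mem_insert]; push_cast; omega
    rw [e, sum_insert (by simp)]
    obtain e1 : ∀ i : ℤ, Real.exp (-(((s + ((n + 1 : ℕ) : ℤ) - i : ℤ) : ℝ)) / 2) =
        Real.exp (-1 / 2) * Real.exp (-(((s + n - i : ℤ) : ℝ)) / 2) := fun i => by
      rw [← Real.exp_add]; congr 1; push_cast; ring
    simp only [e1]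
    rw [← mul_sum]
    simp only [sub_self, Int.cast_zero, neg_zero, zero_div, Real.exp_zero]
    nlinarith only [hq, ih, Real.exp_pos (-1 / 2 : ℝ)]

theorem geo' (h : s ≤ n) : ∑ i ∈ Ico s n, Real.exp (-(((n - i : ℤ) : ℝ)) / 2) ≤ 2 := by
  obtain ⟨k, rfl⟩ := Int.le.dest h
  exact geo k s

/-- the defect sum inside a step -/
theorem dd_step {Ex : ExT} {r a : ℝ} (hb : Big c) (hR : S.RInv c ξ s n)
    (hS : S.Step c Ex ξ s n r p) (h1 : s ≤ s') (h2 : s' ≤ n)
    (hdd : S.DD c (S.wh c ξ s) s' n ≤ a * |ξ n|) {j : ℤ} (hj : n < j) (hjp : j ≤ p) :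
    S.DD c (S.wh c ξ s) s' j ≤ (a + 100 * Real.exp r * |ξ n|) * S.wh c ξ s j := by
  set w := S.wh c ξ s with hw
  have hx : 0 < |ξ n| := abs_pos.2 hR.ne
  obtain hL : 0 < c.L := by linarith only [hb.L1]
  have hwj : 0 ≤ w j := S.wh_nonneg c ξ s j
  have hE := Real.exp_pos r
  obtain e : S.DD c w s' j = ∑ i ∈ Ico s' n, |S.fr (i + 1) j| * c.L * w i ^ 2 + S.DD c w n j := by
    unfold Sq.DD
    rw [← sum_union (Ico_disjoint_Ico_consecutive _ _ _), Ico_union_Ico_eq_Ico h2 hj.le]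
  obtain key : ∀ i ∈ Ico s' n, |S.fr (i + 1) j| * c.L * w i ^ 2 * |ξ n| ≤
      (|S.fr (i + 1) n| * c.L * w i ^ 2 +
        16 * Real.exp r * |ξ n| ^ 2 * Real.exp (-(((n - i : ℤ) : ℝ)) / 2)) * w j := by
    intro i hi
    obtain ⟨hi1, hi2⟩ := mem_Ico.1 hi
    have hsi := h1.trans hi1
    have g1 := hS.ins3 i j hsi hi2 hj hjp
    obtain ⟨g2, g3⟩ := hR.i2 i hsi hi2
    obtain ⟨f1, f2⟩ := hb.ff_mem (S := S) hsi
    have hwi : 0 ≤ w i := S.wh_nonneg c ξ s i
    rw [← hw] at g1 g2 g3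
    obtain g2' : S.PB c (2 / 100) i n * w i ≤ 2 * Real.exp (-(1 - c.a) * S.chi c i n) * |ξ n| :=
      g2.trans (by gcongr)
    obtain g3' : w i ≤ 2 * Real.exp (c.a * S.chi c i n) * |ξ n| := g3.trans (by (clear * - f2 hx; gcongr))
    obtain g4 : Real.exp (-(1 - c.a) * S.chi c i n) * Real.exp (c.a * S.chi c i n) ^ 2 ≤
        Real.exp (-(((n - i : ℤ) : ℝ)) / 2) := by
      rw [sq, ← Real.exp_add, ← Real.exp_add, Real.exp_le_exp]
      have k1 := S.chi_ge c hb.chK_le hi2.le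
      obtain k2 : (0 : ℝ) ≤ ((n - i : ℤ) : ℝ) := by exact_mod_cast sub_nonneg.2 hi2.le
      have k3 := hb.chi_nonneg (S := S) hi2.le
      nlinarith only [k1, k3, k2, hb.chK_lo, hb.a1, hb.a0]
    obtain g5 : S.PB c (2 / 100) i n * w i * w i ^ 2 ≤
        8 * Real.exp (-(((n - i : ℤ) : ℝ)) / 2) * |ξ n| ^ 3 := by
      calc S.PB c (2 / 100) i n * w i * w i ^ 2
          ≤ (2 * Real.exp (-(1 - c.a) * S.chi c i n) * |ξ n|) *
            (2 * Real.exp (c.a * S.chi c i n) * |ξ n|) ^ 2 := by (clear * - g2' hwi g3' hx; gcongr)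
        _ = 8 * (Real.exp (-(1 - c.a) * S.chi c i n) * Real.exp (c.a * S.chi c i n) ^ 2) *
            |ξ n| ^ 3 := by ring
        _ ≤ _ := by gcongr
    calc |S.fr (i + 1) j| * c.L * w i ^ 2 * |ξ n|
        = (|S.fr (i + 1) j| * |ξ n|) * (c.L * w i ^ 2) := by ring
      _ ≤ ((|S.fr (i + 1) n| + 2 * Real.exp r * (S.PB c (2 / 100) i n * w i) / (c.L * |ξ n|)) *
          w j) * (c.L * w i ^ 2) := by (clear * - g1 hL; gcongr)
      _ = (|S.fr (i + 1) n| * c.L * w i ^ 2 +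
          2 * Real.exp r * (S.PB c (2 / 100) i n * w i * w i ^ 2) / |ξ n|) * w j := by
        field_simp
      _ ≤ (|S.fr (i + 1) n| * c.L * w i ^ 2 + 2 * Real.exp r *
          (8 * Real.exp (-(((n - i : ℤ) : ℝ)) / 2) * |ξ n| ^ 3) / |ξ n|) * w j := by (clear * - g5 hx hwj; gcongr)
      _ = _ := by field_simp; ring
  have k1 := sum_le_sum key
  rw [← sum_mul, ← sum_mul, sum_add_distrib, ← mul_sum] at k1
  have k2 := geo' h2
  have k3 := hS.ins2 j hj hjp
  rw [← hw] at k3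
  obtain k4 : (∑ i ∈ Ico s' n, |S.fr (i + 1) j| * c.L * w i ^ 2) * |ξ n| ≤
      ((a + 32 * Real.exp r * |ξ n|) * w j) * |ξ n| := by
    refine k1.trans ?_
    calc _ ≤ (a * |ξ n| + 16 * Real.exp r * |ξ n| ^ 2 * 2) * w j := by gcongr; exact hdd
      _ = _ := by ring
  have k5 := le_of_mul_le_mul_right k4 hx
  obtain k6 : 0 ≤ Real.exp r * |ξ n| * w j := by (clear * - hx hwj; positivity)
  rw [e]; linarith only [k3, k5, k6]

theorem main (hb : Big c) : SUFa_s c := by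
  intro Ex S ξ s n r p s' φ A Rg hok hst hR hS h1 h2 f1 f2 heq h
  have hx : 0 < |ξ n| := abs_pos.2 hR.ne
  have hwn := hR.whm
  have hl := hb.lam
  have hL := hb.L1
  have ha := hb.a0
  have hE := Real.exp_pos r
  obtain hs0 : ξ s ≠ 0 := by rw [hst.2.2.1]; exact one_ne_zero
  have hA : 0 < A n := ((S.wh_pos c hs0 h1).trans_le h.lo).trans_le (h.mono _ _ le_rfl h2 le_rfl)
  obtain hdd : ∀ j, n < j → j ≤ p → S.DD c (S.wh c ξ s) s' j ≤
      (A n + 100 * Real.exp r * |ξ n|) * S.wh c ξ s j := fun j hj hjp =>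
    dd_step hb hR hS h1 h2 (by rw [← hwn]; exact h.dd n h2 le_rfl) hj hjp
  obtain hB : 0 ≤ 100 * Real.exp r * |ξ n| := by positivity
  obtain hlog : ∀ y, 100 * Real.exp r * |ξ n| ≤ y * A n →
      (A n + 100 * Real.exp r * |ξ n|) / A n ≤ 1 + y := fun y hy => by
    rw [div_le_iff₀ hA]; linarith only [hy]
  obtain hq : 0 < (A n + 100 * Real.exp r * |ξ n|) / A n := by (clear * - hA hx; positivity)
  by_cases hk : S.kk (n + 1) = 0
  · obtain hch : c.bl ≤ S.chi c n p := by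
      have e1 := S.chi_add c (lt_add_one n).le (show n + 1 ≤ p from hS.lt)
      have e2 := hb.chi_nonneg (S := S) (show n + 1 ≤ p from hS.lt)
      rw [e1, S.chi_succ, Sq.ch1, hk]; linarith only [e2]
    refine ⟨_, _, irr h hb h2 hS.lt hB hA hdd ?_ (Or.inl hch)⟩
    obtain hlo : S.wh c ξ s n ≤ 36 * c.L * A n := lo' h hL h2 (hwn ▸ hx) fun hlt => by
      obtain this := ((Sq.cert_wh hok hb.k_lo hb.k_hi (by linarith only [hl]) hb.chK_le hst le_rfl).2.2 (n - 1)
        (by omega)).1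
      rwa [sub_add_cancel] at this
    rw [hwn] at hlo
    obtain g1 := hlog (3600 * (Real.exp r * c.L)) (by nlinarith only [hE, hlo])
    obtain g2 : Real.exp r * c.L = Real.exp (r + c.lam) := by rw [Real.exp_add, hb.exp_lam]
    obtain g3 : 1 ≤ Real.exp (r + c.lam) := Real.one_le_exp (by linarith only [hl, hS.r_lo])
    obtain g4 : (3601 : ℝ) ≤ Real.exp 12 := by
      have := Real.exp_one_gt_d9
      obtain e : Real.exp 12 = Real.exp 1 ^ 12 := by rw [← Real.exp_nat_mul]; norm_num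
      rw [e]
      calc (3601 : ℝ) ≤ 2 ^ 12 := by norm_num
        _ ≤ _ := by gcongr; linarith only [this]
    obtain g5 : Real.log ((A n + 100 * Real.exp r * |ξ n|) / A n) ≤ r + c.lam + 12 := by
      rw [Real.log_le_iff_le_exp hq, Real.exp_add (r + c.lam)]
      rw [g2] at g1
      nlinarith only [g1, g3, hq, g4]
    obtain g6 : c.lam ≤ c.a * S.chi c n p := by
      obtain this : c.a * c.bl ≤ c.a * S.chi c n p := by gcongr
      obtain this : c.lam ≤ c.a * c.bl := by unfold Cs.bl; nlinarith only [hl, hb.aβ]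
      (rename_i zq0; linarith only [zq0, this])
    rcases hS.dch with g | g <;> linarith only [hl, g5, g6, g]
  · rw [S.kk_eq_zero, add_sub_cancel_right, not_or, not_le, not_le] at hk
    obtain ⟨hp, hr⟩ := hS.zone (by linarith only [hk.2])
    subst hp
    obtain hE3 : Real.exp r ≤ 272 / 100 :=
      (Real.exp_le_exp.2 hr).trans (by linarith only [Real.exp_one_lt_d9])
    obtain hB' : 100 * Real.exp r * |ξ n| ≤ 272 * |ξ n| := by nlinarith only [hx, hE3]
    have f4 : 1 ≤ φ ^ 4 := one_le_pow₀ f1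
    by_cases hreg : A n + 100 * Real.exp r * |ξ n| ≤ c.lam / 1024 * |ξ n|
    · refine ⟨_, _, regular h hb h2 hB (hdd _ (lt_add_one n) le_rfl) ⟨hk.2, hk.1, ?_, ?_⟩⟩
      · rw [hwn]; nlinarith only [f1, hx]
      · rw [hwn]
        refine hreg.trans (mul_le_mul_of_nonneg_right ?_ hx.le)
        nlinarith only [f4, hl]
    · obtain g1 : c.lam / 2048 * |ξ n| < A n := by nlinarith only [hx, hB', hreg, hl]
      obtain g2 : |ξ n| < A n := by nlinarith only [hx, hB', hreg, hl]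
      refine ⟨_, _, irr h hb h2 (lt_add_one n) hB hA hdd ?_ (Or.inr ⟨fun hm => ?_, fun e => ?_⟩)⟩
      · obtain g3 := hlog (2 * c.a) (by
          obtain this : 272 * |ξ n| ≤ 2 * c.a * (c.lam / 2048 * |ξ n|) := by nlinarith only [hx, hb.alam]
          obtain this : 2 * c.a * (c.lam / 2048 * |ξ n|) ≤ 2 * c.a * A n := by (clear * - g1 ha; gcongr)
          (rename_i zq0; linarith only [hB', zq0, this]))
        have g4 := Real.log_le_sub_one_of_pos hq
        have g5 := (S.ch1_mem c hb.chK_le (n + 1)).1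
        rw [S.chi_succ]
        nlinarith only [g3, g4, ha, g5, hb.chK_lo]
      · have g3 := (h.reg _ hm).2.2.2
        have g4 := mem_Ico.1 (h.sub hm)
        obtain g5 := hR.i1 (by omega)
        rw [sub_add_cancel] at g3
        obtain g6 : φ ^ 4 ≤ 2 ^ 4 := by (clear * - f1 f2; gcongr)
        obtain g7 : S.wh c ξ s (n - 1) ≤ Real.exp (-c.lam / 3) * 2 * |ξ n| := g5.trans (by
          have := Real.exp_pos (-S.chi c s n / 10)
          gcongr; linarith only [this])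
        obtain g8 : c.lam / 3 * Real.exp (-c.lam / 3) ≤ 1 := by
          have k1 := Real.add_one_le_exp (c.lam / 3)
          obtain k2 : Real.exp (c.lam / 3) * Real.exp (-c.lam / 3) = 1 := by
            rw [← Real.exp_add]; simp [neg_div]
          nlinarith only [k1, k2, hl, Real.exp_pos (-c.lam / 3)]
        obtain g9 : A n ≤ 2 ^ 4 * c.lam / 1024 * (Real.exp (-c.lam / 3) * 2 * |ξ n|) :=
          g3.trans (by have := S.wh_nonneg c ξ s (n - 1); (clear * - g6 hl g7 this; gcongr))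
        nlinarith only [hx, hB', hreg, g9, hl, g8]
      · have := heq e.symm
        rw [hwn] at this; linarith only [g2, this]

end SUFa

theorem sufa : Hier SUFa_s := SUFa.big.mono fun _ h => SUFa.main h

end Pool.Agent.MP_9cbfe4_an

end

/-! ### Part H1 -/

section

/-! Row H1: a run is a segmented history. -/

namespace Pool.Agent.MP_9cbfe4_an

open Finset

namespace H1

/-- the numeric facts used -/
structure Num (c : Cs) : Prop where
  k1 : 1 / 16 ≤ c.k0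
  k2 : c.k0 < 1 / 2
  lam : 10 ≤ c.lam
  L : 1 ≤ c.L
  β : 1 ≤ c.β
  a : 0 < c.a

theorem num : Hier Num := by
  refine ((((Hier.base.and (Hier.lam_ge (fun _ => 10) fun _ _ => rfl)).and
    (Hier.L_ge (fun _ => 1) fun _ _ => rfl)).and
    (Hier.β_ge (fun _ => 1) fun _ _ _ => rfl)).and
    (Hier.a_le (fun _ => 1) (fun _ _ _ _ _ _ => rfl) (Hier.of_all fun _ => one_pos))).mono ?_
  rintro c ⟨⟨⟨⟨h0, h1⟩, h2⟩, h3⟩, h4⟩
  exact ⟨h0.1, h0.2.1, h1, h2, h3, h4.1⟩

variable {c : Cs}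

theorem Num.chK0 (h : Num c) : 0 ≤ c.chK := by
  have h1 := h.k1
  have h2 := h.k2
  apply Real.log_nonneg
  rw [le_div_iff₀ (by linarith only [h1, h2])]
  linarith only [h1, h2]

theorem Num.bl (h : Num c) : 10 ≤ c.bl := by
  have h1 := h.lam
  have h2 := h.β
  unfold Cs.bl
  nlinarith only [h1, h2]

theorem Num.chK (h : Num c) : c.chK ≤ c.bl := by
  have h1 := h.k1
  obtain hp : 0 < 1 / c.k0 := by positivity
  obtain h2 : 1 / c.k0 ≤ 16 := by
    rw [div_le_iff₀ (by linarith only [h1])]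
    linarith only [h1]
  have h3 : Real.log (1 / c.k0) ≤ Real.log 16 := Real.log_le_log hp h2
  obtain h4 : Real.log 16 ≤ 10 := by
    rw [Real.log_le_iff_le_exp (by norm_num)]
    obtain this := Real.quadratic_le_exp_of_nonneg (show (0 : ℝ) ≤ 10 by norm_num)
    linarith only [this]
  have := h.bl
  unfold Cs.chK
  linarith only [h3, h4, this]

theorem Num.chi0 (h : Num c) (S : Sq) {i j : ℤ} (hij : i ≤ j) : 0 ≤ S.chi c i j :=
  le_trans (mul_nonneg h.chK0 (by exact_mod_cast sub_nonneg.2 hij)) (S.chi_ge c h.chK hij)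

theorem Num.pb (h : Num c) (S : Sq) (i j : ℤ) : S.PB c (18 / 1000) i j ≤ S.PB c (2 / 100) i j := by
  refine S.PB_mono c ?_ (by norm_num) i j
  obtain h1 : Real.exp (-c.bl) ≤ 1 := Real.exp_le_one_iff.2 (by have := h.bl; linarith only [this])
  obtain h2 : 0 ≤ c.k0 * c.L := mul_nonneg (by have := h.k1; linarith only [this]) (by have := h.L; linarith only [this])
  linarith only [h1, h2]

theorem Num.expl (h : Num c) : Real.exp c.lam = c.L :=
  Real.exp_log (by have := h.L; linarith only [this])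

theorem ff_le (S : Sq) (s i : ℤ) : S.ff c s i ≤ 2 := by
  unfold Sq.ff
  have := Real.exp_pos (-S.chi c s i / 24)
  linarith only [this]

theorem Num.ff_sq (h : Num c) (S : Sq) {s i : ℤ} (hi : s ≤ i) : S.ff c s i ^ 2 ≤ 4 := by
  have h1 := ff_le (c := c) S s i
  obtain h2 : 0 ≤ S.ff c s i := by
    unfold Sq.ff
    obtain this : Real.exp (-S.chi c s i / 24) ≤ 1 :=
      Real.exp_le_one_iff.2 (by have := h.chi0 S hi; linarith only [this])
    linarith only [this]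
  nlinarith only [h1, h2]

/-- weakening of a bound `x ≤ f e^u y` -/
theorem weak {x f K u v y : ℝ} (h : x ≤ f * Real.exp u * y) (hf : f ≤ K) (hK : 0 ≤ K) (huv : u ≤ v)
    (hy : 0 ≤ y) : x ≤ K * Real.exp v * y := by
  refine h.trans (mul_le_mul_of_nonneg_right ?_ hy)
  exact mul_le_mul hf (Real.exp_le_exp.2 huv) (Real.exp_pos u).le hK

theorem Num.dec (h : Num c) {S : Sq} {ξ : ℤ → ℝ} {s m : ℤ} (hr : S.RInv c ξ s m) (i : ℤ)
    (h1 : s ≤ i) (h2 : i < m) :
    S.PB c (18 / 1000) i m * S.wh c ξ s i ≤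
      50 * Real.exp (-(1 - 3 * c.a) * S.chi c i m) * S.wh c ξ s m ∧
    S.wh c ξ s i ≤ 50 * Real.exp (3 * c.a * S.chi c i m) * S.wh c ξ s m := by
  obtain ⟨e1, e2⟩ := hr.i2 i h1 h2
  have hc := h.chi0 S h2.le
  have ha := h.a
  have hf := ff_le (c := c) S s i
  have hac := mul_nonneg ha.le hc
  rw [hr.whm]
  refine ⟨weak ((mul_le_mul_of_nonneg_right (h.pb S i m) (S.wh_nonneg c ξ s i)).trans e1)
    (by linarith only [hf]) (by norm_num) (by linarith only [hac]) (abs_nonneg _),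
    weak e2 (by linarith only [hf]) (by norm_num) (by linarith only [hac]) (abs_nonneg _)⟩

theorem Num.suf2 (h : Num c) {S : Sq} {ξ w A : ℤ → ℝ} {Rg : Finset ℤ} {s' m : ℤ} (hm : s' ≤ m)
    (hw : ∀ j, 0 ≤ w j) (H : S.SufC c 1 ξ w A Rg s' m) : S.SufC c 2 ξ w A Rg s' m := by
  have hc := h.chi0 S hm
  have hA : 0 ≤ A m := ((hw s').trans H.lo).trans (H.mono s' m le_rfl hm le_rfl)
  have hL := h.L
  have hl := h.lam
  have hb := h.bl
  refine ⟨H.mono, H.lo, ?_, H.dd, H.sub, fun i hi => ?_, ?_, ?_⟩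
  · have := H.lo'
    obtain this : 0 ≤ c.L * A m := mul_nonneg (by linarith only [hL]) hA
    (rename_i zq0; linarith only [zq0, this])
  · obtain ⟨e1, e2, e3, e4⟩ := H.reg i hi
    have := abs_nonneg (ξ i)
    obtain this : 0 ≤ c.lam * w i := mul_nonneg (by linarith only [hl]) (hw i)
    refine ⟨by linarith only [e1], by linarith only [e2], by (rename_i zq0; linarith only [e3, zq0]), by linarith only [e4, this]⟩
  · refine H.runs.trans ?_
    obtain this : 1 * S.chi c s' m / c.bl ≤ 2 * S.chi c s' m / c.bl :=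
      div_le_div_of_nonneg_right (by linarith only [hc]) (by linarith only [hb])
    linarith only [this]
  · refine H.cost.trans ?_
    have := mul_nonneg h.a.le hc
    linarith only [this]

theorem Num.hstep (h : Num c) {Ex : ExT} {S : Sq} (hS : S.OK c) {ξ : ℤ → ℝ} {s n p : ℤ} {r : ℝ}
    (hs : S.St c ξ s) (hn : S.RInv c ξ s n) (hp : S.RInv c ξ s p) (st : S.Step c Ex ξ s n r p)
    (suf : ∀ s', s ≤ s' → s' ≤ p → ∃ A Rg, S.SufC c 1 ξ (S.wh c ξ s) A Rg s' p) :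
    S.HStep c ξ (S.wh c ξ s) s n r p := by
  have hc := h.chi0 S st.lt.le
  have hL := h.L
  have hl := h.lam
  have hx : 0 < |ξ n| := abs_pos.2 hn.ne
  have hy : 0 < |ξ p| := abs_pos.2 hp.ne
  have hlo := st.r_lo
  refine ⟨st.lt, hn.whm, by linarith only [hlo], ?_, fun hz => ?_, fun j h1 h2 => ?_, fun s' h1 h2 => ?_, ?_,
    h.dec hn⟩
  · rcases st.dch with e | e
    · exact Or.inl (by linarith only [e])
    · have := mul_nonneg h.a.le hc
      exact Or.inr (by linarith only [e, this])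
  · obtain ⟨rfl, e⟩ := st.zone (by linarith only [hz])
    refine ⟨rfl, by linarith only [e], ?_⟩
    rw [hn.whm, hp.whm]
    have e1 := st.hr
    unfold Sq.dep at e1
    rw [S.rho_one, abs_div] at e1
    obtain hq : 0 < c.L / (|ξ (n + 1)| / |ξ n|) := by (clear * - hL hy hx; positivity)
    obtain e2 : c.L / (|ξ (n + 1)| / |ξ n|) ≤ Real.exp 1 := by
      rw [← Real.log_le_iff_le_exp hq, ← e1]
      exact e
    obtain e3 : Real.exp 1 ≤ 4 := by have := Real.exp_one_lt_d9; linarith only [this]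
    have e4 := e2.trans e3
    rw [div_le_iff₀ (by (clear * - hy hx; positivity)), ← mul_div_assoc, le_div_iff₀ hx] at e4
    linarith only [e4]
  · have e1 := st.ins1 j h1 h2
    have e2 := st.ins2 j h1 h2
    have hw := S.wh_nonneg c ξ s j
    have he := Real.exp_pos r
    rw [hn.whm]
    obtain t1 : 0 ≤ Real.exp r * |ξ n| * S.wh c ξ s j := by (clear * - hx hw; positivity)
    obtain t2 : 0 ≤ Real.exp r * S.wh c ξ s j := by (clear * - hw; positivity)
    exact ⟨by linarith only [e2, t1], by linarith only [e1, t2]⟩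
  · obtain ⟨A, Rg, H⟩ := suf s' (hn.le.trans h1.le) h2.le
    exact ⟨A, Rg, h.suf2 h2.le (S.wh_nonneg c ξ s) H⟩
  · rcases st.kind with ⟨rfl, -⟩ | ⟨-, -, e, -⟩
    · obtain e1 := ((Sq.cert_wh hS h.k1 h.k2 (by linarith only [hl]) h.chK hs hn.le).2.2 n hn.le).1
      refine e1.trans (mul_le_mul_of_nonneg_right ?_ (S.wh_nonneg c ξ s n))
      obtain e2 : Real.exp (6 + c.lam) ≤ Real.exp (r + c.lam + 7) := Real.exp_le_exp.2 (by linarith only [hlo])
      rw [Real.exp_add 6, h.expl] at e2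
      have e3 := Real.add_one_le_exp (6 : ℝ)
      nlinarith only [hL, e2, e3]
    · rw [hn.whm, hp.whm, ← div_le_iff₀ hx, ← Real.log_le_iff_le_exp (by positivity),
        Real.log_div hy.ne' hx.ne']
      linarith only [e]

theorem chain_step {Ex : ExT} {S : Sq} {ξ : ℤ → ℝ} {s m0 n p : ℤ} {r : ℝ} {Ls : List (ℤ × ℝ)}
    (H : S.Chain c Ex ξ s m0 ((n, r) :: Ls) p) : S.Step c Ex ξ s n r p := by
  cases H with
  | cons _ st _ => exact st

theorem Num.hchain (h : Num c) (b1 : B1_s c) (suf : SUF_s c) {Ex : ExT} {S : Sq} (hS : S.OK c)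
    {ξ : ℤ → ℝ} {s : ℤ} (hs : S.St c ξ s) {P} : ∀ (Ls : List (ℤ × ℝ)) (m : ℤ),
    S.Run c Ex ξ s P Ls m → S.HChain c ξ (S.wh c ξ s) s m
  | [], m, H => by
    rw [Sq.Run.nil c S H]
    exact Sq.HChain.nil
  | (n, r) :: Ls, p, H => by
    have H0 := (Sq.Run.tail c S H).1
    obtain ⟨e1, e2⟩ := (b1 Ex S hS).1 ξ s P _ p hs H
    exact Sq.HChain.cons (h.hchain b1 suf hS hs Ls n H0)
      (h.hstep hS hs ((b1 Ex S hS).1 ξ s P _ n hs H0).2 e2 (chain_step e1)
        (suf Ex S ξ s P _ p hS hs H))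

theorem Num.slope (h : Num c) {S : Sq} {ξ : ℤ → ℝ} {s m : ℤ} (hs : S.St c ξ s)
    (hr : S.RInv c ξ s m) : |ξ (m - 1)| ≤ Real.exp (-c.lam / 5) * |ξ m| := by
  rcases hr.le.eq_or_lt with rfl | e
  · rw [hs.2.2.1, abs_one, mul_one]
    exact hs.2.2.2
  · refine ((S.abs_le_wh c ξ (by omega)).trans (hr.i1 e)).trans
      (mul_le_mul_of_nonneg_right ?_ (abs_nonneg _))
    have e1 := Real.exp_pos (-S.chi c s m / 10)
    have e2 := Real.exp_pos (-c.lam / 3)
    obtain e3 : Real.exp (-c.lam / 5) = Real.exp (-c.lam / 3) * Real.exp (2 * c.lam / 15) := by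
      rw [← Real.exp_add]
      congr 1
      ring
    have e4 := Real.add_one_le_exp (2 * c.lam / 15)
    have e5 := h.lam
    rw [e3]
    exact mul_le_mul_of_nonneg_left (by linarith only [e1, e4, e5]) e2.le

end H1

theorem h1 : Hier fun c => B1_s c → SUF_s c → H1_s c := by
  refine H1.num.mono fun c h b1 suf Ex S ξ s P Ls m hS hs H => ?_
  have hr := ((b1 Ex S hS).1 ξ s P Ls m hs H).2
  have hl := h.lam
  obtain ⟨ce, mj, -⟩ := Sq.cert_wh hS h.k1 h.k2 (by linarith only [hl]) h.chK hs hr.le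
  refine ⟨hs.1, h.hchain b1 suf hS hs Ls m H, hr.whm, h.slope hs hr, ce.pos', mj,
    fun j h1 h2 e1 e2 => ce.backK j h1 h2 (by linarith only [e1]) (by linarith only [e2]), ce.back, ce.fwd,
    fun i j h1 h2 h3 => ?_, fun i h1 h2 => (h.dec hr i h1 h2).1⟩
  obtain ⟨e1, e2⟩ := hr.i2p i j h1 h2 h3
  have e3 := hr.i3 i j h1 h2 h3
  have hf := h.ff_sq S h1
  have hf' := H1.ff_le (c := c) S s i
  have c1 := mul_nonneg h.a.le (h.chi0 S (h2.le.trans h3))
  have c2 := mul_nonneg h.a.le (h.chi0 S h2.le)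
  have hw := S.wh_nonneg c ξ s j
  refine ⟨H1.weak e1 (by linarith only [hf]) (by norm_num) (by linarith only [c1]) hw,
    H1.weak ((mul_le_mul_of_nonneg_right (h.pb S i j) (S.wh_nonneg c ξ s i)).trans e2)
      (by linarith only [hf]) (by norm_num) (by linarith only [c1, c2]) hw, e3.trans ?_⟩
  exact mul_le_mul (by linarith only [hf']) (Real.exp_le_exp.2 (by linarith only [c1])) (Real.exp_pos _).le
    (by norm_num)

end Pool.Agent.MP_9cbfe4_an

end

/-! ### Part EPL -/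

section

/-! Row EPL: shadowing at low level. -/

namespace Pool.Agent.MP_9cbfe4_an
open Finset

namespace EPL

structure Num (c : Cs) : Prop where
  k_lo : 1 / 16 ≤ c.k0
  k_hi : c.k0 < 1 / 2
  cg : 1 ≤ c.CG
  a0 : 0 ≤ c.a
  a1 : c.a ≤ 1 / 4
  β1 : 100 ≤ c.β
  lam1 : 10 ^ 11 * c.CG ≤ c.lam
  L1 : 10 ≤ c.L

variable {c : Cs}

/-- `exp (-bl / 6)` -/
noncomputable def E (c : Cs) : ℝ := Real.exp (-c.bl / 6)

theorem E_pow (n : ℕ) : E c ^ n = Real.exp (-(n * c.bl) / 6) := by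
  rw [E, ← Real.exp_nat_mul]; congr 1; ring

theorem E0 : 0 < E c := Real.exp_pos _

theorem Num.lam (h : Num c) : 10 ^ 11 ≤ c.lam := by linarith only [h.cg, h.lam1]
theorem Num.expL (h : Num c) : Real.exp c.lam = c.L := Real.exp_log (by linarith only [h.L1])
theorem Num.bl (h : Num c) : 100 * c.lam ≤ c.bl :=
  mul_le_mul_of_nonneg_right h.β1 (by linarith only [h.lam])
theorem Num.chK0 (h : Num c) : 0 < c.chK := by
  have := h.k_lo; have := h.k_hi
  exact Real.log_pos (by rw [lt_div_iff₀ (by (rename_i zq0; linarith only [zq0, this]))]; (rename_i zq0; linarith only [zq0, this]))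
theorem Num.chKbl (h : Num c) : c.chK ≤ c.bl := by
  have h1 := h.k_lo; have := h.bl; have := h.lam
  obtain h2 : c.chK ≤ 1 / c.k0 - 1 := Real.log_le_sub_one_of_pos (by (clear * - h1; positivity))
  obtain h3 : 1 / c.k0 ≤ 16 := by rw [div_le_iff₀ (by linarith only [h1])]; linarith only [h1]
  (rename_i zq0; linarith only [zq0, this, h2, h3])
theorem Num.cb0 (h : Num c) : 0 < c.cb := by have := h.lam; unfold Cs.cb; (clear * - this; positivity)
theorem Num.cb1 (h : Num c) : c.cb ≤ 1 := by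
  have h1 := h.lam
  unfold Cs.cb
  rw [div_le_one (by positivity)]
  exact one_le_pow₀ (by linarith only [h1])
theorem Num.cwb (h : Num c) : c.cw ≤ c.cb := by
  have h1 := h.lam
  exact one_div_le_one_div_of_le (by positivity) (pow_le_pow_right₀ (by linarith only [h1]) (by norm_num))
theorem Num.cb2 (h : Num c) : 100 * c.cb ≤ 1 / c.lam ^ 2 := by
  have h1 := h.lam
  obtain h0 : 0 < c.lam := by linarith only [h1]
  unfold Cs.cb
  rw [mul_one_div, div_le_div_iff₀ (by positivity) (by positivity)]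
  obtain this : 0 < c.lam ^ 2 := by positivity
  nlinarith only [this, h1]
theorem Num.l2 (h : Num c) : 1 / c.lam ^ 2 ≤ 1 / 100 := by
  have h1 := h.lam
  exact one_div_le_one_div_of_le (by norm_num) (by nlinarith only [h1])
theorem Num.KS (h : Num c) : 0 ≤ c.KS ∧ c.KS * (20 * c.cb) ≤ 1 / 1000 := by
  have h1 := h.lam; have h2 := h.lam1; have h3 := h.cg
  refine ⟨by unfold Cs.KS; positivity, ?_⟩
  obtain h4 : c.lam ≤ c.lam ^ 3 := le_self_pow₀ (by linarith only [h1]) (by norm_num)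
  unfold Cs.KS Cs.cb
  rw [mul_one_div, mul_div_assoc', div_le_iff₀ (by positivity)]
  linarith only [h1, h2, h4]
theorem Num.EL (h : Num c) : 1000 * E c * c.L ^ 2 ≤ c.cb ^ 2 := by
  have h1 := h.lam; have h2 := h.L1; have h3 := h.bl
  obtain h0 : 0 < c.lam := by linarith only [h1]
  obtain e1 : c.lam ≤ c.L := by rw [← h.expL]; linarith only [Real.add_one_le_exp c.lam]
  obtain e2 : E c * c.L ^ 16 ≤ 1 := by
    rw [E, ← h.expL, ← Real.exp_nat_mul, ← Real.exp_add]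
    exact Real.exp_le_one_iff.2 (by push_cast; linarith only [h1, h3])
  have e3 : c.lam ^ 6 ≤ c.L ^ 6 := pow_le_pow_left₀ h0.le e1 6
  obtain e4 : (10 : ℝ) ^ 8 ≤ c.L ^ 8 := pow_le_pow_left₀ (by norm_num) h2 8
  obtain e5 : c.cb ^ 2 = 1 / c.lam ^ 6 := by unfold Cs.cb; field_simp
  rw [e5, le_div_iff₀ (by positivity)]
  have hE := E0 (c := c)
  calc 1000 * E c * c.L ^ 2 * c.lam ^ 6 ≤ c.L ^ 8 * E c * c.L ^ 2 * c.L ^ 6 := by
        gcongr; linarith only [e4]
    _ = E c * c.L ^ 16 := by ring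
    _ ≤ 1 := e2
theorem Num.EL1 (h : Num c) : 1000 * E c * c.L ≤ c.cb ^ 2 := by
  have := h.EL; have h2 := h.L1; have hE := E0 (c := c)
  obtain this : E c * c.L * 1 ≤ E c * c.L * c.L := by gcongr; linarith only [h2]
  (rename_i zq0; linarith only [zq0, this])
theorem Num.Ecb (h : Num c) : 1000 * E c ≤ c.cb := by
  have := h.EL1; have h2 := h.L1; have hE := E0 (c := c); have := h.cb0; have := h.cb1
  (rename_i zq1 zq0; nlinarith only [zq1, hE, h2, zq0, this])
theorem Num.E1 (h : Num c) : E c ≤ 1 := by linarith only [h.Ecb, h.cb1, E0 (c := c)]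
theorem e_bl : Real.exp (-c.bl) = E c ^ 6 := by rw [E_pow]; congr 1; push_cast; ring
theorem e_bl2 : Real.exp (-c.bl / 2) = E c ^ 3 := by rw [E_pow]; congr 1; push_cast; ring
theorem e_dl : c.dl = E c ^ 12 := by rw [E_pow, Cs.dl]; congr 1; push_cast; ring
theorem Num.el3 (h : Num c) : Real.exp (-c.lam / 3) ≤ 1 / 1000 := by
  have h1 := h.lam
  rw [neg_div, Real.exp_neg, inv_eq_one_div]
  exact one_div_le_one_div_of_le (by norm_num) (by linarith only [h1, Real.add_one_le_exp (c.lam / 3)])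

theorem num : Hier Num := by
  refine (((((Hier.base.and (Hier.a_le (fun _ => 1 / 4) (fun _ _ _ _ _ _ => rfl)
    (Hier.of_all fun _ => by norm_num))).and
    (Hier.β_ge (fun _ => 100) fun _ _ _ => rfl)).and
    (Hier.lam_ge (fun c => 10 ^ 11 * c.CG) fun _ _ => rfl)).and
    (Hier.L_ge (fun _ => 10) fun _ _ => rfl))).mono ?_
  rintro c ⟨⟨⟨⟨⟨h1, h2, -, -, -, h6⟩, h7, h8⟩, h9⟩, h10⟩, h11⟩
  exact ⟨h1, h2, h6, h7.le, h8, h9, h10, h11⟩

theorem st_fr (S : Sq) {n : ℤ} (hn : 0 ≤ n) : S.St c (S.fr (n + 1)) (n + 1) :=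
  ⟨by omega, S.fr_sol _, S.fr_self _, by
    rw [S.fr_lt (by omega), abs_zero]; exact (Real.exp_pos _).le⟩

/-- a bound fold point is close to a multiple of `π` -/
theorem sin_small (h : Num c) (hR : RHO_s c) {M : Mdl} {t : ℝ} {S : Sq} {ξ : ℤ → ℝ} {n p : ℤ}
    {Ls : List (ℤ × ℝ)} {D : ℝ} (hM : M.OK c) (ht : TI t) (ho : IsOrb c M t S n) (ok : S.OK c)
    (out : S.Out c ξ n) (ri : S.RInv c (S.fr (n + 1)) (n + 1) p) (bi : S.BInv c n Ls p)
    (hD : c.cb * E c ^ 2 ≤ D) (hρ : S.rho ξ n p ^ 2 ≤ D * c.L) :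
    c.L * Real.sin (S.X n) ^ 2 ≤ 3 * D := by
  have hE := E0 (c := c); have hE1 := h.E1; have hL := h.L1
  obtain ⟨kz, d1, -⟩ := bi.kz
  obtain b1 := ho.box n (by omega)
  have b2 := ho.box (n - 1) le_rfl
  obtain r1 := (hR S ξ n Ls p ok out ri bi).1 (n + 1) (by omega) ri.le
  rw [S.fr_self, mul_one, S.chi_succ, Sq.ch1, kz] at r1
  obtain r2 : Real.exp (-(1 - c.a) * (0 * c.chK + (1 - 0) * c.bl)) ≤ E c ^ 3 := by
    rw [← e_bl2]
    refine Real.exp_le_exp.2 ?_
    have := h.bl; have := h.lam; have := h.a1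
    (rename_i zq1 zq0; nlinarith only [zq1, zq0, this])
  obtain ⟨n0, sol, ne, sl⟩ := out
  obtain s1 : |ξ (n - 1) / ξ n| ≤ 1 := by
    rw [abs_div, div_le_one (abs_pos.2 ne)]
    refine sl.trans (mul_le_of_le_one_left (abs_nonneg _) (Real.exp_le_one_iff.2 ?_))
    linarith only [h.lam]
  obtain s2 : ξ (n + 1) / ξ n = S.a n + S.b n * (ξ (n - 1) / ξ n) := by
    rw [sol n le_rfl]; field_simp
  obtain s3 : S.b n ≤ E c ^ 6 := by
    rw [ho.hb n le_rfl, ← e_bl]; exact hM.b_N _ _ _ ht b1 b2 (.inl (by linarith only [d1]))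
  obtain s4 : |S.b n * (ξ (n - 1) / ξ n)| ≤ E c ^ 3 := by
    rw [abs_mul, abs_of_pos (ok.b_pos n0)]
    refine (mul_le_of_le_one_right (ok.b_pos n0).le s1).trans (s3.trans ?_)
    exact pow_le_pow_of_le_one hE.le hE1 (by norm_num)
  obtain s5 : |S.a n + c.L * Real.sin (S.X n)| ≤ E c ^ 3 := by
    rw [ho.ha n le_rfl]
    refine (hM.a_N _ _ _ ht b1 b2 (by linarith only [d1])).trans ?_
    rw [e_dl]; exact pow_le_pow_of_le_one hE.le hE1 (by norm_num)
  rw [s2] at r1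
  obtain s6 : |c.L * Real.sin (S.X n) + S.rho ξ n p| ≤ 3 * E c ^ 3 := by
    have a1 := abs_le.1 (r1.trans r2); have a2 := abs_le.1 s4; have a3 := abs_le.1 s5
    rw [abs_le]; constructor <;> linarith only [a1.1, a1.2, a2.1, a2.2, a3.1, a3.2]
  have s7 : (c.L * Real.sin (S.X n) + S.rho ξ n p) ^ 2 ≤ (3 * E c ^ 3) ^ 2 :=
    sq_le_sq' (abs_le.1 s6).1 (abs_le.1 s6).2
  obtain s8 : 18 * E c ^ 6 ≤ D * c.L := by
    obtain e1 : E c ^ 6 ≤ E c ^ 3 := pow_le_pow_of_le_one hE.le hE1 (by norm_num)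
    obtain e2 : 1000 * E c * E c ^ 2 ≤ c.cb * E c ^ 2 := by gcongr; exact h.Ecb
    obtain e3 : 0 < E c ^ 3 := by positivity
    obtain e4 : 0 ≤ D := le_trans (by have := h.cb0; (clear * - this hE; positivity)) hD
    nlinarith only [hD, e1, e2, e3, hL]
  obtain s9 : c.L * (c.L * Real.sin (S.X n) ^ 2) ≤ c.L * (3 * D) := by
    linarith only [hρ, s7, s8, sq_nonneg (c.L * Real.sin (S.X n) + 2 * S.rho ξ n p)]
  exact le_of_mul_le_mul_left s9 (by linarith only [hL])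

theorem cos_close {x y B : ℝ} (hs : 0 ≤ Real.cos x ↔ 0 ≤ Real.cos y) (hx : Real.sin x ^ 2 ≤ B)
    (hy : Real.sin y ^ 2 ≤ B) : |Real.cos y - Real.cos x| ≤ B := by
  have e1 := Real.sin_sq_add_cos_sq x; have e2 := Real.sin_sq_add_cos_sq y
  have l1 := Real.cos_le_one x; have l2 := Real.cos_le_one y
  have l3 := Real.neg_one_le_cos x; have l4 := Real.neg_one_le_cos y
  rw [abs_le]
  by_cases h0 : 0 ≤ Real.cos x
  · have h1 := hs.1 h0
    constructor <;> nlinarith only [hy, e1, e2, l1, l2, h1, hx, h0]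
  · have h1 : ¬ 0 ≤ Real.cos y := fun a => h0 (hs.2 a)
    push Not at h0 h1
    constructor <;> nlinarith only [hx, e1, l4, l3, h0, hy, e2, h1]

/-- the shadowing hypotheses from time `n + 1` -/
theorem shh (h : Num c) {M : Mdl} {t t' : ℝ} {S S' : Sq} {n m : ℤ} {D : ℝ} (hM : M.OK c) (ht : TI t)
    (ht' : TI t') (ho : IsOrb c M t S (n + 1)) (ho' : IsOrb c M t' S' (n + 1)) (ok : S.OK c)
    (n0 : 0 ≤ n) (hm : n < m) (d1 : 1 ≤ dP (S.X (n + 1)))
    (sp : ∀ j, n < j → j ≤ m → ∑ i ∈ Ico (n + 1) j, |S.fr (i + 1) j| ≤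
      Real.exp (-c.lam / 3) * S.wp c n j)
    (hD : c.cb * E c ^ 2 ≤ D) (hZ : |S'.X (n + 1) - S.X (n + 1) - (t' - t)| ≤ 4 * D)
    (hA : (|t' - t| + 4 * D) * S.AA c (S.fr (n + 1)) (n + 1) m ≤ 20 * c.cb) :
    ShH c M t t' S S' (2 / 100) (S.wp c n) (S.AA c (S.fr (n + 1)) (n + 1))
      (fun j => (S'.X (n + 1) - S.X (n + 1)) * S.fr (n + 1) j) (|t' - t| + 4 * D) (n + 1) m := by
  have hE := E0 (c := c); have hE1 := h.E1; have hL := h.L1; have hcb := h.cb0; have hcg := h.cg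
  obtain D0 : 0 < D := lt_of_lt_of_le (by (clear * - hcb hE; positivity)) hD
  obtain ⟨ce, mj, -⟩ := Sq.cert_wh ok h.k_lo h.k_hi (by linarith only [h.lam]) h.chKbl
    (st_fr (c := c) S n0) (show n + 1 ≤ m by omega)
  set η := |t' - t| + 4 * D with hη
  set Z := S'.X (n + 1) - S.X (n + 1) with hZd
  have τ0 := abs_nonneg (t' - t)
  obtain η0 : 0 < η := by (clear * - D0; positivity)
  obtain hZη : |Z| ≤ η := by
    have := abs_sub_abs_le_abs_sub Z (t' - t); linarith only [hZ, this]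
  obtain η1 : η ≤ 1 / 100 := by
    have := S.one_le_AA c (S.fr (n + 1)) (n + 1) m
    nlinarith only [hA, hcb, D0, this, τ0, h.cb2, h.l2]
  obtain w1 : 1 ≤ S.wp c n (n + 1) := by
    obtain this := S.abs_le_wh c (S.fr (n + 1)) (s := n + 1) (j := n + 1) (by omega)
    rwa [S.fr_self, abs_one] at this
  obtain ηw : c.cb * E c ^ 2 ≤ η * S.wp c n (n + 1) := by nlinarith only [hD, τ0, D0, η1, w1]
  obtain ηw2 : (c.cb * E c ^ 2) ^ 2 ≤ (η * S.wp c n (n + 1)) ^ 2 :=
    pow_le_pow_left₀ (by (clear * - hcb hE; positivity)) ηw 2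
  obtain b1 := ho.box (n + 1) (by omega)
  have b2 := ho.box (n + 1 - 1) le_rfl
  have b2' := ho'.box (n + 1 - 1) le_rfl
  obtain dX : |S'.X (n + 1 - 1) - S.X (n + 1 - 1)| ≤ 4 * c.L := by
    have := abs_sub (S'.X (n + 1 - 1)) (S.X (n + 1 - 1)); unfold Box at b2 b2'; linarith only [b2, b2', this]
  obtain hcl : c.L ≤ c.CG * c.L := le_mul_of_one_le_left (by linarith only [hL, D0, τ0, η1]) hcg
  obtain k1 : E c ≤ c.cb ^ 2 := by have := h.EL1; nlinarith only [hE, this, hL]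
  obtain k2 : E c ^ 6 ≤ (c.cb * E c ^ 2) ^ 2 := by
    calc E c ^ 6 ≤ E c ^ 5 := pow_le_pow_of_le_one hE.le hE1 (by norm_num)
      _ = E c * E c ^ 4 := by ring
      _ ≤ c.cb ^ 2 * E c ^ 4 := by gcongr
      _ = _ := by ring
  obtain k3 : E c ^ 12 * c.L ≤ (c.cb * E c ^ 2) ^ 2 := by
    calc E c ^ 12 * c.L ≤ E c ^ 5 * c.L := by
          gcongr ?_ * _; exact pow_le_pow_of_le_one hE.le hE1 (by norm_num)
      _ = E c * c.L * E c ^ 4 := by ring
      _ ≤ c.cb ^ 2 * E c ^ 4 := by gcongr; have := h.EL1; linarith only [hE, k1, this]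
      _ = _ := by ring
  obtain k4 : E c ^ 12 ≤ c.cb * E c ^ 2 := by
    calc E c ^ 12 ≤ E c ^ 3 := pow_le_pow_of_le_one hE.le hE1 (by norm_num)
      _ = E c * E c ^ 2 := by ring
      _ ≤ _ := by gcongr; linarith only [hcb, h.Ecb]
  refine ⟨hM, ht, ht', ho, ho', by omega, by norm_num, le_rfl, ce, η0.le, by linarith only [hcb, hA, h.cb2],
    ⟨fun j h1 h2 => ?_, fun j h1 h2 => ?_⟩, by simp [S.fr_self, hZd], ?_, ⟨c.dl, ⟨?_, .inl ⟨rfl, .inl ?_⟩⟩,
    ?_, ?_⟩, fun j h1 h2 => ?_⟩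
  · simp only [mj.1 j h1 h2]; ring
  · have := mj.2 j h1 h2
    rw [abs_mul]
    have h3 := abs_nonneg (S.fr (n + 1) j)
    obtain h4 : |S.fr (n + 1) j| ≤ S.wp c n j := by simpa [Sq.wp] using this
    nlinarith only [D0, h3, h4, τ0, hZη]
  · obtain s3 : S.b (n + 1) ≤ E c ^ 6 := by
      rw [ho.hb _ le_rfl, ← e_bl]; exact hM.b_N _ _ _ ht b1 b2 (.inl (by linarith only [d1, D0, τ0, η1]))
    simp only [S.fr_pred, mul_zero, sub_zero]
    calc _ ≤ E c ^ 6 * (4 * c.L) := by (clear * - s3 dX hE; gcongr)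
      _ ≤ (η * S.wp c n (n + 1)) ^ 2 * (100 * (c.CG * c.L)) := by
          gcongr ?_ * ?_
          · exact k2.trans ηw2
          · linarith only [hL, D0, τ0, η1, hcl]
      _ = _ := by ring
  · exact hZη.trans η1
  · linarith only [d1, D0, τ0, hZη, η1]
  · rw [e_dl]
    calc _ ≤ E c ^ 12 * (4 * c.L) := by (clear * - dX hE; gcongr)
      _ ≤ (η * S.wp c n (n + 1)) * (100 * (c.CG * c.L)) := by
          gcongr ?_ * ?_
          · exact k4.trans ηw
          · linarith only [hL, D0, τ0, η1, hcl]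
      _ = _ := by ring
  · rw [e_dl, ← sq_abs]
    calc _ ≤ E c ^ 12 * (4 * c.L) ^ 2 := by (clear * - dX hE; gcongr)
      _ = E c ^ 12 * c.L * (16 * c.L) := by ring
      _ ≤ (η * S.wp c n (n + 1)) ^ 2 * (100 * (c.CG * c.L)) := by
          gcongr ?_ * ?_
          · exact k3.trans ηw2
          · linarith only [hL, D0, τ0, η1, hcl]
      _ = _ := by ring
  · obtain s1 := sp j (by omega) h2
    have s2 : 0 ≤ S.wp c n j := S.wh_nonneg c _ _ _
    obtain s3 : Real.exp (-c.lam / 3) * S.wp c n j ≤ S.wp c n j :=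
      mul_le_of_le_one_left s2 (by linarith only [D0, τ0, η1, h.el3])
    calc _ ≤ |t' - t| * S.wp c n j := by gcongr; exact s1.trans s3
      _ ≤ _ := by gcongr; linarith only [D0]

theorem core (h : Num c) (hSH : SH_s c) (hFD : FD_s c) {M : Mdl} {t t' : ℝ} {S S' : Sq} {n m : ℤ}
    {D : ℝ} (hM : M.OK c) (ht : TI t)
    (ht' : TI t') (ho : IsOrb c M t S (n + 1)) (ho' : IsOrb c M t' S' (n + 1)) (ok : S.OK c)
    (n0 : 0 ≤ n) (hm : n < m) (d1 : 1 ≤ dP (S.X (n + 1)))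
    (ri : S.RInv c (S.fr (n + 1)) (n + 1) m)
    (sp : ∀ j, n < j → j ≤ m → ∑ i ∈ Ico (n + 1) j, |S.fr (i + 1) j| ≤
      Real.exp (-c.lam / 3) * S.wp c n j)
    (hD : c.cb * E c ^ 2 ≤ D) (hZ : |S'.X (n + 1) - S.X (n + 1) - (t' - t)| ≤ 4 * D)
    (hA : (|t' - t| + 4 * D) * S.AA c (S.fr (n + 1)) (n + 1) m ≤ 20 * c.cb) :
    |S'.X m - S.X m - (t' - t) * S.fr (n + 1) m| ≤ (|t' - t| / 100 + 8 * D) * |S.fr (n + 1) m| ∧
    |S'.fr (n + 1) m - S.fr (n + 1) m| ≤ |S.fr (n + 1) m| / 100 ∧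
    (S.kk m = 0 → S.b m * |S'.X (m - 1) - S.X (m - 1)
        - S.fr (n + 1) (m - 1) / S.fr (n + 1) m * (S'.X m - S.X m)|
      ≤ Real.exp (-c.bl / 4) * (|t' - t| + 8 * D + c.L * ((|t' - t| + 8 * D) * |S.fr (n + 1) m|) ^ 2)) ∧
    (S.kk m = 0 → S.b m *
        |S'.fr (n + 1) (m - 1) / S'.fr (n + 1) m - S.fr (n + 1) (m - 1) / S.fr (n + 1) m|
      ≤ Real.exp (-c.bl / 4) * c.L * ((|t' - t| + 8 * D) * |S.fr (n + 1) m|)) := by
  have H := shh h hM ht ht' ho ho' ok n0 hm d1 sp hD hZ hA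
  have hE := E0 (c := c); have hE1 := h.E1; have hL := h.L1; have hcb := h.cb0
  obtain D0 : 0 < D := lt_of_lt_of_le (by (clear * - hcb hE; positivity)) hD
  obtain ⟨-, mj, -⟩ := Sq.cert_wh ok h.k_lo h.k_hi (by linarith only [h.lam]) h.chKbl
    (st_fr (c := c) S n0) (show n + 1 ≤ m by omega)
  obtain ⟨c1, -, -, -, c5, -, -⟩ := hSH _ _ _ _ _ _ _ _ _ _ _ _ H
  have wm : S.wp c n m = |S.fr (n + 1) m| := ri.whm
  have τ0 := abs_nonneg (t' - t)
  have w0 := abs_nonneg (S.fr (n + 1) m)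
  have ks : c.KS * ((|t' - t| + 4 * D) * S.AA c (S.fr (n + 1)) (n + 1) m) ≤ 1 / 1000 :=
    (mul_le_mul_of_nonneg_left hA h.KS.1).trans h.KS.2
  obtain x24 : Real.exp (-c.bl / 2) ≤ Real.exp (-c.bl / 4) :=
    Real.exp_le_exp.2 (by linarith only [h.bl, h.lam])
  have x0 := Real.exp_pos (-c.bl / 4)
  obtain dec : S.Dec c (2 / 100) (1000 * c.lam) (S.wp c n) (n + 1) m := by
    intro i h1 h2
    obtain ⟨e1, e2⟩ := ri.i2 i h1 h2
    obtain f1 : S.ff c (n + 1) i ≤ 1000 * c.lam := by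
      have := Real.exp_pos (-S.chi c (n + 1) i / 24); have := h.lam
      unfold Sq.ff; (rename_i zq0; linarith only [zq0, this])
    have f2 := S.chi_nonneg c h.chK0.le h.chKbl i m
    have f3 := mul_nonneg h.a0 f2
    obtain f4 : 0 ≤ 1000 * c.lam := by linarith only [h.lam]
    rw [wm]
    refine ⟨e1.trans ?_, e2.trans ?_⟩ <;> gcongr ?_ * Real.exp ?_ * _ <;> linarith only [f3]
  refine ⟨?_, ?_, fun kz => ?_, fun kz => ?_⟩
  · obtain e1 := (c1 m (by omega) le_rfl).2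
    rw [wm] at e1
    obtain e2 : |∑ i ∈ Ico (n + 1) m, S.fr (i + 1) m * M.Gt t (S.X i) (S.X (i - 1))| ≤
        2 * ∑ i ∈ Ico (n + 1) m, |S.fr (i + 1) m| := by
      rw [mul_sum]
      refine (abs_sum_le_sum_abs _ _).trans (sum_le_sum fun i hi => ?_)
      have i1 := (mem_Ico.1 hi).1
      obtain g1 := abs_le.1 (hM.t_all t _ _ ht (ho.box i (by omega)) (ho.box (i - 1) (by omega)))
      obtain g2 : c.dl ≤ 1 := by rw [e_dl]; exact pow_le_one₀ hE.le hE1
      obtain g3 : |M.Gt t (S.X i) (S.X (i - 1))| ≤ 2 := by rw [abs_le]; constructor <;> linarith only [g1, g2]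
      rw [abs_mul, mul_comm 2]; gcongr
    have e3 := sp m hm le_rfl
    rw [wm] at e3
    obtain e4 : Real.exp (-c.lam / 3) * |S.fr (n + 1) m| ≤ 1 / 1000 * |S.fr (n + 1) m| := by
      gcongr; exact h.el3
    set T := ∑ i ∈ Ico (n + 1) m, S.fr (i + 1) m * M.Gt t (S.X i) (S.X (i - 1))
    obtain e5 : |(t' - t) * T| ≤ |t' - t| * (1 / 500 * |S.fr (n + 1) m|) := by
      rw [abs_mul]; gcongr; linarith only [e3, e4, e2]
    obtain e6 : |(S'.X (n + 1) - S.X (n + 1) - (t' - t)) * S.fr (n + 1) m| ≤ 4 * D * |S.fr (n + 1) m| := by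
      rw [abs_mul]; gcongr
    obtain e7 := e1.trans (mul_le_mul_of_nonneg_right ks (by (clear * - D0; positivity)))
    obtain e8 : S'.X m - S.X m - (t' - t) * S.fr (n + 1) m =
        (S'.X m - S.X m - (S'.X (n + 1) - S.X (n + 1)) * S.fr (n + 1) m - (t' - t) * T)
        + (t' - t) * T + (S'.X (n + 1) - S.X (n + 1) - (t' - t)) * S.fr (n + 1) m := by ring
    rw [e8]
    refine (abs_add_three _ _ _).trans ?_
    linarith only [e5, e6, e7, mul_nonneg τ0 w0, mul_nonneg D0.le w0]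
  · obtain e1 := c5 n 1 le_rfl (fun l h1 h2 => mj.2 l (by omega) h2) m hm le_rfl
    rw [wm, mul_one] at e1
    have := mul_le_mul_of_nonneg_right ks w0
    linarith only [w0, e1, this]
  · rcases (show n + 1 = m ∨ n + 1 < m by omega) with rfl | hlt
    · have b2 := ho.box (n + 1 - 1) le_rfl
      have b2' := ho'.box (n + 1 - 1) le_rfl
      obtain dX : |S'.X (n + 1 - 1) - S.X (n + 1 - 1)| ≤ 4 * c.L := by
        have := abs_sub (S'.X (n + 1 - 1)) (S.X (n + 1 - 1)); unfold Box at b2 b2'; linarith only [b2, b2', this]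
      obtain s3 : S.b (n + 1) ≤ Real.exp (-c.bl / 4) * E c ^ 4 := by
        rw [ho.hb _ le_rfl, E_pow, ← Real.exp_add]
        refine (hM.b_N _ _ _ ht (ho.box (n + 1) (by omega)) b2 (.inl (by linarith only [d1]))).trans ?_
        exact Real.exp_le_exp.2 (by push_cast; linarith only [h.bl, h.lam])
      obtain s4 : E c ^ 4 * (4 * c.L) ≤ 8 * D := by
        obtain a1 : E c * c.L ≤ c.cb := by have := h.EL1; have := h.cb1; (rename_i zq0; nlinarith only [hE, zq0, hL, hcb, this])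
        obtain a2 : E c ^ 4 ≤ E c ^ 3 := pow_le_pow_of_le_one hE.le hE1 (by norm_num)
        calc _ ≤ E c ^ 3 * (4 * c.L) := by (clear * - a2 hL; gcongr)
          _ = 4 * (E c * c.L * E c ^ 2) := by ring
          _ ≤ 4 * (c.cb * E c ^ 2) := by (clear * - a1 hE; gcongr)
          _ ≤ _ := by linarith only [hD, D0]
      rw [S.fr_pred, zero_div, zero_mul, sub_zero]
      calc _ ≤ Real.exp (-c.bl / 4) * E c ^ 4 * (4 * c.L) := by (clear * - s3 dX hE; gcongr)
        _ = Real.exp (-c.bl / 4) * (E c ^ 4 * (4 * c.L)) := by ring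
        _ ≤ _ := by
          gcongr
          obtain this : 0 ≤ c.L * ((|t' - t| + 8 * D) * |S.fr (n + 1) (n + 1)|) ^ 2 := by (clear * - hL; positivity)
          linarith only [τ0, s4, this]
    · obtain e1 := (hFD _ _ _ _ _ _ _ _ _ _ _ _ H hlt kz dec _ mj (by rw [wm]; linarith only [w0])).1
        ⟨_, fun _ => rfl⟩
      rw [wm] at e1
      refine e1.trans ?_
      gcongr <;> linarith only [D0]
  · rcases (show n + 1 = m ∨ n + 1 < m by omega) with rfl | hlt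
    · rw [S.fr_pred, S'.fr_pred, zero_div, zero_div, sub_zero, abs_zero, mul_zero]
      (clear * - hL D0; positivity)
    · obtain e1 := (hFD _ _ _ _ _ _ _ _ _ _ _ _ H hlt kz dec _ mj (by rw [wm]; linarith only [w0])).2
        (S'.fr (n + 1)) (fun j h1 _ => S'.fr_succ h1) (by rw [S.fr_self, S'.fr_self]) (by
          rw [S.fr_pred, S'.fr_pred, mul_zero, mul_zero, sub_zero, abs_zero]
          have := h.cg; (clear * - this hL D0; positivity))
      rw [wm] at e1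
      refine e1.trans ?_
      gcongr; linarith only []

theorem epl_of (h : Num c) (hS : SOK_s c) (hSH : SH_s c) (hFD : FD_s c) (hR : RHO_s c)
    (hE : EEL_s c) : EPL_s c := by
  intro Ex M z z' k st hz hz' k1 k2 k3 k4 hcos x hx hτ
  have hM := st.2.2
  have hcb := h.cb0; have hL := h.L1
  obtain ⟨el, -, sp, -⟩ := hE Ex M z st hz
  obtain ⟨el', -⟩ := hE Ex M z' st hz'
  set D := c.cb * Real.exp (-k) with hDd
  obtain D0 : 0 < D := by positivity
  obtain hD : c.cb * E c ^ 2 ≤ D := by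
    rw [E_pow]
    exact mul_le_mul_of_nonneg_left (Real.exp_le_exp.2 (by push_cast; linarith only [k1, k4])) hcb.le
  obtain key : ∀ y : EDat, y.Viol c Ex M → (∀ x ∈ y.Lf, y.El c Ex M x) → k ≤ y.V c M →
      (y.S M).OK c ∧ IsOrb c M y.t (y.S M) (y.n + 1) ∧ c.L * Real.sin ((y.S M).X y.n) ^ 2 ≤ 3 * D ∧
      |(y.S M).X (y.n + 1) - c.L * Real.cos ((y.S M).X y.n) - y.t| ≤ E c ^ 3 ∧
      1 ≤ dP ((y.S M).X (y.n + 1)) := by
    intro y hy ey ky
    obtain ⟨-, s2, s3⟩ := hS M hM y.t hy.ht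
    obtain ⟨o0, ok⟩ := s2 y.v hy.hv
    have n0 := hy.out.1
    have on := (s3 _ _ y.n o0 n0).1
    obtain e := ey (y.p, y.r) (by simp [EDat.Lf])
    obtain ⟨L0, bi⟩ := e.binv
    refine ⟨ok, (s3 _ _ (y.n + 1) o0 (by omega)).1,
      sin_small h hR hM hy.ht on ok hy.out e.rinv bi hD ?_, ?_, bi.kz.2.2⟩
    · have b : (y.S M).rho y.ξ y.n y.p ^ 2 * Real.exp (y.V c M) ≤ c.cb * c.L := hy.bd
      obtain b1 : (y.S M).rho y.ξ y.n y.p ^ 2 * Real.exp k ≤ c.cb * c.L :=
        le_trans (by (clear * - ky; gcongr)) b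
      rw [← le_div_iff₀ (Real.exp_pos _)] at b1
      refine b1.trans_eq ?_
      rw [hDd, Real.exp_neg]; field_simp
    · obtain this := hM.valN y.t _ _ hy.ht (on.box y.n (by omega)) (on.box (y.n - 1) le_rfl)
        (le_trans (by norm_num) bi.kz.2.1)
      rw [← on.step y.n le_rfl, e_bl2] at this
      exact this
  obtain ⟨ok, on, s1, v1, d1⟩ := key z hz el k1
  obtain ⟨-, on', s1', v1', -⟩ := key z' hz' el' k3
  have e := el x hx
  obtain on2 : IsOrb c M z'.t ((z'.S M).shift (z'.n - z.n)) (z.n + 1) := by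
    have := on'.shift (z'.n - z.n)
    rwa [show z'.n + 1 - (z'.n - z.n) = z.n + 1 by ring] at this
  obtain cc := cos_close hcos (B := 3 * D / c.L) (by rw [le_div_iff₀ (by linarith only [hL])]; linarith only [s1])
    (by rw [le_div_iff₀ (by linarith only [hL])]; linarith only [s1'])
  rw [le_div_iff₀ (by linarith only [hL]), ← abs_of_pos (show 0 < c.L by linarith only [hL]), ← abs_mul] at cc
  obtain E3 : 2 * E c ^ 3 ≤ D := by
    obtain a1 : 1000 * E c * E c ^ 2 ≤ c.cb * E c ^ 2 := by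
      have := E0 (c := c); gcongr; exact h.Ecb
    have : 0 < E c ^ 3 := pow_pos E0 3
    linarith only [hD, a1, this]
  obtain hZ : |((z'.S M).shift (z'.n - z.n)).X (z.n + 1) - (z.S M).X (z.n + 1) - (z'.t - z.t)|
      ≤ 4 * D := by
    obtain a0 : ((z'.S M).shift (z'.n - z.n)).X (z.n + 1) = (z'.S M).X (z'.n + 1) := by
      simp only [Sq.shift]; congr 1; ring
    have a1 := abs_le.1 v1; have a2 := abs_le.1 v1'; have a3 := abs_le.1 cc
    rw [a0, abs_le]
    constructor <;> linarith only [E3, a1.1, a1.2, a2.1, a2.2, a3.1, a3.2]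
  obtain e3 : Real.exp (-k) * Real.exp (z.V c M) ≤ 3 := by
    rw [← Real.exp_add]
    exact (Real.exp_le_exp.2 (by linarith only [k2])).trans (Real.exp_one_lt_d9.le.trans (by norm_num))
  have A1 := (z.S M).one_le_AA c ((z.S M).fr (z.n + 1)) (z.n + 1) x.1
  obtain AW : (z.S M).AA c ((z.S M).fr (z.n + 1)) (z.n + 1) x.1 = Real.exp (z.W c M x.1) :=
    (Real.exp_log (by linarith only [A1])).symm
  obtain hA : (|z'.t - z.t| + 4 * D) * (z.S M).AA c ((z.S M).fr (z.n + 1)) (z.n + 1) x.1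
      ≤ 20 * c.cb := by
    rw [AW]
    obtain cw0 : 0 ≤ c.cw := by unfold Cs.cw; (clear * -; positivity)
    obtain a1 : z.Rad c M x ≤ c.cw * Real.exp (-z.W c M x.1) := by
      unfold EDat.Rad
      gcongr
      split_ifs
      · exact le_max_left _ _
      · exact le_rfl
    obtain a2 : |z'.t - z.t| * Real.exp (z.W c M x.1) ≤ c.cb := by
      rw [← le_div_iff₀ (Real.exp_pos _), div_eq_mul_inv, ← Real.exp_neg]
      exact hτ.trans (a1.trans (by gcongr; exact h.cwb))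
    obtain a3 : Real.exp (-k) * Real.exp (z.W c M x.1) ≤ 3 :=
      le_trans (by gcongr; exact e.lev.2) e3
    have a4 := mul_le_mul_of_nonneg_left a3 hcb.le
    rw [hDd]; linarith only [hcb, a2, a4]
  obtain ⟨p1, p2, p3, p4⟩ := core h hSH hFD hM hz.ht hz'.ht on on2 ok hz.out.1 e.lt d1 e.rinv
    (fun j h1 h2 => sp j h1 (h2.trans e.le)) hD hZ hA
  obtain i1 : x.1 + (z'.n - z.n) = x.1 - z.n + z'.n := by ring
  obtain i2 : x.1 - 1 + (z'.n - z.n) = x.1 - z.n + z'.n - 1 := by ring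
  obtain i3 : z.n + 1 + (z'.n - z.n) = z'.n + 1 := by ring
  have i4 : ∀ j, ((z'.S M).shift (z'.n - z.n)).X j = (z'.S M).X (j + (z'.n - z.n)) := fun _ => rfl
  simp only [Sq.fr_shift, i4, i1, i2, i3] at p1 p2 p3 p4
  refine ⟨8 * D, by positivity, ?_, p1, p2, p3, p4⟩
  have w0 : 0 < |z.f M x.1| := abs_pos.2 e.rinv.ne
  obtain a1 : |z.f M x.1| * Real.exp x.2 ≤ Real.exp (z.V c M) := by
    rw [← Real.exp_log w0, ← Real.exp_add]; exact Real.exp_le_exp.2 e.lev.1
  obtain a2 : Real.exp (-k) * (|z.f M x.1| * Real.exp x.2) ≤ 3 := le_trans (by (clear * - a1; gcongr)) e3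
  have a3 := mul_le_mul_of_nonneg_left a2 hcb.le
  have := h.cb2; have := h.l2
  rw [hDd]; (rename_i zq0; linarith only [hcb, a3, zq0, this])

end EPL

theorem epl : Hier fun c => SOK_s c → SH_s c → FD_s c → RHO_s c → EEL_s c → EPL_s c :=
  EPL.num.mono fun _ => EPL.epl_of

end Pool.Agent.MP_9cbfe4_an

end

/-! ### Part EDICH -/

section

/-! Row DICH of section E-B: either a high jet dominates or the stage fails. -/

namespace Pool.Agent.MP_9cbfe4_an.E

open Finset Real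

namespace DICH

lemma absorb {fl T DD D w ν u A S B : ℝ} (h0 : 0 ≤ fl) (hT : 0 ≤ T) (hD : 0 ≤ DD) (hA : 0 ≤ A)
    (hB : 0 ≤ B) (hw : 0 ≤ w) (h1 : fl ≤ A * (u + ν)) (h2 : u ≤ S * (T + fl) * D)
    (h3 : ν ≤ B * (DD + w * fl)) (h4 : w * T ≤ DD) (h5 : A * S * D ≤ 1 / 4) (h6 : A * B * w ≤ 1 / 4) :
    fl ≤ T / 2 + 2 * (A * B) * DD ∧ ν ≤ 2 * B * DD := by
  have a := mul_le_mul_of_nonneg_left (add_le_add h2 h3) hA
  have b := mul_le_mul_of_nonneg_right h5 (add_nonneg hT h0)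
  have c := mul_le_mul_of_nonneg_right h6 h0
  obtain d : fl ≤ T / 2 + 2 * (A * B) * DD := by linarith only [h1, a, b, c]
  refine ⟨d, h3.trans ?_⟩
  have e := mul_le_mul_of_nonneg_left d hw
  have f := mul_le_mul_of_nonneg_right h6 hD
  obtain g : DD + w * fl ≤ 2 * DD := by linarith only [h4, e, f]
  linarith only [mul_le_mul_of_nonneg_left g hB]

lemma exp_max_le (a b c : ℝ) : exp (c + max a b) ≤ exp c * (exp a + exp b) := by
  rw [exp_add]
  refine mul_le_mul_of_nonneg_left ?_ (exp_pos _).le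
  rcases max_cases a b with h | h <;> rw [h.1] <;> linarith only [exp_pos a, exp_pos b]

lemma two_le {a b : ℝ} (h : a + 1 ≤ b) : 2 * exp a ≤ exp b := by
  have h1 := add_one_le_exp (1 : ℝ)
  calc 2 * exp a ≤ exp 1 * exp a := by gcongr; linarith only [h1]
    _ = exp (a + 1) := by rw [← exp_add, add_comm]
    _ ≤ _ := exp_le_exp.2 h

lemma quarter {a : ℝ} (h : a ≤ -2) : exp a ≤ 1 / 4 := by
  have h1 := two_le (a := a) (b := a + 1) le_rfl
  obtain h2 := two_le (a := a + 1) (b := 0) (by linarith only [h])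
  rw [exp_zero] at h2
  linarith only [h1, h2]

variable {k : Par} {p : Pr} {s : St} {D : ℝ}

/-- the index at which the jets become visible -/
lemma index (hk : k.OK) (hs : p.toSk.OK k.toEK) (hl : p.LA k) (sd : p.SD k s) (vl : p.VL k s D) :
    ∃ n, s.B < n ∧ n ≤ s.B' ∧ p.Jle k n D (exp (-k.G - 2 * k.ς - p.W n)) ∧
      (n = s.B' ∨ ∃ j, 1 ≤ j ∧ j ≤ k.K ∧ exp (-(3 * k.G) - p.W n) ≤ |p.La j n| * D ^ j) := by
  classical
  have ex : ∃ n, s.B < n ∧ (n = s.B' ∨ ∃ j, 1 ≤ j ∧ j ≤ k.K ∧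
      exp (-(3 * k.G) - p.W n) ≤ |p.La j n| * D ^ j) := ⟨s.B', sd.lt, .inl rfl⟩
  have h1 := Nat.find_spec ex
  have h2 : Nat.find ex ≤ s.B' := Nat.find_min' ex ⟨sd.lt, .inl rfl⟩
  have h3 := fun m => Nat.find_min ex (m := m)
  generalize Nat.find ex = n at h1 h2 h3
  refine ⟨n, h1.1, h2, ?_, h1.2⟩
  have eG := hk.G_eq
  rcases (Nat.succ_le_of_lt h1.1).eq_or_lt with h | h
  · have := vl.jet
    rw [← h]
    convert this using 2
    linarith only [eG]
  · obtain ⟨m, rfl⟩ : ∃ m, n = m + 1 := ⟨n - 1, by omega⟩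
    obtain hm : s.B < m := by omega
    obtain h4 := h3 m (by omega)
    obtain J : p.Jle k m D (exp (-(3 * k.G) - p.W m)) := fun j a b => by
      by_contra hc
      exact h4 ⟨hm, .inr ⟨j, a, b, (not_le.1 hc).le⟩⟩
    have i1 := sd.inr _ h2
    obtain i0 := sd.inr m (by omega)
    have w1 := hs.W_succ hk i1.1 i1.2
    have w2 := hs.ω_le hk i0.1
    have w3 := hs.W_le hk i0.1 i0.2
    obtain sh := sd.shal m hm (by omega)
    have := hk.G_ge
    have := hk.u_le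
    have := hk.φ_le
    have := hk.φ_ge
    have := sd.hv
    have := sd.r1
    have := vl.c1
    have A := hl.j1f m (m + 1) D _ (by omega) i1 vl.D0
      (by rw [sd.rst _ (by omega) h2]; (rename_i zq5 zq4 zq3 zq2 _ zq0; linarith only [eG, zq5, zq4, zq3, zq2, zq0, this])) J
      (fun l a b => by
        obtain rfl : l = m := by omega
        rw [← exp_log vl.D0, ← exp_add]
        refine exp_le_exp.2 ?_
        unfold Sk.V
        (rename_i zq5 zq4 zq3 zq2 zq1 zq0; linarith only [zq5, zq4, zq3, zq2, zq1, zq0, this, w3, sh]))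
      (by rw [← exp_add]; exact exp_le_exp.2 (by (rename_i zq5 zq4 zq3 zq2 _ _; linarith only [eG, w1, w2, sh, zq5, zq4, zq3, zq2])))
    intro j a b
    refine (A j a b).trans ?_
    rw [← exp_add]
    exact exp_le_exp.2 (by (rename_i zq5 zq4 zq3 zq2 _ _; linarith only [eG, w1, w2, sh, zq5, zq4, zq3, zq2]))

end DICH

open DICH in
theorem dich : DICH_s := by
  intro k p s D hk hs hl sd vl
  obtain ⟨n, n1, n2, J, hn⟩ := index hk hs hl sd vl
  have eG := hk.G_eq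
  have := hk.G_ge
  have := hk.u_le
  have := hk.φ_le
  have := hk.φ_ge
  have := hk.θρ
  have := sd.hv
  have := sd.r1
  have := sd.r3
  have D0 := vl.D0
  have K10 := hk.K10
  have i0 := sd.inr n n2
  have i1 := sd.inr _ le_rfl
  have w1 := hs.W_le hk i0.1 i0.2
  have w2 := hs.W_le hk i1.1 i1.2
  have w3 := hs.W_mono n2 i1.1
  have eR := sd.rst n n1 n2
  obtain ⟨j0, hj0, hmax⟩ := exists_max_image (Icc 2 k.K) (fun j => |p.La j n| * D ^ j)
    ⟨2, mem_Icc.2 ⟨le_rfl, by omega⟩⟩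
  rw [mem_Icc] at hj0
  obtain ⟨L, hL⟩ : ∃ L, L = log D := ⟨_, rfl⟩
  obtain eD : D = exp L := by rw [hL, exp_log D0]
  have c1 : L ≤ -2 * s.r - 30 * k.G := hL ▸ vl.c1
  set u := |p.La 1 n| * D with hu
  obtain u0 : 0 ≤ u := by (clear * - D0; positivity)
  obtain u1 : u ≤ exp (-k.G - 2 * k.ς - p.W n) := by simpa using J 1 le_rfl (by omega)
  set mx := exp (k.g * k.ς) * (u ^ 2 * exp (p.W n) + u * D * exp (2 * p.Rst n)) with hmx
  obtain mxu : mx ≤ u := by
    obtain a : exp (k.g * k.ς) * (u * exp (p.W n)) ≤ 1 / 4 := by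
      calc _ ≤ exp (k.g * k.ς) * (exp (-k.G - 2 * k.ς - p.W n) * exp (p.W n)) := by (clear * - u1; gcongr)
        _ ≤ _ := by rw [← exp_add, ← exp_add]; exact quarter (by (rename_i zq5 zq4 zq3 _ _ _; linarith only [eG, zq5, zq4, zq3]))
    obtain b : exp (k.g * k.ς) * (D * exp (2 * p.Rst n)) ≤ 1 / 4 := by
      rw [eD, ← exp_add, ← exp_add]; exact quarter (by (rename_i zq6 zq5 zq4 zq3 _ _ zq0; linarith only [eG, zq6, zq5, zq4, zq3, zq0, eR, c1]))
    calc mx = u * (exp (k.g * k.ς) * (u * exp (p.W n)) + exp (k.g * k.ς) * (D * exp (2 * p.Rst n))) := by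
          rw [hmx]; ring
      _ ≤ u * (1 / 4 + 1 / 4) := by (clear * - a b D0; gcongr)
      _ ≤ u := by linarith only [u0]
  obtain adm : ∀ ν, ν = max (|p.La j0 n| * D ^ j0) mx → p.Adm k n D u ν := by
    rintro ν rfl
    refine ⟨i0, fun x hx => sd.nonc x (by omega), D0, ?_, le_rfl,
      fun j a b => (hmax j (mem_Icc.2 ⟨a, b⟩)).trans (le_max_left _ _), ?_, le_max_right _ _⟩
    · obtain a : k.θ * p.Rst n ≤ k.θ * (1601 * k.ρ) :=
        mul_le_mul_of_nonneg_left (by (rename_i zq0; linarith only [zq0, this, eR])) hk.θpos.le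
      rw [← hL]
      (rename_i zq6 zq5 zq4 zq3 zq2 _ zq0; linarith only [eG, zq6, zq5, zq4, zq3, zq2, zq0, eR, c1, a])
    · obtain a : max (|p.La j0 n| * D ^ j0) mx ≤ exp (-k.G - 2 * k.ς - p.W n) :=
        max_le (J j0 (by omega) hj0.2) (mxu.trans u1)
      calc _ ≤ (2 * exp (-k.G - 2 * k.ς - p.W n)) * exp (p.W n) := by gcongr; linarith only [u1, a]
        _ = 2 * exp (-k.G - 2 * k.ς) := by rw [mul_assoc, ← exp_add]; congr 2; ring
        _ ≤ _ := two_le (by (rename_i zq5 zq4 zq3 _ _ _; linarith only [eG, zq5, zq4, zq3]))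
  set fl := exp (-p.ω n) with hfl
  have fl0 : 0 < fl := exp_pos _
  obtain β1 : 1 ≤ s.β := one_le_exp (by (rename_i zq6 zq5 zq4 zq3 _ zq1 zq0; linarith only [zq6, zq5, zq4, zq3, zq1, zq0]))
  obtain D1 : D ≤ 1 := by rw [eD]; exact exp_le_one_iff.2 (by (rename_i zq6 zq5 zq4 zq3 _ zq1 zq0; linarith only [zq6, zq5, zq4, zq3, zq1, zq0, c1]))
  have t1 := exp_pos (s.t1 : ℝ)
  have t2 := exp_pos (s.t2 : ℝ)
  have t3 := exp_pos (s.t3 : ℝ)
  obtain DD2 : exp s.t2 * D ^ 2 ≤ s.DD D := by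
    obtain a : 0 ≤ exp s.t3 * D ^ 3 := by positivity
    obtain b : 0 ≤ s.β * exp s.t1 * D ^ 2 := by positivity
    unfold St.DD St.D2; linarith only [a, b]
  obtain DD1 : s.β * D ^ 2 * exp s.t1 ≤ s.DD D := by
    obtain a : 0 ≤ exp s.t3 * D ^ 3 := by positivity
    obtain b : 0 ≤ exp s.t2 * D ^ 2 := by positivity
    unfold St.DD St.D2; linarith only [a, b]
  obtain DD3 : exp s.t3 * D ^ 3 ≤ s.DD D := by
    obtain a : 0 ≤ s.β * exp s.t1 * D ^ 2 := by positivity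
    obtain b : 0 ≤ exp s.t2 * D ^ 2 := by positivity
    unfold St.DD St.D2; linarith only [a, b]
  obtain DD0 : 0 ≤ s.DD D := le_trans (by positivity) DD3
  obtain f2 : fl * D ^ 2 ≤ s.β * D ^ 2 * fl := by
    rw [mul_assoc, mul_comm (D ^ 2)]
    exact le_mul_of_one_le_left (by positivity) β1
  obtain f3 : fl * D ^ 3 ≤ fl * D ^ 2 :=
    mul_le_mul_of_nonneg_left (pow_le_pow_of_le_one D0.le D1 (by norm_num)) fl0.le
  set X := s.DD D + s.β * D ^ 2 * fl with hX
  obtain X0 : 0 ≤ X := by (clear * - DD0 β1 D0; positivity)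
  obtain mono : ∀ a : ℝ, a ≤ 5 * k.G → exp a * X ≤ exp (5 * k.G) * X := fun a h => by (clear * - h DD0 β1 D0; gcongr)
  have u2 : u ≤ exp k.ς * (exp s.t1 + fl) * D :=
    mul_le_mul_of_nonneg_right ((sd.j1 n n1 n2).trans (exp_max_le _ _ _)) D0.le
  obtain mxX : mx ≤ exp (5 * k.G) * X := by
    obtain a : u * D * exp (2 * p.Rst n) ≤ exp (3 * k.ς) * X := by
      obtain b : exp (2 * p.Rst n) ≤ s.β := exp_le_exp.2 (by (rename_i zq0; linarith only [zq0, eR]))
      calc _ ≤ exp k.ς * (exp s.t1 + fl) * D * D * s.β := by (clear * - u2 D0 b; gcongr)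
        _ = exp k.ς * (s.β * D ^ 2 * exp s.t1 + s.β * D ^ 2 * fl) := by ring
        _ ≤ exp (3 * k.ς) * X := by gcongr <;> (rename_i zq5 zq4 zq3 _ _ _; linarith only [zq5, zq4, zq3, DD1])
    obtain b : u ^ 2 * exp (p.W n) ≤ exp (3 * k.ς) * X := by
      obtain c : exp (k.ς + max (s.t1 : ℝ) (-p.ω n)) ^ 2 * exp (p.W n) ≤
          exp (3 * k.ς + max (s.t2 : ℝ) (-p.ω n)) := by
        rw [← exp_nat_mul, ← exp_add]
        refine exp_le_exp.2 ?_
        have := le_max_left (s.t2 : ℝ) (-p.ω n)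
        have := le_max_right (s.t2 : ℝ) (-p.ω n)
        have := sd.t12
        have := sd.f2
        push_cast
        rcases max_cases (s.t1 : ℝ) (-p.ω n) with h | h <;> rw [h.1] <;> (rename_i zq9 zq8 zq7 _ _ _ _ zq2 zq1 zq0; linarith only [zq9, zq8, zq7, w2, w3, zq2, zq0, this, w1, zq1])
      have d := sd.j1 n n1 n2
      calc _ = |p.La 1 n| ^ 2 * exp (p.W n) * D ^ 2 := by rw [hu]; ring
        _ ≤ exp (k.ς + max (s.t1 : ℝ) (-p.ω n)) ^ 2 * exp (p.W n) * D ^ 2 := by (clear * - d D0; gcongr)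
        _ ≤ exp (3 * k.ς) * (exp s.t2 + fl) * D ^ 2 :=
            mul_le_mul_of_nonneg_right (c.trans (exp_max_le _ _ _)) (by positivity)
        _ = exp (3 * k.ς) * (exp s.t2 * D ^ 2 + fl * D ^ 2) := by ring
        _ ≤ _ := mul_le_mul_of_nonneg_left (add_le_add DD2 f2) (exp_pos _).le
    calc mx ≤ exp (k.g * k.ς) * (exp (3 * k.ς) * X + exp (3 * k.ς) * X) := by rw [hmx]; (clear * - b a; gcongr)
      _ = 2 * exp (k.g * k.ς + 3 * k.ς) * X := by rw [exp_add]; ring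
      _ ≤ _ := mul_le_mul_of_nonneg_right (two_le (by (rename_i zq6 zq5 zq4 zq3 _ _ _; linarith only [eG, zq6, zq5, zq4, zq3]))) X0
  by_cases hH : p.HI k s D
  · exact .inl hH
  right
  obtain ⟨ν, hν⟩ : ∃ ν, ν = max (|p.La j0 n| * D ^ j0) mx := ⟨_, rfl⟩
  have A := adm ν hν
  obtain νX : ν ≤ exp (5 * k.G) * X := by
    rcases max_cases (|p.La j0 n| * D ^ j0) mx with h | h
    · rw [h.1] at hν
      rw [hν]
      obtain rfl | rfl | h4 : j0 = 2 ∨ j0 = 3 ∨ 4 ≤ j0 := by omega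
      · refine le_trans ?_ (mono k.ς (by (rename_i zq6 zq5 zq4 zq3 _ _ _; linarith only [zq6, zq5, zq4, zq3])))
        calc _ ≤ exp k.ς * (exp s.t2 + fl) * D ^ 2 := by
              gcongr; exact (sd.j2 n n1 n2).trans (exp_max_le _ _ _)
          _ = exp k.ς * (exp s.t2 * D ^ 2 + fl * D ^ 2) := by ring
          _ ≤ _ := mul_le_mul_of_nonneg_left (add_le_add DD2 f2) (exp_pos _).le
      · refine le_trans ?_ (mono k.ς (by (rename_i zq6 zq5 zq4 zq3 _ _ _; linarith only [zq6, zq5, zq4, zq3])))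
        calc _ ≤ exp k.ς * (exp s.t3 + fl) * D ^ 3 := by
              gcongr; exact (sd.j3 n n1 n2).trans (exp_max_le _ _ _)
          _ = exp k.ς * (exp s.t3 * D ^ 3 + fl * D ^ 3) := by ring
          _ ≤ _ := mul_le_mul_of_nonneg_left (add_le_add DD3 (f3.trans f2)) (exp_pos _).le
      · refine le_trans ?_ (mono (4 * k.G) (by (rename_i zq6 zq5 zq4 zq3 _ _ _; linarith only [zq6, zq5, zq4, zq3])))
        by_contra hc
        exact hH ⟨n, j0, n1, n2, h4, hj0.2, hν ▸ A, (not_le.1 hc).le⟩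
    · rw [hν, h.1]; exact mxX
  obtain e5 : 2 * exp (5 * k.G) ≤ exp (25 * k.G) := two_le (by (rename_i zq6 zq5 zq4 zq3 _ _ _; linarith only [zq6, zq5, zq4, zq3]))
  obtain e0 : 1 ≤ exp (25 * k.G) := one_le_exp (by (rename_i zq6 zq5 zq4 zq3 _ _ _; linarith only [zq6, zq5, zq4, zq3]))
  refine ⟨n, ν, n1, n2, A, ?_⟩
  rcases hn with rfl | ⟨j, a, b, c⟩
  · have f : fl ≤ exp s.t1 := exp_le_exp.2 sd.f1
    obtain g : X ≤ 2 * s.DD D := by
      obtain this : s.β * D ^ 2 * fl ≤ s.β * D ^ 2 * exp s.t1 := by (clear * - f β1 D0; gcongr)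
      linarith only [DD1, this]
    refine ⟨νX.trans ?_, f.trans ?_⟩
    · calc _ ≤ exp (5 * k.G) * (2 * s.DD D) := by (clear * - g; gcongr)
        _ = 2 * exp (5 * k.G) * s.DD D := by ring
        _ ≤ _ := by (clear * - e5 DD0; gcongr)
    · exact (le_add_of_nonneg_right DD0).trans (le_mul_of_one_le_left (by positivity) e0)
  · obtain ν0 : 0 ≤ ν := le_trans (by (clear * - D0; positivity)) (A.jj 2 le_rfl (by omega))
    obtain c2 : |p.La j n| * D ^ j ≤ u + ν := by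
      rcases a.eq_or_lt with rfl | a
      · rw [pow_one]; linarith only [ν0]
      · linarith only [u0, A.jj j a b]
    obtain c3 : fl ≤ exp (4 * k.G) * (u + ν) := by
      refine le_trans ?_ (mul_le_mul_of_nonneg_left (c.trans c2) (exp_pos _).le)
      rw [← exp_add]
      exact exp_le_exp.2 (by (rename_i zq6 zq5 zq4 zq3 _ _ _; linarith only [zq6, zq5, zq4, zq3, w1]))
    obtain ⟨r1, r2⟩ := absorb fl0.le t1.le DD0 (exp_pos _).le (exp_pos _).le (by positivity) c3 u2 νX DD1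
      (by rw [eD, ← exp_add, ← exp_add]; exact quarter (by (rename_i zq6 zq5 zq4 zq3 _ zq1 zq0; linarith only [zq6, zq5, zq4, zq3, zq1, zq0, c1])))
      (by
        unfold St.β
        rw [eD, ← exp_nat_mul, ← exp_add, ← exp_add, ← exp_add]
        exact quarter (by push_cast; (rename_i zq6 zq5 zq4 zq3 _ zq1 zq0; linarith only [zq6, zq5, zq4, zq3, zq1, zq0, c1])))
    refine ⟨r2.trans (by (clear * - e5 DD0; gcongr)), r1.trans ?_⟩
    obtain e9 : 2 * (exp (4 * k.G) * exp (5 * k.G)) ≤ exp (25 * k.G) := by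
      rw [← exp_add]; exact two_le (by (rename_i zq6 zq5 zq4 zq3 _ _ _; linarith only [zq6, zq5, zq4, zq3]))
    linarith only [t1, e9, DD0, e0, mul_le_mul_of_nonneg_right e9 DD0, le_mul_of_one_le_left t1.le e0]

end Pool.Agent.MP_9cbfe4_an.E

end

/-! ### Part ELOW -/

section

/-! Row LOW of section E-B (helper9): removal of the order-3 tolerance. -/

namespace Pool.Agent.MP_9cbfe4_an.E

open Finset

namespace LOW

theorem four_le {x : ℝ} (hx : 3 ≤ x) : (4 : ℝ) ≤ Real.exp x := by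
  linarith only [hx, Real.add_one_le_exp x]

theorem pow_eq {D : ℝ} (h : 0 < D) (j : ℕ) : D ^ j = Real.exp (j * Real.log D) := by
  rw [Real.exp_nat_mul, Real.exp_log h]

/-- the order-3 tolerance is below `e^{29G}` times the order-2 one, or negligible against the link -/
theorem L3 {k : Par} {p : Pr} {d : Cd} {s : St} {D : ℝ} (hk : k.OK) (hc : p.Cand k d)
    (hs : p.SF k d s) (sd : p.SD k s) (hv : p.VL k s D) (hD : k.Dst ≤ D) {kk : ℕ} {TT : ℝ}
    (lk : d.Link k p.toSk p.La s.B kk TT) :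
    Real.exp s.t3 * D ^ 3 ≤ Real.exp (29 * k.G) * (Real.exp s.t2 * D ^ 2) ∨
    Real.exp s.t3 * D ^ 3 ≤ Real.exp (-(27 * k.G)) * (TT * D ^ kk + D ^ (k.K + 1)) := by
  have D0 := hv.D0
  have hG := hk.G_ge
  have hς := hk.ς_big
  have hρ := hk.G_le
  obtain t3 : (s.t3 : ℝ) ≤ d.tt 3 (s.B + 1) + 1 := by
    rw [hs.t3]; exact (Int.ceil_lt_add_one _).le
  obtain t2 : d.tt 2 (s.B + 1) ≤ s.t2 := by rw [hs.t2]; exact Int.le_ceil _
  obtain hM : s.B + 1 ≤ d.M := by have := hs.lt; have := hs.le; omega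
  obtain k4 : (4 : ℝ) ≤ kk := by exact_mod_cast lk.k4
  have T0 := lk.T0
  have pK : 0 < D ^ (k.K + 1) := pow_pos D0 _
  have pk : 0 ≤ TT * D ^ kk := mul_nonneg T0 (pow_pos D0 _).le
  obtain LD : -(3100 * k.ρ) ≤ Real.log D := by
    rw [Real.le_log_iff_exp_le D0]; exact hD
  rcases hc.ch.ttC 3 (.inr rfl) (s.B + 1) hM with ⟨l, hl, dl, nc, e3⟩ | ⟨nc, e3⟩
  · have a2 := hc.ch.ttA 2 (.inl rfl) (s.B + 1) l hl dl nc
    simp only [Sk.V, Nat.cast_ofNat] at a2 e3
    by_cases hx : Real.log D + 2 * p.R l ≤ 28 * k.G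
    · left
      rw [pow_eq D0, pow_eq D0, ← Real.exp_add, ← Real.exp_add, ← Real.exp_add]
      apply Real.exp_le_exp.2
      push_cast
      linarith only [hG, hς, t3, t2, e3, a2, hx]
    · right
      push Not at hx
      rcases lk.el l (by omega) dl nc with h | h
      · exfalso
        rcases le_max_iff.1 h with h | h
        · linarith only [hG, hς, hx, h, hv.c1, sd.r1]
        · linarith only [hG, hς, hρ, hx, h, hv.c2]
      · obtain key : Real.exp s.t3 * D ^ 3 ≤ Real.exp (-(27 * k.G)) * (TT * D ^ kk) := by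
          obtain h1 : Real.exp s.t3 * D ^ 3 ≤ Real.exp (-(27 * k.G) - k.ς + kk * Real.log D) *
              Real.exp (p.toSk.V (2 * kk - 1) l) := by
            rw [pow_eq D0, ← Real.exp_add, ← Real.exp_add]
            apply Real.exp_le_exp.2
            simp only [Sk.V]
            push_cast
            obtain this : 28 * k.G ≤ (kk - 3) * (Real.log D + 2 * p.R l) := by nlinarith only [k4, hx, hG, hς]
            linarith only [hG, hς, t3, e3, this]
          refine h1.trans ((mul_le_mul_of_nonneg_left h (Real.exp_pos _).le).trans (le_of_eq ?_))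
          rw [pow_eq D0 kk, sub_eq_add_neg, Real.exp_add, Real.exp_add, Real.exp_neg k.ς]
          field_simp
        exact key.trans (mul_le_mul_of_nonneg_left (by linarith only [pK]) (Real.exp_pos _).le)
  · right
    have f := (lk.fin nc).2.1
    have K1 := hk.K1
    obtain h0 : Real.exp s.t3 ≤ Real.exp 1 * Real.exp (d.tt 3 d.M) := by
      rw [← Real.exp_add]; apply Real.exp_le_exp.2; linarith only [t3, e3]
    obtain h1 : Real.exp 1 * k.far * D ^ 3 ≤ Real.exp (-(27 * k.G)) * D ^ (k.K + 1) := by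
      unfold Par.far EK.C5
      rw [pow_eq D0, pow_eq D0, ← Real.exp_add, ← Real.exp_add, ← Real.exp_add]
      apply Real.exp_le_exp.2
      push_cast
      obtain this : -(3100 * k.ρ) * (k.K - 2) ≤ Real.log D * (k.K - 2) :=
        mul_le_mul_of_nonneg_right LD (by linarith only [K1])
      have : 10 * k.ρ ≤ k.K * k.ρ := mul_le_mul_of_nonneg_right K1 hk.ρ_pos.le
      (rename_i zq0; linarith only [hG, hς, hρ, zq0, this])
    obtain h2 : Real.exp 1 * Real.exp (k.ς - 2 * (kk - 3) * k.Rs) * D ^ 3 ≤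
        Real.exp (-(27 * k.G)) * D ^ kk := by
      unfold Par.Rs
      rw [pow_eq D0, pow_eq D0, ← Real.exp_add, ← Real.exp_add, ← Real.exp_add]
      apply Real.exp_le_exp.2
      push_cast
      obtain this : -(3100 * k.ρ) * (kk - 3) ≤ Real.log D * (kk - 3) :=
        mul_le_mul_of_nonneg_right LD (by linarith only [k4])
      have : 4 * k.ρ ≤ kk * k.ρ := mul_le_mul_of_nonneg_right k4 hk.ρ_pos.le
      (rename_i zq0; linarith only [hG, hς, hρ, zq0, this])
    have h3 := mul_le_mul_of_nonneg_left h2 T0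
    have p3 : 0 < D ^ 3 := pow_pos D0 _
    calc Real.exp s.t3 * D ^ 3
        ≤ Real.exp 1 * (k.far + TT * Real.exp (k.ς - 2 * (kk - 3) * k.Rs)) * D ^ 3 :=
          mul_le_mul_of_nonneg_right (h0.trans (mul_le_mul_of_nonneg_left f (Real.exp_pos _).le)) p3.le
      _ ≤ _ := by linarith only [h1, h3]

end LOW

theorem low : LOW_s := by
  intro k p d s D hk hc hs sd hv hD ⟨n, ν, hBn, hnB, ad, hν, hω⟩
  obtain ⟨kk, TT, lk⟩ := hc.ch.link s.B hs.deep
  have D0 := hv.D0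
  have hG := hk.G_ge
  have hς := hk.ς_big
  have hρ := hk.G_le
  have T0 := lk.T0
  obtain D1 : D ≤ 1 := by
    obtain this : Real.log D ≤ 0 := by linarith only [hG, hς, hρ, hv.c2]
    exact (Real.log_nonpos_iff D0.le).1 this
  obtain β1 : 1 ≤ s.β := Real.one_le_exp (by linarith only [hG, hς, sd.r1, sd.hv])
  have e1 := Real.exp_pos (s.t1 : ℝ)
  have e2 := Real.exp_pos (s.t2 : ℝ)
  have p2 : 0 < D ^ 2 := pow_pos D0 _
  have X0 : 0 < Real.exp s.t3 * D ^ 3 := mul_pos (Real.exp_pos _) (pow_pos D0 _)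
  obtain A2 : Real.exp s.t2 * D ^ 2 ≤ s.D2 D := by
    unfold St.D2
    exact mul_le_mul_of_nonneg_right (le_add_of_nonneg_right (by positivity)) p2.le
  obtain A1 : Real.exp s.t1 * D ^ 2 ≤ s.D2 D := by
    unfold St.D2
    exact mul_le_mul_of_nonneg_right (by nlinarith only [e2, β1, e1]) p2.le
  have A0 : 0 < s.D2 D := (mul_pos e2 p2).trans_le A2
  have DDe : s.DD D = Real.exp s.t3 * D ^ 3 + s.D2 D := rfl
  obtain DD0 : 0 < s.DD D := by linarith only [X0, A0, DDe]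
  have E25 := Real.exp_pos (25 * k.G)
  have hK : D ^ (k.K + 1) ≤ Real.exp (25 * k.G) * s.DD D := (hc.la.j3 n D _ ν ad).trans hν
  have pk : 0 < D ^ kk := pow_pos D0 _
  obtain pk2 : D ^ kk ≤ D ^ 2 := pow_le_pow_of_le_one D0.le D1 (by have := lk.k4; omega)
  have pk1 : D ^ kk ≤ 1 := pow_le_one₀ D0.le D1
  obtain eς := LOW.four_le (x := k.ς) (by linarith only [hς])
  obtain hT : TT * D ^ kk ≤ 2 * Real.exp k.ς * (Real.exp (25 * k.G) * s.DD D) := by
    rcases lk.low n hBn (hnB.trans hs.le) (fun c h1 h2 => hs.nod c h1 (h2.trans_le hnB)) with h | h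
    · obtain a := ad.jj kk (by have := lk.k4; omega) lk.kK
      have b := mul_le_mul_of_nonneg_right h pk.le
      have c : 0 < Real.exp (25 * k.G) * s.DD D := mul_pos E25 DD0
      have m2 := mul_le_mul_of_nonneg_right eς c.le
      linarith only [hν, a, b, c, m2]
    · rw [sub_eq_add_neg, Real.exp_add] at h
      obtain a : (Real.exp s.t1 + s.DD D) * D ^ kk ≤ 2 * s.DD D := by
        have := mul_le_mul_of_nonneg_left pk2 e1.le
        have := mul_le_mul_of_nonneg_left pk1 DD0.le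
        (rename_i zq0; linarith only [X0, A1, DDe, zq0, this])
      calc TT * D ^ kk ≤ Real.exp k.ς * (Real.exp (25 * k.G) * (Real.exp s.t1 + s.DD D)) * D ^ kk :=
            mul_le_mul_of_nonneg_right (h.trans (mul_le_mul_of_nonneg_left hω (by linarith only [eς]))) pk.le
        _ = Real.exp k.ς * Real.exp (25 * k.G) * ((Real.exp s.t1 + s.DD D) * D ^ kk) := by ring
        _ ≤ Real.exp k.ς * Real.exp (25 * k.G) * (2 * s.DD D) :=
            mul_le_mul_of_nonneg_left a (by positivity)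
        _ = _ := by ring
  obtain eG : 4 * Real.exp k.ς ≤ Real.exp k.G := by
    obtain a := LOW.four_le (x := k.G - k.ς) (by linarith only [hG, hς])
    obtain b : Real.exp k.G = Real.exp (k.G - k.ς) * Real.exp k.ς := by rw [← Real.exp_add]; ring_nf
    rw [b]; exact mul_le_mul_of_nonneg_right a (by linarith only [eς])
  obtain e26 : Real.exp (26 * k.G) = Real.exp k.G * Real.exp (25 * k.G) := by
    rw [← Real.exp_add]; ring_nf
  obtain hTK : TT * D ^ kk + D ^ (k.K + 1) ≤ Real.exp (26 * k.G) * s.DD D := by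
    have c : 0 < Real.exp (25 * k.G) * s.DD D := mul_pos E25 DD0
    have m1 := mul_le_mul_of_nonneg_right eG c.le
    have m2 := mul_le_mul_of_nonneg_right eς c.le
    rw [e26, mul_assoc]
    linarith only [hK, hT, c, m1, m2]
  obtain main : s.DD D ≤ Real.exp (30 * k.G) * s.D2 D := by
    obtain e30 : Real.exp (30 * k.G) = Real.exp k.G * Real.exp (29 * k.G) := by
      rw [← Real.exp_add]; ring_nf
    obtain e29 : 1 ≤ Real.exp (29 * k.G) := Real.one_le_exp (by linarith only [hG, hς])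
    obtain g4 : (2 : ℝ) ≤ Real.exp k.G := by linarith only [eς, eG]
    obtain g2 : 2 * Real.exp (29 * k.G) ≤ Real.exp (30 * k.G) := by
      rw [e30]; exact mul_le_mul_of_nonneg_right g4 (by linarith only [e29])
    have m1 := mul_le_mul_of_nonneg_right g2 A0.le
    have m2 := mul_le_mul_of_nonneg_right e29 A0.le
    rcases LOW.L3 hk hc hs sd hv hD lk with h | h
    · have a := h.trans (mul_le_mul_of_nonneg_left A2 (Real.exp_pos _).le)
      linarith only [DDe, m1, m2, a]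
    · have a := h.trans (mul_le_mul_of_nonneg_left hTK (Real.exp_pos _).le)
      rw [← mul_assoc, ← Real.exp_add] at a
      obtain b : Real.exp (-(27 * k.G) + 26 * k.G) * 4 ≤ 1 := by
        obtain c : Real.exp (-(27 * k.G) + 26 * k.G) * Real.exp k.G = 1 := by
          rw [← Real.exp_add, ← Real.exp_zero]; ring_nf
        obtain g5 : (4 : ℝ) ≤ Real.exp k.G := by linarith only [eς, eG]
        have := mul_le_mul_of_nonneg_left g5 (Real.exp_pos (-(27 * k.G) + 26 * k.G)).le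
        linarith only [c, this]
      have c := mul_le_mul_of_nonneg_right b DD0.le
      linarith only [X0, DDe, m1, m2, a, c]
  obtain up : ∀ x : ℝ, x ≤ 30 * k.G → Real.exp x * s.DD D ≤ Real.exp (60 * k.G) * s.D2 D := by
    intro x hx
    refine (mul_le_mul_of_nonneg_left main (Real.exp_pos _).le).trans ?_
    rw [← mul_assoc, ← Real.exp_add]
    exact mul_le_mul_of_nonneg_right (Real.exp_le_exp.2 (by linarith only [hx])) A0.le
  obtain u25 := up (25 * k.G) (by linarith only [hG, hς])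
  obtain u26 := up (26 * k.G) (by linarith only [hG, hς])
  have pK : 0 < D ^ (k.K + 1) := pow_pos D0 _
  refine ⟨⟨n, ν, hBn, hnB, ad, hν.trans u25, hω.trans ?_⟩, hK.trans u25, kk, TT, lk, by linarith only [hTK, u26, pK]⟩
  obtain this : Real.exp (25 * k.G) * Real.exp s.t1 ≤ Real.exp (60 * k.G) * Real.exp s.t1 :=
    mul_le_mul_of_nonneg_right (Real.exp_le_exp.2 (by linarith only [hG, hς])) e1.le
  rw [mul_add, mul_add]
  linarith only [u25, this]

end Pool.Agent.MP_9cbfe4_an.E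

end

/-! ### Part EAA -/

section

/-! Section E-B, row AA: claim (a). -/

namespace Pool.Agent.MP_9cbfe4_an.E

open Finset
open scoped Classical

namespace AA

/-- a scale at which all orders `2..K` are at most `μ` and one is at least `μ / K` -/
theorem scale {K : ℕ} (f : ℕ → ℝ) (hf : ∀ j, 0 ≤ f j) {D μ : ℝ} (hD : 0 < D) (hμ : 0 < μ) {j0 : ℕ}
    (h2 : 2 ≤ j0) (hK : j0 ≤ K) (hj : μ < f j0 * D ^ j0) : ∃ x, 0 < x ∧ x ≤ D ∧
      (∀ j, 2 ≤ j → j ≤ K → f j * x ^ j ≤ μ) ∧ ∃ j, 2 ≤ j ∧ j ≤ K ∧ μ ≤ K * (f j * x ^ j) := by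
  obtain hc : Continuous fun x : ℝ => ∑ j ∈ Icc 2 K, f j * x ^ j := by fun_prop
  obtain h0 : ∑ j ∈ Icc 2 K, f j * (0 : ℝ) ^ j = 0 :=
    sum_eq_zero fun j hj => by rw [zero_pow (by have := (mem_Icc.1 hj).1; omega), mul_zero]
  have h1 : μ ≤ ∑ j ∈ Icc 2 K, f j * D ^ j :=
    hj.le.trans (single_le_sum (f := fun j => f j * D ^ j)
      (fun j _ => mul_nonneg (hf j) (pow_nonneg hD.le j)) (mem_Icc.2 ⟨h2, hK⟩))
  obtain ⟨x, hx, hxe⟩ := intermediate_value_Icc hD.le hc.continuousOn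
    (show μ ∈ Set.Icc (∑ j ∈ Icc 2 K, f j * (0 : ℝ) ^ j) (∑ j ∈ Icc 2 K, f j * D ^ j) from
      ⟨by rw [h0]; exact hμ.le, h1⟩)
  simp only at hxe
  obtain x0 : 0 < x := by
    refine lt_of_le_of_ne hx.1 fun h => ?_
    rw [← h, h0] at hxe
    exact hμ.ne hxe
  refine ⟨x, x0, hx.2, fun j a b => ?_, ?_⟩
  · rw [← hxe]
    exact single_le_sum (f := fun j => f j * x ^ j)
      (fun j _ => mul_nonneg (hf j) (pow_nonneg x0.le j)) (mem_Icc.2 ⟨a, b⟩)
  · obtain ⟨j, hj, hm⟩ := exists_max_image (Icc 2 K) (fun j => f j * x ^ j) ⟨j0, mem_Icc.2 ⟨h2, hK⟩⟩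
    refine ⟨j, (mem_Icc.1 hj).1, (mem_Icc.1 hj).2, ?_⟩
    rw [← hxe]
    refine (sum_le_card_nsmul _ _ _ hm).trans ?_
    rw [nsmul_eq_mul, Nat.card_Icc]
    refine mul_le_mul_of_nonneg_right ?_ (mul_nonneg (hf j) (pow_nonneg x0.le j))
    exact_mod_cast (by omega : K + 1 - 2 ≤ K)

theorem two_le {a b : ℝ} (h : a + 1 ≤ b) : Real.exp a + Real.exp a ≤ Real.exp b := by
  obtain h1 : (2 : ℝ) ≤ Real.exp 1 := by linarith only [Real.add_one_le_exp (1 : ℝ)]
  calc _ = Real.exp a * 2 := by ring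
    _ ≤ Real.exp a * Real.exp 1 := mul_le_mul_of_nonneg_left h1 (Real.exp_pos a).le
    _ = Real.exp (a + 1) := (Real.exp_add _ _).symm
    _ ≤ _ := Real.exp_le_exp.2 h

theorem add_le {a b c : ℝ} (h : a + 1 ≤ c) (h' : b + 1 ≤ c) :
    Real.exp a + Real.exp b ≤ Real.exp c := by
  obtain h1 := two_le (a := c - 1) (b := c) (by linarith only [])
  obtain h2 := Real.exp_le_exp.2 (show a ≤ c - 1 by linarith only [h])
  obtain h3 := Real.exp_le_exp.2 (show b ≤ c - 1 by linarith only [h'])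
  linarith only [h1, h2, h3]

theorem pow_eq {x : ℝ} (hx : 0 < x) (j : ℕ) : x ^ j = Real.exp (j * Real.log x) := by
  rw [Real.exp_nat_mul, Real.exp_log hx]

end AA

theorem aa : AA_s := by
  intro k p d s D E Q hk hc sd vl lo nx D' D'0 hD'
  have G0 := hk.G_pos
  have Gς := hk.G_ge
  have ςb := hk.ς_big
  have uς := hk.u_le
  have ub := hk.u_big
  have φu := hk.φ_le
  have φ1 := hk.φ_ge
  have Ge := hk.G_eq
  have EM : E < d.M := nx.deep.1
  have BE : s.B < E := sd.lt.trans_le nx.le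
  have inE : p.InR k E := hc.inr EM.le
  obtain Q1 : (1 : ℝ) ≤ Q := by exact_mod_cast nx.Q1
  have GQ : k.G ≤ k.G * Q := le_mul_of_one_le_right G0.le Q1
  have RE0 := hc.sk.R0 E
  set r' : ℝ := ((⌈p.Rst (E + 1)⌉ : ℤ) : ℝ) with hr'
  have r1 : p.Rst (E + 1) ≤ r' := Int.le_ceil _
  have r0 : 0 ≤ p.Rst (E + 1) := Sk.Rst_nonneg _
  have r2 : p.Rst E ≤ p.Rst (E + 1) := Sk.Rst_mono (Nat.le_succ E)
  have sr0 : (0 : ℝ) ≤ s.r := (Sk.Rst_nonneg _).trans sd.r1
  obtain lD : Real.log D' ≤ Real.log D - 100 * (k.G * Q) := by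
    have h1 := Real.log_le_log D'0 hD'
    rw [Real.log_mul vl.D0.ne' (Real.exp_pos _).ne', Real.log_exp] at h1
    linarith only [h1]
  have clip := nx.clip
  obtain lD' : Real.log D' ≤ -2 * r' - 65 * (k.G * Q) := by linarith only [lD, clip]
  obtain D1 : Real.log D ≤ 0 := by linarith only [vl.c2, hk.ρ_pos]
  -- order one
  obtain o1 : ∀ x, 0 < x → Real.log x ≤ -2 * r' - 65 * (k.G * Q) →
      |p.La 1 E| * x ≤ Real.exp (k.ς - 65 * k.G - p.R E - p.ω E) := fun x x0 hx => by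
    calc _ ≤ Real.exp (k.ς + 2 * p.Rst (E + 1) - p.R E - p.ω E) * Real.exp (Real.log x) := by
          rw [Real.exp_log x0]; exact mul_le_mul_of_nonneg_right nx.j1 x0.le
      _ ≤ _ := by rw [← Real.exp_add]; exact Real.exp_le_exp.2 (by linarith only [GQ, r1, hx])
  refine ⟨nx.deep, nx.ok, sd.hv.trans (Sk.Rst_mono (by omega)), D'0, by linarith only [Gς, uς, ub, GQ, lD, clip],
    by linarith only [Gς, uς, ub, GQ, lD, vl.c2], fun j0 j1 jK => ?_⟩
  rcases j1.eq_or_lt with rfl | j2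
  · rw [pow_one]
    exact (o1 D' D'0 lD').trans (Real.exp_le_exp.2 (by linarith only [Gς, uς, ub]))
  by_contra hcon
  obtain ⟨x, x0, xD, hall, j, j2', jK', hj⟩ := AA.scale (K := k.K) (fun j => |p.La j E|)
    (fun _ => abs_nonneg _) D'0 (Real.exp_pos _) j2 jK (not_le.1 hcon)
  have lx : Real.log x ≤ -2 * r' - 65 * (k.G * Q) := (Real.log_le_log x0 xD).trans lD'
  obtain lxD : Real.log x ≤ Real.log D := by linarith only [Gς, uς, ub, GQ, lD, Real.log_le_log x0 xD]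
  have lx0 : Real.log x ≤ 0 := lxD.trans D1
  have WE := hc.sk.W_le hk inE.1 inE.2
  have u1 := o1 x x0 lx
  have u0 : 0 ≤ |p.La 1 E| * x := mul_nonneg (abs_nonneg _) x0.le
  obtain adm : p.Adm k E x (|p.La 1 E| * x) (Real.exp (-(3 * k.G) - p.R E - p.ω E)) := by
    refine ⟨inE, fun y hy => hc.ch.nonc y (hy.trans EM), x0, ?_, le_rfl, hall, ?_, ?_⟩
    · obtain h1 : p.Rst E ≤ 1600 * k.ρ :=
        Sk.Rst_le (by linarith only [hk.ρ_pos]) fun l hl => hc.ch.cap l (hl.trans EM)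
      have h2 := mul_le_mul_of_nonneg_left h1 hk.θpos.le
      have h3 := hk.θρ
      linarith only [Gς, uς, ub, Ge, GQ, r1, r2, lx, h2, h3]
    · obtain h1 := AA.add_le (a := k.ς - 65 * k.G - p.R E - p.ω E)
        (b := -(3 * k.G) - p.R E - p.ω E) (c := -(2 * k.G) - p.ω E) (by linarith only [Gς, uς, ub, RE0]) (by linarith only [Gς, uς, ub, RE0])
      calc _ ≤ Real.exp (-(2 * k.G) - p.ω E) * Real.exp (p.W E) :=
            mul_le_mul_of_nonneg_right (by linarith only [u1, h1]) (Real.exp_pos _).le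
        _ ≤ _ := by rw [← Real.exp_add]; exact Real.exp_le_exp.2 (by linarith only [Gς, uς, ub, φu, Ge, WE])
    · obtain h1 : (|p.La 1 E| * x) ^ 2 * Real.exp (p.W E)
          ≤ Real.exp (-(10 * k.G) - p.R E - p.ω E) := by
        calc _ ≤ Real.exp (k.ς - 65 * k.G - p.R E - p.ω E) ^ 2 * Real.exp (p.W E) :=
              mul_le_mul_of_nonneg_right (pow_le_pow_left₀ u0 u1 2) (Real.exp_pos _).le
          _ ≤ _ := by
              rw [← Real.exp_nat_mul, ← Real.exp_add]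
              exact Real.exp_le_exp.2 (by push_cast; linarith only [Gς, uς, ub, φu, RE0, WE])
      obtain h2 : |p.La 1 E| * x * x * Real.exp (2 * p.Rst E)
          ≤ Real.exp (-(10 * k.G) - p.R E - p.ω E) := by
        calc _ ≤ Real.exp (k.ς - 65 * k.G - p.R E - p.ω E) * Real.exp (Real.log x)
              * Real.exp (2 * p.Rst E) := by
              rw [Real.exp_log x0]
              exact mul_le_mul_of_nonneg_right (mul_le_mul_of_nonneg_right u1 x0.le)
                (Real.exp_pos _).le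
          _ ≤ _ := by
              rw [← Real.exp_add, ← Real.exp_add]
              exact Real.exp_le_exp.2 (by linarith only [Gς, uς, ub, GQ, r1, r2, lx])
      obtain h3 := AA.two_le (a := -(10 * k.G) - p.R E - p.ω E) (b := -(9 * k.G) - p.R E - p.ω E)
        (by linarith only [Gς, uς, ub])
      calc _ ≤ Real.exp (k.g * k.ς) * Real.exp (-(9 * k.G) - p.R E - p.ω E) :=
            mul_le_mul_of_nonneg_left (by linarith only [h1, h2, h3]) (Real.exp_pos _).le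
        _ ≤ _ := by rw [← Real.exp_add]; exact Real.exp_le_exp.2 (by linarith only [Gς, uς, ub, Ge])
  obtain ⟨n, ν, Bn, nB, an, hν, hfl⟩ := lo
  have nE : n ≤ E := nB.trans nx.le
  have kn1 := nx.kn1
  have kn2 := nx.kn2
  -- the tolerance
  obtain hT : Real.exp s.t2 + s.β * Real.exp s.t1
      ≤ Real.exp (4 * r' + 3 * (k.G * Q) + 1 - p.R E - p.ω E) := by
    unfold St.β
    rw [← Real.exp_add]
    exact AA.add_le (by linarith only [r1, kn2]) (by linarith only [r1, kn1])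
  obtain hD2 : s.D2 D ≤ Real.exp (4 * r' + 3 * (k.G * Q) + 1 - p.R E - p.ω E + 2 * Real.log D) := by
    unfold St.D2
    rw [AA.pow_eq vl.D0, Real.exp_add (_ - _)]
    exact mul_le_mul_of_nonneg_right hT (Real.exp_pos _).le
  obtain fl : -p.ω n ≤ 60 * k.G + (4 * r' + 3 * (k.G * Q) + 2 - p.R E - p.ω E) := by
    obtain h1 := AA.add_le (a := s.t1)
      (b := 4 * r' + 3 * (k.G * Q) + 1 - p.R E - p.ω E + 2 * Real.log D)
      (c := 4 * r' + 3 * (k.G * Q) + 2 - p.R E - p.ω E) (by linarith only [r1, sr0, kn1]) (by linarith only [D1])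
    refine Real.exp_le_exp.1 (hfl.trans ?_)
    rw [Real.exp_add (60 * k.G)]
    exact mul_le_mul_of_nonneg_left (by linarith only [hD2, h1]) (Real.exp_pos _).le
  obtain jr : (2 : ℝ) ≤ j := by exact_mod_cast j2'
  obtain jr' : (j : ℝ) ≤ k.K := by exact_mod_cast jK'
  have hb := hc.la.j4b E x _ _ adm n nE j (by omega) jK'
    (-(3 * k.G) - p.R E - p.ω E - k.ς - j * Real.log x) (fun l nl lE => ?_) p.t (by simp [x0.le])
  swap
  · obtain e1 : (j - 2) * Real.log x ≤ (j - 2) * (-2 * r') :=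
      mul_le_mul_of_nonneg_left (by linarith only [Gς, uς, ub, GQ, lx]) (by linarith only [jr])
    have Rl := hc.sk.R0 l
    unfold Sk.V
    by_cases hd : d.deep k p.toSk l
    · obtain h1 := nx.el l (by omega) lE hd
      obtain h2 : p.R l ≤ r' := (Sk.le_Rst (by omega)).trans r1
      obtain h3 : (j - 2) * p.R l ≤ (j - 2) * r' := mul_le_mul_of_nonneg_left h2 (by linarith only [jr])
      unfold Sk.V at h1
      linarith only [Gς, uς, ub, Ge, GQ, r1, lx, kn2, e1, h1, h3]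
    · have h1 : p.R l < k.u := not_le.1 fun h => hd ⟨lE.trans EM, h⟩
      have h2 := hc.sk.ω_mono hk nl (lE.le.trans inE.1) an.inr.2
      have h3 : (j : ℝ) * p.R l ≤ k.K * k.u := mul_le_mul jr' h1.le Rl (Nat.cast_nonneg _)
      have h4 := hk.Ku
      obtain h5 : 0 ≤ (j - 2) * r' := mul_nonneg (by linarith only [jr]) (by linarith only [r1, r0])
      linarith only [Gς, uς, ub, φu, Ge, GQ, lx, fl, e1, Rl, h2, h3, h4, h5]
  rw [if_neg (by omega)] at hb
  have xj : 0 < x ^ j := pow_pos x0 j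
  set μ := Real.exp (-(3 * k.G) - p.R E - p.ω E) with hμ
  have μ0 : 0 < μ := Real.exp_pos _
  obtain b1 : |p.La j E - p.La j n| * x ^ j ≤ μ * Real.exp (-k.ς) + μ * Real.exp (-k.ς) := by
    refine (mul_le_mul_of_nonneg_right hb xj.le).trans (le_of_eq ?_)
    rw [add_mul, div_mul_cancel₀ _ xj.ne', AA.pow_eq x0, hμ, ← Real.exp_add, ← Real.exp_add]
    congr 2
    ring
  obtain b2 : |p.La j n| * x ^ j ≤ μ * Real.exp (-k.ς) := by
    have h1 := (an.jj j j2' jK').trans hν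
    obtain e1 : (j - 2) * Real.log x ≤ (j - 2) * Real.log D :=
      mul_le_mul_of_nonneg_left lxD (by linarith only [jr])
    obtain h2 : x ^ j = D ^ j * Real.exp (j * Real.log x - j * Real.log D) := by
      rw [AA.pow_eq x0, AA.pow_eq vl.D0, ← Real.exp_add]; congr 1; ring
    rw [h2, ← mul_assoc]
    calc _ ≤ Real.exp (60 * k.G)
          * Real.exp (4 * r' + 3 * (k.G * Q) + 1 - p.R E - p.ω E + 2 * Real.log D)
          * Real.exp (j * Real.log x - j * Real.log D) :=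
          mul_le_mul_of_nonneg_right (h1.trans (mul_le_mul_of_nonneg_left hD2 (Real.exp_pos _).le))
            (Real.exp_pos _).le
      _ ≤ _ := by
          rw [hμ, ← Real.exp_add, ← Real.exp_add, ← Real.exp_add]
          exact Real.exp_le_exp.2 (by linarith only [Gς, uς, ub, GQ, lx, e1])
  obtain b3 : |p.La j E| * x ^ j ≤ 3 * (μ * Real.exp (-k.ς)) := by
    obtain h1 : |p.La j E| ≤ |p.La j E - p.La j n| + |p.La j n| := by
      simpa using abs_add_le (p.La j E - p.La j n) (p.La j n)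
    have h2 := mul_le_mul_of_nonneg_right h1 xj.le
    linarith only [b1, b2, h2]
  obtain b4 : μ * 1 ≤ μ * (3 * k.K * Real.exp (-k.ς)) := by
    have h1 := mul_le_mul_of_nonneg_left b3 (Nat.cast_nonneg (α := ℝ) k.K)
    linarith only [hj, h1]
  have b5 := le_of_mul_le_mul_left b4 μ0
  obtain b6 : Real.exp k.ς ≤ 3 * k.K := by
    have h1 := mul_le_mul_of_nonneg_right b5 (Real.exp_pos k.ς).le
    rw [mul_assoc, ← Real.exp_add] at h1
    simpa using h1
  have b7 := Real.add_one_le_exp k.ς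
  nlinarith only [uς, ub, b6, b7, jr, jr', hk.ς_K, hk.K1]

end Pool.Agent.MP_9cbfe4_an.E

end

/-! ### Part EENT -/

section

/-! Section E-B, row ENT: entry gives a stage with a valid window and bounded data (helper28). -/

namespace Pool.Agent.MP_9cbfe4_an.E

open Finset

namespace ENT

theorem abs_ceil {x c : ℝ} (h1 : -c ≤ x) (h2 : x + 1 ≤ c) : |((⌈x⌉ : ℤ) : ℝ)| ≤ c :=
  abs_le.2 ⟨h1.trans (Int.le_ceil x), (Int.ceil_lt_add_one x).le.trans h2⟩

variable {k : Par} {p : Pr} {d : Cd} {E : ℕ} {D : ℝ}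

theorem jle_mono {n : ℕ} {μ μ' : ℝ} (h : p.Jle k n D μ) (hμ : μ ≤ μ') : p.Jle k n D μ' :=
  fun j h1 h2 => (h j h1 h2).trans hμ

/-- the jets at the point after the entry -/
theorem jet (hk : k.OK) (hc : p.Cand k d) (he : p.EN k d E D) :
    p.Jle k (E + 1) D (Real.exp (-((k.g + 2) * k.ς) - p.W (E + 1))) := by
  have hM : E + 1 ≤ d.M := he.deep.1
  have hi := hc.inr hM
  have hW := hc.sk.W_succ hk hi.1 hi.2
  have h1 : p.Rst (E + 1) ≤ (⌈p.Rst (E + 1)⌉ : ℝ) := Int.le_ceil _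
  have h2 : p.R E ≤ p.Rst (E + 1) := Sk.le_Rst (Nat.lt_succ_self E)
  have c1 := he.c1
  have g0 := hk.G_pos
  have g1 := hk.G_ge
  have g2 := hk.G_eq
  have g3 := hk.φ_le
  have g4 := hk.u_le
  have g5 := hk.φ_ge
  refine jle_mono (hc.la.j1f E (E + 1) D _ (Nat.le_succ E) hi he.D0 (by linarith only [h1, c1, g1, g2, g3, g4, g5]) he.jet
    (fun l a b => ?_) ?_) ?_
  · obtain rfl : l = E := by omega
    rw [← Real.exp_log he.D0, ← Real.exp_add]
    refine Real.exp_le_exp.2 ?_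
    unfold Sk.V
    linarith only [g1, g3, g4, g5, h1, h2, c1]
  · rw [← Real.exp_add]
    exact Real.exp_le_exp.2 (by linarith only [hW, g1, g2, g3, g4, g5])
  · rw [← Real.exp_add]
    exact Real.exp_le_exp.2 (by linarith only [hW, g1, g2, g3, g4, g5])

/-- `ω` in the early range -/
theorem ω_bd (hk : k.OK) (hc : p.Cand k d) {l : ℕ} (hl : l ≤ d.M) :
    -k.φ ≤ p.ω l ∧ p.ω l ≤ k.Wc + k.φ := by
  have hi := hc.inr hl
  exact ⟨hc.sk.ω_lo hk hi.1, (hc.sk.ω_le hk hi.1).trans (by linarith only [hi.2])⟩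

/-- upper bound of the terminal value of order 3 -/
theorem fin_le (hk : k.OK) (hc : p.Cand k d) (he : p.EN k d E D) (hD : k.Dst ≤ D)
    (hn : d.nocut (E + 1) d.M) : d.tt 3 d.M ≤ 9700 * k.ρ + 4 := by
  have hM : E + 1 ≤ d.M := he.deep.1
  obtain ⟨kk, TT, L⟩ := hc.ch.link E he.deep
  have r0 := hk.ρ_pos
  have g0 := hk.G_pos
  have g1 := hk.G_ge
  have g2 := hk.G_eq
  have g3 := hk.φ_le
  have g4 := hk.u_le
  have g5 := hk.φ_ge
  have g6 := hk.G_le
  obtain k4 : (4 : ℝ) ≤ kk := by exact_mod_cast L.k4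
  have k5 : 4 * k.ρ ≤ kk * k.ρ := mul_le_mul_of_nonneg_right k4 r0.le
  obtain hT : TT ≤ 4 * Real.exp (3100 * (kk * k.ρ)) := by
    rcases L.low (E + 1) (Nat.lt_succ_self E) hM (fun c a b => by omega) with h | h
    · obtain h1 := jet hk hc he kk (by linarith only [L.k4]) L.kK
      obtain h2 : Real.exp (-((k.g + 2) * k.ς) - p.W (E + 1)) ≤ 1 :=
        Real.exp_le_one_iff.2 (by linarith only [g1, g2, g3, g4, g5, hc.sk.W_nonneg (hc.inr hM).1])
      obtain h3 : Real.exp (-(3100 * (kk * k.ρ))) ≤ D ^ kk := by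
        have := pow_le_pow_left₀ (Real.exp_pos _).le hD kk
        rw [← Real.exp_nat_mul] at this
        refine le_trans (le_of_eq ?_) this
        congr 1
        ring
      have h4 : |p.La kk (E + 1)| * Real.exp (-(3100 * (kk * k.ρ))) ≤ 1 :=
        (mul_le_mul_of_nonneg_left h3 (abs_nonneg _)).trans (h1.trans h2)
      rw [Real.exp_neg, ← div_eq_mul_inv, div_le_one (Real.exp_pos _)] at h4
      linarith only [h, h4]
    · obtain h1 : Real.exp (k.ς - p.ω (E + 1)) ≤ Real.exp (3100 * (kk * k.ρ)) :=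
        Real.exp_le_exp.2 (by linarith only [g1, g3, g4, g5, g6, k5, (ω_bd hk hc hM).1])
      linarith only [h, h1, Real.exp_pos (3100 * (kk * k.ρ))]
  have h1 := (L.fin hn).2.1
  obtain h2 : TT * Real.exp (k.ς - 2 * (kk - 3) * k.Rs) ≤ 4 * Real.exp (9700 * k.ρ) := by
    refine (mul_le_mul_of_nonneg_right hT (Real.exp_pos _).le).trans ?_
    rw [mul_assoc, ← Real.exp_add]
    refine mul_le_mul_of_nonneg_left (Real.exp_le_exp.2 ?_) (by norm_num)
    unfold Par.Rs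
    linarith only [g1, g3, g4, g5, g6, k5]
  obtain h3 : k.far ≤ Real.exp (9700 * k.ρ) := by
    refine Real.exp_le_exp.2 ?_
    obtain this : 0 ≤ k.C5 * k.ρ := by unfold EK.C5; (clear * - r0; positivity)
    linarith only [g1, g3, g4, g5, g6, this]
  obtain h4 : 5 * Real.exp (9700 * k.ρ) ≤ Real.exp (9700 * k.ρ + 4) := by
    rw [Real.exp_add, mul_comm]
    exact mul_le_mul_of_nonneg_left (by linarith only [Real.add_one_le_exp 4]) (Real.exp_pos _).le
  exact Real.exp_le_exp.1 (by linarith only [h1, h2, h3, h4])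

end ENT

theorem ent : ENT_s := by
  intro k p d E D hk hc he hD
  classical
  have hM : E + 1 ≤ d.M := he.deep.1
  have ex : ∃ m, E < m ∧ (d.deep k p.toSk m ∨ m = d.M) := ⟨d.M, hM, .inr rfl⟩
  obtain ⟨B', lt, le, nod, nxt⟩ : ∃ B', E < B' ∧ B' ≤ d.M ∧ d.nodeep k p.toSk (E + 1) B' ∧
      (d.deep k p.toSk B' ∨ B' = d.M) :=
    ⟨Nat.find ex, (Nat.find_spec ex).1, Nat.find_min' ex ⟨hM, .inr rfl⟩,
      fun c a b h => Nat.find_min ex b ⟨a, .inl h⟩, (Nat.find_spec ex).2⟩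
  have r0 := hk.ρ_pos
  have g0 := hk.G_pos
  have g1 := hk.G_ge
  have g2 := hk.G_eq
  have g3 := hk.φ_le
  have g4 := hk.u_le
  have g5 := hk.φ_ge
  have g6 := hk.G_le
  have g7 := hk.Wc_ge
  have cap : ∀ l < d.M, p.R l ≤ 1600 * k.ρ := hc.ch.cap
  have R0 := hc.sk.R0
  have s0 : 0 ≤ p.Rst (E + 1) := Sk.Rst_nonneg _
  obtain s1 : p.Rst (E + 1) ≤ 1600 * k.ρ := Sk.Rst_le (by linarith only [g1, g3, g4, g5, g6]) fun l hl => cap l (by omega)
  obtain ⟨e0, e1⟩ := ENT.ω_bd hk hc (show E ≤ d.M by omega)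
  obtain ⟨b0, b1⟩ := ENT.ω_bd hk hc le
  obtain ⟨m0, m1⟩ := ENT.ω_bd hk hc (le_refl d.M)
  have f2 := hc.ch.fin2
  have f3 := hc.ch.fin3
  have ok : d.tt 2 (E + 1) + p.ω E + p.R E ≤ 4 * p.Rst (E + 1) - (k.g + 11) * k.ς := he.ok
  obtain t2u : d.tt 2 (E + 1) ≤ 6400 * k.ρ + k.φ := by linarith only [g1, g2, g3, g4, g5, s1, e0, ok, R0 E]
  obtain t2l : -k.Wc - k.φ ≤ d.tt 2 (E + 1) := by
    rcases hc.ch.ttC 2 (.inl rfl) (E + 1) hM with ⟨l, _, dl, _, h⟩ | ⟨_, h⟩
    · rw [h]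
      unfold Sk.V
      push_cast
      linarith only [R0 l, (ENT.ω_bd hk hc dl.1.le).2]
    · linarith only [m1, f2, h]
  obtain t3 : -k.Wc - k.φ - k.ς ≤ d.tt 3 (E + 1) ∧ d.tt 3 (E + 1) ≤ 10000 * k.ρ := by
    rcases hc.ch.ttC 3 (.inr rfl) (E + 1) hM with ⟨l, _, dl, _, h⟩ | ⟨hn, h⟩
    · rw [h]
      unfold Sk.V
      push_cast
      obtain ⟨l0, l1⟩ := ENT.ω_bd hk hc dl.1.le
      constructor <;> linarith only [g3, g4, g5, l1, g1, g6, l0, R0 l, cap l dl.1]
    · have := ENT.fin_le hk hc he hD hn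
      constructor <;> linarith only [m1, f2, f3, h, g1, g3, g4, g5, g6, this]
  refine ⟨⟨E, B', ⌈p.Rst (E + 1)⌉, ⌈p.R E + p.ω E⌉, ⌈(d.tt 2 (E + 1) - 2 * p.ω B') / 3⌉,
    ⌈d.tt 2 (E + 1)⌉, ⌈d.tt 3 (E + 1)⌉⟩, rfl,
    ⟨he.deep, he.ok, lt, le, nod, nxt, he.hv, rfl, rfl, rfl, rfl, rfl⟩,
    ⟨he.D0, he.c1, he.c2, ENT.jet hk hc he⟩, hc.sk.idx_le hk (hc.inr le).1 (hc.inr le).2,
    ENT.abs_ceil (by linarith only [g1, g3, g4, g5, g6, g7, s0]) (by linarith only [g1, g3, g4, g5, g6, g7, s1]),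
    ENT.abs_ceil (by linarith only [g1, g3, g4, g5, g6, g7, e0, R0 E]) (by linarith only [g1, g2, g3, g4, g5, g6, g7, s1, ok, t2l, cap E hM]),
    ENT.abs_ceil (by linarith only [g1, g3, g4, g5, g6, g7, b1, t2l]) (by linarith only [g1, g3, g4, g5, g6, g7, b0, t2u]),
    ENT.abs_ceil (by linarith only [g1, g3, g4, g5, g6, g7, t2l]) (by linarith only [g1, g3, g4, g5, g6, g7, t2u]),
    ENT.abs_ceil (by linarith only [g1, g3, g4, g5, g6, g7, t3.1]) (by linarith only [g1, g3, g4, g5, g6, g7, t3.2])⟩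

end Pool.Agent.MP_9cbfe4_an.E

end

/-! ### Part EBASE -/

section

/-! Row BASE of section E-B (helper37): the first entry of the run. -/

namespace Pool.Agent.MP_9cbfe4_an.E

open Finset
open scoped Classical

namespace BASE

/-- the number of deep elements times `G` is tiny -/
theorem cnt {k : Par} {p : Pr} {d : Cd} (hk : k.OK) (hc : p.Cand k d) {a b : ℕ} (hb : b ≤ d.M) :
    (k.g + 11) * k.ς * ((Ico a b).filter (d.deep k p.toSk)).card ≤ k.ρ / 1000 := by
  obtain h1 : (((Ico a b).filter (d.deep k p.toSk)).card : ℝ) ≤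
      ((range d.M).filter (d.deep k p.toSk)).card := by
    exact_mod_cast card_le_card (filter_subset_filter _ fun x hx =>
      mem_range.2 ((mem_Ico.1 hx).2.trans_le hb))
  have h2 := hc.ch.few
  generalize (((Ico a b).filter (d.deep k p.toSk)).card : ℝ) = x at h1 ⊢
  have hy : (0 : ℝ) ≤ ((range d.M).filter (d.deep k p.toSk)).card := Nat.cast_nonneg _
  generalize (((range d.M).filter (d.deep k p.toSk)).card : ℝ) = y at h1 h2 hy
  have hG := hk.G_pos
  obtain e : (10 : ℝ) ^ 11 * k.K * k.g * k.ς = 10 ^ 11 * k.K * k.G := by unfold Par.G; ring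
  rw [e] at h2
  obtain h3 : y * k.G * (10 ^ 11 * 10) ≤ y * k.G * (10 ^ 11 * k.K) :=
    mul_le_mul_of_nonneg_left (by linarith only [hk.K1]) (mul_nonneg hy hG.le)
  obtain h4 : 0 ≤ (k.g + 11) * k.ς := mul_nonneg (by linarith only [hk.g10]) (by linarith only [hk.ς_big])
  have h5 : (k.g + 11) * k.ς * x ≤ (k.g + 11) * k.ς * y := mul_le_mul_of_nonneg_left h1 h4
  have h6 : (k.g + 11) * k.ς * y ≤ 21 / 10 * k.G * y := mul_le_mul_of_nonneg_right hk.g11 hy
  have h7 : 0 ≤ y * k.G := mul_nonneg hy hG.le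
  linarith only [h2, h3, h5, h6, h7]

/-- the numeric part -/
theorem num (h : JMP_s) {k : Par} {p : Pr} {d : Cd} (hk : k.OK) (hc : p.Cand k d) :
    ∃ E, d.deep k p.toSk E ∧ p.OKs k d E ∧ 1000 * k.G ≤ p.Rst (E + 1) ∧ p.Rst (E + 1) ≤ k.ρ ∧
      p.ω E ≤ 6 * p.Rst (E + 1) + k.ρ / 40 := by
  obtain ⟨l0, c, hl0c, hcut, hd0, hmax, hρ, h2000, hω0⟩ := hc.ch.base
  obtain ⟨J1, -, J3, -, J5, J6⟩ := h k p d hk hc
  have hex : ∃ E, l0 ≤ E ∧ d.deep k p.toSk E ∧ p.OKs k d E := ⟨c, hl0c, hc.ch.cutd c hcut, J1 c hcut⟩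
  obtain ⟨hlE, hdE, hoE⟩ := Nat.find_spec hex
  have hEc : Nat.find hex ≤ c := Nat.find_min' hex ⟨hl0c, hc.ch.cutd c hcut, J1 c hcut⟩
  have hmin : ∀ l, l0 ≤ l → l < Nat.find hex → d.deep k p.toSk l → ¬ p.OKs k d l :=
    fun l h1 h2 h3 h4 => Nat.find_min hex h2 ⟨h1, h3, h4⟩
  generalize Nat.find hex = E at hlE hdE hoE hEc hmin
  have hG := hk.G_pos
  obtain eG : 2000 * k.g * k.ς = 2000 * k.G := by unfold Par.G; ring
  rw [eG] at h2000
  obtain hR0 : p.R l0 ≤ p.Rst (E + 1) := Sk.le_Rst (by omega)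
  have hρp := hk.ρ_pos
  refine ⟨E, hdE, hoE, by linarith only [h2000, hG, hR0], Sk.Rst_le hρp.le fun l hl => hρ l (by omega), ?_⟩
  rcases hlE.eq_or_lt with rfl | hlt
  · linarith only [hω0, hρp, hR0]
  have hn0 := hmin l0 le_rfl hlt hd0
  obtain hRE : p.R l0 ≤ p.R E := by
    rcases Sk.Rst_eq (S := p.toSk) (E + 1) with h0 | ⟨l, hl, e⟩
    · linarith only [h2000, hG, hR0, h0]
    rcases (Nat.lt_succ_iff.1 hl).eq_or_lt with rfl | hlE'
    · linarith only [hR0, e]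
    exfalso
    by_cases hl0 : l < l0
    · obtain this := J6 l0 E hlt hd0 hn0 (by linarith only [h2000, hG]) hdE hoE
      linarith only [e, this, hmax l hl0]
    · obtain hdl : d.deep k p.toSk l := ⟨hlE'.trans hdE.1, by
        linarith only [h2000, hG, hR0, e, hk.u_le, hk.G_ge, hk.u_big]⟩
      obtain this := J6 l E hlE' hdl (hmin l (by omega) hlE' hdl) (by linarith only [h2000, hG, hR0, e]) hdE hoE
      linarith only [e, this]
  obtain h5 := J5 (l0 + 1) E hlt hdE.1.le fun l h1 h2 h3 => hmin l (by omega) h2 h3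
  have h3 := J3 E hdE hoE
  have hcn := cnt hk hc (a := l0 + 1) hdE.1.le
  have hn : 4 * p.Rst (l0 + 1) - (k.g + 11) * k.ς < d.tt 2 (l0 + 1) + p.ω l0 + p.R l0 := not_le.1 hn0
  obtain hR1 : p.R l0 ≤ p.Rst (l0 + 1) := Sk.le_Rst (by omega)
  linarith only [hω0, hG, hR0, hRE, h5, h3, hcn, hn, hR1, hk.g11, hk.G_le]

end BASE

theorem base (h : JMP_s) : BASE_s := by
  intro k p d hk hc
  obtain ⟨E, hdE, hoE, hv, hρ, hω⟩ := BASE.num h hk hc
  have hG := hk.G_pos
  have hGρ := hk.G_le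
  have hGς := hk.G_ge
  have hς := hk.ς_big
  have hφ1 := hk.φ_ge
  have hφu := hk.φ_le
  have huς := hk.u_le
  have hD0 : 0 < k.D0 := Real.exp_pos _
  have hlog : Real.log k.D0 = -(8 * k.ρ + k.ρ / 20) := Real.log_exp _
  obtain hD1 : k.D0 ≤ 1 := Real.exp_le_one_iff.2 (by linarith only [hGρ, hGς, hς])
  have hin : p.InR k E := hc.inr hdE.1.le
  obtain hRE : p.R E ≤ p.Rst (E + 1) := Sk.le_Rst (by omega)
  obtain hRs : p.Rst E ≤ p.Rst (E + 1) := Sk.Rst_mono (by omega)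
  have hW : p.W E ≤ p.ω E + k.φ := hc.sk.W_le hk hin.1 hin.2
  have hce : ((⌈p.Rst (E + 1)⌉ : ℤ) : ℝ) < p.Rst (E + 1) + 1 := Int.ceil_lt_add_one _
  have eG := hk.G_eq
  refine ⟨E, ⟨hdE, hoE, hv, hD0, by rw [hlog]; linarith only [hρ, hGρ, hGς, hς, hce], by rw [hlog]; linarith only [hGρ, hGς, hς], ?_⟩, hρ, hω⟩
  have eμ : k.D0 * Real.exp (p.Rst (E + 1) + k.φ + 1) =
      Real.exp (-(8 * k.ρ + k.ρ / 20) + (p.Rst (E + 1) + k.φ + 1)) := (Real.exp_add _ _).symm
  have key := hc.la.j1f 0 E k.D0 (k.D0 * Real.exp (p.Rst (E + 1) + k.φ + 1)) E.zero_le hin hD0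
    (by rw [hlog]; linarith only [hρ, hGρ, hGς, hς, hRs, eG])
    (fun j h1 h2 => by
      have a := hc.la.init j h1 h2
      obtain b : k.D0 ^ j ≤ k.D0 := pow_le_of_le_one hD0.le hD1 (by omega)
      obtain c : (2 : ℝ) ≤ Real.exp (p.Rst (E + 1) + k.φ + 1) := by
        linarith only [hv, hGς, hς, hφ1, Real.add_one_le_exp (p.Rst (E + 1) + k.φ + 1)]
      calc |p.La j 0| * k.D0 ^ j ≤ 2 * k.D0 :=
            mul_le_mul a b (pow_nonneg hD0.le _) (by norm_num)
        _ ≤ Real.exp (p.Rst (E + 1) + k.φ + 1) * k.D0 := mul_le_mul_of_nonneg_right c hD0.le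
        _ = _ := mul_comm _ _)
    (fun l _ h2 => by
      refine mul_le_mul_of_nonneg_left (Real.exp_le_exp.2 ?_) hD0.le
      obtain a : p.R l ≤ p.Rst (E + 1) := Sk.le_Rst (by omega)
      have b := hc.sk.ω_lo hk (l := l) (h2.le.trans hin.1)
      unfold Sk.V
      linarith only [a, b])
    (by rw [eμ, ← Real.exp_add]; exact Real.exp_le_exp.2 (by linarith only [hρ, hω, hGρ, hGς, hς, hφu, huς, hW, eG]))
  intro j h1 h2
  refine (key j h1 h2).trans ?_
  rw [eμ, ← Real.exp_add]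
  exact Real.exp_le_exp.2 (by linarith only [hρ, hω, hGρ, hGς, hς, hφu, huς, hRE, eG])

end Pool.Agent.MP_9cbfe4_an.E

end

/-! ### Part ECORE -/

section

/-! Section E-B, row CORE: the common core of the two localisation lemmas. -/

namespace Pool.Agent.MP_9cbfe4_an.E

open Finset Real

namespace CORE

theorem three {a b : ℝ} (h : a + 2 ≤ b) : 3 * exp a ≤ exp b := by
  have h1 := add_one_le_exp (2 : ℝ)
  have h2 := exp_le_exp.2 h
  rw [exp_add] at h2
  nlinarith only [h2, h1, exp_pos a]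

theorem le_three {a b : ℝ} (h : a ≤ b + 1) : exp a ≤ 3 * exp b := by
  have h1 := exp_one_lt_d9
  have h2 := exp_le_exp.2 h
  rw [exp_add] at h2
  nlinarith only [h2, h1, exp_pos b]

theorem exp_max (c a b : ℝ) : exp (c + max a b) ≤ exp c * (exp a + exp b) := by
  rw [exp_add]
  refine mul_le_mul_of_nonneg_left ?_ (exp_pos c).le
  rcases max_choice a b with h | h <;> rw [h] <;> linarith only [exp_pos a, exp_pos b]

theorem algA {Z Γ P Q X N ν B1 T B2 S A : ℝ} (hZ : 1 ≤ Z) (hΓ : 10000 * Z ≤ Γ)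
    (hQ : 0 ≤ Q) (hX : 0 ≤ X) (hN : 0 ≤ N) (hM : 1000 * Γ * Q ≤ P)
    (h1 : P ≤ 9 * Γ * (B1 + T)) (h2 : B1 ≤ 2 * Z * X + 4 / 3 * N + Q)
    (h3 : T ≤ 3 * Z * X + Q) (h4 : B2 ≤ Γ * (P + S)) (h5 : S ≤ 3 * Z * X + Q)
    (h6 : A ≤ B2 + ν + Q) : P ≤ Γ ^ 2 * (X + N) ∧ A ≤ ν + Γ ^ 3 * (X + N) := by
  obtain Γ1 : 1 ≤ Γ := by linarith only [hZ, hΓ]
  have a0 : N ≤ Z * N := le_mul_of_one_le_left hN hZ
  obtain a1 : B1 + T ≤ 5 * (Z * (X + N)) + 2 * Q := by linarith only [hN, h2, h3, a0]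
  obtain a2 : 9 * Γ * (B1 + T) ≤ 9 * Γ * (5 * (Z * (X + N)) + 2 * Q) :=
    mul_le_mul_of_nonneg_left a1 (by linarith only [hZ, hΓ])
  obtain a3 : 0 ≤ Γ * Q := by positivity
  obtain a4 : 10000 * Z * (X + N) ≤ Γ * (X + N) := mul_le_mul_of_nonneg_right hΓ (by linarith only [hX, hN])
  obtain a5 : Γ * (10000 * Z * (X + N)) ≤ Γ * (Γ * (X + N)) :=
    mul_le_mul_of_nonneg_left a4 (by linarith only [hZ, hΓ])
  obtain a6 : 0 ≤ Γ * (Γ * (X + N)) := by positivity
  obtain p1 : P ≤ Γ * (Γ * (X + N)) / 100 := by linarith only [hM, h1, a2, a3, a5]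
  obtain a7 : Γ * P ≤ Γ * (Γ * (Γ * (X + N)) / 100) := mul_le_mul_of_nonneg_left p1 (by linarith only [hZ, hΓ])
  obtain a8 : Γ * S ≤ Γ * (3 * (Z * (X + N)) + Q) :=
    mul_le_mul_of_nonneg_left (by linarith only [hN, h5, a0]) (by linarith only [hZ, hΓ])
  have a9 : Q ≤ Γ * Q := le_mul_of_one_le_left hQ Γ1
  have b1 : Γ * (Γ * (X + N)) ≤ Γ * (Γ * (Γ * (X + N))) := le_mul_of_one_le_left a6 Γ1
  exact ⟨by linarith only [hM, h1, a2, a3, a5], by linarith only [hM, h1, h4, h6, a2, a3, a5, a7, a8, a9, b1]⟩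

theorem algB {Z Γ P Q X E x ν ν' B2 S B3 S3 A : ℝ} (hZ : 1 ≤ Z) (hΓ : 10000 * Z ≤ Γ)
    (hQ : 0 ≤ Q) (hX : 0 ≤ X) (hE : 0 ≤ E) (hν : 0 ≤ ν) (x0 : 0 ≤ x) (x1 : x ≤ 1)
    (hM : 1000 * Γ * Q ≤ P) (h1 : P ≤ 81 * Γ * (B2 + S)) (h2 : B2 ≤ 7 / 3 * ν + Q)
    (h3 : S ≤ 3 * Z * X + Q) (h4 : B3 ≤ Γ * (x * P + S3)) (h5 : S3 ≤ 9 * Z * (E + X) + 3 * (x * Q))
    (h6 : A ≤ B3 + ν' + x * Q) : P ≤ Γ ^ 2 * (X + ν) ∧ A ≤ ν' + Γ ^ 3 * (X + E + x * ν) := by
  obtain Γ1 : 1 ≤ Γ := by linarith only [hZ, hΓ]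
  have a0 : ν ≤ Z * ν := le_mul_of_one_le_left hν hZ
  obtain a1 : B2 + S ≤ 3 * (Z * (X + ν)) + 2 * Q := by linarith only [hν, h2, h3, a0]
  obtain a2 : 81 * Γ * (B2 + S) ≤ 81 * Γ * (3 * (Z * (X + ν)) + 2 * Q) :=
    mul_le_mul_of_nonneg_left a1 (by linarith only [hZ, hΓ])
  obtain a3 : 0 ≤ Γ * Q := by positivity
  obtain a4 : 10000 * Z * (X + ν) ≤ Γ * (X + ν) := mul_le_mul_of_nonneg_right hΓ (by linarith only [hX, hν])
  obtain a5 : Γ * (10000 * Z * (X + ν)) ≤ Γ * (Γ * (X + ν)) :=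
    mul_le_mul_of_nonneg_left a4 (by linarith only [hZ, hΓ])
  obtain a6 : 0 ≤ Γ * (Γ * (X + ν)) := by positivity
  obtain p1 : P ≤ Γ * (Γ * (X + ν)) / 10 := by linarith only [hM, h1, a2, a3, a5]
  refine ⟨by linarith only [hM, h1, a2, a3, a5], ?_⟩
  obtain xν : 0 ≤ x * ν := by positivity
  have c0 : x * X ≤ X := mul_le_of_le_one_left hX x1
  obtain c1 : x * (X + ν) ≤ X + E + x * ν := by linarith only [hE, c0]
  have c2 : x * P ≤ x * (Γ * (Γ * (X + ν)) / 10) := mul_le_mul_of_nonneg_left p1 x0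
  obtain c3 : Γ * Γ * (x * (X + ν)) ≤ Γ * Γ * (X + E + x * ν) :=
    mul_le_mul_of_nonneg_left c1 (by positivity)
  obtain c4 : x * P ≤ Γ * Γ * (X + E + x * ν) / 10 := by linarith only [c2, c3]
  obtain c5 : Γ * (x * P) ≤ Γ * (Γ * Γ * (X + E + x * ν) / 10) :=
    mul_le_mul_of_nonneg_left c4 (by linarith only [hZ, hΓ])
  have c6 : x * (1000 * Γ * Q) ≤ x * P := mul_le_mul_of_nonneg_left hM x0
  obtain c7 : 0 ≤ x * Q := by positivity
  have c8 : x * Q ≤ Γ * (x * Q) := le_mul_of_one_le_left c7 Γ1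
  obtain c9 : Γ * S3 ≤ Γ * (9 * Z * (E + X) + 3 * (x * Q)) :=
    mul_le_mul_of_nonneg_left h5 (by linarith only [hZ, hΓ])
  obtain d0 : 10000 * Z * (E + X) ≤ Γ * (X + E + x * ν) :=
    mul_le_mul hΓ (by linarith only [xν]) (by linarith only [hX, hE]) (by linarith only [hZ, hΓ])
  obtain d1 : Γ * (10000 * Z * (E + X)) ≤ Γ * (Γ * (X + E + x * ν)) :=
    mul_le_mul_of_nonneg_left d0 (by linarith only [hZ, hΓ])
  obtain d2 : 0 ≤ Γ * (Γ * (X + E + x * ν)) := by (clear * - Γ1 hX hE x0 hν; positivity)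
  have d3 : Γ * (Γ * (X + E + x * ν)) ≤ Γ * (Γ * (Γ * (X + E + x * ν))) :=
    le_mul_of_one_le_left d2 Γ1
  linarith only [h4, h6, c2, c3, c5, c6, c7, c8, c9, d1, d3]

/-- the tails at the time `m`: `o = ω m`, `w = W m`, `o' = ω B'` -/
theorem tails {ς φ t1 t2 t3 r o o' w D : ℝ} (hς : φ + 5 ≤ ς) (hφ : 0 ≤ φ) (hr : ς ≤ r)
    (w1 : w ≤ o + φ) (w2 : w ≤ o' + φ) (f1 : -o' ≤ t1) (t12 : t1 ≤ (t2 - 2 * o') / 3 + 1)
    (t123 : t1 + t2 + o' ≤ t3 + 2 * ς) (D0 : 0 < D) (x1 : exp (2 * r) * D ≤ 1) {β' : ℝ}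
    (hβ : β' ≤ exp (2 * r)) (S2 : ℝ)
    (hS : S2 = exp (3 * ς) * (exp t2 + exp (2 * r) * exp t1 + exp (2 * r) * exp (-o))) :
    exp (ς + max t2 (-o)) + exp (ς + max t1 (-o)) ^ 2 * exp w + β' * exp (ς + max t1 (-o)) ≤ S2 ∧
    (exp (ς + max t3 (-o)) + S2 * (β' + exp (ς + max t1 (-o)) * exp w)) * D ^ 3 ≤
      3 * exp (7 * ς) * (exp t3 * D ^ 3 + (exp t2 + exp (2 * r) * exp t1) * D ^ 2 +
        exp (2 * r) * D * (exp (2 * r) * D ^ 2 * exp (-o))) := by
  obtain β1 : 1 ≤ exp (2 * r) := one_le_exp (by linarith only [hς, hφ, hr])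
  have e1 := exp_pos t1
  have e2 := exp_pos t2
  have e3 := exp_pos t3
  have f0 := exp_pos (-o)
  have g1 : exp (-o) ≤ exp (2 * r) * exp (-o) := le_mul_of_one_le_left f0.le β1
  obtain g2 : 0 < exp (2 * r) * exp t1 := by positivity
  have z3 := exp_pos (3 * ς)
  constructor
  · obtain a1 : exp (ς + max t2 (-o)) ≤
        exp (3 * ς) / 3 * (exp t2 + exp (2 * r) * exp t1 + exp (2 * r) * exp (-o)) :=
      (exp_max _ _ _).trans (mul_le_mul (by linarith only [hς, hφ, three (a := ς) (b := 3 * ς) (by linarith only [hς, hφ])])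
        (by linarith only [g1, g2]) (by positivity) (by positivity))
    obtain a2 : exp (ς + max t1 (-o)) ^ 2 * exp w ≤ exp (2 * ς + φ + 3 + max t2 (-o)) := by
      rw [← exp_nat_mul, ← exp_add]
      refine exp_le_exp.2 ?_
      have := le_max_left t2 (-o)
      have := le_max_right t2 (-o)
      rcases max_choice t1 (-o) with h | h <;> rw [h] <;> push_cast <;> linarith
    obtain a3 : exp (2 * ς + φ + 3 + max t2 (-o)) ≤
        exp (3 * ς) / 3 * (exp t2 + exp (2 * r) * exp t1 + exp (2 * r) * exp (-o)) :=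
      (exp_max _ _ _).trans (mul_le_mul
        (by linarith only [hς, three (a := 2 * ς + φ + 3) (b := 3 * ς) (by linarith only [hς])])
        (by linarith only [g1, g2]) (by positivity) (by positivity))
    obtain a4 : β' * exp (ς + max t1 (-o)) ≤ exp (2 * r) * (exp ς * (exp t1 + exp (-o))) :=
      mul_le_mul hβ (exp_max _ _ _) (by positivity) (by positivity)
    obtain a5 : exp ς * (exp (2 * r) * exp t1 + exp (2 * r) * exp (-o)) ≤
        exp (3 * ς) / 3 * (exp t2 + exp (2 * r) * exp t1 + exp (2 * r) * exp (-o)) :=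
      mul_le_mul (by linarith only [hς, hφ, three (a := ς) (b := 3 * ς) (by linarith only [hς, hφ])])
        (by linarith only [e2]) (by positivity) (by positivity)
    rw [hS]; linarith only [a1, a2, a3, a4, a5]
  obtain S0 : 0 ≤ S2 := by rw [hS]; positivity
  have D1 : D ≤ 1 := (le_mul_of_one_le_left D0.le β1).trans x1
  obtain D3 : 0 < D ^ 3 := by positivity
  have z7 := exp_pos (7 * ς)
  obtain u1 : 0 ≤ exp t3 * D ^ 3 := by positivity
  obtain u2 : 0 ≤ (exp t2 + exp (2 * r) * exp t1) * D ^ 2 := by positivity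
  obtain u3 : 0 ≤ exp (2 * r) * D * (exp (2 * r) * D ^ 2 * exp (-o)) := by positivity
  obtain b1 : exp (ς + max t3 (-o)) * D ^ 3 ≤ exp (7 * ς) * (exp t3 * D ^ 3 +
      (exp t2 + exp (2 * r) * exp t1) * D ^ 2 +
        exp (2 * r) * D * (exp (2 * r) * D ^ 2 * exp (-o))) := by
    have c1 := mul_le_mul_of_nonneg_right (exp_max ς t3 (-o)) D3.le
    obtain c2 : exp (-o) ≤ exp (2 * r) * (exp (2 * r) * exp (-o)) :=
      g1.trans (le_mul_of_one_le_left (by positivity) β1)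
    have c3 := mul_le_mul_of_nonneg_right c2 D3.le
    refine c1.trans ?_
    rw [mul_assoc]
    exact mul_le_mul (exp_le_exp.2 (by linarith only [hς, hφ])) (by linarith only [u2, c3]) (by positivity) z7.le
  obtain b2 : S2 * exp (2 * r) * D ^ 3 ≤ exp (7 * ς) * (exp t3 * D ^ 3 +
      (exp t2 + exp (2 * r) * exp t1) * D ^ 2 +
        exp (2 * r) * D * (exp (2 * r) * D ^ 2 * exp (-o))) := by
    have c1 := mul_le_of_le_one_left u2 x1
    rw [hS, mul_assoc, mul_assoc]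
    exact mul_le_mul (exp_le_exp.2 (by linarith only [hς, hφ])) (by linarith only [u1, c1]) (by positivity) z7.le
  have b3 : S2 * β' * D ^ 3 ≤ S2 * exp (2 * r) * D ^ 3 :=
    mul_le_mul_of_nonneg_right (mul_le_mul_of_nonneg_left hβ S0) D3.le
  obtain b4 : S2 * (exp (ς + max t1 (-o)) * exp w) * D ^ 3 ≤ exp (7 * ς) * (exp t3 * D ^ 3 +
      (exp t2 + exp (2 * r) * exp t1) * D ^ 2 +
        exp (2 * r) * D * (exp (2 * r) * D ^ 2 * exp (-o))) := by
    rcases max_choice t1 (-o) with h | h <;> rw [h]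
    · obtain c1 : exp (3 * ς) * exp t2 * (exp (ς + t1) * exp w) ≤ exp (7 * ς) * exp t3 := by
        simp only [← exp_add]; exact exp_le_exp.2 (by linarith only [hς, w2, t123])
      obtain c2 : exp (3 * ς) * exp t1 * (exp (ς + t1) * exp w) ≤ exp (7 * ς) * exp t2 := by
        simp only [← exp_add]; exact exp_le_exp.2 (by linarith only [hς, hφ, w2, f1, t12])
      obtain c3 : exp (3 * ς) * exp (-o) * (exp (ς + t1) * exp w) ≤ exp (7 * ς) * exp t1 := by
        simp only [← exp_add]; exact exp_le_exp.2 (by linarith only [hς, hφ, w1])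
      have d1 := mul_le_mul_of_nonneg_right c1 D3.le
      obtain d2 := mul_le_mul_of_nonneg_right c2 (show 0 ≤ exp (2 * r) * D ^ 3 by positivity)
      obtain d3 := mul_le_mul_of_nonneg_right c3 (show 0 ≤ exp (2 * r) * D ^ 3 by positivity)
      obtain d4 := mul_le_of_le_one_left (show 0 ≤ exp (7 * ς) * exp t2 * D ^ 2 by positivity) x1
      obtain d5 := mul_le_of_le_one_left
        (show 0 ≤ exp (7 * ς) * (exp (2 * r) * exp t1) * D ^ 2 by positivity) D1
      have d6 := mul_nonneg z7.le u3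
      rw [hS]; linarith only [d1, d2, d3, d4, d5, d6]
    · refine le_trans (mul_le_mul_of_nonneg_right (mul_le_mul_of_nonneg_left ?_ S0) D3.le) b2
      rw [← exp_add]; exact exp_le_exp.2 (by linarith only [hς, hr, w1])
  linarith only [b1, b2, b3, b4]

/-- the last time at which the two labels are not yet separated -/
theorem last {P : ℕ → Prop} {B n : ℕ} (h : B < n) (h0 : P (B + 1)) :
    ∃ m, B < m ∧ m ≤ n ∧ P m ∧ (m = n ∨ (m < n ∧ ¬ P (m + 1))) := by
  classical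
  have h1 : B + 1 ≤ Nat.findGreatest P n := Nat.le_findGreatest h h0
  have h2 := Nat.findGreatest_le (P := P) n
  refine ⟨_, h1, h2, Nat.findGreatest_spec h h0, h2.eq_or_lt.imp id fun h3 => ⟨h3, ?_⟩⟩
  exact Nat.findGreatest_is_greatest (Nat.lt_succ_self _) h3

/-- moving the time from `n` to `m` -/
theorem move {k : Par} {p : Pr} {s : St} {D u ν δ o : ℝ} {n m : ℕ} (hk : k.OK)
    (pS : p.toSk.OK k.toEK) (pL : p.LA k) (pD : p.SD k s) (ad : p.Adm k n D u ν) (hB : s.B < m)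
    (hm : m ≤ n) (hn : n ≤ s.B') (ho : o ≤ p.ω m + 1) (δ0 : 0 ≤ δ) (u0 : 0 ≤ u) (ν0 : 0 ≤ ν)
    (hf : m = n ∨ exp (-o) ≤ exp (k.G + k.ς) * δ) {τ : ℝ} (hτ : |τ - p.t| ≤ D) (j : ℕ)
    (j1 : 1 ≤ j) (j3 : j ≤ 3) : |p.Fd n j τ - p.Fd m j τ| * D ^ j ≤
      exp (-k.ς) * (if j = 1 then u + ν else ν) + exp (k.G + k.ς) ^ 2 * δ * D ^ j := by
  have D0 := ad.D0
  obtain i0 : 0 ≤ if j = 1 then u + ν else ν := by split_ifs <;> linarith only [u0, ν0]
  rcases hf with rfl | hf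
  · rw [sub_self, abs_zero, zero_mul]; (clear * - u0 ν0 δ0 D0; positivity)
  have hφ := hk.φ_le
  have hφ1 := hk.φ_ge
  have hu := hk.u_le
  obtain h := pL.j4b n D u ν ad m hm j j1 (j3.trans (by linarith only [hk.K10])) (k.G + k.ς - o)
    (fun l l1 l2 => by
      obtain a1 := pD.shal l (by omega) (by omega)
      have a2 := pS.R0 l
      obtain a3 := pS.ω_mono hk l1 (pD.inr l (by omega)).1 (pD.inr m (by omega)).2
      obtain a4 : (j : ℝ) ≤ 3 := by exact_mod_cast j3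
      obtain a5 : (2 * (j : ℝ) - 1) * p.R l ≤ 5 * p.R l := mul_le_mul_of_nonneg_right (by linarith only [a4]) a2
      have a6 := hk.G_eq
      unfold Sk.V; linarith only [ho, hφ, hφ1, hu, a1, a3, a5, a6]) τ hτ
  obtain h2 : exp (k.G + k.ς - o) ≤ exp (k.G + k.ς) ^ 2 * δ := by
    rw [sub_eq_add_neg, exp_add _ (-o), sq, mul_assoc]
    exact mul_le_mul_of_nonneg_left hf (exp_pos _).le
  obtain Dj : 0 < D ^ j := by positivity
  have h3 := mul_le_mul_of_nonneg_right (h.trans (add_le_add le_rfl h2)) Dj.le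
  rw [add_mul, div_mul_cancel₀ _ Dj.ne'] at h3
  linarith only [h3]

theorem fin {z z' y Z Γ H β β' D δ ν c1 c2 c3 f f' T S3 X a0 a1 a2 a3 b1 b2 b3 d0 d1 d2 d3 : ℝ}
    (D0 : 0 < D) (δ0 : 0 ≤ δ) (ν0 : 0 ≤ ν) (u0 : a0 * D ≥ 0) (e1 : 0 < c1) (e2 : 0 < c2)
    (e3 : 0 < c3) (f0 : 0 < f) (fp : 0 < f') (Γp : 0 < Γ)
    (b0 : 0 < β') (H1 : 1 ≤ H) (z1 : z' ≤ 1) (β1 : 1 ≤ β) (x1 : β * D ≤ 1) (k1 : β' ≤ β)
    (k2 : β ≤ 9 * β') (hZ : 1 ≤ Z) (hΓ : 10000 * Z ≤ Γ) (hM : 2000 * Γ * (Z * H ^ 2) ≤ β)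
    (z7 : z ≤ Z) (z3 : y ≤ Z) (pu : a0 ≤ z * (c1 + f')) (T1 : T ≤ z * (c1 + f))
    (hf : f ≤ 3 * f' + H * δ) (hX : X = (c2 + β * c1) * D ^ 2 + β * D ^ 2 * f')
    (t1 : d0 * D ^ 1 ≤ ν / 3) (t2 : a2 * D ^ 2 ≤ 4 / 3 * ν)
    (m1 : d1 * D ^ 1 ≤ z' * (a0 * D + ν) + H ^ 2 * δ * D ^ 1)
    (m2 : d2 * D ^ 2 ≤ z' * ν + H ^ 2 * δ * D ^ 2) (m3 : d3 * D ^ 3 ≤ z' * ν + H ^ 2 * δ * D ^ 3)
    (n1 : a1 - a0 ≤ d0) (n2 : b1 - a1 ≤ d1) (n3 : b2 - a2 ≤ d2) (n4 : a2 - b2 ≤ d2)
    (n5 : a3 - b3 ≤ d3)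
    (s3 : S3 * D ^ 3 ≤ 3 * Z * (c3 * D ^ 3 + (c2 + β * c1) * D ^ 2 + β * D * (β * D ^ 2 * f)))
    (J : (δ * β' ≤ Γ * (b1 + T) ∧ b2 ≤ Γ * (δ * β' ^ 2 + y * (c2 + β * c1 + β * f))) ∨
      (δ * β' ^ 2 ≤ Γ * (b2 + y * (c2 + β * c1 + β * f)) ∧ b3 ≤ Γ * (δ * β' ^ 3 + S3))) :
    (δ * β ^ 2 * D ^ 2 ≤ Γ ^ 2 * (X + β * D * ν) ∧ a2 * D ^ 2 ≤ z' * ν + Γ ^ 3 * (X + β * D * ν)) ∨
    (δ * β ^ 2 * D ^ 2 ≤ Γ ^ 2 * (X + ν) ∧
      a3 * D ^ 3 ≤ z' * ν + Γ ^ 3 * (X + c3 * D ^ 3 + β * D * ν)) := by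
  obtain β0 : 0 < β := by linarith only [β1]
  obtain D2 : 0 < D ^ 2 := by positivity
  obtain D3 : 0 < D ^ 3 := by positivity
  obtain x0 : 0 ≤ β * D := by positivity
  obtain R0 : 0 ≤ δ * β * D ^ 2 := by positivity
  obtain X1 : 0 ≤ c2 * D ^ 2 := by positivity
  obtain X2 : 0 ≤ β * c1 * D ^ 2 := by positivity
  obtain X3 : 0 ≤ β * D ^ 2 * f' := by positivity
  obtain X0 : 0 ≤ X := by linarith only [hX, X1, X2, X3]
  obtain HH : H ≤ H ^ 2 := by nlinarith only [H1]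
  obtain ⟨Q, hQ⟩ : ∃ Q, Q = Z * H ^ 2 * (δ * β * D ^ 2) := ⟨_, rfl⟩
  obtain q1 : H ^ 2 * (δ * β * D ^ 2) ≤ Q := by
    rw [hQ, mul_assoc Z]; exact le_mul_of_one_le_left (by (clear * - H1 δ0 β1 D0; positivity)) hZ
  obtain q2 : Z * (H * (δ * β * D ^ 2)) ≤ Q := by
    rw [hQ, mul_assoc Z]
    exact mul_le_mul_of_nonneg_left (mul_le_mul_of_nonneg_right HH R0) (by linarith only [hZ])
  obtain Q0 : 0 ≤ Q := by rw [hQ]; (clear * - hZ H1 δ0 β1 D0; positivity)
  obtain hP : 2000 * Γ * Q ≤ δ * β ^ 2 * D ^ 2 := by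
    have := mul_le_mul_of_nonneg_right hM R0
    rw [hQ]; linarith only [this]
  obtain ΓQ : 0 ≤ Γ * Q := by positivity
  obtain q3 : H ^ 2 * δ * D ^ 2 ≤ Q := by
    obtain this := le_mul_of_one_le_left (show 0 ≤ H ^ 2 * δ * D ^ 2 by (clear * - H1 δ0 D0; positivity)) β1
    linarith only [q1, this]
  obtain g1 : β * D ^ 2 * f ≤ 3 * (β * D ^ 2 * f') + H * (δ * β * D ^ 2) := by
    obtain this := mul_le_mul_of_nonneg_left hf (show 0 ≤ β * D ^ 2 by positivity)
    linarith only [this]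
  obtain S2 : y * (c2 + β * c1 + β * f) * D ^ 2 ≤ 3 * Z * X + Q := by
    obtain this : y * ((c2 + β * c1 + β * f) * D ^ 2) ≤ Z * (3 * X + H * (δ * β * D ^ 2)) :=
      mul_le_mul z3 (by linarith only [hX, X1, X2, g1]) (by positivity) (by linarith only [hZ])
    linarith only [q2, this]
  obtain p2 : δ * β' ^ 2 ≤ δ * β ^ 2 := by (clear * - b0 k1 δ0; gcongr)
  rcases J with ⟨J1, J2⟩ | ⟨J1, J2⟩
  · left
    obtain zν := mul_le_of_le_one_left (show 0 ≤ a0 * D + ν by linarith only [ν0, u0]) z1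
    obtain i1 : b1 * D ≤ 2 * (a0 * D) + 4 / 3 * ν + H ^ 2 * δ * D := by
      obtain this := mul_le_mul_of_nonneg_right (show b1 ≤ a0 + d0 + d1 by linarith only [n1, n2]) D0.le
      linarith only [t1, m1, zν, this]
    obtain i2 : β * D ^ 2 * a0 ≤ Z * X :=
      (mul_le_mul_of_nonneg_left pu (by positivity)).trans (by
        obtain this : z * (β * c1 * D ^ 2 + β * D ^ 2 * f') ≤ Z * X :=
          mul_le_mul z7 (by linarith only [hX, X1]) (by linarith only [X2, X3]) (by linarith only [hZ])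
        linarith only [this])
    refine algA (B1 := β * D * (b1 * D)) (T := β * D ^ 2 * T) (B2 := b2 * D ^ 2)
      (S := y * (c2 + β * c1 + β * f) * D ^ 2) hZ hΓ Q0 X0 (by positivity) (by linarith only [hP, ΓQ]) ?_ ?_ ?_ ?_
      S2 ?_
    · obtain j1 := mul_le_mul_of_nonneg_left J1 (show 0 ≤ 9 * (β * D ^ 2) by positivity)
      have j2 := mul_le_mul_of_nonneg_left k2 R0
      linarith only [j1, j2]
    · have := mul_le_mul_of_nonneg_left i1 x0
      linarith only [q1, i2, this]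
    · obtain j1 := mul_le_mul_of_nonneg_left T1 (show 0 ≤ β * D ^ 2 by positivity)
      obtain this : z * (β * c1 * D ^ 2 + β * D ^ 2 * f) ≤ Z * (3 * X + H * (δ * β * D ^ 2)) :=
        mul_le_mul z7 (by linarith only [hX, X1, X2, g1]) (by positivity) (by linarith only [hZ])
      linarith only [q2, j1, this]
    · have j1 := mul_le_mul_of_nonneg_right J2 D2.le
      obtain j2 := mul_le_mul_of_nonneg_right p2 (show 0 ≤ Γ * D ^ 2 by positivity)
      linarith only [j1, j2]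
    · have := mul_le_mul_of_nonneg_right n4 D2.le
      linarith only [m2, q3, this]
  · right
    have zν := mul_le_of_le_one_left ν0 z1
    refine algB (B2 := b2 * D ^ 2) (S := y * (c2 + β * c1 + β * f) * D ^ 2) (B3 := b3 * D ^ 3)
      (S3 := S3 * D ^ 3) hZ hΓ Q0 X0 (by positivity) ν0 x0 x1 (by linarith only [hP, ΓQ]) ?_ ?_ S2 ?_ ?_ ?_
    · obtain j1 := mul_le_mul_of_nonneg_left J1 (show 0 ≤ 81 * D ^ 2 by positivity)
      obtain j2 : δ * D ^ 2 * β ^ 2 ≤ δ * D ^ 2 * (9 * β') ^ 2 := by gcongr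
      linarith only [j1, j2]
    · have := mul_le_mul_of_nonneg_right n3 D2.le
      linarith only [t2, m2, q3, zν, this]
    · have j1 := mul_le_mul_of_nonneg_right J2 D3.le
      obtain j2 : Γ * D ^ 3 * (δ * β' ^ 3) ≤ Γ * D ^ 3 * (δ * β ^ 3) := by (clear * - b0 k1 δ0 Γp D0; gcongr)
      linarith only [j1, j2]
    · have j1 := mul_le_mul_of_nonneg_left g1 x0
      have j2 := mul_le_of_le_one_left X3 x1
      have j3 := mul_le_mul_of_nonneg_left q2 x0
      obtain j4 : 0 ≤ c3 * D ^ 3 := by positivity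
      obtain j5 : 3 * Z * (c3 * D ^ 3 + (c2 + β * c1) * D ^ 2 + β * D * (β * D ^ 2 * f)) ≤
          3 * Z * (3 * (c3 * D ^ 3 + X) + β * D * (H * (δ * β * D ^ 2))) :=
        mul_le_mul_of_nonneg_left (by linarith only [hX, X1, X2, j1, j2, j4]) (by linarith only [hZ])
      linarith only [s3, j3, j5]
    · have j1 := mul_le_mul_of_nonneg_right n5 D3.le
      have j2 := mul_le_mul_of_nonneg_left q3 x0
      obtain j3 := le_mul_of_one_le_left (show 0 ≤ H ^ 2 * δ * D ^ 3 by positivity) β1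
      linarith only [m3, j1, j2, j3]

end CORE

open CORE in
theorem core : CORE_s := by
  intro k p q s D ν n hk pS pL pD pV qS qD hT hBn hnB ad ht hl X hX
  have hG := hk.G_ge
  have hς := hk.ς_big
  have hu := hk.u_le
  have hφ := hk.φ_le
  have hφ1 := hk.φ_ge
  have eG := hk.G_eq
  have D0 := pV.D0
  have r1 := qD.r1
  have r2 := qD.r2
  have hv := qD.hv
  generalize hδ : |p.lab - q.lab| = δ at hl ⊢
  have δ0 : 0 ≤ δ := hδ ▸ abs_nonneg _
  obtain ⟨m, hBm, hmn, hm, hm'⟩ := last (P := fun m => δ * exp (q.W m) ≤ exp (-(k.g * k.ς))) hBn (by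
    refine (mul_le_mul hl (exp_le_exp.2 qD.y1) (exp_pos _).le (exp_pos _).le).trans ?_
    rw [St.zl, ← exp_add]; exact exp_le_exp.2 (by linarith only [hς, hu, hφ]))
  have qm := qD.inr m (hmn.trans hnB)
  have qB := qD.inr _ le_rfl
  obtain q1 := qD.inr (s.B + 1) (by omega)
  have nr := abs_le.1 (hT.near m (pD.inr m (hmn.trans hnB)) qm).2.1
  have w1 := qS.W_le hk qm.1 qm.2
  have w2 := (qS.W_mono (hmn.trans hnB) qB.1).trans (qS.W_le hk qB.1 qB.2)
  have k1 := qS.K1 hk hBm qm.1 q1.2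
  have k2 := qS.K1 hk qD.lt qB.1 q1.2
  obtain hf : m = n ∨ exp (-q.ω m) ≤ exp (k.G + k.ς) * δ := hm'.imp id fun ⟨h1, h2⟩ => by
    obtain q2 := qD.inr (m + 1) (by omega)
    have a1 := qS.W_succ hk q2.1 q2.2
    obtain a2 := qD.shal m hBm (by omega)
    have a3 := mul_le_mul_of_nonneg_right (not_le.1 h2).le (exp_pos (k.g * k.ς - q.ω m)).le
    rw [mul_assoc, ← exp_add, ← exp_add] at a3
    rw [mul_comm]
    exact ((exp_le_exp.2 (by linarith only [])).trans a3).trans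
      (mul_le_mul_of_nonneg_left (exp_le_exp.2 (by linarith only [hς, hu, hφ, eG, a1, a2])) δ0)
  obtain H1 : 1 ≤ exp (k.G + k.ς) := one_le_exp (by linarith only [hG, hς])
  have fp := exp_pos (-p.ω n)
  obtain hf' : exp (-q.ω m) ≤ 3 * exp (-p.ω n) + exp (k.G + k.ς) * δ := by
    have := mul_nonneg (exp_pos (k.G + k.ς)).le δ0
    rcases hf with rfl | hf
    · linarith only [this, nr, le_three (a := -q.ω m) (b := -p.ω m) (by linarith only [nr])]
    · linarith only [fp, hf]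
  -- Taylor window of the anchor
  obtain ν0 : 0 ≤ ν := le_trans (by (clear * - D0; positivity)) (ad.jj 2 le_rfl (by linarith only [hk.K10]))
  obtain u0 : 0 ≤ |p.La 1 n| * D := by (clear * - D0; positivity)
  obtain z1 : exp (-k.ς) ≤ 1 := exp_le_one_iff.2 (by linarith only [hς])
  obtain ⟨hF, hR⟩ := pL.j4 n D _ ν ad
  obtain hF' : DChain (p.Fd n) (k.K + 1) (TW.Win p.t (D / 4)) :=
    hF.mono le_rfl (TW.Win_mono (t0 := p.t) (h := D / 4) (h' := D) (by linarith only [D0]))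
  obtain hR' : ∀ τ ∈ TW.Win p.t (D / 4), |p.Fd n (k.K + 1) τ| * D ^ (k.K + 1) ≤ ν := fun τ h =>
    (hR τ ((TW.mem_Win.1 h).trans (by linarith only [D0]))).trans (mul_le_of_le_one_right ν0 z1)
  obtain t1 := TW.lower D0 ν0 hF' (a := 1) (by linarith only [hk.K10]) (fun j a b => ad.jj j a b) hR'
    (TW.mem_Win.2 ht)
  obtain t2 := (TW.quarter (j1 := 2) D0 ν0 hF' ad.jj hR' le_rfl (by linarith only [hk.K10])).1 _
    (TW.mem_Win.2 ht)
  obtain ht' : |q.t - p.t| ≤ D := by linarith only [ht, D0]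
  obtain mv := move hk pS pL pD ad hBm hmn hnB (o := q.ω m) (by linarith only [nr]) δ0 u0 ν0 hf ht'
  obtain m1 := mv 1 le_rfl (by norm_num)
  obtain m2 := mv 2 (by norm_num) (by norm_num)
  obtain m3 := mv 3 (by norm_num) le_rfl
  rw [if_pos rfl] at m1
  rw [if_neg (by norm_num)] at m2 m3
  -- scales
  obtain β1 : 1 ≤ exp (2 * (s.r : ℝ)) := one_le_exp (by linarith only [hG, hς, r1, hv])
  obtain x1 : exp (2 * (s.r : ℝ)) * D ≤ 1 := by
    rw [← exp_log D0, ← exp_add]; exact exp_le_one_iff.2 (by linarith only [hG, hς, pV.c1])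
  obtain b1 : exp (2 * q.Rst (s.B + 1)) ≤ exp (2 * (s.r : ℝ)) := exp_le_exp.2 (by linarith only [r1])
  obtain b2 : exp (2 * (s.r : ℝ)) ≤ 9 * exp (2 * q.Rst (s.B + 1)) := by
    linarith only [r2, le_three (a := 2 * (s.r : ℝ)) (b := 2 * q.Rst (s.B + 1) + 1) (by linarith only [r2]),
      le_three (a := 2 * q.Rst (s.B + 1) + 1) (b := 2 * q.Rst (s.B + 1)) le_rfl]
  obtain ⟨s2, s3⟩ := tails (ς := k.ς) (φ := k.φ) (r := s.r) (by linarith only [hς, hu, hφ]) (by linarith only [hφ1])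
    (by linarith only [hG, hς, r1, hv]) w1 w2 qD.f1 qD.t12 qD.t123 D0 x1 b1 _ rfl
  obtain fl : ∀ t : ℝ, exp (-q.ω m) ≤ exp (k.ς + max t (-q.ω m)) := fun t =>
    exp_le_exp.2 (by linarith only [hς, le_max_right t (-q.ω m)])
  obtain J := hT.j5 n D _ ν ad ht' s.B m hBm hmn qm (hδ ▸ hm) (by linarith only [hG, hς, eG, hv])
    (fun l a b => by
      obtain this := mul_le_mul_of_nonneg_left (qD.shal l a (by omega)).le
        (show (0 : ℝ) ≤ 4 * k.K by (clear * -; positivity))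
      exact this) qD.card _ _ _ _ _ _ rfl (fl _) (fl _) (fl _)
    (qD.j1 m hBm (hmn.trans hnB)) (qD.j2 m hBm (hmn.trans hnB)) (qD.j3 m hBm (hmn.trans hnB))
    s2 le_rfl (by
      obtain a1 := three (a := 3 * k.ς + s.t2 + (q.ω s.B + q.R s.B))
        (b := -(k.g * k.ς) + 2 * (2 * q.Rst (s.B + 1))) (by linarith only [hς, r2, qD.ok])
      obtain a2 := three (a := 3 * k.ς + (2 * s.r + s.t1) + (q.ω s.B + q.R s.B))
        (b := -(k.g * k.ς) + 2 * (2 * q.Rst (s.B + 1))) (by linarith only [hG, hς, hu, hφ, eG, r2, hv, k2, qD.ok, qD.t12])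
      obtain a3 := three (a := 3 * k.ς + (2 * s.r + -q.ω m) + (q.ω s.B + q.R s.B))
        (b := -(k.g * k.ς) + 2 * (2 * q.Rst (s.B + 1))) (by linarith only [hG, hς, hu, hφ, eG, r2, hv, k1])
      rw [exp_add (-_), two_mul (2 * _), exp_add (2 * _) (2 * _), ← sq, exp_add _ (q.ω s.B + _),
        exp_add (3 * k.ς)] at a1 a2 a3
      rw [exp_add (2 * _)] at a2 a3
      linarith only [a1, a2, a3])
  rw [hδ, eG] at J
  obtain E2 : exp (2 * k.G) = exp k.G ^ 2 := by rw [← exp_nat_mul]; rfl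
  obtain E3 : exp (3 * k.G) = exp k.G ^ 3 := by rw [← exp_nat_mul]; rfl
  obtain hZ : 1 ≤ exp (7 * k.ς) := one_le_exp (by linarith only [hς])
  obtain hΓ : 10000 * exp (7 * k.ς) ≤ exp k.G := by
    obtain a1 := exp_le_exp.2 (show 3 * k.ς + 7 * k.ς ≤ k.G by linarith only [hG])
    obtain a2 := mul_le_mul_of_nonneg_right (show 10000 ≤ exp (3 * k.ς) by
      linarith only [hς, add_one_le_exp (3 * k.ς)]) (exp_pos (7 * k.ς)).le
    rw [exp_add] at a1; linarith only [a1, a2]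
  obtain hM : 2000 * exp k.G * (exp (7 * k.ς) * exp (k.G + k.ς) ^ 2) ≤ exp (2 * (s.r : ℝ)) := by
    obtain a1 := exp_le_exp.2 (show k.ς + (k.G + (7 * k.ς + (2 : ℕ) * (k.G + k.ς))) ≤ 2 * (s.r : ℝ) by
      push_cast; linarith only [hG, hς, r1, hv])
    rw [exp_add, exp_add, exp_add, exp_nat_mul] at a1
    obtain a2 := mul_le_mul_of_nonneg_right (show 2000 ≤ exp k.ς by linarith only [hς, add_one_le_exp k.ς])
      (show 0 ≤ exp k.G * (exp (7 * k.ς) * exp (k.G + k.ς) ^ 2) by positivity)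
    linarith only [a1, a2]
  obtain z7 : exp k.ς ≤ exp (7 * k.ς) := exp_le_exp.2 (by linarith only [hς])
  obtain z3 : exp (3 * k.ς) ≤ exp (7 * k.ς) := exp_le_exp.2 (by linarith only [hς])
  have pu := (pD.j1 n hBn hnB).trans (exp_max _ _ _)
  have T1 := exp_max k.ς s.t1 (-q.ω m)
  unfold St.D2 at hX
  unfold St.β at hX ⊢
  rw [E2, E3]
  change |p.Fd n 1 p.t| * D ≥ 0 at u0
  change |p.Fd n 1 p.t| ≤ _ at pu
  change _ ≤ _ * (|p.Fd n 1 p.t| * D + ν) + _ at m1
  have n1 := abs_sub_abs_le_abs_sub (p.Fd n 1 q.t) (p.Fd n 1 p.t)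
  have n2 := abs_sub_abs_le_abs_sub (p.Fd m 1 q.t) (p.Fd n 1 q.t)
  have n3 := abs_sub_abs_le_abs_sub (p.Fd m 2 q.t) (p.Fd n 2 q.t)
  have n4 := abs_sub_abs_le_abs_sub (p.Fd n 2 q.t) (p.Fd m 2 q.t)
  have n5 := abs_sub_abs_le_abs_sub (p.Fd n 3 q.t) (p.Fd m 3 q.t)
  rw [abs_sub_comm] at n2 n3
  exact fin D0 δ0 ν0 u0 (exp_pos _) (exp_pos _) (exp_pos _) (exp_pos _) fp (exp_pos _) (exp_pos _)
    H1 z1 β1 x1 b1 b2 hZ hΓ hM z7 z3 pu T1 hf' hX t1 t2 m1 m2 m3
    n1 n2 n3 n4 n5 s3 J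

end Pool.Agent.MP_9cbfe4_an.E

end

/-! ### Part ETL -/

section

/-! Row TL of section E-B: localisation in the parameter. -/

namespace Pool.Agent.MP_9cbfe4_an.E

namespace TL

theorem level {k : Par} (hk : k.OK) {i : ℕ} (hi : i ≤ k.K) :
    3 * Real.exp (-k.ς) ≤ (Real.exp (-(k.ς / (2 * k.K))) / 16) ^ i / 2 := by
  have hK := hk.K1
  have hς := hk.ς_big
  obtain h0 : 0 ≤ k.ς / (2 * k.K) := by positivity
  obtain h1 : Real.exp (-(k.ς / (2 * k.K))) / 16 ≤ 1 := by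
    have := Real.exp_le_one_iff.2 (neg_nonpos.2 h0)
    linarith only [this]
  have h2 := pow_le_pow_of_le_one (by positivity) h1 hi
  obtain h3 : Real.exp (-3) ≤ 1 / 16 := by
    rw [Real.exp_neg, ← one_div]
    refine one_div_le_one_div_of_le (by norm_num) ?_
    have := Real.exp_one_gt_d9
    calc (16 : ℝ) ≤ 2.7 ^ 3 := by norm_num
      _ ≤ Real.exp 1 ^ 3 := by gcongr; linarith only [this]
      _ = Real.exp 3 := by rw [← Real.exp_nat_mul]; norm_num
  obtain h4 : (Real.exp (-(k.ς / (2 * k.K))) * Real.exp (-3)) ^ k.K ≤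
      (Real.exp (-(k.ς / (2 * k.K))) / 16) ^ k.K := by
    rw [div_eq_mul_one_div (Real.exp _)]; gcongr
  obtain h5 : (Real.exp (-(k.ς / (2 * k.K))) * Real.exp (-3)) ^ k.K =
      Real.exp (-k.ς) * Real.exp (k.ς / 2 - 3 * k.K) := by
    rw [← Real.exp_add, ← Real.exp_nat_mul, ← Real.exp_add]
    congr 1
    field_simp
    ring
  obtain h6 : 6 ≤ Real.exp (k.ς / 2 - 3 * k.K) := by
    have := Real.add_one_le_exp (k.ς / 2 - 3 * k.K)
    nlinarith only [hς, this, hK, hk.ς_K]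
  have h7 := mul_le_mul_of_nonneg_left h6 (Real.exp_pos (-k.ς)).le
  linarith only [h2, h4, h5, h7]

end TL

theorem tl (h : CORE_s) : TL_s := by
  intro k p s D hk hsk hla hsd hvl ⟨n, j, hn1, hn2, hj4, hjK, adm, hbig⟩
  classical
  set ν := |p.La j n| * D ^ j with hν
  have hD := hvl.D0
  have hν0 : 0 < ν := (pow_pos hD _).trans_le (hla.j3 _ _ _ _ adm)
  obtain ⟨hF, hR⟩ := hla.j4 _ _ _ _ adm
  obtain hF' : DChain (p.Fd n) (k.K + 1) (TW.Win p.t (D / 4)) :=
    hF.mono le_rfl (TW.Win_mono (h' := D) (by linarith only [hD]))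
  have hς := hk.ς_big
  have hG := hk.G_ge
  obtain hR' : ∀ t ∈ TW.Win p.t (D / 4), |p.Fd n (k.K + 1) t| * D ^ (k.K + 1) ≤ ν := fun t ht =>
    (hR t ((TW.mem_Win.1 ht).trans (by linarith only [hD]))).trans
      (mul_le_of_le_one_right hν0.le (Real.exp_le_one_iff.2 (by linarith only [hς])))
  set δ := Real.exp (-(k.ς / (2 * k.K))) / 16 with hδ
  obtain hδ0 : 0 < δ := by positivity
  obtain hδ1 : δ ≤ 1 := by
    have hK := hk.K1
    have := Real.exp_le_one_iff.2 (neg_nonpos.2 (show 0 ≤ k.ς / (2 * k.K) by positivity))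
    linarith only [hδ, this]
  obtain ⟨T2, c2, h2⟩ := TW.sublevel (j1 := 4) (j0 := 2) hD hν0 hF' ⟨j, hj4, hjK, le_rfl⟩ hR'
    (by norm_num) hδ0 hδ1
  obtain ⟨T3, c3, h3⟩ := TW.sublevel (j1 := 4) (j0 := 3) hD hν0 hF' ⟨j, hj4, hjK, le_rfl⟩ hR'
    (by norm_num) hδ0 hδ1
  refine ⟨T2 ∪ T3, ?_, fun q hq hqs hta ht hl => ?_⟩
  · obtain a1 : 2 ^ (k.K - 2) ≤ 2 ^ (k.K - 1) := Nat.pow_le_pow_right two_pos (by omega)
    obtain a2 : 2 ^ (k.K - 3) ≤ 2 ^ (k.K - 1) := Nat.pow_le_pow_right two_pos (by omega)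
    obtain a3 : 2 ^ k.K = 2 * 2 ^ (k.K - 1) := by
      rw [← pow_succ']; congr 1; have := hk.K10; omega
    have := Finset.card_union_le T2 T3
    omega
  obtain hβ : s.β * D ≤ Real.exp (-(30 * k.G)) := by
    rw [St.β, ← Real.exp_log hD, ← Real.exp_add]
    exact Real.exp_le_exp.2 (by linarith only [hvl.c1])
  obtain e1 : Real.exp (3 * k.G) * (s.β * D * ν) ≤ Real.exp (-k.ς) * ν := by
    rw [← mul_assoc]
    refine mul_le_mul_of_nonneg_right ((mul_le_mul_of_nonneg_left hβ (Real.exp_pos _).le).trans ?_)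
      hν0.le
    rw [← Real.exp_add]
    exact Real.exp_le_exp.2 (by linarith only [hς, hG])
  obtain e2 : Real.exp (3 * k.G) * (s.DD D + s.β * D ^ 2 * Real.exp (-p.ω n)) ≤
      Real.exp (-k.ς) * ν := by
    refine le_trans ?_ (mul_le_mul_of_nonneg_left hbig (Real.exp_pos (-k.ς)).le)
    rw [← mul_assoc, ← Real.exp_add]
    refine mul_le_mul_of_nonneg_right (Real.exp_le_exp.2 (by linarith only [hς, hG])) ?_
    unfold St.DD St.D2 St.β
    positivity
  obtain e3 : 0 ≤ Real.exp (3 * k.G) * (Real.exp s.t3 * D ^ 3) := by positivity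
  obtain rad : 2 * (δ * D) = D * Real.exp (-(k.ς / (2 * k.K))) / 8 := by rw [hδ]; ring
  unfold St.DD at e2
  rcases h k p q s D ν n hk hsk hla hsd hvl hq hqs hta hn1 hn2 adm ht hl _ rfl with ⟨-, b⟩ | ⟨-, b⟩
  · obtain ⟨x, hx, hxx⟩ := h2 q.t (TW.mem_Win.2 ht) (le_trans (by linarith only [e1, e2, e3, b])
      (mul_le_mul_of_nonneg_right (TL.level hk (Nat.sub_le _ 2)) hν0.le))
    exact ⟨x, Finset.mem_union_left _ hx, hxx.trans_eq rad⟩
  · obtain ⟨x, hx, hxx⟩ := h3 q.t (TW.mem_Win.2 ht) (le_trans (by linarith only [e1, e2, b])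
      (mul_le_mul_of_nonneg_right (TL.level hk (Nat.sub_le _ 3)) hν0.le))
    exact ⟨x, Finset.mem_union_right _ hx, hxx.trans_eq rad⟩

end Pool.Agent.MP_9cbfe4_an.E

end

/-! ### Part EYB -/

section

/-! Row YB of section E-B: localisation in the label. -/

namespace Pool.Agent.MP_9cbfe4_an.E

open Real

namespace YB

/-- the purely numeric part -/
theorem num {δ β D ν X T1 T2 e A C : ℝ} (hβ : 0 < β) (hD : 0 < D) (hD1 : D ≤ 1) (hβD : β * D ≤ 1)
    (h1 : 0 ≤ T1) (h2 : 0 ≤ T2) (hA : 1 ≤ A) (hC : 0 ≤ C)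
    (hν : ν ≤ A * ((T2 + β * T1) * D ^ 2)) (he : e ≤ A * (T1 + (T2 + β * T1) * D ^ 2))
    (hX : X = (T2 + β * T1) * D ^ 2 + β * D ^ 2 * e) (h : δ * β ^ 2 * D ^ 2 ≤ C * (X + ν)) :
    δ * β ^ 2 ≤ 4 * (C * A) * (T2 + β * T1) := by
  have hD2 : 0 < D ^ 2 := pow_pos hD 2
  have hb : 0 ≤ β * D ^ 2 := by positivity
  have hb1 : β * D ^ 2 ≤ 1 := by
    have : β * D ^ 2 = β * D * D := by ring
    rw [this]
    exact mul_le_one₀ hβD hD.le hD1
  set Y := (T2 + β * T1) * D ^ 2 with hY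
  have hY0 : 0 ≤ Y := by positivity
  have a1 : β * D ^ 2 * T1 ≤ Y := by
    have : Y = β * D ^ 2 * T1 + T2 * D ^ 2 := by rw [hY]; ring
    have : 0 ≤ T2 * D ^ 2 := by positivity
    linarith only [this]
  have a2 : β * D ^ 2 * Y ≤ Y := mul_le_of_le_one_left hY0 hb1
  have a3 : β * D ^ 2 * e ≤ A * (2 * Y) := by
    calc β * D ^ 2 * e ≤ β * D ^ 2 * (A * (T1 + Y)) := mul_le_mul_of_nonneg_left he hb
      _ = A * (β * D ^ 2 * T1 + β * D ^ 2 * Y) := by ring
      _ ≤ A * (2 * Y) := mul_le_mul_of_nonneg_left (by linarith only [a1, a2]) (by linarith only [hA])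
  have a4 : Y ≤ A * Y := le_mul_of_one_le_left hY0 hA
  have a5 : X + ν ≤ 4 * (A * Y) := by rw [hX]; linarith only [hν, a3, a4]
  have a6 : δ * β ^ 2 * D ^ 2 ≤ 4 * (C * A) * (T2 + β * T1) * D ^ 2 := by
    calc δ * β ^ 2 * D ^ 2 ≤ C * (4 * (A * Y)) := h.trans (mul_le_mul_of_nonneg_left a5 hC)
      _ = _ := by rw [hY]; ring
  exact le_of_mul_le_mul_right a6 hD2

end YB

theorem yb (h : CORE_s) : YB_s := by
  intro k p q s D hk hp hla hsd hv lo hq hsq ta ht hl
  obtain ⟨n, ν, n1, n2, adm, hν, he⟩ := lo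
  have hG := hk.G_pos
  have hG1 : 1 ≤ k.G := by linarith only [hG, hk.G_ge, hk.ς_big]
  have hD := hv.D0
  have hβ : 0 < s.β := exp_pos _
  have hD1 : D ≤ 1 := by
    rw [← exp_log hD]
    exact exp_le_one_iff.2 (by linarith only [hv.c2, hk.ρ_pos])
  have hβD : s.β * D ≤ 1 := by
    rw [← exp_log hD]
    unfold St.β
    rw [← exp_add]
    exact exp_le_one_iff.2 (by linarith only [hG, hv.c1])
  have hν0 : 0 ≤ ν := le_trans (by positivity) (adm.jj 2 le_rfl (by linarith only [hk.K10]))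
  have hc : |p.lab - q.lab| * s.β ^ 2 * D ^ 2 ≤
      exp (2 * k.G) * (s.D2 D + s.β * D ^ 2 * exp (-p.ω n) + ν) := by
    rcases h k p q s D ν n hk hp hla hsd hv hq hsq ta n1 n2 adm ht hl _ rfl with c | c
    · refine c.1.trans (mul_le_mul_of_nonneg_left ?_ (exp_pos _).le)
      have := mul_le_of_le_one_left hν0 hβD
      linarith only [this]
    · exact c.1
  have hn := YB.num hβ hD hD1 hβD (exp_pos (s.t1 : ℝ)).le (exp_pos (s.t2 : ℝ)).le
    (one_le_exp (by linarith only [hG] : 0 ≤ 60 * k.G)) (exp_pos (2 * k.G)).le hν he rfl hc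
  set M := max ((s.t2 : ℝ) - 4 * s.r) (-s.r - p.ω s.B') with hM
  have m1 : (s.t2 : ℝ) - 4 * s.r ≤ M := le_max_left _ _
  have m2 : -(s.r : ℝ) - p.ω s.B' ≤ M := le_max_right _ _
  have b2 : s.β ^ 2 = exp (4 * s.r) := by
    unfold St.β
    rw [sq, ← exp_add]; congr 1; ring
  have e2 : exp (s.t2 : ℝ) ≤ exp (M + 1 + 4 * s.r) := exp_le_exp.2 (by linarith only [m1])
  have e1 : s.β * exp (s.t1 : ℝ) ≤ exp (M + 1 + 4 * s.r) := by
    unfold St.β
    rw [← exp_add]
    exact exp_le_exp.2 (by linarith only [m1, m2, hsd.t12])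
  have e8 : (8 : ℝ) ≤ exp 7 := by linarith only [add_one_le_exp (7 : ℝ)]
  have fin : |p.lab - q.lab| * s.β ^ 2 ≤ exp (70 * k.G + M) * s.β ^ 2 := by
    calc |p.lab - q.lab| * s.β ^ 2
        ≤ 4 * (exp (2 * k.G) * exp (60 * k.G)) * (exp (s.t2 : ℝ) + s.β * exp (s.t1 : ℝ)) := hn
      _ ≤ 4 * (exp (2 * k.G) * exp (60 * k.G)) * (2 * exp (M + 1 + 4 * s.r)) :=
          mul_le_mul_of_nonneg_left (by linarith only [e2, e1]) (by positivity)
      _ = 8 * (exp (2 * k.G) * exp (60 * k.G) * exp (M + 1 + 4 * s.r)) := by ring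
      _ ≤ exp 7 * (exp (2 * k.G) * exp (60 * k.G) * exp (M + 1 + 4 * s.r)) :=
          mul_le_mul_of_nonneg_right e8 (by positivity)
      _ ≤ exp (70 * k.G + M) * s.β ^ 2 := by
          rw [b2, ← exp_add, ← exp_add, ← exp_add, ← exp_add]
          exact exp_le_exp.2 (by linarith only [hG1])
  exact le_of_mul_le_mul_right fin (pow_pos hβ 2)

end Pool.Agent.MP_9cbfe4_an.E

end

/-! ### Part EBOX -/

section

/-! Row BOX of section E-B. -/

namespace Pool.Agent.MP_9cbfe4_an.E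

open Finset

namespace BOX

/-- `Rst` in the early range is at most `1600 ρ` -/
theorem rst_cap {k : Par} {p : Pr} {d : Cd} (hk : k.OK) (hp : p.Cand k d) {n : ℕ} (hn : n ≤ d.M) :
    p.Rst n ≤ 1600 * k.ρ :=
  Sk.Rst_le (by linarith only [hk.ρ_pos]) fun l hl => hp.ch.cap l (by omega)

theorem two_le_exp {x : ℝ} (hx : 1 ≤ x) : 2 ≤ Real.exp x := by
  linarith only [hx, Real.add_one_le_exp x]

end BOX

open BOX in
theorem box : BOX_s := by
  intro k p q d d' E D hk hp hq ep eq ta ht hl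
  have hE : E < d.M := ep.deep.1
  have hE' : E < d'.M := eq.deep.1
  have iE := hp.inr hE.le
  have iE1 := hp.inr (n := E + 1) hE
  have iE1' := hq.inr (n := E + 1) hE'
  have hu : k.u ≤ p.R E := ep.deep.2
  have hW : p.W E ≤ p.ω E + k.φ := hp.sk.W_le hk iE.1 iE.2
  have hω : -k.φ ≤ p.ω E := hp.sk.ω_lo hk iE.1
  have hG := hk.G_ge
  have hς := hk.ς_big
  have huς := hk.u_le
  have hφ := hk.φ_le
  have hφ1 := hk.φ_ge
  have hub := hk.u_big
  have hGe := hk.G_eq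
  have hθρ := hk.θρ
  have hθ := hk.θpos
  have c1 := ep.c1
  have hceil : p.Rst (E + 1) ≤ (⌈p.Rst (E + 1)⌉ : ℝ) := Int.le_ceil _
  have hR1 : p.R E ≤ p.Rst (E + 1) := Sk.le_Rst (Nat.lt_succ_self E)
  have hR2 : p.Rst E ≤ p.Rst (E + 1) := Sk.Rst_mono (Nat.le_succ E)
  have hcap : p.Rst (E + 1) ≤ 1600 * k.ρ := rst_cap hk hp hE
  obtain hθR : k.θ * p.Rst E ≤ 1600 * (k.θ * k.ρ) := by
    have := mul_le_mul_of_nonneg_left (hR2.trans hcap) hθ.le
    linarith only [this]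
  obtain hθR' : k.θ * p.R E ≤ 1600 * (k.θ * k.ρ) := by
    have := mul_le_mul_of_nonneg_left (hR1.trans hcap) hθ.le
    linarith only [this]
  set μ := Real.exp (-(3 * k.G) - p.R E - p.ω E) with hμ
  have μ0 : 0 < μ := Real.exp_pos _
  obtain hK : 1 ≤ k.K := by have := hk.K10; omega
  have hD : D = Real.exp (Real.log D) := (Real.exp_log ep.D0).symm
  obtain adm : p.Adm k E D μ μ := by
    refine ⟨iE, fun x hx => hp.ch.nonc x (by omega), ep.D0, ?_, ?_, ?_, ?_, ?_⟩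
    · linarith only [hG, huς, hub, hGe, hθρ, c1, hceil, hR2, hθR]
    · simpa using ep.jet 1 le_rfl hK
    · exact fun j h2 hj => ep.jet j (by omega) hj
    · obtain a : (μ + μ) * Real.exp (p.W E) = 2 * Real.exp (-(3 * k.G) - p.R E - p.ω E + p.W E) := by
        rw [Real.exp_add]; ring
      have b : 2 * Real.exp (-(3 * k.G) - p.R E - p.ω E + p.W E) ≤
          Real.exp 1 * Real.exp (-(3 * k.G) - p.R E - p.ω E + p.W E) :=
        mul_le_mul_of_nonneg_right (two_le_exp le_rfl) (Real.exp_pos _).le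
      rw [a]
      refine b.trans ?_
      rw [← Real.exp_add]
      exact Real.exp_le_exp.2 (by linarith only [hu, hW, hG, huς, hφ, hub, hGe])
    · obtain a : Real.exp (k.g * k.ς) * (μ * Real.exp (p.W E)) ≤ Real.exp (-1) := by
        rw [hμ, ← Real.exp_add, ← Real.exp_add]
        exact Real.exp_le_exp.2 (by linarith only [hu, hW, hG, huς, hφ, hub, hGe])
      obtain b : Real.exp (k.g * k.ς) * (D * Real.exp (2 * p.Rst E)) ≤ Real.exp (-1) := by
        rw [hD, ← Real.exp_add, ← Real.exp_add]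
        exact Real.exp_le_exp.2 (by linarith only [hG, huς, hub, hGe, c1, hceil, hR2])
      obtain c : Real.exp (-1) * 2 ≤ 1 := by
        obtain e : Real.exp (-1) * Real.exp 1 = 1 := by rw [← Real.exp_add]; simp
        have := mul_le_mul_of_nonneg_left (two_le_exp le_rfl) (Real.exp_pos (-1)).le
        linarith only [e, this]
      obtain e : Real.exp (k.g * k.ς) * (μ ^ 2 * Real.exp (p.W E) + μ * D * Real.exp (2 * p.Rst E)) =
          μ * (Real.exp (k.g * k.ς) * (μ * Real.exp (p.W E)) +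
            Real.exp (k.g * k.ς) * (D * Real.exp (2 * p.Rst E))) := by ring
      rw [e]
      obtain this : Real.exp (k.g * k.ς) * (μ * Real.exp (p.W E)) +
          Real.exp (k.g * k.ς) * (D * Real.exp (2 * p.Rst E)) ≤ 1 := by linarith only [a, b, c]
      simpa using mul_le_mul_of_nonneg_left this μ0.le
  obtain hlab : |p.lab - q.lab| * Real.exp (p.W E) ≤ Real.exp (-(k.g * k.ς)) := by
    refine (mul_le_mul_of_nonneg_right hl (Real.exp_pos _).le).trans ?_
    rw [← Real.exp_add]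
    exact Real.exp_le_exp.2 (by linarith only [hW, hG, huς, hφ, hub, hGe])
  obtain this := ta.box E D μ adm ht iE1 iE1' (Real.exp_le_exp.2 (by linarith only [hG, huς, hub, hGe])) (by linarith only [hG, huς, hub, hGe, c1, hceil, hR1]) hu
    (by linarith only [huς, hub, hθρ, hθR']) hlab
  rwa [hGe] at this

end Pool.Agent.MP_9cbfe4_an.E

end

/-! ### Part EPSI -/

section

/-! Row PSI: the potential. -/

namespace Pool.Agent.MP_9cbfe4_an.E

theorem psi : PSI_s := by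
  intro k r r' hk h0 h1 h2
  have hρ := hk.ρ_pos
  have a1 : k.Ψ r ≤ 12 * k.ρ + 3 * r := (min_le_left _ _).trans (min_le_left _ _)
  have a2 : k.Ψ r ≤ 151 * k.ρ + 19 / 10 * r := (min_le_left _ _).trans (min_le_right _ _)
  have a3 : k.Ψ r ≤ 3050 * k.ρ := min_le_right _ _
  rcases max_choice 0 (3 * r' - 4 * r) with h | h <;> rw [h] <;>
    exact le_min (le_min (by linarith only [h1, a1, h0]) (by linarith only [h1, a2, h2, hρ, a1])) (by linarith only [h1, h2, hρ, a2])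

end Pool.Agent.MP_9cbfe4_an.E

end

/-! ### Part ERUNA -/

section

/-! Row RUNA: from a zone without `HI` to the cells of the next stage. -/

namespace Pool.Agent.MP_9cbfe4_an.E

open Finset MeasureTheory
open scoped Classical

namespace RUNA

lemma vol_fin {Z ι : Type} (t : Z → ℝ) {C : Set Z} (S : Finset ι) (A : ι → Set Z) {N v : ℝ}
    (hv : 0 ≤ v) (hN : (S.card : ℝ) ≤ N) (hA : ∀ z ∈ C, ∃ i ∈ S, z ∈ A i)
    (hs : ∀ i ∈ S, volume (t '' A i) ≤ ENNReal.ofReal v) :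
    volume (t '' C) ≤ ENNReal.ofReal (N * v) :=
  calc volume (t '' C) ≤ volume (⋃ i ∈ S, t '' A i) := by
        refine measure_mono ?_
        rintro _ ⟨z, hz, rfl⟩
        obtain ⟨i, hi, h1⟩ := hA z hz
        exact Set.mem_biUnion (Finset.mem_coe.2 hi) ⟨z, h1, rfl⟩
    _ ≤ ∑ i ∈ S, volume (t '' A i) := measure_biUnion_finset_le _ _
    _ ≤ ∑ _i ∈ S, ENNReal.ofReal v := Finset.sum_le_sum hs
    _ = ENNReal.ofReal (S.card * v) := by
        rw [Finset.sum_const, nsmul_eq_mul, ENNReal.ofReal_mul (Nat.cast_nonneg _),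
          ENNReal.ofReal_natCast]
    _ ≤ _ := ENNReal.ofReal_le_ofReal (mul_le_mul_of_nonneg_right hN hv)

lemma ddle {k : Par} (hk : k.OK) {p : Pr} {d : Cd} (h : p.Cand k d) (B : ℕ) :
    10 ^ 12 * (k.G * p.dd k d B) ≤ k.ρ := by
  obtain h1 : (p.dd k d B : ℝ) ≤ ((range d.M).filter (d.deep k p.toSk)).card := by
    exact_mod_cast Finset.card_le_card (Finset.filter_subset_filter _ fun l hl =>
      mem_range.2 (mem_Ioo.1 hl).2)
  have h2 := h.ch.few
  obtain h3 : 10 ^ 12 * k.G ≤ 10 ^ 11 * k.K * k.g * k.ς := by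
    have := hk.K1; have := hk.G_pos; have e := hk.G_eq
    rw [mul_assoc (10 ^ 11 * (k.K : ℝ)), e]; (rename_i zq0; nlinarith only [zq0, this])
  have h4 := hk.G_pos
  calc _ = (p.dd k d B : ℝ) * (10 ^ 12 * k.G) := by ring
    _ ≤ _ := le_trans (mul_le_mul h1 h3 (by positivity) (by (clear * -; positivity))) h2

end RUNA

open RUNA in
theorem runa : RUNA_s := by
  intro sd pst yb psi k hk n ih Z P d C s D hC hD h1 h2
  have G0 := hk.G_pos
  have Gς := hk.G_ge
  have ςb := hk.ς_big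
  have Gρ := hk.G_le
  have Wρ := hk.Wc_ge
  have D0 : 0 < D := (Real.exp_pos _).trans_le hD
  obtain hDst : k.Dst ≤ D := le_trans (Real.exp_le_exp.2 (by
    have : k.Ψ s.r ≤ 3050 * k.ρ := min_le_right _ _
    linarith only [Gς, ςb, Gρ, this])) hD
  obtain ex : ∀ z, ∃ e : ℕ × ℕ, z ∈ C → (P z).LO k s D ∧ (P z).NX k (d z) s D e.1 e.2 ∧
      (P z).EN k (d z) e.1 (D * Real.exp (-(100 * k.G * e.2))) := fun z => by
    by_cases hz : z ∈ C
    · obtain ⟨a1, a2, -, a4⟩ := h1 z hz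
      obtain ⟨lo, E, Q, nx, en⟩ := pst k _ _ s D hk (hC.one z hz) a1 a2 hDst a4
      exact ⟨(E, Q), fun _ => ⟨lo, nx, en _ (by positivity) le_rfl⟩⟩
    · exact ⟨(0, 0), fun h => (hz h).elim⟩
  choose e he using ex
  set m := ⌊Real.exp k.ς / 100⌋₊ + 1 with hm
  have ct := hk.count
  obtain mle : (m : ℝ) ≤ Real.exp k.ς := by
    obtain this := Nat.floor_le (show 0 ≤ Real.exp k.ς / 100 by positivity)
    rw [hm]; push_cast; linarith only [Gς, ςb, Gρ, Wρ, ct, this]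
  obtain QG : ∀ z ∈ C, 10 ^ 12 * (k.G * (e z).2) ≤ k.ρ := fun z hz => by
    refine le_trans ?_ (ddle hk (hC.one z hz) s.B)
    rw [← (he z hz).2.1.dd]; push_cast
    have : (0 : ℝ) ≤ (P z).dd k (d z) (e z).1 := Nat.cast_nonneg _
    nlinarith only [G0]
  have inr : ∀ z ∈ C, (P z).InR k (e z).1 := fun z hz => (hC.one z hz).inr (he z hz).2.1.deep.1.le
  refine (vol_fin _ ((range m ×ˢ range m) ×ˢ range m) (fun κ => {z | z ∈ C ∧ e z = κ.1 ∧
    ⌈(P z).Rst (κ.1.1 + 1)⌉ = κ.2}) (N := Real.exp k.G)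
    (v := Real.exp (-k.Ψ s.r + 1000 * k.G * (n + 1) - 800 * k.G)) (Real.exp_pos _).le ?_
    (fun z hz => ?_) ?_).trans (ENNReal.ofReal_le_ofReal ?_)
  · rw [card_product, card_product, card_range]; push_cast
    calc _ ≤ Real.exp k.ς * Real.exp k.ς * Real.exp k.ς := by gcongr
      _ ≤ _ := by rw [← Real.exp_add, ← Real.exp_add]; gcongr; linarith only [Gς, ςb]
  · have r0 : 0 ≤ ⌈(P z).Rst ((e z).1 + 1)⌉ := Int.ceil_nonneg (Sk.Rst_nonneg _)
    obtain r1 : (P z).Rst ((e z).1 + 1) ≤ k.Rs := Sk.Rst_le (by unfold Par.Rs; linarith only [Gς, ςb, Gρ]) fun l hl =>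
      (hC.one z hz).ch.cap l (by have := (he z hz).2.1.deep.1; omega)
    have r2 := Int.ceil_lt_add_one ((P z).Rst ((e z).1 + 1))
    refine ⟨(e z, ⌈(P z).Rst ((e z).1 + 1)⌉.toNat), mem_product.2 ⟨mem_product.2 ⟨?_, ?_⟩, ?_⟩,
      hz, rfl, (Int.toNat_of_nonneg r0).symm⟩ <;>
      refine mem_range.2 (Nat.lt_succ_of_le (Nat.le_floor ?_))
    · linarith only [(hC.one z hz).sk.idx_le hk (inr z hz).1 (inr z hz).2]
    · have := QG z hz
      obtain this : ((e z).2 : ℝ) ≤ k.G * (e z).2 :=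
        le_mul_of_one_le_left (Nat.cast_nonneg _) (by linarith only [Gς, ςb])
      have : (0 : ℝ) ≤ (e z).2 := Nat.cast_nonneg _
      (rename_i zq1 zq0; linarith only [Gς, ςb, Gρ, Wρ, ct, zq1, zq0])
    · rw [← Int.cast_natCast, Int.toNat_of_nonneg r0]
      unfold Par.Rs at r1; linarith only [Gς, ςb, Gρ, Wρ, ct, r1, r2]
  swap
  · rw [← Real.exp_add]; gcongr; linarith only [Gς, ςb]
  rintro ⟨⟨E, Q⟩, r⟩ -
  set C' := {z | z ∈ C ∧ e z = (E, Q) ∧ ⌈(P z).Rst (E + 1)⌉ = r} with hC'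
  rcases C'.eq_empty_or_nonempty with q | ⟨z0, hz0, e0, r0⟩
  · rw [q]; simp
  obtain ⟨lo, nx, -⟩ := he z0 hz0
  have qG := QG z0 hz0
  have i0 := inr z0 hz0
  rw [e0] at nx qG i0
  simp only at nx qG i0
  obtain Q1 : (1 : ℝ) ≤ Q := by exact_mod_cast nx.Q1
  obtain Qn : Q ≤ n := by have := nx.dd; have := (h1 z0 hz0).2.2.1; omega
  have c0 := hC.one z0 hz0
  have s0 := sd k _ _ s hk c0 (h1 z0 hz0).1
  have GQ : k.G ≤ k.G * Q := le_mul_of_one_le_right G0.le Q1
  obtain ps : k.Ψ s.r + max 0 (3 * (r : ℝ) - 4 * s.r) ≤ k.Ψ r := by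
    refine psi k _ _ hk ((Sk.Rst_nonneg _).trans s0.r1) ?_ ?_
    · have := nx.rr; rw [r0] at this; exact_mod_cast this
    · have a := nx.clip
      have b := (Real.le_log_iff_exp_le D0).2 hD
      rw [r0] at a; push_cast at a; linarith only [Gς, ςb, Gρ, qG, b, a]
  have cnt := nx.cnt
  rw [r0] at cnt; push_cast at cnt
  set μ := max 0 (3 * (r : ℝ) - 4 * s.r) with hμ
  have μ0 : 0 ≤ μ := le_max_left _ _
  set w := (P z0).ω E with hw
  set l := Real.exp (70 * k.G + μ + 4 * k.G * Q - w) with hl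
  obtain ⟨T1, c1, p1⟩ := Cov.sub_Icc ((P z0).t - D / 4) (h := D / 2)
    (h' := D * Real.exp (-(100 * k.G * Q)) / 4) (by positivity) (by positivity)
  obtain ⟨T2, c2, p2⟩ := Cov.sub_Icc ((P z0).lab - l) (h := 2 * l)
    (h' := Real.exp (-(2 * k.G) - w - 1)) (by positivity) (by positivity)
  obtain eG : 10 ≤ Real.exp k.G := by linarith only [Gς, ςb, Real.add_one_le_exp k.G]
  obtain b1 : (T1.card : ℝ) ≤ Real.exp k.G * Real.exp (100 * k.G * Q) := by
    obtain this : 1 ≤ Real.exp (100 * k.G * Q) := Real.one_le_exp (by (clear * - G0 Q1; positivity))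
    rw [show D / 2 / (D * Real.exp (-(100 * k.G * Q)) / 4) = 2 * Real.exp (100 * k.G * Q) by
      rw [Real.exp_neg]; field_simp; norm_num] at c1
    nlinarith only [c1, this, eG]
  obtain b2 : (T2.card : ℝ) ≤ Real.exp k.G * Real.exp (72 * k.G + μ + 4 * k.G * Q + 1) := by
    obtain this : 1 ≤ Real.exp (72 * k.G + μ + 4 * k.G * Q + 1) := Real.one_le_exp (by (clear * - G0 Q1; positivity))
    rw [mul_div_assoc, hl, ← Real.exp_sub, show 70 * k.G + μ + 4 * k.G * Q - w -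
      (-(2 * k.G) - w - 1) = 72 * k.G + μ + 4 * k.G * Q + 1 by ring] at c2
    nlinarith only [c2, this, eG]
  refine (vol_fin _ (T1 ×ˢ T2) (fun a => Rect (fun z => (P z).t) (fun z => (P z).lab) C' a.1
    (D * Real.exp (-(100 * k.G * Q)) / 4) a.2 (Real.exp (-(2 * k.G) - w - 1)))
    (N := Real.exp k.G * Real.exp (100 * k.G * Q) *
      (Real.exp k.G * Real.exp (72 * k.G + μ + 4 * k.G * Q + 1)))
    (v := Real.exp (-k.Ψ (r : ℤ) + 1000 * k.G * ((n - Q : ℕ) + 1))) (Real.exp_pos _).le ?_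
    (fun z hz => ?_) fun a _ => ?_).trans (ENNReal.ofReal_le_ofReal ?_)
  · rw [card_product]; push_cast; (clear * - b1 b2; gcongr)
  · obtain ⟨a1, a2⟩ := h2 z0 hz0 z hz.1
    have y := yb k _ _ s D hk c0.sk c0.la s0 (h1 z0 hz0).2.1 lo (hC.one z hz.1).sk
      (sd k _ _ s hk (hC.one z hz.1) (h1 z hz.1).1) (hC.two z0 hz0 z hz.1)
      ((abs_sub_comm _ _).trans_le a1) a2
    obtain y' := abs_le.1 (y.trans (show _ ≤ l from Real.exp_le_exp.2 (by linarith only [cnt])))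
    have a1' := abs_le.1 a1
    obtain ⟨x1, m1, q1⟩ := p1 (P z).t ⟨by linarith only [a1'.2], by linarith only [a1'.1]⟩
    obtain ⟨x2, m2, q2⟩ := p2 (P z).lab ⟨by linarith only [y'.2], by linarith only [y'.1]⟩
    exact ⟨(x1, x2), mem_product.2 ⟨m1, m2⟩, hz, q1, q2⟩
  · refine ih (n - Q) (by have := nx.Q1; omega) Z P d _ E r (D * Real.exp (-(100 * k.G * Q)))
      ⟨fun z hz => hC.one z hz.1.1, fun z hz z' hz' => hC.two z hz.1.1 z' hz'.1.1⟩
      (fun z hz => ?_) fun z hz z' hz' => ?_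
    · obtain ⟨⟨hz, ez, rz⟩, -⟩ := hz
      obtain ⟨-, n1, n2⟩ := he z hz
      rw [ez] at n1 n2
      refine ⟨n2, rz, ?_⟩
      have := n1.dd; have := (h1 z hz).2.2.1
      simp only at *; omega
    · obtain ⟨⟨hz, ez, -⟩, ⟨a1, a2⟩, a3, a4⟩ := hz
      obtain ⟨-, ⟨b1, b2⟩, b3, b4⟩ := hz'
      have iz := inr z hz
      rw [ez] at iz
      have nr := abs_le.1 ((hC.two z0 hz0 z hz).near E i0 iz).2.1
      obtain this : Real.exp (-(2 * k.G) - w - 1) ≤ Real.exp (-(2 * k.G) - (P z).ω E) :=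
        Real.exp_le_exp.2 (by linarith only [nr.1])
      simp only at a1 a2 a3 a4 b1 b2 b3 b4
      exact ⟨abs_le.2 ⟨by linarith only [a1, b2], by linarith only [a2, b1]⟩, abs_le.2 ⟨by linarith only [a3, b4, this], by linarith only [a4, b3, this]⟩⟩
  · simp only [← Real.exp_add]
    rw [Nat.cast_sub Qn, Int.cast_natCast]
    exact Real.exp_le_exp.2 (by linarith only [Gς, ςb, GQ, ps])

end Pool.Agent.MP_9cbfe4_an.E

end

/-! ### Part ERUNC -/

section

/-! Section E-B, row RUNC (helper64): the base of the run. -/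

namespace Pool.Agent.MP_9cbfe4_an.E

open Finset MeasureTheory
open scoped Classical

namespace RUNC

/-- volume of a set split along a finite index set -/
theorem vol_fin {Z ι : Type} (t : Z → ℝ) (C : Set Z) (I : Finset ι) (A : ι → Set Z) {v N : ℝ}
    (hv : 0 ≤ v) (hI : (I.card : ℝ) ≤ N) (hc : ∀ z ∈ C, ∃ i ∈ I, z ∈ A i)
    (hA : ∀ i ∈ I, volume (t '' A i) ≤ ENNReal.ofReal v) :
    volume (t '' C) ≤ ENNReal.ofReal (N * v) := by
  calc volume (t '' C) ≤ volume (⋃ i ∈ I, t '' A i) := by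
        refine measure_mono ?_
        rintro _ ⟨z, hz, rfl⟩
        obtain ⟨i, hi, h1⟩ := hc z hz
        exact Set.mem_biUnion (Finset.mem_coe.2 hi) ⟨z, h1, rfl⟩
    _ ≤ ∑ i ∈ I, volume (t '' A i) := measure_biUnion_finset_le _ _
    _ ≤ ∑ _i ∈ I, ENNReal.ofReal v := Finset.sum_le_sum hA
    _ = ENNReal.ofReal (I.card * v) := by
        rw [Finset.sum_const, nsmul_eq_mul, ENNReal.ofReal_mul (Nat.cast_nonneg _),
          ENNReal.ofReal_natCast]
    _ ≤ _ := ENNReal.ofReal_le_ofReal (mul_le_mul_of_nonneg_right hI hv)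

/-- volume from a cover by rectangles -/
theorem vol_cov {Z : Type} {t lab : Z → ℝ} {C : Set Z} {h d N v : ℝ} (H : Cov t lab C h d N)
    (hv : 0 ≤ v) (hA : ∀ x y, volume (t '' Rect t lab C x h y d) ≤ ENNReal.ofReal v) :
    volume (t '' C) ≤ ENNReal.ofReal (N * v) := by
  obtain ⟨T, hT, H⟩ := H
  refine vol_fin t C T (fun a => Rect t lab C a.1 h a.2 d) hv hT (fun z hz => ?_)
    fun a _ => hA a.1 a.2
  obtain ⟨a, ha, h1, h2⟩ := H z hz
  exact ⟨a, ha, hz, h1, h2⟩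

theorem Cl.mono {Z : Type} {k : Par} {P : Z → Pr} {d : Z → Cd} {C C' : Set Z} (h : Cl k P d C)
    (hC : C' ⊆ C) : Cl k P d C' :=
  ⟨fun z hz => h.one z (hC hz), fun z hz z' hz' => h.two z (hC hz) z' (hC hz')⟩

theorem psi_ge {k : Par} (hk : k.OK) {r : ℝ} (h1 : r ≤ k.ρ + 1) : 12 * k.ρ + 3 * r ≤ k.Ψ r := by
  have a := hk.G_le
  have b := hk.G_ge
  have c := hk.ς_big
  unfold Par.Ψ
  exact le_min (le_min le_rfl (by linarith only [h1, a, b, c])) (by linarith only [h1, a, b, c])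

theorem dd_le {k : Par} (hk : k.OK) {p : Pr} {d : Cd} (h : p.Cand k d) (E : ℕ) :
    p.dd k d E ≤ ⌊k.ρ / (10 ^ 11 * (k.K * k.G))⌋₊ := by
  obtain h0 : 0 < 10 ^ 11 * (k.K * k.G) := by
    have := hk.K1
    have := hk.G_pos
    positivity
  refine Nat.le_floor ((le_div_iff₀ h0).2 ?_)
  obtain h1 : (p.dd k d E : ℝ) ≤ ((range d.M).filter (d.deep k p.toSk)).card := by
    unfold Pr.dd
    exact_mod_cast Finset.card_le_card (Finset.filter_subset_filter _ fun x hx =>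
      mem_range.2 (mem_Ioo.1 hx).2)
  have h2 := h.ch.few
  obtain h3 : 10 ^ 11 * k.K * k.g * k.ς = 10 ^ 11 * (k.K * k.G) := by unfold Par.G; ring
  rw [h3] at h2
  exact (mul_le_mul_of_nonneg_right h1 h0.le).trans h2

theorem n_le {k : Par} (hk : k.OK) :
    1000 * k.G * ((⌊k.ρ / (10 ^ 11 * (k.K * k.G))⌋₊ : ℝ) + 1) ≤ k.ρ / 100 := by
  have a := hk.K1
  have b := hk.G_pos
  have c := hk.G_le
  obtain h0 : 0 < 10 ^ 11 * (k.K * k.G) := by positivity
  have h1 := (le_div_iff₀ h0).1 (Nat.floor_le (div_nonneg hk.ρ_pos.le h0.le))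
  set n : ℝ := (⌊k.ρ / (10 ^ 11 * (k.K * k.G))⌋₊ : ℝ)
  have h2 : 0 ≤ n := Nat.cast_nonneg _
  have h3 : 0 ≤ n * k.G := mul_nonneg h2 b.le
  have h4 : n * k.G * 10 ≤ n * k.G * k.K := mul_le_mul_of_nonneg_left a h3
  linarith only [b, c, h1, h4]

/-- one part: fixed entry index and rounded depth -/
theorem part {k : Par} (hk : k.OK) (hc : ∀ n, CELL k n) {Z : Type} {P : Z → Pr} {d : Z → Cd}
    {C : Set Z} (hC : Cl k P d C) (E : ℕ) (r : ℤ)
    (hE : ∀ z ∈ C, (P z).EN k (d z) E k.D0 ∧ (P z).Rst (E + 1) ≤ k.ρ ∧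
      (P z).ω E ≤ 6 * (P z).Rst (E + 1) + k.ρ / 40 ∧ ⌈(P z).Rst (E + 1)⌉ = r) :
    volume ((fun z => (P z).t) '' C) ≤ ENNReal.ofReal (Real.exp (-(9 / 10 * k.ρ))) := by
  rcases C.eq_empty_or_nonempty with rfl | ⟨z0, h0⟩
  · simp
  obtain ⟨e0, e1, e2, e3⟩ := hE z0 h0
  have r0 : (P z0).Rst (E + 1) ≤ r := e3 ▸ Int.le_ceil _
  obtain r1 : (r : ℝ) ≤ k.ρ + 1 := by
    have := Int.ceil_lt_add_one ((P z0).Rst (E + 1))
    rw [e3] at this
    linarith only [e1, this]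
  have r2 : 0 ≤ (P z0).Rst (E + 1) := Sk.Rst_nonneg _
  have a := hk.G_le
  have b := hk.G_ge
  have c := hk.ς_big
  obtain hD : 0 < k.D0 / 4 := by unfold Par.D0; positivity
  have hd : 0 < Real.exp (-(2 * k.G) - (P z0).ω E - 1) := Real.exp_pos _
  obtain cov := (Cov.of_diam (t := fun z => (P z).t) (lab := fun z => (P z).lab) (C := C) (h := 1)
    (d := 1) (fun z hz z' hz' => (hC.two z hz z' hz').dt)
    (fun z hz z' hz' => (hC.two z hz z' hz').dl)).refine (by norm_num) (by norm_num) hD hd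
  have inr : ∀ z ∈ C, (P z).InR k E := fun z hz => (hC.one z hz).inr (hE z hz).1.deep.1.le
  have key := vol_cov cov (Real.exp_pos (-k.Ψ r + 1000 * k.G *
      ((⌊k.ρ / (10 ^ 11 * (k.K * k.G))⌋₊ : ℕ) + 1))).le fun x y => by
    refine hc _ Z P d _ E r k.D0 (Cl.mono hC fun z hz => hz.1)
      (fun z hz => ⟨(hE z hz.1).1, (hE z hz.1).2.2.2, dd_le hk (hC.one z hz.1) E⟩) ?_
    rintro z ⟨hz, ⟨z1, z2⟩, z3, z4⟩ z' ⟨hz', ⟨w1, w2⟩, w3, w4⟩
    have n1 := abs_le.1 ((hC.two z hz z0 h0).near E (inr z hz) (inr z0 h0)).2.1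
    obtain n2 : Real.exp (-(2 * k.G) - (P z0).ω E - 1) ≤ Real.exp (-(2 * k.G) - (P z).ω E) :=
      Real.exp_le_exp.2 (by linarith only [n1.2])
    exact ⟨abs_le.2 ⟨by linarith only [z1, w2], by linarith only [z2, w1]⟩, abs_le.2 ⟨by linarith only [z3, w4, n2], by linarith only [z4, w3, n2]⟩⟩
  refine key.trans (ENNReal.ofReal_le_ofReal ?_)
  obtain e9 : (9 : ℝ) ≤ Real.exp 8 := by linarith only [Real.add_one_le_exp (8 : ℝ)]
  obtain b1 : 2 * 1 / (k.D0 / 4) + 1 ≤ Real.exp (8 + (8 * k.ρ + k.ρ / 20)) := by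
    obtain x1 : 1 ≤ Real.exp (8 * k.ρ + k.ρ / 20) := Real.one_le_exp (by linarith only [a, b, c])
    obtain x2 : 2 * 1 / (k.D0 / 4) = 8 * Real.exp (8 * k.ρ + k.ρ / 20) := by
      unfold Par.D0
      rw [Real.exp_neg]
      field_simp
      ring
    rw [x2, Real.exp_add 8]
    nlinarith only [e9, x1]
  obtain b2 : 2 * 1 / Real.exp (-(2 * k.G) - (P z0).ω E - 1) + 1 ≤
      Real.exp (8 + (2 * k.G + 6 * r + k.ρ / 40 + 1)) := by
    obtain x1 : 1 ≤ Real.exp (2 * k.G + 6 * r + k.ρ / 40 + 1) := Real.one_le_exp (by linarith only [r0, r2, a, b, c])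
    obtain x2 : 2 * 1 / Real.exp (-(2 * k.G) - (P z0).ω E - 1) =
        2 * Real.exp (-(-(2 * k.G) - (P z0).ω E - 1)) := by
      rw [Real.exp_neg (-(2 * k.G) - (P z0).ω E - 1), mul_one, div_eq_mul_inv]
    obtain x3 : Real.exp (-(-(2 * k.G) - (P z0).ω E - 1)) ≤
        Real.exp (2 * k.G + 6 * r + k.ρ / 40 + 1) := Real.exp_le_exp.2 (by linarith only [e2, r0])
    rw [x2, Real.exp_add 8]
    nlinarith only [e9, x1, x3]
  calc _ ≤ Real.exp (8 + (8 * k.ρ + k.ρ / 20)) * Real.exp (8 + (2 * k.G + 6 * r + k.ρ / 40 + 1)) *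
        Real.exp (-k.Ψ r + 1000 * k.G * ((⌊k.ρ / (10 ^ 11 * (k.K * k.G))⌋₊ : ℕ) + 1)) := by
        refine mul_le_mul_of_nonneg_right ?_ (Real.exp_pos _).le
        rw [one_mul]
        exact mul_le_mul b1 b2 (by positivity) (Real.exp_pos _).le
    _ ≤ _ := by
        rw [← Real.exp_add, ← Real.exp_add]
        exact Real.exp_le_exp.2 (by linarith only [r1, a, b, c, psi_ge hk r1, n_le hk])

end RUNC

theorem runc : RUNC_s := by
  intro hb hc k hk Z P d C hC
  choose! E hE using fun z (hz : z ∈ C) => hb k (P z) (d z) hk (hC.one z hz)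
  have a := hk.G_le
  have b := hk.G_ge
  have c := hk.ς_big
  have w := hk.Wc_ge
  have cnt := hk.count
  obtain hI : (((range (⌊Real.exp k.ς / 100⌋₊ + 1)) ×ˢ (range (⌊Real.exp k.ς / 100⌋₊ + 1))).card : ℝ) ≤
      Real.exp k.ς * Real.exp k.ς := by
    rw [Finset.card_product, Finset.card_range, Nat.cast_mul]
    obtain x1 : ((⌊Real.exp k.ς / 100⌋₊ + 1 : ℕ) : ℝ) ≤ Real.exp k.ς := by
      obtain this := Nat.floor_le (show 0 ≤ Real.exp k.ς / 100 by linarith only [a, b, c, w, cnt])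
      push_cast
      linarith only [a, b, c, w, cnt, this]
    exact mul_le_mul x1 x1 (Nat.cast_nonneg _) (Real.exp_pos _).le
  have key := RUNC.vol_fin (fun z => (P z).t) C _
    (fun i : ℕ × ℕ => {z | z ∈ C ∧ E z = i.1 ∧ ⌈(P z).Rst (E z + 1)⌉ = (i.2 : ℤ)})
    (Real.exp_pos (-(9 / 10 * k.ρ))).le hI (fun z hz => by
      obtain ⟨e0, e1, -⟩ := hE z hz
      have i1 := (hC.one z hz).inr e0.deep.1.le
      have i2 := (hC.one z hz).sk.idx_le hk i1.1 i1.2
      have r2 : 0 ≤ (P z).Rst (E z + 1) := Sk.Rst_nonneg _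
      have r3 : (0 : ℤ) ≤ ⌈(P z).Rst (E z + 1)⌉ := Int.ceil_nonneg r2
      have r4 := Int.ceil_lt_add_one ((P z).Rst (E z + 1))
      refine ⟨(E z, ⌈(P z).Rst (E z + 1)⌉.toNat), Finset.mem_product.2 ⟨mem_range.2
        (Nat.lt_succ_of_le (Nat.le_floor (by show ((E z : ℕ) : ℝ) ≤ _; linarith only [i2]))), mem_range.2 (Nat.lt_succ_of_le (Nat.le_floor ?_))⟩,
        hz, rfl, (Int.toNat_of_nonneg r3).symm⟩
      obtain r5 : ((⌈(P z).Rst (E z + 1)⌉.toNat : ℕ) : ℝ) = (⌈(P z).Rst (E z + 1)⌉ : ℝ) := by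
        exact_mod_cast congrArg (Int.cast : ℤ → ℝ) (Int.toNat_of_nonneg r3)
      show ((⌈(P z).Rst (E z + 1)⌉.toNat : ℕ) : ℝ) ≤ _
      rw [r5]
      linarith only [a, b, c, w, cnt, e1, r4])
    (fun i _ => RUNC.part hk (hc k hk) (RUNC.Cl.mono hC fun z hz => hz.1) i.1 i.2 (by
      rintro z ⟨hz, h1, h2⟩
      obtain ⟨e0, e1, e2⟩ := hE z hz
      rw [← h1]
      exact ⟨e0, e1, e2, h2⟩))
  refine key.trans (ENNReal.ofReal_le_ofReal ?_)
  rw [← Real.exp_add, ← Real.exp_add]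
  exact Real.exp_le_exp.2 (by linarith only [a, b, c])

end Pool.Agent.MP_9cbfe4_an.E

end
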