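import Pool.Agent.MP_9cbfe4_an.M00
import Pool.Agent.MP_9cbfe4_an.M02

set_option linter.all false

attribute [-instance] AddQuantale.instAddLeftMono IdemSemiring.toCanonicallyOrderedAdd
  NumberField.to_charZero AddQuantale.instAddRightMono IdemSemiring.toMulLeftMono RKHS.instFunLike
  Quantale.instMulRightMono Quantale.instMulLeftMono IsOrderedCancelMonoid.toIsOrderedMonoid
  LinearOrderedCommMonoidWithZero.toPosMulStrictMono
  Group.IsPerfect.subsingleton_of_isMulCommutative CanonicallyOrderedAdd.toMulLeftMono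
  Valued.toUniformSpace IdemSemiring.toMulRightMono TotallySeparatedSpace.t2Space
  LinearOrderedCommMonoidWithZero.toIsOrderedMonoid IsScalarTower.complexToReal
  Order.Coframe.toCompleteLattice OmegaCompletePartialOrder.toPartialOrder Invertible.toNeZero
  GrpTypeEquivalenceGrp.grpGroup littleWedderburn CanonicallyOrderedMul.toMulLeftMono
  CoalgHomClass.toSemilinearMapClass TestFunctionClass.toDFunLike
  ContDiffMapSupportedInClass.toDFunLike Order.Frame.toCompleteLattice RightPreLieAlgebra.toModule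
  CategoryTheory.Limits.Concrete.instUniqueToTypeTerminal LeftPreLieAlgebra.toModule
  CStarAlgebra.instOrderClosedTopology IdemSemiring.toSemiring
  LieAdmissibleRing.toNonUnitalNonAssocRing NonUnitalAlgSemiHomClass.toDistribMulActionSemiHomClass
  CStarAlgebra.toNormedRing

/-! ### Part A0 -/

section

/-! Section A: statements and assembly. -/

namespace Pool.Agent.MP_9cbfe4_an

open Set Metric
open scoped ContDiff

noncomputable section

/-- a function of `(t, x, y)` with its partial derivatives -/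
def mdl (G : ℝ × P2 → ℝ) : Mdl where
  G t x y := G (t, x, y)
  Ga t x y := fderiv ℝ G (t, x, y) (0, 1, 0)
  Gb t x y := fderiv ℝ G (t, x, y) (0, 0, 1)
  Gt t x y := fderiv ℝ G (t, x, y) (1, 0, 0)

def Mdl.add (M E : Mdl) : Mdl where
  G t x y := M.G t x y + E.G t x y
  Ga t x y := M.Ga t x y + E.Ga t x y
  Gb t x y := M.Gb t x y + E.Gb t x y
  Gt t x y := M.Gt t x y + E.Gt t x y

/-- a `C²` perturbation of size `η` on the box -/
structure Pert (c : Cs) (η : ℝ) (E : Mdl) : Prop where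
  der : ∀ t x y, TI t → Box c x → Box c y →
    HasFDerivAt (fun p : ℝ × ℝ => E.G t p.1 p.2)
      (E.Ga t x y • ContinuousLinearMap.fst ℝ ℝ ℝ + E.Gb t x y • ContinuousLinearMap.snd ℝ ℝ ℝ) (x, y)
  conta : ∀ t, TI t → ContinuousOn (fun p : ℝ × ℝ => E.Ga t p.1 p.2) {p | Box c p.1 ∧ Box c p.2}
  contb : ∀ t, TI t → ContinuousOn (fun p : ℝ × ℝ => E.Gb t p.1 p.2) {p | Box c p.1 ∧ Box c p.2}
  sz : ∀ t x y, TI t → Box c x → Box c y →
    |E.G t x y| ≤ η ∧ |E.Ga t x y| ≤ η ∧ |E.Gb t x y| ≤ η ∧ |E.Gt t x y| ≤ η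
  tay : ∀ t t' x y x' y', TI t → TI t' → Box c x → Box c y → Box c x' → Box c y' →
    |E.G t' x' y' - E.G t x y - E.Ga t x y * (x' - x) - E.Gb t x y * (y' - y) - E.Gt t x y * (t' - t)|
      ≤ η * ((x' - x) ^ 2 + (y' - y) ^ 2 + (t' - t) ^ 2) ∧
    |E.Ga t' x' y' - E.Ga t x y| ≤ η * (|x' - x| + |y' - y| + |t' - t|) ∧
    |E.Gb t' x' y' - E.Gb t x y| ≤ η * (|x' - x| + |y' - y| + |t' - t|)

/-- parameters times box -/
def Dm (ρ : ℝ) : Set (ℝ × P2) := Icc (0 : ℝ) 1 ×ˢ closedBall (0 : P2) ρ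

/-- the normal form of a family that is `C^r` close to `(G0, x)` (helper26) -/
def NF_s : Prop := ∀ (G0 : ℝ × P2 → ℝ), ContDiff ℝ ∞ G0 → ∀ (r : ℕ) (ρ η : ℝ), 1 ≤ r → 0 < ρ →
  0 < η → ∃ R δ : ℝ, 0 < δ ∧ ∀ F : ℝ × P2 → P2, ContDiff ℝ ∞ F →
    (∀ k ≤ r, ∀ p ∈ Dm R, ‖iteratedFDeriv ℝ k (F - fun p => (G0 p, p.2.1)) p‖ < δ) →
    ∃ G : ℝ × P2 → ℝ, (∀ p ∈ Dm ρ, ContDiffAt ℝ ∞ G p) ∧
      (∀ k ≤ r, ∀ p ∈ Dm ρ, ‖iteratedFDeriv ℝ k (G - G0) p‖ ≤ η) ∧
      ∀ t, TI t → ∃ Ψ : P2 → P2, ContDiffOn ℝ 1 Ψ (ball 0 (ρ + 1)) ∧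
        (∀ p ∈ closedBall (0 : P2) ρ, (G (t, p), p.1) ∈ closedBall (0 : P2) ρ →
          F (t, Ψ p) = Ψ (G (t, p), p.1)) ∧
        (∃ K : ℝ, ∀ p ∈ closedBall (0 : P2) ρ, ∀ q ∈ closedBall (0 : P2) ρ,
          dist p q ≤ K * dist (Ψ p) (Ψ q)) ∧
        ∀ p ∈ closedBall (0 : P2) ρ, Function.Injective (fderiv ℝ Ψ p)

/-- from derivative norms to inequalities (helper26) -/
def PERT_s : Prop := ∀ (c : Cs) (η : ℝ) (E : ℝ × P2 → ℝ), 0 < c.L →
  (∀ p ∈ Dm (2 * c.L), ContDiffAt ℝ ∞ E p) →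
  (∀ k ≤ 2, ∀ p ∈ Dm (2 * c.L), ‖iteratedFDeriv ℝ k E p‖ ≤ η) → Pert c η (mdl E)

lemma mem_BoxS {c : Cs} {p : P2} : p ∈ BoxS c ↔ p ∈ closedBall (0 : P2) (2 * c.L) := by
  rw [mem_closedBall_zero_iff, norm_prod_le_iff]
  rfl

end
end Pool.Agent.MP_9cbfe4_an

end

/-! ### Part AM -/

section

/-! h42s section A: the model family. -/

namespace Pool.Agent.MP_9cbfe4_an

open Set Metric Filter Topology
open scoped ContDiff

noncomputable section

namespace A

/-- A smooth bijection with injective derivative has a smooth inverse. -/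
lemma contDiff_inv {E : Type} [NormedAddCommGroup E] [NormedSpace ℝ E]
    [FiniteDimensional ℝ E] {f g : E → E} {n : WithTop ℕ∞} (hn : n ≠ 0)
    (hf : ContDiff ℝ n f) (hl : Function.LeftInverse g f) (hr : Function.RightInverse g f)
    (hi : ∀ a, Function.Injective (fderiv ℝ f a)) : ContDiff ℝ n g := by
  have := FiniteDimensional.complete ℝ E
  refine contDiff_iff_contDiffAt.2 fun y => ?_
  obtain ⟨a, rfl⟩ := hr.surjective y
  let U : E ≃L[ℝ] E :=
    (LinearEquiv.ofInjectiveEndo (fderiv ℝ f a : E →ₗ[ℝ] E) (hi a)).toContinuousLinearEquiv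
  have hU : HasFDerivAt f (U : E →L[ℝ] E) a := (hf.differentiable hn a).hasFDerivAt
  exact (hf.contDiffAt.to_localInverse hU hn).congr_of_eventuallyEq
    ((hf.contDiffAt.hasStrictFDerivAt' hU hn).localInverse_unique (.of_forall hl))

lemma dP_lip (x x' : ℝ) : dP x ≤ dP x' + |x' - x| := by
  unfold dP
  rw [← min_add_add_right]
  refine min_le_min ?_ ?_
  · simpa [abs_sub_comm, add_comm] using abs_sub_le x x' (Real.pi / 2)
  · simpa [abs_sub_comm, add_comm] using abs_sub_le x x' (-(Real.pi / 2))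

lemma aff {f f' : ℝ → ℝ} (hf : ∀ z, HasDerivAt f (f' z) z) {I : Set ℝ} (hI : Convex ℝ I) {k : ℝ}
    (h : ∀ z ∈ I, f' z = k) {y y' : ℝ} (hy : y ∈ I) (hy' : y' ∈ I) : f y' - f y = k * (y' - y) := by
  obtain this := hI.norm_image_sub_le_of_norm_hasDerivWithin_le (f := fun z => f z - k * z)
    (f' := fun z => f' z - k * 1) (C := 0)
    (fun z _ => ((hf z).sub ((hasDerivAt_id z).const_mul k)).hasDerivWithinAt)
    (fun z hz => by simp [h z hz]) hy hy'
  rw [zero_mul, norm_le_zero_iff] at this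
  linarith only [this]

lemma lip1 {f f' : ℝ → ℝ} (hf : ∀ z, HasDerivAt f (f' z) z) {C : ℝ} (h : ∀ z, |f' z| ≤ C)
    (x x' : ℝ) : |f x' - f x| ≤ C * |x' - x| :=
  convex_univ.norm_image_sub_le_of_norm_hasDerivWithin_le
    (fun z _ => (hf z).hasDerivWithinAt) (fun z _ => h z) (mem_univ x) (mem_univ x')

lemma tay1 {f f' : ℝ → ℝ} (hf : ∀ z, HasDerivAt f (f' z) z) {C : ℝ} (hC : 0 ≤ C)
    (h : ∀ x x', |f' x' - f' x| ≤ C * |x' - x|) (x x' : ℝ) :
    |f x' - f x - f' x * (x' - x)| ≤ C * (x' - x) ^ 2 := by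
  obtain this := (convex_closedBall x |x' - x|).norm_image_sub_le_of_norm_hasDerivWithin_le
    (f := fun z => f z - f' x * z) (f' := fun z => f' z - f' x * 1) (C := C * |x' - x|)
    (fun z _ => ((hf z).sub ((hasDerivAt_id z).const_mul _)).hasDerivWithinAt)
    (fun z hz => by
      rw [mul_one]
      exact (h x z).trans (mul_le_mul_of_nonneg_left (mem_closedBall_iff_norm.1 hz) hC))
    (mem_closedBall_self (abs_nonneg _)) (mem_closedBall_iff_norm.2 le_rfl)
  rw [Real.norm_eq_abs, Real.norm_eq_abs, mul_assoc, abs_mul_abs_self, ← sq] at this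
  convert this using 2
  ring

lemma prim {a : ℝ} (β : ContDiffBump a) : ∃ S : ℝ → ℝ, ContDiff ℝ ∞ S ∧
    (∀ z, HasDerivAt S (β z) z) ∧ Monotone S ∧ (∀ z, |z - a| ≤ β.rIn → S z = z - a) ∧
    ∀ z, |S z| ≤ β.rOut := by
  let S : ℝ → ℝ := fun u => ∫ x in a..u, β x
  have hd (z : ℝ) : HasDerivAt S (β z) z := (β.continuous.integral_hasStrictDerivAt a z).hasDerivAt
  have h0 : S a = 0 := intervalIntegral.integral_same
  have hD : deriv S = β := funext fun z => (hd z).deriv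
  have h1 (z : ℝ) : |S z| ≤ |z - a| := by
    simpa [h0] using lip1 hd (C := 1) (fun z => by rw [abs_of_nonneg β.nonneg]; exact β.le_one) a z
  have hr := β.rOut_pos
  refine ⟨S, contDiff_infty_iff_deriv.2 ⟨fun z => (hd z).differentiableAt, hD ▸ β.contDiff⟩, hd,
    monotone_of_deriv_nonneg (fun z => (hd z).differentiableAt) fun z => hD ▸ β.nonneg,
    fun z hz => ?_, fun z => ?_⟩
  · simpa [h0] using aff hd (convex_closedBall a β.rIn) (fun z hz => β.one_of_mem_closedBall hz)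
      (mem_closedBall_self β.rIn_pos.le) (mem_closedBall_iff_norm.2 hz)
  · rcases le_total z (a - β.rOut) with h | h
    · obtain this := aff hd (convex_Iic (a - β.rOut)) (k := 0) (fun z hz => β.zero_of_le_dist (by
        rw [Real.dist_eq]; exact le_abs.2 (Or.inr (by linarith only [mem_Iic.1 hz])))) h (mem_Iic.2 le_rfl)
      rw [zero_mul, sub_eq_zero] at this
      rw [← this]
      exact (h1 _).trans (abs_le.2 ⟨by linarith only [], by linarith only [hr]⟩)
    rcases le_total z (a + β.rOut) with h' | h'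
    · exact (h1 _).trans (abs_le.2 ⟨by linarith only [h], by linarith only [h']⟩)
    · obtain this := aff hd (convex_Ici (a + β.rOut)) (k := 0) (fun z hz => β.zero_of_le_dist (by
        rw [Real.dist_eq]; exact le_abs.2 (Or.inl (by linarith only [mem_Ici.1 hz])))) h' (mem_Ici.2 le_rfl)
      rw [zero_mul, sub_eq_zero] at this
      rw [← this]
      exact (h1 _).trans (abs_le.2 ⟨by linarith only [hr], by linarith only []⟩)

/-- The sum of two bumps at `±π/2`. -/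
lemma dbl {r R : ℝ} (β : ContDiffBump (Real.pi / 2)) (γ : ContDiffBump (-(Real.pi / 2)))
    (h1 : β.rIn = r) (h2 : γ.rIn = r) (h3 : β.rOut = R) (h4 : γ.rOut = R) (hR : R ≤ 1) (x : ℝ) :
    0 ≤ β x + γ x ∧ β x + γ x ≤ 1 ∧ (dP x ≤ r → β x + γ x = 1) ∧ (R ≤ dP x → β x + γ x = 0) := by
  have hp := Real.pi_gt_three
  have hr := β.rIn_lt_rOut
  obtain z1 : R ≤ |x - Real.pi / 2| → β x = 0 := fun h => β.zero_of_le_dist (by rwa [h3])
  obtain z2 : R ≤ |x + Real.pi / 2| → γ x = 0 := fun h => γ.zero_of_le_dist (by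
    rwa [h4, Real.dist_eq, sub_neg_eq_add])
  refine ⟨add_nonneg β.nonneg γ.nonneg, ?_, fun h => ?_, fun h => ?_⟩
  · rcases le_total x 0 with h | h
    · rw [z1 (le_abs.2 (Or.inr (by linarith only [hR, hp, h]))), zero_add]; exact γ.le_one
    · rw [z2 (le_abs.2 (Or.inl (by linarith only [hR, hp, h]))), add_zero]; exact β.le_one
  · rcases min_le_iff.1 h with h | h
    · rw [z2 (le_abs.2 (Or.inl (by linarith only [(abs_le.1 h).1, h1, h3, hR, hp, hr]))), add_zero]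
      exact β.one_of_mem_closedBall (by rwa [h1])
    · rw [z1 (le_abs.2 (Or.inr (by linarith only [(abs_le.1 h).2, h1, h3, hR, hp, hr]))), zero_add]
      exact γ.one_of_mem_closedBall (by rwa [h2, mem_closedBall, Real.dist_eq, sub_neg_eq_add])
  · rw [z1 (le_min_iff.1 h).1, z2 (le_min_iff.1 h).2, add_zero]

/-- The cut-off in `x`. -/
structure Th (th th' : ℝ → ℝ) (C : ℝ) : Prop where
  sm : ContDiff ℝ ∞ th
  der : ∀ x, HasDerivAt th (th' x) x
  C0 : 0 ≤ C
  nn : ∀ x, 0 ≤ th x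
  le : ∀ x, th x ≤ 1
  one : ∀ x, dP x ≤ 1 / 1000 → th x = 1
  zero : ∀ x, 2 / 1000 ≤ dP x → th x = 0 ∧ th' x = 0
  bd : ∀ x, |th' x| ≤ C
  lip : ∀ x x', |th' x' - th' x| ≤ C * |x' - x|

lemma exists_th : ∃ th th' C, Th th th' C := by
  let β : ContDiffBump (Real.pi / 2) := ⟨1 / 1000, 2 / 1000, by norm_num, by norm_num⟩
  let γ : ContDiffBump (-(Real.pi / 2)) := ⟨1 / 1000, 2 / 1000, by norm_num, by norm_num⟩
  let th : ℝ → ℝ := fun x => β x + γ x
  obtain h := dbl β γ rfl rfl rfl rfl (by norm_num [β])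
  have sm : ContDiff ℝ ∞ th := β.contDiff.add γ.contDiff
  have cs : HasCompactSupport th := β.hasCompactSupport.add γ.hasCompactSupport
  obtain ⟨d1, s1⟩ := contDiff_infty_iff_deriv.1 sm
  obtain ⟨d2, s2⟩ := contDiff_infty_iff_deriv.1 s1
  obtain ⟨a, ha⟩ := cs.deriv.exists_bound_of_continuous s1.continuous
  obtain ⟨b, hb⟩ := cs.deriv.deriv.exists_bound_of_continuous s2.continuous
  refine ⟨th, deriv th, max a b, sm, fun x => (d1 x).hasDerivAt,
    ((norm_nonneg _).trans (ha 0)).trans (le_max_left _ _), fun x => (h x).1, fun x => (h x).2.1,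
    fun x => (h x).2.2.1, fun x hx => ⟨(h x).2.2.2 hx, IsLocalMin.deriv_eq_zero
      (.of_forall fun z => ((h x).2.2.2 hx).trans_le (h z).1)⟩,
    fun x => (ha x).trans (le_max_left _ _),
    lip1 (fun z => (d2 z).hasDerivAt) fun z => (hb z).trans (le_max_right _ _)⟩

/-- The profile in `y`. -/
structure Ps (k e w : ℝ) (ψ ψ' : ℝ → ℝ) : Prop where
  sm : ContDiff ℝ ∞ ψ
  der : ∀ y, HasDerivAt ψ (ψ' y) y
  cont : Continuous ψ'
  nn : ∀ y, 0 ≤ ψ' y
  le : ∀ y, ψ' y ≤ k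
  core : ∀ y, dP y ≤ w → ψ' y = k
  far : ∀ y, 2 * w ≤ dP y → ψ' y = 0
  bd : ∀ y, |ψ y| ≤ (1 - e) * w
  sep : ∀ y y', dP y ≤ w → dP y' ≤ w → y < 0 → 0 < y' → k * e * w ≤ ψ y' - ψ y

lemma exists_ps {k e w : ℝ} (hk : 0 < k) (he : 0 < e) (hke : e = 1 / 2 - k) (hw : 0 < w)
    (hw' : w ≤ 1 / 2) : ∃ ψ ψ', Ps k e w ψ ψ' := by
  have hew := mul_pos he hw
  obtain hew' : e * w ≤ w / 2 := by nlinarith only [hk, hke, hw]
  let β : ContDiffBump (Real.pi / 2) := ⟨w + e * w / 2, w + e * w, by (clear * - he hw; positivity), by linarith only [hew]⟩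
  let γ : ContDiffBump (-(Real.pi / 2)) := ⟨w + e * w / 2, w + e * w, by positivity, by linarith only [hew]⟩
  obtain h := dbl β γ (r := w + e * w / 2) (R := w + e * w) rfl rfl rfl rfl (by linarith only [hk, he, hke, hw', hew'])
  obtain ⟨S, s1, s2, s3, s4, s5⟩ := prim β
  obtain ⟨T, t1, t2, t3, t4, t5⟩ := prim γ
  have hp := Real.pi_gt_three
  refine ⟨fun y => k * (S y + T y), fun y => k * (β y + γ y), contDiff_const.mul (s1.add t1),
    fun y => ((s2 y).add (t2 y)).const_mul k,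
    continuous_const.mul (β.continuous.add γ.continuous), fun y => mul_nonneg hk.le (h y).1,
    fun y => mul_le_of_le_one_right hk.le (h y).2.1,
    fun y hy => by rw [(h y).2.2.1 (by linarith only [hew, hy]), mul_one],
    fun y hy => by rw [(h y).2.2.2 (by linarith only [hew, hew', hy]), mul_zero], fun y => ?_, fun y y' h1 h2 h3 h4 => ?_⟩
  · have := mul_le_mul_of_nonneg_left ((abs_add_le _ _).trans (add_le_add (s5 y) (t5 y))) hk.le
    rw [abs_mul, abs_of_pos hk]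
    refine this.trans ?_
    change k * (w + e * w + (w + e * w)) ≤ _
    obtain rfl : k = 1 / 2 - e := by linarith only [hke]
    linarith only [mul_pos he hew]
  · obtain a1 : |y + Real.pi / 2| ≤ w := (min_le_iff.1 h1).resolve_left fun h => by
      linarith only [(abs_le.1 h).1, hk, he, hke, hw', hp, h3]
    obtain a2 : |y' - Real.pi / 2| ≤ w := (min_le_iff.1 h2).resolve_right fun h => by
      linarith only [(abs_le.1 h).2, hk, he, hke, hw', hp, h4]
    obtain b1 := s4 y' (a2.trans (by change w ≤ w + e * w / 2; linarith only [hew]))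
    obtain b2 := t4 y (by rw [sub_neg_eq_add]; exact a1.trans (by change w ≤ w + e * w / 2; linarith only [hew]))
    obtain b3 := s4 (Real.pi / 2 - (w + e * w / 2)) (by
      change _ ≤ w + e * w / 2; exact abs_le.2 ⟨by linarith only [], by linarith only [hew, hew']⟩)
    obtain b4 := t4 (-(Real.pi / 2) + (w + e * w / 2)) (by
      change _ ≤ w + e * w / 2; exact abs_le.2 ⟨by linarith only [hew, hew'], by linarith only []⟩)
    obtain b5 := s3 (show y ≤ Real.pi / 2 - (w + e * w / 2) by linarith only [hk, he, hke, hw', hew', hp, h3])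
    obtain b6 := t3 (show -(Real.pi / 2) + (w + e * w / 2) ≤ y' by linarith only [hk, he, hke, hw', hew', hp, h4])
    rw [← mul_sub, mul_assoc]
    exact mul_le_mul_of_nonneg_left (by linarith only [(abs_le.1 a1).2, (abs_le.1 a2).1, b1, b2, b3, b4, b5, b6]) hk.le

variable {k e w : ℝ} {ψ ψ' : ℝ → ℝ}

lemma Ps.affK (h : Ps k e w ψ ψ') (hw : w ≤ 1 / 2) {y y' : ℝ} (hy : dP y ≤ w) (hy' : dP y' ≤ w)
    (hd : |y' - y| ≤ 1) : ψ y' - ψ y = k * (y' - y) := by
  have hp := Real.pi_gt_three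
  have hd := abs_le.1 hd
  rcases min_le_iff.1 hy with a | a <;> rcases min_le_iff.1 hy' with b | b
  · exact aff h.der (convex_closedBall (Real.pi / 2) w)
      (fun z hz => h.core z ((min_le_left _ _).trans hz)) a b
  · linarith only [(abs_le.1 a).1, (abs_le.1 b).2, hw, hp, hd]
  · linarith only [(abs_le.1 a).2, (abs_le.1 b).1, hw, hp, hd]
  · refine aff h.der (convex_closedBall (-(Real.pi / 2)) w)
      (fun z hz => h.core z ((min_le_right _ _).trans ?_)) ?_ ?_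
    all_goals simp only [mem_closedBall, Real.dist_eq, sub_neg_eq_add] at *
    all_goals assumption

lemma Ps.affN (h : Ps k e w ψ ψ') {y y' : ℝ} (hy : 2 * w + |y' - y| ≤ dP y) : ψ y' = ψ y := by
  obtain this := aff h.der (convex_closedBall y |y' - y|) (k := 0) (fun z hz => h.far z (by
    have : |z - y| ≤ |y' - y| := mem_closedBall_iff_norm.1 hz
    linarith only [dP_lip y z, hy, this]))
    (mem_closedBall_self (abs_nonneg _)) (mem_closedBall_iff_norm.2 le_rfl)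
  linarith only [this]

/-- The unperturbed map. -/
def G0 (c : Cs) (th ψ : ℝ → ℝ) (p : ℝ × P2) : ℝ :=
  c.L * Real.cos p.2.1 + c.L * (th p.2.1 * ψ p.2.2) + Real.exp (-c.bl) / 2 * p.2.2 + p.1

/-- The unperturbed model. -/
def M0 (c : Cs) (th th' ψ ψ' : ℝ → ℝ) : Mdl where
  G t x y := G0 c th ψ (t, x, y)
  Ga _ x y := -(c.L * Real.sin x) + c.L * (th' x * ψ y)
  Gb _ x y := c.L * (th x * ψ' y) + Real.exp (-c.bl) / 2
  Gt _ _ _ := 1

/-- The numerical facts that are used. -/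
structure Num (c : Cs) (C : ℝ) : Prop where
  k_lo : 1 / 16 ≤ c.k0
  k_hi : c.k0 < 1 / 2
  CG : c.CG = C + 2
  L : 20 ≤ c.L
  w_pos : 0 < c.w0
  w : c.w0 ≤ 1 / 2000
  dw : c.dl ≤ c.w0
  eL : 40 ≤ c.e0 * c.L
  aw : (C + 1) * c.w0 * c.L ≤ c.L / c.lam ^ 5
  q : c.L * Real.exp (-c.bl / 2) ≤ 1 / 2

lemma num {c : Cs} {C : ℝ} (h1 : 1 / 16 ≤ c.k0) (h2 : c.k0 < 1 / 2) (h3 : c.CG = C + 2)
    (hC : 0 ≤ C) (h4 : 20 ≤ c.L) (h5 : 40 / (1 / 2 - c.k0) ≤ c.L) (h6 : C + 3 ≤ c.lam)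
    (h7 : 4 ≤ c.β) : Num c C := by
  obtain l0 : 0 < c.lam := by linarith only [h1, h2, hC, h6]
  obtain hL : Real.exp c.lam = c.L := Real.exp_log (by linarith only [h1, h2, h4])
  have hb : 4 * c.lam ≤ c.bl := mul_le_mul_of_nonneg_right h7 l0.le
  refine ⟨h1, h2, h3, h4, by unfold Cs.w0; positivity, ?_, ?_, ?_, ?_, ?_⟩
  · refine one_div_le_one_div_of_le (by norm_num) ?_
    exact le_trans (by norm_num) (pow_le_pow_left₀ (by norm_num) (show 3 ≤ c.lam by linarith only [hC, h6]) 7)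
  · unfold Cs.dl Cs.w0
    rw [le_div_iff₀ (by positivity)]
    obtain this : c.lam ^ 7 ≤ Real.exp (7 * c.lam) := by
      rw [show (7 : ℝ) = (7 : ℕ) by norm_num, Real.exp_nat_mul]
      exact pow_le_pow_left₀ l0.le (by linarith only [Real.add_one_le_exp c.lam, h1, h2]) 7
    refine (mul_le_mul_of_nonneg_left this (Real.exp_nonneg _)).trans ?_
    rw [← Real.exp_add, Real.exp_le_one_iff]
    linarith only [h1, h2, hC, h6, hb]
  · rw [div_le_iff₀ (by linarith only [h2])] at h5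
    unfold Cs.e0
    linarith only [h5]
  · unfold Cs.w0
    rw [le_div_iff₀ (by positivity)]
    obtain this : (C + 1) * (1 / c.lam ^ 7) * c.L * c.lam ^ 5 = (C + 1) / c.lam ^ 2 * c.L := by
      field_simp
    rw [this]
    refine mul_le_of_le_one_left (by linarith only [h1, h2, h4]) ((div_le_one (by positivity)).2 (by nlinarith only [hC, h6]))
  · obtain this : Real.exp (-c.bl / 2) * (c.L * c.L) ≤ 1 := by
      rw [← hL, ← Real.exp_add, ← Real.exp_add, Real.exp_le_one_iff]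
      linarith only [hb]
    nlinarith only [h4, this]

variable {c : Cs} {C : ℝ} {th th' : ℝ → ℝ} {E : Mdl}

/-- The product term on a pair. -/
lemma pair0 (N : Num c C) (T : Th th th' C) (P : Ps c.k0 c.e0 c.w0 ψ ψ') {x y x' y' m : ℝ}
    (h : Pair c x y x' y' m) : ∃ n, 0 ≤ n ∧ c.L * n + c.dl ≤ m ∧
    |th x' * ψ y' - th x * ψ y - th' x * ψ y * (x' - x) - th x * ψ' y * (y' - y)|
      ≤ C * (x' - x) ^ 2 + n * (|x' - x| * |y' - y|) ∧
    |th' x' * ψ y' - th' x * ψ y| ≤ C * |x' - x| + n * |y' - y| ∧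
    |th x' * ψ' y' - th x * ψ' y| ≤ n * |x' - x| := by
  have hC := T.C0
  have he : c.e0 = 1 / 2 - c.k0 := rfl
  obtain hψ : |ψ y| ≤ 1 := (P.bd y).trans (by nlinarith only [N.w, N.w_pos, N.k_lo, N.k_hi, he])
  obtain a1 : |ψ y * (th x' - th x - th' x * (x' - x))| ≤ C * (x' - x) ^ 2 := by
    rw [abs_mul]
    exact (mul_le_of_le_one_left (abs_nonneg _) hψ).trans (tay1 T.der hC T.lip x x')
  obtain a2 : |ψ y * (th' x' - th' x)| ≤ C * |x' - x| := by
    rw [abs_mul]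
    exact (mul_le_of_le_one_left (abs_nonneg _) hψ).trans (T.lip x x')
  have X0 := abs_nonneg (x' - x)
  have Y0 := abs_nonneg (y' - y)
  obtain ⟨hx, ⟨rfl, h | h⟩ | ⟨rfl, h1, h2, hy⟩⟩ := h
  · obtain ⟨b1, b2⟩ := T.zero x (by linarith only [X0, h])
    obtain ⟨b3, b4⟩ := T.zero x' (by linarith only [dP_lip x x', h])
    refine ⟨0, le_rfl, by simp, ?_⟩
    simp only [b1, b2, b3, b4, zero_mul, sub_self, abs_zero, add_zero]
    exact ⟨by (clear * - hC; positivity), by (clear * - hC; positivity), le_rfl⟩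
  · refine ⟨0, le_rfl, by simp, ?_⟩
    rw [P.affN (y := y) (y' := y') (by linarith only [N.w, h]), P.far y (by linarith only [N.w, Y0, h]),
      P.far y' (by linarith only [N.w, dP_lip y y', h])]
    simp only [zero_mul, mul_zero, sub_self, abs_zero, add_zero, sub_zero]
    exact ⟨by convert a1 using 2; ring, by convert a2 using 2; ring, le_rfl⟩
  · obtain b1 := P.affK (by linarith only [N.w]) h1 h2 (by linarith only [hy])
    have b2 := lip1 T.der T.bd x x'
    obtain k0 : |c.k0| ≤ 1 := abs_le.2 ⟨by linarith only [N.k_lo], by linarith only [N.k_hi]⟩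
    obtain b3 : |c.k0 * (th x' - th x)| ≤ C * |x' - x| := by
      rw [abs_mul]
      exact (mul_le_of_le_one_left (abs_nonneg _) k0).trans b2
    refine ⟨C, hC, by rw [N.CG]; linarith only [N.dw, N.w, N.L], ?_⟩
    rw [P.core y h1, P.core y' h2, show ψ y' = ψ y + c.k0 * (y' - y) by linarith only [b1]]
    refine ⟨?_, ?_, by convert b3 using 2; ring⟩
    · refine le_trans (le_of_eq (congrArg abs (by ring))) (abs_add_le
        (ψ y * (th x' - th x - th' x * (x' - x))) (c.k0 * (th x' - th x) * (y' - y))) |>.trans ?_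
      rw [abs_mul _ (y' - y), ← mul_assoc]
      (clear * - a1 b3; gcongr)
    · refine le_trans (le_of_eq (congrArg abs (by ring))) (abs_add_le
        (ψ y * (th' x' - th' x)) (c.k0 * th' x' * (y' - y))) |>.trans ?_
      rw [abs_mul _ (y' - y), abs_mul c.k0]
      gcongr
      exact (mul_le_of_le_one_left (abs_nonneg _) k0).trans (T.bd _)

lemma der0 (T : Th th th' C) (P : Ps c.k0 c.e0 c.w0 ψ ψ') (t x y : ℝ) :
    HasFDerivAt (fun p : ℝ × ℝ => G0 c th ψ (t, p.1, p.2))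
      ((M0 c th th' ψ ψ').Ga t x y • ContinuousLinearMap.fst ℝ ℝ ℝ +
        (M0 c th th' ψ ψ').Gb t x y • ContinuousLinearMap.snd ℝ ℝ ℝ) (x, y) := by
  have f1 : HasFDerivAt (fun p : ℝ × ℝ => p.1) (ContinuousLinearMap.fst ℝ ℝ ℝ) (x, y) :=
    hasFDerivAt_fst
  have f2 : HasFDerivAt (fun p : ℝ × ℝ => p.2) (ContinuousLinearMap.snd ℝ ℝ ℝ) (x, y) :=
    hasFDerivAt_snd
  refine HasFDerivAt.congr_fderiv ((((f1.cos.const_mul c.L).add
    ((((T.der x).comp_hasFDerivAt (x, y) f1).mul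
      ((P.der y).comp_hasFDerivAt (x, y) f2)).const_mul c.L)).add
    (f2.const_mul (Real.exp (-c.bl) / 2))).add_const t) (ContinuousLinearMap.ext fun v => ?_)
  simp [M0]
  ring

theorem ok (N : Num c C) (T : Th th th' C) (P : Ps c.k0 c.e0 c.w0 ψ ψ')
    (hE : Pert c c.dl E) : ((M0 c th th' ψ ψ').add E).OK c := by
  let cv0 := (); let cv1 := (); let cv2 := ()
  have hC := T.C0
  have hL := N.L
  have hw := N.w
  have hw0 := N.w_pos
  have hk := N.k_lo
  have hk' := N.k_hi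
  have hdw := N.dw
  have he : c.e0 = 1 / 2 - c.k0 := rfl
  have hd : 0 < c.dl := Real.exp_pos _
  have hp := Real.pi_lt_four
  have bx {x : ℝ} (h : dP x ≤ 1) : Box c x := by
    rcases min_le_iff.1 h with h | h <;> exact abs_le.2 ⟨by linarith only [(abs_le.1 h).1, Real.pi_pos, hL, hw, hw0, hp],
      by linarith only [(abs_le.1 h).2, Real.pi_pos, hL, hw, hw0, hp]⟩
  clear_value cv2
  have cr {y : ℝ} (h : Core c y) : dP y ≤ c.w0 := h.trans (by nlinarith only [hw, hw0, hk', he])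
  obtain ⟨q, hq⟩ : ∃ q, q = Real.exp (-c.bl / 2) := ⟨_, rfl⟩
  have q0 : 0 < q := hq ▸ Real.exp_pos _
  have q1 : c.L * q ≤ 1 / 2 := hq ▸ N.q
  obtain q2 : Real.exp (-c.bl) = q * q := by rw [hq, ← Real.exp_add]; congr 1; ring
  obtain q3 : c.dl = q * q * (q * q) := by rw [← q2, ← Real.exp_add, Cs.dl]; congr 1; ring
  obtain q4 : q ≤ 1 / 40 := by nlinarith only [hL, q0, q1]
  obtain q5 : q * q ≤ q / 40 := by nlinarith only [hL, q0, q1]
  obtain q6 : c.dl ≤ q * q / 4 := by rw [q3]; nlinarith only [hd, q3, q4, q5]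
  have by' {y : ℝ} (hy : Box c y) : |Real.exp (-c.bl) / 2 * y| ≤ q / 2 := by
    rw [abs_mul, q2, abs_of_pos (by (clear * - q0; positivity))]
    exact (mul_le_mul_of_nonneg_left hy (by positivity)).trans (by nlinarith only [hw, hw0, q0, q1])
  have tp (x y : ℝ) : |c.L * (th x * ψ y)| ≤ (1 - c.e0) * c.w0 * c.L := by
    rw [abs_mul, abs_mul, abs_of_nonneg (T.nn x), abs_of_nonneg (by linarith only [hL, hd, q4, q5, q6] : 0 ≤ c.L), mul_comm]
    exact mul_le_mul_of_nonneg_right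
      ((mul_le_of_le_one_left (abs_nonneg _) (T.le x)).trans (P.bd y)) (by linarith only [hL, hd, q4, q5, q6])
  clear_value cv1
  obtain val : ∀ t x y, TI t → Box c x → Box c y →
      |((M0 c th th' ψ ψ').add E).G t x y - c.L * Real.cos x - t| ≤ (1 - c.e0) * c.w0 * c.L + 1 := by
    intro t x y ht hx hy
    have a1 := abs_le.1 (tp x y)
    obtain a2 := abs_le.1 (by' hy)
    have a3 := abs_le.1 (hE.sz t x y ht hx hy).1
    simp only [Mdl.add, M0, G0]
    exact abs_le.2 ⟨by linarith only [hd, q4, q5, q6, a1, a2, a3], by linarith only [hd, q4, q5, q6, a1, a2, a3]⟩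
  have tq (x y : ℝ) : 0 ≤ c.L * (th x * ψ' y) ∧ c.L * (th x * ψ' y) ≤ c.k0 * c.L := by
    refine ⟨mul_nonneg (by linarith only [hL, hd, q4, q5, q6]) (mul_nonneg (T.nn x) (P.nn y)), ?_⟩
    rw [mul_comm]
    gcongr
    exact (mul_le_of_le_one_left (P.nn y) (T.le x)).trans (P.le y)
  have c1 := T.sm.continuous
  clear_value cv0
  have c2 := P.sm.continuous
  have c3 := P.cont
  have c4 : Continuous th' := (LipschitzWith.of_dist_le_mul (K := ⟨C, hC⟩) fun p q =>
    T.lip q p).continuous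
  refine ⟨fun t x y ht hx hy => ?_, fun t x y ht hx hy => ?_,
    fun t ht => ContinuousOn.add (by simp only [M0]; fun_prop) (hE.conta t ht),
    fun t ht => ContinuousOn.add (by simp only [M0]; fun_prop) (hE.contb t ht),
    val, fun t x y ht hx hy h => ?_,
    fun t x y y' ht hx hy hy' h h' => ?_, fun t x y ht hx hy => ?_, fun t x y ht hx hy => ?_,
    fun t x y ht hx hy h => ?_, fun t x y ht hx hy => ?_, fun t x y ht hx hy => ?_,
    fun t x y ht hx hy h => ?_, fun t x y ht hx hy => ?_,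
    fun t t' x y x' y' m ht ht' hx hy hx' hy' h => ?_,
    fun t t' x y x' y' ht ht' hx hy hx' hy' h => ?_⟩
  · have a1 := abs_le.1 (val t x y ht hx hy)
    obtain a2 : (1 - c.e0) * c.w0 * c.L ≤ 1 / 2 * c.L := by gcongr; nlinarith only [hw, hk, hk', he, hd, q3, q4, q5]
    obtain a3 := mul_le_mul_of_nonneg_left (Real.cos_le_one x) (by linarith only [hL, hd, q4, q5, q6] : 0 ≤ c.L)
    obtain a4 := mul_le_mul_of_nonneg_left (Real.neg_one_le_cos x) (by linarith only [hL, hd, q4, q5, q6] : 0 ≤ c.L)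
    exact abs_le.2 ⟨by linarith only [ht.1, hL, hd, q4, q5, q6, a1, a2, a4], by linarith only [ht.2, hL, hd, q4, q5, q6, a1, a2, a3]⟩
  · refine HasFDerivAt.congr_fderiv ((der0 T P t x y).add (hE.der t x y ht hx hy)) ?_
    simp only [Mdl.add, add_smul]
    abel
  · obtain a2 := abs_le.1 (by' hy)
    have a3 := abs_le.1 (hE.sz t x y ht hx hy).1
    simp only [Mdl.add, M0, G0, (T.zero x (by linarith only [hd, q4, q5, q6, h])).1, ← hq]
    exact abs_le.2 ⟨by linarith only [hd, q5, q6, a2, a3], by linarith only [hd, q5, q6, a2, a3]⟩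
  · have a1 := P.sep y y' (cr hy) (cr hy') h h'
    obtain bX := bx (x := x) (by linarith only [hw, hd, q4, q5, q6, hx])
    obtain a2 := abs_le.1 (hE.sz t x y ht bX (bx (by linarith only [cr hy, hw, hd, q4, q5, q6]))).1
    obtain a3 := abs_le.1 (hE.sz t x y' ht bX (bx (by linarith only [cr hy', hw, hd, q4, q5, q6]))).1
    obtain a4 := mul_le_mul_of_nonneg_left a1 (by linarith only [hL, hd, q4, q5, q6] : 0 ≤ c.L)
    obtain a5 : 0 ≤ Real.exp (-c.bl) / 2 * (y' - y) := mul_nonneg (by positivity) (by linarith only [h, h'])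
    have a6 := mul_le_mul_of_nonneg_left N.eL hw0.le
    obtain a7 : 1 / 16 * (c.w0 * (c.e0 * c.L)) ≤ c.k0 * (c.w0 * (c.e0 * c.L)) :=
      mul_le_mul_of_nonneg_right hk (by linarith only [hw0, a6])
    simp only [Mdl.add, M0, G0, T.one x (by linarith only [hw, hd, q4, q5, q6, hx])]
    exact le_abs.2 (Or.inl (by linarith only [hw0, hdw, a2, a3, a4, a5, a6, a7]))
  · have a1 := abs_le.1 (hE.sz t x y ht hx hy).2.2.1
    simp only [Mdl.add, M0, q2]
    linarith only [(tq x y).1, q6, a1]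
  · have a1 := abs_le.1 (hE.sz t x y ht hx hy).2.2.1
    simp only [Mdl.add, M0, q2]
    linarith only [(tq x y).2, hd, q4, q5, q6, a1]
  · have a1 := abs_le.1 (hE.sz t x y ht hx hy).2.2.1
    obtain this : th x * ψ' y = 0 := h.elim (fun h => by rw [(T.zero x (by linarith only [hd, q4, q5, q6, h])).1, zero_mul])
      fun h => by rw [P.far y (by linarith only [hw, hd, q4, q5, q6, h]), mul_zero]
    simp only [Mdl.add, M0, q2, this]
    linarith only [hd, q6, a1]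
  · obtain a1 := abs_le.1 (hE.sz t x y ht (bx (by linarith only [hw, hd, q4, q5, q6, hx])) (bx (by linarith only [hw, hd, q4, q5, q6, hy]))).2.2.1
    simp only [Mdl.add, M0, q2, T.one x (by linarith only [hw, hd, q4, q5, q6, hx]), P.core y hy]
    exact abs_le.2 ⟨by linarith only [hd, q4, q5, q6, a1], by linarith only [hd, q4, q5, q6, a1]⟩
  · have a1 := abs_le.1 (hE.sz t x y ht hx hy).2.1
    obtain a2 : |c.L * (th' x * ψ y)| ≤ c.L * (C * c.w0) := by
      rw [abs_mul, abs_mul, abs_of_nonneg (by linarith only [hL, hd, q4, q5, q6] : 0 ≤ c.L)]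
      gcongr
      exacts [T.bd x, (P.bd y).trans (by nlinarith only [hw, hw0, hk', he])]
    have a2 := abs_le.1 a2
    obtain a3 : c.w0 * 1 ≤ c.w0 * c.L := by gcongr; linarith only [hL, hd, q4, q5, q6]
    have a4 := N.aw
    simp only [Mdl.add, M0]
    exact abs_le.2 ⟨by linarith only [hdw, a1, a2, a3, a4], by linarith only [hdw, a1, a2, a3, a4]⟩
  · simpa [Mdl.add, M0, (T.zero x (by linarith only [hd, q4, q5, q6, h])).2] using (hE.sz t x y ht hx hy).2.1
  · simpa [Mdl.add, M0] using (hE.sz t x y ht hx hy).2.2.2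
  · obtain ⟨n, n0, hm, a1, a2, a3⟩ := pair0 N T P h
    obtain L0 : 0 ≤ c.L := by linarith only [hL, hd, q4, q5, q6]
    have sc {z B : ℝ} (h : |z| ≤ B) : |c.L * z| ≤ c.L * B := by
      rw [abs_mul, abs_of_nonneg L0]; gcongr
    have a1 := abs_le.1 (sc a1)
    have a2 := abs_le.1 (sc a2)
    have a3 := abs_le.1 (sc a3)
    have s1 := Real.abs_sin_sub_sin_le x' x
    obtain a4 := abs_le.1 (sc (tay1 Real.hasDerivAt_cos zero_le_one (fun x x' => by
      rw [neg_sub_neg, abs_sub_comm, one_mul]; exact Real.abs_sin_sub_sin_le x' x) x x'))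
    have a5 := abs_le.1 (sc s1)
    obtain ⟨a6, a7, a8⟩ := hE.tay t t' x y x' y' ht ht' hx hy hx' hy'
    rw [abs_le] at a6 a7 a8
    have X0 := abs_nonneg (x' - x)
    have Y0 := abs_nonneg (y' - y)
    have Ln := mul_nonneg L0 n0
    have e1 := mul_le_mul_of_nonneg_right hm (mul_nonneg X0 Y0)
    have e2 := mul_le_mul_of_nonneg_right hm (sq_nonneg (y' - y))
    have e3 := mul_le_mul_of_nonneg_right hm X0
    have e4 := mul_le_mul_of_nonneg_right hm Y0
    obtain e5 := mul_le_mul_of_nonneg_right (show c.dl ≤ c.L by linarith only [hL, hd, q4, q5, q6]) (sq_nonneg (x' - x))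
    obtain e6 := mul_le_mul_of_nonneg_right (show c.dl ≤ c.L by linarith only [hL, hd, q4, q5, q6]) X0
    have e7 := mul_nonneg hd.le (mul_nonneg X0 Y0)
    have e8 := mul_nonneg Ln (sq_nonneg (y' - y))
    have e9 := mul_nonneg Ln Y0
    have e0 := mul_nonneg hd.le (mul_nonneg (abs_nonneg (t' - t)) (add_nonneg X0 Y0))
    simp only [Mdl.add, M0, G0, N.CG]
    exact ⟨abs_le.2 ⟨by linarith only [a1, a4, a6, e1, e2, e5, e7, e8, e0], by linarith only [a1, a4, a6, e1, e2, e5, e7, e8, e0]⟩, abs_le.2 ⟨by linarith only [a2, a5, a7, e4, e6], by linarith only [a2, a5, a7, e4, e6]⟩,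
      abs_le.2 ⟨by linarith only [a3, a8, e3, e4, e9], by linarith only [a3, a8, e3, e4, e9]⟩⟩
  · have a := (hE.tay t t' x y x' y' ht ht' hx hy hx' hy').2.1
    have X0 := abs_nonneg (x' - x)
    simp only [Mdl.add, M0, (T.zero x (by linarith only [hd, q4, q5, q6, h, X0])).2, (T.zero x' (by linarith only [dP_lip x x', hd, q4, q5, q6, h])).2]
    convert a using 2
    ring

lemma G0_sm (T : Th th th' C) (P : Ps c.k0 c.e0 c.w0 ψ ψ') : ContDiff ℝ ∞ (G0 c th ψ) := by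
  have h1 := T.sm
  have h2 := P.sm
  unfold G0
  fun_prop

lemma fam (hL : 0 ≤ c.L) (T : Th th th' C) (P : Ps c.k0 c.e0 c.w0 ψ ψ') :
    SmoothFamily fun p => (G0 c th ψ p, p.2.1) := by
  let cv0 := ()
  obtain sm : ContDiff ℝ ∞ fun p : ℝ × P2 => (G0 c th ψ p, p.2.1) :=
    (G0_sm T P).prodMk (by fun_prop)
  refine ⟨sm, fun t => ?_⟩
  obtain hb : 0 < Real.exp (-c.bl) / 2 := by positivity
  have mo : Monotone ψ := monotone_of_deriv_nonneg (fun y => (P.der y).differentiableAt)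
    fun y => (P.der y).deriv ▸ P.nn y
  have st (x : ℝ) : StrictMono fun y => G0 c th ψ (t, x, y) := fun y y' h => by
    have := mul_le_mul_of_nonneg_left (mul_le_mul_of_nonneg_left (mo h.le) (T.nn x)) hL
    have := mul_lt_mul_of_pos_left h hb
    simp only [G0]
    (rename_i zq0; linarith only [zq0, this])
  have su (x : ℝ) : Function.Surjective fun y => G0 c th ψ (t, x, y) := by
    have bd (y : ℝ) : |c.L * (th x * ψ y)| ≤ c.L * (th x * ((1 - c.e0) * c.w0)) := by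
      rw [abs_mul, abs_mul, abs_of_nonneg hL, abs_of_nonneg (T.nn x)]
      exact mul_le_mul_of_nonneg_left (mul_le_mul_of_nonneg_left (P.bd y) (T.nn x)) hL
    refine ((G0_sm T P).continuous.comp (by fun_prop)).surjective
      (tendsto_atTop_mono (fun y => ?_) (tendsto_atTop_add_const_right _
        (c.L * Real.cos x - c.L * (th x * ((1 - c.e0) * c.w0)) + t)
        (tendsto_id.const_mul_atTop hb)))
      (tendsto_atBot_mono (fun y => ?_) (tendsto_atBot_add_const_right _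
        (c.L * Real.cos x + c.L * (th x * ((1 - c.e0) * c.w0)) + t)
        (tendsto_id.const_mul_atBot hb)))
    all_goals
      simp only [G0, id, Function.comp_apply]
      linarith only [abs_le.1 (bd y)]
  clear_value cv0
  obtain bij : Function.Bijective fun z : P2 => (G0 c th ψ (t, z), z.1) := by
    refine ⟨fun ⟨x, y⟩ ⟨x', y'⟩ h => ?_, fun ⟨u, x⟩ => ?_⟩
    · obtain ⟨h1, rfl⟩ := Prod.mk.inj h
      exact Prod.ext rfl ((st x).injective h1)
    · obtain ⟨y, hy⟩ := su x u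
      exact ⟨(x, y), Prod.ext hy rfl⟩
  obtain ⟨g, hl, hr⟩ := Function.bijective_iff_has_inverse.1 bij
  have s1 : ContDiff ℝ ∞ fun z : P2 => (G0 c th ψ (t, z), z.1) := sm.comp (contDiff_prodMk_right t)
  refine ⟨g, s1, contDiff_inv (by simp) s1 hl hr fun ⟨x, y⟩ => ?_, hl, hr⟩
  rw [((der0 T P t x y).prodMk hasFDerivAt_fst).fderiv]
  refine (injective_iff_map_eq_zero _).2 fun ⟨u, v⟩ h => ?_
  obtain ⟨h1, rfl⟩ : _ ∧ u = 0 := Prod.mk.inj h
  have : 0 < (M0 c th th' ψ ψ').Gb t x y :=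
    add_pos_of_nonneg_of_pos (mul_nonneg hL (mul_nonneg (T.nn x) (P.nn y))) hb
  simpa [this.ne'] using h1

end A

end
end Pool.Agent.MP_9cbfe4_an

end

/-! ### Part AN -/

section

/-! Section A: the normal form. -/

namespace Pool.Agent.MP_9cbfe4_an

open Set Metric Filter Topology
open scoped ContDiff Nat

noncomputable section

namespace AN

section general
variable {E F G : Type} [NormedAddCommGroup E] [NormedSpace ℝ E] [NormedAddCommGroup F]
  [NormedSpace ℝ F] [NormedAddCommGroup G] [NormedSpace ℝ G]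

lemma le_inf (n : ℕ) : (n : WithTop ℕ∞) ≤ ∞ := by exact_mod_cast le_top

lemma comp_le {g : F → G} {f : E → F} {x : E} {n : ℕ} (hg : ContDiff ℝ ∞ g)
    (hf : ContDiffAt ℝ ∞ f x) {C D : ℝ} (hC : ∀ i ≤ n, ‖iteratedFDeriv ℝ i g (f x)‖ ≤ C)
    (hD : ∀ i, 1 ≤ i → i ≤ n → ‖iteratedFDeriv ℝ i f x‖ ≤ D ^ i) :
    ‖iteratedFDeriv ℝ n (g ∘ f) x‖ ≤ n ! * C * D ^ n := by
  obtain ⟨u, hu, h⟩ := (hf.of_le (le_inf n)).contDiffOn le_rfl (by simp)
  obtain ⟨s, hs, ho, hx⟩ := _root_.mem_nhds_iff.1 hu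
  rw [← iteratedFDerivWithin_of_isOpen n ho hx]
  refine norm_iteratedFDerivWithin_comp_le (hg.of_le (le_inf n)).contDiffOn (h.mono hs) le_rfl
    uniqueDiffOn_univ ho.uniqueDiffOn (mapsTo_univ _ _) hx (fun i hi => ?_) fun i h1 hi => ?_
  · rw [iteratedFDerivWithin_univ]; exact hC i hi
  · rw [iteratedFDerivWithin_of_isOpen i ho hx]; exact hD i h1 hi

lemma inv_contDiffAt [CompleteSpace E] {f : E → F} {g : F → E} {a : E} (hf : ContDiffAt ℝ ∞ f a)
    (f' : E ≃L[ℝ] F) (hf' : HasFDerivAt f (f' : E →L[ℝ] F) a) (hg : ∀ᶠ x in 𝓝 a, g (f x) = x) :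
    ContDiffAt ℝ ∞ g (f a) :=
  (hf.to_localInverse hf' (by simp)).congr_of_eventuallyEq
    ((hf.hasStrictFDerivAt' hf' (by simp)).localInverse_unique hg)

lemma clm_le (L : E →L[ℝ] F) {i : ℕ} (hi : 1 ≤ i) (x : E) : ‖iteratedFDeriv ℝ i L x‖ ≤ ‖L‖ := by
  obtain ⟨j, rfl⟩ := Nat.exists_eq_add_of_le' hi
  have : fderiv ℝ L = fun _ => L := funext fun _ => L.fderiv
  rw [← norm_iteratedFDeriv_fderiv, this]
  rcases eq_or_ne j 0 with rfl | h
  · simp
  · simp [iteratedFDeriv_const_of_ne h]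

lemma id_le {i : ℕ} (hi : 1 ≤ i) (x : E) : ‖iteratedFDeriv ℝ i (fun y : E => y) x‖ ≤ 1 :=
  (clm_le (ContinuousLinearMap.id ℝ E) hi x).trans ContinuousLinearMap.norm_id_le

lemma add_le {f g : E → F} {x : E} (hf : ContDiffAt ℝ ∞ f x) (hg : ContDiffAt ℝ ∞ g x) (i : ℕ) :
    ‖iteratedFDeriv ℝ i (f + g) x‖ ≤ ‖iteratedFDeriv ℝ i f x‖ + ‖iteratedFDeriv ℝ i g x‖ := by
  rw [iteratedFDeriv_add_apply (hf.of_le (le_inf i)) (hg.of_le (le_inf i))]
  exact norm_add_le _ _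

lemma left_le (L : F →L[ℝ] G) (hL : ‖L‖ ≤ 1) {f : E → F} {x : E} (hf : ContDiffAt ℝ ∞ f x) (i : ℕ) :
    ‖iteratedFDeriv ℝ i (L ∘ f) x‖ ≤ ‖iteratedFDeriv ℝ i f x‖ :=
  (L.norm_iteratedFDeriv_comp_left hf (le_inf i)).trans (mul_le_of_le_one_left (norm_nonneg _) hL)

lemma prod_le {f : E → F} {g : E → G} {x : E} (hf : ContDiffAt ℝ ∞ f x) (hg : ContDiffAt ℝ ∞ g x)
    {i : ℕ} {B : ℝ} (h1 : ‖iteratedFDeriv ℝ i f x‖ ≤ B) (h2 : ‖iteratedFDeriv ℝ i g x‖ ≤ B) :
    ‖iteratedFDeriv ℝ i (fun y => (f y, g y)) x‖ ≤ B := by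
  rw [iteratedFDeriv_prodMk hf hg (le_inf i), ContinuousMultilinearMap.opNorm_prod]
  exact max_le h1 h2

lemma exists_bd {f : E → F} (hf : ContDiff ℝ ∞ f) {K : Set E} (hK : IsCompact K) (r : ℕ) :
    ∃ B : ℝ, 1 ≤ B ∧ ∀ k ≤ r, ∀ p ∈ K, ‖iteratedFDeriv ℝ k f p‖ ≤ B := by
  choose b hb using fun k : ℕ =>
    hK.exists_bound_of_continuousOn (hf.continuous_iteratedFDeriv (le_inf k)).continuousOn
  refine ⟨1 + ∑ k ∈ Finset.range (r + 1), |b k|, le_add_of_nonneg_right (by (clear * -; positivity)),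
    fun k hk p hp => (hb k p hp).trans ((le_abs_self _).trans ?_)⟩
  have := Finset.single_le_sum (f := fun k => |b k|) (fun _ _ => abs_nonneg _)
    (Finset.mem_range.2 (Nat.lt_succ_of_le hk))
  linarith only [this]

lemma scale {H : ℝ × E → F} (hH : ContDiff ℝ ∞ H) (h0 : ∀ p, H (0, p) = 0) {K : Set E}
    (hK : IsCompact K) (r : ℕ) {η : ℝ} (hη : 0 < η) : ∃ ε : ℝ, 0 < ε ∧ ε ≤ 1 ∧ ∀ k ≤ r, ∀ p ∈ K,
      ‖iteratedFDeriv ℝ k (fun q => H (ε, q)) p‖ ≤ η := by
  have e (k : ℕ) (ε : ℝ) (p : E) : iteratedFDeriv ℝ k (fun q => H (ε, q)) p =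
      (iteratedFDeriv ℝ k H (ε, p)).compContinuousLinearMap fun _ => ContinuousLinearMap.inr ℝ ℝ E := by
    have := (ContinuousLinearMap.inr ℝ ℝ E).iteratedFDeriv_comp_right
      (f := fun z => H ((ε, 0) + z)) (hH.comp (contDiff_const.add contDiff_id)) p (le_inf k)
    rw [iteratedFDeriv_comp_add_left] at this
    simpa [Function.comp_def] using this
  have h (k : ℕ) : ∀ᶠ ε in 𝓝 (0 : ℝ), ∀ p ∈ K, ‖iteratedFDeriv ℝ k (fun q => H (ε, q)) p‖ ≤ η := by
    refine hK.eventually_forall_of_forall_eventually fun p _ => ?_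
    obtain c : Continuous fun z : ℝ × E => ‖iteratedFDeriv ℝ k (fun q => H (z.1, q)) z.2‖ := by
      simp only [e]
      exact ((ContinuousMultilinearMap.compContinuousLinearMapL
        (fun _ : Fin k => ContinuousLinearMap.inr ℝ ℝ E)).continuous.comp
          (hH.continuous_iteratedFDeriv (le_inf k))).norm
    refine (c.continuousAt.eventually_lt continuousAt_const ?_).mono fun _ => le_of_lt
    simpa [h0] using hη
  have h2 : ∀ᶠ ε in 𝓝[>] (0 : ℝ), ∀ k ∈ Finset.range (r + 1), ∀ p ∈ K,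
      ‖iteratedFDeriv ℝ k (fun q => H (ε, q)) p‖ ≤ η :=
    ((eventually_all_finset _).2 fun k _ => h k).filter_mono nhdsWithin_le_nhds
  obtain ⟨ε, h3, h4⟩ := (h2.and (ev_small one_pos)).exists
  exact ⟨ε, h4.1, h4.2, fun k hk => h3 k (Finset.mem_range.2 (Nat.lt_succ_of_le hk))⟩

/-- derivatives of an implicit function -/
lemma implicit_le {Ψ : E → E} {e : E → E} {x : E} {r : ℕ} {δ : ℝ} (he : ContDiff ℝ ∞ e)
    (hΨ : ContDiffAt ℝ ∞ Ψ x) (h : Ψ =ᶠ[𝓝 x] (fun y => y) + e ∘ Ψ)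
    (hb : ∀ i ≤ r, ‖iteratedFDeriv ℝ i e (Ψ x)‖ ≤ δ) (hδ : r ! * δ ≤ 1 / 2) (k : ℕ) (h1 : 1 ≤ k)
    (hk : k ≤ r) : ‖iteratedFDeriv ℝ k Ψ x‖ ≤ 2 ^ k := by
  induction k using Nat.strong_induction_on with
  | _ k ih =>
  by_contra hc
  rw [not_le] at hc
  set N := ‖iteratedFDeriv ℝ k Ψ x‖ with hN
  obtain k0 : k ≠ 0 := by omega
  have N0 : 0 ≤ N := norm_nonneg _
  have hD : (N ^ (k : ℝ)⁻¹) ^ k = N := Real.rpow_inv_natCast_pow N0 k0
  obtain h2 : (2 : ℝ) ≤ N ^ (k : ℝ)⁻¹ :=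
    le_of_lt (lt_of_pow_lt_pow_left₀ k (Real.rpow_nonneg N0 _) (by rwa [hD]))
  obtain h3 := comp_le (n := k) he hΨ (fun i hi => hb i (hi.trans hk)) (D := N ^ (k : ℝ)⁻¹)
    fun i i1 hi => hi.lt_or_eq.elim
      (fun hi => (ih i hi i1 (by omega)).trans (pow_le_pow_left₀ zero_le_two h2 i))
      fun e => by rw [e, hD]
  have d0 : 0 ≤ δ := (norm_nonneg _).trans (hb 0 r.zero_le)
  have h4 : (k ! : ℝ) * δ ≤ 1 / 2 :=
    (mul_le_mul_of_nonneg_right (Nat.cast_le.2 (Nat.factorial_le hk)) d0).trans hδ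
  have h5 := add_le (contDiffAt_id (x := x)) (he.contDiffAt.comp x hΨ) k
  obtain h6 : N ≤ 1 + k ! * δ * N := by
    rw [hD] at h3
    rw [hN, (h.iteratedFDeriv ℝ k).eq_of_nhds]
    exact h5.trans (add_le_add (id_le h1 x) (by rw [← (h.iteratedFDeriv ℝ k).eq_of_nhds]; exact h3))
  have h7 : (2 : ℝ) ≤ 2 ^ k := le_self_pow₀ one_le_two k0
  nlinarith only [hc, h6, h7, N0, h4]

end general

/-- the direction of `x` -/
def vL : ℝ →L[ℝ] ℝ × P2 := (ContinuousLinearMap.inr ℝ ℝ P2).comp (ContinuousLinearMap.inl ℝ ℝ ℝ)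

lemma vL_apply (s : ℝ) : vL s = (0, s, 0) := rfl

lemma norm_vL (s : ℝ) : ‖vL s‖ = |s| := by simp [vL_apply, Prod.norm_def]

lemma vL_le : ‖vL‖ ≤ 1 := vL.opNorm_le_bound zero_le_one fun s => by simp [norm_vL]

variable (e : ℝ × P2 → ℝ)

/-- `e` is small near the segment through `p` -/
def Gd (p : ℝ × P2) : Prop :=
  ∀ s ∈ Icc (-1 : ℝ) 1, ‖fderiv ℝ e (p + vL s)‖ < 1 / 2 ∧ |e (p + vL s)| < 1 / 2

/-- the solution of `s + e (p + s v) = 0` -/
def sol (p : ℝ × P2) : ℝ := Classical.epsilon fun s => s ∈ Icc (-1 : ℝ) 1 ∧ s + e (p + vL s) = 0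

/-- the inverse of `q ↦ q + e q • v` -/
def Ps (p : ℝ × P2) : ℝ × P2 := p + vL (sol e p)

variable {e} (he : ContDiff ℝ ∞ e)
include he

lemma Gd.ev {p : ℝ × P2} (h : Gd e p) : ∀ᶠ q in 𝓝 p, Gd e q := by
  refine isCompact_Icc.eventually_forall_of_forall_eventually fun s hs => ?_
  obtain c : Continuous fun z : (ℝ × P2) × ℝ => z.1 + vL z.2 := by fun_prop
  obtain c1 : Continuous fun z : (ℝ × P2) × ℝ => ‖fderiv ℝ e (z.1 + vL z.2)‖ :=
    ((he.continuous_fderiv (by simp)).comp c).norm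
  have c2 : Continuous fun z : (ℝ × P2) × ℝ => |e (z.1 + vL z.2)| := (he.continuous.comp c).abs
  exact ((c1.tendsto (p, s)).eventually_lt_const (h s hs).1).and
    ((c2.tendsto (p, s)).eventually_lt_const (h s hs).2)

lemma Gd.spec {p : ℝ × P2} (h : Gd e p) :
    sol e p ∈ Icc (-1 : ℝ) 1 ∧ sol e p + e (Ps e p) = 0 := by
  refine Classical.epsilon_spec (p := fun s => s ∈ Icc (-1 : ℝ) 1 ∧ s + e (p + vL s) = 0) ?_
  obtain c : Continuous fun s : ℝ => s + e (p + vL s) :=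
    continuous_id.add (he.continuous.comp (by fun_prop))
  obtain h1 := abs_lt.1 (h (-1) (by simp)).2
  obtain h2 := abs_lt.1 (h 1 (by simp)).2
  exact intermediate_value_Icc (by norm_num) c.continuousOn ⟨by linarith only [h1.2], by linarith only [h2.1]⟩

lemma Gd.uniq {q : ℝ × P2} (h : Gd e (q + vL (e q))) (hq : |e q| ≤ 1) :
    Ps e (q + vL (e q)) = q := by
  set p := q + vL (e q) with hp
  obtain ⟨h1, h2⟩ := h.spec he
  obtain e1 : p + vL (-e q) = q := by simp [hp]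
  obtain m1 : -e q ∈ Icc (-1 : ℝ) 1 := by rwa [← abs_neg, abs_le] at hq
  obtain this := Convex.norm_image_sub_le_of_norm_fderiv_le (𝕜 := ℝ) (f := e) (C := 1 / 2)
    (s := (fun s => p + vL s) '' Icc (-1 : ℝ) 1)
    (fun x _ => he.differentiable (by simp) x) (by rintro _ ⟨s, hs, rfl⟩; exact (h s hs).1.le)
    (by
      have := ((convex_Icc (-1 : ℝ) 1).linear_image vL.toLinearMap).translate p
      rwa [image_image] at this) ⟨_, m1, rfl⟩ ⟨_, h1, rfl⟩
  simp only [add_sub_add_left_eq_sub, ← map_sub, norm_vL, Real.norm_eq_abs] at this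
  rw [e1, show e (p + vL (sol e p)) = -sol e p from by rw [Ps] at h2; linarith only [h2],
    show -sol e p - e q = -(sol e p - -e q) by ring, abs_neg] at this
  obtain h3 : sol e p = -e q := by
    have := abs_nonneg (sol e p - -e q)
    exact sub_eq_zero.1 (abs_eq_zero.1 (by linarith))
  rw [Ps, h3, e1]

lemma Gd.right {p : ℝ × P2} (h : Gd e p) : Ps e p + vL (e (Ps e p)) = p := by
  rw [Ps, add_assoc, ← map_add, ← Ps, (h.spec he).2, map_zero, add_zero]

lemma Gd.smooth {p : ℝ × P2} (h : Gd e p) : ContDiffAt ℝ ∞ (Ps e) p := by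
  obtain ⟨h1, h2⟩ := h _ (h.spec he).1
  have c : ContDiff ℝ ∞ fun q => q + vL (e q) := contDiff_id.add (vL.contDiff.comp he)
  let D := ContinuousLinearMap.id ℝ (ℝ × P2) + vL.comp (fderiv ℝ e (Ps e p))
  obtain hi : Function.Injective D := (injective_iff_map_eq_zero _).2 fun w hw => by
    have h3 : w = -vL (fderiv ℝ e (Ps e p) w) := eq_neg_of_add_eq_zero_left hw
    have h4 := (fderiv ℝ e (Ps e p)).le_of_opNorm_le h1.le w
    have h5 := congrArg norm h3
    rw [norm_neg, norm_vL, ← Real.norm_eq_abs] at h5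
    exact norm_eq_zero.1 (by linarith only [h4, h5, norm_nonneg w])
  have := inv_contDiffAt (g := Ps e) (a := Ps e p) c.contDiffAt
    (ContinuousLinearEquiv.ofBijective D (LinearMap.ker_eq_bot.2 hi)
      (LinearMap.range_eq_top.2 (LinearMap.injective_iff_surjective.1 hi)))
    ((hasFDerivAt_id _).add (vL.hasFDerivAt.comp _ (he.differentiable (by simp) _).hasFDerivAt)) (by
      obtain h6 : ∀ᶠ q in 𝓝 (Ps e p), Gd e (q + vL (e q)) :=
        c.continuous.continuousAt.tendsto.eventually (by rw [h.right he]; exact h.ev he)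
      filter_upwards [h6, he.continuous.abs.continuousAt.eventually_lt continuousAt_const h2]
        with q a b using a.uniq he (by linarith only [b]))
  rwa [h.right he] at this

omit he in
lemma mem_Dm {ρ s : ℝ} {p : ℝ × P2} (hp : p ∈ Dm ρ) {R : ℝ} (hs : |s| ≤ 1) (hR : ρ + 1 ≤ R) :
    p + vL s ∈ Dm R := by
  refine ⟨by simpa [vL_apply] using hp.1, ?_⟩
  have h1 := mem_closedBall_zero_iff.1 hp.2
  obtain h2 : ‖(vL s).2‖ ≤ 1 := (norm_snd_le _).trans (by rwa [norm_vL])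
  exact mem_closedBall_zero_iff.2 ((norm_add_le _ _).trans (by linarith only [hR, h1, h2]))

omit he in
lemma Dm_mono {ρ R : ℝ} (h : ρ ≤ R) : Dm ρ ⊆ Dm R := prod_mono_right (closedBall_subset_closedBall h)

omit he in
lemma Dm_cpt (ρ : ℝ) : IsCompact (Dm ρ) := isCompact_Icc.prod (isCompact_closedBall _ _)

omit he in
lemma Dm_cvx (ρ : ℝ) : Convex ℝ (Dm ρ) := (convex_Icc _ _).prod (convex_closedBall _ _)

end AN

open AN

theorem nf : NF_s := by
  intro G0 hG r ρ η hr hρ hη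
  let F0 : ℝ × P2 → P2 := fun p => (G0 p, p.2.1)
  obtain hF0 : ContDiff ℝ ∞ F0 := hG.prodMk (by fun_prop)
  obtain ⟨B, B1, hB⟩ := exists_bd hF0 (Dm_cpt (ρ + 1)) r
  obtain ⟨ε, ε0, ε1, hε⟩ := scale (H := fun z : ℝ × (ℝ × P2) × ℝ =>
    G0 (z.2.1 + vL (z.1 * z.2.2)) - G0 z.2.1) ((hG.comp (by fun_prop)).sub (hG.comp (by fun_prop)))
    (by simp) ((Dm_cpt ρ).prod (isCompact_Icc (a := -1) (b := 1))) r
    (η := η / 2 / r !) (by (clear * - hη; positivity))
  obtain ⟨C, hC⟩ : ∃ C : ℝ, C = r ! * 2 ^ r := ⟨_, rfl⟩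
  have r1 : (1 : ℝ) ≤ r ! := Nat.one_le_cast.2 r.factorial_pos
  obtain C1 : (r ! : ℝ) * 2 ≤ C :=
    hC ▸ mul_le_mul_of_nonneg_left (le_self_pow₀ one_le_two (by omega)) (by positivity)
  obtain C0 : 0 < C := by linarith only [r1, C1]
  obtain ⟨A, hA⟩ : ∃ A : ℝ, A = 1 + r ! * (B + 1) ^ r := ⟨_, rfl⟩
  obtain A0 : 0 < A := by rw [hA]; (clear * - B1; positivity)
  obtain ⟨δ, δ0, δ1, δ2⟩ : ∃ δ : ℝ, 0 < δ ∧ C * δ ≤ ε ∧ C * A * δ ≤ η / 2 :=
    ⟨min (ε / C) (η / 2 / (C * A)), by (clear * - ε0 C0 hη A0; positivity), (le_div_iff₀' C0).1 (min_le_left _ _),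
      (le_div_iff₀' (by (clear * - C0 A0; positivity))).1 (min_le_right _ _)⟩
  refine ⟨ρ + B + 2, δ, δ0, fun F hF hc => ?_⟩
  obtain δ3 : r ! * δ ≤ 1 / 2 := by nlinarith only [ε1, δ1, C1, δ0]
  obtain δ4 : δ ≤ 1 / 2 := by nlinarith only [δ3, r1, δ0]
  have hE : ContDiff ℝ ∞ (F - F0) := hF.sub hF0
  let e₁ := ContinuousLinearMap.fst ℝ ℝ ℝ ∘ (F - F0)
  let e := ContinuousLinearMap.snd ℝ ℝ ℝ ∘ (F - F0)
  have he₁ : ContDiff ℝ ∞ e₁ := contDiff_fst.comp hE
  have he : ContDiff ℝ ∞ e := contDiff_snd.comp hE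
  have b₁ : ∀ k ≤ r, ∀ p ∈ Dm (ρ + B + 2), ‖iteratedFDeriv ℝ k e₁ p‖ ≤ δ := fun k hk p hp =>
    le_trans (left_le (.fst ℝ ℝ ℝ) (ContinuousLinearMap.norm_fst_le ℝ ℝ ℝ) hE.contDiffAt k)
      (hc k hk p hp).le
  have b : ∀ k ≤ r, ∀ p ∈ Dm (ρ + B + 2), ‖iteratedFDeriv ℝ k e p‖ < δ := fun k hk p hp =>
    lt_of_le_of_lt (left_le (.snd ℝ ℝ ℝ) (ContinuousLinearMap.norm_snd_le ℝ ℝ ℝ) hE.contDiffAt k)
      (hc k hk p hp)
  obtain b0 : ∀ p ∈ Dm (ρ + B + 2), |e p| < δ := fun p hp => by simpa using b 0 r.zero_le p hp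
  obtain b1 : ∀ p ∈ Dm (ρ + B + 2), ‖fderiv ℝ e p‖ < δ := fun p hp => by simpa using b 1 hr p hp
  obtain gd : ∀ p ∈ Dm (ρ + 1), Gd e p := fun p hp s hs =>
    have := mem_Dm hp (R := ρ + B + 2) (abs_le.2 hs) (by linarith only [B1, δ0, δ4])
    ⟨(b1 _ this).trans_le δ4, (b0 _ this).trans_le δ4⟩
  obtain gd' : ∀ p ∈ Dm ρ, Gd e p := fun p hp => gd p (Dm_mono (by linarith only [δ0, δ4]) hp)
  have mP : ∀ p ∈ Dm ρ, Ps e p ∈ Dm (ρ + 1) := fun p hp =>
    mem_Dm hp (abs_le.2 ((gd' p hp).spec he).1) le_rfl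
  obtain up : Dm (ρ + 1) ⊆ Dm (ρ + B + 2) := Dm_mono (by linarith only [B1, δ0, δ4])
  obtain bF : ∀ k ≤ r, ∀ q ∈ Dm (ρ + 1), ‖iteratedFDeriv ℝ k F q‖ ≤ B + 1 := fun k hk q hq => by
    rw [show F = F0 + (F - F0) by abel]
    exact (add_le hF0.contDiffAt hE.contDiffAt k).trans
      (add_le_add (hB k hk q hq) ((hc k hk q (up hq)).le.trans (by linarith only [δ0, δ4])))
  obtain mF : ∀ q ∈ Dm (ρ + 1), (q.1, F q) ∈ Dm (ρ + B + 2) := fun q hq =>
    ⟨hq.1, mem_closedBall_zero_iff.2 (le_trans (by simpa using bF 0 r.zero_le q hq)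
      (by linarith only [hρ, δ0, δ4] : B + 1 ≤ _))⟩
  have hΛ : ContDiff ℝ ∞ fun q : ℝ × P2 => (q.1, F q) := contDiff_fst.prodMk hF
  let u := e₁ + e ∘ fun q : ℝ × P2 => (q.1, F q)
  have hu : ContDiff ℝ ∞ u := he₁.add (he.comp hΛ)
  have fk : ∀ k ≤ r, (k ! : ℝ) ≤ r ! := fun k hk => Nat.cast_le.2 (Nat.factorial_le hk)
  obtain bu : ∀ k ≤ r, ∀ q ∈ Dm (ρ + 1), ‖iteratedFDeriv ℝ k u q‖ ≤ A * δ := fun k hk q hq => by
    refine (add_le he₁.contDiffAt (he.comp hΛ).contDiffAt k).trans ?_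
    obtain h1 := comp_le (n := k) he hΛ.contDiffAt (fun i hi => (b i (hi.trans hk) _ (mF q hq)).le)
      (D := B + 1) fun i i1 hi => (prod_le contDiffAt_fst hF.contDiffAt
        (((clm_le (ContinuousLinearMap.fst ℝ ℝ P2) i1 q).trans
          (ContinuousLinearMap.norm_fst_le ℝ ℝ P2)).trans (by linarith only [B1, δ0, δ4]))
        (bF i (hi.trans hk) q hq)).trans (le_self_pow₀ (by linarith only [B1, δ0, δ4]) (by omega))
    obtain h2 : (k ! : ℝ) * δ * (B + 1) ^ k ≤ r ! * δ * (B + 1) ^ r := by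
      gcongr
      linarith only [B1, δ0, δ4]
    have := b₁ k hk q (up hq)
    rw [hA]
    linarith only [h1, h2, this]
  obtain bP : ∀ p ∈ Dm ρ, ∀ k, 1 ≤ k → k ≤ r → ‖iteratedFDeriv ℝ k (Ps e) p‖ ≤ 2 ^ k :=
    fun p hp => implicit_le (e := (-vL) ∘ e) ((-vL).contDiff.comp he) ((gd' p hp).smooth he)
      (((gd' p hp).ev he).mono fun q hq => by
        simpa [← sub_eq_add_neg, eq_sub_iff_add_eq] using hq.right he)
      (fun i hi => (left_le _ (by simpa using vL_le) he.contDiffAt i).trans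
        (b i hi _ (up (mP p hp))).le) δ3
  obtain cP : ∀ {g : ℝ × P2 → ℝ} {a : ℝ}, ContDiff ℝ ∞ g → 0 ≤ a →
      (∀ k ≤ r, ∀ q ∈ Dm (ρ + 1), ‖iteratedFDeriv ℝ k g q‖ ≤ a) → ∀ k ≤ r, ∀ p ∈ Dm ρ,
      ‖iteratedFDeriv ℝ k (g ∘ Ps e) p‖ ≤ C * a := fun {g a} hg a0 h k hk p hp => by
    refine (comp_le hg ((gd' p hp).smooth he) (fun i hi => h i (hi.trans hk) _ (mP p hp))
      fun i i1 hi => bP p hp i i1 (hi.trans hk)).trans ?_
    rw [mul_right_comm, hC]
    gcongr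
    exact one_le_two
  have eG (p : ℝ × P2) : (F (p.1, F (Ps e p))).2 = G0 (Ps e p) + u (Ps e p) := by
    simp [u, e₁, e, F0, Ps, vL_apply]
  refine ⟨fun p => (F (p.1, F (Ps e p))).2, fun p hp => ?_, fun k hk p hp => ?_, fun t ht => ?_⟩
  · exact (hF.contDiffAt.comp p
      (contDiffAt_fst.prodMk (hF.contDiffAt.comp p ((gd' p hp).smooth he)))).snd
  · have sm := (gd' p hp).smooth he
    let σ : ℝ × P2 → ℝ := (-ε⁻¹) • e ∘ Ps e
    have sσ : ContDiffAt ℝ ∞ σ p := (he.contDiffAt.comp p sm).const_smul (-ε⁻¹)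
    obtain bσ : ∀ i ≤ r, ‖iteratedFDeriv ℝ i σ p‖ ≤ 1 := fun i hi => by
      rw [iteratedFDeriv_const_smul_apply ((he.contDiffAt.comp p sm).of_le (le_inf i)), norm_smul,
        norm_neg, norm_inv, Real.norm_of_nonneg ε0.le, inv_mul_le_one₀ ε0]
      exact (cP he δ0.le (fun k hk q hq => (b k hk q (up hq)).le) i hi p hp).trans δ1
    obtain hH : ContDiff ℝ ∞ fun z : (ℝ × P2) × ℝ => G0 (z.1 + vL (ε * z.2)) - G0 z.1 :=
      (hG.comp (by fun_prop)).sub (hG.comp (by fun_prop))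
    obtain h1 := comp_le (n := k) hH (contDiffAt_id.prodMk sσ) (D := 1)
      (fun i hi => hε i (hi.trans hk) _ ⟨hp, abs_le.1 (by simpa using bσ 0 r.zero_le)⟩)
      fun i i1 hi => (prod_le contDiffAt_id sσ (id_le i1 p) (bσ i (hi.trans hk))).trans (by simp)
    obtain h2 : ((fun p => (F (p.1, F (Ps e p))).2) - G0) =ᶠ[𝓝 p]
        (fun z : (ℝ × P2) × ℝ => G0 (z.1 + vL (ε * z.2)) - G0 z.1) ∘ (fun x => (id x, σ x)) +
          u ∘ Ps e := ((gd' p hp).ev he).mono fun q hq => by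
      obtain this : ε * σ q = sol e q := by
        have := (hq.spec he).2
        simp only [σ, Pi.smul_apply, Function.comp, smul_eq_mul]
        field_simp
        linarith only [this]
      simp only [Pi.sub_apply, Pi.add_apply, Function.comp, eG, id, this, ← Ps.eq_1]
      ring
    rw [(h2.iteratedFDeriv ℝ k).eq_of_nhds]
    refine (add_le (hH.contDiffAt.comp p (contDiffAt_id.prodMk sσ)) (hu.contDiffAt.comp p sm)
      k).trans ?_
    obtain h3 := cP hu (by positivity) bu k hk p hp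
    obtain h4 : (k ! : ℝ) * (η / 2 / r !) * 1 ^ k ≤ η / 2 := by
      rw [one_pow, mul_one, mul_div_assoc', div_le_iff₀ (by positivity), mul_comm]
      (clear * - hk hη; gcongr)
    linarith only [δ2, h1, h3, h4]
  · have mt : ∀ {a : ℝ} {z : P2}, z ∈ closedBall (0 : P2) a → (t, z) ∈ Dm a := fun hz => ⟨ht, hz⟩
    have e1 (z : P2) : (t, (Ps e (t, z)).2) = Ps e (t, z) := Prod.ext (by simp [Ps, vL_apply]) rfl
    have sm : ∀ z ∈ closedBall (0 : P2) (ρ + 1), ContDiffAt ℝ ∞ (fun z => (Ps e (t, z)).2) z :=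
      fun z hz => (((gd _ (mt hz)).smooth he).comp z (contDiffAt_const.prodMk contDiffAt_id)).snd
    refine ⟨fun z => (Ps e (t, z)).2, fun z hz =>
      ((sm z (ball_subset_closedBall hz)).of_le (by simp)).contDiffWithinAt, fun z hz h => ?_,
      ⟨2, fun z hz w hw => ?_⟩, fun z hz => ?_⟩
    · have h1 := (gd' _ (mt hz)).right he
      have h2 : (t, F (Ps e (t, z))) ∈ Dm (ρ + B + 2) := ⟨ht, (mF _ (mP _ (mt hz))).2⟩
      obtain h3 : (t, F (Ps e (t, z))) + vL (e (t, F (Ps e (t, z)))) =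
          (t, (F (t, F (Ps e (t, z)))).2, z.1) := by
        have := congrArg (fun p => p.2.1) h1
        simp [e, F0, vL_apply] at this
        simp [e, F0, vL_apply, Prod.ext_iff, this]
      obtain h4 := Gd.uniq he (h3 ▸ gd' _ (mt h)) (by linarith only [δ0, δ4, b0 _ h2])
      rw [h3] at h4
      simp only [e1, h4]
    · obtain h1 := Convex.norm_image_sub_le_of_norm_fderiv_le (𝕜 := ℝ)
        (fun x _ => he.differentiable (by simp) x) (fun x hx => ((b1 x hx).le.trans δ4))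
        (Dm_cvx _) (up (mP _ (mt hw))) (up (mP _ (mt hz)))
      obtain h2 : ‖Ps e (t, z) - Ps e (t, w)‖ = dist (Ps e (t, z)).2 (Ps e (t, w)).2 := by
        rw [← e1 z, ← e1 w]
        simp [dist_eq_norm, Prod.norm_def]
      obtain h3 : dist z w = ‖(t, z) - (t, w)‖ := by simp [dist_eq_norm, Prod.norm_def]
      rw [h3, ← (gd' _ (mt hz)).right he, ← (gd' _ (mt hw)).right he, add_sub_add_comm, ← map_sub]
      refine (norm_add_le _ _).trans ?_
      beta_reduce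
      rw [norm_vL, ← Real.norm_eq_abs, ← h2]
      linarith only [h1, norm_nonneg (Ps e (t, z) - Ps e (t, w))]
    · have hΦ : ContDiff ℝ ∞ fun w : P2 => ((t, w) + vL (e (t, w))).2 :=
        ((contDiff_const.prodMk contDiff_id).add (vL.contDiff.comp
          (he.comp (contDiff_const.prodMk contDiff_id)))).snd
      obtain h1 : (fun w : P2 => ((t, w) + vL (e (t, w))).2) ∘ (fun z => (Ps e (t, z)).2) =ᶠ[𝓝 z] id :=
        ((Continuous.prodMk_right t).continuousAt.tendsto.eventually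
          ((gd' _ (mt hz)).ev he)).mono fun w hw => by
            simp only [Function.comp, e1, hw.right he, id]
      have h2 := h1.fderiv_eq (𝕜 := ℝ)
      rw [fderiv_comp _ (hΦ.differentiable (by simp) _) ((sm z (closedBall_subset_closedBall
        (by linarith only [δ0, δ4]) hz)).differentiableAt (by simp)), fderiv_id] at h2
      exact Function.LeftInverse.injective fun v => congrArg (· v) h2

lemma AN.lin (D : ℝ × P2 →L[ℝ] ℝ) (τ u v : ℝ) :
    D (τ, u, v) = D (0, 1, 0) * u + D (0, 0, 1) * v + D (1, 0, 0) * τ := by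
  obtain this : ((τ, u, v) : ℝ × P2) = u • (0, 1, 0) + v • (0, 0, 1) + τ • (1, 0, 0) := by simp
  rw [this, map_add, map_add, map_smul, map_smul, map_smul]
  simp only [smul_eq_mul]
  ring

theorem pert : PERT_s := by
  intro c η E hL hE hb
  have m : ∀ {t x y}, TI t → Box c x → Box c y → (t, x, y) ∈ Dm (2 * c.L) := fun ht hx hy =>
    ⟨ht, mem_BoxS.1 ⟨hx, hy⟩⟩
  obtain d1 : ∀ p ∈ Dm (2 * c.L), DifferentiableAt ℝ E p := fun p hp =>
    (hE p hp).differentiableAt (by simp)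
  obtain d2 : ∀ p ∈ Dm (2 * c.L), DifferentiableAt ℝ (fderiv ℝ E) p := fun p hp =>
    ((hE p hp).fderiv_right (m := 1) (le_inf 2)).differentiableAt (by simp)
  obtain b1 : ∀ p ∈ Dm (2 * c.L), ‖fderiv ℝ E p‖ ≤ η := fun p hp => by simpa using hb 1 one_le_two p hp
  obtain b2 : ∀ p ∈ Dm (2 * c.L), ‖fderiv ℝ (fderiv ℝ E) p‖ ≤ η := fun p hp => by
    rw [← norm_iteratedFDeriv_one, norm_iteratedFDeriv_fderiv]
    exact hb 2 le_rfl p hp
  have lip : ∀ p ∈ Dm (2 * c.L), ∀ q ∈ Dm (2 * c.L), ‖fderiv ℝ E q - fderiv ℝ E p‖ ≤ η * ‖q - p‖ :=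
    fun p hp q hq => (Dm_cvx _).norm_image_sub_le_of_norm_fderiv_le d2 b2 hp hq
  obtain ap : ∀ {D : ℝ × P2 →L[ℝ] ℝ} {a : ℝ} {w : ℝ × P2}, ‖D‖ ≤ a → ‖w‖ = 1 → |D w| ≤ a :=
    fun {D a w} h hw => by simpa [hw] using D.le_of_opNorm_le h w
  obtain ct : ∀ t, TI t → ∀ w, ContinuousOn (fun p : ℝ × ℝ => fderiv ℝ E (t, p.1, p.2) w)
      {p | Box c p.1 ∧ Box c p.2} := fun t ht w p hp =>
    (((d2 _ (m ht hp.1 hp.2)).continuousAt.comp (f := fun p : ℝ × ℝ => (t, p.1, p.2))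
      (by fun_prop)).clm_apply continuousAt_const).continuousWithinAt
  refine ⟨fun t x y ht hx hy => ?_, fun t ht => ct t ht _, fun t ht => ct t ht _,
    fun t x y ht hx hy => ⟨by simpa [mdl] using hb 0 zero_le_two _ (m ht hx hy),
      ap (b1 _ (m ht hx hy)) (by simp [Prod.norm_def]), ap (b1 _ (m ht hx hy)) (by simp [Prod.norm_def]),
      ap (b1 _ (m ht hx hy)) (by simp [Prod.norm_def])⟩,
    fun t t' x y x' y' ht ht' hx hy hx' hy' => ?_⟩
  · refine ((d1 _ (m ht hx hy)).hasFDerivAt.comp (x, y) (hasFDerivAt_prodMk_right t (x, y))).congr_fderiv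
      (ContinuousLinearMap.ext fun w => ?_)
    simpa [mdl] using lin (fderiv ℝ E (t, x, y)) 0 w.1 w.2
  · have hp := m ht hx hy
    have hq := m ht' hx' hy'
    have η0 : 0 ≤ η := (norm_nonneg _).trans (b1 _ hp)
    have e : ((t', x', y') : ℝ × P2) - (t, x, y) = (t' - t, x' - x, y' - y) := rfl
    obtain n1 : ‖((t', x', y') : ℝ × P2) - (t, x, y)‖ ≤ |x' - x| + |y' - y| + |t' - t| := by
      rw [e, norm_prod_le_iff, norm_prod_le_iff]
      simp only [Real.norm_eq_abs]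
      refine ⟨?_, ?_, ?_⟩ <;> linarith only [abs_nonneg (x' - x), abs_nonneg (y' - y), abs_nonneg (t' - t)]
    obtain n2 : ‖((t', x', y') : ℝ × P2) - (t, x, y)‖ ^ 2 ≤
        (x' - x) ^ 2 + (y' - y) ^ 2 + (t' - t) ^ 2 := by
      rw [← Real.le_sqrt (norm_nonneg _) (by (clear * -; positivity)), e, norm_prod_le_iff, norm_prod_le_iff]
      refine ⟨?_, ?_, ?_⟩ <;> exact Real.abs_le_sqrt (by
        linarith only [sq_nonneg (x' - x), sq_nonneg (y' - y), sq_nonneg (t' - t)])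
    have l := (lip _ hp _ hq).trans (mul_le_mul_of_nonneg_left n1 η0)
    refine ⟨?_, ap (D := _ - _) l (by simp [Prod.norm_def]), ap (D := _ - _) l (by simp [Prod.norm_def])⟩
    have sb := (Dm_cvx (2 * c.L)).segment_subset hp hq
    have := (convex_segment _ _).norm_image_sub_le_of_norm_fderiv_le' (fun z hz => d1 z (sb hz))
      (fun z hz => (lip _ hp z (sb hz)).trans (mul_le_mul_of_nonneg_left
        (norm_sub_le_of_mem_segment hz) η0)) (left_mem_segment _ _ _) (right_mem_segment _ _ _)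
    rw [mul_assoc, ← sq] at this
    refine le_trans (le_of_eq ?_) (this.trans (mul_le_mul_of_nonneg_left n2 η0))
    rw [e, lin, Real.norm_eq_abs]
    congr 1
    simp only [mdl]
    ring

end
end Pool.Agent.MP_9cbfe4_an

end

/-! ### Part GFin -/

section

/-! Assembly of part G: from the rows to `Main`. -/

namespace Pool.Agent.MP_9cbfe4_an

open Filter Topology MeasureTheory

/-- everything part G proves for fixed constants -/
def GAll_s (d : ℝ) (c : Cs) : Prop := d < 1 + Real.log 2 / c.chK →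
  ∀ Ex (M : Mdl) t, M.OK c → TI t → HH c Ex M t → ∃ μ, NFRes c M t d μ

theorem gall_of (d : ℝ) (c : Cs) (h0 : G0_s c) (h3 : G3_s c) (h4 : G4_s c) (h5 : G5_s c)
    (hD : DIM_s d c) (h6 : G6_s c) : GAll_s d c := by
  intro hd Ex M t hM ht hH
  have hA := h0 Ex M t hM ht hH
  obtain ⟨μ, hμ⟩ := h3 Ex M t hM ht hA
  have g4 := h4 Ex M t μ hM ht hA hμ
  have g5 := h5 Ex M t μ hM ht hμ
  obtain ⟨x, hx, p, hp, h⟩ := h6 Ex M t hM ht hH
  exact ⟨μ, hμ.prob, hμ.box, hμ.erg, g4.1, g4.2, hD hd M t _ hM ht g5, p, (g5 _ x hx).2 hp, h⟩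

end Pool.Agent.MP_9cbfe4_an

end

/-! ### Part MAIN2 -/

section

/-! THM-2: choice of `K` and of the first constants, the measure count, the final assembly. -/

namespace Pool.Agent.MP_9cbfe4_an

open Finset Filter Topology MeasureTheory

theorem first_exists {K : ℕ} (hK : KBig K) {d : ℝ} (hd : d < 2) :
    ∃ k0 θb κ : ℝ, 1 / 16 ≤ k0 ∧ k0 < 1 / 2 ∧ 0 < θb ∧ θb < 1 ∧ 0 < κ ∧
      ∀ c : Cs, c.k0 = k0 → c.θb = θb → c.κ = κ → d < 1 + Real.log 2 / c.chK ∧ First K c := by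
  obtain ⟨δ, h1, h2, h3⟩ : ∃ δ : ℝ, d - 1 < δ ∧ 1 / 4 ≤ δ ∧ δ < 1 := by
    refine ⟨(max (d - 1) (1 / 4) + 1) / 2, ?_, ?_, ?_⟩
    · linarith only [hd, le_max_left (d - 1) (1 / 4)]
    · linarith only [le_max_right (d - 1) (1 / 4)]
    · linarith only [hd, max_lt (by linarith only [hd] : d - 1 < 1) (by norm_num : (1 / 4 : ℝ) < 1)]
  obtain hδ : 0 < δ := by linarith only [h2, h3]
  obtain hl : 0 < Real.log 2 := Real.log_pos (by norm_num)
  obtain hK' : (10 : ℝ) ≤ K := by exact_mod_cast hK.1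
  obtain hq : 0 < (1 - δ) / (100 * K) := div_pos (by linarith only [h3]) (by linarith only [h3, hδ, hK'])
  obtain hq' : (1 - δ) / (100 * K) < 1 := by
    rw [div_lt_one (by linarith only [h3, hδ, hK'])]
    linarith only [h3, hδ, hK']
  set θ := 1 - (1 - δ) / (100 * K) with hθ
  refine ⟨Real.exp (-(Real.log 2 / δ)), θ, max 10 (θ / (1 - θ) + 1), ?_, ?_, by linarith only [hq'],
    by linarith only [hq], lt_max_of_lt_left (by norm_num), ?_⟩
  · obtain e : (1 / 16 : ℝ) = Real.exp (-(4 * Real.log 2)) := by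
      rw [Real.exp_neg, show (4 : ℝ) * Real.log 2 = Real.log (2 ^ 4) by
        rw [Real.log_pow]; norm_num, Real.exp_log (by norm_num)]
      norm_num
    rw [e, Real.exp_le_exp, neg_le_neg_iff, div_le_iff₀ hδ]
    nlinarith only [h2, hl]
  · obtain e : (1 / 2 : ℝ) = Real.exp (-Real.log 2) := by
      rw [Real.exp_neg, Real.exp_log (by norm_num)]
      norm_num
    rw [e, Real.exp_lt_exp, neg_lt_neg_iff, lt_div_iff₀ hδ]
    nlinarith only [h3, hl]
  · intro c e1 e2 e3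
    obtain e4 : Real.log 2 / c.chK = δ := by
      unfold Cs.chK
      rw [e1, one_div, ← Real.exp_neg, neg_neg, Real.log_exp]
      field_simp
    refine ⟨by linarith only [h1, e4], hK, ?_, ?_, ?_⟩
    · rw [e2, e3]
      exact lt_max_of_lt_right (by linarith only [h3, hδ])
    · rw [e3]
      exact le_max_left _ _
    · unfold Cs.dpl
      rw [e4, e2, hθ]
      apply le_of_eq
      field_simp
      ring

/-- all violations at high level -/
def HIGH_s (K : ℕ) (c : Cs) : Prop := First K c → ∀ M : Mdl, M.OKk c (K + 6) →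
  volume {t | ∃ d : Dat, d.t = t ∧ d.Pre c (Ex2 K c M) M ∧ d.High c M ∧
    (d.BadS c M ∨ d.Bad3 c M ∨ d.Bad5 c M K)} ≤ 1 / 5

theorem e2_of_high {K : ℕ} {c : Cs} (hR : RED_s K c) (hL : LOW_s K c) (hH : HIGH_s K c) :
    E2_s K c := by
  intro hF M hM
  obtain ⟨l1, l2⟩ := hL hF M hM.ok
  have h3 := hH hF M hM
  refine le_trans (measure_mono (t := (Set.Icc (0 : ℝ) (1 / 4) ∪ Set.Icc (3 / 4 : ℝ) 1) ∪
    ({t | ∃ d : Dat, d.t = t ∧ d.Pre c (Ex2 K c M) M ∧ ¬ d.High c M ∧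
      (d.BadS c M ∨ d.Bad3 c M)} ∪
    {t | ∃ d : Dat, d.t = t ∧ d.Pre c (Ex2 K c M) M ∧ d.High c M ∧
      (d.BadS c M ∨ d.Bad3 c M ∨ d.Bad5 c M K)})) ?_) ?_
  · rintro t ⟨⟨t0, t1⟩, ht⟩
    rcases le_total t (1 / 4) with a | a
    · exact .inl (.inl ⟨t0, a⟩)
    rcases le_total (3 / 4) t with b | b
    · exact .inl (.inr ⟨b, t1⟩)
    obtain ⟨d, e, hp, hb⟩ := hR hF M hM.ok t a b ht
    by_cases hh : d.High c M
    · exact .inr (.inr ⟨d, e, hp, hh, hb⟩)
    · refine .inr (.inl ⟨d, e, hp, hh, ?_⟩)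
      rcases hb with h | h | h
      · exact .inl h
      · exact .inr h
      · exact .inr (by_contra fun h' => l1 d hp hh h' h)
  · refine (measure_union_le _ _).trans ?_
    refine (add_le_add (measure_union_le _ _) ((measure_union_le _ _).trans
      (add_le_add l2 h3))).trans ?_
    rw [Real.volume_Icc, Real.volume_Icc]
    obtain e1 : (1 / 20 : ENNReal) = ENNReal.ofReal (1 / 20) := by
      rw [ENNReal.ofReal_div_of_pos (by norm_num)]; simp
    obtain e2 : (1 / 5 : ENNReal) = ENNReal.ofReal (1 / 5) := by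
      rw [ENNReal.ofReal_div_of_pos (by norm_num)]; simp
    obtain e3 : (3 / 4 : ENNReal) = ENNReal.ofReal (3 / 4) := by
      rw [ENNReal.ofReal_div_of_pos (by norm_num)]; simp
    rw [e1, e2, e3, ← ENNReal.ofReal_add (by norm_num) (by norm_num),
      ← ENNReal.ofReal_add (by norm_num) (by norm_num),
      ← ENNReal.ofReal_add (by norm_num) (by norm_num)]
    exact ENNReal.ofReal_le_ofReal (by norm_num)

/-- from a bad set of measure `< 1` to the conclusion of `Main` -/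
theorem good_set2 {c : Cs} {d : ℝ} {F : ℝ × P2 → P2} {M : Mdl} {Ex : ExT} (hL : 0 < c.L)
    (hF : SmoothFamily F) (hN : NormalForm c F M) (hd : d < 1 + Real.log 2 / c.chK)
    (hG : GAll_s d c) (tr : TR_s) (hb : volume {t | TI t ∧ ¬ HH c Ex M t} < 1) :
    ∃ T ⊆ Set.Icc (0 : ℝ) 1, MeasurableSet T ∧ 0 < volume T ∧
      ∀ t ∈ T, HasNUH d fun z => F (t, z) := by
  set B := {t | TI t ∧ ¬ HH c Ex M t} with hB
  refine ⟨Set.Icc 0 1 \ toMeasurable volume B, Set.sdiff_subset,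
    measurableSet_Icc.diff (measurableSet_toMeasurable _ _), ?_, ?_⟩
  · refine lt_of_lt_of_le ?_ le_measure_sdiff
    rw [measure_toMeasurable, Real.volume_Icc, sub_zero, ENNReal.ofReal_one]
    exact tsub_pos_of_lt hb
  · rintro t ⟨ht, ht'⟩
    have hH : HH c Ex M t := by_contra fun h => ht' (subset_toMeasurable _ _ ⟨ht, h⟩)
    obtain ⟨μ, hμ⟩ := hG hd Ex M t hN.ok ht hH
    exact tr c F M t d μ hL hF hN ht hμ

end Pool.Agent.MP_9cbfe4_an

end

/-! ### Part KB2 -/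

section

/-! An explicit `K` for THM-2, and monotonicity of `Main` in the order of the topology. -/

namespace Pool.Agent.MP_9cbfe4_an

open Finset

theorem kb_prod (n : ℕ) : ((2 * ((n + 3 : ℕ) : ℝ) + 1) / 7) ^ 2 ≤
    (∏ k ∈ Icc 4 (n + 3), (2 * (k : ℝ) - 1 / 10) / (2 * (k : ℝ) - 1)) ^ 5 := by
  induction n with
  | zero => norm_num
  | succ n ih =>
    rw [show n + 1 + 3 = n + 3 + 1 by ring, prod_Icc_succ_top (by omega), mul_pow]
    have hn : (0 : ℝ) ≤ n := Nat.cast_nonneg n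
    push_cast at ih ⊢
    obtain ⟨u, hu, e⟩ : ∃ u : ℝ, 0 < u ∧ u * (2 * (n + 3 + 1 : ℝ) - 1) = 1 :=
      ⟨1 / (2 * (n + 3 + 1 : ℝ) - 1), one_div_pos.2 (by linarith only []),
        one_div_mul_cancel (by linarith only [])⟩
    obtain e1 : (2 * (n + 3 + 1 : ℝ) - 1 / 10) / (2 * (n + 3 + 1 : ℝ) - 1) = 1 + 9 / 10 * u := by
      rw [div_eq_iff (by linarith only [])]
      linear_combination (-9 / 10 : ℝ) * e
    obtain e2 : (2 * (n + 3 + 1 : ℝ) + 1) / 7 = (2 * (n + 3 : ℝ) + 1) / 7 * (1 + 2 * u) := by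
      linear_combination (-2 / 7 : ℝ) * e
    rw [e1, e2, mul_pow]
    refine mul_le_mul ih ?_ (sq_nonneg _) ((sq_nonneg _).trans ih)
    have h3 := pow_pos hu 3
    have h4 := pow_pos hu 4
    have h5 := pow_pos hu 5
    linarith only [hu, h3, h4, h5, sq_nonneg u]

theorem kbig_ge {K : ℕ} (h : 99 * 10 ^ 7 ≤ K) : KBig K := by
  obtain ⟨n, rfl⟩ : ∃ n, K = n + 3 := ⟨K - 3, by omega⟩
  refine ⟨by omega, ?_⟩
  obtain h0 : (0 : ℝ) ≤ ∏ k ∈ Icc 4 (n + 3), (2 * (k : ℝ) - 1 / 10) / (2 * (k : ℝ) - 1) :=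
    prod_nonneg fun k hk => by
      obtain this : (4 : ℝ) ≤ k := by exact_mod_cast (mem_Icc.1 hk).1
      exact div_nonneg (by linarith only [this]) (by linarith only [this])
  refine le_of_pow_le_pow_left₀ (n := 5) (by norm_num) h0 (le_trans ?_ (kb_prod n))
  obtain h1 : (99 * 10 ^ 7 : ℝ) ≤ ((n + 3 : ℕ) : ℝ) := by exact_mod_cast h
  obtain h2 : (2822 * 10 ^ 5 : ℝ) ≤ (2 * ((n + 3 : ℕ) : ℝ) + 1) / 7 := by linarith only [h1]
  exact le_trans (by norm_num) (pow_le_pow_left₀ (by norm_num) h2 2)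

end Pool.Agent.MP_9cbfe4_an

end

/-! ### Part YLOC -/

section

/-! Row YLOC: three points of one line. -/

namespace Pool.Agent.MP_9cbfe4_an

open Finset

noncomputable section

namespace YLoc

structure Nm (c : Cs) : Prop where
  k1 : c.k0 < 1 / 2
  cg : 1 ≤ c.CG
  a0 : 0 < c.a
  be : 30 / c.a ≤ c.β
  lam : 100 ≤ c.lam
  ks : 10000 * c.KS ≤ c.lam
  L : 1 ≤ c.L

theorem hier_Nm : Hier Nm := by
  have h1 := Hier.base
  obtain h2 := Hier.a_le (fun _ => 1 / 2) (fun _ _ _ _ _ _ => rfl) (Hier.of_all fun _ => by norm_num)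
  have h3 := Hier.β_ge (fun c => 30 / c.a) fun _ _ _ => rfl
  have h4 := Hier.lam_ge (fun _ => 100) fun _ _ => rfl
  have h5 := Hier.lam_ge (fun c => 10000 * c.KS) fun _ _ => rfl
  have h7 := Hier.L_ge (fun _ => 1) fun _ _ => rfl
  exact (h1.and (h2.and (h3.and (h4.and (h5.and h7))))).mono fun c h =>
    ⟨h.1.2.1, h.1.2.2.2.2.2, h.2.1.1, h.2.2.1, h.2.2.2.1, h.2.2.2.2.1, h.2.2.2.2.2⟩

variable {c : Cs} {M : Mdl} {t ρ : ℝ} {p d : ℝ × ℝ}

theorem X1 (M : Mdl) (t : ℝ) (p d : ℝ × ℝ) (v : ℝ) : (M.lo t p d v).X 1 = p.1 + v * d.1 := by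
  simp [Mdl.lo, Mdl.orb, Mdl.pos]

theorem X0 (M : Mdl) (t : ℝ) (p d : ℝ × ℝ) (v : ℝ) : (M.lo t p d v).X 0 = p.2 + v * d.2 := by
  simp [Mdl.lo, Mdl.orb, Mdl.pos]

theorem ltg0 (S : Sq) (d : ℝ × ℝ) : S.ltg d 0 = d.2 := by simp [Sq.ltg]

theorem ltg1 (S : Sq) (d : ℝ × ℝ) : S.ltg d 1 = d.1 := by
  rw [Sq.ltg, if_neg (by norm_num), S.fr_self, S.fr_lt (by norm_num)]; ring

theorem ltg_sol (S : Sq) (d : ℝ × ℝ) : S.Sol (S.ltg d) 1 := by
  intro j hj
  rcases hj.eq_or_lt with rfl | hj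
  · have h1 := S.fr_one 1
    have h2 := S.fr_self 2
    rw [sub_self, ltg0, ltg1, Sq.ltg, if_neg (by norm_num), h1, show (1 : ℤ) + 1 = 2 by norm_num, h2]
    ring
  · simp only [Sq.ltg]
    rw [if_neg (by omega), if_neg (by omega), if_neg (by omega), S.fr_sol 1 j (by omega),
      S.fr_sol 2 j (by omega)]
    ring

theorem cert_le {S : Sq} {θ : ℝ} {w A : ℤ → ℝ} {s n i : ℤ} (h : S.Cert c θ w A s n) (hi : i ≤ n) :
    S.Cert c θ w A s i :=
  ⟨h.pos, fun j a b => h.pos' j a (by omega), fun j a b => h.backK j a (by omega),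
    fun j a b => h.back j a (by omega), fun j a b => h.fwd j a (by omega),
    fun k j a b e => h.mono k j a b (by omega), h.Apos, fun j a b => h.dd j a (by omega)⟩

theorem tiny (h : Nm c) (hρ : c.bl / 3 ≤ ρ) {x y z : ℝ} (hx : |x| ≤ c.E ρ (-580))
    (hy : |y| ≤ c.E ρ (-580)) (hz : |z| ≤ c.E ρ 1) : |(x - y) * z| ≤ 1 / 1000 := by
  have ha := h.a0
  obtain h1 : 30 ≤ c.a * c.β := by have := h.be; rw [div_le_iff₀ ha] at this; linarith only [this]
  obtain h2 : 30 ≤ c.a * c.bl := by unfold Cs.bl; nlinarith only [h1, h.lam]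
  obtain h3 : 10 ≤ c.a * ρ := by nlinarith only [h2, hρ, ha]
  obtain h4 : |x - y| ≤ 2 * c.E ρ (-580) := (abs_sub _ _).trans (by linarith only [hx, hy])
  obtain h5 : c.E ρ (-580) * c.E ρ 1 ≤ 1 / 2000 := by
    unfold Cs.E
    rw [← Real.exp_add, show -580 * (c.a * ρ) + 1 * (c.a * ρ) = -(579 * (c.a * ρ)) by ring,
      Real.exp_neg, one_div]
    exact inv_anti₀ (by norm_num) (by linarith only [h3, Real.add_one_le_exp (579 * (c.a * ρ))])
  obtain h6 := mul_le_mul h4 hz (abs_nonneg _) (by unfold Cs.E; positivity)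
  rw [abs_mul]; linarith only [h5, h6]

theorem cw_le (h : Nm c) : 16 * c.cw ≤ 1 / c.lam ^ 2 ∧ 6400 * c.KS * c.cw ≤ 1 ∧ 0 ≤ c.KS := by
  have hl := h.lam
  obtain hk : 0 ≤ c.KS := by have := h.cg; unfold Cs.KS; (clear * - this; positivity)
  obtain h4 : c.lam ≤ c.lam ^ 4 := le_self_pow₀ (by linarith only [hl]) (by norm_num)
  unfold Cs.cw
  refine ⟨?_, ?_, hk⟩
  · rw [mul_one_div, div_le_div_iff₀ (by positivity) (by positivity)]
    linarith only [hl, mul_le_mul_of_nonneg_left (show 16 ≤ c.lam ^ 2 by nlinarith only [hl]) (sq_nonneg c.lam)]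
  · rw [mul_one_div, div_le_one (by positivity)]; linarith only [hl, h4, h.ks]

/-- shadowing data for two points of the line -/
theorem mk (h : Nm c) (hM : M.OK c) (ht : TI t) (hρ : c.bl / 3 ≤ ρ) {va vb θ : ℝ} {w A : ℤ → ℝ}
    {i : ℤ} (hi : 1 ≤ i) (θ1 : 12 / 1000 ≤ θ) (θ2 : θ ≤ 2 / 100)
    (ha : |va| ≤ c.E ρ (-580)) (hb : |vb| ≤ c.E ρ (-580)) (hd : |d.1| ≤ c.E ρ 1 ∧ |d.2| ≤ c.E ρ 1)
    (oa : IsOrb c M t (M.lo t p d va) 1) (ob : IsOrb c M t (M.lo t p d vb) 1)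
    (hC : (M.lo t p d va).Cert c θ w A 1 i)
    (hm : ∀ j, 0 ≤ j → j ≤ i → |(M.lo t p d va).ltg d j| ≤ 8 * w j)
    (d1 : |d.1| ≤ 2 * w 1) (d2 : |d.2| ≤ 2 * w 0) (bk : w 0 ≤ 4 * Real.exp (c.bl / 2) * w 1)
    (bK : dP ((M.lo t p d va).X 1) < 11 / 1000 → dP ((M.lo t p d va).X 0) < 11 / 1000 →
      w 0 ≤ 16 * w 1)
    (sm : 4 * |vb - va| * A i ≤ 1 / c.lam ^ 2) :
    ShH c M t t (M.lo t p d va) (M.lo t p d vb) θ w A
      (fun j => (vb - va) * (M.lo t p d va).ltg d j) (4 * |vb - va|) 1 i ∧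
    |(M.lo t p d vb).b 1 * d.2 - (M.lo t p d va).b 1 * d.2| ≤
      200 * c.CG * c.L * 2 * (4 * |vb - va| * w 1 ^ 2) := by
  obtain z1 : (M.lo t p d vb).X 1 - (M.lo t p d va).X 1 = (vb - va) * d.1 := by rw [X1, X1]; ring
  obtain z0 : (M.lo t p d vb).X 0 - (M.lo t p d va).X 0 = (vb - va) * d.2 := by rw [X0, X0]; ring
  have t1 := tiny h hρ hb ha hd.1
  have t0 := tiny h hρ hb ha hd.2
  have w1 := hC.pos' 1 le_rfl hi
  obtain w0 : 0 ≤ w 0 := by simpa using hC.pos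
  have δ0 := abs_nonneg (vb - va)
  obtain hK : 1 ≤ c.CG * c.L := by nlinarith only [h.cg, h.L]
  obtain y1 : |(vb - va) * d.1| ≤ 2 * (|vb - va| * w 1) := by
    rw [abs_mul]; linarith only [mul_le_mul_of_nonneg_left d1 δ0]
  obtain u0 : 0 ≤ |vb - va| * w 1 := by (clear * - w1; positivity)
  obtain key : ∃ m q : ℝ, Pair c ((M.lo t p d va).X 1) ((M.lo t p d va).X 0) ((M.lo t p d vb).X 1)
      ((M.lo t p d vb).X 0) m ∧ 0 ≤ m ∧ 1 ≤ q ∧ w 0 ≤ q * w 1 ∧ m * q ^ 2 ≤ 256 * (c.CG * c.L) ∧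
      m * q ≤ 16 * (c.CG * c.L) := by
    by_cases hc : dP ((M.lo t p d va).X 1) < 11 / 1000 ∧ dP ((M.lo t p d va).X 0) < 11 / 1000
    · have l1 := abs_le.1 (dP_lip ((M.lo t p d vb).X 1) ((M.lo t p d va).X 1))
      have l0 := abs_le.1 (dP_lip ((M.lo t p d vb).X 0) ((M.lo t p d va).X 0))
      rw [z1] at l1; rw [z0] at l0
      obtain c1 := oa.core (by linarith only [hc.1]) (by rw [sub_self]; linarith only [hc.2])
      obtain c2 := ob.core (by linarith only [t1, hc.1, l1.2]) (by rw [sub_self]; linarith only [t0, hc.2, l0.2])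
      rw [sub_self] at c1 c2
      obtain e0 : 0 ≤ c.w0 := by have := h.lam; unfold Cs.w0; (clear * - this; positivity)
      obtain e1 : (1 - c.e0 / 2) * c.w0 ≤ c.w0 := by
        obtain this : 0 ≤ c.e0 := by unfold Cs.e0; linarith only [h.k1]
        nlinarith only [e0, this]
      exact ⟨c.CG * c.L, 16, ⟨by rw [z1]; linarith only [t1], Or.inr ⟨rfl, c1.trans e1, c2.trans e1,
        by rw [z0]; linarith only [t0]⟩⟩, by linarith only [hK], by norm_num, bK hc.1 hc.2, by linarith only [], by linarith only []⟩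
    · obtain hb0 : 0 ≤ c.bl := by
        obtain this : 0 < 30 / c.a := div_pos (by norm_num) h.a0
        unfold Cs.bl; nlinarith only [this, h.be, h.lam]
      obtain E1 : 1 ≤ Real.exp (c.bl / 2) := Real.one_le_exp (by linarith only [hb0])
      obtain E2 : c.dl * Real.exp (c.bl / 2) ^ 2 ≤ 1 := by
        rw [← Real.exp_nat_mul, Cs.dl, ← Real.exp_add]
        exact Real.exp_le_one_iff.2 (by push_cast; linarith only [hb0])
      obtain E3 : c.dl * Real.exp (c.bl / 2) ≤ c.dl * Real.exp (c.bl / 2) ^ 2 :=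
        mul_le_mul_of_nonneg_left (le_self_pow₀ E1 (by norm_num)) (Real.exp_pos _).le
      refine ⟨c.dl, 4 * Real.exp (c.bl / 2), ⟨by rw [z1]; linarith only [t1], Or.inl ⟨rfl, ?_⟩⟩,
        (Real.exp_pos _).le, by linarith only [E1], bk, by linarith only [hK, E2], by linarith only [hK, E2, E3]⟩
      rw [z1, z0]
      rcases not_and_or.1 hc with e | e
      · exact Or.inl (by linarith only [t1, not_lt.1 e])
      · exact Or.inr (by linarith only [t0, not_lt.1 e])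
  obtain ⟨m, q, hp, m0, q1, q2, q3, q4⟩ := key
  obtain y0 : |(vb - va) * d.2| ≤ 2 * q * (|vb - va| * w 1) := by
    rw [abs_mul]
    linarith only [d2, q2, mul_le_mul_of_nonneg_left (show |d.2| ≤ 2 * (q * w 1) by linarith only [d2, q2]) δ0]
  refine ⟨⟨hM, ht, ht, oa, ob, hi, θ1, θ2, hC, by (clear * -; positivity), sm, ⟨fun j a _ => ?_, fun j a b => ?_⟩,
    by rw [ltg1, z1], ?_, ⟨m, by rw [sub_self]; exact hp, ?_, ?_⟩, fun j a b => ?_⟩, ?_⟩
  · show (vb - va) * _ = _ * ((vb - va) * _) + _ * ((vb - va) * _)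
    rw [ltg_sol _ d j a]; ring
  · show |(vb - va) * _| ≤ _
    rw [abs_mul]
    exact (mul_le_mul_of_nonneg_left (hm j (by omega) b) δ0).trans_eq (by ring)
  · show _ * |_ - _ - (vb - va) * _| ≤ _
    rw [sub_self, ltg0, z0, sub_self, abs_zero, mul_zero]
    have := h.cg; have := h.L; (rename_i zq0; clear * - zq0 this; positivity)
  · rw [sub_self, z0]
    have e1 := mul_le_mul_of_nonneg_left y0 m0
    have e2 := mul_le_mul_of_nonneg_right q4 u0
    have e3 := mul_nonneg (zero_le_one.trans hK) u0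
    linarith only [e1, e2, e3]
  · rw [sub_self, z0, ← sq_abs]
    have e1 := mul_le_mul_of_nonneg_left (pow_le_pow_left₀ (abs_nonneg _) y0 2) m0
    have e2 := mul_le_mul_of_nonneg_right q3 (sq_nonneg (|vb - va| * w 1))
    have e3 := mul_nonneg (zero_le_one.trans hK) (sq_nonneg (|vb - va| * w 1))
    linarith only [e1, e2, e3]
  · rw [sub_self, abs_zero, zero_mul]
    have := hC.pos' j a.le b
    (clear * - this; positivity)
  · obtain hT := (hM.tay t t _ _ _ _ m ht ht (oa.box 1 (by norm_num)) (oa.box 0 (by norm_num))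
      (ob.box 1 (by norm_num)) (ob.box 0 (by norm_num)) hp).2.2
    have ea := oa.hb 1 le_rfl
    have eb := ob.hb 1 le_rfl
    rw [sub_self] at ea eb
    rw [← ea, ← eb, sub_self, abs_zero, mul_zero, add_zero, z1, z0] at hT
    rw [← sub_mul, abs_mul]
    obtain e0 : 0 ≤ |vb - va| * w 1 ^ 2 := by (clear * - w1; positivity)
    obtain e1 := mul_le_mul (hT.trans (mul_le_mul_of_nonneg_left (add_le_add y1 y0) m0))
      (show |d.2| ≤ 2 * (q * w 1) by linarith only [d2, q2]) (abs_nonneg _) (by (clear * - m0 w1 q1; positivity))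
    have e2 := mul_le_mul_of_nonneg_right q3 e0
    have e3 := mul_le_mul_of_nonneg_right q4 e0
    have e4 := mul_nonneg (zero_le_one.trans hK) e0
    linarith only [e1, e2, e3, e4]

theorem main (h : Nm c) (hs : SH_s c) : YLOC_s c := by
  intro M hM ρ t p d v0 w A Rg N v1 v2 i hρ H h1 h2 o1 o2 i1 iN s1 s2
  obtain ⟨k1, k2, k0⟩ := cw_le h
  obtain cw0 : 0 ≤ c.cw := by have := h.lam; unfold Cs.cw; (clear * - this; positivity)
  have hC := cert_le H.cert iN
  obtain w0 : 0 ≤ w 0 := by simpa using hC.pos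
  obtain wj : ∀ j, 0 ≤ j → j ≤ i → 0 ≤ w j := fun j a b => by
    rcases a.eq_or_lt with rfl | a
    · exact w0
    · exact (hC.pos' j a b).le
  obtain m0 : ∀ j, 0 ≤ j → j ≤ i → |(M.lo t p d v0).ltg d j| ≤ 2 * w j :=
    fun j a b => H.maj.2 j (by omega) (by omega)
  obtain d1 : |d.1| ≤ 2 * w 1 := by have := m0 1 (by norm_num) i1; rwa [ltg1] at this
  obtain d2 : |d.2| ≤ 2 * w 0 := by have := m0 0 le_rfl (by omega); rwa [ltg0] at this
  obtain ⟨A1, B1⟩ := mk h hM H.ht hρ i1 (by norm_num) (by norm_num) H.hv h1 H.hd H.orb o1 hC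
    (fun j a b => by linarith only [m0 j a b, wj j a b]) d1 d2 H.back1
    (fun a b => H.backK1 (by linarith only [a]) (by linarith only [b])) (by linarith only [s1, k1, cw0])
  obtain ⟨-, -, -, r4, -, r6, -⟩ := hs _ _ _ _ _ _ _ _ _ _ _ _ A1
  obtain c1 : ∀ j, 0 ≤ j → j ≤ i →
      |(M.lo t p d v1).ltg d j - (M.lo t p d v0).ltg d j| ≤ w j / 100 := by
    intro j a b
    rcases a.eq_or_lt with rfl | a
    · rw [ltg0, ltg0, sub_self, abs_zero]; linarith only [w0]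
    · obtain e1 := r4 ((M.lo t p d v0).ltg d) ((M.lo t p d v1).ltg d) 2 (by norm_num)
        ⟨fun l a _ => ltg_sol _ d l a, fun l a b => m0 l (by omega) b⟩
        (fun l a _ => ltg_sol _ d l a) (by rw [ltg1, ltg1])
        (by rw [sub_self, ltg0, ltg0]; exact B1) j a b
      have e2 := mul_le_mul_of_nonneg_left (hC.mono j i a b le_rfl) (abs_nonneg (v1 - v0))
      have e3 := mul_le_mul_of_nonneg_left (e2.trans s1) k0
      obtain e4 : c.KS * (4 * |v1 - v0| * A j) * 2 ≤ 1 / 100 := by linarith only [k2, e3]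
      have e5 := mul_le_mul_of_nonneg_right e4 (wj j a.le b)
      linarith only [e1, e5]
  have l1 := abs_le.1 (dP_lip ((M.lo t p d v0).X 1) ((M.lo t p d v1).X 1))
  have l0 := abs_le.1 (dP_lip ((M.lo t p d v0).X 0) ((M.lo t p d v1).X 0))
  have t1 := tiny h hρ H.hv h1 H.hd.1
  have t0 := tiny h hρ H.hv h1 H.hd.2
  rw [X1 M t p d v0, X1 M t p d v1, show p.1 + v0 * d.1 - (p.1 + v1 * d.1) = (v0 - v1) * d.1 by ring,
    ← X1 M t p d v0, ← X1 M t p d v1] at l1
  rw [X0 M t p d v0, X0 M t p d v1, show p.2 + v0 * d.2 - (p.2 + v1 * d.2) = (v0 - v1) * d.2 by ring,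
    ← X0 M t p d v0, ← X0 M t p d v1] at l0
  obtain s3 : |v2 - v1| * A i ≤ 2 * c.cw := by
    obtain e1 : |v2 - v1| ≤ |v2 - v0| + |v1 - v0| := by
      have := abs_sub (v2 - v0) (v1 - v0)
      rwa [sub_sub_sub_cancel_right] at this
    have e2 := mul_le_mul_of_nonneg_right e1
      (hC.Apos.le.trans (hC.mono 1 i le_rfl i1 le_rfl))
    linarith only [s1, s2, e2]
  obtain ⟨A2, -⟩ := mk h hM H.ht hρ i1 (by norm_num) (by norm_num) h1 h2 H.hd o1 o2 r6
    (fun j a b => by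
      have := abs_sub_abs_le_abs_sub ((M.lo t p d v1).ltg d j) ((M.lo t p d v0).ltg d j)
      linarith only [this, m0 j a b, wj j a b, c1 j a b]) d1 d2 H.back1
    (fun a b => H.backK1 (by linarith only [t1, a, l1.2]) (by linarith only [t0, b, l0.2])) (by linarith only [k1, s3])
  intro j a b
  refine ⟨c1 j a b, ?_⟩
  rcases a.eq_or_lt with rfl | a
  · rw [X0, X0, ltg0, show p.2 + v2 * d.2 - (p.2 + v1 * d.2) - (v2 - v1) * d.2 = 0 by ring, abs_zero]
    (clear * - w0; positivity)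
  · have e1 := ((hs _ _ _ _ _ _ _ _ _ _ _ _ A2).1 j a b).2
    rw [sub_self, zero_mul, sub_zero] at e1
    have e2 := mul_le_mul_of_nonneg_left (hC.mono j i a b le_rfl) (abs_nonneg (v2 - v1))
    have e3 := mul_le_mul_of_nonneg_left (e2.trans s3) k0
    obtain e4 : c.KS * (4 * |v2 - v1| * (2 * A j)) ≤ 1 / 400 := by linarith only [k2, e3]
    have u0 := mul_nonneg (abs_nonneg (v2 - v1)) (wj j a.le b)
    obtain e5 := mul_le_mul_of_nonneg_right e4 (show 0 ≤ 4 * |v2 - v1| * w j by linarith only [u0])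
    have e6 := mul_le_mul_of_nonneg_left (c1 j a.le b) (abs_nonneg (v2 - v1))
    rw [← abs_mul] at e6
    have e7 := abs_add_le ((M.lo t p d v2).X j - (M.lo t p d v1).X j -
      (v2 - v1) * (M.lo t p d v1).ltg d j)
      ((v2 - v1) * ((M.lo t p d v1).ltg d j - (M.lo t p d v0).ltg d j))
    rw [show (M.lo t p d v2).X j - (M.lo t p d v1).X j - (v2 - v1) * (M.lo t p d v1).ltg d j +
      (v2 - v1) * ((M.lo t p d v1).ltg d j - (M.lo t p d v0).ltg d j) =
      (M.lo t p d v2).X j - (M.lo t p d v1).X j - (v2 - v1) * (M.lo t p d v0).ltg d j by ring] at e7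
    linarith only [e1, e5, e6, e7]

end YLoc

theorem yloc : Hier fun c => SOK_s c → SH_s c → YLOC_s c :=
  YLoc.hier_Nm.mono fun _ h _ hs => YLoc.main h hs

end
end Pool.Agent.MP_9cbfe4_an

end

/-! ### Part YCOV -/

section

/-! Row YCOV: covering of one line by points with the same code. -/

namespace Pool.Agent.MP_9cbfe4_an

open Finset

namespace YCOV

structure K (c : Cs) : Prop where
  lam : 11 ≤ c.lam
  L : 1 ≤ c.L
  a : 0 < c.a
  β : 14 / c.a ≤ c.β
  e1 : 7000 * c.lam ^ 1 ≤ Real.exp (1 * c.lam)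
  e4 : 2 * c.lam ^ 4 ≤ Real.exp (1 * c.lam)

theorem hK : Hier K := by
  have h1 := Hier.lam_ge (fun _ => 11) fun _ _ => rfl
  have h2 := Hier.L_ge (fun _ => 1) fun _ _ => rfl
  have h3 := Hier.a_le (fun _ => 1) (fun _ _ _ _ _ _ => rfl) (Hier.of_all fun _ => one_pos)
  have h4 := Hier.β_ge (fun c => 14 / c.a) fun _ _ _ => rfl
  have h5 := Hier.pow_le_exp (fun _ => 7000) (fun _ => 1) 1 (fun _ _ => rfl) (fun _ _ => rfl)
    (Hier.of_all fun _ => one_pos)
  have h6 := Hier.pow_le_exp (fun _ => 2) (fun _ => 1) 4 (fun _ _ => rfl) (fun _ _ => rfl)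
    (Hier.of_all fun _ => one_pos)
  refine (h1.and (h2.and (h3.and (h4.and (h5.and h6))))).mono ?_
  rintro c ⟨a1, a2, a3, a4, a5, a6⟩
  exact ⟨a1, a2, a3.1, a4, a5, a6⟩

/-- a net of a bounded set of reals, with centres in the set -/
theorem net {Z : Type} (v : Z → ℝ) (P : Z → Prop) {x r l : ℝ} (hl : 0 < l) (hr : 0 ≤ r)
    (h : ∀ z, P z → |v z - x| ≤ r) :
    ∃ T : Finset Z, (T.card : ℝ) ≤ 2 * r / l + 1 ∧ (∀ z ∈ T, P z) ∧
      ∀ z, P z → ∃ z1 ∈ T, |v z - v z1| ≤ l := by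
  classical
  by_cases hne : ∃ z, P z
  swap
  · exact ⟨∅, by simp; positivity, by simp, fun z hz => absurd ⟨z, hz⟩ hne⟩
  obtain ⟨z0, -⟩ := hne
  let f : Z → ℕ := fun z => ⌊(v z - x + r) / l⌋₊
  obtain hg : ∀ k : ℕ, ∃ z1 : Z, (∃ z, P z ∧ f z = k) → P z1 ∧ f z1 = k := fun k => by
    by_cases e : ∃ z, P z ∧ f z = k
    · obtain ⟨z, hz⟩ := e
      exact ⟨z, fun _ => hz⟩
    · exact ⟨z0, fun x => absurd x e⟩
  choose g hg using hg
  refine ⟨((range (⌊2 * r / l⌋₊ + 1)).filter fun k => ∃ z, P z ∧ f z = k).image g, ?_, ?_, ?_⟩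
  · have h1 := (card_image_le (f := g)
      (s := (range (⌊2 * r / l⌋₊ + 1)).filter fun k => ∃ z, P z ∧ f z = k)).trans
      (card_filter_le _ _)
    rw [card_range] at h1
    obtain h2 : (⌊2 * r / l⌋₊ : ℝ) ≤ 2 * r / l := Nat.floor_le (by positivity)
    obtain h3 : ((⌊2 * r / l⌋₊ + 1 : ℕ) : ℝ) ≤ 2 * r / l + 1 := by push_cast; linarith only [h2]
    exact le_trans (by exact_mod_cast h1) h3
  · intro z hz
    obtain ⟨k, hk, rfl⟩ := mem_image.1 hz
    exact (hg k (mem_filter.1 hk).2).1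
  · intro z hz
    obtain ⟨p1, p2⟩ := hg (f z) ⟨z, hz, rfl⟩
    have a1 := abs_le.1 (h z hz)
    have a2 := abs_le.1 (h _ p1)
    refine ⟨g (f z), mem_image_of_mem _ (mem_filter.2 ⟨mem_range.2 (Nat.lt_succ_of_le
      (Nat.floor_le_floor (div_le_div_of_nonneg_right (by linarith only [a1]) hl.le))), z, hz, rfl⟩), ?_⟩
    obtain b1 : ((f z : ℕ) : ℝ) ≤ (v z - x + r) / l := Nat.floor_le (div_nonneg (by linarith only [a1]) hl.le)
    have b2 : (v z - x + r) / l < (f z : ℕ) + 1 := Nat.lt_floor_add_one _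
    obtain b3 : ((f (g (f z)) : ℕ) : ℝ) ≤ (v (g (f z)) - x + r) / l :=
      Nat.floor_le (div_nonneg (by linarith only [a2]) hl.le)
    have b4 : (v (g (f z)) - x + r) / l < (f (g (f z)) : ℕ) + 1 := Nat.lt_floor_add_one _
    rw [p2] at b3 b4
    rw [le_div_iff₀ hl] at b1 b3
    rw [div_lt_iff₀ hl] at b2 b4
    rw [abs_le]
    constructor <;> linarith only [b1, b4, b2, b3]

theorem near {x y r : ℝ} (hr : r ≤ 1) (hx : dP x ≤ r) (hy : dP y ≤ r) (h : 0 < x ↔ 0 < y) :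
    |x - y| ≤ 2 * r := by
  have hp := Real.pi_gt_three
  unfold dP at hx hy
  rw [min_le_iff, abs_le, abs_le] at hx hy
  rw [abs_le]
  by_cases e : 0 < x
  · have e' := h.1 e
    rcases hx with hx | hx <;> rcases hy with hy | hy <;> constructor <;> linarith only [hr, hp, e', e, hx.1, hx.2, hy.1, hy.2]
  · have e' : ¬ 0 < y := fun z => e (h.2 z)
    push Not at e e'
    rcases hx with hx | hx <;> rcases hy with hy | hy <;> constructor <;> linarith only [hr, hp, e, e', hx.1, hx.2, hy.1, hy.2]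

theorem tele (f : ℤ → ℝ) {s : ℤ} : ∀ j, s ≤ j → (∀ i, s ≤ i → i ≤ j → 0 < f i) →
    Real.log (f j) = Real.log (f s) + ∑ i ∈ Ico s j, Real.log (f (i + 1) / f i) := by
  intro j hj
  induction j, hj using Int.leInduction with
  | base => simp
  | succ j hj ih =>
    intro h
    rw [sum_Ico_succ _ hj, ← add_assoc, ← ih fun i h1 h2 => h i h1 (by omega),
      Real.log_div (h _ (by omega) le_rfl).ne' (h _ hj (by omega)).ne']
    ring

section
variable {c : Cs} {M : Mdl} {ρ t : ℝ} {p d : ℝ × ℝ} {Rg : Finset ℤ} {N : ℤ}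

theorem Apos {v : ℝ} {w A : ℤ → ℝ} (h : SW c M ρ t p d v w A Rg N) {i : ℤ} (h1 : 1 ≤ i)
    (h2 : i ≤ N) : 1 ≤ A i := h.lo.trans (h.cert.mono 1 i le_rfl h1 h2)

theorem wA (hL : 1 ≤ c.L) {v : ℝ} {w A : ℤ → ℝ} (h : SW c M ρ t p d v w A Rg N) {i : ℤ}
    (h1 : 1 ≤ i) (h2 : i < N) : w i ≤ 100 * A (i + 1) := by
  have hw := h.cert.pos' i h1 h2.le
  obtain a1 : |(M.lo t p d v).fr (i + 1) (i + 1)| * c.L * w i ^ 2 ≤
      (M.lo t p d v).DD c w 1 (i + 1) :=
    single_le_sum (f := fun l => |(M.lo t p d v).fr (l + 1) (i + 1)| * c.L * w l ^ 2)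
      (fun _ _ => by (clear * - hL; positivity)) (mem_Ico.2 ⟨h1, by omega⟩)
  rw [Sq.fr_self, abs_one, one_mul] at a1
  obtain a2 := h.cert.dd (i + 1) (by omega) (by omega)
  have a3 := h.cert.fwd i h1 h2
  obtain a4 := Apos h (show 1 ≤ i + 1 by omega) (by omega)
  obtain a5 := mul_le_mul_of_nonneg_left a3 (show 0 ≤ A (i + 1) by linarith only [a4])
  obtain a6 : c.L * w i * w i ≤ c.L * w i * (100 * A (i + 1)) := by linarith only [a1, a2, a5]
  exact le_of_mul_le_mul_left a6 (by positivity)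

/-- `Z` is covered by at most `B` windows at time `i` -/
def Cov (c : Cs) {Z : Type} (v : Z → ℝ) (A : Z → ℤ → ℝ) (i : ℤ) (B : ℝ) : Prop :=
  ∃ T : Finset Z, (T.card : ℝ) ≤ B ∧ ∀ z, ∃ z0 ∈ T, |v z - v z0| * A z0 i ≤ c.cw

variable {Z : Type} {v : Z → ℝ} {w A : Z → ℤ → ℝ}

theorem Cov.mono {i : ℤ} {B B' : ℝ} (h : Cov c v A i B) (hB : B ≤ B') : Cov c v A i B' :=
  let ⟨T, h1, h2⟩ := h; ⟨T, h1.trans hB, h2⟩

theorem K.u (h : K c) (hρ : c.bl / 3 ≤ ρ) : c.lam ≤ c.a * ρ := by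
  have h1 : 14 ≤ c.β * c.a := (div_le_iff₀ h.a).1 h.β
  have h2 := mul_le_mul_of_nonneg_left hρ h.a.le
  have h3 : c.bl = c.β * c.lam := rfl
  obtain h4 := mul_le_mul_of_nonneg_right h1 (show 0 ≤ c.lam by linarith only [h.lam])
  rw [h3] at h2
  linarith only [h2, h4, h.lam]

theorem start (h : K c) (hρ : c.bl / 3 ≤ ρ) (hS : ∀ z, SW c M ρ t p d (v z) (w z) (A z) Rg N)
    (z0 : Z) {e : ℤ} (h1 : 1 ≤ e) (h2 : e ≤ N) (h3 : ∀ l, 1 ≤ l → l < e → l ∉ Rg) :
    Cov c v A e 1 := by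
  classical
  refine ⟨{z0}, by simp, fun z => ⟨z0, mem_singleton_self _, ?_⟩⟩
  have S := hS z0
  obtain hp : ∀ i, 1 ≤ i → i ≤ N → 0 < A z0 i := fun i a b => by linarith only [Apos S a b]
  obtain a1 := tele (A z0) e h1 fun i a b => hp i a (by omega)
  obtain a2 : ∑ i ∈ Ico 1 e, Real.log (A z0 (i + 1) / A z0 i) ≤
      ∑ i ∈ Ico 1 N \ Rg, Real.log (A z0 (i + 1) / A z0 i) := by
    refine sum_le_sum_of_subset_of_nonneg (fun i hi => ?_) fun i hi _ => ?_
    · obtain ⟨b1, b2⟩ := mem_Ico.1 hi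
      exact mem_sdiff.2 ⟨mem_Ico.2 ⟨b1, by omega⟩, h3 i b1 b2⟩
    · obtain ⟨b1, b2⟩ := mem_Ico.1 (mem_sdiff.1 hi).1
      refine Real.log_nonneg ?_
      rw [le_div_iff₀ (hp i b1 b2.le), one_mul]
      exact S.cert.mono i (i + 1) b1 (by omega) (by omega)
  obtain a3 : A z0 e ≤ c.E ρ 144 := by
    rw [Cs.E, ← Real.log_le_iff_le_exp (hp e h1 h2)]
    have := S.cost
    convert le_trans (a1.le.trans (add_le_add_right a2 _)) this using 1
  obtain a4 : |v z - v z0| ≤ 2 * c.E ρ (-580) := by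
    have := abs_sub (v z) (v z0)
    linarith only [this, (hS z).hv, S.hv]
  have a5 : |v z - v z0| * A z0 e ≤ 2 * c.E ρ (-580) * c.E ρ 144 :=
    mul_le_mul a4 a3 (hp e h1 h2).le ((abs_nonneg _).trans a4)
  refine a5.trans ?_
  have hu := h.u hρ
  have hl := h.lam
  obtain a6 : c.E ρ (-580) * c.E ρ 144 * Real.exp (1 * c.lam) ≤ 1 := by
    rw [Cs.E, Cs.E, ← Real.exp_add, ← Real.exp_add]
    exact Real.exp_le_one_iff.2 (by linarith only [hu, hl])
  have a7 : 0 ≤ c.E ρ (-580) * c.E ρ 144 := mul_nonneg (Real.exp_pos _).le (Real.exp_pos _).le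
  have a8 := mul_le_mul_of_nonneg_left h.e4 a7
  rw [Cs.cw, le_div_iff₀ (by positivity)]
  linarith only [a6, a8]

theorem regular (h : K c) (hY : YLOC_s c) (hM : M.OK c) (hρ : c.bl / 3 ≤ ρ)
    (hS : ∀ z, SW c M ρ t p d (v z) (w z) (A z) Rg N)
    (hσ : ∀ z z', ∀ i ∈ Rg, 0 < (M.lo t p d (v z)).X i ↔ 0 < (M.lo t p d (v z')).X i)
    {i : ℤ} (hi : i ∈ Rg) {B : ℝ} (H : Cov c v A i B) : Cov c v A (i + 1) B := by
  obtain ⟨T, h1, h2⟩ := H
  refine ⟨T, h1, fun z => ?_⟩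
  obtain ⟨z0, m0, b⟩ := h2 z
  refine ⟨z0, m0, ?_⟩
  have S := hS z0
  have hl := h.lam
  obtain ⟨i1, i2⟩ := mem_Ico.1 (S.sub hi)
  obtain hcw : 0 ≤ c.cw := by unfold Cs.cw; positivity
  obtain a1 := (hY M hM ρ t p d (v z0) (w z0) (A z0) Rg N (v z0) (v z) i hρ S S.hv (hS z).hv S.orb
    (hS z).orb i1 i2.le (by simpa using hcw) b i (by omega) le_rfl).2
  obtain ⟨r1, r2, r3⟩ := S.reg i hi
  have hw0 : c.w0 = 1 / c.lam ^ 7 := rfl
  obtain hw1 : 120 * c.lam * c.w0 ≤ c.cw ∧ 3 * c.w0 ≤ 1 := by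
    obtain e : c.lam ^ 7 = c.lam ^ 4 * c.lam ^ 2 * c.lam := by ring
    obtain p2 : 120 ≤ c.lam ^ 2 := by nlinarith only [hl]
    obtain p4 : 1 ≤ c.lam ^ 4 := one_le_pow₀ (by linarith only [hl])
    constructor
    · rw [hw0, Cs.cw, mul_one_div, div_le_div_iff₀ (by positivity) (by positivity), e]
      obtain this : 0 ≤ c.lam ^ 4 * c.lam := by (clear * - hl; positivity)
      nlinarith only [p2, this]
    · rw [hw0, mul_one_div, div_le_one (by positivity), e]
      obtain this : 120 ≤ c.lam ^ 4 * c.lam ^ 2 := by nlinarith only [p2, p4]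
      nlinarith only [hl, p4, this]
  have a2 := near hw1.2 ((hS z).reg i hi).1 r1 (hσ z z0 i hi)
  obtain a3 : |v z - v z0| * |(M.lo t p d (v z0)).ltg d i| ≤ 2 * (3 * c.w0) + |v z - v z0| * w z0 i / 50 := by
    rw [← abs_mul]
    have := abs_sub ((M.lo t p d (v z)).X i - (M.lo t p d (v z0)).X i)
      ((M.lo t p d (v z)).X i - (M.lo t p d (v z0)).X i - (v z - v z0) * (M.lo t p d (v z0)).ltg d i)
    rw [sub_sub_cancel] at this
    linarith only [a1, a2, this]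
  have a4 := mul_le_mul_of_nonneg_left r2 (abs_nonneg (v z - v z0))
  obtain a5 : |v z - v z0| * w z0 i ≤ 60 * c.w0 := by
    obtain this : 0 ≤ c.w0 := by rw [hw0]; positivity
    linarith only [a3, a4, this]
  have a6 := mul_le_mul_of_nonneg_left r3 (abs_nonneg (v z - v z0))
  obtain a7 := mul_le_mul_of_nonneg_left a5 (show 0 ≤ 2 * c.lam by linarith only [hl])
  linarith only [a6, a7, hw1.1]

theorem run (h : K c) (hY : YLOC_s c) (hM : M.OK c) (hρ : c.bl / 3 ≤ ρ)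
    (hS : ∀ z, SW c M ρ t p d (v z) (w z) (A z) Rg N) {i j : ℤ} (hi : i - 1 ∈ Rg) (hij : i ≤ j)
    (hj : j ≤ N) {x : ℝ} (hx : 0 ≤ x) (hD : ∀ z, Real.log (A z j / A z i) ≤ x) {B : ℝ}
    (H : Cov c v A i B) : Cov c v A j (B * Real.exp (c.lam + x)) := by
  classical
  obtain ⟨T, h1, h2⟩ := H
  have hl := h.lam
  obtain hcw : 0 < c.cw := by unfold Cs.cw; positivity
  obtain hF : 0 < 3300 * c.lam * Real.exp x := by positivity
  obtain key : ∀ z0, ∃ T' : Finset Z, (T'.card : ℝ) ≤ Real.exp (c.lam + x) ∧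
      ∀ z, |v z - v z0| * A z0 i ≤ c.cw → ∃ z1 ∈ T', |v z - v z1| * A z1 j ≤ c.cw := by
    intro z0
    have S := hS z0
    obtain ⟨i1, i2⟩ := mem_Ico.1 (S.sub hi)
    obtain hA : 0 < A z0 i := by linarith only [i1, i2, Apos S (show 1 ≤ i by omega) (by omega)]
    obtain ⟨T', t1, t2, t3⟩ := net v (fun z => |v z - v z0| * A z0 i ≤ c.cw) (x := v z0)
      (r := c.cw / A z0 i) (l := c.cw / A z0 i / (3300 * c.lam * Real.exp x)) (by positivity)
      (by positivity) fun z hz => (le_div_iff₀ hA).2 hz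
    refine ⟨T', t1.trans ?_, fun z hz => ?_⟩
    · obtain e : 2 * (c.cw / A z0 i) / (c.cw / A z0 i / (3300 * c.lam * Real.exp x)) =
          6600 * c.lam * Real.exp x := by field_simp; norm_num
      rw [e, Real.exp_add]
      have a1 := h.e1
      rw [pow_one, one_mul] at a1
      have a2 := Real.one_le_exp hx
      have a3 := mul_le_mul_of_nonneg_right a1 (Real.exp_pos x).le
      nlinarith only [hl, hF, a2, a3]
    · obtain ⟨z1, m1, b1⟩ := t3 z hz
      refine ⟨z1, m1, ?_⟩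
      have S1 := hS z1
      have b2 := t2 z1 m1
      obtain a1 := (hY M hM ρ t p d (v z0) (w z0) (A z0) Rg N (v z1) (v z1) i hρ S S1.hv S1.hv S1.orb
        S1.orb (by omega) (by omega) b2 b2 (i - 1) (by omega) (by omega)).1
      obtain a2 := S.maj.2 (i - 1) (by omega) (by omega)
      obtain ⟨-, r2, r3⟩ := S1.reg (i - 1) hi
      have a3 := wA h.L S i1 i2
      rw [sub_add_cancel] at r3 a3
      have a4 := abs_sub_abs_le_abs_sub ((M.lo t p d (v z1)).ltg d (i - 1))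
        ((M.lo t p d (v z0)).ltg d (i - 1))
      obtain a5 : w z1 (i - 1) ≤ 1650 * A z0 i := by linarith only [hA, a1, a2, r2, a3, a4]
      obtain a6 : A z1 i ≤ 3300 * c.lam * A z0 i := by
        obtain this := mul_le_mul_of_nonneg_left a5 (show 0 ≤ 2 * c.lam by linarith only [hl])
        linarith only [r3, this]
      obtain hA1 : 0 < A z1 i := by linarith only [i1, i2, Apos S1 (show 1 ≤ i by omega) (by omega)]
      obtain hA2 : 0 < A z1 j := by linarith only [hij, i1, Apos S1 (show 1 ≤ j by omega) hj]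
      obtain a7 : A z1 j ≤ Real.exp x * A z1 i := by
        rw [← div_le_iff₀ hA1, ← Real.log_le_iff_le_exp (by (clear * - hA2 hA1; positivity))]
        exact hD z1
      obtain a8 : A z1 j ≤ 3300 * c.lam * Real.exp x * A z0 i := by
        have := mul_le_mul_of_nonneg_left a6 (Real.exp_pos x).le
        linarith only [a7, this]
      refine (mul_le_mul b1 a8 hA2.le (by (clear * - hcw hA hl; positivity))).trans_eq ?_
      field_simp
  choose T' t1 t2 using key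
  refine ⟨T.biUnion T', ?_, fun z => ?_⟩
  · obtain a1 : ((T.biUnion T').card : ℝ) ≤ ∑ z ∈ T, ((T' z).card : ℝ) := by
      exact_mod_cast card_biUnion_le
    obtain a2 : ∑ z ∈ T, ((T' z).card : ℝ) ≤ T.card * Real.exp (c.lam + x) := by
      rw [← nsmul_eq_mul]
      exact sum_le_card_nsmul _ _ _ fun z _ => t1 z
    exact a1.trans (a2.trans (mul_le_mul_of_nonneg_right h1 (Real.exp_pos _).le))
  · obtain ⟨z0, m0, b⟩ := h2 z
    obtain ⟨z1, m1, b1⟩ := t2 z0 z b
    exact ⟨z1, mem_biUnion.2 ⟨z0, m0, m1⟩, b1⟩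

theorem final (h : K c) (hY : YLOC_s c) (hM : M.OK c) (hρ : c.bl / 3 ≤ ρ)
    (hS : ∀ z, SW c M ρ t p d (v z) (w z) (A z) Rg N) {B : ℝ} (H : Cov c v A N B) :
    ∃ (K : ℕ) (cl : Z → Fin K), (K : ℝ) ≤ B * c.E ρ 600 ∧ ∀ z z', cl z = cl z' → ∀ j, 0 ≤ j → j ≤ N →
      |(M.lo t p d (v z')).X j - (M.lo t p d (v z)).X j| ≤ c.E ρ (-590) := by
  classical
  obtain ⟨T, h1, h2⟩ := H
  have hl := h.lam
  have hu := h.u hρ
  obtain hcw : 0 < c.cw := by unfold Cs.cw; positivity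
  obtain hcw1 : c.cw ≤ 1 / 4 := by
    obtain this : 2 ^ 4 ≤ c.lam ^ 4 := pow_le_pow_left₀ (by norm_num) (by linarith only [hl]) 4
    exact one_div_le_one_div_of_le (by norm_num) (by linarith only [this])
  have hE : 0 < c.E ρ 600 := Real.exp_pos _
  obtain hA : ∀ z, 0 < A z N := fun z => by linarith only [hcw, hcw1, Apos (hS z) (hS z).N1 le_rfl]
  obtain key : ∀ z0, ∃ T' : Finset Z, (T'.card : ℝ) ≤ c.E ρ 600 ∧
      ∀ z, |v z - v z0| * A z0 N ≤ c.cw → ∃ z1 ∈ T', |v z - v z1| ≤ 1 / (c.E ρ 600 * A z0 N) := by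
    intro z0
    have := hA z0
    obtain ⟨T', t1, -, t3⟩ := net v (fun z => |v z - v z0| * A z0 N ≤ c.cw) (x := v z0)
      (r := c.cw / A z0 N) (l := 1 / (c.E ρ 600 * A z0 N)) (by positivity)
      (by positivity) fun z hz => (le_div_iff₀ (hA z0)).2 hz
    refine ⟨T', t1.trans ?_, t3⟩
    obtain e : 2 * (c.cw / A z0 N) / (1 / (c.E ρ 600 * A z0 N)) = 2 * c.cw * c.E ρ 600 := by
      field_simp
    have a1 : 600 * (c.a * ρ) + 1 ≤ c.E ρ 600 := Real.add_one_le_exp _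
    rw [e]
    nlinarith only [hl, hu, hcw1, a1, hcw, hE]
  choose T' t1 t2 using key
  choose g0 g1 g2 using h2
  choose f0 f1 f2 using fun z => t2 (g0 z) z (g2 z)
  let U : Finset (Z × Z) := T.biUnion fun z0 => (T' z0).image fun z1 => (z0, z1)
  have hU : ∀ z, (g0 z, f0 z) ∈ U := fun z =>
    mem_biUnion.2 ⟨g0 z, g1 z, mem_image_of_mem _ (f1 z)⟩
  refine ⟨U.card, fun z => U.equivFin ⟨_, hU z⟩, ?_, fun z z' e j j0 jN => ?_⟩
  · obtain a1 : (U.card : ℝ) ≤ ∑ z ∈ T, (((T' z).image fun z1 => (z, z1)).card : ℝ) := by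
      exact_mod_cast card_biUnion_le
    obtain a2 : ∑ z ∈ T, (((T' z).image fun z1 => (z, z1)).card : ℝ) ≤ T.card * c.E ρ 600 := by
      rw [← nsmul_eq_mul]
      exact sum_le_card_nsmul _ _ _ fun z _ => le_trans (by exact_mod_cast card_image_le) (t1 z)
    exact a1.trans (a2.trans (mul_le_mul_of_nonneg_right h1 hE.le))
  have e1 := Subtype.mk.inj (U.equivFin.injective e)
  obtain ⟨e2, e3⟩ := Prod.mk.inj e1
  have S := hS (g0 z)
  have b1 := f2 z
  have b2 := f2 z'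
  have b3 := g2 z'
  rw [← e2] at b2 b3
  rw [← e3] at b2
  have a1 := (hY M hM ρ t p d _ _ _ Rg N (v z) (v z') N hρ S (hS z).hv (hS z').hv (hS z).orb
    (hS z').orb S.N1 le_rfl (g2 z) b3 j j0 jN).2
  obtain a2 := S.maj.2 j (by omega) jN
  have a3 := S.top j j0 jN
  obtain a4 : |v z' - v z| ≤ 2 * (1 / (c.E ρ 600 * A (g0 z) N)) := by
    have := abs_sub (v z' - v (f0 z)) (v z - v (f0 z))
    rw [sub_sub_sub_cancel_right] at this
    linarith only [b1, b2, this]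
  have a5 := abs_add_le ((M.lo t p d (v z')).X j - (M.lo t p d (v z)).X j -
    (v z' - v z) * (M.lo t p d (v (g0 z))).ltg d j) ((v z' - v z) * (M.lo t p d (v (g0 z))).ltg d j)
  rw [sub_add_cancel, abs_mul] at a5
  have a6 := mul_le_mul_of_nonneg_left a2 (abs_nonneg (v z' - v z))
  obtain hw : 0 ≤ w (g0 z) j := by linarith only [a2, abs_nonneg ((M.lo t p d (v (g0 z))).ltg d j)]
  have a7 : |v z' - v z| * w (g0 z) j ≤
      2 * (1 / (c.E ρ 600 * A (g0 z) N)) * (c.E ρ 1 * A (g0 z) N) :=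
    mul_le_mul a4 a3 hw ((abs_nonneg _).trans a4)
  obtain a8 : 2 * (1 / (c.E ρ 600 * A (g0 z) N)) * (c.E ρ 1 * A (g0 z) N) =
      2 * (c.E ρ 1 / c.E ρ 600) := by
    have := hA (g0 z)
    field_simp
  obtain a9 : c.E ρ (-590) = c.E ρ 1 / c.E ρ 600 * c.E ρ 9 := by
    rw [Cs.E, Cs.E, Cs.E, Cs.E, ← Real.exp_sub, ← Real.exp_add]; congr 1; ring
  have a10 : 9 * (c.a * ρ) + 1 ≤ c.E ρ 9 := Real.add_one_le_exp _
  have a11 : 0 ≤ c.E ρ 1 / c.E ρ 600 := div_nonneg (Real.exp_pos _).le hE.le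
  rw [a9]
  nlinarith only [a1, a5, a6, a7, a8, a11, hl, hu, hcw, hcw1, a10]

end

theorem main {c : Cs} (h : K c) (hY : YLOC_s c) : YCOV_s c := by
  classical
  intro M hM ρ t p d Rg N D Z v w A hρ hS hσ hD hsum
  rcases isEmpty_or_nonempty Z with hZ | ⟨⟨z0⟩⟩
  · exact ⟨0, fun z => isEmptyElim z, by rw [Nat.cast_zero]; exact (Real.exp_pos _).le,
      fun z => isEmptyElim z⟩
  have hl := h.lam
  let Φ : ℤ → ℝ := fun i => ∑ l ∈ (Ico 1 i).filter fun l => l ∉ Rg ∧ l - 1 ∈ Rg, (c.lam + D l)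
  obtain nn : ∀ l, 0 ≤ c.lam + (D l : ℝ) := fun l => by positivity
  obtain key : ∀ k : ℕ, ∀ i : ℤ, i < k → 1 ≤ i → i ≤ N → (i ∈ Rg ∨ i = N ∨ i - 1 ∈ Rg) →
      Cov c v A i (Real.exp (Φ i)) := by
    intro k
    induction k with
    | zero => intro i h0 h1; omega
    | succ k ih =>
      intro i hk h1 h2 h3
      by_cases e : i - 1 ∈ Rg
      · obtain ⟨i1, i2⟩ := mem_Ico.1 ((hS z0).sub e)
        obtain a1 := regular h hY hM hρ hS hσ e (ih (i - 1) (by omega) i1 i2.le (Or.inl e))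
        rw [sub_add_cancel] at a1
        refine a1.mono (Real.exp_le_exp.2 (sum_le_sum_of_subset_of_nonneg
          (filter_subset_filter _ (Ico_subset_Ico_right (by omega))) fun l _ _ => nn l))
      by_cases e' : (Rg.filter fun l => l < i).Nonempty
      swap
      · refine (start h hρ hS z0 h1 h2 fun l _ b m => e' ⟨l, mem_filter.2 ⟨m, b⟩⟩).mono ?_
        exact Real.one_le_exp (sum_nonneg fun l _ => nn l)
      obtain ⟨m1, m2⟩ := mem_filter.1 (max'_mem _ e')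
      set m := (Rg.filter fun l => l < i).max' e' with hm
      obtain m3 : ∀ l, m + 1 ≤ l → l < i → l ∉ Rg := fun l b1 b2 b3 => by
        have : l ≤ m := le_max' _ l (mem_filter.2 ⟨b3, b2⟩)
        omega
      obtain m4 : m + 1 < i := by
        have : m ≠ i - 1 := fun x => e (x ▸ m1)
        omega
      obtain ⟨i1, -⟩ := mem_Ico.1 ((hS z0).sub m1)
      obtain m5 : m + 1 - 1 ∈ Rg := by rwa [add_sub_cancel_right]
      obtain hI : IRun Rg N (m + 1) i := ⟨m5, m4, h2, m3, by tauto⟩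
      obtain a1 := run h hY hM hρ hS m5 m4.le h2 (Nat.cast_nonneg (D (m + 1))) (fun z => hD z _ _ hI)
        (ih (m + 1) (by omega) (by omega) (by omega) (Or.inr (Or.inr m5)))
      refine a1.mono ?_
      rw [← Real.exp_add]
      refine Real.exp_le_exp.2 ?_
      obtain nm : m + 1 ∉ (Ico 1 (m + 1)).filter fun l => l ∉ Rg ∧ l - 1 ∈ Rg := by simp
      have := sum_insert (f := fun l => c.lam + (D l : ℝ)) nm
      rw [add_comm, ← this]
      refine sum_le_sum_of_subset_of_nonneg (insert_subset (mem_filter.2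
        ⟨mem_Ico.2 ⟨by omega, m4⟩, m3 _ le_rfl m4, m5⟩)
        (filter_subset_filter _ (Ico_subset_Ico_right m4.le))) fun l _ _ => nn l
  have N1 := (hS z0).N1
  obtain ⟨K, cl, k1, k2⟩ := final h hY hM hρ hS
    (key (N.toNat + 1) N (by omega) N1 le_rfl (Or.inr (Or.inl rfl)))
  refine ⟨K, cl, k1.trans ?_, k2⟩
  rw [Cs.E, Cs.E, ← Real.exp_add]
  refine Real.exp_le_exp.2 ?_
  obtain a1 : Φ N = ((Ico 1 N).filter fun l => l ∉ Rg ∧ l - 1 ∈ Rg).card * c.lam +
      ∑ l ∈ (Ico 1 N).filter fun l => l ∉ Rg ∧ l - 1 ∈ Rg, (D l : ℝ) := by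
    simp only [Φ]
    rw [sum_add_distrib, sum_const, nsmul_eq_mul]
  have a2 : ∑ l ∈ (Ico 1 N).filter fun l => l ∉ Rg ∧ l - 1 ∈ Rg, (D l : ℝ) ≤
      ∑ l ∈ Ico 1 N, (D l : ℝ) :=
    sum_le_sum_of_subset_of_nonneg (filter_subset _ _) fun l _ _ => Nat.cast_nonneg _
  obtain a3 : (((Ico 1 N).filter fun l => l ∉ Rg ∧ l - 1 ∈ Rg).card : ℝ) ≤ 41 * ρ / c.bl := by
    refine le_trans ?_ (hS z0).runs
    have : ((Ico 1 N).filter fun l => l ∉ Rg ∧ l - 1 ∈ Rg).card ≤
        ((Ico 1 N).filter fun i => i ∉ Rg ∧ (i - 1 ∈ Rg ∨ i = 1)).card :=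
      card_le_card (monotone_filter_right _ fun l _ x => ⟨x.1, Or.inl x.2⟩)
    exact_mod_cast (by convert this)
  have hu := h.u hρ
  have ha := h.a
  have hb : 14 ≤ c.β * c.a := (div_le_iff₀ h.a).1 h.β
  obtain hβ : 0 < c.β := by
    by_contra x
    have : c.β * c.a ≤ 0 := mul_nonpos_of_nonpos_of_nonneg (not_lt.1 x) ha.le
    linarith only [hb, this]
  obtain hρ0 : 0 ≤ ρ := by
    obtain this : 0 ≤ c.bl := mul_nonneg hβ.le (by linarith only [hl])
    linarith only [hρ, this]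
  obtain a4 : 41 * ρ / c.bl * c.lam ≤ 3 * (c.a * ρ) := by
    obtain e : 41 * ρ / c.bl * c.lam = 41 * ρ / c.β := by
      unfold Cs.bl; field_simp
    rw [e, div_le_iff₀ hβ]
    nlinarith only [hl, hu, hb, ha]
  obtain a5 := mul_le_mul_of_nonneg_right a3 (show 0 ≤ c.lam by linarith only [hl])
  linarith only [hsum, hl, a1, a2, hu, a4, a5]

end YCOV

theorem ycov : Hier fun c => YLOC_s c → YCOV_s c := YCOV.hK.mono fun _ h => YCOV.main h

end Pool.Agent.MP_9cbfe4_an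

end

/-! ### Part LOW1 -/

section

/-! First item of `LOW_s`: condition C5 holds at low level. -/

namespace Pool.Agent.MP_9cbfe4_an

open Finset

theorem exp_neg_le_tenth {x : ℝ} (h : 3 ≤ x) : Real.exp (-x) ≤ 1 / 10 := by
  rw [Real.exp_neg, one_div]
  refine inv_anti₀ (by norm_num) ?_
  obtain h1 := Real.quadratic_le_exp_of_nonneg (show (0 : ℝ) ≤ x / 2 by linarith only [h])
  obtain h2 : Real.exp x = Real.exp (x / 2) * Real.exp (x / 2) := by rw [← Real.exp_add]; ring_nf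
  nlinarith only [h, h1, h2]

/-- the outer direction of a datum is admissible -/
theorem Dat.Pre.out {c : Cs} {Ex : ExT} {M : Mdl} {d : Dat} (h : d.Pre c Ex M) :
    (d.S M).Out c d.ξ d.n :=
  ⟨h.hn, h.sol, (h.tame _ le_rfl).1, (h.tame _ le_rfl).2.1⟩

theorem Sq.st_fr (c : Cs) (S : Sq) {n : ℤ} (hn : 0 ≤ n) : S.St c (S.fr (n + 1)) (n + 1) :=
  ⟨by omega, S.fr_sol _, S.fr_self _, by rw [S.fr_pred, abs_zero]; exact (Real.exp_pos _).le⟩

theorem low1 (K : ℕ) : Hier fun c => SOK_s c → B1_s c → B5_s c → First K c → ∀ M : Mdl, M.OK c →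
    ∀ d : Dat, d.Pre c (Ex2 K c M) M → ¬ d.High c M → ¬ d.Bad5 c M K := by
  refine (((Hier.base.and (Hier.C0_ge fun _ _ _ _ => 0)).and
    (Hier.β_ge (fun c => 1 + c.chK) fun _ _ _ => rfl)).and
    (Hier.lam_ge (fun _ => 15) fun _ _ => rfl)).mono ?_
  rintro c ⟨⟨⟨⟨k1, k2, -⟩, hC⟩, hβ⟩, hl⟩ sok b1 b5 ⟨hK, hκ, -⟩ M hM d hd hlow hb
  apply hb
  obtain ht : TI d.t := ⟨by linarith only [hd.ht.1], by linarith only [hd.ht.2]⟩
  obtain ⟨orb, ok⟩ := (sok M hM d.t ht).2.1 d.v hd.hv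
  change IsOrb c M d.t (d.S M) 0 at orb
  change (d.S M).OK c at ok
  have hn := hd.hn
  have hlow' : c.C0 * d.V c M ≤ c.bl / 2 := not_lt.1 hlow
  have hV : (d.S M).Wp c d.n d.p ≤ d.V c M := le_max_left _ _
  have run := hd.run
  have bd := hd.bd
  have out := hd.out
  unfold Dat.V at hlow' hV
  generalize d.S M = S at *
  obtain ⟨⟨t, v, ξ, n⟩, Ls, p, r⟩ := d
  dsimp only at *
  obtain hch : 0 < c.chK := Real.log_pos (by
    rw [lt_div_iff₀ (by linarith only [k1, k2])]; linarith only [k1, k2])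
  obtain hbl : c.chK ≤ c.bl ∧ 15 ≤ c.bl := by
    unfold Cs.bl; constructor <;> nlinarith only [hβ, hl, hch]
  obtain hdl : c.dl ≤ 1 / 10 := by
    unfold Cs.dl; rw [neg_mul]; exact exp_neg_le_tenth (by linarith only [hbl.2])
  obtain hg : ∀ i, 0 ≤ i → |M.gt t S i - 1| ≤ 1 / 10 := fun i hi =>
    (hM.t_all t _ _ ht (orb.box i (by omega)) (orb.box (i - 1) (by omega))).trans hdl
  obtain hg' : ∀ i, 0 ≤ i → |M.gt t S i| ≤ 11 / 10 := fun i hi => by
    have := abs_le.1 (hg i hi); rw [abs_le]; constructor <;> linarith only [this.1, this.2]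
  have binv := (b1 _ S ok).2.1 ξ n Ls p r out run bd
  have rinv := ((b1 _ S ok).1 _ _ _ Ls p (S.st_fr c hn) run).2
  have np : n + 1 ≤ p := rinv.le
  have hW0 : 0 ≤ S.Wp c n p := Real.log_nonneg (S.one_le_AA c _ _ _)
  obtain sp := (b5 hκ _ (fun _ _ _ _ _ _ h => h.1) S ξ n Ls p r ok out run bd).1
    (.inr (by linarith only [mul_le_mul_of_nonneg_left hV hC, hbl.2, hlow'])) p (by omega) le_rfl
  have hwp : S.wp c n p = |S.fr (n + 1) p| := rinv.whm
  have h0 : 0 < |S.fr (n + 1) p| := abs_pos.2 rinv.ne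
  obtain e3 : Real.exp (-c.lam / 3) ≤ 1 / 10 := by
    rw [neg_div]; exact exp_neg_le_tenth (by linarith only [hl])
  obtain e5 : Real.exp (-c.lam / 5) ≤ 1 / 10 := by
    rw [neg_div]; exact exp_neg_le_tenth (by linarith only [hl])
  obtain s2 : |∑ i ∈ Ioo n p, S.fr (i + 1) p / S.fr (n + 1) p * M.gt t S i| ≤ 11 / 100 := by
    obtain e : Ioo n p = Ico (n + 1) p := by ext l; simp only [mem_Ioo, mem_Ico]; omega
    calc _ ≤ ∑ i ∈ Ico (n + 1) p, |S.fr (i + 1) p| * (11 / 10 / |S.fr (n + 1) p|) := by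
          rw [e]
          refine (abs_sum_le_sum_abs _ _).trans (sum_le_sum fun i hi => ?_)
          rw [abs_mul, abs_div, div_mul_eq_mul_div, mul_div_assoc]
          exact mul_le_mul_of_nonneg_left (div_le_div_of_nonneg_right
            (hg' i (by have := (mem_Ico.1 hi).1; omega)) h0.le) (abs_nonneg _)
      _ ≤ 1 / 10 * |S.fr (n + 1) p| * (11 / 10 / |S.fr (n + 1) p|) := by
          rw [← sum_mul]
          refine mul_le_mul_of_nonneg_right (sp.trans ?_) (by (clear * - h0; positivity))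
          rw [hwp]; exact mul_le_mul_of_nonneg_right e3 h0.le
      _ = 11 / 100 := by field_simp; norm_num
  intro _ _
  set y := c.C0 * S.Wt c (S.fr (n + 1)) (n + 1) p r
  obtain hN : S.Nw c n y ≤ 1 := (S.Nw_spec c hch hbl.1 n y).2 1 (by
    have h1 := S.chi_succ c (n - 1)
    rw [sub_add_cancel] at h1
    obtain h2 : S.kk n = 0 := (S.kk_eq_zero).2 (.inl (by linarith only [binv.kz.2.1]))
    rw [Nat.cast_one, h1, Sq.ch1, h2]; linarith only [hbl.2, hlow'])
  obtain s1 : |∑ i ∈ Ico (S.st c n y) n, (-1) ^ (n - i).toNat * S.Pb i n * (ξ i / ξ n) * M.gt t S i|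
      ≤ 11 / 100 := by
    by_cases hs : S.st c n y = n
    · rw [hs]; norm_num
    obtain hs' : S.st c n y = n - 1 ∧ 1 ≤ n := by unfold Sq.st at hs ⊢; omega
    obtain e : Ico (n - 1) n = {n - 1} := by ext l; simp only [mem_Ico, mem_singleton]; omega
    have hP := S.Pb_one (n - 1)
    rw [sub_add_cancel] at hP
    obtain hb1 : S.b n ≤ 1 := by
      refine (ok.b_hi n (1 / 100) hn le_rfl).trans ?_
      rw [Sq.bb, if_neg fun h => by linarith only [h.1, binv.kz.2.1]]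
      exact Real.exp_le_one_iff.2 (by linarith only [hbl.2])
    obtain hx : |ξ (n - 1) / ξ n| ≤ 1 / 10 := by
      rw [abs_div, div_le_iff₀ (abs_pos.2 out.2.2.1)]
      exact out.2.2.2.trans (mul_le_mul_of_nonneg_right e5 (abs_nonneg _))
    rw [hs'.1, e, sum_singleton, hP]
    simp only [abs_mul, abs_pow, abs_neg, abs_one, one_pow, one_mul, abs_of_pos (ok.b_pos hn)]
    obtain this := hg' (n - 1) (by omega)
    have h2 : S.b n * |ξ (n - 1) / ξ n| ≤ 1 * (1 / 10) := mul_le_mul hb1 hx (abs_nonneg _) one_pos.le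
    linarith only [mul_le_mul h2 this (abs_nonneg _) (by norm_num)]
  obtain hK1 : (10 : ℝ) ≤ K := by exact_mod_cast hK.1
  obtain hE : Real.exp (-(1 - 1 / (2 * K)) * S.Wp c n p) ≤ 1 := by
    refine Real.exp_le_one_iff.2 ?_
    obtain this : 1 / (2 * (K : ℝ)) ≤ 1 := by
      rw [div_le_one (by linarith only [hK1])]; linarith only [hK1]
    linarith only [mul_nonneg (sub_nonneg.2 this) hW0]
  refine le_trans ?_ (le_abs_self _)
  unfold Mdl.sgm Mdl.hist
  linarith only [(abs_le.1 s1).1, (abs_le.1 s2).1, (abs_le.1 (hg n hn)).1, hE]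

end Pool.Agent.MP_9cbfe4_an

end

/-! ### Part SM -/

section

/-! Row SM: the solutions of the seed system form a smooth family (shooting + implicit function). -/

namespace Pool.Agent.MP_9cbfe4_an.SS

open Finset Filter Topology
open scoped ContDiff

noncomputable section

namespace SM

theorem ind2 {p : ℤ → Prop} {s J : ℤ} (h0 : p (s - 1)) (h1 : p s)
    (h : ∀ j, s ≤ j → j < J → p (j - 1) → p j → p (j + 1)) : ∀ j, s - 1 ≤ j → j ≤ J → p j := by
  obtain H : ∀ n : ℕ, s + n ≤ J → p (s + n - 1) ∧ p (s + n) := by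
    intro n
    induction n with
    | zero => intro _; simpa using ⟨h0, h1⟩
    | succ n ih =>
      intro hn
      push_cast at hn ⊢
      obtain ⟨a, b⟩ := ih (by omega)
      refine ⟨by rw [show s + (n + 1) - 1 = s + n by ring]; exact b, ?_⟩
      rw [← add_assoc]
      exact h _ (by omega) (by omega) a b
  intro j h2 h3
  rcases eq_or_lt_of_le h2 with h4 | h4
  · exact h4 ▸ h0
  · obtain ⟨n, rfl⟩ : ∃ n : ℕ, j = s + n := ⟨(j - s).toNat, by omega⟩
    exact (H n h3).2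

/-- shooting map, positions -/
def px (g : R3 → ℝ) (A B a b : ℝ) (z : ℝ × ℝ) : ℕ → ℝ
  | 0 => A + z.2 * a
  | 1 => B + z.2 * b
  | n + 2 => g (z.1, px g A B a b z (n + 1), px g A B a b z n)

/-- shooting map, tangent -/
def pz (g : R3 → ℝ) (A B a b : ℝ) (z : ℝ × ℝ) : ℕ → ℝ
  | 0 => a
  | 1 => b
  | n + 2 => ga g (z.1, px g A B a b z (n + 1), px g A B a b z n) * pz g A B a b z (n + 1)
      + gb g (z.1, px g A B a b z (n + 1), px g A B a b z n) * pz g A B a b z n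

variable (g : R3 → ℝ) (P : RD) (z : ℝ × ℝ)

def sx (j : ℤ) : ℝ :=
  px g (P.R.X (P.s - 1)) (P.R.X P.s) (P.ξ (P.s - 1)) (P.ξ P.s) z (j - (P.s - 1)).toNat
def sy (j : ℤ) : ℝ :=
  pz g (P.R.X (P.s - 1)) (P.R.X P.s) (P.ξ (P.s - 1)) (P.ξ P.s) z (j - (P.s - 1)).toNat
/-- normalised tangent -/
def se (j : ℤ) : ℝ := sy g P z j / sy g P z 0

theorem sx0 : sx g P z (P.s - 1) = P.R.X (P.s - 1) + z.2 * P.ξ (P.s - 1) := by simp [sx, px]
theorem sx1 : sx g P z P.s = P.R.X P.s + z.2 * P.ξ P.s := by simp [sx, px]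
theorem sy0 : sy g P z (P.s - 1) = P.ξ (P.s - 1) := by simp [sy, pz]
theorem sy1 : sy g P z P.s = P.ξ P.s := by simp [sy, pz]

theorem idx {s j : ℤ} (h : s ≤ j) : ∃ n : ℕ, (j + 1 - (s - 1)).toNat = n + 2 ∧
    (j - (s - 1)).toNat = n + 1 ∧ (j - 1 - (s - 1)).toNat = n := ⟨(j - s).toNat, by omega⟩

theorem sx2 {j : ℤ} (h : P.s ≤ j) : sx g P z (j + 1) = g (z.1, sx g P z j, sx g P z (j - 1)) := by
  obtain ⟨n, a, b, c⟩ := idx h
  simp only [sx, a, b, c, px]

theorem sy2 {j : ℤ} (h : P.s ≤ j) : sy g P z (j + 1) =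
    ga g (z.1, sx g P z j, sx g P z (j - 1)) * sy g P z j
      + gb g (z.1, sx g P z j, sx g P z (j - 1)) * sy g P z (j - 1) := by
  obtain ⟨n, a, b, c⟩ := idx h
  simp only [sx, sy, a, b, c, pz]

theorem se2 {j : ℤ} (h : P.s ≤ j) : se g P z (j + 1) =
    ga g (z.1, sx g P z j, sx g P z (j - 1)) * se g P z j
      + gb g (z.1, sx g P z j, sx g P z (j - 1)) * se g P z (j - 1) := by
  simp only [se, sy2 g P z h]; ring

theorem se_line : P.ξ P.s * se g P z (P.s - 1) = P.ξ (P.s - 1) * se g P z P.s := by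
  simp only [se, sy0, sy1]; ring

/-- a zero of the shooting function solves the system -/
theorem sol (h0 : sy g P z 0 ≠ 0) (hJ : sy g P z P.J = 0) : Sol g P z.1 (sx g P z) (se g P z) where
  eqx := fun _ h _ => sx2 g P z h
  eqe := fun _ h _ => se2 g P z h
  linx := by rw [sx0, sx1]; ring
  line := se_line g P z
  one := div_self h0
  zero := by simp [se, hJ]

variable {g P} {N E : ℕ}

theorem xi_ne (h : Ref g N E P) : P.ξ (P.s - 1) ≠ 0 ∨ P.ξ P.s ≠ 0 := by
  by_contra hc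
  push Not at hc
  obtain this := ind2 (p := fun j => P.ξ j = 0) (J := 0) hc.1 hc.2
    (fun j a b c d => by simp [h.ct.hc.sol j a b, c, d]) 0 (by have := h.ct.hc.s0; omega) le_rfl
  simp [h.ct.hc.one] at this

theorem line_ex {a b x y : ℝ} (h : a ≠ 0 ∨ b ≠ 0) (e : b * x = a * y) :
    ∃ v, x = v * a ∧ y = v * b := by
  rcases h with h | h
  · exact ⟨x / a, by field_simp, by field_simp; linarith only [e]⟩
  · exact ⟨y / b, by field_simp; linarith only [e], by field_simp⟩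

/-- every solution comes from the shooting map -/
theorem repr (h : Ref g N E P) {τ : ℝ} {X η : ℤ → ℝ} (hS : Sol g P τ X η) :
    ∃ v, sy g P (τ, v) 0 ≠ 0 ∧ sy g P (τ, v) P.J = 0 ∧
      ∀ j, P.s - 1 ≤ j → j ≤ P.J → sx g P (τ, v) j = X j ∧ se g P (τ, v) j = η j := by
  obtain ⟨v, v0, v1⟩ := line_ex (xi_ne h) hS.linx
  obtain ⟨c, c0, c1⟩ := line_ex (xi_ne h) hS.line
  have hs := h.ct.hc.s0
  have hJ := h.ct.fc.J1
  have H := ind2 (p := fun j => sx g P (τ, v) j = X j ∧ η j = c * sy g P (τ, v) j) (J := P.J)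
    ⟨by rw [sx0]; linarith only [v0], by rw [sy0]; exact c0⟩ ⟨by rw [sx1]; linarith only [v1], by rw [sy1]; exact c1⟩
    (fun j a b p q => by
      refine ⟨?_, ?_⟩
      · rw [sx2 g P _ a, p.1, q.1, hS.eqx j a b]
      · rw [sy2 g P _ a, p.1, q.1, hS.eqe j a b, p.2, q.2]; ring)
  obtain e0 : c * sy g P (τ, v) 0 = 1 := by rw [← (H 0 (by omega) (by omega)).2, hS.one]
  obtain eJ : c * sy g P (τ, v) P.J = 0 := by rw [← (H P.J (by omega) le_rfl).2, hS.zero]
  obtain hc : c ≠ 0 := by rintro rfl; simp at e0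
  obtain h0 : sy g P (τ, v) 0 ≠ 0 := fun e => by simp [e] at e0
  refine ⟨v, h0, (mul_eq_zero.1 eJ).resolve_left hc, fun j a b => ⟨(H j a b).1, ?_⟩⟩
  rw [se, (H j a b).2, div_eq_iff h0]
  linear_combination (-sy g P (τ, v) j) * e0

theorem mem_UB {τ : ℝ} {X : ℤ → ℝ} (ht : |τ - P.t0| ≤ P.r) (hT : Tube P.R X (P.s - 1) P.J P.r)
    {j : ℤ} (a : P.s ≤ j) (b : j ≤ P.J) : ((τ, X j, X (j - 1)) : R3) ∈ UB P.R P.t0 P.r j :=
  ⟨ht, hT j (by omega) b, hT (j - 1) (by omega) (by omega)⟩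

/-- the shooting map is smooth as long as the orbit is in the tube -/
theorem smooth (hG : MG_s) (h : Ref g N E P) {z : ℝ × ℝ} (ht : |z.1 - P.t0| ≤ P.r)
    (hT : Tube P.R (sx g P z) (P.s - 1) P.J P.r) : ∀ j, P.s - 1 ≤ j → j ≤ P.J →
    ContDiffAt ℝ ∞ (fun w => sx g P w j) z ∧ ContDiffAt ℝ ∞ (fun w => sy g P w j) z := by
  refine ind2 ⟨?_, ?_⟩ ⟨?_, ?_⟩ fun j a b p q => ?_
  · simp only [sx0]; fun_prop
  · simp only [sy0]; fun_prop
  · simp only [sx1]; fun_prop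
  · simp only [sy1]; fun_prop
  · have hm := mem_UB ht hT a b.le
    have hl := h.lm j a b.le
    obtain ⟨m1, m2, -⟩ := hG _ _ _ _ _ _ _ _ hl _ hm
    have hγ : ContDiffAt ℝ ∞ (fun w : ℝ × ℝ => ((w.1, sx g P w j, sx g P w (j - 1)) : R3)) z :=
      contDiffAt_fst.prodMk (q.1.prodMk p.1)
    simp only [sx2 g P _ a, sy2 g P _ a]
    exact ⟨ContDiffAt.comp (g := g) z (hl.sm _ hm) hγ,
      ((ContDiffAt.comp (g := ga g) z m1 hγ).mul q.2).add
        ((ContDiffAt.comp (g := gb g) z m2 hγ).mul p.2)⟩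

theorem big (h : Ref g N E P) {j : ℤ} (a : P.s - 1 ≤ j) (b : j ≤ P.J) : 1000 ≤ P.μ j := by
  rcases le_total j 0 with c | c
  · exact h.ct.hc.big j a c
  · exact h.ct.fc.big j c b

theorem Dpos (h : Ref g N E P) {j : ℤ} (b : j ≤ P.J) : 0 < P.D j := by
  rcases le_total j 0 with c | c
  · rw [h.ct.Dneg j c]; exact one_pos
  · exact h.ct.fc.Dpos j c b

theorem bmu (h : Ref g N E P) {e : ℕ} (he : e ≤ E) {j : ℤ} (a : P.s ≤ j) (b : j ≤ P.J) :
    P.R.b j * (P.μ (j - 1) ^ e * P.D (j - 1)) ≤ P.μ j ^ (e + 1) * P.D j := by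
  rcases le_or_gt j 0 with c | c
  · rw [h.ct.Dneg j c, h.ct.Dneg (j - 1) (by omega), mul_one, mul_one]
    exact h.ct.hc.bmu e he j a c
  · obtain h1 := h.ct.fc.PbD (j - 1) j (by omega) (by omega) b
    obtain e1 : P.R.Pb (j - 1) j = P.R.b j := by
      obtain this : Ioc (j - 1) j = {j} := by ext; simp; omega
      simp [Sq.Pb, this]
    rw [e1] at h1
    obtain h2 := h.ct.fc.mono (j - 1) j (by omega) (by omega) b
    obtain h3 := h.ct.fc.big (j - 1) (by omega) (by omega)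
    obtain h4 : P.μ (j - 1) ^ e ≤ P.μ j ^ e := pow_le_pow_left₀ (by linarith only [h3]) h2 e
    obtain h5 : 0 ≤ P.R.b j * P.D (j - 1) :=
      mul_nonneg (h.ct.fc.bpos j (by omega) b).le (Dpos h (by omega)).le
    calc _ = P.μ (j - 1) ^ e * (P.R.b j * P.D (j - 1)) := by ring
      _ ≤ P.μ j ^ e * (P.μ j * P.D j) := mul_le_mul h4 h1 h5 (pow_nonneg (by linarith only [h2, h3]) e)
      _ = _ := by ring

/-- uniqueness in the tube -/
theorem uniq (hA : AP0_s) (hD : D0_s) (h : Ref g N E P) (hE : 200 ≤ E) {τ : ℝ}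
    (ht : |τ - P.t0| ≤ P.r) {X η X' η' : ℤ → ℝ} (hS : Sol g P τ X η) (hS' : Sol g P τ X' η')
    (hT : Tube P.R X (P.s - 1) P.J P.r) (hT' : Tube P.R X' (P.s - 1) P.J P.r) :
    ∀ j, P.s - 1 ≤ j → j ≤ P.J → X' j = X j ∧ η' j = η j := by
  have hs := h.ct.hc.s0
  have hJ := h.ct.fc.J1
  intro j a b
  obtain H := hD g N E 10 P τ X η X' η' 0 0 0 0 h (by omega) ht hS.eqx hS.eqe
    (fun i c d => hS'.eqx i (by omega) d) (fun i c d => hS'.eqe i (by omega) d)
    (by rw [add_zero]; exact hS'.eqx _ le_rfl (by omega))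
    (by rw [add_zero]; exact hS'.eqe _ le_rfl (by omega)) hS.one hS'.one hT hT'
    (hA g N E P τ X' η' h (by omega) ht hS' hT').1 le_rfl le_rfl (by simp) (by simp)
    (by rw [zero_mul, abs_nonpos_iff]; linear_combination hS'.linx - hS.linx)
    (by rw [zero_mul, abs_nonpos_iff]; linear_combination hS'.line - hS.line)
    (by simp [hS.zero, hS'.zero]) j a b
  simp only [zero_mul, add_zero, mul_zero, abs_nonpos_iff, sub_eq_zero] at H
  exact H

/-- the shooting function has a simple zero -/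
theorem nondeg (hG : MG_s) (hJt : STJ_s) (hL : LS_s) (hA : AP0_s) (h : Ref g N E P) (hN : 1 ≤ N)
    (hE : 200 ≤ E) {τ v : ℝ} (ht : |τ - P.t0| ≤ P.r)
    (hT : Tube P.R (sx g P (τ, v)) (P.s - 1) P.J P.r) (h0 : sy g P (τ, v) 0 ≠ 0)
    (hJ : sy g P (τ, v) P.J = 0) : fderiv ℝ (fun w => sy g P w P.J) (τ, v) (0, 1) ≠ 0 := by
  intro hd
  have hs := h.ct.hc.s0
  have hJ1 := h.ct.fc.J1
  have hsm := smooth hG h (z := (τ, v)) ht hT
  have hin : ContDiffAt ℝ ∞ (fun u : ℝ => ((τ, u) : ℝ × ℝ)) v := contDiffAt_const.prodMk contDiffAt_id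
  set x : ℤ → ℝ → ℝ := fun j u => sx g P (τ, u) j with hx
  set y : ℤ → ℝ → ℝ := fun j u => sy g P (τ, u) j with hy
  set p : ℤ → ℝ → ℝ := fun j u => se g P (τ, u) j with hp
  have cx : ∀ j, P.s - 1 ≤ j → j ≤ P.J → ContDiffAt ℝ ∞ (x j) v := fun j a b =>
    (hsm j a b).1.comp v hin
  have cy : ∀ j, P.s - 1 ≤ j → j ≤ P.J → ContDiffAt ℝ ∞ (y j) v := fun j a b =>
    (hsm j a b).2.comp v hin
  obtain cp : ∀ j, P.s - 1 ≤ j → j ≤ P.J → ContDiffAt ℝ ∞ (p j) v := fun j a b =>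
    (cy j a b).div (cy 0 (by omega) (by omega)) h0
  obtain le1 : ((1 : ℕ) : WithTop ℕ∞) ≤ ∞ := by exact_mod_cast le_top
  obtain hη := (hA g N E P τ _ _ h (by omega) ht (sol g P (τ, v) h0 hJ) hT).1
  obtain ev1 : p 0 =ᶠ[𝓝 v] fun _ => 1 := by
    filter_upwards [(cy 0 (by omega) (by omega)).continuousAt.eventually_ne h0] with u hu
    exact div_self hu
  obtain st : ∀ j, P.s ≤ j → j < P.J → ∀ (q : ℝ → ℝ) (d : ℝ), ContDiffAt ℝ ∞ q v → 0 ≤ d → _ :=
    fun j a b q d hq hd0 => hJt _ _ _ _ _ _ _ _ (h.lm j a b.le) 1 (fun _ => τ) (x j) (x (j - 1)) q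
      (p (j - 1)) v 0 1 d le_rfl hN (mem_UB ht hT a b.le) contDiffAt_const
      ((cx j (by omega) b.le).of_le le1) ((cx (j - 1) (by omega) (by omega)).of_le le1) (hq.of_le le1)
      ((cp (j - 1) (by omega) (by omega)).of_le le1) le_rfl zero_le_one le_rfl hd0
      (fun i c d => by omega)
  have ex : ∀ j, P.s ≤ j → (fun σ => g (cv (fun _ => τ) (x j) (x (j - 1)) σ)) = x (j + 1) :=
    fun j a => funext fun u => (sx2 g P (τ, u) a).symm
  have ep : ∀ j, P.s ≤ j → tg g (cv (fun _ => τ) (x j) (x (j - 1))) (p j) (p (j - 1)) = p (j + 1) :=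
    fun j a => funext fun u => (se2 g P (τ, u) a).symm
  obtain hΛ : 1000 ≤ P.Λ := (big h (j := 0) (by omega) (by omega)).trans (h.ct.top 0 (by omega) (by omega))
  have hr := h.r0
  obtain m0 := big h (j := 0) (by omega) (by omega)
  have H := hL P.R E 0 13 P.ξ P.w P.μ P.D (fun j => deriv (x j) v) (fun j => deriv (p j) v) P.s P.J
    P.Λ P.L P.δ 0 0 0 0 (P.Λ ^ 2 * P.r) h.ct (by omega) le_rfl le_rfl le_rfl le_rfl (by (clear * - hΛ hr; positivity))
    (by
      obtain this : P.Λ ^ 12 ≤ P.Λ ^ E := pow_le_pow_right₀ (by linarith only [hΛ]) (by omega)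
      calc _ = P.r * P.Λ ^ 12 := by ring
        _ ≤ P.r * P.Λ ^ E := by (clear * - this hr; gcongr)
        _ ≤ 1 := h.rE)
    (fun j a b => by
      obtain this := (st j a b (p j) 0 (cp j (by omega) b.le) le_rfl).1
      rw [ex j a] at this
      simpa [iteratedDeriv_one, Sq.df, Sq.sz] using this)
    (fun j a b _ => by
      obtain mj := big h (j := j) (by omega) b.le
      have Dj := Dpos h b.le
      have bj := (h.lm j a b.le).b0
      obtain h11 : P.μ j ^ 10 * P.D j ≤ P.μ j ^ 11 * P.D j :=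
        mul_le_mul_of_nonneg_right (pow_le_pow_right₀ (by linarith only [mj]) (by omega)) Dj.le
      obtain this := (st j a b (p j) (P.μ j ^ 11 * P.D j) (cp j (by omega) b.le) (by positivity)).2.1
        (fun i hi => by
          obtain rfl : i = 0 := by omega
          simp only [iteratedDeriv_zero]
          exact ⟨(hη j (by omega) b.le).trans h11, (mul_le_mul_of_nonneg_left
            (hη (j - 1) (by omega) (by omega)) bj.le).trans (bmu h (by omega) a b.le)⟩)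
      rw [ep j a] at this
      simp only [iteratedDeriv_one, deriv_const', abs_zero, mul_zero, add_zero, zero_mul,
        zero_add] at this
      simp only [Sq.df, Sq.sz, zero_mul, add_zero, zero_add]
      refine this.trans ?_
      obtain h2 : 2 * P.μ j * (P.μ j ^ 11 * P.D j) ≤ P.μ j ^ 13 * P.D j := by
        obtain this : 0 ≤ (P.μ j - 2) * (P.μ j ^ 12 * P.D j) := mul_nonneg (by linarith only [mj]) (by positivity)
        linarith only [this]
      (clear * - h2 bj; gcongr))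
    (by
      obtain b0 := (h.lm 0 hs (by omega)).b0
      obtain m1 := big h (j := -1) (by omega) (by omega)
      obtain e1 : P.μ (-1) ^ 10 ≤ P.μ (-1) ^ E := pow_le_pow_right₀ (by linarith only [m1]) (by omega)
      obtain e2 : P.μ 0 ^ 1 ≤ P.μ 0 ^ E := pow_le_pow_right₀ (by linarith only [m0]) (by omega)
      have g0 := h.ct.g0
      obtain d0 : 0 ≤ P.δ := le_trans (by positivity) g0
      obtain e3 : P.δ * P.μ 0 ≤ 1 := by
        have := h.ct.g2
        rw [pow_one] at e2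
        nlinarith only [this, e2, d0]
      have L1 := h.ct.L1
      obtain this := (st 0 hs (by omega) (p 0) P.δ (cp 0 (by omega) (by omega)) d0).2.2 P.L h.fold
        (fun i hi => by
          obtain rfl : i = 0 := by omega
          simp only [iteratedDeriv_zero]
          obtain this := hη (0 - 1) (by omega) (by omega)
          rw [h.ct.Dneg _ (by omega), mul_one] at this
          exact (mul_le_mul_of_nonneg_left (this.trans e1) b0.le).trans g0)
        (by nlinarith only [e3, m0, d0]) (by linarith only [e3, L1])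
      obtain e4 : tg g (cv (fun _ => τ) (x 0) (x (0 - 1))) (fun _ => 1) (p (0 - 1)) =ᶠ[𝓝 v] p 1 := by
        filter_upwards [ev1] with u hu
        have := congrFun (ep 0 hs) u
        simp only [tg, hu] at this ⊢
        simpa using this
      simp only [iteratedDeriv_one] at this
      rw [e4.deriv_eq] at this
      simp only [deriv_const', abs_zero, mul_zero, add_zero, zero_mul, zero_sub] at this
      simp only [zero_add]
      refine this.trans ?_
      obtain h2 : 2 * P.μ 0 ≤ P.μ 0 ^ 13 := by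
        obtain this : P.μ 0 ^ 2 ≤ P.μ 0 ^ 13 := pow_le_pow_right₀ (by linarith only [m0]) (by omega)
        nlinarith only [m0, this]
      rw [mul_assoc (P.μ 0 ^ 13)]
      (clear * - h2 b0; gcongr))
    (by
      have e0 : x (P.s - 1) = fun u => P.R.X (P.s - 1) + u * P.ξ (P.s - 1) :=
        funext fun u => sx0 g P _
      have e1 : x P.s = fun u => P.R.X P.s + u * P.ξ P.s := funext fun u => sx1 g P _
      simp [e0, e1, mul_comm])
    (by
      obtain d0 := ((cp (P.s - 1) le_rfl (by omega)).differentiableAt (by simp)).hasDerivAt.const_mul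
        (P.ξ P.s)
      obtain d1 := ((cp P.s (by omega) (by omega)).differentiableAt (by simp)).hasDerivAt.const_mul
        (P.ξ (P.s - 1))
      have e : (fun u => P.ξ P.s * p (P.s - 1) u) = fun u => P.ξ (P.s - 1) * p P.s u :=
        funext fun u => se_line g P _
      rw [e] at d0
      simp [d0.unique d1])
    (by simp [ev1.deriv_eq])
    (by
      obtain dJ : HasDerivAt (y P.J) 0 v :=
        hd ▸ IFT.hasDerivAt_snd (Φ := fun w => sy g P w P.J)
          ((hsm P.J (by omega) le_rfl).2.differentiableAt (by simp))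
      obtain d0 := ((cy 0 (by omega) (by omega)).differentiableAt (by simp)).hasDerivAt
      have := (dJ.div d0 h0).deriv
      have e : y P.J v = 0 := hJ
      rw [e] at this
      have e2 : p P.J = y P.J / y 0 := rfl
      simp [e2, this])
  obtain ⟨H0, H1⟩ := H
  have L1 := h.ct.L1
  simp only [mul_zero, zero_mul, add_zero, zero_add] at H0 H1
  obtain x0 : |deriv (x 0) v| = 0 := le_antisymm (by nlinarith only [H0, L1, abs_nonneg (deriv (x 0) v)]) (abs_nonneg _)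
  obtain a0 := (H1 (P.s - 1) le_rfl (by omega)).1
  obtain a1 := (H1 P.s (by omega) (by omega)).1
  rw [x0, zero_mul, abs_nonpos_iff] at a0 a1
  have e0 : x (P.s - 1) = fun u => P.R.X (P.s - 1) + u * P.ξ (P.s - 1) := funext fun u => sx0 g P _
  have e1 : x P.s = fun u => P.R.X P.s + u * P.ξ P.s := funext fun u => sx1 g P _
  rw [e0] at a0
  rw [e1] at a1
  simp at a0 a1
  rcases xi_ne h with c | c
  · exact c a0
  · exact c a1

end SM

open SM in
theorem sm (hG : MG_s) (hJt : STJ_s) (hL : LS_s) (hA : AP0_s) (hD : D0_s) : SM_s := by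
  intro g N E P h hR hN hE hh hex
  choose! X η hS hT using hex
  have hr := hR.r0
  have hs := hR.ct.hc.s0
  have hJ := hR.ct.fc.J1
  obtain ht : ∀ τ ∈ Set.Ioo (P.t0 - h) (P.t0 + h), |τ - P.t0| ≤ P.r := fun τ a =>
    abs_le.2 ⟨by linarith only [hh, hr, a.1], by linarith only [hh, hr, a.2]⟩
  obtain hT' : ∀ τ ∈ Set.Ioo (P.t0 - h) (P.t0 + h), Tube P.R (X τ) (P.s - 1) P.J P.r :=
    fun τ a j b c => (hT τ a j b c).trans (by linarith only [hr])
  refine ⟨⟨fun j τ => X τ j, fun j τ => η τ j⟩, fun τ hτ => ⟨hS τ hτ, hT τ hτ, ?_⟩⟩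
  obtain ⟨v, h0, hz, hv⟩ := repr hR (hS τ hτ)
  obtain hTv : Tube P.R (sx g P (τ, v)) (P.s - 1) P.J P.r := fun j a b => by
    rw [(hv j a b).1]; exact hT' τ hτ j a b
  have hsm := smooth hG hR (z := (τ, v)) (ht τ hτ) hTv
  obtain ⟨ψ, c1, c2, c3, -⟩ := IFT.local_root (n := ∞) (by simp) (hsm P.J (by omega) le_rfl).2
    (nondeg hG hJt hL hA hR hN hE (ht τ hτ) hTv h0 hz)
  have hin : ContDiffAt ℝ ∞ (fun q : ℝ => ((q, ψ q) : ℝ × ℝ)) τ := contDiffAt_id.prodMk c1
  obtain cx : ∀ j, P.s - 1 ≤ j → j ≤ P.J → ContDiffAt ℝ ∞ (fun q => sx g P (q, ψ q) j) τ :=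
    fun j a b => ContDiffAt.comp (g := fun w => sx g P w j) τ (by rw [c2]; exact (hsm j a b).1) hin
  obtain cy : ∀ j, P.s - 1 ≤ j → j ≤ P.J → ContDiffAt ℝ ∞ (fun q => sy g P (q, ψ q) j) τ :=
    fun j a b => ContDiffAt.comp (g := fun w => sy g P w j) τ (by rw [c2]; exact (hsm j a b).2) hin
  obtain h0' : sy g P (τ, ψ τ) 0 ≠ 0 := by rw [c2]; exact h0
  obtain e1 : ∀ᶠ q in 𝓝 τ, ∀ j ∈ Set.Icc (P.s - 1) P.J, |sx g P (q, ψ q) j - P.R.X j| < P.r := by
    refine (eventually_all_finite (Set.finite_Icc _ _)).2 fun j a => ?_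
    refine (((cx j a.1 a.2).continuousAt.sub continuousAt_const).abs).eventually_lt
      continuousAt_const ?_
    show |sx g P (τ, ψ τ) j - P.R.X j| < P.r
    rw [c2, (hv j a.1 a.2).1]
    exact (hT τ hτ j a.1 a.2).trans_lt (by linarith only [hr])
  obtain e2 : ∀ᶠ q in 𝓝 τ, ∀ j, P.s - 1 ≤ j → j ≤ P.J →
      X q j = sx g P (q, ψ q) j ∧ η q j = se g P (q, ψ q) j := by
    filter_upwards [e1, c3, isOpen_Ioo.mem_nhds hτ,
      (cy 0 (by omega) (by omega)).continuousAt.eventually_ne h0'] with q a b c d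
    exact uniq hA hD hR hE (ht q c) (sol g P (q, ψ q) d (b.trans hz)) (hS q c)
      (fun j u w => (a j ⟨u, w⟩).le) (hT' q c)
  intro j a b
  exact ⟨(cx j a b).congr_of_eventuallyEq (e2.mono fun q hq => (hq j a b).1),
    ((cy j a b).div (cy 0 (by omega) (by omega)) h0').congr_of_eventuallyEq
      (e2.mono fun q hq => (hq j a b).2)⟩

end
end Pool.Agent.MP_9cbfe4_an.SS

end

/-! ### Part SEP -/

section

/-! Section S, row SEP: separation at `s - 1` is seen in the label (helper28). -/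

namespace Pool.Agent.MP_9cbfe4_an.SS

open Finset

namespace SEP

/-- one step for the difference of two orbits minus a multiple of the tangent -/
theorem step (h0 : ST0_s) {g : R3 → ℝ} {U : Set R3} {N e : ℕ} {a b m dl Λ r τ x y x' y' p q u : ℝ}
    (h : LM g U N a b m dl (Λ ^ 2 * r)) (hz : (τ, x, y) ∈ U) (hz' : (τ, x', y') ∈ U)
    (hΛ : 1000 ≤ Λ) (hm : m ≤ Λ) (hb : b ≤ Λ) (hr : 0 ≤ r) (hx : |x' - x| ≤ 2 * r)
    (hy : |y' - y| ≤ 2 * r) (hu : |u| ≤ 2 * r) (hp : |p| ≤ Λ ^ e) (hq : |q| ≤ Λ ^ e) :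
    |g (τ, x', y') - g (τ, x, y) - u * (ga g (τ, x, y) * p + gb g (τ, x, y) * q)
      - a * (x' - x - u * p) - b * (y' - y - u * q)| ≤
      u ^ 2 * Λ ^ (2 * e + 3) + r * Λ ^ (e + 3) * (|x' - x - u * p| + b * |y' - y - u * q|) := by
  have h1 := (h0 g U N a b m dl _ h _ hz _ hz').2.1
  have ha := h.ha _ hz
  have hb' := h.hb _ hz
  have b0 := h.b0
  simp only [sub_self, mul_zero, sub_zero] at h1
  obtain e1 : pg dl b ((τ, x', y') - (τ, x, y)) = max |x' - x| (b * |y' - y|) := by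
    simp [pg]
  rw [e1] at h1
  generalize g (τ, x', y') - g (τ, x, y) = F at h1 ⊢
  generalize ga g (τ, x, y) = A at h1 ha ⊢
  generalize gb g (τ, x, y) = B at h1 hb' ⊢
  set Y := x' - x - u * p with hY
  set Y' := y' - y - u * q with hY'
  set π := max |x' - x| (b * |y' - y|) with hπ
  set z := |Y| + b * |Y'| with hzz
  set T := Λ ^ e with hT
  obtain T1 : 1 ≤ T := one_le_pow₀ (by linarith only [hΛ])
  obtain z0 : 0 ≤ z := by (clear * - b0; positivity)
  have π0 : 0 ≤ π := le_max_of_le_left (abs_nonneg _)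
  have u0 := abs_nonneg u
  obtain p1 : π ≤ 2 * r * Λ := by
    refine max_le (hx.trans (le_mul_of_one_le_right (by linarith only [hr]) (by linarith only [hΛ]))) ?_
    rw [mul_comm]
    exact mul_le_mul hy hb b0.le (by linarith only [hr])
  obtain p2 : π ≤ z + |u| * (T * Λ) := by
    obtain k1 : |x' - x| ≤ |Y| + |u| * T := by
      rw [show x' - x = Y + u * p by rw [hY]; ring]
      refine (abs_add_le _ _).trans ?_
      rw [abs_mul]
      linarith only [mul_le_mul_of_nonneg_left hp u0]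
    obtain k2 : |y' - y| ≤ |Y'| + |u| * T := by
      rw [show y' - y = Y' + u * q by rw [hY']; ring]
      refine (abs_add_le _ _).trans ?_
      rw [abs_mul]
      linarith only [mul_le_mul_of_nonneg_left hq u0]
    obtain k3 : 0 ≤ |u| * T := by positivity
    have k4 := mul_le_mul_of_nonneg_left hb k3
    obtain k5 := mul_le_mul_of_nonneg_left (show 1 ≤ Λ by linarith only [hΛ]) k3
    have k6 := mul_le_mul_of_nonneg_left k2 b0.le
    obtain k7 : 0 ≤ b * |Y'| := by (clear * - b0; positivity)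
    refine max_le (by linarith only [k1, k5, k7]) (by linarith only [k4, k6, abs_nonneg Y])
  obtain TL : 0 ≤ T * Λ := by positivity
  obtain p3 : π ^ 2 ≤ 4 * (r * (T * Λ)) * z + u ^ 2 * (T * Λ) ^ 2 := by
    have k1 := mul_le_mul_of_nonneg_left p2 π0
    have k2 := mul_le_mul_of_nonneg_right p1 z0
    have k3 := mul_le_mul_of_nonneg_right p2 (mul_nonneg u0 TL)
    have k4 := mul_le_mul_of_nonneg_right hu (mul_nonneg TL z0)
    obtain k5 := mul_le_mul_of_nonneg_right T1 (show 0 ≤ r * Λ * z by (clear * - hr hΛ b0; positivity))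
    obtain k6 : |u| * |u| = u ^ 2 := by rw [← abs_mul, ← sq, abs_of_nonneg (sq_nonneg u)]
    obtain k7 : |u| * (T * Λ) * (|u| * (T * Λ)) = u ^ 2 * (T * Λ) ^ 2 := by rw [← k6]; ring
    linarith only [k1, k2, k3, k4, k5, k7]
  obtain p4 : m * π ^ 2 ≤ Λ * (4 * (r * (T * Λ)) * z + u ^ 2 * (T * Λ) ^ 2) :=
    mul_le_mul hm p3 (sq_nonneg _) (by linarith only [hΛ])
  obtain p5 : |(A - a) * Y + (B - b) * Y'| ≤ Λ ^ 2 * r * z := by
    refine (abs_add_le _ _).trans ?_
    rw [abs_mul, abs_mul]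
    have k1 := mul_le_mul_of_nonneg_right ha (abs_nonneg Y)
    have k2 := mul_le_mul_of_nonneg_right hb' (abs_nonneg Y')
    rw [hzz]
    linarith only [k1, k2]
  rw [show F - u * (A * p + B * q) - a * Y - b * Y' =
    F - A * (x' - x) - B * (y' - y) + ((A - a) * Y + (B - b) * Y') by rw [hY, hY']; ring,
    show Λ ^ (2 * e + 3) = Λ * (T * Λ) ^ 2 by rw [hT]; ring,
    show Λ ^ (e + 3) = T * Λ ^ 2 * Λ by rw [hT]; ring]
  refine (abs_add_le _ _).trans ?_
  obtain q0 : 0 ≤ Λ ^ 2 * r * z := by (clear * - hΛ hr b0; positivity)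
  have q1 := mul_le_mul_of_nonneg_right T1 q0
  have q2 := mul_le_mul_of_nonneg_right hΛ (mul_nonneg (zero_le_one.trans T1) q0)
  have q3 := mul_nonneg (zero_le_one.trans T1) q0
  linarith only [h1, p4, p5, q0, q1, q2]

end SEP

theorem sep (h0 : ST0_s) (hB : APB_s) : SEP_s := by
  intro g N E e P τ X η X' G hR hE ht hX hη hX' hG η0 tu tu' hηb hu
  have hc := hR.ct.hc
  have s0 := hc.s0
  have J1 := hR.ct.fc.J1
  have r0 := hR.r0
  obtain top : ∀ j, P.s - 1 ≤ j → j ≤ 0 → P.μ j ≤ P.Λ := fun j a b => hR.ct.top j a (by omega)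
  obtain hΛ : 1000 ≤ P.Λ := (hc.big 0 (by omega) le_rfl).trans (top 0 (by omega) le_rfl)
  obtain Λ1 : 1 ≤ P.Λ := by linarith only [hΛ]
  obtain ble : ∀ j, P.s ≤ j → j ≤ 0 → P.R.b j ≤ P.Λ := fun j a b => by
    have := hc.bmu 0 (Nat.zero_le _) j a b
    rw [pow_zero, mul_one, zero_add, pow_one] at this
    exact this.trans (top j (by omega) b)
  obtain dif : ∀ j, P.s ≤ j → j ≤ 0 → |X' j - X j| ≤ 2 * P.r := fun j a b => by
    have := abs_sub_le (X' j) (P.R.X j) (X j)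
    rw [abs_sub_comm (P.R.X j)] at this
    linarith only [this, tu j (by omega) b, tu' j a b]
  set u := X' 0 - X 0 with hu0
  obtain ⟨Y, hY⟩ : ∃ Y : ℤ → ℝ, ∀ j, Y j = X' j - X j - u * η j := ⟨_, fun _ => rfl⟩
  obtain ⟨α, hα⟩ : ∃ α, α = u ^ 2 * P.Λ ^ (2 * e + 3) := ⟨_, rfl⟩
  obtain ⟨ρ, hρ⟩ : ∃ ρ, ρ = P.r * P.Λ ^ (e + 3) := ⟨_, rfl⟩
  obtain α0 : 0 ≤ α := by rw [hα]; (clear * - hΛ; positivity)
  obtain ρ0 : 0 ≤ ρ := by rw [hρ]; positivity
  obtain ρ1 : ρ * P.Λ ^ 10 ≤ 1 := by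
    rw [hρ, mul_assoc, ← pow_add]
    exact (mul_le_mul_of_nonneg_left (pow_le_pow_right₀ Λ1 (by omega)) r0.le).trans hR.rE
  obtain ρ2 : ρ ≤ 1 / 2 := by
    obtain this : 2 ≤ P.Λ ^ 10 := le_trans (by linarith only [hΛ]) (le_self_pow₀ Λ1 (by norm_num))
    linarith only [ρ1, mul_le_mul_of_nonneg_left this ρ0]
  obtain Y0 : Y 0 = 0 := by rw [hY, η0, hu0]; ring
  obtain mem : ∀ j, P.s ≤ j → j ≤ 0 → (τ, X j, X (j - 1)) ∈ UB P.R P.t0 P.r j := fun j a b =>
    ⟨ht, tu j (by omega) b, tu (j - 1) (by omega) (by omega)⟩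
  obtain st : ∀ j, P.s < j → j ≤ 0 → |P.R.df Y j| ≤ α + ρ * P.R.sz Y j := fun j a b => by
    obtain this := SEP.step h0 (hR.lm j a.le (by omega)) (mem j a.le b)
      (show (τ, X' j, X' (j - 1)) ∈ _ from ⟨ht, tu' j a.le b, tu' (j - 1) (by omega) (by omega)⟩)
      hΛ (top j (by omega) b) (ble j a.le b) r0.le (dif j a.le b) (dif (j - 1) (by omega) (by omega))
      (dif 0 s0 le_rfl) (hηb j (by omega) b) (hηb (j - 1) (by omega) (by omega))
    rw [← hX j a.le (by omega), ← hX' j a (by omega), ← hη j a.le (by omega), ← hu0, ← hα, ← hρ,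
      ← hY, ← hY, ← hY] at this
    exact this
  have bs := hc.bpos P.s le_rfl s0
  obtain sts := SEP.step h0 (hR.lm P.s le_rfl (by omega)) (mem P.s le_rfl s0)
      (show (τ, X' P.s, X (P.s - 1)) ∈ _ from ⟨ht, tu' _ le_rfl s0, tu _ le_rfl (by omega)⟩)
      hΛ (top _ (by omega) s0) (ble _ le_rfl s0) r0.le (dif _ le_rfl s0)
      (by rw [sub_self, abs_zero]; linarith only [r0])
      (dif 0 s0 le_rfl) (hηb _ (by omega) s0) (hηb (P.s - 1) le_rfl (by omega))
  rw [← hX _ le_rfl (by omega), ← sub_eq_iff_eq_add.2 hG, ← hη _ le_rfl (by omega), ← hu0, ← hα,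
    ← hρ, ← hY, sub_self, zero_sub, abs_neg] at sts
  obtain ⟨H, hH⟩ : ∃ H, H = Y (P.s + 1) - P.R.a P.s * Y P.s := ⟨_, rfl⟩
  obtain hG2 : |G| ≤ 2 * (|H| + |Y P.s| + α) := by
    obtain k1 : P.R.b P.s * |u * η (P.s - 1)| * 1000 ≤ |G| := by
      refine le_trans ?_ hu
      rw [abs_mul, pow_succ, ← mul_assoc, ← mul_assoc]
      exact mul_le_mul (mul_le_mul_of_nonneg_left (hηb _ le_rfl (by omega)) (by (clear * - bs; positivity))) hΛ
        (by norm_num) (by (clear * - bs hΛ; positivity))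
    obtain k2 : |G| ≤ |H| + P.R.b P.s * |u * η (P.s - 1)| + |X' (P.s + 1) - G - X (P.s + 1)
        - u * η (P.s + 1) - P.R.a P.s * Y P.s - P.R.b P.s * -(u * η (P.s - 1))| := by
      rw [← abs_of_pos bs, ← abs_mul, abs_of_pos bs]
      refine le_trans (le_of_eq ?_) ((abs_sub _ _).trans (add_le_add (abs_add_le _ _) le_rfl))
      congr 1
      rw [hH, hY (P.s + 1)]
      ring
    obtain k3 := mul_le_mul_of_nonneg_right ρ2
      (show 0 ≤ |Y P.s| + P.R.b P.s * |u * η (P.s - 1)| by (clear * - bs; positivity))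
    linarith only [sts, k1, k2, k3, abs_nonneg G, abs_nonneg (Y P.s)]
  obtain ⟨Z, Z1, Z2⟩ : ∃ Z : ℤ → ℝ, Z (P.s - 1) = H / P.R.b P.s ∧ ∀ j, P.s ≤ j → Z j = Y j :=
    ⟨fun j => if j < P.s then H / P.R.b P.s else Y j, if_pos (by omega),
      fun j hj => if_neg (not_lt.2 hj)⟩
  have b0 := hc.bpos 0 s0 le_rfl
  obtain hZ : P.R.b 0 * |Z (-1)| ≤ 2 * (|Y 1| + α) := by
    rcases s0.eq_or_lt with h | h
    · rw [h] at Z1 hH
      rw [zero_sub] at Z1
      rw [Z1, hH, Y0, abs_div, abs_of_pos b0, mul_div_cancel₀ _ b0.ne']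
      simp only [zero_add, mul_zero, sub_zero]
      linarith only [α0, abs_nonneg (Y 1)]
    · have k1 := st 0 h le_rfl
      simp only [Sq.df, Sq.sz, Y0, zero_add, zero_sub, mul_zero, sub_zero, abs_zero] at k1
      rw [Z2 _ (by omega)]
      have k2 := abs_sub_abs_le_abs_sub (P.R.b 0 * Y (-1)) (Y 1)
      rw [abs_sub_comm, abs_mul, abs_of_pos b0] at k2
      obtain k3 := mul_le_mul_of_nonneg_right ρ2 (show 0 ≤ P.R.b 0 * |Y (-1)| by (clear * - b0; positivity))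
      linarith only [k1, k2, k3]
  obtain ap := hB P.R E P.ξ P.w P.μ Z P.s P.Λ α ρ hc (top _ le_rfl (by omega)) α0 ρ0 ρ1
    (fun j a b => by
      rcases a.eq_or_lt with h | h
      · subst h
        obtain this : P.R.df Z P.s = 0 := by
          rw [Sq.df, Z1, Z2 _ le_rfl, Z2 _ (by omega), mul_div_cancel₀ _ bs.ne', hH]
          ring
        rw [this, abs_zero, Sq.sz]
        (clear * - α0 ρ0 bs; positivity)
      · have := st j h b.le
        unfold Sq.df Sq.sz at this ⊢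
        rwa [Z2 _ a, Z2 (j + 1) (by omega), Z2 (j - 1) (by omega)])
    (by rw [Z2 _ s0, Y0])
  obtain w0 := hc.wpos 0 (by omega) le_rfl
  obtain ws := hc.wpos P.s (by omega) s0
  have Pb0 : 0 ≤ P.R.Pb P.s 0 := prod_nonneg fun l hl =>
    (hc.bpos l (mem_Ioc.1 hl).1.le (mem_Ioc.1 hl).2).le
  obtain κ0 : 0 ≤ P.R.kp P.w P.s 0 := by unfold Sq.kp; (clear * - Pb0 ws w0; positivity)
  obtain κ1 : P.R.kp P.w P.s 0 ≤ P.Λ := by
    obtain this := hc.kap 0 (Nat.zero_le _) P.s 0 (by omega) s0 le_rfl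
    rw [pow_zero, mul_one, zero_add, pow_one] at this
    exact this.trans ((mul_le_of_le_one_right (by linarith only [s0, hc.big 0 (by omega) le_rfl])
      (pow_le_one₀ (by norm_num) (by norm_num))).trans (top 0 (by omega) le_rfl))
  obtain a1 := ap P.s (by omega) s0
  rw [Z2 _ le_rfl] at a1
  obtain a2 : |H| * P.R.kp P.w P.s 0 ≤ P.Λ * (|Z (P.s - 1)| * P.R.kp P.w (P.s - 1) 0) := by
    obtain k1 : P.w P.s ≤ P.Λ * P.w (P.s - 1) := by
      obtain this := hc.fwd (P.s - 1) le_rfl (by omega)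
      rw [sub_add_cancel] at this
      exact this.trans (mul_le_mul_of_nonneg_right (top _ (by omega) s0)
        (hc.wpos _ le_rfl (by omega)).le)
    obtain k2 : P.R.Pb (P.s - 1) 0 = P.R.b P.s * P.R.Pb P.s 0 := by
      have := P.R.Pb_one (P.s - 1)
      rw [sub_add_cancel] at this
      rw [P.R.Pb_mul (show P.s - 1 ≤ P.s by omega) s0, this]
    unfold Sq.kp
    rw [Z1, k2, abs_div, abs_of_pos bs]
    calc _ = |H| * P.R.Pb P.s 0 / P.w 0 * P.w P.s := by ring
      _ ≤ |H| * P.R.Pb P.s 0 / P.w 0 * (P.Λ * P.w (P.s - 1)) :=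
          mul_le_mul_of_nonneg_left k1 (by (clear * - Pb0 w0; positivity))
      _ = _ := by field_simp
  obtain a3 := mul_le_mul_of_nonneg_left (ap (P.s - 1) le_rfl (by omega)) (zero_le_one.trans Λ1)
  obtain ⟨B, hBd⟩ : ∃ B, B = |Y 1| + u ^ 2 := ⟨_, rfl⟩
  have T1 : 1 ≤ P.Λ ^ (2 * e + 3) := one_le_pow₀ Λ1
  obtain B0 : 0 ≤ B := by rw [hBd]; (clear * -; positivity)
  obtain B1 : |Y 1| + α ≤ P.Λ ^ (2 * e + 3) * B := by
    rw [hBd, hα]
    linarith only [mul_le_mul_of_nonneg_right T1 (abs_nonneg (Y 1))]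
  rw [show X' 1 - X 1 - η 1 * u = Y 1 by rw [hY]; ring, ← hBd]
  obtain ⟨C, hC⟩ : ∃ C, C = P.Λ ^ (2 * e + 3) * B := ⟨_, rfl⟩
  rw [show P.Λ ^ (2 * e + 20) * B = P.Λ ^ 9 * (P.Λ ^ 8 * C) by rw [hC]; ring]
  rw [← hC] at B1
  obtain C0 : 0 ≤ C := by rw [hC]; positivity
  obtain c1 : P.Λ ^ 7 * (P.R.b 0 * |Z (-1)| + α) ≤ P.Λ ^ 7 * (3 * C) :=
    mul_le_mul_of_nonneg_left (by linarith only [hZ, B1, abs_nonneg (Y 1)]) (by positivity)
  have c2 := mul_le_mul_of_nonneg_left c1 (zero_le_one.trans Λ1)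
  obtain c3 : P.Λ ^ 7 * C ≤ P.Λ ^ 8 * C :=
    mul_le_mul_of_nonneg_right (pow_le_pow_right₀ Λ1 (by norm_num)) C0
  obtain c4 : α * P.R.kp P.w P.s 0 ≤ P.Λ ^ 8 * C := by
    rw [mul_comm]
    exact mul_le_mul (κ1.trans (le_self_pow₀ Λ1 (by norm_num))) (by linarith only [B1, abs_nonneg (Y 1)]) α0
      (by positivity)
  obtain c5 : 1000 * (P.Λ ^ 8 * C) ≤ P.Λ ^ 9 * (P.Λ ^ 8 * C) :=
    mul_le_mul_of_nonneg_right (hΛ.trans (le_self_pow₀ Λ1 (by norm_num))) (by (clear * - hΛ C0; positivity))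
  have c6 := mul_le_mul_of_nonneg_right hG2 κ0
  obtain c7 : P.Λ * (P.Λ ^ 7 * (3 * C)) = 3 * (P.Λ ^ 8 * C) := by ring
  obtain c8 : 0 ≤ P.Λ ^ 8 * C := by (clear * - hΛ C0; positivity)
  linarith only [a1, a2, a3, c1, c2, c3, c4, c5, c6, c8]

end Pool.Agent.MP_9cbfe4_an.SS

end

/-! ### Part EAint -/

section

/-! Rows INT, E1, UC of section E-A (helper1). -/

namespace Pool.Agent.MP_9cbfe4_an.E

open Finset
open scoped Classical

noncomputable section

namespace Sk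
variable {k : EK} {S : Sk} {La : ℕ → ℕ → ℝ}

theorem eaint_pow (fa : S.Fa k) (a b : ℕ) (h : a ≤ b) : k.g ^ a ≤ k.g ^ b :=
  pow_le_pow_right₀ (by linarith only [fa.g10]) h

theorem eaint_sig (fa : S.Fa k) (l : ℕ) (h : l < S.N) : 100 ≤ S.σ k l :=
  le_trans fa.Λ10 (fa.σΛ l h)

theorem eaint_th (fa : S.Fa k) : 10 ^ 5 * k.g ^ 7 * k.θ ≤ 1 ∧ k.θ ≤ 1 / 4 := by
  obtain hK : (10 : ℝ) ≤ k.K := by exact_mod_cast fa.K10
  obtain h1 : (1 : ℝ) ≤ k.g ^ 7 := one_le_pow₀ (by linarith only [fa.g10])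
  obtain h2 := eaint_pow fa 7 10 (by norm_num)
  have h3 := fa.θH
  have h4 := fa.θpos
  obtain h5 : (1 : ℝ) ≤ (k.K : ℝ) ^ 2 := one_le_pow₀ (by linarith only [hK])
  have h6 : k.g ^ 7 * k.θ ≤ k.g ^ 10 * k.θ := mul_le_mul_of_nonneg_right h2 h4.le
  obtain h7 : 0 ≤ k.g ^ 10 * k.θ := mul_nonneg (by linarith only [h1, h2]) h4.le
  have h8 : k.g ^ 10 * k.θ ≤ (k.K : ℝ) ^ 2 * (k.g ^ 10 * k.θ) := le_mul_of_one_le_left h7 h5
  have h9 : k.θ ≤ k.g ^ 7 * k.θ := le_mul_of_one_le_left h4.le h1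
  constructor <;> linarith only [h3, h4, h6, h8, h9]

theorem int (fa : S.Fa k) (jet : S.Jet k La) : S.INT_s k La := by
  intro z i y st hi hyz hq hnq l hyl hlz j hj hji g hg0 hg3
  have hzN : z < S.N := st.isRec.1.1
  have hlN : l < S.N := lt_of_le_of_lt hlz hzN
  have hyN : y < S.N := lt_trans hyz hzN
  have hg := fa.g10
  obtain hK : (i : ℝ) ≤ k.K := by exact_mod_cast st.kK
  obtain hi' : (4 : ℝ) ≤ i := by exact_mod_cast hi
  obtain hj' : (1 : ℝ) ≤ j := by exact_mod_cast hj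
  obtain hji' : (j : ℝ) + 1 ≤ i := by exact_mod_cast hji
  obtain hd : (0 : ℝ) < 2 * i - 1 := by linarith only [hi']
  have hsy := eaint_sig fa y hyN
  have hsl := eaint_sig fa l hlN
  have hRy : 0 < S.R y := hq.1
  obtain p1 := eaint_pow fa 1 7 (by norm_num)
  obtain p6 := eaint_pow fa 6 7 (by norm_num)
  rw [pow_one] at p1
  obtain hg7 : g + k.g ≤ 10 ^ 4 * k.g ^ 7 := by
    unfold EK.g3 at hg3
    linarith only [hg3, hg, p1, p6]
  obtain hk1 : 30 ≤ k.k1 := by unfold EK.k1; linarith only [hg]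
  obtain hG : 0 ≤ k.G := by unfold EK.G; positivity
  obtain ⟨a, ha⟩ : ∃ a : ℝ, a = 2 * ((i : ℝ) - j) / (2 * i - 1) := ⟨_, rfl⟩
  obtain had : a * (2 * i - 1) = 2 * ((i : ℝ) - j) := by rw [ha]; field_simp
  obtain ha1 : a ≤ 1 := by rw [ha, div_le_one hd]; linarith only [hj']
  obtain ha0 : 0 ≤ a := by rw [ha]; apply div_nonneg <;> linarith only [hji', hi']
  obtain haK : 1 ≤ 10 * k.K * a := by
    obtain h1 : a * (2 * i - 1) ≤ a * (2 * k.K) := mul_le_mul_of_nonneg_left (by linarith only [hK]) ha0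
    obtain h2 : 0 ≤ a * k.K := mul_nonneg ha0 (by linarith only [hK, hi'])
    linarith only [hji', had, h1]
  rw [← ha]
  obtain hV : ∀ x, S.V (2 * j - 1) x = (1 - a) * S.V (2 * i - 1) x - a * S.ω x := by
    intro x
    unfold V
    obtain this : (1 - a) * (2 * i - 1) = 2 * j - 1 := by linarith only [had]
    rw [← this]
    ring
  obtain hks : 0 ≤ k.k1 * S.σ k y := by positivity
  obtain hgks : 0 ≤ k.g * (k.k1 * S.σ k y) := by positivity
  obtain hGs : 0 ≤ k.G * S.σ k y := by positivity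
  rcases lt_or_eq_of_le hlz with hlt | heq
  · rcases (fa.ok.R0 l).lt_or_eq with hR | hR
    · have h1 : ¬ |La i z| ≤ 4 * Real.exp (k.G * S.σ k l + S.V (2 * i - 1) l) :=
        fun h => hnq l hyl hlt ⟨hR, h⟩
      have h2 := hq.2
      obtain h3 : Real.exp (k.G * S.σ k l + S.V (2 * i - 1) l)
          < Real.exp (k.G * S.σ k y + S.V (2 * i - 1) y) := by linarith only [h2, not_le.mp h1]
      have h4 := Real.exp_lt_exp.mp h3
      obtain h5 : 0 ≤ k.G * S.σ k l := by positivity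
      obtain h6 : S.V (2 * i - 1) l ≤ S.V (2 * i - 1) y + k.G * S.σ k y := by linarith only [h4, h5]
      obtain h7 := mul_le_mul_of_nonneg_left h6 (show 0 ≤ 1 - a by linarith only [ha1])
      obtain h8 := fa.ml y l hyl hlN g a hg0 (by linarith only [hg, hg7]) haK ha1
      obtain h9 : 0 ≤ a * (k.G * S.σ k y) := by (clear * - ha0 hG hsy; positivity)
      rw [hV l, hV y]
      linarith only [hks, hgks, h7, h8, h9]
    · obtain h8 := fa.ml y l hyl hlN g 1 hg0 (by linarith only [hg, hg7]) (by linarith only [hK, hi']) le_rfl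
      obtain h9 : 0 ≤ (2 * (j : ℝ) - a) * S.R y := mul_nonneg (by linarith only [hj', ha1]) hRy.le
      unfold V
      rw [← hR]
      linarith only [hks, hgks, hGs, h8, h9]
  · subst heq
    obtain h1 := (jet.j2 l i st.kK st.isRec st.str st.canc i (by omega) le_rfl).1
    have h2 := hq.2
    obtain h3 : (4 : ℝ) ≤ Real.exp 3 := by linarith only [Real.add_one_le_exp 3]
    obtain h4 : Real.exp (S.V (2 * i - 1) l - k.g * S.σ k l)
        ≤ Real.exp (3 + (k.G * S.σ k y + S.V (2 * i - 1) y)) := by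
      rw [Real.exp_add 3]
      exact le_trans (le_trans h1 h2) (mul_le_mul_of_nonneg_right h3 (Real.exp_pos _).le)
    have h5 := Real.exp_le_exp.mp h4
    obtain h6 : S.V (2 * i - 1) l ≤ S.V (2 * i - 1) y + (k.G * S.σ k y + 3 + k.g * S.σ k l) := by
      linarith only [h5]
    obtain h7 := mul_le_mul_of_nonneg_left h6 (show 0 ≤ 1 - a by linarith only [ha1])
    obtain h8 := fa.ml y l hyl hlN (g + k.g) a (by linarith only [hg0, hg]) hg7 haK ha1
    obtain h9 : 0 ≤ a * (k.G * S.σ k y + 3 + k.g * S.σ k l) := by (clear * - ha0 hG hsy hg hsl; positivity)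
    obtain h10 : 3 ≤ k.k1 * S.σ k y := by nlinarith only [hsy, hk1]
    rw [hV l, hV y]
    linarith only [h7, h8, h9, h10]

theorem eaint_rc (x : ℕ) (h : S.Rec x) : S.rc k x ≤ S.R x := by
  unfold rc
  rw [Finset.fold_max_le]
  refine ⟨h.1.2.le, fun l hl => h.2 l ?_⟩
  exact mem_range.mp (mem_filter.mp hl).1

theorem e1 (fa : S.Fa k) : S.E1_s k La := by
  intro x hx hT hF
  have hN : x < S.N := hx.1.1
  have hR : 0 < S.R x := hx.1.2
  have hs := eaint_sig fa x hN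
  have hg := fa.g10
  obtain hc2 : 0 ≤ k.c2 := by unfold EK.c2; positivity
  obtain hcs : 0 ≤ k.c2 * S.σ k x := by positivity
  obtain hUp : S.Up k x ≤ S.R x + k.c2 * S.σ k x := by
    by_contra hc
    have hc := not_le.mp hc
    refine hT ⟨hx.1, by (rename_i zq0; linarith only [hR, hcs, zq0]), fun j hj hj3 => le_trans (hF j hj hj3) ?_⟩
    obtain hj' : (1 : ℝ) ≤ j := by exact_mod_cast hj
    apply Real.exp_le_exp.mpr
    obtain h1 : 0 ≤ (2 * (j : ℝ) - 2) * (S.Up k x - S.R x) := mul_nonneg (by linarith only [hj']) (by (rename_i zq0; linarith only [hcs, zq0]))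
    (rename_i zq0; linarith only [zq0, h1])
  refine ⟨?_, hUp⟩
  obtain hK : (10 : ℝ) ≤ k.K := by exact_mod_cast fa.K10
  have h1 := eaint_rc (k := k) x hx
  obtain h2 : k.C5 * S.rc k x ≤ k.C5 * S.R x :=
    mul_le_mul_of_nonneg_left h1 (by unfold EK.C5; positivity)
  have h3 := fa.ok.lo x hN.le
  have h4 := fa.σlo x hN
  have h5 := fa.σD x hx.1
  have hW := fa.W0 x hN.le
  obtain ⟨t1, t2⟩ := eaint_th fa
  have hθ := fa.θpos
  obtain p5 : (1 : ℝ) ≤ k.g ^ 5 := one_le_pow₀ (by linarith only [hg, t2, hθ])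
  obtain h6 : (6 * k.c2 + 1) * S.σ k x ≤ 649 * k.g ^ 5 * (12 * k.g ^ 2 * k.θ ^ 2 * S.W x) := by
    apply mul_le_mul _ h5 (by linarith only [hs, t2, hθ]) (by positivity)
    unfold EK.c2
    linarith only [p5]
  obtain h7 : 649 * k.g ^ 5 * (12 * k.g ^ 2 * k.θ ^ 2 * S.W x)
      = 7788 * (k.g ^ 7 * k.θ) * (k.θ * S.W x) := by ring
  obtain h8 : 0 ≤ k.θ * S.W x := by positivity
  obtain h9 : 7788 * (k.g ^ 7 * k.θ) * (k.θ * S.W x) ≤ 1 * (k.θ * S.W x) :=
    mul_le_mul_of_nonneg_right (by linarith only [t1, t2, hθ]) h8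
  have h10 : k.θ * S.W x ≤ 1 / 4 * S.W x := mul_le_mul_of_nonneg_right t2 hW
  have h11 : 10 * S.R x ≤ k.K * S.R x := mul_le_mul_of_nonneg_right hK hR.le
  unfold Up at hUp
  unfold Strong EK.Cw
  unfold EK.C5 at h2 hUp
  linarith only [hR, hUp, h2, h3, h4, h6, h9, h10, h11]

theorem uc (fa : S.Fa k) (jet : S.Jet k La) (e1 : S.E1_s k La) : S.UC_s k La := by
  intro u y i hu hy huy h3 hK hT hdeep hfour
  have hyN : y < S.N := hy.1
  have huN : u < S.N := hu.1.1
  have hR : 0 < S.R u := hu.1.2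
  have hs := eaint_sig fa u huN
  have hg := fa.g10
  obtain q3 : (1 : ℝ) ≤ k.g ^ 3 := one_le_pow₀ (by linarith only [hg])
  obtain p35 := eaint_pow fa 3 5 (by norm_num)
  obtain p37 := eaint_pow fa 3 7 (by norm_num)
  obtain p45 := eaint_pow fa 4 5 (by norm_num)
  obtain p15 := eaint_pow fa 1 5 (by norm_num)
  obtain p47 := eaint_pow fa 4 7 (by norm_num)
  obtain p58 := eaint_pow fa 5 8 (by norm_num)
  rw [pow_one] at p15
  obtain hKr : (10 : ℝ) ≤ k.K := by exact_mod_cast fa.K10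
  obtain hc1 : 1 ≤ k.c1 := by unfold EK.c1; linarith only [q3]
  obtain hc12 : k.c1 ≤ k.c2 := by unfold EK.c1 EK.c2; linarith only [hg, p35, p15]
  obtain hgc : k.g * k.c1 = 18 * k.g ^ 4 := by unfold EK.c1; ring
  obtain hgc2 : k.g * k.c1 * S.σ k u ≤ k.c2 * S.σ k u := by
    apply mul_le_mul_of_nonneg_right _ (by linarith only [hs])
    rw [hgc]; unfold EK.c2; linarith only [hg, p45, p15]
  obtain hml : ∀ x, u < x → x ≤ y →
      k.g * k.c1 * S.σ k x - S.ω x ≤ k.c2 * S.σ k u - S.ω u - S.R u := by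
    intro x hux hxy
    obtain h1 := fa.ml u x hux (lt_of_le_of_lt hxy hyN) (k.g * k.c1) 1 (by positivity)
      (by rw [hgc]; linarith only [q3, p37, p47]) (by linarith only [hKr]) le_rfl
    obtain h2 : (k.g * k.c1 + 2) * k.k1 * S.σ k u ≤ k.c2 * S.σ k u := by
      apply mul_le_mul_of_nonneg_right _ (by linarith only [hs])
      obtain this : (k.g * k.c1 + 2) * k.k1 = 54 * k.g ^ 5 + 6 * k.g := by
        unfold EK.c1 EK.k1; ring
      rw [this]; unfold EK.c2; linarith only [hg, p15]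
    linarith only [h1, h2]
  obtain hRx : ∀ (j : ℕ) x, 1 ≤ j → x ≤ y → (2 * (j : ℝ) - 1) * S.R x ≤ (2 * j - 1) * S.R u := by
    intro j x hj hxy
    obtain hj' : (1 : ℝ) ≤ j := by exact_mod_cast hj
    exact mul_le_mul_of_nonneg_left (hdeep x hxy) (by linarith only [hj'])
  obtain hflat : S.Flat k La k.c2 3 u (S.R u) := by
    intro j hj hj3
    obtain hj' : (1 : ℝ) ≤ j := by exact_mod_cast hj
    apply jet.four k.c1 hc1 hc12 y hy i hK hfour u huy.le j hj (le_trans hj3 h3)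
    · intro x hux hxy _
      rcases lt_or_eq_of_le hux with h | h
      · have h1 := hml x h hxy
        have h2 := hRx j x hj hxy
        unfold V
        linarith only [hR, h1, h2]
      · subst h
        unfold V
        linarith only [hgc2]
    · obtain this : 0 ≤ (2 * (j : ℝ) - 1) * S.R u := mul_nonneg (by linarith only [hj']) hR.le
      linarith only [hgc2, this]
  have hstr := (e1 u hu hT hflat).1
  refine ⟨hu, hstr, ?_, h3, hK⟩
  have h1 := fa.σS u hu.1 hstr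
  obtain h2 : k.c2 * S.σ k u ≤ 10 ^ 10 * k.K * k.g ^ 8 * S.σ k u := by
    apply mul_le_mul_of_nonneg_right _ (by linarith only [hs])
    unfold EK.c2
    obtain this : 10 * k.g ^ 8 ≤ k.K * k.g ^ 8 := mul_le_mul_of_nonneg_right hKr (by positivity)
    linarith only [hg, p15, p58, this]
  have h4 : k.θ * S.R u ≤ 1 / 4 * S.R u := mul_le_mul_of_nonneg_right (eaint_th fa).2 hR.le
  intro j hj hji
  obtain hj' : (1 : ℝ) ≤ j := by exact_mod_cast hj
  apply jet.four k.c1 hc1 hc12 y hy i hK hfour (u + 1) huy j hj hji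
  · intro x hux hxy _
    have h5 := hml x hux hxy
    have h6 := hRx j x hj hxy
    unfold V
    linarith only [hR, h1, h2, h4, h5, h6]
  · obtain h5 := hml (u + 1) (by omega) huy
    obtain h6 : 0 ≤ (2 * (j : ℝ) - 1) * S.R u := mul_nonneg (by linarith only [hj']) hR.le
    linarith only [hR, h1, h2, h4, h5, h6]

end Sk

end
end Pool.Agent.MP_9cbfe4_an.E

end

/-! ### Part EAchain -/

section

/-! Section E-A of THM-2, rows CHAIN and E2. -/

namespace Pool.Agent.MP_9cbfe4_an.E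

open Finset Function

namespace Sk
variable {k : EK} {S : Sk} {La : ℕ → ℕ → ℝ}

theorem chain (st : S.STEP_s k La) : S.CHAIN_s k La := by
  intro n
  induction n using Nat.strong_induction_on with
  | _ n ih =>
  intro i hs htf
  rcases Nat.lt_or_ge i 4 with h4 | h4
  · refine ⟨n, {n}, fun _ => i, id, id, mem_singleton_self n, mem_singleton_self n, rfl,
      fun z hz => ?_, ?_, fun z hz hn => absurd (mem_singleton.1 hz) hn⟩
    · rw [mem_singleton.1 hz]
      exact ⟨le_rfl, le_rfl, hs⟩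
    · rw [Icc_eq_empty (by omega), prod_empty, mul_one]
  obtain ⟨v, y, i', lk, sv, hr⟩ := st n i hs h4 htf
  have hvn : v < n := lt_of_le_of_lt lk.vy lk.yz
  obtain ⟨A, Z, kk, pv, yy, c⟩ := ih v hvn i' sv fun x hx => htf x (hx.trans hvn)
  have hz : ∀ z ∈ Z, z ≠ n := fun z hz => (lt_of_le_of_lt (c.mem z hz).2.1 hvn).ne
  refine ⟨A, insert n Z, update kk n i, update pv n v, update yy n y, mem_insert_of_mem c.AZ,
    mem_insert_self _ _, update_self _ _ _, fun z hz' => ?_, ?_, fun z hz' hA => ?_⟩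
  · rcases mem_insert.1 hz' with rfl | h
    · rw [update_self]
      exact ⟨(c.mem v c.nZ).1.trans hvn.le, le_rfl, hs⟩
    · rw [update_of_ne (hz z h)]
      exact ⟨(c.mem z h).1, (c.mem z h).2.1.trans hvn.le, (c.mem z h).2.2⟩
  · rcases hr with ⟨rfl, h⟩ | ⟨rfl, h⟩
    · exact c.ratio.trans h
    · obtain h0 : (4 : ℝ) ≤ ((i' + 1 : ℕ) : ℝ) := by exact_mod_cast h4
      obtain h1 : (0 : ℝ) < 2 * ((i' + 1 : ℕ) : ℝ) - 1 := by linarith only [h0]
      rw [prod_Icc_succ_top h4, ← mul_assoc, ← mul_div_assoc, div_le_iff₀ h1]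
      exact (mul_le_mul_of_nonneg_right c.ratio (by linarith only [h0])).trans h
  · rcases mem_insert.1 hz' with rfl | h
    · rw [update_self, update_self, update_self]
      refine ⟨mem_insert_of_mem c.nZ, h4, lk, fun u hu => ?_⟩
      rcases mem_insert.1 hu with rfl | hu
      · exact Or.inr le_rfl
      · exact Or.inl (c.mem u hu).2.1
    · rw [update_of_ne (hz z h), update_of_ne (hz z h), update_of_ne (hz z h)]
      obtain ⟨a1, a2, a3, a4⟩ := c.lk z h hA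
      refine ⟨mem_insert_of_mem a1, a2, a3, fun u hu => ?_⟩
      rcases mem_insert.1 hu with rfl | hu
      · exact Or.inr ((c.mem z h).2.1.trans hvn.le)
      · exact a4 u hu

theorem e2 (fa : S.Fa k) (uc : S.UC_s k La) (ch : S.CHAIN_s k La) (tf : S.TFC_s k La) :
    S.E2_s k La := by
  classical
  rintro ⟨x₀, hx₀⟩
  have ex : ∃ x, S.TF k La x ∨ S.NC k La 1 x := ⟨x₀, Or.inr hx₀⟩
  have hn := Nat.find_spec ex
  have hmin := fun x (hx : x < Nat.find ex) => not_or.1 (Nat.find_min ex hx)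
  generalize Nat.find ex = n at hn hmin
  have h1 : ∀ x < n, ¬ S.TF k La x := fun x hx => (hmin x hx).1
  have h2 : ∀ x < n, ¬ S.NC k La 1 x := fun x hx => (hmin x hx).2
  rcases hn with hn | ⟨nN, Rn, str, can⟩
  · obtain ⟨A, hA⟩ := tf n hn h1
    exact ⟨A, n, h1, h2, Or.inr hA⟩
  obtain K3 : 3 ≤ k.K := le_trans (by norm_num) fa.K10
  obtain hrec : ∀ l < n, S.R l ≤ S.R n := by
    by_contra hc
    push Not at hc
    obtain ⟨l, hl, hR⟩ := hc
    obtain ⟨u, hu, hmax⟩ := exists_max_image (range n) S.R ⟨l, mem_range.2 hl⟩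
    have un := mem_range.1 hu
    have hnu : S.R n ≤ S.R u := hR.le.trans (hmax l (mem_range.2 hl))
    obtain su := uc u n k.K ⟨⟨un.trans nN, Rn.trans_le hnu⟩,
      fun l hl => hmax l (mem_range.2 (hl.trans un))⟩ ⟨nN, Rn⟩ un K3 le_rfl (h1 u un)
      (fun l hl => hl.lt_or_eq.elim (fun h => hmax l (mem_range.2 h)) fun h => h ▸ hnu)
      fun j hj hK => (can j hj hK).trans (by
        obtain a1 : 0 ≤ k.c1 * S.σ k n := mul_nonneg (by
          have := fa.g10
          unfold EK.c1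
          positivity) (by linarith only [fa.σΛ n nN, fa.Λ10])
        have a2 : 0 ≤ k.θ * S.R n := mul_nonneg fa.θpos.le Rn.le
        rw [one_mul, Real.exp_le_exp, V]
        linarith only [a1, a2])
    exact h2 u un ⟨su.isRec.1.1, su.isRec.1.2, su.str, fun j hj hK => by
      rw [one_mul]
      exact su.canc j hj hK⟩
  obtain ⟨A, Z, kk, pv, yy, c⟩ := ch n k.K ⟨⟨⟨nN, Rn⟩, hrec⟩, str,
    fun j hj hK => by simpa only [one_mul] using can j hj hK, K3, le_rfl⟩ h1
  exact ⟨A, n, h1, h2, Or.inl ⟨Z, kk, pv, yy, c⟩⟩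

end Sk

end Pool.Agent.MP_9cbfe4_an.E

end

/-! ### Part EAview -/

section

/-! Row EAview: the jets of order `≤ 3` seen from an index `m`, cancelled case. -/

namespace Pool.Agent.MP_9cbfe4_an.E

open Finset
open scoped Classical

theorem Sk.viewn (k : Par) (S : Sk) (La : ℕ → ℕ → ℝ) : S.VIEWN_s k La := by
  intro A n Z kk pv yy M z h m hm j j1 j3 b H1 H2
  change m ≤ M at hm
  have nN := h.tm.nN
  have Mn := h.tm.Mn
  have g10 := h.fa.g10
  obtain g0 : 0 < k.g := by linarith only [g10]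
  obtain σ0 : ∀ l < S.N, 0 ≤ S.σ k.toEK l := fun l hl => by linarith only [h.fa.σΛ l hl, h.fa.Λ10]
  obtain p1 : ∀ a : ℕ, 1 ≤ k.g ^ a := fun a => one_le_pow₀ (by linarith only [g10])
  obtain pm : ∀ a a' : ℕ, a ≤ a' → k.g ^ a ≤ k.g ^ a' := fun a a' e =>
    pow_le_pow_right₀ (by linarith only [g10]) e
  obtain jR : (1 : ℝ) ≤ j := by exact_mod_cast j1
  obtain ex : ∃ u, u ∈ Z ∧ m ≤ u := ⟨n, h.ch.nZ, by omega⟩
  obtain ⟨w, ⟨wZ, mw⟩, wmin⟩ : ∃ w, (w ∈ Z ∧ m ≤ w) ∧ ∀ u, u ∈ Z → m ≤ u → w ≤ u :=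
    ⟨Nat.find ex, Nat.find_spec ex, fun u a b => Nat.find_min' ex ⟨a, b⟩⟩
  obtain ⟨-, wn, st⟩ := h.ch.mem w wZ
  obtain cut : ∀ c, m ≤ c → c < w → (S.cdN k A Z yy M).cut c → w ≠ A ∧ c = yy w := by
    rintro c c1 c2 ⟨-, hc | ⟨-, u, uZ, uA, rfl⟩⟩
    · exact absurd (wmin c hc c1) (by omega)
    · obtain ⟨-, -, lk, gap⟩ := h.ch.lk u uZ uA
      have a1 := lk.vy
      have a2 := lk.yz
      have a3 := wmin u uZ (by omega)
      obtain rfl : w = u := by rcases gap w wZ with a | a <;> omega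
      exact ⟨uA, rfl⟩
  obtain wz : M ≤ w → w = z := fun e => by
    have a1 := wmin z h.zZ (hm.trans h.Mz)
    have a2 := h.pz
    rcases (h.ch.lk z h.zZ h.zA).2.2.2 w wZ with a | a <;> omega
  obtain key : ∀ (e : ℕ) (g : ℝ), e ≤ w → g ≤ k.g3 → (∀ c, m ≤ c → c < e → ¬ (S.cdN k A Z yy M).cut c) →
      (M ≤ e → EN (yy z) z M = e ∧ gN k (yy z) M = g) →
      ∀ x, m ≤ x → x ≤ e → g * S.σ k.toEK x + S.V (2 * j - 1) x ≤ b := by
    intro e g ew g3 nc hE x x1 x2
    rcases lt_or_ge x M with xM | xM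
    · have := H1 x x1 xM fun c c1 c2 => nc c c1 (by omega)
      linarith only [this, mul_le_mul_of_nonneg_right g3 (σ0 x (by omega))]
    · obtain ⟨e1, e2⟩ := hE (by omega)
      have := H2 (fun c c1 c2 => nc c c1 (lt_of_lt_of_le c2 (by omega : M ≤ e))) x xM (by omega)
      rw [e2] at this
      unfold Sk.τ at this
      unfold Sk.V
      linarith only [this]
  obtain Vm : -S.ω m ≤ S.V (2 * j - 1) m := by
    unfold Sk.V
    nlinarith only [h.fa.ok.R0 m, jR]
  have eb := Real.exp_pos b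
  by_cases hc : w ≠ A ∧ m ≤ yy w
  · obtain ⟨wA, my⟩ := hc
    obtain ⟨-, k4, lk, -⟩ := h.ch.lk w wZ wA
    have yz := lk.yz
    obtain e2 : k.g * k.c1 = k.g2 := by unfold EK.c1 EK.g2; ring
    have K := key (yy w) k.g2 yz.le (by unfold EK.g2 EK.g3; linarith only [pm 4 6 (by norm_num), p1 6])
      (fun c c1 c2 hc => by have := (cut c c1 (by omega) hc).2; omega)
      (fun e => by
        obtain rfl := wz (by omega)
        exact ⟨if_neg (by omega), if_neg (by omega)⟩)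
    have := h.jet.four k.c1 (by unfold EK.c1; linarith only [p1 3])
      (by unfold EK.c1 EK.c2; linarith only [pm 3 5 (by norm_num), p1 5]) (yy w) ⟨by omega, lk.qual.1⟩
      (kk w) st.kK lk.four m my j j1 (by omega) b (fun x a a' _ => by rw [e2]; exact K x a a')
      (by rw [e2]; linarith only [K m le_rfl my, Vm])
    linarith only [this, eb]
  · obtain e1 : k.g * k.g = k.g1 := by unfold EK.g1; ring
    have K := key w k.g1 le_rfl (by unfold EK.g1 EK.g3; linarith only [pm 2 6 (by norm_num), p1 6])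
      (fun c c1 c2 hc' => by
        obtain ⟨a, rfl⟩ := cut c c1 c2 hc'
        exact hc ⟨a, c1⟩)
      (fun e => by
        obtain rfl := wz e
        obtain this : yy w < M := by
          by_contra a
          exact hc ⟨h.zA, by omega⟩
        exact ⟨if_pos this, if_pos this⟩)
    have J := h.jet.j2 w (kk w) st.kK st.isRec st.str st.canc
    have k3 := st.k3
    have Kw := K w mw le_rfl
    have t := h.jet.two k.g (by linarith only [g10])
      (by unfold EK.c2; linarith only [pm 1 5 (by norm_num), p1 5, pow_one k.g]) w (by omega) (S.R w)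
      (h.fa.ok.R0 w) (kk w) st.kK
      (fun i a a' => (J i a a').2.trans (Real.exp_le_exp.2 (by unfold Sk.V; exact le_of_eq (by ring))))
      m mw j j1 (by omega) b (S.R w) (h.fa.ok.R0 w) (.inl le_rfl)
      (by rw [e1]; unfold Sk.V at Kw; linarith only [Kw]) (fun x a a' _ => by rw [e1]; exact K x a a'.le)
      (by rw [e1]; linarith only [K m le_rfl mw, Vm])
    obtain t2 : |La j w| ≤ Real.exp b := (J j j1 (by omega)).2.trans (Real.exp_le_exp.2 (by
      rw [← e1] at Kw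
      nlinarith only [Kw, g10, mul_nonneg g0.le (σ0 w (by omega))]))
    linarith only [abs_sub_abs_le_abs_sub (La j m) (La j w), t, t2, eb]

end Pool.Agent.MP_9cbfe4_an.E

end

/-! ### Part EAfinn -/

section

/-! Row FINN of section E-A. -/

namespace Pool.Agent.MP_9cbfe4_an.E

open Finset

noncomputable section

namespace Sk
variable {k : Par} {S : Sk} {La : ℕ → ℕ → ℝ}

theorem finn_num (fa : S.Fa k.toEK) (nu : k.Nu) :
    0 ≤ k.u ∧ k.u ≤ k.ς ∧ 10 ≤ k.ρ ∧ k.u ≤ k.ρ ∧ k.θ ≤ 1 ∧ k.θ * k.Rs ≤ k.ς ∧ 0 ≤ k.Rs := by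
  obtain K10 : (10 : ℝ) ≤ k.K := by exact_mod_cast fa.K10
  have g10 := fa.g10
  have θ0 := fa.θpos
  obtain u1 : 10 ≤ k.u := le_trans (by nlinarith only [K10]) nu.ok.big
  obtain h1 : k.u ≤ k.ς := by unfold Par.ς; nlinarith only [K10, u1]
  obtain h2 : k.ς ≤ k.ρ := by
    refine le_trans (le_mul_of_one_le_left (by linarith only [u1, h1]) ?_) nu.ok.small
    nlinarith only [K10, g10]
  obtain h3 : k.θ ≤ 1 := by
    refine le_trans (le_mul_of_one_le_left θ0.le ?_) fa.θH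
    obtain a1 : 1 ≤ (k.K : ℝ) ^ 2 := one_le_pow₀ (by linarith only [K10])
    obtain a2 : 1 ≤ k.g ^ 10 := one_le_pow₀ (by linarith only [g10])
    nlinarith only [a1, a2]
  refine ⟨by linarith only [u1], h1, by linarith only [u1, h1, h2], by linarith only [h1, h2], h3, ?_, by unfold Par.Rs; linarith only [u1, h1, h2]⟩
  have h4 := nu.ok.th
  obtain h5 : 0 ≤ k.θ * k.ρ := mul_nonneg θ0.le (by linarith only [u1, h1, h2])
  unfold Par.Rs
  nlinarith only [K10, h4, u1, h1]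

/-- the terminal index is late -/
theorem finn_late {A n M : ℕ} (fa : S.Fa k.toEK) (nu : k.Nu) (tm : S.Tm k A n M)
    (hr : S.R A * ∏ a ∈ Icc 4 k.K, (2 * (a : ℝ) - 1 / 10) / (2 * (a : ℝ) - 1) ≤ S.R n)
    (hM : S.R M ≤ k.Rs) : k.C5 * k.ρ / 2 ≤ S.ω M ∧ ∀ l, M ≤ l → l < S.N → S.R l ≤ k.Rs →
      ∀ g : ℝ, 0 ≤ g → g ≤ k.g2 → g * S.σ k.toEK l + 5 * S.R l - S.ω l ≤ -(k.C5 * k.ρ / 4) := by
  obtain ⟨u0, -, ρ0, uρ, -, -, -⟩ := finn_num fa nu
  obtain K10 : (10 : ℝ) ≤ k.K := by exact_mod_cast fa.K10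
  have g10 := fa.g10
  have MN : M < S.N := tm.Mn.trans_lt tm.nN
  have eR : k.Rs = 1600 * k.ρ := rfl
  obtain hW : k.Wc < S.W (M + 1) := by
    rcases tm.why with h | h | h
    · obtain h1 := mul_le_mul tm.RA.1 nu.Kbig (by norm_num) (fa.ok.R0 A)
      rw [h] at hM
      linarith only [hr, hM, ρ0, eR, h1]
    · linarith only [hM, h]
    · exact h
  obtain φ0 : 0 ≤ k.φ := by
    have := nu.ok.Λ1
    obtain this : 0 ≤ k.θ ^ 2 * k.Wc := by unfold Par.Wc; (clear * - K10 ρ0; positivity)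
    unfold Par.φ EK.sl; (rename_i zq0; linarith only [zq0, this])
  obtain h1 : S.σ k.toEK M ≤ 3 * k.g * k.φ := by
    refine (fa.σhi M MN).trans (mul_le_mul_of_nonneg_left ?_ (by unfold EK.k1; linarith only [g10]))
    have := mul_le_mul_of_nonneg_left tm.early (sq_nonneg k.θ)
    unfold Par.φ EK.sl; linarith only [this]
  obtain g1 : (1 : ℝ) ≤ k.g := by linarith only [g10]
  obtain p6 : k.g ^ 6 ≤ k.g ^ 9 := pow_le_pow_right₀ g1 (by norm_num)
  have p4 : 1 ≤ k.g ^ 4 := one_le_pow₀ g1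
  obtain p1 : k.g ≤ k.g ^ 6 := by simpa using pow_le_pow_right₀ g1 (show 1 ≤ 6 by norm_num)
  obtain h2 : 180 * k.g ^ 6 * k.φ ≤ k.u :=
    le_trans (mul_le_mul_of_nonneg_right (by linarith only [g10, p6, p1]) φ0) nu.fine
  obtain h3 : S.σ k.toEK M ≤ k.u :=
    h1.trans (le_trans (mul_le_mul_of_nonneg_right (by linarith only [g10, p1]) φ0) h2)
  have h4 := fa.ok.dn M MN
  obtain eW : k.Wc = 10 ^ 7 * (k.K * k.ρ) := by unfold Par.Wc; ring
  obtain eC : k.C5 * k.ρ = 10 ^ 5 * (k.K * k.ρ) := by unfold EK.C5; ring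
  obtain Kρ : 10 * k.ρ ≤ k.K * k.ρ := mul_le_mul_of_nonneg_right K10 (by linarith only [ρ0])
  refine ⟨by linarith only [hM, ρ0, uρ, eR, hW, h3, h4, eW, eC, Kρ], fun l h5 h6 h7 g g0 hg => ?_⟩
  obtain p7 : k.g ^ 4 ≤ k.g ^ 7 := pow_le_pow_right₀ g1 (by norm_num)
  unfold EK.g2 at hg
  obtain h8 := fa.ml0 M l h5 h6 g 1 g0 (by linarith only [p4, hg, p7]) (by linarith only [K10]) le_rfl
  obtain h9 : (g + 2) * k.k1 * S.σ k.toEK M ≤ 20 * k.g ^ 4 * (3 * k.g) * (3 * k.g * k.φ) := by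
    refine mul_le_mul (mul_le_mul_of_nonneg_right (by linarith only [p4, hg]) (by unfold EK.k1; linarith only [g10])) h1 ?_
      (by positivity)
    linarith only [fa.σΛ M MN, fa.Λ10]
  obtain e : 20 * k.g ^ 4 * (3 * k.g) * (3 * k.g * k.φ) = 180 * k.g ^ 6 * k.φ := by ring
  linarith only [hM, ρ0, uρ, eR, hW, h2, h3, h4, eW, eC, Kρ, h7, h8, h9]

variable (k S La)

theorem finn : S.FINN_s k La := by
  intro A n Z kk pv yy M z h
  obtain ⟨fa, jet, -, nu, ch, tm, zZ, zA, pz, Mz⟩ := h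
  obtain ⟨u0, uς, ρ0, uρ, θ1, θR, R0⟩ := finn_num fa nu
  obtain ⟨-, zn, st⟩ := ch.mem z zZ
  obtain ⟨-, i4, lk, -⟩ := ch.lk z zZ zA
  have late := finn_late fa nu tm ch.ratio
  have zN : z < S.N := zn.trans_lt tm.nN
  obtain K10 : (10 : ℝ) ≤ k.K := by exact_mod_cast fa.K10
  have g10 := fa.g10
  obtain g1 : (1 : ℝ) ≤ k.g := by linarith only [g10]
  obtain σ0 : ∀ l < S.N, 0 ≤ S.σ k.toEK l := fun l hl => by linarith only [fa.σΛ l hl, fa.Λ10]
  obtain t2 : ∀ g l, S.τ k S.R g 2 l = g * S.σ k.toEK l + 3 * S.R l - S.ω l := fun g l => by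
    unfold τ; push_cast; ring
  obtain t3 : ∀ g l, S.τ k S.R g 3 l = g * S.σ k.toEK l + 5 * S.R l - S.ω l := fun g l => by
    unfold τ; push_cast; ring
  have p2 : 1 ≤ k.g ^ 2 := one_le_pow₀ g1
  obtain p24 : k.g ^ 2 ≤ k.g ^ 4 := pow_le_pow_right₀ g1 (by norm_num)
  obtain far : ∀ l g, M ≤ l → l < S.N → S.R M ≤ k.Rs → S.R l ≤ k.Rs → 0 ≤ g → g ≤ k.g2 →
      Real.exp (S.τ k S.R g 2 l) ≤ k.far ∧ Real.exp (S.τ k S.R g 3 l) ≤ k.far := by
    intro l g h1 h2 h3 h4 h5 h6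
    have := (late h3).2 l h1 h2 h4 g h5 h6
    have := fa.ok.R0 l
    rw [t2, t3]
    exact ⟨Real.exp_le_exp.2 (by (rename_i zq0; linarith only [zq0, this])), Real.exp_le_exp.2 (by (rename_i zq0; linarith only [zq0]))⟩
  refine ⟨fun hy => ?_, fun hy => ?_⟩
  swap
  · have c0 : ∀ l ≤ yy z, S.R l ≤ k.Rs := fun l hl => (lk.deep l hl).trans (tm.cap _ pz)
    refine ⟨fun l h1 h2 => ?_, .inl (late (c0 M hy)).1⟩
    simpa using far l k.g2 h1 (by have := lk.yz; omega) (c0 M hy) (c0 l h2)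
      (by unfold EK.g2; (clear * - g10; positivity)) le_rfl
  obtain i4' : (4 : ℝ) ≤ kk z := by exact_mod_cast i4
  obtain jz := (jet.j2 z _ st.kK st.isRec st.str st.canc (kk z) (by omega) le_rfl).1
  have T0 : 0 < |La (kk z) z| := (Real.exp_pos _).trans_le jz
  obtain ⟨T, hT⟩ : ∃ T, Real.exp T = |La (kk z) z| := ⟨_, Real.exp_log T0⟩
  obtain bz : (2 * (kk z : ℝ) - 1) * S.R z - S.ω z - k.g * S.σ k.toEK z ≤ T := by
    rw [← hT] at jz; exact Real.exp_le_exp.1 jz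
  obtain bl : ∀ l, M ≤ l → l < z → 0 < S.R l →
      k.G * S.σ k.toEK l + ((2 * (kk z : ℝ) - 1) * S.R l - S.ω l) ≤ T := by
    intro l h1 h2 h3
    obtain h4 := lk.nq l (by omega) h2
    rw [Qual, not_and, not_le, ← hT] at h4
    have h5 := h4 h3
    have h6 := Real.exp_pos (k.G * S.σ k.toEK l + S.V (2 * (kk z : ℝ) - 1) l)
    exact Real.exp_le_exp.1 (by unfold V at h5 h6; linarith only [h5, h6])
  have eG : k.G = 6 * k.g ^ 3 := rfl
  have e1 : k.g1 = k.g ^ 2 := rfl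
  obtain p23 : k.g ^ 2 ≤ k.g ^ 3 := pow_le_pow_right₀ g1 (by norm_num)
  obtain p13 : k.g ≤ k.g ^ 2 := by nlinarith only [g1]
  obtain deep : ∀ l, M ≤ l → l ≤ z → k.Rs ≤ S.R l → ∀ e : ℝ, e + 1 ≤ 2 * kk z - 1 →
      k.g1 * S.σ k.toEK l + e * S.R l - S.ω l ≤ T + k.ς - (2 * kk z - 1 - e) * k.Rs := by
    intro l h1 h2 h3 e he
    obtain q1 := mul_le_mul_of_nonneg_left h3 (show 0 ≤ 2 * (kk z : ℝ) - 1 - e - 1 by linarith only [he])
    rcases h2.eq_or_lt with rfl | h2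
    · have s1 := fa.σS l st.isRec.1 st.str
      obtain s2 : (k.g ^ 2 + k.g) * S.σ k.toEK l ≤ k.θ * S.R l := by
        refine le_trans (mul_le_mul_of_nonneg_right ?_ (σ0 l zN)) s1
        obtain p8 : k.g ^ 2 ≤ k.g ^ 8 := pow_le_pow_right₀ g1 (by norm_num)
        nlinarith only [p8, p13, K10, p2]
      obtain s3 := mul_le_mul_of_nonneg_right θ1 (show 0 ≤ S.R l - k.Rs by linarith only [h3])
      rw [e1]; linarith only [θR, bz, q1, s2, s3]
    · obtain hρ : 0 < k.Rs := by unfold Par.Rs; linarith only [ρ0]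
      obtain s1 := bl l h1 h2 (by linarith only [h3, hρ])
      obtain s2 : k.g1 * S.σ k.toEK l ≤ k.G * S.σ k.toEK l :=
        mul_le_mul_of_nonneg_right (by linarith only [g10, eG, e1, p23, p13]) (σ0 l (by omega))
      linarith only [u0, uς, h3, q1, s1, s2]
  obtain main : k.Rs < S.R M → ∀ l, M ≤ l → l ≤ z → ∀ e : ℝ, 0 ≤ e → e + 1 ≤ 2 * kk z - 1 →
      k.g1 * S.σ k.toEK l + e * S.R l - S.ω l ≤ T + k.ς - (2 * kk z - 1 - e) * k.Rs := by
    intro hM l h1 h2 e e0 he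
    rcases le_or_gt k.Rs (S.R l) with h3 | h3
    · exact deep l h1 h2 h3 e he
    obtain Ml : M < l := lt_of_le_of_ne h1 (by rintro rfl; linarith only [hM, h3])
    obtain p7 : k.g ^ 2 ≤ k.g ^ 7 := pow_le_pow_right₀ g1 (by norm_num)
    obtain s1 := fa.ml M l Ml (by omega) k.g1 1 (by linarith only [g10, e1, p13]) (by linarith only [g10, e1, p13, p7]) (by linarith only [K10]) le_rfl
    obtain s2 := bl M le_rfl (by omega) (by linarith only [R0, hM])
    obtain s3 : (k.g1 + 2) * k.k1 * S.σ k.toEK M ≤ k.G * S.σ k.toEK M := by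
      refine mul_le_mul_of_nonneg_right ?_ (σ0 M (by omega))
      obtain this : (k.g1 + 2) * k.k1 = 3 * k.g ^ 3 + 6 * k.g := by unfold EK.g1 EK.k1; ring
      nlinarith only [this, eG, g10, p13]
    have s4 := mul_le_mul_of_nonneg_left h3.le e0
    obtain s5 := mul_le_mul_of_nonneg_left hM.le (show 0 ≤ 2 * (kk z : ℝ) - 1 by linarith only [i4'])
    linarith only [u0, uς, R0, hM, s1, s2, s3, s4, s5]
  obtain ex : ∀ a b : ℝ, a ≤ T + b → Real.exp a ≤ |La (kk z) z| * Real.exp b := fun a b h => by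
    rw [← hT, ← Real.exp_add]; exact Real.exp_le_exp.2 h
  have f0 : 0 ≤ k.far := (Real.exp_pos _).le
  obtain two : ∀ l, (∀ e : ℝ, 0 ≤ e → e + 1 ≤ 2 * kk z - 1 →
      k.g1 * S.σ k.toEK l + e * S.R l - S.ω l ≤ T + k.ς - (2 * kk z - 1 - e) * k.Rs) →
      Real.exp (S.τ k S.R k.g1 2 l) ≤
        k.far + |La (kk z) z| * Real.exp (k.ς - 2 * (kk z - 2) * k.Rs) ∧
      Real.exp (S.τ k S.R k.g1 3 l) ≤
        k.far + |La (kk z) z| * Real.exp (k.ς - 2 * (kk z - 3) * k.Rs) := by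
    intro l h
    obtain h3 := h 3 (by norm_num) (by linarith only [i4'])
    obtain h5 := h 5 (by norm_num) (by linarith only [i4'])
    rw [t2, t3]
    exact ⟨le_add_of_nonneg_of_le f0 (ex _ _ (by linarith only [h3])),
      le_add_of_nonneg_of_le f0 (ex _ _ (by linarith only [h5]))⟩
  rcases le_or_gt (S.R M) k.Rs with hM | hM
  · refine ⟨fun l h1 h2 => ?_, .inl (late hM).1⟩
    rcases le_or_gt k.Rs (S.R l) with h3 | h3
    · exact two l fun e _ he => deep l h1 h2 h3 e he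
    · obtain ⟨a, b⟩ := far l k.g1 h1 (by omega) hM h3.le (by linarith only [g10, e1, p13])
        (by unfold EK.g2; linarith only [g10, p24, e1, p13])
      exact ⟨le_add_of_le_of_nonneg a (by (clear * - T0; positivity)), le_add_of_le_of_nonneg b (by (clear * - T0; positivity))⟩
  · refine ⟨fun l h1 h2 => two l (main hM l h1 h2), .inr fun l h1 h2 => ex _ _ ?_⟩
    obtain a := main hM l h1 h2 3 (by norm_num) (by linarith only [i4'])
    obtain b := main hM M le_rfl Mz 0 le_rfl (by linarith only [i4'])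
    obtain c := mul_nonneg (show 0 ≤ k.g1 by linarith only [g10, e1, p13]) (σ0 M (by omega))
    rw [t2]
    linarith only [a, b, c]

end Sk
end
end Pool.Agent.MP_9cbfe4_an.E

end

/-! ### Part EAlkn -/

section

/-! Section E-A, rows LKN and MIDN: links in force, cancelled case. -/

namespace Pool.Agent.MP_9cbfe4_an.E

open Finset
open scoped Classical

namespace LKN
variable {k : Par}

theorem nums (h : k.Nu) : 100 ≤ k.u ∧ 2 * k.K * k.u = k.ς / 2 ∧ 40 * k.u ≤ k.ς ∧ k.u + 1 ≤ k.ρ ∧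
    0 ≤ k.φ ∧ 100 * k.g ^ 4 * k.φ ≤ k.u := by
  obtain K : (10 : ℝ) ≤ k.K := by exact_mod_cast h.ok.K10
  have g := h.ok.g10
  obtain u : 100 ≤ k.u := by nlinarith only [K, h.ok.big]
  obtain s : 40 * k.u ≤ k.ς := by unfold Par.ς; nlinarith only [K, u]
  obtain Kg : 1 ≤ 10 ^ 11 * k.K * k.g := by nlinarith only [K, g]
  have r : k.ς ≤ k.ρ := by nlinarith only [K, g, u, Kg, s, h.ok.small]
  have p : 0 ≤ k.φ := by
    have : 0 ≤ k.Wc := by unfold Par.Wc; have : 0 ≤ k.ρ := by linarith only [u, s, r]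
                          positivity
    have := h.ok.Λ1
    unfold Par.φ EK.sl
    (rename_i zq0; clear * - zq0 this; positivity)
  refine ⟨u, by unfold Par.ς; ring, s, by linarith only [u, s, r], p, le_trans ?_ h.fine⟩
  obtain this : k.g ^ 4 ≤ k.g ^ 9 := pow_le_pow_right₀ (by linarith only [g]) (by norm_num)
  obtain this : 0 ≤ k.g ^ 4 := by positivity
  gcongr
  norm_num

theorem sl_le {x : ℝ} (hx : x ≤ k.Wc) : k.sl x ≤ k.φ := by
  unfold Par.φ EK.sl
  nlinarith only [hx, sq_nonneg k.θ]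

theorem four_exp {a b : ℝ} (h : a + 3 ≤ b) : 4 * Real.exp a ≤ Real.exp b := by
  obtain h1 : Real.exp b = Real.exp (b - a) * Real.exp a := by rw [← Real.exp_add]; ring_nf
  rw [h1]
  exact mul_le_mul_of_nonneg_right (by linarith only [h, Real.add_one_le_exp (b - a)]) (Real.exp_pos a).le

variable {S : Sk} {La : ℕ → ℕ → ℝ} {A n M : ℕ} {Z : Finset ℕ} {kk pv yy : ℕ → ℕ}

theorem le_Rst {l n : ℕ} (h : l < n) : S.R l ≤ S.Rst n :=
  (Finset.le_fold_max _).2 (.inr ⟨l, mem_range.2 h, le_rfl⟩)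

theorem deepZ (nu : k.Nu) (ch : S.ChainNC k.toEK La A n k.K Z kk pv yy) (tm : S.Tm k A n M)
    {c : ℕ} (hc : c ∈ Z) : k.u ≤ S.R c := by
  obtain ⟨h1, -, h2⟩ := ch.mem c hc
  have : S.R A ≤ S.R c := h1.eq_or_lt.elim (fun e => e ▸ le_rfl) (h2.isRec.2 A)
  linarith only [this, tm.RA.1, (nums nu).2.2.2.1]

/-- the first state at or after `b` -/
theorem next (ch : S.ChainNC k.toEK La A n k.K Z kk pv yy) {b : ℕ} (hA : A < b) (hn : b ≤ n) :
    ∃ z ∈ Z, z ≠ A ∧ pv z < b ∧ b ≤ z := by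
  obtain ⟨z, hz, hm⟩ := exists_min_image (Z.filter (b ≤ ·)) id ⟨n, mem_filter.2 ⟨ch.nZ, hn⟩⟩
  obtain ⟨h1, h2⟩ := mem_filter.1 hz
  obtain hA' : z ≠ A := by omega
  obtain ⟨h3, -, h4, -⟩ := ch.lk z h1 hA'
  refine ⟨z, h1, hA', not_le.1 fun h => ?_, h2⟩
  have : z ≤ pv z := hm _ (mem_filter.2 ⟨h3, h⟩)
  have := h4.vy
  have := h4.yz
  omega

theorem low {z i y v m : ℕ} (fa : S.Fa k.toEK) (nu : k.Nu) (tm : S.Tm k A n M) (hi : i ≤ k.K)
    (lk : S.Lk k.toEK La v y z i) (hm : m ≤ M) (hz : m ≤ z) (hy : m ≤ y → y < M ∧ S.R y < k.u) :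
    |La i z| ≤ 2 * |La i m| ∨ |La i z| ≤ Real.exp (k.ς - S.ω m) := by
  obtain ⟨u, e, s, -, p, f⟩ := nums nu
  have g := fa.g10
  have MN : M < S.N := tm.Mn.trans_lt tm.nN
  obtain K : (10 : ℝ) ≤ k.K := by exact_mod_cast fa.K10
  obtain g4 : k.g ^ 3 ≤ k.g ^ 4 := pow_le_pow_right₀ (by linarith only [g]) (by norm_num)
  obtain g1 : k.g ^ 1 ≤ k.g ^ 4 := pow_le_pow_right₀ (by linarith only [g]) (by norm_num)
  by_cases h : y < m
  · have a := lk.link m h hz
    obtain b : S.σ k.toEK m ≤ 3 * k.g * k.φ := (fa.σhi m (by omega)).trans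
      (mul_le_mul_of_nonneg_left (sl_le ((fa.mono m M hm MN.le).trans tm.early))
        (by unfold EK.k1; linarith only [g]))
    obtain c : k.g1 * S.σ k.toEK m ≤ 3 * (k.g ^ 3 * k.φ) :=
      (mul_le_mul_of_nonneg_left b (sq_nonneg k.g)).trans_eq (by ring)
    have c' : k.g ^ 3 * k.φ ≤ k.g ^ 4 * k.φ := mul_le_mul_of_nonneg_right g4 p
    obtain d := four_exp (a := k.g1 * S.σ k.toEK m - S.ω m) (b := k.ς - S.ω m) (by linarith only [u, s, f, c, c'])
    have t := abs_sub_abs_le_abs_sub (La i z) (La i m)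
    rw [abs_sub_comm] at t
    by_cases h2 : |La i z| ≤ 2 * |La i m|
    · exact .inl h2
    · exact .inr (by linarith only [a, d, t, h2])
  · obtain ⟨h1, h2⟩ := hy (not_lt.1 h)
    obtain G0 : 0 ≤ k.toEK.G := by unfold EK.G; positivity
    obtain g7 : k.g ^ 3 ≤ k.g ^ 7 := pow_le_pow_right₀ (by linarith only [g]) (by norm_num)
    obtain a := fa.ml0 m y (not_lt.1 h) (by omega) k.toEK.G 1 G0
      (by unfold EK.G; linarith only [g7, g, pow_pos (by linarith only [g] : 0 < k.g) 3]) (by linarith only [K]) le_rfl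
    obtain b : S.σ k.toEK m ≤ k.φ := sl_le ((fa.mono (m + 1) M (by omega) MN.le).trans tm.early)
    obtain c : (k.toEK.G + 2) * k.k1 * S.σ k.toEK m ≤ 18 * (k.g ^ 4 * k.φ) + 6 * (k.g ^ 1 * k.φ) :=
      (mul_le_mul_of_nonneg_left b (by unfold EK.k1; (clear * - G0 g; positivity))).trans_eq
        (by unfold EK.G EK.k1; ring)
    have c' : k.g ^ 1 * k.φ ≤ k.g ^ 4 * k.φ := mul_le_mul_of_nonneg_right g1 p
    obtain r : (2 * (i : ℝ) - 1) * S.R y ≤ 2 * k.K * k.u := by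
      obtain this : (i : ℝ) ≤ k.K := by exact_mod_cast hi
      exact mul_le_mul (by linarith only [this]) h2.le (fa.ok.R0 y) (by linarith only [K])
    refine .inr (lk.qual.2.trans (four_exp ?_))
    unfold Sk.V
    linarith only [u, e, s, f, a, c, c', r]

theorem el {z i y v l : ℕ} (fa : S.Fa k.toEK) (jet : S.Jet k.toEK La) (nu : k.Nu)
    (tm : S.Tm k A n M) (st : S.St k.toEK La z i) (lk : S.Lk k.toEK La v y z i) (hy : y < l)
    (hz : l ≤ z) (hM : l < M) (hu : k.u ≤ S.R l) :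
    Real.exp (S.V (2 * i - 1) l) ≤ Real.exp k.ς * |La i z| := by
  obtain ⟨u, -, s, -, p, f⟩ := nums nu
  have g := fa.g10
  have MN : M < S.N := tm.Mn.trans_lt tm.nN
  rcases hz.eq_or_lt with rfl | hz
  · obtain a := (jet.j2 l i st.kK st.isRec st.str st.canc i (by have := st.k3; omega) le_rfl).1
    have b : S.σ k.toEK l ≤ k.φ := sl_le ((fa.mono (l + 1) M hM MN.le).trans tm.early)
    obtain g1 : k.g ^ 1 ≤ k.g ^ 4 := pow_le_pow_right₀ (by linarith only [g]) (by norm_num)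
    obtain c : k.g * S.σ k.toEK l ≤ k.g ^ 4 * k.φ :=
      mul_le_mul (by simpa using g1) b (by linarith only [hM, MN, fa.σΛ l (by omega), fa.Λ10]) (by positivity)
    refine le_trans ?_ (mul_le_mul_of_nonneg_left a (Real.exp_pos _).le)
    rw [← Real.exp_add]
    obtain this : 0 ≤ k.g ^ 4 * k.φ := by (clear * - g p; positivity)
    exact Real.exp_le_exp.2 (by linarith only [u, s, f, c])
  · obtain a : 4 * Real.exp (k.toEK.G * S.σ k.toEK l + S.V (2 * i - 1) l) < |La i z| :=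
      not_le.1 fun h => lk.nq l hy hz ⟨by linarith only [hu, u], h⟩
    obtain b : 0 ≤ k.toEK.G * S.σ k.toEK l :=
      mul_nonneg (by unfold EK.G; positivity) (by linarith only [hM, MN, fa.σΛ l (by omega), fa.Λ10])
    obtain c : Real.exp (S.V (2 * i - 1) l) ≤ Real.exp (k.toEK.G * S.σ k.toEK l + S.V (2 * i - 1) l) :=
      Real.exp_le_exp.2 (by linarith only [b])
    obtain d : 1 ≤ Real.exp k.ς := Real.one_le_exp (by linarith only [u, s])
    have := Real.exp_pos (S.V (2 * i - 1) l)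
    nlinarith only [a, c, this, d, abs_nonneg (La i z)]

end LKN

variable {k : Par} {S : Sk} {La : ℕ → ℕ → ℝ}

theorem Sk.lkn (fi : S.FINN_s k La) : S.LKN_s k La := by
  intro A n Z kk pv yy M z c B hB
  obtain K4 : 4 ≤ k.K := le_trans (by norm_num) c.fa.K10
  have BM : B < M := hB.1
  have cZ : ∀ w ∈ Z, w < M → (S.cdN k A Z yy M).cut w := fun w h1 h2 => ⟨h2, .inl h1⟩
  obtain low0 : S.Low k La (S.cdN k A Z yy M) B 4 0 := fun m _ _ _ => .inl (by (clear * -; positivity))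
  by_cases hA : B < A
  · have cA := cZ A c.ch.AZ c.tm.AM
    refine ⟨4, 0, le_rfl, K4, le_rfl, fun l _ _ h3 => .inl (le_max_of_le_right ?_), low0,
      fun h => (h A hA c.tm.AM cA).elim⟩
    have h : l ≤ A := not_lt.1 fun h => h3 A hA h cA
    exact le_trans (h.eq_or_lt.elim (fun e => e ▸ le_rfl) ((c.ch.mem A c.ch.AZ).2.2.isRec.2 l))
      c.tm.RA.2
  obtain ⟨w, wZ, wA, h1, h2⟩ := LKN.next c.ch (b := B + 1) (by omega) (BM.trans_le c.tm.Mn)
  obtain ⟨-, k4, lk, ord⟩ := c.ch.lk w wZ wA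
  have st := (c.ch.mem w wZ).2.2
  obtain wz : (S.cdN k A Z yy M).nocut (B + 1) M → w = z := fun h => by
    have a : M ≤ w := not_lt.1 fun h' => h w h2 h' (cZ w wZ h')
    have b := ord z c.zZ
    have d := (c.ch.lk z c.zZ c.zA).2.2.2 w wZ
    have := c.pz
    have := c.Mz
    omega
  have shallow : ∀ l ≤ yy w, S.R l ≤ max (S.Rst (B + 1)) k.ρ := fun l hl =>
    le_max_of_le_left ((lk.deep l hl).trans (LKN.le_Rst h1))
  by_cases hy : B < yy w ∧ ((S.cdN k A Z yy M).cut (yy w) ∨ M ≤ yy w)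
  · refine ⟨4, 0, le_rfl, K4, le_rfl, fun l _ h3 h4 => .inl (shallow l ?_), low0, fun h => ?_⟩
    · rcases hy.2 with h | h
      · exact not_lt.1 fun h' => h4 _ hy.1 h' h
      · exact (h3.1.trans_le h).le
    · have a : M ≤ yy w := hy.2.elim (fun h' => (h _ hy.1 h'.1 h').elim) id
      obtain rfl := wz h
      simp only [Sk.EN, Sk.gN, if_neg (not_lt.2 a)]
      exact_mod_cast (fi A n Z kk pv yy M w c).2 a
  · have yM : yy w < M := not_le.1 fun h => hy ⟨BM.trans_le h, .inr h⟩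
    refine ⟨kk w, |La (kk w) w|, k4, st.kK, abs_nonneg _, fun l h3 h4 h5 => ?_,
      fun m h3 h4 h5 => ?_, fun h => ?_⟩
    · by_cases h : l ≤ yy w
      · exact .inl (shallow l h)
      · exact .inr (LKN.el c.fa c.jet c.nu c.tm st lk (not_le.1 h)
          (not_lt.1 fun h' => h5 w h2 h' (cZ w wZ (h'.trans h4.1))) h4.1 h4.2)
    · refine LKN.low c.fa c.nu c.tm st.kK lk h4 (not_lt.1 fun h' => h5 w h2 h'
        ⟨h'.trans_le h4, LKN.deepZ c.nu c.ch c.tm wZ⟩) fun h' => ⟨yM, not_le.1 fun h'' => ?_⟩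
      exact hy ⟨h3.trans_le h', .inl ⟨yM, .inr ⟨h'', w, wZ, wA, rfl⟩⟩⟩
    · obtain rfl := wz h
      simp only [Sk.EN, Sk.gN, if_pos yM]
      exact (fi A n Z kk pv yy M w c).1 yM

theorem Sk.midn (v : S.VIEWN_s k La) (o : S.OKN_s k La) (l : S.LKN_s k La) : S.MIDN_s k La := by
  intro fa jet int nu A n Z kk pv yy M ch tm
  obtain ⟨z, zZ, zA, h1, h2⟩ := LKN.next ch tm.AM tm.Mn
  have c : S.Ctx k La A n Z kk pv yy M z := ⟨fa, jet, int, nu, ch, tm, zZ, zA, h1, h2⟩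
  have st := (ch.mem A ch.AZ).2.2
  have zn := (ch.mem z zZ).2.1
  have yz := (ch.lk z zZ zA).2.2.1.yz
  have g := fa.g10
  obtain g2 : k.g ^ 2 ≤ k.g ^ 6 := pow_le_pow_right₀ (by linarith only [g]) (by norm_num)
  obtain g4 : k.g ^ 4 ≤ k.g ^ 6 := pow_le_pow_right₀ (by linarith only [g]) (by norm_num)
  obtain p2 : 0 ≤ k.g ^ 2 := by positivity
  obtain p4 : 0 ≤ k.g ^ 4 := by positivity
  refine ⟨S.cdN k A Z yy M, Sk.EN (yy z) z M, S.R, Sk.gN k (yy z) M, rfl, tm, st.isRec, st.str,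
    ?_, ?_, ?_, fa.ok.R0, ⟨tm.AM, .inl ch.AZ⟩, fun x hx => ⟨hx.1, hx.2.elim
      (LKN.deepZ nu ch tm) And.left⟩, v _ _ _ _ _ _ _ _ c, o _ _ _ _ _ _ _ _ c, l _ _ _ _ _ _ _ _ c⟩
  · change M ≤ _
    unfold Sk.EN
    split_ifs <;> omega
  · unfold Sk.EN
    split_ifs <;> omega
  · unfold Sk.gN EK.g1 EK.g2 EK.g3
    split_ifs <;> constructor <;> linarith only [p2, g2, p4, g4]

end Pool.Agent.MP_9cbfe4_an.E

end

/-! ### Part H2I -/

section

/-! Row H2: the strong history and the statements of its pieces. -/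

namespace Pool.Agent.MP_9cbfe4_an

noncomputable section

/-- segmented history that ends at a good time (or is empty) -/
structure Sq.GHist (c : Cs) (S : Sq) (ξ w : ℤ → ℝ) (h s : ℤ) : Prop where
  hist : S.Hist c ξ w h s
  half : ∀ i, h ≤ i → i < s → w i ≤ Real.exp (-c.lam / 5) * w s
  pb : ∀ i, h ≤ i → i < s →
    S.PB c (18 / 1000) i s * w i ≤ Real.exp (-(1 - 3 * c.a) * S.chi c i s) * w s
  bc : ∀ i, h ≤ i → i < s → S.Bc c w i s ≤ 100 * Real.exp (2 * c.a * S.chi c i s)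
  far : ∀ i, h ≤ i → i < s → 1 ≤ c.a * S.chi c i s

/-- the glued majorant -/
def glue (s : ℤ) (w1 w2 : ℤ → ℝ) (j : ℤ) : ℝ := if j ≤ s then w1 j else w2 j

/-- concatenation -/
def CONC_s (c : Cs) : Prop := ∀ (S : Sq) ξ w1 w2 h s n, S.OK c → h ≤ s → s ≤ n →
  S.GHist c ξ w1 h s → w2 s = |ξ s| →
  (S.Hist c ξ w2 s n → S.Hist c ξ (glue s w1 w2) h n) ∧
  (S.GHist c ξ w2 s n → S.GHist c ξ (glue s w1 w2) h n)

/-- homogeneity -/
def SCL_s (c : Cs) : Prop := ∀ (S : Sq) ξ w h n (κ : ℝ), κ ≠ 0 →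
  (S.Hist c ξ w h n → S.Hist c (fun j => κ * ξ j) (fun j => |κ| * w j) h n) ∧
  (S.GHist c ξ w h n → S.GHist c (fun j => κ * ξ j) (fun j => |κ| * w j) h n)

/-- a good run of the reference orbit gives a strong history of every orbit in its tube -/
def HPERT_s (c : Cs) : Prop := ∀ Ex (M : Mdl) t (S S' : Sq) ξ ξ' ζ η s n, S.OK c → S.St c ξ s →
  S.Good c Ex ξ s n → ShH c M t t S S' (2 / 100) (S.wh c ξ s) (S.AA c ξ s) ζ η s n →
  η * |ξ n| ≤ 5000 → S'.Sol ξ' s → ξ' s = 1 →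
  |S'.b s * ξ' (s - 1) - S.b s * ξ (s - 1)| ≤ 200 * c.CG * c.L * η →
  ∃ w, w s = 1 ∧ S'.GHist c ξ' w s n

/-- the invariant of admissible curves -/
def HInv (c : Cs) (M : Mdl) (t : ℝ) (s : ℤ) (φ : ℝ → ℝ) : Prop :=
  ∀ u ∈ Set.Icc (0 : ℝ) 100, ∃ w, (M.O t (φ u)).GHist c (M.tg t (φ u) s) w 0 s

end
end Pool.Agent.MP_9cbfe4_an

end

/-! ### Part H2C -/

section

/-! Row H2-CONC: concatenation of histories. -/

namespace Pool.Agent.MP_9cbfe4_an

open Finset Real

namespace H2C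

/-- the constants used in this row -/
structure K (c : Cs) : Prop where
  a0 : 0 < c.a
  a1 : c.a ≤ 1 / 10
  k0 : 0 < c.k0
  k1 : 0 ≤ c.chK
  k2 : c.chK ≤ c.bl
  l5 : exp (-c.lam / 5) ≤ 1 / 2
  L1 : 0 < c.L

lemma hK : Hier K := by
  obtain h1 := Hier.a_le (fun _ => 1 / 10) (fun _ _ _ _ _ _ => rfl) (Hier.of_all fun _ => by norm_num)
  have h2 := Hier.β_ge (fun _ => 16) fun _ _ _ => rfl
  have h3 := Hier.lam_ge (fun _ => 5) fun _ _ => rfl
  have h4 := Hier.L_ge (fun _ => 1) fun _ _ => rfl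
  refine (h1.and (h2.and (h3.and (h4.and Hier.base)))).mono ?_
  rintro c ⟨⟨a0, a1⟩, b, l, L, k0, k1, -⟩
  obtain hbl : c.β ≤ c.bl := by unfold Cs.bl; nlinarith only [a1, b, l, a0]
  obtain k00 : 0 < c.k0 := by linarith only [a0, a1, k0]
  refine ⟨a0, a1, k00, log_nonneg ?_, ?_, ?_, by linarith only [L]⟩
  · rw [le_div_iff₀ k00]; linarith only [a0, a1, k1]
  · obtain this : 1 / c.k0 ≤ 16 := by rw [div_le_iff₀ k00]; linarith only [k0]
    have h := log_le_sub_one_of_pos (one_div_pos.2 k00)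
    unfold Cs.chK; linarith only [b, hbl, this, h]
  · rw [neg_div, exp_neg, inv_le_comm₀ (exp_pos _) (by norm_num)]
    linarith only [l, add_one_le_exp (c.lam / 5)]

variable {c : Cs} {S : Sq} {ξ w w' w1 w2 : ℤ → ℝ}

lemma DD_congr {m j : ℤ} (e : ∀ i, m ≤ i → i < j → w' i = w i) : S.DD c w' m j = S.DD c w m j :=
  sum_congr rfl fun i hi => by rw [e i (mem_Ico.1 hi).1 (mem_Ico.1 hi).2]

lemma suf_congr {A : ℤ → ℝ} {Rg : Finset ℤ} {s' m : ℤ} {k : ℝ} (h : S.SufC c k ξ w A Rg s' m)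
    (hs : s' ≤ m) (e : ∀ i, s' ≤ i → i ≤ m → w' i = w i) : S.SufC c k ξ w' A Rg s' m where
  mono := h.mono
  lo := (e s' le_rfl hs).symm ▸ h.lo
  lo' := (e m hs le_rfl).symm ▸ h.lo'
  dd j h1 h2 := by
    rw [DD_congr (w := w) fun i a b => e i a (by omega), e j h1 h2]; exact h.dd j h1 h2
  sub := h.sub
  reg i hi := by
    have := mem_Ico.1 (h.sub hi)
    rw [e i this.1 this.2.le]; exact h.reg i hi
  runs := h.runs
  cost := (e s' le_rfl hs).symm ▸ h.cost

lemma step_congr {h h' m m' : ℤ} {r : ℝ} (a : S.HStep c ξ w h m r m')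
    (e : ∀ i, m ≤ i → i ≤ m' → w' i = w i)
    (d : ∀ i, h' ≤ i → i < m →
      S.PB c (18 / 1000) i m * w' i ≤ 50 * exp (-(1 - 3 * c.a) * S.chi c i m) * w' m ∧
      w' i ≤ 50 * exp (3 * c.a * S.chi c i m) * w' m) : S.HStep c ξ w' h' m r m' := by
  have e1 := e m le_rfl a.lt.le
  have e2 := e m' a.lt.le le_rfl
  refine ⟨a.lt, e1 ▸ a.wm, a.r_lo, a.dch, fun z => ?_, fun j h1 h2 => ?_, fun s' h1 h2 => ?_, ?_, d⟩
  · rw [e1, e2]; exact a.zone z
  · rw [DD_congr (w := w) fun i x y => e i x (by omega), e1, e j h1.le h2]; exact a.new j h1 h2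
  · obtain ⟨A, Rg, x⟩ := a.suf s' h1 h2
    exact ⟨A, Rg, suf_congr x h2.le fun i x y => e i (by omega) y⟩
  · rw [e1, e2]; exact a.gain

lemma chain_le {h m : ℤ} (a : S.HChain c ξ w h m) : h ≤ m := by
  induction a with
  | nil => exact le_rfl
  | cons _ b ih => exact ih.trans b.lt.le

lemma chain_congr {h m : ℤ} (a : S.HChain c ξ w h m) (e : ∀ i, i ≤ m → w' i = w i) :
    S.HChain c ξ w' h m := by
  induction a with
  | nil => exact .nil
  | cons _ b ih =>
    have := b.lt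
    refine .cons (ih fun i x => e i (by omega)) (step_congr b (fun i _ y => e i y) fun i x y => ?_)
    rw [e i (by omega), e _ this.le]; exact b.dec i x y

lemma gl {s j : ℤ} (h : j ≤ s) : glue s w1 w2 j = w1 j := if_pos h

lemma gr {s j : ℤ} (e : w1 s = w2 s) (h : s ≤ j) : glue s w1 w2 j = w2 j := by
  rcases h.eq_or_lt with rfl | h
  · rw [gl le_rfl, e]
  · exact if_neg (not_le.2 h)

variable (k : K c)
include k

lemma chi0 (S : Sq) {i j : ℤ} (h : i ≤ j) : 0 ≤ S.chi c i j :=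
  le_trans (mul_nonneg k.k1 (by exact_mod_cast sub_nonneg.2 h)) (S.chi_ge c k.k2 h)

lemma PB0 (S : Sq) (θ : ℝ) (i j : ℤ) : 0 ≤ S.PB c θ i j :=
  prod_nonneg fun l _ => by
    unfold Sq.bb
    have := mul_pos k.k0 k.L1
    split_ifs <;> positivity

variable {h s : ℤ} (G : S.GHist c ξ w1 h s)
include G

/-- product bounds through `s` -/
lemma pb_thru {i j : ℤ} {x C v : ℝ} (h1 : h ≤ i) (h2 : i < s) (h3 : s ≤ j)
    (a : S.PB c (18 / 1000) s j * w1 s ≤ C * exp (x - (1 - 3 * c.a) * S.chi c s j) * v) :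
    S.PB c (18 / 1000) i j * w1 i ≤ C * exp (x - (1 - 3 * c.a) * S.chi c i j) * v := by
  rw [S.PB_mul c _ h2.le h3, S.chi_add c h2.le h3]
  calc _ = S.PB c (18 / 1000) s j * (S.PB c (18 / 1000) i s * w1 i) := by ring
    _ ≤ S.PB c (18 / 1000) s j * (exp (-(1 - 3 * c.a) * S.chi c i s) * w1 s) :=
      mul_le_mul_of_nonneg_left (G.pb i h1 h2) (PB0 k S _ _ _)
    _ = exp (-(1 - 3 * c.a) * S.chi c i s) * (S.PB c (18 / 1000) s j * w1 s) := by ring
    _ ≤ exp (-(1 - 3 * c.a) * S.chi c i s) *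
        (C * exp (x - (1 - 3 * c.a) * S.chi c s j) * v) :=
      mul_le_mul_of_nonneg_left a (exp_pos _).le
    _ = C * (exp (-(1 - 3 * c.a) * S.chi c i s) * exp (x - (1 - 3 * c.a) * S.chi c s j)) * v := by
      ring
    _ = _ := by rw [← exp_add]; congr 3; ring

lemma pb_thru0 {i j : ℤ} {C v : ℝ} (h1 : h ≤ i) (h2 : i < s) (h3 : s ≤ j)
    (a : S.PB c (18 / 1000) s j * w1 s ≤ C * exp (-(1 - 3 * c.a) * S.chi c s j) * v) :
    S.PB c (18 / 1000) i j * w1 i ≤ C * exp (-(1 - 3 * c.a) * S.chi c i j) * v := by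
  obtain this := pb_thru k G (x := 0) (C := C) (v := v) h1 h2 h3 (by rwa [zero_sub, ← neg_mul])
  rwa [zero_sub, ← neg_mul] at this

lemma w_le {i : ℤ} (h1 : h ≤ i) (h2 : i < s) : w1 i ≤ w1 s := by
  obtain this := G.hist.pos s (by omega) le_rfl
  nlinarith only [this, G.half i h1 h2, k.l5]

/-- `Bc` through `s` -/
lemma bc_thru (ok : S.OK c) {n i j : ℤ} (H : S.Hist c ξ w2 s n) (e : w1 s = w2 s) (h1 : h ≤ i)
    (h2 : i < s) (h3 : s < j) (h4 : j ≤ n) :
    S.Bc c (glue s w1 w2) i j ≤ 100 * exp (2 * c.a * S.chi c i s) + S.Bc c w2 s j / 2 := by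
  obtain eu := S.euler (ξ := ξ) h2 h3.le fun l a b => by
    rcases lt_or_ge l s with x | x
    · exact G.hist.maj.1 l (by omega) x
    · exact H.maj.1 l x (by omega)
  have pi := G.hist.pos i h1 h2.le
  obtain ps := G.hist.pos s (by omega) le_rfl
  have pj := H.pos j h3.le h4
  have hL := k.L1
  obtain xi : |ξ i| ≤ w1 i := by simpa using G.hist.maj.2 i (by omega) h2.le
  obtain xj : |ξ j| ≤ w2 j := by simpa using H.maj.2 j (by omega) h4
  obtain ⟨p0, p1⟩ := ok.Pb_le (θ := 18 / 1000) (by norm_num) (i := i) (j := s)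
    (by linarith only [h1, G.hist.h0])
  obtain b1 : |S.Pb i s| * |ξ i| ≤ w1 s := by
    rw [abs_of_pos p0]
    refine (mul_le_mul p1 xi (abs_nonneg _) (PB0 k S _ _ _)).trans ((G.pb i h1 h2).trans
      (mul_le_of_le_one_left ps.le (exp_le_one_iff.2 ?_)))
    have := chi0 k S h2.le
    nlinarith only [this, k.a1]
  obtain b2 : |S.fr (i + 1) j| * w1 s ≤ w2 j * |S.fr (i + 1) s| + w1 s * |S.fr (s + 1) j| := by
    have t := abs_sub_abs_le_abs_sub (S.fr (i + 1) j * ξ s) (ξ j * S.fr (i + 1) s)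
    rw [eu, abs_mul, abs_mul, ← G.hist.wn] at t
    have := mul_le_mul_of_nonneg_right xj (abs_nonneg (S.fr (i + 1) s))
    have := mul_le_mul_of_nonneg_right b1 (abs_nonneg (S.fr (s + 1) j))
    (rename_i zq0; linarith only [t, zq0, this])
  obtain b3 : w1 i ≤ w1 s / 2 := by nlinarith only [ps, G.half i h1 h2, k.l5]
  have b4 := G.bc i h1 h2
  unfold Sq.Bc at b4 ⊢
  rw [gl h2.le, gr e h3.le, ← e]
  calc _ = |S.fr (i + 1) j| * w1 s * (c.L * w1 i / (w1 s * w2 j)) := by field_simp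
    _ ≤ (w2 j * |S.fr (i + 1) s| + w1 s * |S.fr (s + 1) j|) * (c.L * w1 i / (w1 s * w2 j)) :=
      mul_le_mul_of_nonneg_right b2 (by (clear * - hL pi ps pj; positivity))
    _ = |S.fr (i + 1) s| * c.L * w1 i / w1 s + |S.fr (s + 1) j| * c.L * w1 i / w2 j := by
      field_simp
    _ ≤ 100 * exp (2 * c.a * S.chi c i s) + |S.fr (s + 1) j| * c.L * (w1 s / 2) / w2 j := by
      (clear * - b4 b3 hL pj; gcongr)
    _ = _ := by ring

lemma chain_app (e : w1 s = w2 s) {m : ℤ} (a : S.HChain c ξ w2 s m) :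
    S.HChain c ξ (glue s w1 w2) h m := by
  induction a with
  | nil => exact chain_congr G.hist.chain fun i x => gl x
  | @cons m r m' a b ih =>
    have hm := chain_le a
    refine .cons ih (step_congr b (fun i x _ => gr e (by omega)) fun i x y => ?_)
    rw [gr e hm]
    rcases le_or_gt s i with z | z
    · rw [gr e z]; exact b.dec i z y
    rw [gl z.le]
    obtain ps := G.hist.pos s (by omega) le_rfl
    have c1 := chi0 k S z.le
    have a0 := k.a0
    rcases hm.eq_or_lt with rfl | hm'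
    · rw [← e]
      obtain this := one_le_exp (show 0 ≤ 3 * c.a * S.chi c i s by positivity)
      have := mul_pos (exp_pos (-(1 - 3 * c.a) * S.chi c i s)) ps
      exact ⟨by linarith only [this, G.pb i x z], by (rename_i zq0; nlinarith only [ps, zq0, w_le k G x z])⟩
    · obtain ⟨d1, d2⟩ := b.dec s le_rfl hm'
      rw [← e] at d1 d2
      refine ⟨?_, (w_le k G x z).trans (d2.trans ?_)⟩
      · exact pb_thru0 k G x z hm d1
      · have : 0 ≤ w2 m := b.wm ▸ abs_nonneg _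
        rw [S.chi_add c z.le hm]
        gcongr
        linarith only [c1]

lemma hist (ok : S.OK c) {n : ℤ} (hn : s ≤ n) (e : w1 s = w2 s) (H : S.Hist c ξ w2 s n) :
    S.Hist c ξ (glue s w1 w2) h n := by
  have G1 := G.hist
  have a0 := k.a0
  refine ⟨G1.h0, chain_app k G e H.chain, (gr e hn).trans H.wn, H.slope, fun j x y => ?_,
    ⟨fun j x y => ?_, fun j x y => ?_⟩, fun j x y z1 z2 => ?_, fun j x y => ?_, fun j x y => ?_,
    fun i j x y z => ?_, fun i x y => ?_⟩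
  · rcases le_total j s with z | z
    · rw [gl z]; exact G1.pos j x z
    · rw [gr e z]; exact H.pos j z y
  · rcases lt_or_ge j s with z | z
    · exact G1.maj.1 j x z
    · exact H.maj.1 j z y
  · rcases le_total j s with z | z
    · rw [gl z]; exact G1.maj.2 j x z
    · rw [gr e z]; exact H.maj.2 j (by omega) y
  · rcases lt_trichotomy j s with z | rfl | z
    · rw [gl z.le, gl (by omega)]; exact G1.backK j x z z1 z2
    · rw [gl le_rfl, gl (by omega)]
      linarith only [w_le k G (i := j - 1) (by omega) (by omega), G1.pos j x.le le_rfl]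
    · rw [gr e z.le, gr e (by omega)]; exact H.backK j z y z1 z2
  · rcases le_or_gt j s with z | z
    · rw [gl z, gl (by omega)]; exact G1.back j x z
    · rw [gr e z.le, gr e (by omega)]; exact H.back j z y
  · rcases lt_or_ge j s with z | z
    · rw [gl z.le, gl (by omega)]; exact G1.fwd j x z
    · rw [gr e z, gr e (by omega)]; exact H.fwd j z y
  · rcases le_or_gt s i with u | u
    · unfold Sq.Bc
      rw [gr e u, gr e (show s ≤ j by omega)]; exact H.pw i j u y z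
    have c1 := chi0 k S u.le
    have c2 := chi0 k S hn
    have ec := S.chi_add c u.le hn
    rcases le_or_gt j s with v | v
    · obtain ⟨p1, p2, p3⟩ := G1.pw i j x y v
      obtain pj := G1.pos j (by omega) v
      obtain m1 : S.chi c i s ≤ S.chi c i n := by linarith only [c2, ec]
      unfold Sq.Bc at p3 ⊢
      rw [gl u.le, gl v]
      exact ⟨p1.trans (by (clear * - m1 a0 pj; gcongr)), p2.trans (by (clear * - m1 a0 pj; gcongr)), p3.trans (by gcongr)⟩
    · obtain ⟨p1, p2, p3⟩ := H.pw s j le_rfl v z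
      have pj := H.pos j v.le z
      obtain m1 : S.chi c s n ≤ S.chi c i n := by linarith only [c1, ec]
      have b := bc_thru k G ok H e x u v z
      rw [← e] at p1 p2
      refine ⟨?_, ?_, b.trans ?_⟩
      · rw [gl u.le, gr e v.le]
        exact (w_le k G x u).trans (p1.trans (by gcongr))
      · rw [gl u.le, gr e v.le]
        exact (pb_thru k G x u v.le p2).trans (by (clear * - m1 a0 pj; gcongr))
      · obtain A := one_le_exp (show 0 ≤ 2 * c.a * S.chi c i s by (clear * - a0 c1; positivity))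
        obtain B := one_le_exp (show 0 ≤ 2 * c.a * S.chi c s n by (clear * - a0 c2; positivity))
        rw [ec, mul_add, exp_add]
        nlinarith only [p3, A, B]
  · rw [gr e hn]
    rcases le_or_gt s i with u | u
    · rw [gr e u]; exact H.dec i u y
    rw [gl u.le]
    rcases hn.eq_or_lt with rfl | hn'
    · rw [← e]; exact G1.dec i x u
    · have d1 := H.dec s le_rfl hn'
      rw [← e] at d1
      exact pb_thru0 k G x u hn d1

lemma ghist (ok : S.OK c) {n : ℤ} (hn : s ≤ n) (e : w1 s = w2 s) (H : S.GHist c ξ w2 s n) :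
    S.GHist c ξ (glue s w1 w2) h n := by
  have a0 := k.a0
  refine ⟨hist k G ok hn e H.hist, fun i x y => ?_, fun i x y => ?_, fun i x y => ?_,
    fun i x y => ?_⟩
  · rw [gr e hn]
    rcases le_or_gt s i with u | u
    · rw [gr e u]; exact H.half i u y
    rw [gl u.le]
    rcases hn.eq_or_lt with rfl | hn'
    · rw [← e]; exact G.half i x u
    · exact (w_le k G x u).trans (e ▸ H.half s le_rfl hn')
  · rw [gr e hn]
    rcases le_or_gt s i with u | u
    · rw [gr e u]; exact H.pb i u y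
    rw [gl u.le]
    rcases hn.eq_or_lt with rfl | hn'
    · rw [← e]; exact G.pb i x u
    · have d1 := H.pb s le_rfl hn'
      rw [← e] at d1
      obtain this := pb_thru0 k G (C := 1) (v := w2 n) x u hn (by rwa [one_mul])
      rwa [one_mul] at this
  · rcases le_or_gt s i with u | u
    · unfold Sq.Bc
      rw [gr e u, gr e hn]; exact H.bc i u y
    rcases hn.eq_or_lt with rfl | hn'
    · unfold Sq.Bc
      rw [gl u.le, gl le_rfl]; exact G.bc i x u
    · refine (bc_thru k G ok H.hist e x u hn' le_rfl).trans ?_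
      have c1 := chi0 k S u.le
      obtain A := one_le_exp (show 0 ≤ 2 * c.a * S.chi c i s by (clear * - a0 c1; positivity))
      obtain B : 2 ≤ exp (2 * c.a * S.chi c s n) := by
        linarith only [add_one_le_exp (2 * c.a * S.chi c s n), H.far s le_rfl hn']
      have p := H.bc s le_rfl hn'
      rw [S.chi_add c u.le hn, mul_add, exp_add]
      nlinarith only [A, B, p]
  · rcases le_or_gt s i with u | u
    · exact H.far i u y
    · have := mul_nonneg a0.le (chi0 k S hn)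
      rw [S.chi_add c u.le hn, mul_add]
      linarith only [this, G.far i x u]

end H2C

open H2C

theorem conc : Hier fun c => CONC_s c := hK.mono fun _ k _ _ _ _ _ _ _ ok _ hn G e =>
  ⟨hist k G ok hn (G.hist.wn.trans e.symm), ghist k G ok hn (G.hist.wn.trans e.symm)⟩

end Pool.Agent.MP_9cbfe4_an

end

/-! ### Part H2S -/

section

/-! Row H2-SCL: histories are homogeneous. -/

namespace Pool.Agent.MP_9cbfe4_an

open Finset

namespace H2S

theorem sc {k x y u v : ℝ} (hk : 0 < k) (h : u * x ≤ v * y) : u * (k * x) ≤ v * (k * y) := by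
  have := mul_le_mul_of_nonneg_left h hk.le
  linarith only [this]

theorem sc1 {k x y v : ℝ} (hk : 0 < k) (h : x ≤ v * y) : k * x ≤ v * (k * y) := by
  have := mul_le_mul_of_nonneg_left h hk.le
  linarith only [this]

variable {c : Cs} {S : Sq} {ξ w : ℤ → ℝ} {κ : ℝ}

theorem dd (k : ℝ) (s j : ℤ) : S.DD c (fun j => k * w j) s j = k ^ 2 * S.DD c w s j := by
  unfold Sq.DD
  rw [mul_sum]
  exact sum_congr rfl fun i _ => by ring

theorem bc {k : ℝ} (hk : 0 < k) (i j : ℤ) : S.Bc c (fun j => k * w j) i j = S.Bc c w i j := by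
  unfold Sq.Bc
  rw [show |S.fr (i + 1) j| * c.L * (k * w i) = k * (|S.fr (i + 1) j| * c.L * w i) by ring,
    mul_div_mul_left _ _ hk.ne']

theorem suf (hκ : κ ≠ 0) {K : ℝ} {A : ℤ → ℝ} {Rg : Finset ℤ} {s' m : ℤ}
    (h : S.SufC c K ξ w A Rg s' m) :
    S.SufC c K (fun j => κ * ξ j) (fun j => |κ| * w j) (fun j => |κ| * A j) Rg s' m := by
  have hk : 0 < |κ| := abs_pos.2 hκ
  refine ⟨fun i j a b d => mul_le_mul_of_nonneg_left (h.mono i j a b d) hk.le,
    mul_le_mul_of_nonneg_left h.lo hk.le, sc1 hk h.lo', fun j a b => ?_, h.sub, fun i hi => ?_,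
    h.runs, ?_⟩
  · rw [dd]
    have := mul_le_mul_of_nonneg_left (h.dd j a b) (sq_nonneg |κ|)
    linarith only [this]
  · obtain ⟨r1, r2, r3, r4⟩ := h.reg i hi
    exact ⟨r1, r2, by rw [abs_mul]; exact sc1 hk r3, sc1 hk r4⟩
  · simp only [mul_div_mul_left _ _ hk.ne']
    exact h.cost

theorem hstep (hκ : κ ≠ 0) {h m m' : ℤ} {r : ℝ} (H : S.HStep c ξ w h m r m') :
    S.HStep c (fun j => κ * ξ j) (fun j => |κ| * w j) h m r m' := by
  have hk : 0 < |κ| := abs_pos.2 hκ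
  refine ⟨H.lt, by rw [abs_mul, H.wm], H.r_lo, H.dch, fun z => ?_, fun j a b => ⟨?_, ?_⟩,
    fun s' a b => ?_, sc1 hk H.gain, fun i a b => ⟨sc hk (H.dec i a b).1, sc1 hk (H.dec i a b).2⟩⟩
  · obtain ⟨z1, z2, z3⟩ := H.zone z
    refine ⟨z1, z2, ?_⟩
    have := mul_le_mul_of_nonneg_left z3 hk.le
    linarith only [this]
  · rw [dd]
    have := mul_le_mul_of_nonneg_left (H.new j a b).1 (sq_nonneg |κ|)
    linarith only [this]
  · exact sc hk (H.new j a b).2
  · obtain ⟨A, Rg, hs⟩ := H.suf s' a b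
    exact ⟨_, Rg, suf hκ hs⟩

theorem hist (hκ : κ ≠ 0) {h n : ℤ} (H : S.Hist c ξ w h n) :
    S.Hist c (fun j => κ * ξ j) (fun j => |κ| * w j) h n := by
  have hk : 0 < |κ| := abs_pos.2 hκ
  refine ⟨H.h0, ?_, by rw [abs_mul, H.wn], by rw [abs_mul, abs_mul]; exact sc1 hk H.slope,
    fun j a b => mul_pos hk (H.pos j a b), ⟨fun j a b => ?_, fun j a b => ?_⟩,
    fun j a b d e => sc1 hk (H.backK j a b d e), fun j a b => sc1 hk (H.back j a b),
    fun j a b => sc1 hk (H.fwd j a b),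
    fun i j a b d => ⟨sc1 hk (H.pw i j a b d).1, sc hk (H.pw i j a b d).2.1, ?_⟩,
    fun i a b => sc hk (H.dec i a b)⟩
  · have hc := H.chain
    clear H
    induction hc with
    | nil => exact .nil
    | cons _ st ih => exact .cons ih (hstep hκ st)
  · show κ * ξ (j + 1) = S.a j * (κ * ξ j) + S.b j * (κ * ξ (j - 1))
    rw [H.maj.1 j a b]; ring
  · show |κ * ξ j| ≤ 1 * (|κ| * w j)
    rw [abs_mul]; exact sc1 hk (H.maj.2 j a b)
  · rw [bc hk]; exact (H.pw i j a b d).2.2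

end H2S

theorem scl (c : Cs) : SCL_s c := by
  intro S ξ w h n κ hκ
  have hk : 0 < |κ| := abs_pos.2 hκ
  exact ⟨H2S.hist hκ, fun H => ⟨H2S.hist hκ H.hist, fun i a b => H2S.sc1 hk (H.half i a b),
    fun i a b => H2S.sc hk (H.pb i a b), fun i a b => by rw [H2S.bc hk]; exact H.bc i a b, H.far⟩⟩

end Pool.Agent.MP_9cbfe4_an

end
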