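import Pool.Agent.MP_9cbfe4_an.M00
import Pool.Agent.MP_9cbfe4_an.M02
import Pool.Agent.MP_9cbfe4_an.M05

set_option linter.all false

attribute [-instance] AddQuantale.instAddLeftMono IdemSemiring.toCanonicallyOrderedAdd
  NumberField.to_charZero AddQuantale.instAddRightMono IdemSemiring.toMulLeftMono RKHS.instFunLike
  Quantale.instMulRightMono Quantale.instMulLeftMono IsOrderedCancelMonoid.toIsOrderedMonoid
  LinearOrderedCommMonoidWithZero.toPosMulStrictMono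
  Group.IsPerfect.subsingleton_of_isMulCommutative CanonicallyOrderedAdd.toMulLeftMono
  Valued.toUniformSpace IdemSemiring.toMulRightMono TotallySeparatedSpace.t2Space
  LinearOrderedCommMonoidWithZero.toIsOrderedMonoid IsScalarTower.complexToReal
  Order.Coframe.toCompleteLattice OmegaCompletePartialOrder.toPartialOrder Invertible.toNeZero
  GrpTypeEquivalenceGrp.grpGroup littleWedderburn CanonicallyOrderedMul.toMulLeftMono
  CoalgHomClass.toSemilinearMapClass TestFunctionClass.toDFunLike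
  ContDiffMapSupportedInClass.toDFunLike Order.Frame.toCompleteLattice RightPreLieAlgebra.toModule
  CategoryTheory.Limits.Concrete.instUniqueToTypeTerminal LeftPreLieAlgebra.toModule
  CStarAlgebra.instOrderClosedTopology IdemSemiring.toSemiring
  LieAdmissibleRing.toNonUnitalNonAssocRing NonUnitalAlgSemiHomClass.toDistribMulActionSemiHomClass
  CStarAlgebra.toNormedRing

/-! ### Part JDef -/

section

/-! THM-2, sections DS and J: skeleton, fit, jets, majorants (definitions).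
Time `0` is the fold, `ξ = S.fr 1`, derivatives are plain derivatives. -/

namespace Pool.Agent.MP_9cbfe4_an

open Finset Filter Topology Real

noncomputable section

namespace Cs
variable (c : Cs)
def ck : ℝ := 2 + c.κ
def Cg : ℝ := 1000 * c.ck ^ 2
/-- running exponent of the jets of order `j` -/
def gm (γ : ℝ) (j : ℕ) : ℝ := γ * c.Cg ^ j
/-- exponent budget -/
def Bud (K : ℕ) (γ : ℝ) : Prop := (K : ℝ) + 1 ≤ γ ∧ 1000 * (K + 1) * c.gm γ (K + 3) ≤ c.C0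
def ep : ℝ := exp (-c.bl / 2)
end Cs

def Cw (K : ℕ) : ℝ := 300000 * K
def g2 (K : ℕ) (γ : ℝ) : ℝ := 100 * (K + 1) * (γ + K + 10)
def gm5 (K : ℕ) (γ : ℝ) : ℝ := 100 * g2 K (γ + 10)

/-- orbit-free data of a bound run: free times `F`, majors `D`, next free time `nx`, depths `η`,
majorants `w`, `om`, contraction `ch`, bound `B` for `b`, level `W`, logarithm of the slack `sl` -/
structure Sk where
  N : ℤ
  F : Finset ℤ
  D : Finset ℤ
  nx : ℤ → ℤ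
  η : ℤ → ℝ
  w : ℤ → ℝ
  om : ℤ → ℝ
  ch : ℤ → ℝ
  B : ℤ → ℝ
  W : ℤ → ℝ
  sl : ℤ → ℝ

namespace Sk
variable (k : Sk)

/-- `log s_i` -/
def σ (i : ℤ) : ℝ := k.sl (k.nx i)
def chi (i j : ℤ) : ℝ := ∑ l ∈ Ioc i j, k.ch l
def PB (i j : ℤ) : ℝ := ∏ l ∈ Ioc i j, k.B l
def V (x : ℤ) (e : ℕ) : ℝ := 1 / (k.η x ^ e * k.w x)
def an (n i : ℤ) : ℝ :=
  (k.D.filter fun x => i < x ∧ x < n).fold max 0 fun x => exp (-k.chi i x / 2) * k.V x 1
/-- majorant of `|fr (i+1) j| / w j`, horizon `n` -/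
def E (n i : ℤ) : ℝ :=
  (if i ∈ k.D then 4 * k.V i 1 else exp (4 * k.σ i) / k.om i) + exp (4 * k.σ i) * k.an n i
def w4 (i : ℤ) : ℝ :=
  (k.D.filter fun x => x < i ∧ i < k.nx x).fold max (k.w i) fun x => k.w x * exp (-k.chi x i / 4)
/-- graded majorant: floor, tail of the major whose block contains `i`, later majors `< n` -/
def NN (n : ℤ) (e : ℕ) (g : ℝ) (i : ℤ) : ℝ :=
  (k.D.filter fun x => x < n ∧ i < k.nx x).fold max (exp (g * k.σ i)) fun x =>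
    if x < i then exp (g * k.σ i) * exp (-k.chi x i / 4) / k.η x ^ e
    else k.w4 i * exp (g * k.σ x) * k.V x e
/-- least depth among the majors `< n` whose block is not over at `i` -/
def em (n i : ℤ) : ℝ := (k.D.filter fun x => x < n ∧ i < k.nx x).fold min 1 k.η
/-- `η_*^{-2}` -/
def rh (n : ℤ) : ℝ := (k.D.filter fun x => x < n).fold max 1 fun x => 1 / k.η x ^ 2
def Vm (n : ℤ) (e : ℕ) : ℝ := (k.D.filter fun x => x < n).fold max 1 fun x => k.V x e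
def d8 (j : ℤ) : ℝ := (k.D.filter fun x => x < j).fold max 0 fun x => exp (8 * k.σ x) * k.V x 1
/-- radius of a tube and its size -/
def mu (n : ℤ) (α D z γ : ℝ) (l : ℤ) : ℝ :=
  k.w4 l * α + D * k.NN n 1 γ l + z * exp (-k.chi 0 l / 4)
def sz (n : ℤ) (α D z : ℝ) : ℝ := α * exp (k.W n) + D * k.rh n + z
def Strong (K : ℕ) (x : ℤ) : Prop := k.W x ≤ Cw K * (-log (k.η x))

/-- times, levels, slack -/
structure OK1 (c : Cs) : Prop where
  one : 1 ∈ k.F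
  last : k.N ∈ k.F
  F_mem : ∀ m ∈ k.F, 1 ≤ m ∧ m ≤ k.N
  D_mem : ∀ x ∈ k.D, x ∈ k.F ∧ x < k.N
  nx_mem : ∀ i, i < k.N → k.nx i ∈ k.F ∧ i < k.nx i ∧ ∀ m ∈ k.F, i < m → k.nx i ≤ m
  nx_N : k.nx k.N = k.N
  ch_mem : ∀ l, 1 / 2 ≤ k.ch l ∧ k.ch l ≤ c.bl
  ch_one : k.ch 1 = c.bl ∧ k.B 1 = exp (-c.bl)
  ch_D : ∀ x ∈ k.D, k.ch x = c.bl ∧ k.ch (x + 1) = c.bl
  B_lo : ∀ l, exp (-c.bl) ≤ k.B l
  w0 : k.w 0 = 0
  w1 : k.w 1 = 1
  w_pos : ∀ i, 1 ≤ i → 0 < k.w i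
  w_step : ∀ l, 1 ≤ l → k.w (l - 1) * exp (-k.ch l / 2) ≤ k.w l
  η_mem : ∀ x ∈ k.D, 0 < k.η x ∧ k.η x ≤ 1
  W1 : k.W 1 = 0
  W_mono : ∀ i j, 1 ≤ i → i ≤ j → k.W i ≤ k.W j
  sl_mono : ∀ i j, 1 ≤ i → i ≤ j → k.sl i ≤ k.sl j
  sl1 : c.lam ≤ k.sl 1
  time : ∀ m ∈ k.F, (m : ℝ) ^ 2 ≤ exp (k.sl m)
  lip : ∀ i j, 1 ≤ i → i ≤ j → k.sl j ≤ k.sl i + c.ths * (k.W j - k.W i)
  jump : ∀ m ∈ k.F, k.σ m ≤ c.ck * k.sl m
  lo : ∀ m ∈ k.F, k.W m - k.sl m ≤ log (k.w m)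
  hi : ∀ i, 1 ≤ i → i ≤ k.N → log (k.w i) ≤ k.W i + k.sl 1
  nmaj : ∀ m ∈ k.F, m ∉ k.D → k.W (k.nx m) ≤ k.W m + k.sl m
  maj : ∀ x ∈ k.D, log (k.w x) - log (k.η x) ≤ k.W (k.nx x) ∧
    k.W (k.nx x) ≤ log (k.w x) - log (k.η x) + 2 * k.σ x
  d0 : ∀ x ∈ k.D, c.C0 * (-log (k.η x)) ≤ k.chi 0 x
  d5 : ∀ x ∈ k.D, c.C0 * k.W (k.nx x) ≤ k.chi x (k.nx x)
  d9 : ∀ x ∈ k.D, k.σ x ≤ c.e3 ^ 2 * k.W (k.nx x)
  d10 : ∀ m ∈ k.F, c.C0 * k.sl m ≤ k.chi 0 m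

/-- inside blocks, decay -/
structure OK2 : Prop where
  nlo : ∀ m ∈ k.F, m ∉ k.D → ∀ i, m ≤ i → i < k.nx m → k.W m - k.σ m ≤ log (k.w i)
  om_out : ∀ i, (∀ x ∈ k.D, x < i → k.nx x ≤ i) → k.om i = k.w i
  om_in : ∀ x ∈ k.D, ∀ i, x < i → i < k.nx x →
    k.w x * k.η x ≤ exp (k.σ x) * k.om i ∧ k.om i ≤ 2 * k.w i ∧
    k.w i ≤ k.om i + k.w x * exp (-k.chi x i / 2) ∧
    k.om i ≤ k.w x * k.η x * exp (k.chi x i / 100) ∧
    ∀ l, x < l → l ≤ i → k.om l ≤ exp (k.σ x) * k.om i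
  d4 : ∀ i l, 1 ≤ i → i ≤ l → l ≤ k.N →
    k.PB i l * k.w i ≤ exp (k.σ l) * exp (-k.chi i l / 2) * k.w l
  i2 : ∀ m ∈ k.F, ∀ i, 1 ≤ i → i ≤ m →
    k.PB i m * k.w i ≤ 2 * exp (-(99 / 100) * k.chi i m) * k.w m ∧
    k.w i ≤ 2 * exp (k.chi i m / 100) * k.w m
  pbx : ∀ x ∈ k.D, ∀ i, x ≤ i → i ≤ k.nx x → k.PB x i ≤ exp (-(99 / 100) * k.chi x i)
  pbb : ∀ x ∈ k.D, ∀ l i, x ≤ l → l ≤ i → i ≤ k.nx x → k.PB l i ≤ exp (k.σ x) * exp (-k.chi l i)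

def OK (c : Cs) : Prop := k.OK1 c ∧ k.OK2

/-- majorant of the jets of order `j` with tail `τ` -/
def MJ (c : Cs) (n : ℤ) (γ : ℝ) (τ : ℕ → ℝ) (j : ℕ) (l : ℤ) : ℝ :=
  k.w4 l * τ j + k.NN n (2 * j - 1) (c.gm γ j) l

/-- admissible tail up to order `r`; `τ'` bounds the products -/
structure Adm (c : Cs) (n : ℤ) (r : ℕ) (γ : ℝ) (τ : ℕ → ℝ) (τ' : ℕ → ℤ → ℝ) : Prop where
  pos : ∀ j, 0 ≤ τ j
  pos' : ∀ j i, 0 ≤ τ' j i
  anti : ∀ j i i', i ≤ i' → τ' j i' ≤ τ' j i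
  margin : ∀ j i, 2 ≤ j → j ≤ r → exp (20 * k.sl n) * τ' j i ≤ τ j
  tt : ∀ a b i, 1 ≤ a → 1 ≤ b → a + b ≤ r + 1 → 1 ≤ i → i < n →
    k.E n i * k.w4 i ^ 2 * τ a * τ b ≤
      max (τ' (a + b) i) (k.NN n (2 * (a + b) - 1) (c.gm γ (a + b) / 4) i / k.w4 i)
  tn : ∀ a b i, 1 ≤ a → 1 ≤ b → a + b ≤ r + 1 → 1 ≤ i → i < n →
    k.E n i * k.w4 i * τ a * k.NN n (2 * b - 1) (4 * c.gm γ b) i ≤
      max (τ' (a + b) i) (k.NN n (2 * (a + b) - 1) (c.gm γ (a + b) / 4) i / k.w4 i)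
end Sk

/-- the orbit `S` fits the skeleton up to the free time `n` with constant `g` -/
structure Fit (c : Cs) (g : ℝ) (S : Sq) (k : Sk) (n : ℤ) : Prop where
  f1 : ∀ i, 1 ≤ i → i ≤ n → |S.fr 1 i| ≤ g * k.w i
  f2 : ∀ m ∈ k.F, m ≤ n → k.w m ≤ g * |S.fr 1 m|
  fE : ∀ m ∈ k.F, m ≤ n → ∀ i j, 1 ≤ i → i < j → j ≤ m → |S.fr (i + 1) j| ≤ g * k.E m i * k.w j
  fblk : ∀ x ∈ k.D, x < n → ∀ i j, x < i → i < j → j ≤ k.nx x →
    |S.fr (i + 1) j| ≤ g * exp (k.chi x i / 100) * k.V x 1 * k.w j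
  fx : ∀ x ∈ k.D, x < n → ∀ i, x < i → i ≤ k.nx x →
    |S.fr (x + 1) i| ≤ g * (exp (51 / 100 * k.chi x i) / k.w x) * k.w i
  flo : ∀ x ∈ k.D, x < n → k.V x 1 * k.w (k.nx x) ≤ g * |S.fr (x + 1) (k.nx x)|
  d8 : ∀ j, 1 ≤ j → j ≤ n → ∑ i ∈ Ico 1 j, |S.fr (i + 1) j| ≤ g * (1 / 10000 + k.d8 j) * k.w j
  b : ∀ l, 1 ≤ l → l ≤ n → 0 ≤ S.b l ∧ S.b l ≤ k.B l
  zone : ∀ l, 1 ≤ l → l ≤ n → dP (S.X l) < 2 / 100 - g / 10000 →
    dP (S.X (l - 1)) < 2 / 100 - g / 10000 → k.ch l ≤ log 16 ∧ c.k0 * c.L + 1 ≤ k.B l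
  fold : ∀ x ∈ k.D, x < n → |sin (S.X x)| ≤ g / 1000

/-- an orbit from time `1` that fits -/
structure OC (K : ℕ) (c : Cs) (M : Mdl) (t g : ℝ) (S : Sq) (k : Sk) (n : ℤ) : Prop where
  ok : M.OKk c (K + 6)
  sk : k.OK c
  hn : n ∈ k.F
  t0 : 0 < t
  t1 : t < 1
  orb : IsOrb c M t S 1
  box0 : |S.X 0| ≤ 3 / 2 * c.L ∧ |S.X 1| ≤ 3 / 2 * c.L
  g1 : 1 ≤ g
  g16 : g ≤ 16
  fit : Fit c g S k n

/-- a second orbit from time `1` -/
structure O2 (c : Cs) (M : Mdl) (t : ℝ) (S : Sq) : Prop where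
  t0 : 0 < t
  t1 : t < 1
  orb : IsOrb c M t S 1
  box0 : |S.X 0| ≤ 3 / 2 * c.L ∧ |S.X 1| ≤ 3 / 2 * c.L

def JTube (k : Sk) (n : ℤ) (α D z γ t t' : ℝ) (S S' : Sq) : Prop :=
  0 ≤ α ∧ 0 ≤ z ∧ |t' - t| ≤ D ∧ ∀ l, 0 ≤ l → l ≤ n → |S'.X l - S.X l| ≤ k.mu n α D z γ l

/-- pointwise closeness of the coefficients -/
structure TCp (M : Mdl) (t t' : ℝ) (S S' : Sq) (k : Sk) (n : ℤ) (δ : ℝ) : Prop where
  ab : ∀ l, 1 ≤ l → l < n →
    k.E n l * (|S'.a l - S.a l| * k.w l + |S'.b l - S.b l| * k.w (l - 1)) ≤ δ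
  gt : ∀ l, 1 ≤ l → l < n → |M.gt t' S' l - M.gt t S l| ≤ δ

/-- summed closeness of the coefficients -/
structure TCs (S S' : Sq) (k : Sk) (n : ℤ) (δ : ℝ) : Prop where
  ab : ∀ j, 1 ≤ j → j ≤ n → ∑ l ∈ Ico 1 j,
    |S.fr (l + 1) j| * (|S'.a l - S.a l| * k.w l + |S'.b l - S.b l| * k.w (l - 1)) ≤ δ * k.w j
  x : ∀ l, 0 ≤ l → l ≤ n → |S'.X l - S.X l| ≤ 1 / 10000

def Close (S S' : Sq) (k : Sk) (n : ℤ) (ζ : ℝ) : Prop :=
  ∀ (i j : ℤ) (A : ℝ), 0 ≤ i → i < j → j ≤ n → (∀ l, i < l → l ≤ j → |S.fr (i + 1) l| ≤ A * k.w l) →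
    |S'.fr (i + 1) j - S.fr (i + 1) j| ≤ ζ * A * k.w j

/-- the source of order one in the block identity -/
def Mdl.sgO (M : Mdl) (t : ℝ) (S : Sq) (x J : ℤ) : ℝ :=
  M.gt t S x + ∑ i ∈ Ico 1 x, (-1) ^ (x - i).toNat * S.Pb i x * (S.fr 1 i / S.fr 1 x) * M.gt t S i
    + ∑ i ∈ Ioo x J, S.fr (i + 1) J / S.fr (x + 1) J * M.gt t S i
def D7 (M : Mdl) (t g : ℝ) (S : Sq) (k : Sk) (x : ℤ) : Prop :=
  exp (-k.σ x) ≤ g * |M.sgO t S x (k.nx x)|

namespace Seed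
variable (σ : Seed) (M : Mdl)
/-- jets `p_j(l)` -/
def pj (t : ℝ) (j : ℕ) (l : ℤ) : ℝ := iteratedDeriv j (fun s => (σ.orb M s).X l) t
def La (t : ℝ) (j : ℕ) (l : ℤ) : ℝ := σ.pj M t j l / (σ.orb M t).fr 1 l
/-- source of the recursion of the jets -/
def Qj (t : ℝ) (j : ℕ) (l : ℤ) : ℝ :=
  σ.pj M t j (l + 1) - (σ.orb M t).a l * σ.pj M t j l - (σ.orb M t).b l * σ.pj M t j (l - 1)
def Lt (c : Cs) (t : ℝ) (x : ℤ) : ℝ := -(c.L * cos ((σ.orb M t).X x))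
/-- size of the jet of order `a` of `(t, X_l, X_{l-1})` -/
def gz (t q : ℝ) (a : ℕ) (l : ℤ) : ℝ :=
  max (if a = 1 then 1 else 0) (max |σ.pj M t a l| (q * |σ.pj M t a (l - 1)|))

/-- the initial data at the parameter `t` -/
structure At (K : ℕ) (c : Cs) (t : ℝ) : Prop where
  t0 : 0 < t
  t1 : t < 1
  sv : ContDiffAt ℝ (K + 1 : ℕ) σ.v t
  sc : ContDiffAt ℝ (K + 1 : ℕ) σ.c t
  v1 : |deriv σ.v t - 1| ≤ 1 / 10
  vj : ∀ j : ℕ, 2 ≤ j → j ≤ K + 1 → |iteratedDeriv j σ.v t| ≤ 1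
  cj : ∀ j : ℕ, 1 ≤ j → j ≤ K + 1 → |iteratedDeriv j σ.c t| ≤ 1 / 10
  bv : |σ.v t| ≤ 3 / 2 * c.L
  bc : |σ.c t| ≤ 3 / 2 * c.L
  far : 1 ≤ dP (σ.v t)

/-- the jets of orders `≤ r` of two seeds differ by at most `ϑ` -/
def Near (σ' : Seed) (t : ℝ) (r : ℕ) (ϑ : ℝ) : Prop := ∀ j : ℕ, j ≤ r →
  |iteratedDeriv j σ'.v t - iteratedDeriv j σ.v t| ≤ ϑ ∧
  |iteratedDeriv j σ'.c t - iteratedDeriv j σ.c t| ≤ ϑ

def Canc (c : Cs) (t f : ℝ) (k : Sk) (r : ℕ) (x : ℤ) : Prop :=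
  ∀ j, 1 ≤ j → j ≤ r → |σ.La M t j (k.nx x)| ≤ f * (k.η x ^ c.th * k.V x (2 * j - 1))
/-- `β_x` of J5 -/
def bx (c : Cs) (t : ℝ) (k : Sk) (x : ℤ) : ℝ :=
  σ.Lt M c t x * σ.pj M t 1 x / (σ.orb M t).rho ((σ.orb M t).fr 1) x (k.nx x)
end Seed

/-- standing hypotheses of the jet lemmas -/
structure JC (K : ℕ) (c : Cs) (M : Mdl) (σ : Seed) (t g : ℝ) (k : Sk) (n : ℤ) : Prop where
  oc : OC K c M t g (σ.orb M t) k n
  at' : σ.At K c t

/-- a window of scale `D` at the free time `n` (tail of type I) -/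
structure Win (K : ℕ) (M : Mdl) (σ : Seed) (t : ℝ) (k : Sk) (n : ℤ) (D u ν G1 G2 : ℝ) : Prop where
  D0 : 0 < D
  u0 : 0 ≤ u
  hD : D * k.rh n ≤ exp (-G1 * k.sl n)
  hA : (u + ν) * exp (k.W n) ≤ exp (-G1 * k.sl n)
  hν : exp (G2 * k.sl n) * (u ^ 2 * exp (k.W n) + u * D * k.rh n) ≤ ν
  l1 : 32 * |σ.La M t 1 n| * D ≤ u
  lj : ∀ j, 2 ≤ j → j ≤ K → 32 * |σ.La M t j n| * D ^ j ≤ ν

/-- tail of a window after moving the parameter -/
def wt (D u ν : ℝ) (j : ℕ) : ℝ := if j = 1 then 4 * (u + ν) / D else 4 * ν / D ^ j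

/-! ### the skeleton of a datum -/

/-- free times of a run -/
def frs (Ls : List (ℤ × ℝ)) (p : ℤ) : Finset ℤ := insert p (Ls.map Prod.fst).toFinset
/-- next free time -/
def nxt (Ls : List (ℤ × ℝ)) (p i : ℤ) : ℤ := ((frs Ls p).filter fun m => i < m).fold min p id

namespace Dat
variable (c : Cs) (M : Mdl) (d : Dat)
def ζ : ℤ → ℝ := (d.S M).fr (d.n + 1)
def cW (y : ℝ) : ℝ := min y (c.C1 * d.ld c M + c.ε * y + c.cc)
/-- depth of the step at the free time `m` (absolute time) -/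
def dp (m : ℤ) : ℝ := (d.S M).dep c (d.ζ M) m (nxt d.Ls d.p m)
open Classical in
/-- majors (absolute times) -/
def mj : Finset ℤ := (frs d.Ls d.p).filter fun m =>
  m < d.p ∧ c.am * d.cW c M ((d.S M).Wp c d.n m) + c.lam ≤ d.dp c M m
open Classical in
def sk : Sk where
  N := d.p - d.n
  F := (frs d.Ls d.p).image fun m => m - d.n
  D := (d.mj c M).image fun m => m - d.n
  nx i := nxt d.Ls d.p (i + d.n) - d.n
  η m := |(d.S M).rho (d.ζ M) (m + d.n) (nxt d.Ls d.p (m + d.n))|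
  w i := (d.S M).wp c d.n (i + d.n)
  om i := if h : ∃ x ∈ d.mj c M, x < i + d.n ∧ i + d.n < nxt d.Ls d.p x then
      (d.S M).wp c d.n h.choose * |(d.S M).rho (d.ζ M) h.choose (nxt d.Ls d.p h.choose)| *
        (d.S M).wp c h.choose (i + d.n)
    else (d.S M).wp c d.n (i + d.n)
  ch l := (d.S M).ch1 c (l + d.n)
  B l := (d.S M).bb c (2 / 100) (l + d.n)
  W i := (d.S M).Wp c d.n (i + d.n)
  sl i := c.ths * d.cW c M ((d.S M).Wp c d.n (i + d.n)) + 10 * c.lam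
/-- the true orbit, time `0` at the fold -/
def O : Sq := (d.S M).shift d.n
end Dat

end
end Pool.Agent.MP_9cbfe4_an

end

/-! ### Part JIf -/

section

/-! THM-2, sections DS and J: row statements.  A row proves `∀ K, Hier fun c => deps → X_s K c`. -/

namespace Pool.Agent.MP_9cbfe4_an

open Finset Filter Topology Real

noncomputable section

/-! ### orbit-free tables -/

def TA_s (c : Cs) : Prop := ∀ k : Sk, k.OK c →
  (∀ i, 1 ≤ i → k.w i ≤ k.w4 i) ∧ k.w4 0 = 0 ∧ (∀ m ∈ k.F, k.w4 m = k.w m) ∧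
  (∀ i j, i ≤ j → j ≤ k.N → k.σ i ≤ k.σ j) ∧ (∀ i, i ≤ k.N → c.lam ≤ k.σ i) ∧
  (∀ n ∈ k.F, ∀ i, i < n → k.σ i ≤ k.sl n) ∧
  (∀ i, 1 ≤ i → i ≤ k.N → (i : ℝ) ^ 2 ≤ exp (k.σ i) ∧ c.C0 * k.σ i ≤ c.ck * k.chi 0 i) ∧
  (∀ x ∈ k.D, -log (k.η x) ≤ 2 * k.W (k.nx x)) ∧
  (∀ x ∈ k.D, ∀ i, x < i → i < k.nx x → k.w4 i ≤ k.om i + k.w x * exp (-k.chi x i / 4) ∧
    k.w x * exp (-k.chi x i / 4) ≤ k.w4 i) ∧
  (∀ m ∈ k.F, ∀ i, 0 ≤ i → i ≤ m → k.w4 i ≤ exp (k.W m + k.sl 1) ∧ k.w4 i ≤ exp (2 * k.sl m) * k.w m ∧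
    k.w4 i ≤ 2 * exp (k.chi i m / 100) * k.w m) ∧
  (∀ m ∈ k.F, ∀ y ∈ k.F, m ≤ y → ∀ G, 0 ≤ G → G ≤ c.C0 ^ 2 →
    G * k.σ y + k.W m ≤ (c.ck * G + 1) * k.sl m + log (k.w y)) ∧
  (∀ n i, 1 ≤ i → i < k.N → 1 / 2 ≤ k.E n i * k.w i) ∧
  (∀ n n' i, n ≤ n' → k.E n i ≤ k.E n' i) ∧
  (∀ n ∈ k.F, ∀ i, 1 ≤ i → i < n → k.E n i * k.w4 i ^ 2 ≤ exp (k.W n + 12 * k.sl n) ∧
    k.E n i * k.w4 i * exp (-k.chi 0 i / 100) ≤ 1 ∧ k.E n i ≤ exp (k.W n + 8 * k.sl n)) ∧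
  (∀ n, 1 < k.N → k.B 1 * k.E n 1 ≤ exp (-(9 / 10) * c.bl)) ∧
  (∀ n i, 0 < k.em n i ∧ k.em n i ≤ 1 ∧ 1 / k.em n i ^ 2 ≤ k.rh n ∧
    ∀ i', i ≤ i' → k.em n i ≤ k.em n i') ∧
  (∀ n ∈ k.F, 1 ≤ k.rh n ∧ k.rh n ≤ exp (2 * k.W n + 2 * k.sl n)) ∧
  (∀ n e g i, 0 ≤ g → 0 ≤ i → i ≤ k.N → 1 ≤ k.NN n e g i ∧
    (∀ n' e' g', n ≤ n' → e ≤ e' → g ≤ g' → k.NN n e g i ≤ k.NN n' e' g' i) ∧
    (∀ g', 0 ≤ g' → exp (g' * k.σ i) * k.NN n e g i ≤ k.NN n e (g + g') i) ∧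
    (n ∈ k.F → i < n → (∀ g', 0 ≤ g' → k.NN n e (g + g') i ≤ exp (g' * k.sl n) * k.NN n e g i) ∧
      k.NN n e g i ≤ exp ((g + 2) * k.sl n) / k.em n i ^ e ∧
      ∀ e', k.NN n (e + e') g i ≤ k.NN n e g i / k.em n i ^ e'))

/-- one step back, propagation, transfer -/
def TB_s (c : Cs) : Prop := ∀ k : Sk, k.OK c → ∀ n ∈ k.F, ∀ (e : ℕ) (g : ℝ), 100 * (e : ℝ) ≤ c.C0 →
  0 ≤ g → g ≤ c.C0 →
  (∀ i, 1 ≤ i → i ≤ n → exp (-k.ch i / 2) * k.w4 (i - 1) ≤ 2 * k.w4 i ∧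
    exp (-k.ch i / 2) * k.NN n e g (i - 1) ≤ k.NN n e (g + 1) i) ∧
  (∀ i l, 0 ≤ i → i ≤ l → l ≤ n → exp (-k.chi i l / 4) * k.w4 i ≤ exp (4 * k.σ l) * k.w4 l ∧
    exp (-k.chi i l / 4) * k.NN n e g i ≤ k.NN n e (g + 4) l) ∧
  (∀ l i, 0 ≤ l → l ≤ i → 1 ≤ i → i < n → 1 ≤ e →
    k.w4 l * k.NN n e g i / k.w4 i ≤ k.NN n e (g + 6) l) ∧
  (∀ i (θ : ℝ), 0 ≤ i → i < n → 4 * (e : ℝ) ≤ θ * c.C0 →
    exp (-θ * k.chi i n) * k.NN n e g i ≤ exp ((g + 2) * k.sl n))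

/-- the product table -/
def TC_s (c : Cs) : Prop := ∀ k : Sk, k.OK c → ∀ n ∈ k.F,
  (∀ i, 1 ≤ i → i < n → k.E n i * k.w4 i ≤ k.NN n 1 8 i) ∧
  ∀ (e e' : ℕ) (g g' : ℝ) i, 0 ≤ g → g ≤ c.C0 → 0 ≤ g' → g' ≤ c.C0 → 0 ≤ i → i ≤ n →
    k.NN n e g i * k.NN n e' g' i ≤ k.NN n (e + e') (3 * c.ck * (g + g' + 3)) i

/-- tails of type I -/
def AD1_s (K : ℕ) (c : Cs) : Prop := ∀ k : Sk, k.OK c → ∀ n ∈ k.F, ∀ (γ : ℝ) (r : ℕ) (τ : ℕ → ℝ),
  c.Bud K γ → r ≤ K + 1 → (∀ j, 0 ≤ τ j) →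
  (∀ a b, 1 ≤ a → 1 ≤ b → a + b ≤ r + 1 →
    τ a * τ b * exp (k.W n + 4 * c.gm γ (K + 2) * k.sl n) ≤ τ (a + b) ∧
    τ a * k.rh n ^ b * exp (4 * c.gm γ (K + 2) * k.sl n) ≤ τ (a + b)) →
  k.Adm c n r γ τ fun j _ => if j ≤ 1 then 0 else exp (-2 * c.gm γ (K + 2) * k.sl n) * τ j

/-- tails of type II: `n` is a real or virtual element of depth `η0`, weight `θ`, slack `s0` -/
def AD2_s (K : ℕ) (c : Cs) : Prop := ∀ k : Sk, k.OK c → ∀ n ∈ k.F, ∀ (γ η0 θ s0 : ℝ) (r : ℕ),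
  c.Bud K γ → r ≤ K + 1 → 0 < η0 → η0 ≤ 1 → 0 ≤ θ → θ ≤ 1 → k.sl n ≤ s0 → s0 ≤ c.ck * k.sl n →
  k.Adm c n r γ (fun j => θ * exp (c.gm γ j * s0) / (η0 ^ (2 * j - 1) * k.w n)) fun j i =>
    if j ≤ 1 then 0 else
      θ * exp (c.gm γ j / 2 * s0) / (η0 ^ (2 * j - 2) * max η0 (k.em n i) * k.w n)

/-- tails of types III, IV: a copy of the major `x` at `x+` with weight `o` -/
def AD3_s (K : ℕ) (c : Cs) : Prop := ∀ k : Sk, k.OK c → ∀ x ∈ k.D, ∀ (γ o : ℝ) (r : ℕ),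
  c.Bud K γ → r ≤ K + 1 → 0 ≤ o → o ≤ exp (γ * k.σ x) →
  k.Adm c (k.nx x) r γ (fun j => o * exp (c.gm γ j * k.σ x) * k.V x (2 * j - 1)) fun j _ =>
    if j ≤ 1 then 0 else o * exp (c.gm γ j / 2 * k.σ x) * k.V x (2 * j - 1)

/-! ### perturbation of orbits -/

/-- geometry of the model along an orbit that fits: box, gauge on segments -/
def GEO_s (K : ℕ) (c : Cs) : Prop := ∀ M t g S k n, OC K c M t g S k n → ∀ t' S', O2 c M t' S' →
  ∀ l, 1 ≤ l → l ≤ n → |S'.X l - S.X l| ≤ 1 / 10000 → |S'.X (l - 1) - S.X (l - 1)| ≤ 1 / 10000 →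
  ∀ z ∈ segment ℝ ((t, S.X l, S.X (l - 1)) : ℝ × ℝ × ℝ) (t', S'.X l, S'.X (l - 1)),
    z ∈ OB c ∧ (l ∈ k.D → l < n → 1 ≤ dP z.2.1) ∧
    ∀ j : ℕ, 2 ≤ j → j ≤ K + 6 → ∀ v : Fin j → ℝ × ℝ × ℝ,
      |iteratedFDeriv ℝ j M.GG z v| ≤ c.CG * c.L * ∏ i, nq (exp (-k.ch l / 2)) (v i)

def TUBE_s (K : ℕ) (c : Cs) : Prop := ∀ M t g S k n, OC K c M t g S k n → ∀ t' S', O2 c M t' S' →
  ∀ α D z γ, 0 ≤ γ → γ ≤ c.C0 → JTube k n α D z γ t t' S S' →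
  k.sz n α D z ≤ exp (-(c.ck * γ + 60) * k.sl n) →
  TCp M t t' S S' k n (k.sz n α D z * exp ((γ + 30) * k.sl n)) ∧
  TCs S S' k n (k.sz n α D z * exp ((γ + 32) * k.sl n))

def R2_s (K : ℕ) (c : Cs) : Prop := ∀ M t g S k n, OC K c M t g S k n → g ≤ 8 →
  ∀ t' S', O2 c M t' S' → ∀ δ, δ ≤ 1 / 10000 → TCs S S' k n δ →
  OC K c M t' (2 * g) S' k n ∧ Close S S' k n (2 * δ)

/-- the source is stable -/
def D7S_s (K : ℕ) (c : Cs) : Prop := ∀ M t g S k n, OC K c M t g S k n → g ≤ 8 →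
  ∀ t' S', O2 c M t' S' → ∀ δ, δ ≤ exp (-25 * k.sl n) → TCp M t t' S S' k n δ → TCs S S' k n δ →
  ∀ x ∈ k.D, x < n → |M.sgO t' S' x (k.nx x) - M.sgO t S x (k.nx x)| ≤ δ * exp (20 * k.sl n) ∧
    (D7 M t g S k x → D7 M t' (2 * g) S' k x)

/-- shadowing at the same parameter; `ν_1` -/
def SHD_s (K : ℕ) (c : Cs) : Prop := ∀ M t g S k n, OC K c M t g S k n →
  (|S.nu1 n| ≤ exp (-c.bl / 2) ∧ ∀ m ∈ k.F, m ≤ n → |S.nu1 n - S.nu1 m| ≤ exp (-k.chi 0 m / 2)) ∧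
  ∀ S', O2 c M t S' → ∀ ϖ, |S'.X 0 - S.X 0| ≤ ϖ → |S'.X 1 - S.X 1| ≤ ϖ →
    ϖ * exp (k.W n) ≤ exp (-20 * k.sl n) →
    JTube k n (2 * g * ϖ) 0 ϖ 0 t t S S' ∧
    (∀ l, 1 ≤ l → l ≤ n → |S'.X l - S.X l| ≤ 2 * g * ϖ * k.w l ∧
      |S'.X l - S.X l - (S'.X 1 - S.X 1) * S.fr 1 l - S.b 1 * (S'.X 0 - S.X 0) * S.fr 2 l|
        ≤ ϖ ^ 2 * exp (k.W n + 16 * k.sl n) * k.w l) ∧
    |S'.X n - S.X n - (S'.X 1 - S.X 1 - S.nu1 n * (S'.X 0 - S.X 0)) * S.fr 1 n|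
      ≤ ϖ ^ 2 * exp (k.W n + 16 * k.sl n) * k.w n

/-- J6: two orbits in one tube -/
def J6_s (K : ℕ) (c : Cs) : Prop := ∀ M t g S k n, OC K c M t g S k n → g ≤ 8 → 1 < n →
  ∀ t' S', O2 c M t' S' → ∀ α D z γ, 0 ≤ γ → γ ≤ c.C0 → JTube k n α D z γ t t' S S' →
  k.sz n α D z ≤ exp (-(c.ck * γ + 100) * k.sl n) →
  (∀ l, 0 ≤ l → l ≤ n → |S'.X l - S.X l| ≤ k.mu n (2 * g ^ 2 * |S'.X n - S.X n| / k.w n)
    (|t' - t| * exp (20 * k.sl n)) (2 * |S'.X 0 - S.X 0|) 0 l) ∧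
  k.B n * |S'.X (n - 1) - S.X (n - 1) - S.fr 1 (n - 1) / S.fr 1 n * (S'.X n - S.X n)| ≤
    10 ^ 10 * c.CG * c.L * exp (-(9 / 10) * k.ch n) * (S'.X n - S.X n) ^ 2
      + |t' - t| * exp (30 * k.sl n) + exp (-k.chi 0 n / 5) ∧
  k.B n * |S'.fr 1 (n - 1) / S'.fr 1 n - S.fr 1 (n - 1) / S.fr 1 n| ≤
    10 ^ 10 * c.CG * c.L * exp (-(9 / 10) * k.ch n) * |S'.X n - S.X n|
      + |t' - t| * exp (30 * k.sl n) + exp (-k.chi 0 n / 5)

/-! ### jets -/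

/-- smoothness, initial jets, bounds for the sources (wrapper of J0); `sc` rescales the gauge -/
def QB_s (K : ℕ) (c : Cs) : Prop := ∀ M σ t g k n, JC K c M σ t g k n →
  (∀ l, 0 ≤ l → ContDiffAt ℝ (K + 1 : ℕ) (fun s => (σ.orb M s).X l) t) ∧
  (∀ j, σ.pj M t j 0 = iteratedDeriv j σ.c t ∧ σ.pj M t j 1 = iteratedDeriv j σ.v t) ∧
  (∀ l, 1 ≤ l → σ.Qj M t 1 l = M.gt t (σ.orb M t) l ∧ |σ.Qj M t 1 l - 1| ≤ c.dl) ∧
  ∀ (l : ℤ) (j : ℕ) (m : ℕ → ℝ) (sc Λ B : ℝ), 1 ≤ l → l < n → 2 ≤ j → j ≤ K + 1 → 0 < sc → sc ≤ 1 →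
    1 ≤ Λ → 0 ≤ B → (∀ a, 1 ≤ a → a < j → sc * σ.gz M t (exp (-k.ch l / 2)) a l ≤ m a) →
    (∀ a b, 1 ≤ a → 1 ≤ b → a + b < j → m a * m b ≤ Λ * m (a + b)) →
    ((∀ a b, 1 ≤ a → 1 ≤ b → a + b = j → m a * m b ≤ B) →
      |σ.Qj M t j l| ≤ j.factorial * c.CG * c.L / sc ^ j * Λ ^ (j - 2) * B) ∧
    ((∀ a b e, 1 ≤ a → 1 ≤ b → 1 ≤ e → a + b + e = j → m a * m b * m e ≤ B) → l ∈ k.D →
      |σ.Qj M t j l - σ.Lt M c t l / 2 *
          ∑ a ∈ Ioo 0 j, (j.choose a : ℝ) * (σ.pj M t a l * σ.pj M t (j - a) l)|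
        ≤ j.factorial * c.CG * c.L / sc ^ j * Λ ^ (j - 2) * B + exp (-2 * c.bl) *
          ∑ a ∈ Ioo 0 j, (j.choose a : ℝ) * (σ.gz M t (exp (-c.bl / 2)) a l *
            σ.gz M t (exp (-c.bl / 2)) (j - a) l))

/-- J1: backward bound and increments -/
def J1_s (K : ℕ) (c : Cs) : Prop := ∀ M σ t g k n, JC K c M σ t g k n →
  ∀ (γ : ℝ) (r : ℕ) τ τ', c.Bud K γ → r ≤ K + 1 → k.Adm c n r γ τ τ' →
  (∀ j, 1 ≤ j → j ≤ r → 32 * |σ.La M t j n| ≤ τ j) →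
  (∀ j l, 1 ≤ j → j ≤ r → 0 ≤ l → l ≤ n → |σ.pj M t j l| ≤ k.MJ c n γ τ j l) ∧
  ∀ j, 1 ≤ j → j ≤ r + 1 → j ≤ K + 1 → ∀ m ∈ k.F, m ≤ n →
    |σ.La M t j m - σ.La M t j n| ≤
      exp (15 * k.sl n) * τ' j m + k.NN n (2 * j - 1) (c.gm γ j / 2) m / k.w m

/-- D8 for the first jet -/
def D8C_s (K : ℕ) (c : Cs) : Prop := ∀ M σ t g k n, JC K c M σ t g k n →
  |σ.La M t 1 n - 1| ≤ 1 / 5 + 300 * k.d8 n ∧
  ∀ x ∈ k.D, x < n → |(σ.orb M t).rho ((σ.orb M t).fr 1) x (k.nx x) * σ.pj M t 1 x +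
      M.sgO t (σ.orb M t) x (k.nx x) - σ.pj M t 1 (k.nx x) / (σ.orb M t).fr (x + 1) (k.nx x)|
        ≤ exp (-k.chi 0 x / 2) ∧
    k.η x ≤ 4 * g ^ 3 * |(σ.orb M t).rho ((σ.orb M t).fr 1) x (k.nx x)| ∧
    |(σ.orb M t).rho ((σ.orb M t).fr 1) x (k.nx x)| ≤ g ^ 3 * k.η x ∧
    c.L / 2 ≤ |σ.Lt M c t x|

/-- J1f: forward bound from `m` to `n`, and the crude bound -/
def J1F_s (K : ℕ) (c : Cs) : Prop := ∀ M σ t g k n, JC K c M σ t g k n → ∀ γ, c.Bud K γ →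
  (∀ m ∈ k.F, m ≤ n → ∀ (r : ℕ) (D μ : ℝ), r ≤ K + 1 → 0 < D →
    D * k.rh n ≤ exp (-4 * c.gm γ (K + 2) * k.sl n) →
    μ * exp (k.W n) ≤ exp (-4 * c.gm γ (K + 2) * k.sl n) →
    (∀ j, 1 ≤ j → j ≤ r → 128 * |σ.La M t j m| * D ^ j ≤ μ) →
    128 * D * (k.NN n 1 (c.gm γ 1) m / k.w m) ≤ μ →
    ∀ j, 1 ≤ j → j ≤ r → 32 * |σ.La M t j n| * D ^ j ≤ μ) ∧
  ∀ j l, 1 ≤ j → j ≤ K + 1 → 0 ≤ l → l ≤ n →
    |σ.pj M t j l| ≤ exp (j * (2 * k.W n + 7 * c.ck * c.gm γ (K + 2) * k.sl n))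

/-- J1c: change of seed -/
def J1C_s (K : ℕ) (c : Cs) : Prop := ∀ M σ t g k n, JC K c M σ t g k n → g ≤ 8 → ∀ γ, c.Bud K γ →
  ∀ (σ' : Seed) ϑ, σ'.At K c t → σ.Near σ' t (K + 1) ϑ → ϑ * exp (k.W n) ≤ exp (-100 * k.sl n) →
  JC K c M σ' t (2 * g) k n ∧ ∀ j l, j ≤ K + 1 → 0 ≤ l → l ≤ n →
    |σ'.pj M t j l - σ.pj M t j l| ≤
      ϑ * exp ((j + 1) * (4 * k.W n + 10 * c.ck * c.gm γ (K + 2) * k.sl n))

/-- hypotheses of J2 at the major `x`, uniform slack `e^ls` -/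
structure J2H (c : Cs) (M : Mdl) (σ : Seed) (t : ℝ) (k : Sk) (x : ℤ) (r : ℕ) (γ ls : ℝ)
    (T : ℕ → ℝ) : Prop where
  hx : x ∈ k.D
  hγ : 1 ≤ γ
  hls : k.σ x ≤ ls
  pos : ∀ j, 0 ≤ T j
  bd : ∀ j l, 1 ≤ j → j < r → 0 ≤ l → l ≤ k.nx x →
    |σ.pj M t j l| ≤ k.w4 l * T j + exp (γ * ls) * k.NN (k.nx x) (2 * j - 1) 0 l
  cl : ∀ a b, 1 ≤ a → 1 ≤ b → a + b ≤ r →
    T a * T b * exp (k.W (k.nx x)) ≤ exp (γ * ls) * max (T (a + b)) (k.V x (2 * (a + b) - 2)) ∧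
    T a / k.η x ^ (2 * b - 1) ≤ exp (γ * ls) * max (k.η x * T (a + b)) (k.V x (2 * (a + b) - 2))

def lo2 (k : Sk) (x : ℤ) (T : ℕ → ℝ) (a : ℕ) : ℝ := k.w x * k.η x * T a + 1 / k.η x ^ (2 * a - 2)

def vr (k : Sk) (x l : ℤ) : ℝ := min (exp (k.chi x l / 100)) (1 / sqrt (k.η x))

/-- J2a: jets before the fold; J2b: jets inside the block -/
def J2A_s (K : ℕ) (c : Cs) : Prop := c.Bud K (K + 1) → ∀ M σ t g k n, JC K c M σ t g k n →
  ∀ x r γ ls T, x < n → r ≤ K + 1 → J2H c M σ t k x r γ ls T → ∀ a l, 1 ≤ a → a < r → 0 ≤ l → l ≤ x →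
    exp (-k.chi l x / 4) * |σ.pj M t a l - (σ.orb M t).fr 1 l / (σ.orb M t).fr 1 x * σ.pj M t a x|
      ≤ exp (g2 K γ / 10 * ls) * lo2 k x T a
def J2B_s (K : ℕ) (c : Cs) : Prop := c.Bud K (K + 1) → ∀ M σ t g k n, JC K c M σ t g k n →
  ∀ x r γ ls T, x < n → r ≤ K + 1 → J2H c M σ t k x r γ ls T → ∀ a l, 1 ≤ a → a < r → x < l →
    l ≤ k.nx x → |σ.pj M t a l| ≤ 1000 * exp (-(9 / 10) * k.chi x l) * |σ.pj M t a x| +
      exp (g2 K γ / 10 * ls) * ((k.om l + vr k x l * (k.w x * k.η x)) * (T a + k.V x (2 * a - 2))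
        + exp (-k.chi x l / 8) / k.η x ^ (2 * a - 2) + vr k x l)

/-- J2: the block identity at order `r ≥ 2` -/
def J2_s (K : ℕ) (c : Cs) : Prop := c.Bud K (K + 1) → ∀ M σ t g k n, JC K c M σ t g k n →
  ∀ x r γ ls T, x < n → 2 ≤ r → r ≤ K + 1 → J2H c M σ t k x r γ ls T →
    |(σ.orb M t).rho ((σ.orb M t).fr 1) x (k.nx x) * σ.pj M t r x + σ.Lt M c t x / 2 *
        ∑ a ∈ Ioo 0 r, (r.choose a : ℝ) * (σ.pj M t a x * σ.pj M t (r - a) x)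
      - σ.pj M t r (k.nx x) / (σ.orb M t).fr (x + 1) (k.nx x)|
    ≤ c.ep * c.L * ∑ a ∈ Ioo 0 r, (r.choose a : ℝ) * (|σ.pj M t a x| * |σ.pj M t (r - a) x|)
      + exp (g2 K γ * ls) * (1 / k.η x ^ (2 * r - 3) + k.w x * k.η x * T r)

/-- corollary of J2: a cancelled heavy major is flat with jets of natural size -/
def J2C_s (K : ℕ) (c : Cs) : Prop := ∀ M σ t g k n, JC K c M σ t g k n → ∀ γ, c.Bud K γ →
  ∀ x ∈ k.D, x < n → D7 M t g (σ.orb M t) k x → ∀ (r : ℕ) (o : ℝ), r ≤ K + 1 →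
  o ≤ exp (-4 * g2 K (c.gm γ (K + 2)) * k.σ x) → k.η x ≤ exp (-4 * g2 K (c.gm γ (K + 2)) * k.σ x) →
  (∀ j, 1 ≤ j → j ≤ r → |σ.La M t j (k.nx x)| ≤ o * k.V x (2 * j - 1)) →
  ∀ j, 1 ≤ j → j ≤ r → exp (-(3 * j) * k.σ x) ≤ |σ.pj M t j x| * k.η x ^ (2 * j - 1) ∧
    |σ.pj M t j x| * k.η x ^ (2 * j - 1) ≤ 2 * exp (c.gm γ j * k.σ x)

/-- a strong major is as heavy as wanted -/
def HVY_s (K : ℕ) (c : Cs) : Prop := ∀ k : Sk, k.OK c → ∀ x ∈ k.D, k.Strong K x →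
  k.η x ≤ exp (-c.C0 ^ 3 * k.σ x)

/-- J3: universal lower bound -/
def J3_s (K : ℕ) (c : Cs) : Prop := 3 ≤ K → ∀ M σ t g k n, JC K c M σ t g k n → ∀ γ, c.Bud K γ →
  (∀ x ∈ k.D, x < n → k.Strong K x → ¬ σ.Canc M c t (1 / 2) k K x) →
  ∀ D u ν G1 G2 G3, Win K M σ t k n D u ν G1 G2 → 5 * c.gm γ (K + 2) ≤ G1 → 5 * c.gm γ (K + 2) ≤ G2 →
  0 ≤ G3 → G3 + 1 ≤ G1 → D * k.rh n ^ (1 + c.th) ≤ exp (-G1 * k.sl n) →
  exp (G3 * k.sl n) * k.Vm n (2 * K + 1) * D ^ (K + 1) ≤ ν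

/-- J4: the window -/
def J4_s (K : ℕ) (c : Cs) : Prop := ∀ M σ t0 g k n, JC K c M σ t0 g k n → g ≤ 8 → ∀ γ, c.Bud K γ →
  ∀ D u ν G1 G2, Win K M σ t0 k n D u ν G1 G2 → 6 * c.gm γ (K + 2) ≤ G1 → 6 * c.gm γ (K + 2) ≤ G2 →
  exp (2 * c.gm γ (K + 2) * k.sl n) * k.Vm n (2 * K + 1) * D ^ (K + 1) ≤ ν →
  (∀ t ∈ Set.Icc (t0 - D) (t0 + D), σ.At K c t) →
  ∀ t ∈ Set.Icc (t0 - D) (t0 + D), JC K c M σ t (2 * g) k n ∧
    JTube k n (4 * (u + ν)) D 0 (c.gm γ 1) t0 t (σ.orb M t0) (σ.orb M t) ∧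
    (∀ j, 1 ≤ j → j ≤ K → 32 * |σ.La M t j n| ≤ wt D u ν j) ∧
    |σ.pj M t (K + 1) n| * D ^ (K + 1) ≤ exp (-10 * k.sl n) * ν * k.w n ∧
    (∀ j l, 1 ≤ j → j ≤ K → 0 ≤ l → l ≤ n → |σ.pj M t j l| ≤ k.MJ c n γ (wt D u ν) j l) ∧
    ∀ j, 1 ≤ j → j ≤ K + 1 → ∀ m ∈ k.F, m ≤ n → |σ.La M t j m - σ.La M t j n| ≤
      exp (-c.gm γ (K + 2) * k.sl n) * ν / D ^ j + k.NN n (2 * j - 1) (c.gm γ j / 2) m / k.w m

open Classical in
/-- the majors that count in J5 -/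
def Sk.D' (k : Sk) (B st : ℤ) : Finset ℤ := k.D.filter fun x => x ≤ B ∧ k.η x ^ 2 ≤ k.η st

/-- hypotheses of J5; `σ` is the reference, `m` the horizon -/
structure J5H (K : ℕ) (c : Cs) (M : Mdl) (σ σ' : Seed) (t g : ℝ) (k : Sk) (m B st : ℤ)
    (γ G ls ϖ : ℝ) (T : ℕ → ℝ) : Prop where
  jc : JC K c M σ t g k m
  g8 : g ≤ 8
  at' : σ'.At K c t
  hγ : 1 ≤ γ
  hG : 0 ≤ G
  hls : c.ck * k.sl m ≤ ls
  hB : B ∈ k.D ∧ k.nx B ≤ m
  hst : st ∈ k.D ∧ st ≤ B ∧ ∀ x ∈ k.D, x < m → k.η st ≤ k.η x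
  light : ∀ x ∈ k.D, B < x → x < m → 1 / k.η x ^ 7 ≤ exp ls
  heavy : k.η st ≤ exp (-(gm5 K γ + 2 * G) * ls)
  d7 : D7 M t g (σ.orb M t) k st
  card : ((k.D' B st).card : ℝ) ≤ exp (c.bl / 10)
  pos : ∀ j, 0 ≤ T j
  bd : ∀ j l, 1 ≤ j → j ≤ 3 → 0 ≤ l → l ≤ m →
    |σ.pj M t j l| ≤ k.w4 l * T j + exp (γ * ls) * k.NN (k.nx B) (2 * j - 1) 0 l
  t11 : T 1 ^ 2 * exp (k.W m) ≤ exp (γ * ls) * (T 2 + T 1 / k.η st ^ 2)
  t12 : T 1 * T 2 * exp (k.W m) ≤ exp (γ * ls) * (T 3 + T 2 / k.η st ^ 2)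
  ok1 : T 1 * exp (k.W (k.nx B)) ≤ exp (-(gm5 K γ + G) * ls) / k.η st ^ 2
  ok2 : T 2 * exp (k.W (k.nx B)) ≤ exp (-(gm5 K γ + G) * ls) / k.η st ^ 4
  near : σ.Near σ' t 3 ϖ
  small : ϖ * exp (k.W m) ≤ exp (-(gm5 K γ + G) * ls)

/-- J5: two leaves -/
def J5_s (K : ℕ) (c : Cs) : Prop := 3 ≤ K → c.Bud K (K + 1) →
  ∀ M σ σ' t g k m B st γ G ls ϖ T, J5H K c M σ σ' t g k m B st γ G ls ϖ T →
  ∀ δ e1 q2 be, δ = σ'.v t - σ.v t - (σ.orb M t).nu1 m * (σ'.c t - σ.c t) →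
  e1 = ∑ x ∈ k.D' B st, σ.bx M c t k x → q2 = ∑ x ∈ k.D' B st, σ.bx M c t k x ^ 2 →
  be = 1 / k.η st ^ 2 →
  exp (-10 * ls) * be ^ 2 ≤ q2 ∧ q2 ≤ exp ((2 * γ + 20) * ls) * be ^ 2 ∧
  |(σ'.pj M t 1 m - σ.pj M t 1 m) / (σ.orb M t).fr 1 m - δ * e1|
    ≤ |δ| * sqrt q2 / 100 + exp (-G * ls) * (ϖ * be + T 1) ∧
  |(σ'.pj M t 2 m - σ.pj M t 2 m) / (σ.orb M t).fr 1 m - δ * (e1 ^ 2 - 2 * q2)|
    ≤ |δ| * q2 / 100 + exp (-G * ls) * (ϖ * be ^ 2 + T 2 + be * T 1) ∧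
  |(σ'.pj M t 3 m - σ.pj M t 3 m) / (σ.orb M t).fr 1 m|
    ≤ exp (gm5 K γ / 2 * ls) * ϖ * be ^ 3 + exp (-G * ls) * (T 3 + be * T 2 + be ^ 2 * T 1)

/-! ### DS -/

/-- local description of a bound run at its free times -/
def EXT_s (c : Cs) : Prop := ∀ Ex (S : Sq) ξ n Ls p, S.OK c → S.Out c ξ n →
  S.Run c Ex (S.fr (n + 1)) (n + 1) (S.PBd c Ex ξ n) Ls p →
  n + 1 ∈ frs Ls p ∧ (∀ m ∈ frs Ls p, n < m ∧ m ≤ p) ∧
  (∀ i, i < p → nxt Ls p i ∈ frs Ls p ∧ i < nxt Ls p i ∧ ∀ m ∈ frs Ls p, i < m → nxt Ls p i ≤ m) ∧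
  nxt Ls p p = p ∧
  ∀ m ∈ frs Ls p, S.RInv c (S.fr (n + 1)) (n + 1) m ∧ (m < p → ∃ Lm,
    S.Run c Ex (S.fr (n + 1)) (n + 1) (S.PBd c Ex ξ n) Lm m ∧
    S.PBd c Ex ξ n Lm m (S.dep c (S.fr (n + 1)) m (nxt Ls p m)) ∧ S.BInv c n Lm m ∧
    S.Step c Ex (S.fr (n + 1)) (n + 1) m (S.dep c (S.fr (n + 1)) m (nxt Ls p m)) (nxt Ls p m) ∧
    S.Out c (S.fr (n + 1)) m ∧ (m, S.dep c (S.fr (n + 1)) m (nxt Ls p m)) ∈ Ls ∧
    ((nxt Ls p m = m + 1 ∧ c.cb * c.L ≤ S.rho (S.fr (n + 1)) m (m + 1) ^ 2) ∨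
      ∃ L' r', S.BRun c Ex (S.fr (n + 1)) m L' (nxt Ls p m) r' ∧
        S.RInv c (S.fr (m + 1)) (m + 1) (nxt Ls p m) ∧ S.BInv c m L' (nxt Ls p m) ∧
        S.Wp c m (nxt Ls p m) ≤ 2 * S.dep c (S.fr (n + 1)) m (nxt Ls p m) ∧
        c.cw * c.L ≤ S.rho (S.fr (n + 1)) m (nxt Ls p m) ^ 2 *
          exp (S.Wt c (S.fr (m + 1)) (m + 1) (nxt Ls p m) r')))

def SK1_s (K : ℕ) (c : Cs) : Prop := First K c → ∀ M : Mdl, M.OK c → ∀ d : Dat,
  d.Pre c (Ex2 K c M) M → (d.sk c M).OK1 c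
def SK2_s (K : ℕ) (c : Cs) : Prop := First K c → ∀ M : Mdl, M.OK c → ∀ d : Dat,
  d.Pre c (Ex2 K c M) M → (d.sk c M).OK2
/-- D3 for the true orbit -/
def DFE_s (K : ℕ) (c : Cs) : Prop := First K c → ∀ M : Mdl, M.OK c → ∀ d : Dat,
  d.Pre c (Ex2 K c M) M → ∀ m ∈ (d.sk c M).F, ∀ i j, 1 ≤ i → i < j → j ≤ m →
    |(d.O M).fr (i + 1) j| ≤ (d.sk c M).E m i * (d.sk c M).w j
/-- D8 for the true orbit -/
def D8_s (K : ℕ) (c : Cs) : Prop := First K c → ∀ M : Mdl, M.OK c → ∀ d : Dat,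
  d.Pre c (Ex2 K c M) M → ∀ j, 1 ≤ j → j ≤ (d.sk c M).N →
    ∑ i ∈ Ico 1 j, |(d.O M).fr (i + 1) j| ≤ (1 / 10000 + (d.sk c M).d8 j) * (d.sk c M).w j
/-- the true orbit fits with constant `1` -/
def FIT_s (K : ℕ) (c : Cs) : Prop := First K c → ∀ M : Mdl, M.OKk c (K + 6) → ∀ d : Dat,
  d.Pre c (Ex2 K c M) M → OC K c M d.t 1 (d.O M) (d.sk c M) (d.sk c M).N
/-- D7 for the true orbit -/
def D7_s (K : ℕ) (c : Cs) : Prop := First K c → ∀ M : Mdl, M.OK c → ∀ d : Dat,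
  d.Pre c (Ex2 K c M) M → ∀ x ∈ (d.sk c M).D, (d.sk c M).η x ≤ exp (-3 * (d.sk c M).σ x) →
    D7 M d.t 1 (d.O M) (d.sk c M) x
end
end Pool.Agent.MP_9cbfe4_an

end

/-! ### Part JIf2 -/

section

/-! Two more admissible tails, needed by the glue to section E. -/

namespace Pool.Agent.MP_9cbfe4_an

open Finset Filter Topology Real

noncomputable section

/-- a copy of the major `x` at `x+` with any depth `η0 ≤ η x` (a coarse slack goes into the depth) -/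
def AD4_s (K : ℕ) (c : Cs) : Prop := ∀ k : Sk, k.OK c → ∀ x ∈ k.D, ∀ (γ η0 : ℝ) (r : ℕ),
  c.Bud K γ → r ≤ K + 1 → 0 < η0 → η0 ≤ k.η x →
  k.Adm c (k.nx x) r γ (fun j => exp (c.gm γ j * k.σ x) / (η0 ^ (2 * j - 1) * k.w x)) fun j _ =>
    if j ≤ 1 then 0 else exp (c.gm γ j / 2 * k.σ x) / (η0 ^ (2 * j - 1) * k.w x)

/-- tails of type I with a free product bound `τ'` -/
def AD5_s (K : ℕ) (c : Cs) : Prop := ∀ k : Sk, k.OK c → ∀ n ∈ k.F, ∀ (γ : ℝ) (r : ℕ) (τ τ' : ℕ → ℝ),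
  c.Bud K γ → r ≤ K + 1 → (∀ j, 0 ≤ τ j) → (∀ j, 0 ≤ τ' j) →
  (∀ j, 2 ≤ j → j ≤ r → exp (20 * k.sl n) * τ' j ≤ τ j) →
  (∀ a b, 1 ≤ a → 1 ≤ b → a + b ≤ r + 1 →
    τ a * τ b * exp (k.W n + 12 * k.sl n) ≤ τ' (a + b) ∧
    τ a * k.rh n ^ b * exp (c.gm γ (K + 2) * k.sl n) ≤ τ' (a + b)) →
  k.Adm c n r γ τ fun j _ => τ' j

end
end Pool.Agent.MP_9cbfe4_an

end

/-! ### Part RB -/

section

/-! Section S: suffix windows and standard facts about a reference orbit. -/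

namespace Pool.Agent.MP_9cbfe4_an.SS

open Finset

theorem rfrom : RFROM_s := by
  intro g N E P i h hs hi
  have c := h.ct
  have k := c.hc
  refine ⟨⟨⟨hi, fun j a b => k.sol j (hs.trans a) b, k.one, ?_, k.w0, ?_, ?_, ?_, ?_, ?_, ?_, ?_, ?_,
    ?_, ?_, ?_⟩, c.fc, ?_, c.Dneg, c.L1, c.Lmu, c.g0, c.g1, c.g2⟩, h.r0, h.rE, h.dlδ,
    fun j a b => h.lm j (hs.trans a) b, h.fold, fun j a b => h.orb j (hs.trans a) b,
    fun j a b => h.ea j (hs.trans a) b, fun j a b => h.eb j (hs.trans a) b⟩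
  all_goals simp only [RD.from]
  · exact fun j a b => k.maj j (by omega) b
  · exact fun j a b => k.wpos j (by omega) b
  · exact fun j a b => k.bpos j (by omega) b
  · exact fun j a b => k.ale j (by omega) b
  · exact fun j a b => k.big j (by omega) b
  · exact fun j l a b d => k.mono j l (by omega) b d
  · exact fun j a b => k.len j (by omega) b
  · exact fun j l a b d => k.wle j l (by omega) b d
  · exact fun j a b => k.fwd j (by omega) b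
  · exact fun j l a b d => k.frle j l (by omega) b d
  · exact fun e he j l a b d => k.kap e he j l (by omega) b d
  · exact fun e he j a b => k.bmu e he j (by omega) b
  · exact fun j a b => c.top j (by omega) b

/-- two points with the same parameter -/
theorem pg_sub_le {b : ℝ} (hb : 0 ≤ b) (dl τ x y x' y' : ℝ) :
    pg dl b (((τ, x', y') : R3) - (τ, x, y)) ≤ |x' - x| + b * |y' - y| := by
  obtain h2 : 0 ≤ b * |y' - y| := by positivity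
  have h3 := abs_nonneg (x' - x)
  simp only [pg, Prod.mk_sub_mk, sub_self, abs_zero, mul_zero]
  exact max_le (by linarith only [h2, h3]) (max_le (by linarith only [h2]) (by linarith only [h3]))

theorem mem_UB {R : Sq} {X : ℤ → ℝ} {i J j : ℤ} {r t0 τ : ℝ} (h : Tube R X i J r)
    (ht : |τ - t0| ≤ r) (h1 : i < j) (h2 : j ≤ J) : ((τ, X j, X (j - 1)) : R3) ∈ UB R t0 r j :=
  ⟨ht, h j h1.le h2, h (j - 1) (by omega) (by omega)⟩

theorem Tube.mono {R : Sq} {X : ℤ → ℝ} {i J i' J' : ℤ} {r r' : ℝ} (h : Tube R X i J r) (hi : i ≤ i')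
    (hJ : J' ≤ J) (hr : r ≤ r') : Tube R X i' J' r' :=
  fun j a b => (h j (hi.trans a) (b.trans hJ)).trans hr

theorem RD.κ_neg (P : RD) {j : ℤ} (h : j ≤ 0) : P.κ j = P.R.kp P.w (P.s - 1) j := by
  rw [RD.κ, min_eq_left h]

theorem RD.κ_pos (P : RD) {j : ℤ} (h : 0 ≤ j) : P.κ j = P.κ 0 := by
  rw [RD.κ, RD.κ, min_eq_right h, min_self]

namespace Ref
variable {g : R3 → ℝ} {N E : ℕ} {P : RD} (h : Ref g N E P)
include h

theorem s0 : P.s ≤ 0 := h.ct.hc.s0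
theorem J1 : 1 ≤ P.J := h.ct.fc.J1
theorem top {j : ℤ} (a : P.s - 1 ≤ j) (b : j ≤ P.J) : P.μ j ≤ P.Λ := h.ct.top j a b
theorem big {j : ℤ} (a : P.s - 1 ≤ j) (b : j ≤ P.J) : 1000 ≤ P.μ j := by
  rcases le_total j 0 with c | c
  · exact h.ct.hc.big j a c
  · exact h.ct.fc.big j c b
theorem big0 : 1000 ≤ P.μ 0 := h.big (by have := h.s0; omega) (by have := h.J1; omega)
theorem top0 : P.μ 0 ≤ P.Λ := h.top (by have := h.s0; omega) (by have := h.J1; omega)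
theorem Λ_ge : 1000 ≤ P.Λ := h.big0.trans h.top0
theorem Λ_pow {a b : ℕ} (c : a ≤ b) : P.Λ ^ a ≤ P.Λ ^ b := LS.pw h.Λ_ge c
theorem one_le_Λ_pow (a : ℕ) : 1 ≤ P.Λ ^ a := LS.pw1 h.Λ_ge a
theorem mu_pow_le {j : ℤ} (a : P.s - 1 ≤ j) (b : j ≤ P.J) (e : ℕ) : P.μ j ^ e ≤ P.Λ ^ e :=
  LS.pwL (h.big a b) (h.top a b) e
theorem bpos {j : ℤ} (a : P.s ≤ j) (b : j ≤ P.J) : 0 < P.R.b j := (h.lm j a b).b0
theorem ale {j : ℤ} (a : P.s ≤ j) (b : j ≤ P.J) : |P.R.a j| ≤ P.μ j := by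
  rcases le_or_gt j 0 with c | c
  · exact h.ct.hc.ale j a c
  · exact h.ct.fc.ale j c b
theorem ble {j : ℤ} (a : P.s ≤ j) (b : j ≤ P.J) : P.R.b j ≤ P.μ j := by
  rcases le_or_gt j 0 with c | c
  · simpa using h.ct.hc.bmu 0 (Nat.zero_le _) j a c
  · exact h.ct.fc.ble j c b
theorem Dpos {j : ℤ} (b : j ≤ P.J) : 0 < P.D j := by
  rcases le_total j 0 with c | c
  · rw [h.ct.Dneg j c]; exact one_pos
  · exact h.ct.fc.Dpos j c b
theorem D_le_one {j : ℤ} (b : j ≤ P.J) : P.D j ≤ 1 := by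
  rcases le_total j 0 with c | c
  · exact (h.ct.Dneg j c).le
  · have := h.ct.fc.dec 0 (Nat.zero_le _) 0 j le_rfl c b
    rw [h.ct.fc.D0] at this
    simp only [pow_zero, one_mul] at this
    exact this.trans (pow_le_one₀ (by norm_num) (by norm_num))
theorem muD_le {j : ℤ} (a : P.s - 1 ≤ j) (b : j ≤ P.J) (e : ℕ) : P.μ j ^ e * P.D j ≤ P.Λ ^ e :=
  (mul_le_of_le_one_right (by have := h.big a b; positivity) (h.D_le_one b)).trans
    (h.mu_pow_le a b e)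
theorem rΛ {a : ℕ} (ha : a ≤ E) : P.r * P.Λ ^ a ≤ 1 :=
  (mul_le_mul_of_nonneg_left (h.Λ_pow ha) h.r0.le).trans h.rE
theorem ρ0 : 0 ≤ P.Λ ^ 2 * P.r := by have := h.r0; positivity
theorem ρΛ {a : ℕ} (ha : a + 2 ≤ E) : P.Λ ^ 2 * P.r * P.Λ ^ a ≤ 1 := by
  have := h.rΛ ha
  rw [pow_add] at this
  linarith only [this]
theorem ρ10 (hE : 12 ≤ E) : P.Λ ^ 2 * P.r * P.Λ ^ 10 ≤ 1 := h.ρΛ hE
theorem δ_pos : 0 < P.δ := by
  obtain h1 := h.bpos h.s0 (by have := h.J1; omega)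
  obtain h2 := h.big (j := -1) (by have := h.s0; omega) (by have := h.J1; omega)
  exact lt_of_lt_of_le (by positivity) h.ct.g0
theorem δmu {e : ℕ} (he : e ≤ E) : P.δ * P.μ 0 ^ e ≤ 1 :=
  (mul_le_mul_of_nonneg_left (LS.pw h.big0 he) h.δ_pos.le).trans h.ct.g2
theorem δ_le_one : P.δ ≤ 1 := by simpa using h.δmu (Nat.zero_le _)
theorem muδ (hE : 1 ≤ E) : P.μ 0 * P.δ ≤ 1 := by
  have := h.δmu hE
  rwa [pow_one, mul_comm] at this
theorem δ_small (hE : 1 ≤ E) : P.δ ≤ 1 / 1000 := by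
  nlinarith only [h.muδ hE, h.big0, h.δ_pos]
theorem muδ_L (hE : 1 ≤ E) : P.μ 0 * P.δ ≤ P.L / 4 := by linarith only [h.muδ hE, h.ct.L1]
theorem dl0 : 0 ≤ P.dl := (h.lm 0 h.s0 (by have := h.J1; omega)).dl0
theorem dl_le : P.dl ≤ P.δ := by nlinarith only [h.dlδ, h.δ_pos, h.δ_le_one]
/-- gain at the fold, backward -/
theorem b0mu {e : ℕ} (he : e ≤ E) : P.R.b 0 * P.μ (-1) ^ e ≤ P.δ :=
  (mul_le_mul_of_nonneg_left
    (LS.pw (h.big (j := -1) (by have := h.s0; omega) (by have := h.J1; omega)) he)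
    (h.bpos h.s0 (by have := h.J1; omega)).le).trans h.ct.g0
/-- gain at the fold, forward -/
theorem mu1D {e : ℕ} (he : e ≤ E) : P.μ 1 ^ e * P.D 1 ≤ P.δ :=
  (mul_le_mul_of_nonneg_right (LS.pw (h.big (j := 1) (by have := h.s0; omega) h.J1) he)
    (h.Dpos h.J1).le).trans h.ct.g1

theorem bD {e : ℕ} (he : e ≤ E) {j : ℤ} (a : P.s ≤ j) (b : j ≤ P.J) :
    P.R.b j * (P.μ (j - 1) ^ e * P.D (j - 1)) ≤ P.μ j ^ (e + 1) * P.D j := by
  rcases le_or_gt j 0 with c | c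
  · rw [h.ct.Dneg j c, h.ct.Dneg (j - 1) (by omega), mul_one, mul_one]
    exact h.ct.hc.bmu e he j a c
  · obtain h1 := h.ct.fc.PbD (j - 1) j (by omega) (by omega) b
    obtain e1 : P.R.Pb (j - 1) j = P.R.b j := by
      obtain this : Ioc (j - 1) j = {j} := by ext l; simp only [mem_Ioc, mem_singleton]; omega
      simp [Sq.Pb, this]
    rw [e1] at h1
    obtain m1 := h.big (j := j - 1) (by omega) (by omega)
    obtain h2 := LS.pwL m1 (h.ct.fc.mono (j - 1) j (by omega) (by omega) b) e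
    have h3 := h.bpos a b
    obtain h4 := h.Dpos (j := j - 1) (by omega)
    calc P.R.b j * (P.μ (j - 1) ^ e * P.D (j - 1)) = P.μ (j - 1) ^ e * (P.R.b j * P.D (j - 1)) := by
          ring
      _ ≤ P.μ j ^ e * (P.μ j * P.D j) := mul_le_mul h2 h1 (by positivity) (le_trans (by positivity) h2)
      _ = _ := by ring

theorem bmu {e : ℕ} (he : e ≤ E) {j : ℤ} (a : P.s ≤ j) (b : j ≤ P.J) :
    P.R.b j * P.μ (j - 1) ^ e ≤ P.μ j ^ (e + 1) := by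
  rcases le_or_gt j 0 with c | c
  · exact h.ct.hc.bmu e he j a c
  · obtain m1 := h.big (j := j - 1) (by omega) (by omega)
    obtain h2 := LS.pwL m1 (h.ct.fc.mono (j - 1) j (by omega) (by omega) b) e
    obtain h3 := h.big (j := j) (by omega) b
    rw [pow_succ']
    exact mul_le_mul (h.ble a b) h2 (by positivity) (by linarith only [h3])

theorem κ_nonneg {j : ℤ} (a : P.s - 1 ≤ j) : 0 ≤ P.κ j :=
  LS.kp_nonneg h.ct.hc (le_min a (by have := h.s0; omega)) (min_le_right _ _)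

theorem kp_le {i j : ℤ} (a : P.s - 1 ≤ i) (b : i ≤ j) (c : j ≤ 0) : P.R.kp P.w i j ≤ P.μ j := by
  have h1 := h.ct.hc.kap 0 (Nat.zero_le _) i j a b c
  simp only [pow_zero, mul_one, zero_add, pow_one] at h1
  obtain h2 := h.ct.hc.big j (by omega) c
  exact h1.trans (mul_le_of_le_one_right (by linarith only [h2]) (pow_le_one₀ (by norm_num) (by norm_num)))

theorem kp_mul {i j l : ℤ} (a : P.s - 1 ≤ i) (b : i ≤ j) (c : j ≤ l) (d : j ≤ 0) :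
    P.R.kp P.w i l = P.R.kp P.w i j * P.R.kp P.w j l := by
  obtain h1 := h.ct.hc.wpos j (by omega) d
  obtain e : P.R.Pb i l = P.R.Pb i j * P.R.Pb j l := by
    unfold Sq.Pb
    rw [← prod_union (by
      rw [disjoint_left]; intro x x1 x2
      simp only [mem_Ioc] at x1 x2; omega), Ioc_union_Ioc_eq_Ioc b c]
  unfold Sq.kp
  rw [e]
  field_simp

theorem κ0_le {j : ℤ} (a : P.s - 1 ≤ j) : P.κ 0 ≤ P.μ 0 * P.κ j := by
  rcases le_total j 0 with c | c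
  · rw [P.κ_neg le_rfl, h.kp_mul le_rfl a c c, ← P.κ_neg c, mul_comm]
    exact mul_le_mul_of_nonneg_right (h.kp_le a c le_rfl) (h.κ_nonneg a)
  · rw [P.κ_pos c]
    exact le_mul_of_one_le_left (h.κ_nonneg (by have := h.s0; omega)) (by linarith only [h.big0])

theorem center (j : ℤ) : ((P.t0, P.R.X j, P.R.X (j - 1)) : R3) ∈ UB P.R P.t0 P.r j := by
  simp [UB, h.r0.le]

end Ref

end Pool.Agent.MP_9cbfe4_an.SS

end

/-! ### Part FJ -/

section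

/-! What section F needs from section J (helper57): the predicate `JF`. -/

namespace Pool.Agent.MP_9cbfe4_an

open Finset Filter Topology MeasureTheory

noncomputable section

/-- largest weighted jet of order `1..K` -/
def Nj (K : ℕ) (F : ℝ → ℝ) (t D : ℝ) : ℝ :=
  (Icc 1 K).fold max 0 fun j => |iteratedDeriv j F t| * D ^ j

namespace Dat
variable (K : ℕ) (c : Cs) (M : Mdl) (sd : Fd → ℝ → Seed) (d : Dat)

def W (m : ℤ) : ℝ := d.toFd.W c M m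
def wq (m : ℤ) : ℝ := |d.toFd.f M m|
/-- minimal logarithm of the slack -/
def s0 : ℝ := c.e3 ^ 2 * min (d.V c M) ((d.S M).xx c d.n (d.V c M)) + c.C1 * c.lam
def seed : Seed := sd d.toFd (d.y c M)
/-- position of the seed orbit at the absolute time `m` -/
def g (m : ℤ) (t : ℝ) : ℝ := ((d.seed c M sd).orb M t).X (m - d.n)
def xs (m : ℤ) : ℝ := ((d.seed c M sd).orb M d.t).fr 1 (m - d.n)
def nuJ : ℝ := ((d.seed c M sd).orb M d.t).nu1 ((d.seed c M sd).J - d.n)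

/-- `D` is a valid scale at the free time `m`; `ν` bounds the jets, `R` the earlier depths -/
structure Val (σ : ℝ) (m : ℤ) (D ν R : ℝ) : Prop where
  free : ∃ r, (m, r) ∈ (d.p, d.r) :: d.Ls
  sl : d.s0 c M ≤ σ ∧ σ ≤ d.W c M m
  adm : (d.S M).rho d.ξ d.n d.p ^ 2 * Real.exp (d.W c M m) ≤ Real.exp (-σ)
  dep : 0 ≤ R ∧ ∀ x ∈ d.Ls, x.1 < m → x.2 ≤ R
  lo : Real.exp (-d.y c M / 100) ≤ D
  hi : D ≤ Real.exp (-(2 + 2 * c.th) * R - σ)
  nu : ν * Real.exp (d.W c M m) ≤ Real.exp (-σ)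
  jet : Nj K (d.g c M sd m) d.t D ≤ ν * d.wq M m

/-- an initial point `δ`-close to the seed at the parameter `τ` -/
structure Cl (σ : ℝ) (m : ℤ) (D δ τ v1 c1 : ℝ) : Prop where
  ht : |τ - d.t| ≤ D
  hv : |v1 - (d.seed c M sd).v τ| ≤ δ
  hc : |c1 - (d.seed c M sd).c τ| ≤ δ
  hδ : δ * Real.exp (d.W c M m) ≤ Real.exp (-σ)
  bx : |v1| ≤ 3 / 2 * c.L ∧ |c1| ≤ 3 / 2 * c.L

open Classical in
/-- the output of section J for a datum without cancellation -/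
structure JF : Prop where
  sm : ∀ m, d.n ≤ m → ContDiffOn ℝ (K + 1 : ℕ) (d.g c M sd m)
    (Set.Ioo (d.t - 3 * c.rU (d.y c M)) (d.t + 3 * c.rU (d.y c M)))
  /-- J1f, crude form -/
  crude : ∀ x ∈ (d.p, d.r) :: d.Ls,
    (d.S M).rho d.ξ d.n d.p ^ 2 * Real.exp (d.W c M x.1) ≤ Real.exp (-d.s0 c M) →
    ∀ j : ℕ, 1 ≤ j → j ≤ K → |iteratedDeriv j (d.g c M sd x.1) d.t| ≤ Real.exp (j * d.y c M / 1000)
  j3 : ∀ σ m D ν R, d.Val K c M sd σ m D ν R → D ^ (K + 1) ≤ ν ∧ ∀ x ∈ d.Ls, x.1 < m →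
    Real.exp ((2 * K + 1) * x.2) * D ^ (K + 1) ≤ Real.exp σ * d.wq M x.1 * ν
  j4 : ∀ σ m D ν R, d.Val K c M sd σ m D ν R → ∀ τ, |τ - d.t| ≤ D →
    |iteratedDeriv (K + 1) (d.g c M sd m) τ| * D ^ (K + 1) ≤ ν * d.wq M m / 10
  /-- J1 at the earlier free times, and the oscillation on the window -/
  j1 : ∀ σ m D ν R, d.Val K c M sd σ m D ν R → ∀ x ∈ (d.p, d.r) :: d.Ls, x.1 ≤ m → ∀ B, 1 ≤ B →
    (∀ z ∈ d.Ls, x.1 ≤ z.1 → z.1 < m → d.wq M x.1 * Real.exp z.2 ≤ B * d.wq M z.1) →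
    Nj K (d.g c M sd x.1) d.t D ≤ Real.exp σ * (d.wq M x.1 * ν + D * B) ∧ ∀ τ, |τ - d.t| ≤ D →
      |d.g c M sd x.1 τ - d.g c M sd x.1 d.t| ≤ Real.exp σ * (d.wq M x.1 * ν + D * B)
  xi : ∀ σ m D ν R, d.Val K c M sd σ m D ν R →
    d.wq M m / 2 ≤ |d.xs c M sd m| ∧ |d.xs c M sd m| ≤ 2 * d.wq M m
  /-- static leaves -/
  st : ∀ σ m D ν R δ τ v1 c1, d.Val K c M sd σ m D ν R → d.Cl c M sd σ m D δ τ v1 c1 →
    |(M.orb τ 1 (v1, c1)).X (m - d.n) - d.g c M sd m τ - ((v1 - (d.seed c M sd).v τ)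
        - d.nuJ c M sd * (c1 - (d.seed c M sd).c τ)) * d.xs c M sd m|
      ≤ Real.exp σ * (D * Real.exp (2 * R) + (ν + δ) * Real.exp (d.W c M m)) * δ * d.wq M m
  /-- J6 with the seed orbit of the datum as reference -/
  j6 : ∀ σ m D ν R δ τ v1 c1, d.Val K c M sd σ m D ν R → d.Cl c M sd σ m D δ τ v1 c1 →
    (∀ l, 0 ≤ l → l ≤ m - d.n →
      |(M.orb τ 1 (v1, c1)).X l - ((d.seed c M sd).orb M d.t).X l| ≤ Real.exp (-σ / 2)) ∧
    ((d.seed c M sd).orb M d.t).Rel c (M.orb τ 1 (v1, c1)) (((d.seed c M sd).orb M d.t).fr 1)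
      ((M.orb τ 1 (v1, c1)).fr 1) (m - d.n) (m - d.n) (15 / 1000)
      (if 5 / 100 ≤ dP ((d.S M).X m) then 1 / (100 * c.lam) else c.lam / 20)
      (Real.exp σ * Real.sqrt D) (1 / 2000)
  /-- parameter speed at `p` -/
  spd : ∀ σ, d.s0 c M ≤ σ → σ ≤ d.W c M d.p →
    |(d.S M).rho d.ξ d.n d.p| ≤ Real.exp (-2 * d.W c M d.p) →
    |deriv (d.g c M sd d.p) d.t - M.sgm c d.t (d.S M) d.ξ d.n d.p (c.C0 * d.V c M) * d.xs c M sd d.p|
      ≤ Real.exp (σ - d.W c M d.p) * d.wq M d.p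
end Dat

end
end Pool.Agent.MP_9cbfe4_an

end

/-! ### Part Def3 -/

section

/-! THM-2: the case split (cancellation or not) and the four measure statements. -/

namespace Pool.Agent.MP_9cbfe4_an

open Finset Filter Topology MeasureTheory

noncomputable section

namespace Dat
variable (K : ℕ) (c : Cs) (M : Mdl) (sd : Fd → ℝ → Seed) (d : Dat)

/-- the free time `m` (relative) is shadowed by the seed orbit with margin `G` -/
def Adm (G : ℝ) (m : ℤ) : Prop :=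
  (d.S M).rho d.ξ d.n d.p ^ 2 * Real.exp ((d.sk c M).W m) ≤ Real.exp (-G * (d.sk c M).sl m)

/-- the seed of the datum has a strong `K`-cancelled major -/
def Canc : Prop := ∃ x ∈ (d.sk c M).D, d.Adm c M c.C0 ((d.sk c M).nx x) ∧ (d.sk c M).Strong K x ∧
  ∀ j : ℕ, 1 ≤ j → j ≤ K → |(d.seed c M sd).La M d.t j ((d.sk c M).nx x)|
    ≤ (d.sk c M).η x ^ c.th * (d.sk c M).V x (2 * j - 1)
end Dat

/-- the seed of level `y` at an admissible free time -/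
def XC2_s (K : ℕ) (c : Cs) : Prop := First K c → ∀ M : Mdl, M.OKk c (K + 6) → ∀ d : Dat,
  d.Pre c (Ex2 K c M) M → ∀ (y : ℝ) (σ : Seed), c.bl / 4 < y → y ≤ c.C0 * d.V c M →
  σ.OK K c (Ex2 K c M) M y d.toFd → ∀ n ∈ (d.sk c M).F, ∀ G, 300 ≤ G → G ≤ c.C0 →
  d.Adm c M G n → 4 * ((d.sk c M).W n + G * (d.sk c M).sl n) ≤ y →
  JC K c M σ d.t 2 (d.sk c M) n ∧
  (∃ α z, JTube (d.sk c M) n α 0 z 0 d.t d.t (d.O M) (σ.orb M d.t) ∧
    (d.sk c M).sz n α 0 z ≤ Real.exp (-(G / 3) * (d.sk c M).sl n)) ∧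
  (∀ t, |t - d.t| < 3 * c.rU y → σ.At K c t) ∧
  (∀ x ∈ (d.sk c M).D, x < n → (d.sk c M).η x ≤ Real.exp (-3 * (d.sk c M).σ x) →
    D7 M d.t 2 (σ.orb M d.t) (d.sk c M) x) ∧
  |(σ.orb M d.t).nu1 n - (σ.orb M d.t).nu1 (σ.J - d.n)|
    ≤ Real.exp (-(d.sk c M).chi 0 n / 4) + Real.exp (-y / 4)

/-- explicit form of the slack; a strong major is deep -/
def BIG_s (K : ℕ) (c : Cs) : Prop := First K c → ∀ M : Mdl, M.OK c → ∀ d : Dat,
  d.Pre c (Ex2 K c M) M →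
  (∀ i, 1 ≤ i → (d.sk c M).sl i ≤ c.ths * (d.sk c M).W i + 10 * c.lam ∧
    10 * c.lam ≤ (d.sk c M).sl i) ∧
  (∀ m ∈ (d.sk c M).F, (d.sk c M).W m ≤ d.V c M ∧ c.C0 * (d.sk c M).sl m ≤ d.s0 c M) ∧
  ∀ x ∈ (d.sk c M).D, (d.sk c M).Strong K x →
    c.bl ≤ 10 * c.C0 * (Cw K + 1) * (-Real.log ((d.sk c M).η x))

/-- without cancellation section J gives `JF` -/
def JFR_s (K : ℕ) (c : Cs) : Prop := First K c → ∀ M : Mdl, M.OKk c (K + 6) →
  ∀ sd, Seeds K c (Ex2 K c M) M sd → ∀ d : Dat, d.Pre c (Ex2 K c M) M → d.High c M →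
  ¬ d.Canc K c M sd → d.JF K c M sd

/-- section E -/
def E_s (K : ℕ) (c : Cs) : Prop := First K c → ∀ M : Mdl, M.OKk c (K + 6) →
  ∀ sd, Seeds K c (Ex2 K c M) M sd →
  volume {t | ∃ d : Dat, d.t = t ∧ d.Pre c (Ex2 K c M) M ∧ d.High c M ∧ d.Canc K c M sd} ≤ 1 / 20

/-- section F, the three instances -/
def FS_s (K : ℕ) (c : Cs) : Prop := First K c → ∀ M : Mdl, M.OKk c (K + 6) →
  ∀ sd, Seeds K c (Ex2 K c M) M sd →
  volume {t | ∃ d : Dat, d.t = t ∧ d.Pre c (Ex2 K c M) M ∧ d.High c M ∧ d.JF K c M sd ∧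
    d.BadS c M} ≤ 1 / 30
def F3_s (K : ℕ) (c : Cs) : Prop := First K c → ∀ M : Mdl, M.OKk c (K + 6) →
  ∀ sd, Seeds K c (Ex2 K c M) M sd →
  volume {t | ∃ d : Dat, d.t = t ∧ d.Pre c (Ex2 K c M) M ∧ d.High c M ∧ d.JF K c M sd ∧
    d.Bad3 c M} ≤ 1 / 30
def F5_s (K : ℕ) (c : Cs) : Prop := First K c → ∀ M : Mdl, M.OKk c (K + 6) →
  ∀ sd, Seeds K c (Ex2 K c M) M sd →
  volume {t | ∃ d : Dat, d.t = t ∧ d.Pre c (Ex2 K c M) M ∧ d.High c M ∧ d.JF K c M sd ∧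
    ¬ d.BadS c M ∧ ¬ d.Bad3 c M ∧ d.Bad5 c M K} ≤ 1 / 30

end
end Pool.Agent.MP_9cbfe4_an

end

/-! ### Part D0 -/

section

/-! Section S, row D0: two solutions of the seed system, order `0`. -/

namespace Pool.Agent.MP_9cbfe4_an.SS

open Finset

theorem d0 (h0 : ST0_s) (hL : LS_s) : D0_s := by
  intro g N E e P τ X η X' η' f f' β γ h hE hτ ex ee ex' ee' xs es e0 e0' tu tu' hη hβ hγ hf hf' bx bp
    pJ
  have s0 := h.s0
  have J1 := h.J1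
  have κn : ∀ j, P.s - 1 ≤ j → 0 ≤ β * P.κ j := fun j a => mul_nonneg hβ (h.κ_nonneg a)
  obtain st := fun j (a : P.s ≤ j) (b : j ≤ P.J) => h0 g _ N _ _ _ _ _ (h.lm j a b) _
    (mem_UB tu hτ (by omega) b) _ (mem_UB tu' hτ (by omega) b)
  -- the equations of the second solution, with defects
  obtain fx : ∀ j, P.s ≤ j → j < P.J → |X' (j + 1) - g (τ, X' j, X' (j - 1))| ≤ β * P.κ j := by
    intro j a b
    rcases a.eq_or_lt with rfl | a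
    · rw [xs]; simpa using hf
    · rw [ex' j a b]; simpa using κn j (by omega)
  obtain fe : ∀ j, P.s ≤ j → j < P.J → |η' (j + 1) - (ga g (τ, X' j, X' (j - 1)) * η' j
      + gb g (τ, X' j, X' (j - 1)) * η' (j - 1))| ≤ β * P.κ j := by
    intro j a b
    rcases a.eq_or_lt with rfl | a
    · rw [es]; simpa using hf'
    · rw [ee' j a b]; simpa using κn j (by omega)
  have tri : ∀ {u v w : ℝ}, u = v + w → |u| ≤ |v| + |w| := fun e => e ▸ abs_add_le _ _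
  have key := hL P.R E 0 (e + 3) P.ξ P.w P.μ P.D (fun j => X' j - X j) (fun j => η' j - η j) P.s P.J
    P.Λ P.L P.δ 0 (β * P.κ 0) β γ (P.Λ ^ 2 * P.r) h.ct (by omega) le_rfl (κn 0 (by omega)) hβ hγ h.ρ0
    (h.ρ10 (by omega)) ?_ ?_ ?_ bx bp (by simp [e0, e0']) pJ
  rotate_left
  · intro j a b
    have h1 := (st j a b.le).1
    have h2 := fx j a b
    simp only [sub_self, abs_zero, mul_zero, zero_add] at h1
    obtain h3 := tri (u := P.R.df (fun j => X' j - X j) j)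
      (v := X' (j + 1) - g (τ, X' j, X' (j - 1)))
      (w := g (τ, X' j, X' (j - 1)) - g (τ, X j, X (j - 1)) - P.R.a j * (X' j - X j)
        - P.R.b j * (X' (j - 1) - X (j - 1))) (by simp only [Sq.df]; rw [ex j a b]; ring)
    simp only [Sq.sz, RD.κ] at h2 ⊢
    linarith only [hγ, h2, h1, h3]
  · intro j a b _
    obtain m := h.big (j := j) (by omega) b.le
    have D := h.Dpos b.le
    have bj := h.bpos a b.le
    obtain d1 : |η' j| ≤ P.μ j ^ (e + 1) * P.D j :=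
      (hη j (by omega) b.le).trans (mul_le_mul_of_nonneg_right (LS.pw m (by omega)) D.le)
    obtain d2 : P.R.b j * |η' (j - 1)| ≤ P.μ j ^ (e + 1) * P.D j :=
      (mul_le_mul_of_nonneg_left (hη (j - 1) (by omega) (by omega)) bj.le).trans
        (h.bD (by omega) a b.le)
    have h1 := (st j a b.le).2.2.2.2.2.1 (η j) (η (j - 1)) _ _ _ d1 d2
    have h2 := fe j a b
    simp only [sub_self, abs_zero, mul_zero, add_zero] at h1
    obtain h3 := tri (u := P.R.df (fun j => η' j - η j) j)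
      (v := η' (j + 1) - (ga g (τ, X' j, X' (j - 1)) * η' j + gb g (τ, X' j, X' (j - 1)) * η' (j - 1)))
      (w := ga g (τ, X' j, X' (j - 1)) * η' j + gb g (τ, X' j, X' (j - 1)) * η' (j - 1)
        - (ga g (τ, X j, X (j - 1)) * η j + gb g (τ, X j, X (j - 1)) * η (j - 1))
        - P.R.a j * (η' j - η j) - P.R.b j * (η' (j - 1) - η (j - 1)))
      (by simp only [Sq.df]; rw [ee j a b]; ring)
    obtain h4 : 2 * P.μ j * (P.μ j ^ (e + 1) * P.D j) ≤ P.μ j ^ (e + 3) * P.D j := by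
      obtain this : 0 ≤ P.μ j * (P.μ j ^ (e + 1) * P.D j) := by (clear * - m D; positivity)
      calc 2 * P.μ j * (P.μ j ^ (e + 1) * P.D j) = 2 * (P.μ j * (P.μ j ^ (e + 1) * P.D j)) := by ring
        _ ≤ P.μ j * (P.μ j * (P.μ j ^ (e + 1) * P.D j)) :=
          mul_le_mul_of_nonneg_right (by linarith only [m]) this
        _ = _ := by ring
    obtain h5 := mul_le_mul_of_nonneg_right h4
      (show 0 ≤ |X' j - X j| + P.R.b j * |X' (j - 1) - X (j - 1)| by (clear * - bj; positivity))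
    simp only [Sq.sz, RD.κ] at h2 ⊢
    linarith only [hγ, h2, h1, h3, h5]
  · obtain b0 := h.bpos s0 (by omega)
    have m := h.big0
    obtain d2 : P.R.b 0 * |η' (0 - 1)| ≤ P.δ := by
      obtain this := hη (-1) (by omega) (by omega)
      rw [h.ct.Dneg (-1) (by omega), mul_one] at this
      exact (mul_le_mul_of_nonneg_left this b0.le).trans (h.b0mu (by omega))
    obtain h1 := (st 0 s0 (by omega)).2.2.2.2.2.2 P.L (η (0 - 1)) _ _ h.fold d2 h.δ_le_one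
      (h.muδ_L (by omega))
    obtain h2 := fe 0 s0 (by omega)
    obtain h6 := ee 0 s0 (by omega)
    simp only [sub_self, abs_zero, mul_zero, add_zero, zero_sub, zero_add, e0, e0', mul_one]
      at h1 h2 h6 ⊢
    obtain h3 := tri (u := ga g (τ, X' 0, X' (-1)) + gb g (τ, X' 0, X' (-1)) * η' (-1)
        - (ga g (τ, X 0, X (-1)) + gb g (τ, X 0, X (-1)) * η (-1))) (v := η' 1 - η 1)
      (w := -(η' 1 - (ga g (τ, X' 0, X' (-1)) + gb g (τ, X' 0, X' (-1)) * η' (-1))))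
      (by rw [h6]; ring)
    rw [abs_neg] at h3
    obtain h4 : 2 * P.μ 0 ≤ P.μ 0 ^ (e + 3) := by
      obtain this := LS.pw3 m (a := 1) (b := e + 3) (by omega)
      rw [pow_one] at this
      linarith only [m, this]
    obtain h5 := mul_le_mul_of_nonneg_right h4
      (show 0 ≤ P.R.b 0 * |X' (-1) - X (-1)| by (clear * - b0; positivity))
    linarith only [h1, h2, h3, h5]
  obtain ⟨k0, k1⟩ := key
  intro j a b
  obtain ⟨k1, k2⟩ := k1 j a b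
  have hΛ := h.Λ_ge
  obtain n0 := κn 0 (by omega)
  have nj := κn j a
  have c0 : P.R.kp P.w (P.s - 1) 0 = P.κ 0 := (P.κ_neg le_rfl).symm
  have cj : P.R.kp P.w (P.s - 1) (min j 0) = P.κ j := rfl
  simp only [c0, cj, mul_zero, add_zero, zero_add] at k0 k1 k2
  obtain ⟨Z, hZ⟩ : ∃ Z, Z = β * P.κ j + γ := ⟨_, rfl⟩
  rw [← hZ] at k1 k2 ⊢
  obtain Z0 : 0 ≤ Z := by rw [hZ]; linarith only [hγ, nj]
  obtain z1 : β * P.κ 0 + γ ≤ P.Λ * Z := by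
    have h1 := mul_le_mul_of_nonneg_left
      ((h.κ0_le a).trans (mul_le_mul_of_nonneg_right h.top0 (h.κ_nonneg a))) hβ
    obtain h2 : γ ≤ P.Λ * γ := le_mul_of_one_le_left hγ (by linarith only [hΛ])
    rw [hZ]; linarith only [h1, h2]
  obtain x0 : |X' 0 - X 0| ≤ P.Λ ^ (e + 34) * Z := by
    have p1 := h.one_le_Λ_pow (e + 3 + 30)
    obtain h1 : β * P.κ 0 + γ ≤ P.Λ ^ (e + 3 + 30) * (β * P.κ 0 + γ) :=
      le_mul_of_one_le_left (by linarith only [hγ, n0]) p1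
    have h2 := mul_le_mul_of_nonneg_right h.ct.L1 (abs_nonneg (X' 0 - X 0))
    obtain h3 := mul_le_mul_of_nonneg_left z1 (by linarith only [p1] : 0 ≤ P.Λ ^ (e + 3 + 30))
    obtain h4 : P.Λ ^ (e + 3 + 30) * (P.Λ * Z) = P.Λ ^ (e + 34) * Z := by ring
    linarith only [hγ, n0, k0, h1, h2, h3, h4]
  obtain fin : ∀ (u : ℝ) (a' b' : ℕ), u ≤ P.Λ ^ a' → e + 34 + a' + 1 ≤ 2 * e + 70 →
      b' + 1 ≤ 2 * e + 70 → |X' 0 - X 0| * u + P.Λ ^ b' * Z ≤ P.Λ ^ (2 * e + 70) * Z := by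
    intro u a' b' hu h1 h2
    have p1 := mul_le_mul_of_nonneg_right (LS.pw3 hΛ h1) Z0
    have p2 := mul_le_mul_of_nonneg_right (LS.pw3 hΛ h2) Z0
    obtain p3 : |X' 0 - X 0| * u ≤ P.Λ ^ (e + 34 + a') * Z :=
      calc |X' 0 - X 0| * u ≤ |X' 0 - X 0| * P.Λ ^ a' := mul_le_mul_of_nonneg_left hu (abs_nonneg _)
        _ ≤ P.Λ ^ (e + 34) * Z * P.Λ ^ a' := mul_le_mul_of_nonneg_right x0 (by positivity)
        _ = _ := by ring
    obtain p4 : 0 ≤ P.Λ ^ (2 * e + 70) * Z := by (clear * - hΛ Z0; positivity)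
    linarith only [p1, p2, p3, p4]
  refine ⟨k1.trans (fin _ 20 30 (h.mu_pow_le a b 20) (by omega) (by omega)), k2.trans ?_⟩
  rw [mul_assoc]
  exact fin _ _ _ (h.muD_le a b _) (by omega) (by omega)

end Pool.Agent.MP_9cbfe4_an.SS

end

/-! ### Part FT -/

section

/-! Row FT of section S: forward facts of order `0`. -/

namespace Pool.Agent.MP_9cbfe4_an.SS
open Finset

namespace FT
variable {g : R3 → ℝ} {N E : ℕ} {P : RD} {τ : ℝ}

theorem Λ_ge (h : Ref g N E P) : 1000 ≤ P.Λ := by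
  have h1 := h.ct.fc.J1
  have h2 := h.ct.hc.s0
  exact (h.ct.fc.big 0 le_rfl (by omega)).trans (h.ct.top 0 (by omega) (by omega))

theorem topJ (h : Ref g N E P) : P.μ P.J ≤ P.Λ := by
  have h1 := h.ct.fc.J1
  have h2 := h.ct.hc.s0
  exact h.ct.top _ (by omega) le_rfl

theorem ρ0 (h : Ref g N E P) : 0 ≤ P.Λ ^ 2 * P.r := mul_nonneg (sq_nonneg _) h.r0.le

theorem ρ1 (h : Ref g N E P) (hE : 100 ≤ E) : P.Λ ^ 2 * P.r * P.Λ ^ 10 ≤ 1 := by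
  obtain h1 : P.Λ ^ 12 ≤ P.Λ ^ E := pow_le_pow_right₀ (by linarith only [Λ_ge h]) (by omega)
  have h2 := (mul_le_mul_of_nonneg_left h1 h.r0.le).trans h.rE
  linarith only [h2]

theorem lm (h : Ref g N E P) {j : ℤ} (h1 : 1 ≤ j) (h2 : j ≤ P.J) :
    LM g (UB P.R P.t0 P.r j) N (P.R.a j) (P.R.b j) (P.μ j) P.dl (P.Λ ^ 2 * P.r) :=
  h.lm j (by have := h.ct.hc.s0; omega) h2

theorem mem {X : ℤ → ℝ} {m j : ℤ} (ht : |τ - P.t0| ≤ P.r) (hX : Tube P.R X 0 m P.r) (h1 : 1 ≤ j)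
    (h2 : j ≤ m) : ((τ, X j, X (j - 1)) : R3) ∈ UB P.R P.t0 P.r j :=
  ⟨ht, hX j (by omega) h2, hX (j - 1) (by omega) (by omega)⟩

theorem bD (h : Ref g N E P) {j : ℤ} (h1 : 1 ≤ j) (h2 : j ≤ P.J) :
    P.R.b j * P.D (j - 1) ≤ P.μ j * P.D j := by
  obtain this := h.ct.fc.PbD (j - 1) j (by omega) (by omega) h2
  have e1 := P.R.Pb_one (j - 1)
  rw [sub_add_cancel] at e1
  rwa [e1] at this

/-- a solution of the perturbed linear step has a small defect -/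
theorem df_lin (h : Ref g N E P) {j : ℤ} (h1 : 1 ≤ j) (h2 : j ≤ P.J) {z : R3}
    (hz : z ∈ UB P.R P.t0 P.r j) {Y : ℤ → ℝ} {f : ℝ}
    (e : Y (j + 1) = ga g z * Y j + gb g z * Y (j - 1) + f) :
    |P.R.df Y j| ≤ |f| + P.Λ ^ 2 * P.r * P.R.sz Y j := by
  have a1 := mul_le_mul_of_nonneg_right ((lm h h1 h2).ha z hz) (abs_nonneg (Y j))
  have a2 := mul_le_mul_of_nonneg_right ((lm h h1 h2).hb z hz) (abs_nonneg (Y (j - 1)))
  rw [← abs_mul] at a1 a2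
  obtain e2 : P.R.df Y j = f + ((ga g z - P.R.a j) * Y j + (gb g z - P.R.b j) * Y (j - 1)) := by
    unfold Sq.df; rw [e]; ring
  rw [e2]
  refine (abs_add_le _ _).trans (add_le_add le_rfl ((abs_add_le _ _).trans ?_))
  unfold Sq.sz
  linarith only [a1, a2]

theorem one (h : Ref g N E P) (hE : 100 ≤ E) (ht : |τ - P.t0| ≤ P.r) {X : ℤ → ℝ} {r1 : ℝ}
    (hX : EqX g τ X 1 P.J) (t1 : |τ - P.t0| ≤ r1) (x0 : |X 0 - P.R.X 0| ≤ r1)
    (x1 : |X 1 - P.R.X 1| ≤ r1) (hr : r1 * P.Λ ^ 10 ≤ P.r) : Tube P.R X 0 P.J (r1 * P.Λ ^ 8) := by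
  have hΛ := Λ_ge h
  have s0 := h.ct.hc.s0
  have r0 : 0 ≤ r1 := (abs_nonneg _).trans t1
  obtain p7 : 0 ≤ P.Λ ^ 7 := by positivity
  obtain c1 : 2 * r1 * P.Λ ^ 7 ≤ r1 * P.Λ ^ 8 := by
    obtain this := mul_le_mul_of_nonneg_right (show 2 ≤ P.Λ by linarith only [hΛ]) (mul_nonneg r0 p7)
    linarith only [this]
  obtain c2 : r1 * P.Λ ^ 8 ≤ P.r :=
    (mul_le_mul_of_nonneg_left (pow_le_pow_right₀ (by linarith only [hΛ]) (by norm_num)) r0).trans hr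
  obtain c3 : r1 ≤ r1 * P.Λ ^ 8 := le_mul_of_one_le_right r0 (one_le_pow₀ (by linarith only [hΛ]))
  obtain H : ∀ m, 1 ≤ m → m ≤ P.J → Tube P.R X 0 m (r1 * P.Λ ^ 8) := by
    intro m hm
    induction m, hm using Int.leInduction with
    | base =>
      intro _ j a1 a2
      rcases (show j = 0 ∨ j = 1 by omega) with rfl | rfl
      · exact x0.trans c3
      · exact x1.trans c3
    | succ m hm ih =>
      intro hJ j a1 a2
      obtain T : Tube P.R X 0 m P.r := fun i b1 b2 => (ih (by omega) i b1 b2).trans c2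
      obtain A := apf1 P.R E 0 P.μ P.D (fun i => X i - P.R.X i) P.J (m + 1) P.Λ (2 * r1) _ h.ct.fc
        (topJ h) (by omega) hJ (by linarith only [r0]) (ρ0 h) (ρ1 h hE) (fun i b1 b2 => by
          obtain B := (st0 _ _ _ _ _ _ _ _ (lm h b1 (by omega)) (P.t0, P.R.X i, P.R.X (i - 1))
            ⟨by simpa using h.r0.le, by simpa using h.r0.le, by simpa using h.r0.le⟩ _
            (mem ht T b1 (by omega))).1
          rw [← hX i b1 (by omega), ← h.orb i (by omega) (by omega)] at B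
          unfold Sq.df Sq.sz
          simp only [pow_zero, mul_one] at B ⊢
          linarith only [t1, B])
        (by simp only [pow_zero, mul_one]; linarith only [x0, r0]) (by simp only [pow_zero, mul_one]; linarith only [x1, r0])
        j a1 a2
      obtain b1 := h.ct.fc.big j a1 (by omega)
      obtain b2 : P.μ j ^ (0 + 7) ≤ P.Λ ^ 7 :=
        pow_le_pow_left₀ (by linarith only [b1]) (h.ct.top j (by omega) (by omega)) 7
      exact (A.trans (mul_le_mul_of_nonneg_left b2 (by linarith only [r0]))).trans c1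
  exact H _ h.ct.fc.J1 le_rfl

theorem two (h : Ref g N E P) (hE : 100 ≤ E) (ht : |τ - P.t0| ≤ P.r) {X η : ℤ → ℝ}
    (hη : EqE g τ X η 1 P.J) (T : Tube P.R X 0 P.J P.r) (e0 : η 0 = 1) (eJ : η P.J = 0) {j : ℤ}
    (a1 : 0 ≤ j) (a2 : j ≤ P.J) : |η j| ≤ P.μ j ^ 10 * P.D j := by
  have J1 := h.ct.fc.J1
  have b1 := h.ct.fc.big j a1 a2
  rcases a1.eq_or_lt with rfl | hj
  · rw [e0, abs_one, h.ct.fc.D0, mul_one]
    exact one_le_pow₀ (by linarith only [b1])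
  have A := apf2 P.R E 2 P.μ P.D (fun i => if i = 0 then 0 else η i) P.J P.Λ 1 0 _ h.ct.fc
    (topJ h) (by omega) zero_le_one le_rfl (ρ0 h) (ρ1 h hE) (fun i c1 c2 => by
      have z := mem ht T c1 c2.le
      obtain d1 := h.ct.fc.big i (by omega) c2.le
      obtain d2 := h.ct.fc.Dpos i (by omega) c2.le
      rcases c1.eq_or_lt with rfl | c3
      · refine (df_lin h le_rfl c2.le z (f := gb g (τ, X 1, X (1 - 1))) ?_).trans
          (add_le_add ?_ le_rfl)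
        · have := hη 1 le_rfl c2
          norm_num at this ⊢
          rw [this, e0, mul_one]
        · have L := lm h le_rfl c2.le
          have f1 := abs_le.1 (L.hb _ z)
          have f2 := mul_le_mul_of_nonneg_right L.ρ1 L.b0.le
          have f3 := bD h le_rfl c2.le
          rw [show (1 : ℤ) - 1 = 0 by ring, h.ct.fc.D0, mul_one] at f3
          obtain f4 := mul_le_mul_of_nonneg_right d1 (show 0 ≤ P.μ 1 * P.D 1 by (clear * - d1 d2; positivity))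
          have f5 := L.b0
          rw [abs_le]
          constructor <;> linarith only [f2, f3, f4, f5, f1.1, f1.2]
      · refine (df_lin h c1 c2.le z (f := 0) ?_).trans (add_le_add ?_ le_rfl)
        · simp only [if_neg (show i + 1 ≠ 0 by omega), if_neg (show i ≠ 0 by omega),
            if_neg (show i - 1 ≠ 0 by omega), add_zero]
          exact hη i c1 c2
        · rw [abs_zero]; (clear * - d1 d2; positivity))
    (by simp) (by simp [eJ]) j a1 a2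
  simp only [if_neg hj.ne', one_mul, zero_mul, add_zero] at A
  exact A.trans (mul_le_mul_of_nonneg_right (pow_le_pow_right₀ (by linarith only [b1]) (by norm_num))
    (h.ct.fc.Dpos j a1 a2).le)

theorem slope (h : Ref g N E P) (hE : 100 ≤ E) (ht : |τ - P.t0| ≤ P.r) {X η : ℤ → ℝ}
    (hη : EqE g τ X η 1 P.J) (T : Tube P.R X 0 P.J P.r) (e0 : η 0 = 1) (eJ : η P.J = 0) (S : Sq)
    (ha : ∀ j, 1 ≤ j → j < P.J → S.a j = ga g (τ, X j, X (j - 1)))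
    (hb : ∀ j, 1 ≤ j → j ≤ P.J → S.b j = gb g (τ, X j, X (j - 1))) :
    S.fr 1 P.J ≠ 0 ∧ S.nu1 P.J = η 1 := by
  have J1 := h.ct.fc.J1
  obtain ne : S.fr 1 P.J ≠ 0 := fun h0 => by
    have A := apf2 P.R E 0 P.μ P.D (S.fr 1) P.J P.Λ 0 0 _ h.ct.fc
      (topJ h) (by omega) le_rfl le_rfl (ρ0 h) (ρ1 h hE) (fun i c1 c2 => by
        refine (df_lin h c1 c2.le (mem ht T c1 c2.le) (f := 0) ?_).trans_eq (by simp)
        rw [S.fr_succ c1, ha i c1 c2, hb i c1 c2.le, add_zero])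
      (S.fr_lt (by omega)) (by simp [h0]) 1 (by omega) J1
    rw [S.fr_self] at A
    norm_num at A
  refine ⟨ne, ?_⟩
  obtain R := S.repr_on (ξ := η) (i := 1) (n := P.J) (fun i c1 c2 => by
    rw [ha i c1 c2, hb i c1 c2.le]; exact hη i c1 c2) J1 le_rfl
  rw [eJ, show (1 : ℤ) - 1 = 0 by ring, e0, show (1 : ℤ) + 1 = 2 by ring] at R
  unfold Sq.nu1
  field_simp
  linarith only [R]

theorem three (h : Ref g N E P) (hE : 100 ≤ E) (ht : |τ - P.t0| ≤ P.r) {X η X' η' : ℤ → ℝ} {z : ℝ}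
    (hX : EqX g τ X 1 P.J) (hη : EqE g τ X η 1 P.J) (hX' : EqX g τ X' 1 P.J)
    (hη' : EqE g τ X' η' 1 P.J) (T : Tube P.R X 0 P.J P.r) (T' : Tube P.R X' 0 P.J P.r)
    (e0 : η 0 = 1) (e0' : η' 0 = 1) (eJ : η P.J = 0) (eJ' : η' P.J = 0) (x0 : |X' 0 - X 0| ≤ z)
    (x1 : |X' 1 - X 1| ≤ z) : |η' 1 - η 1| ≤ P.δ * z := by
  have J1 := h.ct.fc.J1
  have z0 : 0 ≤ z := (abs_nonneg _).trans x0
  obtain A := apf1 P.R E 0 P.μ P.D (fun i => X' i - X i) P.J P.J P.Λ z _ h.ct.fc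
    (topJ h) J1 le_rfl z0 (ρ0 h) (ρ1 h hE) (fun i b1 b2 => by
      have B := (st0 _ _ _ _ _ _ _ _ (lm h b1 b2.le) _ (mem ht T b1 b2.le) _
        (mem ht T' b1 b2.le)).1
      rw [← hX i b1 b2, ← hX' i b1 b2] at B
      unfold Sq.df Sq.sz
      simp only [pow_zero, mul_one, sub_self, abs_zero, mul_zero, zero_add] at B ⊢
      linarith only [z0, B])
    (by simpa using x0) (by simpa using x1)
  obtain B := apf2 P.R E 21 P.μ P.D (fun i => η' i - η i) P.J P.Λ z 0 _ h.ct.fc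
    (topJ h) (by omega) z0 le_rfl (ρ0 h) (ρ1 h hE) (fun i b1 b2 => by
      obtain d1 := h.ct.fc.big i (by omega) b2.le
      obtain d0 : 0 ≤ P.μ i := by linarith only [d1]
      obtain d2 := h.ct.fc.Dpos i (by omega) b2.le
      have d3 := h.ct.fc.bpos i b1 b2.le
      obtain up : ∀ k : ℕ, P.μ (i - 1) ^ k ≤ P.μ i ^ k := fun k => pow_le_pow_left₀
        (by linarith only [b1, b2, h.ct.fc.big (i - 1) (by omega) (by omega)])
        (h.ct.fc.mono (i - 1) i (by omega) (by omega) b2.le) k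
      obtain f1 : |η' i| ≤ P.μ i ^ 11 * P.D i := (two h hE ht hη' T' e0' eJ' (by omega) b2.le).trans
        (mul_le_mul_of_nonneg_right (pow_le_pow_right₀ (by linarith only [d1]) (by norm_num)) d2.le)
      obtain f2 : P.R.b i * |η' (i - 1)| ≤ P.μ i ^ 11 * P.D i := by
        obtain y1 := mul_le_mul_of_nonneg_left
          (two h hE ht hη' T' e0' eJ' (j := i - 1) (by omega) (by omega)) d3.le
        obtain y2 := mul_le_mul (up 10) (bD h b1 b2.le)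
          (mul_pos d3 (h.ct.fc.Dpos (i - 1) (by omega) (by omega))).le (by (clear * - d1; positivity))
        linarith only [y1, y2]
      have C := (st0 _ _ _ _ _ _ _ _ (lm h b1 b2.le) _ (mem ht T b1 b2.le) _
        (mem ht T' b1 b2.le)).2.2.2.2.2.1 (η i) (η (i - 1)) _ _ _ f1 f2
      rw [← hη i b1 b2, ← hη' i b1 b2] at C
      obtain f3 := A i (by omega) b2.le
      obtain f4 : P.R.b i * |X' (i - 1) - X (i - 1)| ≤ P.μ i * (z * P.μ i ^ 7) :=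
        mul_le_mul (h.ct.fc.ble i b1 b2.le) ((A (i - 1) (by omega) (by omega)).trans
          (mul_le_mul_of_nonneg_left (up 7) z0)) (abs_nonneg _) d0
      obtain f5 : z * P.μ i ^ 7 ≤ P.μ i * (z * P.μ i ^ 7) :=
        le_mul_of_one_le_left (by (clear * - z0 d1; positivity)) (by linarith only [d1])
      obtain f6 : 2 * P.μ i * (P.μ i ^ 11 * P.D i) * (|X' i - X i| + P.R.b i * |X' (i - 1) - X (i - 1)|)
          ≤ 2 * P.μ i * (P.μ i ^ 11 * P.D i) * (2 * (P.μ i * (z * P.μ i ^ 7))) :=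
        mul_le_mul_of_nonneg_left (by norm_num at f3; linarith only [f4, f5, f3]) (by positivity)
      obtain f7 := mul_le_mul_of_nonneg_right (show 4 ≤ P.μ i by linarith only [d1])
        (show 0 ≤ z * P.μ i ^ 20 * P.D i by (clear * - z0 d1 d2; positivity))
      unfold Sq.df Sq.sz
      simp only [sub_self, abs_zero, mul_zero, add_zero] at C ⊢
      linarith only [f6, f7, C])
    (by simp [e0, e0']) (by simp [eJ, eJ']) 1 (by omega) J1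
  obtain d1 := h.ct.fc.big 1 (by omega) J1
  obtain d2 : P.μ 1 ^ (21 + 7) * P.D 1 ≤ P.δ :=
    (mul_le_mul_of_nonneg_right (pow_le_pow_right₀ (by linarith only [d1]) (by omega))
      (h.ct.fc.Dpos 1 (by omega) J1).le).trans h.ct.g1
  have d3 := mul_le_mul_of_nonneg_left d2 z0
  linarith only [B, d3]

end FT

theorem ft : FT_s := fun _ _ _ _ _ h hE ht =>
  ⟨fun _ _ hX t1 x0 x1 hr => FT.one h hE ht hX t1 x0 x1 hr,
    fun _ _ hη T e0 eJ => ⟨fun _ a1 a2 => FT.two h hE ht hη T e0 eJ a1 a2,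
      FT.slope h hE ht hη T e0 eJ⟩,
    fun _ _ _ _ _ hX hη hX' hη' T T' e0 e0' eJ eJ' x0 x1 =>
      FT.three h hE ht hX hη hX' hη' T T' e0 e0' eJ eJ' x0 x1⟩

end Pool.Agent.MP_9cbfe4_an.SS

end

/-! ### Part FAM -/

section

/-! Row FAM: smooth families of orbits and the recursion for their jets. -/

namespace Pool.Agent.MP_9cbfe4_an

open Finset Filter Topology
open scoped ContDiff Nat

noncomputable section

/-- the curve `τ ↦ (τ, X_j τ, X_{j-1} τ)` -/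
def gam (X : ℤ → ℝ → ℝ) (j : ℤ) (τ : ℝ) : ℝ × ℝ × ℝ := (τ, X j τ, X (j - 1) τ)

theorem isOpen_OB (c : Cs) : IsOpen (OB c) := by
  unfold OB
  exact (isOpen_lt continuous_const continuous_fst).inter
    ((isOpen_lt continuous_fst continuous_const).inter
      ((isOpen_lt continuous_snd.fst.abs continuous_const).inter
        (isOpen_lt continuous_snd.snd.abs continuous_const)))

theorem iteratedDeriv_pair {F G : Type*} [NormedAddCommGroup F] [NormedSpace ℝ F]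
    [NormedAddCommGroup G] [NormedSpace ℝ G] {f : ℝ → F} {g : ℝ → G} {x : ℝ} {N : WithTop ℕ∞}
    {a : ℕ} (hf : ContDiffAt ℝ N f x) (hg : ContDiffAt ℝ N g x) (ha : (a : WithTop ℕ∞) ≤ N) :
    iteratedDeriv a (fun τ => (f τ, g τ)) x = (iteratedDeriv a f x, iteratedDeriv a g x) := by
  simp only [iteratedDeriv, iteratedFDeriv_prodMk hf hg ha, ContinuousMultilinearMap.prod_apply]

section
variable {c : Cs} {k : ℕ} {M : Mdl} {X : ℤ → ℝ → ℝ} {j : ℤ} {t : ℝ} {N : WithTop ℕ∞} {m : ℕ}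

theorem Mdl.OKk.smoothAt (hM : M.OKk c k) {z : ℝ × ℝ × ℝ} (hz : z ∈ OB c) (hN : N ≤ ∞) :
    ContDiffAt ℝ N M.GG z := (hM.smooth.contDiffAt ((isOpen_OB c).mem_nhds hz)).of_le hN

theorem gam_smooth (h1 : ContDiffAt ℝ N (X j) t) (h0 : ContDiffAt ℝ N (X (j - 1)) t) :
    ContDiffAt ℝ N (gam X j) t := contDiffAt_id.prodMk (h1.prodMk h0)

theorem gam_jet (h1 : ContDiffAt ℝ N (X j) t) (h0 : ContDiffAt ℝ N (X (j - 1)) t) (hm : 0 < m)
    (hN : (m : WithTop ℕ∞) ≤ N) : iteratedDeriv m (gam X j) t =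
      (if m = 1 then 1 else 0, iteratedDeriv m (X j) t, iteratedDeriv m (X (j - 1)) t) := by
  have := iteratedDeriv_pair (f := fun τ : ℝ => τ) contDiffAt_id (h1.prodMk h0) hN
  rw [iteratedDeriv_pair h1 h0 hN, iteratedDeriv_fun_id, if_neg hm.ne'] at this
  exact this

/-- one step preserves smoothness -/
theorem step_smooth (hM : M.OKk c k) (hN : N ≤ ∞) (hz : gam X j t ∈ OB c)
    (h1 : ContDiffAt ℝ N (X j) t) (h0 : ContDiffAt ℝ N (X (j - 1)) t)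
    (hs : X (j + 1) =ᶠ[𝓝 t] fun τ => M.G τ (X j τ) (X (j - 1) τ)) : ContDiffAt ℝ N (X (j + 1)) t :=
  ((hM.smoothAt hz hN).comp t (gam_smooth h1 h0)).congr_of_eventuallyEq hs

/-- the recursion for the jets of order `m` -/
theorem jet_step (hM : M.OKk c k) (hN : N ≤ ∞) (hz : gam X j t ∈ OB c)
    (h1 : ContDiffAt ℝ N (X j) t) (h0 : ContDiffAt ℝ N (X (j - 1)) t)
    (hs : X (j + 1) =ᶠ[𝓝 t] fun τ => M.G τ (X j τ) (X (j - 1) τ)) (hm : 0 < m)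
    (hmN : (m : WithTop ℕ∞) ≤ N) :
    iteratedDeriv m (X (j + 1)) t = M.Ga t (X j t) (X (j - 1) t) * iteratedDeriv m (X j) t
      + M.Gb t (X j t) (X (j - 1) t) * iteratedDeriv m (X (j - 1)) t
      + ((if m = 1 then M.Gt t (X j t) (X (j - 1) t) else 0) + J0.rest M.GG (gam X j) t m 2) := by
  have e := J0.expand_one (hM.smoothAt hz hN) (gam_smooth h1 h0) hm hmN
  rw [hM.d1 _ hz, gam_jet h1 h0 hm hmN] at e
  rw [hs.iteratedDeriv_eq m]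
  refine (e.trans ?_)
  simp only [gam]
  split_ifs <;> ring

theorem rest_one {E : Type*} [NormedAddCommGroup E] [NormedSpace ℝ E] (g : E → ℝ) (γ : ℝ → E)
    (x : ℝ) : J0.rest g γ x 1 2 = 0 :=
  sum_eq_zero fun p _ => if_neg (by have := p.length_le; omega)

theorem nq_nonneg (q : ℝ) (v : ℝ × ℝ × ℝ) : 0 ≤ nq q v := le_max_of_le_left (abs_nonneg _)

/-- values of `G` lie well inside the box -/
theorem G_lt (h : SOK.Big c) (hM : M.OK c) (ht : TI t) {x y : ℝ} (hx : Box c x) (hy : Box c y) :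
    |M.G t x y| ≤ 3 / 2 * c.L := by
  have h1 := abs_le.1 (hM.val t x y ht hx hy)
  have h2 := h.w0_le
  have h3 := h.w0_pos
  have h4 := h.e0_pos
  have h5 := h.L
  obtain h6 : (1 - c.e0) * c.w0 * c.L ≤ 1 / 256 * c.L :=
    mul_le_mul_of_nonneg_right (by nlinarith only [h2, h3, h4]) (by linarith only [h2, h3, h5])
  have h7 := Real.cos_le_one x
  have h8 := Real.neg_one_le_cos x
  rw [abs_le]; constructor <;> nlinarith only [h5, h6, h8, h2, h3, h7, ht.1, ht.2, h1.1, h1.2]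
end

/-- the family of orbits through `(X_s, X_{s-1}) = (v τ, u τ)` -/
def Mdl.fam (M : Mdl) (s : ℤ) (v u : ℝ → ℝ) (j : ℤ) (τ : ℝ) : ℝ := M.pos τ s (v τ, u τ) j

namespace Mdl
variable {c : Cs} {k : ℕ} {M : Mdl} {s j : ℤ} {v u : ℝ → ℝ} {t : ℝ} {N : WithTop ℕ∞} {m : ℕ}

theorem fam_self : M.fam s v u s = v := by ext τ; simp [fam, pos]
theorem fam_lt (hj : j < s) : M.fam s v u j = u := by ext τ; simp [fam, pos, not_le.2 hj]
theorem fam_succ (hj : s ≤ j) :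
    M.fam s v u (j + 1) = fun τ => M.G τ (M.fam s v u j τ) (M.fam s v u (j - 1) τ) := by
  ext τ
  obtain ⟨n, rfl⟩ : ∃ n : ℕ, j = s + n := ⟨(j - s).toNat, by omega⟩
  have a := SOK.pos_add M τ s (v τ, u τ) (n + 1)
  rw [Function.iterate_succ_apply', ← SOK.pos_add M τ s (v τ, u τ) n] at a
  have b := congrArg Prod.fst a
  simp only [Nat.cast_add, Nat.cast_one, ← add_assoc] at b
  exact b

theorem fam_abs (h : SOK.Big c) (hM : M.OK c) (ht : TI t) {R : ℝ} (hR : 3 / 2 * c.L ≤ R)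
    (hR' : R ≤ 2 * c.L) (hv : |v t| ≤ R) (hu : |u t| ≤ R) (j : ℤ) : |M.fam s v u j t| ≤ R := by
  obtain key : ∀ j, s ≤ j → |M.fam s v u j t| ≤ R ∧ |M.fam s v u (j - 1) t| ≤ R := by
    intro j hj
    induction j, hj using Int.leInduction with
    | base => rw [fam_self, fam_lt (by omega)]; exact ⟨hv, hu⟩
    | succ j hj ih =>
      rw [add_sub_cancel_right, fam_succ hj]
      exact ⟨(G_lt h hM ht (ih.1.trans hR') (ih.2.trans hR')).trans hR, ih.1⟩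
  rcases le_or_gt s j with hj | hj
  · exact (key j hj).1
  · rw [fam_lt hj]; exact hu

theorem fam_OB (h : SOK.Big c) (hM : M.OK c) (ht : 0 < t ∧ t < 1) (hv : |v t| < 2 * c.L)
    (hu : |u t| < 2 * c.L) (j : ℤ) : gam (M.fam s v u) j t ∈ OB c := by
  have hL := h.L
  obtain hR : max (3 / 2 * c.L) (max |v t| |u t|) < 2 * c.L := max_lt (by linarith only [ht, hL]) (max_lt hv hu)
  have key := fun j => (fam_abs (s := s) h hM ⟨ht.1.le, ht.2.le⟩ (le_max_left _ _) hR.le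
    (le_max_of_le_right (le_max_left _ _)) (le_max_of_le_right (le_max_right _ _)) j).trans_lt hR
  exact ⟨ht.1, ht.2, key j, key (j - 1)⟩

theorem fam_smooth (h : SOK.Big c) (hM : M.OKk c k) (hN : N ≤ ∞) (ht : 0 < t ∧ t < 1)
    (hv : |v t| < 2 * c.L) (hu : |u t| < 2 * c.L) (sv : ContDiffAt ℝ N v t)
    (su : ContDiffAt ℝ N u t) (j : ℤ) : ContDiffAt ℝ N (M.fam s v u j) t := by
  obtain key : ∀ j, s ≤ j → ContDiffAt ℝ N (M.fam s v u j) t ∧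
      ContDiffAt ℝ N (M.fam s v u (j - 1)) t := by
    intro j hj
    induction j, hj using Int.leInduction with
    | base => rw [fam_self, fam_lt (by omega)]; exact ⟨sv, su⟩
    | succ j hj ih =>
      rw [add_sub_cancel_right]
      exact ⟨step_smooth hM hN (fam_OB h hM.ok ht hv hu j) ih.1 ih.2
        (by rw [fam_succ hj]), ih.1⟩
  rcases le_or_gt s j with hj | hj
  · exact (key j hj).1
  · rw [fam_lt hj]; exact su

/-- the jets of the family solve the linearised recursion of the orbit at `t` with a source -/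
theorem fam_jet (h : SOK.Big c) (hM : M.OKk c k) (hN : N ≤ ∞) (ht : 0 < t ∧ t < 1)
    (hv : |v t| < 2 * c.L) (hu : |u t| < 2 * c.L) (sv : ContDiffAt ℝ N v t)
    (su : ContDiffAt ℝ N u t) (hm : 0 < m) (hmN : (m : WithTop ℕ∞) ≤ N) (hj : s ≤ j) :
    iteratedDeriv m (M.fam s v u (j + 1)) t =
      (M.orb t s (v t, u t)).a j * iteratedDeriv m (M.fam s v u j) t
      + (M.orb t s (v t, u t)).b j * iteratedDeriv m (M.fam s v u (j - 1)) t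
      + ((if m = 1 then M.gt t (M.orb t s (v t, u t)) j else 0)
        + J0.rest M.GG (gam (M.fam s v u) j) t m 2) :=
  jet_step hM hN (fam_OB h hM.ok ht hv hu j) (fam_smooth h hM hN ht hv hu sv su j)
    (fam_smooth h hM hN ht hv hu sv su (j - 1)) (by rw [fam_succ hj]) hm hmN
end Mdl

end
end Pool.Agent.MP_9cbfe4_an

end

/-! ### Part JETI -/

section

/-! Glue from section J to section E-A: statements. -/

namespace Pool.Agent.MP_9cbfe4_an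

open Finset Real

noncomputable section

open Classical in
/-- `f` enumerates the free times up to `n`; `S` is the skeleton indexed by them -/
structure Enum (k : Sk) (n : ℤ) (f : ℕ → ℤ) (e : E.EK) (S : E.Sk) : Prop where
  f0 : f 0 = 1
  fN : f S.N = n
  nx : ∀ l < S.N, f (l + 1) = k.nx (f l)
  lt : ∀ l < S.N, f l < n
  W : ∀ l ≤ S.N, S.W l = k.W (f l)
  ω : ∀ l ≤ S.N, S.ω l = log (k.w (f l))
  R : ∀ l < S.N, S.R l = if f l ∈ k.D then -log (k.η (f l)) else 0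
  sl : ∀ l ≤ S.N, 2 * k.sl (f l) ≤ e.sl (S.W l)

/-- the jet hypotheses of E-A hold for a seed that fits -/
def JET_s (K : ℕ) (c : Cs) : Prop := c.Bud K (K + 1) → ∀ M σ t g k n, JC K c M σ t g k n →
  (∀ x ∈ k.D, x < n → k.η x ≤ exp (-3 * k.σ x) → D7 M t g (σ.orb M t) k x) →
  ∀ (f : ℕ → ℤ) (e : E.EK) (S : E.Sk), Enum k n f e S → e.K = K → c.th / 2 ≤ e.θ →
  c.gm (K + 1) (K + 2) ≤ e.g → S.Jet e fun j l => σ.La M t j (f l)

end
end Pool.Agent.MP_9cbfe4_an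

end

/-! ### Part JFI -/

section

/-! Interface of the glue `JFR_s` (helper26): a valid scale in the language of the skeleton. -/

namespace Pool.Agent.MP_9cbfe4_an

open Finset Filter Topology Real

noncomputable section

/-- what a valid scale gives; `k` skeleton, `s` seed, `n` relative time, `T` true orbit -/
structure VC (K : ℕ) (c : Cs) (M : Mdl) (s : Seed) (t : ℝ) (k : Sk) (T : Sq) (nuJ : ℝ) (n : ℤ)
    (σ D D2 ν R : ℝ) : Prop where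
  jc : JC K c M s t 2 k n
  n1 : 1 < n
  bud : c.Bud K (K + 1)
  sl : ∀ i, i ≤ n → c.C0 * k.sl i ≤ σ
  big : c.C1 * c.lam ≤ σ
  D0 : 0 < D
  R0 : 0 ≤ R
  ν0 : 0 ≤ ν
  DD : D ≤ D2
  hD : D2 * exp (2 * R) ≤ exp (-σ)
  rh : k.rh n ≤ exp (2 * R)
  hν : ν * exp (k.W n) ≤ exp (-σ)
  j3 : exp (2 * c.gm (K + 1) (K + 2) * k.sl n) * k.Vm n (2 * K + 1) * D ^ (K + 1) ≤ 64 * ν
  at' : ∀ τ ∈ Set.Icc (t - D) (t + D), s.At K c τ
  j4 : ∀ τ ∈ Set.Icc (t - D) (t + D), JC K c M s τ 4 k n ∧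
    JTube k n (512 * ν) D 0 (c.gm (K + 1) 1) t τ (s.orb M t) (s.orb M τ) ∧
    |s.pj M τ (K + 1) n| * D ^ (K + 1) ≤ exp (-10 * k.sl n) * (64 * ν) * k.w n ∧
    ∀ j l, 1 ≤ j → j ≤ K → 0 ≤ l → l ≤ n →
      |s.pj M τ j l| ≤ k.MJ c n (K + 1) (wt D (64 * ν) (64 * ν)) j l
  tru : ∀ l, 0 ≤ l → l ≤ n → |(s.orb M t).X l - T.X l| ≤ 1 / 1000
  hB : k.B n = T.bb c (2 / 100) n ∧ k.ch n = T.ch1 c n
  nu : |(s.orb M t).nu1 n - nuJ| ≤ 2 * D2
  chi : exp (-k.chi 0 n / 5) ≤ D2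

/-- an initial point close to the seed -/
structure VCl (c : Cs) (s : Seed) (t : ℝ) (k : Sk) (n : ℤ) (σ D δ τ v1 c1 : ℝ) : Prop where
  ht : |τ - t| ≤ D
  hv : |v1 - s.v τ| ≤ δ
  hc : |c1 - s.c τ| ≤ δ
  hδ : δ * exp (k.W n) ≤ exp (-σ)
  bx : |v1| ≤ 3 / 2 * c.L ∧ |c1| ≤ 3 / 2 * c.L

/-- row VST: static leaves -/
def VST_s (K : ℕ) (c : Cs) : Prop := ∀ M s t k T nuJ n σ D D2 ν R δ τ v1 c1,
  VC K c M s t k T nuJ n σ D D2 ν R → VCl c s t k n σ D δ τ v1 c1 →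
  |(M.orb τ 1 (v1, c1)).X n - (s.orb M τ).X n
      - ((v1 - s.v τ) - nuJ * (c1 - s.c τ)) * (s.orb M t).fr 1 n|
    ≤ exp σ * (D2 * exp (2 * R) + (ν + δ) * exp (k.W n)) * δ * k.w n

open Classical in
/-- row VJ6: the relation -/
def VJ6_s (K : ℕ) (c : Cs) : Prop := ∀ M s t k T nuJ n σ D D2 ν R δ τ v1 c1,
  VC K c M s t k T nuJ n σ D D2 ν R → VCl c s t k n σ D δ τ v1 c1 →
  (∀ l, 0 ≤ l → l ≤ n → |(M.orb τ 1 (v1, c1)).X l - (s.orb M t).X l| ≤ exp (-σ / 2)) ∧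
  (s.orb M t).Rel c (M.orb τ 1 (v1, c1)) ((s.orb M t).fr 1) ((M.orb τ 1 (v1, c1)).fr 1) n n
    (15 / 1000) (if 5 / 100 ≤ dP (T.X n) then 1 / (100 * c.lam) else c.lam / 20)
    (exp σ * sqrt D2) (1 / 2000)

/-- row VJ1: jets and oscillation at the earlier free times -/
def VJ1_s (K : ℕ) (c : Cs) : Prop := ∀ M s t k T nuJ n σ D D2 ν R,
  VC K c M s t k T nuJ n σ D D2 ν R → ∀ l ∈ k.F, l ≤ n → ∀ B, 1 ≤ B → (∀ x ∈ k.D, l ≤ x → x < n → k.w l * k.V x 1 ≤ B) →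
    (∀ j, 1 ≤ j → j ≤ K → |s.pj M t j l| * D ^ j ≤ exp σ * (k.w l * ν + D * B)) ∧
    ∀ τ, |τ - t| ≤ D → |(s.orb M τ).X l - (s.orb M t).X l| ≤ exp σ * (k.w l * ν + D * B)

/-- row VAL: a valid scale of `JF` is a valid scale of the skeleton -/
def VAL_s (K : ℕ) (c : Cs) : Prop := First K c → ∀ M : Mdl, M.OKk c (K + 6) →
  ∀ sd, Seeds K c (Ex2 K c M) M sd → ∀ d : Dat, d.Pre c (Ex2 K c M) M → d.High c M →
  ¬ d.Canc K c M sd → ∀ σ m D ν R, d.Val K c M sd σ m D ν R →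
  VC K c M (d.seed c M sd) d.t (d.sk c M) (d.O M) (d.nuJ c M sd) (m - d.n) σ D D ν R

end
end Pool.Agent.MP_9cbfe4_an

end

/-! ### Part EG -/

section

/-! Glue of section E (helper42): from data, seeds and section J to the abstract section E.
A row proves `∀ K, Hier fun c => deps → X_s K c`. -/

namespace Pool.Agent.MP_9cbfe4_an

open Finset Filter Topology Real MeasureTheory

noncomputable section

namespace Cs
variable (c : Cs)
def eg (K : ℕ) : ℝ := 10 ^ 6 * (K + 1) ^ 2 * c.ck * c.gm (K + 1) (K + 2)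
def ek (K : ℕ) : E.EK := ⟨K, c.eg K, c.th, 100 * c.ck * c.lam⟩
/-- history level of the seeds used in the run `ρ` -/
def lev (ρ : ℝ) : ℝ := max (c.bl / 3) (c.C0 * ρ / 3)
end Cs

/-- numbers of one run; `y` is the history level -/
structure PN (K : ℕ) (c : Cs) (k : E.Par) (y : ℝ) : Prop where
  ok : k.OK
  hk : k.toEK = c.ek K
  bud : c.Bud K (K + 1)
  ck2 : 2 ≤ c.ck
  g1 : 10 ^ 6 * c.ck * c.gm (K + 1) (K + 2) ≤ k.g
  g2 : gm5 K 2 + 100 * (K + 1) ≤ k.g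
  C0g : 10 ^ 12 * (K + 1) ^ 2 * k.g ≤ c.C0
  lam : c.C0 ^ 2 ≤ c.lam
  C1 : c.C0 ≤ c.C1 ∧ c.C1 * c.lam ≤ k.ς
  bl : c.lam ≤ c.bl / 100 ∧ c.bl / 4 < y
  slς : c.C0 * (c.ths * k.Wc + 10 * c.lam) ≤ k.ς
  S0 : 10 ≤ sqrt c.a * y ∧ 100 * (sqrt c.a * y) ≤ k.ς
  tiny : 1000 * (K + 2) * k.Wc ≤ y

/-- the pair of a seed -/
def mkPr (M : Mdl) (σ : Seed) (t lab : ℝ) (f : ℕ → ℤ) (S : E.Sk) : E.Pr :=
  ⟨S, t, lab, fun l j τ => σ.pj M τ j (f l) / (σ.orb M t).fr 1 (f l)⟩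

/-- dictionary between a skeleton and its enumeration -/
structure Dic (s : Sk) (f : ℕ → ℤ) (S : E.Sk) : Prop where
  mem : ∀ l ≤ S.N, f l ∈ s.F
  mono : ∀ i l, i < l → l ≤ S.N → f i < f l ∧ s.nx (f i) ≤ f l
  onto : ∀ l ≤ S.N, ∀ m ∈ s.F, m ≤ f l → ∃ i ≤ l, f i = m
  w : ∀ l ≤ S.N, s.w (f l) = exp (S.ω l)
  eta : ∀ l < S.N, f l ∈ s.D → s.η (f l) = exp (-S.R l)
  maj : ∀ l < S.N, 0 < S.R l → f l ∈ s.D
  V : ∀ l < S.N, f l ∈ s.D → ∀ e : ℕ, s.V (f l) e = exp (S.V e l)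
  rh : ∀ l ≤ S.N, s.rh (f l) = exp (2 * S.Rst l)
  NN : ∀ i l, i ≤ l → l ≤ S.N → ∀ (e : ℕ) (g b : ℝ), 0 ≤ g → g * s.σ (f i) - S.ω i ≤ b →
    (∀ x, i ≤ x → x < l → g * s.σ (f x) + S.V e x ≤ b) → s.NN (f l) e g (f i) / s.w (f i) ≤ exp b

/-- row EDI -/
def EDI_s (c : Cs) : Prop := ∀ (s : Sk) n f e S, s.OK c → n ∈ s.F → Enum s n f e S → Dic s f S

/-- everything the rows need to know about one pair: datum `d`, seed `σ` of level `y` -/
structure PC (K : ℕ) (c : Cs) (M : Mdl) (k : E.Par) (y : ℝ) (σ : Seed) (d : Dat) (f : ℕ → ℤ)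
    (p : E.Pr) : Prop where
  eq : p = mkPr M σ d.t p.lab f p.toSk
  sk : (d.sk c M).OK c
  en : ∃ n ∈ (d.sk c M).F, Enum (d.sk c M) n f k.toEK p.toSk
  dic : Dic (d.sk c M) f p.toSk
  ok : p.toSk.OK k.toEK
  jump : p.toSk.Jump k.toEK
  jc : ∀ l, p.InR k l → JC K c M σ d.t 2 (d.sk c M) (f l)
  sl : ∀ l, p.InR k l → ∀ i ≤ f l, c.C0 * (d.sk c M).sl i ≤ k.ς
  win : ∀ τ, |τ - d.t| < 3 * c.rU y → σ.At K c τ
  d7 : ∀ l, p.InR k l → ∀ x ∈ (d.sk c M).D, x < f l →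
    (d.sk c M).η x ≤ exp (-3 * (d.sk c M).σ x) → D7 M d.t 2 (σ.orb M d.t) (d.sk c M) x
  nu : ∀ l, p.InR k l → |(σ.orb M d.t).nu1 (f l) - (σ.orb M d.t).nu1 (σ.J - d.n)|
    ≤ exp (-(d.sk c M).chi 0 (f l) / 4) + tiny y
  tru : ∀ l, p.InR k l → ∀ i, 0 ≤ i → i ≤ f l → |(σ.orb M d.t).X i - (d.O M).X i| ≤ 1 / 1000
  /-- input of `RET_s` at a major -/
  nr : ∀ l, p.InR k (l + 1) → 0 < p.R l → 5 / 100 ≤ dP ((d.O M).X (f l)) ∧ ∃ h U,
    σ.orb M d.t = d.toFd.R M (σ.c d.t) h ∧ d.toFd.Near c M (σ.c d.t) h (d.n + f l) U ∧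
    d.toFd.res M (d.n + f l) U ≤ exp (-(c.lam + p.R l)) ∧
    ∀ r ≤ c.lam + p.R l, (d.S M).Wit c (Ex2 K c M) (d.toFd.f M) (d.n + f l) r

/-- two skeletons agree up to the level `X` -/
structure Sk.Same (s s' : Sk) (X : ℝ) : Prop where
  F : ∀ m, (m ∈ s.F ∧ s.W m ≤ X) ↔ (m ∈ s'.F ∧ s'.W m ≤ X)
  W : ∀ m ∈ s.F, s.W m ≤ X → |s.W m - s'.W m| ≤ 1 ∧ |log (s.w m) - log (s'.w m)| ≤ 1
  D : ∀ m ∈ s.F, m < s.N → s.W (s.nx m) ≤ X → (m ∈ s.D ↔ m ∈ s'.D) ∧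
    (m ∈ s.D → |log (s.η m) - log (s'.η m)| ≤ 1)

/-- two pairs of one class; `ν0` is the slope of the class -/
structure PP (c : Cs) (M : Mdl) (k : E.Par) (y ν0 : ℝ) (σ σ' : Seed) (d d' : Dat) (f f' : ℕ → ℤ)
    (p q : E.Pr) : Prop where
  same : ∀ l, p.InR k l → q.InR k l → f l = f' l
  near : ∀ n, p.InR k n → q.InR k n → |p.W n - q.W n| ≤ 1 ∧ |p.ω n - q.ω n| ≤ 1 ∧
    (p.InR k (n + 1) → q.InR k (n + 1) → |p.R n - q.R n| ≤ 1)
  nu : |(σ.orb M d.t).nu1 (σ.J - d.n) - ν0| ≤ 1 / (2 * c.S0 y ^ 2) ∧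
    |(σ'.orb M d'.t).nu1 (σ'.J - d'.n) - ν0| ≤ 1 / (2 * c.S0 y ^ 2)
  lab : |σ.v d'.t - σ'.v d'.t - ν0 * (σ.c d'.t - σ'.c d'.t) - (p.lab - q.lab)|
    ≤ |p.lab - q.lab| / 100 + tiny y
  jet : σ'.Near σ d'.t 3 (c.S0 y * |p.lab - q.lab| + tiny y)

/-! ### rows at the level of section J -/

/-- row ELA (deps QB J1 J1F J3 J4 AD5 TUBE R2 HVY TA) -/
def ELA_s (K : ℕ) (c : Cs) : Prop := ∀ M k y σ d f p, PN K c k y → PC K c M k y σ d f p → p.LA k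

/-- row EJ5 (deps J5 J1 AD5 TA): the clause `j5` of `TA` -/
def EJ5_s (K : ℕ) (c : Cs) : Prop := ∀ M k y ν0 σ σ' d d' f f' (p q : E.Pr), PN K c k y →
  PC K c M k y σ d f p → PC K c M k y σ' d' f' q → PP c M k y ν0 σ σ' d d' f f' p q →
  ∀ n D u ν, p.Adm k n D u ν → |q.t - p.t| ≤ D → ∀ B m, B < m → m ≤ n → q.InR k m →
    |p.lab - q.lab| * exp (q.W m) ≤ exp (-(k.g * k.ς)) →
    k.g * k.ς ≤ q.Rst (B + 1) → (∀ l, B < l → l < m → 4 * k.K * q.R l ≤ k.ς) →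
    (((range (B + 1)).filter fun l => q.Rst (B + 1) ≤ 2 * q.R l).card : ℝ) ≤ 1 / k.θ →
    ∀ T1 T2 T3 β S2 S3 : ℝ, β = exp (2 * q.Rst (B + 1)) →
    exp (-q.ω m) ≤ T1 → exp (-q.ω m) ≤ T2 → exp (-q.ω m) ≤ T3 →
    |q.La 1 m| ≤ T1 → |q.La 2 m| ≤ T2 → |q.La 3 m| ≤ T3 →
    T2 + T1 ^ 2 * exp (q.W m) + β * T1 ≤ S2 → T3 + S2 * (β + T1 * exp (q.W m)) ≤ S3 →
    S2 * exp (q.ω B + q.R B) ≤ exp (-(k.g * k.ς)) * β ^ 2 →
    (|p.lab - q.lab| * β ≤ exp (k.g * k.ς) * (|p.Fd m 1 q.t| + T1) ∧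
      |p.Fd m 2 q.t| ≤ exp (k.g * k.ς) * (|p.lab - q.lab| * β ^ 2 + S2)) ∨
    (|p.lab - q.lab| * β ^ 2 ≤ exp (k.g * k.ς) * (|p.Fd m 2 q.t| + S2) ∧
      |p.Fd m 3 q.t| ≤ exp (k.g * k.ς) * (|p.lab - q.lab| * β ^ 3 + S3))

/-- row EVC (deps J3 J4 HVY TA): a valid scale at a deep index -/
def EVC_s (K : ℕ) (c : Cs) : Prop := ∀ M k y σ d f (p : E.Pr), PN K c k y → PC K c M k y σ d f p →
  ∀ e D μ, p.Adm k e D μ μ → p.InR k (e + 1) → k.u ≤ p.R e →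
  VC K c M σ d.t (d.sk c M) (d.O M) ((σ.orb M d.t).nu1 (f e)) (f e) k.ς D
    (max D (exp (-(d.sk c M).chi 0 (f e) / 5))) μ (p.Rst e) ∧
  100 * (k.g * k.ς + p.Rst e + p.R e) ≤ (d.sk c M).chi 0 (f e)

/-- row EBX (deps EVC VST VJ6 RET TA): the clause `box` of `TA` -/
def EBX_s (K : ℕ) (c : Cs) : Prop := ∀ M k y ν0 σ σ' d d' f f' (p q : E.Pr), PN K c k y →
  PC K c M k y σ d f p → PC K c M k y σ' d' f' q → PP c M k y ν0 σ σ' d d' f f' p q →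
  ∀ e D μ, p.Adm k e D μ μ → |q.t - p.t| ≤ D → p.InR k (e + 1) → q.InR k (e + 1) →
    μ ≤ exp (-(k.g * k.ς) - p.R e - p.ω e) → log D ≤ -2 * p.R e - k.g * k.ς →
    k.u ≤ p.R e → k.θ * p.R e ≤ k.ς → |p.lab - q.lab| * exp (p.W e) ≤ exp (-(k.g * k.ς)) →
    |p.lab - q.lab| ≤ exp (k.g * k.ς - p.R e - p.ω e)

/-- row ECLO (deps J1C J1F SHD TUBE R2 TA): change of the seed -/
def ECLO_s (K : ℕ) (c : Cs) : Prop := c.Bud K (K + 1) → ∀ M σ t s m, JC K c M σ t 2 s m →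
  ∀ (σ' : Seed) (ϑ X : ℝ), σ'.At K c t → σ.Near σ' t (K + 1) ϑ → s.W m ≤ X → c.C0 * s.sl m ≤ X →
  ϑ ≤ exp (-(100 * (K + 2) * X)) → ∀ j, 1 ≤ j → j ≤ K →
  |σ'.La M t j m - σ.La M t j m| ≤ exp (-2 * X)

/-- row ENEAR (no deps) -/
def ENEAR_s (c : Cs) : Prop := ∀ (k : E.Par) (s s' : Sk) n n' f f' (p q : E.Pr), s.OK c → s'.OK c →
  n ∈ s.F → n' ∈ s'.F → Enum s n f k.toEK p.toSk → Enum s' n' f' k.toEK q.toSk → Dic s f p.toSk →
  Dic s' f' q.toSk → p.toSk.OK k.toEK → q.toSk.OK k.toEK → s.Same s' k.Wc →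
  (∀ l, p.InR k l → q.InR k l → f l = f' l) ∧
  ∀ n, p.InR k n → q.InR k n → |p.W n - q.W n| ≤ 1 ∧ |p.ω n - q.ω n| ≤ 1 ∧
    (p.InR k (n + 1) → q.InR k (n + 1) → |p.R n - q.R n| ≤ 1)

/-! ### rows at the level of data -/

/-- row ESK (deps SK1 SK2 BIG EXT TA): enumeration -/
def ESK_s (K : ℕ) (c : Cs) : Prop := First K c → ∀ M : Mdl, M.OK c → ∀ d : Dat,
  d.Pre c (Ex2 K c M) M → ∀ n ∈ (d.sk c M).F, ∃ f S, Enum (d.sk c M) n f (c.ek K) S ∧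
    S.OK (c.ek K) ∧ S.Jump (c.ek K)

/-- row TRC (deps FR): truncation of a datum at a free time -/
def TRC_s (c : Cs) : Prop := ∀ Ex (M : Mdl) (d : Dat), M.OK c → d.Pre c Ex M → ∀ x ∈ d.Lf,
  ∀ r ≤ x.2, (⟨d.toFd, d.Ls.filter fun z => z.1 < x.1, x.1, r⟩ : Dat).Pre c Ex M

/-- row KEY (deps TRC FR PRC PRD EXT SK1): the classes of skeletons -/
def KEY_s (K : ℕ) (c : Cs) : Prop := First K c → ∀ M : Mdl, M.OK c → ∀ X : ℝ, c.lam ≤ X →
  ∃ (T : Finset (Prof × Finset ℤ)) (key : Dat → Prof × Finset ℤ),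
    (T.card : ℝ) ≤ exp (X / (10 ^ 9 * K)) ∧ (∀ d : Dat, d.Pre c (Ex2 K c M) M → key d ∈ T) ∧
    ∀ d d' : Dat, d.Pre c (Ex2 K c M) M → d'.Pre c (Ex2 K c M) M → key d = key d' →
      (d.sk c M).Same (d'.sk c M) X

/-- row ENR (deps TRC FR EXT FIT SK1): the input of `RET_s` -/
def ENR_s (K : ℕ) (c : Cs) : Prop := First K c → ∀ M : Mdl, M.OKk c (K + 6) → ∀ d : Dat,
  d.Pre c (Ex2 K c M) M → ∀ (σ : Seed) y, σ.OK K c (Ex2 K c M) M y d.toFd →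
  ∀ x ∈ (d.sk c M).D, 4 * (d.sk c M).W ((d.sk c M).nx x) ≤ y →
  5 / 100 ≤ dP ((d.O M).X x) ∧ ∃ h U,
    σ.orb M d.t = d.toFd.R M (σ.c d.t) h ∧ d.toFd.Near c M (σ.c d.t) h (d.n + x) U ∧
    d.toFd.res M (d.n + x) U ≤ exp (-(c.lam - log ((d.sk c M).η x))) ∧
    ∀ r ≤ c.lam - log ((d.sk c M).η x), (d.S M).Wit c (Ex2 K c M) (d.toFd.f M) (d.n + x) r

/-- row ENUM (deps E.PAR_s) -/
def ENUM_s (K : ℕ) (c : Cs) : Prop := First K c → (c.ek K).OK ∧ ∀ (ρ : ℝ) (j : ℕ), j < (c.ek K).J0 →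
  (c.ek K).Λ ≤ 10 ^ 7 * K * c.th ^ 2 * ρ → c.bl ≤ 10 * c.C0 * (Cw K + 1) * ρ →
  PN K c ((c.ek K).par ρ j) (c.lev ρ) ∧ 10 * (c.ek K).Λ ≤ ρ ∧
    (100 * (c.ek K).J0 : ℝ) ≤ exp (ρ / 4)

/-- row EPC (deps XC2 SK1 SK2 BIG EDI ENR TA) -/
def EPC_s (K : ℕ) (c : Cs) : Prop := First K c → ∀ M : Mdl, M.OKk c (K + 6) → ∀ d : Dat,
  d.Pre c (Ex2 K c M) M → ∀ k y (σ : Seed), PN K c k y → y ≤ c.C0 * d.V c M →
  σ.OK K c (Ex2 K c M) M y d.toFd → ∀ n ∈ (d.sk c M).F, d.Adm c M c.C0 n →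
  ∀ f S lab, Enum (d.sk c M) n f k.toEK S → S.OK k.toEK → S.Jump k.toEK →
  PC K c M k y σ d f (mkPr M σ d.t lab f S)

/-- candidate of the run `(ρ, j)` -/
def Dat.Cand (K : ℕ) (c : Cs) (M : Mdl) (sd : Fd → ℝ → Seed) (ρ j : ℕ) (d : Dat) : Prop :=
  d.Pre c (Ex2 K c M) M ∧ d.toFd.OK c (Ex2 K c M) M (c.lev ρ) ∧ ∃ f S, ∃ cd : E.Cd, ∀ lab,
    PC K c M ((c.ek K).par ρ j) (c.lev ρ) (sd d.toFd (c.lev ρ)) d f
      (mkPr M (sd d.toFd (c.lev ρ)) d.t lab f S) ∧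
    cd.OK ((c.ek K).par ρ j) S (mkPr M (sd d.toFd (c.lev ρ)) d.t lab f S).La

/-- row EGD (deps ESK EDI EPC ECLO ENUM JET XC2 HI BIG HVY SK1 SK2, all `EA_s`) -/
def EGD_s (K : ℕ) (c : Cs) : Prop := First K c → ∀ M : Mdl, M.OKk c (K + 6) →
  ∀ sd, Seeds K c (Ex2 K c M) M sd → ∀ d : Dat, d.Pre c (Ex2 K c M) M → d.High c M →
  d.Canc K c M sd → ∃ ρ j : ℕ, j < (c.ek K).J0 ∧ (c.ek K).Λ ≤ 10 ^ 7 * K * c.th ^ 2 * (ρ : ℝ) ∧
    c.bl ≤ 10 * c.C0 * (Cw K + 1) * (ρ : ℝ) ∧ d.Cand K c M sd ρ j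

/-- row ECL (deps E.RUN_s KEY ENEAR ELA EJ5 EBX): one run -/
def ECL_s (K : ℕ) (c : Cs) : Prop := First K c → ∀ M : Mdl, M.OKk c (K + 6) →
  ∀ sd, Seeds K c (Ex2 K c M) M sd → ∀ ρ j : ℕ, PN K c ((c.ek K).par ρ j) (c.lev ρ) →
  volume {t | ∃ d : Dat, d.t = t ∧ d.Cand K c M sd ρ j} ≤ ENNReal.ofReal (exp (-(ρ : ℝ) / 2))

/-- row ESUM (no deps) -/
def ESUM_s (K : ℕ) (c : Cs) : Prop := ENUM_s K c → EGD_s K c → ECL_s K c → E_s K c

end
end Pool.Agent.MP_9cbfe4_an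

end

/-! ### Part EDI -/

section

/-! Row EDI: the dictionary between a skeleton and its enumeration. -/

namespace Pool.Agent.MP_9cbfe4_an

open Finset Real

noncomputable section

namespace EDI
variable {c : Cs} {s : Sk} {n : ℤ} {f : ℕ → ℤ} {e : E.EK} {S : E.Sk}

theorem ltN (h : s.OK1 c) (hn : n ∈ s.F) (hE : Enum s n f e S) {l : ℕ} (hl : l < S.N) :
    f l < s.N := (hE.lt l hl).trans_le (h.F_mem n hn).2

theorem mem (h : s.OK1 c) (hn : n ∈ s.F) (hE : Enum s n f e S) : ∀ l ≤ S.N, f l ∈ s.F := by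
  intro l hl
  cases l with
  | zero => rw [hE.f0]; exact h.one
  | succ l => rw [hE.nx l hl]; exact (h.nx_mem _ (ltN h hn hE hl)).1

theorem step (h : s.OK1 c) (hn : n ∈ s.F) (hE : Enum s n f e S) {l : ℕ} (hl : l < S.N) :
    f l < f (l + 1) := by
  rw [hE.nx l hl]; exact (h.nx_mem _ (ltN h hn hE hl)).2.1

theorem wmono (h : s.OK1 c) (hn : n ∈ s.F) (hE : Enum s n f e S) {i l : ℕ} (hi : i ≤ l)
    (hl : l ≤ S.N) : f i ≤ f l := by
  induction l, hi using Nat.le_induction with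
  | base => exact le_rfl
  | succ l _ ih => exact (ih (by omega)).trans (step h hn hE (by omega)).le

theorem mono (h : s.OK1 c) (hn : n ∈ s.F) (hE : Enum s n f e S) (i l : ℕ) (hi : i < l)
    (hl : l ≤ S.N) : f i < f l ∧ s.nx (f i) ≤ f l := by
  have h1 : f (i + 1) ≤ f l := wmono h hn hE hi hl
  exact ⟨(step h hn hE (by omega)).trans_le h1, by rw [← hE.nx i (by omega)]; exact h1⟩

theorem onto (h : s.OK1 c) (hn : n ∈ s.F) (hE : Enum s n f e S) :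
    ∀ l ≤ S.N, ∀ m ∈ s.F, m ≤ f l → ∃ i ≤ l, f i = m := by
  intro l
  induction l with
  | zero =>
    intro _ m hm hml
    have := (h.F_mem m hm).1
    exact ⟨0, le_rfl, by rw [hE.f0] at hml ⊢; omega⟩
  | succ l ih =>
    intro hl m hm hml
    by_cases h1 : m ≤ f l
    · obtain ⟨i, hi, e1⟩ := ih (by omega) m hm h1
      exact ⟨i, by omega, e1⟩
    · have h2 := (h.nx_mem _ (ltN h hn hE hl)).2.2 m hm (not_le.1 h1)
      rw [← hE.nx l hl] at h2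
      exact ⟨l + 1, le_rfl, le_antisymm h2 hml⟩

/-- a free time before `f l` has an index before `l` -/
theorem onto' (h : s.OK1 c) (hn : n ∈ s.F) (hE : Enum s n f e S) {l : ℕ} (hl : l ≤ S.N) {m : ℤ}
    (hm : m ∈ s.F) (hml : m < f l) : ∃ i < l, f i = m := by
  obtain ⟨i, hi, e1⟩ := onto h hn hE l hl m hm hml.le
  refine ⟨i, lt_of_le_of_ne hi ?_, e1⟩
  rintro rfl
  omega

theorem w (h : s.OK1 c) (hn : n ∈ s.F) (hE : Enum s n f e S) (l : ℕ) (hl : l ≤ S.N) :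
    s.w (f l) = exp (S.ω l) := by
  rw [hE.ω l hl, exp_log (h.w_pos _ (h.F_mem _ (mem h hn hE l hl)).1)]

theorem eta (h : s.OK1 c) (hE : Enum s n f e S) (l : ℕ) (hl : l < S.N) (hD : f l ∈ s.D) :
    s.η (f l) = exp (-S.R l) := by
  rw [hE.R l hl, if_pos hD, neg_neg, exp_log (h.η_mem _ hD).1]

theorem maj (hE : Enum s n f e S) (l : ℕ) (hl : l < S.N) (hR : 0 < S.R l) : f l ∈ s.D := by
  by_contra hD
  rw [hE.R l hl, if_neg hD] at hR
  exact lt_irrefl _ hR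

theorem V (h : s.OK1 c) (hn : n ∈ s.F) (hE : Enum s n f e S) (l : ℕ) (hl : l < S.N)
    (hD : f l ∈ s.D) (j : ℕ) : s.V (f l) j = exp (S.V j l) := by
  rw [Sk.V, E.Sk.V, eta h hE l hl hD, w h hn hE l hl.le, ← exp_nat_mul, ← exp_add, one_div,
    ← exp_neg]
  congr 1; ring

theorem inv2 (x : ℝ) : 1 / exp (-x) ^ 2 = exp (2 * x) := by
  rw [← exp_nat_mul, one_div, ← exp_neg]; congr 1; push_cast; ring

theorem rh (h : s.OK1 c) (hn : n ∈ s.F) (hE : Enum s n f e S) (l : ℕ) (hl : l ≤ S.N) :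
    s.rh (f l) = exp (2 * S.Rst l) := by
  have h0 : 0 ≤ S.Rst l := (le_fold_max _).2 (Or.inl le_rfl)
  have h1 : 1 ≤ s.rh (f l) := (le_fold_max _).2 (Or.inl le_rfl)
  apply le_antisymm
  · refine (fold_max_le _).2 ⟨one_le_exp (by linarith only [h0]), fun x hx => ?_⟩
    obtain ⟨hD, hx⟩ := mem_filter.1 hx
    obtain ⟨i, hi, rfl⟩ := onto' h hn hE hl (h.D_mem x hD).1 hx
    rw [eta h hE i (by omega) hD, inv2]
    have : S.R i ≤ S.Rst l := (le_fold_max _).2 (Or.inr ⟨i, mem_range.2 hi, le_rfl⟩)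
    exact exp_le_exp.2 (by linarith only [this])
  · rw [← le_log_iff_exp_le (by linarith only [h1])]
    have h2 : 0 ≤ log (s.rh (f l)) := log_nonneg h1
    obtain this : S.Rst l ≤ log (s.rh (f l)) / 2 := by
      refine (fold_max_le _).2 ⟨by linarith only [h2], fun i hi => ?_⟩
      have hi := mem_range.1 hi
      by_cases hD : f i ∈ s.D
      · have h3 : 1 / s.η (f i) ^ 2 ≤ s.rh (f l) :=
          (le_fold_max _).2 (Or.inr ⟨f i, mem_filter.2 ⟨hD, (mono h hn hE i l hi hl).1⟩, le_rfl⟩)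
        rw [eta h hE i (by omega) hD, inv2, ← le_log_iff_exp_le (by linarith only [h1])] at h3
        linarith only [h3]
      · rw [hE.R i (by omega), if_neg hD]; linarith only [h2]
    linarith only [this]

/-- a free time is in no block -/
theorem noblk (h : s.OK1 c) {m x : ℤ} (hm : m ∈ s.F) (hx : x ∈ s.D) (h1 : x < m) : s.nx x ≤ m :=
  (h.nx_mem x (h.D_mem x hx).2).2.2 m hm h1

theorem w4 (h : s.OK1 c) {m : ℤ} (hm : m ∈ s.F) : s.w4 m = s.w m := by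
  rw [Sk.w4, filter_eq_empty_iff.2, fold_empty]
  intro x hx h1
  exact absurd (noblk h hm hx h1.1) (not_le.2 h1.2)

theorem NN (h : s.OK1 c) (hn : n ∈ s.F) (hE : Enum s n f e S) (i l : ℕ) (hi : i ≤ l)
    (hl : l ≤ S.N) (j : ℕ) (g b : ℝ) (hb : g * s.σ (f i) - S.ω i ≤ b)
    (hx : ∀ x, i ≤ x → x < l → g * s.σ (f x) + S.V j x ≤ b) :
    s.NN (f l) j g (f i) / s.w (f i) ≤ exp b := by
  have hm := mem h hn hE i (hi.trans hl)
  have hw := w h hn hE i (hi.trans hl)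
  rw [div_le_iff₀ (by rw [hw]; exact exp_pos _)]
  refine (fold_max_le _).2 ⟨?_, fun x hx' => ?_⟩
  · rw [hw, ← exp_add]; exact exp_le_exp.2 (by linarith only [hb])
  · obtain ⟨hD, h1, h2⟩ := mem_filter.1 hx'
    have h3 : ¬ x < f i := fun h4 => absurd (noblk h hm hD h4) (not_le.2 h2)
    obtain ⟨a, ha, rfl⟩ := onto' h hn hE hl (h.D_mem x hD).1 h1
    obtain h4 : i ≤ a := by
      by_contra h5
      exact h3 (mono h hn hE a i (not_le.1 h5) (hi.trans hl)).1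
    rw [if_neg h3, w4 h hm, V h hn hE a (by omega) hD, mul_assoc, ← exp_add, mul_comm]
    exact mul_le_mul_of_nonneg_right (exp_le_exp.2 (hx a h4 ha)) (by rw [hw]; exact (exp_pos _).le)

end EDI

/-- row EDI, no hypotheses -/
theorem edi (c : Cs) : EDI_s c := fun _ _ _ _ _ hs hn hE =>
  ⟨EDI.mem hs.1 hn hE, EDI.mono hs.1 hn hE, EDI.onto hs.1 hn hE, EDI.w hs.1 hn hE,
    EDI.eta hs.1 hE, EDI.maj hE, EDI.V hs.1 hn hE, EDI.rh hs.1 hn hE,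
    fun i l hi hl j g b _ hb hx => EDI.NN hs.1 hn hE i l hi hl j g b hb hx⟩

end
end Pool.Agent.MP_9cbfe4_an

end

/-! ### Part ELA -/

section

/-! Glue from section J to section E: the one-pair facts `Pr.LA`. -/

namespace Pool.Agent.MP_9cbfe4_an

open Finset Real

noncomputable section

/-- the pair `p` of section E comes from the seed `σ` and the skeleton `k` -/
structure EPr (K : ℕ) (c : Cs) (M : Mdl) (σ : Seed) (g : ℝ) (k : Sk) (n0 : ℤ) (f : ℕ → ℤ)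
    (e : E.Par) (p : E.Pr) : Prop where
  ok : e.OK
  eK : e.K = K
  eθ : e.θ = c.th
  eg : c.gm (K + 1) (K + 2) ≤ e.g
  g8 : g ≤ 8
  n0F : n0 ∈ k.F
  en : Enum k n0 f e.toEK p.toSk
  fd : ∀ l j τ, p.Fd l j τ = σ.pj M τ j (f l) / (σ.orb M p.t).fr 1 (f l)
  jc : ∀ l, p.InR e l → JC K c M σ p.t g k (f l)
  at' : ∀ τ, |τ - p.t| ≤ exp (-e.ς) → σ.At K c τ

namespace Enum
variable {c : Cs} {k : Sk} {n0 : ℤ} {f : ℕ → ℤ} {e : E.EK} {S : E.Sk}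

theorem l_mem (h : Enum k n0 f e S) (ok : k.OK1 c) (h0 : n0 ∈ k.F) : ∀ l ≤ S.N, f l ∈ k.F
  | 0, _ => h.f0 ▸ ok.one
  | l + 1, hl => h.nx l hl ▸ (ok.nx_mem _ ((h.lt l hl).trans_le (ok.F_mem _ h0).2)).1

theorem l_lt (h : Enum k n0 f e S) (ok : k.OK1 c) (h0 : n0 ∈ k.F) {l m : ℕ} (hl : l < m)
    (hm : m ≤ S.N) : f l < f m := by
  induction m, hl using Nat.le_induction with
  | base => exact h.nx l hm ▸ (ok.nx_mem _ ((h.lt l hm).trans_le (ok.F_mem _ h0).2)).2.1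
  | succ m _ ih =>
    exact (ih (by omega)).trans
      (h.nx m hm ▸ (ok.nx_mem _ ((h.lt m hm).trans_le (ok.F_mem _ h0).2)).2.1)

theorem l_le (h : Enum k n0 f e S) (ok : k.OK1 c) (h0 : n0 ∈ k.F) {l m : ℕ} (hl : l ≤ m)
    (hm : m ≤ S.N) : f l ≤ f m := by
  rcases hl.eq_or_lt with rfl | a
  · exact le_rfl
  · exact (h.l_lt ok h0 a hm).le

theorem l_onto (h : Enum k n0 f e S) (ok : k.OK1 c) (h0 : n0 ∈ k.F) {x : ℤ} (hx : x ∈ k.F) :
    ∀ n ≤ S.N, x < f n → ∃ l < n, f l = x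
  | 0, _, a => by have := (ok.F_mem _ hx).1; rw [h.f0] at a; omega
  | n + 1, hn, a => by
    rcases lt_trichotomy x (f n) with b | b | b
    · obtain ⟨l, l1, l2⟩ := h.l_onto ok h0 hx n (by omega) b
      exact ⟨l, by omega, l2⟩
    · exact ⟨n, by omega, b.symm⟩
    · have := (ok.nx_mem _ ((h.lt n hn).trans_le (ok.F_mem _ h0).2)).2.2 x hx b
      rw [h.nx n hn] at a; omega

theorem l_eta (h : Enum k n0 f e S) (ok : k.OK1 c) {l : ℕ} (hl : l < S.N) (hD : f l ∈ k.D) :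
    k.η (f l) = exp (-S.R l) := by
  rw [h.R l hl, if_pos hD, neg_neg, exp_log (ok.η_mem _ hD).1]

theorem l_R0 (h : Enum k n0 f e S) (ok : k.OK1 c) {l : ℕ} (hl : l < S.N) : 0 ≤ S.R l := by
  rw [h.R l hl]
  split_ifs with hD
  · exact neg_nonneg.2 (log_nonpos (ok.η_mem _ hD).1.le (ok.η_mem _ hD).2)
  · exact le_rfl

theorem l_w (h : Enum k n0 f e S) (ok : k.OK1 c) (h0 : n0 ∈ k.F) {l : ℕ} (hl : l ≤ S.N) :
    k.w (f l) = exp (S.ω l) := by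
  rw [h.ω l hl, exp_log (ok.w_pos _ (ok.F_mem _ (h.l_mem ok h0 l hl)).1)]

theorem l_V (h : Enum k n0 f e S) (ok : k.OK1 c) (h0 : n0 ∈ k.F) {l : ℕ} (hl : l < S.N)
    (hD : f l ∈ k.D) (a : ℕ) : k.V (f l) a = exp (S.V a l) := by
  rw [Sk.V, h.l_eta ok hl hD, h.l_w ok h0 hl.le, ← exp_nat_mul, ← exp_add, one_div, ← exp_neg, E.Sk.V]
  congr 1; ring

theorem l_rh (h : Enum k n0 f e S) (ok : k.OK1 c) (h0 : n0 ∈ k.F) {n : ℕ} (hn : n ≤ S.N) :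
    1 ≤ k.rh (f n) ∧ k.rh (f n) ≤ exp (2 * S.Rst n) := by
  refine ⟨(le_fold_max _).2 (Or.inl le_rfl), (fold_max_le _).2 ⟨one_le_exp
    (mul_nonneg zero_le_two ((le_fold_max _).2 (Or.inl le_rfl))), fun x hx => ?_⟩⟩
  obtain ⟨x1, x2⟩ := mem_filter.1 hx
  obtain ⟨l, l1, rfl⟩ := h.l_onto ok h0 (ok.D_mem _ x1).1 n hn x2
  have : S.R l ≤ S.Rst n := (le_fold_max _).2 (Or.inr ⟨l, mem_range.2 l1, le_rfl⟩)
  rw [h.l_eta ok (by omega) x1, ← exp_nat_mul, one_div, ← exp_neg]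
  exact exp_le_exp.2 (by push_cast; linarith only [this])

/-- the graded majorant at a free time -/
theorem l_NN (h : Enum k n0 f e S) (hT : TA_s c) (ok : k.OK c) (h0 : n0 ∈ k.F) {m n a : ℕ}
    (hm : m < n) (hn : n ≤ S.N) {g B : ℝ} (hg : 0 ≤ g)
    (hB : ∀ l, m ≤ l → l < n → exp (S.V a l) ≤ B) :
    k.NN (f n) a g (f m) / k.w (f m) ≤ exp (g * k.sl (f n)) * B := by
  obtain ⟨-, -, t3, -, -, t6, -⟩ := hT k ok
  obtain mF := h.l_mem ok.1 h0 m (by omega)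
  have w0 := ok.1.w_pos _ (ok.1.F_mem _ mF).1
  have B0 : 0 ≤ B := (exp_pos _).le.trans (hB m le_rfl hm)
  have sg : ∀ l < n, exp (g * k.σ (f l)) ≤ exp (g * k.sl (f n)) := fun l hl => exp_le_exp.2
    (mul_le_mul_of_nonneg_left (t6 _ (h.l_mem ok.1 h0 n hn) _ (h.l_lt ok.1 h0 hl hn)) hg)
  rw [div_le_iff₀ w0]
  refine (fold_max_le _).2 ⟨?_, fun x hx => ?_⟩
  · rw [mul_assoc]
    refine (sg m hm).trans (le_mul_of_one_le_right (exp_pos _).le (le_trans ?_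
      (mul_le_mul_of_nonneg_right (hB m le_rfl hm) w0.le)))
    rw [h.l_w ok.1 h0 (by omega), ← exp_add, E.Sk.V, sub_add_cancel]
    exact one_le_exp (mul_nonneg a.cast_nonneg (h.l_R0 ok.1 (by omega)))
  · obtain ⟨x1, x2, x3⟩ := mem_filter.1 hx
    obtain ⟨l, l1, rfl⟩ := h.l_onto ok.1 h0 (ok.1.D_mem _ x1).1 n hn x2
    obtain ml : m ≤ l := not_lt.1 fun b => by
      rw [← h.nx l (by omega)] at x3
      exact x3.not_ge (h.l_le ok.1 h0 b (by omega))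
    rw [if_neg (h.l_le ok.1 h0 ml (by omega)).not_gt, t3 _ mF, h.l_V ok.1 h0 (by omega) x1, mul_assoc,
      mul_comm]
    exact mul_le_mul_of_nonneg_right (mul_le_mul (sg l l1) (hB l ml l1) (exp_pos _).le
      (exp_pos _).le) w0.le
end Enum

namespace ELA
variable {K : ℕ} {c : Cs} {M : Mdl} {σ : Seed} {g : ℝ} {k : Sk} {n0 : ℤ} {f : ℕ → ℤ} {e : E.Par}
  {p : E.Pr}

theorem Cg (hκ : 0 < c.κ) : 1000 ≤ c.Cg ∧ 2 ≤ c.ck ∧ c.ck ≤ c.Cg := by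
  obtain this : 2 ≤ c.ck := by unfold Cs.ck; linarith only [hκ]
  unfold Cs.Cg
  exact ⟨by nlinarith only [this], this, by nlinarith only [this]⟩

theorem gm_mono (hκ : 0 < c.κ) {a b : ℕ} (h : a ≤ b) : c.gm (K + 1) a ≤ c.gm (K + 1) b :=
  mul_le_mul_of_nonneg_left (pow_le_pow_right₀ (by linarith only [(Cg hκ).1]) h) (by (clear * -; positivity))

theorem gm_lo (hκ : 0 < c.κ) : 1000 * ((K : ℝ) + 1) ≤ c.gm (K + 1) 1 ∧
    c.ck * c.gm (K + 1) 1 ≤ c.gm (K + 1) (K + 2) := by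
  obtain ⟨a, b, d⟩ := Cg hκ
  obtain k0 : (0 : ℝ) ≤ K + 1 := by positivity
  refine ⟨by unfold Cs.gm; rw [pow_one]; nlinarith only [a], le_trans ?_ (gm_mono hκ (by omega : 2 ≤ _))⟩
  unfold Cs.gm
  obtain this := mul_le_mul_of_nonneg_right d (show 0 ≤ (K + 1) * c.Cg by (clear * - a; positivity))
  linarith only [this]

/-- the coarse slack dominates the fine one -/
theorem num (hκ : 0 < c.κ) (hl : 10 ≤ c.lam) (H : EPr K c M σ g k n0 f e p) {n : ℕ}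
    (hn : p.InR e n) : 10 ≤ k.sl (f n) ∧ 1000 * (c.gm (K + 1) (K + 2) * k.sl (f n)) ≤ e.ς ∧
      1000 * ((K : ℝ) + 1) ≤ c.gm (K + 1) (K + 2) ∧ 10 ^ 6 ≤ exp e.ς ∧
      exp (-(e.g * e.ς)) * exp e.ς ^ (K + 9) ≤ 1 := by
  have ok := (H.jc n hn).oc.sk.1
  have s1 : 10 ≤ k.sl (f n) := hl.trans (ok.sl1.trans
    (ok.sl_mono _ _ le_rfl (ok.F_mem _ (H.jc n hn).oc.hn).1))
  obtain s2 : 2 * k.sl (f n) ≤ e.φ := (H.en.sl n hn.1).trans (by
    unfold E.Par.φ E.EK.sl; linarith only [mul_le_mul_of_nonneg_left hn.2 (sq_nonneg e.θ)])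
  obtain G1 := (gm_lo (K := K) hκ).1.trans (gm_mono hκ (by omega : 1 ≤ K + 2))
  obtain K1 : (10 : ℝ) ≤ e.K := by exact_mod_cast H.ok.K10
  have K0 : (0 : ℝ) ≤ K := K.cast_nonneg
  have g0 := H.ok.g10
  obtain a1 := mul_le_mul H.eg (show k.sl (f n) ≤ e.φ by linarith only [s1, s2]) (by linarith only [s1]) (by linarith only [g0])
  obtain a0 : 0 ≤ e.g * e.φ := mul_nonneg (by linarith only [g0]) (by linarith only [s1, s2])
  have a2 := mul_le_mul_of_nonneg_right K1 a0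
  have a3 := H.ok.fine
  obtain a4 := mul_le_mul_of_nonneg_right K1 (show 0 ≤ e.u by linarith only [a0, a2, a3])
  obtain a5 : 1000 * (c.gm (K + 1) (K + 2) * k.sl (f n)) ≤ e.ς := by unfold E.Par.ς; linarith only [a1, a0, a2, a3, a4]
  obtain a6 := mul_le_mul G1 s1 (by norm_num) (by linarith only [G1])
  refine ⟨s1, a5, G1, by linarith only [a5, a6, add_one_le_exp e.ς], ?_⟩
  rw [← exp_nat_mul, ← exp_add, exp_le_one_iff]
  obtain this := mul_le_mul_of_nonneg_right (show ((K + 9 : ℕ) : ℝ) ≤ e.g by push_cast; linarith only [G1, g0, H.eg])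
    (show 0 ≤ e.ς by linarith only [a5, a6])
  linarith only [this]

theorem le_exp {z a s : ℝ} (h : z * exp s ≤ 1) (ha : a ≤ s) : z ≤ exp (-a) := by
  rw [← le_div_iff₀ (exp_pos _), one_div, ← exp_neg] at h
  exact h.trans (exp_le_exp.2 (by linarith only [ha]))

theorem pw {x E : ℝ} {N : ℕ} (hE : 10 ^ 6 ≤ E) (h0 : 0 ≤ x) (h : x * E ^ N ≤ 1) {a : ℕ}
    (ha : a ≤ N) : x * E ^ a ≤ 1 :=
  (mul_le_mul_of_nonneg_left (pow_le_pow_right₀ (by linarith only [hE]) ha) h0).trans h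

theorem cw (H : EPr K c M σ g k n0 f e p) : Cw K = e.Cw := by
  unfold Cw E.EK.Cw; rw [H.eK]; ring

theorem V_def (S : E.Sk) (a : ℝ) (l : ℕ) : S.V a l = a * S.R l - S.ω l := rfl

theorem La_eq (H : EPr K c M σ g k n0 f e p) (j n : ℕ) : p.La j n = σ.La M p.t j (f n) := H.fd _ _ _

theorem adm (H : EPr K c M σ g k n0 f e p) {n : ℕ} {D u ν : ℝ} (A : p.Adm e n D u ν) :
    0 ≤ u ∧ 0 ≤ ν ∧ D * k.rh (f n) ≤ exp (-(e.g * e.ς)) ∧
    D * k.rh (f n) ^ (1 + c.th) ≤ exp (-(e.g * e.ς)) ∧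
    (u + ν) * exp (k.W (f n)) ≤ exp (-(e.g * e.ς)) ∧
    u ^ 2 * exp (k.W (f n)) + u * D * k.rh (f n) ≤ exp (-(e.g * e.ς)) * ν := by
  obtain ⟨r1, r2⟩ := H.en.l_rh (H.jc n A.inr).oc.sk.1 H.n0F A.inr.1
  have D0 := A.D0
  obtain u0 : 0 ≤ u := le_trans (by (clear * - D0; positivity)) A.j1
  have θ0 : 0 < c.th := H.eθ ▸ H.ok.θpos
  obtain a : D * k.rh (f n) ^ (1 + c.th) ≤ exp (-(e.g * e.ς)) := by
    refine (mul_le_mul ((log_le_iff_le_exp D0).1 A.clip) (rpow_le_rpow (by linarith only [r1]) r2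
      (by linarith only [θ0])) (by (clear * - r1; positivity)) (exp_pos _).le).trans_eq ?_
    rw [← exp_mul, ← exp_add, H.eθ]; congr 1; ring
  refine ⟨u0, le_trans (by (clear * - D0; positivity)) (A.jj 2 le_rfl (by linarith only [H.ok.K10])), le_trans
    (mul_le_mul_of_nonneg_left ?_ D0.le) a, a, H.en.W n A.inr.1 ▸ A.val, ?_⟩
  · exact (rpow_one _).symm.trans_le (rpow_le_rpow_of_exponent_le r1 (by linarith only [θ0]))
  · rw [exp_neg, ← div_eq_inv_mul, le_div_iff₀' (exp_pos _), ← H.en.W n A.inr.1]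
    refine le_trans (mul_le_mul_of_nonneg_left ?_ (exp_pos _).le) A.mix
    linarith only [mul_le_mul_of_nonneg_left r2 (mul_nonneg u0 D0.le)]

/-- J3 and J4 apply at every scale `l D` with `1 ≤ l ≤ e^ς` -/
theorem win (hκ : 0 < c.κ) (hl : 10 ≤ c.lam) (hb : c.Bud K (K + 1)) (hV : HVY_s K c)
    (h3 : J3_s K c) (H : EPr K c M σ g k n0 f e p) {n : ℕ} {D u ν l : ℝ} (A : p.Adm e n D u ν)
    (l1 : 1 ≤ l) (l2 : l ≤ exp e.ς) :
    Win K M σ p.t k (f n) (l * D) (32 * l * u) (32 * l ^ K * ν) (6 * c.gm (K + 1) (K + 2))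
      (6 * c.gm (K + 1) (K + 2)) ∧
    exp (2 * c.gm (K + 1) (K + 2) * k.sl (f n)) * k.Vm (f n) (2 * K + 1) * (l * D) ^ (K + 1) ≤
      32 * l ^ K * ν ∧ ∀ τ ∈ Set.Icc (p.t - l * D) (p.t + l * D), σ.At K c τ := by
  obtain ⟨s1, s2, G1, E1, E2⟩ := num hκ hl H A.inr
  obtain ⟨u0, ν0, a1, a2, a3, a4⟩ := adm H A
  have J := H.jc n A.inr
  have ok := J.oc.sk.1
  obtain ⟨r1, -⟩ := H.en.l_rh ok H.n0F A.inr.1
  have K10 : 10 ≤ K := H.eK ▸ H.ok.K10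
  have K0 : (0 : ℝ) ≤ K := K.cast_nonneg
  have D0 := A.D0
  set Γ := c.gm (K + 1) (K + 2)
  set x := exp (-(e.g * e.ς))
  set E := exp e.ς with hE
  have x0 : 0 < x := exp_pos _
  obtain Γs : 0 ≤ Γ * k.sl (f n) := mul_nonneg (by linarith only [G1]) (by linarith only [s1])
  obtain b1 : ∀ z, 0 ≤ z → D * z ≤ x → l * D * z * E ≤ 1 := fun z z0 hz => by
    obtain this := mul_le_mul l2 hz (by (clear * - D0 z0; positivity)) (by positivity)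
    obtain this := mul_le_mul_of_nonneg_right this (show 0 ≤ E by positivity)
    linarith only [this, K10, pw E1 x0.le E2 (a := 2) (by omega)]
  obtain b2 : ∀ z, z * E ≤ 1 → z ≤ exp (-(6 * Γ) * k.sl (f n)) := fun z hz => by
    rw [neg_mul]; exact le_exp hz (by linarith only [s2, Γs])
  have lK : ∀ j ≤ K, l ^ j ≤ l ^ K := fun j hj => pow_le_pow_right₀ l1 hj
  obtain W : Win K M σ p.t k (f n) (l * D) (32 * l * u) (32 * l ^ K * ν) (6 * Γ) (6 * Γ) := by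
    refine ⟨by (clear * - l1 D0; positivity), by (clear * - l1 u0; positivity), b2 _ (b1 _ (by linarith only [r1]) a1), b2 _ ?_, ?_, ?_,
      fun j j1 j2 => ?_⟩
    · obtain c1 := mul_le_mul_of_nonneg_right (pow_one l ▸ lK 1 (by omega))
        (show 0 ≤ u * exp (k.W (f n)) by (clear * - u0; positivity))
      obtain c2 := mul_le_mul (pow_le_pow_left₀ (by linarith only [l1]) l2 K) a3 (by (clear * - u0 ν0; positivity)) (by positivity)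
      obtain c3 : (32 * l * u + 32 * l ^ K * ν) * exp (k.W (f n)) ≤ E * (E ^ K * x) :=
        le_trans (by linarith only [c1, c2]) (mul_le_mul_of_nonneg_right (show 32 ≤ E by linarith only [E1]) (by positivity))
      obtain this := mul_le_mul_of_nonneg_right c3 (show 0 ≤ E by positivity)
      obtain this := pw E1 x0.le E2 (a := K + 2) (by omega)
      rw [pow_add] at this
      (rename_i zq0; linarith only [zq0, this])
    · obtain c1 : exp (6 * Γ * k.sl (f n)) ≤ E := exp_le_exp.2 (by linarith only [s2, Γs])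
      have c2 := mul_le_mul_of_nonneg_left a4 (sq_nonneg l)
      obtain c0 : 0 ≤ l ^ 2 * (u * D * k.rh (f n)) := by (clear * - l1 u0 D0 r1; positivity)
      obtain c3 : (32 * l * u) ^ 2 * exp (k.W (f n)) + 32 * l * u * (l * D) * k.rh (f n) ≤
          1024 * (l ^ 2 * (x * ν)) := by linarith only [c2, c0]
      refine (mul_le_mul c1 c3 (by (clear * - l1 u0 D0 r1; positivity)) (by positivity)).trans ?_
      obtain c4 : 32 * (x * E) ≤ 1 := by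
        obtain this := mul_le_mul_of_nonneg_left (show 32 ≤ E by linarith only [E1]) (show 0 ≤ x * E by positivity)
        linarith only [this, K10, pw E1 x0.le E2 (a := 2) (by omega)]
      obtain c5 := mul_le_mul c4 (mul_le_mul_of_nonneg_right (lK 2 (by omega)) ν0) (by (clear * - l1 ν0; positivity))
        zero_le_one
      linarith only [c5]
    · obtain this := mul_le_mul_of_nonneg_left (La_eq H 1 n ▸ A.j1) (show 0 ≤ l by linarith only [l1])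
      linarith only [this]
    · obtain this := mul_le_mul (lK j j2) (La_eq H j n ▸ A.jj j j1 (H.eK ▸ j2)) (by (clear * - D0; positivity))
        (by positivity)
      rw [mul_pow]; linarith only [this]
  refine ⟨W, h3 (by omega) M σ _ g k _ J _ hb (fun y y1 y2 y3 y4 => ?_) _ _ _ _ _ _ W (by linarith only [G1])
    (by linarith only [G1]) (by linarith only [G1]) (by linarith only [G1]) (b2 _ (b1 _ (by (clear * - r1; positivity)) a2)), fun τ hτ => H.at' τ ?_⟩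
  · obtain ⟨i, i1, rfl⟩ := H.en.l_onto ok H.n0F (ok.D_mem _ y1).1 n A.inr.1 y2
    have iN : i < p.N := i1.trans_le A.inr.1
    obtain eR : p.R i = -log (k.η (f i)) := by rw [H.en.R i iN, if_pos y1]
    refine A.nonc i i1 ⟨iN, ?_, ?_, fun j j1 j2 => ?_⟩
    · have c1 := hV k J.oc.sk _ y1 y3
      rw [H.en.l_eta ok iN y1, exp_le_exp] at c1
      have c2 : c.lam ≤ k.σ (f i) := ok.sl1.trans (ok.sl_mono _ _ le_rfl
        (ok.F_mem _ (ok.nx_mem _ (ok.D_mem _ y1).2).1).1)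
      obtain c3 : 0 < c.C0 := lt_of_lt_of_le (by
        obtain this := (gm_lo (K := K) hκ).1.trans (gm_mono hκ (by omega : 1 ≤ K + 3))
        exact mul_pos (by (clear * - K10; positivity)) (by linarith only [this])) hb.2
      obtain this : 0 < c.C0 ^ 3 * k.σ (f i) := mul_pos (by (clear * - c3; positivity)) (by linarith only [hl, c2])
      linarith only [c1, this]
    · rw [H.en.W i iN.le, eR]
      refine y3.trans_eq ?_
      exact congrArg (· * _) (cw H)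
    · have c1 := y4 j j1 (H.eK ▸ j2)
      rw [← H.en.nx i iN, ← La_eq H, H.en.l_V ok H.n0F iN y1, H.en.l_eta ok iN y1, ← exp_mul,
        ← exp_add] at c1
      refine c1.trans_eq ?_
      rw [H.eθ, V_def, Nat.cast_sub (by omega)]
      congr 2; push_cast; ring
  · refine le_trans (abs_le.2 ⟨by linarith only [hτ.1], by linarith only [hτ.2]⟩ : _ ≤ l * D)
      (le_exp (s := e.ς) ?_ le_rfl)
    have := b1 1 zero_le_one (le_trans (mul_le_mul_of_nonneg_left r1 D0.le) a1)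
    rwa [mul_one] at this

theorem j3 (hκ : 0 < c.κ) (hl : 10 ≤ c.lam) (hb : c.Bud K (K + 1)) (hV : HVY_s K c)
    (h3 : J3_s K c) (H : EPr K c M σ g k n0 f e p) {n : ℕ} {D u ν : ℝ} (A : p.Adm e n D u ν) :
    D ^ (K + 1) ≤ ν := by
  obtain ⟨s1, -, G1, E1, -⟩ := num hκ hl H A.inr
  have K0 : (0 : ℝ) ≤ K := K.cast_nonneg
  obtain a := (win hκ hl hb hV h3 H A le_rfl (by linarith only [E1])).2.1
  have b : 1 ≤ k.Vm (f n) (2 * K + 1) := (le_fold_max _).2 (Or.inl le_rfl)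
  obtain d := mul_le_mul G1 s1 (by norm_num) (by linarith only [G1, K0])
  obtain d' : 32 ≤ exp (2 * c.gm (K + 1) (K + 2) * k.sl (f n)) := by
    linarith only [d, add_one_le_exp (2 * c.gm (K + 1) (K + 2) * k.sl (f n)), K0]
  have := mul_le_mul_of_nonneg_right (mul_le_mul d' b zero_le_one (exp_pos _).le)
    (pow_pos A.D0 (K + 1)).le
  rw [one_pow, one_mul] at a
  linarith only [a, this]

theorem xi (H : EPr K c M σ g k n0 f e p) {n : ℕ} (hn : p.InR e n) {m : ℤ} (hm : m ∈ k.F)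
    (hmn : m ≤ f n) : 0 < k.w m ∧ k.w m ≤ 8 * |(σ.orb M p.t).fr 1 m| := by
  have J := (H.jc n hn).oc
  exact ⟨J.sk.1.w_pos _ (J.sk.1.F_mem _ hm).1,
    (J.fit.f2 m hm hmn).trans (mul_le_mul_of_nonneg_right H.g8 (abs_nonneg _))⟩

theorem j4 (hκ : 0 < c.κ) (hl : 10 ≤ c.lam) (hb : c.Bud K (K + 1)) (hV : HVY_s K c)
    (hQ : QB_s K c) (h3 : J3_s K c) (h4 : J4_s K c) (H : EPr K c M σ g k n0 f e p) {n : ℕ}
    {D u ν : ℝ} (A : p.Adm e n D u ν) : DChain (p.Fd n) (K + 1) (Set.Icc (p.t - D) (p.t + D)) ∧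
    ∀ τ, |τ - p.t| ≤ D → |p.Fd n (K + 1) τ| * D ^ (K + 1) ≤ ν * exp (-e.ς) := by
  obtain ⟨s1, -, -, E1, -⟩ := num hκ hl H A.inr
  obtain ⟨W, a, b⟩ := win hκ hl hb hV h3 H A (by linarith only [E1]) le_rfl
  have J := H.jc n A.inr
  have h := h4 M σ _ g k _ J H.g8 _ hb _ _ _ _ _ W le_rfl le_rfl a b
  have D0 := A.D0
  obtain D1 : D ≤ exp e.ς * D := le_mul_of_one_le_left D0.le (by linarith only [E1])
  obtain ⟨w0, w1⟩ := xi H A.inr J.oc.hn le_rfl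
  refine ⟨fun j hj τ hτ => ?_, fun τ hτ => ?_⟩
  · obtain s := (hQ M σ τ _ k _ (h τ ⟨by linarith only [D1, hτ.1], by linarith only [D1, hτ.2]⟩).1).1 (f n)
      (by linarith only [(J.oc.sk.1.F_mem _ J.oc.hn).1])
    obtain ⟨U, hU, sU⟩ := s.contDiffOn le_rfl (by simp)
    obtain ⟨V, V1, V2, V3⟩ := mem_nhds_iff.1 hU
    rw [funext (H.fd n j), H.fd]
    exact (DChain.of_contDiffOn V2 (sU.mono V1) j hj τ V3).div_const _
  · obtain ⟨t1, t2⟩ := abs_le.1 hτ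
    obtain d := (h τ ⟨by linarith only [D1, t1], by linarith only [D1, t2]⟩).2.2.2.1
    have ν0 := (adm H A).2.1
    obtain x0 : 0 < |(σ.orb M p.t).fr 1 (f n)| := by linarith only [w0, w1]
    obtain d1 : exp (-10 * k.sl (f n)) * 256 ≤ 1 := by
      rw [neg_mul, exp_neg, inv_mul_le_iff₀ (exp_pos _), show 10 * k.sl (f n) =
        5 * k.sl (f n) + 5 * k.sl (f n) by ring, exp_add]
      nlinarith only [s1, add_one_le_exp (5 * k.sl (f n))]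
    rw [H.fd, abs_div, div_mul_eq_mul_div, div_le_iff₀ x0, exp_neg, ← div_eq_mul_inv,
      div_mul_eq_mul_div, le_div_iff₀ (exp_pos _)]
    refine le_of_mul_le_mul_left ?_ (pow_pos (exp_pos e.ς) K)
    obtain d2 := mul_le_mul_of_nonneg_left w1
      (show 0 ≤ exp (-10 * k.sl (f n)) * (32 * exp e.ς ^ K * ν) by (clear * - ν0; positivity))
    obtain d3 := mul_le_mul_of_nonneg_right d1
      (show 0 ≤ exp e.ς ^ K * (ν * |(σ.orb M p.t).fr 1 (f n)|) by (clear * - ν0 x0; positivity))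
    rw [mul_pow, pow_succ (exp e.ς)] at d
    linarith only [d, d2, d3]

theorem j1f (hκ : 0 < c.κ) (hl : 10 ≤ c.lam) (hb : c.Bud K (K + 1)) (hT : TA_s c)
    (hF : J1F_s K c) (H : EPr K c M σ g k n0 f e p) {n n' : ℕ} {D μ : ℝ} (hn : n ≤ n')
    (hi : p.InR e n') (D0 : 0 < D) (hD : log D ≤ -2 * p.Rst n' - e.g * e.ς) (hJ : p.Jle e n D μ)
    (hV : ∀ l, n ≤ l → l < n' → D * exp (p.V 1 l) ≤ μ)
    (hμ : μ * exp (p.W n') ≤ exp (-(e.g * e.ς))) : p.Jle e n' D (exp (e.g * e.ς) * μ) := by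
  obtain ⟨s1, s2, G1, E1, E2⟩ := num hκ hl H hi
  have J := H.jc n' hi
  have ok := J.oc.sk.1
  obtain μ0 : 0 ≤ μ := le_trans (by (clear * - D0; positivity)) (hJ 1 le_rfl (by linarith only [H.ok.K10]))
  have K0 : (0 : ℝ) ≤ K := K.cast_nonneg
  obtain Γs : 0 ≤ c.gm (K + 1) (K + 2) * k.sl (f n') := mul_nonneg (by linarith only [G1]) (by linarith only [s1])
  obtain E3 : exp e.ς * μ ≤ exp (e.g * e.ς) * μ := mul_le_mul_of_nonneg_right
    (exp_le_exp.2 (le_mul_of_one_le_left (by linarith only [s2, Γs]) (by linarith only [H.ok.g10]))) μ0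
  have E4 := mul_le_mul_of_nonneg_right E1 μ0
  intro j j1 j2
  rcases hn.eq_or_lt with rfl | hlt
  · linarith only [μ0, E3, E4, hJ j j1 j2]
  obtain ⟨r1, r2⟩ := H.en.l_rh ok H.n0F hi.1
  have x0 := exp_pos (-(e.g * e.ς))
  obtain b2 : ∀ z, z * exp e.ς ≤ 1 → z ≤ exp (-4 * c.gm (K + 1) (K + 2) * k.sl (f n')) :=
    fun z hz => (le_exp hz (a := 4 * c.gm (K + 1) (K + 2) * k.sl (f n')) (by linarith only [s2, Γs])).trans_eq
      (by congr 1; ring)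
  obtain a1 : D * k.rh (f n') ≤ exp (-(e.g * e.ς)) := by
    refine (mul_le_mul ((log_le_iff_le_exp D0).1 hD) r2 (by linarith only [r1]) (exp_pos _).le).trans_eq ?_
    rw [← exp_add]; congr 1; ring
  have := (hF M σ _ g k _ J _ hb).1 (f n) (H.en.l_mem ok H.n0F n (by linarith only [hlt, hi.1]))
    (H.en.l_le ok H.n0F hn hi.1) K D (exp e.ς * μ) (by omega) D0 (b2 _ ?_) (b2 _ ?_)
    (fun i i1 i2 => by linarith only [μ0, E4, La_eq H i n ▸ hJ i i1 (H.eK ▸ i2)]) ?_ j j1 (H.eK ▸ j2)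
  · rw [La_eq H]
    obtain this : 0 ≤ |σ.La M p.t j (f n')| * D ^ j := by (clear * - D0; positivity)
    (rename_i zq0; linarith only [μ0, E3, E4, zq0])
  · have := mul_le_mul_of_nonneg_right a1 (exp_pos e.ς).le
    linarith only [this, pw E1 x0.le E2 (a := 1) (by omega)]
  · have := mul_le_mul_of_nonneg_right (H.en.W n' hi.1 ▸ hμ) (sq_nonneg (exp e.ς))
    linarith only [this, pw E1 x0.le E2 (a := 2) (by omega)]
  · have g1 := (gm_lo (K := K) hκ).1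
    obtain a2 := H.en.l_NN hT J.oc.sk H.n0F (a := 1) (g := c.gm (K + 1) 1) (B := μ / D) hlt hi.1
      (by linarith only [g1]) fun l l1 l2 => by rw [le_div_iff₀' D0, Nat.cast_one]; exact hV l l1 l2
    obtain a3 := mul_le_mul_of_nonneg_right (gm_mono (K := K) hκ (by omega : 1 ≤ K + 2))
      (show 0 ≤ k.sl (f n') by linarith only [s1])
    obtain a4 := mul_le_mul G1 s1 (by norm_num) (by linarith only [G1])
    obtain a5 : 128 * exp (c.gm (K + 1) 1 * k.sl (f n')) ≤ exp e.ς := by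
      refine le_trans (mul_le_mul_of_nonneg_right (show (128 : ℝ) ≤ exp 128 by
        linarith only [add_one_le_exp (128 : ℝ)]) (exp_pos _).le) ?_
      rw [← exp_add]; exact exp_le_exp.2 (by linarith only [s2, a3, a4])
    rw [← mul_div_assoc, le_div_iff₀ D0] at a2
    have := mul_le_mul_of_nonneg_right a5 μ0
    linarith only [a2, this]

theorem wt_eq (D u ν : ℝ) (j : ℕ) :
    wt D (32 * u) (32 * ν) j = 128 * ((if j = 1 then u + ν else ν) / D ^ j) := by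
  unfold wt
  split_ifs with h
  · rw [h]; ring
  · ring

theorem j4b (hκ : 0 < c.κ) (hl : 10 ≤ c.lam) (hb : c.Bud K (K + 1)) (hT : TA_s c) (hV : HVY_s K c)
    (hU : TUBE_s K c) (hR : R2_s K c) (h5 : AD5_s K c) (h1 : J1_s K c) (h3 : J3_s K c)
    (h4 : J4_s K c) (H : EPr K c M σ g k n0 f e p) {n : ℕ} {D u ν : ℝ} (A : p.Adm e n D u ν)
    {m j : ℕ} (hm : m ≤ n) (j1 : 1 ≤ j) (j2 : j ≤ K) {b : ℝ}
    (hB : ∀ l, m ≤ l → l < n → e.g * e.ς + p.V (2 * j - 1) l ≤ b) {τ : ℝ} (hτ : |τ - p.t| ≤ D) :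
    |p.Fd n j τ - p.Fd m j τ| ≤ (if j = 1 then u + ν else ν) * exp (-e.ς) / D ^ j + exp b := by
  obtain ⟨s1, s2, G1, E1, E2⟩ := num hκ hl H A.inr
  obtain ⟨u0, ν0, a1, -, a3, a4⟩ := adm H A
  obtain ⟨W, a, b'⟩ := win hκ hl hb hV h3 H A le_rfl (by linarith only [E1])
  simp only [one_mul, mul_one, one_pow] at W a b'
  have J := H.jc n A.inr
  have ok := J.oc.sk.1
  have D0 := A.D0
  have K0 : (0 : ℝ) ≤ K := K.cast_nonneg
  obtain X0 : ∀ i, 0 ≤ (if i = 1 then u + ν else ν) ∧ (if i = 1 then u + ν else ν) ≤ u + ν :=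
    fun i => by split_ifs <;> constructor <;> linarith only [u0, ν0]
  obtain Y0 : ∀ i, 0 ≤ (if i = 1 then u + ν else ν) / D ^ i := fun i =>
    div_nonneg (X0 i).1 (by (clear * - D0; positivity))
  rcases hm.eq_or_lt with rfl | hlt
  · rw [sub_self, abs_zero]
    have := (X0 j).1
    (clear * - u0 ν0 D0; positivity)
  obtain ⟨t1, t2⟩ := abs_le.1 hτ
  obtain ⟨J', tu, la, -⟩ := h4 M σ _ g k _ J H.g8 _ hb _ _ _ _ _ W le_rfl le_rfl a b' τ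
    ⟨by linarith only [t1], by linarith only [t2]⟩
  obtain ⟨g1, g2⟩ := gm_lo (K := K) hκ
  obtain g3 := gm_mono (K := K) hκ (by omega : 1 ≤ K + 2)
  obtain g4 := gm_mono (K := K) hκ (by omega : K + 2 ≤ K + 3)
  obtain g5 := gm_mono (K := K) hκ (by omega : j ≤ K + 2)
  have g6 := gm_mono (K := K) hκ j1
  obtain ⟨r1, -⟩ := H.en.l_rh ok H.n0F A.inr.1
  set Γ := c.gm (K + 1) (K + 2)
  set s := k.sl (f n)
  set x := exp (-(e.g * e.ς))
  set Z := exp e.ς with hZ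
  have x0 : 0 < x := exp_pos _
  have Z0 : 0 < Z := exp_pos _
  obtain s0 : 0 ≤ s := by linarith only [s1]
  have Γs := mul_le_mul_of_nonneg_right G1 s0
  have Ks := mul_nonneg K0 s0
  obtain ex : ∀ y, y ≤ 3 * (Γ * s) → 10 ^ 4 * exp y ≤ Z := fun y hy => by
    refine le_trans (mul_le_mul_of_nonneg_right (show (10 : ℝ) ^ 4 ≤ exp (10 ^ 4) by
      linarith only [add_one_le_exp ((10 : ℝ) ^ 4)]) (exp_pos _).le) ?_
    rw [← exp_add]; exact exp_le_exp.2 (by linarith only [s1, s2, Γs, Ks, hy])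
  obtain ex' : ∀ y, y ≤ 3 * (Γ * s) → exp y ≤ Z := fun y hy => by linarith only [E1, ex y hy, exp_pos y]
  obtain p1 := pw E1 x0.le E2 (a := 1) (by omega)
  obtain p4 := pw E1 x0.le E2 (a := 4) (by omega)
  obtain xZ : ∀ i : ℕ, x * Z ^ i * 10 ^ 6 ≤ x * Z ^ i * Z := fun i =>
    mul_le_mul_of_nonneg_left E1 (by positivity)
  obtain p3 : x * Z ^ 3 * 10 ^ 6 ≤ 1 := by linarith only [p4, xZ 3]
  have O : O2 c M τ (σ.orb M τ) := ⟨J'.oc.t0, J'.oc.t1, J'.oc.orb, J'.oc.box0⟩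
  obtain sz : k.sz (f n) (4 * (32 * u + 32 * ν)) D 0 ≤ 129 * x := by unfold Sk.sz; linarith only [a1, a3]
  have tc := (hU M _ g _ k _ J.oc τ _ O _ _ _ _ (by linarith only [g1]) (le_trans (by nlinarith only [G1, g3, g4]) hb.2) tu
    (sz.trans (by
      rw [neg_mul]
      refine le_exp (s := e.ς) ?_ (by linarith only [s1, s2, Γs, Ks, mul_le_mul_of_nonneg_right g2 s0])
      linarith only [xZ 1, pw E1 x0.le E2 (a := 2) (by omega), mul_pos x0 Z0]))).2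
  set δ := k.sz (f n) (4 * (32 * u + 32 * ν)) D 0 * exp ((c.gm (K + 1) 1 + 32) * s)
  obtain δ1 : δ ≤ 129 * x * Z := mul_le_mul sz (ex' _ (by
    linarith only [s1, Γs, Ks, mul_le_mul_of_nonneg_right g3 s0])) (exp_pos _).le (by positivity)
  obtain δ2 : 2048 * δ * Z ≤ 1 := by
    have := mul_le_mul_of_nonneg_right δ1 Z0.le
    linarith only [p3, this, xZ 2, pw E1 x0.le E2 (a := 3) (by omega), mul_pos x0 (pow_pos Z0 2)]
  obtain δ3 : δ ≤ 1 / 10000 := by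
    linarith only [p3, δ1, xZ 1, xZ 2, pw E1 x0.le E2 (a := 3) (by omega), mul_pos x0 Z0]
  have cl := (hR M _ g _ k _ J.oc H.g8 τ _ O δ δ3 tc).2
  obtain rat : ∀ i ≤ n, ∃ ρ, |ρ - 1| ≤ 128 * δ ∧ p.Fd i j τ = σ.La M τ j (f i) * ρ := fun i hi => by
    have iF := H.en.l_mem ok H.n0F i (hi.trans A.inr.1)
    have i1 := H.en.l_le ok H.n0F hi A.inr.1
    obtain ⟨w0, w1⟩ := xi H A.inr iF i1
    obtain ξ0 : 0 < |(σ.orb M p.t).fr 1 (f i)| := by linarith only [w0, w1]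
    obtain c1 := cl 0 (f i) 8 le_rfl (by linarith only [(ok.F_mem _ iF).1]) i1 fun l l1 l2 =>
      (J.oc.fit.f1 l l1 (l2.trans i1)).trans
        (mul_le_mul_of_nonneg_right H.g8 (ok.w_pos _ l1).le)
    rw [zero_add] at c1
    obtain δ0 : 0 ≤ δ := by
      by_contra hn
      nlinarith only [c1, w0, hn, abs_nonneg ((σ.orb M τ).fr 1 (f i) - (σ.orb M p.t).fr 1 (f i))]
    obtain ξ1 : (σ.orb M τ).fr 1 (f i) ≠ 0 := fun h0 => by
      have := J'.oc.fit.f2 _ iF i1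
      rw [h0, abs_zero, mul_zero] at this; linarith only [w0, this]
    refine ⟨(σ.orb M τ).fr 1 (f i) / (σ.orb M p.t).fr 1 (f i), ?_, ?_⟩
    · rw [div_sub_one (abs_pos.1 ξ0), abs_div, div_le_iff₀ ξ0]
      linarith only [c1, mul_le_mul_of_nonneg_left w1 δ0]
    · rw [H.fd, Seed.La, div_mul_div_cancel₀ ξ1]
  obtain wD : ∀ i, 0 ≤ wt D (32 * u) (32 * ν) i ∧ wt D (32 * u) (32 * ν) i * D ^ i ≤ 128 * (u + ν) :=
    fun i => by
      rw [wt_eq, mul_assoc, div_mul_cancel₀ _ (pow_pos D0 i).ne']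
      exact ⟨by linarith only [Y0 i], by linarith only [(X0 i).2]⟩
  obtain ad := h5 k J.oc.sk _ J.oc.hn _ K (wt D (32 * u) (32 * ν))
    (fun i => wt D (32 * u) (32 * ν) i / Z ^ 2) hb (by omega) (fun i => (wD i).1)
    (fun i => div_nonneg (wD i).1 (by positivity)) (fun i _ _ => by
      rw [← mul_div_assoc, div_le_iff₀ (by positivity), mul_comm]
      exact mul_le_mul_of_nonneg_left ((ex' _ (by linarith only [s1, Γs, Ks])).trans (by nlinarith only [E1])) (wD i).1)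
    fun a b a1' b1' _ => by
      rw [wt_eq D u ν (a + b), if_neg (by omega), ← mul_div_assoc, div_div, pow_add]
      have eW := exp_pos (k.W (f n))
      obtain uD : 0 ≤ u * D * k.rh (f n) := by (clear * - u0 D0 r1; positivity)
      constructor
      · obtain c1 := mul_le_mul (wD a).2 (wD b).2 (mul_nonneg (wD b).1 (by positivity)) (by (clear * - u0 ν0; positivity))
        obtain c2 : (u + ν) ^ 2 * exp (k.W (f n)) ≤ 3 * (x * ν) := by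
          linarith only [a4, uD, mul_le_mul_of_nonneg_right a3 ν0, mul_nonneg (mul_nonneg ν0 ν0) eW.le]
        obtain c3 := mul_le_mul c1 (mul_le_mul_of_nonneg_left (ex' (12 * s) (by linarith only [s1, Γs, Ks])) eW.le)
          (by positivity) (by (clear * - u0 ν0; positivity))
        have c4 := mul_le_mul_of_nonneg_right c3 (sq_nonneg Z)
        have c5 := mul_le_mul_of_nonneg_right c2 (pow_pos Z0 3).le
        have c6 := mul_le_mul_of_nonneg_right p3 ν0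
        obtain c7 : 0 ≤ x * Z ^ 3 * ν := by (clear * - ν0; positivity)
        rw [le_div_iff₀ (by positivity), exp_add]
        linarith only [ν0, c4, c5, c6]
      · obtain c0 : D * k.rh (f n) ≤ 1 := by nlinarith only [a1, p1, E1, x0]
        obtain c1 : (D * k.rh (f n)) ^ b ≤ D * k.rh (f n) :=
          pow_le_of_le_one (by positivity) c0 (by omega)
        obtain c2 := mul_le_mul (wD a).2 c1 (by positivity) (by (clear * - u0 ν0; positivity))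
        obtain c3 : 128 * (u + ν) * (D * k.rh (f n)) ≤ 256 * (x * ν) := by
          linarith only [a4, mul_le_mul_of_nonneg_right a1 ν0, mul_nonneg (sq_nonneg u) eW.le]
        obtain c4 := mul_le_mul (c2.trans c3) (ex' (Γ * s) (by linarith only [s1, Γs, Ks])) (exp_pos _).le
          (by (clear * - ν0; positivity))
        have c5 := mul_le_mul_of_nonneg_right c4 (sq_nonneg Z)
        have c6 := mul_le_mul_of_nonneg_right p3 ν0
        obtain c7 : 0 ≤ x * Z ^ 3 * ν := by (clear * - ν0; positivity)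
        rw [mul_pow] at c5
        rw [le_div_iff₀ (by positivity)]
        linarith only [ν0, c5, c6]
  obtain inc := (h1 M σ τ _ k _ J' _ K _ _ hb (by omega) ad la).2 j j1 (by omega) (by omega) (f m)
    (H.en.l_mem ok H.n0F m (hm.trans A.inr.1)) (H.en.l_le ok H.n0F hm A.inr.1)
  obtain nn := H.en.l_NN hT J.oc.sk H.n0F (a := 2 * j - 1) (g := c.gm (K + 1) j / 2) (B := exp b * x)
    hlt A.inr.1 (by linarith only [g1, g6]) fun l l1 l2 => by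
      rw [← exp_add, Nat.cast_sub (by omega)]
      push_cast
      exact exp_le_exp.2 (by linarith only [hB l l1 l2])
  obtain ⟨ρn, n1, n2⟩ := rat n le_rfl
  obtain ⟨ρm, m1, m2⟩ := rat m hm
  have l1 := la j j1 j2
  rw [wt_eq] at l1 inc
  rw [n2, m2, exp_neg, ← hZ, mul_div_right_comm, ← div_eq_mul_inv]
  have y0 := Y0 j
  set Y := (if j = 1 then u + ν else ν) / D ^ j
  obtain d1 : exp (15 * s) * (128 * Y / Z ^ 2) ≤ Y / Z / 4 := by
    rw [← mul_div_assoc, div_div, div_le_div_iff₀ (by positivity) (by positivity)]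
    obtain this := mul_le_mul_of_nonneg_right (ex (15 * s) (by linarith only [s1, Γs, Ks])) (mul_nonneg y0 Z0.le)
    obtain this : 0 ≤ exp (15 * s) * (Y * Z) := by (clear * - u0 ν0 D0; positivity)
    (rename_i zq0; linarith only [zq0, this])
  obtain d2 : exp (c.gm (K + 1) j / 2 * s) * (exp b * x) ≤ exp b / 2 := by
    obtain c1 := mul_le_mul_of_nonneg_right (ex (c.gm (K + 1) j / 2 * s)
      (by linarith only [s1, Γs, Ks, mul_le_mul_of_nonneg_right g5 s0])) x0.le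
    obtain c2 : exp (c.gm (K + 1) j / 2 * s) * x ≤ 1 / 2 := by linarith only [p1, c1]
    linarith only [mul_le_mul_of_nonneg_left c2 (exp_pos b).le]
  obtain d3 : 1024 * δ * Y ≤ Y / Z / 2 := by
    rw [div_div, le_div_iff₀ (by positivity)]
    linarith only [mul_le_mul_of_nonneg_right δ2 y0]
  set Ln := σ.La M τ j (f n)
  set Lm := σ.La M τ j (f m)
  obtain ⟨n3, n4⟩ := abs_le.1 n1
  obtain ⟨m3, m4⟩ := abs_le.1 m1
  obtain d4 : |ρm| ≤ 2 := abs_le.2 ⟨by linarith only [δ3, m3], by linarith only [δ3, m4]⟩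
  obtain d5 : |ρn - ρm| ≤ 256 * δ := abs_le.2 ⟨by linarith only [n3, m4], by linarith only [n4, m3]⟩
  rw [show Ln * ρn - Lm * ρm = Ln * (ρn - ρm) - (Lm - Ln) * ρm by ring]
  refine (abs_sub _ _).trans ?_
  rw [abs_mul, abs_mul]
  obtain d6 := mul_le_mul (show |Ln| ≤ 4 * Y by linarith only [l1]) d5 (abs_nonneg _) (by (clear * - u0 ν0 D0; positivity))
  have d7 := mul_le_mul_of_nonneg_left d4 (abs_nonneg (Lm - Ln))
  linarith only [nn, d1, d2, d3, inc, d6, d7]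

theorem epr {y : ℝ} {d : Dat} (N : PN K c e y) (P : PC K c M e y σ d f p) :
    ∃ n0, EPr K c M σ 2 (d.sk c M) n0 f e p := by
  obtain ⟨n0, h0, en⟩ := P.en
  have pt : p.t = d.t := congrArg E.Pr.t P.eq
  obtain g0 : 0 ≤ c.gm (K + 1) (K + 2) := by unfold Cs.gm Cs.Cg; (clear * -; positivity)
  refine ⟨n0, N.ok, congrArg E.EK.K N.hk, congrArg E.EK.θ N.hk, le_trans ?_ N.g1, by norm_num, h0, en,
    fun l j τ => ?_, pt ▸ P.jc, fun τ hτ => P.win τ ?_⟩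
  · exact le_mul_of_one_le_left g0 (by linarith only [N.ck2])
  · rw [pt]; exact congrFun (congrFun (congrFun (congrArg E.Pr.Fd P.eq) l) j) τ
  · rw [pt] at hτ
    obtain this : exp (-e.ς) ≤ c.rU y := by
      rw [Cs.rU, Cs.S0, ← exp_nat_mul, one_div, ← exp_neg]
      exact exp_le_exp.2 (by push_cast; linarith only [N.S0.1, N.S0.2])
    linarith only [hτ, this, exp_pos (-e.ς)]

end ELA

open ELA in
theorem ela (K : ℕ) : Hier fun c => TA_s c → HVY_s K c → TUBE_s K c → R2_s K c → QB_s K c →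
    AD5_s K c → J1_s K c → J1F_s K c → J3_s K c → J4_s K c → ELA_s K c := by
  refine (Hier.base.and (Hier.lam_ge (fun _ => 10) fun _ _ => rfl)).mono
    fun c ⟨⟨_, _, _, _, hκ, _⟩, hl⟩ hT hV hU hR hQ h5 h1 hF h3 h4 M e y σ d f p N P => ?_
  have hb := N.bud
  obtain ⟨n0, H⟩ := epr N P
  refine ⟨fun j j1 j2 => ?_, fun n D u ν A => H.eK ▸ j3 hκ hl hb hV h3 H A,
    fun n D u ν A => H.eK ▸ j4 hκ hl hb hV hQ h3 h4 H A,
    fun n D u ν A m hm j j1 j2 b hB τ hτ =>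
      j4b hκ hl hb hT hV hU hR h5 h1 h3 h4 H A hm j1 (H.eK ▸ j2) hB hτ,
    fun n n' D μ a b d h i l m => j1f hκ hl hb hT hF H a b d h i l m⟩
  obtain A := H.at' p.t (by rw [sub_self, abs_zero]; exact (exp_pos _).le)
  obtain e1 : (fun s => (σ.orb M s).X 1) = σ.v := by
    funext s; simp [Seed.orb, Mdl.orb, Mdl.pos]
  rw [La_eq H, H.en.f0, Seed.La, Sq.fr_self, div_one, Seed.pj, e1]
  rcases j1.eq_or_lt with rfl | j3
  · rw [iteratedDeriv_one]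
    obtain ⟨a, b⟩ := abs_le.1 A.v1
    exact abs_le.2 ⟨by (rename_i zq5 _ _ _ _ _; linarith only [zq5, a]), by (rename_i zq5 _ _ _ _ _; linarith only [zq5, b])⟩
  · (rename_i zq5 _ _ _ _ _; linarith only [zq5, j2, A.vj j j3 (by have := H.eK; omega)])

end
end Pool.Agent.MP_9cbfe4_an

end

/-! ### Part ETA5a -/

section

/-! Glue of section E, clause `TA.j5`, part a: J5 with the jets at the horizon as tail (helper23). -/

namespace Pool.Agent.MP_9cbfe4_an.ETA5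

open Finset Real

variable {K : ℕ} {c : Cs} {k : Sk}

theorem sl0 (hk : k.OK c) {m : ℤ} (hm : m ∈ k.F) : 0 ≤ k.sl m := by
  obtain h1 : (1 : ℝ) ≤ m := by exact_mod_cast (hk.1.F_mem m hm).1
  have := hk.1.time m hm
  exact one_le_exp_iff.1 (by nlinarith only [h1, this])

theorem nn_le (ta : TA_s c) (hk : k.OK c) {m B : ℤ} (hm : m ∈ k.F) (hB : B ∈ k.D) {s g : ℝ} {e : ℕ}
    (g0 : 0 ≤ g) (hs : (g + 2) * (c.ck * k.sl m) ≤ s) (hc : 1 ≤ c.ck)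
    (hl : ∀ x ∈ k.D, B < x → x < m → 1 / k.η x ^ e ≤ exp s) {l : ℤ} (l0 : 0 ≤ l) (lm : l ≤ m) :
    k.NN m e g l ≤ exp (2 * s) * k.NN (k.nx B) e 0 l := by
  obtain ⟨-, -, -, tm, -, -, -, -, -, tw, -, -, -, -, -, -, -, tn⟩ := ta k hk
  have mN := (hk.1.F_mem m hm).2
  have s0 := sl0 hk hm
  obtain c0 : k.sl m ≤ c.ck * k.sl m := by nlinarith only [hc, s0]
  obtain hσ : ∀ i, i ≤ m → g * k.σ i + 2 * k.sl m ≤ s := fun i hi => by
    have := mul_le_mul_of_nonneg_left ((tm i m hi mN).trans (hk.1.jump m hm)) g0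
    linarith only [hs, c0, this]
  obtain s1 : 0 ≤ s := le_trans (by (clear * - g0 hc s0; positivity)) hs
  have n1 := (tn (k.nx B) e 0 l le_rfl l0 (lm.trans mN)).1
  obtain e1 : exp s ≤ exp (2 * s) := exp_le_exp.2 (by linarith only [s1])
  have big : ∀ a : ℝ, a ≤ exp (2 * s) → a ≤ exp (2 * s) * k.NN (k.nx B) e 0 l := fun a ha =>
    ha.trans (le_mul_of_one_le_right (exp_pos _).le n1)
  refine (Finset.fold_max_le _).2 ⟨big _ (exp_le_exp.2 (by linarith only [s0, s1, hσ l lm])), fun x hx => ?_⟩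
  obtain ⟨xD, xm, lx⟩ := Finset.mem_filter.1 hx
  have η0 := (hk.1.η_mem x xD).1
  have xF := (hk.1.D_mem x xD).1
  have x1 := (hk.1.F_mem x xF).1
  have w0 := hk.1.w_pos x x1
  obtain V0 : 0 ≤ k.V x e := by unfold Sk.V; positivity
  rcases le_or_gt x B with h | h
  · have hx' : x ∈ k.D.filter fun x => x < k.nx B ∧ l < k.nx x := Finset.mem_filter.2
      ⟨xD, h.trans_lt (hk.1.nx_mem B (hk.1.D_mem B hB).2).2.1, lx⟩
    have h2 : (if x < l then exp (0 * k.σ l) * exp (-k.chi x l / 4) / k.η x ^ e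
        else k.w4 l * exp (0 * k.σ x) * k.V x e) ≤ k.NN (k.nx B) e 0 l :=
      (Finset.le_fold_max _).2 (.inr ⟨x, hx', le_rfl⟩)
    refine le_trans ?_ (mul_le_mul_of_nonneg_left h2 (exp_pos _).le)
    split_ifs with h3
    · rw [zero_mul, exp_zero, one_mul, mul_div_assoc]
      exact mul_le_mul_of_nonneg_right (exp_le_exp.2 (by linarith only [s0, s1, hσ l lm])) (by positivity)
    · obtain w4 : 0 ≤ k.w4 l := by
        rcases l0.eq_or_lt with rfl | h4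
        · exact (ta k hk).2.1.ge
        · exact (hk.1.w_pos l h4).le.trans ((ta k hk).1 l h4)
      rw [zero_mul, exp_zero, mul_one, mul_comm (k.w4 l), mul_assoc]
      exact mul_le_mul_of_nonneg_right (exp_le_exp.2 (by linarith only [s0, s1, hσ x xm.le])) (mul_nonneg w4 V0)
  · refine big _ ?_
    have h5 := hl x xD h xm
    rw [two_mul, exp_add]
    split_ifs with h3
    · obtain a : exp (-k.chi x l / 4) ≤ 1 := exp_le_one_iff.2 (by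
        obtain this : 0 ≤ k.chi x l := sum_nonneg fun i _ => by linarith only [(hk.1.ch_mem i).1]
        linarith only [this])
      calc _ = exp (g * k.σ l) * (exp (-k.chi x l / 4) * (1 / k.η x ^ e)) := by ring
        _ ≤ exp s * (1 * exp s) := by gcongr; linarith only [s0, hσ l lm]
        _ = _ := by rw [one_mul]
    · have a := (tw x xF l l0 (not_lt.1 h3)).2.1
      have b : k.sl x ≤ k.sl m := hk.1.sl_mono x m x1 xm.le
      calc _ ≤ exp (2 * k.sl x) * k.w x * exp (g * k.σ x) * k.V x e := by (clear * - a V0; gcongr)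
        _ = exp (g * k.σ x + 2 * k.sl x) * (1 / k.η x ^ e) := by
          rw [exp_add]; unfold Sk.V; field_simp
        _ ≤ exp s * exp s := by gcongr; linarith only [b, hσ x xm.le]

theorem gm_le (hc : 1 ≤ c.ck) {j : ℕ} (hj : j ≤ K + 2) :
    0 ≤ c.gm (K + 1) j ∧ c.gm (K + 1) j ≤ c.gm (K + 1) (K + 2) := by
  obtain this : 1 ≤ c.Cg := by unfold Cs.Cg; nlinarith only [hc]
  unfold Cs.gm
  exact ⟨by (clear * - this; positivity), by gcongr⟩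

/-- the tail -/
noncomputable def tl (T1 S2 S3 T4 s : ℝ) (j : ℕ) : ℝ :=
  if j = 1 then 32 * T1 else if j = 2 then exp s * S2 else if j = 3 then exp s ^ 2 * S3 else T4

theorem tl_ad {T1 S2 S3 s w r X : ℝ} (p1 : 0 ≤ T1) (S0 : 0 ≤ S2) (S1 : 0 ≤ S3) (w0 : 0 ≤ w)
    (r0 : 0 ≤ r) (X0 : 0 ≤ X) (hXE : 1024 * X ≤ exp s) (E0 : 1 ≤ exp s) (q1 : T1 ^ 2 * w ≤ S2)
    (v1 : T1 * r ≤ S2) (q5 : S2 * (T1 * w) ≤ S3) (v2 : S2 * r ≤ S3) :
    ∃ T4, 0 ≤ T4 ∧ ∀ a b, 1 ≤ a → 1 ≤ b → a + b ≤ 3 + 1 →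
      tl T1 S2 S3 T4 s a * tl T1 S2 S3 T4 s b * (w * X) ≤ tl T1 S2 S3 T4 s (a + b) ∧
      tl T1 S2 S3 T4 s a * r ^ b * X ≤ tl T1 S2 S3 T4 s (a + b) := by
  have e : ∀ T4, tl T1 S2 S3 T4 s 1 = 32 * T1 ∧ tl T1 S2 S3 T4 s 2 = exp s * S2 ∧
      tl T1 S2 S3 T4 s 3 = exp s ^ 2 * S3 ∧ tl T1 S2 S3 T4 s 4 = T4 := fun _ => ⟨rfl, rfl, rfl, rfl⟩
  generalize exp s = E at *
  obtain E1 : 0 ≤ E := by linarith only [E0]
  obtain u1 : 0 ≤ 32 * T1 * (E ^ 2 * S3) * (w * X) := by positivity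
  obtain u2 : 0 ≤ E * S2 * (E * S2) * (w * X) := by positivity
  obtain u3 : 0 ≤ 32 * T1 * r ^ 3 * X := by positivity
  obtain u4 : 0 ≤ E * S2 * r ^ 2 * X := by positivity
  obtain u5 : 0 ≤ E ^ 2 * S3 * r ^ 1 * X := by positivity
  refine ⟨32 * T1 * (E ^ 2 * S3) * (w * X) + E * S2 * (E * S2) * (w * X) + 32 * T1 * r ^ 3 * X
    + E * S2 * r ^ 2 * X + E ^ 2 * S3 * r ^ 1 * X, by linarith only [u1, u2, u3, u4, u5], fun a b ha hb hab => ?_⟩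
  obtain v3 : T1 * r ^ 2 ≤ S3 := by
    calc _ = T1 * r * r := by ring
      _ ≤ S2 * r := by (clear * - v1 r0; gcongr)
      _ ≤ S3 := v2
  obtain x1 : 32 * X ≤ E := by linarith only [hXE, E0]
  obtain x2 : 32 * X ≤ E ^ 2 := by nlinarith only [X0, hXE, E0]
  obtain hcase : (a = 1 ∧ b = 1) ∨ (a = 1 ∧ b = 2) ∨ (a = 2 ∧ b = 1) ∨ (a = 1 ∧ b = 3) ∨
      (a = 2 ∧ b = 2) ∨ (a = 3 ∧ b = 1) := by omega
  rcases hcase with ⟨rfl, rfl⟩ | ⟨rfl, rfl⟩ | ⟨rfl, rfl⟩ | ⟨rfl, rfl⟩ | ⟨rfl, rfl⟩ | ⟨rfl, rfl⟩ <;>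
    simp only [Nat.reduceAdd, (e _).1, (e _).2.1, (e _).2.2.1, (e _).2.2.2]
  · constructor
    · calc _ = 1024 * X * (T1 ^ 2 * w) := by ring
        _ ≤ E * S2 := by gcongr
    · calc _ = 32 * X * (T1 * r) := by ring
        _ ≤ E * S2 := by gcongr
  · constructor
    · calc _ = E * (32 * X) * (S2 * (T1 * w)) := by ring
        _ ≤ E * E * S3 := by (clear * - x1 E0 q5 S0 p1 w0; gcongr)
        _ = _ := by ring
    · calc _ = 32 * X * (T1 * r ^ 2) := by ring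
        _ ≤ E ^ 2 * S3 := by (clear * - x2 v3 p1 E0; gcongr)
  · constructor
    · calc _ = E * (32 * X) * (S2 * (T1 * w)) := by ring
        _ ≤ E * E * S3 := by gcongr
        _ = _ := by ring
    · calc _ = E * X * (S2 * r) := by ring
        _ ≤ E * E * S3 := by gcongr; linarith only [hXE, E0]
        _ = _ := by ring
  · constructor <;> linarith only [u2, u3, u4, u5, u1]
  · constructor <;> linarith only [u1, u3, u4, u5, u2]
  · constructor <;> linarith only [u2, u3, u4, u5, u1]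

theorem exp10 : (1024 : ℝ) ≤ exp 10 := by
  have := add_one_le_exp (1 : ℝ)
  calc (1024 : ℝ) = 2 ^ 10 := by norm_num
    _ ≤ exp 1 ^ 10 := by gcongr; linarith only [this]
    _ = exp 10 := by rw [← exp_nat_mul]; norm_num

theorem parts {T1 T2 T3 S2 S3 β w : ℝ} (p1 : 0 ≤ T1) (p2 : 0 ≤ T2) (p3 : 0 ≤ T3) (β0 : 0 ≤ β)
    (w0 : 0 ≤ w) (h2 : T2 + T1 ^ 2 * w + β * T1 ≤ S2) (h3 : T3 + S2 * (β + T1 * w) ≤ S3) :
    T1 ^ 2 * w ≤ S2 ∧ β * T1 ≤ S2 ∧ T2 ≤ S2 ∧ S2 * β ≤ S3 ∧ S2 * (T1 * w) ≤ S3 ∧ T3 ≤ S3 := by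
  obtain a : 0 ≤ T1 ^ 2 * w := by positivity
  obtain b : 0 ≤ β * T1 := by positivity
  obtain S0 : 0 ≤ S2 := by linarith only [p2, h2, a, b]
  obtain d : 0 ≤ S2 * β := by positivity
  obtain e : 0 ≤ S2 * (T1 * w) := by positivity
  rw [mul_add] at h3
  exact ⟨by linarith only [p2, h2, b], by linarith only [p2, h2, a], by linarith only [h2, a, b], by linarith only [p3, h3, e], by linarith only [p3, h3, d], by linarith only [h3, d, e]⟩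

theorem bd (ta : TA_s c) (ad : AD1_s K c) (j1 : J1_s K c) (hK : 3 ≤ K) (bud : c.Bud K (K + 1))
    (hc : 1 ≤ c.ck) {M σ t g m B} (jc : JC K c M σ t g k m) {s : ℝ}
    (hs : (4 * c.gm (K + 1) (K + 2) + 2) * (c.ck * k.sl m) + 10 ≤ s) (hB : B ∈ k.D)
    (light : ∀ x ∈ k.D, B < x → x < m → 1 / k.η x ^ 7 ≤ exp s) {T1 T2 T3 S2 S3 β : ℝ}
    (hβ : k.rh m ≤ β) (a1 : |σ.La M t 1 m| ≤ T1) (a2 : |σ.La M t 2 m| ≤ T2) (a3 : |σ.La M t 3 m| ≤ T3)
    (h2 : T2 + T1 ^ 2 * exp (k.W m) + β * T1 ≤ S2) (h3 : T3 + S2 * (β + T1 * exp (k.W m)) ≤ S3) :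
    ∀ j l, 1 ≤ j → j ≤ 3 → 0 ≤ l → l ≤ m → |σ.pj M t j l| ≤
      k.w4 l * tl T1 S2 S3 0 s j + exp (2 * s) * k.NN (k.nx B) (2 * j - 1) 0 l := by
  have hk := jc.oc.sk
  have hm := jc.oc.hn
  have s0 := sl0 hk hm
  have G0 := (gm_le (K := K) hc le_rfl).1
  have c0 : k.sl m ≤ c.ck * k.sl m := le_mul_of_one_le_left s0 hc
  have c1 := mul_le_mul_of_nonneg_left c0 G0
  have c2 := mul_nonneg G0 s0
  have p1 := (abs_nonneg _).trans a1
  have p2 := (abs_nonneg _).trans a2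
  have p3 := (abs_nonneg _).trans a3
  have r1 : 1 ≤ k.rh m := ((ta k hk).2.2.2.2.2.2.2.2.2.2.2.2.2.2.2.2.1 m hm).1
  obtain hXE : 1024 * exp (4 * c.gm (K + 1) (K + 2) * k.sl m) ≤ exp s := by
    calc _ ≤ exp 10 * exp (4 * c.gm (K + 1) (K + 2) * k.sl m) := by gcongr; exact exp10
      _ ≤ _ := by rw [← exp_add]; exact exp_le_exp.2 (by linarith only [hs, s0, c0, c1])
  obtain E0 : 1024 ≤ exp s := exp10.trans (exp_le_exp.2 (by linarith only [hs, s0, c0, c1, c2]))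
  obtain ⟨q1, q2, q3, q4, q5, q6⟩ := parts p1 p2 p3 (by linarith only [hβ, r1]) (exp_pos _).le h2 h3
  have S0 := p2.trans q3
  have S1 := p3.trans q6
  obtain ⟨T4, t0, ht⟩ := tl_ad (r := k.rh m) p1 S0 S1 (exp_pos _).le (by linarith only [r1]) (exp_pos _).le hXE
    (by linarith only [E0]) q1 (by rw [mul_comm]; exact (mul_le_mul_of_nonneg_right hβ p1).trans q2) q5
    ((mul_le_mul_of_nonneg_left hβ S0).trans q4)
  obtain adm := ad k hk m hm (K + 1) 3 (tl T1 S2 S3 T4 s) bud (by omega) (fun j => by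
      unfold tl; split_ifs <;> positivity) (fun a b ha hb hab => by
    rw [exp_add]; exact ht a b ha hb hab)
  obtain out := (j1 M σ t g k m jc (K + 1) 3 _ _ bud (by omega) adm (fun j h1 h3 => by
    obtain hcase : j = 1 ∨ j = 2 ∨ j = 3 := by omega
    rcases hcase with rfl | rfl | rfl
    · show _ ≤ 32 * T1
      linarith only [a1]
    · show _ ≤ exp s * S2
      exact mul_le_mul (by linarith only [E0]) (a2.trans q3) (abs_nonneg _) (exp_pos _).le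
    · show _ ≤ exp s ^ 2 * S3
      exact mul_le_mul (by nlinarith only [E0]) (a3.trans q6) (abs_nonneg _) (by positivity))).1
  intro j l h1 h3 l0 lm
  refine (out j l h1 h3 l0 lm).trans (add_le_add (le_of_eq ?_) ?_)
  · obtain hcase : j = 1 ∨ j = 2 ∨ j = 3 := by omega
    rcases hcase with rfl | rfl | rfl <;> rfl
  · obtain gj := gm_le (K := K) hc (j := j) (by omega)
    have c3 : 0 ≤ c.ck * k.sl m := s0.trans c0
    have c4 := mul_le_mul_of_nonneg_right gj.2 c3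
    have c5 := mul_nonneg G0 c3
    refine nn_le ta hk hm hB gj.1 (by linarith only [hs, c1, c2, c4]) hc
      (fun x hx h4 h5 => le_trans ?_ (light x hx h4 h5)) l0 lm
    have := hk.1.η_mem x hx
    exact one_div_le_one_div_of_le (pow_pos this.1 _)
      (pow_le_pow_of_le_one this.1.le this.2 (by omega))

end Pool.Agent.MP_9cbfe4_an.ETA5

end

/-! ### Part J5X -/

section

/-! The dichotomy of J5 at the level of one skeleton, with one coarse slack `e^ls` (helper27). -/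

namespace Pool.Agent.MP_9cbfe4_an

open Finset Real

noncomputable section

namespace J5X

/-- `E ^ n * Y` gains a factor `1024` from one more `E` -/
theorem up {E Y : ℝ} (hE : 1024 ≤ E) (hY : 0 ≤ Y) (n : ℕ) : 1024 * (E ^ n * Y) ≤ E ^ (n + 1) * Y := by
  obtain E0 : 0 ≤ E := by linarith only [hE]
  obtain this := mul_le_mul_of_nonneg_right hE (by positivity : 0 ≤ E ^ n * Y)
  calc _ ≤ E * (E ^ n * Y) := this
    _ = _ := by ring

theorem up' {E Y : ℝ} (hE : 1024 ≤ E) (hY : 0 ≤ Y) (n : ℕ) : 1024 * (E ^ n * Y) ≤ E * (E ^ n * Y) :=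
  mul_le_mul_of_nonneg_right hE (mul_nonneg (pow_nonneg (by linarith only [hE]) _) hY)

theorem ge1 {E Y : ℝ} (hE : 1024 ≤ E) (hY : 0 ≤ Y) (n : ℕ) : Y ≤ E ^ n * Y :=
  le_mul_of_one_le_left hY (one_le_pow₀ (by linarith only [hE]))

/-- lower bound for the shift -/
theorem low {E A B d x S γ0 : ℝ} {n : ℕ} (hE : 1024 ≤ E) (B0 : 0 ≤ B) (x0 : 0 ≤ x) (S0 : 0 ≤ S)
    (hg : γ0 * E ^ (n + 1) ≤ 1 / 1024) (h1 : B ≤ 2 * d + 3 * S) (h2 : d ≤ E ^ n * A)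
    (h3 : A ≤ 3 * (x + 2 * S + γ0 * E * B)) : B ≤ E ^ (n + 1) * (x + S) := by
  obtain E0 : 0 ≤ E := by linarith only [hE]
  obtain a1 := mul_le_mul_of_nonneg_left h3 (by positivity : 0 ≤ E ^ n)
  have a2 := mul_le_mul_of_nonneg_right hg B0
  have a3 := ge1 hE S0 n
  have a4 := up hE (add_nonneg x0 S0) n
  obtain a5 : 0 ≤ E ^ n * x := by positivity
  obtain e1 : E ^ n * (3 * (x + 2 * S + γ0 * E * B))
      = 3 * (E ^ n * x) + 6 * (E ^ n * S) + 3 * (γ0 * E ^ (n + 1) * B) := by ring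
  obtain e2 : E ^ n * (x + S) = E ^ n * x + E ^ n * S := by ring
  linarith only [S0, h1, h2, a1, a2, a3, a4, a5, e1]

/-- the arithmetic of the dichotomy -/
theorem dich {E H dl ι δ ϖ β T1 T2 T3 S2 S3 x1 x2 x3 l1 l2 l3 e1 q s γ0 : ℝ} (hE : 1024 ≤ E)
    (hH : 1 ≤ H) (dl0 : 0 ≤ dl) (β1 : 1 ≤ β) (T10 : 0 ≤ T1) (hι : ι * β ≤ T1)
    (a1 : |l1| ≤ T1) (a2 : |l2| ≤ T2) (a3 : |l3| ≤ T3) (s2 : T2 + β * T1 ≤ S2)
    (s3 : T3 + S2 * β ≤ S3) (hϖ : ϖ ≤ E * dl + ι) (d1 : dl ≤ 2 * |δ| + 3 * ι)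
    (d2 : |δ| ≤ 2 * dl + 2 * ι) (s0 : 0 ≤ s) (hs : s ^ 2 = q) (q1 : β ^ 2 ≤ E ^ 10 * q)
    (q2 : q ≤ E ^ 24 * β ^ 2) (he : e1 ^ 2 ≤ E * q) (g0 : 0 ≤ γ0) (g1 : γ0 * E ^ 13 = 1)
    (z1 : |x1 - l1 - δ * e1| ≤ |δ| * s / 100 + γ0 * (ϖ * β + 32 * T1))
    (z2 : |x2 - l2 - δ * (e1 ^ 2 - 2 * q)| ≤ |δ| * q / 100
      + γ0 * (ϖ * β ^ 2 + E ^ 2 * S2 + β * (32 * T1)))
    (z3 : |x3 - l3| ≤ H * ϖ * β ^ 3 + γ0 * (E ^ 4 * S3 + β * (E ^ 2 * S2) + β ^ 2 * (32 * T1))) :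
    (dl * β ≤ E ^ 6 * (|x1| + T1) ∧ |x2| ≤ E ^ 26 * (dl * β ^ 2 + S2)) ∨
    (dl * β ^ 2 ≤ E ^ 11 * (|x2| + S2) ∧ |x3| ≤ H * E ^ 2 * (dl * β ^ 3 + S3)) := by
  obtain E0 : 0 < E := by linarith only [hE]
  obtain E1 : 1 ≤ E := by linarith only [hE]
  obtain β0 : 0 < β := by linarith only [β1]
  have T20 : 0 ≤ T2 := (abs_nonneg _).trans a2
  have T30 : 0 ≤ T3 := (abs_nonneg _).trans a3
  obtain bT : β * T1 ≤ S2 := by linarith only [s2, T20]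
  obtain bT0 : 0 ≤ β * T1 := by positivity
  have S20 : 0 ≤ S2 := bT0.trans bT
  obtain bS : S2 * β ≤ S3 := by linarith only [s3, T30]
  obtain bS0 : 0 ≤ S2 * β := by positivity
  have S30 : 0 ≤ S3 := bS0.trans bS
  obtain i2 : ι * β ^ 2 ≤ S2 := by linarith only [mul_le_mul_of_nonneg_right hι β0.le, bT]
  obtain i3 : ι * β ^ 3 ≤ S3 := by linarith only [mul_le_mul_of_nonneg_right i2 β0.le, bS]
  have δ0 := abs_nonneg δ
  have q0 : 0 ≤ q := hs ▸ sq_nonneg s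
  obtain gp : ∀ j : ℕ, j ≤ 12 → γ0 * E ^ j ≤ 1 / 1024 := fun j hj => by
    have h1 : γ0 * E ^ j ≤ γ0 * E ^ 12 := mul_le_mul_of_nonneg_left (pow_le_pow_right₀ E1 hj) g0
    have h2 := up' hE g0 12
    linarith only [h1, h2, g1]
  obtain p0 : γ0 ≤ 1 / 1024 := by simpa using gp 0 (by norm_num)
  obtain p1 : γ0 * E ≤ 1 / 1024 := by simpa using gp 1 (by norm_num)
  obtain p2 := gp 2 (by norm_num)
  obtain p4 := gp 4 (by norm_num)
  obtain r1 : γ0 * (ϖ * β + 32 * T1) ≤ γ0 * E * (dl * β) + T1 := by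
    obtain h1 : ϖ * β ≤ E * (dl * β) + T1 := by
      linarith only [mul_le_mul_of_nonneg_right hϖ β0.le, hι]
    linarith only [mul_le_mul_of_nonneg_left h1 g0, mul_le_mul_of_nonneg_right p0 T10, T10]
  obtain r2 : γ0 * (ϖ * β ^ 2 + E ^ 2 * S2 + β * (32 * T1)) ≤ γ0 * E * (dl * β ^ 2) + S2 := by
    obtain h1 : ϖ * β ^ 2 ≤ E * (dl * β ^ 2) + S2 := by
      linarith only [mul_le_mul_of_nonneg_right hϖ (sq_nonneg β), i2]
    linarith only [mul_le_mul_of_nonneg_left h1 g0, mul_le_mul_of_nonneg_left bT g0,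
      mul_le_mul_of_nonneg_right p0 S20, mul_le_mul_of_nonneg_right p2 S20, S20]
  obtain db0 : 0 ≤ dl * β := by positivity
  obtain db2 : 0 ≤ dl * β ^ 2 := by positivity
  obtain g2 : 0 ≤ γ0 * E * (dl * β ^ 2) := by positivity
  obtain dq : 0 ≤ |δ| * q := by positivity
  rcases le_total (s / 2) |e1| with c | c
  · refine Or.inl ⟨?_, ?_⟩
    · obtain sl : β ≤ E ^ 5 * s := by
        refine le_of_sq_le_sq ?_ (by positivity)
        calc β ^ 2 ≤ E ^ 10 * q := q1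
          _ = (E ^ 5 * s) ^ 2 := by rw [← hs]; ring
      obtain h1 : |δ| * (s / 2) ≤ |δ * e1| := by
        rw [abs_mul]; exact mul_le_mul_of_nonneg_left c δ0
      obtain h2 : |δ * e1| ≤ |x1| + |l1| + |x1 - l1 - δ * e1| := by
        obtain e : δ * e1 = x1 - l1 - (x1 - l1 - δ * e1) := by ring
        calc |δ * e1| = |x1 - l1 - (x1 - l1 - δ * e1)| := congrArg _ e
          _ ≤ _ := (abs_sub _ _).trans (by linarith only [abs_sub x1 l1])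
      obtain ds : 0 ≤ |δ| * s := by positivity
      refine low (A := |δ| * s) (d := |δ| * β) hE db0 (abs_nonneg _) T10 (gp 6 (by norm_num)) ?_ ?_ ?_
      · linarith only [mul_le_mul_of_nonneg_right d1 β0.le, hι]
      · linarith only [mul_le_mul_of_nonneg_left sl δ0]
      · linarith only [h1, h2, z1, r1, a1, ds]
    · obtain h1 : |e1 ^ 2 - 2 * q| ≤ (E + 2) * q := abs_le.2
        ⟨by linarith only [sq_nonneg e1, mul_nonneg E0.le q0], by linarith only [he, q0]⟩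
      obtain h2 : |x2| ≤ |l2| + |δ| * |e1 ^ 2 - 2 * q| + |x2 - l2 - δ * (e1 ^ 2 - 2 * q)| := by
        obtain e : x2 = l2 + δ * (e1 ^ 2 - 2 * q) + (x2 - l2 - δ * (e1 ^ 2 - 2 * q)) := by ring
        calc |x2| = |l2 + δ * (e1 ^ 2 - 2 * q) + (x2 - l2 - δ * (e1 ^ 2 - 2 * q))| := congrArg _ e
          _ ≤ _ := by rw [← abs_mul]; exact abs_add_three _ _ _
      have h3 := mul_le_mul_of_nonneg_left h1 δ0
      obtain h4 : |δ| * β ^ 2 ≤ 2 * (dl * β ^ 2 + S2) := by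
        linarith only [mul_le_mul_of_nonneg_right d2 (sq_nonneg β), i2]
      obtain h5 : |δ| * q ≤ E ^ 24 * (2 * (dl * β ^ 2 + S2)) := by
        calc |δ| * q ≤ |δ| * (E ^ 24 * β ^ 2) := mul_le_mul_of_nonneg_left q2 δ0
          _ = E ^ 24 * (|δ| * β ^ 2) := by ring
          _ ≤ _ := mul_le_mul_of_nonneg_left h4 (by positivity)
      have h6 := mul_le_mul_of_nonneg_right p1 db2
      obtain h7 : |x2| ≤ 2 * (E * (|δ| * q)) + 2 * (dl * β ^ 2 + S2) := by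
        linarith only [h2, h3, z2, r2, a2, s2, bT0, h6, db2, dq, mul_le_mul_of_nonneg_right hE dq]
      have h8 := mul_le_mul_of_nonneg_left h5 E0.le
      obtain Y0 : 0 ≤ dl * β ^ 2 + S2 := by positivity
      generalize dl * β ^ 2 + S2 = Y at h7 h8 Y0 ⊢
      linarith only [h7, h8, ge1 hE Y0 25, up' hE Y0 25, Y0]
  · refine Or.inr ⟨?_, ?_⟩
    · obtain c2 : e1 ^ 2 ≤ q / 4 := by
        have := pow_le_pow_left₀ (abs_nonneg e1) c 2
        rw [sq_abs] at this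
        linarith only [this, hs]
      obtain h0 : q ≤ |e1 ^ 2 - 2 * q| := by linarith only [neg_le_abs (e1 ^ 2 - 2 * q), c2, q0]
      have h1 := mul_le_mul_of_nonneg_left h0 δ0
      obtain h2 : |δ| * |e1 ^ 2 - 2 * q| ≤ |x2| + |l2| + |x2 - l2 - δ * (e1 ^ 2 - 2 * q)| := by
        obtain e : δ * (e1 ^ 2 - 2 * q) = x2 - l2 - (x2 - l2 - δ * (e1 ^ 2 - 2 * q)) := by ring
        rw [← abs_mul]
        calc |δ * (e1 ^ 2 - 2 * q)| = |x2 - l2 - (x2 - l2 - δ * (e1 ^ 2 - 2 * q))| := congrArg _ e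
          _ ≤ _ := (abs_sub _ _).trans (by linarith only [abs_sub x2 l2])
      refine low (A := |δ| * q) (d := |δ| * β ^ 2) hE db2 (abs_nonneg _) S20 (gp 11 (by norm_num))
        ?_ ?_ ?_
      · linarith only [mul_le_mul_of_nonneg_right d1 (sq_nonneg β), i2]
      · linarith only [mul_le_mul_of_nonneg_left q1 δ0]
      · linarith only [h1, h2, z2, r2, a2, s2, bT0, dq]
    · obtain h1 : |x3| ≤ |l3| + |x3 - l3| := by
        have := abs_add_le l3 (x3 - l3)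
        rwa [add_sub_cancel] at this
      obtain h2 : ϖ * β ^ 3 ≤ E * (dl * β ^ 3) + S3 := by
        linarith only [mul_le_mul_of_nonneg_right hϖ (by positivity : 0 ≤ β ^ 3), i3]
      obtain H0 : 0 ≤ H := by linarith only [hH]
      have h3 := mul_le_mul_of_nonneg_left h2 H0
      obtain h4 : β ^ 2 * T1 ≤ S3 := by linarith only [mul_le_mul_of_nonneg_right bT β0.le, bS]
      obtain h5 : γ0 * (E ^ 4 * S3 + β * (E ^ 2 * S2) + β ^ 2 * (32 * T1)) ≤ S3 := by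
        have k1 := mul_le_mul_of_nonneg_right p4 S30
        obtain k2 := mul_le_mul p2 bS bS0 (by norm_num)
        obtain k3 := mul_le_mul p0 h4 (by positivity) (by norm_num)
        linarith only [k1, k2, k3, S30]
      have h6 : S3 ≤ H * S3 := le_mul_of_one_le_left S30 hH
      obtain y1 : 0 ≤ H * (dl * β ^ 3) := by positivity
      obtain y2 : 0 ≤ H * S3 := by positivity
      obtain y3 : 0 ≤ E ^ 1 * (H * (dl * β ^ 3)) := by positivity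
      linarith only [h1, h3, h5, h6, z3, a3, s3, bS0, up' hE y1 1, up' hE y2 1, ge1 hE y2 1, y2, y3]

end J5X

end
end Pool.Agent.MP_9cbfe4_an

end

/-! ### Part J5I -/

section

/-! Sub-rows of J5.  One slack `S`; budget `S ^ 500`.  A row proves
`Hier fun c => deps c → X_s c` (or `∀ K, Hier fun c => deps → X_s K c`). -/

namespace Pool.Agent.MP_9cbfe4_an

open Finset Filter Topology Real

noncomputable section

/-- weight of the source at time `i` in the step from the free time `a` -/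
def Sk.ew (k : Sk) (a i : ℤ) : ℝ :=
  if i < a then k.E (k.nx a) a * exp (-(99 / 100) * k.chi i a)
  else if a < i ∧ a ∈ k.D then min (k.E (k.nx a) i) (exp (k.chi a i / 100) * k.V a 1)
  else k.E (k.nx a) i

/-- forward formula over one step, for any sequence with sources -/
def FW5_s (K : ℕ) (c : Cs) : Prop := ∀ M t g S k n, OC K c M t g S k n → g ≤ 8 →
  ∀ P Q : ℤ → ℝ, (∀ j, 1 ≤ j → j < n → P (j + 1) = S.a j * P j + S.b j * P (j - 1) + Q j) →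
  (∀ l, 1 ≤ l → l ≤ n →
    |P l| ≤ k.w l * (8 * (|P 1| + |P 0| + ∑ i ∈ Ico 1 l, k.E n i * |Q i|))) ∧
  ∀ a ∈ k.F, a < n → ∀ l, a < l → l ≤ k.nx a →
    |S.fr (a + 1) l| ≤ 8 * k.ew a a * k.w l ∧
    |P l - S.fr 1 l * (P a / S.fr 1 a) - S.fr (a + 1) l * Q a| ≤
      k.w l * (2000 * (∑ i ∈ (Ico 1 (k.nx a)).erase a, k.ew a i * |Q i| + |P 0|))

/-- the data of J5 -/
structure D5 where
  M : Mdl
  σ : Seed
  σ' : Seed
  t : ℝ
  g : ℝ
  k : Sk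
  m : ℤ
  B : ℤ
  st : ℤ
  γ : ℝ
  G : ℝ
  ls : ℝ
  ϖ : ℝ
  T : ℕ → ℝ

namespace D5
variable (K : ℕ) (c : Cs) (d : D5)
def H : Prop := 3 ≤ K ∧ c.Bud K (K + 1) ∧
  J5H K c d.M d.σ d.σ' d.t d.g d.k d.m d.B d.st d.γ d.G d.ls d.ϖ d.T
def O : Sq := d.σ.orb d.M d.t
def S : ℝ := exp (gm5 K d.γ / 1000 * d.ls)
def θ : ℝ := exp (-(gm5 K d.γ / 2 + d.G) * d.ls)
def η : ℝ := d.k.η d.st
def be : ℝ := 1 / d.k.η d.st ^ 2
def wb : ℝ := exp (d.k.W d.m)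
def D' : Finset ℤ := d.k.D' d.B d.st
def U : ℕ → ℝ
  | 0 => 0
  | 1 => d.T 1
  | 2 => d.T 2 + d.be * d.T 1
  | _ => d.T 3 + d.be * d.T 2 + d.be ^ 2 * d.T 1
def Y (a : ℕ) : ℝ := d.wb * d.U a + d.be ^ a
def Ym (a : ℕ) : ℝ := d.wb * d.U a + d.θ K * d.be ^ a
def p (a : ℕ) (l : ℤ) : ℝ := d.σ.pj d.M d.t a l
def z (a : ℕ) (l : ℤ) : ℝ := d.σ'.pj d.M d.t a l - d.σ.pj d.M d.t a l
def F (a : ℕ) (l : ℤ) : ℝ := d.z a (l + 1) - d.O.a l * d.z a l - d.O.b l * d.z a (l - 1)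
def P (a : ℕ) (l : ℤ) : ℝ := d.σ.gz d.M d.t (exp (-d.k.ch l / 2)) a l
def Z (a : ℕ) (l : ℤ) : ℝ := max |d.z a l| (exp (-d.k.ch l / 2) * |d.z a (l - 1)|)
def δ : ℝ := d.σ'.v d.t - d.σ.v d.t - d.O.nu1 d.m * (d.σ'.c d.t - d.σ.c d.t)
def β (x : ℤ) : ℝ := d.σ.bx d.M c d.t d.k x
def Lt (x : ℤ) : ℝ := d.σ.Lt d.M c d.t x
def ρ (x : ℤ) : ℝ := d.O.rho (d.O.fr 1) x (d.k.nx x)
def E1 (l : ℤ) : ℝ := d.Z 0 l ^ 2 * d.P 1 l + d.Z 0 l * d.Z 1 l
def E2 (l : ℤ) : ℝ :=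
  d.Z 0 l ^ 2 * d.P 2 l + d.Z 0 l * d.Z 2 l + d.Z 1 l ^ 2 + d.Z 0 l * (d.P 1 l + d.Z 1 l) ^ 2

/-- numbers -/
structure Num : Prop where
  big : exp ((40 * d.γ + 900) * d.ls) ≤ d.S K
  big' : 10 ^ 20 * (c.CG * c.L) * (d.m : ℝ) ≤ d.S K
  S1 : 10 ^ 20 ≤ d.S K
  m1 : 1 < d.m
  sl : 2 * d.k.sl d.m ≤ d.ls ∧ 2 * c.lam ≤ d.ls ∧ 1 ≤ c.lam
  θ0 : 0 < d.θ K
  θS : d.θ K * d.S K ^ 500 = exp (-d.G * d.ls) ∧ exp (-d.G * d.ls) ≤ 1
  ϖ0 : 0 ≤ d.ϖ
  κ : d.ϖ * d.wb * d.S K ^ 500 ≤ d.θ K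
  η0 : 0 < d.η
  ηθ : d.η ≤ d.θ K ^ 2
  wb1 : 1 ≤ d.wb
  be1 : 1 ≤ d.θ K * d.be
  U0 : ∀ a, 0 ≤ d.U a
  TU : ∀ a, 1 ≤ a → a ≤ 3 → d.T a ≤ d.U a
  YY : d.Y 1 * d.Y 1 ≤ d.S K * d.Y 2 ∧ d.Y 1 * d.Y 2 ≤ d.S K * d.Y 3 ∧
    d.Y 1 * d.Ym K 1 ≤ d.S K * d.Ym K 2
  Ym : ∀ a, 1 ≤ a → 1 ≤ d.Ym K a ∧ d.Ym K a ≤ d.Y a ∧ d.θ K * d.Y a ≤ d.Ym K a
  mem : ∀ x, x ∈ d.D' ↔ x ∈ d.k.D ∧ x < d.m ∧ d.k.η x ^ 2 ≤ d.η
  w : ∀ l, 0 ≤ l → l ≤ d.m → d.k.w4 l ≤ d.S K * d.wb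

/-- sizes of the jets of the reference -/
structure Pn : Prop where
  num : ∀ a l, 1 ≤ a → a ≤ 3 → 1 ≤ l → l < d.m → d.P a l ≤ d.S K * d.Ym K a
  full : ∀ a l (e : ℝ), 1 ≤ a → a ≤ 3 → 1 ≤ l → l < d.m → 0 ≤ e →
    e * d.k.w4 l * d.η ≤ d.S K → e * d.k.w4 l ^ 2 ≤ d.S K * d.wb →
    e * d.k.w l * d.P a l ≤ d.S K ^ 3 * d.Y a
  low : ∀ a l (e : ℝ), 1 ≤ a → a ≤ 3 → 1 ≤ l → l < d.m → 0 ≤ e →
    e * d.k.w4 l * d.η ≤ d.S K * d.θ K → e * d.k.w4 l ^ 2 ≤ d.S K * d.wb →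
    e * d.k.w l * d.P a l ≤ d.S K ^ 3 * d.Ym K a

/-- the weights -/
structure El : Prop where
  E : ∀ i, 1 ≤ i → i < d.m → 0 ≤ d.k.E d.m i ∧ d.k.E d.m i * d.k.w4 i * d.η ≤ d.S K ∧
    d.k.E d.m i * d.k.w4 i ^ 2 ≤ d.S K * d.wb
  ew : ∀ a ∈ d.k.F, a < d.m → ∀ i, 1 ≤ i → i < d.k.nx a → 0 ≤ d.k.ew a i ∧
    d.k.ew a i * exp (-(2 / 5) * d.k.chi 0 i) ≤ 8 ∧ d.k.ew a i * d.k.w4 i * d.η ≤ d.S K ∧
    d.k.ew a i * d.k.w4 i ^ 2 ≤ d.S K * d.wb ∧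
    (a ∉ d.D' → d.k.ew a i * d.k.w4 i * d.η ≤ d.S K * d.θ K)
  maj : ∀ x ∈ d.k.D, d.k.ew x x = 4 * d.k.V x 1

/-- order zero -/
structure Z0 : Prop where
  ini : ∀ a, a ≤ 3 → |d.z a 0| ≤ d.ϖ ∧ |d.z a 1| ≤ d.ϖ
  dl : |d.δ| ≤ 2 * d.ϖ
  sm : ∀ l, 0 ≤ l → l ≤ d.m → |d.z 0 l| ≤ 1 / 10000
  cr : ∀ l, 1 ≤ l → l ≤ d.m → d.Z 0 l ≤ 16 * d.ϖ * d.k.w l
  sh : ∀ l, 0 ≤ l → l ≤ d.m → |d.z 0 l - d.δ * d.O.fr 1 l| ≤
    d.ϖ * (d.θ K * d.k.w l + exp (-(2 / 5) * d.k.chi 0 l))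
  sh' : ∀ l, 1 ≤ l → l ≤ d.m → d.Z 0 l ≤ 8 * |d.δ| * d.k.w l +
    d.ϖ * (d.θ K * d.k.w l + exp (-(2 / 5) * d.k.chi 0 l))

/-- the sources -/
structure Src : Prop where
  f1 : ∀ l, 1 ≤ l → l < d.m → |d.F 1 l| ≤ c.CG * c.L * (d.Z 0 l * d.P 1 l + d.E1 l)
  f2 : ∀ l, 1 ≤ l → l < d.m →
    |d.F 2 l| ≤ c.CG * c.L * (d.Z 0 l * d.P 2 l + 2 * (d.Z 1 l * d.P 1 l) + d.E2 l)
  f3 : ∀ l, 1 ≤ l → l < d.m → ∀ m1 m2, m1 = d.P 1 l + d.Z 1 l → m2 = d.P 2 l + d.Z 2 l →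
    |d.F 3 l| ≤ c.CG * c.L * (d.Z 0 l * (d.P 3 l + d.Z 3 l) + 24 * (d.Z 0 l * (m1 * m2)
      + d.Z 0 l * m1 ^ 3 + d.Z 1 l * m2 + d.Z 2 l * m1 + d.Z 1 l * m1 ^ 2))
  g1 : ∀ x ∈ d.k.D, x < d.m → |d.F 1 x - d.Lt c x * (d.z 0 x * d.p 1 x)| ≤
    exp (-2 * c.bl) * (d.Z 0 x * d.P 1 x) + c.CG * c.L * d.E1 x
  g2 : ∀ x ∈ d.k.D, x < d.m →
    |d.F 2 x - d.Lt c x * (d.z 0 x * d.p 2 x + 2 * (d.z 1 x * d.p 1 x))| ≤
      exp (-2 * c.bl) * (d.Z 0 x * d.P 2 x + 2 * (d.Z 1 x * d.P 1 x)) + c.CG * c.L * d.E2 x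

/-- crude bounds -/
structure Cru : Prop where
  z1 : ∀ l, 1 ≤ l → l ≤ d.m → d.Z 1 l ≤ d.S K ^ 5 * d.ϖ * d.Y 1 * d.k.w l
  z2 : ∀ l, 1 ≤ l → l ≤ d.m → d.Z 2 l ≤ d.S K ^ 11 * d.ϖ * d.Y 2 * d.k.w l
  z3 : ∀ l, 1 ≤ l → l ≤ d.m → d.Z 3 l ≤ d.S K ^ 20 * d.ϖ * d.Y 3 * d.k.w l
  er : ∀ l (e : ℝ), 1 ≤ l → l < d.m → 0 ≤ e → e * d.k.w4 l * d.η ≤ d.S K →
    e * d.k.w4 l ^ 2 ≤ d.S K * d.wb →
    e * d.E1 l ≤ d.ϖ * d.Ym K 1 ∧ e * d.E2 l ≤ d.S K ^ 6 * d.ϖ * d.Ym K 2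

/-- jets of the reference near a major of `D'` -/
def Loc : Prop := ∀ x ∈ d.D', ∀ a, 1 ≤ a → a ≤ 2 →
  ∑ i ∈ (Ico 1 (d.k.nx x)).erase x, d.k.ew x i * d.k.w i * d.P a i ≤
    exp (-(9 / 10) * c.bl) * (|d.p a x| / d.k.η x) + d.S K ^ 10 * d.Ym K a ∧
  d.P a x ≤ 64 * |d.p a x| + d.S K ^ 10 * d.k.η x * d.Ym K a

/-- the numbers `β_x` -/
structure Bet : Prop where
  lo : exp (-10 * d.ls) * d.be ^ 2 ≤ ∑ x ∈ d.D', d.β c x ^ 2
  hi : ∑ x ∈ d.D', d.β c x ^ 2 ≤ exp ((2 * d.γ + 20) * d.ls) * d.be ^ 2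
  one : ∀ x ∈ d.D', |d.β c x| ≤ d.S K * d.be ∧ c.L * (|d.p 1 x| / d.k.η x) ≤ 1024 * |d.β c x| ∧
    c.L * (|d.p 2 x| / d.k.η x) ≤ 1024 * |d.Lt c x * d.p 2 x / d.ρ x| ∧
    d.k.η x ≤ 2048 * |d.ρ x| ∧ |d.Lt c x| ≤ c.L
  two : ∀ x ∈ d.D', |d.Lt c x * d.p 2 x / d.ρ x + d.β c x ^ 2| ≤
    4 * c.ep * d.β c x ^ 2 + d.S K ^ 30 * d.Ym K 2
end D5

/-- deps: TA -/
def NUM5_s (K : ℕ) (c : Cs) : Prop := ∀ d : D5, d.H K c → d.Num K c
/-- deps: TA, TB -/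
def PN5_s (K : ℕ) (c : Cs) : Prop := ∀ d : D5, d.H K c → d.Num K c → d.Pn K
/-- deps: TA, TC -/
def EL5_s (K : ℕ) (c : Cs) : Prop := ∀ d : D5, d.H K c → d.Num K c → d.El K
/-- deps: TA, SHD, QB, SOK -/
def Z05_s (K : ℕ) (c : Cs) : Prop := ∀ d : D5, d.H K c → d.Num K c → d.Z0 K
/-- deps: GEO, SOK; files FAM, J0D -/
def SRC5_s (K : ℕ) (c : Cs) : Prop := ∀ d : D5, d.H K c → d.Z0 K → d.Src c
/-- deps: TA, FW5 -/
def CRU5_s (K : ℕ) (c : Cs) : Prop := ∀ d : D5, d.H K c → d.Num K c → d.Pn K → d.El K → d.Z0 K →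
  d.Src c → d.Cru K
/-- deps: TA, TB, TC, J2A, J2B -/
def LOC5_s (K : ℕ) (c : Cs) : Prop := ∀ d : D5, d.H K c → d.Num K c → d.Pn K → d.El K → d.Loc K c
/-- deps: TA, D8C, J2 -/
def BET5_s (K : ℕ) (c : Cs) : Prop := ∀ d : D5, d.H K c → d.Num K c → d.Bet K c

end
end Pool.Agent.MP_9cbfe4_an

end

/-! ### Part TSI -/

section

/-! Statement of row TS: transfer from the true orbit to the seed orbit. -/

namespace Pool.Agent.MP_9cbfe4_an

open Finset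

noncomputable section

/-- `∑ PB(i,m) wh_i^3 / w_m^3` along the partner run of the fold time `n` -/
def Sq.S3 (c : Cs) (S : Sq) (n m : ℤ) : ℝ :=
  ∑ i ∈ Ico (n + 1) m, S.PB c (2 / 100) i m * S.wp c n i ^ 3 / S.wp c n m ^ 3

/-- hypotheses at the horizon `m` (absolute time); `(cv, cc)` = value and point of the seed -/
structure TSH (c : Cs) (M : Mdl) (t : ℝ) (S : Sq) (ξ : ℤ → ℝ) (n : ℤ) (Ls : List (ℤ × ℝ)) (m : ℤ)
    (cv cc η : ℝ) : Prop where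
  hM : M.OK c
  ht : TI t
  ho : IsOrb c M t S n
  hS : S.OK c
  hO : S.Out c ξ n
  hR : S.RInv c (S.fr (n + 1)) (n + 1) m
  hB : S.BInv c n Ls m
  box : Box c cc
  far : 1 ≤ dP cc
  near : ∃ h, Box c h ∧ cv = M.G t cc h ∧
    S.b n * |h - S.X (n - 1) - ξ (n - 1) / ξ n * (cc - S.X n)| ≤
      Real.exp (-c.bl / 4) * (cc - S.X n) ^ 2
  d0 : |cc - S.X n| ≤ η
  η0 : 0 < η
  rho : |S.rho ξ n m| ≤ c.CG * c.L * η
  small : 40 * c.CG * c.L * η ^ 2 * Real.exp (S.Wp c n m) ≤ 1 / c.lam ^ 2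

/-- conclusions; `T` is the seed orbit (time `0` is the fold), `v = 4 CG L η²` -/
structure TSC (c : Cs) (M : Mdl) (t : ℝ) (S : Sq) (n m : ℤ) (T : Sq) (η v : ℝ) : Prop where
  orb : IsOrb c M t T 1
  ts1 : ∀ l, n ≤ l → l ≤ m →
    |T.X (l - n) - S.X l| ≤ 4 * (v * S.wp c n l + η * Real.exp (-S.chi c n l / 2))
  tube : ∀ l, n ≤ l → l < m → |T.X (l - n) - S.X l| ≤ 400 / c.lam ^ 2
  coef : ∀ l, n < l → l < m →
    |T.a (l - n) - S.a l| ≤ 1000 * c.CG * c.L * (v * S.wp c n l + η * Real.exp (-S.chi c n l / 2)) ∧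
    |T.b (l - n) - S.b l| * S.wp c n (l - 1) ≤
      1000 * c.CG * c.L * (v * S.wp c n l + η * Real.exp (-S.chi c n l / 2)) * S.wp c n l ∧
    |M.gt t T (l - n) - M.gt t S l| ≤ v * S.wp c n l + η * Real.exp (-S.chi c n l / 2) ∧
    |T.ch1 c (l - n) - S.ch1 c l| ≤ c.a / 10 * S.ch1 c l ∧
    T.bb c (19 / 1000) (l - n) ≤ S.bb c (2 / 100) l
  b1 : |T.b 1 - S.b (n + 1)| ≤ 2 * c.dl * (v + η) ∧ T.kk 1 = 0
  tan : ∀ i B, n ≤ i → (∀ l, i < l → l ≤ m → |S.fr (i + 1) l| ≤ B * S.wp c n l) →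
    ∀ j, i < j → j ≤ m → |T.fr (i + 1 - n) (j - n) - S.fr (i + 1) j| ≤
      4000 * c.CG * (v * Real.exp (S.Wp c n j) + η * Real.exp (-c.bl / 3)) * B * S.wp c n j
  close : ∀ j, n < j → j ≤ m → |T.fr 1 (j - n) - S.fr (n + 1) j| ≤ S.wp c n j / 100
  ts2 : S.bb c (2 / 100) m * |T.X (m - n - 1) - S.X (m - 1)
      - S.fr (n + 1) (m - 1) / S.fr (n + 1) m * (T.X (m - n) - S.X m)| ≤
    60000 * c.CG * c.L * (v * S.wp c n m) ^ 2 * S.S3 c n m + 2 * η * Real.exp (-S.chi c n m / 2)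
  ts3 : S.bb c (2 / 100) m *
      |T.fr 1 (m - n - 1) / T.fr 1 (m - n) - S.fr (n + 1) (m - 1) / S.fr (n + 1) m| ≤
    8000 * c.CG * c.L * (v * S.wp c n m) * S.S3 c n m + η * Real.exp (-S.chi c n m / 4)
  s3 : S.S3 c n m ≤ 40 ∧ (S.kk m = 0 → S.S3 c n m ≤ Real.exp (-c.bl / 2))
  spd : ∀ Sg : ℝ, 1 ≤ Sg →
    (∀ j, n < j → j ≤ m → ∑ i ∈ Ico (n + 1) j, |S.fr (i + 1) j| ≤ Sg * S.wp c n j) →
    |∑ i ∈ Ioo 0 (m - n), T.fr (i + 1) (m - n) / T.fr 1 (m - n) * M.gt t T i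
      - ∑ i ∈ Ioo n m, S.fr (i + 1) m / S.fr (n + 1) m * M.gt t S i| ≤
      c.KS * (v * Real.exp (S.Wp c n m) + η) * Sg
  nu : ∀ j, n < j → j ≤ m → S.wp c n j = |S.fr (n + 1) j| →
    |T.nu1 (m - n) - T.nu1 (j - n)| ≤ Real.exp (-S.chi c n j / 2)

def TS_s (c : Cs) : Prop := ∀ M t S ξ n Ls m cv cc η, TSH c M t S ξ n Ls m cv cc η →
  TSC c M t S n m (M.orb t 1 (cv, cc)) η (4 * c.CG * c.L * η ^ 2)

end
end Pool.Agent.MP_9cbfe4_an

end

/-! ### Part HI -/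

section

/-! Row HI: high data are fold data at every lower level; bounds for the level `V`. -/

namespace Pool.Agent.MP_9cbfe4_an

open Finset

/-- bounds for the level `V` of a datum with capped depth -/
def HIV_s (c : Cs) : Prop := c.θb / (1 - c.θb) < c.κ →
  ∀ Ex : ExT, (∀ S ξ n Ls p r, Ex S ξ n Ls p r → Cstar c S ξ n Ls p r) →
  ∀ M : Mdl, M.OK c → ∀ d : Dat, d.Pre c Ex M →
  (d.S M).OK c ∧ (d.S M).Out c d.ξ d.n ∧ (d.S M).Wp c d.n d.p ≤ d.V c M ∧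
  d.V c M ≤ (2 + c.κ) * ((d.S M).Wp c d.n d.p + c.lam) ∧
  (d.Ls = [] → d.V c M ≤ c.lam) ∧
  ∀ m rm Ls0, d.Ls = (m, rm) :: Ls0 →
    (d.S M).BRun c Ex d.ξ d.n Ls0 m rm ∧
    (d.S M).Step c Ex ((d.S M).fr (d.n + 1)) (d.n + 1) m rm d.p ∧
    (d.S M).Wp c d.n d.p ≤ (d.S M).Wt c ((d.S M).fr (d.n + 1)) (d.n + 1) m rm + 5 ∧
    d.V c M ≤ (2 + c.κ) ^ 2 * ((d.S M).Wt c ((d.S M).fr (d.n + 1)) (d.n + 1) m rm + c.lam)

namespace HI

structure K (c : Cs) : Prop where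
  k1 : 1 / 16 ≤ c.k0
  k2 : c.k0 < 1 / 2
  κ : 0 < c.κ
  β1 : 1 ≤ c.β
  β : 12 * (c.C0 * (2 + c.κ) ^ 2) ≤ c.β
  lam : 10 * c.κ + 10 ≤ c.lam
  L : 2 ≤ c.L
  e3 : 0 < c.e3 ∧ c.e3 ≤ 1 / 3
  ε : c.ε = c.e3 ^ 20
  a : c.a ≤ (1 / (80 * (c.C0 * (2 + c.κ) ^ 2))) ^ 2
  M1 : 2 * (c.C0 * (2 + c.κ) ^ 2) ≤ c.M1
  C0 : 1 ≤ c.C0

theorem hK : Hier K := by
  have h1 := Hier.base
  have h2 := Hier.β_ge (fun _ => 1) fun _ _ _ => rfl
  have h3 := Hier.β_ge (fun c => 12 * (c.C0 * (2 + c.κ) ^ 2)) fun _ _ _ => rfl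
  have h4 := Hier.lam_ge (fun c => 10 * c.κ + 10) fun _ _ => rfl
  have h6 := Hier.L_ge (fun _ => 2) fun _ _ => rfl
  obtain h7 := Hier.e3_le (fun _ => 1 / 3) (fun _ _ _ _ _ _ _ _ => rfl) (Hier.of_all fun _ => by norm_num)
  have h8 := Hier.ε_eq
  have h11 := Hier.C0_ge fun _ _ _ _ => 1
  obtain h9 := Hier.a_le (fun c => (1 / (80 * (c.C0 * (2 + c.κ) ^ 2))) ^ 2) (fun _ _ _ _ _ _ => rfl)
    ((h1.and h11).mono fun c h => by
      have := h.1.2.2.2.2.1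
      obtain this : 0 < c.C0 := by linarith only [h.2]
      (rename_i zq0; clear * - this zq0; positivity))
  have h10 := Hier.M1_ge (fun c => 2 * (c.C0 * (2 + c.κ) ^ 2)) fun _ _ _ _ => rfl
  refine (h1.and (h2.and (h3.and (h4.and (h6.and (h7.and (h8.and (h9.and (h10.and
    h11))))))))).mono ?_
  rintro c ⟨a1, a2, a3, a4, a6, a7, a8, a9, a10, a11⟩
  exact ⟨a1.1, a1.2.1, a1.2.2.2.2.1, a2, a3, a4, a6, a7, a8, a9.2, a10, a11⟩

theorem K.chK {c : Cs} (h : K c) : c.chK ≤ c.bl := by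
  obtain k0 : 0 < c.k0 := by linarith only [h.k1]
  obtain h16 : 1 / c.k0 ≤ 16 := by rw [div_le_iff₀ k0]; linarith only [h.k1]
  obtain h3 : Real.log (1 / c.k0) ≤ 4 := by
    rw [Real.log_le_iff_le_exp (by positivity)]
    have h5 := Real.add_one_le_exp (1 : ℝ)
    obtain e : Real.exp 4 = Real.exp 1 ^ 4 := by rw [← Real.exp_nat_mul]; norm_num
    obtain h6 : (2 : ℝ) ^ 4 ≤ Real.exp 1 ^ 4 := pow_le_pow_left₀ (by norm_num) (by linarith only [h5]) 4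
    rw [e]; linarith only [h16, h6]
  obtain h4 : c.lam ≤ c.β * c.lam := le_mul_of_one_le_left (by linarith only [h.lam, h.κ]) h.β1
  unfold Cs.chK Cs.bl
  linarith only [h3, h4, h.lam, h.κ]

theorem exp_ge (n : ℕ) : (27 / 10 : ℝ) ^ n ≤ Real.exp n := by
  obtain e : Real.exp n = Real.exp 1 ^ n := by rw [← Real.exp_nat_mul]; norm_num
  rw [e]
  exact pow_le_pow_left₀ (by norm_num) (by linarith only [Real.exp_one_gt_d9]) n

theorem hiv {c : Cs} (h : K c) (hB : B1_s c) (h5 : B5_s c) (hS : SOK_s c) : HIV_s c := by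
  intro hκ Ex hEx M hM d H
  have hk := h.κ
  have hl := h.lam
  have hL := h.L
  have he0 := h.e3.1
  have he1 := h.e3.2
  obtain hε0 : 0 ≤ c.ε := by rw [h.ε]; (clear * - he0; positivity)
  obtain hε1 : c.ε ≤ 1 := by rw [h.ε]; exact pow_le_one₀ he0.le (by linarith only [he0, he1])
  have hcc : c.cc = c.ε * c.lam / 20 := rfl
  have hc1 : c.c1 = c.ε * c.lam / 2 := rfl
  obtain hel0 : 0 ≤ c.ε * c.lam := mul_nonneg hε0 (by linarith only [hk, hl, he0, he1])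
  obtain hel1 : c.ε * c.lam ≤ c.lam := by nlinarith only [hε1, hk, hl]
  obtain hok : (d.S M).OK c :=
    ((hS M hM d.t ⟨by linarith only [he0, he1, H.ht.1], by linarith only [he0, he1, H.ht.2]⟩).2.1 d.v H.hv).2
  have ht := H.tame _ le_rfl
  have hout : (d.S M).Out c d.ξ d.n := ⟨H.hn, H.sol, ht.1, ht.2.1⟩
  have hrun := H.run
  have hcap := H.cap
  have hsg := (h5 hκ Ex hEx _ _ _ _ _ _ hok hout H.run H.bd).2.2.1
  have hV : d.V c M = (d.S M).Wt c ((d.S M).fr (d.n + 1)) (d.n + 1) d.p d.r := rfl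
  rw [hV]
  generalize d.S M = S at *
  have hn := H.hn
  obtain hst : S.St c (S.fr (d.n + 1)) (d.n + 1) := by
    refine ⟨by omega, S.fr_sol _, S.fr_self _, ?_⟩
    rw [S.fr_pred, abs_zero]
    exact (Real.exp_pos _).le
  obtain ⟨hch, hri⟩ := (hB Ex S hok).1 _ _ _ _ _ hst hrun
  have hW0 : 0 ≤ S.Wp c d.n d.p := Real.log_nonneg (S.one_le_AA c _ _ _)
  have hWp : S.Wp c d.n d.p = S.WW c (S.fr (d.n + 1)) (d.n + 1) d.p := rfl
  obtain hlog : Real.log |S.fr (d.n + 1) d.p| ≤ S.Wp c d.n d.p + c.lam + 4 ∧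
      (d.p = d.n + 1 → Real.log |S.fr (d.n + 1) d.p| = 0 ∧ S.Wp c d.n d.p = 0) := by
    obtain hz : d.p = d.n + 1 → Real.log |S.fr (d.n + 1) d.p| = 0 ∧ S.Wp c d.n d.p = 0 := by
      intro e
      rw [hWp, e, S.fr_self]
      simp [Sq.WW, Sq.AA_self]
    refine ⟨?_, hz⟩
    rcases hri.le.eq_or_lt with e | e
    · rw [(hz e.symm).1]; linarith only [hk, hl, he0, he1, hW0]
    obtain ⟨-, -, hc⟩ := Sq.cert_wh hok h.k1 h.k2 (by linarith only [hk, hl, he0, he1]) h.chK hst hri.le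
    obtain ⟨b1, b2⟩ := hc (d.p - 1) (by omega)
    rw [sub_add_cancel] at b1 b2
    rw [hri.whm] at b1
    have hA := S.one_le_AA c (S.fr (d.n + 1)) (d.n + 1) d.p
    obtain b3 : |S.fr (d.n + 1) d.p| ≤ 6 * c.L * (6 * S.AA c (S.fr (d.n + 1)) (d.n + 1) d.p) :=
      b1.trans (mul_le_mul_of_nonneg_left b2 (by linarith only [hL, he0, he1]))
    rw [Real.log_le_iff_le_exp (abs_pos.2 hri.ne), Real.exp_add, Real.exp_add, hWp, Sq.WW,
      Real.exp_log (by linarith only [he0, he1, hA]), Cs.lam, Real.exp_log (by linarith only [hL, he0, he1])]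
    have b4 := exp_ge 4
    obtain b5 : 0 ≤ S.AA c (S.fr (d.n + 1)) (d.n + 1) d.p * c.L := by (clear * - hA hL; positivity)
    push_cast at b4
    nlinarith only [hL, he1, hA, b3, he0, b4, b5]
  obtain hs : S.sg c (S.fr (d.n + 1)) (d.n + 1) d.p / c.e3 ≤ S.Wp c d.n d.p + c.cc := by
    rw [div_le_iff₀ he0]
    refine hsg.trans ?_
    have a1 : c.e3 ^ 3 ≤ (1 / 3) ^ 3 := pow_le_pow_left₀ he0.le he1 3
    obtain a2 : 11 * c.ε' ≤ c.e3 := by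
      obtain this : c.ε' = c.e3 ^ 3 * c.e3 := by unfold Cs.ε'; ring
      rw [this]; nlinarith only [he0, he1, a1]
    obtain a3 : 0 ≤ S.Wp c d.n d.p + c.cc := by linarith only [hcc, hel0, hW0]
    nlinarith only [he0, he1, hcc, a2, hel0, hW0]
  obtain hW1 : S.Wt c (S.fr (d.n + 1)) (d.n + 1) d.p 0 ≤ S.Wp c d.n d.p + c.lam + 4 :=
    max_le (by linarith only [hk, hl, he0, he1, hWp]) (by linarith only [hlog.1])
  have hW2 := mul_le_mul_of_nonneg_left hW1 hk.le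
  obtain hkW : 0 ≤ c.κ * S.Wp c d.n d.p := by (clear * - hk hW0; positivity)
  obtain hkl : 0 ≤ c.κ * c.lam := mul_nonneg hk.le (by linarith only [hk, hl, he0, he1])
  obtain hmain : S.Wt c (S.fr (d.n + 1)) (d.n + 1) d.p d.r ≤ (2 + c.κ) * (S.Wp c d.n d.p + c.lam) := by
    refine max_le (by linarith only [hk, hl, he0, he1, hW0, hWp, hkW, hkl]) ?_
    have := hlog.1
    rcases le_max_iff.1 hcap with b | b <;> linarith only [hk, hl, he0, he1, hcc, hel1, hlog, hs, hkW, hkl, b, hc1, hW0, hW2]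
  refine ⟨hok, hout, le_max_left _ _, hmain, fun e => ?_, fun m rm Ls0 e => ?_⟩
  · rw [e] at hrun
    have ep := Sq.Run.nil c S hrun
    obtain ⟨z1, z2⟩ := hlog.2 ep
    obtain z3 : S.Wt c (S.fr (d.n + 1)) (d.n + 1) d.p 0 = 0 := by
      unfold Sq.Wt; rw [z1, ← hWp, z2]; simp
    rw [z3] at hcap
    refine max_le (by linarith only [hk, hl, he0, he1, hWp, z2]) ?_
    rw [z1]
    rcases le_max_iff.1 hcap with b | b <;> linarith only [hk, hl, he0, he1, hcc, hel1, hs, z2, b, hc1]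
  · rw [e] at hrun hch
    obtain ⟨r1, r2, -, -⟩ := Sq.Run.tail c S hrun
    obtain hstep : S.Step c Ex (S.fr (d.n + 1)) (d.n + 1) m rm d.p ∧
        S.RInv c (S.fr (d.n + 1)) (d.n + 1) m := by
      generalize d.p = p at hch
      cases hch with
      | cons a b _ => exact ⟨b, (Sq.Chain.rinv c S a).1⟩
    set U := S.Wt c (S.fr (d.n + 1)) (d.n + 1) m rm with hU
    have hAm := S.one_le_AA c (S.fr (d.n + 1)) (d.n + 1) m
    have u1 : S.WW c (S.fr (d.n + 1)) (d.n + 1) m ≤ U := le_max_left _ _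
    have u2 : Real.log |S.fr (d.n + 1) m| + rm ≤ U := le_max_right _ _
    have u0 : 0 ≤ U := le_trans (Real.log_nonneg hAm) u1
    obtain u3 : S.AA c (S.fr (d.n + 1)) (d.n + 1) m ≤ Real.exp U := by
      rw [← Real.log_le_iff_le_exp (by linarith only [he0, he1, hAm])]; exact u1
    obtain u4 : |S.fr (d.n + 1) m| * Real.exp rm ≤ Real.exp U := by
      have := Real.exp_le_exp.2 u2
      rwa [Real.exp_add, Real.exp_log (abs_pos.2 hstep.2.ne)] at this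
    obtain u5 : S.Wp c d.n d.p ≤ U + 5 := by
      have hA := S.one_le_AA c (S.fr (d.n + 1)) (d.n + 1) d.p
      rw [hWp, Sq.WW, Real.log_le_iff_le_exp (by linarith only [he0, he1, hA]), Real.exp_add]
      have b1 := hstep.1.A_hi
      have b4 := exp_ge 5
      have b5 := Real.exp_pos U
      push_cast at b4
      nlinarith only [he1, hAm, u3, u4, b1, b4, he0]
    refine ⟨⟨r1, r2⟩, hstep.1, u5, hmain.trans ?_⟩
    obtain u6 : S.Wp c d.n d.p + c.lam ≤ (2 + c.κ) * (U + c.lam) := by nlinarith only [hl, he0, he1, u0, u5, hk]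
    obtain this := mul_le_mul_of_nonneg_left u6 (show 0 ≤ 2 + c.κ by linarith only [hk, he0, he1])
    linarith only [this]

theorem main {c : Cs} (h : K c) (hv : HIV_s c) (N : ℕ) : HI_s N c := by
  intro hF M hM d H y hy1 hy2
  obtain ⟨-, hout, -, -, hnil, hcons⟩ := hv hF.2.1 _ (fun _ _ _ _ _ _ x => x.1) M hM d H
  have hk := h.κ
  have hl := h.lam
  have hC := h.C0
  have hβ := h.β
  have hbl : c.bl = c.β * c.lam := rfl
  set D := c.C0 * (2 + c.κ) ^ 2 with hD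
  obtain hD1 : c.C0 ≤ D := by rw [hD]; nlinarith only [hC, sq_nonneg c.κ, mul_pos hk (show 0 < c.C0 by linarith only [hC])]
  obtain hD0 : 0 < D := by linarith only [hC, hD1]
  obtain hDl : 12 * D * c.lam ≤ c.β * c.lam := mul_le_mul_of_nonneg_right hβ (by linarith only [hk, hl])
  refine ⟨hy1, ⟨by linarith only [H.ht.1], by linarith only [H.ht.2]⟩, H.hv, hout,
    fun y' hy' => H.tame y' (hy'.trans hy2), ?_⟩
  rcases e : d.Ls with _ | ⟨⟨m, rm⟩, Ls0⟩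
  · obtain a1 := mul_le_mul_of_nonneg_left (hnil e) (show 0 ≤ c.C0 by linarith only [hC])
    obtain a2 := mul_le_mul_of_nonneg_right hD1 (show 0 ≤ c.lam by linarith only [hk, hl])
    obtain a3 : 0 < D * c.lam := mul_pos hD0 (by linarith only [hk, hl])
    linarith only [hy1, hy2, hbl, hDl, a1, a2, a3]
  obtain ⟨hb, -, -, hV⟩ := hcons m rm Ls0 e
  refine ⟨Ls0, m, rm, hb, ?_⟩
  have c2 := hb.2.2.c2
  have bd := hb.2.1
  unfold Sq.Bd at bd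
  change y ≤ (d.S M).chi c d.n m ∧ |(d.S M).rho d.ξ d.n m| ≤ 1 / c.S0 y ^ 10
  set U := (d.S M).Wt c ((d.S M).fr (d.n + 1)) (d.n + 1) m rm with hU
  obtain y1 : y ≤ D * (U + c.lam) := by
    obtain this := mul_le_mul_of_nonneg_left hV (show 0 ≤ c.C0 by linarith only [hC])
    rw [hD]; linarith only [hy2, this]
  obtain y2 : 2 * c.lam ≤ U := by
    obtain this : D * (2 * c.lam) ≤ D * U := by linarith only [hy1, hbl, hDl, y1]
    exact le_of_mul_le_mul_left this hD0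
  obtain y3 : y ≤ 2 * D * U := by nlinarith only [hy1, hk, hl, hbl, hDl, y1, hC, hD1]
  obtain y0 : 0 ≤ y := by nlinarith only [hy1, hk, hl, hbl, hDl, hC, hD1]
  refine ⟨y3.trans ((mul_le_mul_of_nonneg_right h.M1 (by linarith only [hk, hl, y2])).trans c2), ?_⟩
  obtain s1 : Real.sqrt c.a ≤ 1 / (80 * D) := Real.sqrt_le_iff.2 ⟨by (clear * - hC hk; positivity), h.a⟩
  obtain s2 : Real.sqrt c.a * y ≤ U / 40 := by
    obtain a1 : Real.sqrt c.a * y ≤ 1 / (80 * D) * (2 * D * U) :=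
      mul_le_mul s1 y3 y0 (by positivity)
    obtain a2 : 1 / (80 * D) * (2 * D * U) = U / 40 := by field_simp; ring
    linarith only [a1, a2]
  obtain s3 : 1 / c.S0 y ^ 10 = Real.exp (-(10 * (Real.sqrt c.a * y))) := by
    rw [Cs.S0, ← Real.exp_nat_mul, Real.exp_neg, one_div]; norm_num
  rw [s3]
  refine abs_le_of_sq_le_sq' ?_ (Real.exp_pos _).le |> abs_le.2
  obtain s4 : c.cb * c.L ≤ Real.exp c.lam := by
    have hL := h.L
    rw [Cs.lam, Real.exp_log (by linarith only [hL])]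
    obtain this : c.cb ≤ 1 := by
      unfold Cs.cb
      rw [div_le_one (pow_pos (by linarith only [hk, hl]) 3)]
      exact one_le_pow₀ (by linarith only [hk, hl])
    nlinarith only [this, hL]
  obtain s5 : Real.exp c.lam ≤ Real.exp (-(10 * (Real.sqrt c.a * y))) ^ 2 * Real.exp U := by
    rw [← Real.exp_nat_mul, ← Real.exp_add]
    refine Real.exp_le_exp.2 ?_
    push_cast
    linarith only [y2, s2]
  exact le_of_mul_le_mul_right (bd.trans (s4.trans s5)) (Real.exp_pos U)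

end HI

theorem hiv : Hier fun c => B1_s c → B5_s c → SOK_s c → HIV_s c :=
  HI.hK.mono fun _ h a b e => HI.hiv h a b e

theorem hi (K : ℕ) : Hier fun c => B1_s c → B5_s c → SOK_s c → HI_s K c :=
  HI.hK.mono fun _ h a b e => HI.main h (HI.hiv h a b e) K

end Pool.Agent.MP_9cbfe4_an

end

/-! ### Part XCI -/

section

/-! Statements of the rows XC (the seed fits the skeleton of its datum) and JX. -/

namespace Pool.Agent.MP_9cbfe4_an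

open Finset Real

noncomputable section

/-- the seed `σ` of level `y` fits up to the free time `n` (relative time), tube of level `U` -/
structure XCC (K : ℕ) (c : Cs) (M : Mdl) (d : Dat) (y : ℝ) (σ : Seed) (n : ℤ) (U : ℝ) : Prop where
  jc : JC K c M σ d.t 2 (d.sk c M) n
  tube : JTube (d.sk c M) n (exp (-U)) 0 (exp (-U / 2)) 0 d.t d.t (d.O M) (σ.orb M d.t)
  win : ∀ t, |t - d.t| < 3 * c.rU y → σ.At K c t
  d7 : (d.sk c M).W n + 200 * (d.sk c M).sl n ≤ U → ∀ x ∈ (d.sk c M).D, x < n →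
    (d.sk c M).η x ≤ exp (-3 * (d.sk c M).σ x) → D7 M d.t 2 (σ.orb M d.t) (d.sk c M) x
  nu : |(σ.orb M d.t).nu1 n - (σ.orb M d.t).nu1 (σ.J - d.n)|
    ≤ exp (-(d.sk c M).chi 0 n / 2) + exp (-y / 2)

/-- general form, free level `U` -/
def XCU_s (K : ℕ) (c : Cs) : Prop := First K c → ∀ M : Mdl, M.OKk c (K + 6) → ∀ d : Dat,
  d.Pre c (Ex2 K c M) M → ∀ (y : ℝ) (σ : Seed), c.bl / 4 < y → y ≤ c.C0 * d.V c M →
  σ.OK K c (Ex2 K c M) M y d.toFd →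
  ∀ n ∈ (d.sk c M).F, ∀ U : ℝ, (d.sk c M).W n ≤ U → log ((d.sk c M).w n) ≤ U + 2 →
  (d.S M).rho d.ξ d.n d.p ^ 2 * exp U ≤ c.cb * c.L → 4 * U ≤ y → XCC K c M d y σ n U

/-- the fields `sm`, `xi`, `spd` of `Dat.JF` -/
def JX_s (K : ℕ) (c : Cs) : Prop := First K c → ∀ M : Mdl, M.OKk c (K + 6) →
  ∀ (sd : Fd → ℝ → Seed) (d : Dat), d.Pre c (Ex2 K c M) M → d.High c M →
  (d.seed c M sd).OK K c (Ex2 K c M) M (d.y c M) d.toFd →
  (∀ m, d.n ≤ m → ContDiffOn ℝ (K + 1 : ℕ) (d.g c M sd m)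
    (Set.Ioo (d.t - 3 * c.rU (d.y c M)) (d.t + 3 * c.rU (d.y c M)))) ∧
  (∀ σ m D ν R, d.Val K c M sd σ m D ν R →
    d.wq M m / 2 ≤ |d.xs c M sd m| ∧ |d.xs c M sd m| ≤ 2 * d.wq M m) ∧
  ∀ σ, d.s0 c M ≤ σ → σ ≤ d.W c M d.p →
    |(d.S M).rho d.ξ d.n d.p| ≤ exp (-2 * d.W c M d.p) →
    |deriv (d.g c M sd d.p) d.t - M.sgm c d.t (d.S M) d.ξ d.n d.p (c.C0 * d.V c M) * d.xs c M sd d.p|
      ≤ exp (σ - d.W c M d.p) * d.wq M d.p

end
end Pool.Agent.MP_9cbfe4_an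

end

/-! ### Part TRU -/

section

/-! Rows TSN, TRU, RET. -/

namespace Pool.Agent.MP_9cbfe4_an

open Finset Filter Topology

noncomputable section

namespace TRU

structure Num (c : Cs) : Prop where
  k0 : 1 / 16 ≤ c.k0
  k1 : c.k0 < 1 / 2
  cg : 1 ≤ c.CG
  a0 : 0 < c.a
  a1 : c.a ≤ 1 / 2
  be : 3 ≤ c.β
  L0 : 16 ≤ c.L
  l0 : 4000 ≤ c.lam
  l1 : 256000000 * c.CG ^ 2 * Real.exp 20 ≤ c.lam
  l2 : 80000 * c.CG * Real.exp 40 * c.lam ^ 4 ≤ Real.exp (1 / 2 * c.lam)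

theorem num : Hier Num := by
  obtain h1 := Hier.a_le (fun _ => 1 / 2) (fun _ _ _ _ _ _ => rfl) (Hier.of_all fun _ => by norm_num)
  have h2 := Hier.β_ge (fun _ => 3) fun _ _ _ => rfl
  have h3 := Hier.L_ge (fun _ => 16) fun _ _ => rfl
  have h4 := Hier.lam_ge (fun _ => 4000) fun _ _ => rfl
  have h5 := Hier.lam_ge (fun c => 256000000 * c.CG ^ 2 * Real.exp 20) fun _ _ => rfl
  obtain h6 := Hier.pow_le_exp (fun c => 80000 * c.CG * Real.exp 40) (fun _ => 1 / 2) 4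
    (fun _ _ => rfl) (fun _ _ => rfl) (Hier.of_all fun _ => by norm_num)
  refine (((((((Hier.base.and h1).and h2).and h3).and h4).and h5).and h6)).mono ?_
  rintro c ⟨⟨⟨⟨⟨⟨b, h1⟩, h2⟩, h3⟩, h4⟩, h5⟩, h6⟩
  exact ⟨b.1, b.2.1, b.2.2.2.2.2, h1.1, h1.2, h2, h3, h4, h5, h6⟩

variable {c : Cs}

theorem Num.eL (h : Num c) : Real.exp c.lam = c.L := Real.exp_log (by linarith only [h.L0])

theorem Num.l3 (h : Num c) : 4000 * c.CG ≤ c.lam := by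
  obtain e20 : 1 ≤ Real.exp 20 := Real.one_le_exp (by norm_num)
  have h1 := h.l1; have cg := h.cg
  obtain h2 : c.CG ≤ c.CG ^ 2 := by nlinarith only [cg]
  obtain h3 := le_mul_of_one_le_right (show 0 ≤ 256000000 * c.CG ^ 2 by positivity) e20
  linarith only [h1, cg, h2, h3]

theorem Num.chK (h : Num c) : 0 ≤ c.chK ∧ c.chK ≤ c.bl ∧ Real.exp (-c.chK) = c.k0 := by
  have k0 := h.k0; have k1 := h.k1
  obtain hp : 0 < c.k0 := by linarith only [k0, k1]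
  refine ⟨Real.log_nonneg (by rw [le_div_iff₀ hp]; linarith only [k1, hp]), ?_, ?_⟩
  · obtain this : c.chK ≤ 1 / c.k0 - 1 := Real.log_le_sub_one_of_pos (by positivity)
    obtain h16 : 1 / c.k0 ≤ 16 := by rw [div_le_iff₀ hp]; linarith only [k0]
    have := h.be; have := h.l0
    unfold Cs.bl; (rename_i zq1 zq0; nlinarith only [zq1, h16, zq0, this, k1, hp])
  · unfold Cs.chK; rw [Real.exp_neg, Real.exp_log (by positivity)]; simp

theorem Num.ebl (h : Num c) : Real.exp (-c.bl) ≤ c.k0 * c.L + 1 := by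
  obtain h1 : Real.exp (-c.bl) ≤ 1 := Real.exp_le_one_iff.2 (by linarith only [h.chK.1, h.chK.2.1])
  have := h.k0; have := h.L0
  (rename_i zq0; nlinarith only [h1, zq0, this])

theorem bb_le2 (h : Num c) (S : Sq) (l : ℤ) :
    S.bb c (2 / 100) l ≤ 2 * c.L * Real.exp (-S.ch1 c l) := by
  have k0 := h.k0; have L0 := h.L0
  unfold Sq.bb; split_ifs with hb
  · obtain this : S.ch1 c l = c.chK := by unfold Sq.ch1; rw [S.kk_eq_one.2 hb]; ring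
    rw [this, h.chK.2.2]; nlinarith only [k0, L0]
  · obtain h1 : Real.exp (-c.bl) ≤ Real.exp (-S.ch1 c l) :=
      Real.exp_le_exp.2 (by linarith only [(S.ch1_mem c h.chK.2.1 l).2])
    have := Real.exp_pos (-S.ch1 c l)
    nlinarith only [h1, this, L0]

/-- comparison of the bounds for `b` of two nearby orbits -/
theorem bb_cmp (h : Num c) (S S' : Sq) {l l' : ℤ} {θ θ' : ℝ}
    (h0 : |S'.X l' - S.X l| ≤ θ' - θ) (h1 : |S'.X (l' - 1) - S.X (l - 1)| ≤ θ' - θ) :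
    S.bb c θ l ≤ S'.bb c θ' l' := by
  have a0 := (abs_le.1 ((dP_lip (S'.X l') (S.X l)).trans h0)).2
  have a1 := (abs_le.1 ((dP_lip (S'.X (l' - 1)) (S.X (l - 1))).trans h1)).2
  unfold Sq.bb; split_ifs with hb hb' hb'
  · exact le_rfl
  · exact absurd ⟨by linarith only [a0, hb.1], by linarith only [a1, hb.2]⟩ hb'
  · exact h.ebl
  · exact le_rfl

/-- numerical part of TSN -/
theorem nums (h : Num c) {U x w η : ℝ} (hU : 0 ≤ U) (hx : 4 * U ≤ x)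
    (hw : Real.exp (-(c.a / 8 * x)) ≤ w) (hη : η ≤ 10 * Real.exp (-c.lam / 2 - U / 2)) :
    12 * (η * Real.exp (-x / 2)) ≤ Real.exp (-U - 20) * w / c.lam ^ 2 ∧
    2 * (η * Real.exp (-x / 4)) ≤ c.L * (Real.exp (-U - 20) * w / c.lam ^ 2) ∧
    4 * (η * Real.exp (-x / 2)) ≤ c.L * (Real.exp (-U - 20) * w / c.lam ^ 2) ^ 2 := by
  have l0 := h.l0; have cg := h.cg; have a1 := h.a1; have a0 := h.a0
  obtain hl : 0 < c.lam := by linarith only [l0, a1, a0]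
  obtain x0 : 0 ≤ x := by linarith only [hU, hx]
  obtain hw' : Real.exp (-x / 16) ≤ w := (Real.exp_le_exp.2 (by nlinarith only [hU, a1, hx])).trans hw
  obtain hk : 120 * c.lam ^ 4 ≤ Real.exp (c.lam / 2 - 40) := by
    rw [Real.exp_sub, le_div_iff₀ (Real.exp_pos _), show c.lam / 2 = 1 / 2 * c.lam by ring]
    obtain p : 0 ≤ Real.exp 40 * c.lam ^ 4 := by (clear * - l0; positivity)
    have := h.l2
    nlinarith only [p, this, cg]
  obtain hk2 : 120 * c.lam ^ 2 ≤ Real.exp (c.lam / 2 - 40) := by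
    refine le_trans ?_ hk
    obtain this : c.lam ^ 2 ≤ c.lam ^ 4 := pow_le_pow_right₀ (by linarith only [l0, a1, a0]) (by norm_num)
    linarith only [this]
  obtain hρ : Real.exp (-U - 20 - x / 16) / c.lam ^ 2 ≤ Real.exp (-U - 20) * w / c.lam ^ 2 := by
    refine div_le_div_of_nonneg_right ?_ (by positivity)
    rw [show -U - 20 - x / 16 = -U - 20 + -x / 16 by ring, Real.exp_add]
    exact mul_le_mul_of_nonneg_left hw' (Real.exp_pos _).le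
  obtain key : ∀ (k : ℕ) (y z : ℝ), 120 * c.lam ^ k ≤ Real.exp (c.lam / 2 - 40) →
      -40 - U / 2 + y ≤ z → 12 * (η * Real.exp y) ≤ Real.exp z / c.lam ^ k := by
    intro k y z hk hz
    rw [le_div_iff₀ (by positivity)]
    calc 12 * (η * Real.exp y) * c.lam ^ k
        ≤ 12 * (10 * Real.exp (-c.lam / 2 - U / 2) * Real.exp y) * c.lam ^ k := by gcongr
      _ = 120 * c.lam ^ k * (Real.exp (-c.lam / 2 - U / 2) * Real.exp y) := by ring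
      _ ≤ Real.exp (c.lam / 2 - 40) * (Real.exp (-c.lam / 2 - U / 2) * Real.exp y) := by (clear * - hk; gcongr)
      _ ≤ _ := by
        rw [← Real.exp_add, ← Real.exp_add]; exact Real.exp_le_exp.2 (by linarith only [hz])
  have L0 := h.L0
  obtain p2 : 0 ≤ Real.exp (-U - 20 - x / 16) / c.lam ^ 2 := by positivity
  refine ⟨(key 2 _ _ hk2 (by linarith only [hU, hx, a1, a0])).trans hρ, ?_, ?_⟩
  · obtain this := (key 2 (-x / 4) (-U - 20 - x / 16) hk2 (by linarith only [hU, hx, a1, a0])).trans hρ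
    have := p2.trans hρ
    (rename_i zq0; nlinarith only [hρ, p2, zq0, a1, a0, L0])
  · obtain h1 := key 4 (-x / 2) (-U - 20 - x / 16 + (-U - 20 - x / 16) + 0) hk (by linarith only [hx])
    obtain h2 : Real.exp (-U - 20 - x / 16 + (-U - 20 - x / 16) + 0) / c.lam ^ 4 =
        (Real.exp (-U - 20 - x / 16) / c.lam ^ 2) ^ 2 := by
      rw [add_zero, Real.exp_add]; field_simp
    have h3 := pow_le_pow_left₀ p2 hρ 2
    have h4 := sq_nonneg (Real.exp (-U - 20) * w / c.lam ^ 2)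
    rw [h2] at h1
    nlinarith only [h1, h3, L0]

theorem tsn0 (h : Num c) (hS : SOK_s c) (hT : TS_s c) : TSN_s c := by
  intro M φ c0 hh s U hM hn
  obtain ⟨fr, bx, leaf, adm, rho, lev⟩ := hn
  obtain ⟨Ls, bi⟩ := fr.binv
  have l0 := h.l0; have cg := h.cg; have L0 := h.L0
  obtain hl : 0 < c.lam := by linarith only [l0]
  obtain hL : 0 < c.L := by linarith only [L0]
  obtain ⟨_, s2, s3⟩ := hS M hM φ.t fr.ht
  obtain ⟨o0, ok⟩ := s2 φ.v fr.hv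
  have hns : φ.n + 1 ≤ s := fr.rinv.le
  have W0 : ∀ j, 0 ≤ (φ.S M).Wp c φ.n j := fun j => Real.log_nonneg ((φ.S M).one_le_AA c _ _ _)
  have hWU : (φ.S M).Wp c φ.n s ≤ U := lev.1
  have hU : 0 ≤ U := (W0 s).trans hWU
  obtain cb0 : 0 < c.cb := by unfold Cs.cb; (clear * - l0; positivity)
  obtain cb1 : c.cb ≤ 1 := by
    unfold Cs.cb; rw [div_le_one (by (clear * - l0; positivity))]; exact one_le_pow₀ (by linarith only [l0])
  obtain eU : Real.exp U * Real.exp (-U) = 1 := by rw [← Real.exp_add]; simp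
  have eU0 := Real.exp_pos (-U)
  obtain ⟨η, η0, hη⟩ : ∃ η : ℝ, 0 < η ∧ c.L * η ^ 2 = 100 * c.cb * Real.exp (-U) :=
    ⟨Real.sqrt (100 * c.cb * Real.exp (-U) / c.L), Real.sqrt_pos.2 (by (clear * - cb0 L0; positivity)), by
      rw [Real.sq_sqrt (by (clear * - cb0 L0; positivity))]; field_simp⟩
  obtain hη1 : η ≤ 10 * Real.exp (-c.lam / 2 - U / 2) := by
    refine (abs_le_of_sq_le_sq' ?_ (by positivity)).2
    obtain e : c.L * (10 * Real.exp (-c.lam / 2 - U / 2)) ^ 2 = 100 * Real.exp (-U) := by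
      rw [← h.eL, mul_pow, ← Real.exp_nat_mul, mul_left_comm, ← Real.exp_add]
      congr 1
      · norm_num
      · congr 1; push_cast; rw [show c.lam = Real.log (Real.exp c.lam) from (Real.log_exp _).symm]
        simp; ring
    refine le_of_mul_le_mul_left ?_ hL
    rw [hη, e, mul_assoc]
    exact mul_le_mul_of_nonneg_left (mul_le_of_le_one_left eU0.le cb1) (by norm_num)
  obtain H : TSH c M φ.t (φ.S M) φ.ξ φ.n Ls s (M.G φ.t c0 hh) c0 η := by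
    refine ⟨hM, fr.ht, (s3 _ 0 _ o0 fr.out.1).1, ok, fr.out, fr.rinv, bi, bx.1, bx.2.2,
      ⟨hh, bx.2.1, rfl, leaf⟩, ?_, η0, ?_, ?_⟩
    · refine abs_le.2 (abs_le_of_sq_le_sq' (le_of_mul_le_mul_left ?_ hL) η0.le)
      rw [hη]
      have := mul_le_mul_of_nonneg_right adm eU0.le
      rwa [mul_assoc (c.L * _), eU, mul_one] at this
    · refine abs_le.2 (abs_le_of_sq_le_sq' ?_ (by (clear * - cg L0 η0; positivity)))
      have h1 := mul_le_mul_of_nonneg_right rho eU0.le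
      rw [mul_assoc (_ ^ 2), eU, mul_one] at h1
      obtain h2 : 100 * c.cb * c.L * Real.exp (-U) = (c.L * η) ^ 2 := by
        rw [mul_pow, sq c.L, mul_assoc c.L, hη]; ring
      obtain h3 : (c.L * η) ^ 2 ≤ (c.CG * c.L * η) ^ 2 := by
        obtain this : 0 < c.L * η := by (clear * - L0 η0; positivity)
        rw [mul_assoc]; exact pow_le_pow_left₀ this.le (le_mul_of_one_le_left this.le cg) 2
      linarith only [h1, h2, h3]
    · obtain h1 : Real.exp (-U) * Real.exp ((φ.S M).Wp c φ.n s) ≤ 1 := by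
        rw [← Real.exp_add]; exact Real.exp_le_one_iff.2 (by linarith only [hWU])
      obtain h2 : 40 * c.CG * c.L * η ^ 2 * Real.exp ((φ.S M).Wp c φ.n s) =
          4000 * c.CG * c.cb * (Real.exp (-U) * Real.exp ((φ.S M).Wp c φ.n s)) := by
        rw [mul_assoc (40 * c.CG), hη]; ring
      obtain h3 : 4000 * c.CG * c.cb ≤ 1 / c.lam ^ 2 := by
        unfold Cs.cb
        rw [mul_one_div, div_le_div_iff₀ (by positivity) (by positivity)]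
        rw [one_mul, pow_succ' c.lam 2]
        exact mul_le_mul_of_nonneg_right h.l3 (by positivity)
      rw [h2]
      exact (mul_le_of_le_one_right (by (clear * - cg cb0; positivity)) h1).trans h3
  have C := hT _ _ _ _ _ _ _ _ _ _ H
  change TSC c M φ.t (φ.S M) φ.n s (φ.R M c0 hh) η _ at C
  obtain ⟨v, hv⟩ : ∃ v, v = 4 * c.CG * c.L * η ^ 2 := ⟨_, rfl⟩
  rw [← hv] at C
  obtain v0 : 0 ≤ v := by rw [hv]; (clear * - cg L0 η0; positivity)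
  obtain hv1 : 640000 * c.CG * v ≤ Real.exp (-U - 20) / c.lam ^ 2 := by
    obtain e : Real.exp (-U) = Real.exp (-U - 20) * Real.exp 20 := by rw [← Real.exp_add]; ring_nf
    rw [hv, mul_assoc (4 * c.CG), hη, e, le_div_iff₀ (by positivity)]
    unfold Cs.cb
    have h1 := h.l1
    have p := Real.exp_pos (-U - 20)
    obtain e2 : 640000 * c.CG * (4 * c.CG * (100 * (1 / c.lam ^ 3) * (Real.exp (-U - 20) * Real.exp 20)))
        * c.lam ^ 2 = Real.exp (-U - 20) * (256000000 * c.CG ^ 2 * Real.exp 20 / c.lam) := by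
      field_simp; ring
    rw [e2]
    exact mul_le_of_le_one_right p.le ((div_le_one hl).2 h1)
  have ws : (φ.S M).wp c φ.n s = |φ.f M s| := fr.rinv.whm
  have wn : ∀ j, 0 ≤ (φ.S M).wp c φ.n j := fun j => (φ.S M).wh_nonneg c _ _ _
  obtain ⟨n1, n2, n3⟩ := nums h hU lev.2.2 (bi.i6 s (by omega) le_rfl).2.1 hη1
  obtain er : φ.res M s U / c.lam ^ 2 = Real.exp (-U - 20) * (φ.S M).wp c φ.n s / c.lam ^ 2 := by
    rw [ws]; rfl
  rw [er]
  obtain ⟨w, hw⟩ : ∃ w, w = (φ.S M).wp c φ.n s := ⟨_, rfl⟩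
  have w0 : 0 ≤ w := hw ▸ wn s
  obtain hvw : 640000 * c.CG * (v * w) ≤ Real.exp (-U - 20) * w / c.lam ^ 2 := by
    have := mul_le_mul_of_nonneg_right hv1 w0
    calc _ = 640000 * c.CG * v * w := by ring
      _ ≤ _ := this
      _ = _ := by ring
  obtain t2 := C.ts2; have t3 := C.ts3; have t1 := C.ts1 s (by omega) le_rfl
  obtain t0 := C.ts1 (s - 1) (by omega) (by omega)
  obtain dec : (φ.S M).wp c φ.n (s - 1) * Real.exp (-(φ.S M).chi c (s - 1) s / 2) ≤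
      (φ.S M).wp c φ.n s := (φ.S M).wh_decay' c _ _ (by omega)
  rw [← hw] at n1 n2 n3 t1 t2 t3 dec ⊢
  obtain ⟨ρ, hρ⟩ : ∃ ρ, ρ = Real.exp (-U - 20) * w / c.lam ^ 2 := ⟨_, rfl⟩
  rw [← hρ] at n1 n2 n3 hvw ⊢
  have vw0 : 0 ≤ v * w := mul_nonneg v0 w0
  obtain hvw' : 12 * (v * w) ≤ ρ :=
    (mul_le_mul_of_nonneg_right (by linarith only [cg]) vw0).trans hvw
  obtain ρ0 : 0 ≤ ρ := by linarith only [vw0, hvw']
  obtain es : s - 1 - φ.n = s - φ.n - 1 := by ring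
  refine ⟨fun i h1 h2 => ?_, fun i h1 h2 => ?_, by linarith only [t1, hvw', n1, ρ0], ?_, ?_, ?_, ?_⟩
  · refine (C.ts1 i h1 h2).trans ?_
    obtain a1 : 4 * v ≤ Real.exp (-U - 20) / c.lam ^ 2 :=
      (mul_le_mul_of_nonneg_right (by linarith only [cg]) v0).trans hv1
    have a2 := mul_le_mul_of_nonneg_right a1 (wn i)
    obtain a3 : 40 ≤ Real.exp (c.lam / 6) := by linarith only [l0, Real.add_one_le_exp (c.lam / 6)]
    obtain a4 : 4 * (η * Real.exp (-(φ.S M).chi c φ.n i / 2)) ≤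
        Real.exp (-U / 2 - (φ.S M).chi c φ.n i / 2 - c.lam / 3) := by
      calc _ ≤ 4 * (10 * Real.exp (-c.lam / 2 - U / 2) * Real.exp (-(φ.S M).chi c φ.n i / 2)) := by
            (clear * - hη1; gcongr)
        _ = 40 * (Real.exp (-c.lam / 2 - U / 2) * Real.exp (-(φ.S M).chi c φ.n i / 2)) := by ring
        _ ≤ Real.exp (c.lam / 6) *
            (Real.exp (-c.lam / 2 - U / 2) * Real.exp (-(φ.S M).chi c φ.n i / 2)) := by (clear * - a3; gcongr)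
        _ = _ := by rw [← Real.exp_add, ← Real.exp_add]; congr 1; ring
    linarith only [a2, a4]
  · obtain a0 := C.tan φ.n 1 le_rfl (fun l h1 _ => by
      rw [one_mul]; exact (φ.S M).abs_le_wh c _ (by omega)) i h1 h2
    rw [add_sub_cancel_left, mul_one] at a0
    refine a0.trans ?_
    rw [div_eq_inv_mul _ (c.lam ^ 2)]
    refine mul_le_mul_of_nonneg_right ?_ (wn i)
    obtain a1 : Real.exp ((φ.S M).Wp c φ.n i) ≤ Real.exp U := by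
      refine Real.exp_le_exp.2 (le_trans ?_ hWU)
      exact Real.log_le_log (lt_of_lt_of_le one_pos ((φ.S M).one_le_AA c _ _ _))
        ((φ.S M).AA_mono c _ _ h2)
    obtain a2 : Real.exp (-U - 20) / c.lam ^ 2 * Real.exp U ≤ (c.lam ^ 2)⁻¹ := by
      rw [div_mul_eq_mul_div, ← Real.exp_add, ← one_div]
      exact div_le_div_of_nonneg_right (Real.exp_le_one_iff.2 (by linarith only [])) (by positivity)
    obtain a3 := mul_le_mul hv1 a1 (Real.exp_pos _).le (by positivity)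
    obtain a4 : η * Real.exp (-c.bl / 3) ≤ 10 * Real.exp (-(1 / 2 * c.lam)) := by
      obtain b1 : Real.exp (-c.bl / 3) ≤ 1 :=
        Real.exp_le_one_iff.2 (by linarith only [h.chK.1, h.chK.2.1])
      obtain b2 : Real.exp (-c.lam / 2 - U / 2) ≤ Real.exp (-(1 / 2 * c.lam)) :=
        Real.exp_le_exp.2 (by linarith only [hU])
      have := mul_le_of_le_one_right η0.le b1
      linarith only [hη1, b2, this]
    obtain a5 : 80000 * c.CG * Real.exp (-(1 / 2 * c.lam)) ≤ (c.lam ^ 2)⁻¹ := by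
      rw [Real.exp_neg, ← div_eq_mul_inv, ← one_div, div_le_div_iff₀ (Real.exp_pos _) (by positivity),
        one_mul]
      refine le_trans ?_ h.l2
      obtain b1 : c.lam ^ 2 ≤ c.lam ^ 4 := pow_le_pow_right₀ (by linarith only [l0]) (by norm_num)
      obtain b2 : 1 ≤ Real.exp 40 := Real.one_le_exp (by norm_num)
      have b3 : c.lam ^ 2 ≤ Real.exp 40 * c.lam ^ 4 :=
        b1.trans (le_mul_of_one_le_left (pow_pos hl 4).le b2)
      rw [mul_assoc (80000 * c.CG)]; (clear * - b3 cg; gcongr)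
    obtain a6 := mul_le_mul_of_nonneg_left a4 (show 0 ≤ 4000 * c.CG by positivity)
    obtain a7 : 0 ≤ (c.lam ^ 2)⁻¹ := by positivity
    linarith only [a2, a3, a5, a6, a7]
  · rw [← es]; refine (C.tube (s - 1) (by omega) (by omega)).trans ?_
    rw [div_le_div_iff₀ (by positivity) hl, one_mul, sq]
    exact mul_le_mul_of_nonneg_right (by linarith only [l0]) hl.le
  · rw [es] at t0
    obtain e1 : (φ.S M).ch1 c s = (φ.S M).chi c (s - 1) s := by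
      have := (φ.S M).chi_succ c (s - 1); rw [sub_add_cancel] at this; exact this.symm
    have b1 := bb_le2 h (φ.S M) s
    obtain ⟨q, hq⟩ : ∃ q, q = Real.exp (-(φ.S M).chi c (s - 1) s / 2) := ⟨_, rfl⟩
    have q0 : 0 < q := hq ▸ Real.exp_pos _
    obtain e2 : Real.exp (-(φ.S M).ch1 c s) = q ^ 2 := by
      rw [hq, e1, ← Real.exp_nat_mul]; congr 1; push_cast; ring
    obtain e3 := (φ.S M).exp_chi_add c (show φ.n ≤ s - 1 by omega) (show s - 1 ≤ s by omega)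
    rw [← hq] at dec e3
    rw [e2] at b1
    have b2 := mul_le_mul_of_nonneg_right t0 q0.le
    have b3 := mul_le_mul_of_nonneg_left dec v0
    obtain b4 : |(φ.R M c0 hh).X (s - φ.n - 1) - (φ.S M).X (s - 1)| * q ≤ 2 / 3 * ρ := by
      rw [e3] at n1; linarith only [n1, b2, b3, hvw']
    obtain b5 := pow_le_pow_left₀ (by (clear * - q0; positivity)) b4 2
    rw [mul_pow, sq_abs] at b5
    have b6 := mul_le_mul_of_nonneg_right b1
      (sq_nonneg ((φ.R M c0 hh).X (s - φ.n - 1) - (φ.S M).X (s - 1)))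
    have b7 := mul_le_mul_of_nonneg_left b5 hL.le
    linarith only [b6, b7, mul_nonneg hL.le (sq_nonneg ρ)]
  · refine le_trans t2 ?_
    obtain a1 : 60000 * c.CG * c.L * (v * w) ^ 2 * (φ.S M).S3 c φ.n s ≤
        60000 * c.CG * c.L * (v * w) ^ 2 * 40 := mul_le_mul_of_nonneg_left C.s3.1 (by (clear * - cg L0; positivity))
    obtain a2 := pow_le_pow_left₀ (by (clear * - cg v0 w0; positivity)) hvw 2
    obtain a3 : 4800000 * c.CG * (v * w) ^ 2 ≤ (640000 * c.CG * (v * w)) ^ 2 := by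
      rw [mul_pow (640000 * c.CG)]
      exact mul_le_mul_of_nonneg_right (by nlinarith only [cg]) (sq_nonneg _)
    have a4 := mul_le_mul_of_nonneg_left (a3.trans a2) hL.le
    linarith only [a1, a4, n3]
  · refine le_trans t3 ?_
    obtain a1 : 8000 * c.CG * c.L * (v * w) * (φ.S M).S3 c φ.n s ≤
        8000 * c.CG * c.L * (v * w) * 40 := mul_le_mul_of_nonneg_left C.s3.1 (by (clear * - cg L0 v0 w0; positivity))
    have a4 := mul_le_mul_of_nonneg_left hvw hL.le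
    linarith only [a1, a4, n2]

/-- real-number core of TRU -/
theorem core {L B κ ℓ e u u1 A A1 A' A1' sR sR' sT sT' : ℝ} (hL : 0 ≤ L) (hB : 0 ≤ B)
    (e0 : 0 ≤ e) (e1 : 20 * e ≤ ℓ) (e2 : e ≤ κ * ℓ) (hA : |A| ≤ e) (hA' : |A'| ≤ e)
    (p : B * A1 ^ 2 ≤ L * e ^ 2) (p' : B * A1' ^ 2 ≤ L * e ^ 2)
    (d : B * |A1 - sT * A| ≤ L * e ^ 2) (d' : B * |A1' - sT' * A'| ≤ L * e ^ 2)
    (s : B * |sR - sT| ≤ L * e) (s' : B * |sR' - sT'| ≤ L * e)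
    (r0 : B * u1 ^ 2 ≤ κ * L * (|u| + ℓ) ^ 2) (r1 : B * |u1 - sR * u| ≤ κ * L * (|u| + ℓ) ^ 2)
    (r2 : B * |sR' - sR| ≤ κ * L * (|u| + ℓ)) (hκ : 0 ≤ κ) :
    B * (u1 + A1 - A1') ^ 2 ≤ 20 * κ * L * (|u + A - A'| + ℓ) ^ 2 ∧
    B * |u1 + A1 - A1' - sT * (u + A - A')| ≤ 20 * κ * L * (|u + A - A'| + ℓ) ^ 2 ∧
    B * |sT' - sT| ≤ 20 * κ * L * (|u + A - A'| + ℓ) := by
  obtain ⟨D, hD⟩ : ∃ D, D = |u + A - A'| + ℓ := ⟨_, rfl⟩
  rw [← hD]
  obtain l0 : 0 ≤ ℓ := by linarith only [e0, e1]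
  obtain lD : ℓ ≤ D := by rw [hD]; linarith only [abs_nonneg (u + A - A')]
  obtain D0 : 0 ≤ D := by linarith only [e0, e1, lD]
  obtain uD : |u| + ℓ ≤ 11 / 10 * D := by
    obtain this : |u| ≤ |u + A - A'| + |A| + |A'| := by
      obtain e : u = (u + A - A') - A + A' := by ring
      calc |u| = |(u + A - A') - A + A'| := by rw [← e]
        _ ≤ _ := (abs_add_le _ _).trans (by gcongr; exact abs_sub _ _)
    linarith only [e1, hA, hA', hD, lD, this]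
  have u0 := abs_nonneg u
  have K0 : 0 ≤ κ * L := mul_nonneg hκ hL
  have k1 : κ * L * (|u| + ℓ) ≤ κ * L * (11 / 10 * D) := mul_le_mul_of_nonneg_left uD K0
  obtain k2 : κ * L * (|u| + ℓ) ^ 2 ≤ κ * L * (11 / 10 * D) ^ 2 := by gcongr
  obtain k3 : L * e ≤ κ * L * D := by
    have := mul_le_mul_of_nonneg_left (e2.trans (mul_le_mul_of_nonneg_left lD hκ)) hL
    linarith only [this]
  obtain k4 : L * e * e ≤ κ * L * D * D :=
    mul_le_mul k3 (by linarith only [e0, e1, lD]) e0 (mul_nonneg K0 D0)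
  have k5 : 0 ≤ κ * L * D := mul_nonneg K0 D0
  have k6 : 0 ≤ κ * L * D * D := mul_nonneg k5 D0
  obtain h3 : B * |sT' - sT| ≤ 31 / 10 * (κ * L * D) := by
    obtain this : |sT' - sT| ≤ |sR' - sR| + |sR - sT| + |sR' - sT'| := by
      obtain e : sT' - sT = (sR' - sR) + (sR - sT) - (sR' - sT') := by ring
      rw [e]; exact (abs_sub _ _).trans (by gcongr; exact abs_add_le _ _)
    have := mul_le_mul_of_nonneg_left this hB
    linarith only [s, s', r2, k1, k3, this]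
  refine ⟨?_, ?_, by linarith only [k5, h3]⟩
  · obtain this : (u1 + A1 - A1') ^ 2 ≤ 3 * (u1 ^ 2 + A1 ^ 2 + A1' ^ 2) := by
      nlinarith only [sq_nonneg (u1 - A1), sq_nonneg (u1 + A1'), sq_nonneg (A1 + A1')]
    have := mul_le_mul_of_nonneg_left this hB
    linarith only [p, p', r0, k2, k4, k6, this]
  · obtain e : u1 + A1 - A1' - sT * (u + A - A') = (u1 - sR * u) + (sR - sT) * u + (A1 - sT * A)
        - (A1' - sT' * A') - (sT' - sT) * A' := by ring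
    obtain h1 : |u1 + A1 - A1' - sT * (u + A - A')| ≤ |u1 - sR * u| + |sR - sT| * |u| + |A1 - sT * A|
        + |A1' - sT' * A'| + |sT' - sT| * |A'| := by
      rw [e, ← abs_mul, ← abs_mul]
      refine (abs_sub _ _).trans (add_le_add_left ((abs_sub _ _).trans (add_le_add_left
        ((abs_add_le _ _).trans (add_le_add_left (abs_add_le _ _) _)) _)) _)
    have h2 := mul_le_mul_of_nonneg_left h1 hB
    obtain h4 : B * |sR - sT| * |u| ≤ κ * L * D * (11 / 10 * D) :=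
      mul_le_mul (s.trans k3) (by linarith only [e0, e1, uD]) u0 k5
    obtain h5 : B * |sT' - sT| * |A'| ≤ 31 / 10 * (κ * L * D) * D :=
      mul_le_mul h3 (by linarith only [e0, e1, hA', lD]) (abs_nonneg _) (by linarith only [k5])
    linarith only [d, d', r1, k2, k4, k6, h2, h4, h5]

theorem res_le (h : Num c) {M : Mdl} {φ : Fd} {c0 hh U : ℝ} {s : ℤ} (hn : φ.Near c M c0 hh s U) :
    0 ≤ φ.res M s U ∧ φ.res M s U / c.lam ^ 2 ≤ 1 / c.lam := by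
  have l0 := h.l0
  obtain hl : 0 < c.lam := by linarith only [l0]
  have h1 : |φ.f M s| ≤ Real.exp (U + 2) :=
    (Real.log_le_iff_le_exp (abs_pos.2 hn.fr.rinv.ne)).1 hn.lev.2.1
  obtain h2 : φ.res M s U ≤ 1 := by
    refine (mul_le_mul_of_nonneg_left h1 (Real.exp_pos _).le).trans ?_
    rw [← Real.exp_add]; exact Real.exp_le_one_iff.2 (by linarith only [])
  refine ⟨mul_nonneg (Real.exp_pos _).le (abs_nonneg _), ?_⟩
  exact div_le_div₀ zero_le_one h2 hl (by nlinarith only [l0])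

theorem tru0 (h : Num c) (hT : TSN_s c) : TRU_s c := by
  intro M φ φ' c0 hh c0' hh' j U U' θ κ ℓ μ hM hn hn' hθ hκ hμ hr hr' R
  have l0 := h.l0; have L0 := h.L0
  obtain hl : 0 < c.lam := by linarith only [l0]
  obtain hL : 0 < c.L := by linarith only [L0]
  obtain l2 : 0 < c.lam ^ 2 := by positivity
  obtain ⟨-, -, a0, a1, a2, a3, a4⟩ := hT M φ c0 hh _ U hM hn
  obtain ⟨-, -, b0, b1, b2, b3, b4⟩ := hT M φ' c0' hh' _ U' hM hn'
  rw [add_sub_cancel_left] at a0 a1 a2 a3 a4 b0 b1 b2 b3 b4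
  obtain ⟨r0, r1⟩ := res_le h hn
  obtain ⟨r0', r1'⟩ := res_le h hn'
  obtain il : 1 / c.lam ≤ 1 / 4000 := one_div_le_one_div_of_le (by norm_num) l0
  have ℓ0 : 0 ≤ ℓ := r0.trans hr
  have er : φ.res M (φ.n + j) U / c.lam ^ 2 ≤ ℓ / c.lam ^ 2 := div_le_div_of_nonneg_right hr l2.le
  have er' : φ'.res M (φ'.n + j) U' / c.lam ^ 2 ≤ ℓ / c.lam ^ 2 :=
    div_le_div_of_nonneg_right hr' l2.le
  have q1 := mul_le_mul_of_nonneg_left er hL.le
  have q1' := mul_le_mul_of_nonneg_left er' hL.le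
  have q2 := mul_le_mul_of_nonneg_left (pow_le_pow_left₀ (div_nonneg r0 l2.le) er 2) hL.le
  have q2' := mul_le_mul_of_nonneg_left (pow_le_pow_left₀ (div_nonneg r0' l2.le) er' 2) hL.le
  obtain e0 : (φ'.S M).X (φ'.n + j) - (φ.S M).X (φ.n + j) =
      ((φ'.R M c0' hh').X j - (φ.R M c0 hh).X j) + ((φ.R M c0 hh).X j - (φ.S M).X (φ.n + j))
        - ((φ'.R M c0' hh').X j - (φ'.S M).X (φ'.n + j)) := by ring
  obtain e1 : (φ'.S M).X (φ'.n + j - 1) - (φ.S M).X (φ.n + j - 1) =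
      ((φ'.R M c0' hh').X (j - 1) - (φ.R M c0 hh).X (j - 1))
        + ((φ.R M c0 hh).X (j - 1) - (φ.S M).X (φ.n + j - 1))
        - ((φ'.R M c0' hh').X (j - 1) - (φ'.S M).X (φ'.n + j - 1)) := by ring
  have tri : ∀ x y z : ℝ, |x + y - z| ≤ |x| + |y| + |z| := fun x y z =>
    (abs_sub _ _).trans (add_le_add_left (abs_add_le _ _) _)
  obtain s0 : |(φ'.S M).X (φ'.n + j) - (φ.S M).X (φ.n + j)| ≤ 1 / 1000 := by
    rw [e0]; refine (tri _ _ _).trans ?_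
    linarith only [R.sm.1, hμ, a0, b0, r1, r1', il]
  obtain s1 : |(φ'.S M).X (φ'.n + j - 1) - (φ.S M).X (φ.n + j - 1)| ≤ 1 / 1000 := by
    rw [e1]; refine (tri _ _ _).trans ?_
    linarith only [R.sm.2, hμ, a1, b1, il]
  obtain BR : (φ.S M).bb c (θ - 1 / 1000) (φ.n + j) ≤ (φ.R M c0 hh).bb c θ j :=
    bb_cmp h _ _ (by linarith only [a0, r1, il]) (by linarith only [a1, il])
  obtain BT : (φ.S M).bb c (θ - 1 / 1000) (φ.n + j) ≤ (φ.S M).bb c (2 / 100) (φ.n + j) :=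
    (φ.S M).bb_mono c h.ebl (by linarith only [hθ]) _
  obtain BT' : (φ.S M).bb c (θ - 1 / 1000) (φ.n + j) ≤ (φ'.S M).bb c (2 / 100) (φ'.n + j) :=
    bb_cmp h _ _ (by linarith only [s0, hθ]) (by linarith only [s1, hθ])
  have B0 : 0 ≤ (φ.S M).bb c (θ - 1 / 1000) (φ.n + j) :=
    ((φ.S M).bb_pos c ((Real.exp_pos _).trans_le h.ebl) _ _).le
  obtain κ0 : 0 ≤ κ := le_trans (by positivity) hκ
  obtain f1 : 20 * (ℓ / c.lam ^ 2) ≤ ℓ := by
    rw [← mul_div_assoc, div_le_iff₀ l2, mul_comm]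
    exact mul_le_mul_of_nonneg_left (by nlinarith only [l0]) ℓ0
  obtain f2 : ℓ / c.lam ^ 2 ≤ κ * ℓ := by
    rw [div_eq_inv_mul, ← one_div]; exact mul_le_mul_of_nonneg_right hκ ℓ0
  have m : ∀ {x b y : ℝ}, 0 ≤ x → (φ.S M).bb c (θ - 1 / 1000) (φ.n + j) ≤ b → b * x ≤ y →
      (φ.S M).bb c (θ - 1 / 1000) (φ.n + j) * x ≤ y := fun h0 h1 h2 =>
    (mul_le_mul_of_nonneg_right h1 h0).trans h2
  obtain ⟨c1, c2, c3⟩ := core hL.le B0 (div_nonneg ℓ0 l2.le) f1 f2 (a0.trans er) (b0.trans er')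
    (m (sq_nonneg _) BT (a2.trans q2)) (m (sq_nonneg _) BT' (b2.trans q2'))
    (m (abs_nonneg _) BT (a3.trans q2)) (m (abs_nonneg _) BT' (b3.trans q2'))
    (m (abs_nonneg _) BT (a4.trans q1)) (m (abs_nonneg _) BT' (b4.trans q1'))
    (m (sq_nonneg _) BR R.prev) (m (abs_nonneg _) BR R.d1) (m (abs_nonneg _) BR R.d2) κ0
  rw [← e0] at c1 c2 c3
  rw [← e1] at c1 c2
  refine ⟨⟨⟨s0, s1⟩, c1, c2, c3⟩, ?_⟩
  obtain e2 : (φ'.S M).X (φ'.n + j) - (φ.S M).X (φ.n + j)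
      - ((φ'.R M c0' hh').X j - (φ.R M c0 hh).X j) = ((φ.R M c0 hh).X j - (φ.S M).X (φ.n + j))
        - ((φ'.R M c0' hh').X j - (φ'.S M).X (φ'.n + j)) := by ring
  rw [e2, mul_div_assoc]
  refine (abs_sub _ _).trans ?_
  linarith only [a0, b0, er, er']

theorem ret0 (h : Num c) (hT : TRU_s c) (hR : RET0_s c) : RET_s c := by
  intro Ex M φ φ' c0 hh c0' hh' j U U' θ κ ℓ r hM hn hn' hθ hθ' hκ hr hr' R w w' r1 hℓ ht
  have l0 := h.l0; have L0 := h.L0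
  obtain hl : 0 < c.lam := by linarith only [l0]
  obtain hL : 0 < c.L := by linarith only [L0]
  have ℓ0 : 0 ≤ ℓ := (res_le h hn).1.trans hr
  have k : κ * c.L ≤ max κ (1 / c.lam ^ 2) * c.L := mul_le_mul_of_nonneg_right (le_max_left _ _) hL.le
  obtain ⟨R', d⟩ := hT M φ φ' c0 hh c0' hh' j U U' θ (max κ (1 / c.lam ^ 2)) ℓ (1 / 2000) hM hn hn'
    hθ' (le_max_right _ _) le_rfl hr hr'
    ⟨R.sm, R.prev.trans (mul_le_mul_of_nonneg_right k (sq_nonneg _)),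
      R.d1.trans (mul_le_mul_of_nonneg_right k (sq_nonneg _)),
      R.d2.trans (mul_le_mul_of_nonneg_right k (add_nonneg (abs_nonneg _) ℓ0))⟩
  obtain k1 : max κ (1 / c.lam ^ 2) ≤ 1 / (100 * c.lam) := by
    refine max_le hκ (one_div_le_one_div_of_le (by positivity) ?_)
    nlinarith only [l0]
  obtain k2 : 20 * max κ (1 / c.lam ^ 2) ≤ 1 / (4 * c.lam) := by
    refine (mul_le_mul_of_nonneg_left k1 (by norm_num)).trans ?_
    rw [mul_one_div, div_le_div_iff₀ (by positivity) (by positivity)]; linarith only [hl]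
  obtain h1 := hR Ex M φ φ' _ _ _ _ ℓ r hM hn.fr hn'.fr (by linarith only [hθ]) k2 ℓ0 R' w w' r1 hℓ ht
  obtain h2 : ℓ ≤ 100 * Real.exp (-r) := by
    rw [Real.exp_neg, ← div_eq_mul_inv, le_div_iff₀ (Real.exp_pos _)]; exact hℓ
  obtain h3 : 2 * ℓ / c.lam ^ 2 ≤ ℓ := by
    rw [div_le_iff₀ (by positivity), mul_comm]
    exact mul_le_mul_of_nonneg_left (by nlinarith only [l0]) ℓ0
  have h4 := abs_sub_abs_le_abs_sub ((φ'.R M c0' hh').X j - (φ.R M c0 hh).X j)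
    ((φ'.S M).X (φ'.n + j) - (φ.S M).X (φ.n + j))
  rw [abs_sub_comm] at d
  linarith only [h1, h2, h3, h4, d]

end TRU

theorem tsn : Hier fun c => SOK_s c → TS_s c → TSN_s c := TRU.num.mono fun _ h => TRU.tsn0 h
theorem tru : Hier fun c => SOK_s c → TSN_s c → TRU_s c := TRU.num.mono fun _ h _ => TRU.tru0 h
theorem ret : Hier fun c => TRU_s c → RET0_s c → RET_s c := TRU.num.mono fun _ h => TRU.ret0 h

end
end Pool.Agent.MP_9cbfe4_an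

end
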