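import Pool.Agent.MP_9cbfe4_an.M02
import Pool.Agent.MP_9cbfe4_an.M05
import Pool.Agent.MP_9cbfe4_an.M07

set_option linter.all false

attribute [-instance] AddQuantale.instAddLeftMono IdemSemiring.toCanonicallyOrderedAdd
  NumberField.to_charZero AddQuantale.instAddRightMono IdemSemiring.toMulLeftMono RKHS.instFunLike
  Quantale.instMulRightMono Quantale.instMulLeftMono IsOrderedCancelMonoid.toIsOrderedMonoid
  LinearOrderedCommMonoidWithZero.toPosMulStrictMono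
  Group.IsPerfect.subsingleton_of_isMulCommutative CanonicallyOrderedAdd.toMulLeftMono
  Valued.toUniformSpace IdemSemiring.toMulRightMono TotallySeparatedSpace.t2Space
  LinearOrderedCommMonoidWithZero.toIsOrderedMonoid IsScalarTower.complexToReal
  Order.Coframe.toCompleteLattice OmegaCompletePartialOrder.toPartialOrder Invertible.toNeZero
  GrpTypeEquivalenceGrp.grpGroup littleWedderburn CanonicallyOrderedMul.toMulLeftMono
  CoalgHomClass.toSemilinearMapClass TestFunctionClass.toDFunLike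
  ContDiffMapSupportedInClass.toDFunLike Order.Frame.toCompleteLattice RightPreLieAlgebra.toModule
  CategoryTheory.Limits.Concrete.instUniqueToTypeTerminal LeftPreLieAlgebra.toModule
  CStarAlgebra.instOrderClosedTopology IdemSemiring.toSemiring
  LieAdmissibleRing.toNonUnitalNonAssocRing NonUnitalAlgSemiHomClass.toDistribMulActionSemiHomClass
  CStarAlgebra.toNormedRing

/-! ### Part YBVP -/

section

/-! Row YBVP: shift of a window onto a nearby line. -/

namespace Pool.Agent.MP_9cbfe4_an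

open Finset Filter Topology

namespace YB

/-- shooting: a linear recursion with a bounded continuous source hits any end value -/
theorem shoot (S : Sq) (q : ℤ → ℝ → ℝ → ℝ) (hq : ∀ l, Continuous fun p : ℝ × ℝ => q l p.1 p.2)
    {τ : ℝ} (hτ : ∀ l x y, |q l x y| ≤ τ) {s n : ℤ} (hs : s ≤ n) (x0 y0 e1 e2 u : ℝ)
    (he : e1 * S.fr s n + S.b s * e2 * S.fr (s + 1) n ≠ 0) :
    ∃ (v : ℝ) (Z : ℤ → ℝ), Z s = x0 + v * e1 ∧ Z (s - 1) = y0 + v * e2 ∧ Z n = u ∧
      ∀ j, s ≤ j → Z (j + 1) = S.a j * Z j + S.b j * Z (j - 1) + q j (Z j) (Z (j - 1)) := by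
  let P : ℝ → ℕ → ℝ × ℝ := fun v k => Nat.rec (x0 + v * e1, y0 + v * e2)
    (fun k p => (S.a (s + k) * p.1 + S.b (s + k) * p.2 + q (s + k) p.1 p.2, p.1)) k
  let Z : ℝ → ℤ → ℝ := fun v j => if s ≤ j then (P v (j - s).toNat).1 else y0 + v * e2
  have h1 (v) (k : ℕ) : P v k = (Z v (s + k), Z v (s + k - 1)) := by
    have h (k : ℕ) : Z v (s + k) = (P v k).1 := by simp [Z]
    refine Prod.ext (h k).symm ?_
    cases k with
    | zero => simp [Z, P]
    | succ k => rw [show s + (k + 1 : ℕ) - 1 = s + k by omega]; exact (h k).symm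
  have h2 (v) (j) (hj : s ≤ j) :
      Z v (j + 1) = S.a j * Z v j + S.b j * Z v (j - 1) + q j (Z v j) (Z v (j - 1)) := by
    obtain ⟨k, rfl⟩ : ∃ k : ℕ, j = s + k := ⟨(j - s).toNat, by omega⟩
    have := congrArg Prod.fst (h1 v (k + 1))
    rw [show s + (k + 1 : ℕ) = s + k + 1 by omega] at this
    rw [← show _ = Z v (s + k + 1) from this]
    change S.a _ * (P v k).1 + S.b _ * (P v k).2 + q _ (P v k).1 (P v k).2 = _
    rw [h1]
  have h3 (k : ℕ) : Continuous fun v => P v k := by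
    induction k with
    | zero => exact show Continuous fun v => (x0 + v * e1, y0 + v * e2) by fun_prop
    | succ k ih =>
      exact (((ih.fst.const_mul _).add (ih.snd.const_mul _)).add ((hq _).comp ih)).prodMk ih.fst
  have h4 (v) : Z v s = x0 + v * e1 := by simp [Z, P]
  have h5 (v) : Z v (s - 1) = y0 + v * e2 := by simp [Z]
  generalize hE : e1 * S.fr s n + S.b s * e2 * S.fr (s + 1) n = E at he
  obtain ⟨B, hB⟩ : ∃ B, ∀ v, |Z v n / E - v| ≤ B := by
    refine ⟨(|x0 * S.fr s n + S.b s * y0 * S.fr (s + 1) n| +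
      ∑ i ∈ Ico s n, |S.fr (i + 1) n| * τ) / |E|, fun v => ?_⟩
    rw [div_sub' he, abs_div]
    refine div_le_div_of_nonneg_right ?_ (abs_nonneg _)
    rw [S.voc (fun j h _ => h2 v j h) hs le_rfl, h4, h5, ← hE]
    refine le_trans (le_of_eq (congrArg _ (by ring))) ((abs_add_le _ _).trans (add_le_add le_rfl
      ((abs_sum_le_sum_abs (fun i => S.fr (i + 1) n * q i (Z v i) (Z v (i - 1))) _).trans
        (sum_le_sum fun i _ => ?_))))
    rw [abs_mul]
    exact mul_le_mul_of_nonneg_left (hτ _ _ _) (abs_nonneg _)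
  obtain hc : Continuous fun v => Z v n / E := by
    simp only [Z, if_pos hs]
    exact (h3 _).fst.div_const _
  obtain ⟨v, hv⟩ := hc.surjective
    (tendsto_atTop_mono (fun v => by linarith only [(abs_le.1 (hB v)).1, id_eq v])
      (tendsto_atTop_add_const_right _ (-B) tendsto_id))
    (tendsto_atBot_mono (fun v => by linarith only [(abs_le.1 (hB v)).2, id_eq v])
      (tendsto_atBot_add_const_right _ B tendsto_id)) (u / E)
  exact ⟨v, Z v, h4 v, h5 v, (div_left_inj' he).1 hv, h2 v⟩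


theorem sum_le_len {f : ℤ → ℝ} {s n : ℤ} {B : ℝ} (h : s ≤ n) (hf : ∀ i, s ≤ i → i < n → f i ≤ B) :
    ∑ i ∈ Ico s n, f i ≤ ((n : ℝ) - s) * B := by
  induction n, h using Int.leInduction with
  | base => simp
  | succ n hn ih =>
    rw [sum_Ico_succ _ hn]
    obtain h1 := ih fun i a b => hf i a (by omega)
    obtain h2 := hf n hn (by omega)
    push_cast
    linarith only [h1, h2]

/-- Green bound for the two-point problem `Z N = 0` -/
theorem green (S : Sq) {ξ w Z q : ℤ → ℝ} {N : ℤ} {Λ σ : ℝ}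
    (hξ : S.Maj ξ 1 w 0 N) (w0 : w 0 = 1) (wp : ∀ j, 0 ≤ j → j ≤ N → 0 < w j) (hΛ : 0 ≤ Λ)
    (h1 : ∀ i j, 0 ≤ i → i ≤ j → j ≤ N → w i ≤ Λ * w j)
    (h2 : ∀ i j, 0 ≤ i → i ≤ j → j ≤ N → |S.Pb i j| * w i ≤ Λ * w j)
    (h3 : ∀ i j, 0 ≤ i → i ≤ j → j ≤ N → |S.fr (i + 1) j| * w i ≤ Λ * w j)
    (hq : ∀ i, |q i| ≤ σ)
    (hZ : ∀ j, 1 ≤ j → j < N → Z (j + 1) = S.a j * Z j + S.b j * Z (j - 1) + q j) (hZN : Z N = 0)
    {j : ℤ} (hj : 0 ≤ j) (hjN : j < N) :
    |ξ N| * |Z j| ≤ Λ ^ 2 * w N * (|Z 0 * ξ 1 - ξ 0 * Z 1| + N * σ) := by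
  have hσ : 0 ≤ σ := (abs_nonneg _).trans (hq 0)
  have hm (j) (h : 0 ≤ j) (h' : j ≤ N) : |ξ j| ≤ w j := by
    simpa using hξ.2 j (by omega) h'
  generalize hW : |Z 0 * ξ 1 - ξ 0 * Z 1| = W
  have hW0 : 0 ≤ W := hW ▸ abs_nonneg _
  obtain hD : ∀ j, 0 ≤ j → j < N → |Z j * ξ (j + 1) - ξ j * Z (j + 1)| ≤
      |S.Pb 0 j| * W + ∑ i ∈ Ico 0 j, |S.Pb (i + 1) j| * w (i + 1) * σ := by
    intro j hj
    induction j, hj using Int.leInduction with
    | base => intro _; simp [Sq.Pb_self, hW]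
    | succ j hj ih =>
      intro hn
      obtain ih := ih (by omega)
      obtain e : ∑ i ∈ Ico 0 j, |S.Pb (i + 1) (j + 1)| * w (i + 1) * σ =
          |S.b (j + 1)| * ∑ i ∈ Ico 0 j, |S.Pb (i + 1) j| * w (i + 1) * σ := by
        rw [mul_sum]
        refine sum_congr rfl fun i hi => ?_
        rw [S.Pb_mul (show i + 1 ≤ j by have := (mem_Ico.1 hi).2; omega) (show j ≤ j + 1 by omega),
          S.Pb_one, abs_mul]
        ring
      rw [sum_Ico_succ _ hj, e, S.Pb_self, S.Pb_mul hj (show j ≤ j + 1 by omega), S.Pb_one, abs_mul,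
        hξ.1 (j + 1) (by omega) hn, hZ (j + 1) (by omega) hn, add_sub_cancel_right]
      obtain e2 : Z (j + 1) * (S.a (j + 1) * ξ (j + 1) + S.b (j + 1) * ξ j) - ξ (j + 1) *
          (S.a (j + 1) * Z (j + 1) + S.b (j + 1) * Z j + q (j + 1)) =
          -(S.b (j + 1) * (Z j * ξ (j + 1) - ξ j * Z (j + 1)) + ξ (j + 1) * q (j + 1)) := by ring
      rw [e2, abs_neg]
      refine (abs_add_le _ _).trans ?_
      rw [abs_mul, abs_mul]
      have a1 := mul_le_mul_of_nonneg_left ih (abs_nonneg (S.b (j + 1)))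
      obtain a2 := mul_le_mul (hm (j + 1) (by omega) hn.le) (hq (j + 1)) (abs_nonneg _)
        (wp (j + 1) (by omega) hn.le).le
      simp only [abs_one]
      linarith only [a1, a2]
  have hwj := wp j hj hjN.le
  obtain hwN := wp N (by omega) le_rfl
  obtain hD' : |Z j * ξ (j + 1) - ξ j * Z (j + 1)| ≤ Λ * w j * (W + j * σ) := by
    have a1 := h2 0 j le_rfl hj hjN.le
    rw [w0, mul_one] at a1
    obtain a2 := sum_le_len (f := fun i => |S.Pb (i + 1) j| * w (i + 1) * σ) (B := Λ * w j * σ) hj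
      fun i a b => mul_le_mul_of_nonneg_right (h2 _ _ (by omega) (by omega) hjN.le) hσ
    have a3 := mul_le_mul_of_nonneg_right a1 hW0
    have a4 := hD j hj hjN
    push_cast at a2
    linarith only [a3, a4, a2]
  obtain e1 := S.voc (s := j + 1) (n := N) (fun l a b => hZ l (by omega) b) (by omega) le_rfl
  obtain e2 := S.repr_on (i := j + 1) (n := N) (fun l a b => hξ.1 l (by omega) b) (by omega) le_rfl
  rw [add_sub_cancel_right] at e1 e2
  obtain e3 : ξ N * Z j = (Z j * ξ (j + 1) - ξ j * Z (j + 1)) * S.fr (j + 1) N -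
      ∑ i ∈ Ico (j + 1) N, ξ j * (S.fr (i + 1) N * q i) := by
    rw [← mul_sum]
    linear_combination Z j * e2 + ξ j * hZN - ξ j * e1
  obtain b1 : |(Z j * ξ (j + 1) - ξ j * Z (j + 1)) * S.fr (j + 1) N| ≤ Λ ^ 2 * w N * (W + j * σ) := by
    rw [abs_mul]
    obtain a0 : 0 ≤ Λ * (W + j * σ) := by
      obtain this : (0 : ℝ) ≤ j := by exact_mod_cast hj
      (clear * - hΛ hW0 hj hσ; positivity)
    have a1 := mul_le_mul_of_nonneg_right hD' (abs_nonneg (S.fr (j + 1) N))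
    have a2 := mul_le_mul_of_nonneg_left (h3 j N hj hjN.le le_rfl) a0
    linarith only [a1, a2]
  obtain b2 : |∑ i ∈ Ico (j + 1) N, ξ j * (S.fr (i + 1) N * q i)| ≤
      ((N : ℝ) - (j + 1 : ℤ)) * (Λ ^ 2 * w N * σ) := by
    refine (abs_sum_le_sum_abs _ _).trans (sum_le_len (by omega) fun i a b => ?_)
    rw [abs_mul, abs_mul]
    obtain a1 := (hm j hj hjN.le).trans (h1 j i hj (by omega) b.le)
    obtain a2 := mul_le_mul_of_nonneg_left (h3 i N (by omega) b.le le_rfl) (mul_nonneg hΛ hσ)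
    obtain a3 := mul_le_mul a1 (mul_le_mul_of_nonneg_left (hq i) (abs_nonneg (S.fr (i + 1) N)))
      (by (clear * -; positivity)) ((abs_nonneg _).trans a1)
    linarith only [a2, a3]
  rw [← abs_mul, e3]
  refine (abs_sub _ _).trans ?_
  obtain this : 0 ≤ Λ ^ 2 * w N * σ := by (clear * - hwN hσ; positivity)
  push_cast at b2
  linarith only [b1, this, b2]


/-- the two-point problem with a bounded continuous source -/
theorem bvp (S : Sq) (q : ℤ → ℝ → ℝ → ℝ) (hc : ∀ l, Continuous fun p : ℝ × ℝ => q l p.1 p.2)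
    {ξ w : ℤ → ℝ} {N : ℤ} {Λ σ δ e V x0 y0 e1 e2 : ℝ} (hq : ∀ l x y, |q l x y| ≤ σ) (hN : 1 ≤ N)
    (hξ : S.Maj ξ 1 w 0 N) (w0 : w 0 = 1) (wp : ∀ j, 0 ≤ j → j ≤ N → 0 < w j)
    (h1 : ∀ i j, 0 ≤ i → i ≤ j → j ≤ N → w i ≤ Λ * w j)
    (h2 : ∀ i j, 0 ≤ i → i ≤ j → j ≤ N → |S.Pb i j| * w i ≤ Λ * w j)
    (h3 : ∀ i j, 0 ≤ i → i ≤ j → j ≤ N → |S.fr (i + 1) j| * w i ≤ Λ * w j)
    (wN : w N ≤ 4 * |ξ N|) (w1 : w 1 ≤ e) (hNe : (N : ℝ) ≤ e)
    (hx : |x0| ≤ δ) (hy : |y0| ≤ δ) (hd1 : |e1 - ξ 1| ≤ δ) (hd2 : |e2 - ξ 0| ≤ δ)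
    (hv : 16 * (Λ ^ 2 * δ) + 8 * (e * (Λ ^ 2 * σ)) ≤ V) (hV : V ≤ 1) :
    ∃ (v : ℝ) (Z : ℤ → ℝ), |v| ≤ V ∧ Z 1 = x0 + v * e1 ∧ Z 0 = y0 + v * e2 ∧
      (∀ j, 1 ≤ j → Z (j + 1) = S.a j * Z j + S.b j * Z (j - 1) + q j (Z j) (Z (j - 1))) ∧
      ∀ j, 0 ≤ j → j ≤ N → |Z j| ≤ 16 * (e * (Λ ^ 2 * δ)) + 4 * (e * (Λ ^ 2 * σ)) := by
  have hσ : 0 ≤ σ := (abs_nonneg _).trans (hq 0 0 0)
  have hδ : 0 ≤ δ := (abs_nonneg _).trans hx
  obtain hΛ : 1 ≤ Λ := by simpa [w0] using h1 0 0 le_rfl le_rfl (by omega)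
  obtain hΛ0 : 0 ≤ Λ := by linarith only [hΛ]
  obtain he : 1 ≤ e := le_trans (by exact_mod_cast hN) hNe
  obtain hwN := wp N (by omega) le_rfl
  obtain hξN : 0 < |ξ N| := by linarith only [wN, hwN]
  have hf (i) (h : 0 ≤ i) (h' : i ≤ N) : |S.fr (i + 1) N| ≤ Λ ^ 2 * w N := by
    have a1 := mul_le_mul_of_nonneg_left (h1 0 i le_rfl h h') (abs_nonneg (S.fr (i + 1) N))
    have a2 := mul_le_mul_of_nonneg_left (h3 i N h h' le_rfl) hΛ0
    rw [w0] at a1
    linarith only [a1, a2]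
  obtain f1 : |S.fr 1 N| ≤ Λ ^ 2 * w N := by simpa using hf 0 le_rfl (by omega)
  obtain f2 : |S.b 1 * S.fr (1 + 1) N| ≤ Λ ^ 2 * w N := by
    obtain a1 := h2 0 (0 + 1) le_rfl (by omega) (by omega)
    rw [S.Pb_one, w0, mul_one, zero_add] at a1
    obtain a2 := mul_le_mul_of_nonneg_left (h3 1 N (by omega) hN le_rfl) hΛ0
    have a3 := mul_le_mul_of_nonneg_right a1 (abs_nonneg (S.fr (1 + 1) N))
    rw [abs_mul]
    linarith only [a2, a3]
  have two {x y : ℝ} (a : |x| ≤ δ) (b : |y| ≤ δ) :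
      |x * S.fr 1 N + y * (S.b 1 * S.fr (1 + 1) N)| ≤ 8 * (Λ ^ 2 * δ) * |ξ N| := by
    refine (abs_add_le _ _).trans ?_
    rw [abs_mul, abs_mul y]
    have a1 := mul_le_mul a f1 (abs_nonneg _) hδ
    have a2 := mul_le_mul b f2 (abs_nonneg _) hδ
    obtain a3 := mul_le_mul_of_nonneg_left wN (show 0 ≤ Λ ^ 2 * δ by (clear * - hΛ hδ; positivity))
    linarith only [a1, a2, a3]
  obtain r := S.repr_on (i := 1) (n := N) (fun l a b => hξ.1 l (by omega) b) hN le_rfl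
  rw [sub_self] at r
  obtain s0 : 0 ≤ e * (Λ ^ 2 * σ) := by (clear * - he hΛ hσ; positivity)
  obtain hE : |ξ N| / 2 ≤ |e1 * S.fr 1 N + S.b 1 * e2 * S.fr (1 + 1) N| := by
    have a1 := two hd1 hd2
    have a2 := abs_sub_abs_le_abs_sub (ξ N) (e1 * S.fr 1 N + S.b 1 * e2 * S.fr (1 + 1) N)
    rw [abs_sub_comm, show e1 * S.fr 1 N + S.b 1 * e2 * S.fr (1 + 1) N - ξ N =
      (e1 - ξ 1) * S.fr 1 N + (e2 - ξ 0) * (S.b 1 * S.fr (1 + 1) N) by rw [r]; ring] at a2
    obtain a3 := mul_le_mul_of_nonneg_right (show 16 * (Λ ^ 2 * δ) ≤ 1 by linarith only [hv, hV, s0]) hξN.le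
    have a4 := a2.trans a1
    generalize |e1 * S.fr 1 N + S.b 1 * e2 * S.fr (1 + 1) N| = E at a4 ⊢
    linarith only [a3, a4]
  obtain ⟨v, Z, z1, z0, zN, hZ⟩ := shoot S q hc hq hN x0 y0 e1 e2 0
    (abs_pos.1 (lt_of_lt_of_le (by linarith only [hξN]) hE))
  rw [sub_self] at z0
  obtain hv' : |v| ≤ V := by
    have a1 := S.voc (s := 1) (n := N) (fun l a _ => hZ l a) hN le_rfl
    rw [sub_self, zN, z1, z0] at a1
    obtain a2 : |∑ i ∈ Ico 1 N, S.fr (i + 1) N * q i (Z i) (Z (i - 1))| ≤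
        ((N : ℝ) - (1 : ℤ)) * (Λ ^ 2 * w N * σ) := by
      refine (abs_sum_le_sum_abs _ _).trans (sum_le_len hN fun i a b => ?_)
      rw [abs_mul]
      exact mul_le_mul (hf i (by omega) b.le) (hq _ _ _) (abs_nonneg _) (by positivity)
    generalize ∑ i ∈ Ico 1 N, S.fr (i + 1) N * q i (Z i) (Z (i - 1)) = T at a1 a2
    obtain a3 : v * (e1 * S.fr 1 N + S.b 1 * e2 * S.fr (1 + 1) N) =
        -(x0 * S.fr 1 N + y0 * (S.b 1 * S.fr (1 + 1) N) + T) := by linear_combination -a1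
    have a4 := congrArg abs a3
    rw [abs_mul, abs_neg] at a4
    have a7 := ((mul_le_mul_of_nonneg_left hE (abs_nonneg v)).trans_eq a4).trans
      ((abs_add_le _ _).trans (add_le_add (two hx hy) a2))
    obtain a8 : ((N : ℝ) - (1 : ℤ)) * (Λ ^ 2 * w N * σ) ≤ e * (Λ ^ 2 * w N * σ) :=
      mul_le_mul_of_nonneg_right (by push_cast; linarith only [hNe]) (by (clear * - hΛ hwN hσ; positivity))
    have a9 := mul_le_mul_of_nonneg_left wN s0
    have a10 := mul_le_mul_of_nonneg_right hv hξN.le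
    have a11 := a7.trans (add_le_add le_rfl a8)
    exact le_of_mul_le_mul_right (by linarith only [a9, a10, a11]) hξN
  refine ⟨v, Z, hv', z1, z0, hZ, fun j hj hjN => ?_⟩
  rcases hjN.eq_or_lt with rfl | hlt
  · rw [zN, abs_zero]; (clear * - he hΛ hδ hσ; positivity)
  have g := green S hξ w0 wp hΛ0 h1 h2 h3 (fun i => hq i (Z i) (Z (i - 1))) (fun l a _ => hZ l a)
    zN hj hlt
  obtain hW : |Z 0 * ξ 1 - ξ 0 * Z 1| ≤ 4 * (e * δ) := by
    obtain m0 : |ξ 0| ≤ e := by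
      obtain this := hξ.2 0 (by omega) (by omega)
      rw [w0] at this; linarith only [he, this]
    obtain m1 : |ξ 1| ≤ e := by
      obtain this := hξ.2 1 (by omega) hN
      linarith only [w1, this]
    have n (x y : ℝ) (a : |x| ≤ δ) (b : |y| ≤ δ) : |x + v * y| ≤ 2 * δ := by
      refine (abs_add_le _ _).trans ?_
      rw [abs_mul]
      have := mul_le_mul (hv'.trans hV) b (abs_nonneg _) zero_le_one
      linarith only [a, this]
    rw [z1, z0, show (y0 + v * e2) * ξ 1 - ξ 0 * (x0 + v * e1) =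
      (y0 + v * (e2 - ξ 0)) * ξ 1 - (x0 + v * (e1 - ξ 1)) * ξ 0 by ring]
    refine (abs_sub _ _).trans ?_
    rw [abs_mul, abs_mul]
    obtain a1 := mul_le_mul (n _ _ hy hd2) m1 (abs_nonneg _) (by (clear * - hδ; positivity))
    obtain a2 := mul_le_mul (n _ _ hx hd1) m0 (abs_nonneg _) (by (clear * - hδ; positivity))
    linarith only [a1, a2]
  obtain a1 : Λ ^ 2 * w N * (|Z 0 * ξ 1 - ξ 0 * Z 1| + N * σ) ≤
      Λ ^ 2 * (4 * |ξ N|) * (4 * (e * δ) + e * σ) := by (clear * - wN hΛ hW hNe hσ hN hξN; gcongr)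
  exact le_of_mul_le_mul_left (by linarith only [g, a1]) hξN

/-- the numeric facts used in row YBVP -/
structure Nm (c : Cs) : Prop where
  big : SOK.Big c
  CG : 1 ≤ c.CG
  a0 : 0 < c.a
  a1 : c.a ≤ 1 / 3
  β : 6 / c.a ≤ c.β
  L : 1000 * c.CG ≤ c.L

theorem nm : Hier Nm := by
  obtain h1 := Hier.a_le (fun _ => 1 / 3) (fun _ _ _ _ _ _ => rfl) (Hier.of_all fun _ => by norm_num)
  have h2 := Hier.β_ge (fun c => 6 / c.a) fun _ _ _ => rfl
  have h3 := Hier.L_ge (fun c => 1000 * c.CG) fun _ _ => rfl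
  exact ((((SOK.big.and Hier.base).and h1).and h2).and h3).mono fun c h =>
    ⟨h.1.1.1.1, h.1.1.1.2.2.2.2.2.2, h.1.1.2.1, h.1.1.2.2, h.1.2, h.2⟩

theorem Nm.bl {c : Cs} (h : Nm c) : 6 * c.lam ≤ c.a * c.bl ∧ 180 ≤ c.bl := by
  have h1 := (div_le_iff₀ h.a0).1 h.β
  have h2 := h.big.lam
  obtain h3 : 6 * c.lam ≤ c.a * c.bl := by
    have := mul_le_mul_of_nonneg_right h1 h.big.lam_pos.le
    unfold Cs.bl; linarith only [this]
  refine ⟨h3, ?_⟩
  by_contra hn
  have := h.a0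
  have := h.a1
  (rename_i zq0; nlinarith only [h2, h3, this, hn, zq0])

theorem Nm.E1 {c : Cs} (h : Nm c) {ρ : ℝ} (hρ : c.bl / 3 ≤ ρ) : 1000 * (c.CG * c.L) ≤ c.E ρ 1 := by
  have h1 := mul_le_mul_of_nonneg_left hρ h.a0.le
  obtain h2 : Real.exp (c.lam + c.lam) ≤ c.E ρ 1 := Real.exp_le_exp.2 (by linarith only [h1, h.bl.1])
  rw [Real.exp_add, Cs.lam, Real.exp_log h.big.L_pos] at h2
  have := mul_le_mul_of_nonneg_right h.L h.big.L_pos.le
  linarith only [h2, this]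

theorem E_add (c : Cs) (ρ k l : ℝ) : c.E ρ (k + l) = c.E ρ k * c.E ρ l := by
  unfold Cs.E; rw [← Real.exp_add]; congr 1; ring

theorem Nm.E_le {c : Cs} (h : Nm c) {ρ : ℝ} (hρ : c.bl / 3 ≤ ρ) (k l : ℝ) (hk : k + 1 ≤ l) :
    1000 * (c.CG * c.L * c.E ρ k) ≤ c.E ρ l := by
  obtain h0 : 0 ≤ c.a * ρ := mul_nonneg h.a0.le (by linarith only [hρ, h.bl.2])
  have h1 : c.E ρ (k + 1) ≤ c.E ρ l := Real.exp_le_exp.2 (mul_le_mul_of_nonneg_right hk h0)
  have h2 := mul_le_mul_of_nonneg_left (h.E1 hρ) (show 0 ≤ c.E ρ k from (Real.exp_pos _).le)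
  rw [E_add] at h1
  linarith only [h1, h2]

/-- clamp to `[-κ, κ]` -/
noncomputable def cl (κ x : ℝ) : ℝ := max (-κ) (min κ x)

theorem abs_cl {κ : ℝ} (h : 0 ≤ κ) (x : ℝ) : |cl κ x| ≤ κ :=
  abs_le.2 ⟨le_max_left _ _, max_le (by linarith only [h]) (min_le_left _ _)⟩

theorem cl_eq {κ x : ℝ} (h : |x| ≤ κ) : cl κ x = x := by
  unfold cl; rw [min_eq_right (abs_le.1 h).2, max_eq_right (abs_le.1 h).1]

theorem cl_cont (κ : ℝ) : Continuous (cl κ) := by unfold cl; fun_prop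

theorem box_add {c : Cs} {X x κ : ℝ} (h : |X| ≤ 2 * c.L - 1) (hx : |x| ≤ κ) (hκ : κ ≤ 1) :
    Box c (X + x) := (abs_add_le _ _).trans (by linarith only [h, hx, hκ])

theorem dP_add (X x : ℝ) : dP (X + x) ≤ dP X + |x| ∧ dP X ≤ dP (X + x) + |x| := by
  have := abs_le.1 (dP_lip (X + x) X)
  rw [add_sub_cancel_left] at this
  constructor <;> linarith only [this.1, this.2]

/-- size of the nonlinear and parameter terms -/
theorem src {c : Cs} {M : Mdl} (h : Nm c) (hM : M.OK c) {t t' X Y x y κ τ : ℝ} (ht : TI t)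
    (ht' : TI t') (hX : |X| ≤ 2 * c.L - 1) (hY : |Y| ≤ 2 * c.L - 1)
    (hc : dP X < 5 / 100 → dP Y < 5 / 100 → dP Y ≤ (1 - 3 * c.e0 / 4) * c.w0)
    (hx : |x| ≤ κ) (hy : |y| ≤ κ) (hκ : κ ≤ 1 / 100) (hκ' : κ ≤ c.e0 * c.w0 / 4)
    (hτ : |t' - t| ≤ τ) (hτ' : τ ≤ 1) :
    |M.G t' (X + x) (Y + y) - M.G t X Y - M.Ga t X Y * x - M.Gb t X Y * y| ≤
      3 * (c.CG * c.L * κ ^ 2) + 5 * τ := by
  have hκ0 : 0 ≤ κ := (abs_nonneg _).trans hx
  have hτ0 : 0 ≤ τ := (abs_nonneg _).trans hτ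
  obtain bX : Box c X := hX.trans (by linarith only [])
  obtain bY : Box c Y := hY.trans (by linarith only [])
  have d0 : 0 < c.dl := Real.exp_pos _
  obtain d1 : c.dl ≤ 1 := Real.exp_le_one_iff.2 (by linarith only [h.bl.2])
  obtain hCL : 1 ≤ c.CG * c.L := one_le_mul_of_one_le_of_one_le h.CG (by linarith only [h.big.L])
  have hew := mul_pos h.big.e0_pos h.big.w0_pos
  obtain ⟨m, m0, m1, hp⟩ : ∃ m, 0 ≤ m ∧ m ≤ c.CG * c.L ∧ Pair c X Y (X + x) (Y + y) m := by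
    unfold Pair
    simp only [add_sub_cancel_left]
    by_cases h1 : dP X < 5 / 100 ∧ dP Y < 5 / 100
    · have := hc h1.1 h1.2
      exact ⟨_, by linarith only [hCL], le_rfl, by linarith only [hx, hκ],
        Or.inr ⟨rfl, by linarith only [hew, this], by linarith only [hy, hκ', hew, this, (dP_add Y y).1], by linarith only [hy, hκ]⟩⟩
    · rw [not_and_or, not_lt, not_lt] at h1
      exact ⟨_, d0.le, by linarith only [d1, hCL], by linarith only [hx, hκ],
        Or.inl ⟨rfl, h1.imp (fun _ => by (rename_i zq0; linarith only [hx, hκ, zq0])) fun _ => by (rename_i zq0; linarith only [hy, hκ, zq0])⟩⟩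
  obtain T := (hM.tay t t' X Y _ _ m ht ht' bX bY (box_add hX hx (by linarith only [hκ]))
    (box_add hY hy (by linarith only [hκ])) hp).1
  simp only [add_sub_cancel_left] at T
  obtain g : |M.Gt t X Y * (t' - t)| ≤ 2 * τ := by
    rw [abs_mul]
    have := abs_le.1 (hM.t_all t X Y ht bX bY)
    exact mul_le_mul (abs_le.2 ⟨by linarith only [d1, this.1], by linarith only [d1, this.2]⟩) hτ (abs_nonneg _)
      (by norm_num)
  obtain x2 : x ^ 2 ≤ κ ^ 2 := by rw [← sq_abs]; gcongr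
  obtain y2 : y ^ 2 ≤ κ ^ 2 := by rw [← sq_abs]; (clear * - hy; gcongr)
  obtain xy : |x| * |y| ≤ κ * κ := by (clear * - hx hy hκ0; gcongr)
  obtain t2 : (t' - t) ^ 2 ≤ τ * 1 := by rw [← sq_abs, sq]; gcongr; exact hτ.trans hτ'
  obtain a1 : c.CG * c.L * x ^ 2 ≤ c.CG * c.L * κ ^ 2 := by (clear * - x2 hCL; gcongr)
  obtain a2 : m * (|x| * |y| + y ^ 2) ≤ c.CG * c.L * (κ * κ + κ ^ 2) := by (clear * - m1 xy y2 hCL; gcongr)
  obtain a3 : c.dl * ((t' - t) ^ 2 + |t' - t| * (|x| + |y|)) ≤ 1 * (τ * 1 + τ * (1 + 1)) := by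
    gcongr <;> linarith only [hx, hκ, hy]
  generalize M.G t' (X + x) (Y + y) - M.G t X Y - M.Ga t X Y * x - M.Gb t X Y * y = A at T ⊢
  have := abs_sub_abs_le_abs_sub A (M.Gt t X Y * (t' - t))
  linarith only [g, a1, a2, a3, T, this]

end YB

end Pool.Agent.MP_9cbfe4_an

end

/-! ### Part YTR -/

section

/-! Row YTR: the certificate of a tame window passes to a uniformly close orbit. -/

namespace Pool.Agent.MP_9cbfe4_an

open Finset Filter Topology

noncomputable section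

namespace YTR

theorem pert {S S' : Sq} {u u' w : ℤ → ℝ} {s N : ℤ} {K τ Λ ι : ℝ}
    (hw : ∀ j, s - 1 ≤ j → j ≤ N → 0 < w j) (K0 : 0 ≤ K) (τ0 : 0 ≤ τ) (Λ0 : 0 ≤ Λ) (ι1 : ι ≤ 1)
    (hu : ∀ j, s ≤ j → j < N → u (j + 1) = S.a j * u j + S.b j * u (j - 1))
    (hu' : ∀ j, s ≤ j → j < N → u' (j + 1) = S'.a j * u' j + S'.b j * u' (j - 1))
    (hK : ∀ j, s - 1 ≤ j → j ≤ N → |u j| ≤ K * w j)
    (hd : ∀ j, s ≤ j → j < N → |S'.a j - S.a j| ≤ τ ∧ |S'.b j - S.b j| ≤ τ)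
    (hb : ∀ j, s ≤ j → j < N → w (j - 1) ≤ Λ * w j)
    (hf : ∀ i j, s ≤ i → i < j → j ≤ N → |S.fr (i + 1) j| * w i ≤ Λ * w j)
    (h0 : |u' (s - 1) - u (s - 1)| ≤ ι * K * w (s - 1))
    (h1 : ∀ j, s ≤ j → j ≤ N → |(u' s - u s) * S.fr s j +
      S.b s * (u' (s - 1) - u (s - 1)) * S.fr (s + 1) j| ≤ ι / 2 * K * w j)
    (hs : ((N - s : ℤ) : ℝ) * (Λ * (τ * (2 * (1 + Λ)))) ≤ ι / 2) :
    ∀ j, s - 1 ≤ j → j ≤ N → |u' j - u j| ≤ ι * K * w j := by
  obtain key : ∀ m, s - 1 ≤ m → ∀ j, s - 1 ≤ j → j ≤ m → j ≤ N → |u' j - u j| ≤ ι * K * w j := by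
    intro m hm
    induction m, hm using Int.leInduction with
    | base => intro j a b _; rwa [le_antisymm b a]
    | succ m hm ih =>
      intro j j1 j2 j3
      rcases j2.eq_or_lt with rfl | j2
      swap
      · exact ih j j1 (by omega) j3
      obtain b : ∀ i, s - 1 ≤ i → i ≤ m → |u' i| ≤ 2 * K * w i := fun i a b => by
        linarith only [j3, abs_sub_abs_le_abs_sub (u' i) (u i), ih i a b (by omega), hK i a (by omega),
          mul_le_mul_of_nonneg_right ι1 (mul_nonneg K0 (hw i a (by omega)).le)]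
      rw [S.voc (Z := fun j => u' j - u j) (s := s) (n := N)
        (q := fun j => (S'.a j - S.a j) * u' j + (S'.b j - S.b j) * u' (j - 1))
        (fun j a b => by rw [hu j a b, hu' j a b]; ring) (show s ≤ m + 1 by omega) j3]
      have w1 := hw (m + 1) j1 j3
      refine (abs_add_le _ _).trans ((add_le_add (h1 _ (by omega) j3) ((abs_sum_le_sum_abs _ _).trans
        (sum_le_card_nsmul _ _ (Λ * (τ * (2 * (1 + Λ))) * (K * w (m + 1))) fun i hi => ?_))).trans ?_)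
      · obtain ⟨i1, i2⟩ := mem_Ico.1 hi
        obtain ⟨d1, d2⟩ := hd i i1 (by omega)
        obtain e : |(S'.a i - S.a i) * u' i + (S'.b i - S.b i) * u' (i - 1)| ≤
            w i * (τ * (2 * (1 + Λ)) * K) := by
          refine (abs_add_le _ _).trans ?_
          rw [abs_mul, abs_mul]
          linarith only [i2, j3, mul_le_mul d1 (b i (by omega) (by omega)) (abs_nonneg _) τ0,
            mul_le_mul d2 (b (i - 1) (by omega) (by omega)) (abs_nonneg _) τ0,
            mul_le_mul_of_nonneg_left (hb i i1 (by omega)) (mul_nonneg τ0 K0)]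
        rw [abs_mul]
        refine (mul_le_mul_of_nonneg_left e (abs_nonneg _)).trans ?_
        rw [← mul_assoc]
        exact (mul_le_mul_of_nonneg_right (hf i _ i1 i2 j3) (by positivity)).trans_eq (by ring)
      · obtain e : ((Ico s (m + 1)).card : ℝ) ≤ ((N - s : ℤ) : ℝ) := by
          rw [Int.card_Ico, ← Int.cast_natCast]; exact Int.cast_le.2 (by omega)
        rw [nsmul_eq_mul, ← mul_assoc]
        linarith only [Λ0, τ0, mul_le_mul_of_nonneg_right ((mul_le_mul_of_nonneg_right e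
          (show 0 ≤ Λ * (τ * (2 * (1 + Λ))) by positivity)).trans hs) (mul_nonneg K0 w1.le)]
  exact fun j a b => key j a j a le_rfl b

theorem ltg_sol (S : Sq) (d : ℝ × ℝ) : S.ltg d 0 = d.2 ∧ S.ltg d 1 = d.1 ∧
    ∀ j, 1 ≤ j → S.ltg d (j + 1) = S.a j * S.ltg d j + S.b j * S.ltg d (j - 1) := by
  obtain e1 : S.ltg d 1 = d.1 := by simp [Sq.ltg, Sq.fr_self, S.fr_lt (show (1 : ℤ) < 2 by norm_num)]
  refine ⟨by simp [Sq.ltg], e1, fun j hj => ?_⟩
  rcases hj.eq_or_lt with rfl | hj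
  · rw [e1, Sq.ltg, Sq.ltg, if_neg (by norm_num), if_pos (by norm_num), Sq.fr_one,
      show (1 : ℤ) + 1 = 2 by norm_num, Sq.fr_self]
    ring
  · rw [Sq.ltg, Sq.ltg, Sq.ltg, if_neg (by omega), if_neg (by omega), if_neg (by omega),
      S.fr_succ hj.le, S.fr_succ (show 2 ≤ j by omega)]
    ring

/-- the constants used in this file -/
structure YC (c : Cs) : Prop extends WC c where
  ab : 6 / c.a ≤ c.β
  Lc : 10 ^ 4 * c.CG ≤ c.L
  l7 : 2 / c.e0 * c.lam ^ 7 ≤ Real.exp (1 * c.lam)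

theorem hier_YC : Hier YC :=
  (hier_WC.and ((Hier.β_ge (fun c => 6 / c.a) fun _ _ _ => rfl).and
    ((Hier.L_ge (fun c => 10 ^ 4 * c.CG) fun _ _ => rfl).and
    (Hier.pow_le_exp (fun c => 2 / c.e0) (fun _ => 1) 7 (fun _ _ => rfl) (fun _ _ => rfl)
      (Hier.of_all fun _ => one_pos))))).mono fun _ ⟨h, h1, h2, h3⟩ => ⟨h, h1, h2, h3⟩

theorem E_mul (c : Cs) (ρ j k : ℝ) : c.E ρ j * c.E ρ k = c.E ρ (j + k) := by
  rw [Cs.E, Cs.E, Cs.E, ← Real.exp_add, add_mul]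

theorem YC.num {c : Cs} (h : YC c) {ρ : ℝ} (hρ : c.bl / 3 ≤ ρ) :
    (∀ j k, j ≤ k → c.E ρ j ≤ c.E ρ k) ∧ 10 ^ 4 * (c.CG * c.L) ≤ c.E ρ 1 ∧ 2 * c.lam ≤ c.E ρ 1 ∧
    c.E ρ (-1) ≤ c.e0 / 2 * c.w0 ∧ c.E ρ (-1) ≤ 1 / 10 ^ 4 ∧ 0 ≤ c.w0 := by
  have h8 := h.toWC.lam8
  have hL := h.L
  obtain a1 : 2 * c.lam ≤ c.a * ρ := by
    have := (div_le_iff₀ h.a).1 h.ab
    have := mul_le_mul_of_nonneg_left hρ h.a.le
    rw [Cs.bl] at this
    (rename_i zq0; nlinarith only [zq0, this, h8])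
  obtain eL : Real.exp c.lam = c.L := Real.exp_log (by linarith only [hL])
  obtain a2 : c.L * c.L ≤ c.E ρ 1 := by
    rw [← eL, ← Real.exp_add]; exact Real.exp_le_exp.2 (by linarith only [a1])
  obtain a3 : 10 ^ 4 * (c.CG * c.L) ≤ c.E ρ 1 := by nlinarith only [a2, hL, h.Lc]
  obtain a4 : c.lam ≤ c.L := (Real.log_le_sub_one_of_pos (by linarith only [hL])).trans (by linarith only [])
  obtain e0 : 0 < c.e0 := by rw [Cs.e0]; linarith only [h.k2]
  obtain a5 : c.E ρ (-1) = 1 / c.E ρ 1 := by rw [Cs.E, Cs.E, neg_mul, Real.exp_neg, one_div]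
  have a6 := h.l7
  rw [one_mul, eL] at a6
  refine ⟨fun j k hjk => Real.exp_le_exp.2 (mul_le_mul_of_nonneg_right hjk (by linarith only [h8, a1])), a3,
    by nlinarith only [h8, a2, a4, hL, h.cg], ?_, a5 ▸ one_div_le_one_div_of_le (by norm_num) (by linarith only [a3, h.toWC.gl]),
    by rw [Cs.w0]; positivity⟩
  rw [a5]
  refine (one_div_le_one_div_of_le (by positivity) (a6.trans (by nlinarith only [h8, a2, a4, hL]))).trans_eq ?_
  rw [Cs.w0]; field_simp

section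
variable {c : Cs} (h : YC c) {M : Mdl} (hM : M.OK c) {ρ t t' : ℝ} {S S' : Sq} {ξ w A : ℤ → ℝ}
  {Rg : Finset ℤ} {N : ℤ} (hρ : c.bl / 3 ≤ ρ) (T : TW c M ρ t S ξ w A Rg N)
include h hM hρ T

end

theorem runs_le (Rg : Finset ℤ) (N : ℤ) :
    ((Ico 1 N).filter fun i => i ∉ Rg.erase 0 ∧ (i - 1 ∈ Rg.erase 0 ∨ i = 1)).card ≤
      ((Ico 0 N).filter fun i => i ∉ Rg ∧ (i - 1 ∈ Rg ∨ i = 0)).card := by
  refine card_le_card_of_injOn (fun i => if i = 1 ∧ 0 ∉ Rg then 0 else i) (fun i hi => ?_)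
    fun i hi j hj e => ?_
  · simp only [coe_filter, mem_Ico, mem_erase, Set.mem_ofPred_eq] at hi ⊢
    split_ifs with z
    · exact ⟨by omega, z.2, .inr rfl⟩
    · refine ⟨by omega, fun a => hi.2.1 ⟨by omega, a⟩, .inl ?_⟩
      rcases hi.2.2 with a | rfl
      · exact a.2
      · simpa using z
  · simp only [coe_filter, mem_Ico, Set.mem_ofPred_eq] at hi hj e
    split_ifs at e <;> omega

theorem sd_eq (Rg : Finset ℤ) (N : ℤ) : Ico 1 N \ Rg.erase 0 = (Ico 0 N \ Rg).erase 0 := by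
  ext i; simp only [Finset.mem_sdiff, mem_Ico, mem_erase]; grind

end YTR

end
end Pool.Agent.MP_9cbfe4_an

end

/-! ### Part Y0 -/

section

/-! Rows YBVP0, YTR0, YCNT0: the proofs of YBVP, YTR, YCNT for the weaker hypotheses. -/

namespace Pool.Agent.MP_9cbfe4_an

open Finset Filter Topology

noncomputable section

namespace YB

theorem main0 {c : Cs} (h : Nm c) (hS : SOK_s c) : YBVP0_s c := by
  intro M hM ρ t S ξ w A Rg N t' p d hρ W hN ⟨ht', hτ, p1, p0, d1, d0⟩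
  have ep (k : ℝ) : 0 < c.E ρ k := Real.exp_pos _
  have hL := h.big.L
  have hCL : c.L ≤ c.CG * c.L := le_mul_of_one_le_left h.big.L_pos.le h.CG
  obtain E0 : c.E ρ 0 = 1 := by simp [Cs.E]
  have El (k l : ℝ) (hk : k + 1 ≤ l) : 1000 * c.E ρ k ≤ c.E ρ l := by
    obtain this := mul_le_mul_of_nonneg_right (show 1 ≤ c.CG * c.L by linarith only [hL, hCL]) (ep k).le
    linarith only [this, h.E_le hρ k l hk]
  generalize hκ : c.E ρ (-700) = κ
  have k0 : 0 < κ := hκ ▸ ep _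
  obtain k1 : 1000 * (c.L * κ) ≤ 1 := by
    obtain this := h.E_le hρ (-700) 0 (by norm_num)
    rw [hκ, E0] at this
    linarith only [this, mul_le_mul_of_nonneg_right hCL k0.le]
  obtain k2 : κ ≤ 1 / 100 := by nlinarith only [k0, k1, hL]
  obtain k3 : κ ≤ c.e0 * c.w0 / 4 :=
    le_of_mul_le_mul_right (by linarith only [k0, k1, k2, h.big.w0L]) h.big.L_pos
  obtain hΛ : 1 ≤ c.E ρ 40 := by linarith only [E0, k0, k2, El 0 40 (by norm_num)]
  let q : ℤ → ℝ → ℝ → ℝ := fun l x y => if 1 ≤ l then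
    M.G t' (S.X l + cl κ x) (S.X (l - 1) + cl κ y) - M.G t (S.X l) (S.X (l - 1))
      - S.a l * cl κ x - S.b l * cl κ y else 0
  have hc (l) : Continuous fun p : ℝ × ℝ => q l p.1 p.2 := by
    by_cases hl : 1 ≤ l
    · simp only [q, if_pos hl]
      have c1 : Continuous fun p : ℝ × ℝ => cl κ p.1 := (cl_cont κ).comp continuous_fst
      have c2 : Continuous fun p : ℝ × ℝ => cl κ p.2 := (cl_cont κ).comp continuous_snd
      refine ((Continuous.sub ?_ continuous_const).sub (c1.const_mul _)).sub (c2.const_mul _)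
      refine continuous_iff_continuousAt.2 fun p => ?_
      exact ContinuousAt.comp (f := fun p : ℝ × ℝ => (S.X l + cl κ p.1, S.X (l - 1) + cl κ p.2))
        (hM.der t' _ _ ht' (box_add (W.box l (by omega)) (abs_cl k0.le _) (by linarith only [k0, k2]))
          (box_add (W.box (l - 1) (by omega)) (abs_cl k0.le _) (by linarith only [k0, k2]))).continuousAt
        ((c1.const_add _).prodMk (c2.const_add _)).continuousAt
    · simp only [q, if_neg hl]; exact continuous_const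
  have hq (l x y) : |q l x y| ≤ c.E ρ (-998) := by
    by_cases hl : 1 ≤ l
    · simp only [q, if_pos hl]
      rw [W.orb.ha l (by omega), W.orb.hb l (by omega)]
      obtain a1 := El (-1000) 0 (by norm_num)
      refine (src h hM W.ht ht' (W.box l (by omega)) (W.box (l - 1) (by omega))
        (by simpa using W.core (l - 1) (by omega)) (abs_cl k0.le _) (abs_cl k0.le _) k2 k3 hτ
        (by linarith only [E0, k0, k2, a1])).trans ?_
      obtain a2 := h.E_le hρ (-700 + -700) (-998) (by norm_num)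
      rw [E_add, hκ] at a2
      linarith only [a2, El (-1000) (-998) (by norm_num), ep (-998)]
    · simp only [q, if_neg hl, abs_zero]; exact (ep _).le
  have wp := W.cert.pos'
  have hb (l) (hl : 0 ≤ l) := ((hS M hM t W.ht).2.2 S 0 l W.orb hl).2
  have chi0 (i j) : 0 ≤ S.chi c i j := by
    have a1 := h.big.k_lo
    have a2 := h.big.k_hi
    obtain a0 : 0 < c.k0 := by linarith only [k0, k2, a1]
    refine S.chi_nonneg c (Real.log_nonneg ?_) ?_ i j
    · rw [le_div_iff₀ a0]; linarith only [k0, k2, a2]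
    · have a3 := Real.log_le_sub_one_of_pos (one_div_pos.2 a0)
      obtain a4 : 1 / c.k0 ≤ 16 := by rw [div_le_iff₀ a0]; linarith only [a1]
      unfold Cs.chK; linarith only [k0, k2, a3, a4, h.bl.2]
  have self (j) (h0 : 0 ≤ j) (h1 : j ≤ N) : w j ≤ c.E ρ 40 * w j :=
    le_mul_of_one_le_left (wp j h0 h1).le hΛ
  obtain e2 : c.E ρ 40 ^ 2 = c.E ρ (40 + 40) := by rw [sq, E_add]
  obtain n1 : c.E ρ 40 ^ 2 * c.E ρ (-800) = c.E ρ (-720) := by rw [e2, ← E_add]; norm_num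
  obtain n2 : c.E ρ 1 * (c.E ρ 40 ^ 2 * c.E ρ (-998)) = c.E ρ (-917) := by
    rw [e2, ← E_add, ← E_add]; norm_num
  obtain n3 : c.E ρ 1 * c.E ρ (-720) = c.E ρ (-719) := by rw [← E_add]; norm_num
  obtain ⟨v, Z, hv, z1, z0, hZ, hb'⟩ := bvp S q hc (Λ := c.E ρ 40) (e := c.E ρ 1)
    (V := c.E ρ (-580)) hq hN W.maj W.w0 wp
    (fun i j a b b' => by
      rcases b.eq_or_lt with rfl | b
      · exact self i a b'
      · exact (W.pw i j (by omega) b b').1)
    (fun i j a b b' => by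
      rcases b.eq_or_lt with rfl | b
      · rw [S.Pb_self, abs_one, one_mul]; exact self i a b'
      obtain a1 : |S.Pb i j| ≤ S.PB c (15 / 1000) i j := by
        unfold Sq.Pb Sq.PB
        rw [abs_prod]
        refine prod_le_prod (fun _ _ => abs_nonneg _) fun l hl => ?_
        obtain this := hb l (by have := (mem_Ioc.1 hl).1; omega)
        rw [abs_of_nonneg (le_trans (by positivity) this.2.1)]
        exact this.1 _ (by norm_num)
      obtain a2 : Real.exp (-(1 - 3 * c.a) * S.chi c i j) ≤ 1 := Real.exp_le_one_iff.2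
        (mul_nonpos_of_nonpos_of_nonneg (by linarith only [h.a1]) (chi0 i j))
      refine (mul_le_mul_of_nonneg_right a1 (wp i a (by omega)).le).trans
        ((W.pw i j (by omega) b b').2.1.trans ?_)
      exact mul_le_mul_of_nonneg_right (mul_le_of_le_one_right (ep _).le a2)
        (wp j (by omega) b').le)
    (fun i j a b b' => by
      rcases b.eq_or_lt with rfl | b
      · rw [S.fr_succ_self, abs_zero, zero_mul]; exact (mul_pos (ep _) (wp i a b')).le
      obtain a1 := (W.pw i j (by omega) b b').2.2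
      unfold Sq.Bc at a1
      rw [div_le_iff₀ (wp j (by omega) b')] at a1
      obtain a2 := mul_le_mul_of_nonneg_left (show 1 ≤ c.L by linarith only [hL, k0, k2])
        (mul_nonneg (abs_nonneg (S.fr (i + 1) j)) (wp i a (by omega)).le)
      linarith only [a1, a2])
    W.wN
    (by
      obtain a1 := W.cert.fwd 0 le_rfl (by omega)
      rw [W.w0, zero_add] at a1
      linarith only [hL, hCL, k0, k2, a1, h.E1 hρ])
    (by linarith only [k0, k2, W.Nle]) p1 p0 d1 d0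
    (by rw [n1, n2]; linarith only [El (-720) (-580) (by norm_num), El (-917) (-580) (by norm_num), ep (-580)])
    (by linarith only [E0, k0, k2, El (-580) 0 (by norm_num), ep (-580)])
  have hZb (j) (h0 : 0 ≤ j) (h1 : j ≤ N) : |Z j| ≤ κ := by
    have := hb' j h0 h1
    rw [n1, n2, n3] at this
    linarith only [hκ, k0, this, El (-719) (-700) (by norm_num), El (-917) (-700) (by norm_num)]
  obtain q1 : p.1 + v * d.1 = S.X 1 + Z 1 := by rw [z1]; ring
  obtain q0 : p.2 + v * d.2 = S.X 0 + Z 0 := by rw [z0]; ring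
  obtain zb1 := hZb 1 (by (clear * -; omega)) hN
  obtain zb0 := hZb 0 le_rfl (by omega)
  obtain hO : IsOrb c M t' (M.lo t' p d v) 1 := by
    refine (hS M hM t' ht').1 1 _ ?_ ?_ ?_ <;> simp only [q1, q0]
    · exact box_add (W.box 1 (by omega)) zb1 (by linarith only [k0, k2])
    · exact box_add (W.box 0 (by omega)) zb0 (by linarith only [k0, k2])
    · intro a b
      obtain this := W.core 0 (by omega) (by rw [zero_add]; linarith only [k2, zb1, a, (dP_add (S.X 1) (Z 1)).2])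
        (by linarith only [k2, zb0, b, (dP_add (S.X 0) (Z 0)).2])
      unfold Core
      linarith only [k3, zb0, this, (dP_add (S.X 0) (Z 0)).1]
  obtain key : ∀ j, 1 ≤ j → j ≤ N → (M.lo t' p d v).X j = S.X j + Z j ∧
      (M.lo t' p d v).X (j - 1) = S.X (j - 1) + Z (j - 1) := by
    intro j hj
    induction j, hj using Int.leInduction with
    | base =>
      intro _
      rw [sub_self, ← q1, ← q0]
      constructor <;> simp [Mdl.lo, Mdl.orb, Mdl.pos]
    | succ j hj ih =>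
      intro hn
      obtain ⟨i1, i2⟩ := ih (by omega)
      rw [add_sub_cancel_right]
      refine ⟨?_, i1⟩
      rw [hO.step j hj, i1, i2, hZ j hj, W.orb.step j (by omega)]
      simp only [q, if_pos hj]
      rw [cl_eq (hZb j (by omega) (by omega)), cl_eq (hZb (j - 1) (by omega) (by omega))]
      ring
  refine ⟨v, hv, hO, fun j h0 h1 => ?_⟩
  obtain this : (M.lo t' p d v).X j = S.X j + Z j := by
    rcases h0.eq_or_lt with rfl | h0
    · simpa using (key 1 le_rfl hN).2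
    · exact (key j (by omega) h1).1
  rw [this, add_sub_cancel_left]
  exact hZb j h0 h1

end YB

theorem ybvp0 : Hier fun c => SOK_s c → YBVP0_s c := YB.nm.mono fun _ h => YB.main0 h

namespace YTR

section
variable {c : Cs} (h : YC c) {M : Mdl} (hM : M.OK c) {ρ t t' : ℝ} {S S' : Sq} {ξ w A : ℤ → ℝ}
  {Rg : Finset ℤ} {N : ℤ} (hρ : c.bl / 3 ≤ ρ) (T : TW0 c M ρ t S ξ w A Rg N)
include h hM hρ T

theorem coefZ (ht' : TI t') (l1 : |t' - t| ≤ 2 * c.E ρ (-1000)) (o' : IsOrb c M t' S' 1)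
    (hX : ∀ j, 0 ≤ j → j ≤ N → |S'.X j - S.X j| ≤ c.E ρ (-700)) :
    ∀ j, 1 ≤ j → j < N → |S'.a j - S.a j| ≤ c.E ρ (-699) ∧ |S'.b j - S.b j| ≤ c.E ρ (-699) := by
  obtain ⟨Em, G1, G2, G3, G4, w00⟩ := h.num hρ
  have Ep : ∀ k, 0 < c.E ρ k := fun k => Real.exp_pos _
  obtain E0 : c.E ρ 0 = 1 := by simp [Cs.E]
  have gl := h.toWC.gl
  have hL := h.L
  have cg := h.cg
  obtain e0 : 0 < c.e0 := by rw [Cs.e0]; linarith only [h.k2]
  obtain δ1 := Em (-700) (-1) (by norm_num)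
  have dPl : ∀ j, 0 ≤ j → j ≤ N → |dP (S'.X j) - dP (S.X j)| ≤ c.E ρ (-1) :=
    fun j a b => (dP_lip _ _).trans ((hX j a b).trans δ1)
  intro j j1 j2
  obtain x1 := hX j (by omega) j2.le
  obtain x2 := hX (j - 1) (by omega) (by omega)
  obtain ⟨m, m0, m1, pr⟩ : ∃ m, 0 ≤ m ∧ m ≤ c.CG * c.L ∧ Pair c (S.X j) (S.X (j - 1))
      (S'.X j) (S'.X (j - 1)) m := by
    by_cases z : dP (S.X j) < 5 / 100 ∧ dP (S.X (j - 1)) < 5 / 100
    · obtain this := T.core (j - 1) (by omega) (by rw [sub_add_cancel]; exact z.1) z.2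
      refine ⟨_, by linarith only [gl], le_rfl, by linarith only [G4, δ1, x1], .inr ⟨rfl, by nlinarith only [this, w00, e0], ?_, by linarith only [G4, δ1, x2]⟩⟩
      nlinarith only [G3, this, j1, j2, w00, e0, (abs_le.1 (dPl (j - 1) (by omega) (by omega))).2]
    · refine ⟨_, h.toWC.dl.1, h.toWC.dl.2.trans gl, by linarith only [G4, δ1, x1], .inl ⟨rfl, ?_⟩⟩
      rw [not_and_or, not_lt, not_lt] at z
      exact z.imp (fun a => by linarith only [G4, δ1, x1, a]) fun a => by linarith only [G4, δ1, x2, a]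
  obtain ⟨-, y1, y2⟩ := hM.tay t t' _ _ _ _ m T.ht ht' (T.orb.box j (by omega))
    (T.orb.box (j - 1) (by omega)) (o'.box j (by omega)) (o'.box (j - 1) (by omega)) pr
  rw [← o'.ha j j1, ← T.orb.ha j (by omega)] at y1
  rw [← o'.hb j j1, ← T.orb.hb j (by omega)] at y2
  obtain y3 : c.dl * |t' - t| ≤ 2 * c.E ρ (-700) :=
    (mul_le_of_le_one_left (abs_nonneg _) h.toWC.dl.2).trans
      (by linarith only [l1, Em (-1000) (-700) (by norm_num)])
  obtain y4 : 4 * (c.CG * c.L) * c.E ρ (-700) ≤ c.E ρ (-699) :=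
    (mul_le_mul_of_nonneg_right (show _ ≤ c.E ρ 1 by linarith only [G1, gl]) (Ep _).le).trans_eq
      (by rw [E_mul]; norm_num)
  obtain y5 := mul_le_mul m1 x1 (abs_nonneg _) (by linarith only [gl])
  obtain y6 := mul_le_mul m1 x2 (abs_nonneg _) (by linarith only [gl])
  obtain y7 := mul_le_mul_of_nonneg_left x1 (show 0 ≤ c.CG * c.L by linarith only [gl])
  have y8 := mul_le_mul_of_nonneg_right gl (Ep (-700)).le
  constructor <;> linarith only [y1, y3, y4, y6, y7, y8, y2, y5]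

omit hM in
theorem resZ (hd : ∀ j, 1 ≤ j → j < N →
      |S'.a j - S.a j| ≤ c.E ρ (-699) ∧ |S'.b j - S.b j| ≤ c.E ρ (-699))
    {u u' : ℤ → ℝ} {s : ℤ} {K : ℝ} (s1 : 1 ≤ s) (K0 : 0 ≤ K)
    (hu : ∀ j, s ≤ j → j < N → u (j + 1) = S.a j * u j + S.b j * u (j - 1))
    (hu' : ∀ j, s ≤ j → j < N → u' (j + 1) = S'.a j * u' j + S'.b j * u' (j - 1))
    (hK : ∀ j, s - 1 ≤ j → j ≤ N → |u j| ≤ K * w j)
    (h0 : |u' (s - 1) - u (s - 1)| ≤ c.E ρ (-600) * K * w (s - 1))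
    (h1 : ∀ j, s ≤ j → j ≤ N → |(u' s - u s) * S.fr s j +
      S.b s * (u' (s - 1) - u (s - 1)) * S.fr (s + 1) j| ≤ c.E ρ (-601) * K * w j) :
    ∀ j, s - 1 ≤ j → j ≤ N → |u' j - u j| ≤ c.E ρ (-600) * K * w j := by
  obtain ⟨Em, G1, G2, G3, G4, w00⟩ := h.num hρ
  have Ep : ∀ k, 0 < c.E ρ k := fun k => Real.exp_pos _
  obtain E0 : c.E ρ 0 = 1 := by simp [Cs.E]
  have gl := h.toWC.gl
  have hL := h.L
  have cg := h.cg
  have wp := T.cert.pos'
  obtain Λ1 : 1 ≤ c.E ρ 40 := E0 ▸ Em 0 40 (by norm_num)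
  obtain ι2 : c.E ρ (-601) ≤ c.E ρ (-600) / 2 := by
    have := E_mul c ρ (-601) 1
    norm_num at this
    nlinarith only [this, G1, gl, Ep (-601)]
  refine pert (fun j a b => wp j (by omega) b) K0 (Ep (-699)).le (Ep 40).le
    (E0 ▸ Em _ _ (by norm_num)) hu hu' hK (fun j a b => hd j (by omega) b)
    (fun j a b => (T.pw (j - 1) j (by omega) (by omega) b.le).1) (fun i j a b e => ?_) h0
    (fun j a b => (h1 j a b).trans (mul_le_mul_of_nonneg_right (mul_le_mul_of_nonneg_right ι2 K0)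
      (wp j (by omega) b).le)) ?_
  · exact le_trans (mul_le_mul_of_nonneg_right (le_mul_of_one_le_right (abs_nonneg _) hL)
      (wp i (by omega) (by omega)).le)
      ((div_le_iff₀ (wp j (by omega) e)).1 (T.pw i j (by omega) b e).2.2)
  · obtain this : (1 : ℝ) ≤ s := by exact_mod_cast s1
    have := Ep (-699)
    have := Ep 1
    calc _ ≤ c.E ρ 1 * (c.E ρ 40 * (c.E ρ (-699) * (c.E ρ 1 * c.E ρ 40))) := by
          gcongr ?_ * (_ * (_ * ?_))
          · push_cast; (rename_i zq1 _; linarith only [zq1, T.Nle])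
          · nlinarith only [G1, gl, Λ1]
      _ ≤ _ := by simp only [E_mul]; exact (Em _ _ (by norm_num)).trans ι2

theorem res1Z (hd : ∀ j, 1 ≤ j → j < N →
      |S'.a j - S.a j| ≤ c.E ρ (-699) ∧ |S'.b j - S.b j| ≤ c.E ρ (-699)) (N1 : 1 ≤ N)
    {d : ℝ × ℝ} (l4 : |d.1 - ξ 1| ≤ c.E ρ (-800)) (l5 : |d.2 - ξ 0| ≤ c.E ρ (-800)) :
    ∀ j, 0 ≤ j → j ≤ N → |S'.ltg d j - ξ j| ≤ w j / 100 := by
  obtain ⟨Em, G1, G2, G3, G4, w00⟩ := h.num hρ
  have Ep : ∀ k, 0 < c.E ρ k := fun k => Real.exp_pos _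
  obtain E0 : c.E ρ 0 = 1 := by simp [Cs.E]
  have gl := h.toWC.gl
  have hL := h.L
  have cg := h.cg
  obtain ⟨g0, g1, gs⟩ := ltg_sol S' d
  have wp := T.cert.pos'
  obtain hf : ∀ i j, 0 ≤ i → i < j → j ≤ N → |S.fr (i + 1) j| * w i ≤ c.E ρ 40 * w j :=
    fun i j a b e => le_trans (mul_le_mul_of_nonneg_right (le_mul_of_one_le_right (abs_nonneg _) hL)
      (wp i a (by omega)).le) ((div_le_iff₀ (wp j (by omega) e)).1 (T.pw i j (by omega) b e).2.2)
  refine fun j a b => (resZ h hρ T hd le_rfl zero_le_one (fun j a b => T.maj.1 j (by omega) b)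
    (fun j a _ => gs j a) (fun j a b => T.maj.2 j (by omega) b)
    (by rw [sub_self, g0, T.w0, mul_one, mul_one]; exact l5.trans (Em _ _ (by norm_num)))
    (fun j j1 j2 => ?_) j (by omega) b).trans
    (by nlinarith only [G4, wp j a b, Em (-600) (-1) (by norm_num)])
  obtain b1 : |S.b 1| ≤ c.E ρ 1 := by
    rw [T.orb.hb 1 (by norm_num), abs_of_nonneg (le_trans (by positivity) (hM.b_lo t _ _ T.ht
      (T.orb.box _ (by norm_num)) (T.orb.box _ (by norm_num))))]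
    exact (hM.b_hi t _ _ T.ht (T.orb.box _ (by norm_num)) (T.orb.box _ (by norm_num))).trans
      (by nlinarith only [G1, gl, cg, hL, h.k2])
  obtain wj := wp j (by omega) j2
  have p1 := Ep 1
  have p2 := Ep 40
  have p3 := Ep (-800)
  obtain f1 : |S.fr 1 j| ≤ c.E ρ 40 * w j := by
    simpa [T.w0] using hf 0 j le_rfl (by omega) j2
  obtain f2 : |S.fr (1 + 1) j| ≤ c.E ρ 40 * (c.E ρ 40 * w j) := by
    rcases j1.eq_or_lt with rfl | j1
    · rw [Sq.fr_succ_self, abs_zero]; (clear * - p2 wj; positivity)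
    · obtain this := (T.pw 0 1 (by norm_num) one_pos N1).1
      rw [T.w0] at this
      nlinarith only [p2, this, hf 1 j zero_le_one j1 j2, abs_nonneg (S.fr (1 + 1) j)]
  rw [sub_self, g0, g1, mul_one]
  refine (abs_add_le _ _).trans ?_
  rw [abs_mul, abs_mul, abs_mul]
  calc _ ≤ c.E ρ (-800) * (c.E ρ 40 * w j) +
        c.E ρ 1 * c.E ρ (-800) * (c.E ρ 40 * (c.E ρ 40 * w j)) := by (clear * - l4 f1 p3 b1 l5 p1 f2; gcongr)
    _ = (c.E ρ (-800) * c.E ρ 40 + c.E ρ 1 * c.E ρ (-800) * c.E ρ 40 * c.E ρ 40) * w j := by ring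
    _ ≤ _ := by
      refine mul_le_mul_of_nonneg_right ?_ wj.le
      simp only [E_mul]
      have := E_mul c ρ (-602) 1
      rw [show (-602 + 1 : ℝ) = -601 by norm_num] at this
      nlinarith only [this, G1, gl, Em (-800 + 40) (-602) (by norm_num), Em (1 + -800 + 40 + 40) (-602) (by norm_num),
        Ep (-602)]

omit hM in
theorem res2Z (hd : ∀ j, 1 ≤ j → j < N →
      |S'.a j - S.a j| ≤ c.E ρ (-699) ∧ |S'.b j - S.b j| ≤ c.E ρ (-699)) (i j : ℤ) (i0 : 0 ≤ i)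
    (ij : i < j) (jN : j ≤ N) : |S'.fr (i + 1) j| * c.L * w i ≤
      |S.fr (i + 1) j| * c.L * w i + c.E ρ (-600 + 40) * w j := by
  have wp := T.cert.pos'
  have Ep : ∀ k, 0 < c.E ρ k := fun k => Real.exp_pos _
  obtain q := mul_pos (show 0 < c.L by linarith only [h.L]) (wp i i0 (by omega))
  have K := div_pos (Ep 40) q
  obtain this := resZ h hρ T hd (u := S.fr (i + 1)) (u' := S'.fr (i + 1)) (s := i + 1) (by omega) K.le
    (fun j a _ => S.fr_succ a) (fun j a _ => Sq.fr_succ _ a)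
    (fun l a b => by
      rw [div_mul_eq_mul_div, le_div_iff₀ q, ← mul_assoc]
      rcases (show i ≤ l by omega).eq_or_lt with rfl | a
      · rw [Sq.fr_succ_self, abs_zero, zero_mul, zero_mul]; exact (mul_pos (Ep _) (wp _ i0 b)).le
      · exact (div_le_iff₀ (wp l (by omega) b)).1 (T.pw i l (by omega) a b).2.2)
    (by
      rw [Sq.fr_pred, Sq.fr_pred, sub_self, abs_zero]
      exact (mul_pos (mul_pos (Ep _) K) (wp _ (by omega) (by omega))).le)
    (fun l a b => by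
      rw [Sq.fr_pred, Sq.fr_pred, Sq.fr_self, Sq.fr_self]
      simp only [sub_self, mul_zero, zero_mul, add_zero, abs_zero]
      exact (mul_pos (mul_pos (Ep _) K) (wp _ (by omega) b)).le) j (by omega) jN
  rw [← mul_div_assoc, E_mul, div_mul_eq_mul_div, le_div_iff₀ q] at this
  linarith only [this, mul_le_mul_of_nonneg_right
    (abs_sub_abs_le_abs_sub (S'.fr (i + 1) j) (S.fr (i + 1) j)) q.le]

end

theorem ytr_ofZ {c : Cs} (h : YC c) : YTR0_s c := by
  classical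
  intro M hM ρ t S ξ w A Rg N t' p d v hρ T N1 ⟨ht', l1, _, _, l4, l5⟩ hv o' hX
  obtain ⟨Em, G1, G2, G3, G4, w00⟩ := h.num hρ
  have Ep : ∀ k, 0 < c.E ρ k := fun k => Real.exp_pos _
  obtain E0 : c.E ρ 0 = 1 := by simp [Cs.E]
  have gl := h.toWC.gl
  have hL := h.L
  have cg := h.cg
  obtain e0 : 0 < c.e0 := by rw [Cs.e0]; linarith only [h.k2]
  obtain e1 : c.e0 ≤ 1 := by rw [Cs.e0]; linarith only [h.k1]
  have GL : 10 ^ 4 * c.L ≤ c.E ρ 1 := by nlinarith only [G1, cg, hL]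
  obtain δ1 := Em (-700) (-1) (by norm_num)
  have hN := T.Nle
  obtain ⟨-, -, gs⟩ := ltg_sol (M.lo t' p d v) d
  have hd := coefZ h hM hρ T ht' l1 o' hX
  have xd := res1Z h hM hρ T hd N1 l4 l5
  have P2 := res2Z h hρ T hd
  generalize hξ' : (M.lo t' p d v).ltg d = ξ' at gs xd
  have C := T.cert
  have wp : ∀ j, 0 ≤ j → j ≤ N → 0 < w j := C.pos'
  have dPl : ∀ j, 0 ≤ j → j ≤ N → |dP ((M.lo t' p d v).X j) - dP (S.X j)| ≤ c.E ρ (-1) :=
    fun j a b => (dP_lip _ _).trans ((hX j a b).trans δ1)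
  have Ap : ∀ j, 0 ≤ j → j ≤ N → 1 ≤ A j := fun j a b => T.lo.trans (C.mono 0 j le_rfl a b)
  obtain tn : ∀ j i, 0 ≤ |S.fr (i + 1) j| * c.L * w i ^ 2 := fun j i => by (clear * - hL; positivity)
  obtain wA : ∀ i, 0 ≤ i → i < N → w i ≤ 100 * A (i + 1) := by
    intro i a b
    obtain this := (single_le_sum (fun l _ => tn (i + 1) l) (mem_Ico.2 ⟨a, lt_add_one i⟩)).trans
      (C.dd (i + 1) (by omega) (by omega))
    rw [Sq.fr_self, abs_one, one_mul] at this
    refine le_of_mul_le_mul_left ?_ (mul_pos (show 0 < c.L by linarith only [hL]) (wp i a b.le))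
    linarith only [this, mul_le_mul_of_nonneg_left (C.fwd i a b)
      (show 0 ≤ A (i + 1) by linarith only [a, b, Ap (i + 1) (by omega) (by omega)])]
  have A1 := Ap 1 zero_le_one N1
  obtain d8 : c.E ρ (-800) ≤ 1 := E0 ▸ Em _ _ (by norm_num)
  refine ⟨ht', N1, hv, ⟨?_, ?_⟩, o', ⟨by rw [sub_self, T.w0]; exact zero_le_one,
      fun j a b => wp j (by omega) b, fun j a b x y => C.backK j (by omega) b ?_ ?_,
      fun j a b => C.back j (by omega) b, fun j a b => C.fwd j (by omega) b,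
      fun i j a b e => by linarith only [a, C.mono i j (by omega) b e], by linarith only [A1], fun j a b => ?_⟩,
    C.back 1 one_pos N1, fun x y => ?_, hξ' ▸ ⟨fun j a _ => gs j a, fun j a b => ?_⟩,
    fun j a b => ?_, fun i hi => ?_, fun i hi => ?_, le_trans (Nat.cast_le.2 ?_) T.runs,
    by linarith only [A1], ?_⟩
  · obtain this := C.fwd 0 le_rfl (by omega)
    rw [T.w0, zero_add] at this
    (rename_i zq0; linarith only [l4, G1, gl, zq0, d8, this, abs_sub_abs_le_abs_sub d.1 (ξ 1), T.maj.2 1 (by norm_num) N1])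
  · linarith only [l5, G1, gl, d8, abs_sub_abs_le_abs_sub d.2 (ξ 0), T.maj.2 0 (by norm_num) T.N0, T.w0]
  · linarith only [G4, x, a, (abs_le.1 (dPl j (by omega) b.le)).1]
  · linarith only [G4, y, a, b, (abs_le.1 (dPl (j - 1) (by omega) (by omega))).1]
  · obtain wj := wp j (by omega) b
    obtain Aj := Ap j (by omega) b
    obtain e : ((Ico 1 j).card : ℝ) ≤ c.E ρ 1 := by
      rw [Int.card_Ico, ← Int.cast_natCast]
      exact (Int.cast_le.2 (show _ ≤ N by omega)).trans (by linarith only [hN])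
    obtain e2 : c.E ρ 1 * (c.E ρ (-600 + 40) * c.E ρ 1) ≤ 1 := by
      simp only [E_mul]; exact (Em _ 0 (by norm_num)).trans_eq E0
    calc _ ≤ ∑ i ∈ Ico 1 j, (|S.fr (i + 1) j| * c.L * w i ^ 2 +
          c.E ρ (-600 + 40) * c.E ρ 1 * (A j * w j)) := sum_le_sum fun i hi => by
          obtain ⟨i1, i2⟩ := mem_Ico.1 hi
          obtain x : w i ≤ c.E ρ 1 * A j := by
            nlinarith only [G1, gl, Aj, i1, i2, wA i (by omega) (by omega), C.mono (i + 1) j (by omega) (by omega) b]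
          linarith only [i1, mul_le_mul_of_nonneg_right (P2 i j (by omega) i2 b) (wp i (by omega) (by omega)).le,
            mul_le_mul_of_nonneg_left x (mul_pos (Ep (-600 + 40)) wj).le]
      _ ≤ A j * w j + c.E ρ 1 * (c.E ρ (-600 + 40) * c.E ρ 1 * (A j * w j)) := by
          rw [sum_add_distrib, sum_const, nsmul_eq_mul]
          refine add_le_add (le_trans (sum_le_sum_of_subset_of_nonneg
            (Ico_subset_Ico_left zero_le_one) fun i _ _ => tn j i) (C.dd j (by omega) b))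
            (mul_le_mul_of_nonneg_right e ?_)
          have := Ep (-600 + 40)
          have := Ep 1
          (rename_i zq0; clear * - zq0 this Aj wj; positivity)
      _ ≤ _ := by linarith only [Aj, wj, mul_le_mul_of_nonneg_right e2 (show 0 ≤ A j * w j by (clear * - Aj wj; positivity))]
  · have x' := (abs_le.1 (dPl 1 zero_le_one N1)).1
    rcases N1.eq_or_lt with rfl | N2
    · linarith only [G4, x, x', T.far]
    · exact C.backK 1 one_pos N2 (by linarith only [G4, x, x'])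
        (by rw [sub_self]; linarith only [G4, y, (abs_le.1 (dPl 0 le_rfl T.N0)).1])
  · linarith only [a, abs_sub_abs_le_abs_sub (ξ' j) (ξ j), xd j (by omega) b, T.maj.2 j (by omega) b,
      wp j (by omega) b]
  · have AN := Ap N T.N0 le_rfl
    rcases b.eq_or_lt with rfl | b
    · obtain x := C.fwd (j - 1) (by omega) (by omega)
      obtain y := wA (j - 1) (by omega) (by omega)
      rw [sub_add_cancel] at x y
      (rename_i zq0; nlinarith only [G1, gl, zq0, AN, x, mul_le_mul_of_nonneg_left y (show 0 ≤ c.L by linarith only [hL])])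
    · nlinarith only [G1, gl, AN, wA j a b, C.mono (j + 1) N (by omega) (by omega) le_rfl]
  · have := mem_Ico.1 (T.sub (mem_of_mem_erase hi))
    have := ne_of_mem_erase hi
    exact mem_Ico.2 (by omega)
  · obtain ⟨i0, i1⟩ := mem_Ico.1 (T.sub (mem_of_mem_erase hi))
    obtain ⟨r1, r2, r3⟩ := T.reg i (mem_of_mem_erase hi)
    rw [hξ']
    refine ⟨by nlinarith only [G3, w00, r1, e1, (abs_le.1 (dPl i i0 i1.le)).2], ?_, by linarith only [r3]⟩
    linarith only [r2, abs_sub_abs_le_abs_sub (ξ i) (ξ' i), abs_sub_comm (ξ i) (ξ' i), xd i i0 i1.le,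
      abs_nonneg (ξ' i)]
  · convert runs_le Rg N
  · have ct := T.cost
    simp only [mul_div_mul_left _ _ (two_ne_zero' ℝ), sd_eq]
    obtain x1 : ∀ y, 0 < y → y ≤ c.E ρ 1 → Real.log y ≤ c.a * ρ := fun y a b =>
      (Real.log_le_iff_le_exp a).2 (by rwa [Cs.E, one_mul] at b)
    obtain x2 := x1 2 two_pos (by linarith only [G1, gl])
    have x3 := Real.log_pos one_lt_two
    by_cases z : 0 ∈ Rg
    · have r := (T.reg 0 z).2.2
      rw [T.w0, zero_add, mul_one] at r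
      rw [erase_eq_of_notMem fun a => (Finset.mem_sdiff.1 a).2 z]
      linarith only [ct, x2, x3, A1, G2, r, x1 (2 * A 1) (by linarith only [A1]) (by linarith only [G2, r]), Real.log_nonneg T.lo]
    · rw [← add_sum_erase _ _ (Finset.mem_sdiff.2 ⟨mem_Ico.2 ⟨le_rfl, by (clear * - N1; omega)⟩, z⟩), zero_add,
        Real.log_div (by linarith only [A1]) (by linarith only [T.lo])] at ct
      rw [Real.log_mul two_ne_zero (by linarith only [A1])]
      linarith only [ct, x2, x3]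

end YTR

theorem ytr0 : Hier fun c => YTR0_s c := YTR.hier_YC.mono fun _ h => YTR.ytr_ofZ h

open YCNT in
theorem ycnt0 : YCNT0_s := by
  classical
  intro N R Dm x hN hR hx hx1
  let V : Set (Finset ℤ × (ℤ → ℕ)) := {p | Sup N p ∧
    ∑ i ∈ Ico 1 N, (dn p.1 i : ℝ) ≤ R ∧ ∑ i ∈ Ico 1 N, (p.2 i : ℝ) ≤ Dm}
  let M : ℕ := ⌈Dm⌉₊ + 3
  let en : Finset ℤ × (ℤ → ℕ) → (↥(Ico (1 : ℤ) N) → ℕ) := fun p i => enc p i.1
  let Pi : Finset (↥(Ico (1 : ℤ) N) → ℕ) := Fintype.piFinset fun _ => range (M + 1)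
  have hinj : Set.InjOn en V := fun p hp q hq h =>
    enc_inj hp.1 hq.1 fun i hi => congrFun h ⟨i, hi⟩
  obtain hmaps : Set.MapsTo en V Pi := fun p hp => by
    simp only [Pi, Fintype.coe_piFinset, Set.mem_pi, Set.mem_univ, coe_range, Set.mem_Iio,
      forall_const]
    intro i
    have h1 : (p.2 i.1 : ℝ) ≤ Dm :=
      (single_le_sum (f := fun i => (p.2 i : ℝ)) (fun _ _ => Nat.cast_nonneg _) i.2).trans hp.2.2
    obtain h2 : p.2 i.1 ≤ ⌈Dm⌉₊ := by exact_mod_cast h1.trans (Nat.le_ceil Dm)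
    have := hp.1.cases i.1
    simp only [en, enc, M]
    omega
  have hfin : V.Finite := Set.Finite.of_injOn hmaps hinj Pi.finite_toSet
  obtain hl : 0 ≤ Real.log (1 / x) := Real.log_nonneg (by rw [le_div_iff₀ hx]; linarith only [hx1])
  have hl2 : 0 < Real.log 2 := Real.log_pos one_lt_two
  set W0 := Real.exp (-(2 * R * Real.log (1 / x) + Real.log 2 * (3 * R + Dm))) with hW0
  obtain hW : ∀ p ∈ V, W0 ≤ ∏ i, wt x (en p i) := fun p hp => by
    have e : ∏ i, wt x (en p i) = ∏ i ∈ Ico (1 : ℤ) N, wt x (enc p i) :=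
      prod_coe_sort (Ico (1 : ℤ) N) fun i => wt x (enc p i)
    rw [e, prod_congr rfl fun i _ => wt_enc hp.1 hx i, ← Real.exp_sum]
    refine Real.exp_le_exp.2 ?_
    rw [sum_neg_distrib, neg_le_neg_iff, sum_add_distrib, ← mul_sum, ← mul_sum, sum_add_distrib,
      sum_add_distrib, sum_add_distrib, ← mul_sum]
    have a := up_le p.1 N
    have b := hp.2.1
    have c := hp.2.2
    nlinarith only [hl, a, b, hl2, c]
  obtain hcard : (hfin.toFinset.card : ℝ) * W0 ≤ Real.exp (x * N) := by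
    calc (hfin.toFinset.card : ℝ) * W0 = ∑ _p ∈ hfin.toFinset, W0 := by simp
      _ ≤ ∑ p ∈ hfin.toFinset, ∏ i, wt x (en p i) :=
          sum_le_sum fun p hp => hW p (hfin.mem_toFinset.1 hp)
      _ = ∑ e ∈ hfin.toFinset.image en, ∏ i, wt x (e i) := by
          rw [sum_image fun p hp q hq h =>
            hinj (hfin.mem_toFinset.1 hp) (hfin.mem_toFinset.1 hq) h]
      _ ≤ ∑ e ∈ Pi, ∏ i, wt x (e i) := by
          refine sum_le_sum_of_subset_of_nonneg (fun e he => ?_)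
            fun e _ _ => prod_nonneg fun i _ => wt_nonneg hx _
          obtain ⟨p, hp, rfl⟩ := mem_image.1 he
          exact hmaps (hfin.mem_toFinset.1 hp)
      _ = ∏ _i : ↥(Ico (1 : ℤ) N), ∑ k ∈ range (M + 1), wt x k := (prod_univ_sum _ _).symm
      _ ≤ ∏ _i : ↥(Ico (1 : ℤ) N), Real.exp x := by
          refine prod_le_prod (fun _ _ => sum_nonneg fun _ _ => wt_nonneg hx _) fun _ _ => ?_
          rw [wt_sum]
          have := Real.add_one_le_exp x
          obtain this : 0 ≤ x / 2 ^ M := by (clear * - hx; positivity)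
          (rename_i zq0; linarith only [zq0, this])
      _ ≤ Real.exp (x * N) := by
          rw [prod_const, card_univ, Fintype.card_coe, Int.card_Ico, ← Real.exp_nat_mul]
          refine Real.exp_le_exp.2 ?_
          obtain h1 : (((N - 1).toNat : ℤ) : ℝ) ≤ N := by exact_mod_cast (by omega)
          rw [mul_comm]
          exact mul_le_mul_of_nonneg_left (by exact_mod_cast h1) hx.le
  refine ⟨hfin.toFinset, ?_, fun Rg D h1 h4 h5 h6 => hfin.mem_toFinset.2 ⟨⟨h1, h5⟩, ?_, h6⟩⟩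
  · have hW0p : 0 < W0 := Real.exp_pos _
    refine ((le_div_iff₀ hW0p).2 hcard).trans (le_of_eq ?_)
    rw [hW0, ← Real.exp_sub]; congr 1; ring
  · rw [dn_eq Rg N]
    convert h4

end
end Pool.Agent.MP_9cbfe4_an

end

/-! ### Part Y4 -/

section

/-! Rows Y4, Y5. -/

namespace Pool.Agent.MP_9cbfe4_an

open Finset Filter Topology

noncomputable section

namespace YA

lemma classes2 {Z κ τ : Type} (key : Z → κ) (σ : Z → τ) (KS : Finset κ) (hk : ∀ z, key z ∈ KS)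
    (B : ℝ) (hB : 0 ≤ B) (R : Z → Z → Prop)
    (h : ∀ k, ∃ (K : ℕ) (cl : {z // (key z, σ z) = k} → Fin K), (K : ℝ) ≤ B ∧
      ∀ z z', cl z = cl z' → R z.1 z'.1) :
    ∃ (n : ℕ) (cl : Z → Fin n), (n : ℝ) ≤ KS.card * B ∧
      ∀ z z', cl z = cl z' → key z = key z' ∧ (σ z = σ z' → R z z') := by
  choose K cl hK hR using h
  obtain hf : ∀ z k (e : (key z, σ z) = k),
      ((cl (key z, σ z) ⟨z, rfl⟩ : Fin _) : ℕ) = cl k ⟨z, e⟩ := by
    intro z k e; subst e; rfl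
  let g : Z → KS × Fin ⌊B⌋₊ := fun z => (⟨key z, hk z⟩, ⟨cl (key z, σ z) ⟨z, rfl⟩,
    lt_of_lt_of_le (cl (key z, σ z) ⟨z, rfl⟩).2 (Nat.le_floor (hK _))⟩)
  refine ⟨Fintype.card (KS × Fin ⌊B⌋₊), fun z => Fintype.equivFin _ (g z), ?_, fun z z' e => ?_⟩
  · simp only [Fintype.card_prod, Fintype.card_coe, Fintype.card_fin, Nat.cast_mul]
    exact mul_le_mul_of_nonneg_left (Nat.floor_le hB) (by (clear * -; positivity))
  · have e' := (Fintype.equivFin _).injective e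
    have e1 : key z' = key z := (congrArg (fun x => (x.1 : κ)) e').symm
    refine ⟨e1.symm, fun e3 => ?_⟩
    obtain e4 : (key z', σ z') = (key z, σ z) := by rw [e1, e3]
    have e2 : ((cl (key z, σ z) ⟨z, rfl⟩ : Fin _) : ℕ) = (cl (key z', σ z') ⟨z', rfl⟩ : Fin _) :=
      congrArg (fun x => (x.2 : ℕ)) e'
    rw [hf z' _ e4] at e2
    exact hR _ ⟨z, rfl⟩ ⟨z', e4⟩ (Fin.ext e2)

open Classical in
lemma core4 {c : Cs} (nu : Num c) (hbvp : YBVP0_s c) (htr : YTR0_s c) (hcov : YCOV_s c) :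
    Y4_s c := by
  intro M hM ρ Z t S ξ w A Rg N hρ hT ht hN
  obtain bl0 : 0 < c.bl := by linarith only [nu.bl1]
  obtain ρ0 : 0 < ρ := by linarith only [hρ, bl0]
  obtain q : 100 ≤ c.a * ρ := by nlinarith only [hρ, nu.abl, nu.a0]
  obtain q0 : 0 ≤ c.a * ρ := by linarith only [q]
  obtain rb : ρ / c.bl ≤ c.a * ρ / 300 := by
    rw [div_le_div_iff₀ bl0 (by norm_num)]; nlinarith only [hρ, bl0, nu.abl]
  obtain rb0 : 0 ≤ ρ / c.bl := by positivity
  obtain hL : 100 * c.L ≤ c.E ρ 1 := nu.L.trans (Real.exp_le_exp.2 (by nlinarith only [hρ, nu.a0]))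
  set e := c.E ρ (-800) with he
  have e0 : 0 < e := E_pos ..
  set B := c.E ρ 801 with hB
  obtain Be : B * e = c.E ρ 1 := by rw [hB, he, ← E_add]; norm_num
  choose T hT1 hT2 using fun n : ℤ => fun h : 0 ≤ n => ycnt0 n (41 * ρ / c.bl) (146 * (c.a * ρ))
    (1 / c.bl) h (by positivity) (by positivity) (by rw [div_le_one bl0]; exact nu.bl1)
  let Rg' : Z → Finset ℤ := fun z => (Rg z).erase 0
  let D : Z → ℤ → ℕ := fun z => DD (Rg' z) (N z) fun j => 2 * A z j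
  let σ : Z → Finset ℤ := fun z => (Rg' z).filter fun i => 0 < (S z).X i
  let x1 : Z → ℝ := fun z => if 1 ≤ N z then ξ z 1 else 0
  let key : Z → (ℤ × (Finset ℤ × (ℤ → ℕ))) × (ℤ × ℤ) × (ℤ × ℤ) := fun z =>
    ((N z, Rg' z, D z), (⌊(S z).X 1 / e⌋, ⌊(S z).X 0 / e⌋), (⌊x1 z / e⌋, ⌊ξ z 0 / e⌋))
  let I := Icc (-⌈B⌉) ⌈B⌉
  let NS : Finset ℤ := (Icc (0 : ℤ) ⌊c.E ρ 1⌋).filter fun n : ℤ => (n : ℝ) ≤ 3 * ρ
  let K1 : Finset (ℤ × (Finset ℤ × (ℤ → ℕ))) :=
    NS.biUnion fun n => if h : 0 ≤ n then (T n h).image fun x => (n, x) else ∅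
  let KS := K1 ×ˢ ((I ×ˢ I) ×ˢ (I ×ˢ I))
  obtain hsub : ∀ z, Rg' z ⊆ Ico 1 (N z) := fun z i hi => by
    have h1 := Finset.mem_erase.1 hi
    have h2 := Finset.mem_Ico.1 ((hT z).sub h1.2)
    exact Finset.mem_Ico.2 ⟨by omega, h2.2⟩
  obtain hkey : ∀ z, key z ∈ KS := by
    intro z
    have W := hT z
    obtain mT : (Rg' z, D z) ∈ T (N z) W.N0 := by
      rcases lt_or_ge (N z) 1 with h | h
      · obtain e1 : Ico 1 (N z) = ∅ := Finset.Ico_eq_empty (by omega)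
        refine hT2 _ W.N0 _ _ (hsub z) ?_
          (fun i hi => DD_supp _ (hsub z) hi) ?_
        · rw [e1]; simp; positivity
        · rw [e1]; simp; positivity
      · obtain nl : NearL c ρ (t z) (S z) (ξ z) (t z) ((S z).X 1, (S z).X 0) (ξ z 1, ξ z 0) :=
          ⟨W.ht, ht z z, by simpa using e0.le, by simpa using e0.le, by simpa using e0.le,
            by simpa using e0.le⟩
        obtain ⟨v, v1, v2, v3⟩ := hbvp M hM ρ _ _ _ _ _ _ _ _ _ _ hρ W h nl
        have sw := htr M hM ρ _ _ _ _ _ _ _ _ _ _ v hρ W h nl v1 v2 v3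
        refine hT2 _ W.N0 _ _ (hsub z) sw.runs
          (fun i hi => DD_supp _ (hsub z) hi) ?_
        have s1 := DD_sum (Rg := Rg' z) sw.cert.mono sw.cert.Apos
        have s2 := sw.cost
        have s3 := sw.runs
        have s4 := Real.log_nonneg sw.lo
        obtain s5 : 41 * ρ / c.bl = 41 * (ρ / c.bl) := by ring
        simp only [D]
        linarith only [q, rb, s1, s2, s3, s4, s5]
    obtain b1 : |(S z).X 1| ≤ B * e := by rw [Be]; linarith only [hL, W.box 1 (by norm_num), nu.L0]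
    obtain b2 : |(S z).X 0| ≤ B * e := by rw [Be]; linarith only [hL, W.box 0 (by norm_num), nu.L0]
    obtain b3 : |x1 z| ≤ B * e := by
      rw [Be]; simp only [x1]
      split_ifs with h
      · obtain m := W.maj.2 1 (by norm_num) h
        obtain f := W.cert.fwd 0 le_rfl (by omega)
        rw [W.w0, zero_add] at f
        linarith only [hL, m, f]
      · simpa using (E_pos c ρ 1).le
    obtain b4 : |ξ z 0| ≤ B * e := by
      obtain m := W.maj.2 0 (by norm_num) W.N0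
      rw [W.w0] at m
      rw [Be]; linarith only [m, E_big q]
    refine Finset.mem_product.2 ⟨Finset.mem_biUnion.2 ⟨N z, Finset.mem_filter.2
      ⟨Finset.mem_Icc.2 ⟨W.N0, Int.le_floor.2 (by linarith only [W.Nle])⟩, hN z⟩, ?_⟩,
      Finset.mem_product.2
        ⟨Finset.mem_product.2 ⟨floor_mem e0 b1, floor_mem e0 b2⟩,
          Finset.mem_product.2 ⟨floor_mem e0 b3, floor_mem e0 b4⟩⟩⟩
    rw [dif_pos W.N0]
    exact Finset.mem_image.2 ⟨_, mT, rfl⟩
  obtain hcard : (KS.card : ℝ) ≤ c.E ρ 3450 := by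
    obtain B1 : 100 ≤ B := (E_big q).trans (E_le q0 (by norm_num))
    obtain i1 : (I.card : ℝ) ≤ c.E ρ 802 := by
      obtain h1 : ((I.card : ℤ) : ℝ) = ((⌈B⌉ + 1 - -⌈B⌉ : ℤ) : ℝ) := by
        obtain this : 0 ≤ ⌈B⌉ := Int.ceil_nonneg (by linarith only [B1])
        rw [Int.card_Icc_of_le _ _ (by omega)]
      have h2 := Int.ceil_lt_add_one B
      obtain h3 := E_step (k := 801) (k' := 802) q (by norm_num)
      push_cast at h1
      linarith only [B1, h2, h3, h1]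
    obtain n1 : (NS.card : ℝ) ≤ c.E ρ 2 := by
      have h0 : 0 ≤ ⌊c.E ρ 1⌋ := Int.floor_nonneg.2 (E_pos ..).le
      obtain h1 : (((Icc (0 : ℤ) ⌊c.E ρ 1⌋).card : ℤ) : ℝ) = ((⌊c.E ρ 1⌋ + 1 - 0 : ℤ) : ℝ) := by
        rw [Int.card_Icc_of_le _ _ (by omega)]
      have h2 := Int.floor_le (c.E ρ 1)
      obtain h3 := E_step (k := 1) (k' := 2) q (by norm_num)
      have h4 : (NS.card : ℝ) ≤ (Icc (0 : ℤ) ⌊c.E ρ 1⌋).card :=
        Nat.cast_le.2 (Finset.card_filter_le _ _)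
      push_cast at h1
      linarith only [h2, h3, h4, h1, E_big q]
    obtain k1 : (K1.card : ℝ) ≤ c.E ρ 2 * c.E ρ 150 := by
      obtain h1 : ∀ n ∈ NS, (((if h : 0 ≤ n then (T n h).image fun x => (n, x) else ∅ :
          Finset (ℤ × (Finset ℤ × (ℤ → ℕ)))).card : ℕ) : ℝ) ≤
          c.E ρ 150 := by
        intro n hn
        have h0 := (Finset.mem_Icc.1 (Finset.mem_filter.1 hn).1).1
        have h3 := (Finset.mem_filter.1 hn).2
        rw [dif_pos h0]
        refine (Nat.cast_le.2 Finset.card_image_le).trans ((hT1 n h0).trans ?_)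
        unfold Cs.E
        refine Real.exp_le_exp.2 ?_
        obtain l2 : Real.log 2 ≤ 1 := by linarith only [Real.log_two_lt_d9]
        obtain l0 : 0 ≤ Real.log 2 := Real.log_nonneg (by norm_num)
        obtain u1 : 1 / c.bl * n ≤ 3 * (ρ / c.bl) := by
          obtain this : 1 / c.bl * n ≤ 1 / c.bl * (3 * ρ) := mul_le_mul_of_nonneg_left h3 (by positivity)
          calc _ ≤ _ := this
            _ = _ := by ring
        obtain u2 : 2 * (41 * ρ / c.bl) * Real.log (1 / (1 / c.bl)) ≤ c.a * ρ := by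
          rw [one_div_one_div]
          have : ρ / c.bl * (82 * Real.log c.bl) ≤ ρ / c.bl * (c.a * c.bl) :=
            mul_le_mul_of_nonneg_left nu.lg rb0
          calc _ = ρ / c.bl * (82 * Real.log c.bl) := by ring
            _ ≤ _ := this
            _ = _ := by field_simp
        obtain u3 : Real.log 2 * (3 * (41 * ρ / c.bl) + 146 * (c.a * ρ)) ≤
            123 * (ρ / c.bl) + 146 * (c.a * ρ) := by
          obtain this : 3 * (41 * ρ / c.bl) = 123 * (ρ / c.bl) := by ring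
          rw [this]; nlinarith only [l2, q, rb0]
        linarith only [q, rb, u1, u2, u3]
      refine (Nat.cast_le.2 Finset.card_biUnion_le).trans ?_
      push_cast
      refine (Finset.sum_le_card_nsmul _ _ _ h1).trans ?_
      rw [nsmul_eq_mul]
      exact mul_le_mul_of_nonneg_right n1 (E_pos ..).le
    obtain ee : c.E ρ 3360 = c.E ρ 2 * c.E ρ 150 *
        (c.E ρ 802 * c.E ρ 802 * (c.E ρ 802 * c.E ρ 802)) := by
      simp only [← E_add]; norm_num
    have := E_pos c ρ 802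
    have := E_pos c ρ 150
    have := E_pos c ρ 2
    simp only [KS, Finset.card_product, Nat.cast_mul]
    calc _ ≤ c.E ρ 2 * c.E ρ 150 *
        (c.E ρ 802 * c.E ρ 802 * (c.E ρ 802 * c.E ρ 802)) := by (rename_i zq1 zq0; clear * - k1 i1 zq1 this zq0; gcongr)
      _ = _ := ee.symm
      _ ≤ _ := E_le q0 (by norm_num)
  obtain s8 : e ≤ c.E ρ (-500) := E_le q0 (by norm_num)
  obtain ⟨n, cl, h1, h2⟩ := classes2 key σ KS hkey (c.E ρ 750) (E_pos ..).le
    (fun z z' => ∀ j, 0 ≤ j → j ≤ N z → |(S z').X j - (S z).X j| ≤ c.E ρ (-500)) (by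
    intro k
    rcases isEmpty_or_nonempty {z // (key z, σ z) = k} with hE | ⟨⟨z0, rfl⟩⟩
    · exact ⟨0, fun z => hE.elim z, by simpa using (E_pos c ρ 750).le, fun z => hE.elim z⟩
    obtain kk : ∀ z : {z // (key z, σ z) = (key z0, σ z0)}, N z = N z0 ∧ Rg' z = Rg' z0 ∧ D z = D z0 ∧ σ z = σ z0 ∧
        |(S z0).X 1 - (S z).X 1| ≤ e ∧ |(S z0).X 0 - (S z).X 0| ≤ e ∧ |x1 z0 - x1 z| ≤ e ∧
        |ξ z0 0 - ξ z 0| ≤ e := fun z => by
      have k := z.2
      simp only [key, Prod.mk.injEq] at k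
      obtain ⟨⟨⟨k1, k2, k3⟩, ⟨k5, k6⟩, k7, k8⟩, k4⟩ := k
      exact ⟨k1, k2, k3, k4, floor_close e0 k5.symm, floor_close e0 k6.symm, floor_close e0 k7.symm,
        floor_close e0 k8.symm⟩
    rcases lt_or_ge (N z0) 1 with h | h
    · refine ⟨1, fun _ => 0, by linarith only [E_big q, E_le (k := 1) (k' := 750) q0 (by norm_num),
        (show ((1 : ℕ) : ℝ) = 1 by simp)], fun z z' _ j j0 j1 => ?_⟩
      have k := z.2.trans z'.2.symm
      simp only [key, Prod.mk.injEq] at k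
      obtain this : j = 0 := by have := (kk z).1; omega
      subst this
      exact (floor_close e0 k.1.2.1.2.symm).trans s8
    obtain nl : ∀ z : {z // (key z, σ z) = (key z0, σ z0)}, NearL c ρ (t z) (S z) (ξ z) (t z0)
        ((S z0).X 1, (S z0).X 0) (ξ z0 1, ξ z0 0) := fun z => by
      obtain ⟨k1, -, -, -, k5, k6, k7, k8⟩ := kk z
      simp only [x1, k1, if_pos h] at k7
      exact ⟨(hT z0).ht, ht z z0, k5, k6, k7, k8⟩
    have h' : ∀ z : {z // (key z, σ z) = (key z0, σ z0)}, 1 ≤ N z := fun z => (kk z).1 ▸ h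
    choose v v1 v2 v3 using fun z : {z // (key z, σ z) = (key z0, σ z0)} =>
      hbvp M hM ρ _ _ _ _ _ _ _ _ _ _ hρ (hT z) (h' z) (nl z)
    have sw := fun z : {z // (key z, σ z) = (key z0, σ z0)} =>
      htr M hM ρ _ _ _ _ _ _ _ _ _ _ (v z) hρ (hT z) (h' z) (nl z) (v1 z) (v2 z) (v3 z)
    obtain s7 : 100 * c.E ρ (-700) ≤ 1 := by
      obtain this := E_step (k := -700) (k' := 0) q (by norm_num)
      simpa [Cs.E] using this
    obtain sg : ∀ z : {z // (key z, σ z) = (key z0, σ z0)}, ∀ i ∈ Rg' z0,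
        0 < (M.lo (t z0) ((S z0).X 1, (S z0).X 0) (ξ z0 1, ξ z0 0) (v z)).X i ↔ i ∈ σ z0 := by
      intro z i hi
      obtain ⟨k1, k2, -, k4, -⟩ := kk z
      rw [← k2] at hi
      have i1 := Finset.mem_Ico.1 (hsub z hi)
      have r := ((hT z).reg i (Finset.mem_erase.1 hi).2).1
      obtain cl := abs_le.1 (v3 z i (by omega) i1.2.le)
      have pi := Real.pi_gt_three
      have w0 := nu.w0
      rw [← k4]
      simp only [σ, Finset.mem_filter, hi, true_and]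
      unfold dP at r
      rcases min_le_iff.1 r with r | r <;> have r := abs_le.1 r <;>
        constructor <;> intro <;> linarith [r.1, r.2]
    obtain sD : (∑ i ∈ Ico 1 (N z0), (D z0 i : ℝ)) ≤ 146 * (c.a * ρ) := by
      have W := sw ⟨z0, rfl⟩
      have s1 := DD_sum (Rg := Rg' z0) W.cert.mono W.cert.Apos
      have s2 := W.cost
      have s3 := W.runs
      have s4 := Real.log_nonneg W.lo
      obtain s5 : 41 * ρ / c.bl = 41 * (ρ / c.bl) := by ring
      simp only [D]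
      linarith only [q, rb, s1, s2, s3, s4, s5]
    obtain ⟨K, cl, c1, c2⟩ := hcov M hM ρ (t z0) ((S z0).X 1, (S z0).X 0) (ξ z0 1, ξ z0 0) (Rg' z0)
      (N z0) (D z0) {z // (key z, σ z) = (key z0, σ z0)} v (fun z => w z) (fun z j => 2 * A z j) hρ
      (fun z => by have := sw z; rw [← (kk z).1, ← (kk z).2.1]; exact this)
      (fun z z' i hi => (sg z i hi).trans (sg z' i hi).symm)
      (fun z i j hr => by
        rw [← (kk z).2.2.1]
        rw [← (kk z).1, ← (kk z).2.1] at hr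
        exact DD_ge (fun j => 2 * A z j) hr) sD
    refine ⟨K, cl, c1, fun z z' e1 j j0 j1 => ?_⟩
    have a1 := abs_le.1 (v3 z j j0 j1)
    obtain a2 := abs_le.1 (v3 z' j j0 (by rw [(kk z').1, ← (kk z).1]; exact j1))
    have a3 := abs_le.1 (c2 z z' e1 j j0 ((kk z).1 ▸ j1))
    obtain a4 := E_step (k := -590) (k' := -500) q (by norm_num)
    obtain a5 := E_le (k := -700) (k' := -590) q0 (by norm_num)
    have a6 := E_pos c ρ (-590)
    exact abs_le.2 ⟨by linarith only [a4, a5, a6, a1.1, a1.2, a2.1, a2.2, a3.1], by linarith only [a4, a5, a6, a1.1, a1.2, a2.1, a2.2, a3.2]⟩)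
  refine ⟨n, cl, h1.trans ?_, fun z z' e1 => ?_⟩
  · calc _ ≤ c.E ρ 3450 * c.E ρ 750 := mul_le_mul_of_nonneg_right hcard (E_pos ..).le
      _ = _ := by rw [← E_add]; norm_num
  · obtain ⟨k, r⟩ := h2 z z' e1
    simp only [key, Prod.mk.injEq] at k
    refine ⟨k.1.1.symm, k.1.2.1.symm, fun hs => r ?_⟩
    simp only [σ]
    rw [← k.1.2.1]
    exact Finset.filter_congr hs

end YA

theorem y4 : Hier fun c => SOK_s c → YCOV_s c → Y4_s c :=
  ((YA.num.and ybvp0).and ytr0).mono fun _ h s hc => YA.core4 h.1.1 (h.1.2 s) h.2 hc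

open Classical in
theorem y5 : Hier fun c => SUBW_s c → Y4_s c → Y5_s c := by
  obtain ha := Hier.a_le (fun _ => 1 / 10 ^ 12) (fun _ _ _ _ _ _ => rfl) (Hier.of_all fun _ => by norm_num)
  refine (ha.and YA.num).mono ?_
  rintro c ⟨⟨a0, a1⟩, nu⟩ hs h4 M hM y tU Z φ s w A Rg N k W hk
  obtain y0 : 0 < y := by linarith only [a0, a1, W.y_lo, nu.bl1]
  set q := Real.sqrt c.a with hq
  have q0 : 0 < q := Real.sqrt_pos.2 a0
  have q2 : q * q = c.a := Real.mul_self_sqrt a0.le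
  obtain q1 : q ≤ 1 / 10 ^ 6 := Real.sqrt_le_iff.2 ⟨by norm_num, by linarith only [a1]⟩
  set ρ := y / (10 ^ 5 * q) with hρ
  obtain r1 : 3 * y ≤ ρ := by rw [hρ, le_div_iff₀ (by positivity)]; nlinarith only [a0, y0, a1, q1]
  obtain r2 : c.a * ρ = q * y / 10 ^ 5 := by rw [hρ, ← q2]; field_simp
  obtain hi : ∀ z, s z ≤ (φ z).n - k z := fun z => by have := W.len z; have := hk z; omega
  choose A' Rg' h1 h2 h3 using fun z => hs M hM y ρ _ _ _ _ _ _ _ _ ((φ z).n - k z) W.y_lo r1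
    (W.ht z).1 (W.hv z) (W.far z) (W.tame z) (hi z) (by omega)
  obtain ⟨n, cl, c1, c2⟩ := h4 M hM ρ Z _ _ _ _ _ _ _ (by linarith only [y0, r1, W.y_lo]) h1 (fun z z' => by
    have a := abs_le.1 (W.ht z).2
    have b := abs_le.1 (W.ht z').2
    obtain this : c.rU y ≤ c.E ρ (-1000) := by
      unfold Cs.rU Cs.S0 Cs.E
      rw [← Real.exp_nat_mul, one_div, ← Real.exp_neg, r2]
      refine Real.exp_le_exp.2 ?_
      have := mul_pos q0 y0
      push_cast; linarith only [this]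
    exact abs_le.2 ⟨by linarith only [this, a.2, b.1], by linarith only [this, a.1, b.2]⟩) h3
  obtain hsub : ∀ z, ∀ i ∈ (Rg' z).erase 0, 1 ≤ i ∧ i < k z := fun z i hi => by
    have a := mem_erase.1 hi
    have b := mem_Ico.1 ((h1 z).sub a.2)
    omega
  obtain hR : ∀ z, (if h : ∃ z', cl z' = cl z then
      ((Rg' h.choose).erase 0).image fun i => ((k h.choose : ℤ) - i).toNat else ∅) =
      ((Rg' z).erase 0).image fun i => ((k z : ℤ) - i).toNat := fun z => by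
    have h : ∃ z', cl z' = cl z := ⟨z, rfl⟩
    obtain ⟨e1, e2, -⟩ := c2 _ _ h.choose_spec
    rw [dif_pos h, e2, show (k h.choose : ℤ) = k z by omega]
  obtain hX : ∀ z (i : ℤ), i ≤ k z → ((M.O (φ z).t (φ z).v).shift ((φ z).n - k z)).X i =
      (φ z).Xo M ((k z : ℤ) - i).toNat := fun z i hi => by
    simp only [Sq.shift, Fd.Xo, Fd.S]; congr 1; omega
  refine ⟨n, cl, fun m => if h : ∃ z', cl z' = m then
      ((Rg' h.choose).erase 0).image fun i => ((k h.choose : ℤ) - i).toNat else ∅,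
    c1.trans (Real.exp_le_exp.2 ?_), fun z j hj => ?_, fun z z' e => ?_⟩
  · rw [r2]; linarith only [mul_pos q0 y0]
  · simp only [hR] at hj
    obtain ⟨i, i1, rfl⟩ := mem_image.1 hj
    have a := hsub z i i1
    refine ⟨by omega, ?_⟩
    have := h2 z i (mem_erase.1 i1).2
    rwa [show (φ z).n - ((k z : ℤ) - i).toNat = i + ((φ z).n - k z) by omega]
  · obtain ⟨e1, e2, e3⟩ := c2 z z' e
    obtain ek : k z' = k z := by omega
    refine ⟨ek, fun hs j hj => ?_⟩
    have := e3 (fun i i1 => by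
      have a := hsub z i i1
      rw [hX z i a.2.le, hX z' i (by omega), ek]
      refine hs _ ?_
      simp only [hR]
      exact mem_image.2 ⟨i, i1, rfl⟩) (k z - j) (by omega) (by omega)
    rw [hX z _ (by omega), hX z' _ (by omega), ek, show ((k z : ℤ) - (k z - j)).toNat = j by omega]
      at this
    refine this.trans (le_of_eq ?_)
    unfold Cs.E; rw [r2]; congr 1; ring

end
end Pool.Agent.MP_9cbfe4_an

end

/-! ### Part T0 -/

section

/-! Row T0: properties of admissible curves. -/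

namespace Pool.Agent.MP_9cbfe4_an

open Finset Filter Topology

noncomputable section

/-- the constants used in this file -/
structure TC (c : Cs) : Prop extends WC c where
  a4 : c.a ≤ 1 / 4
  ab : 1 / c.a ≤ c.β
  be8 : 8 ≤ c.β
  ex : 5000 * c.lam ^ 4 ≤ Real.exp (1 / 4 * c.lam)

theorem hier_TC : Hier TC :=
  (hier_WC.and ((Hier.a_le (fun _ => 1 / 4) (fun _ _ _ _ _ _ => rfl)
    (Hier.of_all fun _ => by norm_num)).and ((Hier.β_ge (fun c => 1 / c.a) fun _ _ _ => rfl).and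
    ((Hier.β_ge (fun _ => 8) fun _ _ _ => rfl).and
    (Hier.pow_le_exp (fun _ => 5000) (fun _ => 1 / 4) 4 (fun _ _ => rfl) (fun _ _ => rfl)
      (Hier.of_all fun _ => by norm_num)))))).mono
    fun _ ⟨h, h1, h2, h3, h4⟩ => ⟨h, h1.2, h2, h3, h4⟩

namespace TC
variable {c : Cs} (h : TC c)
include h

theorem Q1 : 1 ≤ c.Q := by
  have := (div_le_iff₀ h.a).1 h.ab
  have h8 := h.toWC.lam8
  rw [Cs.Q, Cs.bl, ← mul_assoc]
  nlinarith only [this, h8]
theorem ex1 : 5000 * Real.exp (-c.lam / 4) ≤ c.cw := by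
  have h8 := h.toWC.lam8
  have := h.ex
  rw [Cs.cw, le_div_iff₀ (by positivity), neg_div, Real.exp_neg, mul_right_comm, ← div_eq_mul_inv,
    div_le_one (Real.exp_pos _)]
  rwa [one_div_mul_eq_div] at this
theorem ex2 : 30 * Real.exp (-c.lam / 4) ≤ Real.exp (-c.lam / 5) := by
  obtain e : Real.exp (-c.lam / 5) = Real.exp (c.lam / 20) * Real.exp (-c.lam / 4) := by
    rw [← Real.exp_add]; congr 1; ring
  rw [e]
  exact mul_le_mul_of_nonneg_right (by linarith only [Real.add_one_le_exp (c.lam / 20), h.toWC.lam8])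
    (Real.exp_pos _).le
theorem cw4 : c.cw ≤ 1 / 10 ^ 6 := by
  have := h.toWC.cw1
  have := h.toWC.cw3.1
  have := h.cg
  rw [Cs.KS] at *
  (rename_i zq1 zq0; nlinarith only [zq1, zq0, this])
theorem ch23 : 2 / 3 ≤ c.chK := by
  obtain this : Real.log 2 ≤ c.chK := Real.log_le_log two_pos (by
    rw [le_div_iff₀ (by linarith only [h.k1])]; linarith only [h.k2])
  linarith only [this, Real.log_two_gt_d9]
theorem core {x : ℝ} (hx : Core c x) : dP x ≤ 2 / 100 := by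
  have h8 := h.toWC.lam8
  obtain e1 : c.w0 ≤ 2 / 100 := by
    rw [Cs.w0, div_le_iff₀ (by positivity)]
    obtain this : c.lam ≤ c.lam ^ 7 := le_self_pow₀ (by linarith only [h8]) (by norm_num)
    linarith only [h8, this]
  obtain e2 : 0 < c.w0 := by rw [Cs.w0]; positivity
  obtain e3 : 0 < c.e0 := by rw [Cs.e0]; linarith only [h.k2]
  exact le_trans hx (by nlinarith only [e1, e2, e3])
theorem cv {b x y : ℝ} (hb : Real.exp (-c.bl) / 4 ≤ b) (hx : 0 ≤ x) (hy : 0 ≤ y)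
    (e : b * x ≤ Real.exp (-c.bl / 2) * (c.L * (5 / 4 * y))) : x ≤ Real.exp (3 * c.bl / 4) * y := by
  have hL := h.L
  have h8 := h.toWC.lam8
  obtain e1 : 5 * c.L ≤ Real.exp (c.bl / 4) := by
    obtain this : 2 * c.lam ≤ c.bl / 4 := by rw [Cs.bl]; nlinarith only [h8, h.be8]
    refine le_trans ?_ (Real.exp_le_exp.2 this)
    rw [two_mul, Real.exp_add, Cs.lam, Real.exp_log (by linarith only [hL])]
    obtain this := Real.log_le_sub_one_of_pos (show 0 < c.L by linarith only [hL])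
    rw [Cs.lam] at h8
    nlinarith only [h8, this, hL]
  obtain e2 : Real.exp (-c.bl / 2) * Real.exp (c.bl / 4) =
      Real.exp (-c.bl) * Real.exp (3 * c.bl / 4) := by
    rw [← Real.exp_add, ← Real.exp_add]; congr 1; ring
  refine le_of_mul_le_mul_left ?_ (Real.exp_pos (-c.bl))
  calc _ ≤ 4 * (b * x) := by nlinarith only [hb, hx]
    _ ≤ Real.exp (-c.bl / 2) * (5 * c.L * y) := by linarith only [e]
    _ ≤ Real.exp (-c.bl / 2) * (Real.exp (c.bl / 4) * y) := by gcongr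
    _ = _ := by rw [← mul_assoc, e2, mul_assoc]
end TC

theorem dP_ten : 1 ≤ dP 10 := by
  have := Real.pi_lt_four
  have := Real.pi_pos
  exact le_min (le_trans (by (rename_i zq0; linarith only [zq0])) (le_abs_self _)) (le_trans (by linarith only [this]) (le_abs_self _))

namespace Sq
variable {c : Cs}

theorem qu_restart (S : Sq) (Q : ℝ) {i s n : ℤ} (hi : i ≤ s) (h : S.qu Q i s = 0) (hn : s ≤ n) :
    S.qu Q i n = S.qu Q s n := by
  induction n, hn using Int.leInduction with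
  | base => rw [h, qu_self]
  | succ n hn ih => rw [qu_succ _ _ (hi.trans hn), qu_succ _ _ hn, ih]

theorem transfer (h : TC c) {S0 S : Sq} {s n : ℤ} {θ : ℝ} (e : ∀ l, s < l → l ≤ n →
    |S.ch1 c l - S0.ch1 c l| ≤ c.a / 10 * S0.ch1 c l ∧ S.bb c θ l ≤ S0.bb c (2 / 100) l)
    {i : ℤ} (hi : s ≤ i) : S.PB c θ i n ≤ S0.PB c (2 / 100) i n ∧
      |S.chi c i n - S0.chi c i n| ≤ c.a / 10 * S0.chi c i n := by
  refine ⟨prod_le_prod (fun l _ => ?_) fun l hl => (e l (by grind) (by grind)).2, ?_⟩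
  · have := h.k1
    have := h.L
    rw [bb]; split_ifs <;> positivity
  · rw [chi, chi, ← sum_sub_distrib, mul_sum]
    exact (abs_sum_le_sum_abs _ _).trans (sum_le_sum fun l hl => (e l (by grind) (by grind)).1)

theorem kk_next (h : TC c) {S : Sq} (ok : S.OK c) {j : ℤ} (hj : 1 ≤ j) (h0 : S.kk j ≠ 0)
    (h1 : S.kk j ≠ 1) : S.kk (j + 1) = 0 := by
  rw [Ne, kk_eq_zero, not_or, not_le, not_le] at h0
  obtain a := h.core (ok.core (j - 1) (by omega) (by rw [sub_add_cancel]; linarith only [h0]) (by linarith only [h0])).1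
  rw [kk_eq_zero]
  by_contra hn
  rw [not_or, not_le] at hn
  exact h1 ((kk_eq_one _).2 ⟨h.core (ok.core j (by omega) (by linarith only [hn]) (by linarith only [h0])).1, a⟩)

theorem qu_tr (h : TC c) {S0 S : Sq} (ok : S0.OK c) {i s n : ℤ} (hs : 0 ≤ s) (hi : i ≤ s)
    (hn : s ≤ n) (h0 : S.qu c.Q i s = 0) (e : ∀ l, s < l → l ≤ n → S.kk l - S0.kk l ≤ 1 / 8)
    (k0 : S0.kk n = 0) (q0 : S0.qu (c.Q / 2) s n = 0) : S.qu c.Q i n = 0 := by
  have Q1 := h.Q1
  obtain key : ∀ j, s ≤ j → j ≤ n → S.qu c.Q i j ≤ S0.qu (c.Q / 2) s j +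
      if s < j ∧ S0.kk j ≠ 0 ∧ S0.kk j ≠ 1 then c.Q / 4 else 0 := by
    intro j hj
    induction j, hj using Int.leInduction with
    | base => intro _; rw [h0, qu_self, if_neg fun a => a.1.false, add_zero]
    | succ j hj ih =>
      intro hjn
      obtain i1 := ih (by omega)
      obtain e1 := e (j + 1) (by omega) hjn
      have m0 := S0.kk_mem (j + 1)
      have m1 := S.kk_mem (j + 1)
      have p0 := le_max_left (S0.qu (c.Q / 2) s j + S0.kk (j + 1) - c.Q / 2 * (1 - S0.kk (j + 1))) 0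
      have p1 := le_max_right (S0.qu (c.Q / 2) s j + S0.kk (j + 1) - c.Q / 2 * (1 - S0.kk (j + 1))) 0
      rw [qu_succ _ _ (hi.trans hj), qu_succ _ _ hj]
      refine max_le ?_ (by split_ifs <;> linarith only [Q1, p1])
      by_cases z : S0.kk (j + 1) = 0
      · rw [if_neg fun a => a.2.1 z]
        rw [z] at e1 p0 ⊢
        split_ifs at i1 <;> nlinarith only [Q1, e1, p0, i1]
      · rw [if_neg fun a => z (kk_next h ok (by omega) a.2.1 a.2.2)] at i1
        by_cases o : S0.kk (j + 1) = 1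
        · rw [if_neg fun a => a.2.2 o]
          rw [o] at p0 ⊢
          nlinarith only [i1, m1, p0, Q1]
        · rw [if_pos ⟨by omega, z, o⟩]
          nlinarith only [Q1, i1, e1, m0, p0]
  have := key n hn le_rfl
  rw [q0, if_neg fun a => a.2.1 k0, add_zero] at this
  exact le_antisymm this (S.qu_nonneg _ _ _)

end Sq

/-- the extra invariants -/
structure AdmQ (c : Cs) (M : Mdl) (t : ℝ) (s : ℤ) (φ : ℝ → ℝ) : Prop where
  p2 : ∀ u ∈ Set.Icc (0 : ℝ) 100, ∀ u' ∈ Set.Icc (0 : ℝ) 100, ∀ i, i ≤ s → ∃ k, k ≤ i ∧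
    |(M.O t (φ u')).X i - (M.O t (φ u)).X i| ≤ 5 * (|u' - u| * Real.exp (|u' - u| / 100)) *
      (|M.tg t (φ u) s k| * Real.exp (-((i - k : ℤ) : ℝ) / 4))
  lq : ∀ u ∈ Set.Icc (0 : ℝ) 100, ∀ i, i ≤ s → (M.O t (φ u)).qu c.Q i s = 0

theorem tg_neg (M : Mdl) (t v : ℝ) (s : ℤ) {k : ℤ} (hk : k < 0) : M.tg t v s k = 0 := by
  rw [Mdl.tg, Sq.fr_lt _ hk, zero_div]

theorem q_fin {c : Cs} (h : TC c) {M : Mdl} {t : ℝ} {s : ℤ} {φ : ℝ → ℝ} (hQ : AdmQ c M t s φ)
    (h1 : ∀ u ∈ Set.Icc (0 : ℝ) 100, ∀ i, 0 ≤ i → i < s →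
      |M.tg t (φ u) s i| ≤ Real.exp (-c.lam / 5)) :
    (∀ u ∈ Set.Icc (0 : ℝ) 100, ∀ u' ∈ Set.Icc (0 : ℝ) 100, ∀ (j : ℕ) (B : ℝ),
      (∀ l : ℕ, j ≤ l → l ≤ 2 * j → |M.tg t (φ u) s (s - l)| ≤ B) →
      |(M.O t (φ u')).X (s - j) - (M.O t (φ u)).X (s - j)| ≤
        10 ^ 4 * (B + Real.exp (-(j : ℝ) / 4))) ∧
    ∀ u ∈ Set.Icc (0 : ℝ) 100, ∀ n V, s ≤ n →
      (M.O t (φ u)).load c n V ≤ (M.O t (φ u)).qu (c.Q / 2) s n := by
  refine ⟨fun u hu u' hu' j B hB => ?_, fun u hu n V hn => ?_⟩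
  · obtain ⟨k, hk, e⟩ := hQ.p2 u hu u' hu' (s - j) (by omega)
    obtain d : |u' - u| ≤ 100 := abs_le.2 ⟨by linarith only [hu.2, hu'.1], by linarith only [hu.1, hu'.2]⟩
    obtain d1 : Real.exp (|u' - u| / 100) ≤ 3 :=
      (Real.exp_le_exp.2 (by linarith only [d])).trans (Real.exp_one_lt_d9.le.trans (by norm_num))
    obtain B0 : 0 ≤ B := (abs_nonneg _).trans (hB j le_rfl (by omega))
    have x0 := Real.exp_pos (-(j : ℝ) / 4)
    refine e.trans (mul_le_mul (by nlinarith only [d1, d, abs_nonneg (u' - u), Real.exp_pos (|u' - u| / 100)]) ?_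
      (by positivity) (by norm_num))
    obtain k0 : (0 : ℝ) ≤ ((s - j - k : ℤ) : ℝ) := by exact_mod_cast (by omega : 0 ≤ s - j - k)
    rcases le_or_gt (s - 2 * j) k with hl | hl
    · obtain this := hB (s - k).toNat (by omega) (by omega)
      rw [show s - ((s - k).toNat : ℤ) = k by omega] at this
      exact ((mul_le_of_le_one_right (abs_nonneg _) (Real.exp_le_one_iff.2 (by linarith only [k0]))).trans
        this).trans (by linarith only [x0])
    · obtain k1 : (j : ℝ) ≤ ((s - j - k : ℤ) : ℝ) := by exact_mod_cast (by omega : (j : ℤ) ≤ s - j - k)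
      obtain k2 : |M.tg t (φ u) s k| ≤ 1 := by
        rcases lt_or_ge k 0 with a | a
        · rw [tg_neg _ _ _ _ a, abs_zero]; exact zero_le_one
        · exact (h1 u hu k a (by omega)).trans
            (Real.exp_le_one_iff.2 (by linarith only [h.toWC.lam8]))
      exact ((mul_le_of_le_one_left (Real.exp_pos _).le k2).trans
        (Real.exp_le_exp.2 (by linarith only [k1]))).trans (le_add_of_nonneg_left B0)
  · refine le_trans ?_ (Sq.qu_mono_rate _ (show c.Q / 2 ≤ c.Q by linarith only [h.Q1]) s n)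
    rw [Sq.load]
    rcases le_total s (n - (M.O t (φ u)).Nw c n (c.C0 * V)) with a | a
    · exact Sq.qu_mono_start _ _ a _
    · exact (Sq.qu_restart _ _ a (hQ.lq u hu _ a) hn).le

theorem tg_re {M : Mdl} {t v : ℝ} {s : ℤ} (h1 : M.tg t v s s = 1) (n j : ℤ) :
    M.tg t v n j = M.tg t v s j / M.tg t v s n := by
  obtain this : (M.O t v).fr 0 s ≠ 0 := fun e => by simp [Mdl.tg, e] at h1
  simp only [Mdl.tg]
  rw [div_div_div_cancel_right₀ this]

/-- the majorant used for the comparison of two points of a window -/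
def w1 (s : ℤ) (w : ℤ → ℝ) (j : ℤ) : ℝ := if j < s then 1 else w j
theorem w1_ge {s j : ℤ} (w : ℤ → ℝ) (h : s ≤ j) : w1 s w j = w j := if_neg (by omega)

/-- facts on the reference orbit at a good time -/
structure Ref (c : Cs) (S : Sq) (ξ w A : ℤ → ℝ) (s n : ℤ) : Prop where
  lt : s < n
  cert : S.Cert c (2 / 100) w A s n
  maj : S.Maj ξ 1 w s n
  ws : 1 ≤ w s
  A1 : 1 ≤ A n
  An : A n ≤ Real.exp (-c.lam / 4) * w n
  wA : ∀ j, s ≤ j → j < n → w j ≤ 6 * A n
  wn : w n = |ξ n|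
  z : 5 / 100 ≤ dP (S.X (n - 1))
  dec : ∀ i, s ≤ i → i < n →
    S.PB c (2 / 100) i n * w i ≤ 2 * Real.exp (-(1 - c.a) * S.chi c i n) * w n ∧
    w i ≤ 2 * Real.exp (c.a * S.chi c i n) * w n
  att : ∀ i, s ≤ i → ∃ k, s ≤ k ∧ k ≤ i ∧
    w i ≤ |ξ k| * Real.exp (-((i - k : ℤ) : ℝ) / 4) ∧ (w k = |ξ k| ∨ k = s)

theorem ref_of {c : Cs} (h : TC c) (hB : B1_s c) {Ex} {S : Sq} {ξ s n} (ok : S.OK c)
    (st : S.St c ξ s) (hG : S.Good c Ex ξ s n) : Ref c S ξ (S.wh c ξ s) (S.AA c ξ s) s n := by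
  obtain ⟨lt, ⟨Ls, hR⟩, sg, -, -, z⟩ := hG
  have ri := ((hB Ex _ ok).1 _ _ _ _ _ st hR).2
  have h8 := h.toWC.lam8
  obtain ⟨hc, hm, hw⟩ := Sq.cert_wh ok h.k1 h.k2 (by linarith only [h8]) h.toWC.chb st lt.le
  have A1 := S.one_le_AA c ξ s n
  have x0 : 0 < |ξ n| := abs_pos.2 ri.ne
  obtain dk : ∀ k i : ℤ, k ≤ i → Real.exp (-S.chi c k i / 2) ≤ Real.exp (-((i - k : ℤ) : ℝ) / 4) := by
    intro k i hk
    have e1 := S.chi_ge c h.toWC.chb hk
    obtain e2 : (0 : ℝ) ≤ ((i - k : ℤ) : ℝ) := by exact_mod_cast (by omega : 0 ≤ i - k)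
    exact Real.exp_le_exp.2 (by nlinarith only [e1, e2, h.ch23])
  refine ⟨lt, hc, hm, one_le_wh st, A1, ?_, fun j j1 j2 => (hw j j1).2.trans ?_, ri.whm, z,
    fun i i1 i2 => ?_, fun i hi => ?_⟩
  · rw [ri.whm, ← Real.exp_log x0, ← Real.exp_add, ← Real.exp_log (show 0 < S.AA c ξ s n by linarith only [A1])]
    rw [Sq.sig, Sq.WW] at sg
    exact Real.exp_le_exp.2 (by linarith only [sg])
  · linarith only [j2, S.AA_mono c ξ s (show j + 1 ≤ n by omega)]
  · obtain x2 : S.ff c s i ≤ 2 := by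
      rw [Sq.ff]; linarith only [Real.exp_pos (-S.chi c s i / 24)]
    rw [ri.whm]
    refine ⟨(ri.i2 i i1 i2).1.trans ?_, (ri.i2 i i1 i2).2.trans ?_⟩ <;> gcongr
  · obtain ⟨k, k1, k2, e1, e2⟩ := S.wh_attained c ξ (show s - 1 ≤ i by omega)
    rcases k1.eq_or_lt with rfl | k1
    · refine ⟨s, le_rfl, hi, e1.trans_le (mul_le_mul ?_ ((dk _ _ k2).trans (Real.exp_le_exp.2 ?_))
        (Real.exp_pos _).le (abs_nonneg _)), .inr rfl⟩
      · rw [st.2.2.1, abs_one]
        exact st.2.2.2.trans (Real.exp_le_one_iff.2 (by linarith only [h8]))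
      · push_cast; linarith only []
    · exact ⟨k, by omega, k2, e1.trans_le (mul_le_mul_of_nonneg_left (dk _ _ k2) (abs_nonneg _)),
        .inl e2⟩

/-- facts on an orbit of the window -/
structure Tb (c : Cs) (S0 : Sq) (ξ0 w A : ℤ → ℝ) (s n : ℤ) (S : Sq) (ξ : ℤ → ℝ) : Prop where
  t4 : ∀ j, s ≤ j → j ≤ n → |ξ j - ξ0 j| ≤ w j / 100
  cert : S.Cert c (2 / 100 - 1 / 1000) (w1 s w) (fun j => 2 * A j) s n
  tr : ∀ l, s < l → l ≤ n → |S.ch1 c l - S0.ch1 c l| ≤ c.a / 10 * S0.ch1 c l ∧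
    S.bb c (2 / 100 - 1 / 1000) l ≤ S0.bb c (2 / 100) l
  kk : ∀ l, s < l → l ≤ n → S.kk l - S0.kk l ≤ 1 / 8
  z : 45 / 1000 ≤ dP (S.X (n - 1))

section step
variable {c : Cs} (h : TC c) (hS : SOK_s c) (hH : SH_s c) {Ex : ExT} {M : Mdl} {t : ℝ} {s : ℤ}
  {x0 : ℝ} {φ : ℝ → ℝ} (hM : M.OK c) (ht : TI t) (hA : AdmP c Ex M t s x0 φ) {u0 : ℝ} {n : ℤ}
  {w A : ℤ → ℝ} (hu : u0 ∈ Set.Icc (0 : ℝ) 100)
  (R : Ref c (M.O t (φ u0)) (M.tg t (φ u0) s) w A s n)
include h hS hH hM ht hA hu R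

theorem tb_of {a : ℝ} (ha : a ∈ Set.Icc (0 : ℝ) 100) (hη : |a - u0| * w n ≤ 5000) :
    Tb c (M.O t (φ u0)) (M.tg t (φ u0) s) w A s n (M.O t (φ a)) (M.tg t (φ a) s) := by
  obtain ⟨-, -, st, -⟩ := hA.mem u0 hu
  obtain ⟨-, -, st', -⟩ := hA.mem a ha
  have p0 := abs_nonneg (a - u0)
  have lt := R.lt
  have cw := h.cw4
  obtain e1 : |a - u0| * A n ≤ c.cw := by
    nlinarith only [hη, mul_le_mul_of_nonneg_left R.An p0, h.ex1, Real.exp_pos (-c.lam / 4)]
  obtain hη1 : |a - u0| ≤ 1 / 1000 := by nlinarith only [cw, e1, p0, R.A1]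
  have w0 : ∀ j, s ≤ j → j ≤ n → 0 ≤ w j := fun j a b => (R.cert.pos' j a b).le
  obtain sh := adm_shh h.toWC hS hM ht hA hu ha lt.le (by norm_num) le_rfl R.cert
    (fun j j1 j2 => by linarith only [R.maj.2 j j1 j2, abs_nonneg (M.tg t (φ u0) s j)]) R.ws hη1
    (by linarith only [e1, h.toWC.cw2, h.toWC.cw3.1])
  obtain ⟨s1, -, s3, s4, -, s6, -⟩ := hH _ _ _ _ _ _ _ _ _ _ _ _ sh
  obtain zz : ∀ j, s ≤ j → j < n → |(M.O t (φ a)).X j - (M.O t (φ u0)).X j| ≤ 1 / 1000 :=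
    fun j j1 j2 => (s1 j j1 j2.le).1.trans (by
      linarith only [cw, e1, mul_le_mul_of_nonneg_left (R.wA j j1 j2) p0])
  obtain z : 45 / 1000 ≤ dP ((M.O t (φ a)).X (n - 1)) := by
    linarith only [lt, R.z, (abs_le.1 ((dP_lip _ _).trans (zz (n - 1) (by omega) (by omega)))).1]
  obtain k0 : (M.O t (φ u0)).kk n = 0 := (Sq.kk_eq_zero _).2 (.inr (by linarith only [R.z]))
  obtain k1 : (M.O t (φ a)).kk n = 0 := (Sq.kk_eq_zero _).2 (.inr (by linarith only [z]))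
  refine ⟨fun j j1 j2 => ?_, ⟨by simp [w1], fun j j1 j2 => by
      rw [w1_ge w j1]; exact s6.pos' j j1 j2,
    fun j j1 j2 a b => by rw [w1_ge w j1.le, w1_ge w (by omega)]; exact s6.backK j j1 j2 a b,
    fun j j1 j2 => by rw [w1_ge w j1.le, w1_ge w (by omega)]; exact s6.back j j1 j2,
    fun j j1 j2 => by rw [w1_ge w j1, w1_ge w (by omega)]; exact s6.fwd j j1 j2, s6.mono, s6.Apos,
    fun j j1 j2 => ?_⟩, fun l l1 l2 => ?_, fun l l1 l2 => ?_, z⟩
  · obtain this := s4 _ _ 1 zero_le_one R.maj (fun j j1 _ => st'.2.1 j j1) (by rw [st'.2.2.1, st.2.2.1])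
      ((adm_near h.toWC hS hM ht hA hu ha hη1).2.2.2.2.2.trans (by
        have : |a - u0| ≤ |a - u0| * w s ^ 2 := le_mul_of_one_le_right p0 (one_le_pow₀ R.ws)
        nlinarith only [p0, this, h.toWC.gl])) j j1 j2
    have kk : c.KS * (|a - u0| * A j) ≤ 1 / 100 := (mul_le_mul_of_nonneg_left
      ((mul_le_mul_of_nonneg_left (R.cert.mono j n j1 j2 le_rfl) p0).trans e1) h.toWC.KS).trans
      h.toWC.cw1
    nlinarith only [this, kk, w0 j j1 j2]
  · rw [w1_ge w j1]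
    refine le_of_eq_of_le (sum_congr rfl fun i hi => ?_) (s6.dd j j1 j2)
    rw [w1_ge w (mem_Ico.1 hi).1]
  · rcases l2.eq_or_lt with rfl | l2
    · rw [Sq.ch1, Sq.ch1, k0, k1, sub_self, abs_zero, Sq.bb, Sq.bb,
        if_neg fun e => by linarith only [z, e.2], if_neg fun e => by linarith only [e.2, R.z]]
      have := h.a
      obtain this : 0 ≤ c.bl := by linarith only [h.toWC.bl4, h.toWC.lam8]
      exact ⟨by simp only [zero_mul, sub_zero, one_mul, zero_add]; positivity, le_rfl⟩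
    · exact ⟨(s3 l l1 l2).1, (s3 l l1 l2).2.2⟩
  · rcases l2.eq_or_lt with rfl | l2
    · rw [k0, k1]; norm_num
    · linarith only [(abs_le.1 (Sq.kk_lip (M.O t (φ u0)) (M.O t (φ a)) l l)).2, zz l l1.le l2,
        zz (l - 1) (by omega) (by omega)]


omit hS hH hM ht hA hu in
theorem tb_num {S : Sq} {ξ : ℤ → ℝ} (T : Tb c (M.O t (φ u0)) (M.tg t (φ u0) s) w A s n S ξ) :
    10 ^ 8 ≤ w n ∧ 99 / 100 * w n ≤ |ξ n| ∧ |ξ n| ≤ 101 / 100 * w n ∧
    (∀ j, s ≤ j → j ≤ n → |ξ j| ≤ 101 / 100 * w j) ∧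
    (∀ j, s ≤ j → j < n → w j ≤ 6 * Real.exp (-c.lam / 4) * w n) ∧
    S.Dec c (2 / 100 - 1 / 1000) (1000 * c.lam) (w1 s w) s n ∧
    ∀ i, s ≤ i → i < n → S.PB c (2 / 100 - 1 / 1000) i n * w i ≤
      Real.exp (-((n - i : ℤ) : ℝ) / 2) * w n / 2 := by
  have lt := R.lt
  have h8 := h.toWC.lam8
  have wn := R.cert.pos' n lt.le le_rfl
  have e0 := Real.exp_pos (-c.lam / 4)
  obtain f : ∀ j, s ≤ j → j ≤ n → |ξ j| ≤ 101 / 100 * w j := fun j j1 j2 => by
    linarith only [abs_sub_abs_le_abs_sub (ξ j) (M.tg t (φ u0) s j), T.t4 j j1 j2, R.maj.2 j (by omega) j2]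
  have a0 := h.a
  have a4 := h.a4
  refine ⟨?_, ?_, f n lt.le le_rfl, f, fun j j1 j2 => by linarith only [R.wA j j1 j2, R.An],
    fun i i1 i2 => ?_, fun i i1 i2 => ?_⟩
  · have := R.A1.trans R.An
    nlinarith only [e0, this, wn, h.ex1, h.cw4]
  · linarith only [abs_sub_abs_le_abs_sub (M.tg t (φ u0) s n) (ξ n), abs_sub_comm (ξ n) (M.tg t (φ u0) s n),
      T.t4 n lt.le le_rfl, R.wn]
  · obtain ⟨b1, b2⟩ := Sq.transfer h T.tr i1
    obtain ⟨d1, d2⟩ := R.dec i i1 i2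
    have c0 := (M.O t (φ u0)).chi_nonneg c h.toWC.chp.le h.toWC.chb i n
    rw [abs_le] at b2
    rw [w1_ge w i1, w1_ge w lt.le]
    have m := mul_nonneg a0.le c0
    refine ⟨((mul_le_mul_of_nonneg_right b1 (R.cert.pos' i i1 i2.le).le).trans d1).trans ?_,
      d2.trans ?_⟩ <;> refine mul_le_mul_of_nonneg_right (mul_le_mul (by linarith only [h8, a0, a4])
        (Real.exp_le_exp.2 ?_) (Real.exp_pos _).le (by linarith only [h8, a0, a4])) wn.le
    · linarith only [b2, a4, a0, m, mul_le_mul_of_nonneg_left b2.2 (show 0 ≤ 1 - 4 * c.a by linarith only [a4]),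
        mul_nonneg a0.le m]
    · linarith only [b2, a0, a4, m, mul_le_mul_of_nonneg_left b2.1 a0.le, mul_le_mul_of_nonneg_right a4 m]
  · refine ((mul_le_mul_of_nonneg_right (Sq.transfer h T.tr i1).1
      (R.cert.pos' i i1 i2.le).le).trans (R.dec i i1 i2).1).trans ?_
    obtain c1 := (M.O t (φ u0)).chi_add c (show i ≤ n - 1 by omega) (show n - 1 ≤ n by omega)
    have c2 := (M.O t (φ u0)).chi_succ c (n - 1)
    obtain c3 := (M.O t (φ u0)).chi_ge c h.toWC.chb (show i ≤ n - 1 by omega)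
    obtain c4 : (0 : ℝ) ≤ ((n - 1 - i : ℤ) : ℝ) := by exact_mod_cast (by omega : 0 ≤ n - 1 - i)
    rw [sub_add_cancel, Sq.ch1, (Sq.kk_eq_zero _).2 (.inr (by linarith only [a0, a4, R.z]))] at c2
    obtain c5 : 2 / 3 * ((n - 1 - i : ℤ) : ℝ) + 8 ≤ (M.O t (φ u0)).chi c i n := by
      nlinarith only [h8, a4, c1, c2, c3, a0, c4, h.ch23, h.toWC.bl4]
    obtain c6 : Real.exp (-(1 - c.a) * (M.O t (φ u0)).chi c i n) * Real.exp 3 ≤
        Real.exp (-((n - i : ℤ) : ℝ) / 2) := by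
      rw [← Real.exp_add]
      refine Real.exp_le_exp.2 ?_
      push_cast at c4 c5 ⊢
      nlinarith only [a4, c5, a0, c4]
    have c7 := mul_le_mul_of_nonneg_left (Real.add_one_le_exp 3)
      (Real.exp_pos (-(1 - c.a) * (M.O t (φ u0)).chi c i n)).le
    nlinarith only [wn, c6, c7]

theorem pair_of (hF : FD_s c) {a a' : ℝ} (ha : a ∈ Set.Icc (0 : ℝ) 100)
    (hη : |a - u0| * w n ≤ 5000) (ha' : a' ∈ Set.Icc (0 : ℝ) 100) (hη' : |a' - u0| * w n ≤ 5000)
    {d : ℝ} (hd : (M.O t (φ a')).X n - (M.O t (φ a)).X n = d) :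
    (∀ j, s ≤ j → j ≤ n → |(M.O t (φ a')).X j - (M.O t (φ a)).X j| ≤ 4 * |a' - a| * w j) ∧
    |a' - a| * w n ≤ 11 / 10 * |d| ∧ |a' - a| * |M.tg t (φ a) s n| ≤ |d| * (1 + |d| / 200) ∧
    |(M.O t (φ a')).X (n - 1) - (M.O t (φ a)).X (n - 1) - M.tg t (φ a) n (n - 1) * d|
      ≤ Real.exp (3 * c.bl / 4) * d ^ 2 ∧
    |M.tg t (φ a') n (n - 1) - M.tg t (φ a) n (n - 1)| ≤ Real.exp (3 * c.bl / 4) * |d| := by
  have T := tb_of h hS hH hM ht hA hu R ha hη
  obtain ⟨n1, n2, n3, n4, -, n6, -⟩ := tb_num h R T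
  obtain ⟨m1, -, st, -⟩ := hA.mem a ha
  obtain ⟨-, -, st', -⟩ := hA.mem a' ha'
  have lt := R.lt
  have h8 := h.toWC.lam8
  have q0 := abs_nonneg (a' - a)
  obtain q1 : |a' - a| * w n ≤ 10000 := by
    obtain this : |a' - a| ≤ |a' - u0| + |a - u0| := by
      rw [show a' - a = (a' - u0) - (a - u0) by ring]; exact abs_sub _ _
    nlinarith only [hη, hη', this, n1]
  have e0 := Real.exp_pos (-c.lam / 4)
  obtain q2 : |a' - a| * (2 * A n) ≤ 2 * Real.exp (-c.lam / 4) * (|a' - a| * w n) := by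
    linarith only [mul_le_mul_of_nonneg_left R.An q0]
  obtain hw : ∀ j, s - 1 ≤ j → j ≤ n → |M.tg t (φ a) s j| ≤ 2 * w1 s w j := fun j j1 j2 => by
    rcases lt_or_ge j s with hj | hj
    · obtain rfl : j = s - 1 := by omega
      obtain this : Real.exp (-c.lam / 5) ≤ 1 := Real.exp_le_one_iff.2 (by linarith only [h8])
      rw [w1, if_pos hj]
      linarith only [this, st.2.2.2]
    · rw [w1_ge w hj]
      linarith only [n4 j hj j2, R.cert.pos' j hj j2]
  obtain hη1 : |a' - a| ≤ 1 / 1000 := by nlinarith only [q1, n1, q0]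
  obtain ws : 1 ≤ w1 s w s := by rw [w1_ge w le_rfl]; exact R.ws
  obtain sh := adm_shh h.toWC hS hM ht hA ha ha' lt.le (by norm_num) (by norm_num) T.cert hw ws hη1
    (by nlinarith only [q2, q1, e0, h.toWC.cw2, h.ex1])
  have s1 := (hH _ _ _ _ _ _ _ _ _ _ _ _ sh).1
  have e1 := (s1 n lt.le le_rfl).2
  rw [sub_self, zero_mul, sub_zero, w1_ge w lt.le, hd] at e1
  have KS := h.toWC.KS
  obtain k1 : c.KS * Real.exp (-c.lam / 4) ≤ 1 / 500000 := by
    linarith only [mul_le_mul_of_nonneg_left h.ex1 KS, h.toWC.cw1]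
  obtain y0 : 0 ≤ |a' - a| * w n := by positivity
  obtain e2 : |a' - a| * |M.tg t (φ a) s n| ≤ |d| + (|a' - a| * w n) ^ 2 / 250000 := by
    have := abs_sub_abs_le_abs_sub ((a' - a) * M.tg t (φ a) s n) d
    rw [abs_sub_comm, abs_mul] at this
    linarith only [e1, this, mul_le_mul_of_nonneg_right (mul_le_mul_of_nonneg_left q2 KS) y0,
      mul_le_mul_of_nonneg_right k1 (sq_nonneg (|a' - a| * w n))]
  obtain e3 : |a' - a| * w n ≤ 11 / 10 * |d| := by
    nlinarith only [e2, q1, y0, mul_le_mul_of_nonneg_left n2 q0, abs_nonneg d]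
  obtain e4 : (|a' - a| * w n) ^ 2 ≤ 5 / 4 * d ^ 2 :=
    (pow_le_pow_left₀ y0 e3 2).trans (by rw [mul_pow, sq_abs]; linarith only [sq_nonneg d])
  obtain ⟨f1, f2⟩ := hF _ _ _ _ _ _ _ _ _ _ _ _ sh lt
    ((Sq.kk_eq_zero _).2 (.inr (by linarith only [T.z]))) n6 (fun j => M.tg t (φ a) s j / 2)
    ⟨fun j j1 _ => by simp only [st.2.1 j j1]; ring, fun j j1 j2 => by
      rw [abs_div, abs_two]; linarith only [hw j j1 j2]⟩
    (by rw [w1_ge w lt.le, abs_div, abs_two]; linarith only [n1, n2])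
  obtain g1 := f1 ⟨2 * (a' - a), fun _ => by ring⟩
  obtain g2 := f2 (fun j => M.tg t (φ a') s j / 2) (fun j j1 _ => by simp only [st'.2.1 j j1]; ring)
    (by rw [st'.2.2.1, st.2.2.1]) (by
      have := (adm_near h.toWC hS hM ht hA ha ha' hη1).2.2.2.2.2
      rw [← mul_div_assoc, ← mul_div_assoc, ← sub_div, abs_div, abs_two]
      have : |a' - a| ≤ |a' - a| * w1 s w s ^ 2 := le_mul_of_one_le_right q0 (one_le_pow₀ ws)
      (rename_i zq0; nlinarith only [q0, zq0, this, h.toWC.gl]))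
  simp only [div_div_div_cancel_right₀ (two_ne_zero' ℝ), sub_self, abs_zero, zero_add,
    w1_ge w lt.le, hd, ← tg_re st.2.2.1, ← tg_re st'.2.2.1] at g1 g2
  obtain b := ((hS M hM t ht).2.1 _ m1).2.b_lo n (by linarith only [lt, hA.s0])
  have hL := h.L
  refine ⟨fun j j1 j2 => w1_ge w j1 ▸ (s1 j j1 j2).1, e3, ?_,
    h.cv b (abs_nonneg _) (sq_nonneg _) (g1.trans (by gcongr)),
    h.cv b (abs_nonneg _) (abs_nonneg _) (g2.trans ?_)⟩
  · nlinarith only [e2, e4, sq_abs d]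
  · rw [mul_assoc]
    gcongr _ * (_ * ?_)
    linarith only [y0, e3, abs_nonneg d]

theorem t0_step (hF : FD_s c) (hQ : AdmQ c M t s φ)
    (q0 : (M.O t (φ u0)).qu (c.Q / 2) s n = 0) {x1 : ℝ} {g : ℝ → ℝ}
    (hg : ContinuousOn g (Set.Icc 0 100)) (hg' : ∀ u ∈ Set.Icc (0 : ℝ) 100,
      g u ∈ Set.Icc (0 : ℝ) 100 ∧ |g u - u0| * w n ≤ 5000 ∧ (M.O t (φ (g u))).X n = x1 + u) :
    AdmQ c M t n (φ ∘ g) ∧
    (∀ u ∈ Set.Icc (0 : ℝ) 100, φ (g u) ∈ Set.Icc (0 : ℝ) 100 ∧ (M.O t (φ (g u))).X n = x1 + u ∧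
      (M.O t (φ (g u))).St c (M.tg t (φ (g u)) n) n ∧ 45 / 1000 ≤ dP ((M.O t (φ (g u))).X (n - 1))) ∧
    ((∀ u ∈ Set.Icc (0 : ℝ) 100, ∀ Ls m y,
      (M.O t (φ (g u))).Run c Ex (M.tg t (φ (g u)) n) n (fun _ _ _ => True) Ls m →
      (M.O t (φ (g u))).Tame c (M.tg t (φ (g u)) n) m y) → AdmP c Ex M t n x1 (φ ∘ g)) := by
  have lt := R.lt
  have s0 := hA.s0
  have h8 := h.toWC.lam8
  have e0 := Real.exp_pos (-c.lam / 4)
  have T := fun u hu' => tb_of h hS hH hM ht hA hu R (hg' u hu').1 (hg' u hu').2.1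
  obtain P := fun u hu1 u' hu2 => pair_of h hS hH hM ht hA hu R hF (hg' u hu1).1 (hg' u hu1).2.1
    (hg' u' hu2).1 (hg' u' hu2).2.1 (d := u' - u) (by rw [(hg' u hu1).2.2, (hg' u' hu2).2.2]; ring)
  obtain p1 : ∀ u ∈ Set.Icc (0 : ℝ) 100, ∀ i, 0 ≤ i → i < n →
      |M.tg t (φ (g u)) n i| ≤ Real.exp (-c.lam / 5) ∧ (M.O t (φ (g u))).Pb i n *
        |M.tg t (φ (g u)) n i| ≤ 100 * Real.exp (-((n - i : ℤ) : ℝ) / 2) := by
    intro u hu1 i i0 i2
    obtain ⟨n1, n2, -, n4, n5, -, n7⟩ := tb_num h R (T u hu1)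
    obtain ⟨m1, -, st, -⟩ := hA.mem _ (hg' u hu1).1
    have ok := ((hS M hM t ht).2.1 _ m1).2
    obtain pb := fun i j (hi : -1 ≤ i) => ok.Pb_le (θ := 2 / 100 - 1 / 1000) (j := j) (by norm_num) hi
    obtain x0 : 0 < |M.tg t (φ (g u)) s n| := by linarith only [n1, n2]
    rw [tg_re st.2.2.1, abs_div, ← mul_div_assoc, div_le_iff₀ x0, div_le_iff₀ x0]
    have x1 := Real.exp_pos (-((n - i : ℤ) : ℝ) / 2)
    rcases le_or_gt s i with i1 | i1
    · have a1 := n4 i i1 i2.le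
      obtain a2 := mul_le_mul (pb i n (by omega)).2 a1 (abs_nonneg _)
        ((pb i n (by omega)).1.le.trans (pb i n (by omega)).2)
      exact ⟨by nlinarith only [e0, a1, i1, i2, n2, n1, n5 i i1 i2, h.ex2, mul_le_mul_of_nonneg_left n2 e0.le],
        by nlinarith only [x1, a2, i1, i2, n2, n1, n7 i i1 i2, mul_le_mul_of_nonneg_left n2 x1.le]⟩
    · obtain ⟨a1, a2⟩ := hA.p01 _ (hg' u hu1).1 i i0 i1
      refine ⟨a1.trans (le_mul_of_one_le_right (Real.exp_pos _).le (by linarith only [n1, n2])), ?_⟩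
      have x2 := Real.exp_pos (-((n - s : ℤ) : ℝ) / 2)
      obtain b0 := pb s n (by omega)
      obtain b1 : (M.O t (φ (g u))).Pb s n ≤
          Real.exp (-((n - s : ℤ) : ℝ) / 2) * |M.tg t (φ (g u)) s n| := by
        linarith only [b0, lt, n2, x2, n7 s le_rfl lt, mul_le_mul_of_nonneg_left n2 x2.le,
          mul_le_mul_of_nonneg_left R.ws (b0.1.le.trans b0.2)]
      rw [Sq.Pb_mul _ i1.le lt.le, mul_right_comm]
      refine (mul_le_mul a2 b1 b0.1.le (by positivity)).trans_eq ?_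
      rw [mul_assoc, mul_assoc, ← mul_assoc (Real.exp _), ← Real.exp_add]
      congr 3
      push_cast; ring
  obtain hQ' : AdmQ c M t n (φ ∘ g) := by
    refine ⟨fun u hu1 u' hu2 i hi => ?_, fun u hu1 i hi => ?_⟩
    · obtain ⟨n1, n2, -⟩ := tb_num h R (T u hu1)
      obtain ⟨z1, z2, z3, -⟩ := P u hu1 u' hu2
      obtain ⟨-, -, st, -⟩ := hA.mem _ (hg' u hu1).1
      obtain x0 : 0 < |M.tg t (φ (g u)) s n| := by linarith only [n1, n2]
      have d0 := abs_nonneg (u' - u)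
      have η0 := abs_nonneg (g u' - g u)
      obtain z4 : |g u' - g u| * Real.exp (|g u' - g u| / 100) ≤
          |u' - u| * Real.exp (|u' - u| / 100) / |M.tg t (φ (g u)) s n| := by
        rw [le_div_iff₀ x0, mul_right_comm, show |u' - u| / 100 = |u' - u| / 200 + |u' - u| / 200 by
          ring, Real.exp_add, ← mul_assoc]
        refine mul_le_mul (z3.trans (mul_le_mul_of_nonneg_left
          (by linarith only [Real.add_one_le_exp (|u' - u| / 200)]) d0)) (Real.exp_le_exp.2 (by nlinarith only [z2, d0, n1, η0]))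
          (Real.exp_pos _).le (by positivity)
      suffices ∃ k, k ≤ i ∧ |(M.O t (φ (g u'))).X i - (M.O t (φ (g u))).X i| ≤
          5 * (|g u' - g u| * Real.exp (|g u' - g u| / 100)) *
            (|M.tg t (φ (g u)) s k| * Real.exp (-((i - k : ℤ) : ℝ) / 4)) by
        obtain ⟨k, hk, e⟩ := this
        refine ⟨k, hk, e.trans ((mul_le_mul_of_nonneg_right (mul_le_mul_of_nonneg_left z4
          (by norm_num)) (by positivity)).trans_eq ?_)⟩
        rw [Function.comp, tg_re st.2.2.1 n, abs_div]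
        ring
      rcases le_total s i with i1 | i1
      · obtain ⟨k, k1, k2, e1, e2⟩ := R.att i i1
        refine ⟨k, k2, (z1 i i1 hi).trans ?_⟩
        obtain a1 : |M.tg t (φ u0) s k| ≤ 5 / 4 * |M.tg t (φ (g u)) s k| := by
          rcases e2 with e2 | rfl
          · linarith only [e2, hi, k2, abs_sub_abs_le_abs_sub (M.tg t (φ u0) s k) (M.tg t (φ (g u)) s k),
              abs_sub_comm (M.tg t (φ u0) s k) (M.tg t (φ (g u)) s k), (T u hu1).t4 k k1 (by omega),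
              abs_nonneg (M.tg t (φ u0) s k)]
          · rw [st.2.2.1, (hA.mem _ hu).2.2.1.2.2.1]; norm_num
        have a2 := e1.trans (mul_le_mul_of_nonneg_right a1 (Real.exp_pos _).le)
        obtain a3 : |g u' - g u| ≤ |g u' - g u| * Real.exp (|g u' - g u| / 100) :=
          le_mul_of_one_le_right η0 (Real.one_le_exp (by positivity))
        linarith only [mul_le_mul a3 a2 (R.cert.pos' i i1 hi).le (η0.trans a3)]
      · exact hQ.p2 _ (hg' u hu1).1 _ (hg' u' hu2).1 i i1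
    · obtain k := fun i hi h0 => Sq.qu_tr h (i := i) ((hS M hM t ht).2.1 _ (hA.mem _ hu).1).2 s0 hi
        lt.le h0 (T u hu1).kk ((Sq.kk_eq_zero _).2 (.inr (by linarith only [R.z]))) q0
      rcases le_total s i with i1 | i1
      · exact le_antisymm ((Sq.qu_mono_start _ _ i1 _).trans_eq (k s le_rfl (Sq.qu_self _ _ _)))
          (Sq.qu_nonneg _ _ _ _)
      · exact k i i1 (hQ.lq _ (hg' u hu1).1 i i1)
  obtain mem : ∀ u ∈ Set.Icc (0 : ℝ) 100, φ (g u) ∈ Set.Icc (0 : ℝ) 100 ∧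
      (M.O t (φ (g u))).X n = x1 + u ∧ (M.O t (φ (g u))).St c (M.tg t (φ (g u)) n) n ∧
      45 / 1000 ≤ dP ((M.O t (φ (g u))).X (n - 1)) := by
    intro u hu1
    obtain ⟨n1, n2, -⟩ := tb_num h R (T u hu1)
    obtain ⟨m1, -, st, -⟩ := hA.mem _ (hg' u hu1).1
    refine ⟨m1, (hg' u hu1).2.2, ⟨by omega, fun j hj => ?_, ?_, (p1 u hu1 _ (by omega) (by omega)).1⟩,
      (T u hu1).z⟩
    · simp only [tg_re st.2.2.1 n, st.2.1 j (by omega)]; ring
    · rw [tg_re st.2.2.1 n, div_self (abs_pos.1 (by linarith only [n1, n2]))]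
  obtain ⟨f1, f2⟩ := q_fin h hQ' fun u a i b d => (p1 u a i b d).1
  refine ⟨hQ', mem, fun tm => ⟨by omega, hA.cont.comp hg fun u a => (hg' u a).1, mem,
    fun u hu1 u' hu2 j hj => ?_, fun u hu1 u' hu2 => (P u hu1 u' hu2).2.2.2, p1, f1, f2, tm⟩⟩
  obtain ⟨n1, -, -, -, n5, -⟩ := tb_num h R (T u hu1)
  obtain ⟨z1, z2, -⟩ := P u hu1 u' hu2
  have d0 := abs_nonneg (u' - u)
  have η0 := abs_nonneg (g u' - g u)
  rcases le_or_gt s j with j1 | j1
  · obtain this : Real.exp (-c.lam / 5) ≤ Real.exp (-c.lam / 6) := Real.exp_le_exp.2 (by linarith only [h8])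
    refine (z1 j j1 hj.le).trans ?_
    linarith only [mul_le_mul_of_nonneg_left (n5 j j1 hj) η0, mul_le_mul_of_nonneg_left z2 e0.le,
      mul_le_mul_of_nonneg_right (h.ex2.trans this) d0, mul_nonneg e0.le d0]
  · exact (hA.lip _ (hg' u hu1).1 _ (hg' u' hu2).1 j j1).trans
      (mul_le_mul_of_nonneg_left (by nlinarith only [z2, d0, n1, η0]) (Real.exp_pos _).le)

end step

theorem t0_base {c : Cs} (h : TC c) (hS : SOK_s c) {Ex M t} (hM : Mdl.OK c M) (ht : TI t) :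
    AdmQ c M t 0 id ∧ (∀ u, (M.O t u).St c (M.tg t u 0) 0) ∧
    ((∀ u ∈ Set.Icc (0 : ℝ) 100, ∀ Ls m y,
      (M.O t u).Run c Ex (M.tg t u 0) 0 (fun _ _ _ => True) Ls m →
      (M.O t u).Tame c (M.tg t u 0) m y) → AdmP c Ex M t 0 0 id) := by
  have pa : ∀ u ∈ Set.Icc (0 : ℝ) 100, ∀ j, j < 0 → (M.O t u).X j = 10 := fun u hu =>
    ((hS M hM t ht).2.1 u hu).2.past
  obtain x0 : ∀ u, (M.O t u).X 0 = u := fun u => by simp [Mdl.O, Mdl.orb, Mdl.pos]
  obtain t0 : ∀ u, M.tg t u 0 0 = 1 := fun u => by rw [Mdl.tg, Sq.fr_self, div_one]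
  obtain tn : ∀ u, M.tg t u 0 (0 - 1) = 0 := fun u => tg_neg _ _ _ _ (by norm_num)
  obtain hQ : AdmQ c M t 0 id := by
    refine ⟨fun u hu u' hu' i hi => ⟨i, le_rfl, ?_⟩, fun u hu i hi => ?_⟩
    · rcases hi.eq_or_lt with rfl | hi
      · simp only [id, x0, t0, sub_self, abs_one, Int.cast_zero, neg_zero, zero_div, Real.exp_zero]
        nlinarith only [abs_nonneg (u' - u), Real.one_le_exp (show 0 ≤ |u' - u| / 100 by positivity)]
      · simp only [id, pa u hu i hi, pa u' hu' i hi, sub_self, abs_zero]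
        positivity
    · obtain this : ∀ j, i ≤ j → j ≤ 0 → (M.O t u).qu c.Q i j = 0 := by
        intro j hj
        induction j, hj using Int.leInduction with
        | base => exact fun _ => Sq.qu_self _ _ _
        | succ j hj ih =>
          intro h0
          rw [Sq.qu_succ _ _ hj, ih (by omega), (Sq.kk_eq_zero _).2 (.inr (by
            rw [add_sub_cancel_right, pa u hu j (by omega)]; linarith only [dP_ten]))]
          exact max_eq_right (by linarith only [h.Q1])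
      exact this 0 hi le_rfl
  obtain st : ∀ u, (M.O t u).St c (M.tg t u 0) 0 := fun u => ⟨le_rfl, fun j hj => by
    simp only [Mdl.tg, Sq.fr_self, div_one]
    exact Sq.fr_sol _ 0 j hj, t0 u, by rw [tn, abs_zero]; positivity⟩
  obtain ⟨f1, f2⟩ := q_fin h hQ fun _ _ i a b => absurd a (by omega)
  refine ⟨hQ, st, fun tm => ⟨le_rfl, continuousOn_id, fun u hu => ⟨hu, by simp [x0], st u, ?_⟩,
    fun u hu u' hu' j hj => ?_, fun u hu u' hu' => ?_, fun _ _ i a b => absurd a (by omega),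
    f1, f2, tm⟩⟩
  · rw [id, pa u hu _ (by norm_num)]; linarith only [dP_ten]
  · rw [id, id, pa u hu j hj, pa u' hu' j hj, sub_self, abs_zero]; positivity
  · rw [id, id, pa u hu _ (by norm_num), pa u' hu' _ (by norm_num), tn, tn, sub_self, zero_mul,
      sub_zero, abs_zero]
    exact ⟨by positivity, by positivity⟩

/-- base, step and use of an invariant `HI` of admissible curves that yields histories -/
structure HIs (c : Cs) (HI : Mdl → ℝ → ℤ → (ℝ → ℝ) → Prop) : Prop where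
  base : ∀ M t, M.OK c → TI t → HI M t 0 id
  step : ∀ Ex (M : Mdl) t s x0 φ u0 n x1 g, M.OK c → TI t → AdmP c Ex M t s x0 φ → HI M t s φ →
    u0 ∈ Set.Icc (0 : ℝ) 100 → (M.O t (φ u0)).Good c Ex (M.tg t (φ u0) s) s n →
    ContinuousOn g (Set.Icc 0 100) → (∀ u ∈ Set.Icc (0 : ℝ) 100, g u ∈ Set.Icc (0 : ℝ) 100 ∧
      |g u - u0| ≤ 5000 / |M.tg t (φ u0) s n| ∧ (M.O t (φ (g u))).X n = x1 + u) →
    HI M t n (φ ∘ g)
  run : ∀ Ex (M : Mdl) t s φ, M.OK c → TI t → HI M t s φ → ∀ u ∈ Set.Icc (0 : ℝ) 100,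
    φ u ∈ Set.Icc (0 : ℝ) 100 → (M.O t (φ u)).St c (M.tg t (φ u) s) s → ∀ Ls n,
    (M.O t (φ u)).Run c Ex (M.tg t (φ u) s) s (fun _ _ _ => True) Ls n →
    ∃ w, (M.O t (φ u)).Hist c (M.tg t (φ u) s) w 0 n

theorem t0_ind {c : Cs} (h : TC c) (hS : SOK_s c) (hH : SH_s c) (hF : FD_s c) (hB : B1_s c)
    (hT : TG_s c) {HI} (I : HIs c HI) : T0_s c ∧ H2_s c := by
  obtain tm : ∀ Ex (M : Mdl) t s φ, M.OK c → TI t → HI M t s φ → ∀ u ∈ Set.Icc (0 : ℝ) 100,
      φ u ∈ Set.Icc (0 : ℝ) 100 → (M.O t (φ u)).St c (M.tg t (φ u) s) s → ∀ Ls n y,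
      (M.O t (φ u)).Run c Ex (M.tg t (φ u) s) s (fun _ _ _ => True) Ls n →
      (M.O t (φ u)).Tame c (M.tg t (φ u) s) n y := by
    intro Ex M t s φ hM ht hI u hu m1 st Ls n y hR
    obtain ⟨w, hw⟩ := I.run Ex M t s φ hM ht hI u hu m1 st Ls n hR
    refine hT _ _ w 0 n y ((hS M hM t ht).2.1 _ m1).2 hw (.inr (.inr ⟨rfl,
      tg_neg _ _ _ _ (by norm_num), fun j _ => ?_⟩))
    rw [Mdl.tg, Mdl.tg, Sq.fr_self]
    ring
  obtain key : ∀ Ex (M : Mdl) t s x0 φ, M.OK c → TI t → Adm c Ex M t s x0 φ →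
      AdmP c Ex M t s x0 φ ∧ AdmQ c M t s φ ∧ HI M t s φ := by
    intro Ex M t s x0 φ hM ht hA
    induction hA with
    | base =>
      obtain ⟨q, st, p⟩ := t0_base (Ex := Ex) h hS hM ht
      exact ⟨p fun u hu => tm Ex M t 0 id hM ht (I.base M t hM ht) u hu hu (st u), q,
        I.base M t hM ht⟩
    | @step s x0 φ u0 n x1 g _ hu hG hg hg' ih =>
      obtain ⟨hA, hQ, hI⟩ := ih
      have hI' := I.step Ex M t s x0 φ u0 n x1 g hM ht hA hI hu hG hg hg'
      have R := ref_of h hB ((hS M hM t ht).2.1 _ (hA.mem _ hu).1).2 (hA.mem _ hu).2.2.1 hG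
      obtain ⟨q, m, p⟩ := t0_step h hS hH hM ht hA hu R hF hQ hG.2.2.2.1 hg fun u a =>
        ⟨(hg' u a).1, (le_div_iff₀ (R.cert.pos' n R.lt.le le_rfl)).1 (R.wn ▸ (hg' u a).2.1),
          (hg' u a).2.2⟩
      exact ⟨p fun u a => tm Ex M t n (φ ∘ g) hM ht hI' u a (m u a).1 (m u a).2.2.1, q, hI'⟩
  refine ⟨fun Ex M t s x0 φ hM ht hA => (key Ex M t s x0 φ hM ht hA).1,
    fun Ex M t s x0 φ hM ht hA u hu => ?_⟩
  obtain ⟨p, -, i⟩ := key Ex M t s x0 φ hM ht hA
  exact I.run Ex M t s φ hM ht i u hu (p.mem u hu).1 (p.mem u hu).2.2.1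

theorem t0 : Hier fun c => SOK_s c → SH_s c → FD_s c → B1_s c → TG_s c →
    (∃ HI, HIs c HI) → T0_s c ∧ H2_s c :=
  hier_TC.mono fun _ h hS hH hF hB hT ⟨_, I⟩ => t0_ind h hS hH hF hB hT I

end
end Pool.Agent.MP_9cbfe4_an

end
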