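import Pool.Agent.MP_9cbfe4_an.M14

set_option linter.all false

attribute [-instance] AddQuantale.instAddLeftMono IdemSemiring.toCanonicallyOrderedAdd
  NumberField.to_charZero AddQuantale.instAddRightMono IdemSemiring.toMulLeftMono RKHS.instFunLike
  Quantale.instMulRightMono Quantale.instMulLeftMono IsOrderedCancelMonoid.toIsOrderedMonoid
  LinearOrderedCommMonoidWithZero.toPosMulStrictMono
  Group.IsPerfect.subsingleton_of_isMulCommutative CanonicallyOrderedAdd.toMulLeftMono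
  Valued.toUniformSpace IdemSemiring.toMulRightMono TotallySeparatedSpace.t2Space
  LinearOrderedCommMonoidWithZero.toIsOrderedMonoid IsScalarTower.complexToReal
  Order.Coframe.toCompleteLattice OmegaCompletePartialOrder.toPartialOrder Invertible.toNeZero
  GrpTypeEquivalenceGrp.grpGroup littleWedderburn CanonicallyOrderedMul.toMulLeftMono
  CoalgHomClass.toSemilinearMapClass TestFunctionClass.toDFunLike
  ContDiffMapSupportedInClass.toDFunLike Order.Frame.toCompleteLattice RightPreLieAlgebra.toModule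
  CategoryTheory.Limits.Concrete.instUniqueToTypeTerminal LeftPreLieAlgebra.toModule
  CStarAlgebra.instOrderClosedTopology IdemSemiring.toSemiring
  LieAdmissibleRing.toNonUnitalNonAssocRing NonUnitalAlgSemiHomClass.toDistribMulActionSemiHomClass
  CStarAlgebra.toNormedRing

/-! ### Part J1 -/

section

/-! Row J1: backward bound for the jets and their increments. -/

namespace Pool.Agent.MP_9cbfe4_an

theorem J1_dnn {a b : ℝ} (ha : 0 ≤ a) (hb : 0 < b) : 0 ≤ a / b := div_nonneg ha hb.le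

open Finset Real

namespace J1

structure KK (K : ℕ) (c : Cs) : Prop where
  κ : 0 < c.κ
  lam : 40 ≤ c.lam
  β : 1 ≤ c.β
  CG : 1 ≤ c.CG
  L : 4 * ((K + 1).factorial * c.CG * 16 ^ (K + 1)) ≤ c.L

theorem hK (K : ℕ) : Hier (KK K) := by
  have h1 := Hier.base
  have h2 := Hier.β_ge (fun _ => 1) fun _ _ _ => rfl
  have h3 := Hier.lam_ge (fun _ => 40) fun _ _ => rfl
  have h4 := Hier.L_ge (fun c => 4 * ((K + 1).factorial * c.CG * 16 ^ (K + 1))) fun _ _ => rfl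
  refine (h1.and (h2.and (h3.and h4))).mono ?_
  rintro c ⟨a1, a2, a3, a4⟩
  exact ⟨a1.2.2.2.2.1, a3, a2, a1.2.2.2.2.2, a4⟩

/-- the part of the tables that is used at the horizon `n` -/
structure Tb (c : Cs) (k : Sk) (n : ℤ) : Prop where
  n1 : 1 ≤ n
  nN : n ≤ k.N
  ww : ∀ i, 1 ≤ i → k.w i ≤ k.w4 i
  w40 : k.w4 0 = 0
  lam : ∀ i, i ≤ n → c.lam ≤ k.σ i
  sl : ∀ i, i < n → k.σ i ≤ k.sl n
  lsl : c.lam ≤ k.sl n
  tm : ∀ i, 1 ≤ i → i ≤ n → (i : ℝ) ^ 2 ≤ exp (k.σ i)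
  Ew : ∀ i, 1 ≤ i → i < n → 1 / 2 ≤ k.E n i * k.w i
  N1 : ∀ e g i, 0 ≤ g → 0 ≤ i → i ≤ n → 1 ≤ k.NN n e g i
  Nm : ∀ e e' g g' i, 0 ≤ g → 0 ≤ i → i ≤ n → e ≤ e' → g ≤ g' → k.NN n e g i ≤ k.NN n e' g' i
  Ns : ∀ e g g' i, 0 ≤ g → 0 ≤ g' → 0 ≤ i → i ≤ n →
    exp (g' * k.σ i) * k.NN n e g i ≤ k.NN n e (g + g') i

theorem tb {c : Cs} (hA : TA_s c) {k : Sk} (hk : k.OK c) {n : ℤ} (hn : n ∈ k.F) : Tb c k n := by
  obtain ⟨a1, a2, -, -, a5, a6, a7, -, -, -, -, a12, -, -, -, -, -, a18⟩ := hA k hk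
  obtain ⟨n1, nN⟩ := hk.1.F_mem n hn
  exact ⟨n1, nN, a1, a2, fun i h => a5 i (h.trans nN), a6 n hn,
    hk.1.sl1.trans (hk.1.sl_mono 1 n le_rfl n1), fun i h h' => (a7 i h (h'.trans nN)).1,
    fun i h h' => a12 n i h (h'.trans_le nN), fun e g i h1 h2 h3 => (a18 n e g i h1 h2 (h3.trans nN)).1,
    fun e e' g g' i h1 h2 h3 h4 h5 => (a18 n e g i h1 h2 (h3.trans nN)).2.1 n e' g' le_rfl h4 h5,
    fun e g g' i h1 h2 h3 h4 => (a18 n e g i h1 h3 (h4.trans nN)).2.2.1 g' h2⟩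

theorem sum_inv_sq {l n : ℤ} (hl : 1 ≤ l) : ∑ i ∈ Ico l n, 1 / ((i : ℤ) : ℝ) ^ 2 ≤ 2 := by
  obtain h : ∀ n : ℤ, 1 ≤ n → ∑ i ∈ Ico 1 n, 1 / ((i : ℤ) : ℝ) ^ 2 ≤ 2 - 2 / (n : ℝ) := by
    intro n hn
    induction n, hn using Int.leInduction with
    | base => simp
    | succ n hn ih =>
      rw [sum_Ico_succ _ hn]
      obtain h1 : (1 : ℝ) ≤ n := by exact_mod_cast hn
      obtain h2 : 1 / (n : ℝ) ^ 2 ≤ 2 / n - 2 / ((n + 1 : ℤ) : ℝ) := by
        push_cast
        rw [div_sub_div _ _ (by (clear * - hn; positivity)) (by (clear * - hn; positivity)), div_le_div_iff₀ (by positivity)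
          (by positivity)]
        nlinarith only [h1, mul_nonneg (sq_nonneg (n : ℝ)) (sub_nonneg.2 h1)]
      linarith only [ih, h2]
  rcases le_or_gt n 1 with hn | hn
  · rw [Finset.Ico_eq_empty (by omega), sum_empty]; norm_num
  obtain h1 : (0 : ℝ) < n := by exact_mod_cast (show (0 : ℤ) < n by omega)
  refine (sum_le_sum_of_subset_of_nonneg (Ico_subset_Ico hl le_rfl) fun _ _ _ => by (clear * -; positivity)).trans
    ((h n hn.le).trans ?_)
  obtain this : 0 < 2 / (n : ℝ) := by positivity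
  linarith only [this]

theorem big {x : ℝ} (h : 40 ≤ x) : 8192 ≤ exp (x / 2) := by
  obtain e : exp 20 = exp 1 ^ 20 := by rw [← exp_nat_mul]; norm_num
  obtain h1 : (2 : ℝ) ^ 20 ≤ exp 1 ^ 20 := pow_le_pow_left₀ (by norm_num) (by linarith only [exp_one_gt_d9]) _
  obtain h2 : exp 20 ≤ exp (x / 2) := exp_le_exp.2 (by linarith only [h])
  rw [e] at h2
  linarith only [h1, h2, show (8192 : ℝ) ≤ 2 ^ 20 by norm_num]

theorem cnt {x g y : ℝ} (h : 40 ≤ x) (g1 : 1 ≤ g) (g16 : g ≤ 16) (y0 : 0 ≤ y) (hy : y ^ 2 ≤ exp x) :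
    2 * (g ^ 3 * y) ≤ exp x ∧ 2 * g ^ 3 ≤ exp x := by
  obtain e : exp x = exp (x / 2) * exp (x / 2) := by rw [← exp_add]; ring_nf
  have h1 := big h
  obtain h2 : y ≤ exp (x / 2) := abs_le_of_sq_le_sq' (by rw [sq (exp _), ← e]; exact hy)
    (exp_pos _).le |>.2
  obtain h3 : g ^ 3 ≤ 16 ^ 3 := pow_le_pow_left₀ (by linarith only [g1]) g16 3
  obtain h4 : 0 ≤ g ^ 3 := by exact le_of_lt (pow_pos (lt_of_lt_of_le (one_pos : (0 : ℝ) < 1) g1) (3 : ℕ))
  rw [e]
  constructor <;> nlinarith only [y0, h1, h2, h3]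

theorem card_le {f : ℤ → ℝ} {a b : ℤ} {x : ℝ} (ha : 1 ≤ a) (hb : 0 ≤ b) (hx : 0 ≤ x)
    (h : ∀ i, a ≤ i → i < b → f i ≤ x) : ∑ i ∈ Ico a b, f i ≤ b * x := by
  refine (sum_le_card_nsmul _ _ x fun i hi => h i (mem_Ico.1 hi).1 (mem_Ico.1 hi).2).trans ?_
  rw [nsmul_eq_mul, Int.card_Ico]
  refine mul_le_mul_of_nonneg_right ?_ hx
  obtain this : (((b - a).toNat : ℤ) : ℝ) ≤ b := by exact_mod_cast (show ((b - a).toNat : ℤ) ≤ b by omega)
  exact_mod_cast this

theorem chi0 {c : Cs} {k : Sk} (h : k.OK1 c) (i j : ℤ) : 0 ≤ k.chi i j :=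
  sum_nonneg fun l _ => le_trans (by norm_num) (h.ch_mem l).1

theorem Pb_le {c : Cs} {g : ℝ} {S : Sq} {k : Sk} {n : ℤ} (f : Fit c g S k n) {i l : ℤ} (hi : 0 ≤ i)
    (hl : l ≤ n) : |S.Pb i l| ≤ k.PB i l := by
  obtain h : ∀ j ∈ Ioc i l, 0 ≤ S.b j ∧ S.b j ≤ k.B j := fun j hj =>
    f.b j (by have := (mem_Ioc.1 hj).1; omega) ((mem_Ioc.1 hj).2.trans hl)
  rw [Sq.Pb, abs_of_nonneg (prod_nonneg fun j hj => (h j hj).1)]
  exact prod_le_prod (fun j hj => (h j hj).1) fun j hj => (h j hj).2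

/-- the backward identity against a majorant of the sources -/
theorem key {K : ℕ} {c : Cs} (h : KK K c) (hA : TA_s c) (hB : TB_s c) (hC : TC_s c) {M t g S k n}
    (oc : OC K c M t g S k n) {P Q T : ℤ → ℝ}
    (hP : ∀ j, 1 ≤ j → j < n → P (j + 1) = S.a j * P j + S.b j * P (j - 1) + Q j) (h0 : |P 0| ≤ 1)
    (T0 : ∀ i, 0 ≤ T i) (Ta : ∀ i i', i ≤ i' → T i' ≤ T i) {e : ℕ} {G : ℝ} (he : 1 ≤ e)
    (he' : 100 * (e : ℝ) ≤ c.C0) (hG : 0 ≤ G) (hG' : G + 13 ≤ c.C0)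
    (H : ∀ i l, 1 ≤ i → i ≤ l → l < n → k.E n l * (exp (-k.chi i l / 2) * |Q i|) ≤
      exp (11 * k.σ l) * (T l + k.NN n e G l / k.w4 l)) {l : ℤ} (l1 : 1 ≤ l) (ln : l < n) :
    |P l - S.fr 1 l * (P n / S.fr 1 n)| ≤ exp (13 * k.sl n) * T l * k.w l + k.NN n e (G + 20) l := by
  have tb := tb hA oc.sk oc.hn
  have k1 := oc.sk.1
  have f := oc.fit
  have g1 := oc.g1
  have wp := k1.w_pos
  have w4p : ∀ i, 1 ≤ i → 0 < k.w4 i := fun i hi => (wp i hi).trans_le (tb.ww i hi)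
  obtain Ep : ∀ i, 1 ≤ i → i < n → 0 < k.E n i := fun i a b =>
    (mul_pos_iff_of_pos_right (wp i a)).1 (lt_of_lt_of_le (by norm_num) (tb.Ew i a b))
  have fn := f.f2 n oc.hn le_rfl
  obtain x0 : 0 < |S.fr 1 n| := (mul_pos_iff_of_pos_left (by linarith only [g1])).1 ((wp n tb.n1).trans_le fn)
  obtain hE : ∀ i, 1 ≤ i → i < n → |S.fr (i + 1) n / S.fr 1 n| ≤ g ^ 2 * k.E n i := by
    intro i a b
    rw [abs_div, div_le_iff₀ x0]
    refine (f.fE n oc.hn le_rfl i n a b le_rfl).trans ?_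
    obtain this := mul_le_mul_of_nonneg_left fn (show 0 ≤ g * k.E n i by have := Ep i a b; exact le_of_lt (mul_pos (lt_of_lt_of_le (one_pos : (0 : ℝ) < 1) g1) this))
    linarith only [this]
  have main := Sq.bw_le (S := S) (P := P) (Q := Q) (ξ := S.fr 1) l1 ln.le (abs_pos.1 x0)
    (B := fun i => |S.Pb i l|) (E := fun i => |S.fr (i + 1) n / S.fr 1 n|) (w := fun i => |S.fr 1 i|)
    (q := fun i => |Q i|) hP (fun j a _ => S.fr_succ a) (fun _ _ _ => le_rfl) (fun _ _ _ => le_rfl)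
    (fun _ _ _ => le_rfl) fun _ _ _ => le_rfl
  refine main.trans ?_
  have wl := wp l l1
  have Tl := T0 l
  have sl40 : 40 ≤ k.sl n := h.lam.trans tb.lsl
  have s40 : ∀ i, i ≤ n → 40 ≤ k.σ i := fun i a => h.lam.trans (tb.lam i a)
  obtain n0 : (0 : ℝ) ≤ n := by exact_mod_cast (show (0 : ℤ) ≤ n by omega)
  obtain l0 : (0 : ℝ) ≤ l := by exact_mod_cast (show (0 : ℤ) ≤ l by omega)
  have cn := cnt sl40 g1 oc.g16 n0 (k1.time n oc.hn)
  have cl := cnt (s40 l ln.le) g1 oc.g16 l0 (tb.tm l l1 ln.le)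
  set N := k.NN n e (G + 19) l with hN
  obtain N1 : 1 ≤ N := tb.N1 _ _ _ (by linarith only [hG]) (by omega) ln.le
  obtain g3 : 0 ≤ g ^ 3 := by exact le_of_lt (pow_pos (lt_of_lt_of_le (one_pos : (0 : ℝ) < 1) g1) (3 : ℕ))
  have xl := f.f1 l l1 ln.le
  obtain t1 : |S.fr 1 l| * ∑ i ∈ Ico l n, |S.fr (i + 1) n / S.fr 1 n| * |Q i| ≤
      exp (13 * k.sl n) / 2 * T l * k.w l + 2 * N := by
    obtain a1 : ∀ i ∈ Ico l n, |S.fr 1 l| * (|S.fr (i + 1) n / S.fr 1 n| * |Q i|) ≤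
        g ^ 3 * exp (11 * k.sl n) * T l * k.w l + 1 / (i : ℝ) ^ 2 * N := by
      intro i hi
      obtain ⟨a, b⟩ := mem_Ico.1 hi
      have i1 : 1 ≤ i := l1.trans a
      have b1 := H i i i1 le_rfl b
      rw [Sk.chi, Finset.Ioc_self, sum_empty, neg_zero, zero_div, exp_zero, one_mul] at b1
      obtain b2 : |S.fr 1 l| * (|S.fr (i + 1) n / S.fr 1 n| * |Q i|) ≤
          g * k.w l * (g ^ 2 * (k.E n i * |Q i|)) :=
        mul_le_mul xl (by rw [← mul_assoc]; exact mul_le_mul_of_nonneg_right (hE i i1 b) (abs_nonneg _))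
          (by exact mul_nonneg (abs_nonneg (Sq.fr S (i + (1 : ℤ)) n / Sq.fr S (1 : ℤ) n)) (abs_nonneg (Q i))) (by exact le_of_lt (mul_pos (lt_of_lt_of_le (one_pos : (0 : ℝ) < 1) g1) wl))
      obtain b3 : exp (11 * k.σ i) * T i ≤ exp (11 * k.sl n) * T l :=
        mul_le_mul (exp_le_exp.2 (by linarith only [tb.sl i b])) (Ta l i a) (T0 i) (exp_pos _).le
      obtain b4 := tb.Ns e G 13 i hG (by norm_num) (by omega) b.le
      obtain b5 := (hB k oc.sk n oc.hn e (G + 13) he' (by linarith only [hG]) hG').2.2.1 l i (by omega) a i1 b he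
      rw [show G + 13 + 6 = G + 19 by ring, ← hN] at b5
      obtain ip : (0 : ℝ) < i := by exact_mod_cast (show (0 : ℤ) < i by omega)
      obtain b6 : g ^ 3 * exp (11 * k.σ i) ≤ 1 / (i : ℝ) ^ 2 * exp (13 * k.σ i) := by
        rw [one_div, ← div_eq_inv_mul, le_div_iff₀ (by (clear * - i1; positivity)),
          show 13 * k.σ i = k.σ i + 11 * k.σ i + k.σ i by ring, exp_add, exp_add]
        have c1 := (cnt (s40 i b.le) g1 oc.g16 ip.le (tb.tm i i1 b.le)).2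
        exact mul_le_mul (mul_le_mul_of_nonneg_right (by linarith only [g3, c1]) (exp_pos _).le) (tb.tm i i1 b.le)
          (by (clear * - i1; positivity)) (by positivity)
      obtain N0 : 0 ≤ k.NN n e G i := le_trans zero_le_one (tb.N1 _ _ _ hG (by omega) b.le)
      have w4i := w4p i i1
      obtain b7 : g ^ 3 * exp (11 * k.σ i) * (k.w l * k.NN n e G i / k.w4 i) ≤ 1 / (i : ℝ) ^ 2 * N := by
        refine (mul_le_mul_of_nonneg_right b6 (by exact J1_dnn (mul_nonneg (le_of_lt wl) N0) w4i)).trans ?_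
        rw [mul_assoc]
        refine mul_le_mul_of_nonneg_left (le_trans ?_ b5) (by (clear * - i1; positivity))
        rw [← mul_div_assoc, mul_left_comm]
        exact div_le_div_of_nonneg_right (mul_le_mul (tb.ww l l1) b4 (by exact mul_nonneg (le_of_lt (exp_pos ((13 : ℝ) * Sk.σ k i))) N0) (w4p l l1).le)
          w4i.le
      obtain b8 := mul_le_mul_of_nonneg_left b1 (show 0 ≤ g ^ 3 * k.w l by exact le_of_lt (mul_pos (pow_pos (lt_of_lt_of_le (one_pos : (0 : ℝ) < 1) g1) (3 : ℕ)) wl))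
      obtain b9 := mul_le_mul_of_nonneg_left b3 (show 0 ≤ g ^ 3 * k.w l by exact le_of_lt (mul_pos (pow_pos (lt_of_lt_of_le (one_pos : (0 : ℝ) < 1) g1) (3 : ℕ)) wl))
      obtain e1 : g ^ 3 * k.w l * (exp (11 * k.σ i) * (T i + k.NN n e G i / k.w4 i)) =
          g ^ 3 * k.w l * (exp (11 * k.σ i) * T i) +
            g ^ 3 * exp (11 * k.σ i) * (k.w l * k.NN n e G i / k.w4 i) := by ring
      rw [e1] at b8
      linarith only [b2, b7, b8, b9]
    rw [mul_sum]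
    refine (sum_le_sum a1).trans ?_
    rw [sum_add_distrib, ← sum_mul _ _ N]
    refine add_le_add ((card_le l1 (by omega) (by exact mul_nonneg (mul_nonneg (le_of_lt (mul_pos (pow_pos (lt_of_lt_of_le (one_pos : (0 : ℝ) < 1) g1) (3 : ℕ)) (exp_pos ((11 : ℝ) * Sk.sl k n)))) Tl) (le_of_lt wl)) fun _ _ _ => le_rfl).trans ?_)
      (mul_le_mul_of_nonneg_right (sum_inv_sq l1) (by linarith only [N1]))
    obtain a2 : exp (k.sl n) * exp (11 * k.sl n) ≤ exp (13 * k.sl n) := by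
      rw [← exp_add]; exact exp_le_exp.2 (by linarith only [sl40])
    have a3 := mul_le_mul_of_nonneg_right cn.1 (exp_pos (11 * k.sl n)).le
    obtain a4 : n * (g ^ 3 * exp (11 * k.sl n)) ≤ exp (13 * k.sl n) / 2 := by linarith only [a2, a3]
    obtain a5 := mul_le_mul_of_nonneg_right a4 (show 0 ≤ T l * k.w l by exact mul_nonneg Tl (le_of_lt wl))
    linarith only [a5]
  have El := Ep l l1 ln
  have w4l := w4p l l1
  obtain Nl : 0 ≤ k.NN n e G l := le_trans zero_le_one (tb.N1 _ _ _ hG (by omega) ln.le)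
  obtain d4 : ∀ i, 1 ≤ i → i ≤ l → |S.Pb i l| * k.w i ≤ exp (k.σ l) * exp (-k.chi i l / 2) * k.w l :=
    fun i a b => (mul_le_mul_of_nonneg_right (Pb_le f (by omega) ln.le) (wp i a).le).trans
      (oc.sk.2.d4 i l a b (ln.le.trans tb.nN))
  obtain t2 : |S.fr (l + 1) n / S.fr 1 n| * (|S.Pb 1 l| * |S.Wr P (S.fr 1) 1|) ≤ N := by
    obtain a1 : |S.Wr P (S.fr 1) 1| ≤ 1 := by
      have b1 := f.b 1 le_rfl tb.n1
      obtain b2 : k.B 1 ≤ 1 := by
        rw [k1.ch_one.2, exp_le_one_iff, neg_nonpos]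
        exact mul_nonneg (by linarith only [h.β]) (by linarith only [h.lam])
      rw [Sq.Wr, S.fr_pred, S.fr_self, mul_zero, one_mul, zero_sub, sub_self, abs_mul, abs_neg,
        abs_of_nonneg b1.1]
      exact mul_le_one₀ (b1.2.trans b2) (abs_nonneg _) h0
    have a2 := d4 1 le_rfl l1
    rw [k1.w1, mul_one] at a2
    obtain a3 : exp (-k.chi 1 l / 2) ≤ 1 := by
      rw [exp_le_one_iff]; linarith only [chi0 k1 1 l]
    obtain a4 : |S.Pb 1 l| * |S.Wr P (S.fr 1) 1| ≤ exp (k.σ l) * k.w4 l := by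
      refine (mul_le_of_le_one_right (abs_nonneg _) a1).trans (a2.trans ?_)
      exact mul_le_mul (mul_le_of_le_one_right (exp_pos _).le a3) (tb.ww l l1) wl.le (exp_pos _).le
    have a5 := (hC k oc.sk n oc.hn).1 l l1 ln
    obtain a6 := tb.Ns 1 8 2 l (by norm_num) (by norm_num) (by omega) ln.le
    obtain a7 := tb.Nm 1 e (8 + 2) (G + 19) l (by norm_num) (by omega) ln.le he (by linarith only [hG])
    obtain a8 : g ^ 2 ≤ exp (k.σ l) := by nlinarith only [g1, g3, cl.2]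
    refine (mul_le_mul (hE l l1 ln) a4 (by exact mul_nonneg (abs_nonneg (Sq.Pb S (1 : ℤ) l)) (abs_nonneg (Sq.Wr S P (Sq.fr S (1 : ℤ)) (1 : ℤ)))) (by exact le_of_lt (mul_pos (pow_pos (lt_of_lt_of_le (one_pos : (0 : ℝ) < 1) g1) (2 : ℕ)) El))).trans (le_trans ?_ (a6.trans a7))
    rw [two_mul, exp_add]
    calc g ^ 2 * k.E n l * (exp (k.σ l) * k.w4 l)
        = g ^ 2 * exp (k.σ l) * (k.E n l * k.w4 l) := by ring
      _ ≤ _ := mul_le_mul (mul_le_mul_of_nonneg_right a8 (exp_pos _).le) a5 (by exact le_of_lt (mul_pos El w4l))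
        (by exact le_of_lt (mul_pos (exp_pos (Sk.σ k l)) (exp_pos (Sk.σ k l))))
  obtain t3 : |S.fr (l + 1) n / S.fr 1 n| * ∑ i ∈ Ico 1 l, |S.Pb i l| * |S.fr 1 i| * |Q i| ≤
      exp (13 * k.sl n) / 2 * T l * k.w l + N := by
    obtain a1 : ∀ i, 1 ≤ i → i < l → |S.fr (l + 1) n / S.fr 1 n| * (|S.Pb i l| * |S.fr 1 i| * |Q i|) ≤
        g ^ 3 * exp (12 * k.σ l) * (k.w l * (T l + k.NN n e G l / k.w4 l)) := by
      intro i a b
      obtain b1 : |S.Pb i l| * |S.fr 1 i| ≤ g * (exp (k.σ l) * exp (-k.chi i l / 2) * k.w l) := by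
        obtain this := mul_le_mul_of_nonneg_left (f.f1 i a (by omega)) (abs_nonneg (S.Pb i l))
        obtain this := mul_le_mul_of_nonneg_left (d4 i a b.le) (show 0 ≤ g by linarith only [g1])
        linarith
      refine (mul_le_mul (hE l l1 ln) (mul_le_mul_of_nonneg_right b1 (abs_nonneg _))
        (by exact mul_nonneg (mul_nonneg (abs_nonneg (Sq.Pb S i l)) (abs_nonneg (Sq.fr S (1 : ℤ) i))) (abs_nonneg (Q i))) (by exact le_of_lt (mul_pos (pow_pos (lt_of_lt_of_le (one_pos : (0 : ℝ) < 1) g1) (2 : ℕ)) El))).trans ?_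
      obtain b2 := mul_le_mul_of_nonneg_left (H i l a b.le ln)
        (show 0 ≤ g ^ 3 * exp (k.σ l) * k.w l by exact le_of_lt (mul_pos (mul_pos (pow_pos (lt_of_lt_of_le (one_pos : (0 : ℝ) < 1) g1) (3 : ℕ)) (exp_pos (Sk.σ k l))) wl))
      rw [show 12 * k.σ l = k.σ l + 11 * k.σ l by ring, exp_add]
      linarith only [b2]
    rw [mul_sum]
    refine (card_le le_rfl (by omega) (by exact mul_nonneg (le_of_lt (mul_pos (pow_pos (lt_of_lt_of_le (one_pos : (0 : ℝ) < 1) g1) (3 : ℕ)) (exp_pos ((12 : ℝ) * Sk.σ k l)))) (mul_nonneg (le_of_lt wl) (add_nonneg Tl (J1_dnn Nl w4l)))) a1).trans ?_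
    obtain a2 : l * (g ^ 3 * exp (12 * k.σ l)) ≤ exp (13 * k.σ l) / 2 := by
      have := mul_le_mul_of_nonneg_right cl.1 (exp_pos (12 * k.σ l)).le
      rw [show 13 * k.σ l = k.σ l + 12 * k.σ l by ring, exp_add]
      linarith only [this]
    obtain a3 : k.w l * (k.NN n e G l / k.w4 l) ≤ k.NN n e G l := by
      rw [← mul_div_assoc, div_le_iff₀ w4l, mul_comm]
      exact mul_le_mul_of_nonneg_left (tb.ww l l1) Nl
    obtain a4 := (tb.Ns e G 13 l hG (by norm_num) (by omega) ln.le).trans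
      (tb.Nm e e (G + 13) (G + 19) l (by linarith only [hG]) (by omega) ln.le le_rfl (by linarith only []))
    obtain a5 : exp (13 * k.σ l) ≤ exp (13 * k.sl n) := exp_le_exp.2 (by linarith only [tb.sl l ln])
    obtain a6 := mul_le_mul_of_nonneg_right a5 (show 0 ≤ T l * k.w l by exact mul_nonneg Tl (le_of_lt wl))
    have a7 := mul_le_mul_of_nonneg_left a3 (exp_pos (13 * k.σ l)).le
    rw [← mul_assoc]
    refine (mul_le_mul_of_nonneg_right a2 (by exact mul_nonneg (le_of_lt wl) (add_nonneg Tl (J1_dnn Nl w4l)))).trans ?_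
    linarith only [N1, a4, a6, a7]
  obtain t4 := tb.Ns e (G + 19) 1 l (by linarith only [hG]) (by norm_num) (by omega) ln.le
  rw [one_mul, show G + 19 + 1 = G + 20 by ring, ← hN] at t4
  obtain t5 : 4 ≤ exp (k.σ l) := by linarith only [add_one_le_exp (k.σ l), s40 l ln.le]
  obtain t6 := mul_le_mul_of_nonneg_right t5 (show 0 ≤ N by linarith only [N1])
  rw [mul_add]
  linarith only [t1, t2, t3, t4, t6]

theorem gm_facts {K : ℕ} {c : Cs} (h : KK K c) {γ : ℝ} (hb : c.Bud K γ) :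
    2 ≤ c.ck ∧ (∀ j, 1 ≤ j → 4000 ≤ c.gm γ j) ∧ (∀ j, j ≤ K + 3 → 1000 * c.gm γ j ≤ c.C0) ∧
    200 * ((K : ℝ) + 1) ≤ c.C0 ∧ ∀ a b, 1 ≤ a → 1 ≤ b →
      3 * c.ck * (8 + 3 * c.ck * (c.gm γ a + 5 + (c.gm γ b + 5) + 3) + 3) ≤ c.gm γ (a + b) / 4 := by
  obtain ck : 2 ≤ c.ck := by unfold Cs.ck; linarith only [h.κ]
  have cg : c.Cg = 1000 * c.ck ^ 2 := rfl
  obtain cg4 : 4000 ≤ c.Cg := by rw [cg]; nlinarith only [ck]
  have K0 : (0 : ℝ) ≤ K := Nat.cast_nonneg K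
  obtain g1 : 1 ≤ γ := by linarith only [hb.1]
  obtain mono : ∀ i j, i ≤ j → c.gm γ i ≤ c.gm γ j := fun i j hij =>
    mul_le_mul_of_nonneg_left (pow_le_pow_right₀ (by linarith only [cg4]) hij) (by linarith only [g1])
  obtain lo : ∀ j, 1 ≤ j → c.Cg ≤ c.gm γ j := fun j hj => by
    refine le_trans ?_ (mono 1 j hj)
    rw [Cs.gm, pow_one]; nlinarith only [cg, g1]
  obtain su : ∀ j, c.gm γ (j + 1) = c.Cg * c.gm γ j := fun j => by rw [Cs.gm, Cs.gm, pow_succ]; ring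
  obtain top := lo (K + 3) (by omega)
  have b2 := hb.2
  refine ⟨ck, fun j hj => cg4.trans (lo j hj), fun j hj => ?_, by nlinarith only [cg4, top, b2], fun a b ha hb' => ?_⟩
  · have := mono j _ hj
    nlinarith only [cg, top, b2, this]
  · obtain ⟨m, hm⟩ : ∃ m, a + b = m + 1 := ⟨a + b - 1, by omega⟩
    obtain a1 := mono a m (by omega)
    obtain a2 := mono b m (by omega)
    obtain a3 := cg4.trans (lo m (by omega))
    rw [hm, su, cg]
    obtain a4 : c.ck ≤ c.ck ^ 2 := by nlinarith only [ck, cg, cg4]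
    obtain a5 : 0 ≤ c.ck ^ 2 := by exact le_of_lt (pow_pos (lt_of_lt_of_le (Nat.ofNat_pos : (0 : ℝ) < 2) ck) (2 : ℕ))
    have a6 := mul_le_mul_of_nonneg_left a1 a5
    have a7 := mul_le_mul_of_nonneg_left a2 a5
    have a8 := mul_le_mul_of_nonneg_left a3 a5
    nlinarith only [a4, a6, a7, a8]

/-- the product table with tails -/
theorem prod {K : ℕ} {c : Cs} (h : KK K c) (hA : TA_s c) (hC : TC_s c) {k : Sk} (hk : k.OK c) {n : ℤ}
    (hn : n ∈ k.F) {γ : ℝ} {r : ℕ} {τ τ'} (hb : c.Bud K γ) (ad : k.Adm c n r γ τ τ') {a b : ℕ}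
    (ha : 1 ≤ a) (hb' : 1 ≤ b) (hr : a + b ≤ r + 1) (hK : a + b ≤ K + 3) {l : ℤ} (l1 : 1 ≤ l)
    (ln : l < n) :
    k.E n l * ((k.w4 l * τ a + k.NN n (2 * a - 1) (c.gm γ a + 5) l) *
      (k.w4 l * τ b + k.NN n (2 * b - 1) (c.gm γ b + 5) l)) ≤
    4 * (τ' (a + b) l + k.NN n (2 * (a + b) - 1) (c.gm γ (a + b) / 4) l / k.w4 l) := by
  have tb := tb hA hk hn
  obtain ⟨ck, lo, hi, -, tri⟩ := gm_facts h hb
  have wl := hk.1.w_pos l l1
  have w4 := wl.trans_le (tb.ww l l1)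
  obtain El : 0 < k.E n l :=
    (mul_pos_iff_of_pos_right wl).1 (lt_of_lt_of_le (by norm_num) (tb.Ew l l1 ln))
  have ga := lo a ha
  have gb := lo b hb'
  obtain gab := lo (a + b) (by omega)
  obtain l0 : 0 ≤ l := by omega
  obtain N0 := tb.N1 (2 * (a + b) - 1) (c.gm γ (a + b) / 4) l (by linarith only [gab]) l0 ln.le
  have T0 := ad.pos' (a + b) l
  obtain mx : max (τ' (a + b) l) (k.NN n (2 * (a + b) - 1) (c.gm γ (a + b) / 4) l / k.w4 l) ≤
      τ' (a + b) l + k.NN n (2 * (a + b) - 1) (c.gm γ (a + b) / 4) l / k.w4 l :=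
    max_le (le_add_of_nonneg_right (by exact le_of_lt (div_pos (lt_of_lt_of_le (one_pos : (0 : ℝ) < 1) N0) w4))) (le_add_of_nonneg_left T0)
  have t1 := (ad.tt a b l ha hb' hr l1 ln).trans mx
  have t2 := (ad.tn a b l ha hb' hr l1 ln).trans mx
  obtain t3 := ad.tn b a l hb' ha (by omega) l1 ln
  rw [add_comm b a] at t3
  replace t3 := t3.trans mx
  obtain m2 := mul_le_mul_of_nonneg_left
    (tb.Nm (2 * b - 1) _ (c.gm γ b + 5) (4 * c.gm γ b) l (by linarith only [gb]) l0 ln.le le_rfl (by linarith only [gb]))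
    (show 0 ≤ k.E n l * k.w4 l * τ a by have := ad.pos a; exact mul_nonneg (le_of_lt (mul_pos El w4)) this)
  obtain m3 := mul_le_mul_of_nonneg_left
    (tb.Nm (2 * a - 1) _ (c.gm γ a + 5) (4 * c.gm γ a) l (by linarith only [ga]) l0 ln.le le_rfl (by linarith only [ga]))
    (show 0 ≤ k.E n l * k.w4 l * τ b by have := ad.pos b; exact mul_nonneg (le_of_lt (mul_pos El w4)) this)
  obtain ⟨c1, c2⟩ := hC k hk n hn
  have tr := tri a b ha hb'
  have hab := hi (a + b) hK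
  obtain p0 : 0 ≤ 3 * c.ck * (c.gm γ a + 5 + (c.gm γ b + 5) + 3) := by exact le_of_lt (mul_pos (mul_pos (Nat.ofNat_pos : (0 : ℝ) < 3) (lt_of_lt_of_le (Nat.ofNat_pos : (0 : ℝ) < 2) ck)) (add_pos' (add_pos' (add_pos' (lt_of_lt_of_le (Nat.ofNat_pos : (0 : ℝ) < 4000) ga) (Nat.ofNat_pos : (0 : ℝ) < 5)) (add_pos' (lt_of_lt_of_le (Nat.ofNat_pos : (0 : ℝ) < 4000) gb) (Nat.ofNat_pos : (0 : ℝ) < 5))) (Nat.ofNat_pos : (0 : ℝ) < 3)))
  obtain p1 : 3 * c.ck * (c.gm γ a + 5 + (c.gm γ b + 5) + 3) ≤ c.C0 := by nlinarith only [ck, gab, tr, hab, p0]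
  obtain u1 := c2 (2 * a - 1) (2 * b - 1) (c.gm γ a + 5) (c.gm γ b + 5) l (by linarith only [ga])
    (by linarith only [gab, hab, hi a (by omega)]) (by linarith only [gb]) (by linarith only [gab, hab, hi b (by omega)]) l0 ln.le
  obtain u2 := c2 1 (2 * a - 1 + (2 * b - 1)) 8 _ l (by norm_num) (by linarith only [gab, hab]) p0 p1 l0 ln.le
  obtain u3 := tb.Nm (1 + (2 * a - 1 + (2 * b - 1))) (2 * (a + b) - 1) _ _ l (by exact le_of_lt (mul_pos (mul_pos (Nat.ofNat_pos : (0 : ℝ) < 3) (lt_of_lt_of_le (Nat.ofNat_pos : (0 : ℝ) < 2) ck)) (add_pos' (add_pos' (Nat.ofNat_pos : (0 : ℝ) < 8) (mul_pos (mul_pos (Nat.ofNat_pos : (0 : ℝ) < 3) (lt_of_lt_of_le (Nat.ofNat_pos : (0 : ℝ) < 2) ck)) (add_pos' (add_pos' (add_pos' (lt_of_lt_of_le (Nat.ofNat_pos : (0 : ℝ) < 4000) ga) (Nat.ofNat_pos : (0 : ℝ) < 5)) (add_pos' (lt_of_lt_of_le (Nat.ofNat_pos : (0 : ℝ) < 4000) gb) (Nat.ofNat_pos : (0 : ℝ) < 5))) (Nat.ofNat_pos : (0 : ℝ) <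 3)))) (Nat.ofNat_pos : (0 : ℝ) < 3)))) l0 ln.le
    (by omega) tr
  have u0 := tb.N1 (2 * a - 1 + (2 * b - 1)) _ l p0 l0 ln.le
  obtain t4 : k.E n l * (k.NN n (2 * a - 1) (c.gm γ a + 5) l * k.NN n (2 * b - 1) (c.gm γ b + 5) l) ≤
      k.NN n (2 * (a + b) - 1) (c.gm γ (a + b) / 4) l / k.w4 l := by
    rw [le_div_iff₀ w4]
    refine le_trans ?_ (u2.trans u3)
    obtain v1 := mul_le_mul_of_nonneg_left u1 (show 0 ≤ k.E n l * k.w4 l by exact le_of_lt (mul_pos El w4))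
    have v2 := mul_le_mul_of_nonneg_right (c1 l l1 ln) (zero_le_one.trans u0)
    linarith only [v1, v2]
  linarith only [T0, t1, t2, t3, m2, m3, t4]

theorem main {K : ℕ} {c : Cs} (h : KK K c) (hA : TA_s c) (hB : TB_s c) (hC : TC_s c)
    (hQ : QB_s K c) : J1_s K c := by
  intro M σ t g k n jc γ r τ τ' hb hr ad hτ
  have oc := jc.oc
  have tb := tb hA oc.sk oc.hn
  have k1 := oc.sk.1
  have f := oc.fit
  have g1 := oc.g1
  have g16 := oc.g16
  have wp := k1.w_pos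
  have w4p : ∀ i, 1 ≤ i → 0 < k.w4 i := fun i hi => (wp i hi).trans_le (tb.ww i hi)
  obtain Ep : ∀ i, 1 ≤ i → i < n → 0 < k.E n i := fun i a b =>
    (mul_pos_iff_of_pos_right (wp i a)).1 (lt_of_lt_of_le (by norm_num) (tb.Ew i a b))
  obtain ⟨ck, lo, hi, hKC, -⟩ := gm_facts h hb
  obtain ⟨-, q0, q1, q2⟩ := hQ M σ t g k n jc
  have sl40 : 40 ≤ k.sl n := h.lam.trans tb.lsl
  have s40 : ∀ i, i ≤ n → 40 ≤ k.σ i := fun i a => h.lam.trans (tb.lam i a)
  obtain he : ∀ a : ℕ, a ≤ K + 1 → 100 * ((2 * a - 1 : ℕ) : ℝ) ≤ c.C0 := fun a ha => by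
    obtain this : ((2 * a - 1 : ℕ) : ℝ) ≤ ((2 * (K + 1) : ℕ) : ℝ) := Nat.cast_le.2 (by omega)
    push_cast at this ⊢
    linarith only [hKC, this]
  obtain p0 : ∀ j, 1 ≤ j → j ≤ K + 1 → |σ.pj M t j 0| ≤ 1 := fun j a b => by
    rw [(q0 j).1]; exact (jc.at'.cj j a b).trans (by norm_num)
  obtain xp : ∀ m ∈ k.F, m ≤ n → 0 < |(σ.orb M t).fr 1 m| := fun m a b =>
    (mul_pos_iff_of_pos_left (by linarith only [g1])).1 ((wp m (k1.F_mem m a).1).trans_le (f.f2 m a b))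
  obtain C : ∀ j, 1 ≤ j → j ≤ r + 1 → j ≤ K + 1 →
      (∀ a l, 1 ≤ a → a < j → 0 ≤ l → l ≤ n → |σ.pj M t a l| ≤ k.MJ c n γ τ a l) →
      ∀ l, 1 ≤ l → l < n → |σ.pj M t j l - (σ.orb M t).fr 1 l * σ.La M t j n| ≤
        exp (13 * k.sl n) * (if j = 1 then 0 else τ' j l) * k.w l +
          k.NN n (2 * j - 1) (c.gm γ j / 4 + 20) l := by
    intro j j1 jr jK ih l l1 ln
    have gj := lo j j1
    refine key h hA hB hC oc (Q := σ.Qj M t j) (T := fun l => if j = 1 then 0 else τ' j l)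
      (fun i _ _ => by rw [Seed.Qj]; ring) (p0 j j1 jK)
      (fun i => by split_ifs; exacts [le_rfl, ad.pos' j i])
      (fun i i' hi => by split_ifs; exacts [le_rfl, ad.anti j i i' hi]) (by omega) (he j jK)
      (by linarith only [gj]) (by linarith only [gj, hi j (by omega)]) (fun i l i1 il ln => ?_) l1 ln
    have l1 := i1.trans il
    have El := Ep l l1 ln
    have w4l := w4p l l1
    have sl := s40 l ln.le
    have ch := chi0 k1 i l
    rcases j1.eq_or_lt with rfl | j2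
    · obtain a1 : |σ.Qj M t 1 i| ≤ 2 := by
        have b1 := (q1 i i1).2
        obtain b2 : c.dl ≤ 1 := by
          rw [Cs.dl, exp_le_one_iff]
          obtain this : 0 ≤ c.bl := mul_nonneg (by linarith only [h.β]) (by linarith only [h.lam])
          linarith only [this]
        have := abs_sub_abs_le_abs_sub (σ.Qj M t 1 i) 1
        rw [abs_one] at this
        linarith only [b1, b2, this]
      obtain a2 : exp (-k.chi i l / 2) ≤ 1 := by rw [exp_le_one_iff]; linarith only [ch]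
      obtain a3 : k.E n l ≤ k.NN n (2 * 1 - 1) (c.gm γ 1 / 4) l / k.w4 l := by
        rw [le_div_iff₀ w4l]
        exact ((hC k oc.sk n oc.hn).1 l l1 ln).trans
          (tb.Nm _ _ _ _ l (by norm_num) (by omega) ln.le le_rfl (by linarith only [gj]))
      obtain a4 : 2 ≤ exp (11 * k.σ l) := by linarith only [sl, add_one_le_exp (11 * k.σ l)]
      rw [if_pos rfl, zero_add, mul_comm]
      exact mul_le_mul ((mul_le_of_le_one_left (abs_nonneg _) a2).trans (a1.trans a4)) a3 El.le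
        (exp_pos _).le
    rw [if_neg (by omega)]
    have inn : i < n := il.trans_lt ln
    have w4i := w4p i i1
    set R := τ' j l + k.NN n (2 * j - 1) (c.gm γ j / 4) l / k.w4 l with hR
    obtain R0 : 0 ≤ R := add_nonneg (ad.pos' j l)
      (div_nonneg (zero_le_one.trans (tb.N1 _ _ _ (by linarith only [gj]) (by omega) ln.le)) w4l.le)
    obtain m0 : ∀ a, 1 ≤ a → ∀ x, 0 ≤ x → ∀ i, 1 ≤ i → i < n →
        0 ≤ k.w4 i * τ a + k.NN n (2 * a - 1) (c.gm γ a + x) i := fun a ha x hx i i1 inn =>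
      add_nonneg (mul_nonneg (w4p i i1).le (ad.pos a))
        (zero_le_one.trans (tb.N1 _ _ _ (by linarith only [hx, lo a ha]) (by omega) inn.le))
    have hq := (q2 i j (fun a => k.w4 i * τ a + k.NN n (2 * a - 1) (c.gm γ a + 1) i) (1 / 2) 8
      (exp (k.chi i l / 2) * exp (8 * k.σ l) * (4 * R) / k.E n l) i1 inn j2 jK (by norm_num)
      (by norm_num) (by norm_num) (by exact J1_dnn (mul_nonneg (le_of_lt (mul_pos (exp_pos (Sk.chi k i l / (2 : ℝ))) (exp_pos ((8 : ℝ) * Sk.σ k l)))) (mul_nonneg (le_of_lt (Nat.ofNat_pos : (0 : ℝ) < 4)) R0)) El) (fun a a1 aj => ?_) (fun a b a1 b1 ab => ?_)).1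
      fun a b a1 b1 ab => ?_
    · obtain a1 : (j.factorial : ℝ) * c.CG * c.L / (1 / 2) ^ j * 8 ^ (j - 2) * 4 ≤ exp (2 * k.σ l) := by
        have b1 : (j.factorial : ℝ) ≤ (K + 1).factorial := Nat.cast_le.2 (Nat.factorial_le jK)
        obtain b2 : (2 : ℝ) ^ j * 8 ^ (j - 2) ≤ 16 ^ (K + 1) := by
          rw [show (16 : ℝ) = 2 * 8 by norm_num, mul_pow]
          exact mul_le_mul (pow_le_pow_right₀ (by norm_num) jK)
            (pow_le_pow_right₀ (by norm_num) (by omega)) (by exact le_of_lt (pow_pos (Nat.ofNat_pos : (0 : ℝ) < 8) (j - (2 : ℕ)))) (by exact le_of_lt (pow_pos (Nat.ofNat_pos : (0 : ℝ) < 2) (K + (1 : ℕ))))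
        have cg := h.CG
        obtain b3 : (j.factorial : ℝ) * c.CG * (2 ^ j * 8 ^ (j - 2)) ≤
            (K + 1).factorial * c.CG * 16 ^ (K + 1) :=
          mul_le_mul (mul_le_mul_of_nonneg_right b1 (by linarith only [cg])) b2 (by exact le_of_lt (mul_pos (pow_pos (Nat.ofNat_pos : (0 : ℝ) < 2) j) (pow_pos (Nat.ofNat_pos : (0 : ℝ) < 8) (j - (2 : ℕ))))) (by exact le_of_lt (mul_pos (Iff.mpr Nat.cast_pos' (Nat.factorial_pos (K + (1 : ℕ)))) (lt_of_lt_of_le (one_pos : (0 : ℝ) < 1) cg)))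
        obtain L0 : 0 < c.L := lt_of_lt_of_le (by exact mul_pos (Nat.ofNat_pos : (0 : ℝ) < 4) (mul_pos (mul_pos (Iff.mpr Nat.cast_pos' (Nat.factorial_pos (K + (1 : ℕ)))) (lt_of_lt_of_le (one_pos : (0 : ℝ) < 1) cg)) (pow_pos (Nat.ofNat_pos : (0 : ℝ) < 16) (K + (1 : ℕ))))) h.L
        obtain b4 : c.L ≤ exp (k.σ l) := by
          rw [← exp_log L0]; exact exp_le_exp.2 (tb.lam l ln.le)
        rw [two_mul, exp_add, one_div, inv_pow, div_inv_eq_mul]
        calc (j.factorial : ℝ) * c.CG * c.L * 2 ^ j * 8 ^ (j - 2) * 4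
            = 4 * (j.factorial * c.CG * (2 ^ j * 8 ^ (j - 2))) * c.L := by ring
          _ ≤ _ := mul_le_mul (by linarith only [b3, b4, h.L]) b4 L0.le (exp_pos _).le
      obtain a2 := mul_le_mul_of_nonneg_left hq
        (show 0 ≤ k.E n l * exp (-k.chi i l / 2) by exact le_of_lt (mul_pos El (exp_pos (-Sk.chi k i l / (2 : ℝ)))))
      obtain a3 : exp (-k.chi i l / 2) * exp (k.chi i l / 2) = 1 := by rw [← exp_add]; ring_nf; simp
      obtain a4 : exp (2 * k.σ l) * exp (8 * k.σ l) ≤ exp (11 * k.σ l) := by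
        rw [← exp_add]; exact exp_le_exp.2 (by linarith only [sl])
      generalize (j.factorial : ℝ) * c.CG * c.L / (1 / 2) ^ j * 8 ^ (j - 2) = Z at a1 a2
      obtain a5 : k.E n l * exp (-k.chi i l / 2) *
          (Z * (exp (k.chi i l / 2) * exp (8 * k.σ l) * (4 * R) / k.E n l)) =
          (exp (-k.chi i l / 2) * exp (k.chi i l / 2)) * (Z * 4 * exp (8 * k.σ l) * R) := by
        field_simp
      rw [a5, a3, one_mul, mul_assoc] at a2
      exact a2.trans (mul_le_mul_of_nonneg_right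
        ((mul_le_mul_of_nonneg_right a1 (exp_pos _).le).trans a4) R0)
    · have ga := lo a a1
      obtain b1 := ih a i a1 aj (by omega) inn.le
      obtain b2 := mul_le_mul_of_nonneg_left (ih a (i - 1) a1 aj (by omega) (by omega))
        (exp_pos (-k.ch i / 2)).le
      obtain ⟨b3, b4⟩ := (hB k oc.sk n oc.hn (2 * a - 1) (c.gm γ a) (he a (by omega)) (by linarith only [ga])
        (by linarith only [ga, hi a (by omega)])).1 i i1 inn.le
      have b5 := mul_le_mul_of_nonneg_right b3 (ad.pos a)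
      obtain b6 := tb.Nm (2 * a - 1) _ (c.gm γ a) (c.gm γ a + 1) i (by linarith only [ga]) (by omega) inn.le le_rfl
        (by linarith only [])
      obtain b7 := tb.N1 (2 * a - 1) (c.gm γ a + 1) i (by linarith only [ga]) (by omega) inn.le
      have b8 := mul_nonneg w4i.le (ad.pos a)
      unfold Sk.MJ at b1 b2
      obtain b9 : σ.gz M t (exp (-k.ch i / 2)) a i ≤
          2 * (k.w4 i * τ a + k.NN n (2 * a - 1) (c.gm γ a + 1) i) :=
        max_le (by split_ifs <;> linarith only [b7, b8]) (max_le (by linarith only [b1, b6, b7, b8]) (by linarith only [b2, b4, b5, b7]))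
      linarith only [b9]
    · obtain up : ∀ a, 1 ≤ a → k.w4 i * τ a + k.NN n (2 * a - 1) (c.gm γ a + 1) i ≤
          k.w4 i * τ a + k.NN n (2 * a - 1) (c.gm γ a + 5) i := fun a a1 => add_le_add le_rfl
        (tb.Nm _ _ _ _ i (by linarith only [lo a a1]) (by omega) inn.le le_rfl (by linarith only []))
      obtain b1 := mul_le_mul (up a a1) (up b b1) (m0 b b1 1 (by norm_num) i i1 inn)
        (m0 a a1 5 (by norm_num) i i1 inn)
      obtain b2 := prod h hA hC oc.sk oc.hn hb ad a1 ‹1 ≤ b› (by omega) (by omega) i1 inn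
      obtain b3 := mul_nonneg (m0 a a1 5 (by norm_num) i i1 inn) (m0 b ‹1 ≤ b› 5 (by norm_num) i i1 inn)
      have b4 : 1 / 2 ≤ k.E n i * k.w4 i :=
        (tb.Ew i i1 inn).trans (mul_le_mul_of_nonneg_left (tb.ww i i1) (Ep i i1 inn).le)
      obtain b5 : τ' (a + b) i ≤ τ (a + b) := by
        refine le_trans (le_mul_of_one_le_left (ad.pos' _ _) ?_) (ad.margin _ i (by omega) (by omega))
        exact one_le_exp (by linarith only [sl40])
      obtain gab := lo (a + b) (by omega)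
      obtain b6 := tb.Nm (2 * (a + b) - 1) _ (c.gm γ (a + b) / 4) (c.gm γ (a + b) + 1) i (by linarith only [gab])
        (by omega) inn.le le_rfl (by linarith only [gab])
      have b7 := mul_le_mul_of_nonneg_left b2 w4i.le
      have b8 := mul_le_mul_of_nonneg_right b4 b3
      have b9 := mul_le_mul_of_nonneg_left b5 w4i.le
      obtain e : k.w4 i * (4 * (τ' (a + b) i +
          k.NN n (2 * (a + b) - 1) (c.gm γ (a + b) / 4) i / k.w4 i)) =
          4 * (k.w4 i * τ' (a + b) i + k.NN n (2 * (a + b) - 1) (c.gm γ (a + b) / 4) i) := by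
        field_simp
      rw [e] at b7
      linarith only [b1, b6, b7, b8, b9]
    · obtain up : ∀ a, 1 ≤ a → a < j →
          exp (-k.chi i l / 4) * (k.w4 i * τ a + k.NN n (2 * a - 1) (c.gm γ a + 1) i) ≤
          exp (4 * k.σ l) * (k.w4 l * τ a + k.NN n (2 * a - 1) (c.gm γ a + 5) l) := by
        intro a a1 aj
        have ga := lo a a1
        obtain ⟨c1, c2⟩ := (hB k oc.sk n oc.hn (2 * a - 1) (c.gm γ a + 1) (he a (by omega))
          (by linarith only [ga]) (by linarith only [ga, hi a (by omega)])).2.1 i l (by omega) il ln.le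
        rw [show c.gm γ a + 1 + 4 = c.gm γ a + 5 by ring] at c2
        have c3 := mul_le_mul_of_nonneg_right c1 (ad.pos a)
        obtain c4 := le_mul_of_one_le_left (zero_le_one.trans
          (tb.N1 (2 * a - 1) (c.gm γ a + 5) l (by linarith only [ga]) (by omega) ln.le))
          (one_le_exp (show 0 ≤ 4 * k.σ l by linarith only [sl]))
        linarith only [c2, c3, c4]
      obtain b2 := prod h hA hC oc.sk oc.hn hb ad a1 b1 (by omega) (by omega) l1 ln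
      rw [ab, ← hR] at b2
      obtain b3 := mul_le_mul (up a a1 (by omega)) (up b b1 (by omega))
        (mul_nonneg (exp_pos _).le (m0 b b1 1 (by norm_num) i i1 inn))
        (mul_nonneg (exp_pos _).le (m0 a a1 5 (by norm_num) l l1 ln))
      obtain e1 : exp (k.chi i l / 2) * (exp (-k.chi i l / 4) * exp (-k.chi i l / 4)) = 1 := by
        rw [← exp_add, ← exp_add]; ring_nf; simp
      obtain e2 : exp (8 * k.σ l) = exp (4 * k.σ l) * exp (4 * k.σ l) := by rw [← exp_add]; ring_nf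
      obtain b4 := mul_le_mul_of_nonneg_left b3 (show 0 ≤ exp (k.chi i l / 2) * k.E n l by exact le_of_lt (mul_pos (exp_pos (Sk.chi k i l / (2 : ℝ))) El))
      obtain b5 := mul_le_mul_of_nonneg_left b2
        (show 0 ≤ exp (k.chi i l / 2) * exp (8 * k.σ l) by exact le_of_lt (mul_pos (exp_pos (Sk.chi k i l / (2 : ℝ))) (exp_pos ((8 : ℝ) * Sk.σ k l))))
      rw [le_div_iff₀ El]
      generalize k.w4 i * τ a + k.NN n (2 * a - 1) (c.gm γ a + 1) i = x1 at *
      generalize k.w4 i * τ b + k.NN n (2 * b - 1) (c.gm γ b + 1) i = x2 at *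
      generalize k.w4 l * τ a + k.NN n (2 * a - 1) (c.gm γ a + 5) l = y1 at *
      generalize k.w4 l * τ b + k.NN n (2 * b - 1) (c.gm γ b + 5) l = y2 at *
      rw [e2] at b5 ⊢
      calc x1 * x2 * k.E n l = exp (k.chi i l / 2) * (exp (-k.chi i l / 4) * exp (-k.chi i l / 4)) *
            (x1 * x2 * k.E n l) := by rw [e1, one_mul]
        _ ≤ _ := by linarith only [b5, b4]
  obtain A : ∀ j, 1 ≤ j → j ≤ r → ∀ l, 0 ≤ l → l ≤ n → |σ.pj M t j l| ≤ k.MJ c n γ τ j l := by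
    intro j
    induction j using Nat.strong_induction_on with
    | _ j ih =>
    intro j1 jr l l0 ln
    have gj := lo j j1
    obtain N1 := tb.N1 (2 * j - 1) (c.gm γ j) l (by linarith only [gj]) l0 ln
    unfold Sk.MJ
    rcases l0.eq_or_lt with rfl | l1
    · rw [tb.w40, zero_mul, zero_add]; exact (p0 j j1 (by omega)).trans N1
    have wl := wp l l1
    obtain a1 : |(σ.orb M t).fr 1 l * σ.La M t j n| ≤ k.w l * τ j / 2 := by
      rw [abs_mul]
      obtain b1 := mul_le_mul (f.f1 l l1 ln) (hτ j j1 jr) (by exact mul_nonneg (le_of_lt (Nat.ofNat_pos : (0 : ℝ) < 32)) (abs_nonneg (Seed.La σ M t j n))) (by exact le_of_lt (mul_pos (lt_of_lt_of_le (one_pos : (0 : ℝ) < 1) g1) wl))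
      have b2 := mul_le_mul_of_nonneg_right g16 (mul_nonneg wl.le (ad.pos j))
      linarith only [b1, b2]
    have a2 := mul_le_mul_of_nonneg_right (tb.ww l l1) (ad.pos j)
    have a0 := mul_nonneg wl.le (ad.pos j)
    rcases ln.eq_or_lt with rfl | ln
    · rw [Seed.La, mul_div_cancel₀ _ (abs_pos.1 (xp l oc.hn le_rfl))] at a1
      linarith only [a2, a0, N1, a1]
    obtain a3 := C j j1 (by omega) (by omega) (fun a l a1 aj => ih a aj a1 (by omega) l) l l1 ln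
    obtain a4 := tb.Nm (2 * j - 1) _ (c.gm γ j / 4 + 20) (c.gm γ j) l (by linarith only [gj]) l0 ln.le le_rfl
      (by linarith only [gj])
    obtain a5 : exp (13 * k.sl n) * (if j = 1 then 0 else τ' j l) ≤ τ j / 2 := by
      split_ifs with e
      · linarith only [ad.pos j]
      obtain b1 := ad.margin j l (by omega) jr
      obtain b2 : 2 * exp (13 * k.sl n) ≤ exp (20 * k.sl n) := by
        rw [show 20 * k.sl n = 7 * k.sl n + 13 * k.sl n by ring, exp_add]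
        exact mul_le_mul_of_nonneg_right (by linarith only [sl40, add_one_le_exp (7 * k.sl n)]) (exp_pos _).le
      linarith only [b1, mul_le_mul_of_nonneg_right b2 (ad.pos' j l)]
    have a6 := mul_le_mul_of_nonneg_right a5 wl.le
    have a7 := abs_sub_abs_le_abs_sub (σ.pj M t j l) ((σ.orb M t).fr 1 l * σ.La M t j n)
    linarith only [a1, a2, a3, a4, a6, a7]
  refine ⟨fun j l a b => A j a b l, fun j j1 jr jK m mF mn => ?_⟩
  have m1 := (k1.F_mem m mF).1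
  have wm := wp m m1
  have gj := lo j j1
  have T0 := ad.pos' j m
  rcases mn.eq_or_lt with rfl | mn
  · obtain this := tb.N1 (2 * j - 1) (c.gm γ j / 2) m (by linarith only [gj]) (by omega) le_rfl
    rw [sub_self, abs_zero]; exact le_of_lt (Right.add_pos_of_nonneg_of_pos (mul_nonneg (le_of_lt (exp_pos ((15 : ℝ) * Sk.sl k m))) T0) (div_pos (lt_of_lt_of_le (one_pos : (0 : ℝ) < 1) this) wm))
  obtain a1 := C j j1 jr jK (fun a l a1 aj => A a a1 (by omega) l) m m1 mn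
  have x := xp m mF mn.le
  obtain e : σ.La M t j m - σ.La M t j n =
      (σ.pj M t j m - (σ.orb M t).fr 1 m * σ.La M t j n) / (σ.orb M t).fr 1 m := by
    rw [sub_div, mul_div_cancel_left₀ _ (abs_pos.1 x)]; rfl
  obtain a2 : (if j = 1 then 0 else τ' j m) ≤ τ' j m := by split_ifs; exacts [T0, le_rfl]
  obtain a3 : g * exp (13 * k.sl n) ≤ exp (15 * k.sl n) := by
    rw [show 15 * k.sl n = 2 * k.sl n + 13 * k.sl n by ring, exp_add]
    exact mul_le_mul_of_nonneg_right (by linarith only [g16, sl40, add_one_le_exp (2 * k.sl n)]) (exp_pos _).le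
  obtain a4 := (tb.Ns (2 * j - 1) (c.gm γ j / 4 + 20) 1 m (by linarith only [gj]) (by norm_num) (by omega)
    mn.le).trans (tb.Nm _ _ _ (c.gm γ j / 2) m (by linarith only [gj]) (by omega) mn.le le_rfl (by linarith only [gj]))
  obtain a5 := tb.N1 (2 * j - 1) (c.gm γ j / 4 + 20) m (by linarith only [gj]) (by omega) mn.le
  obtain a6 : g ≤ exp (1 * k.σ m) := by linarith only [g16, add_one_le_exp (1 * k.σ m), s40 m mn.le]
  have a7 := mul_le_mul_of_nonneg_right a6 (zero_le_one.trans a5)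
  obtain a8 := mul_le_mul_of_nonneg_left a2 (show 0 ≤ g * exp (13 * k.sl n) * k.w m by exact le_of_lt (mul_pos (mul_pos (lt_of_lt_of_le (one_pos : (0 : ℝ) < 1) g1) (exp_pos ((13 : ℝ) * Sk.sl k n))) wm))
  have a9 := mul_le_mul_of_nonneg_right a3 (mul_nonneg T0 wm.le)
  obtain b1 := mul_le_mul_of_nonneg_left a1 (show 0 ≤ g by linarith only [g1])
  have b2 := mul_le_mul_of_nonneg_left (f.f2 m mF mn.le)
    (abs_nonneg (σ.La M t j m - σ.La M t j n))
  obtain b3 : |σ.La M t j m - σ.La M t j n| * |(σ.orb M t).fr 1 m| =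
      |σ.pj M t j m - (σ.orb M t).fr 1 m * σ.La M t j n| := by
    rw [e, abs_div, div_mul_cancel₀ _ x.ne']
  rw [mul_left_comm, b3] at b2
  rw [← sub_le_iff_le_add', le_div_iff₀ wm]
  linarith only [a4, a7, a8, a9, b1, b2]

end J1

theorem j1 (K : ℕ) : Hier fun c => TA_s c → TB_s c → TC_s c → QB_s K c → J1_s K c :=
  (J1.hK K).mono fun _ h => J1.main h

end Pool.Agent.MP_9cbfe4_an

end

/-! ### Part J1C -/

section

/-! Row J1C: change of seed. -/

namespace Pool.Agent.MP_9cbfe4_an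

open Finset Real
open scoped ContDiff Nat

namespace J1C

lemma nq_le {q B : ℝ} (hq : q ≤ 1) {v : ℝ × ℝ × ℝ} (h1 : |v.1| ≤ B) (h2 : |v.2.1| ≤ B)
    (h3 : |v.2.2| ≤ B) : nq q v ≤ B :=
  max_le h1 (max_le h2 ((mul_le_of_le_one_left (abs_nonneg _) hq).trans h3))

lemma prods {ϑ Z A Bx : ℝ} (hϑ : 0 ≤ ϑ) (hAB : A ≤ Bx) {j k : ℕ} (s : Fin k → ℕ)
    (hk : 2 ≤ k) (hs : ∀ i, 0 < s i) (hj : ∑ i, s i = j) :
    ϑ * exp (Z + (0 : ℕ) * Bx) * ∏ i, exp (s i * A) ≤ ϑ * exp (Z + (j - 1) * Bx + A) ∧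
    ∀ i, ϑ * exp (Z + s i * Bx) * ∏ l ∈ univ.erase i, exp (s l * A)
      ≤ ϑ * exp (Z + (j - 1) * Bx + A) := by
  obtain hlt : ∀ i, s i + 1 ≤ j := by
    intro i
    obtain hk2 : 1 < Fintype.card (Fin k) := by simp; omega
    obtain ⟨i', hi'⟩ := Fintype.exists_ne_of_one_lt_card hk2 i
    have := Finset.add_le_sum (f := s) (s := Finset.univ) (fun _ _ => Nat.zero_le _)
      (Finset.mem_univ i) (Finset.mem_univ i') hi'.symm
    have := hs i'
    omega
  obtain hj' : ∑ i, (s i : ℝ) = j := by exact_mod_cast hj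
  refine ⟨?_, fun i => ?_⟩
  · rw [← exp_sum, ← sum_mul, hj', mul_assoc, ← exp_add]
    refine mul_le_mul_of_nonneg_left (exp_le_exp.2 ?_) hϑ
    obtain h1 : (1 : ℝ) ≤ j := by exact_mod_cast (by have := hlt ⟨0, by omega⟩; omega : 1 ≤ j)
    have := mul_nonneg (sub_nonneg.2 h1) (sub_nonneg.2 hAB)
    push_cast; linarith only [this]
  · obtain e : ∑ l ∈ univ.erase i, (s l : ℝ) = j - s i := by
      rw [← hj', ← add_sum_erase _ _ (mem_univ i)]; ring
    rw [← exp_sum, ← sum_mul, e, mul_assoc, ← exp_add]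
    refine mul_le_mul_of_nonneg_left (exp_le_exp.2 ?_) hϑ
    obtain h1 : (s i : ℝ) + 1 ≤ j := by exact_mod_cast hlt i
    have := mul_nonneg (sub_nonneg.2 h1) (sub_nonneg.2 hAB)
    linarith only [this]

/-- the source of the recursion for the difference of the jets -/
lemma step {K : ℕ} {c : Cs} {M : Mdl} (h : SOK.Big c) (hM : M.OKk c (K + 6)) {σ σ' : Seed} {t : ℝ}
    (a : σ.At K c t) (a' : σ'.At K c t) {i : ℤ} (hi : 1 ≤ i) {q : ℝ} (hq : q ≤ 1)
    (hCL : 0 ≤ c.CG * c.L)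
    (geo : ∀ z ∈ segment ℝ ((t, (σ.orb M t).X i, (σ.orb M t).X (i - 1)) : ℝ × ℝ × ℝ)
      (t, (σ'.orb M t).X i, (σ'.orb M t).X (i - 1)), z ∈ OB c ∧ ∀ j : ℕ, 2 ≤ j → j ≤ K + 6 →
      ∀ v : Fin j → ℝ × ℝ × ℝ, |iteratedFDeriv ℝ j M.GG z v| ≤ c.CG * c.L * ∏ i, nq q (v i))
    {j : ℕ} (hj0 : 0 < j) (hj : j ≤ K + 1) {ϑ Z A Bx : ℝ} (hϑ : 0 ≤ ϑ) (hA : 0 ≤ A) (hAB : A ≤ Bx)
    (hm : ∀ b l, 1 ≤ b → b ≤ j → (l = i ∨ l = i - 1) →
      |σ.pj M t b l| ≤ exp (b * A) ∧ |σ'.pj M t b l| ≤ exp (b * A))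
    (hz : ∀ b l, b < j → (l = i ∨ l = i - 1) →
      |σ'.pj M t b l - σ.pj M t b l| ≤ ϑ * exp (Z + b * Bx)) :
    |(σ'.pj M t j (i + 1) - σ.pj M t j (i + 1)) -
      ((σ.orb M t).a i * (σ'.pj M t j i - σ.pj M t j i) +
        (σ.orb M t).b i * (σ'.pj M t j (i - 1) - σ.pj M t j (i - 1)))|
      ≤ 2 * (j + 1)! * (c.CG * c.L) * (ϑ * exp (Z + (j - 1) * Bx + A)) := by
  have hL := h.L
  obtain hN : ((K + 1 : ℕ) : WithTop ℕ∞) ≤ ∞ := by exact_mod_cast le_top
  obtain sm : ∀ {τ : Seed}, τ.At K c t → ∀ l, ContDiffAt ℝ (K + 1 : ℕ) (M.fam 1 τ.v τ.c l) t :=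
    fun b l => Mdl.fam_smooth h hM hN ⟨b.t0, b.t1⟩ (by linarith only [hL, b.bv]) (by linarith only [hL, b.bc]) b.sv b.sc l
  obtain jt : ∀ {τ : Seed}, τ.At K c t → ∀ b : ℕ, 0 < b → b ≤ j →
      iteratedDeriv b (gam (M.fam 1 τ.v τ.c) i) t =
        (if b = 1 then 1 else 0, τ.pj M t b i, τ.pj M t b (i - 1)) := fun b m h0 h1 =>
    gam_jet (sm b i) (sm b (i - 1)) h0 (by exact_mod_cast h1.trans hj)
  obtain hjN : ((j : ℕ) : WithTop ℕ∞) ≤ (K + 1 : ℕ) := by exact_mod_cast hj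
  obtain one : ∀ b : ℕ, |(if b = 1 then 1 else 0 : ℝ)| ≤ exp (b * A) := fun b => by
    have := one_le_exp (mul_nonneg (Nat.cast_nonneg b) hA)
    split_ifs
    · rwa [abs_one]
    · rw [abs_zero]; linarith only [this]
  have key := J0.diff_any (g := M.GG) (γ₁ := gam (M.fam 1 σ'.v σ'.c) i)
    (γ₂ := gam (M.fam 1 σ.v σ.c) i) (x := t) (j := j) (p := nq q) (M := c.CG * c.L)
    (m := fun b => exp (b * A)) (z := fun b => ϑ * exp (Z + b * Bx))
    (B := ϑ * exp (Z + (j - 1) * Bx + A))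
    (convex_segment ((t, (σ.orb M t).X i, (σ.orb M t).X (i - 1)) : ℝ × ℝ × ℝ)
      (t, (σ'.orb M t).X i, (σ'.orb M t).X (i - 1)))
    (right_mem_segment _ _ _) (left_mem_segment _ _ _)
    (fun u hu => hM.smoothAt (geo u hu).1 (by exact_mod_cast le_top))
    ((gam_smooth (sm a' i) (sm a' (i - 1))).of_le hjN) ((gam_smooth (sm a i) (sm a (i - 1))).of_le hjN)
    hj0 hCL (by (clear * - hϑ; positivity)) (nq_nonneg q)
    (fun k h2 h3 u hu => (geo u hu).2 k h2 (by omega))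
    (fun b h0 h1 => by
      rw [jt a' b h0 h1]
      exact nq_le hq (one b) (hm b i h0 h1 (Or.inl rfl)).2 (hm b _ h0 h1 (Or.inr rfl)).2)
    (fun b h0 h1 => by
      rw [jt a b h0 h1.le]
      exact nq_le hq (one b) (hm b i h0 h1.le (Or.inl rfl)).1 (hm b _ h0 h1.le (Or.inr rfl)).1)
    (by
      refine nq_le hq ?_ ?_ ?_
      · show |t - t| ≤ _
        rw [sub_self, abs_zero]; (clear * - hϑ; positivity)
      · exact hz 0 i hj0 (Or.inl rfl)
      · exact hz 0 _ hj0 (Or.inr rfl))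
    (fun b h0 h1 => by
      rw [jt a' b h0 h1.le, jt a b h0 h1.le]
      refine nq_le hq ?_ (hz b i h1 (Or.inl rfl)) (hz b _ h1 (Or.inr rfl))
      show |(if b = 1 then 1 else 0 : ℝ) - (if b = 1 then 1 else 0)| ≤ _
      rw [sub_self, abs_zero]; (clear * - hϑ; positivity))
    (fun k s h2 _ hs hsum => prods hϑ hAB s h2 hs hsum)
  obtain e : ∀ τ : Seed, iteratedDeriv j (M.GG ∘ gam (M.fam 1 τ.v τ.c) i) t = τ.pj M t j (i + 1) :=
    fun τ => by
      show _ = iteratedDeriv j (M.fam 1 τ.v τ.c (i + 1)) t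
      rw [Mdl.fam_succ hi]; rfl
  rw [e, e, jt a' j hj0 le_rfl, jt a j hj0 le_rfl,
    hM.d1 (gam (M.fam 1 σ.v σ.c) i t) (geo _ (left_mem_segment _ _ _)).1] at key
  obtain h1 : (1 : ℝ) ≤ j := by exact_mod_cast hj0
  obtain hB : ϑ * exp (Z + (0 : ℕ) * Bx) * exp (j * A) ≤ ϑ * exp (Z + (j - 1) * Bx + A) := by
    rw [mul_assoc, ← exp_add]
    refine mul_le_mul_of_nonneg_left (exp_le_exp.2 ?_) hϑ
    have := mul_nonneg (sub_nonneg.2 h1) (sub_nonneg.2 hAB)
    push_cast; linarith only [this]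
  obtain hf : (1 : ℝ) ≤ (j + 1)! := by exact_mod_cast (j + 1).factorial_pos
  obtain hf' : ((j + 1)! : ℝ) = (j + 1) * j ! := by rw [Nat.factorial_succ]; push_cast; ring
  obtain hMB : 0 ≤ c.CG * c.L * (ϑ * exp (Z + (j - 1) * Bx + A)) := by (clear * - hCL hϑ; positivity)
  have h2 := mul_le_mul_of_nonneg_left hB hCL
  have h3 := mul_le_mul_of_nonneg_right hf hMB
  refine le_trans (le_of_eq ?_) (key.trans ?_)
  · congr 1
    simp only [Prod.fst_sub, Prod.snd_sub, sub_self, mul_zero, zero_add]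
    rfl
  · rw [hf'] at h3 ⊢
    linarith only [h2, h3]

end J1C

open J1C in
theorem j1c (K : ℕ) : Hier fun c => TA_s c → GEO_s K c → TUBE_s K c → R2_s K c → SHD_s K c →
    J1F_s K c → J1C_s K c := by
  have hL := Hier.L_ge (fun c => 32 * (K + 2)! * c.CG) fun _ _ => rfl
  have hβ := Hier.β_ge (fun _ => 0) fun _ _ _ => rfl
  refine (((SOK.big.and Hier.base).and hL).and hβ).mono ?_
  rintro c ⟨⟨⟨h, -, -, -, -, hκ, hCG⟩, hL⟩, hβ⟩ ta geo tube r2 shd j1f M σ t g k n hJ g8 γ hγ σ' ϑ a' near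
    small
  have oc := hJ.oc
  have a := hJ.at'
  have hM := oc.ok
  have k1 := oc.sk.1
  obtain ⟨n1, nN⟩ := k1.F_mem n oc.hn
  have hlam := h.lam
  have hL0 := h.L
  have g1 := oc.g1
  have hs1 : k.sl 1 ≤ k.sl n := k1.sl_mono 1 n le_rfl n1
  have hs : c.lam ≤ k.sl n := k1.sl1.trans hs1
  obtain hW : 0 ≤ k.W n := by have := k1.W_mono 1 n le_rfl n1; rwa [k1.W1] at this
  set s := k.sl n with hsd
  set W := k.W n with hWd
  obtain hϑ : 0 ≤ ϑ := (abs_nonneg _).trans (near 0 (by omega)).1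
  obtain X0 : ∀ τ : Seed, (τ.orb M t).X 0 = τ.c t := fun τ =>
    congrFun (Mdl.fam_lt (M := M) (s := 1) (j := 0) (v := τ.v) (u := τ.c) (by norm_num)) t
  have X1 : ∀ τ : Seed, (τ.orb M t).X 1 = τ.v t := fun τ =>
    congrFun (Mdl.fam_self (M := M) (s := 1) (v := τ.v) (u := τ.c)) t
  obtain o2 : O2 c M t (σ'.orb M t) := by
    refine ⟨a.t0, a.t1, SOK.isOrb hM.ok ⟨a.t0.le, a.t1.le⟩ 1 _ ?_ ?_ fun hh => ?_, ?_⟩
    · exact a'.bv.trans (by linarith only [hL0])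
    · exact a'.bc.trans (by linarith only [hL0])
    · exact absurd hh (by have := a'.far; simp only; linarith only [hh, this])
    · rw [X0, X1]; exact ⟨a'.bc, a'.bv⟩
  obtain n0 := near 0 (by omega)
  simp only [iteratedDeriv_zero] at n0
  obtain ⟨tb, cl, -⟩ := (shd M t g _ k n oc).2 _ o2 ϑ (by rw [X0, X0]; exact n0.2)
    (by rw [X1, X1]; exact n0.1) (small.trans (exp_le_exp.2 (by linarith only [hlam, hs])))
  have eW := one_le_exp hW
  obtain hsz : k.sz n (2 * g * ϑ) 0 ϑ ≤ 17 * exp (-100 * s) := by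
    unfold Sk.sz
    have h1 : ϑ ≤ ϑ * exp W := le_mul_of_one_le_right hϑ eW
    obtain h2 : g * (ϑ * exp W) ≤ 8 * (ϑ * exp W) := mul_le_mul_of_nonneg_right g8 (by (clear * - hϑ; positivity))
    rw [← hWd]; linarith only [small, h1, h2]
  obtain e17 : ∀ y : ℝ, 30 ≤ y → 170000 ≤ exp (y * s) := fun y hy => by
    obtain h1 : (300 : ℝ) ≤ y * s := by nlinarith only [hlam, hs, hy]
    have h2 := add_one_le_exp (y * s / 3)
    obtain h3 : exp (y * s) = exp (y * s / 3) ^ 3 := by rw [← exp_nat_mul]; congr 1; push_cast; ring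
    rw [h3]
    calc (170000 : ℝ) ≤ 101 ^ 3 := by norm_num
      _ ≤ _ := pow_le_pow_left₀ (by norm_num) (by linarith only [h1, h2]) 3
  obtain ⟨-, tcs⟩ := tube M t g _ k n oc t _ o2 (2 * g * ϑ) 0 ϑ 0 le_rfl
    (by have := hγ.1; have := hγ.2
        obtain this : 0 ≤ 1000 * ((K : ℝ) + 1) * c.gm γ (K + 3) := by
          unfold Cs.gm Cs.Cg
          obtain this : 0 ≤ γ := by linarith [(Nat.cast_nonneg K : (0 : ℝ) ≤ K)]
          (clear * - this; positivity)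
        linarith) tb (by
      refine hsz.trans ?_
      obtain h1 := e17 40 (by norm_num)
      obtain h2 : exp (-(c.ck * 0 + 60) * s) = exp (40 * s) * exp (-100 * s) := by
        rw [← exp_add]; congr 1; ring
      rw [h2]
      exact mul_le_mul_of_nonneg_right (by linarith only [h1]) (exp_pos _).le)
  obtain ⟨oc', -⟩ := r2 M t g _ k n oc g8 t _ o2 (k.sz n (2 * g * ϑ) 0 ϑ * exp ((0 + 32) * s)) (by
    obtain h1 := e17 68 (by norm_num)
    obtain h2 : exp (-100 * s) * exp ((0 + 32) * s) * exp (68 * s) = 1 := by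
      rw [← exp_add, ← exp_add, ← exp_zero]; congr 1; ring
    have h3 := mul_le_mul_of_nonneg_right hsz (exp_pos ((0 + 32) * s)).le
    obtain h4 : 0 < exp (-100 * s) * exp ((0 + 32) * s) := by positivity
    have h5 := mul_le_mul_of_nonneg_left h1 h4.le
    rw [h2] at h5
    refine h3.trans ?_
    rw [mul_assoc]
    generalize exp (-100 * s) * exp ((0 + 32) * s) = P at h5
    linarith only [h5]) tcs
  have hJ' : JC K c M σ' t (2 * g) k n := ⟨oc', a'⟩
  refine ⟨hJ', ?_⟩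
  have cr := (j1f M σ t g k n hJ γ hγ).2
  have cr' := (j1f M σ' t _ k n hJ' γ hγ).2
  obtain hG : 4 ≤ c.ck * c.gm γ (K + 2) := by
    obtain h1 : 2 ≤ c.ck := by unfold Cs.ck; linarith only [hκ]
    obtain h2 : 2 ≤ c.Cg := by unfold Cs.Cg; nlinarith only [h1]
    obtain h3 : 1 ≤ γ := by have := hγ.1; linarith only [this, (Nat.cast_nonneg K : (0 : ℝ) ≤ K)]
    obtain h4 : c.Cg ≤ c.Cg ^ (K + 2) := le_self_pow₀ (by linarith only [h2]) (by omega)
    obtain h5 : 2 ≤ c.gm γ (K + 2) := by unfold Cs.gm; nlinarith only [h2, h3, h4]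
    nlinarith only [h1, h5]
  rw [← hsd, ← hWd] at cr cr'
  simp only [mul_assoc] at cr cr' ⊢
  simp only [← mul_assoc c.ck] at cr cr' ⊢
  set G := c.ck * c.gm γ (K + 2)
  obtain hGs : 4 * s ≤ G * s := mul_le_mul_of_nonneg_right hG (by linarith only [hlam, hs])
  set A := 2 * W + 7 * (G * s) with hA
  set Bx := 4 * W + 10 * (G * s) with hBx
  obtain ⟨t1, -, -, -, -, -, -, -, -, t10, -, -, -, t14, t15, -⟩ := ta k oc.sk
  obtain hw : ∀ l, 1 ≤ l → l ≤ n → 0 < k.w l ∧ k.w l ≤ exp (W + s) := fun l h1 h2 =>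
    ⟨k1.w_pos l h1, (t1 l h1).trans ((t10 n oc.hn l (by omega) h2).1.trans (exp_le_exp.2 (by linarith only [hs1])))⟩
  obtain es : ∀ y : ℝ, 1 ≤ y → 32 ≤ exp (y * s) := fun y hy => by
    obtain h1 : (10 : ℝ) ≤ y * s := by nlinarith only [hlam, hs, hy]
    have h2 := add_one_le_exp (y * s / 2)
    obtain h3 : exp (y * s) = exp (y * s / 2) ^ 2 := by rw [← exp_nat_mul]; congr 1; push_cast; ring
    rw [h3]; nlinarith only [h1, h2]
  obtain main : ∀ j : ℕ, j ≤ K + 1 → ∀ l, 0 ≤ l → l ≤ n →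
      |σ'.pj M t j l - σ.pj M t j l| ≤ ϑ * exp (W + 2 * s + j * Bx) := by
    intro j
    induction j using Nat.strong_induction_on with
    | _ j ih =>
    intro hj l l0 ln
    obtain hjB : 0 ≤ (j : ℝ) * Bx := mul_nonneg (Nat.cast_nonneg j) (by linarith only [hlam, hs, hW, hGs])
    rcases l0.eq_or_lt with rfl | l1
    · obtain e : ∀ τ : Seed, τ.pj M t j 0 = iteratedDeriv j τ.c t := fun τ => by
        show iteratedDeriv j (M.fam 1 τ.v τ.c 0) t = _
        rw [Mdl.fam_lt (by norm_num)]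
      rw [e, e]
      exact (near j hj).2.trans (le_mul_of_one_le_right hϑ (one_le_exp (by linarith only [hlam, hs, hW, hjB])))
    have l1 : 1 ≤ l := l1
    obtain ⟨w0, wl⟩ := hw l l1 ln
    rcases Nat.eq_zero_or_pos j with rfl | j0
    · refine (cl l l1 ln).1.trans ?_
      have h1 := es 1 le_rfl
      obtain h2 : exp (W + 2 * s + (0 : ℕ) * Bx) = exp (1 * s) * exp (W + s) := by
        rw [← exp_add]; congr 1; push_cast; ring
      rw [h2]
      calc 2 * g * ϑ * k.w l = ϑ * (2 * g * k.w l) := by ring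
        _ ≤ _ := mul_le_mul_of_nonneg_left
          (mul_le_mul (by linarith only [g8, h1]) wl w0.le (exp_pos _).le) hϑ
    obtain hCL : 0 ≤ c.CG * c.L := by (clear * - hCG hL0; positivity)
    set S := σ.orb M t with hS
    set Δ : ℤ → ℝ := fun l => σ'.pj M t j l - σ.pj M t j l with hΔ
    set Q := 2 * (j + 1)! * (c.CG * c.L) * (ϑ * exp (W + 2 * s + (j - 1) * Bx + A)) with hQ
    obtain Q0 : 0 ≤ Q := by (clear * - hCG hL0 hϑ; positivity)
    obtain src : ∀ i, 1 ≤ i → i < n → |Δ (i + 1) - (S.a i * Δ i + S.b i * Δ (i - 1))| ≤ Q := by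
      intro i i1 i2
      refine step h hM a a' i1 (q := exp (-k.ch i / 2))
        (exp_le_one_iff.2 (by linarith only [(k1.ch_mem i).1])) hCL
        (fun z hz => ?_) j0 hj hϑ (by linarith only [hlam, hs, hW, hGs]) (by linarith only [hlam, hs, hW, hGs]) (fun b l b1 bj hl => ?_)
        fun b l bj hl => ?_
      · obtain this := geo M t g _ k n oc t _ o2 i i1 i2.le (tcs.x i (by omega) i2.le)
          (tcs.x (i - 1) (by omega) (by omega)) z hz
        exact ⟨this.1, this.2.2⟩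
      · exact ⟨cr b l b1 (by omega) (by omega) (by omega), cr' b l b1 (by omega) (by omega) (by omega)⟩
      · exact ih b bj (by omega) l (by omega) (by omega)
    obtain voc := S.voc (Z := Δ) (q := fun i => Δ (i + 1) - (S.a i * Δ i + S.b i * Δ (i - 1))) (s := 1)
      (n := n) (fun i _ _ => by ring) l1 ln
    obtain d1 : |Δ 1| ≤ ϑ := by
      obtain e : ∀ τ : Seed, τ.pj M t j 1 = iteratedDeriv j τ.v t := fun τ => by
        show iteratedDeriv j (M.fam 1 τ.v τ.c 1) t = _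
        rw [Mdl.fam_self]
      simp only [hΔ, e]; exact (near j hj).1
    obtain d0 : |Δ (1 - 1)| ≤ ϑ := by
      obtain e : ∀ τ : Seed, τ.pj M t j (1 - 1) = iteratedDeriv j τ.c t := fun τ => by
        show iteratedDeriv j (M.fam 1 τ.v τ.c (1 - 1)) t = _
        rw [Mdl.fam_lt (by norm_num)]
      simp only [hΔ, e]; exact (near j hj).2
    obtain gw : g * k.w l ≤ 8 * exp (W + s) := mul_le_mul g8 wl w0.le (by norm_num)
    obtain T1 : |Δ 1 * S.fr 1 l| ≤ ϑ * (8 * exp (W + s)) := by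
      rw [abs_mul]
      exact mul_le_mul d1 ((oc.fit.f1 l l1 ln).trans gw) (abs_nonneg _) hϑ
    obtain T2 : |S.b 1 * Δ (1 - 1) * S.fr (1 + 1) l| ≤ ϑ * (8 * exp (W + s)) := by
      rcases l1.eq_or_lt with rfl | l2
      · rw [S.fr_succ_self, mul_zero, abs_zero]; (clear * - hϑ; positivity)
      have h1 := oc.fit.fE n oc.hn le_rfl 1 l le_rfl l2 ln
      obtain ⟨b0, b1⟩ := oc.fit.b 1 le_rfl n1
      obtain h2 : k.B 1 * k.E n 1 ≤ 1 :=
        (t15 n (by omega)).trans (exp_le_one_iff.2 (by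
          obtain this : 0 ≤ c.bl := mul_nonneg hβ (by linarith only [hlam])
          linarith only [this]))
      obtain h3 : |S.b 1| * |S.fr (1 + 1) l| ≤ k.B 1 * (g * k.E n 1 * k.w l) :=
        mul_le_mul (by rw [abs_of_nonneg b0]; exact b1) h1 (abs_nonneg _) (b0.trans b1)
      obtain h4 : k.B 1 * k.E n 1 * (g * k.w l) ≤ 1 * (g * k.w l) :=
        mul_le_mul_of_nonneg_right h2 (by (clear * - g1 w0; positivity))
      rw [abs_mul, abs_mul, mul_comm |S.b 1|, mul_assoc]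
      exact mul_le_mul d0 (by linarith only [gw, h3, h4]) (by (clear * -; positivity)) hϑ
    obtain T3 : |∑ i ∈ Ico 1 l, S.fr (i + 1) l * (Δ (i + 1) - (S.a i * Δ i + S.b i * Δ (i - 1)))|
        ≤ exp s * (8 * exp (2 * W + 9 * s) * Q) := by
      refine (abs_sum_le_sum_abs _ _).trans ((sum_le_card_nsmul _ _ (8 * exp (2 * W + 9 * s) * Q)
        fun i hi => ?_).trans ?_)
      · obtain ⟨i1, i2⟩ := mem_Ico.1 hi
        rw [abs_mul]
        refine mul_le_mul ((oc.fit.fE n oc.hn le_rfl i l i1 i2 ln).trans ?_) (src i i1 (by omega))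
          (abs_nonneg _) (by positivity)
        obtain h1 := (t14 n oc.hn i i1 (by omega)).2.2
        obtain h2 : exp (2 * W + 9 * s) = exp (W + 8 * s) * exp (W + s) := by
          rw [← exp_add]; congr 1; ring
        rw [h2]
        calc g * k.E n i * k.w l = k.E n i * (g * k.w l) := by ring
          _ ≤ exp (W + 8 * s) * (8 * exp (W + s)) := mul_le_mul h1 gw (by (clear * - g1 w0; positivity)) (exp_pos _).le
          _ = _ := by ring
      · rw [nsmul_eq_mul]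
        refine mul_le_mul_of_nonneg_right (le_trans ?_ (k1.time n oc.hn)) (by (clear * - hCG hL0 hϑ; positivity))
        obtain h1 : ((Ico 1 l).card : ℤ) ≤ n ^ 2 := by
          rw [Int.card_Ico, Int.toNat_of_nonneg (by omega)]; nlinarith only [ln, n1]
        exact_mod_cast h1
    obtain j1 : (1 : ℝ) ≤ j := by exact_mod_cast j0
    obtain U1 : 32 * exp (W + s) ≤ exp (W + 2 * s + j * Bx) := by
      obtain h2 : exp (1 * s) * exp (W + s) ≤ exp (W + 2 * s + j * Bx) := by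
        rw [← exp_add]; exact exp_le_exp.2 (by linarith only [hjB])
      exact (mul_le_mul_of_nonneg_right (es 1 le_rfl) (exp_pos _).le).trans h2
    obtain eL : c.L ≤ exp s := by
      obtain this : c.L = exp c.lam := by rw [Cs.lam, exp_log (by linarith only [hL0])]
      rw [this]; exact exp_le_exp.2 hs
    obtain U2 : 32 * (j + 1)! * (c.CG * c.L) ≤ exp s * exp s := by
      obtain h1 : ((j + 1)! : ℝ) ≤ (K + 2)! := by exact_mod_cast Nat.factorial_le (by omega)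
      obtain h2 : 32 * (j + 1)! * c.CG ≤ 32 * (K + 2)! * c.CG :=
        mul_le_mul_of_nonneg_right (by linarith only [h1]) (by linarith only [hCG])
      rw [← mul_assoc]
      exact mul_le_mul (by linarith only [hL, eL, h2]) eL (by linarith only [hL0]) (exp_pos _).le
    obtain U3 : exp s * exp s * (exp s * exp (2 * W + 9 * s) * exp (W + 2 * s + (j - 1) * Bx + A))
        ≤ exp (W + 2 * s + j * Bx) := by
      simp only [← exp_add]; exact exp_le_exp.2 (by linarith only [hGs])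
    obtain U4 : 2 * (exp s * (8 * exp (2 * W + 9 * s) * Q)) ≤ ϑ * exp (W + 2 * s + j * Bx) := by
      calc _ = ϑ * (32 * (j + 1)! * (c.CG * c.L) *
            (exp s * exp (2 * W + 9 * s) * exp (W + 2 * s + (j - 1) * Bx + A))) := by rw [hQ]; ring
        _ ≤ _ := mul_le_mul_of_nonneg_left
          ((mul_le_mul_of_nonneg_right U2 (by positivity)).trans U3) hϑ
    have U5 := mul_le_mul_of_nonneg_left U1 hϑ
    show |Δ l| ≤ _
    rw [voc]
    refine (abs_add_three _ _ _).trans ?_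
    linarith only [T1, T2, T3, U4, U5]
  intro j l hj l0 ln
  refine (main j hj l l0 ln).trans (mul_le_mul_of_nonneg_left (exp_le_exp.2 ?_) hϑ)
  linarith only [hlam, hs, hW, hGs]

end Pool.Agent.MP_9cbfe4_an

end

/-! ### Part J2Cor -/

section

/-! Row J2C: a cancelled heavy major is flat, with jets of natural size. -/

namespace Pool.Agent.MP_9cbfe4_an

open Finset Real

namespace J2Cor

theorem ex_sign (x : ℝ) : ∃ ε : ℝ, ε * ε = 1 ∧ ε * x = |x| := by
  rcases le_total 0 x with h | h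
  · exact ⟨1, by ring, by rw [abs_of_nonneg h]; ring⟩
  · exact ⟨-1, by ring, by rw [abs_of_nonpos h]; ring⟩

/-- no cancellation in the recursion of the jets of a square root -/
theorem signed {r : ℕ} {ρ Λ e m : ℝ} {P : ℕ → ℝ} (hρ : ρ ≠ 0) (h4 : 4 * |ρ| ≤ |Λ|) (hm : 0 ≤ m)
    (h1 : m ≤ |P 1|) (he : e ≤ |Λ| / 8)
    (H : ∀ j, 2 ≤ j → j ≤ r → |ρ * P j + Λ / 2 * ∑ a ∈ Ioo 0 j, (j.choose a : ℝ) * (P a * P (j - a))|
      ≤ e * ∑ a ∈ Ioo 0 j, (j.choose a : ℝ) * (|P a| * |P (j - a)|) + |Λ| / 8 * m ^ j) :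
    ∀ j, 1 ≤ j → j ≤ r → m ^ j ≤ |P j| := by
  obtain ⟨τ, hτ, hτ'⟩ := ex_sign (-(Λ * ρ))
  obtain ⟨ε, hε, hε'⟩ := ex_sign (P 1)
  obtain sq : ∀ j : ℕ, τ ^ (j + 1) * ε ^ j * (τ ^ (j + 1) * ε ^ j) = 1 := fun j => by
    calc _ = (τ * τ) ^ (j + 1) * (ε * ε) ^ j := by rw [mul_pow, mul_pow]; ring
      _ = 1 := by rw [hτ, hε]; simp
  obtain ab : ∀ {δ : ℝ}, δ * δ = 1 → |δ| = 1 := fun {δ} h => by
    obtain h2 : |δ| * |δ| = 1 := by rw [← abs_mul, h, abs_one]
    nlinarith only [h2, abs_nonneg δ]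
  obtain eq : ∀ j, m ^ j ≤ τ ^ (j + 1) * ε ^ j * P j → |P j| = τ ^ (j + 1) * ε ^ j * P j := fun j h => by
    rw [← abs_of_nonneg ((pow_nonneg hm j).trans h), abs_mul, ab (sq j), one_mul]
  obtain key : ∀ j, 1 ≤ j → j ≤ r → m ^ j ≤ τ ^ (j + 1) * ε ^ j * P j := by
    intro j
    induction j using Nat.strong_induction_on with
    | _ j ih =>
    intro j1 jr
    rcases j1.eq_or_lt with rfl | j2
    · calc m ^ 1 ≤ ε * P 1 := by rw [pow_one, hε']; exact h1
        _ = τ * τ * ε * P 1 := by rw [hτ, one_mul]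
        _ = _ := by ring
    obtain hU : ∀ a ∈ Ioo 0 j, m ^ a ≤ τ ^ (a + 1) * ε ^ a * P a ∧
        m ^ (j - a) ≤ τ ^ (j - a + 1) * ε ^ (j - a) * P (j - a) := fun a ha => by
      have := mem_Ioo.1 ha
      exact ⟨ih a this.2 this.1 (by omega), ih _ (by omega) (by omega) (by omega)⟩
    set Q := ∑ a ∈ Ioo 0 j, (j.choose a : ℝ) * (|P a| * |P (j - a)|) with hQ
    set s := τ ^ (j + 1) * ε ^ j with hs
    obtain e1 : ∑ a ∈ Ioo 0 j, (j.choose a : ℝ) * (P a * P (j - a)) = τ * s * Q := by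
      rw [hQ, mul_sum]
      refine sum_congr rfl fun a ha => ?_
      obtain ⟨b, rfl⟩ : ∃ b, j = a + b := ⟨j - a, by have := mem_Ioo.1 ha; omega⟩
      rw [eq _ (hU a ha).1, eq _ (hU a ha).2, Nat.add_sub_cancel_left]
      calc _ = ((a + b).choose a : ℝ) * (P a * P b) * (τ * τ * (s * s)) := by
            rw [hτ, hs, sq]; ring
        _ = _ := by rw [hs]; ring
    obtain e2 : m ^ j ≤ Q := by
      have m1 : 1 ∈ Ioo 0 j := mem_Ioo.2 ⟨one_pos, j2⟩
      refine le_trans ?_ (single_le_sum (f := fun a => (j.choose a : ℝ) * (|P a| * |P (j - a)|))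
        (fun a _ => by (clear * -; positivity)) m1)
      have a1 := (hU 1 m1).1; have a2 := (hU 1 m1).2
      rw [← eq _ a1] at a1; rw [← eq _ a2] at a2
      obtain a3 : (1 : ℝ) ≤ j.choose 1 := by rw [Nat.choose_one_right]; exact_mod_cast j1
      calc m ^ j = 1 * (m ^ 1 * m ^ (j - 1)) := by rw [← pow_add, one_mul]; congr 1; omega
        _ ≤ _ := by (clear * - a3 a1 a2 hm; gcongr)
    have Q0 : 0 ≤ Q := (pow_nonneg hm j).trans e2
    have e3 := H j j2 jr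
    rw [e1] at e3
    have ρ0 := abs_pos.2 hρ
    obtain Λ0 : 0 < |Λ| := by linarith only [h4, ρ0]
    obtain e4 : |ρ * P j + Λ / 2 * (τ * s * Q)| ≤ |Λ| / 4 * Q := by
      obtain a1 : e * Q ≤ |Λ| / 8 * Q := by (clear * - he; gcongr)
      obtain a2 : |Λ| / 8 * m ^ j ≤ |Λ| / 8 * Q := by (clear * - e2 Λ0; gcongr)
      linarith only [e3, a1, a2]
    obtain e5 : τ * s * Λ * (ρ * P j + Λ / 2 * (τ * s * Q)) =
        |Λ| * |Λ| / 2 * Q - |Λ| * |ρ| * (s * P j) := by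
      rw [abs_mul_abs_self, ← abs_mul, ← abs_neg (Λ * ρ), ← hτ']
      calc _ = τ * s * Λ * ρ * P j + τ * τ * (s * s) * (Λ * Λ / 2 * Q) := by ring
        _ = _ := by rw [hτ, hs, sq]; ring
    obtain e6 : τ * s * Λ * (ρ * P j + Λ / 2 * (τ * s * Q)) ≤ |Λ| * (|Λ| / 4 * Q) := by
      refine (le_abs_self _).trans ?_
      rw [abs_mul, abs_mul, abs_mul, ab hτ, ab (sq j), one_mul, one_mul]
      (clear * - e4 Λ0; gcongr)
    obtain e7 : |Λ| * (4 * |ρ|) * Q ≤ |Λ| * |Λ| * Q := by (clear * - h4 Λ0; gcongr)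
    obtain e8 : |Λ| * |ρ| * Q ≤ |Λ| * |ρ| * (s * P j) := by linarith only [e5, e6, e7]
    exact e2.trans (le_of_mul_le_mul_left e8 (by (clear * - Λ0 hρ; positivity)))
  intro j h1 h2
  rw [eq j (key j h1 h2)]; exact key j h1 h2

theorem pos_of_mul_pos_of_nonneg_left' {a b : ℝ} (h : 0 < a * b) (ha : 0 ≤ a) : 0 < b := by
  by_contra hn; nlinarith only [h, ha, hn]


theorem jc_mono {K : ℕ} {c : Cs} {M : Mdl} {σ : Seed} {t g : ℝ} {k : Sk} {n m : ℤ}
    (h : JC K c M σ t g k n) (hm : m ∈ k.F) (hle : m ≤ n) : JC K c M σ t g k m := by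
  obtain ⟨⟨a1, a2, -, a4, a5, a6, a7, a8, a9, f⟩, b⟩ := h
  exact ⟨⟨a1, a2, hm, a4, a5, a6, a7, a8, a9,
    ⟨fun i h1 h2 => f.f1 i h1 (h2.trans hle), fun i h1 h2 => f.f2 i h1 (h2.trans hle),
      fun i h1 h2 => f.fE i h1 (h2.trans hle), fun i h1 h2 => f.fblk i h1 (h2.trans_le hle),
      fun i h1 h2 => f.fx i h1 (h2.trans_le hle), fun i h1 h2 => f.flo i h1 (h2.trans_le hle),
      fun i h1 h2 => f.d8 i h1 (h2.trans hle), fun i h1 h2 => f.b i h1 (h2.trans hle),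
      fun i h1 h2 => f.zone i h1 (h2.trans hle), fun i h1 h2 => f.fold i h1 (h2.trans_le hle)⟩⟩, b⟩

structure Num (c : Cs) : Prop where
  κ0 : 0 < c.κ
  lam : 100 ≤ c.lam
  β : 1 ≤ c.β
  L : 10 ^ 6 ≤ c.L

theorem num : Hier Num := by
  refine (((Hier.base.and (Hier.lam_ge (fun _ => 100) fun _ _ => rfl)).and
    (Hier.β_ge (fun _ => 1) fun _ _ _ => rfl)).and
    (Hier.L_ge (fun _ => 10 ^ 6) fun _ _ => rfl)).mono ?_
  rintro c ⟨⟨⟨h1, h2⟩, h3⟩, h4⟩
  exact ⟨h1.2.2.2.2.1, h2, h3, h4⟩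

theorem main {K : ℕ} {c : Cs} (h : Num c) (hTA : TA_s c) (hAD : AD3_s K c) (hJ1 : J1_s K c)
    (hD8 : D8C_s K c) (hJ2 : J2_s K c) : J2C_s K c := by
  intro M σ t g k n jc γ bud x hx xn d7 r o hr ho hη hLa j j1 jr
  have sk := jc.oc.sk
  have o1 := sk.1
  obtain ⟨-, -, t3, -, t5, -, t7, -, -, -, -, -, -, -, -, -, -, t18⟩ := hTA k sk
  obtain ⟨xF, xN⟩ := o1.D_mem x hx
  obtain ⟨pF, xp, pmin⟩ := o1.nx_mem x xN
  have pn := pmin n jc.oc.hn xn
  have x1 := (o1.F_mem x xF).1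
  have pN := (o1.F_mem _ pF).2
  obtain ⟨η0, η1⟩ := o1.η_mem x hx
  have w0 := o1.w_pos x x1
  have g1 := jc.oc.g1; have g16 := jc.oc.g16
  have hσ : 100 ≤ k.σ x := h.lam.trans (t5 x xN.le)
  have K0 : (0 : ℝ) ≤ K := Nat.cast_nonneg K
  obtain γ1 : 1 ≤ γ := by linarith only [bud.1]
  obtain ck2 : 2 ≤ c.ck := by unfold Cs.ck; linarith only [h.κ0]
  obtain cg1 : 1000 * c.ck ≤ c.Cg := by unfold Cs.Cg; nlinarith only [ck2]
  obtain cg0 : 1 ≤ c.Cg := by linarith only [ck2, cg1]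
  have gm1 : ∀ a, 1 ≤ c.gm γ a := fun a => one_le_mul_of_one_le_of_one_le γ1 (one_le_pow₀ cg0)
  obtain gmm : ∀ a b, a ≤ b → c.gm γ a ≤ c.gm γ b := fun a b hab => by unfold Cs.gm; (clear * - cg0 hab γ1; gcongr)
  obtain gms : ∀ a, a ≤ K + 1 → 1000 * c.ck * c.gm γ a ≤ c.gm γ (K + 2) := fun a ha => by
    have := gm1 a
    calc _ ≤ c.Cg * c.gm γ a := by (clear * - cg1 this; gcongr)
      _ = c.gm γ (a + 1) := by unfold Cs.gm; ring
      _ ≤ _ := gmm _ _ (by omega)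
  set G := c.gm γ (K + 2) with hG
  have G1 : 1 ≤ G := gm1 _
  obtain g2a : G + 3 * (K + 1) + 10 ≤ g2 K G := by unfold g2; nlinarith only [G1]
  set H := g2 K G with hH
  obtain Vp : ∀ e, 0 < k.V x e := fun e => by unfold Sk.V; (clear * - η0 w0; positivity)
  obtain o0 : 0 ≤ o := by
    have := (abs_nonneg _).trans (hLa 1 le_rfl (j1.trans jr))
    exact nonneg_of_mul_nonneg_left this (Vp _)
  obtain σ0 : 0 ≤ k.σ x := by linarith only [hσ]
  obtain Hσ : 0 ≤ H * k.σ x := mul_nonneg (by linarith only [G1, g2a]) σ0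
  obtain ole : o ≤ 1 := ho.trans (exp_le_one_iff.2 (by linarith only [Hσ]))
  have jp := jc_mono jc pF pn
  set T : ℕ → ℝ := fun a => o * exp (c.gm γ a * k.σ x) * k.V x (2 * a - 1) with hT
  obtain e32 : ∀ a, 32 ≤ exp (c.gm γ a * k.σ x) := fun a => by
    have := add_one_le_exp (c.gm γ a * k.σ x); have := mul_le_mul_of_nonneg_right (gm1 a) σ0
    linarith
  obtain J1 := (hJ1 M σ t g k _ jp γ r _ _ bud hr
    (hAD k sk x hx γ o r bud hr o0 (ole.trans (one_le_exp (by (clear * - γ1 hσ; positivity))))) fun a h1 h2 => by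
      have a1 := hLa a h1 h2
      have a2 : 32 * (o * k.V x (2 * a - 1)) ≤ exp (c.gm γ a * k.σ x) * (o * k.V x (2 * a - 1)) :=
        mul_le_mul_of_nonneg_right (e32 a) (mul_nonneg o0 (Vp _).le)
      linarith only [a1, a2]).1
  obtain wV : ∀ e, k.w x * k.V x e * k.η x ^ e = 1 := fun e => by unfold Sk.V; field_simp
  refine ⟨?_, ?_⟩
  swap
  · obtain a1 := J1 j x j1 jr (by omega) xp.le
    obtain ηe : 0 < k.η x ^ (2 * j - 1) := by positivity
    obtain a2 : k.NN (k.nx x) (2 * j - 1) (c.gm γ j) x ≤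
        exp (c.gm γ j * k.σ x) / k.η x ^ (2 * j - 1) := by
      refine (fold_max_le _).2 ⟨le_div_self (exp_pos _).le ηe (pow_le_one₀ η0.le η1), fun y hy => ?_⟩
      obtain ⟨y1, y2, y3⟩ := mem_filter.1 hy
      obtain ⟨yF, yN⟩ := o1.D_mem y y1
      obtain this : y = x := by
        rcases lt_trichotomy y x with a | a | a
        · have := (o1.nx_mem y yN).2.2 x xF a; omega
        · exact a
        · have := pmin y yF a; omega
      subst this
      rw [if_neg (lt_irrefl _), t3 y yF, le_div_iff₀ ηe]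
      calc _ = exp (c.gm γ j * k.σ y) * (k.w y * k.V y (2 * j - 1) * k.η y ^ (2 * j - 1)) := by ring
        _ ≤ _ := by rw [wV, mul_one]
    rw [le_div_iff₀ ηe] at a2
    unfold Sk.MJ at a1
    rw [t3 x xF] at a1
    have a3 := mul_le_mul_of_nonneg_right a1 ηe.le
    obtain a4 : k.w x * (o * exp (c.gm γ j * k.σ x) * k.V x (2 * j - 1)) * k.η x ^ (2 * j - 1) =
        o * exp (c.gm γ j * k.σ x) := by
      calc _ = o * exp (c.gm γ j * k.σ x) * (k.w x * k.V x (2 * j - 1) * k.η x ^ (2 * j - 1)) := by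
            ring
        _ = _ := by rw [wV, mul_one]
    have a5 : o * exp (c.gm γ j * k.σ x) ≤ exp (c.gm γ j * k.σ x) :=
      mul_le_of_le_one_left (exp_pos _).le ole
    rw [add_mul, a4] at a3
    linarith only [a2, a3, a5]
  -- lower bound
  obtain ⟨d1, d2, d3, d4⟩ := (hD8 M σ t g k n jc).2 x hx xn
  set S := σ.orb M t with hS
  set ρ := S.rho (S.fr 1) x (k.nx x) with hρ
  obtain g3 : g ^ 3 ≤ 4096 := le_trans (pow_le_pow_left₀ (by linarith only [g1]) g16 3) (by norm_num)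
  obtain g2' : g ^ 2 ≤ 256 := le_trans (pow_le_pow_left₀ (by linarith only [g1]) g16 2) (by norm_num)
  obtain ρ1 : |ρ| ≤ 4096 * k.η x := d3.trans (by (clear * - g3 η0; gcongr))
  obtain ρ0 : ρ ≠ 0 := by rintro h0; rw [h0, abs_zero, mul_zero] at d2; linarith only [η0, d2]
  obtain wp := o1.w_pos _ (show 1 ≤ k.nx x by omega)
  obtain cj : ∀ a, 1 ≤ a → a ≤ r →
      |σ.pj M t a (k.nx x) / S.fr (x + 1) (k.nx x)| * k.η x ^ (2 * a - 2) ≤ 256 * o := by
    intro a h1 h2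
    obtain f1 := jc.oc.fit.f1 _ (show 1 ≤ k.nx x by omega) pn
    have f2 := jc.oc.fit.f2 _ pF pn
    have f3 := jc.oc.fit.flo x hx xn
    rw [← hS] at f1 f2 f3
    obtain n1 : 0 < |S.fr 1 (k.nx x)| := by
      exact pos_of_mul_pos_of_nonneg_left' (wp.trans_le f2) (by linarith only [g1])
    obtain n2 : 0 < |S.fr (x + 1) (k.nx x)| := by
      exact pos_of_mul_pos_of_nonneg_left' ((mul_pos (Vp 1) wp).trans_le f3) (by linarith only [g1])
    have l1 := hLa a h1 h2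
    unfold Seed.La at l1
    rw [← hS, abs_div, div_le_iff₀ n1] at l1
    obtain vv : k.V x (2 * a - 1) * k.η x ^ (2 * a - 2) = k.V x 1 := by
      unfold Sk.V
      rw [show 2 * a - 1 = 2 * a - 2 + 1 by omega, pow_succ, pow_one]; field_simp
    rw [abs_div, div_mul_eq_mul_div, div_le_iff₀ n2]
    have := Vp (2 * a - 1)
    calc _ ≤ o * k.V x (2 * a - 1) * (g * k.w (k.nx x)) * k.η x ^ (2 * a - 2) := by
          gcongr; exact l1.trans (by (clear * - f1 o0 this; gcongr))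
      _ = o * g * (k.V x (2 * a - 1) * k.η x ^ (2 * a - 2) * k.w (k.nx x)) := by ring
      _ ≤ o * g * (g * |S.fr (x + 1) (k.nx x)|) := by rw [vv]; (clear * - f3 o0 g1; gcongr)
      _ = g ^ 2 * o * |S.fr (x + 1) (k.nx x)| := by ring
      _ ≤ _ := by (clear * - g2' o0 n2; gcongr)
  set m := exp (-3 * k.σ x) with hm
  have m0 : 0 < m := exp_pos _
  obtain mj : ∀ a : ℕ, m ^ a = exp (-(3 * a) * k.σ x) := fun a => by
    rw [hm, ← exp_nat_mul]; congr 1; ring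
  obtain ex1 : exp (-k.σ x) ≤ 1 / 100 := by
    rw [exp_neg, inv_eq_one_div]
    exact one_div_le_one_div_of_le (by norm_num) (by linarith only [hσ, add_one_le_exp (k.σ x)])
  have ex0 := exp_pos (-k.σ x)
  obtain ex4 : exp (-k.σ x) ≤ 1 / 10 ^ 4 := by
    obtain a1 : exp (-k.σ x) = exp (-(k.σ x / 4)) ^ 4 := by rw [← exp_nat_mul]; congr 1; ring
    obtain a2 : exp (-(k.σ x / 4)) ≤ 1 / 10 := by
      rw [exp_neg, inv_eq_one_div]
      exact one_div_le_one_div_of_le (by norm_num) (by linarith only [hσ, ex1, ex0, add_one_le_exp (k.σ x / 4)])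
    rw [a1]; exact (pow_le_pow_left₀ (exp_pos _).le a2 4).trans (by norm_num)
  obtain m3 : m = exp (-k.σ x) ^ 3 := by rw [hm, ← exp_nat_mul]; congr 1; ring
  have key := signed (r := r) (ρ := ρ / k.η x) (Λ := σ.Lt M c t x) (e := c.ep * c.L) (m := m)
    (P := fun a => σ.pj M t a x * k.η x ^ (2 * a - 1)) (div_ne_zero ρ0 η0.ne') (by
      rw [abs_div, abs_of_pos η0, ← mul_div_assoc, div_le_iff₀ η0]
      exact le_trans (by linarith only [ρ1]) (mul_le_mul_of_nonneg_right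
        (show 16384 ≤ |σ.Lt M c t x| by linarith only [d4, ex0, ex4, h.L]) η0.le)) m0.le (by
      have c1 := cj 1 le_rfl (j1.trans jr)
      obtain b1 : exp (-k.chi 0 x / 2) ≤ m := by
        have a1 := (t7 x x1 xN.le).2
        obtain a2 : 1000 * c.ck ≤ c.C0 := by
          obtain z1 := bud.2; have z2 := gms 0 (by omega); have z3 := gmm (K + 2) (K + 3) (by omega)
          obtain z4 : 1000 * c.ck * 1 ≤ 1000 * c.ck * c.gm γ 0 := by gcongr; exact gm1 0
          obtain z5 : 1 * c.gm γ (K + 3) ≤ 1000 * (K + 1) * c.gm γ (K + 3) :=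
            mul_le_mul_of_nonneg_right (by linarith only [ex0, ex4]) (by linarith only [ck2, ex0, ex4, z2, z3, z4, gm1 (K + 3)])
          linarith only [z1, z2, z3, z4, z5]
        obtain a3 : c.ck * (1000 * k.σ x) ≤ c.ck * k.chi 0 x := by
          linarith only [a1, mul_le_mul_of_nonneg_right a2 σ0]
        obtain this := le_of_mul_le_mul_left a3 (by linarith only [ck2, ex0, ex4])
        exact exp_le_exp.2 (by linarith only [hσ, ex0, ex4, this])
      obtain b2 : o ≤ m := ho.trans (exp_le_exp.2 (mul_le_mul_of_nonneg_right (by linarith only [G1, g2a, ex0, ex4]) σ0))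
      obtain b3 : exp (-k.σ x) ≤ 16 * |M.sgO t S x (k.nx x)| := le_trans d7 (by (clear * - g16; gcongr))
      simp only [mul_one, Nat.sub_self, pow_zero] at c1
      obtain b4 : |M.sgO t S x (k.nx x)| ≤ |ρ * σ.pj M t 1 x| + 257 * m := by
        have a1 := abs_le.1 (d1.trans b1); have a2 := abs_le.1 c1
        have a3 := le_abs_self (ρ * σ.pj M t 1 x); have a4 := neg_abs_le (ρ * σ.pj M t 1 x)
        rw [abs_le]; constructor <;> linarith only [b2, a3, a4, a1.1, a1.2, a2.1, a2.2]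
      obtain b5 : |ρ * σ.pj M t 1 x| ≤ 4096 * |σ.pj M t 1 x * k.η x ^ (2 * 1 - 1)| := by
        rw [abs_mul, abs_mul, show 2 * 1 - 1 = 1 from rfl, pow_one, abs_of_pos η0]
        linarith only [mul_le_mul_of_nonneg_right ρ1 (abs_nonneg (σ.pj M t 1 x))]
      obtain b6 : 10 ^ 8 * m ≤ exp (-k.σ x) := by
        have : exp (-k.σ x) ^ 2 ≤ (1 / 10 ^ 4) ^ 2 := pow_le_pow_left₀ ex0.le ex4 2
        rw [m3]; linarith only [mul_le_mul_of_nonneg_right this ex0.le]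
      linarith only [m0, b3, b4, b5, b6]) (by
      obtain a1 : c.ep ≤ 1 / 16 := by
        obtain this : c.lam ≤ c.bl := le_mul_of_one_le_left (by linarith only [ex0, ex4, h.lam]) h.β
        unfold Cs.ep
        rw [neg_div, exp_neg, inv_eq_one_div]
        exact one_div_le_one_div_of_le (by norm_num) (by linarith only [ex0, ex4, this, add_one_le_exp (c.bl / 2), h.lam])
      linarith only [d4, ex0, ex4, mul_le_mul_of_nonneg_right a1 (show 0 ≤ c.L by linarith only [ex0, ex4, h.L])]) (fun i i2 ir => by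
      obtain JH : J2H c M σ t k x i G (k.σ x) T := by
        refine ⟨hx, G1, le_rfl, fun a => by have := Vp (2 * a - 1); simp only [hT]; (clear * - o0 this; positivity),
          fun a l h1 h2 h3 h4 => ?_, fun a b h1 h2 h3 => ⟨?_, ?_⟩⟩
        · refine (J1 a l h1 (by omega) h3 h4).trans (add_le_add le_rfl ?_)
          obtain ⟨n1, -, -, n4⟩ := t18 (k.nx x) (2 * a - 1) 0 l le_rfl h3 (by omega)
          have ga := gm1 a
          obtain gb := gms a (by omega)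
          rcases h4.eq_or_lt with rfl | hl
          · refine (fold_max_le _).2 ⟨?_, fun y hy => ?_⟩
            · refine le_trans (exp_le_exp.2 ?_) (le_mul_of_one_le_right (exp_pos _).le n1)
              have jm : k.σ (k.nx x) ≤ c.ck * k.σ x := o1.jump _ pF
              calc _ ≤ c.gm γ a * (c.ck * k.σ x) := by (clear * - jm ga; gcongr)
                _ = c.ck * c.gm γ a * k.σ x := by ring
                _ ≤ _ := by
                  gcongr
                  linarith only [G1, ex0, ex4, gb, mul_nonneg (show 0 ≤ c.ck by linarith only [ck2, ex0, ex4]) (show 0 ≤ c.gm γ a by linarith only [ex0, ex4, ga])]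
            · obtain ⟨y1, y2, y3⟩ := mem_filter.1 hy
              have := (o1.nx_mem y (o1.D_mem y y1).2).2.2 _ pF y2
              omega
          · obtain n5 := (n4 pF hl).1 (c.gm γ a) (by linarith only [ex0, ex4, ga])
            rw [zero_add] at n5
            refine n5.trans ?_
            have : k.sl (k.nx x) = k.σ x := rfl
            rw [this]
            gcongr
            exact gmm _ _ (by omega)
        · refine le_trans ?_ (mul_le_mul_of_nonneg_left (le_max_left _ _) (exp_pos _).le)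
          obtain a1 : exp (k.W (k.nx x)) ≤ k.w x / k.η x * exp (2 * k.σ x) := by
            rw [← exp_log w0, ← exp_log η0, ← exp_sub, ← exp_add]
            exact exp_le_exp.2 (o1.maj x hx).2
          obtain a2 : k.V x (2 * a - 1) * k.V x (2 * b - 1) * (k.w x / k.η x) =
              k.V x (2 * (a + b) - 1) := by
            unfold Sk.V
            rw [show 2 * (a + b) - 1 = 2 * a - 1 + (2 * b - 1) + 1 by omega, pow_succ, pow_add]
            field_simp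
          obtain a3 : exp (c.gm γ a * k.σ x) * exp (c.gm γ b * k.σ x) * exp (2 * k.σ x) ≤
              exp (G * k.σ x) * exp (c.gm γ (a + b) * k.σ x) := by
            rw [← exp_add, ← exp_add, ← exp_add]
            obtain this := gmm a (a + b) (by omega); have := gms b (by omega); have := gm1 b
            obtain this : 2 * c.gm γ b ≤ c.ck * c.gm γ b := by (clear * - ck2 this; gcongr)
            obtain this : c.gm γ a + c.gm γ b + 2 ≤ G + c.gm γ (a + b) := by linarith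
            exact exp_le_exp.2 (by linarith only [mul_le_mul_of_nonneg_right this σ0])
          have := Vp (2 * a - 1); have := Vp (2 * b - 1); have := Vp (2 * (a + b) - 1)
          simp only [hT]
          calc _ ≤ o * exp (c.gm γ a * k.σ x) * k.V x (2 * a - 1) *
                (1 * exp (c.gm γ b * k.σ x) * k.V x (2 * b - 1)) *
                (k.w x / k.η x * exp (2 * k.σ x)) := by (rename_i zq1 zq0; clear * - ole zq0 o0 zq1 a1; gcongr)
            _ = o * (exp (c.gm γ a * k.σ x) * exp (c.gm γ b * k.σ x) * exp (2 * k.σ x)) *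
                (k.V x (2 * a - 1) * k.V x (2 * b - 1) * (k.w x / k.η x)) := by ring
            _ ≤ o * (exp (G * k.σ x) * exp (c.gm γ (a + b) * k.σ x)) * k.V x (2 * (a + b) - 1) := by
                rw [a2]; (clear * - a3 o0 this; gcongr)
            _ = _ := by ring
        · refine le_trans ?_ (mul_le_mul_of_nonneg_left (le_max_right _ _) (exp_pos _).le)
          obtain a2 : k.V x (2 * a - 1) / k.η x ^ (2 * b - 1) = k.V x (2 * (a + b) - 2) := by
            unfold Sk.V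
            rw [show 2 * (a + b) - 2 = 2 * a - 1 + (2 * b - 1) by omega, pow_add]; field_simp
          have := Vp (2 * (a + b) - 2)
          simp only [hT]
          rw [mul_div_assoc, a2]
          calc _ ≤ 1 * exp (G * k.σ x) * k.V x (2 * (a + b) - 2) := by
                gcongr; exact gmm _ _ (by omega)
            _ = _ := by ring
      obtain bud' : c.Bud K (K + 1) := ⟨le_rfl, le_trans (by
        have := bud.1; unfold Cs.gm; (clear * - this cg0; gcongr)) bud.2⟩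
      have J := hJ2 bud' M σ t g k n jc x i G (k.σ x) T xn i2 (ir.trans hr) JH
      rw [← hS, ← hρ, ← hH] at J
      obtain ηe : 0 < k.η x ^ (2 * i - 2) := by positivity
      have J' := mul_le_mul_of_nonneg_right J ηe.le
      obtain pw : ∀ a ∈ Ioo 0 i, k.η x ^ (2 * i - 2) = k.η x ^ (2 * a - 1) * k.η x ^ (2 * (i - a) - 1) :=
        fun a ha => by rw [← pow_add]; congr 1; have := mem_Ioo.1 ha; omega
      obtain s1 : ∑ a ∈ Ioo 0 i, (i.choose a : ℝ) * (σ.pj M t a x * k.η x ^ (2 * a - 1) *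
          (σ.pj M t (i - a) x * k.η x ^ (2 * (i - a) - 1))) = (∑ a ∈ Ioo 0 i, (i.choose a : ℝ) *
            (σ.pj M t a x * σ.pj M t (i - a) x)) * k.η x ^ (2 * i - 2) := by
        rw [sum_mul]; exact sum_congr rfl fun a ha => by rw [pw a ha]; ring
      obtain s2 : ∑ a ∈ Ioo 0 i, (i.choose a : ℝ) * (|σ.pj M t a x * k.η x ^ (2 * a - 1)| *
          |σ.pj M t (i - a) x * k.η x ^ (2 * (i - a) - 1)|) = (∑ a ∈ Ioo 0 i, (i.choose a : ℝ) *
            (|σ.pj M t a x| * |σ.pj M t (i - a) x|)) * k.η x ^ (2 * i - 2) := by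
        rw [sum_mul]
        exact sum_congr rfl fun a ha => by
          rw [pw a ha, abs_mul, abs_mul, abs_of_pos (pow_pos η0 _), abs_of_pos (pow_pos η0 _)]; ring
      obtain s3 : ρ / k.η x * (σ.pj M t i x * k.η x ^ (2 * i - 1)) =
          ρ * σ.pj M t i x * k.η x ^ (2 * i - 2) := by
        rw [show 2 * i - 1 = 2 * i - 2 + 1 by omega, pow_succ]; field_simp
      obtain s4 : (1 / k.η x ^ (2 * i - 3) + k.w x * k.η x * T i) * k.η x ^ (2 * i - 2) =
          k.η x + o * exp (c.gm γ i * k.σ x) := by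
        simp only [hT]
        unfold Sk.V
        rw [show 2 * i - 1 = 2 * i - 3 + 1 + 1 by omega, show 2 * i - 2 = 2 * i - 3 + 1 by omega,
          pow_succ, pow_succ]
        field_simp
      obtain iK : (i : ℝ) ≤ K + 1 := by exact_mod_cast ir.trans hr
      have i0 : (0 : ℝ) ≤ i := Nat.cast_nonneg i
      obtain z1 : 3 * i * k.σ x ≤ H * k.σ x := mul_le_mul_of_nonneg_right (by linarith only [G1, g2a, ex0, ex4, iK]) σ0
      obtain z2 : G * k.σ x ≤ H * k.σ x := mul_le_mul_of_nonneg_right (by linarith only [g2a, ex0, ex4]) σ0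
      obtain s5 : exp (H * k.σ x) * (k.η x + o * exp (c.gm γ i * k.σ x)) ≤ 2 * m ^ i := by
        obtain a1 : exp (H * k.σ x) * k.η x ≤ m ^ i := by
          refine (mul_le_mul_of_nonneg_left hη (exp_pos _).le).trans ?_
          rw [← exp_add, mj]; exact exp_le_exp.2 (by linarith only [Hσ, z1])
        obtain a2 : exp (H * k.σ x) * (o * exp (c.gm γ i * k.σ x)) ≤ m ^ i := by
          obtain this := gmm i (K + 2) (by omega)
          calc _ ≤ exp (H * k.σ x) * (exp (-4 * H * k.σ x) * exp (G * k.σ x)) := by (clear * - ho this hσ; gcongr)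
            _ ≤ _ := by rw [← exp_add, ← exp_add, mj]; exact exp_le_exp.2 (by linarith only [Hσ, z1, z2])
        linarith only [a1, a2]
      obtain s6 : o ≤ m ^ i := ho.trans (by rw [mj]; exact exp_le_exp.2 (by linarith only [Hσ, z1]))
      obtain s7 : 258 * m ^ i ≤ |σ.Lt M c t x| / 8 * m ^ i := by gcongr; linarith only [d4, ex0, ex4, h.L]
      obtain c1 := cj i (by omega) ir
      rw [← abs_of_pos ηe, ← abs_mul] at c1
      rw [add_mul, mul_assoc (exp _), s4, ← abs_of_pos ηe, ← abs_mul, abs_of_pos ηe] at J'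
      rw [s1, s2, s3]
      have a1 := abs_le.1 J'; have a2 := abs_le.1 c1
      rw [abs_le]; constructor <;> linarith only [s5, s6, s7, a1.1, a1.2, a2.1, a2.2]) j j1 jr
  rwa [mj, abs_mul, abs_of_pos (pow_pos η0 _)] at key

end J2Cor

theorem j2c (K : ℕ) : Hier fun c => TA_s c → AD3_s K c → J1_s K c → D8C_s K c → J2_s K c →
    J2C_s K c := J2Cor.num.mono fun _ => J2Cor.main

end Pool.Agent.MP_9cbfe4_an

end

/-! ### Part CRU5 -/

section

/-! Row CRU5 of J5: crude bounds for the differences of the jets. -/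

namespace Pool.Agent.MP_9cbfe4_an

open Finset Filter Topology Real

namespace CRU5

theorem ind {m : ℤ} {w q E z F : ℤ → ℝ} {A ϖ B : ℝ} (w1 : w 1 = 1) (wp : ∀ l, 1 ≤ l → 0 < w l)
    (ws : ∀ l, 1 ≤ l → w (l - 1) * q l ≤ w l) (q0 : ∀ l, 0 ≤ q l ∧ q l ≤ 1) (z0 : |z 0| ≤ ϖ)
    (z1 : |z 1| ≤ ϖ) (fw : ∀ l, 1 ≤ l → l ≤ m →
      |z l| ≤ w l * (8 * (|z 1| + |z 0| + ∑ i ∈ Ico 1 l, E i * |F i|)))
    (st : ∀ i, 1 ≤ i → i < m → max |z i| (q i * |z (i - 1)|) ≤ A * w i → E i * |F i| ≤ B)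
    (hB : 0 ≤ B) (hm : 0 ≤ m) (hA : 8 * (2 * ϖ + m * B) ≤ A) :
    ∀ l, 1 ≤ l → l ≤ m → max |z l| (q l * |z (l - 1)|) ≤ A * w l := by
  have ϖ0 : 0 ≤ ϖ := (abs_nonneg _).trans z0
  obtain mB : 0 ≤ (m : ℝ) * B := mul_nonneg (by exact_mod_cast hm) hB
  obtain key : ∀ (n : ℕ) (l : ℤ), 1 ≤ l → l ≤ n → l ≤ m →
      max |z l| (q l * |z (l - 1)|) ≤ A * w l := by
    intro n
    induction n with
    | zero => intro l h1 h2; omega
    | succ n ih =>
      intro l h1 h2 h3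
      obtain a1 : ∑ i ∈ Ico 1 l, E i * |F i| ≤ m * B := by
        refine (sum_le_card_nsmul _ _ B fun i hi => ?_).trans ?_
        · have := mem_Ico.1 hi
          exact st i this.1 (by omega) (ih i this.1 (by push_cast at h2; omega) (by omega))
        · rw [nsmul_eq_mul]
          refine mul_le_mul_of_nonneg_right ?_ hB
          obtain this : ((#(Ico 1 l) : ℕ) : ℤ) ≤ m := by rw [Int.card_Ico]; omega
          exact_mod_cast this
      refine max_le ((fw l h1 h3).trans ?_) ?_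
      · rw [mul_comm A]
        exact mul_le_mul_of_nonneg_left (by linarith only [z0, z1, hA, a1]) (wp l h1).le
      · rcases h1.eq_or_lt with rfl | h
        · rw [w1, sub_self, mul_one]
          have := mul_le_mul (q0 1).2 z0 (abs_nonneg _) zero_le_one
          linarith only [hA, ϖ0, mB, this]
        · obtain a2 := (le_max_left _ _).trans
            (ih (l - 1) (by omega) (by push_cast at h2; omega) (by omega))
          have a3 := mul_le_mul_of_nonneg_left a2 (q0 l).1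
          obtain a4 := mul_le_mul_of_nonneg_left (ws l h1) (show 0 ≤ A by linarith only [hA, ϖ0, mB])
          linarith only [a3, a4]
  exact fun l h1 h2 => key l.toNat l h1 (by omega) h2

/-- the numbers at one time -/
structure Pt (S θ ϖ e w Y1 Y2 Y3 N1 N2 P1 P2 P3 Z0 : ℝ) : Prop where
  S1 : 10000 ≤ S
  θ1 : θ ≤ 1
  ϖ0 : 0 ≤ ϖ
  e0 : 0 ≤ e
  w0 : 0 ≤ w
  u : 1000 * (S ^ 20 * (e * w * w * ϖ)) ≤ θ
  v : 1000 * (S ^ 20 * (ϖ * w)) ≤ θ
  y1 : 1 ≤ N1 ∧ N1 ≤ Y1 ∧ θ * Y1 ≤ N1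
  y2 : 1 ≤ N2 ∧ N2 ≤ Y2 ∧ θ * Y2 ≤ N2
  y3 : 1 ≤ Y3
  yy : Y1 * Y1 ≤ S * Y2 ∧ Y1 * Y2 ≤ S * Y3 ∧ Y1 * N1 ≤ S * N2
  p1 : 0 ≤ P1 ∧ e * w * P1 ≤ S ^ 3 * Y1 ∧ P1 ≤ S * N1
  p2 : 0 ≤ P2 ∧ e * w * P2 ≤ S ^ 3 * Y2
  p3 : 0 ≤ P3 ∧ e * w * P3 ≤ S ^ 3 * Y3
  z0 : 0 ≤ Z0 ∧ Z0 ≤ 16 * ϖ * w

namespace Pt
variable {S θ ϖ e w Y1 Y2 Y3 N1 N2 P1 P2 P3 Z0 Z1 Z2 Z3 : ℝ}
  (h : Pt S θ ϖ e w Y1 Y2 Y3 N1 N2 P1 P2 P3 Z0)
include h

theorem pw {a b : ℕ} (hab : a ≤ b) : S ^ a ≤ S ^ b := pow_le_pow_right₀ (by linarith only [h.S1]) hab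

theorem pw' {a b : ℕ} (hab : a < b) {x : ℝ} (hx : 0 ≤ x) : 10000 * (S ^ a * x) ≤ S ^ b * x := by
  have := h.S1
  calc 10000 * (S ^ a * x) ≤ S * (S ^ a * x) := by (clear * - this hx; gcongr)
    _ = S ^ (a + 1) * x := by ring
    _ ≤ _ := mul_le_mul_of_nonneg_right (h.pw hab) hx

theorem one {Z A X B : ℝ} (hZ : Z ≤ A * ϖ * w) (hA : 0 ≤ A) (hX : 0 ≤ X) (hB : e * w * X ≤ B) :
    e * (Z * X) ≤ A * ϖ * B := by
  have := h.ϖ0
  have := h.e0
  calc e * (Z * X) ≤ e * (A * ϖ * w * X) := by (clear * - hZ hX this; gcongr)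
    _ = A * ϖ * (e * w * X) := by ring
    _ ≤ _ := by gcongr

theorem two {Z Y : ℝ} {a b : ℕ} (hZ : Z ≤ S ^ a * ϖ * Y * w) (hY : 0 ≤ Y) (hab : a + b ≤ 20) :
    1000 * (S ^ b * (e * w * Z)) ≤ θ * Y ∧ 1000 * Z ≤ θ * Y := by
  have := h.ϖ0
  have := h.e0
  have := h.w0
  obtain this : 0 ≤ S := by linarith only [h.S1]
  constructor
  · calc 1000 * (S ^ b * (e * w * Z)) ≤ 1000 * (S ^ b * (e * w * (S ^ a * ϖ * Y * w))) := by gcongr
      _ = 1000 * (S ^ (a + b) * (e * w * w * ϖ)) * Y := by ring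
      _ ≤ 1000 * (S ^ 20 * (e * w * w * ϖ)) * Y := by gcongr; linarith only [h.S1]
      _ ≤ _ := mul_le_mul_of_nonneg_right h.u hY
  · calc 1000 * Z ≤ 1000 * (S ^ a * ϖ * Y * w) := by gcongr
      _ = 1000 * (S ^ a * (ϖ * w)) * Y := by ring
      _ ≤ 1000 * (S ^ 20 * (ϖ * w)) * Y := by gcongr; exacts [by linarith only [h.S1], by omega]
      _ ≤ _ := mul_le_mul_of_nonneg_right h.v hY

theorem sq {P Y N : ℝ} (hP : 0 ≤ P) (hY : 0 ≤ Y) (p : e * w * P ≤ S ^ 3 * Y) (y : θ * Y ≤ N) :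
    e * (Z0 * (Z0 * P)) ≤ 16 * ϖ * (16 / 1000 * N) := by
  have := h.ϖ0
  have := h.w0
  have := h.z0.1
  obtain this : 0 ≤ S := by linarith only [h.S1]
  refine h.one h.z0.2 (by norm_num) (by positivity) ?_
  calc e * w * (Z0 * P) = Z0 * (e * w * P) := by ring
    _ ≤ 16 * ϖ * w * (S ^ 20 * Y) := mul_le_mul h.z0.2
        (p.trans (mul_le_mul_of_nonneg_right (h.pw (by norm_num)) hY))
        (by have := h.e0; positivity) (by positivity)
    _ = 16 / 1000 * (1000 * (S ^ 20 * (ϖ * w)) * Y) := by ring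
    _ ≤ 16 / 1000 * (θ * Y) := by gcongr; exact h.v
    _ ≤ _ := by (clear * - y; gcongr)

/-- size of `P + Z` -/
theorem mm {P Z Y : ℝ} {a : ℕ} (hY : 1 ≤ Y) (p : e * w * P ≤ S ^ 3 * Y)
    (hZ : Z ≤ S ^ a * ϖ * Y * w) (ha : a ≤ 20) : e * w * (P + Z) ≤ 2 * (S ^ 3 * Y) := by
  obtain a1 := (h.two (b := 0) hZ (by linarith only [hY]) ha).1
  obtain a2 := mul_le_mul_of_nonneg_right h.θ1 (show 0 ≤ Y by linarith only [hY])
  obtain a3 := mul_le_mul_of_nonneg_right (h.pw (show 0 ≤ 3 by norm_num)) (show 0 ≤ Y by linarith only [hY])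
  rw [pow_zero, one_mul] at a1 a3
  linarith only [hY, p, a1, a2, a3]

theorem m1 (z1 : Z1 ≤ S ^ 5 * ϖ * Y1 * w) : P1 + Z1 ≤ 2 * (S * N1) := by
  obtain a1 := (h.two (b := 0) z1 (by linarith only [h.y1.1, h.y1.2.1]) (by norm_num)).2
  obtain a2 := mul_le_mul_of_nonneg_right h.S1 (show 0 ≤ N1 by linarith only [h.y1.1])
  linarith only [a1, a2, h.p1.2.2, h.y1.2.2, h.y1.1]

theorem e1 (n1 : 0 ≤ Z1) (z1 : Z1 ≤ S ^ 5 * ϖ * Y1 * w) :
    e * (Z0 ^ 2 * P1 + Z0 * Z1) ≤ ϖ * N1 := by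
  obtain y0 : 0 ≤ Y1 := by linarith only [h.y1.1, h.y1.2.1]
  have a1 := h.sq h.p1.1 y0 h.p1.2.1 h.y1.2.2
  obtain a2 := (h.two (b := 0) z1 y0 (by norm_num)).1
  rw [pow_zero, one_mul] at a2
  obtain a3 := h.one (B := N1 / 1000) h.z0.2 (by norm_num) n1 (by linarith only [a2, h.y1.2.2])
  obtain a4 := mul_nonneg h.ϖ0 (show 0 ≤ N1 by linarith only [h.y1.1])
  linarith only [a1, a3, a4]

theorem e2 (n1 : 0 ≤ Z1) (z1 : Z1 ≤ S ^ 5 * ϖ * Y1 * w) (n2 : 0 ≤ Z2)
    (z2 : Z2 ≤ S ^ 11 * ϖ * Y2 * w) :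
    e * (Z0 ^ 2 * P2 + Z0 * Z2 + Z1 ^ 2 + Z0 * (P1 + Z1) ^ 2) ≤ S ^ 6 * ϖ * N2 := by
  obtain y0 : 0 ≤ Y1 := by linarith only [h.y1.1, h.y1.2.1]
  obtain y0' : 0 ≤ Y2 := by linarith only [h.y2.1, h.y2.2.1]
  have := h.ϖ0
  have := h.e0
  have := h.w0
  have := h.p1.1
  obtain S0 : 0 ≤ S := by linarith only [h.S1]
  have a1 := h.sq h.p2.1 y0' h.p2.2 h.y2.2.2
  obtain a2 := (h.two (b := 0) z2 y0' (by norm_num)).1
  rw [pow_zero, one_mul] at a2
  obtain a3 := h.one (B := N2 / 1000) h.z0.2 (by norm_num) n2 (by linarith only [a2, h.y2.2.2])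
  obtain a4 : e * Z1 ^ 2 ≤ ϖ * (N2 / 1000) := by
    calc e * Z1 ^ 2 ≤ e * (S ^ 5 * ϖ * Y1 * w) ^ 2 := by gcongr
      _ = ϖ * (S ^ 10 * (e * w * w * ϖ) * (Y1 * Y1)) := by ring
      _ ≤ ϖ * (S ^ 19 * (e * w * w * ϖ) * (S * Y2)) := by
          gcongr ϖ * (?_ * _ * ?_)
          exacts [h.pw (by norm_num), h.yy.1]
      _ = ϖ * (1000 * (S ^ 20 * (e * w * w * ϖ)) * Y2 / 1000) := by ring
      _ ≤ ϖ * (θ * Y2 / 1000) := by gcongr; exact h.u
      _ ≤ _ := by gcongr; exact h.y2.2.2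
  have a5 := h.one (X := (P1 + Z1) ^ 2) (B := 4 * (S ^ 5 * N2)) h.z0.2 (by norm_num)
    (by positivity) (by
      calc e * w * (P1 + Z1) ^ 2 = e * w * (P1 + Z1) * (P1 + Z1) := by ring
        _ ≤ 2 * (S ^ 3 * Y1) * (2 * (S * N1)) :=
          mul_le_mul (h.mm (h.y1.1.trans h.y1.2.1) h.p1.2.1 z1 (by norm_num)) (h.m1 z1)
            (by positivity) (by positivity)
        _ = 4 * (S ^ 4 * (Y1 * N1)) := by ring
        _ ≤ 4 * (S ^ 4 * (S * N2)) := by gcongr 4 * (_ * ?_); exact h.yy.2.2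
        _ = _ := by ring)
  obtain a6 := mul_nonneg h.ϖ0 (show 0 ≤ N2 by linarith only [h.y2.1])
  obtain a7 := h.pw' (show 5 < 6 by norm_num) a6
  obtain a8 := h.pw' (show 0 < 6 by norm_num) a6
  linarith only [a1, a3, a4, a5, a6, a7, a8]

theorem f1 (n1 : 0 ≤ Z1) (z1 : Z1 ≤ S ^ 5 * ϖ * Y1 * w) :
    e * (Z0 * P1 + (Z0 ^ 2 * P1 + Z0 * Z1)) ≤ 17 * (S ^ 3 * (ϖ * Y1)) := by
  have a1 := h.e1 n1 z1
  obtain a2 := h.one h.z0.2 (by norm_num) h.p1.1 h.p1.2.1
  have a3 := mul_le_mul_of_nonneg_left h.y1.2.1 h.ϖ0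
  obtain a4 := mul_nonneg h.ϖ0 (show 0 ≤ Y1 by linarith only [h.y1.1, h.y1.2.1])
  obtain a5 := h.pw' (show 0 < 3 by norm_num) a4
  linarith only [a1, a2, a3, a4, a5]

theorem f2 (n1 : 0 ≤ Z1) (z1 : Z1 ≤ S ^ 5 * ϖ * Y1 * w) (n2 : 0 ≤ Z2)
    (z2 : Z2 ≤ S ^ 11 * ϖ * Y2 * w) :
    e * (Z0 * P2 + 2 * (Z1 * P1) + (Z0 ^ 2 * P2 + Z0 * Z2 + Z1 ^ 2 + Z0 * (P1 + Z1) ^ 2))
      ≤ 3 * (S ^ 9 * (ϖ * Y2)) := by
  obtain y0 : 0 ≤ Y1 := by linarith only [h.y1.1, h.y1.2.1]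
  have := h.ϖ0
  obtain S0 : 0 ≤ S := by linarith only [h.S1]
  have a1 := h.e2 n1 z1 n2 z2
  obtain a2 := h.one h.z0.2 (by norm_num) h.p2.1 h.p2.2
  obtain a3 := mul_le_mul_of_nonneg_left h.y2.2.1 (show 0 ≤ S ^ 6 * ϖ by (clear * - this; positivity))
  obtain a4 := mul_nonneg h.ϖ0 (show 0 ≤ Y2 by linarith only [h.y2.1, h.y2.2.1])
  obtain a5 := h.one (A := S ^ 5 * Y1) (z1.trans_eq (by ring)) (by (clear * - S0 y0; positivity)) h.p1.1 h.p1.2.1
  obtain a6 := mul_le_mul_of_nonneg_left h.yy.1 (show 0 ≤ S ^ 8 * ϖ by positivity)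
  obtain a7 := h.pw' (show 3 < 9 by norm_num) a4
  obtain a8 := h.pw' (show 6 < 9 by norm_num) a4
  obtain a9 : 0 ≤ S ^ 9 * (ϖ * Y2) := by (clear * - S0 a4; positivity)
  linarith only [a1, a2, a3, a5, a6, a7, a8, a9]

theorem f3 (n1 : 0 ≤ Z1) (z1 : Z1 ≤ S ^ 5 * ϖ * Y1 * w) (n2 : 0 ≤ Z2)
    (z2 : Z2 ≤ S ^ 11 * ϖ * Y2 * w) (n3 : 0 ≤ Z3) (z3 : Z3 ≤ S ^ 20 * ϖ * Y3 * w) {x1 x2 : ℝ}
    (e1 : x1 = P1 + Z1) (e2 : x2 = P2 + Z2) :
    e * (Z0 * (P3 + Z3) + 24 * (Z0 * (x1 * x2) + Z0 * x1 ^ 3 + Z1 * x2 + Z2 * x1 + Z1 * x1 ^ 2))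
      ≤ S ^ 16 * (ϖ * Y3) := by
  have y1 : 1 ≤ Y1 := h.y1.1.trans h.y1.2.1
  have y2 : 1 ≤ Y2 := h.y2.1.trans h.y2.2.1
  have := h.y3
  have := h.ϖ0
  have := h.e0
  have := h.w0
  obtain S0 : 0 ≤ S := by linarith only [h.S1]
  have x10 : 0 ≤ x1 := e1 ▸ add_nonneg h.p1.1 n1
  have x20 : 0 ≤ x2 := e2 ▸ add_nonneg h.p2.1 n2
  obtain b1 : e * w * x1 ≤ 2 * (S ^ 3 * Y1) := e1 ▸ h.mm y1 h.p1.2.1 z1 (by norm_num)
  obtain b2 : e * w * x2 ≤ 2 * (S ^ 3 * Y2) := e2 ▸ h.mm y2 h.p2.2 z2 (by norm_num)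
  have b3 := h.mm h.y3 h.p3.2 z3 le_rfl
  obtain b4 : x1 ≤ 2 * (S * Y1) := by
    have := mul_le_mul_of_nonneg_left h.y1.2.1 S0
    linarith only [e1, this, h.m1 z1]
  have y12 := h.yy.2.1
  obtain y111 : Y1 * (Y1 * Y1) ≤ S ^ 2 * Y3 := by
    calc Y1 * (Y1 * Y1) ≤ Y1 * (S * Y2) := mul_le_mul_of_nonneg_left h.yy.1 (by linarith only [y1])
      _ = S * (Y1 * Y2) := by ring
      _ ≤ S * (S * Y3) := by (clear * - y12 S0; gcongr)
      _ = _ := by ring
  obtain b5 : e * w * x1 ^ 2 ≤ 4 * (S ^ 4 * (Y1 * Y1)) := by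
    obtain this := mul_le_mul b1 b4 x10 (by (clear * - S0 y1; positivity))
    linarith only [this]
  obtain b6 : e * w * x1 ^ 3 ≤ 8 * (S ^ 5 * (Y1 * (Y1 * Y1))) := by
    obtain this := mul_le_mul b5 b4 x10 (by (clear * - y1; positivity))
    linarith only [this]
  obtain b7 : e * w * (x1 * x2) ≤ 4 * (S ^ 4 * (Y1 * Y2)) := by
    obtain this := mul_le_mul b2 b4 x10 (by (clear * - S0 y2; positivity))
    linarith only [this]
  obtain z1' : Z1 ≤ S ^ 5 * Y1 * ϖ * w := z1.trans_eq (by ring)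
  obtain z2' : Z2 ≤ S ^ 11 * Y2 * ϖ * w := z2.trans_eq (by ring)
  obtain a1 := h.one h.z0.2 (by norm_num) (add_nonneg h.p3.1 n3) b3
  obtain a2 := h.one h.z0.2 (by norm_num) (by positivity) b7
  obtain a3 := h.one h.z0.2 (by norm_num) (by positivity) b6
  obtain a4 := h.one z1' (by (clear * - S0 y1; positivity)) x20 b2
  obtain a5 := h.one z2' (by (clear * - S0 y2; positivity)) x10 b1
  obtain a6 := h.one z1' (by (clear * - S0 y1; positivity)) (by positivity) b5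
  obtain c2 := mul_le_mul_of_nonneg_left y12 (show 0 ≤ S ^ 4 * ϖ by positivity)
  obtain c3 := mul_le_mul_of_nonneg_left y111 (show 0 ≤ S ^ 5 * ϖ by positivity)
  obtain c4 := mul_le_mul_of_nonneg_left y12 (show 0 ≤ S ^ 8 * ϖ by positivity)
  obtain c5 := mul_le_mul_of_nonneg_left y12 (show 0 ≤ S ^ 14 * ϖ by positivity)
  obtain c6 := mul_le_mul_of_nonneg_left y111 (show 0 ≤ S ^ 9 * ϖ by (rename_i zq1 _; clear * - S0 zq1; positivity))
  obtain d0 : 0 ≤ ϖ * Y3 := by positivity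
  obtain d1 := h.pw' (show 3 < 16 by norm_num) d0
  obtain d2 := h.pw' (show 5 < 16 by norm_num) d0
  obtain d3 := h.pw' (show 7 < 16 by norm_num) d0
  obtain d4 := h.pw' (show 9 < 16 by norm_num) d0
  obtain d5 := h.pw' (show 15 < 16 by norm_num) d0
  obtain d6 := h.pw' (show 11 < 16 by norm_num) d0
  obtain d7 : 0 ≤ S ^ 16 * (ϖ * Y3) := by (rename_i zq2 zq1 _; clear * - zq1 zq2; positivity)
  linarith only [a1, a2, a3, a4, a5, a6, c2, c3, c4, c5, c6, d1, d2, d3, d4, d5, d6, d7]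

end Pt

theorem fin {S M m ϖ Y C : ℝ} {a b : ℕ} (hS : 10 ^ 20 ≤ S) (hM : 10 ^ 20 * M * m ≤ S) (hϖ : 0 ≤ ϖ)
    (hY : 1 ≤ Y) (hC : 0 ≤ C) (hC' : C ≤ 100) (hab : a + 1 ≤ b) :
    8 * (2 * ϖ + m * (M * (C * (S ^ a * (ϖ * Y))))) ≤ S ^ b * ϖ * Y := by
  obtain S0 : 0 ≤ S := by linarith only [hS]
  obtain a0 : 0 ≤ S ^ a * (ϖ * Y) := by positivity
  obtain a1 := mul_le_mul hM (mul_le_mul_of_nonneg_right hC' a0) (by positivity) S0
  obtain a2 : S ^ (a + 1) * (ϖ * Y) ≤ S ^ b * (ϖ * Y) :=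
    mul_le_mul_of_nonneg_right (pow_le_pow_right₀ (by linarith only [hS]) hab) (by positivity)
  obtain a3 : 1 ≤ S ^ a := one_le_pow₀ (by linarith only [hS])
  obtain a4 : 10 ^ 20 * (1 * (ϖ * 1)) ≤ S * (S ^ a * (ϖ * Y)) := by gcongr
  rw [pow_succ] at a2
  linarith only [hϖ, a1, a2, a4]

end CRU5

open CRU5 in
theorem cru5' (K : ℕ) (c : Cs) (M0 : 0 ≤ c.CG * c.L) (ta : TA_s c) (fw : FW5_s K c) :
    CRU5_s K c := by
  intro d ⟨_, _, H⟩ nu pn el z0 sr
  have oc := H.jc.oc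
  have ok := oc.sk.1
  have w4 := (ta d.k oc.sk).1
  have S1 := nu.S1
  obtain S0 : 0 ≤ d.S K := by linarith only [S1]
  have ϖ0 := nu.ϖ0
  obtain θ1 : d.θ K ≤ 1 := by
    obtain this := mul_le_mul_of_nonneg_left (one_le_pow₀ (n := 500) (show 1 ≤ d.S K by linarith only [S1]))
      nu.θ0.le
    linarith only [this, nu.θS.1, nu.θS.2]
  obtain sm : ∀ x, 0 ≤ x → x ≤ d.S K * d.wb * d.ϖ → 1000 * (d.S K ^ 20 * x) ≤ d.θ K := by
    intro x x0 hx
    have := nu.wb1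
    calc 1000 * (d.S K ^ 20 * x) ≤ d.S K * (d.S K ^ 498 * (d.S K * d.wb * d.ϖ)) := by
          gcongr
          exacts [by linarith only [S1], by linarith only [S1], by norm_num]
      _ = d.ϖ * d.wb * d.S K ^ 500 := by ring
      _ ≤ _ := nu.κ
  have Z0 : ∀ a l, 0 ≤ d.Z a l := fun a l => (abs_nonneg _).trans (le_max_left _ _)
  have P0 : ∀ a l, 0 ≤ d.P a l := fun a l =>
    ((abs_nonneg _).trans (le_max_left _ _)).trans (le_max_right _ _)
  obtain pt : ∀ l (e : ℝ), 1 ≤ l → l < d.m → 0 ≤ e → e * d.k.w4 l * d.η ≤ d.S K →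
      e * d.k.w4 l ^ 2 ≤ d.S K * d.wb → Pt (d.S K) (d.θ K) d.ϖ e (d.k.w l) (d.Y 1) (d.Y 2) (d.Y 3)
        (d.Ym K 1) (d.Ym K 2) (d.P 1 l) (d.P 2 l) (d.P 3 l) (d.Z 0 l) := by
    intro l e l1 lm e0 h1 h2
    have w0 := (ok.w_pos l l1).le
    have a1 := w4 l l1
    obtain a2 := nu.Ym 3 (by norm_num)
    obtain a3 : e * d.k.w l * d.k.w l ≤ e * d.k.w4 l ^ 2 := by
      rw [mul_assoc, ← pow_two]
      (clear * - w0 a1 e0; gcongr)
    exact ⟨by linarith only [S1], θ1, ϖ0, e0, w0,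
      sm _ (by positivity) (mul_le_mul_of_nonneg_right (a3.trans h2) ϖ0),
      sm _ (by positivity) ((mul_comm _ _).trans_le
        (mul_le_mul_of_nonneg_right (a1.trans (nu.w l (by omega) lm.le)) ϖ0)),
      nu.Ym 1 le_rfl, nu.Ym 2 (by norm_num), a2.1.trans a2.2.1, nu.YY,
      ⟨P0 _ _, pn.full 1 l e le_rfl (by norm_num) l1 lm e0 h1 h2,
        pn.num 1 l le_rfl (by norm_num) l1 lm⟩,
      ⟨P0 _ _, pn.full 2 l e (by norm_num) (by norm_num) l1 lm e0 h1 h2⟩,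
      ⟨P0 _ _, pn.full 3 l e (by norm_num) le_rfl l1 lm e0 h1 h2⟩,
      ⟨Z0 _ _, z0.cr l l1 lm.le⟩⟩
  have pe := fun l l1 lm => pt l _ l1 lm (el.E l l1 lm).1 (el.E l l1 lm).2.1 (el.E l l1 lm).2.2
  have m1 := nu.m1
  obtain run : ∀ (a i j : ℕ) (C : ℝ), 1 ≤ a → a ≤ 3 → 0 ≤ C → C ≤ 100 → i + 1 ≤ j →
      (∀ l, 1 ≤ l → l < d.m → d.Z a l ≤ d.S K ^ j * d.ϖ * d.Y a * d.k.w l → ∃ x,
        |d.F a l| ≤ c.CG * c.L * x ∧ d.k.E d.m l * x ≤ C * (d.S K ^ i * (d.ϖ * d.Y a))) →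
      ∀ l, 1 ≤ l → l ≤ d.m → d.Z a l ≤ d.S K ^ j * d.ϖ * d.Y a * d.k.w l := by
    intro a i j C a1 a3 C0 C1 ij st
    have y1 := (nu.Ym a a1).1.trans (nu.Ym a a1).2.1
    refine ind (E := d.k.E d.m) (F := d.F a) (B := c.CG * c.L * (C * (d.S K ^ i * (d.ϖ * d.Y a))))
      ok.w1 ok.w_pos ok.w_step (fun l => ⟨(exp_pos _).le, exp_le_one_iff.2 (by
        linarith only [(ok.ch_mem l).1])⟩) (z0.ini a a3).1 (z0.ini a a3).2
      (fw _ _ _ _ _ _ oc H.g8 (d.z a) (d.F a) fun j _ _ => by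
        unfold D5.F D5.O; ring).1 (fun l l1 lm hl => ?_) (by (clear * - M0 C0 S1 ϖ0 y1; positivity)) (by omega)
      (fin S1 nu.big' ϖ0 y1 C0 C1 ij)
    obtain ⟨x, h1, h2⟩ := st l l1 lm hl
    have b1 := mul_le_mul_of_nonneg_left h1 (el.E l l1 lm).1
    have b2 := mul_le_mul_of_nonneg_left h2 M0
    linarith only [b1, b2]
  obtain z1 := run 1 3 5 17 le_rfl (by norm_num) (by norm_num) (by norm_num) (by norm_num)
    fun l l1 lm hl => ⟨_, sr.f1 l l1 lm, (pe l l1 lm).f1 (Z0 _ _) hl⟩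
  obtain z2 := run 2 9 11 3 (by norm_num) (by norm_num) (by norm_num) (by norm_num) (by norm_num)
    fun l l1 lm hl => ⟨_, sr.f2 l l1 lm, (pe l l1 lm).f2 (Z0 _ _) (z1 l l1 lm.le) (Z0 _ _) hl⟩
  obtain z3 := run 3 16 20 1 (by norm_num) le_rfl (by norm_num) (by norm_num) (by norm_num)
    fun l l1 lm hl => ⟨_, sr.f3 l l1 lm _ _ rfl rfl, ((pe l l1 lm).f3 (Z0 _ _) (z1 l l1 lm.le)
      (Z0 _ _) (z2 l l1 lm.le) (Z0 _ _) hl rfl rfl).trans_eq (one_mul _).symm⟩
  exact ⟨z1, z2, z3, fun l e l1 lm e0 h1 h2 =>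
    ⟨(pt l e l1 lm e0 h1 h2).e1 (Z0 _ _) (z1 l l1 lm.le),
      (pt l e l1 lm e0 h1 h2).e2 (Z0 _ _) (z1 l l1 lm.le) (Z0 _ _) (z2 l l1 lm.le)⟩⟩

theorem cru5 (K : ℕ) : Hier fun c => TA_s c → FW5_s K c → CRU5_s K c :=
  (Hier.base.and (Hier.L_ge (fun _ => 0) fun _ _ => rfl)).mono fun c h =>
    cru5' K c (mul_nonneg (by linarith only [h.1.2.2.2.2.2]) h.2)

end Pool.Agent.MP_9cbfe4_an

end
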