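import Pool.Agent.MP_9cbfe4_an.M14

set_option linter.all false

attribute [-instance] AddQuantale.instAddLeftMono IdemSemiring.toCanonicallyOrderedAdd
  NumberField.to_charZero AddQuantale.instAddRightMono IdemSemiring.toMulLeftMono RKHS.instFunLike
  Quantale.instMulRightMono Quantale.instMulLeftMono IsOrderedCancelMonoid.toIsOrderedMonoid
  LinearOrderedCommMonoidWithZero.toPosMulStrictMono
  Group.IsPerfect.subsingleton_of_isMulCommutative CanonicallyOrderedAdd.toMulLeftMono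
  Valued.toUniformSpace IdemSemiring.toMulRightMono TotallySeparatedSpace.t2Space
  LinearOrderedCommMonoidWithZero.toIsOrderedMonoid IsScalarTower.complexToReal
  Order.Coframe.toCompleteLattice OmegaCompletePartialOrder.toPartialOrder Invertible.toNeZero
  GrpTypeEquivalenceGrp.grpGroup littleWedderburn CanonicallyOrderedMul.toMulLeftMono
  CoalgHomClass.toSemilinearMapClass TestFunctionClass.toDFunLike
  ContDiffMapSupportedInClass.toDFunLike Order.Frame.toCompleteLattice RightPreLieAlgebra.toModule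
  CategoryTheory.Limits.Concrete.instUniqueToTypeTerminal LeftPreLieAlgebra.toModule
  CStarAlgebra.instOrderClosedTopology IdemSemiring.toSemiring
  LieAdmissibleRing.toNonUnitalNonAssocRing NonUnitalAlgSemiHomClass.toDistribMulActionSemiHomClass
  CStarAlgebra.toNormedRing

/-! ### Part AD -/

section

/-! THM-2, section J: admissible tails (rows AD1, AD2, AD3). -/

namespace Pool.Agent.MP_9cbfe4_an

open Finset Filter Topology Real

noncomputable section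

namespace AD

variable {c : Cs} {K : ℕ} {γ : ℝ} {k : Sk}

theorem ck2 (hκ : 0 < c.κ) : 2 ≤ c.ck := by unfold Cs.ck; linarith only [hκ]

theorem Cg1 (hκ : 0 < c.κ) : 4000 ≤ c.Cg := by
  have := ck2 hκ
  unfold Cs.Cg; nlinarith only [this]

theorem γ1 (hB : c.Bud K γ) : 1 ≤ γ := by
  have := hB.1
  have : (0 : ℝ) ≤ K := Nat.cast_nonneg K
  (rename_i zq0; linarith only [zq0])

theorem gm_mono (hκ : 0 < c.κ) (hγ : 1 ≤ γ) {a b : ℕ} (h : a ≤ b) : c.gm γ a ≤ c.gm γ b := by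
  have := Cg1 hκ
  unfold Cs.gm
  exact mul_le_mul_of_nonneg_left (pow_le_pow_right₀ (by linarith only [this]) h) (by linarith only [hγ])

theorem gm_step (hκ : 0 < c.κ) (hγ : 1 ≤ γ) {a b : ℕ} (h : a < b) :
    1000 * c.ck ^ 2 * c.gm γ a ≤ c.gm γ b := by
  refine le_trans (le_of_eq ?_) (gm_mono hκ hγ (Nat.succ_le_of_lt h))
  simp only [Cs.gm, Cs.Cg, pow_succ]; ring

theorem gm_zero : c.gm γ 0 = γ := by simp [Cs.gm]

theorem gm1 (hκ : 0 < c.κ) (hγ : 1 ≤ γ) (a : ℕ) : 1 ≤ c.gm γ a :=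
  hγ.trans (gm_zero.symm.trans_le (gm_mono hκ hγ (Nat.zero_le a)))

theorem gmC (hκ : 0 < c.κ) (hB : c.Bud K γ) {a : ℕ} (h : a ≤ K + 2) :
    1000 * c.ck ^ 2 * c.gm γ a ≤ c.C0 := by
  have h1 := gm_step hκ (γ1 hB) (Nat.lt_succ_of_le h)
  have h2 := hB.2
  have h3 := gm1 hκ (γ1 hB) (K + 3)
  have : (0 : ℝ) ≤ K := Nat.cast_nonneg K
  have e : K + 2 + 1 = K + 3 := rfl
  simp only [Nat.succ_eq_add_one, e] at h1
  nlinarith only [h2, h3, h1]

/-- the numerics of all three rows -/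
theorem num (hκ : 0 < c.κ) (hγ : 1 ≤ γ) {a b : ℕ} (ha : 1 ≤ a) (hb : 1 ≤ b) :
    3 * c.ck * (8 + 4 * c.gm γ b + 3) + (c.ck * (c.ck * (γ + c.gm γ a)) + 2) + c.gm γ b + 14
      ≤ c.gm γ (a + b) / 4 := by
  obtain h1 := gm_step hκ hγ (show a < a + b by omega)
  obtain h2 := gm_step hκ hγ (show b < a + b by omega)
  obtain h3 := gm_step hκ hγ (show 0 < a + b by omega)
  rw [gm_zero] at h3
  have h4 := gm1 hκ hγ a
  have h5 := gm1 hκ hγ b
  have h6 := ck2 hκ
  obtain h7 : 2 * c.ck * c.gm γ b ≤ c.ck ^ 2 * c.gm γ b := by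
    apply mul_le_mul_of_nonneg_right _ (by linarith only [h5]); nlinarith only [h6]
  obtain h8 : 4 * c.gm γ b ≤ c.ck ^ 2 * c.gm γ b := by
    apply mul_le_mul_of_nonneg_right _ (by linarith only [h5]); nlinarith only [h6, h7, h5]
  obtain h9 : c.ck ^ 2 ≤ c.ck ^ 2 * γ := le_mul_of_one_le_right (by positivity) hγ
  obtain h10 : 2 * c.ck ≤ c.ck ^ 2 := by nlinarith only [h7, h5]
  linarith only [h1, h2, h3, h5, h7, h8, h9, h10]

theorem sl0 (hl : 0 ≤ c.lam) (h : k.OK c) {n : ℤ} (hn : 1 ≤ n) : 0 ≤ k.sl n :=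
  hl.trans (h.1.sl1.trans (h.1.sl_mono 1 n le_rfl hn))

theorem chi0 (h : k.OK c) (i j : ℤ) : 0 ≤ k.chi i j :=
  sum_nonneg fun l _ => by linarith only [(h.1.ch_mem l).1]

theorem em_le {n i x : ℤ} (hx : x ∈ k.D) (h1 : x < n) (h2 : i < k.nx x) : k.em n i ≤ k.η x := by
  unfold Sk.em
  exact (fold_min_le _).2 (Or.inr ⟨x, mem_filter.2 ⟨hx, h1, h2⟩, le_rfl⟩)

/-- each term of the graded majorant is either shallow or gains powers of `η0` -/
theorem split (hA : TA_s c) (hl : 0 ≤ c.lam) (h : k.OK c) {n i : ℤ} (hn : n ∈ k.F) (hi : 1 ≤ i)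
    (hin : i < n) {η0 g : ℝ} (h0 : 0 < η0) (h1 : η0 ≤ 1) (hg : 0 ≤ g) (e e' : ℕ) :
    k.NN n (e + 1) g i ≤ max (exp ((g + 2) * k.sl n) / (η0 ^ e * max η0 (k.em n i)))
      (η0 ^ e' * k.NN n (e + 1 + e') g i) := by
  obtain ⟨a1, -, -, -, -, a6, -, -, -, a10, -, -, -, -, -, a16, -, -⟩ := hA k h
  have hs := sl0 hl h (h.1.F_mem n hn).1
  have hM0 : 0 < max η0 (k.em n i) := lt_max_of_lt_left h0
  have hw4 : 0 < k.w4 i := (h.1.w_pos i hi).trans_le (a1 i hi)
  obtain key : ∀ (T y : ℝ), max η0 (k.em n i) ≤ y → T ≤ exp ((g + 2) * k.sl n) / y ^ (e + 1) →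
      T ≤ exp ((g + 2) * k.sl n) / (η0 ^ e * max η0 (k.em n i)) := by
    intro T y hy hT
    refine hT.trans (div_le_div_of_nonneg_left (exp_pos _).le (by positivity) ?_)
    rw [pow_succ]
    exact mul_le_mul (pow_le_pow_left₀ h0.le ((le_max_left _ _).trans hy) e) hy hM0.le
      (pow_nonneg (hM0.le.trans hy) e)
  have hσ : ∀ j, j < n → exp (g * k.σ j) ≤ exp (g * k.sl n) := fun j hj =>
    exp_le_exp.2 (mul_le_mul_of_nonneg_left (a6 n hn j hj) hg)
  obtain hg2 : exp (g * k.sl n) ≤ exp ((g + 2) * k.sl n) := exp_le_exp.2 (by linarith only [hs])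
  conv_lhs => unfold Sk.NN
  refine (fold_max_le _).2 ⟨?_, fun x hx => ?_⟩
  · refine le_max_of_le_left (key _ 1 (max_le h1 (a16 n i).2.1) ?_)
    simpa using (hσ i hin).trans hg2
  obtain ⟨hD, hxn, hix⟩ := mem_filter.1 hx
  have hη := (h.1.η_mem x hD).1
  have hF := (h.1.D_mem x hD).1
  have hwx := h.1.w_pos x (h.1.F_mem x hF).1
  rcases le_total (k.η x) η0 with hc | hc
  · refine le_max_of_le_right ?_
    obtain hle : (if x < i then exp (g * k.σ i) * exp (-k.chi x i / 4) / k.η x ^ (e + 1 + e')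
        else k.w4 i * exp (g * k.σ x) * k.V x (e + 1 + e')) ≤ k.NN n (e + 1 + e') g i := by
      unfold Sk.NN
      exact (le_fold_max _).2 (Or.inr ⟨x, hx, le_rfl⟩)
    refine le_trans ?_ (mul_le_mul_of_nonneg_left hle (by positivity))
    have hp : k.η x ^ e' ≤ η0 ^ e' := pow_le_pow_left₀ hη.le hc e'
    split_ifs
    · refine le_trans (le_of_eq ?_) (mul_le_mul_of_nonneg_right hp (by (clear * - hη; positivity)))
      rw [pow_add (k.η x) (e + 1) e']; field_simp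
    · unfold Sk.V
      refine le_trans (le_of_eq ?_) (mul_le_mul_of_nonneg_right hp (by (clear * - hw4 hη hwx; positivity)))
      rw [pow_add (k.η x) (e + 1) e']; field_simp
  · refine le_max_of_le_left (key _ (k.η x) (max_le hc (em_le hD hxn hix)) ?_)
    split_ifs with hxi
    · refine div_le_div_of_nonneg_right ?_ (by positivity)
      obtain this : exp (-k.chi x i / 4) ≤ 1 := exp_le_one_iff.2 (by linarith only [chi0 h x i])
      exact (mul_le_of_le_one_right (exp_pos _).le this).trans ((hσ i hin).trans hg2)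
    · obtain h2 := (a10 x hF i (by omega) (by omega)).2.1
      obtain h3 : exp (2 * k.sl x) ≤ exp (2 * k.sl n) :=
        exp_le_exp.2 (by linarith only [h.1.sl_mono x n (h.1.F_mem x hF).1 hxn.le])
      obtain h4 : k.w4 i * exp (g * k.σ x) ≤ exp (2 * k.sl n) * k.w x * exp (g * k.sl n) :=
        mul_le_mul (h2.trans (mul_le_mul_of_nonneg_right h3 hwx.le)) (hσ x hxn) (exp_pos _).le
          (by positivity)
      unfold Sk.V
      refine (mul_le_mul_of_nonneg_right h4 (by positivity)).trans (le_of_eq ?_)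
      rw [show (g + 2) * k.sl n = 2 * k.sl n + g * k.sl n by ring, exp_add]; field_simp

/-- transfer of a slack from a later free time -/
theorem transfer (hA : TA_s c) (h : k.OK c) {y i : ℤ}
    (hy : y ∈ k.F) (hi : 1 ≤ i) (hiy : i < y) {G : ℝ} (hG : 0 ≤ G) (hG' : G ≤ c.C0 ^ 2) :
    exp (G * k.σ y) / k.w y ≤ exp ((c.ck * G + 2) * k.σ i) / k.w4 i := by
  obtain ⟨a1, -, -, -, -, -, -, -, -, a10, a11, -⟩ := hA k h
  have hw4 : 0 < k.w4 i := (h.1.w_pos i hi).trans_le (a1 i hi)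
  have hwy := h.1.w_pos y (h.1.F_mem y hy).1
  obtain ⟨m1, m2, m3⟩ := h.1.nx_mem i (hiy.trans_le (h.1.F_mem y hy).2)
  have h1 := a11 _ m1 y hy (m3 y hy hiy) G hG hG'
  obtain h2 := (a10 _ m1 i (by omega) m2.le).1
  obtain h3 : k.sl 1 ≤ k.sl (k.nx i) := h.1.sl_mono 1 _ le_rfl (by omega)
  rw [div_le_div_iff₀ hwy hw4]
  calc exp (G * k.σ y) * k.w4 i ≤ exp (G * k.σ y) * exp (k.W (k.nx i) + k.sl 1) :=
        mul_le_mul_of_nonneg_left h2 (exp_pos _).le
    _ ≤ exp ((c.ck * G + 2) * k.σ i + log (k.w y)) := by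
        rw [← exp_add]; refine exp_le_exp.2 ?_
        unfold Sk.σ at *; linarith only [h1, h3]
    _ = _ := by rw [exp_add, exp_log hwy]

/-- the first two factors of the mixed products -/
theorem mix (hA : TA_s c) (hC : TC_s c) (hκ : 0 < c.κ) (hB : c.Bud K γ) (h : k.OK c) {n i : ℤ}
    (hn : n ∈ k.F) (hi : 1 ≤ i) (hin : i < n) {b : ℕ} (hbK : b ≤ K + 1) {T : ℝ}
    (hT : 0 ≤ T) :
    k.E n i * k.w4 i * T * k.NN n (2 * b - 1) (4 * c.gm γ b) i ≤
      T * k.NN n (2 * b - 1 + 1) (3 * c.ck * (8 + 4 * c.gm γ b + 3)) i := by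
  obtain ⟨-, -, -, -, -, -, -, -, -, -, -, -, -, -, -, -, -, a18⟩ := hA k h
  obtain ⟨c1, c2⟩ := hC k h n hn
  obtain h1 := gmC hκ hB (show b ≤ K + 2 by omega)
  have h2 := gm1 hκ (γ1 hB) b
  have h3 := ck2 hκ
  obtain h4 : 4 * c.gm γ b ≤ c.ck ^ 2 * c.gm γ b := by
    apply mul_le_mul_of_nonneg_right _ (by linarith only [h2]); nlinarith only [h3]
  obtain hN := (a18 n (2 * b - 1) (4 * c.gm γ b) i (by linarith only [h2]) (by omega)
    (hin.le.trans (h.1.F_mem n hn).2)).1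
  obtain h5 := c2 1 (2 * b - 1) 8 (4 * c.gm γ b) i (by norm_num) (by linarith only [h1, h2, h4]) (by linarith only [h2])
    (by linarith only [h1, h2, h4]) (by omega) hin.le
  rw [add_comm 1 (2 * b - 1)] at h5
  calc k.E n i * k.w4 i * T * k.NN n (2 * b - 1) (4 * c.gm γ b) i
      = T * (k.E n i * k.w4 i * k.NN n (2 * b - 1) (4 * c.gm γ b) i) := by ring
    _ ≤ _ := mul_le_mul_of_nonneg_left
        ((mul_le_mul_of_nonneg_right (c1 i hi hin) (by linarith only [hN])).trans h5) hT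

/-- absorption into the majorant -/
theorem absorb (hA : TA_s c) (h : k.OK c) {n i : ℤ} (hn : n ∈ k.F) (hi : 1 ≤ i) (hin : i < n)
    (e : ℕ) {g g' G T : ℝ} (hg : 0 ≤ g) (hg' : 0 ≤ g') (hG : g + g' ≤ G)
    (hT : T ≤ exp (g' * k.σ i) / k.w4 i) : T * k.NN n e g i ≤ k.NN n e G i / k.w4 i := by
  obtain ⟨a1, -, -, -, -, -, -, -, -, -, -, -, -, -, -, -, -, a18⟩ := hA k h
  have hw4 : 0 < k.w4 i := (h.1.w_pos i hi).trans_le (a1 i hi)
  have hN := hin.le.trans (h.1.F_mem n hn).2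
  obtain ⟨b1, -, b3, -⟩ := a18 n e g i hg (by omega) hN
  obtain b2 := (a18 n e (g + g') i (by linarith only [hg, hg']) (by omega) hN).2.1 n e G le_rfl le_rfl hG
  refine (mul_le_mul_of_nonneg_right hT (by linarith only [b1])).trans ?_
  rw [div_mul_eq_mul_div]
  exact div_le_div_of_nonneg_right ((b3 g' hg').trans b2) hw4.le

theorem ad1 (hA : TA_s c) (hC : TC_s c) (hκ : 0 < c.κ) (hl : 0 ≤ c.lam) : AD1_s K c := by
  intro k h n hn γ r τ hB hr hτ hab
  have hγ := γ1 hB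
  have hs := sl0 hl h (h.1.F_mem n hn).1
  have hck := ck2 hκ
  obtain hG := gm_step hκ hγ (show K + 1 < K + 2 by omega)
  have hG1 := gm1 hκ hγ (K + 1)
  obtain h7 : 2 * c.ck * c.gm γ (K + 1) ≤ c.ck ^ 2 * c.gm γ (K + 1) := by
    apply mul_le_mul_of_nonneg_right _ (by linarith only [hG1]); nlinarith only [hck]
  obtain h8 : c.ck ≤ c.ck * c.gm γ (K + 1) := le_mul_of_one_le_right (by linarith only [hck]) hG1
  obtain ⟨-, -, -, -, -, -, -, -, -, -, -, -, -, a14, -, a16, -, a18⟩ := hA k h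
  refine ⟨hτ, fun j i => ?_, fun j i i' _ => le_rfl, fun j i hj _ => ?_, fun a b i ha hb hr' hi hin => ?_,
    fun a b i ha hb hr' hi hin => ?_⟩
  · have := hτ j
    split_ifs <;> positivity
  · rw [if_neg (by omega), ← mul_assoc, ← exp_add]
    exact mul_le_of_le_one_left (hτ j) (exp_le_one_iff.2 (by nlinarith only [hs, hck, hG, h7, h8]))
  · refine le_max_of_le_left ?_
    rw [if_neg (by omega)]
    have h1 := (a14 n hn i hi hin).1
    have h2 := mul_nonneg (hτ a) (hτ b)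
    refine le_trans ?_ (mul_le_mul_of_nonneg_left (hab a b ha hb hr').1 (exp_pos _).le)
    calc k.E n i * k.w4 i ^ 2 * τ a * τ b = k.E n i * k.w4 i ^ 2 * (τ a * τ b) := by ring
      _ ≤ exp (-2 * c.gm γ (K + 2) * k.sl n + (k.W n + 4 * c.gm γ (K + 2) * k.sl n)) * (τ a * τ b) :=
          mul_le_mul_of_nonneg_right (h1.trans (exp_le_exp.2 (by nlinarith only [hs, hck, hG, h7, h8]))) h2
      _ = _ := by rw [exp_add]; ring
  · refine le_max_of_le_left ?_
    rw [if_neg (by omega)]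
    obtain hb' := gm_mono hκ hγ (show b ≤ K + 1 by omega)
    have hb1 := gm1 hκ hγ b
    refine (mix hA hC hκ hB h hn hi hin (by omega) (hτ a)).trans ?_
    refine le_trans ?_ (mul_le_mul_of_nonneg_left (hab a b ha hb hr').2 (exp_pos _).le)
    obtain h1 := ((a18 n (2 * b - 1 + 1) (3 * c.ck * (8 + 4 * c.gm γ b + 3)) i (by (clear * - hck hb1; positivity))
      (by omega) (hin.le.trans (h.1.F_mem n hn).2)).2.2.2 hn hin).2.1
    obtain ⟨e0, -, e2, -⟩ := a16 n i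
    obtain h2 : 1 / k.em n i ^ (2 * b - 1 + 1) ≤ k.rh n ^ b := by
      rw [show 2 * b - 1 + 1 = 2 * b by omega, pow_mul, ← one_pow b, ← div_pow]
      exact pow_le_pow_left₀ (by positivity) e2 b
    obtain h3 : c.ck * c.gm γ b ≤ c.ck * c.gm γ (K + 1) := mul_le_mul_of_nonneg_left hb' (by linarith only [hck])
    obtain h4 : exp ((3 * c.ck * (8 + 4 * c.gm γ b + 3) + 2) * k.sl n) ≤
        exp (-2 * c.gm γ (K + 2) * k.sl n + 4 * c.gm γ (K + 2) * k.sl n) := by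
      refine exp_le_exp.2 ?_
      obtain this : 3 * c.ck * (8 + 4 * c.gm γ b + 3) + 2 ≤ 2 * c.gm γ (K + 2) := by linarith only [hck, hG, h7, h8, h3]
      nlinarith only [hs, hck, hG, h7, h8, h3]
    rw [div_eq_mul_one_div] at h1
    calc τ a * _ ≤ τ a * (exp (-2 * c.gm γ (K + 2) * k.sl n + 4 * c.gm γ (K + 2) * k.sl n) * k.rh n ^ b) :=
          mul_le_mul_of_nonneg_left (h1.trans (mul_le_mul h4 h2 (by positivity) (exp_pos _).le)) (hτ a)
      _ = _ := by rw [exp_add]; ring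

theorem ad2 (hA : TA_s c) (hC : TC_s c) (hκ : 0 < c.κ) (hl : 0 ≤ c.lam) : AD2_s K c := by
  intro k h n hn γ η0 θ s0 r hB hr h0 h1 hθ hθ1 hs0 hs1
  have hγ := γ1 hB
  have hs := sl0 hl h (h.1.F_mem n hn).1
  have hck := ck2 hκ
  have hw := h.1.w_pos n (h.1.F_mem n hn).1
  have hM : ∀ i, 0 < max η0 (k.em n i) := fun i => lt_max_of_lt_left h0
  obtain ⟨-, -, -, -, -, -, -, -, -, -, -, -, -, a14, -, a16, -, -⟩ := hA k h
  refine ⟨fun j => by (clear * - hθ h0 hw; positivity), fun j i => ?_, fun j i i' hi => ?_, fun j i hj _ => ?_,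
    fun a b i ha hb hr' hi hin => ?_, fun a b i ha hb hr' hi hin => ?_⟩
  · have := hM i
    split_ifs <;> positivity
  · have := hM i
    split_ifs
    · exact le_rfl
    · refine div_le_div_of_nonneg_left (by (clear * - hθ; positivity)) (by positivity) ?_
      gcongr
      exact (a16 n i).2.2.2 i' hi
  · rw [if_neg (by omega), ← mul_div_assoc]
    have := hM i
    obtain h2 := gm_step hκ hγ (show 0 < j by omega)
    rw [gm_zero] at h2
    obtain h3 : 40 ≤ c.gm γ j := by nlinarith only [hck, h2, hγ]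
    refine div_le_div₀ (by (clear * - hθ; positivity)) ?_ (by positivity) ?_
    · rw [mul_left_comm, ← exp_add]
      exact mul_le_mul_of_nonneg_left (exp_le_exp.2 (by nlinarith only [hs0, h3, hs])) hθ
    · rw [show 2 * j - 1 = 2 * j - 2 + 1 by omega, pow_succ]
      gcongr
      exact le_max_left _ _
  · refine le_max_of_le_left ?_
    rw [if_neg (by omega)]
    have hE := (a14 n hn i hi hin).1
    have hlo : exp (k.W n - k.sl n) ≤ k.w n := (le_log_iff_exp_le hw).1 (h.1.lo n hn)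
    have hnum := num hκ hγ ha hb
    have ga := gm1 hκ hγ a
    have gb := gm1 hκ hγ b
    obtain h2 : k.E n i * k.w4 i ^ 2 ≤ exp (13 * k.sl n) * k.w n := by
      refine hE.trans (le_trans (le_of_eq ?_) (mul_le_mul_of_nonneg_left hlo (exp_pos _).le))
      rw [← exp_add]; congr 1; ring
    obtain h3 : c.gm γ a + c.gm γ b + 13 ≤ c.gm γ (a + b) / 2 := by
      obtain this : 4 * c.gm γ a ≤ c.ck * (c.ck * (γ + c.gm γ a)) := by
        obtain this : 2 * c.gm γ a ≤ c.ck * (γ + c.gm γ a) := by nlinarith only [hγ, hck, ga]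
        nlinarith only [hγ, hck, ga, this]
      obtain this : 0 ≤ 3 * c.ck * (8 + 4 * c.gm γ b + 3) := by positivity
      (rename_i zq0; linarith only [hnum, ga, gb, zq0, this])
    obtain h4 : exp (13 * k.sl n) * exp (c.gm γ a * s0) * exp (c.gm γ b * s0) ≤
        exp (c.gm γ (a + b) / 2 * s0) := by
      rw [← exp_add, ← exp_add]; exact exp_le_exp.2 (by nlinarith only [hs0, h3, hs])
    have hM1 : max η0 (k.em n i) ≤ 1 := max_le h1 (a16 n i).2.1
    have := hM i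
    calc k.E n i * k.w4 i ^ 2 * (θ * exp (c.gm γ a * s0) / (η0 ^ (2 * a - 1) * k.w n)) *
          (θ * exp (c.gm γ b * s0) / (η0 ^ (2 * b - 1) * k.w n))
        ≤ exp (13 * k.sl n) * k.w n * (θ * exp (c.gm γ a * s0) / (η0 ^ (2 * a - 1) * k.w n)) *
          (1 * exp (c.gm γ b * s0) / (η0 ^ (2 * b - 1) * k.w n)) := by (clear * - h2 hθ h0 hw hθ1; gcongr)
      _ = θ * (exp (13 * k.sl n) * exp (c.gm γ a * s0) * exp (c.gm γ b * s0)) /
          (η0 ^ (2 * (a + b) - 2) * 1 * k.w n) := by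
          rw [show 2 * (a + b) - 2 = 2 * a - 1 + (2 * b - 1) by omega, pow_add]; field_simp
      _ ≤ _ := by (clear * - hθ h4 h0 hw hM1; gcongr)
  · have hnum := num hκ hγ ha hb
    have ga := gm1 hκ hγ a
    have gb := gm1 hκ hγ b
    obtain hg1 : 0 ≤ 3 * c.ck * (8 + 4 * c.gm γ b + 3) := by positivity
    obtain hq : 4 * c.gm γ a ≤ c.ck * (c.ck * (γ + c.gm γ a)) := by
      obtain this : 2 * c.gm γ a ≤ c.ck * (γ + c.gm γ a) := by nlinarith only [hγ, hck, ga]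
      nlinarith only [hγ, hck, ga, this]
    refine (mix hA hC hκ hB h hn hi hin (by omega) (by positivity)).trans ?_
    have hsp := split hA hl h hn hi hin h0 h1 hg1 (2 * b - 1) (2 * a - 1)
    have := hM i
    rcases le_max_iff.1 hsp with hc | hc
    · refine le_max_of_le_left ?_
      rw [if_neg (by omega)]
      refine (mul_le_mul_of_nonneg_left hc (by (clear * - hθ h0 hw; positivity))).trans ?_
      obtain h4 : exp (c.gm γ a * s0) * exp ((3 * c.ck * (8 + 4 * c.gm γ b + 3) + 2) * k.sl n) ≤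
          exp (c.gm γ (a + b) / 2 * s0) := by
        rw [← exp_add]; refine exp_le_exp.2 ?_
        obtain h5 : (3 * c.ck * (8 + 4 * c.gm γ b + 3) + 2) * k.sl n ≤
            (3 * c.ck * (8 + 4 * c.gm γ b + 3) + 2) * s0 := by gcongr
        obtain h6 : (c.gm γ a + (3 * c.ck * (8 + 4 * c.gm γ b + 3) + 2)) * s0 ≤
            c.gm γ (a + b) / 2 * s0 := mul_le_mul_of_nonneg_right (by linarith only [hnum, ga, gb, hg1, hq]) (by linarith only [hs0, hs])
        linarith only [h5, h6]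
      refine le_trans (le_of_eq ?_) (div_le_div_of_nonneg_right
        (mul_le_mul_of_nonneg_left h4 hθ) (by positivity))
      rw [show 2 * (a + b) - 2 = 2 * a - 1 + (2 * b - 1) by omega, pow_add]; field_simp
    · refine le_max_of_le_right ?_
      refine (mul_le_mul_of_nonneg_left hc (by (clear * - hθ h0 hw; positivity))).trans ?_
      rw [← mul_assoc, show 2 * b - 1 + 1 + (2 * a - 1) = 2 * (a + b) - 1 by omega]
      obtain hC0 := gmC hκ hB (show a ≤ K + 2 by omega)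
      obtain hC1 := gmC hκ hB (show 0 ≤ K + 2 by omega)
      rw [gm_zero] at hC1
      obtain hG : c.ck * (γ + c.gm γ a) ≤ c.C0 := by nlinarith only [ga, hq, hC1, hC0, hck]
      obtain hC2 : 1 ≤ c.C0 := by linarith only [ga, hq, hC0, hC1]
      obtain ht := transfer hA h hn hi hin (G := c.ck * (γ + c.gm γ a)) (by positivity)
        (by nlinarith only [ga, hq, hC0, hC1, hck])
      refine absorb hA h hn hi hin _ hg1 (g' := c.ck * (c.ck * (γ + c.gm γ a)) + 2) (by positivity)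
        (by linarith only [hnum, gb]) (le_trans ?_ ht)
      obtain hσ : k.sl n ≤ k.σ n := by
        unfold Sk.σ
        rcases (h.1.F_mem n hn).2.eq_or_lt with e | e
        · rw [e, h.1.nx_N]
        · exact h.1.sl_mono _ _ (h.1.F_mem n hn).1 (h.1.nx_mem n e).2.1.le
      obtain h5 : c.gm γ a * s0 ≤ c.ck * (γ + c.gm γ a) * k.σ n := by
        calc c.gm γ a * s0 ≤ (γ + c.gm γ a) * (c.ck * k.σ n) := by
              refine mul_le_mul (by linarith only [hγ]) (hs1.trans ?_) (by linarith only [hs0, hs]) (by linarith only [hγ, ga])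
              gcongr
          _ = _ := by ring
      calc θ * exp (c.gm γ a * s0) / (η0 ^ (2 * a - 1) * k.w n) * η0 ^ (2 * a - 1)
          = θ * exp (c.gm γ a * s0) / k.w n := by field_simp
        _ ≤ 1 * exp (c.ck * (γ + c.gm γ a) * k.σ n) / k.w n := by (clear * - hθ1 h5 hw; gcongr)
        _ = _ := by rw [one_mul]

theorem ad3 (hA : TA_s c) (hC : TC_s c) (hκ : 0 < c.κ) (hl : 0 ≤ c.lam) : AD3_s K c := by
  intro k h x hx γ o r hB hr ho ho1
  have hγ := γ1 hB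
  obtain ⟨hF, hxN⟩ := h.1.D_mem x hx
  obtain ⟨hn, hxn, hnx⟩ := h.1.nx_mem x hxN
  have hs : 0 ≤ k.σ x := sl0 hl h (h.1.F_mem _ hn).1
  have hck := ck2 hκ
  have hw := h.1.w_pos x (h.1.F_mem x hF).1
  obtain ⟨h0, h1⟩ := h.1.η_mem x hx
  obtain hV : ∀ e, 0 < k.V x e := fun e => by unfold Sk.V; positivity
  have es : k.sl (k.nx x) = k.σ x := rfl
  obtain ⟨-, -, -, -, -, -, -, -, -, -, -, -, -, a14, -, a16, -, a18⟩ := hA k h
  refine ⟨fun j => ?_, fun j i => ?_, fun j i i' _ => le_rfl, fun j i hj _ => ?_,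
    fun a b i ha hb hr' hi hin => ?_, fun a b i ha hb hr' hi hin => ?_⟩
  · have := hV (2 * j - 1)
    positivity
  · have := hV (2 * j - 1)
    split_ifs <;> positivity
  · rw [if_neg (by omega), ← mul_assoc, es]
    obtain h2 := gm_step hκ hγ (show 0 < j by omega)
    rw [gm_zero] at h2
    obtain h3 : 40 ≤ c.gm γ j := by nlinarith only [hck, h2, hγ]
    refine mul_le_mul_of_nonneg_right ?_ (hV _).le
    rw [mul_left_comm, ← exp_add]
    exact mul_le_mul_of_nonneg_left (exp_le_exp.2 (by nlinarith only [hs, h3])) ho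
  · refine le_max_of_le_left ?_
    rw [if_neg (by omega)]
    have hE := (a14 _ hn i hi hin).1
    have hnum := num hκ hγ ha hb
    have ga := gm1 hκ hγ a
    have gb := gm1 hκ hγ b
    obtain h2 : k.E (k.nx x) i * k.w4 i ^ 2 ≤ exp (14 * k.σ x) * (k.w x / k.η x) := by
      refine hE.trans ?_
      rw [← exp_log (div_pos hw h0), log_div hw.ne' h0.ne', ← exp_add, es]
      exact exp_le_exp.2 (by linarith only [(h.1.maj x hx).2])
    obtain h3 : γ + c.gm γ a + c.gm γ b + 14 ≤ c.gm γ (a + b) / 2 := by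
      obtain this : 4 * (γ + c.gm γ a) ≤ c.ck * (c.ck * (γ + c.gm γ a)) := by
        obtain this : 2 * (γ + c.gm γ a) ≤ c.ck * (γ + c.gm γ a) := by nlinarith only [hck, hγ, ga]
        nlinarith only [this, hck]
      obtain this : 0 ≤ 3 * c.ck * (8 + 4 * c.gm γ b + 3) := by positivity
      (rename_i zq0; linarith only [hγ, hnum, ga, gb, zq0, this])
    obtain h4 : exp (14 * k.σ x) * exp (c.gm γ a * k.σ x) * exp (γ * k.σ x) * exp (c.gm γ b * k.σ x) ≤
        exp (c.gm γ (a + b) / 2 * k.σ x) := by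
      rw [← exp_add, ← exp_add, ← exp_add]; exact exp_le_exp.2 (by nlinarith only [hs, h3])
    have := hV (2 * a - 1)
    have := hV (2 * b - 1)
    have := hV (2 * (a + b) - 1)
    calc k.E (k.nx x) i * k.w4 i ^ 2 * (o * exp (c.gm γ a * k.σ x) * k.V x (2 * a - 1)) *
          (o * exp (c.gm γ b * k.σ x) * k.V x (2 * b - 1))
        ≤ exp (14 * k.σ x) * (k.w x / k.η x) * (o * exp (c.gm γ a * k.σ x) * k.V x (2 * a - 1)) *
          (exp (γ * k.σ x) * exp (c.gm γ b * k.σ x) * k.V x (2 * b - 1)) := by (rename_i zq1 zq0; clear * - h2 ho zq1 ho1 zq0 hw h0; gcongr)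
      _ = o * (exp (14 * k.σ x) * exp (c.gm γ a * k.σ x) * exp (γ * k.σ x) * exp (c.gm γ b * k.σ x)) *
          k.V x (2 * (a + b) - 1) := by
          unfold Sk.V
          rw [show 2 * (a + b) - 1 = 2 * a - 1 + (2 * b - 1) + 1 by omega, pow_succ, pow_add]
          field_simp
      _ ≤ _ := by (clear * - h4 ho this; gcongr)
  · have hnum := num hκ hγ ha hb
    have ga := gm1 hκ hγ a
    have gb := gm1 hκ hγ b
    have hVa := hV (2 * a - 1)
    obtain hg1 : 0 ≤ 3 * c.ck * (8 + 4 * c.gm γ b + 3) := by (clear * - hck gb; positivity)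
    obtain hq : 2 * (c.ck * (γ + c.gm γ a)) ≤ c.ck * (c.ck * (γ + c.gm γ a)) :=
      mul_le_mul_of_nonneg_right hck (by positivity)
    obtain hq' : 2 * (γ + c.gm γ a) ≤ c.ck * (γ + c.gm γ a) :=
      mul_le_mul_of_nonneg_right hck (by positivity)
    refine (mix hA hC hκ hB h hn hi hin (by omega) (by positivity)).trans ?_
    obtain one : k.NN (k.nx x) (2 * b - 1 + 1) (3 * c.ck * (8 + 4 * c.gm γ b + 3)) i ≤
        exp ((3 * c.ck * (8 + 4 * c.gm γ b + 3) + 2) * k.σ x) / k.η x ^ (2 * b - 1 + 1) →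
        o * exp (c.gm γ a * k.σ x) * k.V x (2 * a - 1) *
          k.NN (k.nx x) (2 * b - 1 + 1) (3 * c.ck * (8 + 4 * c.gm γ b + 3)) i ≤
        o * exp (c.gm γ (a + b) / 2 * k.σ x) * k.V x (2 * (a + b) - 1) := by
      intro hc
      refine (mul_le_mul_of_nonneg_left hc (by positivity)).trans ?_
      obtain h4 : exp (c.gm γ a * k.σ x) * exp ((3 * c.ck * (8 + 4 * c.gm γ b + 3) + 2) * k.σ x) ≤
          exp (c.gm γ (a + b) / 2 * k.σ x) := by
        rw [← exp_add, ← add_mul]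
        exact exp_le_exp.2 (mul_le_mul_of_nonneg_right (by linarith only [hγ, hnum, ga, gb, hg1, hq, hq']) hs)
      refine le_trans (le_of_eq ?_) (mul_le_mul_of_nonneg_right
        (mul_le_mul_of_nonneg_left h4 ho) (hV _).le)
      unfold Sk.V
      rw [show 2 * (a + b) - 1 = 2 * a - 1 + (2 * b - 1 + 1) by omega, pow_add _ (2 * a - 1)]
      field_simp
    rcases lt_or_ge i x with hix | hix
    · rcases le_max_iff.1 (split hA hl h hn hi hin h0 h1 hg1 (2 * b - 1) (2 * a - 1)) with hc | hc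
      · refine le_max_of_le_left ?_
        rw [if_neg (by omega)]
        refine one (hc.trans (div_le_div_of_nonneg_left (exp_pos _).le (by positivity) ?_))
        rw [pow_succ]
        exact mul_le_mul_of_nonneg_left (le_max_left _ _) (by positivity)
      · refine le_max_of_le_right ?_
        refine (mul_le_mul_of_nonneg_left hc (by (clear * - ho hVa; positivity))).trans ?_
        rw [← mul_assoc, show 2 * b - 1 + 1 + (2 * a - 1) = 2 * (a + b) - 1 by omega]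
        obtain hC0 := gmC hκ hB (show a ≤ K + 2 by omega)
        obtain hC1 := gmC hκ hB (show 0 ≤ K + 2 by omega)
        rw [gm_zero] at hC1
        obtain hG : γ + c.gm γ a ≤ c.C0 := by linarith only [hγ, ga, hq, hq', hC0, hC1]
        obtain ht := transfer hA h hF hi hix (G := γ + c.gm γ a) (by positivity) (by nlinarith only [ga, hq, hq', hC0, hC1, hγ])
        refine absorb hA h hn hi hin _ hg1 (g' := c.ck * (γ + c.gm γ a) + 2) (by (clear * - hck hγ ga; positivity))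
          (by linarith only [hγ, hnum, ga, gb, hq, hq']) (le_trans ?_ ht)
        calc o * exp (c.gm γ a * k.σ x) * k.V x (2 * a - 1) * k.η x ^ (2 * a - 1)
            = o * exp (c.gm γ a * k.σ x) / k.w x := by unfold Sk.V; field_simp
          _ ≤ exp (γ * k.σ x) * exp (c.gm γ a * k.σ x) / k.w x := by (clear * - ho1 hw; gcongr)
          _ = _ := by rw [← exp_add, add_mul]
    · refine le_max_of_le_left ?_
      rw [if_neg (by omega)]
      obtain hem : k.η x ≤ k.em (k.nx x) i := by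
        unfold Sk.em
        refine (le_fold_min _).2 ⟨h1, fun y hy => ?_⟩
        obtain ⟨hD, y1, y2⟩ := mem_filter.1 hy
        obtain ⟨yF, yN⟩ := h.1.D_mem y hD
        rcases lt_trichotomy y x with e | e | e
        · have := (h.1.nx_mem y yN).2.2 x hF e
          omega
        · rw [e]
        · have := hnx y yF e
          omega
      obtain h5 := ((a18 (k.nx x) (2 * b - 1 + 1) _ i hg1 (by omega)
        (hin.le.trans (h.1.F_mem _ hn).2)).2.2.2 hn hin).2.1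
      refine one (h5.trans (div_le_div_of_nonneg_left (exp_pos _).le (by positivity) ?_))
      exact pow_le_pow_left₀ h0.le hem _

theorem base : Hier fun c => 0 < c.κ ∧ 0 ≤ c.lam :=
  (Hier.base.and (Hier.lam_ge (fun _ => 0) fun _ _ => rfl)).mono fun _ h => ⟨h.1.2.2.2.2.1, h.2⟩

end AD

theorem AD1 (K : ℕ) : Hier fun c => TA_s c → TC_s c → AD1_s K c :=
  AD.base.mono fun _ h hA hC => AD.ad1 hA hC h.1 h.2

theorem AD2 (K : ℕ) : Hier fun c => TA_s c → TC_s c → AD2_s K c :=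
  AD.base.mono fun _ h hA hC => AD.ad2 hA hC h.1 h.2

theorem AD3 (K : ℕ) : Hier fun c => TA_s c → TC_s c → AD3_s K c :=
  AD.base.mono fun _ h hA hC => AD.ad3 hA hC h.1 h.2

end
end Pool.Agent.MP_9cbfe4_an

end

/-! ### Part AD4 -/

section

/-! THM-2, section J: rows AD4, AD5. -/

namespace Pool.Agent.MP_9cbfe4_an

open Finset Filter Topology Real

noncomputable section

namespace AD

variable {c : Cs} {K : ℕ}

theorem ad4 (hA : TA_s c) (hC : TC_s c) (hκ : 0 < c.κ) (hl : 0 ≤ c.lam) : AD4_s K c := by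
  intro k h x hx γ η0 r hB hr h0 hη
  have hγ := γ1 hB
  obtain ⟨hF, hxN⟩ := h.1.D_mem x hx
  obtain ⟨hn, hxn, hnx⟩ := h.1.nx_mem x hxN
  have hs : 0 ≤ k.σ x := sl0 hl h (h.1.F_mem _ hn).1
  have hck := ck2 hκ
  have hw := h.1.w_pos x (h.1.F_mem x hF).1
  obtain ⟨h0', h1'⟩ := h.1.η_mem x hx
  have h1 : η0 ≤ 1 := hη.trans h1'
  have es : k.sl (k.nx x) = k.σ x := rfl
  obtain ⟨-, -, -, -, -, -, -, -, -, -, -, -, -, a14, -, a16, -, a18⟩ := hA k h
  refine ⟨fun j => by positivity, fun j i => ?_, fun j i i' _ => le_rfl, fun j i hj _ => ?_,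
    fun a b i ha hb hr' hi hin => ?_, fun a b i ha hb hr' hi hin => ?_⟩
  · split_ifs <;> positivity
  · rw [if_neg (by omega), ← mul_div_assoc, es, ← exp_add]
    obtain h2 := gm_step hκ hγ (show 0 < j by omega)
    rw [gm_zero] at h2
    obtain h3 : 40 ≤ c.gm γ j := by nlinarith only [hck, h2, hγ]
    exact div_le_div_of_nonneg_right (exp_le_exp.2 (by nlinarith only [hs, h3])) (by positivity)
  · refine le_max_of_le_left ?_
    rw [if_neg (by omega)]
    have hE := (a14 _ hn i hi hin).1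
    have hnum := num hκ hγ ha hb
    have ga := gm1 hκ hγ a
    have gb := gm1 hκ hγ b
    obtain h2 : k.E (k.nx x) i * k.w4 i ^ 2 ≤ exp (14 * k.σ x) * (k.w x / η0) := by
      refine le_trans (hE.trans ?_) (mul_le_mul_of_nonneg_left
        (div_le_div_of_nonneg_left hw.le h0 hη) (exp_pos _).le)
      rw [← exp_log (div_pos hw h0'), log_div hw.ne' h0'.ne', ← exp_add, es]
      exact exp_le_exp.2 (by linarith only [(h.1.maj x hx).2])
    obtain h3 : c.gm γ a + c.gm γ b + 14 ≤ c.gm γ (a + b) / 2 := by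
      obtain this : 4 * (γ + c.gm γ a) ≤ c.ck * (c.ck * (γ + c.gm γ a)) := by
        obtain this : 2 * (γ + c.gm γ a) ≤ c.ck * (γ + c.gm γ a) := by nlinarith only [hck, hγ, ga]
        nlinarith only [this, hck]
      obtain this : 0 ≤ 3 * c.ck * (8 + 4 * c.gm γ b + 3) := by positivity
      linarith
    obtain h4 : exp (14 * k.σ x) * exp (c.gm γ a * k.σ x) * exp (c.gm γ b * k.σ x) ≤
        exp (c.gm γ (a + b) / 2 * k.σ x) := by
      rw [← exp_add, ← exp_add]; exact exp_le_exp.2 (by nlinarith only [hs, h3])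
    calc k.E (k.nx x) i * k.w4 i ^ 2 * (exp (c.gm γ a * k.σ x) / (η0 ^ (2 * a - 1) * k.w x)) *
          (exp (c.gm γ b * k.σ x) / (η0 ^ (2 * b - 1) * k.w x))
        ≤ exp (14 * k.σ x) * (k.w x / η0) * (exp (c.gm γ a * k.σ x) / (η0 ^ (2 * a - 1) * k.w x)) *
          (exp (c.gm γ b * k.σ x) / (η0 ^ (2 * b - 1) * k.w x)) := by (clear * - h2 h0 hw; gcongr)
      _ = exp (14 * k.σ x) * exp (c.gm γ a * k.σ x) * exp (c.gm γ b * k.σ x) /
          (η0 ^ (2 * (a + b) - 1) * k.w x) := by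
          rw [show 2 * (a + b) - 1 = 2 * a - 1 + (2 * b - 1) + 1 by omega, pow_succ, pow_add]
          field_simp
      _ ≤ _ := by (clear * - h4 h0 hw; gcongr)
  · have hnum := num hκ hγ ha hb
    have ga := gm1 hκ hγ a
    have gb := gm1 hκ hγ b
    obtain hg1 : 0 ≤ 3 * c.ck * (8 + 4 * c.gm γ b + 3) := by positivity
    obtain hq : 2 * (c.ck * (γ + c.gm γ a)) ≤ c.ck * (c.ck * (γ + c.gm γ a)) :=
      mul_le_mul_of_nonneg_right hck (by positivity)
    obtain hq' : 2 * (γ + c.gm γ a) ≤ c.ck * (γ + c.gm γ a) :=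
      mul_le_mul_of_nonneg_right hck (by positivity)
    refine (mix hA hC hκ hB h hn hi hin (by omega) (by positivity)).trans ?_
    obtain one : k.NN (k.nx x) (2 * b - 1 + 1) (3 * c.ck * (8 + 4 * c.gm γ b + 3)) i ≤
        exp ((3 * c.ck * (8 + 4 * c.gm γ b + 3) + 2) * k.σ x) / η0 ^ (2 * b - 1 + 1) →
        exp (c.gm γ a * k.σ x) / (η0 ^ (2 * a - 1) * k.w x) *
          k.NN (k.nx x) (2 * b - 1 + 1) (3 * c.ck * (8 + 4 * c.gm γ b + 3)) i ≤
        exp (c.gm γ (a + b) / 2 * k.σ x) / (η0 ^ (2 * (a + b) - 1) * k.w x) := by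
      intro hc
      refine (mul_le_mul_of_nonneg_left hc (by positivity)).trans ?_
      obtain h4 : exp (c.gm γ a * k.σ x) * exp ((3 * c.ck * (8 + 4 * c.gm γ b + 3) + 2) * k.σ x) ≤
          exp (c.gm γ (a + b) / 2 * k.σ x) := by
        rw [← exp_add, ← add_mul]
        exact exp_le_exp.2 (mul_le_mul_of_nonneg_right (by linarith only [hγ, hnum, ga, gb, hg1, hq, hq']) hs)
      refine le_trans (le_of_eq ?_) (div_le_div_of_nonneg_right h4 (by positivity))
      rw [show 2 * (a + b) - 1 = 2 * a - 1 + (2 * b - 1 + 1) by omega, pow_add _ (2 * a - 1)]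
      field_simp
    rcases lt_or_ge i x with hix | hix
    · rcases le_max_iff.1 (split hA hl h hn hi hin h0 h1 hg1 (2 * b - 1) (2 * a - 1)) with hc | hc
      · refine le_max_of_le_left ?_
        rw [if_neg (by omega)]
        refine one (hc.trans (div_le_div_of_nonneg_left (exp_pos _).le (by positivity) ?_))
        rw [pow_succ]
        exact mul_le_mul_of_nonneg_left (le_max_left _ _) (by positivity)
      · refine le_max_of_le_right ?_
        refine (mul_le_mul_of_nonneg_left hc (by positivity)).trans ?_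
        rw [← mul_assoc, show 2 * b - 1 + 1 + (2 * a - 1) = 2 * (a + b) - 1 by omega]
        obtain hC0 := gmC hκ hB (show a ≤ K + 2 by omega)
        obtain hC1 := gmC hκ hB (show 0 ≤ K + 2 by omega)
        rw [gm_zero] at hC1
        obtain hG : γ + c.gm γ a ≤ c.C0 := by linarith only [hγ, ga, hq, hq', hC0, hC1]
        obtain ht := transfer hA h hF hi hix (G := γ + c.gm γ a) (by positivity) (by nlinarith only [ga, hq, hq', hC0, hC1, hγ])
        refine absorb hA h hn hi hin _ hg1 (g' := c.ck * (γ + c.gm γ a) + 2) (by positivity)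
          (by linarith only [hγ, hnum, ga, gb, hq, hq']) (le_trans ?_ ht)
        calc exp (c.gm γ a * k.σ x) / (η0 ^ (2 * a - 1) * k.w x) * η0 ^ (2 * a - 1)
            = exp (c.gm γ a * k.σ x) / k.w x := by field_simp
          _ ≤ _ := by gcongr; linarith only [hγ]
    · refine le_max_of_le_left ?_
      rw [if_neg (by omega)]
      obtain hem : k.η x ≤ k.em (k.nx x) i := by
        unfold Sk.em
        refine (le_fold_min _).2 ⟨h1', fun y hy => ?_⟩
        obtain ⟨hD, y1, y2⟩ := mem_filter.1 hy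
        obtain ⟨yF, yN⟩ := h.1.D_mem y hD
        rcases lt_trichotomy y x with e | e | e
        · have := (h.1.nx_mem y yN).2.2 x hF e
          omega
        · rw [e]
        · have := hnx y yF e
          omega
      obtain h5 := ((a18 (k.nx x) (2 * b - 1 + 1) _ i hg1 (by omega)
        (hin.le.trans (h.1.F_mem _ hn).2)).2.2.2 hn hin).2.1
      refine one (h5.trans (div_le_div_of_nonneg_left (exp_pos _).le (by positivity) ?_))
      exact pow_le_pow_left₀ h0.le (hη.trans hem) _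

theorem ad5 (hA : TA_s c) (hC : TC_s c) (hκ : 0 < c.κ) (hl : 0 ≤ c.lam) : AD5_s K c := by
  intro k h n hn γ r τ τ' hB hr hτ hτ' hm hab
  have hγ := γ1 hB
  have hs := sl0 hl h (h.1.F_mem n hn).1
  have hck := ck2 hκ
  obtain hG := gm_step hκ hγ (show K + 1 < K + 2 by omega)
  have hG1 := gm1 hκ hγ (K + 1)
  obtain h7 : 2 * c.ck * c.gm γ (K + 1) ≤ c.ck ^ 2 * c.gm γ (K + 1) := by
    apply mul_le_mul_of_nonneg_right _ (by linarith only [hG1]); nlinarith only [hck]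
  obtain h8 : c.ck ≤ c.ck * c.gm γ (K + 1) := le_mul_of_one_le_right (by linarith only [hck]) hG1
  obtain ⟨-, -, -, -, -, -, -, -, -, -, -, -, -, a14, -, a16, -, a18⟩ := hA k h
  refine ⟨hτ, fun j _ => hτ' j, fun j i i' _ => le_rfl, fun j _ => hm j,
    fun a b i ha hb hr' hi hin => ?_, fun a b i ha hb hr' hi hin => ?_⟩
  · refine le_max_of_le_left (le_trans ?_ (hab a b ha hb hr').1)
    rw [mul_assoc, mul_comm]
    exact mul_le_mul_of_nonneg_left (a14 n hn i hi hin).1 (mul_nonneg (hτ a) (hτ b))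
  · refine le_max_of_le_left (le_trans ?_ (hab a b ha hb hr').2)
    obtain hb' := gm_mono hκ hγ (show b ≤ K + 1 by omega)
    have hb1 := gm1 hκ hγ b
    refine (mix hA hC hκ hB h hn hi hin (by omega) (hτ a)).trans ?_
    obtain h1 := ((a18 n (2 * b - 1 + 1) (3 * c.ck * (8 + 4 * c.gm γ b + 3)) i (by positivity)
      (by omega) (hin.le.trans (h.1.F_mem n hn).2)).2.2.2 hn hin).2.1
    obtain ⟨e0, -, e2, -⟩ := a16 n i
    obtain h2 : 1 / k.em n i ^ (2 * b - 1 + 1) ≤ k.rh n ^ b := by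
      rw [show 2 * b - 1 + 1 = 2 * b by omega, pow_mul, ← one_pow b, ← div_pow]
      exact pow_le_pow_left₀ (by positivity) e2 b
    obtain h3 : c.ck * c.gm γ b ≤ c.ck * c.gm γ (K + 1) := mul_le_mul_of_nonneg_left hb' (by linarith only [hck])
    obtain h4 : exp ((3 * c.ck * (8 + 4 * c.gm γ b + 3) + 2) * k.sl n) ≤
        exp (c.gm γ (K + 2) * k.sl n) :=
      exp_le_exp.2 (mul_le_mul_of_nonneg_right (by linarith only [hck, hG, h7, h8, h3]) hs)
    rw [div_eq_mul_one_div] at h1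
    rw [mul_assoc (τ a), mul_comm (k.rh n ^ b)]
    exact mul_le_mul_of_nonneg_left (h1.trans (mul_le_mul h4 h2 (by (clear * - e0; positivity)) (exp_pos _).le)) (hτ a)

end AD

theorem AD4 (K : ℕ) : Hier fun c => TA_s c → TC_s c → AD4_s K c :=
  AD.base.mono fun _ h hA hC => AD.ad4 hA hC h.1 h.2

theorem AD5 (K : ℕ) : Hier fun c => TA_s c → TC_s c → AD5_s K c :=
  AD.base.mono fun _ h hA hC => AD.ad5 hA hC h.1 h.2

end
end Pool.Agent.MP_9cbfe4_an

end

/-! ### Part EBX -/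

section

/-! Glue of section E, row EBX: the box lemma (helper27). -/

namespace Pool.Agent.MP_9cbfe4_an

open Finset Real

noncomputable section

namespace EBX

theorem rel_mono {c : Cs} {S S' : Sq} {ξ ξ' : ℤ → ℝ} {s s' : ℤ} {θ κ ℓ ℓ' μ : ℝ}
    (h : S.Rel c S' ξ ξ' s s' θ κ ℓ μ) (hk : 0 ≤ κ * c.L) (h0 : 0 ≤ ℓ) (hl : ℓ ≤ ℓ') :
    S.Rel c S' ξ ξ' s s' θ κ ℓ' μ := by
  obtain a1 : |S'.X s' - S.X s| + ℓ ≤ |S'.X s' - S.X s| + ℓ' := by linarith only [hl]
  obtain a2 := mul_le_mul_of_nonneg_left (pow_le_pow_left₀ (by (clear * - h0; positivity)) a1 2) hk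
  exact ⟨h.sm, h.prev.trans a2, h.d1.trans a2, h.d2.trans (mul_le_mul_of_nonneg_left a1 hk)⟩

/-- `e^x ≤ 1/1000` for `x ≤ -1000` -/
theorem exp_small {x : ℝ} (h : x ≤ -1000) : exp x ≤ 1 / 1000 := by
  have a1 : exp x ≤ exp (-1000) := exp_le_exp.2 h
  obtain a2 : (1000 : ℝ) ≤ exp 1000 := by linarith only [add_one_le_exp (1000 : ℝ)]
  rw [exp_neg] at a1
  rw [one_div]
  exact a1.trans (inv_anti₀ (by norm_num) a2)

/-- the final arithmetic -/
theorem fin {dl ι A ξ w x z ε : ℝ} (w0 : 0 < w) (z0 : 0 ≤ z) (hA : 98 / 100 * dl - 2 * ι ≤ |A|)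
    (hξ : w ≤ 2 * |ξ|) (hx : |x| ≤ 813 * (z * w)) (he : |x - A * ξ| ≤ ε * w)
    (hε : ε ≤ dl / 100 + ι) (hι : ι ≤ z) : dl ≤ 2000 * z := by
  obtain a1 : |A * ξ| ≤ |x| + |x - A * ξ| := by
    obtain e : A * ξ = x - (x - A * ξ) := by ring
    calc |A * ξ| = |x - (x - A * ξ)| := congrArg _ e
      _ ≤ _ := abs_sub _ _
  rw [abs_mul] at a1
  have a2 := mul_le_mul_of_nonneg_left hξ (abs_nonneg A)
  obtain a3 : |A| * w ≤ (1626 * z + 2 * ε) * w := by linarith only [hx, he, a1, a2]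
  have a4 := le_of_mul_le_mul_right a3 w0
  linarith only [z0, hA, hε, hι, a4]

end EBX

open EBX

theorem ebx' {K : ℕ} {c : Cs} (hTA : TA_s c) (hVC : EVC_s K c) (hST : VST_s K c) (hJ6 : VJ6_s K c)
    (hRET : RET_s c) : EBX_s K c := by
  intro M k y ν0 σ σ' d d' f f' p q N P Q T e D μ ad ht ip iq hμ hD hu _ hdl
  have hk := N.ok
  have pt : p.t = d.t := congrArg E.Pr.t P.eq
  have qt : q.t = d'.t := congrArg E.Pr.t Q.eq
  rw [pt, qt] at ht
  obtain ⟨vc, hchi⟩ := hVC M k y σ d f p N P e D μ ad ip hu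
  obtain ⟨n0, -, en⟩ := P.en
  have eN : e < p.N := ip.1
  have ie : p.InR k e := ad.inr
  obtain iqe : q.InR k e := ⟨by have := iq.1; omega, (Q.ok.mono e iq.1).trans iq.2⟩
  have ff : f' e = f e := (T.same e ie iqe).symm
  have nR := abs_le.1 ((T.near e ie iqe).2.2 ip iq)
  set s := d.sk c M with hs
  set n := f e with hn
  set R := p.R e with hR
  set dl := |p.lab - q.lab| with hdl'
  set χ := s.chi 0 n with hχ
  have dl0 : 0 ≤ dl := abs_nonneg _
  -- numbers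
  rw [hk.G_eq] at hμ hD hdl hchi ⊢
  have u1 := hk.u_big
  have G1 := hk.G_ge
  have s1 := hk.ς_big
  have ρ1 := hk.G_le
  have W1 := hk.Wc_ge
  have K1 : (0 : ℝ) ≤ K := Nat.cast_nonneg _
  have g10 : 10 ≤ k.g := hk.g10
  obtain C0g : k.g ≤ c.C0 := by
    obtain a1 : (1 : ℝ) ≤ (K + 1) ^ 2 := one_le_pow₀ (by linarith only [])
    linarith only [N.C0g, mul_le_mul_of_nonneg_right a1 (by linarith only [g10] : 0 ≤ k.g), g10]
  obtain C01 : 1 ≤ c.C0 := by linarith only [C0g, g10]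
  have lam1 : 1 ≤ c.lam := (one_le_pow₀ C01).trans N.lam
  obtain lamς : c.lam ≤ k.ς :=
    (le_mul_of_one_le_left (by linarith only [lam1]) (C01.trans N.C1.1)).trans N.C1.2
  obtain yW : 2000 * k.Wc ≤ y := by
    obtain this : 0 ≤ K * k.Wc := mul_nonneg K1 (by linarith only [G1, s1, ρ1, W1])
    linarith only [this, N.tiny]
  have Rst0 := p.toSk.Rst_nonneg e
  obtain hS0 : c.S0 y ≤ exp (k.ς / 100) := exp_le_exp.2 (by linarith only [N.S0.2])
  obtain S10 : 1000 ≤ c.S0 y := by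
    have a1 : exp 10 ≤ c.S0 y := exp_le_exp.2 N.S0.1
    obtain a2 : (2 : ℝ) ≤ exp 1 := by linarith only [add_one_le_exp (1 : ℝ)]
    obtain a3 := pow_le_pow_left₀ (by norm_num) a2 10
    rw [← exp_nat_mul] at a3
    norm_num at a3
    linarith only [a1, a3]
  have nF : n ∈ s.F := P.dic.mem e eN.le
  have hw : s.w n = exp (p.ω e) := P.dic.w e eN.le
  have hW : s.W n = p.W e := (en.W e eN.le).symm
  have w0 : 0 < s.w n := hw ▸ exp_pos _
  have We : p.W e ≤ k.Wc := ie.2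
  have D0 := ad.D0
  have DR : D ≤ exp (-2 * R - k.G) := (log_le_iff_le_exp D0).1 hD
  obtain DS : D ≤ exp (-2 * p.Rst e - k.G) := by
    refine (log_le_iff_le_exp D0).1 ?_
    have a1 := ad.clip
    rw [hk.G_eq] at a1
    linarith only [a1, mul_nonneg hk.θpos.le Rst0]
  have μ0 : 0 ≤ μ := vc.ν0
  set ι := tiny y with hι
  have ι0 : 0 < ι := exp_pos _
  set δ := c.S0 y * dl + ι with hδ
  obtain δ0 : 0 ≤ δ := by (clear * - S10 ι0; positivity)
  obtain δW : δ * exp (p.W e) ≤ 2 * exp (k.ς / 100 - k.G) := by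
    obtain a1 : c.S0 y * (dl * exp (p.W e)) ≤ exp (k.ς / 100) * exp (-k.G) :=
      mul_le_mul hS0 hdl (by (clear * -; positivity)) (exp_pos _).le
    obtain a2 : ι * exp (p.W e) ≤ exp (k.ς / 100 - k.G) := by
      rw [hι, tiny, ← exp_add]
      exact exp_le_exp.2 (by linarith only [G1, s1, ρ1, W1, yW, We])
    rw [← exp_add, ← sub_eq_add_neg] at a1
    linarith only [a1, a2]
  have jq := Q.jc e iqe
  obtain j0 := T.jet 0 (by norm_num)
  simp only [iteratedDeriv_zero] at j0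
  obtain cl : VCl c σ d.t s n k.ς D δ d'.t (σ'.v d'.t) (σ'.c d'.t) := by
    refine ⟨ht, by rw [abs_sub_comm]; exact j0.1, by rw [abs_sub_comm]; exact j0.2, ?_,
      jq.at'.bv, jq.at'.bc⟩
    rw [hW]
    obtain a1 : exp (k.ς / 100 - k.G) ≤ 1 / 1000 * exp (-k.ς) := by
      obtain this := mul_le_mul_of_nonneg_right
        (exp_small (x := k.ς / 100 - k.G + k.ς) (by linarith only [G1, s1])) (exp_pos (-k.ς)).le
      rwa [← exp_add, add_neg_cancel_right] at this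
    linarith only [δW, a1, exp_pos (-k.ς)]
  have st := hST M σ d.t s (d.O M) _ n k.ς D _ μ _ δ d'.t _ _ vc cl
  have rel := (hJ6 M σ d.t s (d.O M) _ n k.ς D _ μ _ δ d'.t _ _ vc cl).2
  change (σ.orb M d.t).Rel c (σ'.orb M d'.t) _ ((σ'.orb M d'.t).fr 1) _ _ _ _ _ _ at rel
  change |(σ'.orb M d'.t).X n - _ - _| ≤ _ at st
  -- the return
  obtain ⟨far, h, U, e1, n1, r1, w1⟩ := P.nr e ip (by linarith only [hu, u1])
  obtain ⟨-, h', U', e2, n2, r2, w2⟩ := Q.nr e iq (by linarith only [hu, nR, u1])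
  rw [ff] at n2 r2 w2
  rw [if_pos far] at rel
  obtain L0 : 0 ≤ c.L := by linarith only [jq.at'.bv, abs_nonneg (σ'.v d'.t)]
  obtain D2a : sqrt (max D (exp (-χ / 5))) ≤ exp (-R - k.G / 2) := by
    refine sqrt_le_iff.2 ⟨(exp_pos _).le, ?_⟩
    rw [← exp_nat_mul]
    refine max_le (DR.trans (exp_le_exp.2 ?_)) (exp_le_exp.2 ?_) <;> push_cast <;> linarith only [hu, hchi, u1, G1, s1, Rst0]
  have rel' := rel_mono (ℓ' := exp (-(c.lam + R - 1))) rel (by (clear * - lam1 L0; positivity)) (by positivity) (by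
    refine (mul_le_mul_of_nonneg_left D2a (exp_pos _).le).trans ?_
    rw [← exp_add]
    exact exp_le_exp.2 (by linarith only [G1, s1, lamς]))
  rw [e1, e2] at rel'
  have ret := hRET (Ex2 K c M) M d.toFd d'.toFd _ h _ h' n U U' _ _ _ (c.lam + R - 1)
    vc.jc.oc.ok.ok n1 n2 (by norm_num) (by norm_num) le_rfl
    (r1.trans (exp_le_exp.2 (by linarith only []))) (r2.trans (exp_le_exp.2 (by linarith only [nR]))) rel'
    (w1 _ (by linarith only [])) (w2 _ (by linarith only [nR])) (by linarith only [hu, u1, lam1])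
    (by rw [← exp_add, neg_add_cancel, exp_zero]; norm_num) (by
      refine (mul_le_mul_of_nonneg_right (ht.trans DR) (exp_pos _).le).trans ?_
      rw [← exp_add]
      exact exp_le_one_iff.2 (by linarith only [hu, u1, G1, s1, lamς]))
  rw [← e1, ← e2] at ret
  -- the tube
  obtain n0' : 0 ≤ n := by have := vc.n1; omega
  obtain tube := (vc.j4 d'.t ⟨by linarith only [(abs_le.1 ht).1], by linarith only [(abs_le.1 ht).2]⟩).2.1.2.2.2
    n n0' le_rfl
  have w4 : s.w4 n = s.w n := (hTA s P.sk).2.2.1 n nF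
  obtain gm0 : 0 ≤ c.gm (K + 1) 1 := by unfold Cs.gm Cs.Cg; (clear * -; positivity)
  obtain gm1 : c.gm (K + 1) 1 ≤ c.C0 := by
    have ck := N.ck2
    obtain a1 : 1 ≤ c.Cg := by
      unfold Cs.Cg
      linarith only [one_le_pow₀ (n := 2) (by linarith only [ck] : 1 ≤ c.ck)]
    obtain a2 : c.gm (K + 1) 1 ≤ c.gm (K + 1) (K + 2) :=
      mul_le_mul_of_nonneg_left (pow_le_pow_right₀ a1 (by omega)) (by (clear * -; positivity))
    have a3 := gm0.trans a2
    linarith only [N.g1, a2, a3, mul_le_mul_of_nonneg_right ck a3, C0g]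
  obtain σς : c.gm (K + 1) 1 * s.σ n ≤ k.ς := by
    have a1 := P.sl (e + 1) ip _ le_rfl
    rw [en.nx e eN] at a1
    have a2 := (hTA s P.sk).2.2.2.2.1 n (P.sk.1.F_mem n nF).2
    exact (mul_le_mul_of_nonneg_right gm1 (by linarith only [lam1, a2])).trans a1
  obtain NN : s.NN n 1 (c.gm (K + 1) 1) n ≤ exp k.ς := by
    obtain a1 := P.dic.NN e e le_rfl eN.le 1 _ (k.ς - p.ω e) gm0 (by linarith only [σς])
      fun x h1 h2 => by omega
    rwa [div_le_iff₀ w0, hw, ← exp_add, sub_add_cancel] at a1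
  set z := exp (-R - p.ω e) with hz
  have z0 : 0 < z := exp_pos _
  obtain zw : z * s.w n = exp (-R) := by rw [hz, hw, ← exp_add, sub_add_cancel]
  obtain t1 : |(σ.orb M d'.t).X n - (σ.orb M d.t).X n| ≤ 513 * (z * s.w n) := by
    refine tube.trans ?_
    rw [Sk.mu, w4, zero_mul, add_zero]
    obtain a1 : μ ≤ z := hμ.trans (exp_le_exp.2 (by linarith only [G1, s1]))
    have a2 := mul_le_mul_of_nonneg_right a1 w0.le
    obtain a3 : D * s.NN n 1 (c.gm (K + 1) 1) n ≤ exp (-R) := by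
      refine (mul_le_mul_of_nonneg_left NN D0.le).trans
        ((mul_le_mul_of_nonneg_right DR (exp_pos _).le).trans ?_)
      rw [← exp_add]
      exact exp_le_exp.2 (by linarith only [hu, u1, G1, s1])
    linarith only [zw, a2, a3]
  obtain t2 : |(σ'.orb M d'.t).X n - (σ.orb M d'.t).X n| ≤ 813 * (z * s.w n) := by
    obtain a1 : exp (-(c.lam + R - 1)) ≤ exp (-R) := exp_le_exp.2 (by linarith only [lam1])
    have a2 := abs_sub_le ((σ'.orb M d'.t).X n) ((σ.orb M d.t).X n) ((σ.orb M d'.t).X n)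
    rw [abs_sub_comm] at t1
    linarith only [ret, zw, t1, a1, a2]
  -- the slope
  obtain ιS : ι * c.S0 y ≤ 1 / 1000 := by
    refine (mul_le_mul_of_nonneg_left hS0 ι0.le).trans ?_
    rw [hι, tiny, ← exp_add]
    exact exp_small (by linarith only [G1, s1, ρ1, W1, yW])
  obtain χS : exp (-χ / 4) * c.S0 y ≤ 1 / 1000 := by
    refine (mul_le_mul_of_nonneg_left hS0 (exp_pos _).le).trans ?_
    rw [← exp_add]
    exact exp_small (by linarith only [hu, hchi, u1, G1, s1, Rst0])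
  obtain nS : |(σ.orb M d.t).nu1 n - ν0| * c.S0 y ≤ 1 / 100 := by
    have a1 := abs_sub_le ((σ.orb M d.t).nu1 n) ((σ.orb M d.t).nu1 (σ.J - d.n)) ν0
    obtain a2 : |(σ.orb M d.t).nu1 n - ν0| ≤ exp (-χ / 4) + ι + 1 / (2 * c.S0 y ^ 2) := by
      linarith only [a1, P.nu e ie, T.nu.1]
    obtain a3 := mul_le_mul_of_nonneg_right a2 (by linarith only [S10] : 0 ≤ c.S0 y)
    obtain a4 : 1 / (2 * c.S0 y ^ 2) * c.S0 y ≤ 1 / 1000 := by
      rw [div_mul_eq_mul_div, div_le_iff₀ (by positivity)]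
      linarith only [mul_le_mul_of_nonneg_right S10 (by linarith only [S10] : 0 ≤ c.S0 y), S10]
    linarith only [ιS, χS, a3, a4]
  obtain hA : 98 / 100 * dl - 2 * ι ≤ |σ'.v d'.t - σ.v d'.t
      - (σ.orb M d.t).nu1 n * (σ'.c d'.t - σ.c d'.t)| := by
    have a0 := abs_nonneg ((σ.orb M d.t).nu1 n - ν0)
    obtain a1 : |((σ.orb M d.t).nu1 n - ν0) * (σ'.c d'.t - σ.c d'.t)| ≤ dl / 100 + ι := by
      rw [abs_mul]
      refine (mul_le_mul_of_nonneg_left cl.hc a0).trans ?_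
      have b1 := mul_le_mul_of_nonneg_right nS dl0
      obtain b2 : |(σ.orb M d.t).nu1 n - ν0| ≤ 1 := by
        linarith only [mul_le_mul_of_nonneg_left S10 a0, nS, a0]
      have b3 := mul_le_mul_of_nonneg_right b2 ι0.le
      rw [hδ]
      linarith only [b1, b3]
    have a2 := abs_le.1 T.lab
    have a3 := abs_le.1 a1
    have a4 := le_abs_self (σ'.v d'.t - σ.v d'.t - (σ.orb M d.t).nu1 n * (σ'.c d'.t - σ.c d'.t))
    have a5 := neg_le_abs (σ'.v d'.t - σ.v d'.t - (σ.orb M d.t).nu1 n * (σ'.c d'.t - σ.c d'.t))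
    rcases abs_cases (p.lab - q.lab) with h1 | h1 <;> linarith only [a5, a4, h1.1, a2.1, a2.2, a3.1, a3.2]
  obtain hε : exp k.ς * (max D (exp (-χ / 5)) * exp (2 * p.Rst e) + (μ + δ) * exp (s.W n)) * δ
      ≤ dl / 100 + ι := by
    obtain a1 : max D (exp (-χ / 5)) * exp (2 * p.Rst e) ≤ exp (-k.G) := by
      obtain this : max D (exp (-χ / 5)) ≤ exp (-2 * p.Rst e - k.G) :=
        max_le DS (exp_le_exp.2 (by linarith only [hu, hchi, u1, G1, s1, Rst0]))
      refine (mul_le_mul_of_nonneg_right this (exp_pos _).le).trans ?_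
      rw [← exp_add]
      exact exp_le_exp.2 (by linarith only [])
    have a2 := ad.val
    rw [hk.G_eq] at a2
    obtain a3 : exp (-k.G) ≤ exp (k.ς / 100 - k.G) := exp_le_exp.2 (by linarith only [s1])
    obtain a4 : 0 ≤ μ * exp (p.W e) := by (clear * - μ0; positivity)
    obtain a5 : max D (exp (-χ / 5)) * exp (2 * p.Rst e) + (μ + δ) * exp (s.W n)
        ≤ 4 * exp (k.ς / 100 - k.G) := by
      rw [hW]
      linarith only [δW, a1, a2, a3, a4]
    obtain a6 : exp k.ς * exp (k.ς / 100 - k.G) * c.S0 y ≤ 1 / 1000 := by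
      refine (mul_le_mul_of_nonneg_left hS0 (by positivity)).trans ?_
      rw [← exp_add, ← exp_add]
      exact exp_small (by linarith only [G1, s1])
    have a7 := mul_le_mul_of_nonneg_right (mul_le_mul_of_nonneg_left a5 (exp_pos k.ς).le) δ0
    refine a7.trans ?_
    obtain a8 : 0 ≤ exp k.ς * exp (k.ς / 100 - k.G) := by positivity
    generalize exp (k.ς / 100 - k.G) = B at a6 a8
    obtain a9 : exp k.ς * B ≤ 1 / 1000 := by
      linarith only [mul_le_mul_of_nonneg_left S10 a8, a6, a8]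
    have b1 := mul_le_mul_of_nonneg_right a6 dl0
    have b2 := mul_le_mul_of_nonneg_right a9 ι0.le
    rw [hδ]
    linarith only [dl0, ι0, b1, b2]
  obtain ιz : ι ≤ z := by
    have a1 := P.ok.up e eN
    have a2 := hk.Λ_le
    have a3 := hk.φ_le
    have a4 := hk.u_le
    exact exp_le_exp.2 (by linarith only [u1, G1, ρ1, W1, yW, a1, a2, a3, a4, ip.2])
  have res := fin w0 z0.le hA (vc.jc.oc.fit.f2 n nF le_rfl) t2 st hε ιz
  refine res.trans ?_
  rw [hz, show k.G - R - p.ω e = k.G + (-R - p.ω e) by ring, exp_add]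
  exact mul_le_mul_of_nonneg_right (by linarith only [G1, s1, add_one_le_exp k.G]) (exp_pos _).le

theorem ebx (K : ℕ) : Hier fun c => TA_s c → EVC_s K c → VST_s K c → VJ6_s K c → RET_s c → EBX_s K c :=
  Hier.of_all fun _ => ebx'

end
end Pool.Agent.MP_9cbfe4_an

end

/-! ### Part ENEAR -/

section

/-! Glue of section E, row ENEAR: two enumerations of one class agree in the early range (helper28). -/

namespace Pool.Agent.MP_9cbfe4_an

open Real

namespace ENEAR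

theorem inr_pred {k : E.Par} {p : E.Pr} (h : p.toSk.OK k.toEK) {l : ℕ} (hl : p.InR k (l + 1)) :
    p.InR k l :=
  ⟨(Nat.le_succ l).trans hl.1, (h.mono l hl.1).trans hl.2⟩

theorem row (c : Cs) : ENEAR_s c := by
  intro k s s' n n' f f' p q hs hs' hn hn' e e' d d' hp hq sm
  have nN := (hs.1.F_mem n hn).2
  have nN' := (hs'.1.F_mem n' hn').2
  obtain same : ∀ l, p.InR k l → q.InR k l → f l = f' l := by
    intro l
    induction l with
    | zero => exact fun _ _ => e.f0.trans e'.f0.symm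
    | succ l ih =>
      intro a b
      have h := ih (inr_pred hp a) (inr_pred hq b)
      have m1 := ((sm.F (f (l + 1))).1 ⟨d.mem _ a.1, (e.W _ a.1).symm.trans_le a.2⟩).1
      have m2 := ((sm.F (f' (l + 1))).2 ⟨d'.mem _ b.1, (e'.W _ b.1).symm.trans_le b.2⟩).1
      have l1 := (d.mono l (l + 1) (Nat.lt_succ_self l) a.1).1
      have l2 := (d'.mono l (l + 1) (Nat.lt_succ_self l) b.1).1
      have u1 := (hs.1.nx_mem (f l) ((e.lt l a.1).trans_le nN)).2.2 _ m2 (h.trans_lt l2)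
      have u2 := (hs'.1.nx_mem (f' l) ((e'.lt l b.1).trans_le nN')).2.2 _ m1 (h.symm.trans_lt l1)
      rw [← e.nx l a.1] at u1
      rw [← e'.nx l b.1] at u2
      exact le_antisymm u1 u2
  refine ⟨same, fun l a b => ?_⟩
  have h := same l a b
  obtain ⟨w1, w2⟩ := sm.W (f l) (d.mem l a.1) ((e.W _ a.1).symm.trans_le a.2)
  refine ⟨by rwa [e.W l a.1, e'.W l b.1, ← h], by rwa [e.ω l a.1, e'.ω l b.1, ← h], fun a' b' => ?_⟩
  obtain ⟨d1, d2⟩ := sm.D (f l) (d.mem l a.1) ((e.lt l a'.1).trans_le nN)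
    (by rw [← e.nx l a'.1, ← e.W _ a'.1]; exact a'.2)
  rw [e.R l a'.1, e'.R l b'.1, ← h]
  by_cases hD : f l ∈ s.D
  · rw [if_pos hD, if_pos (d1.1 hD), neg_sub_neg, abs_sub_comm]
    exact d2 hD
  · rw [if_neg hD, if_neg fun x => hD (d1.2 x), sub_self, abs_zero]
    exact zero_le_one

end ENEAR

end Pool.Agent.MP_9cbfe4_an

end

/-! ### Part TRC -/

section

/-! Row TRC: truncation of a datum at a free time. -/

namespace Pool.Agent.MP_9cbfe4_an

namespace TRC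

theorem suf {c : Cs} {Ex : ExT} {S : Sq} {ξ : ℤ → ℝ} {s : ℤ}
    {P : List (ℤ × ℝ) → ℤ → ℝ → Prop} (Ls : List (ℤ × ℝ)) : ∀ m, S.Run c Ex ξ s P Ls m →
    (∀ z ∈ Ls, z.1 < m) ∧ ∀ x ∈ Ls, S.Run c Ex ξ s P (Ls.filter fun z => z.1 < x.1) x.1 ∧
      P (Ls.filter fun z => z.1 < x.1) x.1 x.2 := by
  induction Ls with
  | nil => simp
  | cons x0 Ls ih =>
    obtain ⟨n1, r1⟩ := x0
    intro m run
    obtain ⟨run', pb, lt, -⟩ := Sq.Run.tail _ _ run
    obtain ⟨a, b⟩ := ih n1 run'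
    refine ⟨fun z hz => ?_, fun x hx => ?_⟩
    · rcases List.mem_cons.1 hz with rfl | hz
      · exact lt
      · exact (a z hz).trans lt
    · rcases List.mem_cons.1 hx with rfl | hx
      · obtain e : (((n1, r1) :: Ls).filter fun z => z.1 < n1) = Ls := by
          rw [List.filter_cons_of_neg (by simp)]
          exact List.filter_eq_self.2 fun z hz => by simpa using a z hz
        simp only [e]
        exact ⟨run', pb⟩
      · obtain e : (((n1, r1) :: Ls).filter fun z => z.1 < x.1) = Ls.filter fun z => z.1 < x.1 :=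
          List.filter_cons_of_neg (by simpa using (a x hx).le)
        rw [e]
        exact b x hx

theorem trc_of {K : ℕ} {c : Cs} (hL : 0 ≤ c.L) (hC : 0 ≤ c.C0) (hF : FR_s K c) : TRC_s c := by
  intro Ex M d hM hd x hx r hr
  have el := (hF Ex M d hM hd).1 x hx
  obtain ⟨a, b⟩ := suf d.Ls d.p hd.run
  obtain ⟨L, -, bd, -⟩ := el.run
  have hV : (d.S M).Wt c ((d.S M).fr (d.n + 1)) (d.n + 1) x.1 r ≤ d.V c M :=
    max_le el.lev.2 (le_trans (add_le_add le_rfl hr) el.lev.1)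
  refine ⟨hd.ht, hd.hv, hd.hn, hd.sol,
    fun y hy => hd.tame y (hy.trans (mul_le_mul_of_nonneg_left hV hC)), ?_,
    Sq.Bd.anti _ _ bd hr, Sq.Wit.anti _ _ hL el.wit hr, ?_⟩
  · rcases List.mem_cons.1 hx with rfl | hx
    · obtain e : (d.Ls.filter fun z => z.1 < d.p) = d.Ls :=
        List.filter_eq_self.2 fun z hz => by simpa using a z hz
      show (d.S M).Run c Ex _ _ _ (d.Ls.filter fun z => z.1 < d.p) d.p
      rw [e]; exact hd.run
    · exact (b x hx).1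
  · rcases List.mem_cons.1 hx with rfl | hx
    · exact hr.trans hd.cap
    · have h1 := (b x hx).2.2.c1
      exact hr.trans (le_trans (h1.trans (le_add_of_nonneg_right zero_le_one)) (le_max_right _ _))

end TRC

theorem trc (K : ℕ) : Hier fun c => FR_s K c → TRC_s c :=
  ((Hier.L_ge (fun _ => 0) fun _ _ => rfl).and (Hier.C0_ge fun _ _ _ _ => 0)).mono
    fun _ h => TRC.trc_of h.1 h.2

end Pool.Agent.MP_9cbfe4_an

end

/-! ### Part KEY -/

section

/-! Row KEY: the classes of skeletons. -/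

namespace Pool.Agent.MP_9cbfe4_an

open Finset

noncomputable section
namespace KEY

structure Num (K : ℕ) (c : Cs) : Prop where
  lam : 10 ^ 12 * ((K : ℝ) + 1) ≤ c.lam
  L : 1 ≤ c.L
  ep0 : 0 < c.ε
  ep1 : c.ε ≤ 1
  C1 : 0 ≤ c.C1
  d0 : 0 ≤ c.del
  d1 : c.del * (10 ^ 13 * (K + 1)) ≤ 1

lemma num (K : ℕ) : Hier (Num K) := by
  obtain hε := (Hier.ε_le_pow (fun _ => 1) 0 (by norm_num) (fun _ _ _ _ _ _ _ _ => rfl)
    (.of_all fun _ => one_pos)).mono (Q := fun c => 0 < c.ε ∧ c.ε ≤ 1) fun c h => by simpa using h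
  obtain hC := ((Hier.C0_ge fun _ _ _ _ => 1).and (Hier.C1_ge fun _ _ _ _ _ => 1)).mono
    (Q := fun c => 0 ≤ c.C1 ∧ 0 < 3 * (1 + 6 * c.C0 * c.C1)) fun c h => by
      obtain this := h.1; have := h.2; exact ⟨by positivity, by positivity⟩
  obtain hd := Hier.d1_le (fun c => 1 / (3 * (1 + 6 * c.C0 * c.C1) * (10 ^ 13 * (K + 1))))
    (fun _ _ _ _ _ => rfl) (hC.mono fun _ h => one_div_pos.2 (mul_pos h.2 (by positivity)))
  have h2 := Hier.lam_ge (fun _ => 10 ^ 12 * ((K : ℝ) + 1)) fun _ _ => rfl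
  have h3 := Hier.L_ge (fun _ => 1) fun _ _ => rfl
  refine (hε.and <| hC.and <| hd.and <| h2.and h3).mono ?_
  rintro c ⟨⟨ε0, ε1⟩, ⟨C1, C⟩, ⟨d0, d1⟩, l1, l2⟩
  obtain e : c.del = c.d1 * (3 * (1 + 6 * c.C0 * c.C1)) := by unfold Cs.del; ring
  refine ⟨l1, l2, ε0, ε1, C1, e ▸ (mul_pos d0 C).le, ?_⟩
  rw [e, mul_assoc]
  exact (le_div_iff₀ (mul_pos C (by positivity))).1 d1

variable {K : ℕ} {c : Cs} {M : Mdl}

lemma frs_iff (d : Dat) (a : ℤ) : a ∈ frs d.Ls d.p ↔ ∃ z ∈ d.Lf, z.1 = a := by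
  simp [frs, Dat.Lf, eq_comm]

lemma F_iff (d : Dat) (m : ℤ) : m ∈ (d.sk c M).F ↔ ∃ z ∈ d.Lf, z.1 = d.n + m := by
  rw [← frs_iff]
  exact mem_image.trans ⟨fun ⟨a, h, e⟩ => by rwa [← e, add_sub_cancel], fun h =>
    ⟨_, h, add_sub_cancel_left _ _⟩⟩

lemma W_mono (d : Dat) {a b : ℤ} (h : a ≤ b) : d.toFd.W c M a ≤ d.toFd.W c M b :=
  Real.log_le_log (lt_of_lt_of_le one_pos (Sq.one_le_AA c _ _ _ _)) (Sq.AA_mono c _ _ _ h)

/-- the datum cut at `x` -/
def tr (d : Dat) (x : ℤ × ℝ) : Dat := ⟨d.toFd, d.Ls.filter fun z => z.1 < x.1, x.1, min x.2 0⟩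

/-- what the key says about one datum -/
structure Inf (c : Cs) (M : Mdl) (X : ℝ) (d : Dat) (π : Prof) (q : ℤ) : Prop where
  T : ∀ m, m ∈ π.T ↔ m ∈ (d.sk c M).F ∧ (d.sk c M).W m ≤ X
  W : ∀ m ∈ π.T, π.Wr m ≤ (d.sk c M).W m ∧ (d.sk c M).W m ≤ π.Wr m + 1 ∧
    π.lw m ≤ Real.log ((d.sk c M).w m) ∧ Real.log ((d.sk c M).w m) ≤ π.lw m + 1
  nx : ∀ m ∈ (d.sk c M).F, m < (d.sk c M).N → (d.sk c M).W ((d.sk c M).nx m) ≤ X →
    m ∈ π.T ∧ m < q
  D : ∀ m ∈ (d.sk c M).D, m < q → (π.sr m : ℝ) - 1 ≤ c.lam - Real.log ((d.sk c M).η m) ∧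
    c.lam - Real.log ((d.sk c M).η m) ≤ π.sr m
  len : (π.T.card : ℝ) ≤ 10 * (X + c.lam + 10) / c.lam + 12
  hd : π.head?.map Prod.fst = some q

lemma one (h : Num K c) (hO : SOK_s c) (hE : EXT_s c) (hT : TRC_s c) (hF : FR_s K c)
    (hD : PRD_s c) (hM : M.OK c) {X : ℝ} (hX : 0 ≤ X) {Ex} {d : Dat} (hd : d.Pre c Ex M) :
    ∃ d0 : Dat, d0.Pre c Ex M ∧ d0.V c M ≤ X + c.lam + 10 ∧ ∃ q, Inf c M X d (d0.prof c M) q := by
  classical
  obtain hl : 1 ≤ c.lam := by have := h.lam; have : (0 : ℝ) ≤ K := Nat.cast_nonneg _; (rename_i zq0; linarith only [zq0])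
  obtain ok : (d.S M).OK c := ((hO M hM d.t ⟨by linarith only [hd.ht.1], by linarith only [hd.ht.2]⟩).2.1 _
    hd.hv).2
  have out : (d.S M).Out c d.ξ d.n := ⟨hd.hn, hd.sol, (hd.tame _ le_rfl).1, (hd.tame _ le_rfl).2.1⟩
  obtain ⟨e1, -, e3, -, e5⟩ := hE Ex _ _ _ _ _ ok out hd.run
  have el := (hF Ex M d hM hd).1
  obtain ⟨a, ha, mx⟩ := exists_max_image ((frs d.Ls d.p).filter fun a => d.toFd.W c M a ≤ X) id
    ⟨d.n + 1, mem_filter.2 ⟨e1, by simpa [Fd.W, Sq.Wp, Sq.WW, Sq.AA_self] using hX⟩⟩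
  obtain ⟨ha, aX⟩ := mem_filter.1 ha
  obtain ⟨x, hx, rfl⟩ := (frs_iff d a).1 ha
  have mx' : ∀ b ∈ frs d.Ls d.p, d.toFd.W c M b ≤ X → b ≤ x.1 := fun b hb hW =>
    mx b (mem_filter.2 ⟨hb, hW⟩)
  have p0 : (tr d x).Pre c Ex M := hT Ex M d hM hd x hx _ (min_le_left _ _)
  obtain V0 : (tr d x).V c M ≤ X + c.lam + 10 := by
    have := (el x hx).wle
    have := min_le_right x.2 0
    exact max_le (show d.toFd.W c M x.1 ≤ _ by linarith only [hl, aX])
      (show Real.log |d.toFd.f M x.1| + min x.2 0 ≤ _ by (rename_i zq0; linarith only [aX, zq0, this]))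
  obtain ⟨q1, q2, q3, -, -, -, -, -, ⟨-, -, q9⟩, -⟩ := hD Ex M (tr d x) _ hM p0 rfl
  obtain eW : ∀ m, (d.sk c M).W m = d.toFd.W c M (d.n + m) := fun m => by rw [add_comm]; rfl
  obtain mem : ∀ z ∈ d.Ls, z.1 < x.1 → z ∈ (tr d x).Lf := fun z hz h1 =>
    List.mem_cons_of_mem _ (List.mem_filter.2 ⟨hz, by simpa using h1⟩)
  obtain hTT : ∀ m, m ∈ ((tr d x).prof c M).T ↔ m ∈ (d.sk c M).F ∧ (d.sk c M).W m ≤ X := by
    intro m
    rw [q1, F_iff, eW]
    constructor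
    · rintro ⟨z, hz, e⟩
      replace e : z.1 = d.n + m := e
      rcases List.mem_cons.1 hz with rfl | hz
      · exact ⟨⟨x, hx, e⟩, e ▸ aX⟩
      · obtain ⟨z1, z2⟩ := List.mem_filter.1 hz
        exact ⟨⟨z, List.mem_cons_of_mem _ z1, e⟩,
          e ▸ (W_mono d (le_of_lt (by simpa using z2))).trans aX⟩
    · rintro ⟨⟨z, hz, e⟩, hW⟩
      rcases (mx' _ ((frs_iff d _).2 ⟨z, hz, e⟩) hW).eq_or_lt with q | q
      · exact ⟨_, List.mem_cons_self, q.symm⟩
      · rcases List.mem_cons.1 hz with rfl | hz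
        · exact absurd (el x hx).lt.2 (not_le.2 (e.trans_lt q))
        · exact ⟨z, mem z hz (e ▸ q), e⟩
  refine ⟨_, p0, V0, x.1 - d.n, hTT, fun m hm => ?_, fun m hm h1 h2 => ?_, fun m hm h1 => ?_, ?_, rfl⟩
  · obtain ⟨z, hz, e⟩ := (F_iff d m).1 ((hTT m).1 hm).1
    obtain w : (d.sk c M).w m = |d.toFd.f M (d.n + m)| := by
      rw [← e, ← (el z hz).fr.rinv.whm, e, add_comm d.n m]; rfl
    obtain ⟨a1, a2, a3, a4, -⟩ := q3 m hm
    rw [eW, w]
    exact ⟨a1, a2, a3, a4⟩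
  · obtain ⟨b1, b2, -⟩ := e3 (m + d.n) (lt_sub_iff_add_lt.1 h1)
    obtain b3 : d.toFd.W c M (nxt d.Ls d.p (m + d.n)) ≤ X := by
      rw [eW] at h2
      rwa [show d.n + (d.sk c M).nx m = nxt d.Ls d.p (m + d.n) from add_sub_cancel _ _] at h2
    have := mx' _ b1 b3
    exact ⟨(hTT m).2 ⟨hm, eW m ▸ (W_mono d (by omega)).trans b3⟩, by omega⟩
  · obtain ⟨a, ha, rfl⟩ := mem_image.1 hm
    obtain ⟨a1, a2, a3⟩ := mem_filter.1 ha
    obtain ⟨_, -, -, -, -, -, b, -⟩ := (e5 a a1).2 a2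
    obtain g := q2 _ (mem (a, d.dp c M a) b (by simpa using h1))
    have w0 : 0 ≤ (d.S M).Wp c d.n a := Real.log_nonneg (Sq.one_le_AA c _ _ _ _)
    obtain cc : 0 ≤ c.cc ∧ c.cc ≤ c.lam := by
      have := h.ep0; have := h.ep1; unfold Cs.cc; constructor <;> (rename_i zq0; nlinarith only [zq0, hl, this])
    obtain c0 : 0 ≤ c.am * d.cW c M ((d.S M).Wp c d.n a) := by
      have := h.C1; have := h.ep0; have := cc.1
      have : 0 ≤ d.ld c M := Sq.load_nonneg _ _ _ _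
      exact mul_nonneg (by unfold Cs.am; (clear * -; positivity)) (le_min w0 (by (rename_i zq2 zq1 zq0; clear * - zq2 this zq1 w0 zq0; positivity)))
    obtain sr : ((tr d x).prof c M).sr (a - d.n) = ⌈d.dp c M a⌉₊ := by
      rw [Prof.sr, show ((tr d x).prof c M).get (a - d.n) = _ from g]
      exact if_pos (show c.cc ≤ d.dp c M a by linarith only [a3, c0, cc.2])
    obtain eη : (d.sk c M).η (a - d.n) = |(d.S M).rho (d.ζ M) a (nxt d.Ls d.p a)| := by
      simp only [Dat.sk, sub_add_cancel]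
    obtain ed : c.lam - Real.log ((d.sk c M).η (a - d.n)) = d.dp c M a := by
      have L := h.L
      rw [eη, Dat.dp, Sq.dep, Real.log_div (by positivity) fun q => ?_, Cs.lam]
      rw [Dat.dp, Sq.dep, q, div_zero, Real.log_zero] at a3
      linarith only [hl, a3, c0]
    obtain this := Nat.ceil_lt_add_one (show 0 ≤ d.dp c M a by linarith only [hl, a3, c0])
    rw [sr, ed]
    exact ⟨by linarith only [this], Nat.le_ceil _⟩
  · obtain this : (((tr d x).prof c M).T.card : ℝ) ≤ (tr d x).Lf.length := by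
      exact_mod_cast (List.toFinset_card_le _).trans (by simp [Dat.prof])
    refine this.trans (q9.trans ?_)
    (clear * - V0 hl; gcongr)

lemma main (h : Num K c) (hO : SOK_s c) (hE : EXT_s c) (hT : TRC_s c) (hF : FR_s K c)
    (hC : PRC_s K c) (hD : PRD_s c) : KEY_s K c := by
  intro h1 M hM X hX
  classical
  obtain K1 : (10 : ℝ) ≤ K := by exact_mod_cast h1.1.1
  have hl := h.lam
  obtain ex : ∀ d : Dat, ∃ d0 : Dat, d.Pre c (Ex2 K c M) M → d0.Pre c (Ex2 K c M) M ∧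
      d0.V c M ≤ X + c.lam + 10 ∧ ∃ q, Inf c M X d (d0.prof c M) q := fun d => by
    by_cases hd : d.Pre c (Ex2 K c M) M
    · exact (one h hO hE hT hF hD hM (by linarith only [hX, K1, hl]) hd).imp fun _ a _ => a
    · exact ⟨d, fun a => (hd a).elim⟩
  choose t ht using ex
  obtain ⟨U, cU, pU⟩ := hC h1 M hM (X + c.lam + 10) (by linarith only [hX, K1, hl])
  set N := 10 * (X + c.lam + 10) / c.lam + 12 with hN
  refine ⟨(U.filter fun π => (π.T.card : ℝ) ≤ N).biUnion fun π => {π} ×ˢ π.T.powerset,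
    fun d => ((t d).prof c M, ((t d).prof c M).T.filter fun m => m ∈ (d.sk c M).D), ?_,
    fun d hd => ?_, fun d d' hd hd' e => ?_⟩
  · obtain Nl : N * c.lam ≤ 50 * X := by
      rw [hN, add_mul, div_mul_cancel₀ _ (by linarith only [K1, hl])]; linarith only [hX, K1, hl]
    obtain N0 : 0 ≤ N := le_of_mul_le_mul_right (a := c.lam) (by
      rw [hN, add_mul, div_mul_cancel₀ _ (by linarith only [K1, hl])]; linarith only [hX, K1, hl]) (by linarith only [K1, hl])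
    obtain s1 : N * (10 ^ 9 * K) ≤ X / 2 := by nlinarith only [hX, K1, hl, Nl, N0]
    obtain s2 : 400 * c.del * (X + c.lam + 10 + c.lam) * (10 ^ 9 * K) ≤ X / 2 := by
      obtain a1 : c.del * (10 ^ 13 * K) ≤ 1 := by linarith only [h.d0, h.d1]
      obtain a2 : 0 ≤ c.del * K := mul_nonneg h.d0 (by linarith only [K1])
      nlinarith only [hX, K1, hl, a1]
    calc _ ≤ ((∑ π ∈ U.filter fun π => (π.T.card : ℝ) ≤ N, ({π} ×ˢ π.T.powerset).card : ℕ) : ℝ) :=
          Nat.cast_le.2 card_biUnion_le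
      _ ≤ ∑ _π ∈ U.filter fun π => (π.T.card : ℝ) ≤ N, Real.exp N := by
          rw [Nat.cast_sum]
          refine sum_le_sum fun π hπ => ?_
          rw [card_product, card_singleton, card_powerset, one_mul]
          push_cast
          calc (2 : ℝ) ^ π.T.card ≤ Real.exp 1 ^ π.T.card := by
                gcongr; linarith only [Real.add_one_le_exp 1]
            _ ≤ _ := by
                rw [← Real.exp_nat_mul, mul_one]; exact Real.exp_le_exp.2 (mem_filter.1 hπ).2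
      _ ≤ Real.exp (400 * c.del * (X + c.lam + 10 + c.lam)) * Real.exp N := by
          rw [sum_const, nsmul_eq_mul]
          gcongr
          exact le_trans (Nat.cast_le.2 (card_filter_le _ _)) cU
      _ ≤ _ := by
          rw [← Real.exp_add, Real.exp_le_exp, le_div_iff₀ (by positivity)]; linarith only [s1, s2]
  · obtain ⟨a1, a2, q, i⟩ := ht d hd
    exact mem_biUnion.2 ⟨_, mem_filter.2 ⟨pU _ a1 a2, i.len⟩,
      mem_product.2 ⟨mem_singleton_self _, mem_powerset.2 (filter_subset _ _)⟩⟩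
  obtain ⟨-, -, q, i⟩ := ht d hd
  obtain ⟨-, -, q', i'⟩ := ht d' hd'
  obtain ⟨e1, e2⟩ := Prod.mk.inj e
  rw [← e1] at i' e2
  obtain rfl : q = q' := Option.some.inj (i.hd.symm.trans i'.hd)
  refine ⟨fun m => (i.T m).symm.trans (i'.T m), fun m hm hW => ?_, fun m hm a1 a2 => ?_⟩
  · obtain ⟨a1, a2, a3, a4⟩ := i.W m ((i.T m).2 ⟨hm, hW⟩)
    obtain ⟨b1, b2, b3, b4⟩ := i'.W m ((i.T m).2 ⟨hm, hW⟩)
    exact ⟨abs_le.2 ⟨by linarith only [a1, b2], by linarith only [a2, b1]⟩, abs_le.2 ⟨by linarith only [a3, b4], by linarith only [a4, b3]⟩⟩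
  · obtain ⟨b1, b2⟩ := i.nx m hm a1 a2
    obtain iff : m ∈ (d.sk c M).D ↔ m ∈ (d'.sk c M).D := by
      simpa [b1] using Finset.ext_iff.1 e2 m
    refine ⟨iff, fun hm => ?_⟩
    obtain ⟨c1, c2⟩ := i.D m hm b2
    obtain ⟨c3, c4⟩ := i'.D m (iff.1 hm) b2
    exact abs_le.2 ⟨by linarith only [c2, c3], by linarith only [c1, c4]⟩

end KEY

theorem key (K : ℕ) : Hier fun c => SOK_s c → EXT_s c → TRC_s c → FR_s K c → PRC_s K c →
    PRD_s c → KEY_s K c := (KEY.num K).mono fun _ => KEY.main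

end
end Pool.Agent.MP_9cbfe4_an

end

/-! ### Part ENR -/

section

/-! Row ENR: the input of `RET_s` at a major. -/

namespace Pool.Agent.MP_9cbfe4_an

open Finset Filter Topology Real

theorem enr (K : ℕ) : Hier fun c => SOK_s c → EXT_s c → TRC_s c → FR_s K c → SK1_s K c →
    ENR_s K c := by
  have h1 := Hier.lam_ge (fun _ => 2) fun _ _ => rfl
  have h2 := Hier.L_ge (fun _ => 1) fun _ _ => rfl
  have h3 := Hier.M1_ge (fun _ => 4) fun _ _ _ _ => rfl
  refine (h1.and (h2.and h3)).mono ?_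
  rintro c ⟨hl, hL, hM1⟩ hS hE hT hF h1 hK M hM d v σ y hσ x hx hy
  obtain ok : (d.S M).OK c :=
    ((hS M hM.ok d.t ⟨by linarith only [v.ht.1], by linarith only [v.ht.2]⟩).2.1 d.v v.hv).2
  have out := ((hF _ M d hM.ok v).1 _ List.mem_cons_self).fr.out
  obtain ⟨η0, η1⟩ := (h1 hK M hM.ok d v).η_mem x hx
  obtain ⟨m, hm, rfl⟩ := mem_image.1 hx
  obtain ⟨m1, m2, -⟩ := mem_filter.1 hm
  obtain ⟨ri, ex⟩ := (hE _ _ _ _ _ _ ok out v.run).2.2.2.2 m m1
  obtain ⟨Lm, -, pb, -, st, -, mem, -⟩ := ex m2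
  obtain eη : (d.sk c M).η (m - d.n) = |(d.S M).rho (d.ζ M) m (nxt d.Ls d.p m)| := by
    simp only [Dat.sk, sub_add_cancel]
  obtain eW : (d.sk c M).W ((d.sk c M).nx (m - d.n)) = (d.S M).Wp c d.n (nxt d.Ls d.p m) := by
    simp only [Dat.sk, sub_add_cancel]
  obtain er : c.lam - log ((d.sk c M).η (m - d.n)) = d.dp c M m := by
    rw [eη] at η0 ⊢
    unfold Dat.dp Sq.dep Cs.lam
    rw [log_div (by linarith only [hL]) η0.ne']
  obtain r1 : c.lam ≤ d.dp c M m := by linarith only [er, log_nonpos η0.le η1]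
  change (d.S M).Step c _ (d.ζ M) (d.n + 1) m (d.dp c M m) _ at st
  rw [er, add_sub_cancel]
  rw [eW] at hy
  have v' := hT _ M d hM.ok v _ (List.mem_cons_of_mem _ mem) _ le_rfl
  obtain ⟨e1, -, e3⟩ := hF _ M _ hM.ok v'
  obtain ⟨U, hU⟩ : ∃ U, U = (d.S M).Wt c (d.ζ M) (d.n + 1) m (d.dp c M m) := ⟨_, rfl⟩
  have u1 : log |d.ζ M m| + d.dp c M m ≤ U := hU ▸ le_max_right _ _
  have u0 : 0 ≤ U := hU ▸ (log_nonneg ((d.S M).one_le_AA c _ _ _)).trans (le_max_left _ _)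
  obtain u2 : U ≤ (d.S M).Wp c d.n (nxt d.Ls d.p m) := hU ▸ max_le
    (log_le_log (by linarith only [(d.S M).one_le_AA c (d.ζ M) (d.n + 1) m])
      ((d.S M).AA_mono c _ _ st.lt.le)) st.A_lo
  have u3 : c.M1 * U ≤ (d.S M).chi c d.n m := hU ▸ pb.2.c2
  obtain key : 4 * U ≤ y → log |d.ζ M m| ≤ U + 2 → 4 * U ≤ (d.S M).chi c d.n m →
      ∃ h, σ.orb M d.t = d.toFd.R M (σ.c d.t) h ∧ d.toFd.Near c M (σ.c d.t) h m U := by
    rw [hU]
    exact fun a b e => e3 σ y m hσ a (e1 _ List.mem_cons_self).fr le_rfl b e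
  obtain ⟨h, a, b⟩ := key (by linarith only [hy, u2]) (by linarith only [hl, r1, u1]) (by nlinarith only [u3, hM1, u0])
  refine ⟨?_, h, U, a, b, ?_, fun r hr => Sq.Wit.anti _ _ (by linarith only [hL]) st.wit hr⟩
  · by_contra hn
    obtain e : (d.O M).X (m - d.n) = (d.S M).X m := by simp only [Dat.O, Sq.shift, sub_add_cancel]
    rw [e] at hn
    linarith only [hl, r1, (st.zone (not_le.1 hn)).2]
  · change exp (-U - 20) * |d.ζ M m| ≤ _
    rw [← exp_log (show 0 < |d.ζ M m| from abs_pos.2 ri.ne), ← exp_add]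
    exact exp_le_exp.2 (by linarith only [u1])

end Pool.Agent.MP_9cbfe4_an

end

/-! ### Part ECL -/

section

/-! Row ECL of the glue of section E: the measure of the candidates of one run. -/

namespace Pool.Agent.MP_9cbfe4_an
open Finset MeasureTheory Real

namespace ECL

theorem cover {ι : Type} (s : Finset ι) {A : Set ℝ} (U : ι → Set ℝ) {B N : ℝ} (hB : 0 ≤ B)
    (hA : A ⊆ ⋃ i ∈ s, U i) (hU : ∀ i ∈ s, volume (U i) ≤ ENNReal.ofReal B) (hN : (s.card : ℝ) ≤ N) :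
    volume A ≤ ENNReal.ofReal (N * B) := by
  refine (measure_mono hA).trans ((measure_biUnion_finset_le s U).trans ?_)
  refine (sum_le_card_nsmul s _ _ hU).trans ?_
  rw [nsmul_eq_mul, ← ENNReal.ofReal_natCast, ← ENNReal.ofReal_mul (Nat.cast_nonneg _)]
  exact ENNReal.ofReal_le_ofReal (mul_le_mul_of_nonneg_right hN hB)

variable {K : ℕ} {c : Cs} {k : E.Par} {y : ℝ}

theorem nums (h : PN K c k y) : 1000 ≤ k.ς ∧ 1000 * k.ς ≤ k.ρ ∧ c.lam ≤ k.Wc ∧ 0 ≤ y := by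
  obtain K0 : (10 : ℝ) ≤ k.K := by exact_mod_cast h.ok.K10
  have g0 := h.ok.g10
  obtain s0 : 1000 ≤ k.ς := by linarith only [h.S0.1, h.S0.2]
  obtain a1 : 1 ≤ k.K * k.g := by nlinarith only [K0, g0]
  obtain a2 := mul_le_mul_of_nonneg_right a1 (show 0 ≤ k.ς by linarith only [s0])
  obtain a3 : 1000 * k.ς ≤ k.ρ := by linarith only [s0, a2, h.ok.small]
  obtain a4 : (1 : ℝ) ≤ ((K : ℝ) + 1) ^ 2 := one_le_pow₀ (by linarith only [Nat.cast_nonneg (α := ℝ) K])
  obtain a5 := mul_le_mul_of_nonneg_right a4 (show 0 ≤ k.g by linarith only [g0])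
  obtain a6 : 1 ≤ c.C0 := by linarith only [g0, a5, h.C0g]
  have a7 : 0 ≤ c.lam := (sq_nonneg _).trans h.lam
  have a8 := mul_le_mul_of_nonneg_right (a6.trans h.C1.1) a7
  obtain a9 := mul_le_mul_of_nonneg_right K0 (show 0 ≤ k.ρ by linarith only [s0, a3])
  refine ⟨s0, a3, ?_, by linarith only [a7, h.bl.1, h.bl.2]⟩
  unfold E.Par.Wc
  linarith only [s0, a3, a8, a9, h.C1.2]

end ECL

theorem ecl' (K : ℕ) (c : Cs) (hR : E.RUN_s) (hK : KEY_s K c) (hN : ENEAR_s c) (hL : ELA_s K c)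
    (h5 : EJ5_s K c) (hB : EBX_s K c) : ECL_s K c := by
  intro F M hM sd hsd ρ j pn
  set k := (c.ek K).par ρ j with hk
  set y := c.lev ρ with hy
  obtain ⟨n1, n2, n3, y0⟩ := ECL.nums pn
  obtain ⟨T, key, hT, hkey, hsame⟩ := hK F M hM.ok k.Wc n3
  obtain S1 : 1 ≤ c.S0 y := one_le_exp (by linarith only [pn.S0.1])
  have S3 : 1 ≤ c.S0 y ^ 3 := one_le_pow₀ S1
  obtain r0 : 0 < c.rU y := by unfold Cs.rU; positivity
  obtain r1 : c.rU y ≤ 1 := by unfold Cs.rU; exact (div_le_one (by positivity)).2 S3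
  choose f S cd hc using fun (d : Dat) (h : d.Cand K c M sd ρ j) => h.2.2
  classical
  let Z := {d : Dat // d.Cand K c M sd ρ j}
  obtain one : ∀ (tU : ℝ) N cl nu lab, Cls c (Ex2 K c M) M sd y tU N cl nu lab → ∀ H κ,
      volume ((fun z : Z => z.1.t) '' {z | |z.1.t - tU| ≤ c.rU y ∧ cl z.1.toFd = H ∧ key z.1 = κ})
        ≤ ENNReal.ofReal (exp (-(4 / 5 * k.ρ))) := by
    intro tU N cl nu lab C H κ
    refine hR k pn.ok Z
      (fun z => mkPr M (sd z.1.toFd y) z.1.t (lab z.1.toFd) (f z.1 z.2) (S z.1 z.2))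
      (fun z => cd z.1 z.2) _ ⟨fun z _ => ?_, fun z hz z' hz' => ?_⟩
    · obtain ⟨a, b⟩ := hc z.1 z.2 (lab z.1.toFd)
      exact ⟨a.ok, hL M k y _ _ _ _ pn a, b⟩
    obtain ⟨a, -⟩ := hc z.1 z.2 (lab z.1.toFd)
    obtain ⟨a', -⟩ := hc z'.1 z'.2 (lab z'.1.toFd)
    obtain ⟨n, hn, en⟩ := a.en
    obtain ⟨n', hn', en'⟩ := a'.en
    obtain ⟨e1, e2⟩ := hN k _ _ n n' _ _ _ _ a.sk a'.sk hn hn' en en' a.dic a'.dic a.ok a'.ok
      (hsame _ _ z.2.1 z'.2.1 (hz.2.2.trans hz'.2.2.symm))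
    obtain ⟨l1, l2⟩ := C.two _ _ z.2.2.1 z'.2.2.1 hz.1 hz'.1 (hz.2.1.trans hz'.2.1.symm)
    obtain ⟨l3, l4⟩ := l2 z'.1.t (hz'.1.trans (by linarith only [r0]))
    have u := (C.nu_eq _ z.2.2.1 hz.1).1
    have u' := (C.nu_eq _ z'.2.2.1 hz'.1).1
    rw [hz'.2.1, ← hz.2.1] at u'
    have pp : PP c M k y (nu (cl z.1.toFd)) _ _ z.1 z'.1 _ _ _ _ := ⟨e1, e2, ⟨u, u'⟩, l3, l4⟩
    refine ⟨e2, ?_, l1.trans r1, h5 M k y _ _ _ _ _ _ _ _ _ pn a a' pp,
      hB M k y _ _ _ _ _ _ _ _ _ pn a a' pp⟩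
    obtain ⟨t1, t2⟩ := z.2.2.1.ht
    obtain ⟨t3, t4⟩ := z'.2.2.1.ht
    show |z.1.t - z'.1.t| ≤ 1
    rw [abs_le]; constructor <;> linarith only [t1, t4, t2, t3]
  obtain two : ∀ tU : ℝ, volume ((fun z : Z => z.1.t) '' {z | |z.1.t - tU| ≤ c.rU y}) ≤
      ENNReal.ofReal (c.S0 y ^ 8 * exp (k.Wc / (10 ^ 9 * K)) * exp (-(4 / 5 * k.ρ))) := by
    intro tU
    obtain ⟨N, cl, nu, lab, C⟩ := hsd.cls y tU y0
    refine ECL.cover ((univ : Finset (Fin N)) ×ˢ T) _ (exp_pos _).le ?_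
      (fun i _ => one tU N cl nu lab C i.1 i.2) ?_
    · rintro _ ⟨z, hz, rfl⟩
      exact Set.mem_iUnion₂.2 ⟨(cl z.1.toFd, key z.1), mem_product.2 ⟨mem_univ _, hkey _ z.2.1⟩,
        z, ⟨hz, rfl, rfl⟩, rfl⟩
    · rw [card_product, card_univ, Fintype.card_fin, Nat.cast_mul]
      exact mul_le_mul C.card hT (Nat.cast_nonneg _) (by positivity)
  obtain ⟨G, hG, hGc⟩ := Cov.sub_Icc (h := 1) (h' := c.rU y) 0 zero_le_one r0
  refine (ECL.cover G _ (by positivity) ?_ (fun x _ => two x) hG).trans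
    (ENNReal.ofReal_le_ofReal ?_)
  · rintro _ ⟨d, rfl, hd⟩
    obtain ⟨t1, t2⟩ := hd.2.1.ht
    obtain ⟨x, hx, x1, x2⟩ := hGc d.t ⟨by linarith only [t1], by linarith only [t2]⟩
    exact Set.mem_iUnion₂.2 ⟨x, hx, ⟨d, hd⟩,
      by show |d.t - x| ≤ _; rw [abs_le]; constructor <;> linarith only [r0, x1, x2], rfl⟩
  obtain K0 : (10 : ℝ) ≤ K := by exact_mod_cast (show 10 ≤ K from pn.ok.K10)
  have e0 : k.ρ = ρ := rfl
  obtain e1 : k.Wc / (10 ^ 9 * K) = ρ / 100 := by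
    show (10 ^ 7 * (K : ℝ) * ρ) / (10 ^ 9 * K) = ρ / 100
    field_simp
    ring
  obtain e2 : 1 / c.rU y = c.S0 y ^ 3 := by unfold Cs.rU; rw [one_div_one_div]
  obtain e3 : c.S0 y ^ 3 * c.S0 y ^ 8 ≤ exp (ρ / 100) := by
    unfold Cs.S0
    rw [← pow_add, ← exp_nat_mul]
    exact exp_le_exp.2 (by push_cast; linarith only [n1, n2, e0, pn.S0.2])
  obtain e4 : (2 : ℝ) ≤ exp (ρ / 100) := by linarith only [n1, n2, e0, add_one_le_exp ((ρ : ℝ) / 100)]
  obtain e5 : exp (ρ / 100) * exp (ρ / 100) * (exp (ρ / 100) * exp (-(4 / 5 * (ρ : ℝ)))) ≤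
      exp (-(ρ : ℝ) / 2) := by
    simp only [← exp_add]
    exact exp_le_exp.2 (by linarith only [n1, n2, e0])
  obtain e6 : (c.S0 y ^ 3 + 1) * c.S0 y ^ 8 ≤ exp (ρ / 100) * exp (ρ / 100) := by
    obtain a1 := mul_le_mul_of_nonneg_right S3 (show 0 ≤ c.S0 y ^ 8 by positivity)
    have a2 := mul_le_mul_of_nonneg_right e4 (exp_pos ((ρ : ℝ) / 100)).le
    linarith only [e3, a1, a2]
  obtain e7 := mul_le_mul_of_nonneg_right e6
    (show 0 ≤ exp ((ρ : ℝ) / 100) * exp (-(4 / 5 * (ρ : ℝ))) by positivity)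
  rw [e1, e2, e0]
  linarith only [e5, e7]

end Pool.Agent.MP_9cbfe4_an

end

/-! ### Part ESUM -/

section

/-! Row ESUM: summation over the runs. -/

namespace Pool.Agent.MP_9cbfe4_an

open Finset Real MeasureTheory

namespace ESUM

theorem union_le (J : ℕ) (A : ℕ → ℕ → Set ℝ)
    (h : ∀ ρ j, j < J → volume (A ρ j) ≤ ENNReal.ofReal ((4 / 5) ^ ρ / 100 / J)) :
    volume (⋃ ρ, ⋃ j ∈ range J, A ρ j) ≤ 1 / 20 := by
  obtain h1 : ∀ ρ, volume (⋃ j ∈ range J, A ρ j) ≤ ENNReal.ofReal ((4 / 5) ^ ρ / 100) := by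
    intro ρ
    refine (measure_biUnion_finset_le _ _).trans ((sum_le_sum fun j hj => h ρ j (mem_range.1 hj)).trans ?_)
    rw [sum_const, card_range, nsmul_eq_mul, ← ENNReal.ofReal_natCast,
      ← ENNReal.ofReal_mul (Nat.cast_nonneg _)]
    refine ENNReal.ofReal_le_ofReal ?_
    rcases Nat.eq_zero_or_pos J with rfl | hJ
    · simp only [Nat.cast_zero, zero_mul]; (clear * -; positivity)
    · rw [mul_div_cancel₀ _ (by exact_mod_cast hJ.ne')]
  have h2 := (hasSum_geometric_of_lt_one (r := (4 / 5 : ℝ)) (by norm_num) (by norm_num)).div_const 100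
  refine (measure_iUnion_le _).trans ((ENNReal.tsum_le_tsum h1).trans ?_)
  rw [← ENNReal.ofReal_tsum_of_nonneg (fun _ => by positivity) h2.summable, h2.tsum_eq,
    show ((1 - 4 / 5 : ℝ)⁻¹ / 100) = 1 / 20 by norm_num, ENNReal.ofReal_div_of_pos (by norm_num)]
  simp

theorem num {J ρ : ℕ} (hJ : 0 < J) (h : (100 * J : ℝ) ≤ exp (ρ / 4)) :
    exp (-(ρ : ℝ) / 2) ≤ (4 / 5) ^ ρ / 100 / J := by
  obtain h0 : (0 : ℝ) < J := by exact_mod_cast hJ
  obtain h1 : exp (-(1 / 4)) ≤ (4 / 5 : ℝ) := by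
    rw [exp_neg, inv_le_comm₀ (exp_pos _) (by norm_num)]
    linarith only [add_one_le_exp (1 / 4 : ℝ)]
  obtain h2 : exp (-(ρ : ℝ) / 4) ≤ (4 / 5) ^ ρ := by
    rw [show -(ρ : ℝ) / 4 = ρ * -(1 / 4) by ring, exp_nat_mul]
    gcongr
  rw [div_div, le_div_iff₀ (by positivity)]
  refine (mul_le_mul_of_nonneg_left h (exp_pos _).le).trans (le_trans (le_of_eq ?_) h2)
  rw [← exp_add]; congr 1; ring

theorem main (K : ℕ) (c : Cs) : ESUM_s K c := by
  intro hN hG hC hF M hM sd hs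
  refine le_trans (measure_mono ?_) (union_le (c.ek K).J0 (fun ρ j => {t |
    ((c.ek K).Λ ≤ 10 ^ 7 * K * c.th ^ 2 * (ρ : ℝ) ∧ c.bl ≤ 10 * c.C0 * (Cw K + 1) * (ρ : ℝ)) ∧
      ∃ d : Dat, d.t = t ∧ d.Cand K c M sd ρ j}) fun ρ j hj => ?_)
  · rintro t ⟨d, rfl, h1, h2, h3⟩
    obtain ⟨ρ, j, a1, a2, a3, a4⟩ := hG hF M hM sd hs d h1 h2 h3
    simp only [Set.mem_iUnion]
    exact ⟨ρ, j, mem_range.2 a1, ⟨a2, a3⟩, d, rfl, a4⟩
  · by_cases H : (c.ek K).Λ ≤ 10 ^ 7 * K * c.th ^ 2 * (ρ : ℝ) ∧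
        c.bl ≤ 10 * c.C0 * (Cw K + 1) * (ρ : ℝ)
    · obtain ⟨a1, -, a3⟩ := (hN hF).2 ρ j hj H.1 H.2
      exact (measure_mono fun t ht => ht.2).trans ((hC hF M hM sd hs ρ j a1).trans
        (ENNReal.ofReal_le_ofReal (num (by omega) a3)))
    · simp [H]

end ESUM

end Pool.Agent.MP_9cbfe4_an

end

/-! ### Part ETA5b -/

section

/-! Glue of section E, clause `TA.j5`, part b: the dichotomy in the terms of section J (helper23). -/

namespace Pool.Agent.MP_9cbfe4_an.ETA5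

open Finset Real

variable {K : ℕ} {c : Cs} {k : Sk}

theorem gm5_pos : 0 ≤ gm5 K 2 := by unfold gm5 g2; positivity

theorem core (ta : TA_s c) (ad : AD1_s K c) (j1 : J1_s K c) (j5 : J5_s K c) (hK : 3 ≤ K)
    (bud : c.Bud K (K + 1)) (hc : 1 ≤ c.ck) {M σ σ' t g m B st} (jc : JC K c M σ t g k m) (g8 : g ≤ 8)
    (at' : σ'.At K c t) {s G : ℝ} (hs : (4 * c.gm (K + 1) (K + 2) + 2) * (c.ck * k.sl m) + 10 ≤ s)
    (hG : gm5 K 2 + 26 ≤ G) (hB : B ∈ k.D ∧ k.nx B ≤ m)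
    (hst : st ∈ k.D ∧ st ≤ B ∧ ∀ x ∈ k.D, x < m → k.η st ≤ k.η x)
    (light : ∀ x ∈ k.D, B < x → x < m → 1 / k.η x ^ 7 ≤ exp s) (heavy : k.η st ≤ exp (-G * s))
    (d7 : D7 M t g (σ.orb M t) k st) (c1 : ((k.D' B st).card : ℝ) ≤ exp (c.bl / 10))
    (c2 : ((k.D' B st).card : ℝ) ≤ exp s) {T1 T2 T3 S2 S3 β dl ι ϖ : ℝ} (hβ : β = 1 / k.η st ^ 2)
    (hr : k.rh m ≤ β) (a1 : |σ.La M t 1 m| ≤ T1) (a2 : |σ.La M t 2 m| ≤ T2) (a3 : |σ.La M t 3 m| ≤ T3)
    (h2 : T2 + T1 ^ 2 * exp (k.W m) + β * T1 ≤ S2) (h3 : T3 + S2 * (β + T1 * exp (k.W m)) ≤ S3)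
    (ok : S2 * exp (k.W (k.nx B)) ≤ exp (-(G - 1) * s) * β ^ 2) (near : σ.Near σ' t 3 ϖ)
    (dl0 : 0 ≤ dl) (hϖ : ϖ ≤ exp s * dl + ι) (hι : ι * β ≤ T1)
    (sm1 : dl * exp (k.W m) ≤ exp (-G * s)) (sm2 : ι * exp (k.W m) ≤ exp (-G * s))
    (d1 : dl ≤ 2 * |σ'.v t - σ.v t - (σ.orb M t).nu1 m * (σ'.c t - σ.c t)| + 3 * ι)
    (d2 : |σ'.v t - σ.v t - (σ.orb M t).nu1 m * (σ'.c t - σ.c t)| ≤ 2 * dl + 2 * ι) :
    (dl * β ≤ exp s ^ 6 * (|σ'.pj M t 1 m / (σ.orb M t).fr 1 m| + T1) ∧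
      |σ'.pj M t 2 m / (σ.orb M t).fr 1 m| ≤ exp s ^ 26 * (dl * β ^ 2 + S2)) ∨
    (dl * β ^ 2 ≤ exp s ^ 11 * (|σ'.pj M t 2 m / (σ.orb M t).fr 1 m| + S2) ∧
      |σ'.pj M t 3 m / (σ.orb M t).fr 1 m| ≤
        exp (gm5 K 2 / 2 * s) * exp s ^ 2 * (dl * β ^ 3 + S3)) := by
  have hk := jc.oc.sk
  have s0 := sl0 hk jc.oc.hn
  have G0 := (gm_le (K := K) hc le_rfl).1
  obtain c3 : 0 ≤ c.ck * k.sl m := mul_nonneg (by linarith only [hc]) s0
  have c5 := mul_nonneg G0 c3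
  obtain s10 : 10 ≤ s := by linarith only [hs, c3, c5]
  have g0 := gm5_pos (K := K)
  have E0 : 1024 ≤ exp s := exp10.trans (exp_le_exp.2 s10)
  have p1 := (abs_nonneg _).trans a1
  have p2 := (abs_nonneg _).trans a2
  have p3 := (abs_nonneg _).trans a3
  have η0 := hk.1.η_mem st hst.1
  obtain β1 : 1 ≤ β := by
    rw [hβ]; exact one_le_one_div (pow_pos η0.1 _) (pow_le_one₀ η0.1.le η0.2)
  have w0 := exp_pos (k.W m)
  obtain ⟨q1, q2, q3, q4, q5, q6⟩ := parts p1 p2 p3 (by linarith only [β1]) w0.le h2 h3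
  have S0 := p2.trans q3
  have S1 := p3.trans q6
  obtain e2 : exp (2 * s) = exp s ^ 2 := by rw [← exp_nat_mul]; norm_num
  obtain b2 : ∀ a : ℝ, a / k.η st ^ 2 = a * β := fun a => by rw [hβ]; ring
  obtain b4 : ∀ a : ℝ, a / k.η st ^ 4 = a * β ^ 2 := fun a => by rw [hβ]; ring
  obtain A1 : exp s * exp (-(G - 1) * s) ≤ exp (-(gm5 K 2 + 13) * s) := by
    rw [← exp_add]; exact exp_le_exp.2 (by nlinarith only [hs, hG, c3, c5])
  obtain A2 : exp s ^ 2 * exp (-G * s) ≤ exp (-(gm5 K 2 + 13) * s) := by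
    rw [← e2, ← exp_add]; exact exp_le_exp.2 (by nlinarith only [hs, hG, c3, c5])
  have wB := exp_pos (k.W (k.nx B))
  obtain H : J5H K c M σ σ' t g k m B st 2 13 s ϖ (tl T1 S2 S3 0 s) :=
    { jc := jc, g8 := g8, at' := at', hγ := by norm_num, hG := by norm_num, hls := by linarith only [hs, c3, c5]
      hB := hB, hst := hst, light := light
      heavy := heavy.trans (exp_le_exp.2 (by nlinarith only [hG, hs, c3, c5]))
      d7 := d7, card := c1
      pos := fun j => by unfold tl; split_ifs <;> positivity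
      bd := bd ta ad j1 hK bud hc jc hs hB.1 light hr a1 a2 a3 h2 h3
      t11 := by
        show (32 * T1) ^ 2 * _ ≤ _ * (exp s * S2 + 32 * T1 / _)
        rw [b2, e2]
        calc _ = 1024 * (T1 ^ 2 * exp (k.W m)) := by ring
          _ ≤ exp s * S2 := by (clear * - E0 q1; gcongr)
          _ ≤ exp s * S2 + 32 * T1 * β := le_add_of_nonneg_right (by positivity)
          _ ≤ _ := le_mul_of_one_le_left (by (clear * - S0 p1 β1; positivity)) (one_le_pow₀ (by linarith only [E0]))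
      t12 := by
        show 32 * T1 * (exp s * S2) * _ ≤ _ * (exp s ^ 2 * S3 + exp s * S2 / _)
        rw [b2, e2]
        calc _ = exp s * 32 * (S2 * (T1 * exp (k.W m))) := by ring
          _ ≤ exp s * exp s * S3 := by gcongr; linarith only [E0]
          _ = exp s ^ 2 * S3 := by ring
          _ ≤ exp s ^ 2 * S3 + exp s * S2 * β := le_add_of_nonneg_right (by (clear * - S0 β1; positivity))
          _ ≤ _ := le_mul_of_one_le_left (by (clear * - S1 S0 β1; positivity)) (one_le_pow₀ (by linarith only [E0]))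
      ok1 := by
        show 32 * T1 * _ ≤ _
        rw [b2]
        refine le_of_mul_le_mul_right ?_ (show 0 < β by linarith only [β1])
        calc _ = 32 * (β * T1 * exp (k.W (k.nx B))) := by ring
          _ ≤ exp s * (S2 * exp (k.W (k.nx B))) := by gcongr; linarith only [E0]
          _ ≤ exp s * (exp (-(G - 1) * s) * β ^ 2) := by gcongr
          _ = exp s * exp (-(G - 1) * s) * β ^ 2 := by ring
          _ ≤ exp (-(gm5 K 2 + 13) * s) * β ^ 2 := by (clear * - A1 β1; gcongr)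
          _ = _ := by ring
      ok2 := by
        show exp s * S2 * _ ≤ _
        rw [b4]
        calc _ = exp s * (S2 * exp (k.W (k.nx B))) := by ring
          _ ≤ exp s * (exp (-(G - 1) * s) * β ^ 2) := by gcongr
          _ = exp s * exp (-(G - 1) * s) * β ^ 2 := by ring
          _ ≤ exp (-(gm5 K 2 + 13) * s) * β ^ 2 := by (clear * - A1 β1; gcongr)
      near := near
      small := by
        have x0 := exp_pos (-G * s)
        calc _ ≤ (exp s * dl + ι) * exp (k.W m) := by (clear * - hϖ; gcongr)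
          _ = exp s * (dl * exp (k.W m)) + ι * exp (k.W m) := by ring
          _ ≤ exp s * exp (-G * s) + exp (-G * s) := by (clear * - sm1 sm2; gcongr)
          _ = (exp s + 1) * exp (-G * s) := by ring
          _ ≤ exp s ^ 2 * exp (-G * s) := by gcongr; nlinarith only [E0, c2]
          _ ≤ _ := A2 }
  obtain ⟨o1, o2, o3, o4, o5⟩ := j5 hK bud M σ σ' t g k m B st 2 13 s ϖ _ H _ _ _ β rfl rfl rfl hβ
  have q0 : 0 ≤ ∑ x ∈ k.D' B st, σ.bx M c t k x ^ 2 := sum_nonneg fun _ _ => sq_nonneg _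
  have γ0 := exp_pos (-13 * s)
  obtain E1 : 1 ≤ exp s := by linarith only [E0]
  obtain f2 : exp s * S2 ≤ exp s ^ 2 * S2 := by gcongr; nlinarith only [E0, c2]
  obtain f3 : exp s ^ 2 * S3 ≤ exp s ^ 4 * S3 := by gcongr; norm_num
  rw [sub_div] at o3 o4 o5
  refine J5X.dich (γ0 := exp (-13 * s)) (ϖ := ϖ) E0 (one_le_exp (by (clear * - g0 s10; positivity))) dl0 β1 p1 hι a1 a2 a3
    (by linarith only [h2, mul_nonneg (sq_nonneg T1) w0.le])
    (by linarith only [h3, mul_nonneg S0 (mul_nonneg p1 w0.le), mul_add S2 β (T1 * exp (k.W m))])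
    hϖ d1 d2 (sqrt_nonneg _) (sq_sqrt q0) ?_ ?_
    (sq_sum_le_card_mul_sum_sq.trans (mul_le_mul_of_nonneg_right c2 q0)) γ0.le ?_ o3
    (o4.trans ?_) (o5.trans ?_)
  · obtain this : exp s ^ 10 * exp (-10 * s) = 1 := by rw [← exp_nat_mul, ← exp_add]; norm_num
    calc β ^ 2 = exp s ^ 10 * (exp (-10 * s) * β ^ 2) := by rw [← mul_assoc, this, one_mul]
      _ ≤ _ := by (clear * - o1; gcongr)
  · refine o2.trans (le_of_eq ?_)
    rw [← exp_nat_mul]; norm_num
  · rw [← exp_nat_mul, ← exp_add]; norm_num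
  · show _ + _ * (_ + exp s * S2 + β * (32 * T1)) ≤ _
    (clear * - f2; gcongr)
  · show _ + _ * (exp s ^ 2 * S3 + β * (exp s * S2) + β ^ 2 * (32 * T1)) ≤ _
    (clear * - f3 f2 β1; gcongr)

end Pool.Agent.MP_9cbfe4_an.ETA5

end

/-! ### Part EJ5 -/

section

/-! Glue of section E, row EJ5: the clause `j5` of `TA` (helper23). -/

namespace Pool.Agent.MP_9cbfe4_an

open Finset Real

namespace EJ5

theorem lab {A Δ x ν ε S ι : ℝ} (h1 : |A - Δ| ≤ |Δ| / 100 + ι) (h2 : |ν| ≤ ε)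
    (h3 : |x| ≤ S * |Δ| + ι) (h4 : ε * S ≤ 3 / 10) (h5 : 1 ≤ S) (h6 : 0 ≤ ι) :
    |Δ| ≤ 2 * |A - ν * x| + 3 * ι ∧ |A - ν * x| ≤ 2 * |Δ| + 2 * ι := by
  have e0 := (abs_nonneg _).trans h2
  have d0 := abs_nonneg Δ
  obtain e1 : ε ≤ 3 / 10 := by nlinarith only [h4, h5, e0]
  obtain a : |ν * x| ≤ 3 / 10 * |Δ| + 3 / 10 * ι := by
    rw [abs_mul]
    calc _ ≤ ε * (S * |Δ| + ι) := by gcongr
      _ = ε * S * |Δ| + ε * ι := by ring
      _ ≤ _ := by (clear * - h4 e1 h6; gcongr)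
  have b := abs_sub_abs_le_abs_sub A Δ
  have b' := abs_sub_abs_le_abs_sub Δ A
  rw [abs_sub_comm Δ A] at b'
  have e := abs_sub A (ν * x)
  have e' := abs_sub_abs_le_abs_sub A (ν * x)
  have := abs_nonneg (A - ν * x)
  constructor <;> linarith only [h1, h6, d0, a, b', e', b, e]

theorem nrm {a b w w' x : ℝ} (w0 : 0 < w) (h1 : w ≤ 2 * |a|) (h2 : |b| ≤ 2 * w') (h3 : w' ≤ 3 * w)
    (h4 : 0 < |b|) : |x / a| ≤ 12 * |x / b| := by
  rw [abs_div, abs_div, ← mul_div_assoc, div_le_div_iff₀ (by linarith only [w0, h1]) h4]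
  nlinarith only [h1, h2, h3, abs_nonneg x]

theorem fin {E Y F1 F2 F3 x1 x2 x3 H a1 a2 a3 T S S' : ℝ} (hE : 12 ≤ E) (h27 : E ^ 27 ≤ Y)
    (hH : H * E ^ 3 ≤ Y) (n1 : |x1| ≤ 12 * |F1|) (n2 : |x2| ≤ 12 * |F2|)
    (m2 : |F2| ≤ 12 * |x2|) (m3 : |F3| ≤ 12 * |x3|) (T0 : 0 ≤ T) (S0 : 0 ≤ S) (p2 : 0 ≤ a2 + S)
    (p3 : 0 ≤ a3 + S')
    (h : (a1 ≤ E ^ 6 * (|x1| + T) ∧ |x2| ≤ E ^ 26 * (a2 + S)) ∨
      (a2 ≤ E ^ 11 * (|x2| + S) ∧ |x3| ≤ H * E ^ 2 * (a3 + S'))) :
    (a1 ≤ Y * (|F1| + T) ∧ |F2| ≤ Y * (a2 + S)) ∨ (a2 ≤ Y * (|F2| + S) ∧ |F3| ≤ Y * (a3 + S')) := by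
  obtain E1 : 1 ≤ E := by linarith only [hE]
  obtain up : ∀ (j : ℕ) (x F T : ℝ), j ≤ 26 → |x| ≤ 12 * |F| → 0 ≤ T →
      E ^ j * (|x| + T) ≤ Y * (|F| + T) := fun j x F T hj hx hT => by
    calc _ ≤ E ^ 26 * (12 * (|F| + T)) := by gcongr; linarith only [hx, hT]
      _ ≤ E ^ 26 * (E * (|F| + T)) := by gcongr
      _ = E ^ 27 * (|F| + T) := by ring
      _ ≤ _ := by gcongr
  refine h.imp (fun h => ⟨h.1.trans (up 6 _ _ _ (by norm_num) n1 T0), ?_⟩)
    fun h => ⟨h.1.trans (up 11 _ _ _ (by norm_num) n2 S0), ?_⟩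
  · calc _ ≤ 12 * |x2| := m2
      _ ≤ E * (E ^ 26 * (a2 + S)) := by gcongr; exact h.2
      _ = E ^ 27 * (a2 + S) := by ring
      _ ≤ _ := by (clear * - h27 p2; gcongr)
  · calc _ ≤ 12 * |x3| := m3
      _ ≤ E * (H * E ^ 2 * (a3 + S')) := by gcongr; exact h.2
      _ = H * E ^ 3 * (a3 + S') := by ring
      _ ≤ _ := by gcongr

theorem exp_near {a b : ℝ} (h : |a - b| ≤ 1) : exp a ≤ 3 * exp b := by
  calc exp a ≤ exp (1 + b) := exp_le_exp.2 (by linarith only [(abs_le.1 h).2])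
    _ = exp 1 * exp b := exp_add _ _
    _ ≤ _ := by gcongr; linarith only [exp_one_lt_d9]

theorem nums {K : ℕ} {c : Cs} {k : E.Par} {y : ℝ} (N : PN K c k y) :
    10 ≤ c.C0 ∧ (4 * c.gm (K + 1) (K + 2) + 2) * c.ck ≤ c.C0 / 2 ∧ c.C0 ≤ exp (c.bl / 10) ∧
    c.C0 ≤ exp k.ς ∧ 12000 * k.Wc ≤ y ∧ 27 * k.ς ≤ k.G ∧ gm5 K 2 / 2 * k.ς + 3 * k.ς ≤ k.G ∧
    gm5 K 2 + 26 ≤ k.g := by
  have hk := N.ok
  have eK : k.K = K := congrArg E.EK.K N.hk
  have K10 : (10 : ℝ) ≤ K := eK ▸ hk.K1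
  have g10 := hk.g10
  obtain C0 : 10 ^ 12 * k.g ≤ c.C0 := by
    obtain this : (1 : ℝ) ≤ (K + 1) ^ 2 := one_le_pow₀ (by linarith only [K10])
    nlinarith only [K10, g10, this, N.C0g]
  have ck := N.ck2
  obtain gm1 : 1 ≤ c.gm (K + 1) (K + 2) := by
    obtain this : 1 ≤ c.Cg := by unfold Cs.Cg; nlinarith only [ck]
    unfold Cs.gm
    exact one_le_mul_of_one_le_of_one_le (by linarith only [K10]) (one_le_pow₀ this)
  obtain Cl : c.C0 ≤ c.lam := by nlinarith only [g10, C0, N.lam]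
  have g5 := ETA5.gm5_pos (K := K)
  have u2 := hk.ς_big
  have g2 := N.g2
  refine ⟨by linarith only [K10, C0, g5, g2], by nlinarith only [K10, C0, gm1, g5, g2, ck, N.g1], by linarith only [K10, C0, Cl, g5, g2, N.bl.1, add_one_le_exp (c.bl / 10)],
    by nlinarith only [K10, C0, Cl, g5, g2, g10, N.C1.1, N.C1.2, add_one_le_exp k.ς], ?_, ?_, ?_, by linarith only [K10, g2]⟩
  · nlinarith only [K10, N.tiny, hk.Wc_ge, hk.ρ_pos]
  · rw [← hk.G_eq]; nlinarith only [K10, g5, g2, u2, g10]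
  · rw [← hk.G_eq]; nlinarith only [K10, g5, u2, g2, g10]

theorem main {K : ℕ} {c : Cs} (ta : TA_s c) (ad : AD1_s K c) (j1 : J1_s K c) (j5 : J5_s K c) :
    EJ5_s K c := by
  intro M k y ν0 σ σ' d d' f f' p q N hp hq pp n D u ν adm ht B m Bm mn qm sm hv shal card
    T1 T2 T3 β S2 S3 hβ f1 _ _ a1 a2 a3 h2 h3 ok
  have hk := N.ok
  obtain et : q.t = d'.t := by rw [hq.eq]; rfl
  obtain et' : p.t = d.t := by rw [hp.eq]; rfl
  obtain eL : ∀ j, q.La j m = σ'.La M d'.t j (f' m) := fun j => by rw [hq.eq]; rfl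
  obtain eF : ∀ j τ, p.Fd m j τ = σ.pj M τ j (f m) / (σ.orb M d.t).fr 1 (f m) := fun j τ => by
    rw [hp.eq]; rfl
  have pm : p.InR k m := ⟨mn.trans adm.inr.1, (hp.ok.W_mono mn adm.inr.1).trans adm.inr.2⟩
  have ef := pp.same m pm qm
  have eK : k.K = K := congrArg E.EK.K N.hk
  have eθ : k.θ = 1 / c.C0 := congrArg E.EK.θ N.hk
  obtain ⟨n', -, en⟩ := hq.en
  have dic := hq.dic
  have sk := hq.sk
  have jc := hq.jc m qm
  have mN := qm.1
  rw [hk.G_eq] at sm hv ok ⊢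
  have u1 := hk.G_ge
  have u2 := hk.ς_big
  have u3 := hk.G_le
  have u4 := hk.Wc_ge
  have u5 := hk.φ_le
  have u6 := hk.u_le
  have u7 := hk.φ_ge
  have K10 := hk.K1
  -- the deepest major and the last major
  obtain ⟨i, iB, ei⟩ := (E.Sk.Rst_eq (S := q.toSk) (B + 1)).resolve_left (by linarith only [hv, u1, u2])
  obtain iD := dic.maj i (by omega) (by linarith only [hv, u1, u2, ei])
  obtain ⟨b, hb, bmax⟩ := Finset.exists_max_image ((range (B + 1)).filter fun l => f' l ∈ (d'.sk c M).D)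
    id ⟨i, mem_filter.2 ⟨mem_range.2 iB, iD⟩⟩
  obtain ⟨bB, bD⟩ := mem_filter.1 hb
  rw [mem_range] at bB
  have ib : i ≤ b := bmax i (mem_filter.2 ⟨mem_range.2 iB, iD⟩)
  obtain fle : ∀ a l, a ≤ l → l ≤ q.N → f' a ≤ f' l := fun a l h1 h2 => by
    rcases h1.eq_or_lt with rfl | h
    · exact le_rfl
    · exact (dic.mono a l h h2).1.le
  obtain Rle : ∀ l < m, q.R l ≤ q.Rst (B + 1) := fun l hl => by
    rcases lt_or_ge B l with h | h
    · linarith only [hv, u1, u2, shal l h hl, mul_le_mul_of_nonneg_right K10 (hq.ok.R0 l), hq.ok.R0 l]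
    · exact E.Sk.le_Rst (by omega)
  obtain idx : ∀ x ∈ (d'.sk c M).D, x < f' m → ∃ l < m, f' l = x := fun x hx h => by
    obtain ⟨l, hl, e⟩ := dic.onto m mN x (sk.1.D_mem x hx).1 h.le
    exact ⟨l, lt_of_le_of_ne hl (fun e' => by rw [e'] at e; exact h.ne' e), e⟩
  obtain eη := dic.eta i (by omega) iD
  rw [← ei] at eη
  obtain ⟨C1, x2, c1, c2, ty, G27, G5, g26⟩ := nums N
  have ck := N.ck2
  have sm0 := ETA5.sl0 sk jc.oc.hn
  obtain hs : (4 * c.gm (K + 1) (K + 2) + 2) * (c.ck * (d'.sk c M).sl (f' m)) + 10 ≤ k.ς := by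
    have x1 := hq.sl m qm (f' m) le_rfl
    have := mul_le_mul_of_nonneg_right x2 sm0
    linarith only [u2, x1, this]
  obtain cd : (((d'.sk c M).D' (f' b) (f' i)).card : ℝ) ≤ c.C0 := by
    rw [eθ, one_div_one_div] at card
    refine le_trans (Nat.cast_le.2 ((card_le_card fun x hx => ?_).trans
      (card_image_le (f := f')))) card
    obtain ⟨xD, x1, x2⟩ := mem_filter.1 hx
    obtain ⟨l, hl, rfl⟩ := dic.onto b (by omega) x (sk.1.D_mem x xD).1 x1
    refine mem_image.2 ⟨l, mem_filter.2 ⟨mem_range.2 (by omega), ?_⟩, rfl⟩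
    rw [eη, dic.eta l (by omega) xD, ← exp_nat_mul, exp_le_exp] at x2
    push_cast at x2
    linarith only [x2]
  obtain Rb : q.Rst (B + 1) ≤ k.Wc + 2 * k.φ := by
    obtain this := hq.ok.W_mono (show i + 1 ≤ m by omega) mN
    linarith only [ei, this, Bm, mN, iB, hq.ok.up i (by omega), hq.ok.ω_lo hk (show i ≤ q.N by omega), hk.Λ_le, qm.2]
  have S1 := N.S0
  obtain chi : 4 * k.ς ≤ (d'.sk c M).chi 0 (f' m) := by
    have x1 := sk.1.d0 _ iD
    rw [eη, log_exp, neg_neg] at x1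
    obtain x2 : (d'.sk c M).chi 0 (f' i) ≤ (d'.sk c M).chi 0 (f' m) :=
      sum_le_sum_of_subset_of_nonneg (Ioc_subset_Ioc_right (fle i m (by omega) mN))
        fun l _ _ => by linarith only [(sk.1.ch_mem l).1]
    linarith only [hv, u2, G27, x1, x2, mul_le_mul_of_nonneg_right C1 (E.Sk.Rst_nonneg (S := q.toSk) (B + 1))]
  obtain x10 : (10 : ℝ) ≤ exp 10 := by linarith only [ETA5.exp10]
  have S2' : 10 ≤ c.S0 y := x10.trans (exp_le_exp.2 S1.1)
  obtain tn : ∀ a : ℝ, a + sqrt c.a * y ≤ -10 → exp a * c.S0 y ≤ 1 / 10 := fun a h => by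
    unfold Cs.S0
    rw [← exp_add]
    calc _ ≤ exp (-10) := exp_le_exp.2 h
      _ ≤ _ := by rw [exp_neg, one_div]; (clear * - x10; gcongr)
  obtain hl := lab (ν := (σ'.orb M d'.t).nu1 (f' m) - ν0) (S := c.S0 y)
    (ε := exp (-(d'.sk c M).chi 0 (f' m) / 4) + tiny y + 1 / (2 * c.S0 y ^ 2)) pp.lab
    ((abs_sub_le _ _ _).trans (add_le_add (hq.nu m qm) pp.nu.2))
    (by simpa using (pp.jet 0 (by norm_num)).2) (by
      obtain x1 := tn (-(d'.sk c M).chi 0 (f' m) / 4) (by linarith only [u2, chi, S1.2])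
      obtain x2 : tiny y * c.S0 y ≤ 1 / 10 := tn (-y / 4) (by linarith only [u2, u3, u4, ty, G27, S1.2])
      obtain x3 : 1 / (2 * c.S0 y ^ 2) * c.S0 y ≤ 1 / 10 := by
        rw [div_mul_eq_mul_div, div_le_div_iff₀ (by (clear * - S2'; positivity)) (by norm_num)]
        nlinarith only [S2']
      linarith only [x1, x2, x3]) (by linarith only [S2']) (exp_pos _).le
  obtain eδ : σ.v d'.t - σ'.v d'.t - ν0 * (σ.c d'.t - σ'.c d'.t) -
      ((σ'.orb M d'.t).nu1 (f' m) - ν0) * (σ.c d'.t - σ'.c d'.t) =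
      σ.v d'.t - σ'.v d'.t - (σ'.orb M d'.t).nu1 (f' m) * (σ.c d'.t - σ'.c d'.t) := by ring
  rw [eδ] at hl
  obtain at' : σ.At K c d'.t := hp.win _ (by
    rw [← et, ← et']
    obtain x1 : D ≤ exp (-k.ς) := by
      rw [← exp_log adm.D0]
      refine exp_le_exp.2 ?_
      have := adm.clip
      rw [hk.G_eq] at this
      linarith only [u2, G27, this, E.Sk.Rst_nonneg (S := p.toSk) n,
        mul_nonneg hk.θpos.le (E.Sk.Rst_nonneg (S := p.toSk) n)]
    obtain x2 : exp (-k.ς) ≤ c.rU y := by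
      unfold Cs.rU Cs.S0
      rw [← exp_nat_mul, one_div, ← exp_neg]
      exact exp_le_exp.2 (by push_cast; linarith only [u2, S1.2])
    linarith only [ht, x1, x2, exp_pos (-k.ς)])
  have eW := en.W m mN
  rw [eL] at a1 a2 a3
  rw [eW] at h2 h3 sm
  obtain eG : -k.g * k.ς = -k.G := by rw [← hk.G_eq]; ring
  have p1 := (abs_nonneg _).trans a1
  have β0 : 0 < β := hβ ▸ exp_pos _
  obtain ⟨-, -, q3, -, -, q6⟩ := ETA5.parts p1 ((abs_nonneg _).trans a2) ((abs_nonneg _).trans a3)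
    β0.le (exp_pos _).le h2 h3
  have S0 := ((abs_nonneg _).trans a2).trans q3
  have S3' := ((abs_nonneg _).trans a3).trans q6
  have key := ETA5.core (G := k.g) (B := f' b) (st := f' i) ta ad j1 j5 (by have := hk.K10; omega)
    N.bud (by linarith only [ck]) jc (by norm_num) at' hs g26
    ⟨bD, (dic.mono b m (by omega) mN).2⟩ ⟨iD, fle i b ib (by omega), fun x hx h => by
      obtain ⟨l, hl, rfl⟩ := idx x hx h
      rw [eη, dic.eta l (by omega) hx]
      exact exp_le_exp.2 (by linarith only [Rle l hl])⟩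
    (fun x hx h1 h => by
      obtain ⟨l, hl, rfl⟩ := idx x hx h
      obtain lB : B < l := by
        by_contra h3
        obtain this := bmax l (mem_filter.2 ⟨mem_range.2 (by omega), hx⟩)
        exact absurd (fle l b this (by omega)) (not_le.2 h1)
      rw [dic.eta l (by omega) hx, ← exp_nat_mul, one_div, ← exp_neg]
      refine exp_le_exp.2 ?_
      push_cast
      linarith only [u2, shal l lB hl, mul_le_mul_of_nonneg_right K10 (hq.ok.R0 l), hq.ok.R0 l])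
    (by rw [eη, eG]; exact exp_le_exp.2 (by linarith only [hv]))
    (hq.d7 m qm _ iD (dic.mono i m (by omega) mN).1 (by
      obtain x1 := hq.sl m qm _ (dic.mono i m (by omega) mN).2
      have x2 := ETA5.sl0 sk (sk.1.nx_mem _ (sk.1.D_mem _ iD).2).1
      rw [eη]
      refine exp_le_exp.2 ?_
      unfold Sk.σ
      linarith only [hv, u2, G27, x1, mul_le_mul_of_nonneg_right C1 x2]))
    (cd.trans c1) (cd.trans c2)
    (β := β) (ι := tiny y) (by rw [hβ, eη, ← exp_nat_mul, one_div, ← exp_neg]; norm_num)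
    (by
      rw [dic.rh m mN, hβ]
      exact exp_le_exp.2 (by linarith only [E.Sk.Rst_le (E.Sk.Rst_nonneg (B + 1)) Rle]))
    a1 a2 a3 h2 h3 (by
      rw [← en.nx b (by omega), ← en.W (b + 1) (by omega)]
      obtain x1 := hq.ok.W_mono (show b + 1 ≤ B + 1 by omega) (by omega)
      obtain x2 := hq.ok.W_succ hk (show B + 1 ≤ q.N by omega)
        ((hq.ok.W_mono (show B + 1 ≤ m by omega) mN).trans qm.2)
      calc _ ≤ S2 * exp (k.ς + (q.ω B + q.R B)) := by gcongr; linarith only [u2, u5, u6, x1, x2]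
        _ = exp k.ς * (S2 * exp (q.ω B + q.R B)) := by rw [exp_add k.ς]; ring
        _ ≤ exp k.ς * (exp (-k.G) * β ^ 2) := by (clear * - ok; gcongr)
        _ = _ := by rw [← mul_assoc, ← exp_add, ← hk.G_eq]; ring_nf)
    pp.jet (abs_nonneg _) (by
      obtain this : c.S0 y ≤ exp k.ς := exp_le_exp.2 (by linarith only [u2, S1.2])
      (clear * - this; gcongr))
    (le_trans (by
      unfold tiny
      rw [hβ, ← exp_add]
      exact exp_le_exp.2 (by linarith only [u2, u3, u4, u5, u6, ty, G27, Rb, hq.ok.ω_le hk mN, qm.2])) f1)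
    (by rw [eG]; exact sm) (by
      unfold tiny
      rw [eG, ← exp_add, ← eW]
      exact exp_le_exp.2 (by linarith only [u2, u3, u4, ty, G27, qm.2])) hl.1 hl.2
  -- normalisers
  have jp := hp.jc m pm
  have w1 := hp.dic.w m pm.1
  have w2 := dic.w m mN
  have nr := (pp.near m pm qm).2.1
  have y1 := jp.oc.fit.f1 _ (hp.sk.1.F_mem _ jp.oc.hn).1 le_rfl
  have y2 := jp.oc.fit.f2 _ jp.oc.hn le_rfl
  have y3 := jc.oc.fit.f1 _ (sk.1.F_mem _ jc.oc.hn).1 le_rfl
  have y4 := jc.oc.fit.f2 _ jc.oc.hn le_rfl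
  rw [w1] at y1 y2
  rw [w2] at y3 y4
  have z1 := exp_pos (p.ω m)
  have z2 := exp_pos (q.ω m)
  obtain n1 : ∀ x, |x / (σ'.orb M d'.t).fr 1 (f' m)| ≤ 12 * |x / (σ.orb M d.t).fr 1 (f m)| := fun x =>
    nrm z2 y4 y1 (exp_near nr) (by linarith only [y2, z1])
  obtain n2 : ∀ x, |x / (σ.orb M d.t).fr 1 (f m)| ≤ 12 * |x / (σ'.orb M d'.t).fr 1 (f' m)| := fun x =>
    nrm z1 y2 y3 (exp_near (by rwa [abs_sub_comm])) (by linarith only [y4, z2])
  simp only [eF, et]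
  rw [← ef] at key n1 n2
  refine fin (by linarith only [u2, add_one_le_exp k.ς]) ?_ ?_ (n1 _) (n1 _) (n2 _) (n2 _) p1 S0
    (by (clear * - β0 S0; positivity)) (by (clear * - β0 S3'; positivity)) key
  · rw [← exp_nat_mul]
    exact exp_le_exp.2 (by push_cast; linarith only [G27])
  · rw [← exp_nat_mul, ← exp_add]
    exact exp_le_exp.2 (by push_cast; linarith only [G5])

end EJ5

theorem ej5 (K : ℕ) : Hier fun c => TA_s c → AD1_s K c → J1_s K c → J5_s K c → EJ5_s K c :=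
  Hier.of_all fun _ => EJ5.main

end Pool.Agent.MP_9cbfe4_an

end

/-! ### Part J1F -/

section

/-! THM-2, section J, row J1F: forward bound for the jets and the crude bound. -/

namespace Pool.Agent.MP_9cbfe4_an

open Finset Filter Topology Real

noncomputable section

namespace J1F

theorem Cg_ge {c : Cs} (hκ : 0 < c.κ) : 2 ≤ c.ck ∧ 4000 ≤ c.Cg := by
  obtain h : 2 ≤ c.ck := by unfold Cs.ck; linarith only [hκ]
  refine ⟨h, ?_⟩
  unfold Cs.Cg; nlinarith only [h]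

theorem gm_mono {c : Cs} (hκ : 0 < c.κ) {γ : ℝ} (hγ : 0 ≤ γ) {i j : ℕ} (h : i ≤ j) :
    c.gm γ i ≤ c.gm γ j :=
  mul_le_mul_of_nonneg_left (pow_le_pow_right₀ (by linarith only [(Cg_ge hκ).2]) h) hγ

theorem gm_succ {c : Cs} (hκ : 0 < c.κ) {γ : ℝ} (hγ : 0 ≤ γ) {i j : ℕ} (h : i < j) :
    4000 * c.gm γ i ≤ c.gm γ j := by
  have h1 : c.gm γ (i + 1) ≤ c.gm γ j := gm_mono hκ hγ h
  obtain h2 : 0 ≤ c.gm γ i := mul_nonneg hγ (pow_nonneg (by linarith only [(Cg_ge hκ).2]) _)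
  obtain h3 : c.gm γ (i + 1) = c.gm γ i * c.Cg := by unfold Cs.gm; ring
  nlinarith only [h1, h3, h2, (Cg_ge hκ).2]

theorem gm_ge {c : Cs} (hκ : 0 < c.κ) {γ : ℝ} (hγ : 1 ≤ γ) (i : ℕ) : 1 ≤ c.gm γ i := by
  obtain h := gm_mono hκ (by linarith only [hγ] : (0 : ℝ) ≤ γ) (Nat.zero_le i)
  obtain this : c.gm γ 0 = γ := by simp [Cs.gm]
  linarith only [hγ, h, this]

theorem exp_ten : (128 : ℝ) * 2 ≤ exp 10 := by
  obtain h : (2 : ℝ) ≤ exp 1 := by linarith only [Real.add_one_le_exp (1 : ℝ)]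
  obtain this : exp 10 = exp 1 ^ 10 := by rw [← Real.exp_nat_mul]; norm_num
  rw [this]
  calc (128 : ℝ) * 2 ≤ 2 ^ 10 := by norm_num
    _ ≤ exp 1 ^ 10 := pow_le_pow_left₀ (by norm_num) h 10

theorem NN_self {c : Cs} {k : Sk} (h : k.OK1 c) {n : ℤ} (hn : n ∈ k.F) (e : ℕ) (g : ℝ) :
    k.NN n e g n = exp (g * k.σ n) := by
  obtain this : (k.D.filter fun x => x < n ∧ n < k.nx x) = ∅ := by
    refine Finset.filter_eq_empty_iff.2 fun x hx h' => ?_
    have := (h.nx_mem x (h.D_mem x hx).2).2.2 n hn h'.1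
    omega
  simp [Sk.NN, this]

theorem pj_one (σ : Seed) (M : Mdl) (t : ℝ) (j : ℕ) : σ.pj M t j 1 = iteratedDeriv j σ.v t := by
  simp [Seed.pj, Seed.orb, Mdl.orb, Mdl.pos]

theorem La_one (σ : Seed) (M : Mdl) (t : ℝ) (j : ℕ) : σ.La M t j 1 = iteratedDeriv j σ.v t := by
  simp [Seed.La, pj_one, Sq.fr, Sq.frP]

section
variable {K : ℕ} {c : Cs} {k : Sk} {n : ℤ} {γ : ℝ}

/-- the tail `μ / D^j` is admissible -/
theorem adm (hA : AD1_s K c) (hk : k.OK c) (hn : n ∈ k.F) (hB : c.Bud K γ) {r : ℕ} (hr : r ≤ K + 1)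
    {D μ : ℝ} (hD : 0 < D) (hμ : 0 ≤ μ) (hrh : 0 ≤ k.rh n) (hG : 0 ≤ c.gm γ (K + 2) * k.sl n)
    (h1 : D * k.rh n ≤ exp (-4 * c.gm γ (K + 2) * k.sl n))
    (h2 : μ * exp (k.W n) ≤ exp (-4 * c.gm γ (K + 2) * k.sl n)) :
    k.Adm c n r γ (fun j => μ / D ^ j) fun j _ =>
      if j ≤ 1 then 0 else exp (-2 * c.gm γ (K + 2) * k.sl n) * (μ / D ^ j) := by
  refine hA k hk n hn γ r (fun j => μ / D ^ j) hB hr (fun j => by (clear * - hμ hD; positivity)) ?_
  intro a b ha hb _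
  obtain e1 : exp (-4 * c.gm γ (K + 2) * k.sl n) * exp (4 * c.gm γ (K + 2) * k.sl n) = 1 := by
    rw [← Real.exp_add]; simp
  have hE : 0 < exp (4 * c.gm γ (K + 2) * k.sl n) := exp_pos _
  constructor
  · obtain this : μ * exp (k.W n) * exp (4 * c.gm γ (K + 2) * k.sl n) ≤ 1 := by
      rw [← e1]; exact mul_le_mul_of_nonneg_right h2 hE.le
    calc μ / D ^ a * (μ / D ^ b) * exp (k.W n + 4 * c.gm γ (K + 2) * k.sl n)
        = μ / D ^ (a + b) * (μ * exp (k.W n) * exp (4 * c.gm γ (K + 2) * k.sl n)) := by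
          rw [Real.exp_add, pow_add]; field_simp
      _ ≤ μ / D ^ (a + b) * 1 := mul_le_mul_of_nonneg_left this (by (clear * - hμ hD; positivity))
      _ = _ := mul_one _
  · obtain h0 : 0 ≤ D * k.rh n := by (clear * - hD hrh; positivity)
    obtain h3 : D * k.rh n ≤ 1 := h1.trans (Real.exp_le_one_iff.2 (by linarith only [hG]))
    obtain h4 : (D * k.rh n) ^ b ≤ D * k.rh n := pow_le_of_le_one h0 h3 (by omega)
    obtain this : (D * k.rh n) ^ b * exp (4 * c.gm γ (K + 2) * k.sl n) ≤ 1 := by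
      rw [← e1]; exact mul_le_mul_of_nonneg_right (h4.trans h1) hE.le
    calc μ / D ^ a * k.rh n ^ b * exp (4 * c.gm γ (K + 2) * k.sl n)
        = μ / D ^ (a + b) * ((D * k.rh n) ^ b * exp (4 * c.gm γ (K + 2) * k.sl n)) := by
          rw [pow_add, mul_pow]; field_simp
      _ ≤ μ / D ^ (a + b) * 1 := mul_le_mul_of_nonneg_left this (by (clear * - hμ hD; positivity))
      _ = _ := mul_one _

theorem inv_pow_le {x y : ℝ} (h : 1 / x ^ 2 ≤ y) (i : ℕ) : 1 / x ^ (2 * i) ≤ y ^ i := by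
  rw [pow_mul, ← one_div_pow]
  exact pow_le_pow_left₀ (by positivity) h i

/-- the majorant of order `j` against the one of order one -/
theorem NN_step (hκ : 0 < c.κ) (hT : TA_s c) (hk : k.OK c) (hn : n ∈ k.F) (hγ : 1 ≤ γ) {m : ℤ}
    (hm0 : 0 ≤ m) (hm : m < n) (hsl : 0 ≤ k.sl n) {D : ℝ} (hD : 0 < D)
    (h1 : D * k.rh n ≤ exp (-4 * c.gm γ (K + 2) * k.sl n)) {j : ℕ} (hj : 1 ≤ j) (hjK : j ≤ K + 1) :
    D ^ j * k.NN n (2 * j - 1) (c.gm γ j / 2) m ≤ D * k.NN n 1 (c.gm γ 1) m := by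
  obtain ⟨-, -, -, -, -, -, -, -, -, -, -, -, -, -, -, hem, hrh, hNN⟩ := hT k hk
  obtain hN : m ≤ k.N := by have := (hk.1.F_mem n hn).2; omega
  have g1 : 1 ≤ c.gm γ 1 := gm_ge hκ hγ 1
  obtain ⟨i, rfl⟩ : ∃ i, j = i + 1 := ⟨j - 1, by omega⟩
  rcases Nat.eq_zero_or_pos i with rfl | hi
  · obtain this := (hNN n 1 (c.gm γ 1 / 2) m (by linarith only [g1]) hm0 hN).2.1 n 1 (c.gm γ 1) le_rfl le_rfl
      (by linarith only [g1])
    simpa using mul_le_mul_of_nonneg_left this hD.le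
  · obtain g2 : 4000 * c.gm γ 1 ≤ c.gm γ (i + 1) := gm_succ hκ (by linarith only [hγ]) (by omega)
    obtain g3 : c.gm γ (i + 1) ≤ c.gm γ (K + 2) := gm_mono hκ (by linarith only [hγ]) (by omega)
    obtain e : 2 * (i + 1) - 1 = 1 + 2 * i := by omega
    rw [e]
    obtain a1 := ((hNN n 1 (c.gm γ (i + 1) / 2) m (by linarith only [g1, g2]) hm0 hN).2.2.2 hn hm).2.2 (2 * i)
    obtain a2 := ((hNN n 1 (c.gm γ 1) m (by linarith only [g1]) hm0 hN).2.2.2 hn hm).1
      (c.gm γ (i + 1) / 2 - c.gm γ 1) (by linarith only [g1, g2])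
    rw [show c.gm γ 1 + (c.gm γ (i + 1) / 2 - c.gm γ 1) = c.gm γ (i + 1) / 2 by ring] at a2
    have a3 := inv_pow_le (hem n m).2.2.1 i
    obtain p1 : 1 ≤ k.NN n 1 (c.gm γ 1) m := (hNN n 1 (c.gm γ 1) m (by linarith only [g1]) hm0 hN).1
    obtain p2 : 1 ≤ k.NN n 1 (c.gm γ (i + 1) / 2) m :=
      (hNN n 1 (c.gm γ (i + 1) / 2) m (by linarith only [g1, g2]) hm0 hN).1
    have r1 : 1 ≤ k.rh n := (hrh n hn).1
    obtain h0 : 0 ≤ D * k.rh n := by positivity
    obtain hG : 0 ≤ c.gm γ (K + 2) * k.sl n := mul_nonneg (by linarith only [g1, g2, g3]) hsl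
    obtain h3 : D * k.rh n ≤ 1 := h1.trans (Real.exp_le_one_iff.2 (by linarith only [hG]))
    obtain h4 : (D * k.rh n) ^ i ≤ D * k.rh n := pow_le_of_le_one h0 h3 (by omega)
    obtain h5 : (D * k.rh n) ^ i * exp ((c.gm γ (i + 1) / 2 - c.gm γ 1) * k.sl n) ≤ 1 := by
      refine (mul_le_mul_of_nonneg_right (h4.trans h1) (exp_pos _).le).trans ?_
      rw [← Real.exp_add]
      refine Real.exp_le_one_iff.2 ?_
      obtain this : (c.gm γ (i + 1) / 2 - c.gm γ 1) * k.sl n ≤ c.gm γ (K + 2) * k.sl n :=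
        mul_le_mul_of_nonneg_right (by linarith only [g1, g2, g3]) hsl
      linarith only [hG, this]
    obtain b1 : k.NN n (1 + 2 * i) (c.gm γ (i + 1) / 2) m ≤
        exp ((c.gm γ (i + 1) / 2 - c.gm γ 1) * k.sl n) * k.NN n 1 (c.gm γ 1) m * k.rh n ^ i := by
      refine a1.trans ?_
      rw [div_eq_mul_one_div]
      exact mul_le_mul a2 a3 (by have := (hem n m).1; (clear * - this; positivity)) (by positivity)
    calc D ^ (i + 1) * k.NN n (1 + 2 * i) (c.gm γ (i + 1) / 2) m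
        ≤ D ^ (i + 1) * (exp ((c.gm γ (i + 1) / 2 - c.gm γ 1) * k.sl n) * k.NN n 1 (c.gm γ 1) m *
          k.rh n ^ i) := mul_le_mul_of_nonneg_left b1 (by positivity)
      _ = D * k.NN n 1 (c.gm γ 1) m *
          ((D * k.rh n) ^ i * exp ((c.gm γ (i + 1) / 2 - c.gm γ 1) * k.sl n)) := by
          rw [mul_pow, pow_succ]; ring
      _ ≤ D * k.NN n 1 (c.gm γ 1) m * 1 := mul_le_mul_of_nonneg_left h5 (by positivity)
      _ = _ := mul_one _

/-- crude bound of the graded majorant -/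
theorem NN_crude (hκ : 0 < c.κ) (hT : TA_s c) (hk : k.OK c) (hn : n ∈ k.F) (hsl : 0 ≤ k.sl n)
    {g : ℝ} (hg : 0 ≤ g) {l : ℤ} (hl0 : 0 ≤ l) (hl : l ≤ n) (e : ℕ) :
    k.NN n e g l ≤ exp ((c.ck * g + 2) * k.sl n + e * (k.W n + k.sl n)) := by
  obtain ⟨-, -, -, -, -, -, -, -, -, -, -, -, -, -, -, hem, hrh, hNN⟩ := hT k hk
  have hN := hk.1.F_mem n hn
  obtain hW : 0 ≤ k.W n := by have := hk.1.W_mono 1 n le_rfl hN.1; rwa [hk.1.W1] at this
  have hck := (Cg_ge hκ).1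
  obtain he : 0 ≤ (e : ℝ) * (k.W n + k.sl n) := by (clear * - hW hsl; positivity)
  rcases hl.eq_or_lt with rfl | hl
  · rw [NN_self hk.1 hn]
    refine Real.exp_le_exp.2 ?_
    have := mul_le_mul_of_nonneg_left (hk.1.jump l hn) hg
    linarith only [this, hsl, he]
  · refine ((hNN n e g l hg hl0 (by omega)).2.2.2 hn hl).2.1.trans ?_
    obtain ⟨e0, e1, e2, -⟩ := hem n l
    obtain h1 : 1 / k.em n l ≤ exp (k.W n + k.sl n) := by
      refine (pow_le_pow_iff_left₀ (by positivity) (exp_pos _).le (two_ne_zero)).1 ?_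
      rw [one_div_pow, ← Real.exp_nat_mul]
      refine e2.trans ((hrh n hn).2.trans (le_of_eq ?_))
      congr 1; push_cast; ring
    obtain h2 : 1 / k.em n l ^ e ≤ exp (e * (k.W n + k.sl n)) := by
      rw [← one_div_pow, Real.exp_nat_mul]
      exact pow_le_pow_left₀ (by positivity) h1 e
    rw [div_eq_mul_one_div, Real.exp_add]
    refine mul_le_mul (Real.exp_le_exp.2 ?_) h2 (by positivity) (exp_pos _).le
    have : 0 ≤ g * k.sl n := mul_nonneg hg hsl
    linarith only [this, hsl, mul_le_mul_of_nonneg_right hck this]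
end

section
variable {K : ℕ} {c : Cs} {M : Mdl} {σ : Seed} {t g : ℝ} {k : Sk} {n : ℤ} {γ : ℝ}

theorem fwd (hκ : 0 < c.κ) (hl : 10 ≤ c.lam) (hT : TA_s c) (hA : AD1_s K c) (hJ : J1_s K c)
    (H : JC K c M σ t g k n) (hB : c.Bud K γ) {m : ℤ} (hm : m ∈ k.F) (hmn : m ≤ n) {r : ℕ}
    {D μ : ℝ} (hr : r ≤ K + 1) (hD : 0 < D)
    (h1 : D * k.rh n ≤ exp (-4 * c.gm γ (K + 2) * k.sl n))
    (h2 : μ * exp (k.W n) ≤ exp (-4 * c.gm γ (K + 2) * k.sl n))
    (h3 : ∀ j, 1 ≤ j → j ≤ r → 128 * |σ.La M t j m| * D ^ j ≤ μ)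
    (h4 : 128 * D * (k.NN n 1 (c.gm γ 1) m / k.w m) ≤ μ) :
    ∀ j, 1 ≤ j → j ≤ r → 32 * |σ.La M t j n| * D ^ j ≤ μ := by
  have hk := H.oc.sk
  have hn := H.oc.hn
  have hN := hk.1.F_mem n hn
  have hM := hk.1.F_mem m hm
  obtain hγ : 1 ≤ γ := by have := hB.1; have : (0 : ℝ) ≤ K := Nat.cast_nonneg K; (rename_i zq0; linarith only [zq0])
  have hsl : 10 ≤ k.sl n := hl.trans (hk.1.sl1.trans (hk.1.sl_mono 1 n le_rfl hN.1))
  have hw : 0 < k.w m := hk.1.w_pos m hM.1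
  rcases hmn.eq_or_lt with rfl | hmn
  · intro j hj hjr
    have := h3 j hj hjr
    obtain this : 0 ≤ |σ.La M t j m| * D ^ j := by (clear * - hD; positivity)
    (rename_i zq0; linarith only [zq0, this])
  have hT' := hT k hk
  obtain ⟨-, -, -, -, -, -, -, -, -, -, -, -, -, -, -, -, hrh, hNN⟩ := hT'
  have g1 : 1 ≤ c.gm γ 1 := gm_ge hκ hγ 1
  obtain g2 : 4000 * c.gm γ 1 ≤ c.gm γ (K + 2) := gm_succ hκ (by linarith only [hγ]) (by omega)
  obtain p1 : 1 ≤ k.NN n 1 (c.gm γ 1) m := (hNN n 1 (c.gm γ 1) m (by linarith only [g1]) (by omega) hM.2).1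
  obtain hμ : 0 ≤ μ := le_trans (by (clear * - hD p1 hw; positivity)) h4
  have r1 : 1 ≤ k.rh n := (hrh n hn).1
  obtain hG : 0 ≤ c.gm γ (K + 2) * k.sl n := mul_nonneg (by linarith only [g1, g2]) (by linarith only [hsl])
  obtain hs : exp (15 * k.sl n) * exp (-2 * c.gm γ (K + 2) * k.sl n) ≤ 1 / 128 := by
    rw [← Real.exp_add]
    obtain a : 15 * k.sl n + -2 * c.gm γ (K + 2) * k.sl n ≤ -10 := by
      obtain this := mul_le_mul_of_nonneg_right g2 (le_trans (by norm_num) hsl : (0 : ℝ) ≤ k.sl n)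
      obtain this := mul_le_mul_of_nonneg_right g1 (le_trans (by norm_num) hsl : (0 : ℝ) ≤ k.sl n)
      (rename_i zq0; linarith only [hsl, zq0, this])
    refine (Real.exp_le_exp.2 a).trans ?_
    rw [Real.exp_neg, ← one_div]
    exact one_div_le_one_div_of_le (by norm_num) (by linarith only [exp_ten])
  intro j
  induction j using Nat.strong_induction_on with
  | _ j ih =>
    intro hj hjr
    obtain ad := adm hA hk hn hB (r := j - 1) (by omega) hD hμ (by linarith only [r1]) hG h1 h2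
    obtain key := (hJ M σ t g k n H γ (j - 1) _ _ hB (by omega) ad (fun a ha har => by
      rw [le_div_iff₀ (by positivity)]
      exact ih a (by omega) ha (by omega))).2 j hj (by omega) (by omega) m hm hmn.le
    obtain s1 := NN_step (K := K) hκ hT hk hn hγ (by omega) hmn (by linarith only [hsl]) hD h1 hj (by omega)
    obtain hDj : 0 < D ^ j := by positivity
    obtain s2 : exp (15 * k.sl n) * (if j ≤ 1 then 0 else
        exp (-2 * c.gm γ (K + 2) * k.sl n) * (μ / D ^ j)) * D ^ j ≤ μ / 128 := by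
      split_ifs
      · simp only [mul_zero, zero_mul]; (clear * - hμ; positivity)
      · calc exp (15 * k.sl n) * (exp (-2 * c.gm γ (K + 2) * k.sl n) * (μ / D ^ j)) * D ^ j
            = exp (15 * k.sl n) * exp (-2 * c.gm γ (K + 2) * k.sl n) * μ := by field_simp
          _ ≤ 1 / 128 * μ := mul_le_mul_of_nonneg_right hs hμ
          _ = _ := by ring
    obtain s3 : k.NN n (2 * j - 1) (c.gm γ j / 2) m / k.w m * D ^ j ≤ μ / 128 := by
      calc k.NN n (2 * j - 1) (c.gm γ j / 2) m / k.w m * D ^ j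
          = D ^ j * k.NN n (2 * j - 1) (c.gm γ j / 2) m / k.w m := by ring
        _ ≤ D * k.NN n 1 (c.gm γ 1) m / k.w m := div_le_div_of_nonneg_right s1 hw.le
        _ = 128 * D * (k.NN n 1 (c.gm γ 1) m / k.w m) / 128 := by ring
        _ ≤ μ / 128 := by linarith only [h4]
    have s4 := h3 j hj hjr
    obtain s5 : |σ.La M t j n| ≤ |σ.La M t j m| + |σ.La M t j m - σ.La M t j n| := by
      have := abs_sub (σ.La M t j m) (σ.La M t j m - σ.La M t j n)
      rwa [sub_sub_cancel] at this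
    have s6 := mul_le_mul_of_nonneg_right (s5.trans (add_le_add le_rfl key)) hDj.le
    simp only [add_mul] at s6
    linarith only [hμ, s2, s3, s4, s6]

theorem crude (hκ : 0 < c.κ) (hl : 10 ≤ c.lam) (hT : TA_s c) (hA : AD1_s K c) (hJ : J1_s K c)
    (H : JC K c M σ t g k n) (hB : c.Bud K γ) {j : ℕ} {l : ℤ} (hj : 1 ≤ j) (hjK : j ≤ K + 1)
    (hl0 : 0 ≤ l) (hln : l ≤ n) :
    |σ.pj M t j l| ≤ exp (j * (2 * k.W n + 7 * c.ck * c.gm γ (K + 2) * k.sl n)) := by
  have hk := H.oc.sk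
  have hn := H.oc.hn
  have hN := hk.1.F_mem n hn
  obtain hγ : 1 ≤ γ := by have := hB.1; have : (0 : ℝ) ≤ K := Nat.cast_nonneg K; (rename_i zq0; linarith only [zq0])
  have hs1 : k.sl 1 ≤ k.sl n := hk.1.sl_mono 1 n le_rfl hN.1
  have hsl : 10 ≤ k.sl n := hl.trans (hk.1.sl1.trans hs1)
  obtain hW : 0 ≤ k.W n := by have := hk.1.W_mono 1 n le_rfl hN.1; rwa [hk.1.W1] at this
  have hck := (Cg_ge hκ).1
  have g1 : 1 ≤ c.gm γ 1 := gm_ge hκ hγ 1
  obtain g2 : 4000 * c.gm γ 1 ≤ c.gm γ (K + 2) := gm_succ hκ (by linarith only [hγ]) (by omega)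
  have g3 : 1 ≤ c.gm γ j := gm_ge hκ hγ j
  obtain g4 : c.gm γ j ≤ c.gm γ (K + 2) := gm_mono hκ (by linarith only [hγ]) (by omega)
  have hT' := hT k hk
  obtain ⟨-, -, -, -, -, -, -, -, -, hw4, -, -, -, -, -, -, hrh, -⟩ := hT'
  obtain ⟨r1, r2⟩ := hrh n hn
  set G := c.gm γ (K + 2) with hG
  set s := k.sl n with hs
  set W := k.W n with hWd
  obtain s0 : 0 ≤ s := le_trans (by norm_num) hsl
  obtain hGs : 4000 * s ≤ G * s := mul_le_mul_of_nonneg_right (by linarith only [g1, g2]) s0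
  obtain hGs' : 4000 * (c.gm γ 1 * s) ≤ G * s := by
    linarith only [mul_le_mul_of_nonneg_right g2 s0]
  obtain hGs0 : 0 ≤ G * s := by linarith only [hGs, s0]
  obtain ck0 : 0 ≤ c.ck := le_trans (by norm_num) hck
  have hcGs : 2 * (G * s) ≤ c.ck * (G * s) := mul_le_mul_of_nonneg_right hck hGs0
  obtain hc1 : 4000 * (c.ck * (c.gm γ 1 * s)) ≤ c.ck * (G * s) := by
    linarith only [mul_le_mul_of_nonneg_left hGs' ck0]
  have hc0 : 0 ≤ c.ck * (c.gm γ 1 * s) := mul_nonneg ck0 (mul_nonneg (zero_le_one.trans g1) s0)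
  have hcG0 : 0 ≤ c.ck * (G * s) := mul_nonneg ck0 hGs0
  set X := 2 * W + 6 * (c.ck * (G * s)) with hX
  obtain hX0 : 0 ≤ X := by linarith only [hsl, hW, hGs, hcGs]
  obtain hD1 : exp (-X) ≤ 1 := Real.exp_le_one_iff.2 (by linarith only [hsl, hW, hGs, hcGs])
  obtain h1 : exp (-X) * k.rh n ≤ exp (-4 * G * s) := by
    refine (mul_le_mul_of_nonneg_left r2 (exp_pos _).le).trans ?_
    rw [← Real.exp_add]
    exact Real.exp_le_exp.2 (by linarith only [hsl, hGs, hcGs])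
  obtain h2 : exp (-W - 4 * G * s) * exp W ≤ exp (-4 * G * s) := by
    rw [← Real.exp_add]
    exact Real.exp_le_exp.2 (by linarith only [])
  obtain h3 : ∀ a, 1 ≤ a → a ≤ K + 1 →
      128 * |σ.La M t a 1| * exp (-X) ^ a ≤ exp (-W - 4 * G * s) := by
    intro a ha haK
    obtain b1 : |σ.La M t a 1| ≤ 2 := by
      rw [La_one]
      rcases ha.eq_or_lt with rfl | ha
      · rw [iteratedDeriv_one]
        have := abs_le.1 H.at'.v1
        exact abs_le.2 ⟨by linarith only [this], by linarith only [this]⟩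
      · linarith only [H.at'.vj a ha haK]
    obtain b2 : exp (-X) ^ a ≤ exp (-X) := pow_le_of_le_one (exp_pos _).le hD1 (by omega)
    calc 128 * |σ.La M t a 1| * exp (-X) ^ a ≤ exp 10 * exp (-X) :=
          mul_le_mul (by linarith only [b1, exp_ten]) b2 (by positivity) (exp_pos _).le
      _ ≤ _ := by
          rw [← Real.exp_add]
          exact Real.exp_le_exp.2 (by linarith only [hsl, hW, hGs, hcGs])
  obtain h4 : 128 * exp (-X) * (k.NN n 1 (c.gm γ 1) 1 / k.w 1) ≤ exp (-W - 4 * G * s) := by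
    rw [hk.1.w1, div_one]
    obtain b1 := NN_crude hκ hT hk hn (by linarith only [hsl]) (g := c.gm γ 1) (by linarith only [g1]) (l := 1)
      (by norm_num) hN.1 1
    calc 128 * exp (-X) * k.NN n 1 (c.gm γ 1) 1
        ≤ 128 * exp (-X) * exp ((c.ck * c.gm γ 1 + 2) * s + (1 : ℕ) * (W + s)) :=
          mul_le_mul_of_nonneg_left b1 (by positivity)
      _ ≤ exp 10 * exp (-X) * exp ((c.ck * c.gm γ 1 + 2) * s + (1 : ℕ) * (W + s)) := by
          gcongr; linarith only [exp_ten]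
      _ ≤ _ := by
          rw [← Real.exp_add, ← Real.exp_add]
          refine Real.exp_le_exp.2 ?_
          push_cast
          linarith only [hX, hW, hsl, hGs, hcGs, hc1, hc0, hcG0]
  have f := fwd hκ hl hT hA hJ H hB hk.1.one hN.1 le_rfl (exp_pos _) h1 h2 h3 h4
  obtain ad := adm hA hk hn hB (r := K + 1) le_rfl (exp_pos _) (exp_pos _).le (by linarith only [r1])
    hGs0 h1 h2
  obtain key := (hJ M σ t g k n H γ (K + 1) _ _ hB le_rfl ad (fun a ha har => by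
      rw [le_div_iff₀ (by positivity)]
      exact f a ha har)).1 j l hj hjK hl0 hln
  refine key.trans ?_
  obtain hj1 : (1 : ℝ) ≤ j := by exact_mod_cast hj
  obtain hhalf : ∀ y z : ℝ, y + 10 ≤ z → exp y ≤ exp z / 2 := fun y z h => by
    obtain this : exp y * exp 10 ≤ exp z := by rw [← Real.exp_add]; exact Real.exp_le_exp.2 h
    linarith only [this, mul_le_mul_of_nonneg_left exp_ten (exp_pos y).le, exp_pos y]
  have jc : c.ck * (G * s) ≤ j * (c.ck * (G * s)) := le_mul_of_one_le_left hcG0 hj1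
  obtain t1 : k.w4 l * (exp (-W - 4 * G * s) / exp (-X) ^ j) ≤
      exp (j * (2 * W + 7 * c.ck * G * s)) / 2 := by
    rw [← Real.exp_nat_mul, ← Real.exp_sub]
    refine (mul_le_mul_of_nonneg_right (hw4 n hn l hl0 hln).1 (exp_pos _).le).trans ?_
    rw [← Real.exp_add]
    refine hhalf _ _ ?_
    rw [hX]
    linarith only [jc, hcGs, hGs, hsl, hW, hs1, hWd]
  obtain t2 : k.NN n (2 * j - 1) (c.gm γ j) l ≤ exp (j * (2 * W + 7 * c.ck * G * s)) / 2 := by
    refine (NN_crude hκ hT hk hn (by linarith only [hsl]) (g := c.gm γ j) (by linarith only [g3]) hl0 hln _).trans ?_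
    refine hhalf _ _ ?_
    obtain e1 : ((2 * j - 1 : ℕ) : ℝ) ≤ 2 * j := by
      have : 2 * j - 1 ≤ 2 * j := Nat.sub_le _ _
      exact_mod_cast this
    obtain e2 : ((2 * j - 1 : ℕ) : ℝ) * (W + s) ≤ 2 * j * (W + s) :=
      mul_le_mul_of_nonneg_right e1 (by linarith only [hsl, hW])
    obtain e3 : c.ck * (c.gm γ j * s) ≤ c.ck * (G * s) :=
      mul_le_mul_of_nonneg_left (mul_le_mul_of_nonneg_right g4 (by linarith only [hsl])) (by linarith only [hck])
    obtain e4 : j * s ≤ j * (c.ck * (G * s)) :=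
      mul_le_mul_of_nonneg_left (by linarith only [hGs, hcGs, s0]) (zero_le_one.trans hj1)
    linarith only [e2, e3, e4, jc, hcGs, hGs, hsl]
  simp only [Sk.MJ]
  linarith only [t1, t2]
end

end J1F

theorem j1f (K : ℕ) : Hier fun c => TA_s c → AD1_s K c → J1_s K c → J1F_s K c := by
  refine (Hier.base.and (Hier.lam_ge (fun _ => 10) fun _ _ => rfl)).mono ?_
  rintro c ⟨⟨-, -, -, -, hκ, -⟩, hl⟩ hT hA hJ M σ t g k n H γ hB
  exact ⟨fun m hm hmn r D μ hr hD h1 h2 h3 h4 =>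
      J1F.fwd hκ hl hT hA hJ H hB hm hmn hr hD h1 h2 h3 h4,
    fun j l hj hjK h0 hn => J1F.crude hκ hl hT hA hJ H hB hj hjK h0 hn⟩

end
end Pool.Agent.MP_9cbfe4_an

end

/-! ### Part VST -/

section

/-! THM-2, glue `JFR`, row VST: static leaves. -/

namespace Pool.Agent.MP_9cbfe4_an

open Finset Filter Topology Real

noncomputable section

namespace VST

theorem dP_le (x y : ℝ) : dP x ≤ dP y + |x - y| := by
  unfold dP
  have h1 := abs_sub_le x y (Real.pi / 2)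
  obtain h2 : |x + Real.pi / 2| ≤ |x - y| + |y + Real.pi / 2| := by
    have := abs_add_le (x - y) (y + Real.pi / 2)
    rwa [show x - y + (y + Real.pi / 2) = x + Real.pi / 2 by ring] at this
  rcases le_total |y - Real.pi / 2| |y + Real.pi / 2| with h | h
  · rw [min_eq_left h]; linarith only [h1, min_le_left |x - Real.pi / 2| |x + Real.pi / 2|]
  · rw [min_eq_right h]; linarith only [h2, min_le_right |x - Real.pi / 2| |x + Real.pi / 2|]

theorem exp_big {x : ℝ} (hx : 20 ≤ x) : (10 : ℝ) ^ 6 ≤ exp x := by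
  obtain h : (2 : ℝ) ≤ exp 1 := by linarith only [Real.add_one_le_exp (1 : ℝ)]
  obtain e : exp 20 = exp 1 ^ 20 := by rw [← Real.exp_nat_mul]; norm_num
  calc (10 : ℝ) ^ 6 ≤ 2 ^ 20 := by norm_num
    _ ≤ exp 1 ^ 20 := pow_le_pow_left₀ (by norm_num) h 20
    _ = exp 20 := e.symm
    _ ≤ exp x := exp_le_exp.2 hx

/-- the algebra of the final estimate -/
theorem alg {e dv dc x x' y y' nu nu' nJ δ w A1 A2 A3 A4 : ℝ} (hv : |dv| ≤ δ) (hc : |dc| ≤ δ)
    (h1 : |e - (dv - nu' * dc) * x'| ≤ A1 * δ * w) (h2 : |x' - x| ≤ A2 * w)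
    (e1 : nu * x = -y) (e2 : nu' * x' = -y') (h3 : |y' - y| ≤ A3 * w)
    (h4 : |(nu - nJ) * x| ≤ A4 * w) :
    |e - (dv - nJ * dc) * x| ≤ (A1 + A2 + A3 + A4) * δ * w := by
  have hδ : 0 ≤ δ := (abs_nonneg _).trans hv
  obtain id : e - (dv - nJ * dc) * x = (e - (dv - nu' * dc) * x') + dv * (x' - x) + dc * (y' - y)
      + -(dc * ((nu - nJ) * x)) := by
    linear_combination (-dc) * e2 + dc * e1
  obtain b2 : |dv * (x' - x)| ≤ δ * (A2 * w) := by
    rw [abs_mul]; exact mul_le_mul hv h2 (abs_nonneg _) hδ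
  obtain b3 : |dc * (y' - y)| ≤ δ * (A3 * w) := by
    rw [abs_mul]; exact mul_le_mul hc h3 (abs_nonneg _) hδ
  obtain b4 : |-(dc * ((nu - nJ) * x))| ≤ δ * (A4 * w) := by
    rw [abs_neg, abs_mul]; exact mul_le_mul hc h4 (abs_nonneg _) hδ
  rw [id]
  have t1 := abs_add_le ((e - (dv - nu' * dc) * x') + dv * (x' - x) + dc * (y' - y))
    (-(dc * ((nu - nJ) * x)))
  have t2 := abs_add_le ((e - (dv - nu' * dc) * x') + dv * (x' - x)) (dc * (y' - y))
  have t3 := abs_add_le (e - (dv - nu' * dc) * x') (dv * (x' - x))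
  linarith only [h1, b2, b3, b4, t1, t2, t3]

theorem fr_ne {K : ℕ} {c : Cs} {M : Mdl} {t g : ℝ} {S : Sq} {k : Sk} {n : ℤ}
    (h : OC K c M t g S k n) : S.nu1 n * S.fr 1 n = -(S.b 1 * S.fr 2 n) := by
  have h1 := h.fit.f2 n h.hn le_rfl
  have h2 := h.sk.1.w_pos n (h.sk.1.F_mem n h.hn).1
  obtain h3 : S.fr 1 n ≠ 0 := by
    intro h0
    rw [h0, abs_zero] at h1; linarith only [h1, h2]
  unfold Sq.nu1
  field_simp

theorem main {K : ℕ} {c : Cs} (hκ : 0 < c.κ) (hl : 1 ≤ c.lam) (hS : SOK_s c) (hA : TA_s c)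
    (hT : TUBE_s K c) (hR : R2_s K c) (hH : SHD_s K c) : VST_s K c := by
  intro M s t k T nuJ n σ D D2 ν R δ τ v1 c1 h g
  obtain hτ : τ ∈ Set.Icc (t - D) (t + D) := by
    have := abs_le.1 g.ht
    constructor <;> linarith only [this.1, this.2]
  obtain ⟨jc', tube, -, -⟩ := h.j4 τ hτ
  have oc := h.jc.oc
  have oc' := jc'.oc
  have k1 := oc.sk.1
  have hn := oc.hn
  have n1 := h.n1
  have hN := (k1.F_mem n hn).2
  have hw := k1.w_pos n n1.le
  obtain hW : 0 ≤ k.W n := by have := k1.W_mono 1 n le_rfl n1.le; linarith only [this, k1.W1]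
  have eW : 1 ≤ exp (k.W n) := one_le_exp hW
  obtain hsl : 1 ≤ k.sl n := by have := k1.sl_mono 1 n le_rfl n1.le; linarith only [hl, this, k1.sl1]
  have hδ0 : 0 ≤ δ := (abs_nonneg _).trans g.hv
  have D0 := h.D0
  have ν0 := h.ν0
  have DD := h.DD
  have D20 : 0 < D2 := D0.trans_le DD
  -- exponents
  obtain hK : (1 : ℝ) ≤ (K : ℝ) + 1 := by have : (0 : ℝ) ≤ K := Nat.cast_nonneg K; linarith only []
  obtain ⟨ck2, Cg4⟩ := J1F.Cg_ge hκ
  set γ := c.gm (K + 1) 1 with hγ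
  have γ1 : 1 ≤ γ := J1F.gm_ge hκ hK 1
  obtain γ2 : c.ck * γ ≤ c.gm (K + 1) (K + 3) := by
    obtain a1 : c.gm (K + 1) 2 ≤ c.gm (K + 1) (K + 3) := J1F.gm_mono hκ (by linarith only []) (by omega)
    obtain a2 : c.gm (K + 1) 2 = c.Cg * γ := by rw [hγ]; unfold Cs.gm; ring
    obtain a3 : c.ck ≤ c.Cg := by unfold Cs.Cg; nlinarith only [ck2]
    linarith only [a1, a2, mul_le_mul_of_nonneg_right a3 (zero_le_one.trans γ1)]
  obtain γ3 : 1000 * (c.ck * γ) ≤ c.C0 := by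
    have a1 := h.bud.2
    obtain a2 : 0 ≤ c.ck * γ := by positivity
    have a3 := mul_le_mul hK γ2 a2 (zero_le_one.trans hK)
    linarith only [a1, a3]
  have γ4 : γ ≤ c.ck * γ := le_mul_of_one_le_left (zero_le_one.trans γ1) (one_le_two.trans ck2)
  obtain hσ : 1000 * (c.ck * γ) * k.sl n ≤ σ :=
    (mul_le_mul_of_nonneg_right γ3 (by linarith only [hsl])).trans (h.sl n le_rfl)
  have u1 : k.sl n ≤ γ * k.sl n := le_mul_of_one_le_left (zero_le_one.trans hsl) γ1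
  obtain u2 : γ * k.sl n ≤ c.ck * γ * k.sl n := mul_le_mul_of_nonneg_right γ4 (by linarith only [hsl])
  obtain u3 : 1000 * (c.ck * γ * k.sl n) ≤ σ := by linarith only [hσ]
  obtain small : ∀ x : ℝ, x + 20 ≤ σ → 10 ^ 6 * (exp (-σ) * exp x) ≤ 1 := by
    intro x hx
    obtain a1 := exp_big (x := σ - x) (by linarith only [hx])
    obtain a2 : exp (σ - x) * (exp (-σ) * exp x) = 1 := by
      rw [← exp_add, ← exp_add]; simp
    obtain a3 : 0 < exp (-σ) * exp x := by positivity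
    linarith only [a2, mul_le_mul_of_nonneg_right a1 a3.le]
  obtain hδ1 : δ ≤ 1 / 2 := by
    obtain a1 := small 0 (by linarith only [hsl, hσ, u1, u2])
    have a2 := g.hδ
    rw [exp_zero] at a1
    linarith only [a1, a2, le_mul_of_one_le_right hδ0 eW, hδ0]
  -- the second orbit
  have at' := jc'.at'
  obtain L0 : 0 ≤ c.L := by have := (abs_nonneg _).trans g.bx.1; linarith only [this]
  obtain o2 : O2 c M τ (M.orb τ 1 (v1, c1)) := by
    refine ⟨at'.t0, at'.t1, (hS M oc.ok.ok τ ⟨at'.t0.le, at'.t1.le⟩).1 1 (v1, c1) ?_ ?_ ?_, ?_⟩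
    · show |v1| ≤ 2 * c.L
      linarith only [L0, g.bx.1]
    · show |c1| ≤ 2 * c.L
      linarith only [L0, g.bx.2]
    · intro a1
      have a2 := dP_le (s.v τ) v1
      rw [abs_sub_comm] at a2
      have a3 := at'.far
      have a4 := g.hv
      change dP v1 < 4 / 100 at a1
      linarith only [hδ1, a2, a3, a4, a1]
    · simpa [Mdl.orb, Mdl.pos] using g.bx.symm
  obtain X0 : (M.orb τ 1 (v1, c1)).X 0 - (s.orb M τ).X 0 = c1 - s.c τ := by
    simp [Seed.orb, Mdl.orb, Mdl.pos]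
  obtain X1 : (M.orb τ 1 (v1, c1)).X 1 - (s.orb M τ).X 1 = v1 - s.v τ := by
    simp [Seed.orb, Mdl.orb, Mdl.pos]
  obtain ⟨-, -, shd⟩ := (hH M τ 4 _ k n oc').2 _ o2 δ (by rw [X0]; exact g.hc) (by rw [X1]; exact g.hv)
    (g.hδ.trans (exp_le_exp.2 (by linarith only [hsl, hσ, u1, u2])))
  rw [X0, X1] at shd
  -- the tube
  obtain ⟨-, w40, w4F, -, -, -, -, -, -, -, -, Elo, -, -, BE, em, -, NN⟩ := hA k oc.sk
  have o2' : O2 c M τ (s.orb M τ) := ⟨oc'.t0, oc'.t1, oc'.orb, oc'.box0⟩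
  obtain eR : 1 ≤ exp (2 * R) := one_le_exp (by linarith only [h.R0])
  set Q := D2 * exp (2 * R) + (ν + δ) * exp (k.W n) with hQ
  have q0 : D * exp (2 * R) ≤ D2 * exp (2 * R) := mul_le_mul_of_nonneg_right DD (exp_pos _).le
  have q1 : D * k.rh n ≤ D2 * exp (2 * R) := (mul_le_mul_of_nonneg_left h.rh D0.le).trans q0
  obtain q2 : 0 ≤ δ * exp (k.W n) := by positivity
  obtain q3 : 0 ≤ ν * exp (k.W n) := by positivity
  obtain q4 : 0 ≤ D2 * exp (2 * R) := by positivity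
  obtain sz1 : k.sz n (512 * ν) D 0 ≤ 512 * Q := by unfold Sk.sz; rw [hQ]; linarith only [q1, q2, q4]
  obtain sz2 : k.sz n (512 * ν) D 0 ≤ 513 * exp (-σ) := by
    unfold Sk.sz; linarith only [q1, h.hν, h.hD]
  obtain sz3 : k.sz n (512 * ν) D 0 ≤ exp (-(c.ck * γ + 60) * k.sl n) := by
    obtain a1 := small ((c.ck * γ + 60) * k.sl n) (by linarith only [hsl, hσ, u1, u2])
    obtain a2 : exp ((c.ck * γ + 60) * k.sl n) * exp (-(c.ck * γ + 60) * k.sl n) = 1 := by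
      rw [← exp_add, neg_mul, add_neg_cancel, exp_zero]
    have a3 := exp_pos (-(c.ck * γ + 60) * k.sl n)
    have a4 := mul_le_mul_of_nonneg_right a1 a3.le
    have a5 := exp_pos (-σ)
    rw [mul_assoc, mul_assoc, a2] at a4
    linarith only [a4, a5, sz2]
  obtain ⟨-, tcs⟩ := hT M t 2 _ k n oc τ _ o2' _ _ _ γ (zero_le_one.trans γ1)
    (by linarith only [γ1, γ3, γ4]) tube sz3
  set Y := exp ((γ + 32) * k.sl n) with hY
  obtain Y1 : 1 ≤ Y := one_le_exp (by linarith only [hsl, u1])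
  set z := k.sz n (512 * ν) D 0 * Y with hz
  obtain z1 : z ≤ 1 / 10000 := by
    obtain a1 := small ((γ + 32) * k.sl n + 20) (by linarith only [hsl, hσ, u1, u2])
    have a2 := exp_big (x := 20) le_rfl
    rw [exp_add, ← hY] at a1
    obtain a3 : z ≤ 513 * exp (-σ) * Y := mul_le_mul_of_nonneg_right sz2 (by linarith only [Y1])
    obtain a4 : 0 < exp (-σ) * Y := by positivity
    have a5 := mul_le_mul_of_nonneg_left a2 a4.le
    linarith only [a1, a3, a4, a5]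
  obtain Q0 : 0 ≤ Q := by rw [hQ]; linarith only [q2, q3, q4]
  obtain z2 : z ≤ 512 * (Q * Y) := by
    obtain this := mul_le_mul_of_nonneg_right sz1 (show 0 ≤ Y by linarith only [Y1])
    linarith only [this]
  obtain ⟨-, cl⟩ := hR M t 2 _ k n oc (by norm_num) τ _ o2' z z1 tcs
  obtain c1' := cl 0 n 2 le_rfl (by omega) le_rfl fun l a b => oc.fit.f1 l (by omega) b
  obtain c2' := cl 1 n (2 * k.E n 1) (by omega) n1 le_rfl fun l a b =>
    oc.fit.fE n hn le_rfl 1 l le_rfl a b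
  have f2 := oc'.fit.fE n hn le_rfl 1 n le_rfl n1 le_rfl
  norm_num at c1' c2' f2
  obtain E0 : 0 ≤ k.E n 1 := by
    obtain this := Elo n 1 le_rfl (by omega)
    rw [k1.w1] at this; linarith only [this]
  obtain bl0 : 0 ≤ c.bl := by linarith only [(k1.ch_mem 1).1, (k1.ch_mem 1).2]
  obtain BE1 : k.B 1 * k.E n 1 ≤ 1 := (BE n (by omega)).trans (exp_le_one_iff.2 (by linarith only [bl0]))
  have dl0 : 0 < c.dl := exp_pos _
  obtain dlE : c.dl * k.E n 1 ≤ 1 := by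
    refine le_trans (mul_le_mul_of_nonneg_right ?_ E0) BE1
    rw [k1.ch_one.2]; exact exp_le_exp.2 (by linarith only [bl0])
  have QY : Q ≤ Q * Y := le_mul_of_one_le_right Q0 Y1
  obtain νQ : ν ≤ Q := by rw [hQ]; linarith only [q2, q4, le_mul_of_one_le_right ν0 eW]
  obtain DQ : D2 ≤ Q := by rw [hQ]; linarith only [q2, q3, le_mul_of_one_le_right D20.le eR]
  obtain dX : ∀ l : ℤ, 0 ≤ l → l ≤ 1 → |(s.orb M τ).X l - (s.orb M t).X l| ≤ 513 * (Q * Y) := by
    intro l l0 l1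
    obtain a1 := tube.2.2.2 l l0 (by omega)
    obtain a2 : k.w4 l ≤ 1 := by
      rcases l0.eq_or_lt with rfl | hl
      · rw [w40]; norm_num
      · obtain rfl : l = 1 := by omega
        rw [w4F 1 k1.one, k1.w1]
    obtain ⟨e0, e1, e2, -⟩ := em n l
    obtain a3 := ((NN n 1 γ l (by linarith only [γ1]) l0 (by omega)).2.2.2 hn (by omega)).2.1
    rw [pow_one] at a3
    obtain a4 : 1 / k.em n l ≤ exp (2 * R) := by
      refine le_trans ?_ (e2.trans h.rh)
      exact one_div_le_one_div_of_le (by positivity) (by nlinarith only [e0, e1])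
    obtain a5 : exp ((γ + 2) * k.sl n) ≤ Y := exp_le_exp.2 (by linarith only [hsl])
    obtain a6 : k.NN n 1 γ l ≤ Y * exp (2 * R) := by
      rw [div_eq_mul_one_div] at a3
      exact a3.trans (mul_le_mul a5 a4 (by positivity) (by linarith only [Y1]))
    have a7 := mul_le_mul_of_nonneg_left a6 D0.le
    obtain a8 : D * exp (2 * R) * Y ≤ Q * Y :=
      mul_le_mul_of_nonneg_right (by rw [hQ]; linarith only [q0, q2, q3]) (by linarith only [Y1])
    obtain a9 := mul_le_mul_of_nonneg_right a2 (show 0 ≤ 512 * ν by linarith only [ν0])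
    unfold Sk.mu at a1
    linarith only [QY, νQ, a1, a7, a8, a9]
  obtain db : |(s.orb M τ).b 1 - (s.orb M t).b 1| ≤ c.dl * (1027 * (Q * Y)) := by
    obtain x1 := tcs.x 1 (by omega) n1.le
    obtain far : 1 ≤ dP ((s.orb M t).X 1) := by
      simpa [Seed.orb, Mdl.orb, Mdl.pos] using h.jc.at'.far
    obtain a1 := (oc.ok.ok.tay t τ ((s.orb M t).X 1) ((s.orb M t).X (1 - 1)) ((s.orb M τ).X 1)
      ((s.orb M τ).X (1 - 1)) c.dl ⟨oc.t0.le, oc.t1.le⟩ ⟨oc'.t0.le, oc'.t1.le⟩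
      (oc.orb.box 1 (by omega)) (oc.orb.box _ le_rfl) (oc'.orb.box 1 (by omega))
      (oc'.orb.box _ le_rfl) ⟨by linarith only [x1], Or.inl ⟨rfl, Or.inl (by linarith only [x1, far])⟩⟩).2.2
    rw [← oc.orb.hb 1 le_rfl, ← oc'.orb.hb 1 le_rfl, sub_self, ← mul_add] at a1
    refine a1.trans (mul_le_mul_of_nonneg_left ?_ dl0.le)
    linarith only [DD, QY, DQ, dX 0 le_rfl (by omega), dX 1 (by omega) le_rfl, g.ht]
  obtain QY0 : 0 ≤ Q * Y := by linarith only [D0, DD, QY, DQ]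
  obtain z0 : 0 ≤ z * k.w n := by
    have := (abs_nonneg _).trans c1'
    linarith only [this]
  obtain h3 : |(s.orb M τ).b 1 * (s.orb M τ).fr 2 n - (s.orb M t).b 1 * (s.orb M t).fr 2 n|
      ≤ 6156 * (Q * Y) * k.w n := by
    obtain ⟨b0, b1⟩ := oc.fit.b 1 le_rfl n1.le
    obtain id : (s.orb M τ).b 1 * (s.orb M τ).fr 2 n - (s.orb M t).b 1 * (s.orb M t).fr 2 n =
        ((s.orb M τ).b 1 - (s.orb M t).b 1) * (s.orb M τ).fr 2 n
          + (s.orb M t).b 1 * ((s.orb M τ).fr 2 n - (s.orb M t).fr 2 n) := by ring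
    rw [id]
    refine (abs_add_le _ _).trans ?_
    rw [abs_mul, abs_mul, abs_of_nonneg b0]
    obtain a1 := mul_le_mul db f2 (abs_nonneg _) (by (clear * - dl0 D20 ν0 hδ0; positivity))
    have a2 := mul_le_mul b1 c2' (abs_nonneg _) (b0.trans b1)
    obtain a3 := mul_le_mul_of_nonneg_left dlE (show 0 ≤ 4108 * (Q * Y) * k.w n by (clear * - D20 ν0 hδ0 hw; positivity))
    obtain a4 := mul_le_mul_of_nonneg_left BE1 (show 0 ≤ 4 * (z * k.w n) by (clear * - z0; positivity))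
    have a5 := mul_le_mul_of_nonneg_right z2 hw.le
    linarith only [a1, a2, a3, a4, a5]
  obtain h4 : |((s.orb M t).nu1 n - nuJ) * (s.orb M t).fr 1 n| ≤ 4 * (Q * Y) * k.w n := by
    rw [abs_mul]
    obtain a1 := mul_le_mul h.nu (oc.fit.f1 n n1.le le_rfl) (abs_nonneg _) (by positivity)
    have a2 := mul_le_mul_of_nonneg_right (DQ.trans QY) hw.le
    linarith only [a1, a2]
  obtain h2 : |(s.orb M τ).fr 1 n - (s.orb M t).fr 1 n| ≤ 2048 * (Q * Y) * k.w n := by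
    have a5 := mul_le_mul_of_nonneg_right z2 hw.le
    linarith only [c1', a5]
  obtain h1 : δ ^ 2 * exp (k.W n + 16 * k.sl n) * k.w n ≤ Q * Y * δ * k.w n := by
    obtain a1 : exp (16 * k.sl n) ≤ Y := exp_le_exp.2 (by linarith only [hsl, u1])
    obtain a2 : δ * exp (k.W n) * exp (16 * k.sl n) ≤ Q * Y :=
      mul_le_mul (by rw [hQ]; linarith only [q3, q4]) a1 (exp_pos _).le Q0
    obtain a3 := mul_le_mul_of_nonneg_right a2 (show 0 ≤ δ * k.w n by positivity)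
    rw [exp_add]; linarith only [a3]
  refine (alg g.hv g.hc (shd.trans h1) h2 (fr_ne oc) (fr_ne oc') h3 h4).trans ?_
  obtain a1 : 10 ^ 6 * Y ≤ exp σ := by
    obtain a2 := small ((γ + 32) * k.sl n) (by linarith only [hsl, hσ, u1, u2])
    rw [← hY] at a2
    obtain a3 : exp σ * exp (-σ) = 1 := by rw [← exp_add]; simp
    have a4 := mul_le_mul_of_nonneg_left a2 (exp_pos σ).le
    obtain a5 : exp σ * (10 ^ 6 * (exp (-σ) * Y)) = 10 ^ 6 * Y * (exp σ * exp (-σ)) := by ring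
    rw [a5, a3] at a4
    linarith only [a4]
  have a6 := mul_le_mul_of_nonneg_right a1 Q0
  obtain a7 : Q * Y + 2048 * (Q * Y) + 6156 * (Q * Y) + 4 * (Q * Y) ≤ exp σ * Q := by linarith only [D0, DD, QY, DQ, a6]
  exact mul_le_mul_of_nonneg_right (mul_le_mul_of_nonneg_right a7 hδ0) hw.le

end VST

theorem vst (K : ℕ) :
    Hier fun c => SOK_s c → TA_s c → TUBE_s K c → R2_s K c → SHD_s K c → VST_s K c :=
  (Hier.base.and (Hier.lam_ge (fun _ => 1) fun _ _ => rfl)).mono fun _ h =>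
    VST.main h.1.2.2.2.2.1 h.2

end
end Pool.Agent.MP_9cbfe4_an

end

/-! ### Part VJ1 -/

section

/-! Row VJ1. -/

namespace Pool.Agent.MP_9cbfe4_an

open Finset Real

namespace VJ1

variable {K : ℕ} {c : Cs} {M : Mdl} {s : Seed} {t : ℝ} {k : Sk} {T : Sq} {nuJ : ℝ} {n : ℤ}
  {σ D D2 ν R : ℝ}

/-- every exponent of section J is paid by `σ / 1000` -/
theorem gs (hl : 0 ≤ c.lam) (H : VC K c M s t k T nuJ n σ D D2 ν R) {g : ℝ}
    (hg : g ≤ c.gm (K + 1) (K + 3)) (hg0 : 0 ≤ g) {i : ℤ} (hi : 1 ≤ i) (hin : i ≤ n) :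
    g * k.sl i ≤ σ / 1000 := by
  have h := H.jc.oc.sk.1
  have h0 : 0 ≤ k.sl i := hl.trans (h.sl1.trans (h.sl_mono 1 i le_rfl hi))
  have h1 := H.sl i hin
  have h2 := H.bud.2
  have h3 : (0 : ℝ) ≤ K := Nat.cast_nonneg K
  obtain h4 : 1000 * g ≤ c.C0 := by nlinarith only [hg, h2, hg0]
  nlinarith only [h1, h0, h4]

/-- the same for `k.σ i`, `i ≤ n` -/
theorem gσ (hκ : 0 < c.κ) (hl : 0 ≤ c.lam) (H : VC K c M s t k T nuJ n σ D D2 ν R) {g : ℝ}
    (hg : g ≤ c.gm (K + 1) (K + 2)) (hg0 : 0 ≤ g) {i : ℤ} (hin : i ≤ n) :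
    g * k.σ i ≤ σ / 1000 := by
  have h := H.jc.oc.sk.1
  have nF := H.jc.oc.hn
  obtain ⟨n1, nN⟩ := h.F_mem n nF
  obtain hγ : (1 : ℝ) ≤ K + 1 := by linarith only [(Nat.cast_nonneg K : (0 : ℝ) ≤ K)]
  obtain ck : 2 ≤ c.ck := by unfold Cs.ck; linarith only [hκ]
  have g0 := J1F.gm_ge hκ hγ (K + 2)
  obtain a : c.ck * g ≤ c.gm (K + 1) (K + 3) := by
    obtain e : c.gm (K + 1) (K + 3) = c.gm (K + 1) (K + 2) * (1000 * c.ck ^ 2) := by
      unfold Cs.gm Cs.Cg; ring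
    obtain this : c.ck ≤ 1000 * c.ck ^ 2 := by nlinarith only [ck]
    rw [e, mul_comm]
    gcongr
  obtain b := gs hl H a (by positivity) n1 le_rfl
  have s0 : 0 ≤ k.sl n := hl.trans (h.sl1.trans (h.sl_mono 1 n le_rfl n1))
  obtain e : k.σ i ≤ c.ck * k.sl n := by
    rcases hin.eq_or_lt with e | e
    · rw [e]; exact h.jump n nF
    · obtain ⟨a1, -, a3⟩ := h.nx_mem i (by omega)
      have := h.sl_mono _ n (h.F_mem _ a1).1 (a3 n nF e)
      unfold Sk.σ
      nlinarith only [s0, this, ck]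
  linarith only [b, mul_le_mul_of_nonneg_left e hg0]

theorem D1 (hσ : 0 ≤ σ) (H : VC K c M s t k T nuJ n σ D D2 ν R) : D ≤ 1 ∧ D * k.rh n ≤ 1 := by
  obtain h1 : exp (-σ) ≤ 1 := exp_le_one_iff.2 (by linarith only [hσ])
  obtain h2 : 1 ≤ exp (2 * R) := one_le_exp (by linarith only [H.R0])
  have := H.hD
  have := H.D0
  have := H.rh
  have : D * exp (2 * R) ≤ D2 * exp (2 * R) := mul_le_mul_of_nonneg_right H.DD (exp_pos _).le
  constructor <;> (rename_i zq2 zq1 zq0; nlinarith only [h1, zq2, this, h2, zq1, zq0])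

theorem nn (hκ : 0 < c.κ) (hl : 0 ≤ c.lam) (hσ : 0 ≤ σ) (hT : TA_s c)
    (H : VC K c M s t k T nuJ n σ D D2 ν R) {g : ℝ}
    (hg : g ≤ c.gm (K + 1) (K + 2)) (hg0 : 0 ≤ g) {l : ℤ} (hlF : l ∈ k.F) (hln : l ≤ n) {B : ℝ} (hB : 1 ≤ B)
    (hV : ∀ x ∈ k.D, l ≤ x → x < n → k.w l * k.V x 1 ≤ B) (i : ℕ) :
    k.NN n (2 * (i + 1) - 1) g l * D ^ (i + 1) ≤ exp (σ / 1000) * (D * B) := by
  have h := H.jc.oc.sk.1
  obtain ⟨d1, d2⟩ := D1 hσ H
  have D0 := H.D0
  have w4 := (hT k H.jc.oc.sk).2.2.1 l hlF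
  rw [← le_div_iff₀ (by (clear * - D0; positivity))]
  refine (Finset.fold_max_le _).2 ⟨?_, fun x hx => ?_⟩
  · rw [le_div_iff₀ (by positivity)]
    have a1 : exp (g * k.σ l) ≤ exp (σ / 1000) :=
      exp_le_exp.2 (gσ hκ hl H hg hg0 hln)
    obtain a2 : D ^ (i + 1) ≤ D * B := by
      rw [pow_succ']
      exact mul_le_mul_of_nonneg_left ((pow_le_one₀ D0.le d1).trans hB) D0.le
    gcongr
  · obtain ⟨xD, xn, lx⟩ := Finset.mem_filter.1 hx
    have xN := (h.D_mem x xD).2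
    obtain hlx : ¬ x < l := fun a => by
      have := (h.nx_mem x xN).2.2 l hlF a
      omega
    rw [if_neg hlx, le_div_iff₀ (by positivity), w4]
    have a1 : exp (g * k.σ x) ≤ exp (σ / 1000) := exp_le_exp.2 (gσ hκ hl H hg hg0 xn.le)
    have η0 := (h.η_mem x xD).1
    have wx := h.w_pos x (h.F_mem x (h.D_mem x xD).1).1
    have wl := h.w_pos l (h.F_mem l hlF).1
    have a2 : 1 / k.η x ^ 2 ≤ k.rh n :=
      (Finset.le_fold_max _).2 (Or.inr ⟨x, Finset.mem_filter.2 ⟨xD, xn⟩, le_rfl⟩)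
    obtain a3 : (D * (1 / k.η x ^ 2)) ^ i ≤ 1 :=
      pow_le_one₀ (by positivity) ((mul_le_mul_of_nonneg_left a2 D0.le).trans d2)
    have a4 := hV x xD (not_lt.1 hlx) xn
    obtain e : k.w l * exp (g * k.σ x) * k.V x (2 * (i + 1) - 1) * D ^ (i + 1) =
        exp (g * k.σ x) * (D * (k.w l * k.V x 1) * (D * (1 / k.η x ^ 2)) ^ i) := by
      rw [show 2 * (i + 1) - 1 = 2 * i + 1 by omega]
      unfold Sk.V
      rw [mul_pow, one_div_pow, ← pow_mul]
      field_simp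
      ring
    obtain V0 : 0 ≤ k.w l * k.V x 1 := by unfold Sk.V; (clear * - wl η0 wx; positivity)
    rw [e]
    refine mul_le_mul a1 ?_ (by (clear * - D0 V0 η0; positivity)) (exp_pos _).le
    calc _ ≤ D * B * 1 := by (clear * - a4 D0 a3 η0 hB; gcongr)
      _ = _ := mul_one _

theorem e512 (hσ : 10 ≤ σ) : (512 : ℝ) ≤ exp σ ∧ exp (σ / 1000) ≤ exp σ := by
  refine ⟨le_trans ?_ (exp_le_exp.2 hσ), exp_le_exp.2 (by linarith only [hσ])⟩
  obtain h : (2 : ℝ) ≤ exp 1 := by linarith only [Real.add_one_le_exp (1 : ℝ)]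
  obtain this : exp 10 = exp 1 ^ 10 := by rw [← Real.exp_nat_mul]; norm_num
  rw [this]
  exact le_trans (by norm_num) (pow_le_pow_left₀ (by norm_num) h 10)

theorem main (hκ : 0 < c.κ) (hl : 10 ≤ c.lam) (hC : 1 ≤ c.C1) (hT : TA_s c) : VJ1_s K c := by
  intro M s t k T nuJ n σ D D2 ν R H l hlF hln B hB hV
  obtain hσ : 10 ≤ σ := by nlinarith only [hl, hC, H.big]
  obtain ⟨e1, e2⟩ := e512 hσ
  have h := H.jc.oc.sk.1
  have D0 := H.D0
  have ν0 := H.ν0
  have l1 := (h.F_mem l hlF).1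
  have wl := h.w_pos l l1
  have w4 := (hT k H.jc.oc.sk).2.2.1 l hlF
  obtain hγ : (1 : ℝ) ≤ K + 1 := by linarith only [(Nat.cast_nonneg K : (0 : ℝ) ≤ K)]
  obtain fin : ∀ x : ℝ, x ≤ exp (σ / 1000) * (D * B) →
      k.w l * (512 * ν) + x ≤ exp σ * (k.w l * ν + D * B) := fun x hx => by
    have a1 := mul_le_mul_of_nonneg_right e1 (mul_nonneg wl.le ν0)
    obtain a2 := mul_le_mul_of_nonneg_right e2 (show 0 ≤ D * B by positivity)
    linarith only [hx, a1, a2]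
  refine ⟨fun j j1 jK => ?_, fun τ hτ => ?_⟩
  · obtain ⟨i, rfl⟩ : ∃ i, j = i + 1 := ⟨j - 1, by omega⟩
    obtain a := (H.j4 t ⟨by linarith only [D0], by linarith only [D0]⟩).2.2.2 (i + 1) l j1 jK (by omega) hln
    obtain b := nn hκ (by linarith only [hl]) (by linarith only [hσ]) hT H
      (J1F.gm_mono hκ (by linarith only []) (show i + 1 ≤ K + 2 by omega))
      (by linarith only [J1F.gm_ge hκ hγ (i + 1)]) hlF hln hB hV i
    refine (mul_le_mul_of_nonneg_right a (by positivity)).trans (le_trans ?_ (fin _ b))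
    unfold Sk.MJ
    rw [w4, add_mul, mul_assoc]
    refine add_le_add (mul_le_mul_of_nonneg_left ?_ wl.le) le_rfl
    unfold wt
    split_ifs with e
    · rw [e, pow_one, div_mul_cancel₀ _ D0.ne']; linarith only []
    · rw [div_mul_cancel₀ _ (by positivity)]; linarith only [ν0]
  · obtain ⟨a1, a2⟩ := abs_le.1 hτ
    obtain a := (H.j4 τ ⟨by linarith only [a1], by linarith only [a2]⟩).2.1.2.2.2 l (by omega) hln
    obtain b := nn hκ (by linarith only [hl]) (by linarith only [hσ]) hT H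
      (J1F.gm_mono hκ (by linarith only []) (show 1 ≤ K + 2 by omega))
      (by linarith only [J1F.gm_ge hκ hγ 1]) hlF hln hB hV 0
    refine a.trans (le_trans (le_of_eq ?_) (fin _ b))
    unfold Sk.mu
    rw [w4]
    norm_num
    ring

end VJ1

theorem vj1 (K : ℕ) : Hier fun c => TA_s c → VJ1_s K c :=
  ((Hier.base.and (Hier.lam_ge (fun _ => 10) fun _ _ => rfl)).and
    (Hier.C1_ge fun _ _ _ _ _ => 1)).mono fun _ h => VJ1.main h.1.1.2.2.2.2.1 h.1.2 h.2

end Pool.Agent.MP_9cbfe4_an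

end

/-! ### Part VAL -/

section

/-! Row VAL. -/

namespace Pool.Agent.MP_9cbfe4_an

open Finset Real

namespace VAL

structure Nm (K : ℕ) (c : Cs) : Prop where
  κ : 0 < c.κ
  lam : 10 ≤ c.lam
  L : exp c.lam = c.L
  C0 : 5000 ≤ c.C0
  C1 : 1 ≤ c.C1
  bud : c.Bud K (K + 1)
  e3 : 0 < c.e3 ∧ c.e3 ≤ 1
  ε : 0 < c.ε ∧ c.ε ≤ 1
  a : 3 * sqrt c.a * c.C0 ≤ c.e3 ^ 2 * c.ε
  M1 : c.C0 ≤ c.M1 * (c.e3 ^ 2 * c.ε)
  β : 2 * c.C0 * c.C1 ≤ c.β

theorem nm (K : ℕ) : Hier (Nm K) := by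
  have h0 := Hier.C0_ge fun _ _ _ _ => 5000
  have h1 := Hier.C1_ge fun _ _ _ _ _ => 1
  have hb := Hier.C0_ge fun _ _ κ _ => 1000 * ((K : ℝ) + 1) * ((K + 1) * (1000 * (2 + κ) ^ 2) ^ (K + 3))
  have he := Hier.e3_le (fun _ => 1) (fun _ _ _ _ _ _ _ _ => rfl) (.of_all fun _ => one_pos)
  obtain hε := (Hier.ε_le_pow (fun _ => 1) 0 (by norm_num) (fun _ _ _ _ _ _ _ _ => rfl)
    (.of_all fun _ => one_pos)).mono (Q := fun c => 0 < c.ε ∧ c.ε ≤ 1) fun c h => by simpa using h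
  obtain hp : Hier fun c => 0 < c.e3 ^ 2 * c.ε ∧ 0 < c.C0 := ((he.and hε).and h0).mono
    fun c h => ⟨mul_pos (pow_pos h.1.1.1 2) h.1.2.1, by linarith only [h.2]⟩
  obtain ha := Hier.a_le (fun c => (c.e3 ^ 2 * c.ε / (3 * c.C0)) ^ 2) (fun _ _ _ _ _ _ => rfl)
    (hp.mono fun c h => by have := h.1; have := h.2; positivity)
  have hM := Hier.M1_ge (fun c => c.C0 / (c.e3 ^ 2 * c.ε)) fun _ _ _ _ => rfl
  have hβ := Hier.β_ge (fun c => 2 * c.C0 * c.C1) fun _ _ _ => rfl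
  have hl := Hier.lam_ge (fun _ => 10) fun _ _ => rfl
  have hL := Hier.L_ge (fun _ => 1) fun _ _ => rfl
  refine (Hier.base.and <| h0.and <| h1.and <| hb.and <| he.and <| hε.and <| hp.and <| ha.and <|
    hM.and <| hβ.and <| hl.and hL).mono ?_
  rintro c ⟨⟨-, -, -, -, κ, -⟩, c0, c1, b, e, ε, ⟨p1, p2⟩, ⟨-, a⟩, m, β, l, L⟩
  refine ⟨κ, l, exp_log (by linarith only [L]), c0, c1, ⟨le_rfl, b⟩, e, ε, ?_, (div_le_iff₀ p1).1 m, β⟩
  have := sqrt_le_sqrt a
  rw [sqrt_sq (by positivity), le_div_iff₀ (by positivity)] at this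
  linarith only [this]

variable {K : ℕ} {c : Cs} {M : Mdl} {sd : Fd → ℝ → Seed} {d : Dat}

theorem mem_F {m : ℤ} {r : ℝ} (h : (m, r) ∈ (d.p, d.r) :: d.Ls) :
    m ∈ frs d.Ls d.p ∧ m - d.n ∈ (d.sk c M).F := by
  obtain this : m ∈ frs d.Ls d.p := by
    rcases List.mem_cons.1 h with e | e
    · rw [(Prod.mk.inj e).1]; exact Finset.mem_insert_self _ _
    · exact Finset.mem_insert_of_mem (List.mem_toFinset.2 (List.mem_map.2 ⟨_, e, rfl⟩))
  exact ⟨this, Finset.mem_image.2 ⟨m, this, rfl⟩⟩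

theorem W_eq (m : ℤ) : (d.sk c M).W (m - d.n) = d.W c M m := by
  show (d.S M).Wp c d.n (m - d.n + d.n) = _
  rw [sub_add_cancel]; rfl

theorem chi_eq (m : ℤ) : (d.sk c M).chi 0 (m - d.n) = (d.S M).chi c d.n m := by
  have := Sq.chi_shift c (d.S M) d.n 0 (m - d.n)
  rw [zero_add, sub_add_cancel] at this
  rw [← this]
  refine Finset.sum_congr rfl fun l _ => ?_
  show (d.S M).ch1 c (l + d.n) = _
  simp only [Sq.ch1, Sq.kk_shift]

/-- standing facts on a high datum -/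
structure Hd (K : ℕ) (c : Cs) (M : Mdl) (sd : Fd → ℝ → Seed) (d : Dat) : Prop where
  el : ∀ x ∈ (d.p, d.r) :: d.Ls, d.El c (Ex2 K c M) M x
  w : ∀ x ∈ (d.p, d.r) :: d.Ls, (d.sk c M).w (x.1 - d.n) = d.wq M x.1 ∧ 0 < d.wq M x.1
  maj : ∀ x ∈ (d.sk c M).D, 0 < (d.sk c M).η x → ∃ r, (x + d.n, r) ∈ d.Ls ∧
    (d.sk c M).η x = c.L * exp (-r)
  dep : ∀ x ∈ d.Ls, (x.1 - d.n ∈ (d.sk c M).D ∧ (0 < (d.sk c M).η (x.1 - d.n) →
    (d.sk c M).η (x.1 - d.n) = c.L * exp (-x.2))) ∨ x.2 ≤ (d.sk c M).sl (x.1 - d.n)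
  V1 : 1 ≤ d.V c M
  y : d.y c M ≤ c.C0 * d.V c M ∧ c.C0 * d.V c M - 1 ≤ d.y c M ∧ c.bl / 4 < d.y c M
  s0 : c.e3 ^ 2 * c.ε * d.V c M + c.C1 * c.lam ≤ d.s0 c M ∧ d.s0 c M ≤ 2 * d.V c M
  sok : (d.seed c M sd).OK K c (Ex2 K c M) M (d.y c M) d.toFd
  sl : ∀ m ∈ (d.sk c M).F, (d.sk c M).W m ≤ d.V c M ∧ c.C0 * (d.sk c M).sl m ≤ d.s0 c M

theorem eta_eq {L ρ : ℝ} (hL : 0 < L) (h : 0 < |ρ|) : |ρ| = L * exp (-log (L / |ρ|)) := by
  rw [exp_neg, exp_log (by positivity)]; field_simp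

theorem hd (N : Nm K c) (hS : SOK_s c) (hFR : FR_s K c) (hE : EXT_s c) (hI : HI_s K c)
    (hB : BIG_s K c) (hF : First K c) (hM : M.OKk c (K + 6)) (hs : Seeds K c (Ex2 K c M) M sd)
    (H : d.Pre c (Ex2 K c M) M) (hh : d.High c M) : Hd K c M sd d := by
  obtain ⟨el, pw, -⟩ := hFR _ M d hM.ok H
  have ep := el _ List.mem_cons_self
  have ok : (d.S M).OK c := ((hS M hM.ok d.t ep.fr.ht).2.1 d.v H.hv).2
  obtain ⟨-, -, -, -, ex⟩ := hE _ (d.S M) d.ξ d.n d.Ls d.p ok ep.fr.out H.run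
  have hl := N.lam
  obtain L0 : 0 < c.L := by rw [← N.L]; exact exp_pos _
  have c0 := N.C0
  have c1 := N.C1
  have hβ := N.β
  have hh' : c.β * c.lam / 2 < c.C0 * d.V c M := hh
  obtain b1 : c.C0 * (c.C1 * c.lam) ≤ c.β * c.lam / 2 := by nlinarith only [hβ, hl]
  obtain b2 : c.C1 * c.lam ≤ d.V c M := le_of_mul_le_mul_left (b1.trans hh'.le) (by linarith only [c0])
  obtain b3 : 10 ≤ c.C1 * c.lam := by nlinarith only [hl, c1]
  have y1 : d.y c M ≤ c.C0 * d.V c M := Int.floor_le _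
  have y2 : c.C0 * d.V c M - 1 ≤ d.y c M := (Int.sub_one_lt_floor _).le
  obtain y3 : c.bl / 4 < d.y c M := by
    show c.β * c.lam / 4 < _
    nlinarith only [c0, hh', b1, b3, y2]
  obtain uq : ∀ x ∈ d.Ls, x.2 = d.dp c M x.1 := fun x hx => by
    have x0 : x ∈ (d.p, d.r) :: d.Ls := List.mem_cons_of_mem _ hx
    have xp : x.1 < d.p := (List.pairwise_cons.1 pw).1 x hx
    obtain ⟨_, -, -, -, -, -, mem, -⟩ := (ex x.1 (mem_F (c := c) (M := M) x0).1).2 xp
    by_contra ne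
    have p2 : ((d.p, d.r) :: d.Ls).Pairwise fun a b => a.1 ≠ b.1 := pw.imp fun h => h.ne'
    have : Std.Symm fun a b : ℤ × ℝ => a.1 ≠ b.1 := ⟨fun _ _ h => Ne.symm h⟩
    exact p2.forall x0 (List.mem_cons_of_mem _ mem)
      (fun e => ne (congrArg Prod.snd e)) rfl
  have ld0 : 0 ≤ d.ld c M := Sq.load_nonneg _ _ _ _
  obtain cc0 : 0 ≤ c.cc := by unfold Cs.cc; have := N.ε.1; positivity
  have e0 := N.e3.1
  refine ⟨el, fun x hx => ⟨?_, abs_pos.2 (el x hx).fr.rinv.ne⟩, fun x hx h0 => ?_, fun x hx => ?_,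
    by linarith only [b2, b3], ⟨y1, y2, y3⟩, ⟨?_, ?_⟩, hs.ok _ _ (hI hF M hM.ok d H _ y3 y1),
    (hB hF M hM.ok d H).2.1⟩
  · show (d.S M).wp c d.n (x.1 - d.n + d.n) = _
    rw [sub_add_cancel]; exact (el x hx).fr.rinv.whm
  · obtain ⟨m, hm, rfl⟩ := Finset.mem_image.1 hx
    obtain ⟨m1, m2, -⟩ := (@Finset.mem_filter _ _ (_) _ _).1 hm
    obtain ⟨_, -, -, -, -, -, mem, -⟩ := (ex m m1).2 m2
    refine ⟨d.dp c M m, by rw [sub_add_cancel]; exact mem, ?_⟩
    revert h0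
    show 0 < |(d.S M).rho (d.ζ M) (m - d.n + d.n) (nxt d.Ls d.p (m - d.n + d.n))| →
      |(d.S M).rho (d.ζ M) (m - d.n + d.n) (nxt d.Ls d.p (m - d.n + d.n))| = _
    rw [sub_add_cancel]
    exact eta_eq L0
  · have x0 : x ∈ (d.p, d.r) :: d.Ls := List.mem_cons_of_mem _ hx
    have xp : x.1 < d.p := (List.pairwise_cons.1 pw).1 x hx
    by_cases q : c.am * d.cW c M ((d.S M).Wp c d.n x.1) + c.lam ≤ d.dp c M x.1
    · refine Or.inl ⟨Finset.mem_image.2 ⟨x.1, (@Finset.mem_filter _ _ (_) _ _).2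
        ⟨(mem_F (c := c) (M := M) x0).1, xp, q⟩, rfl⟩, ?_⟩
      show 0 < |(d.S M).rho (d.ζ M) (x.1 - d.n + d.n) (nxt d.Ls d.p (x.1 - d.n + d.n))| →
        |(d.S M).rho (d.ζ M) (x.1 - d.n + d.n) (nxt d.Ls d.p (x.1 - d.n + d.n))| = _
      rw [sub_add_cancel, uq x hx]
      exact eta_eq L0
    · refine Or.inr ?_
      show _ ≤ c.ths * d.cW c M ((d.S M).Wp c d.n (x.1 - d.n + d.n)) + 10 * c.lam
      rw [sub_add_cancel, uq x hx]
      have W0 : 0 ≤ (d.S M).Wp c d.n x.1 := log_nonneg (Sq.one_le_AA _ _ _ _ _)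
      obtain k0 : 0 ≤ d.cW c M ((d.S M).Wp c d.n x.1) :=
        le_min W0 (by have := N.ε.1; (clear * - c1 ld0 this W0 cc0; positivity))
      obtain k1 : c.am ≤ c.ths := pow_le_pow_of_le_one e0.le N.e3.2 (by norm_num)
      nlinarith only [hl, k0, k1, not_le.1 q]
  · obtain m1 : c.ε * d.V c M ≤ min (d.V c M) ((d.S M).xx c d.n (d.V c M)) := by
      refine le_min (mul_le_of_le_one_left (by linarith only [b2, b3]) N.ε.2) ?_
      obtain this : 0 ≤ c.C1 * (d.S M).load c d.n (d.V c M) := mul_nonneg (by linarith only [c1]) ld0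
      unfold Sq.xx; linarith only [cc0, this]
    have := mul_le_mul_of_nonneg_left m1 (sq_nonneg c.e3)
    unfold Dat.s0; linarith only [this]
  · have m1 := mul_le_mul_of_nonneg_left (min_le_left (d.V c M) ((d.S M).xx c d.n (d.V c M)))
      (sq_nonneg c.e3)
    obtain m2 : c.e3 ^ 2 * d.V c M ≤ d.V c M :=
      mul_le_of_le_one_left (by linarith only [b2, b3]) (pow_le_one₀ e0.le N.e3.2)
    unfold Dat.s0; linarith only [b2, m1, m2]

theorem sl_low {i : ℤ} (hi : i ≤ 1) : (d.sk c M).sl i = (d.sk c M).sl 1 := by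
  obtain e : ∀ j : ℤ, j ≤ 1 → (d.S M).Wp c d.n (j + d.n) = 0 := fun j hj => by
    unfold Sq.Wp Sq.WW Sq.AA
    rw [Finset.Ioc_eq_empty (by omega), Finset.fold_empty, log_one]
  show c.ths * d.cW c M ((d.S M).Wp c d.n (i + d.n)) + _ =
    c.ths * d.cW c M ((d.S M).Wp c d.n (1 + d.n)) + _
  rw [e i hi, e 1 le_rfl]

theorem nj_le {F : ℝ → ℝ} {t D : ℝ} {j : ℕ} (j1 : 1 ≤ j) (jK : j ≤ K) :
    |iteratedDeriv j F t| * D ^ j ≤ Nj K F t D :=
  (Finset.le_fold_max _).2 (Or.inr ⟨j, Finset.mem_Icc.2 ⟨j1, jK⟩, le_rfl⟩)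

theorem ex_le {x A : ℝ} (h : A ≤ x) : A * exp (-x) ≤ 1 := by
  rw [exp_neg, ← div_eq_mul_inv, div_le_one (exp_pos _)]
  linarith only [h, add_one_le_exp x]

/-- the seed fits at an admissible free time -/
theorem xc (N : Nm K c) (hX : XC2_s K c) (hF : First K c) (hM : M.OKk c (K + 6))
    (H : d.Pre c (Ex2 K c M) M) (h : Hd K c M sd d) {n : ℤ} (nF : n ∈ (d.sk c M).F)
    (ha : (d.S M).rho d.ξ d.n d.p ^ 2 * exp ((d.sk c M).W n) ≤ exp (-d.s0 c M)) :
    JC K c M (d.seed c M sd) d.t 2 (d.sk c M) n ∧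
    (∃ α z, JTube (d.sk c M) n α 0 z 0 d.t d.t (d.O M) ((d.seed c M sd).orb M d.t) ∧
      (d.sk c M).sz n α 0 z ≤ exp (-(c.C0 / 3) * (d.sk c M).sl n)) ∧
    (∀ t, |t - d.t| < 3 * c.rU (d.y c M) → (d.seed c M sd).At K c t) ∧
    |((d.seed c M sd).orb M d.t).nu1 n - d.nuJ c M sd|
      ≤ exp (-(d.sk c M).chi 0 n / 4) + exp (-d.y c M / 4) := by
  obtain ⟨w1, w2⟩ := h.sl n nF
  have c0 := N.C0
  have := h.V1
  obtain ⟨a, b, e, -, f⟩ := hX hF M hM d H _ _ h.y.2.2 h.y.1 h.sok n nF c.C0 (by linarith only [c0]) le_rfl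
    (ha.trans (exp_le_exp.2 (by linarith only [w2]))) (by nlinarith only [w1, w2, c0, this, h.y.2.1, h.s0.2])
  exact ⟨a, b, e, f⟩

theorem val (N : Nm K c) (hT : TA_s c) (hX : XC2_s K c) (h3 : J3_s K c) (h4 : J4_s K c)
    (hF : First K c) (hM : M.OKk c (K + 6)) (H : d.Pre c (Ex2 K c M) M) (h : Hd K c M sd d)
    (nc : ¬ d.Canc K c M sd) {σ : ℝ} {m : ℤ} {D ν R : ℝ} (V : d.Val K c M sd σ m D ν R) :
    VC K c M (d.seed c M sd) d.t (d.sk c M) (d.O M) (d.nuJ c M sd) (m - d.n) σ D D ν R := by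
  obtain ⟨r, hr⟩ := V.free
  have nF := (mem_F (c := c) (M := M) hr).2
  obtain ⟨s1, s2⟩ := V.sl
  have adm := V.adm
  have hν := V.nu
  have jet := V.jet
  have ch := (h.el _ hr).chi.2
  obtain ⟨wq, w0⟩ := h.w _ hr
  rw [← chi_eq] at ch
  change c.M1 * (d.W c M m - 5) ≤ _ at ch
  simp only at wq w0 ch
  rw [← W_eq] at s2 adm hν ch
  rw [← wq] at jet w0
  obtain ⟨jc, ⟨α, z, tb, sz⟩, at', nu⟩ := xc N hX hF hM H h nF
    (adm.trans (exp_le_exp.2 (by linarith only [s1])))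
  have maj := h.maj
  change Nj K (fun t => ((d.seed c M sd).orb M t).X (m - d.n)) _ _ ≤ _ at jet
  have slo : ∀ i : ℤ, i ≤ 1 → (d.sk c M).sl i = (d.sk c M).sl 1 := fun i hi => sl_low hi
  have w2 := (h.sl _ nF).2
  obtain hB : (d.sk c M).B (m - d.n) = (d.O M).bb c (2 / 100) (m - d.n) ∧
      (d.sk c M).ch (m - d.n) = (d.O M).ch1 c (m - d.n) := by
    constructor
    · show (d.S M).bb c (2 / 100) (m - d.n + d.n) = _
      simp only [Dat.O, Sq.bb, Sq.shift, sub_add_eq_add_sub]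
    · show (d.S M).ch1 c (m - d.n + d.n) = _
      simp only [Dat.O, Sq.ch1, Sq.kk_shift]
  obtain dep : ∀ x r, (x + d.n, r) ∈ d.Ls → x < m - d.n → r ≤ R := fun x r hx xn =>
    V.dep.2 _ hx (by show x + d.n < m; omega)
  obtain nc' : ∀ x ∈ (d.sk c M).D, (d.S M).rho d.ξ d.n d.p ^ 2 * exp ((d.sk c M).W ((d.sk c M).nx x))
      ≤ exp (-c.C0 * (d.sk c M).sl ((d.sk c M).nx x)) → (d.sk c M).Strong K x →
      ¬ (d.seed c M sd).Canc M c d.t (1 / 2) (d.sk c M) K x := fun x hx a b e =>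
    nc ⟨x, hx, a, b, fun j j1 jK => by
      have := e j j1 jK
      linarith only [this, abs_nonneg ((d.seed c M sd).La M d.t j ((d.sk c M).nx x))]⟩
  have lo := V.lo
  have hi := V.hi
  have R0 := V.dep.1
  obtain ⟨y1, y2, -⟩ := h.y
  have s0 := h.s0.1
  have V1 := h.V1
  generalize (d.S M).rho d.ξ d.n d.p = ρ at *
  generalize m - d.n = n at *
  generalize d.nuJ c M sd = nuJ at *
  generalize d.O M = T at *
  generalize d.seed c M sd = s at *
  generalize d.sk c M = k at *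
  generalize d.y c M = y at *
  generalize d.s0 c M = s' at *
  generalize d.V c M = W at *
  clear V h H nc hr wq
  have ok := jc.oc.sk.1
  have hl := N.lam
  have c0 := N.C0
  have c1 := N.C1
  obtain L1 : 1 ≤ c.L := by rw [← N.L]; exact one_le_exp (by linarith only [hl])
  obtain b3 : 10 ≤ c.C1 * c.lam := by
    linarith only [hl, mul_le_mul_of_nonneg_right c1 (show 0 ≤ c.lam by linarith only [hl])]
  have p1 : 0 < c.e3 ^ 2 * c.ε := mul_pos (pow_pos N.e3.1 2) N.ε.1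
  obtain p2 : 0 < c.e3 ^ 2 * c.ε * W := by (clear * - p1 V1; positivity)
  have n1 := (ok.F_mem n nF).1
  have l1 := ok.sl1
  have l2 := ok.sl_mono 1 n le_rfl n1
  obtain q1 : 5000 * k.sl n ≤ c.C0 * k.sl n := mul_le_mul_of_nonneg_right c0 (by linarith only [hl, l1, l2])
  obtain σ0 : 50000 ≤ σ := by linarith only [s1, w2, hl, l1, l2, q1]
  obtain y0 : 0 ≤ y := by linarith only [V1, y2, mul_le_mul_of_nonneg_right c0 (show 0 ≤ W by linarith only [V1])]
  have D0 : 0 < D := (exp_pos _).trans_le lo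
  obtain th : 0 ≤ c.th := by unfold Cs.th; positivity
  obtain hD : D * exp (2 * R) ≤ exp (-σ) := by
    rw [← le_div_iff₀ (exp_pos _), ← exp_sub]
    exact hi.trans (exp_le_exp.2 (by linarith only [mul_nonneg th R0]))
  obtain rh : k.rh n ≤ exp (2 * R) := by
    refine (Finset.fold_max_le _).2 ⟨one_le_exp (by linarith only [R0]), fun x hx => ?_⟩
    obtain ⟨xD, xn⟩ := Finset.mem_filter.1 hx
    obtain ⟨r, a, e⟩ := maj x xD (ok.η_mem x xD).1
    obtain a1 : exp (-R) ≤ k.η x := by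
      rw [e]
      exact (exp_le_exp.2 (by linarith only [dep x r a xn])).trans
        (le_mul_of_one_le_left (exp_pos _).le L1)
    rw [show exp (2 * R) = 1 / exp (-R) ^ 2 by rw [← exp_nat_mul, one_div, ← exp_neg]; congr 1; push_cast; ring]
    (clear * - a1; gcongr)
  have rh1 : 1 ≤ k.rh n := (Finset.le_fold_max _).2 (Or.inl le_rfl)
  have hDr : D * k.rh n ≤ exp (-σ) := (mul_le_mul_of_nonneg_left rh D0.le).trans hD
  obtain ν0 : 0 ≤ ν := by
    have : 0 ≤ ν * k.w n := le_trans ((Finset.le_fold_max _).2 (Or.inl le_rfl)) jet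
    exact nonneg_of_mul_nonneg_left this w0
  obtain cy : y ≤ k.chi 0 n := by
    obtain m0 : 0 < c.M1 := pos_of_mul_pos_right (by linarith only [c0, N.M1]) p1.le
    obtain a1 : c.M1 * (c.e3 ^ 2 * c.ε * W) ≤ c.M1 * (k.W n - 5) :=
      mul_le_mul_of_nonneg_left (by linarith only [s2, s1, s0, b3]) m0.le
    obtain a2 := mul_le_mul_of_nonneg_right N.M1 (show 0 ≤ W by linarith only [V1])
    linarith only [ch, y1, a1, a2]
  obtain hγ : (1 : ℝ) ≤ K + 1 := by linarith only [(Nat.cast_nonneg K : (0 : ℝ) ≤ K)]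
  have g1 := J1F.gm_ge N.κ hγ (K + 2)
  obtain g2 := J1F.gm_mono (γ := (K : ℝ) + 1) N.κ (by linarith only []) (show K + 2 ≤ K + 3 by omega)
  obtain g3 : 6 * c.gm (K + 1) (K + 2) * k.sl n ≤ σ / 100 := by
    obtain a1 : 1000 * c.gm (K + 1) (K + 2) ≤ c.C0 := by
      linarith only [g2, g1, N.bud.2, mul_nonneg (Nat.cast_nonneg K) (show 0 ≤ c.gm (K + 1) (K + 3) by linarith only [g1, g2])]
    linarith only [s1, w2, hl, l1, l2, q1, mul_le_mul_of_nonneg_right a1 (show 0 ≤ k.sl n by linarith only [hl, l1, l2])]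
  have K10 : 10 ≤ K := hF.1.1
  obtain la : ∀ j, 1 ≤ j → j ≤ K → 32 * |s.La M d.t j n| * D ^ j ≤ 64 * ν := fun j j1 jK => by
    have a1 : |s.pj M d.t j n| * D ^ j ≤ ν * k.w n := (nj_le j1 jK).trans jet
    have a2 := jc.oc.fit.f2 n nF le_rfl
    obtain a3 : 0 < |(s.orb M d.t).fr 1 n| := by linarith only [w0, a2]
    unfold Seed.La
    rw [abs_div, mul_assoc, div_mul_eq_mul_div]
    obtain this : |s.pj M d.t j n| * D ^ j / |(s.orb M d.t).fr 1 n| ≤ 2 * ν := by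
      rw [div_le_iff₀ a3]; linarith only [a1, mul_le_mul_of_nonneg_left a2 ν0]
    linarith only [this]
  obtain e1 : 128 * exp (-σ) ≤ exp (-(6 * c.gm (K + 1) (K + 2)) * k.sl n) := by
    obtain a1 := ex_le (x := σ / 2) (A := 128) (by linarith only [s1, w2, hl, l1, l2, q1])
    obtain a2 : exp (-σ) = exp (-(σ / 2)) * exp (-(σ / 2)) := by rw [← exp_add]; congr 1; ring
    obtain a3 : exp (-(σ / 2)) ≤ exp (-(6 * c.gm (K + 1) (K + 2)) * k.sl n) :=
      exp_le_exp.2 (by linarith only [s1, w2, hl, l1, l2, q1, g3])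
    linarith only [a2, a3, mul_le_mul_of_nonneg_right a1 (exp_pos (-(σ / 2))).le]
  have e0 := exp_pos (-σ)
  obtain win : Win K M s d.t k n D (64 * ν) (64 * ν) (6 * c.gm (K + 1) (K + 2))
      (6 * c.gm (K + 1) (K + 2)) := by
    refine ⟨D0, by linarith only [ν0], by linarith only [hDr, e1, e0], by linarith only [hν, e1], ?_, by simpa using la 1 le_rfl (by omega),
      fun j j2 => la j (by omega)⟩
    rw [← le_div_iff₀' (exp_pos _), div_eq_mul_inv, ← exp_neg, ← neg_mul]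
    obtain this : (64 * ν) ^ 2 * exp (k.W n) + 64 * ν * D * k.rh n =
      64 * ν * (64 * (ν * exp (k.W n)) + D * k.rh n) := by ring
    rw [this]
    exact mul_le_mul_of_nonneg_left (by linarith only [hν, hDr, e1, e0]) (by linarith only [ν0])
  obtain j3 := h3 (by omega) M s d.t 2 k n jc _ N.bud (fun x hx xn => nc' x hx (by
    obtain ⟨a1, -, a3⟩ := ok.nx_mem x (ok.D_mem x hx).2
    have a4 := (ok.F_mem _ a1).1
    have a5 := ok.sl_mono _ n a4 (a3 n nF xn)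
    have a6 := exp_le_exp.2 (ok.W_mono _ n a4 (a3 n nF xn))
    exact ((mul_le_mul_of_nonneg_left a6 (sq_nonneg ρ)).trans adm).trans
      (exp_le_exp.2 (by linarith only [s1, w2, c0, mul_le_mul_of_nonneg_left a5 (show 0 ≤ c.C0 by linarith only [c0])])))) D _ _ _ _ (2 * c.gm (K + 1) (K + 2)) win (by linarith only [g1])
    (by linarith only [g1]) (by linarith only [g1]) (by linarith only [g1]) (by
      obtain a1 : k.rh n ^ (1 + c.th) ≤ exp (2 * R * (1 + c.th)) := by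
        rw [exp_mul]; exact rpow_le_rpow (by linarith only [rh1]) rh (by linarith only [th])
      obtain a2 : D * exp (2 * R * (1 + c.th)) ≤ exp (-σ) := by
        rw [← le_div_iff₀ (exp_pos _), ← exp_sub]
        exact hi.trans (exp_le_exp.2 (by linarith only []))
      linarith only [e1, e0, a2, mul_le_mul_of_nonneg_left a1 D0.le])
  obtain at2 : ∀ τ ∈ Set.Icc (d.t - D) (d.t + D), s.At K c τ := fun τ hτ => at' τ (by
    obtain a1 : |τ - d.t| ≤ D := abs_le.2 ⟨by linarith only [hτ.1], by linarith only [hτ.2]⟩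
    obtain a2 : c.rU y = exp (-(3 * sqrt c.a * y)) := by
      unfold Cs.rU Cs.S0
      rw [← exp_nat_mul, one_div, ← exp_neg]; congr 1; push_cast; ring
    obtain a3 : 3 * sqrt c.a * y ≤ σ := by
      obtain b1 := mul_le_mul_of_nonneg_left y1 (show 0 ≤ 3 * sqrt c.a by (clear * -; positivity))
      obtain b2 := mul_le_mul_of_nonneg_right N.a (show 0 ≤ W by linarith only [V1])
      linarith only [s1, s0, b3, b1, b2]
    obtain a4 : exp (-σ) ≤ exp (-(3 * sqrt c.a * y)) := exp_le_exp.2 (by linarith only [a3])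
    rw [a2]
    linarith only [hDr, e0, a1, a4, le_mul_of_one_le_right D0.le rh1])
  obtain d1 : exp (-k.chi 0 n / 5) ≤ D := (exp_le_exp.2 (by linarith only [y0, cy])).trans lo
  refine ⟨jc, ?_, N.bud, fun i hi => ?_, by linarith only [s1, s0, p2], D0, R0, ν0, le_rfl, hD, rh, hν, j3, at2,
    fun τ hτ => ?_, fun l l0 ln => ?_, hB, ?_, d1⟩
  · by_contra a
    obtain this : n = 1 := by omega
    rw [this, ok.W1] at s2
    linarith only [s2, s1, s0, b3, p2]
  · obtain this : k.sl i ≤ k.sl n := by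
      rcases le_total i 1 with a | a
      · rw [slo i a]; exact l2
      · exact ok.sl_mono i n a hi
    linarith only [s1, w2, c0, mul_le_mul_of_nonneg_left this (show 0 ≤ c.C0 by linarith only [c0])]
  · obtain ⟨a, b, -, e, f, -⟩ := h4 M s d.t 2 k n jc (by norm_num) _ N.bud D _ _ _ _ win le_rfl
      le_rfl j3 at2 τ hτ
    rw [show (2 * 2 : ℝ) = 4 by norm_num] at a
    rw [show 4 * (64 * ν + 64 * ν) = 512 * ν by ring] at b
    exact ⟨a, b, e, f⟩
  · obtain ⟨α0, z0, -, tb⟩ := tb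
    have a1 := ((hT k jc.oc.sk).2.2.2.2.2.2.2.2.2.1 n nF l l0 ln).1
    obtain a2 : exp (-k.chi 0 l / 4) ≤ exp (k.sl 1) := by
      obtain this : 0 ≤ k.chi 0 l := Finset.sum_nonneg fun i _ => by linarith only [(ok.ch_mem i).1]
      exact exp_le_exp.2 (by linarith only [hl, l1, this])
    obtain a3 : exp (k.sl 1) * exp (-(c.C0 / 3) * k.sl n) ≤ exp (-1000) := by
      rw [← exp_add]; exact exp_le_exp.2 (by linarith only [hl, l1, l2, q1])
    have a4 := ex_le (x := 1000) (A := 1000) le_rfl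
    have a5 := mul_le_mul_of_nonneg_left sz (exp_pos (k.sl 1)).le
    have a6 := tb l l0 ln
    unfold Sk.mu at a6
    unfold Sk.sz at a5
    rw [exp_add] at a1
    linarith only [a3, a4, a5, a6, mul_le_mul_of_nonneg_right a1 α0, mul_le_mul_of_nonneg_left a2 z0]
  · obtain a1 : exp (-k.chi 0 n / 4) ≤ D := (exp_le_exp.2 (by linarith only [y0, cy])).trans lo
    obtain a2 : exp (-y / 4) ≤ D := (exp_le_exp.2 (by linarith only [y0])).trans lo
    linarith only [nu, a1, a2]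

end VAL

theorem val (K : ℕ) : Hier fun c => SOK_s c → FR_s K c → EXT_s c → HI_s K c → BIG_s K c → TA_s c →
    XC2_s K c → J3_s K c → J4_s K c → VAL_s K c :=
  (VAL.nm K).mono fun _ N hS hFR hE hI hB hT hX h3 h4 hF _ hM _ hs _ H hh nc _ _ _ _ _ V =>
    VAL.val N hT hX h3 h4 hF hM H (VAL.hd N hS hFR hE hI hB hF hM hs H hh) nc V

end Pool.Agent.MP_9cbfe4_an

end

/-! ### Part JFR -/

section

/-! Row JFR: the predicate `JF` from the rows of section J. -/

namespace Pool.Agent.MP_9cbfe4_an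

open Finset Real

namespace JFR

variable {K : ℕ} {c : Cs} {M : Mdl} {sd : Fd → ℝ → Seed} {d : Dat}

theorem vcl {σ : ℝ} {m : ℤ} {D δ τ v1 c1 : ℝ} (C : d.Cl c M sd σ m D δ τ v1 c1) :
    VCl c (d.seed c M sd) d.t (d.sk c M) (m - d.n) σ D δ τ v1 c1 :=
  ⟨C.ht, C.hv, C.hc, by rw [VAL.W_eq]; exact C.hδ, C.bx⟩

theorem c0K (N : VAL.Nm K c) : 2 * (K : ℝ) + 2 ≤ c.C0 ∧ 7 * c.ck * c.gm (K + 1) (K + 2) ≤ c.C0 := by
  have K0 : (0 : ℝ) ≤ K := Nat.cast_nonneg K
  obtain g1 := J1F.gm_ge N.κ (show (1 : ℝ) ≤ K + 1 by linarith only []) (K + 2)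
  obtain g2 := J1F.gm_ge N.κ (show (1 : ℝ) ≤ K + 1 by linarith only []) (K + 3)
  have ck := (J1F.Cg_ge N.κ).1
  obtain e : c.gm (K + 1) (K + 3) = c.gm (K + 1) (K + 2) * (1000 * c.ck ^ 2) := by
    unfold Cs.gm Cs.Cg; ring
  obtain a : 7 * c.ck ≤ 1000 * c.ck ^ 2 := by nlinarith only [ck]
  obtain b := mul_le_mul_of_nonneg_left a (show 0 ≤ c.gm (K + 1) (K + 2) by linarith only [g1])
  have := N.bud.2
  constructor <;> nlinarith only [ck, e, a, this, g1, g2, b]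

section
variable {s : Seed} {t : ℝ} {k : Sk} {T : Sq} {nuJ : ℝ} {n : ℤ} {σ D D2 ν R : ℝ}

theorem vm (N : VAL.Nm K c) (H : VC K c M s t k T nuJ n σ D D2 ν R) :
    k.Vm n (2 * K + 1) * D ^ (K + 1) ≤ ν := by
  have ok := H.jc.oc.sk.1
  have l2 := ok.sl1.trans (ok.sl_mono 1 n le_rfl H.n1.le)
  obtain g1 := J1F.gm_ge N.κ (show (1 : ℝ) ≤ K + 1 by linarith only [(Nat.cast_nonneg K : (0 : ℝ) ≤ K)])
    (K + 2)
  obtain a := (VJ1.e512 (σ := 2 * c.gm (K + 1) (K + 2) * k.sl n) (by nlinarith only [l2, g1, N.lam])).1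
  have b : 1 ≤ k.Vm n (2 * K + 1) := (Finset.le_fold_max _).2 (Or.inl le_rfl)
  have D0 := H.D0
  obtain e := mul_le_mul_of_nonneg_right a (show 0 ≤ k.Vm n (2 * K + 1) * D ^ (K + 1) by positivity)
  obtain f : 0 ≤ k.Vm n (2 * K + 1) * D ^ (K + 1) := by positivity
  linarith only [e, f, H.j3]

theorem j3a (N : VAL.Nm K c) (H : VC K c M s t k T nuJ n σ D D2 ν R) : D ^ (K + 1) ≤ ν :=
  le_trans (le_mul_of_one_le_left (pow_pos H.D0 _).le ((Finset.le_fold_max _).2 (Or.inl le_rfl)))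
    (vm N H)

theorem j3b (N : VAL.Nm K c) (H : VC K c M s t k T nuJ n σ D D2 ν R) {x : ℤ} {r : ℝ} (xF : x ∈ k.F)
    (xn : x < n) (h : (x ∈ k.D ∧ (0 < k.η x → k.η x = c.L * exp (-r))) ∨ r ≤ k.sl x) :
    exp ((2 * K + 1) * r) * D ^ (K + 1) ≤ exp σ * k.w x * ν := by
  have ok := H.jc.oc.sk.1
  have x1 := (ok.F_mem x xF).1
  have w0 := ok.w_pos x x1
  have l1 := ok.sl1.trans (ok.sl_mono 1 x le_rfl x1)
  have hl := N.lam
  have K0 : (0 : ℝ) ≤ K := Nat.cast_nonneg K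
  obtain a0 : (2 * K + 2) * k.sl x ≤ σ :=
    (mul_le_mul_of_nonneg_right (c0K N).1 (by linarith only [l1, hl])).trans (H.sl x xn.le)
  have D0 := H.D0
  rcases h with ⟨xD, e⟩ | h
  · have η0 := (ok.η_mem x xD).1
    have a1 : k.V x (2 * K + 1) ≤ k.Vm n (2 * K + 1) :=
      (Finset.le_fold_max _).2 (Or.inr ⟨x, Finset.mem_filter.2 ⟨xD, xn⟩, le_rfl⟩)
    have a2 := (mul_le_mul_of_nonneg_right a1 (pow_pos D0 (K + 1)).le).trans (vm N H)
    unfold Sk.V at a2
    rw [one_div, inv_mul_le_iff₀ (by positivity)] at a2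
    obtain a3 : exp ((2 * K + 1) * r) * k.η x ^ (2 * K + 1) ≤ exp σ := by
      rw [e η0, ← N.L, ← exp_add, ← exp_nat_mul, ← exp_add]
      refine exp_le_exp.2 ?_
      push_cast
      nlinarith only [l1, hl, a0]
    calc _ ≤ exp ((2 * K + 1) * r) * (k.η x ^ (2 * K + 1) * k.w x * ν) := by (clear * - a2; gcongr)
      _ = exp ((2 * K + 1) * r) * k.η x ^ (2 * K + 1) * k.w x * ν := by ring
      _ ≤ _ := by have := H.ν0; gcongr
  · obtain a1 : exp ((2 * K + 1) * r) ≤ exp σ * k.w x := by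
      rw [← exp_log w0, ← exp_add]
      refine exp_le_exp.2 ?_
      have b1 := ok.lo x xF
      have b2 := ok.W_mono 1 x le_rfl x1
      rw [ok.W1] at b2
      nlinarith only [a0, h, b1, b2]
    exact mul_le_mul a1 (j3a N H) (by positivity) (by positivity)

theorem j4 (N : VAL.Nm K c) (H : VC K c M s t k T nuJ n σ D D2 ν R) {τ : ℝ} (hτ : |τ - t| ≤ D) :
    |s.pj M τ (K + 1) n| * D ^ (K + 1) ≤ ν * k.w n / 10 := by
  have ok := H.jc.oc.sk.1
  have l2 := ok.sl1.trans (ok.sl_mono 1 n le_rfl H.n1.le)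
  have w0 := ok.w_pos n H.n1.le
  obtain ⟨a1, a2⟩ := abs_le.1 hτ
  obtain a := (H.j4 τ ⟨by linarith only [a1], by linarith only [a2]⟩).2.2.1
  obtain b := VAL.ex_le (x := 5 * k.sl n) (A := 26) (by linarith only [l2, N.lam])
  obtain e : exp (-10 * k.sl n) = exp (-(5 * k.sl n)) * exp (-(5 * k.sl n)) := by
    rw [← exp_add]; congr 1; ring
  obtain f : 640 * exp (-10 * k.sl n) ≤ 1 := by nlinarith only [b, e, exp_pos (-(5 * k.sl n))]
  have g := mul_le_mul_of_nonneg_right f (mul_nonneg H.ν0 w0.le)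
  linarith only [a, g]
end

theorem main (N : VAL.Nm K c) (hX : XC2_s K c) (hC : J1F_s K c) (hJ : JX_s K c) (hV : VAL_s K c)
    (hS : VST_s K c) (h6 : VJ6_s K c) (h1 : VJ1_s K c) (hF : First K c) (hM : M.OKk c (K + 6))
    (hs : Seeds K c (Ex2 K c M) M sd) (H : d.Pre c (Ex2 K c M) M) (hh : d.High c M)
    (h : VAL.Hd K c M sd d) (nc : ¬ d.Canc K c M sd) : d.JF K c M sd := by
  obtain ⟨sm, xi, spd⟩ := hJ hF M hM sd d H hh h.sok
  have vc := hV hF M hM sd hs d H hh nc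
  obtain L1 : 1 ≤ c.L := by rw [← N.L]; exact one_le_exp (by linarith only [N.lam])
  refine ⟨sm, fun x hx ha j j1 jK => ?_, fun σ m D ν R V => ⟨j3a N (vc _ _ _ _ _ V), fun x hx xm => ?_⟩,
    fun σ m D ν R V τ hτ => ?_, fun σ m D ν R V x hx xm B hB hz => ?_, xi,
    fun σ m D ν R δ τ v1 c1 V C => ?_, fun σ m D ν R δ τ v1 c1 V C => ?_, spd⟩
  · have nF := (VAL.mem_F (c := c) (M := M) (m := x.1) (r := x.2) hx).2
    rw [← VAL.W_eq] at ha
    have jc := (VAL.xc N hX hF hM H h nF ha).1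
    have ok := jc.oc.sk.1
    have n1 := (ok.F_mem _ nF).1
    refine ((hC M _ _ _ _ _ jc _ N.bud).2 j _ j1 (by omega) (by omega) le_rfl).trans
      (exp_le_exp.2 ?_)
    obtain ⟨w1, w2⟩ := h.sl _ nF
    have l2 := ok.sl1.trans (ok.sl_mono 1 _ le_rfl n1)
    obtain a1 := mul_le_mul_of_nonneg_right (c0K N).2 (show 0 ≤ (d.sk c M).sl (x.1 - d.n) by
      linarith only [l2, N.lam])
    obtain a2 := mul_le_mul_of_nonneg_right N.C0 (show 0 ≤ d.V c M by linarith only [h.V1])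
    rw [mul_div_assoc]
    exact mul_le_mul_of_nonneg_left (by linarith only [w1, w2, a1, a2, h.y.2.1, h.s0.2, h.V1]) (Nat.cast_nonneg j)
  · have x0 : x ∈ (d.p, d.r) :: d.Ls := List.mem_cons_of_mem _ hx
    rw [← (h.w x x0).1]
    exact j3b N (vc _ _ _ _ _ V) (VAL.mem_F (c := c) (M := M) (m := x.1) (r := x.2) x0).2
      (by omega) (h.dep x hx)
  · obtain ⟨r, hr⟩ := V.free
    rw [← (h.w _ hr).1]
    exact j4 N (vc _ _ _ _ _ V) hτ
  · have W := vc _ _ _ _ _ V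
    have ok := W.jc.oc.sk.1
    obtain ⟨e, w0⟩ := h.w x hx
    obtain ⟨a, b⟩ := h1 _ _ _ _ _ _ _ _ _ _ _ _ W _
      (VAL.mem_F (c := c) (M := M) (m := x.1) (r := x.2) hx).2 (by omega) B hB fun z zD a1 a2 => by
        have η0 := (ok.η_mem z zD).1
        obtain ⟨r, hr, e1⟩ := h.maj z zD η0
        obtain ⟨e2, w1⟩ := h.w _ (List.mem_cons_of_mem _ hr)
        obtain a3 := hz _ hr (by show x.1 ≤ z + d.n; omega) (by show z + d.n < m; omega)
        simp only [add_sub_cancel_right] at e2 w1 a3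
        unfold Sk.V
        rw [e, e2, pow_one, mul_one_div, div_le_iff₀ (by (clear * - η0 w1; positivity)), e1]
        have a4 := mul_le_mul_of_nonneg_right a3 (exp_pos (-r)).le
        rw [mul_assoc, ← exp_add, add_neg_cancel, exp_zero, mul_one] at a4
        obtain a5 : 0 ≤ B * d.wq M (z + d.n) * exp (-r) := by positivity
        linarith only [a4, le_mul_of_one_le_left a5 L1]
    rw [e] at a b
    have := W.ν0
    have := W.D0
    exact ⟨(Finset.fold_max_le _).2 ⟨by (rename_i zq0; clear * - w0 zq0 this hB; positivity), fun j hj =>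
      a j (Finset.mem_Icc.1 hj).1 (Finset.mem_Icc.1 hj).2⟩, b⟩
  · obtain ⟨r, hr⟩ := V.free
    have a := hS _ _ _ _ _ _ _ _ _ _ _ _ _ _ _ _ (vc _ _ _ _ _ V) (vcl C)
    rw [(h.w _ hr).1, VAL.W_eq] at a
    exact a
  · have a := h6 _ _ _ _ _ _ _ _ _ _ _ _ _ _ _ _ (vc _ _ _ _ _ V) (vcl C)
    obtain e : (d.O M).X (m - d.n) = (d.S M).X m := by
      show (d.S M).X (m - d.n + d.n) = _
      rw [sub_add_cancel]
    rw [e] at a
    exact a

end JFR

theorem jfr (K : ℕ) : Hier fun c => SOK_s c → FR_s K c → EXT_s c → HI_s K c → BIG_s K c →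
    XC2_s K c → J1F_s K c → JX_s K c → VAL_s K c → VST_s K c → VJ6_s K c → VJ1_s K c → JFR_s K c :=
  (VAL.nm K).mono fun _ N hS hFR hE hI hB hX hC hJ hV hT h6 h1 hF _ hM _ hs _ H hh nc =>
    JFR.main N hX hC hJ hV hT h6 h1 hF hM hs H hh (VAL.hd N hS hFR hE hI hB hF hM hs H hh) nc

end Pool.Agent.MP_9cbfe4_an

end
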