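import Pool.Agent.MP_9cbfe4_an.M14

set_option linter.all false

attribute [-instance] AddQuantale.instAddLeftMono IdemSemiring.toCanonicallyOrderedAdd
  NumberField.to_charZero AddQuantale.instAddRightMono IdemSemiring.toMulLeftMono RKHS.instFunLike
  Quantale.instMulRightMono Quantale.instMulLeftMono IsOrderedCancelMonoid.toIsOrderedMonoid
  LinearOrderedCommMonoidWithZero.toPosMulStrictMono
  Group.IsPerfect.subsingleton_of_isMulCommutative CanonicallyOrderedAdd.toMulLeftMono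
  Valued.toUniformSpace IdemSemiring.toMulRightMono TotallySeparatedSpace.t2Space
  LinearOrderedCommMonoidWithZero.toIsOrderedMonoid IsScalarTower.complexToReal
  Order.Coframe.toCompleteLattice OmegaCompletePartialOrder.toPartialOrder Invertible.toNeZero
  GrpTypeEquivalenceGrp.grpGroup littleWedderburn CanonicallyOrderedMul.toMulLeftMono
  CoalgHomClass.toSemilinearMapClass TestFunctionClass.toDFunLike
  ContDiffMapSupportedInClass.toDFunLike Order.Frame.toCompleteLattice RightPreLieAlgebra.toModule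
  CategoryTheory.Limits.Concrete.instUniqueToTypeTerminal LeftPreLieAlgebra.toModule
  CStarAlgebra.instOrderClosedTopology IdemSemiring.toSemiring
  LieAdmissibleRing.toNonUnitalNonAssocRing NonUnitalAlgSemiHomClass.toDistribMulActionSemiHomClass
  CStarAlgebra.toNormedRing

/-! ### Part STEP -/

section

/-! Row STEP: the facts (I4) about one step of a run. -/

namespace Pool.Agent.MP_9cbfe4_an

open Finset

namespace STEP

/-- the constants used in this row -/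
structure K (c : Cs) : Prop where
  k0 : 1 / 16 ≤ c.k0
  k1 : c.k0 < 1 / 2
  C0 : 1 ≤ c.C0
  C1 : 1 ≤ c.C1
  e3 : 0 < c.e3 ∧ c.e3 ≤ 1 / 10
  ε : 0 < c.ε ∧ c.ε ≤ 1 / 10
  a : 0 < c.a ∧ c.a ≤ 1 / 100
  d1 : 0 < c.d1 ∧ c.d1 ≤ 1
  M1 : 4 / c.a ≤ c.M1
  β : 8 / c.a ≤ c.β
  L : 100 ≤ c.L
  lam : 100 / c.a ≤ c.lam
  ll : 1 * c.lam ^ 4 ≤ Real.exp (c.ε / 2 * c.lam)
  l5 : 2 * c.lam ^ 1 ≤ Real.exp (1 / 10 * c.lam)
  ld : 40 / c.d1 ≤ c.lam

theorem hK : Hier K := by
  have h1 := Hier.C0_ge fun _ _ _ _ => 1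
  have h2 := Hier.C1_ge fun _ _ _ _ _ => 1
  obtain h3 := Hier.e3_le (fun _ => 1 / 10) (fun _ _ _ _ _ _ _ _ => rfl) (.of_all fun _ => by norm_num)
  obtain h4 : Hier fun c => 0 < c.ε ∧ c.ε ≤ 1 / 10 := (h3.and Hier.ε_eq).mono fun c h => by
    rw [h.2]
    exact ⟨pow_pos h.1.1 _, (pow_le_of_le_one h.1.1.le (h.1.2.trans (by norm_num))
      (by norm_num)).trans h.1.2⟩
  obtain h5 := Hier.a_le (fun _ => 1 / 100) (fun _ _ _ _ _ _ => rfl) (.of_all fun _ => by norm_num)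
  obtain h6 := Hier.d1_le (fun _ => 1) (fun _ _ _ _ _ => rfl) (.of_all fun _ => by norm_num)
  have h7 := Hier.M1_ge (fun c => 4 / c.a) fun _ _ _ _ => rfl
  have h8 := Hier.β_ge (fun c => 8 / c.a) fun _ _ _ => rfl
  have h9 := Hier.L_ge (fun _ => 100) fun _ _ => rfl
  have h10 := Hier.lam_ge (fun c => 100 / c.a) fun _ _ => rfl
  have h11 := Hier.pow_le_exp (fun _ => 1) (fun c => c.ε / 2) 4 (fun _ _ => rfl) (fun _ _ => rfl)
    (h4.mono fun _ h => half_pos h.1)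
  obtain h12 := Hier.pow_le_exp (fun _ => 2) (fun _ => 1 / 10) 1 (fun _ _ => rfl) (fun _ _ => rfl)
    (.of_all fun _ => by norm_num)
  have h13 := Hier.lam_ge (fun c => 40 / c.d1) fun _ _ => rfl
  exact (((((((((((Hier.base.and h1).and h2).and h3).and h4).and h5).and h6).and h7).and h8).and
    h9).and h10).and (h11.and (h12.and h13))).mono
    fun _ ⟨⟨⟨⟨⟨⟨⟨⟨⟨⟨⟨b, a1⟩, a2⟩, a3⟩, a4⟩, a5⟩, a6⟩, a7⟩, a8⟩, a9⟩, a10⟩, a11, a12, a13⟩ =>
      ⟨b.1, b.2.1, a1, a2, a3, a4, a5, a6, a7, a8, a9, a10, a11, a12, a13⟩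

variable {c : Cs} {S : Sq} {ξ : ℤ → ℝ} {s n p : ℤ}

namespace K
variable (h : K c)
include h

lemma aM : 4 ≤ c.a * c.M1 := by have := h.M1; rwa [div_le_iff₀' h.a.1] at this
lemma aβ : 8 ≤ c.a * c.β := by have := h.β; rwa [div_le_iff₀' h.a.1] at this
lemma al : 100 ≤ c.a * c.lam := by have := h.lam; rwa [div_le_iff₀' h.a.1] at this
lemma lam4 : 10000 ≤ c.lam := by have := h.al; have := h.a; (rename_i zq0; nlinarith only [zq0, this])
lemma β8 : 800 ≤ c.β := by have := h.aβ; have := h.a; (rename_i zq0; nlinarith only [zq0, this])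
lemma M0 : 400 ≤ c.M1 := by have := h.aM; have := h.a; (rename_i zq0; nlinarith only [zq0, this])
lemma eL : Real.exp c.lam = c.L := Real.exp_log (by have := h.L; linarith only [this])
lemma k0p : 0 < c.k0 := by have := h.k0; linarith only [this]
lemma kL : 1 ≤ c.k0 * c.L := by have := h.k0; have := h.L; (rename_i zq0; nlinarith only [zq0, this])
lemma eK : Real.exp (-c.chK) = c.k0 := by
  rw [Cs.chK, Real.exp_neg, Real.exp_log (one_div_pos.2 h.k0p), one_div, inv_inv]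
lemma chK : 2 / 3 ≤ c.chK := by
  obtain h1 : Real.log 2 ≤ c.chK := Real.log_le_log two_pos (by
    rw [le_div_iff₀ h.k0p]; have := h.k1; linarith only [this])
  have := Real.log_two_gt_d9
  linarith only [h1, this]
lemma blam : 800 * c.lam ≤ c.bl := mul_le_mul_of_nonneg_right h.β8 (by have := h.lam4; linarith only [this])
lemma chb : c.chK ≤ c.bl := by
  have h1 : c.chK ≤ 1 / c.k0 - 1 := Real.log_le_sub_one_of_pos (one_div_pos.2 h.k0p)
  obtain h2 : 1 / c.k0 ≤ 16 := by rw [div_le_iff₀ h.k0p]; have := h.k0; linarith only [this]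
  have := h.blam; have := h.lam4
  (rename_i zq0; linarith only [h1, h2, zq0, this])
lemma chi0 (S : Sq) {i j : ℤ} (hij : i ≤ j) : 2 / 3 * ((j - i : ℤ) : ℝ) ≤ S.chi c i j :=
  (mul_le_mul_of_nonneg_right h.chK (by exact_mod_cast sub_nonneg.2 hij)).trans
    (S.chi_ge c h.chb hij)
lemma chi_nn (S : Sq) {i j : ℤ} (hij : i ≤ j) : 0 ≤ S.chi c i j :=
  le_trans (mul_nonneg (by norm_num) (by exact_mod_cast sub_nonneg.2 hij)) (h.chi0 S hij)
lemma ll4 : 4 * Real.log c.lam ≤ c.ε / 2 * c.lam := by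
  obtain h0 : 0 < c.lam := by have := h.lam4; linarith only [this]
  obtain this := Real.log_le_log (by (clear * - h0; positivity)) h.ll
  rwa [Real.log_exp, one_mul, Real.log_pow] at this
lemma ll0 : 0 ≤ Real.log c.lam := Real.log_nonneg (by have := h.lam4; linarith only [this])
lemma e5 : Real.exp (-c.lam / 5) ≤ 1 / c.lam := by
  obtain h0 : 0 < c.lam := by have := h.lam4; linarith only [this]
  obtain h1 : c.lam ≤ Real.exp (c.lam / 5) := by
    have := h.l5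
    obtain h2 : Real.exp (1 / 10 * c.lam) ≤ Real.exp (c.lam / 5) := Real.exp_le_exp.2 (by linarith only [h0])
    linarith only [h0, this, h2]
  rw [neg_div, Real.exp_neg, one_div]
  exact inv_anti₀ h0 h1
lemma e35 : 2 * Real.exp (-c.lam / 3) ≤ Real.exp (-c.lam / 5) := by
  have h0 := h.lam4
  obtain h1 : 2 ≤ Real.exp (2 / 15 * c.lam) := by
    have := Real.add_one_le_exp (2 / 15 * c.lam); linarith only [h0, this]
  calc _ ≤ Real.exp (2 / 15 * c.lam) * Real.exp (-c.lam / 3) := by gcongr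
    _ = _ := by rw [← Real.exp_add]; congr 1; ring
end K

lemma q23 : 3 * Real.exp (-1 / 2) ≤ 2 := by
  have h := Real.add_one_le_exp (1 / 2 : ℝ)
  obtain h2 : Real.exp (-1 / 2) * Real.exp (1 / 2) = 1 := by rw [← Real.exp_add]; norm_num
  nlinarith only [h, h2, Real.exp_pos (-1 / 2 : ℝ)]

lemma geo1 (s n : ℤ) : ∑ i ∈ Ico s n, Real.exp (-((n - i : ℤ) : ℝ) / 2) ≤ 2 := by
  rcases le_or_gt s n with h | h
  · induction n, h using Int.leInduction with
    | base => simp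
    | succ n h ih =>
      rw [← insert_Ico_right_eq_Ico_add_one h, sum_insert (by simp)]
      obtain e : ∑ i ∈ Ico s n, Real.exp (-((n + 1 - i : ℤ) : ℝ) / 2) =
          Real.exp (-1 / 2) * ∑ i ∈ Ico s n, Real.exp (-((n - i : ℤ) : ℝ) / 2) := by
        rw [mul_sum]
        refine sum_congr rfl fun i _ => ?_
        rw [← Real.exp_add]; congr 1; push_cast; ring
      rw [e, add_sub_cancel_left, Int.cast_one]
      nlinarith only [ih, q23, Real.exp_pos (-1 / 2 : ℝ)]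
  · rw [Ico_eq_empty_of_le h.le]; simp

lemma geo2 (n j : ℤ) : ∑ i ∈ Ico (n + 1) j, Real.exp (-((i - n : ℤ) : ℝ) / 2) ≤ 2 := by
  refine le_trans (le_of_eq ?_) (geo1 (n + 1) j)
  refine sum_bij' (fun i _ => n + j - i) (fun i _ => n + j - i) ?_ ?_ ?_ ?_ ?_
  · intro i hi; rw [mem_Ico] at hi ⊢; omega
  · intro i hi; rw [mem_Ico] at hi ⊢; omega
  · intro i _; ring
  · intro i _; ring
  · intro i _; congr 1; push_cast; ring

lemma ff_le (c : Cs) (S : Sq) (s i : ℤ) : S.ff c s i ≤ 2 :=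
  sub_le_self _ (Real.exp_pos _).le

/-- the slope at a free time -/
lemma slope (h : K c) (hs : S.St c ξ s) (hn : S.RInv c ξ s n) :
    |ξ (n - 1)| ≤ Real.exp (-c.lam / 5) * |ξ n| := by
  rcases hn.le.eq_or_lt with rfl | hl
  · rw [hs.2.2.1, abs_one, mul_one]; exact hs.2.2.2
  · refine (S.abs_le_wh c ξ (by omega)).trans ((hn.i1 hl).trans ?_)
    refine mul_le_mul_of_nonneg_right (le_trans ?_ h.e35) (abs_nonneg _)
    nlinarith only [Real.exp_pos (-c.lam / 3), Real.exp_pos (-S.chi c s n / 10)]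

lemma out (h : K c) (hs : S.St c ξ s) (hn : S.RInv c ξ s n) : S.Out c ξ n :=
  ⟨hs.1.trans hn.le, fun j hj => hs.2.1 j (hn.le.trans hj), hn.ne, slope h hs hn⟩

lemma st_fr (c : Cs) (S : Sq) (hn : 0 ≤ n) : S.St c (S.fr (n + 1)) (n + 1) :=
  ⟨by omega, S.fr_sol _, S.fr_self _, by
    rw [S.fr_lt (by omega), abs_zero]; exact (Real.exp_pos _).le⟩

lemma eul (hS : S.OK c) (hs : S.St c ξ s) {i j : ℤ} (h1 : s ≤ i) (h2 : i < n) (hj : n < j) :
    |S.fr (i + 1) j| * |ξ n| ≤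
      |ξ j| * |S.fr (i + 1) n| + S.Pb i n * |ξ i| * |S.fr (n + 1) j| := by
  obtain e := S.euler h2 hj.le fun l h1 _ => hs.2.1 l (by omega)
  rw [abs_of_pos (hS.Pb_le (θ := 2 / 100) (by norm_num) (by have := hs.1; omega)).1] at e
  rw [← e, ← abs_mul, ← abs_mul]
  linarith only [abs_sub_abs_le_abs_sub (S.fr (i + 1) j * ξ n) (ξ j * S.fr (i + 1) n)]

lemma ins3 (h : K c) (hS : S.OK c) (hs : S.St c ξ s) (hn : S.RInv c ξ s n) {r : ℝ}
    (h1 : ∀ j, n < j → j ≤ p → |S.fr (n + 1) j| * c.L * |ξ n| ≤ 2 * Real.exp r * S.wh c ξ s j)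
    (i j : ℤ) (hi : s ≤ i) (hi' : i < n) (hj : n < j) (hj' : j ≤ p) : |S.fr (i + 1) j| * |ξ n| ≤
    (|S.fr (i + 1) n| + 2 * Real.exp r * (S.PB c (2 / 100) i n * S.wh c ξ s i) / (c.L * |ξ n|)) *
      S.wh c ξ s j := by
  have hx : 0 < |ξ n| := abs_pos.2 hn.ne
  obtain hL : 0 < c.L := by have := h.L; linarith only [this]
  obtain ⟨p1, p2⟩ := hS.Pb_le (θ := 2 / 100) (by norm_num) (i := i) (j := n)
    (by have := hs.1; omega)
  obtain x1 : |S.fr (n + 1) j| ≤ 2 * Real.exp r * S.wh c ξ s j / (c.L * |ξ n|) := by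
    rw [le_div_iff₀ (by (clear * - hL hx; positivity)), ← mul_assoc]; exact h1 j hj hj'
  obtain x2 := S.abs_le_wh c ξ (s := s) (j := j) (by omega)
  obtain x3 := S.abs_le_wh c ξ (s := s) (j := i) (by omega)
  have p3 := p1.le.trans p2
  have w0 := S.wh_nonneg c ξ s i
  calc _ ≤ _ := eul hS hs hi hi' hj
    _ ≤ S.wh c ξ s j * |S.fr (i + 1) n| + S.PB c (2 / 100) i n * S.wh c ξ s i *
        (2 * Real.exp r * S.wh c ξ s j / (c.L * |ξ n|)) := by (clear * - x2 p2 x3 p3 x1 w0; gcongr)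
    _ = _ := by ring

/-- the part of `D_j` that comes from the times `< n` -/
lemma dd_old (h : K c) (hS : S.OK c) (hs : S.St c ξ s) (hn : S.RInv c ξ s n) {j : ℤ} (hj : n < j) :
    ∑ i ∈ Ico s n, |S.fr (i + 1) j| * c.L * S.wh c ξ s i ^ 2 ≤
      S.AA c ξ s n * S.wh c ξ s j + 16 * (|S.fr (n + 1) j| * c.L * |ξ n| ^ 2) := by
  have hx : 0 < |ξ n| := abs_pos.2 hn.ne
  obtain hL : 0 < c.L := by have := h.L; linarith only [this]
  obtain h0 : ξ s ≠ 0 := by rw [hs.2.2.1]; exact one_ne_zero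
  obtain key : ∀ i ∈ Ico s n, |S.fr (i + 1) j| * c.L * S.wh c ξ s i ^ 2 ≤
      |ξ j| / |ξ n| * (|S.fr (i + 1) n| * c.L * S.wh c ξ s i ^ 2) +
        8 * (|S.fr (n + 1) j| * c.L * |ξ n| ^ 2) * Real.exp (-((n - i : ℤ) : ℝ) / 2) := by
    intro i hi
    rw [mem_Ico] at hi
    obtain ⟨p1, p2⟩ := hS.Pb_le (θ := 2 / 100) (by norm_num) (i := i) (j := n)
      (by have := hs.1; omega)
    obtain ⟨q1, q2⟩ := hn.i2 i hi.1 hi.2
    have w0 := S.wh_nonneg c ξ s i
    have f2 := ff_le c S s i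
    obtain x1 : S.Pb i n * |ξ i| ≤ 2 * Real.exp (-(1 - c.a) * S.chi c i n) * |ξ n| :=
      (mul_le_mul p2 (S.abs_le_wh c ξ (by omega)) (abs_nonneg _) (p1.le.trans p2)).trans
        (q1.trans (by (clear * - f2 hx; gcongr)))
    obtain x2 : S.wh c ξ s i ≤ 2 * Real.exp (c.a * S.chi c i n) * |ξ n| := q2.trans (by gcongr)
    have x3 := eul hS hs hi.1 hi.2 hj
    obtain x4 : Real.exp (-(1 - c.a) * S.chi c i n) * Real.exp (c.a * S.chi c i n) ^ 2 ≤
        Real.exp (-((n - i : ℤ) : ℝ) / 2) := by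
      rw [← Real.exp_nat_mul, ← Real.exp_add, Real.exp_le_exp]
      have := h.chi0 S hi.2.le
      have := h.chi_nn S hi.2.le
      have := h.a
      push_cast at *
      (rename_i zq1 zq0; nlinarith only [zq1, this, zq0])
    obtain x5 : S.Pb i n * |ξ i| * S.wh c ξ s i ^ 2 ≤
        8 * |ξ n| ^ 3 * Real.exp (-((n - i : ℤ) : ℝ) / 2) :=
      calc _ ≤ (2 * Real.exp (-(1 - c.a) * S.chi c i n) * |ξ n|) *
            (2 * Real.exp (c.a * S.chi c i n) * |ξ n|) ^ 2 := by (clear * - x1 w0 x2 hx; gcongr)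
        _ = 8 * |ξ n| ^ 3 * (Real.exp (-(1 - c.a) * S.chi c i n) *
            Real.exp (c.a * S.chi c i n) ^ 2) := by ring
        _ ≤ _ := by (clear * - x4 hx; gcongr)
    refine le_of_mul_le_mul_right ?_ hx
    calc _ = |S.fr (i + 1) j| * |ξ n| * (c.L * S.wh c ξ s i ^ 2) := by ring
      _ ≤ (|ξ j| * |S.fr (i + 1) n| + S.Pb i n * |ξ i| * |S.fr (n + 1) j|) *
          (c.L * S.wh c ξ s i ^ 2) := by (clear * - x3 hL; gcongr)
      _ = |ξ j| * (|S.fr (i + 1) n| * c.L * S.wh c ξ s i ^ 2) +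
          |S.fr (n + 1) j| * c.L * (S.Pb i n * |ξ i| * S.wh c ξ s i ^ 2) := by ring
      _ ≤ |ξ j| * (|S.fr (i + 1) n| * c.L * S.wh c ξ s i ^ 2) +
          |S.fr (n + 1) j| * c.L * (8 * |ξ n| ^ 3 * Real.exp (-((n - i : ℤ) : ℝ) / 2)) := by gcongr
      _ = _ := by field_simp
  have h1 := sum_le_sum key
  rw [sum_add_distrib, ← mul_sum, ← mul_sum] at h1
  obtain h2 : |ξ j| / |ξ n| * ∑ i ∈ Ico s n, |S.fr (i + 1) n| * c.L * S.wh c ξ s i ^ 2 ≤
      S.AA c ξ s n * S.wh c ξ s j := by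
    have := S.DD_le_AA c h0 hn.le
    rw [hn.whm] at this
    have hA := S.one_le_AA c ξ s n
    calc _ ≤ S.wh c ξ s j / |ξ n| * (S.AA c ξ s n * |ξ n|) :=
          mul_le_mul (by gcongr; exact S.abs_le_wh c ξ (by have := hn.le; omega)) this
            (sum_nonneg fun i _ => by (clear * - hL; positivity)) (div_nonneg (S.wh_nonneg ..) hx.le)
      _ = _ := by field_simp
  obtain h3 := mul_le_mul_of_nonneg_left (geo1 s n)
    (show 0 ≤ 8 * (|S.fr (n + 1) j| * c.L * |ξ n| ^ 2) by (clear * - hL hx; positivity))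
  linarith only [h1, h2, h3]

lemma a_hi (h : K c) (hS : S.OK c) (hs : S.St c ξ s) (hn : S.RInv c ξ s n) {r : ℝ}
    (h1 : ∀ j, n < j → j ≤ p → |S.fr (n + 1) j| * c.L * |ξ n| ≤ 2 * Real.exp r * S.wh c ξ s j)
    (h2 : ∀ j, n < j → j ≤ p → S.DD c (S.wh c ξ s) n j ≤ 3 * Real.exp r * |ξ n| * S.wh c ξ s j) :
    S.AA c ξ s p ≤ S.AA c ξ s n + 100 * |ξ n| * Real.exp r := by
  obtain h0 : ξ s ≠ 0 := by rw [hs.2.2.1]; exact one_ne_zero
  refine S.AA_le c h0 hn.le (le_add_of_nonneg_right (by (clear * -; positivity))) fun j hj hj' => ?_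
  have x1 := dd_old h hS hs hn hj
  have x2 := mul_le_mul_of_nonneg_right (h1 j hj hj') (abs_nonneg (ξ n))
  have x3 := h2 j hj hj'
  obtain x4 : 0 ≤ Real.exp r * |ξ n| * S.wh c ξ s j := mul_nonneg (by (clear * -; positivity)) (S.wh_nonneg ..)
  rw [Sq.DD] at x3 ⊢
  rw [← Ico_union_Ico_eq_Ico hn.le hj.le, sum_union (Ico_disjoint_Ico_consecutive _ _ _)]
  linarith only [x1, x2, x3, x4]

/-- the lower bound for `A` -/
lemma a_lo (h : K c) (hs : S.St c ξ s) (hn : S.RInv c ξ s n) (hp : n < p) (hρ : S.rho ξ n p ≠ 0)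
    (hw : S.wh c ξ s p ≤ |ξ p|) : Real.log |ξ n| + S.dep c ξ n p ≤ S.WW c ξ s p := by
  have hx : 0 < |ξ n| := abs_pos.2 hn.ne
  obtain hL : 0 < c.L := by have := h.L; linarith only [this]
  obtain h0 : ξ s ≠ 0 := by rw [hs.2.2.1]; exact one_ne_zero
  have hr := abs_pos.2 hρ
  obtain hf : S.fr (n + 1) p ≠ 0 := fun e => hρ (by rw [Sq.rho, e, mul_zero, div_zero])
  obtain e : |ξ p| = |S.rho ξ n p| * (|ξ n| * |S.fr (n + 1) p|) := by
    rw [← abs_mul, ← abs_mul, Sq.rho, div_mul_cancel₀ _ (mul_ne_zero hn.ne hf)]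
  have h1 := S.DD_le_AA c h0 (hn.le.trans hp.le)
  obtain h2 : |S.fr (n + 1) p| * c.L * S.wh c ξ s n ^ 2 ≤ S.DD c (S.wh c ξ s) s p :=
    single_le_sum (f := fun i => |S.fr (i + 1) p| * c.L * S.wh c ξ s i ^ 2)
      (fun i _ => by (clear * - hL; positivity)) (mem_Ico.2 ⟨hn.le, hp⟩)
  rw [hn.whm] at h2
  have hA := S.one_le_AA c ξ s p
  have hf' := abs_pos.2 hf
  rw [Sq.dep, Sq.WW, ← Real.log_mul hx.ne' (by (clear * - hL hρ; positivity))]
  refine Real.log_le_log (by (clear * - hx hL hρ; positivity)) (le_of_mul_le_mul_right ?_ (show 0 < |ξ p| by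
    rw [e]; (clear * - hρ hx hf; positivity)))
  calc _ = |S.fr (n + 1) p| * c.L * |ξ n| ^ 2 := by rw [e]; field_simp
    _ ≤ _ := h2.trans (h1.trans (by (clear * - hw hA; gcongr)))

lemma exp_dep (h : K c) (hρ : S.rho ξ n p ≠ 0) :
    Real.exp (S.dep c ξ n p) * |S.rho ξ n p| = c.L := by
  obtain hL : 0 < c.L := by have := h.L; linarith only [this]
  have hr := abs_pos.2 hρ
  rw [Sq.dep, Real.exp_log (by (clear * - hL hρ; positivity)), div_mul_cancel₀ _ hr.ne']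

lemma dep_eq (h : K c) (hρ : S.rho ξ n p ≠ 0) :
    S.dep c ξ n p = c.lam - Real.log |S.rho ξ n p| :=
  Real.log_div (by have := h.L; linarith only [this]) (abs_pos.2 hρ).ne'

lemma rho_le (h : K c) (hρ : S.rho ξ n p ≠ 0) :
    |S.rho ξ n p| = c.L * Real.exp (-S.dep c ξ n p) := by
  rw [← exp_dep h hρ, mul_right_comm, ← Real.exp_add, add_neg_cancel, Real.exp_zero, one_mul]

lemma chi_bl (hk : S.kk (n + 1) = 0) : S.chi c n (n + 1) = c.bl := by
  rw [S.chi_succ, Sq.ch1, hk]; ring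

lemma log_cb (h : K c) : Real.log (c.cb * c.L) = c.lam - 3 * Real.log c.lam := by
  have := h.lam4; have := h.L
  rw [Real.log_mul (by unfold Cs.cb; positivity) (by positivity), Cs.cb, one_div, Real.log_inv,
    Real.log_pow]
  simp only [Cs.lam]; push_cast; ring

lemma log_cw (h : K c) : Real.log (c.cw * c.L) = c.lam - 4 * Real.log c.lam := by
  have := h.lam4; have := h.L
  rw [Real.log_mul (by unfold Cs.cw; positivity) (by positivity), Cs.cw, one_div, Real.log_inv,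
    Real.log_pow]
  simp only [Cs.lam]; push_cast; ring

lemma conK {k a χ L x E R : ℝ} (hk : 1 / 16 ≤ k) (ha : 0 < a) (ha' : a ≤ 1 / 100) (hχ : 2 / 3 ≤ χ)
    (h1 : a / 2 * χ + 1 ≤ E) (h2 : x ≤ a / 100 * L) (h3 : 1 ≤ a / 100 * L) (h4 : L - 2 * x ≤ R) :
    k * L + 1 ≤ k * E * R := by
  obtain hL : 0 < L := by nlinarith only [ha', h3, ha]
  obtain h5 : 1 + a / 3 ≤ E := by nlinarith only [h1, ha, hχ]
  obtain h6 : (1 - a / 50) * L ≤ R := by linarith only [h2, h4]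
  obtain h7 : 0 < a * L := by positivity
  calc k * L + 1 ≤ k * (L + 16 * (a / 100 * L)) := by nlinarith only [hk, h3]
    _ ≤ k * ((1 + a / 3) * ((1 - a / 50) * L)) := by
      refine mul_le_mul_of_nonneg_left ?_ (by linarith only [hk, ha, ha'])
      nlinarith only [ha', h3, ha]
    _ ≤ k * (E * R) := by
      obtain this : 0 ≤ (1 - a / 50) * L := by nlinarith only [ha', h3, ha]
      obtain this : 0 ≤ E := by linarith only [ha, ha', h5]
      gcongr
    _ = _ := by ring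

/-- `|ρ - a| ≤ L / lam` for one step -/
lemma rho_a (h : K c) (hS : S.OK c) (ho : S.Out c ξ n) :
    |S.rho ξ n (n + 1) - S.a n| ≤ c.L / c.lam := by
  have hx : 0 < |ξ n| := abs_pos.2 ho.2.2.1
  have hL := h.L
  have hl := h.lam4
  have hbl := h.blam
  obtain b0 : 0 < S.b n := lt_of_lt_of_le (by positivity) (hS.b_lo n ho.1)
  obtain b1 : S.b n ≤ c.L := by
    refine (hS.b_hi n (2 / 100) ho.1 (by norm_num)).trans ?_
    unfold Sq.bb
    split_ifs
    · have := h.k1; nlinarith only [hL, this]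
    · exact (Real.exp_le_one_iff.2 (by linarith only [hl, hbl])).trans (by linarith only [hL])
  obtain this : S.rho ξ n (n + 1) - S.a n = S.b n * (ξ (n - 1) / ξ n) := by
    rw [S.rho_one, ho.2.1 n le_rfl]; field_simp [ho.2.2.1]; ring
  rw [this, abs_mul, abs_of_pos b0, abs_div, div_eq_mul_one_div c.L]
  refine mul_le_mul b1 (le_trans ?_ h.e5) (by (clear * - hx; positivity)) (by linarith only [hL])
  rw [div_le_iff₀ hx]; exact ho.2.2.2

lemma con1 (h : K c) (hS : S.OK c) (ho : S.Out c ξ n) (r1 : 1 ≤ |S.rho ξ n (n + 1)|) :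
    S.PB c (2 / 100) n (n + 1) ≤
      Real.exp (-(1 - c.a / 2) * S.chi c n (n + 1)) * |S.rho ξ n (n + 1)| := by
  obtain e1 : S.PB c (2 / 100) n (n + 1) = S.bb c (2 / 100) (n + 1) := by
    rw [Sq.PB, ← Icc_add_one_left_eq_Ioc, Icc_self, prod_singleton]
  have a0 := h.a
  have h3 := h.chK
  rw [e1, S.chi_succ]
  unfold Sq.bb
  split_ifs with h1
  · have k1 := S.kk_eq_one.2 h1
    rw [add_sub_cancel_right] at h1
    obtain h2 := (hS.core n ho.1 (by linarith only [a0, h1.1]) (by linarith only [a0, h1.2])).2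
    rw [sub_mul, one_mul, one_div_mul_eq_div] at h2
    have t2 := abs_sub_abs_le_abs_sub (S.a n) (S.rho ξ n (n + 1))
    rw [abs_sub_comm] at t2
    have ha := rho_a h hS ho
    obtain h4 : Real.exp (-(1 - c.a / 2) * S.ch1 c (n + 1)) = c.k0 * Real.exp (c.a / 2 * c.chK) := by
      rw [← h.eK, ← Real.exp_add, Sq.ch1, k1]; congr 1; ring
    have hl := h.lam4
    have hL := h.L
    have al := h.al
    rw [h4]
    refine conK (x := c.L / c.lam) h.k0 a0.1 a0.2 h3 (Real.add_one_le_exp _) ?_ ?_ (by linarith only [h2, t2, ha])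
    · rw [div_le_iff₀ (by linarith only [a0, hl])]; nlinarith only [al, a0, hL]
    · have := Real.add_one_le_exp c.lam
      rw [h.eL] at this
      nlinarith only [al, a0, this]
  · have h2 := S.ch1_mem c h.chb (n + 1)
    refine le_trans (Real.exp_le_exp.2 ?_) (le_mul_of_one_le_right (Real.exp_pos _).le r1)
    nlinarith only [h2, a0, h3]

lemma shallow {Ex : ExT} (h : K c) (hS : S.OK c) (hs : S.St c ξ s) (hn : S.RInv c ξ s n)
    (hb : c.cb * c.L ≤ S.rho ξ n (n + 1) ^ 2) :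
    S.Step c Ex ξ s n (S.dep c ξ n (n + 1)) (n + 1) := by
  have hx : 0 < |ξ n| := abs_pos.2 hn.ne
  have hL := h.L
  have hl := h.lam4
  have ho := out h hs hn
  obtain hcb : 0 < c.cb * c.L := by unfold Cs.cb; positivity
  obtain hρ : S.rho ξ n (n + 1) ≠ 0 := fun e => by rw [e] at hb; linarith only [hb, hcb]
  have hr := abs_pos.2 hρ
  obtain l1 : c.lam - 3 * Real.log c.lam ≤ 2 * Real.log |S.rho ξ n (n + 1)| := by
    have := Real.log_le_log hcb hb
    rwa [log_cb h, ← sq_abs, Real.log_pow] at this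
  have l2 := h.ll4
  have l3 := h.ll0
  obtain l4 : c.ε / 2 * c.lam ≤ 1 / 20 * c.lam :=
    mul_le_mul_of_nonneg_right (by linarith only [h.ε.2]) (by linarith only [hl])
  obtain r1 : 1 ≤ |S.rho ξ n (n + 1)| := by
    rw [← Real.log_nonneg_iff hr]; linarith only [hl, l1, l2, l4]
  obtain e : |ξ (n + 1)| = |S.rho ξ n (n + 1)| * |ξ n| := by
    rw [S.rho_one, abs_div, div_mul_cancel₀ _ hx.ne']
  have hd := dep_eq h hρ
  have he := exp_dep h hρ
  have hbl := h.blam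
  obtain hw : S.wh c ξ s (n + 1) = |ξ (n + 1)| := by
    rw [S.wh_succ c ξ (by have := hn.le; omega), add_sub_cancel_right, hn.whm, max_eq_left]
    have := (S.ch1_mem c h.chb (n + 1)).1
    have := h.chK
    rw [e]
    exact (mul_le_of_le_one_right hx.le (Real.exp_le_one_iff.2 (by (rename_i zq0; linarith only [zq0, this])))).trans
      (le_mul_of_one_le_left hx.le r1)
  have ha := rho_a h hS ho
  obtain hLl : c.L / c.lam ≤ c.L / 10000 := by (clear * - hL hl; gcongr)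
  have ha1 := hS.a_hi n ho.1
  rw [add_mul, one_mul, one_div_mul_eq_div] at ha1
  have t1 := abs_sub_abs_le_abs_sub (S.rho ξ n (n + 1)) (S.a n)
  have t2 := abs_sub_abs_le_abs_sub (S.a n) (S.rho ξ n (n + 1))
  rw [abs_sub_comm] at t2
  obtain zo : dP (S.X n) < 5 / 100 → S.dep c ξ n (n + 1) < 1 := fun h1 => by
    by_contra h2
    have h3 := hS.a_Z n ho.1 h1
    have h4 := mul_le_mul_of_nonneg_right (Real.add_one_le_exp (S.dep c ξ n (n + 1))) hr.le
    have h5 := mul_le_mul_of_nonneg_right (not_lt.1 h2) hr.le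
    linarith only [hL, he, ha, hLl, t2, h3, h4, h5]
  obtain kz : 1 ≤ S.dep c ξ n (n + 1) → S.kk (n + 1) = 0 := fun h1 => by
    refine S.kk_eq_zero.2 (.inr ?_)
    rw [add_sub_cancel_right]
    by_contra h2
    linarith only [h1, h2, zo (by linarith only [h2])]
  obtain i0 : c.L * |ξ n| = Real.exp (S.dep c ξ n (n + 1)) * S.wh c ξ s (n + 1) := by
    rw [hw, e, ← he]; ring
  obtain i00 : 0 < c.L * |ξ n| := by (clear * - hL hx; positivity)
  obtain i1 : ∀ j, n < j → j ≤ n + 1 → |S.fr (n + 1) j| * c.L * |ξ n| ≤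
      2 * Real.exp (S.dep c ξ n (n + 1)) * S.wh c ξ s j := fun j h1 h2 => by
    obtain rfl : j = n + 1 := by omega
    rw [S.fr_self, abs_one]; linarith only [i0, i00]
  obtain i2 : ∀ j, n < j → j ≤ n + 1 → S.DD c (S.wh c ξ s) n j ≤
      3 * Real.exp (S.dep c ξ n (n + 1)) * |ξ n| * S.wh c ξ s j := fun j h1 h2 => by
    obtain rfl : j = n + 1 := by omega
    rw [Sq.DD, Ico_add_one_right_eq_Icc, Icc_self, sum_singleton, S.fr_self, abs_one, hn.whm]
    have : c.L * |ξ n| * |ξ n| = _ := congrArg (· * |ξ n|) i0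
    have := mul_pos i00 hx
    (rename_i zq0; linarith only [zq0, this])
  refine ⟨by omega, rfl, ?_, a_lo h hs hn (by omega) hρ hw.le, a_hi h hS hs hn i1 i2, kz, ?_,
    ⟨?_, ?_⟩, ?_, .inr (.inl ⟨(rho_le h hρ).le, by linarith only [hl, l1, l2, l4, hd, hbl]⟩), fun h1 => ⟨rfl, (zo h1).le⟩, i1, i2,
    ins3 h hS hs hn i1, .inl ⟨rfl, by unfold Cs.c1; linarith only [l1, l2, l3, hd]⟩⟩
  · by_contra h1
    obtain h2 : Real.exp (S.dep c ξ n (n + 1)) ≤ 4 / 10 :=
      (Real.exp_le_exp.2 (by linarith only [h1])).trans (Real.exp_neg_one_lt_d9.le.trans (by norm_num))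
    have h3 := mul_le_mul_of_nonneg_right h2 hr.le
    linarith only [hL, he, ha, hLl, ha1, t1, h3]
  · rw [add_sub_cancel_left, Int.cast_one]
    exact le_add_of_nonneg_right (Real.exp_pos _).le
  · rw [e, ← mul_assoc]
    exact mul_le_mul_of_nonneg_right (con1 h hS ho r1) hx.le
  · rw [e, ← mul_assoc]
    exact le_mul_of_one_le_left hx.le (one_le_mul_of_one_le_of_one_le (Real.one_le_exp
      (mul_nonneg (half_pos h.a.1).le (h.chi_nn S (by omega)))) r1)
  · refine (le_or_gt _ 1).imp_right fun h1 => ?_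
    rw [chi_bl (kz h1.le), Cs.bl]
    obtain this := mul_le_mul_of_nonneg_right h.aβ (show 0 ≤ c.lam by linarith only [hl])
    linarith only [hl, l1, l2, l4, hd, this]

lemma cc0 (h : K c) : 0 ≤ c.cc := by
  have := h.ε.1; have := h.lam4; unfold Cs.cc; positivity

lemma ev_nonneg (h : K c) (S : Sq) (ξ : ℤ → ℝ) (s m : ℤ) (r : ℝ) : 0 ≤ S.ev c ξ s m r := by
  unfold Sq.ev
  split_ifs with h1 h2
  · exact (add_nonneg (div_nonneg (le_max_right _ _) h.e3.1.le) (cc0 h)).trans h1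
  · linarith only [h.lam4]
  · rfl

lemma evs_nonneg (h : K c) (S : Sq) (ξ : ℤ → ℝ) (s : ℤ) (Ls : List (ℤ × ℝ)) : 0 ≤ S.evs c ξ s Ls :=
  List.sum_nonneg fun x hx => by
    obtain ⟨y, -, rfl⟩ := List.mem_map.1 hx
    exact ev_nonneg h ..

lemma load_mono (h : K c) (S : Sq) (n : ℤ) {V V' : ℝ} (hV : V ≤ V') : S.load c n V ≤ S.load c n V' :=
  S.load_mono c (by linarith only [h.chK]) h.chb (by linarith only [h.C0]) n hV

lemma xx_mono (h : K c) (S : Sq) (n : ℤ) {V V' : ℝ} (hV : V ≤ V') : S.xx c n V ≤ S.xx c n V' := by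
  have := load_mono h S n hV
  have := h.C1
  have := h.ε.1
  unfold Sq.xx
  gcongr

lemma Wp_nonneg (c : Cs) (S : Sq) (n p : ℤ) : 0 ≤ S.Wp c n p := Real.log_nonneg (S.one_le_AA ..)

lemma xp_nonneg (h : K c) (S : Sq) (n p : ℤ) : 0 ≤ S.xp c n p := by
  have := S.load_nonneg c n (S.Wp c n p)
  have := h.C1
  have := h.ε.1
  have := cc0 h
  have := Wp_nonneg c S n p
  unfold Sq.xp Sq.xx
  positivity

/-- the depth at a free time of a bound run -/
lemma rbound {Ex : ExT} {Ls : List (ℤ × ℝ)} {r : ℝ} (h : K c) (hI : S.BInv c n Ls p)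
    (hc : S.Cond c Ex ξ n Ls p r) :
    r ≤ S.xx c n (S.Wt c (S.fr (n + 1)) (n + 1) p r) + c.cc := by
  have h1 := hc.c3
  have h2 := evs_nonneg h S (S.fr (n + 1)) (n + 1) Ls
  have h3 : S.xp c n p ≤ S.xx c n (S.Wt c (S.fr (n + 1)) (n + 1) p r) :=
    xx_mono h S n (le_max_left _ _)
  have h4 := xp_nonneg h S n p
  have h5 := cc0 h
  by_cases h6 : S.sg c (S.fr (n + 1)) (n + 1) p / c.e3 + c.cc ≤ r
  · rw [Sq.ev, if_pos h6] at h1; linarith only [h1, h2, h5]
  · obtain h7 : S.sg c (S.fr (n + 1)) (n + 1) p / c.e3 ≤ S.xp c n p := by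
      rw [div_le_iff₀ h.e3.1]
      refine hI.sg_le.trans ?_
      rw [mul_comm (S.xp c n p)]
      refine mul_le_mul_of_nonneg_right ?_ h4
      have := h.e3
      obtain this : c.e3 ^ 3 ≤ (1 / 10) ^ 3 := by gcongr <;> linarith only [this]
      unfold Cs.ε'
      (rename_i zq0; nlinarith only [zq0, this])
    linarith only [h3, h6, h7]

section block
variable {Ls : List (ℤ × ℝ)} (h : K c) (hI : S.BInv c n Ls p)
  (hp : S.RInv c (S.fr (n + 1)) (n + 1) p)
include h hI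

lemma ins2E {i j : ℤ} (h1 : n < i) (h2 : i < j) (h3 : j ≤ p) :
    |S.fr (i + 1) j| * c.L * Real.exp (-S.chi c n i / 2) ^ 2 ≤
      S.wp c n j * Real.exp (-((i - n : ℤ) : ℝ) / 2) := by
  obtain ⟨-, x1, -, x2⟩ := hI.i6 i h1 (by omega)
  obtain wj : 0 < S.wp c n j := S.wh_pos c (by rw [S.fr_self]; exact one_ne_zero) (by omega)
  obtain hL : 0 < c.L := by have := h.L; linarith only [this]
  obtain x3 : |S.fr (i + 1) j| * c.L * S.wp c n i ≤ Real.exp (c.a / 8 * S.chi c n i) * S.wp c n j := by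
    rw [← div_le_iff₀ wj]
    refine (x2 j h2 h3).trans (mul_le_of_le_one_right (Real.exp_pos _).le ?_)
    linarith only [Real.exp_pos (-S.chi c i p / 4)]
  obtain x4 : Real.exp (c.a / 8 * S.chi c n i) * Real.exp (-S.chi c n i / 2) ^ 2 ≤
      Real.exp (-((i - n : ℤ) : ℝ) / 2) * Real.exp (-(c.a / 8 * S.chi c n i)) := by
    rw [← Real.exp_nat_mul, ← Real.exp_add, ← Real.exp_add, Real.exp_le_exp]
    have := h.chi0 S h1.le
    have := mul_le_mul_of_nonneg_right h.a.2 (h.chi_nn S h1.le)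
    have := h.chi_nn S h1.le
    push_cast at *
    (rename_i zq1 zq0; linarith only [zq1, zq0, this])
  refine le_of_mul_le_mul_right ?_ (Real.exp_pos (-(c.a / 8 * S.chi c n i)))
  calc _ ≤ |S.fr (i + 1) j| * c.L * Real.exp (-S.chi c n i / 2) ^ 2 * S.wp c n i := by gcongr
    _ = |S.fr (i + 1) j| * c.L * S.wp c n i * Real.exp (-S.chi c n i / 2) ^ 2 := by ring
    _ ≤ Real.exp (c.a / 8 * S.chi c n i) * S.wp c n j * Real.exp (-S.chi c n i / 2) ^ 2 := by (clear * - x3; gcongr)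
    _ = S.wp c n j * (Real.exp (c.a / 8 * S.chi c n i) * Real.exp (-S.chi c n i / 2) ^ 2) := by ring
    _ ≤ _ := by rw [mul_assoc]; (clear * - x4 wj; gcongr)

lemma ins2I {w : ℤ → ℝ} {x R : ℝ} (w0 : ∀ i, 0 ≤ w i)
    (hw : ∀ i, n < i → i ≤ p → w i ≤ x * (R * S.wp c n i + Real.exp (-S.chi c n i / 2)))
    (hA : R ^ 2 * S.AA c (S.fr (n + 1)) (n + 1) p ≤ c.cb * c.L) {j : ℤ} (h1 : n < j) (h2 : j ≤ p) :
    S.DD c w (n + 1) j ≤ x ^ 2 * S.wp c n j * c.L / 2 := by
  have hL := h.L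
  have hl := h.lam4
  obtain f0 : S.fr (n + 1) (n + 1) ≠ 0 := by rw [S.fr_self]; exact one_ne_zero
  obtain wj : 0 < S.wp c n j := S.wh_pos c f0 (by omega)
  obtain key : ∀ i ∈ Ico (n + 1) j, |S.fr (i + 1) j| * c.L * w i ^ 2 ≤
      2 * x ^ 2 * R ^ 2 * (|S.fr (i + 1) j| * c.L * S.wp c n i ^ 2) +
        2 * x ^ 2 * S.wp c n j * Real.exp (-((i - n : ℤ) : ℝ) / 2) := by
    intro i hi
    rw [mem_Ico] at hi
    obtain x1 := ins2E h hI (i := i) (by omega) hi.2 h2
    obtain x2 : w i ^ 2 ≤ 2 * x ^ 2 * (R ^ 2 * S.wp c n i ^ 2 + Real.exp (-S.chi c n i / 2) ^ 2) :=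
      (pow_le_pow_left₀ (w0 i) (hw i (by omega) (by omega)) 2).trans (by
        linarith only [mul_nonneg (sq_nonneg x) (sq_nonneg (R * S.wp c n i - Real.exp (-S.chi c n i / 2)))])
    obtain x3 := mul_le_mul_of_nonneg_left x2 (show 0 ≤ |S.fr (i + 1) j| * c.L by (clear * - hL; positivity))
    obtain x4 := mul_le_mul_of_nonneg_left x1 (show 0 ≤ 2 * x ^ 2 by (clear * -; positivity))
    linarith only [x3, x4]
  have y1 := sum_le_sum key
  rw [sum_add_distrib, ← mul_sum, ← mul_sum] at y1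
  obtain y2 : S.DD c (S.wp c n) (n + 1) j ≤ S.AA c (S.fr (n + 1)) (n + 1) p * S.wp c n j :=
    (S.DD_le_AA c f0 (by omega)).trans (mul_le_mul_of_nonneg_right (S.AA_mono c _ _ h2) wj.le)
  obtain y3 := mul_le_mul_of_nonneg_left y2 (show 0 ≤ 2 * x ^ 2 * R ^ 2 by (clear * -; positivity))
  obtain y4 := mul_le_mul_of_nonneg_left (geo2 n j) (show 0 ≤ 2 * x ^ 2 * S.wp c n j by (clear * - wj; positivity))
  obtain y5 : c.cb * c.L ≤ 1 / 10 * c.L := by
    refine mul_le_mul_of_nonneg_right ?_ (by linarith only [hL])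
    rw [Cs.cb]
    exact one_div_le_one_div_of_le (by norm_num) (le_trans (by linarith only [hl]) (le_self_pow₀ (by linarith only [hl])
      (by norm_num)))
  obtain y6 := mul_le_mul_of_nonneg_left (show R ^ 2 * S.AA c (S.fr (n + 1)) (n + 1) p + 2 ≤ c.L / 4 by
    linarith only [hA, hL, y5]) (show 0 ≤ 2 * x ^ 2 * S.wp c n j by (clear * - wj; positivity))
  unfold Sq.DD at *
  linarith only [y1, y3, y4, y6]

lemma time {r : ℝ} (h1 : S.Wp c n p + c.lam ≤ 2 * r) : ((p - n : ℤ) : ℝ) ≤ 1 + Real.exp (c.del * r) := by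
  have hl := h.lam4
  have W0 := Wp_nonneg c S n p
  have d0 := h.d1.1
  have C0 := h.C0
  have C1 := h.C1
  obtain r0 : 1 ≤ r := by linarith only [h1, hl, W0]
  obtain x1 : 2 * (Ls.length : ℝ) ≤ Real.exp (c.d1 * r) := by
    have y1 := hI.len
    have y2 := h.ld
    rw [le_div_iff₀ (by linarith only [hl])] at y1
    rw [div_le_iff₀ d0] at y2
    have y3 := Real.add_one_le_exp (c.d1 * r)
    obtain y4 := mul_le_mul_of_nonneg_right y2 (show 0 ≤ r by linarith only [h1, hl, W0])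
    obtain this : 2 * (Ls.length : ℝ) * c.lam ≤ c.d1 * r * c.lam := by linarith only [h1, y1, y4]
    obtain this := le_of_mul_le_mul_right this (by linarith only [hl])
    linarith only [y3, this]
  obtain x2 : S.load c n (S.Wp c n p) ≤ 6 * c.C0 * r := by
    obtain y1 := S.load_le c (by linarith only [h.chK]) h.chb (by linarith only [C0])
      (mul_nonneg h.a.1.le (by linarith only [hl, h.blam])) n (S.Wp c n p)
    rw [max_eq_left W0] at y1
    nlinarith only [h1, hl, W0, C0, y1]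
  obtain x3 := mul_le_mul_of_nonneg_left x2 (show 0 ≤ 3 * c.d1 * c.C1 by positivity)
  obtain x4 := mul_le_mul_of_nonneg_left (show S.Wp c n p ≤ 4 * r by linarith only [h1, hl, W0]) d0.le
  refine hI.i7.trans (add_le_add_right ((mul_le_mul_of_nonneg_right x1 (Real.exp_pos _).le).trans ?_) _)
  rw [← Real.exp_add, Real.exp_le_exp, Cs.del]
  linarith only [x3, x4]

omit hI in
include hp in
lemma logw (hS : S.OK c) (n0 : 0 ≤ n) :
    Real.log |S.fr (n + 1) p| ≤ Real.log c.lam + c.lam + S.Wp c n p := by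
  have hl := h.lam4
  have hL := h.L
  have l0 := h.ll0
  have W0 := Wp_nonneg c S n p
  rcases hp.le.eq_or_lt with rfl | h1
  · rw [S.fr_self, abs_one, Real.log_one]; linarith only [hl, l0, W0]
  · obtain ⟨x1, x2⟩ := (Sq.cert_wh hS h.k0 h.k1 (by linarith only [hl]) h.chb (st_fr c S n0) hp.le).2.2 (p - 1)
      (by omega)
    rw [sub_add_cancel] at x1 x2
    rw [hp.whm] at x1
    have hA := S.one_le_AA c (S.fr (n + 1)) (n + 1) p
    rw [Sq.Wp, Sq.WW, Cs.lam, ← Real.log_mul (by positivity) (by positivity),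
      ← Real.log_mul (by positivity) (by positivity)]
    refine Real.log_le_log (abs_pos.2 hp.ne) (x1.trans ?_)
    calc _ ≤ 6 * c.L * (6 * S.AA c (S.fr (n + 1)) (n + 1) p) := by gcongr
      _ = 36 * c.L * S.AA c (S.fr (n + 1)) (n + 1) p := by ring
      _ ≤ _ := by gcongr; exact le_trans (by norm_num) hl

end block

lemma block {Ex : ExT} {Ls : List (ℤ × ℝ)} {r' : ℝ} (h : K c) (hB : BLK_s c) (hS : S.OK c)
    (hs : S.St c ξ s) (hn : S.RInv c ξ s n) (hR : S.BRun c Ex ξ n Ls p r')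
    (hp : S.RInv c (S.fr (n + 1)) (n + 1) p) (hI : S.BInv c n Ls p)
    (hb : c.cw * c.L ≤ S.rho ξ n p ^ 2 * Real.exp (S.Wt c (S.fr (n + 1)) (n + 1) p r')) :
    S.Step c Ex ξ s n (S.dep c ξ n p) p := by
  have hx : 0 < |ξ n| := abs_pos.2 hn.ne
  have hL := h.L
  have hl := h.lam4
  have n0 : 0 ≤ n := hs.1.trans hn.le
  have np : n < p := hp.le
  obtain hcw : 0 < c.cw * c.L := by unfold Cs.cw; (clear * - hl hL; positivity)
  obtain hρ : S.rho ξ n p ≠ 0 := fun e => by rw [e] at hb; linarith only [hb, hcw]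
  have hr := abs_pos.2 hρ
  obtain ⟨e, hj⟩ := hB S ξ s n Ls p hS hs hn hp hI hρ
  have hbd : _ ≤ _ := hR.2.1
  have hc := hR.2.2
  have rb := rbound h hI hc
  have c2 := hc.c2
  have V1 : S.Wp c n p ≤ S.Wt c (S.fr (n + 1)) (n + 1) p r' := le_max_left _ _
  obtain V2 : S.Wt c (S.fr (n + 1)) (n + 1) p r' ≤ Real.log |S.fr (n + 1) p| +
      max (S.sg c (S.fr (n + 1)) (n + 1) p) r' := max_le
    (by have : S.sig c _ _ _ ≤ _ := (le_max_left _ _).trans
          (le_max_left (S.sg c (S.fr (n + 1)) (n + 1) p) r')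
        unfold Sq.sig at this; linarith only [this]) (by gcongr; exact le_max_right _ _)
  obtain hA : |S.rho ξ n p| ^ 2 * S.AA c (S.fr (n + 1)) (n + 1) p ≤ c.cb * c.L := by
    rw [sq_abs, ← Real.exp_log (zero_lt_one.trans_le (S.one_le_AA c (S.fr (n + 1)) (n + 1) p))]
    exact (mul_le_mul_of_nonneg_left (Real.exp_le_exp.2 V1) (sq_nonneg _)).trans hbd
  generalize S.Wt c (S.fr (n + 1)) (n + 1) p r' = V at *
  obtain lg : Real.log (S.rho ξ n p ^ 2 * Real.exp V) = 2 * Real.log |S.rho ξ n p| + V := by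
    rw [Real.log_mul (by positivity) (by positivity), Real.log_exp, ← sq_abs, Real.log_pow]; rfl
  have v1 := Real.log_le_log hcw hb
  obtain v2 := Real.log_le_log (by positivity) hbd
  rw [lg, log_cw h] at v1
  rw [lg, log_cb h] at v2
  have hd := dep_eq h hρ
  have he := exp_dep h hρ
  have hρe := rho_le h hρ
  have l2 := h.ll4
  have l3 := h.ll0
  have ε0 := h.ε.1
  have a0 := h.a
  obtain l4 : c.ε / 2 * c.lam ≤ 1 / 20 * c.lam :=
    mul_le_mul_of_nonneg_right (by linarith only [h.ε.2]) (by linarith only [hl, a0])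
  have W0 := Wp_nonneg c S n p
  have w0 := abs_pos.2 hp.ne
  obtain ea : |ξ p| = |S.rho ξ n p| * |S.fr (n + 1) p| * |ξ n| := by rw [e, abs_mul, abs_mul]
  obtain g : Real.log |ξ p| - Real.log |ξ n| = c.lam - S.dep c ξ n p + Real.log |S.fr (n + 1) p| := by
    rw [ea, Real.log_mul (by (clear * - hρ w0; positivity)) hx.ne', Real.log_mul hr.ne' w0.ne']; linarith only [hd]
  have χ0 := h.chi_nn S np.le
  obtain χ1 : c.β * c.lam ≤ S.chi c n p := by
    obtain this := S.chi_add c (show n ≤ n + 1 by omega) hp.le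
    have := h.chi_nn S hp.le
    have := chi_bl (c := c) hI.kz.1
    unfold Cs.bl at this
    (rename_i zq1 zq0; linarith only [zq1, zq0, this])
  obtain dch : S.dep c ξ n p ≤ c.a / 4 * S.chi c n p := by
    have x1 := mul_le_mul_of_nonneg_left c2 a0.1.le
    have x2 := mul_le_mul_of_nonneg_left χ1 a0.1.le
    have x3 := mul_le_mul_of_nonneg_right h.aM (W0.trans V1)
    obtain x4 := mul_le_mul_of_nonneg_right h.aβ (show 0 ≤ c.lam by linarith only [hl, a0])
    linarith only [hl, v1, hd, l2, a0, l4, x1, x2, x3, x4]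
  obtain ⟨k1, k2, -⟩ := hI.i6 p np le_rfl
  have wp : S.wp c n p = |S.fr (n + 1) p| := hp.whm
  rw [wp] at k2
  have aχ := mul_le_mul_of_nonneg_right a0.2 χ0
  have aχ0 := mul_nonneg a0.1.le χ0
  obtain g0 : 2 * Real.exp (-(3 / 8 * c.a * S.chi c n p)) ≤ |S.rho ξ n p| * |S.fr (n + 1) p| :=
    calc _ ≤ c.L * Real.exp (-S.dep c ξ n p + -(c.a / 8 * S.chi c n p)) :=
          mul_le_mul (by linarith only [hL, a0]) (Real.exp_le_exp.2 (by linarith only [dch])) (Real.exp_pos _).le (by linarith only [hL, a0])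
      _ ≤ _ := by rw [Real.exp_add, ← mul_assoc, ← hρe]; (clear * - k2 hρ; gcongr)
  obtain g1 : 2 * Real.exp (-S.chi c n p / 2) ≤ |S.rho ξ n p| * |S.fr (n + 1) p| :=
    le_trans (mul_le_mul_of_nonneg_left (Real.exp_le_exp.2 (by linarith only [hl, V1, v1, v2, hd, a0, W0, dch, aχ])) two_pos.le) g0
  obtain hw : S.wh c ξ s p ≤ |ξ p| := by
    rw [S.wh_succ c ξ (hn.le.trans np.le)]
    refine max_le le_rfl ?_
    obtain y0 : S.chi c n p = S.chi c n (p - 1) + S.ch1 c p := by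
      have := S.chi_succ c (p - 1)
      rw [sub_add_cancel] at this
      rw [← this]; exact S.chi_add c (by omega) (by omega)
    have y1 := Real.exp_pos (-S.chi c n p / 2)
    rw [ea, mul_comm _ |ξ n|]
    rcases hp.le.eq_or_lt with rfl | h1
    · rw [add_sub_cancel_right, hn.whm, ← S.chi_succ]
      exact mul_le_mul_of_nonneg_left (by linarith only [g1, y1]) hx.le
    · obtain y2 := (hj (p - 1) (by omega) (by omega)).2.2.2.2
      obtain y3 : S.wp c n (p - 1) ≤ 1 / 2 * |S.fr (n + 1) p| := by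
        refine (hp.i1 h1).trans (mul_le_mul_of_nonneg_right ?_ w0.le)
        obtain this := h.e35.trans (h.e5.trans (one_div_le_one_div_of_le two_pos (by linarith only [hl, a0])))
        have := mul_pos (Real.exp_pos (-c.lam / 3)) (Real.exp_pos (-S.chi c (n + 1) p / 10))
        (rename_i zq0; linarith only [zq0, this])
      obtain y4 : Real.exp (-S.ch1 c p / 2) ≤ 1 :=
        Real.exp_le_one_iff.2 (by linarith only [a0, (S.ch1_mem c h.chb p).1, h.chK])
      obtain y5 : Real.exp (-S.chi c n (p - 1) / 2) * Real.exp (-S.ch1 c p / 2) =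
          Real.exp (-S.chi c n p / 2) := by rw [← Real.exp_add, y0]; congr 1; ring
      obtain y6 := mul_le_mul (mul_le_mul_of_nonneg_left y3 hr.le) y4 (Real.exp_pos _).le (by (clear * - hρ w0; positivity))
      refine (mul_le_mul_of_nonneg_right y2 (Real.exp_pos _).le).trans ?_
      rw [mul_assoc]
      exact mul_le_mul_of_nonneg_left (by linarith only [g1, y5, y6]) hx.le
  obtain i0 : ∀ j, n < j → j ≤ p → S.wp c n j * c.L * |ξ n| ≤
      2 * Real.exp (S.dep c ξ n p) * S.wh c ξ s j := fun j h1 h2 => by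
    have := mul_le_mul_of_nonneg_left (hj j h1 h2).2.2.2.1 (Real.exp_pos (S.dep c ξ n p)).le
    rw [← he]; linarith only [this]
  obtain i1 : ∀ j, n < j → j ≤ p → |S.fr (n + 1) j| * c.L * |ξ n| ≤
      2 * Real.exp (S.dep c ξ n p) * S.wh c ξ s j := fun j h1 h2 =>
    le_trans (by gcongr; exact S.abs_le_wh c _ (by omega)) (i0 j h1 h2)
  obtain i2 : ∀ j, n < j → j ≤ p → S.DD c (S.wh c ξ s) n j ≤
      3 * Real.exp (S.dep c ξ n p) * |ξ n| * S.wh c ξ s j := fun j h1 h2 => by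
    have y1 := ins2I h hI (S.wh_nonneg c ξ s) (fun i a b => (hj i a b).2.2.2.2) hA h1 h2
    have y2 := mul_le_mul_of_nonneg_right (i0 j h1 h2) hx.le
    have y3 := mul_le_mul_of_nonneg_right (i1 j h1 h2) hx.le
    rw [Sq.DD] at y1 ⊢
    rw [← insert_Ico_add_one_left_eq_Ico h1, sum_insert (by simp), hn.whm]
    linarith only [y1, y2, y3]
  have ld := S.load_nonneg c n (2 * S.dep c ξ n p)
  have C1 := h.C1
  have ld1 := mul_nonneg (zero_le_one.trans C1) ld
  obtain εr := mul_le_mul_of_nonneg_left (show c.lam ≤ 2 * S.dep c ξ n p by linarith only [V1, v1, v2, hd, W0]) ε0.le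
  obtain xV : S.xx c n V ≤ c.C1 * S.load c n (2 * S.dep c ξ n p) + c.ε * (2 * S.dep c ξ n p) + c.cc :=
    xx_mono h S n (by linarith only [hl, v1, v2, hd, a0])
  have xW : S.xp c n p ≤ S.xx c n V := xx_mono h S n V1
  have x0 := xp_nonneg h S n p
  have cc : c.cc = c.ε * c.lam / 20 := rfl
  obtain εl := mul_pos ε0 (show 0 < c.lam by linarith only [hl, a0])
  refine ⟨np, rfl, by linarith only [hl, V1, v1, v2, hd, a0, W0], a_lo h hs hn np hρ hw, a_hi h hS hs hn i1 i2, fun _ => hI.kz.1,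
    time h hI (by linarith only [V1, v1, v2, hd]), ⟨?_, ?_⟩, .inr dch,
    .inr (.inr ⟨Ls, p, r', hR, hρe.le, by linarith only [hl, V1, v1, v2, hd, a0, W0, dch, aχ]⟩), fun h1 => absurd hI.kz.2.1 (not_le.2 h1), i1, i2,
    ins3 h hS hs hn i1, .inr ⟨by linarith only [V1, v1, v2, hd, W0], ?_, ?_, ?_, ?_⟩⟩
  · rw [ea, ← mul_assoc]
    refine mul_le_mul_of_nonneg_right ((S.PB_le c h.k0p h.kL h.chb np.le
      (by first | assumption | linarith only [hl, a0] | positivity)).trans ?_) hx.le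
    refine le_trans ?_ (mul_le_mul_of_nonneg_left g0 (Real.exp_pos _).le)
    rw [mul_left_comm, ← Real.exp_add]
    exact (Real.exp_le_exp.2 (by linarith only [k1])).trans (le_mul_of_one_le_left (Real.exp_pos _).le one_le_two)
  · rw [ea, ← mul_assoc]
    refine le_mul_of_one_le_left hx.le (le_trans ?_ (mul_le_mul_of_nonneg_left g0 (Real.exp_pos _).le))
    rw [mul_left_comm, ← Real.exp_add]
    exact one_le_mul_of_one_le_of_one_le one_le_two (Real.one_le_exp (by linarith only [hl, V1, v1, v2, hd, a0, W0, dch]))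
  · obtain y1 : S.sg c (S.fr (n + 1)) (n + 1) p ≤ S.xp c n p := by
      refine hI.sg_le.trans (mul_le_of_le_one_left x0 ?_)
      have := h.e3
      obtain this : c.e3 ^ 4 ≤ (1 / 10) ^ 4 := by gcongr <;> linarith only [this]
      unfold Cs.ε'
      linarith only [a0, this]
    obtain y2 : max (S.sg c (S.fr (n + 1)) (n + 1) p) r' ≤ S.xx c n V + c.cc :=
      max_le (by linarith only [xW, cc, εl, y1]) rb
    rw [g, Cs.C4]
    linarith only [V2, v1, hd, l2, ld1, εr, xV, cc, εl, y2]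
  · rw [g]; linarith only [V1, v1, v2, hd, a0, logw h hp hS n0]
  · exact le_trans (mul_le_mul_of_nonneg_left (by linarith only [hl, v1, hd, l2, a0, l4]) (by linarith only [a0, h.M0])) c2
  · refine hI.nk.trans (mul_le_mul_of_nonneg_left (by linarith only [εr, xV, xW, cc, εl]) ?_)
    unfold Cs.CN; (clear * -; positivity)

end STEP

theorem step : Hier fun c => BLK_s c → STEP_s c :=
  STEP.hK.mono fun _ h hB _ _ _ _ _ hS hs hn =>
    ⟨STEP.shallow h hS hs hn, fun _ _ _ hR hp hI => STEP.block h hB hS hs hn hR hp hI⟩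

end Pool.Agent.MP_9cbfe4_an

end

/-! ### Part TG -/

section

/-! Row TG: a segmented history is tame. -/

namespace Pool.Agent.MP_9cbfe4_an
open Finset Real

namespace TG

structure Num (c : Cs) : Prop where
  a0 : 0 < c.a
  a1 : c.a ≤ 1 / 100
  k1 : 69 / 100 ≤ c.chK
  k2 : c.chK ≤ c.bl
  k0 : 0 ≤ c.k0
  e0 : 0 ≤ c.e0
  ab : 10 * c.lam ≤ c.a * c.bl
  al : 10 ^ 9 ≤ c.a * c.lam
  L : c.L = exp c.lam

theorem num : Hier Num := by
  obtain ha := Hier.a_le (fun _ => 1 / 100) (fun _ _ _ _ _ _ => rfl) (Hier.of_all fun _ => by norm_num)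
  refine (((((Hier.base.and ha).and (Hier.β_ge (fun c => 10 / c.a) fun _ _ _ => rfl)).and
    (Hier.lam_ge (fun c => 10 ^ 9 / c.a) fun _ _ => rfl)).and
    (Hier.lam_ge (fun _ => 100) fun _ _ => rfl)).and (Hier.L_ge (fun _ => 1) fun _ _ => rfl)).mono ?_
  rintro c ⟨⟨⟨⟨⟨⟨h1, h2, -⟩, a0, a1⟩, hb⟩, hl⟩, hl'⟩, hL⟩
  rw [div_le_iff₀ a0] at hb hl
  obtain k0 : 0 < c.k0 := by linarith only [h1, a0, a1]
  obtain hab : 10 * c.lam ≤ c.a * c.bl := by unfold Cs.bl; nlinarith only [hb, hl']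
  refine ⟨a0, a1, ?_, ?_, k0.le, by unfold Cs.e0; linarith only [h2], hab, by linarith only [hl],
    (exp_log (by linarith only [hL, a0, a1])).symm⟩
  · obtain this : log 2 ≤ c.chK := log_le_log (by norm_num) (by rw [le_div_iff₀ k0]; linarith only [h2])
    linarith only [a0, a1, this, log_two_gt_d9]
  · obtain this : c.chK ≤ 1 / c.k0 - 1 := log_le_sub_one_of_pos (by positivity)
    obtain h3 : 1 / c.k0 ≤ 16 := by rw [div_le_iff₀ k0]; linarith only [h1]
    obtain hb0 : 0 ≤ c.bl := by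
      by_contra hn
      nlinarith only [hl, a0, a1, hab, hn, hl']
    nlinarith only [hl, a0, a1, hab, this, h3, hl']

variable {c : Cs} {S : Sq} {ξ w A : ℤ → ℝ} {Rg : Finset ℤ} {h s m m' n : ℤ} {r : ℝ}

lemma Num.lam (N : Num c) : 10 ^ 9 ≤ c.lam := by
  have := N.al; have := N.a0; have := N.a1
  by_contra hn
  (rename_i zq1 zq0; nlinarith only [zq1, this, zq0, hn])

lemma Num.bl (N : Num c) : 0 < c.bl := by linarith only [N.k1, N.k2]

lemma Num.L8 (N : Num c) : 8 ≤ c.L := by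
  rw [N.L]; linarith only [add_one_le_exp c.lam, N.lam]

lemma Num.chi0 (N : Num c) (S : Sq) {i j : ℤ} (hij : i ≤ j) : 0 ≤ S.chi c i j :=
  le_trans (mul_nonneg (by linarith only [N.k1]) (by exact_mod_cast sub_nonneg.2 hij))
    (S.chi_ge c N.k2 hij)

lemma geo (s m : ℤ) : ∑ i ∈ Ico s m, exp (-((m - i : ℤ) : ℝ) / 2) ≤ 2 := by
  rcases le_or_gt m s with hm | hm
  · rw [Ico_eq_empty_of_le hm]; norm_num
  obtain hq : exp (-(1 : ℝ) / 2) ≤ 2 / 3 := by
    rw [neg_div, exp_neg, inv_le_comm₀ (exp_pos _) (by norm_num)]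
    linarith only [add_one_le_exp (1 / 2 : ℝ)]
  induction m, hm.le using Int.leInduction with
  | base => simp
  | succ m hm' ih =>
    obtain ih : ∑ i ∈ Ico s m, exp (-((m - i : ℤ) : ℝ) / 2) ≤ 2 := by
      rcases hm'.eq_or_lt with e | e
      · rw [← e]; simp
      · exact ih e
    rw [← insert_Ico_right_eq_Ico_add_one hm', sum_insert right_notMem_Ico]
    obtain e : ∀ i ∈ Ico s m, exp (-((m + 1 - i : ℤ) : ℝ) / 2) =
        exp (-(1 : ℝ) / 2) * exp (-((m - i : ℤ) : ℝ) / 2) := fun i _ => by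
      rw [← exp_add]; congr 1; push_cast; ring
    rw [sum_congr rfl e, ← mul_sum, show ((m + 1 - m : ℤ) : ℝ) = 1 by simp]
    nlinarith only [hq, ih, exp_pos (-(1 : ℝ) / 2)]

lemma split2 (f : ℤ → ℝ) (h1 : s ≤ m) (h2 : m ≤ n) :
    ∑ i ∈ Ico s n, f i = ∑ i ∈ Ico s m, f i + ∑ i ∈ Ico m n, f i := by
  rw [← sum_union (Ico_disjoint_Ico_consecutive s m n), Ico_union_Ico_eq_Ico h1 h2]

lemma split3 (f g : ℤ → ℝ) (h1 : s ≤ m) (h2 : m < n) (e : ∀ i, s ≤ i → i < m → f i = g i)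
    (z : ∀ i, m < i → i < n → f i = 0) : ∑ i ∈ Ico s n, f i = ∑ i ∈ Ico s m, g i + f m := by
  rw [split2 f h1 h2.le, sum_congr rfl fun i hi => e i (mem_Ico.1 hi).1 (mem_Ico.1 hi).2,
    sum_eq_single_of_mem m (left_mem_Ico.2 h2) fun i hi hne =>
      z i (lt_of_le_of_ne (mem_Ico.1 hi).1 hne.symm) (mem_Ico.1 hi).2]

/-- extension of the bound for `D_j` over one step -/
lemma dd_ext (N : Num c) (ok : S.OK c) (H : S.Hist c ξ w h n) (st : S.HStep c ξ w h m r m')
    (hs : h ≤ s) (hm : s ≤ m) (hn : m' ≤ n) {B : ℝ} (hB : S.DD c w s m ≤ B * w m) {j : ℤ}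
    (h1 : m < j) (h2 : j ≤ m') : S.DD c w s j ≤ (B + 3000000 * exp r * w m) * w j := by
  obtain wm := H.pos m (by omega) (by omega)
  obtain wj := H.pos j (by omega) (by omega)
  obtain hL : 0 ≤ c.L := by linarith only [N.L8]
  have er := exp_pos r
  obtain key : ∀ i ∈ Ico s m, |S.fr (i + 1) j| * c.L * w i ^ 2 ≤
      |S.fr (i + 1) m| * c.L * w i ^ 2 * (w j / w m) +
        1250000 * exp r * w m * w j * exp (-((m - i : ℤ) : ℝ) / 2) := fun i hi => by
    obtain ⟨i1, i2⟩ := mem_Ico.1 hi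
    obtain wi := H.pos i (by omega) (by omega)
    obtain E := S.euler i2 h1.le fun l l1 l2 => H.maj.1 l (by omega) (by omega)
    obtain ⟨p0, p1⟩ := ok.Pb_le (θ := 18 / 1000) (by norm_num) (i := i) (j := m)
      (by have := H.h0; omega)
    obtain xi := H.maj.2 i (by omega) (by omega)
    obtain xj := H.maj.2 j (by omega) (by omega)
    rw [one_mul] at xi xj
    obtain ⟨d1, d2⟩ := st.dec i (by omega) i2
    have nw := (st.new j h1 h2).2
    set x := S.chi c i m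
    obtain hx : ((m - i : ℤ) : ℝ) / 2 ≤ (1 - 9 * c.a) * x := by
      have := S.chi_ge c N.k2 i2.le
      obtain t0 : (0 : ℝ) ≤ ((m - i : ℤ) : ℝ) := by exact_mod_cast sub_nonneg.2 i2.le
      have := N.k1; have := N.a1; have := N.a0
      obtain x1 : 69 / 100 * ((m - i : ℤ) : ℝ) ≤ x := by (rename_i zq2 zq1 _; nlinarith only [zq2, t0, zq1])
      (rename_i zq0; nlinarith only [t0, x1, zq0])
    obtain f1 : |S.fr (i + 1) j| * w m ≤
        w j * |S.fr (i + 1) m| + S.PB c (18 / 1000) i m * w i * |S.fr (m + 1) j| := by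
      rw [st.wm, ← abs_mul]
      have t := abs_sub_abs_le_abs_sub (S.fr (i + 1) j * ξ m) (ξ j * S.fr (i + 1) m)
      rw [E, abs_mul (ξ j), abs_of_pos p0] at t
      have t1 := mul_le_mul_of_nonneg_right xj (abs_nonneg (S.fr (i + 1) m))
      have t2 := mul_le_mul_of_nonneg_right (mul_le_mul p1 xi (abs_nonneg _) (p0.le.trans p1))
        (abs_nonneg (S.fr (m + 1) j))
      linarith only [t, t1, t2]
    have f2 : w i ^ 2 ≤ (50 * exp (3 * c.a * x) * w m) ^ 2 := pow_le_pow_left₀ wi.le d2 2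
    obtain f3 : S.PB c (18 / 1000) i m * w i * w i ^ 2 ≤
        125000 * exp (-((m - i : ℤ) : ℝ) / 2) * w m ^ 3 := by
      refine (mul_le_mul d1 f2 (by positivity) (by positivity)).trans ?_
      obtain this : exp (-(1 - 3 * c.a) * x) * exp (3 * c.a * x) ^ 2 ≤ exp (-((m - i : ℤ) : ℝ) / 2) := by
        rw [sq, ← exp_add, ← exp_add]; exact exp_le_exp.2 (by linarith only [hx])
      calc _ = 125000 * (exp (-(1 - 3 * c.a) * x) * exp (3 * c.a * x) ^ 2) * w m ^ 3 := by ring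
        _ ≤ _ := by gcongr
    obtain f4 := mul_le_mul f3 nw (by (clear * - hL wm; positivity)) (by positivity)
    obtain f5 := mul_le_mul_of_nonneg_right f1 (by positivity : 0 ≤ c.L * w i ^ 2 * w m)
    refine le_of_mul_le_mul_right ?_ (pow_pos wm 2)
    have e : w j / w m * w m = w j := div_mul_cancel₀ _ wm.ne'
    calc _ = |S.fr (i + 1) j| * w m * (c.L * w i ^ 2 * w m) := by ring
      _ ≤ _ := f5
      _ = |S.fr (i + 1) m| * c.L * w i ^ 2 * w j * w m +
          S.PB c (18 / 1000) i m * w i * w i ^ 2 * (|S.fr (m + 1) j| * c.L * w m) := by ring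
      _ ≤ |S.fr (i + 1) m| * c.L * w i ^ 2 * (w j / w m * w m) * w m +
          125000 * exp (-((m - i : ℤ) : ℝ) / 2) * w m ^ 3 * (10 * exp r * w j) := by
        rw [e]; linarith only [f4]
      _ = _ := by ring
  have t := sum_le_sum key
  rw [sum_add_distrib, ← sum_mul, ← mul_sum] at t
  obtain t1 : S.DD c w s m * (w j / w m) ≤ B * w j := by
    refine (mul_le_mul_of_nonneg_right hB (by positivity)).trans_eq ?_
    field_simp
  obtain t2 := mul_le_mul_of_nonneg_left (geo s m) (by positivity : 0 ≤ 1250000 * exp r * w m * w j)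
  have t3 := (st.new j h1 h2).1
  obtain t4 : 0 ≤ exp r * w m * w j := by positivity
  unfold Sq.DD at *
  rw [split2 _ hm h1.le]
  linarith only [t, t1, t2, t3, t4]

/-- number of irregular runs -/
noncomputable def runs (Rg : Finset ℤ) (s m : ℤ) : ℝ :=
  ∑ i ∈ Ico s m, if i ∉ Rg ∧ (i - 1 ∈ Rg ∨ i = s) then 1 else 0

/-- cost of the irregular indices -/
noncomputable def cost (A : ℤ → ℝ) (Rg : Finset ℤ) (s m : ℤ) : ℝ :=
  ∑ i ∈ Ico s m, if i ∉ Rg then log (A (i + 1) / A i) else 0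

lemma runs_eq (Rg : Finset ℤ) (s m : ℤ) :
    (((Ico s m).filter fun i => i ∉ Rg ∧ (i - 1 ∈ Rg ∨ i = s)).card : ℝ) = runs Rg s m := by
  rw [runs, card_filter]; push_cast; rfl

lemma cost_eq (A : ℤ → ℝ) (Rg : Finset ℤ) (s m : ℤ) :
    ∑ i ∈ Ico s m \ Rg, log (A (i + 1) / A i) = cost A Rg s m := by
  rw [cost, sdiff_eq_filter, sum_filter]

structure Inv (c : Cs) (S : Sq) (ξ w A : ℤ → ℝ) (Rg : Finset ℤ) (s m : ℤ) : Prop where
  mono : ∀ i j, s ≤ i → i ≤ j → j ≤ m → A i ≤ A j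
  lo : w s ≤ A s
  lo' : w m ≤ 2000 * c.L * A m
  dd : ∀ j, s ≤ j → j ≤ m → S.DD c w s j ≤ A j * w j
  sub : Rg ⊆ Ico s m
  reg : ∀ i ∈ Rg, dP (S.X i) ≤ 2 * c.w0 ∧ w i ≤ 4 * |ξ i| ∧ A (i + 1) ≤ c.lam * w i
  runs : runs Rg s m ≤ 2 * S.chi c s m / c.bl + 2 ∨
    (runs Rg s m ≤ 2 * S.chi c s m / c.bl + 3 ∧ (m - 1 ∈ Rg ∨ m = s → A m ≤ c.lam / 2 * w m))
  cost : log (A s / w s) + cost A Rg s m ≤ 6 * c.a * S.chi c s m + 20

lemma inv_self (N : Num c) (hw : 0 < w s) : Inv c S ξ w (fun _ => w s) ∅ s s := by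
  refine ⟨fun _ _ _ _ _ => le_rfl, le_rfl, by nlinarith only [hw, N.L8], fun j h1 h2 => ?_, by simp, by simp,
    .inl ?_, ?_⟩
  · rw [le_antisymm h2 h1]; simp [Sq.DD]; positivity
  · simp [runs, S.chi_self]
  · simp [cost, S.chi_self, hw.ne']

lemma core (N : Num c) (ok : S.OK c) (h0 : 0 ≤ m) (h1 : dP (S.X (m + 1)) < 5 / 100)
    (h2 : dP (S.X m) < 5 / 100) : dP (S.X m) ≤ 2 * c.w0 := by
  have lam := N.lam
  obtain w0 : 0 < c.w0 := by unfold Cs.w0; positivity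
  have := (ok.core m h0 h1 h2).1
  unfold Core at this
  nlinarith only [this, h2, w0, N.e0]

lemma inv_suf (N : Num c) (ok : S.OK c) (h0 : 0 ≤ s) (hw : ∀ i, s ≤ i → i < m → 0 < w i)
    (h : S.SufC c 2 ξ w A Rg s m) : Inv c S ξ w A Rg s m := by
  refine ⟨h.mono, h.lo, by linarith only [h.lo'], h.dd, h.sub, fun i hi => ?_, .inl ?_, ?_⟩
  · obtain ⟨a, b, d, e⟩ := h.reg i hi
    obtain ⟨i1, i2⟩ := mem_Ico.1 (h.sub hi)
    obtain this := mul_pos (by linarith only [N.lam] : 0 < c.lam) (hw i i1 i2)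
    exact ⟨core N ok (by omega) (by linarith only [b]) (by linarith only [a]), by linarith only [d], by linarith only [e, this]⟩
  · rw [← runs_eq]; convert h.runs
  · rw [← cost_eq]; linarith only [h.cost]

lemma inv_step (N : Num c) (ok : S.OK c) (H : S.Hist c ξ w h n) (st : S.HStep c ξ w h m r m')
    (hs : h ≤ s) (hm : s ≤ m) (hn : m' ≤ n) (I : Inv c S ξ w A Rg s m) :
    ∃ A' Rg', Inv c S ξ w A' Rg' s m' := by
  have lt := st.lt
  obtain wm := H.pos m (by omega) (by omega)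
  obtain wm' := H.pos m' (by omega) (by omega)
  have er := exp_pos r
  have L8 := N.L8
  have lam := N.lam
  have bl := N.bl
  have a0 := N.a0
  obtain Am : 0 < A m := (H.pos s hs (by omega)).trans_le (I.lo.trans (I.mono s m le_rfl hm le_rfl))
  set D := 3000000 * exp r * w m with hD
  obtain D0 : 0 < D := by positivity
  let A' : ℤ → ℝ := fun j => if j ≤ m then A j else A m + D
  have a1 : ∀ j, j ≤ m → A' j = A j := fun j hj => if_pos hj
  have a2 : ∀ j, m < j → A' j = A m + D := fun j hj => if_neg hj.not_ge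
  have nm : ∀ i, m ≤ i → i ∉ Rg := fun i hi h' => (mem_Ico.1 (I.sub h')).2.not_ge hi
  have ca := S.chi_add c hm lt.le
  have c0 := N.chi0 S lt.le
  obtain cb : 2 * S.chi c s m / c.bl ≤ 2 * S.chi c s m' / c.bl := by gcongr; linarith only [ca, c0]
  -- the general extension
  obtain ext : ∀ Rg' : Finset ℤ, (∀ i, i ≠ m → (i ∈ Rg' ↔ i ∈ Rg)) →
      (m ∈ Rg' → m' = m + 1 ∧ dP (S.X m) ≤ 2 * c.w0 ∧ A m + D ≤ c.lam * w m ∧
        c.L / 4 * w m ≤ w m') →
      (m ∉ Rg' → log ((A m + D) / A m) ≤ 6 * c.a * S.chi c m m' ∧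
        (c.bl ≤ S.chi c m m' ∨ c.lam / 2 * w m < A m)) → Inv c S ξ w A' Rg' s m' := by
    intro Rg' e h1 h2
    refine ⟨fun i j i1 ij j1 => ?_, by rw [a1 s hm]; exact I.lo, ?_, fun j j1 j2 => ?_,
      fun i hi => ?_, fun i hi => ?_, .inr ⟨?_, fun hh => ?_⟩, ?_⟩
    · rcases le_or_gt j m with hj | hj
      · rw [a1 j hj, a1 i (ij.trans hj)]; exact I.mono i j i1 ij hj
      · rcases le_or_gt i m with hi | hi
        · rw [a1 i hi, a2 j hj]; linarith only [D0, I.mono i m i1 hi le_rfl]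
        · rw [a2 i hi, a2 j hj]
    · have g := st.gain
      rw [exp_add, exp_add, ← N.L] at g
      obtain e7 : exp 7 ≤ 3 ^ 7 := by
        rw [show (7 : ℝ) = (7 : ℕ) * 1 by norm_num, exp_nat_mul]
        exact pow_le_pow_left₀ (exp_pos 1).le (by linarith only [exp_one_lt_d9]) 7
      obtain t : 0 ≤ exp r * c.L * w m := by positivity
      obtain t' : 0 ≤ c.L * A m := by positivity
      rw [a2 m' lt, hD]
      nlinarith only [Am, g, wm, er, L8, D0, e7, t]
    · rcases le_or_gt j m with hj | hj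
      · rw [a1 j hj]; exact I.dd j j1 hj
      · rw [a2 j hj]; exact dd_ext N ok H st hs hm hn (I.dd m hm le_rfl) hj j2
    · by_cases him : i = m
      · exact mem_Ico.2 ⟨by omega, by omega⟩
      · have := mem_Ico.1 (I.sub ((e i him).1 hi))
        exact mem_Ico.2 ⟨by omega, by omega⟩
    · by_cases him : i = m
      · subst him
        rw [a2 _ (lt_add_one i)]
        exact ⟨(h1 hi).2.1, by linarith only [wm, st.wm], (h1 hi).2.2.1⟩
      · have hi' := (e i him).1 hi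
        rw [a1 _ (by have := mem_Ico.1 (I.sub hi'); omega)]
        exact I.reg i hi'
    · obtain this : runs Rg' s m' = runs Rg s m + if m ∉ Rg' ∧ (m - 1 ∈ Rg' ∨ m = s) then 1 else 0 := by
        refine split3 _ _ hm lt (fun i i1 i2 => ?_) fun i i1 i2 => if_neg ?_
        · simp only [e i i2.ne, e (i - 1) (by omega)]
        · rintro ⟨-, q | q⟩
          · by_cases him : i - 1 = m
            · have := (h1 (him ▸ q)).1; omega
            · exact nm _ (by omega) ((e _ him).1 q)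
          · omega
      rw [this]
      split_ifs with q
      · rcases I.runs with p | ⟨p, p'⟩
        · linarith only [cb, p]
        · rcases (h2 q.1).2 with u | u
          · obtain this : 2 * S.chi c s m / c.bl + 1 ≤ 2 * S.chi c s m' / c.bl := by
              rw [div_add_one bl.ne']; gcongr; linarith only [bl, ca, u]
            linarith only [p, this]
          · exact absurd (p' (q.2.imp_left (e _ (by omega)).1)) u.not_ge
      · rcases I.runs with p | ⟨p, -⟩ <;> linarith only [cb, p]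
    · obtain q : m' - 1 ∈ Rg' := hh.resolve_right (by omega)
      obtain him : m' - 1 = m := by
        by_contra him
        exact nm _ (by omega) ((e _ him).1 q)
      obtain ⟨-, -, u, v⟩ := h1 (him ▸ q)
      rw [a2 m' lt]
      obtain this : 2 * w m ≤ w m' := by nlinarith only [v, wm, L8]
      nlinarith only [u, v, L8, Am, D0, lam]
    · obtain this : cost A' Rg' s m' = cost A Rg s m + if m ∉ Rg' then log (A' (m + 1) / A' m) else 0 := by
        refine split3 _ _ hm lt (fun i i1 i2 => ?_) fun i i1 i2 => ?_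
        · simp only [e i i2.ne, a1 i i2.le, a1 (i + 1) i2]
        · rw [a2 i i1, a2 (i + 1) (by omega), div_self (by positivity), log_one, ite_self]
      rw [this, a1 s hm, a1 m le_rfl, a2 _ (lt_add_one m), ca]
      have := I.cost
      split_ifs with q
      · nlinarith only [this, a0, c0]
      · linarith only [this, (h2 q).1]
  by_cases hb : c.bl ≤ S.chi c m m'
  · refine ⟨A', Rg, ext Rg (fun _ _ => Iff.rfl) (fun q => absurd q (nm m le_rfl))
      fun _ => ⟨?_, .inl hb⟩⟩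
    rw [log_le_iff_le_exp (by positivity), div_le_iff₀ Am]
    obtain x1 : r + 2 * c.lam + 1 ≤ 6 * c.a * S.chi c m m' := by
      have := mul_le_mul_of_nonneg_left hb a0.le
      have := N.ab
      rcases st.dch with u | u <;> (rename_i zq0; linarith only [lam, zq0, this, u])
    obtain x2 : exp r * (c.L * c.L) * 2 ≤ exp (6 * c.a * S.chi c m m') := by
      refine le_trans ?_ (exp_le_exp.2 x1)
      rw [exp_add, exp_add, two_mul, exp_add, ← N.L]
      gcongr
      linarith only [add_one_le_exp (1 : ℝ)]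
    obtain x3 : 10 ^ 10 ≤ c.L := by
      rw [N.L]; nlinarith only [lam, quadratic_le_exp_of_nonneg (x := c.lam) (by linarith only [lam])]
    obtain x4 : 1 / 9 ≤ exp r := by
      obtain this : exp (-r / 2) ≤ 3 := (exp_le_exp.2 (by linarith only [st.r_lo])).trans
        (by linarith only [exp_one_lt_d9] : exp 1 ≤ 3)
      obtain e : exp r * (exp (-r / 2) * exp (-r / 2)) = 1 := by
        rw [← exp_add, ← exp_add, ← exp_zero]; congr 1; ring
      have : exp (-r / 2) * exp (-r / 2) ≤ 3 * 3 := mul_self_le_mul_self (exp_pos _).le this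
      nlinarith only [e, er, this]
    obtain x5 : D ≤ exp r * (c.L * c.L) * A m := by
      have := I.lo'
      obtain this : 3000000 * w m ≤ c.L * c.L * A m := by
        nlinarith only [wm, x3, L8, this, mul_pos (by linarith only [x3] : 0 < c.L) Am]
      rw [hD]; nlinarith only [er, this]
    obtain x6 : 1 ≤ exp r * (c.L * c.L) := by nlinarith only [x3, x4, L8]
    nlinarith only [x5, Am, x2, x6]
  · obtain z : dP (S.X m) < 4 / 100 ∧ dP (S.X (m + 1)) < 4 / 100 := by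
      by_contra q
      obtain k : S.kk (m + 1) = 0 := S.kk_eq_zero.2 (by
        rw [add_sub_cancel_right]
        by_contra q'
        push Not at q'
        exact q ⟨q'.2, q'.1⟩)
      obtain this := S.chi_add c (by omega : m ≤ m + 1) (by omega : m + 1 ≤ m')
      rw [S.chi_succ, Sq.ch1, k] at this
      obtain this := N.chi0 S (by omega : m + 1 ≤ m')
      exact hb (by (rename_i zq0; linarith only [hb, zq0, this]))
    obtain ⟨z1, z2, z3⟩ := st.zone z.1
    obtain co := core N ok (by have := H.h0; omega : 0 ≤ m) (by linarith only [z.2]) (by linarith only [z.1])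
    obtain e2 : exp r ≤ 9 := by
      obtain this : exp r ≤ exp 1 * exp 1 := by rw [← exp_add]; exact exp_le_exp.2 (by linarith only [z2])
      nlinarith only [this, exp_one_lt_d9, exp_pos 1]
    obtain D1 : D ≤ 27000000 * w m := by rw [hD]; nlinarith only [wm, e2]
    by_cases q : A m + D ≤ c.lam * w m
    · exact ⟨A', insert m Rg, ext _ (fun i hi => by simp [hi]) (fun _ => ⟨z1, co, q, z3⟩)
        fun q => absurd (mem_insert_self _ _) q⟩
    · obtain q' : c.lam / 2 * w m < A m := by nlinarith only [wm, D1, q, lam]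
      refine ⟨A', Rg, ext Rg (fun _ _ => Iff.rfl) (fun q => absurd q (nm m le_rfl))
        fun _ => ⟨(log_le_sub_one_of_pos (by positivity)).trans ?_, .inr q'⟩⟩
      obtain x1 : 69 / 100 ≤ S.chi c m m' := by
        rw [z1, S.chi_succ]; exact N.k1.trans (S.ch1_mem c N.k2 _).1
      rw [sub_le_iff_le_add, div_le_iff₀ Am]
      obtain x2 : c.a * (c.lam / 2 * w m) ≤ c.a * A m := by gcongr
      obtain x3 : 10 ^ 9 * w m ≤ c.a * c.lam * w m := by gcongr; exact N.al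
      obtain x4 : c.a * A m * (69 / 100) ≤ c.a * A m * S.chi c m m' := by (clear * - x1 a0 Am; gcongr)
      linarith only [wm, D1, x2, x3, x4]

lemma chain_le (C : S.HChain c ξ w h m) : h ≤ m := by
  induction C with
  | nil => exact le_rfl
  | cons _ st ih => exact ih.trans st.lt.le

lemma inv_chain (N : Num c) (ok : S.OK c) (H : S.Hist c ξ w h n) (C : S.HChain c ξ w h m)
    (hn : m ≤ n) (hs : h ≤ s) (hm : s ≤ m) : ∃ A Rg, Inv c S ξ w A Rg s m := by
  induction C with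
  | nil =>
    obtain rfl := le_antisymm hs hm
    exact ⟨_, _, inv_self N (H.pos _ le_rfl hn)⟩
  | @cons m r m' C st ih =>
    rcases le_or_gt s m with q | q
    · obtain ⟨A, Rg, I⟩ := ih (st.lt.le.trans hn) q
      exact inv_step N ok H st hs q hn I
    · rcases hm.eq_or_lt with e | e
      · subst e
        exact ⟨_, _, inv_self N (H.pos _ hs hn)⟩
      · obtain ⟨A, Rg, I⟩ := st.suf s q e
        exact ⟨A, Rg, inv_suf N ok (H.h0.trans hs) (fun i a b => H.pos i (by omega) (by omega)) I⟩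

lemma chi_pred (N : Num c) (S : Sq) {i : ℤ} {y : ℝ} (h1 : i ≤ n) (h0 : 0 ≤ y)
    (h2 : S.chi c (i + 1) n ≤ y) : S.chi c i n ≤ y + c.bl := by
  rcases h1.eq_or_lt with e | e
  · rw [e, S.chi_self]; linarith only [h0, N.bl]
  · rw [S.chi_add c (by omega : i ≤ i + 1) e, S.chi_succ]
    linarith only [h2, (S.ch1_mem c N.k2 (i + 1)).2]

lemma pb_mono (N : Num c) (S : Sq) (i j : ℤ) : S.PB c (15 / 1000) i j ≤ S.PB c (18 / 1000) i j := by
  refine S.PB_mono c ?_ (by norm_num) i j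
  obtain this : exp (-c.bl) ≤ 1 := exp_le_one_iff.2 (by linarith only [N.bl])
  nlinarith only [this, N.k0, N.L8]

lemma pw (N : Num c) (H : S.Hist c ξ w h n) {i j : ℤ} (hi : h ≤ i) (ij : i < j) (hj : j ≤ n) :
    w i ≤ exp (3 * c.a * (S.chi c i n + 2 * c.bl)) * w j ∧
      S.PB c (15 / 1000) i j * w i ≤
        exp (3 * c.a * (S.chi c i n + 2 * c.bl) - (1 - 3 * c.a) * S.chi c i j) * w j ∧
      S.Bc c w i j ≤ exp (3 * c.a * (S.chi c i n + 2 * c.bl)) := by
  obtain ⟨p1, p2, p3⟩ := H.pw i j hi ij hj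
  obtain wi := H.pos i hi (by omega)
  obtain wj := H.pos j (by omega) hj
  have a0 := N.a0
  obtain k : 200 * exp (2 * c.a * S.chi c i n) ≤ exp (3 * c.a * (S.chi c i n + 2 * c.bl)) := by
    obtain this : 2 * c.a * S.chi c i n + 200 ≤ 3 * c.a * (S.chi c i n + 2 * c.bl) := by
      linarith only [ij, hj, N.ab, N.lam, mul_nonneg a0.le (N.chi0 S (by omega : i ≤ n))]
    refine le_trans ?_ (exp_le_exp.2 this)
    rw [exp_add, mul_comm]
    gcongr
    linarith only [add_one_le_exp (200 : ℝ)]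
  have := exp_pos (2 * c.a * S.chi c i n)
  refine ⟨p1.trans (by gcongr; linarith only [k, this]), ?_, p3.trans k⟩
  refine (mul_le_mul_of_nonneg_right (pb_mono N S i j) wi.le).trans (p2.trans ?_)
  rw [exp_sub, exp_sub, ← mul_div_assoc]
  gcongr
  linarith only [k, this]

lemma fin (N : Num c) (ok : S.OK c) (H : S.Hist c ξ w h n) {y : ℝ} (hy : 0 < y) (hs : h ≤ s)
    (sn : s ≤ n) (c1 : S.chi c (s + 1) n < y) (c2 : y ≤ S.chi c s n ∨ (s = 0 ∧ ξ (-1) = 0))
    {e : ℝ} (e0 : 0 < e) (e1 : |ξ (s - 1)| ≤ e)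
    (e2 : ∀ j, s ≤ j → j ≤ n → e ≤ exp (3 * c.a * (S.chi c (s - 1) n + 2 * c.bl)) * w j ∧
      S.PB c (15 / 1000) (s - 1) j * e ≤ exp (3 * c.a * (S.chi c (s - 1) n + 2 * c.bl) -
        (1 - 3 * c.a) * S.chi c (s - 1) j) * w j ∧
      |S.fr (s - 1 + 1) j| * c.L * e / w j ≤ exp (3 * c.a * (S.chi c (s - 1) n + 2 * c.bl))) :
    S.Tame c ξ n y := by
  obtain ⟨A, Rg, I⟩ := inv_chain N ok H H.chain le_rfl hs sn
  obtain wn := H.pos n (by omega) le_rfl
  have bl := N.bl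
  have a0 := N.a0
  have c3 := chi_pred N S sn hy.le c1.le
  let w' : ℤ → ℝ := fun j => if s ≤ j then w j else e
  have u : ∀ j, s ≤ j → w' j = w j := fun j hj => if_pos hj
  obtain u' : w' (s - 1) = e := if_neg (by omega)
  refine ⟨abs_pos.1 (H.wn ▸ wn), H.slope, .inr ⟨s, w', A, Rg, H.h0.trans hs, sn, c1, c2,
    ⟨u'.symm ▸ e0.le, fun j j1 j2 => ?_, fun j j1 j2 => ?_, fun j j1 j2 => ?_, fun j j1 j2 => ?_,
      I.mono, (H.pos s hs sn).trans_le I.lo, fun j j1 j2 => ?_⟩,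
    ⟨fun j j1 j2 => H.maj.1 j (by omega) j2, fun j j1 j2 => ?_⟩, u'.symm ▸ e0, ?_,
    fun i j i1 ij j1 => ?_, fun i i1 i2 => ?_, I.sub, fun i hi => ?_, ?_, ?_, (u s le_rfl).trans_le I.lo⟩⟩
  · rw [u j j1]; exact H.pos j (by omega) j2
  · rw [u j j1.le, u _ (by omega)]
    exact fun a b => H.backK j (by omega) j2 (by linarith only [a]) (by linarith only [b])
  · rw [u j j1.le, u _ (by omega)]; exact H.back j (by omega) j2
  · rw [u j j1, u _ (by omega)]; exact H.fwd j (by omega) j2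
  · rw [u j j1]
    refine le_trans (le_of_eq (sum_congr rfl fun i hi => ?_)) (I.dd j j1 j2)
    rw [u i (mem_Ico.1 hi).1]
  · rcases j1.eq_or_lt with q | q
    · rw [← q, u', one_mul]; exact e1
    · rw [u j (by omega)]; exact H.maj.2 j (by omega) j2
  · rw [u n sn, H.wn]; linarith only [abs_nonneg (ξ n)]
  · unfold Sq.Bc
    rw [u j (by omega)]
    rcases i1.eq_or_lt with q | q
    · rw [← q, u']; exact e2 j (by omega) j1
    · rw [u i (by omega)]; exact pw N H (by omega) ij j1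
  · unfold Sq.Bc
    rw [u i i1, u n sn]
    obtain ⟨p1, -, p3⟩ := H.pw i n (by omega) i2 le_rfl
    obtain wi := H.pos i (by omega) i2.le
    obtain k : exp (2 * c.a * S.chi c i n) ≤ exp (3 * c.a * S.chi c i n) :=
      exp_le_exp.2 (by nlinarith only [a0, N.chi0 S i2.le])
    refine ⟨(mul_le_mul_of_nonneg_right (pb_mono N S i n) wi.le).trans
      ((H.dec i (by omega) i2).trans (by gcongr; norm_num)), p1.trans (by gcongr; norm_num),
      p3.trans (by have := N.lam; gcongr; linarith only [this])⟩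
  · rw [u i (mem_Ico.1 (I.sub hi)).1]; exact I.reg i hi
  · obtain this : 2 * S.chi c s n / c.bl ≤ 2 * (y / c.bl) + 2 := by
      rw [div_le_iff₀ bl, add_mul, mul_assoc, div_mul_cancel₀ _ bl.ne']; linarith only [c3]
    have := div_pos hy bl
    obtain t : runs Rg s n ≤ 4 * (y / c.bl + 3) := by rcases I.runs with q | ⟨q, -⟩ <;> (rename_i zq0; linarith only [zq0, this, q])
    rw [← runs_eq] at t
    convert t
  · rw [u s le_rfl, cost_eq]
    linarith only [I.cost, N.ab, N.lam, mul_le_mul_of_nonneg_left c3 a0.le, mul_pos a0 hy]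

lemma small (T : Finset ℤ) (f g : ℤ → ℝ) (hg : ∀ j ∈ T, 0 < g j) :
    ∀ᶠ e in nhdsWithin (0 : ℝ) (Set.Ioi 0), ∀ j ∈ T, f j * e ≤ g j := by
  refine (Filter.eventually_all_finset T).2 fun j hj => Filter.Eventually.filter_mono
    nhdsWithin_le_nhds ?_
  obtain this : ContinuousAt (fun e : ℝ => f j * e) 0 := by fun_prop
  exact (this.eventually (gt_mem_nhds (by simpa using hg j hj))).mono fun _ => le_of_lt

end TG

open TG in
theorem tg : Hier TG_s := num.mono fun c N S ξ w h n y ok H hy => by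
  have hn := chain_le H.chain
  have bl := N.bl
  by_cases h1 : y ≤ c.bl / 4
  · exact ⟨abs_pos.1 (H.wn ▸ H.pos n hn le_rfl), H.slope, .inl h1⟩
  have y0 : 0 < y := by linarith only [bl, h1]
  by_cases h2 : y ≤ S.chi c (h + 1) n
  · obtain ⟨s, ⟨s1, s2⟩, s3⟩ := Int.exists_greatest_of_bdd
      (P := fun s => h + 1 ≤ s ∧ y ≤ S.chi c s n) ⟨n, fun s hs => by
        by_contra q
        have : S.chi c s n = 0 := by rw [Sq.chi, Ioc_eq_empty_of_le (by omega), sum_empty]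
        linarith only [y0, this, hs.2]⟩ ⟨h + 1, le_rfl, h2⟩
    have sn : s ≤ n := by
      by_contra q
      obtain this : S.chi c s n = 0 := by rw [Sq.chi, Ioc_eq_empty_of_le (by omega), sum_empty]
      linarith only [y0, s2, this]
    obtain c1 : S.chi c (s + 1) n < y := by
      by_contra q
      obtain this := s3 (s + 1) ⟨by omega, not_lt.1 q⟩
      omega
    exact fin N ok H y0 (by omega) sn c1 (.inl s2) (H.pos (s - 1) (by omega) (by omega))
      (by simpa using H.maj.2 (s - 1) (by omega) (by omega)) fun j j1 j2 =>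
      pw N H (by omega) (by omega) j2
  obtain ⟨rfl, z, -⟩ := (hy.resolve_left h1).resolve_left h2
  have wp : ∀ j ∈ Icc 0 n, 0 < w j := fun j hj => H.pos j (mem_Icc.1 hj).1 (mem_Icc.1 hj).2
  set y' := 3 * c.a * (S.chi c (0 - 1) n + 2 * c.bl) with hy'
  obtain ⟨e, ⟨⟨e1, e2⟩, e3⟩, e0⟩ := ((((small (Icc 0 n) (fun _ => 1)
    (fun j => exp y' * w j) fun j hj => by have := wp j hj; positivity).and
    (small (Icc 0 n) (fun j => S.PB c (15 / 1000) (0 - 1) j)
      (fun j => exp (y' - (1 - 3 * c.a) * S.chi c (0 - 1) j) * w j)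
      fun j hj => by have := wp j hj; positivity)).and
    (small (Icc 0 n) (fun j => |S.fr (0 - 1 + 1) j| * c.L / w j)
      (fun _ => exp y') fun j _ => exp_pos _)).and
    self_mem_nhdsWithin).exists
  refine fin N ok H y0 le_rfl hn (not_le.1 h2) (.inr ⟨rfl, z⟩) e0
    (by rw [zero_sub, z, abs_zero]; exact le_of_lt e0) fun j j1 j2 => ?_
  have hj := mem_Icc.2 ⟨j1, j2⟩
  exact ⟨(one_mul e).symm.trans_le (e1 j hj), e2 j hj, by rw [mul_div_right_comm]; exact e3 j hj⟩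

end Pool.Agent.MP_9cbfe4_an

end

/-! ### Part B2 -/

section

/-! Row B2: existence of the next step under hypothesis `H`. -/

namespace Pool.Agent.MP_9cbfe4_an
open Finset

namespace B2

structure Num (c : Cs) : Prop where
  k_lo : 1 / 16 ≤ c.k0
  k_hi : c.k0 < 1 / 2
  κ0 : 0 < c.κ
  C00 : 0 ≤ c.C0
  C10 : 0 ≤ c.C1
  ε0 : 0 ≤ c.ε
  ε1 : c.ε ≤ 1 / 10
  a0 : 0 ≤ c.a
  a1 : c.a ≤ 1 / 4
  M3 : 3 ≤ c.M1
  Mκ : 50 * c.κ * c.C0 ≤ c.M1
  β3 : 3 ≤ c.β
  βκ : 8 * c.C0 * (4 * c.κ + 2) ≤ c.β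
  lam1 : 404 ≤ c.lam
  lam2 : 40 * c.C1 * c.CN ≤ c.lam
  L1 : 1 ≤ c.L
  L4 : c.lam ^ 4 ≤ c.L

variable {c : Cs}

theorem Num.expL (h : Num c) : Real.exp c.lam = c.L := Real.exp_log (by linarith only [h.L1])

theorem Num.chK0 (h : Num c) : 0 < c.chK := by
  have := h.k_lo; have := h.k_hi
  exact Real.log_pos (by rw [lt_div_iff₀ (by (rename_i zq0; linarith only [zq0, this]))]; (rename_i zq0; linarith only [zq0, this]))

theorem Num.bl3 (h : Num c) : 3 * c.lam ≤ c.bl := by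
  have := h.β3; have := h.lam1
  unfold Cs.bl; (rename_i zq0; nlinarith only [zq0, this])

theorem Num.chKbl (h : Num c) : c.chK ≤ c.bl := by
  have h1 := h.k_lo; have := h.bl3; have := h.lam1
  obtain h2 : c.chK ≤ 1 / c.k0 - 1 := Real.log_le_sub_one_of_pos (by (clear * - h1; positivity))
  obtain h3 : 1 / c.k0 ≤ 16 := by rw [div_le_iff₀ (by linarith only [h1])]; linarith only [h1]
  (rename_i zq0; linarith only [zq0, this, h2, h3])

theorem Num.cw0 (h : Num c) : 0 < c.cw := by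
  have := h.lam1; unfold Cs.cw; positivity

theorem Num.cwb (h : Num c) : 404 * c.cw ≤ c.cb := by
  have h1 := h.lam1
  obtain h0 : 0 < c.lam := by linarith only [h1]
  unfold Cs.cw Cs.cb
  rw [mul_one_div, div_le_div_iff₀ (by positivity) (by positivity)]
  obtain this : 0 < c.lam ^ 3 := by positivity
  nlinarith only [h1, this]

theorem Num.cb1 (h : Num c) : c.cb ≤ 1 := by
  have h1 := h.lam1
  unfold Cs.cb
  rw [div_le_one (by positivity)]
  exact one_le_pow₀ (by linarith only [h1])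

theorem Num.cwL (h : Num c) : 1 ≤ c.cw * c.L := by
  have h1 := h.lam1
  unfold Cs.cw
  rw [one_div, inv_mul_eq_div, le_div_iff₀ (by positivity)]
  linarith only [h.L4]

theorem Num.xx_mono (h : Num c) (S : Sq) (n : ℤ) {V V' : ℝ} (hV : V ≤ V') :
    S.xx c n V ≤ S.xx c n V' := by
  have h1 := S.load_mono c h.chK0 h.chKbl h.C00 n hV
  have h2 := mul_le_mul_of_nonneg_left h1 h.C10
  have h3 := mul_le_mul_of_nonneg_left hV h.ε0
  unfold Sq.xx; linarith only [h2, h3]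

theorem Num.chi_nonneg (h : Num c) (S : Sq) {i j : ℤ} (hij : i ≤ j) : 0 ≤ S.chi c i j := by
  refine le_trans (mul_nonneg h.chK0.le ?_) (S.chi_ge c h.chKbl hij)
  exact_mod_cast sub_nonneg.2 hij

theorem Num.bl_le_chi (h : Num c) (S : Sq) {n m : ℤ} (hk : S.kk (n + 1) = 0) (hm : n + 1 ≤ m) :
    c.bl ≤ S.chi c n m := by
  rw [S.chi_add c (show n ≤ n + 1 by omega) hm, S.chi_succ]
  have := h.chi_nonneg S hm
  unfold Sq.ch1; rw [hk]; linarith only [this]

/-- a step from the free time `n` to `p` -/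
def StepEx (c : Cs) (Ex : ExT) (S : Sq) (ξ : ℤ → ℝ) (n p : ℤ) : Prop :=
  (p = n + 1 ∧ c.cb * c.L ≤ S.rho ξ n (n + 1) ^ 2) ∨
  ∃ Ls r, S.BRun c Ex ξ n Ls p r ∧
    c.cw * c.L ≤ S.rho ξ n p ^ 2 * Real.exp (S.Wt c (S.fr (n + 1)) (n + 1) p r)

theorem StepEx.run {Ex S ξ n p s P Ls} (h : StepEx c Ex S ξ n p) (hr : S.Run c Ex ξ s P Ls n)
    (hP : P Ls n (S.dep c ξ n p)) : S.Run c Ex ξ s P ((n, S.dep c ξ n p) :: Ls) p := by
  rcases h with ⟨rfl, h⟩ | ⟨Ls', r, h, h'⟩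
  · exact hr.shallow h hP
  · exact hr.block h.1 h.2 h' hP

theorem st_fr (S : Sq) {n : ℤ} (hn : 0 ≤ n) : S.St c (S.fr (n + 1)) (n + 1) :=
  ⟨by omega, S.fr_sol _, S.fr_self _, by
    rw [S.fr_lt (by omega), abs_zero]; exact (Real.exp_pos _).le⟩

/-- hypothesis `H` for one sequence -/
def HS (c : Cs) (Ex : ExT) (S : Sq) : Prop :=
  ∀ (ξ : ℤ → ℝ) (n p : ℤ) (Ls : List (ℤ × ℝ)) (r : ℝ), 0 ≤ n → S.Sol ξ n →
    (∀ y ≤ c.C0 * S.Wt c (S.fr (n + 1)) (n + 1) p r, S.Tame c ξ n y) →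
    S.Run c Ex (S.fr (n + 1)) (n + 1) (S.PBd c Ex ξ n) Ls p → S.Bd c ξ n p r →
    S.Wit c Ex (S.fr (n + 1)) p r → S.Cond c Ex ξ n Ls p r

/-- the claim `E` -/
def EE (c : Cs) (Ex : ExT) (S : Sq) (k : ℕ) : Prop :=
  ∀ ξ n V, S.Out c ξ n → (∀ y ≤ c.C0 * (V + 5), S.Tame c ξ n y) →
    (V ≤ 0 ∨ V + 4 * c.C1 * S.load c n (V + 5) ≤ k) →
    (∃ p, StepEx c Ex S ξ n p) ∨
      ∃ Ls J r, S.BRun c Ex ξ n Ls J r ∧ V ≤ S.Wt c (S.fr (n + 1)) (n + 1) J r

theorem WW_nonneg (S : Sq) (ξ : ℤ → ℝ) (s j : ℤ) : 0 ≤ S.WW c ξ s j :=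
  Real.log_nonneg (S.one_le_AA c ξ s j)

theorem Wt_low (S : Sq) (ξ : ℤ → ℝ) (s j : ℤ) :
    S.Wt c ξ s j (min 0 (S.sig c ξ s j)) = S.WW c ξ s j := by
  unfold Sq.Wt
  refine max_eq_left ?_
  have := min_le_right 0 (S.sig c ξ s j)
  unfold Sq.sig at this ⊢; linarith only [this]

/-- facts about a step of the partner run -/
theorem step_facts (h : Num c) (h1 : B1_s c) (hS : STEP_s c) {Ex} {S : Sq} {n m p Ls P} (ok : S.OK c)
    (hn : 0 ≤ n) (hr : S.Run c Ex (S.fr (n + 1)) (n + 1) P Ls m)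
    (ho : S.Out c (S.fr (n + 1)) m) (hx : StepEx c Ex S (S.fr (n + 1)) m p) :
    S.Step c Ex (S.fr (n + 1)) (n + 1) m (S.dep c (S.fr (n + 1)) m p) p ∧
    (p = m + 1 ∨ ∃ Ls', S.RInv c (S.fr (m + 1)) (m + 1) p ∧ S.BInv c m Ls' p ∧
      S.Wp c m p ≤ 2 * S.dep c (S.fr (n + 1)) m p) := by
  have st := st_fr (c := c) S hn
  have ri := ((h1 Ex S ok).1 _ _ _ _ _ st hr).2
  rcases hx with ⟨rfl, hx⟩ | ⟨Ls', r, hb, hx⟩
  · exact ⟨(hS Ex S _ _ _ ok st ri).1 hx, .inl rfl⟩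
  · have ri' := ((h1 Ex S ok).1 _ _ _ _ _ (st_fr (c := c) S ho.1) hb.1).2
    have bi := (h1 Ex S ok).2.1 _ _ _ _ _ ho hb.1 hb.2.1
    refine ⟨(hS Ex S _ _ _ ok st ri).2 _ _ _ hb ri' bi hx, .inr ⟨Ls', ri', bi, ?_⟩⟩
    obtain hL : 0 < c.L := by linarith only [h.L1]
    set ρ := S.rho (S.fr (n + 1)) m p
    obtain hρ : ρ ≠ 0 := by
      rintro h0
      rw [h0] at hx
      have := mul_pos h.cw0 hL
      simp at hx; linarith only [this, hx]
    have hb2 : ρ ^ 2 * Real.exp (S.Wt c (S.fr (m + 1)) (m + 1) p r) ≤ c.cb * c.L := hb.2.1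
    have e1 : Real.exp (S.Wp c m p) ≤ Real.exp (S.Wt c (S.fr (m + 1)) (m + 1) p r) :=
      Real.exp_le_exp.2 (le_max_left _ _)
    obtain hρ2 : 0 < ρ ^ 2 := by (clear * - hρ; positivity)
    obtain e2 : ρ ^ 2 * Real.exp (S.Wp c m p) ≤ c.L ^ 2 := by
      have := mul_le_mul_of_nonneg_left e1 hρ2.le
      have := mul_le_mul_of_nonneg_right h.cb1 hL.le
      (rename_i zq0; nlinarith only [hL, hb2, zq0, this, h.L1])
    obtain e3 : Real.exp (2 * S.dep c (S.fr (n + 1)) m p) = c.L ^ 2 / ρ ^ 2 := by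
      have : 0 < c.L / |ρ| := div_pos hL (abs_pos.2 hρ)
      rw [two_mul, Real.exp_add]
      show Real.exp (Real.log (c.L / |ρ|)) * Real.exp (Real.log (c.L / |ρ|)) = _
      rw [Real.exp_log this, ← sq, div_pow, sq_abs]
    rw [← Real.exp_le_exp, e3, le_div_iff₀ hρ2]
    linarith only [e2]

/-- the second alternative at the level `2 R - lam` witnesses the depth `R` -/
theorem wit_of (h : Num c) (h1 : B1_s c) {Ex} {S : Sq} {ξ m Ls J r R} (ok : S.OK c) (ho : S.Out c ξ m)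
    (hb : S.BRun c Ex ξ m Ls J r) (hV : 2 * R - c.lam ≤ S.Wt c (S.fr (m + 1)) (m + 1) J r) :
    S.Wit c Ex ξ m R := by
  obtain hL : 0 < c.L := by linarith only [h.L1]
  refine .inr (.inr ⟨Ls, J, r, hb, ?_, ?_⟩)
  · have hb2 : S.rho ξ m J ^ 2 * Real.exp (S.Wt c (S.fr (m + 1)) (m + 1) J r) ≤ c.cb * c.L := hb.2.1
    refine abs_le_of_sq_le_sq' ?_ (by positivity) |> abs_le.2
    have e1 := mul_le_mul_of_nonneg_left (Real.exp_le_exp.2 hV) (sq_nonneg (S.rho ξ m J))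
    have e2 := mul_le_mul_of_nonneg_right h.cb1 hL.le
    obtain e3 : Real.exp (2 * R - c.lam) * (Real.exp (-R) ^ 2 * c.L) = 1 := by
      rw [← h.expL, sq, ← Real.exp_add, ← Real.exp_add, ← Real.exp_add, ← Real.exp_zero]
      congr 1; ring
    obtain e4 : 0 ≤ Real.exp (-R) ^ 2 * c.L := by positivity
    have e5 := mul_le_mul_of_nonneg_right (e1.trans (hb2.trans e2)) e4
    rw [mul_assoc, e3] at e5
    linarith only [e5]
  · have bi := (h1 Ex S ok).2.1 _ _ _ _ _ ho hb.1 hb.2.1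
    have e1 := h.bl_le_chi S bi.kz.1 (Sq.Run.le c S hb.1)
    have e2 := hb.2.2.c2
    have e3 := h.bl3; have e4 := h.M3; have e5 := h.lam1
    by_cases hR : R ≤ c.lam
    · linarith only [e1, e3, hR]
    · push Not at hR
      obtain this : 3 * (2 * R - c.lam) ≤ c.M1 * S.Wt c (S.fr (m + 1)) (m + 1) J r :=
        mul_le_mul e4 hV (by linarith only [e5, hR]) (by linarith only [e4])
      linarith only [e2, hR, this]

/-- the window needed at an inner free time lies inside the partner run -/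
theorem window (h : Num c) {S : Sq} {n m : ℤ} {y : ℝ} (ok : S.OK c) (hn : 0 ≤ n) (hm : n + 1 ≤ m)
    (hc : c.M1 * S.Wp c n m ≤ S.chi c n m)
    (hy : y ≤ c.C0 * (2 * (c.κ * S.Wt c (S.fr (n + 1)) (n + 1) m 0 + c.c1 + 1) - c.lam + 5)) :
    y ≤ c.bl / 4 ∨ y ≤ S.chi c (n + 1 + 1) m := by
  have l1 := h.lam1
  obtain hL : 0 < c.L := by linarith only [h.L1]
  have W0 : 0 ≤ S.Wp c n m := WW_nonneg S _ _ _
  obtain hw : S.Wt c (S.fr (n + 1)) (n + 1) m 0 ≤ S.Wp c n m + c.lam + 4 := by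
    refine max_le (by unfold Sq.Wp; linarith only [l1]) ?_
    rw [add_zero]
    rcases eq_or_lt_of_le hm with rfl | hm'
    · rw [S.fr_self]; simp; linarith only [l1, W0]
    · obtain cw := (Sq.cert_wh ok h.k_lo h.k_hi (by linarith only [l1]) h.chKbl (st_fr (c := c) S hn) hm).2.2
        (m - 1) (by omega)
      rw [sub_add_cancel] at cw
      obtain e1 := S.abs_le_wh c (S.fr (n + 1)) (s := n + 1) (j := m) (by omega)
      have A1 := S.one_le_AA c (S.fr (n + 1)) (n + 1) m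
      obtain e2 : |S.fr (n + 1) m| ≤ S.AA c (S.fr (n + 1)) (n + 1) m * c.L * 36 := by
        obtain this := mul_le_mul_of_nonneg_left cw.2 (show 0 ≤ 6 * c.L by (clear * - hL; positivity))
        linarith only [e1, this, cw.1]
      rcases eq_or_lt_of_le (abs_nonneg (S.fr (n + 1) m)) with h0 | h0
      · rw [← h0]; simp; linarith only [l1, W0]
      · rw [Real.log_le_iff_le_exp h0, Real.exp_add, Real.exp_add, h.expL]
        obtain e3 : Real.exp (S.Wp c n m) = S.AA c (S.fr (n + 1)) (n + 1) m :=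
          Real.exp_log (by linarith only [A1])
        obtain e4 : (36 : ℝ) ≤ Real.exp 4 := by
          have := Real.add_one_le_exp (1 : ℝ)
          obtain e : Real.exp 4 = Real.exp 1 ^ 4 := by rw [← Real.exp_nat_mul]; norm_num
          obtain h27 : (2.7 : ℝ) ≤ Real.exp 1 := by linarith only [Real.exp_one_gt_d9]
          rw [e]
          calc (36 : ℝ) ≤ 2.7 ^ 4 := by norm_num
            _ ≤ _ := pow_le_pow_left₀ (by norm_num) h27 4
        rw [e3]
        exact e2.trans (mul_le_mul_of_nonneg_left e4 (by (clear * - A1 hL; positivity)))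
  have k0 := h.κ0; have C0 := h.C00
  obtain hy2 : y ≤ 2 * c.κ * c.C0 * S.Wp c n m + c.bl / 8 := by
    have e1 := mul_le_mul_of_nonneg_left hw k0.le
    obtain e2 : 2 * c.c1 ≤ c.lam / 10 := by
      obtain this := mul_le_mul_of_nonneg_right h.ε1 (show 0 ≤ c.lam by linarith only [l1])
      unfold Cs.c1; linarith only [this]
    obtain e3 : c.κ * 4 ≤ c.κ * c.lam := mul_le_mul_of_nonneg_left (by linarith only [l1]) k0.le
    obtain e4 : 2 * (c.κ * S.Wt c (S.fr (n + 1)) (n + 1) m 0 + c.c1 + 1) - c.lam + 5 ≤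
        2 * c.κ * S.Wp c n m + (4 * c.κ + 2) * c.lam := by linarith only [l1, e1, e2, e3]
    have e5 := mul_le_mul_of_nonneg_left e4 C0
    obtain e6 := mul_le_mul_of_nonneg_right h.βκ (show 0 ≤ c.lam by linarith only [l1])
    unfold Cs.bl; linarith only [hy, e5, e6]
  obtain b0 : 0 < c.bl := by linarith only [l1, h.bl3]
  by_cases hc1 : 2 * c.κ * c.C0 * S.Wp c n m ≤ c.bl / 8
  · left; linarith only [hy2, hc1]
  · right
    push Not at hc1
    obtain hm2 : n + 1 + 1 ≤ m := by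
      by_contra hh
      obtain this : m = n + 1 := by omega
      subst this
      obtain this : S.Wp c n (n + 1) = 0 := by unfold Sq.Wp Sq.WW; rw [S.AA_self, Real.log_one]
      rw [this] at hc1; linarith only [b0, hc1]
    rw [S.chi_add c (show n ≤ n + 1 by omega) hm, S.chi_add c (show n + 1 ≤ n + 1 + 1 by omega) hm2,
      S.chi_succ, S.chi_succ] at hc
    have e1 := (S.ch1_mem c h.chKbl (n + 1)).2
    have e2 := (S.ch1_mem c h.chKbl (n + 1 + 1)).2
    have e3 := mul_le_mul_of_nonneg_right h.Mκ W0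
    linarith only [hc, hy2, b0, hc1, e1, e2, e3]

/-- `Bd` at the next free time -/
theorem bd_next (h : Num c) (hR : RHO_s c) {Ex} {S : Sq} {ξ n Ls m r p} (ok : S.OK c)
    (ho : S.Out c ξ n) (hm : n + 1 ≤ m) (rm : S.RInv c (S.fr (n + 1)) (n + 1) m)
    (st : S.Step c Ex (S.fr (n + 1)) (n + 1) m r p) (rp : S.RInv c (S.fr (n + 1)) (n + 1) p)
    (bp : S.BInv c n Ls p)
    (hc : c.M1 * S.Wt c (S.fr (n + 1)) (n + 1) m r ≤ S.chi c n m)
    (hb : S.rho ξ n m ^ 2 * Real.exp (S.Wt c (S.fr (n + 1)) (n + 1) m r) ≤ c.cw * c.L) :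
    S.rho ξ n p ^ 2 * Real.exp (S.Wp c n p) ≤ c.cb * c.L ∧
      S.Wp c n p ≤ S.Wt c (S.fr (n + 1)) (n + 1) m r + 5 := by
  obtain hL : 0 < c.L := by linarith only [h.L1]
  set T := S.Wt c (S.fr (n + 1)) (n + 1) m r with hT
  have W0 : 0 ≤ T := (WW_nonneg S _ _ _).trans (le_max_left _ _)
  have A1 := S.one_le_AA c (S.fr (n + 1)) (n + 1) m
  have A2 := S.one_le_AA c (S.fr (n + 1)) (n + 1) p
  obtain e1 : S.AA c (S.fr (n + 1)) (n + 1) m ≤ Real.exp T :=
    (Real.log_le_iff_le_exp (by linarith only [A1])).1 (le_max_left _ _)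
  obtain e2 : |S.fr (n + 1) m| * Real.exp r ≤ Real.exp T := by
    rw [← Real.exp_log (abs_pos.2 rm.ne), ← Real.exp_add]
    exact Real.exp_le_exp.2 (le_max_right _ _)
  obtain e3 : Real.exp (S.Wp c n p) ≤ 101 * Real.exp T := by
    obtain this : Real.exp (S.Wp c n p) = S.AA c (S.fr (n + 1)) (n + 1) p := Real.exp_log (by linarith only [A2])
    rw [this]; linarith only [e1, e2, st.A_hi]
  refine ⟨?_, ?_⟩
  · obtain d := (hR S ξ n Ls p ok ho rp bp).2 m (by omega) st.lt.le rm.whm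
    obtain c0 := h.chi_nonneg S (show n ≤ m by omega)
    obtain d2 : (S.rho ξ n m - S.rho ξ n p) ^ 2 * Real.exp T ≤ 1 := by
      obtain this : (S.rho ξ n m - S.rho ξ n p) ^ 2 ≤ Real.exp (-(1 - 2 * c.a) * S.chi c n m) ^ 2 := by
        rw [← sq_abs]; exact pow_le_pow_left₀ (abs_nonneg _) d 2
      refine (mul_le_mul_of_nonneg_right this (Real.exp_pos _).le).trans ?_
      rw [sq, ← Real.exp_add, ← Real.exp_add, Real.exp_le_one_iff]
      have := mul_le_mul_of_nonneg_right h.M3 W0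
      have := mul_le_mul_of_nonneg_right h.a1 c0
      (rename_i zq0; linarith only [hc, c0, zq0, this])
    obtain d3 : S.rho ξ n p ^ 2 ≤ 2 * S.rho ξ n m ^ 2 + 2 * (S.rho ξ n m - S.rho ξ n p) ^ 2 := by
      linarith only [sq_nonneg (2 * S.rho ξ n m - S.rho ξ n p)]
    have d4 := mul_le_mul_of_nonneg_right d3 (Real.exp_pos T).le
    have d5 := mul_le_mul_of_nonneg_left e3 (sq_nonneg (S.rho ξ n p))
    have d6 := mul_le_mul_of_nonneg_right h.cwb hL.le
    have := h.cwL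
    linarith only [hb, d2, d4, d5, d6, this]
  · rw [← Real.exp_le_exp, Real.exp_add]
    obtain this : (101 : ℝ) ≤ Real.exp 5 := by
      obtain e : Real.exp 5 = Real.exp 1 ^ 5 := by rw [← Real.exp_nat_mul]; norm_num
      obtain h27 : (2.7 : ℝ) ≤ Real.exp 1 := by linarith only [Real.exp_one_gt_d9]
      rw [e]
      calc (101 : ℝ) ≤ 2.7 ^ 5 := by norm_num
        _ ≤ _ := pow_le_pow_left₀ (by norm_num) h27 5
    nlinarith only [e3, this, A1, e1, Real.exp_pos T]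

/-- the measure decreases when passing to the partner run -/
theorem meas (h : Num c) {S : Sq} {n m : ℤ} {Ls V R} {k : ℕ} (hm : n + 1 ≤ m) (bi : S.BInv c n Ls m)
    (hW : S.Wp c n m ≤ V) (hR : R ≤ 11 / 10 * S.xx c n (V + 5) + c.cc + 1)
    (hw : c.C0 * (2 * R - c.lam + 5) ≤ c.bl / 4 ∨ c.C0 * (2 * R - c.lam + 5) ≤ S.chi c (n + 1 + 1) m)
    (hk : V + 4 * c.C1 * S.load c n (V + 5) ≤ (k + 1 : ℕ)) :
    2 * R - c.lam + 4 * c.C1 * S.load c m (2 * R - c.lam + 5) ≤ k := by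
  have l1 := h.lam1
  have b3 := h.bl3
  have W0 : 0 ≤ S.Wp c n m := WW_nonneg S _ _ _
  obtain hc : c.C0 * (2 * R - c.lam + 5) ≤ S.chi c n m := by
    have e1 := h.bl_le_chi S bi.kz.1 hm
    rcases hw with hw | hw
    · linarith only [l1, b3, e1, hw]
    · rcases eq_or_lt_of_le hm with rfl | hm'
      · obtain this : S.chi c (n + 1 + 1) (n + 1) = 0 := by
          unfold Sq.chi; rw [Finset.Ioc_eq_empty (by omega), Finset.sum_empty]
        linarith only [l1, b3, e1, hw, this]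
      · rw [S.chi_add c (show n ≤ n + 1 + 1 by omega) (show n + 1 + 1 ≤ m by omega)]
        linarith only [hw, h.chi_nonneg S (show n ≤ n + 1 + 1 by omega)]
  obtain hQ : 0 ≤ c.Q := mul_nonneg h.a0 (by linarith only [l1, b3])
  obtain e1 := (S.load_le_qu c h.chK0 h.chKbl (show n ≤ m by omega) hc).trans (S.qu_le_NK hQ n m)
  have e2 := bi.nk
  obtain e3 : S.xp c n m ≤ S.xx c n (V + 5) := h.xx_mono S n (by linarith only [hW])
  obtain CN0 : 0 ≤ c.CN := by unfold Cs.CN; (clear * -; positivity)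
  have l0 := S.load_nonneg c n (V + 5)
  obtain cc0 : 0 ≤ c.cc := by unfold Cs.cc; have := h.ε0; (clear * - this l1; positivity)
  obtain cc1 : c.cc ≤ c.lam / 200 := by
    obtain this := mul_le_mul_of_nonneg_right h.ε1 (show 0 ≤ c.lam by linarith only [l1])
    unfold Cs.cc; linarith only [this]
  have C1 := h.C10
  have cl := mul_nonneg C1 l0
  obtain eV : c.ε * (V + 5) ≤ 1 / 10 * (V + 5) := mul_le_mul_of_nonneg_right h.ε1 (by linarith only [hW, W0])
  obtain eV0 : 0 ≤ c.ε * (V + 5) := mul_nonneg h.ε0 (by linarith only [hW, W0])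
  obtain x0 : 0 ≤ S.xx c n (V + 5) := by unfold Sq.xx; linarith only [cc0, cl, eV0]
  obtain e4 : 4 * c.C1 * S.load c m (2 * R - c.lam + 5) ≤ S.xx c n (V + 5) / 10 := by
    refine le_of_mul_le_mul_left ?_ (show 0 < c.lam by linarith only [l1])
    obtain f1 := mul_le_mul_of_nonneg_left e1 (show 0 ≤ c.lam by linarith only [l1])
    have f2 := mul_le_mul_of_nonneg_left e3 CN0
    obtain f3 := mul_le_mul_of_nonneg_left (f1.trans (e2.trans f2)) (show 0 ≤ 4 * c.C1 by linarith only [C1])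
    have f4 := mul_le_mul_of_nonneg_right h.lam2 x0
    linarith only [f3, f4]
  push_cast at hk
  have : S.xx c n (V + 5) = c.C1 * S.load c n (V + 5) + c.ε * (V + 5) + c.cc := rfl
  linarith only [hW, hR, l1, W0, cc1, eV, e4, hk, this]

/-- release of the partner run at the free time `m` -/
theorem release (h : Num c) {Ex} {S : Sq} (H : HS c Ex S) {ξ n Ls m r V} (ho : S.Out c ξ n)
    (ht : ∀ y ≤ c.C0 * (V + 5), S.Tame c ξ n y)
    (hr : S.Run c Ex (S.fr (n + 1)) (n + 1) (S.PBd c Ex ξ n) Ls m)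
    (b0 : S.PBd c Ex ξ n Ls m (min 0 (S.sig c (S.fr (n + 1)) (n + 1) m)))
    (hw : S.Wit c Ex (S.fr (n + 1)) m r) (hV : S.Wt c (S.fr (n + 1)) (n + 1) m r ≤ V)
    (hb : c.cw * c.L < S.rho ξ n m ^ 2 * Real.exp (S.Wt c (S.fr (n + 1)) (n + 1) m r)) :
    StepEx c Ex S ξ n m := by
  obtain hL : 0 < c.L := by linarith only [h.L1]
  have cL := mul_pos h.cw0 hL
  by_cases h1 : c.cw * c.L ≤ S.rho ξ n m ^ 2 * Real.exp (S.WW c (S.fr (n + 1)) (n + 1) m)
  · exact .inr ⟨Ls, _, ⟨hr, b0⟩, by rwa [Wt_low]⟩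
  push Not at h1
  obtain hρ : 0 < S.rho ξ n m ^ 2 := by
    rcases eq_or_lt_of_le (sq_nonneg (S.rho ξ n m)) with h0 | h0
    · rw [← h0] at hb; linarith only [hb, cL]
    · exact h0
  set T := Real.log (c.cw * c.L / S.rho ξ n m ^ 2) with hT
  obtain eT : S.rho ξ n m ^ 2 * Real.exp T = c.cw * c.L := by
    rw [hT, Real.exp_log (div_pos cL hρ), mul_div_cancel₀ _ hρ.ne']
  obtain e1 : S.WW c (S.fr (n + 1)) (n + 1) m < T := by
    rw [← eT] at h1; exact Real.exp_lt_exp.1 (lt_of_mul_lt_mul_left h1 hρ.le)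
  obtain e2 : T < S.Wt c (S.fr (n + 1)) (n + 1) m r := by
    rw [← eT] at hb; exact Real.exp_lt_exp.1 (lt_of_mul_lt_mul_left hb hρ.le)
  obtain e3 : T - Real.log |S.fr (n + 1) m| ≤ r := by
    rcases lt_max_iff.1 e2 with e | e <;> linarith only [e1, e]
  obtain e4 : S.Wt c (S.fr (n + 1)) (n + 1) m (T - Real.log |S.fr (n + 1) m|) = T := by
    unfold Sq.Wt; rw [add_sub_cancel]; exact max_eq_right e1.le
  obtain bd : S.Bd c ξ n m (T - Real.log |S.fr (n + 1) m|) := by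
    unfold Sq.Bd; rw [e4, eT]
    have := h.cwb; have := h.cw0
    exact mul_le_mul_of_nonneg_right (by (rename_i zq0; linarith only [zq0, this])) hL.le
  refine .inr ⟨Ls, _, ⟨hr, bd, H ξ n m Ls _ ho.1 ho.2.1 (fun y hy => ht y (hy.trans ?_)) hr bd
    (Sq.Wit.anti c S hL.le hw e3)⟩, by rw [e4, eT]⟩
  rw [e4]; exact mul_le_mul_of_nonneg_left (by linarith only [hV, e2]) h.C00

theorem ee_succ (h : Num c) (h1 : B1_s c) (h3 : B3_s c) (hS : STEP_s c) (hB : BINV_s c)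
    (hR : RHO_s c) {Ex} {S : Sq} (ok : S.OK c) (H : HS c Ex S) {k : ℕ}
    (ih : ∀ j < k, EE c Ex S j) : EE c Ex S k := by
  intro ξ n V ho ht hk
  obtain hL : 0 < c.L := by linarith only [h.L1]
  have l1 := h.lam1
  have b3 := h.bl3
  have st := st_fr (c := c) S ho.1
  by_cases hsh : c.cb * c.L ≤ S.rho ξ n (n + 1) ^ 2
  · exact .inl ⟨_, .inl ⟨rfl, hsh⟩⟩
  obtain W1 : S.Wp c n (n + 1) = 0 := by unfold Sq.Wp Sq.WW; rw [S.AA_self, Real.log_one]
  obtain bd1 : S.rho ξ n (n + 1) ^ 2 * Real.exp (S.Wp c n (n + 1)) ≤ c.cb * c.L := by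
    rw [W1, Real.exp_zero, mul_one]; exact (not_le.1 hsh).le
  obtain low : ∀ Ls m, S.Run c Ex (S.fr (n + 1)) (n + 1) (S.PBd c Ex ξ n) Ls m →
      S.rho ξ n m ^ 2 * Real.exp (S.Wp c n m) ≤ c.cb * c.L →
      (∀ y ≤ c.C0 * S.Wp c n m, S.Tame c ξ n y) →
      S.PBd c Ex ξ n Ls m (min 0 (S.sig c (S.fr (n + 1)) (n + 1) m)) := fun Ls m hr hb ht' => by
    obtain bd : S.Bd c ξ n m (min 0 (S.sig c (S.fr (n + 1)) (n + 1) m)) := by
      unfold Sq.Bd; rw [Wt_low]; exact hb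
    exact ⟨bd, H ξ n m Ls _ ho.1 ho.2.1 (by rw [Wt_low]; exact ht') hr bd (.inl (min_le_left _ _))⟩
  rcases le_or_gt V 0 with hV | hV
  · refine .inr ⟨[], n + 1, _, ⟨.start _ _ _, low _ _ (.start _ _ _) bd1 fun y hy => ?_⟩, ?_⟩
    · rw [W1, mul_zero] at hy
      exact ⟨ho.2.2.1, ho.2.2.2, .inl (by linarith only [l1, b3, hy])⟩
    · rw [Wt_low]; exact hV.trans (WW_nonneg S _ _ _)
  replace hk := hk.resolve_left (not_le.2 hV)
  obtain ⟨k, rfl⟩ : ∃ j, k = j + 1 := by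
    rcases k with _ | k
    · have := mul_nonneg h.C10 (S.load_nonneg c n (V + 5))
      simp only [Nat.cast_zero] at hk; linarith only [hV, this, hk]
    · exact ⟨k, rfl⟩
  suffices key : ∀ (j : ℕ) Ls m, S.Run c Ex (S.fr (n + 1)) (n + 1) (S.PBd c Ex ξ n) Ls m →
      S.rho ξ n m ^ 2 * Real.exp (S.Wp c n m) ≤ c.cb * c.L → S.Wp c n m ≤ V + 5 →
      10 * (V + 5 + c.lam) / c.lam < Ls.length + j →
      (∃ p, StepEx c Ex S ξ n p) ∨
        ∃ Ls J r, S.BRun c Ex ξ n Ls J r ∧ V ≤ S.Wt c (S.fr (n + 1)) (n + 1) J r by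
    obtain ⟨j, hj⟩ := exists_nat_gt (10 * (V + 5 + c.lam) / c.lam)
    exact key j [] (n + 1) (.start _ _ _) bd1 (by rw [W1]; linarith only [hV]) (by simpa using hj)
  intro j
  induction j with
  | zero =>
    intro Ls m hr hb hW hj
    have b0 := low Ls m hr hb fun y hy => ht y (hy.trans (mul_le_mul_of_nonneg_left hW h.C00))
    have := ((h1 Ex S ok).2.1 _ _ _ _ _ ho hr b0.1).len
    obtain e : 10 * (S.Wp c n m + c.lam) / c.lam ≤ 10 * (V + 5 + c.lam) / c.lam :=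
      div_le_div_of_nonneg_right (by linarith only [hW]) (by linarith only [l1])
    simp only [Nat.cast_zero] at hj; linarith only [this, e, hj]
  | succ j ihj =>
    intro Ls m hr hb hW hj
    have b0 := low Ls m hr hb fun y hy => ht y (hy.trans (mul_le_mul_of_nonneg_left hW h.C00))
    rcases le_or_gt V (S.Wp c n m) with hV' | hV'
    · exact .inr ⟨Ls, m, _, ⟨hr, b0⟩, by rw [Wt_low]; exact hV'⟩
    have hm : n + 1 ≤ m := Sq.Run.le c S hr
    obtain ⟨ch, rm⟩ := (h1 Ex S ok).1 _ _ _ _ _ st hr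
    have bi := (h1 Ex S ok).2.1 _ _ _ _ _ ho hr b0.1
    obtain t0 := h3 Ex S _ _ _ _ _ 0 ok st hr (.inl (by linarith only [l1, b3]))
    obtain ho' : S.Out c (S.fr (n + 1)) m :=
      ⟨by linarith only [hm, ho.1], fun j hj => S.fr_sol _ j (hm.trans hj), t0.1, t0.2.1⟩
    obtain c2 : c.M1 * S.Wp c n m ≤ S.chi c n m := by
      have := b0.2.c2; rwa [Wt_low] at this
    set R := min (c.κ * S.Wt c (S.fr (n + 1)) (n + 1) m 0 + c.c1)
      (11 / 10 * S.xx c n (V + 5) + c.cc) + 1 with hRd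
    obtain R1 : R ≤ c.κ * S.Wt c (S.fr (n + 1)) (n + 1) m 0 + c.c1 + 1 := by
      rw [hRd]; linarith only [min_le_left (c.κ * S.Wt c (S.fr (n + 1)) (n + 1) m 0 + c.c1)
        (11 / 10 * S.xx c n (V + 5) + c.cc)]
    obtain R2 : R ≤ 11 / 10 * S.xx c n (V + 5) + c.cc + 1 := by
      rw [hRd]; linarith only [min_le_right (c.κ * S.Wt c (S.fr (n + 1)) (n + 1) m 0 + c.c1)
        (11 / 10 * S.xx c n (V + 5) + c.cc)]
    obtain win : ∀ y ≤ c.C0 * (2 * R - c.lam + 5), y ≤ c.bl / 4 ∨ y ≤ S.chi c (n + 1 + 1) m :=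
      fun y hy => window h ok ho.1 hm c2
        (hy.trans (mul_le_mul_of_nonneg_left (by linarith only [R1]) h.C00))
    have inner := ih k (Nat.lt_succ_self k) _ m (2 * R - c.lam) ho'
      (fun y hy => h3 Ex S _ _ _ _ _ y ok st hr ((win y hy).imp_right .inl))
      (.inr (meas h hm bi hV'.le R2 (win _ le_rfl) hk))
    -- a witnessed depth `r1`
    obtain ⟨r1, w1, hr1⟩ : ∃ r1, S.Wit c Ex (S.fr (n + 1)) m r1 ∧ (r1 = R ∨ ∃ p,
        StepEx c Ex S (S.fr (n + 1)) m p ∧ r1 = S.dep c (S.fr (n + 1)) m p) := by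
      rcases inner with ⟨p, hp⟩ | ⟨Ls', J, r, hb', hv⟩
      · exact ⟨_, (step_facts h h1 hS ok ho.1 hr ho' hp).1.wit, .inr ⟨p, hp, rfl⟩⟩
      · exact ⟨R, wit_of h h1 ok ho' hb' hv, .inl rfl⟩
    set r' := min (min r1 R) (V - Real.log |S.fr (n + 1) m|) with hr'
    have w' : S.Wit c Ex (S.fr (n + 1)) m r' :=
      Sq.Wit.anti c S hL.le w1 ((min_le_left _ _).trans (min_le_left _ _))
    obtain V' : S.Wt c (S.fr (n + 1)) (n + 1) m r' ≤ V :=
      max_le hV'.le (by linarith only [min_le_right (min r1 R) (V - Real.log |S.fr (n + 1) m|)])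
    rcases lt_or_ge (c.cw * c.L)
      (S.rho ξ n m ^ 2 * Real.exp (S.Wt c (S.fr (n + 1)) (n + 1) m r')) with hx | hx
    · exact .inl ⟨m, release h H ho ht hr b0 w' V' hx⟩
    obtain bd : S.Bd c ξ n m r' :=
      hx.trans (mul_le_mul_of_nonneg_right (by linarith only [h.cwb, h.cw0]) hL.le)
    obtain cd := H ξ n m Ls r' ho.1 ho.2.1
      (fun y hy => ht y (hy.trans (mul_le_mul_of_nonneg_left (by linarith only [V']) h.C00))) hr bd w'
    obtain lt : r' < R := by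
      have e1 := cd.c1
      have e2 := (h1 Ex S ok).2.2 _ _ _ _ _ ho ⟨hr, bd, cd⟩
      obtain e3 := h.xx_mono S n (show S.Wt c (S.fr (n + 1)) (n + 1) m r' ≤ V + 5 by linarith only [V'])
      obtain this : r' ≤ min (c.κ * S.Wt c (S.fr (n + 1)) (n + 1) m 0 + c.c1)
        (11 / 10 * S.xx c n (V + 5) + c.cc) := le_min e1 (by linarith only [e2, e3])
      linarith only [this]
    rcases min_choice (min r1 R) (V - Real.log |S.fr (n + 1) m|) with e | e
    · rw [← hr'] at e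
      obtain e' : r' = r1 := by
        rcases min_choice r1 R with e' | e'
        · rw [e, e']
        · rw [e, e'] at lt; exact absurd lt (lt_irrefl _)
      obtain ⟨p, hp, hr1⟩ := hr1.resolve_left (by rintro rfl; rw [e'] at lt; exact lt_irrefl _ lt)
      rw [e', hr1] at bd cd hx V'
      obtain ⟨stp, kind⟩ := step_facts h h1 hS ok ho.1 hr ho' hp
      have hr2 := hp.run hr ⟨bd, cd⟩
      have rp := ((h1 Ex S ok).1 _ _ _ _ _ st hr2).2
      have bp := (hB Ex S ξ n ok ho).2 _ _ _ _ ch bi ⟨bd, cd⟩ stp rp kind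
      obtain ⟨n1, n2⟩ := bd_next h hR ok ho hm rm stp rp bp cd.c2 hx
      refine ihj _ p hr2 n1 (by linarith only [V', n2]) ?_
      simp only [List.length_cons]; push_cast at hj ⊢; linarith only [hj]
    · rw [← hr'] at e
      refine .inr ⟨Ls, m, r', ⟨hr, bd, cd⟩, ?_⟩
      exact le_max_of_le_right (by rw [e]; linarith only [])

theorem num : Hier Num := by
  have b := Hier.base
  have c0 := Hier.C0_ge fun _ _ _ _ => 0
  have c1 := Hier.C1_ge fun _ _ _ _ _ => 0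
  obtain e := Hier.ε_le_pow (fun _ => 1 / 10) 0 (by norm_num) (fun _ _ _ _ _ _ _ _ => rfl)
    (.of_all fun _ => by norm_num)
  obtain a := Hier.a_le (fun _ => 1 / 4) (fun _ _ _ _ _ _ => rfl) (.of_all fun _ => by norm_num)
  have m1 := Hier.M1_ge (fun _ => 3) fun _ _ _ _ => rfl
  have m2 := Hier.M1_ge (fun c => 50 * c.κ * c.C0) fun _ _ _ _ => rfl
  have β1 := Hier.β_ge (fun _ => 3) fun _ _ _ => rfl
  have β2 := Hier.β_ge (fun c => 8 * c.C0 * (4 * c.κ + 2)) fun _ _ _ => rfl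
  have l1 := Hier.lam_ge (fun _ => 404) fun _ _ => rfl
  have l2 := Hier.lam_ge (fun c => 40 * c.C1 * c.CN) fun _ _ => rfl
  have L1 := Hier.L_ge (fun _ => 1) fun _ _ => rfl
  have L2 := Hier.pow_le_exp (fun _ => 1) (fun _ => 1) 4 (fun _ _ => rfl) (fun _ _ => rfl)
    (.of_all fun _ => one_pos)
  refine ((((((((((((b.and c0).and c1).and e).and a).and m1).and m2).and β1).and β2).and l1).and
    l2).and L1).and L2).mono ?_
  rintro c ⟨⟨⟨⟨⟨⟨⟨⟨⟨⟨⟨⟨b, c0⟩, c1⟩, e⟩, a⟩, m1⟩, m2⟩, β1⟩, β2⟩, l1⟩, l2⟩, L1⟩, L2⟩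
  refine ⟨b.1, b.2.1, b.2.2.2.2.1, c0, c1, e.1.le, by simpa using e.2, a.1.le, a.2, m1, m2, β1, β2, l1, l2, L1, ?_⟩
  rwa [one_mul, one_mul, Cs.lam, Real.exp_log (by linarith only [L1, e])] at L2

end B2

open B2 in
/-- row B2 -/
theorem b2 : Hier fun c => SOK_s c → B1_s c → B3_s c → STEP_s c → BINV_s c → RHO_s c → B2_s c := by
  refine num.mono fun c h hO h1 h3 hS hB hR Ex M t hM ht H v hv ξ s P Ls n st hr tm hP => ?_
  have ok := ((hO M hM t ht).2.1 v hv).2
  have ee : ∀ k, EE c Ex (M.O t v) k := fun k =>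
    Nat.strong_induction_on k fun k ih => ee_succ h h1 h3 hS hB hR ok (H v hv) ih
  have sn : s ≤ n := Sq.Run.le c _ hr
  have ho : (M.O t v).Out c ξ n :=
    ⟨st.1.trans sn, fun j hj => st.2.1 j (sn.trans hj), (tm 0).1, (tm 0).2.1⟩
  by_cases hx : ∃ p, StepEx c Ex (M.O t v) ξ n p
  · obtain ⟨p, hp⟩ := hx
    exact .inl ⟨_, p, hp.run hr (hP _)⟩
  · refine .inr fun V => ?_
    obtain ⟨k, hk⟩ := exists_nat_ge (V + 4 * c.C1 * (M.O t v).load c n (V + 5))
    exact (ee k ξ n V ho (fun y _ => tm y) (.inr hk)).resolve_left hx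

end Pool.Agent.MP_9cbfe4_an

end

/-! ### Part R2 -/

section

/-! Row R2: a nearby orbit fits the same skeleton. -/

namespace Pool.Agent.MP_9cbfe4_an
open Finset Real

namespace R2
variable {S S' : Sq} {k : Sk} {n : ℤ} {δ : ℝ}

theorem diff (S S' : Sq) {i j : ℤ} (hi : 0 ≤ i) (hj : 1 ≤ j) : S'.fr (i + 1) j - S.fr (i + 1) j =
    ∑ l ∈ Ico 1 j, S.fr (l + 1) j *
      ((S'.a l - S.a l) * S'.fr (i + 1) l + (S'.b l - S.b l) * S'.fr (i + 1) (l - 1)) := by
  obtain z : ∀ l, l ≤ i + 1 → S'.fr (i + 1) l - S.fr (i + 1) l = 0 := fun l hl => by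
    rcases hl.eq_or_lt with rfl | h
    · rw [Sq.fr_self, Sq.fr_self, sub_self]
    · rw [Sq.fr_lt _ h, Sq.fr_lt _ h, sub_self]
  obtain this := S.voc (Z := fun l => S'.fr (i + 1) l - S.fr (i + 1) l) (s := 1) (n := j)
    (q := fun l => (S'.a l - S.a l) * S'.fr (i + 1) l + (S'.b l - S.b l) * S'.fr (i + 1) (l - 1))
    (fun l _ _ => by
      rcases le_or_gt l i with h | h
      · rw [z _ (by omega), z _ (by omega), z _ (by omega), S'.fr_lt (show l < i + 1 by omega),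
          S'.fr_lt (show l - 1 < i + 1 by omega)]; ring
      · rw [S.fr_succ h, S'.fr_succ h]; ring) hj le_rfl
  rw [this, z _ (by omega), z _ (by omega)]; ring

/-- perturbation of a family of continuants -/
theorem pert (hw : ∀ l, 0 ≤ l → 0 ≤ k.w l) (hδ0 : 0 ≤ δ) (hδ : δ ≤ 1 / 2) (T : TCs S S' k n δ)
    (I : Finset ℤ) (hI : ∀ i ∈ I, 0 ≤ i) {A : ℝ} (hA : 0 ≤ A) {j : ℤ} (hj : 0 ≤ j) (hjn : j ≤ n)
    (h : ∀ l, 1 ≤ l → l ≤ j → ∑ i ∈ I, |S.fr (i + 1) l| ≤ A * k.w l) :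
    ∑ i ∈ I, |S'.fr (i + 1) j - S.fr (i + 1) j| ≤ 2 * δ * A * k.w j := by
  obtain z : ∀ (S : Sq), ∀ i ∈ I, S.fr (i + 1) 0 = 0 := fun S i a => S.fr_lt (by linarith only [hI i a])
  obtain key : ∀ m, 0 ≤ m → ∀ l, 0 ≤ l → l ≤ m → l ≤ j →
      ∑ i ∈ I, |S'.fr (i + 1) l - S.fr (i + 1) l| ≤ 2 * δ * A * k.w l := by
    intro m hm
    obtain base : ∑ i ∈ I, |S'.fr (i + 1) 0 - S.fr (i + 1) 0| ≤ 2 * δ * A * k.w 0 := by
      rw [sum_eq_zero fun i a => by rw [z _ i a, z _ i a, sub_self, abs_zero]]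
      have := hw 0 le_rfl; (clear * - hδ0 hA this; positivity)
    induction m, hm using Int.leInduction with
    | base => intro l a b _; obtain rfl : l = 0 := by omega
              exact base
    | succ m hm ih =>
      intro l a b d
      rcases a.eq_or_lt with rfl | a
      · exact base
      obtain up : ∀ p, 0 ≤ p → p < l → ∑ i ∈ I, |S'.fr (i + 1) p| ≤ 2 * A * k.w p := fun p p0 p1 => by
        have w := mul_nonneg hA (hw p p0)
        rcases p0.eq_or_lt with rfl | p2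
        · rw [sum_eq_zero fun i a => by rw [z _ i a, abs_zero]]; linarith only [w]
        obtain e : ∑ i ∈ I, |S'.fr (i + 1) p| ≤
            ∑ i ∈ I, (|S'.fr (i + 1) p - S.fr (i + 1) p| + |S.fr (i + 1) p|) :=
          sum_le_sum fun i _ => by linarith only [abs_sub_abs_le_abs_sub (S'.fr (i + 1) p) (S.fr (i + 1) p)]
        rw [sum_add_distrib] at e
        nlinarith only [e, b, p1, d, hδ, w, ih p p0 (by omega) (by omega), h p p2 (by omega)]
      calc _ ≤ ∑ i ∈ I, ∑ p ∈ Ico 1 l, |S.fr (p + 1) l| * (|S'.a p - S.a p| * |S'.fr (i + 1) p| +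
              |S'.b p - S.b p| * |S'.fr (i + 1) (p - 1)|) := sum_le_sum fun i hi => by
            rw [diff S S' (hI i hi) a]
            refine (abs_sum_le_sum_abs _ _).trans (sum_le_sum fun p _ => ?_)
            rw [abs_mul]
            gcongr; exact (abs_add_le _ _).trans_eq (by rw [abs_mul, abs_mul])
        _ ≤ ∑ p ∈ Ico 1 l, 2 * A * (|S.fr (p + 1) l| *
              (|S'.a p - S.a p| * k.w p + |S'.b p - S.b p| * k.w (p - 1))) := by
            rw [sum_comm]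
            refine sum_le_sum fun p hp => ?_
            obtain ⟨p1, p2⟩ := mem_Ico.1 hp
            rw [← mul_sum, sum_add_distrib, ← mul_sum, ← mul_sum]
            calc _ ≤ |S.fr (p + 1) l| * (|S'.a p - S.a p| * (2 * A * k.w p) +
                  |S'.b p - S.b p| * (2 * A * k.w (p - 1))) := by
                  gcongr
                  exacts [up p (by omega) p2, up (p - 1) (by omega) (by omega)]
              _ = _ := by ring
        _ ≤ 2 * A * (δ * k.w l) := by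
            rw [← mul_sum]; gcongr; exact T.ab l a (by omega)
        _ = _ := by ring
  exact key j hj j hj le_rfl le_rfl

theorem chi_mono {c : Cs} (h : k.OK1 c) {x i j : ℤ} (h1 : x ≤ i) (h2 : i ≤ j) :
    k.chi x i ≤ k.chi x j := by
  unfold Sk.chi; rw [sum_Ioc_add _ h1 h2]
  exact le_add_of_nonneg_right (sum_nonneg fun l _ => by linarith only [(h.ch_mem l).1])

theorem w_nonneg {c : Cs} (h : k.OK1 c) (l : ℤ) (hl : 0 ≤ l) : 0 ≤ k.w l := by
  rcases hl.eq_or_lt with rfl | h1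
  exacts [h.w0.ge, (h.w_pos l h1).le]

theorem nx_le {c : Cs} (h : k.OK1 c) (hn : n ∈ k.F) {x : ℤ} (hx : x < n) : k.nx x ≤ n :=
  (h.nx_mem x (hx.trans_le (h.F_mem n hn).2)).2.2 n hn hx

theorem d8_mono (k : Sk) {i j : ℤ} (h : i ≤ j) : k.d8 i ≤ k.d8 j := by
  refine (fold_max_le _).2 ⟨(le_fold_max _).2 (.inl le_rfl), fun x hx => (le_fold_max _).2 (.inr ⟨x, ?_, le_rfl⟩)⟩
  rw [mem_filter] at hx ⊢; exact ⟨hx.1, by omega⟩

theorem E_nx {c : Cs} (h : k.OK1 c) {x : ℤ} (hx : x ∈ k.D) : k.E (k.nx x) x = 4 * k.V x 1 := by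
  obtain this : (k.D.filter fun y => x < y ∧ y < k.nx x) = ∅ := filter_eq_empty_iff.2 fun y hy a => by
    have := (h.nx_mem x (h.D_mem x hx).2).2.2 y (h.D_mem y hy).1 a.1
    omega
  simp [Sk.E, Sk.an, hx, this]
end R2

open R2 in
theorem r2' (K : ℕ) (c : Cs) : R2_s K c := by
  intro M t g S k n H g8 t' S' O δ hδ T
  have k1 := H.sk.1
  have F := H.fit
  have n1 := (k1.F_mem n H.hn).1
  have g1 := H.g1
  have hw := w_nonneg k1
  obtain δ0 : 0 ≤ δ := by simpa [k1.w1] using T.ab 1 le_rfl n1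
  obtain C : Close S S' k n (2 * δ) := fun i j A i0 ij jn h => by
    obtain A0 : 0 ≤ A := by
      obtain this := h (i + 1) (by omega) ij
      rw [Sq.fr_self, abs_one] at this
      by_contra! z; nlinarith only [this, z, i0, hw (i + 1) (by omega)]
    simpa using pert hw δ0 (by linarith only [hδ]) T {i} (by simpa using i0) A0 (by omega) jn fun l a b => by
      rw [sum_singleton]
      rcases le_or_gt l i with d | d
      · rw [S.fr_lt (by omega), abs_zero]; exact mul_nonneg A0 (hw l (by omega))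
      · exact h l d b
  obtain U : ∀ (i j : ℤ) (A : ℝ), 0 ≤ i → i < j → j ≤ n →
      (∀ l, i < l → l ≤ j → |S.fr (i + 1) l| ≤ g * A * k.w l) → |S'.fr (i + 1) j| ≤ 2 * g * A * k.w j :=
    fun i j A a b d h => by
      have e := abs_sub_abs_le_abs_sub (S'.fr (i + 1) j) (S.fr (i + 1) j)
      have := h j b le_rfl
      nlinarith only [e, this, hδ, C i j _ a b d h, abs_nonneg (S.fr (i + 1) j)]
  obtain Lo : ∀ (i j : ℤ) (A : ℝ), 0 ≤ i → i < j → j ≤ n → A * k.w j ≤ g * |S.fr (i + 1) j| →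
      (∀ l, i < l → l ≤ j → |S.fr (i + 1) l| ≤ g * (4 * A) * k.w l) →
      A * k.w j ≤ 2 * g * |S'.fr (i + 1) j| := fun i j A a b d e h => by
    have e1 := abs_sub_abs_le_abs_sub (S.fr (i + 1) j) (S'.fr (i + 1) j)
    rw [abs_sub_comm] at e1
    have e2 := C i j _ a b d h
    obtain e3 : 0 ≤ A * k.w j := by
      have := (abs_nonneg _).trans (h j b le_rfl)
      by_contra! z; nlinarith only [this, z, g1]
    obtain e4 : g * |S.fr (i + 1) j| ≤ g * (|S'.fr (i + 1) j| + 2 * δ * (g * (4 * A)) * k.w j) := by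
      gcongr; linarith only [e1, e2]
    obtain e5 : δ * (g * g) ≤ 1 / 10000 * (8 * 8) := by (clear * - hδ g8 g1; gcongr)
    nlinarith only [e, e3, e4, e5]
  obtain dp : ∀ l, 0 ≤ l → l ≤ n → dP (S.X l) ≤ dP (S'.X l) + 1 / 10000 := fun l a b => by
    have := (abs_le.1 ((dP_lip (S'.X l) (S.X l)).trans (T.x l a b))).1; linarith only [this]
  refine ⟨⟨H.ok, H.sk, H.hn, O.t0, O.t1, O.orb, O.box0, by linarith only [g1], by linarith only [g8], ?_, ?_, ?_, ?_, ?_,
    ?_, ?_, ?_, ?_, ?_⟩, C⟩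
  · intro i a b
    simpa using U 0 i 1 le_rfl a b fun l d e => by simpa using F.f1 l d (by omega)
  · intro m hm b
    have m1 := (k1.F_mem m hm).1
    simpa using Lo 0 m 1 le_rfl m1 b (by simpa using F.f2 m hm b) fun l d e => by
      obtain this := F.f1 l d (by omega); have := mul_nonneg (show 0 ≤ g by linarith only [g1]) (hw l d.le)
      rw [zero_add]; linarith
  · intro m hm b i j d e f
    exact U i j _ (by omega) e (by omega) fun l p q => F.fE m hm b i l d p (by omega)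
  · intro x hx b i j d e f
    have := (k1.F_mem x (k1.D_mem x hx).1).1
    simpa only [mul_assoc] using U i j (exp (k.chi x i / 100) * k.V x 1) (by omega) e
      (f.trans (nx_le k1 H.hn b)) fun l p q => by
        simpa only [mul_assoc] using F.fblk x hx b i l d p (by omega)
  · intro x hx b i d e
    have x1 := (k1.F_mem x (k1.D_mem x hx).1).1
    refine U x i _ (by omega) d (e.trans (nx_le k1 H.hn b)) fun l p q =>
      (F.fx x hx b l p (by omega)).trans ?_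
    obtain this := chi_mono k1 p.le q; have := hw x (by omega); have := hw l (by omega)
    (rename_i zq1 zq0; clear * - zq1 zq0 g1 this; gcongr)
  · intro x hx b
    have x1 := (k1.F_mem x (k1.D_mem x hx).1).1
    have x2 := k1.nx_mem x (k1.D_mem x hx).2
    have x3 := nx_le k1 H.hn b
    exact Lo x _ _ (by omega) x2.2.1 x3 (F.flo x hx b) fun l p q => by
      rw [← E_nx k1 hx]; exact F.fE _ x2.1 x3 x l x1 p q
  · intro j a b
    have d0 : 0 ≤ k.d8 j := (le_fold_max _).2 (.inl le_rfl)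
    have e1 := pert hw δ0 (by linarith only [hδ]) T (Ico 1 j) (fun i hi => by linarith only [(mem_Ico.1 hi).1])
      (A := g * (1 / 10000 + k.d8 j)) (by positivity) (by omega) b fun l p q => by
        rw [← sum_subset (Ico_subset_Ico_right q) fun i hi h => by
          rw [S.fr_lt (by simp only [mem_Ico] at hi h; omega), abs_zero]]
        refine (F.d8 l p (by omega)).trans ?_
        obtain this := d8_mono k q; have := hw l (by omega)
        gcongr
    obtain e : ∑ i ∈ Ico 1 j, |S'.fr (i + 1) j| ≤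
        ∑ i ∈ Ico 1 j, (|S'.fr (i + 1) j - S.fr (i + 1) j| + |S.fr (i + 1) j|) :=
      sum_le_sum fun i _ => by linarith only [abs_sub_abs_le_abs_sub (S'.fr (i + 1) j) (S.fr (i + 1) j)]
    rw [sum_add_distrib] at e
    obtain this : 0 ≤ g * (1 / 10000 + k.d8 j) * k.w j := by have := hw j (by omega); positivity
    nlinarith only [e1, e, this, hδ, F.d8 j a b]
  · intro l a b
    have ti : TI t' := ⟨O.t0.le, O.t1.le⟩
    obtain b1 := O.orb.box l (by omega); have b2 := O.orb.box (l - 1) (by omega)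
    rw [O.orb.hb l a]
    refine ⟨le_trans (by positivity) (H.ok.ok.b_lo _ _ _ ti b1 b2), ?_⟩
    by_cases z : 1 / 100 ≤ dP (S'.X l) ∨ 1 / 100 ≤ dP (S'.X (l - 1))
    · exact (H.ok.ok.b_N _ _ _ ti b1 b2 z).trans (k1.B_lo l)
    · push Not at z
      exact (H.ok.ok.b_hi _ _ _ ti b1 b2).trans (F.zone l a b (by linarith only [g8, z, a, dp l (by omega) b])
        (by linarith only [g8, z, a, b, dp (l - 1) (by omega) (by omega)])).2
  · intro l a b d e
    exact F.zone l a b (by linarith only [g1, d, a, dp l (by omega) b]) (by linarith only [g1, e, a, b, dp (l - 1) (by omega) (by omega)])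
  · intro x hx b
    have x1 := (k1.F_mem x (k1.D_mem x hx).1).1
    have e := abs_sub_abs_le_abs_sub (sin (S'.X x)) (sin (S.X x))
    linarith only [g1, e, x1, F.fold x hx b, abs_sin_sub_sin_le (S'.X x) (S.X x), T.x x (by omega) b.le]

theorem r2 (K : ℕ) : Hier (R2_s K) := Hier.of_all (r2' K)

end Pool.Agent.MP_9cbfe4_an

end

/-! ### Part TUBE -/

section

/-! Row TUBE: the coefficients of two orbits in one tube are close. -/

namespace Pool.Agent.MP_9cbfe4_an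
open Finset Real

namespace TUBE
variable {K : ℕ} {c : Cs} {M : Mdl} {t t' g : ℝ} {S S' : Sq} {k : Sk} {n l : ℤ}

theorem OB_open (c : Cs) : IsOpen (OB c) := by
  unfold OB
  simp only [Set.ofPred_and]
  refine (isOpen_lt ?_ ?_).inter ((isOpen_lt ?_ ?_).inter ((isOpen_lt ?_ ?_).inter (isOpen_lt ?_ ?_))) <;>
    fun_prop

/-- Lipschitz bounds for the coefficients in the gauge `nq` -/
theorem lip (hG : GEO_s K c) (H : OC K c M t g S k n) (O : O2 c M t' S') (l1 : 1 ≤ l) (ln : l ≤ n)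
    (d1 : |S'.X l - S.X l| ≤ 1 / 10000) (d0 : |S'.X (l - 1) - S.X (l - 1)| ≤ 1 / 10000) {ν : ℝ}
    (hK : 0 ≤ c.CG * c.L) (h0 : |t' - t| ≤ ν) (h1 : |S'.X l - S.X l| ≤ ν)
    (h2 : exp (-k.ch l / 2) * |S'.X (l - 1) - S.X (l - 1)| ≤ ν) :
    |S'.a l - S.a l| ≤ c.CG * c.L * ν ∧ |S'.b l - S.b l| ≤ c.CG * c.L * ν * exp (-k.ch l / 2) ∧
      |M.gt t' S' l - M.gt t S l| ≤ c.CG * c.L * ν := by
  have G := hG M t g S k n H t' S' O l l1 ln d1 d0
  have hz := left_mem_segment ℝ ((t, S.X l, S.X (l - 1)) : ℝ × ℝ × ℝ) (t', S'.X l, S'.X (l - 1))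
  have hz' := right_mem_segment ℝ ((t, S.X l, S.X (l - 1)) : ℝ × ℝ × ℝ) (t', S'.X l, S'.X (l - 1))
  have q0 := exp_pos (-k.ch l / 2)
  obtain key := fun v => (J0.fderiv_sub_le_gauge (p := nq (exp (-k.ch l / 2))) (convex_segment _ _) hz hz'
    (fun y hy => (H.ok.smooth.contDiffAt ((OB_open c).mem_nhds (G y hy).1)).of_le (by norm_cast))
    (fun y hy => (G y hy).2.2 2 le_rfl (by omega)) v).trans
    (mul_le_mul_of_nonneg_left (mul_le_mul_of_nonneg_right
      (show _ ≤ ν from max_le h0 (max_le h1 h2)) (le_max_of_le_left (abs_nonneg _))) hK)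
  simp only [H.ok.d1 _ (G _ hz).1, H.ok.d1 _ (G _ hz').1] at key
  rw [H.orb.ha l l1, H.orb.hb l l1, O.orb.ha l l1, O.orb.hb l l1]
  refine ⟨by simpa [nq] using key (0, 1, 0), ?_, by simpa [nq, Mdl.gt] using key (1, 0, 0)⟩
  simpa [nq, q0.le, mul_assoc] using key (0, 0, 1)
end TUBE

open TUBE R2 in
theorem tube' {K : ℕ} {c : Cs} (hC : 100 ≤ c.C0) (hl : 10 ≤ c.lam) (hL : 4 * c.CG ≤ c.L)
    (hCG : 1 ≤ c.CG) (hκ : 0 < c.κ) (hA : TA_s c) (hB : TB_s c) (hT : TC_s c) (hG : GEO_s K c) :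
    TUBE_s K c := by
  intro M t g S k n H t' S' O α D z γ γ0 γ1 ⟨α0, z0, hD, hX⟩ hs
  have k1 := H.sk.1
  have hn := H.hn
  obtain ⟨n1, nN⟩ := k1.F_mem n hn
  obtain ⟨a1, -, a3, -, -, -, -, -, -, a10, -, a12, -, a14, -, a16, a17, a18⟩ := hA k H.sk
  obtain B1 := (hB k H.sk n hn 1 γ (by simpa using hC) γ0 γ1).1
  have T1 := (hT k H.sk n hn).1
  have D0 : 0 ≤ D := (abs_nonneg _).trans hD
  have s1 := k1.sl_mono 1 n le_rfl n1
  obtain s0 : 10 ≤ k.sl n := by linarith only [hl, s1, k1.sl1]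
  obtain ck : 2 ≤ c.ck := by unfold Cs.ck; linarith only [hκ]
  have r1 := (a17 n hn).1
  have W0 := exp_pos (k.W n)
  set s := k.sl n with hsn
  set Z := k.sz n α D z with hZ
  have eZ : Z = α * exp (k.W n) + D * k.rh n + z := rfl
  obtain Z0 : 0 ≤ Z := by rw [eZ]; (clear * - α0 D0 r1 z0; positivity)
  obtain ch0 : ∀ l, 0 ≤ l → 0 ≤ k.chi 0 l := fun l a => by simpa [Sk.chi] using chi_mono k1 le_rfl a
  have w40 : ∀ l, 0 ≤ l → 0 ≤ k.w4 l := fun l a => (w_nonneg k1 l a).trans ((le_fold_max _).2 (.inl le_rfl))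
  obtain w41 : ∀ l, 0 ≤ l → l ≤ n → k.w4 l ≤ exp (k.W n) * exp s := fun l a b =>
    (a10 n hn l a b).1.trans (by rw [← exp_add]; (clear * - s1; gcongr))
  obtain N1 : ∀ G l, 0 ≤ G → 0 ≤ l → l < n → k.NN n 1 G l ≤ exp ((G + 2) * s) / k.em n l :=
    fun G l a b d => by simpa using ((a18 n 1 G l a b (by omega)).2.2.2 hn d).2.1
  have N2 : ∀ G l, 0 ≤ G → 0 ≤ l → l < n → k.NN n 1 G l ≤ exp ((G + 2) * s) * k.rh n :=
    fun G l a b d => by
      obtain ⟨e0, e1, e2, -⟩ := a16 n l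
      refine (N1 G l a b d).trans ?_
      rw [div_eq_mul_one_div]; gcongr
      exact (one_div_le_one_div_of_le (by positivity) (by nlinarith only [e0, e1])).trans e2
  obtain ex : ∀ {x y : ℝ}, x ≤ y → exp (x * s) ≤ exp (y * s) := fun h => by (clear * - h s0; gcongr)
  obtain e1 : ∀ {x : ℝ}, 0 ≤ x → 1 ≤ exp (x * s) := fun h => one_le_exp (by positivity)
  have small : ∀ l, 0 ≤ l → l ≤ n → |S'.X l - S.X l| ≤ 1 / 10000 := fun l a b => by
    obtain u1 : k.NN n 1 γ l ≤ exp ((c.ck * γ + 2) * s) * k.rh n := by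
      rcases b.eq_or_lt with rfl | b
      · obtain this : (k.D.filter fun x => x < l ∧ l < k.nx x) = ∅ :=
          filter_eq_empty_iff.2 fun x _ h => by linarith only [nx_le k1 hn h.1, h.2]
        rw [Sk.NN, this, fold_empty]
        refine le_trans (exp_le_exp.2 ?_) (le_mul_of_one_le_right (exp_pos _).le r1)
        linarith only [s0, mul_le_mul_of_nonneg_left (k1.jump l hn) γ0]
      · exact (N2 γ l γ0 a b).trans (by gcongr; nlinarith only [γ0, ck])
    obtain u2 : exp s ≤ exp ((c.ck * γ + 2) * s) := exp_le_exp.2 (by nlinarith only [s0, ck, mul_nonneg γ0 (show 0 ≤ s by linarith only [s0])])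
    obtain u3 : exp (-k.chi 0 l / 4) ≤ exp ((c.ck * γ + 2) * s) :=
      (exp_le_one_iff.2 (by linarith only [ch0 l a])).trans (e1 (by (clear * - ck γ0; positivity)))
    obtain u4 : k.w4 l ≤ exp (k.W n) * exp ((c.ck * γ + 2) * s) := (w41 l a b).trans (by gcongr)
    calc _ ≤ k.w4 l * α + D * k.NN n 1 γ l + z * exp (-k.chi 0 l / 4) := hX l a b
      _ ≤ exp (k.W n) * exp ((c.ck * γ + 2) * s) * α + D * (exp ((c.ck * γ + 2) * s) * k.rh n) +
          z * exp ((c.ck * γ + 2) * s) := by (clear * - u4 α0 u1 D0 u3 z0; gcongr)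
      _ = Z * exp ((c.ck * γ + 2) * s) := by rw [eZ]; ring
      _ ≤ exp (-(c.ck * γ + 60) * s) * exp ((c.ck * γ + 2) * s) := by gcongr
      _ = 1 / exp (58 * s) := by rw [← exp_add, one_div, ← exp_neg]; congr 1; ring
      _ ≤ _ := one_div_le_one_div_of_le (by norm_num) (by
        obtain this := add_one_le_exp (29 * s)
        rw [show 58 * s = 29 * s + 29 * s by ring, exp_add]; nlinarith only [s0, this])
  obtain K0 : 0 ≤ c.CG * c.L := by nlinarith only [hL, hCG]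
  obtain K1 : 4 * (c.CG * c.L) ≤ exp (2 * s) := by
    obtain this : c.L ≤ exp s := by
      rw [← exp_log (show 0 < c.L by linarith only [hL, hCG])]; exact exp_le_exp.2 (k1.sl1.trans s1)
    rw [two_mul, exp_add]; nlinarith only [hL, this, hCG]
  obtain P : TCp M t t' S S' k n (Z * exp ((γ + 30) * s)) := by
    have key : ∀ l, 1 ≤ l → l < n → _ ∧ _ ∧ _ := fun l a b => by
      obtain ⟨n1, n2, -⟩ := a18 n 1 γ l γ0 (by omega) (by omega)
      obtain n3 := n2 n 1 (γ + 1) le_rfl le_rfl (by linarith only [])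
      obtain w := w40 l (by omega)
      obtain q := exp_pos (-k.chi 0 l / 4)
      refine lip hG H O a b.le (small l (by omega) b.le) (small (l - 1) (by omega) (by omega)) K0
        (ν := 2 * α * k.w4 l + D * k.NN n 1 (γ + 1) l + z * exp (-k.chi 0 l / 4)) ?_ ?_ ?_
      · nlinarith only [hD, D0, n1, n3, mul_nonneg α0 w, mul_nonneg z0 q.le]
      · refine (hX l (by omega) b.le).trans ?_
        unfold Sk.mu; nlinarith only [D0, n3, mul_nonneg α0 w]
      · obtain ⟨b1, b2⟩ := B1 l a b.le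
        obtain b3 : exp (-k.ch l / 2) * exp (-k.chi 0 (l - 1) / 4) ≤ exp (-k.chi 0 l / 4) := by
          obtain this := sum_Ioc_add k.ch (show 0 ≤ l - 1 by omega) (show l - 1 ≤ l - 1 + 1 by omega)
          rw [Ioc_succ_self, sum_singleton, sub_add_cancel] at this
          rw [← exp_add]; unfold Sk.chi; exact exp_le_exp.2 (by linarith only [this, (k1.ch_mem l).1])
        refine (mul_le_mul_of_nonneg_left (hX (l - 1) (by omega) (by omega)) (exp_pos _).le).trans ?_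
        unfold Sk.mu
        linarith only [mul_le_mul_of_nonneg_left b1 α0, mul_le_mul_of_nonneg_left b2 D0,
          mul_le_mul_of_nonneg_left b3 z0]
    obtain fin : ∀ x, x ≤ 2 * (Z * exp ((γ + 13) * s)) → 2 * (c.CG * c.L) * x ≤ Z * exp ((γ + 30) * s) :=
      fun x hx => calc
        _ ≤ 2 * (c.CG * c.L) * (2 * (Z * exp ((γ + 13) * s))) := by (clear * - hx K0; gcongr)
        _ = Z * (4 * (c.CG * c.L) * exp ((γ + 13) * s)) := by ring
        _ ≤ Z * (exp (2 * s) * exp ((γ + 13) * s)) := by (clear * - K1 Z0; gcongr)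
        _ ≤ _ := by rw [← exp_add]; gcongr; linarith only [s0]
    obtain p1 := mul_nonneg α0 W0.le
    obtain p2 : 0 ≤ D * k.rh n := by positivity
    refine ⟨fun l a b => ?_, fun l a b => ?_⟩
    · obtain ⟨h1, h2, -⟩ := key l a b
      obtain ⟨c1, c2, -⟩ := a14 n hn l a b
      obtain ⟨e0, -, e2, -⟩ := a16 n l
      obtain w := k1.w_pos l a
      obtain E0 : 0 ≤ k.E n l := by by_contra! h; nlinarith only [nN, b, w, h, a12 n l a (by omega)]
      obtain n1 := (a18 n 1 (γ + 1) l (by linarith only [γ0]) (by omega) (by omega)).1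
      obtain c3 : k.E n l * k.w4 l * k.NN n 1 (γ + 1) l ≤ k.rh n * exp ((γ + 13) * s) := calc
        _ ≤ exp ((8 + 2) * s) / k.em n l * (exp ((γ + 1 + 2) * s) / k.em n l) := by
          gcongr
          exacts [(T1 l a b).trans (N1 8 l (by norm_num) (by omega) b), N1 _ l (by linarith only [γ0]) (by omega) b]
        _ = 1 / k.em n l ^ 2 * exp ((γ + 13) * s) := by
          rw [show (γ + 13) * s = (8 + 2) * s + (γ + 1 + 2) * s by ring, exp_add]; field_simp
        _ ≤ _ := by (clear * - e2; gcongr)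
      obtain c4 : k.E n l * k.w4 l ^ 2 ≤ exp (k.W n) * exp ((γ + 13) * s) :=
        c1.trans (by rw [← exp_add]; gcongr; linarith only [γ0])
      obtain w4 := w40 l (by omega)
      have c5 : k.E n l * k.w4 l * exp (-k.chi 0 l / 4) ≤ exp ((γ + 13) * s) :=
        le_trans (by gcongr ?_ * exp ?_; linarith only [a, ch0 l (by omega)]) (c2.trans (e1 (by linarith only [γ0])))
      set ν := 2 * α * k.w4 l + D * k.NN n 1 (γ + 1) l + z * exp (-k.chi 0 l / 4) with hν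
      obtain ν0 : 0 ≤ c.CG * c.L * ν := (abs_nonneg _).trans h1
      refine le_trans ?_ (fin (k.E n l * k.w4 l * ν) ?_)
      · obtain w' := w_nonneg k1 (l - 1) (by omega)
        calc _ ≤ k.E n l * (c.CG * c.L * ν * k.w l + c.CG * c.L * ν * exp (-k.ch l / 2) * k.w (l - 1)) := by
              (clear * - h1 w h2 w' E0; gcongr)
          _ = k.E n l * (c.CG * c.L * ν) * (k.w l + k.w (l - 1) * exp (-k.ch l / 2)) := by ring
          _ ≤ k.E n l * (c.CG * c.L * ν) * (2 * k.w4 l) := by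
              gcongr; linarith only [k1.w_step l a, a1 l a]
          _ = _ := by ring
      · obtain this := exp_pos ((γ + 13) * s)
        rw [eZ, hν]
        linarith only [mul_le_mul_of_nonneg_left c4 α0, mul_le_mul_of_nonneg_left c3 D0,
          mul_le_mul_of_nonneg_left c5 z0, mul_nonneg p2 this.le, mul_nonneg z0 this.le]
    · obtain ⟨h1, -, h3⟩ := key l a b
      have c3 : k.NN n 1 (γ + 1) l ≤ exp ((γ + 13) * s) * k.rh n :=
        (N2 _ l (by linarith only [γ0]) (by omega) b).trans (by gcongr ?_ * _; exact ex (by linarith only []))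
      obtain c4 : k.w4 l ≤ exp (k.W n) * exp ((γ + 13) * s) :=
        (w41 l (by omega) b.le).trans (by gcongr; nlinarith only [γ0, s0])
      obtain c5 : exp (-k.chi 0 l / 4) ≤ exp ((γ + 13) * s) :=
        (exp_le_one_iff.2 (by linarith only [a, ch0 l (by omega)])).trans (e1 (by linarith only [γ0]))
      refine h3.trans (le_trans (by linarith only [(abs_nonneg _).trans h1]) (fin (2 * α * k.w4 l +
        D * k.NN n 1 (γ + 1) l + z * exp (-k.chi 0 l / 4)) ?_))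
      obtain this := exp_pos ((γ + 13) * s)
      rw [eZ]
      linarith only [mul_le_mul_of_nonneg_left c4 α0, mul_le_mul_of_nonneg_left c3 D0,
        mul_le_mul_of_nonneg_left c5 z0, mul_nonneg p2 this.le, mul_nonneg z0 this.le]
  refine ⟨P, fun j a b => ?_, small⟩
  have w := k1.w_pos j a
  obtain δ0 : 0 ≤ Z * exp ((γ + 30) * s) := by positivity
  have g1 := H.g1
  calc _ ≤ ∑ l ∈ Ico 1 j, 16 * (Z * exp ((γ + 30) * s)) * k.w j := sum_le_sum fun l hl => by
        obtain ⟨l1, l2⟩ := mem_Ico.1 hl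
        obtain w1 := w_nonneg k1 l (by (clear * - l1; omega)); have w2 := w_nonneg k1 (l - 1) (by omega)
        calc _ ≤ g * k.E n l * k.w j * (|S'.a l - S.a l| * k.w l + |S'.b l - S.b l| * k.w (l - 1)) := by
              gcongr; exact H.fit.fE n hn le_rfl l j l1 l2 b
          _ = g * (k.E n l * (|S'.a l - S.a l| * k.w l + |S'.b l - S.b l| * k.w (l - 1))) * k.w j := by
              ring
          _ ≤ g * (Z * exp ((γ + 30) * s)) * k.w j := by gcongr g * ?_ * _; exact P.ab l l1 (by omega)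
          _ ≤ _ := by gcongr; exact H.g16
    _ = 16 * ((j - 1 : ℤ) : ℝ) * (Z * exp ((γ + 30) * s) * k.w j) := by
        rw [sum_const, Int.card_Ico, nsmul_eq_mul, ← Int.cast_natCast, Int.toNat_of_nonneg (by omega)]
        ring
    _ ≤ exp s * exp s * (Z * exp ((γ + 30) * s) * k.w j) := by
        obtain h1 : (1 : ℝ) ≤ n := by exact_mod_cast n1
        obtain h2 : ((j - 1 : ℤ) : ℝ) ≤ n := by exact_mod_cast (by omega)
        obtain h3 : (0 : ℝ) ≤ ((j - 1 : ℤ) : ℝ) := by exact_mod_cast (by omega)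
        obtain h4 := add_one_le_exp (s / 2)
        gcongr
        · rw [show s = s / 2 + s / 2 by ring, exp_add]; nlinarith only [s0, h4]
        · nlinarith only [h1, h2, k1.time n hn]
    _ = _ := by
        rw [show (γ + 32) * s = s + s + (γ + 30) * s by ring, exp_add, exp_add]; ring

theorem tube (K : ℕ) : Hier fun c => TA_s c → TB_s c → TC_s c → GEO_s K c → TUBE_s K c :=
  ((Hier.C0_ge fun _ _ _ _ => 100).and
    ((Hier.lam_ge (fun _ => 10) fun _ _ => rfl).and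
    ((Hier.L_ge (fun c => 4 * c.CG) fun _ _ => rfl).and Hier.base))).mono fun _ h =>
    tube' h.1 h.2.1 h.2.2.1 h.2.2.2.2.2.2.2.2 h.2.2.2.2.2.2.2.1

end Pool.Agent.MP_9cbfe4_an

end

/-! ### Part SHD -/

section

/-! Row SHD: shadowing at the same parameter, the slope `ν_1`. -/

namespace Pool.Agent.MP_9cbfe4_an
open Finset Real

namespace SHD

theorem isOpen_OB (c : Cs) : IsOpen (OB c) := by
  have h1 : IsOpen {z : ℝ × ℝ × ℝ | 0 < z.1} := isOpen_lt continuous_const continuous_fst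
  have h2 : IsOpen {z : ℝ × ℝ × ℝ | z.1 < 1} := isOpen_lt continuous_fst continuous_const
  obtain h3 : IsOpen {z : ℝ × ℝ × ℝ | |z.2.1| < 2 * c.L} := isOpen_lt (by fun_prop) continuous_const
  obtain h4 : IsOpen {z : ℝ × ℝ × ℝ | |z.2.2| < 2 * c.L} := isOpen_lt (by fun_prop) continuous_const
  exact h1.inter (h2.inter (h3.inter h4))

theorem le_exp {x y : ℝ} (h : x ≤ y) : x ≤ exp y := by linarith only [h, add_one_le_exp y]

theorem sum_le_card {f : ℤ → ℝ} {i j : ℤ} {B N : ℝ} (hB : 0 ≤ B) (hij : i ≤ j)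
    (hN : (j : ℝ) - i ≤ N) (h : ∀ l, i ≤ l → l < j → f l ≤ B) : ∑ l ∈ Ico i j, f l ≤ N * B := by
  have h1 : ∑ l ∈ Ico i j, f l ≤ (Ico i j).card • B :=
    sum_le_card_nsmul _ _ _ fun l hl => h l (mem_Ico.1 hl).1 (mem_Ico.1 hl).2
  obtain h2 : ((Ico i j).card : ℝ) = (j : ℝ) - i := by
    rw [Int.card_Ico, ← Int.cast_natCast, Int.toNat_of_nonneg (by omega)]
    push_cast; ring
  rw [nsmul_eq_mul, h2] at h1
  exact h1.trans (mul_le_mul_of_nonneg_right hN hB)

variable {K : ℕ} {c : Cs} {M : Mdl} {t t' g : ℝ} {S S' : Sq} {k : Sk} {n : ℤ}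

/-- Taylor remainder of one step, two parameters -/
theorem tay (hG : GEO_s K c) (h : OC K c M t g S k n) (h' : O2 c M t' S') {l : ℤ} (h1 : 1 ≤ l)
    (h2 : l ≤ n) (z1 : |S'.X l - S.X l| ≤ 1 / 10000)
    (z2 : |S'.X (l - 1) - S.X (l - 1)| ≤ 1 / 10000) :
    |S'.X (l + 1) - S.X (l + 1) - S.a l * (S'.X l - S.X l) - S.b l * (S'.X (l - 1) - S.X (l - 1))
        - M.gt t S l * (t' - t)|
      ≤ c.CG * c.L * max |t' - t| (max |S'.X l - S.X l|
        (exp (-k.ch l / 2) * |S'.X (l - 1) - S.X (l - 1)|)) ^ 2 := by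
  have H := hG M t g S k n h t' S' h' l h1 h2 z1 z2
  obtain T := J0.taylor_one_le_gauge (g := M.GG) (p := nq (exp (-k.ch l / 2))) (M := c.CG * c.L)
    (convex_segment ((t, S.X l, S.X (l - 1)) : ℝ × ℝ × ℝ) (t', S'.X l, S'.X (l - 1)))
    (left_mem_segment ℝ _ _) (right_mem_segment ℝ _ _)
    (fun y hy => (h.ok.smooth.contDiffAt ((isOpen_OB c).mem_nhds (H y hy).1)).of_le
      (WithTop.coe_le_coe.2 (le_top : (2 : ℕ∞) ≤ ⊤)))
    fun y hy v => (H y hy).2.2 2 le_rfl (by omega) v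
  rw [h.ok.d1 _ (H _ (left_mem_segment ℝ _ _)).1] at T
  rw [h.orb.step l h1, h'.orb.step l h1, h.orb.ha l h1, h.orb.hb l h1]
  refine le_of_eq_of_le ?_ (T.trans_eq ?_)
  · congr 1
    simp only [Mdl.GG, Mdl.gt, Prod.fst_sub, Prod.snd_sub]
    ring
  · simp only [nq, Prod.fst_sub, Prod.snd_sub]

structure Num (c : Cs) : Prop where
  lam : 10 ^ 6 ≤ c.lam
  bl : 10 ^ 6 ≤ c.bl
  L : 16384 * c.CG ≤ c.L
  CG : 1 ≤ c.CG

theorem num : Hier Num := by
  refine (((Hier.lam_ge (fun _ => 10 ^ 6) fun _ _ => rfl).and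
    (Hier.β_ge (fun _ => 1) fun _ _ _ => rfl)).and
    ((Hier.L_ge (fun c => 16384 * c.CG) fun _ _ => rfl).and Hier.base)).mono ?_
  rintro c ⟨⟨h1, h2⟩, h3, h4⟩
  refine ⟨h1, ?_, h3, h4.2.2.2.2.2⟩
  unfold Cs.bl
  nlinarith only [h1, h2]

theorem chi01 (k : Sk) {m : ℤ} (hm : 1 ≤ m) : k.chi 0 m = k.ch 1 + k.chi 1 m := by
  unfold Sk.chi
  rw [sum_Ioc_add k.ch (show (0 : ℤ) ≤ 1 by omega) hm]
  congr 1
  have := Ioc_succ_self 0
  rw [zero_add] at this
  rw [this, sum_singleton]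

theorem fr_ne (h : OC K c M t g S k n) {m : ℤ} (hm : m ∈ k.F) (hmn : m ≤ n) : 0 < |S.fr 1 m| := by
  have h1 := h.fit.f2 m hm hmn
  have h2 := h.sk.1.w_pos m (h.sk.1.F_mem m hm).1
  by_contra hn
  have : |S.fr 1 m| = 0 := le_antisymm (not_lt.1 hn) (abs_nonneg _)
  rw [this] at h1; linarith only [h1, h2]

/-- `b_1 |fr 2 l| ≤ g e^{-0.9 bl} w_l` -/
theorem b_fr2 (hA : TA_s c) (h : OC K c M t g S k n) {l : ℤ} (h1 : 1 ≤ l) (h2 : l ≤ n) :
    |S.b 1 * S.fr 2 l| ≤ g * exp (-(9 / 10) * c.bl) * k.w l := by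
  obtain g0 : 0 ≤ g := by linarith only [h.g1]
  have hw := h.sk.1.w_pos l h1
  rcases h1.eq_or_lt with rfl | hl
  · rw [S.fr_lt (by omega), mul_zero, abs_zero]; (clear * - g0 hw; positivity)
  obtain ⟨-, -, -, -, -, -, -, -, -, -, -, -, -, -, a, -⟩ := hA k h.sk
  obtain a1 := a n (by have := (h.sk.1.F_mem n h.hn).2; omega)
  have a2 := h.fit.fE n h.hn le_rfl 1 l le_rfl hl h2
  obtain ⟨b0, b1⟩ := h.fit.b 1 le_rfl (by omega)
  rw [abs_mul, abs_of_nonneg b0]
  have a3 := mul_le_mul b1 a2 (abs_nonneg _) (b0.trans b1)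
  have a4 := mul_le_mul_of_nonneg_left a1 (mul_nonneg g0 hw.le)
  norm_num at a3
  linarith only [a4, a3]

theorem nu_le (hN : Num c) (hA : TA_s c) (h : OC K c M t g S k n) :
    |S.nu1 n| ≤ exp (-c.bl / 2) := by
  have h0 := fr_ne h h.hn le_rfl
  have h1 := b_fr2 hA h (h.sk.1.F_mem n h.hn).1 le_rfl
  have h2 := h.fit.f2 n h.hn le_rfl
  have g1 := h.g1
  have g16 := h.g16
  unfold Sq.nu1
  rw [abs_neg, abs_div, div_le_iff₀ h0]
  obtain e : exp (-c.bl / 2) = exp (2 / 5 * c.bl) * exp (-(9 / 10) * c.bl) := by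
    rw [← exp_add]; congr 1; ring
  obtain h3 : 256 ≤ exp (2 / 5 * c.bl) := le_exp (by linarith only [hN.bl])
  have h4 := exp_pos (-(9 / 10) * c.bl)
  obtain h5 := mul_le_mul_of_nonneg_left h2 (show 0 ≤ g * exp (-(9 / 10) * c.bl) by positivity)
  obtain h6 : g * g ≤ exp (2 / 5 * c.bl) := by nlinarith only [g16, h3, g1]
  have h7 := mul_le_mul_of_nonneg_right h6 (mul_pos h4 h0).le
  rw [e]; linarith only [h1, h5, h7]

theorem nu_sub (hN : Num c) (hA : TA_s c) (h : OC K c M t g S k n) {m : ℤ} (hm : m ∈ k.F)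
    (hmn : m ≤ n) : |S.nu1 n - S.nu1 m| ≤ exp (-k.chi 0 m / 2) := by
  rcases hmn.eq_or_lt with rfl | hlt
  · rw [sub_self, abs_zero]; positivity
  have o := h.sk.1
  have m1 := (o.F_mem m hm).1
  have u0 := fr_ne h h.hn le_rfl
  have v0 := fr_ne h hm hmn
  have g1 := h.g1
  have g16 := h.g16
  obtain g0 : 0 < g := by linarith only [g1]
  have wm := o.w_pos m m1
  obtain E := S.euler_sgn (ξ := S.fr 1) m1 hmn fun l h3 _ => S.fr_succ (by omega)
  rw [S.fr_self, show (1 : ℤ) + 1 = 2 by ring] at E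
  obtain e1 : S.nu1 n - S.nu1 m = -(S.b 1 * ((-1) ^ (m - 1).toNat * S.Pb 1 m * S.fr (m + 1) n))
      / (S.fr 1 n * S.fr 1 m) := by
    have a1 := abs_pos.1 u0
    have a2 := abs_pos.1 v0
    unfold Sq.nu1
    field_simp
    linear_combination (-S.b 1) * E
  have bb : ∀ l ∈ Ioc 1 m, 0 ≤ S.b l ∧ S.b l ≤ k.B l := fun l hl =>
    h.fit.b l (mem_Ioc.1 hl).1.le ((mem_Ioc.1 hl).2.trans hmn)
  have p0 : 0 ≤ S.Pb 1 m := prod_nonneg fun l hl => (bb l hl).1
  have p1 : S.Pb 1 m ≤ k.PB 1 m := prod_le_prod (fun l hl => (bb l hl).1) fun l hl => (bb l hl).2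
  obtain ⟨i1, i2⟩ := h.sk.2.i2 m hm 1 le_rfl m1
  rw [o.w1] at i2
  rw [o.w1, mul_one] at i1
  obtain ⟨b0, b1⟩ := h.fit.b 1 le_rfl (by omega)
  rw [o.ch_one.2] at b1
  obtain ⟨-, -, a3, -, -, -, -, -, -, -, -, a12, -, a14, -⟩ := hA k h.sk
  have a := (a14 n h.hn m m1 hlt).2.1
  rw [a3 m hm] at a
  obtain hE : 0 ≤ k.E n m := by
    obtain this := a12 n m m1 (by have := (o.F_mem n h.hn).2; omega)
    by_contra hn
    have := mul_neg_of_neg_of_pos (not_le.1 hn) wm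
    linarith
  have hc := chi01 k m1
  rw [o.ch_one.1] at hc
  obtain c0 : 0 ≤ k.chi 1 m := sum_nonneg fun l _ => by linarith only [(o.ch_mem l).1]
  have bl := hN.bl
  obtain f1 : |S.fr (m + 1) n| ≤ g * k.E n m * (g * |S.fr 1 n|) :=
    (h.fit.fE n h.hn le_rfl m n m1 hlt le_rfl).trans
      (mul_le_mul_of_nonneg_left (h.fit.f2 n h.hn le_rfl) (by (clear * - g1 hE; positivity)))
  obtain f2 : S.Pb 1 m ≤ 2 * exp (-(99 / 100) * k.chi 1 m) * (g * |S.fr 1 m|) :=
    (p1.trans i1).trans (mul_le_mul_of_nonneg_left (h.fit.f2 m hm hmn) (by positivity))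
  obtain f3 : k.E n m ≤ 2 * exp (k.chi 0 m / 50) := by
    obtain x1 : exp (k.chi 1 m / 100) ≤ exp (k.chi 0 m / 100) := exp_le_exp.2 (by linarith only [hc, bl])
    obtain x2 : exp (k.chi 0 m / 50) * exp (-k.chi 0 m / 100) = exp (k.chi 0 m / 100) := by
      rw [← exp_add]; congr 1; ring
    have x3 := exp_pos (-k.chi 0 m / 100)
    obtain x4 : 1 ≤ 2 * exp (k.chi 0 m / 100) * k.w m :=
      i2.trans (mul_le_mul_of_nonneg_right (by linarith only [x1]) wm.le)
    have x5 := mul_le_mul_of_nonneg_left x4 (mul_nonneg hE x3.le)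
    obtain x6 := mul_le_mul_of_nonneg_left a (show 0 ≤ 2 * exp (k.chi 0 m / 100) by positivity)
    refine le_of_mul_le_mul_right ?_ x3
    rw [mul_assoc, x2]; linarith only [x5, x6]
  rw [e1, abs_div, abs_neg, abs_mul, abs_mul, abs_mul, abs_mul, abs_pow, abs_neg, abs_one, one_pow,
    one_mul, abs_of_nonneg b0, abs_of_nonneg p0, div_le_iff₀ (mul_pos u0 v0)]
  obtain f4 : |S.fr (m + 1) n| ≤ g * (2 * exp (k.chi 0 m / 50)) * (g * |S.fr 1 n|) :=
    f1.trans (mul_le_mul_of_nonneg_right (mul_le_mul_of_nonneg_left f3 g0.le) (by (clear * - g1 u0; positivity)))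
  obtain f5 := mul_le_mul b1 (mul_le_mul f2 f4 (abs_nonneg _) (by (clear * - g1 v0; positivity))) (by (clear * - p0; positivity))
    (exp_pos _).le
  refine f5.trans ?_
  obtain f6 : 4 * g ^ 3 ≤ exp (2 / 5 * c.bl) := by
    have : g ^ 3 ≤ 16 ^ 3 := pow_le_pow_left₀ g0.le g16 3
    exact le_exp (by linarith only [bl, this])
  obtain f7 : exp (2 / 5 * c.bl) * (exp (-c.bl) * exp (-(99 / 100) * k.chi 1 m) * exp (k.chi 0 m / 50))
      ≤ exp (-k.chi 0 m / 2) := by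
    rw [← exp_add, ← exp_add, ← exp_add]
    exact exp_le_exp.2 (by linarith only [hc, c0, bl])
  obtain f8 := (mul_le_mul_of_nonneg_right f6 (by positivity)).trans f7
  have f9 := mul_le_mul_of_nonneg_right f8 (mul_pos u0 v0).le
  linarith only [f9]

theorem main (hN : Num c) (hA : TA_s c) (hG : GEO_s K c) (h : OC K c M t g S k n)
    (h' : O2 c M t S') {ϖ : ℝ} (z0 : |S'.X 0 - S.X 0| ≤ ϖ) (z1 : |S'.X 1 - S.X 1| ≤ ϖ)
    (hs : ϖ * exp (k.W n) ≤ exp (-20 * k.sl n)) {l : ℤ} (h1 : 1 ≤ l) (h2 : l ≤ n) :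
    |S'.X l - S.X l| ≤ 2 * g * ϖ * k.w l ∧
      |S'.X l - S.X l - (S'.X 1 - S.X 1) * S.fr 1 l - S.b 1 * (S'.X 0 - S.X 0) * S.fr 2 l|
        ≤ ϖ ^ 2 * exp (k.W n + 16 * k.sl n) * k.w l := by
  have o := h.sk.1
  have g1 := h.g1
  have g16 := h.g16
  obtain g0 : 0 < g := by linarith only [g1]
  have p0 : 0 ≤ ϖ := (abs_nonneg _).trans z0
  obtain ⟨n1, nN⟩ := o.F_mem n h.hn
  have s1 : k.sl 1 ≤ k.sl n := o.sl_mono 1 n le_rfl n1
  have s2 : 10 ^ 6 ≤ k.sl n := (hN.lam.trans o.sl1).trans s1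
  have W0 : 0 ≤ k.W n := o.W1 ▸ o.W_mono 1 n le_rfl n1
  obtain L0 : 0 < c.L := by linarith only [hN.L, hN.CG]
  obtain hL : c.L ≤ exp (k.sl n) := by
    rw [← exp_log L0]
    exact exp_le_exp.2 (o.sl1.trans s1)
  obtain ⟨a1, -, -, -, -, -, -, -, -, -, -, a12, -, a14, -⟩ := hA k h.sk
  obtain small : ∀ i, 1 ≤ i → i ≤ n → 2 * g * ϖ * k.w i ≤ 1 / 10000 := fun i b1 b2 => by
    obtain x1 : k.w i ≤ exp (k.W n) * exp (k.sl n) := by
      rw [← exp_add, ← exp_log (o.w_pos i b1)]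
      exact exp_le_exp.2 (by linarith only [s1, nN, o.hi i b1 (by omega), o.W_mono i n b1 b2])
    have x2 := mul_le_mul_of_nonneg_left x1 p0
    have x3 := mul_le_mul_of_nonneg_right hs (exp_pos (k.sl n)).le
    obtain x4 : exp (-20 * k.sl n) * exp (k.sl n) * exp (19 * k.sl n) = 1 := by
      rw [← exp_add, ← exp_add, ← exp_zero]; congr 1; ring
    obtain x5 : 320000 ≤ exp (19 * k.sl n) := le_exp (by linarith only [s2])
    obtain x6 : 0 < exp (-20 * k.sl n) * exp (k.sl n) := by positivity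
    obtain x7 : ϖ * k.w i ≤ 1 / 320000 := by nlinarith only [x2, x3, x4, x5, x6]
    obtain x8 := mul_le_mul g16 x7 (mul_nonneg p0 (o.w_pos i b1).le) (by norm_num)
    linarith only [x8]
  obtain one : ϖ ≤ 2 * g * ϖ * k.w 1 := by rw [o.w1]; nlinarith only [p0, g1]
  obtain cl : ϖ * exp (k.W n + 16 * k.sl n) ≤ 1 / 2 := by
    have x3 := mul_le_mul_of_nonneg_right hs (exp_pos (16 * k.sl n)).le
    obtain x4 : exp (-20 * k.sl n) * exp (16 * k.sl n) * exp (4 * k.sl n) = 1 := by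
      rw [← exp_add, ← exp_add, ← exp_zero]; congr 1; ring
    obtain x5 : 2 ≤ exp (4 * k.sl n) := le_exp (by linarith only [s2])
    obtain x6 : 0 < exp (-20 * k.sl n) * exp (16 * k.sl n) := by positivity
    rw [exp_add]; nlinarith only [x3, x4, x5, x6]
  obtain hb : exp (-(9 / 10) * c.bl) ≤ 1 / 2 := by
    obtain x4 : exp (-(9 / 10) * c.bl) * exp (9 / 10 * c.bl) = 1 := by
      rw [← exp_add, ← exp_zero]; congr 1; ring
    obtain x5 : 2 ≤ exp (9 / 10 * c.bl) := le_exp (by linarith only [hN.bl])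
    nlinarith only [x4, x5, exp_pos (-(9 / 10) * c.bl)]
  obtain hn : (n : ℝ) ≤ exp (k.sl n) := by
    have x1 := o.time n h.hn
    obtain x2 : (1 : ℝ) ≤ n := by exact_mod_cast n1
    nlinarith only [x1, x2]
  set Z : ℤ → ℝ := fun j => S'.X j - S.X j with hZ
  set q : ℤ → ℝ := fun j => Z (j + 1) - S.a j * Z j - S.b j * Z (j - 1) with hq
  suffices H : ∀ N : ℕ, ∀ j : ℤ, 1 ≤ j → j ≤ n → j < N → |Z j| ≤ 2 * g * ϖ * k.w j ∧
      |Z j - Z 1 * S.fr 1 j - S.b 1 * Z 0 * S.fr 2 j|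
        ≤ ϖ ^ 2 * exp (k.W n + 16 * k.sl n) * k.w j from H (l.toNat + 1) l h1 h2 (by omega)
  intro N
  induction N with
  | zero => intro j b1 _ b3; omega
  | succ N ih =>
    intro j b1 b2 b3
    have wj := o.w_pos j b1
    obtain v := S.voc (Z := Z) (q := q) (s := 1) (n := n)
      (fun i _ _ => by simp only [hq]; ring) b1 b2
    rw [show (1 : ℤ) - 1 = 0 by ring, show (1 : ℤ) + 1 = 2 by ring] at v
    obtain hQ : ∀ i, 1 ≤ i → i < j → |q i| ≤ c.CG * c.L * (2 * g * ϖ * k.w i) ^ 2 := fun i d1 d2 => by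
      obtain y1 := (ih i d1 (by omega) (by omega)).1
      obtain y0 : exp (-k.ch i / 2) ≤ 1 := exp_le_one_iff.2 (by linarith only [(o.ch_mem i).1])
      obtain y2 : |Z (i - 1)| ≤ 1 / 10000 ∧
          exp (-k.ch i / 2) * |Z (i - 1)| ≤ 2 * g * ϖ * k.w i := by
        rcases d1.eq_or_lt with rfl | d3
        · rw [show (1 : ℤ) - 1 = 0 by ring]
          exact ⟨(z0.trans one).trans (small 1 le_rfl n1),
            (mul_le_of_le_one_left (abs_nonneg _) y0).trans (z0.trans one)⟩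
        · obtain y3 := (ih (i - 1) (by omega) (by omega) (by omega)).1
          refine ⟨y3.trans (small _ (by omega) (by omega)), ?_⟩
          have y4 := mul_le_mul_of_nonneg_left y3 (exp_pos (-k.ch i / 2)).le
          obtain y5 := mul_le_mul_of_nonneg_left (o.w_step i d1) (show 0 ≤ 2 * g * ϖ by positivity)
          linarith only [y4, y5]
      obtain T := tay hG h h' d1 (by omega) (y1.trans (small i d1 (by omega))) y2.1
      rw [sub_self, mul_zero, sub_zero, abs_zero] at T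
      refine T.trans (mul_le_mul_of_nonneg_left ?_ (mul_nonneg (by linarith only [hN.CG]) L0.le))
      exact pow_le_pow_left₀ (le_max_left _ _)
        (max_le ((abs_nonneg _).trans y1) (max_le y1 y2.2)) 2
    obtain hS : ∑ i ∈ Ico 1 j, |S.fr (i + 1) j * q i| ≤ exp (k.sl n) *
        (ϖ ^ 2 * k.w j * (exp (k.sl n) * exp (k.sl n) * exp (k.W n + 12 * k.sl n))) := by
      refine sum_le_card (by (clear * - wj; positivity)) b1 ?_ fun i d1 d2 => ?_
      · obtain this : (j : ℝ) ≤ n := by exact_mod_cast b2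
        push_cast; linarith only [hn, this]
      have wi := o.w_pos i d1
      obtain hE : 0 ≤ k.E n i := by
        obtain this := a12 n i d1 (by omega)
        by_contra hn
        have := mul_neg_of_neg_of_pos (not_le.1 hn) wi
        linarith
      obtain y1 : k.E n i * k.w i ^ 2 ≤ exp (k.W n + 12 * k.sl n) :=
        (mul_le_mul_of_nonneg_left (pow_le_pow_left₀ wi.le (a1 i d1) 2) hE).trans
          (a14 n h.hn i d1 (by omega)).1
      obtain y2 : 4 * g ^ 3 * c.CG ≤ exp (k.sl n) := by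
        have : g ^ 3 ≤ 16 ^ 3 := pow_le_pow_left₀ g0.le g16 3
        have y := hN.CG
        nlinarith only [hL, this, y, hN.L]
      obtain y3 := mul_le_mul (mul_le_mul y2 hL L0.le (exp_pos _).le) y1 (by (clear * - hE wi; positivity)) (by positivity)
      obtain y4 := mul_le_mul_of_nonneg_left y3 (show 0 ≤ ϖ ^ 2 * k.w j by (clear * - wj; positivity))
      obtain y5 := mul_le_mul (h.fit.fE n h.hn le_rfl i j d1 d2 b2) (hQ i d1 d2) (abs_nonneg _)
        (by (clear * - g1 hE wj; positivity))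
      rw [abs_mul]
      linarith only [y4, y5]
    obtain R : |Z j - Z 1 * S.fr 1 j - S.b 1 * Z 0 * S.fr 2 j|
        ≤ ϖ ^ 2 * exp (k.W n + 16 * k.sl n) * k.w j := by
      obtain y1 : Z j - Z 1 * S.fr 1 j - S.b 1 * Z 0 * S.fr 2 j =
          ∑ i ∈ Ico 1 j, S.fr (i + 1) j * q i := by linarith only [v]
      obtain y2 : exp (k.sl n) * (exp (k.sl n) * exp (k.sl n) * exp (k.W n + 12 * k.sl n)) ≤
          exp (k.W n + 16 * k.sl n) := by
        rw [← exp_add, ← exp_add, ← exp_add]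
        exact exp_le_exp.2 (by linarith only [s2])
      obtain y3 := mul_le_mul_of_nonneg_left y2 (show 0 ≤ ϖ ^ 2 * k.w j by (clear * - wj; positivity))
      rw [y1]
      refine ((abs_sum_le_sum_abs _ _).trans hS).trans ?_
      linarith only [y3]
    refine ⟨?_, R⟩
    obtain t1 : |Z 1 * S.fr 1 j| ≤ ϖ * (g * k.w j) := by
      rw [abs_mul]
      exact mul_le_mul z1 (h.fit.f1 j b1 b2) (abs_nonneg _) p0
    obtain t2 : |S.b 1 * Z 0 * S.fr 2 j| ≤ ϖ * (g * (1 / 2) * k.w j) := by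
      rw [show S.b 1 * Z 0 * S.fr 2 j = Z 0 * (S.b 1 * S.fr 2 j) by ring, abs_mul]
      exact mul_le_mul z0 ((b_fr2 hA h b1 b2).trans (mul_le_mul_of_nonneg_right
        (mul_le_mul_of_nonneg_left hb g0.le) wj.le)) (abs_nonneg _) p0
    have t3 := mul_le_mul_of_nonneg_right cl (mul_nonneg p0 wj.le)
    have t4 := mul_le_mul_of_nonneg_right g1 (mul_nonneg p0 wj.le)
    have t5 := abs_le.1 t1
    have t6 := abs_le.1 t2
    have t7 := abs_le.1 R
    rw [abs_le]
    constructor <;> linarith only [t3, t4, t5.1, t5.2, t6.1, t6.2, t7.1, t7.2]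

end SHD

theorem shd (K : ℕ) : Hier fun c => TA_s c → GEO_s K c → SHD_s K c := by
  refine SHD.num.mono fun c hN hA hG M t g S k n h => ⟨⟨SHD.nu_le hN hA h,
    fun m hm hmn => SHD.nu_sub hN hA h hm hmn⟩, fun S' h' ϖ z0 z1 hs => ?_⟩
  have H := fun l (h1 : 1 ≤ l) (h2 : l ≤ n) => SHD.main hN hA hG h h' z0 z1 hs h1 h2
  have p0 : 0 ≤ ϖ := (abs_nonneg _).trans z0
  obtain g0 : 0 ≤ g := by linarith only [h.g1]
  obtain ⟨a1, a2, -⟩ := hA k h.sk
  refine ⟨⟨by (clear * - g0 p0; positivity), p0, by simp, fun l h0 hl => ?_⟩, H, ?_⟩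
  · unfold Sk.mu
    rcases h0.eq_or_lt with rfl | h1
    · simpa [a2, Sk.chi] using z0
    · obtain x1 := (H l (by omega) hl).1
      obtain x2 := mul_le_mul_of_nonneg_left (a1 l (by omega)) (show 0 ≤ 2 * g * ϖ by (clear * - g0 p0; positivity))
      obtain x3 : 0 ≤ ϖ * exp (-k.chi 0 l / 4) := by (clear * - p0; positivity)
      linarith only [x1, x2, x3]
  · have x1 := (H n (h.sk.1.F_mem n h.hn).1 le_rfl).2
    have x2 := abs_pos.1 (SHD.fr_ne h h.hn le_rfl)
    refine le_of_eq_of_le ?_ x1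
    congr 1
    unfold Sq.nu1
    field_simp
    ring

end Pool.Agent.MP_9cbfe4_an

end

/-! ### Part FW5 -/

section

/-! Sub-row FW5 of J5: the forward formula over one step (helper28). -/

namespace Pool.Agent.MP_9cbfe4_an

open Finset Real

namespace FW5

variable {K : ℕ} {c : Cs} {M : Mdl} {t g : ℝ} {S : Sq} {k : Sk} {n : ℤ}

theorem chi_nonneg (h : k.OK1 c) (i j : ℤ) : 0 ≤ k.chi i j :=
  sum_nonneg fun l _ => le_trans (by norm_num) (h.ch_mem l).1

theorem E_pos (ta : TA_s c) (h : k.OK c) (m : ℤ) {i : ℤ} (h1 : 1 ≤ i) (h2 : i < k.N) : 0 < k.E m i := by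
  have a := (ta k h).2.2.2.2.2.2.2.2.2.2.2.1 m i h1 h2
  have b := h.1.w_pos i h1
  by_contra hn
  have := mul_nonpos_of_nonpos_of_nonneg (not_lt.1 hn) b.le
  linarith only [a, this]

theorem ew_nonneg (ta : TA_s c) (h : k.OK c) (a : ℤ) (ha1 : 1 ≤ a) (ha : a < k.N) {i : ℤ} (h1 : 1 ≤ i)
    (h2 : i < k.N) : 0 ≤ k.ew a i := by
  unfold Sk.ew
  split_ifs with p q
  · exact mul_nonneg (E_pos ta h _ ha1 ha).le (exp_pos _).le
  · refine le_min (E_pos ta h _ h1 h2).le (mul_nonneg (exp_pos _).le ?_)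
    have := (h.1.η_mem a q.2).1
    have := h.1.w_pos a ha1
    unfold Sk.V
    positivity
  · exact (E_pos ta h _ h1 h2).le

theorem Pb_le (f : Fit c g S k n) {i j : ℤ} (hi : 0 ≤ i) (hj : j ≤ n) : |S.Pb i j| ≤ k.PB i j := by
  obtain e : ∀ l ∈ Ioc i j, 0 ≤ S.b l ∧ S.b l ≤ k.B l := fun l hl =>
    f.b l (by have := (mem_Ioc.1 hl).1; omega) ((mem_Ioc.1 hl).2.trans hj)
  rw [Sq.Pb, abs_of_nonneg (prod_nonneg fun l hl => (e l hl).1)]
  exact prod_le_prod (fun l hl => (e l hl).1) fun l hl => (e l hl).2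

theorem one (ta : TA_s c) (h : OC K c M t g S k n) (g8 : g ≤ 8) {P Q : ℤ → ℝ}
    (hP : ∀ j, 1 ≤ j → j < n → P (j + 1) = S.a j * P j + S.b j * P (j - 1) + Q j)
    {l : ℤ} (l1 : 1 ≤ l) (ln : l ≤ n) :
    |P l| ≤ k.w l * (8 * (|P 1| + |P 0| + ∑ i ∈ Ico 1 l, k.E n i * |Q i|)) := by
  have nN := (h.sk.1.F_mem n h.hn).2
  have w0 := h.sk.1.w_pos l l1
  have g1 := h.g1
  obtain fE : ∀ i, 1 ≤ i → i < l → |S.fr (i + 1) l| ≤ 8 * (k.E n i * k.w l) := fun i a b => by
    refine (h.fit.fE n h.hn le_rfl i l a b ln).trans ?_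
    rw [mul_assoc]
    exact mul_le_mul_of_nonneg_right g8 (mul_pos (E_pos ta h.sk n a (by omega)) w0).le
  obtain h1 : |P 1 * S.fr 1 l| ≤ k.w l * (8 * |P 1|) := by
    rw [abs_mul]
    have := mul_le_mul_of_nonneg_left ((h.fit.f1 l l1 ln).trans
      (mul_le_mul_of_nonneg_right g8 w0.le)) (abs_nonneg (P 1))
    linarith only [this]
  obtain h2 : |S.b 1 * P (1 - 1) * S.fr (1 + 1) l| ≤ k.w l * (8 * |P 0|) := by
    rcases l1.eq_or_lt with rfl | l2
    · rw [S.fr_succ_self, mul_zero, abs_zero]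
      positivity
    · obtain ⟨b0, b1⟩ := h.fit.b 1 le_rfl (by omega)
      obtain e1 := (ta k h.sk).2.2.2.2.2.2.2.2.2.2.2.2.2.2.1 n (by omega)
      obtain e2 : exp (-(9 / 10) * c.bl) ≤ 1 :=
        exp_le_one_iff.2 (by linarith only [(h.sk.1.ch_mem 1).1, (h.sk.1.ch_mem 1).2])
      obtain e3 : S.b 1 * k.E n 1 ≤ 1 :=
        (mul_le_mul_of_nonneg_right b1 (E_pos ta h.sk n le_rfl (by omega)).le).trans (e1.trans e2)
      rw [abs_mul, abs_mul, abs_of_nonneg b0, sub_self]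
      calc S.b 1 * |P 0| * |S.fr (1 + 1) l| ≤ S.b 1 * |P 0| * (8 * (k.E n 1 * k.w l)) :=
            mul_le_mul_of_nonneg_left (fE 1 le_rfl l2) (by positivity)
        _ = S.b 1 * k.E n 1 * (k.w l * (8 * |P 0|)) := by ring
        _ ≤ _ := mul_le_of_le_one_left (by positivity) e3
  obtain h3 : |∑ i ∈ Ico 1 l, S.fr (i + 1) l * Q i| ≤ k.w l * (8 * ∑ i ∈ Ico 1 l, k.E n i * |Q i|) := by
    rw [mul_sum, mul_sum]
    refine (abs_sum_le_sum_abs _ _).trans (sum_le_sum fun i hi => ?_)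
    rw [abs_mul]
    have := mul_le_mul_of_nonneg_right (fE i (mem_Ico.1 hi).1 (mem_Ico.1 hi).2) (abs_nonneg (Q i))
    linarith only [this]
  rw [S.voc hP l1 ln]
  refine (abs_add_three _ _ _).trans ?_
  linarith only [h1, h2, h3]

theorem two (ta : TA_s c) (h : OC K c M t g S k n) (g8 : g ≤ 8) {P Q : ℤ → ℝ}
    (hP : ∀ j, 1 ≤ j → j < n → P (j + 1) = S.a j * P j + S.b j * P (j - 1) + Q j)
    {a : ℤ} (ha : a ∈ k.F) (an : a < n) {l : ℤ} (al : a < l) (la : l ≤ k.nx a) :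
    |S.fr (a + 1) l| ≤ 8 * k.ew a a * k.w l ∧
    |P l - S.fr 1 l * (P a / S.fr 1 a) - S.fr (a + 1) l * Q a| ≤
      k.w l * (2000 * (∑ i ∈ (Ico 1 (k.nx a)).erase a, k.ew a i * |Q i| + |P 0|)) := by
  have nN := (h.sk.1.F_mem n h.hn).2
  have a1 := (h.sk.1.F_mem a ha).1
  obtain ⟨xF, ax, xm⟩ := h.sk.1.nx_mem a (by omega)
  have xn := xm n h.hn an
  obtain w0 := h.sk.1.w_pos l (by omega)
  have wa := h.sk.1.w_pos a a1
  have g1 := h.g1
  obtain Ea := E_pos ta h.sk (k.nx a) a1 (by omega : a < k.N)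
  obtain ew0 : ∀ i, 1 ≤ i → i < k.nx a → 0 ≤ k.ew a i := fun i p q =>
    ew_nonneg ta h.sk a a1 (by omega) p (by omega)
  obtain fw : ∀ i, a ≤ i → i < l → |S.fr (i + 1) l| ≤ 8 * k.ew a i * k.w l := fun i p q => by
    refine le_trans ?_ (mul_le_mul_of_nonneg_right (mul_le_mul_of_nonneg_right g8
      (ew0 i (by omega) (by omega))) w0.le)
    obtain e1 := h.fit.fE _ xF xn i l (by omega) q la
    unfold Sk.ew
    rw [if_neg (not_lt.2 p)]
    split_ifs with r
    · have e2 := h.fit.fblk a r.2 an i l r.1 q la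
      rcases min_choice (k.E (k.nx a) i) (exp (k.chi a i / 100) * k.V a 1) with e | e <;> rw [e]
      · exact e1
      · rwa [← mul_assoc]
    · exact e1
  obtain ewa : k.ew a a = k.E (k.nx a) a := by simp [Sk.ew]
  refine ⟨fw a le_rfl al, ?_⟩
  have f2 : k.w a ≤ 8 * |S.fr 1 a| :=
    (h.fit.f2 a ha an.le).trans (mul_le_mul_of_nonneg_right g8 (abs_nonneg _))
  obtain x0 : 0 < |S.fr 1 a| := by linarith only [wa, f2]
  have hξ : ∀ j, 1 ≤ j → S.fr 1 (j + 1) = S.a j * S.fr 1 j + S.b j * S.fr 1 (j - 1) :=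
    fun j => S.fr_succ
  obtain e := Sq.fw_loc (S := S) (P := P) (Q := Q) (ξ := S.fr 1) al.le (abs_pos.1 x0)
    (fun j p q => hP j (by omega) (by omega)) fun j p _ => hξ j (by omega)
  obtain e' : Ico a l = insert a (Ico (a + 1) l) := by
    ext i; simp only [mem_Ico, mem_insert]; omega
  rw [e', sum_insert (by simp)] at e
  obtain hW := Sq.Wr_le (S := S) (P := P) (Q := Q) (ξ := S.fr 1) a1 (B := fun i => k.PB i a)
    (w := fun i => 8 * k.w i) (q := fun i => |Q i|) (fun j p q => hP j p (by omega))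
    (fun j p _ => hξ j p) (fun i p _ => Pb_le h.fit (by omega) an.le)
    (fun i p q => (h.fit.f1 i p (by omega)).trans
      (mul_le_mul_of_nonneg_right g8 (h.sk.1.w_pos i p).le)) fun _ _ _ => le_rfl
  obtain ⟨b0, b1⟩ := h.fit.b 1 le_rfl (by omega)
  obtain W1 : |S.Wr P (S.fr 1) 1| = S.b 1 * |P 0| := by
    rw [Sq.Wr, S.fr_pred, S.fr_self, abs_mul, abs_of_nonneg b0]
    simp
  -- the start term
  obtain st : k.E (k.nx a) a * (|S.Pb 1 a| * S.b 1) ≤ 4 * k.w a := by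
    obtain ⟨i1, i2⟩ := h.sk.2.i2 a ha 1 le_rfl a1
    rw [h.sk.1.w1] at i1 i2
    rw [mul_one] at i1
    have t1 := ((ta k h.sk).2.2.2.2.2.2.2.2.2.2.2.2.2.1 _ xF a a1 ax).2.1
    rw [(ta k h.sk).2.2.1 a ha] at t1
    obtain c1 : k.chi 0 a = c.bl + k.chi 1 a := by
      rw [Sk.chi, sum_Ioc_add _ zero_le_one a1, ← h.sk.1.ch_one.1]
      congr 1
      rw [show (1 : ℤ) = 0 + 1 from rfl, Ioc_succ_self, sum_singleton]
    obtain t2 : k.E (k.nx a) a * k.w a ≤ exp (k.chi 0 a / 100) := by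
      rwa [neg_div, exp_neg, ← div_eq_mul_inv, div_le_one (exp_pos _)] at t1
    obtain t3 : k.E (k.nx a) a ≤ 2 * exp (k.chi 1 a / 100) * exp (k.chi 0 a / 100) :=
      calc k.E (k.nx a) a ≤ k.E (k.nx a) a * (2 * exp (k.chi 1 a / 100) * k.w a) :=
            le_mul_of_one_le_right Ea.le i2
        _ = 2 * exp (k.chi 1 a / 100) * (k.E (k.nx a) a * k.w a) := by ring
        _ ≤ _ := mul_le_mul_of_nonneg_left t2 (by positivity)
    obtain t4 : |S.Pb 1 a| * S.b 1 ≤ 2 * exp (-(99 / 100) * k.chi 1 a) * k.w a * exp (-c.bl) :=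
      mul_le_mul ((Pb_le h.fit zero_le_one an.le).trans i1) (b1.trans_eq h.sk.1.ch_one.2) b0
        (by positivity)
    obtain t5 : exp (k.chi 1 a / 100 + k.chi 0 a / 100 + -(99 / 100) * k.chi 1 a + -c.bl) ≤ 1 :=
      exp_le_one_iff.2 (by
        linarith only [c1, chi_nonneg h.sk.1 1 a, (h.sk.1.ch_mem 1).1, (h.sk.1.ch_mem 1).2])
    calc _ ≤ 2 * exp (k.chi 1 a / 100) * exp (k.chi 0 a / 100) *
          (2 * exp (-(99 / 100) * k.chi 1 a) * k.w a * exp (-c.bl)) :=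
          mul_le_mul t3 t4 (by (clear * - b0; positivity)) (by positivity)
      _ = exp (k.chi 1 a / 100 + k.chi 0 a / 100 + -(99 / 100) * k.chi 1 a + -c.bl) * (4 * k.w a) := by
          simp only [exp_add]; ring
      _ ≤ _ := mul_le_of_le_one_left (by positivity) t5
  obtain hW2 : k.E (k.nx a) a * |S.Wr P (S.fr 1) a| ≤
      k.w a * (4 * |P 0| + 16 * ∑ i ∈ Ico 1 a, k.ew a i * |Q i|) := by
    refine (mul_le_mul_of_nonneg_left hW Ea.le).trans ?_
    rw [W1, mul_add, mul_add, mul_sum, mul_sum, mul_sum]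
    refine add_le_add ?_ (sum_le_sum fun i hi => ?_)
    · have := mul_le_mul_of_nonneg_right st (abs_nonneg (P 0))
      linarith only [this]
    · obtain ⟨p, q⟩ := mem_Ico.1 hi
      obtain i1 := mul_le_mul_of_nonneg_left (h.sk.2.i2 a ha i p q.le).1
        (show 0 ≤ k.E (k.nx a) a * (8 * |Q i|) by positivity)
      rw [Sk.ew, if_pos q]
      linarith only [i1]
  obtain h1 : |S.fr (a + 1) l * (S.Wr P (S.fr 1) a / S.fr 1 a)| ≤
      k.w l * (64 * (4 * |P 0| + 16 * ∑ i ∈ Ico 1 a, k.ew a i * |Q i|)) := by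
    have s0 : 0 ≤ ∑ i ∈ Ico 1 a, k.ew a i * |Q i| := sum_nonneg fun i hi =>
      mul_nonneg (ew0 i (mem_Ico.1 hi).1 ((mem_Ico.1 hi).2.trans ax)) (abs_nonneg _)
    rw [abs_mul, abs_div, ← mul_div_assoc, div_le_iff₀ x0]
    have f := fw a le_rfl al
    rw [ewa] at f
    calc _ ≤ 8 * k.E (k.nx a) a * k.w l * |S.Wr P (S.fr 1) a| :=
          mul_le_mul_of_nonneg_right f (abs_nonneg _)
      _ = 8 * k.w l * (k.E (k.nx a) a * |S.Wr P (S.fr 1) a|) := by ring
      _ ≤ 8 * k.w l * (8 * |S.fr 1 a| * (4 * |P 0| + 16 * ∑ i ∈ Ico 1 a, k.ew a i * |Q i|)) :=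
          mul_le_mul_of_nonneg_left (hW2.trans (mul_le_mul_of_nonneg_right f2 (by (clear * - s0; positivity))))
            (by positivity)
      _ = _ := by ring
  obtain h2 : |∑ i ∈ Ico (a + 1) l, S.fr (i + 1) l * Q i| ≤
      k.w l * (8 * ∑ i ∈ Ico (a + 1) l, k.ew a i * |Q i|) := by
    rw [mul_sum, mul_sum]
    refine (abs_sum_le_sum_abs _ _).trans (sum_le_sum fun i hi => ?_)
    rw [abs_mul]
    obtain this := mul_le_mul_of_nonneg_right (fw i (by have := (mem_Ico.1 hi).1; omega) (mem_Ico.1 hi).2)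
      (abs_nonneg (Q i))
    linarith only [this]
  have sub : ∀ T ⊆ (Ico 1 (k.nx a)).erase a,
      ∑ i ∈ T, k.ew a i * |Q i| ≤ ∑ i ∈ (Ico 1 (k.nx a)).erase a, k.ew a i * |Q i| := fun T hT =>
    sum_le_sum_of_subset_of_nonneg hT fun i hi _ =>
      mul_nonneg (ew0 i (mem_Ico.1 (mem_erase.1 hi).2).1 (mem_Ico.1 (mem_erase.1 hi).2).2)
        (abs_nonneg _)
  have s0 := sub ∅ (empty_subset _)
  rw [sum_empty] at s0
  obtain s1 := sub (Ico 1 a) fun i hi => by
    simp only [mem_Ico, mem_erase] at hi ⊢; omega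
  obtain s2 := sub (Ico (a + 1) l) fun i hi => by
    simp only [mem_Ico, mem_erase] at hi ⊢; omega
  rw [show P l - S.fr 1 l * (P a / S.fr 1 a) - S.fr (a + 1) l * Q a =
    ∑ i ∈ Ico (a + 1) l, S.fr (i + 1) l * Q i - S.fr (a + 1) l * (S.Wr P (S.fr 1) a / S.fr 1 a) by
      linarith only [e]]
  refine (abs_sub _ _).trans ((add_le_add h2 h1).trans ?_)
  rw [← mul_add]
  exact mul_le_mul_of_nonneg_left (by linarith only [s0, s1, s2, abs_nonneg (P 0)]) w0.le

end FW5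

theorem fw5 : ∀ K, Hier fun c => TA_s c → FW5_s K c := fun _ =>
  Hier.of_all fun _ ta _ _ _ _ _ _ h g8 _ _ hP =>
    ⟨fun _ l1 ln => FW5.one ta h g8 hP l1 ln, fun _ ha an _ al la => FW5.two ta h g8 hP ha an al la⟩

end Pool.Agent.MP_9cbfe4_an

end

/-! ### Part NUM5 -/

section

/-! Row NUM5: the numbers of J5. -/

namespace Pool.Agent.MP_9cbfe4_an

open Finset Filter Topology Real

namespace NUM5

theorem yy {w b e θ T1 T2 T3 : ℝ} (hw : 0 ≤ w) (hb : 0 ≤ b) (he : 1 ≤ e) (h0 : 0 ≤ θ) (h1 : θ ≤ 1)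
    (p1 : 0 ≤ T1) (p2 : 0 ≤ T2) (p3 : 0 ≤ T3) (a : T1 ^ 2 * w ≤ e * (T2 + b * T1))
    (a' : T1 * T2 * w ≤ e * (T3 + b * T2)) :
    (w * T1 + b) * (w * T1 + θ * b) ≤ 3 * e * (w * (T2 + b * T1) + θ * b ^ 2) ∧
    (w * T1 + b) * (w * (T2 + b * T1) + b ^ 2) ≤
      3 * e * (w * (T3 + b * T2 + b ^ 2 * T1) + b ^ 3) := by
  obtain e1 : 0 ≤ e - 1 := by linarith only [he]
  have q1 := mul_le_mul_of_nonneg_left a hw
  have q2 := mul_le_mul_of_nonneg_left a' hw
  have q3 := mul_le_mul_of_nonneg_left q1 hb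
  obtain r1 : 0 ≤ w * b * T1 := by positivity
  obtain r2 : 0 ≤ w * T2 := by positivity
  obtain r3 : 0 ≤ θ * b ^ 2 := by positivity
  obtain r4 : 0 ≤ w * T3 := by positivity
  obtain r5 : 0 ≤ w * b * T2 := by positivity
  obtain r6 : 0 ≤ w * b ^ 2 * T1 := by positivity
  obtain r7 : 0 ≤ b ^ 3 := by positivity
  constructor
  · have := mul_nonneg e1 r1
    have := mul_nonneg e1 r2
    have := mul_nonneg e1 r3
    have := mul_le_mul_of_nonneg_left h1 r1
    (rename_i zq2 zq1 zq0; linarith only [q1, r2, r3, zq2, zq1, zq0, this])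
  · have := mul_nonneg e1 r4
    have := mul_nonneg e1 r5
    have := mul_nonneg e1 r6
    have := mul_nonneg e1 r7
    (rename_i zq2 zq1 zq0; linarith only [q2, q3, r4, r7, zq2, zq1, zq0, this])

theorem main (K : ℕ) (c : Cs) (hκ : 0 < c.κ) (hCG : 1 ≤ c.CG) (h1 : c.CG ≤ c.L)
    (h2 : 10 ^ 20 ≤ c.L) (h3 : 1 ≤ c.lam) (hT : TA_s c) : NUM5_s K c := by
  rintro d ⟨hK, -, H⟩
  have ok := H.jc.oc.sk.1
  have hm := H.jc.oc.hn
  obtain hK' : (3 : ℝ) ≤ K := by exact_mod_cast hK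
  have hγ := H.hγ
  have hG := H.hG
  have m1 := (ok.F_mem _ hm).1
  have s1 := ok.sl1
  have s2 := ok.sl_mono 1 d.m le_rfl m1
  obtain s3 : 2 * d.k.sl d.m ≤ d.ls := by
    have := H.hls
    obtain this := mul_nonneg hκ.le (show 0 ≤ d.k.sl d.m by linarith only [h3, s1, s2])
    unfold Cs.ck at *
    (rename_i zq0; linarith only [zq0, this])
  obtain l0 : 0 < d.ls := by linarith only [h3, s1, s2, s3]
  obtain hA : 40 * d.γ + 900 ≤ gm5 K d.γ / 1000 := by
    unfold gm5 g2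
    linarith only [hK', hγ, mul_nonneg (show (0 : ℝ) ≤ K - 3 by linarith only [hK']) (show 0 ≤ d.γ + K by linarith only [hK', hγ])]
  have hS : ∀ x, x ≤ (40 * d.γ + 900) * d.ls → exp x ≤ d.S K := fun x hx =>
    exp_le_exp.2 (hx.trans (mul_le_mul_of_nonneg_right hA l0.le))
  have gl : d.ls ≤ d.γ * d.ls := le_mul_of_one_le_left l0.le hγ
  have Gl : 0 ≤ d.G * d.ls := mul_nonneg hG l0.le
  obtain ml : 900 * d.ls ≤ gm5 K d.γ * d.ls := mul_le_mul_of_nonneg_right (by linarith only [hγ, hA]) l0.le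
  obtain hL : exp c.lam = c.L := exp_log (by linarith only [h2])
  have hBm : d.B < d.m := (ok.nx_mem _ (ok.D_mem _ H.hB.1).2).2.1.trans_le H.hB.2
  have B1 := (ok.F_mem _ (ok.D_mem _ H.hB.1).1).1
  have θ0 : 0 < d.θ K := exp_pos _
  obtain θ1 : d.θ K ≤ 1 := exp_le_one_iff.2 (by linarith only [h3, s1, s2, s3, Gl, ml])
  obtain eS : d.S K ^ 500 = exp (gm5 K d.γ / 2 * d.ls) := by
    rw [D5.S, ← exp_nat_mul]
    congr 1
    push_cast
    ring
  have η0 : 0 < d.η := (ok.η_mem _ H.hst.1).1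
  obtain ηθ : d.η ≤ d.θ K ^ 2 := by
    refine H.heavy.trans_eq ?_
    rw [D5.θ, ← exp_nat_mul]
    congr 1
    push_cast
    ring
  have wb1 : 1 ≤ d.wb := one_le_exp (ok.W1 ▸ ok.W_mono 1 d.m le_rfl m1)
  obtain be1 : 1 ≤ d.θ K * d.be := by
    obtain a1 : d.θ K ^ 2 ≤ d.θ K := by nlinarith only [θ0, θ1]
    obtain a2 : d.η ^ 2 ≤ d.θ K := by nlinarith only [a1, θ1, ηθ, η0]
    change 1 ≤ d.θ K * (1 / d.η ^ 2)
    rw [mul_one_div, le_div_iff₀ (by positivity)]
    linarith only [a2]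
  obtain be0 : 0 ≤ d.be := by unfold D5.be; positivity
  have be2 : 1 ≤ d.be := be1.trans (mul_le_of_le_one_left be0 θ1)
  have p1 := H.pos 1
  have p2 := H.pos 2
  have p3 := H.pos 3
  obtain U0 : ∀ a, 0 ≤ d.U a := fun a => by
    rcases a with _ | _ | _ | a
    · exact le_rfl
    · exact p1
    · change 0 ≤ d.T 2 + d.be * d.T 1
      (clear * - p2 be2 p1; positivity)
    · change 0 ≤ d.T 3 + d.be * d.T 2 + d.be ^ 2 * d.T 1
      (clear * - p3 be2 p2 p1; positivity)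
  obtain S3 : 3 * exp (d.γ * d.ls) ≤ d.S K := by
    refine le_trans ?_ (hS (d.ls + d.γ * d.ls) (by linarith only [h3, s1, s2, s3, gl]))
    rw [exp_add]
    exact mul_le_mul_of_nonneg_right (by linarith only [h3, s1, s2, s3, add_one_le_exp d.ls]) (exp_pos _).le
  obtain e1 : 1 ≤ exp (d.γ * d.ls) := one_le_exp (by linarith only [h3, s1, s2, s3, gl])
  obtain t11 : d.T 1 ^ 2 * d.wb ≤ exp (d.γ * d.ls) * (d.T 2 + d.be * d.T 1) := by
    rw [D5.be, one_div, ← div_eq_inv_mul]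
    exact H.t11
  obtain t12 : d.T 1 * d.T 2 * d.wb ≤ exp (d.γ * d.ls) * (d.T 3 + d.be * d.T 2) := by
    rw [D5.be, one_div, ← div_eq_inv_mul]
    exact H.t12
  obtain w0 : 0 ≤ d.wb := by linarith only [wb1]
  have y1 := yy w0 be0 e1 zero_le_one le_rfl p1 p2 p3 t11 t12
  have y2 := (yy w0 be0 e1 θ0.le θ1 p1 p2 p3 t11 t12).1
  have Y0 : ∀ a, 0 ≤ d.Y a := fun a => add_nonneg (mul_nonneg w0 (U0 a)) (pow_nonneg be0 a)
  have Ym0 : ∀ a, 0 ≤ d.Ym K a := fun a =>
    add_nonneg (mul_nonneg w0 (U0 a)) (mul_nonneg θ0.le (pow_nonneg be0 a))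
  refine
    { big := hS _ le_rfl
      big' := ?_
      S1 := h2.trans (hL ▸ hS _ (by linarith only [h3, s1, s2, s3, gl]))
      m1 := by omega
      sl := ⟨s3, by linarith only [s1, s2, s3], h3⟩
      θ0 := θ0
      θS := ⟨?_, exp_le_one_iff.2 (by linarith only [Gl])⟩
      ϖ0 := (abs_nonneg _).trans (H.near 0 (by norm_num)).1
      κ := ?_
      η0 := η0
      ηθ := ηθ
      wb1 := wb1
      be1 := be1
      U0 := U0
      TU := fun a h h' => ?_
      YY := ⟨?_, ?_, ?_⟩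
      Ym := fun a h => ⟨?_, ?_, ?_⟩
      mem := fun x => ?_
      w := fun l h h' => ?_ }
  · obtain a1 : (1 : ℝ) ≤ d.m := by exact_mod_cast m1
    obtain a2 : (d.m : ℝ) ≤ exp (d.k.sl d.m) := le_trans (by nlinarith only [a1]) (ok.time _ hm)
    refine le_trans ?_ (hS (c.lam + (c.lam + c.lam) + d.k.sl d.m) (by linarith only [h3, s1, s2, s3, gl]))
    rw [exp_add, exp_add, exp_add, hL]
    (clear * - h2 h1 hCG a2 m1; gcongr)
  · rw [eS, D5.θ, ← exp_add]
    congr 1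
    ring
  · rw [eS]
    refine (mul_le_mul_of_nonneg_right H.small (exp_pos _).le).trans_eq ?_
    rw [D5.θ, ← exp_add]
    congr 1
    ring
  · interval_cases a
    · exact le_rfl
    · exact le_add_of_nonneg_right (mul_nonneg be0 p1)
    · change _ ≤ d.T 3 + d.be * d.T 2 + d.be ^ 2 * d.T 1
      linarith only [mul_nonneg be0 p2, mul_nonneg (pow_nonneg be0 2) p1]
  · refine le_trans ?_ (mul_le_mul_of_nonneg_right S3 (Y0 2))
    simpa only [D5.Y, D5.U, pow_one, one_mul] using y1.1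
  · refine le_trans ?_ (mul_le_mul_of_nonneg_right S3 (Y0 3))
    simpa only [D5.Y, D5.U, pow_one, one_mul] using y1.2
  · refine le_trans ?_ (mul_le_mul_of_nonneg_right S3 (Ym0 2))
    simpa only [D5.Y, D5.Ym, D5.U, pow_one, one_mul] using y2
  · exact (be1.trans (mul_le_mul_of_nonneg_left (le_self_pow₀ be2 (by omega)) θ0.le)).trans
      (le_add_of_nonneg_left (mul_nonneg w0 (U0 a)))
  · exact add_le_add le_rfl (mul_le_of_le_one_left (pow_nonneg be0 a) θ1)
  · rw [D5.Y, mul_add]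
    exact add_le_add (mul_le_of_le_one_left (mul_nonneg w0 (U0 a)) θ1) le_rfl
  · rw [D5.D', Sk.D', mem_filter]
    refine ⟨fun h => ⟨h.1, h.2.1.trans_lt hBm, h.2.2⟩, fun h => ⟨h.1, ?_, h.2.2⟩⟩
    by_contra hx
    have a1 := H.light x h.1 (not_le.1 hx) h.2.1
    obtain ⟨a2, a3⟩ := ok.η_mem x h.1
    obtain a4 : d.k.η x ^ 7 ≤ d.k.η x ^ 2 := pow_le_pow_of_le_one a2.le a3 (by norm_num)
    have a5 := mul_le_mul_of_nonneg_left (a4.trans (h.2.2.trans H.heavy)) (exp_pos d.ls).le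
    rw [div_le_iff₀ (by positivity)] at a1
    rw [← exp_add] at a5
    have := one_le_exp_iff.1 (a1.trans a5)
    linarith only [h3, s1, s2, s3, Gl, ml, this]
  · refine ((hT d.k H.jc.oc.sk).2.2.2.2.2.2.2.2.2.1 d.m hm l h h').1.trans ?_
    rw [exp_add, mul_comm]
    exact mul_le_mul_of_nonneg_right (hS _ (by linarith only [h3, s1, s2, s3, gl])) (exp_pos _).le

end NUM5

theorem num5 : ∀ K, Hier fun c => TA_s c → NUM5_s K c := fun K =>
  (((Hier.base.and (Hier.L_ge (fun c => c.CG) fun _ _ => rfl)).and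
    (Hier.L_ge (fun _ => 10 ^ 20) fun _ _ => rfl)).and
    (Hier.lam_ge (fun _ => 1) fun _ _ => rfl)).mono fun c h =>
      NUM5.main K c h.1.1.1.2.2.2.2.1 h.1.1.1.2.2.2.2.2 h.1.1.2 h.1.2 h.2

end Pool.Agent.MP_9cbfe4_an

end

/-! ### Part Z05 -/

section

/-! Sub-row Z05 of J5: the difference of the two leaves at order zero. -/

namespace Pool.Agent.MP_9cbfe4_an

open Finset Real

namespace Z05

variable {K : ℕ} {c : Cs} {M : Mdl} {σ : Seed} {t g : ℝ} {S : Sq} {k : Sk} {n : ℤ}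

theorem o2 (hb : SOK.Big c) (hM : M.OK c) (h : σ.At K c t) : O2 c M t (σ.orb M t) := by
  have hL := hb.L
  refine ⟨h.t0, h.t1, SOK.isOrb hM ⟨h.t0.le, h.t1.le⟩ 1 _ (h.bv.trans (by linarith only [hL]))
    (h.bc.trans (by linarith only [hL])) fun h1 _ => absurd h.far (by simp only [not_le]; linarith only [h1]), ?_, ?_⟩
  · simpa [Seed.orb, Mdl.orb, Mdl.pos] using h.bc
  · simpa [Seed.orb, Mdl.orb, Mdl.pos] using h.bv

theorem pj_zero (j : ℕ) : σ.pj M t j 0 = iteratedDeriv j σ.c t := by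
  unfold Seed.pj
  congr 1

theorem pj_one (j : ℕ) : σ.pj M t j 1 = iteratedDeriv j σ.v t := by
  unfold Seed.pj
  congr 1

theorem ck_le {γ : ℝ} (h : c.Bud K γ) (hκ : 0 < c.κ) : 100 * c.ck ≤ c.C0 := by
  obtain k2 : 2 ≤ c.ck := by unfold Cs.ck; linarith only [hκ]
  have K0 : (0 : ℝ) ≤ K := Nat.cast_nonneg _
  obtain a1 : c.ck ≤ c.Cg := by unfold Cs.Cg; nlinarith only [k2]
  obtain a2 : c.Cg ≤ c.Cg ^ (K + 3) := le_self_pow₀ (by linarith only [k2, a1]) (by omega)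
  obtain a3 : c.Cg ^ (K + 3) ≤ c.gm γ (K + 3) :=
    le_mul_of_one_le_left (by linarith only [k2, a1, a2]) (by linarith only [h.1])
  have a4 := h.2
  nlinarith only [k2, a1, a2, a3, a4]

/-- the stable solution through the time `0` -/
theorem nu_l (hbl : 200 ≤ c.bl) (hκ : 0 < c.κ) (hC : 100 * c.ck ≤ c.C0) (hA : TA_s c)
    (h : OC K c M t g S k n) (g8 : g ≤ 8) {l : ℤ} (l1 : 1 ≤ l) (ln : l ≤ n) :
    |S.nu1 n * S.fr 1 l + S.b 1 * S.fr 2 l| ≤ exp (-(2 / 5) * k.chi 0 l) := by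
  have o := h.sk.1
  have u0 := SHD.fr_ne h h.hn le_rfl
  have a1 := abs_pos.1 u0
  rcases ln.eq_or_lt with rfl | hlt
  · obtain e : S.nu1 l * S.fr 1 l + S.b 1 * S.fr 2 l = 0 := by
      unfold Sq.nu1
      field_simp
      ring
    rw [e, abs_zero]; positivity
  have g1 := h.g1
  obtain g0 : 0 < g := by linarith only [g1]
  have nN := (o.F_mem n h.hn).2
  have wl := o.w_pos l l1
  obtain E := S.euler_sgn (ξ := S.fr 1) l1 ln fun j h3 _ => S.fr_succ (by omega)
  rw [S.fr_self, show (1 : ℤ) + 1 = 2 by ring] at E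
  obtain e1 : S.nu1 n * S.fr 1 l + S.b 1 * S.fr 2 l =
      -(S.b 1 * ((-1) ^ (l - 1).toNat * S.Pb 1 l * S.fr (l + 1) n)) / S.fr 1 n := by
    unfold Sq.nu1
    field_simp
    linear_combination (-S.b 1) * E
  have bb : ∀ j ∈ Ioc 1 l, 0 ≤ S.b j ∧ S.b j ≤ k.B j := fun j hj =>
    h.fit.b j (mem_Ioc.1 hj).1.le ((mem_Ioc.1 hj).2.trans ln)
  have p0 : 0 ≤ S.Pb 1 l := prod_nonneg fun j hj => (bb j hj).1
  have p1 : S.Pb 1 l ≤ k.PB 1 l := prod_le_prod (fun j hj => (bb j hj).1) fun j hj => (bb j hj).2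
  obtain i1 := h.sk.2.d4 1 l le_rfl l1 (by omega)
  rw [o.w1, mul_one] at i1
  obtain ⟨b0, b1⟩ := h.fit.b 1 le_rfl (by omega)
  rw [o.ch_one.2] at b1
  obtain ⟨a0, -, -, -, -, -, a7, -, -, -, -, a12, -, a14, -⟩ := hA k h.sk
  have a := (a14 n h.hn l l1 hlt).2.1
  obtain hE : 0 ≤ k.E n l := by
    obtain this := a12 n l l1 (by omega)
    by_contra hn
    have := mul_neg_of_neg_of_pos (not_le.1 hn) wl
    linarith
  have hc := SHD.chi01 k l1
  rw [o.ch_one.1] at hc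
  obtain c0 : 0 ≤ k.chi 1 l := sum_nonneg fun j _ => by linarith only [(o.ch_mem j).1]
  obtain k2 : 2 ≤ c.ck := by unfold Cs.ck; linarith only [hκ]
  obtain hσ : k.σ l ≤ k.chi 0 l / 100 := by
    obtain s := (a7 l l1 (by omega)).2
    obtain s2 : 100 * c.ck * k.chi 0 l ≤ c.C0 * k.chi 0 l :=
      mul_le_mul_of_nonneg_right hC (by linarith only [hbl, hc, c0])
    obtain s3 : c.C0 * k.σ l ≤ c.C0 * (k.chi 0 l / 100) := by linarith only [s, s2]
    exact le_of_mul_le_mul_left s3 (by linarith only [hC, k2])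
  obtain f1 : |S.fr (l + 1) n| ≤ g * k.E n l * (g * |S.fr 1 n|) :=
    (h.fit.fE n h.hn le_rfl l n l1 hlt le_rfl).trans
      (mul_le_mul_of_nonneg_left (h.fit.f2 n h.hn le_rfl) (by (clear * - g1 hE; positivity)))
  obtain f3 : k.E n l * k.w l ≤ exp (k.chi 0 l / 100) := by
    obtain x2 : exp (k.chi 0 l / 100) * exp (-k.chi 0 l / 100) = 1 := by
      rw [← exp_add, ← exp_zero]; congr 1; ring
    have x3 := exp_pos (-k.chi 0 l / 100)
    refine le_of_mul_le_mul_right ?_ x3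
    rw [x2]
    exact (mul_le_mul_of_nonneg_right (mul_le_mul_of_nonneg_left (a0 l l1) hE) x3.le).trans a
  rw [e1, abs_div, abs_neg, abs_mul, abs_mul, abs_mul, abs_pow, abs_neg, abs_one, one_pow,
    one_mul, abs_of_nonneg b0, abs_of_nonneg p0, div_le_iff₀ u0]
  obtain f5 := mul_le_mul b1 (mul_le_mul (p1.trans i1) f1 (abs_nonneg _) (by positivity))
    (by (clear * - p0; positivity)) (exp_pos _).le
  refine f5.trans ?_
  obtain f6 : g ^ 2 ≤ exp (c.bl / 2) := SHD.le_exp (by nlinarith only [hbl, g8, g1])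
  obtain f7 : exp (c.bl / 2) * exp (k.chi 0 l / 100) *
      (exp (-c.bl) * exp (k.σ l) * exp (-k.chi 1 l / 2)) ≤ exp (-(2 / 5) * k.chi 0 l) := by
    rw [← exp_add, ← exp_add, ← exp_add, ← exp_add]
    exact exp_le_exp.2 (by linarith only [hbl, hc, c0, hσ])
  obtain f8 := (mul_le_mul_of_nonneg_right (mul_le_mul f6 f3 (by (clear * - hE wl; positivity)) (exp_pos _).le)
    (by positivity)).trans f7
  have f9 := mul_le_mul_of_nonneg_right f8 u0.le
  linarith only [f9]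

theorem main (hb : SOK.Big c) (hbl : 200 ≤ c.bl) (hκ : 0 < c.κ) (hA : TA_s c) (hS : SHD_s K c) :
    Z05_s K c := by
  intro d H N
  obtain ⟨-, bud, J⟩ := H
  have oc := J.jc.oc
  have o := oc.sk.1
  have g1 := oc.g1
  have g8 := J.g8
  have ϖ0 := N.ϖ0
  have S1 := N.S1
  have θ0 := N.θ0
  have wb1 := N.wb1
  obtain ini : ∀ a, a ≤ 3 → |d.z a 0| ≤ d.ϖ ∧ |d.z a 1| ≤ d.ϖ := fun a ha => by
    unfold D5.z
    rw [pj_zero, pj_zero, pj_one, pj_one]
    exact ⟨(J.near a ha).2, (J.near a ha).1⟩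
  have z0 : d.z 0 0 = d.σ'.c d.t - d.σ.c d.t := rfl
  have z1 : d.z 0 1 = d.σ'.v d.t - d.σ.v d.t := rfl
  obtain sl0 : 0 ≤ d.k.sl d.m := by
    linarith only [o.sl1, o.sl_mono 1 d.m le_rfl N.m1.le, N.sl.2.2]
  obtain eS : exp (20 * d.k.sl d.m) ≤ d.S K := by
    refine le_trans (exp_le_exp.2 ?_) N.big
    nlinarith only [sl0, N.sl.1, J.hγ]
  obtain S2 : d.S K * d.S K ≤ d.S K ^ 500 := by
    rw [← sq]; exact pow_le_pow_right₀ (by linarith only [S1]) (by norm_num)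
  obtain θ1 : d.θ K ≤ 1 := by
    have a := N.θS.1.trans_le N.θS.2
    obtain b : (1 : ℝ) ≤ d.S K ^ 500 := one_le_pow₀ (by linarith only [S1])
    nlinarith only [S1, a, θ0, S2]
  obtain pw : 0 ≤ d.ϖ * d.wb := by positivity
  have κ2 : d.ϖ * d.wb * (d.S K * d.S K) ≤ d.θ K := (mul_le_mul_of_nonneg_left S2 pw).trans N.κ
  obtain κ1 : d.ϖ * d.wb * d.S K ≤ d.θ K / 10 ^ 20 := by
    obtain this : 0 ≤ d.ϖ * d.wb * d.S K := by (clear * - ϖ0 wb1 S1; positivity)
    rw [le_div_iff₀ (by norm_num)]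
    nlinarith only [κ2, S1, this]
  obtain sm : d.ϖ * exp (d.k.W d.m) ≤ exp (-20 * d.k.sl d.m) := by
    obtain x : exp (-20 * d.k.sl d.m) * exp (20 * d.k.sl d.m) = 1 := by
      rw [← exp_add, ← exp_zero]; congr 1; ring
    refine le_of_mul_le_mul_right ?_ (exp_pos (20 * d.k.sl d.m))
    rw [x]
    have := mul_le_mul_of_nonneg_left eS pw
    change d.ϖ * d.wb * _ ≤ 1
    linarith only [θ1, κ1, this]
  obtain ⟨⟨nu, -⟩, sh⟩ := hS d.M d.t d.g _ d.k d.m oc
  obtain ⟨-, lin, -⟩ := sh _ (o2 hb oc.ok.ok J.at') d.ϖ (ini 0 (by omega)).1 (ini 0 (by omega)).2 sm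
  obtain w0 : ∀ l, 0 ≤ l → 0 ≤ d.k.w l := fun l hl => by
    rcases hl.eq_or_lt with rfl | hl
    · rw [o.w0]
    · exact (o.w_pos l hl).le
  obtain cr : ∀ l, 1 ≤ l → l ≤ d.m → |d.z 0 l| ≤ 16 * d.ϖ * d.k.w l := fun l l1 lm =>
    (lin l l1 lm).1.trans (mul_le_mul_of_nonneg_right
      (mul_le_mul_of_nonneg_right (by linarith only [g8]) ϖ0) (w0 l (by omega)))
  obtain sh : ∀ l, 0 ≤ l → l ≤ d.m → |d.z 0 l - d.δ * d.O.fr 1 l| ≤
      d.ϖ * (d.θ K * d.k.w l + exp (-(2 / 5) * d.k.chi 0 l)) := fun l l0 lm => by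
    rcases l0.eq_or_lt with rfl | l1
    · rw [d.O.fr_lt (by norm_num), o.w0]
      simpa [Sk.chi] using (ini 0 (by omega)).1
    have a := (lin l l1 lm).2
    have b := nu_l hbl hκ (ck_le bud hκ) hA oc g8 l1 lm
    have wl := w0 l l0
    obtain e : d.z 0 l - d.δ * d.O.fr 1 l =
        (d.z 0 l - d.z 0 1 * d.O.fr 1 l - d.O.b 1 * d.z 0 0 * d.O.fr 2 l)
          + d.z 0 0 * (d.O.nu1 d.m * d.O.fr 1 l + d.O.b 1 * d.O.fr 2 l) := by
      rw [z0, z1]; unfold D5.δ; ring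
    obtain a2 : d.ϖ ^ 2 * exp (d.k.W d.m + 16 * d.k.sl d.m) ≤ d.ϖ * d.θ K := by
      obtain x : exp (16 * d.k.sl d.m) ≤ d.S K := (exp_le_exp.2 (by linarith only [sl0])).trans eS
      have y := mul_le_mul_of_nonneg_left x pw
      obtain z : d.ϖ * d.wb * exp (16 * d.k.sl d.m) ≤ d.θ K := by linarith only [θ0, κ1, y]
      have := mul_le_mul_of_nonneg_left z ϖ0
      rw [exp_add]
      change d.ϖ ^ 2 * (d.wb * _) ≤ _
      linarith only [this]
    have a3 := a.trans (mul_le_mul_of_nonneg_right a2 wl)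
    obtain b2 : |d.z 0 0 * (d.O.nu1 d.m * d.O.fr 1 l + d.O.b 1 * d.O.fr 2 l)| ≤
        d.ϖ * exp (-(2 / 5) * d.k.chi 0 l) := by
      rw [abs_mul]
      exact mul_le_mul (ini 0 (by omega)).1 b (abs_nonneg _) ϖ0
    rw [e]
    exact ((abs_add_le _ _).trans (add_le_add a3 b2)).trans_eq (by ring)
  obtain sh8 : ∀ l, 0 ≤ l → l ≤ d.m → |d.z 0 l| ≤ 8 * |d.δ| * d.k.w l +
      d.ϖ * (d.θ K * d.k.w l + exp (-(2 / 5) * d.k.chi 0 l)) := fun l l0 lm => by
    have a := sh l l0 lm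
    obtain b : |d.O.fr 1 l| ≤ 8 * d.k.w l := by
      rcases l0.eq_or_lt with rfl | l1
      · rw [d.O.fr_lt (by norm_num), o.w0]; simp
      · exact (oc.fit.f1 l l1 lm).trans (mul_le_mul_of_nonneg_right g8 (w0 l l0))
    have e := abs_sub_abs_le_abs_sub (d.z 0 l) (d.δ * d.O.fr 1 l)
    rw [abs_mul] at e
    have := mul_le_mul_of_nonneg_left b (abs_nonneg d.δ)
    linarith only [a, e, this]
  refine ⟨ini, ?_, fun l l0 lm => ?_, fun l l1 lm => max_le (cr l l1 lm) ?_, sh,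
    fun l l1 lm => max_le (sh8 l (by omega) lm) ?_⟩
  · obtain n1 : |d.O.nu1 d.m| ≤ 1 := nu.trans (exp_le_one_iff.2 (by linarith only [hbl]))
    have e : d.δ = d.z 0 1 - d.O.nu1 d.m * d.z 0 0 := rfl
    have a := abs_sub (d.z 0 1) (d.O.nu1 d.m * d.z 0 0)
    rw [abs_mul] at a
    obtain b := mul_le_mul n1 (ini 0 (by omega)).1 (abs_nonneg _) zero_le_one
    rw [e]
    linarith only [a, b, (ini 0 (by omega)).2]
  · have p1 : d.ϖ ≤ d.ϖ * d.wb := le_mul_of_one_le_right ϖ0 wb1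
    obtain p2 : d.ϖ * d.wb ≤ d.ϖ * d.wb * d.S K := le_mul_of_one_le_right pw (by linarith only [S1])
    rcases l0.eq_or_lt with rfl | l1
    · linarith only [θ1, κ1, p1, p2, (ini 0 (by omega)).1]
    · have a := ((hA d.k oc.sk).1 l l1).trans (N.w l l0 lm)
      have b := mul_le_mul_of_nonneg_left a ϖ0
      linarith only [θ1, κ1, b, cr l l1 lm]
  · have q0 := exp_pos (-d.k.ch l / 2)
    rcases l1.eq_or_lt with rfl | l2
    · obtain q1 : exp (-d.k.ch 1 / 2) ≤ 1 := exp_le_one_iff.2 (by linarith only [(o.ch_mem 1).1])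
      obtain this := mul_le_mul q1 (ini 0 (by omega)).1 (abs_nonneg _) zero_le_one
      rw [o.w1, sub_self]
      linarith only [ϖ0, this]
    · obtain a := mul_le_mul_of_nonneg_left (cr (l - 1) (by omega) (by omega)) q0.le
      have b := mul_le_mul_of_nonneg_left (o.w_step l l1) ϖ0
      linarith only [a, b]
  · have q0 := exp_pos (-d.k.ch l / 2)
    obtain a := mul_le_mul_of_nonneg_left (sh8 (l - 1) (by omega) (by omega)) q0.le
    have b := o.w_step l l1
    have b1 := mul_le_mul_of_nonneg_left b (abs_nonneg d.δ)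
    have b2 := mul_le_mul_of_nonneg_left b (mul_nonneg ϖ0 θ0.le)
    obtain e : d.k.chi 0 l = d.k.chi 0 (l - 1) + d.k.ch l := by
      unfold Sk.chi
      have := Ioc_succ_self (l - 1)
      rw [sub_add_cancel] at this
      rw [sum_Ioc_add d.k.ch (show (0 : ℤ) ≤ l - 1 by omega) (show l - 1 ≤ l by omega), this,
        sum_singleton]
    obtain b3 : exp (-d.k.ch l / 2) * exp (-(2 / 5) * d.k.chi 0 (l - 1)) ≤
        exp (-(2 / 5) * d.k.chi 0 l) := by
      rw [← exp_add]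
      exact exp_le_exp.2 (by linarith only [e, (o.ch_mem l).1])
    have b4 := mul_le_mul_of_nonneg_left b3 ϖ0
    linarith only [a, b1, b2, b4]

end Z05

theorem z05 (K : ℕ) : Hier fun c => TA_s c → SHD_s K c → Z05_s K c :=
  ((SOK.big.and SHD.num).and Hier.base).mono fun _ h hA hS =>
    Z05.main h.1.1 (by linarith only [h.1.2.bl]) h.2.2.2.2.2.1 hA hS

end Pool.Agent.MP_9cbfe4_an

end

/-! ### Part LOC5 -/

section

/-! Sub-row LOC5 of J5: jets of the reference near a heavy major. -/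

namespace Pool.Agent.MP_9cbfe4_an

open Finset Real

namespace LOC5

section Sk
variable {c : Cs} {k : Sk}

lemma chi_add (k : Sk) {i j l : ℤ} (h1 : i ≤ j) (h2 : j ≤ l) :
    k.chi i l = k.chi i j + k.chi j l := sum_Ioc_add _ h1 h2
lemma chi0 (h : k.OK1 c) (i j : ℤ) : 0 ≤ k.chi i j :=
  sum_nonneg fun l _ => by linarith only [(h.ch_mem l).1]
lemma chi1 (k : Sk) (i : ℤ) : k.chi i (i + 1) = k.ch (i + 1) := by simp [Sk.chi, Ioc_succ_self]
lemma chi1' (k : Sk) (i : ℤ) : k.chi (i - 1) i = k.ch i := by simpa using chi1 k (i - 1)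

lemma exp_half {α y : ℝ} (hα : 2 / 3 ≤ α) (hy : 1 / 2 ≤ y) : 4 * exp (-α * y) ≤ 3 := by
  obtain h1 : 1 / 3 ≤ α * y := by nlinarith only [hα, hy]
  obtain h2 := add_one_le_exp (α * y)
  obtain h3 : exp (-α * y) * exp (α * y) = 1 := by rw [← exp_add]; simp
  obtain h4 := exp_pos (-α * y)
  nlinarith only [h3, h1, h4, h2]

lemma geo_up (h : k.OK1 c) {x : ℤ} (hx : x ∈ k.D) {α : ℝ} (hα : 2 / 3 ≤ α) (j : ℤ) :
    ∑ i ∈ Ico (x + 1) j, exp (-α * k.chi x i) ≤ 4 * exp (-α * c.bl) := by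
  rcases le_or_gt j (x + 1) with hj | hj
  · rw [Ico_eq_empty (by omega), sum_empty]; positivity
  obtain key : ∀ j, x + 1 ≤ j → ∑ i ∈ Ico (x + 1) j, exp (-α * k.chi x i) + 4 * exp (-α * k.chi x j)
      ≤ 4 * exp (-α * c.bl) := by
    intro j hj
    induction j, hj using Int.leInduction with
    | base => rw [chi1, (h.ch_D x hx).2]; simp
    | succ j hj ih =>
      rw [sum_Ico_succ _ hj, chi_add k (by omega : x ≤ j) (by omega : j ≤ j + 1), chi1, mul_add, exp_add]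
      obtain this := mul_le_mul_of_nonneg_left (exp_half hα (h.ch_mem (j + 1)).1)
        (exp_pos (-α * k.chi x j)).le
      linarith only [ih, this]
  obtain this := key j hj.le
  linarith only [this, exp_pos (-α * k.chi x j)]

lemma geo_down (h : k.OK1 c) {x : ℤ} (hx : x ∈ k.D) {α : ℝ} (hα : 2 / 3 ≤ α) (j : ℤ) :
    ∑ i ∈ Ico j x, exp (-α * k.chi i x) ≤ 4 * exp (-α * c.bl) := by
  rcases le_or_gt x j with hj | hj
  · rw [Ico_eq_empty (by omega), sum_empty]; positivity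
  obtain key : ∀ n : ℕ, ∑ i ∈ Ico (x - n) x, exp (-α * k.chi i x) + 4 * exp (-α * k.chi (x - n - 1) x)
      ≤ 4 * exp (-α * c.bl) := by
    intro n
    induction n with
    | zero => simp only [Nat.cast_zero, sub_zero]; rw [chi1', (h.ch_D x hx).1]; simp
    | succ n ih =>
      obtain e : Ico (x - (n + 1 : ℕ)) x = insert (x - n - 1) (Ico (x - n) x) := by
        ext i; simp only [mem_Ico, mem_insert]; push_cast; omega
      rw [e, sum_insert (by simp), show x - (n + 1 : ℕ) - 1 = x - n - 1 - 1 by push_cast; ring,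
        chi_add k (by omega : x - n - 1 - 1 ≤ x - n - 1) (by omega : x - n - 1 ≤ x), chi1', mul_add,
        exp_add]
      obtain this := mul_le_mul_of_nonneg_right (exp_half hα (h.ch_mem (x - n - 1)).1)
        (exp_pos (-α * k.chi (x - n - 1) x)).le
      linarith only [ih, this]
  obtain this := key (x - j).toNat
  rw [Int.toNat_of_nonneg (by omega), sub_sub_cancel] at this
  linarith only [this, exp_pos (-α * k.chi (j - 1) x)]

lemma NN_split {n J l : ℤ} {e : ℕ} {A : ℝ} (hl : l ≤ J) (h4 : 0 ≤ k.w4 l) (hA : 0 ≤ A)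
    (hV : ∀ y ∈ k.D, J ≤ y → y < n → k.V y e ≤ A) :
    k.NN n e 0 l ≤ k.NN J e 0 l + k.w4 l * A := by
  obtain h0 : exp (0 * k.σ l) ≤ k.NN J e 0 l := (le_fold_max _).2 (Or.inl le_rfl)
  obtain h1 := mul_nonneg h4 hA
  refine (fold_max_le _).2 ⟨by linarith only [h0, h1], fun y hy => ?_⟩
  obtain ⟨yD, y1, y2⟩ := mem_filter.1 hy
  rcases lt_or_ge y J with h | h
  · exact le_add_of_le_of_nonneg
      ((le_fold_max _).2 (Or.inr ⟨y, mem_filter.2 ⟨yD, h, y2⟩, le_rfl⟩)) h1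
  · rw [if_neg (by omega), zero_mul, exp_zero, mul_one]
    obtain this := mul_le_mul_of_nonneg_left (hV y yD h y1) h4
    linarith only [h0, this, exp_pos (0 * k.σ l)]

lemma E_in (h : k.OK1 c) {x i : ℤ} (hx : x ∈ k.D) (h1 : x < i) (h2 : i < k.nx x) :
    k.E (k.nx x) i = exp (4 * k.σ x) / k.om i := by
  obtain ⟨xF, xN⟩ := h.D_mem x hx
  obtain ⟨JF, xJ, nxle⟩ := h.nx_mem x xN
  obtain JN := (h.F_mem _ JF).2
  obtain ⟨iF, ii, inx⟩ := h.nx_mem i (by omega)
  obtain e : k.nx i = k.nx x := le_antisymm (inx _ JF h2) (nxle _ iF (by omega))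
  obtain nD : ∀ y ∈ k.D, x < y → k.nx x ≤ y := fun y hy => nxle y (h.D_mem y hy).1
  obtain a0 : k.an (k.nx x) i = 0 := by
    unfold Sk.an
    rw [filter_eq_empty_iff.2, fold_empty]
    intro y hy ⟨y1, y2⟩
    obtain this := nD y hy (by omega)
    omega
  unfold Sk.E
  rw [if_neg (fun hi => by have := nD i hi h1; omega), a0, mul_zero, add_zero, Sk.σ, Sk.σ, e]
end Sk

variable {K : ℕ} {c : Cs} {d : D5}

/-- facts on a major of `D'` -/
structure Fx (K : ℕ) (c : Cs) (d : D5) (x : ℤ) : Prop where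
  D : x ∈ d.k.D
  x1 : 1 ≤ x
  xm : x < d.m
  xJ : x < d.k.nx x
  Jm : d.k.nx x ≤ d.m
  JN : d.k.nx x ≤ d.k.N
  e0 : 0 < d.k.η x
  e1 : d.k.η x ≤ 1
  ee : d.η ≤ d.k.η x
  w0 : 0 < d.k.w x
  wW : d.k.w x ≤ d.k.η x * exp (d.k.W (d.k.nx x))
  Ww : d.k.η x * exp (d.k.W (d.k.nx x)) ≤ d.k.w x * exp (2 * d.k.σ x)
  Wb : exp (d.k.W (d.k.nx x)) ≤ d.wb
  σ0 : 0 ≤ d.k.σ x
  σl : d.k.σ x ≤ d.ls
  σS : exp (8 * d.k.σ x) ≤ d.S K
  s1 : d.k.sl 1 ≤ d.k.σ x
  Y : ∀ a : ℕ, 1 ≤ a → 1 / d.η ^ (2 * a - 1) ≤ d.θ K * d.be ^ a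
  Yx : ∀ a : ℕ, 1 ≤ a → 1 / d.k.η x ^ (2 * a - 1) ≤ d.Ym K a

lemma fx (H : d.H K c) (N : d.Num K c) {x : ℤ} (hx : x ∈ d.D') : Fx K c d x := by
  obtain ⟨-, -, h⟩ := H
  obtain k1 := h.jc.oc.sk.1
  obtain ⟨xD, xm, -⟩ := (N.mem x).1 hx
  obtain ⟨xF, xN⟩ := k1.D_mem x xD
  obtain ⟨JF, xJ, nxle⟩ := k1.nx_mem x xN
  obtain x1 := (k1.F_mem x xF).1
  obtain Jm := nxle _ h.jc.oc.hn xm
  obtain ⟨e0, e1⟩ := k1.η_mem x xD
  obtain w0 := k1.w_pos x x1
  obtain ⟨m1, m2⟩ := k1.maj x xD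
  obtain s1 : d.k.sl 1 ≤ d.k.σ x := k1.sl_mono 1 _ le_rfl (by omega)
  obtain s2 : d.k.σ x ≤ d.k.sl d.m := k1.sl_mono _ _ (by omega) Jm
  obtain s0 := k1.sl1
  obtain ⟨l1, l2, l3⟩ := N.sl
  obtain ee : d.η ≤ d.k.η x := h.hst.2.2 x xD xm
  obtain η0 := N.η0
  obtain θ1 : d.θ K ≤ 1 := by
    obtain h1 : (1 : ℝ) ≤ d.S K ^ 500 := one_le_pow₀ (by linarith only [N.S1])
    obtain this := mul_le_mul_of_nonneg_left h1 N.θ0.le
    linarith only [this, N.θS.1, N.θS.2]
  obtain Y : ∀ a : ℕ, 1 ≤ a → 1 / d.η ^ (2 * a - 1) ≤ d.θ K * d.be ^ a := fun a ha => by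
    obtain e : 1 / d.η ^ (2 * a - 1) = d.η * d.be ^ a := by
      obtain ⟨b, rfl⟩ : ∃ b, a = b + 1 := ⟨a - 1, by omega⟩
      have : d.be = 1 / d.η ^ 2 := rfl
      rw [this, show 2 * (b + 1) - 1 = 2 * b + 1 by omega, div_pow, one_pow, ← pow_mul]
      field_simp
      ring
    rw [e]
    obtain h1 : d.η ≤ d.θ K := N.ηθ.trans (by nlinarith only [θ1, N.θ0])
    obtain this : 0 ≤ d.be := by unfold D5.be; positivity
    exact mul_le_mul_of_nonneg_right h1 (by positivity)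
  refine ⟨xD, x1, xm, xJ, Jm, (k1.F_mem _ JF).2, e0, e1, ee, w0, ?_, ?_, ?_, by linarith only [s1, s0, l3], by linarith only [s1, s2, s0, l1, l3],
    ?_, s1, Y, fun a ha => ?_⟩
  · rw [← exp_log w0, ← exp_log e0, ← exp_add]; exact exp_le_exp.2 (by linarith only [m1])
  · rw [← exp_log w0, ← exp_log e0, ← exp_add, ← exp_add]; exact exp_le_exp.2 (by linarith only [m2])
  · exact exp_le_exp.2 (k1.W_mono _ _ (by omega) Jm)
  · exact (exp_le_exp.2 (by nlinarith only [s1, s2, s0, l1, l3, m1, m2, h.hγ])).trans N.big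
  · obtain h1 : 1 / d.k.η x ^ (2 * a - 1) ≤ 1 / d.η ^ (2 * a - 1) :=
      one_div_le_one_div_of_le (by positivity) (pow_le_pow_left₀ η0.le ee _)
    obtain h2 := mul_nonneg (le_trans zero_le_one N.wb1) (N.U0 a)
    obtain this := Y a ha
    unfold D5.Ym
    linarith only [h1, h2, this]

/-- the tail used for J2 at `x` -/
lemma j2h (ta : TA_s c) (H : d.H K c) (N : d.Num K c) {x : ℤ} (f : Fx K c d x) :
    ∃ T : ℕ → ℝ, J2H c d.M d.σ d.t d.k x 3 d.γ d.ls T ∧
      ∀ a, 1 ≤ a → a ≤ 2 → exp (d.k.W (d.k.nx x)) * T a ≤ d.S K ^ 2 * d.Ym K a := by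
  obtain ⟨-, -, h⟩ := H
  obtain k1 := h.jc.oc.sk.1
  obtain ⟨l1, l2, l3⟩ := N.sl
  obtain hγ := h.hγ
  obtain η0 := N.η0
  obtain e0 := f.e0
  obtain T0 := h.pos
  obtain ⟨t1, t2, -⟩ := ta d.k h.jc.oc.sk
  obtain w4 : ∀ l, 0 ≤ l → 0 ≤ d.k.w4 l := fun l hl => by
    rcases hl.eq_or_lt with rfl | hl
    · exact t2.ge
    · exact (k1.w_pos l hl).le.trans (t1 l hl)
  obtain ⟨eW, heW⟩ : ∃ y, y = exp (d.k.W (d.k.nx x)) := ⟨_, rfl⟩
  obtain ⟨s, hs⟩ : ∃ y, y = exp ((d.γ + 1) * d.ls) := ⟨_, rfl⟩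
  obtain eW0 : 0 < eW := heW ▸ exp_pos _
  obtain s1 : 1 ≤ s := hs ▸ one_le_exp (by nlinarith only [l2, l3, hγ])
  obtain g1 : 1 ≤ exp (d.γ * d.ls) := one_le_exp (by nlinarith only [l2, l3, hγ])
  obtain ⟨A1, hA1⟩ : ∃ y, y = d.T 1 + s / (d.η ^ 1 * eW) := ⟨_, rfl⟩
  obtain ⟨A2, hA2⟩ : ∃ y, y = d.T 2 + s / (d.η ^ 3 * eW) + A1 * A1 * eW + A1 / d.k.η x ^ 2 := ⟨_, rfl⟩
  obtain ⟨A3, hA3⟩ : ∃ y, y = A1 * A2 * eW + A1 / d.k.η x ^ 4 + A2 / d.k.η x ^ 2 := ⟨_, rfl⟩
  obtain p1 : 0 ≤ A1 := by rw [hA1]; have := T0 1; (clear * - this s1 η0 eW0; positivity)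
  obtain p2 : 0 ≤ A2 := by rw [hA2]; have := T0 2; (clear * - this s1 η0 eW0 p1 e0; positivity)
  obtain p3 : 0 ≤ A3 := by rw [hA3]; (clear * - p1 p2 eW0 e0; positivity)
  obtain up : ∀ {u v w : ℝ}, 0 ≤ v → u ≤ v → u ≤ exp (d.γ * d.ls) * max v w := fun hv huv =>
    huv.trans ((le_max_left _ _).trans (le_mul_of_one_le_left (hv.trans (le_max_left _ _)) g1))
  obtain bd : ∀ (j : ℕ) (l : ℤ), 1 ≤ j → j ≤ 3 → 0 ≤ l → l ≤ d.k.nx x → |d.σ.pj d.M d.t j l| ≤
      d.k.w4 l * (d.T j + s / (d.η ^ (2 * j - 1) * eW)) +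
        exp (d.γ * d.ls) * d.k.NN (d.k.nx x) (2 * j - 1) 0 l := by
    intro j l j1 j3 l0 lJ
    obtain a := h.bd j l j1 j3 l0 (lJ.trans f.Jm)
    obtain b := NN_split (k := d.k) (n := d.k.nx d.B) (e := 2 * j - 1)
      (A := exp d.ls / (d.η ^ (2 * j - 1) * eW)) lJ (w4 l l0) (by (clear * - η0 eW0; positivity)) fun y yD y1 y2 => by
        obtain ym : y < d.m := y2.trans_le h.hB.2
        obtain yF := (k1.D_mem y yD).1
        obtain y0 := (k1.F_mem y yF).1
        obtain wy := k1.w_pos y y0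
        obtain ey := (k1.η_mem y yD).1
        obtain h1 : eW ≤ exp d.ls * d.k.w y := by
          rw [heW, ← exp_log wy, ← exp_add]
          obtain this := k1.lo y yF
          obtain this := k1.W_mono _ y (by have := f.xJ; have := f.x1; omega) y1
          obtain this := k1.sl_mono y _ y0 ym.le
          obtain this := k1.sl_mono 1 _ le_rfl (y0.trans ym.le)
          exact exp_le_exp.2 (by (rename_i zq2 zq1 zq0; linarith only [l1, l2, l3, zq2, zq1, zq0, k1.sl1]))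
        obtain h2 : d.η ^ (2 * j - 1) ≤ d.k.η y ^ (2 * j - 1) :=
          pow_le_pow_left₀ η0.le (h.hst.2.2 y yD ym) _
        unfold Sk.V
        rw [div_le_div_iff₀ (by (clear * - ey wy; positivity)) (by positivity), one_mul]
        calc _ ≤ d.k.η y ^ (2 * j - 1) * (exp d.ls * d.k.w y) :=
              mul_le_mul h2 h1 eW0.le (by positivity)
          _ = _ := by ring
    obtain b' := mul_le_mul_of_nonneg_left b (exp_pos (d.γ * d.ls)).le
    obtain e : s = exp (d.γ * d.ls) * exp d.ls := by rw [hs, ← exp_add]; congr 1; ring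
    rw [e]
    refine a.trans ?_
    obtain this : d.k.w4 l * (d.T j + exp (d.γ * d.ls) * exp d.ls / (d.η ^ (2 * j - 1) * eW)) =
      d.k.w4 l * d.T j + exp (d.γ * d.ls) * (d.k.w4 l * (exp d.ls / (d.η ^ (2 * j - 1) * eW))) := by ring
    linarith only [b', this]
  refine ⟨fun j => if j = 1 then A1 else if j = 2 then A2 else A3,
    ⟨f.D, hγ, f.σl, fun j => by split_ifs <;> assumption, fun j l j1 j3 l0 lJ => ?_,
      fun a b a1 b1 ab => ?_⟩, ?_⟩
  · refine (bd j l j1 j3.le l0 lJ).trans (add_le_add_left (mul_le_mul_of_nonneg_left ?_ (w4 l l0)) _)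
    obtain rfl | rfl : j = 1 ∨ j = 2 := by omega
    · exact hA1.ge
    · obtain this : 0 ≤ A1 * A1 * eW + A1 / d.k.η x ^ 2 := by (clear * - p1 eW0 e0; positivity)
      show d.T 2 + s / (d.η ^ 3 * eW) ≤ A2
      linarith only [hA2, this]
  · rw [← heW]
    obtain q1 : 0 ≤ d.T 2 + s / (d.η ^ 3 * eW) := by have := T0 2; (clear * - this s1 η0 eW0; positivity)
    obtain q2 : 0 ≤ A1 * A1 * eW := by (clear * - p1 eW0; positivity)
    obtain q3 : 0 ≤ A1 / d.k.η x ^ 2 := by (clear * - p1 e0; positivity)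
    obtain q4 : 0 ≤ A1 * A2 * eW := by (clear * - p1 p2 eW0; positivity)
    obtain q5 : 0 ≤ A1 / d.k.η x ^ 4 := by (clear * - p1 e0; positivity)
    obtain q6 : 0 ≤ A2 / d.k.η x ^ 2 := by (clear * - p2 e0; positivity)
    obtain dv : ∀ {u v : ℝ} (n : ℕ), u / d.k.η x ^ (n + 1) ≤ v → u / d.k.η x ^ n ≤ d.k.η x * v :=
      fun {u v} n hh => by
        obtain this := mul_le_mul_of_nonneg_left hh e0.le
        refine le_trans (le_of_eq ?_) this
        field_simp
        ring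
    obtain ⟨rfl, rfl⟩ | ⟨rfl, rfl⟩ | ⟨rfl, rfl⟩ : (a = 1 ∧ b = 1) ∨ (a = 1 ∧ b = 2) ∨ (a = 2 ∧ b = 1) := by
      omega
    · exact ⟨up p2 (show A1 * A1 * eW ≤ A2 by linarith only [hA2, q1, q3]),
        up (mul_nonneg e0.le p2) (dv 1 (show A1 / d.k.η x ^ 2 ≤ A2 by linarith only [hA2, q1, q2]))⟩
    · exact ⟨up p3 (show A1 * A2 * eW ≤ A3 by linarith only [hA3, q5, q6]),
        up (mul_nonneg e0.le p3) (dv 3 (show A1 / d.k.η x ^ 4 ≤ A3 by linarith only [hA3, q4, q6]))⟩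
    · exact ⟨up p3 (show A2 * A1 * eW ≤ A3 by linarith only [hA3, q5, q6]),
        up (mul_nonneg e0.le p3) (dv 1 (show A2 / d.k.η x ^ 2 ≤ A3 by linarith only [hA3, q4, q5]))⟩
  · rw [← heW]
    obtain Wb : eW ≤ d.wb := heW ▸ f.Wb
    obtain S1 := N.S1
    obtain sS : s ^ 4 ≤ d.S K := by
      rw [hs, ← exp_nat_mul]
      exact (exp_le_exp.2 (by push_cast; nlinarith only [l2, l3, hγ])).trans N.big
    obtain s4 : 4 ≤ s := by
      rw [hs]
      obtain this := add_one_le_exp ((d.γ + 1) * d.ls)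
      nlinarith only [l2, l3, hγ, this]
    obtain be0 : 0 ≤ d.be := by unfold D5.be; positivity
    obtain θ0 := N.θ0
    obtain wb0 : 0 ≤ d.wb := le_trans zero_le_one N.wb1
    have Y1 : d.Ym K 1 = d.wb * d.T 1 + d.θ K * d.be ^ 1 := rfl
    have Y2 : d.Ym K 2 = d.wb * (d.T 2 + d.be * d.T 1) + d.θ K * d.be ^ 2 := rfl
    obtain y1 := (N.Ym 1 le_rfl).1
    obtain y2 := (N.Ym 2 (by norm_num)).1
    obtain u1 : eW * A1 ≤ s * d.Ym K 1 := by
      obtain a : eW * A1 = eW * d.T 1 + s * (1 / d.η ^ (2 * 1 - 1)) := by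
        rw [hA1, show 2 * 1 - 1 = 1 from rfl]; field_simp
      obtain b := mul_le_mul_of_nonneg_right Wb (T0 1)
      obtain b' := mul_le_mul_of_nonneg_left (f.Y 1 le_rfl) (by linarith only [s4] : 0 ≤ s)
      obtain b'' := le_mul_of_one_le_left (mul_nonneg wb0 (T0 1)) s1
      rw [a, Y1]; linarith only [b, b', b'']
    intro a a1 a2
    obtain rfl | rfl : a = 1 ∨ a = 2 := by omega
    · refine u1.trans (mul_le_mul_of_nonneg_right ?_ (by linarith only [y1]))
      obtain this : s ≤ s ^ 4 := le_self_pow₀ s1 (by norm_num)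
      nlinarith only [S1, sS, this]
    · show eW * A2 ≤ _
      obtain a : eW * A2 = eW * d.T 2 + s * (1 / d.η ^ (2 * 2 - 1)) + (eW * A1) * (eW * A1) +
          (eW * A1) * (1 / d.k.η x ^ 2) := by rw [hA2, show 2 * 2 - 1 = 3 from rfl]; field_simp
      obtain b := mul_le_mul_of_nonneg_right Wb (T0 2)
      obtain b' := mul_le_mul_of_nonneg_left (f.Y 2 (by norm_num)) (by linarith only [s4] : 0 ≤ s)
      obtain c1 : eW * A1 * (eW * A1) ≤ s * d.Ym K 1 * (s * d.Ym K 1) :=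
        mul_le_mul u1 u1 (by (clear * - eW0 p1; positivity)) (by (clear * - s1 y1; positivity))
      obtain c2 : d.Ym K 1 * d.Ym K 1 ≤ d.S K * d.Ym K 2 :=
        (mul_le_mul_of_nonneg_right (N.Ym 1 le_rfl).2.1 (by linarith only [y1])).trans N.YY.2.2
      obtain c3 := mul_le_mul_of_nonneg_left c2 (by positivity : 0 ≤ s * s)
      obtain c4 : 1 / d.k.η x ^ 2 ≤ d.be :=
        one_div_le_one_div_of_le (pow_pos η0 2) (pow_le_pow_left₀ η0.le f.ee 2)
      obtain c5 : eW * A1 * (1 / d.k.η x ^ 2) ≤ s * d.Ym K 1 * d.be :=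
        mul_le_mul u1 c4 (by positivity) (by positivity)
      obtain c6 : d.Ym K 1 * d.be ≤ d.Ym K 2 := by
        obtain this := mul_nonneg wb0 (T0 2)
        rw [Y1, Y2]; linarith only [this]
      obtain c7 := mul_le_mul_of_nonneg_left c6 (by linarith only [s4] : 0 ≤ s)
      obtain c8 : d.wb * d.T 2 ≤ d.Ym K 2 ∧ d.θ K * d.be ^ 2 ≤ d.Ym K 2 := by
        obtain a1 := mul_nonneg wb0 (T0 2)
        obtain a2 := mul_nonneg wb0 (mul_nonneg be0 (T0 1))
        obtain a3 : 0 ≤ d.θ K * d.be ^ 2 := by (clear * - θ0; positivity)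
        rw [Y2]; constructor <;> linarith only [a1, a2, a3]
      obtain c9 := mul_le_mul_of_nonneg_left c8.2 (by linarith only [s4] : 0 ≤ s)
      obtain z : 1 + s + s * s * d.S K + s ≤ d.S K ^ 2 := by
        obtain z1 : 4 * (s * s) ≤ d.S K := calc
          4 * (s * s) ≤ s * s * (s * s) := mul_le_mul_of_nonneg_right (by nlinarith only [s4, s1]) (by positivity)
          _ = s ^ 4 := by ring
          _ ≤ _ := sS
        obtain z2 := mul_le_mul_of_nonneg_right z1 (by linarith only [S1] : 0 ≤ d.S K)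
        nlinarith only [s4, z2, S1, s1]
      obtain z' := mul_le_mul_of_nonneg_right z (by linarith only [y2] : 0 ≤ d.Ym K 2)
      rw [a]; linarith only [b, b', c1, c3, c5, c7, c9, z', c8.1]

lemma slack (N : d.Num K c) : exp (g2 K d.γ / 10 * d.ls) ≤ d.S K := by
  obtain ⟨l1, l2, l3⟩ := N.sl
  refine exp_le_exp.2 (mul_le_mul_of_nonneg_right ?_ (by linarith only [l2, l3]))
  unfold gm5 g2
  obtain this : (0 : ℝ) ≤ K := Nat.cast_nonneg K
  nlinarith

lemma one_le {x : ℤ} (f : Fx K c d x) {a : ℕ} (a1 : 1 ≤ a) :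
    1 / d.k.η x ≤ d.Ym K a ∧ 1 / d.k.η x ^ (2 * a - 2) ≤ d.k.η x * d.Ym K a := by
  obtain e0 := f.e0
  obtain h := f.Yx a a1
  refine ⟨le_trans (one_div_le_one_div_of_le (by positivity) ?_) h, ?_⟩
  · simpa using pow_le_pow_of_le_one e0.le f.e1 (by omega : 1 ≤ 2 * a - 1)
  · refine le_trans (le_of_eq ?_) (mul_le_mul_of_nonneg_left h e0.le)
    rw [show 2 * a - 1 = 2 * a - 2 + 1 by omega, pow_succ]
    field_simp

/-- jets before the fold -/
lemma back (j2a : J2A_s K c) (H : d.H K c) (N : d.Num K c) {x : ℤ} (f : Fx K c d x) {T : ℕ → ℝ}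
    (hT : J2H c d.M d.σ d.t d.k x 3 d.γ d.ls T) {a : ℕ} (a1 : 1 ≤ a) (a2 : a ≤ 2)
    (tb : exp (d.k.W (d.k.nx x)) * T a ≤ d.S K ^ 2 * d.Ym K a) {i : ℤ} (i1 : 1 ≤ i) (ix : i ≤ x) :
    d.P a i ≤ 64 * (d.k.w i / d.k.w x) * |d.p a x| +
      exp (d.k.chi i x / 4) * (d.S K ^ 4 * d.k.η x * d.Ym K a) := by
  obtain sl := slack N
  obtain ⟨K3, bud, h⟩ := H
  obtain oc := h.jc.oc
  obtain k1 := oc.sk.1
  obtain e0 := f.e0
  obtain w0 := f.w0
  obtain S1 := N.S1
  obtain y1 := (N.Ym a a1).1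
  obtain ⟨o1, o2⟩ := one_le f a1
  obtain T0 := hT.pos a
  obtain eY : 1 ≤ d.k.η x * d.Ym K a := by rwa [div_le_iff₀' e0] at o1
  obtain lo : exp (g2 K d.γ / 10 * d.ls) * lo2 d.k x T a ≤ d.S K ^ 4 * d.k.η x * d.Ym K a := by
    obtain h1 : d.k.w x * d.k.η x * T a ≤ d.k.η x * (d.S K ^ 2 * d.Ym K a) := calc
      _ ≤ d.k.η x * exp (d.k.W (d.k.nx x)) * 1 * T a :=
        mul_le_mul_of_nonneg_right (mul_le_mul f.wW f.e1 e0.le (by positivity)) T0
      _ = d.k.η x * (exp (d.k.W (d.k.nx x)) * T a) := by ring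
      _ ≤ _ := mul_le_mul_of_nonneg_left tb e0.le
    obtain h2 : lo2 d.k x T a ≤ (d.S K ^ 2 + 1) * (d.k.η x * d.Ym K a) := by unfold lo2; linarith only [o2, h1]
    obtain h3 : 0 ≤ lo2 d.k x T a := by unfold lo2; (clear * - w0 e0 T0; positivity)
    calc _ ≤ d.S K * ((d.S K ^ 2 + 1) * (d.k.η x * d.Ym K a)) := mul_le_mul sl h2 h3 (by linarith only [S1])
      _ = d.S K * (d.S K ^ 2 + 1) * (d.k.η x * d.Ym K a) := by ring
      _ ≤ d.S K * d.S K ^ 3 * (d.k.η x * d.Ym K a) := by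
        refine mul_le_mul_of_nonneg_right (mul_le_mul_of_nonneg_left ?_ (by linarith only [S1])) (by linarith only [eY])
        nlinarith only [S1]
      _ = _ := by ring
  obtain ⟨Lw, hLw⟩ : ∃ y, y = d.S K ^ 4 * d.k.η x * d.Ym K a := ⟨_, rfl⟩
  rw [← hLw] at lo ⊢
  obtain L1 : 1 ≤ Lw := by
    rw [hLw, mul_assoc]; exact one_le_mul_of_one_le_of_one_le (one_le_pow₀ (by linarith only [S1])) eY
  obtain g1 := oc.g1
  obtain pt : ∀ l, 0 ≤ l → l ≤ x → |d.p a l| ≤ 64 * (d.k.w l / d.k.w x) * |d.p a x| +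
      exp (d.k.chi l x / 4) * Lw := by
    intro l l0 lx
    obtain h1 := (j2a bud _ _ _ _ _ _ h.jc x 3 _ _ T f.xm (by omega) hT a l a1 (by omega) l0 lx).trans lo
    obtain h2 := mul_le_mul_of_nonneg_left h1 (exp_pos (d.k.chi l x / 4)).le
    rw [← mul_assoc, ← exp_add, show d.k.chi l x / 4 + -d.k.chi l x / 4 = 0 by ring, exp_zero,
      one_mul] at h2
    obtain h3 : |d.O.fr 1 l / d.O.fr 1 x| ≤ 64 * (d.k.w l / d.k.w x) := by
      rcases l0.eq_or_lt with rfl | l1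
      · rw [d.O.fr_lt (by norm_num), k1.w0]; simp
      obtain u1 : |d.O.fr 1 l| ≤ d.g * d.k.w l := oc.fit.f1 l l1 (lx.trans f.xm.le)
      obtain u2 : d.k.w x ≤ d.g * |d.O.fr 1 x| := oc.fit.f2 x (k1.D_mem x f.D).1 f.xm.le
      obtain wl := k1.w_pos l l1
      obtain u3 : 0 < |d.O.fr 1 x| := by
        by_contra hh
        obtain this := mul_nonneg (by linarith only [g1] : 0 ≤ d.g) (neg_nonneg.2 (not_lt.1 hh))
        linarith only [w0, u2, this]
      rw [abs_div, ← mul_div_assoc, div_le_div_iff₀ u3 w0]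
      obtain u4 : |d.O.fr 1 l| ≤ 8 * d.k.w l := u1.trans (mul_le_mul_of_nonneg_right h.g8 wl.le)
      obtain u5 : d.k.w x ≤ 8 * |d.O.fr 1 x| := u2.trans (mul_le_mul_of_nonneg_right h.g8 u3.le)
      calc _ ≤ 8 * d.k.w l * (8 * |d.O.fr 1 x|) := mul_le_mul u4 u5 w0.le (by positivity)
        _ = _ := by ring
    obtain h4 := mul_le_mul_of_nonneg_right h3 (abs_nonneg (d.p a x))
    rw [← abs_mul] at h4
    obtain h5 := abs_add_le (d.p a l - d.O.fr 1 l / d.O.fr 1 x * d.p a x)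
      (d.O.fr 1 l / d.O.fr 1 x * d.p a x)
    rw [sub_add_cancel] at h5
    exact h5.trans (by rw [add_comm]; exact add_le_add h4 h2)
  obtain wi := k1.w_pos i i1
  obtain c0 := one_le_exp (by linarith only [chi0 k1 i x] : 0 ≤ d.k.chi i x / 4)
  obtain p0 : 0 ≤ 64 * (d.k.w i / d.k.w x) * |d.p a x| := by (clear * - wi w0; positivity)
  refine max_le ?_ (max_le (pt i (by omega) ix) ?_)
  · obtain this := one_le_mul_of_one_le_of_one_le c0 L1
    split_ifs <;> linarith only [p0, this]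
  · obtain h1 := mul_le_mul_of_nonneg_left (pt (i - 1) (by omega) (by omega))
      (exp_pos (-d.k.ch i / 2)).le
    refine h1.trans ?_
    obtain h2 : exp (-d.k.ch i / 2) * exp (d.k.chi (i - 1) x / 4) ≤ exp (d.k.chi i x / 4) := by
      rw [← exp_add, chi_add d.k (by omega : i - 1 ≤ i) ix, chi1']
      exact exp_le_exp.2 (by linarith only [(k1.ch_mem i).1])
    obtain h3 := mul_le_mul_of_nonneg_right h2 (by linarith only [L1] : 0 ≤ Lw)
    obtain h4 := mul_le_mul_of_nonneg_right (k1.w_step i i1)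
      (by positivity : 0 ≤ 64 / d.k.w x * |d.p a x|)
    calc _ = d.k.w (i - 1) * exp (-d.k.ch i / 2) * (64 / d.k.w x * |d.p a x|) +
          exp (-d.k.ch i / 2) * exp (d.k.chi (i - 1) x / 4) * Lw := by ring
      _ ≤ d.k.w i * (64 / d.k.w x * |d.p a x|) + exp (d.k.chi i x / 4) * Lw := add_le_add h4 h3
      _ = _ := by ring

/-- one term before the fold -/
lemma term_back (H : d.H K c) (N : d.Num K c) (E : d.El K) {x : ℤ} (f : Fx K c d x) {a : ℕ}
    (a1 : 1 ≤ a) {i : ℤ} (i1 : 1 ≤ i) (ix : i < x)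
    (hP : d.P a i ≤ 64 * (d.k.w i / d.k.w x) * |d.p a x| +
      exp (d.k.chi i x / 4) * (d.S K ^ 4 * d.k.η x * d.Ym K a)) :
    d.k.ew x i * d.k.w i * d.P a i ≤
      1024 * (|d.p a x| / d.k.η x) * exp (-(97 / 100) * d.k.chi i x) + 8 * d.S K ^ 4 * d.Ym K a := by
  obtain ⟨-, -, h⟩ := H
  obtain ⟨k1, k2⟩ := h.jc.oc.sk
  obtain e0 := f.e0
  obtain w0 := f.w0
  obtain wi := k1.w_pos i i1
  obtain y1 := (N.Ym a a1).1
  obtain S1 := N.S1
  obtain e : d.k.ew x i = 4 * (1 / (d.k.η x ^ 1 * d.k.w x)) * exp (-(99 / 100) * d.k.chi i x) := by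
    obtain this := E.maj x f.D
    unfold Sk.ew at this ⊢
    rw [if_neg (lt_irrefl x), if_neg (fun hh => lt_irrefl x hh.1)] at this
    rw [if_pos ix, this]; rfl
  obtain ⟨χ, hχ⟩ : ∃ y, y = d.k.chi i x := ⟨_, rfl⟩
  obtain χ0 : 0 ≤ χ := hχ ▸ chi0 k1 i x
  obtain r : d.k.w i / d.k.w x ≤ 2 * exp (χ / 100) := by
    rw [div_le_iff₀ w0, hχ]; exact (k2.i2 x (k1.D_mem x f.D).1 i i1 ix.le).2
  rw [e, ← hχ]
  rw [← hχ] at hP
  obtain ⟨ρ, hρ⟩ : ∃ y, y = d.k.w i / d.k.w x := ⟨_, rfl⟩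
  obtain ρ0 : 0 ≤ ρ := by rw [hρ]; positivity
  rw [← hρ] at r hP
  obtain e2 : 4 * (1 / (d.k.η x ^ 1 * d.k.w x)) * exp (-(99 / 100) * χ) * d.k.w i =
      4 * exp (-(99 / 100) * χ) * ρ / d.k.η x := by rw [hρ]; field_simp
  rw [e2]
  refine (mul_le_mul_of_nonneg_left hP (by (clear * - ρ0 e0; positivity))).trans ?_
  obtain u1 : exp (-(99 / 100) * χ) * (ρ * ρ) ≤ 4 * exp (-(97 / 100) * χ) := calc
    _ ≤ exp (-(99 / 100) * χ) * (2 * exp (χ / 100) * (2 * exp (χ / 100))) :=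
      mul_le_mul_of_nonneg_left (mul_le_mul r r ρ0 (by positivity)) (by positivity)
    _ = 4 * (exp (-(99 / 100) * χ) * exp (χ / 100) * exp (χ / 100)) := by ring
    _ = _ := by rw [← exp_add, ← exp_add]; congr 2; ring
  obtain u2 : exp (-(99 / 100) * χ) * ρ * exp (χ / 4) ≤ 2 := calc
    _ ≤ exp (-(99 / 100) * χ) * (2 * exp (χ / 100)) * exp (χ / 4) := by gcongr
    _ = 2 * (exp (-(99 / 100) * χ) * exp (χ / 100) * exp (χ / 4)) := by ring
    _ ≤ 2 * 1 := by
      rw [← exp_add, ← exp_add]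
      exact mul_le_mul_of_nonneg_left (exp_le_one_iff.2 (by linarith only [χ0])) (by norm_num)
    _ = 2 := by ring
  obtain v1 := mul_le_mul_of_nonneg_left u1 (by (clear * - e0; positivity) : 0 ≤ 256 * (|d.p a x| / d.k.η x))
  obtain v2 := mul_le_mul_of_nonneg_left u2 (by positivity : 0 ≤ 4 * d.S K ^ 4 * d.Ym K a)
  calc _ = 256 * (|d.p a x| / d.k.η x) * (exp (-(99 / 100) * χ) * (ρ * ρ)) +
        4 * d.S K ^ 4 * d.Ym K a * (exp (-(99 / 100) * χ) * ρ * exp (χ / 4)) := by field_simp; ring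
    _ ≤ _ := by linarith only [v1, v2]

/-- one term inside the block -/
lemma term_in (j2b : J2B_s K c) (H : d.H K c) (N : d.Num K c) (Pn : d.Pn K) (E : d.El K) {x : ℤ}
    (f : Fx K c d x) {T : ℕ → ℝ} (hT : J2H c d.M d.σ d.t d.k x 3 d.γ d.ls T) {a : ℕ} (a1 : 1 ≤ a)
    (a2 : a ≤ 2) (tb : exp (d.k.W (d.k.nx x)) * T a ≤ d.S K ^ 2 * d.Ym K a) {i : ℤ} (xi : x < i)
    (iJ : i < d.k.nx x) :
    d.k.ew x i * d.k.w i * d.P a i ≤
      1024 * (|d.p a x| / d.k.η x) * exp (-(97 / 100) * d.k.chi x i) + d.S K ^ 5 * d.Ym K a := by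
  obtain sl := slack N
  obtain ⟨K3, bud, h⟩ := H
  obtain ⟨k1, k2⟩ := h.jc.oc.sk
  obtain e0 := f.e0
  obtain w0 := f.w0
  obtain x1 := f.x1
  obtain wi := k1.w_pos i (by omega)
  obtain y1 := (N.Ym a a1).1
  obtain S1 := N.S1
  obtain T0 := hT.pos a
  obtain ⟨o1, o2⟩ := one_le f a1
  obtain o3 := f.Yx a a1
  obtain ⟨m1, -, m3, m4, m5⟩ := k2.om_in x f.D i xi iJ
  obtain ew0 := (E.ew x (k1.D_mem x f.D).1 f.xm i (by omega) iJ).1
  obtain ew1 : d.k.ew x i ≤ exp (4 * d.k.σ x) / d.k.om i ∧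
      d.k.ew x i ≤ exp (d.k.chi x i / 100) * (1 / (d.k.η x ^ 1 * d.k.w x)) := by
    unfold Sk.ew
    rw [if_neg (by omega), if_pos ⟨xi, f.D⟩, E_in k1 f.D xi iJ]
    exact ⟨min_le_left _ _, min_le_right _ _⟩
  obtain ⟨ε, hε⟩ : ∃ y, y = d.k.ew x i := ⟨_, rfl⟩
  obtain ⟨χ, hχ⟩ : ∃ y, y = d.k.chi x i := ⟨_, rfl⟩
  obtain ⟨u, hu⟩ : ∃ y, y = exp (d.k.σ x) := ⟨_, rfl⟩
  obtain un : ∀ n : ℕ, exp (n * d.k.σ x) = u ^ n := fun n => by rw [hu, exp_nat_mul]
  obtain u4 : exp (4 * d.k.σ x) = u ^ 4 := by exact_mod_cast un 4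
  obtain u2 : exp (2 * d.k.σ x) = u ^ 2 := by exact_mod_cast un 2
  obtain u8 : u ^ 8 ≤ d.S K := by have := un 8; push_cast at this; rw [← this]; exact f.σS
  obtain u1 : 1 ≤ u := hu ▸ one_le_exp f.σ0
  obtain χ0 : 0 ≤ χ := hχ ▸ chi0 k1 x i
  obtain Ww := f.Ww
  rw [← hε] at ew0 ew1 ⊢
  rw [← hχ] at ew1 m3 m4 ⊢
  rw [← hu] at m1 m5
  rw [u4] at ew1
  rw [u2] at Ww
  obtain ⟨eW, heW⟩ : ∃ y, y = exp (d.k.W (d.k.nx x)) := ⟨_, rfl⟩
  obtain eW0 : 0 < eW := heW ▸ exp_pos _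
  obtain wW := f.wW
  rw [← heW] at Ww wW tb
  obtain om0 : 0 < d.k.om i := by
    obtain this : 0 < u * d.k.om i := lt_of_lt_of_le (by positivity) m1
    exact (mul_pos_iff_of_pos_left (by linarith only [u1])).1 this
  obtain A1 : ε * d.k.om i ≤ u ^ 4 := (le_div_iff₀ om0).1 ew1.1
  obtain A2 : ε * d.k.w x * d.k.η x ≤ u ^ 5 := calc
    _ = ε * (d.k.w x * d.k.η x) := by ring
    _ ≤ ε * (u * d.k.om i) := mul_le_mul_of_nonneg_left m1 ew0
    _ = u * (ε * d.k.om i) := by ring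
    _ ≤ u * u ^ 4 := mul_le_mul_of_nonneg_left A1 (by linarith only [u1])
    _ = _ := by ring
  obtain u45 : u ^ 4 ≤ u ^ 5 := pow_le_pow_right₀ u1 (by norm_num)
  obtain u58 : u ^ 5 ≤ u ^ 8 := pow_le_pow_right₀ u1 (by norm_num)
  -- `ε w_i v η ≤ 2 u^5` for `v η ≤ 1`, `v e^{-χ/2} ≤ 1`
  obtain A3 : ∀ v, 0 ≤ v → v * d.k.η x ≤ 1 → v * exp (-χ / 2) ≤ 1 →
      ε * d.k.w i * v * d.k.η x ≤ 2 * u ^ 5 := fun v v0 v1 v2 => by
    obtain b1 := mul_le_mul A1 v1 (by (clear * - v0 e0; positivity)) (by positivity)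
    obtain b2 := mul_le_mul A2 v2 (by (clear * - v0; positivity)) (by positivity)
    obtain b3 := mul_le_mul_of_nonneg_left m3 (by (clear * - ew0 v0 e0; positivity) : 0 ≤ ε * v * d.k.η x)
    linarith only [u45, b1, b2, b3]
  obtain A4 : ε * d.k.w i * d.k.η x ≤ 2 * u ^ 5 := by
    simpa using A3 1 zero_le_one (by simpa using f.e1)
      (by simpa using exp_le_one_iff.2 (by linarith only [χ0] : -χ / 2 ≤ 0))
  obtain dv : ∀ {y : ℝ}, y * d.k.η x ≤ 2 * u ^ 5 → ∀ {z : ℝ}, 0 ≤ z → z / d.k.η x ≤ d.Ym K a →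
      y * z ≤ 2 * d.S K * d.Ym K a := fun {y} hy {z} z0 hz => calc
    y * z = y * d.k.η x * (z / d.k.η x) := by field_simp
    _ ≤ 2 * u ^ 5 * d.Ym K a := mul_le_mul hy hz (by (clear * - z0 e0; positivity)) (by positivity)
    _ ≤ _ := mul_le_mul_of_nonneg_right (by linarith only [u8, u58]) (by linarith only [y1])
  obtain wiW : d.k.w i ≤ eW * u := by
    rw [heW, hu, ← exp_add, ← exp_log wi]
    obtain this := k1.hi i (by omega) (by have := f.JN; omega)
    obtain this := k1.W_mono i _ (by omega) iJ.le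
    exact exp_le_exp.2 (by (rename_i zq0; linarith only [zq0, this, f.s1]))
  obtain pw : 1 / d.k.η x ^ (2 * a - 2) / d.k.η x = 1 / d.k.η x ^ (2 * a - 1) := by
    rw [show 2 * a - 1 = 2 * a - 2 + 1 by omega, pow_succ]; field_simp
  obtain V0 : 0 ≤ d.k.V x (2 * a - 2) := by unfold Sk.V; positivity
  obtain SY : d.Ym K a ≤ d.S K ^ 2 * d.Ym K a := le_mul_of_one_le_left (by linarith only [y1]) (by nlinarith only [S1])
  obtain B1 : d.k.w i * (T a + d.k.V x (2 * a - 2)) ≤ u ^ 3 * (2 * (d.S K ^ 2 * d.Ym K a)) := by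
    obtain b1 : eW * d.k.V x (2 * a - 2) ≤ u ^ 2 * d.Ym K a := calc
      _ = d.k.η x * eW * (1 / d.k.w x * (1 / d.k.η x ^ (2 * a - 2) / d.k.η x)) := by
        unfold Sk.V; field_simp
      _ ≤ d.k.w x * u ^ 2 * (1 / d.k.w x * d.Ym K a) :=
        mul_le_mul Ww (mul_le_mul_of_nonneg_left (pw ▸ o3) (by positivity)) (by positivity)
          (by positivity)
      _ = _ := by field_simp
    obtain b2 := mul_le_mul_of_nonneg_left SY (by positivity : 0 ≤ u ^ 2)
    obtain b3 : d.S K ^ 2 * d.Ym K a ≤ u ^ 2 * (d.S K ^ 2 * d.Ym K a) :=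
      le_mul_of_one_le_left (by (clear * - S1 y1; positivity)) (one_le_pow₀ u1)
    calc _ ≤ eW * u * (T a + d.k.V x (2 * a - 2)) := mul_le_mul_of_nonneg_right wiW (by (clear * - T0 V0; positivity))
      _ = u * (eW * T a + eW * d.k.V x (2 * a - 2)) := by ring
      _ ≤ u * (u ^ 2 * (2 * (d.S K ^ 2 * d.Ym K a))) :=
        mul_le_mul_of_nonneg_left (by linarith only [tb, b1, b2, b3]) (by linarith only [u1])
      _ = _ := by ring
  obtain B2 : d.k.w x * (T a + d.k.V x (2 * a - 2)) ≤ 2 * (d.S K ^ 2 * d.Ym K a) := by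
    obtain b1 : d.k.w x * T a ≤ eW * T a :=
      mul_le_mul_of_nonneg_right (wW.trans (mul_le_of_le_one_left eW0.le f.e1)) T0
    obtain b2 : d.k.w x * d.k.V x (2 * a - 2) = 1 / d.k.η x ^ (2 * a - 2) := by unfold Sk.V; field_simp
    obtain b3 : d.k.η x * d.Ym K a ≤ d.Ym K a := mul_le_of_le_one_left (by linarith only [y1]) f.e1
    rw [mul_add, b2]; linarith only [o2, tb, SY, b1, b3]
  obtain px : |d.p a x| ≤ d.S K * d.Ym K a :=
    ((le_max_left _ _).trans (le_max_right _ _)).trans (Pn.num a x a1 (by omega) x1 f.xm)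
  obtain ⟨R, hR⟩ : ∃ y, y = 1024 * (|d.p a x| / d.k.η x) * exp (-(97 / 100) * χ) := ⟨_, rfl⟩
  obtain R0 : 0 ≤ R := by rw [hR]; (clear * - e0; positivity)
  rw [← hR]
  obtain sharp : ε * d.k.w i * (1000 * exp (-χ / 2) * |d.p a x|) ≤ R + 1000 * (d.S K * d.Ym K a) := by
    obtain b0 : d.k.w i ≤ d.k.w x * d.k.η x * exp (χ / 100) + d.k.w x * exp (-χ / 2) := by linarith only [m4, m3]
    obtain b1 := mul_le_mul ew1.2 b0 wi.le (by positivity)
    obtain b2 : exp (χ / 100) * exp (χ / 100) * exp (-χ / 2) ≤ 1 := by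
      rw [← exp_add, ← exp_add]; exact exp_le_one_iff.2 (by linarith only [χ0])
    obtain b3 : exp (χ / 100) * exp (-χ / 2) * exp (-χ / 2) ≤ exp (-(97 / 100) * χ) := by
      rw [← exp_add, ← exp_add]; exact exp_le_exp.2 (by linarith only [χ0])
    obtain b4 := mul_le_mul b2 px (abs_nonneg _) zero_le_one
    obtain b5 := mul_le_mul_of_nonneg_left b3 (by (clear * - e0; positivity) : 0 ≤ |d.p a x| / d.k.η x)
    obtain b6 : 0 ≤ |d.p a x| / d.k.η x * exp (-(97 / 100) * χ) := by (clear * - e0; positivity)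
    calc _ ≤ exp (χ / 100) * (1 / (d.k.η x ^ 1 * d.k.w x)) *
          (d.k.w x * d.k.η x * exp (χ / 100) + d.k.w x * exp (-χ / 2)) *
          (1000 * exp (-χ / 2) * |d.p a x|) := mul_le_mul_of_nonneg_right b1 (by (clear * -; positivity))
      _ = 1000 * (exp (χ / 100) * exp (χ / 100) * exp (-χ / 2) * |d.p a x|) +
          1000 * (|d.p a x| / d.k.η x * (exp (χ / 100) * exp (-χ / 2) * exp (-χ / 2))) := by
        field_simp
      _ ≤ _ := by rw [hR]; linarith only [hR, R0, b4, b5]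
  obtain S0 : 0 ≤ d.S K := by linarith only [S1]
  obtain C1 : 2 * d.S K * d.Ym K a ≤ d.S K ^ 3 * d.Ym K a :=
    mul_le_mul_of_nonneg_right (by nlinarith only [S1, mul_self_nonneg (d.S K)]) (by linarith only [y1])
  obtain fin : 1000 * (d.S K * d.Ym K a) + d.S K * (8 * (d.S K ^ 3 * d.Ym K a)) ≤ d.S K ^ 5 * d.Ym K a := by
    obtain b1 : d.S K ≤ d.S K ^ 3 := le_self_pow₀ (by linarith only [S1]) (by norm_num)
    obtain b0 : 9 * d.S K ^ 3 ≤ d.S K * d.S K ^ 3 :=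
      mul_le_mul_of_nonneg_right (by linarith only [S1]) (by positivity)
    obtain b2 : 1000 + 8 * d.S K ^ 3 ≤ d.S K * d.S K ^ 3 := by linarith only [S1, b1, b0]
    obtain this := mul_le_mul_of_nonneg_right b2 (by positivity : 0 ≤ d.S K * d.Ym K a)
    linarith only [this]
  obtain pt : ∀ l q, x < l → l ≤ i → 0 ≤ q → q ≤ 1 →
      q * exp (-(9 / 10) * d.k.chi x l) ≤ exp (-χ / 2) →
      ε * d.k.w i * (q * |d.p a l|) ≤ R + d.S K ^ 5 * d.Ym K a := by
    intro l q xl li q0 q1 hq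
    obtain h1 := j2b bud _ _ _ _ _ _ h.jc x 3 _ _ T f.xm (by omega) hT a l a1 (by omega) xl (by omega)
    obtain ⟨n1, -⟩ := k2.om_in x f.D l xl (by omega)
    obtain oml : 0 ≤ d.k.om l := by
      obtain this : 0 < exp (d.k.σ x) * d.k.om l := lt_of_lt_of_le (by positivity) n1
      exact ((mul_pos_iff_of_pos_left (exp_pos _)).1 this).le
    obtain cl : d.k.chi x l ≤ χ := by
      rw [hχ, chi_add d.k xl.le li]; linarith only [chi0 k1 l i]
    obtain cl0 := chi0 k1 x l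
    obtain ⟨v, hv⟩ : ∃ y, y = vr d.k x l := ⟨_, rfl⟩
    obtain v0 : 0 ≤ v := by rw [hv]; unfold vr; positivity
    obtain v1 : v * d.k.η x ≤ 1 := by
      obtain b1 : v ≤ 1 / sqrt (d.k.η x) := hv ▸ min_le_right _ _
      obtain b2 := sqrt_pos.2 e0
      obtain b3 : sqrt (d.k.η x) ≤ 1 := sqrt_le_one.2 f.e1
      calc _ ≤ 1 / sqrt (d.k.η x) * (sqrt (d.k.η x) * sqrt (d.k.η x)) := by
            rw [mul_self_sqrt e0.le]; exact mul_le_mul_of_nonneg_right b1 e0.le
        _ = sqrt (d.k.η x) := by field_simp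
        _ ≤ 1 := b3
    obtain v2 : v * exp (-χ / 2) ≤ 1 := by
      obtain b1 : v ≤ exp (d.k.chi x l / 100) := hv ▸ min_le_left _ _
      refine (mul_le_mul_of_nonneg_right b1 (exp_pos _).le).trans ?_
      rw [← exp_add]; exact exp_le_one_iff.2 (by linarith only [χ0, cl])
    obtain a3 := A3 v v0 v1 v2
    rw [← hv] at h1
    obtain ⟨TV, hTV⟩ : ∃ y, y = T a + d.k.V x (2 * a - 2) := ⟨_, rfl⟩
    obtain TV0 : 0 ≤ TV := by rw [hTV]; (clear * - T0 V0; positivity)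
    rw [← hTV] at h1 B1 B2
    obtain t1 : ε * d.k.om l * (d.k.w i * TV) ≤ 2 * (d.S K ^ 3 * d.Ym K a) := calc
      _ ≤ u * u ^ 4 * (u ^ 3 * (2 * (d.S K ^ 2 * d.Ym K a))) := by
        refine mul_le_mul ?_ B1 (by (clear * - wi TV0; positivity)) (by (clear * - u1; positivity))
        obtain a1 := mul_le_mul_of_nonneg_left (m5 l xl li) ew0
        obtain a2 := mul_le_mul_of_nonneg_left A1 (by linarith only [u1] : 0 ≤ u)
        linarith only [a1, a2]
      _ = u ^ 8 * (2 * (d.S K ^ 2 * d.Ym K a)) := by ring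
      _ ≤ d.S K * (2 * (d.S K ^ 2 * d.Ym K a)) := mul_le_mul_of_nonneg_right u8 (by positivity)
      _ = _ := by ring
    obtain t2 : ε * d.k.w i * v * d.k.η x * (d.k.w x * TV) ≤ 4 * (d.S K ^ 3 * d.Ym K a) := calc
      _ ≤ 2 * d.S K * (2 * (d.S K ^ 2 * d.Ym K a)) :=
        mul_le_mul (by linarith only [u8, u58, a3]) B2 (by (clear * - w0 TV0; positivity)) (by positivity)
      _ = _ := by ring
    obtain t3 : ε * d.k.w i * (exp (-d.k.chi x l / 8) / d.k.η x ^ (2 * a - 2)) ≤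
        2 * d.S K * d.Ym K a := dv A4 (by positivity) (by
      refine le_trans ?_ (pw ▸ o3)
      obtain this : exp (-d.k.chi x l / 8) ≤ 1 := exp_le_one_iff.2 (by linarith only [cl0])
      (clear * - this e0; gcongr))
    obtain t4 : ε * d.k.w i * v * 1 ≤ 2 * d.S K * d.Ym K a := dv a3 zero_le_one o1
    obtain ⟨lw, hlw⟩ : ∃ y, y = (d.k.om l + v * (d.k.w x * d.k.η x)) * TV +
      exp (-d.k.chi x l / 8) / d.k.η x ^ (2 * a - 2) + v := ⟨_, rfl⟩
    obtain lw0 : 0 ≤ lw := by rw [hlw]; (clear * - oml v0 w0 e0 TV0; positivity)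
    obtain t5 : ε * d.k.w i * lw ≤ 8 * (d.S K ^ 3 * d.Ym K a) := by rw [hlw]; linarith only [C1, t1, t2, t3, t4]
    rw [← hlw] at h1
    obtain h2 : q * |d.p a l| ≤ 1000 * exp (-χ / 2) * |d.p a x| + d.S K * lw := by
      obtain b1 := mul_le_mul_of_nonneg_left h1 q0
      obtain b2 := mul_le_mul_of_nonneg_right hq (by (clear * -; positivity) : 0 ≤ 1000 * |d.p a x|)
      obtain b3 : q * (exp (g2 K d.γ / 10 * d.ls) * lw) ≤ d.S K * lw :=
        (mul_le_of_le_one_left (by (clear * - lw0; positivity)) q1).trans (mul_le_mul_of_nonneg_right sl lw0)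
      have e1 : d.p a l = d.σ.pj d.M d.t a l := rfl
      have e2 : d.p a x = d.σ.pj d.M d.t a x := rfl
      rw [← e1, ← e2] at b1
      linarith only [b1, b2, b3]
    obtain h3 := mul_le_mul_of_nonneg_left h2 (by positivity : 0 ≤ ε * d.k.w i)
    obtain h4 := mul_le_mul_of_nonneg_left t5 S0
    linarith only [sharp, fin, h3, h4]
  obtain Y0 : 0 ≤ d.S K * (8 * (d.S K ^ 3 * d.Ym K a)) := by (clear * - S1 y1; positivity)
  obtain SY0 : 0 ≤ d.S K * d.Ym K a := by positivity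
  unfold D5.P Seed.gz
  rw [mul_max_of_nonneg _ _ (by positivity : 0 ≤ ε * d.k.w i),
    mul_max_of_nonneg _ _ (by positivity : 0 ≤ ε * d.k.w i)]
  refine max_le ?_ (max_le ?_ ?_)
  · obtain this : ε * d.k.w i * 1 ≤ 2 * d.S K * d.Ym K a := dv A4 zero_le_one o1
    split_ifs <;> linarith only [R0, fin, Y0, SY0, this]
  · obtain this := pt i 1 xi le_rfl zero_le_one le_rfl
      (by rw [one_mul, ← hχ]; exact exp_le_exp.2 (by linarith only [χ0]))
    rwa [one_mul] at this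
  · obtain c1 := (k1.ch_mem i).1
    obtain e : χ = d.k.chi x (i - 1) + d.k.ch i := by
      rw [hχ, chi_add d.k (by omega : x ≤ i - 1) (by omega : i - 1 ≤ i), chi1']
    rcases (by omega : x ≤ i - 1).eq_or_lt with hx | hx
    · obtain e' : χ = d.k.ch i := by rw [e, ← hx]; simp [Sk.chi]
      rw [← hx, ← e']
      obtain this : ε * d.k.w i * (exp (-χ / 2) * |d.p a x|) ≥ 0 := by (clear * - ew0 wi; positivity)
      show ε * d.k.w i * (exp (-χ / 2) * |d.p a x|) ≤ _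
      linarith only [R0, sharp, fin, Y0, SY0]
    · refine pt (i - 1) _ hx (by omega) (exp_pos _).le (exp_le_one_iff.2 (by linarith only [c1])) ?_
      rw [← exp_add]
      exact exp_le_exp.2 (by linarith only [e, chi0 k1 x (i - 1)])

end LOC5

open LOC5 in
theorem loc5 (K : ℕ) : Hier fun c => TA_s c → J2A_s K c → J2B_s K c → LOC5_s K c := by
  refine (((Hier.β_ge (fun _ => 10 ^ 6) fun _ _ _ => rfl).and Hier.base).and
    (Hier.L_ge (fun _ => 1) fun _ _ => rfl)).mono ?_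
  rintro c ⟨⟨hβ, -, -, -, -, -, hCG⟩, hL⟩ ta j2a j2b d H N Pn E x hx a a1 a2
  obtain f := fx H N hx
  obtain ⟨T, hT, tb⟩ := j2h ta H N f
  obtain k1 := H.2.2.jc.oc.sk.1
  obtain bk := fun {i} => back j2a H N f hT a1 a2 (tb a a1 a2) (i := i)
  obtain S1 := N.S1
  obtain y1 := (N.Ym a a1).1
  obtain e0 := f.e0
  obtain x1 := f.x1
  obtain xJ := f.xJ
  obtain Jm := f.Jm
  obtain S0 : (1 : ℝ) ≤ d.S K := by linarith only [S1]
  refine ⟨?_, ?_⟩
  · obtain mS : (d.m : ℝ) ≤ d.S K := by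
      obtain h1 : (1 : ℝ) ≤ d.m := by exact_mod_cast N.m1.le
      obtain h2 := one_le_mul_of_one_le_of_one_le hCG hL
      obtain h3 := mul_le_mul_of_nonneg_right h2 (by linarith only [h1] : (0 : ℝ) ≤ d.m)
      linarith only [S1, h3, N.big']
    obtain e : (Ico 1 (d.k.nx x)).erase x = Ico 1 x ∪ Ico (x + 1) (d.k.nx x) := by
      ext i; simp only [mem_erase, mem_Ico, mem_union]; omega
    obtain card : ∀ i j : ℤ, 1 ≤ i → j ≤ d.m → ((Ico i j).card : ℝ) ≤ d.S K := fun i j h1 h2 => by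
      refine le_trans ?_ mS
      obtain this : ((Ico i j).card : ℤ) ≤ d.m := by rw [Int.card_Ico]; omega
      exact_mod_cast this
    obtain ⟨R, hR⟩ : ∃ y, y = |d.p a x| / d.k.η x := ⟨_, rfl⟩
    obtain R0 : 0 ≤ R := by rw [hR]; (clear * - e0; positivity)
    obtain s1 : ∑ i ∈ Ico 1 x, d.k.ew x i * d.k.w i * d.P a i ≤
        1024 * R * (4 * exp (-(97 / 100) * c.bl)) + d.S K * (8 * d.S K ^ 4 * d.Ym K a) := by
      refine (sum_le_sum fun i hi => term_back H N E f a1 (mem_Ico.1 hi).1 (mem_Ico.1 hi).2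
        (bk (mem_Ico.1 hi).1 (mem_Ico.1 hi).2.le)).trans ?_
      rw [sum_add_distrib, ← mul_sum, sum_const, nsmul_eq_mul, ← hR]
      exact add_le_add (mul_le_mul_of_nonneg_left (geo_down k1 f.D (by norm_num) 1) (by positivity))
        (mul_le_mul_of_nonneg_right (card 1 x le_rfl (by omega)) (by positivity))
    obtain s2 : ∑ i ∈ Ico (x + 1) (d.k.nx x), d.k.ew x i * d.k.w i * d.P a i ≤
        1024 * R * (4 * exp (-(97 / 100) * c.bl)) + d.S K * (d.S K ^ 5 * d.Ym K a) := by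
      refine (sum_le_sum fun i hi => term_in j2b H N Pn E f hT a1 a2 (tb a a1 a2)
        (mem_Ico.1 hi).1 (mem_Ico.1 hi).2).trans ?_
      rw [sum_add_distrib, ← mul_sum, sum_const, nsmul_eq_mul, ← hR]
      exact add_le_add (mul_le_mul_of_nonneg_left (geo_up k1 f.D (by norm_num) _) (by (clear * - R0; positivity)))
        (mul_le_mul_of_nonneg_right (card _ _ (by omega) Jm) (by (clear * - S1 y1; positivity)))
    obtain bl : 8192 * exp (-(97 / 100) * c.bl) ≤ exp (-(9 / 10) * c.bl) := by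
      obtain h1 : 10 ^ 6 ≤ c.bl := by unfold Cs.bl; nlinarith only [hβ, N.sl.2.2]
      obtain h2 := add_one_le_exp (7 / 100 * c.bl)
      obtain h3 : exp (-(9 / 10) * c.bl) = exp (7 / 100 * c.bl) * exp (-(97 / 100) * c.bl) := by
        rw [← exp_add]; congr 1; ring
      rw [h3]
      exact mul_le_mul_of_nonneg_right (by linarith only [h1, h2]) (exp_pos _).le
    obtain b1 := mul_le_mul_of_nonneg_right bl R0
    obtain b2 : 8 * d.S K ^ 5 + d.S K ^ 6 ≤ d.S K ^ 10 := by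
      obtain h1 : d.S K ^ 5 ≤ d.S K ^ 6 := pow_le_pow_right₀ S0 (by norm_num)
      obtain h2 : d.S K ^ 7 ≤ d.S K ^ 10 := pow_le_pow_right₀ S0 (by norm_num)
      obtain h3 : 9 * d.S K ^ 6 ≤ d.S K * d.S K ^ 6 :=
        mul_le_mul_of_nonneg_right (by linarith only [S1]) (by positivity)
      linarith only [h1, h2, h3]
    obtain b3 := mul_le_mul_of_nonneg_right b2 (by linarith only [y1] : 0 ≤ d.Ym K a)
    rw [e, sum_union (by simp only [disjoint_left, mem_Ico]; omega), ← hR]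
    linarith only [s1, s2, b1, b3]
  · obtain h1 := bk x1 le_rfl
    obtain h2 : d.k.chi x x = 0 := by simp [Sk.chi]
    rw [div_self f.w0.ne', h2, zero_div, exp_zero, one_mul, mul_one] at h1
    obtain h3 : d.S K ^ 4 ≤ d.S K ^ 10 := pow_le_pow_right₀ S0 (by norm_num)
    obtain this := mul_le_mul_of_nonneg_right h3 (by positivity : 0 ≤ d.k.η x * d.Ym K a)
    linarith only [h1, this]

end Pool.Agent.MP_9cbfe4_an

end

/-! ### Part FIT -/

section

/-! Row FIT: the true orbit fits its skeleton with constant `1`. -/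

namespace Pool.Agent.MP_9cbfe4_an
open Finset Filter Topology Real
noncomputable section

namespace FITr

structure KK (c : Cs) : Prop where
  k_lo : 1 / 16 ≤ c.k0
  k_hi : c.k0 < 1 / 2
  L : 4000 ≤ c.L
  lam : 2 ≤ c.lam
  h3 : 2 * c.lam ^ 3 ≤ c.L
  a0 : 0 < c.a
  a1 : c.a ≤ 1 / 25
  β : 0 ≤ c.β

theorem kk : Hier KK := by
  have h3 := Hier.pow_le_exp (fun _ => 2) (fun _ => 1) 3 (fun _ _ => rfl) (fun _ _ => rfl)
    (Hier.of_all fun _ => one_pos)
  refine ((((Hier.base.and (Hier.L_ge (fun _ => 4000) fun _ _ => rfl)).and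
    (Hier.lam_ge (fun _ => 2) fun _ _ => rfl)).and h3).and
    ((Hier.a_le (fun _ => 1 / 25) (fun _ _ _ _ _ _ => rfl) (Hier.of_all fun _ => by norm_num)).and
    (Hier.β_ge (fun _ => 0) fun _ _ _ => rfl))).mono ?_
  rintro c ⟨⟨⟨⟨h, hL⟩, hl⟩, h3⟩, ha, hβ⟩
  refine ⟨h.1, h.2.1, hL, hl, ?_, ha.1, ha.2, hβ⟩
  obtain this : exp (1 * c.lam) = c.L := by
    rw [one_mul, Cs.lam, exp_log (by linarith only [hL, ha])]
  exact this ▸ h3

variable {c : Cs} {M : Mdl} {d : Dat}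

theorem memF {m : ℤ} (h : m ∈ (d.sk c M).F) : m + d.n ∈ frs d.Ls d.p := by
  obtain ⟨y, hy, rfl⟩ := mem_image.1 h
  simpa using hy

theorem memD {m : ℤ} (h : m ∈ (d.sk c M).D) : m + d.n ∈ frs d.Ls d.p ∧ m + d.n < d.p := by
  obtain ⟨y, hy, rfl⟩ := mem_image.1 h
  classical
  have := mem_filter.1 hy
  simpa using ⟨this.1, this.2.1⟩

theorem chi_eq (i j : ℤ) : (d.sk c M).chi i j = (d.S M).chi c (i + d.n) (j + d.n) := by
  rw [← Sq.chi_shift]
  exact sum_congr rfl fun l _ => by simp only [Dat.sk, Sq.ch1, Sq.kk_shift]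

theorem O_fr (i j : ℤ) : (d.O M).fr (i + 1) j = (d.S M).fr (i + d.n + 1) (j + d.n) := by
  rw [Dat.O, Sq.fr_shift, add_right_comm]

theorem O_fr1 (j : ℤ) : (d.O M).fr 1 j = d.ζ M (j + d.n) := by
  rw [Dat.O, Sq.fr_shift, add_comm 1]; rfl

theorem val_le (h : KK c) (hM : M.OK c) {t x y : ℝ} (ht : TI t) (hx : Box c x) (hy : Box c y) :
    |M.G t x y| ≤ 3 / 2 * c.L := by
  have h1 := abs_le.1 (hM.val t x y ht hx hy)
  have hL := h.L
  obtain hw : c.w0 ≤ 1 / 4 := by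
    unfold Cs.w0
    obtain this : (2 : ℝ) ^ 7 ≤ c.lam ^ 7 := pow_le_pow_left₀ (by norm_num) h.lam 7
    exact one_div_le_one_div_of_le (by norm_num) (by linarith only [this])
  obtain hw0 : 0 ≤ c.w0 := by
    unfold Cs.w0
    have := h.lam
    (clear * - this; positivity)
  obtain he : (1 - c.e0) * c.w0 ≤ 1 / 4 := by
    obtain this : 1 - c.e0 ≤ 1 := by unfold Cs.e0; linarith only [h.k_hi]
    nlinarith only [hw, hw0, this]
  obtain h2 : (1 - c.e0) * c.w0 * c.L ≤ 1 / 4 * c.L := mul_le_mul_of_nonneg_right he (by linarith only [hL])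
  obtain h3 : c.L * cos x ≤ c.L := by nlinarith only [hL, cos_le_one x]
  obtain h4 : -c.L ≤ c.L * cos x := by nlinarith only [hL, neg_one_le_cos x]
  rw [abs_le]
  constructor <;> linarith only [hL, h2, h4, h3, ht.1, ht.2, h1.1, h1.2]

theorem main {K : ℕ} (h : KK c) (h1 : SK1_s K c) (h2 : SK2_s K c) (hE : DFE_s K c)
    (h8 : D8_s K c) (hX : EXT_s c) (hB : BLK_s c) (hS : SOK_s c) : FIT_s K c := by
  intro hF M hM d hd
  have k1 := h1 hF M hM.ok d hd
  have k2 := h2 hF M hM.ok d hd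
  obtain ht : TI d.t := ⟨by linarith only [hd.ht.1], by linarith only [hd.ht.2]⟩
  have hL := h.L
  obtain ⟨-, s2, s3⟩ := hS M hM.ok d.t ht
  obtain ⟨orb0, ok⟩ : IsOrb c M d.t (d.S M) 0 ∧ (d.S M).OK c := s2 d.v hd.hv
  have hn := hd.hn
  have out : (d.S M).Out c d.ξ d.n :=
    ⟨hn, hd.sol, (hd.tame _ le_rfl).1, (hd.tame _ le_rfl).2.1⟩
  obtain ⟨-, e2, e3, -, e5⟩ := hX _ _ _ _ _ _ ok out hd.run
  obtain st : (d.S M).St c (d.ζ M) (d.n + 1) := by
    refine ⟨by omega, (d.S M).fr_sol _, (d.S M).fr_self _, ?_⟩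
    rw [Dat.ζ, Sq.fr_pred, abs_zero]
    exact (exp_pos _).le
  obtain chi0 : ∀ i j, 0 ≤ (d.sk c M).chi i j := fun i j =>
    sum_nonneg fun l _ => by linarith only [(k1.ch_mem l).1]
  have wF : ∀ m ∈ frs d.Ls d.p, (d.S M).wp c d.n m = |d.ζ M m| := fun m hm => (e5 m hm).1.whm
  -- a major is a block
  obtain blk : ∀ x ∈ (d.sk c M).D, (d.S M).Out c (d.ζ M) (x + d.n) ∧ ∃ L',
      (d.S M).RInv c ((d.S M).fr (x + d.n + 1)) (x + d.n + 1) (nxt d.Ls d.p (x + d.n)) ∧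
      (d.S M).BInv c (x + d.n) L' (nxt d.Ls d.p (x + d.n)) := by
    intro x hx
    obtain ⟨hm, hp⟩ := memD hx
    obtain ⟨Lm, -, -, -, -, ho, -, hc⟩ := (e5 _ hm).2 hp
    refine ⟨ho, ?_⟩
    rcases hc with ⟨e, hc⟩ | ⟨L', r', -, a, b, -⟩
    · exfalso
      have η1 : |(d.S M).rho (d.ζ M) (x + d.n) (nxt d.Ls d.p (x + d.n))| ≤ 1 := (k1.η_mem x hx).2
      rw [e] at η1
      obtain this : (d.S M).rho (d.ζ M) (x + d.n) (x + d.n + 1) ^ 2 ≤ 1 := by
        rw [← sq_abs]; exact pow_le_one₀ (abs_nonneg _) η1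
      have hc' : c.cb * c.L ≤ 1 := hc.trans this
      obtain hl : 0 < c.lam ^ 3 := by have := h.lam; (clear * - this; positivity)
      rw [Cs.cb, one_div, inv_mul_le_iff₀ hl] at hc'
      linarith only [hL, hc', h.h3]
    · exact ⟨L', a, b⟩
  have nxe : ∀ x, (d.sk c M).nx x + d.n = nxt d.Ls d.p (x + d.n) := fun x => sub_add_cancel _ _
  refine ⟨hM, ⟨k1, k2⟩, k1.last, by linarith only [hd.ht.1], by linarith only [hd.ht.2], ?_, ?_, le_rfl,
    by norm_num, ?_⟩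
  · obtain this := ((s3 _ 0 (d.n + 1) orb0 (by omega)).1).shift d.n
    rwa [add_sub_cancel_left] at this
  · obtain hv : ∀ j, 0 ≤ j → |(d.S M).X (j + 1)| ≤ 3 / 2 * c.L := fun j hj => by
      rw [orb0.step j hj]
      exact val_le h hM.ok ht (orb0.box _ (by omega)) (orb0.box _ (by omega))
    constructor
    · show |(d.S M).X (0 + d.n)| ≤ _
      rcases hn.eq_or_lt with e | e
      · rw [← e]
        obtain this : (d.S M).X (0 + 0) = d.v := by
          simp [Dat.S, Fd.S, Mdl.O, Mdl.orb, Mdl.pos]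
        rw [this, abs_of_nonneg hd.hv.1]
        linarith only [hL, hd.hv.2]
      · obtain this := hv (d.n - 1) (by omega)
        rwa [show d.n - 1 + 1 = 0 + d.n by ring] at this
    · show |(d.S M).X (1 + d.n)| ≤ _
      rw [add_comm]
      exact hv _ hn
  refine ⟨fun i hi _ => ?_, fun m hm _ => ?_, fun m hm _ i j a b e => ?_,
    fun x hx _ i j a b e => ?_, fun x hx _ i a b => ?_, fun x hx _ => ?_, fun j a b => ?_,
    fun l a _ => ?_, fun l _ _ a b => ?_, fun x hx _ => ?_⟩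
  · rw [O_fr1, one_mul]
    exact (d.S M).abs_le_wh c _ (by omega)
  · rw [O_fr1, one_mul]
    exact (wF _ (memF hm)).le
  · rw [one_mul]
    exact hE hF M hM.ok d hd m hm i j a b e
  · obtain ⟨ho, L', ri, bi⟩ := blk x hx
    obtain ⟨hm, hp⟩ := memD hx
    have hη := (k1.η_mem x hx).1
    have hx1 := (k1.F_mem x (k1.D_mem x hx).1).1
    have hw := k1.w_pos x hx1
    obtain hj : j + d.n ≤ nxt d.Ls d.p (x + d.n) := by rw [← nxe]; omega
    obtain ⟨-, b1, -, b3⟩ := bi.i6 (i + d.n) (by omega) (by omega)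
    obtain b4 := b3 (j + d.n) (by omega) hj
    obtain b5 := (bi.i6 (j + d.n) (by omega) hj).2.1
    obtain b6 := ((hB _ _ _ _ _ _ ok st (e5 _ hm).1 ri bi (abs_pos.1 hη)).2 (j + d.n)
      (by omega) hj).2.2.2.1
    rw [← wF _ hm] at b6
    change (d.sk c M).w x * (d.sk c M).η x * _ ≤ 2 * (d.sk c M).w j at b6
    rw [← chi_eq] at b1 b4
    rw [O_fr, one_mul]
    set χ := (d.sk c M).chi x i
    have hχ : 0 ≤ χ := chi0 x i
    set u := (d.S M).wp c (x + d.n) (i + d.n)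
    set v := (d.S M).wp c (x + d.n) (j + d.n)
    set f := |(d.S M).fr (i + d.n + 1) (j + d.n)|
    have hf : 0 ≤ f := abs_nonneg _
    have hv : 0 < v := (exp_pos _).trans_le b5
    obtain b7 : f * c.L * u ≤ exp (c.a / 8 * χ) * v := by
      obtain this : f * c.L * u / v ≤ exp (c.a / 8 * χ) := by
        refine le_trans b4 (mul_le_of_le_one_right (exp_pos _).le ?_)
        linarith only [exp_pos (-(d.S M).chi c (i + d.n) (nxt d.Ls d.p (x + d.n)) / 4)]
      rwa [div_le_iff₀ hv] at this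
    obtain b8 : 2 * f ≤ exp (χ / 100) * v := by
      obtain e1 : f * 2 * exp (-(c.a / 8 * χ)) ≤ f * c.L * u :=
        mul_le_mul (mul_le_mul_of_nonneg_left (by linarith only [hL]) hf) b1 (exp_pos _).le (by (clear * - hL; positivity))
      obtain e2 : f * 2 ≤ exp (c.a / 8 * χ) * v * exp (c.a / 8 * χ) := by
        have := e1.trans b7
        rwa [exp_neg, mul_inv_le_iff₀ (exp_pos _)] at this
      obtain e3 : exp (c.a / 8 * χ) * exp (c.a / 8 * χ) ≤ exp (χ / 100) := by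
        rw [← exp_add]
        exact exp_le_exp.2 (by nlinarith only [hχ, h.a1])
      nlinarith only [e2, hv, e3]
    obtain b9 : v ≤ 2 * ((d.sk c M).V x 1 * (d.sk c M).w j) := by
      rw [Sk.V, pow_one, one_div, ← mul_assoc, mul_comm 2, mul_assoc,
        le_inv_mul_iff₀ (mul_pos hη hw)]
      linarith only [b6]
    have := mul_le_mul_of_nonneg_left b9 (exp_pos (χ / 100)).le
    rw [mul_assoc]
    linarith only [b8, this]
  · obtain ⟨ho, L', ri, bi⟩ := blk x hx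
    have hx1 := (k1.F_mem x (k1.D_mem x hx).1).1
    have hw := k1.w_pos x hx1
    obtain hj : i + d.n ≤ nxt d.Ls d.p (x + d.n) := by rw [← nxe]; omega
    obtain b1 := (bi.i6 (i + d.n) (by omega) hj).2.2.1
    obtain b2 : |(d.S M).fr (x + d.n + 1) (i + d.n)| ≤ (d.S M).wp c (x + d.n) (i + d.n) :=
      (d.S M).abs_le_wh c _ (by omega)
    obtain b3 := (d.S M).wh_decay' c (d.ζ M) (d.n + 1) (show x + d.n ≤ i + d.n by omega)
    change (d.sk c M).w x * _ ≤ (d.sk c M).w i at b3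
    rw [← chi_eq] at b1 b3
    rw [O_fr, one_mul]
    set χ := (d.sk c M).chi x i
    have hχ : 0 ≤ χ := chi0 x i
    refine (b2.trans b1).trans (le_trans ?_ (mul_le_mul_of_nonneg_left b3 (by (clear * - hw; positivity))))
    obtain this : exp (51 / 100 * χ) / (d.sk c M).w x * ((d.sk c M).w x * exp (-χ / 2)) =
        exp (51 / 100 * χ + -χ / 2) := by
      rw [exp_add]; field_simp
    rw [this]
    exact exp_le_exp.2 (by nlinarith only [hχ, h.a1])
  · obtain ⟨hm, hp⟩ := memD hx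
    have hη := (k1.η_mem x hx).1
    have hx1 := (k1.F_mem x (k1.D_mem x hx).1).1
    have hw := k1.w_pos x hx1
    rw [O_fr, one_mul, Sk.V, pow_one, one_div, inv_mul_le_iff₀ (mul_pos hη hw)]
    have e1 : (d.sk c M).w x = |d.ζ M (x + d.n)| := wF _ hm
    obtain e2 : (d.sk c M).w ((d.sk c M).nx x) = |d.ζ M (nxt d.Ls d.p (x + d.n))| := by
      rw [← wF _ (e3 _ hp).1, ← nxe]; rfl
    have e3 : (d.sk c M).η x = |(d.S M).rho (d.ζ M) (x + d.n) (nxt d.Ls d.p (x + d.n))| := rfl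
    rw [e1] at hw
    rw [e3] at hη
    obtain hfr : (d.S M).fr (x + d.n + 1) (nxt d.Ls d.p (x + d.n)) ≠ 0 := by
      intro e
      simp [Sq.rho, e] at hη
    rw [e1, e2, e3, nxe, (d.S M).rho_mul (abs_pos.1 hw) hfr, abs_mul, abs_mul]
    exact le_of_eq (by ring)
  · rw [one_mul]
    exact h8 hF M hM.ok d hd j a b
  · exact ⟨(ok.b_pos (j := l + d.n) (by omega)).le, ok.b_hi (l + d.n) _ (by omega) (by norm_num)⟩
  · obtain a' : dP ((d.S M).X (l + d.n)) ≤ 2 / 100 := by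
      change dP ((d.S M).X (l + d.n)) < _ at a
      linarith only [a]
    obtain b' : dP ((d.S M).X (l + d.n - 1)) ≤ 2 / 100 := by
      change dP ((d.S M).X (l - 1 + d.n)) < _ at b
      rw [show l - 1 + d.n = l + d.n - 1 by ring] at b
      linarith only [b]
    constructor
    · show (d.S M).ch1 c (l + d.n) ≤ _
      rw [Sq.ch1, (d.S M).kk_eq_one.2 ⟨a', b'⟩, one_mul, sub_self, zero_mul, add_zero, Cs.chK]
      obtain hk : 0 < c.k0 := by linarith only [h.k_lo]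
      refine log_le_log (by (clear * - hk; positivity)) ?_
      rw [div_le_iff₀ hk]
      linarith only [h.k_lo]
    · show _ ≤ (d.S M).bb c (2 / 100) (l + d.n)
      rw [Sq.bb, if_pos ⟨a', b'⟩]
  · obtain ⟨ho, L', ri, bi⟩ := blk x hx
    obtain ⟨hm, hp⟩ := memD hx
    obtain ⟨hη, hη1⟩ := k1.η_mem x hx
    have hlt := (e3 _ hp).2.1
    obtain b1 := ((hB _ _ _ _ _ _ ok st (e5 _ hm).1 ri bi (abs_pos.1 hη)).2 (x + d.n + 1)
      (by omega) (by omega)).1
    obtain hχ : 0 ≤ (d.S M).chi c (x + d.n) (x + d.n + 1) := by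
      have := chi0 x (x + 1)
      rwa [chi_eq, add_right_comm x 1] at this
    obtain b2 : exp (-(1 - c.a) * (d.S M).chi c (x + d.n) (x + d.n + 1)) ≤ 1 :=
      exp_le_one_iff.2 (by nlinarith only [hχ, h.a1])
    obtain hbl : 0 ≤ c.bl := mul_nonneg h.β (by linarith only [h.lam])
    have hz := bi.kz.2.1
    obtain b3 : (d.S M).b (x + d.n) ≤ 1 := by
      refine (ok.b_hi _ (2 / 100) ho.1 (by norm_num)).trans ?_
      rw [Sq.bb, if_neg fun hh => by linarith only [hz, hh.1]]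
      exact exp_le_one_iff.2 (by linarith only [hbl])
    have b4 := (ok.b_pos ho.1).le
    obtain b5 : |d.ζ M (x + d.n - 1) / d.ζ M (x + d.n)| ≤ 1 := by
      rw [abs_div, div_le_one (abs_pos.2 ho.2.2.1)]
      exact ho.2.2.2.trans (mul_le_of_le_one_left (abs_nonneg _)
        (exp_le_one_iff.2 (by linarith only [h.lam])))
    obtain b6 : d.ζ M (x + d.n + 1) / d.ζ M (x + d.n) = (d.S M).a (x + d.n) +
        (d.S M).b (x + d.n) * (d.ζ M (x + d.n - 1) / d.ζ M (x + d.n)) := by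
      rw [ho.2.1 _ le_rfl]
      have := ho.2.2.1
      field_simp
    rw [Sq.fr_self, mul_one, b6] at b1
    obtain b7 : |(d.S M).b (x + d.n) * (d.ζ M (x + d.n - 1) / d.ζ M (x + d.n))| ≤ 1 := by
      rw [abs_mul, abs_of_nonneg b4]
      exact mul_le_one₀ b3 (abs_nonneg _) b5
    obtain b8 := hM.ok.a_N d.t _ _ ht (orb0.box (x + d.n) (by linarith only [ho.1]))
      (orb0.box (x + d.n - 1) (by linarith only [ho.1])) (by linarith only [hz])
    rw [← orb0.ha _ ho.1] at b8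
    obtain b9 : c.dl ≤ 1 := exp_le_one_iff.2 (by linarith only [hbl])
    change |(d.S M).rho (d.ζ M) (x + d.n) (nxt d.Ls d.p (x + d.n))| ≤ 1 at hη1
    have q1 := abs_le.1 (b1.trans b2)
    have q2 := abs_le.1 b7
    have q3 := abs_le.1 (b8.trans b9)
    have q4 := abs_le.1 hη1
    obtain q5 : |c.L * sin ((d.S M).X (x + d.n))| ≤ 4 := by
      rw [abs_le]; constructor <;> linarith only [q1.1, q1.2, q2.1, q2.2, q3.1, q3.2, q4.1, q4.2]
    rw [abs_mul, abs_of_nonneg (by linarith only [hL] : 0 ≤ c.L)] at q5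
    show |sin ((d.S M).X (x + d.n))| ≤ _
    nlinarith only [hL, q5, abs_nonneg (sin ((d.S M).X (x + d.n)))]

end FITr

theorem fit : ∀ K, Hier fun c => SK1_s K c → SK2_s K c → DFE_s K c → D8_s K c → EXT_s c →
    BLK_s c → SOK_s c → FIT_s K c :=
  fun _ => FITr.kk.mono fun _ h => FITr.main h

end
end Pool.Agent.MP_9cbfe4_an

end
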