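import Pool.Agent.MP_9cbfe4_an.M09
import Pool.Agent.MP_9cbfe4_an.M14

set_option linter.all false

attribute [-instance] AddQuantale.instAddLeftMono IdemSemiring.toCanonicallyOrderedAdd
  NumberField.to_charZero AddQuantale.instAddRightMono IdemSemiring.toMulLeftMono RKHS.instFunLike
  Quantale.instMulRightMono Quantale.instMulLeftMono IsOrderedCancelMonoid.toIsOrderedMonoid
  LinearOrderedCommMonoidWithZero.toPosMulStrictMono
  Group.IsPerfect.subsingleton_of_isMulCommutative CanonicallyOrderedAdd.toMulLeftMono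
  Valued.toUniformSpace IdemSemiring.toMulRightMono TotallySeparatedSpace.t2Space
  LinearOrderedCommMonoidWithZero.toIsOrderedMonoid IsScalarTower.complexToReal
  Order.Coframe.toCompleteLattice OmegaCompletePartialOrder.toPartialOrder Invertible.toNeZero
  GrpTypeEquivalenceGrp.grpGroup littleWedderburn CanonicallyOrderedMul.toMulLeftMono
  CoalgHomClass.toSemilinearMapClass TestFunctionClass.toDFunLike
  ContDiffMapSupportedInClass.toDFunLike Order.Frame.toCompleteLattice RightPreLieAlgebra.toModule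
  CategoryTheory.Limits.Concrete.instUniqueToTypeTerminal LeftPreLieAlgebra.toModule
  CStarAlgebra.instOrderClosedTopology IdemSemiring.toSemiring
  LieAdmissibleRing.toNonUnitalNonAssocRing NonUnitalAlgSemiHomClass.toDistribMulActionSemiHomClass
  CStarAlgebra.toNormedRing

/-! ### Part SK0 -/

section

/-! All facts about the true run of a datum, in absolute time, and the dictionary to `Dat.sk`. -/

namespace Pool.Agent.MP_9cbfe4_an
open Finset Filter Topology Real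
noncomputable section

namespace Dat
variable (c : Cs) (Ex : ExT) (M : Mdl) (d : Dat)

/-- the step from the free time `m < p` to `q = nxt m` -/
structure StC (m q : ℤ) : Prop where
  step : (d.S M).Step c Ex (d.ζ M) (d.n + 1) m (d.dp c M m) q
  st0 : (d.S M).St0 c d.n (d.ld c M) m (d.dp c M m) q
  blk : (d.S M).Blk2 c (d.ζ M) (d.n + 1) m (d.dp c M m) q
  out : (d.S M).Out c (d.ζ M) m
  mem : (m, d.dp c M m) ∈ d.Ls
  run : ∃ Lm, (d.S M).Run c Ex (d.ζ M) (d.n + 1) ((d.S M).PBd c Ex d.ξ d.n)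
    ((m, d.dp c M m) :: Lm) q
  /-- a deep step is a block -/
  deep : c.lam ≤ d.dp c M m → ∃ L' r', (d.S M).BRun c Ex (d.ζ M) m L' q r' ∧
    (d.S M).RInv c ((d.S M).fr (m + 1)) (m + 1) q ∧ (d.S M).BInv c m L' q ∧
    (d.S M).Wp c m q ≤ 2 * d.dp c M m ∧
    c.cw * c.L ≤ (d.S M).rho (d.ζ M) m q ^ 2 * exp ((d.S M).Wt c ((d.S M).fr (m + 1)) (m + 1) q r')

/-- a free time `m ≤ p` -/
structure FrC (m : ℤ) : Prop where
  lo : d.n < m
  hi : m ≤ d.p
  rinv : (d.S M).RInv c (d.ζ M) (d.n + 1) m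
  w : (d.S M).wp c d.n m = |d.ζ M m|
  fr0 : (d.S M).Fr0 c d.n (d.ld c M) m
  run : ∃ Lm r, (d.S M).Run c Ex (d.ζ M) (d.n + 1) ((d.S M).PBd c Ex d.ξ d.n) Lm m ∧
    (d.S M).Bd c d.ξ d.n m r ∧ (d.S M).BInv c d.n Lm m
  st : m < d.p → d.StC c Ex M m (nxt d.Ls d.p m)

structure Ctx : Prop where
  ok : (d.S M).OK c
  out : (d.S M).Out c d.ξ d.n
  st : (d.S M).St c (d.ζ M) (d.n + 1)
  one : d.n + 1 ∈ frs d.Ls d.p
  last : d.p ∈ frs d.Ls d.p
  nx : ∀ i, i < d.p → nxt d.Ls d.p i ∈ frs d.Ls d.p ∧ i < nxt d.Ls d.p i ∧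
    ∀ m ∈ frs d.Ls d.p, i < m → nxt d.Ls d.p i ≤ m
  nxp : nxt d.Ls d.p d.p = d.p
  fr : ∀ m ∈ frs d.Ls d.p, d.FrC c Ex M m
  /-- every time `n < l < p` lies in the step of a free time -/
  tile : ∀ l, d.n < l → l < d.p → ∃ x ∈ frs d.Ls d.p, x ≤ l ∧ l < nxt d.Ls d.p x ∧
    nxt d.Ls d.p l = nxt d.Ls d.p x

variable {c M d}
theorem mem_F {m : ℤ} : m ∈ (d.sk c M).F ↔ m + d.n ∈ frs d.Ls d.p := by
  simp only [sk, mem_image]
  exact ⟨fun ⟨a, h, e⟩ => by rwa [← e, sub_add_cancel], fun h => ⟨_, h, by ring⟩⟩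
theorem mem_D {m : ℤ} : m ∈ (d.sk c M).D ↔ m + d.n ∈ d.mj c M := by
  simp only [sk, mem_image]
  exact ⟨fun ⟨a, h, e⟩ => by rwa [← e, sub_add_cancel], fun h => ⟨_, h, by ring⟩⟩
theorem mem_mj {m : ℤ} : m ∈ d.mj c M ↔ m ∈ frs d.Ls d.p ∧ m < d.p ∧
    c.am * d.cW c M ((d.S M).Wp c d.n m) + c.lam ≤ d.dp c M m := by
  simp only [mj, mem_filter]
theorem sk_nx (i : ℤ) : (d.sk c M).nx i + d.n = nxt d.Ls d.p (i + d.n) := sub_add_cancel _ _
theorem sk_chi (i j : ℤ) : (d.sk c M).chi i j = (d.S M).chi c (i + d.n) (j + d.n) := by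
  unfold Sk.chi Sq.chi
  rw [← Finset.map_add_right_Ioc, sum_map]; rfl
theorem sk_PB (i j : ℤ) : (d.sk c M).PB i j = (d.S M).PB c (2 / 100) (i + d.n) (j + d.n) := by
  unfold Sk.PB Sq.PB
  rw [← Finset.map_add_right_Ioc, prod_map]; rfl
theorem sk_w (i : ℤ) : (d.sk c M).w i = (d.S M).wp c d.n (i + d.n) := rfl
theorem sk_W (i : ℤ) : (d.sk c M).W i = (d.S M).Wp c d.n (i + d.n) := rfl
theorem sk_η (i : ℤ) :
    (d.sk c M).η i = |(d.S M).rho (d.ζ M) (i + d.n) (nxt d.Ls d.p (i + d.n))| := rfl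
theorem sk_sl (i : ℤ) : (d.sk c M).sl i =
    c.ths * c.cW (d.ld c M) ((d.S M).Wp c d.n (i + d.n)) + 10 * c.lam := rfl
theorem sk_σ (i : ℤ) : (d.sk c M).σ i =
    c.ths * c.cW (d.ld c M) ((d.S M).Wp c d.n (nxt d.Ls d.p (i + d.n))) + 10 * c.lam := by
  unfold Sk.σ; rw [sk_sl, sk_nx]
theorem cW_eq (y : ℝ) : d.cW c M y = c.cW (d.ld c M) y := rfl
end Dat

namespace SK0
variable {c : Cs}

theorem Wp_mono (S : Sq) (n : ℤ) {i j : ℤ} (h : i ≤ j) : S.Wp c n i ≤ S.Wp c n j :=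
  log_le_log (by linarith only [S.one_le_AA c (S.fr (n + 1)) (n + 1) i]) (S.AA_mono c _ _ h)

theorem ctx_of (h : DRP.K c) (h3 : 2 * c.lam ^ 3 ≤ c.L) (hS : SOK_s c) (hB : B1_s c)
    (hE : EXT_s c) (hD : DRP_s c) (h0 : DS0_s c) {K : ℕ} (hK : First K c) {M : Mdl} (hM : M.OK c)
    {d : Dat} (v : d.Pre c (Ex2 K c M) M) : d.Ctx c (Ex2 K c M) M := by
  obtain ok : (d.S M).OK c :=
    ((hS M hM d.t ⟨by linarith only [v.ht.1], by linarith only [v.ht.2]⟩).2.1 d.v v.hv).2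
  have pV : (d.S M).Wp c d.n d.p ≤ d.V c M := le_max_left _ _
  have tm := v.tame 0 (mul_nonneg h.C0 ((DS0.Wp0 _ _ _).trans pV))
  have out : (d.S M).Out c d.ξ d.n := ⟨v.hn, v.sol, tm.1, tm.2.1⟩
  obtain st : (d.S M).St c (d.ζ M) (d.n + 1) := B1.st_fr c _ (by linarith only [v.hn])
  obtain ⟨e1, e2, e3, e4, e5⟩ := hE _ _ _ _ _ _ ok out v.run
  obtain ⟨z1, z2⟩ := h0 hK.2.1 (Ex2 K c M) (fun _ _ _ _ _ _ a => a.1) _ _ _ (d.ld c M) ok out
  obtain ld : ∀ m, m ≤ d.p → (d.S M).load c d.n ((d.S M).Wp c d.n m) ≤ d.ld c M := fun m hm =>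
    (d.S M).load_mono c (by linarith only [h.chK.1]) h.chK.2 h.C0 _ ((Wp_mono _ _ hm).trans pV)
  obtain rn : ∀ m ∈ frs d.Ls d.p, ∃ Lm r,
      (d.S M).Run c (Ex2 K c M) (d.ζ M) (d.n + 1) ((d.S M).PBd c (Ex2 K c M) d.ξ d.n) Lm m ∧
      (d.S M).Bd c d.ξ d.n m r ∧ (d.S M).BInv c d.n Lm m := fun m hm => by
    rcases (e2 m hm).2.eq_or_lt with rfl | lt
    · exact ⟨_, _, v.run, v.bd, (hB _ _ ok).2.1 _ _ _ _ _ out v.run v.bd⟩
    · obtain ⟨Lm, a1, a2, a3, -⟩ := (e5 m hm).2 lt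
      exact ⟨Lm, _, a1, a2.1, a3⟩
  refine ⟨ok, out, st, e1, mem_insert_self _ _, e3, e4, fun m hm => ?_, fun l l1 l2 => ?_⟩
  · obtain ⟨Lm, r, a1, a2, a3⟩ := rn m hm
    refine ⟨(e2 m hm).1, (e2 m hm).2, (e5 m hm).1, (e5 m hm).1.whm,
      z1 _ _ _ a1 a2 (ld m (e2 m hm).2), ⟨Lm, r, a1, a2, a3⟩, fun lt => ?_⟩
    obtain ⟨L, b1, b2, -, b4, b5, b6, b7⟩ := (e5 m hm).2 lt
    have hq := (e3 m lt).1
    obtain R : (d.S M).Run c (Ex2 K c M) (d.ζ M) (d.n + 1) ((d.S M).PBd c (Ex2 K c M) d.ξ d.n)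
        ((m, d.dp c M m) :: L) (nxt d.Ls d.p m) := by
      unfold Dat.dp
      rcases b7 with ⟨q, b7⟩ | ⟨L', r', q1, -, -, -, q5⟩
      · rw [q] at b2 ⊢
        exact b1.shallow b7 b2
      · exact b1.block q1.1 q1.2 q5 b2
    obtain ⟨-, r', -, g, -⟩ := rn _ hq
    have bk := (hD _ _ ok).2.1 _ _ _ _ _ _ _ st R
    refine ⟨b4, (z2 _ _ _ _ _ R g (ld _ (e2 _ hq).2)).2, bk, b5, b6, ⟨L, R⟩, fun dp => ?_⟩
    refine b7.resolve_left fun ⟨q, b7⟩ => ?_
    obtain l0 : 0 < c.lam := by linarith only [h.lam]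
    obtain a : |(d.S M).rho (d.ζ M) m (m + 1)| ≤ 1 := by
      have e := bk.eta
      rw [q] at e
      obtain eL : exp c.lam = c.L := exp_log (by linarith only [h.L])
      rw [e, ← eL, ← exp_add]
      exact exp_le_one_iff.2 (by linarith only [dp])
    have b := b7.trans ((sq_le_one_iff_abs_le_one _).2 a)
    unfold Cs.cb at b
    rw [one_div, inv_mul_le_iff₀ (by positivity)] at b
    obtain this : 0 < c.lam ^ 3 := by positivity
    linarith only [h3, b, this]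
  · obtain ⟨x, hx, mx⟩ := exists_max_image ((frs d.Ls d.p).filter (· ≤ l)) id
      ⟨_, mem_filter.2 ⟨e1, l1⟩⟩
    obtain ⟨x1, x2⟩ := mem_filter.1 hx
    obtain ⟨a1, a2, a3⟩ := e3 x (by omega)
    obtain ⟨b1, b2, b3⟩ := e3 l l2
    obtain lt : l < nxt d.Ls d.p x := by
      by_contra hc
      have := mx _ (mem_filter.2 ⟨a1, not_lt.1 hc⟩)
      simp only [id] at this; omega
    exact ⟨x, x1, x2, lt, le_antisymm (b3 _ a1 lt) (a3 _ b1 (by omega))⟩
end SK0

def CTX_s (K : ℕ) (c : Cs) : Prop := First K c → ∀ M : Mdl, M.OK c → ∀ d : Dat,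
  d.Pre c (Ex2 K c M) M → d.Ctx c (Ex2 K c M) M

theorem ctx (K : ℕ) :
    Hier fun c => SOK_s c → B1_s c → EXT_s c → DRP_s c → DS0_s c → CTX_s K c := by
  have h3 := Hier.pow_le_exp (fun _ => 2) (fun _ => 1) 3 (fun _ _ => rfl) (fun _ _ => rfl)
    (Hier.of_all fun _ => one_pos)
  refine (DRP.hK.and h3).mono fun c ⟨h, a⟩ hS hB hE hD h0 hK M hM d v =>
    SK0.ctx_of h ?_ hS hB hE hD h0 hK hM v
  obtain eL : exp c.lam = c.L := exp_log (by linarith only [h.L])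
  rwa [one_mul, eL] at a

end
end Pool.Agent.MP_9cbfe4_an

end

/-! ### Part J2A -/

section

/-! Row J2A: jets before a major. -/

namespace Pool.Agent.MP_9cbfe4_an

open Finset Filter Topology Real

namespace J2A

theorem chi_add (k : Sk) {i j l : ℤ} (h1 : i ≤ j) (h2 : j ≤ l) :
    k.chi i l = k.chi i j + k.chi j l := sum_Ioc_add _ h1 h2

theorem chi_nonneg {c : Cs} {k : Sk} (h : k.OK1 c) (i j : ℤ) : 0 ≤ k.chi i j :=
  sum_nonneg fun l _ => by linarith only [(h.ch_mem l).1]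

theorem chi_pred (k : Sk) (i : ℤ) : k.chi (i - 1) i = k.ch i := by
  have := Ioc_succ_self (i - 1)
  rw [sub_add_cancel] at this
  simp [Sk.chi, this]

/-- before `x` the majorant with horizon `x+` has one more term than the one with horizon `x` -/
theorem NN_split {c : Cs} {k : Sk} (h : k.OK1 c) {x i : ℤ} (hx : x ∈ k.D) (hi : i ≤ x) (e : ℕ) :
    k.NN (k.nx x) e 0 i ≤ max (k.NN x e 0 i) (k.w4 i * k.V x e) := by
  unfold Sk.NN
  rw [fold_max_le]
  refine ⟨le_max_of_le_left ((le_fold_max _).2 (Or.inl le_rfl)), fun y hy => ?_⟩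
  obtain ⟨hyD, hy1, hy2⟩ := mem_filter.1 hy
  obtain hyx : y ≤ x := by
    by_contra hn
    obtain this := (h.nx_mem x (h.D_mem x hx).2).2.2 y (h.D_mem y hyD).1 (by omega)
    omega
  rcases hyx.lt_or_eq with hlt | rfl
  · exact le_max_of_le_left ((le_fold_max _).2
      (Or.inr ⟨y, mem_filter.2 ⟨hyD, hlt, hy2⟩, le_rfl⟩))
  · rw [if_neg (by omega)]
    simp

/-- natural size of the jet of order `b` near `x` -/
noncomputable def mu (k : Sk) (x : ℤ) (T : ℕ → ℝ) (b : ℕ) : ℝ :=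
  k.w x * T b + 1 / k.η x ^ (2 * b - 1)

section
variable {c : Cs} {M : Mdl} {σ : Seed} {t : ℝ} {k : Sk} {x : ℤ} {r : ℕ} {γ ls : ℝ} {T : ℕ → ℝ}

theorem one_le_inv (h : k.OK1 c) (hx : x ∈ k.D) (e : ℕ) : 1 ≤ 1 / k.η x ^ e := by
  obtain ⟨h0, h1⟩ := h.η_mem x hx
  rw [le_div_iff₀ (pow_pos h0 e), one_mul]
  exact pow_le_one₀ h0.le h1

theorem wx_pos (h : k.OK1 c) (hx : x ∈ k.D) : 0 < k.w x :=
  h.w_pos x (h.F_mem x (h.D_mem x hx).1).1

theorem one_le_mu (h : k.OK1 c) (H : J2H c M σ t k x r γ ls T) (b : ℕ) : 1 ≤ mu k x T b := by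
  have := one_le_inv h H.hx (2 * b - 1)
  have := mul_nonneg (wx_pos h H.hx).le (H.pos b)
  unfold mu; (rename_i zq0; linarith only [zq0, this])

theorem one_le_lo2 (h : k.OK1 c) (H : J2H c M σ t k x r γ ls T) (a : ℕ) : 1 ≤ lo2 k x T a := by
  have := one_le_inv h H.hx (2 * a - 2)
  have := mul_nonneg (mul_nonneg (wx_pos h H.hx).le (h.η_mem x H.hx).1.le) (H.pos a)
  unfold lo2; (rename_i zq0; linarith only [zq0, this])

theorem lo2_le_mu (h : k.OK1 c) (H : J2H c M σ t k x r γ ls T) (a : ℕ) :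
    lo2 k x T a ≤ mu k x T a := by
  obtain ⟨h0, h1⟩ := h.η_mem x H.hx
  have hw := wx_pos h H.hx
  obtain h2 : 1 / k.η x ^ (2 * a - 2) ≤ 1 / k.η x ^ (2 * a - 1) :=
    one_div_le_one_div_of_le (pow_pos h0 _) (pow_le_pow_of_le_one h0.le h1 (by omega))
  have h3 : k.w x * k.η x * T a ≤ k.w x * T a :=
    mul_le_mul_of_nonneg_right (mul_le_of_le_one_right hw.le h1) (H.pos a)
  unfold lo2 mu; linarith only [h2, h3]

theorem mu_mul (h : k.OK1 c) (H : J2H c M σ t k x r γ ls T) (h0l : 0 ≤ ls) {a b : ℕ} (ha : 1 ≤ a)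
    (hb : 1 ≤ b) (hab : a + b ≤ r) :
    mu k x T a * mu k x T b ≤ 4 * exp (γ * ls) * lo2 k x T (a + b) := by
  obtain ⟨h0, h1⟩ := h.η_mem x H.hx
  have hw := wx_pos h H.hx
  obtain hE : 1 ≤ exp (γ * ls) := one_le_exp (mul_nonneg (by linarith only [H.hγ]) h0l)
  set e := 2 * (a + b) - 2 with he
  obtain hV : k.w x * k.V x e = 1 / k.η x ^ e := by
    unfold Sk.V; field_simp
  have hi := one_le_inv h H.hx e
  have hT : 0 ≤ k.w x * k.η x * T (a + b) := mul_nonneg (mul_nonneg hw.le h0.le) (H.pos _)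
  have hlo : lo2 k x T (a + b) = k.w x * k.η x * T (a + b) + 1 / k.η x ^ e := rfl
  obtain hm : k.w x * max (k.η x * T (a + b)) (k.V x e) ≤ lo2 k x T (a + b) := by
    rw [mul_max_of_nonneg _ _ hw.le, hV, hlo]
    exact max_le (by linarith only [hi, mul_assoc (k.w x) (k.η x) (T (a + b))]) (by linarith only [hT])
  obtain mixed : ∀ a' b' : ℕ, 1 ≤ a' → 1 ≤ b' → a' + b' = a + b →
      k.w x * T a' * (1 / k.η x ^ (2 * b' - 1)) ≤ exp (γ * ls) * lo2 k x T (a + b) := by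
    intro a' b' h2 h3 h4
    obtain this := (H.cl a' b' h2 h3 (by omega)).2
    rw [h4] at this
    calc k.w x * T a' * (1 / k.η x ^ (2 * b' - 1)) = k.w x * (T a' / k.η x ^ (2 * b' - 1)) := by ring
      _ ≤ k.w x * (exp (γ * ls) * max (k.η x * T (a + b)) (k.V x e)) := by (clear * - this hw; gcongr)
      _ = exp (γ * ls) * (k.w x * max (k.η x * T (a + b)) (k.V x e)) := by ring
      _ ≤ _ := by gcongr
  obtain h5 : k.w x ≤ k.η x * exp (k.W (k.nx x)) := by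
    have := exp_le_exp.2 (h.maj x H.hx).1
    rw [exp_sub, exp_log hw, exp_log h0, div_le_iff₀ h0] at this
    linarith only [this]
  obtain hm2 : k.w x * k.η x * max (T (a + b)) (k.V x e) ≤ lo2 k x T (a + b) := by
    rw [mul_max_of_nonneg _ _ (mul_pos hw h0).le, hlo]
    refine max_le (by linarith only [hi]) ?_
    obtain this : k.w x * k.η x * k.V x e = k.η x * (1 / k.η x ^ e) := by rw [← hV]; ring
    obtain h6 : k.η x * (1 / k.η x ^ e) ≤ 1 / k.η x ^ e := mul_le_of_le_one_left (by linarith only [hi]) h1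
    linarith only [hT, this, h6]
  obtain tt : k.w x * T a * (k.w x * T b) ≤ exp (γ * ls) * lo2 k x T (a + b) := by
    have hp := mul_nonneg (H.pos a) (H.pos b)
    calc k.w x * T a * (k.w x * T b) = k.w x * (T a * T b) * k.w x := by ring
      _ ≤ k.w x * (T a * T b) * (k.η x * exp (k.W (k.nx x))) := by gcongr
      _ = k.w x * k.η x * (T a * T b * exp (k.W (k.nx x))) := by ring
      _ ≤ k.w x * k.η x * (exp (γ * ls) * max (T (a + b)) (k.V x e)) :=
        mul_le_mul_of_nonneg_left (H.cl a b ha hb hab).1 (mul_pos hw h0).le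
      _ = exp (γ * ls) * (k.w x * k.η x * max (T (a + b)) (k.V x e)) := by ring
      _ ≤ _ := by (clear * - hm2; gcongr)
  obtain ee : 1 / k.η x ^ (2 * a - 1) * (1 / k.η x ^ (2 * b - 1)) ≤ exp (γ * ls) * lo2 k x T (a + b) := by
    rw [div_mul_div_comm, one_mul, ← pow_add, show 2 * a - 1 + (2 * b - 1) = e by omega]
    obtain this : 1 / k.η x ^ e ≤ lo2 k x T (a + b) := by rw [hlo]; linarith only [hT]
    exact this.trans (le_mul_of_one_le_left (by linarith only [hi, hT, hlo]) hE)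
  have m1 := mixed a b ha hb rfl
  have m2 := mixed b a hb ha (add_comm _ _)
  unfold mu
  linarith only [tt, ee, m1, m2]

theorem sl_le (h : k.OK1 c) (H : J2H c M σ t k x r γ ls T) : k.sl x ≤ ls :=
  (h.sl_mono x _ (h.F_mem x (h.D_mem x H.hx).1).1
    (h.nx_mem x (h.D_mem x H.hx).2).2.1.le).trans H.hls

/-- jets before `x` -/
theorem pj_le (h : k.OK c) (hA : TA_s c) (hB : TB_s c) (H : J2H c M σ t k x r γ ls T)
    (h0l : 0 ≤ ls) {θ : ℝ} (hθ : 0 ≤ θ) {b : ℕ} (hb : 1 ≤ b) (hbr : b < r)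
    (h1 : 200 * (b : ℝ) ≤ c.C0) (h2 : 8 * (b : ℝ) ≤ θ * c.C0) {l : ℤ} (hl : 0 ≤ l) (hlx : l < x) :
    |σ.pj M t b l| ≤ exp (θ * k.chi l x + (γ + 2) * ls) * mu k x T b := by
  have hxF := (h.1.D_mem x H.hx).1
  have hw := wx_pos h.1 H.hx
  have hsl := sl_le h.1 H
  have hnx := (h.1.nx_mem x (h.1.D_mem x H.hx).2).2.1
  have hχ := mul_nonneg hθ (chi_nonneg h.1 l x)
  obtain hb' : ((2 * b - 1 : ℕ) : ℝ) ≤ 2 * b := by exact_mod_cast Nat.sub_le _ _
  have hb0 : (0 : ℝ) ≤ b := Nat.cast_nonneg _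
  obtain ⟨-, -, -, -, -, -, -, -, -, hw4, -⟩ := hA k h
  obtain hw4' : k.w4 l ≤ exp (2 * ls) * k.w x :=
    (hw4 x hxF l hl hlx.le).2.1.trans (by (clear * - hsl hw; gcongr))
  obtain hN := (hB k h x hxF (2 * b - 1) 0 (by linarith only [h1, hb']) le_rfl (by linarith only [h1])).2.2.2 l θ hl hlx
    (by linarith only [h2, hb'])
  have hi := one_le_inv h.1 H.hx (2 * b - 1)
  set u := 1 / k.η x ^ (2 * b - 1) with hu
  obtain hN' : k.NN x (2 * b - 1) 0 l ≤ exp (θ * k.chi l x + 2 * ls) * u := by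
    obtain e : k.NN x (2 * b - 1) 0 l =
        exp (θ * k.chi l x) * (exp (-θ * k.chi l x) * k.NN x (2 * b - 1) 0 l) := by
      rw [← mul_assoc, ← exp_add]; simp
    calc _ = _ := e
      _ ≤ exp (θ * k.chi l x) * exp ((0 + 2) * k.sl x) := by (clear * - hN; gcongr)
      _ ≤ exp (θ * k.chi l x + 2 * ls) := by rw [← exp_add]; exact exp_le_exp.2 (by linarith only [hsl])
      _ ≤ _ := le_mul_of_one_le_right (exp_pos _).le hi
  obtain hV : k.w x * k.V x (2 * b - 1) = u := by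
    have := (h.1.η_mem x H.hx).1
    rw [hu]; unfold Sk.V; field_simp
  obtain hV0 : 0 ≤ k.V x (2 * b - 1) := by
    have := (h.1.η_mem x H.hx).1
    unfold Sk.V; (clear * - this hw; positivity)
  obtain hN2 : k.w4 l * k.V x (2 * b - 1) ≤ exp (θ * k.chi l x + 2 * ls) * u := by
    calc _ ≤ exp (2 * ls) * k.w x * k.V x (2 * b - 1) := by (clear * - hw4' hV0; gcongr)
      _ = exp (2 * ls) * u := by rw [mul_assoc, hV]
      _ ≤ _ := by gcongr; linarith only [hχ]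
  have hN3 := (NN_split h.1 H.hx hlx.le (2 * b - 1)).trans (max_le hN' hN2)
  obtain hγ := mul_nonneg (by linarith only [H.hγ] : 0 ≤ γ) h0l
  have hT := H.pos b
  calc _ ≤ _ := H.bd b l hb hbr hl (by omega)
    _ ≤ exp (2 * ls) * k.w x * T b + exp (γ * ls) * (exp (θ * k.chi l x + 2 * ls) * u) := by gcongr
    _ ≤ exp (θ * k.chi l x + (γ + 2) * ls) * k.w x * T b
        + exp (θ * k.chi l x + (γ + 2) * ls) * u := by
      rw [← mul_assoc (exp (γ * ls)), ← exp_add]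
      obtain e1 : exp (2 * ls) ≤ exp (θ * k.chi l x + (γ + 2) * ls) := exp_le_exp.2 (by linarith only [hχ, hγ])
      obtain e2 : γ * ls + (θ * k.chi l x + 2 * ls) = θ * k.chi l x + (γ + 2) * ls := by ring
      rw [e2]
      gcongr
    _ = _ := by unfold mu; ring

/-- the sources before `x` -/
theorem Q_le {K : ℕ} {g : ℝ} {n : ℤ} (J : JC K c M σ t g k n) (hA : TA_s c) (hB : TB_s c)
    (hQ : QB_s K c) (H : J2H c M σ t k x r γ ls T) (hxn : x < n) (hr : r ≤ K + 1)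
    (hC0 : 1000 * ((K : ℝ) + 1) ^ 2 ≤ c.C0) (h1l : 1 ≤ ls) (hL : c.L ≤ exp ls) (hCG0 : 0 ≤ c.CG)
    (hCG : c.CG ≤ c.L) (hf : ((K + 1).factorial : ℝ) * 4 ^ (K + 1) ≤ c.L) (hdl : c.dl ≤ 1)
    {a : ℕ} (ha : 1 ≤ a) (har : a < r) {i : ℤ} (hi : 1 ≤ i) (hix : i < x) :
    |σ.Qj M t a i| ≤ exp ((K * (2 * γ + 2) + 3) * ls) * exp (k.chi i x / 8) * lo2 k x T a := by
  have h := J.oc.sk
  have hlo := one_le_lo2 h.1 H a
  have hχ := chi_nonneg h.1 i x
  have hK : (0 : ℝ) ≤ K := Nat.cast_nonneg _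
  have hγ := H.hγ
  obtain hp : 0 ≤ K * (2 * γ + 2) * ls := by (clear * - hγ h1l; positivity)
  obtain ⟨-, -, q1, q2⟩ := hQ M σ t g k n J
  rcases ha.eq_or_lt with rfl | ha2
  · have h1 := abs_le.1 (q1 i hi).2
    obtain h2 : |σ.Qj M t 1 i| ≤ 2 := abs_le.2 ⟨by linarith only [hdl, h1], by linarith only [hdl, h1]⟩
    obtain h3 : 2 ≤ exp ((K * (2 * γ + 2) + 3) * ls) := by
      have := add_one_le_exp ((K * (2 * γ + 2) + 3) * ls)
      linarith only [h1l, hp, this]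
    obtain h4 : 1 ≤ exp (k.chi i x / 8) := one_le_exp (by linarith only [hχ])
    calc |σ.Qj M t 1 i| ≤ 2 * 1 * 1 := by linarith only [h2]
      _ ≤ _ := by gcongr
  set θ : ℝ := 1 / (8 * (K + 1)) with hθ
  obtain hθ0 : 0 < θ := by (clear * -; positivity)
  obtain hθ1 : θ * (8 * (K + 1)) = 1 := by rw [hθ]; field_simp
  obtain hθ2 : θ ≤ 1 / 2 := by nlinarith only [hθ0, hθ1]
  set y := θ * k.chi i x + (γ + 2) * ls with hy
  obtain hy0 : 0 ≤ y := by (clear * - hχ hγ h1l; positivity)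
  obtain hE : 1 ≤ exp (γ * ls) := one_le_exp (by positivity)
  obtain hgz : ∀ b, 1 ≤ b → b < a → exp (-y) * σ.gz M t (exp (-k.ch i / 2)) b i ≤ mu k x T b := by
    intro b hb hba
    obtain hbK : (b : ℝ) ≤ K := by exact_mod_cast (by omega : b ≤ K)
    obtain h1 : 200 * (b : ℝ) ≤ c.C0 := by nlinarith only [hC0, hθ0, hθ2, hbK]
    obtain h2 : 8 * (b : ℝ) ≤ θ * c.C0 := by
      obtain this : θ * (1000 * ((K : ℝ) + 1) ^ 2) ≤ θ * c.C0 := by (clear * - hC0; gcongr)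
      obtain e : θ * (1000 * ((K : ℝ) + 1) ^ 2) = 125 * (K + 1) * (θ * (8 * (K + 1))) := by ring
      rw [e, hθ1] at this
      linarith only [hθ0, hθ2, hbK, this]
    have hm := one_le_mu h.1 H b
    obtain p1 := pj_le h hA hB H (by linarith only [h1l, hθ0, hθ2]) hθ0.le hb (by omega) h1 h2 (by omega : 0 ≤ i) hix
    obtain p2 := pj_le h hA hB H (by linarith only [h1l, hθ0, hθ2]) hθ0.le hb (by omega) h1 h2 (by omega : 0 ≤ i - 1)
      (by omega : i - 1 < x)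
    have hch := (h.1.ch_mem i).1
    obtain p3 : exp (-k.ch i / 2) * |σ.pj M t b (i - 1)| ≤ exp y * mu k x T b := by
      refine (mul_le_mul_of_nonneg_left p2 (exp_pos _).le).trans ?_
      rw [← mul_assoc, ← exp_add, chi_add k (by omega : i - 1 ≤ i) hix.le, chi_pred]
      refine mul_le_mul_of_nonneg_right (exp_le_exp.2 ?_) (by linarith only [hθ0, hθ2, hm])
      nlinarith only [hθ1, hch, hθ0, hθ2]
    obtain p4 : σ.gz M t (exp (-k.ch i / 2)) b i ≤ exp y * mu k x T b := by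
      refine max_le ?_ (max_le p1 p3)
      have := one_le_exp hy0
      split_ifs <;> nlinarith only [hm, this, hθ0, hθ2, hθ1]
    refine (mul_le_mul_of_nonneg_left p4 (exp_pos _).le).trans ?_
    rw [← mul_assoc, ← exp_add]; simp
  obtain hq := (q2 i a (mu k x T) (exp (-y)) (4 * exp (γ * ls)) (4 * exp (γ * ls) * lo2 k x T a) hi
    (by omega) ha2 (by omega) (exp_pos _) (exp_le_one_iff.2 (by linarith only [hy0])) (by linarith only [hθ0, hθ2, hE])
    (by positivity) hgz (fun a' b' h1 h2 h3 => (mu_mul h.1 H (by linarith only [h1l, hθ0, hθ2]) h1 h2 (by omega)).trans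
      (mul_le_mul_of_nonneg_left (lo2_le_mu h.1 H _) (by positivity)))).1
    fun a' b' h1 h2 h3 => h3 ▸ mu_mul h.1 H (by linarith only [h1l, hθ0, hθ2]) h1 h2 (by omega)
  refine hq.trans ?_
  obtain haK : (a : ℝ) ≤ K := by exact_mod_cast (by omega : a ≤ K)
  have hL0 : 0 ≤ c.L := hCG0.trans hCG
  obtain e1 : (4 * exp (γ * ls)) ^ (a - 2) * (4 * exp (γ * ls)) ≤ 4 ^ a * exp (a * (γ * ls)) := by
    rw [← pow_succ, exp_nat_mul, ← mul_pow]
    exact pow_le_pow_right₀ (by linarith only [hθ0, hθ2, hE]) (by omega)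
  obtain e2 : (a.factorial : ℝ) * 4 ^ a ≤ exp ls := by
    refine le_trans ?_ (hf.trans hL)
    obtain this : (a.factorial : ℝ) ≤ (K + 1).factorial := by
      exact_mod_cast Nat.factorial_le (by omega)
    obtain this : (4 : ℝ) ^ a ≤ 4 ^ (K + 1) := pow_le_pow_right₀ (by norm_num) (by omega)
    (rename_i zq0; clear * - zq0 this; gcongr)
  obtain e3 : (a : ℝ) * y + a * (γ * ls) + 3 * ls ≤ (K * (2 * γ + 2) + 3) * ls + k.chi i x / 8 := by
    obtain h1 : (a : ℝ) * θ ≤ 1 / 8 := by nlinarith only [hθ0, hθ1, haK]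
    obtain h2 : (a : ℝ) * θ * k.chi i x ≤ 1 / 8 * k.chi i x := by (clear * - h1 hχ; gcongr)
    obtain h3 : (a : ℝ) * ((2 * γ + 2) * ls) ≤ K * ((2 * γ + 2) * ls) := by (clear * - haK hγ h1l; gcongr)
    rw [hy]; linarith only [h2, h3]
  have hCe := hCG.trans hL
  calc _ = a.factorial * c.CG * c.L * exp (a * y) *
        ((4 * exp (γ * ls)) ^ (a - 2) * (4 * exp (γ * ls))) * lo2 k x T a := by
        rw [exp_neg, inv_pow, div_inv_eq_mul, exp_nat_mul]; ring
    _ ≤ a.factorial * c.CG * c.L * exp (a * y) * (4 ^ a * exp (a * (γ * ls))) * lo2 k x T a := by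
        (clear * - e1 hCG0 hL0 hlo; gcongr)
    _ = a.factorial * 4 ^ a * c.CG * c.L * (exp (a * y) * exp (a * (γ * ls))) * lo2 k x T a := by
        ring
    _ ≤ exp ls * exp ls * exp ls * (exp (a * y) * exp (a * (γ * ls))) * lo2 k x T a := by
        (clear * - e2 hCe hCG0 hL hL0 hlo; gcongr)
    _ ≤ _ := by
        simp only [← exp_add]
        exact mul_le_mul_of_nonneg_right (exp_le_exp.2 (by linarith only [e3])) (by linarith only [hlo, hθ0, hθ2])

theorem Pb_le {g : ℝ} {S : Sq} {n : ℤ} (F : Fit c g S k n) {i l : ℤ} (hi : 0 ≤ i) (hl : l ≤ n) :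
    |S.Pb i l| ≤ k.PB i l := by
  obtain h0 : ∀ j ∈ Ioc i l, 0 ≤ S.b j ∧ S.b j ≤ k.B j := fun j hj =>
    F.b j (by have := (mem_Ioc.1 hj).1; omega) ((mem_Ioc.1 hj).2.trans hl)
  rw [Sq.Pb, abs_of_nonneg (prod_nonneg fun j hj => (h0 j hj).1)]
  exact prod_le_prod (fun j hj => (h0 j hj).1) fun j hj => (h0 j hj).2

theorem sum_Ico_le {f : ℤ → ℝ} {i j x : ℤ} {Z Y : ℝ} (hi : 1 ≤ i) (hj : j ≤ x) (hx : 1 ≤ x)
    (hZ : 0 ≤ Z) (hY : (x : ℝ) ^ 2 ≤ Y) (h : ∀ l, i ≤ l → l < j → f l ≤ Z) :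
    ∑ l ∈ Ico i j, f l ≤ Y * Z := by
  have h1 := sum_le_card_nsmul (Ico i j) f Z fun l hl => h l (mem_Ico.1 hl).1 (mem_Ico.1 hl).2
  rw [nsmul_eq_mul, Int.card_Ico] at h1
  obtain h2 : (((j - i).toNat : ℕ) : ℝ) ≤ x := by
    obtain this : (((j - i).toNat : ℕ) : ℤ) ≤ x := by omega
    exact_mod_cast this
  obtain h3 : (1 : ℝ) ≤ x := by exact_mod_cast hx
  exact h1.trans (mul_le_mul_of_nonneg_right (by nlinarith only [hY, h2, h3]) hZ)

theorem main {K : ℕ} {g : ℝ} {n : ℤ} (J : JC K c M σ t g k n) (hA : TA_s c) (hB : TB_s c)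
    (hC : TC_s c) (hQ : QB_s K c) (H : J2H c M σ t k x r γ ls T) (hxn : x < n) (hr : r ≤ K + 1)
    (hC0 : 1000 * ((K : ℝ) + 1) ^ 2 ≤ c.C0) (h1l : 1 ≤ c.lam) (hL4 : 20000 ≤ c.L) (hCG0 : 0 ≤ c.CG)
    (hCG : c.CG ≤ c.L) (hf : ((K + 1).factorial : ℝ) * 4 ^ (K + 1) ≤ c.L) (hbl : 0 ≤ c.bl)
    {a : ℕ} (ha : 1 ≤ a) (har : a < r) {l : ℤ} (hl : 0 ≤ l) (hlx : l ≤ x) :
    exp (-k.chi l x / 4) *
      |σ.pj M t a l - (σ.orb M t).fr 1 l / (σ.orb M t).fr 1 x * σ.pj M t a x|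
      ≤ exp (g2 K γ / 10 * ls) * lo2 k x T a := by
  have h := J.oc.sk
  have F := J.oc.fit
  obtain ⟨hxF, hxN⟩ := h.1.D_mem x H.hx
  have hx1 := (h.1.F_mem x hxF).1
  obtain ⟨A1, -, -, A4, A5, -, A7, -, -, -, -, A12, -⟩ := hA k h
  have hσ : ∀ i, i ≤ x → k.σ i ≤ ls := fun i hi => (A4 i x hi hxN.le).trans H.hls
  have hls : c.lam ≤ ls := (A5 x hxN.le).trans H.hls
  obtain hL : c.L ≤ exp ls := by
    have := exp_le_exp.2 hls
    rwa [Cs.lam, exp_log (by linarith only [hL4])] at this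
  obtain hdl : c.dl ≤ 1 := exp_le_one_iff.2 (by linarith only [hbl])
  have hlo := one_le_lo2 h.1 H a
  have hK : (0 : ℝ) ≤ K := Nat.cast_nonneg _
  have hγ := H.hγ
  have hg1 := J.oc.g1
  have hg := J.oc.g16
  have hw := wx_pos h.1 H.hx
  have hsl := sl_le h.1 H
  have hχ := chi_nonneg h.1
  set S := σ.orb M t with hS
  set Cq := exp ((K * (2 * γ + 2) + 3) * ls) with hCq
  obtain hCq1 : 1 ≤ Cq := one_le_exp (mul_nonneg (by (clear * - hγ; positivity)) (by linarith only [h1l, hls]))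
  obtain hbig : exp (16 * ls) * Cq ≤ exp (g2 K γ / 10 * ls) := by
    rw [hCq, ← exp_add]
    refine exp_le_exp.2 ?_
    obtain this : 16 + (K * (2 * γ + 2) + 3) ≤ g2 K γ / 10 := by unfold g2; nlinarith only [hγ]
    nlinarith only [this, h1l, hls]
  obtain he1 : ∀ y : ℝ, 0 ≤ y → 1 ≤ exp (y * ls) := fun y hy =>
    one_le_exp (mul_nonneg hy (by linarith only [h1l, hls]))
  refine le_trans ?_ (mul_le_mul_of_nonneg_right hbig (by linarith only [hlo]))
  obtain hP0 : |σ.pj M t a 0| ≤ 1 / 10 := by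
    rw [((hQ M σ t g k n J).2.1 a).1]; exact J.at'.cj a ha (by omega)
  obtain hex : exp (-k.chi l x / 4) ≤ 1 := exp_le_one_iff.2 (by linarith only [hχ l x])
  obtain hR : 1 ≤ exp (16 * ls) * Cq * lo2 k x T a :=
    one_le_mul_of_one_le_of_one_le (one_le_mul_of_one_le_of_one_le (he1 16 (by norm_num)) hCq1) hlo
  rcases hl.eq_or_lt with rfl | hl1
  · rw [S.fr_lt (by norm_num : (0 : ℤ) < 1), zero_div, zero_mul, sub_zero]
    have := mul_le_mul hex hP0 (abs_nonneg _) zero_le_one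
    linarith only [hR, this]
  have hξ : k.w x ≤ g * |S.fr 1 x| := F.f2 x hxF hxn.le
  obtain hξ0 : 0 < |S.fr 1 x| := by
    by_contra hn
    have := abs_nonneg (S.fr 1 x)
    nlinarith only [hw, hξ, hn, hg1]
  rcases hlx.eq_or_lt with rfl | hlx
  · rw [div_self (abs_pos.1 hξ0), one_mul, sub_self, abs_zero, mul_zero]; linarith only [hR]
  obtain hE0 : ∀ i, 1 ≤ i → i < x → 0 ≤ k.E x i := fun i h1 h2 => by
    obtain h3 := A12 x i h1 (by omega)
    have h4 := h.1.w_pos i h1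
    by_contra hn
    nlinarith only [h3, h4, hn]
  obtain hE : ∀ i, 1 ≤ i → i < x → |S.fr (i + 1) x / S.fr 1 x| ≤ 256 * k.E x i := fun i h1 h2 => by
    rw [abs_div, div_le_iff₀ hξ0]
    have h3 := hE0 i h1 h2
    calc _ ≤ g * k.E x i * k.w x := F.fE x hxF hxn.le i x h1 h2 le_rfl
      _ ≤ 16 * k.E x i * (16 * |S.fr 1 x|) := by
        gcongr
        exact hξ.trans (by (clear * - hg hξ0; gcongr))
      _ = _ := by ring
  obtain hEw : ∀ i, 1 ≤ i → i < x → exp (-k.chi i x / 8) * (k.E x i * k.w4 i) ≤ exp (10 * ls) :=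
    fun i h1 h2 => by
    obtain h3 := (hB k h x hxF 1 8 (by push_cast; nlinarith) (by norm_num) (by nlinarith)).2.2.2 i
      (1 / 8) (by omega) h2 (by push_cast; nlinarith)
    rw [show -(1 / 8) * k.chi i x = -k.chi i x / 8 by ring] at h3
    calc _ ≤ exp (-k.chi i x / 8) * k.NN x 1 8 i := by gcongr; exact (hC k h x hxF).1 i h1 h2
      _ ≤ _ := h3
      _ ≤ _ := exp_le_exp.2 (by linarith only [hsl])
  obtain hq : ∀ i, 1 ≤ i → i < x → |σ.Qj M t a i| ≤ Cq * exp (k.chi i x / 8) * lo2 k x T a :=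
    fun i h1 h2 => Q_le J hA hB hQ H hxn hr hC0 (by linarith only [h1l, hls]) hL hCG0 hCG hf hdl ha har h1 h2
  obtain hξi : ∀ i, 1 ≤ i → i ≤ x → |S.fr 1 i| ≤ 16 * k.w i := fun i h1 h2 =>
    (F.f1 i h1 (by omega)).trans (mul_le_mul_of_nonneg_right hg (h.1.w_pos i h1).le)
  obtain key := Sq.bw_le (S := S) (P := σ.pj M t a) (Q := σ.Qj M t a) (ξ := S.fr 1) (s := 1)
    (l := l) (n := x) hl1 hlx.le (abs_pos.1 hξ0) (B := fun i => |S.Pb i l|)
    (E := fun i => |S.fr (i + 1) x / S.fr 1 x|) (w := fun i => |S.fr 1 i|)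
    (q := fun i => |σ.Qj M t a i|)
    (fun j _ _ => by simp only [Seed.Qj, hS]; ring) (fun j h1 _ => S.fr_succ h1)
    (fun _ _ _ => le_rfl) (fun _ _ _ => le_rfl) (fun _ _ _ => le_rfl) fun _ _ _ => le_rfl
  have hx2 : (x : ℝ) ^ 2 ≤ exp ls := (A7 x hx1 hxN.le).1.trans (exp_le_exp.2 H.hls)
  have hwl := h.1.w_pos l hl1
  have hw4l := A1 l hl1
  set Z := 4096 * exp (14 * ls) * (Cq * lo2 k x T a) with hZ
  obtain hZ0 : 0 ≤ Z := by positivity
  obtain T1 : ∑ i ∈ Ico l x, exp (-k.chi l x / 4) * (|S.fr 1 l| *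
      (|S.fr (i + 1) x / S.fr 1 x| * |σ.Qj M t a i|)) ≤ exp ls * Z := by
    refine sum_Ico_le hl1 le_rfl hx1 hZ0 hx2 fun i h1 h2 => ?_
    obtain h3 : 1 ≤ i := by omega
    obtain h4 := ((hB k h x hxF 0 0 (by push_cast; nlinarith only [hC0]) le_rfl (by nlinarith only [hC0])).2.1 l i hl h1
      h2.le).1
    have h5 := hE0 i h3 h2
    have h6 := hEw i h3 h2
    obtain h7 : exp (4 * k.σ i) ≤ exp (4 * ls) := exp_le_exp.2 (by linarith only [hσ i h2.le])
    have h8 : 0 ≤ k.w4 i := (h.1.w_pos i h3).le.trans (A1 i h3)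
    obtain e : exp (-k.chi l x / 4) * exp (k.chi i x / 8) =
        exp (-k.chi l i / 4) * exp (-k.chi i x / 8) := by
      rw [← exp_add, ← exp_add, chi_add k h1 h2.le]; ring_nf
    calc _ ≤ exp (-k.chi l x / 4) * ((16 * k.w4 l) *
          ((256 * k.E x i) * (Cq * exp (k.chi i x / 8) * lo2 k x T a))) := by
          obtain k1 : |S.fr 1 l| ≤ 16 * k.w4 l := (hξi l hl1 hlx.le).trans (by linarith only [hw4l])
          have k2 := hE i h3 h2
          have k3 := hq i h3 h2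
          obtain k4 : 0 ≤ k.w4 l := by linarith only [hwl, hw4l]
          (clear * - k1 k2 k3 h5 k4; gcongr)
      _ = 4096 * (exp (-k.chi l x / 4) * exp (k.chi i x / 8)) * k.w4 l * k.E x i *
          (Cq * lo2 k x T a) := by ring
      _ = 4096 * (exp (-k.chi i x / 8) * k.E x i * (exp (-k.chi l i / 4) * k.w4 l)) *
          (Cq * lo2 k x T a) := by rw [e]; ring
      _ ≤ 4096 * (exp (-k.chi i x / 8) * k.E x i * (exp (4 * ls) * k.w4 i)) *
          (Cq * lo2 k x T a) := by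
          obtain k1 : exp (-k.chi l i / 4) * k.w4 l ≤ exp (4 * ls) * k.w4 i := h4.trans (by (clear * - h7 h8; gcongr))
          gcongr 4096 * (_ * ?_) * _
      _ = 4096 * (exp (4 * ls) * (exp (-k.chi i x / 8) * (k.E x i * k.w4 i))) *
          (Cq * lo2 k x T a) := by ring
      _ ≤ 4096 * (exp (4 * ls) * exp (10 * ls)) * (Cq * lo2 k x T a) := by (clear * - h6 hlo; gcongr)
      _ = Z := by rw [← exp_add, hZ]; ring_nf
  have hEl := hE l hl1 hlx
  have hEl0 := hE0 l hl1 hlx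
  have hEwl := hEw l hl1 hlx
  obtain hPB : ∀ i, 1 ≤ i → i ≤ l →
      |S.Pb i l| * k.w i ≤ exp (4 * ls) * exp (-k.chi i l / 2) * k.w4 l := fun i h1 h2 => by
    obtain h3 := h.2.d4 i l h1 h2 (by omega)
    obtain h4 : exp (k.σ l) ≤ exp (4 * ls) := exp_le_exp.2 (by linarith only [h1l, hls, hσ l hlx.le])
    calc _ ≤ k.PB i l * k.w i :=
          mul_le_mul_of_nonneg_right (Pb_le F (by omega) (by omega)) (h.1.w_pos i h1).le
      _ ≤ _ := h3
      _ ≤ _ := by (clear * - h4 hw4l hwl; gcongr)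
  obtain T3 : ∑ i ∈ Ico 1 l, exp (-k.chi l x / 4) * (|S.fr (l + 1) x / S.fr 1 x| *
      (|S.Pb i l| * |S.fr 1 i| * |σ.Qj M t a i|)) ≤ exp ls * Z := by
    refine sum_Ico_le le_rfl hlx.le hx1 hZ0 hx2 fun i h1 h2 => ?_
    obtain e : exp (-k.chi l x / 4) * exp (k.chi i x / 8) * exp (-k.chi i l / 2) ≤
        exp (-k.chi l x / 8) := by
      rw [← exp_add, ← exp_add, chi_add k h2.le hlx.le]
      exact exp_le_exp.2 (by linarith only [hχ i l])
    obtain h8 : 0 ≤ k.w4 l := by linarith only [hwl, hw4l]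
    have h9 := (h.1.w_pos i h1).le
    calc _ ≤ exp (-k.chi l x / 4) * ((256 * k.E x l) *
          (|S.Pb i l| * (16 * k.w i) * (Cq * exp (k.chi i x / 8) * lo2 k x T a))) := by
          gcongr
          · exact hξi i h1 (by omega)
          · exact hq i h1 (by omega)
      _ = 4096 * (exp (-k.chi l x / 4) * exp (k.chi i x / 8) * k.E x l * (|S.Pb i l| * k.w i)) *
          (Cq * lo2 k x T a) := by ring
      _ ≤ 4096 * (exp (-k.chi l x / 4) * exp (k.chi i x / 8) * k.E x l *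
          (exp (4 * ls) * exp (-k.chi i l / 2) * k.w4 l)) * (Cq * lo2 k x T a) := by
          have k1 := hPB i h1 h2.le
          gcongr 4096 * (_ * ?_) * _
      _ = 4096 * (exp (4 * ls) * ((exp (-k.chi l x / 4) * exp (k.chi i x / 8) *
          exp (-k.chi i l / 2)) * (k.E x l * k.w4 l))) * (Cq * lo2 k x T a) := by ring
      _ ≤ 4096 * (exp (4 * ls) * (exp (-k.chi l x / 8) * (k.E x l * k.w4 l))) *
          (Cq * lo2 k x T a) := by (clear * - e hEl0 h8 hlo; gcongr)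
      _ ≤ 4096 * (exp (4 * ls) * exp (10 * ls)) * (Cq * lo2 k x T a) := by (clear * - hEwl hlo; gcongr)
      _ = Z := by rw [← exp_add, hZ]; ring_nf
  obtain hWr : |S.Wr (σ.pj M t a) (S.fr 1) 1| ≤ 1 := by
    obtain ⟨b0, b1⟩ := F.b 1 le_rfl (by omega)
    rw [h.1.ch_one.2] at b1
    obtain b2 : exp (-c.bl) ≤ 1 := exp_le_one_iff.2 (by linarith only [hbl])
    rw [Sq.Wr, S.fr_pred, S.fr_self, mul_zero, one_mul, zero_sub, abs_mul, abs_neg,
      abs_of_nonneg b0, sub_self]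
    nlinarith only [b1, b2, hP0, b0, abs_nonneg (σ.pj M t a 0)]
  obtain T2 : exp (-k.chi l x / 4) * (|S.fr (l + 1) x / S.fr 1 x| *
      (|S.Pb 1 l| * |S.Wr (σ.pj M t a) (S.fr 1) 1|)) ≤ exp ls * Z := by
    have h1 := hPB 1 le_rfl hl1
    rw [h.1.w1, mul_one] at h1
    obtain h8 : 0 ≤ k.w4 l := by linarith only [hwl, hw4l]
    obtain h2 : exp (-k.chi 1 l / 2) ≤ 1 := exp_le_one_iff.2 (by linarith only [hχ 1 l])
    obtain h3 : exp (-k.chi l x / 4) ≤ exp (-k.chi l x / 8) := exp_le_exp.2 (by linarith only [hχ l x])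
    have h4 : 1 ≤ Cq * lo2 k x T a := one_le_mul_of_one_le_of_one_le hCq1 hlo
    calc _ ≤ exp (-k.chi l x / 8) * ((256 * k.E x l) * ((exp (4 * ls) * 1 * k.w4 l) * 1)) := by
          gcongr
          exact h1.trans (by (clear * - h2 h8; gcongr))
      _ = 256 * (exp (4 * ls) * (exp (-k.chi l x / 8) * (k.E x l * k.w4 l))) * 1 := by ring
      _ ≤ 4096 * (exp (4 * ls) * exp (10 * ls)) * (Cq * lo2 k x T a) := by gcongr; norm_num
      _ = Z := by rw [← exp_add, hZ]; ring_nf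
      _ ≤ _ := le_mul_of_one_le_left hZ0 (one_le_exp (by linarith only [h1l, hls]))
  obtain e0 : S.fr 1 l / S.fr 1 x * σ.pj M t a x = S.fr 1 l * (σ.pj M t a x / S.fr 1 x) := by ring
  rw [e0]
  refine (mul_le_mul_of_nonneg_left key (exp_pos _).le).trans ?_
  rw [← mul_sum, ← mul_sum] at T1 T3
  obtain e1 : exp (16 * ls) = exp ls * (exp ls * exp (14 * ls)) := by
    rw [← exp_add, ← exp_add]; ring_nf
  obtain e2 : 3 * (exp ls * Z) ≤ exp (16 * ls) * Cq * lo2 k x T a := by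
    rw [e1, hZ]
    obtain h1 : 12288 ≤ exp ls := by linarith only [hL4, hL]
    calc _ = 12288 * (exp ls * exp (14 * ls) * (Cq * lo2 k x T a)) := by ring
      _ ≤ exp ls * (exp ls * exp (14 * ls) * (Cq * lo2 k x T a)) := by (clear * - h1 hlo; gcongr)
      _ = _ := by ring
  rw [mul_add, mul_add (|S.fr (l + 1) x / S.fr 1 x|), mul_add]
  linarith only [T1, T3, T2, e2]
end

end J2A

theorem j2a : ∀ K : ℕ, Hier fun c => TA_s c → TB_s c → TC_s c → QB_s K c → J2A_s K c := by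
  intro K
  refine (((((((Hier.C0_ge fun _ _ _ _ => 1000 * ((K : ℝ) + 1) ^ 2).and
    (Hier.lam_ge (fun _ => 1) fun _ _ => rfl)).and (Hier.L_ge (fun _ => 20000) fun _ _ => rfl)).and
    Hier.base).and (Hier.L_ge (fun c => c.CG) fun _ _ => rfl)).and
    (Hier.L_ge (fun _ => ((K + 1).factorial : ℝ) * 4 ^ (K + 1)) fun _ _ => rfl)).and
    (Hier.β_ge (fun _ => 0) fun _ _ _ => rfl)).mono ?_
  rintro c ⟨⟨⟨⟨⟨⟨h1, h2⟩, h3⟩, -, -, -, -, -, h4⟩, h5⟩, h6⟩, h7⟩ hA hB hC hQ - M σ t g k n J x r γ ls T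
    hxn hr H a l ha har hl hlx
  exact J2A.main J hA hB hC hQ H hxn hr h1 h2 h3 (by linarith only [h4]) h5 h6
    (mul_nonneg h7 (by linarith only [h2])) ha har hl hlx

end Pool.Agent.MP_9cbfe4_an

end

/-! ### Part BET5 -/

section

/-! J5, part a: the numbers `β_x` and the second jet at the majors. -/

namespace Pool.Agent.MP_9cbfe4_an

open Finset Filter Topology Real

noncomputable section

namespace BET5

variable {K : ℕ} {c : Cs} {M : Mdl} {σ σ' : Seed} {t g : ℝ} {k : Sk} {m B st : ℤ}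
  {γ G ls ϖ : ℝ} {T : ℕ → ℝ}

lemma NN_free (hk : k.OK1 c) {l n : ℤ} (hl : l ∈ k.F) (h4 : k.w4 l = k.w l) {e : ℕ} {A : ℝ}
    (h1 : 1 ≤ A) (h2 : ∀ y ∈ k.D, y < n → l ≤ y → k.w l * k.V y e ≤ A) : k.NN n e 0 l ≤ A := by
  refine (fold_max_le _).2 ⟨by simpa using h1, fun y hy => ?_⟩
  obtain ⟨h3, h5, h6⟩ := mem_filter.1 hy
  have h7 : ¬ y < l := fun h => (h6.trans_le ((hk.nx_mem y (hk.D_mem y h3).2).2.2 l hl h)).false
  simpa [h7, h4] using h2 y h3 h5 (not_lt.1 h7)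

lemma NN_split {l n n' : ℤ} (hl : l ≤ n') (h4 : 0 ≤ k.w4 l) {e : ℕ} {U : ℝ} (hU : 0 ≤ U)
    (h2 : ∀ y ∈ k.D, y < n → n' ≤ y → k.V y e ≤ U) :
    k.NN n e 0 l ≤ k.w4 l * U + k.NN n' e 0 l := by
  have h0 : exp (0 * k.σ l) ≤ k.NN n' e 0 l := (le_fold_max _).2 (.inl le_rfl)
  have h1 := mul_nonneg h4 hU
  refine (fold_max_le _).2 ⟨by linarith only [h0, h1], fun y hy => ?_⟩
  obtain ⟨h3, h5, h6⟩ := mem_filter.1 hy
  rcases lt_or_ge y n' with h | h
  · exact le_add_of_nonneg_of_le h1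
      ((le_fold_max _).2 (.inr ⟨y, mem_filter.2 ⟨h3, h, h6⟩, le_rfl⟩))
  · rw [if_neg (by omega)]
    have := mul_le_mul_of_nonneg_left (h2 y h3 h5 h) h4
    simp only [zero_mul, exp_zero, mul_one] at h0 ⊢
    linarith only [this, h0]

lemma w_eta (hk : k.OK1 c) {x : ℤ} (hx : x ∈ k.D) : k.w x / k.η x ≤ exp (k.W (k.nx x)) ∧
    exp (k.W (k.nx x)) ≤ k.w x / k.η x * exp (2 * k.σ x) := by
  have h1 := hk.w_pos x (hk.F_mem x (hk.D_mem x hx).1).1
  have h2 := (hk.η_mem x hx).1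
  obtain e : k.w x / k.η x = exp (log (k.w x) - log (k.η x)) := by
    rw [exp_sub, exp_log h1, exp_log h2]
  rw [e, ← exp_add]
  exact ⟨exp_le_exp.2 (hk.maj x hx).1, exp_le_exp.2 (hk.maj x hx).2⟩

/-- numbers -/
structure Nm (K : ℕ) (c : Cs) (k : Sk) (m B st : ℤ) (γ G ls : ℝ) (T : ℕ → ℝ) (q r : ℝ) : Prop where
  r0 : 0 < r
  r1 : r ≤ 1
  q0 : 0 < q
  q1 : q ≤ 1 / 100
  a : exp (γ * ls) * exp ls ^ 2 * q ≤ 1
  b : exp (g2 K γ * ls) * q ≤ 1
  e : k.η st ≤ q ^ 100 * r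
  t1 : T 1 * exp (k.W (k.nx B)) ≤ q ^ 100 * r / k.η st ^ 2
  t2 : T 2 * exp (k.W (k.nx B)) ≤ q ^ 100 * r / k.η st ^ 4
  L : 2 ^ 22 * c.L ≤ exp ls
  sl : ∀ y, 1 ≤ y → y ≤ m → k.sl y ≤ ls
  l0 : 0 ≤ ls
  θ : q ^ 50 * r = exp (-(gm5 K γ / 2 + G) * ls)

lemma nm (hκ : 0 < c.κ) (hl : 16 ≤ c.lam) (hL : 0 < c.L)
    (H : J5H K c M σ σ' t g k m B st γ G ls ϖ T) : ∃ q r, Nm K c k m B st γ G ls T q r := by
  have hk := H.jc.oc.sk.1
  have m1 := (hk.F_mem m H.jc.oc.hn).1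
  have s1 := hk.sl1.trans (hk.sl_mono 1 m le_rfl m1)
  obtain s2 : 2 * k.sl m ≤ ls := by
    have := H.hls
    unfold Cs.ck at this
    nlinarith only [hκ, this, hl, s1]
  obtain l0 : 0 ≤ ls := by linarith only [hl, s1, s2]
  have hK : (0 : ℝ) ≤ K := K.cast_nonneg
  have hγ := H.hγ
  obtain g1 : γ + 20 ≤ g2 K (γ + 10) := by unfold g2; nlinarith only [hγ]
  obtain g3 : g2 K γ ≤ g2 K (γ + 10) := by unfold g2; linarith only []
  obtain pw : ∀ n : ℕ, exp (-g2 K (γ + 10) * ls) ^ n = exp (-(n * g2 K (γ + 10)) * ls) := fun n => by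
    rw [← exp_nat_mul]; congr 1; ring
  have hG := mul_nonneg H.hG l0
  obtain z : exp (-(gm5 K γ + G) * ls) ≤ exp (-g2 K (γ + 10) * ls) ^ 100 * exp (-G * ls) := by
    rw [pw, ← exp_add, exp_le_exp, gm5]; push_cast; linarith only []
  refine ⟨exp (-g2 K (γ + 10) * ls), exp (-G * ls), exp_pos _, exp_le_one_iff.2 (by linarith only [hG]),
    exp_pos _, ?_, ?_, ?_, H.heavy.trans ?_,
    H.ok1.trans (by gcongr), H.ok2.trans (by gcongr), ?_,
    fun y h1 h2 => by linarith only [hl, s1, s2, hk.sl_mono y m h1 h2], l0, ?_⟩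
  · rw [neg_mul, exp_neg, one_div]
    refine inv_anti₀ (by norm_num) (le_trans ?_ (add_one_le_exp _))
    nlinarith only [hl, s1, s2, hγ, g1]
  · rw [← exp_nat_mul, ← exp_add, ← exp_add, exp_le_one_iff]
    push_cast
    nlinarith only [hl, s1, s2, g1]
  · rw [← exp_add, exp_le_one_iff]
    nlinarith only [g3, hl, s1, s2]
  · rw [pw, ← exp_add, exp_le_exp, gm5]; push_cast; linarith only [hG]
  · have e1 : c.L = exp c.lam := (exp_log hL).symm
    obtain e2 : (2 : ℝ) ^ 22 ≤ exp 16 := by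
      obtain this := pow_le_pow_left₀ (by norm_num) exp_one_gt_d9.le 16
      rw [← exp_nat_mul] at this
      norm_num at this ⊢
      linarith only [this]
    calc 2 ^ 22 * c.L ≤ exp 16 * exp c.lam := by rw [e1]; gcongr
      _ ≤ exp ls := by rw [← exp_add, exp_le_exp]; linarith only [hl, s1, s2]
  · rw [pw, gm5, ← exp_add]; congr 1; push_cast; ring

/-- facts about a major `x ≤ B` -/
structure Mj (k : Sk) (m B st : ℤ) (ls : ℝ) (x : ℤ) : Prop where
  x1 : 1 ≤ x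
  xm : x < m
  lt : x < k.nx x
  nF : k.nx x ∈ k.F
  nB : k.nx x ≤ k.nx B
  nm : k.nx x ≤ m
  e0 : 0 < k.η st
  e1 : k.η st ≤ k.η x
  e2 : k.η x ≤ 1
  w0 : 0 < k.w x
  w1 : 0 < k.w (k.nx x)
  W : k.w x / k.η x ≤ exp (k.W (k.nx B))
  wy : ∀ y ∈ k.F, x < y → y ≤ m → k.w x / k.η x ≤ exp ls * k.w y
  V : ∀ y ∈ k.D, x < y → y < m → ∀ e : ℕ, k.w x / k.η x * k.V y e ≤ exp ls / k.η st ^ e

lemma mj (H : J5H K c M σ σ' t g k m B st γ G ls ϖ T) {q r : ℝ} (N : Nm K c k m B st γ G ls T q r)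
    {x : ℤ} (hx : x ∈ k.D) (hB : x ≤ B) : Mj k m B st ls x := by
  have hk := H.jc.oc.sk.1
  obtain ⟨b1, b2, -⟩ := hk.nx_mem B (hk.D_mem B H.hB.1).2
  obtain ⟨a1, a2, a3⟩ := hk.nx_mem x (hk.D_mem x hx).2
  have x1 := (hk.F_mem x (hk.D_mem x hx).1).1
  obtain nB := a3 _ b1 (by omega)
  have bm := H.hB.2
  have e0 := (hk.η_mem st H.hst.1).1
  obtain wy : ∀ y ∈ k.F, x < y → y ≤ m → k.w x / k.η x ≤ exp ls * k.w y := fun y h1 h2 h3 => by
    refine (w_eta hk hx).1.trans ?_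
    rw [← exp_log (hk.w_pos y (by omega)), ← exp_add, exp_le_exp]
    linarith only [a2, x1, hk.W_mono _ y (by omega) (a3 y h1 h2), hk.lo y h1, N.sl y (by omega) h3]
  refine ⟨x1, by omega, a2, a1, nB, by omega, e0, H.hst.2.2 x hx (by omega), (hk.η_mem x hx).2,
    hk.w_pos x x1, hk.w_pos _ (by omega),
    (w_eta hk hx).1.trans (exp_le_exp.2 (hk.W_mono _ _ (by omega) nB)), wy,
    fun y h1 h2 h3 e => ?_⟩
  obtain h4 := hk.w_pos y (by omega)
  have h5 := H.hst.2.2 y h1 h3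
  calc k.w x / k.η x * k.V y e ≤ exp ls * k.w y * (1 / (k.η st ^ e * k.w y)) := by
        unfold Sk.V
        gcongr
        · exact one_div_nonneg.2 (mul_nonneg (pow_nonneg (by linarith only [e0, h5]) _) h4.le)
        · exact wy y (hk.D_mem y h1).1 h2 h3.le
    _ = _ := by field_simp

/-- the jets at the release time -/
lemma cj (hTA : TA_s c) (H : J5H K c M σ σ' t g k m B st γ G ls ϖ T) {x : ℤ} (hx : x ∈ k.D)
    (X : Mj k m B st ls x) {j : ℕ} (h1 : 1 ≤ j) (h3 : j ≤ 3) :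
    |σ.pj M t j (k.nx x) / (σ.orb M t).fr (x + 1) (k.nx x)| ≤ 8 * k.η x ^ 2 *
      (T j * exp (k.W (k.nx B)) + exp (γ * ls) * exp ls / k.η st ^ (2 * j - 1)) := by
  have hk := H.jc.oc.sk.1
  obtain ⟨-, -, a3, -⟩ := hTA k H.jc.oc.sk
  have e0 := X.e0
  have e1 := e0.trans_le X.e1
  have w0 := X.w0
  have w1 := X.w1
  obtain b := H.bd j (k.nx x) h1 h3 (by linarith only [X.x1, X.lt]) X.nm
  rw [a3 _ X.nF] at b
  have f := H.jc.oc.fit.flo x hx X.xm
  have hp := H.pos j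
  set f0 := |(σ.orb M t).fr (x + 1) (k.nx x)|
  obtain hV : k.V x 1 = 1 / (k.η x * k.w x) := by simp [Sk.V]
  obtain g0 : 0 < g := by linarith only [H.jc.oc.g1]
  obtain f1 : 0 < f0 := by
    obtain this : 0 < g * f0 := lt_of_lt_of_le (by rw [hV]; (clear * - e1 w0 w1; positivity)) f
    exact (mul_pos_iff_of_pos_left g0).1 this
  obtain n1 : k.NN (k.nx B) (2 * j - 1) 0 (k.nx x) ≤
      k.w (k.nx x) * (exp ls / k.η st ^ (2 * j - 1)) / (k.w x / k.η x) := by
    refine NN_free hk X.nF (a3 _ X.nF) ?_ fun y y1 y2 y3 => ?_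
    · rw [one_le_div (by (clear * - w0 e1; positivity))]
      refine (X.wy _ X.nF X.lt X.nm).trans ?_
      rw [mul_comm]
      gcongr
      exact le_div_self (exp_pos _).le (by positivity) (pow_le_one₀ e0.le (X.e1.trans X.e2))
    · rw [le_div_iff₀ (by (clear * - w0 e1; positivity)), mul_assoc, mul_comm (k.V y _)]
      gcongr
      exact X.V y y1 (X.lt.trans_le y3) (y2.trans_le H.hB.2) _
  rw [abs_div, div_le_iff₀ f1]
  obtain f2 : k.w (k.nx x) ≤ 8 * (k.η x * k.w x) * f0 := by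
    rw [hV, one_div, inv_mul_le_iff₀ (by (clear * - e1 w0; positivity))] at f
    refine f.trans ?_
    have := mul_le_mul_of_nonneg_right H.g8 f1.le
    nlinarith only [this, mul_pos e1 w0]
  calc |σ.pj M t j (k.nx x)| ≤ k.w (k.nx x) * T j + exp (γ * ls) *
        (k.w (k.nx x) * (exp ls / k.η st ^ (2 * j - 1)) / (k.w x / k.η x)) :=
        b.trans (by (clear * - n1; gcongr))
    _ = k.w (k.nx x) * (k.η x / k.w x * (T j * (k.w x / k.η x)
        + exp (γ * ls) * exp ls / k.η st ^ (2 * j - 1))) := by field_simp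
    _ ≤ 8 * (k.η x * k.w x) * f0 * (k.η x / k.w x * (T j * exp (k.W (k.nx B))
        + exp (γ * ls) * exp ls / k.η st ^ (2 * j - 1))) := by gcongr; exact X.W
    _ = _ := by field_simp

lemma Nm.es {q r : ℝ} (N : Nm K c k m B st γ G ls T q r) (hγ : 1 ≤ γ) :
    1 ≤ exp ls ∧ exp ls * q ≤ 1 ∧ exp (γ * ls) * exp ls * q ≤ 1 ∧ exp ls ^ 2 * q ≤ 1 := by
  have h1 := one_le_exp N.l0
  have h2 := one_le_exp (mul_nonneg (zero_le_one.trans hγ) N.l0)
  have h3 := N.q0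
  obtain h4 : exp ls ^ 2 * q ≤ 1 := le_trans (by gcongr; exact le_mul_of_one_le_left (by positivity) h2) N.a
  exact ⟨h1, le_trans (by gcongr; nlinarith only [h1]) h4,
    le_trans (by gcongr; nlinarith only [h1]) N.a, h4⟩

lemma qpow {q : ℝ} (q0 : 0 < q) (q1 : q ≤ 1 / 100) {a b : ℕ} (h : a < b) : 100 * q ^ b ≤ q ^ a := by
  obtain this := pow_le_pow_of_le_one q0.le (by linarith only [q0, q1]) (Nat.succ_le_of_lt h)
  rw [pow_succ] at this
  nlinarith only [this, q1, pow_pos q0 a]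

/-- `E s / η* ≤ q^99 / η*^2` -/
lemma Nm.eta {q r : ℝ} (N : Nm K c k m B st γ G ls T q r) (hγ : 1 ≤ γ) (e0 : 0 < k.η st) (n : ℕ) :
    exp (γ * ls) * exp ls / k.η st ^ n ≤ q ^ 99 * r / k.η st ^ (n + 1) := by
  have r0 := N.r0
  rw [div_le_div_iff₀ (by positivity) (by positivity), pow_succ (k.η st)]
  have h1 := (N.es hγ).2.2.1
  have q0 := N.q0
  calc exp (γ * ls) * exp ls * (k.η st ^ n * k.η st)
      ≤ exp (γ * ls) * exp ls * (k.η st ^ n * (q ^ 100 * r)) := by gcongr; exact N.e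
    _ = exp (γ * ls) * exp ls * q * (q ^ 99 * r * k.η st ^ n) := by ring
    _ ≤ _ := mul_le_of_le_one_left (by (clear * - q0 r0 e0; positivity)) h1

lemma Nm.one {q r : ℝ} (N : Nm K c k m B st γ G ls T q r) (hγ : 1 ≤ γ) (e0 : 0 < k.η st) :
    T 1 * exp (k.W (k.nx B)) ≤ q ^ 100 / k.η st ^ 2 ∧
    exp (γ * ls) * exp ls / k.η st ^ 1 ≤ q ^ 99 / k.η st ^ 2 := by
  have q0 := N.q0
  exact ⟨N.t1.trans (by gcongr; exact mul_le_of_le_one_right (by positivity) N.r1),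
    (N.eta hγ e0 1).trans (by gcongr; exact mul_le_of_le_one_right (by positivity) N.r1)⟩

lemma rho_bd (hD : D8C_s K c) (H : J5H K c M σ σ' t g k m B st γ G ls ϖ T) {x : ℤ} (hx : x ∈ k.D)
    (X : Mj k m B st ls x) (hL : 0 < c.L) :
    k.η x ≤ 2048 * |(σ.orb M t).rho ((σ.orb M t).fr 1) x (k.nx x)| ∧
    |(σ.orb M t).rho ((σ.orb M t).fr 1) x (k.nx x)| ≤ 512 * k.η x ∧
    c.L / 2 ≤ |σ.Lt M c t x| ∧ |σ.Lt M c t x| ≤ c.L := by
  obtain ⟨-, h1, h2, h3⟩ := (hD M σ t g k m H.jc).2 x hx X.xm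
  obtain g3 : g ^ 3 ≤ 8 ^ 3 := pow_le_pow_left₀ (by linarith only [H.jc.oc.g1]) H.g8 3
  have e1 := X.e0.trans_le X.e1
  refine ⟨h1.trans (mul_le_mul_of_nonneg_right (by linarith only [g3]) (abs_nonneg _)),
    h2.trans (mul_le_mul_of_nonneg_right (by linarith only [g3]) e1.le), h3, ?_⟩
  rw [Seed.Lt, abs_neg, abs_mul, abs_of_pos hL]
  exact mul_le_of_le_one_right hL.le (abs_cos_le_one _)

lemma bx_up (hTA : TA_s c) (hD : D8C_s K c) (H : J5H K c M σ σ' t g k m B st γ G ls ϖ T) {q r : ℝ}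
    (N : Nm K c k m B st γ G ls T q r) {x : ℤ} (hx : x ∈ k.D) (X : Mj k m B st ls x) (hL : 0 < c.L) :
    |σ.bx M c t k x| ≤ exp ((γ + 1) * ls) / k.η x ^ 2 + q ^ 90 * (1 / k.η st ^ 2) := by
  have hk := H.jc.oc.sk.1
  obtain ⟨-, -, a3, -⟩ := hTA k H.jc.oc.sk
  obtain ⟨r1, -, -, r4⟩ := rho_bd hD H hx X hL
  obtain ⟨s1, s2, -⟩ := N.es H.hγ
  have e0 := X.e0
  have e1 := e0.trans_le X.e1
  have w0 := X.w0
  have q0 := N.q0
  have xF := (hk.D_mem x hx).1
  obtain b := H.bd 1 x le_rfl (by norm_num) (by linarith only [X.x1]) X.xm.le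
  rw [a3 _ xF] at b
  obtain n1 : k.NN (k.nx B) (2 * 1 - 1) 0 x ≤ k.η x * (1 / k.η x ^ 2 + exp ls / k.η st ^ 1) := by
    obtain e : k.η x * (1 / k.η x ^ 2) = 1 / k.η x := by field_simp
    obtain p : 0 ≤ k.η x * (exp ls / k.η st ^ 1) := by (clear * - e1 e0; positivity)
    refine NN_free hk xF (a3 _ xF) ?_ fun y y1 y2 y3 => ?_
    · rw [mul_add, e]
      linarith only [p, one_le_one_div e1 X.e2]
    · rw [mul_add, e]
      rcases y3.eq_or_lt with rfl | y3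
      · refine le_add_of_le_of_nonneg (le_of_eq ?_) p
        simp only [Sk.V, mul_one, Nat.add_one_sub_one, pow_one]
        field_simp
      · refine le_add_of_nonneg_of_le (by positivity) ?_
        have := mul_le_mul_of_nonneg_left (X.V y y1 y3 (y2.trans_le H.hB.2) 1) e1.le
        refine le_trans (le_of_eq ?_) this
        field_simp
  have hp := H.pos 1
  obtain b2 : |σ.pj M t 1 x| ≤ k.η x * (exp (γ * ls) / k.η x ^ 2 + 2 * q ^ 99 / k.η st ^ 2) := by
    obtain t1 : k.w x * T 1 ≤ k.η x * (q ^ 99 / k.η st ^ 2) := by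
      calc k.w x * T 1 = k.η x * (T 1 * (k.w x / k.η x)) := by field_simp
        _ ≤ k.η x * (q ^ 100 / k.η st ^ 2) := by
          gcongr; exact le_trans (by gcongr; exact X.W) (N.one H.hγ e0).1
        _ ≤ _ := by gcongr ?_ * (?_ / _); linarith only [qpow q0 N.q1 (show 99 < 100 by norm_num), pow_pos q0 100]
    have t2 := mul_le_mul_of_nonneg_left (N.one H.hγ e0).2 e1.le
    have t3 := mul_le_mul_of_nonneg_left n1 (exp_pos (γ * ls)).le
    refine b.trans ((add_le_add t1 t3).trans ?_)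
    norm_num at t2 ⊢
    ring_nf at t2 ⊢
    linarith only [t2]
  obtain r0 : 0 < |(σ.orb M t).rho ((σ.orb M t).fr 1) x (k.nx x)| := by linarith only [r1, e1]
  rw [Seed.bx, abs_div, abs_mul, div_le_iff₀ r0]
  obtain t4 : exp ls * (2 * q ^ 99 / k.η st ^ 2) ≤ q ^ 90 * (1 / k.η st ^ 2) := by
    rw [← mul_div_assoc, mul_one_div]
    gcongr
    have := mul_le_mul_of_nonneg_right s2 (pow_pos q0 98).le
    obtain this := qpow q0 N.q1 (show 90 < 98 by norm_num)
    have := pow_pos q0 98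
    ring_nf at *
    (rename_i zq1 zq0; linarith only [zq1, zq0, this])
  set ρ := |(σ.orb M t).rho ((σ.orb M t).fr 1) x (k.nx x)|
  calc _ ≤ c.L * (2048 * ρ * (exp (γ * ls) / k.η x ^ 2 + 2 * q ^ 99 / k.η st ^ 2)) := by
        refine mul_le_mul r4 (b2.trans ?_) (abs_nonneg _) hL.le
        gcongr
    _ = 2048 * c.L * (exp (γ * ls) / k.η x ^ 2 + 2 * q ^ 99 / k.η st ^ 2) * ρ := by ring
    _ ≤ exp ls * (exp (γ * ls) / k.η x ^ 2 + 2 * q ^ 99 / k.η st ^ 2) * ρ := by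
        gcongr; linarith only [hL, N.L]
    _ ≤ _ := by
        gcongr
        rw [mul_add, add_mul, one_mul, exp_add]
        exact add_le_add (le_of_eq (by ring)) t4

lemma bx_lo (hTA : TA_s c) (hD : D8C_s K c) (H : J5H K c M σ σ' t g k m B st γ G ls ϖ T) {q r : ℝ}
    (N : Nm K c k m B st γ G ls T q r) (hL : 2 ^ 23 ≤ c.L) (hl : 16 ≤ c.lam) (hκ : 0 < c.κ)
    (hC : 6 * c.ck ≤ c.C0) : exp (-ls) * (1 / k.η st ^ 2) ≤ |σ.bx M c t k st| := by
  have hk := H.jc.oc.sk.1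
  have X := mj H N H.hst.1 H.hst.2.1
  obtain L0 : 0 < c.L := by linarith only [hL]
  obtain ⟨-, -, -, -, a5, -, a7, -⟩ := hTA k H.jc.oc.sk
  obtain ⟨r1, r2, r3, -⟩ := rho_bd hD H H.hst.1 X L0
  obtain ⟨d1, -⟩ := (hD M σ t g k m H.jc).2 st H.hst.1 X.xm
  obtain ⟨s1, s2, -⟩ := N.es H.hγ
  have e0 := X.e0
  have q0 := N.q0
  have sN := (hk.D_mem st H.hst.1).2.le
  have σ1 := hl.trans (a5 st sN)
  obtain σ2 : k.σ st ≤ ls := N.sl _ (by linarith only [X.x1, X.lt]) X.nm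
  have u0 := exp_pos (-k.σ st)
  obtain ck : 0 < c.ck := by unfold Cs.ck; linarith only [hκ]
  obtain h1 : exp (-k.chi 0 st / 2) ≤ exp (-k.σ st) / 32 := by
    obtain this : 6 * k.σ st ≤ k.chi 0 st := le_of_mul_le_mul_left
      (le_trans (by nlinarith only [hC, σ1]) (a7 st X.x1 sN).2) ck
    rw [le_div_iff₀ (by norm_num)]
    calc _ ≤ exp (-k.chi 0 st / 2) * exp (2 * k.σ st) := by
          gcongr; linarith only [σ1, add_one_le_exp (2 * k.σ st)]
      _ ≤ _ := by rw [← exp_add, exp_le_exp]; linarith only [this]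
  obtain h2 : q ≤ exp (-k.σ st) := by
    refine le_trans ?_ (exp_le_exp.2 (neg_le_neg σ2))
    rw [exp_neg, ← one_div, le_div_iff₀ (exp_pos _)]
    linarith only [s2]
  obtain h3 := cj hTA H H.hst.1 X (j := 1) le_rfl (by norm_num)
  obtain h4 : 8 * k.η st ^ 2 * (T 1 * exp (k.W (k.nx B))
      + exp (γ * ls) * exp ls / k.η st ^ (2 * 1 - 1)) ≤ exp (-k.σ st) / 32 := by
    calc _ ≤ 8 * k.η st ^ 2 * (q ^ 100 / k.η st ^ 2 + q ^ 99 / k.η st ^ 2) :=
          mul_le_mul_of_nonneg_left (add_le_add (N.one H.hγ e0).1 (N.one H.hγ e0).2) (by positivity)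
      _ = 8 * (q ^ 100 + q ^ 99) := by field_simp
      _ ≤ _ := by
          obtain this := qpow q0 N.q1 (show 1 < 2 by norm_num)
          obtain this := qpow q0 N.q1 (show 2 < 100 by norm_num)
          obtain this := qpow q0 N.q1 (show 2 < 99 by norm_num)
          (rename_i zq1 zq0; linarith only [u0, h2, zq1, zq0, this])
  have h5 := H.d7
  unfold D7 at h5
  set ρ := (σ.orb M t).rho ((σ.orb M t).fr 1) st (k.nx st)
  set p := σ.pj M t 1 st
  set sg := M.sgO t (σ.orb M t) st (k.nx st)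
  obtain h6 : exp (-k.σ st) / 16 ≤ |ρ| * |p| := by
    have := mul_le_mul_of_nonneg_right H.g8 (abs_nonneg sg)
    rw [← abs_mul]
    have := abs_le.1 (d1.trans h1)
    have := abs_le.1 (h3.trans h4)
    have := le_abs_self (ρ * p)
    have := neg_abs_le (ρ * p)
    rcases abs_cases sg with h | h <;> (rename_i zq3 zq2 zq1 zq0; linarith only [h5, zq3, zq2, zq1, this, h, zq0])
  obtain r0 : 0 < |ρ| := by linarith only [e0, r1]
  rw [Seed.bx, abs_div, abs_mul, le_div_iff₀ r0]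
  refine le_of_mul_le_mul_right ?_ r0
  calc exp (-ls) * (1 / k.η st ^ 2) * |ρ| * |ρ|
      ≤ exp (-k.σ st) * (1 / k.η st ^ 2) * (512 * k.η st) * (512 * k.η st) := by gcongr
    _ = 2 ^ 22 * (exp (-k.σ st) / 16) := by field_simp; norm_num
    _ ≤ |σ.Lt M c t st| * (|ρ| * |p|) := by gcongr; linarith only [hL, r3]
    _ = _ := by ring

lemma p2 (hTA : TA_s c) (hD : D8C_s K c) (hJ : J2_s K c) (hK : 1 ≤ K) (hb : c.Bud K (K + 1))
    (H : J5H K c M σ σ' t g k m B st γ G ls ϖ T) {q r : ℝ}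
    (N : Nm K c k m B st γ G ls T q r) {x : ℤ} (hx : x ∈ k.D) (X : Mj k m B st ls x) (hL : 0 < c.L) :
    |σ.Lt M c t x * σ.pj M t 2 x / (σ.orb M t).rho ((σ.orb M t).fr 1) x (k.nx x)
        + σ.bx M c t k x ^ 2| ≤ 4 * c.ep * σ.bx M c t k x ^ 2 + q ^ 90 * r * (1 / k.η st ^ 2) ^ 2 := by
  have r0 := N.r0
  have hk := H.jc.oc.sk.1
  obtain ⟨a1, a2, -⟩ := hTA k H.jc.oc.sk
  obtain ⟨r1, -, r3, r4⟩ := rho_bd hD H hx X hL
  obtain ⟨s1, s2, s3, s4⟩ := N.es H.hγ
  have e0 := X.e0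
  have e1 := e0.trans_le X.e1
  have w0 := X.w0
  have q0 := N.q0
  have hp := H.pos 1
  obtain σ2 : k.σ x ≤ ls := N.sl _ (by linarith only [X.x1, X.lt]) X.nm
  have E1 := one_le_exp (mul_nonneg (zero_le_one.trans H.hγ) N.l0)
  set U := exp ls / k.η st ^ 1 / (k.w x / k.η x) with hU
  set T1 := T 1 + exp (γ * ls) * U with hT1
  obtain T10 : 0 ≤ T1 := by (clear * - hp e0 w0 e1; positivity)
  set T2 := max (T1 * T1 * exp (k.W (k.nx x))) (T1 / k.η x ^ 2) with hT2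
  obtain T20 : 0 ≤ T2 := le_max_of_le_right (by (clear * - hp e0 w0 e1; positivity))
  have J := hJ hb M σ t g k m H.jc x 2 γ ls (fun j => if j = 1 then T1 else T2) X.xm le_rfl
    (by omega) ⟨hx, H.hγ, σ2, fun j => by split_ifs <;> assumption, fun j l j1 j2 l0 l1 => ?_,
      fun a b a1 b1 ab => ?_⟩
  rotate_left
  · obtain rfl : j = 1 := by omega
    obtain w4 : 0 ≤ k.w4 l := by
      rcases l0.eq_or_lt with rfl | l0
      · exact a2.ge
      · exact (hk.w_pos l l0).le.trans (a1 l l0)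
    obtain this := NN_split (n := k.nx B) (e := 2 * 1 - 1) (U := U) l1 w4 (by (clear * - e0 w0 e1; positivity))
      fun y y1 y2 y3 => by
        rw [hU, le_div_iff₀' (by positivity)]
        exact X.V y y1 (X.lt.trans_le y3) (y2.trans_le H.hB.2) 1
    have := mul_le_mul_of_nonneg_left this (exp_pos (γ * ls)).le
    obtain this := H.bd 1 l le_rfl (by norm_num) l0 (l1.trans X.nm)
    simp only [if_true, hT1]
    (rename_i zq0; linarith only [zq0, this])
  · obtain ⟨rfl, rfl⟩ : a = 1 ∧ b = 1 := by omega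
    simp only [if_true, show 1 + 1 ≠ 1 by norm_num, if_false]
    refine ⟨le_trans ((le_max_left _ _).trans (le_max_left _ _))
      (le_mul_of_one_le_left (le_max_of_le_left T20) E1), le_trans (le_max_of_le_left ?_)
      (le_mul_of_one_le_left (le_max_of_le_left (by (clear * - e1 hp e0 w0; positivity))) E1)⟩
    refine le_trans (le_of_eq ?_) (mul_le_mul_of_nonneg_left (le_max_right _ _) e1.le)
    simp only [mul_one, Nat.add_one_sub_one, pow_one]
    field_simp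
  obtain C2 := cj hTA H hx X (j := 2) (by norm_num) (by norm_num)
  rw [show Ioo 0 2 = ({1} : Finset ℕ) by decide] at J
  simp only [sum_singleton, Nat.choose_one_right, Nat.cast_ofNat,
    show (2 : ℕ) ≠ 1 by norm_num, if_false, show 2 * 2 - 3 = 1 by norm_num, pow_one] at J
  set be := 1 / k.η st ^ 2 with hbe
  obtain b0 : 0 < be := by positivity
  obtain hA : T1 * (k.w x / k.η x) ≤ 2 * q ^ 99 * r * be := by
    obtain t1 : T 1 * (k.w x / k.η x) ≤ q ^ 99 * r * be := by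
      refine le_trans (by gcongr; exact X.W) (N.t1.trans ?_)
      rw [hbe, mul_one_div]
      gcongr ?_ * _ / _
      linarith only [qpow q0 N.q1 (show 99 < 100 by norm_num), pow_pos q0 100]
    obtain t2 : exp (γ * ls) * U * (k.w x / k.η x) ≤ q ^ 99 * r * be := by
      rw [hbe, mul_one_div]
      refine le_trans (le_of_eq ?_) (N.eta H.hγ e0 1)
      rw [hU]
      field_simp
    rw [hT1]
    linarith only [t1, t2]
  obtain i1 : 1 / k.η x ^ 2 ≤ be := one_div_le_one_div_of_le (by (clear * - e0; positivity))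
    (pow_le_pow_left₀ e0.le X.e1 2)
  obtain hB : T2 * (k.w x / k.η x) ≤ 2 * q ^ 99 * r * be ^ 2 := by
    rw [hT2, max_mul_of_nonneg _ _ (by (clear * - w0 e1; positivity))]
    refine max_le ?_ ?_
    · calc _ ≤ T1 * T1 * (k.w x / k.η x * exp ls ^ 2) * (k.w x / k.η x) := by
            gcongr
            refine (w_eta hk hx).2.trans ?_
            rw [← exp_nat_mul]
            exact mul_le_mul_of_nonneg_left (exp_le_exp.2 (by push_cast; linarith only [σ2])) (by positivity)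
        _ = (T1 * (k.w x / k.η x)) ^ 2 * exp ls ^ 2 := by ring
        _ ≤ (2 * q ^ 99 * r * be) ^ 2 * exp ls ^ 2 := by (clear * - hp e0 w0 e1 hA; gcongr)
        _ = exp ls ^ 2 * q * (4 * q ^ 197) * r * (r * be ^ 2) := by ring
        _ ≤ 1 * (2 * q ^ 99) * 1 * (r * be ^ 2) := by
            gcongr ?_ * ?_ * ?_ * _
            · linarith only [qpow q0 N.q1 (show 99 < 197 by norm_num), pow_pos q0 197]
            · exact N.r1
        _ = _ := by ring
    · calc _ = T1 * (k.w x / k.η x) * (1 / k.η x ^ 2) := by ring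
        _ ≤ 2 * q ^ 99 * r * be * be := by (clear * - hA i1 e1 q0 r0 e0; gcongr)
        _ = _ := by ring
  obtain i2 : 1 / k.η x ≤ k.η x ^ 2 * (q ^ 100 * r * be ^ 2) := by
    calc 1 / k.η x = k.η x ^ 2 * (1 / k.η x ^ 3) := by field_simp
      _ ≤ k.η x ^ 2 * (1 / k.η st ^ 3) := by gcongr; exact X.e1
      _ = k.η x ^ 2 * (k.η st * be ^ 2) := by rw [hbe]; field_simp
      _ ≤ _ := by gcongr; exact N.e
  obtain i3 : exp (g2 K γ * ls) * (1 / k.η x + k.w x * k.η x * T2)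
      ≤ k.η x ^ 2 * (3 * q ^ 98 * r * be ^ 2) := by
    obtain this : k.w x * k.η x * T2 ≤ k.η x ^ 2 * (2 * q ^ 99 * r * be ^ 2) :=
      le_trans (le_of_eq (by field_simp)) (mul_le_mul_of_nonneg_left hB (sq_nonneg _))
    calc _ ≤ exp (g2 K γ * ls) * (k.η x ^ 2 * (q ^ 99 * r * be ^ 2) +
          k.η x ^ 2 * (2 * q ^ 99 * r * be ^ 2)) := by
          gcongr
          refine i2.trans ?_
          gcongr _ * (?_ * _ * _)
          linarith only [qpow q0 N.q1 (show 99 < 100 by norm_num), pow_pos q0 100]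
      _ = exp (g2 K γ * ls) * q * (k.η x ^ 2 * (3 * q ^ 98 * r * be ^ 2)) := by ring
      _ ≤ _ := mul_le_of_le_one_left (by (clear * - e1 q0 r0 e0; positivity)) N.b
  obtain i4 : 8 * k.η x ^ 2 * (T 2 * exp (k.W (k.nx B))
      + exp (γ * ls) * exp ls / k.η st ^ (2 * 2 - 1)) ≤ k.η x ^ 2 * (q ^ 98 * r * be ^ 2) := by
    calc _ ≤ 8 * k.η x ^ 2 * (q ^ 100 * r / k.η st ^ 4 + q ^ 99 * r / k.η st ^ 4) :=
          mul_le_mul_of_nonneg_left (add_le_add N.t2 (N.eta H.hγ e0 3)) (by positivity)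
      _ = k.η x ^ 2 * (8 * (q ^ 100 + q ^ 99) * r * be ^ 2) := by rw [hbe]; field_simp
      _ ≤ _ := by
          gcongr
          linarith only [qpow q0 N.q1 (show 98 < 100 by norm_num),
            qpow q0 N.q1 (show 98 < 99 by norm_num), pow_pos q0 98]
  rw [Seed.bx]
  set ρ := (σ.orb M t).rho ((σ.orb M t).fr 1) x (k.nx x)
  set Λ := σ.Lt M c t x
  set p := σ.pj M t 1 x
  set p' := σ.pj M t 2 x
  obtain r6 : 0 < |ρ| := by linarith only [e1, r1]
  have r5 : ρ ≠ 0 := abs_pos.1 r6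
  have ep : 0 < c.ep := exp_pos _
  obtain k1 : |ρ * p' + Λ * p ^ 2| ≤ 2 * c.ep * c.L * p ^ 2 + k.η x ^ 2 * (4 * q ^ 98 * r * be ^ 2) := by
    rw [abs_mul_abs_self] at J
    have := abs_le.1 J
    have := abs_le.1 (C2.trans i4)
    rw [abs_le]
    constructor <;> (rename_i zq0; linarith only [i3, zq0, this])
  obtain k2 : k.η x ^ 2 ≤ 2 ^ 22 * ρ ^ 2 := by
    have := pow_le_pow_left₀ e1.le r1 2
    rw [mul_pow, sq_abs] at this
    linarith only [this]
  obtain k3 : |Λ| * (k.η x ^ 2 * (4 * q ^ 98 * r * be ^ 2)) ≤ q ^ 90 * r * be ^ 2 * ρ ^ 2 := by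
    calc _ ≤ c.L * (2 ^ 22 * ρ ^ 2 * (4 * q ^ 98 * r * be ^ 2)) := by (clear * - r4 k2 q0 r0 e0 e1 hL; gcongr)
      _ = 2 ^ 22 * c.L * q * (4 * q ^ 97) * (r * be ^ 2) * ρ ^ 2 := by ring
      _ ≤ 1 * q ^ 90 * (r * be ^ 2) * ρ ^ 2 := by
          gcongr ?_ * ?_ * _ * _
          · exact le_trans (by gcongr; exact N.L) s2
          · linarith only [qpow q0 N.q1 (show 90 < 97 by norm_num), pow_pos q0 97]
      _ = _ := by ring
  obtain k4 : |Λ| * (2 * c.ep * c.L * p ^ 2) ≤ 4 * c.ep * (Λ * p) ^ 2 := by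
    calc _ ≤ |Λ| * (2 * c.ep * (2 * |Λ|) * p ^ 2) := by gcongr; linarith only [r3]
      _ = 4 * c.ep * (|Λ| ^ 2 * p ^ 2) := by ring
      _ = _ := by rw [sq_abs, mul_pow]
  obtain k5 : Λ * p' / ρ + (Λ * p / ρ) ^ 2 = Λ * (ρ * p' + Λ * p ^ 2) / ρ ^ 2 := by field_simp
  rw [k5, abs_div, abs_mul, abs_of_nonneg (sq_nonneg ρ), div_le_iff₀ (by (clear * - r5; positivity)), add_mul,
    div_pow, mul_assoc (4 * c.ep), div_mul_cancel₀ _ (by positivity)]
  have := mul_le_mul_of_nonneg_left k1 (abs_nonneg Λ)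
  linarith only [k3, k4, this]

end BET5

open BET5 in
theorem bet5 (K : ℕ) : Hier fun c => TA_s c → D8C_s K c → J2_s K c → BET5_s K c := by
  refine (Hier.base.and ((Hier.L_ge (fun _ => 2 ^ 23) fun _ _ => rfl).and
    ((Hier.lam_ge (fun _ => 16) fun _ _ => rfl).and
    (Hier.C0_ge fun _ _ κ _ => 6 * (2 + κ))))).mono ?_
  rintro c ⟨⟨-, -, -, -, hκ, -⟩, hL, hl, hC⟩ hTA hD hJ ⟨M, σ, σ', t, g, k, m, B, st, γ, G, ls, ϖ, T⟩
    ⟨hK, hb, H⟩ Nu
  dsimp only at H
  obtain L0 : 0 < c.L := by linarith only [hL]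
  obtain ⟨q, r, N⟩ := nm hκ hl L0 H
  have lo := bx_lo hTA hD H N hL hl hκ hC
  have S := mj H N H.hst.1 H.hst.2.1
  have e0 := S.e0
  have hk := H.jc.oc.sk.1
  have q0 := N.q0
  obtain E1 := one_le_exp (mul_nonneg (show 0 ≤ γ + 1 by linarith only [H.hγ]) N.l0)
  obtain c2 : ∀ x ∈ k.D' B st, |σ.bx M c t k x| ≤ 2 * exp ((γ + 1) * ls) * (1 / k.η st ^ 2) := by
    intro x hx
    have X := mj H N (mem_filter.1 hx).1 (mem_filter.1 hx).2.1
    refine (bx_up hTA hD H N (mem_filter.1 hx).1 X L0).trans ?_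
    obtain h1 : exp ((γ + 1) * ls) / k.η x ^ 2 ≤ exp ((γ + 1) * ls) * (1 / k.η st ^ 2) := by
      rw [mul_one_div]; gcongr; exact X.e1
    obtain h2 : q ^ 90 * (1 / k.η st ^ 2) ≤ exp ((γ + 1) * ls) * (1 / k.η st ^ 2) := by
      gcongr; exact (pow_le_one₀ N.q0.le (by linarith only [N.q1])).trans E1
    linarith only [h1, h2]
  obtain h6 : (4 : ℝ) ≤ exp ls := by linarith only [hL, N.L]
  refine ⟨?_, ?_, fun x hx => ?_, fun x hx => ?_⟩ <;>
    simp only [D5.be, D5.D', D5.β, D5.p, D5.Lt, D5.ρ, D5.O] at *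
  · refine le_trans ?_ (single_le_sum (f := fun x => σ.bx M c t k x ^ 2) (fun _ _ => sq_nonneg _)
      (mem_filter.2 ⟨H.hst.1, H.hst.2.1, by nlinarith only [e0, S.e2]⟩))
    rw [← sq_abs (σ.bx M c t k st)]
    refine le_trans ?_ (pow_le_pow_left₀ (by (clear * - e0; positivity)) lo 2)
    rw [mul_pow, ← exp_nat_mul]
    exact mul_le_mul_of_nonneg_right (exp_le_exp.2 (by push_cast; linarith only [N.l0])) (sq_nonneg _)
  · have m1 := (hk.F_mem m H.jc.oc.hn).1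
    obtain c1 : ((k.D' B st).card : ℝ) ≤ exp ls := by
      obtain h1 : (k.D' B st).card ≤ (Icc 1 m).card := card_le_card fun x hx => by
        have X := mj H N (mem_filter.1 hx).1 (mem_filter.1 hx).2.1
        exact mem_Icc.2 ⟨X.x1, X.xm.le⟩
      obtain h2 : ((k.D' B st).card : ℤ) ≤ m := by rw [Int.card_Icc] at h1; omega
      obtain h3 : ((k.D' B st).card : ℝ) ≤ m := by exact_mod_cast h2
      obtain h4 : (1 : ℝ) ≤ m := by exact_mod_cast m1
      have h5 := (hk.time m H.jc.oc.hn).trans (exp_le_exp.2 (N.sl m m1 le_rfl))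
      nlinarith only [h6, h5, h3]
    refine (sum_le_card_nsmul _ _ _ fun x hx =>
      (sq_abs _).ge.trans (pow_le_pow_left₀ (abs_nonneg _) (c2 x hx) 2)).trans ?_
    rw [nsmul_eq_mul, mul_pow, ← mul_assoc]
    gcongr
    calc _ ≤ exp ls * (exp ls * exp ((γ + 1) * ls) ^ 2) := by rw [mul_pow]; gcongr; linarith only [h6]
      _ ≤ _ := by
        rw [← exp_nat_mul, ← exp_add, ← exp_add, exp_le_exp]
        push_cast
        linarith only [N.l0]
  · have X := mj H N (mem_filter.1 hx).1 (mem_filter.1 hx).2.1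
    obtain ⟨r1, r2, r3, r4⟩ := rho_bd hD H (mem_filter.1 hx).1 X L0
    have e1 := e0.trans_le X.e1
    obtain key : ∀ p : ℝ, c.L * (|p| / k.η x) ≤ 1024 *
        |σ.Lt M c t x * p / (σ.orb M t).rho ((σ.orb M t).fr 1) x (k.nx x)| := fun p => by
      obtain r0 : 0 < |(σ.orb M t).rho ((σ.orb M t).fr 1) x (k.nx x)| := by linarith only [r1, e1]
      calc _ = 1024 * (c.L / 2 * |p| / (512 * k.η x)) := by field_simp; ring
        _ ≤ _ := by rw [abs_div, abs_mul]; (clear * - r3 r0 r2; gcongr)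
    refine ⟨(c2 x hx).trans ?_, key _, key _, r1, r4⟩
    refine mul_le_mul_of_nonneg_right (le_trans ?_ Nu.big) (by (clear * - e0; positivity))
    calc _ ≤ exp ls * exp ((γ + 1) * ls) := by gcongr; linarith only [h6]
      _ ≤ _ := by
        rw [← exp_add, exp_le_exp]
        nlinarith only [N.l0, H.hγ]
  · have X := mj H N (mem_filter.1 hx).1 (mem_filter.1 hx).2.1
    refine (p2 hTA hD hJ (by omega) hb H N (mem_filter.1 hx).1 X L0).trans (add_le_add_right ?_ _)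
    have y0 := mul_nonneg (zero_le_one.trans Nu.wb1) (Nu.U0 2)
    have r0 := N.r0
    refine le_trans ?_ (le_mul_of_one_le_left (zero_le_one.trans (Nu.Ym 2 (by norm_num)).1)
      (one_le_pow₀ (le_trans (by norm_num) Nu.S1)))
    refine le_add_of_nonneg_of_le y0 ?_
    simp only [D5.θ, D5.be, ← N.θ]
    gcongr ?_ * _ * _
    exact pow_le_pow_of_le_one q0.le (by linarith only [N.q1]) (by norm_num)

end
end Pool.Agent.MP_9cbfe4_an

end

/-! ### Part SK1 -/

section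

/-! Row SK1: times, levels and slack of the skeleton of a datum. -/

namespace Pool.Agent.MP_9cbfe4_an
open Finset Filter Topology Real
noncomputable section
namespace SK1

structure P (c : Cs) : Prop where
  k : DS0.K c
  M1 : 2 * c.C0 * (3 * c.κ + 2) ≤ c.M1
  M2 : 2 * (1 + c.κ) * c.C0 / (c.am * c.ε) ≤ c.M1
  β1 : 30 * c.C0 ≤ c.β
  β2 : 20 * c.C0 / c.e3 ^ 2 ≤ c.β

theorem hP : Hier P := by
  have h1 := Hier.M1_ge (fun c => 2 * c.C0 * (3 * c.κ + 2)) fun _ _ _ _ => rfl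
  have h2 := Hier.M1_ge (fun c => 2 * (1 + c.κ) * c.C0 / (c.am * c.ε)) fun _ _ _ _ => rfl
  have h3 := Hier.β_ge (fun c => 30 * c.C0) fun _ _ _ => rfl
  have h4 := Hier.β_ge (fun c => 20 * c.C0 / c.e3 ^ 2) fun _ _ _ => rfl
  exact (DS0.hK.and (h1.and (h2.and (h3.and h4)))).mono fun c ⟨a, b, d, e, f⟩ => ⟨a, b, d, e, f⟩

variable {c : Cs} {Ex : ExT} {M : Mdl} {d : Dat}

/-- the small constants -/
theorem P.sm (h : P c) : c.e3 ≤ 1 / 400 ∧ 0 < c.am ∧ 400 * c.am ≤ c.ths ∧ c.ε' = c.am ∧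
    400 * c.ths ≤ c.e3 ^ 2 ∧ c.e3 ^ 2 ≤ 1 ∧ 400 * c.ε ≤ c.am ∧ 400 * c.ε ≤ c.e3 ^ 2 ∧
    c.cc ≤ c.lam ∧ c.c1 ≤ c.lam := by
  have e0 := h.k.k.e0
  obtain e1 : c.e3 ≤ 1 / 400 := h.k.e3.trans
    (one_div_le_one_div_of_le (by norm_num) (by linarith only [h.k.κ0]))
  obtain st : ∀ n : ℕ, 400 * c.e3 ^ (n + 1) ≤ c.e3 ^ n := fun n => by
    obtain this : 0 < c.e3 ^ n := by positivity
    rw [pow_succ]; nlinarith only [e1, this]
  obtain le : ∀ {m n : ℕ}, n ≤ m → c.e3 ^ m ≤ c.e3 ^ n := fun a =>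
    pow_le_pow_of_le_one e0.le (by linarith only [e0, e1]) a
  have l := h.k.l4
  have ε1 := h.k.k.ε1
  have ε0 := h.k.k.ε0
  refine ⟨e1, pow_pos e0 4, st 3, rfl, st 2, by simpa using le (show 0 ≤ 2 by norm_num), ?_, ?_,
    by unfold Cs.cc; nlinarith only [e1, l, ε1, e0, ε0], by unfold Cs.c1; nlinarith only [e1, l, ε1, e0, ε0]⟩ <;> rw [h.k.εe]
  · exact (st 19).trans (le (by norm_num))
  · exact (st 19).trans (le (by norm_num))

theorem sk1_of (h : P c) (X : d.Ctx c Ex M) : (d.sk c M).OK1 c := by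
  obtain ⟨e1, am0, s1, s2, s3, s4, s5, s6, ccl, c1l⟩ := h.sm
  have k := h.k.k
  have lam := h.k.l4
  have κ0 := h.k.κ0
  have C0 := h.k.C0
  have ε0 := k.ε0
  have ε1 := k.ε1
  have cc2 := k.cc2
  obtain eL : exp c.lam = c.L := exp_log (by linarith only [s1, s3, s4, s5, ε0, k.L])
  have hl : 0 ≤ c.C1 * d.ld c M := mul_nonneg k.C1 ((d.S M).load_nonneg c _ _)
  have W0 := fun m => DS0.Wp0 (c := c) (d.S M) d.n m
  obtain u0 : ∀ m, 0 ≤ c.cW (d.ld c M) ((d.S M).Wp c d.n m) := fun m =>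
    (mul_nonneg ε0.le (W0 m)).trans (Cs.le_cW (by linarith only [s1, s3, s4, s5, ε0]) hl (by linarith only [s1, s3, s4, s5, ε0, cc2]) (W0 m))
  have um : ∀ {i j}, i ≤ j →
      c.cW (d.ld c M) ((d.S M).Wp c d.n i) ≤ c.cW (d.ld c M) ((d.S M).Wp c d.n j) :=
    fun a => Cs.cW_mono ε0.le (SK0.Wp_mono _ _ a)
  obtain t0 : 0 ≤ c.ths := by linarith only [am0, s1]
  have t1 : 400 * c.ths ≤ 1 := s3.trans s4
  obtain l0 : 0 ≤ c.lam := by linarith only [lam]
  obtain C00 : 0 ≤ c.C0 := by linarith only [C0]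
  have kl := mul_nonneg κ0.le l0
  have Cl := mul_nonneg C00 l0
  obtain sl0 : ∀ i, 10 * c.lam ≤ (d.sk c M).sl i := fun i => by
    rw [Dat.sk_sl]; linarith only [mul_nonneg t0 (u0 (i + d.n))]
  have FF : ∀ m ∈ (d.sk c M).F, d.FrC c Ex M (m + d.n) := fun m hm => X.fr _ (Dat.mem_F.1 hm)
  obtain DD : ∀ x ∈ (d.sk c M).D, d.FrC c Ex M (x + d.n) ∧ x + d.n < d.p ∧
      d.StC c Ex M (x + d.n) (nxt d.Ls d.p (x + d.n)) ∧ c.lam ≤ d.dp c M (x + d.n) ∧
      c.am * c.cW (d.ld c M) ((d.S M).Wp c d.n (x + d.n)) + c.lam ≤ d.dp c M (x + d.n) ∧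
      log ((d.sk c M).η x) = c.lam - d.dp c M (x + d.n) := fun x hx => by
    obtain ⟨a, b, e⟩ := Dat.mem_mj.1 (Dat.mem_D.1 hx)
    have f := X.fr _ a
    rw [Dat.cW_eq] at e
    refine ⟨f, b, f.st b, by linarith only [mul_nonneg am0.le (u0 (x + d.n)), e], e, ?_⟩
    rw [Dat.sk_η, (f.st b).blk.eta, ← eL, ← exp_add, log_exp]; ring
  obtain bi : ∀ m, d.FrC c Ex M m → c.M1 * ((d.S M).Wp c d.n m - 5) ≤ (d.S M).chi c d.n m ∧
      (d.S M).kk (d.n + 1) = 0 ∧ 1 ≤ dP ((d.S M).X (d.n + 1)) := fun m f => by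
    obtain ⟨_, _, -, -, b⟩ := f.run
    exact ⟨b.chi_ge, b.kz.1, b.kz.2.2⟩
  obtain ch0 : ∀ j, (d.S M).kk j = 0 → (d.S M).ch1 c j = c.bl := fun j e => by
    unfold Sq.ch1; rw [e]; ring
  have b1 := (bi _ (X.fr _ X.one)).2
  obtain lo : ∀ m, d.FrC c Ex M m → (d.S M).Wp c d.n m -
      (c.ths * c.cW (d.ld c M) ((d.S M).Wp c d.n m) / 2 + c.lam) ≤ log |d.ζ M m| := fun m f => by
    have a := f.fr0.lo
    have b := mul_le_mul_of_nonneg_right s1 (u0 m)
    have e := mul_nonneg am0.le (u0 m)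
    obtain g : c.am * c.cc ≤ 1 / 400 * c.lam := mul_le_mul (by linarith only [s1, t1, t0]) ccl (by linarith only [cc2]) (by norm_num)
    rw [s2] at a
    unfold Dat.ζ
    linarith only [a, b, e, g, l0]
  refine ⟨Dat.mem_F.2 (by rw [add_comm]; exact X.one),
    Dat.mem_F.2 (by rw [show (d.sk c M).N + d.n = d.p from sub_add_cancel _ _]; exact X.last),
    fun m hm => ?_, fun x hx => ?_, fun i hi => ?_, ?_, fun l => ?_, ⟨?_, ?_⟩, fun x hx => ?_,
    fun l => ?_, ?_, ?_, fun i hi => DRP.wp_pos _ (by omega), fun l hl => ?_, fun x hx => ?_, ?_,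
    fun i j _ a => SK0.Wp_mono _ _ (by omega), fun i j _ a => ?_, by linarith only [s1, s3, s4, s5, lam, ε0, sl0 1],
    fun m hm => ?_, fun i j _ a => ?_, fun m hm => ?_, fun m hm => ?_, fun i i1 i2 => ?_,
    fun m hm hD => ?_, fun x hx => ?_, fun x hx => ?_, fun x hx => ?_, fun x hx => ?_,
    fun m hm => ?_⟩
  · have a := (FF m hm).lo
    have b := (FF m hm).hi
    exact ⟨by omega, show m ≤ d.p - d.n by omega⟩
  · have := (DD x hx).2.1
    exact ⟨Dat.mem_F.2 (Dat.mem_mj.1 (Dat.mem_D.1 hx)).1, show x < d.p - d.n by omega⟩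
  · have hi' : i < d.p - d.n := hi
    obtain ⟨a1, a2, a3⟩ := X.nx (i + d.n) (by omega)
    have e := Dat.sk_nx (c := c) (M := M) (d := d) i
    refine ⟨Dat.mem_F.2 (e ▸ a1), by omega, fun m hm lt => ?_⟩
    obtain this := a3 _ (Dat.mem_F.1 hm) (by omega)
    omega
  · show nxt d.Ls d.p (d.p - d.n + d.n) - d.n = d.p - d.n
    rw [sub_add_cancel, X.nxp]
  · have a := (d.S M).ch1_mem c k.chK.2 (l + d.n)
    exact ⟨le_trans (by linarith only [s1, s3, s4, s5, ε0, k.chK.1]) a.1, a.2⟩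
  · exact ch0 _ (by rw [add_comm]; exact b1.1)
  · show (d.S M).bb c (2 / 100) (1 + d.n) = _
    unfold Sq.bb
    rw [add_comm 1 d.n]
    exact if_neg fun a => by linarith only [s1, s3, s4, s5, ε0, a.1, b1.2]
  · obtain ⟨-, -, s, r, -⟩ := DD x hx
    refine ⟨ch0 _ ((d.S M).kk_eq_zero.2 (Or.inl ?_)), ch0 _ ?_⟩
    · by_contra hc
      linarith only [s1, s3, s4, s5, lam, ε0, r, (s.step.zone (by linarith only [s1, s3, s4, s5, ε0, not_le.1 hc])).2]
    · rw [add_right_comm]; exact s.step.kz (by linarith only [s1, s3, s4, s5, lam, ε0, r])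
  · show _ ≤ (d.S M).bb c (2 / 100) (l + d.n)
    unfold Sq.bb
    split_ifs
    · obtain a : exp (-c.bl) ≤ 1 := exp_le_one_iff.2 (by linarith only [s1, s3, s4, s5, ε0, k.chK.1, k.chK.2])
      linarith only [a, mul_nonneg (show 0 ≤ c.k0 by linarith only [k.k1]) (show 0 ≤ c.L by linarith only [k.L])]
    · exact le_rfl
  · rw [Dat.sk_w, zero_add]
    exact le_antisymm ((d.S M).wh_le c _ le_rfl fun i h1 h2 => by
      rw [(d.S M).fr_lt (by omega : i < d.n + 1)]; simp) ((d.S M).wh_nonneg c _ _ _)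
  · rw [Dat.sk_w, add_comm]; exact DRP.wp_one _ _
  · obtain a := (d.S M).wh_succ c (d.ζ M) (show d.n + 1 ≤ l + d.n by omega)
    rw [Dat.sk_w, Dat.sk_w, sub_add_eq_add_sub]
    exact (le_max_right _ _).trans a.ge
  · obtain ⟨-, -, s, r, -⟩ := DD x hx
    rw [Dat.sk_η, s.blk.eta, ← eL, ← exp_add]
    exact ⟨exp_pos _, exp_le_one_iff.2 (by linarith only [r])⟩
  · rw [Dat.sk_W, add_comm]
    unfold Sq.Wp Sq.WW
    rw [Sq.AA_self, log_one]
  · rw [Dat.sk_sl, Dat.sk_sl]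
    linarith only [mul_le_mul_of_nonneg_left (um (show i + d.n ≤ j + d.n by omega)) t0]
  · have f := FF m hm
    have a := f.fr0.time
    have l := f.lo
    rw [add_sub_cancel_right] at a
    obtain m0 : (0 : ℝ) ≤ m := by exact_mod_cast (by omega : 0 ≤ m)
    refine (pow_le_pow_left₀ m0 a 2).trans ?_
    rw [← exp_nat_mul, Dat.sk_sl]
    refine exp_le_exp.2 ?_
    obtain b := mul_le_mul_of_nonneg_right (show 4 * c.ε ≤ c.ths by linarith only [s5, s1, ε0]) (u0 (m + d.n))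
    push_cast
    linarith only [b, l0, lam, cc2, ccl, c1l, mul_nonneg t0 (u0 (m + d.n))]
  · rw [Dat.sk_sl, Dat.sk_sl, Dat.sk_W, Dat.sk_W]
    obtain this := mul_le_mul_of_nonneg_left (Cs.cW_lip (c := c) (l := d.ld c M) (by linarith only [s1, s3, s4, s5, ε0])
      (SK0.Wp_mono (c := c) (d.S M) d.n (show i + d.n ≤ j + d.n by omega))) t0
    linarith only [this]
  · have f := FF m hm
    have p := mul_nonneg t0 (u0 (m + d.n))
    rw [Dat.sk_σ, Dat.sk_sl]
    unfold Cs.ck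
    rcases f.hi.eq_or_lt with e | lt
    · rw [e, X.nxp]
      rw [e] at p
      linarith only [p, l0, kl, mul_nonneg κ0.le p]
    · have a := mul_le_mul_of_nonneg_left (f.st lt).st0.u_hi t0
      obtain b : c.ths * ((1 + c.κ) * c.lam) ≤ 1 * ((1 + c.κ) * c.lam) :=
        mul_le_mul_of_nonneg_right (by linarith only [t1, t0]) (by positivity)
      linarith only [a, b, p, l0, kl]
  · have f := FF m hm
    rw [Dat.sk_w, f.w, Dat.sk_W, Dat.sk_sl]
    linarith only [s1, s3, s4, s5, lam, ε0, lo _ f, mul_nonneg t0 (u0 (m + d.n))]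
  · rw [Dat.sk_w, Dat.sk_W]
    rcases i1.eq_or_lt with rfl | lt
    · rw [add_comm, DRP.wp_one, log_one]
      linarith only [s1, s3, s4, s5, lam, ε0, W0 (d.n + 1), sl0 1]
    obtain ⟨a1, a2⟩ := (Sq.cert_wh X.ok k.k1 k.k2 (by linarith only [s1, s3, s4, s5, lam, ε0]) k.chK.2 X.st le_rfl).2.2
      (i + d.n - 1) (by omega)
    rw [sub_add_cancel] at a1 a2
    obtain L0 : 0 < c.L := by linarith only [s1, s3, s4, s5, ε0, k.L]
    obtain a3 : (d.S M).wp c d.n (i + d.n) ≤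
        exp ((d.S M).Wp c d.n (i + d.n)) * (exp c.lam * exp (9 * c.lam)) := by
      have b := add_one_le_exp (9 * c.lam)
      have A1 := (d.S M).one_le_AA c (d.ζ M) (d.n + 1) (i + d.n)
      have e : exp ((d.S M).Wp c d.n (i + d.n)) = (d.S M).AA c (d.ζ M) (d.n + 1) (i + d.n) :=
        exp_log (lt_of_lt_of_le one_pos A1)
      rw [e, eL]
      refine a1.trans ((mul_le_mul_of_nonneg_left a2 (by positivity)).trans ?_)
      obtain this := mul_le_mul_of_nonneg_left (show 36 ≤ exp (9 * c.lam) by linarith only [s1, s3, s4, s5, lam, ε0, b])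
        (show 0 ≤ (d.S M).AA c (d.ζ M) (d.n + 1) (i + d.n) * c.L by (clear * - A1 L0; positivity))
      linarith only [this]
    rw [← exp_add, ← exp_add] at a3
    linarith only [lt, (log_le_iff_le_exp (DRP.wp_pos _ (by omega))).2 a3, sl0 1]
  · have f := FF m hm
    rw [Dat.sk_W, Dat.sk_nx, Dat.sk_W]
    rcases f.hi.eq_or_lt with e | lt
    · rw [e, X.nxp]; linarith only [s1, s3, s4, s5, lam, ε0, sl0 m]
    · have r : d.dp c M (m + d.n) <
          c.am * c.cW (d.ld c M) ((d.S M).Wp c d.n (m + d.n)) + c.lam :=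
        not_le.1 fun a => hD (Dat.mem_D.2 (Dat.mem_mj.2 ⟨Dat.mem_F.1 hm, lt, a⟩))
      have a := mul_le_mul_of_nonneg_right s1 (u0 (m + d.n))
      have b := mul_nonneg am0.le (u0 (m + d.n))
      rw [Dat.sk_sl]
      refine (f.st lt).st0.hi.trans ?_
      rw [← le_sub_iff_add_le]
      exact max_le (by linarith only [s1, s3, s4, s5, lam, ε0, a, b]) (by linarith only [s1, s3, s4, s5, lam, ε0, r, a, b, f.fr0.hi])
  · obtain ⟨f, lt, s, r, -, e⟩ := DD x hx
    rw [e, Dat.sk_w, f.w, Dat.sk_W, Dat.sk_nx, Dat.sk_σ]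
    have a := s.st0.lo.1
    have b := lo _ f
    have g := mul_le_mul_of_nonneg_left (um s.step.lt.le) t0
    have p := mul_nonneg t0 (u0 (x + d.n))
    unfold Dat.ζ at *
    refine ⟨by linarith only [s1, s3, s4, s5, lam, ε0, a], s.st0.hi.trans ?_⟩
    rw [← le_sub_iff_add_le]
    exact max_le (by linarith only [s1, s3, s4, s5, lam, ε0, r, b, g, p]) (by linarith only [s1, s3, s4, s5, lam, ε0, g, p])
  · obtain ⟨f, lt, s, r, -, e⟩ := DD x hx
    rw [e, Dat.sk_chi, zero_add]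
    have a := s.st0.p7 r
    obtain b : d.dp c M (x + d.n) ≤ (3 * c.κ + 1) * (d.S M).Wp c d.n (x + d.n) := by
      obtain this := mul_le_mul_of_nonneg_left (show (d.S M).Wp c d.n (x + d.n) + c.lam + 4 ≤
        3 * (d.S M).Wp c d.n (x + d.n) by linarith only [s1, s3, s4, s5, lam, ε0, a]) κ0.le
      linarith only [c1l, a, this, s.st0.r_hi]
    have g := mul_le_mul_of_nonneg_left b C00
    obtain p := mul_le_mul h.M1 (show (d.S M).Wp c d.n (x + d.n) / 2 ≤
      (d.S M).Wp c d.n (x + d.n) - 5 by linarith only [s1, s3, s4, s5, lam, ε0, a]) (by linarith only [s1, s3, s4, s5, lam, ε0, a]) h.k.M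
    have q := mul_nonneg C00 (W0 (x + d.n))
    linarith only [(bi _ f).1, g, p, q, Cl]
  · obtain ⟨f, lt, s, -, r, -⟩ := DD x hx
    rw [Dat.sk_chi, Dat.sk_W, Dat.sk_nx]
    have a := s.st0.d5 _ am0.le r
    have b := h.M2
    rw [div_le_iff₀ (by positivity)] at b
    have g := mul_le_mul_of_nonneg_right b (W0 (nxt d.Ls d.p (x + d.n)))
    refine le_of_mul_le_mul_left ?_ (show 0 < 2 * (1 + c.κ) by positivity)
    linarith only [a, g]
  · obtain ⟨f, lt, s, r, -⟩ := DD x hx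
    rw [Dat.sk_σ, Dat.sk_W, Dat.sk_nx]
    have e0 : 0 < c.e3 ^ 2 := pow_pos k.e0 2
    obtain a : 20 * c.lam ≤ c.e3 ^ 2 * (d.S M).Wp c d.n (nxt d.Ls d.p (x + d.n)) := by
      by_cases lw : c.C0 * max ((d.S M).Wp c d.n (x + d.n))
        (log |(d.S M).fr (d.n + 1) (x + d.n)| + d.dp c M (x + d.n)) ≤ c.bl
      · have a1 := s.st0.low lw
        have a2 := mul_le_mul_of_nonneg_left s.st0.lo.2.1 ε0.le
        have a3 := mul_le_mul_of_nonneg_right s6 (W0 (nxt d.Ls d.p (x + d.n)))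
        have a4 := mul_le_mul_of_nonneg_right ε1 l0
        linarith only [s1, s3, s4, s5, lam, ε0, r, a1, a2, a3, a4]
      · have a1 := mul_le_mul_of_nonneg_left (max_le s.st0.lo.2.1 s.st0.lo.1)
          C00
        have a2 := h.β2
        rw [div_le_iff₀ e0] at a2
        have a3 := mul_le_mul_of_nonneg_left ((not_le.1 lw).le.trans a1) e0.le
        have a4 := mul_le_mul_of_nonneg_right a2 l0
        refine le_of_mul_le_mul_left ?_ (show 0 < c.C0 by linarith only [s1, s3, s4, s5, C0, ε0])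
        unfold Cs.bl at a3
        linarith only [a3, a4]
    have b := mul_le_mul_of_nonneg_left (Cs.cW_le (c := c) (l := d.ld c M)
      ((d.S M).Wp c d.n (nxt d.Ls d.p (x + d.n)))) t0
    have g := mul_le_mul_of_nonneg_right s3 (W0 (nxt d.Ls d.p (x + d.n)))
    have p := mul_nonneg t0 (W0 (nxt d.Ls d.p (x + d.n)))
    linarith only [s1, s3, s4, s5, lam, ε0, a, b, g]
  · have f := FF m hm
    rw [Dat.sk_chi, zero_add, Dat.sk_sl]
    obtain a : c.bl ≤ (d.S M).chi c d.n (m + d.n) := by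
      rw [← ch0 _ b1.1, ← (d.S M).chi_succ]
      exact (d.S M).chi_mono c (by linarith only [s1, s3, s4, s5, ε0, k.chK.1]) k.chK.2 le_rfl f.lo
    obtain b : c.ths * c.cW (d.ld c M) ((d.S M).Wp c d.n (m + d.n)) ≤
        1 * (d.S M).Wp c d.n (m + d.n) :=
      mul_le_mul (by linarith only [s1, s3, s4, s5, ε0]) (Cs.cW_le _) (u0 _) zero_le_one
    have g := mul_le_mul_of_nonneg_right h.β1 l0
    obtain q : 2 * c.C0 * ((d.S M).Wp c d.n (m + d.n) - 5) ≤ (d.S M).chi c d.n (m + d.n) := by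
      rcases le_total ((d.S M).Wp c d.n (m + d.n) - 5) 0 with z | z
      · linarith only [k.chi0 (d.S M) d.n (m + d.n), mul_nonneg C00 (neg_nonneg.2 z)]
      · refine le_trans (mul_le_mul_of_nonneg_right (le_trans ?_ h.M1) z) (bi _ f).1
        linarith only [C00, mul_nonneg C00 κ0.le]
    have p := mul_le_mul_of_nonneg_left b C00
    unfold Cs.bl at a
    linarith only [a, g, q, p, C00, mul_le_mul_of_nonneg_left lam C00]

end SK1

theorem sk1 (K : ℕ) : Hier fun c => CTX_s K c → SK1_s K c :=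
  SK1.hP.mono fun _ h hX hK M hM d v => SK1.sk1_of h (hX hK M hM d v)

end
end Pool.Agent.MP_9cbfe4_an

end

/-! ### Part SK2 -/

section

/-! Row SK2: the skeleton of a datum inside blocks, and decay. -/

namespace Pool.Agent.MP_9cbfe4_an
open Finset Filter Topology Real
noncomputable section

namespace SK2
variable {c : Cs} {Ex : ExT} {M : Mdl} {d : Dat}

structure P (c : Cs) : Prop where
  k : DRP.K c
  a : c.a ≤ 1 / 100
  e : c.e3 ≤ 1 / 100

theorem hP : Hier P := by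
  obtain h1 := Hier.a_le (fun _ => 1 / 100) (fun _ _ _ _ _ _ => rfl) (Hier.of_all fun _ => by norm_num)
  obtain h2 := Hier.e3_le (fun _ => 1 / 100) (fun _ _ _ _ _ _ _ _ => rfl)
    (Hier.of_all fun _ => by norm_num)
  exact (DRP.hK.and (h1.and h2)).mono fun c h => ⟨h.1, h.2.1.2, h.2.2.2⟩

/-- the slack at absolute time `q` -/
def sl (c : Cs) (M : Mdl) (d : Dat) (q : ℤ) : ℝ :=
  c.ths * c.cW (d.ld c M) ((d.S M).Wp c d.n q) + 10 * c.lam

theorem u0 (h : P c) (m : ℤ) : 0 ≤ c.cW (d.ld c M) ((d.S M).Wp c d.n m) := by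
  have a := DS0.Wp0 (c := c) (d.S M) d.n m
  have b : 0 ≤ d.ld c M := (d.S M).load_nonneg c _ _
  have l := h.k.lam
  have e := h.k.ε0
  obtain this : 0 ≤ c.cc := by unfold Cs.cc; (clear * - e l; positivity)
  exact le_min a (by have := h.k.C1; positivity)

/-- small multiples of the scale are below the slack -/
theorem small (h : P c) {m q : ℤ} (hq : m ≤ q) :
    20 * (c.e3 ^ 4 * (c.cW (d.ld c M) ((d.S M).Wp c d.n m) + c.lam)) + 9 * c.lam ≤ sl c M d q := by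
  have a := u0 (d := d) (M := M) h m
  have b := Cs.cW_mono (l := d.ld c M) h.k.ε0.le (SK0.Wp_mono (c := c) (d.S M) d.n hq)
  have l := h.k.lam
  have e0 := h.k.e0
  obtain e3 : 0 < c.e3 ^ 3 := by positivity
  obtain e1 : 20 * c.e3 ^ 4 ≤ c.e3 ^ 3 := by nlinarith only [e0, e3, h.e]
  obtain e2 : c.e3 ^ 3 ≤ 1 := pow_le_one₀ e0.le (by linarith only [h.e])
  unfold sl Cs.ths
  linarith only [l, mul_le_mul_of_nonneg_right e1 a, mul_le_mul_of_nonneg_left b e3.le,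
    mul_le_mul_of_nonneg_right (e1.trans e2) (show 0 ≤ c.lam by linarith only [l])]

theorem zb (h : P c) {m q : ℤ} (s : d.StC c Ex M m q) :
    (d.S M).Zb c m (d.dp c M m) ≤ c.e3 ^ 4 * (c.cW (d.ld c M) ((d.S M).Wp c d.n m) + c.lam) ∧
    c.CN * (d.S M).Zb c m (d.dp c M m) ≤
      c.e3 ^ 4 * (c.cW (d.ld c M) ((d.S M).Wp c d.n m) + c.lam) := by
  obtain a : 0 ≤ c.cW (d.ld c M) ((d.S M).Wp c d.n m) + c.lam := by
    linarith only [u0 (d := d) (M := M) h m, h.k.lam]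
  obtain e : ∀ k, 4 ≤ k → c.e3 ^ k ≤ c.e3 ^ 4 := fun k hk =>
    pow_le_pow_of_le_one h.k.e0.le (by linarith only [h.e]) hk
  exact ⟨s.st0.zb.trans (mul_le_mul_of_nonneg_right (e _ (by norm_num)) a),
    s.st0.zb'.trans (mul_le_mul_of_nonneg_right (e _ (by norm_num)) a)⟩

theorem pos4 (h : P c) (m : ℤ) :
    0 ≤ c.e3 ^ 4 * (c.cW (d.ld c M) ((d.S M).Wp c d.n m) + c.lam) :=
  mul_nonneg (by have := h.k.e0; positivity) (by linarith only [u0 (d := d) (M := M) h m, h.k.lam])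

theorem zb1 (h : P c) {m q : ℤ} (s : d.StC c Ex M m q) :
    exp ((d.S M).Zb c m (d.dp c M m)) ≤ exp (sl c M d q) :=
  exp_le_exp.2 (by
    linarith only [(zb h s).1, small (d := d) (M := M) h s.step.lt.le, pos4 (d := d) (M := M) h m,
      h.k.lam])

theorem pb (h : P c) {m q : ℤ} (s : d.StC c Ex M m q) {i j : ℤ} (h1 : m ≤ i) (h2 : i ≤ j)
    (h3 : j ≤ q) : 2 * (d.S M).PB c (2 / 100) i j ≤ exp (sl c M d q) * exp (-(d.S M).chi c i j) := by
  have a := s.blk.pb i j h1 h2 h3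
  obtain b : exp (c.CN * (d.S M).Zb c m (d.dp c M m) / 10 + c.lam + 1 - (d.S M).chi c i j) * exp 1 ≤
      exp (sl c M d q) * exp (-(d.S M).chi c i j) := by
    rw [← exp_add, ← exp_add]
    exact exp_le_exp.2 (by
      linarith only [(zb h s).2, small (d := d) (M := M) h s.step.lt.le, pos4 (d := d) (M := M) h m,
        h.k.lam])
  have e := add_one_le_exp 1
  nlinarith only [a, b, e, exp_pos (c.CN * (d.S M).Zb c m (d.dp c M m) / 10 + c.lam + 1 - (d.S M).chi c i j)]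

theorem PB0 (h : P c) (S : Sq) (i j : ℤ) : 0 < S.PB c (2 / 100) i j :=
  S.PB_pos c (by nlinarith only [h.k.k1, h.k.L]) _ _ _

theorem chi0 (h : P c) (S : Sq) (i j : ℤ) : 0 ≤ S.chi c i j :=
  S.chi_nonneg c (by linarith only [h.k.chK.1]) h.k.chK.2 i j

theorem i2 (h : P c) {m i : ℤ} (f : d.FrC c Ex M m) (h1 : d.n < i) (h2 : i ≤ m) :
    (d.S M).PB c (2 / 100) i m * (d.S M).wp c d.n i ≤
      2 * exp (-(99 / 100) * (d.S M).chi c i m) * (d.S M).wp c d.n m ∧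
    (d.S M).wp c d.n i ≤ 2 * exp ((d.S M).chi c i m / 100) * (d.S M).wp c d.n m := by
  have w0 : 0 ≤ (d.S M).wp c d.n m := (d.S M).wh_nonneg c _ _ _
  rcases h2.eq_or_lt with rfl | h2
  · simp only [Sq.PB_self, Sq.chi_self, mul_zero, zero_div, exp_zero]
    constructor <;> linarith only [w0]
  obtain ⟨a, b⟩ := f.rinv.i2 i h1 h2
  have x := chi0 h (d.S M) i m
  have ff : (d.S M).ff c (d.n + 1) i ≤ 2 := sub_le_self _ (exp_pos _).le
  have y := mul_le_mul_of_nonneg_right h.a x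
  rw [← f.w] at a b
  exact ⟨a.trans (mul_le_mul_of_nonneg_right (mul_le_mul ff (exp_le_exp.2 (by linarith only [y]))
      (exp_pos _).le (by norm_num)) w0),
    b.trans (mul_le_mul_of_nonneg_right (mul_le_mul ff (exp_le_exp.2 (by linarith only [y]))
      (exp_pos _).le (by norm_num)) w0)⟩

theorem deep (h : P c) (X : d.Ctx c Ex M) {x : ℤ} (hx : x ∈ d.mj c M) :
    ∃ L, (d.S M).BInv c x L (nxt d.Ls d.p x) := by
  obtain ⟨a, b, e⟩ := Dat.mem_mj.1 hx
  obtain this : 0 ≤ c.am * d.cW c M ((d.S M).Wp c d.n x) :=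
    mul_nonneg (by have := h.k.e0; unfold Cs.am; positivity) (u0 h x)
  obtain ⟨L, -, -, -, r, -⟩ := ((X.fr x a).st b).deep (by linarith only [e, this])
  exact ⟨L, r⟩

theorem om_eq (X : d.Ctx c Ex M) {x i : ℤ} (hx : x ∈ d.mj c M) (h1 : x < i + d.n)
    (h2 : i + d.n < nxt d.Ls d.p x) :
    (d.sk c M).om i = (d.S M).om c (d.ζ M) x (nxt d.Ls d.p x) (i + d.n) := by
  have ex : ∃ x ∈ d.mj c M, x < i + d.n ∧ i + d.n < nxt d.Ls d.p x := ⟨x, hx, h1, h2⟩
  obtain ⟨b1, b2, b3⟩ := ex.choose_spec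
  obtain ⟨a1, a2, -⟩ := Dat.mem_mj.1 hx
  obtain ⟨c1, c2, -⟩ := Dat.mem_mj.1 b1
  obtain e : ex.choose = x := by
    rcases lt_trichotomy ex.choose x with q | q | q
    · have := (X.nx _ c2).2.2 x a1 q; omega
    · exact q
    · have := (X.nx _ a2).2.2 _ c1 q; omega
  simp only [Dat.sk, dif_pos ex, e, Sq.om, (X.fr x a1).w]

theorem nlo (h : P c) (X : d.Ctx c Ex M) {m i : ℤ} (hm : m ∈ frs d.Ls d.p) (hn : m ∉ d.mj c M)
    (h1 : m ≤ i) (h2 : i < nxt d.Ls d.p m) :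
    (d.S M).Wp c d.n m - sl c M d (nxt d.Ls d.p m) ≤ log ((d.S M).wp c d.n i) := by
  have f := X.fr m hm
  obtain lt : m < d.p := f.hi.lt_of_ne fun e => by rw [e, X.nxp] at h2; omega
  have s := f.st lt
  have sm := small (d := d) (M := M) h s.step.lt.le
  have p4 := pos4 (d := d) (M := M) h m
  have l := h.k.lam
  obtain e4 : 0 ≤ c.e3 ^ 4 := by have := h.k.e0; positivity
  obtain cc : c.cc ≤ c.lam := by unfold Cs.cc; nlinarith only [l, h.k.ε1]
  obtain lo : (d.S M).Wp c d.n m - 11 * (c.e3 ^ 4 * (c.cW (d.ld c M) ((d.S M).Wp c d.n m) + c.lam))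
      ≤ log |d.ζ M m| := by
    have := f.fr0.lo
    unfold Cs.ε' at this
    unfold Dat.ζ
    linarith only [this, mul_le_mul_of_nonneg_left cc e4]
  rcases h1.eq_or_lt with rfl | h1
  · rw [f.w]; linarith only [sm, p4, l, lo]
  obtain r : d.dp c M m ≤ c.e3 ^ 4 * (c.cW (d.ld c M) ((d.S M).Wp c d.n m) + c.lam) + c.lam := by
    have := not_le.1 fun q => hn (Dat.mem_mj.2 ⟨hm, lt, q⟩)
    rw [Dat.cW_eq] at this
    unfold Cs.am at this
    linarith only [this, l, mul_nonneg e4 (show 0 ≤ c.lam by linarith only [l])]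
  have a := s.blk.base i h1 h2.le
  have b := s.blk.up i h1 h2.le
  have z := (zb h s).1
  have z0 : 0 < |d.ζ M m| := abs_pos.2 f.rinv.ne
  obtain eL : exp c.lam = c.L := exp_log (by linarith only [h.k.L])
  rw [s.blk.eta, ← eL, ← exp_log z0, ← exp_add, ← exp_add] at a
  set Z := (d.S M).Zb c m (d.dp c M m)
  obtain t : exp (log |d.ζ M m| + (c.lam + -d.dp c M m) - Z - 1) ≤ (d.S M).wp c d.n i := by
    rw [exp_sub, exp_sub, div_le_iff₀ (exp_pos _), div_le_iff₀ (exp_pos _)]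
    refine a.trans ?_
    rw [mul_comm _ (exp Z)]
    refine mul_le_mul_of_nonneg_left (b.trans ?_) (exp_pos _).le
    have w0 : 0 ≤ (d.S M).wp c d.n i := (d.S M).wh_nonneg c _ _ _
    change 2 * (d.S M).wp c d.n i ≤ _
    nlinarith only [w0, add_one_le_exp 1]
  have := (le_log_iff_exp_le ((exp_pos _).trans_le t)).2 t
  linarith only [sm, p4, l, lo, r, z, this]

theorem d4 (h : P c) (X : d.Ctx c Ex M) {i l : ℤ} (h1 : d.n < i) (h2 : i ≤ l) (h3 : l ≤ d.p) :
    (d.S M).PB c (2 / 100) i l * (d.S M).wp c d.n i ≤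
      exp (sl c M d (nxt d.Ls d.p l)) * exp (-(d.S M).chi c i l / 2) * (d.S M).wp c d.n l := by
  have w0 : ∀ j, 0 ≤ (d.S M).wp c d.n j := fun j => (d.S M).wh_nonneg c _ _ _
  obtain hf : ∀ i j, exp (-(99 / 100) * (d.S M).chi c i j) ≤ exp (-(d.S M).chi c i j / 2) :=
    fun i j => exp_le_exp.2 (by linarith only [chi0 h (d.S M) i j])
  obtain sq : ∀ i j, exp (-(d.S M).chi c i j) =
      exp (-(d.S M).chi c i j / 2) * exp (-(d.S M).chi c i j / 2) := fun i j => by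
    rw [← exp_add]; congr 1; ring
  rcases h3.eq_or_lt with rfl | h3
  · refine (i2 h (X.fr _ X.last) h1 h2).1.trans (mul_le_mul_of_nonneg_right
      (mul_le_mul ?_ (hf _ _) (exp_pos _).le (exp_pos _).le) (w0 _))
    linarith only [add_one_le_exp (sl c M d (nxt d.Ls d.p d.p)), h.k.lam,
      small (d := d) (M := M) h (le_refl (nxt d.Ls d.p d.p)),
      pos4 (d := d) (M := M) h (nxt d.Ls d.p d.p)]
  obtain ⟨x, x1, x2, x3, x4⟩ := X.tile l (by omega) h3
  have f := X.fr x x1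
  obtain s := f.st (by omega)
  rw [x4]
  set E := exp (sl c M d (nxt d.Ls d.p x))
  have E0 : 0 < E := exp_pos _
  obtain key : ∀ j, x ≤ j → j ≤ l → 2 * ((d.S M).PB c (2 / 100) j l * (d.S M).wp c d.n j) ≤
      E * exp (-(d.S M).chi c j l / 2) * (d.S M).wp c d.n l := fun j j1 j2 => by
    have a := mul_le_mul_of_nonneg_right (pb h s j1 j2 x3.le) (w0 j)
    have b : (d.S M).wp c d.n j * exp (-(d.S M).chi c j l / 2) ≤ (d.S M).wp c d.n l :=
      (d.S M).wh_decay' c _ _ j2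
    rw [sq] at a
    have := mul_le_mul_of_nonneg_left b (mul_pos E0 (exp_pos (-(d.S M).chi c j l / 2))).le
    linarith only [a, this]
  rcases le_or_gt x i with q | q
  · linarith only [key i q h2, mul_nonneg (PB0 h (d.S M) i l).le (w0 i)]
  obtain a := ((i2 h f h1 q.le).1).trans (mul_le_mul_of_nonneg_right
    (mul_le_mul_of_nonneg_left (hf i x) (by norm_num)) (w0 x))
  rw [(d.S M).PB_mul c _ q.le x2, (d.S M).exp_chi_add c q.le x2]
  have b := mul_le_mul_of_nonneg_left a (PB0 h (d.S M) x l).le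
  have e := mul_le_mul_of_nonneg_left (key x le_rfl x2) (exp_pos (-(d.S M).chi c i x / 2)).le
  linarith only [b, e]

theorem main (h : P c) (X : d.Ctx c Ex M) : (d.sk c M).OK2 := by
  have σ : ∀ i, (d.sk c M).σ i = sl c M d (nxt d.Ls d.p (i + d.n)) := Dat.sk_σ
  have nx := Dat.sk_nx (c := c) (M := M) (d := d)
  obtain st : ∀ x ∈ (d.sk c M).D, d.FrC c Ex M (x + d.n) ∧
      d.StC c Ex M (x + d.n) (nxt d.Ls d.p (x + d.n)) := fun x hx => by
    obtain ⟨a, b, -⟩ := Dat.mem_mj.1 (Dat.mem_D.1 hx)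
    exact ⟨X.fr _ a, (X.fr _ a).st b⟩
  refine ⟨fun m hm hn i h1 h2 => ?_, fun i hi => ?_, fun x hx i h1 h2 => ?_, fun i l h1 h2 h3 => ?_,
    fun m hm i h1 h2 => ?_, fun x hx i h1 h2 => ?_, fun x hx l i h1 h2 h3 => ?_⟩
  · rw [σ]
    exact nlo h X (Dat.mem_F.1 hm) (fun q => hn (Dat.mem_D.2 q)) (by omega)
      (by have := nx m; omega)
  · refine dif_neg fun ⟨x, hx, h1, h2⟩ => ?_
    obtain a := hi (x - d.n) (Dat.mem_D.2 (by rwa [sub_add_cancel])) (by omega)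
    have b := nx (x - d.n)
    rw [sub_add_cancel] at b
    omega
  · obtain ⟨f, s⟩ := st x hx
    have b := nx x
    have hx' := Dat.mem_D.1 hx
    obtain e : ∀ l, x < l → l ≤ i → (d.sk c M).om l =
        (d.S M).om c (d.ζ M) (x + d.n) (nxt d.Ls d.p (x + d.n)) (l + d.n) := fun l l1 l2 =>
      om_eq X hx' (by omega) (by omega)
    obtain o0 : 0 ≤ (d.S M).om c (d.ζ M) (x + d.n) (nxt d.Ls d.p (x + d.n)) (i + d.n) :=
      mul_nonneg (by (clear * -; positivity)) ((d.S M).wh_nonneg c _ _ _)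
    rw [e i h1 le_rfl, σ, Dat.sk_chi, Dat.sk_w x, f.w, Dat.sk_η]
    refine ⟨(s.blk.base _ (by omega) (by omega)).trans (mul_le_mul_of_nonneg_right (zb1 h s) o0),
      s.blk.up _ (by omega) (by omega), s.blk.lo _ (by omega) (by omega), ?_, fun l l1 l2 => ?_⟩
    · obtain ⟨L, bi⟩ := deep h X hx'
      refine mul_le_mul_of_nonneg_left (((bi.i6 _ (by omega) (by omega)).2.2.1).trans
        (exp_le_exp.2 ?_)) (by (clear * -; positivity))
      nlinarith only [chi0 h (d.S M) (x + d.n) (i + d.n), h.a]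
    · rw [e l l1 l2]
      exact (s.blk.mono _ _ (by omega) (by omega) (by omega)).trans
        (mul_le_mul_of_nonneg_right (zb1 h s) o0)
  · rw [σ, Dat.sk_PB, Dat.sk_chi]
    exact d4 h X (by omega) (by omega) (by simp only [Dat.sk] at h3; omega)
  · rw [Dat.sk_PB, Dat.sk_chi]
    exact i2 h (X.fr _ (Dat.mem_F.1 hm)) (by omega) (by omega)
  · rw [Dat.sk_PB, Dat.sk_chi]
    rcases h1.eq_or_lt with rfl | h1
    · simp [Sq.PB_self, Sq.chi_self]
    obtain ⟨L, bi⟩ := deep h X (Dat.mem_D.1 hx)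
    have b := nx x
    obtain a := (bi.i6 (i + d.n) (by omega) (by omega)).1
    refine ((d.S M).PB_le c (by linarith only [h.k.k1]) (by nlinarith only [h.k.k1, h.k.L]) h.k.chK.2
      (by omega) (by linarith only [h.k.lam])).trans (exp_le_exp.2 ?_)
    nlinarith only [a, chi0 h (d.S M) (x + d.n) (i + d.n), h.a]
  · rw [σ, Dat.sk_PB, Dat.sk_chi]
    have b := nx x
    linarith only [h1, h2, h3, b, pb h (st x hx).2 (i := l + d.n) (j := i + d.n) (by omega) (by omega) (by omega),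
      PB0 h (d.S M) (l + d.n) (i + d.n)]
end SK2

theorem sk2 (K : ℕ) : Hier fun c => CTX_s K c → SK2_s K c :=
  SK2.hP.mono fun _ h hX hK M hM d v => SK2.main h (hX hK M hM d v)

end
end Pool.Agent.MP_9cbfe4_an

end

/-! ### Part DFE -/

section

/-! Row DFE: the majorant `E` for the true orbit. -/

namespace Pool.Agent.MP_9cbfe4_an
open Finset Filter Topology Real

namespace DFE
variable {c : Cs} {Ex : ExT} {M : Mdl} {d : Dat}

/-- the steps between two free times -/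
theorem chain (X : d.Ctx c Ex M) {q : ℤ} (hq : q ∈ frs d.Ls d.p) (k : ℕ) :
    ∀ m ∈ frs d.Ls d.p, q ≤ m → m ≤ q + k → ∃ L, (d.S M).Chain c Ex (d.ζ M) (d.n + 1) q L m ∧
      ∀ z ∈ L, z.1 ∈ frs d.Ls d.p ∧ q ≤ z.1 ∧ z.1 < m ∧ z.2 = d.dp c M z.1 := by
  induction k with
  | zero =>
    intro m _ h1 h2
    obtain rfl : m = q := by omega
    exact ⟨[], .nil (X.fr _ hq).rinv, by simp⟩
  | succ k ih =>
    intro m hm h1 h2
    rcases h1.eq_or_lt with rfl | h1
    · exact ⟨[], .nil (X.fr _ hq).rinv, by simp⟩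
    have a1 := (X.fr _ hq).lo
    have a2 := (X.fr _ hm).hi
    obtain ⟨x, x1, x2, x3, x4⟩ := X.tile (m - 1) (by omega) (by omega)
    obtain ⟨-, -, b3⟩ := X.nx x (by omega)
    obtain e : nxt d.Ls d.p x = m := le_antisymm (b3 _ hm (by omega)) (by omega)
    obtain qx : q ≤ x := by
      by_contra hc
      have := b3 _ hq (not_le.1 hc)
      omega
    obtain ⟨L, ch, hL⟩ := ih x x1 qx (by push_cast at h2; omega)
    obtain st := ((X.fr _ x1).st (by omega)).step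
    rw [e] at st
    refine ⟨(x, d.dp c M x) :: L, .cons ch st (X.fr _ hm).rinv, fun z hz => ?_⟩
    rcases List.mem_cons.1 hz with rfl | hz
    · exact ⟨x1, qx, by simp only; omega, rfl⟩
    · obtain ⟨z1, z2, z3, z4⟩ := hL z hz
      exact ⟨z1, z2, by omega, z4⟩

theorem om_cases (X : d.Ctx c Ex M) {x i : ℤ} (x1 : x ∈ frs d.Ls d.p) (x2 : x ≤ i + d.n)
    (x3 : i + d.n < nxt d.Ls d.p x) (xp : x < d.p) :
    (x ∈ d.mj c M ∧ x < i + d.n ∧
      (d.sk c M).om i = (d.S M).om c (d.ζ M) x (nxt d.Ls d.p x) (i + d.n)) ∨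
    (¬ (x ∈ d.mj c M ∧ x < i + d.n) ∧ (d.sk c M).om i = (d.S M).wp c d.n (i + d.n)) := by
  by_cases h : ∃ x ∈ d.mj c M, x < i + d.n ∧ i + d.n < nxt d.Ls d.p x
  · obtain ⟨h1, h2, h3⟩ := h.choose_spec
    obtain ⟨m1, m2, -⟩ := Dat.mem_mj.1 h1
    obtain e : h.choose = x := by
      rcases lt_trichotomy h.choose x with g | g | g
      · have := (X.nx _ m2).2.2 _ x1 g
        omega
      · exact g
      · have := (X.nx _ xp).2.2 _ m1 g
        omega
    refine Or.inl ⟨e ▸ h1, e ▸ h2, ?_⟩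
    simp only [Dat.sk]
    rw [dif_pos h, e, (X.fr _ x1).w]
    rfl
  · refine Or.inr ⟨fun g => h ⟨x, g.1, g.2, x3⟩, ?_⟩
    simp only [Dat.sk]
    rw [dif_neg h]

end DFE

open DFE in
theorem dfe (K : ℕ) : Hier fun c => CTX_s K c → DRP_s c → DS1_s c → DFE_s K c := by
  have h1 := Hier.M1_ge (fun c => 40 * (1 + c.κ) / (c.am * c.ε)) fun _ _ _ _ => rfl
  refine (DS1.hK.and h1).mono ?_
  rintro c ⟨kk, hM1⟩ hX hD hD1 hK M hM d v m hm i j i1 ij jm
  have k := kk.k.k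
  have X := hX hK M hM d v
  obtain ⟨s1, -, s3, s4, s5, s6, s7, s8, -⟩ := kk.small
  have lam := kk.l3
  have cc := k.cc2
  have e0 := k.e0
  obtain hL : 0 < c.L := by linarith only [k.L, s5, s6, s7]
  have eL : exp c.lam = c.L := exp_log hL
  have l0 : 0 ≤ c.C1 * d.ld c M := mul_nonneg k.C1 ((d.S M).load_nonneg c _ _)
  obtain u0 : ∀ y, 0 ≤ c.cW (d.ld c M) ((d.S M).Wp c d.n y) := fun y =>
    (mul_nonneg k.ε0.le (DS0.Wp0 _ _ _)).trans
      (Cs.le_cW (by linarith only [k.ε1, s5, s6, s7]) l0 (by linarith only [s5, s6, s7, cc]) (DS0.Wp0 _ _ _))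
  have am : c.am = c.ε' := rfl
  obtain th : 400 * c.ε' ≤ c.ths := by
    obtain this : c.ε' = c.e3 * c.ths := by unfold Cs.ε' Cs.ths; ring
    obtain p : 0 ≤ c.ths := by unfold Cs.ths; positivity
    rw [this]; nlinarith only [s1, p]
  obtain th1 : c.ths ≤ 1 := pow_le_one₀ e0.le (by linarith only [s1, s5, s6, s7])
  obtain t19 : c.e3 ^ 19 ≤ c.ε' := pow_le_pow_of_le_one e0.le (by linarith only [s1, s5, s6, s7]) (by norm_num)
  have hm' := Dat.mem_F.1 hm
  have mp := (X.fr _ hm').hi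
  obtain ⟨x, x1, x2, x3, x4⟩ := X.tile (i + d.n) (by omega) (by omega)
  obtain xp : x < d.p := by omega
  have Fx := X.fr _ x1
  have A := Fx.st xp
  obtain ⟨q1, -, q3⟩ := X.nx x xp
  obtain qm := q3 _ hm' (by omega)
  obtain ⟨Lx, Rx⟩ := A.run
  have b3 := hD1.1 _ _ _ _ _ _ _ _ _ X.ok X.st Rx
  have eσ := Dat.sk_σ (c := c) (M := M) (d := d) i
  rw [x4] at eσ
  have oc := om_cases X x1 x2 x3 xp
  obtain eV : ∀ z ∈ frs d.Ls d.p, z < d.p →
      (d.sk c M).V (z - d.n) 1 * (c.L * |d.ζ M z|) = exp (d.dp c M z) := fun z z1 z2 => by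
    have := abs_pos.2 (X.fr _ z1).rinv.ne
    rw [Sk.V, Dat.sk_η, Dat.sk_w, sub_add_cancel, ((X.fr _ z1).st z2).blk.eta, (X.fr _ z1).w,
      exp_neg]
    field_simp
  set q := nxt d.Ls d.p x
  set S := d.S M
  set σ := (d.sk c M).σ i
  set r := d.dp c M x
  set Z := S.Zb c x r
  set a := (d.sk c M).an m i
  have a0 : 0 ≤ a := (Finset.le_fold_max _).2 (Or.inl le_rfl)
  have ux : c.cW (d.ld c M) (S.Wp c d.n x) ≤ c.cW (d.ld c M) (S.Wp c d.n q) :=
    Cs.cW_mono k.ε0.le A.st0.lo.2.1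
  have uq0 := u0 q
  have ux0 := u0 x
  set u := c.cW (d.ld c M) (S.Wp c d.n q)
  set W := S.Wp c d.n q
  have p1 := mul_le_mul_of_nonneg_right th uq0
  obtain p2 : c.ε' * c.cc ≤ c.lam / 1000 :=
    (mul_le_of_le_one_left (by linarith only [s1, s4, s5, cc, t19]) (by linarith only [s1, s4, s5, t19])).trans s8
  have p3 := mul_nonneg s3 uq0
  obtain hZ : Z ≤ c.ε' * u + c.lam / 1000 := by
    obtain a1 := mul_le_mul t19 (show c.cW (d.ld c M) (S.Wp c d.n x) + c.lam ≤ u + c.lam by linarith only [ux])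
      (by linarith only [s1, s4, s5, s8, cc, t19, ux0]) s3
    obtain a2 := mul_le_mul_of_nonneg_right (show c.ε' ≤ 1 / 1000 by linarith only [s1, s4, s5, t19])
      (show 0 ≤ c.lam by linarith only [s1, s4, s5, s8, cc, t19])
    linarith only [A.st0.zb, a1, a2]
  have Z0 := k.Zb0 S x r
  obtain σ0 : 10 * c.lam ≤ σ := by linarith only [eσ, p1, p3]
  -- transport to all later times
  obtain tr : ∀ E, (∀ l, i + d.n < l → l ≤ q → |S.fr (i + d.n + 1) l| ≤ E * S.wp c d.n l) →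
      |(d.O M).fr (i + 1) j| ≤
        (E + 32 * exp (σ - W - 5 / 8 * S.chi c (i + d.n) q) + exp (4 * σ) * a) * (d.sk c M).w j := by
    intro E hE
    obtain ⟨L, ch, hL'⟩ := chain X q1 (m + d.n - q).toNat _ hm' qm (by omega)
    have := (hD _ _ X.ok).2.2 _ _ q L _ (i + d.n) E (exp (σ - W - 5 / 8 * S.chi c (i + d.n) q) + a)
      X.st ch (by omega) x3 (by (clear * - a0; positivity)) hE (fun z hz => ?_) (j + d.n) (by omega) (by omega)
    · rw [Dat.O, Sq.fr_shift, add_right_comm, Dat.sk_w]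
      refine this.trans (mul_le_mul_of_nonneg_right ?_ (S.wh_nonneg c _ _ _))
      have a1 := add_one_le_exp (4 * σ)
      nlinarith only [s1, s4, s5, lam, t19, a0, eσ, p1, p3, a1]
    obtain ⟨z1, z2, z3, z4⟩ := hL' z hz
    have Fz := X.fr _ z1
    have wz := abs_pos.2 Fz.rinv.ne
    have c0 := k.chi0 S (i + d.n) z.1
    rw [z4, add_mul]
    by_cases hj : z.1 ∈ d.mj c M
    · refine le_add_of_nonneg_of_le (by (clear * - hL wz; positivity)) ?_
      obtain a1 : exp (-(d.sk c M).chi i (z.1 - d.n) / 2) * (d.sk c M).V (z.1 - d.n) 1 ≤ a :=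
        (Finset.le_fold_max _).2 (Or.inr ⟨z.1 - d.n, mem_filter.2
          ⟨Dat.mem_D.2 (by rwa [sub_add_cancel]), by omega, by omega⟩, le_rfl⟩)
      refine le_trans ?_ (mul_le_mul_of_nonneg_right a1 (by (clear * - hL wz; positivity)))
      rw [mul_assoc, eV _ z1 (by omega), Dat.sk_chi, sub_add_cancel, ← exp_add]
      exact exp_le_exp.2 (by linarith only [c0])
    · refine le_add_of_le_of_nonneg ?_ (by (clear * - hL a0 wz; positivity))
      obtain a1 : d.dp c M z.1 < c.ε' * c.cW (d.ld c M) (S.Wp c d.n z.1) + c.lam :=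
        not_le.1 fun g => hj (Dat.mem_mj.2 ⟨z1, by omega, g⟩)
      have a2 := Fz.fr0.lo
      have a3 := SK0.Wp_mono (c := c) S d.n z2
      obtain a4 := mul_le_mul_of_nonneg_left
        (Cs.cW_lip (c := c) (l := d.ld c M) (by linarith only [k.ε1, s1, s4, s5, t19]) a3) s3
      obtain a5 := mul_le_mul_of_nonneg_right (show c.ε' ≤ 1 / 100 by linarith only [s1, s4, s5, t19]) (sub_nonneg.2 a3)
      obtain a6 : S.chi c (i + d.n) q ≤ S.chi c (i + d.n) z.1 :=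
        S.chi_mono c (by linarith only [k.chK.1, s1, s4, s5, t19]) k.chK.2 le_rfl z2
      rw [← exp_log wz, ← eL, ← exp_add, ← exp_add]
      refine exp_le_exp.2 ?_
      change _ ≤ _ + (_ + log |S.fr (d.n + 1) z.1|)
      linarith only [s1, s4, s5, s8, cc, t19, eσ, p1, p2, p3, a1, a2, a3, a4, a5, a6]
  have wx := abs_pos.2 Fx.rinv.ne
  have wj : 0 ≤ (d.sk c M).w j := S.wh_nonneg c _ _ _
  obtain wi : 0 < S.wp c d.n (i + d.n) := DRP.wp_pos S (by omega)
  have c0 := k.chi0 S (i + d.n) q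
  obtain hA : S.wp c d.n (i + d.n) ≤ exp (Z + c.lam + 5 + W) := by
    rw [exp_add _ W]
    refine (b3.whA _ x2 x3.le).trans_eq ?_
    congr 1
    exact (exp_log (by linarith only [S.one_le_AA c (d.ζ M) (d.n + 1) q, s1, s4, s5, t19])).symm
  obtain e32 : (32 : ℝ) ≤ exp c.lam := by linarith only [s1, s4, s5, s8, cc, t19, add_one_le_exp c.lam]
  obtain tail : 32 * exp (σ - W - 5 / 8 * S.chi c (i + d.n) q) * S.wp c d.n (i + d.n) ≤ exp (2 * σ) := by
    refine (mul_le_mul (mul_le_mul_of_nonneg_right e32 (exp_pos _).le) hA wi.le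
      (by positivity)).trans ?_
    rw [← exp_add, ← exp_add]
    exact exp_le_exp.2 (by linarith only [s1, s4, s5, s8, cc, t19, eσ, p1, p3, hZ, c0])
  obtain e4 : 4 * exp (2 * σ) ≤ exp (4 * σ) := by
    obtain e : exp (4 * σ) = exp (2 * σ) * exp (2 * σ) := by rw [← exp_add]; congr 1; ring
    have := add_one_le_exp (2 * σ)
    rw [e]; nlinarith only [exp_pos (2 * σ), s1, s4, s5, s8, lam, cc, t19, eσ, p1, p3, this]
  unfold Sk.E
  by_cases hi : i ∈ (d.sk c M).D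
  · rw [if_pos hi]
    obtain ⟨m1, -, m3⟩ := Dat.mem_mj.1 (Dat.mem_D.1 hi)
    obtain e : x = i + d.n := by
      by_contra g
      have := q3 _ m1 (lt_of_le_of_ne x2 g)
      omega
    have eVx := eV x x1 xp
    rw [← e] at m3
    obtain ei : x - d.n = i := by omega
    rw [ei] at eVx
    obtain V0 : 0 < (d.sk c M).V i 1 :=
      (mul_pos_iff_of_pos_right (mul_pos hL wx)).1 (by rw [eVx]; exact exp_pos _)
    refine (tr (2 * (d.sk c M).V i 1) fun l l1 l2 => ?_).trans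
      (mul_le_mul_of_nonneg_right ?_ wj)
    · rw [← e] at l1 ⊢
      refine le_of_mul_le_mul_right ?_ (mul_pos hL wx)
      have a1 := A.step.ins1 l l1 l2
      rw [← eVx] at a1
      change _ ≤ _ * S.wh c (d.ζ M) (d.n + 1) l * _
      linarith only [a1]
    · obtain r1 : c.lam ≤ r := by
        have := mul_nonneg s3 ux0
        change c.ε' * c.cW (d.ld c M) (S.Wp c d.n x) + c.lam ≤ r at m3
        linarith only [this, m3]
      have W1 : c.lam ≤ W := (A.st0.p7 r1).trans A.st0.lo.2.1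
      obtain ε'0 : 0 < c.am := by unfold Cs.am; positivity
      have a1 := A.st0.d5 c.am ε'0.le m3
      rw [div_le_iff₀ (mul_pos ε'0 k.ε0)] at hM1
      obtain a2 := mul_le_mul_of_nonneg_right hM1 (show 0 ≤ W by linarith only [s1, s4, s5, s8, cc, t19, W1])
      obtain a3 : 20 * W ≤ S.chi c x q := by
        refine le_of_mul_le_mul_left ?_ (show 0 < 2 * (1 + c.κ) by linarith only [s1, s4, s5, t19, kk.k.κ0])
        linarith only [a1, a2]
      have a4 : c.ths * u ≤ W := (mul_le_of_le_one_left uq0 th1).trans (Cs.cW_le _)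
      obtain a5 : exp (-W) ≤ (d.sk c M).V i 1 := by
        refine le_of_mul_le_mul_right ?_ (mul_pos hL wx)
        rw [eVx, ← exp_log wx, ← eL, ← exp_add, ← exp_add]
        have := A.st0.lo.1
        refine exp_le_exp.2 ?_
        change _ + (_ + log |S.fr (d.n + 1) x|) ≤ _
        linarith only [s1, s4, s5, s8, cc, t19, r1, this]
      obtain a6 : 32 * exp (σ - W - 5 / 8 * S.chi c (i + d.n) q) ≤ exp (-W) := by
        refine (mul_le_mul_of_nonneg_right e32 (exp_pos _).le).trans ?_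
        rw [← exp_add, ← e]
        exact exp_le_exp.2 (by linarith only [s1, s4, s5, s8, cc, t19, eσ, W1, a3, a4])
      linarith only [V0, a5, a6]
  rw [if_neg hi]
  rcases oc with ⟨-, o2, o3⟩ | ⟨o1, o3⟩
  · rw [o3]
    obtain o0 : 0 < S.om c (d.ζ M) x q (i + d.n) := by
      refine mul_pos (mul_pos wx ?_) (DRP.wp_pos S o2)
      rw [A.blk.eta]; positivity
    refine (tr (exp (2 * σ) / S.om c (d.ζ M) x q (i + d.n)) fun l l1 l2 => ?_).trans
      (mul_le_mul_of_nonneg_right (add_le_add_left ?_ _) wj)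
    · obtain a1 := (A.blk.bc _ l o2 l1 l2).trans
        (mul_le_mul_of_nonneg_left (A.blk.up l (by omega) l2) (exp_pos _).le)
      obtain a2 : exp Z ≤ exp (2 * σ) := exp_le_exp.2 (by linarith only [s1, s4, s5, s8, cc, t19, eσ, p1, p3, hZ])
      have wl : 0 ≤ S.wp c d.n l := S.wh_nonneg c _ _ _
      have a3 := mul_le_mul_of_nonneg_right a2 wl
      have a4 := mul_le_mul_of_nonneg_right k.L (mul_nonneg (abs_nonneg (S.fr (i + d.n + 1) l)) o0.le)
      have a5 := mul_nonneg (exp_pos (2 * σ)).le wl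
      rw [div_mul_eq_mul_div, le_div_iff₀ o0]
      change _ ≤ _ * (2 * S.wp c d.n l) at a1
      linarith only [a3, a4, a5, a1]
    · obtain a1 := mul_le_mul_of_nonneg_left (A.blk.up _ o2 x3.le)
        (show 0 ≤ 32 * exp (σ - W - 5 / 8 * S.chi c (i + d.n) q) by positivity)
      change _ ≤ _ * (2 * S.wp c d.n (i + d.n)) at a1
      rw [le_div_iff₀ o0, add_mul, div_mul_cancel₀ _ o0.ne']
      linarith only [exp_pos (2 * σ), tail, e4, a1]
  · rw [o3]
    obtain nm : x ∉ d.mj c M := fun g => by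
      rcases x2.eq_or_lt with e | e
      · exact hi (Dat.mem_D.2 (e ▸ g))
      · exact o1 ⟨g, e⟩
    have r1 : r < c.ε' * c.cW (d.ld c M) (S.Wp c d.n x) + c.lam :=
      not_le.1 fun g => nm (Dat.mem_mj.2 ⟨x1, xp, g⟩)
    have p4 := mul_le_mul_of_nonneg_left ux s3
    have p5 := mul_nonneg s3 ux0
    refine (tr (exp (2 * σ) / S.wp c d.n (i + d.n)) fun l l1 l2 => ?_).trans
      (mul_le_mul_of_nonneg_right (add_le_add_left ?_ _) wj)
    · have a1 := b3.e0 _ l x2 l1 l2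
      have wl : 0 ≤ S.wp c d.n l := S.wh_nonneg c _ _ _
      obtain a2 : W ≤ log |S.fr (d.n + 1) x| + 11 * (c.ε' * u) + 2 * c.lam := by
        refine A.st0.hi.trans ?_
        rw [← le_sub_iff_add_le]
        exact max_le (by linarith only [s1, s4, s5, s8, cc, t19, p2, p4, Fx.fr0.lo]) (by linarith only [s1, s4, s5, s8, cc, t19, p3, r1, p4])
      obtain a3 : 2 * exp (2 * Z + r) * S.wp c d.n (i + d.n) ≤ exp (2 * σ) * (c.L * |d.ζ M x|) := by
        refine (mul_le_mul (mul_le_mul_of_nonneg_right (show 2 ≤ exp c.lam by linarith only [s1, s4, s5, t19, e32])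
          (exp_pos _).le) hA wi.le (by positivity)).trans ?_
        rw [← exp_log wx, ← eL, ← exp_add, ← exp_add, ← exp_add, ← exp_add]
        refine exp_le_exp.2 ?_
        change _ ≤ _ + (_ + log |S.fr (d.n + 1) x|)
        linarith only [s1, s4, s5, s8, cc, t19, eσ, p1, p3, hZ, r1, p4, a2]
      rw [div_mul_eq_mul_div, le_div_iff₀ wi]
      refine le_of_mul_le_mul_right ?_ (mul_pos hL wx)
      have a4 := mul_le_mul_of_nonneg_right a1 wi.le
      have a5 := mul_le_mul_of_nonneg_right a3 wl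
      change _ ≤ _ * S.wp c d.n l * _ at a4
      linarith only [a5, a4]
    · rw [le_div_iff₀ wi, add_mul, div_mul_cancel₀ _ wi.ne']
      linarith only [exp_pos (2 * σ), tail, e4]

end Pool.Agent.MP_9cbfe4_an

end

/-! ### Part BIG -/

section

/-! Row BIG: explicit form of the slack; a strong major is deep. -/

namespace Pool.Agent.MP_9cbfe4_an
open Finset Filter Topology Real

theorem big (K : ℕ) : Hier fun c => CTX_s K c → BIG_s K c := by
  have h1 := Hier.e3_le (fun c => 1 / (|c.C0| + 1)) (fun _ _ _ _ _ _ _ _ => rfl)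
    (Hier.of_all fun c => by positivity)
  have h2 := Hier.C1_ge fun _ _ _ _ C0 => 10 * C0
  have h3 := Hier.ε_le_pow (fun _ => 1 / (4 * Cw K + 1)) 0 (by norm_num)
    (fun _ _ _ _ _ _ _ _ => rfl) (Hier.of_all fun _ => by unfold Cw; positivity)
  refine (DRP.hK.and (h1.and (h2.and h3))).mono ?_
  rintro c ⟨k, ⟨e0, e1⟩, c1, -, ε2⟩ hX hK M hM d v
  have X := hX hK M hM d v
  have C0 := k.C0
  have lam := k.lam
  have l0 : 0 ≤ c.C1 * d.ld c M := mul_nonneg k.C1 ((d.S M).load_nonneg c _ _)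
  obtain th0 : 0 ≤ c.ths := by unfold Cs.ths; positivity
  obtain u0 : ∀ y, 0 ≤ y → 0 ≤ c.cW (d.ld c M) y := fun y hy =>
    (mul_nonneg k.ε0.le hy).trans (Cs.le_cW (by linarith only [k.ε1]) l0 (by linarith only [k.cc2]) hy)
  refine ⟨fun i _ => ?_, fun m hm => ?_, fun x hx hs => ?_⟩
  · rw [Dat.sk_sl, Dat.sk_W]
    have a1 := mul_le_mul_of_nonneg_left
      (Cs.cW_le (c := c) (l := d.ld c M) ((d.S M).Wp c d.n (i + d.n))) th0
    have a2 := mul_nonneg th0 (u0 _ (DS0.Wp0 (c := c) (d.S M) d.n (i + d.n)))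
    constructor <;> linarith only [a1, a2]
  · have F := X.fr _ (Dat.mem_F.1 hm)
    have a1 : (d.S M).Wp c d.n (m + d.n) ≤ d.V c M :=
      (SK0.Wp_mono _ _ F.hi).trans (le_max_left _ _)
    refine ⟨a1, ?_⟩
    have a2 := Cs.cW_mono (c := c) (l := d.ld c M) k.ε0.le a1
    have a3 := u0 _ (DS0.Wp0 (c := c) (d.S M) d.n (m + d.n))
    have e : d.s0 c M = c.e3 ^ 2 * c.cW (d.ld c M) (d.V c M) + c.C1 * c.lam := rfl
    rw [abs_of_nonneg C0, le_div_iff₀ (by linarith only [C0])] at e1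
    obtain a4 : c.C0 * c.ths ≤ c.e3 ^ 2 := by
      obtain this : c.ths = c.e3 * c.e3 ^ 2 := by unfold Cs.ths; ring
      rw [this]; nlinarith only [th0, this, e1, sq_nonneg c.e3]
    have a5 := mul_le_mul a4 a2 a3 (sq_nonneg _)
    have a6 := mul_le_mul_of_nonneg_right c1 (show 0 ≤ c.lam by linarith only [lam])
    rw [e, Dat.sk_sl]
    linarith only [a5, a6]
  · obtain ⟨m1, m2, m3⟩ := Dat.mem_mj.1 (Dat.mem_D.1 hx)
    have A := (X.fr _ m1).st m2
    obtain hL : 0 < c.L := by linarith only [k.L]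
    obtain e : -log ((d.sk c M).η x) = d.dp c M (x + d.n) - c.lam := by
      rw [Dat.sk_η, A.blk.eta, log_mul hL.ne' (exp_pos _).ne', log_exp]
      unfold Cs.lam; ring
    obtain K0 : (10 : ℝ) ≤ K := by exact_mod_cast hK.1.1
    obtain w0 : 0 < Cw K := by unfold Cw; linarith only [K0]
    rw [pow_zero, mul_one, le_div_iff₀ (by linarith only [w0])] at ε2
    unfold Sk.Strong at hs
    rw [e] at hs ⊢
    have a1 := A.st0.p6 (Cw K) w0 (by linarith only [ε2, k.ε0]) hs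
    have a2 : 0 ≤ d.dp c M (x + d.n) - c.lam :=
      nonneg_of_mul_nonneg_right ((DS0.Wp0 _ _ _).trans hs) w0
    obtain a3 : 0 ≤ c.C0 * (Cw K + 1) * (d.dp c M (x + d.n) - c.lam) := by positivity
    linarith only [a1, a3]

end Pool.Agent.MP_9cbfe4_an

end
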