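import Pool.Agent.MP_9cbfe4_an.M03
import Pool.Agent.MP_9cbfe4_an.M09
import Pool.Agent.MP_9cbfe4_an.M10
import Pool.Agent.MP_9cbfe4_an.M13
import Pool.Agent.MP_9cbfe4_an.M14

set_option linter.all false

attribute [-instance] AddQuantale.instAddLeftMono IdemSemiring.toCanonicallyOrderedAdd
  NumberField.to_charZero AddQuantale.instAddRightMono IdemSemiring.toMulLeftMono RKHS.instFunLike
  Quantale.instMulRightMono Quantale.instMulLeftMono IsOrderedCancelMonoid.toIsOrderedMonoid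
  LinearOrderedCommMonoidWithZero.toPosMulStrictMono
  Group.IsPerfect.subsingleton_of_isMulCommutative CanonicallyOrderedAdd.toMulLeftMono
  Valued.toUniformSpace IdemSemiring.toMulRightMono TotallySeparatedSpace.t2Space
  LinearOrderedCommMonoidWithZero.toIsOrderedMonoid IsScalarTower.complexToReal
  Order.Coframe.toCompleteLattice OmegaCompletePartialOrder.toPartialOrder Invertible.toNeZero
  GrpTypeEquivalenceGrp.grpGroup littleWedderburn CanonicallyOrderedMul.toMulLeftMono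
  CoalgHomClass.toSemilinearMapClass TestFunctionClass.toDFunLike
  ContDiffMapSupportedInClass.toDFunLike Order.Frame.toCompleteLattice RightPreLieAlgebra.toModule
  CategoryTheory.Limits.Concrete.instUniqueToTypeTerminal LeftPreLieAlgebra.toModule
  CStarAlgebra.instOrderClosedTopology IdemSemiring.toSemiring
  LieAdmissibleRing.toNonUnitalNonAssocRing NonUnitalAlgSemiHomClass.toDistribMulActionSemiHomClass
  CStarAlgebra.toNormedRing

/-! ### Part GAll -/

section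

/-! Part G closed: only the rows T0, T4, B1, B2, RHO of the other parts are used. -/

namespace Pool.Agent.MP_9cbfe4_an

theorem gall (d : ℝ) :
    Hier fun c => T0_s c → T4_s c → B1_s c → B2_s c → RHO_s c → GAll_s d c :=
  ((((((((sok.and cov).and crit).and g0).and g6).and g4).and g5).and (dim d))).mono
    fun c ⟨⟨⟨⟨⟨⟨⟨hS, hC⟩, hCr⟩, h0⟩, h6⟩, h4⟩, h5⟩, hD⟩ hT0 hT4 hB1 hB2 hR =>
      gall_of d c (h0 hT0 hT4) (g3 c) h4 (h5 hT0) hD (h6 (hCr hS hT0 hC hB1 hB2 hR))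

end Pool.Agent.MP_9cbfe4_an

end

/-! ### Part EPAT -/

section

/-! Row EPAT: patterns of violating data. -/

namespace Pool.Agent.MP_9cbfe4_an

open Finset Filter Topology

noncomputable section
namespace EPATp

structure Num (c : Cs) : Prop where
  lam : 100 ≤ c.lam
  th1 : c.θb < 1
  ka0 : 0 < c.κ
  e1 : c.e3 ≤ 1 / 2
  ep0 : 0 < c.ε
  ep1 : c.ε ≤ 1
  del0 : 0 ≤ c.del

lemma num : Hier Num := by
  obtain hε := (Hier.ε_le_pow (fun _ => 1) 0 (by norm_num) (fun _ _ _ _ _ _ _ _ => rfl)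
    (.of_all fun _ => one_pos)).mono (Q := fun c => 0 < c.ε ∧ c.ε ≤ 1) fun c h => by simpa using h
  have hC0 := Hier.C0_ge fun _ _ _ _ => 1
  have hC1 := Hier.C1_ge fun _ _ _ _ _ => 1
  have hd := Hier.d1_le (fun _ => 1) (fun _ _ _ _ _ => rfl) (.of_all fun _ => one_pos)
  have h2 := Hier.lam_ge (fun _ => 100) fun _ _ => rfl
  obtain h5 := Hier.e3_le (fun _ => 1 / 2) (fun _ _ _ _ _ _ _ _ => rfl)
    (.of_all fun _ => by norm_num)
  refine (Hier.base.and <| hε.and <| hC0.and <| hC1.and <| hd.and <| h2.and h5).mono ?_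
  rintro c ⟨⟨-, -, -, t1, k0, -⟩, ⟨ε0, ε1⟩, C0, C1, ⟨d0, -⟩, l1, ⟨-, e1⟩⟩
  exact ⟨l1, t1, k0, e1, ε0, ε1, by unfold Cs.del; (clear * - d0 C0 C1; positivity)⟩

variable {c : Cs}

/-- strictly decreasing times, ending at `s` -/
def Dn (s : ℤ) : List (ℤ × ℝ) → ℤ → Prop
  | [], m => m = s
  | x :: L, m => x.1 < m ∧ Dn s L x.1

lemma dn {Ex} {S : Sq} {ξ s P Ls m} (h : S.Run c Ex ξ s P Ls m) : Dn s Ls m := by
  induction Ls generalizing m with
  | nil => exact Sq.Run.nil c S h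
  | cons x L ih => exact ⟨(Sq.Run.tail c S h).2.2.1, ih (Sq.Run.tail c S h).1⟩

lemma mtch {M} {z z' : EDat} {X0 L L' m m'} (h : Dn (z.n + 1) L m) (h' : Dn (z'.n + 1) L' m')
    (e : z.patE c M X0 L m = z'.patE c M X0 L' m') :
    m' = m - z.n + z'.n ∧ ∀ x ∈ L, ∃ x' ∈ L', x'.1 = x.1 - z.n + z'.n ∧ sgm c x'.2 = sgm c x.2 ∧
      (z'.Chg c M X0 x' ↔ z.Chg c M X0 x) := by
  induction L generalizing L' m m' with
  | nil =>
    cases L' with
    | nil => simp only [Dn] at h h'; exact ⟨by omega, by simp⟩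
    | cons _ _ => simp [EDat.patE] at e
  | cons x L ih =>
    cases L' with
    | nil => simp [EDat.patE] at e
    | cons x' L' =>
      simp only [EDat.patE, List.cons.injEq, Prod.mk.injEq, decide_eq_decide] at e
      obtain ⟨⟨e1, e2, e3⟩, e4⟩ := e
      obtain ⟨a, b⟩ := ih h.2 h'.2 e4
      have := h.1
      have := h'.1
      refine ⟨by omega, fun y hy => ?_⟩
      rcases List.mem_cons.1 hy with rfl | hy
      · exact ⟨x', List.mem_cons_self, a, e1.symm, e3.symm⟩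
      · obtain ⟨y', h1, h2⟩ := b y hy
        exact ⟨y', List.mem_cons_of_mem _ h1, h2⟩

lemma symok (h : Num c) {r : ℝ} {l : ℕ} {b : Bool} (h1 : r < c.cc → l = 1)
    (h2 : (l : ℝ) ≤ 1 + Real.exp (c.del * r)) : SymOK c (sgm c r, l, b) := by
  by_cases hr : c.cc ≤ r
  · refine Or.inr ?_
    simp only [sgm, if_pos hr]
    refine ⟨hr.trans (Nat.le_ceil r), h2.trans ?_⟩
    have := h.del0
    gcongr
    exact Nat.le_ceil r
  · exact Or.inl ⟨by simp [sgm, hr], h1 (not_le.1 hr)⟩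

lemma symok_ch (h : Num c) {Ex M} {z : EDat} {X0 ξ s m0 L m} {S : Sq}
    (hc : S.Chain c Ex ξ s m0 L m) : ∀ x ∈ z.patE c M X0 L m, SymOK c x := by
  induction hc with
  | nil => simp [EDat.patE]
  | @cons L n r p h1 h2 h3 ih =>
    intro x hx
    rcases List.mem_cons.1 hx with rfl | hx
    · have lt := h2.lt
      refine symok h (fun hr => ?_) ?_
      · rcases h2.kind with ⟨a, -⟩ | ⟨a, -⟩
        · simp [a]
        · exfalso
          have := h.ep1
          have := h.lam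
          unfold Cs.cc at hr; (rename_i zq0; nlinarith only [hr, a, zq0, this])
      · obtain this : (((p - n).toNat : ℕ) : ℝ) = ((p - n : ℤ) : ℝ) := by
          rw [← Int.cast_natCast, Int.toNat_of_nonneg (by omega)]
        rw [this]; exact h2.time
    · exact ih x hx

lemma pat_len {M} (z : EDat) (X0 L m) : (z.patE c M X0 L m).length = L.length := by
  induction L generalizing m with
  | nil => rfl
  | cons x L ih => simp [EDat.patE, ih]

lemma pat_sum (hc : 0 ≤ c.cc) {M} (z : EDat) (X0 L m) :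
    ((z.patE c M X0 L m).map fun s => (s.1 : ℝ)).sum ≤ Sq.sumR c L + L.length := by
  induction L generalizing m with
  | nil => simp [EDat.patE, Sq.sumR]
  | cons x L ih =>
    have := ih x.1
    simp only [EDat.patE, Sq.sumR, List.map_cons, List.sum_cons, List.length_cons, sgm] at this ⊢
    split_ifs with h1
    · have := Nat.ceil_lt_add_one (hc.trans h1)
      push_cast; (rename_i zq0; linarith only [zq0, this])
    · push_cast; linarith only [this]

open Classical in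
lemma term {M} (z : EDat) {X0 x} (hx : X0 ≤ z.W c M x.1) :
    z.ev c M x ≤ if z.Chg c M X0 x then z.ev c M x else 0 := by
  split_ifs with h1
  · exact le_rfl
  · exact not_lt.1 fun h2 => h1 ⟨h2, hx⟩

lemma W0 {M} (z : EDat) (m : ℤ) : 0 ≤ z.W c M m := Real.log_nonneg (Sq.one_le_AA c _ _ _ _)

open Classical in
lemma unch (h : Num c) {Ex M} {z : EDat} (hS : Std c Ex M) (hk : c.κ < 1) {X0 : ℝ} (h0 : 0 ≤ X0)
    {L m} (hR : (z.S M).Run c Ex (z.f M) (z.n + 1) ((z.S M).PBd c Ex z.ξ z.n) L m)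
    (hE : ∀ x ∈ L, z.El c Ex M x) :
    (L.map fun x => z.ev c M x).sum ≤
      (L.map fun x => if z.Chg c M X0 x then z.ev c M x else 0).sum + 2 * X0 + 4 * c.lam := by
  have hl := h.lam
  induction L generalizing m with
  | nil => simp only [List.map_nil, List.sum_nil]; linarith only [h0, hl]
  | cons x L ih =>
    obtain ⟨a, b, -⟩ := Sq.Run.tail c _ hR
    by_cases hx : X0 ≤ z.W c M x.1
    · have := ih a fun y hy => hE y (List.mem_cons_of_mem _ hy)
      have := term z hx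
      simp only [List.map_cons, List.sum_cons]; (rename_i zq0; linarith only [zq0, this])
    · obtain s0 : 0 ≤ ((x :: L).map fun x => if z.Chg c M X0 x then z.ev c M x else 0).sum :=
        List.sum_nonneg fun y hy => by
          obtain ⟨w, -, rfl⟩ := List.mem_map.1 hy
          split_ifs with h1
          · exact h1.1.le
          · exact le_rfl
      have c1 := b.2.c1
      have cs : (L.map fun x => z.ev c M x).sum + z.ev c M x ≤
          c.θb * (z.S M).Wt c (z.f M) (z.n + 1) x.1 x.2 + c.cc := hS.2.1 _ _ _ _ _ _ b.2.ex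
      have wl := (hE x List.mem_cons_self).wle
      have w0 := W0 (c := c) (M := M) z x.1
      push Not at hx
      obtain q0 : (z.S M).Wt c (z.f M) (z.n + 1) x.1 0 ≤ X0 + c.lam + 10 :=
        max_le (show z.W c M x.1 ≤ _ by linarith only [hl, hx]) (by linarith only [wl, hx])
      have q1 : 0 ≤ (z.S M).Wt c (z.f M) (z.n + 1) x.1 0 := w0.trans (le_max_left _ _)
      obtain q2 : x.2 ≤ X0 + c.lam + 10 + c.c1 := by
        have : c.κ * (z.S M).Wt c (z.f M) (z.n + 1) x.1 0 ≤ (z.S M).Wt c (z.f M) (z.n + 1) x.1 0 :=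
          mul_le_of_le_one_left q1 hk.le
        change x.2 ≤ c.κ * (z.S M).Wt c (z.f M) (z.n + 1) x.1 0 + c.c1 at c1
        linarith only [q0, this, c1]
      obtain e1 : c.c1 ≤ c.lam / 2 := by unfold Cs.c1; nlinarith only [hl, h.ep1]
      obtain e0 : 0 ≤ c.c1 := by have := h.ep0; unfold Cs.c1; positivity
      obtain e2 : c.cc ≤ c.lam / 20 := by unfold Cs.cc; nlinarith only [hl, h.ep1]
      obtain q3 : (z.S M).Wt c (z.f M) (z.n + 1) x.1 x.2 ≤ 2 * (X0 + c.lam + 10) + c.c1 :=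
        max_le (show z.W c M x.1 ≤ _ by linarith only [hl, w0, hx, e0]) (by linarith only [wl, hx, q2])
      have q4 : 0 ≤ (z.S M).Wt c (z.f M) (z.n + 1) x.1 x.2 := w0.trans (le_max_left _ _)
      have q5 := mul_le_of_le_one_left q4 h.th1.le
      rw [List.map_cons, List.sum_cons]
      linarith only [hl, s0, cs, e1, e2, q3, q5]

end EPATp

open EPATp in
theorem epat : Hier fun c => SOK_s c → B1_s c → B5_s c → EEL_s c → EPAT_s c := by
  refine num.mono fun c h hO hB h5 hE Ex M z hS hz => ?_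
  classical
  have hl := h.lam
  obtain ⟨e1, -, -, e4, -, -⟩ := hE Ex M z hS hz
  have ok : (z.S M).OK c := ((hO M hS.2.2 z.t hz.ht).2.1 _ hz.hv).2
  obtain st : (z.S M).St c (z.f M) (z.n + 1) :=
    ⟨by linarith only [hz.out.1], Sq.fr_sol _ _, Sq.fr_self _ _, by
      rw [EDat.f, Sq.fr_lt _ (by omega), abs_zero]; positivity⟩
  have ch := ((hB Ex _ ok).1 _ _ _ _ _ st hz.run).1
  have bi := (hB Ex _ ok).2.1 _ _ _ _ _ hz.out hz.run hz.bd
  obtain ⟨-, -, -, b4, -⟩ := h5 hS.1 Ex hS.2.1 _ _ _ _ _ _ ok hz.out hz.run hz.bd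
  have ef := e1 (z.p, z.r) List.mem_cons_self
  have wV : (z.S M).Wp c z.n z.p ≤ z.V c M := ef.lev.2
  have w0 : 0 ≤ (z.S M).Wp c z.n z.p := W0 z z.p
  obtain cc0 : 0 ≤ c.cc := by have := h.ep0; unfold Cs.cc; positivity
  obtain len : (z.Ls.length : ℝ) ≤ 10 * z.V c M / c.lam + 10 := by
    refine bi.len.trans ?_
    rw [div_add' _ _ _ (by linarith only [hl])]
    gcongr; linarith only [wV]
  refine ⟨fun X0 => ⟨fun s hs => ?_, ?_, ?_⟩, fun X0 z' hz' e => ?_, ?_, fun hk X0 h0 h1 => ?_⟩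
  · rcases List.mem_cons.1 hs with rfl | hs
    · refine symok h (fun _ => by simp) ?_
      simpa using (Real.exp_pos _).le
    · exact symok_ch h ch s hs
  · rw [EDat.pattern, pat_len, EDat.Lf, List.length_cons]
    push_cast; linarith only [len]
  · have s1 := pat_sum cc0 (M := M) z X0 z.Ls z.p
    obtain s2 : 10 * z.V c M / c.lam ≤ z.V c M := by
      rw [div_le_iff₀ (by linarith only [hl])]; nlinarith only [wV, w0, hl]
    obtain s3 : (sgm c z.r : ℝ) ≤ 2 * z.V c M + 1 := by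
      rcases ef.kind e4 with ⟨a1, -, a3, -⟩ | ⟨a1, -⟩
      · have a4 := ef.lev.1
        have a5 : (z.S M).Wp c z.n z.p - Real.log |z.f M z.p| ≤
            (z.S M).sg c (z.f M) (z.n + 1) z.p := le_max_left _ _
        have a6 := Nat.ceil_lt_add_one (cc0.trans a1)
        simp only at a1 a3 a4 a6
        rw [sgm, if_pos a1]
        nlinarith only [w0, a3, a4, a5, a6, cc0, a1, h.e1]
      · rw [sgm, if_neg (not_le.2 a1), Nat.cast_zero]; linarith only [wV, w0]
    simp only [EDat.pattern, EDat.Lf, EDat.patE, List.map_cons, List.sum_cons]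
    linarith only [hl, b4, wV, w0, len, s1, s2, s3]
  · exact (mtch (L := z.Lf) (L' := z'.Lf) ⟨lt_add_one _, dn hz.run⟩ ⟨lt_add_one _, dn hz'.run⟩ e).2
  · exact List.sum_le_sum fun x _ => term z (W0 z x.1)
  · have u := unch h hS hk h0 hz.run fun x hx => e1 x (List.mem_cons_of_mem _ hx)
    have t := term z (x := (z.p, z.r)) h1
    have : z.tot c M = z.ev c M (z.p, z.r) + (z.Ls.map fun x => z.ev c M x).sum := rfl
    rw [this, EDat.chs, EDat.Lf, List.map_cons, List.sum_cons]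
    linarith only [u, t]

end
end Pool.Agent.MP_9cbfe4_an

end

/-! ### Part ECV -/

section

/-! Row ECV: nested covering in the parameter for one family with a common pattern. -/

namespace Pool.Agent.MP_9cbfe4_an

open Filter Topology MeasureTheory Metric

noncomputable section
namespace ECVp
variable {c : Cs} {Ex : ExT} {M : Mdl}

open Classical in
/-- radius after the last charged event of the list -/
def rad (P : ℤ × ℝ → Prop) (N : ℤ × ℝ → ℝ) (N0 : ℝ) : List (ℤ × ℝ) → ℝ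
  | [] => N0
  | x :: L => if P x then N x else rad P N N0 L

theorem rad_ge {P : ℤ × ℝ → Prop} {N : ℤ × ℝ → ℝ} {N0 R : ℝ} (h0 : R ≤ N0) (L : List (ℤ × ℝ))
    (h : ∀ x ∈ L, P x → R ≤ N x) : R ≤ rad P N N0 L := by
  induction L with
  | nil => exact h0
  | cons x L ih =>
    rw [rad]
    split_ifs with hx
    · exact h x List.mem_cons_self hx
    · exact ih fun y hy => h y (List.mem_cons_of_mem _ hy)

theorem W_nonneg (z : EDat) (m : ℤ) : 0 ≤ z.W c M m :=
  Real.log_nonneg ((Finset.le_fold_max _).2 (Or.inl le_rfl))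

theorem Rad_le (hcw : 0 < c.cw) (z : EDat) (x : ℤ × ℝ) :
    z.Rad c M x ≤ c.cw * Real.exp (-z.W c M x.1) := by
  unfold EDat.Rad
  split_ifs
  · gcongr
    exact le_max_left _ _
  · exact le_rfl

theorem sgm_pos (hcc : 0 < c.cc) {r : ℝ} (h : c.cc ≤ r) :
    sgm c r ≠ 0 ∧ r ≤ sgm c r ∧ (sgm c r : ℝ) ≤ r + 1 := by
  rw [sgm, if_pos h]
  exact ⟨(Nat.ceil_pos.2 (by linarith only [hcc, h])).ne', Nat.le_ceil _, (Nat.ceil_lt_add_one (by linarith only [hcc, h])).le⟩

theorem sgm_zero {r : ℝ} (h : r < c.cc) : sgm c r = 0 := by rw [sgm, if_neg (not_le.2 h)]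

theorem le_Nad (hcc : 0 < c.cc) (_hcw : 0 < c.cw) (hcw1 : c.cw ≤ 1) {z : EDat} {x y : ℤ × ℝ}
    (hx : z.El c Ex M x) (he : 0 < z.ev c M x) (hy : y ∈ z.Lf) (hxy : x.1 < y.1) :
    c.cw * Real.exp (-z.W c M y.1) ≤ z.Nad c M x := by
  have hw : 0 < |z.f M x.1| := abs_pos.2 hx.rinv.ne
  obtain h1 : Real.exp (-z.W c M y.1) ≤ Real.exp (-x.2) / |z.f M x.1| := by
    rw [← Real.exp_log hw, ← Real.exp_sub]
    exact Real.exp_le_exp.2 (by linarith only [hx.later y hy hxy])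
  obtain h2 : -x.2 ≤ 1 + -(sgm c x.2 : ℝ) := by
    rcases hx.kind he with h | h
    · linarith only [(sgm_pos hcc h.1).2.2]
    · rw [sgm_zero h.1]; push_cast; linarith only [h.2.1]
  have h3 := Real.exp_le_exp.2 h2
  rw [Real.exp_add] at h3
  have h4 := Real.exp_one_lt_d9
  have h5 := Real.exp_pos (-(sgm c x.2 : ℝ))
  calc _ ≤ 1 * (Real.exp (-x.2) / |z.f M x.1|) := by (clear * - hcw1 h1; gcongr)
    _ ≤ _ := by
      rw [one_mul, EDat.Nad]
      gcongr
      nlinarith only [h3, h5, h4]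

open Classical in
/-- contraction factor attached to the symbol `σ` -/
def ko (c : Cs) (σ : ℕ) : ℝ :=
  9000 * Real.exp (-(if σ = 0 then (1 - 5 * c.e3) * c.lam else (1 - c.e3) * σ)) / c.cw

theorem Nad_le (hcc : 0 < c.cc) (hcw : 0 < c.cw) (he3 : 0 < c.e3) {z : EDat} {x : ℤ × ℝ}
    (hx : z.El c Ex M x) (he : 0 < z.ev c M x) :
    3 * z.Nad c M x ≤ ko c (sgm c x.2) * z.Rad c M x := by
  have hw : 0 < |z.f M x.1| := abs_pos.2 hx.rinv.ne
  obtain key : ∀ a b : ℝ, -(sgm c x.2 : ℝ) - Real.log |z.f M x.1| ≤ -a + -b →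
      3 * z.Nad c M x ≤ 9000 * Real.exp (-a) / c.cw * (c.cw * Real.exp (-b)) := by
    intro a b h
    have h1 := Real.exp_le_exp.2 h
    rw [Real.exp_sub, Real.exp_log hw, Real.exp_add] at h1
    calc 3 * z.Nad c M x = 9000 * (Real.exp (-(sgm c x.2 : ℝ)) / |z.f M x.1|) := by
          rw [EDat.Nad]; ring
      _ ≤ 9000 * (Real.exp (-a) * Real.exp (-b)) := by gcongr
      _ = _ := by field_simp
  rcases hx.kind he with h | h
  · obtain ⟨a1, a2, -⟩ := sgm_pos hcc h.1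
    rw [ko, EDat.Rad, if_neg a1, if_pos h.1]
    refine key _ _ ?_
    obtain h1 : z.W0 c M x.1 ≤ Real.log |z.f M x.1| + c.e3 * x.2 := by
      have b1 := (le_max_left _ _).trans h.2.2.1
      have b2 := (le_max_right _ _).trans h.2.2.1
      unfold Sq.sig at b1
      exact max_le (by linarith only [b1]) (by linarith only [b2])
    nlinarith only [h1, he3, a2]
  · rw [ko, EDat.Rad, sgm_zero h.1, if_pos rfl, if_neg (not_le.2 h.1)]
    refine key _ _ ?_
    have b1 : z.W c M x.1 - Real.log |z.f M x.1| ≤ _ := h.2.2.2.2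
    rw [sgm_zero h.1]
    push_cast
    linarith only [b1]

theorem ko_le (hcc : 0 < c.cc) (he3 : 0 < c.e3) (he7 : c.e3 ≤ 1 / 7)
    (p1 : 90000 / c.cw ≤ Real.exp (6 * c.e3 * c.cc)) (p2 : 90000 / c.cw ≤ Real.exp (2 * c.e3 * c.lam))
    {z : EDat} {x : ℤ × ℝ} (hx : z.El c Ex M x) (he : 0 < z.ev c M x) :
    10 * ko c (sgm c x.2) ≤ Real.exp (-(1 - 7 * c.e3) * z.ev c M x) := by
  obtain key : ∀ a b : ℝ, 90000 / c.cw ≤ Real.exp b → b + -a ≤ -(1 - 7 * c.e3) * z.ev c M x →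
      10 * (9000 * Real.exp (-a) / c.cw) ≤ Real.exp (-(1 - 7 * c.e3) * z.ev c M x) := by
    intro a b h1 h2
    calc _ = 90000 / c.cw * Real.exp (-a) := by ring
      _ ≤ Real.exp b * Real.exp (-a) := by gcongr
      _ ≤ _ := by rw [← Real.exp_add]; exact Real.exp_le_exp.2 h2
  rcases hx.kind he with h | h
  · obtain ⟨a1, a2, -⟩ := sgm_pos hcc h.1
    rw [ko, if_neg a1]
    refine key _ _ p1 ?_
    rw [h.2.1]
    linarith only [he7, mul_le_mul_of_nonneg_left (h.1.trans a2) he3.le,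
      mul_le_mul_of_nonneg_left a2 (show 0 ≤ 1 - 7 * c.e3 by linarith only [he7])]
  · rw [ko, sgm_zero h.1, if_pos rfl]
    refine key _ _ p2 ?_
    rw [h.2.2.1]
    exact le_of_eq (by ring)

theorem main (hcc : 0 < c.cc) (hcw : 0 < c.cw) (hcw1 : c.cw ≤ 1) (he3 : 0 < c.e3)
    (he7 : c.e3 ≤ 1 / 7) (p1 : 90000 / c.cw ≤ Real.exp (6 * c.e3 * c.cc))
    (p2 : 90000 / c.cw ≤ Real.exp (2 * c.e3 * c.lam)) (hE : EEL_s c) (hP : EPAT_s c)
    (hL : ELOC_s c) : ECV_s c := by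
  classical
  intro Ex M F X0 N0 Y hS hV hpat hN0 hpar hY
  rcases F.eq_empty_or_nonempty with rfl | ⟨z0, hz0⟩
  · simp
  obtain hm : ∀ (z : F) (x0 : ℤ × ℝ), ∃ x : ℤ × ℝ, x0 ∈ z0.Lf → x ∈ z.1.Lf ∧
      x.1 = x0.1 - z0.n + z.1.n ∧ sgm c x.2 = sgm c x0.2 ∧
      (z.1.Chg c M X0 x ↔ z0.Chg c M X0 x0) := by
    intro z x0
    by_cases h : x0 ∈ z0.Lf
    · obtain ⟨x, a, b⟩ := (hP Ex M z0 hS (hV z0 hz0)).2.1 X0 z.1 (hV _ z.2) (hpat _ hz0 _ z.2) x0 h
      exact ⟨x, fun _ => ⟨a, b⟩⟩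
    · exact ⟨x0, fun h' => absurd h' h⟩
  choose mt hmt using hm
  have hEl : ∀ z ∈ F, ∀ x ∈ z.Lf, z.El c Ex M x := fun z hz => (hE Ex M z hS (hV z hz)).1
  let rd : List (ℤ × ℝ) → F → ℝ := fun L z =>
    rad (z0.Chg c M X0) (fun x0 => z.1.Nad c M (mt z x0)) N0 L
  obtain ind : ∀ L : List (ℤ × ℝ), (∀ x ∈ L, x ∈ z0.Lf) → L.Pairwise (fun x y => y.1 < x.1) →
      volume (⋃ z : F, closedBall z.1.t (rd L z)) ≤ ENNReal.ofReal (Real.exp (-(1 - 7 * c.e3) *
        (L.map fun x => if z0.Chg c M X0 x then z0.ev c M x else 0).sum)) *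
        volume (⋃ z : F, closedBall z.1.t N0) := by
    intro L
    induction L with
    | nil => intro _ _; simp [rd, rad]
    | cons x0 L ih =>
      intro h1 h2
      obtain ⟨h3, h4⟩ := List.pairwise_cons.1 h2
      have ih' := ih (fun x hx => h1 x (List.mem_cons_of_mem _ hx)) h4
      have hx0 := h1 x0 List.mem_cons_self
      rw [List.map_cons, List.sum_cons]
      by_cases hc : z0.Chg c M X0 x0
      swap
      · simpa only [rd, rad, if_neg hc, zero_add] using ih'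
      have hch : ∀ z : F, z.1.Chg c M X0 (mt z x0) := fun z => (hmt z x0 hx0).2.2.2.2 hc
      have hel : ∀ z : F, z.1.El c Ex M (mt z x0) := fun z => hEl _ z.2 _ (hmt z x0 hx0).1
      have st := VITp.one_step (fun z : F => z.1.t) (fun z => z.1.Rad c M (mt z x0)) (rd L)
        (fun z => z.1.Nad c M (mt z x0)) (ko c (sgm c x0.2)) (by unfold ko; positivity)
        (fun z => by
          have b1 := Rad_le (M := M) hcw z.1 (mt z x0)
          refine ⟨by unfold EDat.Rad; positivity, b1.trans (rad_ge (le_trans ?_ hN0) L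
            fun y hy hcy => ?_), b1.trans ?_⟩
          · gcongr
            exact (hch z).2
          · have hy' := hmt z y (h1 y (List.mem_cons_of_mem _ hy))
            refine le_Nad hcc hcw hcw1 (hEl _ z.2 _ hy'.1) (hy'.2.2.2.2 hcy).1 (hmt z x0 hx0).1 ?_
            have := h3 y hy
            rw [hy'.2.1, (hmt z x0 hx0).2.1]; omega
          · have := Real.exp_le_one_iff.2 (neg_nonpos.2 (W_nonneg (c := c) (M := M) z.1 (mt z x0).1))
            nlinarith only [hcw1, he3, he7, hcw, this])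
        (fun z => ⟨z.1.t, z.1.t, fun z' hz' => by
          obtain ⟨b1, b2⟩ := hL Ex M z.1 z'.1 (mt z x0) (mt z' x0) hS.2.2 (hV _ z.2).ht (hV _ z'.2).ht
            (hV _ z.2).hv (hV _ z'.2).hv (hel z) (hel z')
            (by rw [(hmt z x0 hx0).2.1, (hmt z' x0 hx0).2.1]; omega)
            (by rw [(hmt z x0 hx0).2.2.1, (hmt z' x0 hx0).2.2.1]) (hch z).1 (hch z').1
            (hpar _ z.2 _ z'.2 _ (hmt z x0 hx0).1 (hch z) hz') hz'
          have b3 := Nad_le hcc hcw he3 (hel z) (hch z).1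
          rw [(hmt z x0 hx0).2.2.1] at b3
          rw [Set.union_self]
          refine closedBall_subset_closedBall' ?_
          rw [Real.dist_eq]
          linarith only [b1, b2, b3]⟩)
      simp only [rd, rad, if_pos hc] at st ih' ⊢
      rw [mul_add, Real.exp_add, ENNReal.ofReal_mul (Real.exp_pos _).le, mul_assoc]
      exact st.trans (mul_le_mul' (ENNReal.ofReal_le_ofReal
        (ko_le hcc he3 he7 p1 p2 (hEl _ hz0 _ hx0) hc.1)) ih')
  have fin := ind z0.Lf (fun _ h => h) (hE Ex M z0 hS (hV z0 hz0)).2.1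
  rw [Set.biUnion_eq_iUnion]
  refine (measure_mono ?_).trans (fin.trans (mul_le_mul_left (ENNReal.ofReal_le_ofReal
    (Real.exp_le_exp.2 ?_)) _))
  · rintro _ ⟨z, hz, rfl⟩
    refine Set.mem_iUnion.2 ⟨⟨z, hz⟩, mem_closedBall_self (rad_ge (le_trans ?_ hN0) _
      fun x _ _ => ?_)⟩
    · positivity
    · unfold EDat.Nad; (clear * - hz; positivity)
  · have : Y ≤ _ := hY z0 hz0
    unfold EDat.chs at this
    nlinarith only [he7, this]

end ECVp

theorem ecv : Hier fun c => VIT_s → EEL_s c → EPAT_s c → ELOC_s c → ECV_s c := by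
  obtain hε : Hier fun c => 0 < c.ε :=
    (Hier.ε_le_pow (fun _ => 1) 0 (by norm_num) (fun _ _ _ _ _ _ _ _ => rfl)
      (Hier.of_all fun _ => one_pos)).mono fun _ h => h.1
  obtain h5 := Hier.e3_le (fun _ => 1 / 7) (fun _ _ _ _ _ _ _ _ => rfl) (.of_all fun _ => by norm_num)
  obtain h7 := Hier.pow_le_exp (fun _ => 90000) (fun c => 6 * c.e3 * c.ε / 20) 4 (fun _ _ => rfl)
    (fun _ _ => rfl) ((hε.and h5).mono fun c h => by have := h.1; have := h.2.1; positivity)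
  obtain h8 := Hier.pow_le_exp (fun _ => 90000) (fun c => 2 * c.e3) 4 (fun _ _ => rfl)
    (fun _ _ => rfl) (h5.mono fun c h => by have := h.1; positivity)
  refine (hε.and <| h5.and <| h7.and <| h8.and (Hier.lam_ge (fun _ => 1) fun _ _ => rfl)).mono ?_
  rintro c ⟨a1, ⟨a2, a3⟩, a4, a5, a6⟩ _
  obtain e : 90000 / c.cw = 90000 * c.lam ^ 4 := by unfold Cs.cw; field_simp
  refine ECVp.main (by unfold Cs.cc; (clear * - a1 a6; positivity)) (by unfold Cs.cw; positivity) ?_ a2 a3 ?_ ?_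
  · unfold Cs.cw
    rw [div_le_one (by positivity)]
    exact one_le_pow₀ a6
  · rw [e]; convert a4 using 2; unfold Cs.cc; ring
  · rw [e]; exact a5

end
end Pool.Agent.MP_9cbfe4_an

end

/-! ### Part E0L -/

section

/-! Row E0L: the sum over levels, signs and patterns at low level. -/

namespace Pool.Agent.MP_9cbfe4_an

open Finset Filter Topology MeasureTheory

namespace E0Lr

theorem geo {E : ℕ → Set ℝ} {B δ : ℝ} (hB : 0 ≤ B) (hδ : 0 < δ)
    (h : ∀ k, volume (E k) ≤ ENNReal.ofReal (B * Real.exp (-δ * k))) :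
    volume (⋃ k, E k) ≤ ENNReal.ofReal (B * (1 + 1 / δ)) := by
  obtain r1 : Real.exp (-δ) < 1 := Real.exp_lt_one_iff.2 (by linarith only [hδ])
  have hs := (hasSum_geometric_of_lt_one (Real.exp_pos (-δ)).le r1).mul_left B
  obtain e : ∀ k : ℕ, B * Real.exp (-δ * k) = B * Real.exp (-δ) ^ k := fun k => by
    rw [← Real.exp_nat_mul, mul_comm (k : ℝ)]
  refine (measure_iUnion_le _).trans ((ENNReal.tsum_le_tsum h).trans ?_)
  simp only [e]
  rw [← ENNReal.ofReal_tsum_of_nonneg (fun k => by positivity) hs.summable, hs.tsum_eq]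
  refine ENNReal.ofReal_le_ofReal (mul_le_mul_of_nonneg_left ?_ hB)
  have a := Real.add_one_le_exp δ
  obtain b : Real.exp (-δ) * Real.exp δ = 1 := by rw [← Real.exp_add]; simp
  rw [inv_le_comm₀ (by linarith only [r1]) (by positivity)]
  obtain this : (1 + 1 / δ)⁻¹ = 1 - 1 / (δ + 1) := by field_simp; ring
  rw [this]
  obtain this : Real.exp (-δ) ≤ 1 / (δ + 1) := by
    rw [le_div_iff₀ (by linarith only [hδ])]; nlinarith only [a, b, hδ, Real.exp_pos (-δ)]
  linarith only [this]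

/-- a finite union bound -/
theorem fin_union {ι : Type} (T : Finset ι) (E : ι → Set ℝ) {A : Set ℝ} {B N : ℝ} (hB : 0 ≤ B)
    (hA : A ⊆ ⋃ i ∈ T, E i) (hE : ∀ i ∈ T, volume (E i) ≤ ENNReal.ofReal B) (hN : (T.card : ℝ) ≤ N) :
    volume A ≤ ENNReal.ofReal (N * B) := by
  refine (measure_mono hA).trans ((measure_biUnion_finset_le _ _).trans ?_)
  refine (Finset.sum_le_card_nsmul _ _ _ hE).trans ?_
  rw [nsmul_eq_mul, ← ENNReal.ofReal_natCast, ← ENNReal.ofReal_mul (Nat.cast_nonneg _)]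
  exact ENNReal.ofReal_le_ofReal (mul_le_mul_of_nonneg_right hN hB)

structure Nm (c : Cs) : Prop where
  e3 : 0 < c.e3 ∧ c.e3 ≤ 1 / 28
  ε0 : 0 < c.ε
  ε1 : c.ε ≤ 1
  εθ : c.ε ≤ c.θb
  C1 : 0 ≤ c.C1
  lam : 1 ≤ c.lam
  lamε : 160 / c.ε ≤ c.lam
  del : 0 ≤ c.del ∧ 120 * c.del ≤ c.ε / 800
  big : 480 * Real.exp 25 * (1 + 1 / (c.ε / 4)) * c.lam ^ 0 ≤ Real.exp (c.ε / 40 * c.lam)

theorem nm : Hier Nm := by
  obtain e3 := Hier.e3_le (fun _ => 1 / 28) (fun _ _ _ _ _ _ _ _ => rfl) (.of_all fun _ => by norm_num)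
  obtain ep := Hier.ε_le_pow (fun _ => 1) 0 (by norm_num) (fun _ _ _ _ _ _ _ _ => rfl)
    (.of_all fun _ => one_pos)
  obtain eθ := Hier.ε_le_pow (fun c => c.θb) 0 (by norm_num) (fun _ _ _ _ _ _ _ _ => rfl)
    (Hier.base.mono fun _ h => h.2.2.1)
  have c0 := Hier.C0_ge fun _ _ _ _ => 0
  have c1 := Hier.C1_ge fun _ _ _ _ _ => 0
  obtain d1 := Hier.d1_le (fun c => c.ε / (288000 * (1 + 6 * c.C0 * c.C1))) (fun _ _ _ _ _ => rfl)
    (((ep.and c0).and c1).mono fun c h => by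
      have := h.1.1.1; have := h.1.2; have := h.2; (rename_i zq1 zq0; clear * - zq1 zq0 this; positivity))
  refine ((((((((e3.and ep).and eθ).and c0).and c1).and d1).and
    (Hier.lam_ge (fun _ => 1) fun _ _ => rfl)).and
    (Hier.lam_ge (fun c => 160 / c.ε) fun _ _ => rfl)).and
    (Hier.pow_le_exp (fun c => 480 * Real.exp 25 * (1 + 1 / (c.ε / 4))) (fun c => c.ε / 40) 0
      (fun _ _ => rfl) (fun _ _ => rfl) (ep.mono fun c h => by have := h.1; positivity))).mono ?_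
  rintro c ⟨⟨⟨⟨⟨⟨⟨⟨a1, a2, a3⟩, -, a4⟩, a5⟩, a6⟩, a7, a8⟩, a9⟩, a10⟩, a11⟩
  simp only [pow_zero, mul_one] at a3 a4
  obtain hp : 0 < 1 + 6 * c.C0 * c.C1 := by positivity
  refine ⟨a1, a2, a3, a4, a6, a9, a10, ⟨by unfold Cs.del; (clear * - a7 a5 a6; positivity), ?_⟩, a11⟩
  rw [le_div_iff₀ (by (clear * - a5 a6; positivity))] at a8
  unfold Cs.del; linarith only [a8]

theorem level {c : Cs} (N : Nm c) (hK : KR_s c) (hP : EPAT_s c) (hL : EPL_s c) (hC : ECV_s c)
    {Ex : ExT} {M : Mdl} (hs : Std c Ex M) (k : ℕ) :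
    volume {t | ∃ z : EDat, z.Viol c Ex M ∧ z.t = t ∧ z.V c M ≤ c.bl / 3 ∧ ⌊z.V c M⌋₊ = k} ≤
      ENNReal.ofReal (24 * Real.exp (25 - c.cc / 2) * Real.exp (-(c.ε / 4) * k)) := by
  classical
  obtain hl0 : 0 < c.lam := by linarith only [N.lam]
  obtain ⟨T, hT, hT'⟩ := hK (10 * (k + 1) / c.lam + 12) (40 * (k + 1 + c.lam))
  obtain hV : ∀ z : EDat, ⌊z.V c M⌋₊ = k → (k : ℝ) ≤ z.V c M ∧ z.V c M ≤ k + 1 := fun z h => by
    have h0 : 0 ≤ z.V c M := (Real.log_nonneg (Sq.one_le_AA _ _ _ _ _)).trans (le_max_left _ _)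
    exact ⟨h ▸ Nat.floor_le h0, h ▸ (Nat.lt_floor_add_one _).le⟩
  let F : Bool × List (ℕ × ℕ × Bool) → Set EDat := fun i =>
    {z | z.Viol c Ex M ∧ z.V c M ≤ c.bl / 3 ∧ ⌊z.V c M⌋₊ = k ∧
      decide (0 ≤ Real.cos ((z.S M).X z.n)) = i.1 ∧ z.pattern c M 0 = i.2}
  obtain hB : ∀ i ∈ (univ : Finset Bool) ×ˢ T, volume (EDat.t '' F i) ≤
      ENNReal.ofReal (Real.exp (-(1 - 7 * c.e3) * (c.ε * k + c.cc)) * 3) := by
    intro i _
    have h := hC Ex M (F i) 0 1 (c.ε * k + c.cc) hs (fun z hz => hz.1)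
      (fun z hz z' hz' => hz.2.2.2.2.trans hz'.2.2.2.2.symm)
      (by
        rw [neg_zero, Real.exp_zero, mul_one, Cs.cw, div_le_one (by positivity)]
        exact one_le_pow₀ N.lam)
      (fun z hz z' hz' x hx _ hr => hL Ex M z z' k hs hz.1 hz'.1 (hV z hz.2.2.1).1 (hV z hz.2.2.1).2
        (hV z' hz'.2.2.1).1 hz.2.1 (by
          have := hz.2.2.2.1.trans hz'.2.2.2.1.symm
          simpa using this) x hx hr)
      (fun z hz => by
        refine le_trans ?_ (hP Ex M z hs hz.1).2.2.1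
        refine le_trans ?_ hz.1.bad.le
        have h1 := (hV z hz.2.2.1).1
        have h2 : c.ε * k ≤ c.ε * z.V c M := mul_le_mul_of_nonneg_left h1 N.ε0.le
        have h3 : c.ε * z.V c M ≤ c.θb * z.V c M :=
          mul_le_mul_of_nonneg_right N.εθ ((Nat.cast_nonneg k).trans h1)
        have h4 := mul_nonneg N.C1 (Sq.load_nonneg c (z.S M) z.n (z.V c M))
        exact add_le_add_left (le_min (by linarith only [h2, h3]) (by linarith only [h2, h4])) _)
    refine h.trans ?_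
    rw [ENNReal.ofReal_mul (Real.exp_pos _).le]
    refine mul_le_mul_right ?_ _
    obtain hsub : (⋃ z ∈ F i, Metric.closedBall z.t 1) ⊆ Set.Icc (-1 : ℝ) 2 := by
      intro x hx
      simp only [Set.mem_iUnion, Metric.mem_closedBall, Real.dist_eq] at hx
      obtain ⟨z, hz, hx⟩ := hx
      have := hz.1.ht
      rw [abs_le] at hx
      exact ⟨by linarith only [this.1, hx.1], by linarith only [this.2, hx.2]⟩
    refine (measure_mono hsub).trans ?_
    rw [Real.volume_Icc]; norm_num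
  obtain hcard : (((univ : Finset Bool) ×ˢ T).card : ℝ) ≤
      8 * Real.exp (2 * (10 * (k + 1) / c.lam + 12) + 3 * c.del * (40 * (k + 1 + c.lam))) := by
    rw [card_product]; simp only [card_univ, Fintype.card_bool]; push_cast; linarith only [hT]
  refine (fin_union _ (fun i => EDat.t '' F i) (by positivity) ?_ hB hcard).trans
    (ENNReal.ofReal_le_ofReal ?_)
  · rintro t ⟨z, hz, rfl, h1, h2⟩
    simp only [Set.mem_iUnion]
    refine ⟨(decide (0 ≤ Real.cos ((z.S M).X z.n)), z.pattern c M 0), ?_, z, ⟨hz, h1, h2, rfl, rfl⟩, rfl⟩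
    obtain ⟨p1, p2, p3⟩ := (hP Ex M z hs hz).1 0
    have h3 := (hV z h2).2
    refine mem_product.2 ⟨mem_univ _, hT' _ p1 (p2.trans ?_) (p3.trans (by linarith only [h3]))⟩
    (clear * - h3 hl0; gcongr)
  · obtain e1 : 20 / c.lam ≤ c.ε / 8 := by
      have := N.lamε
      rw [div_le_iff₀ N.ε0] at this
      rw [div_le_div_iff₀ hl0 (by norm_num)]; linarith only [this]
    have k0 : (0 : ℝ) ≤ k := Nat.cast_nonneg k
    obtain e2 : 2 * (10 * ((k : ℝ) + 1) / c.lam + 12) = 20 / c.lam * (k + 1) + 24 := by ring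
    obtain e3 : 20 / c.lam * ((k : ℝ) + 1) ≤ c.ε / 8 * (k + 1) := by gcongr
    obtain e4 : 120 * c.del * ((k : ℝ) + 1 + c.lam) ≤ c.ε / 800 * (k + 1 + c.lam) := by
      gcongr; exact N.del.2
    have e5 : c.cc = c.ε * c.lam / 20 := rfl
    obtain e6 : 0 ≤ c.ε * k + c.cc := by have := N.ε0; rw [e5]; positivity
    obtain e7 : 3 / 4 * (c.ε * k + c.cc) ≤ (1 - 7 * c.e3) * (c.ε * k + c.cc) :=
      mul_le_mul_of_nonneg_right (by linarith only [N.e3.2]) e6
    have e8 : 0 ≤ c.ε * k := mul_nonneg N.ε0.le k0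
    have e9 : 0 ≤ c.ε * c.lam := mul_nonneg N.ε0.le hl0.le
    obtain key : 2 * (10 * ((k : ℝ) + 1) / c.lam + 12) + 3 * c.del * (40 * (k + 1 + c.lam)) +
        -(1 - 7 * c.e3) * (c.ε * k + c.cc) ≤ 25 - c.cc / 2 + -(c.ε / 4) * k := by
      have := N.ε1
      rw [e2]; linarith only [e3, e4, e5, e6, e7, e8, this]
    have := Real.exp_le_exp.2 key
    rw [Real.exp_add, Real.exp_add (25 - c.cc / 2)] at this
    linarith only [this]

end E0Lr

/-- `E0L_s` with the bound `1 / 20` -/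
def E0L20_s (c : Cs) : Prop := ∀ Ex M, Std c Ex M →
  volume {t | ∃ z : EDat, z.Viol c Ex M ∧ z.t = t ∧ z.V c M ≤ c.bl / 3} ≤ 1 / 20

theorem e0l20 : Hier fun c => KR_s c → EPAT_s c → EPL_s c → ECV_s c → E0L20_s c := by
  refine E0Lr.nm.mono fun c N hK hP hL hC Ex M hs => ?_
  obtain h := E0Lr.geo (by positivity) (by have := N.ε0; positivity : 0 < c.ε / 4)
    (E0Lr.level N hK hP hL hC hs)
  refine le_trans (measure_mono ?_) (h.trans ?_)
  · rintro t ⟨z, hz, h1, h2⟩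
    exact Set.mem_iUnion.2 ⟨_, z, hz, h1, h2, rfl⟩
  · obtain e : (1 / 20 : ENNReal) = ENNReal.ofReal (1 / 20) := by
      rw [ENNReal.ofReal_div_of_pos (by norm_num)]; simp
    rw [e]
    refine ENNReal.ofReal_le_ofReal ?_
    have hb := N.big
    obtain e1 : c.ε / 40 * c.lam = c.cc / 2 := by unfold Cs.cc; ring
    rw [pow_zero, mul_one, e1] at hb
    rw [Real.exp_sub, ← mul_div_assoc, div_mul_eq_mul_div, div_le_iff₀ (Real.exp_pos _)]
    linarith only [hb]

end Pool.Agent.MP_9cbfe4_an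

end

/-! ### Part E0H -/

section

/-! Row E0H: the sum over levels, loads, windows, classes and patterns at high level. -/

namespace Pool.Agent.MP_9cbfe4_an

open Filter Topology MeasureTheory Set

namespace E0H

structure Big (c : Cs) : Prop where
  k_lo : 1 / 16 ≤ c.k0
  k_hi : c.k0 < 1 / 2
  θ0 : 0 < c.θb
  θ1 : c.θb < 1
  C0 : 10 ≤ c.C0
  C1 : 2 ≤ c.C1
  e3 : 0 < c.e3 ∧ c.e3 ≤ 1 / 100
  mar : Real.log 2 / c.chK < c.θb → c.e3 ≤ (c.θb - Real.log 2 / c.chK) / 100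
  ε : 0 < c.ε ∧ c.ε ≤ c.e3
  a : 0 < c.a ∧ c.a ≤ c.ε / 140000
  del : c.del ≤ c.ε / 2400
  β : 480 / c.ε ≤ c.β
  lam : 44800 * c.C0 / c.ε ^ 2 ≤ c.lam
  lam' : c.C1 + 30 ≤ c.lam

namespace Big
variable {c : Cs} (h : Big c)
include h

end Big

variable {c : Cs} {Ex : ExT} {M : Mdl}

end E0H

end Pool.Agent.MP_9cbfe4_an

end

/-! ### Part LOW -/

section

/-! Row LOW of THM-2: glue of `low1` and the low-level exclusion of section E0. -/

namespace Pool.Agent.MP_9cbfe4_an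

open MeasureTheory

theorem low (K : ℕ) : Hier fun c => SOK_s c → B1_s c → B5_s c → E0L20_s c → LOW_s K c := by
  refine ((((low1 K).and (Hier.C0_ge fun _ _ _ _ => 2)).and
    (Hier.β_ge (fun _ => 0) fun _ _ _ => rfl)).and (Hier.lam_ge (fun _ => 0) fun _ _ => rfl)).mono ?_
  rintro c ⟨⟨⟨h1, hC⟩, hβ⟩, hl⟩ sok b1 b5 e0 hF M hM
  refine ⟨fun d hd hlow _ => h1 sok b1 b5 hF M hM d hd hlow, ?_⟩
  refine le_trans (measure_mono ?_) (e0 (Ex2 K c M) M ⟨hF.2.1, fun _ _ _ _ _ _ h => h.1, hM⟩)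
  rintro t ⟨d, rfl, hd, hlow, hb⟩
  have hbl : 0 ≤ c.bl := mul_nonneg hβ hl
  have hlow' : c.C0 * d.V c M ≤ c.bl / 2 := not_lt.1 hlow
  have hV : 0 ≤ d.V c M := le_trans (Real.log_nonneg (Sq.one_le_AA c _ _ _ _)) (le_max_left _ _)
  refine ⟨⟨d.t, d.v, d.ξ, d.n, d.Ls, d.p, d.r⟩,
    ⟨⟨by linarith only [hd.ht.1], by linarith only [hd.ht.2]⟩, hd.hv, hd.out, hd.run, hd.bd, hd.wit, hd.tame,
      ?_, Or.inr ?_⟩, rfl, ?_⟩
  · obtain e : EDat.tot c M ⟨d.t, d.v, d.ξ, d.n, d.Ls, d.p, d.r⟩ = d.ev c M := by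
      simp only [EDat.tot, EDat.Lf, Sq.evs, List.map_cons, List.sum_cons, Dat.ev]
      exact add_comm _ _
    rw [e]
    rcases hb with hb | hb
    · exact lt_of_le_of_lt (add_le_add_left (min_le_left _ _) _) hb
    · exact lt_of_le_of_lt (add_le_add_left (min_le_right _ _) _) hb
  · show c.C0 * d.V c M ≤ c.bl
    linarith only [hbl, hlow']
  · show d.V c M ≤ c.bl / 3
    nlinarith only [hbl, hlow', hC, hV]

end Pool.Agent.MP_9cbfe4_an

end

/-! ### Part HIGH -/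

section

/-! THM-2: the four measure statements give the bound at high level, and `E2_s`. -/

namespace Pool.Agent.MP_9cbfe4_an

open Finset Filter Topology MeasureTheory

theorem high_of {K : ℕ} {c : Cs} (hS : S_s K c) (hJ : JFR_s K c) (hE : E_s K c) (h1 : FS_s K c)
    (h3 : F3_s K c) (h5 : F5_s K c) : HIGH_s K c := by
  intro hF M hM
  obtain ⟨sd, hsd⟩ := hS M hM (Ex2 K c M)
  have a0 := hE hF M hM sd hsd
  have a1 := h1 hF M hM sd hsd
  have a3 := h3 hF M hM sd hsd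
  have a5 := h5 hF M hM sd hsd
  refine le_trans (measure_mono ?_) (((measure_union_le _ _).trans (add_le_add a0
    ((measure_union_le _ _).trans (add_le_add a1 ((measure_union_le _ _).trans
      (add_le_add a3 a5)))))).trans ?_)
  · rintro t ⟨d, e, hp, hh, hb⟩
    by_cases hc : d.Canc K c M sd
    · exact .inl ⟨d, e, hp, hh, hc⟩
    have hj := hJ hF M hM sd hsd d hp hh hc
    by_cases b1 : d.BadS c M
    · exact .inr (.inl ⟨d, e, hp, hh, hj, b1⟩)
    by_cases b3 : d.Bad3 c M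
    · exact .inr (.inr (.inl ⟨d, e, hp, hh, hj, b3⟩))
    exact .inr (.inr (.inr ⟨d, e, hp, hh, hj, b1, b3, (hb.resolve_left b1).resolve_left b3⟩))
  · obtain e1 : (1 / 20 : ENNReal) = ENNReal.ofReal (1 / 20) := by
      rw [ENNReal.ofReal_div_of_pos (by norm_num)]; simp
    obtain e2 : (1 / 5 : ENNReal) = ENNReal.ofReal (1 / 5) := by
      rw [ENNReal.ofReal_div_of_pos (by norm_num)]; simp
    obtain e3 : (1 / 30 : ENNReal) = ENNReal.ofReal (1 / 30) := by
      rw [ENNReal.ofReal_div_of_pos (by norm_num)]; simp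
    rw [e1, e2, e3, ← ENNReal.ofReal_add (by norm_num) (by norm_num),
      ← ENNReal.ofReal_add (by norm_num) (by norm_num),
      ← ENNReal.ofReal_add (by norm_num) (by norm_num)]
    exact ENNReal.ofReal_le_ofReal (by norm_num)

theorem e2_row (K : ℕ) : Hier fun c => RED_s K c → LOW_s K c → S_s K c → JFR_s K c → E_s K c →
    FS_s K c → F3_s K c → F5_s K c → E2_s K c :=
  Hier.of_all fun _ hR hL hS hJ hE h1 h3 h5 => e2_of_high hR hL (high_of hS hJ hE h1 h3 h5)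

end Pool.Agent.MP_9cbfe4_an

end

/-! ### Part NEAR -/

section

/-! Section S, row NEAR: the seed at `t0` lies on the leaf of the datum. -/

namespace Pool.Agent.MP_9cbfe4_an.SS

open Finset

theorem near (h0 : ST0_s) (hH : APH_s) (hA : AP0_s) : NEAR_s := by
  intro g N E P X η h hE so tu
  have s0 := h.s0
  have J1 := h.J1
  have k := h.ct.hc
  obtain hτ : |P.t0 - P.t0| ≤ P.r := by simpa using h.r0.le
  have hx := (hA g N E P P.t0 X η h (by omega) hτ so tu).2.2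
  simp only [sub_self, abs_zero, mul_zero, zero_add] at hx
  have := hH P.R E 85 P.ξ P.w P.μ (fun i => X i - P.R.X i - P.ξ i * (X 0 - P.R.X 0)) P.s P.Λ
    ((X 0 - P.R.X 0) ^ 2) 0 0 k (h.top le_rfl (by omega)) (by omega) (sq_nonneg _) le_rfl le_rfl
    (by simp) (fun j a b => ?_)
    (by rw [zero_mul, abs_nonpos_iff]; linear_combination so.linx)
    (by
      have := h.big0
      simp only [k.one, one_mul, sub_self, abs_zero, zero_mul, add_zero]; positivity)
    (-1) (by omega) (by omega)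
  · simp only [zero_mul, add_zero] at this
    have a := mul_le_mul_of_nonneg_left this (h.bpos s0 (by omega)).le
    have b := mul_le_mul_of_nonneg_left (h.b0mu (show 85 + 7 ≤ E by omega))
      (sq_nonneg (X 0 - P.R.X 0))
    linarith only [a, b]
  obtain b' : j ≤ P.J := by omega
  have big := h.big (show P.s - 1 ≤ j by omega) b'
  have bj := h.bpos a b'
  have u0 := abs_nonneg (X 0 - P.R.X 0)
  have c := (h0 g _ N _ _ _ _ _ (h.lm j a b') _ (h.center j) _
    (mem_UB tu hτ (show P.s - 1 < j by omega) b')).2.1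
  rw [← h.ea j a b', ← h.eb j a b'] at c
  obtain p : pg P.dl (P.R.b j) (((P.t0, X j, X (j - 1)) : R3) - (P.t0, P.R.X j, P.R.X (j - 1)))
      ≤ |X 0 - P.R.X 0| * P.μ j ^ 42 := by
    refine (pg_sub_le bj.le _ _ _ _ _ _).trans ?_
    have a1 := mul_le_mul_of_nonneg_left (hx (j - 1) (by omega) (by omega)) bj.le
    have a2 := mul_le_mul_of_nonneg_left
      (show _ ≤ P.μ j ^ 41 from h.bmu (show 40 ≤ E by omega) a b') u0
    have a3 := mul_le_mul_of_nonneg_left (LS.pw3 big (show 41 + 1 ≤ 42 by norm_num)) u0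
    have a4 := mul_le_mul_of_nonneg_left (LS.pw big (show 40 ≤ 41 by norm_num)) u0
    obtain a5 : 0 ≤ |X 0 - P.R.X 0| * P.μ j ^ 41 := by positivity
    linarith only [a1, a2, a3, a4, a5, a, hx j (by omega) b']
  have q := mul_le_mul_of_nonneg_left (pow_le_pow_left₀ (pg_nonneg _ _ _) p 2)
    (show 0 ≤ P.μ j by linarith only [big])
  rw [mul_pow, sq_abs] at q
  rw [← so.eqx j a (by omega), ← h.orb j a (by omega)] at c
  simp only [sub_self, mul_zero, sub_zero] at c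
  obtain e : P.R.df (fun i => X i - P.R.X i - P.ξ i * (X 0 - P.R.X 0)) j = X (j + 1) - P.R.X (j + 1)
      - P.R.a j * (X j - P.R.X j) - P.R.b j * (X (j - 1) - P.R.X (j - 1)) := by
    unfold Sq.df; simp only [k.sol j a b]; ring
  rw [e]
  linarith only [q, c]

end Pool.Agent.MP_9cbfe4_an.SS

end

/-! ### Part SPD -/

section

/-! Row SPD: parameter speed of the label. -/

namespace Pool.Agent.MP_9cbfe4_an.SS

open Finset Filter Topology
open scoped ContDiff

namespace SPD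

theorem prod_close (I : Finset ℤ) {b b' : ℤ → ℝ} {ε : ℝ} (hε : 0 ≤ ε) (hb : ∀ l ∈ I, 0 ≤ b l)
    (h : ∀ l ∈ I, |b' l - b l| ≤ ε * b l) (hc : 2 * I.card * ε ≤ 1) :
    |∏ l ∈ I, b' l - ∏ l ∈ I, b l| ≤ 2 * I.card * ε * ∏ l ∈ I, b l := by
  induction I using Finset.induction_on with
  | empty => simp
  | insert a I ha ih =>
    rw [card_insert_of_notMem ha] at hc ⊢
    push_cast at hc ⊢
    obtain hc' : 2 * I.card * ε ≤ 1 := by linarith only [hε, hc]
    have ih := ih (fun l hl => hb l (mem_insert_of_mem hl)) (fun l hl => h l (mem_insert_of_mem hl))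
      hc'
    have b0 := hb a (mem_insert_self _ _)
    have h1 := h a (mem_insert_self _ _)
    have P0 : 0 ≤ ∏ l ∈ I, b l := prod_nonneg fun l hl => hb l (mem_insert_of_mem hl)
    obtain h2 : |b' a| ≤ (1 + ε) * b a := by
      have := abs_sub_abs_le_abs_sub (b' a) (b a)
      rw [abs_of_nonneg b0] at this
      linarith only [h1, this]
    rw [prod_insert ha, prod_insert ha]
    generalize ∏ l ∈ I, b' l = Q at ih ⊢
    generalize ∏ l ∈ I, b l = P at ih P0 ⊢
    rw [show b' a * Q - b a * P = b' a * (Q - P) + (b' a - b a) * P by ring]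
    refine (abs_add_le _ _).trans ?_
    rw [abs_mul, abs_mul, abs_of_nonneg P0]
    obtain h3 := mul_le_mul h2 ih (abs_nonneg _) (by (clear * - hε b0; positivity))
    have h4 := mul_le_mul_of_nonneg_right h1 P0
    obtain h5 := mul_le_mul_of_nonneg_right hc' (show 0 ≤ ε * (b a * P) by (clear * - hε b0 P0; positivity))
    linarith only [h3, h4, h5]

theorem rec_sum (S : Sq) {W q : ℤ → ℝ} {s n : ℤ} (hn : s ≤ n + 1) (h0 : W (s - 1) = 0)
    (h : ∀ j, s ≤ j → j ≤ n → W j = -S.b j * W (j - 1) + q j) :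
    W n = ∑ i ∈ Ico s (n + 1), (-1) ^ (n - i).toNat * S.Pb i n * q i := by
  obtain hn' : s - 1 ≤ n := by omega
  clear hn
  induction n, hn' using Int.leInduction with
  | base => simp [h0]
  | succ n hn ih =>
    rw [sum_Ico_succ _ (show s ≤ n + 1 by omega), h (n + 1) (by omega) le_rfl, add_sub_cancel_right,
      ih fun j a b => h j a (by omega), mul_sum, sub_self, Sq.Pb_self]
    congr 1
    · refine sum_congr rfl fun i hi => ?_
      have h := (mem_Ico.1 hi).2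
      rw [show (n + 1 - i).toNat = (n - i).toNat + 1 by omega, pow_succ,
        S.Pb_mul (show i ≤ n by omega) (show n ≤ n + 1 by omega), Sq.Pb_one]
      ring
    · simp

theorem chain {g : R3 → ℝ} {x y z : ℝ → ℝ} {t : ℝ} (hg : ContDiffAt ℝ ∞ g (t, x t, y t))
    (hx : ContDiffAt ℝ ∞ x t) (hy : ContDiffAt ℝ ∞ y t) (hz : z =ᶠ[𝓝 t] fun σ => g (σ, x σ, y σ)) :
    deriv z t = fderiv ℝ g (t, x t, y t) (1, deriv x t, deriv y t) := by
  rw [hz.deriv_eq]
  exact ((hg.differentiableAt (by simp)).hasFDerivAt.comp_hasDerivAt t ((hasDerivAt_id' t).prodMk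
    ((hx.differentiableAt (by simp)).hasDerivAt.prodMk
      (hy.differentiableAt (by simp)).hasDerivAt))).deriv

theorem term {P P' η ξ g g' w A ε y : ℝ} (P0 : 0 ≤ P) (h1 : |P' - P| ≤ A * P)
    (h2 : |η - ξ| ≤ y * w) (h3 : |g' - g| ≤ ε) (hξ : |ξ| ≤ w) (hy : y ≤ 1) (hg : |g'| ≤ 2) :
    |P' * (η * g') - P * ξ * g| ≤ P * w * (4 * A + 2 * y + ε) := by
  have w0 := (abs_nonneg _).trans hξ
  obtain h4 : |η| ≤ 2 * w := by
    have := abs_sub_abs_le_abs_sub η ξ
    nlinarith only [h2, hξ, this, hy, w0]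
  rw [show P' * (η * g') - P * ξ * g = (P' - P) * η * g' + P * (η - ξ) * g' + P * ξ * (g' - g) by ring]
  refine (abs_add_three _ _ _).trans ?_
  simp only [abs_mul, abs_of_nonneg P0]
  have A0 := (abs_nonneg _).trans h1
  obtain a1 := mul_le_mul (mul_le_mul h1 h4 (abs_nonneg _) A0) hg (abs_nonneg _) (by positivity)
  have a2 := mul_le_mul (mul_le_mul_of_nonneg_left h2 P0) hg (abs_nonneg _)
    (mul_nonneg P0 ((abs_nonneg _).trans h2))
  obtain a3 := mul_le_mul (mul_le_mul_of_nonneg_left hξ P0) h3 (abs_nonneg _) (by positivity)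
  linarith only [a1, a2, a3]
end SPD

open SPD in
theorem spd (hMG : MG_s) (hST : ST0_s) (hAP : AP0_s) (hW : APW_s) : SPD_s := by
  intro g N E P F h _ hE sm ev tube
  have s0 := h.s0
  have J1 := h.J1
  have H := h.ct.hc
  have L1 := h.Λ_ge
  have sol := ev.self_of_nhds
  obtain t0 : |P.t0 - P.t0| ≤ P.r := by simpa using h.r0.le
  obtain ap := (hAP g N E P P.t0 _ _ h (by omega) t0 sol tube).2.2
  obtain ur : |F.X 0 P.t0 - P.R.X 0| ≤ P.r := tube 0 (by omega) (by omega)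
  simp only [sub_self, abs_zero, mul_zero, zero_add, Fm.x] at ap
  set u := |F.X 0 P.t0 - P.R.X 0|
  have u0 : 0 ≤ u := abs_nonneg _
  obtain up : ∀ a : ℕ, 0 ≤ P.Λ ^ a * u := fun a => by (clear * - L1; positivity)
  obtain uL : ∀ a, a ≤ 200 → P.Λ ^ a * u ≤ 1 := fun a ha =>
    ((mul_le_mul_of_nonneg_left ur (by (clear * - L1; positivity))).trans_eq (mul_comm _ _)).trans
      (h.rΛ (ha.trans hE))
  obtain ap' : ∀ j, P.s - 1 ≤ j → j ≤ 0 → |F.X j P.t0 - P.R.X j| ≤ u * P.Λ ^ 40 := fun j a b =>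
    (ap j a (by omega)).trans (mul_le_mul_of_nonneg_left (h.mu_pow_le a (by omega) 40) u0)
  set S : Sq := ⟨F.x P.t0, fun j => ga g (P.t0, F.x P.t0 j, F.x P.t0 (j - 1)),
    fun j => gb g (P.t0, F.x P.t0 j, F.x P.t0 (j - 1))⟩ with hS
  set q : ℤ → ℝ := fun j => gt g (P.t0, F.x P.t0 j, F.x P.t0 (j - 1)) with hq
  obtain mem : ∀ j, P.s ≤ j → j ≤ 0 → ((P.t0, F.x P.t0 j, F.x P.t0 (j - 1)) : R3) ∈ UB P.R P.t0 P.r j :=
    fun j a b => mem_UB tube t0 (by omega) (by omega)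
  obtain cf : ∀ j, P.s ≤ j → j ≤ 0 → |S.a j - P.R.a j| ≤ P.Λ ^ 43 * u ∧
      |S.b j - P.R.b j| ≤ P.Λ ^ 43 * u * P.R.b j ∧
      |q j - gt g (P.t0, P.R.X j, P.R.X (j - 1))| ≤ P.Λ ^ 43 * u ∧ |q j| ≤ 2 := by
    intro j a b
    obtain lm := h.lm j a (by omega)
    obtain ⟨-, -, c1, c2, c3, -⟩ := hST _ _ _ _ _ _ _ _ lm _ (h.center j) _ (mem j a b)
    rw [← h.ea j a (by omega)] at c1
    rw [← h.eb j a (by omega)] at c2
    have bp := lm.b0
    obtain m1 := h.top (j := j) (by omega) (by omega)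
    obtain m0 := h.big (j := j) (by omega) (by omega)
    have p1 := pg_sub_le bp.le P.dl P.t0 (P.R.X j) (P.R.X (j - 1)) (F.x P.t0 j) (F.x P.t0 (j - 1))
    have p0 := pg_nonneg P.dl (P.R.b j) (((P.t0, F.x P.t0 j, F.x P.t0 (j - 1)) : R3) -
      (P.t0, P.R.X j, P.R.X (j - 1)))
    obtain p2 := mul_le_mul ((h.ble a (by omega)).trans m1) (ap' (j - 1) (by omega) (by omega))
      (abs_nonneg _) (by linarith only [L1])
    obtain p3 := ap' j (by omega) b
    generalize pg P.dl (P.R.b j) _ = p at c1 c2 c3 p1 p0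
    obtain p4 : 0 ≤ u * P.Λ ^ 40 := by (clear * - L1; positivity)
    obtain p5 : p ≤ P.Λ ^ 2 * (u * P.Λ ^ 40) := by
      obtain this : 1 + P.Λ ≤ P.Λ ^ 2 := by nlinarith only [L1]
      have := mul_le_mul_of_nonneg_right this p4
      simp only [Fm.x] at p1
      linarith only [p2, p3, p1, this]
    obtain p6 : P.μ j * p ≤ P.Λ ^ 43 * u :=
      (mul_le_mul m1 p5 p0 (by linarith only [L1])).trans_eq (by ring)
    refine ⟨c1.trans p6, c2.trans ?_, c3.trans ?_, ?_⟩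
    · rw [mul_right_comm]; exact mul_le_mul_of_nonneg_right p6 bp.le
    · rw [mul_right_comm]
      exact (mul_le_of_le_one_right (by (clear * - m0 p0; positivity)) lm.dl1).trans p6
    · have := abs_le.1 (lm.ht _ (mem j a b))
      rw [abs_le]; constructor <;> linarith only [this.1, this.2]
  have one : F.η 0 P.t0 = 1 := sol.one
  have apw := hW P.R E P.ξ P.w P.μ (fun j => F.η j P.t0 - P.ξ j) P.s P.Λ (2 * P.Λ ^ 44 * u)
    (P.Λ ^ 43 * u) H (h.top le_rfl (by omega)) (by (clear * - L1; positivity)) (by (clear * - L1; positivity))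
    (by linarith only [uL 53 (by norm_num)]) (fun j a b => ?_) (by have := sol.line; simp only [Fm.e] at this; linear_combination this)
    (by rw [one, H.one, sub_self, abs_zero]; (clear * - L1; positivity))
  swap
  · obtain ⟨c1, c2, -⟩ := cf j a b.le
    obtain e : P.R.df (fun j => F.η j P.t0 - P.ξ j) j =
        (S.a j - P.R.a j) * F.η j P.t0 + (S.b j - P.R.b j) * F.η (j - 1) P.t0 := by
      obtain this := sol.eqe j a (by omega)
      simp only [Fm.e] at this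
      simp only [Sq.df, hS]
      rw [this, H.sol j a b]; ring
    obtain bp := h.bpos a (by omega : j ≤ P.J)
    obtain wj := H.wpos j (by omega) b.le
    obtain k1 : P.R.b j * P.w (j - 1) ≤ P.Λ * P.w j := by
      obtain this := (h.kp_le (i := j - 1) (j := j) (by omega) (by omega) b.le).trans
        (h.top (j := j) (by omega) (by omega))
      have e1 := P.R.Pb_one (j - 1)
      rw [sub_add_cancel] at e1
      rwa [Sq.kp, e1, div_le_iff₀ wj] at this
    have d1 := abs_sub_abs_le_abs_sub (F.η j P.t0) (P.ξ j)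
    have d2 := abs_sub_abs_le_abs_sub (F.η (j - 1) P.t0) (P.ξ (j - 1))
    obtain d3 := H.maj j (by omega) b.le
    obtain d4 := H.maj (j - 1) (by omega) (by omega)
    obtain d5 : |F.η j P.t0| + P.R.b j * |F.η (j - 1) P.t0| ≤
        2 * P.Λ * P.w j + P.R.sz (fun j => F.η j P.t0 - P.ξ j) j := by
      obtain this := mul_le_mul_of_nonneg_left (show |F.η (j - 1) P.t0| ≤
        P.w (j - 1) + |F.η (j - 1) P.t0 - P.ξ (j - 1)| by linarith only [d2, d4]) bp.le
      have := mul_le_mul_of_nonneg_right L1 wj.le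
      simp only [Sq.sz]
      linarith
    have d6 := mul_le_mul_of_nonneg_left d5 (up 43)
    rw [e]
    refine (abs_add_le _ _).trans ?_
    rw [abs_mul, abs_mul]
    have d7 := mul_le_mul_of_nonneg_right c1 (abs_nonneg (F.η j P.t0))
    have d8 := mul_le_mul_of_nonneg_right c2 (abs_nonneg (F.η (j - 1) P.t0))
    linarith only [d6, d7, d8]
  obtain rc : ∀ j, P.s ≤ j → j ≤ 0 → deriv (F.X (j + 1)) P.t0 =
      S.a j * deriv (F.X j) P.t0 + S.b j * deriv (F.X (j - 1)) P.t0 + q j := by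
    intro j a b
    obtain lm := h.lm j a (by omega)
    rw [chain (z := F.X (j + 1)) (lm.sm _ (mem j a b)) (sm j (by omega) (by omega)).1
      (sm (j - 1) (by omega) (by omega)).1 (ev.mono fun σ hσ => hσ.eqx j a (by omega))]
    refine ((hMG _ _ _ _ _ _ _ _ lm _ (mem j a b)).2.2.2.1 _).trans ?_
    simp only [hS, hq]; ring
  obtain ln : P.ξ P.s * deriv (F.X (P.s - 1)) P.t0 = P.ξ (P.s - 1) * deriv (F.X P.s) P.t0 := by
    have e : (fun σ => P.ξ P.s * (F.X (P.s - 1) σ - P.R.X (P.s - 1))) =ᶠ[𝓝 P.t0]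
        fun σ => P.ξ (P.s - 1) * (F.X P.s σ - P.R.X P.s) := ev.mono fun σ hσ => hσ.linx
    have := e.deriv_eq
    rwa [deriv_const_mul_field, deriv_const_mul_field, deriv_sub_const, deriv_sub_const] at this
  obtain rs := rec_sum S (W := fun j => F.η j P.t0 * deriv (F.X (j + 1)) P.t0 -
      F.η (j + 1) P.t0 * deriv (F.X j) P.t0) (q := fun j => F.η j P.t0 * q j) (s := P.s) (n := 0)
    (by omega) (by
      have e := P.R.repr_on (ξ := P.ξ) (i := P.s) (n := 0) H.sol s0 le_rfl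
      have l2 := sol.line
      rw [H.one] at e
      simp only [Fm.e] at l2
      simp only [sub_add_cancel]
      generalize P.R.fr P.s 0 = A at e
      generalize P.R.fr (P.s + 1) 0 = B at e
      linear_combination (F.η (P.s - 1) P.t0 * deriv (F.X P.s) P.t0 -
        F.η P.s P.t0 * deriv (F.X (P.s - 1)) P.t0) * e + A * deriv (F.X P.s) P.t0 * l2
        - A * F.η P.s P.t0 * ln - P.R.b P.s * B * F.η (P.s - 1) P.t0 * ln
        + P.R.b P.s * B * deriv (F.X (P.s - 1)) P.t0 * l2)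
    fun j a b => by
      obtain this := sol.eqe j a (by omega)
      simp only [Fm.e] at this
      simp only [sub_add_cancel]
      rw [rc j a b, this]
      simp only [hS]; ring
  obtain e1 : gt g (P.t0, P.R.X 0, P.R.X (-1)) + ∑ i ∈ Ico P.s 0,
      (-1) ^ (0 - i).toNat * P.R.Pb i 0 * P.ξ i * gt g (P.t0, P.R.X i, P.R.X (i - 1)) =
      ∑ i ∈ Ico P.s (0 + 1),
        (-1) ^ (0 - i).toNat * P.R.Pb i 0 * P.ξ i * gt g (P.t0, P.R.X i, P.R.X (i - 1)) := by
    rw [sum_Ico_succ _ s0, add_comm, Sq.Pb_self, H.one]; simp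
  simp only [one, one_mul, zero_add] at rs
  rw [e1, rs, zero_add, ← sum_sub_distrib]
  obtain len : ∀ i, P.s - 1 ≤ i → i ≤ 0 → ((Ioc i 0).card : ℝ) ≤ P.Λ := fun i a b => by
    obtain this := (H.len i a b).trans (h.top a (by omega))
    rw [Int.card_Ioc, ← Int.cast_natCast, Int.toNat_of_nonneg (by omega)]
    push_cast; linarith only [this]
  obtain bd : ∀ i ∈ Ico P.s 1, |(-1) ^ (0 - i).toNat * S.Pb i 0 * (F.η i P.t0 * q i) -
      (-1) ^ (0 - i).toNat * P.R.Pb i 0 * P.ξ i * gt g (P.t0, P.R.X i, P.R.X (i - 1))| ≤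
      P.Λ ^ 53 * u := by
    intro i hi
    obtain ⟨a, b⟩ := mem_Ico.1 hi
    obtain b : i ≤ 0 := by omega
    obtain ⟨-, -, c3, c4⟩ := cf i a b
    obtain bl : ∀ l ∈ Ioc i 0, 0 ≤ P.R.b l := fun l hl => by
      obtain ⟨l1, l2⟩ := mem_Ioc.1 hl
      exact (h.bpos (by omega) (by omega)).le
    obtain n1 := mul_le_mul_of_nonneg_right (len i (by omega) b) (up 43)
    have n2 := mul_le_mul_of_nonneg_right L1 (up 44)
    have n3 := mul_le_mul_of_nonneg_right L1 (up 51)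
    have n4 := mul_le_mul_of_nonneg_right L1 (up 52)
    obtain n5 := mul_le_mul_of_nonneg_right (h.Λ_pow (show 43 ≤ 51 by norm_num)) u0
    obtain n6 := mul_le_mul_of_nonneg_right (h.Λ_pow (show 44 ≤ 51 by norm_num)) u0
    have n7 := up 52
    obtain pc := prod_close (Ioc i 0) (b' := S.b) (ε := P.Λ ^ 43 * u) (up 43) bl
      (fun l hl => (cf l (by have := (mem_Ioc.1 hl).1; omega) (mem_Ioc.1 hl).2).2.1)
      (by linarith only [n1, n2, uL 45 (by norm_num)])
    have P0 : 0 ≤ P.R.Pb i 0 := prod_nonneg bl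
    obtain tm := term (P := P.R.Pb i 0) (P' := S.Pb i 0) P0 pc (apw i (by omega) b) c3
      (H.maj i (by omega) b) (by linarith only [n3, uL 52 (by norm_num)]) c4
    obtain k1 : P.R.Pb i 0 * P.w i ≤ P.Λ * 4 := by
      obtain w0 := H.wpos 0 (by omega) le_rfl
      obtain this := (h.kp_le (i := i) (j := 0) (by omega) b le_rfl).trans h.top0
      rw [Sq.kp, div_le_iff₀ w0] at this
      exact this.trans (mul_le_mul_of_nonneg_left H.w0 (by linarith only [L1]))
    rw [mul_assoc, mul_assoc, mul_assoc, ← mul_sub, abs_mul, abs_pow, abs_neg, abs_one, one_pow,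
      one_mul, ← mul_assoc (P.R.Pb i 0)]
    have c0 := mul_nonneg (Nat.cast_nonneg (α := ℝ) (Ioc i 0).card) (up 43)
    have c1 := up 43
    have c2 := up 51
    refine tm.trans ((mul_le_mul k1 (show _ ≤ 13 * (P.Λ ^ 51 * u) by
      linarith only [n1, n5, n6]) (by linarith only [c0, c1, c2])
      (by linarith only [L1])).trans (by linarith only [n4, n7]))
  refine (abs_sum_le_sum_abs _ _).trans ((sum_le_card_nsmul _ _ _ bd).trans ?_)
  obtain e2 : (Ico P.s 1).card = (Ioc (P.s - 1) 0).card := by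
    rw [Int.card_Ico, Int.card_Ioc]; congr 1; ring
  rw [nsmul_eq_mul, e2]
  refine (mul_le_mul_of_nonneg_right (len _ le_rfl (by omega)) (up 53)).trans ?_
  obtain this := mul_le_mul_of_nonneg_right (h.Λ_pow (show 54 ≤ 70 by norm_num)) u0
  linarith only [this]

end Pool.Agent.MP_9cbfe4_an.SS

end

/-! ### Part CERT -/

section

/-! Rows CERT and PKG of section S. -/

namespace Pool.Agent.MP_9cbfe4_an.SS

open Finset Filter Topology

namespace CERT

variable {K E : ℕ} {c : Cs} {y : ℝ}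

lemma big (N : NuS K E c) (hy : c.bl / 4 < y) :
    10 ^ 4 ≤ Lam K c y ∧ 1 ≤ c.S0 y ∧ 10 * Lam K c y ^ (E + 100) ≤ c.S0 y ∧ del c ≤ 1 / 4 := by
  obtain ⟨h1, h2, -⟩ := N.lam y hy
  obtain h3 : 10 ^ 4 ≤ Lam K c y := by
    refine le_trans ?_ h1
    nlinarith only [N.L.1, N.chK.2.2]
  obtain h4 : 1 ≤ Lam K c y := by linarith only [h3]
  refine ⟨h3, (one_le_pow₀ h4).trans h2, le_trans ?_ h2, ?_⟩
  · calc _ ≤ Lam K c y * Lam K c y ^ (E + 100) := by gcongr; linarith only [h3]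
      _ ≤ _ := by rw [← pow_succ']; exact pow_le_pow_right₀ h4 (by omega)
  · rw [del, neg_div, Real.exp_neg, one_div]
    exact inv_anti₀ (by norm_num) (by linarith only [Real.add_one_le_exp (c.bl / 4), N.chK.2.2])

end CERT

open CERT in
theorem pkg (hX : EX0_s) (hS : SM_s) (hA : AP0_s) (hJ : JET_s) (K : ℕ) :
    ∃ e E0 : ℕ, ∀ E, E0 ≤ E → ∀ c, NuS K E c → CERT_s K E c → PKG_s K E e c := by
  obtain ⟨e, E0, hJ⟩ := hJ (K + 4)
  refine ⟨e, max E0 200, fun E hE c N hC M hM Ex y φ hφ => ?_⟩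
  have E1 : E0 ≤ E := (le_max_left _ _).trans hE
  have E2 : 200 ≤ E := (le_max_right _ _).trans hE
  obtain ⟨w, R⟩ := hC (by omega) M hM Ex y φ hφ
  obtain ⟨l1, s1, l2, d1⟩ := big N hφ.y_lo
  obtain rf := R.ref 1 (by norm_num) le_rfl
  set P := rd K E c Ex M y φ w 1 with hP
  obtain l0 : 1 ≤ Lam K c y := by linarith only [l1]
  obtain s0 : 0 < c.S0 y := by linarith only [s1]
  obtain u0 : 0 < c.rU y := by unfold Cs.rU; (clear * - s1; positivity)
  obtain s3 : c.S0 y ≤ c.S0 y ^ 3 := le_self_pow₀ s1 (by norm_num)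
  obtain hρ : |P.ρ| ≤ 2 * c.rU y := R.rho_le.trans (by
    rw [Cs.rU, mul_one_div]
    exact div_le_div_of_nonneg_left (by norm_num) (by positivity)
      (pow_le_pow_right₀ s1 (by norm_num)))
  obtain hr : 10 * c.rU y * Lam K c y ^ 100 ≤ P.r := by
    change _ ≤ 1 / Lam K c y ^ E
    rw [le_div_iff₀ (by positivity), Cs.rU, mul_one_div, div_mul_eq_mul_div, div_mul_eq_mul_div,
      div_le_one (by positivity), mul_assoc, ← pow_add, add_comm]
    linarith only [l2, s3]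
  obtain hr' : 10 * c.rU y ≤ P.r :=
    (le_mul_of_one_le_right (by (clear * - u0; positivity)) (one_le_pow₀ l0)).trans hr
  obtain ab : ∀ τ ∈ Set.Ioo (φ.t - 3 * c.rU y) (φ.t + 3 * c.rU y), |τ - P.t0| ≤ 3 * c.rU y :=
    fun τ h => abs_le.2 ⟨by change _ ≤ τ - φ.t; linarith only [h.1], by change τ - φ.t ≤ _; linarith only [h.2]⟩
  obtain ⟨F, hF⟩ := hS _ _ _ P (3 * c.rU y) rf (by omega) E2 (by linarith only [u0, hr']) fun τ h =>
    hX _ _ _ P τ (3 * c.rU y) rf E2 (ab τ h) (by linarith only [u0, hρ]) (le_trans (by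
      change _ * Lam K c y ^ 100 ≤ _
      gcongr; norm_num) hr)
  obtain tb : ∀ τ ∈ Set.Ioo (φ.t - 3 * c.rU y) (φ.t + 3 * c.rU y),
      Tube P.R (F.x τ) (P.s - 1) P.J P.r := fun τ h j j1 j2 =>
    ((hF τ h).2.1 j j1 j2).trans (by linarith only [u0, hr'])
  obtain jt := fun τ h => hJ _ E P τ F rf E1 ((ab τ h).trans (by linarith only [u0, hr'])) (hF τ h).2.2
    (Filter.mem_of_superset (isOpen_Ioo.mem_nhds h) fun σ hσ => (hF σ hσ).1) (tb τ h)
  refine ⟨w, F, R, fun τ h => (hF τ h).1, fun τ h j j1 j2 => ?_, fun τ h => (hF τ h).2.2,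
    fun τ h => (jt τ h).1, fun τ h => ⟨(jt τ h).2.1, (jt τ h).2.2.1 (by omega), (jt τ h).2.2.2⟩⟩
  obtain ⟨-, a1, a2⟩ := hA _ _ _ P τ _ _ rf (by omega) ((ab τ h).trans (by linarith only [u0, hr'])) (hF τ h).1
    (tb τ h)
  obtain a3 : |F.x τ 0 - P.R.X 0| ≤ c.rU y := by
    obtain b1 : P.δ * |τ - P.t0| ≤ 1 / 4 * (3 * c.rU y) :=
      mul_le_mul d1 (ab τ h) (abs_nonneg _) (by norm_num)
    have b2 := mul_le_mul_of_nonneg_right (show 10 ^ 4 ≤ P.L from N.L.1)
      (abs_nonneg (F.x τ 0 - P.R.X 0))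
    linarith only [u0, hρ, a1, b1, b2]
  refine (a2 j j1 j2).trans ?_
  have m0 : 0 ≤ P.μ j := (Real.exp_pos _).le
  calc _ ≤ 10 * c.rU y * Lam K c y ^ (E + 100) :=
        mul_le_mul (by linarith only [u0, a3, ab τ h]) ((pow_le_pow_left₀ m0 (rf.ct.top j j1 j2) 40).trans
          (pow_le_pow_right₀ l0 (by omega))) (by (clear * -; positivity)) (by positivity)
    _ = c.rU y * (10 * Lam K c y ^ (E + 100)) := by ring
    _ ≤ c.rU y * c.S0 y := by (clear * - l2 u0; gcongr)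
    _ = _ := by unfold Cs.rU; field_simp

open CERT in
theorem cert (K E : ℕ) : Hier fun c => NuS K E c → SOK_s c → HCR_s K E c → JS_s c → FCR_s K E c →
    TBR_s K E c → CERT_s K E c := by
  refine (Hier.M1_ge (fun c => 200 / Real.sqrt c.a) fun _ _ _ _ => rfl).mono ?_
  intro c hM1 N hS hH hJ hF hT hE M hM Ex y φ hφ
  obtain ⟨l1, s1, l2, d1⟩ := big N hφ.y_lo
  obtain ⟨⟨Ls, r, br, ri, bi⟩, j1, j2, j3, -⟩ := hJ M hM.ok Ex y φ hφ
  obtain ⟨orb, ok⟩ := (hS M hM.ok φ.t ⟨by linarith only [hφ.ht.1], by linarith only [hφ.ht.2]⟩).2.1 φ.v hφ.hv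
  obtain ⟨n0, sol, x0, sl⟩ := hφ.out
  obtain z0 : 5 / 100 ≤ dP ((FR M φ).X 0) := by simpa [FR, Sq.shift] using bi.kz.2.1
  obtain ⟨w, hc, kc, sh, tr, g0, g2, tw⟩ := hH M hM.ok Ex y φ hφ z0
  obtain ⟨t1, -, t3⟩ := hT hE M hM y hφ.y_lo
  obtain ⟨pos, lm, fo⟩ := t3 φ hφ.ht.1 hφ.ht.2 hφ.hv n0
  have fc := fun θ h1 h2 => hF (φ.S M) φ.n _ Ls y θ ok n0 ri bi hφ.y_lo j2 h1 h2
  have bl := N.chK.2.2
  obtain y0 : 0 < y := by linarith only [bl, hφ.y_lo]
  obtain lo : -φ.n ≤ Fs c M y φ := by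
    unfold Fs Sq.st
    linarith only [le_max_left 0 (φ.n - (φ.S M).Nw c φ.n y)]
  obtain rho : (rd K E c Ex M y φ w 1).ρ = (φ.S M).rho φ.ξ φ.n (φ.n + FJ c Ex M y φ) := by
    rw [(φ.S M).rho_eq sol x0 ri.ne (by linarith only [ri.le])]
    simp only [RD.ρ, rd, FR, Sq.nu1, Sq.fr_shift, Fxi, add_comm _ φ.n]
    simp only [Sq.shift, add_comm _ φ.n, ← sub_eq_add_neg, add_zero]
    ring
  obtain a0 : |(FR M φ).a 0| ≤ 1 := by
    obtain ⟨f, g1⟩ := fc 1 (by norm_num) le_rfl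
    change (FR M φ).FC E (mu K c y (FR M φ)) (Dd c 1 (FR M φ)) _ at f
    change mu K c y (FR M φ) 1 ^ E * Dd c 1 (FR M φ) 1 ≤ _ at g1
    obtain m1 : 1 ≤ mu K c y (FR M φ) 1 := by linarith only [f.big 1 (by norm_num) f.J1]
    have b1 := f.bpos 1 le_rfl f.J1
    obtain D1 := f.Dpos 1 (by norm_num) f.J1
    obtain p1 : (FR M φ).b 1 ≤ mu K c y (FR M φ) 1 * Dd c 1 (FR M φ) 1 := by
      obtain this := f.PbD 0 1 le_rfl (by norm_num) f.J1
      rwa [f.D0, mul_one, Sq.Pb, show Ioc (0 : ℤ) 1 = {1} by decide, prod_singleton] at this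
    obtain n1 : |(FR M φ).nu1 (FJ c Ex M y φ)| ≤ 1 / 4 := by
      obtain q : |(FR M φ).fr 2 (FJ c Ex M y φ)| / |(FR M φ).fr 1 (FJ c Ex M y φ)|
          ≤ mu K c y (FR M φ) 1 := by
        refine div_le_of_le_mul₀ (abs_nonneg _) (by linarith only [m1]) ?_
        rcases f.J1.eq_or_lt with h | h
        · rw [← h, show (FR M φ).fr 2 1 = 0 by simp [Sq.fr], abs_zero]
          (clear * - m1; positivity)
        · exact f.frJ 1 (by norm_num) h
      rw [Sq.nu1, abs_neg, abs_div, abs_mul, abs_of_pos b1, mul_div_assoc]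
      calc _ ≤ mu K c y (FR M φ) 1 * Dd c 1 (FR M φ) 1 * mu K c y (FR M φ) 1 := by (clear * - p1 q m1 D1; gcongr)
        _ = mu K c y (FR M φ) 1 ^ 2 * Dd c 1 (FR M φ) 1 := by ring
        _ ≤ mu K c y (FR M φ) 1 ^ E * Dd c 1 (FR M φ) 1 := by
          gcongr ?_ * _; exact pow_le_pow_right₀ m1 (by omega)
        _ ≤ _ := g1.trans d1
    have b0 := hc.bpos 0 hc.s0 le_rfl
    obtain n2 : |(FR M φ).b 0 * Fxi φ (-1)| ≤ 1 / 4 := by
      obtain q1 : |Fxi φ (-1)| ≤ 1 := by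
        rw [Fxi, abs_div, div_le_one (abs_pos.2 x0), neg_add_eq_sub]
        refine sl.trans (mul_le_of_le_one_left (abs_nonneg _) (Real.exp_le_one_iff.2 ?_))
        linarith only [Real.log_nonneg (show 1 ≤ c.L by linarith only [N.L.1]), show c.lam = Real.log c.L from rfl]
      obtain q2 : 1 ≤ mu K c y (FR M φ) (-1) ^ E :=
        one_le_pow₀ (by linarith only [hc.big (-1) (by linarith only [hc.s0]) (by norm_num)])
      rw [abs_mul, abs_of_pos b0]
      nlinarith only [d1, g0, b0, q1, q2, abs_nonneg (Fxi φ (-1))]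
    obtain n3 : |(rd K E c Ex M y φ w 1).ρ| ≤ 1 / 4 := by
      rw [rho]
      refine j3.trans ?_
      rw [div_le_iff₀ (by positivity)]
      obtain this := one_le_pow₀ (n := E + 100) (show 1 ≤ Lam K c y by linarith only [l1])
      linarith only [l2, this, le_self_pow₀ s1 (show 10 ≠ 0 by norm_num)]
    change |(FR M φ).a 0 + (FR M φ).b 0 * Fxi φ (-1) - (FR M φ).nu1 (FJ c Ex M y φ)| ≤ _ at n3
    rw [abs_le] at *
    constructor <;> linarith only [n1.1, n1.2, n2.1, n2.2, n3.1, n3.2]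
  obtain ⟨fd, far⟩ := fo a0 z0
  obtain r0 : 0 < rr K E c y := by unfold rr; positivity
  obtain ob : ∀ j, -φ.n ≤ j → (φ.t, (FR M φ).X j, (FR M φ).X (j - 1)) ∈ OB c := fun j h =>
    (lm j h).1 ⟨by simpa using r0.le, by simpa using r0.le, by simpa using r0.le⟩
  have o2 := orb.shift φ.n
  rw [zero_sub] at o2
  refine ⟨w, hφ, fun θ h1 h2 => ⟨⟨hc, (fc θ h1 h2).1, fun j _ _ => ?_, fun j h => ?_,
      le_trans (by norm_num) N.L.1, ?_, g0, (fc θ h1 h2).2, g2⟩, r0, ?_, ?_,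
      fun j h _ => (lm j (lo.trans h)).2, fd, fun j h _ => o2.step j (lo.trans h),
      fun j h _ => (o2.ha j (lo.trans h)).trans (t1 _ (ob j (lo.trans h))).1.symm,
      fun j h _ => (o2.hb j (lo.trans h)).trans (t1 _ (ob j (lo.trans h))).2.1.symm⟩,
    rho, rho ▸ j3, kc, sh, lo, fun h => ?_, ?_, j2.trans ?_, ⟨Ls, r, br⟩, pos, a0, far, tw⟩
  · refine Real.exp_le_exp.2 (add_le_add_right ?_ _)
    exact mul_le_mul_of_nonneg_left (min_le_right _ _) (by linarith only [N.a0])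
  · simp [rd, Dd, Sq.chi, Ioc_eq_empty_of_le h]
  · change c.L ≤ Real.exp _
    obtain h3 : c.L ≤ 10 ^ 4 * c.CG * c.L * c.bl := by
      obtain this : 1 ≤ c.CG * c.bl := one_le_mul_of_one_le_of_one_le N.L.2.2 (by linarith only [bl])
      nlinarith only [this, N.L.1]
    refine (h3.trans N.L.2.1).trans (Real.exp_le_exp.2 ?_)
    obtain h4 : 0 ≤ min (chd c (FR M φ) 0) (y + 2 * c.bl) :=
      le_min (by simp [chd, Sq.chi]) (by linarith only [bl, y0])
    nlinarith only [h4, N.abl, N.a0, (K.cast_nonneg : (0 : ℝ) ≤ K)]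
  · change 1 / Lam K c y ^ E * Lam K c y ^ E ≤ 1
    rw [one_div_mul_cancel (by positivity)]
  · change Real.exp _ ≤ Real.exp _ ^ 2
    rw [← Real.exp_nat_mul, Real.exp_le_exp]
    push_cast
    linarith only [bl]
  · obtain ⟨e1, e2⟩ := tr h
    rw [e1]
    refine ⟨rfl, ?_, ?_⟩
    · exact ok.past _ (by omega)
    · rw [Fxi, show -φ.n - 1 + φ.n = -1 by ring, e2, zero_div]
  · rwa [FR, Sq.chi_shift, zero_add, add_comm]
  · have q0 := Real.sqrt_pos.2 N.a0
    obtain q1 : c.a ≤ Real.sqrt c.a := by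
      refine Real.le_sqrt_of_sq_le ?_
      obtain this : (1 : ℝ) ≤ 10 ^ 4 * ((E : ℝ) + K + 30) ^ 2 := by
        nlinarith only [(K.cast_nonneg : (0 : ℝ) ≤ K), (E.cast_nonneg : (0 : ℝ) ≤ E)]
      nlinarith only [this, N.aE, N.a0]
    obtain q2 : y / c.M1 ≤ Real.sqrt c.a * y / 200 := by
      calc y / c.M1 ≤ y / (200 / Real.sqrt c.a) := by (clear * - y0 q0 hM1; gcongr)
        _ = _ := by field_simp
    obtain q3 : c.a * c.bl ≤ Real.sqrt c.a * (4 * y) := by gcongr; linarith only [hφ.y_lo]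
    linarith only [q2, q3, N.abl]

end Pool.Agent.MP_9cbfe4_an.SS

end

/-! ### Part RTA -/

section

/-! Section S: start of a truncated window, local solvability in a class. -/

namespace Pool.Agent.MP_9cbfe4_an.SS

open Finset Filter Topology

theorem Ref.xi_start {g : R3 → ℝ} {N E : ℕ} {P : RD} (h : Ref g N E P) (h0 : P.ξ (P.s - 1) = 0) :
    P.ξ P.s ≠ 0 := by
  intro h1
  obtain key : ∀ m : ℕ, P.s + m ≤ 0 → P.ξ (P.s + m - 1) = 0 ∧ P.ξ (P.s + m) = 0 := by
    intro m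
    induction m with
    | zero => intro _; simpa using ⟨h0, h1⟩
    | succ m ih =>
      intro hm
      push_cast at hm ⊢
      obtain ⟨a, b⟩ := ih (by omega)
      refine ⟨by rw [show P.s + (m + 1) - 1 = P.s + m by ring]; exact b, ?_⟩
      rw [← add_assoc, h.ct.hc.sol (P.s + m) (by omega) (by omega), a, b]
      simp
  have s0 := h.s0
  have := (key (-P.s).toNat (by omega)).2
  rw [show P.s + ((-P.s).toNat : ℤ) = 0 by omega, h.ct.hc.one] at this
  exact one_ne_zero this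

theorem Sol.start {g : R3 → ℝ} {N E : ℕ} {P : RD} (h : Ref g N E P) (h0 : P.ξ (P.s - 1) = 0)
    {τ : ℝ} {X η : ℤ → ℝ} (hS : Sol g P τ X η) : X (P.s - 1) = P.R.X (P.s - 1) ∧ η (P.s - 1) = 0 := by
  have h1 := h.xi_start h0
  have h2 := hS.linx
  have h3 := hS.line
  rw [h0, zero_mul, mul_eq_zero] at h2 h3
  exact ⟨sub_eq_zero.1 (h2.resolve_left h1), h3.resolve_left h1⟩

/-- both families solve their systems near every parameter of the window -/
theorem SameC.ev {K E e : ℕ} {c : Cs} {Ex : ExT} {M : Mdl} {y tU : ℝ} {φ φ' : Fd} {w w' : ℤ → ℝ}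
    {F F' : Fm} (H : SameC K E e c Ex M y tU φ w F φ' w' F') {τ : ℝ}
    (hτ : |τ - tU| ≤ 3 / 2 * c.rU y) :
    ∀ᶠ σ in 𝓝 τ, Sol M.GG (rd K E c Ex M y φ w 1) σ (F.x σ) (F.e σ) ∧
      Sol M.GG (rd K E c Ex M y φ' w' 1) σ (F'.x σ) (F'.e σ) := by
  have r := rU_pos c y
  have a := abs_le.1 hτ
  have b := abs_le.1 H.ht
  have b' := abs_le.1 H.ht'
  filter_upwards [Ioo_mem_nhds (show φ.t - 3 * c.rU y < τ by linarith only [r, a, b])
      (show τ < φ.t + 3 * c.rU y by linarith only [r, a, b]),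
    Ioo_mem_nhds (show φ'.t - 3 * c.rU y < τ by linarith only [r, a, b']) (show τ < φ'.t + 3 * c.rU y by linarith only [r, a, b'])]
    with σ h1 h2
  exact ⟨H.g.sol σ h1, H.g'.sol σ h2⟩

end Pool.Agent.MP_9cbfe4_an.SS

end

/-! ### Part RCR -/

section

/-! Section S, row RCR: change of level. -/

namespace Pool.Agent.MP_9cbfe4_an.SS

open Finset Filter Topology

theorem rcr (hF : FWDJ_s) (hD : DCL_s) (K e : ℕ) : ∃ E0 : ℕ, ∀ E, E0 ≤ E → ∀ c, NuS K E c →
    JS_s c → RCR_s K E e c := by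
  obtain ⟨e1, E1, hF⟩ := hF (K + 4)
  obtain ⟨e', hD⟩ := hD (K + 4) (e + e1)
  refine ⟨E1 + e' + e + e1, fun E hE c hN hJ M hM Ex y y' φ w F w' F' G G' hy n hn => ?_⟩
  have y0 := G.rf.ok.y_lo
  have y1 := G'.rf.ok.y_lo
  obtain R := G'.rf.ref (1 / 2) le_rfl (by norm_num)
  have s0 : Fs c M y' φ ≤ 0 := R.s0
  have J1 : 1 ≤ FJ c Ex M y' φ := R.J1
  obtain ⟨hj, hs⟩ := (hJ M hM.ok Ex y φ G.rf.ok).2.2.2.2 y' hy
  obtain mem : ∀ z, φ.t ∈ Set.Ioo (φ.t - 3 * c.rU z) (φ.t + 3 * c.rU z) := fun z =>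
    ⟨by linarith only [rU_pos c z], by linarith only [rU_pos c z]⟩
  obtain ev : ∀ᶠ σ in 𝓝 φ.t, Sol M.GG (rd K E c Ex M y φ w 1) σ (F.x σ) (F.e σ) ∧
      Sol M.GG (rd K E c Ex M y' φ w' 1) σ (F'.x σ) (F'.e σ) := by
    filter_upwards [Ioo_mem_nhds (mem y).1 (mem y).2, Ioo_mem_nhds (mem y').1 (mem y').2]
      with σ h1 h2
    exact ⟨G.sol σ h1, G'.sol σ h2⟩
  have ex : ∀ᶠ σ in 𝓝 φ.t, EqX M.GG σ (F.x σ) (Fs c M y' φ) (FJ c Ex M y' φ) ∧
      EqE M.GG σ (F.x σ) (F.e σ) (Fs c M y' φ) (FJ c Ex M y' φ) := ev.mono fun σ h =>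
    ⟨fun j p q => h.1.eqx j (hs.trans p) (q.trans_le hj),
      fun j p q => h.1.eqe j (hs.trans p) (q.trans_le hj)⟩
  have r0 := rr_pos K E c y'
  obtain ht : |φ.t - φ.t| ≤ rr K E c y' := by simpa using r0.le
  have S1 : 1 / c.S0 y ^ 2 ≤ 1 / c.S0 y' ^ 2 := one_div_le_one_div_of_le (pow_pos (S0_pos c y') 2)
    (pow_le_pow_left₀ (S0_pos c y').le
      (Real.exp_le_exp.2 (mul_le_mul_of_nonneg_left hy (Real.sqrt_nonneg _))) 2)
  have S2 := hN.S0_sq_rr y1
  obtain tu : Tube (FR M φ) (F.x φ.t) (Fs c M y' φ - 1) (FJ c Ex M y' φ) (rr K E c y') :=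
    (G.tube _ (mem y)).mono (by omega) hj (by linarith only [r0, S1, S2])
  obtain sm : F.Sm (Fs c M y' φ - 1) (FJ c Ex M y' φ) φ.t := fun j a b =>
    G.sm _ (mem y) j (by omega) (b.trans hj)
  obtain ⟨-, m2, -⟩ := muc K E c y' hN y1
  have m3 := fun j => (muc K E c y hN y0).2.2 (FR M φ) j y' y1 hy
  obtain up : ∀ j, mu K c y' (FR M φ) j ^ e ≤ mu K c y' (FR M φ) j ^ (e + e1) := fun j =>
    pow_le_pow_right₀ (hN.one_le_mu y1 _ j) (by omega)
  have D0 : ∀ θ j, 0 < Dd c θ (FR M φ) j := fun θ j => Real.exp_pos _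
  obtain upD : ∀ j, mu K c y' (FR M φ) j ^ e * Dd c 1 (FR M φ) j ≤
      mu K c y' (FR M φ) j ^ (e + e1) * Dd c (1 / 2) (FR M φ) j := fun j =>
    mul_le_mul (up j) (m2 _ j 1 (1 / 2) (by norm_num)).2.2 (D0 _ _).le
      (pow_pos (mu_pos _ _ _ _ _) _).le
  obtain jb : F.Jb (K + 4) (e + e1) (mu K c y' (FR M φ)) (Dd c (1 / 2) (FR M φ)) (Fs c M y' φ - 1)
      (FJ c Ex M y' φ) φ.t := by
    intro j a b m hm
    obtain ⟨p, q⟩ := G.jb _ (mem y) j (by omega) (b.trans hj) m hm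
    rcases le_total j 0 with z | z
    · obtain e0 : mu K c y (FR M φ) j = mu K c y' (FR M φ) j := (m3 j).1 (by
        obtain c0 : (FR M φ).chi c 0 j = 0 := by
          unfold Sq.chi; rw [Ioc_eq_empty (by omega), sum_empty]
        obtain c1 := (FR M φ).chi_mono c (by linarith only [hN.chK_ge]) hN.chK_bl a (le_refl 0)
        have b1 := ((FR M φ).ch1_mem c hN.chK_bl (Fs c M y' φ - 1 + 1)).2
        have b2 := ((FR M φ).ch1_mem c hN.chK_bl (Fs c M y' φ + 1)).2
        rw [← Sq.chi_succ, sub_add_cancel] at b1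
        rw [← Sq.chi_succ] at b2
        rw [(FR M φ).chi_add c (show Fs c M y' φ - 1 ≤ Fs c M y' φ by omega) s0] at c1
        unfold chd
        rcases s0.eq_or_lt with e0 | lt
        · rw [e0] at c1 b1
          rw [Sq.chi_self] at c1
          linarith only [y1, c0, c1, b1, hN.bl_ge]
        · rw [(FR M φ).chi_add c (show Fs c M y' φ ≤ Fs c M y' φ + 1 by omega) lt] at c1
          linarith only [c0, c1, b1, b2, G'.rf.short])
      rw [e0] at p q
      exact ⟨fun h => (p h).trans (up j), q.trans (upD j)⟩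
    · refine ⟨fun h => (hF M.GG E _ φ.t F.X R (by omega) ht (fun i a b => (sm i (by omega) b).1)
        (ex.mono fun σ h i a b => h.1 i (by omega) b) (tu.mono (by omega) le_rfl le_rfl)
        (fun i a b => ?_) j z b m h hm).trans
        (pow_le_pow_right₀ (hN.one_le_mu y1 _ j) (by omega)),
        q.trans (((m3 j).2 e (by omega) z).trans
          (mul_le_mul_of_nonneg_right (up j) (D0 _ _).le))⟩
      obtain ⟨k1, k2, k3⟩ := G.jc _ (mem y)
      refine ⟨(k1 i a b).trans (by linarith only [hN.del_le]), ?_⟩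
      rcases a.eq_or_lt with rfl | lt
      · rw [iteratedDeriv_one]
        have := abs_le.1 k2
        exact abs_le.2 ⟨by linarith only [this], by linarith only [this]⟩
      · exact (k3 i lt b).trans one_le_two
  have jb' : F'.Jb (K + 4) (e + e1) (mu K c y' (FR M φ)) (Dd c (1 / 2) (FR M φ))
      (Fs c M y' φ - 1) (FJ c Ex M y' φ) φ.t := fun j a b m hm =>
    ⟨fun h => ((G'.jb _ (mem y') j a b m hm).1 h).trans (up j),
      (G'.jb _ (mem y') j a b m hm).2.trans (upD j)⟩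
  have L0 := Lam_pos K c y'
  have x0 := Real.exp_pos (-y' / 2)
  obtain ⟨d1, d2⟩ := hD M.GG E (rd K E c Ex M y' φ w' (1 / 2)) φ.t F' F
    (2 * (Lam K c y' ^ (e + e1) * Real.exp (-y' / 2))) R (by omega)
    ⟨ht, G'.sm _ (mem y'), sm, ev.mono fun σ h => ⟨h.2.eqx, h.2.eqe, h.2.one⟩,
      (ev.and ex).mono fun σ h => ⟨fun j p q => h.2.1 j (le_of_lt p) q,
        fun j p q => h.2.2 j (le_of_lt p) q, h.1.1.one⟩,
      (G'.tube _ (mem y')).mono le_rfl le_rfl (le_trans S2 (div_le_self r0.le (by norm_num))),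
      tu, jb', jb⟩ ex (by positivity) (fun m hm => by
      obtain a : mu K c y' (FR M φ) (FJ c Ex M y' φ) ^ (e + e1) * Dd c (1 / 2) (FR M φ)
          (FJ c Ex M y' φ) ≤ Lam K c y' ^ (e + e1) * Real.exp (-y' / 2) :=
        mul_le_mul (pow_le_pow_left₀ (mu_pos _ _ _ _ _).le (m2 _ _ 1 1 le_rfl).2.1 _)
          (Real.exp_le_exp.2 (by linarith only [G'.rf.hor])) (D0 _ _).le (by positivity)
      obtain b := (jb (FJ c Ex M y' φ) (by omega) le_rfl m hm).2
      obtain b' := (jb' (FJ c Ex M y' φ) (by omega) le_rfl m hm).2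
      exact (abs_sub _ _).trans ((add_le_add (b.trans a) (b'.trans a)).trans (two_mul _).ge))
  have t0 := tiny_pos y'
  obtain g1 : Lam K c y' ^ e' * (2 * (Lam K c y' ^ (e + e1) * Real.exp (-y' / 2))) ≤ tiny y' / 2 := by
    obtain this := hN.Lam_pow_tiny y1 (show e' + (e + e1) ≤ 20 * E + 1000 by omega)
    rw [pow_add] at this
    linarith only [t0, this]
  obtain fin : ∀ j, 0 ≤ j → j ≤ FJ c Ex M y' φ → |dj n (F.X j) (F'.X j) φ.t| ≤ tiny y' := by
    intro j a b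
    by_cases tr : Tr c M y' φ
    · obtain ⟨e0, -, z1⟩ := G'.rf.trunc tr
      have es : Fs c M y φ = Fs c M y' φ := le_antisymm hs (e0 ▸ G.rf.lo)
      refine (d2 z1 (ev.mono fun σ h => ?_) n (by omega) j a b).trans (g1.trans (by linarith only [t0]))
      obtain ⟨p1, q1⟩ := h.1.start (G.rf.ref 1 (by norm_num) le_rfl)
        (show Fxi φ (Fs c M y φ - 1) = 0 from es ▸ z1)
      obtain ⟨p2, q2⟩ := h.2.start (G'.rf.ref 1 (by norm_num) le_rfl) z1
      have p3 : F.X (Fs c M y φ - 1) σ = (FR M φ).X (Fs c M y φ - 1) := p1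
      have q3 : F.η (Fs c M y φ - 1) σ = 0 := q1
      rw [es] at p3 q3
      exact ⟨p3.trans p2.symm, q3.trans q2.symm⟩
    · have h1 : y' ≤ (FR M φ).chi c (Fs c M y' φ) 0 := not_lt.1 tr
      obtain h2 := (FR M φ).chi_mono c (by linarith only [hN.chK_ge]) hN.chK_bl
        (show Fs c M y' φ - 1 ≤ Fs c M y' φ by omega) (le_refl 0)
      obtain h3 : (rd K E c Ex M y' φ w' (1 / 2)).κ 0 ≤ Lam K c y' ^ 2 * Real.exp (-y' / 2) :=
        (G'.rf.kchi (Fs c M y' φ - 1) 0 le_rfl (by omega) le_rfl).trans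
          (mul_le_mul_of_nonneg_left (Real.exp_le_exp.2 (by linarith only [h1, h2, hN.y_ge y1])) (by positivity))
      have h4 := mul_le_mul_of_nonneg_left h3 (pow_pos L0 e').le
      obtain h5 := hN.Lam_pow_tiny y1 (show e' + 2 ≤ 20 * E + 1000 by omega)
      rw [pow_add] at h5
      obtain h6 : _ ≤ Lam K c y' ^ e' * _ := d1 n (by omega) j a b
      linarith only [t0, g1, h4, h5, h6]
  exact ⟨fin 1 (by omega) J1, fin 0 le_rfl (by omega)⟩

end Pool.Agent.MP_9cbfe4_an.SS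

end

/-! ### Part RPRE -/

section

/-! Section S, rows RPRE and RTA: the second family seen from the first reference (helper63). -/

namespace Pool.Agent.MP_9cbfe4_an.SS

open Finset Filter Topology
open scoped ContDiff

noncomputable section

namespace RPRE

theorem mvt {f : ℝ → ℝ} {a h C τ : ℝ} (hd : ∀ σ, |σ - a| ≤ h → DifferentiableAt ℝ f σ)
    (hb : ∀ σ, |σ - a| ≤ h → |deriv f σ| ≤ C) (hτ : |τ - a| ≤ h) : |f τ - f a| ≤ C * h := by
  have h0 : 0 ≤ h := (abs_nonneg _).trans hτ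
  have ha : a ∈ Metric.closedBall a h := Metric.mem_closedBall_self h0
  obtain this := (convex_closedBall a h).norm_image_sub_le_of_norm_deriv_le (𝕜 := ℝ) (f := f) (C := C)
    (fun x hx => hd x (by simpa [Real.dist_eq] using hx))
    (fun x hx => by simpa using hb x (by simpa [Real.dist_eq] using hx)) ha
    (show τ ∈ Metric.closedBall a h by simpa [Real.dist_eq] using hτ)
  simp only [Real.norm_eq_abs] at this
  exact this.trans (mul_le_mul_of_nonneg_left hτ ((abs_nonneg _).trans (hb a (by simpa using h0))))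

theorem mvt2 {f f' : ℝ → ℝ} {a h C τ z : ℝ}
    (hd : ∀ σ, |σ - a| ≤ h → ContDiffAt ℝ ∞ f σ ∧ ContDiffAt ℝ ∞ f' σ)
    (hb : ∀ σ, |σ - a| ≤ h → |deriv f' σ - deriv f σ| ≤ C) (hτ : |τ - a| ≤ h)
    (h0 : |f' a - f a| ≤ z) : |f' τ - f τ| ≤ z + C * h := by
  obtain d : ∀ σ, |σ - a| ≤ h → DifferentiableAt ℝ f σ ∧ DifferentiableAt ℝ f' σ := fun σ hσ =>
    ⟨(hd σ hσ).1.differentiableAt (by simp), (hd σ hσ).2.differentiableAt (by simp)⟩
  obtain this := mvt (f := fun σ => f' σ - f σ) (fun σ hσ => (d σ hσ).2.sub (d σ hσ).1)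
    (fun σ hσ => by rw [deriv_fun_sub (d σ hσ).2 (d σ hσ).1]; exact hb σ hσ) hτ
  rw [abs_le] at this h0 ⊢
  constructor <;> linarith only [this.1, this.2, h0.1, h0.2]

theorem tri {a b c x y : ℝ} (h1 : |a - b| ≤ x) (h2 : |b - c| ≤ y) : |a - c| ≤ x + y :=
  (abs_sub_le a b c).trans (add_le_add h1 h2)

/-- the numbers -/
theorem nums {Λ S : ℝ} {E : ℕ} (h1 : 1000 ≤ Λ) (h2 : Λ ^ (20 * E + 1000) ≤ S) :
    0 < 1 / S ^ 3 ∧ 1000 * (1 / S ^ 3) ≤ 1 / S ^ 2 ∧ 1000 * (1 / S ^ 2) ≤ 1 / S ^ 2 * Λ ^ 8 ∧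
    1000 * (1 / S ^ 2 * Λ ^ 8) ≤ 1 / S ^ 2 * Λ ^ 10 ∧ 1000 * (1 / S ^ 2 * Λ ^ 10) ≤ 1 / Λ ^ E ∧
    (1 ≤ E → 1 / Λ ^ E ≤ 1 / Λ) ∧ 8 * Λ ^ (E + 2) ≤ S ∧ 1 ≤ S := by
  obtain l1 : (1 : ℝ) ≤ Λ := by linarith only [h1]
  have p : ∀ a b : ℕ, a ≤ b → Λ ^ a ≤ Λ ^ b := fun a b h => pow_le_pow_right₀ l1 h
  obtain q : ∀ a : ℕ, 1000 * Λ ^ a ≤ Λ ^ (a + 1) := fun a => by
    rw [pow_succ]; nlinarith only [h1, pow_pos (show (0 : ℝ) < Λ by linarith only [h1]) a]
  obtain s1 : 1000 ≤ S := by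
    obtain this := (p 1 _ (by omega)).trans h2
    rw [pow_one] at this; linarith only [h1, this]
  obtain s0 : 0 < S := by linarith only [s1]
  obtain i2 : 0 < 1 / S ^ 2 := by positivity
  refine ⟨by positivity, ?_, ?_, ?_, ?_, fun h => ?_, ?_, by linarith only [s1]⟩
  · rw [mul_one_div, div_le_div_iff₀ (by positivity) (by positivity)]
    nlinarith only [s1, pow_pos s0 2]
  · obtain this := (q 0).trans (p 1 8 (by omega))
    nlinarith only [i2, this]
  · obtain this := (q 8).trans (p 9 10 (by omega))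
    nlinarith only [i2, this]
  · obtain a : 1000 * Λ ^ (E + 10) ≤ S := (q _).trans ((p _ _ (by omega)).trans h2)
    obtain b : S ≤ S ^ 2 := by nlinarith only [s1]
    rw [one_div_mul_eq_div, ← mul_div_assoc, div_le_div_iff₀ (by positivity) (by positivity)]
    rw [pow_add] at a
    linarith only [a, b]
  · exact one_div_le_one_div_of_le (by linarith only [h1]) (by simpa using p 1 E h)
  · obtain a : 1000 * Λ ^ (E + 2) ≤ S := (q _).trans ((p _ _ (by omega)).trans h2)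
    linarith only [s1, a, pow_pos (show (0 : ℝ) < Λ by linarith only [h1]) (E + 2)]

theorem mem {t tU r τ : ℝ} (h0 : 0 < r) (h1 : |t - tU| ≤ r) (h2 : |τ - tU| ≤ 3 / 2 * r) :
    τ ∈ Set.Ioo (t - 3 * r) (t + 3 * r) ∧ |τ - t| ≤ 5 / 2 * r := by
  rw [abs_le] at h1 h2 ⊢
  refine ⟨⟨?_, ?_⟩, ?_, ?_⟩ <;> linarith only [h0, h1.1, h1.2, h2.1, h2.2]

theorem xi_ne {g N E P} (h : Ref g N E P) (h0 : P.ξ (P.s - 1) = 0) : P.ξ P.s ≠ 0 := by
  intro h1
  obtain H : ∀ n : ℕ, P.s + n ≤ 0 → P.ξ (P.s + n - 1) = 0 ∧ P.ξ (P.s + n) = 0 := by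
    intro n
    induction n with
    | zero => intro _; simpa using ⟨h0, h1⟩
    | succ n ih =>
      intro hn
      push_cast at hn ⊢
      obtain ⟨a, b⟩ := ih (by omega)
      refine ⟨by rw [show P.s + (n + 1) - 1 = P.s + n by ring]; exact b, ?_⟩
      rw [← add_assoc, h.ct.hc.sol _ (by omega) (by omega), a, b]
      simp
  have s0 := h.s0
  obtain this := (H (-P.s).toNat (by omega)).2
  rw [show P.s + ((-P.s).toNat : ℤ) = 0 by omega, h.ct.hc.one] at this
  exact one_ne_zero this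

end RPRE

open RPRE in
theorem rpre (hM : MUC_s) (K E e : ℕ) (c : Cs) (hE : 200 ≤ E) (he : e ≤ E) (hN : NuS K E c) :
    RPRE_s K E e c := by
  intro M _ Ex y tU φ w F φ' w' F' h
  have g := h.g
  have g' := h.g'
  have hy := g.rf.ok.y_lo
  obtain R1 := g.rf.ref 1 (by norm_num) le_rfl
  obtain R1' := g'.rf.ref 1 (by norm_num) le_rfl
  have s0 : Fs c M y φ ≤ 0 := R1.s0
  have J1 : 1 ≤ FJ c Ex M y φ := R1.J1
  obtain ⟨n0, n1, n2, n3, n4, n5, -, -⟩ := nums (E := E) R1.Λ_ge (hN.lam y hy).2.1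
  obtain n5 := n5 (by omega)
  change 0 < c.rU y at n0
  change 1000 * c.rU y ≤ _ at n1
  change _ ≤ rr K E c y at n4
  change rr K E c y ≤ 1 / Lam K c y at n5
  change _ ≤ 1 / c.S0 y ^ 2 * Lam K c y ^ 8 at n2
  change 1000 * (1 / c.S0 y ^ 2 * Lam K c y ^ 8) ≤ 1 / c.S0 y ^ 2 * Lam K c y ^ 10 at n3
  change 1000 * (1 / c.S0 y ^ 2 * Lam K c y ^ 10) ≤ _ at n4
  have δ0 : 0 < del c := R1.δ_pos
  obtain δ1 : del c ≤ 1 / 1000 := R1.δ_small (by omega)
  have muD : mu K c y (FR M φ) 1 ^ e * Dd c 1 (FR M φ) 1 ≤ del c := R1.mu1D he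
  have m := fun τ (hτ : |τ - tU| ≤ 3 / 2 * c.rU y) => mem n0 h.ht hτ
  have m' := fun τ (hτ : |τ - tU| ≤ 3 / 2 * c.rU y) => (mem n0 h.ht' hτ).1
  have tube' := g'.tube
  have sm' := g'.sm
  have jb' := g'.jb
  rw [h.hs, h.hJ] at tube' sm' jb'
  obtain sol' : ∀ τ ∈ Set.Ioo (φ'.t - 3 * c.rU y) (φ'.t + 3 * c.rU y),
      EqX M.GG τ (F'.x τ) (Fs c M y φ) (FJ c Ex M y φ) ∧
      EqE M.GG τ (F'.x τ) (F'.e τ) (Fs c M y φ) (FJ c Ex M y φ) ∧ F'.η 0 τ = 1 ∧
      F'.η (FJ c Ex M y φ) τ = 0 := fun τ hτ => by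
    rw [← h.hs, ← h.hJ]
    exact ⟨(g'.sol τ hτ).eqx, (g'.sol τ hτ).eqe, (g'.sol τ hτ).one, (g'.sol τ hτ).zero⟩
  obtain hU : |tU - tU| ≤ 3 / 2 * c.rU y := by simp only [sub_self, abs_zero]; linarith only [n0]
  constructor
  · intro l a b
    obtain rfl : l = 0 := le_antisymm b a
    obtain a1 := g.tube tU (m tU hU).1 0 (by omega) (by omega)
    obtain a2 := tube' tU (m' tU hU) 0 (by omega) (by omega)
    rw [abs_sub_comm] at a2
    have := tri (tri a2 h.c0) a1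
    linarith only [n0, n1, n2, n3, n4, this]
  intro τ hτ
  obtain b1 : |F'.X 0 τ - F.X 0 τ| ≤ c.rU y := by
    obtain this := mvt2 (f := F.X 0) (f' := F'.X 0) (C := 2 * del c)
      (fun σ hσ => ⟨(g.sm σ (m σ hσ).1 0 (by omega) (by omega)).1,
        (sm' σ (m' σ hσ) 0 (by omega) (by omega)).1⟩) (fun σ hσ => by
        obtain a1 := (g.jc σ (m σ hσ).1).1 1 le_rfl (by omega)
        obtain a2 := (g'.jc σ (m' σ hσ)).1 1 le_rfl (by omega)
        rw [iteratedDeriv_one] at a1 a2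
        rw [abs_le] at a1 a2 ⊢
        constructor <;> linarith only [a1.1, a1.2, a2.1, a2.2]) hτ h.c0
    nlinarith only [this, n0, δ0, δ1]
  obtain b2 : |F'.X 1 τ - F.X 1 τ| ≤ c.rU y := by
    obtain this := mvt2 (f := F.X 1) (f' := F'.X 1) (C := 2 / 10)
      (fun σ hσ => ⟨(g.sm σ (m σ hσ).1 1 (by omega) J1).1,
        (sm' σ (m' σ hσ) 1 (by omega) J1).1⟩) (fun σ hσ => by
        have a1 := (g.jc σ (m σ hσ).1).2.1
        have a2 := (g'.jc σ (m' σ hσ)).2.1
        rw [abs_le] at a1 a2 ⊢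
        constructor <;> linarith only [a1.1, a1.2, a2.1, a2.2]) hτ h.v0
    linarith only [n0, this]
  obtain b3 : |F.η 1 τ - F.η 1 tU| ≤ c.rU y := by
    obtain this := mvt (f := F.η 1) (C := del c)
      (fun σ hσ => (g.sm σ (m σ hσ).1 1 (by omega) J1).2.differentiableAt (by simp))
      (fun σ hσ => by
        obtain a1 := (g.jb σ (m σ hσ).1 1 (by omega) J1 1 (by omega)).2
        rw [iteratedDeriv_one] at a1
        exact a1.trans muD) hτ
    nlinarith only [n0, this, δ1]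
  obtain ht : |τ - φ.t| ≤ rr K E c y := by linarith only [n0, n1, n2, n3, n4, (m τ hτ).2]
  obtain ⟨f1, -, f3⟩ := ft _ _ _ _ τ R1 (by omega) ht
  have T := g.tube τ (m τ hτ).1
  have T' := tube' τ (m' τ hτ)
  have S := g.sol τ (m τ hτ).1
  obtain ⟨sx, se, s1, sJ⟩ := sol' τ (m' τ hτ)
  obtain fw : Tube (FR M φ) (F'.x τ) 0 (FJ c Ex M y φ) (3 * (1 / c.S0 y ^ 2) * Lam K c y ^ 8) := by
    refine f1 (F'.x τ) (3 * (1 / c.S0 y ^ 2)) (fun j a b => sx j (by omega) b) ?_ ?_ ?_ ?_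
    · change |τ - φ.t| ≤ _
      linarith only [n0, n1, (m τ hτ).2]
    · obtain this := tri b1 (T 0 (by omega) (by omega))
      exact this.trans (by linarith only [n0, n1])
    · obtain this := tri b2 (T 1 (by omega) J1)
      exact this.trans (by linarith only [n0, n1])
    · change _ * Lam K c y ^ 10 ≤ rr K E c y
      linarith only [n0, n1, n2, n3, n4]
  obtain b4 : |F'.η 1 τ - F.η 1 τ| ≤ c.rU y := by
    obtain this := f3 (F.x τ) (F.e τ) (F'.x τ) (F'.e τ) (c.rU y)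
      (fun j a b => S.eqx j (s0.trans (by omega)) b) (fun j a b => S.eqe j (s0.trans (by omega)) b)
      (fun j a b => sx j (by omega) b) (fun j a b => se j (by omega) b)
      (T.mono (by omega) le_rfl (by change _ ≤ rr K E c y; linarith only [n0, n1, n2, n3, n4]))
      (fw.mono le_rfl le_rfl (by change _ ≤ rr K E c y; linarith only [n0, n1, n2, n3, n4])) S.one s1 S.zero sJ b1 b2
    change _ ≤ del c * _ at this
    exact this.trans (by nlinarith only [n0, δ1])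
  obtain b5 : |F.η 1 τ| ≤ del c := by
    obtain a1 := (g.jb τ (m τ hτ).1 1 (by omega) J1 0 (by omega)).2
    rw [iteratedDeriv_zero] at a1
    exact a1.trans muD
  refine ⟨b1, b2, b3, b4, b5, fun i hi hi0 i' hi' hi0' cl => ?_⟩
  obtain ⟨M1, M2, -⟩ := hM K E c y hN hy
  obtain cls : ∀ j, i' ≤ j → j ≤ FJ c Ex M y φ → |(FR M φ').X j - (FR M φ).X j| ≤ 1 / Lam K c y := by
    intro j a b
    rcases le_total j 0 with d | d
    · linarith only [n0, n1, n5, n2, n3, n4, cl j a d]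
    · obtain a2 := T' j (by omega) b
      rw [abs_sub_comm] at a2
      linarith only [n0, n1, n5, n2, n3, n4, tri a2 (fw j d b)]
  obtain M1 := (M1 (FR M φ) (FR M φ') i' _ hi0' (by omega) cls).2
  have Dp : ∀ θ S j, 0 ≤ Dd c θ S j := fun _ _ _ => (Real.exp_pos _).le
  have mp : ∀ S j, 0 ≤ mu K c y S j := fun _ _ => (Real.exp_pos _).le
  refine ⟨ht, fun j a b => g.sm τ (m τ hτ).1 j (le_trans (by change _ ≤ i - 1; omega) a) b,
    fun j a b => sm' τ (m' τ hτ) j (le_trans (by change _ ≤ i - 1; omega) a) b, ?_, ?_,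
    T.mono (by change _ ≤ i - 1; omega) le_rfl (by change _ ≤ rr K E c y; linarith only [n0, n1, n2, n3, n4]), ?_, ?_, ?_⟩
  · filter_upwards [isOpen_Ioo.mem_nhds (m τ hτ).1] with σ hσ
    exact ⟨fun j a b => (g.sol σ hσ).eqx j (hi.trans a) b, fun j a b => (g.sol σ hσ).eqe j (hi.trans a) b,
      (g.sol σ hσ).one⟩
  · filter_upwards [isOpen_Ioo.mem_nhds (m' τ hτ)] with σ hσ
    obtain k : Fs c M y φ ≤ i + 1 := by omega
    exact ⟨fun j a b => (sol' σ hσ).1 j (k.trans a) b, fun j a b => (sol' σ hσ).2.1 j (k.trans a) b,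
      (sol' σ hσ).2.2.1⟩
  · intro j a b
    change |F'.x τ j - (FR M φ).X j| ≤ rr K E c y
    rcases le_total j 0 with d | d
    · linarith only [n0, n1, n2, n3, n4, hi, hi', tri (T' j (by omega) b) (cl j a d)]
    · linarith only [n0, n1, n2, n3, n4, fw j d b]
  · intro j a b n hn
    obtain ⟨k1, -, k3⟩ := M2 (FR M φ) j 1 (1 / 2) (by norm_num)
    obtain ⟨a1, a2⟩ := g.jb τ (m τ hτ).1 j (le_trans (by change _ ≤ i - 1; omega) a) b n hn
    obtain p : mu K c y (FR M φ) j ^ e ≤ mu K c y (FR M φ) j ^ (2 * e) := pow_le_pow_right₀ k1 (by omega)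
    exact ⟨fun x => (a1 x).trans p, a2.trans (mul_le_mul p k3 (Dp _ _ _) (pow_nonneg (mp _ _) _))⟩
  · intro j a b n hn
    obtain ⟨-, -, k3⟩ := M2 (FR M φ) j (9 / 10) (1 / 2) (by norm_num)
    obtain ⟨k1, k2⟩ := M1 j a b
    obtain ⟨a1, a2⟩ := jb' τ (m' τ hτ) j (by omega) b n hn
    obtain p : mu K c y (FR M φ') j ^ e ≤ mu K c y (FR M φ) j ^ (2 * e) := by
      rw [pow_mul]; exact pow_le_pow_left₀ (mp _ _) k1 e
    exact ⟨fun x => (a1 x).trans p,
      a2.trans (mul_le_mul p (k2.trans k3) (Dp _ _ _) (pow_nonneg (mp _ _) _))⟩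

open RPRE in
theorem rta (hD : DCL_s) (K e : ℕ) :
    ∃ E0, ∀ E ≥ E0, ∀ c, NuS K E c → RPRE_s K E e c → RTA_s K E e c := by
  obtain ⟨e', hD⟩ := hD (K + 4) (2 * e)
  refine ⟨e', fun E hE c hN hP M hM Ex y tU φ w F φ' w' F' h τ hτ n hn => ?_⟩
  have g := h.g
  have g' := h.g'
  have hy := g.rf.ok.y_lo
  obtain R := g.rf.ref (1 / 2) le_rfl (by norm_num)
  obtain R' := g'.rf.ref 1 (by norm_num) le_rfl
  obtain R1 := g.rf.ref 1 (by norm_num) le_rfl
  have s0 : Fs c M y φ ≤ 0 := R.s0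
  have J1 : 1 ≤ FJ c Ex M y φ := R.J1
  obtain ⟨n0, n1, n2, n3, n4, -, n6, n7⟩ := nums (E := E) R.Λ_ge (hN.lam y hy).2.1
  change 0 < c.rU y at n0
  change 8 * Lam K c y ^ (E + 2) ≤ _ at n6
  have r0 : 0 < rr K E c y := R.r0
  have m := (mem n0 h.ht hτ).1
  have m' := (mem n0 h.ht' hτ).1
  obtain ⟨-, -, -, -, -, two⟩ := (hP M hM Ex y tU φ w F φ' w' F' h).2 τ hτ
  obtain key : ∀ i, Fs c M y φ ≤ i → i ≤ 0 → Cl K E c M y φ φ' (i - 1) →
      (∀ j, 0 ≤ j → j ≤ 1 → |dj n (F'.X j) (F.X j) τ| ≤ Lam K c y ^ E * (FR M φ).kp w (i - 1) 0) ∧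
      (Fxi φ (i - 1) = 0 → (∀ᶠ σ in 𝓝 τ, F'.X (i - 1) σ = F.X (i - 1) σ ∧
        F'.η (i - 1) σ = F.η (i - 1) σ) → ∀ j, 0 ≤ j → j ≤ 1 → |dj n (F'.X j) (F.X j) τ| ≤ 0) := by
    intro i a b cl
    have Ri := rfrom _ _ _ _ i R a b
    obtain ⟨d1, d2⟩ := hD _ E _ τ F F' 0 Ri hE (two i a b (i - 1) le_rfl (by omega) cl) (by
      filter_upwards [isOpen_Ioo.mem_nhds m'] with σ hσ
      have k : Fs c M y φ' ≤ i := h.hs ▸ a
      exact ⟨fun j x z => (g'.sol σ hσ).eqx j (k.trans x) (lt_of_lt_of_eq z h.hJ.symm),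
        fun j x z => (g'.sol σ hσ).eqe j (k.trans x) (lt_of_lt_of_eq z h.hJ.symm)⟩) le_rfl (by
      intro l _
      obtain e : F'.η (FJ c Ex M y φ) =ᶠ[𝓝 τ] F.η (FJ c Ex M y φ) := by
        filter_upwards [isOpen_Ioo.mem_nhds m, isOpen_Ioo.mem_nhds m'] with σ hσ hσ'
        have z1 : F.η (FJ c Ex M y φ) σ = 0 := (g.sol σ hσ).zero
        have z2 : F'.η (FJ c Ex M y φ') σ = 0 := (g'.sol σ hσ').zero
        rw [z1, ← h.hJ, z2]
      change |dj l (F'.η (FJ c Ex M y φ)) (F.η (FJ c Ex M y φ)) τ| ≤ 0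
      rw [dj, e.iteratedDeriv_eq, sub_self, abs_zero])
    refine ⟨fun j x z => ?_, fun u v j x z => ?_⟩
    · have k := d1 n hn j x (z.trans J1)
      obtain k0 := Ri.κ_nonneg (j := 0) (by change i - 1 ≤ 0; omega)
      rw [add_zero] at k
      refine k.trans ((mul_le_mul_of_nonneg_right (Ri.Λ_pow hE) k0).trans (le_of_eq ?_))
      rw [RD.κ, min_self]; rfl
    · simpa using d2 u v n hn j x (z.trans J1)
  obtain first : ∀ i, Fs c M y φ - 1 ≤ i → i ≤ -1 → Cl K E c M y φ φ' i →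
      |dj n (F'.X 0) (F.X 0) τ| ≤ Lam K c y ^ E * (FR M φ).kp w i 0 ∧
      |dj n (F'.X 1) (F.X 1) τ| ≤ Lam K c y ^ E * (FR M φ).kp w i 0 := by
    intro i a b cl
    obtain k := (key (i + 1) (by omega) (by omega) (by rwa [add_sub_cancel_right])).1
    rw [add_sub_cancel_right] at k
    exact ⟨k 0 le_rfl zero_le_one, k 1 zero_le_one le_rfl⟩
  refine ⟨first, fun cl => ?_⟩
  have t0 : 0 < tiny y := Real.exp_pos _
  by_cases tr : Tr c M y φ
  · obtain ⟨-, x1, x2⟩ := g.rf.trunc tr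
    obtain ⟨-, x1', x2'⟩ := g'.rf.trunc (h.tr.2 tr)
    obtain cl' : Cl K E c M y φ φ' (Fs c M y φ - 1) := by
      intro l a b
      rcases a.eq_or_lt with rfl | a
      · rw [h.hs] at x1'
        rw [x1, x1', sub_self, abs_zero]; linarith only [r0]
      · exact cl l (by omega) b
    obtain k := (key _ le_rfl s0 cl').2 x2 (by
      filter_upwards [isOpen_Ioo.mem_nhds m, isOpen_Ioo.mem_nhds m'] with σ hσ hσ'
      have u := xi_ne R1 x2
      have u' := xi_ne R' x2'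
      have l1 := (g.sol σ hσ).linx
      have l2 := (g.sol σ hσ).line
      have l1' := (g'.sol σ hσ').linx
      have l2' := (g'.sol σ hσ').line
      simp only [rd, Fm.x, Fm.e] at u u' l1 l2 l1' l2'
      rw [x2, zero_mul] at l1 l2
      rw [x2', zero_mul] at l1' l2'
      rw [x1] at l1
      rw [x1'] at l1'
      have q1 := (mul_eq_zero.1 l1).resolve_left u
      have q2 := (mul_eq_zero.1 l2).resolve_left u
      have q1' := (mul_eq_zero.1 l1').resolve_left u'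
      have q2' := (mul_eq_zero.1 l2').resolve_left u'
      rw [h.hs] at q1' q2'
      exact ⟨by linarith only [q1, q1'], by rw [q2, q2']⟩)
    exact ⟨(k 0 le_rfl zero_le_one).trans (by linarith only [t0]), (k 1 zero_le_one le_rfl).trans (by linarith only [t0])⟩
  · have tr : y ≤ (FR M φ).chi c (Fs c M y φ) 0 := not_lt.1 tr
    obtain y0 : 0 < y := by linarith only [hy, hN.chK.2.2]
    obtain s1 : Fs c M y φ ≤ -1 := by
      by_contra hc
      obtain e : Fs c M y φ = 0 := by omega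
      rw [e] at tr
      simp only [Sq.chi, Ioc_self, sum_empty] at tr
      linarith only [y0, tr]
    obtain k := first _ (by omega) s1 cl
    obtain b : Lam K c y ^ E * (FR M φ).kp w (Fs c M y φ) 0 ≤ tiny y / 8 := by
      have l0 : 0 < Lam K c y := Real.exp_pos _
      obtain a1 := g.rf.kchi (Fs c M y φ) 0 (by omega) s0 le_rfl
      obtain a2 : c.S0 y ≤ Real.exp (y / 100) :=
        (le_self_pow₀ n7 (by norm_num)).trans (hN.lam y hy).2.2.1
      obtain a3 : Real.exp (-(FR M φ).chi c (Fs c M y φ) 0) ≤ Real.exp (-y) :=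
        Real.exp_le_exp.2 (by linarith only [tr])
      obtain a4 : Real.exp (y / 100) * Real.exp (-y) ≤ tiny y := by
        rw [← Real.exp_add]; exact Real.exp_le_exp.2 (by linarith only [y0])
      calc Lam K c y ^ E * (FR M φ).kp w (Fs c M y φ) 0
          ≤ Lam K c y ^ E * (Lam K c y ^ 2 * Real.exp (-y)) := by
            gcongr
            exact a1.trans (by (clear * - a3 l0; gcongr))
        _ = 8 * Lam K c y ^ (E + 2) * Real.exp (-y) / 8 := by ring
        _ ≤ Real.exp (y / 100) * Real.exp (-y) / 8 := by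
            gcongr
            exact n6.trans a2
        _ ≤ tiny y / 8 := by linarith only [a4]
    exact ⟨k.1.trans b, k.2.trans b⟩

end
end Pool.Agent.MP_9cbfe4_an.SS

end

/-! ### Part SUBW -/

section

/-! Row SUBW: every final part of a tame window is a window. -/

namespace Pool.Agent.MP_9cbfe4_an

open Finset

namespace SUBW

theorem log_max {x x' m : ℝ} (hx : 0 < x) (h : x ≤ x') :
    Real.log (max x' m / max x m) ≤ Real.log (x' / x) := by
  have h1 : 0 < max x m := lt_max_of_lt_left hx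
  have h2 : 0 < max x' m := lt_max_of_lt_left (hx.trans_le h)
  refine Real.log_le_log (div_pos h2 h1) ?_
  rw [div_le_div_iff₀ h1 hx]
  rcases le_total x' m with e | e
  · rw [max_eq_right e, max_eq_right (h.trans e)]
    nlinarith only [hx, h, e, hx.trans_le (h.trans e)]
  · rw [max_eq_left e]
    exact mul_le_mul_of_nonneg_left (le_max_left _ _) (hx.le.trans h)

theorem cert_sub {c : Cs} {S : Sq} {θ : ℝ} {w A : ℤ → ℝ} {s n i : ℤ} (hL : 0 ≤ c.L)
    (h : S.Cert c θ w A s n) (si : s ≤ i) (hi : i ≤ n) :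
    S.Cert c θ w (fun j => max (A j) (w i)) i n := by
  refine ⟨?_, fun j a b => h.pos' j (by omega) b, fun j a b => h.backK j (by omega) b,
    fun j a b => h.back j (by omega) b, fun j a b => h.fwd j (by omega) b,
    fun j l a b e => max_le_max_right _ (h.mono j l (by omega) b e),
    lt_max_of_lt_right (h.pos' i si hi), fun j a b => ?_⟩
  · rcases si.eq_or_lt with rfl | e
    · exact h.pos
    · exact (h.pos' _ (by omega) (by omega)).le
  · refine le_trans ?_ ((h.dd j (by omega) b).trans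
      (mul_le_mul_of_nonneg_right (le_max_left _ _) (h.pos' j (by omega) b).le))
    exact sum_le_sum_of_subset_of_nonneg (Ico_subset_Ico_left si) fun l _ _ => by (clear * - hL; positivity)

/-- the cost of the final part -/
theorem cost_sub {c : Cs} {S : Sq} {θ K C : ℝ} {w A : ℤ → ℝ} {s n i : ℤ} {Rg Rg1 : Finset ℤ}
    (h : S.Cert c θ w A s n) (si : s ≤ i) (hi : i ≤ n) (lo : w s ≤ A s) (hl : 1 ≤ c.lam) (K0 : 0 ≤ K)
    (hw : ∀ j, s ≤ j → j ≤ i → w j ≤ Real.exp K * w i)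
    (reg : ∀ j ∈ Rg, A (j + 1) ≤ c.lam * w j)
    (mem : ∀ j, i ≤ j → j ∈ Rg → w i ≤ A (j + 1) → j ∈ Rg1)
    (cost : Real.log (A s / w s) + ∑ j ∈ Ico s n \ Rg, Real.log (A (j + 1) / A j) ≤ C) :
    Real.log (max (A i) (w i) / w i) +
      ∑ j ∈ Ico i n \ Rg1, Real.log (max (A (j + 1)) (w i) / max (A j) (w i)) ≤
      K + Real.log c.lam + 2 * C := by
  classical
  have Ap : ∀ j, s ≤ j → j ≤ n → 0 < A j := fun j a b => h.Apos.trans_le (h.mono s j le_rfl a b)
  obtain f0 : ∀ j, s ≤ j → j < n → 0 ≤ Real.log (A (j + 1) / A j) := fun j a b =>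
    Real.log_nonneg ((one_le_div (Ap j a b.le)).2 (h.mono _ _ a (by omega) (by omega)))
  have ws := h.pos' s le_rfl (si.trans hi)
  have wi := h.pos' i si hi
  have g0 : 0 ≤ Real.log (A s / w s) := Real.log_nonneg ((one_le_div ws).2 lo)
  have l0 : 0 ≤ Real.log c.lam := Real.log_nonneg hl
  obtain sub : ∀ p q, s ≤ p → q ≤ n → ∑ j ∈ Ico p q \ Rg, Real.log (A (j + 1) / A j) ≤
      ∑ j ∈ Ico s n \ Rg, Real.log (A (j + 1) / A j) := fun p q a b =>
    sum_le_sum_of_subset_of_nonneg (sdiff_subset_sdiff (Ico_subset_Ico a b) Subset.rfl)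
      fun j hj _ => by
        have := mem_Ico.1 (mem_sdiff.1 hj).1
        exact f0 j this.1 this.2
  obtain nn : ∀ q, q ≤ n → 0 ≤ ∑ j ∈ Ico s q \ Rg, Real.log (A (j + 1) / A j) := fun q b =>
    sum_nonneg fun j hj => by
      have := mem_Ico.1 (mem_sdiff.1 hj).1
      exact f0 j this.1 (by omega)
  obtain key : ∀ m, s ≤ m → m ≤ i → Real.log (A m) ≤ Real.log (w i) + K + Real.log c.lam +
      Real.log (A s / w s) + ∑ j ∈ Ico s m \ Rg, Real.log (A (j + 1) / A j) := by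
    intro m hm
    induction m, hm using Int.leInduction with
    | base =>
      intro _
      have e := Real.log_le_log ws (hw s le_rfl si)
      rw [Real.log_mul (Real.exp_pos _).ne' wi.ne', Real.log_exp] at e
      rw [Real.log_div h.Apos.ne' ws.ne']
      simp only [Ico_self, empty_sdiff, sum_empty]
      linarith only [l0, e]
    | succ m hm ih =>
      intro hm'
      by_cases r : m ∈ Rg
      · obtain wm := h.pos' m hm (by omega)
        obtain e := Real.log_le_log wm (hw m hm (by omega))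
        rw [Real.log_mul (Real.exp_pos _).ne' wi.ne', Real.log_exp] at e
        obtain e' := Real.log_le_log (Ap _ (by omega) (by omega)) (reg m r)
        rw [Real.log_mul (by linarith only [hl]) wm.ne'] at e'
        linarith only [g0, e, e', hi, hm', nn (m + 1) (by omega)]
      · obtain e : Ico s (m + 1) \ Rg = insert m (Ico s m \ Rg) := by
          ext x
          simp only [mem_insert, mem_sdiff, mem_Ico]
          constructor
          · rintro ⟨⟨a, b⟩, d⟩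
            by_cases e : x = m
            · exact Or.inl e
            · exact Or.inr ⟨⟨a, by omega⟩, d⟩
          · rintro (rfl | ⟨⟨a, b⟩, d⟩)
            · exact ⟨⟨hm, by omega⟩, r⟩
            · exact ⟨⟨a, by omega⟩, d⟩
        rw [e, sum_insert (by simp),
          Real.log_div (Ap (m + 1) (by omega) (by omega)).ne' (Ap m hm (by omega)).ne']
        linarith only [hm', ih (by omega)]
  obtain t1 : Real.log (max (A i) (w i) / w i) ≤ K + Real.log c.lam + C := by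
    rcases le_total (A i) (w i) with e | e
    · rw [max_eq_right e, div_self wi.ne', Real.log_one]
      linarith only [K0, cost, g0, l0, nn n le_rfl]
    · rw [max_eq_left e, Real.log_div (Ap i si hi).ne' wi.ne']
      linarith only [cost, key i si le_rfl, sub s i le_rfl hi]
  obtain t2 : ∑ j ∈ Ico i n \ Rg1, Real.log (max (A (j + 1)) (w i) / max (A j) (w i)) ≤
      ∑ j ∈ Ico i n \ Rg, Real.log (A (j + 1) / A j) := by
    rw [← sum_filter_add_sum_filter_not _ (fun j => j ∈ Rg)]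
    obtain u1 : ∑ j ∈ (Ico i n \ Rg1).filter (fun j => j ∈ Rg),
        Real.log (max (A (j + 1)) (w i) / max (A j) (w i)) = 0 := by
      refine sum_eq_zero fun j hj => ?_
      simp only [mem_filter, mem_sdiff, mem_Ico] at hj
      have e : A (j + 1) ≤ w i := le_of_not_ge fun e => hj.1.2 (mem j hj.1.1.1 hj.2 e)
      obtain e' := h.mono j (j + 1) (by omega) (by omega) (by omega)
      rw [max_eq_right e, max_eq_right (e'.trans e), div_self wi.ne', Real.log_one]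
    rw [u1, zero_add]
    refine (sum_le_sum fun j hj => ?_).trans (sum_le_sum_of_subset_of_nonneg (fun j hj => ?_)
      fun j hj _ => ?_)
    · simp only [mem_filter, mem_sdiff, mem_Ico] at hj
      exact log_max (Ap j (by omega) (by omega)) (h.mono j (j + 1) (by omega) (by omega) (by omega))
    · simp only [mem_filter, mem_sdiff, mem_Ico] at hj ⊢
      exact ⟨hj.1.1, hj.2⟩
    · simp only [mem_sdiff, mem_Ico] at hj
      exact f0 j (by omega) hj.1.2
  linarith only [cost, g0, t1, t2, sub i n si le_rfl]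

theorem main {c : Cs} (N : YSH.Nm c) (hβ : 1 / c.a ≤ c.β) (hS : SOK_s c) : SUBW_s c := by
  classical
  intro M hM y ρ t v ξ n s w A Rg i hy hρ ht hv far hT si hi
  obtain ⟨o1, o2⟩ := (hS M hM t ht).2.1 v hv
  have o3 := (hS M hM t ht).2.2
  obtain ⟨s0, sn, c1, -, ce, mj, -, wn, pw, -, sub, reg, runs, cost, lo⟩ := hT
  have a0 := N.a0
  have a1 := N.a1
  have hl2 := Real.log_two_gt_d9
  obtain k0 : 0 < c.chK := by linarith only [a0, a1, hl2, N.k0]
  obtain b0 : 0 < c.bl := by linarith only [k0, N.kb]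
  obtain y0 : 0 < y := by linarith only [hy, b0]
  obtain ρ0 : 0 < ρ := by linarith only [hρ, y0]
  have hL := N.big.L
  have hlam := N.big.lam
  obtain ab : 10000 ≤ c.a * c.bl := by nlinarith only [a1, a0, N.ab]
  obtain ay : c.a * c.bl ≤ 4 * (c.a * y) := by nlinarith only [hy, a0]
  obtain aρ : 3 * (c.a * y) ≤ c.a * ρ := by nlinarith only [hρ, a0]
  obtain la : c.lam ≤ c.a * c.bl := by
    rw [div_le_iff₀ a0] at hβ
    unfold Cs.bl
    nlinarith only [hβ, hlam]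
  set O := M.O t v with hO
  have wi := ce.pos' i si hi
  obtain d : ∀ {p q k : ℝ}, p ≤ k * q → p / w i ≤ k * (q / w i) := fun h => by
    rw [← mul_div_assoc]; exact div_le_div_of_nonneg_right h wi.le
  obtain cs : O.chi c (s - 1) n ≤ y + 2 * c.bl := by
    obtain e1 := O.chi_add c (show s - 1 ≤ s by omega) (show s ≤ s + 1 by omega)
    have e2 := O.chi_succ c (s - 1)
    have e3 := O.chi_succ c s
    rw [sub_add_cancel] at e2
    have e4 := (O.ch1_mem c N.kb s).2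
    have e5 := (O.ch1_mem c N.kb (s + 1)).2
    rcases sn.eq_or_lt with rfl | h
    · linarith only [b0, y0, e2, e4]
    · rw [O.chi_add c (show s - 1 ≤ s + 1 by omega) (show s + 1 ≤ n by omega)]; linarith only [c1, e1, e2, e3, e4, e5]
  obtain q1 : ∀ j, s - 1 ≤ j → 3 * c.a * (O.chi c j n + 2 * c.bl) ≤ 51 * (c.a * y) := fun j hj => by
    have q0 := O.chi_mono c k0.le N.kb hj (le_refl n)
    linarith only [mul_le_mul_of_nonneg_left
      (show O.chi c j n + 2 * c.bl ≤ 17 * y by linarith only [q0, cs, hy]) a0.le]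
  obtain hN : ((n - i : ℤ) : ℝ) - 1 ≤ ρ := by
    obtain h1 : c.chK * ((n - i : ℤ) - 1) ≤ y := by
      rcases hi.eq_or_lt with rfl | h
      · simp; linarith only [k0, y0]
      · obtain this := (O.chi_ge c N.kb (show i + 1 ≤ n by omega)).trans
          (O.chi_mono c k0.le N.kb (show s + 1 ≤ i + 1 by omega) (le_refl n))
        push_cast at this ⊢; linarith only [c1, this]
    by_contra h
    obtain h3 := mul_le_mul (show 69 / 100 ≤ c.chK by linarith only [N.k0, hl2]) (not_le.1 h).le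
      (by positivity) k0.le
    linarith only [h1, h3, hρ, y0]
  obtain ρ1 : 3 ≤ ρ := by
    have := mul_le_mul_of_nonneg_right a1 ρ0.le
    linarith only [this, aρ, ay, ab]
  set Rg1 := Rg.filter fun j => i ≤ j ∧ w i ≤ A (j + 1) with hRg1
  have m1 : ∀ j, j ∈ Rg1 ↔ j ∈ Rg ∧ i ≤ j ∧ w i ≤ A (j + 1) := fun j => mem_filter
  obtain mem : ∀ j, j ∈ Rg1.image (fun j => j - i) ↔ j + i ∈ Rg1 := fun j => by
    simp only [mem_image]
    exact ⟨fun ⟨l, h, e⟩ => by rwa [← e, sub_add_cancel], fun h => ⟨_, h, by ring⟩⟩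
  refine ⟨fun j => max (A (j + i)) (w i) / w i, Rg1.image fun j => j - i,
    ⟨ht, ?_, by omega, ?_, fun j hj => ?_, fun j hj u u' => ?_,
      YSH.cert_shift wi (cert_sub N.big.L_pos.le ce si hi),
      YSH.maj_shift wi ⟨fun j a b => mj.1 j (by omega) b, fun j a b => mj.2 j (by omega) b⟩,
      by simp [wi.ne'], (one_le_div wi).2 (le_max_right _ _), ?_, ?_, fun l j u1 u2 u3 => ?_,
      fun j hj => ?_, fun j hj => ?_, ?_, ?_⟩,
    fun j hj => ((m1 _).1 ((mem j).1 hj)).1, by linarith only [hN, ρ1]⟩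
  · simpa using (o3 O 0 i o1 (by omega)).1.shift i
  · obtain h3 := Real.quadratic_le_exp_of_nonneg (show 0 ≤ c.a * ρ by positivity)
    obtain h4 : 33 * ρ ≤ (c.a * ρ) ^ 2 := by
      obtain this : 33 ≤ c.a ^ 2 * ρ := by
        linarith only [N.ab, mul_le_mul_of_nonneg_left
          (show 3 / 4 * c.bl ≤ ρ by linarith only [hy, hρ]) (sq_nonneg c.a)]
      linarith only [mul_le_mul_of_nonneg_right this ρ0.le]
    unfold Cs.E
    rw [one_mul]
    linarith only [h3, h4, hN, ρ1, mul_pos a0 ρ0]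
  · show |O.X (j + i)| ≤ _
    rcases lt_trichotomy (j + i) 0 with h | h | h
    · rw [o2.past _ h, abs_of_pos (by norm_num)]; linarith only [a0, a1, hL]
    · obtain e : O.X 0 = v := by simp [hO, Mdl.O, Mdl.orb, Mdl.pos]
      rw [h, e, abs_of_nonneg hv.1]; linarith only [a0, a1, hL, hv.2]
    · obtain e := o1.step (j + i - 1) (by omega)
      rw [sub_add_cancel] at e
      obtain g := abs_le.1 (hM.val t _ _ ht (o1.box (j + i - 1) (by omega))
        (o1.box (j + i - 1 - 1) (by omega)))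
      rw [← e] at g
      have g1 := Real.cos_le_one (O.X (j + i - 1))
      have g2 := Real.neg_one_le_cos (O.X (j + i - 1))
      obtain g3 : (1 - c.e0) * c.w0 ≤ 1 / 256 := by
        linarith only [N.big.w0_le, mul_pos N.big.w0_pos N.big.e0_pos]
      have g4 := mul_le_mul_of_nonneg_right g3 N.big.L_pos.le
      have g5 := ht.1
      have g6 := ht.2
      have g7 := mul_le_mul_of_nonneg_left g1 N.big.L_pos.le
      have g8 := mul_le_mul_of_nonneg_left g2 N.big.L_pos.le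
      refine abs_le.2 ⟨?_, ?_⟩ <;> linarith only [g.1, g.2, g4, g5, g6, g7, g8, hL]
  · obtain u1 : dP (O.X (j + i + 1)) < 5 / 100 := by rw [add_right_comm]; exact u
    have u2 : dP (O.X (j + i)) < 5 / 100 := u'
    rcases lt_or_ge (j + i) 0 with h | h
    · rw [o2.past _ h] at u2
      have := SOK.abs_le_dP 10
      rw [abs_of_pos (by norm_num)] at this
      linarith only [a0, a1, u2, this]
    · exact (o3 O 0 (j + i) o1 h).2.2.2.2 u1 u2
  · rw [sub_add_cancel, abs_div, abs_of_pos wi]; exact d wn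
  · show 2 / 100 ≤ dP (O.X (n - i + i))
    rwa [sub_add_cancel]
  · obtain ⟨p1, p2, p3⟩ := pw (l + i) (j + i) (by omega) (by omega) (by omega)
    obtain q : 3 * c.a * (O.chi c (l + i) n + 2 * c.bl) ≤ 40 * (c.a * ρ) := by
      linarith only [q1 (l + i) (by omega), aρ, mul_pos a0 y0]
    have q2 : Real.exp (3 * c.a * (O.chi c (l + i) n + 2 * c.bl)) ≤ c.E ρ 40 :=
      Real.exp_le_exp.2 q
    obtain wj := (ce.pos' (j + i) (by omega) (by omega)).le
    rw [YSH.PB_shift, Sq.chi_shift, YSH.Bc_shift c O w wi.ne']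
    refine ⟨d (p1.trans (mul_le_mul_of_nonneg_right q2 wj)), ?_, p3.trans q2⟩
    rw [← mul_div_assoc]
    refine d (p2.trans (mul_le_mul_of_nonneg_right ?_ wj))
    rw [Cs.E, ← Real.exp_add]
    exact Real.exp_le_exp.2 (by linarith only [q])
  · obtain ⟨p1, p2, -⟩ := (m1 _).1 ((mem j).1 hj)
    have := mem_Ico.1 (sub p1)
    exact mem_Ico.2 ⟨by omega, by omega⟩
  · obtain ⟨r1, -, r3⟩ := (m1 _).1 ((mem j).1 hj)
    obtain ⟨p1, p2, p3⟩ := reg _ r1
    rw [abs_div, abs_of_pos wi, show j + 1 + i = j + i + 1 by ring, max_eq_left r3]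
    exact ⟨p1, d p2, d p3⟩
  · obtain e : ((Ico 0 (n - i)).filter fun j => j ∉ Rg1.image (fun j => j - i) ∧
        (j - 1 ∈ Rg1.image (fun j => j - i) ∨ j = 0)).card ≤
        (insert i ((Ico s n).filter fun j => j ∉ Rg ∧ (j - 1 ∈ Rg ∨ j = s))).card := by
      refine card_le_card_of_injOn (fun j => j + i) (fun j hj => ?_) fun j _ l _ h => by
        simpa using h
      simp only [coe_filter, mem_Ico, Set.mem_ofPred_eq, mem, m1, coe_insert, Set.mem_insert_iff]
        at hj ⊢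
      obtain ⟨⟨h1, h2⟩, h3, h4 | rfl⟩ := hj
      · rw [show j - 1 + i = j + i - 1 by ring, sub_add_cancel] at h4
        refine Or.inr ⟨⟨by omega, by omega⟩, fun h5 => h3 ⟨h5, by omega, ?_⟩, Or.inl h4.1⟩
        exact h4.2.2.trans (ce.mono _ _ (by omega) (by omega) (by omega))
      · exact Or.inl (zero_add i)
    have e' : _ ≤ (_ : ℝ) := Nat.cast_le.2 (e.trans (card_insert_le _ _))
    obtain r1 : 1 / 4 ≤ y / c.bl := by rw [le_div_iff₀ b0]; linarith only [hy]
    obtain r2 : 3 * (y / c.bl) ≤ ρ / c.bl := by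
      rw [← mul_div_assoc]; exact div_le_div_of_nonneg_right hρ b0.le
    rw [mul_div_assoc]
    push_cast at e'
    linarith only [e', runs, r1, r2]
  · obtain e : ∑ j ∈ Ico 0 (n - i) \ Rg1.image (fun j => j - i),
        Real.log (max (A (j + 1 + i)) (w i) / w i / (max (A (j + i)) (w i) / w i)) =
        ∑ j ∈ Ico i n \ Rg1, Real.log (max (A (j + 1)) (w i) / max (A j) (w i)) := by
      refine sum_nbij' (fun j => j + i) (fun j => j - i) (fun j hj => ?_) (fun j hj => ?_)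
        (fun j _ => by simp) (fun j _ => by simp) fun j _ => ?_
      · simp only [mem_sdiff, mem_Ico, mem] at hj ⊢
        exact ⟨⟨by omega, by omega⟩, hj.2⟩
      · simp only [mem_sdiff, mem_Ico, mem] at hj ⊢
        rw [sub_add_cancel]
        exact ⟨⟨by omega, by omega⟩, hj.2⟩
      · rw [div_div_div_cancel_right₀ wi.ne', add_right_comm]
    rw [e, zero_add]
    refine (cost_sub (K := 51 * (c.a * y)) ce si hi lo (by linarith only [a0, a1, hlam]) (by positivity)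
      (fun j a b => ?_) (fun j hj => (reg j hj).2.2) (fun j a b e => (m1 j).2 ⟨b, a, e⟩)
      cost).trans ?_
    · rcases b.eq_or_lt with rfl | b
      · exact le_mul_of_one_le_left wi.le (Real.one_le_exp (by positivity))
      · exact (pw j i (by omega) b hi).1.trans
          (mul_le_mul_of_nonneg_right (Real.exp_le_exp.2 (q1 j (by omega))) wi.le)
    · have := Real.log_le_sub_one_of_pos N.big.lam_pos
      linarith only [this, la, ay, aρ, mul_pos a0 y0]

end SUBW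

theorem subw : Hier fun c => SOK_s c → SUBW_s c :=
  (YSH.nm.and (Hier.β_ge (fun c => 1 / c.a) fun _ _ _ => rfl)).mono fun _ h hS =>
    SUBW.main h.1 h.2 hS

end Pool.Agent.MP_9cbfe4_an

end

/-! ### Part D7S -/

section

/-! Row D7S: the source of the block identity is stable. -/

namespace Pool.Agent.MP_9cbfe4_an

open Finset Real

namespace D7S

theorem quot {a a' b b' u g δ A A' B : ℝ} (hu : 0 < u) (hg : 0 < g) (hδ : 0 ≤ δ) (hA : 0 ≤ A)
    (hA' : 0 ≤ A') (hB : 0 ≤ B) (h1 : |a| ≤ A * u) (h2 : |a' - a| ≤ δ * A' * u) (h3 : u ≤ g * |b|)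
    (h4 : u ≤ 2 * g * |b'|) (h5 : |b' - b| ≤ δ * B * u) :
    |a' / b' - a / b| ≤ δ * (2 * g * A' + 2 * g ^ 2 * A * B) := by
  have hb : 0 < |b| := pos_of_mul_pos_left' (hu.trans_le h3) hg
  obtain hb' : 0 < |b'| := pos_of_mul_pos_left' (hu.trans_le h4) (by positivity)
  obtain e : a' / b' - a / b = (a' - a) / b' - a / b * ((b' - b) / b') := by
    have := abs_pos.1 hb
    have := abs_pos.1 hb'
    field_simp
    ring
  obtain q1 : |(a' - a) / b'| ≤ δ * A' * (2 * g) := by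
    rw [abs_div, div_le_iff₀ hb', mul_assoc]
    exact h2.trans (mul_le_mul_of_nonneg_left h4 (by positivity))
  obtain q2 : |a / b| ≤ A * g := by
    rw [abs_div, div_le_iff₀ hb, mul_assoc]
    exact h1.trans (mul_le_mul_of_nonneg_left h3 hA)
  obtain q3 : |(b' - b) / b'| ≤ δ * B * (2 * g) := by
    rw [abs_div, div_le_iff₀ hb', mul_assoc]
    exact h5.trans (mul_le_mul_of_nonneg_left h4 (by (clear * - hδ hB; positivity)))
  rw [e]
  refine (abs_sub _ _).trans ?_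
  rw [abs_mul]
  obtain this := mul_le_mul q2 q3 (abs_nonneg _) (by (clear * - hA hg; positivity))
  linarith only [q1, this]
where
  pos_of_mul_pos_left' {p q : ℝ} (h : 0 < p * q) (hp : 0 < p) : 0 < q := (mul_pos_iff_of_pos_left hp).1 h

theorem PB_left (k : Sk) {i j : ℤ} (h : i < j) : k.PB i j = k.B (i + 1) * k.PB (i + 1) j := by
  unfold Sk.PB
  obtain this : Ioc i j = insert (i + 1) (Ioc (i + 1) j) := by
    ext x; simp only [mem_insert, mem_Ioc]; (clear * - h; omega)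
  rw [this, prod_insert (by simp)]

theorem Pb_succ (S : Sq) {i j : ℤ} (h : i ≤ j) : S.Pb i (j + 1) = S.Pb i j * S.b (j + 1) := by
  unfold Sq.Pb
  rw [← Finset.insert_Ioc_right_eq_Ioc_add_one h, prod_insert (by simp), mul_comm]

theorem Pb_le {S : Sq} {k : Sk} {i j : ℤ} (h : ∀ l, i < l → l ≤ j → 0 ≤ S.b l ∧ S.b l ≤ k.B l) :
    0 ≤ S.Pb i j ∧ S.Pb i j ≤ k.PB i j :=
  ⟨prod_nonneg fun l hl => (h l (mem_Ioc.1 hl).1 (mem_Ioc.1 hl).2).1,
    prod_le_prod (fun l hl => (h l (mem_Ioc.1 hl).1 (mem_Ioc.1 hl).2).1)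
      fun l hl => (h l (mem_Ioc.1 hl).1 (mem_Ioc.1 hl).2).2⟩

/-- variation of the product of the `b` -/
theorem dPb {S S' : Sq} {k : Sk} {i x : ℤ} {Y : ℝ} (hw : 0 ≤ k.w i)
    (hb : ∀ l, i < l → l ≤ x → 0 ≤ S.b l ∧ S.b l ≤ k.B l)
    (hb' : ∀ l, i < l → l ≤ x → 0 ≤ S'.b l ∧ S'.b l ≤ k.B l)
    (h : ∀ m, i ≤ m → m < x →
      k.PB i m * k.w i * |S'.b (m + 1) - S.b (m + 1)| * k.PB (m + 1) x ≤ Y)
    (m : ℤ) (hm : i ≤ m) :
    m ≤ x → |S'.Pb i m - S.Pb i m| * k.PB m x * k.w i ≤ ((m - i : ℤ) : ℝ) * Y := by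
  induction m, hm using Int.leInduction with
  | base => intro _; simp [Sq.Pb]
  | succ m hm ih =>
    intro hx
    obtain i1 := ih (by omega)
    obtain i2 := h m hm (by omega)
    obtain b1 := hb' (m + 1) (by omega) hx
    obtain p1 := Pb_le (S := S) (k := k) (i := i) (j := m) fun l a b => hb l a (by omega)
    obtain p2 : 0 ≤ k.PB (m + 1) x := prod_nonneg fun l hl =>
      (hb l (by have := (mem_Ioc.1 hl).1; omega) (mem_Ioc.1 hl).2).1.trans
        (hb l (by have := (mem_Ioc.1 hl).1; omega) (mem_Ioc.1 hl).2).2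
    obtain e : S'.Pb i (m + 1) - S.Pb i (m + 1) =
        (S'.Pb i m - S.Pb i m) * S'.b (m + 1) + S.Pb i m * (S'.b (m + 1) - S.b (m + 1)) := by
      rw [Pb_succ S hm, Pb_succ S' hm]; ring
    obtain q : |S'.Pb i (m + 1) - S.Pb i (m + 1)| ≤ |S'.Pb i m - S.Pb i m| * k.B (m + 1) +
        k.PB i m * |S'.b (m + 1) - S.b (m + 1)| := by
      rw [e]
      refine (abs_add_le _ _).trans (add_le_add ?_ ?_)
      · rw [abs_mul, abs_of_nonneg b1.1]
        exact mul_le_mul_of_nonneg_left b1.2 (abs_nonneg _)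
      · rw [abs_mul, abs_of_nonneg p1.1]
        exact mul_le_mul_of_nonneg_right p1.2 (abs_nonneg _)
    rw [PB_left k (show m < x by omega)] at i1
    have q2 := mul_le_mul_of_nonneg_right q (mul_nonneg p2 hw)
    push_cast at i1 ⊢
    linarith only [i2, q2, i1]

theorem an_zero (k : Sk) {n i : ℤ} (h : ∀ x ∈ k.D, i < x → n ≤ x) : k.an n i = 0 := by
  unfold Sk.an
  rw [filter_eq_empty_iff.2 fun x hx a => by have := h x hx a.1; omega, fold_empty]

theorem sum_le {I : Finset ℤ} {f f' : ℤ → ℝ} {Y s : ℝ} (hY : 0 ≤ Y) (hc : (I.card : ℝ) ≤ s)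
    (h : ∀ i ∈ I, |f' i - f i| ≤ Y) : |∑ i ∈ I, f' i - ∑ i ∈ I, f i| ≤ s * Y := by
  rw [← sum_sub_distrib]
  refine (abs_sum_le_sum_abs _ _).trans ((sum_le_card_nsmul _ _ _ h).trans ?_)
  rw [nsmul_eq_mul]
  exact mul_le_mul_of_nonneg_right hc hY

theorem gt_le {c : Cs} {M : Mdl} {t : ℝ} {S : Sq} (hb : 0 ≤ c.bl) (hM : M.OK c) (t0 : 0 < t)
    (t1 : t < 1) (h : IsOrb c M t S 1) {l : ℤ} (hl : 1 ≤ l) : |M.gt t S l| ≤ 2 := by
  obtain h1 := abs_le.1 (hM.t_all t _ _ ⟨t0.le, t1.le⟩ (h.box l (by omega)) (h.box (l - 1) (by omega)))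
  obtain h2 : c.dl ≤ 1 := exp_le_one_iff.2 (by linarith only [hb])
  unfold Mdl.gt
  exact abs_le.2 ⟨by linarith only [t0, t1, h1, h2], by linarith only [h1, h2]⟩

theorem main {K : ℕ} {c : Cs} (hl : 10 ≤ c.lam) (hb : 0 ≤ c.bl) (hT : TA_s c) (hR : R2_s K c) :
    D7S_s K c := by
  intro M t g S k n H g8 t' S' H' δ hδ P Q x hx hxn
  obtain ⟨o1, o2⟩ := H.sk
  obtain ⟨-, -, -, -, -, t6, -, -, -, -, -, t12, -⟩ := hT k H.sk
  have hn := o1.F_mem n H.hn
  obtain ⟨xF, xN⟩ := o1.D_mem x hx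
  have x1 := (o1.F_mem x xF).1
  obtain ⟨JF, xJ, Jm⟩ := o1.nx_mem x xN
  have Jn := Jm n H.hn hxn
  have sl10 : 10 ≤ k.sl n := hl.trans (o1.sl1.trans (o1.sl_mono 1 n le_rfl hn.1))
  set s := exp (k.sl n) with hs
  obtain s11 : 11 ≤ s := by linarith only [sl10, add_one_le_exp (k.sl n)]
  obtain s1 : 1 ≤ s := by linarith only [s11]
  have pw : ∀ m : ℕ, exp (m * k.sl n) = s ^ m := fun m => exp_nat_mul _ m
  have δ0 : 0 ≤ δ := (abs_nonneg _).trans (P.gt x x1 hxn)
  obtain δ1 : δ * s ^ 25 ≤ 1 := by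
    rw [← pw, ← le_div_iff₀ (exp_pos _), one_div, ← exp_neg]
    exact hδ.trans_eq (by congr 1; push_cast; ring)
  obtain s4 : 10000 ≤ s ^ 4 := le_trans (by norm_num) (pow_le_pow_left₀ (by norm_num) s11 4)
  obtain δ2 : δ ≤ 1 / 10000 := by
    obtain this := mul_le_mul_of_nonneg_left (s4.trans (pow_le_pow_right₀ s1 (by norm_num : 4 ≤ 25))) δ0
    linarith only [δ1, this]
  obtain ⟨G, C⟩ := hR M t g S k n H g8 t' S' H' δ δ2 Q
  have g1 := H.g1
  obtain g0 : 0 < g := by linarith only [g1]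
  obtain g2 : g ^ 2 ≤ 64 := le_trans (pow_le_pow_left₀ g0.le g8 2) (by norm_num)
  obtain g4 : g ^ 4 ≤ 4096 := le_trans (pow_le_pow_left₀ g0.le g8 4) (by norm_num)
  obtain ns : (n : ℝ) ≤ s := by
    obtain h1 : (1 : ℝ) ≤ n := by exact_mod_cast hn.1
    nlinarith only [o1.time n H.hn, h1, hs]
  have σs : ∀ i, i < n → exp (k.σ i) ≤ s := fun i hi => exp_le_exp.2 (t6 n H.hn i hi)
  obtain χ0 : ∀ i j, 0 ≤ k.chi i j := fun i j =>
    sum_nonneg fun l _ => le_trans (by norm_num) (o1.ch_mem l).1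
  have wx := o1.w_pos x x1
  have gt1 : ∀ l, 1 ≤ l → |M.gt t S l| ≤ 2 := fun l a => gt_le hb H.ok.ok H.t0 H.t1 H.orb a
  have gt2 : ∀ l, 1 ≤ l → |M.gt t' S' l| ≤ 2 := fun l a => gt_le hb H.ok.ok H'.t0 H'.t1 H'.orb a
  obtain i2 : ∀ i, 1 ≤ i → i ≤ x → k.PB i x * k.w i ≤ 2 * k.w x := fun i a b =>
    (o2.i2 x xF i a b).1.trans (mul_le_mul_of_nonneg_right (mul_le_of_le_one_right (by norm_num)
      (exp_le_one_iff.2 (by linarith only [χ0 i x]))) wx.le)
  obtain dξ : ∀ l, 1 ≤ l → l ≤ n → |S'.fr 1 l - S.fr 1 l| ≤ 2 * δ * g * k.w l := fun l a b => by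
    simpa using C 0 l g le_rfl (by omega) b fun m u v => by
      simpa using H.fit.f1 m (by omega) (by omega)
  obtain past : ∀ i ∈ Ico 1 x,
      |(-1) ^ (x - i).toNat * S'.Pb i x * (S'.fr 1 i / S'.fr 1 x) * M.gt t' S' i -
        (-1) ^ (x - i).toNat * S.Pb i x * (S.fr 1 i / S.fr 1 x) * M.gt t S i| ≤
        δ * (70000 * s ^ 2) := by
    intro i hi
    obtain ⟨i1, ix⟩ := mem_Ico.1 hi
    have wi := o1.w_pos i i1
    obtain b1 : ∀ l, i < l → l ≤ x → 0 ≤ S.b l ∧ S.b l ≤ k.B l := fun l a b =>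
      H.fit.b l (by omega) (by omega)
    have d := dPb (Y := 4 * δ * s * k.w x) wi.le b1 (fun l a b => G.fit.b l (by omega) (by omega))
      (fun m a b => ?_) x ix.le le_rfl
    · obtain e0 : k.PB x x = 1 := by simp [Sk.PB]
      obtain e1 : ((x - i : ℤ) : ℝ) ≤ s := le_trans (by exact_mod_cast (by omega)) ns
      rw [e0, mul_one] at d
      obtain d1 := d.trans (mul_le_mul_of_nonneg_right e1 (by (clear * - δ0 wx; positivity)))
      have p := Pb_le b1
      have p1 : S.Pb i x * k.w i ≤ 2 * k.w x :=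
        (mul_le_mul_of_nonneg_right p.2 wi.le).trans (i2 i i1 ix.le)
      obtain e : (-1) ^ (x - i).toNat * S'.Pb i x * (S'.fr 1 i / S'.fr 1 x) * M.gt t' S' i -
          (-1) ^ (x - i).toNat * S.Pb i x * (S.fr 1 i / S.fr 1 x) * M.gt t S i =
          (-1) ^ (x - i).toNat * (S'.Pb i x * S'.fr 1 i * M.gt t' S' i / S'.fr 1 x -
            S.Pb i x * S.fr 1 i * M.gt t S i / S.fr 1 x) := by ring
      obtain f1 := H.fit.f1 i i1 (by omega)
      obtain f2 := G.fit.f1 i i1 (by omega)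
      rw [e, abs_mul, abs_pow, abs_neg, abs_one, one_pow, one_mul]
      refine (quot (A := 4 * g) (A' := 26 * g * s ^ 2) (B := 2 * g) wx g0 δ0 (by positivity)
        (by positivity) (by positivity) ?_ ?_ (H.fit.f2 x xF hxn.le) (G.fit.f2 x xF hxn.le)
        ((dξ x x1 hxn.le).trans_eq (by ring))).trans (mul_le_mul_of_nonneg_left ?_ δ0)
      · rw [abs_mul, abs_mul, abs_of_nonneg p.1]
        refine (mul_le_mul (mul_le_mul_of_nonneg_left f1 p.1) (gt1 i i1) (abs_nonneg _)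
          (mul_nonneg p.1 (by (clear * - g1 wi; positivity)))).trans ?_
        linarith only [mul_le_mul_of_nonneg_left p1 g0.le]
      · obtain e2 : S'.Pb i x * S'.fr 1 i * M.gt t' S' i - S.Pb i x * S.fr 1 i * M.gt t S i =
            (S'.Pb i x - S.Pb i x) * S'.fr 1 i * M.gt t' S' i +
              S.Pb i x * (S'.fr 1 i - S.fr 1 i) * M.gt t' S' i +
              S.Pb i x * S.fr 1 i * (M.gt t' S' i - M.gt t S i) := by ring
        rw [e2]
        refine (abs_add_three _ _ _).trans ?_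
        simp only [abs_mul, abs_of_nonneg p.1]
        obtain u1 := mul_le_mul (mul_le_mul_of_nonneg_left f2 (abs_nonneg (S'.Pb i x - S.Pb i x)))
          (gt2 i i1) (abs_nonneg _) (by (clear * - g1 wi; positivity))
        obtain u2 := mul_le_mul (mul_le_mul_of_nonneg_left (dξ i i1 (by omega)) p.1) (gt2 i i1)
          (abs_nonneg _) (mul_nonneg p.1 (by (clear * - δ0 g1 wi; positivity)))
        obtain u3 := mul_le_mul (mul_le_mul_of_nonneg_left f1 p.1) (P.gt i i1 (by omega))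
          (abs_nonneg _) (mul_nonneg p.1 (by (clear * - g1 wi; positivity)))
        have u4 := mul_le_mul_of_nonneg_left d1 g0.le
        have u5 := mul_le_mul_of_nonneg_left p1 (mul_nonneg δ0 g0.le)
        obtain u6 := mul_le_mul_of_nonneg_left (one_le_pow₀ (n := 2) s1)
          (show 0 ≤ δ * g * k.w x by (clear * - δ0 g1 wx; positivity))
        linarith only [u1, u2, u3, u4, u5, u6]
      · obtain u1 := mul_le_mul_of_nonneg_right g2 (show 0 ≤ s ^ 2 by positivity)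
        linarith only [u1, g4, one_le_pow₀ (n := 2) s1]
    · obtain u1 : k.PB i m * k.w i ≤ s * k.w m :=
        (o2.d4 i m i1 a (by omega)).trans (mul_le_mul_of_nonneg_right
          ((mul_le_of_le_one_right (exp_pos _).le
            (exp_le_one_iff.2 (by linarith only [χ0 i m]))).trans (σs m (by omega)))
          (o1.w_pos m (by omega)).le)
      obtain u2 := P.ab (m + 1) (by omega) (by omega)
      rw [add_sub_cancel_right] at u2
      obtain u3 := t12 n (m + 1) (by omega) (by omega)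
      obtain wm := o1.w_pos m (by omega)
      obtain wm1 := o1.w_pos (m + 1) (by omega)
      obtain E0 : 0 < k.E n (m + 1) := (mul_pos_iff_of_pos_right wm1).1 (by linarith only [u3])
      obtain u4 : |S'.b (m + 1) - S.b (m + 1)| * k.w m ≤ 2 * δ * k.w (m + 1) := by
        obtain v1 : 0 ≤ k.E n (m + 1) * (|S'.a (m + 1) - S.a (m + 1)| * k.w (m + 1)) := by (clear * - E0 wm1; positivity)
        obtain v2 := mul_le_mul_of_nonneg_right
          (show k.E n (m + 1) * (|S'.b (m + 1) - S.b (m + 1)| * k.w m) ≤ δ by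
            linarith only [u2, v1]) wm1.le
        obtain v3 := mul_le_mul_of_nonneg_right u3
          (show 0 ≤ |S'.b (m + 1) - S.b (m + 1)| * k.w m by (clear * - wm; positivity))
        linarith only [v2, v3]
      have p2 : 0 ≤ k.PB (m + 1) x :=
        prod_nonneg fun l _ => (exp_pos _).le.trans (o1.B_lo l)
      have u5 := mul_le_mul_of_nonneg_right (mul_le_mul_of_nonneg_right u1
        (abs_nonneg (S'.b (m + 1) - S.b (m + 1)))) p2
      obtain u6 := mul_le_mul_of_nonneg_right u4 (show 0 ≤ s * k.PB (m + 1) x by (clear * - p2; positivity))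
      obtain u7 := mul_le_mul_of_nonneg_left (i2 (m + 1) (by omega) (by omega))
        (show 0 ≤ 2 * δ * s by (clear * - δ0; positivity))
      linarith only [u5, u6, u7]
  have η0 := (o1.η_mem x hx).1
  obtain V0 : 0 < k.V x 1 := by unfold Sk.V; positivity
  obtain wJ := o1.w_pos (k.nx x) (by omega)
  obtain an0 : ∀ i, x ≤ i → k.an (k.nx x) i = 0 := fun i a =>
    an_zero k fun y hy b => Jm y (o1.D_mem y hy).1 (by omega)
  obtain den : |S'.fr (x + 1) (k.nx x) - S.fr (x + 1) (k.nx x)| ≤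
      δ * (8 * g) * (k.V x 1 * k.w (k.nx x)) := by
    refine (C x _ (g * (4 * k.V x 1)) (by omega) xJ Jn fun l a b => ?_).trans_eq (by ring)
    have := H.fit.fE _ JF Jn x l x1 a b
    rwa [Sk.E, if_pos hx, an0 x le_rfl, mul_zero, add_zero] at this
  obtain blk : ∀ i ∈ Ioo x (k.nx x),
      |S'.fr (i + 1) (k.nx x) / S'.fr (x + 1) (k.nx x) * M.gt t' S' i -
        S.fr (i + 1) (k.nx x) / S.fr (x + 1) (k.nx x) * M.gt t S i| ≤ δ * (140000 * s ^ 5) := by
    intro i hi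
    obtain ⟨xi, iJ⟩ := mem_Ioo.1 hi
    obtain i1 : 1 ≤ i := by omega
    obtain nD : i ∉ k.D := fun h => by have := Jm i (o1.D_mem i h).1 xi; omega
    have om := (o2.om_in x hx i xi iJ).1
    have om0 : 0 < k.om i := (mul_pos_iff_of_pos_left (exp_pos _)).1 ((mul_pos wx η0).trans_le om)
    obtain E1 : k.E (k.nx x) i ≤ s ^ 5 * k.V x 1 := by
      rw [Sk.E, if_neg nD, an0 i xi.le, mul_zero, add_zero, Sk.V, pow_one, mul_one_div,
        div_le_div_iff₀ om0 (by positivity)]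
      obtain v1 : exp (4 * k.σ i) ≤ s ^ 4 := by
        rw [← pw]; exact exp_le_exp.2 (by push_cast; linarith only [t6 n H.hn i (by omega)])
      have v2 := om.trans (mul_le_mul_of_nonneg_right (σs x hxn) om0.le)
      rw [mul_comm (k.w x)] at v2
      exact (mul_le_mul v1 v2 (by positivity) (by positivity)).trans_eq (by ring)
    obtain f1 : ∀ l, i < l → l ≤ k.nx x → |S.fr (i + 1) l| ≤ g * (s ^ 5 * k.V x 1) * k.w l :=
      fun l a b => (H.fit.fE _ JF Jn i l i1 a b).trans (mul_le_mul_of_nonneg_right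
        (mul_le_mul_of_nonneg_left E1 g0.le) (o1.w_pos l (by omega)).le)
    obtain f2 := C i _ _ (by omega) iJ Jn f1
    have f3 := f1 _ iJ le_rfl
    rw [div_mul_eq_mul_div, div_mul_eq_mul_div]
    refine (quot (A := 2 * g * s ^ 5) (A' := 5 * g * s ^ 5) (B := 8 * g) (mul_pos V0 wJ) g0 δ0
      (by positivity) (by positivity) (by positivity) ?_ ?_ (H.fit.flo x hx hxn)
      (G.fit.flo x hx hxn) den).trans (mul_le_mul_of_nonneg_left ?_ δ0)
    · rw [abs_mul]
      exact (mul_le_mul f3 (gt1 i i1) (abs_nonneg _) (by positivity)).trans_eq (by ring)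
    · obtain e2 : S'.fr (i + 1) (k.nx x) * M.gt t' S' i - S.fr (i + 1) (k.nx x) * M.gt t S i =
          (S'.fr (i + 1) (k.nx x) - S.fr (i + 1) (k.nx x)) * M.gt t' S' i +
            S.fr (i + 1) (k.nx x) * (M.gt t' S' i - M.gt t S i) := by ring
      rw [e2]
      refine (abs_add_le _ _).trans ?_
      rw [abs_mul, abs_mul]
      obtain u1 := mul_le_mul f2 (gt2 i i1) (abs_nonneg _) (by (clear * - δ0 g1 V0 wJ; positivity))
      obtain u2 := mul_le_mul f3 (P.gt i i1 (by omega)) (abs_nonneg _) (by positivity)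
      linarith only [u1, u2]
    · obtain s5 : 0 ≤ s ^ 5 := by positivity
      linarith only [mul_le_mul_of_nonneg_right g2 s5, mul_le_mul_of_nonneg_right g4 s5, s5]
  obtain c1 : ((Ico 1 x).card : ℝ) ≤ s := by
    rw [Int.card_Ico]
    refine le_trans ?_ ns
    rw [← Int.cast_natCast]
    exact_mod_cast (by omega)
  obtain c2 : ((Ioo x (k.nx x)).card : ℝ) ≤ s := by
    rw [Int.card_Ioo]
    refine le_trans ?_ ns
    rw [← Int.cast_natCast]
    exact_mod_cast (by omega)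
  obtain tot : |M.sgO t' S' x (k.nx x) - M.sgO t S x (k.nx x)| ≤ δ * s ^ 20 := by
    obtain u1 := abs_le.1 (sum_le (by positivity) c1 past)
    obtain u2 := abs_le.1 (sum_le (by positivity) c2 blk)
    have u3 := abs_le.1 (P.gt x x1 hxn)
    obtain u4 : 1 + 70000 * s ^ 3 + 140000 * s ^ 6 ≤ s ^ 20 := by
      obtain v1 : s ^ 3 ≤ s ^ 6 := pow_le_pow_right₀ s1 (by norm_num)
      have v2 : 1 ≤ s ^ 6 := one_le_pow₀ s1
      obtain v3 : 300000 ≤ s ^ 14 := le_trans (by norm_num) (pow_le_pow_left₀ (by norm_num) s11 14)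
      linarith only [v1, v2, mul_le_mul_of_nonneg_right v3 (show 0 ≤ s ^ 6 by positivity)]
    have u5 := mul_le_mul_of_nonneg_left u4 δ0
    unfold Mdl.sgO
    exact abs_le.2 ⟨by linarith only [u1.1, u2.1, u3.1, u5], by linarith only [u1.2, u2.2, u3.2, u5]⟩
  refine ⟨tot.trans_eq (by rw [← pw]; norm_num), fun h => ?_⟩
  unfold D7 at h ⊢
  have u1 := abs_sub_abs_le_abs_sub (M.sgO t S x (k.nx x)) (M.sgO t' S' x (k.nx x))
  rw [abs_sub_comm] at u1
  obtain u2 : 1 ≤ exp (-k.σ x) * s := by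
    rw [exp_neg, le_inv_mul_iff₀ (exp_pos _), mul_one]; exact σs x hxn
  obtain u3 : 16 * (δ * s ^ 20) ≤ exp (-k.σ x) := by
    refine le_of_mul_le_mul_right (le_trans ?_ u2) (by positivity : 0 < s)
    obtain this := mul_le_mul_of_nonneg_left s4 (show 0 ≤ δ * s ^ 21 by positivity)
    obtain v : 0 ≤ δ * s ^ 21 := by positivity
    linarith only [this, δ1, v]
  have u4 := mul_le_mul_of_nonneg_left (u1.trans tot) g0.le
  obtain u5 := mul_le_mul_of_nonneg_right g8 (show 0 ≤ δ * s ^ 20 by positivity)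
  linarith only [h, u3, u4, u5]

end D7S

theorem d7s (K : ℕ) : Hier fun c => TA_s c → R2_s K c → D7S_s K c :=
  ((Hier.lam_ge (fun _ => 10) fun _ _ => rfl).and (Hier.β_ge (fun _ => 0) fun _ _ _ => rfl)).mono
    fun _ h => D7S.main h.1 (mul_nonneg h.2 (by linarith only [h.1]))

end Pool.Agent.MP_9cbfe4_an

end

/-! ### Part J6 -/

section

/-! Row J6: two orbits in one tube. -/

namespace Pool.Agent.MP_9cbfe4_an

open Finset Filter Topology Real

noncomputable section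

namespace J6

/-- the constants used in this file -/
structure C6 (c : Cs) : Prop where
  cg : 1 ≤ c.CG
  κ : 0 < c.κ
  L : 1 ≤ c.L
  lam : 10 ^ 7 * c.CG ≤ c.lam
  be : 1 ≤ c.β
  C0 : 1000 * (2 + c.κ) ≤ c.C0

theorem hier_C6 : Hier C6 :=
  (Hier.base.and ((Hier.L_ge (fun _ => 1) fun _ _ => rfl).and
    ((Hier.lam_ge (fun c => 10 ^ 7 * c.CG) fun _ _ => rfl).and
    ((Hier.β_ge (fun _ => 1) fun _ _ _ => rfl).and
    (Hier.C0_ge fun _ _ κ _ => 1000 * (2 + κ)))))).mono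
    fun _ ⟨h, h1, h2, h3, h4⟩ => ⟨h.2.2.2.2.2, h.2.2.2.2.1, h1, h2, h3, h4⟩

theorem xm (s a b : ℝ) : exp (a * s) * exp (b * s) = exp ((a + b) * s) := by
  rw [← exp_add, add_mul]
theorem xl {s a b : ℝ} (hs : 0 ≤ s) (h : a ≤ b) : exp (a * s) ≤ exp (b * s) :=
  exp_le_exp.2 (mul_le_mul_of_nonneg_right h hs)

theorem chi_add (k : Sk) {i j l : ℤ} (h1 : i ≤ j) (h2 : j ≤ l) :
    k.chi i l = k.chi i j + k.chi j l := sum_Ioc_add _ h1 h2
theorem chi_one (k : Sk) (i : ℤ) : k.chi (i - 1) i = k.ch i := by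
  have := Ioc_succ_self (i - 1)
  rw [sub_add_cancel] at this
  rw [Sk.chi, this, sum_singleton]

section sk
variable {c : Cs} (h : C6 c) (hA : TA_s c) (hB : TB_s c) (hC : TC_s c) {k : Sk} (ok : k.OK c)
  {n : ℤ} (hn : n ∈ k.F)

include ok in
theorem chi0 (i j : ℤ) : 0 ≤ k.chi i j :=
  sum_nonneg fun l _ => le_trans (by norm_num) (ok.1.ch_mem l).1

include ok in
theorem geom {n : ℤ} (n1 : 1 ≤ n) :
    ∑ i ∈ Ico 1 n, exp (-(9 / 10) * k.chi i n) ≤ 4 * exp (-(9 / 10) * k.ch n) := by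
  induction n, n1 using Int.leInduction with
  | base => simp; positivity
  | succ n n1 ih =>
    obtain e : ∀ i, i ≤ n → exp (-(9 / 10) * k.chi i (n + 1)) =
        exp (-(9 / 10) * k.chi i n) * exp (-(9 / 10) * k.ch (n + 1)) := fun i hi => by
      rw [← exp_add, chi_add k hi (show n ≤ n + 1 by omega), ← chi_one k (n + 1),
        add_sub_cancel_right, mul_add]
    rw [sum_Ico_succ _ n1, sum_congr rfl fun i hi => e i (mem_Ico.1 hi).2.le, ← sum_mul, e n le_rfl,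
      ← add_mul]
    refine mul_le_mul_of_nonneg_right ?_ (exp_pos _).le
    obtain e1 : exp (-(9 / 10) * k.ch n) * (4 / 3) ≤ 1 := by
      refine (mul_le_mul_of_nonneg_left (show 4 / 3 ≤ exp (1 / 3) by
        linarith only [add_one_le_exp (1 / 3 : ℝ)]) (exp_pos _).le).trans ?_
      rw [← exp_add]
      exact exp_le_one_iff.2 (by linarith only [(ok.1.ch_mem n).1])
    obtain e2 : exp (-(9 / 10) * k.chi n n) = 1 := by simp [Sk.chi]
    linarith only [ih, e1, e2]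

include h ok hn in
theorem big : 10 ^ 7 ≤ k.sl n ∧ 10 ^ 7 * c.CG ≤ exp (1 * k.sl n) ∧ c.L ≤ exp (1 * k.sl n) ∧
    (∀ a b : ℤ, 0 ≤ a → b ≤ n → ((Ico a b).card : ℝ) ≤ exp (1 * k.sl n)) ∧
    1000 * k.sl n ≤ k.chi 0 n := by
  have n1 := (ok.1.F_mem n hn).1
  have s1 := ok.1.sl1.trans (ok.1.sl_mono 1 n le_rfl n1)
  have := h.cg
  have := h.lam
  rw [one_mul]
  refine ⟨by (rename_i zq0; linarith only [s1, zq0, this]), by linarith only [s1, this, add_one_le_exp (k.sl n)],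
    (exp_log (by linarith only [h.L])).ge.trans (exp_le_exp.2 s1), fun a b a0 bn => ?_, ?_⟩
  · obtain this : (1 : ℝ) ≤ n := by exact_mod_cast n1
    rw [Int.card_Ico, ← Int.cast_natCast]
    exact (Int.cast_le.2 (show _ ≤ n by omega)).trans (le_trans (by nlinarith only [this]) (ok.1.time n hn))
  · (rename_i zq0; nlinarith only [s1, zq0, this, ok.1.d10 n hn, h.C0, h.κ])

include hA ok in
theorem w4p {l : ℤ} (l0 : 0 ≤ l) : 0 ≤ k.w4 l := by
  obtain ⟨a1, a2, -⟩ := hA k ok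
  rcases l0.eq_or_lt with rfl | l0
  · exact a2.ge
  · exact (ok.1.w_pos l l0).le.trans (a1 l l0)

include h hA hB hC ok hn

theorem tab {α D z γ : ℝ} (α0 : 0 ≤ α) (D0 : 0 ≤ D) (z0 : 0 ≤ z) (γ0 : 0 ≤ γ) (γ1 : γ ≤ c.C0) :
    (∀ l, 0 ≤ l → l ≤ n → D ≤ k.mu n α D z γ l) ∧
    (∀ p l, 0 ≤ p → p ≤ l → l < n →
      exp (-k.chi p l / 4) * k.mu n α D z γ p ≤ exp (4 * k.sl n) * k.mu n α D z γ l) ∧
    (∀ l, 1 ≤ l → l < n →
      k.E n l * k.w4 l * k.mu n α D z γ l ≤ exp ((γ + 12) * k.sl n) * k.sz n α D z) ∧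
    (∀ l i, 0 ≤ l → l ≤ i → 1 ≤ i → i < n →
      k.w4 l * k.mu n α D z γ i ≤ exp (6 * k.sl n) * (k.w4 i * k.mu n α D z γ l)) ∧
    (∀ l i, 0 ≤ l → l ≤ i → 1 ≤ i → i < n →
      k.w4 l * k.E n i ≤ exp (14 * k.sl n) * k.NN n 1 0 l) := by
  obtain ⟨a1, -, -, -, -, a6, -, -, -, -, -, a12, -, a14, -, a16, -, a18⟩ := hA k ok
  have nN := (ok.1.F_mem n hn).2
  obtain s0 : 0 ≤ k.sl n := by linarith only [(big h ok hn).1]
  obtain C0 : 2000 ≤ c.C0 := by linarith only [h.C0, h.κ]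
  have w0 := fun l (a : 0 ≤ l) => w4p hA ok a
  have wp : ∀ i, 1 ≤ i → 0 < k.w4 i := fun i a => (ok.1.w_pos i a).trans_le (a1 i a)
  have N1 := fun g (g0 : 0 ≤ g) l (a : 0 ≤ l) (b : l ≤ n) => (a18 n 1 g l g0 a (b.trans nN)).1
  have N2 := fun g (g0 : 0 ≤ g) l (a : 0 ≤ l) (b : l < n) =>
    (a18 n 1 g l g0 a (b.le.trans nN)).2.2.2 hn b
  have x1 : ∀ a, 0 ≤ a → 1 ≤ exp (a * k.sl n) := fun a a0 => one_le_exp (mul_nonneg a0 s0)
  obtain B := fun g (g0 : 0 ≤ g) (g1 : g ≤ c.C0) => hB k ok n hn 1 g (by norm_num; linarith only [C0]) g0 g1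
  obtain pw : ∀ p l, 0 ≤ p → p ≤ l → l < n →
      exp (-k.chi p l / 4) * k.w4 p ≤ exp (4 * k.sl n) * k.w4 l := fun p l a b e =>
    ((B γ γ0 γ1).2.1 p l a b e.le).1.trans (mul_le_mul_of_nonneg_right
      (exp_le_exp.2 (by linarith only [a6 n hn l e])) (w0 l (by omega)))
  obtain ec : ∀ p l, 0 ≤ p → p ≤ l →
      exp (-k.chi 0 l / 4) = exp (-k.chi p l / 4) * exp (-k.chi 0 p / 4) := fun p l a b => by
    rw [← exp_add, chi_add k a b]; congr 1; ring
  have tr : ∀ g, 0 ≤ g → g ≤ c.C0 → ∀ l i, 0 ≤ l → l ≤ i → 1 ≤ i → i < n →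
      k.w4 l * k.NN n 1 g i ≤ k.NN n 1 (g + 6) l * k.w4 i := fun g g0 g1 l i a b d e =>
    (div_le_iff₀ (wp i d)).1 ((B g g0 g1).2.2.1 l i a b d e le_rfl)
  refine ⟨fun l a b => ?_, fun p l a b e => ?_, fun l a b => ?_, fun l i a b d e => ?_,
    fun l i a b d e => ?_⟩
  · have := mul_le_mul_of_nonneg_left (N1 γ γ0 l a b) D0
    have := mul_nonneg (w0 l a) α0
    have := mul_nonneg z0 (exp_pos (-k.chi 0 l / 4)).le
    rw [Sk.mu]; (rename_i zq1 zq0; linarith only [zq1, zq0, this])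
  · have t1 := mul_le_mul_of_nonneg_right (pw p l a b e) α0
    obtain t2 := mul_le_mul_of_nonneg_left (((B γ γ0 γ1).2.1 p l a b e.le).2.trans
      ((N2 γ γ0 l (by omega) e).1 4 (by norm_num))) D0
    obtain t3 := mul_le_mul_of_nonneg_right (x1 4 (by norm_num))
      (mul_nonneg z0 (exp_pos (-k.chi 0 l / 4)).le)
    rw [Sk.mu, Sk.mu]
    rw [ec p l a b] at t3 ⊢
    linarith only [t1, t2, t3]
  · obtain ⟨e1, e2, -⟩ := a14 n hn l a b
    obtain ⟨m0, -, m2, -⟩ := a16 n l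
    obtain E0 : 0 ≤ k.E n l * k.w4 l := by
      obtain this := a12 n l a (by omega)
      have := ok.1.w_pos l a
      exact mul_nonneg (by (rename_i zq0; nlinarith only [zq0, this])) (w0 l (by omega))
    obtain t1 : k.E n l * k.w4 l ^ 2 ≤ exp ((γ + 12) * k.sl n) * exp (k.W n) := e1.trans (by
      rw [← exp_add]; exact exp_le_exp.2 (by nlinarith only [γ0, s0]))
    obtain t2 : k.E n l * k.w4 l * k.NN n 1 γ l ≤ exp ((γ + 12) * k.sl n) * k.rh n := by
      refine (mul_le_mul (((hC k ok n hn).1 l a b).trans (N2 8 (by norm_num) l (by omega) b).2.1)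
        (N2 γ γ0 l (by omega) b).2.1 (by linarith only [a, N1 γ γ0 l (by omega) b.le]) (by positivity)).trans ?_
      rw [div_mul_div_comm, xm, pow_one, ← sq, div_eq_mul_one_div]
      exact mul_le_mul (xl s0 (by linarith only [])) m2 (by positivity) (exp_pos _).le
    obtain t3 : k.E n l * k.w4 l * exp (-k.chi 0 l / 4) ≤ exp ((γ + 12) * k.sl n) :=
      ((mul_le_mul_of_nonneg_left (exp_le_exp.2 (by linarith only [chi0 ok 0 l])) E0).trans e2).trans
        (x1 _ (by linarith only [γ0]))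
    rw [Sk.mu, Sk.sz]
    linarith only [mul_le_mul_of_nonneg_left t1 α0, mul_le_mul_of_nonneg_left t2 D0,
      mul_le_mul_of_nonneg_left t3 z0]
  · obtain wi := w0 i (by omega)
    obtain t1 := mul_le_mul_of_nonneg_right (x1 6 (by norm_num))
      (mul_nonneg (mul_nonneg (w0 l a) wi) α0)
    obtain t2 := mul_le_mul_of_nonneg_left ((tr γ γ0 γ1 l i a b d e).trans (mul_le_mul_of_nonneg_right
      ((N2 γ γ0 l a (by omega)).1 6 (by norm_num)) wi)) D0
    obtain t3 := mul_le_mul_of_nonneg_left ((pw l i a b e).trans (mul_le_mul_of_nonneg_right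
      (xl s0 (show (4 : ℝ) ≤ 6 by norm_num)) wi)) (mul_nonneg z0 (exp_pos (-k.chi 0 l / 4)).le)
    rw [Sk.mu, Sk.mu, ec l i a b]
    linarith only [t1, t2, t3]
  · refine le_of_mul_le_mul_right ?_ (wp i d)
    have t1 := mul_le_mul_of_nonneg_left ((hC k ok n hn).1 i d e) (w0 l a)
    obtain t2 := tr 8 (by norm_num) (by linarith only [C0]) l i a b d e
    obtain t3 := (N2 0 le_rfl l a (by omega)).1 14 (by norm_num)
    rw [show (8 + 6 : ℝ) = 0 + 14 by norm_num] at t2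
    linarith only [t1, t2, mul_le_mul_of_nonneg_right t3 (wp i d).le]

end sk

/-- size of the difference at step `i` -/
def yy (k : Sk) (t t' : ℝ) (S S' : Sq) (i : ℤ) : ℝ :=
  nq (exp (-k.ch i / 2)) (t' - t, S'.X i - S.X i, S'.X (i - 1) - S.X (i - 1))

theorem isOpen_OB (c : Cs) : IsOpen (OB c) := by
  refine (isOpen_lt ?_ ?_).and ((isOpen_lt ?_ ?_).and ((isOpen_lt ?_ ?_).and (isOpen_lt ?_ ?_))) <;>
    fun_prop

theorem tay {K : ℕ} {c : Cs} (h : C6 c) (hG : GEO_s K c) {M t g S k n} (O : OC K c M t g S k n)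
    {t' S'} (O' : O2 c M t' S') {i : ℤ} (i1 : 1 ≤ i) (i2 : i ≤ n)
    (x1 : |S'.X i - S.X i| ≤ 1 / 10000) (x2 : |S'.X (i - 1) - S.X (i - 1)| ≤ 1 / 10000) :
    |S'.X (i + 1) - S.X (i + 1) - S.a i * (S'.X i - S.X i) - S.b i * (S'.X (i - 1) - S.X (i - 1))|
      ≤ 2 * |t' - t| + c.CG * c.L * yy k t t' S S' i ^ 2 ∧
    |S'.a i - S.a i| ≤ c.CG * c.L * yy k t t' S S' i ∧
    |S'.b i - S.b i| ≤ c.CG * c.L * (yy k t t' S S' i * exp (-k.ch i / 2)) := by
  have G := hG M t g S k n O t' S' O' i i1 i2 x1 x2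
  obtain m := fun τ (hτ : τ ∈ Set.Icc (0 : ℝ) 1) => G (((t, S.X i, S.X (i - 1)) : ℝ × ℝ × ℝ) +
    τ • ((t', S'.X i, S'.X (i - 1)) - (t, S.X i, S.X (i - 1))))
    (by rw [segment_eq_image']; exact ⟨τ, hτ, rfl⟩)
  have sm := fun τ hτ => (O.ok.smooth.contDiffAt ((isOpen_OB c).mem_nhds (m τ hτ).1)).of_le
    (m := 2) (WithTop.coe_le_coe.2 le_top)
  obtain bd := fun v τ hτ => ((m τ hτ).2.2 2 le_rfl (by omega)
    ![(t', S'.X i, S'.X (i - 1)) - (t, S.X i, S.X (i - 1)), v])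
  simp only [Fin.prod_univ_two, Matrix.cons_val_zero, Matrix.cons_val_one] at bd
  have d := O.ok.d1 _ (G _ (left_mem_segment _ _ _)).1
  have d' := O.ok.d1 _ (G _ (right_mem_segment _ _ _)).1
  have e1 := J0.taylor_one_le sm (bd _)
  have e2 := J0.fderiv_sub_le sm (bd (0, 1, 0))
  have e3 := J0.fderiv_sub_le sm (bd (0, 0, 1))
  rw [d, Mdl.GG, Mdl.GG] at e1
  rw [d, d'] at e2 e3
  have q0 := (exp_pos (-k.ch i / 2)).le
  simp only [Prod.mk_sub_mk, ← O.orb.step i i1, ← O'.orb.step i i1, ← O.orb.ha i i1,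
    ← O'.orb.ha i i1, ← O.orb.hb i i1, ← O'.orb.hb i i1, mul_zero, mul_one, zero_add,
    add_zero] at e1 e2 e3
  obtain n2 : nq (exp (-k.ch i / 2)) (0, 1, 0) = 1 := by simp [nq]
  obtain n3 : nq (exp (-k.ch i / 2)) (0, 0, 1) = exp (-k.ch i / 2) := by simp [nq, q0]
  rw [n2, mul_one] at e2
  rw [n3] at e3
  refine ⟨?_, e2, e3⟩
  obtain gt := O.ok.ok.t_all t _ _ ⟨O.t0.le, O.t1.le⟩ (O.orb.box i (by omega))
    (O.orb.box (i - 1) (by omega))
  obtain dl : c.dl ≤ 1 := exp_le_one_iff.2 (by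
    obtain this : 0 ≤ c.bl := mul_nonneg (by linarith only [h.be]) (by linarith only [h.lam, h.cg])
    linarith only [this])
  obtain g2 : |M.Gt t (S.X i) (S.X (i - 1)) * (t' - t)| ≤ 2 * |t' - t| := by
    rw [abs_mul]
    exact mul_le_mul_of_nonneg_right (abs_le.2 ⟨by linarith only [dl, (abs_le.1 gt).1],
      by linarith only [dl, (abs_le.1 gt).2]⟩) (abs_nonneg _)
  rw [sq]
  refine le_trans (le_of_eq ?_) ((abs_add_le _ _).trans (add_le_add g2 e1))
  congr 1; ring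

theorem yy0 (k : Sk) (t t' : ℝ) (S S' : Sq) (i : ℤ) : 0 ≤ yy k t t' S S' i :=
  le_max_of_le_left (abs_nonneg _)

theorem pb_le {S : Sq} {k : Sk} {i l : ℤ} (b : ∀ j, i < j → j ≤ l → 0 ≤ S.b j ∧ S.b j ≤ k.B j) :
    |S.Pb i l| ≤ k.PB i l := by
  rw [Sq.Pb, abs_of_nonneg (prod_nonneg fun j hj => (b j (mem_Ioc.1 hj).1 (mem_Ioc.1 hj).2).1)]
  exact prod_le_prod (fun j hj => (b j (mem_Ioc.1 hj).1 (mem_Ioc.1 hj).2).1)
    fun j hj => (b j (mem_Ioc.1 hj).1 (mem_Ioc.1 hj).2).2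

section main
variable {K : ℕ} {c : Cs} (h : C6 c) (hA : TA_s c) (hB : TB_s c) (hC : TC_s c) (hG : GEO_s K c)
  {M : Mdl} {t g t' : ℝ} {S S' : Sq} {k : Sk} {n : ℤ} (O : OC K c M t g S k n) (g8 : g ≤ 8)
  (O' : O2 c M t' S') (hx : ∀ l, 0 ≤ l → l ≤ n → |S'.X l - S.X l| ≤ 1 / 10000)

include O in
theorem wrB (n1 : 1 < n) {P Q q : ℤ → ℝ}
    (hP : ∀ j, 1 ≤ j → j < n → P (j + 1) = S.a j * P j + S.b j * P (j - 1) + Q j)
    (hq : ∀ i, 1 ≤ i → i < n → |Q i| ≤ q i) :
    k.B n * |P n * S.fr 1 (n - 1) - S.fr 1 n * P (n - 1)| ≤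
      2 * exp (-(99 / 100) * k.chi 0 n) * k.w n * |P 0| +
      ∑ i ∈ Ico 1 n, 2 * g * k.w n * (exp (-(99 / 100) * k.chi i n) * q i) := by
  let S1 : Sq := ⟨S.X, S.a, fun j => if j = n then k.B n else S.b j⟩
  have B0 : ∀ l, 0 ≤ k.B l := fun l => (exp_pos _).le.trans (O.sk.1.B_lo l)
  have e : ∀ j, j < n → S1.b j = S.b j := fun j hj => if_neg hj.ne
  obtain pb : ∀ i, 0 ≤ i → |S1.Pb i n| ≤ k.PB i n := fun i i0 => pb_le fun j a b => by
    rcases b.eq_or_lt with rfl | b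
    · exact ⟨(B0 j).trans_eq (if_pos rfl).symm, (if_pos rfl).le⟩
    · rw [e j b]; exact O.fit.b j (by omega) b.le
  obtain this := Sq.Wr_le (S := S1) (P := P) (Q := Q) (ξ := S.fr 1) (B := fun i => k.PB i n)
    (w := fun i => g * k.w i) n1.le (fun j a b => by rw [e j b]; exact hP j a b)
    (fun j a b => by rw [e j b]; exact S.fr_succ a) (fun i a _ => pb i (by omega))
    (fun i a b => O.fit.f1 i a b.le) hq
  rw [Sq.Wr, Sq.Wr, e 1 n1, Sq.fr_pred, Sq.fr_self, show S1.b n = k.B n from if_pos rfl, abs_mul,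
    abs_of_nonneg (B0 n), mul_zero, one_mul, zero_sub, abs_mul, abs_neg, sub_self] at this
  refine this.trans (add_le_add ?_ (sum_le_sum fun i hi => ?_))
  · have e1 := (O.sk.2.i2 n O.hn 1 le_rfl n1.le).1
    obtain ⟨b0, b1⟩ := O.fit.b 1 le_rfl n1.le
    have e2 := chi_one k 1
    have wn := O.sk.1.w_pos n n1.le
    rw [O.sk.1.w1, mul_one] at e1
    rw [sub_self, O.sk.1.ch_one.1] at e2
    rw [abs_of_nonneg b0, ← mul_assoc]
    refine mul_le_mul_of_nonneg_right ((mul_le_mul ((pb 1 zero_le_one).trans e1)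
      (b1.trans_eq O.sk.1.ch_one.2) b0 (by positivity)).trans ?_) (abs_nonneg _)
    rw [mul_right_comm, mul_assoc 2, ← exp_add, chi_add k zero_le_one n1.le, e2]
    gcongr
    linarith only [e2, chi0 O.sk 0 1]
  · obtain ⟨i1, i2⟩ := mem_Ico.1 hi
    obtain g0 : 0 ≤ g := by linarith only [O.g1]
    linarith only [mul_le_mul_of_nonneg_right (O.sk.2.i2 n O.hn i i1 i2.le).1
      (mul_nonneg g0 ((abs_nonneg _).trans (hq i i1 i2)))]

include h hA hB hC O in
theorem yy_le {α D z γ N : ℝ} (α0 : 0 ≤ α) (z0 : 0 ≤ z) (γ0 : 0 ≤ γ) (γ1 : γ ≤ c.C0) (N1 : 1 ≤ N)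
    (hD : |t' - t| ≤ D) (hZ : ∀ l, 0 ≤ l → l ≤ n → |S'.X l - S.X l| ≤ N * k.mu n α D z γ l)
    {i : ℤ} (i1 : 1 ≤ i) (i2 : i < n) :
    yy k t t' S S' i ≤ exp (4 * k.sl n) * (N * k.mu n α D z γ i) := by
  have D0 := (abs_nonneg _).trans hD
  obtain ⟨t1, t2, -⟩ := tab h hA hB hC O.sk O.hn α0 D0 z0 γ0 γ1
  obtain m0 := t1 i (by omega) i2.le
  obtain e : N * k.mu n α D z γ i ≤ exp (4 * k.sl n) * (N * k.mu n α D z γ i) :=
    le_mul_of_one_le_left (by nlinarith only [D0, m0, N1]) (one_le_exp (by linarith only [(big h O.sk O.hn).1]))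
  refine max_le (le_trans (hD.trans (by nlinarith only [m0, N1, D0])) e) (max_le ((hZ i (by omega) i2.le).trans e) ?_)
  obtain this := t2 (i - 1) i (by omega) (by omega) i2
  rw [chi_one] at this
  refine (mul_le_mul (exp_le_exp.2 (show _ ≤ -k.ch i / 4 by linarith only [(O.sk.1.ch_mem i).1]))
    (hZ (i - 1) (by omega) (by omega)) (abs_nonneg _) (exp_pos _).le).trans ?_
  linarith only [N1, mul_le_mul_of_nonneg_left this (show 0 ≤ N by linarith only [N1])]

include h hA hB hC hG O g8 O' hx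

theorem step {α D z γ D' N : ℝ} (γ0 : 0 ≤ γ) (γ1 : γ ≤ c.C0) (T : JTube k n α D z γ t t' S S')
    (hs : k.sz n α D z ≤ exp (-(c.ck * γ + 100) * k.sl n)) (hD : |t' - t| * exp (20 * k.sl n) ≤ D')
    (N1 : 1 ≤ N) (hZ : ∀ l, 0 ≤ l → l ≤ n → |S'.X l - S.X l| ≤
      N * k.mu n (2 * g ^ 2 * |S'.X n - S.X n| / k.w n) D' (2 * |S'.X 0 - S.X 0|) 0 l)
    {l : ℤ} (l1 : 1 ≤ l) (l2 : l < n) : |S'.X l - S.X l| ≤ (3 / 4 + N / 4) *
      k.mu n (2 * g ^ 2 * |S'.X n - S.X n| / k.w n) D' (2 * |S'.X 0 - S.X 0|) 0 l := by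
  obtain ⟨α0, z0, hD0, hT⟩ := T
  obtain ⟨s7, b1, b2, b3, -⟩ := big h O.sk O.hn
  obtain ⟨a1, -, -, -, -, a6, a7, -, -, -, -, a12, -, a14, -, -, -, a18⟩ := hA k O.sk
  have nN := (O.sk.1.F_mem n O.hn).2
  obtain s0 : 0 ≤ k.sl n := by linarith only [s7]
  have g1 := O.g1
  have cg := h.cg
  have hL := h.L
  obtain wn := O.sk.1.w_pos n (by omega)
  have wl := O.sk.1.w_pos l l1
  have τ0 := abs_nonneg (t' - t)
  obtain hD1 : |t' - t| ≤ D' := (le_mul_of_one_le_right τ0 (one_le_exp (by linarith only [s7]))).trans hD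
  have C0 : 0 ≤ c.C0 := γ0.trans γ1
  obtain α1 : 0 ≤ 2 * g ^ 2 * |S'.X n - S.X n| / k.w n := by (clear * - g1 wn; positivity)
  obtain z1 : 0 ≤ 2 * |S'.X 0 - S.X 0| := by (clear * -; positivity)
  obtain ⟨t1, t2, t3, -, t5⟩ := tab h hA hB hC O.sk O.hn α0 (τ0.trans hD0) z0 γ0 γ1
  obtain ⟨u1, u2, -, u4, -⟩ := tab h hA hB hC O.sk O.hn α1 (τ0.trans hD1) z1 le_rfl C0
  obtain y1 := fun i => yy_le (i := i) h hA hB hC O α0 z0 γ0 γ1 le_rfl hD0 fun l a b => by
    rw [one_mul]; exact hT l a b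
  have y2 := fun i => yy_le (i := i) h hA hB hC O α1 z1 le_rfl C0 N1 hD1 hZ
  have hΦ : k.mu n (2 * g ^ 2 * |S'.X n - S.X n| / k.w n) D' (2 * |S'.X 0 - S.X 0|) 0 l =
    k.w4 l * (2 * g ^ 2 * |S'.X n - S.X n| / k.w n) + D' * k.NN n 1 0 l +
      2 * |S'.X 0 - S.X 0| * exp (-k.chi 0 l / 4) := rfl
  generalize k.mu n (2 * g ^ 2 * |S'.X n - S.X n| / k.w n) D' (2 * |S'.X 0 - S.X 0|) 0 = Φ at *
  generalize k.mu n α D z γ = μ at *
  have μ0 : ∀ i, 0 ≤ i → i ≤ n → 0 ≤ μ i := fun i a b => (τ0.trans hD0).trans (t1 i a b)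
  have Φ0 : ∀ i, 0 ≤ i → i ≤ n → 0 ≤ Φ i := fun i a b => (τ0.trans hD1).trans (u1 i a b)
  obtain E0 : ∀ i, 1 ≤ i → i < n → 0 ≤ k.E n i := fun i a b => by
    exact le_of_mul_le_mul_right (by linarith only [nN, b, a12 n i a (by omega)]) (O.sk.1.w_pos i a)
  obtain ε : ∀ i, 1 ≤ i → i < n → k.E n i * k.w4 i * μ i ≤ exp (-88 * k.sl n) := fun i a b =>
    (t3 i a b).trans ((mul_le_mul_of_nonneg_left hs (exp_pos _).le).trans
      ((xm _ _ _).trans_le (xl s0 (by rw [Cs.ck]; linarith only [γ0, mul_nonneg h.κ.le γ0]))))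
  obtain x0 : 0 < |S.fr 1 n| :=
    pos_of_mul_pos_right (wn.trans_le (O.fit.f2 n O.hn le_rfl)) (by linarith only [g1])
  obtain NN1 := (a18 n 1 0 l le_rfl (by omega) (by omega)).1
  obtain Φl := Φ0 l (by omega) l2.le
  obtain N0 : 0 ≤ N := by linarith only [N1]
  obtain ⟨κ, hκ⟩ : ∃ κ, κ = c.CG * c.L * exp (8 * k.sl n) * N := ⟨_, rfl⟩
  obtain κ0 : 0 ≤ κ := by rw [hκ]; (clear * - cg hL N1; positivity)
  have bw := Sq.bw_le (S := S) (P := fun j => S'.X j - S.X j) (ξ := S.fr 1)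
    (Q := fun i => S'.X (i + 1) - S.X (i + 1) - S.a i * (S'.X i - S.X i) -
      S.b i * (S'.X (i - 1) - S.X (i - 1))) (B := fun i => k.PB i l)
    (E := fun i => if i < n then g ^ 2 * k.E n i else 0) (w := fun i => g * k.w i)
    (q := fun i => 2 * |t' - t| + κ * (μ i * Φ i)) l1 l2.le (abs_pos.1 x0) (fun j _ _ => by ring)
    (fun j a _ => S.fr_succ a) (fun i a b => pb_le fun j d e => O.fit.b j (by omega) (by omega))
    (fun i a b => O.fit.f1 i a (by omega))
    (fun i a b => by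
      split_ifs with e
      · rw [abs_div, div_le_iff₀ x0]
        linarith only [l1, a, g1, O.fit.fE n O.hn le_rfl i n (by omega) e le_rfl, mul_le_mul_of_nonneg_left
          (O.fit.f2 n O.hn le_rfl) (mul_nonneg (show 0 ≤ g by linarith only [g1]) (E0 i (by omega) e))]
      · rw [le_antisymm b (not_lt.1 e), Sq.fr_succ_self, zero_div, abs_zero])
    (fun i a b => by
      refine (tay h hG O O' a b.le (hx i (by omega) b.le) (hx _ (by omega) (by omega))).1.trans ?_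
      have := mul_le_mul (y1 i a b) (y2 i a b) (yy0 _ _ _ _ _ _)
        ((yy0 _ _ _ _ _ _).trans (y1 i a b))
      have e := xm (k.sl n) 4 4
      rw [hκ, sq, show (8 : ℝ) = 4 + 4 by norm_num, ← e]
      linarith only [cg, hL, mul_le_mul_of_nonneg_left this (show 0 ≤ c.CG * c.L by positivity)])
  obtain ⟨R, hR⟩ : ∃ R, R = 2 * |t' - t| * (exp (15 * k.sl n) * k.NN n 1 0 l) +
    κ * (exp (-79 * k.sl n) * Φ l) := ⟨_, rfl⟩
  obtain R0 : 0 ≤ R := by rw [hR]; (clear * - NN1 κ0 Φl; positivity)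
  obtain g3 : g ^ 3 ≤ 512 := (pow_le_pow_left₀ (by linarith only [g1]) g8 3).trans (by norm_num)
  obtain s1 : g * k.w l * ∑ i ∈ Ico l n, (if i < n then g ^ 2 * k.E n i else 0) *
      (2 * |t' - t| + κ * (μ i * Φ i)) ≤ exp (1 * k.sl n) * (512 * R) := by
    rw [mul_sum]
    refine (sum_le_card_nsmul _ _ (512 * R) fun i hi => ?_).trans
      ((nsmul_eq_mul _ _).trans_le (mul_le_mul_of_nonneg_right (b3 l n (by omega) le_rfl) (by (clear * - R0; positivity))))
    obtain ⟨i1, i2⟩ := mem_Ico.1 hi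
    obtain Ei := E0 i (by omega) i2
    obtain μi := μ0 i (by omega) i2.le
    obtain Φi := Φ0 i (by omega) i2.le
    obtain e1 := (t5 l i (by omega) i1 (by omega) i2).trans (mul_le_mul_of_nonneg_right
      (xl s0 (show (14 : ℝ) ≤ 15 by norm_num)) (by linarith only [NN1]))
    obtain e2 : k.w4 l * k.E n i * (μ i * Φ i) ≤ exp (-79 * k.sl n) * Φ l := calc
      _ = k.E n i * μ i * (k.w4 l * Φ i) := by ring
      _ ≤ k.E n i * μ i * (exp (6 * k.sl n) * (k.w4 i * Φ l)) := by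
        gcongr _ * ?_; exact u4 l i (by omega) i1 (by omega) i2
      _ = exp (6 * k.sl n) * (k.E n i * k.w4 i * μ i) * Φ l := by ring
      _ ≤ exp (6 * k.sl n) * exp (-88 * k.sl n) * Φ l := by gcongr; exact ε i (by omega) i2
      _ ≤ _ := by rw [xm]; gcongr; norm_num
    rw [if_pos i2]
    calc _ = g ^ 3 * (k.w l * k.E n i * (2 * |t' - t| + κ * (μ i * Φ i))) := by ring
      _ ≤ 512 * (k.w4 l * k.E n i * (2 * |t' - t| + κ * (μ i * Φ i))) := by gcongr; exact a1 l l1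
      _ ≤ _ := by
        rw [hR]
        linarith only [mul_le_mul_of_nonneg_left e1 τ0, mul_le_mul_of_nonneg_left e2 κ0]
  have El := E0 l l1 l2
  have w4l := wl.trans_le (a1 l l1)
  obtain s2 : g ^ 2 * k.E n l * ∑ i ∈ Ico 1 l, k.PB i l * (g * k.w i) *
      (2 * |t' - t| + κ * (μ i * Φ i)) ≤ exp (1 * k.sl n) * (512 * R) := by
    rw [mul_sum]
    refine (sum_le_card_nsmul _ _ (512 * R) fun i hi => ?_).trans
      ((nsmul_eq_mul _ _).trans_le (mul_le_mul_of_nonneg_right (b3 1 l (by omega) l2.le) (by (clear * - R0; positivity))))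
    obtain ⟨i1, i2⟩ := mem_Ico.1 hi
    obtain μi := μ0 i (by omega) (by omega)
    obtain Φi := Φ0 i (by omega) (by omega)
    obtain μl := μ0 l (by omega) l2.le
    obtain d := (O.sk.2.d4 i l i1 i2.le (by omega)).trans (show _ ≤ exp (1 * k.sl n) *
        (exp (-k.chi i l / 4) * exp (-k.chi i l / 4)) * k.w4 l by
      rw [← exp_add (-k.chi i l / 4), show -k.chi i l / 4 + -k.chi i l / 4 = -k.chi i l / 2 by ring, one_mul]
      gcongr
      exacts [a6 n O.hn l l2, a1 l l1])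
    obtain x1 : exp (-k.chi i l / 4) ≤ 1 := exp_le_one_iff.2 (by linarith only [chi0 O.sk i l])
    have x2 := (exp_pos (-k.chi i l / 4)).le
    obtain v1 := t2 i l (by omega) i2.le l2
    obtain v2 := u2 i l (by omega) i2.le l2
    generalize exp (-k.chi i l / 4) = x at *
    obtain e1 : exp (1 * k.sl n) * (x * x) * k.w4 l * k.E n l ≤ exp (15 * k.sl n) * k.NN n 1 0 l := calc
      _ = exp (1 * k.sl n) * (x * x) * (k.w4 l * k.E n l) := by ring
      _ ≤ exp (1 * k.sl n) * (1 * 1) * (exp (14 * k.sl n) * k.NN n 1 0 l) := by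
        gcongr _ * (?_ * ?_) * ?_; exact t5 l l (by omega) le_rfl l1 l2
      _ = _ := by rw [mul_one, mul_one, ← mul_assoc, xm]; norm_num
    obtain e2 : exp (1 * k.sl n) * (x * x) * k.w4 l * k.E n l * (μ i * Φ i) ≤
        exp (-79 * k.sl n) * Φ l := calc
      _ = exp (1 * k.sl n) * (k.E n l * k.w4 l) * ((x * μ i) * (x * Φ i)) := by ring
      _ ≤ exp (1 * k.sl n) * (k.E n l * k.w4 l) *
          ((exp (4 * k.sl n) * μ l) * (exp (4 * k.sl n) * Φ l)) := by (clear * - v1 v2 x2 Φi μl El w4l; gcongr)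
      _ = exp (1 * k.sl n) * exp (4 * k.sl n) * exp (4 * k.sl n) * (k.E n l * k.w4 l * μ l) * Φ l := by
        ring
      _ ≤ exp (1 * k.sl n) * exp (4 * k.sl n) * exp (4 * k.sl n) * exp (-88 * k.sl n) * Φ l := by
        gcongr; exact ε l l1 l2
      _ = _ := by rw [xm, xm, xm]; norm_num
    calc _ = g ^ 3 * (k.PB i l * k.w i * k.E n l * (2 * |t' - t| + κ * (μ i * Φ i))) := by ring
      _ ≤ g ^ 3 * (exp (1 * k.sl n) * (x * x) * k.w4 l * k.E n l *
          (2 * |t' - t| + κ * (μ i * Φ i))) := by (clear * - d El κ0 μi Φi g1; gcongr)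
      _ ≤ 512 * (exp (1 * k.sl n) * (x * x) * k.w4 l * k.E n l *
          (2 * |t' - t| + κ * (μ i * Φ i))) := by (clear * - g3 x2 w4l El κ0 μi Φi; gcongr)
      _ ≤ _ := by
        rw [hR]
        linarith only [mul_le_mul_of_nonneg_left e1 τ0, mul_le_mul_of_nonneg_left e2 κ0]
  obtain s3 : exp (1 * k.sl n) * (512 * R) ≤ D' * k.NN n 1 0 l / 8 + N * Φ l / 8 := by
    obtain e1 : 8192 * (exp (1 * k.sl n) * exp (15 * k.sl n)) ≤ exp (20 * k.sl n) :=
      (mul_le_mul_of_nonneg_right (show _ ≤ exp (1 * k.sl n) by linarith only [b1, cg]) (by positivity)).trans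
        (by rw [xm, xm]; exact xl s0 (by norm_num))
    obtain e2 : 4096 * c.CG * c.L * (exp (1 * k.sl n) * exp (8 * k.sl n) * exp (-79 * k.sl n)) ≤ 1 := by
      refine (mul_le_mul_of_nonneg_right (mul_le_mul (show _ ≤ exp (1 * k.sl n) by linarith only [b1, cg]) b2
        (by linarith only [hL]) (exp_pos _).le) (by positivity)).trans ?_
      rw [xm, xm, xm, xm]
      exact exp_le_one_iff.2 (by linarith only [s7])
    rw [hR, hκ]
    linarith only [mul_le_mul_of_nonneg_right e1 (mul_nonneg τ0 (zero_le_one.trans NN1)),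
      mul_le_mul_of_nonneg_right e2 (mul_nonneg N0 Φl),
      mul_le_mul_of_nonneg_right hD (zero_le_one.trans NN1)]
  obtain s4 : g ^ 2 * k.E n l * (|S.Pb 1 l| * |S.Wr (fun j => S'.X j - S.X j) (S.fr 1) 1|) ≤
      |S'.X 0 - S.X 0| * exp (-k.chi 0 l / 4) := by
    obtain ⟨c0, c1⟩ := O.fit.b 1 le_rfl (by omega)
    obtain d := O.sk.2.d4 1 l le_rfl l1 (by omega)
    have e1 := (a14 n O.hn l l1 l2).2.1
    have e2 := chi_one k 1
    have e3 := chi_add k zero_le_one l1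
    obtain e4 := (a7 l l1 (by omega)).2
    have e5 := chi0 O.sk 0 l
    obtain bl : 10 ^ 7 ≤ c.bl := le_trans (by linarith only [cg, h.lam])
      (le_mul_of_one_le_left (by linarith only [cg, h.lam]) h.be)
    obtain e6 : k.σ l ≤ k.chi 0 l / 1000 := by
      obtain this : 0 < c.ck := by rw [Cs.ck]; linarith only [h.κ]
      refine le_of_mul_le_mul_left ?_ (show 0 < c.C0 by linarith only [h.C0, h.κ])
      linarith only [e4, mul_le_mul_of_nonneg_right (show 1000 * c.ck ≤ c.C0 from h.C0) e5]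
    rw [O.sk.1.w1, mul_one] at d
    rw [sub_self, O.sk.1.ch_one.1] at e2
    rw [O.sk.1.ch_one.2] at c1
    rw [Sq.Wr, Sq.fr_pred, Sq.fr_self, mul_zero, one_mul, zero_sub, abs_mul, abs_neg, sub_self,
      abs_of_nonneg c0]
    obtain p := (pb_le fun j a b => O.fit.b j (by omega) (by omega)).trans d
    obtain g2 : g ^ 2 ≤ exp (c.bl / 2) :=
      (pow_le_pow_left₀ (by linarith only [g1]) g8 2).trans (by linarith only [bl, add_one_le_exp (c.bl / 2)])
    calc _ ≤ exp (c.bl / 2) * k.E n l * (exp (k.σ l) * exp (-k.chi 1 l / 2) * k.w4 l *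
          (exp (-c.bl) * |S'.X 0 - S.X 0|)) := by
          gcongr ?_ * _ * (?_ * (?_ * _))
          exact p.trans (by gcongr; exact a1 l l1)
      _ = |S'.X 0 - S.X 0| * (k.E n l * k.w4 l *
          (exp (c.bl / 2) * exp (k.σ l) * exp (-k.chi 1 l / 2) * exp (-c.bl))) := by ring
      _ ≤ |S'.X 0 - S.X 0| * (k.E n l * k.w4 l *
          (exp (-k.chi 0 l / 100) * exp (-k.chi 0 l / 4))) := by
          simp only [← exp_add]
          gcongr _ * (_ * exp ?_)
          linarith only [e2, e3, e5, e6]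
      _ ≤ _ := by
          rw [← mul_assoc (_ * _)]
          exact mul_le_mul_of_nonneg_left (mul_le_of_le_one_left (exp_pos _).le e1) (abs_nonneg _)
  obtain s5 : |S.fr 1 l * ((S'.X n - S.X n) / S.fr 1 n)| ≤
      k.w4 l * (2 * g ^ 2 * |S'.X n - S.X n| / k.w n) / 2 := by
    rw [abs_mul, abs_div]
    refine (mul_le_mul ((O.fit.f1 l l1 l2.le).trans (mul_le_mul_of_nonneg_left (a1 l l1) (by linarith only [g1])))
      (show _ ≤ g * |S'.X n - S.X n| / k.w n by
        rw [div_le_div_iff₀ x0 wn]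
        linarith only [mul_le_mul_of_nonneg_left (O.fit.f2 n O.hn le_rfl) (abs_nonneg (S'.X n - S.X n))])
      (by (clear * - x0; positivity)) (by positivity)).trans_eq (by ring)
  rw [if_pos l2, mul_add (g ^ 2 * k.E n l)] at bw
  have := abs_sub_abs_le_abs_sub (S'.X l - S.X l) (S.fr 1 l * ((S'.X n - S.X n) / S.fr 1 n))
  have p1 := mul_nonneg w4l.le α1
  have p2 := mul_nonneg (τ0.trans hD1) (zero_le_one.trans NN1)
  have p3 := mul_nonneg z1 (exp_pos (-k.chi 0 l / 4)).le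
  linarith only [hΦ, Φl, bw, s1, s2, s3, s4, s5, this, p2]

theorem part1 (n1 : 1 < n) {α D z γ : ℝ} (γ0 : 0 ≤ γ) (γ1 : γ ≤ c.C0)
    (T : JTube k n α D z γ t t' S S') (hs : k.sz n α D z ≤ exp (-(c.ck * γ + 100) * k.sl n))
    {l : ℤ} (l0 : 0 ≤ l) (l2 : l ≤ n) : |S'.X l - S.X l| ≤ k.mu n
      (2 * g ^ 2 * |S'.X n - S.X n| / k.w n) (|t' - t| * exp (20 * k.sl n)) (2 * |S'.X 0 - S.X 0|) 0 l := by
  obtain ⟨-, a2, a3, -, -, -, -, -, -, -, -, -, -, -, -, -, -, a18⟩ := hA k O.sk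
  have nN := (O.sk.1.F_mem n O.hn).2
  have wn := O.sk.1.w_pos n n1.le
  have g1 := O.g1
  obtain α1 : 0 ≤ 2 * g ^ 2 * |S'.X n - S.X n| / k.w n := by (clear * - g1 wn; positivity)
  obtain z1 : 0 ≤ 2 * |S'.X 0 - S.X 0| := by (clear * -; positivity)
  have N1 := fun l (a : 0 ≤ l) (b : l ≤ n) => (a18 n 1 0 l le_rfl a (b.trans nN)).1
  obtain key : ∀ D', 0 < D' → |t' - t| * exp (20 * k.sl n) ≤ D' → |S'.X l - S.X l| ≤
      k.mu n (2 * g ^ 2 * |S'.X n - S.X n| / k.w n) D' (2 * |S'.X 0 - S.X 0|) 0 l := by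
    intro D' D0 hD
    have st := fun N => step (N := N) h hA hB hC hG O g8 O' hx γ0 γ1 T hs hD
    have u1 := (tab h hA hB hC O.sk O.hn α1 D0.le z1 le_rfl (γ0.trans γ1)).1
    obtain e0 : |S'.X 0 - S.X 0| ≤ 3 / 4 *
        k.mu n (2 * g ^ 2 * |S'.X n - S.X n| / k.w n) D' (2 * |S'.X 0 - S.X 0|) 0 0 := by
      rw [Sk.mu, a2, show exp (-k.chi 0 0 / 4) = 1 by simp [Sk.chi]]
      linarith only [z1, n1, mul_nonneg D0.le (zero_le_one.trans (N1 0 le_rfl (by omega)))]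
    obtain en : |S'.X n - S.X n| ≤ 3 / 4 *
        k.mu n (2 * g ^ 2 * |S'.X n - S.X n| / k.w n) D' (2 * |S'.X 0 - S.X 0|) 0 n := by
      rw [Sk.mu, a3 n O.hn, mul_div_cancel₀ _ wn.ne']
      linarith only [n1, mul_nonneg D0.le (zero_le_one.trans (N1 n (by omega) le_rfl)),
        mul_nonneg z1 (exp_pos (-k.chi 0 n / 4)).le, abs_nonneg (S'.X n - S.X n),
        mul_le_mul_of_nonneg_right (one_le_pow₀ g1 (n := 2)) (abs_nonneg (S'.X n - S.X n))]
    generalize k.mu n (2 * g ^ 2 * |S'.X n - S.X n| / k.w n) D' (2 * |S'.X 0 - S.X 0|) 0 = Φ at *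
    have Φ0 : ∀ i, 0 ≤ i → i ≤ n → 0 < Φ i := fun i a b => D0.trans_le (u1 i a b)
    obtain ⟨m, hm, hmax⟩ := exists_max_image (Icc 0 n) (fun j => |S'.X j - S.X j| / Φ j)
      ⟨0, mem_Icc.2 ⟨le_rfl, by omega⟩⟩
    obtain ⟨m0, m1⟩ := mem_Icc.1 hm
    have Φm := Φ0 m m0 m1
    refine (div_le_one (Φ0 l l0 l2)).1 ((hmax l (mem_Icc.2 ⟨l0, l2⟩)).trans ?_)
    by_contra r
    rw [not_le] at r
    have r1 := (one_lt_div Φm).1 r
    rcases m0.eq_or_lt with rfl | m0
    · linarith only [e0, Φm, r1]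
    rcases m1.eq_or_lt with rfl | m1
    · linarith only [Φm, r1, en]
    have := st _ r.le (fun j a b => (div_le_iff₀ (Φ0 j a b)).1 (hmax j (mem_Icc.2 ⟨a, b⟩))) m0 m1
    rw [add_mul, div_mul_eq_mul_div (_ / _), div_mul_cancel₀ _ Φm.ne'] at this
    linarith only [r1, this]
  refine le_of_forall_pos_le_add fun ε ε0 => ?_
  have Nl := N1 l l0 l2
  refine (key (_ + ε / k.NN n 1 0 l) (by (clear * - ε0 Nl; positivity)) (le_add_of_nonneg_right (by (clear * - ε0 Nl; positivity)))).trans_eq ?_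
  rw [Sk.mu, Sk.mu, add_mul, div_mul_cancel₀ _ (by linarith only [Nl])]
  ring

omit hC hG g8 O' hx in
theorem yy_sharp {D' : ℝ} (hD : |t' - t| ≤ D') (hZ : ∀ l, 0 ≤ l → l ≤ n → |S'.X l - S.X l| ≤
      k.mu n (2 * g ^ 2 * |S'.X n - S.X n| / k.w n) D' (2 * |S'.X 0 - S.X 0|) 0 l)
    {i : ℤ} (i1 : 1 ≤ i) (i2 : i < n) : exp (-(49 / 100) * k.chi i n) * yy k t t' S S' i ≤
      8 * g ^ 2 * |S'.X n - S.X n| * exp (-(45 / 100) * k.chi i n) + D' * exp (3 * k.sl n) +
        2 * |S'.X 0 - S.X 0| * exp (-k.chi 0 n / 4) := by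
  obtain ⟨-, -, -, -, -, -, -, -, -, a10, -, -, -, -, -, -, -, a18⟩ := hA k O.sk
  have nN := (O.sk.1.F_mem n O.hn).2
  obtain wn := O.sk.1.w_pos n (by omega)
  obtain C0 : 2000 ≤ c.C0 := by linarith only [h.C0, h.κ]
  have D0 := (abs_nonneg _).trans hD
  obtain ⟨α, hα⟩ : ∃ α, α = 2 * g ^ 2 * |S'.X n - S.X n| / k.w n := ⟨_, rfl⟩
  obtain α0 : 0 ≤ α := by rw [hα]; (clear * - wn; positivity)
  obtain z0 : 0 ≤ 2 * |S'.X 0 - S.X 0| := by (clear * -; positivity)
  rw [← hα] at hZ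
  generalize 2 * |S'.X 0 - S.X 0| = z at *
  obtain ⟨b1, b2⟩ := (hB k O.sk n O.hn 1 0 (by norm_num; linarith only [C0]) le_rfl (by linarith only [C0])).1 i i1 i2.le
  obtain b3 := (hB k O.sk n O.hn 1 1 (by norm_num; linarith only [C0]) zero_le_one (by linarith only [C0])).2.2.2 i
    (49 / 100) (by omega) i2 (by norm_num; linarith only [C0])
  obtain ⟨n1, n2, -⟩ := a18 n 1 0 i le_rfl (by omega) (by omega)
  have n3 := n2 n 1 1 le_rfl le_rfl zero_le_one
  obtain w0 := mul_nonneg (w4p hA O.sk (show 0 ≤ i by omega)) α0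
  have x0 := mul_nonneg z0 (exp_pos (-k.chi 0 i / 4)).le
  have c0 := chi0 O.sk i n
  have q0 := (exp_pos (-k.ch i / 2)).le
  rw [zero_add] at b2
  obtain e : yy k t t' S S' i ≤ 2 * k.w4 i * α + D' * k.NN n 1 1 i + z * exp (-k.chi 0 i / 4) := by
    refine max_le ?_ (max_le ((hZ i (by omega) i2.le).trans ?_)
      ((mul_le_mul_of_nonneg_left (hZ (i - 1) (by omega) (by omega)) q0).trans ?_))
    · linarith only [hD, w0, x0, mul_le_mul_of_nonneg_left (n1.trans n3) D0]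
    · rw [Sk.mu]; linarith only [w0, mul_le_mul_of_nonneg_left n3 D0]
    · obtain this : exp (-k.ch i / 2) * exp (-k.chi 0 (i - 1) / 4) ≤ exp (-k.chi 0 i / 4) := by
        rw [← exp_add, chi_add k (show 0 ≤ i - 1 by omega) (show i - 1 ≤ i by omega), chi_one]
        exact exp_le_exp.2 (by linarith only [(O.sk.1.ch_mem i).1])
      rw [Sk.mu]
      linarith only [mul_le_mul_of_nonneg_right b1 α0, mul_le_mul_of_nonneg_left b2 D0,
        mul_le_mul_of_nonneg_left this z0]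
  obtain e1 : exp (-(49 / 100) * k.chi i n) * k.w4 i ≤ 2 * exp (-(45 / 100) * k.chi i n) * k.w n := by
    refine (mul_le_mul_of_nonneg_left (a10 n O.hn i (by omega) i2.le).2.2 (exp_pos _).le).trans ?_
    rw [← mul_assoc, mul_left_comm, ← exp_add]
    gcongr 2 * exp ?_ * _
    linarith only [c0]
  obtain e2 : exp (-(49 / 100) * k.chi i n) * exp (-k.chi 0 i / 4) ≤ exp (-k.chi 0 n / 4) := by
    rw [← exp_add, chi_add k (show 0 ≤ i by omega) i2.le]
    exact exp_le_exp.2 (by linarith only [c0])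
  obtain e3 : k.w n * α = 2 * g ^ 2 * |S'.X n - S.X n| := by rw [hα, mul_div_cancel₀ _ wn.ne']
  rw [show (1 + 2 : ℝ) = 3 by norm_num] at b3
  refine (mul_le_mul_of_nonneg_left e (exp_pos _).le).trans ?_
  have e4 := mul_le_mul_of_nonneg_right e1 α0
  rw [mul_assoc (2 * _), e3] at e4
  linarith only [e4, mul_le_mul_of_nonneg_left b3 D0, mul_le_mul_of_nonneg_left e2 z0]

omit hC in
theorem part23 (n1 : 1 < n) (hτ : |t' - t| ≤ exp (-100 * k.sl n))
    (hZ : ∀ l, 0 ≤ l → l ≤ n → |S'.X l - S.X l| ≤ k.mu n (2 * g ^ 2 * |S'.X n - S.X n| / k.w n)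
      (|t' - t| * exp (20 * k.sl n)) (2 * |S'.X 0 - S.X 0|) 0 l)
    (f1 : ∀ i, 1 ≤ i → i ≤ n → |S'.fr 1 i| ≤ 2 * g * k.w i) (f2 : k.w n ≤ 2 * g * |S'.fr 1 n|) :
    k.B n * |S'.X (n - 1) - S.X (n - 1) - S.fr 1 (n - 1) / S.fr 1 n * (S'.X n - S.X n)| ≤
      10 ^ 10 * c.CG * c.L * exp (-(9 / 10) * k.ch n) * (S'.X n - S.X n) ^ 2
        + |t' - t| * exp (30 * k.sl n) + exp (-k.chi 0 n / 5) ∧
    k.B n * |S'.fr 1 (n - 1) / S'.fr 1 n - S.fr 1 (n - 1) / S.fr 1 n| ≤
      10 ^ 10 * c.CG * c.L * exp (-(9 / 10) * k.ch n) * |S'.X n - S.X n|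
        + |t' - t| * exp (30 * k.sl n) + exp (-k.chi 0 n / 5) := by
  obtain ⟨s7, b1, b2, b3, b4⟩ := big h O.sk O.hn
  obtain s0 : 0 ≤ k.sl n := by linarith only [s7]
  have g1 := O.g1
  have cg := h.cg
  have hL := h.L
  have wn := O.sk.1.w_pos n n1.le
  have τ0 := abs_nonneg (t' - t)
  have B0 : 0 ≤ k.B n := (exp_pos _).le.trans (O.sk.1.B_lo n)
  have e2 := O.fit.f2 n O.hn le_rfl
  obtain x0 : 0 < |S.fr 1 n| := pos_of_mul_pos_right (wn.trans_le e2) (by linarith only [g1])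
  obtain x0' : 0 < |S'.fr 1 n| := pos_of_mul_pos_right (wn.trans_le f2) (by linarith only [g1])
  obtain ty := fun i (a : 1 ≤ i) (b : i < n) =>
    tay h hG O O' a b.le (hx i (by omega) b.le) (hx _ (by omega) (by omega))
  obtain ys := fun i => yy_sharp (i := i) h hA hB O
    (le_mul_of_one_le_right τ0 (one_le_exp (by linarith only [s7]))) hZ
  obtain z0 := hx 0 le_rfl (by omega)
  have z1 := abs_nonneg (S'.X 0 - S.X 0)
  have gm := geom O.sk n1.le
  have cd := b3 1 n zero_le_one le_rfl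
  obtain g2 : g ^ 2 ≤ 64 := (pow_le_pow_left₀ (by linarith only [g1]) g8 2).trans (by norm_num)
  obtain g4 : g ^ 4 ≤ 4096 := (pow_le_pow_left₀ (by linarith only [g1]) g8 4).trans (by norm_num)
  obtain g6 : g ^ 6 ≤ 262144 := (pow_le_pow_left₀ (by linarith only [g1]) g8 6).trans (by norm_num)
  obtain ⟨U, hU⟩ : ∃ U, U = |S'.X n - S.X n| := ⟨_, rfl⟩
  have U0 : 0 ≤ U := hU ▸ abs_nonneg _
  obtain ⟨b, hb⟩ : ∃ b, b = |t' - t| * exp (23 * k.sl n) := ⟨_, rfl⟩
  obtain ⟨z, hz⟩ : ∃ z, z = exp (-k.chi 0 n / 4) := ⟨_, rfl⟩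
  obtain b0 : 0 ≤ b := by rw [hb]; (clear * -; positivity)
  have zp : 0 < z := hz ▸ exp_pos _
  obtain ys' : ∀ i, 1 ≤ i → i < n → exp (-(49 / 100) * k.chi i n) * yy k t t' S S' i ≤
      8 * g ^ 2 * U * exp (-(45 / 100) * k.chi i n) + b + z := fun i a d => (ys i a d).trans (by
    rw [mul_assoc |t' - t|, xm, ← hU, ← hz, show (20 + 3 : ℝ) = 23 by norm_num, ← hb]
    nlinarith only [zp, z0])
  obtain CL : 10 ^ 7 * (c.CG * c.L) ≤ exp (2 * k.sl n) := by
    rw [← mul_assoc, show (2 : ℝ) = 1 + 1 by norm_num, ← xm]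
    exact mul_le_mul b1 b2 (by linarith only [hL]) (exp_pos _).le
  have CL1 : 1 ≤ c.CG * c.L := one_le_mul_of_one_le_of_one_le cg hL
  obtain x3 : exp (1 * k.sl n) * exp (2 * k.sl n) = exp (3 * k.sl n) := by rw [xm]; norm_num
  obtain z3 : exp (3 * k.sl n) * z ≤ exp (-k.chi 0 n / 5) := by
    rw [hz, ← exp_add]; exact exp_le_exp.2 (by linarith only [s7, b4])
  obtain ee : ∀ i, exp (-(45 / 100) * k.chi i n) * exp (-(45 / 100) * k.chi i n) =
      exp (-(9 / 10) * k.chi i n) := fun i => by rw [← exp_add]; congr 1; ring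
  obtain sm : ∀ (f : ℤ → ℝ) (A R : ℝ), 0 ≤ A → 0 ≤ R →
      (∀ i, 1 ≤ i → i < n → f i ≤ A * exp (-(9 / 10) * k.chi i n) + R) →
      ∑ i ∈ Ico 1 n, f i ≤ A * (4 * exp (-(9 / 10) * k.ch n)) + exp (1 * k.sl n) * R := by
    intro f A R A0 R0 hf
    refine (sum_le_sum fun i hi => hf i (mem_Ico.1 hi).1 (mem_Ico.1 hi).2).trans ?_
    rw [sum_add_distrib, ← mul_sum, sum_const, nsmul_eq_mul]
    (clear * - gm A0 cd R0; gcongr)
  have ch := (exp_pos (-(9 / 10) * k.ch n)).le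
  constructor
  · obtain w := wrB O n1 (P := fun j => S'.X j - S.X j) (fun j _ _ => by ring) fun i a d => (ty i a d).1
    rw [← mul_sum] at w
    obtain bb : b * b ≤ |t' - t| := by
      rw [hb, mul_mul_mul_comm, xm, mul_assoc]
      refine mul_le_of_le_one_right τ0 ((mul_le_mul_of_nonneg_right hτ (exp_pos _).le).trans ?_)
      rw [xm]; exact exp_le_one_iff.2 (by linarith only [s7])
    obtain zz : z * z ≤ z := mul_le_of_le_one_right zp.le (hz ▸ exp_le_one_iff.2 (by linarith only [s7, b4]))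
    obtain s1 := sm (fun i => exp (-(99 / 100) * k.chi i n) *
        (2 * |t' - t| + c.CG * c.L * yy k t t' S S' i ^ 2)) (c.CG * c.L * (192 * g ^ 4 * U ^ 2))
      (c.CG * c.L * (5 * |t' - t| + 3 * z)) (by (clear * - cg hL g1; positivity)) (by (clear * - cg hL zp; positivity)) fun i a d => by
        have c0 := chi0 O.sk i n
        have v := pow_le_pow_left₀ (mul_nonneg (exp_pos _).le (yy0 _ _ _ _ _ _)) (ys' i a d) 2
        obtain v1 : exp (-(99 / 100) * k.chi i n) ≤ exp (-(49 / 100) * k.chi i n) ^ 2 := by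
          rw [sq, ← exp_add]; exact exp_le_exp.2 (by linarith only [c0])
        obtain v2 : exp (-(99 / 100) * k.chi i n) ≤ 1 := exp_le_one_iff.2 (by linarith only [c0])
        rw [← ee]
        generalize exp (-(45 / 100) * k.chi i n) = x at *
        obtain v3 : exp (-(99 / 100) * k.chi i n) * yy k t t' S S' i ^ 2 ≤
            192 * g ^ 4 * U ^ 2 * (x * x) + 3 * |t' - t| + 3 * z := by
          linarith only [bb, zz, v, mul_le_mul_of_nonneg_right v1 (sq_nonneg (yy k t t' S S' i)),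
            sq_nonneg (8 * g ^ 2 * U * x - b), sq_nonneg (8 * g ^ 2 * U * x - z), sq_nonneg (b - z)]
        linarith only [mul_le_mul_of_nonneg_left v3 (zero_le_one.trans CL1),
          mul_le_mul_of_nonneg_right v2 τ0, mul_le_mul_of_nonneg_right CL1 τ0]
    obtain e : |(S'.X n - S.X n) * S.fr 1 (n - 1) - S.fr 1 n * (S'.X (n - 1) - S.X (n - 1))| =
        |S'.X (n - 1) - S.X (n - 1) - S.fr 1 (n - 1) / S.fr 1 n * (S'.X n - S.X n)| * |S.fr 1 n| := by
      have := abs_pos.1 x0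
      rw [← abs_mul, abs_sub_comm]; congr 1; field_simp
    rw [e, ← mul_assoc (k.B n)] at w
    have p0 := mul_nonneg B0 (abs_nonneg
      (S'.X (n - 1) - S.X (n - 1) - S.fr 1 (n - 1) / S.fr 1 n * (S'.X n - S.X n)))
    rw [← sq_abs (S'.X n - S.X n), ← hU]
    generalize k.B n * |S'.X (n - 1) - S.X (n - 1) - S.fr 1 (n - 1) / S.fr 1 n * (S'.X n - S.X n)|
      = Y at *
    obtain r1 : Y ≤ g * (2 * exp (-(99 / 100) * k.chi 0 n) * |S'.X 0 - S.X 0|) + 2 * g ^ 2 *
        (c.CG * c.L * (192 * g ^ 4 * U ^ 2) * (4 * exp (-(9 / 10) * k.ch n)) +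
          exp (1 * k.sl n) * (c.CG * c.L * (5 * |t' - t| + 3 * z))) :=
      le_of_mul_le_mul_right (by
        linarith only [wn, mul_le_mul_of_nonneg_left e2 p0, mul_le_mul_of_nonneg_left w (zero_le_one.trans g1),
          mul_le_mul_of_nonneg_left s1 (show 0 ≤ 2 * g ^ 2 * k.w n by (clear * - g1 wn; positivity))]) wn
    obtain r2 : g * (2 * exp (-(99 / 100) * k.chi 0 n) * |S'.X 0 - S.X 0|) ≤
        8 * (2 * exp (-k.chi 0 n / 5) * (1 / 10000)) := by
      gcongr; linarith only [s7, b4]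
    obtain r3 : 2 * g ^ 2 * (exp (1 * k.sl n) * (c.CG * c.L * (5 * |t' - t| + 3 * z))) ≤
        2 * 64 * (exp (1 * k.sl n) * (exp (2 * k.sl n) / 10 ^ 7 * (5 * |t' - t| + 3 * z))) := by
      gcongr; linarith only [CL]
    obtain r4 := mul_le_mul_of_nonneg_left (x3.trans_le (xl s0 (show (3 : ℝ) ≤ 30 by norm_num))) τ0
    rw [← x3] at z3
    linarith only [z3, p0, r1, r2, r3, r4, cg, hL, mul_le_mul_of_nonneg_right g6
      (show 0 ≤ c.CG * c.L * exp (-(9 / 10) * k.ch n) * U ^ 2 by (clear * - cg hL; positivity)),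
      show 0 ≤ c.CG * c.L * exp (-(9 / 10) * k.ch n) * U ^ 2 by (clear * - cg hL; positivity),
      show 0 ≤ |t' - t| * exp (30 * k.sl n) by (clear * -; positivity), exp_pos (-k.chi 0 n / 5)]
  · have w := wrB O n1 (P := S'.fr 1)
      (Q := fun i => (S'.a i - S.a i) * S'.fr 1 i + (S'.b i - S.b i) * S'.fr 1 (i - 1))
      (q := fun i => 4 * g * (c.CG * c.L) * (yy k t t' S S' i * k.w i))
      (fun j a _ => by rw [S'.fr_succ a]; ring) fun i a d => by
        obtain ⟨-, t1, t2⟩ := ty i a d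
        have y0 := mul_nonneg (zero_le_one.trans CL1) (yy0 k t t' S S' i)
        obtain f3 : |S'.fr 1 (i - 1)| ≤ 2 * g * k.w (i - 1) := by
          rcases a.eq_or_lt with rfl | a
          · rw [Sq.fr_pred, sub_self, O.sk.1.w0, abs_zero, mul_zero]
          · exact f1 _ (by omega) (by omega)
        refine (abs_add_le _ _).trans ?_
        rw [abs_mul, abs_mul]
        linarith only [mul_le_mul t1 (f1 i a d.le) (abs_nonneg _) y0,
          mul_le_mul t2 f3 (abs_nonneg _) ((abs_nonneg _).trans t2),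
          mul_le_mul_of_nonneg_left (O.sk.1.w_step i a) (mul_nonneg y0 (zero_le_one.trans g1))]
    rw [← mul_sum, S'.fr_lt zero_lt_one, abs_zero, mul_zero, zero_add] at w
    have s1 := sm (fun i => exp (-(99 / 100) * k.chi i n) *
        (4 * g * (c.CG * c.L) * (yy k t t' S S' i * k.w i)))
      (8 * g * (c.CG * c.L) * k.w n * (8 * g ^ 2 * U)) (8 * g * (c.CG * c.L) * k.w n * (b + z))
      (by (clear * - g1 cg hL wn U0; positivity)) (by (clear * - g1 cg hL wn b0 zp; positivity)) fun i a d => by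
        have c0 := chi0 O.sk i n
        obtain x1 : exp (-(45 / 100) * k.chi i n) ≤ 1 := exp_le_one_iff.2 (by linarith only [c0])
        obtain v1 : exp (-(99 / 100) * k.chi i n) * k.w i ≤ 2 * (exp (-(45 / 100) * k.chi i n) *
            exp (-(49 / 100) * k.chi i n)) * k.w n := by
          refine (mul_le_mul_of_nonneg_left (O.sk.2.i2 n O.hn i a d.le).2 (exp_pos _).le).trans ?_
          rw [← mul_assoc, mul_left_comm, ← exp_add, ← exp_add]
          gcongr 2 * exp ?_ * _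
          linarith only [c0]
        have v2 := mul_le_mul_of_nonneg_left (ys' i a d) (exp_pos (-(45 / 100) * k.chi i n)).le
        obtain v3 := mul_le_mul_of_nonneg_right x1 (show 0 ≤ b + z by linarith only [b0, zp])
        rw [← ee]
        generalize exp (-(45 / 100) * k.chi i n) = x at *
        obtain v4 : exp (-(99 / 100) * k.chi i n) * (yy k t t' S S' i * k.w i) ≤
            2 * k.w n * (8 * g ^ 2 * U * (x * x) + (b + z)) := by
          linarith only [mul_le_mul_of_nonneg_right v1 (yy0 k t t' S S' i),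
            mul_le_mul_of_nonneg_left v2 wn.le, mul_le_mul_of_nonneg_left v3 wn.le]
        linarith only [g1, cg, hL, mul_le_mul_of_nonneg_left v4 (show 0 ≤ 4 * g * (c.CG * c.L) by (clear * - g1 cg hL; positivity))]
    obtain e : |S'.fr 1 n * S.fr 1 (n - 1) - S.fr 1 n * S'.fr 1 (n - 1)| =
        |S'.fr 1 (n - 1) / S'.fr 1 n - S.fr 1 (n - 1) / S.fr 1 n| * (|S.fr 1 n| * |S'.fr 1 n|) := by
      have := abs_pos.1 x0
      have := abs_pos.1 x0'
      rw [← abs_mul, ← abs_mul, abs_sub_comm]; congr 1; field_simp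
    rw [e, ← mul_assoc (k.B n)] at w
    have p0 := mul_nonneg B0 (abs_nonneg (S'.fr 1 (n - 1) / S'.fr 1 n - S.fr 1 (n - 1) / S.fr 1 n))
    rw [← hU]
    generalize k.B n * |S'.fr 1 (n - 1) / S'.fr 1 n - S.fr 1 (n - 1) / S.fr 1 n| = Y at *
    obtain r1 : Y ≤ 32 * g ^ 4 * (c.CG * c.L * (8 * g ^ 2 * U) * (4 * exp (-(9 / 10) * k.ch n)) +
        exp (1 * k.sl n) * (c.CG * c.L * (b + z))) :=
      le_of_mul_le_mul_right (by
        linarith only [g1, x0, mul_le_mul_of_nonneg_left (mul_le_mul e2 f2 wn.le (by (clear * - g1 x0; positivity))) p0,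
          mul_le_mul_of_nonneg_left w (show 0 ≤ 2 * g ^ 2 by positivity),
          mul_le_mul_of_nonneg_left s1 (show 0 ≤ 4 * g ^ 3 * k.w n by positivity)]) (mul_pos wn wn)
    obtain r3 : 32 * g ^ 4 * (exp (1 * k.sl n) * (c.CG * c.L * (b + z))) ≤
        32 * 4096 * (exp (1 * k.sl n) * (exp (2 * k.sl n) / 10 ^ 7 * (b + z))) := by
      gcongr; linarith only [CL]
    obtain r4 : exp (1 * k.sl n) * exp (2 * k.sl n) * b ≤ |t' - t| * exp (30 * k.sl n) := by
      rw [x3, hb, mul_left_comm, xm]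
      exact mul_le_mul_of_nonneg_left (xl s0 (by norm_num)) τ0
    rw [← x3] at z3
    linarith only [z3, p0, r1, r3, r4, cg, hL, U0, mul_le_mul_of_nonneg_right g6
      (show 0 ≤ c.CG * c.L * exp (-(9 / 10) * k.ch n) * U by (clear * - cg hL U0; positivity)),
      show 0 ≤ c.CG * c.L * exp (-(9 / 10) * k.ch n) * U by positivity,
      show 0 ≤ |t' - t| * exp (30 * k.sl n) by (clear * -; positivity), exp_pos (-k.chi 0 n / 5)]

end main

end J6

theorem j6 : ∀ K, Hier fun c => TA_s c → TB_s c → TC_s c → GEO_s K c → TUBE_s K c → R2_s K c →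
    J6_s K c := fun K => J6.hier_C6.mono fun c h hA hB hC hG hT hR M t g S k n O g8 n1 t' S' O'
      α D z γ γ0 γ1 T hs => by
  obtain ⟨s7, b1, -⟩ := J6.big h O.sk O.hn
  have s0 : 0 ≤ k.sl n := by linarith only [s7]
  have ck : γ ≤ c.ck * γ := by rw [Cs.ck]; linarith only [γ0, mul_nonneg h.κ.le γ0]
  have tc := (hT M t g S k n O t' S' O' α D z γ γ0 γ1 T
    (hs.trans (J6.xl s0 (by linarith only [])))).2
  have O2 := (hR M t g S k n O g8 t' S' O' _ (by
    refine (mul_le_mul_of_nonneg_right hs (exp_pos _).le).trans ((J6.xm _ _ _).trans_le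
      ((J6.xl s0 (show _ ≤ -1 by linarith only [ck])).trans ?_))
    rw [neg_mul, exp_neg, ← one_div]
    exact one_div_le_one_div_of_le (by norm_num) (by linarith only [b1, h.cg])) tc).1
  have p1 := fun l => J6.part1 (l := l) h hA hB hC hG O g8 O' tc.x n1 γ0 γ1 T hs
  obtain ⟨-, -, -, -, -, -, -, -, -, -, -, -, -, -, -, -, a17, -⟩ := hA k O.sk
  refine ⟨p1, J6.part23 h hA hB hG O g8 O' tc.x n1 ?_ p1 O2.fit.f1 (O2.fit.f2 n O.hn le_rfl)⟩
  refine le_trans ?_ (hs.trans (J6.xl s0 (by linarith only [γ0, ck])))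
  rw [Sk.sz]
  linarith only [T.2.2.1, T.2.1, mul_nonneg T.1 (exp_pos (k.W n)).le,
    mul_le_mul_of_nonneg_left (a17 n O.hn).1 ((abs_nonneg _).trans T.2.2.1)]

end
end Pool.Agent.MP_9cbfe4_an

end

/-! ### Part QB -/

section

/-! Row QB: smoothness, initial jets and bounds for the sources of the jet recursion. -/

namespace Pool.Agent.MP_9cbfe4_an

open Finset Filter Topology Real
open scoped ContDiff Nat

noncomputable section

namespace QB

/-- second derivative of `L cos x` -/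
theorem d2_cos (L : ℝ) (z u v : ℝ × ℝ × ℝ) :
    iteratedFDeriv ℝ 2 (fun z : ℝ × ℝ × ℝ => L * cos z.2.1) z ![u, v]
      = -(L * cos z.2.1) * (u.2.1 * v.2.1) := by
  set ℓ : (ℝ × ℝ × ℝ) →L[ℝ] ℝ :=
    (ContinuousLinearMap.fst ℝ ℝ ℝ).comp (ContinuousLinearMap.snd ℝ ℝ (ℝ × ℝ)) with hℓ
  have hf : ContDiff ℝ 2 fun x : ℝ => L * cos x := contDiff_const.mul Real.contDiff_cos
  have e : (fun z : ℝ × ℝ × ℝ => L * cos z.2.1) = (fun x : ℝ => L * cos x) ∘ ℓ := rfl
  rw [e, ℓ.iteratedFDeriv_comp_right hf z le_rfl, ContinuousMultilinearMap.compContinuousLinearMap_apply,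
    iteratedFDeriv_apply_eq_iteratedDeriv_mul_prod,
    iteratedDeriv_const_mul L (Real.contDiff_cos.contDiffAt)]
  obtain h2 : iteratedDeriv 2 cos = -cos := by
    simp
  rw [h2]
  simp [Fin.prod_univ_two, hℓ]
  ring

theorem norm_le_nq {q : ℝ} (hq0 : 0 < q) (hq : q ≤ 1) (v : ℝ × ℝ × ℝ) : q * ‖v‖ ≤ nq q v := by
  have h1 : ∀ x : ℝ, q * |x| ≤ |x| := fun x => mul_le_of_le_one_left (abs_nonneg _) hq
  rw [Prod.norm_def, Prod.norm_def, mul_max_of_nonneg _ _ hq0.le, mul_max_of_nonneg _ _ hq0.le]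
  simp only [Real.norm_eq_abs]
  exact max_le_max (h1 _) (max_le_max (h1 _) le_rfl)

variable {K : ℕ} {c : Cs} {M : Mdl} {σ : Seed} {t g : ℝ} {k : Sk} {n : ℤ}

theorem Hier_bl : Hier fun c => 0 ≤ c.bl := by
  refine ((Hier.β_ge (fun _ => 0) fun _ _ _ => rfl).and SOK.big).mono fun c h => ?_
  have := h.2.lam
  exact mul_nonneg h.1 (by linarith only [this])

theorem main (hb : SOK.Big c) (hCG : 1 ≤ c.CG) (hbl : 0 ≤ c.bl) (geo : GEO_s K c) : QB_s K c := by
  intro M σ t g k n h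
  have hM := h.oc.ok
  have hL := hb.L
  obtain hN : ((K + 1 : ℕ) : WithTop ℕ∞) ≤ ∞ := by exact_mod_cast le_top
  have ht : 0 < t ∧ t < 1 := ⟨h.at'.t0, h.at'.t1⟩
  obtain hv : |σ.v t| < 2 * c.L := h.at'.bv.trans_lt (by linarith only [hL, ht])
  obtain hu : |σ.c t| < 2 * c.L := h.at'.bc.trans_lt (by linarith only [hL, ht])
  have sm : ∀ l, ContDiffAt ℝ (K + 1 : ℕ) (M.fam 1 σ.v σ.c l) t := fun l =>
    Mdl.fam_smooth hb hM hN ht hv hu h.at'.sv h.at'.sc l
  have ob : ∀ l, gam (M.fam 1 σ.v σ.c) l t ∈ OB c := fun l => Mdl.fam_OB hb hM.ok ht hv hu l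
  have pj : ∀ j l, σ.pj M t j l = iteratedDeriv j (M.fam 1 σ.v σ.c l) t := fun _ _ => rfl
  obtain Q : ∀ (j : ℕ) l, 0 < j → j ≤ K + 1 → 1 ≤ l → σ.Qj M t j l =
      (if j = 1 then M.gt t (σ.orb M t) l else 0) + J0.rest M.GG (gam (M.fam 1 σ.v σ.c) l) t j 2 := by
    intro j l hj hjK hl
    obtain this := Mdl.fam_jet hb hM hN ht hv hu h.at'.sv h.at'.sc hj (by exact_mod_cast hjK) hl
    unfold Seed.Qj
    rw [pj, pj, pj, this]
    simp only [Seed.orb]
    ring
  refine ⟨fun l _ => sm l, fun j => ⟨?_, ?_⟩, fun l hl => ?_, ?_⟩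
  · rw [pj, Mdl.fam_lt (by norm_num)]
  · rw [pj, Mdl.fam_self]
  · obtain e : σ.Qj M t 1 l = M.gt t (σ.orb M t) l := by
      rw [Q 1 l one_pos (by omega) hl, rest_one]; simp
    refine ⟨e, ?_⟩
    rw [e]
    exact hM.ok.t_all t _ _ ⟨ht.1.le, ht.2.le⟩ (ob l).2.2.1.le (ob l).2.2.2.le
  intro l j m sc Λ B hl hln hj hjK hsc hsc1 hΛ hB hm H
  have o2 : O2 c M t (σ.orb M t) := ⟨ht.1, ht.2, h.oc.orb, h.oc.box0⟩
  obtain ⟨-, hD, hG⟩ := geo M t g _ k n h.oc t _ o2 l hl hln.le (by simp) (by simp) _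
    (left_mem_segment ℝ _ _)
  set γ := gam (M.fam 1 σ.v σ.c) l with hγ
  have hz : γ t = (t, (σ.orb M t).X l, (σ.orb M t).X (l - 1)) := rfl
  obtain jet : ∀ a (q : ℝ), 0 < a → a < j → nq q (iteratedDeriv a γ t) = σ.gz M t q a l := by
    intro a q ha haj
    rw [hγ, gam_jet (sm l) (sm (l - 1)) ha (by exact_mod_cast (by omega : a ≤ K + 1))]
    unfold nq Seed.gz
    rw [pj, pj]
    congr 1
    split_ifs <;> simp
  set q := exp (-k.ch l / 2) with hq
  obtain hCL : 0 ≤ c.CG * c.L := mul_nonneg (by linarith only [hCG, ht]) (by linarith only [hL, ht])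
  obtain hMM : 0 ≤ c.CG * c.L / sc ^ j := div_nonneg hCL (by positivity)
  have hp : ∀ v, 0 ≤ sc * nq q v := fun v => mul_nonneg hsc.le (nq_nonneg _ _)
  obtain hDk : ∀ i, 2 ≤ i → i ≤ j → ∀ v : Fin i → ℝ × ℝ × ℝ,
      |iteratedFDeriv ℝ i M.GG (γ t) v| ≤ c.CG * c.L / sc ^ j * ∏ a, (sc * nq q (v a)) := by
    intro i hi hij v
    refine (hG i hi (by omega) v).trans ?_
    rw [prod_mul_distrib, prod_const, card_univ, Fintype.card_fin, ← mul_assoc]
    refine mul_le_mul_of_nonneg_right ?_ (prod_nonneg fun a _ => nq_nonneg _ _)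
    rw [div_mul_eq_mul_div, le_div_iff₀ (by positivity)]
    exact mul_le_mul_of_nonneg_left (pow_le_pow_of_le_one hsc.le hsc1 hij) hCL
  obtain m0 : ∀ a, 0 < a → a < j → max (m a) 0 = m a := fun a ha haj =>
    max_eq_left (le_trans (by rw [← jet a q ha haj]; exact hp _) (hm a ha haj))
  obtain hm' : ∀ a, 0 < a → a < j → sc * nq q (iteratedDeriv a γ t) ≤ max (m a) 0 := by
    intro a ha haj
    rw [jet a q ha haj, m0 a ha haj]; exact hm a ha haj
  obtain H' : ∀ a b, 0 < a → 0 < b → a + b < j →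
      max (m a) 0 * max (m b) 0 ≤ Λ * max (m (a + b)) 0 := by
    intro a b ha hb' hab
    rw [m0 a ha (by omega), m0 b hb' (by omega), m0 (a + b) (by omega) hab]
    exact H a b ha hb' hab
  obtain Qe : σ.Qj M t j l = J0.rest M.GG γ t j 2 := by
    rw [Q j l (by omega) hjK hl, if_neg (by omega), zero_add]
  refine ⟨fun HB => ?_, fun HB hlD => ?_⟩
  · obtain this := J0.abs_rest_le (g := M.GG) (γ := γ) (x := t) (j := j) (p := fun v => sc * nq q v)
      (m := fun a => max (m a) 0) (B := Λ ^ (j - 2) * B) le_rfl hMM (by (clear * - hΛ hB; positivity)) hp hDk hm'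
      (J0.prod_two_le (fun a => le_max_right _ _) hΛ H' fun a b ha hb' hab => by
        rw [m0 a ha (by omega), m0 b hb' (by omega)]; exact HB a b ha hb' hab)
    rw [Qe]
    refine this.trans (le_of_eq ?_)
    ring
  · obtain h3 := J0.abs_rest_le (g := M.GG) (γ := γ) (x := t) (j := j) (p := fun v => sc * nq q v)
      (m := fun a => max (m a) 0) (B := Λ ^ (j - 3) * B) (r := 3) (by norm_num) hMM (by (clear * - hΛ hB; positivity)) hp
      (fun i hi => hDk i (by omega)) hm'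
      (J0.prod_three_le (fun a => le_max_right _ _) hΛ H' fun a b e ha hb' he hab => by
        rw [m0 a ha (by omega), m0 b hb' (by omega), m0 e he (by omega)]
        exact HB a b e ha hb' he hab)
    obtain h3' : |J0.rest M.GG γ t j 3| ≤ j ! * c.CG * c.L / sc ^ j * Λ ^ (j - 2) * B := by
      refine h3.trans ?_
      obtain this : Λ ^ (j - 3) ≤ Λ ^ (j - 2) := pow_le_pow_right₀ hΛ (by omega)
      calc (j ! : ℝ) * (c.CG * c.L / sc ^ j * (Λ ^ (j - 3) * B))
          ≤ j ! * (c.CG * c.L / sc ^ j * (Λ ^ (j - 2) * B)) := by (clear * - this hB hCG hL hsc; gcongr)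
        _ = _ := by ring
    have s2 : ContDiffAt ℝ 2 M.GG (γ t) := hM.smoothAt (ob l)
      (WithTop.coe_le_coe.2 (le_top : (2 : ℕ∞) ≤ ⊤))
    obtain sc2 : ContDiffAt ℝ 2 (fun z : ℝ × ℝ × ℝ => c.L * cos z.2.1) (γ t) := by fun_prop
    obtain hfold := hM.fold 2 le_rfl (by omega) (γ t) (ob l) (le_trans (by norm_num) (hD hlD hln))
    set R : (ℝ × ℝ × ℝ) → ℝ := fun z => M.GG z - c.L * cos z.2.1 with hR
    set q0 := exp (-c.bl / 2) with hq0
    have q0p : 0 < q0 := exp_pos _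
    obtain q01 : q0 ≤ 1 := exp_le_one_iff.2 (by linarith only [hbl])
    obtain split : ∀ u v, iteratedFDeriv ℝ 2 M.GG (γ t) ![u, v] =
        σ.Lt M c t l * (u.2.1 * v.2.1) + iteratedFDeriv ℝ 2 R (γ t) ![u, v] := by
      intro u v
      have := iteratedFDeriv_sub_apply (𝕜 := ℝ) (i := 2) s2 sc2
      have e : R = M.GG - fun z : ℝ × ℝ × ℝ => c.L * cos z.2.1 := rfl
      rw [e, this, sub_apply, d2_cos]
      simp only [Seed.Lt, hz]
      ring
    obtain bR : ∀ u v, |iteratedFDeriv ℝ 2 R (γ t) ![u, v]| ≤ exp (-2 * c.bl) * (nq q0 u * nq q0 v) := by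
      intro u v
      have h1 := (iteratedFDeriv ℝ 2 R (γ t)).le_opNorm ![u, v]
      rw [Fin.prod_univ_two, Real.norm_eq_abs] at h1
      simp only [Matrix.cons_val_zero, Matrix.cons_val_one] at h1
      obtain h2 : exp (-(((K + 6 : ℕ) : ℝ) + 2) * c.bl) ≤ exp (-2 * c.bl) * (q0 * q0) := by
        rw [hq0, ← exp_add, ← exp_add]
        refine exp_le_exp.2 ?_
        have : (0 : ℝ) ≤ K := Nat.cast_nonneg K
        push_cast
        nlinarith only [hbl]
      calc _ ≤ exp (-2 * c.bl) * (q0 * q0) * (‖u‖ * ‖v‖) :=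
            h1.trans (mul_le_mul_of_nonneg_right (hfold.trans h2) (by positivity))
        _ = exp (-2 * c.bl) * ((q0 * ‖u‖) * (q0 * ‖v‖)) := by ring
        _ ≤ _ := mul_le_mul_of_nonneg_left (mul_le_mul (norm_le_nq q0p q01 u) (norm_le_nq q0p q01 v)
            (by positivity) (nq_nonneg _ _)) (exp_pos _).le
    obtain j21 : ∀ a, 0 < a → a < j → (iteratedDeriv a γ t).2.1 = σ.pj M t a l := by
      intro a ha haj
      rw [hγ, gam_jet (sm l) (sm (l - 1)) ha (by exact_mod_cast (by omega : a ≤ K + 1)), pj]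
    obtain e : σ.Qj M t j l - σ.Lt M c t l / 2 *
        ∑ a ∈ Ioo 0 j, (j.choose a : ℝ) * (σ.pj M t a l * σ.pj M t (j - a) l) =
        J0.rest M.GG γ t j 3 + ∑ a ∈ Ioo 0 j, 1 / 2 * ((j.choose a : ℝ) *
          iteratedFDeriv ℝ 2 R (γ t) ![iteratedDeriv a γ t, iteratedDeriv (j - a) γ t]) := by
      rw [Qe, J0.rest_two, J0.quad_symm s2, mul_sum, mul_sum, add_comm _ (J0.rest _ _ _ _ _),
        add_sub_assoc, ← sum_sub_distrib]
      congr 1
      refine sum_congr rfl fun a ha => ?_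
      have ha' := mem_Ioo.1 ha
      rw [split, j21 a ha'.1 ha'.2, j21 (j - a) (by omega) (by omega)]
      ring
    rw [e]
    refine (abs_add_le _ _).trans (add_le_add h3' ((abs_sum_le_sum_abs _ _).trans ?_))
    rw [mul_sum]
    refine sum_le_sum fun a ha => ?_
    have ha' := mem_Ioo.1 ha
    have hb1 := bR (iteratedDeriv a γ t) (iteratedDeriv (j - a) γ t)
    rw [jet a q0 ha'.1 ha'.2, jet (j - a) q0 (by omega) (by omega)] at hb1
    rw [abs_mul, abs_mul, abs_of_nonneg (by norm_num : (0 : ℝ) ≤ 1 / 2), Nat.abs_cast]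
    have hc : (0 : ℝ) ≤ j.choose a := Nat.cast_nonneg _
    have h0 := abs_nonneg (iteratedFDeriv ℝ 2 R (γ t) ![iteratedDeriv a γ t, iteratedDeriv (j - a) γ t])
    linarith only [mul_le_mul_of_nonneg_left hb1 hc, mul_nonneg hc h0]

end QB

theorem qb (K : ℕ) : Hier fun c => GEO_s K c → QB_s K c :=
  ((SOK.big.and Hier.base).and QB.Hier_bl).mono fun _ h geo =>
    QB.main h.1.1 h.1.2.2.2.2.2.2 h.2 geo

end
end Pool.Agent.MP_9cbfe4_an

end

/-! ### Part J2B -/

section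

/-! Row J2B: jets inside the block of a major. -/

namespace Pool.Agent.MP_9cbfe4_an.J2B
open Finset Real

noncomputable section

/-- numbers of one block: `y = 1/η`, `w = w x`, `A = e^{W (x+)}` -/
structure Dt (y w A s G : ℝ) (r : ℕ) (T : ℕ → ℝ) : Prop where
  y1 : 1 ≤ y
  w0 : 0 < w
  s6 : 6 ≤ s
  G1 : 1 ≤ G
  A1 : w * y ≤ A
  A2 : A ≤ s ^ 2 * (w * y)
  pos : ∀ j, 0 ≤ T j
  cl : ∀ a b, 1 ≤ a → 1 ≤ b → a + b ≤ r →
    T a * T b * A ≤ G * max (T (a + b)) (y ^ (2 * (a + b) - 2) / w) ∧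
    T a * y ^ (2 * b - 1) ≤ G * max (T (a + b) / y) (y ^ (2 * (a + b) - 2) / w)

def Tp (y w : ℝ) (T : ℕ → ℝ) (j : ℕ) : ℝ := max (T j) (y ^ (2 * j - 2) / w)
def Nb (y φ : ℝ) (b : ℕ) : ℝ := max 1 (φ * y ^ (2 * b - 1))
def mu (y w om φ : ℝ) (T : ℕ → ℝ) (b : ℕ) : ℝ := max ((om + w * φ) * Tp y w T b) (Nb y φ b)

variable {y w A s G : ℝ} {r : ℕ} {T : ℕ → ℝ}

theorem Dt.Tp0 (h : Dt y w A s G r T) (j : ℕ) : 0 ≤ Tp y w T j := (h.pos j).trans (le_max_left _ _)

theorem Dt.c2 (h : Dt y w A s G r T) {a b : ℕ} (ha : 1 ≤ a) (hb : 1 ≤ b) (hr : a + b ≤ r) :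
    Tp y w T a * y ^ (2 * b - 1) ≤ G * max (T (a + b) / y) (y ^ (2 * (a + b) - 2) / w) := by
  have hy := h.y1; have hw := h.w0; have hG := h.G1
  unfold Tp
  rcases max_choice (T a) (y ^ (2 * a - 2) / w) with e | e <;> rw [e]
  · exact (h.cl a b ha hb hr).2
  · obtain h1 : y ^ (2 * a - 2) * y ^ (2 * b - 1) ≤ y ^ (2 * (a + b) - 2) := by
      rw [← pow_add]; exact pow_le_pow_right₀ hy (by omega)
    obtain h2 : y ^ (2 * a - 2) / w * y ^ (2 * b - 1) ≤ y ^ (2 * (a + b) - 2) / w := by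
      rw [div_mul_eq_mul_div]; exact div_le_div_of_nonneg_right h1 hw.le
    obtain h3 : 0 ≤ y ^ (2 * (a + b) - 2) / w := by positivity
    exact h2.trans ((le_max_right _ _).trans (le_mul_of_one_le_left (h3.trans (le_max_right _ _)) hG))

theorem Dt.c2' (h : Dt y w A s G r T) (j : ℕ) :
    max (T j / y) (y ^ (2 * j - 2) / w) ≤ Tp y w T j :=
  max_le_max (div_le_self (h.pos j) h.y1) le_rfl

theorem Dt.c1v (h : Dt y w A s G r T) {a b : ℕ} (ha : 1 ≤ a) (hb : 1 ≤ b) (hr : a + b ≤ r) :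
    Tp y w T a * (y ^ (2 * b - 2) / w) * A ≤ G * s ^ 2 * Tp y w T (a + b) := by
  have hy := h.y1; have hw := h.w0; have hG := h.G1; have h0 := h.Tp0 a
  obtain h1 := (h.c2 ha hb hr).trans (mul_le_mul_of_nonneg_left (h.c2' (a + b)) (by positivity))
  obtain e : y ^ (2 * b - 1) = y ^ (2 * b - 2) * y := by
    rw [← pow_succ]; congr 1; omega
  calc _ ≤ Tp y w T a * (y ^ (2 * b - 2) / w) * (s ^ 2 * (w * y)) :=
        mul_le_mul_of_nonneg_left h.A2 (by (clear * - h0 hy hw; positivity))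
    _ = s ^ 2 * (Tp y w T a * y ^ (2 * b - 1)) := by rw [e]; field_simp
    _ ≤ s ^ 2 * (G * Tp y w T (a + b)) := mul_le_mul_of_nonneg_left h1 (by (clear * -; positivity))
    _ = _ := by ring

theorem Dt.c1 (h : Dt y w A s G r T) {a b : ℕ} (ha : 1 ≤ a) (hb : 1 ≤ b) (hr : a + b ≤ r) :
    Tp y w T a * Tp y w T b * A ≤ G * s ^ 2 * Tp y w T (a + b) := by
  have hG := h.G1; have hs := h.s6
  rcases max_choice (T b) (y ^ (2 * b - 2) / w) with e | e
  · rcases max_choice (T a) (y ^ (2 * a - 2) / w) with e' | e'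
    · obtain h1 : Tp y w T a * Tp y w T b * A ≤ G * Tp y w T (a + b) := by
        unfold Tp; rw [e, e']; exact (h.cl a b ha hb hr).1
      have h2 := h.Tp0 (a + b)
      obtain h3 : 1 ≤ s ^ 2 := one_le_pow₀ (by linarith only [hs])
      calc _ ≤ G * Tp y w T (a + b) * 1 := by linarith only [h1]
        _ ≤ G * Tp y w T (a + b) * s ^ 2 := mul_le_mul_of_nonneg_left h3 (by (clear * - hG h2; positivity))
        _ = _ := by ring
    · obtain h1 := h.c1v hb ha (by omega)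
      have e2 : Tp y w T a = y ^ (2 * a - 2) / w := e'
      rw [add_comm b a] at h1
      rw [e2, mul_comm (y ^ (2 * a - 2) / w)]; exact h1
  · have e2 : Tp y w T b = y ^ (2 * b - 2) / w := e
    rw [e2]; exact h.c1v ha hb hr

variable {om φ : ℝ}

theorem Nb_le (hy : 1 ≤ y) (h1 : φ ≤ 1) (b : ℕ) : Nb y φ b ≤ y ^ (2 * b - 1) :=
  max_le (one_le_pow₀ hy) (mul_le_of_le_one_left (by positivity) h1)

theorem Nb_mul (hy : 1 ≤ y) (h0 : 0 ≤ φ) (h1 : φ ≤ 1) {a b : ℕ} (ha : 1 ≤ a) (hb : 1 ≤ b) :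
    Nb y φ a * Nb y φ b ≤ max 1 (φ * y ^ (2 * (a + b) - 2)) := by
  obtain e : y ^ (2 * (a + b) - 2) = y ^ (2 * a - 1) * y ^ (2 * b - 1) := by
    rw [← pow_add]; congr 1; omega
  have hb' := Nb_le hy h1 b
  have ha' := Nb_le hy h1 a
  have b0 : 0 ≤ Nb y φ b := zero_le_one.trans (le_max_left _ _)
  rcases max_choice 1 (φ * y ^ (2 * a - 1)) with e1 | e1
  · have e2 : Nb y φ a = 1 := e1
    rw [e2, one_mul]
    refine max_le_max le_rfl (mul_le_mul_of_nonneg_left (pow_le_pow_right₀ hy (by omega)) h0)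
  · have e2 : Nb y φ a = φ * y ^ (2 * a - 1) := e1
    rw [e2, e, ← mul_assoc]
    exact (mul_le_mul_of_nonneg_left hb' (by (clear * - h0 hy; positivity))).trans (le_max_right _ _)

theorem Dt.tri (h : Dt y w A s G r T) (ho : 0 < om) (h0 : 0 ≤ φ) (h1 : φ ≤ 1) {a b : ℕ}
    (ha : 1 ≤ a) (hb : 1 ≤ b) (hr : a + b ≤ r) :
    mu y w om φ T a * mu y w om φ T b ≤ (om + w * φ) ^ 2 * (Tp y w T a * Tp y w T b) ∨
    mu y w om φ T a * mu y w om φ T b ≤
      (om + w * φ) * (G * max (T (a + b) / y) (y ^ (2 * (a + b) - 2) / w)) ∨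
    mu y w om φ T a * mu y w om φ T b ≤ max 1 (φ * y ^ (2 * (a + b) - 2)) := by
  have hw := h.w0
  obtain hω : 0 ≤ om + w * φ := by (clear * - ho hw h0; positivity)
  obtain key : ∀ a b : ℕ, 1 ≤ a → 1 ≤ b → a + b ≤ r → (om + w * φ) * Tp y w T a * Nb y φ b ≤
      (om + w * φ) * (G * max (T (a + b) / y) (y ^ (2 * (a + b) - 2) / w)) := fun a b ha hb hr => by
    rw [mul_assoc]
    exact mul_le_mul_of_nonneg_left ((mul_le_mul_of_nonneg_left (Nb_le h.y1 h1 b) (h.Tp0 a)).trans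
      (h.c2 ha hb hr)) hω
  unfold mu
  rcases max_choice ((om + w * φ) * Tp y w T a) (Nb y φ a) with e | e <;>
    rcases max_choice ((om + w * φ) * Tp y w T b) (Nb y φ b) with e' | e' <;> rw [e, e']
  · left; exact le_of_eq (by ring)
  · right; left; exact key a b ha hb hr
  · right; left; rw [mul_comm, add_comm a b]; exact key b a hb ha (by omega)
  · right; right; exact Nb_mul h.y1 h0 h1 ha hb

theorem Dt.mul (h : Dt y w A s G r T) (ho : 0 < om) (h0 : 0 ≤ φ) (h1 : φ ≤ 1)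
    (h3 : om ≤ 2 * s * A) {a b : ℕ} (ha : 1 ≤ a) (hb : 1 ≤ b) (hr : a + b ≤ r) :
    mu y w om φ T a * mu y w om φ T b ≤ G * s ^ 4 * mu y w om φ T (a + b) := by
  have hy := h.y1; have hw := h.w0; have hG := h.G1; have hs := h.s6
  obtain hω : 0 ≤ om + w * φ := by (clear * - ho hw h0; positivity)
  have hj := h.Tp0 (a + b)
  have m1 : (om + w * φ) * Tp y w T (a + b) ≤ mu y w om φ T (a + b) := le_max_left _ _
  have m2 : Nb y φ (a + b) ≤ mu y w om φ T (a + b) := le_max_right _ _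
  have m0 : 0 ≤ mu y w om φ T (a + b) := (mul_nonneg hω hj).trans m1
  obtain s1 : 1 ≤ s ^ 4 := one_le_pow₀ (by linarith only [hs])
  have H1 : 1 ≤ G * s ^ 4 := one_le_mul_of_one_le_of_one_le hG s1
  rcases h.tri ho h0 h1 ha hb hr with e | e | e
  · have hA : w ≤ A := (le_mul_of_one_le_right hw.le hy).trans h.A1
    have hA0 : 0 ≤ A := hw.le.trans hA
    obtain h4 : om + w * φ ≤ s ^ 2 * A := by
      have : w * φ ≤ A := (mul_le_of_le_one_right hw.le h1).trans hA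
      linarith only [h3, this, hs, mul_nonneg hA0 (show 0 ≤ s ^ 2 - 2 * s - 1 by nlinarith only [hs])]
    have ht := mul_nonneg (h.Tp0 a) (h.Tp0 b)
    calc _ ≤ (om + w * φ) * ((om + w * φ) * (Tp y w T a * Tp y w T b)) := by linarith only [e, sq (om + w * φ)]
      _ ≤ (om + w * φ) * (s ^ 2 * A * (Tp y w T a * Tp y w T b)) := by gcongr
      _ = (om + w * φ) * (s ^ 2 * (Tp y w T a * Tp y w T b * A)) := by ring
      _ ≤ (om + w * φ) * (s ^ 2 * (G * s ^ 2 * Tp y w T (a + b))) :=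
          mul_le_mul_of_nonneg_left (mul_le_mul_of_nonneg_left (h.c1 ha hb hr) (by positivity)) hω
      _ = G * s ^ 4 * ((om + w * φ) * Tp y w T (a + b)) := by ring
      _ ≤ _ := by (clear * - m1 hG hs; gcongr)
  · calc _ ≤ (om + w * φ) * (G * Tp y w T (a + b)) := e.trans (by gcongr; exact h.c2' _)
      _ = G * 1 * ((om + w * φ) * Tp y w T (a + b)) := by ring
      _ ≤ _ := by gcongr
  · refine e.trans (le_trans ?_ (le_mul_of_one_le_left m0 H1))
    exact (max_le_max le_rfl (mul_le_mul_of_nonneg_left (pow_le_pow_right₀ hy (by omega)) h0)).trans m2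

theorem Dt.fin (h : Dt y w A s G r T) (ho : 0 < om) (h0 : 0 ≤ φ) (h1 : φ ≤ 1)
    (h2 : w ≤ s * om * y) (h3 : om ≤ 2 * s * A) {a b : ℕ} (ha : 1 ≤ a) (hb : 1 ≤ b) (hr : a + b ≤ r) :
    mu y w om φ T a * mu y w om φ T b ≤
      G * s ^ 4 * (om * Tp y w T (a + b) + om * φ * (y ^ (2 * (a + b) - 1) / w) + 1) := by
  have hy := h.y1; have hw := h.w0; have hG := h.G1; have hs := h.s6
  obtain hω : 0 ≤ om + w * φ := by (clear * - ho hw h0; positivity)
  have hj := h.Tp0 (a + b)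
  obtain s1 : s ≤ s ^ 4 := le_self_pow₀ (by linarith only [hs]) (by norm_num)
  obtain e1 : y ^ (2 * (a + b) - 1) = y ^ (2 * (a + b) - 2) * y := by
    rw [← pow_succ]; congr 1; omega
  obtain hφ : φ * y ^ (2 * (a + b) - 2) ≤ s * (om * φ * (y ^ (2 * (a + b) - 1) / w)) := by
    rw [e1]
    calc _ = φ * y ^ (2 * (a + b) - 2) / w * w := by field_simp
      _ ≤ φ * y ^ (2 * (a + b) - 2) / w * (s * om * y) := by (clear * - h2 h0 hy hw; gcongr)
      _ = _ := by ring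
  generalize y ^ (2 * (a + b) - 1) / w = Z at hφ ⊢
  obtain hZ : 0 ≤ om * φ * Z := by
    obtain this : 0 ≤ s * (om * φ * Z) := le_trans (by (clear * - h0 hy; positivity)) hφ
    exact nonneg_of_mul_nonneg_right this (by linarith only [hs]) |> fun t => by
      by_contra hn; linarith only [t, hn]
  obtain hT : 0 ≤ om * Tp y w T (a + b) := by (clear * - ho hj; positivity)
  rcases h.tri ho h0 h1 ha hb hr with e | e | e
  · have hA : w ≤ A := (le_mul_of_one_le_right hw.le hy).trans h.A1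
    have hA0 : 0 ≤ A := hw.le.trans hA
    have h5 : w * φ ≤ w := mul_le_of_le_one_right hw.le h1
    obtain h6 : (w * φ) ^ 2 ≤ s * om * A := by
      calc _ ≤ w ^ 2 := by (clear * - hw h0 h5; gcongr)
        _ = w * w := sq w
        _ ≤ s * om * y * w := by (clear * - h2 hw; gcongr)
        _ = s * om * (w * y) := by ring
        _ ≤ _ := by gcongr; exact h.A1
    obtain h4 : (om + w * φ) ^ 2 ≤ s ^ 2 * om * A := by
      obtain h7 : om * om ≤ om * (2 * s * A) := by gcongr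
      obtain h8 : 0 ≤ s * om * A := by (clear * - hs ho hA0; positivity)
      linarith only [h6, h7, hs, sq_nonneg (om - w * φ), mul_nonneg h8 (show 0 ≤ s - 6 by linarith only [hs])]
    have ht := mul_nonneg (h.Tp0 a) (h.Tp0 b)
    calc _ ≤ s ^ 2 * om * A * (Tp y w T a * Tp y w T b) := e.trans (by (clear * - h4 ht; gcongr))
      _ = s ^ 2 * om * (Tp y w T a * Tp y w T b * A) := by ring
      _ ≤ s ^ 2 * om * (G * s ^ 2 * Tp y w T (a + b)) :=
          mul_le_mul_of_nonneg_left (h.c1 ha hb hr) (by positivity)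
      _ = G * s ^ 4 * (om * Tp y w T (a + b)) := by ring
      _ ≤ _ := by gcongr; linarith only [hZ]
  · obtain h5 : w * φ * max (T (a + b) / y) (y ^ (2 * (a + b) - 2) / w) ≤
        s * (om * Tp y w T (a + b)) + s * (om * φ * Z) := by
      obtain hT' : 0 ≤ s * (om * Tp y w T (a + b)) := by (clear * - hs ho hj; positivity)
      obtain hZ' : 0 ≤ s * (om * φ * Z) := by (clear * - hs hZ; positivity)
      rcases max_choice (T (a + b) / y) (y ^ (2 * (a + b) - 2) / w) with e' | e' <;> rw [e']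
      · have t0 := h.pos (a + b)
        obtain this : w * φ * (T (a + b) / y) ≤ s * (om * Tp y w T (a + b)) := by
          calc _ ≤ s * om * y * 1 * (T (a + b) / y) := by gcongr
            _ = s * (om * T (a + b)) := by field_simp
            _ ≤ _ := by gcongr; exact le_max_left _ _
        linarith only [hZ', this]
      · obtain this : w * φ * (y ^ (2 * (a + b) - 2) / w) = φ * y ^ (2 * (a + b) - 2) := by field_simp
        linarith only [hφ, hT', this]
    have h6 : om * max (T (a + b) / y) (y ^ (2 * (a + b) - 2) / w) ≤ om * Tp y w T (a + b) :=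
      mul_le_mul_of_nonneg_left (h.c2' _) ho.le
    obtain s2 : s + 1 ≤ s ^ 4 := by linarith only [hs, sq_nonneg (s ^ 2 - 1), sq_nonneg (s - 1)]
    calc _ ≤ G * (om * max (T (a + b) / y) (y ^ (2 * (a + b) - 2) / w)
          + w * φ * max (T (a + b) / y) (y ^ (2 * (a + b) - 2) / w)) := e.trans (le_of_eq (by ring))
      _ ≤ G * ((s + 1) * (om * Tp y w T (a + b) + om * φ * Z + 1)) := by
          gcongr; linarith only [hs, hZ, h5, h6]
      _ ≤ G * (s ^ 4 * (om * Tp y w T (a + b) + om * φ * Z + 1)) := by (clear * - s2 ho hj hZ hG; gcongr)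
      _ = _ := by ring
  · obtain h5 : max 1 (φ * y ^ (2 * (a + b) - 2)) ≤ s * (om * Tp y w T (a + b) + om * φ * Z + 1) :=
      max_le (by nlinarith only [hs, hZ, hT]) (by nlinarith only [hy, hs, hφ, h2, hj, hw])
    calc _ ≤ 1 * s * (om * Tp y w T (a + b) + om * φ * Z + 1) := by linarith only [e, h5]
      _ ≤ _ := by gcongr

/-! ### the skeleton inside the block of a major -/

section sk
variable {c : Cs} {k : Sk} {x : ℤ}

def ph (k : Sk) (x i : ℤ) : ℝ := exp (-k.chi x i / 4)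

theorem chi0 (h : k.OK c) (i j : ℤ) : 0 ≤ k.chi i j :=
  sum_nonneg fun l _ => le_trans (by norm_num) (h.1.ch_mem l).1
theorem chi_add (k : Sk) {i j l : ℤ} (h1 : i ≤ j) (h2 : j ≤ l) : k.chi i l = k.chi i j + k.chi j l :=
  sum_Ioc_add _ h1 h2
theorem chi_step (k : Sk) {i : ℤ} (h : x < i) : k.chi x i = k.chi x (i - 1) + k.ch i := by
  rw [chi_add k (show x ≤ i - 1 by omega) (show i - 1 ≤ i by omega)]
  have := Ioc_succ_self (i - 1)
  rw [sub_add_cancel] at this
  simp [Sk.chi, this]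
theorem ph1 (h : k.OK c) (x i : ℤ) : ph k x i ≤ 1 :=
  exp_le_one_iff.2 (by have := chi0 h x i; linarith only [this])

theorem blk (h : k.OK c) (hx : x ∈ k.D) : 1 ≤ x ∧ x < k.nx x ∧ k.nx x ∈ k.F ∧ k.nx x ≤ k.N ∧
    ∀ m ∈ k.F, x < m → k.nx x ≤ m := by
  obtain ⟨h1, h2⟩ := h.1.D_mem x hx
  obtain ⟨a, b, d⟩ := h.1.nx_mem x h2
  exact ⟨(h.1.F_mem x h1).1, b, a, (h.1.F_mem _ a).2, d⟩

theorem only (h : k.OK c) (hx : x ∈ k.D) {z i : ℤ} (hz : z ∈ k.D) (h1 : z < k.nx x) (h2 : x ≤ i)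
    (h3 : i < k.nx z) : z = x := by
  have a := (blk h hx).2.2.2.2 z (h.1.D_mem z hz).1
  have b := (blk h hz).2.2.2.2 x (h.1.D_mem x hx).1
  omega

theorem w4_le (h : k.OK c) (hx : x ∈ k.D) {i : ℤ} (h1 : x ≤ i) (h2 : i ≤ k.nx x) {B : ℝ}
    (hw : k.w i ≤ B) (hB : x < i → i < k.nx x → k.w x * ph k x i ≤ B) : k.w4 i ≤ B := by
  refine (Finset.fold_max_le _).2 ⟨hw, fun z hz => ?_⟩
  obtain ⟨a, b, d⟩ := mem_filter.1 hz
  obtain rfl := only h hx a (by omega) h1 d
  exact hB b d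

theorem NN_le (h : k.OK c) (hx : x ∈ k.D) (e : ℕ) {i : ℤ} (h1 : x ≤ i) {B : ℝ} (hw : 1 ≤ B)
    (hB : i < k.nx x → ph k x i * (1 / k.η x) ^ e ≤ B) : k.NN (k.nx x) e 0 i ≤ B := by
  refine (Finset.fold_max_le _).2 ⟨by simpa using hw, fun z hz => ?_⟩
  obtain ⟨a, b, d⟩ := mem_filter.1 hz
  obtain rfl := only h hx a b h1 d
  refine le_trans ?_ (hB d)
  have hη := (h.1.η_mem z hx).1
  split_ifs with hi
  · exact le_of_eq (by simp [ph, div_eq_mul_inv])
  · obtain rfl : z = i := by omega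
    have hw := h.1.w_pos z (blk h hx).1
    have h4 : k.w4 z ≤ k.w z := w4_le h hx le_rfl b.le le_rfl fun t => absurd t (lt_irrefl _)
    calc _ ≤ k.w z * exp (0 * k.σ z) * k.V z e := by
          obtain this : 0 ≤ k.V z e := by unfold Sk.V; (clear * - hη hw; positivity)
          gcongr
      _ = _ := by simp [ph, Sk.chi, Sk.V]; field_simp

theorem an_le (h : k.OK c) (hx : x ∈ k.D) {i : ℤ} (h1 : x ≤ i) : k.an (k.nx x) i ≤ 0 := by
  refine (Finset.fold_max_le _).2 ⟨le_rfl, fun z hz => ?_⟩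
  obtain ⟨a, b, d⟩ := mem_filter.1 hz
  have := (blk h hx).2.2.2.2 z (h.1.D_mem z a).1
  omega

theorem V_eq (k : Sk) (x : ℤ) (e : ℕ) : k.V x e = (1 / k.η x) ^ e / k.w x := by
  simp [Sk.V, div_eq_mul_inv, mul_comm]

theorem sig_le (h : k.OK c) (hx : x ∈ k.D) {i : ℤ} (h1 : x ≤ i) (h2 : i < k.nx x) : k.σ i ≤ k.σ x := by
  obtain ⟨a, b, d, e, _⟩ := blk h hx
  obtain ⟨_, p, q⟩ := h.1.nx_mem i (by omega)
  exact h.1.sl_mono _ _ (by omega) (q _ d h2)

theorem lam_le (h : k.OK c) (hx : x ∈ k.D) : c.lam ≤ k.sl 1 ∧ k.sl 1 ≤ k.σ x := by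
  obtain ⟨a, b, -⟩ := blk h hx
  exact ⟨h.1.sl1, h.1.sl_mono _ _ le_rfl (by omega)⟩

theorem om_pos (h : k.OK c) (hx : x ∈ k.D) {i : ℤ} (h1 : x < i) (h2 : i < k.nx x) : 0 < k.om i := by
  have a := (h.2.om_in x hx i h1 h2).1
  have b := mul_pos (h.1.w_pos x (blk h hx).1) (h.1.η_mem x hx).1
  exact (mul_pos_iff_of_pos_left (exp_pos _)).1 (b.trans_le a)

theorem w_le (h : k.OK c) (hx : x ∈ k.D) {i : ℤ} (h1 : x < i) (h2 : i < k.nx x) :
    k.w i ≤ k.om i + k.w x * ph k x i := by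
  have a := (h.2.om_in x hx i h1 h2).2.2.1
  obtain b : exp (-k.chi x i / 2) ≤ ph k x i := exp_le_exp.2 (by have := chi0 h x i; linarith only [this])
  have d := mul_le_mul_of_nonneg_left b (h.1.w_pos x (blk h hx).1).le
  linarith only [a, d]

variable {K r : ℕ} {M : Mdl} {σ : Seed} {t g γ ls : ℝ} {n : ℤ} {T : ℕ → ℝ}

theorem L_le (h : k.OK c) (hL : 0 < c.L) (H : J2H c M σ t k x r γ ls T) : c.L ≤ exp ls := by
  obtain ⟨a, b⟩ := lam_le h H.hx
  rw [← exp_log hL]; exact exp_le_exp.2 (a.trans (b.trans H.hls))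

theorem dt (h : k.OK c) (hL : 6 ≤ c.L) (H : J2H c M σ t k x r γ ls T) :
    Dt (1 / k.η x) (k.w x) (exp (k.W (k.nx x))) (exp ls) (exp (γ * ls)) r T := by
  obtain ⟨e0, e1⟩ := h.1.η_mem x H.hx
  have hw := h.1.w_pos x (blk h H.hx).1
  obtain hs := hL.trans (L_le h (by linarith only [hL]) H)
  obtain hl : 0 ≤ ls := by
    by_contra hn
    have := exp_le_one_iff.2 (not_le.1 hn).le
    linarith only [hs, this]
  obtain ⟨m1, m2⟩ := h.1.maj x H.hx
  obtain e : k.w x * (1 / k.η x) = exp (log (k.w x) - log (k.η x)) := by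
    rw [exp_sub, exp_log hw, exp_log e0]; ring
  refine ⟨one_le_one_div e0 e1, hw, hs, one_le_exp (mul_nonneg (by linarith only [H.hγ]) hl), ?_, ?_,
    H.pos, fun a b ha hb hr => ?_⟩
  · rw [e]; exact exp_le_exp.2 m1
  · rw [e, ← exp_nat_mul, ← exp_add]; exact exp_le_exp.2 (by have := H.hls; push_cast; linarith only [m2, this])
  · have := H.cl a b ha hb hr
    rw [V_eq] at this
    refine ⟨this.1, ?_⟩
    have h2 := this.2
    rwa [div_eq_mul_one_div (T a), ← one_div_pow, show k.η x * T (a + b) = T (a + b) / (1 / k.η x) by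
      field_simp] at h2

/-- the sources inside the block -/
theorem qblk (hq : QB_s K c) (hL : 6 ≤ c.L) (hF : (K + 1).factorial * c.CG ≤ c.L) (hCG : 0 ≤ c.CG)
    (jc : JC K c M σ t g k n) (hn : x < n) (hr : r ≤ K + 1) (H : J2H c M σ t k x r γ ls T)
    {a : ℕ} {i : ℤ} (ha : 1 ≤ a) (har : a ≤ r) (h1 : x < i) (h2 : i < k.nx x) :
    |σ.Qj M t a i| ≤ (exp (γ * ls) * exp ls ^ 4) ^ (2 * K + 2) *
      (k.om i * Tp (1 / k.η x) (k.w x) T a +
        k.om i * ph k x i * ((1 / k.η x) ^ (2 * a - 1) / k.w x) + 1) := by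
  have h := jc.oc.sk
  have hx := H.hx
  have D := dt h hL H
  obtain ⟨x1, xJ, JF, JN, Jm⟩ := blk h hx
  have Jn := Jm n jc.oc.hn hn
  obtain ⟨-, -, q1, q2⟩ := hq M σ t g k n jc
  have ho := om_pos h hx h1 h2
  have p0 : 0 ≤ ph k x i := (exp_pos _).le
  have p1 := ph1 h x i
  have hy := D.y1; have hw := D.w0; have hG := D.G1; have hs := D.s6
  obtain hLs := L_le h (by linarith only [hL]) H
  have T0 := D.Tp0 a
  obtain s2 : 2 ≤ exp ls ^ 4 := le_trans (by linarith only [hs]) (le_self_pow₀ (by linarith only [hs]) (by norm_num))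
  obtain ⟨o1, o2, -, -, -⟩ := h.2.om_in x hx i h1 h2
  have η0 := (h.1.η_mem x hx).1
  obtain f2 : k.w x ≤ exp ls * k.om i * (1 / k.η x) := by
    rw [mul_one_div, le_div_iff₀ η0]
    exact o1.trans (mul_le_mul_of_nonneg_right (exp_le_exp.2 H.hls) ho.le)
  obtain f3 : k.om i ≤ 2 * exp ls * exp (k.W (k.nx x)) := by
    obtain a1 := h.1.hi i (by omega) (by omega)
    obtain a2 := h.1.W_mono i (k.nx x) (by omega) h2.le
    have a3 := (lam_le h hx).2.trans H.hls
    obtain a4 : k.w i ≤ exp ls * exp (k.W (k.nx x)) := by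
      rw [← exp_add, ← exp_log (h.1.w_pos i (by omega))]; exact exp_le_exp.2 (by linarith only [a1, a2, a3])
    linarith only [o2, a4]
  generalize hGe : exp (γ * ls) = G at *
  generalize hse : exp ls = s at *
  set Z := k.om i * Tp (1 / k.η x) (k.w x) T a +
        k.om i * ph k x i * ((1 / k.η x) ^ (2 * a - 1) / k.w x) + 1 with hZ
  obtain Z1 : 1 ≤ Z := le_add_of_nonneg_left (by (clear * - ho T0 p0 η0 hw; positivity))
  set Hh := G * s ^ 4 with hH
  obtain H2 : 2 * G ≤ Hh := by rw [hH, mul_comm 2]; (clear * - s2 hG; gcongr)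
  obtain H1 : 1 ≤ Hh := by linarith only [hG, H2]
  rcases ha.eq_or_lt with rfl | ha2
  · obtain b1 := (q1 i (by omega)).2
    obtain b2 : c.dl ≤ 1 := exp_le_one_iff.2 (by have := h.1.ch_mem 0; linarith only [this])
    obtain b3 : |σ.Qj M t 1 i| ≤ 2 := by rw [abs_le] at b1 ⊢; constructor <;> linarith only [b2, b1.1, b1.2]
    obtain b4 : Hh ≤ Hh ^ (2 * K + 2) := le_self_pow₀ H1 (by omega)
    calc _ ≤ Hh ^ (2 * K + 2) * 1 := by linarith only [hG, H2, b3, b4]
      _ ≤ _ := by (clear * - Z1 hG hs; gcongr)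
  have key := (q2 i a (fun b => Hh * mu (1 / k.η x) (k.w x) (k.om i) (ph k x i) T b) 1 (Hh ^ 2)
    (Hh ^ 3 * Z) (by omega) (by omega) ha2 (by omega) one_pos le_rfl (one_le_pow₀ H1) (by (clear * - hG hs ho T0 p0 η0 hw; positivity))
    (fun b hb hba => ?_) (fun b e hb he hbe => ?_)).1 fun b e hb he hbe => ?_
  · refine key.trans ?_
    obtain b1 : (a.factorial : ℝ) * c.CG ≤ s := by
      refine le_trans (mul_le_mul_of_nonneg_right ?_ hCG) (hF.trans hLs)
      exact_mod_cast Nat.factorial_le (by omega)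
    obtain b2 : s * s ≤ Hh := by
      calc _ = 1 * s ^ 2 := by ring
        _ ≤ _ := by rw [hH]; gcongr <;> [linarith only [hs]; norm_num]
    obtain b3 : (a.factorial : ℝ) * c.CG * c.L ≤ Hh :=
      (mul_le_mul b1 hLs (by linarith only [hL]) (by linarith only [hs])).trans b2
    calc _ ≤ Hh * (Hh ^ 2) ^ (a - 2) * (Hh ^ 3 * Z) := by rw [one_pow, div_one]; (clear * - b3 hG hs ho T0 p0 η0 hw; gcongr)
      _ = Hh ^ (1 + 2 * (a - 2) + 3) * Z := by rw [← pow_mul]; ring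
      _ ≤ _ := mul_le_mul_of_nonneg_right (pow_le_pow_right₀ H1 (by omega)) (by linarith only [Z1])
  · rw [one_mul]
    have m1 : (k.om i + k.w x * ph k x i) * Tp (1 / k.η x) (k.w x) T b ≤
      mu (1 / k.η x) (k.w x) (k.om i) (ph k x i) T b := le_max_left _ _
    have m2 : Nb (1 / k.η x) (ph k x i) b ≤ mu (1 / k.η x) (k.w x) (k.om i) (ph k x i) T b :=
      le_max_right _ _
    have m3 : 1 ≤ Nb (1 / k.η x) (ph k x i) b := le_max_left _ _
    have m4 : ph k x i * (1 / k.η x) ^ (2 * b - 1) ≤ Nb (1 / k.η x) (ph k x i) b := le_max_right _ _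
    have tb : T b ≤ Tp (1 / k.η x) (k.w x) T b := le_max_left _ _
    have t0 := H.pos b
    have wl := w_le h hx h1 h2
    generalize mu (1 / k.η x) (k.w x) (k.om i) (ph k x i) T b = μ at *
    generalize Nb (1 / k.η x) (ph k x i) b = N at *
    obtain fin : ∀ u v : ℝ, u ≤ k.om i + k.w x * ph k x i → v ≤ N → u * T b + G * v ≤ Hh * μ :=
      fun u v hu hv => by
        obtain c1 : u * T b ≤ μ := le_trans (mul_le_mul hu tb t0 (by (clear * - ho hw p0; positivity))) m1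
        obtain c2 : G * v ≤ G * μ := by gcongr; linarith only [m2, hv]
        obtain c3 : μ ≤ G * μ := le_mul_of_one_le_left (by linarith only [m3, m2]) hG
        obtain c4 : 2 * G * μ ≤ Hh * μ := by gcongr; linarith only [m3, m2]
        linarith only [c1, c2, c3, c4]
    refine max_le ?_ (max_le ?_ ?_)
    · obtain this : 1 ≤ Hh * μ := one_le_mul_of_one_le_of_one_le H1 (by linarith only [m3, m2])
      split_ifs <;> linarith only [this]
    · obtain this := H.bd b i hb (by omega) (by omega) h2.le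
      rw [hGe] at this
      exact this.trans (fin _ _ (w4_le h hx h1.le h2.le wl fun _ _ => by linarith only [ho])
        (NN_le h hx _ h1.le m3 fun _ => m4))
    · obtain this := H.bd b (i - 1) hb (by omega) (by omega) (by omega)
      rw [hGe] at this
      have q0 := exp_pos (-k.ch i / 2)
      have c0 := (h.1.ch_mem i).1
      obtain qq : exp (-k.ch i / 2) * ph k x (i - 1) ≤ ph k x i := by
        unfold ph; rw [← exp_add, chi_step k h1]; exact exp_le_exp.2 (by linarith only [c0])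
      obtain q1 : exp (-k.ch i / 2) ≤ 1 := exp_le_one_iff.2 (by linarith only [c0])
      obtain ws := h.1.w_step i (by omega)
      generalize exp (-k.ch i / 2) = q at *
      refine (mul_le_mul_of_nonneg_left this q0.le).trans (le_trans (le_of_eq (by ring))
        (fin (q * k.w4 (i - 1)) (q * k.NN (k.nx x) (2 * b - 1) 0 (i - 1)) ?_ ?_))
      · rw [mul_comm, ← le_div_iff₀ q0]
        refine w4_le h hx (by omega) (by omega) ?_ fun _ _ => ?_ <;> rw [le_div_iff₀ q0]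
        · linarith only [wl, ws]
        · have := mul_le_mul_of_nonneg_left qq hw.le
          linarith only [ho, this]
      · rw [mul_comm, ← le_div_iff₀ q0]
        refine NN_le h hx _ (by omega) ?_ fun _ => ?_ <;> rw [le_div_iff₀ q0]
        · linarith only [m3, q1]
        · have := mul_le_mul_of_nonneg_right qq (pow_nonneg (zero_le_one.trans hy) (2 * b - 1))
          linarith only [m4, this]
  · obtain this := D.mul ho p0 p1 f3 hb he (by omega)
    calc _ = Hh ^ 2 * (mu (1 / k.η x) (k.w x) (k.om i) (ph k x i) T b *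
          mu (1 / k.η x) (k.w x) (k.om i) (ph k x i) T e) := by ring
      _ ≤ _ := by (clear * - this hG hs; gcongr)
  · obtain this := D.fin ho p0 p1 f2 f3 hb he (by omega)
    rw [hbe] at this
    calc _ = Hh ^ 2 * (mu (1 / k.η x) (k.w x) (k.om i) (ph k x i) T b *
          mu (1 / k.η x) (k.w x) (k.om i) (ph k x i) T e) := by ring
      _ ≤ Hh ^ 2 * (Hh * Z) := by (clear * - this hG hs; gcongr)
      _ = _ := by ring

theorem vr1 (h : k.OK c) (hx : x ∈ k.D) (l : ℤ) : 1 ≤ vr k x l := by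
  obtain ⟨e0, e1⟩ := h.1.η_mem x hx
  exact le_min (one_le_exp (by have := chi0 h x l; linarith only [this]))
    (one_le_one_div (sqrt_pos.2 e0) (sqrt_le_one.2 e1))

theorem vr_mono (h : k.OK c) {i l : ℤ} (h1 : x ≤ i) (h2 : i ≤ l) : vr k x i ≤ vr k x l :=
  min_le_min (exp_le_exp.2 (by rw [chi_add k h1 h2]; have := chi0 h i l; linarith only [this])) le_rfl

def Om (k : Sk) (x l : ℤ) : ℝ := k.om l + vr k x l * (k.w x * k.η x)

theorem g_le (jc : JC K c M σ t g k n) : 0 ≤ g ∧ g ≤ 16 := ⟨by linarith only [jc.oc.g1], jc.oc.g16⟩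

/-- the continuant of the block -/
theorem u_le (jc : JC K c M σ t g k n) (hx : x ∈ k.D) (hn : x < n) {i : ℤ} (h1 : x < i)
    (h2 : i < k.nx x) : |(σ.orb M t).fr (x + 1) i| * (k.w x * k.η x) ≤ 64 * Om k x i := by
  have h := jc.oc.sk
  obtain ⟨x1, xJ, JF, JN, Jm⟩ := blk h hx
  have Jn := Jm n jc.oc.hn hn
  obtain ⟨g0, g16⟩ := g_le jc
  obtain ⟨e0, e1⟩ := h.1.η_mem x hx
  have hw := h.1.w_pos x x1
  obtain hwi := h.1.w_pos i (by omega)
  have ho := om_pos h hx h1 h2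
  have a1 := jc.oc.fit.fE _ JF Jn x i x1 h1 h2.le
  have a2 := jc.oc.fit.fx x hx hn i h1 h2.le
  obtain a3 : k.E (k.nx x) x ≤ 4 * k.V x 1 := by
    have := mul_nonpos_of_nonneg_of_nonpos (exp_pos (4 * k.σ x)).le (an_le h hx le_rfl)
    unfold Sk.E; rw [if_pos hx]; linarith only [this]
  have a4 := (h.2.om_in x hx i h1 h2).2.2.1
  have c0 := chi0 h x i
  have v1 := vr1 h hx i
  generalize |(σ.orb M t).fr (x + 1) i| = u at *
  obtain b1 : u * (k.w x * k.η x) ≤ 16 * (4 * k.w i) := by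
    calc _ ≤ 16 * (4 * k.V x 1) * k.w i * (k.w x * k.η x) := by
          obtain this : 0 ≤ k.V x 1 := by unfold Sk.V; (clear * - e0 hw; positivity)
          refine mul_le_mul_of_nonneg_right (a1.trans ?_) (by (clear * - hw e0; positivity))
          exact mul_le_mul_of_nonneg_right ((mul_le_mul_of_nonneg_left a3 g0).trans (by (clear * - g16 this; gcongr))) hwi.le
      _ = _ := by unfold Sk.V; field_simp
  obtain b2 : u * (k.w x * k.η x) ≤ 16 * (k.η x * exp (51 / 100 * k.chi x i) * k.w i) := by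
    calc _ ≤ 16 * (exp (51 / 100 * k.chi x i) / k.w x) * k.w i * (k.w x * k.η x) := by
          refine mul_le_mul_of_nonneg_right (a2.trans ?_) (by (clear * - hw e0; positivity))
          (clear * - g16 hw hwi; gcongr)
      _ = _ := by field_simp
  obtain ⟨m, m0, m4, mv, mu⟩ : ∃ m : ℝ, 0 ≤ m ∧ m ≤ 4 ∧ m * exp (-k.chi x i / 2) ≤ 4 * (vr k x i * k.η x) ∧
      u * (k.w x * k.η x) ≤ 16 * (m * k.w i) := by
    refine ⟨min 4 (k.η x * exp (51 / 100 * k.chi x i)), le_min (by norm_num) (by (clear * - e0; positivity)),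
      min_le_left _ _, ?_, ?_⟩
    · rcases le_total (exp (k.chi x i / 100)) (1 / sqrt (k.η x)) with e | e
      · have : vr k x i = exp (k.chi x i / 100) := min_eq_left e
        rw [this] at v1 ⊢
        calc _ ≤ k.η x * exp (51 / 100 * k.chi x i) * exp (-k.chi x i / 2) := by
              gcongr; exact min_le_right _ _
          _ = exp (k.chi x i / 100) * k.η x := by rw [mul_assoc, ← exp_add]; ring_nf
          _ ≤ _ := by linarith only [mul_pos (exp_pos (k.chi x i / 100)) e0]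
      · have : vr k x i = 1 / sqrt (k.η x) := min_eq_right e
        rw [this]
        have s0 := sqrt_pos.2 e0
        obtain d1 : exp (-k.chi x i / 2) ≤ 1 / sqrt (k.η x) * k.η x := by
          rw [one_div_mul_eq_div, div_sqrt]
          calc _ ≤ exp (-(k.chi x i / 100)) := exp_le_exp.2 (by linarith only [c0])
            _ = 1 / exp (k.chi x i / 100) := by rw [exp_neg, one_div]
            _ ≤ _ := (one_div_le (exp_pos _) s0).2 e
        exact mul_le_mul (min_le_left _ _) d1 (exp_pos _).le (by norm_num)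
    · rcases min_choice 4 (k.η x * exp (51 / 100 * k.chi x i)) with e | e <;> rw [e] <;> assumption
  obtain b3 : m * k.w i ≤ m * (k.om i + k.w x * exp (-k.chi x i / 2)) := by (clear * - a4 m0; gcongr)
  obtain b4 : m * k.om i ≤ 4 * k.om i := by gcongr
  have b5 := mul_le_mul_of_nonneg_left mv hw.le
  unfold Om; linarith only [mu, b3, b4, b5]

theorem uJ (jc : JC K c M σ t g k n) (hx : x ∈ k.D) (hn : x < n) :
    k.w (k.nx x) ≤ 16 * (k.w x * k.η x) * |(σ.orb M t).fr (x + 1) (k.nx x)| := by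
  have h := jc.oc.sk
  have a := jc.oc.fit.flo x hx hn
  obtain ⟨g0, g16⟩ := g_le jc
  have e0 := (h.1.η_mem x hx).1
  have hw := h.1.w_pos x (blk h hx).1
  calc _ = k.V x 1 * k.w (k.nx x) * (k.w x * k.η x) := by unfold Sk.V; field_simp
    _ ≤ 16 * |(σ.orb M t).fr (x + 1) (k.nx x)| * (k.w x * k.η x) := by
        refine mul_le_mul_of_nonneg_right (a.trans ?_) (by (clear * - hw e0; positivity))
        gcongr
    _ = _ := by ring

/-- the weights of the block identity -/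
theorem E_le (jc : JC K c M σ t g k n) (hx : x ∈ k.D) (hn : x < n) {i : ℤ} (h1 : x < i)
    (h2 : i < k.nx x) :
    |(σ.orb M t).fr (i + 1) (k.nx x) / (σ.orb M t).fr (x + 1) (k.nx x)| * k.om i ≤
      256 * (k.w x * k.η x) * exp (4 * k.σ x) ∧
    |(σ.orb M t).fr (i + 1) (k.nx x) / (σ.orb M t).fr (x + 1) (k.nx x)| ≤
      256 * exp (k.chi x i / 100) := by
  have h := jc.oc.sk
  obtain ⟨x1, xJ, JF, JN, Jm⟩ := blk h hx
  have Jn := Jm n jc.oc.hn hn
  obtain ⟨g0, g16⟩ := g_le jc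
  have e0 := (h.1.η_mem x hx).1
  have hw := h.1.w_pos x x1
  obtain hJ := h.1.w_pos (k.nx x) (by omega)
  have ho := om_pos h hx h1 h2
  have a0 := uJ jc hx hn
  obtain a1 := jc.oc.fit.fE _ JF Jn i _ (by omega) h2 le_rfl
  have a2 := jc.oc.fit.fblk x hx hn i _ h1 h2 le_rfl
  obtain a3 : k.E (k.nx x) i ≤ exp (4 * k.σ x) / k.om i := by
    have b1 := mul_nonpos_of_nonneg_of_nonpos (exp_pos (4 * k.σ i)).le (an_le h hx h1.le)
    obtain b2 : i ∉ k.D := fun hi => by have := Jm i (h.1.D_mem i hi).1 h1; omega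
    obtain b3 : exp (4 * k.σ i) / k.om i ≤ exp (4 * k.σ x) / k.om i := by
      gcongr; exact sig_le h hx h1.le h2
    unfold Sk.E; rw [if_neg b2]; linarith only [b1, b3]
  rw [abs_div]
  generalize |(σ.orb M t).fr (x + 1) (k.nx x)| = u at *
  generalize |(σ.orb M t).fr (i + 1) (k.nx x)| = f at *
  obtain u0 : 0 < u := by
    by_contra hu
    obtain this := mul_nonpos_of_nonneg_of_nonpos (show 0 ≤ 16 * (k.w x * k.η x) by (clear * - hw e0; positivity)) (not_lt.1 hu)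
    linarith only [hJ, a0, this]
  constructor
  · rw [div_mul_eq_mul_div, div_le_iff₀ u0]
    calc _ ≤ 16 * (exp (4 * k.σ x) / k.om i) * (16 * (k.w x * k.η x) * u) * k.om i := by
          refine mul_le_mul_of_nonneg_right (a1.trans ?_) ho.le
          exact mul_le_mul ((mul_le_mul_of_nonneg_left a3 g0).trans (by gcongr)) a0 hJ.le (by positivity)
      _ = _ := by field_simp; norm_num
  · rw [div_le_iff₀ u0]
    obtain this : 0 ≤ k.V x 1 := by unfold Sk.V; (clear * - e0 hw; positivity)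
    calc _ ≤ 16 * exp (k.chi x i / 100) * k.V x 1 * (16 * (k.w x * k.η x) * u) := a2.trans (by gcongr)
      _ = _ := by unfold Sk.V; field_simp; norm_num

def Y (k : Sk) (x : ℤ) (T : ℕ → ℝ) (a : ℕ) (l : ℤ) : ℝ :=
  Om k x l * (T a + k.V x (2 * a - 2)) + exp (-k.chi x l / 8) / k.η x ^ (2 * a - 2) + vr k x l
def Zz (k : Sk) (x : ℤ) (T : ℕ → ℝ) (a : ℕ) (i : ℤ) : ℝ := k.om i * Tp (1 / k.η x) (k.w x) T a +
  k.om i * ph k x i * ((1 / k.η x) ^ (2 * a - 1) / k.w x) + 1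

theorem OZ (h : k.OK c) (hL : 6 ≤ c.L) (H : J2H c M σ t k x r γ ls T) {a : ℕ} (ha : 1 ≤ a) {l i : ℤ}
    (h1 : x < l) (h2 : l ≤ i) (h3 : i < k.nx x) :
    Om k x l * Zz k x T a i ≤ 2 * exp ls * (k.om i * Y k x T a l) := by
  have hx := H.hx
  have D := dt h hL H
  have hw := D.w0; have hs := D.s6
  have e0 := (h.1.η_mem x hx).1
  obtain hl := om_pos h hx h1 (by omega)
  obtain hi := om_pos h hx (by omega) h3
  have v1 := vr1 h hx l
  have t0 := H.pos a
  obtain V0 : 0 ≤ k.V x (2 * a - 2) := by unfold Sk.V; (clear * - e0 hw; positivity)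
  obtain O0 : 0 ≤ Om k x l := by unfold Om; (clear * - hl v1 hw e0; positivity)
  have sl : exp (k.σ x) ≤ exp ls := exp_le_exp.2 H.hls
  obtain ⟨o1, -, -, -, o5⟩ := h.2.om_in x hx i (by omega) h3
  obtain a1 : Tp (1 / k.η x) (k.w x) T a ≤ T a + k.V x (2 * a - 2) := by
    rw [V_eq] at V0 ⊢; exact max_le (by linarith only [V0]) (by linarith only [t0])
  obtain a2 : Om k x l ≤ 2 * (k.w x * k.η x * exp (k.chi x l / 100)) := by
    obtain b1 := (h.2.om_in x hx l h1 (by omega)).2.2.2.1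
    obtain b2 : vr k x l * (k.w x * k.η x) ≤ exp (k.chi x l / 100) * (k.w x * k.η x) := by
      gcongr; exact min_le_left _ _
    unfold Om; linarith only [b1, b2]
  obtain a3 : Om k x l * (ph k x i * ((1 / k.η x) ^ (2 * a - 1) / k.w x)) ≤
      2 * (exp (-k.chi x l / 8) / k.η x ^ (2 * a - 2)) := by
    obtain b1 : exp (k.chi x l / 100) * ph k x i ≤ exp (-k.chi x l / 8) := by
      unfold ph; rw [← exp_add, chi_add k h1.le h2]
      exact exp_le_exp.2 (by have := chi0 h x l; have := chi0 h l i; linarith)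
    have p0 : 0 ≤ ph k x i := (exp_pos _).le
    calc _ ≤ 2 * (k.w x * k.η x * exp (k.chi x l / 100)) *
          (ph k x i * ((1 / k.η x) ^ (2 * a - 1) / k.w x)) := by (clear * - a2 p0 e0 hw; gcongr)
      _ = 2 * (exp (k.chi x l / 100) * ph k x i / k.η x ^ (2 * a - 2)) := by
          rw [show 2 * a - 1 = 2 * a - 2 + 1 by omega, one_div_pow, pow_succ]; field_simp
      _ ≤ _ := by gcongr
  obtain a4 : Om k x l ≤ 2 * exp ls * (k.om i * vr k x l) := by
    obtain b1 : k.om l ≤ exp ls * k.om i := (o5 l h1 h2).trans (by (clear * - sl hi; gcongr))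
    obtain b2 : k.w x * k.η x ≤ exp ls * k.om i := o1.trans (by gcongr)
    obtain b3 : vr k x l * (k.w x * k.η x) ≤ vr k x l * (exp ls * k.om i) := by (clear * - b2 v1; gcongr)
    obtain b4 : exp ls * k.om i ≤ vr k x l * (exp ls * k.om i) := le_mul_of_one_le_left (by (clear * - hi; positivity)) v1
    unfold Om; linarith only [b1, b3, b4]
  obtain a5 : Om k x l * Tp (1 / k.η x) (k.w x) T a ≤ Om k x l * (T a + k.V x (2 * a - 2)) := by (clear * - a1 O0; gcongr)
  obtain a6 : 0 ≤ exp (-k.chi x l / 8) / k.η x ^ (2 * a - 2) := by (clear * - e0; positivity)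
  obtain a7 : 0 ≤ Om k x l * (T a + k.V x (2 * a - 2)) := by (clear * - O0 t0 V0; positivity)
  unfold Zz Y
  generalize exp (-k.chi x l / 8) / k.η x ^ (2 * a - 2) = y2 at *
  generalize Om k x l * (T a + k.V x (2 * a - 2)) = y1 at *
  have a8 := mul_le_mul_of_nonneg_left a5 hi.le
  have a9 := mul_le_mul_of_nonneg_left a3 hi.le
  linarith only [a4, a8, a9, hs, mul_nonneg (mul_nonneg hi.le a6) (show 0 ≤ exp ls - 1 by linarith only [hs]),
    mul_nonneg (mul_nonneg hi.le a7) (show 0 ≤ 2 * exp ls - 1 by linarith only [hs])]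

theorem Y_dec (h : k.OK c) (hL : 6 ≤ c.L) (H : J2H c M σ t k x r γ ls T) (a : ℕ) {l i : ℤ}
    (h1 : x < i) (h2 : i ≤ l) (h3 : l < k.nx x) :
    exp (-k.chi i l) * Y k x T a i ≤ exp ls * Y k x T a l := by
  have hx := H.hx
  have D := dt h hL H
  have hw := D.w0; have hs := D.s6
  have e0 := (h.1.η_mem x hx).1
  obtain hl := om_pos h hx (by omega) h3
  obtain hi := om_pos h hx h1 (by omega)
  have v1 := vr1 h hx i
  have vm := vr_mono h h1.le h2
  have t0 := H.pos a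
  have c0 := chi0 h i l
  obtain V0 : 0 ≤ k.V x (2 * a - 2) := by unfold Sk.V; (clear * - e0 hw; positivity)
  obtain b1 : k.om i ≤ exp ls * k.om l :=
    ((h.2.om_in x hx l (by omega) h3).2.2.2.2 i h1 h2).trans (by gcongr; exact H.hls)
  obtain q1 : exp (-k.chi i l) ≤ 1 := exp_le_one_iff.2 (by linarith only [c0])
  obtain a1 : Om k x i ≤ exp ls * Om k x l := by
    obtain b2 : vr k x i * (k.w x * k.η x) ≤ exp ls * (vr k x l * (k.w x * k.η x)) :=
      le_trans (by gcongr) (le_mul_of_one_le_left (by have := v1.trans vm; (clear * - this hw e0; positivity)) (by linarith only [hs]))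
    unfold Om; linarith only [b1, b2]
  obtain a2 : exp (-k.chi i l) * (Om k x i * (T a + k.V x (2 * a - 2))) ≤
      exp ls * (Om k x l * (T a + k.V x (2 * a - 2))) := by
    obtain O0 : 0 ≤ Om k x i := by unfold Om; (clear * - hi v1 hw e0; positivity)
    rw [← mul_assoc (exp ls)]
    exact (mul_le_of_le_one_left (by (clear * - O0 t0 V0; positivity)) q1).trans (by (clear * - a1 t0 V0; gcongr))
  obtain a3 : exp (-k.chi i l) * (exp (-k.chi x i / 8) / k.η x ^ (2 * a - 2)) ≤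
      exp ls * (exp (-k.chi x l / 8) / k.η x ^ (2 * a - 2)) := by
    refine le_trans ?_ (le_mul_of_one_le_left (by (clear * - e0; positivity)) (by linarith only [hs]))
    rw [← mul_div_assoc, ← exp_add, chi_add k h1.le h2]
    gcongr; linarith only [c0]
  obtain a4 : exp (-k.chi i l) * vr k x i ≤ exp ls * vr k x l :=
    mul_le_mul (by linarith only [hs, q1]) vm (by linarith only [v1]) (by linarith only [hs])
  unfold Y; linarith only [a2, a3, a4]

theorem num {s G : ℝ} {K : ℕ} (hs : 100000 ≤ exp s) (hG : 1 ≤ G) :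
    100000 * exp s ^ 9 * exp (G * s) * (exp (G * s) * exp s ^ 4) ^ (2 * K + 2) ≤ exp (g2 K G / 10 * s) := by
  obtain s0 : 0 ≤ s := by
    by_contra hn
    have := exp_le_one_iff.2 (not_le.1 hn).le
    linarith only [hs, this]
  calc _ ≤ exp s * exp s ^ 9 * exp (G * s) * (exp (G * s) * exp s ^ 4) ^ (2 * K + 2) := by gcongr
    _ = exp ((10 + G + (2 * K + 2) * (G + 4)) * s) := by
        simp only [← exp_nat_mul, ← exp_add]; congr 1; push_cast; ring
    _ ≤ _ := by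
        have hK : (0 : ℝ) ≤ K := K.cast_nonneg
        gcongr; unfold g2; linarith only [hG, mul_nonneg hK (show 0 ≤ G by linarith only [hG]), mul_nonneg hK hK]

theorem main (hq : QB_s K c) (hL : 100000 ≤ c.L) (hF : (K + 1).factorial * c.CG ≤ c.L)
    (hCG : 0 ≤ c.CG) : J2B_s K c := by
  intro _ M σ t g k n jc x r γ ls T hn hr H a l ha har h1 h2
  have h := jc.oc.sk
  have hx := H.hx
  obtain hL6 : 6 ≤ c.L := by linarith only [hL]
  have D := dt h hL6 H
  obtain ⟨x1, xJ, JF, JN, Jm⟩ := blk h hx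
  have Jn := Jm n jc.oc.hn hn
  have hw := D.w0; have hG := D.G1
  obtain hs := hL.trans (L_le h (by linarith only [hL]) H)
  obtain ⟨e0, e1⟩ := h.1.η_mem x hx
  obtain hJ := h.1.w_pos (k.nx x) (by omega)
  have t0 := H.pos a
  obtain V0 : 0 ≤ k.V x (2 * a - 2) := by unfold Sk.V; (clear * - e0 hw; positivity)
  have v1 := vr1 h hx l
  obtain PJ : |σ.pj M t a (k.nx x)| ≤ k.w (k.nx x) * T a + exp (γ * ls) := by
    refine (H.bd a _ ha har (by omega) le_rfl).trans (add_le_add ?_ ?_)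
    · exact mul_le_mul_of_nonneg_right (w4_le h hx xJ.le le_rfl le_rfl fun _ t => absurd t (lt_irrefl _)) t0
    · exact mul_le_of_le_one_right (exp_pos _).le
        (NN_le h hx _ xJ.le le_rfl fun t => absurd t (lt_irrefl _))
  have hN := num (K := K) hs H.hγ
  have hQ : ∀ i, x < i → i < k.nx x → |σ.Qj M t a i| ≤
      (exp (γ * ls) * exp ls ^ 4) ^ (2 * K + 2) * Zz k x T a i := fun i b1 b2 =>
    qblk hq hL6 hF hCG jc hn hr H ha har.le b1 b2
  obtain R1 : 1 ≤ (exp (γ * ls) * exp ls ^ 4) ^ (2 * K + 2) :=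
    one_le_pow₀ (one_le_mul_of_one_le_of_one_le hG (one_le_pow₀ (by linarith only [hs])))
  generalize (exp (γ * ls) * exp ls ^ 4) ^ (2 * K + 2) = R at *
  change _ ≤ _ + _ * Y k x T a l
  obtain P0 : 0 ≤ 1000 * exp (-(9 / 10) * k.chi x l) * |σ.pj M t a x| := by (clear * -; positivity)
  obtain s9 : 1 ≤ exp ls ^ 9 := one_le_pow₀ (by linarith only [hs])
  rcases h2.eq_or_lt with rfl | h2
  · have o : k.om (k.nx x) = k.w (k.nx x) := h.2.om_out _ fun z hz b => (blk h hz).2.2.2.2 _ JF b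
    obtain b1 : k.w (k.nx x) * T a + 1 ≤ Y k x T a (k.nx x) := by
      obtain this : k.w (k.nx x) * T a ≤ Om k x (k.nx x) * (T a + k.V x (2 * a - 2)) := by
        unfold Om; rw [o]
        exact mul_le_mul (le_add_of_nonneg_right (by (clear * - v1 hw e0; positivity))) (by linarith only [V0]) t0 (by (clear * - hJ v1 hw e0; positivity))
      obtain this : 0 ≤ exp (-k.chi x (k.nx x) / 8) / k.η x ^ (2 * a - 2) := by (clear * - e0; positivity)
      unfold Y; linarith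
    obtain b2 : exp (γ * ls) ≤ exp (g2 K γ / 10 * ls) := by
      refine le_trans ?_ hN
      calc _ = 1 * 1 * exp (γ * ls) * 1 := by ring
        _ ≤ _ := by gcongr; norm_num
    obtain b3 : 0 ≤ k.w (k.nx x) * T a := by (clear * - hJ t0; positivity)
    obtain b4 : exp (γ * ls) * (k.w (k.nx x) * T a + 1) ≤ exp (g2 K γ / 10 * ls) * Y k x T a (k.nx x) := by
      (clear * - b2 b1 hJ t0; gcongr)
    nlinarith only [PJ, P0, b4, hG, b3]
  have ho := om_pos h hx h1 h2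
  obtain O0 : 0 ≤ Om k x l := by unfold Om; (clear * - ho v1 hw e0; positivity)
  obtain Y1 : Om k x l * (T a + k.V x (2 * a - 2)) ≤ Y k x T a l := by
    obtain this : 0 ≤ exp (-k.chi x l / 8) / k.η x ^ (2 * a - 2) := by (clear * - e0; positivity)
    unfold Y; linarith only [v1, this]
  obtain Y0 : 0 ≤ Y k x T a l := le_trans (by (clear * - O0 t0 V0; positivity)) Y1
  have a0 := uJ jc hx hn
  obtain s4 : exp (4 * k.σ x) ≤ exp ls ^ 4 := by
    rw [← exp_nat_mul]; exact exp_le_exp.2 (by have := H.hls; push_cast; linarith only [this])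
  have sl : exp (k.σ x) ≤ exp ls := exp_le_exp.2 H.hls
  obtain Js : ((k.nx x : ℤ) : ℝ) ≤ exp ls := by
    have b1 := h.1.time _ JF
    obtain b2 : (1 : ℝ) ≤ (k.nx x : ℤ) := by exact_mod_cast (show (1 : ℤ) ≤ k.nx x by (clear * - h1 x1 h2; omega))
    have b3 : exp (k.sl (k.nx x)) ≤ exp ls := sl
    nlinarith only [hs, b1, b3, b2]
  have hb := jc.oc.fit.b
  obtain hPb : ∀ i, x ≤ i → i ≤ l → |(σ.orb M t).Pb i l| ≤ k.PB i l := fun i b1 b2 => by
    unfold Sq.Pb Sk.PB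
    rw [abs_of_nonneg (prod_nonneg fun j hj => (hb j (by have := mem_Ioc.1 hj; omega)
      (by have := mem_Ioc.1 hj; omega)).1)]
    exact prod_le_prod (fun j hj => (hb j (by have := mem_Ioc.1 hj; omega)
      (by have := mem_Ioc.1 hj; omega)).1) fun j hj => (hb j (by have := mem_Ioc.1 hj; omega)
      (by have := mem_Ioc.1 hj; omega)).2
  have hu := fun i b1 b2 => u_le jc hx hn (i := i) b1 b2
  have hE := fun i b1 b2 => E_le jc hx hn (i := i) b1 b2
  set S := σ.orb M t with hS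
  obtain u0 : S.fr (x + 1) (k.nx x) ≠ 0 := fun e => by rw [e] at a0; simp at a0; linarith only [hJ, a0]
  obtain key := Sq.bw_le (S := S) (P := σ.pj M t a) (Q := σ.Qj M t a) (ξ := S.fr (x + 1)) (s := x + 1)
    (l := l) (n := k.nx x) (by omega) h2.le u0 (B := fun i => |S.Pb i l|)
    (E := fun i => |S.fr (i + 1) (k.nx x) / S.fr (x + 1) (k.nx x)|) (w := fun i => |S.fr (x + 1) i|)
    (q := fun i => |σ.Qj M t a i|) (fun j _ _ => by unfold Seed.Qj; ring)
    (fun j b _ => S.fr_succ b) (fun _ _ _ => le_rfl) (fun _ _ _ => le_rfl) (fun _ _ _ => le_rfl)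
    fun _ _ _ => le_rfl
  obtain p0 : 0 < k.w x * k.η x := by positivity
  obtain card : ∀ (i j : ℤ) (f : ℤ → ℝ) (B : ℝ), 0 ≤ i → j ≤ k.nx x → 0 ≤ B →
      (∀ m, i ≤ m → m < j → f m ≤ B) → ∑ m ∈ Ico i j, f m ≤ exp ls * B := fun i j f B b1 b2 b3 b4 => by
    refine (sum_le_card_nsmul _ _ B fun m hm => b4 m (mem_Ico.1 hm).1 (mem_Ico.1 hm).2).trans ?_
    rw [nsmul_eq_mul, Int.card_Ico]
    refine mul_le_mul_of_nonneg_right (le_trans ?_ Js) b3
    rw [← Int.cast_natCast]; exact_mod_cast (show ((j - i).toNat : ℤ) ≤ k.nx x by omega)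
  obtain tA : |S.fr (l + 1) (k.nx x) / S.fr (x + 1) (k.nx x)| *
      (|S.Pb (x + 1) l| * |S.Wr (σ.pj M t a) (S.fr (x + 1)) (x + 1)|) ≤
      1000 * exp (-(9 / 10) * k.chi x l) * |σ.pj M t a x| := by
    obtain b1 : |S.Pb (x + 1) l| * |S.Wr (σ.pj M t a) (S.fr (x + 1)) (x + 1)| =
        |S.Pb x l| * |σ.pj M t a x| := by
      rw [S.Pb_mul (show x ≤ x + 1 by omega) (show x + 1 ≤ l by omega), S.Pb_one, Sq.Wr,
        add_sub_cancel_right, S.fr_succ_self, S.fr_self]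
      simp only [abs_mul, mul_zero, one_mul, zero_sub, abs_neg]; ring
    have b2 := (hPb x le_rfl h1.le).trans (h.2.pbx x hx l h1.le h2.le)
    have c0 := chi0 h x l
    rw [b1, ← mul_assoc]
    refine mul_le_mul_of_nonneg_right ?_ (abs_nonneg _)
    calc _ ≤ 256 * exp (k.chi x l / 100) * exp (-(99 / 100) * k.chi x l) :=
          mul_le_mul (hE l h1 h2).2 b2 (abs_nonneg _) (by positivity)
      _ ≤ _ := by rw [mul_assoc, ← exp_add]; gcongr <;> linarith only [c0]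
  obtain tB : |S.fr (x + 1) l * (σ.pj M t a (k.nx x) / S.fr (x + 1) (k.nx x))| ≤
      1024 * exp ls * exp (γ * ls) * Y k x T a l := by
    obtain b1 : 1 ≤ exp ls * k.V x (2 * a - 2) * k.w (k.nx x) := by
      have c1 := h.1.lo _ JF
      have c2 := (h.1.maj x hx).1
      have c3 : log (k.η x) ≤ 0 := log_nonpos e0.le e1
      have c4 : k.sl (k.nx x) ≤ ls := H.hls
      obtain c5 : k.w x ≤ exp ls * k.w (k.nx x) := by
        rw [← exp_log hw, ← exp_log hJ, ← exp_add]; exact exp_le_exp.2 (by linarith only [c1, c2, c3, c4])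
      have c6 : 1 ≤ (1 / k.η x) ^ (2 * a - 2) := one_le_pow₀ D.y1
      rw [V_eq]
      calc _ ≤ 1 * (exp ls * k.w (k.nx x)) / k.w x := by rw [one_mul, one_le_div hw]; exact c5
        _ ≤ (1 / k.η x) ^ (2 * a - 2) * (exp ls * k.w (k.nx x)) / k.w x := by (clear * - c6 hJ hw; gcongr)
        _ = _ := by ring
    obtain b2 : |σ.pj M t a (k.nx x)| ≤
        exp ls * exp (γ * ls) * (T a + k.V x (2 * a - 2)) * k.w (k.nx x) := by
      have c1 := mul_le_mul_of_nonneg_left b1 (exp_pos (γ * ls)).le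
      obtain c2 : 1 ≤ exp ls * exp (γ * ls) := one_le_mul_of_one_le_of_one_le (by linarith only [hs]) hG
      obtain c3 := le_mul_of_one_le_left (show 0 ≤ k.w (k.nx x) * T a by (clear * - hJ t0; positivity)) c2
      linarith only [PJ, c1, c3]
    obtain b3 : |σ.pj M t a (k.nx x) / S.fr (x + 1) (k.nx x)| ≤
        exp ls * exp (γ * ls) * (T a + k.V x (2 * a - 2)) * (16 * (k.w x * k.η x)) := by
      rw [abs_div, div_le_iff₀ (abs_pos.2 u0), mul_assoc _ (16 * _)]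
      exact b2.trans (by (clear * - a0 t0 V0; gcongr))
    rw [abs_mul]
    calc _ ≤ |S.fr (x + 1) l| * (exp ls * exp (γ * ls) * (T a + k.V x (2 * a - 2)) *
          (16 * (k.w x * k.η x))) := by (clear * - b3; gcongr)
      _ = 16 * (exp ls * exp (γ * ls)) * (|S.fr (x + 1) l| * (k.w x * k.η x) *
          (T a + k.V x (2 * a - 2))) := by ring
      _ ≤ 16 * (exp ls * exp (γ * ls)) * (64 * Om k x l * (T a + k.V x (2 * a - 2))) := by
          gcongr _ * (?_ * _); exact hu l h1 h2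
      _ = 1024 * exp ls * exp (γ * ls) * (Om k x l * (T a + k.V x (2 * a - 2))) := by ring
      _ ≤ _ := by (clear * - Y1; gcongr)
  obtain Z0 : ∀ i, x < i → i < k.nx x → 0 ≤ Zz k x T a i := fun i b1 b2 =>
    nonneg_of_mul_nonneg_right ((abs_nonneg _).trans (hQ i b1 b2)) (by linarith only [R1])
  obtain tC : |S.fr (x + 1) l| * ∑ i ∈ Ico l (k.nx x),
      |S.fr (i + 1) (k.nx x) / S.fr (x + 1) (k.nx x)| * |σ.Qj M t a i| ≤
      exp ls * (32768 * exp ls ^ 5 * R * Y k x T a l) := by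
    rw [mul_sum]
    refine card _ _ _ _ (by omega) le_rfl (by (clear * - R1 Y0; positivity)) fun i b1 b2 => ?_
    obtain xi : x < i := by omega
    have hi := om_pos h hx xi b2
    have z0 := Z0 i xi b2
    refine le_of_mul_le_mul_right ?_ (mul_pos hi p0)
    calc _ = |S.fr (x + 1) l| * (k.w x * k.η x) *
          (|S.fr (i + 1) (k.nx x) / S.fr (x + 1) (k.nx x)| * k.om i) * |σ.Qj M t a i| := by ring
      _ ≤ 64 * Om k x l * (256 * (k.w x * k.η x) * exp ls ^ 4) * (R * Zz k x T a i) := by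
          gcongr ?_ * ?_ * ?_
          · exact hu l h1 h2
          · exact (hE i xi b2).1.trans (by (clear * - s4 hw e0; gcongr))
          · exact hQ i xi b2
      _ = 16384 * exp ls ^ 4 * R * (k.w x * k.η x) * (Om k x l * Zz k x T a i) := by ring
      _ ≤ 16384 * exp ls ^ 4 * R * (k.w x * k.η x) * (2 * exp ls * (k.om i * Y k x T a l)) := by
          gcongr _ * ?_; exact OZ h hL6 H ha h1 b1 b2
      _ = _ := by ring
  obtain tD : |S.fr (l + 1) (k.nx x) / S.fr (x + 1) (k.nx x)| * ∑ i ∈ Ico (x + 1) l,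
      |S.Pb i l| * |S.fr (x + 1) i| * |σ.Qj M t a i| ≤
      exp ls * (32768 * exp ls ^ 8 * R * Y k x T a l) := by
    rw [mul_sum]
    refine card _ _ _ _ (by omega) h2.le (by (clear * - R1 Y0; positivity)) fun i b1 b2 => ?_
    obtain xi : x < i := by omega
    obtain iJ : i < k.nx x := by omega
    have hi := om_pos h hx xi iJ
    have z0 := Z0 i xi iJ
    have vi := vr1 h hx i
    obtain Oi : 0 ≤ Om k x i := by unfold Om; (clear * - hi vi hw e0; positivity)
    obtain c1 : |S.Pb i l| ≤ exp ls * exp (-k.chi i l) :=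
      ((hPb i xi.le b2.le).trans (h.2.pbb x hx i l xi.le b2.le h2.le)).trans (by (clear * - sl; gcongr))
    obtain c2 : k.om i ≤ exp ls * k.om l :=
      ((h.2.om_in x hx l h1 h2).2.2.2.2 i xi b2.le).trans (by (clear * - sl ho; gcongr))
    have c3 := Y_dec h hL6 H a xi b2.le h2
    obtain c4 : 0 ≤ exp (-k.chi i l) * Y k x T a i := by unfold Y; (clear * - Oi t0 V0 e0 vi; positivity)
    refine le_of_mul_le_mul_right ?_ (mul_pos ho p0)
    calc _ = |S.fr (l + 1) (k.nx x) / S.fr (x + 1) (k.nx x)| * k.om l * |S.Pb i l| *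
          (|S.fr (x + 1) i| * (k.w x * k.η x)) * |σ.Qj M t a i| := by ring
      _ ≤ 256 * (k.w x * k.η x) * exp ls ^ 4 * (exp ls * exp (-k.chi i l)) * (64 * Om k x i) *
          (R * Zz k x T a i) := by
          gcongr ?_ * ?_ * ?_ * ?_
          · exact (hE l h1 h2).1.trans (by (clear * - s4 hw e0; gcongr))
          · exact hu i xi iJ
          · exact hQ i xi iJ
      _ = 16384 * exp ls ^ 5 * R * (k.w x * k.η x) * exp (-k.chi i l) * (Om k x i * Zz k x T a i) := by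
          ring
      _ ≤ 16384 * exp ls ^ 5 * R * (k.w x * k.η x) * exp (-k.chi i l) *
          (2 * exp ls * (k.om i * Y k x T a i)) := by gcongr _ * ?_; exact OZ h hL6 H ha xi le_rfl iJ
      _ = 32768 * exp ls ^ 6 * R * (k.w x * k.η x) * k.om i * (exp (-k.chi i l) * Y k x T a i) := by ring
      _ ≤ 32768 * exp ls ^ 6 * R * (k.w x * k.η x) * (exp ls * k.om l) * (exp ls * Y k x T a l) := by
          gcongr _ * ?_ * ?_
      _ = _ := by ring
  have tri := abs_add_le (σ.pj M t a l - S.fr (x + 1) l * (σ.pj M t a (k.nx x) / S.fr (x + 1) (k.nx x)))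
    (S.fr (x + 1) l * (σ.pj M t a (k.nx x) / S.fr (x + 1) (k.nx x)))
  rw [sub_add_cancel] at tri
  rw [mul_add] at key
  have fin := mul_le_mul_of_nonneg_right hN Y0
  obtain s1 : 1 ≤ exp ls := by linarith only [hs]
  obtain f1 : exp ls * exp (γ * ls) * Y k x T a l ≤ exp ls ^ 9 * exp (γ * ls) * R * Y k x T a l := by
    calc _ = exp ls ^ 1 * exp (γ * ls) * 1 * Y k x T a l := by ring
      _ ≤ _ := by gcongr; norm_num
  obtain f2 : exp ls ^ 6 * 1 * R * Y k x T a l ≤ exp ls ^ 9 * exp (γ * ls) * R * Y k x T a l := by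
    gcongr; norm_num
  obtain f3 : exp ls ^ 9 * 1 * R * Y k x T a l ≤ exp ls ^ 9 * exp (γ * ls) * R * Y k x T a l := by (clear * - hG R1 Y0; gcongr)
  obtain f4 : 0 ≤ exp ls ^ 9 * exp (γ * ls) * R * Y k x T a l := by (clear * - R1 Y0; positivity)
  linarith only [key, tA, tB, tC, tD, tri, fin, f1, f2, f3, f4]

end sk

end
end Pool.Agent.MP_9cbfe4_an.J2B

namespace Pool.Agent.MP_9cbfe4_an

/-- row J2B -/
theorem j2b (K : ℕ) : Hier fun c => QB_s K c → J2B_s K c :=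
  ((Hier.base.and (Hier.L_ge (fun _ => 100000) fun _ _ => rfl)).and
    (Hier.L_ge (fun c => (K + 1).factorial * c.CG) fun _ _ => rfl)).mono fun _ h hq =>
      J2B.main hq h.1.2 h.2 (by linarith only [h.1.1.2.2.2.2.2])

end Pool.Agent.MP_9cbfe4_an

end

/-! ### Part SRC5 -/

section

/-! Row SRC5: the sources of the recursion for the differences of jets of two seed orbits. -/

namespace Pool.Agent.MP_9cbfe4_an

open Finset Filter Topology Real
open scoped ContDiff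

noncomputable section

namespace SRC5

theorem nq_add {q : ℝ} (hq : 0 ≤ q) (u v : ℝ × ℝ × ℝ) : nq q (u + v) ≤ nq q u + nq q v := by
  have a1 : ∀ w : ℝ × ℝ × ℝ, |w.1| ≤ nq q w := fun w => le_max_left _ _
  have a2 : ∀ w : ℝ × ℝ × ℝ, |w.2.1| ≤ nq q w := fun w => le_max_of_le_right (le_max_left _ _)
  have a3 : ∀ w : ℝ × ℝ × ℝ, q * |w.2.2| ≤ nq q w := fun w => le_max_of_le_right (le_max_right _ _)
  refine max_le ((abs_add_le _ _).trans (add_le_add (a1 u) (a1 v)))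
    (max_le ((abs_add_le _ _).trans (add_le_add (a2 u) (a2 v))) ?_)
  have := mul_le_mul_of_nonneg_left (abs_add_le u.2.2 v.2.2) hq
  have h := add_le_add (a3 u) (a3 v)
  rw [mul_add] at this
  exact this.trans h

/-- the second derivative at a fold -/
theorem fold2 {c : Cs} {M : Mdl} {K : ℕ} (hM : M.OKk c (K + 6)) (hbl : 0 ≤ c.bl) {z : ℝ × ℝ × ℝ}
    (hz : z ∈ OB c) (hd : 1 / 100 ≤ dP z.2.1) (u v : ℝ × ℝ × ℝ) :
    |iteratedFDeriv ℝ 2 M.GG z ![u, v] - -(c.L * cos z.2.1) * (u.2.1 * v.2.1)| ≤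
      exp (-2 * c.bl) * (nq (exp (-c.bl / 2)) u * nq (exp (-c.bl / 2)) v) := by
  have s2 : ContDiffAt ℝ 2 M.GG z := hM.smoothAt hz (WithTop.coe_le_coe.2 (le_top : (2 : ℕ∞) ≤ ⊤))
  obtain sc2 : ContDiffAt ℝ 2 (fun z : ℝ × ℝ × ℝ => c.L * cos z.2.1) z := by fun_prop
  obtain hfold := hM.fold 2 le_rfl (by omega) z hz hd
  set R : (ℝ × ℝ × ℝ) → ℝ := fun z => M.GG z - c.L * cos z.2.1 with hR
  set q0 := exp (-c.bl / 2) with hq0
  have q0p : 0 < q0 := exp_pos _
  obtain q01 : q0 ≤ 1 := exp_le_one_iff.2 (by linarith only [hbl])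
  obtain split : iteratedFDeriv ℝ 2 M.GG z ![u, v] - -(c.L * cos z.2.1) * (u.2.1 * v.2.1) =
      iteratedFDeriv ℝ 2 R z ![u, v] := by
    have := iteratedFDeriv_sub_apply (𝕜 := ℝ) (i := 2) s2 sc2
    have e : R = M.GG - fun z : ℝ × ℝ × ℝ => c.L * cos z.2.1 := rfl
    rw [e, this, sub_apply, QB.d2_cos]
  rw [split]
  have h1 := (iteratedFDeriv ℝ 2 R z).le_opNorm ![u, v]
  rw [Fin.prod_univ_two, Real.norm_eq_abs] at h1
  simp only [Matrix.cons_val_zero, Matrix.cons_val_one] at h1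
  obtain h2 : exp (-(((K + 6 : ℕ) : ℝ) + 2) * c.bl) ≤ exp (-2 * c.bl) * (q0 * q0) := by
    rw [hq0, ← exp_add, ← exp_add]
    refine exp_le_exp.2 ?_
    have : (0 : ℝ) ≤ K := Nat.cast_nonneg K
    push_cast
    nlinarith only [hbl]
  calc _ ≤ exp (-2 * c.bl) * (q0 * q0) * (‖u‖ * ‖v‖) :=
        h1.trans (mul_le_mul_of_nonneg_right (hfold.trans h2) (by positivity))
    _ = exp (-2 * c.bl) * ((q0 * ‖u‖) * (q0 * ‖v‖)) := by ring
    _ ≤ _ := mul_le_mul_of_nonneg_left (mul_le_mul (QB.norm_le_nq q0p q01 u) (QB.norm_le_nq q0p q01 v)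
        (by positivity) (nq_nonneg _ _)) (exp_pos _).le

variable {K : ℕ} {c : Cs} {d : D5}

/-- the expansions at one step; `A a` is the bilinear term `D²G[z_a, p_b]` -/
theorem step (hb : SOK.Big c) (hCG : 1 ≤ c.CG) (hbl : 0 ≤ c.bl) (sok : SOK_s c) (geo : GEO_s K c)
    (h : d.H K c) (hZ : d.Z0 K) {l : ℤ} (hl : 1 ≤ l) (hlm : l < d.m) :
    ∃ A : ℕ → ℕ → ℝ, (∀ a b, a ≤ 3 → 1 ≤ b → b ≤ 3 → |A a b| ≤ c.CG * c.L * (d.Z a l * d.P b l) ∧
        (l ∈ d.k.D → |A a b - d.Lt c l * (d.z a l * d.p b l)| ≤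
          exp (-2 * c.bl) * (d.Z a l * d.P b l))) ∧
      |d.F 1 l - A 0 1| ≤ c.CG * c.L * d.E1 l ∧
      |d.F 2 l - A 0 2 - 2 * A 1 1| ≤ c.CG * c.L * d.E2 l ∧
      ∀ m1 m2, m1 = d.P 1 l + d.Z 1 l → m2 = d.P 2 l + d.Z 2 l →
        |d.F 3 l| ≤ c.CG * c.L * (d.Z 0 l * (d.P 3 l + d.Z 3 l) + 24 * (d.Z 0 l * (m1 * m2)
          + d.Z 0 l * m1 ^ 3 + d.Z 1 l * m2 + d.Z 2 l * m1 + d.Z 1 l * m1 ^ 2)) := by
  obtain ⟨hK, -, h⟩ := h
  have oc := h.jc.oc
  have a1 := h.jc.at'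
  have a2 := h.at'
  have hM := oc.ok
  have hL := hb.L
  obtain hN : ((K + 1 : ℕ) : WithTop ℕ∞) ≤ ∞ := by exact_mod_cast le_top
  have ht : 0 < d.t ∧ d.t < 1 := ⟨a1.t0, a1.t1⟩
  set X := d.M.fam 1 d.σ.v d.σ.c with hX
  set X' := d.M.fam 1 d.σ'.v d.σ'.c with hX'
  obtain sm : ∀ l, ContDiffAt ℝ (K + 1 : ℕ) (X l) d.t := fun l =>
    Mdl.fam_smooth hb hM hN ht (a1.bv.trans_lt (by linarith only [hL, ht])) (a1.bc.trans_lt (by linarith only [hL, ht]))
      a1.sv a1.sc l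
  obtain sm' : ∀ l, ContDiffAt ℝ (K + 1 : ℕ) (X' l) d.t := fun l =>
    Mdl.fam_smooth hb hM hN ht (a2.bv.trans_lt (by linarith only [hL, ht])) (a2.bc.trans_lt (by linarith only [hL, ht]))
      a2.sv a2.sc l
  have pj : ∀ j l, d.p j l = iteratedDeriv j (X l) d.t := fun _ _ => rfl
  have zj : ∀ j l, d.z j l = iteratedDeriv j (X' l) d.t - iteratedDeriv j (X l) d.t := fun _ _ => rfl
  obtain o2 : O2 c d.M d.t (d.σ'.orb d.M d.t) := by
    refine ⟨ht.1, ht.2, (sok d.M hM.ok d.t ⟨ht.1.le, ht.2.le⟩).1 1 _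
      (a2.bv.trans (by linarith only [hL, ht])) (a2.bc.trans (by linarith only [hL, ht])) fun e _ => ?_, ?_, ?_⟩
    · obtain this := a2.far; exact absurd e (by simp only [not_lt]; linarith only [ht, e, this])
    · show |d.M.fam 1 d.σ'.v d.σ'.c 0 d.t| ≤ _
      rw [Mdl.fam_lt (by norm_num)]; exact a2.bc
    · show |d.M.fam 1 d.σ'.v d.σ'.c 1 d.t| ≤ _
      rw [Mdl.fam_self]; exact a2.bv
  obtain hG := geo d.M d.t d.g _ d.k d.m oc d.t _ o2 l hl hlm.le (hZ.sm l (by omega) hlm.le)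
    (hZ.sm (l - 1) (by omega) (by omega))
  set γ₂ := gam X l with hγ₂
  set γ₁ := gam X' l with hγ₁
  set q := exp (-d.k.ch l / 2) with hq
  change ∀ z ∈ segment ℝ (γ₂ d.t) (γ₁ d.t), _ at hG
  have hU := convex_segment (𝕜 := ℝ) (γ₂ d.t) (γ₁ d.t)
  have h1 := right_mem_segment ℝ (γ₂ d.t) (γ₁ d.t)
  have h2 := left_mem_segment ℝ (γ₂ d.t) (γ₁ d.t)
  obtain le : ∀ a : ℕ, a ≤ 3 → (a : WithTop ℕ∞) ≤ (K + 1 : ℕ) := fun a ha => by
    exact_mod_cast (by omega : a ≤ K + 1)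
  have g1 : ∀ a : ℕ, a ≤ 3 → ContDiffAt ℝ a γ₁ d.t := fun a ha =>
    (gam_smooth (sm' l) (sm' (l - 1))).of_le (le a ha)
  have g2 : ∀ a : ℕ, a ≤ 3 → ContDiffAt ℝ a γ₂ d.t := fun a ha =>
    (gam_smooth (sm l) (sm (l - 1))).of_le (le a ha)
  obtain sG : ∀ a : ℕ, ∀ u ∈ segment ℝ (γ₂ d.t) (γ₁ d.t), ContDiffAt ℝ a d.M.GG u := fun a u hu =>
    hM.smoothAt (hG u hu).1 (by exact_mod_cast le_top)
  obtain hD : ∀ k, 2 ≤ k → k ≤ 4 → ∀ u ∈ segment ℝ (γ₂ d.t) (γ₁ d.t), ∀ v : Fin k → ℝ × ℝ × ℝ,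
      |iteratedFDeriv ℝ k d.M.GG u v| ≤ c.CG * c.L * ∏ i, nq q (v i) :=
    fun k a b u hu => (hG u hu).2.2 k a (by omega)
  obtain hCL : 0 ≤ c.CG * c.L := mul_nonneg (by linarith only [hCG, ht]) (by linarith only [hL, ht])
  obtain df : ∀ a, a ≤ 3 → iteratedDeriv a γ₁ d.t - iteratedDeriv a γ₂ d.t = (0, d.z a l, d.z a (l - 1)) := by
    intro a ha
    rcases Nat.eq_zero_or_pos a with rfl | h0
    · simp [hγ₁, hγ₂, gam, zj]
    · rw [hγ₁, hγ₂, gam_jet (sm' l) (sm' (l - 1)) h0 (le a ha), gam_jet (sm l) (sm (l - 1)) h0 (le a ha),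
        zj, zj]
      simp
  obtain df0 : γ₁ d.t - γ₂ d.t = (0, d.z 0 l, d.z 0 (l - 1)) := by simpa using df 0 (by omega)
  obtain nz : ∀ a, nq q (0, d.z a l, d.z a (l - 1)) = d.Z a l := fun a => by
    simp only [nq, D5.Z, abs_zero]
    exact max_eq_right (le_max_of_le_left (abs_nonneg _))
  obtain jt : ∀ a, 0 < a → a ≤ 3 → iteratedDeriv a γ₂ d.t =
      (if a = 1 then 1 else 0, d.p a l, d.p a (l - 1)) := fun a h0 ha => by
    rw [hγ₂, gam_jet (sm l) (sm (l - 1)) h0 (le a ha), pj, pj]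
  obtain np : ∀ a, 0 < a → a ≤ 3 → nq q (iteratedDeriv a γ₂ d.t) = d.P a l := fun a h0 ha => by
    rw [jt a h0 ha]
    unfold nq D5.P Seed.gz
    congr 1
    split_ifs <;> simp
  obtain np' : ∀ a, 0 < a → a ≤ 3 → nq q (iteratedDeriv a γ₁ d.t) ≤ d.P a l + d.Z a l := fun a h0 ha => by
    have := nq_add (exp_pos (-d.k.ch l / 2)).le (iteratedDeriv a γ₂ d.t)
      (iteratedDeriv a γ₁ d.t - iteratedDeriv a γ₂ d.t)
    rwa [add_sub_cancel, ← hq, np a h0 ha, df a ha, nz] at this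
  obtain eF : ∀ a, a ≤ 3 → d.F a l = iteratedDeriv a (d.M.GG ∘ γ₁) d.t - iteratedDeriv a (d.M.GG ∘ γ₂) d.t
      - fderiv ℝ d.M.GG (γ₂ d.t) (iteratedDeriv a γ₁ d.t - iteratedDeriv a γ₂ d.t) := by
    intro a ha
    have e1 : X' (l + 1) = d.M.GG ∘ γ₁ := Mdl.fam_succ hl
    have e2 : X (l + 1) = d.M.GG ∘ γ₂ := Mdl.fam_succ hl
    rw [df a ha, hM.d1 _ (hG _ h2).1, D5.F, zj a (l + 1), e1, e2, mul_zero, zero_add, sub_sub]
    rfl
  have Z0 : ∀ a, 0 ≤ d.Z a l := fun a => nz a ▸ nq_nonneg _ _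
  refine ⟨fun a b => iteratedFDeriv ℝ 2 d.M.GG (γ₂ d.t)
    ![(0, d.z a l, d.z a (l - 1)), iteratedDeriv b γ₂ d.t], fun a b _ b1 b3 => ⟨?_, fun hx => ?_⟩,
    ?_, ?_, ?_⟩
  · obtain this := hD 2 le_rfl (by omega) _ h2 ![(0, d.z a l, d.z a (l - 1)), iteratedDeriv b γ₂ d.t]
    rw [Fin.prod_univ_two] at this
    simpa only [Matrix.cons_val_zero, Matrix.cons_val_one, nz, np b b1 b3] using this
  · obtain this := fold2 hM hbl (hG _ h2).1 (le_trans (by norm_num) ((hG _ h2).2.1 hx hlm))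
      (0, d.z a l, d.z a (l - 1)) (iteratedDeriv b γ₂ d.t)
    obtain e : exp (-c.bl / 2) = q := by rw [hq, (oc.sk.1.ch_D l hx).1]
    rw [e, nz, np b b1 b3] at this
    obtain e2 : (iteratedDeriv b γ₂ d.t).2.1 = d.p b l := by rw [jt b b1 b3]
    rw [e2] at this
    exact this
  · obtain this := J0.diff_one hU h1 h2 (sG 3) (g1 1 (by omega)) (g2 1 (by omega)) hCL (nq_nonneg q)
      (hD 2 le_rfl (by omega)) (hD 3 (by omega) (by omega)) (df0 ▸ (nz 0).le)
      (df 1 (by omega) ▸ (nz 1).le) (np 1 one_pos (by omega)).le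
    rw [← eF 1 (by omega), df0] at this
    exact this
  · obtain this := J0.diff_two hU h1 h2 (sG 3) (g1 2 (by omega)) (g2 2 (by omega)) hCL (nq_nonneg q)
      (hD 2 le_rfl (by omega)) (hD 3 (by omega) (by omega)) (df0 ▸ (nz 0).le)
      (df 1 (by omega) ▸ (nz 1).le) (df 2 (by omega) ▸ (nz 2).le) (np' 1 one_pos (by omega))
      (np 2 two_pos (by omega)).le
    rw [← eF 2 (by omega), df0, df 1 (by omega)] at this
    exact this
  · rintro _ _ rfl rfl
    have := J0.diff_three (m := fun a => d.P a l + d.Z a l) (z := fun a => d.Z a l) hU h1 h2 (sG 4)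
      (g1 3 le_rfl) (g2 3 le_rfl) hCL (nq_nonneg q) hD np'
      (fun a h0 ha => (np a h0 ha.le).le.trans (le_add_of_nonneg_right (Z0 a))) (df0 ▸ (nz 0).le)
      (fun a _ ha => df a ha.le ▸ (nz a).le)
    rw [← eF 3 le_rfl] at this
    refine this.trans (le_of_eq ?_)
    ring

theorem main (hb : SOK.Big c) (hCG : 1 ≤ c.CG) (hbl : 0 ≤ c.bl) (sok : SOK_s c) (geo : GEO_s K c) :
    SRC5_s K c := by
  intro d h hZ
  have S := fun l hl hlm => step (l := l) hb hCG hbl sok geo h hZ hl hlm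
  have k1 := h.2.2.jc.oc.sk.1
  have x1 : ∀ x ∈ d.k.D, 1 ≤ x := fun x hx => (k1.F_mem x (k1.D_mem x hx).1).1
  refine ⟨fun l a b => ?_, fun l a b => ?_, fun l a b => ?_, fun x hx b => ?_, fun x hx b => ?_⟩
  · obtain ⟨A, hA, h1, -⟩ := S l a b
    obtain this := abs_le.1 (hA 0 1 (by omega) le_rfl (by omega)).1
    have := abs_le.1 h1
    rw [mul_add, abs_le]
    constructor <;> (rename_i zq0; linarith only [zq0, this])
  · obtain ⟨A, hA, -, h2, -⟩ := S l a b
    obtain this := abs_le.1 (hA 0 2 (by omega) (by omega) (by omega)).1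
    obtain this := abs_le.1 (hA 1 1 (by omega) le_rfl (by omega)).1
    have := abs_le.1 h2
    rw [mul_add, mul_add, mul_left_comm, abs_le]
    constructor <;> (rename_i zq1 zq0; linarith only [zq1, zq0, this])
  · obtain ⟨A, -, -, -, h3⟩ := S l a b
    exact h3
  · obtain ⟨A, hA, h1, -⟩ := S x (x1 x hx) b
    obtain this := abs_le.1 ((hA 0 1 (by omega) le_rfl (by omega)).2 hx)
    have := abs_le.1 h1
    rw [abs_le]
    constructor <;> (rename_i zq0; linarith only [zq0, this])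
  · obtain ⟨A, hA, -, h2, -⟩ := S x (x1 x hx) b
    obtain this := abs_le.1 ((hA 0 2 (by omega) (by omega) (by omega)).2 hx)
    obtain this := abs_le.1 ((hA 1 1 (by omega) le_rfl (by omega)).2 hx)
    have := abs_le.1 h2
    rw [abs_le]
    constructor <;> (rename_i zq1 zq0; linarith only [zq1, zq0, this])

end SRC5

theorem src5 (K : ℕ) : Hier fun c => SOK_s c → GEO_s K c → SRC5_s K c :=
  ((SOK.big.and Hier.base).and QB.Hier_bl).mono fun _ h sok geo =>
    SRC5.main h.1.1 h.1.2.2.2.2.2.2 h.2 sok geo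

end
end Pool.Agent.MP_9cbfe4_an

end

/-! ### Part EXT -/

section

/-! Row EXT: local description of a bound run at its free times. -/

namespace Pool.Agent.MP_9cbfe4_an

open Finset Filter Topology Real

namespace EXT

theorem frs_cons (n : ℤ) (r : ℝ) (Ls : List (ℤ × ℝ)) (p : ℤ) :
    frs ((n, r) :: Ls) p = insert p (frs Ls n) := by
  simp [frs]

theorem mem_last (Ls : List (ℤ × ℝ)) (p : ℤ) : p ∈ frs Ls p := mem_insert_self _ _

theorem nxt_le_last (Ls : List (ℤ × ℝ)) (p i : ℤ) : nxt Ls p i ≤ p := by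
  unfold nxt
  exact (fold_min_le _).2 (Or.inl le_rfl)

theorem nxt_le {Ls : List (ℤ × ℝ)} {p i m : ℤ} (hm : m ∈ frs Ls p) (h : i < m) :
    nxt Ls p i ≤ m := by
  unfold nxt
  exact (fold_min_le _).2 (Or.inr ⟨m, mem_filter.2 ⟨hm, h⟩, le_rfl⟩)

theorem nxt_spec {Ls : List (ℤ × ℝ)} {p i : ℤ} (h : i < p) :
    nxt Ls p i ∈ frs Ls p ∧ i < nxt Ls p i := by
  have h1 : nxt Ls p i ≤ nxt Ls p i := le_rfl
  obtain h2 : i < nxt Ls p i := by
    unfold nxt
    exact (lt_fold_min _).2 ⟨h, fun x hx => (mem_filter.1 hx).2⟩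
  refine ⟨?_, h2⟩
  conv_lhs at h1 => unfold nxt
  rcases (fold_min_le _).1 h1 with h3 | ⟨x, hx, h3⟩
  · rw [le_antisymm (nxt_le_last Ls p i) h3]
    exact mem_last _ _
  · have hx' := mem_filter.1 hx
    rw [le_antisymm (nxt_le hx'.1 hx'.2) h3]
    exact hx'.1

theorem nxt_last {Ls : List (ℤ × ℝ)} {p : ℤ} : nxt Ls p p = p := by
  refine le_antisymm (nxt_le_last _ _ _) ?_
  unfold nxt
  exact (le_fold_min _).2 ⟨le_rfl, fun x hx => (mem_filter.1 hx).2.le⟩

theorem nxt_cons_self {n p : ℤ} {r : ℝ} {Ls : List (ℤ × ℝ)} (hnp : n < p)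
    (hF : ∀ m ∈ frs Ls n, m ≤ n) : nxt ((n, r) :: Ls) p n = p := by
  obtain ⟨h1, h2⟩ := nxt_spec (Ls := (n, r) :: Ls) hnp
  rw [frs_cons, mem_insert] at h1
  rcases h1 with h1 | h1
  · exact h1
  · exact absurd (hF _ h1) (not_le.2 h2)

theorem nxt_cons_lt {n p i : ℤ} {r : ℝ} {Ls : List (ℤ × ℝ)} (hnp : n < p) (hi : i < n) :
    nxt ((n, r) :: Ls) p i = nxt Ls n i := by
  obtain ⟨h1, h2⟩ := nxt_spec (Ls := (n, r) :: Ls) (hi.trans hnp)
  obtain ⟨h3, h4⟩ := nxt_spec (Ls := Ls) hi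
  obtain h5 : nxt ((n, r) :: Ls) p i ≤ nxt Ls n i :=
    nxt_le (by rw [frs_cons]; exact mem_insert_of_mem h3) h4
  refine le_antisymm h5 ?_
  rw [frs_cons, mem_insert] at h1
  rcases h1 with h1 | h1
  · have := nxt_le_last Ls n i
    omega
  · exact nxt_le h1 h2

/-- what is known of the step from the free time `m` to `q` -/
def Loc (c : Cs) (Ex : ExT) (S : Sq) (ξ : ℤ → ℝ) (s : ℤ) (P : List (ℤ × ℝ) → ℤ → ℝ → Prop)
    (m q : ℤ) : Prop :=
  ∃ Lm, S.Run c Ex ξ s P Lm m ∧ P Lm m (S.dep c ξ m q) ∧ S.Step c Ex ξ s m (S.dep c ξ m q) q ∧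
    S.Out c ξ m ∧ ((q = m + 1 ∧ c.cb * c.L ≤ S.rho ξ m (m + 1) ^ 2) ∨
      ∃ L' r', S.BRun c Ex ξ m L' q r' ∧ S.RInv c (S.fr (m + 1)) (m + 1) q ∧ S.BInv c m L' q ∧
        S.Wp c m q ≤ 2 * S.dep c ξ m q ∧
        c.cw * c.L ≤ S.rho ξ m q ^ 2 * exp (S.Wt c (S.fr (m + 1)) (m + 1) q r'))

def Inv (c : Cs) (Ex : ExT) (S : Sq) (ξ : ℤ → ℝ) (s : ℤ) (P : List (ℤ × ℝ) → ℤ → ℝ → Prop)
    (Ls : List (ℤ × ℝ)) (p : ℤ) : Prop :=
  s ∈ frs Ls p ∧ ∀ m ∈ frs Ls p, m ≤ p ∧ S.RInv c ξ s m ∧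
    (m < p → Loc c Ex S ξ s P m (nxt Ls p m) ∧ (m, S.dep c ξ m (nxt Ls p m)) ∈ Ls)

theorem inv_cons {c : Cs} {Ex : ExT} {S : Sq} {ξ s P Ls n p} (h : Inv c Ex S ξ s P Ls n)
    (hnp : n < p) (hr : S.RInv c ξ s p) (hl : Loc c Ex S ξ s P n p) :
    Inv c Ex S ξ s P ((n, S.dep c ξ n p) :: Ls) p := by
  refine ⟨by rw [frs_cons]; exact mem_insert_of_mem h.1, fun m hm => ?_⟩
  rw [frs_cons, mem_insert] at hm
  rcases hm with rfl | hm
  · exact ⟨le_rfl, hr, fun h => absurd h (lt_irrefl _)⟩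
  · obtain ⟨h1, h2, h3⟩ := h.2 m hm
    refine ⟨h1.trans hnp.le, h2, fun _ => ?_⟩
    rcases h1.eq_or_lt with rfl | h4
    · rw [nxt_cons_self hnp fun m hm => (h.2 m hm).1]
      exact ⟨hl, List.mem_cons_self⟩
    · rw [nxt_cons_lt hnp h4]
      exact ⟨(h3 h4).1, List.mem_cons_of_mem _ (h3 h4).2⟩

theorem main {c : Cs} (hl : 10 ≤ c.lam) (hL : 1 ≤ c.L) (hS : STEP_s c) (hB : B1_s c)
    {Ex : ExT} {S : Sq} (hok : S.OK c) {ξ s P Ls p} (h : S.Run c Ex ξ s P Ls p) :
    S.St c ξ s → Inv c Ex S ξ s P Ls p := by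
  obtain ⟨b1, b2, -⟩ := hB Ex S hok
  induction h with
  | start ξ s P =>
    intro hs
    refine ⟨mem_last _ _, fun m hm => ?_⟩
    obtain e : m = s := by simpa [frs] using hm
    subst e
    exact ⟨le_rfl, (b1 ξ m P [] m hs (.start ξ m P)).2, fun h => absurd h (lt_irrefl _)⟩
  | @shallow ξ s P Ls n h0 hρ hP ih =>
    intro hs
    have hr := (b1 ξ s P Ls n hs h0).2
    have hst := (hS Ex S ξ s n hok hs hr).1 hρ
    exact inv_cons (ih hs) hst.lt (b1 ξ s P _ _ hs (.shallow h0 hρ hP)).2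
      ⟨Ls, h0, hP, hst, B1.out_of_rinv hl hs hr, .inl ⟨rfl, hρ⟩⟩
  | @block ξ s P Ls n Ls' p r' h0 hrun hPB hw hP ih _ =>
    intro hs
    have hr := (b1 ξ s P Ls n hs h0).2
    have ho := B1.out_of_rinv hl hs hr
    have hr2 := (b1 _ _ _ Ls' p (B1.st_fr c S (by linarith only [ho.1])) hrun).2
    have hbi := b2 ξ n Ls' p r' ho hrun hPB.1
    have hst := (hS Ex S ξ s n hok hs hr).2 Ls' p r' ⟨hrun, hPB⟩ hr2 hbi hw
    exact inv_cons (ih hs) hst.lt (b1 ξ s P _ _ hs (.block h0 hrun hPB hw hP)).2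
      ⟨Ls, h0, hP, hst, ho, .inr ⟨Ls', r', ⟨hrun, hPB⟩, hr2, hbi, B1.wp_le hl hL hPB.1 hw, hw⟩⟩

end EXT

open EXT in
theorem ext_row : Hier fun c => STEP_s c → B1_s c → EXT_s c := by
  have H1 := Hier.lam_ge (fun _ => 10) fun _ _ => rfl
  have H2 := Hier.L_ge (fun _ => 1) fun _ _ => rfl
  refine (H1.and H2).mono ?_
  rintro c ⟨hl, hL⟩ hS hB Ex S ξ n Ls p hok ho hrun
  obtain ⟨h1, h2⟩ := main hl hL hS hB hok hrun (B1.st_fr c S (by linarith only [ho.1]))
  refine ⟨h1, fun m hm => ⟨?_, (h2 m hm).1⟩,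
    fun i hi => ⟨(nxt_spec hi).1, (nxt_spec hi).2, fun m hm h => nxt_le hm h⟩, nxt_last,
    fun m hm => ⟨(h2 m hm).2.1, fun hmp => ?_⟩⟩
  · have := (h2 m hm).2.1.le
    omega
  · obtain ⟨⟨Lm, a1, a2, a3, a4, a5⟩, a6⟩ := (h2 m hm).2.2 hmp
    exact ⟨Lm, a1, a2, (hB Ex S hok).2.1 ξ n Lm m _ ho a1 a2.1, a3, a4, a6, a5⟩

end Pool.Agent.MP_9cbfe4_an

end

/-! ### Part D8 -/

section

/-! Row D8: the parameter speed of the true orbit. -/

namespace Pool.Agent.MP_9cbfe4_an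

open Finset Real

namespace D8

structure Big (c : Cs) : Prop where
  κ0 : 0 < c.κ
  C0 : 1 ≤ c.C0
  e0 : 0 < c.e3
  e1 : c.e3 ≤ 1 / (12 * c.ck)
  β : c.C0 * (240 * c.ck + 14) ≤ c.β
  lam : 100 ≤ c.lam

theorem big : Hier Big := by
  obtain h1 := Hier.e3_le (fun c => 1 / (12 * c.ck)) (fun _ _ _ _ _ _ _ _ => rfl)
    (Hier.base.mono fun c h => by have := h.2.2.2.2.1; unfold Cs.ck; positivity)
  refine (Hier.base.and ((Hier.C0_ge fun _ _ _ _ => 1).and (h1.and
    ((Hier.β_ge (fun c => c.C0 * (240 * c.ck + 14)) fun _ _ _ => rfl).and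
    (Hier.lam_ge (fun _ => 100) fun _ _ => rfl))))).mono ?_
  rintro c ⟨b, h0, h1, h2, h3⟩
  exact ⟨b.2.2.2.2.1, h0, h1.1, h1.2, h2, h3⟩

theorem inv_sq (n : ℕ) : ∑ i ∈ Ico (1 : ℤ) (n + 2), 1 / (i : ℝ) ^ 2 ≤ 2 - 1 / ((n : ℝ) + 1) := by
  induction n with
  | zero =>
    obtain this : Ico (1 : ℤ) ((0 : ℕ) + 2) = {1} := by decide
    rw [this]; norm_num
  | succ n ih =>
    obtain e : Ico (1 : ℤ) ((n + 1 : ℕ) + 2) = insert ((n : ℤ) + 2) (Ico 1 ((n : ℤ) + 2)) := by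
      ext i; simp only [mem_Ico, mem_insert]; push_cast; omega
    rw [e, sum_insert (by simp)]
    push_cast
    have h0 : (0 : ℝ) ≤ n := n.cast_nonneg
    obtain this : 1 / ((n : ℝ) + 2) ^ 2 ≤ 1 / ((n : ℝ) + 1) - 1 / ((n : ℝ) + 1 + 1) := by
      rw [div_sub_div _ _ (by positivity) (by positivity), div_le_div_iff₀ (by positivity)
        (by positivity)]
      linarith only []
    linarith only [ih, this]

theorem inv_sq' {a b : ℤ} (ha : 1 ≤ a) : ∑ i ∈ Ico a b, 1 / (i : ℝ) ^ 2 ≤ 2 := by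
  have h1 := inv_sq b.toNat
  obtain h2 : ∑ i ∈ Ico a b, 1 / (i : ℝ) ^ 2 ≤ ∑ i ∈ Ico (1 : ℤ) (b.toNat + 2), 1 / (i : ℝ) ^ 2 :=
    sum_le_sum_of_subset_of_nonneg (Ico_subset_Ico ha (by omega)) fun _ _ _ => by (clear * -; positivity)
  obtain h3 : 0 < 1 / ((b.toNat : ℝ) + 1) := by (clear * -; positivity)
  linarith only [h1, h2, h3]

variable {c : Cs} {k : Sk}

theorem small (hb : Big c) {s y : ℝ} (hs : c.lam ≤ s) (hy : y ≤ 6) :
    exp (y * s) ≤ 1 / 100 * exp (8 * s) := by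
  obtain h1 : exp (8 * s) = exp (y * s) * exp ((8 - y) * s) := by rw [← exp_add]; congr 1; ring
  have h2 := add_one_le_exp ((8 - y) * s)
  obtain h3 : 100 ≤ exp ((8 - y) * s) := by nlinarith only [hs, hy, h2, hb.lam]
  rw [h1]; nlinarith only [h3, exp_pos (y * s)]

/-- the majorant `E` beyond the low level -/
theorem E_le (hb : Big c) (hk : k.OK c) (hT : TA_s c)
    (hsl : ∀ i, k.sl i ≤ c.ths * k.W i + 10 * c.lam) {m0 m j i : ℤ} (h0 : m0 ∈ k.F)
    (hmax : ∀ y ∈ k.F, m0 < y → c.bl < c.C0 * k.W y) (hm : m ≤ k.N)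
    (hj : ∀ x ∈ k.F, x < m → x < j) (h1 : m0 ≤ i) (h2 : i < m) :
    exp (k.σ i) * k.E m i ≤ exp (-c.lam) + k.d8 j / 10 := by
  classical
  obtain ⟨o1, o2⟩ := hk
  obtain ⟨-, -, -, tm, tl, -⟩ := hT k ⟨o1, o2⟩
  have hi1 : 1 ≤ i := (o1.F_mem _ h0).1.trans h1
  have hd0 : 0 ≤ k.d8 j := (le_fold_max _).2 (Or.inl le_rfl)
  obtain hV : ∀ x ∈ k.D, 0 < k.V x 1 := fun x hx => by
    have := (o1.η_mem x hx).1
    have := o1.w_pos x (o1.F_mem _ (o1.D_mem x hx).1).1
    unfold Sk.V; (rename_i zq0; clear * - zq0 this; positivity)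
  obtain hd : ∀ x ∈ k.D, x < m → ∀ y, y ≤ 6 → exp (y * k.σ x) * k.V x 1 ≤ k.d8 j / 100 := by
    intro x hx hxm y hy
    have g1 : exp (8 * k.σ x) * k.V x 1 ≤ k.d8 j :=
      (le_fold_max _).2 (Or.inr ⟨x, mem_filter.2 ⟨hx, hj x (o1.D_mem x hx).1 hxm⟩, le_rfl⟩)
    have g2 := mul_le_mul_of_nonneg_right (small hb (tl x (o1.D_mem x hx).2.le) hy) (hV x hx).le
    linarith only [g1, g2]
  obtain hσ0 : 0 ≤ k.σ i := by linarith only [hm, h2, tl i (by omega), hb.lam]
  obtain han : exp (k.σ i) * (exp (4 * k.σ i) * k.an m i) ≤ k.d8 j / 100 := by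
    rw [← mul_assoc, ← exp_add, ← le_div_iff₀' (exp_pos _)]
    refine (fold_max_le _).2 ⟨by (clear * - hd0; positivity), fun x hx => ?_⟩
    obtain ⟨hx, g1, g2⟩ := mem_filter.1 hx
    rw [le_div_iff₀' (exp_pos _)]
    refine le_trans ?_ (hd x hx g2 5 (by norm_num))
    obtain g3 : exp (-k.chi i x / 2) ≤ 1 := exp_le_one_iff.2 (by
      obtain this : 0 ≤ k.chi i x := sum_nonneg fun l _ => by linarith only [(o1.ch_mem l).1]
      linarith only [this])
    have g4 := tm i x g1.le (o1.D_mem x hx).2.le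
    have := hV x hx
    calc _ ≤ exp (5 * k.σ x) * (1 * k.V x 1) := by gcongr; linarith only [g4]
      _ = _ := by rw [one_mul]
  unfold Sk.E
  rw [mul_add]
  have hE := exp_pos (-c.lam)
  split_ifs with hD
  · obtain this := hd i hD h2 1 (by norm_num)
    rw [one_mul] at this
    linarith only [hd0, han, hE, this]
  by_cases hin : ∀ x ∈ k.D, x < i → k.nx x ≤ i
  · obtain ⟨y, hy, hy'⟩ := exists_max_image (k.F.filter fun y => y ≤ i) id
      ⟨m0, mem_filter.2 ⟨h0, h1⟩⟩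
    obtain ⟨yF, yi⟩ := mem_filter.1 hy
    have y0 : m0 ≤ y := hy' m0 (mem_filter.2 ⟨h0, h1⟩)
    obtain ⟨n1, n2, n3⟩ := o1.nx_mem y (by omega)
    obtain ⟨p1, p2, p3⟩ := o1.nx_mem i (by omega)
    obtain lt : i < k.nx y := by
      by_contra h
      have := hy' _ (mem_filter.2 ⟨n1, not_lt.1 h⟩)
      simp only [id] at this; omega
    obtain e : k.nx i = k.nx y := le_antisymm (p3 _ n1 lt) (n3 _ p1 (by omega))
    obtain yD : y ∉ k.D := fun h => by
      rcases yi.eq_or_lt with h' | h'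
      · exact hD (h' ▸ h)
      · exact absurd (hin y h h') (not_le.2 lt)
    obtain eσ : k.σ i = k.σ y := by unfold Sk.σ; rw [e]
    have g1 := o2.nlo y yF yD i yi lt
    have g2 := o1.nmaj y yF yD
    have g3 := o1.jump y yF
    obtain g4 := hmax _ n1 (by omega)
    have g5 := hsl y
    have hW : 0 ≤ k.W y := o1.W1 ▸ o1.W_mono 1 y le_rfl (o1.F_mem _ yF).1
    obtain hck : 2 ≤ c.ck := by unfold Cs.ck; linarith only [hb.κ0]
    have hl := hb.lam
    obtain t1 : c.e3 * (12 * c.ck) ≤ 1 := (le_div_iff₀ (by positivity)).1 hb.e1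
    have t0 := hb.e0
    obtain t2 : c.e3 ≤ 1 := by nlinarith only [t1, hck, t0]
    obtain t3 : c.ths ≤ c.e3 := by
      unfold Cs.ths; exact pow_le_of_le_one t0.le t2 (by norm_num)
    obtain t4 : c.ck * (c.ths * k.W y) ≤ k.W y / 12 := by
      obtain this : c.ck * c.ths ≤ 1 / 12 := by nlinarith only [t1, t3, hck]
      nlinarith only [hW, this]
    obtain t5 : c.ths * k.W y ≤ k.W y := by nlinarith only [hW, t2, t3]
    obtain g6 : (240 * c.ck + 14) * c.lam ≤ k.W (k.nx y) := by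
      obtain this : c.C0 * ((240 * c.ck + 14) * c.lam) ≤ c.bl := by
        unfold Cs.bl; nlinarith only [hl, hb.β]
      exact le_of_mul_le_mul_left (this.trans g4.le) (by linarith only [hb.C0])
    obtain g7 : k.σ y ≤ k.W y / 12 + 10 * (c.ck * c.lam) := by nlinarith only [g3, g5, t4, hck]
    obtain g8 : exp (k.σ i) * (exp (4 * k.σ i) / k.om i) ≤ exp (-c.lam) := by
      have wp := o1.w_pos i hi1
      rw [o2.om_out i hin, ← mul_div_assoc, ← exp_add, div_le_iff₀ wp, ← exp_log wp, ← exp_add,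
        exp_le_exp, eσ]
      linarith only [g1, g2, g5, t5, g6, g7]
    linarith only [hd0, han, g8]
  · push Not at hin
    obtain ⟨x, hx, x1, x2⟩ := hin
    obtain ⟨n1, n2, n3⟩ := o1.nx_mem x (o1.D_mem x hx).2
    obtain ⟨p1, p2, p3⟩ := o1.nx_mem i (by omega)
    obtain e : k.nx i = k.nx x := le_antisymm (p3 _ n1 x2) (n3 _ p1 (by omega))
    obtain eσ : k.σ i = k.σ x := by unfold Sk.σ; rw [e]
    have g1 := (o2.om_in x hx i x1 x2).1
    have q1 := (o1.η_mem x hx).1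
    have q2 := o1.w_pos x (o1.F_mem _ (o1.D_mem x hx).1).1
    obtain q3 : 0 < k.om i :=
      (mul_pos_iff_of_pos_left (exp_pos _)).1 (lt_of_lt_of_le (by (clear * - q2 q1; positivity)) g1)
    obtain g2 := hd x hx (by omega) 6 le_rfl
    obtain g3 : exp (k.σ i) * (exp (4 * k.σ i) / k.om i) ≤ exp (6 * k.σ x) * k.V x 1 := by
      unfold Sk.V
      rw [eσ, ← mul_div_assoc, ← exp_add, mul_one_div, div_le_div_iff₀ q3 (by positivity), pow_one,
        show 6 * k.σ x = k.σ x + 4 * k.σ x + k.σ x by ring, exp_add _ (k.σ x), mul_assoc,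
        mul_comm (k.η x)]
      gcongr
    linarith only [hd0, han, hE, g2, g3]

/-- the abstract statement -/
theorem main (hb : Big c) (hk : k.OK c) (hT : TA_s c) {S : Sq}
    (hsl : ∀ i, k.sl i ≤ c.ths * k.W i + 10 * c.lam)
    (hE : ∀ m ∈ k.F, ∀ i j, 1 ≤ i → i < j → j ≤ m → |S.fr (i + 1) j| ≤ k.E m i * k.w j)
    (f1 : ∀ i, 1 ≤ i → |S.fr 1 i| ≤ k.w i) (f2 : ∀ m ∈ k.F, k.w m = |S.fr 1 m|)
    (hB : ∀ l, 1 ≤ l → |S.b l| ≤ k.B l)
    (hs : ∀ m ∈ k.F, c.C0 * k.W m ≤ c.bl → ∀ j, 1 ≤ j → j ≤ m →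
      ∑ i ∈ Ico 1 j, |S.fr (i + 1) j| ≤ exp (-c.lam / 3) * k.w j)
    {j : ℤ} (h1 : 1 ≤ j) (h2 : j ≤ k.N) :
    ∑ i ∈ Ico 1 j, |S.fr (i + 1) j| ≤ (1 / 10000 + k.d8 j) * k.w j := by
  classical
  have o1 := hk.1
  have o2 := hk.2
  have hl := hb.lam
  have hd0 : 0 ≤ k.d8 j := (le_fold_max _).2 (Or.inl le_rfl)
  have wj := o1.w_pos j h1
  obtain e1 : exp (-c.lam / 3) ≤ 1 / 100000 := by
    obtain k1 := pow_div_factorial_le_exp (c.lam / 3) (by linarith only [hl]) 5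
    obtain k2 : (33 : ℝ) ^ 5 ≤ (c.lam / 3) ^ 5 := by gcongr; linarith only [hl]
    rw [neg_div, exp_neg, ← one_div]
    refine one_div_le_one_div_of_le (by norm_num) (le_trans ?_ k1)
    norm_num [Nat.factorial] at k2 ⊢; linarith only [k2]
  obtain e2 : exp (-c.lam) ≤ exp (-c.lam / 3) := exp_le_exp.2 (by linarith only [hl])
  obtain ⟨m0, hy, hy'⟩ := exists_max_image (k.F.filter fun y => c.C0 * k.W y ≤ c.bl) id
    ⟨1, mem_filter.2 ⟨o1.one, by
      rw [o1.W1, mul_zero]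
      obtain this : 2 ≤ c.ck := by unfold Cs.ck; linarith only [hb.κ0]
      obtain this : 0 ≤ c.β := by nlinarith only [this, hb.β, hb.C0]
      exact mul_nonneg this (by linarith only [hl])⟩⟩
  obtain ⟨h0, hlow⟩ := mem_filter.1 hy
  obtain hmax : ∀ y ∈ k.F, m0 < y → c.bl < c.C0 * k.W y := fun y yF lt => by
    by_contra h
    have := hy' y (mem_filter.2 ⟨yF, not_lt.1 h⟩)
    simp only [id] at this; omega
  by_cases hjm : j ≤ m0
  · exact (hs m0 h0 hlow j h1 hjm).trans (by gcongr; linarith only [hd0, e1])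
  have hlt : m0 < j := not_le.1 hjm
  have m01 := (o1.F_mem _ h0).1
  obtain ⟨n1, n2, n3⟩ := o1.nx_mem (j - 1) (by omega)
  set m := k.nx (j - 1)
  obtain hj : ∀ x ∈ k.F, x < m → x < j := fun x xF xm => by
    by_contra h
    obtain this := n3 x xF (by omega); omega
  obtain ⟨-, -, -, -, -, -, tt, -⟩ := hT k hk
  set T := exp (-c.lam) + k.d8 j / 10 with hTd
  obtain T0 : 0 ≤ T := by positivity
  obtain key : ∀ i, m0 ≤ i → i < j → (i : ℝ) ^ 2 * |S.fr (i + 1) j| ≤ T * k.w j := by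
    intro i i1 i2
    obtain g1 := E_le hb hk hT hsl h0 hmax (o1.F_mem _ n1).2 hj i1 (show i < m by omega)
    obtain g2 := hE m n1 i j (by omega) i2 (by omega)
    obtain g3 := (tt i (by omega) (by omega)).1
    calc _ ≤ exp (k.σ i) * (k.E m i * k.w j) := by (clear * - g3 g2; gcongr)
      _ = exp (k.σ i) * k.E m i * k.w j := by ring
      _ ≤ _ := by gcongr
  obtain s2 : ∑ i ∈ Ico m0 j, |S.fr (i + 1) j| ≤ 2 * (T * k.w j) := by
    calc _ ≤ ∑ i ∈ Ico m0 j, 1 / (i : ℝ) ^ 2 * (T * k.w j) := sum_le_sum fun i hi => by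
          obtain ⟨i1, i2⟩ := mem_Ico.1 hi
          obtain this : (0 : ℝ) < i := by exact_mod_cast (by omega : 0 < i)
          rw [one_div, ← div_eq_inv_mul, le_div_iff₀' (by positivity)]
          exact key i i1 i2
      _ ≤ _ := by rw [← sum_mul]; gcongr; exact inv_sq' m01
  have w0 := o1.w_pos m0 m01
  obtain s1 : ∀ i ∈ Ico 1 m0, |S.fr (i + 1) j| * k.w m0 ≤
      k.w j * |S.fr (i + 1) m0| + 2 * k.w m0 * |S.fr (m0 + 1) j| := by
    intro i hi
    obtain ⟨i1, i2⟩ := mem_Ico.1 hi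
    obtain g1 := S.euler (ξ := S.fr 1) i2 hlt.le fun l l1 _ => S.fr_sol 1 l (by omega)
    obtain g2 : |S.Pb i m0| ≤ k.PB i m0 := by
      unfold Sq.Pb Sk.PB
      rw [abs_prod]
      exact prod_le_prod (fun _ _ => abs_nonneg _) fun l hl => hB l (by
        have := (mem_Ioc.1 hl).1; omega)
    have g3 := (o2.i2 m0 h0 i i1 i2.le).1
    obtain g4 : exp (-(99 / 100) * k.chi i m0) ≤ 1 := exp_le_one_iff.2 (by
      obtain this : 0 ≤ k.chi i m0 := sum_nonneg fun l _ => by linarith only [(o1.ch_mem l).1]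
      linarith only [this])
    obtain g5 : |S.Pb i m0| * |S.fr 1 i| ≤ 2 * k.w m0 :=
      (mul_le_mul g2 (f1 i i1) (abs_nonneg _) ((abs_nonneg _).trans g2)).trans
        (g3.trans (by nlinarith only [w0, g4]))
    have g6 := abs_sub_abs_le_abs_sub (S.fr (i + 1) j * S.fr 1 m0) (S.fr 1 j * S.fr (i + 1) m0)
    rw [g1, abs_mul, abs_mul, ← f2 m0 h0] at g6
    have g7 := mul_le_mul_of_nonneg_right (f1 j h1) (abs_nonneg (S.fr (i + 1) m0))
    have g8 := mul_le_mul_of_nonneg_right g5 (abs_nonneg (S.fr (m0 + 1) j))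
    linarith only [g6, g7, g8]
  have s3 := sum_le_sum s1
  rw [← sum_mul, sum_add_distrib, ← mul_sum, sum_const, Int.card_Ico, nsmul_eq_mul] at s3
  have s4 := mul_le_mul_of_nonneg_left (hs m0 h0 hlow m0 m01 le_rfl) wj.le
  obtain s5 : (((m0 - 1).toNat : ℕ) : ℝ) ≤ (m0 : ℝ) ^ 2 := by
    obtain this : (((m0 - 1).toNat : ℕ) : ℤ) ≤ m0 ^ 2 := by
      obtain this : (((m0 - 1).toNat : ℕ) : ℤ) ≤ m0 := by omega
      nlinarith only [m01, this]
    exact_mod_cast this
  obtain s6 : (((m0 - 1).toNat : ℕ) : ℝ) * (2 * k.w m0 * |S.fr (m0 + 1) j|) ≤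
      2 * k.w m0 * (T * k.w j) := by
    calc _ ≤ (m0 : ℝ) ^ 2 * (2 * k.w m0 * |S.fr (m0 + 1) j|) := by (clear * - s5 w0; gcongr)
      _ = 2 * k.w m0 * ((m0 : ℝ) ^ 2 * |S.fr (m0 + 1) j|) := by ring
      _ ≤ _ := mul_le_mul_of_nonneg_left (key m0 le_rfl hlt) (by positivity)
  obtain s7 : ∑ i ∈ Ico 1 m0, |S.fr (i + 1) j| ≤ (exp (-c.lam / 3) + 2 * T) * k.w j :=
    le_of_mul_le_mul_right (by linarith only [s3, s4, s6]) w0
  rw [← Ico_union_Ico_eq_Ico m01 hlt.le, sum_union (Ico_disjoint_Ico_consecutive _ _ _)]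
  obtain this : exp (-c.lam / 3) + 4 * T ≤ 1 / 10000 + k.d8 j := by rw [hTd]; linarith only [hd0, e1, e2]
  nlinarith only [wj, s2, s7, hd0, e1, e2, hTd]

end D8

theorem d8 (K : ℕ) : Hier fun c => SOK_s c → B5_s c → EXT_s c → TA_s c → SK1_s K c → SK2_s K c →
    DFE_s K c → D8_s K c := D8.big.mono fun c hb hS h5 hX hT k1 k2 hE hF M hM d H j h1 h2 => by
  have hok : (d.S M).OK c :=
    ((hS M hM d.t ⟨by linarith only [H.ht.1], by linarith only [H.ht.2]⟩).2.1 d.v H.hv).2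
  have ht := H.tame _ le_rfl
  have hout : (d.S M).Out c d.ξ d.n := ⟨H.hn, H.sol, ht.1, ht.2.1⟩
  obtain ⟨-, x1, -, -, x2⟩ := hX _ _ _ _ _ _ hok hout H.run
  have hn := H.hn
  have fe : ∀ i j, (d.O M).fr i j = (d.S M).fr (i + d.n) (j + d.n) := fun i j =>
    (d.S M).fr_shift _ _ _
  have mem : ∀ m ∈ (d.sk c M).F, m + d.n ∈ frs d.Ls d.p := fun m hm => by
    obtain ⟨y, hy, rfl⟩ := mem_image.1 hm
    rwa [sub_add_cancel]
  refine D8.main hb ⟨k1 hF M hM d H, k2 hF M hM d H⟩ hT (fun i => ?_) (hE hF M hM d H)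
    (fun i hi => ?_) (fun m hm => ?_) (fun l hl => ?_) (fun m hm hW j j1 j2 => ?_) h1 h2
  · have : 0 ≤ c.ths := by have := hb.e0; unfold Cs.ths; positivity
    exact add_le_add (mul_le_mul_of_nonneg_left (min_le_left _ _) this) le_rfl
  · rw [fe, add_comm 1]
    exact (d.S M).abs_le_wh c _ (by omega)
  · rw [fe, add_comm 1]
    exact (x2 _ (mem m hm)).1.whm
  · have g1 := hok.b_lo (l + d.n) (by omega)
    have g2 := hok.b_hi (l + d.n) (2 / 100) (by omega) (by norm_num)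
    have g3 := exp_pos (-c.bl)
    exact (abs_of_nonneg (show 0 ≤ (d.S M).b (l + d.n) by linarith only [g1, g3])).trans_le g2
  · have e : ∑ i ∈ Ico 1 j, |(d.O M).fr (i + 1) j| =
        ∑ i ∈ Ico (d.n + 1) (j + d.n), |(d.S M).fr (i + 1) (j + d.n)| :=
      sum_nbij' (fun i => i + d.n) (fun i => i - d.n) (fun i hi => by
          simp only [mem_Ico] at hi ⊢; omega) (fun i hi => by simp only [mem_Ico] at hi ⊢; omega)
        (fun i _ => by simp) (fun i _ => by simp) fun i _ => by rw [fe, add_right_comm]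
    rw [e]
    rcases (x1 _ (mem m hm)).2.eq_or_lt with h | h
    · exact (h5 hF.2.1 _ (fun _ _ _ _ _ _ h => h.1) _ _ _ _ _ _ hok hout H.run H.bd).1
        (Or.inr (h ▸ hW)) _ (by omega) (by omega)
    · obtain ⟨Lm, r1, r2, -⟩ := (x2 _ (mem m hm)).2 h
      exact (h5 hF.2.1 _ (fun _ _ _ _ _ _ h => h.1) _ _ _ _ _ _ hok hout r1 r2.1).1
        (Or.inr hW) _ (by omega) (by omega)

end Pool.Agent.MP_9cbfe4_an

end

/-! ### Part D7 -/

section

/-! Row D7: lower bound for the order-one source along the true orbit. -/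

namespace Pool.Agent.MP_9cbfe4_an
open Finset

namespace D7
variable {K : ℕ} {c : Cs}

theorem Core7.fin (h : Nm K c) {M : Mdl} (hM : M.OK c) {t : ℝ} (ht : TI t) {S : Sq}
    (ho : IsOrb c M t S 0) (hS : S.OK c) {n x p q : ℤ} {r Ω : ℝ} (hn : 0 ≤ n)
    (H : Core7 K c M t S n x p q r Ω) : Real.exp (-Ω) / 4 ≤ |M.sigF t S (n + 1) x p| := by
  obtain ⟨k1, k2, -⟩ := h.b5.chK
  have hnx := H.nx
  have hxq := H.xq
  set E := EE K (S.Wp c x q) with hE
  have E0 : 0 < E := Real.exp_pos _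
  obtain E1 : Real.exp (-Ω) ≤ E := by
    have W1 : 0 ≤ S.Wp c x q := B5.WW_nonneg S _ _ _
    obtain this : 0 ≤ 1 / (2 * (K : ℝ)) * S.Wp c x q := by (clear * - W1; positivity)
    exact Real.exp_le_exp.2 (by linarith only [this, H.Wq])
  have lo := H.lo
  rcases H.qp.eq_or_lt with e | hqp
  · rw [← e]; linarith only [E0, E1, lo]
  have up : 0 < |S.fr (x + 1) p| := abs_pos.2 H.rp.ne
  have uq : 0 < |S.fr (x + 1) q| := abs_pos.2 H.rq.ne
  have tl := H.tail p hqp le_rfl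
  rw [show S.wp c x p = |S.fr (x + 1) p| from H.rp.whm] at tl
  obtain g : ∀ i, x < i → |M.gt t S i| ≤ 2 := fun i hi => gt_le h hM ht ho (by omega)
  obtain e : M.sigF t S (n + 1) x p - M.sigF t S (n + 1) x q =
      ∑ i ∈ Ico (x + 1) q, (S.fr (i + 1) p / S.fr (x + 1) p - S.fr (i + 1) q / S.fr (x + 1) q) *
        M.gt t S i + ∑ i ∈ Ico q p, S.fr (i + 1) p / S.fr (x + 1) p * M.gt t S i := by
    unfold Mdl.sigF
    rw [← Ico_add_one_left_eq_Ioo, ← Ico_add_one_left_eq_Ioo,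
      ← Ico_union_Ico_eq_Ico (show x + 1 ≤ q by omega) hqp.le,
      sum_union (Ico_disjoint_Ico_consecutive _ _ _)]
    simp only [sub_mul, sum_sub_distrib]
    ring
  have fq : |S.fr (q + 1) p| ≤ E / 10 ^ 4 * |S.fr (x + 1) p| :=
    (single_le_sum (f := fun i => |S.fr (i + 1) p|) (fun _ _ => abs_nonneg _)
      (mem_Ico.2 ⟨le_rfl, hqp⟩)).trans tl
  obtain a1 : |∑ i ∈ Ico q p, S.fr (i + 1) p / S.fr (x + 1) p * M.gt t S i| ≤ 2 * (E / 10 ^ 4) := by
    refine (abs_sum_le_sum_abs _ _).trans ((sum_le_sum (g := fun i => |S.fr (i + 1) p| *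
      (2 / |S.fr (x + 1) p|)) fun i hi => ?_).trans ?_)
    · rw [abs_mul, abs_div, div_mul_eq_mul_div, ← mul_div_assoc]
      exact div_le_div_of_nonneg_right (mul_le_mul_of_nonneg_left
        (g i (by have := (mem_Ico.1 hi).1; omega)) (abs_nonneg _)) up.le
    · rw [← sum_mul, ← mul_div_assoc, div_le_iff₀ up]; linarith only [tl]
  obtain a2 : |∑ i ∈ Ico (x + 1) q, (S.fr (i + 1) p / S.fr (x + 1) p -
      S.fr (i + 1) q / S.fr (x + 1) q) * M.gt t S i| ≤ 16 * (E / 10 ^ 4) := by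
    obtain pa := BINVd.past (by linarith only [k1]) k2 (by linarith only [h.b5.a.2]) H.rq
    refine (abs_sum_le_sum_abs _ _).trans ((sum_le_sum (g := fun i => S.PB c (2 / 100) i q *
      S.wh c (S.fr (x + 1)) (x + 1) i * (2 * (E / 10 ^ 4) / |S.fr (x + 1) q|))
        fun i hi => ?_).trans ?_)
    · obtain ⟨i1, i2⟩ := mem_Ico.1 hi
      obtain ⟨p1, p2⟩ := hS.Pb_le (θ := 2 / 100) (by norm_num) (i := i) (j := q) (by omega)
      obtain eu := S.euler (ξ := S.fr (x + 1)) i2 hqp.le fun l l1 _ => S.fr_succ (by omega)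
      rw [abs_of_pos p1] at eu
      obtain b1 : S.Pb i q * |S.fr (x + 1) i| ≤ S.PB c (2 / 100) i q * S.wh c (S.fr (x + 1)) (x + 1) i :=
        mul_le_mul p2 (S.abs_le_wh c _ (by omega)) (abs_nonneg _) (p1.le.trans p2)
      have b0 : 0 ≤ S.PB c (2 / 100) i q * S.wh c (S.fr (x + 1)) (x + 1) i :=
        (mul_nonneg p1.le (abs_nonneg _)).trans b1
      have b2 := mul_le_mul b1 fq (abs_nonneg _) b0
      rw [abs_mul, div_sub_div _ _ H.rp.ne H.rq.ne, abs_div, eu, abs_mul, div_mul_eq_mul_div,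
        ← mul_div_assoc, div_le_div_iff₀ (mul_pos up uq) uq]
      obtain b3 := mul_le_mul b2 (g i (by omega)) (abs_nonneg _) (by (clear * - b0 E0 up; positivity))
      have := mul_le_mul_of_nonneg_right b3 uq.le
      linarith only [this]
    · rw [← sum_mul, ← mul_div_assoc, div_le_iff₀ uq]
      obtain this := mul_le_mul_of_nonneg_right pa (show 0 ≤ 2 * (E / 10 ^ 4) by positivity)
      linarith only [this]
  have a3 := abs_sub_abs_le_abs_sub (M.sigF t S (n + 1) x q) (M.sigF t S (n + 1) x p)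
  rw [abs_sub_comm, e] at a3
  have a4 := a3.trans (abs_add_le _ _)
  linarith only [E0, E1, lo, a1, a2, a4]

theorem sgO_shift (M : Mdl) (t : ℝ) (S : Sq) (n x J : ℤ) :
    M.sgO t (S.shift n) x J = M.sigF t S (n + 1) (x + n) (J + n) := by
  obtain g : ∀ i, M.gt t (S.shift n) i = M.gt t S (i + n) := fun i => by
    simp only [Mdl.gt, Sq.shift, sub_add_eq_add_sub]
  obtain P : ∀ i j, (S.shift n).Pb i j = S.Pb (i + n) (j + n) := fun i j => by
    unfold Sq.Pb
    rw [← Finset.map_add_right_Ioc, prod_map]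
    rfl
  unfold Mdl.sgO Mdl.sigF
  rw [add_comm n 1, ← Finset.map_add_right_Ico, ← Finset.map_add_right_Ioo, sum_map, sum_map]
  simp only [g, P, Sq.fr_shift, addRightEmbedding_apply, add_sub_add_right_eq_sub,
    add_right_comm _ (1 : ℤ) n]

end D7

open D7 in
theorem d7 (K : ℕ) : Hier fun c => SOK_s c → B1_s c → BLK_s c → RHO_s c → EXT_s c → DS0_s c →
    D7_s K c := by
  obtain e1 := Hier.ε_le_pow (fun _ => 1 / (200 * (K + 1) ^ 2)) 3 (by norm_num)
    (fun _ _ _ _ _ _ _ _ => rfl) (.of_all fun _ => by positivity)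
  refine ((nm K).and e1).mono fun c ⟨h, _, hε⟩ hO hB hK hH hE hN hF M hM d hd x hx hη => ?_
  obtain ⟨m, hm, rfl⟩ := mem_image.1 hx
  obtain ⟨hm1, hm2, hm3⟩ : m ∈ frs d.Ls d.p ∧ m < d.p ∧
      c.am * d.cW c M ((d.S M).Wp c d.n m) + c.lam ≤ d.dp c M m := by
    simpa [Dat.mj] using hm
  obtain ht : TI d.t := ⟨by linarith only [hd.ht.1], by linarith only [hd.ht.2]⟩
  obtain ⟨hO', hS⟩ : IsOrb c M d.t (d.S M) 0 ∧ (d.S M).OK c := (hO M hM d.t ht).2.1 d.v hd.hv
  have ho : (d.S M).Out c d.ξ d.n := ⟨hd.hn, hd.sol, (hd.tame _ le_rfl).1, (hd.tame _ le_rfl).2.1⟩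
  obtain ⟨-, e0, e1, -, e2⟩ := hE _ _ _ _ _ _ hS ho hd.run
  obtain ⟨Lm, r1, r2, -, -, -, -, r3⟩ := (e2 m hm1).2 hm2
  obtain ⟨hp1, hmp, -⟩ := e1 m hm2
  obtain ⟨r', hb⟩ : ∃ r', (d.S M).Bd c d.ξ d.n (nxt d.Ls d.p m) r' := by
    rcases (e0 _ hp1).2.eq_or_lt with e | e
    · rw [e]; exact ⟨_, hd.bd⟩
    · obtain ⟨_, -, a, -⟩ := (e2 _ hp1).2 e
      exact ⟨_, a.1⟩
  obtain hl : (d.S M).load c d.n ((d.S M).Wp c d.n (nxt d.Ls d.p m)) ≤ d.ld c M :=
    (d.S M).load_mono c (by linarith only [h.b5.chK.1]) h.b5.chK.2.1 (by linarith only [h.C0]) _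
      ((WW_mono _ _ _ (e0 _ hp1).2).trans (le_max_left _ _))
  obtain hσ : (d.sk c M).σ (m - d.n) =
      c.ths * d.cW c M ((d.S M).Wp c d.n (nxt d.Ls d.p m)) + 10 * c.lam := by
    simp only [Sk.σ, Dat.sk, sub_add_cancel]
  obtain hx' : (d.sk c M).nx (m - d.n) + d.n = nxt d.Ls d.p m := by
    simp only [Dat.sk, sub_add_cancel]
  obtain hη' : (d.sk c M).η (m - d.n) =
      |(d.S M).rho ((d.S M).fr (d.n + 1)) m (nxt d.Ls d.p m)| := by
    simp only [Dat.sk, sub_add_cancel, Dat.ζ]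
  unfold D7
  rw [Dat.O, sgO_shift, hx', sub_add_cancel, one_mul]
  rw [hη'] at hη
  change _ ≤ (d.S M).dep c ((d.S M).fr (d.n + 1)) m (nxt d.Ls d.p m) at hm3
  set S := d.S M
  set p := nxt d.Ls d.p m
  set σ := (d.sk c M).σ (m - d.n)
  obtain hR : S.Run c (Ex2 K c M) (S.fr (d.n + 1)) (d.n + 1) (S.PBd c (Ex2 K c M) d.ξ d.n)
      ((m, S.dep c (S.fr (d.n + 1)) m p) :: Lm) p := by
    rcases r3 with ⟨a, b⟩ | ⟨L', r', a, -, -, -, b⟩
    · rw [a] at r2 ⊢; exact .shallow r1 b r2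
    · exact .block r1 a.1 a.2 b r2
  have n4 : _ ≤ c.ε * (d.cW c M (S.Wp c d.n m) + c.lam) := ((hN hF.2.1 _ (fun _ _ _ _ _ _ h => h.1)
    S _ _ _ hS ho).2 _ _ _ _ _ hR hb hl).2.ld
  obtain ⟨ε0, -, -⟩ := h.ε
  have lm := h.lam
  have W0 : 0 ≤ S.Wp c d.n m := B5.WW_nonneg S _ _ _
  have W1 : S.Wp c d.n m ≤ S.Wp c d.n p := WW_mono S _ _ hmp.le
  obtain u0 : 0 ≤ d.cW c M (S.Wp c d.n m) := le_min W0 (by
    obtain this := mul_nonneg (show 0 ≤ c.C1 by linarith only [h.b5.C1]) (S.load_nonneg c d.n (d.V c M))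
    have := mul_nonneg ε0.le W0
    have := h.cc.1
    unfold Dat.ld; (rename_i zq1 zq0; linarith only [zq1, zq0, this]))
  obtain u1 : d.cW c M (S.Wp c d.n m) ≤ d.cW c M (S.Wp c d.n p) :=
    min_le_min W1 (by have := mul_le_mul_of_nonneg_left W1 ε0.le; linarith only [this])
  obtain ⟨e30, e31⟩ := h.b5.e3
  obtain am0 : 0 ≤ c.am := by unfold Cs.am; (clear * - e30; positivity)
  obtain th0 : 0 ≤ c.ths ∧ c.ths ≤ 1 :=
    ⟨by unfold Cs.ths; positivity, pow_le_one₀ e30.le (by linarith only [e30, e31])⟩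
  obtain am1 : 200 * K ^ 2 * c.ε ≤ c.ths := by
    rw [div_mul_eq_mul_div, one_mul, le_div_iff₀ (by (clear * -; positivity))] at hε
    obtain this : (0 : ℝ) ≤ K * c.ε := by (rename_i zq0; clear * - zq0; positivity)
    unfold Cs.ths; (rename_i zq1 _; linarith only [zq1, hε, this])
  obtain v0 := mul_le_mul_of_nonneg_left n4 (show (0 : ℝ) ≤ 200 * K ^ 2 by (clear * -; positivity))
  obtain v1 := mul_le_mul_of_nonneg_right am1 (show 0 ≤ d.cW c M (S.Wp c d.n m) + c.lam by linarith only [lm, u0, e30, e31])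
  have v3 := mul_le_mul_of_nonneg_left u1 th0.1
  obtain v4 := mul_le_mul_of_nonneg_right th0.2 (show 0 ≤ c.lam by linarith only [lm, e30, e31])
  have v2 := mul_nonneg am0 u0
  obtain hρ : S.rho (S.fr (d.n + 1)) m p ≠ 0 := fun e => by
    rw [Sq.dep, e, abs_zero, div_zero, Real.log_zero] at hm3; linarith only [hm3, lm, e30, e31, v2]
  obtain hr : c.lam + 3 * σ ≤ S.dep c (S.fr (d.n + 1)) m p := by
    have := Real.log_le_log (abs_pos.2 hρ) hη
    rw [Real.log_exp] at this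
    rw [Sq.dep, Real.log_div h.L0.ne' (abs_pos.2 hρ).ne']
    unfold Cs.lam; linarith only [this]
  obtain ⟨q, H⟩ := core (Ω := σ - 3) h (by linarith only [hF.1.1]) hB hK hH hM ht hO' hS hd.hn hR
    (by unfold Cs.C7; linarith only [hσ, lm, e30, e31, v0, v1, v3, v4]) (by linarith only [lm, e30, e31, hr])
  refine le_trans ?_ (H.fin h hM ht hO' hS hd.hn)
  rw [neg_sub, sub_eq_add_neg, Real.exp_add]
  nlinarith only [e30, e31, Real.add_one_le_exp (3 : ℝ), Real.exp_pos (-σ)]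

end Pool.Agent.MP_9cbfe4_an

end

/-! ### Part PAR -/

section

/-! Rows RET0 and PAR. -/

namespace Pool.Agent.MP_9cbfe4_an

open Finset

theorem ret0 : Hier fun c => SOK_s c → T1_s c → RET0_s c := by
  let cv0 := (); let cv1 := (); let cv2 := (); let cv3 := ()
  have H1 := Hier.lam_ge (fun _ => 10000) fun _ _ => rfl
  have H2 := Hier.L_ge (fun _ => 4) fun _ _ => rfl
  have H3 := Hier.β_ge (fun _ => 20) fun _ _ _ => rfl
  have H4 := Hier.pow_le_exp (fun _ => 10000) (fun _ => 1) 3 (fun _ _ => rfl) (fun _ _ => rfl)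
    (Hier.of_all fun _ => one_pos)
  refine (H1.and (H2.and (H3.and H4))).mono ?_
  rintro c ⟨hl, hL, hβ, h4⟩ hS hT Ex M φ φ' s s' θ κ ℓ r hM h h' hθ hκ l0 R w w' r1 hℓ hτ
  obtain L0 : 0 < c.L := by linarith only [hL]
  obtain m0 : 0 < c.lam := by linarith only [hl]
  obtain o := B1.out_of_rinv (by linarith only [hl]) (B1.st_fr c _ (by linarith only [h.out.1])) h.rinv
  obtain o' := B1.out_of_rinv (by linarith only [hl]) (B1.st_fr c _ (by linarith only [h'.out.1])) h'.rinv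
  have ok := ((hS M hM φ.t h.ht).2.1 φ.v h.hv).2
  have hb := ok.b_hi s θ o.1 hθ
  clear_value cv3
  obtain ⟨E, hE⟩ : ∃ E, E = Real.exp (-r) := ⟨_, rfl⟩
  obtain ⟨g, hg⟩ : ∃ g, g = Real.exp (r / 100) := ⟨_, rfl⟩
  obtain ⟨i, hi⟩ : ∃ i, i = 1 / c.lam := ⟨_, rfl⟩
  have E0 : 0 < E := hE ▸ Real.exp_pos _
  obtain g1 : 1 ≤ g := hg ▸ Real.one_le_exp (by linarith only [r1])
  obtain i0 : 0 < i := by rw [hi]; positivity
  obtain i1 : i ≤ 1 / 10000 := hi ▸ one_div_le_one_div_of_le (by norm_num) hl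
  obtain Eg : E * g ≤ 1 := by rw [hE, hg, ← Real.exp_add, Real.exp_le_one_iff]; linarith only [r1, i0, i1]
  obtain ee : Real.exp r * E = 1 := by rw [hE, ← Real.exp_add, add_neg_cancel, Real.exp_zero]
  obtain l1 : ℓ ≤ 100 * E := by
    have := mul_le_mul_of_nonneg_right hℓ E0.le
    rwa [mul_assoc, ee, mul_one] at this
  obtain t1 : |φ'.t - φ.t| * g ≤ E := by
    have := mul_le_mul_of_nonneg_right hτ E0.le
    rwa [Real.exp_add, ← hg, one_mul, mul_assoc, mul_right_comm, ee, one_mul] at this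
  clear_value cv2
  obtain k1 : κ ≤ i / 4 := hκ.trans_eq (by rw [hi]; field_simp)
  obtain l2 : ℓ ^ 2 ≤ 10000 * E ^ 2 := by nlinarith only [l0, E0, l1]
  have dv (x : ℝ) : x / c.lam = x * i := by rw [hi]; ring
  set u := (φ'.S M).X s' - (φ.S M).X s with hu
  have u0 := abs_nonneg u
  obtain key := hT Ex M φ.t φ'.t hM h.ht h'.ht φ.v h.hv φ'.v h'.hv _ _ s s' r u
    (|φ'.t - φ.t| + c.L * ℓ ^ 2 * i / 2) (c.L * ℓ * i / 4) o o' r1 w w' rfl R.sm.1
    (le_add_of_nonneg_right (by (clear * - hL i0; positivity))) (by (clear * - hL l0 i0; positivity))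
    ((mul_le_mul_of_nonneg_right hb (abs_nonneg _)).trans (R.d1.trans (by
      rw [dv, ← hu, ← sq_abs u]
      have a1 := mul_le_mul_of_nonneg_right k1 (mul_nonneg L0.le (sq_nonneg (|u| + ℓ)))
      have a2 := mul_nonneg (mul_pos L0 i0).le (sq_nonneg (|u| - ℓ))
      have a3 := mul_nonneg (mul_pos L0 i0).le (sq_nonneg |u|)
      linarith only [abs_nonneg (φ'.t - φ.t), a1, a2, a3])))
    ((mul_le_mul_of_nonneg_right hb (abs_nonneg _)).trans (R.d2.trans (by
      rw [dv, ← hu]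
      have a1 := mul_le_mul_of_nonneg_right k1 (mul_nonneg L0.le (add_nonneg u0 l0))
      have a3 := mul_nonneg (mul_pos L0 i0).le u0
      linarith only [a1, a3])))
    ((le_or_gt r (c.bl / 4)).imp_right fun hr => by
      obtain a1 : c.L * (E * g) * Real.exp (1 * c.lam) ≤ 1 := by
        rw [hE, hg, ← Real.exp_log L0, ← Real.exp_add, ← Real.exp_add, ← Real.exp_add,
          Real.exp_le_one_iff]
        have : 20 * c.lam ≤ c.bl := mul_le_mul_of_nonneg_right hβ m0.le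
        change c.lam + _ + _ ≤ 0
        linarith only [hl, i0, i1, hr, this]
      obtain K0 : 0 < c.L * (E * g) := by positivity
      obtain a2 : c.L * (E * g) * 10000 ≤ i ^ 3 := by
        rw [hi, one_div_pow, le_div_iff₀ (by positivity), mul_assoc]
        exact (mul_le_mul_of_nonneg_left h4 K0.le).trans a1
      obtain a3 : i ^ 3 ≤ 1 := pow_le_one₀ i0.le (by linarith only [i0, i1])
      obtain a4 : E ≤ c.L * (E * g) := by nlinarith only [mul_le_mul_of_nonneg_left g1 E0.le, hL, E0, K0]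
      obtain E1 : E ≤ 1 := by linarith only [i0, i1, a2, a3, a4]
      obtain a5 : c.L * ℓ ^ 2 * i * g ≤ c.L * (E * g) * 10000 * (E * i) := by
        obtain this := mul_le_mul_of_nonneg_left l2 (show 0 ≤ c.L * i * g by (clear * - hL i0 g1; positivity))
        linarith only [this]
      obtain a6 := mul_le_of_le_one_right (show 0 ≤ c.L * (E * g) * 10000 by (clear * - hL E0 g1; positivity))
        (show E * i ≤ 1 by nlinarith only [E0, i0, i1, a2, a3, a4])
      obtain a7 : c.L * ℓ * i * g ≤ c.L * (E * g) * (100 * i) := by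
        obtain this := mul_le_mul_of_nonneg_left l1 (show 0 ≤ c.L * i * g by positivity)
        linarith only [this]
      obtain a8 := mul_le_of_le_one_right K0.le (show 100 * i ≤ 1 by linarith only [i0, i1])
      rw [← hg, ← one_div_pow, ← hi]
      exact ⟨by linarith only [t1, K0, a2, a4, a5, a6], by linarith only [i0, i1, a2, a3, a7, a8]⟩)
  clear_value cv1
  obtain a1 : Real.exp (r / 100 - c.bl / 4) ≤ g := by
    obtain this : 0 ≤ c.bl := mul_nonneg (by linarith only [hβ, i0, i1]) m0.le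
    rw [hg, Real.exp_le_exp]
    linarith only [this]
  obtain a2 := mul_le_mul_of_nonneg_left a1
    (show 0 ≤ |φ'.t - φ.t| + c.L * ℓ ^ 2 * i / 2 by (clear * - hL i0; positivity))
  obtain a3 : c.L * ℓ ^ 2 * i * g ≤ c.L * E * (10000 * i * (E * g)) := by
    obtain this := mul_le_mul_of_nonneg_left l2 (show 0 ≤ c.L * i * g by positivity)
    linarith only [this]
  obtain a4 := mul_le_of_le_one_right (mul_pos L0 E0).le (show 10000 * i * (E * g) ≤ 1 from
    mul_le_one₀ (by linarith only [i1]) (by positivity) Eg)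
  obtain a5 : c.L * ℓ * i ≤ c.L * E * (100 * i) := by
    have := mul_le_mul_of_nonneg_left l1 (mul_pos L0 i0).le
    linarith only [this]
  clear_value cv0
  obtain a6 := mul_le_mul_of_nonneg_left (show 100 * i ≤ 1 / 100 by linarith only [i1]) (mul_pos L0 E0).le
  have a7 := mul_le_mul_of_nonneg_right hL E0.le
  rw [← hE] at key ⊢
  refine key.trans ?_
  obtain this : 100 * (c.L * ℓ * i / 4 + (|φ'.t - φ.t| + c.L * ℓ ^ 2 * i / 2) *
      Real.exp (r / 100 - c.bl / 4)) / c.L ≤ 100 * E := by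
    rw [div_le_iff₀ L0]
    linarith only [E0, t1, a2, a3, a4, a5, a6, a7]
  linarith only [this]

namespace PAR

variable {c : Cs} {Ex : ExT} {S : Sq} {ξ : ℤ → ℝ} {n : ℤ}

/-- the last step of a bound run -/
theorem bh (hl : 10 ≤ c.lam) (hL : 1 ≤ c.L) (h1 : B1_s c) (ok : S.OK c) (o : S.Out c ξ n)
    {Ls x r p} (h : S.Run c Ex (S.fr (n + 1)) (n + 1) (S.PBd c Ex ξ n) ((x, r) :: Ls) p) :
    S.BH c Ex ξ n Ls x r p := by
  obtain ⟨b1, b2, -⟩ := h1 Ex S ok
  obtain st := B1.st_fr c S (n := n + 1) (by linarith only [o.1])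
  obtain ⟨t1, t2, -, -⟩ := Sq.Run.tail c S h
  obtain ⟨c1, c2⟩ := b1 _ _ _ _ _ st t1
  obtain ⟨c3, c4⟩ := b1 _ _ _ _ _ st h
  refine ⟨ok, o, c1, b2 _ _ _ _ _ o t1 t2.1, t2, by cases c3; assumption, c4, ?_⟩
  have o' := B1.out_of_rinv hl st c2
  cases h with
  | shallow => exact .inl rfl
  | block _ h2 h3 h4 _ =>
    exact .inr ⟨_, (b1 _ _ _ _ _ (B1.st_fr c S (by linarith only [o'.1])) h2).2,
      b2 _ _ _ _ _ o' h2 h3.1, B1.wp_le hl hL h3.1 h4⟩

/-- the sum grows by one unit in one step -/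
theorem step (hB : BLK_s c) (hl : 40 ≤ c.lam) (hL0 : 0 < c.L) (hK2 : 1 / 2 ≤ c.chK)
    (hKb : c.chK ≤ c.bl) (ha : c.a ≤ 1 / 2) (hC0 : 0 ≤ c.C0) (hC1 : 0 ≤ c.C1) {Ls m r p s j}
    (H : S.BH c Ex ξ n Ls m r p) (hs : n + 1 ≤ s) (hsm : s ≤ m) (hjm : m < j) (hjp : j ≤ p)
    {B E : ℝ} (a2 : ∑ i ∈ Ico s m, |S.fr (i + 1) m| ≤ B * S.wp c n m)
    (hE : 20 * Real.exp (4 * max r 0 + 8 * c.C1 * S.load c m (2 * r))
      ≤ E * (c.L * |S.fr (n + 1) m|)) :
    ∑ i ∈ Ico s j, |S.fr (i + 1) j| ≤ (B + E) * S.wp c n j := by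
  let cv0 := ()
  have hrm := (Sq.Chain.rinv c S H.chain).1
  have hw : 0 ≤ S.wp c n j := S.wh_nonneg c _ _ _
  obtain h3 := BINVd.inner hB hl hL0 (by linarith only [hK2]) hKb hC0 hC1 H hjm hjp
  set x := |S.fr (n + 1) m| with hx
  have hx0 : 0 < x := abs_pos.2 hrm.ne
  have hLx : 0 < c.L * x := mul_pos hL0 hx0
  set T := Real.exp (4 * max r 0 + 8 * c.C1 * S.load c m (2 * r)) with hT
  obtain hrT : Real.exp r ≤ T := by
    have a1 := mul_nonneg hC1 (S.load_nonneg c m (2 * r))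
    have a2 := le_max_left r 0
    have a3 := le_max_right r 0
    exact Real.exp_le_exp.2 (by linarith only [a1, a2, a3])
  obtain h1 : (∑ i ∈ Ico s m, |S.fr (i + 1) j|) * (c.L * x) ≤
      (B * (c.L * x) + 16 * T) * S.wp c n j := by
    have a1 : ∑ i ∈ Ico s m, |S.fr (i + 1) j| * x ≤ ∑ i ∈ Ico s m,
        (|S.fr (i + 1) m| + 2 * Real.exp r / (c.L * x) *
          (S.PB c (2 / 100) i m * S.wp c n i)) * S.wp c n j :=
      sum_le_sum fun i hi => by
        refine (H.step.ins3 i j (hs.trans (mem_Ico.1 hi).1) (mem_Ico.1 hi).2 hjm hjp).trans_eq ?_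
        unfold Sq.wp
        ring
    rw [← sum_mul, ← sum_mul, sum_add_distrib, ← mul_sum] at a1
    have a3 : S.wp c n m = x := hrm.whm
    rw [a3] at a2
    obtain hk : 0 < c.k0 * c.L + 1 := by
      obtain this := (H.ok.b_pos (j := 0) le_rfl).trans_le (H.ok.b_hi 0 (c.L + |S.X 0| + 20) le_rfl
        (by linarith only [abs_nonneg (S.X 0), hL0]))
      have p3 := Real.pi_lt_four
      have p0 := Real.pi_pos
      rwa [Sq.bb, if_pos] at this
      refine ⟨(min_le_left _ _).trans (abs_le.2 ⟨?_, ?_⟩), (min_le_left _ _).trans ?_⟩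
      · linarith only [neg_abs_le (S.X 0), hL0, p3]
      · linarith only [le_abs_self (S.X 0), hL0, p0]
      · rw [H.ok.past _ (by norm_num)]
        exact abs_le.2 ⟨by linarith only [abs_nonneg (S.X 0), hL0, p3], by linarith only [abs_nonneg (S.X 0), hL0, p0]⟩
    have a4 : ∑ i ∈ Ico s m, S.PB c (2 / 100) i m * S.wp c n i ≤ 8 * x :=
      (sum_le_sum_of_subset_of_nonneg (Ico_subset_Ico_left hs) fun i _ _ =>
        mul_nonneg (S.PB_pos c hk _ _ _).le (S.wh_nonneg c _ _ _)).trans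
        (BINVd.past hK2 hKb ha hrm)
    obtain a5 : 2 * Real.exp r / (c.L * x) *
        ∑ i ∈ Ico s m, S.PB c (2 / 100) i m * S.wp c n i ≤ 16 * T / c.L := by
      calc _ ≤ 2 * T / (c.L * x) * (8 * x) := by
            refine le_trans (mul_le_mul_of_nonneg_left a4 (by (clear * - hL0 hx0; positivity))) ?_
            (clear * - hrT hL0 hx0; gcongr)
        _ = _ := by field_simp; ring
    have a6 := a1.trans (mul_le_mul_of_nonneg_right (add_le_add a2 a5) hw)
    calc _ = c.L * ((∑ i ∈ Ico s m, |S.fr (i + 1) j|) * x) := by ring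
      _ ≤ c.L * ((B * x + 16 * T / c.L) * S.wp c n j) := mul_le_mul_of_nonneg_left a6 hL0.le
      _ = _ := by field_simp
  clear_value cv0
  obtain h2 : |S.fr (m + 1) j| * (c.L * x) ≤ 2 * T * S.wp c n j := by
    have a1 := H.step.ins1 j hjm hjp
    have a2 := mul_le_mul_of_nonneg_right hrT hw
    calc _ = |S.fr (m + 1) j| * c.L * x := by ring
      _ ≤ 2 * Real.exp r * S.wp c n j := a1
      _ ≤ _ := by linarith only [a2]
  have h4 := mul_le_mul_of_nonneg_right hE hw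
  refine le_of_mul_le_mul_right ?_ hLx
  rw [← Finset.Ico_union_Ico_eq_Ico hsm hjm.le,
    sum_union (Finset.Ico_disjoint_Ico_consecutive _ _ _),
    ← Finset.insert_Ico_add_one_left_eq_Ico hjm, sum_insert (by simp)]
  linarith only [h3, h1, h2, h4]

end PAR

open PAR in
theorem par : Hier fun c => B1_s c → BLK_s c → PAR_s c := by
  let cv0 := (); let cv1 := (); let cv2 := (); let cv3 := ()
  have H1 := Hier.lam_ge (fun _ => 100) fun _ _ => rfl
  have H2 := Hier.L_ge (fun _ => 200) fun _ _ => rfl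
  have H3 := Hier.e3_le (fun _ => 1) (fun _ _ _ _ _ _ _ _ => rfl) (Hier.of_all fun _ => one_pos)
  obtain H4 := Hier.ε_le_pow (fun _ => 1) 0 (by norm_num) (fun _ _ _ _ _ _ _ _ => rfl)
    (Hier.of_all fun _ => one_pos)
  have H5 := Hier.C0_ge fun _ _ _ _ => 0
  have H6 := Hier.C1_ge fun _ _ _ _ _ => 0
  have H7 := Hier.β_ge (fun _ => 1) fun _ _ _ => rfl
  have H8 := Hier.lam_ge (fun c => c.chK) fun _ _ => rfl
  have H9 := Hier.lam_ge (fun c => 2 * c.C1 * c.CN / c.ε') fun _ _ => rfl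
  obtain H10 := Hier.a_le (fun _ => 1 / 2) (fun _ _ _ _ _ _ => rfl)
    (Hier.of_all fun _ => by norm_num)
  have H11 := Hier.L_ge (fun c => 5 / (c.ε' * c.ε)) fun _ _ => rfl
  clear_value cv3
  refine (H1.and (H2.and (H3.and (H4.and (H5.and (H6.and (H7.and (H8.and (H9.and
    (H10.and (H11.and Hier.base))))))))))).mono ?_
  rintro c ⟨hl, hL, ⟨he, -⟩, ⟨hε, -⟩, hC0, hC1, hβ, hK, hN, ⟨a0, ha⟩, hL', hk0, hk1, -⟩ h1 hB
    Ex S ξ n Ls m r s ok o run bd hs
  obtain hL0 : 0 < c.L := by linarith only [hL, a0, ha]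
  obtain l0 : 0 < c.lam := by linarith only [hl, a0, ha]
  obtain hK2 : 1 / 2 ≤ c.chK := by
    unfold Cs.chK
    obtain h2 : (2 : ℝ) ≤ 1 / c.k0 := by
      rw [le_div_iff₀ (by linarith only [a0, ha, hk0])]
      linarith only [hk1]
    linarith only [Real.log_le_log (by norm_num) h2, Real.log_two_gt_d9, a0, ha]
  obtain hKb : c.chK ≤ c.bl := by
    unfold Cs.bl
    nlinarith only [hl, hβ, hK]
  clear_value cv2
  have e0 : 0 < c.ε' := pow_pos he 4
  obtain hQ : 0 ≤ c.Q := mul_nonneg a0.le (by linarith only [a0, ha, hK2, hKb])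
  obtain hc0 : 0 ≤ c.cc := by unfold Cs.cc; positivity
  have W0 (i) : 0 ≤ S.Wp c n i := Real.log_nonneg (S.one_le_AA c _ _ _)
  have Wm {i j} (h : i ≤ j) : S.Wp c n i ≤ S.Wp c n j :=
    Real.log_le_log (one_pos.trans_le (S.one_le_AA c _ _ _)) (S.AA_mono c _ _ h)
  have xm {i j} (h : i ≤ j) : S.xp c n i ≤ S.xp c n j := by
    obtain a1 := mul_le_mul_of_nonneg_left (S.load_mono c (by linarith only [a0, ha, hK2]) hKb hC0 n (Wm h)) hC1
    have a2 := mul_le_mul_of_nonneg_left (Wm h) hε.le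
    unfold Sq.xp Sq.xx
    linarith only [a1, a2]
  have x0 (i) : c.ε * S.Wp c n i ≤ S.xp c n i := by
    have := mul_nonneg hC1 (S.load_nonneg c n (S.Wp c n i))
    unfold Sq.xp Sq.xx
    linarith only [hc0, this]
  clear_value cv1
  have bi := (h1 Ex S ok).2.1 _ _ _ _ _ o run bd
  obtain ⟨E, hE⟩ : ∃ E, E = 20 / c.L * Real.exp
    (4 * (S.Wp c n m - S.Wp c n s) - S.Wp c n s + 60 * c.ε' * S.xp c n m) := ⟨_, rfl⟩
  obtain E0 : 0 < E := by rw [hE]; positivity
  have key (L : List (ℤ × ℝ)) : ∀ p, p ≤ m → (∀ x ∈ L, x ∈ Ls) →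
      S.Run c Ex (S.fr (n + 1)) (n + 1) (S.PBd c Ex ξ n) L p → (s = p ∨ ∃ x ∈ L, x.1 = s) →
      n + 1 ≤ s ∧ s ≤ p ∧ ∀ j, s ≤ j → j ≤ p →
        ∑ i ∈ Ico s j, |S.fr (i + 1) j| ≤ L.length * E * S.wp c n j := by
    have triv (L : List (ℤ × ℝ)) (j) (h : j ≤ s) :
        ∑ i ∈ Ico s j, |S.fr (i + 1) j| ≤ L.length * E * S.wp c n j := by
      rw [Ico_eq_empty_of_le h, sum_empty]
      exact mul_nonneg (by (clear * - E0; positivity)) (S.wh_nonneg c _ _ _)
    induction L with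
    | nil =>
      intro p _ _ h hs
      obtain rfl : s = p := hs.resolve_right (by simp)
      exact ⟨Sq.Run.le c S h, le_rfl, fun j _ h => triv _ j h⟩
    | cons y L ih =>
      obtain ⟨x, r⟩ := y
      intro p hp hL h hs
      rcases hs with rfl | hs
      · exact ⟨Sq.Run.le c S h, le_rfl, fun j _ h => triv _ j h⟩
      obtain H := bh (by linarith only [hl, a0, ha]) (by linarith) h1 ok o h
      have xp := H.step.lt
      obtain ⟨i1, i2, i3⟩ := ih x (by omega) (fun y hy => hL y (List.mem_cons_of_mem _ hy))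
        (Sq.Run.tail c S h).1 (by
          obtain ⟨y, hy, rfl⟩ := hs
          rcases List.mem_cons.1 hy with rfl | hy
          exacts [.inl rfl, .inr ⟨y, hy, rfl⟩])
      refine ⟨i1, by omega, fun j h2 h3 => ?_⟩
      rw [List.length_cons, Nat.cast_succ, add_one_mul]
      rcases le_or_gt j x with hj | hj
      · exact (i3 j h2 hj).trans (mul_le_mul_of_nonneg_right (by linarith only [E0]) (S.wh_nonneg c _ _ _))
      refine step hB (by linarith only [hl, a0, ha]) hL0 hK2 hKb ha hC0 hC1 H i1 i2 hj h3 (i3 x i2 le_rfl) ?_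
      have hx : 0 < |S.fr (n + 1) x| := abs_pos.2 (Sq.Chain.rinv c S H.chain).1.ne
      have X0 : 0 ≤ S.xp c n m := (mul_nonneg hε.le (W0 m)).trans (x0 m)
      obtain a1 : S.Wp c n x - Real.log |S.fr (n + 1) x| ≤ 11 * c.ε' * S.xp c n m :=
        ((le_max_left _ _).trans H.binv.sg_le).trans
          (mul_le_mul_of_nonneg_left (xm (by omega)) (by positivity))
      have a2 : Real.log |S.fr (n + 1) x| + r ≤ S.Wp c n m := H.step.A_lo.trans (Wm hp)
      obtain a3 : c.lam * S.load c x (2 * r) ≤ c.CN * S.xp c n m :=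
        (mul_le_mul_of_nonneg_left (((bi.loads _ (hL _ List.mem_cons_self)).trans
          (S.qu_le_NK hQ _ _)).trans (S.NK_mono le_rfl (by omega))) l0.le).trans bi.nk
      obtain a4 : 8 * c.C1 * S.load c x (2 * r) ≤ 4 * c.ε' * S.xp c n m := by
        rw [div_le_iff₀ e0] at hN
        have b1 := mul_le_mul_of_nonneg_left a3 hC1
        have b2 := mul_le_mul_of_nonneg_right hN X0
        refine le_of_mul_le_mul_left ?_ l0
        linarith only [b1, b2]
      have a5 := Wm i2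
      obtain a6 := Wm (show s ≤ m by omega)
      have a7 := mul_nonneg e0.le X0
      rw [hE, mul_mul_mul_comm, div_mul_cancel₀ _ hL0.ne', ← Real.exp_log hx, ← Real.exp_add]
      refine mul_le_mul_of_nonneg_left (Real.exp_le_exp.2 ?_) (by norm_num)
      rcases le_total r 0 with r0 | r0
      · rw [max_eq_right r0]; linarith only [a1, a4, a5, a6, a7]
      · rw [max_eq_left r0]; linarith only [a1, a2, a4, a5, a7]
  intro j h2 h3
  clear_value cv0
  refine ((key Ls m le_rfl (fun _ h => h) run (.inr hs)).2.2 j h2.le h3).trans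
    (mul_le_mul_of_nonneg_right ?_ (S.wh_nonneg c _ _ _))
  obtain a1 : Ls.length * (20 / c.L) ≤ Real.exp (40 * c.ε' * S.xp c n m) := by
    rw [div_le_iff₀ (by (clear * - e0 hε; positivity))] at hL'
    have b1 := mul_le_mul_of_nonneg_left (x0 m) e0.le
    have b2 := mul_le_mul_of_nonneg_right hL' (W0 m)
    obtain b3 : (Ls.length : ℝ) ≤ 10 * S.Wp c n m + 10 := by
      refine bi.len.trans ?_
      rw [div_le_iff₀ l0]
      nlinarith only [W0 m, hl]
    refine le_trans ?_ (Real.add_one_le_exp _)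
    rw [← mul_div_assoc, div_le_iff₀ hL0]
    linarith only [mul_le_mul_of_nonneg_left b1 hL0.le, hL, b2, b3]
  rw [hE, ← mul_assoc]
  refine (mul_le_mul_of_nonneg_right a1 (Real.exp_pos _).le).trans_eq ?_
  rw [← Real.exp_add]
  congr 1
  ring

end Pool.Agent.MP_9cbfe4_an

end
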