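import Pool.Agent.MP_9cbfe4_an.M03
import Pool.Agent.MP_9cbfe4_an.M06
import Pool.Agent.MP_9cbfe4_an.M10
import Pool.Agent.MP_9cbfe4_an.M13

set_option linter.all false

attribute [-instance] AddQuantale.instAddLeftMono IdemSemiring.toCanonicallyOrderedAdd
  NumberField.to_charZero AddQuantale.instAddRightMono IdemSemiring.toMulLeftMono RKHS.instFunLike
  Quantale.instMulRightMono Quantale.instMulLeftMono IsOrderedCancelMonoid.toIsOrderedMonoid
  LinearOrderedCommMonoidWithZero.toPosMulStrictMono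
  Group.IsPerfect.subsingleton_of_isMulCommutative CanonicallyOrderedAdd.toMulLeftMono
  Valued.toUniformSpace IdemSemiring.toMulRightMono TotallySeparatedSpace.t2Space
  LinearOrderedCommMonoidWithZero.toIsOrderedMonoid IsScalarTower.complexToReal
  Order.Coframe.toCompleteLattice OmegaCompletePartialOrder.toPartialOrder Invertible.toNeZero
  GrpTypeEquivalenceGrp.grpGroup littleWedderburn CanonicallyOrderedMul.toMulLeftMono
  CoalgHomClass.toSemilinearMapClass TestFunctionClass.toDFunLike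
  ContDiffMapSupportedInClass.toDFunLike Order.Frame.toCompleteLattice RightPreLieAlgebra.toModule
  CategoryTheory.Limits.Concrete.instUniqueToTypeTerminal LeftPreLieAlgebra.toModule
  CStarAlgebra.instOrderClosedTopology IdemSemiring.toSemiring
  LieAdmissibleRing.toNonUnitalNonAssocRing NonUnitalAlgSemiHomClass.toDistribMulActionSemiHomClass
  CStarAlgebra.toNormedRing

/-! ### Part ELOC -/

section

/-! Row ELOC: one event localises the parameter. -/

namespace Pool.Agent.MP_9cbfe4_an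

namespace ELOC

structure Big (c : Cs) : Prop where
  e0 : 0 < c.e3
  e1 : c.e3 ≤ 1 / 100
  lam : 100 ≤ c.lam
  L1 : 1 ≤ c.L
  β : 100 ≤ c.β
  cc : 10 ≤ c.cc

theorem big : Hier Big := by
  obtain he : Hier fun c => 0 < c.e3 ∧ c.e3 ≤ 1 / 100 :=
    Hier.e3_le (fun _ => 1 / 100) (fun _ _ _ _ _ _ _ _ => rfl) (Hier.of_all fun _ => by norm_num)
  refine (he.and (Hier.ε_eq.and ((Hier.lam_ge (fun _ => 100) fun _ _ => rfl).and
    ((Hier.L_ge (fun _ => 1) fun _ _ => rfl).and ((Hier.β_ge (fun _ => 100) fun _ _ _ => rfl).and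
    (Hier.lam_ge (fun c => 200 / c.ε) fun _ _ => rfl)))))).mono ?_
  rintro c ⟨⟨h1, h2⟩, h3, h4, h5, h6, h7⟩
  refine ⟨h1, h2, h4, h5, h6, ?_⟩
  obtain hε : 0 < c.ε := by rw [h3]; positivity
  rw [div_le_iff₀ hε] at h7
  unfold Cs.cc; linarith only [h7]

theorem abs_le_two {x : ℝ} (h : dP x < 5 / 100) : |x| ≤ 2 := by
  have h1 := Real.pi_lt_d2
  have h2 := Real.pi_pos
  unfold dP at h
  rcases min_lt_iff.1 h with h | h <;> rw [abs_lt] at h <;> rw [abs_le] <;>
    constructor <;> linarith only [h2, h1, h.1, h.2]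

theorem exp_ten : (10000 : ℝ) ≤ Real.exp 10 := by
  have := Real.exp_one_gt_d9
  obtain e : Real.exp 10 = Real.exp 1 ^ 10 := by rw [← Real.exp_nat_mul]; norm_num
  rw [e]
  calc (10000 : ℝ) ≤ (27 / 10) ^ 10 := by norm_num
    _ ≤ _ := by gcongr; linarith only [this]

/-- the side condition of `T1_s` at large depth -/
theorem side {lam r ρ τ g w E : ℝ} (hl : 100 ≤ lam) (hr : 25 * lam ≤ r) (hρ : ρ ≤ r)
    (hτ : τ ≤ Real.exp (lam - r)) (hg0 : 0 ≤ g) (hw : 0 < w) (hg : g * w ≤ Real.exp (-r))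
    (hw' : Real.exp (-(r / 100)) ≤ w) (hE : E ≤ 1 / 1000) :
    (τ + E * (g + 9 * Real.exp lam * (g * w) ^ 2)) * Real.exp (ρ / 100) ≤ 1 / lam ^ 3 ∧
    3 * E * Real.exp lam * (g * w) * Real.exp (ρ / 100) ≤ 1 := by
  obtain hX : Real.exp (ρ / 100) ≤ Real.exp (r / 100) := Real.exp_le_exp.2 (by linarith only [hρ])
  have hX0 := Real.exp_pos (ρ / 100)
  obtain hD : ∀ y, y + r / 100 ≤ -(12 * lam) →
      Real.exp y * Real.exp (ρ / 100) ≤ Real.exp (-(12 * lam)) := fun y hy => by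
    rw [← Real.exp_add]; exact Real.exp_le_exp.2 (by linarith only [hρ, hy])
  obtain hgw : 0 ≤ g * w := by positivity
  obtain h1 : τ * Real.exp (ρ / 100) ≤ Real.exp (-(12 * lam)) :=
    (mul_le_mul_of_nonneg_right hτ hX0.le).trans (hD _ (by linarith only [hl, hr]))
  obtain h2 : g ≤ Real.exp (r / 100 - r) := by
    obtain k1 : g * Real.exp (-(r / 100)) ≤ Real.exp (r / 100 - r) * Real.exp (-(r / 100)) := by
      rw [← Real.exp_add]
      calc _ ≤ g * w := by gcongr
        _ ≤ _ := hg.trans (Real.exp_le_exp.2 (by linarith only []))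
    exact le_of_mul_le_mul_right k1 (Real.exp_pos _)
  obtain h3 : g * Real.exp (ρ / 100) ≤ Real.exp (-(12 * lam)) :=
    (mul_le_mul_of_nonneg_right h2 hX0.le).trans (hD _ (by linarith only [hl, hr]))
  obtain h4 : Real.exp lam * (g * w) * Real.exp (ρ / 100) ≤ Real.exp (-(12 * lam)) := by
    refine le_trans ?_ (hD (lam + -r) (by linarith only [hl, hr]))
    rw [Real.exp_add]; (clear * - hg; gcongr)
  obtain h5 : g * w ≤ 1 := hg.trans (Real.exp_le_one_iff.2 (by linarith only [hl, hr]))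
  obtain h6 : Real.exp lam * (g * w) ^ 2 * Real.exp (ρ / 100) ≤ Real.exp (-(12 * lam)) := by
    refine le_trans ?_ h4
    gcongr; nlinarith only [hgw, h5]
  obtain h7 : Real.exp (-(12 * lam)) ≤ 1 / (288 * lam ^ 3) := by
    obtain k := Real.pow_div_factorial_le_exp (12 * lam) (by linarith only [hl]) 3
    rw [Real.exp_neg, ← one_div]
    refine one_div_le_one_div_of_le (by positivity) (le_trans (le_of_eq ?_) k)
    norm_num [Nat.factorial]; ring
  obtain h8 : 1 / (288 * lam ^ 3) = 1 / 288 * (1 / lam ^ 3) := by field_simp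
  obtain h9 : 1 / lam ^ 3 ≤ 1 := by
    rw [div_le_one (by positivity)]; exact one_le_pow₀ (by linarith only [hl])
  obtain h10 : 0 < 1 / lam ^ 3 := by positivity
  set D := Real.exp (-(12 * lam))
  have hD0 : 0 < D := Real.exp_pos _
  constructor
  · obtain this : E * (g * Real.exp (ρ / 100) + 9 * (Real.exp lam * (g * w) ^ 2 * Real.exp (ρ / 100))) ≤
        1 / 1000 * (D + 9 * D) := by gcongr
    linarith only [h8, h1, h7, hD0, this]
  · obtain this : E * (Real.exp lam * (g * w) * Real.exp (ρ / 100)) ≤ 1 / 1000 * D := by (clear * - hE h4 hg0 hw; gcongr)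
    linarith only [h8, h9, h7, this]

theorem fin {L τ g w E H D : ℝ} (hL : 0 < L) (hτ0 : 0 ≤ τ) (hg0 : 0 ≤ g) (hw : 0 < w)
    (hE0 : 0 ≤ E) (hE2 : E ≤ 1 / 1000) (hH : 10000 * H ≤ L * w) (g1 : g * w ≤ D)
    (g2 : g * w * H ≤ 1) :
    100 * (3 * E * L * (g * w) + (τ + E * (g + 9 * L * (g * w) ^ 2)) * H) / L ≤
      2 * D + τ * w / 100 := by
  rw [div_le_iff₀ hL]
  obtain hD : 0 ≤ D := le_trans (by positivity) g1
  obtain k1 : E * (L * (g * w)) ≤ 1 / 1000 * (L * D) := by gcongr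
  obtain k2 : τ * (10000 * H) ≤ τ * (L * w) := by gcongr
  obtain k3 : E * (g * (10000 * H)) ≤ E * (g * (L * w)) := by gcongr
  obtain k4 : E * (L * (g * w)) * (g * w * H) ≤ E * (L * (g * w)) * 1 := by gcongr
  obtain k5 : 0 ≤ L * D := by positivity
  linarith only [k1, k2, k3, k4, k5]

theorem sq_le {τ g w u : ℝ} (hτ0 : 0 ≤ τ) (hg0 : 0 ≤ g) (hw : 0 < w) (hu : 0 ≤ u)
    (p1 : τ * w ≤ u + (τ / 100 + g) * w) :
    (τ + g) * w ≤ 3 * u + 3 * (g * w) ∧ ((τ + g) * w) ^ 2 ≤ 3 * u ^ 2 + 9 * (g * w) ^ 2 := by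
  obtain h0 : 0 ≤ g * w := by positivity
  obtain q3 : (τ + g) * w ≤ 102 / 100 * u + 203 / 100 * (g * w) := by linarith only [hu, p1, h0]
  refine ⟨by linarith only [hu, p1, h0], ?_⟩
  obtain k : ((τ + g) * w) ^ 2 ≤ (102 / 100 * u + 203 / 100 * (g * w)) ^ 2 := by gcongr
  linarith only [k, sq_nonneg (102 / 100 * u - 203 / 100 * (g * w)), sq_nonneg u, sq_nonneg (g * w)]

/-- an R-event, real numbers only -/
theorem rk {lam L bl r ρ τ g w u A B W0 cw : ℝ} (hl : 100 ≤ lam) (heL : Real.exp lam = L)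
    (hbl : 100 * lam ≤ bl) (hr : 10 ≤ r) (h1 : ρ ≤ r) (hτ0 : 0 ≤ τ) (hg0 : 0 ≤ g)
    (hw : 0 < w) (hu : 0 ≤ u) (hcw : cw ≤ 1 / 10000) (hR : τ ≤ cw * Real.exp (-W0))
    (hgw : g * w ≤ Real.exp (-r)) (p1 : τ * w ≤ u + (τ / 100 + g) * w)
    (p2 : u ≤ τ * w + (τ / 100 + g) * w) (hW0 : -(r / 100) ≤ Real.log w) (hW1 : Real.log w ≤ W0)
    (hW2 : W0 ≤ Real.log w + r / 100) (k5 : r ≤ bl / 4 ∨ r ≤ W0 + lam)
    (d1 : A ≤ Real.exp (-bl / 4) * (τ + g + L * ((τ + g) * w) ^ 2))
    (d2 : B ≤ Real.exp (-bl / 4) * L * ((τ + g) * w))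
    (hT : ∀ y0 y2, u ≤ 1 / 1000 → τ ≤ y0 → 0 ≤ y2 → A ≤ L * u ^ 2 / lam + y0 →
      B ≤ L * u / lam + y2 →
      (ρ ≤ bl / 4 ∨ (y0 * Real.exp (ρ / 100) ≤ 1 / lam ^ 3 ∧ y2 * Real.exp (ρ / 100) ≤ 1)) →
      u ≤ 100 * Real.exp (-ρ) + 100 * (y2 + y0 * Real.exp (ρ / 100 - bl / 4)) / L) :
    τ * w ≤ 1000 * Real.exp (-ρ) := by
  have hL : 0 < L := heL ▸ Real.exp_pos _
  have hlw : Real.exp (Real.log w) = w := Real.exp_log hw
  have hE0 := Real.exp_pos (-bl / 4)
  obtain hE1 : Real.exp (-bl / 4) * (25 * lam) ≤ 1 := by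
    have k1 := Real.add_one_le_exp (bl / 4)
    obtain k2 : Real.exp (-bl / 4) * Real.exp (bl / 4) = 1 := by rw [← Real.exp_add]; simp [neg_div]
    exact le_trans (mul_le_mul_of_nonneg_left (by linarith only [hbl, k1]) hE0.le) k2.le
  generalize Real.exp (-bl / 4) = E at *
  obtain hE2 : E ≤ 1 / 1000 := by nlinarith only [hE0, hE1, hl]
  obtain hE3 : 3 * E ≤ 1 / lam := by rw [le_div_iff₀ (by linarith only [hl, hE0, hE2])]; linarith only [hE0, hE1, hE2]
  obtain hgw0 : 0 ≤ g * w := by positivity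
  obtain hR' : τ ≤ 1 / 10000 * Real.exp (-W0) := hR.trans (by gcongr)
  obtain q1 : τ * w ≤ 1 / 10000 := by
    obtain k : Real.exp (-W0) * w ≤ 1 := by
      rw [← hlw, ← Real.exp_add]; exact Real.exp_le_one_iff.2 (by linarith only [hW1])
    obtain this : τ * w ≤ 1 / 10000 * Real.exp (-W0) * w := by (clear * - hR' hw; gcongr)
    linarith only [k, this]
  obtain q2 : g * w ≤ 1 / 10000 := by
    refine hgw.trans ((Real.exp_le_exp.2 (show -r ≤ -10 by linarith only [hr])).trans ?_)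
    rw [Real.exp_neg, ← one_div]
    exact one_div_le_one_div_of_le (by norm_num) exp_ten
  obtain ⟨q3, q4⟩ := sq_le hτ0 hg0 hw hu p1
  have key := hT (τ + E * (g + 9 * L * (g * w) ^ 2)) (3 * E * L * (g * w)) (by linarith only [p2, hE0, hE2, q1, q2])
    (le_add_of_nonneg_right (by (clear * - hE0 hg0 hL; positivity))) (by (clear * - hE0 hL hg0 hw; positivity))
    (d1.trans (by
      obtain k1 : E * (L * ((τ + g) * w) ^ 2) ≤ E * (L * (3 * u ^ 2 + 9 * (g * w) ^ 2)) := by gcongr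
      obtain k2 : 3 * E * (L * u ^ 2) ≤ 1 / lam * (L * u ^ 2) := by gcongr
      obtain k3 : E * τ ≤ 1 * τ := by gcongr; linarith only [hE0, hE2]
      obtain e : L * u ^ 2 / lam = 1 / lam * (L * u ^ 2) := by ring
      rw [e]; linarith only [k1, k2, k3]))
    (d2.trans (by
      obtain k1 : E * L * ((τ + g) * w) ≤ E * L * (3 * u + 3 * (g * w)) := by (clear * - q3 hE0 hL; gcongr)
      obtain k2 : 3 * E * (L * u) ≤ 1 / lam * (L * u) := by (clear * - hE3 hL hu; gcongr)
      obtain e : L * u / lam = 1 / lam * (L * u) := by ring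
      rw [e]; linarith only [k1, k2]))
    (by
      by_cases h : ρ ≤ bl / 4
      · exact Or.inl h
      · right
        obtain k6 : r ≤ W0 + lam := k5.resolve_left fun k => h (by linarith only [h1, h, k])
        rw [← heL]
        refine side (r := r) hl (by linarith only [hbl, h1, h]) h1 (hR'.trans ?_) hg0 hw hgw ?_ hE2
        · obtain this := Real.exp_le_exp.2 (show -W0 ≤ lam - r by linarith only [k6])
          linarith only [hτ0, hR', this, Real.exp_pos (-W0)]
        · rw [← hlw]; exact Real.exp_le_exp.2 hW0)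
  obtain hH : 10000 * Real.exp (ρ / 100 - bl / 4) ≤ L * w := by
    obtain k : 10 + (ρ / 100 - bl / 4) ≤ lam + Real.log w := by
      rcases k5 with k | k <;> linarith only [hl, hbl, h1, hW0, hE0, hE2, k, hW2]
    have k' := Real.exp_le_exp.2 k
    rw [Real.exp_add, Real.exp_add, heL, hlw] at k'
    exact le_trans (by gcongr; exact exp_ten) k'
  obtain g1 : g * w ≤ Real.exp (-ρ) := hgw.trans (Real.exp_le_exp.2 (by linarith only [h1]))
  obtain g2 : g * w * Real.exp (ρ / 100 - bl / 4) ≤ 1 := by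
    calc _ ≤ Real.exp (-r) * Real.exp (ρ / 100 - bl / 4) := by gcongr
      _ ≤ 1 := by rw [← Real.exp_add]; exact Real.exp_le_one_iff.2 (by linarith only [hl, hbl, hr, h1, hE0, hE2])
  have g3 := fin hL hτ0 hg0 hw hE0.le hE2 hH g1 g2
  linarith only [p1, hgw0, key, g1, g3, Real.exp_pos (-ρ)]

theorem main {c : Cs} (hb : Big c) (hT : T1_s c) : ELOC_s c := by
  intro Ex M z z' x x' hM ht ht' hv hv' hE hE' hx hs hev hev' ⟨g, hg0, hg, hP⟩ hR
  have hl := hb.lam
  have hL := hb.L1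
  have hcc := hb.cc
  have hw : 0 < |z.f M x.1| := abs_pos.2 hE.out.2.2.1
  have hpos := hP.pos
  have htan := hP.tan
  rw [← hx] at hpos htan
  have hτw := abs_mul (z'.t - z.t) (z.f M x.1)
  have p1 := abs_sub_abs_le_abs_sub ((z'.t - z.t) * z.f M x.1) ((z'.S M).X x'.1 - (z.S M).X x.1)
  rw [abs_sub_comm ((z'.t - z.t) * z.f M x.1)] at p1
  have p2 := abs_sub_abs_le_abs_sub ((z'.S M).X x'.1 - (z.S M).X x.1) ((z'.t - z.t) * z.f M x.1)
  obtain hgw : g * |z.f M x.1| ≤ Real.exp (-x.2) := by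
    rw [Real.exp_neg, ← one_div, le_div_iff₀ (Real.exp_pos _)]; exact hg
  refine ⟨?_, ?_⟩
  swap
  · have h1 := abs_sub_abs_le_abs_sub (z.f M x.1) (z'.f M x'.1)
    rw [abs_sub_comm] at h1
    unfold EDat.Nad
    rw [hs, ← mul_div_assoc, div_le_div_iff₀ (by linarith only [hw, htan, h1]) hw]
    obtain h2 := mul_le_mul_of_nonneg_left (show |z.f M x.1| ≤ 2 * |z'.f M x'.1| by linarith only [hw, htan, h1])
      (Real.exp_pos (-(sgm c x.2 : ℝ))).le
    linarith only [h2]
  unfold EDat.Nad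
  rw [le_div_iff₀ hw]
  rcases hE.kind hev with ⟨k1, -, k3, k4, k5⟩ | ⟨k1, k2, -, k4, -⟩
  swap
  · have s0 : sgm c x.2 = 0 := if_neg (not_le.2 k1)
    rcases hE'.kind hev' with ⟨l1, -⟩ | ⟨-, -, -, l4, -⟩
    · rw [s0, sgm, if_pos l1, Nat.ceil_eq_zero] at hs
      linarith only [hs, hcc, l1]
    · have a3 := (abs_sub _ _).trans (add_le_add (abs_le_two l4) (abs_le_two k4))
      obtain a4 : Real.exp (-x.2) ≤ 3 :=
        (Real.exp_le_exp.2 (show -x.2 ≤ 1 by linarith only [k2])).trans (by linarith only [Real.exp_one_lt_d9])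
      rw [s0]
      simp only [Nat.cast_zero, neg_zero, Real.exp_zero]
      linarith only [hpos, hτw, p1, hgw, a3, a4]
  have s1 : sgm c x.2 = ⌈x.2⌉₊ := if_pos k1
  have c1 : x.2 ≤ (⌈x.2⌉₊ : ℝ) := Nat.le_ceil _
  obtain c2 : (⌈x.2⌉₊ : ℝ) < x.2 + 1 := Nat.ceil_lt_add_one (by linarith only [hcc, k1])
  obtain l1 : c.cc ≤ x'.2 := by
    by_contra h
    rw [s1, sgm, if_neg h, eq_comm, Nat.ceil_eq_zero] at hs
    linarith only [hs, hcc, k1]
  obtain c3 : (⌈x.2⌉₊ : ℝ) < x'.2 + 1 := by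
    rw [s1, sgm, if_pos l1] at hs
    rw [← hs]; exact Nat.ceil_lt_add_one (by linarith only [hcc, l1])
  obtain hkk : (z.S M).kk x.1 = 0 := (z.S M).kk_eq_zero.2 (Or.inl (by linarith only [k4]))
  have d1 := hP.d1 hkk
  have d2 := hP.d2 hkk
  rw [← hx] at d1 d2
  have hWW : 0 ≤ (z.S M).WW c (z.f M) (z.n + 1) x.1 := Real.log_nonneg ((z.S M).one_le_AA c _ _ _)
  have hsg1 : (z.S M).WW c (z.f M) (z.n + 1) x.1 - Real.log |z.f M x.1| ≤
      (z.S M).sg c (z.f M) (z.n + 1) x.1 := le_max_left _ _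
  have hsg2 : 0 ≤ (z.S M).sg c (z.f M) (z.n + 1) x.1 := le_max_right _ _
  have hW1 : Real.log |z.f M x.1| + 0 ≤ z.W0 c M x.1 := le_max_right _ _
  obtain hW2 : z.W0 c M x.1 ≤ Real.log |z.f M x.1| + (z.S M).sg c (z.f M) (z.n + 1) x.1 :=
    max_le (by linarith only [hsg1]) (by linarith only [hsg2])
  obtain he3 : c.e3 * x.2 ≤ 1 / 100 * x.2 := mul_le_mul_of_nonneg_right hb.e1 (by linarith only [hcc, k1])
  obtain hcw : c.cw ≤ 1 / 10000 := by
    unfold Cs.cw
    refine one_div_le_one_div_of_le (by norm_num) ?_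
    calc (10000 : ℝ) = 10 ^ 4 := by norm_num
      _ ≤ _ := by gcongr; linarith only [hl]
  unfold EDat.Rad at hR
  rw [if_pos k1] at hR
  obtain key := rk (ρ := (⌈x.2⌉₊ : ℝ) - 1) (bl := c.bl) hl (Real.exp_log (by linarith only [hL]))
    (mul_le_mul_of_nonneg_right hb.β (by linarith only [hl])) (hcc.trans k1) (by linarith only [c2]) (abs_nonneg _) hg0
    hw (abs_nonneg ((z'.S M).X x'.1 - (z.S M).X x.1)) hcw hR hgw (by linarith only [hpos, hτw, p1]) (by linarith only [hpos, hτw, p2])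
    (by linarith only [k3, hWW, hsg1, he3]) (by linarith only [hW1]) (by linarith only [k3, hW2, he3]) (k5.imp_left And.right) d1 d2
    fun y0 y2 a1 a2 a3 a4 a5 a6 => hT Ex M z.t z'.t hM ht ht' z.v hv z'.v hv' (z.f M) (z'.f M)
      x.1 x'.1 _ _ y0 y2 hE.out hE'.out (by linarith only [hcc, k1, c1])
      (Sq.Wit.anti c _ (by linarith only [hL]) hE.wit (by linarith only [c2]))
      (Sq.Wit.anti c _ (by linarith only [hL]) hE'.wit (by linarith only [c3])) rfl a1 a2 a3
      (by rwa [sq_abs] at a4) a5 a6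
  obtain e : -((⌈x.2⌉₊ : ℝ) - 1) = 1 + -(⌈x.2⌉₊ : ℝ) := by ring
  rw [e, Real.exp_add] at key
  rw [s1]
  obtain this : Real.exp 1 * Real.exp (-(⌈x.2⌉₊ : ℝ)) ≤ 3 * Real.exp (-(⌈x.2⌉₊ : ℝ)) := by
    gcongr; linarith only [Real.exp_one_lt_d9]
  linarith only [key, this]

end ELOC

theorem eloc : Hier fun c => SOK_s c → T1_s c → ELOC_s c :=
  ELOC.big.mono fun _ h _ hT => ELOC.main h hT

end Pool.Agent.MP_9cbfe4_an

end

/-! ### Part HCR -/

section

/-! Row HCR: the history certificate of a fold datum. -/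

namespace Pool.Agent.MP_9cbfe4_an.SS

open Finset

namespace HCR

theorem Pb_shift (S : Sq) (k i j : ℤ) : (S.shift k).Pb i j = S.Pb (i + k) (j + k) := by
  unfold Sq.Pb
  rw [← Finset.map_add_right_Ioc, prod_map]
  rfl

theorem b_le {c : Cs} {S : Sq} (B : SOK.Big c) (hk : c.chK ≤ c.bl) (o : S.OK c) {j : ℤ} (hj : 0 ≤ j) :
    S.b j ≤ 3 * c.L * Real.exp (-S.ch1 c j) := by
  have b1 := B.k_lo
  have hL := B.L
  obtain h1 := (o.b_hi j (2 / 100) hj (by norm_num)).trans
    (S.bb_le c (by linarith only [b1]) (by nlinarith only [b1, hL]) hk B.lam_pos.le j)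
  obtain h2 : (c.lam + 1) * S.kk j ≤ c.lam + 1 :=
    mul_le_of_le_one_right (by linarith only [B.lam]) (S.kk_mem j).2
  refine h1.trans ((Real.exp_le_exp.2 (add_le_add_right h2 _)).trans ?_)
  rw [Real.exp_add, Real.exp_add, Cs.lam, Real.exp_log B.L_pos, mul_comm]
  refine mul_le_mul_of_nonneg_right ?_ (Real.exp_pos _).le
  nlinarith only [hL, Real.exp_one_lt_d9]

/-- the majorant of a tame window, enlarged at the first index -/
theorem maj {c : Cs} {S : Sq} {ξ w A : ℤ → ℝ} {Rg : Finset ℤ} {n s : ℤ} {y : ℝ} (B : SOK.Big c)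
    (a0 : 0 < c.a) (k0 : 0 ≤ c.chK) (hk : c.chK ≤ c.bl) (o : S.OK c)
    (h : S.TameW c ξ n y s w A Rg) : ∃ W : ℤ → ℝ, (∀ j, s ≤ j → W j = w j) ∧
    (∀ j, s - 1 ≤ j → j ≤ n → 0 < W j ∧ |ξ j| ≤ W j) ∧
    (∀ j, s - 1 ≤ j → j < n → W (j + 1) ≤ 100 * c.L * W j) ∧
    (∀ i j, s - 1 ≤ i → i ≤ j → j ≤ n →
      W i ≤ Real.exp (3 * c.a * (S.chi c i n + 2 * c.bl)) * W j ∧
      S.Pb i j * W i ≤
        Real.exp (3 * c.a * (S.chi c i n + 2 * c.bl) - (1 - 3 * c.a) * S.chi c i j) * W j) ∧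
    ∀ i j, s - 1 ≤ i → i < j → j ≤ n →
      |S.fr (i + 1) j| * W i ≤ Real.exp (6 * c.a * (S.chi c i n + 2 * c.bl)) * W j := by
  obtain ⟨s0, sn, -, -, ce, mj, wm, -, pw, -⟩ := h
  have hL := B.L
  have b0 : 0 ≤ c.bl := k0.trans hk
  have ws := ce.pos' s le_rfl sn
  obtain wp : ∀ j, s - 1 ≤ j → j ≤ n → 0 < w j := fun j a b => by
    rcases a.eq_or_lt with rfl | a
    · exact wm
    · exact ce.pos' j (by omega) b
  set e : ℤ → ℝ := fun i => Real.exp (3 * c.a * (S.chi c i n + 2 * c.bl)) with he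
  obtain e1 : ∀ i, 1 ≤ e i := fun i =>
    Real.one_le_exp (by have := S.chi_nonneg c k0 hk i n; (clear * - a0 this b0; positivity))
  obtain em : ∀ i j, i ≤ j → e j ≤ e i := fun i j a => Real.exp_le_exp.2
    (mul_le_mul_of_nonneg_left (by linarith only [S.chi_mono c k0 hk a (le_refl n)]) (by positivity))
  obtain ee : ∀ i, Real.exp (6 * c.a * (S.chi c i n + 2 * c.bl)) = e i * e i := fun i => by
    rw [he, ← Real.exp_add]; congr 1; ring
  obtain p1 : ∀ i j, s - 1 ≤ i → i ≤ j → j ≤ n → w i ≤ e i * w j := fun i j a b d => by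
    rcases b.eq_or_lt with rfl | b
    · exact le_mul_of_one_le_left (wp i a d).le (e1 i)
    · exact (pw i j a b d).1
  obtain p2 : ∀ i j, s - 1 ≤ i → i ≤ j → j ≤ n → S.Pb i j * w i ≤
      Real.exp (3 * c.a * (S.chi c i n + 2 * c.bl) - (1 - 3 * c.a) * S.chi c i j) * w j :=
    fun i j a b d => by
    rcases b.eq_or_lt with rfl | b
    · rw [Sq.Pb_self, Sq.chi_self, mul_zero, sub_zero, one_mul]
      exact le_mul_of_one_le_left (wp i a d).le (e1 i)
    · exact (mul_le_mul_of_nonneg_right (o.Pb_le (by norm_num) (by omega)).2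
        (wp i a (by omega)).le).trans (pw i j a b d).2.1
  obtain p3 : ∀ i j, s - 1 ≤ i → i ≤ j → j ≤ n → |S.fr (i + 1) j| * c.L * w i ≤ e i * w j :=
    fun i j a b d => by
    rcases b.eq_or_lt with rfl | b
    · rw [Sq.fr_succ_self, abs_zero, zero_mul, zero_mul]
      exact mul_nonneg (zero_le_one.trans (e1 i)) (wp i a d).le
    · exact (div_le_iff₀ (wp j (by omega) d)).1 (pw i j a b d).2.2
  obtain dl : w s / (100 * c.L) ≤ w s := div_le_self ws.le (by linarith only [hL])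
  refine ⟨fun j => if s ≤ j then w j else max (w (s - 1)) (w s / (100 * c.L)),
    fun j a => if_pos a, fun j a b => ?_, fun j a b => ?_, fun i j a b d => ?_,
    fun i j a b d => ?_⟩ <;> beta_reduce
  · have := mj.2 j a b
    rw [one_mul] at this
    split_ifs with h
    · exact ⟨wp j a b, this⟩
    · obtain rfl : j = s - 1 := by omega
      exact ⟨lt_max_of_lt_left wm, le_max_of_le_left this⟩
  · rw [if_pos (by omega)]
    split_ifs with h
    · exact ce.fwd j h b
    · obtain rfl : j = s - 1 := by omega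
      rw [sub_add_cancel, ← div_le_iff₀' (by linarith only [hL])]
      exact le_max_right _ _
  · by_cases hi : s ≤ i
    · rw [if_pos hi, if_pos (hi.trans b)]
      exact ⟨p1 i j a b d, p2 i j a b d⟩
    obtain rfl : i = s - 1 := by omega
    rw [if_neg hi]
    by_cases hj : s ≤ j
    · rw [if_pos hj]
      obtain wj := (wp j (by omega) d).le
      refine ⟨max_le (p1 _ j a b d) (dl.trans ((p1 s j (by omega) hj d).trans
        (mul_le_mul_of_nonneg_right (em _ _ (by omega)) wj))), ?_⟩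
      rw [mul_max_of_nonneg _ _ (o.Pb_le (θ := 1) (by norm_num) (by omega)).1.le]
      refine max_le (p2 _ j a b d) ?_
      obtain t1 := S.Pb_mul (show s - 1 ≤ s by omega) hj
      have t2 := S.Pb_one (s - 1)
      obtain t3 := S.chi_add c (show s - 1 ≤ s by omega) hj
      have t4 := S.chi_succ c (s - 1)
      obtain t5 := S.chi_add c (show s - 1 ≤ s by omega) sn
      rw [sub_add_cancel] at t2 t4
      obtain t6 : S.b s / (100 * c.L) ≤ Real.exp (-S.ch1 c s) := by
        rw [div_le_iff₀ (by linarith only [hL])]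
        nlinarith only [hL, b_le B hk o s0, Real.exp_pos (-S.ch1 c s)]
      have t7 := mul_nonneg a0.le (k0.trans (S.ch1_mem c hk s).1)
      calc S.Pb (s - 1) j * (w s / (100 * c.L)) = S.b s / (100 * c.L) * (S.Pb s j * w s) := by
            rw [t1, t2]; ring
        _ ≤ Real.exp (-S.ch1 c s) * (Real.exp (3 * c.a * (S.chi c s n + 2 * c.bl) -
              (1 - 3 * c.a) * S.chi c s j) * w j) :=
            mul_le_mul t6 (p2 s j (by omega) hj d)
              (mul_nonneg (o.Pb_le (θ := 1) (by norm_num) (by omega)).1.le ws.le) (Real.exp_pos _).le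
        _ ≤ _ := by
            rw [← mul_assoc, ← Real.exp_add]
            refine mul_le_mul_of_nonneg_right (Real.exp_le_exp.2 ?_) wj
            rw [t3, t5, t4]
            linarith only [t7]
    · obtain rfl : j = s - 1 := by omega
      rw [if_neg hi, Sq.Pb_self, Sq.chi_self, mul_zero, sub_zero, one_mul]
      have := le_mul_of_one_le_left (le_max_of_le_left wm.le : 0 ≤ max _ (w s / (100 * c.L)))
        (e1 (s - 1))
      exact ⟨this, this⟩
  · obtain wj := (wp j (by omega) d).le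
    obtain g : ∀ l, s - 1 ≤ l → l ≤ j → |S.fr (l + 1) j| * w l ≤ e l * w j := fun l u v =>
      le_trans (mul_le_mul_of_nonneg_right (le_mul_of_one_le_right (abs_nonneg _) (by linarith only [hL]))
        (wp l u (by omega)).le) (p3 l j u v d)
    have g' : e i * w j ≤ e i * e i * w j :=
      mul_le_mul_of_nonneg_right (le_mul_of_one_le_right (zero_le_one.trans (e1 i)) (e1 i)) wj
    rw [if_pos (show s ≤ j by omega), ee]
    split_ifs with hi
    · exact (g i a b.le).trans g'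
    obtain rfl : i = s - 1 := by omega
    rw [mul_max_of_nonneg _ _ (abs_nonneg _)]
    refine max_le ((g _ a b.le).trans g') ?_
    rw [sub_add_cancel]
    rcases (show s ≤ j by omega).eq_or_lt with rfl | hj
    · rw [Sq.fr_self, abs_one, one_mul]
      exact dl.trans (le_mul_of_one_le_left wj (one_le_mul_of_one_le_of_one_le (e1 _) (e1 _)))
    · obtain r := S.repr_on (i := s + 1) (n := j) (fun l u _ => S.fr_sol s l (by omega))
        (show s + 1 ≤ j by omega) le_rfl
      rw [Sq.fr_one, add_sub_cancel_right, Sq.fr_self, mul_one] at r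
      obtain ha : |S.a s| ≤ 2 * c.L := (o.a_hi s s0).trans (mul_le_mul_of_nonneg_right (by
        obtain this : 1 / c.lam ≤ 1 := (div_le_one B.lam_pos).2 (by linarith only [B.lam])
        linarith only [this]) B.L_pos.le)
      obtain hb : S.b (s + 1) ≤ 3 * c.L := (b_le B hk o (by omega)).trans (mul_le_of_le_one_right
        (by linarith only [hL]) (Real.exp_le_one_iff.2 (by linarith only [k0, (S.ch1_mem c hk (s + 1)).1])))
      obtain hb0 := (o.b_pos (show 0 ≤ s + 1 by omega)).le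
      obtain r1 : |S.fr s j| ≤ 2 * c.L * |S.fr (s + 1) j| + 3 * c.L * |S.fr (s + 1 + 1) j| := by
        rw [r]
        refine (abs_add_le _ _).trans (add_le_add ?_ ?_)
        · rw [abs_mul]; exact mul_le_mul_of_nonneg_right ha (abs_nonneg _)
        · rw [abs_mul, abs_of_nonneg hb0]; exact mul_le_mul_of_nonneg_right hb (abs_nonneg _)
      obtain r2 : |S.fr (s + 1) j| * w s ≤ e (s - 1) * e (s - 1) * w j :=
        ((g s (by omega) hj.le).trans (mul_le_mul_of_nonneg_right (em _ _ (by omega)) wj)).trans g'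
      obtain r3 : |S.fr (s + 1 + 1) j| * w s ≤ e (s - 1) * e (s - 1) * w j :=
        calc _ ≤ |S.fr (s + 1 + 1) j| * (e s * w (s + 1)) :=
              mul_le_mul_of_nonneg_left (p1 s (s + 1) (by omega) (by omega) (by omega)) (abs_nonneg _)
          _ = e s * (|S.fr (s + 1 + 1) j| * w (s + 1)) := by ring
          _ ≤ e (s - 1) * (e (s - 1) * w j) :=
              mul_le_mul (em _ _ (by omega)) ((g (s + 1) (by omega) (by omega)).trans
                (mul_le_mul_of_nonneg_right (em _ _ (by omega)) wj))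
                (mul_nonneg (abs_nonneg _) (wp _ (by omega) (by omega)).le)
                (zero_le_one.trans (e1 _))
          _ = _ := by ring
      have r4 : 0 ≤ e (s - 1) * e (s - 1) * w j := mul_nonneg (mul_self_nonneg _) wj
      rw [← mul_div_assoc, div_le_iff₀ (by linarith only [hL])]
      have r5 := mul_le_mul_of_nonneg_right r1 ws.le
      have r6 := mul_le_mul_of_nonneg_left r2 B.L_pos.le
      have r7 := mul_le_mul_of_nonneg_left r3 B.L_pos.le
      have r8 := mul_nonneg B.L_pos.le r4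
      linarith only [r5, r6, r7, r8]

theorem st_eq {c : Cs} {S : Sq} {ξ w A : ℤ → ℝ} {Rg : Finset ℤ} {n s : ℤ} {y : ℝ}
    (k0 : 0 < c.chK) (hk : c.chK ≤ c.bl) (h : S.TameW c ξ n y s w A Rg) : S.st c n y = s := by
  obtain ⟨s0, sn, c1, c2, -⟩ := h
  obtain ⟨h1, h2⟩ := S.Nw_spec c k0 hk n y
  obtain h3 : n - S.Nw c n y ≤ s := by
    by_contra h
    linarith only [c1, h1, h, S.chi_mono c k0.le hk (show s + 1 ≤ n - S.Nw c n y by omega) (le_refl n)]
  unfold Sq.st
  rcases c2 with h | ⟨rfl, -⟩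
  · obtain this := h2 (n - s).toNat (by rwa [show n - ((n - s).toNat : ℤ) = s by omega])
    omega
  · omega

theorem pow_le {x : ℝ} {m : ℕ} (h : Real.log 2 * m ≤ x) : Real.exp (-(9 / 10 * x)) ≤ (3 / 4) ^ m := by
  obtain h1 : Real.exp (-(1 / 2)) ≤ 3 / 4 := by
    rw [Real.exp_neg, inv_le_comm₀ (Real.exp_pos _) (by norm_num)]
    linarith only [Real.add_one_le_exp (1 / 2 : ℝ)]
  refine le_trans ?_ (pow_le_pow_left₀ (Real.exp_pos _).le h1 m)
  rw [← Real.exp_nat_mul]
  refine Real.exp_le_exp.2 ?_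
  have := mul_le_mul_of_nonneg_right Real.log_two_gt_d9.le (Nat.cast_nonneg (α := ℝ) m)
  linarith only [h, this, Nat.cast_nonneg (α := ℝ) m]

end HCR

open HCR in
theorem hcr {K E : ℕ} {c : Cs} (N : NuS K E c) (B : SOK.Big c) (hS : SOK_s c) : HCR_s K E c := by
  intro M hM Ex y φ F far
  obtain ⟨-, o⟩ := (hS M hM φ.t ⟨by linarith only [F.ht.1], by linarith only [F.ht.2]⟩).2.1 φ.v F.hv
  obtain ⟨s, wT, A, Rg, hT⟩ := (F.tame y le_rfl).ex F.y_lo
  have a0 := N.a0
  obtain ⟨k1, k2, b1⟩ := N.chK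
  obtain ⟨L1, L2, L3⟩ := N.L
  have hl2 := Real.log_two_gt_d9
  obtain k0 : 0 < c.chK := by linarith only [k1, hl2]
  obtain hk : c.chK ≤ c.bl := by linarith only [k2, b1]
  have abl := N.abl
  have hK : (0 : ℝ) ≤ K := Nat.cast_nonneg K
  have hE : (0 : ℝ) ≤ E := Nat.cast_nonneg E
  obtain aE : 1000 * (E * c.a) + 1000 * c.a ≤ 1 := by
    obtain this : 1000 * (E : ℝ) + 1000 ≤ 10 ^ 4 * ((E : ℝ) + K + 30) ^ 2 := by nlinarith
    linarith only [N.aE, mul_le_mul_of_nonneg_right this a0.le]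
  obtain aK : E * (K + 38) * c.a ≤ 1 / 4 := by
    obtain this : 4 * (E * (K + 38) : ℝ) ≤ 10 ^ 4 * ((E : ℝ) + K + 30) ^ 2 := by nlinarith only []
    linarith only [N.aE, mul_le_mul_of_nonneg_right this a0.le]
  have xn := F.out.2.2.1
  have xp : 0 < |φ.ξ φ.n| := abs_pos.2 xn
  have st := st_eq k0 hk hT
  replace o : (φ.S M).OK c := o
  obtain ⟨W, W0, W1, W2, W3, W4⟩ := maj B a0 k0.le hk o hT
  have hT' := hT
  obtain ⟨s0, sn, c1, c2, -, mj, -, wn, -⟩ := hT'
  have eR : FR M φ = (φ.S M).shift φ.n := rfl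
  obtain es : Fs c M y φ = s - φ.n := by rw [Fs, st]
  set O := φ.S M with hO
  set n := φ.n with hn
  obtain d : ∀ {p q k : ℝ}, p ≤ k * q → p / |φ.ξ n| ≤ k * (q / |φ.ξ n|) := fun h => by
    rw [← mul_div_assoc]; exact div_le_div_of_nonneg_right h xp.le
  have c0 := O.chi_nonneg c k0.le hk
  obtain cs : O.chi c (s - 1) n ≤ y + 2 * c.bl := by
    obtain e1 := O.chi_add c (show s - 1 ≤ s by omega) (show s ≤ s + 1 by omega)
    have e2 := O.chi_succ c (s - 1)
    have e3 := O.chi_succ c s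
    rw [sub_add_cancel] at e2
    have e4 := (O.ch1_mem c hk s).2
    have e5 := (O.ch1_mem c hk (s + 1)).2
    rcases sn.eq_or_lt with h | h
    · rw [← h]; linarith only [b1, e2, e4, F.y_lo]
    · rw [O.chi_add c (show s - 1 ≤ s + 1 by omega) (show s + 1 ≤ n by omega)]; linarith only [c1, e1, e2, e3, e4, e5]
  obtain cj : ∀ j, s - n - 1 ≤ j → O.chi c (j + n) n ≤ y + 2 * c.bl := fun j a =>
    (O.chi_mono c k0.le hk (by omega) le_rfl).trans cs
  obtain em : ∀ j, s - n - 1 ≤ j → j ≤ 0 → mu K c y (O.shift n) j =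
      Real.exp ((K + 30) * (c.a * c.bl) + 8 * c.a * O.chi c (j + n) n) := fun j a b => by
    obtain this : O.chi c (0 + n) (j + n) = 0 := by
      rw [Sq.chi, Ioc_eq_empty (by omega), sum_empty]
    rw [mu, chd, Sq.chi_shift, Sq.chi_shift, this, zero_add, add_zero, min_eq_left (cj j a)]
  obtain KB : 30 * (c.a * c.bl) ≤ (K + 30) * (c.a * c.bl) := by nlinarith only [abl]
  obtain LB : 10 ^ 4 * c.L * c.bl ≤ Real.exp (c.a * c.bl) := by
    obtain this : 0 ≤ 10 ^ 4 * c.L * c.bl := by (clear * - L1 b1; positivity)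
    nlinarith only [L2, L3, this]
  obtain ge : ∀ j x, s - n - 1 ≤ j → j ≤ 0 → x ≤ 30 * (c.a * c.bl) + 8 * c.a * O.chi c (j + n) n →
      Real.exp x ≤ mu K c y (O.shift n) j := fun j x a b h => by
    rw [em j a b]; exact Real.exp_le_exp.2 (by linarith only [KB, h])
  obtain gL : ∀ j, s - n - 1 ≤ j → j ≤ 0 → 100 * c.L ≤ mu K c y (O.shift n) j := fun j a b => by
    refine le_trans ?_ (LB.trans (ge j _ a b ?_))
    · nlinarith only [a0, b1, L1, aE]
    · linarith only [abl, mul_nonneg a0.le (c0 (j + n) n)]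
  have m0 : ∀ j (e : ℕ), 0 ≤ mu K c y (O.shift n) j ^ e := fun j e =>
    pow_nonneg (Real.exp_pos _).le e
  obtain kp : ∀ i j, s - n - 1 ≤ i → i ≤ j → j ≤ 0 →
      (O.shift n).kp (fun j => W (j + n) / |φ.ξ n|) i j ≤
      Real.exp (3 * c.a * (O.chi c (i + n) n + 2 * c.bl) - (1 - 3 * c.a) * O.chi c (i + n) (j + n)) :=
    fun i j a b e => by
    rw [Sq.kp, Pb_shift, ← mul_div_assoc, div_div_div_cancel_right₀ xp.ne',
      div_le_iff₀ (W1 _ (by omega) (by omega)).1]
    exact (W3 _ _ (by omega) (by omega) (by omega)).2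
  rw [es, eR]
  refine ⟨fun j => W (j + n) / |φ.ξ n|, ⟨by omega, fun j a b => ?_, ?_, fun j a b => ?_, ?_,
    fun j a b => div_pos (W1 _ (by omega) (by omega)).1 xp,
    fun j a b => o.b_pos (show 0 ≤ j + n by omega), fun j a b => ?_,
    fun j a b => by linarith only [L1, gL j a b], fun i j a b e => ?_, fun i a b => ?_,
    fun i j a b e => ?_, fun j a b => ?_, fun i j a b e => ?_, fun e he i j a b f => ?_,
    fun e he j a b => ?_⟩, fun i j a b e => ?_, ?_, fun h => ?_, ?_, ?_, wT, A, Rg, ?_,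
    fun i a b => ?_⟩
  · obtain this := mj.1 (j + n) (by omega) (by omega)
    rw [show j + n + 1 = j + 1 + n by ring, show j + n - 1 = j - 1 + n by ring] at this
    simp only [Fxi, Sq.shift, ← hn]
    rw [this]; ring
  · simp only [Fxi, ← hn]
    rw [zero_add, div_self xn]
  · simp only [Fxi, ← hn]
    rw [abs_div]
    exact div_le_div_of_nonneg_right (W1 _ (by omega) (by omega)).2 xp.le
  · rw [zero_add, W0 n sn, div_le_iff₀ xp]; exact wn
  · obtain h1 : 1 / c.lam ≤ 1 := (div_le_one B.lam_pos).2 (by linarith only [B.lam])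
    obtain h2 := o.a_hi (j + n) (by omega)
    have h3 := mul_le_mul_of_nonneg_right h1 B.L_pos.le
    show |O.a (j + n)| ≤ _
    linarith only [L1, h2, h3, es, a, gL j (by omega) b]
  · rw [em i a (by omega), em j (by omega) e]
    exact Real.exp_le_exp.2 (by
      linarith only [b, mul_le_mul_of_nonneg_left
        (O.chi_mono c k0.le hk (show i + n ≤ j + n by omega) (le_refl n)) a0.le])
  · obtain h1 := O.chi_ge c hk (show i + n ≤ n by omega)
    obtain h2 : (i : ℝ) ≤ 0 := by exact_mod_cast b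
    obtain h3 : -(i : ℝ) ≤ 2 * O.chi c (i + n) n := by
      push_cast at h1; nlinarith only [h2, h1, k1, hl2]
    have h4 := Real.add_one_le_exp (8 * c.a * O.chi c (i + n) n)
    have h5 := c0 (i + n) n
    obtain h6 : 1 ≤ c.a * Real.exp (c.a * c.bl) := by
      have := mul_le_mul_of_nonneg_left LB a0.le
      nlinarith only [a0, L1, abl, aE, this]
    obtain h7 : 2 ≤ Real.exp (c.a * c.bl) := by linarith only [abl, Real.add_one_le_exp (c.a * c.bl)]
    refine le_trans ?_ (ge i (c.a * c.bl + 8 * c.a * O.chi c (i + n) n) a b (by linarith only [abl]))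
    rw [Real.exp_add]
    have h8 := mul_le_mul_of_nonneg_left h4 (Real.exp_pos (c.a * c.bl)).le
    have h9 := mul_le_mul_of_nonneg_right h6 h5
    linarith only [h3, h5, h7, h8, h9]
  · refine d ((W3 _ _ (by omega) (by omega) (by omega)).1.trans (mul_le_mul_of_nonneg_right
      (ge i _ a (by omega) ?_) (W1 _ (by omega) (by omega)).1.le))
    linarith only [abl, mul_nonneg a0.le (c0 (i + n) n)]
  · rw [show j + 1 + n = j + n + 1 by ring]
    exact d ((W2 _ (by omega) (by omega)).trans (mul_le_mul_of_nonneg_right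
      (gL _ (by omega) (by omega)) (W1 _ (by omega) (by omega)).1.le))
  · rw [Sq.fr_shift, add_right_comm, ← mul_div_assoc]
    refine d ((W4 _ _ (by omega) (by omega) (by omega)).trans (mul_le_mul_of_nonneg_right
      (ge i _ a (by omega) ?_) (W1 _ (by omega) (by omega)).1.le))
    linarith only [abl, mul_nonneg a0.le (c0 (i + n) n)]
  · obtain h1 := O.chi_add c (show i + n ≤ j + n by omega) (show j + n ≤ n by omega)
    obtain h2 := O.chi_ge c hk (show i + n ≤ j + n by omega)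
    obtain h3 : Real.log 2 * ((j - i).toNat : ℝ) ≤ O.chi c (i + n) (j + n) := by
      obtain e1 : (((j - i).toNat : ℕ) : ℝ) = ((j + n - (i + n) : ℤ) : ℝ) := by
        rw [← Int.cast_natCast]; congr 1; omega
      rw [← e1] at h2
      exact (mul_le_mul_of_nonneg_right k1 (Nat.cast_nonneg _)).trans h2
    have h4 : (e : ℝ) * c.a ≤ E * c.a := mul_le_mul_of_nonneg_right (Nat.cast_le.2 he) a0.le
    obtain h5 := mul_le_mul_of_nonneg_right
      (show 6 * c.a + 8 * (e * c.a) ≤ 1 / 10 by linarith only [a0, aE, h4]) (c0 (i + n) (j + n))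
    refine (mul_le_mul_of_nonneg_right (kp i j a b f) (m0 _ _)).trans
      (le_trans ?_ (mul_le_mul_of_nonneg_left (pow_le h3) (m0 _ _)))
    rw [em i a (by omega), em j (by omega) f, ← Real.exp_nat_mul, ← Real.exp_nat_mul,
      ← Real.exp_add, ← Real.exp_add, h1]
    refine Real.exp_le_exp.2 ?_
    push_cast
    linarith only [h5, KB, abl, mul_nonneg a0.le (c0 (j + n) n)]
  · obtain h1 := O.chi_add c (show j - 1 + n ≤ j - 1 + n + 1 by omega) (show j - 1 + n + 1 ≤ n by omega)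
    rw [Sq.chi_succ, show j - 1 + n + 1 = j + n by ring] at h1
    obtain h2 := b_le B hk o (show 0 ≤ j + n by omega)
    have h4 : (e : ℝ) * c.a ≤ E * c.a := mul_le_mul_of_nonneg_right (Nat.cast_le.2 he) a0.le
    obtain h5 := mul_le_mul_of_nonneg_right
      (show 8 * (e * c.a) ≤ 1 by linarith only [a0, aE, h4]) (k0.le.trans (O.ch1_mem c hk (j + n)).1)
    obtain h6 : O.b (j + n) ≤ mu K c y (O.shift n) j * Real.exp (-O.ch1 c (j + n)) :=
      h2.trans (mul_le_mul_of_nonneg_right (by linarith only [L1, es, a, gL j (by omega) b]) (Real.exp_pos _).le)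
    refine (mul_le_mul_of_nonneg_right h6 (m0 _ _)).trans ?_
    rw [em (j - 1) (by omega) (by omega), em j (by omega) b, ← Real.exp_nat_mul, ← Real.exp_nat_mul,
      ← Real.exp_add, ← Real.exp_add, h1]
    refine Real.exp_le_exp.2 ?_
    push_cast
    linarith only [h5]
  · refine (kp i j a b e).trans ?_
    rw [Sq.chi_shift, Lam, ← Real.exp_nat_mul, ← Real.exp_add]
    refine Real.exp_le_exp.2 ?_
    have h1 := mul_le_mul_of_nonneg_left (cj i a) a0.le
    obtain h2 := mul_le_mul_of_nonneg_left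
      (O.chi_mono c k0.le hk (le_refl (i + n)) (show j + n ≤ n by omega)) a0.le
    push_cast
    linarith only [h1, h2, KB, abl, mul_nonneg a0.le (c0 (i + n) n)]
  · rwa [Sq.chi_shift, zero_add, show s - n + 1 + n = s + 1 by ring]
  · rw [Tr, es, eR, Sq.chi_shift, zero_add, sub_add_cancel] at h
    obtain ⟨rfl, h'⟩ := c2.resolve_left (not_le.2 h)
    exact ⟨zero_sub _, h'⟩
  · obtain h1 : O.b (0 + n) ≤ Real.exp (-c.bl) := by
      obtain this := o.b_hi (0 + n) (1 / 100) (by omega) le_rfl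
      have f : 5 / 100 ≤ dP (O.X (0 + n)) := far
      rwa [Sq.bb, if_neg fun h => by linarith only [f, h.1]] at this
    have h2 := O.chi_succ c (-1 + n)
    rw [show -1 + n + 1 = n by ring] at h2
    have h3 := mul_le_mul_of_nonneg_left (O.ch1_mem c hk n).2 (mul_nonneg hE a0.le)
    refine (mul_le_mul_of_nonneg_right h1 (m0 _ _)).trans ?_
    rw [em (-1) (by omega) (by omega), ← Real.exp_nat_mul, ← Real.exp_add, h2, del]
    refine Real.exp_le_exp.2 ?_
    linarith only [h3, b1, mul_le_mul_of_nonneg_right aK (show 0 ≤ c.bl by linarith only [b1])]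
  · rw [em 0 (by omega) le_rfl, zero_add, Sq.chi_self, del, ← Real.exp_nat_mul, ← Real.exp_add]
    refine Real.exp_le_one_iff.2 ?_
    linarith only [mul_le_mul_of_nonneg_right aK (show 0 ≤ c.bl by linarith only [b1]),
      mul_nonneg hE (show 0 ≤ c.a * c.bl by linarith only [abl])]
  · rw [st]; exact hT
  · rw [es] at a
    rw [eR, Sq.kp, Sq.kp, Pb_shift, ← mul_div_assoc, div_div_div_cancel_right₀ xp.ne', zero_add,
      W0 _ (by omega), W0 n sn, add_comm i n]

theorem hcr' (h : NS_s) (K E : ℕ) : Hier fun c => SOK_s c → HCR_s K E c :=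
  ((h K E).and SOK.big).mono fun _ h hS => hcr h.1 h.2 hS

end Pool.Agent.MP_9cbfe4_an.SS

end

/-! ### Part FCR -/

section

/-! Section S, row FCR: the forward certificate. -/

namespace Pool.Agent.MP_9cbfe4_an.SS

open Finset Filter Topology Real

namespace FCR

noncomputable def Γ (c : Cs) : ℝ := (1 + c.CN) * (1 + c.C0 * c.C1 + c.C1)

structure Kf (K E : ℕ) (c : Cs) : Prop where
  nu : NuS K E c
  k1 : 1 / 16 ≤ c.k0
  k2 : c.k0 < 1 / 2
  lam : 1 ≤ c.lam
  C0 : 0 ≤ c.C0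
  C1 : 0 ≤ c.C1
  d : 0 < c.d1 ∧ c.d1 ≤ 1
  ε : 0 < c.ε ∧ c.ε ≤ 1
  M : 200 * Γ c / c.a ≤ c.M1
  β : 1100 * Γ c / c.a ≤ c.β

theorem hK (K E : ℕ) : Hier (Kf K E) := by
  have h1 := Hier.lam_ge (fun _ => 1) fun _ _ => rfl
  have h2 := Hier.C0_ge fun _ _ _ _ => 0
  have h3 := Hier.C1_ge fun _ _ _ _ _ => 0
  have h4 := Hier.d1_le (fun _ => 1) (fun _ _ _ _ _ => rfl) (Hier.of_all fun _ => one_pos)
  obtain h5 := Hier.ε_le_pow (fun _ => 1) 0 (by norm_num) (fun _ _ _ _ _ _ _ _ => rfl)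
    (Hier.of_all fun _ => one_pos)
  have h6 := Hier.M1_ge (fun c => 200 * Γ c / c.a) fun _ _ _ _ => rfl
  have h7 := Hier.β_ge (fun c => 1100 * Γ c / c.a) fun _ _ _ => rfl
  refine ((ns K E).and (Hier.base.and (h1.and (h2.and (h3.and (h4.and (h5.and
    (h6.and h7)))))))).mono ?_
  rintro c ⟨n, b, h1, h2, h3, h4, h5, h6, h7⟩
  exact ⟨n, b.1, b.2.1, h1, h2, h3, h4, ⟨h5.1, by simpa using h5.2⟩, h6, h7⟩

variable {K E : ℕ} {c : Cs}

/-- the budget of the late regime -/
theorem Kf.bud (h : Kf K E c) {W l y : ℝ} (W0 : 0 ≤ W) (hl : l ≤ 2 * c.C0 * max W 0 + 1)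
    (y0 : 0 ≤ y) (hW : W ≤ y / c.M1 + 5) :
    (1 + c.CN) * (W + c.C1 * l + 1) ≤ c.a * (y + c.bl) / 100 ∧
      (1 + c.CN) * c.lam ≤ c.a * c.bl / 1000 := by
  have a0 := h.nu.a0
  obtain CN : 0 ≤ c.CN := by unfold Cs.CN; (clear * -; positivity)
  have p := mul_nonneg h.C0 h.C1
  have C1 := h.C1
  obtain g1 : 1 + c.CN ≤ Γ c := le_mul_of_one_le_right (by linarith only [CN]) (by linarith only [p, C1])
  have M := h.M
  have β := h.β
  rw [div_le_iff₀ a0] at M β
  obtain M0 : 0 < c.M1 := (mul_pos_iff_of_pos_right a0).1 (by linarith only [CN, g1, M])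
  obtain b1 : 1100 * Γ c * c.lam ≤ c.a * c.bl := by
    obtain this := mul_le_mul_of_nonneg_right β (show 0 ≤ c.lam by linarith only [h.lam])
    unfold Cs.bl; linarith only [this]
  obtain b2 : Γ c ≤ Γ c * c.lam := le_mul_of_one_le_right (by linarith only [CN, g1]) h.lam
  obtain b3 := mul_le_mul_of_nonneg_right g1 (show 0 ≤ c.lam by linarith only [h.lam])
  refine ⟨?_, by linarith only [CN, g1, b1, b2, b3]⟩
  rw [max_eq_left W0] at hl
  have b4 := mul_le_mul_of_nonneg_left hl C1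
  obtain b5 : W + c.C1 * l + 1 ≤ (1 + c.C0 * c.C1 + c.C1) * (2 * W + 1) := by
    linarith only [W0, p, b4, C1, mul_nonneg C1 W0]
  obtain b6 : (1 + c.CN) * (W + c.C1 * l + 1) ≤ Γ c * (2 * W + 1) := by
    rw [Γ, mul_assoc]; exact mul_le_mul_of_nonneg_left b5 (by linarith only [CN])
  obtain b7 := mul_le_mul_of_nonneg_left hW (show 0 ≤ Γ c by linarith only [CN, g1])
  have b8 := mul_le_mul_of_nonneg_right M (div_nonneg y0 M0.le)
  obtain b9 : c.M1 * c.a * (y / c.M1) = c.a * y := by field_simp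
  linarith only [b1, b2, b6, b7, b8, b9]

/-- half of the logarithm of `mu`, absolute time -/
noncomputable def nu (K : ℕ) (c : Cs) (y : ℝ) (S : Sq) (n j : ℤ) : ℝ :=
  (K + 30) * (c.a * c.bl) / 2 + 4 * c.a * min (S.chi c n j) (y + 2 * c.bl)

theorem core (h : Kf K E c) {S : Sq} {n p : ℤ} {Ls} {y : ℝ} (hS : S.OK c) (n0 : 0 ≤ n)
    (B : S.BInv c n Ls p) (hy : c.bl / 4 < y)
    (hW : S.Wp c n p ≤ y / c.M1 + 5) :
    (∀ j, n < j → j ≤ p → S.wp c n j ≤ exp (nu K c y S n j)) ∧
    (∀ i j, n ≤ i → i < j → j ≤ p → |S.fr (i + 1) j| ≤ exp (nu K c y S n i) * S.wp c n j) ∧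
    (∀ j, n ≤ j → j ≤ p → (c.lam + 1) * S.NK n j ≤ nu K c y S n j) ∧
    ∀ j, n ≤ j → j ≤ p → ((j - n : ℤ) : ℝ) + 2 ≤ exp (2 * nu K c y S n j) := by
  have N := h.nu
  have a0 := N.a0
  have bl := N.bl_ge
  obtain abl : 10000 ≤ c.a * c.bl := by have := N.abl; norm_num at this; exact this
  have L := N.L_ge
  have lam := h.lam
  have W0 : 0 ≤ S.Wp c n p := log_nonneg (S.one_le_AA c _ _ _)
  have l0 := mul_nonneg h.C1 (S.load_nonneg c n (S.Wp c n p))
  obtain ⟨b1, b2⟩ := h.bud W0 (S.load_le c N.chK_ge N.chK_bl h.C0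
    (show 0 ≤ c.a * c.bl by linarith only [abl]) n _) (by linarith only [hy, bl]) hW
  obtain CN : 0 ≤ c.CN := by unfold Cs.CN; (clear * -; positivity)
  obtain u1 := mul_nonneg CN (show 0 ≤ S.Wp c n p + c.C1 * S.load c n (S.Wp c n p) + 1 by linarith only [W0, l0])
  obtain u2 := mul_nonneg CN (show 0 ≤ c.lam by linarith only [lam])
  obtain ay : 0 ≤ c.a * y := mul_nonneg a0.le (by linarith only [hy, bl])
  obtain KA : 0 ≤ (K : ℝ) * (c.a * c.bl) := by (clear * - a0 bl; positivity)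
  have ch := N.chi_nonneg S
  have ac : ∀ j, 0 ≤ c.a * S.chi c n j := fun j => mul_nonneg a0.le (ch _ _)
  obtain reg : ∀ j, (S.chi c n j ≤ y + 2 * c.bl ∧
      15 * (c.a * c.bl) + 4 * (c.a * S.chi c n j) ≤ nu K c y S n j) ∨ (y + 2 * c.bl ≤ S.chi c n j ∧
      15 * (c.a * c.bl) + 4 * (c.a * (y + c.bl)) ≤ nu K c y S n j) := fun j => by
    unfold nu
    rcases le_total (S.chi c n j) (y + 2 * c.bl) with e | e
    · rw [min_eq_left e]; exact .inl ⟨e, by linarith only [KA]⟩
    · rw [min_eq_right e]; exact .inr ⟨e, by linarith only [abl, KA]⟩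
  obtain ν0 : ∀ j, 0 ≤ nu K c y S n j := fun j => by
    rcases reg j with ⟨-, e⟩ | ⟨-, e⟩ <;> linarith only [abl, e, ay, ac j]
  obtain st : S.St c (S.fr (n + 1)) (n + 1) := ⟨by omega, S.fr_sol _, S.fr_self _, by
    rw [S.fr_pred, abs_zero]; exact (exp_pos _).le⟩
  have cw := (Sq.cert_wh hS h.k1 h.k2 lam N.chK_bl st le_rfl).2.2
  have eW : exp (S.Wp c n p) = S.AA c (S.fr (n + 1)) (n + 1) p :=
    exp_log (lt_of_lt_of_le one_pos (S.one_le_AA c _ _ _))
  obtain wpos : ∀ j, n < j → 0 < S.wp c n j := fun j hj =>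
    S.wh_pos c (by rw [S.fr_self]; exact one_ne_zero) hj
  refine ⟨fun j j1 j2 => ?_, fun i j i1 i2 j2 => ?_, fun j j1 j2 => ?_, fun j j1 j2 => ?_⟩
  · rcases reg j with ⟨-, e⟩ | ⟨e0, e⟩
    · exact (B.i6 j j1 j2).2.2.1.trans (exp_le_exp.2 (by linarith only [abl, e, ac j]))
    obtain j3 : n + 1 ≤ j - 1 := by
      by_contra hn
      obtain rfl : j = n + 1 := by omega
      rw [S.chi_succ] at e0
      linarith only [hy, bl, e0, (S.ch1_mem c N.chK_bl (n + 1)).2]
    obtain ⟨c1, c2⟩ := cw (j - 1) j3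
    rw [sub_add_cancel] at c1 c2
    obtain c3 := c2.trans (mul_le_mul_of_nonneg_left (S.AA_mono c _ _ j2) (by norm_num))
    obtain c4 := c1.trans (mul_le_mul_of_nonneg_left c3 (by linarith only [L]))
    obtain c5 := exp_le_exp.2 (show 35 + (c.lam + S.Wp c n p) ≤ nu K c y S n j by linarith only [abl, l0, b1, b2, u1, u2, ay, e])
    rw [exp_add, exp_add, Cs.lam, exp_log (by linarith only [L]), eW] at c5
    obtain c6 := mul_le_mul_of_nonneg_right (add_one_le_exp 35) (show 0 ≤ c.L *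
      S.AA c (S.fr (n + 1)) (n + 1) p from mul_nonneg (by linarith only [L]) (eW ▸ (exp_pos _).le))
    change S.wh c _ _ j ≤ _
    linarith only [c4, c5, c6]
  · obtain w := wpos j (by omega)
    rcases i1.eq_or_lt with rfl | i1
    · exact (S.abs_le_wh c _ (by omega)).trans (le_mul_of_one_le_left w.le (one_le_exp (ν0 _)))
    rcases reg i with ⟨-, e⟩ | ⟨-, e⟩
    · obtain ⟨-, c1, -, c2⟩ := B.i6 i i1 (by omega)
      obtain c3 := (c2 j i2 j2).trans (mul_le_of_le_one_right (exp_pos _).le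
        (by linarith only [exp_pos (-S.chi c i p / 4)]))
      rw [Sq.Bc, div_le_iff₀ w] at c3
      obtain c4 : |S.fr (i + 1) j| * 1 * exp (-(c.a / 8 * S.chi c n i)) ≤
          |S.fr (i + 1) j| * c.L * S.wp c n i := by gcongr; linarith only [L]
      have c5 := mul_le_mul_of_nonneg_right (c4.trans c3) (exp_pos (c.a / 8 * S.chi c n i)).le
      rw [mul_one, mul_assoc, ← exp_add, neg_add_cancel, exp_zero, mul_one, mul_right_comm,
        ← exp_add] at c5
      exact c5.trans (mul_le_mul_of_nonneg_right (exp_le_exp.2 (by linarith only [abl, e, ac i])) w.le)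
    · refine ((single_le_sum (f := fun i => |S.fr (i + 1) j|) (fun _ _ => abs_nonneg _)
        (mem_Ico.2 ⟨i1, i2⟩)).trans (B.i8 j (by omega) j2)).trans
        (mul_le_mul_of_nonneg_right (exp_le_exp.2 (by linarith only [abl, W0, b1, u1, ay, e])) w.le)
  · rcases j1.eq_or_lt with rfl | j1
    · rw [S.NK_self, mul_zero]; exact ν0 _
    rcases reg j with ⟨-, e⟩ | ⟨-, e⟩
    · linarith only [abl, e, (B.i6 j j1 j2).1, ac j]
    have c1 := B.nk
    have c2 := S.NK_mono (le_refl n) j2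
    have c3 := S.NK_nonneg n j
    obtain c4 : S.xp c n p ≤ S.Wp c n p + c.C1 * S.load c n (S.Wp c n p) + 1 + c.lam := by
      have d1 := mul_le_of_le_one_left W0 h.ε.2
      obtain d2 := mul_le_of_le_one_left (show 0 ≤ c.lam by linarith only [lam]) h.ε.2
      unfold Sq.xp Sq.xx Cs.cc; linarith only [lam, d1, d2]
    have c5 := mul_le_mul_of_nonneg_left c4 CN
    obtain c6 := mul_le_mul_of_nonneg_left c2 (show 0 ≤ c.lam by linarith only [lam])
    have c7 := le_mul_of_one_le_left c3 lam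
    linarith only [abl, lam, W0, l0, b1, b2, ay, e, c1, c5, c6, c7]
  · rcases reg j with ⟨-, e⟩ | ⟨-, e⟩
    · have c1 := S.chi_ge c N.chK_bl j1
      obtain c2 := mul_le_mul_of_nonneg_right N.chK_ge
        (show (0 : ℝ) ≤ ((j - n : ℤ) : ℝ) by exact_mod_cast sub_nonneg.2 j1)
      obtain c3 := exp_le_exp.2 (show c.a * c.bl + c.a * S.chi c n j ≤ 2 * nu K c y S n j by
        linarith only [abl, e, ac j])
      obtain c4 : c.bl ≤ exp (c.a * c.bl) := by
        have d1 := N.L.2.1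
        obtain d2 : 1 * 1 ≤ c.CG * c.L := mul_le_mul N.L.2.2 (by linarith only [L]) zero_le_one
          (by linarith only [N.L.2.2])
        nlinarith only [bl, d1, d2]
      obtain c5 := mul_le_mul c4 (add_one_le_exp (c.a * S.chi c n j)) (by linarith only [ac j])
        (exp_pos _).le
      have c6 := mul_le_mul_of_nonneg_right abl (ch n j)
      rw [exp_add] at c3
      linarith only [bl, c1, c2, c3, c5, c6, ch n j]
    · have c1 := B.i7
      have c2 := B.len
      obtain c3 : (S.Wp c n p + c.lam) / c.lam ≤ exp (S.Wp c n p) := by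
        rw [div_le_iff₀ (by linarith only [lam])]
        obtain this := mul_le_mul_of_nonneg_right (add_one_le_exp (S.Wp c n p))
          (show 0 ≤ c.lam by linarith only [lam])
        linarith only [this, le_mul_of_one_le_right W0 lam]
      obtain c4 : exp (c.d1 / 2 * S.Wp c n p + 3 * c.d1 * c.C1 * S.load c n (S.Wp c n p)) ≤
          exp (c.a * (y + c.bl)) := exp_le_exp.2 (by
        linarith only [abl, W0, b1, u1, ay, l0, mul_le_of_le_one_left W0 h.d.2, mul_le_of_le_one_left l0 h.d.2])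
      obtain c5 := mul_le_mul (show (Ls.length : ℝ) ≤ 10 * exp (S.Wp c n p) by
        rw [mul_div_assoc] at c2; linarith only [c2, c3]) c4 (exp_pos _).le (by positivity)
      obtain c6 := exp_le_exp.2
        (show 22 + (S.Wp c n p + c.a * (y + c.bl)) ≤ 2 * nu K c y S n j by linarith only [abl, l0, b1, u1, ay, e])
      obtain c7 : 1 ≤ exp (S.Wp c n p + c.a * (y + c.bl)) := one_le_exp (by linarith only [abl, W0, ay])
      have c8 := mul_le_mul_of_nonneg_right (add_one_le_exp 22) (zero_le_one.trans c7)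
      obtain c9 : ((j - n : ℤ) : ℝ) ≤ ((p - n : ℤ) : ℝ) := by exact_mod_cast sub_le_sub_right j2 n
      rw [exp_add] at c6
      rw [exp_add] at c7 c8
      rw [exp_add (S.Wp c n p)] at c6
      linarith only [c1, c5, c6, c7, c8, c9]

theorem Pb_shift (S : Sq) (k i j : ℤ) : (S.shift k).Pb i j = S.Pb (i + k) (j + k) := by
  unfold Sq.Pb
  rw [← Finset.map_add_right_Ioc, prod_map]
  rfl

theorem mu_eq (K : ℕ) (c : Cs) (y : ℝ) (S : Sq) (n : ℤ) {j : ℤ} (hj : 0 ≤ j) :
    mu K c y (S.shift n) j = exp (2 * nu K c y S n (j + n)) := by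
  obtain e : (S.shift n).chi c j 0 = 0 := by rw [Sq.chi, Ioc_eq_empty (by omega), sum_empty]
  rw [mu, chd, e, zero_add, S.chi_shift, zero_add, nu]
  congr 1; ring

theorem D_eq (c : Cs) (θ : ℝ) (S : Sq) (n j : ℤ) :
    Dd c θ (S.shift n) j = exp (-θ * S.chi c n (j + n)) := by rw [Dd, S.chi_shift, zero_add]

theorem geo {x : ℝ} {m : ℕ} (h : (m : ℝ) / 3 ≤ x) : exp (-x) ≤ (3 / 4) ^ m := by
  obtain h1 : exp (-(1 / 3 : ℝ)) ≤ 3 / 4 := by
    rw [exp_neg, inv_le_comm₀ (exp_pos _) (by norm_num)]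
    linarith only [add_one_le_exp (1 / 3 : ℝ)]
  refine le_trans ?_ (pow_le_pow_left₀ (exp_pos _).le h1 m)
  rw [← exp_nat_mul]; exact exp_le_exp.2 (by linarith only [h])

theorem fcr0 (h : Kf K E c) : FCR_s K E c := by
  intro S n J Ls y θ hS n0 R B hy hW θ1 θ2
  rw [add_comm n J] at R B hW
  obtain ⟨c1, c2, c3, c4⟩ := core h hS n0 B hy hW
  have N := h.nu
  have a0 := N.a0
  have bl := N.bl_ge
  obtain abl : 10000 ≤ c.a * c.bl := by have := N.abl; norm_num at this; exact this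
  have L := N.L_ge
  have lam := h.lam
  have ch := N.chi_nonneg S
  obtain J1 : 1 ≤ J := by have := R.le; omega
  obtain KA : 0 ≤ (K : ℝ) * (c.a * c.bl) := by (clear * - a0 bl; positivity)
  obtain lo : ∀ j, c.a * c.bl ≤ nu K c y S n j := fun j => by
    obtain this := mul_nonneg a0.le (le_min (ch n j) (show 0 ≤ y + 2 * c.bl by linarith only [hy, bl]))
    unfold nu; linarith only [abl, KA, this]
  obtain mo : ∀ i j, i ≤ j → nu K c y S n i ≤ nu K c y S n j := fun i j hij => by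
    obtain this := mul_le_mul_of_nonneg_left (min_le_min_right (y + 2 * c.bl)
      (S.chi_mono c (by linarith only [N.chK_ge]) N.chK_bl (le_refl n) hij)) a0.le
    unfold nu; linarith only [this]
  obtain big : ∀ j, 0 ≤ j → 2 * c.L ≤ mu K c y (S.shift n) j := fun j hj => by
    have d1 := N.L.2.1
    obtain d2 : 1 * c.L * 1 ≤ c.CG * c.L * c.bl :=
      mul_le_mul (mul_le_mul_of_nonneg_right N.L.2.2 (by linarith only [L])) (by linarith only [bl]) zero_le_one
        (mul_nonneg (by linarith only [N.L.2.2]) (by linarith only [L]))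
    rw [mu_eq _ _ _ _ _ hj]
    linarith only [L, d1, d2, abl, exp_le_exp.2 (show c.a * c.bl ≤ 2 * nu K c y S n (j + n) by linarith only [abl, lo (j + n)])]
  obtain kL : 1 ≤ c.k0 * c.L := by nlinarith only [L, h.k1]
  have aE := N.aE1
  have e0 : (0 : ℝ) ≤ E := Nat.cast_nonneg E
  have k0 : (0 : ℝ) ≤ K := Nat.cast_nonneg K
  refine ⟨⟨J1, fun j a _ => hS.b_pos (by omega), fun j a _ => ?_, fun j a _ => ?_,
    fun j a _ => by linarith only [L, big j a], fun i j a b _ => ?_, fun j a b => ?_,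
    fun i j a b d => ?_, fun i a b => ?_, ?_, fun j _ _ => exp_pos _, fun i j a b d => ?_,
    fun e he j i a b d => ?_⟩, ?_⟩
  · refine ((hS.b_hi (j + n) (2 / 100) (by omega) (by norm_num)).trans ?_).trans (big j (by omega))
    obtain this := exp_le_one_iff.2 (show -c.bl ≤ 0 by linarith only [bl])
    unfold Sq.bb; split_ifs <;> nlinarith only [a0, L, aE, this, h.k2]
  · refine ((hS.a_hi (j + n) (by omega)).trans ?_).trans (big j (by omega))
    obtain this : 1 / c.lam ≤ 1 := (div_le_one (by linarith only [lam])).2 lam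
    nlinarith only [this, L]
  · rw [mu_eq _ _ _ _ _ a, mu_eq _ _ _ _ _ (a.trans b)]
    exact exp_le_exp.2 (by linarith only [b, mo (i + n) (j + n) (by omega)])
  · obtain this := c4 (j + n) (by omega) (by omega)
    rwa [add_sub_cancel_right, ← mu_eq _ _ _ _ _ a] at this
  · rw [S.fr_shift, add_right_comm, mu_eq _ _ _ _ _ (by omega), two_mul, exp_add]
    exact (c2 _ _ (by omega) (by omega) (by omega)).trans (mul_le_mul
      (exp_le_exp.2 (mo _ _ (by omega))) (c1 _ (by omega) (by omega)) (S.wh_nonneg c _ _ _)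
      (exp_pos _).le)
  · rw [S.fr_shift, S.fr_shift, add_right_comm, mu_eq _ _ _ _ _ a, add_comm 1 n, ← R.whm]
    exact (c2 _ _ (by omega) (by omega) le_rfl).trans (mul_le_mul_of_nonneg_right
      (exp_le_exp.2 (by linarith only [abl, lo (i + n)])) (S.wh_nonneg c _ _ _))
  · rw [D_eq, zero_add, S.chi_self, mul_zero, exp_zero]
  · rw [Pb_shift, D_eq, D_eq, mu_eq _ _ _ _ _ (a.trans b), ← exp_add]
    obtain d1 := (hS.Pb_le (θ := 2 / 100) (by norm_num) (i := i + n) (j := j + n) (by omega)).2.trans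
      (S.PB_le c (by linarith only [h.k1]) kL N.chK_bl (by omega) (by linarith only [lam]))
    refine (mul_le_mul_of_nonneg_right d1 (exp_pos _).le).trans ?_
    rw [← exp_add, S.chi_add c (i := n) (j := i + n) (l := j + n) (by omega) (by omega)]
    obtain d2 := mul_le_mul_of_nonneg_left (S.NK_mono (i := i + n) (i' := n) (by omega)
      (le_refl (j + n))) (show 0 ≤ c.lam + 1 by linarith only [lam])
    have d3 := mul_le_mul_of_nonneg_right θ2 (ch (i + n) (j + n))
    exact exp_le_exp.2 (by linarith only [abl, d2, d3, a, b, d, c3 (j + n) (by omega) (by omega), lo (j + n)])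
  · obtain d0 := S.chi_add c (i := n) (j := j + n) (l := i + n) (by omega) (by omega)
    obtain d1 := S.chi_ge c N.chK_bl (show j + n ≤ i + n by omega)
    have x0 := ch (j + n) (i + n)
    obtain d2 : min (S.chi c n (i + n)) (y + 2 * c.bl) ≤
        min (S.chi c n (j + n)) (y + 2 * c.bl) + S.chi c (j + n) (i + n) := by
      rw [← min_add_add_right]; exact min_le_min d0.le (by linarith only [x0])
    obtain d3 : (((i - j).toNat : ℕ) : ℝ) = ((i + n - (j + n) : ℤ) : ℝ) := by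
      rw [← Int.cast_natCast]; congr 1; omega
    have d4 := mul_le_mul_of_nonneg_right (log_two_gt_d9.le.trans N.chK.1)
      (d3 ▸ Nat.cast_nonneg (α := ℝ) (i - j).toNat)
    obtain d5 := geo (x := 49 / 100 * S.chi c (j + n) (i + n)) (m := (i - j).toNat) (by
      linarith only [d1, x0, d3, d4, Nat.cast_nonneg (α := ℝ) (i - j).toNat])
    have dp : 0 < Dd c θ (S.shift n) j := exp_pos _
    refine le_trans ?_ (mul_le_mul_of_nonneg_left d5
      (mul_pos (pow_pos (mu_pos _ _ _ _ _) _) dp).le)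
    rw [D_eq, D_eq, mu_eq _ _ _ _ _ a, mu_eq _ _ _ _ _ (a.trans b), ← exp_nat_mul,
      ← exp_nat_mul, ← exp_add, ← exp_add, ← exp_add]
    refine exp_le_exp.2 ?_
    obtain d6 : (e : ℝ) ≤ E := by exact_mod_cast he
    obtain d7 : 0 ≤ (e : ℝ) * c.a := by (clear * - a0; positivity)
    obtain d8 : (e : ℝ) * c.a ≤ 1 / 10000 := by nlinarith only [a0, aE, d6, d7]
    have d9 := mul_le_mul_of_nonneg_left d2 d7
    have d10 := mul_le_mul_of_nonneg_right d8 x0
    have d11 := mul_le_mul_of_nonneg_right θ1 x0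
    unfold nu
    rw [d0] at d9 ⊢
    linarith only [x0, d9, d10, d11]
  · obtain d0 : S.chi c n (1 + n) = c.bl := by
      rw [add_comm, S.chi_succ, Sq.ch1, B.kz.1]; ring
    rw [D_eq, mu_eq _ _ _ _ _ zero_le_one, ← exp_nat_mul, ← exp_add, nu, d0,
      min_eq_left (by linarith only [hy, bl]), del]
    refine exp_le_exp.2 ?_
    have d1 := N.aE
    obtain d2 : (E : ℝ) * (K + 38) ≤ 2 * ((E : ℝ) + K + 30) ^ 2 := by nlinarith only []
    have d3 := mul_le_mul_of_nonneg_right d2 a0.le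
    obtain d4 := mul_le_mul_of_nonneg_right (show (E : ℝ) * (K + 38) * c.a ≤ 1 / 4 by linarith only [d1, d3])
      (show 0 ≤ c.bl by linarith only [bl])
    obtain d5 := mul_le_mul_of_nonneg_right θ1 (show 0 ≤ c.bl by linarith only [bl])
    linarith only [d4, d5]

end FCR

theorem fcr (K E : ℕ) : Hier (FCR_s K E) := (FCR.hK K E).mono fun _ => FCR.fcr0

end Pool.Agent.MP_9cbfe4_an.SS

end

/-! ### Part CLOW -/

section

/-! Row CLOW: the count of labels with small load. -/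

namespace Pool.Agent.MP_9cbfe4_an

open Finset Filter Topology

noncomputable section

namespace CLOW
variable {c : Cs}

/-- classes of small diameter give a cover -/
theorem cover {Z : Type} (f : Z → ℝ) {n : ℕ} (cl : Z → Fin n) {B l : ℝ} (hn : (n : ℝ) ≤ B)
    (h : ∀ z z', cl z = cl z' → |f z' - f z| ≤ l) {A : Set ℝ} (hA : ∀ u ∈ A, ∃ z, f z = u) :
    CovI A B l := by
  classical
  refine ⟨univ.image fun i : Fin n => sInf (f '' {z | cl z = i}), ?_, fun u hu => ?_⟩
  · refine le_trans ?_ hn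
    exact_mod_cast card_image_le.trans (by simp)
  · obtain ⟨z, rfl⟩ := hA u hu
    obtain lo : ∀ x ∈ f '' {z' | cl z' = cl z}, f z - l ≤ x := by
      rintro _ ⟨z', e, rfl⟩
      linarith only [(abs_le.1 (h z z' e.symm)).1]
    refine Set.mem_iUnion₂.2 ⟨_, mem_image_of_mem _ (mem_univ (cl z)),
      csInf_le ⟨_, lo⟩ ⟨z, rfl, rfl⟩, ?_⟩
    linarith only [le_csInf (s := f '' {z' | cl z' = cl z}) ⟨_, z, rfl, rfl⟩ lo]

/-- refine classes by a subset of a finite set attached to the class -/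
theorem refine {Z : Type} {n : ℕ} (cl : Z → Fin n) (R : Fin n → Finset ℕ) (p : Z → ℕ → Prop)
    {B : ℝ} (hB : 0 ≤ B) (hR : ∀ z, (2 : ℝ) ^ (R (cl z)).card ≤ B) :
    ∃ (m : ℕ) (cl' : Z → Fin m), (m : ℝ) ≤ n * B ∧
      ∀ z z', cl' z = cl' z' → cl z = cl z' ∧ ∀ j ∈ R (cl z), p z j ↔ p z' j := by
  classical
  have := YA.classes cl univ (fun _ => mem_univ _) B hB
    (fun z z' => cl z = cl z' ∧ ∀ j ∈ R (cl z), p z j ↔ p z' j) fun i => by
      rcases isEmpty_or_nonempty {z // cl z = i} with hE | ⟨⟨z0, rfl⟩⟩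
      · exact ⟨0, fun z => hE.elim z, by simpa using hB, fun z => hE.elim z⟩
      refine ⟨_, fun z => (R (cl z0)).powerset.equivFin
        ⟨(R (cl z0)).filter (p z), mem_powerset.2 (filter_subset _ _)⟩, ?_, fun z z' e => ?_⟩
      · rw [card_powerset]; exact_mod_cast hR z0
      · have e' := congrArg Subtype.val ((R (cl z0)).powerset.equivFin.injective e)
        refine ⟨z.2.trans z'.2.symm, fun j hj => ?_⟩
        rw [z.2] at hj
        simpa [hj] using Finset.ext_iff.1 e' j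
  simpa using this

theorem sq (N : YSH.Nm c) : 10 * c.a ≤ Real.sqrt c.a ∧ Real.sqrt c.a ≤ 1 / 10 := by
  have a0 := N.a0
  have a1 := N.a1
  exact ⟨Real.le_sqrt_of_sq_le (by nlinarith only [a0, a1]), Real.sqrt_le_iff.2 ⟨by norm_num, by linarith only [a1]⟩⟩

theorem ay (N : YSH.Nm c) {y : ℝ} (hy : c.bl / 4 < y) :
    10000 ≤ c.a * c.bl ∧ 2500 ≤ c.a * y ∧ 250000 ≤ y := by
  have a0 := N.a0
  have a1 := N.a1
  obtain b0 : 0 < c.bl := by linarith only [N.kb, N.k0, Real.log_pos one_lt_two]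
  obtain ab : 10000 ≤ c.a * c.bl := by nlinarith only [a1, a0, N.ab]
  obtain this : 2500 ≤ c.a * y := by nlinarith only [ab, hy, a0]
  exact ⟨ab, this, by nlinarith only [a1, ab, hy, a0]⟩

/-- number of regular indices -/
theorem card_Rg (N : YSH.Nm c) (hC : 0 < c.C0) {S : Sq} {ξ n y s w A Rg} (hy : c.bl / 4 < y)
    (T : S.TameW c ξ n y s w A Rg) : (Rg.card : ℝ) ≤ S.load c n (y / c.C0) + 3 * (c.a * y) := by
  classical
  obtain ⟨s0, sn, c1, -, -, -, -, -, -, -, sub, reg, runs, -⟩ := T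
  obtain ⟨ab, a2, y0⟩ := ay N hy
  obtain k0 : 0 < c.chK := by linarith only [N.k0, Real.log_pos one_lt_two]
  obtain b0 : 0 < c.bl := by linarith only [k0, N.kb]
  have l0 := S.load_nonneg c n (y / c.C0)
  obtain hw : 2 * c.w0 ≤ 2 / 100 := by linarith only [N.big.w0_le]
  obtain q := YSH.card_le S Rg (s := s) (fun h => by have := mem_Ico.1 (sub h); omega)
    (fun i hi => (reg i hi).1.trans hw) n sn
  rw [filter_mem_eq_inter, inter_eq_right.2 sub] at q
  obtain q1 : (if n - 1 ∈ Rg then (1 : ℝ) else 0) ≤ 1 := by split_ifs <;> norm_num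
  obtain q2 : y / c.bl ≤ c.a * y / 100 := by
    rw [div_le_iff₀ b0]; nlinarith only [ab, y0]
  obtain q3 : S.NK (s - 1) (n - 1) ≤ S.load c n (y / c.C0) + c.a * y + 2 := by
    rcases sn.eq_or_lt with rfl | h
    · rw [S.NK_self]; linarith only [a2, l0]
    obtain r0 := S.NK_mono (le_refl (s - 1)) (show n - 1 ≤ n by omega)
    obtain r1 := S.NK_add (show s - 1 ≤ s + 1 by omega) (show s + 1 ≤ n by omega)
    obtain r2 := S.NK_le (show s - 1 ≤ s + 1 by omega)
    obtain r3 : ((s + 1 - (s - 1) : ℤ) : ℝ) = 2 := by push_cast; ring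
    have t1 := (S.Nw_spec c k0 N.kb n y).1
    obtain t2 : n - S.Nw c n y ≤ s + 1 := by
      by_contra h'
      obtain this := S.chi_mono c k0.le N.kb (show s + 1 ≤ n - S.Nw c n y by omega) (le_refl n)
      linarith only [c1, t1, this]
    obtain t3 := S.sum_le_qu c.Q t2 (show s + 1 ≤ n by omega)
    obtain t4 := S.chi_eq c (show s + 1 ≤ n by omega)
    have t5 := mul_nonneg k0.le (S.NK_nonneg (s + 1) n)
    obtain t7 : c.bl * (((n - (s + 1) : ℤ) : ℝ) - S.NK (s + 1) n) ≤ y := by linarith only [c1, t4, t5]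
    have t8 := mul_le_mul_of_nonneg_left t7 N.a0.le
    unfold Sq.load
    rw [mul_div_cancel₀ _ hC.ne']
    unfold Cs.Q at t3 ⊢
    linarith only [r0, r1, r2, r3, t3, t8]
  linarith only [runs, a2, q, q1, q2, q3]

/-- contraction over a long window -/
theorem ko_le (N : YSH.Nm c) {S : Sq} (ok : S.OK c) {ξ n y s w A Rg} (hy : c.bl / 4 < y)
    (T : S.TameW c ξ n y s w A Rg) (h : y ≤ S.chi c s n) :
    Real.exp (Real.sqrt c.a * y / 4) * S.kp w s n ≤ tiny y ^ 2 := by
  obtain ⟨s0, sn, -, -, ce, -, -, -, -, dc, -⟩ := T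
  obtain ⟨-, -, y0⟩ := ay N hy
  obtain lt : s < n := sn.lt_of_ne fun e => by rw [e, S.chi_self] at h; linarith only [h, y0]
  obtain a := (mul_le_mul_of_nonneg_right (ok.Pb_le (θ := 15 / 1000) (by norm_num)
    (show -1 ≤ s by omega)).2 (ce.pos' s le_rfl sn).le).trans (dc s le_rfl lt).1
  rw [← div_le_iff₀ (ce.pos' n sn le_rfl)] at a
  refine (mul_le_mul_of_nonneg_left a (Real.exp_pos _).le).trans ?_
  obtain b : (100 : ℝ) ≤ Real.exp (y / 10) := by linarith only [y0, Real.add_one_le_exp (y / 10)]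
  refine (mul_le_mul_of_nonneg_left (mul_le_mul_of_nonneg_right b (Real.exp_pos _).le)
    (Real.exp_pos _).le).trans ?_
  rw [tiny, ← Real.exp_nat_mul, ← Real.exp_add, ← Real.exp_add]
  refine Real.exp_le_exp.2 ?_
  obtain this := mul_le_mul_of_nonneg_right (sq N).2 (show 0 ≤ y by linarith only [y0])
  obtain this := mul_le_mul_of_nonneg_left h (show 0 ≤ 1 - 3 * c.a by linarith only [N.a1])
  obtain this := mul_le_mul_of_nonneg_right N.a1 (show 0 ≤ y by linarith only [y0])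
  push_cast
  linarith

theorem tiny_sq {y : ℝ} (hy : 12 ≤ y) : tiny y ^ 2 ≤ tiny y / 4 := by
  obtain a : tiny y ≤ 1 / 4 := by
    rw [tiny, neg_div, Real.exp_neg, one_div]
    exact inv_anti₀ (by norm_num) (by linarith only [hy, Real.add_one_le_exp (y / 4)])
  have : 0 < tiny y := Real.exp_pos _
  nlinarith only [a, this]

theorem main (N : YSH.Nm c) (hC : 0 < c.C0) (hS : SOK_s c) (h5 : Y5_s c) : CLOW_s c := by
  intro M hM y tU Z φ s w A Rg H lab F l l0
  obtain ⟨-, a2, y0⟩ := ay N F.y_lo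
  obtain ⟨n, cl, R, n1, r1, r2⟩ := h5 M hM y tU
    {z // ((φ z).S M).load c (φ z).n (y / c.C0) ≤ l} (fun z => φ z) (fun z => s z) (fun z => w z)
    (fun z => A z) (fun z => Rg z) H (fun _ => H) ⟨F.y_lo, fun z => F.ht z, fun z => F.hv z,
      fun z => F.far z, fun z => F.tame z, fun z => F.len z⟩ fun _ => le_rfl
  obtain ⟨m, cl', m1, m2⟩ := refine cl R (fun z j => 0 < (φ z).Xo M j)
    (B := 2 ^ l * Real.exp (3 * (c.a * y))) (by positivity) fun z => by
      obtain a : (R (cl z)).card ≤ (Rg z).card :=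
        card_le_card_of_injOn (fun j : ℕ => (φ z).n - j) (fun j hj => (r1 z j hj).2)
          fun i _ j _ (e : (φ z).n - i = (φ z).n - j) => by omega
      have b := (Nat.cast_le.2 a).trans (card_Rg N hC F.y_lo (F.tame z))
      rw [← Real.rpow_natCast]
      refine (Real.rpow_le_rpow_of_exponent_le one_le_two
        (b.trans (add_le_add_left z.2 _))).trans ?_
      rw [Real.rpow_add two_pos]
      refine mul_le_mul_of_nonneg_left ?_ (by positivity)
      rw [Real.rpow_def_of_pos two_pos]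
      exact Real.exp_le_exp.2 (by nlinarith only [a2, Real.log_two_lt_d9])
  refine cover (fun z => lab z.1) cl' (m1.trans ?_) (fun z z' e => ?_)
    fun u ⟨z, h, e⟩ => ⟨⟨z, h⟩, e⟩
  · refine (mul_le_mul_of_nonneg_right n1 (by positivity)).trans ?_
    rw [mul_left_comm, ← Real.exp_add, mul_comm]
    refine mul_le_mul_of_nonneg_right (Real.exp_le_exp.2 ?_) (by positivity)
    linarith only [a2, y0, mul_le_mul_of_nonneg_right (sq N).1 (show 0 ≤ y by linarith only [y0])]
  have cl := (r2 z z' (m2 z z' e).1).2 (m2 z z' e).2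
  have t0 : 0 < tiny y := Real.exp_pos _
  rcases lt_or_ge (((φ z).S M).chi c (s z) (φ z).n) y with h | h
  · linarith only [t0, F.upT z z' h cl]
  have a := ko_le (S := (φ z).S M) N ((hS M hM _ (F.ht z).1).2.1 _ (F.hv z)).2 F.y_lo (F.tame z) h
  have b := F.up z z' H le_rfl cl
  rw [Fd.ko, show (φ z).n - H = s z by have := F.len z; omega] at b
  linarith only [t0, a, b, y0, tiny_sq (show 12 ≤ y by linarith only [y0])]
end CLOW

theorem clow : Hier fun c => SOK_s c → Y5_s c → CLOW_s c :=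
  (YSH.nm.and (Hier.C0_ge fun _ _ _ _ => 1)).mono fun _ h => CLOW.main h.1 (by linarith only [h.2])

end
end Pool.Agent.MP_9cbfe4_an

end

/-! ### Part CLOC -/

section

/-! Row CLOC: the local count of labels. -/

namespace Pool.Agent.MP_9cbfe4_an

open Finset Filter Topology

noncomputable section

namespace CLOC
open CLOW
variable {c : Cs}

theorem pick (P : ℕ → Prop) (H : ℕ) : ∃ k ≤ H, (∀ j < k, ¬ P j) ∧ (k = H ∨ P k) := by
  classical
  obtain ex : ∃ j, j = H ∨ P j := ⟨H, .inl rfl⟩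
  exact ⟨Nat.find ex, Nat.find_min' ex (.inl rfl), fun j hj h => Nat.find_min ex hj (.inr h),
    Nat.find_spec ex⟩

theorem sign {u v : ℝ} (hu : dP u ≤ 2 / 100) (hv : dP v ≤ 2 / 100) (h : |v - u| ≤ 1) :
    0 < u ↔ 0 < v := by
  obtain pi := Real.pi_gt_three
  obtain h := abs_le.1 h
  unfold dP at hu hv
  rcases min_le_iff.1 hu with r | r <;> rcases min_le_iff.1 hv with q | q <;>
    have r := abs_le.1 r <;> have q := abs_le.1 q <;>
    constructor <;> intro <;> linarith [r.1, r.2, q.1, q.2, h.1, h.2]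

/-- number of steps between the scales `l1` and `l2` -/
theorem gap (N : YSH.Nm c) {S : Sq} (ok : S.OK c) {ξ n y s w A Rg} (hy : c.bl / 4 < y)
    (T : S.TameW c ξ n y s w A Rg) {p q : ℤ} (h1 : s < p) (h2 : p ≤ q) (h3 : q ≤ n) {l1 l2 : ℝ}
    (l0 : 0 < l2) (hl : l2 ≤ l1) (a : l2 / 2 < Real.exp (Real.sqrt c.a * y / 4) * S.kp w p n)
    (b : S.kp w q n ≤ Real.exp (Real.sqrt c.a * y / 4) * (2 * l1)) :
    c.chK * (q - p : ℤ) ≤ Real.log (l1 / l2) + (2 + Real.sqrt c.a * y / 2 + 30 * (c.a * y)) := by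
  obtain ⟨s0, sn, c1, -, ce, -, -, -, pw, -⟩ := T
  obtain ⟨-, a2, y0⟩ := ay N hy
  obtain k0 : 0 < c.chK := by linarith only [N.k0, Real.log_pos one_lt_two]
  obtain r1 : 1 ≤ l1 / l2 := (one_le_div l0).2 hl
  obtain lg := Real.log_nonneg r1
  obtain s1 : 0 ≤ Real.sqrt c.a * y := by (clear * - y0; positivity)
  rcases h2.eq_or_lt with rfl | h2
  · simp only [sub_self, Int.cast_zero, mul_zero]; linarith only [a2, lg, s1]
  refine (S.chi_ge c N.kb h2.le).trans ?_
  obtain wp := ce.pos' p h1.le (by omega)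
  obtain wq := ce.pos' q (by omega) h3
  obtain wn := ce.pos' n sn le_rfl
  obtain x1 : S.chi c p n ≤ y :=
    (S.chi_mono c k0.le N.kb (show s + 1 ≤ p by omega) le_rfl).trans c1.le
  obtain x2 : S.chi c p q ≤ y := (S.chi_mono c k0.le N.kb le_rfl h3).trans x1
  obtain e : S.kp w p n = S.Pb p q * w p / w q * S.kp w q n := by
    unfold Sq.kp; rw [S.Pb_mul h2.le h3]; field_simp
  obtain d := (mul_le_mul_of_nonneg_right (ok.Pb_le (θ := 15 / 1000) (by norm_num)
    (show -1 ≤ p by omega)).2 wp.le).trans (pw p q (by omega) h2 h3).2.1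
  rw [← div_le_iff₀ wq] at d
  obtain kq : 0 ≤ S.kp w q n := div_nonneg (mul_nonneg
    (ok.Pb_le (θ := 15 / 1000) (by norm_num) (show -1 ≤ q by omega)).1.le wq.le) wn.le
  obtain f := a.trans_le (mul_le_mul_of_nonneg_left
    (e.le.trans (mul_le_mul d b kq (Real.exp_pos _).le)) (Real.exp_pos _).le)
  obtain g : 1 ≤ Real.exp (Real.sqrt c.a * y / 4 + (3 * c.a * (S.chi c p n + 2 * c.bl) -
      (1 - 3 * c.a) * S.chi c p q) + Real.sqrt c.a * y / 4 + 2 + Real.log (l1 / l2)) := by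
    rw [Real.exp_add, Real.exp_add, Real.exp_add, Real.exp_add, Real.exp_log (by linarith only [r1]),
      ← mul_div_assoc, one_le_div l0]
    obtain e2 : 4 ≤ Real.exp 2 := by
      linarith only [Real.quadratic_le_exp_of_nonneg (show (0 : ℝ) ≤ 2 by norm_num)]
    refine le_trans (by linarith only [f]) (mul_le_mul_of_nonneg_right
      (mul_le_mul_of_nonneg_left e2 (by positivity)) (by linarith only [l0, hl]))
  obtain g := Real.one_le_exp_iff.1 g
  obtain this := mul_le_mul_of_nonneg_left x2 N.a0.le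
  obtain this := mul_le_mul_of_nonneg_left (show S.chi c p n + 2 * c.bl ≤ 9 * y by linarith only [hy, x1]) N.a0.le
  linarith

theorem main (N : YSH.Nm c) (ha : c.a ≤ 1 / 40000) (hS : SOK_s c) (h5 : Y5_s c) : CLOC_s c := by
  classical
  intro M hM y tU Z φ s w A Rg H lab F x l1 l2 ht hl
  obtain ⟨-, a2, y0⟩ := ay N F.y_lo
  obtain t0 : 0 < tiny y := Real.exp_pos _
  obtain l0 : 0 < l2 := by linarith only [ht, t0]
  obtain g2 := Real.log_two_gt_d9
  obtain g3 := Real.log_two_lt_d9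
  obtain k0 : 0 < c.chK := by linarith only [g2, g3, N.k0]
  obtain ok : ∀ z, ((φ z).S M).OK c := fun z => ((hS M hM _ (F.ht z).1).2.1 _ (F.hv z)).2
  set Λ := Real.exp (Real.sqrt c.a * y / 4) with hΛ
  obtain Λ0 : 0 < Λ := Real.exp_pos _
  choose j1 p1 p2 p3 using fun z => pick (fun j => (φ z).ko M (w z) j < Λ * (l1 + tiny y)) (H + 1)
  choose k q1 q2 q3 using fun z => pick (fun j => Λ * (φ z).ko M (w z) j ≤ l2 / 2) H
  rcases isEmpty_or_nonempty Z with hE | ⟨⟨z0⟩⟩
  · refine ⟨∅, ?_, fun u ⟨_, z, _⟩ => hE.elim z⟩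
    obtain this : 0 < l1 := by linarith only [ht, hl, t0]
    simp only [card_empty, Nat.cast_zero, Cs.S0]
    (clear * - this l0; positivity)
  obtain ⟨n, cl, R, n1, r1, r2⟩ := h5 M hM y tU {z // lab z ∈ Set.Icc x (x + l1)} (fun z => φ z)
    (fun z => s z) (fun z => w z) (fun z => A z) (fun z => Rg z) H (fun z => k z)
    ⟨F.y_lo, fun z => F.ht z, fun z => F.hv z, fun z => F.far z, fun z => F.tame z,
      fun z => F.len z⟩ fun z => q1 z
  set D := 2 + Real.sqrt c.a * y / 2 + 30 * (c.a * y) with hD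
  obtain s1 : 200 * c.a ≤ Real.sqrt c.a := Real.le_sqrt_of_sq_le (by nlinarith only [ha, N.a0])
  obtain s2 := mul_le_mul_of_nonneg_right s1 (show 0 ≤ y by linarith only [y0, g2, g3])
  obtain r0 : 1 ≤ l1 / l2 := (one_le_div l0).2 hl
  obtain lg := Real.log_nonneg r0
  obtain ⟨m, cl', m1, m2⟩ := refine
    (fun z : {z // lab z ∈ Set.Icc x (x + l1)} =>
      finProdFinEquiv (cl z, (⟨j1 z, Nat.lt_succ_of_le (p1 z)⟩ : Fin (H + 2))))
    (fun i => (R (finProdFinEquiv.symm i).1).filter fun j => ((finProdFinEquiv.symm i).2 : ℕ) ≤ j)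
    (fun z j => 0 < (φ z).Xo M j) (B := (l1 / l2) ^ c.dpl * Real.exp (D + 1)) (by (clear * - r0; positivity))
    fun z => by
      simp only [Equiv.symm_apply_apply]
      obtain a : ((R (cl z)).filter fun j => j1 z ≤ j).card ≤ k z - j1 z := by
        rw [← Nat.card_Ico]
        exact card_le_card fun j hj =>
          mem_Ico.2 ⟨(mem_filter.1 hj).2, (r1 z j (mem_filter.1 hj).1).1⟩
      obtain b : c.chK * (((k z - j1 z : ℕ) : ℝ) - 1) ≤ Real.log (l1 / l2) + D := by
        rcases le_or_gt (k z) (j1 z) with h | h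
        · rw [Nat.sub_eq_zero_of_le h]; simp only [Nat.cast_zero]; linarith only [a2, g2, g3, k0, hD, s2, lg]
        obtain u1 := q1 z
        obtain u2 := F.len z
        obtain this := gap N (ok z) F.y_lo (F.tame z) (p := (φ z).n - (k z - 1 : ℕ)) (q := (φ z).n - j1 z)
          (by omega) (by omega) (by omega) l0 hl (not_le.1 (q2 z _ (by omega)))
          (((p3 z).resolve_left (by omega)).le.trans
            (mul_le_mul_of_nonneg_left (by linarith only [ht, hl]) Λ0.le))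
        rw [show (φ z).n - j1 z - ((φ z).n - (k z - 1 : ℕ)) = (k z - j1 z : ℕ) - 1 by omega] at this
        exact_mod_cast this
      refine (pow_le_pow_right₀ one_le_two a).trans ?_
      rw [← Real.exp_log two_pos, ← Real.exp_nat_mul, Real.rpow_def_of_pos (by linarith only [g2, g3, r0]),
        ← Real.exp_add]
      refine Real.exp_le_exp.2 ?_
      obtain d0 : 0 ≤ c.dpl := div_nonneg (by linarith only [g2, g3]) k0.le
      obtain d1 : c.dpl ≤ 1 := (div_le_one k0).2 N.k0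
      obtain d2 : c.dpl * c.chK = Real.log 2 := div_mul_cancel₀ _ k0.ne'
      obtain e := mul_le_mul_of_nonneg_left b d0
      rw [← mul_assoc, d2] at e
      obtain this := mul_le_mul_of_nonneg_right d1 (show 0 ≤ D by linarith only [a2, g2, g3, hD, s2])
      linarith only [g2, g3, e, this]
  refine cover (fun z => lab z.1) cl' (m1.trans ?_) (fun z z' e => ?_)
    fun u ⟨h, z, e⟩ => ⟨⟨z, e ▸ h⟩, e⟩
  · obtain hH : (H : ℝ) + 2 ≤ Real.exp (Real.sqrt c.a * y / 5) := by
      obtain ⟨-, sn, c1, -⟩ := F.tame z0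
      obtain u := F.len z0
      obtain a : c.chK * ((H : ℝ) - 1) ≤ y := by
        rcases sn.eq_or_lt with h | h
        · rw [show H = 0 by omega]; simp only [Nat.cast_zero]; linarith only [y0, g2, g3, k0]
        obtain this := ((φ z0).S M).chi_ge c N.kb (show s z0 + 1 ≤ (φ z0).n by omega)
        rw [show (φ z0).n - (s z0 + 1) = H - 1 by omega] at this
        push_cast at this
        linarith only [c1, this]
      obtain b : (H : ℝ) - 1 ≤ 2 * y := by
        by_contra h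
        nlinarith only [ha, a2, a, y0, g2, g3, h, k0, N.k0]
      obtain e := Real.quadratic_le_exp_of_nonneg (show 0 ≤ Real.sqrt c.a * y / 5 by (clear * - y0; positivity))
      rw [div_pow, mul_pow, Real.sq_sqrt N.a0.le] at e
      nlinarith only [a2, g2, g3, s2, b, e, y0]
    push_cast
    refine (mul_le_mul_of_nonneg_right (mul_le_mul n1 hH (by (clear * -; positivity)) (Real.exp_pos _).le)
      (by (clear * - r0; positivity))).trans ?_
    rw [mul_left_comm, ← Real.exp_add, ← Real.exp_add, mul_comm]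
    exact mul_le_mul_of_nonneg_right (Real.exp_le_exp.2 (by linarith only [a2, g2, g3, hD, s2])) (by (clear * - r0; positivity))
  obtain ⟨e1, e2⟩ := m2 z z' e
  obtain ⟨e3, e4⟩ := Prod.mk.inj (finProdFinEquiv.injective e1)
  obtain e4 : j1 z = j1 z' := congrArg Fin.val e4
  simp only [Equiv.symm_apply_apply, mem_filter] at e2
  obtain dl : |lab z' - lab z| ≤ l1 :=
    abs_le.2 ⟨by linarith only [z.2.2, z'.2.1], by linarith only [z.2.1, z'.2.2]⟩
  obtain hw : 2 * c.w0 ≤ 2 / 100 := by linarith only [g2, g3, N.big.w0_le]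
  have cl := (r2 z z' e3).2 fun j hj => by
    rcases le_or_gt (j1 z) j with h | h
    · exact e2 j ⟨hj, h⟩
    obtain ⟨-, -, -, -, -, -, -, -, -, -, -, g, -⟩ := F.tame z
    obtain ⟨-, -, -, -, -, -, -, -, -, -, -, g', -⟩ := F.tame z'
    refine sign ((g _ (r1 z j hj).2).1.trans hw) ((g' _ (r1 z' j (e3 ▸ hj)).2).1.trans hw)
      (F.sep z z' j ((r1 z j hj).1.le.trans (q1 z)) fun i hi => ?_)
    exact (mul_le_mul_of_nonneg_left (by linarith only [dl]) Λ0.le).trans (not_lt.1 (p2 z i (by omega)))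
  obtain b := F.up z z' _ (q1 z) cl
  rcases q3 z with h | h
  · rw [h] at cl b
    rcases lt_or_ge (((φ z).S M).chi c (s z) (φ z).n) y with h | h
    · linarith only [ht, t0, F.upT z z' h cl]
    obtain a := ko_le N (ok z) F.y_lo (F.tame z) h
    rw [Fd.ko, show (φ z).n - H = s z by have := F.len z; omega] at b
    linarith only [ht, t0, b, a, y0, g2, g3, tiny_sq (show 12 ≤ y by linarith only [y0, g2, g3])]
  · linarith only [ht, t0, b, h]
end CLOC

theorem cloc : Hier fun c => SOK_s c → Y5_s c → CLOC_s c :=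
  (YSH.nm.and (Hier.a_le (fun _ => 1 / 40000) (fun _ _ _ _ _ _ => rfl)
    (Hier.of_all fun _ => by norm_num))).mono fun _ h => CLOC.main h.1 h.2.2

end
end Pool.Agent.MP_9cbfe4_an

end

/-! ### Part EAAll -/

section

/-! Section E-A: assembly. -/

namespace Pool.Agent.MP_9cbfe4_an.E

theorem ea (k : EK) (S : Sk) (La : ℕ → ℕ → ℝ) : S.EA_s k La := by
  intro hk ok jp jet hx
  have fa := Sk.fa k S hk ok jp
  have e1 := Sk.e1 (La := La) fa
  have uc := Sk.uc fa jet e1
  have lk := Sk.link fa jet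
  have int := Sk.int fa jet
  have st := Sk.step fa jet e1 uc lk (Sk.exy fa jet lk) int
  obtain ⟨A, n, hTF, hNC, h⟩ := Sk.e2 fa uc (Sk.chain st) (Sk.tfc fa jet e1) hx
  obtain key : S.Rec A ∧ S.Strong k A ∧ A < n ∧ n < S.N ∧ ∀ ρ j M, (k.par ρ j).Nu →
      S.Tm (k.par ρ j) A n M → ∃ d E R' gE, d.M = M ∧ S.Mid (k.par ρ j) La A n d E R' gE := by
    rcases h with ⟨Z, kk, pv, yy, ch⟩ | ch
    · obtain ⟨-, An, sA⟩ := ch.mem A ch.AZ
      refine ⟨sA.isRec, sA.str, An.lt_of_ne ?_, (ch.mem n ch.nZ).2.2.isRec.1.1, fun ρ j M nu tm =>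
        Sk.midn (Sk.viewn _ S La) (Sk.okn _ S La) (Sk.lkn (Sk.finn _ S La)) fa jet int nu
          A n Z kk pv yy M ch tm⟩
      rintro rfl
      have h1 := ch.ratio
      have h2 := mul_le_mul_of_nonneg_left hk.Kbig sA.isRec.1.2.le
      linarith only [h1, h2, sA.isRec.1.2]
    · exact ⟨ch.isRec, ch.str, ch.An, ch.tf.1.1, fun ρ j M nu tm =>
        Sk.midt _ S La fa jet nu A n M ch tm⟩
  obtain ⟨hA, hs, An, nN, mid⟩ := key
  obtain ⟨hΛ, M, j, hj, nu, tm, fw⟩ := Sk.num k S par hk fa A n hA hs An nN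
  obtain ⟨d, E, R', gE, rfl, m⟩ := mid _ j M nu tm
  obtain ⟨tt, h⟩ := Sk.asm _ S La fa nu A n d E R' gE m hNC
    (Sk.base _ S La fa nu A n d E R' gE m hTF) fw
  exact ⟨⌈S.R A⌉₊, j, ⟨d.M, d.cut, tt⟩, hj, hΛ, ⟨A, hA.1.1, hA.1.2, hs, tm.RA.2, tm.RA.1⟩,
    tm.Mn.trans_lt nN, h⟩

end Pool.Agent.MP_9cbfe4_an.E

end

/-! ### Part PRC -/

section

/-! Row PRC: the number of profiles. -/

namespace Pool.Agent.MP_9cbfe4_an

open Finset Filter Topology

noncomputable section
namespace PRCp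

lemma wprod (d : ℝ) (hd : 0 < d) (π : List ℤ) :
    (π.map fun x : ℤ => d / 6 * Real.exp (-d * |(x : ℝ)|)).prod =
      Real.exp (-(π.length * Real.log (6 / d)) - d * (π.map fun x : ℤ => |(x : ℝ)|).sum) := by
  obtain h : d / 6 = Real.exp (-Real.log (6 / d)) := by
    rw [Real.exp_neg, Real.exp_log (by positivity)]; field_simp
  induction π with
  | nil => simp
  | cons x π ih =>
    simp only [List.map_cons, List.prod_cons, List.sum_cons, List.length_cons, ih]
    rw [h, ← Real.exp_add, ← Real.exp_add]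
    congr 1; push_cast; ring

lemma count (d N Y : ℝ) (hd : 0 < d) (hd1 : d ≤ 1) : ∃ T : Finset (List ℤ),
    (T.card : ℝ) ≤ 4 * Real.exp (d * Y + N * Real.log (6 / d)) ∧
    ∀ π : List ℤ, (π.length : ℝ) ≤ N → (π.map fun x : ℤ => |(x : ℝ)|).sum ≤ Y → π ∈ T := by
  classical
  set w : ℤ → ℝ := fun x => d / 6 * Real.exp (-d * |(x : ℝ)|) with hwd
  obtain hw : ∀ x, 0 ≤ w x := fun x => by positivity
  set F : ℕ → Finset ℤ := fun m => {(m : ℤ), -(m : ℤ)} with hF
  set A := (Ico 0 (⌊Y⌋₊ + 1)).biUnion F with hA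
  set q := Real.exp (-d) with hq
  obtain hq1 : q < 1 := Real.exp_lt_one_iff.2 (by linarith only [hd])
  obtain hq2 : q * (1 + d) ≤ 1 := by
    have h1 := Real.add_one_le_exp d
    obtain h2 : q * Real.exp d = 1 := by rw [hq, ← Real.exp_add]; simp
    have h3 : 0 < q := Real.exp_pos _
    nlinarith only [h2, h1, h3]
  obtain hFm : ∀ m, ∑ x ∈ F m, w x ≤ d / 3 * q ^ m := by
    intro m
    obtain e : ∀ x ∈ F m, w x = d / 6 * q ^ m := by
      intro x hx
      obtain hx' : |(x : ℝ)| = m := by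
        simp only [hF, Finset.mem_insert, Finset.mem_singleton] at hx
        rcases hx with rfl | rfl <;> simp
      simp only [hwd, hx', hq, ← Real.exp_nat_mul]
      congr 2; ring
    rw [Finset.sum_congr rfl e, Finset.sum_const, nsmul_eq_mul]
    obtain h2 : ((F m).card : ℝ) ≤ 2 := by exact_mod_cast Finset.card_le_two
    obtain h3 : 0 ≤ d / 6 * q ^ m := by positivity
    nlinarith only [h2, h3]
  obtain hsum : ∑ x ∈ A, w x ≤ 3 / 4 := by
    refine (KRp.sum_bi _ _ _ hw).trans ((Finset.sum_le_sum fun m _ => hFm m).trans ?_)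
    rw [← Finset.mul_sum]
    have h1 := geom_sum_Ico_le_of_lt_one (m := 0) (n := ⌊Y⌋₊ + 1) (Real.exp_pos (-d)).le hq1
    rw [pow_zero, le_div_iff₀ (by linarith only [hq1])] at h1
    obtain h0 : 0 ≤ ∑ i ∈ Ico 0 (⌊Y⌋₊ + 1), q ^ i := Finset.sum_nonneg fun _ _ => by positivity
    set S := ∑ i ∈ Ico 0 (⌊Y⌋₊ + 1), q ^ i
    obtain h2 : d / 2 ≤ 1 - q := by nlinarith only [hq2, hd, hd1]
    nlinarith only [hq1, h2, hd, h1]
  obtain ⟨T, hT, hT'⟩ := KRp.lists A w hw hsum ⌊N⌋₊
  obtain hl : 0 ≤ Real.log (6 / d) := Real.log_nonneg (by rw [le_div_iff₀ hd]; linarith only [hd1])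
  refine ⟨T.filter fun π => (π.length : ℝ) ≤ N ∧ (π.map fun x : ℤ => |(x : ℝ)|).sum ≤ Y, ?_, ?_⟩
  · obtain hp : ∀ π : List ℤ, 0 ≤ (π.map w).prod := fun π => by
      rw [hwd, wprod d hd]; exact (Real.exp_pos _).le
    rw [Finset.card_eq_sum_ones, Nat.cast_sum]
    calc _ ≤ ∑ π ∈ T.filter fun π => (π.length : ℝ) ≤ N ∧
            (π.map fun x : ℤ => |(x : ℝ)|).sum ≤ Y,
            (π.map w).prod * Real.exp (d * Y + N * Real.log (6 / d)) := by
          refine Finset.sum_le_sum fun π hπ => ?_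
          obtain ⟨-, h1, h2⟩ := Finset.mem_filter.1 hπ
          rw [hwd, wprod d hd, ← Real.exp_add, Nat.cast_one]
          refine Real.one_le_exp ?_
          nlinarith only [hd, h2, hl, h1]
      _ ≤ ∑ π ∈ T, (π.map w).prod * Real.exp (d * Y + N * Real.log (6 / d)) :=
          Finset.sum_le_sum_of_subset_of_nonneg (Finset.filter_subset _ _)
            fun π _ _ => mul_nonneg (hp π) (Real.exp_pos _).le
      _ ≤ _ := by rw [← Finset.sum_mul]; gcongr
  · intro π h2 h3
    refine Finset.mem_filter.2 ⟨hT' π (fun x hx => ?_) (Nat.le_floor h2), h2, h3⟩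
    obtain hm : |(x : ℝ)| ≤ Y := le_trans (List.single_le_sum (fun y hy => by
      obtain ⟨z, -, rfl⟩ := List.mem_map.1 hy; positivity) _ (List.mem_map.2 ⟨_, hx, rfl⟩)) h3
    refine Finset.mem_biUnion.2 ⟨x.natAbs, Finset.mem_Ico.2 ⟨Nat.zero_le _,
      Nat.lt_succ_of_le (Nat.le_floor ?_)⟩, ?_⟩
    · rwa [Nat.cast_natAbs, Int.cast_abs]
    · simp only [hF, Finset.mem_insert, Finset.mem_singleton]
      exact Int.natAbs_eq x

structure Num (c : Cs) : Prop where
  lam : 100 ≤ c.lam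
  ep0 : 0 < c.ε
  ep1 : c.ε ≤ 1
  e0 : 0 < c.e3
  e1 : c.e3 ≤ 1 / 2
  d0 : 0 < c.del
  d1 : c.del ≤ 1
  big : 2 + 2 * Real.log (6 / c.del) ≤ c.del * c.lam

lemma num : Hier Num := by
  obtain hε := (Hier.ε_le_pow (fun _ => 1) 0 (by norm_num) (fun _ _ _ _ _ _ _ _ => rfl)
    (.of_all fun _ => one_pos)).mono (Q := fun c => 0 < c.ε ∧ c.ε ≤ 1) fun c h => by simpa using h
  obtain hC := ((Hier.C0_ge fun _ _ _ _ => 1).and (Hier.C1_ge fun _ _ _ _ _ => 1)).mono
    (Q := fun c => 0 < 3 * (1 + 6 * c.C0 * c.C1)) fun c h => by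
      have := h.1; have := h.2; positivity
  have hd := Hier.d1_le (fun c => 1 / (3 * (1 + 6 * c.C0 * c.C1))) (fun _ _ _ _ _ => rfl)
    (hC.mono fun _ h => one_div_pos.2 h)
  have h2 := Hier.lam_ge (fun _ => 100) fun _ _ => rfl
  have h3 := Hier.lam_ge (fun c => (2 + 2 * Real.log (6 / c.del)) / c.del) fun _ _ => rfl
  obtain h5 := Hier.e3_le (fun _ => 1 / 2) (fun _ _ _ _ _ _ _ _ => rfl)
    (.of_all fun _ => by norm_num)
  refine (hε.and <| hC.and <| hd.and <| h2.and <| h3.and h5).mono ?_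
  rintro c ⟨⟨ε0, ε1⟩, C, ⟨d0, d1⟩, l1, l2, e0, e1⟩
  obtain e : c.del = c.d1 * (3 * (1 + 6 * c.C0 * c.C1)) := by unfold Cs.del; ring
  have δ0 : 0 < c.del := e ▸ mul_pos d0 C
  rw [div_le_iff₀' δ0] at l2
  exact ⟨l1, ε0, ε1, e0, e1, δ0, e ▸ (le_div_iff₀ C).1 d1, l2⟩

/-- increments of an integer function along the free times -/
def inc (g : ℤ → ℤ) : List (ℤ × ℝ) → ℤ → List ℤ
  | [], _ => []
  | x :: L, m => (g m - g x.1) :: inc g L x.1

def knd (s : ℕ × ℕ × Bool) : ℕ := if s.2.2 then (if s.1 = 0 then 1 else 2) else 0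

/-- the profile read from a pattern and two lists of increments -/
def dec : List (ℕ × ℕ × Bool) → List ℤ → List ℤ → (ℤ × ℤ × ℤ) × Prof
  | s :: S, a :: A, b :: B =>
    (((dec S A B).1.1 + s.2.1, (dec S A B).1.2.1 + a, (dec S A B).1.2.2 + b),
      ((dec S A B).1.1, (dec S A B).1.2.1, (dec S A B).1.2.2, s.1, knd s) :: (dec S A B).2)
  | _, _, _ => ((1, 0, 0), [])

lemma inc_len (g : ℤ → ℤ) (L m) : (inc g L m).length = L.length := by
  induction L generalizing m with
  | nil => rfl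
  | cons x L ih => simp [inc, ih]

variable {c : Cs} {Ex : ExT} {S : Sq} {ξ : ℤ → ℝ} {s : ℤ}

lemma pat_len (L m) : (S.pat c ξ s L m).length = L.length := by
  induction L generalizing m with
  | nil => rfl
  | cons x L ih => simp [Sq.pat, ih]

lemma pat_sum (hc : 0 ≤ c.cc) (L m) :
    ((S.pat c ξ s L m).map fun s => (s.1 : ℝ)).sum ≤ Sq.sumR c L + L.length := by
  induction L generalizing m with
  | nil => simp [Sq.pat, Sq.sumR]
  | cons x L ih =>
    have := ih x.1
    simp only [Sq.pat, Sq.sym, Sq.sumR, List.map_cons, List.sum_cons, List.length_cons] at this ⊢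
    split_ifs with h1
    · have := Nat.ceil_lt_add_one (hc.trans h1)
      push_cast; (rename_i zq0; linarith only [zq0, this])
    · push_cast; linarith only [this]

lemma symok (h : Num c) {n p : ℤ} {r : ℝ} (lt : n < p) (h1 : r < c.cc → p = n + 1)
    (h2 : ((p - n : ℤ) : ℝ) ≤ 1 + Real.exp (c.del * r)) : SymOK c (S.sym c ξ s n r p) := by
  by_cases hr : c.cc ≤ r
  · refine Or.inr ?_
    simp only [Sq.sym, if_pos hr]
    rw [← Int.cast_natCast (p - n).toNat, Int.toNat_of_nonneg (by omega)]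
    refine ⟨hr.trans (Nat.le_ceil r), h2.trans ?_⟩
    have := h.d0
    gcongr
    exact Nat.le_ceil r
  · exact Or.inl ⟨by simp [Sq.sym, hr], by simp [Sq.sym, h1 (not_le.1 hr)]⟩

lemma chain (h : Num c) (h1 : ξ s = 1) {L m} (hc : S.Chain c Ex ξ s s L m) :
    (∀ x ∈ S.pat c ξ s L m, SymOK c x) ∧
    ((inc (fun j => ⌊S.WW c ξ s j⌋) L m).map fun x : ℤ => |(x : ℝ)|).sum = ⌊S.WW c ξ s m⌋ ∧
    ((inc (fun j => ⌊Real.log |ξ j|⌋) L m).map fun x : ℤ => |(x : ℝ)|).sum ≤
      2 * (Sq.sumR c L + (c.lam + 6) * L.length) - ⌊Real.log |ξ m|⌋ := by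
  have hl := h.lam
  obtain cc : c.cc ≤ c.lam / 2 := by have := h.ep1; unfold Cs.cc; nlinarith only [hl, this]
  obtain cc0 : 0 ≤ c.cc := by have := h.ep0; unfold Cs.cc; positivity
  induction hc with
  | nil => simp [Sq.pat, inc, Sq.WW, Sq.AA_self, h1, Sq.sumR]
  | @cons L n r p h1 h2 h3 ih =>
    obtain ⟨i1, i2, i3⟩ := ih
    have lt := h2.lt
    refine ⟨fun x hx => ?_, ?_, ?_⟩
    · rcases List.mem_cons.1 hx with rfl | hx
      · refine symok h lt (fun hr => ?_) h2.time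
        rcases h2.kind with ⟨a, -⟩ | ⟨a, -⟩
        · exact a
        · linarith only [lt, cc, hr, a]
      · exact i1 x hx
    · have : ⌊S.WW c ξ s n⌋ ≤ ⌊S.WW c ξ s p⌋ := Int.floor_le_floor (Real.log_le_log
        (lt_of_lt_of_le one_pos (S.one_le_AA c _ _ _)) (S.AA_mono c ξ s lt.le))
      simp only [inc, List.map_cons, List.sum_cons, i2]
      rw [abs_of_nonneg (by exact_mod_cast sub_nonneg.2 this)]
      push_cast; ring
    · obtain up : Real.log |ξ p| - Real.log |ξ n| ≤ (if c.cc ≤ r then r else 0) + c.lam + 5 := by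
        rcases h2.kind with ⟨a, -⟩ | ⟨a, -, b, -⟩
        · have e := h2.hr
          have lo := h2.r_lo
          have n0 := (Sq.Chain.rinv c S h1).1.ne
          have p0 := h3.ne
          obtain L0 : c.L ≠ 0 := fun q => by rw [Cs.lam, q, Real.log_zero] at hl; linarith only [hl]
          subst a
          rw [Sq.dep, Sq.rho_one, abs_div, Real.log_div L0 (by positivity),
            Real.log_div (by positivity) (by positivity)] at e
          change r = c.lam - _ at e
          split_ifs <;> (rename_i zq0; linarith only [cc0, e, zq0, lo])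
        · rw [if_pos (by linarith only [cc, a])]; exact b
      have f1 := Int.floor_le (Real.log |ξ p|)
      have f2 := Int.lt_floor_add_one (Real.log |ξ n|)
      obtain f3 : 0 ≤ if c.cc ≤ r then r else 0 := by split_ifs <;> (rename_i zq0; linarith only [cc0, zq0])
      simp only [inc, Sq.sumR, List.map_cons, List.sum_cons, List.length_cons] at i3 ⊢
      push_cast
      rcases abs_cases ((⌊Real.log |ξ p|⌋ : ℝ) - ⌊Real.log |ξ n|⌋) with ⟨q, -⟩ | ⟨q, -⟩ <;>
        rw [q] <;> linarith only [i3, up, f1, f2, hl, f3]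

lemma ent_eq (hc : 0 < c.cc) {M} (d : Dat) (x : ℤ × ℝ) (m : ℤ) : d.ent c M x =
    (⌊(d.S M).WW c (d.toFd.f M) (d.n + 1) x.1⌋, ⌊Real.log |d.toFd.f M x.1|⌋,
      ((d.S M).sym c (d.toFd.f M) (d.n + 1) x.1 x.2 m).1,
      knd ((d.S M).sym c (d.toFd.f M) (d.n + 1) x.1 x.2 m)) := by
  refine Prod.ext rfl (Prod.ext rfl (Prod.ext rfl ?_))
  simp only [Dat.ent, Dat.evx, knd, Sq.sym, decide_eq_true_eq]
  by_cases hr : c.cc ≤ x.2
  · have : ⌈x.2⌉₊ ≠ 0 := (Nat.ceil_pos.2 (hc.trans_le hr)).ne'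
    simp [hr, this]
  · simp [hr]

lemma dec_eq (hc : 0 < c.cc) {M} (d : Dat) {L m}
    (h : (d.S M).Chain c Ex (d.toFd.f M) (d.n + 1) (d.n + 1) L m) :
    dec ((d.S M).pat c (d.toFd.f M) (d.n + 1) L m)
      (inc (fun j => ⌊(d.S M).WW c (d.toFd.f M) (d.n + 1) j⌋) L m)
      (inc (fun j => ⌊Real.log |d.toFd.f M j|⌋) L m) =
    ((m - d.n, ⌊(d.S M).WW c (d.toFd.f M) (d.n + 1) m⌋, ⌊Real.log |d.toFd.f M m|⌋),
      L.map fun x => (x.1 - d.n, d.ent c M x)) := by
  induction h with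
  | nil => simp [Sq.pat, inc, dec, Sq.WW, Sq.AA_self, Fd.f, Sq.fr_self]
  | @cons L n r p h1 h2 h3 ih =>
    have lt := h2.lt
    simp only [Sq.pat, inc, dec, ih, List.map_cons, ent_eq hc d (n, r) p]
    refine Prod.ext (Prod.ext ?_ (Prod.ext ?_ ?_)) rfl
    · simp only [Sq.sym]; omega
    · simp
    · simp

lemma main (K : ℕ) (h : Num c) (hO : SOK_s c) (hB : B1_s c) (h5 : B5_s c) (hK : KR_s c) :
    PRC_s K c := by
  intro hF M hM k hk
  classical
  have hl := h.lam
  have d0 := h.d0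
  obtain cc : c.cc ≤ c.lam / 20 := by have := h.ep1; unfold Cs.cc; nlinarith only [this, hl]
  obtain cc0 : 0 < c.cc := by have := h.ep0; unfold Cs.cc; positivity
  set X := k + c.lam with hX
  set N := 11 * X / c.lam with hN
  obtain NX : N * c.lam = 11 * X := div_mul_cancel₀ _ (by linarith only [hl])
  obtain N0 : 11 ≤ N := by rw [hN, le_div_iff₀ (by linarith only [hl])]; linarith only [hk]
  obtain N1 : N ≤ X := by nlinarith only [hk, hl, NX, N0]
  obtain ⟨T1, a1, b1⟩ := hK N (18 * X)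
  obtain ⟨T2, a2, b2⟩ := count c.del N X d0 h.d1
  obtain ⟨T3, a3, b3⟩ := count c.del N (60 * X) d0 h.d1
  refine ⟨(T1 ×ˢ T2 ×ˢ T3).image fun e => (dec e.1 (0 :: e.2.1) (0 :: e.2.2)).2, ?_,
    fun d hd hV => ?_⟩
  · obtain c1 : (((T1 ×ˢ T2 ×ˢ T3).image fun e => (dec e.1 (0 :: e.2.1) (0 :: e.2.2)).2).card : ℝ) ≤
        T1.card * (T2.card * T3.card) := by
      exact_mod_cast Finset.card_image_le.trans (by rw [card_product, card_product])
    refine c1.trans ((mul_le_mul a1 (mul_le_mul a2 a3 (by (clear * -; positivity)) (by positivity))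
      (by (clear * -; positivity)) (by positivity)).trans ?_)
    have big := h.big
    obtain lg : 0 ≤ Real.log (6 / c.del) :=
      Real.log_nonneg (by rw [le_div_iff₀ d0]; linarith only [h.d1])
    obtain q1 : N * (2 + 2 * Real.log (6 / c.del)) ≤ 11 * (c.del * X) := by
      calc _ ≤ N * (c.del * c.lam) := by (clear * - big hk hl; gcongr)
        _ = c.del * (N * c.lam) := by ring
        _ = _ := by rw [NX]; ring
    obtain q2 : 2 ≤ c.del * X := by nlinarith only [big, lg, hk, d0]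
    have q3 := Real.add_one_le_exp (100 * (c.del * X))
    calc _ = 64 * Real.exp (N * (2 + 2 * Real.log (6 / c.del)) + 115 * (c.del * X)) := by
          rw [show N * (2 + 2 * Real.log (6 / c.del)) + 115 * (c.del * X) =
            (2 * N + 3 * c.del * (18 * X)) + ((c.del * X + N * Real.log (6 / c.del)) +
            (c.del * (60 * X) + N * Real.log (6 / c.del))) by ring]
          simp only [Real.exp_add]
          ring
      _ ≤ Real.exp (100 * (c.del * X)) * Real.exp (126 * (c.del * X)) := by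
          gcongr <;> linarith only [q2, q3, q1]
      _ ≤ _ := by rw [← Real.exp_add]; gcongr; linarith only [q2]
  obtain ok : (d.S M).OK c := ((hO M hM d.t ⟨by linarith only [hd.ht.1], by linarith only [hd.ht.2]⟩).2.1 _
    hd.hv).2
  have out : (d.S M).Out c d.ξ d.n := ⟨hd.hn, hd.sol, (hd.tame _ le_rfl).1, (hd.tame _ le_rfl).2.1⟩
  have f1 : d.toFd.f M (d.n + 1) = 1 := Sq.fr_self _ _
  obtain st : (d.S M).St c (d.toFd.f M) (d.n + 1) :=
    ⟨by linarith only [hd.hn], Sq.fr_sol _ _, f1, by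
      rw [Fd.f, Sq.fr_lt _ (by omega), abs_zero]; positivity⟩
  have ch := ((hB _ _ ok).1 _ _ _ _ _ st hd.run).1
  have bi := (hB _ _ ok).2.1 _ _ _ _ _ out hd.run hd.bd
  obtain ⟨-, -, b3', b4, -⟩ := h5 hF.2.1 _ (fun _ _ _ _ _ _ q => q.1) _ _ _ _ _ _ ok out hd.run hd.bd
  obtain ⟨i1, i2, i3⟩ := chain h f1 ch
  set W := (d.S M).Wp c d.n d.p with hW
  have w0 : 0 ≤ W := Real.log_nonneg (Sq.one_le_AA c _ _ _ _)
  have wV : W ≤ k := le_trans (le_max_left _ _) hV
  have rV : Real.log |d.toFd.f M d.p| + d.r ≤ k := le_trans (le_max_right _ _) hV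
  have sg : W - Real.log |d.toFd.f M d.p| ≤ 11 * c.ε' * (W + c.cc) := le_trans (le_max_left _ _) b3'
  obtain e4 : 11 * c.ε' ≤ 1 := by
    have := pow_le_pow_left₀ h.e0.le h.e1 4
    unfold Cs.ε'; linarith only [this]
  obtain lw : -c.cc ≤ Real.log |d.toFd.f M d.p| := by
    obtain this := mul_le_of_le_one_left (show 0 ≤ W + c.cc by linarith only [cc0, w0]) e4
    linarith only [sg, this]
  obtain len : (d.Ls.length : ℝ) * c.lam ≤ 10 * X := by
    obtain this := (le_div_iff₀ (by linarith only [hl])).1 bi.len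
    linarith only [wV, this]
  obtain len' : (d.Ls.length : ℝ) + 1 ≤ N := by
    rw [hN, le_div_iff₀ (by linarith only [hl])]; linarith only [hk, len]
  refine Finset.mem_image.2 ⟨((d.S M).pat c (d.toFd.f M) (d.n + 1) d.Lf (d.p + 1),
    inc (fun j => ⌊(d.S M).WW c (d.toFd.f M) (d.n + 1) j⌋) d.Ls d.p,
    inc (fun j => ⌊Real.log |d.toFd.f M j|⌋) d.Ls d.p), mem_product.2 ⟨b1 _ (fun x hx => ?_) ?_ ?_,
      mem_product.2 ⟨b2 _ ?_ ?_, b3 _ ?_ ?_⟩⟩, ?_⟩
  · rcases List.mem_cons.1 hx with rfl | hx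
    · refine symok h (lt_add_one _) (fun _ => rfl) ?_
      simpa using (Real.exp_pos _).le
    · exact i1 x hx
  · rw [pat_len, Dat.Lf, List.length_cons]; push_cast; exact len'
  · refine (pat_sum cc0.le _ _).trans ?_
    obtain this : (if c.cc ≤ d.r then d.r else 0) ≤ X := by split_ifs <;> linarith only [hl, cc, rV, lw, hk]
    simp only [Dat.Lf, Sq.sumR, List.map_cons, List.sum_cons, List.length_cons] at b4 ⊢
    push_cast; linarith only [hk, hl, N1, b4, wV, len', this]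
  · rw [inc_len]; linarith only [len']
  · rw [i2]; exact (Int.floor_le _).trans (show W ≤ X by linarith only [hl, wV])
  · rw [inc_len]; linarith only [len']
  · have := Int.lt_floor_add_one (Real.log |d.toFd.f M d.p|)
    refine i3.trans ?_
    nlinarith only [hk, hl, cc, b4, wV, lw, len, this]
  · simp only [Dat.Lf, Dat.prof, Sq.pat, dec, dec_eq cc0 d ch, List.map_cons,
      ent_eq cc0 d (d.p, d.r) (d.p + 1)]

end PRCp

theorem prc (K : ℕ) : Hier fun c => SOK_s c → B1_s c → B5_s c → KR_s c → PRC_s K c :=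
  PRCp.num.mono fun _ => PRCp.main K

end
end Pool.Agent.MP_9cbfe4_an

end

/-! ### Part PRD -/

section

/-! Row PRD: what the profile says about the datum. -/

namespace Pool.Agent.MP_9cbfe4_an
open Finset Filter Topology
namespace PRD
noncomputable section
open EEL

theorem lookup_map {β : Type} (n : ℤ) (g : ℤ × ℝ → β) (L : List (ℤ × ℝ))
    (hp : L.Pairwise fun x y => y.1 < x.1) :
    ∀ x ∈ L, List.lookup (x.1 - n) (L.map fun x => (x.1 - n, g x)) = some (g x) := by
  induction L with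
  | nil => simp
  | cons y L ih =>
    obtain ⟨h1, h2⟩ := List.pairwise_cons.1 hp
    intro x hx
    rcases List.mem_cons.1 hx with rfl | hx
    · simp
    · obtain ne : (x.1 - n == y.1 - n) = false := by
        have := h1 x hx
        simp only [beq_eq_false_iff_ne, ne_eq]; omega
      rw [List.map_cons, List.lookup_cons, ne]
      exact ih h2 x hx

theorem run_start {c : Cs} {Ex : ExT} {S : Sq} {ξ : ℤ → ℝ} {s : ℤ} {P} (Ls : List (ℤ × ℝ)) :
    ∀ m r, S.Run c Ex ξ s P Ls m → ∃ x ∈ (m, r) :: Ls, x.1 = s := by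
  induction Ls with
  | nil => intro m r h; exact ⟨(m, r), List.mem_cons_self, Sq.Run.nil _ _ h⟩
  | cons x Ls ih =>
    intro m r h
    obtain ⟨y, hy, e⟩ := ih x.1 x.2 (Sq.Run.tail _ _ h).1
    exact ⟨y, List.mem_cons_of_mem _ hy, e⟩

/-- ordered disjoint intervals -/
theorem sum_len (a b : ℤ → ℝ) (lo : ℝ) (E : Finset ℤ) : ∀ hi, lo ≤ hi →
    (∀ k ∈ E, lo ≤ a k ∧ a k ≤ b k ∧ b k ≤ hi) → (∀ k ∈ E, ∀ k' ∈ E, k < k' → b k ≤ a k') →
    ∑ k ∈ E, (b k - a k) ≤ hi - lo := by
  induction E using Finset.induction_on_max with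
  | empty => intro hi h _ _; simpa using h
  | insert m E hm ih =>
    intro hi _ h1 h2
    have nm : m ∉ E := fun x => lt_irrefl _ (hm m x)
    have a1 := h1 m (mem_insert_self _ _)
    have := ih (a m) a1.1 (fun k hk => ⟨(h1 k (mem_insert_of_mem hk)).1,
      (h1 k (mem_insert_of_mem hk)).2.1,
      h2 k (mem_insert_of_mem hk) m (mem_insert_self _ _) (hm k hk)⟩)
      fun k hk k' hk' => h2 k (mem_insert_of_mem hk) k' (mem_insert_of_mem hk')
    rw [sum_insert nm]
    linarith only [this, a1.2.2]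

variable {c : Cs} {Ex : ExT} {M : Mdl} {d : Dat} {π : Prof}

/-- the entry of the profile at `k` describes `x` -/
structure Ent (c : Cs) (M : Mdl) (d : Dat) (π : Prof) (k : ℤ) (x : ℤ × ℝ) : Prop where
  W1 : π.Wr k ≤ d.toFd.W c M x.1
  W2 : d.toFd.W c M x.1 ≤ π.Wr k + 1
  W3 : π.Wr k = ⌊d.toFd.W c M x.1⌋
  l1 : π.lw k ≤ Real.log |d.toFd.f M x.1|
  l2 : Real.log |d.toFd.f M x.1| ≤ π.lw k + 1
  k0 : π.kind k ≠ 0 ↔ 0 < d.evx c M x
  k2 : 0 < d.evx c M x → (π.kind k = 2 ↔ c.cc ≤ x.2)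
  r : 0 ≤ c.cc → c.cc ≤ x.2 → x.2 - 1 ≤ π.rr k ∧ π.rr k ≤ x.2

theorem ent_of {k : ℤ} {x : ℤ × ℝ} (e : π.get k = d.ent c M x) : Ent c M d π k x := by
  obtain e1 : π.Wr k = ⌊d.toFd.W c M x.1⌋ := by unfold Prof.Wr; rw [e]; rfl
  obtain e2 : π.lw k = ⌊Real.log |d.toFd.f M x.1|⌋ := by unfold Prof.lw; rw [e]; rfl
  refine ⟨e1 ▸ Int.floor_le _, e1 ▸ (Int.lt_floor_add_one _).le, e1, e2 ▸ Int.floor_le _,
    e2 ▸ (Int.lt_floor_add_one _).le, ?_, fun h => ?_, fun h0 h => ?_⟩
  · unfold Prof.kind; rw [e]; unfold Dat.ent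
    by_cases a : 0 < d.evx c M x
    · simp only [if_pos a]; split_ifs <;> simp [a]
    · simp [a]
  · unfold Prof.kind; rw [e]; unfold Dat.ent
    simp only [if_pos h]
    split_ifs with a <;> simp [a]
  · unfold Prof.rr Prof.sr; rw [e]; unfold Dat.ent
    simp only [if_pos h]
    have a := Nat.le_ceil x.2
    have b := Nat.ceil_lt_add_one (a := x.2) (h0.trans h)
    constructor <;> linarith only [a, b]

/-- numerics of one event -/
theorem evnum (h : Par c) (hg : 14 + 5 * Real.log c.lam ≤ c.e3 * c.cc) {k : ℤ} {x : ℤ × ℝ}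
    (E : Ent c M d π k x) (el : d.El c Ex M x) (he : 0 < d.evx c M x) :
    π.Wr k ≤ π.a c k ∧ π.b k ≤ Real.log |d.toFd.f M x.1| + x.2 - 9 ∧
    (1 - 7 * c.e3) * d.evx c M x ≤ π.b k - π.a c k ∧ c.cc ≤ d.evx c M x := by
  have hl := h.lam
  have cc := h.cc
  have e3 := h.e3p
  obtain lg : 0 ≤ Real.log c.lam := Real.log_nonneg (by linarith only [hl])
  obtain ccl : c.cc ≤ c.lam := by unfold Cs.cc; nlinarith only [hl, h.εs]
  have s1 : (d.S M).sig c (d.toFd.f M) (d.n + 1) x.1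
      = d.toFd.W c M x.1 - Real.log |d.toFd.f M x.1| := rfl
  rcases el.kind he with ⟨a1, a2, a3, -⟩ | ⟨a1, a2, a3, -, a5⟩
  · have k2 := (E.k2 he).2 a1
    obtain ⟨r1, r2⟩ := E.r (by linarith only [cc]) a1
    have ev : d.evx c M x = x.2 := a2
    have s2 : (d.S M).sig c (d.toFd.f M) (d.n + 1) x.1
      ≤ (d.S M).sg c (d.toFd.f M) (d.n + 1) x.1 := le_max_left _ _
    have s3 : 0 ≤ (d.S M).sg c (d.toFd.f M) (d.n + 1) x.1 := le_max_right _ _
    obtain m1 : max (π.Wr k) (π.lw k) ≤ π.lw k + c.e3 * x.2 + 1 :=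
      max_le (by linarith only [s1, a3, s2, E.W1, E.l2]) (by linarith only [a3, s3])
    unfold Prof.a Prof.b
    rw [if_pos k2, if_pos k2, ev]
    refine ⟨by linarith only [lg, le_max_left (π.Wr k) (π.lw k)], by linarith only [r2, E.l1], ?_, a1⟩
    nlinarith only [hg, lg, r1, m1, e3, a1]
  · have k2 : ¬ π.kind k = 2 := fun e => absurd ((E.k2 he).1 e) (not_le.2 a1)
    have ev : d.evx c M x = c.lam := a3
    unfold Prof.a Prof.b
    rw [if_neg k2, if_neg k2, ev]
    refine ⟨by linarith only [lg], by linarith only [a2, E.l1], ?_, ccl⟩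
    nlinarith only [hg, e3, s1, a5, hl, ccl, E.W1, E.l2]

theorem prd_of (h : Par c) (hg : 14 + 5 * Real.log c.lam ≤ c.e3 * c.cc) (hS : SOK_s c)
    (hB : B1_s c) (hF : FR_s 0 c) : PRD_s c := by
  intro Ex M d π hM v hπ
  obtain ⟨el, pw, -⟩ := hF Ex M d hM v
  have hl := h.lam
  obtain lg : 0 ≤ Real.log c.lam := Real.log_nonneg (by linarith only [hl])
  have elp := el (d.p, d.r) List.mem_cons_self
  have ok : (d.S M).OK c := ((hS M hM d.t elp.fr.ht).2.1 d.v v.hv).2
  have V0 : 0 ≤ d.V c M := (WW_nonneg _ _ _).trans elp.lev.2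
  obtain i1 : ∀ k, k ∈ π.T ↔ ∃ x ∈ d.Lf, x.1 = d.n + k := by
    intro k
    rw [hπ]
    simp only [Prof.T, Dat.prof, List.map_map, List.mem_toFinset, List.mem_map, Function.comp]
    exact exists_congr fun x => and_congr_right fun _ => by omega
  obtain i2 : ∀ x ∈ d.Lf, π.get (x.1 - d.n) = d.ent c M x := by
    intro x hx
    rw [hπ]
    unfold Prof.get Dat.prof
    rw [lookup_map d.n _ d.Lf pw x hx]; rfl
  have ex : ∀ k ∈ π.T, ∃ x ∈ d.Lf, x.1 = d.n + k ∧ Ent c M d π k x := fun k hk => by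
    obtain ⟨x, hx, e⟩ := (i1 k).1 hk
    refine ⟨x, hx, e, ent_of ?_⟩
    rw [← i2 x hx, e, add_sub_cancel_left]
  obtain evT : ∀ k ∈ π.Ev, ∃ x ∈ d.Lf, x.1 = d.n + k ∧ Ent c M d π k x ∧ 0 < d.evx c M x :=
    fun k hk => by
      obtain ⟨x, hx, e, E⟩ := ex k (mem_filter.1 hk).1
      exact ⟨x, hx, e, E, E.k0.1 (mem_filter.1 hk).2⟩
  obtain W0 : ∀ k ∈ π.T, 0 ≤ π.Wr k := fun k hk => by
    obtain ⟨x, -, -, E⟩ := ex k hk
    rw [E.W3]
    exact_mod_cast Int.floor_nonneg.2 (WW_nonneg _ _ _)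
  have i5 : ∀ k ∈ π.T, ∀ k' ∈ π.T, k < k' →
      π.Wr k ≤ π.Wr k' ∧ (k ∈ π.Ev → π.b k ≤ π.Wr k' - 8) := fun k hk k' hk' lt => by
    obtain ⟨y, hy, e', E'⟩ := ex k' hk'
    refine ⟨?_, fun hE => ?_⟩
    · obtain ⟨x, hx, e, E⟩ := ex k hk
      rw [E.W3, E'.W3]
      exact_mod_cast Int.floor_mono (WW_mono _ _ (by omega))
    · obtain ⟨x, hx, e, E, he⟩ := evT k hE
      have a := (evnum h hg E (el x hx) he).2.1
      obtain b := (el x hx).later y hy (by omega)
      linarith only [a, b, E'.W2]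
  have i6 : ∀ k ∈ π.Ev, 0 ≤ π.a c k ∧ π.a c k ≤ π.b k ∧ π.b k ≤ d.V c M - 9 ∧
      (π.kd k = true → 5 / 100 ≤ dP ((d.S M).X (d.n + k))) := fun k hk => by
    obtain ⟨x, hx, e, E, he⟩ := evT k hk
    obtain ⟨a1, a2, a3, -⟩ := evnum h hg E (el x hx) he
    refine ⟨(W0 k (mem_filter.1 hk).1).trans a1, by nlinarith only [he, a3, h.e3s], by linarith only [a2, (el x hx).lev.1],
      fun kd => ?_⟩
    have := (E.k2 he).1 (of_decide_eq_true kd)
    rcases (el x hx).kind he with a | a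
    · rw [← e]; exact a.2.2.2
    · linarith only [this, a.1]
  obtain i7 : ∀ k ∈ π.Ev, ∀ k' ∈ π.Ev, k < k' → π.b k ≤ π.a c k' := fun k hk k' hk' lt => by
    have a := (i5 k (mem_filter.1 hk).1 k' (mem_filter.1 hk').1 lt).2 hk
    obtain ⟨x, hx, e, E, he⟩ := evT k' hk'
    linarith only [a, (evnum h hg E (el x hx) he).1]
  obtain nd : (List.map Prod.fst π).Nodup := by
    rw [hπ]
    simp only [Dat.prof, List.map_map]
    refine List.pairwise_map.2 (List.Pairwise.imp ?_ pw)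
    intro x y lt
    simp only [Function.comp]; omega
  have sm : ∀ g : ℤ → ℝ, ∑ k ∈ π.Ev, g k =
      (d.Lf.map fun x => if 0 < d.evx c M x then g (x.1 - d.n) else 0).sum := fun g => by
    unfold Prof.Ev Prof.T
    rw [sum_filter, List.sum_toFinset _ nd]
    conv_lhs => rw [hπ]
    simp only [Dat.prof, List.map_map]
    refine congrArg List.sum (List.map_congr_left fun x hx => ?_)
    have E := ent_of (i2 x hx)
    rw [hπ] at E
    exact if_congr E.k0 rfl rfl
  obtain evs : d.ev c M = (d.Lf.map (d.evx c M)).sum := by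
    unfold Dat.ev Dat.Lf Sq.evs
    rw [List.map_cons, List.sum_cons, add_comm]; rfl
  have ev0 : ∀ x, ¬ 0 < d.evx c M x → d.evx c M x = 0 := fun x a =>
    le_antisymm (not_lt.1 a) (ev_nonneg h _ _ _)
  obtain i8 : (1 - 7 * c.e3) * d.ev c M ≤ ∑ k ∈ π.Ev, (π.b k - π.a c k) := by
    rw [sm, evs, ← List.sum_map_mul_left]
    refine List.sum_le_sum fun x hx => ?_
    split_ifs with a
    · exact (evnum h hg (ent_of (i2 x hx)) (el x hx) a).2.2.1
    · rw [ev0 x a, mul_zero]
  refine ⟨i1, i2, fun k hk => ?_, ⟨?_, ?_, ?_⟩, i5, i6, i7, i8, ⟨?_, ?_, ?_⟩,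
    fun j hj u u' hu E hE => ?_⟩
  · obtain ⟨x, hx, e, E⟩ := ex k hk
    have := (el x hx).lt
    rw [← e]
    exact ⟨E.W1, E.W2, E.l1, E.l2, by omega, by omega, W0 k hk⟩
  · exact (i1 1).2 (run_start d.Ls d.p d.r v.run)
  · obtain ⟨x, hx, e, E⟩ := ex 1 ((i1 1).2 (run_start d.Ls d.p d.r v.run))
    rw [E.W3, e]
    unfold Fd.W Sq.Wp Sq.WW
    rw [Sq.AA_self]; simp
  · exact (i1 _).2 ⟨(d.p, d.r), List.mem_cons_self, by simp⟩
  · obtain this : (π.Ev.card : ℝ) = ∑ _k ∈ π.Ev, (1 : ℝ) := by simp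
    rw [this, mul_sum, sm, evs]
    refine List.sum_le_sum fun x hx => ?_
    split_ifs with a
    · rw [mul_one]; exact (evnum h hg (ent_of (i2 x hx)) (el x hx) a).2.2.2
    · exact (ev0 x a).ge
  · obtain a := sum_len (π.a c) π.b 0 π.Ev (d.V c M) V0
      (fun k hk => ⟨(i6 k hk).1, (i6 k hk).2.1, by linarith only [(i6 k hk).2.2.1]⟩) i7
    obtain e0 : 0 ≤ d.ev c M := by
      rw [evs]
      refine List.sum_nonneg fun y hy => ?_
      obtain ⟨x, -, rfl⟩ := List.mem_map.1 hy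
      exact ev_nonneg h _ _ _
    nlinarith only [V0, i8, a, e0, h.e3s]
  · have a := ((hB Ex _ ok).2.1 _ _ _ _ _ elp.fr.out v.run v.bd).len
    have b : (d.S M).Wp c d.n d.p ≤ d.V c M := elp.lev.2
    obtain e : 10 * ((d.S M).Wp c d.n d.p + c.lam) / c.lam
        = 10 * (d.S M).Wp c d.n d.p / c.lam + 10 := by field_simp
    obtain g : 10 * (d.S M).Wp c d.n d.p / c.lam ≤ 10 * d.V c M / c.lam :=
      div_le_div_of_nonneg_right (by linarith only [b]) (by linarith only [hl])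
    unfold Dat.Lf
    rw [List.length_cons]
    push_cast
    linarith only [a, e, g]
  · obtain ⟨x, hx, e, Ej⟩ := ex j hj
    have fj := (el x hx).fr
    have w0 : 0 < |d.toFd.f M x.1| := abs_pos.2 fj.rinv.ne
    refine ⟨e ▸ fj, ⟨?_, ?_⟩, fun k hk lt => ?_⟩
    · rw [← e]; exact (Real.le_log_iff_exp_le w0).1 Ej.l1
    · rw [← e]
      have a := (Real.log_le_iff_le_exp w0).1 Ej.l2
      rw [Real.exp_add] at a
      nlinarith only [a, Real.exp_one_lt_d9, Real.exp_pos (π.lw j)]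
    · have hk := hE hk
      obtain ⟨y, hy, e', Ek, he⟩ := evT k hk
      have ey := el y hy
      refine ⟨?_, e' ▸ ey.fr, ?_, fun kd => ?_, fun kd => ?_⟩
      · by_contra hc
        have a := (i5 k (mem_filter.1 hk).1 j hj (not_le.1 hc)).2 hk
        linarith only [hu, lt, a, le_max_right (π.a c k) u, min_le_left (π.b k) u']
      · rw [← e', abs_le]; constructor <;> linarith only [Ek.l1, Ek.l2]
      · have k2 : π.kind k = 2 := of_decide_eq_true kd
        have a := (Ek.k2 he).1 k2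
        rw [← e']
        refine ⟨Sq.Wit.anti _ _ (by linarith only [h.L]) ey.wit (Ek.r (by linarith only [h.cc]) a).2, ?_, ?_⟩
        · unfold Prof.a
          rw [if_pos k2]
          obtain this : d.toFd.W0 c M y.1 ≤ max (π.Wr k) (π.lw k) + 1 :=
            max_le (le_trans Ek.W2 (by linarith only [le_max_left (π.Wr k) (π.lw k)]))
              (by linarith only [Ek.l2, le_max_right (π.Wr k) (π.lw k)])
          linarith only [this]
        · unfold Prof.b; rw [if_pos k2]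
      · have k2 : ¬ π.kind k = 2 := of_decide_eq_false kd
        rw [← e']
        rcases ey.kind he with a | a
        · exact absurd ((Ek.k2 he).2 a.1) k2
        · refine ⟨a.2.2.2.1, ?_, ?_⟩
          · unfold Prof.a; rw [if_neg k2]; linarith only [Ek.W2]
          · unfold Prof.b; rw [if_neg k2]; linarith only []

end
end PRD

theorem prd : Hier fun c => SOK_s c → B1_s c → FR_s 0 c → PRD_s c := by
  obtain h5 := Hier.pow_le_exp (fun _ => Real.exp 14) (fun c => c.e3 * c.ε / 20) 5 (fun _ _ => rfl)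
    (fun _ _ => rfl) (EEL.par.mono fun c h => by have := h.e3p; have := h.εp; positivity)
  refine (EEL.par.and h5).mono fun c ⟨h, b⟩ => PRD.prd_of h ?_
  obtain l0 : 0 < c.lam := by linarith only [h.lam]
  obtain a := Real.log_le_log (by positivity) b
  rw [Real.log_mul (by positivity) (by positivity), Real.log_exp, Real.log_exp, Real.log_pow] at a
  unfold Cs.cc
  push_cast at a
  linarith only [a]

end Pool.Agent.MP_9cbfe4_an

end

/-! ### Part CC -/

section

/-! Row CC: assembly from `LOC_s` and `cc_abs`. -/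

namespace Pool.Agent.MP_9cbfe4_an

open Finset MeasureTheory

namespace CCp

theorem e9 : (3000 : ℝ) ≤ Real.exp 9 := by
  obtain h : (2.7 : ℝ) ≤ Real.exp 1 := by linarith only [Real.exp_one_gt_d9]
  obtain e : Real.exp 9 = Real.exp 1 ^ 9 := by rw [← Real.exp_nat_mul]; norm_num
  rw [e]
  exact le_trans (by norm_num) (pow_le_pow_left₀ (by norm_num) h 9)

theorem small {lam ω W x ℓ a V : ℝ} (hl : 1 ≤ lam) (hω : 0 < ω) (hW : ω ≤ W)
    (hx : x ≤ ω * Real.exp (-a)) (hℓ : ℓ ≤ ω * Real.exp (-a)) (ha : V + 5 * Real.log lam ≤ a) :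
    (x + ℓ) * Real.exp V ≤ 10 * (1 / lam ^ 4) * W := by
  obtain h0 : 0 < lam := by linarith only [hl]
  obtain h1 : Real.exp (-a) * Real.exp V ≤ 1 / lam ^ 4 := by
    rw [← Real.exp_add]
    obtain e : 1 / lam ^ 4 = Real.exp (-(4 * Real.log lam)) := by
      rw [Real.exp_neg, show 4 * Real.log lam = ((4 : ℕ) : ℝ) * Real.log lam by norm_num,
        Real.exp_nat_mul, Real.exp_log h0, one_div]
    rw [e]
    exact Real.exp_le_exp.2 (by linarith only [ha, Real.log_nonneg hl])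
  obtain h2 : (x + ℓ) * Real.exp V ≤ 2 * ω * (Real.exp (-a) * Real.exp V) := by
    have := mul_le_mul_of_nonneg_right (add_le_add hx hℓ) (Real.exp_pos V).le
    linarith only [this]
  obtain h3 : 0 < 1 / lam ^ 4 := by positivity
  nlinarith only [h2, hω, h1, h3, hW]

theorem main {c : Cs} (hl : 1 ≤ c.lam) (hL : 0 ≤ c.L) (H : LOC_s c) : CC_s c := by
  intro Ex M Z p j ω u u' θ κ ℓ Ev a b lw rr kd hM hω hu hord θ1 θ2 hκ ℓ0 hℓ hj hD hP
  refine cc_abs (fun z => ((p z).S M).X ((p z).n + j)) a b hω hu Ev hord (fun k hk hov z => ?_)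
    fun z z' => (hP z z').2.1
  refine ⟨0, ((p z).S M).X ((p z).n + j), fun z' hz => Or.inr ?_⟩
  obtain ⟨jk, fm, hlw, hR, hK⟩ := (hD z).ev k hk hov
  obtain ⟨-, fm', -, hR', hK'⟩ := (hD z').ev k hk hov
  obtain ⟨rel, -, hp⟩ := hP z z'
  obtain ⟨par, hτ⟩ := hp k hk hov
  obtain ⟨o1, o2⟩ := (hD z).om
  set W := |(p z).f M ((p z).n + j)| with hW
  set w := |(p z).f M ((p z).n + k)| with hw
  have W0 : 0 < W := hω.trans_le o1
  have w0 : 0 < w := abs_pos.2 fm.rinv.ne
  have par' : (p z).ParH c M ((p z').t - (p z).t) (ℓ / W) ((p z).n + j) ((p z).n + k) :=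
    fun i h1 h2 => (par i h1 h2).trans (mul_le_mul_of_nonneg_right
      (div_le_div_of_nonneg_left ℓ0 W0 o2) (Sq.wh_nonneg _ _ _ _ _))
  obtain ⟨lK, lR⟩ := H Ex M (p z) (p z') _ _ _ _ θ κ ℓ hM (hD z).fr fm (hD z').fr fm' (by omega)
    (by omega) θ1 θ2 hκ ℓ0 rel par'
  have a1 := le_max_left (a k) u
  have a2 := min_le_right (b k) u'
  have a3 := min_le_left (b k) u'
  set μ := min (b k) u' with hμ
  have hx := hz.trans (mul_le_mul_of_nonneg_left (Real.exp_le_exp.2 (neg_le_neg a1)) hω.le)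
  obtain hℓ' : ℓ ≤ ω * Real.exp (-a k) :=
    hℓ.trans (mul_le_mul_of_nonneg_left (Real.exp_le_exp.2 (by linarith only [a1, hov, a2])) hω.le)
  obtain ⟨l1, l2⟩ := abs_le.1 hlw
  obtain wl : Real.exp (lw k - 1) ≤ w := by
    rw [← Real.exp_log w0]; exact Real.exp_le_exp.2 (by linarith only [l1])
  obtain wu : w ≤ Real.exp (lw k + 1) := by
    rw [← Real.exp_log w0]; exact Real.exp_le_exp.2 (by linarith only [l2])
  obtain q : W / w ≤ 3 * ω * Real.exp (1 - lw k) := by
    rw [div_le_iff₀ w0]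
    obtain e : Real.exp (1 - lw k) * Real.exp (lw k - 1) = 1 := by rw [← Real.exp_add]; simp
    obtain this := mul_le_mul_of_nonneg_left wl (show 0 ≤ 3 * ω * Real.exp (1 - lw k) by positivity)
    nlinarith only [o2, this, hω, e]
  obtain E9 : Real.exp (-μ - 9) * 3000 ≤ Real.exp (-μ) := by
    obtain e : Real.exp (-μ) = Real.exp (-μ - 9) * Real.exp 9 := by rw [← Real.exp_add]; simp
    rw [e]; exact mul_le_mul_of_nonneg_left e9 (Real.exp_pos _).le
  have P9 := Real.exp_pos (-μ - 9)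
  cases hkd : kd k with
  | false =>
    obtain ⟨d1, d2, d3⟩ := hK hkd
    refine (lK (small hl hω o1 hx hℓ' d2) d1 (hK' hkd).1).trans ?_
    obtain b1 : Real.exp (1 - lw k) ≤ Real.exp (-μ - 9) := Real.exp_le_exp.2 (by linarith only [a3, d3])
    obtain b2 : Real.exp (-u' - 10) ≤ Real.exp (-μ - 9) := Real.exp_le_exp.2 (by linarith only [a2])
    have b3 := mul_le_mul_of_nonneg_left b1 hω.le
    have b4 := mul_le_mul_of_nonneg_left b2 hω.le
    have b5 := mul_le_mul_of_nonneg_left E9 hω.le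
    have b6 := mul_pos hω P9
    rw [mul_div_assoc]
    linarith only [hℓ, q, b3, b4, b5, b6]
  | true =>
    obtain ⟨d1, d2, d3⟩ := hR hkd
    have g0 : Real.log w + 0 ≤ (p z).W0 c M ((p z).n + k) := le_max_right _ _
    have g1 := Real.log_nonneg hl
    obtain r1 : 1 ≤ μ + 10 - lw k := by linarith only [a1, hov, l1, d2, g0, g1]
    refine (lR (μ + 10 - lw k) (small hl hω o1 hx hℓ' d2) (d1.anti _ _ hL (by linarith only [a3, d3]))
      ((hR' hkd).1.anti _ _ hL (by linarith only [a3, d3])) r1 ?_ ?_ fun h => hj ?_ ?_ ?_).trans ?_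
    · obtain e : Real.exp (-u' - 10) * Real.exp (lw k + 1) * Real.exp (μ + 10 - lw k) ≤ 100 := by
        rw [← Real.exp_add, ← Real.exp_add]
        refine (Real.exp_le_exp.2 (show _ ≤ (1 : ℝ) by linarith only [a2])).trans ?_
        linarith only [Real.exp_one_lt_d9]
      calc ℓ * w * Real.exp (μ + 10 - lw k)
          ≤ ω * Real.exp (-u' - 10) * Real.exp (lw k + 1) * Real.exp (μ + 10 - lw k) := by (clear * - hℓ wu w0 hω; gcongr)
        _ = ω * (Real.exp (-u' - 10) * Real.exp (lw k + 1) * Real.exp (μ + 10 - lw k)) := by ring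
        _ ≤ W * 100 := by (clear * - o1 e W0; gcongr)
        _ = 100 * W := by ring
    · exact le_trans (mul_le_mul_of_nonneg_left (Real.exp_le_exp.2 (by linarith only [a1, hov, l1, d2, g0, g1])) (abs_nonneg _))
        (hτ hkd)
    · obtain rfl : k = j := by omega
      exact hk
    · obtain rfl : k = j := by omega
      exact hov
    · obtain rfl : k = j := by omega
      exact hkd
    · obtain e : Real.exp (-(μ + 10 - lw k)) * Real.exp (1 - lw k) = Real.exp (-μ - 9) := by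
        rw [← Real.exp_add]; congr 1; ring
      obtain this := mul_le_mul_of_nonneg_left q
        (show 0 ≤ 1000 * Real.exp (-(μ + 10 - lw k)) by positivity)
      have b5 := mul_le_mul_of_nonneg_left E9 hω.le
      rw [mul_div_assoc]
      calc _ ≤ _ := this
        _ = ω * (Real.exp (-(μ + 10 - lw k)) * Real.exp (1 - lw k) * 3000) := by ring
        _ ≤ _ := by rw [e]; exact b5

end CCp

theorem cc : Hier fun c => LOC_s c → CC_s c :=
  ((Hier.lam_ge (fun _ => 1) fun _ _ => rfl).and (Hier.L_ge (fun _ => 0) fun _ _ => rfl)).mono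
    fun _ h => CCp.main h.1 h.2

end Pool.Agent.MP_9cbfe4_an

end
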