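import Pool.Agent.MP_9cbfe4_an.M10
import Pool.Agent.MP_9cbfe4_an.M14

set_option linter.all false

attribute [-instance] AddQuantale.instAddLeftMono IdemSemiring.toCanonicallyOrderedAdd
  NumberField.to_charZero AddQuantale.instAddRightMono IdemSemiring.toMulLeftMono RKHS.instFunLike
  Quantale.instMulRightMono Quantale.instMulLeftMono IsOrderedCancelMonoid.toIsOrderedMonoid
  LinearOrderedCommMonoidWithZero.toPosMulStrictMono
  Group.IsPerfect.subsingleton_of_isMulCommutative CanonicallyOrderedAdd.toMulLeftMono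
  Valued.toUniformSpace IdemSemiring.toMulRightMono TotallySeparatedSpace.t2Space
  LinearOrderedCommMonoidWithZero.toIsOrderedMonoid IsScalarTower.complexToReal
  Order.Coframe.toCompleteLattice OmegaCompletePartialOrder.toPartialOrder Invertible.toNeZero
  GrpTypeEquivalenceGrp.grpGroup littleWedderburn CanonicallyOrderedMul.toMulLeftMono
  CoalgHomClass.toSemilinearMapClass TestFunctionClass.toDFunLike
  ContDiffMapSupportedInClass.toDFunLike Order.Frame.toCompleteLattice RightPreLieAlgebra.toModule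
  CategoryTheory.Limits.Concrete.instUniqueToTypeTerminal LeftPreLieAlgebra.toModule
  CStarAlgebra.instOrderClosedTopology IdemSemiring.toSemiring
  LieAdmissibleRing.toNonUnitalNonAssocRing NonUnitalAlgSemiHomClass.toDistribMulActionSemiHomClass
  CStarAlgebra.toNormedRing

/-! ### Part AP0 -/

section

/-! Section S, row AP0: order `0`, comparison of a seed solution with the reference. -/

namespace Pool.Agent.MP_9cbfe4_an.SS

open Finset

namespace AP0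
variable {g : R3 → ℝ} {N E : ℕ} {P : RD} {τ : ℝ} {X η : ℤ → ℝ}

theorem z0 {x w : ℝ} (e : x = 0) : |x| ≤ 0 * w := by simp [e]

/-- defect of the tangent in the reference recursion -/
theorem df_eta (h : Ref g N E P) (hτ : |τ - P.t0| ≤ P.r) (so : Sol g P τ X η)
    (tu : Tube P.R X (P.s - 1) P.J P.r) {j : ℤ} (a : P.s ≤ j) (b : j < P.J) :
    |P.R.df η j| ≤ P.Λ ^ 2 * P.r * P.R.sz η j := by
  obtain m := mem_UB tu hτ (show P.s - 1 < j by omega) b.le
  have l := h.lm j a b.le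
  obtain e : P.R.df η j = (ga g (τ, X j, X (j - 1)) - P.R.a j) * η j
      + (gb g (τ, X j, X (j - 1)) - P.R.b j) * η (j - 1) := by
    unfold Sq.df; rw [so.eqe j a b]; ring
  rw [e]
  refine (abs_add_le _ _).trans ?_
  rw [abs_mul, abs_mul]
  have a1 := mul_le_mul_of_nonneg_right (l.ha _ m) (abs_nonneg (η j))
  have a2 := mul_le_mul_of_nonneg_right (l.hb _ m) (abs_nonneg (η (j - 1)))
  unfold Sq.sz
  linarith only [a1, a2]

theorem eta (hH : APH_s) (hF : APF2_s) (h : Ref g N E P) (hE : 100 ≤ E) (hτ : |τ - P.t0| ≤ P.r)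
    (so : Sol g P τ X η) (tu : Tube P.R X (P.s - 1) P.J P.r) (j : ℤ) (j1 : P.s - 1 ≤ j)
    (j2 : j ≤ P.J) : |η j| ≤ P.μ j ^ 10 * P.D j := by
  have s0 := h.s0
  have J1 := h.J1
  have k := h.ct.hc
  have ρ0 := h.ρ0
  have big := h.big j1 j2
  obtain xi : ∀ i, P.s - 1 ≤ i → i ≤ 0 → |P.ξ i| ≤ 4 * P.μ i := fun i a b => by
    obtain this := mul_le_mul_of_nonneg_left k.w0 (show 0 ≤ P.μ i by linarith only [k.big i a b])
    linarith only [this, k.maj i a b, k.wle i 0 a b le_rfl]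
  rcases le_or_gt j 0 with c | c
  · have := hH P.R E 0 P.ξ P.w P.μ (fun i => η i - P.ξ i) P.s P.Λ 1 0 _ k
      (h.top le_rfl (by omega)) (by omega) zero_le_one le_rfl ρ0 (h.ρ10 (by omega))
      (fun i a b => ?_) (z0 (by linear_combination so.line))
      (by simp [so.one, k.one]) j j1 c
    · simp only [one_mul, zero_mul, add_zero, zero_add] at this
      rw [h.ct.Dneg j c, mul_one]
      obtain a1 := LS.pw3 big (show 7 + 1 ≤ 10 by norm_num)
      obtain a2 := LS.pw big (show 1 ≤ 7 by norm_num)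
      have a3 := abs_sub_abs_le_abs_sub (η j) (P.ξ j)
      rw [pow_one] at a2
      linarith only [big, this, a1, a2, a3, xi j j1 c]
    obtain e : P.R.df (fun i => η i - P.ξ i) i = P.R.df η i := by
      unfold Sq.df; simp only [k.sol i a b]; ring
    obtain b0 := h.bpos a (show i ≤ P.J by omega)
    have a1 := abs_sub_abs_le_abs_sub (η i) (P.ξ i)
    have a2 := mul_le_mul_of_nonneg_left
      (abs_sub_abs_le_abs_sub (η (i - 1)) (P.ξ (i - 1))) b0.le
    have Λ0 := h.Λ_ge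
    obtain a3 : |P.ξ i| ≤ 4 * P.Λ := by
      linarith only [a, J1, xi i (by omega) b.le, h.top (show P.s - 1 ≤ i by omega) (by omega)]
    obtain a4 : P.R.b i * |P.ξ (i - 1)| ≤ P.Λ * (4 * P.Λ) :=
      mul_le_mul ((h.ble a (by omega)).trans (h.top (by omega) (by omega)))
        (by linarith only [a, b, J1, xi (i - 1) (by omega) (by omega),
          h.top (show P.s - 1 ≤ i - 1 by omega) (by omega)]) (abs_nonneg _) (by linarith only [Λ0])
    obtain a5 : P.R.sz η i ≤ P.R.sz (fun i => η i - P.ξ i) i + P.Λ ^ 3 := by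
      unfold Sq.sz
      nlinarith only [a1, a2, a3, a4, mul_le_mul_of_nonneg_right Λ0 (mul_self_nonneg P.Λ)]
    have a6 := mul_le_mul_of_nonneg_left a5 ρ0
    rw [e, pow_zero]
    linarith only [a6, J1, b, hE, df_eta h hτ so tu a (show i < P.J by omega), h.ρΛ (show 3 + 2 ≤ E by omega)]
  · have := hF P.R E 2 P.μ P.D (fun i => if i = 0 then 0 else η i) P.J P.Λ 1 0 _ h.ct.fc
      (h.top (by omega) le_rfl) (by omega) zero_le_one le_rfl ρ0 (h.ρ10 (by omega))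
      (fun i a b => ?_) (if_pos rfl) (by rw [if_neg (by omega), so.zero, abs_zero]) j c.le j2
    · simp only [if_neg c.ne', one_mul, zero_mul, add_zero] at this
      exact this.trans (mul_le_mul_of_nonneg_right (LS.pw big (by norm_num)) (h.Dpos j2).le)
    obtain d := df_eta h hτ so tu (show P.s ≤ i by omega) b
    obtain bi := h.big (show P.s - 1 ≤ i by omega) b.le
    have Di := h.Dpos b.le
    unfold Sq.df Sq.sz at *
    simp only [if_neg (show i + 1 ≠ 0 by omega), if_neg (show i ≠ 0 by omega)]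
    split_ifs with z
    · obtain b0 := h.bpos (show P.s ≤ i by omega) b.le
      obtain a1 := h.bD (Nat.zero_le E) (show P.s ≤ i by omega) b.le
      rw [z, so.one] at d
      rw [z, h.ct.fc.D0] at a1
      simp only [pow_zero, mul_one, zero_add, pow_one, abs_one] at a1 d
      have a2 := abs_sub_abs_le_abs_sub (η (i + 1) - P.R.a i * η i) (P.R.b i)
      rw [abs_of_pos b0] at a2
      obtain a3 := mul_le_mul_of_nonneg_right (h.lm i (by omega) b.le).ρ1 b0.le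
      obtain a4 := mul_le_mul_of_nonneg_right bi (mul_pos (show 0 < P.μ i by linarith only [bi]) Di).le
      simp only [mul_zero, sub_zero, abs_zero, add_zero]
      linarith only [b0, a1, d, a2, a3, a4]
    · obtain this : 0 < P.μ i ^ 2 * P.D i := by positivity
      linarith only [d, this]

/-- the tangent of the reference -/
noncomputable def nu (P : RD) (j : ℤ) : ℝ :=
  if j ≤ 0 then P.ξ j else P.R.nu1 P.J * P.R.fr 1 j + P.R.b 1 * P.R.fr 2 j

theorem nu_rec (h : Ref g N E P) {j : ℤ} (a : P.s ≤ j) (z : j ≠ 0) :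
    nu P (j + 1) = P.R.a j * nu P j + P.R.b j * nu P (j - 1) := by
  unfold nu
  rcases lt_or_gt_of_ne z with c | c
  · rw [if_pos (by omega), if_pos c.le, if_pos (by omega)]; exact h.ct.hc.sol j a c
  rw [if_neg (by omega), if_neg (by omega), P.R.fr_sol 1 j c]
  rcases (show 1 ≤ j from c).eq_or_lt with rfl | d
  · rw [if_pos (by omega), sub_self, h.ct.hc.one, P.R.fr_lt (by omega : (0 : ℤ) < 1),
      P.R.fr_lt (by omega : (1 : ℤ) < 2), show (1 : ℤ) + 1 = 2 from rfl, P.R.fr_self, P.R.fr_self]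
    ring
  · rw [if_neg (by omega), P.R.fr_sol 2 j d]; ring

theorem nu_J (h : Ref g N E P) : nu P P.J = 0 := by
  have J1 := h.J1
  obtain a := h.ct.fc.frJ (P.J - 1) (by omega) (by omega)
  rw [sub_add_cancel, P.R.fr_self, abs_one] at a
  obtain ne : P.R.fr 1 P.J ≠ 0 := fun e => by rw [e] at a; norm_num at a
  unfold nu Sq.nu1
  rw [if_neg (by omega)]
  field_simp
  ring
end AP0

open AP0 in
theorem ap0 (h0 : ST0_s) (hH : APH_s) (hF : APF2_s) (hL : LS_s) : AP0_s := by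
  intro g N E P τ X η h hE hτ so tu
  have he := eta hH hF h hE hτ so tu
  have s0 := h.s0
  have J1 := h.J1
  have t0 := abs_nonneg (τ - P.t0)
  have dl0 := h.dl0
  have m0 := h.big0
  obtain st := fun j (a : P.s ≤ j) (b : j ≤ P.J) => h0 g _ N _ _ _ _ _ (h.lm j a b) _ (h.center j) _
    (mem_UB tu hτ (show P.s - 1 < j by omega) b)
  have n0 : ∀ j, j ≤ 0 → nu P j = P.ξ j := fun j a => if_pos a
  obtain ⟨c1, c2⟩ := hL P.R E 13 13 P.ξ P.w P.μ P.D (fun j => X j - P.R.X j)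
    (fun j => η j - nu P j) P.s P.J P.Λ P.L P.δ (2 * |τ - P.t0|)
    (|P.ρ| + 2 * P.μ 0 * P.dl * |τ - P.t0|) 0 0 _ h.ct (by omega) (by (clear * -; positivity)) (by (clear * - m0 dl0; positivity))
    le_rfl le_rfl h.ρ0 (h.ρ10 (by omega))
    (fun j a b => by
      have c := (st j a b.le).1
      obtain d := mul_le_mul_of_nonneg_left
        (LS.pw1 (h.big (show P.s - 1 ≤ j by omega) b.le) 13) t0
      unfold Sq.df Sq.sz
      simp only [so.eqx j a b, h.orb j a b] at c ⊢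
      linarith only [c, d])
    (fun j a b z => by
      obtain big := h.big (show P.s - 1 ≤ j by omega) b.le
      have Dj := h.Dpos b.le
      have bj := h.bpos a b.le
      obtain c := (st j a b.le).2.2.2.2.2.1 (nu P j) (nu P (j - 1)) (η j) (η (j - 1))
        (P.μ j ^ 11 * P.D j)
        ((he j (by omega) b.le).trans (mul_le_mul_of_nonneg_right (LS.pw big (by norm_num)) Dj.le))
        ((mul_le_mul_of_nonneg_left (he (j - 1) (by omega) (by omega)) bj.le).trans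
          (h.bD (by omega) a b.le))
      rw [← h.ea j a b.le, ← h.eb j a b.le, ← so.eqe j a b, ← nu_rec h a z] at c
      obtain d : 2 * P.μ j * (P.μ j ^ 11 * P.D j) ≤ P.μ j ^ 13 * P.D j := by
        obtain this := mul_le_mul_of_nonneg_right (LS.pw3 big (show 12 + 1 ≤ 13 by norm_num)) Dj.le
        obtain p : 0 < P.μ j ^ 12 * P.D j := by (clear * - big Dj; positivity)
        linarith only [this, p]
      obtain e : P.dl * |τ - P.t0| ≤ 2 * |τ - P.t0| :=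
        mul_le_mul_of_nonneg_right (by linarith only [(h.lm j a b.le).dl1]) t0
      obtain f := mul_le_mul d (add_le_add_right e
        (|X j - P.R.X j| + P.R.b j * |X (j - 1) - P.R.X (j - 1)|)) (by (clear * - bj dl0; positivity)) (by positivity)
      unfold Sq.df Sq.sz
      simp only at c ⊢
      linarith only [c, f])
    (by
      obtain b0 := h.bpos s0 (show 0 ≤ P.J by omega)
      obtain a := he (-1) (by omega) (by omega)
      rw [h.ct.Dneg (-1) (by omega), mul_one] at a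
      obtain c := (st 0 s0 (by omega)).2.2.2.2.2.2 P.L (P.ξ (-1)) (η (-1)) P.δ h.fold
        ((mul_le_mul_of_nonneg_left a b0.le).trans (h.b0mu (by omega))) h.δ_le_one
        (h.muδ_L (by omega))
      obtain e := so.eqe 0 s0 (by omega)
      rw [← h.ea 0 s0 (by omega), ← h.eb 0 s0 (by omega)] at c
      rw [so.one, mul_one] at e
      simp only [zero_sub, zero_add] at c e
      obtain e1 : nu P 1 = P.R.nu1 P.J := by
        unfold nu
        rw [if_neg (by omega), P.R.fr_self, P.R.fr_lt (by omega : (1 : ℤ) < 2)]; ring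
      rw [← e, show η 1 - (P.R.a 0 + P.R.b 0 * P.ξ (-1)) = η 1 - nu P 1 - P.ρ by
        rw [e1]; unfold RD.ρ; ring] at c
      have d := abs_sub (η 1 - nu P 1) P.ρ
      obtain f : 2 * P.μ 0 ≤ P.μ 0 ^ 13 := by
        linarith only [m0, LS.pw3 m0 (show 1 + 1 ≤ 13 by norm_num)]
      obtain f' := mul_le_mul_of_nonneg_right f
        (show 0 ≤ P.R.b 0 * |X (-1) - P.R.X (-1)| by (clear * - b0; positivity))
      simp only [n0 (-1) (by omega)]
      linarith only [c, d, f'])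
    (z0 (by linear_combination so.linx))
    (by
      simp only [n0 (P.s - 1) (by omega), n0 P.s s0]
      exact z0 (by linear_combination so.line))
    (by simp only [n0 0 le_rfl, so.one, h.ct.hc.one, sub_self])
    (by simp only [so.zero, nu_J h, sub_self, abs_zero, le_refl])
  simp only [zero_mul, add_zero, mul_zero] at c1 c2
  refine ⟨he, ?_, fun j a b => (c2 j a b).1.trans
    (mul_le_mul_of_nonneg_left (LS.pw (h.big a b) (by norm_num)) (by (clear * -; positivity)))⟩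
  have δ0 := h.δ_pos
  obtain a : P.μ 0 * P.dl ≤ P.δ := by
    obtain this := mul_le_mul_of_nonneg_left h.dlδ (show 0 ≤ P.μ 0 by linarith only [m0])
    nlinarith only [hE, δ0, this, h.muδ (show 1 ≤ E by omega)]
  have b := mul_le_mul_of_nonneg_right a t0
  have c := mul_nonneg δ0.le t0
  linarith only [c1, b, c]

end Pool.Agent.MP_9cbfe4_an.SS

end

/-! ### Part JET -/

section

/-! Section S, rows FWDJ and JET: bounds for the jets, by induction on the order. -/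

namespace Pool.Agent.MP_9cbfe4_an.SS

open Finset Filter Topology
open scoped ContDiff

namespace JET

theorem id_le {i : ℕ} (hi : 1 ≤ i) (τ : ℝ) : |iteratedDeriv i (id : ℝ → ℝ) τ| ≤ 1 := by
  rw [iteratedDeriv_id, if_neg (by omega)]
  split_ifs <;> simp

theorem cd {f : ℝ → ℝ} {τ : ℝ} (h : ContDiffAt ℝ ∞ f τ) (n : ℕ) : ContDiffAt ℝ n f τ :=
  h.of_le (by exact_mod_cast le_top)

theorem d_const {f : ℝ → ℝ} {τ a : ℝ} {n : ℕ} (hn : 1 ≤ n) (h : ∀ᶠ σ in 𝓝 τ, f σ = a) :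
    iteratedDeriv n f τ = 0 := by
  rw [EventuallyEq.iteratedDeriv_eq n (g := fun _ => a) h, iteratedDeriv_const, if_neg (by omega)]

theorem d_line {f f' : ℝ → ℝ} {τ a a' b b' : ℝ} {n : ℕ} (hn : 1 ≤ n)
    (h : ∀ᶠ σ in 𝓝 τ, a * (f σ - b) = a' * (f' σ - b')) :
    a * iteratedDeriv n f τ = a' * iteratedDeriv n f' τ := by
  obtain e : ∀ (u : ℝ → ℝ) (p q : ℝ),
      iteratedDeriv n (fun σ => p * (u σ - q)) τ = p * iteratedDeriv n u τ := by
    intro u p q
    rw [iteratedDeriv_const_mul_field, ← iteratedDeriv_const_add (f := u) hn (-q)]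
    simp only [neg_add_eq_sub]
  rw [← e f a b, ← e f' a' b']
  exact EventuallyEq.iteratedDeriv_eq n h

variable {g : R3 → ℝ} {N E : ℕ} {P : RD}

/-- the defect of the jets of `X` at step `j` -/
theorem dfx (hJ : STJ_s) (h : Ref g N E P) {τ : ℝ} {X : ℤ → ℝ → ℝ} {j : ℤ} {n e : ℕ} (a : P.s ≤ j)
    (b : j ≤ P.J) (hn : 1 ≤ n) (hN : n ≤ N) (he : e ≤ E)
    (hU : ((τ, X j τ, X (j - 1) τ) : R3) ∈ UB P.R P.t0 P.r j) (s1 : ContDiffAt ℝ ∞ (X j) τ)
    (s2 : ContDiffAt ℝ ∞ (X (j - 1)) τ) (eq : ∀ᶠ σ in 𝓝 τ, X (j + 1) σ = g (σ, X j σ, X (j - 1) σ))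
    (ih : ∀ i, 1 ≤ i → i < n → |iteratedDeriv i (X j) τ| ≤ P.μ j ^ e ∧
      |iteratedDeriv i (X (j - 1)) τ| ≤ P.μ (j - 1) ^ e) :
    |P.R.df (fun l => iteratedDeriv n (X l) τ) j| ≤ P.μ j ^ ((n + 3) * (e + 1) + 3)
      + P.Λ ^ 2 * P.r * P.R.sz (fun l => iteratedDeriv n (X l) τ) j := by
  have L := h.lm j a b
  obtain m := h.big (j := j) (by omega) b
  have one := LS.pw1 m (e + 1)
  obtain k := (hJ g _ N _ _ _ _ _ L n id (X j) (X (j - 1)) (fun _ => 0) (fun _ => 0) τ (P.μ j ^ (e + 1))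
    (P.μ j ^ (e + 1)) 0 hn hN hU contDiffAt_id (cd s1 n) (cd s2 n) contDiffAt_const contDiffAt_const
    (by linarith only [one]) le_rfl one le_rfl fun i h1 h2 => ⟨
      (mul_le_one₀ L.dl1 (abs_nonneg _) (id_le h1 τ)).trans one,
      (ih i h1 h2).1.trans (LS.pw m (by omega)),
      (mul_le_mul_of_nonneg_left (ih i h1 h2).2 L.b0.le).trans (h.bmu he a b)⟩).1
  rw [← EventuallyEq.iteratedDeriv_eq n (f := X (j + 1)) (g := fun σ => g (cv id (X j) (X (j - 1)) σ)) eq]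
    at k
  obtain t1 : |gt g (cv id (X j) (X (j - 1)) τ)| ≤ 2 := by
    have := abs_le.1 (L.ht _ hU)
    exact abs_le.2 ⟨by change _ ≤ gt g (τ, _, _); linarith only [this], by change gt g (τ, _, _) ≤ _; linarith only [this]⟩
  obtain t2 : |gt g (cv id (X j) (X (j - 1)) τ) * iteratedDeriv n id τ| ≤ 2 := by
    rw [abs_mul]; exact (mul_le_of_le_one_right (abs_nonneg _) (id_le hn τ)).trans t1
  obtain p1 : P.μ j ^ 2 * (P.μ j ^ (e + 1)) ^ 2 * (P.μ j ^ (e + 1)) ^ n = P.μ j ^ ((n + 2) * (e + 1) + 2) := by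
    ring
  obtain p2 := LS.pw3 m (a := (n + 2) * (e + 1) + 2) (b := (n + 3) * (e + 1) + 3) (by linarith only [])
  have p3 := LS.pw1 m ((n + 2) * (e + 1) + 2)
  rw [p1] at k
  unfold Sq.df Sq.sz
  have k1 := abs_le.1 k
  have k2 := abs_le.1 t2
  exact abs_le.2 ⟨by linarith only [p2, p3, k1.1, k2.1], by linarith only [p2, p3, k1.2, k2.2]⟩

theorem fwd_ind (hJ : STJ_s) (hF : APF1_s) (M : ℕ) : ∃ e : ℕ, ∀ g N E P τ (X : ℤ → ℝ → ℝ),
    Ref g N E P → e + 12 ≤ E → |τ - P.t0| ≤ P.r → (∀ j, 0 ≤ j → j ≤ P.J → ContDiffAt ℝ ∞ (X j) τ) →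
    (∀ᶠ σ in 𝓝 τ, EqX g σ (fun j => X j σ) 1 P.J) → Tube P.R (fun j => X j τ) 0 P.J P.r →
    (∀ n, 1 ≤ n → n ≤ N → |iteratedDeriv n (X 0) τ| ≤ 2 ∧ |iteratedDeriv n (X 1) τ| ≤ 2) →
    ∀ n, n ≤ M → 1 ≤ n → n ≤ N → ∀ j, 0 ≤ j → j ≤ P.J → |iteratedDeriv n (X j) τ| ≤ P.μ j ^ e := by
  induction M with
  | zero => exact ⟨0, fun _ _ _ _ _ _ _ _ _ _ _ _ _ n h1 h2 => by omega⟩
  | succ M ih =>
    obtain ⟨e, ih⟩ := ih
    obtain hle : e ≤ (M + 1 + 3) * (e + 1) + 3 := by nlinarith only []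
    refine ⟨(M + 1 + 3) * (e + 1) + 3 + 7, fun g N E P τ X h hE ht sm eq tb ini n hM h1 hN j j0 jJ => ?_⟩
    obtain IH := ih g N E P τ X h (by omega) ht sm eq tb ini
    have s0 := h.s0
    have J1 := h.J1
    rcases hM.eq_or_lt with rfl | hM'
    · obtain two : ∀ l, 0 ≤ l → l ≤ P.J → 2 ≤ 1 * P.μ l ^ ((M + 1 + 3) * (e + 1) + 3) := fun l a b => by
        obtain m := h.big (j := l) (by omega) b
        obtain this := LS.pw3 m (a := 0) (b := (M + 1 + 3) * (e + 1) + 3) (by omega)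
        linarith only [this]
      obtain this := hF P.R E ((M + 1 + 3) * (e + 1) + 3) P.μ P.D (fun l => iteratedDeriv (M + 1) (X l) τ) P.J
        P.J P.Λ 1 (P.Λ ^ 2 * P.r) h.ct.fc (h.top (by omega) le_rfl) J1 le_rfl zero_le_one h.ρ0
        (h.ρ10 (by omega)) (fun l a b => by
          rw [one_mul]
          exact dfx hJ h (by omega) b.le h1 hN (by omega) (mem_UB tb ht (by omega) b.le)
            (sm l (by omega) b.le) (sm (l - 1) (by omega) (by omega)) (eq.mono fun σ H => H l a b)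
            fun i i1 i2 => ⟨IH i (by omega) i1 (by omega) l (by omega) b.le,
              IH i (by omega) i1 (by omega) (l - 1) (by omega) (by omega)⟩)
        ((ini _ h1 hN).1.trans (two 0 le_rfl (by omega))) ((ini _ h1 hN).2.trans (two 1 (by omega) J1))
        j j0 jJ
      rwa [one_mul] at this
    · exact (IH n (by omega) h1 hN j j0 jJ).trans (LS.pw (h.big (by omega) jJ) (by omega))

/-- the defect of the jets of `η` at step `j` -/
theorem dfe (hJ : STJ_s) (h : Ref g N E P) {τ : ℝ} {X η : ℤ → ℝ → ℝ} {j : ℤ} {n e : ℕ} (a : P.s ≤ j)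
    (b : j ≤ P.J) (hn : 1 ≤ n) (hN : n ≤ N) (he : e ≤ E)
    (hU : ((τ, X j τ, X (j - 1) τ) : R3) ∈ UB P.R P.t0 P.r j) (s1 : ContDiffAt ℝ ∞ (X j) τ)
    (s2 : ContDiffAt ℝ ∞ (X (j - 1)) τ) (s3 : ContDiffAt ℝ ∞ (η j) τ)
    (s4 : ContDiffAt ℝ ∞ (η (j - 1)) τ)
    (eq : ∀ᶠ σ in 𝓝 τ, η (j + 1) σ =
      ga g (σ, X j σ, X (j - 1) σ) * η j σ + gb g (σ, X j σ, X (j - 1) σ) * η (j - 1) σ)
    (ih : ∀ i, 1 ≤ i → i < n → |iteratedDeriv i (X j) τ| ≤ P.μ j ^ e ∧
      |iteratedDeriv i (X (j - 1)) τ| ≤ P.μ (j - 1) ^ e)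
    (ih' : ∀ i, i < n → |iteratedDeriv i (η j) τ| ≤ P.μ j ^ e * P.D j ∧
      |iteratedDeriv i (η (j - 1)) τ| ≤ P.μ (j - 1) ^ e * P.D (j - 1)) :
    |P.R.df (fun l => iteratedDeriv n (η l) τ) j| ≤ P.μ j ^ ((n + 3) * (e + 1) + 3) * P.D j
      + P.μ j ^ (e + 3) * P.D j * P.R.sz (fun l => iteratedDeriv n (X l) τ) j
      + P.Λ ^ 2 * P.r * P.R.sz (fun l => iteratedDeriv n (η l) τ) j := by
  have L := h.lm j a b
  obtain m := h.big (j := j) (by omega) b
  have one := LS.pw1 m (e + 1)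
  have D0 := h.Dpos b
  obtain k := (hJ g _ N _ _ _ _ _ L n id (X j) (X (j - 1)) (η j) (η (j - 1)) τ (P.μ j ^ (e + 1))
    (P.μ j ^ (e + 1)) (P.μ j ^ (e + 1) * P.D j) hn hN hU contDiffAt_id (cd s1 n) (cd s2 n) (cd s3 n)
    (cd s4 n) (by linarith only [one]) le_rfl one (by (clear * - m D0; positivity)) fun i h1 h2 => ⟨
      (mul_le_one₀ L.dl1 (abs_nonneg _) (id_le h1 τ)).trans one,
      (ih i h1 h2).1.trans (LS.pw m (by omega)),
      (mul_le_mul_of_nonneg_left (ih i h1 h2).2 L.b0.le).trans (h.bmu he a b)⟩).2.1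
    fun i h2 => ⟨(ih' i h2).1.trans (mul_le_mul_of_nonneg_right (LS.pw m (by omega)) D0.le),
      (mul_le_mul_of_nonneg_left (ih' i h2).2 L.b0.le).trans (h.bD he a b)⟩
  rw [← EventuallyEq.iteratedDeriv_eq n (f := η (j + 1))
    (g := tg g (cv id (X j) (X (j - 1))) (η j) (η (j - 1))) eq] at k
  have t1 : P.dl * |iteratedDeriv n id τ| ≤ 1 := mul_le_one₀ L.dl1 (abs_nonneg _) (id_le hn τ)
  have t0 : 0 ≤ P.dl * |iteratedDeriv n id τ| := mul_nonneg L.dl0 (abs_nonneg _)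
  obtain p1 : P.μ j ^ 2 * P.μ j ^ (e + 1) * (P.μ j ^ (e + 1)) ^ (n + 1) * (P.μ j ^ (e + 1) * P.D j)
      = P.μ j ^ ((n + 3) * (e + 1) + 2) * P.D j := by ring
  have p2 := mul_le_mul_of_nonneg_right
    (LS.pw3 m (a := (n + 3) * (e + 1) + 2) (b := (n + 3) * (e + 1) + 3) le_rfl) D0.le
  obtain p3 := mul_le_mul_of_nonneg_right
    (LS.pw m (a := e + 2) (b := (n + 3) * (e + 1) + 2) (by nlinarith only [hn])) D0.le
  have p4 := mul_le_mul_of_nonneg_right (LS.pw3 m (a := e + 2) (b := e + 3) le_rfl) D0.le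
  obtain p5 : 2 * P.μ j * (P.μ j ^ (e + 1) * P.D j) = 2 * (P.μ j ^ (e + 2) * P.D j) := by ring
  obtain p6 : 0 < P.μ j ^ (e + 2) * P.D j := by positivity
  rw [p1, p5] at k
  unfold Sq.df Sq.sz
  refine k.trans ?_
  obtain z : 0 ≤ |iteratedDeriv n (X j) τ| + P.R.b j * |iteratedDeriv n (X (j - 1)) τ| := by
    have := L.b0; (clear * - this; positivity)
  obtain q1 := mul_le_mul_of_nonneg_right (show 2 * (P.μ j ^ (e + 2) * P.D j) ≤ P.μ j ^ (e + 3) * P.D j by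
    linarith only [p4, p6]) z
  have q2 := mul_le_mul_of_nonneg_left t1 p6.le
  simp only []
  linarith only [p2, p3, p6, q1, q2]

/-- the step `0` with the gain `δ` -/
theorem fold (hJ : STJ_s) (h : Ref g N E P) {τ : ℝ} {F : Fm} {n e : ℕ} (hn : 1 ≤ n) (hN : n ≤ N)
    (he : e ≤ E) (hE : 2 ≤ E) (ht : |τ - P.t0| ≤ P.r) (sm : F.Sm (P.s - 1) P.J τ)
    (sol : ∀ᶠ σ in 𝓝 τ, Sol g P σ (F.x σ) (F.e σ)) (tb : Tube P.R (F.x τ) (P.s - 1) P.J P.r)
    (ih : ∀ i, 1 ≤ i → i < n → |iteratedDeriv i (F.X 0) τ| ≤ P.δ ∧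
      |iteratedDeriv i (F.X (-1)) τ| ≤ P.μ (-1) ^ e)
    (ih' : ∀ i, i < n → |iteratedDeriv i (F.η (-1)) τ| ≤ P.μ (-1) ^ e * P.D (-1)) :
    (|iteratedDeriv n (F.X 0) τ| ≤ P.δ → |iteratedDeriv n (F.X (-1)) τ| ≤ P.μ (-1) ^ e →
      |iteratedDeriv n (F.X 1) τ - iteratedDeriv n id τ| ≤ 1 / 10) ∧
    P.L / 2 * |iteratedDeriv n (F.X 0) τ| ≤ 4 * P.δ + |iteratedDeriv n (F.η 1) τ|
      + 2 * P.R.b 0 * |iteratedDeriv n (F.η (-1)) τ|
      + P.μ 0 ^ (e + 3) * P.R.b 0 * |iteratedDeriv n (F.X (-1)) τ| := by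
  have s0 := h.s0
  have J1 := h.J1
  obtain L := h.lm 0 s0 (by omega)
  have m := h.big0
  obtain hU : cv id (F.X 0) (F.X (-1)) τ ∈ UB P.R P.t0 P.r 0 := mem_UB tb ht (by omega) (by omega)
  have d0 := h.δ_pos
  have d1 := h.δ_le_one
  have d2 := h.δmu hE
  obtain d3 := h.muδ (by omega)
  obtain d4 := h.δ_small (by omega)
  have b0 := L.b0
  obtain ⟨k1, -, k3⟩ := hJ g _ N _ _ _ _ _ L n id (F.X 0) (F.X (-1)) (fun _ => 0) (F.η (-1)) τ P.δ 1 P.δ
    hn hN hU contDiffAt_id (cd (sm 0 (by omega) (by omega)).1 n) (cd (sm (-1) (by omega) (by omega)).1 n)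
    contDiffAt_const (cd (sm (-1) (by omega) (by omega)).2 n) d0.le d1 le_rfl d0.le fun i h1 h2 => ⟨
      (mul_le_of_le_one_right L.dl0 (id_le h1 τ)).trans h.dl_le, (ih i h1 h2).1,
      (mul_le_mul_of_nonneg_left (ih i h1 h2).2 b0.le).trans (h.b0mu he)⟩
  have i1 := id_le hn τ
  constructor
  · intro x0 x1
    rw [← EventuallyEq.iteratedDeriv_eq n (f := F.X 1) (g := fun σ => g (cv id (F.X 0) (F.X (-1)) σ))
      (sol.mono fun σ H => by have e1 := H.eqx 0 s0 (by omega); exact e1)] at k1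
    have x2 := (mul_le_mul_of_nonneg_left x1 b0.le).trans (h.b0mu he)
    obtain a1 : |P.R.a 0 * iteratedDeriv n (F.X 0) τ| ≤ 1 / 1000 := by
      rw [abs_mul]
      refine (mul_le_mul (h.ale s0 (by omega)) x0 (abs_nonneg _) (by linarith only [m, d0, d4])).trans ?_
      nlinarith only [m, d2, mul_pos d0 (show 0 < P.μ 0 by linarith only [m, d0, d4])]
    obtain a2 : |P.R.b 0 * iteratedDeriv n (F.X (-1)) τ| ≤ 1 / 1000 := by
      rw [abs_mul, abs_of_pos b0]; linarith only [d4, x2]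
    obtain a3 : |(gt g (cv id (F.X 0) (F.X (-1)) τ) - 1) * iteratedDeriv n id τ| ≤ 1 / 100 := by
      rw [abs_mul]; exact (mul_le_of_le_one_right (abs_nonneg _) i1).trans (L.ht _ hU)
    obtain a4 : P.μ 0 ^ 2 * P.δ ^ 2 * 1 ^ n ≤ 1 / 1000 := by rw [one_pow]; nlinarith only [d4, d0, d2]
    obtain a5 : P.Λ ^ 2 * P.r * (|iteratedDeriv n (F.X 0) τ| + P.R.b 0 * |iteratedDeriv n (F.X (-1)) τ|)
        ≤ 1 / 2 * (2 * P.δ) := mul_le_mul L.ρ1 (by linarith only [x0, x2]) (by (clear * - b0; positivity)) (by norm_num)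
    have c0 := abs_le.1 k1
    have c1 := abs_le.1 a1
    have c2 := abs_le.1 a2
    have c3 := abs_le.1 a3
    exact abs_le.2 ⟨by linarith only [d0, d4, a4, a5, c0.1, c1.1, c2.1, c3.1], by linarith only [d0, d4, a4, a5, c0.2, c1.2, c2.2, c3.2]⟩
  · obtain k := k3 P.L h.fold (fun i h2 => by
      have := ih' i h2
      rw [h.ct.Dneg (-1) (by norm_num), mul_one] at this
      exact (mul_le_mul_of_nonneg_left this b0.le).trans (h.b0mu he)) d1 (h.muδ_L (by omega))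
    rw [← EventuallyEq.iteratedDeriv_eq n (f := F.η 1)
      (g := tg g (cv id (F.X 0) (F.X (-1))) (fun _ => 1) (F.η (-1))) (sol.mono fun σ H => by
        obtain e1 := H.eqe 0 s0 (by omega)
        rw [H.one] at e1
        exact e1)] at k
    have a1 : P.dl * |iteratedDeriv n id τ| ≤ P.δ ^ 2 := (mul_le_of_le_one_right L.dl0 i1).trans h.dlδ
    obtain a2 := mul_le_mul_of_nonneg_left a1 (show 0 ≤ P.μ 0 by linarith only [m, d0, d4])
    obtain a3 : 2 * P.μ 0 ≤ P.μ 0 ^ (e + 3) := by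
      obtain this := LS.pw3 m (a := 1) (b := e + 3) (by omega)
      rw [pow_one] at this; linarith only [m, d0, d4, this]
    obtain a4 := mul_le_mul_of_nonneg_right a3
      (show 0 ≤ P.R.b 0 * |iteratedDeriv n (F.X (-1)) τ| by positivity)
    have a5 := mul_le_mul_of_nonneg_right d2 d0.le
    have a6 := mul_le_mul_of_nonneg_right d3 d0.le
    rw [one_pow] at k
    linarith only [k, a2, a4, a5, a6]

theorem jet_ind (hJ : STJ_s) (hL : LS_s) (hA : AP0_s) (M : ℕ) : ∃ e : ℕ, ∀ g N E P τ (F : Fm),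
    Ref g N E P → e + 100 ≤ E → |τ - P.t0| ≤ P.r → F.Sm (P.s - 1) P.J τ →
    (∀ᶠ σ in 𝓝 τ, Sol g P σ (F.x σ) (F.e σ)) → Tube P.R (F.x τ) (P.s - 1) P.J P.r →
    ∀ n, n ≤ M → n ≤ N → (∀ j, P.s - 1 ≤ j → j ≤ P.J → (1 ≤ n → |iteratedDeriv n (F.X j) τ| ≤ P.μ j ^ e) ∧
      |iteratedDeriv n (F.η j) τ| ≤ P.μ j ^ e * P.D j) ∧ (1 ≤ n → |iteratedDeriv n (F.X 0) τ| ≤ P.δ) := by
  induction M with
  | zero =>
    refine ⟨10, fun g N E P τ F h hE ht _ sol tb n h1 _ => ?_⟩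
    obtain rfl : n = 0 := by omega
    exact ⟨fun j a b => ⟨fun c => by omega,
      (hA g N E P τ _ _ h (by omega) ht sol.self_of_nhds tb).1 j a b⟩, fun c => by omega⟩
  | succ M ih =>
    obtain ⟨e, ih⟩ := ih
    obtain ⟨e', he'⟩ : ∃ e', e' = (M + 1 + 3) * (e + 1) + 3 := ⟨_, rfl⟩
    refine ⟨e' + (e + 3) + 31, fun g N E P τ F h hE ht sm sol tb n hM hN => ?_⟩
    obtain IH := ih g N E P τ F h (by omega) ht sm sol tb
    have s0 := h.s0
    have J1 := h.J1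
    rcases hM.eq_or_lt with rfl | hM'
    · obtain h1 : 1 ≤ M + 1 := by omega
      obtain hx : ∀ l, P.s ≤ l → l ≤ P.J → ∀ i, 1 ≤ i → i < M + 1 →
          |iteratedDeriv i (F.X l) τ| ≤ P.μ l ^ e ∧ |iteratedDeriv i (F.X (l - 1)) τ| ≤ P.μ (l - 1) ^ e :=
        fun l a b i i1 i2 => ⟨((IH i (by omega) (by omega)).1 l (by omega) b).1 i1,
          ((IH i (by omega) (by omega)).1 (l - 1) (by omega) (by omega)).1 i1⟩
      obtain ⟨k0, k⟩ := hL P.R E e' (e + 3) P.ξ P.w P.μ P.D (fun l => iteratedDeriv (M + 1) (F.X l) τ)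
        (fun l => iteratedDeriv (M + 1) (F.η l) τ) P.s P.J P.Λ P.L P.δ 1 (4 * P.δ) 0 0 (P.Λ ^ 2 * P.r)
        h.ct (by omega) zero_le_one (by linarith only [h.δ_pos]) le_rfl le_rfl h.ρ0 (h.ρ10 (by omega))
        (fun l a b => by
          rw [one_mul, zero_mul, add_zero, add_zero, he']
          exact dfx hJ h a b.le h1 hN (by omega) (mem_UB tb ht (by omega) b.le)
            (sm l (by omega) b.le).1 (sm (l - 1) (by omega) (by omega)).1
            (sol.mono fun σ H => H.eqx l a b) (hx l a b.le))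
        (fun l a b _ => by
          rw [one_mul, zero_mul, add_zero, add_zero, he']
          exact dfe hJ h a b.le h1 hN (by omega) (mem_UB tb ht (by omega) b.le)
            (sm l (by omega) b.le).1 (sm (l - 1) (by omega) (by omega)).1
            (sm l (by omega) b.le).2 (sm (l - 1) (by omega) (by omega)).2
            (sol.mono fun σ H => H.eqe l a b) (hx l a b.le)
            fun i i2 => ⟨((IH i (by omega) (by omega)).1 l (by omega) b.le).2,
              ((IH i (by omega) (by omega)).1 (l - 1) (by omega) (by omega)).2⟩)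
        (fold hJ h h1 hN (by omega) (by omega) ht sm sol tb
          (fun i i1 i2 => ⟨(IH i (by omega) (by omega)).2 i1,
            ((IH i (by omega) (by omega)).1 (-1) (by omega) (by omega)).1 i1⟩)
          fun i i2 => ((IH i (by omega) (by omega)).1 (-1) (by omega) (by omega)).2).2
        (by
          rw [d_line (f := F.X (P.s - 1)) (f' := F.X P.s) h1 (sol.mono fun σ H => H.linx)]
          simp)
        (by
          rw [d_line (f := F.η (P.s - 1)) (f' := F.η P.s) (a' := P.ξ (P.s - 1)) (b := 0) (b' := 0) h1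
            (sol.mono fun σ H => by rw [sub_zero, sub_zero]; exact H.line)]
          simp)
        (d_const h1 (sol.mono fun σ H => H.one))
        (by rw [d_const (f := F.η P.J) h1 (sol.mono fun σ H => H.zero)]; simp)
      simp only [zero_mul, add_zero, mul_zero, mul_one] at k0 k
      have d0 := h.δ_pos
      have d1 := h.δ_le_one
      obtain x0 : |iteratedDeriv (M + 1) (F.X 0) τ| ≤ P.δ := by
        nlinarith only [k0, d0, h.ct.L1, abs_nonneg (iteratedDeriv (M + 1) (F.X 0) τ)]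
      refine ⟨fun j a b => ?_, fun _ => x0⟩
      have m := h.big a b
      have D0 := h.Dpos b
      obtain p1 := LS.pw3 m (a := e' + 20) (b := e' + (e + 3) + 31) (by omega)
      have p2 := LS.pw3 m (a := e' + (e + 3) + 30) (b := e' + (e + 3) + 31) le_rfl
      have p3 := LS.pw1 m (e' + 20)
      have p4 := LS.pw1 m (e' + (e + 3) + 30)
      refine ⟨fun _ => (k j a b).1.trans (by nlinarith only [d1, x0, p1, p3]), (k j a b).2.trans ?_⟩
      exact mul_le_mul_of_nonneg_right (by nlinarith only [d1, x0, p1, p2, p3, d0, p4]) D0.le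
    · obtain ⟨k1, k2⟩ := IH n (by omega) hN
      refine ⟨fun j a b => ?_, k2⟩
      obtain p := LS.pw (h.big a b) (a := e) (b := e' + (e + 3) + 31) (by omega)
      exact ⟨fun c => ((k1 j a b).1 c).trans p,
        (k1 j a b).2.trans (mul_le_mul_of_nonneg_right p (h.Dpos b).le)⟩

end JET

theorem fwdj (hJ : STJ_s) (hF : APF1_s) : FWDJ_s := fun N => by
  obtain ⟨e, H⟩ := JET.fwd_ind hJ hF N
  exact ⟨e, e + 12, fun g E P τ X h hE ht sm eq tb ini j a b n h1 hN =>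
    H g N E P τ X h hE ht sm eq tb ini n hN h1 hN j a b⟩

theorem jet (hJ : STJ_s) (hL : LS_s) (hA : AP0_s) : JET_s := fun N => by
  obtain ⟨e, H⟩ := JET.jet_ind hJ hL hA N
  refine ⟨e, e + 100, fun g E P τ F h hE ht sm sol tb => ?_⟩
  have K := fun n hn => H g N E P τ F h hE ht sm sol tb n hn hn
  have s0 := h.s0
  have J1 := h.J1
  have f : ∀ n, 1 ≤ n → n ≤ N → |iteratedDeriv n (F.X 1) τ - iteratedDeriv n id τ| ≤ 1 / 10 :=
    fun n h1 hN => (JET.fold hJ h h1 hN (by omega) (by omega) ht sm sol tb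
      (fun i i1 i2 => ⟨(K i (by omega)).2 i1, ((K i (by omega)).1 (-1) (by omega) (by omega)).1 i1⟩)
      fun i i2 => ((K i (by omega)).1 (-1) (by omega) (by omega)).2).1 ((K n hN).2 h1)
      (((K n hN).1 (-1) (by omega) (by omega)).1 h1)
  refine ⟨fun j a b n hn => (K n hn).1 j a b, fun n h1 hN => (K n hN).2 h1, fun hN => ?_,
    fun n h2 hN => ?_⟩
  · simpa [iteratedDeriv_id] using f 1 le_rfl hN
  · have := f n (by omega) hN
    rw [iteratedDeriv_id, if_neg (by omega), if_neg (by omega), sub_zero] at this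
    linarith only [this]

end Pool.Agent.MP_9cbfe4_an.SS

end

/-! ### Part JS -/

section

/-! Section S, row JS: the horizon (helper27). -/

namespace Pool.Agent.MP_9cbfe4_an.SS

open Finset Filter Topology

noncomputable section

namespace JSp

structure Nm (c : Cs) : Prop where
  ch0 : 0 < c.chK
  chb : c.chK ≤ c.bl
  M1 : 1 ≤ c.M1
  a0 : 0 < c.a
  a1 : c.a ≤ 1 / 400

theorem nm : Hier Nm := by
  have h1 := Hier.lam_ge (fun _ => 10) fun _ _ => rfl
  have h2 := Hier.β_ge (fun _ => 10) fun _ _ _ => rfl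
  have h3 := Hier.M1_ge (fun _ => 1) fun _ _ _ _ => rfl
  have h4 := Hier.a_le (fun _ => 1 / 400) (fun _ _ _ _ _ _ => rfl) (Hier.of_all fun _ => by norm_num)
  refine ((((Hier.base.and h1).and h2).and h3).and h4).mono fun c h => ?_
  obtain ⟨⟨⟨⟨hb, h1⟩, h2⟩, h3⟩, h4⟩ := h
  obtain k0 : 0 < c.k0 := by linarith only [h4, hb.1]
  refine ⟨Real.log_pos ?_, ?_, h3, h4.1, h4.2⟩
  · rw [lt_div_iff₀ k0]; linarith only [h4, hb.2.1]
  · obtain a1 : 1 / c.k0 ≤ 16 := by rw [div_le_iff₀ k0]; linarith only [hb.1]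
    have a2 := Real.log_le_sub_one_of_pos (one_div_pos.2 k0)
    unfold Cs.chK Cs.bl
    nlinarith only [h4, h2, h1, a1, a2]

end JSp

theorem js : Hier fun c => SOK_s c → B1_s c → RHO_s c → JS_s c :=
  JSp.nm.mono fun c N hS hB hR M hM Ex y φ h => by
  have hO : (φ.S M).OK c :=
    ((hS M hM φ.t ⟨by linarith only [h.ht.1], by linarith only [h.ht.2]⟩).2.1 φ.v h.hv).2
  set S := φ.S M with hSd
  have n0 : 0 ≤ φ.n := h.out.1
  have y0 : 0 < y := by linarith only [h.y_lo, N.ch0, N.chb]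
  have st : S.St c (S.fr (φ.n + 1)) (φ.n + 1) :=
    ⟨by omega, S.fr_sol _, S.fr_self _, by rw [S.fr_pred, abs_zero]; positivity⟩
  have inv : ∀ {Ls J r}, S.BRun c Ex φ.ξ φ.n Ls J r →
      S.RInv c (S.fr (φ.n + 1)) (φ.n + 1) J ∧ S.BInv c φ.n Ls J := fun hb =>
    ⟨((hB Ex S hO).1 _ _ _ _ _ st hb.1).2, (hB Ex S hO).2.1 _ _ _ _ _ h.out hb.1 hb.2.1⟩
  have mem : ∀ {y' Ls J r}, S.BRun c Ex φ.ξ φ.n Ls J r → y' ≤ S.chi c φ.n J →
      (J - φ.n).toNat ∈ {N : ℕ | ∃ Ls r, S.BRun c Ex φ.ξ φ.n Ls (φ.n + N) r ∧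
        y' ≤ S.chi c φ.n (φ.n + N)} := fun {y' Ls J r} hb hy => by
    have := (inv hb).1.le
    have e : φ.n + ((J - φ.n).toNat : ℤ) = J := by omega
    exact ⟨Ls, r, by rw [e]; exact hb, by rw [e]; exact hy⟩
  have mini : ∀ {y' Ls J r}, S.BRun c Ex φ.ξ φ.n Ls J r → y' ≤ S.chi c φ.n J →
      φ.n + FJ c Ex M y' φ ≤ J := fun {y' Ls J r} hb hy => by
    have a1 := Nat.sInf_le (mem hb hy)
    have a2 := (inv hb).1.le
    unfold FJ
    rw [← hSd]
    omega
  obtain ⟨L0, J0, r0, b0, c0, ρ0⟩ := h.hor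
  obtain ⟨Ls, r, hb, hy⟩ : ∃ Ls r, S.BRun c Ex φ.ξ φ.n Ls (φ.n + FJ c Ex M y φ) r ∧
      y ≤ S.chi c φ.n (φ.n + FJ c Ex M y φ) := Nat.sInf_mem ⟨_, mem b0 c0⟩
  have M0 : 0 < c.M1 := by linarith only [N.M1]
  refine ⟨⟨Ls, r, hb, (inv hb).1, (inv hb).2⟩, hy, ?_, ?_, fun y' hy' => ⟨?_, ?_⟩⟩
  · have yM : 0 < y / c.M1 := by positivity
    rcases Ls with _ | ⟨⟨m, r1⟩, Ls⟩
    · rw [Sq.Run.nil c S hb.1, Sq.Wp, Sq.WW, S.AA_self, Real.log_one]
      linarith only [yM]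
    · obtain ⟨t1, t2, t3, -⟩ := Sq.Run.tail c S hb.1
      have lt : S.chi c φ.n m < y := by
        by_contra hc
        have := mini ⟨t1, t2⟩ (not_lt.1 hc)
        omega
      have hW : S.Wt c (S.fr (φ.n + 1)) (φ.n + 1) m r1 ≤ y / c.M1 := by
        rw [le_div_iff₀ M0]
        linarith only [lt, t2.2.c2]
      have ch := ((hB Ex S hO).1 _ _ _ _ _ st hb.1).1
      generalize φ.n + FJ c Ex M y φ = p at ch ⊢
      cases ch with
      | cons q1 q2 q3 =>
        have ne := (inv ⟨t1, t2⟩).1.ne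
        have A1 := S.one_le_AA c (S.fr (φ.n + 1)) (φ.n + 1)
        have e1 : S.AA c (S.fr (φ.n + 1)) (φ.n + 1) m ≤ Real.exp (y / c.M1) := by
          rw [← Real.log_le_iff_le_exp (by linarith only [A1 m])]
          exact (le_max_left _ _).trans hW
        have e2 : |S.fr (φ.n + 1) m| * Real.exp r1 ≤ Real.exp (y / c.M1) := by
          rw [← Real.exp_log (abs_pos.2 ne), ← Real.exp_add]
          exact Real.exp_le_exp.2 ((le_max_right _ _).trans hW)
        have e3 : (101 : ℝ) ≤ Real.exp 5 := by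
          have a1 : (27 / 10 : ℝ) ≤ Real.exp 1 := by linarith only [Real.exp_one_gt_d9]
          have a2 := pow_le_pow_left₀ (by norm_num) a1 5
          rw [← Real.exp_nat_mul] at a2
          norm_num at a2 ⊢
          linarith only [a2]
        rw [Sq.Wp, Sq.WW, Real.log_le_iff_le_exp (by linarith only [A1 p]), Real.exp_add]
        have e4 := mul_le_mul_of_nonneg_left e3 (Real.exp_pos (y / c.M1)).le
        linarith only [e1, e2, e4, q2.A_hi]
  · have i1 := (inv hb).1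
    have a1 := (hR S φ.ξ φ.n L0 J0 hO h.out (inv b0).1 (inv b0).2).2 _ (by have := i1.le; omega)
      (mini b0 c0) i1.whm
    have s1 : Real.sqrt c.a ≤ 1 / 20 := Real.sqrt_le_iff.2 ⟨by norm_num, by linarith only [N.a1]⟩
    have a2 : Real.exp (-(1 - 2 * c.a) * S.chi c φ.n (φ.n + FJ c Ex M y φ)) ≤ 1 / c.S0 y ^ 10 := by
      rw [Cs.S0, ← Real.exp_nat_mul, one_div, ← Real.exp_neg]
      refine Real.exp_le_exp.2 ?_
      push_cast
      nlinarith only [y0, hy, s1, N.a1, mul_le_mul_of_nonneg_right s1 y0.le]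
    have a3 := abs_sub_abs_le_abs_sub (S.rho φ.ξ φ.n (φ.n + FJ c Ex M y φ)) (S.rho φ.ξ φ.n J0)
    have e : 2 / c.S0 y ^ 10 = 1 / c.S0 y ^ 10 + 1 / c.S0 y ^ 10 := by ring
    linarith only [ρ0, a1, a2, a3, e]
  · linarith only [mini hb (hy'.trans hy)]
  · have := (S.Nw_spec c N.ch0 N.chb φ.n y').2 _ (hy'.trans (S.Nw_spec c N.ch0 N.chb φ.n y).1)
    unfold Fs Sq.st
    rw [← hSd]
    omega

end
end Pool.Agent.MP_9cbfe4_an.SS

end

/-! ### Part TBR -/

section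

/-! Section S, row TBR: the model in the tube of an orbit. -/

namespace Pool.Agent.MP_9cbfe4_an.SS

open Finset Filter Topology
open scoped ContDiff

noncomputable section

namespace TBR

theorem openOB (c : Cs) : IsOpen (OB c) := by
  unfold OB
  exact (isOpen_lt continuous_const continuous_fst).inter
    ((isOpen_lt continuous_fst continuous_const).inter
      ((isOpen_lt continuous_snd.fst.abs continuous_const).inter
        (isOpen_lt continuous_snd.snd.abs continuous_const)))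

theorem convUB (R : Sq) (t r : ℝ) (j : ℤ) : Convex ℝ (UB R t r j) := by
  obtain this : UB R t r j = Metric.closedBall ((t, R.X j, R.X (j - 1)) : R3) r := by
    ext z; simp [UB, Prod.dist_eq, Real.dist_eq]
  rw [this]; exact convex_closedBall _ _

variable {K E k : ℕ} {c : Cs} {y : ℝ} {M : Mdl}

/-- the numbers used in this row; `A = exp (a bl)` -/
structure Nu (K E : ℕ) (c : Cs) (y : ℝ) : Prop where
  L : 10 ^ 4 ≤ c.L
  CG : 1 ≤ c.CG
  bl : 10 ^ 4 ≤ c.bl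
  A : c.CG * c.L ≤ Real.exp (c.a * c.bl)
  A2 : c.CG * Real.exp (c.a * c.bl) ≤ Lam K c y
  LΛ : c.L ≤ Lam K c y
  r0 : 0 < rr K E c y
  r1 : Lam K c y ^ 2 * rr K E c y * Lam K c y ≤ 1
  dl0 : 0 < c.dl
  dl1 : c.dl ≤ 1 / 100
  mu : ∀ S j, Real.exp (c.a * c.bl) ^ (K + 7) ≤ mu K c y S j

theorem nu (h : NuS K E c) (hE : 10 ≤ E) (hy : c.bl / 4 < y) : Nu K E c y := by
  obtain ⟨L1, L2, L3⟩ := h.L
  obtain ⟨k1, k2, k3⟩ := h.chK
  have a0 := h.a0
  have abl := h.abl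
  have K0 : (0 : ℝ) ≤ K := Nat.cast_nonneg K
  obtain A : c.CG * c.L ≤ Real.exp (c.a * c.bl) := by
    obtain this : 0 ≤ c.CG * c.L := by positivity
    nlinarith only [L1, L2, L3, k3, this]
  have l1 := (h.lam y hy).1
  obtain LΛ : c.L ≤ Lam K c y := by nlinarith only [L1, k3, l1]
  obtain Λ1 : 1 ≤ Lam K c y := by linarith only [L1, LΛ]
  obtain y0 : 0 ≤ y + 2 * c.bl := by linarith only [hy, k3]
  refine ⟨L1, L3, k3, A, ?_, LΛ, by unfold rr; positivity, ?_, Real.exp_pos _, ?_, fun S j => ?_⟩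
  · have e0 := Real.exp_pos (c.a * c.bl)
    obtain this : c.CG ≤ Real.exp (c.a * c.bl) := by nlinarith only [L1, A, e0, L3]
    refine (mul_le_mul_of_nonneg_right this e0.le).trans ?_
    rw [← Real.exp_add]
    refine Real.exp_le_exp.2 ?_
    have := mul_nonneg a0.le y0
    nlinarith only [abl, this]
  · unfold rr
    rw [show Lam K c y ^ 2 * (1 / Lam K c y ^ E) * Lam K c y = Lam K c y ^ 3 / Lam K c y ^ E by ring,
      div_le_one (by positivity)]
    exact pow_le_pow_right₀ Λ1 (by omega)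
  · obtain this : (100 : ℝ) ≤ Real.exp (2 * c.bl) := by linarith only [k3, Real.add_one_le_exp (2 * c.bl)]
    unfold Cs.dl
    rw [show -2 * c.bl = -(2 * c.bl) by ring, Real.exp_neg, ← one_div]
    exact one_div_le_one_div_of_le (by norm_num) this
  · rw [← Real.exp_nat_mul]
    refine Real.exp_le_exp.2 ?_
    have c0 : 0 ≤ c.chK := (Real.log_nonneg one_le_two).trans k1
    obtain c1 : c.chK ≤ c.bl := by linarith only [k2, k3]
    have : 0 ≤ min (chd c S j) (y + 2 * c.bl) :=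
      le_min (add_nonneg (S.chi_nonneg c c0 c1 _ _) (S.chi_nonneg c c0 c1 _ _)) y0
    have := mul_nonneg a0.le this
    push_cast
    linarith only [abl, this]

theorem Nu.Λ (h : Nu K E c y) : 10 ^ 4 ≤ Lam K c y := h.L.trans h.LΛ
theorem Nu.r2 (h : Nu K E c y) : Lam K c y ^ 2 * rr K E c y ≤ 1 / 10 ^ 4 := by
  obtain this := mul_le_mul_of_nonneg_left h.Λ (show 0 ≤ Lam K c y ^ 2 * rr K E c y by
    have := h.r0; positivity)
  linarith only [this, h.r1]
theorem Nu.r3 (h : Nu K E c y) : 2 * (Lam K c y * rr K E c y) ≤ Lam K c y ^ 2 * rr K E c y := by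
  obtain this := mul_le_mul_of_nonneg_right h.Λ (show 0 ≤ Lam K c y * rr K E c y by
    have := h.r0; have := h.Λ; positivity)
  obtain this : 0 ≤ Lam K c y * rr K E c y := by have := h.r0; have := h.Λ; positivity
  (rename_i zq0; linarith only [zq0, this])
theorem Nu.r4 (h : Nu K E c y) : c.L * rr K E c y ≤ 1 / 10 ^ 4 := by
  have := mul_le_mul_of_nonneg_right h.LΛ h.r0.le
  obtain this : 0 ≤ Lam K c y * rr K E c y := by have := h.r0; have := h.Λ; positivity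
  (rename_i zq0; linarith only [zq0, h.r2, h.r3])
theorem Nu.r5 (h : Nu K E c y) : rr K E c y ≤ 1 / 10 ^ 4 := by
  have := mul_le_mul_of_nonneg_right h.L h.r0.le
  have := h.r0
  (rename_i zq0; linarith only [zq0, this, h.r4])

theorem sm (hM : M.OKk c k) {z : R3} (hz : z ∈ OB c) : ContDiffAt ℝ ∞ M.GG z :=
  hM.smooth.contDiffAt ((openOB c).mem_nhds hz)

theorem part (hM : M.OKk c k) {z : R3} (hz : z ∈ OB c) : ga M.GG z = M.Ga z.1 z.2.1 z.2.2 ∧
    gb M.GG z = M.Gb z.1 z.2.1 z.2.2 ∧ gt M.GG z = M.Gt z.1 z.2.1 z.2.2 := by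
  simp [ga, gb, gt, hM.d1 z hz]

theorem ti {z : R3} (hz : z ∈ OB c) : TI z.1 ∧ Box c z.2.1 ∧ Box c z.2.2 :=
  ⟨⟨hz.1.le, hz.2.1.le⟩, hz.2.2.1.le, hz.2.2.2.le⟩

theorem gb_pos (hM : M.OKk c k) {z : R3} (hz : z ∈ OB c) : 0 < gb M.GG z := by
  rw [(part hM hz).2.1]
  exact lt_of_lt_of_le (by positivity) (hM.ok.b_lo _ _ _ (ti hz).1 (ti hz).2.1 (ti hz).2.2)

/-- the region of `bd'` -/
def Reg (c : Cs) (z : R3) : Prop :=
  z ∈ OB c ∧ (1 / 100 ≤ dP z.2.1 ∨ 1 / 100 ≤ dP z.2.2 ∨ dP z.2.2 ≤ c.w0)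

/-- second derivatives -/
theorem d2 (h : Nu K E c y) (hM : M.OKk c (K + 6)) {z v : R3} (hz : Reg c z) {r : ℝ}
    (h1 : |v.1| ≤ r) (h2 : |v.2.1| ≤ r) (h3 : |v.2.2| ≤ r) :
    |fderiv ℝ (ga M.GG) z v| ≤ c.CG * c.L * r ∧
    |fderiv ℝ (gb M.GG) z v| ≤ c.CG * Real.exp (c.a * c.bl) * r * gb M.GG z := by
  obtain L0 : 0 < c.L := by linarith only [h.L]
  obtain C0 : 0 ≤ c.CG * c.L := by have := h.CG; positivity
  have g0 := gb_pos hM hz.1
  have r0 : 0 ≤ r := (abs_nonneg _).trans h1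
  set q := min (1 / 4) (Real.exp (c.a * c.bl) * M.Gb z.1 z.2.1 z.2.2 / c.L) with hq
  obtain q0 : 0 ≤ q := le_min (by norm_num) (by rw [← (part hM hz.1).2.1]; positivity)
  have q1 : q ≤ 1 / 4 := min_le_left _ _
  obtain q2 : q ≤ Real.exp (c.a * c.bl) * gb M.GG z / c.L := by
    rw [(part hM hz.1).2.1]; exact min_le_right _ _
  obtain f1 : max (c.dl * |v.1|) (max |v.2.1| (q * |v.2.2|)) ≤ r := by
    refine max_le ?_ (max_le h2 ?_)
    · obtain this := mul_le_mul h.dl1 h1 (abs_nonneg _) (by norm_num); linarith only [r0, this]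
    · obtain this := mul_le_mul q1 h3 (abs_nonneg _) (by norm_num); linarith only [r0, this]
  obtain key : ∀ e : R3, |fderiv ℝ (fun y => fderiv ℝ M.GG y e) z v| ≤
      c.CG * c.L * (r * max (c.dl * |e.1|) (max |e.2.1| (q * |e.2.2|))) := fun e => by
    have a := mg_iter (sm hM hz.1) e 1 ![v]
    rw [iteratedFDeriv_one_apply] at a
    obtain b := hM.bd' (1 + 1) le_rfl (by omega) z hz.1 hz.2 (Fin.snoc ![v] e)
    rw [← a, Fin.prod_univ_castSucc] at b
    simp only [Fin.snoc_castSucc, Fin.snoc_last, Fin.prod_univ_one, Matrix.cons_val_fin_one,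
      ← hq] at b
    exact b.trans (mul_le_mul_of_nonneg_left (mul_le_mul_of_nonneg_right f1
      (le_max_of_le_right (le_max_of_le_left (abs_nonneg _)))) C0)
  constructor
  · have a := key (0, 1, 0)
    simp only [abs_zero, mul_zero, abs_one, max_eq_left zero_le_one, max_eq_right zero_le_one,
      mul_one] at a
    exact a
  · have a := key (0, 0, 1)
    simp only [abs_zero, mul_zero, abs_one, mul_one, max_eq_right q0] at a
    refine a.trans ?_
    have b := mul_le_mul_of_nonneg_left q2 (mul_nonneg C0 r0)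
    calc _ = c.CG * c.L * r * q := by ring
      _ ≤ _ := b
      _ = _ := by field_simp

theorem lm (hN : NuS K E c) (h : Nu K E c y) (hM : M.OKk c (K + 6)) {R : Sq} {t : ℝ} {j : ℤ}
    (hU : ∀ z ∈ UB R t (rr K E c y) j, Reg c z) (ha : R.a j = M.Ga t (R.X j) (R.X (j - 1)))
    (hb : R.b j = M.Gb t (R.X j) (R.X (j - 1))) :
    LM M.GG (UB R t (rr K E c y) j) (K + 4) (R.a j) (R.b j) (mu K c y R j) c.dl
      (Lam K c y ^ 2 * rr K E c y) := by
  have r0 := h.r0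
  have Λ := h.Λ
  obtain L0 : 0 < c.L := by linarith only [h.L]
  obtain m0 : ((t, R.X j, R.X (j - 1)) : R3) ∈ UB R t (rr K E c y) j := by simp [UB, r0.le]
  have e0 := Real.exp_pos (c.a * c.bl)
  obtain e1 : 1 ≤ Real.exp (c.a * c.bl) := Real.one_le_exp (by linarith only [hN.abl])
  have ea : R.a j = ga M.GG (t, R.X j, R.X (j - 1)) := ha.trans (part hM (hU _ m0).1).1.symm
  have eb : R.b j = gb M.GG (t, R.X j, R.X (j - 1)) := hb.trans (part hM (hU _ m0).1).2.1.symm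
  have b0 : 0 < R.b j := eb ▸ gb_pos hM (hU _ m0).1
  obtain HB : ∀ z ∈ UB R t (rr K E c y) j,
      |gb M.GG z - R.b j| ≤ Lam K c y ^ 2 * rr K E c y * R.b j := by
    intro z hz
    obtain ⟨ζ, hζ, -, e⟩ := st0_mvt (f := fun z => Real.log (gb M.GG z)) (convUB _ _ _ _)
      (fun z hz => (mg_smooth (sm hM (hU z hz).1) _).log (gb_pos hM (hU z hz).1).ne') m0 hz
    have gζ := gb_pos hM (hU ζ hζ).1
    obtain d : HasFDerivAt (gb M.GG) (fderiv ℝ (gb M.GG) ζ) ζ :=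
      ((mg_smooth (sm hM (hU ζ hζ).1) _).differentiableAt (by simp)).hasFDerivAt
    rw [(d.log gζ.ne').fderiv, smul_apply, smul_eq_mul, ← eb] at e
    have b := (d2 h hM (v := z - (t, R.X j, R.X (j - 1))) (hU ζ hζ) hz.1 hz.2.1 hz.2.2).2
    obtain b1 : |Real.log (gb M.GG z) - Real.log (R.b j)| ≤ Lam K c y * rr K E c y := by
      rw [e, abs_mul, abs_of_pos (inv_pos.2 gζ), inv_mul_le_iff₀ gζ, mul_comm]
      exact b.trans (mul_le_mul_of_nonneg_right (mul_le_mul_of_nonneg_right h.A2 r0.le) gζ.le)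
    obtain b2 := Real.abs_exp_sub_one_le (x := Real.log (gb M.GG z) - Real.log (R.b j))
      (by linarith only [b1, h.r2, h.r3, abs_nonneg (Real.log (gb M.GG z) - Real.log (R.b j))])
    rw [Real.exp_sub, Real.exp_log (gb_pos hM (hU z hz).1), Real.exp_log b0] at b2
    rw [show gb M.GG z - R.b j = (gb M.GG z / R.b j - 1) * R.b j by field_simp, abs_mul, abs_of_pos b0]
    exact mul_le_mul_of_nonneg_right (by linarith only [b1, b2, h.r3]) b0.le
  refine ⟨convUB _ _ _ _, fun z hz => sm hM (hU z hz).1, b0, ?_, h.dl0.le, by linarith only [h.dl1],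
    by positivity, by linarith only [h.r2], fun k k1 k2 z hz v => ?_, fun z hz => ?_, HB, fun z hz => ?_⟩
  · exact hN.fac.trans ((le_self_pow₀ e1 (by omega)).trans (h.mu R j))
  · obtain gz : M.Gb z.1 z.2.1 z.2.2 ≤ 2 * R.b j := by
      have a := (abs_le.1 (HB z hz)).2
      have b := mul_le_mul_of_nonneg_right h.r2 b0.le
      rw [(part hM (hU z hz).1).2.1] at a
      linarith only [b0, a, b]
    obtain q : min (1 / 4) (Real.exp (c.a * c.bl) * M.Gb z.1 z.2.1 z.2.2 / c.L)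
        ≤ Real.exp (c.a * c.bl) * R.b j := by
      refine (min_le_right _ _).trans ?_
      rw [div_le_iff₀ L0, mul_assoc]
      refine mul_le_mul_of_nonneg_left ?_ e0.le
      nlinarith only [b0, gz, h.L]
    obtain p : ∏ i, max (c.dl * |(v i).1|) (max |(v i).2.1|
        (min (1 / 4) (Real.exp (c.a * c.bl) * M.Gb z.1 z.2.1 z.2.2 / c.L) * |(v i).2.2|))
        ≤ ∏ i, Real.exp (c.a * c.bl) * pg c.dl (R.b j) (v i) := by
      refine prod_le_prod (fun i _ => le_max_of_le_right (le_max_of_le_left (abs_nonneg _)))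
        fun i _ => ?_
      have p0 := pg_nonneg c.dl (R.b j) (v i)
      have p1 := le_mul_of_one_le_left p0 e1
      refine max_le ((le_max_left _ _).trans p1) (max_le
        ((le_max_of_le_right (le_max_left _ _)).trans p1) ?_)
      refine (mul_le_mul_of_nonneg_right q (abs_nonneg _)).trans ?_
      rw [mul_assoc]
      exact mul_le_mul_of_nonneg_left (le_max_of_le_right (le_max_right _ _)) e0.le
    rw [prod_mul_distrib, prod_const, card_univ, Fintype.card_fin] at p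
    have p0 : 0 ≤ ∏ i, pg c.dl (R.b j) (v i) := prod_nonneg fun i _ => pg_nonneg _ _ _
    refine (hM.bd' k k1 (by omega) z (hU z hz).1 (hU z hz).2 v).trans
      ((mul_le_mul h.A p (prod_nonneg fun i _ =>
        le_max_of_le_right (le_max_of_le_left (abs_nonneg _))) e0.le).trans ?_)
    rw [← mul_assoc, ← pow_succ']
    exact mul_le_mul_of_nonneg_right ((pow_le_pow_right₀ e1 (by omega)).trans (h.mu R j)) p0
  · obtain ⟨ζ, hζ, -, e⟩ := st0_mvt (f := ga M.GG) (convUB _ _ _ _)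
      (fun z hz => mg_smooth (sm hM (hU z hz).1) _) m0 hz
    rw [ea, e]
    refine (d2 h hM (v := z - (t, R.X j, R.X (j - 1))) (hU ζ hζ) hz.1 hz.2.1 hz.2.2).1.trans ?_
    obtain a : c.CG * c.L ≤ Lam K c y := by nlinarith only [e0, h.A, h.A2, h.CG]
    have b := mul_le_mul_of_nonneg_right a r0.le
    obtain this : 0 ≤ Lam K c y * rr K E c y := by positivity
    linarith only [b, this, h.r3]
  · rw [(part hM (hU z hz).1).2.2]
    have := ti (hU z hz).1
    exact (hM.ok.t_all _ _ _ this.1 this.2.1 this.2.2).trans h.dl1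

theorem d2cos (L : ℝ) (z : R3) :
    iteratedFDeriv ℝ 2 (fun z : R3 => L * Real.cos z.2.1) z ![(0, 1, 0), (0, 1, 0)]
      = -(L * Real.cos z.2.1) := by
  obtain a := ((ContinuousLinearMap.fst ℝ ℝ ℝ).comp (ContinuousLinearMap.snd ℝ ℝ (ℝ × ℝ))).iteratedFDeriv_comp_right
    (f := fun x : ℝ => L * Real.cos x) (n := 2) (by fun_prop) z (i := 2) le_rfl
  have e : (fun z : R3 => L * Real.cos z.2.1) = (fun x : ℝ => L * Real.cos x) ∘
    ((ContinuousLinearMap.fst ℝ ℝ ℝ).comp (ContinuousLinearMap.snd ℝ ℝ (ℝ × ℝ))) := rfl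
  rw [e, a, ContinuousMultilinearMap.compContinuousLinearMap_apply]
  obtain b : (fun i => ((ContinuousLinearMap.fst ℝ ℝ ℝ).comp (ContinuousLinearMap.snd ℝ ℝ (ℝ × ℝ)))
      ((![(0, 1, 0), (0, 1, 0)] : Fin 2 → R3) i)) = fun _ => (1 : ℝ) := by
    funext i; fin_cases i <;> simp
  rw [b, ← iteratedDeriv_eq_iteratedFDeriv, iteratedDeriv_const_mul_field]
  simp

theorem fold (h : Nu K E c y) (hM : M.OKk c (K + 6)) {z : R3} (hz : z ∈ OB c)
    (hd : 1 / 100 ≤ dP z.2.1) :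
    |iteratedFDeriv ℝ 2 M.GG z ![(0, 1, 0), (0, 1, 0)] + c.L * Real.cos z.2.1| ≤ 1 := by
  obtain a := hM.fold 2 le_rfl (by omega) z hz hd
  have c1 : ContDiffAt ℝ (2 : ℕ) M.GG z := (sm hM hz).of_le (WithTop.coe_le_coe.2 (le_top : ((2 : ℕ) : ℕ∞) ≤ ⊤))
  obtain c2 : ContDiffAt ℝ (2 : ℕ) (fun z : R3 => c.L * Real.cos z.2.1) z := by fun_prop
  have b := iteratedFDeriv_sub_apply c1 c2
  have e : (fun z : R3 => M.GG z - c.L * Real.cos z.2.1)
      = M.GG - fun z : R3 => c.L * Real.cos z.2.1 := rfl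
  have d := (iteratedFDeriv ℝ 2 (fun z : R3 => M.GG z - c.L * Real.cos z.2.1) z).le_opNorm
    ![(0, 1, 0), (0, 1, 0)]
  obtain n : ∏ i, ‖(![(0, 1, 0), (0, 1, 0)] : Fin 2 → R3) i‖ = 1 := by simp [Prod.norm_def]
  rw [n, mul_one] at d
  have f := d.trans a
  rw [e, b, sub_apply, d2cos, Real.norm_eq_abs, sub_neg_eq_add] at f
  refine f.trans (Real.exp_le_one_iff.2 ?_)
  obtain this : (0 : ℝ) ≤ ((K + 6 : ℕ) : ℝ) + 2 := by positivity
  nlinarith only [h.bl]

end TBR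

open TBR in
theorem tbr (K E : ℕ) (c : Cs) (hN : NuS K E c) (hB : SOK.Big c) : TBR_s K E c := by
  intro hE M hM y hy
  have h := nu hN hE hy
  have L1 := h.L
  refine ⟨fun z hz => part hM hz, fun t x u u' hu hu' s hs => ?_, fun φ t1 t2 hv n0 => ?_⟩
  · obtain hz : ((t, x, s) : R3) ∈ OB c := by
      refine ⟨hu.1, hu.2.1, hu.2.2.1, ?_⟩
      have a : |u| < 2 * c.L := hu.2.2.2
      have b : |u'| < 2 * c.L := hu'.2.2.2
      rw [abs_lt] at a b
      show |s| < 2 * c.L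
      rw [abs_lt]
      rcases Set.mem_uIcc.1 hs with hs | hs <;> constructor <;> linarith only [hs.1, hs.2, a.1, a.2, b.1, b.2]
    refine ⟨sm hM hz, (gb_pos hM hz).le, fun k k1 k2 v hv => ?_⟩
    refine (hM.bd2 k k1 (by omega) _ hz v hv).trans ?_
    rw [← (part hM hz).2.1]
    exact mul_le_mul_of_nonneg_right (mul_le_mul_of_nonneg_right h.A2 (gb_pos hM hz).le)
      (prod_nonneg fun i _ => le_max_of_le_left (abs_nonneg _))
  obtain ht : TI φ.t := ⟨by linarith only [t1], by linarith only [t2]⟩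
  have orb := SOK.orbO hB hM.ok ht hv
  have ok := SOK.okO hB hM.ok ht hv
  have r5 := h.r5
  have r0 := h.r0
  have hX : ∀ j, (FR M φ).X j = (M.O φ.t φ.v).X (j + φ.n) := fun _ => rfl
  obtain hX' : ∀ j, (FR M φ).X (j - 1) = (M.O φ.t φ.v).X (j + φ.n - 1) := fun j => by
    rw [hX, sub_add_eq_add_sub]
  obtain pos : ∀ i, |(M.O φ.t φ.v).X i| ≤ 5 / 4 * c.L := fun i => by
    rcases lt_trichotomy i 0 with hi | rfl | hi
    · rw [ok.past i hi, abs_of_pos (by norm_num)]; linarith only [L1, r5, r0]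
    · obtain this : (M.O φ.t φ.v).X 0 = φ.v := by simp [Mdl.O, Mdl.orb, Mdl.pos]
      rw [this, abs_of_nonneg hv.1]; linarith only [L1, r5, r0, hv.2]
    · obtain e := orb.step (i - 1) (by omega)
      rw [sub_add_cancel] at e
      obtain a := hM.ok.val _ _ _ ht (orb.box (i - 1) (by omega)) (orb.box (i - 1 - 1) (by omega))
      rw [← e, abs_le] at a
      obtain b := mul_le_mul_of_nonneg_left (Real.cos_le_one ((M.O φ.t φ.v).X (i - 1)))
        (show 0 ≤ c.L by linarith only [L1, r5, r0])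
      obtain b' := mul_le_mul_of_nonneg_left (Real.neg_one_le_cos ((M.O φ.t φ.v).X (i - 1)))
        (show 0 ≤ c.L by linarith only [L1, r5, r0])
      obtain w : (1 - c.e0) * c.w0 * c.L ≤ 1 / 256 * c.L := mul_le_mul_of_nonneg_right
        (by nlinarith only [r5, r0, hB.e0_pos, hB.w0_pos, hB.w0_le]) (by linarith only [L1, r5, r0])
      rw [abs_le]
      constructor <;> linarith only [L1, t1, r5, r0, b', w, t2, b, a.1, a.2]
  obtain sub : ∀ j, UB (FR M φ) φ.t (rr K E c y) j ⊆ OB c := fun j z hz => by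
    have a := abs_le.1 hz.1
    have b := abs_sub_abs_le_abs_sub z.2.1 ((FR M φ).X j)
    have d := abs_sub_abs_le_abs_sub z.2.2 ((FR M φ).X (j - 1))
    have p1 : |(FR M φ).X j| ≤ 5 / 4 * c.L := pos _
    have p2 : |(FR M φ).X (j - 1)| ≤ 5 / 4 * c.L := pos _
    exact ⟨by linarith only [t1, r5, r0, a.1], by linarith only [t2, r5, r0, a.2], by linarith only [L1, r5, r0, b, p1, hz.2.1], by linarith only [L1, r5, r0, d, p2, hz.2.2]⟩
  refine ⟨fun j => pos _, fun j hj => ⟨sub j, lm hN h hM (fun z hz => ⟨sub j hz, ?_⟩) ?_ ?_⟩,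
    fun a0 d0 => ?_⟩
  · have a := abs_le.1 ((dP_lip _ _).trans hz.2.1)
    have b := abs_le.1 ((dP_lip _ _).trans hz.2.2)
    by_cases c1 : 2 / 100 ≤ dP ((FR M φ).X j)
    · left; linarith only [r5, r0, c1, a.1]
    by_cases c2 : 2 / 100 ≤ dP ((FR M φ).X (j - 1))
    · right; left; linarith only [r5, r0, c2, b.1]
    right; right
    rw [hX] at c1
    rw [hX'] at c2 b
    rcases (show 0 ≤ j + φ.n by omega).eq_or_lt with e | e
    · exfalso
      rw [ok.past _ (by omega)] at c2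
      have := SOK.abs_le_dP 10
      rw [abs_of_pos (by norm_num)] at this
      linarith only [r5, r0, c2, this]
    · obtain k : dP _ ≤ (1 - c.e0 / 2) * c.w0 := (ok.core (j + φ.n - 1) (by omega)
        (by rw [sub_add_cancel]; linarith only [r5, r0, c1]) (by linarith only [r5, r0, c2])).1
      have w := hB.w0L
      have r4 := h.r4
      obtain this : rr K E c y ≤ c.e0 * c.w0 / 2 := by
        refine le_of_mul_le_mul_left ?_ (show 0 < c.L by linarith only [L1, r5, r0])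
        linarith only [r5, r0, w, r4]
      linarith only [k, this, b.2]
  · rw [hX, hX']; exact orb.ha _ (by omega)
  · rw [hX, hX']; exact orb.hb _ (by omega)
  obtain x0 : (FR M φ).X 0 = (M.O φ.t φ.v).X φ.n := by rw [hX, zero_add]
  obtain x1 : (FR M φ).X 1 = (M.O φ.t φ.v).X (φ.n + 1) := by rw [hX, add_comm]
  obtain e0 : (FR M φ).a 0 = (M.O φ.t φ.v).a φ.n := by
    show (M.O φ.t φ.v).a (0 + φ.n) = _
    rw [zero_add]
  rw [e0, orb.ha _ n0, ← x0] at a0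
  obtain B0 : Box c ((FR M φ).X 0) := x0 ▸ orb.box _ (by omega)
  obtain B1 := orb.box (φ.n - 1) (by omega)
  obtain aN := hM.ok.a_N _ _ _ ht B0 B1 (by linarith only [r5, r0, d0])
  obtain vN := hM.ok.valN _ _ _ ht B0 B1 (by linarith only [r5, r0, d0])
  obtain st : (FR M φ).X 1 = M.G φ.t ((FR M φ).X 0) ((M.O φ.t φ.v).X (φ.n - 1)) := by
    rw [x1, x0]; exact orb.step _ n0
  rw [← st] at vN
  obtain ⟨x, hx⟩ : ∃ x, x = (FR M φ).X 0 := ⟨_, rfl⟩
  rw [← hx] at a0 aN vN d0 ⊢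
  obtain s1 : |Real.sin x| ≤ 1 / 1000 := by
    obtain a : |c.L * Real.sin x| ≤ 2 := by
      rw [abs_le] at a0 aN ⊢
      constructor <;> linarith only [r5, r0, a0.1, a0.2, aN.1, aN.2, h.dl1]
    rw [abs_mul, abs_of_pos (show 0 < c.L by linarith only [L1, r5, r0])] at a
    nlinarith only [L1, r5, r0, a, abs_nonneg (Real.sin x)]
  obtain c1 : 99 / 100 ≤ |Real.cos x| := by
    have a := Real.sin_sq_add_cos_sq x
    rw [← sq_abs (Real.sin x), ← sq_abs (Real.cos x)] at a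
    nlinarith only [r5, s1, a, r0, abs_nonneg (Real.sin x), abs_nonneg (Real.cos x)]
  refine ⟨?_, ?_, ?_⟩
  · obtain key : ∀ z ∈ UB (FR M φ) φ.t (rr K E c y) 0,
        |iteratedFDeriv ℝ 2 M.GG z ![(0, 1, 0), (0, 1, 0)] + c.L * Real.cos x| ≤ 2 := fun z hz => by
      have z1 : |z.2.1 - x| ≤ rr K E c y := hx ▸ hz.2.1
      have a := abs_le.1 ((dP_lip _ _).trans z1)
      obtain b := abs_le.1 (fold h hM (sub 0 hz) (by linarith only [r5, r0, d0, a.1]))
      obtain d := mul_le_mul_of_nonneg_left ((Real.abs_cos_sub_cos_le z.2.1 x).trans z1)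
        (show 0 ≤ c.L by linarith only [L1, r5, r0])
      rw [← abs_of_pos (show 0 < c.L by linarith only [L1, r5, r0]), ← abs_mul, abs_of_pos (show 0 < c.L by linarith only [L1, r5, r0]),
        abs_le] at d
      rw [abs_le]
      constructor <;> linarith only [r5, r0, b.1, b.2, d.1, d.2, h.r4]
    rcases le_abs.1 c1 with e | e
    · refine ⟨-1, Or.inr rfl, fun z hz => ?_⟩
      obtain this := mul_le_mul_of_nonneg_left e (show 0 ≤ c.L by linarith only [L1, r5, r0])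
      linarith only [L1, r5, r0, this, (abs_le.1 (key z hz)).2]
    · refine ⟨1, Or.inl rfl, fun z hz => ?_⟩
      obtain this := mul_le_mul_of_nonneg_left e (show 0 ≤ c.L by linarith only [L1, r5, r0])
      linarith only [L1, r5, r0, this, (abs_le.1 (key z hz)).1]
  · by_contra hlt
    have := SOK.sin_lo x
    nlinarith only [s1, hlt, this, d0, SOK.dP_nn x]
  · have a := SOK.abs_le_dP ((FR M φ).X 1)
    obtain b : Real.exp (-c.bl / 2) ≤ 1 := Real.exp_le_one_iff.2 (by linarith only [r5, r0, h.bl])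
    have d := abs_le.1 (vN.trans b)
    have e1 := le_abs_self ((FR M φ).X 1)
    have e2 := neg_abs_le ((FR M φ).X 1)
    rcases le_abs.1 c1 with e | e <;>
    · obtain this := mul_le_mul_of_nonneg_left e (show 0 ≤ c.L by linarith only [L1, r5, r0])
      linarith only [L1, t1, r5, r0, a, e1, this, t2, e2, d.1, d.2]

end
end Pool.Agent.MP_9cbfe4_an.SS

end

/-! ### Part RTB -/

section

/-! Section S, row RTB: separated histories are seen in the label. -/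

namespace Pool.Agent.MP_9cbfe4_an.SS

open Finset Filter Topology
open scoped ContDiff

namespace RTB

theorem gain {h h' : ℝ → ℝ} {a b p q k : ℝ} (h1 : a ≤ p) (h2 : p ≤ q) (h3 : q ≤ b)
    (hd : ∀ u ∈ Set.Icc a b, HasDerivAt h (h' u) u ∧ 0 ≤ h' u)
    (hk : ∀ u ∈ Set.Icc p q, k ≤ h' u) : k * (q - p) ≤ h b - h a := by
  obtain key : ∀ x z m, a ≤ x → x ≤ z → z ≤ b → (∀ u ∈ Set.Icc x z, m ≤ h' u) →
      m * (z - x) ≤ h z - h x := fun x z m a1 a2 a3 hm => by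
    have hs : ∀ u ∈ Set.Icc x z, HasDerivAt h (h' u) u := fun u hu =>
      (hd u ⟨a1.trans hu.1, hu.2.trans a3⟩).1
    refine (convex_Icc x z).mul_sub_le_image_sub_of_le_deriv
      (fun u hu => (hs u hu).continuousAt.continuousWithinAt)
      (fun u hu => (hs u (interior_subset hu)).differentiableAt.differentiableWithinAt)
      (fun u hu => ?_) x ⟨le_rfl, a2⟩ z ⟨a2, le_rfl⟩ a2
    rw [(hs u (interior_subset hu)).deriv]; exact hm u (interior_subset hu)
  obtain k1 := key a p 0 le_rfl h1 (h2.trans h3) fun u hu => (hd u ⟨hu.1, by linarith only [h2, h3, hu.2]⟩).2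
  have k2 := key p q k h1 h2 h3 hk
  obtain k3 := key q b 0 (h1.trans h2) h3 le_rfl fun u hu => (hd u ⟨by linarith only [h1, h2, hu.1], hu.2⟩).2
  linarith only [k1, k2, k3]

theorem sepG {h h' : ℝ → ℝ} {u0 u1 d k : ℝ} (d0 : 0 ≤ d) (hd : d ≤ |u1 - u0|)
    (hh : ∀ u ∈ Set.uIcc u0 u1, HasDerivAt h (h' u) u ∧ 0 ≤ h' u)
    (hk : ∀ u, |u - u0| ≤ d → k ≤ h' u) : k * d ≤ |h u1 - h u0| := by
  rcases le_total u0 u1 with c | c
  · rw [Set.uIcc_of_le c] at hh
    rw [abs_of_nonneg (by linarith only [c])] at hd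
    obtain this := gain (p := u0) (q := u0 + d) le_rfl (by linarith only [d0]) (by linarith only [hd]) hh fun u hu =>
      hk u (abs_le.2 ⟨by linarith only [d0, hu.1], by linarith only [hu.2]⟩)
    linarith only [this, le_abs_self (h u1 - h u0)]
  · rw [Set.uIcc_of_ge c] at hh
    rw [abs_of_nonpos (by linarith only [c])] at hd
    obtain this := gain (p := u0 - d) (q := u0) (by linarith only [hd]) (by linarith only [d0]) le_rfl hh fun u hu =>
      hk u (abs_le.2 ⟨by linarith only [hu.1], by linarith only [d0, hu.2]⟩)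
    linarith only [this, neg_abs_le (h u1 - h u0)]

theorem vseg {g : R3 → ℝ} {N : ℕ} {m t x y y' : ℝ} (h : VSeg g N m t x y y') :
    ∀ u ∈ Set.uIcc y y', HasDerivAt (fun u => g (t, x, u)) (gb g (t, x, u)) u ∧ 0 ≤ gb g (t, x, u) :=
  fun u hu => ⟨((h u hu).1.differentiableAt (by simp)).hasFDerivAt.comp_hasDerivAt u
    ((hasDerivAt_const u t).prodMk ((hasDerivAt_const u x).prodMk (hasDerivAt_id u))), (h u hu).2.1⟩

theorem half {g : R3 → ℝ} {U : Set R3} {N : ℕ} {a b m dl ρ : ℝ} (h : LM g U N a b m dl ρ) {z : R3}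
    (hz : z ∈ U) : b / 2 ≤ gb g z := by
  have h1 := (abs_le.1 (h.hb z hz)).1
  have h2 := mul_le_mul_of_nonneg_right h.ρ1 h.b0.le
  linarith only [h1, h2]

/-- the final absorption -/
theorem absorb {Λ ρ A l u x η ν : ℝ} {a E : ℕ} (hΛ : 1000 ≤ Λ) (ha : a + 1 ≤ E) (A0 : 0 ≤ A)
    (hρ : ρ * (1000 * Λ ^ (3 * E)) ≤ 1) (hu : |u| ≤ ρ) (hη : |η - ν| ≤ 2 * ρ)
    (h1 : A ≤ Λ ^ a * (|x - η * u| + u ^ 2)) (h2 : |u| ≤ Λ ^ (2 * E) * A) (hl : l = x - ν * u) :
    A ≤ Λ ^ E * |l| := by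
  obtain Λ1 : 1 ≤ Λ := by linarith only [hΛ]
  have u0 := abs_nonneg u
  have l0 := abs_nonneg l
  obtain b1 : |x - η * u| ≤ |l| + 2 * ρ * |u| := by
    obtain e : x - η * u = l - (η - ν) * u := by rw [hl]; ring
    have := abs_sub l ((η - ν) * u)
    rw [abs_mul] at this
    rw [e]; linarith only [this, mul_le_mul_of_nonneg_right hη u0]
  obtain b2 : u ^ 2 ≤ ρ * |u| := by rw [← sq_abs, sq]; exact mul_le_mul_of_nonneg_right hu u0
  have ρ0 : 0 ≤ ρ := u0.trans hu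
  obtain p0 : 0 ≤ Λ ^ a := by positivity
  obtain b3 : A ≤ Λ ^ a * (|l| + 3 * (ρ * (Λ ^ (2 * E) * A))) :=
    h1.trans (mul_le_mul_of_nonneg_left (by linarith only [b1, b2, mul_le_mul_of_nonneg_left h2 ρ0]) p0)
  obtain b4 : Λ ^ a * Λ ^ (2 * E) ≤ Λ ^ (3 * E) := by
    rw [← pow_add]; exact pow_le_pow_right₀ Λ1 (by omega)
  have b5 := mul_le_mul_of_nonneg_right b4 (mul_nonneg ρ0 A0)
  have b6 := mul_le_mul_of_nonneg_right hρ A0
  obtain b7 : Λ ^ a * Λ ≤ Λ ^ E := by rw [← pow_succ]; exact pow_le_pow_right₀ Λ1 ha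
  have b8 := mul_le_mul_of_nonneg_right b7 l0
  have b9 := mul_le_mul_of_nonneg_right hΛ (mul_nonneg p0 l0)
  linarith only [A0, b3, b5, b6, b8, b9]

theorem fin {Λ r ρ G b b' κ κ' u x η ν : ℝ} {a e' E : ℕ} (hΛ : 1000 ≤ Λ) (ha : a + 2 ≤ E)
    (he : e' + 1 ≤ E) (rE : r * Λ ^ E = 1) (r0 : 0 < r) (b0 : 0 < b) (G1 : b / 2 * (r / 8) ≤ G)
    (G2 : b' / 2 * (r / 8) ≤ G) (k0 : 0 ≤ κ) (k1 : κ' ≤ b * Λ * κ)
    (hρ : ρ * (1000 * Λ ^ (3 * E)) ≤ 1) (hu : |u| ≤ ρ) (hη : |η - ν| ≤ 2 * ρ)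
    (S : G * κ ≤ Λ ^ a * (|x - η * u| + u ^ 2)) (D : |u| ≤ Λ ^ e' * ((G + b + b') * κ)) :
    κ' ≤ Λ ^ (4 * E) * |x - ν * u| ∧ Λ ^ e' * ((G + b + b') * κ) ≤ Λ ^ (4 * E) * |x - ν * u| := by
  obtain Λ1 : 1 ≤ Λ := by linarith only [hΛ]
  have pE : 1 ≤ Λ ^ E := one_le_pow₀ Λ1
  obtain G0 : 0 ≤ G := le_trans (by positivity) G1
  obtain up : ∀ b, b / 2 * (r / 8) ≤ G → b ≤ 16 * (Λ ^ E * G) := fun b hb => by
    obtain c1 := mul_le_mul_of_nonneg_left hb (show 0 ≤ Λ ^ E by positivity)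
    obtain c2 : Λ ^ E * (b / 2 * (r / 8)) = b / 16 * (r * Λ ^ E) := by ring
    rw [c2, rE] at c1; linarith only [c1]
  have g1 := up _ G1
  have g2 := up _ G2
  have g3 : G ≤ Λ ^ E * G := le_mul_of_one_le_left G0 pE
  obtain g4 := mul_le_mul_of_nonneg_right hΛ (show 0 ≤ Λ ^ E * G by (clear * - hΛ G0; positivity))
  have A0 : 0 ≤ G * κ := mul_nonneg G0 k0
  obtain D' : Λ ^ e' * ((G + b + b') * κ) ≤ Λ ^ (2 * E) * (G * κ) := by
    obtain c1 : Λ ^ e' * (Λ * Λ ^ E) ≤ Λ ^ (2 * E) := by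
      rw [← pow_succ', ← pow_add]; exact pow_le_pow_right₀ Λ1 (by omega)
    have c2 := mul_le_mul_of_nonneg_right c1 A0
    obtain c3 := mul_le_mul_of_nonneg_left (mul_le_mul_of_nonneg_right
      (show G + b + b' ≤ Λ * (Λ ^ E * G) by linarith only [b0, g1, g2, g3, g4]) k0) (show 0 ≤ Λ ^ e' by positivity)
    linarith only [c2, c3]
  obtain A := absorb hΛ (show a + 1 ≤ E by omega) A0 hρ hu hη S (D.trans D') rfl
  obtain f : Λ ^ (2 * E) * (G * κ) ≤ Λ ^ (4 * E) * |x - ν * u| :=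
    (mul_le_mul_of_nonneg_left A (by positivity)).trans (by
      rw [← mul_assoc, ← pow_add]
      exact mul_le_mul_of_nonneg_right (pow_le_pow_right₀ Λ1 (by omega)) (abs_nonneg _))
  refine ⟨le_trans ?_ f, D'.trans f⟩
  obtain c1 : Λ * (Λ * Λ ^ E) ≤ Λ ^ (2 * E) := by
    rw [← pow_succ', ← pow_succ']; exact pow_le_pow_right₀ Λ1 (by omega)
  have c2 := mul_le_mul_of_nonneg_right c1 A0
  obtain c3 := mul_le_mul_of_nonneg_right (mul_le_mul_of_nonneg_right
    (show b ≤ Λ * (Λ ^ E * G) by linarith only [b0, g1, g4]) (show 0 ≤ Λ by linarith only [hΛ])) k0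
  linarith only [k1, c2, c3]

theorem kp_step {g : R3 → ℝ} {N E : ℕ} {P : RD} (R : Ref g N E P) {j : ℤ} (j1 : P.s ≤ j)
    (j0 : j ≤ 0) : 0 ≤ P.R.kp P.w j 0 ∧
      P.R.kp P.w (j - 1) 0 ≤ P.R.b j * P.Λ * P.R.kp P.w j 0 := by
  have hc := R.ct.hc
  have J1 := R.J1
  obtain w1 := hc.wpos j (by omega) j0
  obtain w2 : P.w (j - 1) ≤ P.Λ * P.w j := (hc.wle (j - 1) j (by omega) (by omega) j0).trans
    (mul_le_mul_of_nonneg_right (R.top (by omega) (by omega)) w1.le)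
  obtain k0 : 0 ≤ P.R.kp P.w j 0 := by
    unfold Sq.kp Sq.Pb
    refine div_nonneg (mul_nonneg (prod_nonneg fun l hl => ?_) w1.le)
      (hc.wpos 0 (by omega) le_rfl).le
    exact (hc.bpos l (by have := (mem_Ioc.1 hl).1; omega) (mem_Ioc.1 hl).2).le
  refine ⟨k0, ?_⟩
  rw [R.kp_mul (i := j - 1) (j := j) (by omega) (by omega) j0 j0]
  refine mul_le_mul_of_nonneg_right ?_ k0
  obtain e1 : Ioc (j - 1) j = {j} := by ext l; simp only [mem_Ioc, mem_singleton]; omega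
  rw [Sq.kp, Sq.Pb, e1, prod_singleton, div_le_iff₀ w1, mul_assoc]
  exact mul_le_mul_of_nonneg_left w2 (hc.bpos j j1 j0).le

theorem small {Λ r ρ b u : ℝ} {a E : ℕ} (hΛ : 0 ≤ Λ) (rE : r * Λ ^ E = 1) (r0 : 0 < r) (b0 : 0 < b)
    (hρ : ρ * (1000 * Λ ^ (a + E)) ≤ 1) (hu : u ≤ ρ) : b * u * Λ ^ a ≤ b / 2 * (r / 8) := by
  have c2 := mul_le_mul_of_nonneg_right hρ r0.le
  obtain c3 : ρ * (1000 * Λ ^ (a + E)) * r = 1000 * (ρ * Λ ^ a) * (r * Λ ^ E) := by ring
  rw [c3, rE] at c2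
  obtain c4 := mul_le_mul_of_nonneg_right hu (show 0 ≤ Λ ^ a by positivity)
  obtain c5 := mul_le_mul_of_nonneg_left (show u * Λ ^ a ≤ r / 16 by linarith only [r0, c2, c4]) b0.le
  linarith only [c5]

end RTB

open RTB in
theorem rtb (sep : SEP_s) (sepd : SEPD_s) (K e : ℕ) : ∃ E0 : ℕ, ∀ E, E0 ≤ E → ∀ c, NuS K E c →
    TBR_s K E c → RPRE_s K E e c → RTB_s K E e c := by
  obtain ⟨e', hD⟩ := sepd (K + 4) (2 * e)
  refine ⟨e' + 4 * e + 30, fun E hE c nu tbr pre M hM Ex y tU φ w F φ' w' F' ν h hν j j1 j0 cl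
    hsep τ hτ => ?_⟩
  have rf := h.g.rf
  have rf' := h.g'.rf
  have hy := rf.ok.y_lo
  obtain R0 := rf.ref (1 / 2) le_rfl (by norm_num)
  have R := rfrom _ _ _ _ j R0 j1 j0
  obtain R' := rf'.ref 1 (by norm_num) le_rfl
  have hΛ : 1000 ≤ Lam K c y := R.Λ_ge
  obtain Λ1 : 1 ≤ Lam K c y := by linarith only [hΛ]
  have r0 : 0 < rr K E c y := R.r0
  obtain hS : ∀ k ≤ 3 * E, 1000 * Lam K c y ^ k ≤ c.S0 y := fun k hk =>
    (mul_le_mul_of_nonneg_right hΛ (by positivity)).trans (by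
      rw [← pow_succ']; exact (pow_le_pow_right₀ Λ1 (by omega)).trans (nu.lam y hy).2.1)
  obtain S1 : 1 ≤ c.S0 y := by have := hS 0 (Nat.zero_le _); rw [pow_zero] at this; linarith only [this]
  obtain U0 : 0 < c.rU y := by unfold Cs.rU; (clear * - S1; positivity)
  obtain s2 : 1 / c.S0 y ^ 2 ≤ 1 / c.S0 y :=
    one_div_le_one_div_of_le (by linarith only [S1]) (le_self_pow₀ S1 two_ne_zero)
  obtain s3 : c.rU y ≤ 1 / c.S0 y :=
    one_div_le_one_div_of_le (by linarith only [S1]) (le_self_pow₀ S1 three_ne_zero)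
  obtain s4 : ∀ k ≤ 3 * E, c.rU y * (1000 * Lam K c y ^ k) ≤ 1 := fun k hk =>
    (mul_le_mul s3 (hS k hk) (by positivity) (by positivity)).trans_eq
      (one_div_mul_cancel (by positivity))
  obtain rE : rr K E c y * Lam K c y ^ E = 1 := one_div_mul_cancel (by positivity)
  obtain s5 : 1 / c.S0 y ≤ rr K E c y / 1000 := by
    unfold rr
    rw [div_div]
    exact one_div_le_one_div_of_le (by (clear * - hΛ; positivity)) (by linarith only [hS E (by omega)])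
  have t1 := abs_le.1 hτ
  have t2 := abs_le.1 h.ht
  have t3 := abs_le.1 h.ht'
  obtain m1 : τ ∈ Set.Ioo (φ.t - 3 * c.rU y) (φ.t + 3 * c.rU y) := ⟨by linarith only [U0, t1, t2], by linarith only [U0, t1, t2]⟩
  obtain m2 : τ ∈ Set.Ioo (φ'.t - 3 * c.rU y) (φ'.t + 3 * c.rU y) := ⟨by linarith only [U0, t1, t3], by linarith only [U0, t1, t3]⟩
  obtain τ2 : |τ - φ'.t| ≤ rr K E c y := abs_le.2 ⟨by linarith only [U0, s3, s5, t1, t3], by linarith only [U0, s3, s5, t1, t3]⟩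
  obtain ⟨u0, -, η1, -, -, two⟩ := (pre M hM Ex y tU φ w F φ' w' F' h).2 τ hτ
  obtain T := two j j1 j0 j (by omega) j0 cl
  have J1 : 1 ≤ FJ c Ex M y φ := R.J1
  have hs := h.hs
  have hJ := h.hJ
  obtain tb := h.g.tube τ m1 (j - 1) (by omega) (by omega)
  obtain tb' := h.g'.tube τ m2 (j - 1) (by omega) (by omega)
  obtain tj' := h.g'.tube τ m2 j (by omega) (by omega)
  obtain tj := T.tube' j le_rfl (show j ≤ FJ c Ex M y φ by omega)
  change |F.X (j - 1) τ - _| ≤ _ at tb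
  change |F'.X (j - 1) τ - _| ≤ _ at tb'
  obtain z1 : ∀ u, |u - F.X (j - 1) τ| ≤ rr K E c y / 8 →
      ((τ, F'.X j τ, u) : R3) ∈ UB (FR M φ) φ.t (rr K E c y) j := fun u hu =>
    ⟨T.ht, tj, (abs_sub_le _ _ _).trans (by linarith only [U0, s2, s3, s5, add_le_add hu tb])⟩
  obtain z2 : ∀ u, |u - F'.X (j - 1) τ| ≤ rr K E c y / 8 →
      ((τ, F'.X j τ, u) : R3) ∈ UB (FR M φ') φ'.t (rr K E c y) j := fun u hu =>
    ⟨τ2, tj'.trans (by linarith only [U0, s2, s3, s5]), (abs_sub_le _ _ _).trans (by linarith only [U0, s2, s3, s5, add_le_add hu tb'])⟩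
  obtain z3 := z2 (F'.X (j - 1) τ) (by rw [sub_self, abs_zero]; linarith only [U0, s3, s5])
  obtain ⟨-, vs, ob⟩ := tbr (by omega) M hM y hy
  obtain o1 := ((ob φ rf.ok.ht.1 rf.ok.ht.2 rf.ok.hv rf.ok.out.1).2.1 j (rf.lo.trans j1)).1
    (z1 _ (by rw [sub_self, abs_zero]; linarith only [U0, s3, s5]))
  obtain o2 := ((ob φ' rf'.ok.ht.1 rf'.ok.ht.2 rf'.ok.hv rf'.ok.out.1).2.1 j
    (rf'.lo.trans (by omega))).1 z3
  have V := vs _ _ _ _ o1 o2
  obtain lm := R.lm j le_rfl (show j ≤ FJ c Ex M y φ by omega)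
  obtain a1 : Fs c M y φ' ≤ j := by omega
  obtain a2 : j ≤ FJ c Ex M y φ' := by omega
  have lm' := R'.lm j a1 a2
  obtain far : rr K E c y / 8 ≤ |F'.X (j - 1) τ - F.X (j - 1) τ| := by
    have b1 := abs_sub_le ((FR M φ').X (j - 1)) (F'.X (j - 1) τ) ((FR M φ).X (j - 1))
    have b2 := abs_sub_le (F'.X (j - 1) τ) (F.X (j - 1) τ) ((FR M φ).X (j - 1))
    rw [abs_sub_comm] at tb'
    linarith only [hsep, U0, s2, s3, s5, tb, tb', b1, b2]
  obtain G1 := sepG (by linarith only [U0, s3, s5]) far (vseg V) fun u hu => half lm (z1 u hu)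
  obtain G2 := sepG (u0 := F'.X (j - 1) τ) (u1 := F.X (j - 1) τ) (by linarith only [U0, s3, s5])
    (by rwa [abs_sub_comm]) (by rw [Set.uIcc_comm]; exact vseg V) fun u hu => half lm' (z2 u hu)
  rw [abs_sub_comm] at G2
  obtain ev : ∀ᶠ σ in 𝓝 τ, EqX M.GG σ (F'.x σ) j (FJ c Ex M y φ) ∧
      EqE M.GG σ (F'.x σ) (F'.e σ) j (FJ c Ex M y φ) ∧ F.η (FJ c Ex M y φ) σ = 0 ∧
      F'.η (FJ c Ex M y φ) σ = 0 := by
    filter_upwards [isOpen_Ioo.mem_nhds m1, isOpen_Ioo.mem_nhds m2] with σ b1 b2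
    have c1 := h.g'.sol σ b2
    exact ⟨fun l l1 l2 => c1.eqx l (a1.trans l1) (l2.trans_eq hJ.symm),
      fun l l1 l2 => c1.eqe l (a1.trans l1) (l2.trans_eq hJ.symm), (h.g.sol σ b1).zero,
      hJ ▸ c1.zero⟩
  obtain a3 : Fs c M y φ' - 1 ≤ j - 1 := by omega
  obtain a4 : j - 1 ≤ FJ c Ex M y φ' := by omega
  obtain ee : Lam K c y ^ e ≤ Lam K c y ^ (2 * e) := pow_le_pow_right₀ Λ1 (by omega)
  obtain D := hD _ E _ τ F F' _ _ _ _ _ R (by omega) T ev lm' (R'.top (by exact a3.trans (by omega)) a2)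
    ((R'.ble a1 a2).trans (R'.top (by exact a3.trans (by omega)) a2))
    z3 V fun n hn =>
      ⟨fun n1 => (((h.g'.jb τ m2 _ a3 a4 n hn).1 n1).trans (R'.mu_pow_le a3 a4 e)).trans ee,
        ((h.g'.jb τ m2 _ a3 a4 n hn).2.trans (R'.muD_le a3 a4 e)).trans ee⟩
  have q := T.eq.self_of_nhds
  have q' := ev.self_of_nhds
  have b0 : 0 < (FR M φ).b j := lm.b0
  obtain S := sep _ _ E (2 * e) _ τ (F.x τ) (F.e τ) (F'.x τ)
    (M.GG (τ, F'.X j τ, F'.X (j - 1) τ) - M.GG (τ, F'.X j τ, F.X (j - 1) τ)) R (by omega) T.ht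
    (fun l l1 l2 => q.1 l l1 (l2.trans_le J1)) (fun l l1 l2 => q.2.1 l l1 (l2.trans_le J1))
    (fun l l1 l2 => q'.1 l (le_of_lt l1) (l2.trans_le J1))
    ((q'.1 j le_rfl (by omega)).trans (add_sub_cancel _ _).symm) q.2.2
    (T.tube.mono le_rfl (zero_le_one.trans J1) le_rfl)
    (T.tube'.mono le_rfl (zero_le_one.trans J1) le_rfl)
    (fun l l1 l2 => (T.jb l l1 (l2.trans (zero_le_one.trans J1)) 0 (Nat.zero_le _)).2.trans
      (R.muD_le l1 (l2.trans (zero_le_one.trans J1)) _))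
    ((small (by linarith only [hΛ]) rE r0 b0 (s4 (2 * e + 1 + E) (by omega)) u0).trans G1)
  obtain ⟨k0, k1⟩ := kp_step R0 j1 j0
  obtain ⟨f1, f2⟩ := fin (ν := ν) hΛ (show 2 * (2 * e) + 20 + 2 ≤ E by omega)
    (show e' + 1 ≤ E by omega) rE r0 b0 G1 G2 k0 k1 (s4 _ le_rfl) u0
    ((abs_sub_le _ _ _).trans ((add_le_add η1 hν).trans_eq (two_mul _).symm)) S
    (D 0 (Nat.zero_le _) 0 le_rfl (zero_le_one.trans J1))
  exact ⟨f1, fun n hn => ⟨(D n hn 0 le_rfl (zero_le_one.trans J1)).trans f2,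
    (D n hn 1 zero_le_one J1).trans f2⟩⟩

end Pool.Agent.MP_9cbfe4_an.SS

end

/-! ### Part RTW -/

section

/-! Section S, row RTW: the clause `two` of `Cls`. -/

namespace Pool.Agent.MP_9cbfe4_an.SS

open Finset Filter Topology
open scoped ContDiff

namespace RTW

/-- a function with small logarithmic derivative is almost constant -/
theorem supArg (f f' : ℝ → ℝ) (t0 h C : ℝ) (hh : 0 ≤ h) (hC : 0 ≤ C) (hCh : C * h ≤ 1 / 200)
    (hd : ∀ τ, |τ - t0| ≤ h → HasDerivAt f (f' τ) τ ∧ |f' τ| ≤ C * |f τ|) :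
    ∀ τ, |τ - t0| ≤ h → |f τ - f t0| ≤ |f t0| / 100 := by
  obtain hm : ∀ τ, τ ∈ Metric.closedBall t0 h ↔ |τ - t0| ≤ h := fun τ => by
    rw [Metric.mem_closedBall, Real.dist_eq]
  have h0 : t0 ∈ Metric.closedBall t0 h := Metric.mem_closedBall_self hh
  have hc : ContinuousOn (fun τ => |f τ|) (Metric.closedBall t0 h) := fun τ hτ =>
    ((hd τ ((hm τ).1 hτ)).1.continuousAt.abs).continuousWithinAt
  obtain ⟨τ0, hτ0, hmax⟩ := (isCompact_closedBall t0 h).exists_isMaxOn ⟨t0, h0⟩ hc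
  obtain key : ∀ τ, |τ - t0| ≤ h → |f τ - f t0| ≤ |f τ0| / 200 := by
    intro τ hτ
    obtain h1 := (convex_closedBall t0 h).norm_image_sub_le_of_norm_hasDerivWithin_le
      (f := f) (f' := f') (C := C * |f τ0|)
      (fun x hx => (hd x ((hm x).1 hx)).1.hasDerivWithinAt)
      (fun x hx => by
        rw [Real.norm_eq_abs]
        exact (hd x ((hm x).1 hx)).2.trans (mul_le_mul_of_nonneg_left (hmax hx) hC))
      h0 ((hm τ).2 hτ)
    rw [Real.norm_eq_abs, Real.norm_eq_abs] at h1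
    have h2 : C * |f τ0| * |τ - t0| ≤ C * |f τ0| * h :=
      mul_le_mul_of_nonneg_left hτ (mul_nonneg hC (abs_nonneg _))
    have h3 : C * h * |f τ0| ≤ 1 / 200 * |f τ0| := mul_le_mul_of_nonneg_right hCh (abs_nonneg _)
    linarith only [h1, h2, h3, show C * |f τ0| * h = C * h * |f τ0| by ring]
  intro τ hτ
  have h1 := key τ hτ
  have h2 := key τ0 ((hm τ0).1 hτ0)
  obtain h3 : |f τ0| ≤ |f τ0 - f t0| + |f t0| := by
    have := abs_add_le (f τ0 - f t0) (f t0)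
    rwa [sub_add_cancel] at this
  linarith only [h1, h2, h3, abs_nonneg (f t0)]

/-- the first separation time -/
theorem first (P : ℤ → Prop) (s : ℤ) (hs : s ≤ 0) (h0 : P 0) (h1 : ¬ P s) :
    ∃ j, s < j ∧ j ≤ 0 ∧ P j ∧ ¬ P (j - 1) := by
  by_contra hn
  push Not at hn
  obtain key : ∀ k : ℕ, s ≤ -(k : ℤ) → P (-(k : ℤ)) := by
    intro k
    induction k with
    | zero => intro _; simpa using h0
    | succ k ih =>
      intro hk
      push_cast at hk ⊢
      obtain this := hn (-(k : ℤ)) (by omega) (by omega) (ih (by omega))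
      rwa [show -(k : ℤ) - 1 = -((k : ℤ) + 1) by ring] at this
  obtain this := key (-s).toNat (by omega)
  rw [show -(((-s).toNat : ℕ) : ℤ) = s by omega] at this
  exact h1 this

theorem nums {K E : ℕ} {c : Cs} (h : NuS K E c) {y : ℝ} (hy : c.bl / 4 < y) :
    1000 ≤ Lam K c y ∧ 1000 * Lam K c y ^ (4 * E) ≤ c.S0 y := by
  obtain ⟨h1, h2, -, -⟩ := h.lam y hy
  have hL := h.L.1
  have hb := h.chK.2.2
  obtain h3 : (1 : ℝ) * 1 ≤ c.L * c.bl :=
    mul_le_mul (by linarith only [hL]) (by linarith only [hb]) zero_le_one (by linarith only [hL])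
  obtain h4 : 1000 ≤ Lam K c y := by linarith only [h1, h3, mul_assoc (10 ^ 4) c.L c.bl]
  refine ⟨h4, le_trans ?_ h2⟩
  obtain h5 : Lam K c y ^ (4 * E + 1) ≤ Lam K c y ^ (20 * E + 1000) :=
    pow_le_pow_right₀ (by linarith only [h4]) (by omega)
  refine le_trans ?_ h5
  rw [pow_succ, mul_comm]
  exact mul_le_mul_of_nonneg_left h4 (pow_nonneg (by linarith only [h4]) _)

theorem win {K E e : ℕ} {c : Cs} {Ex : ExT} {M : Mdl} {y tU : ℝ} {φ : Fd} {w : ℤ → ℝ} {F : Fm}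
    (g : Good K E e c Ex M y φ w F) (ht : |φ.t - tU| ≤ c.rU y) {τ : ℝ}
    (hτ : |τ - tU| ≤ 3 / 2 * c.rU y) :
    HasDerivAt (F.X 0) (iteratedDeriv 1 (F.X 0) τ) τ ∧
      HasDerivAt (F.X 1) (iteratedDeriv 1 (F.X 1) τ) τ := by
  obtain hr : 0 < c.rU y := by unfold Cs.rU Cs.S0; positivity
  obtain hm : τ ∈ Set.Ioo (φ.t - 3 * c.rU y) (φ.t + 3 * c.rU y) := by
    rw [abs_le] at ht hτ
    constructor <;> linarith only [ht.1, ht.2, hτ.1, hτ.2, hr]
  obtain hct := (g.rf.ref 1 (by norm_num) le_rfl).ct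
  have hs : Fs c M y φ ≤ 0 := hct.hc.s0
  have hJ : 1 ≤ FJ c Ex M y φ := hct.fc.J1
  obtain h0 := (g.sm τ hm 0 (by omega) (by omega)).1
  obtain h1 := (g.sm τ hm 1 (by omega) hJ).1
  rw [iteratedDeriv_one, iteratedDeriv_one]
  exact ⟨(h0.differentiableAt (by simp)).hasDerivAt, (h1.differentiableAt (by simp)).hasDerivAt⟩

end RTW

theorem rtw (K E e : ℕ) (c : Cs) (hN : NuS K E c) (hP : RPRE_s K E e c) (hA : RTA_s K E e c)
    (hB : RTB_s K E e c) : RTW_s K E e c := by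
  intro M hM Ex y tU φ w F φ' w' F' ν l h hν hν1 hl
  have hy := h.g.rf.ok.y_lo
  obtain ⟨hΛ, hS⟩ := RTW.nums hN hy
  obtain hr : 0 < c.rU y := by unfold Cs.rU Cs.S0; positivity
  have hS0 : 0 < c.S0 y := Real.exp_pos _
  have hti : 0 < tiny y := Real.exp_pos _
  obtain htU : |tU - tU| ≤ 3 / 2 * c.rU y := by rw [sub_self, abs_zero]; linarith only [hr]
  obtain hs : Fs c M y φ ≤ 0 := (h.g.rf.ref 1 (by norm_num) le_rfl).ct.hc.s0
  by_cases hcl : Cl K E c M y φ φ' (Fs c M y φ)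
  · obtain hz : ∀ τ, |τ - tU| ≤ 3 / 2 * c.rU y →
        |F'.X 1 τ - F.X 1 τ - ν * (F'.X 0 τ - F.X 0 τ)| ≤ tiny y / 4 := by
      intro τ hτ
      obtain ⟨h0, h1⟩ := (hA M hM Ex y tU φ w F φ' w' F' h τ hτ 0 (Nat.zero_le _)).2 hcl
      simp only [dj, iteratedDeriv_zero] at h0 h1
      obtain h2 : |ν * (F'.X 0 τ - F.X 0 τ)| ≤ 1 * (tiny y / 8) := by
        rw [abs_mul]
        exact mul_le_mul hν1 h0 (abs_nonneg _) zero_le_one
      have h3 := abs_sub (F'.X 1 τ - F.X 1 τ) (ν * (F'.X 0 τ - F.X 0 τ))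
      linarith only [h1, h2, h3]
    intro τ hτ
    have h1 := hz τ hτ
    have h2 := hz tU htU
    rw [← hl] at h2
    refine ⟨?_, fun n hn => ?_⟩
    · have h3 := abs_sub (F'.X 1 τ - F.X 1 τ - ν * (F'.X 0 τ - F.X 0 τ)) l
      linarith only [h1, h2, h3, hti, abs_nonneg l]
    · obtain ⟨h3, h4⟩ := (hA M hM Ex y tU φ w F φ' w' F' h τ hτ n (by omega)).2 hcl
      have h5 : 0 ≤ c.S0 y * |l| := mul_nonneg hS0.le (abs_nonneg _)
      constructor <;> linarith only [h3, h4, h5, hti]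
  · obtain ⟨j, hj1, hj2, hj3, hj4⟩ := RTW.first _ _ hs (hP M hM Ex y tU φ w F φ' w' F' h).1 hcl
    obtain hsep : rr K E c y / 4 < |(FR M φ').X (j - 1) - (FR M φ).X (j - 1)| := by
      by_contra hn
      refine hj4 fun i hi1 hi2 => ?_
      rcases eq_or_lt_of_le hi1 with he | hlt
      · rw [← he]; exact not_lt.1 hn
      · exact hj3 i (by omega) hi2
    have hb := fun τ hτ => (hB M hM Ex y tU φ w F φ' w' F' ν h hν j hj1.le hj2 hj3 hsep τ hτ).2
    set Q := Lam K c y ^ (4 * E) with hQ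
    obtain hQ1 : 1 ≤ Q := one_le_pow₀ (by linarith only [hΛ])
    obtain hCh : 2 * Q * (3 / 2 * c.rU y) ≤ 1 / 200 := by
      obtain h1 : c.S0 y * 1 ≤ c.S0 y * c.S0 y ^ 2 :=
        mul_le_mul_of_nonneg_left (one_le_pow₀ (by linarith only [hS, hQ1])) hS0.le
      obtain h2 : 600 * Q ≤ c.S0 y ^ 3 := by
        linarith only [h1, hS, hQ1, show c.S0 y ^ 3 = c.S0 y * c.S0 y ^ 2 by ring]
      obtain h3 : 600 * Q * c.rU y ≤ 1 := by
        unfold Cs.rU
        rw [mul_one_div, div_le_one (by positivity)]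
        exact h2
      linarith only [h3]
    have hsup := RTW.supArg (fun τ => F'.X 1 τ - F.X 1 τ - ν * (F'.X 0 τ - F.X 0 τ))
      (fun τ => dj 1 (F'.X 1) (F.X 1) τ - ν * dj 1 (F'.X 0) (F.X 0) τ) tU (3 / 2 * c.rU y) (2 * Q)
      (by linarith only [hr]) (by linarith only [hQ1]) hCh (fun τ hτ => by
        obtain ⟨a0, a1⟩ := RTW.win h.g h.ht hτ
        obtain ⟨b0, b1⟩ := RTW.win h.g' h.ht' hτ
        refine ⟨(b1.sub a1).sub ((b0.sub a0).const_mul ν), ?_⟩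
        obtain ⟨h0, h1⟩ := hb τ hτ 1 (by omega)
        obtain h2 : |ν * dj 1 (F'.X 0) (F.X 0) τ| ≤ 1 * |dj 1 (F'.X 0) (F.X 0) τ| := by
          rw [abs_mul]
          exact mul_le_mul_of_nonneg_right hν1 (abs_nonneg _)
        have h3 := abs_sub (dj 1 (F'.X 1) (F.X 1) τ) (ν * dj 1 (F'.X 0) (F.X 0) τ)
        linarith only [h0, h1, h2, h3])
    intro τ hτ
    have h1 := hsup τ hτ
    simp only [← hl] at h1
    refine ⟨by linarith only [h1, hti], fun n hn => ?_⟩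
    obtain ⟨h2, h3⟩ := hb τ hτ n (by omega)
    obtain h4 : |F'.X 1 τ - F.X 1 τ - ν * (F'.X 0 τ - F.X 0 τ)| ≤ 2 * |l| := by
      have := abs_add_le (F'.X 1 τ - F.X 1 τ - ν * (F'.X 0 τ - F.X 0 τ) - l) l
      rw [sub_add_cancel] at this
      linarith only [this, h1, abs_nonneg l]
    obtain h5 : Q * |F'.X 1 τ - F.X 1 τ - ν * (F'.X 0 τ - F.X 0 τ)| ≤ Q * (2 * |l|) :=
      mul_le_mul_of_nonneg_left h4 (by linarith only [hQ1])
    obtain h6 : 2 * Q * |l| ≤ c.S0 y * |l| :=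
      mul_le_mul_of_nonneg_right (by linarith only [hS, hQ1]) (abs_nonneg _)
    constructor <;> linarith only [h2, h3, h5, h6, hti]

end Pool.Agent.MP_9cbfe4_an.SS

end

/-! ### Part RLL -/

section

/-! Section S: row RLL (the clauses `loc` and `low` of `Cls` from the pair facts). -/

namespace Pool.Agent.MP_9cbfe4_an.SS

open Finset Filter Topology

noncomputable section

theorem rll_lam4 {K E : ℕ} {c : Cs} {y : ℝ} (h : NuS K E c) (hy : c.bl / 4 < y) :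
    4 ≤ Lam K c y := by
  have h1 := (h.lam y hy).1
  have hL := h.L.1
  have hb := h.chK.2.2
  obtain h2 : (10 : ℝ) ^ 4 * 1 * 1 ≤ 10 ^ 4 * c.L * c.bl := by
    apply mul_le_mul _ (by linarith only [hb]) (by norm_num) (by positivity)
    exact mul_le_mul_of_nonneg_left (by linarith only [hL]) (by positivity)
  linarith only [h1, h2]

theorem rll_pow {K E : ℕ} {c : Cs} {y : ℝ} (h : NuS K E c) (hy : c.bl / 4 < y) (m q : ℕ)
    (hq : q ≠ 0) (hm : m * q ≤ 20 * E + 1000) :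
    Lam K c y ^ m ≤ Real.exp (Real.sqrt c.a * y / q) := by
  have h4 := rll_lam4 h hy
  have h1 := (h.lam y hy).2.1
  obtain hq' : (q : ℝ) ≠ 0 := by exact_mod_cast hq
  obtain e : Real.exp (Real.sqrt c.a * y / q) ^ q = c.S0 y := by
    rw [← Real.exp_nat_mul, Cs.S0]; congr 1; field_simp
  obtain h2 : (Lam K c y ^ m) ^ q ≤ Real.exp (Real.sqrt c.a * y / q) ^ q := by
    rw [e, ← pow_mul]
    exact (pow_le_pow_right₀ (by linarith only [h4]) hm).trans h1
  exact (pow_le_pow_iff_left₀ (by positivity) (Real.exp_pos _).le hq).1 h2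

theorem rll_X (M : Mdl) (φ : Fd) (j : ℕ) : (FR M φ).X (-(j : ℤ)) = φ.Xo M j := by
  show (φ.S M).X (-(j : ℤ) + φ.n) = (φ.S M).X (φ.n - j)
  congr 1; ring

theorem rll_cl {K E : ℕ} {c : Cs} {M : Mdl} {y : ℝ} {φ φ' : Fd} (k : ℕ) {ε : ℝ}
    (hε : ε ≤ rr K E c y / 4) (h : ∀ j ≤ k, |φ'.Xo M j - φ.Xo M j| ≤ ε) :
    Cl K E c M y φ φ' (-(k : ℤ)) := by
  intro l h1 h2
  obtain ⟨j, rfl⟩ : ∃ j : ℕ, l = -(j : ℤ) := ⟨(-l).toNat, by omega⟩
  rw [rll_X, rll_X]
  exact (h j (by omega)).trans hε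

theorem rll : ∀ K E c, NuS K (10 * E) c → CLOC_s c → CLOW_s c → RLL_s K E c := by
  intro K E c hN hloc hlow M hM Ex y tU Z φ w lab hy hR ht hs hP
  have h4 := rll_lam4 hN hy
  obtain hΛ : 0 < Lam K c y := by linarith only [h4]
  obtain hE1 : 1 ≤ Lam K c y ^ E := one_le_pow₀ (by linarith only [h4])
  -- numbers
  obtain n1 : Real.exp (-(Real.sqrt c.a * y / 200)) ≤ rr K E c y / 4 := by
    obtain h1 := rll_pow hN hy (E + 1) 200 (by norm_num) (by omega)
    obtain h2 : 4 * Lam K c y ^ E ≤ Real.exp (Real.sqrt c.a * y / 200) := by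
      refine le_trans ?_ (by exact_mod_cast h1)
      rw [pow_succ]; nlinarith only [h4, hE1]
    rw [Real.exp_neg, rr, div_div, one_div]
    exact inv_anti₀ (by positivity) (by linarith only [h2])
  obtain n2 : 2 * Lam K c y ^ E ≤ Real.exp (Real.sqrt c.a * y / 4) := by
    obtain h1 := rll_pow hN hy (E + 1) 4 (by norm_num) (by omega)
    refine le_trans ?_ (by exact_mod_cast h1)
    rw [pow_succ]; nlinarith only [h4, hE1]
  obtain n3 : Lam K c y ^ (4 * E) ≤ Real.exp (Real.sqrt c.a * y / 4) := by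
    obtain h1 := rll_pow hN hy (4 * E) 4 (by norm_num) (by omega)
    exact_mod_cast h1
  obtain n4 : rr K E c y / 4 ≤ 1 := by
    obtain this : rr K E c y ≤ 1 := by
      rw [rr, div_le_one (by positivity)]; exact hE1
    linarith only [this]
  have hty : 0 < tiny y := Real.exp_pos _
  choose wT A Rg hT hk using fun z => (hR z).tw
  obtain hle : ∀ z, Fs c M y (φ z) ≤ 0 := fun z => by
    have := (hT z).2.1
    unfold Fs; omega
  obtain ⟨N, hNs⟩ : ∃ N : ℕ, ∀ z, Fs c M y (φ z) = -(N : ℤ) := by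
    rcases isEmpty_or_nonempty Z with hZ | ⟨⟨z0⟩⟩
    · exact ⟨0, fun z => hZ.elim z⟩
    · refine ⟨(-Fs c M y (φ z0)).toNat, fun z => ?_⟩
      rw [hs z0 z]
      have := hle z0
      omega
  obtain hko : ∀ z (k : ℕ), k ≤ N → (FR M (φ z)).kp (w z) (-(k : ℤ)) 0 = (φ z).ko M (wT z) k := by
    intro z k hkN
    rw [hk z (-(k : ℤ)) (by rw [hNs]; omega) (by omega)]
    rfl
  obtain hL : LabF c M y tU φ (fun z => ((φ z).S M).st c (φ z).n y) wT A Rg N lab := by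
    refine { y_lo := hy, ht := fun z => ⟨⟨?_, ?_⟩, ht z⟩, hv := fun z => (hR z).ok.hv,
             far := fun z => ?_, tame := hT, len := fun z => ?_, up := ?_, upT := ?_, sep := ?_ }
    · linarith only [(hR z).ok.ht.1]
    · linarith only [(hR z).ok.ht.2]
    · have h1 := (hR z).far.1
      obtain e : (FR M (φ z)).X 0 = ((φ z).S M).X (φ z).n := by
        show ((φ z).S M).X (0 + (φ z).n) = _
        rw [zero_add]
      rw [e] at h1
      linarith only [h1]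
    · have := hNs z
      unfold Fs at this
      omega
    · intro z z' k hkN hc
      rw [← hko z k hkN]
      rcases Nat.eq_zero_or_pos k with rfl | hk0
      · obtain hw : 0 < w z 0 := ((hR z).ref 1 (by norm_num) le_rfl).ct.hc.wpos 0
          (by have := hle z; show Fs c M y (φ z) - 1 ≤ 0; omega) le_rfl
        obtain e : (FR M (φ z)).kp (w z) (-((0 : ℕ) : ℤ)) 0 = 1 := by
          simp only [Nat.cast_zero, neg_zero, Sq.kp, Sq.Pb, Ioc_self, prod_empty, one_mul]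
          exact div_self hw.ne'
        rw [e]
        have := (hP z z').d0
        linarith only [hE1, n2, hty, this]
      · obtain h1 := (hP z z').a1 (-(k : ℤ)) (by rw [hNs]; omega) (by omega) (rll_cl k n1 hc)
        obtain h0 : 0 ≤ (FR M (φ z)).kp (w z) (-(k : ℤ)) 0 := by
          by_contra hn
          push Not at hn
          obtain this := mul_neg_of_pos_of_neg (show 0 < 2 * Lam K c y ^ E by positivity) hn
          linarith only [h1, this, abs_nonneg (lab z' - lab z)]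
        have h2 := mul_le_mul_of_nonneg_right n2 h0
        linarith only [hty, h1, h2]
    · intro z z' _ hc
      exact (hP z z').a2 (by rw [hNs]; exact rll_cl N n1 hc)
    · intro z z' k hkN hc
      obtain key : ∀ m : ℕ, m ≤ k → Cl K E c M y (φ z) (φ z') (-(m : ℤ)) := by
        intro m
        induction m with
        | zero => intro _; exact (hP z z').c0
        | succ m ih =>
          intro hm l h1 h2
          obtain ih' := ih (by omega)
          rcases lt_or_ge l (-(m : ℤ)) with hl | hl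
          · obtain e : l = -(m : ℤ) - 1 := by push_cast at h1; omega
            rw [e]
            by_contra hn
            push Not at hn
            obtain h3 := (hP z z').b (-(m : ℤ)) (by rw [hNs]; omega) (by omega) ih' hn
            obtain e2 : -(m : ℤ) - 1 = -((m + 1 : ℕ) : ℤ) := by push_cast; ring
            rw [e2, hko z (m + 1) (by omega)] at h3
            have h5 := hc (m + 1) hm
            have h6 := mul_le_mul_of_nonneg_right n3 (abs_nonneg (lab z' - lab z))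
            have h7 := mul_pos (Real.exp_pos (Real.sqrt c.a * y / 4)) hty
            linarith only [h3, h5, h6, h7]
          · exact ih' l hl h2
      obtain this := key k le_rfl (-(k : ℤ)) le_rfl (by omega)
      rw [rll_X, rll_X] at this
      linarith only [n4, this]
  exact ⟨hloc M hM y tU Z φ _ wT A Rg N lab hL, hlow M hM y tU Z φ _ wT A Rg N lab hL⟩

end
end Pool.Agent.MP_9cbfe4_an.SS

end

/-! ### Part TB -/

section

/-! Row TB: one step back, propagation and transfer of the graded majorant. -/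

namespace Pool.Agent.MP_9cbfe4_an

open Finset Real

namespace TB

structure Big (c : Cs) : Prop where
  lam : 2 ≤ c.lam
  C0 : 1 ≤ c.C0
  ths : 0 ≤ c.ths ∧ c.C0 * c.ths ≤ 1 / 10
  ck : 2 ≤ c.ck

theorem big : Hier Big := by
  have h0 := Hier.C0_ge fun _ _ _ _ => 1
  have h1 := Hier.lam_ge (fun _ => 2) fun _ _ => rfl
  obtain h2 := Hier.e3_le (fun c => 1 / (10 * c.C0)) (fun _ _ _ _ _ _ _ _ => rfl)
    (h0.mono fun c h => by have : 0 < c.C0 := by linarith only [h]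
                           (clear * - h; positivity))
  refine (((Hier.base.and h0).and h1).and h2).mono fun c h => ?_
  obtain ⟨⟨⟨hb, h0⟩, h1⟩, e0, e1⟩ := h
  rw [le_div_iff₀ (by linarith only [hb, h0])] at e1
  obtain e2 : c.e3 ≤ 1 := by nlinarith only [e1, hb, h0, e0]
  obtain e3 : c.e3 ^ 3 ≤ c.e3 := pow_le_of_le_one e0.le e2 (by norm_num)
  refine ⟨h1, h0, ⟨by unfold Cs.ths; positivity, ?_⟩, by unfold Cs.ck; linarith only [hb.2.2.2.2.1]⟩
  obtain this := mul_le_mul_of_nonneg_left e3 (by linarith only [hb, h0] : 0 ≤ c.C0)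
  unfold Cs.ths
  linarith only [e1, this]

/-- depth of a major -/
noncomputable def R (k : Sk) (x : ℤ) : ℝ := -log (k.η x)

theorem log_le_of {a b p : ℝ} (ha : 0 < a) (hb : 0 < b) (h : a ≤ exp p * b) :
    log a ≤ p + log b := by
  have := log_le_log ha h
  rwa [log_mul (exp_pos p).ne' hb.ne', log_exp] at this

theorem two_le {a b : ℝ} (ha : 0 < a) (hb : 0 < b) (h : a ≤ 2 * b) : log a ≤ 1 + log b :=
  log_le_of ha hb (h.trans (mul_le_mul_of_nonneg_right (by linarith only [add_one_le_exp 1]) hb.le))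

/-- everything in logarithmic form -/
structure H (c : Cs) (k : Sk) : Prop extends Big c where
  o1 : k.OK1 c
  o2 : k.OK2
  w40 : k.w4 0 = 0
  w4pos : ∀ i, 1 ≤ i → 0 < k.w4 i
  w4lo : ∀ i, 1 ≤ i → log (k.w i) ≤ log (k.w4 i)
  w4F : ∀ m ∈ k.F, k.w4 m = k.w m
  σmono : ∀ i j, i ≤ j → j ≤ k.N → k.σ i ≤ k.σ j
  σlo : ∀ i, i ≤ k.N → 2 ≤ k.σ i
  σn : ∀ n ∈ k.F, ∀ i, i < n → k.σ i ≤ k.sl n
  dep : ∀ x ∈ k.D, 0 ≤ R k x ∧ c.C0 * R k x ≤ 2 * k.chi x (k.nx x)
  blk : ∀ x ∈ k.D, ∀ i, x < i → i < k.nx x → 0 < k.om i ∧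
    log (k.w x) - k.chi x i / 4 ≤ log (k.w4 i) ∧
    (log (k.w4 i) ≤ 1 + log (k.om i) ∨ log (k.w4 i) ≤ 1 + log (k.w x) - k.chi x i / 4) ∧
    log (k.w x) - R k x ≤ k.σ x + log (k.om i) ∧ log (k.om i) ≤ 1 + log (k.w4 i) ∧
    ∀ l, x < l → l ≤ i → log (k.om l) ≤ k.σ x + log (k.om i)
  up : ∀ m ∈ k.F, ∀ i, 1 ≤ i → i ≤ m → log (k.w4 i) ≤ k.W m + k.sl 1 ∧
    log (k.w4 i) ≤ 2 * k.sl m + log (k.w m) ∧ log (k.w4 i) ≤ 1 + k.chi i m / 100 + log (k.w m)
  d2 : ∀ m ∈ k.F, ∀ y ∈ k.F, m ≤ y → ∀ G, 0 ≤ G → G ≤ c.C0 ^ 2 →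
    G * k.σ y + k.W m ≤ (c.ck * G + 1) * k.sl m + log (k.w y)
  nn : ∀ n e g i, 0 ≤ g → 0 ≤ i → i ≤ k.N →
    (∀ n' e' g', n ≤ n' → e ≤ e' → g ≤ g' → k.NN n e g i ≤ k.NN n' e' g' i) ∧
    ∀ g', 0 ≤ g' → exp (g' * k.σ i) * k.NN n e g i ≤ k.NN n e (g + g') i

theorem mkH {c : Cs} (h : Big c) (ta : TA_s c) {k : Sk} (hk : k.OK c) : H c k := by
  obtain ⟨a1, a2, a3, a4, a5, a6, -, a8, a9, a10, a11, -, -, -, -, -, -, a18⟩ := ta k hk
  obtain ⟨o1, o2⟩ := hk
  have p4 : ∀ i, 1 ≤ i → 0 < k.w4 i := fun i hi => (o1.w_pos i hi).trans_le (a1 i hi)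
  refine ⟨h, o1, o2, a2, p4, fun i hi => log_le_log (o1.w_pos i hi) (a1 i hi), a3, a4,
    fun i hi => h.lam.trans (a5 i hi), a6, fun x hx => ⟨?_, ?_⟩, fun x hx i h1 h2 => ?_,
    fun m hm i h1 h2 => ?_, a11, fun n e g i b1 b2 b3 => ⟨(a18 n e g i b1 b2 b3).2.1,
      (a18 n e g i b1 b2 b3).2.2.1⟩⟩
  · exact neg_nonneg.2 (log_nonpos (o1.η_mem x hx).1.le (o1.η_mem x hx).2)
  · obtain this := mul_le_mul_of_nonneg_left (a8 x hx) (by linarith only [h.C0] : 0 ≤ c.C0)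
    have := o1.d5 x hx
    unfold R; (rename_i zq0; linarith only [zq0, this])
  · have x1 := (o1.F_mem x (o1.D_mem x hx).1).1
    have wx := o1.w_pos x x1
    have η0 := (o1.η_mem x hx).1
    have om : ∀ j, x < j → j < k.nx x → 0 < k.om j := fun j b1 b2 =>
      (mul_pos_iff_of_pos_left (exp_pos _)).1 ((mul_pos wx η0).trans_le (o2.om_in x hx j b1 b2).1)
    obtain ⟨b1, b2, -, -, b5⟩ := o2.om_in x hx i h1 h2
    obtain ⟨c1, c2⟩ := a9 x hx i h1 h2
    obtain e : log (k.w x * exp (-k.chi x i / 4)) = log (k.w x) - k.chi x i / 4 := by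
      rw [log_mul wx.ne' (exp_pos _).ne', log_exp]; ring
    obtain i1 : 1 ≤ i := by omega
    refine ⟨om i h1 h2, e ▸ log_le_log (by (clear * - wx; positivity)) c2, ?_, ?_,
      two_le (om i h1 h2) (p4 i i1) (by linarith only [b2, a1 i i1]),
      fun l d1 d2 => log_le_of (om l d1 (by omega)) (om i h1 h2) (b5 l d1 d2)⟩
    · rcases le_total (k.w x * exp (-k.chi x i / 4)) (k.om i) with q | q
      · exact .inl (two_le (p4 i i1) (om i h1 h2) (by linarith only [c1, q]))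
      · obtain this := two_le (p4 i i1) (by positivity : 0 < k.w x * exp (-k.chi x i / 4)) (by linarith only [c1, q])
        exact .inr (by linarith only [e, this])
    · have := log_le_of (mul_pos wx η0) (om i h1 h2) b1
      rw [log_mul wx.ne' η0.ne'] at this
      unfold R; linarith only [this]
  · obtain ⟨b1, b2, b3⟩ := a10 m hm i (by omega) h2
    have wm := o1.w_pos m (o1.F_mem m hm).1
    refine ⟨(log_le_iff_le_exp (p4 i h1)).2 b1, log_le_of (p4 i h1) wm b2, ?_⟩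
    obtain this := two_le (p4 i h1) (by positivity : 0 < exp (k.chi i m / 100) * k.w m) (by linarith only [b3])
    rw [log_mul (exp_pos _).ne' wm.ne', log_exp] at this
    linarith only [this]

namespace H
variable {c : Cs} {k : Sk} (h : H c k)
include h
set_option linter.unusedSectionVars false

theorem chi_add {i j l : ℤ} (h1 : i ≤ j) (h2 : j ≤ l) : k.chi i l = k.chi i j + k.chi j l := by
  unfold Sk.chi
  rw [← sum_union (Ioc_disjoint_Ioc_of_le le_rfl), Ioc_union_Ioc_eq_Ioc h1 h2]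
theorem chi0 (i j : ℤ) : 0 ≤ k.chi i j :=
  sum_nonneg fun l _ => by linarith only [(h.o1.ch_mem l).1]
theorem chi1 (i : ℤ) : k.chi (i - 1) i = k.ch i := by
  unfold Sk.chi
  rw [show Ioc (i - 1) i = {i} by ext; simp; omega, sum_singleton]
theorem chi_mono {i i' j j' : ℤ} (h1 : i' ≤ i) (h2 : i ≤ j) (h3 : j ≤ j') :
    k.chi i j ≤ k.chi i' j' := by
  rw [h.chi_add h1 (h2.trans h3), h.chi_add h2 h3]
  linarith only [h.chi0 i' i, h.chi0 j j']
theorem D {x : ℤ} (hx : x ∈ k.D) : x ∈ k.F ∧ 1 ≤ x ∧ x < k.N ∧ k.nx x ∈ k.F ∧ x < k.nx x :=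
  have a := h.o1.D_mem x hx
  ⟨a.1, (h.o1.F_mem x a.1).1, a.2, (h.o1.nx_mem x a.2).1, (h.o1.nx_mem x a.2).2.1⟩
theorem nx_le {i m : ℤ} (hm : m ∈ k.F) (hi : i < m) : k.nx i ≤ m :=
  (h.o1.nx_mem i (hi.trans_le (h.o1.F_mem m hm).2)).2.2 m hm hi
theorem nx_eq {m i : ℤ} (hN : m < k.N) (h1 : m ≤ i) (h2 : i < k.nx m) : k.nx i = k.nx m := by
  have a := h.o1.nx_mem m hN
  have b := h.o1.nx_mem i (h2.trans_le (h.o1.F_mem _ a.1).2)
  exact le_antisymm (b.2.2 _ a.1 h2) (a.2.2 _ b.1 (h1.trans_lt b.2.1))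
theorem σ_eq {m i : ℤ} (hN : m < k.N) (h1 : m ≤ i) (h2 : i < k.nx m) : k.σ i = k.σ m := by
  unfold Sk.σ; rw [h.nx_eq hN h1 h2]
theorem sl_le {m i : ℤ} (h1 : 1 ≤ m) (h2 : m ≤ i) (h3 : i ≤ k.N) : k.sl m ≤ k.σ i := by
  refine h.o1.sl_mono _ _ h1 (h2.trans ?_)
  rcases h3.eq_or_lt with e | e
  · rw [e, h.o1.nx_N]
  · exact (h.o1.nx_mem i e).2.1.le
/-- the last free time `≤ i` -/
theorem last {i : ℤ} (h1 : 1 ≤ i) (h2 : i < k.N) : ∃ m ∈ k.F, m ≤ i ∧ i < k.nx m := by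
  have ne : (k.F.filter fun m => m ≤ i).Nonempty := ⟨1, mem_filter.2 ⟨h.o1.one, h1⟩⟩
  obtain ⟨a, b⟩ := mem_filter.1 (max'_mem _ ne)
  refine ⟨_, a, b, not_le.1 fun q => ?_⟩
  have d := h.o1.nx_mem _ (b.trans_lt h2)
  exact absurd (le_max' _ _ (mem_filter.2 ⟨d.1, q⟩)) (not_le.2 d.2.1)
theorem eR {x : ℤ} (hx : x ∈ k.D) {e θ : ℝ} (h0 : 0 ≤ θ) (he : 2 * e ≤ θ * c.C0) :
    e * R k x ≤ θ * k.chi x (k.nx x) := by
  obtain ⟨a, b⟩ := h.dep x hx
  have := mul_le_mul_of_nonneg_right he a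
  have := mul_le_mul_of_nonneg_left b h0
  (rename_i zq0; linarith only [zq0, this])

theorem inv_η {x : ℤ} (hx : x ∈ k.D) (e : ℕ) : 1 / k.η x ^ e = exp (e * R k x) := by
  rw [R, mul_neg, exp_neg, exp_nat_mul, exp_log (h.o1.η_mem x hx).1, one_div]
theorem V_eq {x : ℤ} (hx : x ∈ k.D) (e : ℕ) : k.V x e = exp (e * R k x - log (k.w x)) := by
  rw [exp_sub, exp_log (h.o1.w_pos x (h.D hx).2.1), ← h.inv_η hx, Sk.V, div_div]
theorem P_eq {x : ℤ} (hx : x ∈ k.D) (e : ℕ) (a b : ℝ) :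
    exp a * exp (-b / 4) / k.η x ^ e = exp (a - b / 4 + e * R k x) := by
  rw [div_eq_mul_one_div, h.inv_η hx, ← exp_add, ← exp_add]; congr 1; ring
theorem U_eq {x : ℤ} (hx : x ∈ k.D) (e : ℕ) (a b : ℝ) :
    b * exp a * k.V x e = b * exp (a + e * R k x - log (k.w x)) := by
  rw [h.V_eq hx, mul_assoc, ← exp_add]; congr 2; ring

variable {n : ℤ} {e : ℕ} {g : ℝ} {i : ℤ}

omit h in
theorem leF {a : ℝ} (ha : a ≤ g * k.σ i) : exp a ≤ k.NN n e g i :=
  (exp_le_exp.2 ha).trans ((le_fold_max _).2 (.inl le_rfl))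
theorem leP {x : ℤ} (hx : x ∈ k.D) (h1 : x < n) (h2 : x < i) (h3 : i < k.nx x) {a : ℝ}
    (ha : a ≤ g * k.σ i - k.chi x i / 4 + e * R k x) : exp a ≤ k.NN n e g i :=
  (exp_le_exp.2 ha).trans ((le_fold_max _).2 (.inr ⟨x, mem_filter.2 ⟨hx, h1, h3⟩, by
    rw [if_pos h2, h.P_eq hx]⟩))
theorem leU {x : ℤ} (hx : x ∈ k.D) (h1 : x < n) (h0 : 1 ≤ i) (h2 : i ≤ x) {a : ℝ}
    (ha : a ≤ log (k.w4 i) + g * k.σ x + e * R k x - log (k.w x)) : exp a ≤ k.NN n e g i :=
  (exp_le_exp.2 ha).trans ((le_fold_max _).2 (.inr ⟨x,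
    mem_filter.2 ⟨hx, h1, h2.trans_lt (h.D hx).2.2.2.2⟩, by
    rw [if_neg (not_lt.2 h2), h.U_eq hx, add_assoc, add_sub_assoc, exp_add,
      exp_log (h.w4pos i h0)]⟩))
theorem cases (h0 : 0 ≤ i) : ∃ a, k.NN n e g i ≤ exp a ∧ (a = g * k.σ i ∨
    (∃ x ∈ k.D, x < n ∧ x < i ∧ i < k.nx x ∧ a = g * k.σ i - k.chi x i / 4 + e * R k x) ∨
    ∃ x ∈ k.D, x < n ∧ 1 ≤ i ∧ i ≤ x ∧
      a = log (k.w4 i) + g * k.σ x + e * R k x - log (k.w x)) := by
  rcases (le_fold_max (k.NN n e g i)).1 le_rfl with q | ⟨x, hx, q⟩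
  · exact ⟨_, q, .inl rfl⟩
  · obtain ⟨hx, h1, h2⟩ := mem_filter.1 hx
    split_ifs at q with h3
    · exact ⟨_, h.P_eq hx e _ _ ▸ q, .inr (.inl ⟨x, hx, h1, h3, h2, rfl⟩)⟩
    · rcases h0.eq_or_lt with rfl | h4
      · rw [h.w40, zero_mul, zero_mul] at q
        exact ⟨_, q.trans (exp_pos _).le, .inl rfl⟩
      · refine ⟨_, ?_, .inr (.inr ⟨x, hx, h1, h4, not_lt.1 h3, rfl⟩)⟩
        rwa [add_assoc, add_sub_assoc, exp_add, exp_log (h.w4pos i h4), ← h.U_eq hx]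

/-- propagation of `w4` -/
theorem prop {i l : ℤ} (h1 : 1 ≤ i) (h2 : i ≤ l) (h3 : l ≤ k.N) :
    log (k.w4 i) - k.chi i l / 4 ≤ 4 * k.σ l + log (k.w4 l) := by
  have s2 := h.σlo l h3
  have c0 := h.chi0 i l
  by_cases hl : l ∈ k.F
  · have := (h.up l hl i h1 h2).2.2
    rw [h.w4F l hl]; linarith only [s2, c0, this]
  have lN : l < k.N := lt_of_le_of_ne h3 fun e => hl (e ▸ h.o1.last)
  obtain ⟨m, hm, m1, m2⟩ := h.last (h1.trans h2) lN
  have ml : m < l := lt_of_le_of_ne m1 fun e => hl (e ▸ hm)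
  have m0 := (h.o1.F_mem m hm).1
  have σe := h.σ_eq (ml.trans lN) m1 m2
  have s1 := h.sl_le le_rfl (h1.trans h2) h3
  have sm := h.sl_le m0 m1 h3
  have wl := h.w4lo l (h1.trans h2)
  by_cases hD : m ∈ k.D
  · obtain ⟨-, b1, -, -, b4, b5⟩ := h.blk m hD l ml m2
    rcases le_or_gt i m with q | q
    · have := (h.up m hm i h1 q).2.2
      have := h.chi_add q m1
      have := h.chi0 i m
      (rename_i zq1 zq0; linarith only [s2, b1, zq1, zq0, this])
    · have := h.chi_add q.le h2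
      have := b5 i q h2
      rcases (h.blk m hD i q (h2.trans_lt m2)).2.2.1 with r | r <;> (rename_i zq0; linarith only [s2, c0, σe, b4, this, r, b1, zq0])
  · have a1 := h.o2.nlo m hm hD l m1 m2
    have a2 := h.o1.nmaj m hm hD
    have a3 := (h.up _ (h.o1.nx_mem m (ml.trans lN)).1 i h1 (h2.trans m2.le)).1
    linarith only [s2, c0, σe, s1, sm, wl, a1, a2, a3]

theorem back {i : ℤ} (h1 : 1 ≤ i) : exp (-k.ch i / 2) * k.w4 (i - 1) ≤ 2 * k.w4 i := by
  have p := h.w4pos i h1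
  have w1 : k.w i ≤ k.w4 i := (le_fold_max _).2 (.inl le_rfl)
  rcases (le_fold_max (k.w4 (i - 1))).1 le_rfl with q | ⟨x, hx, q⟩
  · have := mul_le_mul_of_nonneg_left q (exp_pos (-k.ch i / 2)).le
    have := h.o1.w_step i h1
    (rename_i zq0; linarith only [p, w1, zq0, this])
  · obtain ⟨hx, a1, a2⟩ := mem_filter.1 hx
    have wx := h.o1.w_pos x (h.D hx).2.1
    obtain e := h.chi_add a1.le (by omega : i - 1 ≤ i)
    rw [h.chi1] at e
    have c0 := (h.o1.ch_mem i).1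
    refine (mul_le_mul_of_nonneg_left q (exp_pos _).le).trans ?_
    rw [mul_left_comm, ← exp_add]
    rcases (by omega : i < k.nx x ∨ i = k.nx x) with b | b
    · obtain b1 := (h.blk x hx i (by omega) b).2.1
      rw [← exp_log wx, ← exp_add]
      obtain this := exp_le_exp.2 (by linarith only [e, c0, b1] :
        log (k.w x) + (-k.ch i / 2 + -k.chi x (i - 1) / 4) ≤ log (k.w4 i))
      rw [exp_log p] at this
      linarith only [p, this]
    · obtain b1 := (h.o2.i2 i (b ▸ (h.D hx).2.2.2.1) x (h.D hx).2.1 (by omega)).2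
      refine (mul_le_mul_of_nonneg_right b1 (exp_pos _).le).trans ?_
      obtain b2 : exp (k.chi x i / 100) * exp (-k.ch i / 2 + -k.chi x (i - 1) / 4) ≤ 1 := by
        rw [← exp_add, exp_le_one_iff]; linarith only [e, c0, h.chi0 x i]
      have := mul_le_mul b2 w1 (h.o1.w_pos i h1).le zero_le_one
      linarith only [this]

theorem mul_le {a b B : ℝ} (q : k.NN n e g i ≤ exp a) (r : exp (b + a) ≤ B) :
    exp b * k.NN n e g i ≤ B := by
  rw [exp_add] at r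
  exact (mul_le_mul_of_nonneg_left q (exp_pos _).le).trans r

/-- propagation of the majorant; `δ` absorbs the step of `w4` -/
theorem propN (hn : n ∈ k.F) (he : 100 * (e : ℝ) ≤ c.C0) (g0 : 0 ≤ g) {l : ℤ} {b δ : ℝ}
    (h0 : 0 ≤ i) (h2 : i ≤ l) (h3 : l ≤ n) (hb : b ≤ -k.chi i l / 4) (δ1 : 1 ≤ δ)
    (hδ : 1 ≤ i → log (k.w4 i) + b ≤ δ * k.σ l + log (k.w4 l)) :
    exp b * k.NN n e g i ≤ k.NN n e (g + δ) l := by
  have lN := h3.trans (h.o1.F_mem n hn).2
  have s2 := h.σlo l lN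
  obtain sδ : k.σ l ≤ δ * k.σ l := le_mul_of_one_le_left (by linarith only [s2]) δ1
  have gσ : ∀ j, j ≤ l → g * k.σ j ≤ g * k.σ l := fun j hj =>
    mul_le_mul_of_nonneg_left (h.σmono j l hj lN) g0
  have c0 := h.chi0 i l
  obtain kill : ∀ x ∈ k.D, k.nx x ≤ l → e * R k x ≤ k.chi x l / 50 := fun x hx hl => by
    obtain this := h.eR hx (e := e) (θ := 1 / 50) (by norm_num) (by linarith only [he])
    have := h.chi_mono le_rfl (h.D hx).2.2.2.2.le hl
    (rename_i zq0; linarith only [zq0, this])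
  obtain ⟨a, q, rfl | ⟨x, hx, x1, x2, x3, rfl⟩ | ⟨x, hx, x1, x2, x3, rfl⟩⟩ := h.cases h0 <;>
    refine h.mul_le q ?_
  · exact leF (by linarith only [hb, s2, sδ, c0, gσ i h2])
  · have e1 := h.chi_add x2.le h2
    rcases lt_or_ge l (k.nx x) with r | r
    · exact h.leP hx x1 (by omega) r (by linarith only [hb, s2, sδ, e1, gσ i h2])
    · exact leF (by linarith only [hb, s2, sδ, e1, gσ i h2, kill x hx r, h.chi0 x l])
  · rcases le_or_gt l x with r | r
    · obtain this := mul_le_mul_of_nonneg_left (h.σmono l x r (h.D hx).2.2.1.le) (by linarith only [δ1] : 0 ≤ δ)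
      exact h.leU hx x1 (by omega) r (by linarith only [this, hδ x2])
    · have e1 := h.chi_add x3 r.le
      have a1 := (h.up x (h.D hx).1 i x2 x3).2.2
      have a2 := h.chi0 i x
      rcases lt_or_ge l (k.nx x) with r' | r'
      · exact h.leP hx x1 r r' (by linarith only [hb, s2, sδ, e1, a1, a2, gσ x r.le])
      · exact leF (by linarith only [hb, s2, sδ, c0, e1, a1, a2, gσ x r.le, kill x hx r', h.chi0 x l])

theorem transfer (hn : n ∈ k.F) (g0 : 0 ≤ g) (g1 : g ≤ c.C0) {l : ℤ} (h1 : 1 ≤ l) (h2 : l ≤ i)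
    (h3 : i < n) (e1 : 1 ≤ e) :
    exp (log (k.w4 l) - log (k.w4 i)) * k.NN n e g i ≤ k.NN n e (g + 6) l := by
  have iN := h3.trans_le (h.o1.F_mem n hn).2
  obtain s2 := h.σlo l (by omega)
  obtain eR1 : ∀ x ∈ k.D, R k x ≤ e * R k x := fun x hx =>
    le_mul_of_one_le_left (h.dep x hx).1 (by exact_mod_cast e1)
  obtain ⟨a, q, rfl | ⟨x, hx, x1, x2, x3, rfl⟩ | ⟨x, hx, x1, x2, x3, rfl⟩⟩ :=
    h.cases (by omega : 0 ≤ i) <;> refine h.mul_le q ?_
  · obtain ⟨m, hm, m1, m2⟩ := h.last (h1.trans h2) iN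
    obtain mN : m < k.N := by omega
    have σi := h.σ_eq mN m1 m2
    have sm := h.σlo m mN.le
    have m0 := (h.o1.F_mem m hm).1
    rw [σi]
    by_cases hD : m ∈ k.D
    · obtain lo : log (k.w m) - R k m ≤ k.σ m + 1 + log (k.w4 i) := by
        rcases m1.eq_or_lt with rfl | r
        · rw [h.w4F m hm]; linarith only [sm, (h.dep m hD).1]
        · obtain ⟨-, -, -, b3, b4, -⟩ := h.blk m hD i r m2
          linarith only [b3, b4]
      rcases le_or_gt l m with r | r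
      · exact h.leU hD (by omega) h1 r (by linarith only [sm, lo, eR1 m hD])
      · obtain σl := h.σ_eq mN r.le (by omega : l < k.nx m)
        obtain ⟨-, -, -, -, b4, b5⟩ := h.blk m hD i (by omega) m2
        rcases (h.blk m hD l r (by omega)).2.2.1 with r' | r'
        · exact leF (by rw [σl]; linarith only [sm, b4, r', b5 l r h2])
        · exact h.leP hD (by omega) r (by omega) (by rw [σl]; linarith only [sm, lo, r', eR1 m hD])
    · have a1 := h.o2.nlo m hm hD i m1 m2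
      have a2 := h.o1.nmaj m hm hD
      have a3 := h.w4lo i (h1.trans h2)
      obtain lN : l < k.N := by omega
      obtain ⟨f1, f2, -⟩ := h.o1.nx_mem l lN
      have a4 := (h.up _ f1 l h1 f2.le).1
      have a5 := h.sl_le le_rfl h1 lN.le
      rcases le_or_gt m l with r | r
      · obtain ne := h.nx_eq mN r (by omega : l < k.nx m)
        obtain σl := h.σ_eq mN r (by omega : l < k.nx m)
        have a6 := h.sl_le m0 le_rfl mN.le
        rw [ne] at a4
        exact leF (by rw [σl] at a5 ⊢; linarith only [sm, a1, a2, a3, a4, a5, a6])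
      · have f3 := h.nx_le hm r
        obtain b0 := h.o1.W_mono _ _ (by omega) f3
        obtain b1 : k.sl m ≤ k.σ l + c.ths * (k.W m - k.W (k.nx l)) := h.o1.lip _ _ (by omega) f3
        have b2 : k.σ m ≤ k.sl m + c.ths * (k.W (k.nx m) - k.W m) :=
          h.o1.lip _ _ m0 (h.o1.nx_mem m mN).2.1.le
        obtain ⟨t0, t1⟩ := h.ths
        have t2 : g * c.ths ≤ 1 / 10 := (mul_le_mul_of_nonneg_right g1 t0).trans t1
        have t3 : c.ths ≤ 1 / 10 := (le_mul_of_one_le_left t0 h.C0).trans t1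
        obtain b3 : k.σ m ≤ k.sl m + c.ths * k.sl m := by
          have := mul_le_mul_of_nonneg_left a2 t0
          linarith only [b2, this]
        obtain sl0 : 0 ≤ k.sl m := by linarith only [h.o1.sl_mono 1 m le_rfl m0, h.o1.sl1, h.lam]
        obtain d0 : 0 ≤ k.W m - k.W (k.nx l) := by linarith only [b0]
        have c1 := mul_le_mul_of_nonneg_left b3 g0
        have c2 := mul_le_mul_of_nonneg_left b1 g0
        have c3 := mul_le_mul_of_nonneg_right t2 sl0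
        have c4 := mul_le_mul_of_nonneg_right t2 d0
        have c5 := mul_le_mul_of_nonneg_right t3 sl0
        have c6 := mul_le_mul_of_nonneg_right t3 d0
        exact leF (by linarith only [s2, a1, a3, a4, a5, b0, b1, b3, c1, c2, c3, c4, c5, c6])
  · have σi := h.σ_eq (h.D hx).2.2.1 x2.le x3
    have sx := h.σlo x (h.D hx).2.2.1.le
    obtain ⟨-, b1, -, -, b4, b5⟩ := h.blk x hx i x2 x3
    rw [σi]
    rcases le_or_gt l x with r | r
    · exact h.leU hx x1 h1 r (by linarith only [sx, b1])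
    · obtain σl := h.σ_eq (h.D hx).2.2.1 r.le (by omega : l < k.nx x)
      have := h.chi_mono le_rfl r.le h2
      refine h.leP hx x1 r (by omega) ?_
      rw [σl]
      rcases (h.blk x hx l r (by omega)).2.2.1 with r' | r' <;> linarith only [sx, b4, this, r', b1, b5 l r h2]
  · exact h.leU hx x1 h1 (by omega) (by linarith only [h.σlo x (h.D hx).2.2.1.le])

theorem decay (hn : n ∈ k.F) (he : 100 * (e : ℝ) ≤ c.C0) (g0 : 0 ≤ g) {θ : ℝ} (h0 : 0 ≤ i)
    (h1 : i < n) (hθ : 4 * (e : ℝ) ≤ θ * c.C0) :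
    exp (-θ * k.chi i n) * k.NN n e g i ≤ exp ((g + 2) * k.sl n) := by
  have e0 : (0 : ℝ) ≤ e := Nat.cast_nonneg e
  obtain θ0 : 0 ≤ θ := nonneg_of_mul_nonneg_left (by linarith only [hθ] : 0 ≤ θ * c.C0) (by linarith only [h.C0])
  obtain s2 := (h.σlo i (by linarith only [h1, (h.o1.F_mem n hn).2])).trans (h.σn n hn i h1)
  have gσ : ∀ j, j < n → g * k.σ j ≤ g * k.sl n := fun j hj =>
    mul_le_mul_of_nonneg_left (h.σn n hn j hj) g0
  have c0 := mul_nonneg θ0 (h.chi0 i n)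
  obtain ⟨a, q, rfl | ⟨x, hx, x1, x2, x3, rfl⟩ | ⟨x, hx, x1, x2, x3, rfl⟩⟩ := h.cases h0 <;>
    refine h.mul_le q (exp_le_exp.2 ?_)
  · linarith only [s2, c0, gσ i h1]
  · obtain a1 := h.eR hx (e := e) (θ := min (1 / 50) θ) (le_min (by norm_num) θ0) (by
      rcases min_choice (1 / 50) θ with r | r <;> rw [r] <;> linarith only [he, hθ])
    have a2 := h.chi_mono le_rfl (h.D hx).2.2.2.2.le (h.nx_le hn x1)
    rw [h.chi_add x2.le h1.le] at a2
    obtain a3 := mul_le_mul_of_nonneg_left a2 (le_min (by norm_num : (0 : ℝ) ≤ 1 / 50) θ0)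
    have a4 := mul_le_mul_of_nonneg_right (min_le_left (1 / 50) θ) (h.chi0 x i)
    have a5 := mul_le_mul_of_nonneg_right (min_le_right (1 / 50) θ) (h.chi0 i n)
    linarith only [s2, a1, a3, a4, a5, gσ i h1, h.chi0 x i]
  · obtain a1 := h.eR hx (e := e) θ0 (by linarith only [hθ])
    have a2 := mul_le_mul_of_nonneg_left
      (h.chi_mono x3 (h.D hx).2.2.2.2.le (h.nx_le hn x1)) θ0
    have a3 := (h.up x (h.D hx).1 i x2 x3).2.1
    have a4 := h.o1.sl_mono x n (h.D hx).2.1 x1.le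
    linarith only [a1, a2, a3, a4, gσ x x1]
end H

theorem tb {c : Cs} (b : Big c) (ta : TA_s c) : TB_s c := by
  intro k hk n hn e g he g0 g1
  have h := mkH b ta hk
  have nN := (h.o1.F_mem n hn).2
  refine ⟨fun i h1 h2 => ⟨h.back h1, ?_⟩, fun i l h0 h1 h2 => ⟨?_,
    h.propN hn he g0 h0 h1 h2 le_rfl (by norm_num) fun q => by linarith only [h.prop q h1 (h2.trans nN)]⟩,
    fun l i h0 h1 h2 h3 h4 => ?_, fun i θ => h.decay hn he g0⟩
  · refine h.propN hn he g0 (by omega) (by omega) h2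
      (by rw [h.chi1]; linarith only [(h.o1.ch_mem i).1]) le_rfl fun q => ?_
    have := two_le (mul_pos (exp_pos _) (h.w4pos _ q)) (h.w4pos i h1) (h.back h1)
    rw [log_mul (exp_pos _).ne' (h.w4pos _ q).ne', log_exp] at this
    linarith only [this, h.σlo i (h2.trans nN)]
  · rcases h0.eq_or_lt with rfl | q
    · rw [h.w40, mul_zero]
      rcases h1.eq_or_lt with rfl | r
      · rw [h.w40, mul_zero]
      · have := h.w4pos l r
        positivity
    · rw [← exp_log (h.w4pos i q), ← exp_log (h.w4pos l (by omega)), ← exp_add, ← exp_add,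
        exp_le_exp]
      linarith only [h.prop q h1 (h2.trans nN)]
  · rcases h0.eq_or_lt with rfl | q
    · rw [h.w40, zero_mul, zero_div]
      exact (exp_pos _).le.trans (H.leF le_rfl)
    · have := h.transfer hn g0 g1 q h1 h3 h4
      rwa [exp_sub, exp_log (h.w4pos l q), exp_log (h.w4pos i h2), div_mul_eq_mul_div] at this

end TB

theorem tb : Hier fun c => TA_s c → TB_s c := TB.big.mono fun _ h => TB.tb h

end Pool.Agent.MP_9cbfe4_an

end

/-! ### Part TC -/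

section

/-! Row TC: the product table. -/

namespace Pool.Agent.MP_9cbfe4_an

open Finset Real

namespace TB.H
variable {c : Cs} {k : Sk} (h : H c k) {n i : ℤ}
include h

theorem tc1 (hn : n ∈ k.F) (h1 : 1 ≤ i) (h2 : i < n) : k.E n i * k.w4 i ≤ k.NN n 1 8 i := by
  have iN := h2.trans_le (h.o1.F_mem n hn).2
  have s2 := h.σlo i iN.le
  have p := h.w4pos i h1
  obtain a1 : (if i ∈ k.D then 4 * k.V i 1 else exp (4 * k.σ i) / k.om i) * k.w4 i
      ≤ k.NN n 1 7 i := by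
    split_ifs with hD
    · refine le_trans ?_ (h.leU hD h2 h1 le_rfl le_rfl)
      rw [h.V_eq hD, add_assoc, add_sub_assoc, exp_add, exp_log p, add_sub_assoc, exp_add, mul_comm]
      have := add_one_le_exp (7 * k.σ i)
      gcongr; linarith only [s2, this]
    · by_cases hb : ∃ x ∈ k.D, x < i ∧ i < k.nx x
      · obtain ⟨x, hx, x1, x2⟩ := hb
        obtain ⟨b0, -, b2, b3, -⟩ := h.blk x hx i x1 x2
        have σi := h.σ_eq (h.D hx).2.2.1 x1.le x2
        rw [← exp_log b0, ← exp_log p, ← exp_sub, ← exp_add]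
        rcases b2 with r | r
        · exact leF (by linarith only [s2, r])
        · exact h.leP hx (by omega) x1 x2 (by push_cast; linarith only [s2, b3, σi, r])
      · have e1 := h.o2.om_out i fun x hx x1 => not_lt.1 fun x2 => hb ⟨x, hx, x1, x2⟩
        have e2 : k.w4 i ≤ k.w i := (fold_max_le _).2 ⟨le_rfl, fun x hx =>
          (hb ⟨x, (mem_filter.1 hx).1, (mem_filter.1 hx).2⟩).elim⟩
        have wi := h.o1.w_pos i h1
        refine le_trans ?_ (leF (by linarith only [s2] : 4 * k.σ i ≤ 7 * k.σ i))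
        rw [e1, div_mul_eq_mul_div, div_le_iff₀ wi]
        exact mul_le_mul_of_nonneg_left e2 (exp_pos _).le
  obtain a2 : exp (4 * k.σ i) * k.an n i * k.w4 i ≤ k.NN n 1 7 i := by
    rcases (le_fold_max (k.an n i)).1 le_rfl with q | ⟨x, hx, q⟩
    · exact (mul_nonpos_of_nonpos_of_nonneg (mul_nonpos_of_nonneg_of_nonpos (exp_pos _).le q)
        p.le).trans ((exp_pos _).le.trans (leF le_rfl))
    · obtain ⟨hx, x1, x2⟩ := mem_filter.1 hx
      refine (mul_le_mul_of_nonneg_right (mul_le_mul_of_nonneg_left q (exp_pos _).le) p.le).trans ?_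
      rw [h.V_eq hx, ← exp_log p, ← exp_add, ← exp_add, ← exp_add]
      exact h.leU hx x2 h1 x1.le
        (by linarith only [s2, h.chi0 i x, h.σmono i x x1.le (h.D hx).2.2.1.le])
  obtain a3 := (h.nn n 1 7 i (by norm_num) (by omega) iN.le).2 1 zero_le_one
  obtain a4 : 2 * k.NN n 1 7 i ≤ exp (1 * k.σ i) * k.NN n 1 7 i :=
    mul_le_mul_of_nonneg_right (by linarith only [s2, add_one_le_exp (1 * k.σ i)])
      ((exp_pos _).le.trans (leF le_rfl))
  rw [Sk.E, add_mul, show (8 : ℝ) = 7 + 1 by norm_num]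
  exact (add_le_add a1 a2).trans (by linarith only [a3, a4])

variable {e e' : ℕ} {g g' : ℝ}

theorem far {m y : ℤ} (hm : m ∈ k.F) (hy : y ∈ k.D) (h1 : 1 ≤ i) (h2 : i ≤ m) (h3 : m ≤ y)
    (g0 : 0 ≤ g) (g1 : g ≤ c.C0) :
    log (k.w4 i) + g * k.σ y - log (k.w y) ≤ (c.ck * g + 2) * k.sl m := by
  obtain a := h.d2 m hm y (h.D hy).1 h3 g g0 (g1.trans (by nlinarith only [g0, g1, h.C0]))
  linarith only [a, (h.up m hm i h1 h2).1, h.o1.sl_mono 1 m le_rfl (h1.trans h2)]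

theorem bigG (g0 : 0 ≤ g) (g0' : 0 ≤ g') {s : ℝ} (s0 : 0 ≤ s) :
    (g + g' + 2) * s ≤ 3 * c.ck * (g + g' + 3) * s ∧
    (g + c.ck * g' + 2) * s ≤ 3 * c.ck * (g + g' + 3) * s := by
  have := h.ck
  constructor <;> refine mul_le_mul_of_nonneg_right ?_ s0 <;> nlinarith only [g0, g0', this]

theorem PU (g0 : 0 ≤ g) (g0' : 0 ≤ g') (g1' : g' ≤ c.C0) {x y : ℤ} (hx : x ∈ k.D) (x1 : x < n)
    (x2 : x < i) (x3 : i < k.nx x) (hy : y ∈ k.D) (y1 : y < n) (y2 : 1 ≤ i) (y3 : i ≤ y) :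
    exp (g * k.σ i - k.chi x i / 4 + e * R k x +
      (log (k.w4 i) + g' * k.σ y + e' * R k y - log (k.w y)))
      ≤ k.NN n (e + e') (3 * c.ck * (g + g' + 3)) i := by
  have yN := (h.D hy).2.2.1.le
  rcases le_total (R k x) (R k y) with r | r
  · have a := mul_le_mul_of_nonneg_left r (Nat.cast_nonneg (α := ℝ) e)
    have b := mul_le_mul_of_nonneg_left (h.σmono i y y3 yN) g0
    have s := h.σlo y yN
    refine h.leU hy y1 y2 y3 ?_
    push_cast
    linarith only [a, b, s, (h.bigG g0 g0' (by linarith only [s] : 0 ≤ k.σ y)).1, h.chi0 x i]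
  · have a := mul_le_mul_of_nonneg_left r (Nat.cast_nonneg (α := ℝ) e')
    obtain b : _ ≤ _ * k.σ x :=
      h.far (h.D hx).2.2.2.1 hy y2 x3.le (h.nx_le (h.D hy).1 (by omega)) g0' g1'
    rw [← h.σ_eq (h.D hx).2.2.1 x2.le x3] at b
    have s := h.σlo i (y3.trans yN)
    refine h.leP hx x1 x2 x3 ?_
    push_cast
    linarith only [a, b, s, (h.bigG g0 g0' (by linarith only [s] : 0 ≤ k.σ i)).2]

theorem UU (g0 : 0 ≤ g) (g0' : 0 ≤ g') (g1' : g' ≤ c.C0) {x y : ℤ} (hx : x ∈ k.D)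
    (y2 : 1 ≤ i) (x3 : i ≤ x) (hy : y ∈ k.D) (y1 : y < n) (xy : x ≤ y) :
    exp (log (k.w4 i) + g * k.σ x + e * R k x - log (k.w x) +
      (log (k.w4 i) + g' * k.σ y + e' * R k y - log (k.w y)))
      ≤ k.NN n (e + e') (3 * c.ck * (g + g' + 3)) i := by
  have yN := (h.D hy).2.2.1.le
  rcases le_or_gt (R k x) (R k y) with r | r
  · have a := mul_le_mul_of_nonneg_left r (Nat.cast_nonneg (α := ℝ) e)
    have b := mul_le_mul_of_nonneg_left (h.σmono x y xy yN) g0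
    have s := h.σlo y yN
    have d := (h.up x (h.D hx).1 i y2 x3).2.1
    have d' := h.sl_le (h.D hx).2.1 xy yN
    refine h.leU hy y1 y2 (x3.trans xy) ?_
    push_cast
    linarith only [a, b, d, d', s, (h.bigG g0 g0' (by linarith only [s] : 0 ≤ k.σ y)).1]
  · have a := mul_le_mul_of_nonneg_left r.le (Nat.cast_nonneg (α := ℝ) e')
    obtain lt : x < y := lt_of_le_of_ne xy fun q => by rw [q] at r; exact lt_irrefl _ r
    have b : _ ≤ _ * k.σ x := h.far (h.D hx).2.2.2.1 hy y2 (x3.trans (h.D hx).2.2.2.2.le)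
      (h.nx_le (h.D hy).1 lt) g0' g1'
    have s := h.σlo x (xy.trans yN)
    refine h.leU hx (by omega) y2 x3 ?_
    push_cast
    linarith only [a, b, s, (h.bigG g0 g0' (by linarith only [s] : 0 ≤ k.σ x)).2]

theorem FN (g0 : 0 ≤ g) (g0' : 0 ≤ g') (h0 : 0 ≤ i) (iN : i ≤ k.N) :
    exp (g' * k.σ i) * k.NN n e g i ≤ k.NN n (e + e') (3 * c.ck * (g + g' + 3)) i :=
  ((h.nn n e g i g0 h0 iN).2 g' g0').trans ((h.nn n e (g + g') i (by linarith only [g0, g0']) h0 iN).1 _ _ _ le_rfl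
    (Nat.le_add_right _ _) (by nlinarith only [g0, g0', h.ck]))

theorem tc2 (hn : n ∈ k.F) (g0 : 0 ≤ g) (g1 : g ≤ c.C0) (g0' : 0 ≤ g') (g1' : g' ≤ c.C0)
    (h0 : 0 ≤ i) (h2 : i ≤ n) :
    k.NN n e g i * k.NN n e' g' i ≤ k.NN n (e + e') (3 * c.ck * (g + g' + 3)) i := by
  have iN := h2.trans (h.o1.F_mem n hn).2
  have p : 0 ≤ k.NN n e g i := (exp_pos _).le.trans (leF le_rfl)
  have p' : 0 ≤ k.NN n e' g' i := (exp_pos _).le.trans (leF le_rfl)
  obtain ⟨a, q, ha⟩ := h.cases (n := n) (e := e) (g := g) h0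
  obtain ⟨a', q', ha'⟩ := h.cases (n := n) (e := e') (g := g') h0
  have m : exp (a + a') ≤ k.NN n (e + e') (3 * c.ck * (g + g' + 3)) i →
      k.NN n e g i * k.NN n e' g' i ≤ k.NN n (e + e') (3 * c.ck * (g + g' + 3)) i := fun r =>
    (mul_le_mul q q' p' (exp_pos _).le).trans (exp_add a a' ▸ r)
  obtain sw : k.NN n (e' + e) (3 * c.ck * (g' + g + 3)) i
      = k.NN n (e + e') (3 * c.ck * (g + g' + 3)) i := by rw [add_comm e', add_comm g']
  rcases ha' with rfl | ha'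
  · exact (mul_le_mul_of_nonneg_left q' p).trans ((mul_comm _ _).trans_le (h.FN g0 g0' h0 iN))
  rcases ha with rfl | ha
  · exact (mul_le_mul_of_nonneg_right q p').trans (sw ▸ h.FN g0' g0 h0 iN)
  refine m ?_
  obtain ⟨x, hx, x1, x2, x3, rfl⟩ | ⟨x, hx, x1, x2, x3, rfl⟩ := ha <;>
    obtain ⟨y, hy, y1, y2, y3, rfl⟩ | ⟨y, hy, y1, y2, y3, rfl⟩ := ha'
  · obtain xy : y = x := by
      by_contra ne
      rcases lt_or_gt_of_ne ne with r | r
      · have := h.nx_le (h.D hx).1 r; omega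
      · have := h.nx_le (h.D hy).1 r; omega
    subst xy
    have s := h.σlo i iN
    refine h.leP hx x1 x2 x3 ?_
    push_cast
    linarith only [s, (h.bigG g0 g0' (by linarith only [s] : 0 ≤ k.σ i)).1, h.chi0 y i]
  · exact h.PU g0 g0' g1' hx x1 x2 x3 hy y1 y2 y3
  · rw [add_comm, ← sw]
    exact h.PU g0' g0 g1 hy y1 y2 y3 hx x1 x2 x3
  · rcases le_total x y with r | r
    · exact h.UU g0 g0' g1' hx x2 x3 hy y1 r
    · rw [add_comm, ← sw]
      exact h.UU g0' g0 g1 hy y2 y3 hx x1 r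
end TB.H

theorem tc : Hier fun c => TA_s c → TC_s c := TB.big.mono fun _ b ta _ hk _ hn =>
  ⟨fun _ => (TB.mkH b ta hk).tc1 hn, fun _ _ _ _ _ => (TB.mkH b ta hk).tc2 hn⟩

end Pool.Agent.MP_9cbfe4_an

end

/-! ### Part J4 -/

section

/-! Row J4: the window.  Continuity argument in the parameter. -/

namespace Pool.Agent.MP_9cbfe4_an

open Finset Filter Topology Real
open scoped ContDiff

namespace J4

theorem hasDeriv_iter {f : ℝ → ℝ} {t : ℝ} {N j : ℕ} (hf : ContDiffAt ℝ N f t) (hj : j < N) :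
    HasDerivAt (iteratedDeriv j f) (iteratedDeriv (j + 1) f t) t := by
  obtain h : DifferentiableAt ℝ (iteratedFDeriv ℝ j f) t :=
    hf.differentiableAt_iteratedFDeriv (by exact_mod_cast hj)
  obtain h2 : DifferentiableAt ℝ (iteratedDeriv j f) t := by
    rw [iteratedDeriv_eq_equiv_comp]
    exact (LinearIsometryEquiv.differentiableAt _).comp t h
  rw [iteratedDeriv_succ]
  exact h2.hasDerivAt

theorem fence {f f' B B' : ℝ → ℝ} {x : ℝ} (hx : 0 ≤ x)
    (hd : ∀ y ∈ Set.Icc 0 x, HasDerivAt f (f' y) y) (hB : ∀ y, HasDerivAt B (B' y) y)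
    (h0 : |f 0| ≤ B 0) (hb : ∀ y ∈ Set.Icc 0 x, |f' y| ≤ B' y) : |f x| ≤ B x :=
  image_norm_le_of_norm_deriv_right_le_deriv_boundary (f' := f') (a := 0) (b := x)
    (fun y hy => (hd y hy).continuousAt.continuousWithinAt)
    (fun y hy => (hd y ⟨hy.1, hy.2.le⟩).hasDerivWithinAt) h0 hB
    (fun y hy => hb y ⟨hy.1, hy.2.le⟩) ⟨hx, le_rfl⟩

theorem cl_fam {ι : Type} (I : Finset ι) (F : ι → ℝ → ℝ) (B : ι → ℝ)
    (hc : ∀ i ∈ I, ∀ x ∈ Set.Icc (0 : ℝ) 1, ContinuousAt (F i) x) :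
    IsClosed ({x | ∀ i ∈ I, F i x ≤ B i} ∩ Set.Icc (0 : ℝ) 1) := by
  obtain e : {x | ∀ i ∈ I, F i x ≤ B i} ∩ Set.Icc (0 : ℝ) 1 =
      (⋂ i ∈ I, Set.Icc (0 : ℝ) 1 ∩ F i ⁻¹' Set.Iic (B i)) ∩ Set.Icc (0 : ℝ) 1 := by
    ext x
    simp only [Set.mem_inter_iff, Set.mem_ofPred_eq, Set.mem_iInter, Set.mem_preimage, Set.mem_Iic]
    exact ⟨fun h => ⟨fun i hi => ⟨h.2, h.1 i hi⟩, h.2⟩, fun h => ⟨fun i hi => (h.1 i hi).2, h.2⟩⟩
  rw [e]
  refine IsClosed.inter (isClosed_biInter fun i hi => ?_) isClosed_Icc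
  exact ContinuousOn.preimage_isClosed_of_isClosed
    (fun x hx => (hc i hi x hx).continuousWithinAt) isClosed_Icc isClosed_Iic

theorem nh_fam {ι : Type} (I : Finset ι) (F : ι → ℝ → ℝ) (B : ι → ℝ) {x : ℝ}
    (hc : ∀ i ∈ I, ContinuousAt (F i) x) (h : ∀ i ∈ I, F i x < B i) :
    ∀ᶠ y in 𝓝 x, ∀ i ∈ I, F i y ≤ B i :=
  (eventually_all_finset I).2 fun i hi =>
    ((hc i hi).eventually_lt continuousAt_const (h i hi)).mono fun _ => le_of_lt

/-- continuity argument for two finite families -/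
theorem boot {ι κ : Type} (I : Finset ι) (J : Finset κ) (F : ι → ℝ → ℝ) (G : κ → ℝ → ℝ)
    (A : ι → ℝ) (B : κ → ℝ) (hF : ∀ i ∈ I, ∀ x ∈ Set.Icc (0 : ℝ) 1, ContinuousAt (F i) x)
    (hG : ∀ i ∈ J, ∀ x ∈ Set.Icc (0 : ℝ) 1, ContinuousAt (G i) x)
    (h0 : (∀ i ∈ I, F i 0 ≤ A i) ∧ ∀ i ∈ J, G i 0 ≤ B i)
    (hs : ∀ x ∈ Set.Icc (0 : ℝ) 1,
      (∀ y ∈ Set.Icc 0 x, (∀ i ∈ I, F i y ≤ A i) ∧ ∀ i ∈ J, G i y ≤ B i) →
      (∀ i ∈ I, F i x < A i) ∧ ∀ i ∈ J, G i x < B i) :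
    ∀ x ∈ Set.Icc (0 : ℝ) 1, (∀ i ∈ I, F i x ≤ A i) ∧ ∀ i ∈ J, G i x ≤ B i := by
  obtain hcl : IsClosed ({x | (∀ i ∈ I, F i x ≤ A i) ∧ ∀ i ∈ J, G i x ≤ B i} ∩ Set.Icc (0 : ℝ) 1) := by
    have := (cl_fam I F A hF).inter (cl_fam J G B hG)
    rw [← Set.inter_inter_distrib_right] at this
    exact this
  refine hcl.Icc_subset_of_forall_mem_nhdsGT_of_Icc_subset h0 fun x hx h => ?_
  have hx' : x ∈ Set.Icc (0 : ℝ) 1 := ⟨hx.1, hx.2.le⟩
  obtain ⟨a, b⟩ := hs x hx' fun y hy => h hy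
  exact mem_nhdsWithin_of_mem_nhds ((nh_fam I F A (fun i hi => hF i hi x hx') a).and
    (nh_fam J G B (fun i hi => hG i hi x hx') b))

variable {K : ℕ} {c : Cs} {M : Mdl} {σ : Seed} {k : Sk} {n : ℤ} {t g γ : ℝ}

theorem o2 (hb : SOK.Big c) (hM : M.OK c) (h : σ.At K c t) : O2 c M t (σ.orb M t) := by
  have hL := hb.L
  refine ⟨h.t0, h.t1, SOK.isOrb hM ⟨h.t0.le, h.t1.le⟩ 1 _ (h.bv.trans (by linarith only [hL]))
    (h.bc.trans (by linarith only [hL])) fun h1 _ => absurd h.far (by simp only [not_le]; linarith only [h1]), ?_, ?_⟩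
  · simpa [Seed.orb, Mdl.orb, Mdl.pos] using h.bc
  · simpa [Seed.orb, Mdl.orb, Mdl.pos] using h.bv

theorem pj_deriv (hb : SOK.Big c) (hM : M.OKk c (K + 6)) (h : σ.At K c t) {j : ℕ} (hj : j ≤ K)
    (l : ℤ) : HasDerivAt (fun s => σ.pj M s j l) (σ.pj M t (j + 1) l) t := by
  have hL := hb.L
  exact hasDeriv_iter (N := K + 1) (Mdl.fam_smooth (s := 1) hb hM (by exact_mod_cast le_top)
    ⟨h.t0, h.t1⟩ (h.bv.trans_lt (by linarith only [hL])) (h.bc.trans_lt (by linarith only [hL])) h.sv h.sc l) (by omega)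

theorem pj_one (j : ℕ) : σ.pj M t j 1 = iteratedDeriv j σ.v t := by
  unfold Seed.pj
  congr 1

theorem NN_pos (k : Sk) (n : ℤ) (e : ℕ) (g : ℝ) (i : ℤ) : 0 < k.NN n e g i :=
  (exp_pos _).trans_le ((Finset.le_fold_max _).2 (Or.inl le_rfl))

theorem one_le_Vm (k : Sk) (n : ℤ) (e : ℕ) : 1 ≤ k.Vm n e :=
  (Finset.le_fold_max _).2 (Or.inl le_rfl)

theorem rh_pos (k : Sk) (n : ℤ) : 1 ≤ k.rh n := (Finset.le_fold_max _).2 (Or.inl le_rfl)

theorem NN_one (h : k.OK1 c) (hn : n ∈ k.F) (hl : 0 ≤ c.lam) (hk : 1 ≤ c.ck) (e : ℕ) (hg : 0 ≤ g) :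
    k.NN n e g 1 ≤ exp (g * (c.ck * k.sl n)) * k.Vm n e := by
  obtain ⟨n1, n2⟩ := h.F_mem n hn
  have s1 := h.sl_mono 1 n le_rfl n1
  have s0 := hl.trans h.sl1
  have v1 := one_le_Vm k n e
  obtain w1 : k.w4 1 = 1 := by
    unfold Sk.w4
    rw [filter_eq_empty_iff.2 fun x hx hh => by
      have := (h.F_mem x (h.D_mem x hx).1).1; omega, fold_empty, h.w1]
  refine (Finset.fold_max_le _).2 ⟨?_, fun x hx => ?_⟩
  · obtain this : k.σ 1 ≤ c.ck * k.sl n := (h.jump 1 h.one).trans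
      (mul_le_mul_of_nonneg_left s1 (by linarith only [hk]))
    exact (exp_le_exp.2 (mul_le_mul_of_nonneg_left this hg)).trans
      (le_mul_of_one_le_right (exp_pos _).le v1)
  · obtain ⟨hD, h1, -⟩ := mem_filter.1 hx
    obtain ⟨xF, xN⟩ := h.D_mem x hD
    have x1 := (h.F_mem x xF).1
    obtain ⟨-, a, b⟩ := h.nx_mem x xN
    obtain this : k.σ x ≤ c.ck * k.sl n :=
      (h.sl_mono _ n (by omega) (b n hn h1)).trans (le_mul_of_one_le_left (by linarith only [s1, s0]) hk)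
    have hv : k.V x e ≤ k.Vm n e :=
      (Finset.le_fold_max _).2 (Or.inr ⟨x, mem_filter.2 ⟨hD, h1⟩, le_rfl⟩)
    rw [if_neg (by omega), w1, one_mul]
    exact (mul_le_mul_of_nonneg_left hv (exp_pos _).le).trans (mul_le_mul_of_nonneg_right
      (exp_le_exp.2 (mul_le_mul_of_nonneg_left this hg)) (by linarith only [v1]))

/-- numeric facts -/
structure Num (K : ℕ) (c : Cs) (γ s : ℝ) : Prop where
  s1 : 1000 ≤ s
  ck : 2 ≤ c.ck
  g0 : 1000 ≤ c.gm γ 1
  gC : c.gm γ 1 ≤ c.C0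
  gG : 1000 * c.ck * c.gm γ 1 ≤ c.gm γ (K + 2)
  gK : 0 ≤ c.gm γ (K + 1) ∧ c.ck * c.gm γ (K + 1) ≤ c.gm γ (K + 2)

theorem num (hκ : 0 < c.κ) (hB : c.Bud K γ) {s : ℝ} (hs : 1000 ≤ s) : Num K c γ s := by
  obtain ck : 2 ≤ c.ck := by unfold Cs.ck; linarith only [hκ]
  obtain cg : 2000 * c.ck ≤ c.Cg := by unfold Cs.Cg; nlinarith only [ck]
  have K0 : (0 : ℝ) ≤ K := Nat.cast_nonneg K
  obtain g1 : 1 ≤ γ := by linarith only [hB.1]
  obtain mono : ∀ a b, a ≤ b → c.gm γ a ≤ c.gm γ b := fun a b h =>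
    mul_le_mul_of_nonneg_left (pow_le_pow_right₀ (by linarith only [ck, cg]) h) (by linarith only [g1])
  obtain succ : ∀ a, c.gm γ (a + 1) = c.gm γ a * c.Cg := fun a => by unfold Cs.gm; ring
  obtain pos : ∀ a, 0 ≤ c.gm γ a := fun a => mul_nonneg (by linarith only [g1]) (pow_nonneg (by linarith only [ck, cg]) _)
  obtain g0 : 1000 ≤ c.gm γ 1 := by unfold Cs.gm; nlinarith only [ck, cg, g1]
  refine ⟨hs, ck, g0, ?_, ?_, pos _, ?_⟩
  · obtain this := mono 1 (K + 3) (by omega)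
    have h2 := hB.2
    nlinarith only [g0, this, h2, pos (K + 3)]
  · obtain this := mono 2 (K + 2) (by omega)
    rw [succ 1] at this
    nlinarith only [ck, cg, g0, this]
  · rw [succ (K + 1)]
    nlinarith only [ck, cg, pos (K + 1)]

theorem exp_le {x y A : ℝ} (h : A ≤ y - x) : A * exp x ≤ exp y := by
  have h1 := add_one_le_exp (y - x)
  obtain e : exp y = exp (y - x) * exp x := by rw [← exp_add]; ring_nf
  rw [e]
  exact mul_le_mul_of_nonneg_right (by linarith only [h, h1]) (exp_pos _).le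

variable {t0 D u ν G1 G2 : ℝ}

theorem wt_eq (D : ℝ) (j : ℕ) : wt D u ν j = (if j = 1 then 4 * (u + ν) else 4 * ν) / D ^ j := by
  unfold wt; split_ifs with h
  · rw [h, pow_one]
  · rfl

/-- the tail of the window is admissible -/
theorem adm (h1 : AD1_s K c) (hk : k.OK c) (hn : n ∈ k.F) (hB : c.Bud K γ)
    (N : Num K c γ (k.sl n)) (W : Win K M σ t0 k n D u ν G1 G2) (g1 : 6 * c.gm γ (K + 2) ≤ G1)
    (g2 : 6 * c.gm γ (K + 2) ≤ G2) (hν : 0 < ν) (r : ℕ) (hr : r ≤ K + 1) :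
    k.Adm c n r γ (wt D u ν) fun j _ =>
      if j ≤ 1 then 0 else exp (-2 * c.gm γ (K + 2) * k.sl n) * wt D u ν j := by
  have D0 := W.D0
  have u0 := W.u0
  have r1 := rh_pos k n
  obtain ⟨s1, ck, g0, -, gG, -⟩ := N
  set G := c.gm γ (K + 2)
  set s := k.sl n
  obtain G1' : 1000 ≤ G := by nlinarith only [ck, g0, gG]
  obtain e1 : 24 * exp (-G1 * s + 4 * G * s) ≤ 1 := (exp_le (y := 0) (by nlinarith only [ck, g0, g1, gG, s1, G1'])).trans_eq exp_zero
  obtain e2 : 24 * exp (-G2 * s + 4 * G * s) ≤ 1 := (exp_le (y := 0) (by nlinarith only [ck, g0, g2, gG, s1, G1'])).trans_eq exp_zero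
  rw [exp_add] at e1 e2
  obtain hν' : u ^ 2 * exp (k.W n) + u * D * k.rh n ≤ ν * exp (-G2 * s) := by
    have := mul_le_mul_of_nonneg_right W.hν (exp_pos (-G2 * s)).le
    rwa [mul_right_comm, ← exp_add, show G2 * s + -G2 * s = 0 by ring, exp_zero, one_mul] at this
  obtain p1 : 0 ≤ u ^ 2 * exp (k.W n) := by (clear * -; positivity)
  obtain p2 : 0 ≤ u * D * k.rh n := by (clear * - u0 D0 r1; positivity)
  have hA := W.hA
  have hD := W.hD
  have E0 := exp_pos (4 * G * s)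
  obtain D1 : D * k.rh n ≤ 1 := hD.trans (exp_le_one_iff.2 (by nlinarith only [ck, g0, g1, gG, s1, G1']))
  obtain A : ∀ j : ℕ, 0 ≤ (if j = 1 then 4 * (u + ν) else 4 * ν) ∧
      (if j = 1 then 4 * (u + ν) else 4 * ν) ≤ 4 * (u + ν) := fun j => by
    split_ifs <;> constructor <;> linarith only [hν, u0]
  refine h1 k hk n hn γ r _ hB hr (fun j => ?_) fun a b ha hb _ => ⟨?_, ?_⟩
  · rw [wt_eq D]; exact div_nonneg (A j).1 (by positivity)
  · rw [wt_eq D a, wt_eq D b, wt_eq D (a + b), if_neg (show a + b ≠ 1 by omega),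
      div_mul_div_comm, ← pow_add, div_mul_eq_mul_div, exp_add]
    refine div_le_div_of_nonneg_right ?_ (by positivity)
    obtain h2 := mul_le_mul (A a).2 (A b).2 (A b).1 (by linarith only [hν, u0])
    refine (mul_le_mul_of_nonneg_right h2 (by positivity)).trans ?_
    have h3 := mul_le_mul_of_nonneg_left hA hν.le
    obtain h4 : (u + ν) ^ 2 * exp (k.W n) ≤ ν * exp (-G2 * s) + 2 * (ν * exp (-G1 * s)) := by
      obtain this : 0 ≤ ν * ν * exp (k.W n) := by positivity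
      linarith only [hν', p2, h3, this]
    have h5 := mul_le_mul_of_nonneg_right h4 E0.le
    have h6 := mul_le_mul_of_nonneg_left e1 hν.le
    have h7 := mul_le_mul_of_nonneg_left e2 hν.le
    linarith only [hν, h5, h6, h7]
  · rw [wt_eq D a, wt_eq D (a + b), if_neg (show a + b ≠ 1 by omega), pow_add,
      le_div_iff₀ (by positivity)]
    obtain h2 : (D * k.rh n) ^ b ≤ D * k.rh n := pow_le_of_le_one (by positivity) D1 (by omega)
    obtain h3 := mul_le_mul (A a).2 h2 (by positivity) (by linarith only [hν, u0])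
    have h4 := mul_le_mul_of_nonneg_left hD hν.le
    obtain h5 : 4 * (u + ν) * (D * k.rh n) ≤ 4 * (ν * exp (-G2 * s) + ν * exp (-G1 * s)) := by
      linarith only [hν', p1, h4]
    have h8 := mul_le_mul_of_nonneg_right (h3.trans h5) E0.le
    have h6 := mul_le_mul_of_nonneg_left e1 hν.le
    have h7 := mul_le_mul_of_nonneg_left e2 hν.le
    calc _ = (if a = 1 then 4 * (u + ν) else 4 * ν) * (D * k.rh n) ^ b * exp (4 * G * s) := by
          rw [mul_pow]; field_simp; rfl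
      _ ≤ _ := h8
      _ ≤ _ := by linarith only [hν, h6, h7]

/-- conclusions at one parameter inside the doubled tube -/
theorem point (hb : SOK.Big c) (hl : 0 ≤ c.lam) (hT : TUBE_s K c) (hR : R2_s K c) (hJ : J1_s K c)
    (J : JC K c M σ t0 g k n) (g8 : g ≤ 8) (hB : c.Bud K γ) (N : Num K c γ (k.sl n))
    (W : Win K M σ t0 k n D u ν G1 G2) (g1 : 6 * c.gm γ (K + 2) ≤ G1) (hν : 0 < ν)
    (hV : exp (2 * c.gm γ (K + 2) * k.sl n) * k.Vm n (2 * K + 1) * D ^ (K + 1) ≤ ν)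
    (hA : ∀ r ≤ K + 1, k.Adm c n r γ (wt D u ν) fun j _ =>
      if j ≤ 1 then 0 else exp (-2 * c.gm γ (K + 2) * k.sl n) * wt D u ν j)
    (ht : |t - t0| ≤ D) (At : σ.At K c t)
    (H1 : ∀ l ∈ Icc 0 n, |σ.pj M t 0 l - σ.pj M t0 0 l| ≤ k.mu n (4 * (u + ν)) (2 * D) 0 (c.gm γ 1) l)
    (H2 : ∀ j ∈ Icc 1 K, |σ.pj M t j n| ≤ wt D u ν j * |(σ.orb M t0).fr 1 n| / 36) :
    (∀ l, 0 ≤ l → l ≤ n → |σ.pj M t 1 l| ≤ k.MJ c n γ (wt D u ν) 1 l) ∧
    JC K c M σ t (2 * g) k n ∧ (∀ j, 1 ≤ j → j ≤ K → 32 * |σ.La M t j n| ≤ wt D u ν j) ∧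
    |σ.pj M t (K + 1) n| * D ^ (K + 1) ≤ exp (-10 * k.sl n) * ν * k.w n ∧
    (∀ j l, 1 ≤ j → j ≤ K → 0 ≤ l → l ≤ n → |σ.pj M t j l| ≤ k.MJ c n γ (wt D u ν) j l) ∧
    ∀ j, 1 ≤ j → j ≤ K + 1 → ∀ m ∈ k.F, m ≤ n → |σ.La M t j m - σ.La M t j n| ≤
      exp (-c.gm γ (K + 2) * k.sl n) * ν / D ^ j + k.NN n (2 * j - 1) (c.gm γ j / 2) m / k.w m := by
  have D0 := W.D0
  have u0 := W.u0
  have O := J.oc
  have k1 := O.sk.1
  have n1 := (k1.F_mem n O.hn).1
  have wn := k1.w_pos n n1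
  have g0' := O.g1
  have O' := o2 hb O.ok.ok At
  obtain ⟨s1, ck, g0, gC, gG, gK0, gK⟩ := N
  set G := c.gm γ (K + 2)
  set s := k.sl n
  set γ' := c.gm γ 1
  obtain G1' : 2000 * γ' ≤ G := by nlinarith only [ck, g0, gG]
  obtain s0 : 0 ≤ s := by linarith only [s1]
  have p1 := mul_le_mul_of_nonneg_right g1 s0
  have p2 := mul_le_mul_of_nonneg_right gG s0
  have p3 := mul_le_mul_of_nonneg_right G1' s0
  have p4 := mul_le_mul_of_nonneg_right g0 s0
  have p5 := mul_le_mul_of_nonneg_right gK s0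
  obtain sz : k.sz n (4 * (u + ν)) (2 * D) 0 ≤ 6 * exp (-G1 * s) := by
    have := W.hA; have := W.hD; unfold Sk.sz; (rename_i zq0; linarith only [zq0, this])
  obtain tc := (hT M t0 g _ k n O t _ O' (4 * (u + ν)) (2 * D) 0 γ' (by linarith only [g0]) gC
    ⟨by linarith only [hν, u0], le_rfl, by linarith only [ht, D0], fun l a b => by
      simpa [Seed.pj] using H1 l (mem_Icc.2 ⟨a, b⟩)⟩
    (sz.trans (exp_le (by linarith only [p1, p2, p3, p4, s1])))).2
  obtain dl : k.sz n (4 * (u + ν)) (2 * D) 0 * exp ((γ' + 32) * s) ≤ 1 / 10000 := by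
    have h1 := mul_le_mul_of_nonneg_right sz (exp_pos ((γ' + 32) * s)).le
    obtain h2 : 60000 * exp (-G1 * s + (γ' + 32) * s) ≤ 1 :=
      (exp_le (y := 0) (by linarith only [p1, p3, p4, s1])).trans_eq exp_zero
    rw [exp_add] at h2
    linarith only [h1, h2]
  obtain ⟨O2', cl⟩ := hR M t0 g _ k n O g8 t _ O' _ dl tc
  have J' : JC K c M σ t (2 * g) k n := ⟨O2', At⟩
  have f2 := O.fit.f2 n O.hn le_rfl
  obtain c1 := cl 0 n g le_rfl (by omega) le_rfl fun l a b => by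
    rw [zero_add]; exact O.fit.f1 l (by omega) b
  rw [zero_add] at c1
  set F := |(σ.orb M t0).fr 1 n|
  obtain F0 : 0 < F := by by_contra h; nlinarith only [h, f2, wn, g0']
  obtain F1 : 8 / 9 * F ≤ |(σ.orb M t).fr 1 n| := by
    have h1 := abs_sub_abs_le_abs_sub ((σ.orb M t0).fr 1 n) ((σ.orb M t).fr 1 n)
    rw [abs_sub_comm] at h1
    obtain h2 : g * k.w n ≤ 64 * F := by nlinarith only [f2, g8, g0', F0, wn, mul_le_mul g8 g8 (by linarith only [g0']) (by norm_num)]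
    obtain h3 := mul_le_mul_of_nonneg_right dl (show 0 ≤ g * k.w n by positivity)
    linarith only [h1, h2, h3, c1, F0]
  obtain F2 : 0 < |(σ.orb M t).fr 1 n| := by linarith only [F0, F1]
  obtain la : ∀ j, 1 ≤ j → j ≤ K → 32 * |σ.La M t j n| ≤ wt D u ν j := fun j a b => by
    have h1 := H2 j (mem_Icc.2 ⟨a, b⟩)
    obtain h2 := mul_le_mul_of_nonneg_left F1 ((hA 0 (by omega)).pos j)
    unfold Seed.La
    rw [abs_div, ← mul_div_assoc, div_le_iff₀ F2]
    linarith only [h1, h2]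
  obtain ⟨j1, j2⟩ := hJ M σ t _ k n J' γ K _ _ hB (by omega) (hA K (by omega)) la
  obtain inc : ∀ j, 1 ≤ j → j ≤ K + 1 → ∀ m ∈ k.F, m ≤ n → |σ.La M t j m - σ.La M t j n| ≤
      exp (-G * s) * ν / D ^ j + k.NN n (2 * j - 1) (c.gm γ j / 2) m / k.w m := by
    intro j a b m hm hmn
    refine (j2 j a b b m hm hmn).trans (add_le_add_left ?_ _)
    split_ifs with h
    · rw [mul_zero]; positivity
    · obtain h2 : 4 * exp (15 * s + -2 * G * s) ≤ exp (-G * s) := exp_le (by linarith only [p3, p4, s1])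
      rw [exp_add] at h2
      rw [wt_eq D, if_neg (by omega), ← mul_div_assoc, ← mul_div_assoc]
      refine div_le_div_of_nonneg_right ?_ (by positivity)
      linarith only [mul_le_mul_of_nonneg_right h2 hν.le]
  obtain h1 := inc (K + 1) (by omega) le_rfl 1 k1.one n1
  obtain h2 : |σ.La M t (K + 1) 1| ≤ 2 := by
    unfold Seed.La
    rw [Sq.fr, if_pos le_rfl, pj_one]
    simp only [sub_self, Int.toNat_zero, Sq.frP, div_one]
    rcases Nat.eq_zero_or_pos K with h | h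
    · subst h
      have := abs_le.1 At.v1
      rw [zero_add, iteratedDeriv_one, abs_le]; constructor <;> linarith only [this]
    · linarith only [h, At.vj (K + 1) (by omega) le_rfl]
  obtain h3 := NN_one k1 O.hn hl (by linarith only [ck]) (2 * K + 1) (g := c.gm γ (K + 1) / 2) (by linarith only [gK0])
  rw [k1.w1, div_one, show 2 * (K + 1) - 1 = 2 * K + 1 by omega] at h1
  have v1 := one_le_Vm k n (2 * K + 1)
  set V := k.Vm n (2 * K + 1)
  obtain h4 : exp (c.gm γ (K + 1) / 2 * (c.ck * s)) ≤ exp (G * s) :=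
    exp_le_exp.2 (by linarith only [p3, p4, p5, s1])
  obtain h5 : 1 ≤ exp (G * s) := one_le_exp (by linarith only [p3, p4, s1])
  obtain h6 : |σ.La M t (K + 1) n| ≤ exp (-G * s) * ν / D ^ (K + 1) + 3 * (exp (G * s) * V) := by
    have := abs_sub_abs_le_abs_sub (σ.La M t (K + 1) n) (σ.La M t (K + 1) 1)
    rw [abs_sub_comm] at this
    obtain h7 := mul_le_mul_of_nonneg_right h4 (show 0 ≤ V by linarith only [v1])
    have h8 := mul_le_mul h5 v1 zero_le_one (exp_pos _).le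
    linarith only [this, h7, h8, h1, h2, h3]
  obtain Dp : 0 < D ^ (K + 1) := by positivity
  obtain h7 : exp (G * s) * V * D ^ (K + 1) ≤ exp (-G * s) * ν := by
    have := mul_le_mul_of_nonneg_left hV (exp_pos (-G * s)).le
    rwa [← mul_assoc, ← mul_assoc, ← exp_add, show -G * s + 2 * G * s = G * s by ring] at this
  obtain h8 : |σ.La M t (K + 1) n| * D ^ (K + 1) ≤ 4 * (exp (-G * s) * ν) := by
    have := mul_le_mul_of_nonneg_right h6 Dp.le
    rw [add_mul, div_mul_cancel₀ _ Dp.ne'] at this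
    linarith only [h7, this]
  obtain h9 : |σ.pj M t (K + 1) n| = |σ.La M t (K + 1) n| * |(σ.orb M t).fr 1 n| := by
    unfold Seed.La; rw [abs_div, div_mul_cancel₀ _ F2.ne']
  obtain h10 : |(σ.orb M t).fr 1 n| ≤ 16 * k.w n :=
    (O2'.fit.f1 n n1 le_rfl).trans (by nlinarith only [g8, wn])
  obtain h11 : 64 * exp (-G * s) ≤ exp (-10 * s) := exp_le (by linarith only [p3, p4, s1])
  obtain h12 := mul_le_mul h8 h10 F2.le (by positivity)
  have h13 := mul_le_mul_of_nonneg_right h11 (mul_pos hν wn).le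
  refine ⟨fun l => (hJ M σ t _ k n J' γ (K + 1) _ _ hB le_rfl (hA _ le_rfl) fun j a b => ?_).1 1 l
    le_rfl (by omega), J', la, by rw [h9]; linarith only [h12, h13], j1, inc⟩
  rcases b.eq_or_lt with rfl | b
  · obtain h14 : 32 * exp (-G * s) ≤ 1 :=
      (exp_le (y := 0) (by linarith only [p3, p4, s1])).trans_eq exp_zero
    have h15 := mul_le_mul_of_nonneg_right h14 hν.le
    rw [wt_eq D, le_div_iff₀ Dp]
    split_ifs <;> linarith only [h15, h8, u0, hν]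
  · exact la j a (by omega)

/-- jets along a segment grow at most like `exp` -/
theorem grow {p : ℕ → ℝ → ℝ} {a h x : ℝ} (hD : 0 < D) (hh : |h| ≤ D) (ha : 0 ≤ a)
    (hd : ∀ j ≤ K, ∀ y ∈ Set.Icc 0 x, HasDerivAt (p j) (p (j + 1) y * h) y)
    (h0 : ∀ j, 2 ≤ j → j ≤ K → |p j 0| * D ^ j ≤ a)
    (h1 : ∀ y ∈ Set.Icc 0 x, |p (K + 1) y| * D ^ (K + 1) ≤ a) (i : ℕ) :
    ∀ j, 2 ≤ j → j + i = K + 1 → ∀ y ∈ Set.Icc 0 x, |p j y| * D ^ j ≤ a * exp y := by
  induction i with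
  | zero =>
    intro j _ e y hy
    obtain rfl : j = K + 1 := e
    exact (h1 y hy).trans (le_mul_of_one_le_right ha (one_le_exp hy.1))
  | succ i ih =>
    intro j hj e y hy
    obtain Dp : 0 < D ^ j := by positivity
    have := fence (f := fun y => p j y * D ^ j) (f' := fun y => p (j + 1) y * h * D ^ j)
      (B := fun y => a * exp y) (B' := fun y => a * exp y) hy.1
      (fun z hz => (hd j (by omega) z ⟨hz.1, hz.2.trans hy.2⟩).mul_const _)
      (fun z => (hasDerivAt_exp z).const_mul a)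
      (by simpa [abs_mul, abs_of_pos Dp] using h0 j hj (by omega)) fun z hz => by
        refine le_trans ?_ (ih (j + 1) (by omega) (by omega) z ⟨hz.1, hz.2.trans hy.2⟩)
        rw [abs_mul, abs_mul, abs_of_pos Dp, pow_succ, mul_assoc, mul_comm |h|]
        gcongr
    rwa [abs_mul, abs_of_pos Dp] at this
end J4

open J4 in
theorem j4 (K : ℕ) : Hier fun c => AD1_s K c → TUBE_s K c → R2_s K c → J1_s K c → J4_s K c := by
  refine ((SOK.big.and Hier.base).and (Hier.lam_ge (fun _ => 1000) fun _ _ => rfl)).mono ?_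
  rintro c ⟨⟨hb, -, -, -, -, hκ, -⟩, hl⟩ h1 hT hR hJ M σ t0 g k n J g8 γ hB D u ν G1 G2 W g1 g2 hV
    hAt t1 ht1
  have O := J.oc
  have k1 := O.sk.1
  have n1 := (k1.F_mem n O.hn).1
  have wn := k1.w_pos n n1
  have g0' := O.g1
  have D0 := W.D0
  have u0 := W.u0
  have N : Num K c γ (k.sl n) := num hκ hB ((hl.trans k1.sl1).trans (k1.sl_mono 1 n le_rfl n1))
  obtain hν : 0 < ν := lt_of_lt_of_le (by have := one_le_Vm k n (2 * K + 1); (clear * - this D0; positivity)) hV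
  have hA := adm h1 O.sk O.hn hB N W g1 g2 hν
  obtain hh : |t1 - t0| ≤ D := abs_le.2 ⟨by linarith only [ht1.1], by linarith only [ht1.2]⟩
  set h := t1 - t0 with eh
  obtain hφ : ∀ y ∈ Set.Icc (0 : ℝ) 1, |t0 + y * h - t0| ≤ D := fun y hy => by
    rw [add_sub_cancel_left, abs_mul, abs_of_nonneg hy.1]
    nlinarith only [D0, hh, abs_nonneg h, hy.1, hy.2]
  obtain hφ' : ∀ y ∈ Set.Icc (0 : ℝ) 1, σ.At K c (t0 + y * h) := fun y hy =>
    hAt _ ⟨by linarith only [(abs_le.1 (hφ y hy)).1], by linarith only [(abs_le.1 (hφ y hy)).2]⟩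
  have der : ∀ j ≤ K, ∀ l, ∀ y ∈ Set.Icc (0 : ℝ) 1, HasDerivAt (fun y => σ.pj M (t0 + y * h) j l)
      (σ.pj M (t0 + y * h) (j + 1) l * h) y := fun j hj l y hy =>
    (pj_deriv hb O.ok (hφ' y hy) hj l).comp y (((hasDerivAt_mul_const h)).const_add t0)
  have f2 := O.fit.f2 n O.hn le_rfl
  set F := |(σ.orb M t0).fr 1 n| with hF
  obtain F0 : 0 < F := by by_contra h; nlinarith only [wn, f2, h, g0']
  obtain pt := fun y hy => point hb (by linarith only [hl]) hT hR hJ J g8 hB N W g1 hν hV hA (hφ y hy) (hφ' y hy)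
  obtain e0 : ∀ j, |σ.pj M t0 j n| = |σ.La M t0 j n| * F := fun j => by
    unfold Seed.La; rw [abs_div, div_mul_cancel₀ _ F0.ne']
  obtain mu0 : ∀ l, k.mu n (4 * (u + ν)) D 0 (c.gm γ 1) l <
      k.mu n (4 * (u + ν)) (2 * D) 0 (c.gm γ 1) l := fun l => by
    have := mul_pos D0 (NN_pos k n 1 (c.gm γ 1) l)
    unfold Sk.mu; linarith only [this]
  obtain imp : ∀ x ∈ Set.Icc (0 : ℝ) 1, (∀ y ∈ Set.Icc 0 x,
      (∀ l ∈ Icc 0 n, |σ.pj M (t0 + y * h) 0 l - σ.pj M t0 0 l| ≤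
        k.mu n (4 * (u + ν)) (2 * D) 0 (c.gm γ 1) l) ∧
      ∀ j ∈ Icc 1 K, |σ.pj M (t0 + y * h) j n| ≤ wt D u ν j * F / 36) →
      (∀ l ∈ Icc 0 n, |σ.pj M (t0 + x * h) 0 l - σ.pj M t0 0 l| ≤
        k.mu n (4 * (u + ν)) D 0 (c.gm γ 1) l) ∧
      ∀ j ∈ Icc 1 K, |σ.pj M (t0 + x * h) j n| < wt D u ν j * F / 36 := by
    intro x hx H
    have sub : ∀ y ∈ Set.Icc 0 x, y ∈ Set.Icc (0 : ℝ) 1 := fun y hy => ⟨hy.1, hy.2.trans hx.2⟩
    have P := fun y hy => pt y (sub y hy) (H y hy).1 (H y hy).2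
    refine ⟨fun l hl => ?_, fun j hj => ?_⟩
    · obtain ⟨l0, l1⟩ := mem_Icc.1 hl
      have b := fun y hy => (P y hy).1 l l0 l1
      have m0 := (abs_nonneg _).trans (b 0 ⟨le_rfl, hx.1⟩)
      obtain this := fence (f := fun y => σ.pj M (t0 + y * h) 0 l - σ.pj M t0 0 l)
        (B := fun y => y * (k.MJ c n γ (wt D u ν) 1 l * D)) hx.1
        (fun y hy => (der 0 (Nat.zero_le _) l y (sub y hy)).sub_const _)
        (fun y => hasDerivAt_mul_const _) (by simp) fun y hy => by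
          rw [abs_mul]; exact mul_le_mul (b y hy) hh (abs_nonneg _) m0
      refine this.trans ((mul_le_of_le_one_left (by (clear * - m0 D0; positivity)) hx.2).trans_eq ?_)
      simp only [Sk.MJ, Sk.mu, wt, if_true]
      field_simp
      norm_num
    · obtain ⟨j1, j2⟩ := mem_Icc.1 hj
      obtain a0 : 0 < ν * F / 32 := by (clear * - hν F0; positivity)
      have gr := grow (K := K) (p := fun j y => σ.pj M (t0 + y * h) j n) D0 hh a0.le
        (fun j hj y hy => der j hj n y (sub y hy))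
        (fun j a b => by
          have := mul_le_mul_of_nonneg_right (W.lj j a b) F0.le
          simp only [zero_mul, add_zero, e0]; linarith only [this])
        fun y hy => by
          refine (P y hy).2.2.2.1.trans ?_
          obtain h2 : 256 * exp (-10 * k.sl n) ≤ 1 :=
            (exp_le (y := 0) (by linarith only [N.s1])).trans_eq exp_zero
          obtain h3 : k.w n ≤ 8 * F := by nlinarith only [f2, g8, F0]
          have h4 := mul_le_mul h2 h3 wn.le zero_le_one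
          linarith only [mul_le_mul_of_nonneg_left h4 hν.le]
      have ex : exp x < 3 := (exp_le_exp.2 hx.2).trans_lt exp_one_lt_three
      have ex' := mul_lt_mul_of_pos_left ex a0
      obtain Dp : 0 < D ^ j := by positivity
      rw [wt_eq D, div_mul_eq_mul_div, div_right_comm, lt_div_iff₀ Dp]
      split_ifs with e
      · subst e
        have := fence (f := fun y => σ.pj M (t0 + y * h) 1 n * D)
          (B := fun y => u * F / 32 + ν * F / 32 * exp y) hx.1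
          (fun y hy => (der 1 j2 n y (sub y hy)).mul_const _)
          (fun y => ((hasDerivAt_exp y).const_mul _).const_add _)
          (by
            have := mul_le_mul_of_nonneg_right W.l1 F0.le
            simp only [zero_mul, add_zero, abs_mul, abs_of_pos D0, e0, exp_zero]; linarith only [a0, this])
          fun y hy => by
            refine le_trans ?_ (gr (K - 1) 2 le_rfl (by omega) y hy)
            rw [abs_mul, abs_mul, abs_of_pos D0, pow_two, mul_assoc]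
            (clear * - hh D0; gcongr)
        rw [abs_mul, abs_of_pos D0] at this
        have := mul_nonneg u0 F0.le
        rw [pow_one]; (rename_i zq0; linarith only [a0, ex', zq0, this])
      · obtain this := gr (K + 1 - j) j (by omega) (by omega) x ⟨hx.1, le_rfl⟩
        linarith only [a0, ex', this]
  have all := boot (Icc 0 n) (Icc 1 K) (fun l y => |σ.pj M (t0 + y * h) 0 l - σ.pj M t0 0 l|)
    (fun j y => |σ.pj M (t0 + y * h) j n|) (k.mu n (4 * (u + ν)) (2 * D) 0 (c.gm γ 1))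
    (fun j => wt D u ν j * F / 36)
    (fun l _ y hy => ((der 0 (Nat.zero_le _) l y hy).continuousAt.sub continuousAt_const).abs)
    (fun j hj y hy => (der j (mem_Icc.1 hj).2 n y hy).continuousAt.abs) ⟨fun l hl => ?_, fun j hj => ?_⟩
    fun x hx H => ⟨fun l hl => ((imp x hx H).1 l hl).trans_lt (mu0 l), (imp x hx H).2⟩
  · have one : (1 : ℝ) ∈ Set.Icc (0 : ℝ) 1 := ⟨zero_le_one, le_rfl⟩
    have a := (pt 1 one (all 1 one).1 (all 1 one).2).2
    have b := (imp 1 one all).1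
    obtain e : t0 + 1 * h = t1 := by rw [eh]; ring
    rw [e] at a b
    exact ⟨a.1, ⟨by linarith only [u0, hν], le_rfl, hh, fun l l0 l1 => by
      simpa [Seed.pj] using b l (mem_Icc.2 ⟨l0, l1⟩)⟩, a.2⟩
  · obtain h2 : 0 ≤ k.w l := by
      rcases (mem_Icc.1 hl).1.eq_or_lt with e | e
      · rw [← e, k1.w0]
      · exact (k1.w_pos l e).le
    have h3 : 0 ≤ k.w4 l := h2.trans ((Finset.le_fold_max _).2 (Or.inl le_rfl))
    have h4 := NN_pos k n 1 (c.gm γ 1) l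
    simp only [zero_mul, add_zero, sub_self, abs_zero, Sk.mu]
    (clear * - h3 u0 hν D0 h4; positivity)
  · obtain ⟨j1, j2⟩ := mem_Icc.1 hj
    obtain Dp : 0 < D ^ j := by positivity
    simp only [zero_mul, add_zero, e0]
    rw [wt_eq D, div_mul_eq_mul_div, div_right_comm, le_div_iff₀ Dp]
    have := mul_pos hν F0
    have := mul_nonneg u0 F0.le
    split_ifs with e
    · subst e
      have := mul_le_mul_of_nonneg_right W.l1 F0.le
      rw [pow_one]; (rename_i zq1 zq0; linarith only [zq1, zq0, this])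
    · obtain this := mul_le_mul_of_nonneg_right (W.lj j (by omega) j2) F0.le
      (rename_i zq1 _; linarith only [zq1, this])

end Pool.Agent.MP_9cbfe4_an

end

/-! ### Part J5A -/

section

/-! Assembly of J5, part one: steps between free times. -/

namespace Pool.Agent.MP_9cbfe4_an

open Finset Filter Topology Real

noncomputable section

namespace D5
variable {K : ℕ} {c : Cs} {d : D5}

/-- everything the assembly uses -/
structure Cx (K : ℕ) (c : Cs) (d : D5) : Prop where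
  H : d.H K c
  N : d.Num K c
  P : d.Pn K
  E : d.El K
  Z : d.Z0 K
  R : d.Src c
  C : d.Cru K
  L : d.Loc K c
  B : d.Bet K c
  fw : FW5_s K c
  CG : 1 ≤ c.CG
  L1 : 1 ≤ c.L
  cst : 10 ^ 40 * c.CG ^ 2 * c.ep * exp (c.bl / 10) ≤ 1

def La (d : D5) (a : ℕ) (l : ℤ) : ℝ := d.z a l / d.O.fr 1 l

namespace Cx
variable (h : Cx K c d)
include h

theorem oc : OC K c d.M d.t d.g d.O d.k d.m := h.H.2.2.jc.oc
theorem k1 : d.k.OK1 c := h.oc.sk.1
theorem mN : d.m ≤ d.k.N := (h.k1.F_mem _ h.oc.hn).2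
theorem S0 : 0 < d.S K := by linarith only [h.N.S1]
theorem M1 : 1 ≤ c.CG * c.L := by nlinarith only [h.CG, h.L1]
theorem m1 : (1 : ℝ) ≤ d.m := by exact_mod_cast h.N.m1.le
theorem bl0 : 0 ≤ c.bl := by have := h.k1.ch_mem 1; linarith only [this.1, this.2]
omit h in
theorem ep0 : 0 < c.ep := exp_pos _
theorem ep_small : 10 ^ 40 * c.CG ^ 2 * c.ep ≤ 1 := by
  obtain h1 : 1 ≤ exp (c.bl / 10) := one_le_exp (by linarith only [h.bl0])
  obtain h2 : 0 ≤ 10 ^ 40 * c.CG ^ 2 * c.ep := by have := ep0 (c := c); positivity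
  nlinarith only [h1, h2, h.cst]
theorem Ym0 {a : ℕ} (ha : 1 ≤ a) : 0 ≤ d.Ym K a := by linarith only [(h.N.Ym a ha).1]
theorem u0 {a : ℕ} (ha : 1 ≤ a) : 0 ≤ d.ϖ * d.Ym K a := mul_nonneg h.N.ϖ0 (h.Ym0 ha)
theorem ϖu {a : ℕ} (ha : 1 ≤ a) : d.ϖ ≤ d.ϖ * d.Ym K a :=
  le_mul_of_one_le_right h.N.ϖ0 (h.N.Ym a ha).1
omit h in
theorem be0 : 0 ≤ d.be := by unfold be; positivity
theorem beYm : d.be * d.Ym K 1 ≤ d.Ym K 2 := by
  have h1 : 0 ≤ d.wb * d.T 2 := mul_nonneg (exp_pos _).le (h.H.2.2.pos 2)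
  simp only [Ym, U]; linarith only [h1]
theorem beY : d.be ≤ d.Y 1 := by
  have h1 : 0 ≤ d.wb * d.U 1 := mul_nonneg (exp_pos _).le (h.N.U0 1)
  simp only [Y, pow_one]; linarith only [h1]

theorem sp (j : ℕ) {X : ℝ} (hX : 0 ≤ X) : 0 ≤ d.S K ^ j * X := by have := h.S0; positivity
theorem upMm (i j : ℕ) {X : ℝ} (hX : 0 ≤ X) (hij : i < j) :
    10 ^ 20 * (c.CG * c.L * d.m * (d.S K ^ i * X)) ≤ d.S K ^ j * X := by
  obtain h1 : 1 ≤ d.S K := by linarith only [h.N.S1]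
  have h2 : d.S K ^ (i + 1) ≤ d.S K ^ j := pow_le_pow_right₀ h1 hij
  have h3 := mul_le_mul_of_nonneg_right h.N.big' (h.sp i hX)
  have h4 := mul_le_mul_of_nonneg_right h2 hX
  rw [pow_succ] at h4; linarith only [h3, h4]
theorem upM (i j : ℕ) {X : ℝ} (hX : 0 ≤ X) (hij : i < j) :
    10 ^ 20 * (c.CG * c.L * (d.S K ^ i * X)) ≤ d.S K ^ j * X := by
  obtain h0 : 0 ≤ c.CG * c.L * (d.S K ^ i * X) := by have := h.S0; have := h.M1; positivity
  have := mul_le_mul_of_nonneg_left h.m1 h0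
  linarith only [this, h.upMm i j hX hij]
theorem upm (i j : ℕ) {X : ℝ} (hX : 0 ≤ X) (hij : i < j) :
    10 ^ 20 * (d.m * (d.S K ^ i * X)) ≤ d.S K ^ j * X := by
  obtain h0 : 0 ≤ d.m * (d.S K ^ i * X) := by have := h.S0; have := h.m1; positivity
  have := mul_le_mul_of_nonneg_left h.M1 h0
  linarith only [this, h.upMm i j hX hij]
theorem upC (i j : ℕ) {X : ℝ} (hX : 0 ≤ X) (hij : i < j) :
    10 ^ 20 * (c.CG * (d.S K ^ i * X)) ≤ d.S K ^ j * X := by
  obtain h0 : 0 ≤ c.CG * (d.S K ^ i * X) := by have := h.S0; have := h.CG; positivity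
  have := mul_le_mul_of_nonneg_left h.L1 h0
  linarith only [this, h.upM i j hX hij]
theorem upL (i j : ℕ) {X : ℝ} (hX : 0 ≤ X) (hij : i < j) :
    10 ^ 20 * (c.L * (d.S K ^ i * X)) ≤ d.S K ^ j * X := by
  obtain h0 : 0 ≤ c.L * (d.S K ^ i * X) := by have := h.S0; have := h.L1; positivity
  have := mul_le_mul_of_nonneg_left h.CG h0
  linarith only [this, h.upM i j hX hij]
theorem up (i j : ℕ) {X : ℝ} (hX : 0 ≤ X) (hij : i < j) :
    10 ^ 20 * (d.S K ^ i * X) ≤ d.S K ^ j * X := by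
  have := mul_le_mul_of_nonneg_left h.CG (h.sp i hX)
  linarith only [this, h.upC i j hX hij]

theorem nx_le {a : ℤ} (ha : a < d.m) : d.k.nx a ∈ d.k.F ∧ a < d.k.nx a ∧ d.k.nx a ≤ d.m := by
  obtain ⟨h1, h2, h3⟩ := h.k1.nx_mem a (ha.trans_le h.mN)
  exact ⟨h1, h2, h3 _ h.oc.hn ha⟩

theorem step_of {l : ℤ} (h1 : 1 < l) (h2 : l ≤ d.m) : ∃ a ∈ d.k.F, a < l ∧ l ≤ d.k.nx a := by
  classical
  have hne : (d.k.F.filter fun a => a < l).Nonempty := ⟨1, mem_filter.2 ⟨h.k1.one, h1⟩⟩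
  obtain ⟨ha, hl⟩ := mem_filter.1 (max'_mem _ hne)
  refine ⟨_, ha, hl, not_lt.1 fun hc => ?_⟩
  obtain ⟨a1, a2, -⟩ := h.nx_le (hl.trans_le h2)
  exact absurd (le_max' _ _ (mem_filter.2 ⟨a1, hc⟩)) (not_le.2 a2)

theorem free_ind {Q : ℤ → Prop} (h1 : Q 1) (hs : ∀ a ∈ d.k.F, a < d.m → Q a → Q (d.k.nx a)) :
    ∀ f ∈ d.k.F, f ≤ d.m → Q f := by
  obtain key : ∀ n : ℕ, ∀ f ∈ d.k.F, f ≤ d.m → f ≤ n → Q f := by
    intro n
    induction n with
    | zero => intro f hf _ h0; have := (h.k1.F_mem f hf).1; omega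
    | succ n ih =>
      intro f hf hm hn
      rcases (h.k1.F_mem f hf).1.eq_or_lt with rfl | hlt
      · exact h1
      obtain ⟨a, ha, al, la⟩ := h.step_of hlt hm
      obtain e : d.k.nx a = f :=
        le_antisymm ((h.k1.nx_mem a (by linarith only [hm, al, h.mN])).2.2 f hf al) la
      rw [← e]
      exact hs a ha (by omega) (ih a ha (by omega) (by push_cast at hn; omega))
  intro f hf hm
  exact key f.toNat f hf hm (by omega)

theorem D'_F {x : ℤ} (hx : x ∈ d.D') : x ∈ d.k.D ∧ x ∈ d.k.F ∧ x < d.m ∧ 1 ≤ x := by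
  obtain ⟨h1, h2, -⟩ := (h.N.mem x).1 hx
  exact ⟨h1, (h.k1.D_mem x h1).1, h2, (h.k1.F_mem x (h.k1.D_mem x h1).1).1⟩

theorem sum_split {a : ℤ} (ha : a < d.m) (f : ℤ → ℝ) :
    ∑ x ∈ d.D'.filter (· < d.k.nx a), f x =
      ∑ x ∈ d.D'.filter (· < a), f x + if a ∈ d.D' then f a else 0 := by
  obtain ⟨-, a2, -⟩ := h.nx_le ha
  have key : ∀ x ∈ d.D', x < d.k.nx a ↔ x ≤ a := fun x hx =>
    ⟨fun hc => not_lt.1 fun hl => absurd ((h.k1.nx_mem a (ha.trans_le h.mN)).2.2 x (h.D'_F hx).2.1 hl)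
      (not_le.2 hc), fun hc => hc.trans_lt a2⟩
  split_ifs with hD
  · obtain e : d.D'.filter (· < d.k.nx a) = insert a (d.D'.filter (· < a)) := by
      ext x
      simp only [mem_filter, mem_insert]
      constructor
      · rintro ⟨h1, h2⟩
        rcases ((key x h1).1 h2).eq_or_lt with h3 | h3
        exacts [Or.inl h3, Or.inr ⟨h1, h3⟩]
      · rintro (rfl | ⟨h1, h2⟩)
        exacts [⟨hD, a2⟩, ⟨h1, h2.trans a2⟩]
    rw [e, sum_insert (by simp), add_comm]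
  · rw [add_zero]
    refine sum_congr ?_ fun _ _ => rfl
    ext x
    simp only [mem_filter]
    refine and_congr_right fun h1 => (key x h1).trans ⟨fun h2 => h2.lt_of_ne ?_, le_of_lt⟩
    rintro rfl; exact hD h1

theorem sum_le {J a : ℤ} (hJ : J ≤ d.m) {f : ℤ → ℝ} {b : ℝ} (hb : 0 ≤ b)
    (hf : ∀ i, 1 ≤ i → i < J → f i ≤ b) : ∑ i ∈ (Ico 1 J).erase a, f i ≤ d.m * b := by
  obtain h1 := sum_le_card_nsmul ((Ico 1 J).erase a) f b fun i hi => by
    have := mem_Ico.1 (mem_of_mem_erase hi); exact hf i this.1 this.2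
  obtain h2 : (((Ico 1 J).erase a).card : ℝ) ≤ d.m := by
    obtain h3 : ((Ico 1 J).erase a).card ≤ (J - 1).toNat := by
      simpa using card_erase_le (s := Ico 1 J) (a := a)
    have h4 := h.N.m1
    obtain h5 : (((Ico 1 J).erase a).card : ℤ) ≤ d.m := by omega
    exact_mod_cast h5
  rw [nsmul_eq_mul] at h1
  exact h1.trans (mul_le_mul_of_nonneg_right h2 hb)

theorem w0 {l : ℤ} (hl : 1 ≤ l) : 0 < d.k.w l := h.k1.w_pos l hl
theorem xi_hi {l : ℤ} (h1 : 1 ≤ l) (h2 : l ≤ d.m) : |d.O.fr 1 l| ≤ 8 * d.k.w l :=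
  (h.oc.fit.f1 l h1 h2).trans (mul_le_mul_of_nonneg_right h.H.2.2.g8 (h.w0 h1).le)
theorem xi_lo {f : ℤ} (h1 : f ∈ d.k.F) (h2 : f ≤ d.m) : d.k.w f ≤ 8 * |d.O.fr 1 f| :=
  (h.oc.fit.f2 f h1 h2).trans (mul_le_mul_of_nonneg_right h.H.2.2.g8 (abs_nonneg _))
theorem xi_ne {f : ℤ} (h1 : f ∈ d.k.F) (h2 : f ≤ d.m) : d.O.fr 1 f ≠ 0 := by
  have := h.xi_lo h1 h2
  have := h.w0 (h.k1.F_mem f h1).1
  exact abs_pos.1 (by linarith)
theorem div_xi {f : ℤ} (h1 : f ∈ d.k.F) (h2 : f ≤ d.m) {y b : ℝ} (hb : 0 ≤ b)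
    (hy : |y| ≤ d.k.w f * b) : |y / d.O.fr 1 f| ≤ 8 * b := by
  rw [abs_div, div_le_iff₀ (abs_pos.2 (h.xi_ne h1 h2))]
  nlinarith only [hy, hb, h.xi_lo h1 h2]

omit h in
theorem P0 (a : ℕ) (l : ℤ) : 0 ≤ d.P a l ∧ |d.p a l| ≤ d.P a l :=
  ⟨le_max_of_le_right (le_max_of_le_left (abs_nonneg _)), le_max_of_le_right (le_max_left _ _)⟩
omit h in
theorem Z0' (a : ℕ) (l : ℤ) : 0 ≤ d.Z a l ∧ |d.z a l| ≤ d.Z a l :=
  ⟨le_max_of_le_left (abs_nonneg _), le_max_left _ _⟩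

/-- one step -/
theorem step {j : ℕ} (hj : j ≤ 3) {a l : ℤ} (ha : a ∈ d.k.F) (am : a < d.m) (al : a < l)
    (la : l ≤ d.k.nx a) : |d.O.fr (a + 1) l| ≤ 8 * d.k.ew a a * d.k.w l ∧
    |d.z j l - d.O.fr 1 l * d.La j a - d.O.fr (a + 1) l * d.F j a| ≤
      d.k.w l * (2000 * (∑ i ∈ (Ico 1 (d.k.nx a)).erase a, d.k.ew a i * |d.F j i| + d.ϖ)) := by
  obtain ⟨h1, h2⟩ := (h.fw _ _ _ _ _ _ h.oc h.H.2.2.g8 (d.z j) (d.F j)
    fun i _ _ => by simp only [F]; ring).2 a ha am l al la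
  refine ⟨h1, h2.trans (mul_le_mul_of_nonneg_left ?_ (h.w0 ?_).le)⟩
  · linarith only [(h.Z.ini j hj).1]
  · have := (h.k1.F_mem a ha).1; omega

theorem step' {j : ℕ} (hj : j ≤ 3) {a l : ℤ} (ha : a ∈ d.k.F) (am : a < d.m) (al : a < l)
    (la : l ≤ d.k.nx a) {b b' : ℝ} (h1 : d.k.ew a a * |d.F j a| ≤ b)
    (h2 : ∑ i ∈ (Ico 1 (d.k.nx a)).erase a, d.k.ew a i * |d.F j i| ≤ b') :
    |d.z j l - d.O.fr 1 l * d.La j a| ≤ d.k.w l * (8 * b + 2000 * (b' + d.ϖ)) := by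
  obtain ⟨s1, s2⟩ := h.step hj ha am al la
  obtain hw : 0 < d.k.w l := h.w0 (by have := (h.k1.F_mem a ha).1; omega)
  obtain s3 : |d.O.fr (a + 1) l * d.F j a| ≤ d.k.w l * (8 * b) := by
    rw [abs_mul]
    have := mul_le_mul_of_nonneg_right s1 (abs_nonneg (d.F j a))
    have := mul_le_mul_of_nonneg_left h1 hw.le
    linarith
  have s4 := abs_add_le (d.z j l - d.O.fr 1 l * d.La j a - d.O.fr (a + 1) l * d.F j a)
    (d.O.fr (a + 1) l * d.F j a)
  rw [sub_add_cancel] at s4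
  have := mul_le_mul_of_nonneg_left h2 hw.le
  linarith only [s2, s3, s4, this]

theorem la_inc {j : ℕ} {a : ℤ} (am : a < d.m) {y b : ℝ} (hb : 0 ≤ b)
    (hy : |d.z j (d.k.nx a) - d.O.fr 1 (d.k.nx a) * d.La j a - y| ≤ d.k.w (d.k.nx a) * b) :
    |d.La j (d.k.nx a) - d.La j a - y / d.O.fr 1 (d.k.nx a)| ≤ 8 * b := by
  obtain ⟨a1, -, a3⟩ := h.nx_le am
  have := h.div_xi a1 a3 hb hy
  have h0 := h.xi_ne a1 a3
  convert this using 2
  unfold La; field_simp

/-- a step from a free time outside `D'` -/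
theorem low {a : ℤ} (ha : a ∈ d.k.F) (am : a < d.m) (hD : a ∉ d.D') {l : ℤ} (al : a < l)
    (la : l ≤ d.k.nx a) :
    |d.z 1 l - d.O.fr 1 l * d.La 1 a| ≤ d.k.w l * (d.S K ^ 5 * (d.ϖ * d.Ym K 1)) ∧
    |d.z 2 l - d.O.fr 1 l * d.La 2 a| ≤ d.k.w l * (d.S K ^ 11 * (d.ϖ * d.Ym K 2)) := by
  obtain ⟨-, a2, a3⟩ := h.nx_le am
  have a1 := (h.k1.F_mem a ha).1
  obtain hw : 0 < d.k.w l := h.w0 (by omega)
  obtain hM : 0 ≤ c.CG * c.L := by linarith only [h.M1]
  have u1 := h.u0 (a := 1) le_rfl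
  have u2 := h.u0 (a := 2) one_le_two
  have hS := h.S0
  obtain key : ∀ i, 1 ≤ i → i < d.k.nx a →
      d.k.ew a i * |d.F 1 i| ≤ c.CG * c.L * (d.S K ^ 4 * (d.ϖ * d.Ym K 1)) ∧
      d.k.ew a i * |d.F 2 i| ≤ c.CG * c.L * (d.S K ^ 10 * (d.ϖ * d.Ym K 2)) := by
    intro i i1 i2
    obtain im : i < d.m := by omega
    obtain ⟨e0, -, e2, e3, e4⟩ := h.E.ew a ha am i i1 i2
    obtain p1 := h.P.low 1 i _ le_rfl (by norm_num) i1 im e0 (e4 hD) e3
    obtain p2 := h.P.low 2 i _ one_le_two (by norm_num) i1 im e0 (e4 hD) e3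
    obtain ⟨r1, r2⟩ := h.C.er i _ i1 im e0 e2 e3
    have z0 := h.Z.cr i i1 im.le
    have z1 := h.C.z1 i i1 im.le
    have q1 := mul_le_mul_of_nonneg_left z0 (mul_nonneg e0 (P0 (d := d) 1 i).1)
    have q2 := mul_le_mul_of_nonneg_left z0 (mul_nonneg e0 (P0 (d := d) 2 i).1)
    have q3 := mul_le_mul_of_nonneg_left z1 (mul_nonneg e0 (P0 (d := d) 1 i).1)
    have q4 := mul_le_mul_of_nonneg_left p1 h.N.ϖ0
    have q5 := mul_le_mul_of_nonneg_left p2 h.N.ϖ0
    have Y0 : 0 ≤ d.Y 1 := be0.trans h.beY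
    obtain q6 := mul_le_mul_of_nonneg_left p1
      (show 0 ≤ d.S K ^ 5 * d.ϖ * d.Y 1 by have := h.N.ϖ0; (clear * - hS this Y0; positivity))
    obtain q7 := mul_le_mul_of_nonneg_left h.N.YY.2.2
      (show 0 ≤ d.S K ^ 8 * d.ϖ by have := h.N.ϖ0; (clear * - hS this; positivity))
    constructor
    · refine (mul_le_mul_of_nonneg_left (h.R.f1 i i1 im) e0).trans ?_
      rw [mul_left_comm]
      refine mul_le_mul_of_nonneg_left ?_ hM
      linarith only [r1, q1, q4, h.up 3 4 u1 (by norm_num), h.up 0 4 u1 (by norm_num), h.sp 4 u1]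
    · refine (mul_le_mul_of_nonneg_left (h.R.f2 i i1 im) e0).trans ?_
      rw [mul_left_comm]
      refine mul_le_mul_of_nonneg_left ?_ hM
      linarith only [r2, q2, q3, q5, q6, q7, h.up 3 10 u2 (by norm_num), h.up 6 10 u2 (by norm_num),
        h.up 9 10 u2 (by norm_num), h.sp 10 u2]
  constructor
  · refine (h.step' (by norm_num) ha am al la (key a a1 a2).1
      (h.sum_le a3 (by (clear * - hM hS u1; positivity)) fun i i1 i2 => (key i i1 i2).1)).trans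
      (mul_le_mul_of_nonneg_left ?_ hw.le)
    linarith only [h.upM 4 5 u1 (by norm_num), h.upMm 4 5 u1 (by norm_num), h.up 0 5 u1 (by norm_num), h.ϖu (a := 1) le_rfl,
      h.sp 5 u1]
  · refine (h.step' (by norm_num) ha am al la (key a a1 a2).2
      (h.sum_le a3 (by (clear * - hM hS u2; positivity)) fun i i1 i2 => (key i i1 i2).2)).trans
      (mul_le_mul_of_nonneg_left ?_ hw.le)
    linarith only [h.upM 10 11 u2 (by norm_num), h.upMm 10 11 u2 (by norm_num), h.up 0 11 u2 (by norm_num),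
      h.ϖu (a := 2) one_le_two, h.sp 11 u2]

/-- the remainder of order zero against the weights -/
theorem rem0 {x i : ℤ} (hx : x ∈ d.k.F) (xm : x < d.m) (i1 : 1 ≤ i) (i2 : i < d.k.nx x) {a : ℕ}
    (a1 : 1 ≤ a) (a2 : a ≤ 2) :
    d.k.ew x i * (d.ϖ * (d.θ K * d.k.w i + exp (-(2 / 5) * d.k.chi 0 i))) * d.P a i ≤
      9 * (d.S K ^ 3 * (d.ϖ * d.Ym K a)) := by
  have im : i < d.m := i2.trans_le (h.nx_le xm).2.2
  obtain ⟨e0, e1, e2, e3, -⟩ := h.E.ew x hx xm i i1 i2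
  obtain p1 := h.P.full a i _ a1 (by omega) i1 im e0 e2 e3
  obtain p2 := h.P.num a i a1 (by omega) i1 im
  have hS := h.S0
  have hϖ := h.N.ϖ0
  have q1 := mul_le_mul_of_nonneg_left p1 (mul_nonneg hϖ h.N.θ0.le)
  obtain q2 := mul_le_mul_of_nonneg_left (h.N.Ym a a1).2.2 (show 0 ≤ d.S K ^ 3 * d.ϖ by positivity)
  obtain q3 := mul_le_mul_of_nonneg_left
    (mul_le_mul e1 p2 (P0 (d := d) a i).1 (by norm_num)) hϖ
  obtain q4 := h.up 1 3 (h.u0 a1) (by norm_num)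
  obtain q5 : 0 ≤ d.S K ^ 1 * (d.ϖ * d.Ym K a) := by have := h.u0 a1; (clear * - hS this; positivity)
  linarith only [q1, q2, q3, q4, q5]

/-- `Z₀ P_a` against the weights at a major of `D'` -/
theorem zp {x : ℤ} (hx : x ∈ d.D') {a : ℕ} (a1 : 1 ≤ a) (a2 : a ≤ 2) :
    ∑ i ∈ (Ico 1 (d.k.nx x)).erase x, d.k.ew x i * (d.Z 0 i * d.P a i) ≤
      8 * (c.ep * (|d.δ| * (|d.p a x| / d.k.η x))) + d.S K ^ 11 * (d.ϖ * d.Ym K a) ∧
    d.k.ew x x * (d.Z 0 x * d.P a x) ≤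
      2048 * (|d.δ| * (|d.p a x| / d.k.η x)) + d.S K ^ 11 * (d.ϖ * d.Ym K a) := by
  obtain ⟨xD, xF, xm, x1⟩ := h.D'_F hx
  obtain ⟨-, n2, n3⟩ := h.nx_le xm
  obtain ⟨l1, l2⟩ := h.L x hx a a1 a2
  have u := h.u0 a1
  have hS := h.S0
  have hη := (h.k1.η_mem x xD).1
  obtain dY := mul_le_mul_of_nonneg_right h.Z.dl
    (show 0 ≤ d.S K ^ 10 * d.Ym K a by have := h.Ym0 a1; positivity)
  obtain key : ∀ i, 1 ≤ i → i < d.k.nx x → d.k.ew x i * (d.Z 0 i * d.P a i) ≤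
      8 * |d.δ| * (d.k.ew x i * d.k.w i * d.P a i) + 9 * (d.S K ^ 3 * (d.ϖ * d.Ym K a)) := by
    intro i i1 i2
    obtain this := mul_le_mul_of_nonneg_left (h.Z.sh' i i1 (by omega))
      (mul_nonneg (h.E.ew x xF xm i i1 i2).1 (P0 (d := d) a i).1)
    linarith only [this, h.rem0 xF xm i1 i2 a1 a2]
  constructor
  · refine (sum_le_sum fun i hi => key i (mem_Ico.1 (mem_of_mem_erase hi)).1
      (mem_Ico.1 (mem_of_mem_erase hi)).2).trans ?_
    rw [sum_add_distrib, ← mul_sum]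
    obtain s1 := h.sum_le (a := x) n3 (f := fun _ => 9 * (d.S K ^ 3 * (d.ϖ * d.Ym K a)))
      (by (clear * - hS u; positivity)) fun _ _ _ => le_rfl
    obtain s2 : exp (-(9 / 10) * c.bl) ≤ c.ep := exp_le_exp.2 (by linarith only [h.bl0])
    obtain s3 := mul_le_mul_of_nonneg_right s2 (show 0 ≤ |d.p a x| / d.k.η x by (clear * - hη; positivity))
    obtain s4 := mul_le_mul_of_nonneg_left (l1.trans (add_le_add s3 le_rfl))
      (show 0 ≤ 8 * |d.δ| by positivity)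
    linarith only [dY, s1, s4, h.upm 3 4 u (by norm_num), h.up 4 11 u (by norm_num), h.up 10 11 u (by norm_num),
      h.sp 11 u, h.sp 4 u]
  · obtain s1 : d.k.ew x x * d.k.w x * d.P a x ≤
        4 * (64 * (|d.p a x| / d.k.η x) + d.S K ^ 10 * d.Ym K a) := by
      have hw := h.w0 x1
      obtain e : d.k.ew x x * d.k.w x = 4 / d.k.η x := by
        rw [h.E.maj x xD, Sk.V]; field_simp
      obtain this := mul_le_mul_of_nonneg_left l2 (show 0 ≤ 4 / d.k.η x by positivity)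
      rw [e]
      refine this.trans (le_of_eq ?_)
      field_simp
    obtain s2 := mul_le_mul_of_nonneg_left s1 (show 0 ≤ 8 * |d.δ| by positivity)
    linarith only [dY, s2, key x x1 n2, h.up 3 11 u (by norm_num), h.up 10 11 u (by norm_num),
      h.sp 11 u, h.sp 4 u]

end Cx
end D5

end
end Pool.Agent.MP_9cbfe4_an

end

/-! ### Part J5B -/

section

/-! Assembly of J5, part two: order one. -/

namespace Pool.Agent.MP_9cbfe4_an

open Finset Filter Topology Real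

noncomputable section

namespace D5
variable {K : ℕ} {c : Cs} {d : D5}

def bs (c : Cs) (d : D5) : ℝ := ∑ x ∈ d.D', |d.β c x|
def A1 (K : ℕ) (c : Cs) (d : D5) : ℝ :=
  5 * 10 ^ 7 * (c.CG * (|d.δ| * bs c d)) + d.S K ^ 15 * (d.ϖ * d.Ym K 1)

namespace Cx
variable (h : Cx K c d)
include h

theorem ep1 : 10 ^ 40 * (c.CG * c.ep) ≤ 1 := by
  obtain this := mul_le_mul_of_nonneg_left h.CG
    (show 0 ≤ c.CG * c.ep by have := ep0 (c := c); have := h.CG; positivity)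
  linarith only [this, h.ep_small]
theorem ep2 : 10 ^ 40 * c.ep ≤ 1 := by
  have := mul_le_mul_of_nonneg_left h.CG (ep0 (c := c)).le
  linarith only [this, h.ep1]
theorem bl2 : exp (-2 * c.bl) ≤ c.ep := exp_le_exp.2 (by linarith only [h.bl0])

theorem maj {x : ℤ} (hx : x ∈ d.D') : d.ρ x ≠ 0 ∧ d.O.fr 1 x ≠ 0 ∧
    (∀ y, d.O.fr (x + 1) (d.k.nx x) * y / d.O.fr 1 (d.k.nx x) = y / (d.ρ x * d.O.fr 1 x)) ∧
    ∀ y b, |y| ≤ b → |y / (d.ρ x * d.O.fr 1 x)| ≤ 4096 * (d.k.ew x x * b) := by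
  obtain ⟨xD, xF, xm, x1⟩ := h.D'_F hx
  obtain ⟨n1, n2, n3⟩ := h.nx_le xm
  have hη := (h.k1.η_mem x xD).1
  have hw := h.w0 x1
  obtain hJ : 0 < d.k.w (d.k.nx x) := h.w0 (by omega)
  have r := (h.B.one x hx).2.2.2.1
  obtain hρ : d.ρ x ≠ 0 := abs_pos.1 (by linarith only [hη, r])
  have hξ := h.xi_ne xF xm.le
  obtain hφ : d.O.fr (x + 1) (d.k.nx x) ≠ 0 := fun h0 => by
    have f := h.oc.fit.flo x xD xm
    obtain this : 0 < d.k.V x 1 * d.k.w (d.k.nx x) := by unfold Sk.V; positivity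
    rw [h0, abs_zero, mul_zero] at f; linarith only [f, this]
  refine ⟨hρ, hξ, fun y => ?_, fun y b hy => ?_⟩
  · rw [d.O.rho_mul (ξ := d.O.fr 1) hξ hφ]
    change _ / (d.ρ x * _ * _) = _
    field_simp
  · have hb := (abs_nonneg y).trans hy
    obtain s1 := mul_le_mul r (h.xi_lo xF xm.le) hw.le (by positivity)
    obtain s2 : 1 ≤ 16384 * (|d.ρ x| * |d.O.fr 1 x|) / (d.k.η x * d.k.w x) := by
      rw [le_div_iff₀ (by positivity)]; linarith only [s1]
    rw [abs_div, abs_mul, div_le_iff₀ (by positivity), h.E.maj x xD, Sk.V]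
    refine hy.trans ((le_mul_of_one_le_right hb s2).trans (le_of_eq ?_))
    field_simp; ring

theorem dz {x : ℤ} (hx : x ∈ d.D') {a : ℕ} (a1 : 1 ≤ a) (a2 : a ≤ 2) :
    |d.Lt c x * (d.z 0 x * d.p a x) / (d.ρ x * d.O.fr 1 x) - d.δ * (d.Lt c x * d.p a x / d.ρ x)| ≤
      d.S K ^ 4 * (d.ϖ * d.Ym K a) := by
  obtain ⟨xD, xF, xm, x1⟩ := h.D'_F hx
  obtain ⟨m1, m2, -, m4⟩ := h.maj hx
  obtain e : d.Lt c x * (d.z 0 x * d.p a x) / (d.ρ x * d.O.fr 1 x) - d.δ * (d.Lt c x * d.p a x / d.ρ x)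
      = d.Lt c x * ((d.z 0 x - d.δ * d.O.fr 1 x) * d.p a x) / (d.ρ x * d.O.fr 1 x) := by
    field_simp
  obtain hL : 0 ≤ c.L := by linarith only [h.L1]
  obtain s0 := h.Z.sh x (by omega) xm.le
  have s1 := m4 (d.Lt c x * ((d.z 0 x - d.δ * d.O.fr 1 x) * d.p a x)) _
    ((abs_mul _ _).trans_le (mul_le_mul (h.B.one x hx).2.2.2.2 ((abs_mul _ _).trans_le
      (mul_le_mul s0 (P0 a x).2 (abs_nonneg _) ((abs_nonneg _).trans s0))) (abs_nonneg _) hL))
  have s2 := mul_le_mul_of_nonneg_left (h.rem0 xF xm x1 (h.nx_le xm).2.1 a1 a2) hL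
  rw [e]
  linarith only [s1, s2, h.upL 3 4 (h.u0 a1) (by norm_num), h.sp 4 (h.u0 a1)]

theorem inc {x : ℤ} (hx : x ∈ d.D') {j : ℕ} (hj : j ≤ 3) {b : ℝ}
    (hb : ∑ i ∈ (Ico 1 (d.k.nx x)).erase x, d.k.ew x i * |d.F j i| ≤ b) (b0 : 0 ≤ b) :
    |d.La j (d.k.nx x) - d.La j x - d.F j x / (d.ρ x * d.O.fr 1 x)| ≤ 16000 * (b + d.ϖ) := by
  obtain ⟨xD, xF, xm, x1⟩ := h.D'_F hx
  obtain ⟨-, n2, -⟩ := h.nx_le xm
  have hϖ := h.N.ϖ0
  obtain s := h.la_inc (j := j) xm (b := 2000 * (b + d.ϖ)) (by positivity)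
    ((h.step hj xF xm n2 le_rfl).2.trans
      (mul_le_mul_of_nonneg_left (by linarith only [hb]) (h.w0 (by omega)).le))
  rw [(h.maj hx).2.2.1] at s
  linarith only [s]

theorem src1 {x : ℤ} (hx : x ∈ d.D') :
    ∑ i ∈ (Ico 1 (d.k.nx x)).erase x, d.k.ew x i * |d.F 1 i| ≤
      8192 * (c.CG * c.ep * (|d.δ| * |d.β c x|)) + d.S K ^ 12 * (d.ϖ * d.Ym K 1) ∧
    d.k.ew x x * |d.F 1 x| ≤
      2097152 * (c.CG * (|d.δ| * |d.β c x|)) + d.S K ^ 12 * (d.ϖ * d.Ym K 1) := by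
  obtain ⟨xD, xF, xm, x1⟩ := h.D'_F hx
  obtain ⟨-, n2, n3⟩ := h.nx_le xm
  obtain ⟨z1, z2⟩ := h.zp hx (a := 1) le_rfl one_le_two
  obtain hM : 0 ≤ c.CG * c.L := by linarith only [h.M1]
  obtain hC : 0 ≤ c.CG := by linarith only [h.CG]
  have u := h.u0 (a := 1) le_rfl
  have hp := ep0 (c := c)
  obtain key : ∀ i, 1 ≤ i → i < d.k.nx x → d.k.ew x i * |d.F 1 i| ≤
      c.CG * c.L * (d.k.ew x i * (d.Z 0 i * d.P 1 i)) + c.CG * c.L * (d.ϖ * d.Ym K 1) := by
    intro i i1 i2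
    obtain ⟨e0, -, e2, e3, -⟩ := h.E.ew x xF xm i i1 i2
    obtain s1 := mul_le_mul_of_nonneg_left (h.R.f1 i i1 (by omega)) e0
    obtain s2 := mul_le_mul_of_nonneg_left (h.C.er i _ i1 (by omega) e0 e2 e3).1 hM
    linarith only [s1, s2]
  have b1 := (h.B.one x hx).2.1
  constructor
  · refine (sum_le_sum fun i hi => key i (mem_Ico.1 (mem_of_mem_erase hi)).1
      (mem_Ico.1 (mem_of_mem_erase hi)).2).trans ?_
    rw [sum_add_distrib, ← mul_sum]
    obtain s1 := h.sum_le (a := x) n3 (f := fun _ => c.CG * c.L * (d.ϖ * d.Ym K 1))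
      (by positivity) fun _ _ _ => le_rfl
    have s2 := mul_le_mul_of_nonneg_left z1 hM
    obtain s3 := mul_le_mul_of_nonneg_left b1 (show 0 ≤ c.CG * c.ep * |d.δ| by (clear * - hC hp; positivity))
    linarith only [s1, s2, s3, h.upM 11 12 u (by norm_num), h.upMm 0 12 u (by norm_num), h.sp 12 u]
  · have s2 := mul_le_mul_of_nonneg_left z2 hM
    obtain s3 := mul_le_mul_of_nonneg_left b1 (show 0 ≤ c.CG * |d.δ| by positivity)
    linarith only [s2, s3, key x x1 n2, h.upM 11 12 u (by norm_num), h.upM 0 12 u (by norm_num), h.sp 12 u]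

theorem q_le {x : ℤ} (hx : x ∈ d.D') (a : ℕ) :
    0 ≤ |d.p a x| / d.k.η x ∧ |d.p a x| / d.k.η x ≤ c.L * (|d.p a x| / d.k.η x) := by
  have hη := (h.k1.η_mem x (h.D'_F hx).1).1
  exact ⟨by positivity, le_mul_of_one_le_left (by positivity) h.L1⟩

theorem inc1 {x : ℤ} (hx : x ∈ d.D') : |d.La 1 (d.k.nx x) - d.La 1 x - d.δ * d.β c x| ≤
    10 ^ 10 * (c.CG * c.ep * (|d.δ| * |d.β c x|)) + d.S K ^ 13 * (d.ϖ * d.Ym K 1) := by
  obtain ⟨xD, xF, xm, x1⟩ := h.D'_F hx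
  obtain ⟨-, n2, n3⟩ := h.nx_le xm
  obtain hM : 0 ≤ c.CG * c.L := by linarith only [h.M1]
  obtain hC : 0 ≤ c.CG := by linarith only [h.CG]
  have u := h.u0 (a := 1) le_rfl
  have hp := ep0 (c := c)
  have hS := h.S0
  obtain s1 := h.inc hx (by norm_num) (h.src1 hx).1 (by (clear * - hC hp hS u; positivity))
  have s2 := (h.maj hx).2.2.2 _ _ (h.R.g1 x xD xm)
  have s3 : |_ - d.δ * d.β c x| ≤ _ := h.dz hx (a := 1) le_rfl one_le_two
  obtain ⟨e0, -, e2, e3, -⟩ := h.E.ew x xF xm x x1 n2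
  have s4 := mul_le_mul_of_nonneg_left (h.C.er x _ x1 xm e0 e2 e3).1 hM
  have s5 := mul_le_mul h.bl2 (h.zp hx (a := 1) le_rfl one_le_two).2
    (mul_nonneg e0 (mul_nonneg (Z0' 0 x).1 (P0 1 x).1)) hp.le
  obtain s6 := mul_le_mul_of_nonneg_left ((h.q_le hx 1).2.trans (h.B.one x hx).2.1)
    (show 0 ≤ c.ep * |d.δ| by (clear * - hp; positivity))
  obtain s7 := mul_le_mul_of_nonneg_right h.CG
    (show 0 ≤ c.ep * (|d.δ| * |d.β c x|) by (clear * - hp; positivity))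
  have s8 := mul_le_mul_of_nonneg_right h.ep2 (h.sp 11 u)
  obtain s9 : 0 ≤ c.ep * (|d.δ| * |d.β c x|) := by (clear * - hp; positivity)
  rw [sub_div] at s2
  rw [abs_le] at s1 s2 s3 ⊢
  obtain t1 := h.up 12 13 u (by norm_num)
  obtain t2 := h.up 11 13 u (by norm_num)
  obtain t3 := h.up 4 13 u (by norm_num)
  obtain t4 := h.upM 0 13 u (by norm_num)
  obtain t5 := h.up 0 13 u (by norm_num)
  have t6 := h.ϖu (a := 1) le_rfl
  have t7 := h.sp 13 u
  have t8 := h.sp 11 u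
  constructor <;> linarith only [s4, s5, s6, s7, s8, s9, t1, t2, t3, t4, t5, t6, s1.1, s1.2, s2.1, s2.2, s3.1, s3.2]

theorem low' {a : ℤ} (ha : a ∈ d.k.F) (am : a < d.m) (hD : a ∉ d.D') :
    |d.La 1 (d.k.nx a) - d.La 1 a| ≤ 8 * (d.S K ^ 5 * (d.ϖ * d.Ym K 1)) ∧
    |d.La 2 (d.k.nx a) - d.La 2 a| ≤ 8 * (d.S K ^ 11 * (d.ϖ * d.Ym K 2)) := by
  obtain ⟨l1, l2⟩ := h.low ha am hD (h.nx_le am).2.1 le_rfl
  exact ⟨by simpa using h.la_inc (y := 0) am (h.sp 5 (h.u0 le_rfl)) (by simpa using l1),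
    by simpa using h.la_inc (y := 0) am (h.sp 11 (h.u0 one_le_two)) (by simpa using l2)⟩

theorem ini {a : ℕ} (a1 : 1 ≤ a) (a3 : a ≤ 3) (j : ℕ) :
    |d.La a 1| ≤ d.S K ^ j * (d.ϖ * d.Ym K a) := by
  rw [La, Sq.fr_self, div_one]
  exact (h.Z.ini a a3).2.trans ((h.ϖu a1).trans
    (le_mul_of_one_le_left (h.u0 a1) (one_le_pow₀ (by linarith only [h.N.S1]))))

theorem fil1 : d.D'.filter (· < 1) = ∅ :=
  filter_eq_empty_iff.2 fun _ hx => not_lt.2 (h.D'_F hx).2.2.2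
theorem film : d.D'.filter (· < d.m) = d.D' := filter_true_of_mem fun _ hx => (h.D'_F hx).2.2.1
omit h in
theorem bs_fil (f : ℤ) : ∑ x ∈ d.D'.filter (· < f), |d.β c x| ≤ bs c d :=
  sum_le_sum_of_subset_of_nonneg (filter_subset _ _) fun _ _ _ => abs_nonneg _
omit h in
theorem bs_one {x : ℤ} (hx : x ∈ d.D') : |d.β c x| ≤ bs c d :=
  single_le_sum (f := fun x => |d.β c x|) (fun _ _ => abs_nonneg _) hx
omit h in
theorem bs0 : 0 ≤ bs c d := sum_nonneg fun _ _ => abs_nonneg _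

/-- summation of increments over the free times -/
theorem tele {Λ T : ℤ → ℝ} {I : ℤ → ℝ} {ε r : ℝ} (h1 : |Λ 1 - T 1| ≤ r) (hε : 0 ≤ ε)
    (hT : ∀ a ∈ d.k.F, a < d.m → T (d.k.nx a) = T a + if a ∈ d.D' then I a else 0)
    (hD : ∀ x ∈ d.D', |Λ (d.k.nx x) - Λ x - I x| ≤ ε * |d.β c x| + r)
    (hN : ∀ a ∈ d.k.F, a < d.m → a ∉ d.D' → |Λ (d.k.nx a) - Λ a| ≤ r) :
    ∀ f ∈ d.k.F, f ≤ d.m → |Λ f - T f| ≤ ε * bs c d + d.m * r := by
  have r0 := (abs_nonneg _).trans h1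
  obtain key := h.free_ind (Q := fun f => |Λ f - T f| ≤
    ε * ∑ x ∈ d.D'.filter (· < f), |d.β c x| + f * r) (by simpa [h.fil1] using h1) (by
    intro a ha am ih
    obtain n : (a : ℝ) + 1 ≤ d.k.nx a := by exact_mod_cast (h.nx_le am).2.1
    have n' := mul_le_mul_of_nonneg_right n r0
    rw [hT a ha am, h.sum_split am]
    split_ifs with hx
    · have := hD a hx
      rw [abs_le] at this ih ⊢
      constructor <;> linarith only [n', this.1, this.2, ih.1, ih.2]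
    · have := hN a ha am hx
      rw [abs_le] at this ih ⊢
      constructor <;> linarith only [n', this.1, this.2, ih.1, ih.2])
  intro f hf fm
  have s1 := mul_le_mul_of_nonneg_left (bs_fil (c := c) (d := d) f) hε
  obtain s2 := mul_le_mul_of_nonneg_right (show (f : ℝ) ≤ d.m by exact_mod_cast fm) r0
  linarith only [s1, s2, key f hf fm]

theorem ord1 {f : ℤ} (hf : f ∈ d.k.F) (fm : f ≤ d.m) :
    |d.La 1 f - d.δ * ∑ x ∈ d.D'.filter (· < f), d.β c x| ≤
      10 ^ 10 * (c.CG * c.ep * (|d.δ| * bs c d)) + d.S K ^ 14 * (d.ϖ * d.Ym K 1) := by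
  have u := h.u0 (a := 1) le_rfl
  obtain hC : 0 ≤ c.CG := by linarith only [h.CG]
  have hp := ep0 (c := c)
  obtain this := h.tele (Λ := d.La 1) (T := fun f => d.δ * ∑ x ∈ d.D'.filter (· < f), d.β c x)
    (I := fun x => d.δ * d.β c x) (ε := 10 ^ 10 * (c.CG * c.ep * |d.δ|))
    (r := d.S K ^ 13 * (d.ϖ * d.Ym K 1)) (by simpa [h.fil1] using h.ini le_rfl (by norm_num) 13)
    (by (clear * - hC hp; positivity)) (fun a _ am => by rw [h.sum_split am]; split_ifs <;> ring)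
    (fun x hx => by linarith only [h.inc1 hx])
    (fun a ha am hD => by linarith only [(h.low' ha am hD).1, h.up 5 13 u (by norm_num), h.sp 13 u]) f hf fm
  linarith only [this, h.upm 13 14 u (by norm_num), h.sp 14 u]

theorem A0 : 0 ≤ A1 K c d := by
  have := h.sp 15 (h.u0 (a := 1) le_rfl)
  have := bs0 (c := c) (d := d)
  have := h.CG
  unfold A1; (rename_i zq1 zq0; clear * - this zq0 zq1; positivity)

theorem z1 {l : ℤ} (l1 : 1 ≤ l) (lm : l ≤ d.m) : |d.z 1 l| ≤ A1 K c d * d.k.w l := by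
  have u := h.u0 (a := 1) le_rfl
  obtain hC : 0 ≤ c.CG := by linarith only [h.CG]
  have hp := ep0 (c := c)
  have hb := bs0 (c := c) (d := d)
  obtain hX : 0 ≤ c.CG * (|d.δ| * bs c d) := by (clear * - hC hb; positivity)
  rcases l1.eq_or_lt with rfl | hl
  · obtain this := h.ini (a := 1) le_rfl (by norm_num) 15
    rw [La, Sq.fr_self, div_one] at this
    rw [h.k1.w1, A1]; linarith only [hX, this]
  obtain ⟨a, ha, al, la⟩ := h.step_of hl lm
  obtain am : a < d.m := by omega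
  have hw := h.w0 l1
  obtain s1 : |d.La 1 a| ≤ 2 * (c.CG * (|d.δ| * bs c d)) + d.S K ^ 14 * (d.ϖ * d.Ym K 1) := by
    have o := h.ord1 ha am.le
    obtain o1 : |d.δ * ∑ x ∈ d.D'.filter (· < a), d.β c x| ≤ |d.δ| * bs c d := by
      rw [abs_mul]
      exact mul_le_mul_of_nonneg_left ((abs_sum_le_sum_abs _ _).trans (bs_fil a)) (abs_nonneg _)
    have o2 := mul_le_mul_of_nonneg_right h.ep2 hX
    obtain o3 := mul_le_mul_of_nonneg_right h.CG (show 0 ≤ |d.δ| * bs c d by (clear * - hb; positivity))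
    rw [abs_le] at o o1 ⊢
    constructor <;> linarith only [hX, o2, o3, o.1, o.2, o1.1, o1.2]
  obtain s2 : |d.z 1 l - d.O.fr 1 l * d.La 1 a| ≤
      d.k.w l * (4 * 10 ^ 7 * (c.CG * (|d.δ| * bs c d)) + d.S K ^ 13 * (d.ϖ * d.Ym K 1)) := by
    by_cases hD : a ∈ d.D'
    · refine (h.step' (by norm_num) ha am al la (h.src1 hD).2 (h.src1 hD).1).trans
        (mul_le_mul_of_nonneg_left ?_ hw.le)
      obtain o1 := mul_le_mul_of_nonneg_left (bs_one (c := c) hD)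
        (show 0 ≤ c.CG * |d.δ| by (clear * - hC; positivity))
      obtain o2 := mul_le_mul_of_nonneg_right h.ep2
        (show 0 ≤ c.CG * (|d.δ| * |d.β c a|) by (clear * - hC; positivity))
      linarith only [hX, o1, o2, h.up 12 13 u (by norm_num), h.up 0 13 u (by norm_num), h.ϖu (a := 1) le_rfl,
        h.sp 13 u]
    · refine (h.low ha am hD al la).1.trans (mul_le_mul_of_nonneg_left ?_ hw.le)
      linarith only [hX, h.up 5 13 u (by norm_num), h.sp 13 u]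
  obtain s3 := (abs_mul _ _).trans_le (mul_le_mul (h.xi_hi l1 lm) s1 (abs_nonneg _) (by positivity))
  obtain s4 := mul_le_mul_of_nonneg_left (h.up 14 15 u (by norm_num)) hw.le
  obtain s5 := mul_le_mul_of_nonneg_left (h.up 13 15 u (by norm_num)) hw.le
  have s6 := mul_nonneg hw.le hX
  have s7 := mul_nonneg hw.le (h.sp 15 u)
  rw [A1]
  rw [abs_le] at s2 s3 ⊢
  constructor <;> linarith only [s4, s5, s7, s2.1, s2.2, s3.1, s3.2]

theorem Z1 {l : ℤ} (l1 : 1 ≤ l) (lm : l ≤ d.m) : d.Z 1 l ≤ A1 K c d * d.k.w l := by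
  refine max_le (h.z1 l1 lm) ?_
  rcases l1.eq_or_lt with rfl | hl
  · obtain s1 : exp (-d.k.ch 1 / 2) ≤ 1 := exp_le_one_iff.2 (by linarith only [(h.k1.ch_mem 1).1])
    have s2 := mul_le_of_le_one_left (abs_nonneg (d.z 1 (1 - 1))) s1
    obtain s3 := (h.Z.ini 1 (by norm_num)).1
    have u := h.u0 (a := 1) le_rfl
    obtain hX : 0 ≤ c.CG * (|d.δ| * bs c d) := by
      have := h.CG; have := bs0 (c := c) (d := d); positivity
    rw [h.k1.w1, A1]
    norm_num at s2 ⊢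
    linarith only [s3, hX, s2, h.ϖu (a := 1) le_rfl, h.up 0 15 u (by norm_num), h.sp 15 u]
  · obtain s1 := mul_le_mul_of_nonneg_left (h.z1 (l := l - 1) (by omega) (by omega))
      (exp_pos (-d.k.ch l / 2)).le
    have s2 := mul_le_mul_of_nonneg_left (h.k1.w_step l l1) h.A0
    linarith only [s1, s2]

theorem bs_le : bs c d ≤ d.m * (d.S K * d.be) := by
  have h1 := sum_le_card_nsmul d.D' (fun x => |d.β c x|) _ fun x hx => (h.B.one x hx).1
  have h2 : d.D'.card ≤ (Ico 1 d.m).card :=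
    card_le_card fun x hx => mem_Ico.2 ⟨(h.D'_F hx).2.2.2, (h.D'_F hx).2.2.1⟩
  obtain h3 : (d.D'.card : ℝ) ≤ d.m := by
    have h4 := h.N.m1
    obtain h5 : (d.D'.card : ℤ) ≤ d.m := by rw [Int.card_Ico] at h2; omega
    exact_mod_cast h5
  rw [nsmul_eq_mul] at h1
  exact h1.trans (mul_le_mul_of_nonneg_right h3 (mul_nonneg h.S0.le be0))

theorem AYm : A1 K c d * d.Ym K 1 ≤ d.S K ^ 17 * (d.ϖ * d.Ym K 2) := by
  have hS := h.S0
  have hϖ := h.N.ϖ0
  obtain hC : 0 ≤ c.CG := by linarith only [h.CG]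
  have y1 := h.Ym0 (a := 1) le_rfl
  have u := h.u0 (a := 2) one_le_two
  obtain s1 := mul_le_mul h.Z.dl h.bs_le bs0 (by positivity)
  obtain s2 := mul_le_mul_of_nonneg_left s1 (show 0 ≤ c.CG * d.Ym K 1 by positivity)
  obtain s3 := mul_le_mul_of_nonneg_left h.beYm
    (show 0 ≤ c.CG * d.m * d.S K * d.ϖ by have := h.m1; positivity)
  obtain s4 := mul_le_mul_of_nonneg_left h.L1
    (show 0 ≤ c.CG * d.m * (d.S K * (d.ϖ * d.Ym K 2)) by have := h.m1; positivity)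
  obtain s5 := mul_le_mul_of_nonneg_left ((mul_le_mul_of_nonneg_right (h.N.Ym 1 le_rfl).2.1 y1).trans
    h.N.YY.2.2) (show 0 ≤ d.S K ^ 15 * d.ϖ by positivity)
  rw [A1]
  linarith only [s2, s3, s4, s5, h.upMm 1 17 u (by norm_num), h.up 16 17 u (by norm_num), h.sp 17 u]

theorem uβ {x : ℤ} (hx : x ∈ d.D') :
    d.ϖ * d.Ym K 1 * |d.β c x| ≤ d.S K * (d.ϖ * d.Ym K 2) := by
  have s1 := mul_le_mul_of_nonneg_left (h.B.one x hx).1 (h.u0 (a := 1) le_rfl)
  have s2 := mul_le_mul_of_nonneg_left h.beYm (mul_nonneg h.S0.le h.N.ϖ0)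
  linarith only [s1, s2]

end Cx
end D5

end
end Pool.Agent.MP_9cbfe4_an

end

/-! ### Part J5C -/

section

/-! Assembly of J5, part three: order two and the conclusion. -/

namespace Pool.Agent.MP_9cbfe4_an

open Finset Filter Topology Real

noncomputable section

namespace D5
variable {K : ℕ} {c : Cs} {d : D5}

namespace Cx
variable (h : Cx K c d)
include h

theorem ewP {x : ℤ} (hx : x ∈ d.D') : d.k.ew x x * d.k.w x * d.P 1 x ≤
    256 * (|d.p 1 x| / d.k.η x) + 4 * (d.S K ^ 10 * d.Ym K 1) := by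
  obtain ⟨xD, xF, xm, x1⟩ := h.D'_F hx
  have hη := (h.k1.η_mem x xD).1
  have hw := h.w0 x1
  obtain e : d.k.ew x x * d.k.w x = 4 / d.k.η x := by
    rw [h.E.maj x xD, Sk.V]; field_simp
  obtain this := mul_le_mul_of_nonneg_left (h.L x hx 1 le_rfl one_le_two).2
    (show 0 ≤ 4 / d.k.η x by (clear * - hη; positivity))
  rw [e]
  refine this.trans (le_of_eq ?_)
  field_simp; ring

theorem Aβ {x : ℤ} (hx : x ∈ d.D') : A1 K c d * |d.β c x| ≤
    5 * 10 ^ 7 * (c.CG * (|d.δ| * (bs c d * |d.β c x|))) + d.S K ^ 16 * (d.ϖ * d.Ym K 2) := by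
  have := mul_le_mul_of_nonneg_left (h.uβ hx) (pow_nonneg h.S0.le 15)
  rw [A1]; linarith only [this]

theorem Dγ {x : ℤ} (hx : x ∈ d.D') : |d.δ| * (c.L * (|d.p 2 x| / d.k.η x)) ≤
    2048 * (|d.δ| * (bs c d * |d.β c x|)) + 2048 * (d.S K ^ 30 * (d.ϖ * d.Ym K 2)) ∧
    |d.δ * (d.Lt c x * d.p 2 x / d.ρ x) + d.δ * d.β c x ^ 2| ≤
      4 * (c.ep * (|d.δ| * (bs c d * |d.β c x|))) + 2 * (d.S K ^ 30 * (d.ϖ * d.Ym K 2)) := by
  have t := h.B.two x hx
  have hp := ep0 (c := c)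
  obtain b2 : d.β c x ^ 2 ≤ bs c d * |d.β c x| := by
    rw [← sq_abs, sq]; exact mul_le_mul_of_nonneg_right (bs_one hx) (abs_nonneg _)
  obtain s1 := mul_le_mul_of_nonneg_left b2 (show 0 ≤ c.ep * |d.δ| by (clear * - hp; positivity))
  have s2 := mul_le_mul_of_nonneg_right h.Z.dl (h.sp 30 (h.Ym0 (a := 2) one_le_two))
  have s3 := mul_le_mul_of_nonneg_left t (abs_nonneg d.δ)
  constructor
  · obtain s4 : |d.Lt c x * d.p 2 x / d.ρ x| ≤
        |d.Lt c x * d.p 2 x / d.ρ x + d.β c x ^ 2| + d.β c x ^ 2 := by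
      have := abs_sub (d.Lt c x * d.p 2 x / d.ρ x + d.β c x ^ 2) (d.β c x ^ 2)
      rwa [add_sub_cancel_right, abs_of_nonneg (sq_nonneg (d.β c x))] at this
    obtain s5 := mul_le_mul_of_nonneg_left ((h.B.one x hx).2.2.1.trans
      (mul_le_mul_of_nonneg_left s4 (by norm_num))) (abs_nonneg d.δ)
    have s6 := mul_le_mul_of_nonneg_left b2 (abs_nonneg d.δ)
    obtain s8 : 0 ≤ |d.δ| * (bs c d * |d.β c x|) := by have := bs0 (c := c) (d := d); (clear * - this; positivity)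
    have s7 := mul_le_mul_of_nonneg_right h.ep2 s8
    linarith only [s1, s2, s3, s5, s6, s8, s7]
  · rw [← mul_add, abs_mul]; linarith only [s1, s2, s3]

theorem src2 {x : ℤ} (hx : x ∈ d.D') :
    ∑ i ∈ (Ico 1 (d.k.nx x)).erase x, d.k.ew x i * |d.F 2 i| ≤
      2 * 10 ^ 11 * (c.CG ^ 2 * c.ep * (|d.δ| * (bs c d * |d.β c x|))) +
        d.S K ^ 31 * (d.ϖ * d.Ym K 2) := by
  obtain ⟨xD, xF, xm, x1⟩ := h.D'_F hx
  obtain ⟨-, n2, n3⟩ := h.nx_le xm
  obtain hM : 0 ≤ c.CG * c.L := by linarith only [h.M1]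
  obtain hC : 0 ≤ c.CG := by linarith only [h.CG]
  have u := h.u0 (a := 2) one_le_two
  have hp := ep0 (c := c)
  have hA := h.A0
  have hS := h.S0
  obtain key : ∀ i, 1 ≤ i → i < d.k.nx x → d.k.ew x i * |d.F 2 i| ≤
      c.CG * c.L * (d.k.ew x i * (d.Z 0 i * d.P 2 i)) +
      (2 * (c.CG * c.L) * A1 K c d * (d.k.ew x i * d.k.w i * d.P 1 i) +
      c.CG * c.L * (d.S K ^ 6 * (d.ϖ * d.Ym K 2))) := by
    intro i i1 i2
    obtain ⟨e0, -, e2, e3, -⟩ := h.E.ew x xF xm i i1 i2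
    obtain s1 := mul_le_mul_of_nonneg_left (h.R.f2 i i1 (by omega)) e0
    obtain s2 := mul_le_mul_of_nonneg_left (h.C.er i _ i1 (by omega) e0 e2 e3).2 hM
    obtain s3 := mul_le_mul_of_nonneg_left (h.Z1 i1 (by omega))
      (mul_nonneg hM (mul_nonneg e0 (P0 (d := d) 1 i).1))
    linarith only [s1, s2, s3]
  refine (sum_le_sum fun i hi => key i (mem_Ico.1 (mem_of_mem_erase hi)).1
    (mem_Ico.1 (mem_of_mem_erase hi)).2).trans ?_
  rw [sum_add_distrib, sum_add_distrib, ← mul_sum, ← mul_sum]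
  obtain s1 := h.sum_le (a := x) n3 (f := fun _ => c.CG * c.L * (d.S K ^ 6 * (d.ϖ * d.Ym K 2)))
    (by (clear * - hM hS u; positivity)) fun _ _ _ => le_rfl
  have s2 := mul_le_mul_of_nonneg_left (h.zp hx (a := 2) one_le_two le_rfl).1 hM
  obtain s3 := mul_le_mul_of_nonneg_left (h.Dγ hx).1 (show 0 ≤ c.CG * c.ep by (clear * - hC hp; positivity))
  obtain s4 : exp (-(9 / 10) * c.bl) ≤ c.ep := exp_le_exp.2 (by linarith only [h.bl0])
  obtain s5 := mul_le_mul_of_nonneg_left ((h.L x hx 1 le_rfl one_le_two).1.trans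
    (add_le_add (mul_le_mul_of_nonneg_right s4 (h.q_le hx 1).1) le_rfl))
    (show 0 ≤ 2 * (c.CG * c.L) * A1 K c d by (clear * - hM hA; positivity))
  obtain s6 := mul_le_mul_of_nonneg_left (h.B.one x hx).2.1
    (show 0 ≤ c.CG * c.ep * A1 K c d by (clear * - hC hp hA; positivity))
  obtain s7 := mul_le_mul_of_nonneg_left (h.Aβ hx) (show 0 ≤ c.CG * c.ep by (clear * - hC hp; positivity))
  obtain s8 := mul_le_mul_of_nonneg_left h.AYm (show 0 ≤ c.CG * c.L * d.S K ^ 10 by (clear * - hM hS; positivity))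
  have s9 := mul_le_mul_of_nonneg_right h.ep1 (h.sp 30 u)
  have s10 := mul_le_mul_of_nonneg_right h.ep1 (h.sp 16 u)
  obtain s12 : 0 ≤ c.CG * c.ep * (|d.δ| * (bs c d * |d.β c x|)) := by
    have := bs0 (c := c) (d := d); (clear * - hC hp this; positivity)
  have s11 := mul_le_mul_of_nonneg_left h.CG s12
  linarith only [s1, s2, s3, s5, s6, s7, s8, s9, s10, s12, s11, h.upM 11 31 u (by norm_num), h.upMm 6 31 u (by norm_num), h.upM 27 31 u (by norm_num),
    h.up 30 31 u (by norm_num), h.up 16 31 u (by norm_num), h.sp 31 u, h.sp 30 u, h.sp 16 u]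

theorem inc2 {x : ℤ} (hx : x ∈ d.D') : |d.La 2 (d.k.nx x) - d.La 2 x -
      d.δ * (2 * d.β c x * ∑ y ∈ d.D'.filter (· < x), d.β c y - d.β c x ^ 2)| ≤
    10 ^ 18 * (c.CG ^ 2 * c.ep * (|d.δ| * (bs c d * |d.β c x|))) +
      d.S K ^ 32 * (d.ϖ * d.Ym K 2) := by
  obtain ⟨xD, xF, xm, x1⟩ := h.D'_F hx
  obtain ⟨-, n2, n3⟩ := h.nx_le xm
  obtain ⟨m1, m2, -, m4⟩ := h.maj hx
  obtain hM : 0 ≤ c.CG * c.L := by linarith only [h.M1]
  obtain hC : 0 ≤ c.CG := by linarith only [h.CG]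
  have u := h.u0 (a := 2) one_le_two
  have hp := ep0 (c := c)
  have hS := h.S0
  have hA := h.A0
  have hb := bs0 (c := c) (d := d)
  obtain X0 : 0 ≤ c.ep * (|d.δ| * (bs c d * |d.β c x|)) := by (clear * - hp hb; positivity)
  have X1 := mul_le_mul_of_nonneg_right h.CG X0
  have X2 := mul_le_mul_of_nonneg_right h.CG (mul_nonneg hC X0)
  obtain ⟨e0, -, e2, e3, -⟩ := h.E.ew x xF xm x x1 n2
  obtain s1 := h.inc hx (by norm_num) (h.src2 hx) (by (clear * - hp hb hS u; positivity))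
  obtain s2 : |d.F 2 x / (d.ρ x * d.O.fr 1 x) - d.Lt c x * (d.z 0 x * d.p 2 x) / (d.ρ x * d.O.fr 1 x)
      - 2 * d.β c x * d.La 1 x| ≤ 2 * 10 ^ 17 * (c.CG * (c.ep * (|d.δ| * (bs c d * |d.β c x|)))) +
      d.S K ^ 31 * (d.ϖ * d.Ym K 2) := by
    obtain e : d.F 2 x / (d.ρ x * d.O.fr 1 x) - d.Lt c x * (d.z 0 x * d.p 2 x) / (d.ρ x * d.O.fr 1 x)
        - 2 * d.β c x * d.La 1 x = (d.F 2 x - d.Lt c x * (d.z 0 x * d.p 2 x +
          2 * (d.z 1 x * d.p 1 x))) / (d.ρ x * d.O.fr 1 x) := by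
      rw [show d.β c x = d.Lt c x * d.p 1 x / d.ρ x from rfl, La]; field_simp; ring
    have t0 := m4 _ _ (h.R.g2 x xD xm)
    have p1 := (P0 (d := d) 1 x).1
    have t1 := mul_le_mul_of_nonneg_left (h.C.er x _ x1 xm e0 e2 e3).2 hM
    have t2 := mul_le_mul_of_nonneg_right h.bl2 (mul_nonneg e0 (add_nonneg
      (mul_nonneg (Z0' (d := d) 0 x).1 (P0 (d := d) 2 x).1)
      (mul_nonneg zero_le_two (mul_nonneg (Z0' (d := d) 1 x).1 p1))))
    have t3 := mul_le_mul_of_nonneg_left (h.zp hx (a := 2) one_le_two le_rfl).2 hp.le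
    obtain t4 := mul_le_mul_of_nonneg_left (h.q_le hx 2).2 (show 0 ≤ c.ep * |d.δ| by (clear * - hp; positivity))
    have t5 := mul_le_mul_of_nonneg_left (h.Dγ hx).1 hp.le
    have t6 := mul_le_mul_of_nonneg_left (h.Z1 x1 xm.le) (mul_nonneg hp.le (mul_nonneg e0 p1))
    have t7 := mul_le_mul_of_nonneg_left (h.ewP hx) (mul_nonneg hp.le hA)
    have t8 := mul_le_mul_of_nonneg_left ((h.q_le hx 1).2.trans (h.B.one x hx).2.1)
      (mul_nonneg hp.le hA)
    have t9 := mul_le_mul_of_nonneg_left (h.Aβ hx) hp.le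
    obtain t10 := mul_le_mul_of_nonneg_left h.AYm (show 0 ≤ c.ep * d.S K ^ 10 by (clear * - hp hS; positivity))
    have v1 := mul_le_mul_of_nonneg_right h.ep2 (h.sp 30 u)
    have v2 := mul_le_mul_of_nonneg_right h.ep2 (h.sp 27 u)
    have v3 := mul_le_mul_of_nonneg_right h.ep2 (h.sp 16 u)
    have v4 := mul_le_mul_of_nonneg_right h.ep2 (h.sp 11 u)
    rw [e]
    linarith only [X0, X1, t0, t1, t2, t3, t4, t5, t6, t7, t8, t9, t10, v1, v2, v3, v4, h.upM 6 31 u (by norm_num), h.up 30 31 u (by norm_num), h.up 27 31 u (by norm_num),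
      h.up 16 31 u (by norm_num), h.up 11 31 u (by norm_num), h.sp 31 u, h.sp 30 u, h.sp 27 u,
      h.sp 16 u, h.sp 11 u]
  have s3 := h.dz hx (a := 2) one_le_two le_rfl
  have s4 := (h.Dγ hx).2
  obtain s5 : |2 * d.β c x * d.La 1 x - 2 * d.β c x * (d.δ * ∑ y ∈ d.D'.filter (· < x), d.β c y)| ≤
      2 * 10 ^ 10 * (c.CG * (c.ep * (|d.δ| * (bs c d * |d.β c x|)))) +
      2 * (d.S K ^ 15 * (d.ϖ * d.Ym K 2)) := by
    rw [← mul_sub, abs_mul, abs_mul, abs_two]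
    have t1 := mul_le_mul_of_nonneg_left (h.ord1 xF xm.le) (abs_nonneg (d.β c x))
    have t2 := mul_le_mul_of_nonneg_left (h.uβ hx) (pow_nonneg hS.le 14)
    linarith only [t1, t2]
  obtain t1 := h.up 31 32 u (by norm_num)
  obtain t2 := h.up 30 32 u (by norm_num)
  obtain t3 := h.up 15 32 u (by norm_num)
  obtain t4 := h.up 4 32 u (by norm_num)
  obtain t5 := h.up 0 32 u (by norm_num)
  have t6 := h.ϖu (a := 2) one_le_two
  have t7 := h.sp 32 u
  rw [abs_le] at s1 s2 s3 s4 s5 ⊢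
  constructor <;> linarith only [u, X1, X2, t1, t2, t3, t4, t5, t6, s1.1, s1.2, s2.1, s2.2, s3.1, s3.2, s4.1, s4.2, s5.1, s5.2]

theorem ord2 : |d.La 2 d.m - d.δ * ((∑ x ∈ d.D', d.β c x) ^ 2 - 2 * ∑ x ∈ d.D', d.β c x ^ 2)| ≤
    10 ^ 18 * (c.CG ^ 2 * c.ep * (|d.δ| * bs c d ^ 2)) + d.S K ^ 33 * (d.ϖ * d.Ym K 2) := by
  have u := h.u0 (a := 2) one_le_two
  have hp := ep0 (c := c)
  have hb := bs0 (c := c) (d := d)
  obtain this := h.tele (Λ := d.La 2) (T := fun f => d.δ * ((∑ x ∈ d.D'.filter (· < f), d.β c x) ^ 2 -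
      2 * ∑ x ∈ d.D'.filter (· < f), d.β c x ^ 2))
    (I := fun x => d.δ * (2 * d.β c x * ∑ y ∈ d.D'.filter (· < x), d.β c y - d.β c x ^ 2))
    (ε := 10 ^ 18 * (c.CG ^ 2 * c.ep * (|d.δ| * bs c d)))
    (r := d.S K ^ 32 * (d.ϖ * d.Ym K 2)) (by simpa [h.fil1] using h.ini one_le_two (by norm_num) 32)
    (by (clear * - hp hb; positivity))
    (fun a _ am => by rw [h.sum_split am, h.sum_split am]; split_ifs <;> ring)
    (fun x hx => by linarith only [h.inc2 hx])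
    (fun a ha am hD => by linarith only [(h.low' ha am hD).2, h.up 11 32 u (by norm_num), h.sp 32 u])
    d.m h.oc.hn le_rfl
  rw [h.film] at this
  linarith only [this, h.upm 32 33 u (by norm_num), h.sp 33 u]

theorem fin {j : ℕ} (hj : j ≤ 500) (a : ℕ) :
    d.S K ^ j * (d.ϖ * (d.wb * d.U a)) ≤ exp (-d.G * d.ls) * d.U a ∧
    d.S K ^ j * (d.ϖ * d.Ym K a) ≤ exp (-d.G * d.ls) * (d.ϖ * d.be ^ a + d.U a) := by
  obtain h1 : 1 ≤ d.S K := by linarith only [h.N.S1]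
  have h2 : d.S K ^ j ≤ d.S K ^ 500 := pow_le_pow_right₀ h1 hj
  have h3 : 1 ≤ d.S K ^ 500 := one_le_pow₀ h1
  have hU := h.N.U0 a
  have hϖ := h.N.ϖ0
  have hθ := h.N.θ0
  have hb := be0 (d := d)
  have hw : 0 ≤ d.wb := (exp_pos _).le
  have κ := h.N.κ
  rw [← h.N.θS.1, Ym]
  generalize d.S K ^ 500 = s at *
  generalize d.S K ^ j = s' at *
  obtain s1 := mul_le_mul_of_nonneg_right h2 (show 0 ≤ d.ϖ * (d.wb * d.U a) by positivity)
  have s2 := mul_le_mul_of_nonneg_right κ hU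
  obtain s3 := mul_le_mul_of_nonneg_right h3 (show 0 ≤ d.θ K * d.U a by positivity)
  obtain s4 := mul_le_mul_of_nonneg_right h2 (show 0 ≤ d.ϖ * (d.θ K * d.be ^ a) by (clear * - hϖ hθ hb; positivity))
  constructor <;> linarith only [s1, s2, s3, s4]

theorem bsq : bs c d ^ 2 ≤ exp (c.bl / 10) * ∑ x ∈ d.D', d.β c x ^ 2 := by
  have h1 := sq_sum_le_card_mul_sum_sq (s := d.D') (f := fun x => |d.β c x|)
  simp only [sq_abs] at h1
  exact h1.trans (mul_le_mul_of_nonneg_right h.H.2.2.card (sum_nonneg fun _ _ => sq_nonneg _))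

theorem out1 : |d.La 1 d.m - d.δ * ∑ x ∈ d.D', d.β c x| ≤
    |d.δ| * sqrt (∑ x ∈ d.D', d.β c x ^ 2) / 100 + exp (-d.G * d.ls) * (d.ϖ * d.be + d.T 1) := by
  have s1 := h.ord1 h.oc.hn le_rfl
  rw [h.film] at s1
  obtain s2 := (h.fin (j := 14) (by norm_num) 1).2
  have hq : 0 ≤ ∑ x ∈ d.D', d.β c x ^ 2 := sum_nonneg fun _ _ => sq_nonneg _
  have hp := ep0 (c := c)
  obtain s3 : 10 ^ 12 * (c.CG * c.ep * bs c d) ≤ sqrt (∑ x ∈ d.D', d.β c x ^ 2) := by
    refine le_sqrt_of_sq_le ?_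
    obtain t1 := mul_le_mul_of_nonneg_left h.bsq (show 0 ≤ c.CG ^ 2 * c.ep ^ 2 by (clear * - hp; positivity))
    have t2 := mul_le_mul_of_nonneg_right h.cst (mul_nonneg hp.le hq)
    have t3 := mul_le_mul_of_nonneg_right h.ep2 hq
    have t4 := mul_nonneg hp.le hq
    linarith only [hq, t1, t2, t3]
  have s4 := mul_le_mul_of_nonneg_left s3 (abs_nonneg d.δ)
  simp only [U, pow_one] at s2
  linarith only [s1, s4, s2]

theorem out2 : |d.La 2 d.m - d.δ * ((∑ x ∈ d.D', d.β c x) ^ 2 - 2 * ∑ x ∈ d.D', d.β c x ^ 2)| ≤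
    |d.δ| * (∑ x ∈ d.D', d.β c x ^ 2) / 100 +
      exp (-d.G * d.ls) * (d.ϖ * d.be ^ 2 + d.T 2 + d.be * d.T 1) := by
  obtain s2 := (h.fin (j := 33) (by norm_num) 2).2
  have hq : 0 ≤ |d.δ| * ∑ x ∈ d.D', d.β c x ^ 2 :=
    mul_nonneg (abs_nonneg _) (sum_nonneg fun _ _ => sq_nonneg _)
  have hp := ep0 (c := c)
  obtain t1 := mul_le_mul_of_nonneg_left h.bsq (show 0 ≤ c.CG ^ 2 * c.ep * |d.δ| by (clear * - hp; positivity))
  have t2 := mul_le_mul_of_nonneg_right h.cst hq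
  simp only [U] at s2
  linarith only [hq, t1, t2, s2, h.ord2]

theorem out3 : |d.La 3 d.m| ≤ exp (gm5 K d.γ / 2 * d.ls) * d.ϖ * d.be ^ 3 +
    exp (-d.G * d.ls) * (d.T 3 + d.be * d.T 2 + d.be ^ 2 * d.T 1) := by
  have hϖ := h.N.ϖ0
  have hb := be0 (d := d)
  obtain hY : 0 ≤ d.ϖ * d.Y 3 := mul_nonneg hϖ (by
    linarith only [h.N.Ym 3 (by norm_num)])
  obtain s1 := h.div_xi h.oc.hn le_rfl (y := d.z 3 d.m) (h.sp 20 hY)
    (by linarith only [(Z0' (d := d) 3 d.m).2, h.C.z3 d.m h.N.m1.le le_rfl])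
  obtain s2 := h.up 20 21 hY (by norm_num)
  obtain s3 := (h.fin (j := 21) (by norm_num) 3).1
  obtain e : exp (gm5 K d.γ / 2 * d.ls) = d.S K ^ 500 := by
    rw [S, ← exp_nat_mul]; congr 1; push_cast; ring
  obtain s4 := mul_le_mul_of_nonneg_right (pow_le_pow_right₀ (a := d.S K) (by linarith only [h.N.S1])
    (show 21 ≤ 500 by norm_num)) (show 0 ≤ d.ϖ * d.be ^ 3 by (clear * - hϖ hb; positivity))
  have s5 := h.sp 20 hY
  rw [e, La]
  generalize d.S K ^ 500 = s at *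
  simp only [Y, U] at *
  linarith only [s4, s1, s2, s3, s5]

end Cx
end D5

theorem hier_cst5 : Hier fun c =>
    1 ≤ c.CG ∧ 1 ≤ c.L ∧ 10 ^ 40 * c.CG ^ 2 * c.ep * exp (c.bl / 10) ≤ 1 := by
  refine (Hier.base.and ((Hier.L_ge (fun _ => 1) fun _ _ => rfl).and
    ((Hier.β_ge (fun _ => 5) fun _ _ _ => rfl).and
    (Hier.lam_ge (fun c => 10 ^ 40 * c.CG ^ 2) fun _ _ => rfl)))).mono fun c ⟨h1, h2, h3, h4⟩ => ?_
  refine ⟨h1.2.2.2.2.2, h2, ?_⟩
  obtain h5 : 0 ≤ c.lam := le_trans (by (clear * -; positivity)) h4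
  obtain h6 : c.ep * exp (c.bl / 10) * exp c.lam ≤ 1 := by
    rw [Cs.ep, ← exp_add, ← exp_add, exp_le_one_iff, Cs.bl]; (rename_i zq0; nlinarith only [zq0])
  obtain h7 := mul_le_mul_of_nonneg_left (h4.trans (by (rename_i zq0; linarith only [zq0, add_one_le_exp c.lam]) : _ ≤ exp c.lam))
    (show 0 ≤ c.ep * exp (c.bl / 10) by have := D5.Cx.ep0 (c := c); positivity)
  linarith only [h6, h7]

theorem j5_of (K : ℕ) : Hier fun c => FW5_s K c → NUM5_s K c → PN5_s K c → EL5_s K c →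
    Z05_s K c → SRC5_s K c → CRU5_s K c → LOC5_s K c → BET5_s K c → J5_s K c :=
  hier_cst5.mono fun c ⟨c1, c2, c3⟩ fw nu pn el z0 sr cr lo be hK hB M σ σ' t g k m B st γ G ls ϖ T
      H δ e1 q2 b hδ he hq hb => by
    let d : D5 := ⟨M, σ, σ', t, g, k, m, B, st, γ, G, ls, ϖ, T⟩
    have hH : d.H K c := ⟨hK, hB, H⟩
    have N := nu d hH
    have P := pn d hH N
    have E := el d hH N
    have Z := z0 d hH N
    have R := sr d hH Z
    have h : D5.Cx K c d :=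
      ⟨hH, N, P, E, Z, R, cr d hH N P E Z R, lo d hH N P E, be d hH N, fw, c1, c2, c3⟩
    subst hδ he hq hb
    exact ⟨h.B.lo, h.B.hi, h.out1, h.out2, h.out3⟩

end
end Pool.Agent.MP_9cbfe4_an

end
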