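import Pool.Agent.MP_9cbfe4_an.M07
import Pool.Agent.MP_9cbfe4_an.M10
import Pool.Agent.MP_9cbfe4_an.M14

set_option linter.all false

attribute [-instance] AddQuantale.instAddLeftMono IdemSemiring.toCanonicallyOrderedAdd
  NumberField.to_charZero AddQuantale.instAddRightMono IdemSemiring.toMulLeftMono RKHS.instFunLike
  Quantale.instMulRightMono Quantale.instMulLeftMono IsOrderedCancelMonoid.toIsOrderedMonoid
  LinearOrderedCommMonoidWithZero.toPosMulStrictMono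
  Group.IsPerfect.subsingleton_of_isMulCommutative CanonicallyOrderedAdd.toMulLeftMono
  Valued.toUniformSpace IdemSemiring.toMulRightMono TotallySeparatedSpace.t2Space
  LinearOrderedCommMonoidWithZero.toIsOrderedMonoid IsScalarTower.complexToReal
  Order.Coframe.toCompleteLattice OmegaCompletePartialOrder.toPartialOrder Invertible.toNeZero
  GrpTypeEquivalenceGrp.grpGroup littleWedderburn CanonicallyOrderedMul.toMulLeftMono
  CoalgHomClass.toSemilinearMapClass TestFunctionClass.toDFunLike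
  ContDiffMapSupportedInClass.toDFunLike Order.Frame.toCompleteLattice RightPreLieAlgebra.toModule
  CategoryTheory.Limits.Concrete.instUniqueToTypeTerminal LeftPreLieAlgebra.toModule
  CStarAlgebra.instOrderClosedTopology IdemSemiring.toSemiring
  LieAdmissibleRing.toNonUnitalNonAssocRing NonUnitalAlgSemiHomClass.toDistribMulActionSemiHomClass
  CStarAlgebra.toNormedRing

/-! ### Part EPH -/

section

/-! Row EPH: shadowing in the parameter at high level. -/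

namespace Pool.Agent.MP_9cbfe4_an
namespace EPH
open Finset

structure Big (c : Cs) : Prop where
  b : T1.Big c
  C0 : 5 ≤ c.C0
  M1 : 1 / c.a ≤ c.M1
  β : 1 / c.a ≤ c.β
  lam : 10 ^ 9 * c.CG ≤ c.lam
  ε : c.ε ≤ 1

variable {c : Cs}

end EPH

end Pool.Agent.MP_9cbfe4_an

end

/-! ### Part SI5 -/

section

/-! Section S, part 5: the slope of the seed orbit. -/

namespace Pool.Agent.MP_9cbfe4_an.SS

def RNU_s (K E e : ℕ) (c : Cs) : Prop := ∀ M : Mdl, M.OKk c (K + 6) → ∀ Ex y φ w F,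
  Good K E e c Ex M y φ w F →
  ((seed c Ex M y φ F).orb M φ.t).nu1 ((seed c Ex M y φ F).J - φ.n) = F.η 1 φ.t

end Pool.Agent.MP_9cbfe4_an.SS

end

/-! ### Part ROK -/

section

/-! Section S, rows ROK and RNU: the seed of a package has the properties `Seed.OK`. -/

namespace Pool.Agent.MP_9cbfe4_an.SS

open Finset Filter Topology
open scoped ContDiff

namespace ROK

theorem Pb_shift (S : Sq) (k i j : ℤ) : (S.shift k).Pb i j = S.Pb (i + k) (j + k) := by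
  unfold Sq.Pb
  rw [← Finset.map_add_right_Ioc, prod_map]
  exact prod_congr rfl fun l _ => by simp only [Sq.shift, addRightEmbedding_apply]

variable {K E e : ℕ} {c : Cs} {M : Mdl} {Ex : ExT} {y : ℝ} {φ : Fd} {w : ℤ → ℝ} {F : Fm}

theorem ref (G : Good K E e c Ex M y φ w F) : Ref M.GG (K + 4) E (rd K E c Ex M y φ w 1) :=
  G.rf.ref 1 (by norm_num) le_rfl

theorem s0 (G : Good K E e c Ex M y φ w F) : Fs c M y φ ≤ 0 := (ref G).s0
theorem J1 (G : Good K E e c Ex M y φ w F) : 1 ≤ FJ c Ex M y φ := (ref G).J1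
theorem lam (G : Good K E e c Ex M y φ w F) : 1000 ≤ Lam K c y := (ref G).Λ_ge

theorem pow_le (hN : NuS K E c) (G : Good K E e c Ex M y φ w F) {a : ℕ} (ha : a ≤ 20 * E + 1000) :
    Lam K c y ^ a ≤ c.S0 y :=
  (pow_le_pow_right₀ (by linarith only [lam G]) ha).trans (hN.lam y G.rf.ok.y_lo).2.1

theorem S0_ge (hN : NuS K E c) (G : Good K E e c Ex M y φ w F) : 1000 ≤ c.S0 y := by
  obtain this := pow_le hN G (a := 1) (by omega)
  rw [pow_one] at this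
  exact (lam G).trans this

theorem rad (hN : NuS K E c) (G : Good K E e c Ex M y φ w F) : 1 / c.S0 y ^ 2 ≤ rr K E c y := by
  obtain h1 := pow_le hN G (a := E) (by omega)
  have h2 := S0_ge hN G
  have h3 := lam G
  exact one_div_le_one_div_of_le (by positivity) (by nlinarith only [h1, h2])

theorem rad' (hN : NuS K E c) (G : Good K E e c Ex M y φ w F) : 1 / c.S0 y ^ 2 ≤ 1 / 10 := by
  have h2 := S0_ge hN G
  exact one_div_le_one_div_of_le (by norm_num) (by nlinarith only [h2])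

theorem mid (c : Cs) (y t : ℝ) : t ∈ Set.Ioo (t - 3 * c.rU y) (t + 3 * c.rU y) := by
  obtain this : 0 < c.rU y := by unfold Cs.rU Cs.S0; positivity
  constructor <;> linarith only [this]

theorem tube (hN : NuS K E c) (G : Good K E e c Ex M y φ w F) :
    Tube (FR M φ) (F.x φ.t) (Fs c M y φ - 1) (FJ c Ex M y φ) (rr K E c y) :=
  (G.tube _ (mid c y φ.t)).mono le_rfl le_rfl (rad hN G)

theorem ht0 (G : Good K E e c Ex M y φ w F) : |φ.t - φ.t| ≤ rr K E c y := by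
  rw [sub_self, abs_zero]; exact (ref G).r0.le

theorem sub (hE : 200 ≤ E) (hT : TBR_s K E c) (hM : M.OKk c (K + 6))
    (G : Good K E e c Ex M y φ w F) {j : ℤ} (hj : Fs c M y φ ≤ j) :
    UB (FR M φ) φ.t (rr K E c y) j ⊆ OB c :=
  (((hT (by omega) M hM y G.rf.ok.y_lo).2.2 φ G.rf.ok.ht.1 G.rf.ok.ht.2 G.rf.ok.hv
    G.rf.ok.out.1).2.1 j (G.rf.lo.trans hj)).1

/-- the orbit of the seed at `t0` is the sequence of the family -/
theorem orb_eq (G : Good K E e c Ex M y φ w F) {j : ℤ} (h1 : 1 ≤ j) :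
    j ≤ FJ c Ex M y φ → M.fam 1 (F.X 1) (F.X 0) j φ.t = F.X j φ.t ∧
      M.fam 1 (F.X 1) (F.X 0) (j - 1) φ.t = F.X (j - 1) φ.t := by
  induction j, h1 using Int.leInduction with
  | base =>
    intro _
    rw [Mdl.fam_self, Mdl.fam_lt (by omega)]
    exact ⟨rfl, rfl⟩
  | succ j hj ih =>
    intro h2
    obtain ⟨a, b⟩ := ih (by omega)
    rw [add_sub_cancel_right, Mdl.fam_succ hj]
    refine ⟨?_, a⟩
    obtain this := (G.sol _ (mid c y φ.t)).eqx j ((s0 G).trans (by omega)) (show j < FJ c Ex M y φ by omega)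
    simp only [a, b]
    exact this.symm

theorem slope (hE : 200 ≤ E) (hN : NuS K E c) (hT : TBR_s K E c) (hM : M.OKk c (K + 6))
    (G : Good K E e c Ex M y φ w F) :
    ((seed c Ex M y φ F).orb M φ.t).fr 1 ((seed c Ex M y φ F).J - φ.n) ≠ 0 ∧
    ((seed c Ex M y φ F).orb M φ.t).nu1 ((seed c Ex M y φ F).J - φ.n) = F.η 1 φ.t := by
  have hs := G.sol _ (mid c y φ.t)
  have h0 := s0 G
  have e : (seed c Ex M y φ F).J - φ.n = FJ c Ex M y φ := add_sub_cancel_left _ _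
  obtain key : ∀ j, 1 ≤ j → j ≤ FJ c Ex M y φ →
      ((seed c Ex M y φ F).orb M φ.t).a j = ga M.GG (φ.t, F.x φ.t j, F.x φ.t (j - 1)) ∧
      ((seed c Ex M y φ F).orb M φ.t).b j = gb M.GG (φ.t, F.x φ.t j, F.x φ.t (j - 1)) := by
    intro j h1 h2
    obtain ⟨a, b⟩ := orb_eq G h1 h2
    obtain hz := sub hE hT hM G (j := j) (by omega) (mem_UB (tube hN G) (ht0 G) (by omega) h2)
    obtain ⟨p, q, -⟩ := (hT (by omega) M hM y G.rf.ok.y_lo).1 _ hz
    rw [p, q]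
    constructor
    · show M.Ga φ.t (M.fam 1 (F.X 1) (F.X 0) j φ.t) (M.fam 1 (F.X 1) (F.X 0) (j - 1) φ.t) = _
      rw [a, b]; rfl
    · show M.Gb φ.t (M.fam 1 (F.X 1) (F.X 0) j φ.t) (M.fam 1 (F.X 1) (F.X 0) (j - 1) φ.t) = _
      rw [a, b]; rfl
  rw [e]
  exact ((ft _ _ _ _ φ.t (ref G) (by omega) (ht0 G)).2.1 (F.x φ.t) (F.e φ.t)
    (fun j a b => hs.eqe j (h0.trans (by omega)) b)
    ((tube hN G).mono (by omega) le_rfl le_rfl) hs.one hs.zero).2 _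
    (fun j a b => (key j a b.le).1) (fun j a b => (key j a b).2)

theorem jets (hN : NuS K E c) (G : Good K E e c Ex M y φ w F) {t : ℝ}
    (ht : t ∈ Set.Ioo (φ.t - 3 * c.rU y) (φ.t + 3 * c.rU y)) :
    |deriv (F.X 1) t - 1| ≤ 1 / 10 ∧ (∀ j : ℕ, 2 ≤ j → j ≤ K + 1 → |iteratedDeriv j (F.X 1) t| ≤ 1) ∧
    (∀ j : ℕ, 1 ≤ j → j ≤ K + 1 → |iteratedDeriv j (F.X 0) t| ≤ 1 / 10) ∧
    |F.X 1 t| ≤ 3 / 2 * c.L ∧ |F.X 0 t| ≤ 3 / 2 * c.L ∧ 1 ≤ dP (F.X 1 t) ∧ 1 ≤ dP (F.X 0 t) := by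
  obtain ⟨a, b, d⟩ := G.jc t ht
  have h0 := s0 G
  have h1 := J1 G
  have hL := hN.L.1
  obtain hδ : del c ≤ 1 / 10 := by
    have h2 := hN.chK.2.2
    obtain h3 : (10 : ℝ) ≤ Real.exp (c.bl / 4) := by linarith only [h2, Real.add_one_le_exp (c.bl / 4)]
    unfold del
    rw [neg_div, Real.exp_neg, ← one_div]
    exact one_div_le_one_div_of_le (by norm_num) h3
  obtain t0 : |F.X 0 t - (FR M φ).X 0| ≤ 1 / 10 :=
    (G.tube t ht 0 (by omega) (by omega)).trans (rad' hN G)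
  obtain t1 : |F.X 1 t - (FR M φ).X 1| ≤ 1 / 10 :=
    (G.tube t ht 1 (by omega) h1).trans (rad' hN G)
  have p0 := abs_sub_abs_le_abs_sub (F.X 0 t) ((FR M φ).X 0)
  have p1 := abs_sub_abs_le_abs_sub (F.X 1 t) ((FR M φ).X 1)
  have q0 := abs_le.1 ((dP_lip (F.X 0 t) ((FR M φ).X 0)).trans t0)
  have q1 := abs_le.1 ((dP_lip (F.X 1 t) ((FR M φ).X 1)).trans t1)
  refine ⟨b, fun j x z => d j x (by omega), fun j x z => (a j x (by omega)).trans hδ, ?_, ?_, ?_, ?_⟩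
  · linarith only [hL, t1, p1, G.rf.pos 1]
  · linarith only [hL, t0, p0, G.rf.pos 0]
  · linarith only [G.rf.far.2, q1.1]
  · linarith only [G.rf.far.1, q0.1]

theorem near (ap0 : AP0_s) (nr : NEAR_s) (hE : 200 ≤ E) (hN : NuS K E c)
    (G : Good K E e c Ex M y φ w F) :
    ∃ h, Box c h ∧ F.X 1 φ.t = M.G φ.t (F.X 0 φ.t) h ∧
    (φ.S M).b φ.n * |h - (φ.S M).X (φ.n - 1)
      - φ.ξ (φ.n - 1) / φ.ξ φ.n * (F.X 0 φ.t - (φ.S M).X φ.n)|
      ≤ Real.exp (-c.bl / 4) * (F.X 0 φ.t - (φ.S M).X φ.n) ^ 2 ∧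
    c.L * |F.X 0 φ.t - (φ.S M).X φ.n| ≤ 3 * |(φ.S M).rho φ.ξ φ.n (φ.n + FJ c Ex M y φ)| := by
  have hs := G.sol _ (mid c y φ.t)
  have h0 := s0 G
  have h1 := J1 G
  have hL := hN.L.1
  refine ⟨F.X (-1) φ.t, ?_, ?_, ?_, ?_⟩
  · obtain t0 : |F.X (-1) φ.t - (FR M φ).X (-1)| ≤ 1 / 10 :=
      (G.tube _ (mid c y φ.t) (-1) (by omega) (by omega)).trans (rad' hN G)
    have p0 := abs_sub_abs_le_abs_sub (F.X (-1) φ.t) ((FR M φ).X (-1))
    unfold Box
    linarith only [hL, t0, p0, G.rf.pos (-1)]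
  · exact hs.eqx 0 h0 (show 0 < FJ c Ex M y φ by omega)
  · have := nr _ _ _ _ _ _ (ref G) hE hs (tube hN G)
    simp only [rd, FR, Fxi, Sq.shift, Fm.x, del, zero_add, neg_add_eq_sub] at this
    exact this
  · obtain this := (ap0 _ _ _ _ φ.t _ _ (ref G) (by omega) (ht0 G) hs (tube hN G)).2.1
    rw [G.rf.rho] at this
    simp only [rd, FR, Sq.shift, Fm.x, zero_add, sub_self, abs_zero, mul_zero, add_zero] at this
    linarith only [this, abs_nonneg ((φ.S M).rho φ.ξ φ.n (φ.n + FJ c Ex M y φ))]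

theorem hist_eq (hE : 200 ≤ E) (hT : TBR_s K E c) (hM : M.OKk c (K + 6))
    (G : Good K E e c Ex M y φ w F) :
    gt M.GG (φ.t, (FR M φ).X 0, (FR M φ).X (-1)) + ∑ i ∈ Ico (Fs c M y φ) 0, (-1) ^ (0 - i).toNat *
      (FR M φ).Pb i 0 * Fxi φ i * gt M.GG (φ.t, (FR M φ).X i, (FR M φ).X (i - 1))
      = M.hist c φ.t (φ.S M) φ.ξ φ.n y := by
  obtain key : ∀ i, Fs c M y φ ≤ i →
      gt M.GG (φ.t, (FR M φ).X i, (FR M φ).X (i - 1)) = M.gt φ.t (φ.S M) (i + φ.n) := by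
    intro i hi
    obtain r0 : |(FR M φ).X i - (FR M φ).X i| ≤ rr K E c y := by
      rw [sub_self, abs_zero]; exact (ref G).r0.le
    obtain r1 : |(FR M φ).X (i - 1) - (FR M φ).X (i - 1)| ≤ rr K E c y := by
      rw [sub_self, abs_zero]; exact (ref G).r0.le
    have hz := sub hE hT hM G hi (a := (φ.t, (FR M φ).X i, (FR M φ).X (i - 1))) ⟨ht0 G, r0, r1⟩
    rw [((hT (by omega) M hM y G.rf.ok.y_lo).1 _ hz).2.2]
    simp only [FR, Sq.shift, Mdl.gt, sub_add_eq_add_sub]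
  have k0 := key 0 (s0 G)
  rw [zero_sub, zero_add] at k0
  obtain e : Ico ((φ.S M).st c φ.n y) φ.n = (Ico (Fs c M y φ) 0).map (addRightEmbedding φ.n) := by
    rw [Finset.map_add_right_Ico, zero_add, Fs, sub_add_cancel]
  rw [Mdl.hist, k0, e, sum_map]
  congr 1
  refine sum_congr rfl fun i hi => ?_
  rw [key i (mem_Ico.1 hi).1, addRightEmbedding_apply, FR, Pb_shift, zero_add, Fxi,
    show φ.n - (i + φ.n) = 0 - i by ring]

theorem speed (spd : SPD_s) (hE : 200 ≤ E) (hN : NuS K E c) (hT : TBR_s K E c)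
    (hM : M.OKk c (K + 6)) (G : Good K E e c Ex M y φ w F) :
    |deriv (F.X 1) φ.t - F.η 1 φ.t * deriv (F.X 0) φ.t - M.hist c φ.t (φ.S M) φ.ξ φ.n y|
      ≤ c.S0 y * |F.X 0 φ.t - (φ.S M).X φ.n| := by
  have hm := mid c y φ.t
  obtain this := spd _ _ _ _ F (ref G) (by omega) hE (G.sm _ hm)
    (Filter.eventually_of_mem (isOpen_Ioo.mem_nhds hm) G.sol) (tube hN G)
  rw [← hist_eq hE hT hM G]
  refine this.trans ?_
  obtain e : (rd K E c Ex M y φ w 1).R.X 0 = (φ.S M).X φ.n := by simp only [rd, FR, Sq.shift, zero_add]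
  rw [e]
  exact mul_le_mul_of_nonneg_right (pow_le hN G (by omega)) (abs_nonneg _)

end ROK

theorem rnu (K E e : ℕ) (c : Cs) (hE : 200 ≤ E) (hN : NuS K E c) (hT : TBR_s K E c) :
    RNU_s K E e c := fun _ hM _ _ _ _ _ G => (ROK.slope hE hN hT hM G).2

theorem rok (ap0 : AP0_s) (nr : NEAR_s) (spd : SPD_s) (K E e : ℕ) (c : Cs) (hE : 200 ≤ E)
    (hN : NuS K E c) (hT : TBR_s K E c) : ROK_s K E e c := by
  intro M hM Ex y φ w F G
  have h0 := ROK.s0 G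
  have h1 := ROK.J1 G
  have hs := ROK.slope hE hN hT hM G
  refine ⟨fun t ht => ?_, fun t ht => ?_, fun t ht => ROK.jets hN G ht, ⟨?_, G.rf.wp, G.rf.brun, hs.1⟩,
    ROK.near ap0 nr hE hN G, ?_⟩
  · exact ((G.sm t ht 1 (by omega) h1).1.of_le (by exact_mod_cast le_top)).contDiffWithinAt
  · exact ((G.sm t ht 0 (by omega) (by omega)).1.of_le (by exact_mod_cast le_top)).contDiffWithinAt
  · have := G.rf.hor
    rwa [FR, Sq.chi_shift, zero_add, add_comm] at this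
  · rw [hs.2]
    exact ROK.speed spd hE hN hT hM G

end Pool.Agent.MP_9cbfe4_an.SS

end

/-! ### Part RSM -/

section

/-! Section S, row RSM: the same history gives the same critical point. -/

namespace Pool.Agent.MP_9cbfe4_an.SS

open Finset Filter Topology

namespace RSM

variable {K E e : ℕ} {c : Cs} {M : Mdl} {Ex : ExT} {y : ℝ} {φ φ' : Fd} {w w' : ℤ → ℝ} {F F' : Fm}

theorem win {c : Cs} {y t t0 : ℝ} (h : |t - t0| ≤ 2 * c.rU y) :
    t ∈ Set.Ioo (t0 - 3 * c.rU y) (t0 + 3 * c.rU y) := by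
  obtain this : 0 < c.rU y := by unfold Cs.rU Cs.S0; positivity
  have := abs_le.1 h
  constructor <;> linarith

theorem rU_le (hN : NuS K E c) (G : Good K E e c Ex M y φ w F) : 2 * c.rU y ≤ 1 / c.S0 y ^ 2 := by
  have h := ROK.S0_ge hN G
  unfold Cs.rU
  rw [mul_one_div, div_le_div_iff₀ (by (clear * - h; positivity)) (by positivity)]
  obtain this : 0 < c.S0 y ^ 2 := by positivity
  nlinarith only [this, h]

theorem small (hN : NuS K E c) (G : Good K E e c Ex M y φ w F) {a : ℕ} (ha : a ≤ 1000) :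
    Lam K c y ^ a * (1 / c.S0 y ^ 2) ≤ rr K E c y := by
  obtain h1 := ROK.pow_le hN G (a := a + E) (by omega)
  have h2 := ROK.S0_ge hN G
  have h3 := ROK.lam G
  unfold rr
  rw [mul_one_div, div_le_div_iff₀ (by (clear * - h2; positivity)) (by positivity), ← pow_add]
  nlinarith only [h1, h2]

/-- the second family lies in the tube of the first reference -/
theorem tube' (hE : 200 ≤ E) (hN : NuS K E c) (G : Good K E e c Ex M y φ w F)
    (G' : Good K E e c Ex M y φ' w' F') {i : ℤ} (hi' : Fs c M y φ' ≤ i)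
    (hi0 : i ≤ 0) (cl : ∀ l, i - 1 ≤ l → l ≤ 0 → |(FR M φ').X l - (FR M φ).X l| ≤ c.rU y)
    (hJ : FJ c Ex M y φ ≤ FJ c Ex M y φ') {t : ℝ} (ht : |t - φ.t| ≤ 2 * c.rU y)
    (ht' : |t - φ'.t| ≤ 2 * c.rU y) :
    Tube (FR M φ) (F'.x t) (i - 1) (FJ c Ex M y φ) (rr K E c y) := by
  have R := ROK.ref G
  have hΛ := ROK.lam G
  have J1 := ROK.J1 G
  have s0 := ROK.s0 G
  have hu := rU_le hN G
  obtain hr : 0 < c.rU y := by unfold Cs.rU Cs.S0; positivity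
  have s' := G'.sol t (win ht')
  set d := 1 / c.S0 y ^ 2 with hd
  obtain hist : ∀ l, i - 1 ≤ l → l ≤ 0 → |F'.x t l - (FR M φ).X l| ≤ 2 * d := fun l a b => by
    obtain h1 := G'.tube t (win ht') l (by omega) (by omega)
    have h2 := abs_sub_le (F'.x t l) ((FR M φ').X l) ((FR M φ).X l)
    linarith only [hr, hu, h1, h2, cl l a b]
  obtain d0 : 0 ≤ d := by linarith only [hr, hu]
  obtain d1 : Lam K c y * d ≤ rr K E c y := by
    obtain this := small hN G (a := 1) (by norm_num)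
    rwa [pow_one] at this
  obtain d2 : 2 * d ≤ rr K E c y := by nlinarith only [hr, hu, d1, hΛ]
  obtain tr : |t - φ.t| ≤ rr K E c y := by linarith only [ht, hr, hu, d2]
  obtain h0 := hist 0 (by omega) le_rfl
  obtain h1 := hist (-1) (by omega) (by omega)
  obtain one : |F'.x t 1 - (FR M φ).X 1| ≤ Lam K c y ^ 2 * d := by
    have hz' : ((t, F'.x t 0, F'.x t (0 - 1)) : R3) ∈ UB (FR M φ) φ.t (rr K E c y) 0 :=
      ⟨tr, h0.trans d2, h1.trans d2⟩
    obtain lm := R.lm 0 s0 (by show (0 : ℤ) ≤ FJ c Ex M y φ; omega)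
    have k := (st0 _ _ _ _ _ _ _ _ lm _ (R.center 0) _ hz').1
    obtain e1 := s'.eqx 0 (hi'.trans hi0) (show 0 < FJ c Ex M y φ' by omega)
    obtain e2 := R.orb 0 s0 (show 0 < FJ c Ex M y φ by omega)
    rw [← e1, ← e2] at k
    obtain a1 := (R.ale s0 (show (0 : ℤ) ≤ FJ c Ex M y φ by omega)).trans R.top0
    obtain b1 := (R.ble s0 (show (0 : ℤ) ≤ FJ c Ex M y φ by omega)).trans R.top0
    have b0 := lm.b0
    have ρ0 := lm.ρ0
    have ρ1 := lm.ρ1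
    simp only [rd, zero_add, zero_sub] at k a1 b1 b0 ρ0 ρ1
    set A := (FR M φ).a 0
    set B := (FR M φ).b 0
    set u := F'.x t 0 - (FR M φ).X 0
    set v := F'.x t (-1) - (FR M φ).X (-1)
    obtain p1 : |A * u| ≤ Lam K c y * (2 * d) := by
      rw [abs_mul]; exact mul_le_mul a1 h0 (abs_nonneg _) (by linarith only [hΛ])
    obtain p2 : B * |v| ≤ Lam K c y * (2 * d) := mul_le_mul b1 h1 (abs_nonneg _) (by linarith only [hΛ])
    obtain p3 : |B * v| = B * |v| := by rw [abs_mul, abs_of_pos b0]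
    obtain p4 : Lam K c y ^ 2 * rr K E c y * (|u| + B * |v|) ≤ 1 / 2 * (2 * d + Lam K c y * (2 * d)) :=
      mul_le_mul ρ1 (by linarith only [h0, p2]) (by (clear * - b0; positivity)) (by norm_num)
    obtain p5 : |F'.x t 1 - (FR M φ).X 1| ≤
        |F'.x t 1 - (FR M φ).X 1 - A * u - B * v| + |A * u| + |B * v| := by
      have := abs_add_three (F'.x t 1 - (FR M φ).X 1 - A * u - B * v) (A * u) (B * v)
      rwa [show F'.x t 1 - (FR M φ).X 1 - A * u - B * v + A * u + B * v =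
        F'.x t 1 - (FR M φ).X 1 by ring] at this
    have p6 : 1000 * d ≤ Lam K c y * d := mul_le_mul_of_nonneg_right hΛ d0
    obtain p7 : 1000 * (Lam K c y * d) ≤ Lam K c y * (Lam K c y * d) :=
      mul_le_mul_of_nonneg_right hΛ (by linarith only [hr, hu, p6])
    linarith only [ht, hr, hu, k, p1, p2, p3, p4, p5, p6, p7]
  obtain q1 : 2 * d ≤ Lam K c y ^ 2 * d := mul_le_mul_of_nonneg_right (by nlinarith only [hΛ]) d0
  obtain fut := (ft _ _ _ _ t R (by omega) tr).1 (F'.x t) (Lam K c y ^ 2 * d)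
    (fun j a b => s'.eqx j ((hi'.trans hi0).trans (by omega)) (lt_of_lt_of_le b hJ))
    (show |t - φ.t| ≤ _ by linarith only [ht, hr, hu, q1]) (h0.trans q1) one
    (by
      obtain this := small hN G (a := 12) (by norm_num)
      show Lam K c y ^ 2 * d * Lam K c y ^ 10 ≤ rr K E c y
      rwa [show Lam K c y ^ 2 * d * Lam K c y ^ 10 = Lam K c y ^ 12 * d by ring])
  intro l a b
  rcases le_total l 0 with h | h
  · exact (hist l a h).trans d2
  · refine (fut l h b).trans ?_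
    obtain this := small hN G (a := 10) (by norm_num)
    show Lam K c y ^ 2 * d * Lam K c y ^ 8 ≤ rr K E c y
    rwa [show Lam K c y ^ 2 * d * Lam K c y ^ 8 = Lam K c y ^ 10 * d by ring]

theorem lin {Λ W x0 x1 u v B : ℝ} (hΛ : 1000 ≤ Λ) (hW : 0 < W) (h0 : |x0| ≤ W) (h1 : |x1| ≤ Λ * W)
    (hu : |u| ≤ B) (hv : |v| ≤ B) : |x1 * u - x0 * v| ≤ 2 * Λ * B * W := by
  have a := abs_sub (x1 * u) (x0 * v)
  rw [abs_mul, abs_mul] at a
  have hB := (abs_nonneg _).trans hu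
  obtain b := mul_le_mul h1 hu (abs_nonneg _) (by positivity)
  have d := mul_le_mul h0 hv (abs_nonneg _) hW.le
  obtain this : W * B ≤ Λ * (W * B) := le_mul_of_one_le_left (by positivity) (by linarith only [hΛ])
  linarith only [a, b, d, this]

theorem fin (hN : NuS K E c) (G : Good K E e c Ex M y φ w F) {κ : ℝ}
    (hκ : κ ≤ Lam K c y ^ 2 * Real.exp (-(9 / 10) * y)) :
    Lam K c y ^ (2 * 20 + 70) * (Lam K c y ^ 22 * κ + Lam K c y ^ 20 * Real.exp (-(9 / 10) * y))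
      ≤ Real.exp (-y / 2) := by
  have hΛ := ROK.lam G
  obtain h1 := ROK.pow_le hN G (a := 135) (by omega)
  have h2 := (hN.lam y G.rf.ok.y_lo).2.2.1
  have h3 := ROK.S0_ge hN G
  obtain h4 : c.S0 y ≤ c.S0 y ^ 100 := le_self_pow₀ (by linarith only [h3]) (by norm_num)
  obtain hy : 0 ≤ y := by linarith only [G.rf.ok.y_lo, hN.chK.2.2]
  set Λ := Lam K c y
  set x := Real.exp (-(9 / 10) * y) with hx
  have x0 : 0 < x := Real.exp_pos _
  obtain a1 : Λ ^ 22 * κ ≤ Λ ^ 24 * x := by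
    obtain this := mul_le_mul_of_nonneg_left hκ (show 0 ≤ Λ ^ 22 by positivity)
    linarith only [this, show Λ ^ 22 * (Λ ^ 2 * x) = Λ ^ 24 * x by ring]
  obtain a2 : Λ ^ 20 * x ≤ Λ ^ 24 * x :=
    mul_le_mul_of_nonneg_right (pow_le_pow_right₀ (by linarith only [hΛ]) (by norm_num)) x0.le
  obtain a3 : 2 * (Λ ^ 24 * x) ≤ Λ * (Λ ^ 24 * x) :=
    mul_le_mul_of_nonneg_right (by linarith only [hΛ]) (by (clear * - hΛ; positivity))
  calc _ ≤ Λ ^ (2 * 20 + 70) * (Λ * (Λ ^ 24 * x)) :=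
        mul_le_mul_of_nonneg_left (by linarith only [a1, a2, a3]) (by positivity)
    _ = Λ ^ 135 * x := by ring
    _ ≤ Real.exp (y / 100) * x := mul_le_mul_of_nonneg_right (by linarith only [h2, h4, h1]) x0.le
    _ ≤ _ := by
      rw [hx, ← Real.exp_add]
      exact Real.exp_le_exp.2 (by linarith only [hy])

theorem core (ap0 : AP0_s) (muc : MUC_s) (hE : 200 ≤ E) (hN : NuS K E c)
    (G : Good K E e c Ex M y φ w F) (G' : Good K E e c Ex M y φ' w' F') {i : ℤ}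
    (hi : Fs c M y φ ≤ i) (hi' : Fs c M y φ' ≤ i) (hi0 : i ≤ 0)
    (cl : ∀ l, i - 1 ≤ l → l ≤ 0 → |(FR M φ').X l - (FR M φ).X l| ≤ c.rU y)
    (hchi : y ≤ 11 / 10 * (FR M φ).chi c i 0)
    (hJ : FJ c Ex M y φ ≤ FJ c Ex M y φ') {t : ℝ} (ht : |t - φ.t| ≤ 2 * c.rU y)
    (ht' : |t - φ'.t| ≤ 2 * c.rU y) : |F'.X 0 t - F.X 0 t| ≤ Real.exp (-y / 2) := by
  have hy := G.rf.ok.y_lo
  have hΛ := ROK.lam G
  have J1 := ROK.J1 G
  have hu := rU_le hN G
  have rad := ROK.rad hN G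
  obtain R := rfrom _ _ _ _ i (G.rf.ref (9 / 10) (by norm_num) (by norm_num)) hi hi0
  have s := G.sol t (win ht)
  have s' := G'.sol t (win ht')
  have tu := (G.tube t (win ht)).mono le_rfl le_rfl rad
  have tv := (G'.tube t (win ht')).mono le_rfl le_rfl rad
  have tu' := tube' hE hN G G' hi' hi0 cl hJ ht ht'
  obtain tr : |t - φ.t| ≤ rr K E c y := by linarith only [ht, hu, rad]
  obtain tr' : |t - φ'.t| ≤ rr K E c y := by linarith only [ht', hu, rad]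
  obtain ⟨m1, m2, -⟩ := muc K E c y hN hy
  obtain r2 : 2 * rr K E c y ≤ 1 / Lam K c y := by
    obtain this : Lam K c y ^ 2 ≤ Lam K c y ^ E := pow_le_pow_right₀ (by linarith only [hΛ]) (by omega)
    unfold rr
    rw [mul_one_div, div_le_div_iff₀ (by positivity) (by positivity)]
    nlinarith only [hΛ, this]
  obtain r3 : 1 / Lam K c y ≤ 1 := by rw [div_le_one (by linarith only [hΛ])]; linarith only [hΛ]
  obtain mm := (m1 (FR M φ) (FR M φ') (i - 1) (FJ c Ex M y φ) (by omega) (by omega) fun j a b => by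
    obtain h1 := tv j (by omega) (b.trans hJ)
    have h2 := tu' j a b
    have h3 := abs_sub_le ((FR M φ').X j) (F'.x t j) ((FR M φ).X j)
    rw [abs_sub_comm] at h1
    linarith only [r2, h1, h2, h3]).2
  obtain η' : ∀ j, i - 1 ≤ j → j ≤ FJ c Ex M y φ →
      |F'.e t j| ≤ mu K c y (FR M φ) j ^ 20 * Dd c (9 / 10) (FR M φ) j := fun j a b => by
    obtain h1 := (ap0 _ _ _ _ t _ _ (ROK.ref G') (by omega) tr' s' tv).1 j
      (show Fs c M y φ' - 1 ≤ j by omega) (b.trans hJ)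
    obtain ⟨p, q⟩ := mm j a b
    have h2 := (m2 (FR M φ') j 1 1 le_rfl).1
    refine h1.trans (mul_le_mul ?_ q (Real.exp_pos _).le (by (clear * -; positivity)))
    rw [show 20 = 2 * 10 from rfl, pow_mul]
    exact pow_le_pow_left₀ (by show 0 ≤ mu K c y (FR M φ') j; linarith only [h2]) p 10
  obtain η1 : ∀ j, i - 1 ≤ j → j ≤ FJ c Ex M y φ → |F'.e t j - F.e t j| ≤ 2 * Lam K c y ^ 20 :=
    fun j a b => by
      obtain h1 := (ap0 _ _ _ _ t _ _ (ROK.ref G) (by omega) tr s tu).1 j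
        (show Fs c M y φ - 1 ≤ j by omega) b
      obtain h2 := (ROK.ref G).muD_le (show Fs c M y φ - 1 ≤ j by omega) b 10
      have h3 : mu K c y (FR M φ) j ^ 20 * Dd c (9 / 10) (FR M φ) j ≤ Lam K c y ^ 20 :=
        R.muD_le a b 20
      obtain h4 : Lam K c y ^ 10 ≤ Lam K c y ^ 20 := pow_le_pow_right₀ (by linarith only [hΛ]) (by norm_num)
      have h5 : |F.e t j| ≤ Lam K c y ^ 10 := h1.trans h2
      linarith only [h3, h4, h5, abs_sub (F'.e t j) (F.e t j), η' j a b]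
  obtain x1 : ∀ j, i - 1 ≤ j → j ≤ FJ c Ex M y φ → |F'.x t j - F.x t j| ≤ 2 * Lam K c y ^ 20 :=
    fun j a b => by
      obtain h1 := tu j (by omega) b
      have h2 := tu' j a b
      have h3 := abs_sub_le (F'.x t j) ((FR M φ).X j) (F.x t j)
      obtain h4 : 1 ≤ Lam K c y ^ 20 := one_le_pow₀ (by linarith only [hΛ])
      rw [abs_sub_comm] at h1
      linarith only [r2, r3, h1, h2, h3, h4]
  obtain W : 0 < w (i - 1) := R.ct.hc.wpos (i - 1) le_rfl (by omega)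
  obtain ξ0 : |Fxi φ (i - 1)| ≤ w (i - 1) := R.ct.hc.maj (i - 1) le_rfl (by omega)
  obtain ξ1 : |Fxi φ i| ≤ Lam K c y * w (i - 1) := by
    obtain h1 : |Fxi φ i| ≤ w i := R.ct.hc.maj i (show i - 1 ≤ i by omega) hi0
    obtain h2 := R.ct.hc.fwd (i - 1) le_rfl (by omega)
    rw [sub_add_cancel] at h2
    have h3 : mu K c y (FR M φ) i ≤ Lam K c y := (m2 (FR M φ) i 1 1 le_rfl).2.1
    exact h1.trans (h2.trans (mul_le_mul_of_nonneg_right h3 W.le))
  obtain β : 2 * Lam K c y * (2 * Lam K c y ^ 20) * w (i - 1) ≤ Lam K c y ^ 22 * w (i - 1) := by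
    refine mul_le_mul_of_nonneg_right ?_ W.le
    obtain this : 4 * Lam K c y ^ 21 ≤ Lam K c y * Lam K c y ^ 21 :=
      mul_le_mul_of_nonneg_right (by linarith only [hΛ]) (by positivity)
    linarith only [this, show Lam K c y * Lam K c y ^ 21 = Lam K c y ^ 22 by ring,
      show 2 * Lam K c y * (2 * Lam K c y ^ 20) = 4 * Lam K c y ^ 21 by ring]
  obtain κ0 : 0 ≤ Lam K c y ^ 22 * ((rd K E c Ex M y φ w (9 / 10)).from i).κ i :=
    mul_nonneg (by positivity) (R.κ_nonneg (show i - 1 ≤ i by omega))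
  obtain si : Fs c M y φ' ≤ i + 1 := by omega
  obtain iJ : i < FJ c Ex M y φ' := by omega
  have key := (d0 st0 (ls aph apf1 apf2) _ _ _ 20 _ t (F.x t) (F.e t) (F'.x t) (F'.e t) 0 0
    (Lam K c y ^ 22) (Lam K c y ^ 20 * Real.exp (-(9 / 10) * y)) R (by omega) tr
    (fun j a b => s.eqx j (hi.trans a) b) (fun j a b => s.eqe j (hi.trans a) b)
    (fun j a b => s'.eqx j (si.trans a) (lt_of_lt_of_le b hJ))
    (fun j a b => s'.eqe j (si.trans a) (lt_of_lt_of_le b hJ))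
    (by rw [add_zero]; exact s'.eqx i hi' iJ) (by rw [add_zero]; exact s'.eqe i hi' iJ) s.one s'.one
    (tu.mono (show Fs c M y φ - 1 ≤ i - 1 by omega) le_rfl le_rfl) tu' η' (by positivity)
    (by positivity) (by rw [abs_zero]; exact κ0) (by rw [abs_zero]; exact κ0)
    ((lin hΛ W ξ0 ξ1 (x1 (i - 1) le_rfl (by omega)) (x1 i (by omega) (by omega))).trans β)
    ((lin hΛ W ξ0 ξ1 (η1 (i - 1) le_rfl (by omega)) (η1 i (by omega) (by omega))).trans β)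
    (by
      have z : F.e t (FJ c Ex M y φ) = 0 := s.zero
      show |F'.e t (FJ c Ex M y φ) - F.e t (FJ c Ex M y φ)| ≤ _
      rw [z, sub_zero]
      refine (η' _ (by omega) le_rfl).trans (mul_le_mul (pow_le_pow_left₀ ?_ ?_ 20) ?_
        (Real.exp_pos _).le (by positivity))
      · linarith only [(m2 (FR M φ) (FJ c Ex M y φ) 1 1 le_rfl).1]
      · exact (m2 (FR M φ) (FJ c Ex M y φ) 1 1 le_rfl).2.1
      · exact Real.exp_le_exp.2 (by linarith only [G.rf.hor]))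
    0 (show i - 1 ≤ 0 by omega) (show 0 ≤ FJ c Ex M y φ by omega)).1
  refine key.trans (fin hN G ?_)
  obtain l2 := Real.log_pos (show (1 : ℝ) < 2 by norm_num)
  obtain k0 : 0 ≤ c.chK := by linarith only [l2, hN.chK.1]
  obtain k1 : c.chK ≤ c.bl := by linarith only [hN.chK.2.1, hN.chK.2.2]
  obtain h1 := (FR M φ).chi_mono c k0 k1 (show i - 1 ≤ i by omega) (le_refl 0)
  have h2 := (FR M φ).chi_nonneg c k0 k1 i 0
  refine (G.rf.kchi (i - 1) 0 (by omega) (by omega) le_rfl).trans ?_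
  exact mul_le_mul_of_nonneg_left (Real.exp_le_exp.2 (by linarith only [hchi, hy, k0, k1, h1])) (by positivity)

/-- the windows of the two data -/
theorem hist (muc : MUC_s) (hN : NuS K E c) (G : Good K E e c Ex M y φ w F)
    (G' : Good K E e c Ex M y φ' w' F')
    (h1 : ((φ.S M).Nw c φ.n (2 * y + 3 * c.bl) : ℤ) ≤ φ.n)
    (h2 : ((φ'.S M).Nw c φ'.n (2 * y) : ℤ) ≤ φ'.n)
    (h3 : ∀ j : ℕ, j ≤ (φ.S M).Nw c φ.n (2 * y + 3 * c.bl) →
      |(φ'.S M).X (φ'.n - j) - (φ.S M).X (φ.n - j)| ≤ c.rU y) :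
    (∀ l, Fs c M y φ - 1 ≤ l → l ≤ 0 → |(FR M φ').X l - (FR M φ).X l| ≤ c.rU y) ∧
    y ≤ 11 / 10 * (FR M φ).chi c (max (Fs c M y φ) (Fs c M y φ')) 0 ∧
    y ≤ 11 / 10 * (FR M φ').chi c (max (Fs c M y φ) (Fs c M y φ')) 0 := by
  have hy := G.rf.ok.y_lo
  obtain l2 := Real.log_pos (show (1 : ℝ) < 2 by norm_num)
  obtain k0 : 0 < c.chK := by linarith only [l2, hN.chK.1]
  have hb := hN.chK.2.2
  obtain k1 : c.chK ≤ c.bl := by linarith only [hb, hN.chK.2.1]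
  have s0 := ROK.s0 G
  have s0' := ROK.s0 G'
  have n1 := ((φ.S M).Nw_spec c k0 k1 φ.n (2 * y + 3 * c.bl)).1
  have n2 := ((φ'.S M).Nw_spec c k0 k1 φ'.n (2 * y)).1
  set N := (φ.S M).Nw c φ.n (2 * y + 3 * c.bl)
  set N' := (φ'.S M).Nw c φ'.n (2 * y)
  obtain a1 : 2 * y + 3 * c.bl ≤ (FR M φ).chi c (-N) 0 := by
    rwa [FR, Sq.chi_shift, zero_add, neg_add_eq_sub]
  obtain a2 : 2 * y ≤ (FR M φ').chi c (-N') 0 := by
    rwa [FR, Sq.chi_shift, zero_add, neg_add_eq_sub]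
  obtain b1 : (FR M φ).chi c (Fs c M y φ - 1) 0 < y + 2 * c.bl := by
    obtain p := (FR M φ).chi_add c (show Fs c M y φ - 1 ≤ Fs c M y φ by omega) s0
    have q := (FR M φ).chi_succ c (Fs c M y φ - 1)
    rw [sub_add_cancel] at q
    have r := ((FR M φ).ch1_mem c k1 (Fs c M y φ)).2
    rcases s0.eq_or_lt with h | h
    · rw [h, Sq.chi_self] at p
      rw [h] at q r ⊢
      linarith only [hy, hb, q, r]
    · obtain u := (FR M φ).chi_add c (show Fs c M y φ ≤ Fs c M y φ + 1 by omega)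
        (show Fs c M y φ + 1 ≤ 0 by omega)
      rw [Sq.chi_succ] at u
      linarith only [p, q, r, u, ((FR M φ).ch1_mem c k1 (Fs c M y φ + 1)).2, G.rf.short]
  obtain b2 : -(N : ℤ) < Fs c M y φ - 1 := by
    by_contra h
    have := (FR M φ).chi_mono c k0.le k1 (not_lt.1 h) (le_refl 0)
    linarith only [hy, hb, a1, b1, this]
  obtain cl : ∀ l, Fs c M y φ - 1 ≤ l → l ≤ 0 → |(FR M φ').X l - (FR M φ).X l| ≤ c.rU y := by
    intro l a b
    obtain this := h3 (-l).toNat (by omega)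
    rw [Int.toNat_of_nonneg (by omega), sub_neg_eq_add, sub_neg_eq_add, add_comm φ.n,
      add_comm φ'.n] at this
    exact this
  obtain t1 : y ≤ (FR M φ).chi c (Fs c M y φ) 0 := by
    by_contra h
    have := (G.rf.trunc (not_le.1 h)).1
    omega
  obtain t2 : y ≤ (FR M φ').chi c (Fs c M y φ') 0 := by
    by_contra h
    have e := (G'.rf.trunc (not_le.1 h)).1
    obtain this := (FR M φ').chi_mono c k0.le k1 (show Fs c M y φ' ≤ -(N' : ℤ) by omega) (le_refl 0)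
    linarith only [hy, hb, a2, h, this]
  have hΛ := ROK.lam G
  obtain r : c.rU y ≤ 1 / Lam K c y := by
    obtain p := ROK.pow_le hN G (a := 1) (by omega)
    have q := ROK.S0_ge hN G
    rw [pow_one] at p
    exact one_div_le_one_div_of_le (by linarith only [hΛ])
      (p.trans (le_self_pow₀ (by linarith only [hΛ, p]) (by norm_num)))
  obtain m := ((muc K E c y hN hy).1 (FR M φ) (FR M φ') (Fs c M y φ - 1) 0 (by omega) le_rfl
    fun j a b => (cl j a b).trans r).1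
  refine ⟨cl, ?_⟩
  rcases le_total (Fs c M y φ) (Fs c M y φ') with h | h
  · rw [max_eq_right h]
    obtain this := (m (Fs c M y φ') 0 (by omega) le_rfl).1
    constructor <;> linarith only [t2, this, hy, hb]
  · rw [max_eq_left h]
    obtain this := (m (Fs c M y φ) 0 (by omega) le_rfl).2
    constructor <;> linarith only [hy, hb, t1, this]

end RSM

theorem rsm (ap0 : AP0_s) (muc : MUC_s) (K E e : ℕ) (c : Cs) (hE : 200 ≤ E) (hN : NuS K E c) :
    RSM_s K E e c := by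
  intro M _ Ex y φ w F φ' w' F' G G' h0 h1 h2 h3 t ht
  obtain ⟨cl, a, b⟩ := RSM.hist muc hN G G' h1 h2 h3
  obtain hr : 0 < c.rU y := by unfold Cs.rU Cs.S0; positivity
  obtain t1 : |t - φ.t| ≤ 2 * c.rU y := by linarith only [h0, ht, abs_sub_le t φ'.t φ.t]
  obtain t2 : |t - φ'.t| ≤ 2 * c.rU y := by linarith only [ht, hr]
  have i0 := max_le (ROK.s0 G) (ROK.s0 G')
  have i1 := le_max_left (Fs c M y φ) (Fs c M y φ')
  have i2 := le_max_right (Fs c M y φ) (Fs c M y φ')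
  rcases le_total (FJ c Ex M y φ) (FJ c Ex M y φ') with h | h
  · rw [abs_sub_comm]
    exact RSM.core ap0 muc hE hN G G' i1 i2 i0 (fun l p q => cl l (by omega) q) a h t1 t2
  · exact RSM.core ap0 muc hE hN G' G i2 i1 i0
      (fun l p q => by rw [abs_sub_comm]; exact cl l (by omega) q) b h t2 t1

end Pool.Agent.MP_9cbfe4_an.SS

end

/-! ### Part SASM -/

section

/-! Section S: assembly of the seeds and classes. -/

namespace Pool.Agent.MP_9cbfe4_an.SS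

open Finset Filter Topology

noncomputable section

theorem floor_close {e x x' : ℝ} (he : 0 < e) (h : ⌊x' / e⌋ = ⌊x / e⌋) : |x' - x| ≤ e := by
  have h1 := Int.floor_le (x / e)
  have h2 := Int.lt_floor_add_one (x / e)
  have h3 := Int.floor_le (x' / e)
  have h4 := Int.lt_floor_add_one (x' / e)
  rw [h] at h3 h4
  obtain this : |x' / e - x / e| ≤ 1 := abs_le.2 ⟨by linarith only [h2, h3], by linarith only [h1, h4]⟩
  rw [← sub_div, abs_div, abs_of_pos he, div_le_one he] at this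
  exact this

theorem floor_mem_Icc {e x B : ℝ} (he : 0 < e) (h : |x| ≤ B * e) :
    ⌊x / e⌋ ∈ Icc (-⌈B⌉) ⌈B⌉ := by
  obtain h1 : |x / e| ≤ B := by rw [abs_div, abs_of_pos he, div_le_iff₀ he]; exact h
  obtain ⟨h2, h3⟩ := abs_le.1 h1
  have h4 := Int.le_ceil B
  refine mem_Icc.2 ⟨Int.le_floor.2 (by push_cast; linarith only [h2, h4]), ?_⟩
  have : ((⌊x / e⌋ : ℤ) : ℝ) ≤ (⌈B⌉ : ℤ) := (Int.floor_le _).trans (h3.trans h4)
  exact_mod_cast this

theorem card_Icc_le {B : ℝ} (hB : 0 ≤ B) : ((Icc (-⌈B⌉) ⌈B⌉).card : ℝ) ≤ 2 * B + 3 := by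
  have h0 : 0 ≤ ⌈B⌉ := Int.ceil_nonneg hB
  obtain h1 : (((Icc (-⌈B⌉) ⌈B⌉).card : ℤ) : ℝ) = ((⌈B⌉ + 1 - -⌈B⌉ : ℤ) : ℝ) := by
    rw [Int.card_Icc_of_le _ _ (by omega)]
  have h2 := Int.ceil_lt_add_one B
  push_cast at h1
  linarith only [h2, h1]

theorem covI_empty {A : Set ℝ} {N l : ℝ} (hA : ∀ z, z ∉ A) (hN : 0 ≤ N) : CovI A N l :=
  ⟨∅, by simpa using hN, fun z hz => (hA z hz).elim⟩

theorem asm {K E e : ℕ} {c : Cs} (hN : NuS K E c) (pkg : PKG_s K E e c) (rok : ROK_s K E e c)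
    (rnu : RNU_s K E e c) (rcr : RCR_s K E e c) (rsm : RSM_s K E e c) (rpre : RPRE_s K E e c)
    (rta : RTA_s K E e c) (rtb : RTB_s K E e c) (rtw : RTW_s K E e c) (rll : RLL_s K E c) :
    S_s K c := by
  classical
  intro M hM Ex
  obtain ex : ∀ (φ : Fd) (y : ℝ), ∃ p : (ℤ → ℝ) × Fm, φ.OK c Ex M y → Good K E e c Ex M y φ p.1 p.2 := by
    intro φ y
    by_cases h : φ.OK c Ex M y
    · obtain ⟨w, F, g⟩ := pkg M hM Ex y φ h
      exact ⟨(w, F), fun _ => g⟩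
    · exact ⟨(0, ⟨0, 0⟩), fun h' => (h h').elim⟩
  choose pk hpk using ex
  refine ⟨fun φ y => seed c Ex M y φ (pk φ y).2, fun φ y h => rok M hM Ex y φ _ _ (hpk φ y h),
    fun φ y y' h h' hy j hj => rcr M hM Ex y y' φ _ _ _ _ (hpk φ y h) (hpk φ y' h') hy j hj, ?_,
    fun φ φ' y h h' => rsm M hM Ex y φ _ _ φ' _ _ (hpk φ y h) (hpk φ' y h')⟩
  intro y tU y0
  have S1 : 1 ≤ c.S0 y := Real.one_le_exp (mul_nonneg (Real.sqrt_nonneg _) y0)
  obtain S0 : 0 < c.S0 y := by linarith only [S1]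
  by_cases hy : c.bl / 4 < y
  swap
  · refine ⟨1, fun _ => 0, fun _ => 0, fun _ => 0, by simpa using one_le_pow₀ S1,
      fun φ h => (hy h.y_lo).elim, fun φ φ' h => (hy h.y_lo).elim, fun H x l1 l2 h1 h2 =>
        covI_empty (fun z ⟨_, _, h, _⟩ => hy h.y_lo) ?_, fun H l _ =>
        covI_empty (fun z ⟨_, h, _⟩ => hy h.y_lo) (by positivity)⟩
    have : 0 < l2 := (Real.exp_pos _).trans_le h1
    obtain this : 0 < l1 := by linarith only [h2, this]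
    positivity
  obtain ⟨l1, l2, l3, l4⟩ := hN.lam y hy
  obtain ⟨L1, -, -⟩ := hN.L
  obtain ⟨-, -, b1⟩ := hN.chK
  set Λ := Lam K c y with hΛ
  obtain Λ1 : 10 ^ 4 * c.L ≤ Λ := by nlinarith only [L1, b1, l1]
  obtain Λ2 : 10 ^ 4 ≤ Λ := by linarith only [L1, Λ1]
  obtain ΛS : Λ ^ 5 ≤ c.S0 y := (pow_le_pow_right₀ (by linarith only [L1, Λ1]) (by omega)).trans l2
  obtain S4 : 10 ^ 4 ≤ c.S0 y :=
    (Λ2.trans (le_self_pow₀ (by linarith only [L1, Λ1]) (by norm_num))).trans ΛS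
  obtain r0 : 0 < c.rU y := by unfold Cs.rU; positivity
  obtain r1 : c.rU y * c.S0 y ^ 3 = 1 := by unfold Cs.rU; field_simp
  obtain r2 : 2 * c.rU y ≤ 1 / (2 * c.S0 y ^ 2) := by
    unfold Cs.rU
    rw [mul_one_div, div_le_div_iff₀ (by positivity) (by positivity)]
    nlinarith only [S4, pow_pos S0 2]
  obtain r3 : c.rU y ≤ 1 := by
    unfold Cs.rU; rw [div_le_one (by positivity)]; exact one_le_pow₀ S1
  obtain d1 : del c ≤ 1 := Real.exp_le_one_iff.2 (by linarith only [b1])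
  set ε := c.rU y / 10 with hε
  obtain e0 : 0 < ε := by positivity
  set B := 20 * c.L * c.S0 y ^ 3 with hB
  obtain Be : B * ε = 2 * c.L := by rw [hB, hε]; linear_combination 2 * c.L * r1
  let F : Fd → Fm := fun φ => (pk φ y).2
  let V : Fd → Prop := fun φ => φ.OK c Ex M y ∧ |φ.t - tU| ≤ c.rU y
  let key : Fd → (ℤ × ℤ) × Prop × ℤ × ℤ := fun φ =>
    ((FJ c Ex M y φ, Fs c M y φ), Tr c M y φ, ⌊(F φ).X 0 tU / ε⌋, ⌊(F φ).X 1 tU / ε⌋)
  let KS : Finset ((ℤ × ℤ) × Prop × ℤ × ℤ) :=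
    (Icc (-⌈Λ⌉) ⌈Λ⌉ ×ˢ Icc (-⌈Λ⌉) ⌈Λ⌉) ×ˢ univ ×ˢ Icc (-⌈B⌉) ⌈B⌉ ×ˢ Icc (-⌈B⌉) ⌈B⌉
  obtain win : ∀ φ, V φ → tU ∈ Set.Ioo (φ.t - 3 * c.rU y) (φ.t + 3 * c.rU y) := fun φ h => by
    have := abs_le.1 h.2
    constructor <;> linarith only [hε, e0, this, r0]
  obtain hkey : ∀ φ, V φ → key φ ∈ KS := by
    intro φ h
    have g := hpk φ y h.1
    obtain ct := (g.rf.ref 1 (by norm_num) le_rfl).ct
    have J1 : 1 ≤ FJ c Ex M y φ := ct.fc.J1
    have s0 : Fs c M y φ ≤ 0 := ct.hc.s0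
    have cΛ := Int.le_ceil Λ
    obtain a1 : ((FJ c Ex M y φ : ℤ) : ℝ) + 2 ≤ Λ :=
      (ct.fc.len _ (by show 0 ≤ FJ c Ex M y φ; omega) le_rfl).trans
        (ct.top _ (by show Fs c M y φ - 1 ≤ FJ c Ex M y φ; omega) le_rfl)
    obtain a2 : 2 - ((Fs c M y φ : ℤ) : ℝ) ≤ Λ :=
      (ct.hc.len _ (by show Fs c M y φ - 1 ≤ _; omega) s0).trans
        (ct.top _ (by show Fs c M y φ - 1 ≤ _; omega) (by show _ ≤ FJ c Ex M y φ; omega))
    obtain a3 : FJ c Ex M y φ ≤ ⌈Λ⌉ := by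
      obtain this : ((FJ c Ex M y φ : ℤ) : ℝ) ≤ (⌈Λ⌉ : ℤ) := by linarith only [cΛ, a1]
      exact_mod_cast this
    obtain a4 : -⌈Λ⌉ ≤ Fs c M y φ := by
      obtain this : ((-⌈Λ⌉ : ℤ) : ℝ) ≤ (Fs c M y φ : ℤ) := by push_cast; linarith only [cΛ, a2]
      exact_mod_cast this
    obtain bx : ∀ j, 0 ≤ j → j ≤ 1 → |(F φ).X j tU| ≤ B * ε := fun j h0 h1 => by
      obtain t1 : |(F φ).X j tU - (FR M φ).X j| ≤ 1 / c.S0 y ^ 2 :=
        g.tube tU (win φ h) j (by omega) (by omega)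
      have t2 := g.rf.pos j
      obtain t3 : 1 / c.S0 y ^ 2 ≤ 1 := by
        rw [div_le_one (by positivity)]; exact one_le_pow₀ S1
      have t4 := abs_sub_abs_le_abs_sub ((F φ).X j tU) ((FR M φ).X j)
      rw [Be]; linarith only [L1, t1, t2, t3, t4]
    exact mem_product.2 ⟨mem_product.2 ⟨mem_Icc.2 ⟨by show _ ≤ FJ c Ex M y φ; omega, a3⟩,
      mem_Icc.2 ⟨a4, by show Fs c M y φ ≤ _; omega⟩⟩, mem_product.2 ⟨mem_univ _, mem_product.2
        ⟨floor_mem_Icc e0 (bx 0 le_rfl zero_le_one), floor_mem_Icc e0 (bx 1 zero_le_one le_rfl)⟩⟩⟩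
  obtain B0 : 0 ≤ B := by rw [hB]; positivity
  obtain hcard : (KS.card : ℝ) + 1 ≤ c.S0 y ^ 8 := by
    obtain c1 := card_Icc_le (show 0 ≤ Λ by linarith only [L1, Λ1])
    have c2 := card_Icc_le B0
    have S3 : 1 ≤ c.S0 y ^ 3 := one_le_pow₀ S1
    obtain c3 : 2 * B + 3 ≤ Λ * c.S0 y ^ 3 := by rw [hB]; nlinarith only [L1, l1, S4, r3, hε, e0, S1, S3, b1, B0]
    obtain c4 : (KS.card : ℝ) ≤ (3 * Λ) * (3 * Λ) * (2 * ((Λ * c.S0 y ^ 3) * (Λ * c.S0 y ^ 3))) := by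
      simp only [KS, card_product, card_univ, Fintype.card_prop, Nat.cast_mul, Nat.cast_ofNat]
      gcongr <;> linarith only [L1, Λ1, c1, c2, c3]
    obtain c5 : 18 * Λ ^ 4 ≤ c.S0 y := by
      obtain this : 18 * Λ ^ 4 ≤ Λ ^ 5 := by nlinarith only [L1, Λ1, pow_pos (show 0 < Λ by linarith only [L1, Λ1]) 4]
      linarith only [ΛS, this]
    obtain c6 : (KS.card : ℝ) ≤ c.S0 y ^ 7 := by
      calc (KS.card : ℝ) ≤ 18 * Λ ^ 4 * c.S0 y ^ 6 := c4.trans_eq (by ring)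
        _ ≤ c.S0 y * c.S0 y ^ 6 := by (clear * - c5 S1; gcongr)
        _ = _ := by ring
    have S7 : 1 ≤ c.S0 y ^ 7 := one_le_pow₀ S1
    nlinarith only [S7, S4, S1, c6]
  let cl : Fd → Fin (KS.card + 1) := fun φ =>
    if h : key φ ∈ KS then (KS.equivFin ⟨key φ, h⟩).succ else 0
  obtain same : ∀ φ φ', V φ → V φ' → cl φ = cl φ' →
      SameC K E e c Ex M y tU φ (pk φ y).1 (F φ) φ' (pk φ' y).1 (F φ') := by
    intro φ φ' h h' hc
    simp only [cl, dif_pos (hkey φ h), dif_pos (hkey φ' h'), Fin.succ_inj,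
      EmbeddingLike.apply_eq_iff_eq, Subtype.mk.injEq, key, Prod.mk.injEq] at hc
    obtain ⟨⟨k1, k2⟩, k3, k4, k5⟩ := hc
    exact ⟨hpk φ y h.1, hpk φ' y h'.1, h.2, h'.2, k2.symm, k1.symm, iff_of_eq k3.symm,
      floor_close e0 k4.symm, floor_close e0 k5.symm⟩
  obtain t0 : |tU - tU| ≤ 3 / 2 * c.rU y := by rw [sub_self, abs_zero]; positivity
  obtain exn : ∀ H : Fin (KS.card + 1), ∃ ν : ℝ, ∀ φ, V φ → cl φ = H →
      |(F φ).η 1 tU - ν| ≤ c.rU y ∧ |ν| ≤ del c := by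
    intro H
    by_cases h : ∃ φ0, V φ0 ∧ cl φ0 = H
    · obtain ⟨φ0, v0, c0⟩ := h
      refine ⟨(F φ0).η 1 tU, fun φ v hc => ?_⟩
      obtain ⟨-, -, -, a, b, -⟩ :=
        (rpre M hM Ex y tU _ _ _ _ _ _ (same φ0 φ v0 v (c0.trans hc.symm))).2 tU t0
      exact ⟨a, b⟩
    · exact ⟨0, fun φ v hc => (h ⟨φ, v, hc⟩).elim⟩
  choose nu hnu using exn
  let lab : Fd → ℝ := fun φ => (F φ).X 1 tU - nu (cl φ) * (F φ).X 0 tU
  obtain labd : ∀ φ φ', cl φ = cl φ' → lab φ' - lab φ =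
      (F φ').X 1 tU - (F φ).X 1 tU - nu (cl φ) * ((F φ').X 0 tU - (F φ).X 0 tU) := fun φ φ' h => by
    simp only [lab, h]; ring
  obtain tri : ∀ a b ν : ℝ, |ν| ≤ 1 → |a - ν * b| ≤ |a| + |b| := fun a b ν h => by
    refine (abs_sub _ _).trans ?_
    rw [abs_mul]; nlinarith only [r3, hε, e0, h, abs_nonneg b]
  obtain labr : ∀ φ φ', V φ → V φ' → cl φ = cl φ' → |lab φ' - lab φ| ≤ c.rU y := fun φ φ' v v' h => by
    have s := same φ φ' v v' h
    rw [labd φ φ' h]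
    have := tri ((F φ').X 1 tU - (F φ).X 1 tU) ((F φ').X 0 tU - (F φ).X 0 tU) _
      ((hnu _ φ v rfl).2.trans d1)
    linarith only [r0, this, s.c0, s.v0]
  have cnt := fun H : Fin (KS.card + 1) => rll M hM.ok Ex y tU {φ // V φ ∧ cl φ = H} (fun z => z.1)
    (fun z => (pk z.1 y).1) (fun z => lab z.1) hy (fun z => (hpk _ y z.2.1.1).rf) (fun z => z.2.1.2)
    (fun z z' => (same _ _ z.2.1 z'.2.1 (z.2.2.trans z'.2.2.symm)).hs) (fun z z' => by
      have hc := z.2.2.trans z'.2.2.symm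
      have s := same _ _ z.2.1 z'.2.1 hc
      have n1 := hnu _ _ z.2.1 rfl
      have A := rta M hM Ex y tU _ _ _ _ _ _ s tU t0 0 (Nat.zero_le _)
      have T := tri ((F z'.1).X 1 tU - (F z.1).X 1 tU) ((F z'.1).X 0 tU - (F z.1).X 0 tU) _
        (n1.2.trans d1)
      simp only [dj, iteratedDeriv_zero] at A
      refine ⟨(rpre M hM Ex y tU _ _ _ _ _ _ s).1, (labr _ _ z.2.1 z'.2.1 hc).trans r3,
        fun i h1 h2 h3 => ?_, fun h => ?_, fun j h1 h2 h3 h4 => ?_⟩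
      · rw [labd _ _ hc]; linarith only [T, (A.1 i h1 h2 h3).1, (A.1 i h1 h2 h3).2]
      · rw [labd _ _ hc]; linarith only [T, (A.2 h).1, (A.2 h).2]
      · rw [labd _ _ hc]
        exact (rtb M hM Ex y tU _ _ _ _ _ _ _ s n1.1 j h1 h2 h3 h4 tU t0).1)
  refine ⟨KS.card + 1, cl, nu, lab, by push_cast; exact hcard, fun φ h ht => ?_,
    fun φ φ' h h' ht ht' hc => ⟨labr φ' φ ⟨h', ht'⟩ ⟨h, ht⟩ hc.symm, fun t htt => ?_⟩,
    fun H x l1 l2 h1 h2 => ?_, fun H l hl => ?_⟩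
  · have v : V φ := ⟨h, ht⟩
    have n1 := hnu _ φ v rfl
    obtain ⟨-, -, a, -⟩ := (rpre M hM Ex y tU _ _ _ _ _ _ (same φ φ v v rfl)).2 φ.t (by linarith only [r0, ht])
    refine ⟨?_, n1.2⟩
    rw [rnu M hM Ex y φ _ _ (hpk φ y h)]
    have := abs_sub_le ((F φ).η 1 φ.t) ((F φ).η 1 tU) (nu (cl φ))
    linarith only [r2, a, this, n1.1]
  · have n1 := hnu _ φ' ⟨h', ht'⟩ hc.symm
    obtain this := rtw M hM Ex y tU _ _ _ _ _ _ (nu (cl φ)) (lab φ - lab φ')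
      (same φ' φ ⟨h', ht'⟩ ⟨h, ht⟩ hc.symm) n1.1 (n1.2.trans d1) (by rw [labd φ' φ hc.symm, hc]) t htt
    exact this
  · obtain ⟨T, a, b⟩ := (cnt H).1 x l1 l2 h1 h2
    exact ⟨T, a, fun z ⟨hz, φ, o1, o2, o3, o4⟩ => b ⟨hz, ⟨φ, ⟨o1, o2⟩, o3⟩, o4⟩⟩
  · obtain ⟨T, a, b⟩ := (cnt H).2 l hl
    exact ⟨T, a, fun z ⟨φ, o1, o2, o3, o4, o5⟩ => b ⟨⟨φ, ⟨o1, o2⟩, o3⟩, o4, o5⟩⟩

end
end Pool.Agent.MP_9cbfe4_an.SS

end

/-! ### Part FI -/

section

/-! Interface of section F (helper57): the covering machine and the three measure estimates. -/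

namespace Pool.Agent.MP_9cbfe4_an

open Finset Filter Topology MeasureTheory

noncomputable section

/-- relative step of the levels -/
def Cs.io (c : Cs) (K : ℕ) : ℝ := c.th / (20 * K)

/-- inequalities between the constants -/
structure FNum (K : ℕ) (c : Cs) : Prop where
  hK : 10 ≤ K
  hκ : 10 ≤ c.κ
  hθ : 0 < c.θb ∧ c.θb < 1
  hd : 0 < c.dpl ∧ c.dpl < 1 ∧ 100 * K * (1 - c.θb) ≤ 1 - c.dpl
  hG : 1 ≤ c.CG
  hC0 : 10 ^ 6 * (K : ℝ) ^ 3 * (c.κ + 1) * c.CG ≤ c.C0 * (1 - c.θb)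
  hC1 : 1000 * K * c.C0 ≤ c.C1
  he : 0 < c.e3 ∧ 10 ^ 6 * (K : ℝ) ^ 3 * (c.κ + 1) * c.C0 * c.C1 * c.e3 ≤ 1 - c.θb
  hI : c.e3 * (40 * K * c.C0 * Real.log (100 / (c.e3 ^ 20 * (1 - c.θb)))) ≤ 1
  hε : c.ε = c.e3 ^ 20
  ha : 0 < c.a ∧ 1000 * c.C0 * Real.sqrt c.a ≤ c.e3 ^ 25
  hdel : 0 < c.del ∧ 1000 * c.del ≤ c.e3 ^ 25
  hM : 1000 * c.C0 ≤ c.M1 * c.e3 ^ 25
  hβ : 1000 * c.C0 * c.C1 * c.M1 ≤ c.β * c.e3 ^ 25
  hl : 1000 * c.β * (1 + Real.log c.lam) ≤ c.lam * c.e3 ^ 25 ∧ 1 ≤ Real.log c.lam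
  hL : Real.exp c.lam = c.L
  hS : 1000 ≤ Real.sqrt c.a * c.lam

def FNUM_s (K : ℕ) (c : Cs) : Prop := First K c → FNum K c

/-- standing hypotheses -/
structure Ctx (K : ℕ) (c : Cs) (M : Mdl) (sd : Fd → ℝ → Seed) : Prop where
  first : First K c
  num : FNum K c
  okk : M.OKk c (K + 6)
  seeds : Seeds K c (Ex2 K c M) M sd

namespace Prof
variable (K : ℕ) (c : Cs) (π : Prof)
/-- last free time -/
def top : ℤ := π.T.fold max 1 id
open Classical in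
/-- last free time of level `≤ u` -/
def nb (u : ℝ) : ℤ := (π.T.filter fun k => π.Wr k + 1 ≤ u).fold max 1 id
/-- base time of the stage of level `w` -/
def bs (w : ℝ) : ℤ := π.nb (w - 3 * c.io K * w)
/-- last time seen by the stage of level `w` -/
def tp (w : ℝ) : ℤ := π.nb ((1 + c.io K) * w)
/-- bound for the depths before the time `j` -/
def Rb (j : ℤ) : ℝ := (π.T.filter fun k => k < j).fold max c.cc fun k => (π.sr k : ℝ)
/-- the clip -/
def cl (σ : ℝ) (j : ℤ) : ℕ := ⌈(2 + 2 * c.th) * π.Rb c j + 4 * σ⌉₊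
def SR : ℝ := ∑ k ∈ π.T.filter fun k => k < π.top, (π.sr k : ℝ)
def Cross (w : ℝ) : Prop :=
  π.bs K c w < π.tp K c w ∧ w / (100 * K) < π.Wr (π.tp K c w) - π.Wr (π.bs K c w)
def Long (w : ℝ) : Prop :=
  π.tp K c w = π.bs K c w ∧ w / (100 * K) ≤ (1 + c.io K) * w - π.lw (π.bs K c w)
/-- the level `w` is charged to the step at time `k` -/
def Chg (k : ℤ) (w : ℝ) : Prop := k ∈ π.T ∧ k < π.top ∧
  |w - (π.lw k + π.sr k)| ≤ 10 * c.th * K * π.sr k ∧ c.io K * w ≤ 10 * c.th * K * π.sr k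
/-- events seen by the stage of level `w` -/
def LocS (σ w : ℝ) : ℝ := π.Loc c (w - 6 * σ) ((1 + c.io K) * w - 6 * σ)

/-- numeric facts on a profile -/
structure OK (σ V : ℝ) : Prop where
  one : 1 ∈ π.T ∧ π.Wr 1 = 0
  rng : ∀ k ∈ π.T, 1 ≤ k ∧ 0 ≤ π.Wr k ∧ π.Wr k ≤ V
  mono : ∀ k ∈ π.T, ∀ k' ∈ π.T, k ≤ k' → π.Wr k ≤ π.Wr k'
  lw : ∀ k ∈ π.T, π.Wr k - σ / 2 ≤ π.lw k ∧ π.lw k ≤ π.Wr k + σ / 2
  later : ∀ k ∈ π.T, ∀ k' ∈ π.T, k < k' → π.lw k + π.sr k ≤ π.Wr k' + 2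
  next : ∀ k ∈ π.T, k < π.top → ∃ k' ∈ π.T, k < k' ∧ (∀ l ∈ π.T, k < l → k' ≤ l) ∧
    π.Wr k' ≤ π.lw k + π.sr k + σ
  last : V ≤ π.lw π.top + π.sr π.top + σ
  cap : ∀ k ∈ π.T, (π.sr k : ℝ) ≤ (c.κ + 1) * (π.Wr k + σ)
  lev : ∀ k ∈ π.T, π.lw k + π.sr k ≤ V + σ

/-- facts on the base time of one level -/
structure Nb (σ w : ℝ) : Prop where
  mem : π.bs K c w ∈ π.T
  hi : π.Wr (π.bs K c w) + 1 ≤ w - 3 * c.io K * w
  aft : ∀ k ∈ π.T, π.bs K c w < k → w - 3 * c.io K * w - 1 ≤ π.Wr k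
  jmp : w - 3 * c.io K * w - 1 ≤ π.lw (π.bs K c w) + π.sr (π.bs K c w) + σ
  lo : w / (2 * c.κ + 4) ≤ π.Wr (π.bs K c w)

/-- facts on one stage -/
structure Nb2 (σ w : ℝ) : Prop where
  mem : π.tp K c w ∈ π.T
  hi : π.Wr (π.tp K c w) + 1 ≤ (1 + c.io K) * w
  mx : ∀ k ∈ π.T, π.Wr k + 1 ≤ (1 + c.io K) * w → k ≤ π.tp K c w
  ord : π.bs K c w ≤ π.bs K c ((1 + c.io K) * w) ∧ π.bs K c ((1 + c.io K) * w) ≤ π.tp K c w
  cross : π.Cross K c w → ∃ k, π.Chg K c k w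
  short : ¬ π.Cross K c w → ¬ π.Long K c w → (1 + c.io K) * w - π.lw (π.bs K c w) ≤ w / (50 * K) ∧
    π.Wr (π.tp K c w) - π.Wr (π.bs K c w) ≤ w / (100 * K)
  long : π.Long K c w → 3 ≤ π.rr (π.bs K c w) ∧
    (1 + c.io K) * w - π.lw (π.bs K c w) - σ - 2 ≤ π.rr (π.bs K c w)
end Prof

/-- row NB (numeric) -/
def NB_s (K : ℕ) (c : Cs) : Prop := FNum K c → ∀ (π : Prof) (σ V w : ℝ), π.OK c σ V →
  c.C1 * c.lam ≤ σ → σ ≤ c.e3 * w → w + 3 * σ ≤ V →
  π.Nb K c σ w ∧ ((1 + c.io K) * w + 3 * σ ≤ V → π.Nb2 K c σ w)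

namespace Dat
variable (K : ℕ) (c : Cs) (M : Mdl) (sd : Fd → ℝ → Seed) (d : Dat)

def tt : ℝ := d.t
def xV : ℝ := (d.S M).xx c d.n (d.V c M)

/-- facts on a high datum -/
structure Fe : Prop where
  el : ∀ x ∈ d.Lf, d.El c (Ex2 K c M) M x
  ok : ∀ σ, d.s0 c M ≤ σ → (d.prof c M).OK c σ (d.V c M)
  top : (d.prof c M).top = d.p - d.n
  ent : ∀ x ∈ d.Lf, x.1 - d.n ∈ (d.prof c M).T ∧ 0 < d.wq M x.1 ∧
    (d.prof c M).Wr (x.1 - d.n) ≤ d.W c M x.1 ∧ d.W c M x.1 ≤ (d.prof c M).Wr (x.1 - d.n) + 1 ∧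
    Real.exp ((d.prof c M).lw (x.1 - d.n)) ≤ d.wq M x.1 ∧
    d.wq M x.1 ≤ Real.exp ((d.prof c M).lw (x.1 - d.n) + 1) ∧
    x.2 ≤ max c.cc ((d.prof c M).sr (x.1 - d.n)) ∧
    ((d.prof c M).sr (x.1 - d.n) ≠ 0 → ((d.prof c M).sr (x.1 - d.n) : ℝ) - 1 ≤ x.2)
  mem : ∀ k ∈ (d.prof c M).T, (∃ r, (d.n + k, r) ∈ d.Lf) ∧
    (k < (d.prof c M).top → ∃ r, (d.n + k, r) ∈ d.Ls)
  lt : ∀ x ∈ d.Ls, x.1 < d.p
  rb : ∀ x ∈ d.Ls, ∀ j, x.1 < d.n + j → x.2 ≤ (d.prof c M).Rb c j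
  lev : d.y c M / c.C0 ≤ d.V c M ∧ d.V c M ≤ d.y c M / c.C0 + 1 ∧ c.bl / (2 * c.C0) ≤ d.V c M
  sl : c.e3 ^ 22 * d.V c M + c.C1 * c.lam ≤ d.s0 c M ∧ d.s0 c M ≤ c.e3 * d.V c M ∧
    30 * Real.sqrt c.a * d.y c M ≤ d.s0 c M ∧ 10 * (d.Lf.length : ℝ) ≤ d.s0 c M
  xp : ∀ x ∈ d.Lf, 100 * c.ε' * (d.S M).xp c d.n x.1 ≤ d.s0 c M
  sr : (d.prof c M).SR ≤ 16 * min (d.xV c M) (d.V c M + c.lam)
  rx : ∀ j, j ≤ d.p - d.n → (d.prof c M).Rb c j ≤ 3 * d.xV c M
  rho : (d.S M).rho d.ξ d.n d.p ^ 2 * Real.exp (d.V c M) ≤ c.L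
  fok : d.toFd.OK c (Ex2 K c M) M (d.y c M)
  sok : (d.seed c M sd).OK K c (Ex2 K c M) M (d.y c M) d.toFd
  deep : ∀ j ∈ (d.prof c M).T, 3 ≤ (d.prof c M).rr j →
    d.toFd.Deep c (Ex2 K c M) M (d.n + j) ((d.prof c M).rr j)
  near : ∀ x ∈ d.Lf, d.s0 c M ≤ d.W c M x.1 → d.W c M x.1 + d.s0 c M ≤ d.V c M →
    ∃ h, (d.seed c M sd).orb M d.t = d.toFd.R M ((d.seed c M sd).c d.t) h ∧
      d.toFd.Near c M ((d.seed c M sd).c d.t) h x.1 (d.V c M)
  ld : 0 ≤ d.ld c M ∧ (d.S M).load c d.n (d.y c M / c.C0) ≤ d.ld c M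

/-- good datum -/
structure Gd : Prop where
  pre : d.Pre c (Ex2 K c M) M
  high : d.High c M
  fe : d.Fe K c M sd
  jf : d.JF K c M sd

open Classical in
/-- the critical curve subtracted at the relative time `j` -/
def cf (j : ℤ) : ℝ → ℝ := if 3 ≤ (d.prof c M).rr j then
  d.toFd.crt c M sd (d.n + j) ((d.prof c M).rr j) else fun _ => 0
def ph (j : ℤ) (t : ℝ) : ℝ := d.g c M sd (d.n + j) t - d.cf c M sd j t
/-- the scale of the level `w` is `exp (-ks)` -/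
def ks (σ w : ℝ) : ℕ := sInf {k : ℕ | (d.prof c M).cl c σ ((d.prof c M).bs K c w) ≤ k ∧
  Nj K (d.ph c M sd ((d.prof c M).bs K c w)) d.t (Real.exp (-k))
    ≤ Real.exp ((d.prof c M).lw ((d.prof c M).bs K c w) - w)}
structure Lev (σ w : ℝ) : Prop where
  s : d.s0 c M ≤ σ
  lo : σ ≤ c.e3 * w
  hi : w + 3 * σ ≤ d.V c M

/-- facts on the scale `D` of the level `w`; `j` base time, `B = exp (lw j - w)` -/
structure Sc (σ w : ℝ) (j : ℤ) (k : ℕ) (D B : ℝ) : Prop where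
  rng : (d.prof c M).cl c σ j ≤ k ∧ (k : ℝ) ≤ d.y c M / 100
  small : D ≤ Real.exp (-(w / (2 * K))) ∧
    D * Real.exp (2 * (d.prof c M).Rb c j) ≤ Real.exp (-(3 * c.io K * w))
  val : d.Val K c M sd σ (d.n + j) D (Real.exp (-w) + D / d.wq M (d.n + j)) ((d.prof c M).Rb c j)
  nuA : (Real.exp (-w) + D / d.wq M (d.n + j)) * Real.exp (d.W c M (d.n + j))
    ≤ 2 * Real.exp (-(3 * c.io K * w))
  up : Nj K (d.ph c M sd j) d.t D ≤ B
  chain : DChain (fun i => iteratedDeriv i (d.ph c M sd j)) (K + 1) (Set.Icc (d.t - D) (d.t + D))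
  rem : ∀ τ ∈ Set.Icc (d.t - D) (d.t + D),
    |iteratedDeriv (K + 1) (d.ph c M sd j) τ| * D ^ (K + 1) ≤ Nj K (d.ph c M sd j) d.t D
  free : k ≠ (d.prof c M).cl c σ j → Real.exp (-K) * B ≤ Nj K (d.ph c M sd j) d.t D ∧
    B < Nj K (d.ph c M sd j) d.t (Real.exp 1 * D)
  clip : k = (d.prof c M).cl c σ j → ∃ i, (d.prof c M).Chg K c i w
  /-- the subtracted curve on the window of radius `exp (-σ)` -/
  lip : ∀ τ τ', |τ - d.t| ≤ Real.exp (-σ) → |τ' - d.t| ≤ Real.exp (-σ) →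
    |d.cf c M sd j τ - d.cf c M sd j τ'| ≤ |τ - τ'| / 10
  jg : ∀ D', 0 ≤ D' → D' ≤ 1 →
    |Nj K (d.ph c M sd j) d.t D' - Nj K (d.g c M sd (d.n + j)) d.t D'| ≤ D' / 10

/-- `Sc` at the canonical values -/
def ScAt (σ w : ℝ) : Prop := d.Sc K c M sd σ w ((d.prof c M).bs K c w) (d.ks K c M sd σ w)
  (Real.exp (-(d.ks K c M sd σ w : ℝ))) (Real.exp ((d.prof c M).lw ((d.prof c M).bs K c w) - w))

def Waste (σ w : ℝ) : Prop :=
  d.ks K c M sd σ w = (d.prof c M).cl c σ ((d.prof c M).bs K c w) ∨ (d.prof c M).Cross K c w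

/-- transversal coordinate of the seed of `z` seen from `d` -/
def dl (z : Dat) : ℝ := ((z.seed c M sd).v d.t - (d.seed c M sd).v d.t)
  - d.nuJ c M sd * ((z.seed c M sd).c d.t - (d.seed c M sd).c d.t)
/-- target of `z` for the anchor `d` -/
def tg (j : ℤ) (z : Dat) : ℝ := (z.S M).X (z.n + j) - d.cf c M sd j z.t
end Dat

/-- row FFE -/
def FFE_s (K : ℕ) (c : Cs) : Prop := ∀ M sd, Ctx K c M sd → ∀ d : Dat, d.Pre c (Ex2 K c M) M →
  d.High c M → d.Fe K c M sd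

/-- row SC -/
def SC_s (K : ℕ) (c : Cs) : Prop := ∀ M sd, Ctx K c M sd → ∀ (d : Dat) σ w, d.Gd K c M sd →
  d.Lev c M σ w → d.ScAt K c M sd σ w

/-- row CMP: two consecutive scales -/
def CMP_s (K : ℕ) (c : Cs) : Prop := ∀ M sd, Ctx K c M sd → ∀ (d : Dat) σ w w', d.Gd K c M sd →
  w' = (1 + c.io K) * w → d.Lev c M σ w → d.Lev c M σ w' →
  (d.ks K c M sd σ w : ℝ) ≤ d.ks K c M sd σ w' + 3 * c.io K * w + 2 * σ ∧
  (¬ d.Waste K c M sd σ w → d.ks K c M sd σ w ≤ d.ks K c M sd σ w' ∧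
    ∀ τ, |τ - d.t| ≤ Real.exp (-(d.ks K c M sd σ w' : ℝ)) →
      |d.ph c M sd ((d.prof c M).bs K c w) τ - d.ph c M sd ((d.prof c M).bs K c w) d.t|
        ≤ Real.exp (2 * σ + (d.prof c M).lw ((d.prof c M).bs K c w) - w'))

/-- good data of one level, one window, one class and one profile -/
structure Fam (K : ℕ) (c : Cs) (M : Mdl) (sd : Fd → ℝ → Seed) (y tU nu : ℝ) (lab : Dat → ℝ)
    (π : Prof) (C : Set Dat) : Prop where
  gd : ∀ z ∈ C, z.Gd K c M sd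
  lvl : ∀ z ∈ C, z.y c M = y ∧ |z.t - tU| ≤ c.rU y ∧ z.prof c M = π
  nu_eq : ∀ z ∈ C, |z.nuJ c M sd - nu| ≤ 1 / (2 * c.S0 y ^ 2) ∧ |nu| ≤ Real.exp (-c.bl / 4)
  two : ∀ z ∈ C, ∀ z' ∈ C, |lab z - lab z'| ≤ c.rU y ∧ ∀ t, |t - tU| ≤ 3 / 2 * c.rU y →
    |(z.seed c M sd).v t - (z'.seed c M sd).v t
        - nu * ((z.seed c M sd).c t - (z'.seed c M sd).c t) - (lab z - lab z')|
      ≤ |lab z - lab z'| / 100 + tiny y ∧
    ∀ j : ℕ, j ≤ 3 →
      |iteratedDeriv j (z.seed c M sd).v t - iteratedDeriv j (z'.seed c M sd).v t|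
        ≤ c.S0 y * |lab z - lab z'| + tiny y ∧
      |iteratedDeriv j (z.seed c M sd).c t - iteratedDeriv j (z'.seed c M sd).c t|
        ≤ c.S0 y * |lab z - lab z'| + tiny y
  loc : ∀ x l1 l2 : ℝ, tiny y ≤ l2 → l2 ≤ l1 →
    CovI {u | u ∈ Set.Icc x (x + l1) ∧ ∃ z ∈ C, lab z = u} (c.S0 y * (l1 / l2) ^ c.dpl) l2
  low : ∀ l : ℝ, 0 ≤ l →
    CovI {u | ∃ z ∈ C, (z.S M).load c z.n (y / c.C0) ≤ l ∧ lab z = u} (c.S0 y * 2 ^ l) (tiny y)

/-- a family inside one cell of the stage of level `w`, with common scales `k`, `k'` -/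
structure Zone (K : ℕ) (c : Cs) (M : Mdl) (sd : Fd → ℝ → Seed) (y tU nu : ℝ) (lab : Dat → ℝ)
    (π : Prof) (C : Set Dat) (σ w w' : ℝ) (k k' : ℕ) : Prop where
  fam : Fam K c M sd y tU nu lab π C
  hw : w' = (1 + c.io K) * w
  lev : ∀ z ∈ C, z.Lev c M σ w ∧ z.Lev c M σ w'
  ks : ∀ z ∈ C, z.ks K c M sd σ w = k ∧ z.ks K c M sd σ w' = k'
  tt : ∀ z ∈ C, ∀ z' ∈ C, |z.t - z'.t| ≤ Real.exp (-(k : ℝ)) / 8
  ll : ∀ z ∈ C, ∀ z' ∈ C, |lab z - lab z'| ≤ Real.exp (-w)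

/-- row ZON: static leaves -/
def ZON_s (K : ℕ) (c : Cs) : Prop := ∀ M sd, Ctx K c M sd → ∀ y tU nu lab π C σ w w' k k',
  Zone K c M sd y tU nu lab π C σ w w' k k' → ∀ a ∈ C, ∀ z ∈ C,
  (∀ τ, |τ - a.t| ≤ Real.exp (-(k : ℝ)) →
    |z.g c M sd (z.n + π.bs K c w) τ - a.g c M sd (a.n + π.bs K c w) τ
      - a.dl c M sd z * a.xs c M sd (a.n + π.bs K c w)| ≤ Real.exp (π.lw (π.bs K c w) - w')) ∧
  ∀ z' ∈ C, |a.dl c M sd z - a.dl c M sd z' - (lab z - lab z')| ≤ |lab z - lab z'| / 50 + 2 * tiny y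

/-- row REL: the true orbits of one zone -/
def REL_s (K : ℕ) (c : Cs) : Prop := ∀ M sd, Ctx K c M sd → ∀ y tU nu lab π C σ w w' k k',
  Zone K c M sd y tU nu lab π C σ w w' k k' → ∀ z ∈ C,
  |(z.S M).X (z.n + π.bs K c w) - z.g c M sd (z.n + π.bs K c w) z.t|
    ≤ Real.exp (π.lw (π.bs K c w) - w') ∧ ∀ z' ∈ C,
  (∀ i, z.n < i → i ≤ z.n + π.bs K c w →
    |(z'.S M).X (i - z.n + z'.n) - (z.S M).X i| ≤ Real.exp (-σ / 3)) ∧
  (w' - π.lw (π.bs K c w) ≤ w / (50 * K) →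
    |(z'.S M).X (z'.n + π.bs K c w) - (z.S M).X (z.n + π.bs K c w)|
      ≤ Real.exp (2 * σ + π.lw (π.bs K c w) - w) ∧
    ∀ κ, (c.lam ≤ κ ∨ (5 / 100 ≤ dP ((z.S M).X (z.n + π.bs K c w)) ∧ 1 / (5 * c.lam) ≤ κ)) →
      (z.S M).Rel c (z'.S M) (z.toFd.f M) (z'.toFd.f M) (z.n + π.bs K c w) (z'.n + π.bs K c w)
        (14 / 1000) κ (Real.exp (π.lw (π.bs K c w)) * Real.exp (-(w' - 6 * σ) - 10)) (1 / 1000))

/-- the target set of a regular stage -/
def VolC (K : ℕ) (c : Cs) (M : Mdl) (sd : Fd → ℝ → Seed) (π : Prof) (C : Set Dat) (σ w w' : ℝ)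
    (k' : ℕ) (a : Dat) : Prop :=
  volume (⋃ z ∈ C, Metric.closedBall (a.tg c M sd (π.bs K c w) z)
      (Real.exp (π.lw (π.bs K c w) - w' + 6 * σ - 1)))
    ≤ ENNReal.ofReal (Real.exp (7 * σ + π.lw (π.bs K c w) - w - π.LocS K c σ w)) ∧
  ∀ z ∈ C, ∀ τ, |τ - z.t| ≤ Real.exp (-(k' : ℝ)) / 8 →
    |z.g c M sd (z.n + π.bs K c w) τ - a.cf c M sd (π.bs K c w) τ - a.tg c M sd (π.bs K c w) z|
      ≤ Real.exp (3 * σ + π.lw (π.bs K c w) - w')

/-- row VOLS: short stages -/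
def VOLS_s (K : ℕ) (c : Cs) : Prop := ∀ M sd, Ctx K c M sd → ∀ y tU nu lab π C σ w w' k k',
  Zone K c M sd y tU nu lab π C σ w w' k k' → k ≠ π.cl c σ (π.bs K c w) → ¬ π.Cross K c w →
  ¬ π.Long K c w → ∀ a ∈ C, VolC K c M sd π C σ w w' k' a

/-- row VOLL: long stages -/
def VOLL_s (K : ℕ) (c : Cs) : Prop := ∀ M sd, Ctx K c M sd → ∀ y tU nu lab π C σ w w' k k',
  Zone K c M sd y tU nu lab π C σ w w' k k' → k ≠ π.cl c σ (π.bs K c w) →
  π.Long K c w → ∀ a ∈ C, VolC K c M sd π C σ w w' k' a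

/-- row REG: one regular stage -/
def REG_s (K : ℕ) (c : Cs) : Prop := ∀ M sd, Ctx K c M sd → ∀ y tU nu lab π C σ w w' k k',
  Zone K c M sd y tU nu lab π C σ w w' k k' → k ≠ π.cl c σ (π.bs K c w) → ¬ π.Cross K c w →
  ∀ x θ dd l', (∀ z ∈ C, z.t ∈ Set.Icc x (x + Real.exp (-(k : ℝ)) / 8)) →
  ((θ = 1 ∧ 0 ≤ dd ∧ l' = Real.exp (-w')) ∨ (θ = 0 ∧ dd = 0 ∧ 0 < l' ∧ l' ≤ Real.exp (-w'))) →
  CovI (lab '' C) (c.S0 y * Real.exp (dd * (w' - w))) l' →
  Cov Dat.tt lab C (Real.exp (-(k' : ℝ)) / 8) l'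
    (Real.exp (20 * σ + θ * (w' - w - π.LocS K c σ w) + (dd * (w' - w) - π.LocS K c σ w) / K)
      * (Real.exp (-(k : ℝ)) / Real.exp (-(k' : ℝ))))

/-- the two label regimes -/
def LabH (c : Cs) (y θ dd : ℝ) (dl : ℝ → ℝ) : Prop :=
  (θ = 1 ∧ dd = c.dpl ∧ dl = fun w => Real.exp (-w)) ∨ (θ = 0 ∧ dd = 0 ∧ dl = fun _ => tiny y)

/-- hypotheses of the machine -/
structure MachH (K : ℕ) (c : Cs) (M : Mdl) (sd : Fd → ℝ → Seed) (y tU nu : ℝ) (lab : Dat → ℝ)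
    (π : Prof) (C : Set Dat) (σ w0 θ dd N0 E Sr : ℝ) (dl : ℝ → ℝ) (I : ℕ) : Prop where
  fam : Fam K c M sd y tU nu lab π C
  hI : (I : ℝ) ≤ 1 / c.e3
  lev : ∀ z ∈ C, ∀ i ≤ I, z.Lev c M σ (w0 * (1 + c.io K) ^ i)
  top : ∀ z ∈ C, z.V c M ≤ w0 * (1 + c.io K) ^ I + 3 * σ + 1
  ev : ∀ z ∈ C, E ≤ z.ev c M
  sr : π.SR ≤ Sr
  reg : LabH c y θ dd dl
  cov : CovI (lab '' C) N0 (dl w0)

def MachB (K : ℕ) (c : Cs) (w0 θ dd E Sr : ℝ) (I : ℕ) : ℝ :=
  (θ + dd / K) * (w0 * (1 + c.io K) ^ I) - (θ + 1 / K) * ((1 - 7 * c.e3) * E - w0)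
    + 210 * c.th * K * Sr

/-- row MACH1: the chain of stages for a family with common scales -/
def MACH1_s (K : ℕ) (c : Cs) : Prop := ∀ M sd, Ctx K c M sd →
  ∀ y tU nu lab π C σ w0 θ dd N0 E Sr dl I, MachH K c M sd y tU nu lab π C σ w0 θ dd N0 E Sr dl I →
  ∀ kk : ℕ → ℕ, (∀ z ∈ C, ∀ i ≤ I, z.ks K c M sd σ (w0 * (1 + c.io K) ^ i) = kk i) →
  volume (Dat.tt '' C) ≤ ENNReal.ofReal (N0 * Real.exp (45 * σ / c.e3 + MachB K c w0 θ dd E Sr I))

/-- row MACH -/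
def MACH_s (K : ℕ) (c : Cs) : Prop := ∀ M sd, Ctx K c M sd →
  ∀ y tU nu lab π C σ w0 θ dd N0 E Sr dl I, MachH K c M sd y tU nu lab π C σ w0 θ dd N0 E Sr dl I →
  volume (Dat.tt '' C) ≤ ENNReal.ofReal (N0 * Real.exp (50 * σ / c.e3 + MachB K c w0 θ dd E Sr I))

/-- row DEC: decomposition of one level into families -/
def DEC_s (K : ℕ) (c : Cs) : Prop := ∀ M sd, Ctx K c M sd → ∀ (y B : ℝ) (P : Set Dat), 0 ≤ B →
  (∀ z ∈ P, z.Gd K c M sd ∧ z.y c M = y) →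
  (∀ tU nu lab π C, C ⊆ P → Fam K c M sd y tU nu lab π C → volume (Dat.tt '' C) ≤ ENNReal.ofReal B) →
  volume (Dat.tt '' P) ≤ ENNReal.ofReal (Real.exp (c.e3 ^ 21 * (y / c.C0)) * B)

/-- row FS -/
def FSG_s (K : ℕ) (c : Cs) : Prop := ∀ M sd, Ctx K c M sd →
  volume (Dat.tt '' {d | d.Gd K c M sd ∧ d.BadS c M}) ≤ 1 / 30
/-- row F3 -/
def F3G_s (K : ℕ) (c : Cs) : Prop := ∀ M sd, Ctx K c M sd →
  volume (Dat.tt '' {d | d.Gd K c M sd ∧ d.Bad3 c M}) ≤ 1 / 30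

namespace Dat
variable (K : ℕ) (c : Cs) (M : Mdl) (sd : Fd → ℝ → Seed) (d : Dat)
/-- jet level for C5 -/
def B5 (σ : ℝ) : ℝ :=
  Real.exp ((d.prof c M).lw (d.p - d.n) - ((d.prof c M).Wr (d.p - d.n) + 1 + 3 * σ))
def k5 (σ : ℝ) : ℕ := sInf {k : ℕ | (d.prof c M).cl c σ (d.p - d.n) ≤ k ∧
  Nj K (d.g c M sd d.p) d.t (Real.exp (-k)) ≤ d.B5 c M σ}
/-- facts on a violation of C5; `W` rounded level at `p`, `D` scale, `B` jet level -/
structure Sc5 (σ W D B : ℝ) (k : ℕ) : Prop where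
  lev : d.V c M ≤ (2 * c.κ + 4) * W ∧ c.C7 K * d.ld c M ≤ W + 1 ∧ (k : ℝ) ≤ d.y c M / 100
  val : d.Val K c M sd σ d.p D (Real.exp (-(W + 1 + 3 * σ))) ((d.prof c M).Rb c (d.p - d.n))
  up : Nj K (d.g c M sd d.p) d.t D ≤ B
  lo : Real.exp (-K) * B ≤ Nj K (d.g c M sd d.p) d.t D
  chain : DChain (fun i => iteratedDeriv i (d.g c M sd d.p)) (K + 1) (Set.Icc (d.t - D) (d.t + D))
  rem : ∀ τ ∈ Set.Icc (d.t - D) (d.t + D),
    |iteratedDeriv (K + 1) (d.g c M sd d.p) τ| * D ^ (K + 1) ≤ Nj K (d.g c M sd d.p) d.t D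
  slow : |deriv (d.g c M sd d.p) d.t| * D ≤ Real.exp (-(W / (3 * K))) * B
def Sc5At (σ : ℝ) : Prop := d.Sc5 K c M sd σ ((d.prof c M).Wr (d.p - d.n))
  (Real.exp (-(d.k5 K c M sd σ : ℝ))) (d.B5 c M σ) (d.k5 K c M sd σ)
end Dat

/-- row SC5 -/
def SC5_s (K : ℕ) (c : Cs) : Prop := ∀ M sd, Ctx K c M sd → ∀ (d : Dat) σ, d.Gd K c M sd →
  d.Bad5 c M K → d.s0 c M ≤ σ → σ ≤ 2 * c.e3 * d.V c M → d.Sc5At K c M sd σ

/-- row CEL5: one cell -/
def CEL5_s (K : ℕ) (c : Cs) : Prop := ∀ M sd, Ctx K c M sd → ∀ y tU nu lab π C σ (k : ℕ) x y0,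
  Fam K c M sd y tU nu lab π C →
  (∀ z ∈ C, z.Bad5 c M K ∧ z.s0 c M ≤ σ ∧ σ ≤ 2 * c.e3 * z.V c M ∧ z.k5 K c M sd σ = k ∧
    z.t ∈ Set.Icc x (x + Real.exp (-(k : ℝ)) / 8) ∧ lab z ∈ Set.Icc y0 (y0 + tiny y)) →
  Cov Dat.tt lab C (4 * Real.exp (-(π.Wr π.top / (4 * K ^ 2))) * Real.exp (-(k : ℝ))) (tiny y) (2 ^ K)

/-- row F5 -/
def F5G_s (K : ℕ) (c : Cs) : Prop := ∀ M sd, Ctx K c M sd →
  volume (Dat.tt '' {d | d.Gd K c M sd ∧ d.Bad5 c M K}) ≤ 1 / 30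

end
end Pool.Agent.MP_9cbfe4_an

end

/-! ### Part FGl -/

section

/-! Section F: from good data to the statements of `Def3`. -/

namespace Pool.Agent.MP_9cbfe4_an

open MeasureTheory

variable {K : ℕ} {c : Cs}

theorem fs_of (hn : FNUM_s K c) (he : FFE_s K c) (h : FSG_s K c) : FS_s K c := by
  intro hF M hM sd hS
  have cx : Ctx K c M sd := ⟨hF, hn hF, hM, hS⟩
  refine le_trans (measure_mono ?_) (h M sd cx)
  rintro t ⟨d, rfl, h1, h2, h3, h4⟩
  exact ⟨d, ⟨⟨h1, h2, he M sd cx d h1 h2, h3⟩, h4⟩, rfl⟩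

theorem f3_of (hn : FNUM_s K c) (he : FFE_s K c) (h : F3G_s K c) : F3_s K c := by
  intro hF M hM sd hS
  have cx : Ctx K c M sd := ⟨hF, hn hF, hM, hS⟩
  refine le_trans (measure_mono ?_) (h M sd cx)
  rintro t ⟨d, rfl, h1, h2, h3, h4⟩
  exact ⟨d, ⟨⟨h1, h2, he M sd cx d h1 h2, h3⟩, h4⟩, rfl⟩

theorem f5_of (hn : FNUM_s K c) (he : FFE_s K c) (h : F5G_s K c) : F5_s K c := by
  intro hF M hM sd hS
  have cx : Ctx K c M sd := ⟨hF, hn hF, hM, hS⟩
  refine le_trans (measure_mono ?_) (h M sd cx)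
  rintro t ⟨d, rfl, h1, h2, h3, -, -, h4⟩
  exact ⟨d, ⟨⟨h1, h2, he M sd cx d h1 h2, h3⟩, h4⟩, rfl⟩

end Pool.Agent.MP_9cbfe4_an

end

/-! ### Part FFNUM -/

section

/-! Row FNUM: the inequalities between the constants. -/

namespace Pool.Agent.MP_9cbfe4_an

namespace FFNUM

lemma log_le {x : ℝ} (hx : 0 < x) : Real.log x ≤ 2 * Real.sqrt x := by
  have h := Real.log_le_sub_one_of_pos (Real.sqrt_pos.2 hx)
  rw [Real.log_sqrt hx.le] at h
  linarith only [h]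

lemma hI {e τ A : ℝ} (e0 : 0 < e) (e1 : e ≤ 1) (t0 : 0 < τ) (t1 : τ ≤ 1) (A0 : 0 < A)
    (h : e ≤ (1 / (A * (Real.log (100 / τ) + 40))) ^ 2) :
    e * (A * Real.log (100 / (e ^ 20 * τ))) ≤ 1 := by
  obtain l0 : 0 ≤ Real.log (100 / τ) := Real.log_nonneg (by rw [le_div_iff₀ t0]; linarith only [t1])
  have s0 := Real.sqrt_pos.2 e0
  obtain s1 : Real.sqrt e * (A * (Real.log (100 / τ) + 40)) ≤ 1 :=
    (le_div_iff₀ (by positivity)).1 (Real.sqrt_le_iff.2 ⟨by positivity, h⟩)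
  have s2 := Real.mul_self_sqrt e0.le
  obtain s3 : e ≤ Real.sqrt e := by nlinarith only [e0, s2, s0, Real.sqrt_le_one.2 e1]
  obtain q : Real.log (100 / (e ^ 20 * τ)) = Real.log (100 / τ) + 20 * Real.log e⁻¹ := by
    rw [mul_comm, ← div_div, Real.log_div (by positivity) (by positivity), Real.log_pow,
      Real.log_inv]
    push_cast; ring
  obtain q2 : e * Real.log e⁻¹ ≤ 2 * Real.sqrt e := by
    refine (mul_le_mul_of_nonneg_left (log_le (inv_pos.2 e0)) e0.le).trans (le_of_eq ?_)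
    rw [Real.sqrt_inv]
    field_simp
    rw [Real.sq_sqrt e0.le]
  have q3 := mul_le_mul_of_nonneg_right s3 l0
  rw [q]
  nlinarith only [s1, A0, q2, q3]

end FFNUM

open FFNUM in
theorem fnum (K : ℕ) : Hier (FNUM_s K) := by
  by_cases hK : 10 ≤ K
  swap
  · exact .of_all fun _ h => absurd h.1.1 hK
  obtain K1 : (10 : ℝ) ≤ K := by exact_mod_cast hK
  have c0 := Hier.C0_ge fun _ _ _ _ => 1
  have c0' := Hier.C0_ge fun _ θb κ CG => 10 ^ 6 * (K : ℝ) ^ 3 * (κ + 1) * CG / (1 - θb)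
  have c1 := Hier.C1_ge fun _ _ _ _ C0 => 1000 * K * C0
  have b := (Hier.base.and (c0.and c1)).mono (Q := fun c => 0 < c.θb ∧ 0 < 1 - c.θb ∧ 0 < c.κ ∧
      0 < c.C0 ∧ 0 < c.C1) fun c h => by
    obtain ⟨⟨-, -, a1, a2, a3, -⟩, a4, a5⟩ := h
    exact ⟨a1, by linarith only [a2], a3, by linarith only [a1, a2, a4], by nlinarith only [K1, a1, a2, a5, a4]⟩
  have e1 := Hier.e3_le (fun _ => 1) (fun _ _ _ _ _ _ _ _ => rfl) (.of_all fun _ => one_pos)
  have e2 := Hier.e3_le (fun c => (1 - c.θb) / (10 ^ 6 * (K : ℝ) ^ 3 * (c.κ + 1) * c.C0 * c.C1))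
    (fun _ _ _ _ _ _ _ _ => rfl) (b.mono fun c ⟨_, _, _, _, _⟩ => by positivity)
  have e3 := Hier.e3_le
    (fun c => (1 / (40 * K * c.C0 * (Real.log (100 / (1 - c.θb)) + 40))) ^ 2)
    (fun _ _ _ _ _ _ _ _ => rfl) (b.mono fun c ⟨_, t, _, _, _⟩ => by
      obtain this : 0 ≤ Real.log (100 / (1 - c.θb)) := Real.log_nonneg (by rw [le_div_iff₀ t]; linarith)
      positivity)
  have ha := Hier.a_le (fun c => (c.e3 ^ 25 / (1000 * c.C0)) ^ 2) (fun _ _ _ _ _ _ => rfl)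
    ((b.and e1).mono fun c ⟨⟨_, _, _, _, _⟩, _, _⟩ => by positivity)
  have hd := Hier.d1_le (fun c => c.e3 ^ 25 / (3000 * (1 + 6 * c.C0 * c.C1)))
    (fun _ _ _ _ _ => rfl) ((b.and e1).mono fun c ⟨⟨_, _, _, _, _⟩, _, _⟩ => by positivity)
  have hM := Hier.M1_ge (fun c => 1000 * c.C0 / c.e3 ^ 25) fun _ _ _ _ => rfl
  have hβ := Hier.β_ge (fun c => 1000 * c.C0 * c.C1 * c.M1 / c.e3 ^ 25) fun _ _ _ => rfl
  have l1 := Hier.lam_ge (fun _ => 3) fun _ _ => rfl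
  have l2 := Hier.lam_ge (fun c => (3000 * c.β / c.e3 ^ 25) ^ 2) fun _ _ => rfl
  have l3 := Hier.lam_ge (fun c => 1000 / Real.sqrt c.a) fun _ _ => rfl
  have l4 := Hier.L_ge (fun _ => 1) fun _ _ => rfl
  refine (Hier.base.and <| b.and <| c0'.and <| c1.and <| e1.and <| e2.and <| e3.and <|
    Hier.ε_eq.and <| ha.and <| hd.and <| hM.and <| hβ.and <| l1.and <| l2.and <| l3.and l4).mono ?_
  rintro c ⟨⟨k1, k2, -, t1, -, G⟩, ⟨t0, t2, κ0, C0, C1⟩, c0', c1, ⟨e0, e1⟩, ⟨-, e2⟩, ⟨-, e3⟩, hε,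
    ⟨a0, ha⟩, ⟨d0, hd⟩, hM, hβ, l1, l2, l3, l4⟩ hF
  obtain p : 0 < c.e3 ^ 25 := by positivity
  obtain lg : Real.log 2 < c.chK :=
    Real.log_lt_log two_pos (by rw [lt_div_iff₀ (by linarith only [k1, t1, t0])]; linarith only [k2])
  have l2' := Real.log_pos one_lt_two
  obtain M0 : 0 < c.M1 := lt_of_lt_of_le (by positivity) hM
  obtain β0 : 0 < c.β := lt_of_lt_of_le (by positivity) hβ
  refine ⟨hK, hF.2.2.1, ⟨t0, t1⟩, ⟨div_pos l2' (by linarith only [lg, l2']), (div_lt_one (by linarith only [lg, l2'])).2 lg,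
    hF.2.2.2⟩, G, (div_le_iff₀ t2).1 c0', c1, ⟨e0, ?_⟩,
    hI e0 e1 t2 (by linarith only [t0]) (by positivity) e3, hε, ⟨a0, ?_⟩, ⟨by unfold Cs.del; positivity, ?_⟩,
    (div_le_iff₀ p).1 hM, (div_le_iff₀ p).1 hβ, ⟨?_, ?_⟩, Real.exp_log (by linarith only [t1, t0, l4]), ?_⟩
  · exact (mul_comm _ _).trans_le ((le_div_iff₀ (by positivity)).1 e2)
  · exact (mul_comm _ _).trans_le
      ((le_div_iff₀ (by positivity)).1 (Real.sqrt_le_iff.2 ⟨by positivity, ha⟩))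
  · have := (le_div_iff₀ (by positivity)).1 hd
    unfold Cs.del; linarith only [this]
  · have s1 := (div_le_iff₀ p).1 (Real.le_sqrt_of_sq_le l2)
    have s2 := Real.mul_self_sqrt (show 0 ≤ c.lam by linarith only [t1, t0, l1])
    obtain s3 : 1 ≤ Real.sqrt c.lam := Real.one_le_sqrt.2 (by linarith only [t1, t0, l1])
    have s4 := log_le (show 0 < c.lam by linarith only [t1, t0, l1])
    calc _ ≤ 1000 * c.β * (3 * Real.sqrt c.lam) := by gcongr; linarith only [s3, s4]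
      _ = Real.sqrt c.lam * (3000 * c.β) := by ring
      _ ≤ Real.sqrt c.lam * (Real.sqrt c.lam * c.e3 ^ 25) := by gcongr
      _ = _ := by rw [← mul_assoc, s2]
  · exact (Real.le_log_iff_exp_le (by linarith only [t1, t0, l1])).2 (by linarith only [t1, t0, l1, Real.exp_one_lt_d9])
  · exact (div_le_iff₀' (Real.sqrt_pos.2 a0)).1 l3

end Pool.Agent.MP_9cbfe4_an

end

/-! ### Part FNB -/

section

/-! Row NB of section F: numeric facts on the base times of a profile. -/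

namespace Pool.Agent.MP_9cbfe4_an

open Finset

namespace FNB

theorem fold_spec (s : Finset ℤ) (h1 : 1 ∈ s) :
    s.fold max 1 id ∈ s ∧ ∀ k ∈ s, k ≤ s.fold max 1 id := by
  have h : ∀ k ∈ s, k ≤ s.fold max 1 id := fun k hk => (le_fold_max _).mpr (Or.inr ⟨k, hk, le_rfl⟩)
  refine ⟨?_, h⟩
  rcases (le_fold_max (s := s) (b := (1 : ℤ)) (f := id) _).mp le_rfl with h2 | ⟨k, hk, h2⟩
  · rw [le_antisymm h2 (h 1 h1)]; exact h1
  · rw [le_antisymm h2 (h k hk)]; exact hk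

variable {c : Cs} {π : Prof} {σ V : ℝ}

theorem le_top {k : ℤ} (hk : k ∈ π.T) : k ≤ π.top :=
  (le_fold_max _).mpr (Or.inr ⟨k, hk, le_rfl⟩)

theorem le_nb {u : ℝ} {k : ℤ} (hk : k ∈ π.T) (hu : π.Wr k + 1 ≤ u) : k ≤ π.nb u := by
  classical
  exact (le_fold_max _).mpr (Or.inr ⟨k, mem_filter.mpr ⟨hk, hu⟩, le_rfl⟩)

theorem nb_mem (h : π.OK c σ V) {u : ℝ} (hu : 1 ≤ u) : π.nb u ∈ π.T ∧ π.Wr (π.nb u) + 1 ≤ u := by
  classical
  obtain h1 : (1 : ℤ) ∈ π.T.filter fun k => π.Wr k + 1 ≤ u :=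
    mem_filter.mpr ⟨h.one.1, by rw [h.one.2]; linarith only [hu]⟩
  exact mem_filter.mp (fold_spec _ h1).1

theorem nb_mono {u u' : ℝ} (hu : u ≤ u') : π.nb u ≤ π.nb u' := by
  classical
  refine (fold_max_le _).mpr ⟨(le_fold_max _).mpr (Or.inl le_rfl), fun k hk => ?_⟩
  exact le_nb (mem_filter.mp hk).1 ((mem_filter.mp hk).2.trans hu)

theorem nb_le_top (u : ℝ) : π.nb u ≤ π.top := by
  classical
  exact (fold_max_le _).mpr ⟨(le_fold_max _).mpr (Or.inl le_rfl), fun k hk =>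
    le_top (mem_filter.mp hk).1⟩

theorem nb_aft {u : ℝ} {k : ℤ} (hk : k ∈ π.T) (h : π.nb u < k) : u - 1 < π.Wr k := by
  by_contra h2
  exact absurd (le_nb hk (by linarith only [not_lt.mp h2])) (not_le.mpr h)

theorem nb_jmp (h : π.OK c σ V) {u : ℝ} (hu : 1 ≤ u) (hV : u - 1 ≤ V) :
    u - 1 ≤ π.lw (π.nb u) + π.sr (π.nb u) + σ := by
  rcases (nb_le_top (π := π) u).lt_or_eq with h1 | h1
  · obtain ⟨k, hk, h2, -, h3⟩ := h.next _ (nb_mem h hu).1 h1
    linarith only [h3, nb_aft hk h2]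
  · rw [h1]; linarith only [hV, h.last]

theorem cc_le_Rb (j : ℤ) : c.cc ≤ π.Rb c j := (le_fold_max _).mpr (Or.inl le_rfl)

theorem sr_le_Rb {j k : ℤ} (hk : k ∈ π.T) (h : k < j) : (π.sr k : ℝ) ≤ π.Rb c j :=
  (le_fold_max _).mpr (Or.inr ⟨k, mem_filter.mpr ⟨hk, h⟩, le_rfl⟩)

theorem Rb_le {j : ℤ} {B : ℝ} (h0 : c.cc ≤ B) (h : ∀ k ∈ π.T, k < j → (π.sr k : ℝ) ≤ B) :
    π.Rb c j ≤ B :=
  (fold_max_le _).mpr ⟨h0, fun k hk => h k (mem_filter.mp hk).1 (mem_filter.mp hk).2⟩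

theorem Rb_cases (j : ℤ) : π.Rb c j = c.cc ∨ ∃ k ∈ π.T, k < j ∧ π.Rb c j = π.sr k := by
  rcases (le_fold_max (s := π.T.filter fun k => k < j) (b := c.cc)
    (f := fun k => (π.sr k : ℝ)) _).mp le_rfl with h | ⟨k, hk, h⟩
  · exact Or.inl (le_antisymm h (cc_le_Rb j))
  · obtain ⟨h1, h2⟩ := mem_filter.mp hk
    exact Or.inr ⟨k, h1, h2, le_antisymm h (sr_le_Rb h1 h2)⟩

/-- sizes of the constants -/
theorem sizes {K : ℕ} (h : FNum K c) : 10 ^ 9 * (c.κ + 1) ≤ c.C0 ∧ 10 ^ 4 * c.C0 ≤ c.C1 ∧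
    2 ≤ c.lam ∧ 10 ^ 8 * K * (c.κ + 1) * c.C0 * c.C1 * c.e3 ≤ 1 := by
  obtain hK : (10 : ℝ) ≤ K := by exact_mod_cast h.hK
  have hκ := h.hκ
  obtain ⟨t0, t1⟩ := h.hθ
  obtain k3 : (10 : ℝ) ^ 3 ≤ (K : ℝ) ^ 3 := pow_le_pow_left₀ (by norm_num) hK 3
  obtain k2 : (10 : ℝ) ^ 2 ≤ (K : ℝ) ^ 2 := pow_le_pow_left₀ (by norm_num) hK 2
  obtain a1 : 10 ^ 9 * (c.κ + 1) ≤ 10 ^ 6 * (K : ℝ) ^ 3 * (c.κ + 1) :=
    mul_le_mul_of_nonneg_right (by linarith only [k3]) (by linarith only [hκ, t0, t1])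
  obtain a2 : 10 ^ 6 * (K : ℝ) ^ 3 * (c.κ + 1) ≤ c.C0 * (1 - c.θb) :=
    (le_mul_of_one_le_right (by linarith only [hκ, t0, t1, a1]) h.hG).trans h.hC0
  obtain c0 : 0 < c.C0 := pos_of_mul_pos_left (by linarith only [hκ, t0, t1, a1, a2] : 0 < c.C0 * (1 - c.θb)) (by linarith only [t1])
  obtain a3 : c.C0 * (1 - c.θb) ≤ c.C0 := mul_le_of_le_one_right c0.le (by linarith only [t0])
  obtain a4 : 10 ^ 4 * c.C0 ≤ c.C1 :=
    (mul_le_mul_of_nonneg_right (by linarith only [hK]) c0.le).trans h.hC1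
  obtain l0 : 0 < c.lam := pos_of_mul_pos_right (lt_of_lt_of_le (by norm_num) h.hS) (Real.sqrt_nonneg _)
  refine ⟨by linarith only [a1, a2, a3], a4, by linarith only [Real.log_le_sub_one_of_pos l0, h.hl.2], ?_⟩
  obtain a5 : 0 ≤ (K : ℝ) * (c.κ + 1) * c.C0 * c.C1 * c.e3 := by
    have := h.he.1
    obtain this : 0 ≤ c.C1 := by linarith only [hκ, t0, t1, a1, a2, a3, a4]
    obtain this : 0 ≤ c.κ + 1 := by linarith only [hκ, t0, t1]
    positivity
  have a6 := mul_le_mul_of_nonneg_right k2 a5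
  linarith only [t0, a6, h.he.2]

/-- the scales of one level -/
theorem scales {K : ℕ} (h : FNum K c) {w : ℝ} (h1 : c.C1 * c.lam ≤ σ) (h2 : σ ≤ c.e3 * w) :
    1000 ≤ σ ∧ 1000 * ((c.κ + 1) * σ) ≤ c.io K * w ∧ 1000 * (c.io K * w) ≤ w / (100 * K) ∧
      1000 * (w / (100 * K)) ≤ w ∧ 0 < c.io K ∧ c.io K ≤ 1 / 1000 ∧
      20 * (c.io K * w) ≤ 10 * c.th * K * (w / (100 * K)) ∧ 0 < c.th := by
  obtain ⟨s0, s1, s2, s3⟩ := sizes h
  obtain hK : (10 : ℝ) ≤ K := by exact_mod_cast h.hK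
  have hκ := h.hκ
  have he := h.he.1
  obtain c0 : 10 ^ 9 ≤ c.C0 := by linarith only [s0, hκ]
  obtain cp : 0 < c.C0 := by linarith only [s0, hκ]
  obtain kp : (0 : ℝ) < K := by linarith only [hK]
  obtain b1 : 1000 ≤ σ := by nlinarith only [h1, s0, s1, s2, hκ]
  obtain w0 : 0 < w := pos_of_mul_pos_right (by linarith only [h2, b1] : 0 < c.e3 * w) he.le
  have t0 : 0 < c.th := one_div_pos.mpr cp
  obtain i0 : 0 < c.io K := div_pos t0 (by linarith only [hK])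
  obtain e1 : c.io K * (20 * K * c.C0) = 1 := by unfold Cs.io Cs.th; field_simp
  obtain e2 : w / (100 * K) * (100 * K) = w := div_mul_cancel₀ _ (by positivity)
  obtain e3 : c.io K * w * c.C0 = 5 * (w / (100 * K)) := by unfold Cs.io Cs.th; field_simp; ring
  obtain e4 : 10 * c.th * K * (w / (100 * K)) = 2 * K * (c.io K * w) := by
    unfold Cs.io; field_simp; ring
  have j0 : 0 < c.io K * w := mul_pos i0 w0
  obtain a0 : 0 < w / (100 * K) := by (clear * - w0 hK; positivity)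
  obtain a1 : 0 ≤ (K : ℝ) * (c.κ + 1) * c.C0 * c.e3 := by
    obtain this : 0 ≤ c.κ + 1 := by linarith only [hκ]
    positivity
  obtain a2 : 10 ^ 8 * ((K : ℝ) * (c.κ + 1) * c.C0 * c.e3) ≤ 1 := by
    obtain this := mul_le_mul_of_nonneg_left (by linarith only [s0, s1, hκ] : 1 ≤ c.C1) a1
    linarith only [s3, this]
  obtain a3 : (c.κ + 1) * σ ≤ 20 * ((K : ℝ) * (c.κ + 1) * c.C0 * c.e3) * (c.io K * w) := by
    obtain this := mul_le_mul_of_nonneg_left h2 (by linarith only [hκ] : 0 ≤ c.κ + 1)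
    obtain e5 : 20 * ((K : ℝ) * (c.κ + 1) * c.C0 * c.e3) * (c.io K * w) =
        (c.κ + 1) * (c.e3 * w) * (c.io K * (20 * K * c.C0)) := by ring
    rw [e5, e1]; linarith only [this]
  have a4 := mul_le_mul_of_nonneg_right a2 j0.le
  have a5 := mul_le_mul_of_nonneg_left c0 j0.le
  have a6 := mul_le_mul_of_nonneg_left hK a0.le
  have a7 := mul_le_mul_of_nonneg_right hK j0.le
  obtain a8 : 1000 * (c.io K * w) ≤ w := by linarith only [e2, e3, j0, a5, a6]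
  refine ⟨b1, by linarith only [j0, a3, a4], by linarith only [e3, j0, a5], by linarith only [e2, a6], i0, ?_, by linarith only [e4, a7], t0⟩
  exact le_of_mul_le_mul_right (by linarith only [e2, e3, j0, a5, a6]) w0

end FNB

open FNB in
theorem nb : ∀ K c, NB_s K c := by
  intro K c hn π σ V w h h1 h2 h3
  obtain ⟨s1, s2, s3, s4, s5, s6, s7, s8⟩ := scales hn h1 h2
  obtain hK : (10 : ℝ) ≤ K := by exact_mod_cast hn.hK
  have hκ := hn.hκ
  obtain s9 : 11 * σ ≤ (c.κ + 1) * σ := mul_le_mul_of_nonneg_right (by linarith only [hκ]) (by linarith only [s1, s5, s6])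
  obtain u1 : 1 ≤ w - 3 * c.io K * w := by linarith only [s1, s2, s3, s4, s5, s6, s9]
  obtain ⟨bm, bh⟩ : π.bs K c w ∈ π.T ∧ π.Wr (π.bs K c w) + 1 ≤ w - 3 * c.io K * w := nb_mem h u1
  have ba : ∀ k ∈ π.T, π.bs K c w < k → w - 3 * c.io K * w - 1 ≤ π.Wr k :=
    fun k hk h4 => (nb_aft hk h4).le
  obtain bj : w - 3 * c.io K * w - 1 ≤ π.lw (π.bs K c w) + π.sr (π.bs K c w) + σ :=
    nb_jmp h u1 (by linarith only [h3, s1, s2, s5, s6, s9])
  obtain ⟨l1, l2⟩ := h.lw _ bm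
  refine ⟨⟨bm, bh, ba, bj, ?_⟩, fun h4 => ?_⟩
  · rw [div_le_iff₀ (by linarith only [s5, s6, hκ])]
    have := h.cap _ bm
    linarith only [s1, s2, s3, s4, s5, s6, s9, bj, l2, this]
  obtain u2 : 1 ≤ (1 + c.io K) * w := by linarith only [s1, s2, s3, s4, s5, s6, s9]
  obtain ⟨tm, th⟩ : π.tp K c w ∈ π.T ∧ π.Wr (π.tp K c w) + 1 ≤ (1 + c.io K) * w := nb_mem h u2
  obtain w0 : 0 ≤ c.io K * w := by linarith only [s1, s2, s5, s6, s9]
  have o0 := mul_le_mul_of_nonneg_right s6 w0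
  have o00 := mul_nonneg s5.le w0
  obtain o1 : π.bs K c w ≤ π.bs K c ((1 + c.io K) * w) := nb_mono (by linarith only [s1, s2, s5, s6, s9, o0])
  obtain o2 : π.bs K c ((1 + c.io K) * w) ≤ π.tp K c w := nb_mono (by linarith only [s1, s2, s5, s6, s9, o00])
  obtain d2 : w / (50 * K) = 2 * (w / (100 * K)) := by field_simp; ring
  refine ⟨tm, th, fun k hk h5 => le_nb hk h5, ⟨o1, o2⟩, fun ⟨c1, c2⟩ => ?_, fun c1 c2 => ?_,
    fun ⟨c1, c2⟩ => ?_⟩
  · have a1 := h.later _ bm _ tm c1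
    obtain a2 : w / (100 * K) / 3 ≤ (π.sr (π.bs K c w) : ℝ) := by linarith only [s1, s2, s3, s5, s6, s9, bj, l2, th, c2]
    obtain a3 := mul_le_mul_of_nonneg_left a2 (by (clear * - s8 hK; positivity) : 0 ≤ 10 * c.th * K)
    exact ⟨_, bm, c1.trans_le (le_top tm), abs_le.mpr ⟨by linarith only [s1, s2, s5, s6, s7, s9, th, a1, a3], by linarith only [s1, s2, s5, s6, s7, s9, bj, a3]⟩, by linarith only [s1, s2, s5, s6, s7, s9, a3]⟩
  · rcases (o1.trans o2).lt_or_eq with h5 | h5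
    · have a1 : π.Wr (π.tp K c w) - π.Wr (π.bs K c w) ≤ w / (100 * K) :=
        not_lt.mp fun h6 => c1 ⟨h5, h6⟩
      have a2 := ba _ tm h5
      exact ⟨by linarith only [s1, s2, s3, s5, s6, s9, l1, d2, a1, a2], a1⟩
    · have a1 : (1 + c.io K) * w - π.lw (π.bs K c w) < w / (100 * K) :=
        not_le.mp fun h6 => c2 ⟨h5.symm, h6⟩
      exact ⟨by linarith only [s1, s2, s3, s5, s6, s9, d2, a1], by rw [← h5]; linarith only [s1, s2, s3, s5, s6, s9]⟩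
  · obtain a1 : (1 + c.io K) * w - 1 ≤ π.lw (π.tp K c w) + π.sr (π.tp K c w) + σ :=
      nb_jmp h u2 (by linarith only [s1, s5, s6, h4])
    rw [c1] at a1
    unfold Prof.rr
    exact ⟨by linarith only [s1, s2, s3, s5, s6, s9, c2, a1], by linarith only [a1]⟩

end Pool.Agent.MP_9cbfe4_an

end

/-! ### Part FFE -/

section

/-! Row FFE: facts on a high datum. -/

namespace Pool.Agent.MP_9cbfe4_an

open Finset Filter Topology

noncomputable section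

namespace FFE

theorem sub_run {c : Cs} {Ex : ExT} {S : Sq} {ξ s P} : ∀ {Ls m}, S.Run c Ex ξ s P Ls m →
    ∀ x ∈ Ls, ∃ L, S.Run c Ex ξ s P L x.1 ∧ P L x.1 x.2 := by
  intro Ls
  induction Ls with
  | nil => intro m _ x hx; simp at hx
  | cons y L ih =>
    intro m h x hx
    obtain t : S.Run c Ex ξ s P L y.1 ∧ P L y.1 y.2 := by
      cases h with
      | shallow a _ b => exact ⟨a, b⟩
      | block a _ _ _ b => exact ⟨a, b⟩
    rcases List.mem_cons.1 hx with rfl | hx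
    · exact ⟨L, t⟩
    · exact ih t.1 x hx

theorem sum_le {α : Type} (h : α → ℤ) (g : ℤ → ℝ) (hg : ∀ k, 0 ≤ g k) (L : List α) :
    ∑ k ∈ (L.map h).toFinset, g k ≤ (L.map fun x => g (h x)).sum := by
  induction L with
  | nil => simp
  | cons x L ih =>
    simp only [List.map_cons, List.toFinset_cons, List.sum_cons]
    by_cases q : h x ∈ (L.map h).toFinset
    · rw [insert_eq_of_mem q]; linarith only [ih, hg (h x)]
    · rw [sum_insert q]; linarith only [ih]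

theorem pp {a b : ℝ} (h : 0 < a * b) (hb : 0 < b) : 0 < a := (mul_pos_iff_of_pos_right hb).1 h

structure Nm (c : Cs) : Prop where
  e0 : 0 < c.e3
  e1 : c.e3 ≤ 1 / 1000
  C0 : 1000 ≤ c.C0
  kC : 1000 * (c.κ + 1) ≤ c.C0
  C1 : 1000 ≤ c.C1
  eC : 1000 * c.C0 * c.C1 * c.e3 ≤ 1
  M1 : 1000 * c.C0 ≤ c.M1 * c.e3 ^ 22
  β : 1000 * c.C0 * c.C1 ≤ c.β * c.e3
  lam : 1000 ≤ c.lam * c.e3 ^ 22
  k0 : 1 / 2 ≤ c.chK
  kb : c.chK ≤ c.bl

theorem nm {K : ℕ} {c : Cs} (h : FNum K c) (hk : 1 / 16 ≤ c.k0) : Nm c := by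
  obtain K1 : (10 : ℝ) ≤ K := by exact_mod_cast h.hK
  obtain K3 : (1 : ℝ) ≤ (K : ℝ) ^ 3 := one_le_pow₀ (by linarith only [K1])
  have κ := h.hκ
  have G := h.hG
  obtain ⟨θ0, θ1⟩ := h.hθ
  obtain ⟨e0, e1⟩ := h.he
  obtain a1 : 10 ^ 6 * (c.κ + 1) ≤ 10 ^ 6 * (K : ℝ) ^ 3 * (c.κ + 1) := by nlinarith only [K3, κ]
  obtain a2 : 10 ^ 6 * (K : ℝ) ^ 3 * (c.κ + 1) ≤ 10 ^ 6 * (K : ℝ) ^ 3 * (c.κ + 1) * c.CG :=
    le_mul_of_one_le_right (by linarith only [κ, θ0, θ1, a1]) G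
  obtain c0 : 0 < c.C0 := by
    by_contra q; linarith only [κ, θ0, a1, a2, h.hC0, mul_nonneg (neg_nonneg.2 (not_lt.1 q)) (sub_pos.2 θ1).le]
  obtain kC : 1000 * (c.κ + 1) ≤ c.C0 := by linarith only [κ, θ1, a1, a2, h.hC0, mul_pos c0 θ0]
  obtain C0 : 1000 ≤ c.C0 := by linarith only [κ, θ0, θ1, kC]
  obtain C1 : 1000 ≤ c.C1 := by nlinarith only [K1, θ0, θ1, κ, kC, h.hC1]
  obtain p : 0 < c.C0 * c.C1 * c.e3 := by positivity
  obtain eC : 1000 * c.C0 * c.C1 * c.e3 ≤ 1 := by nlinarith only [e1, κ, p, θ0, θ1, a1]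
  obtain p1 : 1 ≤ c.C0 * c.C1 := by nlinarith only [κ, e1, kC, p, θ0, eC, θ1, a1, c0, C1]
  obtain e2 : c.e3 ≤ 1 / 1000 := by nlinarith only [eC, θ0, θ1, e0, p1]
  obtain w1 : c.e3 ^ 25 ≤ c.e3 ^ 22 := pow_le_pow_of_le_one e0.le (by linarith only [p, eC, e2]) (by norm_num)
  obtain w2 : c.e3 ^ 25 ≤ c.e3 ^ 1 := pow_le_pow_of_le_one e0.le (by linarith only [p, eC, e2]) (by norm_num)
  obtain w0 : 0 < c.e3 ^ 25 := by positivity
  rw [pow_one] at w2
  obtain m0 : 1 ≤ c.M1 := by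
    by_contra q; nlinarith only [κ, θ0, e1, kC, w2, p, e0, p1, a1, w0, q, h.hM]
  obtain b1 : 1000 * c.C0 * c.C1 ≤ c.β * c.e3 ^ 25 := by nlinarith only [e0, p, m0, h.hβ]
  obtain b0 : 1000 ≤ c.β := by
    by_contra q; nlinarith only [κ, θ0, e1, kC, w2, b1, p, e0, p1, a1, c0, C1, w0, q]
  obtain l1 : 1000 ≤ c.lam * c.e3 ^ 25 := by nlinarith only [κ, θ0, e1, kC, w2, b1, p, e0, p1, a1, c0, C1, w0, h.hl.1, h.hl.2]
  obtain l0 : 1000 ≤ c.lam := by
    by_contra q; nlinarith only [θ0, e1, w2, l1, κ, p, e0, eC, p1, a1, w0, q]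
  obtain k1 : 0 < c.chK := by
    by_contra q
    exact absurd h.hd.1 (not_lt.2 (div_nonpos_of_nonneg_of_nonpos
      (Real.log_nonneg one_le_two) (not_lt.1 q)))
  have k2 : Real.log 2 < c.chK := (div_lt_one k1).1 h.hd.2.1
  refine ⟨e0, e2, C0, kC, C1, eC, by nlinarith only [w1, p, eC, m0, h.hM], by nlinarith only [w2, b1, p, eC, b0], by nlinarith only [w1, l1, p, eC, l0],
    by linarith only [p, eC, k2, Real.log_two_gt_d9], ?_⟩
  obtain this := Real.log_le_sub_one_of_pos (one_div_pos.2 (show 0 < c.k0 by linarith only [hk, p, eC]))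
  obtain h3 : 1 / c.k0 ≤ 16 := by rw [div_le_iff₀ (by linarith only [hk, p, eC])]; linarith only [hk]
  unfold Cs.chK Cs.bl; nlinarith only [κ, e1, kC, w2, b1, l1, p, θ0, e0, e2, eC, p1, a1, c0, C1, l0, w0, this, h3]

/-- consequences for the level `V` -/
structure Nv (c : Cs) (V : ℝ) : Prop where
  l0 : 1000 ≤ c.lam
  m0 : 1000 * c.C0 ≤ c.M1
  ε0 : 0 < c.ε ∧ c.ε ≤ 1 / 1000
  cc : 50 ≤ c.cc ∧ c.cc ≤ c.lam / 20
  c1 : c.c1 ≤ c.lam / 2
  V1 : 500 * (c.C1 * c.lam) ≤ c.e3 * V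
  cl : 1000 * c.lam ≤ c.C1 * c.lam
  V0 : 1000 * c.lam ≤ V
  bl0 : 1000 * (c.κ + 1) * c.lam ≤ c.bl
  ε' : 11 * c.ε' ≤ c.e3
  s : ∀ ld x, 0 ≤ ld → ld ≤ 2 * c.C0 * V + 1 → x = c.C1 * ld + c.ε * V + c.cc →
    c.ε * V + c.cc ≤ x ∧ c.e3 ^ 22 * V ≤ c.e3 ^ 2 * min V x ∧
    c.e3 ^ 2 * min V x + c.C1 * c.lam ≤ c.e3 * V ∧ ∀ u ≤ x, 100 * c.ε' * u ≤ c.e3 ^ 2 * min V x
  len : 10 * V / c.lam ≤ c.e3 ^ 22 * V / 100
  y : ∀ y ≤ c.C0 * V, c.C0 * V < y + 1 → 30 * Real.sqrt c.a * y ≤ c.e3 ^ 22 * V ∧ 4 * V ≤ y ∧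
    V ≤ y / c.C0 + 1 ∧ y / c.C0 ≤ V
  far : ∀ W ρ, ρ ≤ c.κ * (W + c.lam + 10) + c.lam → c.bl / 3 < ρ → 26 * ρ ≤ c.M1 * (W - 5)
  near : ∀ W, c.e3 ^ 22 * V ≤ W - 5 → 4 * V ≤ c.M1 * (W - 5)

theorem nv {K : ℕ} {c : Cs} (h : FNum K c) (N : Nm c) {V : ℝ} (hi : c.bl / 2 < c.C0 * V) : Nv c V := by
  obtain ⟨e0, e1, C0, kC, C1, eC, M1, hβ, lam, -, -⟩ := N
  have κ := h.hκ
  have hε := h.hε
  have ha := h.ha.2
  clear h
  obtain w1 : c.e3 ^ 22 ≤ c.e3 ^ 20 := pow_le_pow_of_le_one e0.le (by linarith only [e0, e1]) (by norm_num)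
  obtain w2 : c.e3 ^ 20 ≤ c.e3 ^ 1 := pow_le_pow_of_le_one e0.le (by linarith only [e0, e1]) (by norm_num)
  obtain w3 : c.e3 ^ 25 ≤ c.e3 ^ 22 := pow_le_pow_of_le_one e0.le (by linarith only [e0, e1]) (by norm_num)
  obtain w4 : c.e3 ^ 4 ≤ c.e3 ^ 2 := pow_le_pow_of_le_one e0.le (by linarith only [e0, e1]) (by norm_num)
  obtain w0 : 0 < c.e3 ^ 22 := by positivity
  rw [pow_one] at w2
  obtain lp : 0 < c.lam := pp (show 0 < c.lam * c.e3 ^ 22 by linarith only [e0, e1, lam]) w0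
  obtain mp : 0 < c.M1 := pp (show 0 < c.M1 * c.e3 ^ 22 by linarith only [e0, e1, kC, M1, κ]) w0
  obtain cp : 0 < c.C0 * c.C1 := mul_pos (by linarith only [e0, e1, kC, κ]) (by linarith only [e0, e1, C1])
  obtain bp : 0 < c.β := pp (show 0 < c.β * c.e3 by linarith only [hβ, cp]) e0
  obtain l0 : 1000 ≤ c.lam := lam.trans (mul_le_of_le_one_right lp.le (by linarith only [e0, e1, w1, w2]))
  obtain m0 : 1000 * c.C0 ≤ c.M1 := M1.trans (mul_le_of_le_one_right mp.le (by linarith only [e0, e1, w1, w2]))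
  obtain b0 : 1000 * c.C0 * c.C1 ≤ c.β := hβ.trans (mul_le_of_le_one_right bp.le (by linarith only [e0, e1]))
  obtain b1 : c.C0 ≤ c.C0 * c.C1 := le_mul_of_one_le_right (by linarith only [e0, e1, kC, κ]) (by linarith only [e0, e1, C1])
  obtain ε0 : 0 < c.ε ∧ c.ε ≤ 1 / 1000 := by rw [hε]; exact ⟨by positivity, by linarith only [e1, w2]⟩
  obtain εl : 1000 ≤ c.ε * c.lam ∧ c.ε * c.lam ≤ c.lam := by
    refine ⟨?_, mul_le_of_le_one_left lp.le (by linarith only [e0, e1, hε, w2, ε0.2])⟩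
    rw [hε, mul_comm]; exact lam.trans (mul_le_mul_of_nonneg_left w1 lp.le)
  obtain cc : 50 ≤ c.cc ∧ c.cc ≤ c.lam / 20 := by unfold Cs.cc; constructor <;> linarith only [εl.1, εl.2]
  obtain V1 : 500 * (c.C1 * c.lam) ≤ c.e3 * V := by
    have a := mul_le_mul_of_nonneg_right hβ lp.le
    have b := mul_lt_mul_of_pos_left hi e0
    unfold Cs.bl at b
    exact le_of_mul_le_mul_left (a := c.C0) (by linarith only [a, b]) (by linarith only [e0, e1, kC, κ])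
  have cl : 1000 * c.lam ≤ c.C1 * c.lam := mul_le_mul_of_nonneg_right C1 lp.le
  obtain Vp : 0 < V := pp (show 0 < V * c.e3 by linarith only [e0, e1, l0, V1, cl]) e0
  have eV : c.e3 * V ≤ 1 / 1000 * V := mul_le_mul_of_nonneg_right e1 Vp.le
  obtain V0 : 1000 * c.lam ≤ V := by linarith only [e0, e1, l0, V1, cl, eV]
  obtain bl0 : 1000 * (c.κ + 1) * c.lam ≤ c.bl := mul_le_mul_of_nonneg_right (by linarith only [e0, e1, kC, κ, b0, b1]) lp.le
  have CV : 1000 * V ≤ c.C0 * V := mul_le_mul_of_nonneg_right C0 Vp.le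
  obtain e2 : c.e3 ^ 2 ≤ 1 / 1000 * c.e3 := by rw [sq]; exact mul_le_mul_of_nonneg_right e1 e0.le
  refine ⟨l0, m0, ε0, cc, by unfold Cs.c1; linarith only [εl.2], V1, cl, V0, bl0,
    by unfold Cs.ε'; linarith only [e0, w4, e2], fun ld x a b e => ?_, ?_, fun y a b => ⟨?_, by linarith only [e0, e1, l0, V1, cl, eV, CV, b], ?_, ?_⟩,
    fun W ρ a b => ?_, fun W a => ?_⟩
  · obtain a1 := mul_nonneg (show 0 ≤ c.C1 by linarith only [e0, e1, C1]) a
    obtain a2 := mul_le_mul_of_nonneg_left b (show 0 ≤ c.C1 by linarith only [e0, e1, C1])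
    have a3 := mul_le_mul_of_nonneg_right ε0.2 Vp.le
    have a4 := mul_pos ε0.1 Vp
    obtain a5 := mul_le_mul_of_nonneg_left CV (show 0 ≤ c.C1 by linarith only [e0, e1, C1])
    have a6 := mul_le_mul_of_nonneg_right C1 Vp.le
    obtain a7 := mul_le_mul_of_nonneg_left (show 1 ≤ V by linarith only [e0, e1, l0, V1, cl, eV]) (show 0 ≤ c.C1 by linarith only [e0, e1, C1])
    obtain x1 : x ≤ 3 * (c.C0 * c.C1) * V := by linarith only [e0, e1, l0, V1, cl, eV, e, a2, a3, a5, a6, a7, cc.2]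
    obtain x2 : 100 * c.e3 ^ 2 * x ≤ min V x := by
      refine le_min ?_ (mul_le_of_le_one_left (by linarith only [e0, e1, e, a1, a4, cc.1]) (by linarith only [e0, e1, e2]))
      obtain u : 100 * c.e3 ^ 2 * x ≤ 100 * c.e3 ^ 2 * (3 * (c.C0 * c.C1) * V) := by (clear * - x1 e0; gcongr)
      have u2 := mul_le_mul_of_nonneg_right eC (mul_pos e0 Vp).le
      obtain u3 : 0 < c.C0 * c.C1 * c.e3 * (c.e3 * V) := by (clear * - C0 C1 e0 Vp; positivity)
      linarith only [e0, e1, l0, V1, cl, eV, u, u2]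
    refine ⟨by linarith only [e, a1], ?_, ?_, fun u hu => ?_⟩
    · obtain u : c.e3 ^ 20 * V ≤ min V x := le_min (by rw [← hε]; linarith only [e0, e1, l0, V1, cl, eV, a3]) (by rw [← hε]; linarith only [e0, e1, e, a1, cc.1])
      linarith only [mul_le_mul_of_nonneg_left u (sq_nonneg c.e3)]
    · linarith only [e1, l0, V1, cl, mul_le_mul_of_nonneg_left (min_le_left V x) (sq_nonneg c.e3),
        mul_le_mul_of_nonneg_right e2 Vp.le, mul_pos e0 Vp]
    · have b' := mul_le_mul_of_nonneg_left x2 (sq_nonneg c.e3)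
      obtain a' := mul_le_mul_of_nonneg_left hu (show 0 ≤ 100 * c.e3 ^ 4 by positivity)
      unfold Cs.ε'; linarith only [b', a']
  · rw [div_le_div_iff₀ lp (by norm_num)]
    linarith only [mul_le_mul_of_nonneg_right lam Vp.le]
  · linarith only [mul_le_mul_of_nonneg_left a (Real.sqrt_nonneg c.a),
      mul_le_mul_of_nonneg_right (ha.trans w3) Vp.le, mul_pos w0 Vp]
  · rw [← sub_le_iff_le_add, le_div_iff₀ (by linarith only [e0, e1, kC, κ])]; linarith only [e0, e1, kC, κ, b]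
  · rw [div_le_iff₀ (by linarith only [e0, e1, kC, κ])]; linarith only [a]
  · obtain k1 := mul_le_mul_of_nonneg_left l0 (show 0 ≤ c.κ by linarith only [e0, e1, κ])
    obtain f2 : ρ / 2 ≤ c.κ * (W - 5) := by linarith only [e0, e1, κ, l0, bl0, a, b, k1]
    obtain f3 : 0 < W - 5 := pp (show 0 < (W - 5) * c.κ by linarith only [e0, e1, κ, l0, bl0, a, b, k1]) (by linarith only [e0, e1, κ])
    linarith only [e0, e1, κ, l0, bl0, a, b, k1, kC, m0, mul_le_mul_of_nonneg_right (show 1000 * c.κ ≤ c.M1 by linarith only [e0, e1, kC, κ, m0]) f3.le]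
  · linarith only [e0, e1, l0, V1, cl, eV, CV, mul_le_mul_of_nonneg_left a mp.le, mul_le_mul_of_nonneg_right M1 Vp.le]

theorem main {K : ℕ} {c : Cs} (hk : 1 / 16 ≤ c.k0) (hS : SOK_s c) (hB : B1_s c) (h5 : B5_s c)
    (hF : FR_s K c) (hP : PRD_s c) (hH : HI_s K c) : FFE_s K c := by
  intro M sd cx d pre hi
  have N := nm cx.num hk
  have hM := cx.okk.ok
  obtain ⟨el, pw, nr⟩ := hF _ M d hM pre
  obtain ⟨p1, p2, p3, ⟨p4, p4', p4''⟩, p5, -, -, -, ⟨-, -, p9⟩, -⟩ := hP _ M d _ hM pre rfl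
  have el : ∀ x ∈ d.Lf, d.El c (Ex2 K c M) M x := el
  have hp : (d.p, d.r) ∈ d.Lf := List.mem_cons_self
  have hs : ∀ x ∈ d.Ls, x ∈ d.Lf := fun x hx => List.mem_cons_of_mem _ hx
  obtain hs' : ∀ x ∈ d.Lf, x.1 < d.p → x ∈ d.Ls := fun x hx h => by
    rcases List.mem_cons.1 hx with rfl | q
    · exact absurd h (lt_irrefl _)
    · exact q
  have lt : ∀ x ∈ d.Ls, x.1 < d.p := fun x hx => (List.pairwise_cons.1 pw).1 x hx
  have ok : (d.S M).OK c := ((hS M hM d.t (el _ hp).fr.ht).2.1 d.v pre.hv).2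
  have out : (d.S M).Out c d.ξ d.n := (el _ hp).fr.out
  obtain ⟨l0, m0, ε0, cc, c1, -, cl, V0, bl0, ε', ns, nl, ny, nf, nn⟩ := nv cx.num N hi
  obtain ⟨e0, -, C0, -, C1, -, -, -, -, k0, kb⟩ := N
  have κ := cx.num.hκ
  obtain κl := mul_le_mul_of_nonneg_right κ (show 0 ≤ c.lam by linarith only [l0, ε0])
  have L0 : 0 ≤ c.L := cx.num.hL ▸ (Real.exp_pos _).le
  obtain xm : ∀ u ≤ d.V c M, (d.S M).xx c d.n u ≤ d.xV c M := fun u hu => by
    obtain a := (d.S M).load_mono c (by linarith only [ε0, k0]) kb (by linarith only [ε0, C0]) d.n hu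
    unfold Dat.xV Sq.xx
    linarith only [C1, mul_le_mul_of_nonneg_left a (show 0 ≤ c.C1 by linarith only [ε0, C1]),
      mul_le_mul_of_nonneg_left hu ε0.1.le]
  have ld0 := (d.S M).load_nonneg c d.n (d.V c M)
  obtain ld1 := (d.S M).load_le c k0 kb (by linarith only [ε0, C0])
    (mul_nonneg cx.num.ha.1.le (by linarith only [l0, ε0, bl0, κl])) d.n (d.V c M)
  rw [max_eq_left (by linarith only [l0, ε0, V0])] at ld1
  obtain ⟨x0, s1, s2, n4⟩ := ns _ (d.xV c M) ld0 ld1 rfl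
  obtain εV : 0 ≤ c.ε * d.V c M := mul_nonneg ε0.1.le (by linarith only [l0, ε0, V0])
  have se : d.s0 c M = c.e3 ^ 2 * min (d.V c M) (d.xV c M) + c.C1 * c.lam := rfl
  obtain eV : 0 ≤ c.e3 ^ 22 * d.V c M := mul_nonneg (by (clear * - e0; positivity)) (by linarith only [l0, ε0, V0])
  obtain s3 : 1000 * c.lam ≤ d.s0 c M := by linarith only [cl, s1, se, eV]
  obtain xp : ∀ x ∈ d.Lf, 100 * c.ε' * (d.S M).xp c d.n x.1 ≤ d.s0 c M := fun x hx => by
    linarith only [l0, ε0, cl, se, n4 ((d.S M).xp c d.n x.1) (xm _ (el x hx).lev.2)]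
  obtain sg : ∀ x ∈ d.Lf, d.toFd.W c M x.1 - Real.log |d.toFd.f M x.1| ≤ d.s0 c M / 9 := fun x hx => by
    have a : d.toFd.W c M x.1 - Real.log |d.toFd.f M x.1| ≤
      (d.S M).sg c (d.toFd.f M) (d.n + 1) x.1 := le_max_left _ _
    linarith only [l0, ε0, cl, s1, se, eV, a, (el x hx).sg, xp x hx]
  obtain hT : ∀ k ∈ (d.prof c M).T, ∃ x ∈ d.Lf, k = x.1 - d.n := fun k hk => by
    obtain ⟨x, a, b⟩ := (p1 k).1 hk
    exact ⟨x, a, by omega⟩
  obtain mT : ∀ x ∈ d.Lf, x.1 - d.n ∈ (d.prof c M).T := fun x hx => (p1 _).2 ⟨x, hx, by omega⟩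
  have q3 := fun x (hx : x ∈ d.Lf) => p3 _ (mT x hx)
  simp only [add_sub_cancel] at q3
  obtain sr : ∀ x ∈ d.Lf, (c.cc ≤ x.2 ∧ x.2 ≤ (d.prof c M).sr (x.1 - d.n) ∧
      ((d.prof c M).sr (x.1 - d.n) : ℝ) ≤ x.2 + 1) ∨ (x.2 < c.cc ∧ (d.prof c M).sr (x.1 - d.n) = 0) := by
    intro x hx
    unfold Prof.sr
    rw [p2 x hx]
    by_cases q : c.cc ≤ x.2
    · simp only [Dat.ent, if_pos q]
      exact .inl ⟨q, Nat.le_ceil _, (Nat.ceil_lt_add_one (by linarith only [ε0, q, cc.1])).le⟩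
    · simp only [Dat.ent, if_neg q]
      exact .inr ⟨not_le.1 q, trivial⟩
  have sr0 : ∀ k, (0 : ℝ) ≤ (d.prof c M).sr k := fun k => Nat.cast_nonneg _
  obtain sr1 : ∀ x ∈ d.Lf, x.2 ≤ c.cc + (d.prof c M).sr (x.1 - d.n) := fun x hx => by
    rcases sr x hx with a | a <;> linarith only [ε0, a.1, a.2, sr0 (x.1 - d.n), cc.1]
  have top : (d.prof c M).top = d.p - d.n := le_antisymm
    ((fold_max_le _).2 ⟨(p3 _ p4'').2.2.2.2.1, fun k hk => (p3 k hk).2.2.2.2.2.1⟩)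
    ((le_fold_max _).2 (.inr ⟨_, p4'', le_rfl⟩))
  obtain ⟨-, -, b3, b4, -⟩ := h5 cx.first.2.1 _ (fun _ _ _ _ _ _ h => h.1) _ _ _ _ _ _ ok out pre.run pre.bd
  have W0 : ∀ m, 0 ≤ d.toFd.W c M m := fun m => Real.log_nonneg (Sq.one_le_AA _ _ _ _ _)
  obtain cap : ∀ x ∈ d.Lf, x.2 ≤ c.κ * (d.toFd.W c M x.1 + c.lam + 10) + c.lam := fun x hx => by
    obtain a : (d.S M).Wt c ((d.S M).fr (d.n + 1)) (d.n + 1) x.1 0 ≤ d.toFd.W c M x.1 + c.lam + 10 :=
      max_le (show d.toFd.W c M x.1 ≤ _ by linarith only [l0, ε0]) (by rw [add_zero]; exact (el x hx).wle)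
    obtain a' := mul_le_mul_of_nonneg_left a (show 0 ≤ c.κ by linarith only [ε0, κ])
    rcases List.mem_cons.1 hx with rfl | q
    · refine pre.cap.trans (max_le ?_ (by linarith only [l0, ε0, c1, a']))
      obtain u : (d.S M).sg c ((d.S M).fr (d.n + 1)) (d.n + 1) d.p / c.e3 ≤ d.toFd.W c M d.p + c.cc := by
        rw [div_le_iff₀ e0]
        refine b3.trans ?_
        rw [mul_comm _ c.e3]
        exact mul_le_mul_of_nonneg_right ε' (add_nonneg (W0 d.p) (by linarith only [ε0, cc.1]))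
      simp only
      linarith only [l0, ε0, cc, κ, κl, u, W0 d.p, cc.2, mul_le_mul_of_nonneg_right κ (W0 d.p)]
    · obtain ⟨L, -, u⟩ := sub_run pre.run x q
      linarith only [l0, ε0, c1, a', u.2.c1]
  obtain Wt : ∀ x ∈ d.Lf, ∀ σ, d.s0 c M ≤ σ → (d.S M).Wt c (d.toFd.f M) (d.n + 1) x.1 x.2 + 5 ≤
      (d.prof c M).lw (x.1 - d.n) + (d.prof c M).sr (x.1 - d.n) + σ := fun x hx σ hσ => by
    have a := (q3 x hx).2.2.2.1
    obtain this : (d.S M).Wt c (d.toFd.f M) (d.n + 1) x.1 x.2 ≤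
        (d.prof c M).lw (x.1 - d.n) + (d.prof c M).sr (x.1 - d.n) + σ - 5 :=
      max_le (show d.toFd.W c M x.1 ≤ _ by linarith only [l0, ε0, cl, s1, se, eV, hσ, a, sg x hx, sr0 (x.1 - d.n)])
        (by linarith only [l0, ε0, cl, s1, se, eV, hσ, a, sr1 x hx, cc.2])
    linarith only [this]
  have y1 : d.y c M ≤ c.C0 * d.V c M := Int.floor_le _
  have y2 : c.C0 * d.V c M < d.y c M + 1 := Int.lt_floor_add_one _
  obtain ⟨y4, y5, y6, y3⟩ := ny _ y1 y2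
  have hi : c.bl / 2 < c.C0 * d.V c M := hi
  obtain fok := hH cx.first M hM d pre (d.y c M) (by linarith only [l0, ε0, V0, y2, y5, hi]) y1
  have sok := cx.seeds.ok _ _ fok
  refine ⟨el, fun σ hσ => ⟨⟨p4, p4'⟩, fun k hk => ?_, fun k hk k' hk' h => ?_, fun k hk => ?_,
      fun k hk k' hk' h => ?_, fun k hk h => ?_, ?_, fun k hk => ?_, fun k hk => ?_⟩, top,
    fun x hx => ?_, fun k hk => ?_, lt, fun x hx j hj => ?_, ⟨y3, y6, ?_⟩,
    ⟨by linarith only [s1, se], by linarith only [s2, se], by linarith only [l0, ε0, cl, s1, se, y4], by linarith only [p9, l0, ε0, cl, nl, s1, se, eV]⟩, xp, ?_,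
    fun j hj => ?_, ?_, fok, sok, fun j hj h => ?_, fun x hx a b => ?_, ld0,
    (d.S M).load_mono c (by linarith only [ε0, k0]) kb (by linarith only [ε0, C0]) d.n y3⟩
  · obtain ⟨x, hx, rfl⟩ := hT k hk
    obtain ⟨a, -, -, -, b, -, e⟩ := q3 x hx
    exact ⟨b, e, a.trans (el x hx).lev.2⟩
  · rcases h.eq_or_lt with rfl | h
    · exact le_rfl
    · exact (p5 k hk k' hk' h).1
  · obtain ⟨x, hx, rfl⟩ := hT k hk
    obtain ⟨a, b, e, f, -⟩ := q3 x hx
    exact ⟨by linarith only [l0, ε0, cl, s1, se, eV, hσ, a, f, sg x hx], by linarith only [l0, ε0, cl, s1, se, eV, hσ, b, e, (el x hx).wle]⟩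
  · obtain ⟨x, hx, rfl⟩ := hT k hk
    obtain ⟨z, hz, rfl⟩ := hT k' hk'
    obtain a := (el x hx).later z hz (by omega)
    obtain b := ((el x hx).step (hs' x hx (by have := (el z hz).lt.2; omega))).1
    have e := (q3 x hx).2.2.1
    have f := (q3 z hz).2.1
    rcases sr x hx with u | u
    · linarith only [a, e, f, u.2.2]
    · rw [u.2]; push_cast; linarith only [a, b, e, f]
  · obtain ⟨x, hx, rfl⟩ := hT k hk
    obtain ⟨-, -, z, hz, a, b, e⟩ := (el x hx).step (hs' x hx (by omega))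
    refine ⟨_, mT z hz, by omega, fun l hl h' => ?_, by linarith only [e, Wt x hx σ hσ, (q3 z hz).1]⟩
    obtain ⟨u, hu, rfl⟩ := hT l hl
    rcases List.mem_cons.1 hu with rfl | q
    · have := (el z hz).lt.2
      simp only; omega
    · obtain this := b u q (by omega); omega
  · rw [top]
    have := Wt _ hp σ hσ
    have e : d.V c M = (d.S M).Wt c (d.toFd.f M) (d.n + 1) d.p d.r := rfl
    simp only at this
    linarith only [ε0, this, e]
  · obtain ⟨x, hx, rfl⟩ := hT k hk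
    obtain ⟨-, a, -, -, -, -, e⟩ := q3 x hx
    have b := cap x hx
    obtain f : c.κ * (d.toFd.W c M x.1 + c.lam + 10) ≤ c.κ * ((d.prof c M).Wr (x.1 - d.n) + σ) :=
      mul_le_mul_of_nonneg_left (by linarith only [l0, ε0, cl, s1, se, eV, hσ, a]) (by linarith only [ε0, κ])
    rcases sr x hx with u | u
    · linarith only [l0, ε0, cl, s1, se, eV, hσ, e, b, f, u.2.2]
    · rw [u.2]; push_cast; exact mul_nonneg (by linarith only [ε0, κ]) (by linarith only [l0, ε0, cl, s1, se, eV, hσ, e])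
  · obtain ⟨x, hx, rfl⟩ := hT k hk
    have e := (q3 x hx).2.2.1
    obtain ⟨a, b⟩ := (el x hx).lev
    rcases sr x hx with u | u
    · linarith only [l0, ε0, cl, s1, se, eV, hσ, e, a, u.2.2]
    · rw [u.2]; push_cast; linarith only [l0, ε0, cl, s1, se, eV, hσ, e, b, (el x hx).wle]
  · obtain ⟨a, b, e, f, -⟩ := q3 x hx
    have q : 0 < |d.toFd.f M x.1| := abs_pos.2 (el x hx).fr.rinv.ne
    refine ⟨mT x hx, q, a, b, (Real.le_log_iff_exp_le q).1 e, (Real.log_le_iff_le_exp q).1 f, ?_,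
      fun h => ?_⟩
    · rcases sr x hx with u | u
      · exact le_max_of_le_right u.2.1
      · exact le_max_of_le_left u.1.le
    · rcases sr x hx with u | u
      · linarith only [u.2.2]
      · exact absurd u.2 h
  · obtain ⟨x, hx, rfl⟩ := hT k hk
    rw [add_sub_cancel]
    exact ⟨⟨x.2, hx⟩, fun h => ⟨x.2, hs' x hx (by omega)⟩⟩
  · rcases sr x (hs x hx) with u | u
    · exact u.2.1.trans ((le_fold_max _).2 (.inr ⟨_, mem_filter.2 ⟨mT x (hs x hx), by omega⟩, le_rfl⟩))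
    · exact u.1.le.trans ((le_fold_max _).2 (.inl le_rfl))
  · rw [div_le_iff₀ (by linarith only [ε0, C0])]; linarith only [hi]
  · obtain a : (d.prof c M).SR ≤ 16 / 15 * Sq.sumR c d.Ls := by
      refine le_trans (sum_le_sum_of_subset_of_nonneg
        (t := (d.Ls.map fun x => x.1 - d.n).toFinset) (fun k hk => ?_) fun k _ _ => sr0 k)
        ((sum_le _ (fun k => ((d.prof c M).sr k : ℝ)) sr0 _).trans ?_)
      · obtain ⟨a, b⟩ := mem_filter.1 hk
        obtain ⟨x, hx, rfl⟩ := hT k a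
        exact List.mem_toFinset.2 (List.mem_map.2 ⟨x, hs' x hx (by omega), rfl⟩)
      · unfold Sq.sumR
        rw [← List.sum_map_mul_left]
        refine List.sum_le_sum fun x hx => ?_
        rcases sr x (hs x hx) with u | u
        · rw [if_pos u.1]; linarith only [ε0, u.1, u.2.2, cc.1]
        · rw [if_neg (not_le.2 u.1), u.2]; simp
    have b := ((hB _ _ ok).2.1 _ _ _ _ _ out pre.run pre.bd).sumr
    have e : (d.S M).xp c d.n d.p ≤ d.xV c M := xm _ (el _ hp).lev.2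
    have f : (d.S M).Wp c d.n d.p ≤ d.V c M := (el _ hp).lev.2
    rcases min_cases (d.xV c M) (d.V c M + c.lam) with u | u <;> rw [u.1] <;> linarith only [a, b, e, b4, f]
  · refine (fold_max_le _).2 ⟨by linarith only [ε0, x0, εV, cc.1], fun k hk => ?_⟩
    obtain ⟨a, b⟩ := mem_filter.1 hk
    obtain ⟨x, hx, rfl⟩ := hT k a
    obtain ⟨L, u1, u2⟩ := sub_run pre.run x (hs' x hx (by omega))
    have e := (hB _ _ ok).2.2 _ _ _ _ _ out ⟨u1, u2⟩
    have f := xm ((d.S M).Wt c ((d.S M).fr (d.n + 1)) (d.n + 1) x.1 x.2)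
      (max_le (el x hx).lev.2 (el x hx).lev.1)
    rcases sr x hx with u | u
    · linarith only [ε0, x0, εV, e, f, u.2.2, cc.1]
    · rw [u.2]; push_cast; linarith only [ε0, x0, εV, cc.1]
  · refine le_trans pre.bd (mul_le_of_le_one_left L0 ?_)
    unfold Cs.cb
    rw [div_le_one (by positivity)]
    exact one_le_pow₀ (by linarith only [l0, ε0])
  · obtain ⟨x, hx, rfl⟩ := hT j hj
    rw [add_sub_cancel]
    obtain r : (d.prof c M).rr (x.1 - d.n) ≤ x.2 := by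
      unfold Prof.rr at h ⊢
      rcases sr x hx with u | u
      · linarith only [u.2.2]
      · rw [u.2] at h; norm_num at h
    obtain ⟨L, u, -⟩ := (el x hx).run
    refine ⟨⟨by linarith only [ε0, pre.ht.1], by linarith only [ε0, pre.ht.2]⟩, (el x hx).fr, ⟨_, L, u⟩,
      Sq.Wit.anti c _ L0 (el x hx).wit r, h, ?_⟩
    generalize (d.prof c M).rr (x.1 - d.n) = ρ at r ⊢
    refine (le_or_gt ρ (c.bl / 3)).imp id fun g => ?_
    have a := (el x hx).chi.2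
    have b := cap x hx
    obtain e : (d.S M).chi c d.n x.1 ≤ 2 * c.bl + (d.S M).chi c (d.n + 2) x.1 := by
      obtain e1 := (d.S M).chi_add c (show d.n ≤ d.n + 1 by omega) (show d.n + 1 ≤ d.n + 1 + 1 by omega)
      rw [Sq.chi_succ, Sq.chi_succ] at e1
      have e2 := ((d.S M).ch1_mem c kb (d.n + 1)).2
      have e3 := ((d.S M).ch1_mem c kb (d.n + 1 + 1)).2
      rw [show d.n + 2 = d.n + 1 + 1 by ring]
      rcases le_total x.1 (d.n + 1 + 1) with v | v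
      · linarith only [e1, e2, e3, ε0, k0, (d.S M).chi_mono c (by linarith only [ε0, k0]) kb (le_refl d.n) v,
          (d.S M).chi_nonneg c (by linarith only [ε0, k0]) kb (d.n + 1 + 1) x.1]
      · rw [(d.S M).chi_add c (show d.n ≤ d.n + 1 + 1 by omega) v]; linarith only [e1, e2, e3]
    have f := nf _ ρ (r.trans b) g
    show 20 * ρ ≤ (d.S M).chi c (d.n + 2) x.1
    linarith only [g, a, e, f]
  · have a : d.s0 c M ≤ d.toFd.W c M x.1 := a
    have b : d.toFd.W c M x.1 + d.s0 c M ≤ d.V c M := b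
    exact nr _ _ _ sok y5 (el x hx).fr (el x hx).lt.2 (by linarith only [l0, ε0, cl, s1, se, eV, b, (el x hx).wle])
      ((nn _ (by linarith only [l0, ε0, cl, s1, se, a])).trans (el x hx).chi.2)

end FFE

theorem ffe (K : ℕ) : Hier fun c =>
    SOK_s c → B1_s c → B5_s c → FR_s K c → PRD_s c → HI_s K c → FFE_s K c :=
  Hier.base.mono fun _ h => FFE.main h.1

end
end Pool.Agent.MP_9cbfe4_an

end

/-! ### Part NJ -/

section

/-! Calculus of `Nj`. -/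

namespace Pool.Agent.MP_9cbfe4_an

open Finset

variable {K : ℕ} {F G : ℝ → ℝ} {t D D' B : ℝ}

theorem Nj_nonneg : 0 ≤ Nj K F t D := (Finset.le_fold_max _).2 (.inl le_rfl)

theorem le_Nj {j : ℕ} (h1 : 1 ≤ j) (h2 : j ≤ K) : |iteratedDeriv j F t| * D ^ j ≤ Nj K F t D :=
  (Finset.le_fold_max _).2 (.inr ⟨j, mem_Icc.2 ⟨h1, h2⟩, le_rfl⟩)

theorem Nj_le (hB : 0 ≤ B) (h : ∀ j, 1 ≤ j → j ≤ K → |iteratedDeriv j F t| * D ^ j ≤ B) :
    Nj K F t D ≤ B :=
  (Finset.fold_max_le _).2 ⟨hB, fun j hj => h j (mem_Icc.1 hj).1 (mem_Icc.1 hj).2⟩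

theorem Nj_att (h : 0 < Nj K F t D) :
    ∃ j, 1 ≤ j ∧ j ≤ K ∧ Nj K F t D ≤ |iteratedDeriv j F t| * D ^ j := by
  rcases (Finset.le_fold_max (s := Icc 1 K) (b := 0)
    (f := fun j => |iteratedDeriv j F t| * D ^ j) (Nj K F t D)).1 le_rfl with h' | ⟨j, hj, h'⟩
  · exact absurd h (not_lt.2 h')
  · exact ⟨j, (mem_Icc.1 hj).1, (mem_Icc.1 hj).2, h'⟩

/-- shrinking the scale by `s ≤ 1` gains at least the factor `s` -/
theorem Nj_shrink {s : ℝ} (hD : 0 ≤ D) (h0 : 0 ≤ s) (h1 : s ≤ 1) :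
    Nj K F t (s * D) ≤ s * Nj K F t D := by
  refine Nj_le (mul_nonneg h0 Nj_nonneg) fun j j1 j2 => ?_
  obtain h2 : s ^ j ≤ s := by
    simpa using pow_le_pow_of_le_one h0 h1 j1
  have h3 := le_Nj (F := F) (t := t) (D := D) j1 j2
  obtain h4 : 0 ≤ |iteratedDeriv j F t| * D ^ j := by (clear * - hD; positivity)
  rw [mul_pow]
  nlinarith only [h3, h2, h4, pow_nonneg h0 j]

/-- enlarging the scale by `s ≥ 1` costs at most `s ^ K` -/
theorem Nj_grow {s : ℝ} (hD : 0 ≤ D) (h1 : 1 ≤ s) : Nj K F t (s * D) ≤ s ^ K * Nj K F t D := by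
  obtain h0 : 0 ≤ s := by linarith only [h1]
  refine Nj_le (mul_nonneg (pow_nonneg h0 K) Nj_nonneg) fun j j1 j2 => ?_
  have h2 : s ^ j ≤ s ^ K := pow_le_pow_right₀ h1 j2
  have h3 := le_Nj (F := F) (t := t) (D := D) j1 j2
  obtain h4 : 0 ≤ |iteratedDeriv j F t| * D ^ j := by positivity
  rw [mul_pow]
  nlinarith only [h2, h3, h4, pow_nonneg h0 j]

/-- grid form of `Nj_shrink` -/
theorem Nj_exp_le {a b : ℝ} (h : a ≤ b) :
    Nj K F t (Real.exp (-b)) ≤ Real.exp (a - b) * Nj K F t (Real.exp (-a)) := by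
  obtain e : Real.exp (-b) = Real.exp (a - b) * Real.exp (-a) := by
    rw [← Real.exp_add]; congr 1; ring
  rw [e]
  exact Nj_shrink (Real.exp_pos _).le (Real.exp_pos _).le (Real.exp_le_one_iff.2 (by linarith only [h]))

/-- grid form of `Nj_grow` -/
theorem Nj_exp_ge {a b : ℝ} (h : a ≤ b) :
    Nj K F t (Real.exp (-a)) ≤ Real.exp (K * (b - a)) * Nj K F t (Real.exp (-b)) := by
  obtain e : Real.exp (-a) = Real.exp (b - a) * Real.exp (-b) := by
    rw [← Real.exp_add]; congr 1; ring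
  rw [e, Real.exp_nat_mul]
  exact Nj_grow (Real.exp_pos _).le (Real.one_le_exp (by linarith only [h]))

/-- perturbation by a function with small jets -/
theorem Nj_sub {e : ℝ} (hD : 0 ≤ D) (hD1 : D ≤ 1) (he : 0 ≤ e)
    (h : ∀ j, 1 ≤ j → j ≤ K → |iteratedDeriv j F t - iteratedDeriv j G t| ≤ e) :
    |Nj K F t D - Nj K G t D| ≤ e * D := by
  obtain key : ∀ {F G : ℝ → ℝ},
      (∀ j, 1 ≤ j → j ≤ K → |iteratedDeriv j F t - iteratedDeriv j G t| ≤ e) →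
      Nj K F t D ≤ Nj K G t D + e * D := by
    intro F G h
    refine Nj_le (add_nonneg Nj_nonneg (mul_nonneg he hD)) fun j j1 j2 => ?_
    obtain h2 : D ^ j ≤ D := by
      simpa using pow_le_pow_of_le_one hD hD1 j1
    have h3 := le_Nj (F := G) (t := t) (D := D) j1 j2
    obtain h4 : |iteratedDeriv j F t| ≤ |iteratedDeriv j G t| + e := by
      linarith only [abs_sub_abs_le_abs_sub (iteratedDeriv j F t) (iteratedDeriv j G t), h j j1 j2]
    have h5 := mul_le_mul_of_nonneg_right h4 (pow_nonneg hD j)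
    nlinarith only [h3, h5, he, h2]
  have a := key h
  have b := key (F := G) (G := F) fun j j1 j2 => by rw [abs_sub_comm]; exact h j j1 j2
  rw [abs_le]
  constructor <;> linarith only [b, a]

end Pool.Agent.MP_9cbfe4_an

end

/-! ### Part FMACH1 -/

section

/-! Row MACH1 of section F: the chain of stages for a family with common scales. -/

namespace Pool.Agent.MP_9cbfe4_an

open Finset Filter Topology MeasureTheory

noncomputable section

namespace FMACH1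

theorem covI_mono {A A' : Set ℝ} {N N' l : ℝ} (H : CovI A N l) (hA : A' ⊆ A) (hN : N ≤ N') :
    CovI A' N' l := by
  obtain ⟨T, h1, h2⟩ := H
  exact ⟨T, h1.trans hN, hA.trans h2⟩

theorem fam_sub {K : ℕ} {c : Cs} {M : Mdl} {sd : Fd → ℝ → Seed} {y tU nu : ℝ} {lab : Dat → ℝ}
    {π : Prof} {C C' : Set Dat} (H : Fam K c M sd y tU nu lab π C) (h : C' ⊆ C) :
    Fam K c M sd y tU nu lab π C' where
  gd z hz := H.gd z (h hz)
  lvl z hz := H.lvl z (h hz)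
  nu_eq z hz := H.nu_eq z (h hz)
  two z hz z' hz' := H.two z (h hz) z' (h hz')
  loc x l1 l2 a b := covI_mono (H.loc x l1 l2 a b)
    (fun _ ⟨p, z, hz, q⟩ => ⟨p, z, h hz, q⟩) le_rfl
  low l a := covI_mono (H.low l a) (fun _ ⟨z, hz, q⟩ => ⟨z, h hz, q⟩) le_rfl

theorem tel (w0 ι : ℝ) (n : ℕ) :
    ∑ j ∈ range n, ι * (w0 * (1 + ι) ^ j) = w0 * (1 + ι) ^ n - w0 := by
  induction n with
  | zero => simp
  | succ n ih => rw [sum_range_succ, ih]; ring

theorem prod_tel (h e : ℕ → ℝ) (hh : ∀ i, 0 < h i) (I : ℕ) :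
    (∏ i ∈ range I, Real.exp (e i) * (h i / h (i + 1))) * h I
      = Real.exp (∑ i ∈ range I, e i) * h 0 := by
  induction I with
  | zero => simp
  | succ I ih =>
    rw [prod_range_succ, sum_range_succ, Real.exp_add]
    obtain this := (hh (I + 1)).ne'
    calc _ = ((∏ i ∈ range I, Real.exp (e i) * (h i / h (i + 1))) * h I) * Real.exp (e I) := by
          field_simp
      _ = _ := by rw [ih]; ring

open Classical in
/-- the numeric budget -/
theorem budget (P : ℕ → Prop) (D L : ℕ → ℝ) (I : ℕ) {σ p q : ℝ} (hp : 0 ≤ p) (hq0 : 0 ≤ q)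
    (hq : q ≤ 2) (hD : ∀ i, 0 ≤ D i) (hL : ∀ i, L i ≤ D i) :
    ∑ i ∈ range I, (20 * σ + if P i then 4 * D i else p * D i - q * L i)
      ≤ 20 * σ * I + p * ∑ i ∈ range I, D i - q * ∑ i ∈ range I, L i
        + 6 * ∑ i ∈ (range I).filter P, D i := by
  obtain h1 : ∑ i ∈ range I, (20 * σ + if P i then 4 * D i else p * D i - q * L i)
      ≤ ∑ i ∈ range I, (20 * σ + p * D i - q * L i + 6 * if P i then D i else 0) := by
    refine sum_le_sum fun i _ => ?_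
    obtain a1 := mul_nonneg hp (hD i)
    obtain a2 := mul_le_mul_of_nonneg_left (hL i) hq0
    obtain a3 := mul_le_mul_of_nonneg_right hq (hD i)
    split_ifs <;> linarith only [a1, a2, a3]
  refine h1.trans (le_of_eq ?_)
  rw [sum_filter, sum_add_distrib, sum_sub_distrib, sum_add_distrib, sum_const, ← mul_sum, ← mul_sum,
    ← mul_sum, card_range, nsmul_eq_mul]
  ring

/-- basic signs -/
theorem signs {K : ℕ} {c : Cs} (N : FNum K c) :
    8 ≤ c.C0 ∧ 1 ≤ c.C1 * c.lam ∧ c.e3 ≤ 1 / 7 ∧ 0 < c.io K ∧ 0 < c.th ∧ 0 < c.bl := by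
  obtain hK : (10 : ℝ) ≤ K := by exact_mod_cast N.hK
  obtain hκ := N.hκ
  obtain hG := N.hG
  obtain ⟨t0, t1⟩ := N.hθ
  obtain k3 : (1 : ℝ) ≤ (K : ℝ) ^ 3 := one_le_pow₀ (by linarith only [hK, t0, t1])
  obtain a1 : (10 : ℝ) ^ 6 ≤ 10 ^ 6 * (K : ℝ) ^ 3 * (c.κ + 1) := by nlinarith only [hκ, t0, t1, k3]
  obtain a2 : (10 : ℝ) ^ 6 ≤ 10 ^ 6 * (K : ℝ) ^ 3 * (c.κ + 1) * c.CG := by nlinarith only [hκ, hG, t0, t1, k3, a1]
  obtain a3 := a2.trans N.hC0
  obtain c0 : 0 < c.C0 := by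
    by_contra h
    nlinarith only [a3, t0, t1, not_lt.1 h]
  obtain c8 : 8 ≤ c.C0 := by nlinarith only [t1, a3, t0, c0]
  obtain c1 : 1 ≤ c.C1 := le_trans (by nlinarith only [hK, t0, t1, c8]) N.hC1
  obtain l0 : 0 < c.lam := by
    by_contra h
    nlinarith only [t0, t1, not_lt.1 h, Real.sqrt_nonneg c.a, N.hS]
  obtain l1 : 1 ≤ c.lam := by linarith only [t0, t1, Real.log_le_sub_one_of_pos l0, N.hl.2]
  obtain ⟨e0, e1⟩ := N.he
  obtain a4 : (10 : ℝ) ^ 6 ≤ 10 ^ 6 * (K : ℝ) ^ 3 * (c.κ + 1) * c.C0 := by nlinarith only [hκ, k3, a3, t0, t1, a1]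
  obtain a5 : (10 : ℝ) ^ 6 ≤ 10 ^ 6 * (K : ℝ) ^ 3 * (c.κ + 1) * c.C0 * c.C1 := by nlinarith only [hκ, k3, a3, c1, t0, t1, a4, a1]
  obtain a6 := mul_le_mul_of_nonneg_right a5 e0.le
  obtain e25 : 0 < c.e3 ^ 25 := pow_pos e0 _
  obtain m0 : 0 < c.M1 := by
    by_contra h
    nlinarith only [a3, e1, a6, t0, c8, e0, e25, not_lt.1 h, N.hM]
  obtain b0 : 0 < c.β := by
    by_contra h
    obtain this : 0 < 1000 * c.C0 * c.C1 * c.M1 := by positivity
    nlinarith only [this, e25, not_lt.1 h, N.hβ]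
  obtain th0 : 0 < c.th := by unfold Cs.th; positivity
  refine ⟨c8, by nlinarith only [l1, t0, t1, c1, l0], by linarith only [t0, e0, e1, a6], ?_, th0, mul_pos b0 l0⟩
  unfold Cs.io
  positivity

/-- a wasted stage -/
theorem waste_step {C : Set Dat} {lab : Dat → ℝ} {x y0 d d' D σ : ℝ} {k k' : ℕ} (d0 : 0 < d)
    (d1 : 0 < d') (hd : d / d' ≤ Real.exp D) (hD : 0 ≤ D) (hσ : 1 ≤ σ)
    (hk : (k : ℝ) ≤ k' + 3 * D + 2 * σ) :
    Cov Dat.tt lab (Rect Dat.tt lab C x (Real.exp (-(k : ℝ)) / 8) y0 d) (Real.exp (-(k' : ℝ)) / 8) d'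
      (Real.exp (20 * σ + 4 * D) * (Real.exp (-(k : ℝ)) / 8 / (Real.exp (-(k' : ℝ)) / 8))) := by
  obtain h0 : 0 < Real.exp (-(k : ℝ)) / 8 := by positivity
  obtain h1 : 0 < Real.exp (-(k' : ℝ)) / 8 := by positivity
  obtain a : Cov Dat.tt lab (Rect Dat.tt lab C x (Real.exp (-(k : ℝ)) / 8) y0 d)
      (Real.exp (-(k : ℝ)) / 8) d 1 :=
    ⟨{(x, y0)}, by simp, fun z hz => ⟨_, mem_singleton_self _, hz.2.1, hz.2.2⟩⟩
  refine (a.refine h0.le d0.le h1 d1).mono subset_rfl le_rfl le_rfl ?_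
  set r := Real.exp (-(k : ℝ)) / 8 / (Real.exp (-(k' : ℝ)) / 8) with hr
  obtain r0 : 0 < r := div_pos h0 h1
  obtain e1 : r = Real.exp (-(k : ℝ) + k') := by
    rw [hr, Real.exp_add, Real.exp_neg (k' : ℝ)]
    field_simp
  obtain e2 : 1 ≤ Real.exp (3 * D + 2 * σ) * r := by
    rw [e1, ← Real.exp_add]
    exact Real.one_le_exp (by linarith only [hk])
  obtain e3 : 1 ≤ Real.exp (3 * D + 2 * σ) := Real.one_le_exp (by linarith only [hD, hσ])
  obtain e4 : 1 ≤ Real.exp D := Real.one_le_exp hD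
  obtain e5 : r + 1 ≤ 2 * (Real.exp (3 * D + 2 * σ) * r) := by nlinarith only [e2, r0, e3]
  obtain e6 : d / d' + 1 ≤ 2 * Real.exp D := by linarith only [hd, e4]
  obtain e7 : 4 ≤ Real.exp (18 * σ) := by linarith only [hσ, Real.add_one_le_exp (18 * σ)]
  obtain e8 : Real.exp (20 * σ + 4 * D)
      = Real.exp (18 * σ) * (Real.exp (3 * D + 2 * σ) * Real.exp D) := by
    rw [← Real.exp_add, ← Real.exp_add]; congr 1; ring
  calc 1 * (r + 1) * (d / d' + 1) ≤ 1 * (2 * (Real.exp (3 * D + 2 * σ) * r)) * (2 * Real.exp D) := by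
        gcongr
    _ = 4 * (Real.exp (3 * D + 2 * σ) * Real.exp D) * r := by ring
    _ ≤ _ := by rw [e8]; gcongr

theorem le_div_small {σ e : ℝ} (h0 : 0 < e) (h1 : e ≤ 1 / 7) (h : 1 ≤ σ) : σ ≤ σ / e := by
  rw [le_div_iff₀ h0]; nlinarith only [h1, h, h0]

theorem fin_sum {S σ u x p q wI w0 A Ls W R : ℝ} (σ1 : 1 ≤ σ) (m9 : σ ≤ u) (m8 : x ≤ 20 * u)
    (B : S ≤ x + p * (wI - w0) - q * Ls + 6 * W) (W3 : 6 * W ≤ R)
    (m5 : q * (A - w0 - (9 * σ + 1)) ≤ q * Ls) (m6 : q * (9 * σ + 1) ≤ 2 * (9 * σ + 1))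
    (m7 : 0 ≤ p * w0) : S + 4 ≤ 45 * u + (p * wI - q * (A - w0) + R) := by
  linarith only [σ1, m9, m8, B, W3, m5, m6, m7]

end FMACH1

open FMACH1 Classical in
theorem mach1 : ∀ K c, NB_s K c → SC_s K c → CMP_s K c → REG_s K c → PRD_s c → MACH1_s K c := by
  intro K c hNB hSC hCMP hREG hPRD M sd X y tU nu lab π C σ w0 θ dd N0 E Sr dl I H kk hkk
  rcases C.eq_empty_or_nonempty with rfl | ⟨z0, h0⟩
  · simp
  obtain ⟨c8, c1, e7, ι0, th0, bl0⟩ := signs X.num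
  obtain e0 := X.num.he.1
  obtain hK : (10 : ℝ) ≤ K := by exact_mod_cast X.num.hK
  set ι := c.io K with hι
  set w : ℕ → ℝ := fun i => w0 * (1 + ι) ^ i with hw
  obtain ws : ∀ i, w (i + 1) = (1 + ι) * w i := fun i => by simp only [hw]; ring
  obtain G0 := H.fam.gd z0 h0
  obtain ⟨y0, -, p0⟩ := H.fam.lvl z0 h0
  obtain ⟨v1, v2, v3⟩ := G0.fe.lev
  obtain V0 : 0 < z0.V c M := lt_of_lt_of_le (by positivity) v3
  obtain L0 := H.lev z0 h0 0 (Nat.zero_le _)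
  obtain s1 : c.C1 * c.lam ≤ σ := by
    obtain this := G0.fe.sl.1
    obtain this : 0 ≤ c.e3 ^ 22 * z0.V c M := by positivity
    linarith [L0.s]
  obtain σ1 : 1 ≤ σ := c1.trans s1
  obtain w00 : 0 < w0 := by
    obtain this := L0.lo
    simp only [pow_zero, mul_one] at this
    by_contra h
    nlinarith only [c1, s1, this, e0, not_lt.1 h]
  obtain wpos : ∀ i, 0 < w i := fun i => by simp only [hw]; positivity
  obtain D0 : ∀ i, 0 ≤ ι * w i := fun i => (mul_pos ι0 (wpos i)).le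
  obtain V3 : 3 ≤ z0.V c M := by linarith only [c1, s1, w00, L0.hi, wpos 0]
  obtain yV : 4 * z0.V c M ≤ y := by
    rw [y0] at v2
    obtain this : z0.V c M - 1 ≤ y / c.C0 := by linarith only [v2]
    rw [le_div_iff₀ (by linarith only [c8, e7, e0])] at this
    nlinarith only [e7, e0, V3, this, c8, V0]
  obtain yw : ∀ i ≤ I, tiny y ≤ Real.exp (-w i) := fun i hi => by
    refine Real.exp_le_exp.2 ?_
    obtain this := (H.lev z0 h0 i hi).hi
    change w i + 3 * σ ≤ _ at this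
    linarith only [c1, e7, e0, s1, yV, this]
  obtain S1 : 1 ≤ c.S0 y := Real.one_le_exp (mul_nonneg (Real.sqrt_nonneg _) (by linarith only [e7, e0, V3, yV]))
  obtain rU0 : 0 ≤ c.rU y := by unfold Cs.rU; positivity
  obtain rU1 : c.rU y ≤ 1 := by
    unfold Cs.rU
    rw [div_le_one (by positivity)]
    exact one_le_pow₀ S1
  obtain ty : 0 < tiny y := Real.exp_pos _
  -- labels
  obtain dpos : ∀ u, 0 < dl u := fun u => by
    rcases H.reg with ⟨-, -, rfl⟩ | ⟨-, -, rfl⟩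
    · exact Real.exp_pos _
    · exact ty
  obtain dle : ∀ i ≤ I, dl (w i) ≤ Real.exp (-w i) := fun i hi => by
    rcases H.reg with ⟨-, -, rfl⟩ | ⟨-, -, rfl⟩
    · exact le_rfl
    · exact yw i hi
  obtain dq : ∀ i, dl (w i) / dl (w (i + 1)) ≤ Real.exp (ι * w i) := fun i => by
    rcases H.reg with ⟨-, -, rfl⟩ | ⟨-, -, rfl⟩
    · rw [← Real.exp_sub, ws]
      exact Real.exp_le_exp.2 (by linarith only [])
    · rw [div_self ty.ne']
      exact Real.one_le_exp (D0 i)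
  obtain hθ : 0 ≤ θ ∧ θ ≤ 1 ∧ 0 ≤ dd := by
    rcases H.reg with ⟨rfl, rfl, -⟩ | ⟨rfl, rfl, -⟩
    · exact ⟨zero_le_one, le_rfl, X.num.hd.1.le⟩
    · exact ⟨le_rfl, zero_le_one, le_rfl⟩
  -- the chain
  obtain ⟨P, hPd⟩ : ∃ P : ℕ → Prop,
      ∀ i, P i ↔ (kk i = π.cl c σ (π.bs K c (w i)) ∨ π.Cross K c (w i)) := ⟨_, fun _ => Iff.rfl⟩
  let h : ℕ → ℝ := fun i => Real.exp (-(kk i : ℝ)) / 8
  obtain hpos : ∀ i, 0 < h i := fun i => by simp only [h]; positivity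
  let L : ℕ → ℝ := fun i => π.LocS K c σ (w i)
  let e : ℕ → ℝ := fun i => 20 * σ +
    if P i then 4 * (ι * w i) else (θ + dd / K) * (ι * w i) - (θ + 1 / K) * L i
  obtain ⟨T, hT, hc⟩ := H.cov
  obtain N00 : 0 ≤ N0 := (Nat.cast_nonneg _).trans hT
  obtain st : Cov Dat.tt lab C (h 0) (dl (w 0)) (N0 * (2 * c.rU y / h 0 + 1) * 2) := by
    obtain a : Cov Dat.tt lab C (2 * c.rU y) (dl w0) ((({tU - c.rU y} : Finset ℝ).card : ℝ) * T.card) := by
      refine Cov.of_prod _ _ (fun z hz => ⟨_, mem_singleton_self _, ?_⟩) fun z hz => ?_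
      · obtain this := abs_le.1 (H.fam.lvl z hz).2.1
        exact ⟨by unfold Dat.tt; linarith only [this.1], by unfold Dat.tt; linarith only [this.2]⟩
      · obtain ⟨x, hx, hx'⟩ := Set.mem_iUnion₂.1 (hc ⟨z, hz, rfl⟩)
        exact ⟨x, hx, hx'⟩
    obtain w0e : w 0 = w0 := by simp [hw]
    rw [w0e]
    refine (a.refine (by linarith only [rU0]) (dpos _).le (hpos 0) (dpos w0)).mono subset_rfl le_rfl le_rfl ?_
    rw [div_self (dpos w0).ne', card_singleton, Nat.cast_one, one_mul, one_add_one_eq_two]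
    obtain this := hpos 0
    gcongr
  obtain ch : Cov Dat.tt lab C (h I) (dl (w I)) (N0 * (2 * c.rU y / h 0 + 1) * 2 *
      ∏ i ∈ range I, Real.exp (e i) * (h i / h (i + 1))) := by
    refine Cov.chain (hh := h) (dd := fun i => dl (w i)) st
      (fun i => (mul_pos (Real.exp_pos _) (div_pos (hpos _) (hpos _))).le) fun i hi x y1 => ?_
    by_cases hP : P i
    · obtain a := (hCMP M sd X z0 σ (w i) (w (i + 1)) G0 (ws i) (H.lev z0 h0 i hi.le)
        (H.lev z0 h0 (i + 1) hi)).1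
      rw [hkk z0 h0 i hi.le, hkk z0 h0 (i + 1) hi] at a
      simp only [e, if_pos hP]
      exact waste_step (dpos _) (dpos _) (dq i) (D0 i) σ1 (by linarith only [a])
    · obtain sub : Rect Dat.tt lab C x (h i) y1 (dl (w i)) ⊆ C := fun z hz => hz.1
      obtain Z : Zone K c M sd y tU nu lab π (Rect Dat.tt lab C x (h i) y1 (dl (w i))) σ (w i)
          (w (i + 1)) (kk i) (kk (i + 1)) :=
        { fam := fam_sub H.fam sub
          hw := ws i
          lev := fun z hz => ⟨H.lev z hz.1 i hi.le, H.lev z hz.1 (i + 1) hi⟩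
          ks := fun z hz => ⟨hkk z hz.1 i hi.le, hkk z hz.1 (i + 1) hi⟩
          tt := fun z hz z' hz' => by
            obtain a := hz.2.1
            obtain b := hz'.2.1
            unfold Dat.tt at a b
            change |z.t - z'.t| ≤ h i
            exact abs_le.2 ⟨by linarith only [a.1, b.2], by linarith only [a.2, b.1]⟩
          ll := fun z hz z' hz' => by
            obtain a := hz.2.2
            obtain b := hz'.2.2
            obtain this := dle i hi.le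
            exact abs_le.2 ⟨by linarith only [this, a.1, b.2], by linarith only [this, a.2, b.1]⟩ }
      obtain a1 : (θ = 1 ∧ 0 ≤ dd ∧ dl (w (i + 1)) = Real.exp (-w (i + 1))) ∨
          (θ = 0 ∧ dd = 0 ∧ 0 < dl (w (i + 1)) ∧ dl (w (i + 1)) ≤ Real.exp (-w (i + 1))) := by
        rcases H.reg with ⟨a, -, b⟩ | ⟨a, b, -⟩
        · exact Or.inl ⟨a, hθ.2.2, by rw [b]⟩
        · exact Or.inr ⟨a, b, dpos _, dle _ hi⟩
      obtain a2 : CovI (lab '' Rect Dat.tt lab C x (h i) y1 (dl (w i)))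
          (c.S0 y * Real.exp (dd * (w (i + 1) - w i))) (dl (w (i + 1))) := by
        rcases H.reg with ⟨-, b, rfl⟩ | ⟨-, b, rfl⟩
        · refine covI_mono (H.fam.loc y1 (Real.exp (-w i)) (Real.exp (-w (i + 1))) (yw _ hi)
            (Real.exp_le_exp.2 (by rw [ws]; linarith only [D0 i]))) ?_ (le_of_eq ?_)
          · rintro _ ⟨z, hz, rfl⟩
            exact ⟨hz.2.2, z, hz.1, rfl⟩
          · rw [← Real.exp_sub, ← Real.exp_mul, b]
            congr 2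
            ring
        · refine ⟨{y1}, by rw [b]; simpa using S1, ?_⟩
          rintro _ ⟨z, hz, rfl⟩
          simpa using hz.2.2
      obtain a3 := hREG M sd X y tU nu lab π _ σ _ _ _ _ Z (fun q => hP ((hPd i).2 (Or.inl q)))
        (fun q => hP ((hPd i).2 (Or.inr q))) x θ dd (dl (w (i + 1))) (fun z hz => hz.2.1) a1 a2
      refine a3.mono subset_rfl le_rfl le_rfl (le_of_eq ?_)
      simp only [e, if_neg hP, h, L]
      rw [div_div_div_cancel_right₀ (by norm_num), ws]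
      congr 2
      ring
  refine (ch.vol (hpos I).le).trans (ENNReal.ofReal_le_ofReal ?_)
  rw [mul_assoc, prod_tel h e hpos]
  -- charging
  obtain chg : ∀ i, ∃ m, i < I → P i → π.Chg K c m (w i) := fun i => by
    by_cases hi : i < I
    swap
    · exact ⟨0, fun a => absurd a hi⟩
    by_cases hP : P i
    swap
    · exact ⟨0, fun _ a => absurd a hP⟩
    obtain Li := H.lev z0 h0 i hi.le
    rcases (hPd i).1 hP with a | a
    · obtain b := (hSC M sd X z0 σ (w i) G0 Li).clip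
      rw [hkk z0 h0 i hi.le, p0] at b
      obtain ⟨m, hm⟩ := b a
      exact ⟨m, fun _ _ => hm⟩
    · obtain b := G0.fe.ok σ Li.s
      rw [p0] at b
      obtain ⟨m, hm⟩ := ((hNB X.num π σ _ (w i) b s1 Li.lo Li.hi).2
        (by rw [← ws]; exact (H.lev z0 h0 (i + 1) hi).hi)).cross a
      exact ⟨m, fun _ _ => hm⟩
  choose wit hwit using chg
  obtain hW : ∀ i ∈ (range I).filter P, π.Chg K c (wit i) (w i) := fun i hi =>
    hwit i (mem_range.1 (mem_filter.1 hi).1) (mem_filter.1 hi).2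
  obtain μ0 : 0 ≤ 10 * c.th * K := by positivity
  have W1 := fn_waste ((range I).filter P) wit
    (fun m => π.lw m + π.sr m - 10 * c.th * K * π.sr m) (fun m => 2 * (10 * c.th * K * π.sr m))
    (fun m => 10 * c.th * K * π.sr m / ι) w00 ι0 (fun i _ => by (clear * - th0 hK; positivity)) fun i hi => by
      obtain ⟨-, -, a, b⟩ := hW i hi
      obtain this := abs_le.1 a
      refine ⟨?_, ?_, ?_⟩
      · change _ ≤ w i
        linarith only [this.1]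
      · change w i ≤ _
        linarith only [this.2]
      · change w i ≤ _
        rw [le_div_iff₀ ι0]
        linarith only [b]
  obtain W2 : ∑ m ∈ ((range I).filter P).image wit,
      (2 * (10 * c.th * K * π.sr m) + ι * (10 * c.th * K * π.sr m / ι)) ≤ 30 * c.th * K * π.SR := by
    unfold Prof.SR
    rw [mul_sum]
    calc _ = ∑ m ∈ ((range I).filter P).image wit, 30 * c.th * K * (π.sr m : ℝ) :=
          sum_congr rfl fun m _ => by field_simp; ring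
      _ ≤ _ := by
          refine sum_le_sum_of_subset_of_nonneg (fun m hm => ?_) fun m _ _ => by (clear * - th0 hK; positivity)
          obtain ⟨i, hi, rfl⟩ := mem_image.1 hm
          exact mem_filter.2 ⟨(hW i hi).1, (hW i hi).2.1⟩
  obtain SR0 : 0 ≤ π.SR := sum_nonneg fun _ _ => Nat.cast_nonneg _
  obtain W3 : 6 * ∑ i ∈ (range I).filter P, ι * w i ≤ 210 * c.th * K * Sr := by
    obtain a := mul_le_mul_of_nonneg_left H.sr μ0
    obtain b := mul_nonneg μ0 SR0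
    obtain this := W1.trans W2
    change ∑ i ∈ (range I).filter P, ι * w i ≤ _ at this
    linarith only [W1, W2, a, b]
  -- events
  obtain ⟨-, -, -, -, -, q6, q7, q8, -⟩ := hPRD _ M z0 π X.okk.ok G0.pre p0.symm
  obtain umono : Monotone fun i => w i - 6 * σ := monotone_nat_of_le_succ fun i => by
    rw [ws]; linarith only [D0 i]
  obtain ⟨f1, f2⟩ := fn_loc π.Ev (π.a c) π.b (fun i => w i - 6 * σ) I (V := z0.V c M) umono
    (fun m hm => (q6 m hm).1) (fun m hm => by linarith only [e7, e0, (q6 m hm).2.2.1]) q7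
  obtain Le : ∀ i, ∑ m ∈ π.Ev, ovl (π.a c m) (π.b m) (w i - 6 * σ) (w (i + 1) - 6 * σ) = L i :=
    fun i => by rw [ws]; rfl
  simp only [Le] at f1 f2
  obtain LD : ∀ i, L i ≤ ι * w i := fun i => by have := f2 i; rw [ws] at this; linarith only [this]
  obtain K0 : (0 : ℝ) < K := by linarith only [e7, e0, hK]
  obtain K1 : 1 / (K : ℝ) ≤ 1 := by rw [div_le_one K0]; linarith only [e7, e0, hK]
  obtain K2 : 0 < 1 / (K : ℝ) := by positivity
  obtain hp : 0 ≤ θ + dd / K := add_nonneg hθ.1 (div_nonneg hθ.2.2 K0.le)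
  obtain hq0 : 0 ≤ θ + 1 / K := by linarith only [K2, hθ.1]
  obtain hq2 : θ + 1 / K ≤ 2 := by linarith only [K1, hθ.2.1]
  obtain B := budget P (fun i => ι * w i) L I (σ := σ) hp hq0 hq2 D0 LD
  obtain tl : ∑ i ∈ range I, ι * w i = w I - w0 := tel w0 ι I
  rw [tl] at B
  obtain w0e : w 0 = w0 := by simp [hw]
  obtain m1 : max 0 (w 0 - 6 * σ) ≤ w0 := max_le w00.le (by rw [w0e]; linarith only [c1, e7, e0, s1])
  obtain m2 : max 0 (z0.V c M - (w I - 6 * σ)) ≤ 9 * σ + 1 := max_le (by linarith only [c1, e7, e0, s1]) (by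
    obtain this := H.top z0 h0
    change _ ≤ w I + 3 * σ + 1 at this
    linarith only [this])
  obtain m3 := mul_le_mul_of_nonneg_left (H.ev z0 h0) (show 0 ≤ 1 - 7 * c.e3 by linarith only [e7])
  obtain m4 : (1 - 7 * c.e3) * E - w0 - (9 * σ + 1) ≤ ∑ i ∈ range I, L i := by linarith only [q8, f1, m1, m2, m3]
  obtain m5 := mul_le_mul_of_nonneg_left m4 hq0
  obtain m6 := mul_le_mul_of_nonneg_right hq2 (show 0 ≤ 9 * σ + 1 by linarith only [c1, e7, e0, s1])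
  obtain m7 := mul_nonneg hp w00.le
  obtain m8 : 20 * σ * I ≤ 20 * (σ / c.e3) := by
    obtain this := mul_le_mul_of_nonneg_left H.hI (show 0 ≤ 20 * σ by linarith only [c1, e7, e0, s1])
    calc _ ≤ _ := this
      _ = _ := by ring
  obtain m9 : σ ≤ σ / c.e3 := le_div_small e0 e7 σ1
  obtain fin : ∑ i ∈ range I, e i + 4 ≤ 45 * σ / c.e3 + MachB K c w0 θ dd E Sr I := by
    rw [mul_div_assoc]
    exact fin_sum σ1 m9 m8 B W3 m5 m6 m7
  obtain h8 : h 0 ≤ 1 / 8 := by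
    obtain this : Real.exp (-(kk 0 : ℝ)) ≤ 1 := Real.exp_le_one_iff.2 (by simp)
    simp only [h]
    linarith only [this]
  obtain g1 : (2 * c.rU y / h 0 + 1) * 2 * h 0 ≤ Real.exp 4 := by
    obtain this := (hpos 0).ne'
    calc _ = (2 * c.rU y + h 0) * 2 := by field_simp
      _ ≤ 4 + 1 := by linarith only [e7, e0, rU1, h8]
      _ ≤ _ := Real.add_one_le_exp 4
  calc _ = N0 * (Real.exp (∑ i ∈ range I, e i) * ((2 * c.rU y / h 0 + 1) * 2 * h 0)) := by ring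
    _ ≤ N0 * (Real.exp (∑ i ∈ range I, e i) * Real.exp 4) := by gcongr
    _ ≤ _ := by rw [← Real.exp_add]; gcongr

end
end Pool.Agent.MP_9cbfe4_an

end

/-! ### Part FMACH -/

section

/-! Section F, row MACH: splitting a family by its vector of scales. -/

namespace Pool.Agent.MP_9cbfe4_an

open Finset Filter Topology MeasureTheory

theorem CovI.mono_set {A B : Set ℝ} {N l : ℝ} (h : CovI B N l) (hA : A ⊆ B) : CovI A N l := by
  obtain ⟨T, h1, h2⟩ := h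
  exact ⟨T, h1, hA.trans h2⟩

theorem Fam.mono {K : ℕ} {c : Cs} {M : Mdl} {sd : Fd → ℝ → Seed} {y tU nu : ℝ} {lab : Dat → ℝ}
    {π : Prof} {C C' : Set Dat} (h : Fam K c M sd y tU nu lab π C) (hC : C' ⊆ C) :
    Fam K c M sd y tU nu lab π C' where
  gd z hz := h.gd z (hC hz)
  lvl z hz := h.lvl z (hC hz)
  nu_eq z hz := h.nu_eq z (hC hz)
  two z hz z' hz' := h.two z (hC hz) z' (hC hz')
  loc x l1 l2 h1 h2 := (h.loc x l1 l2 h1 h2).mono_set fun _ ⟨a, z, hz, e⟩ => ⟨a, z, hC hz, e⟩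
  low l hl := (h.low l hl).mono_set fun _ ⟨z, hz, e⟩ => ⟨z, hC hz, e⟩

namespace FMACH

/-- orders of magnitude of the constants -/
structure Mag (K : ℕ) (c : Cs) : Prop where
  K10 : (10 : ℝ) ≤ K
  C0 : 10 ^ 7 * (K : ℝ) ^ 3 ≤ c.C0
  C0' : 10 ^ 10 ≤ c.C0
  C1 : c.C0 ≤ c.C1
  e0 : 0 < c.e3
  e1 : 10 ^ 7 * (K : ℝ) ^ 3 * c.C0 * c.C1 * c.e3 ≤ 1
  e2 : c.e3 ≤ 1 / 10 ^ 10
  β : c.C0 * c.C1 ≤ c.β * c.e3 ^ 50
  β1 : 1 ≤ c.β
  lam : 1000 * c.β ≤ c.lam * c.e3 ^ 25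
  lam1 : 1000 * c.β ≤ c.lam

theorem mag {K : ℕ} {c : Cs} (h : FNum K c) : Mag K c := by
  obtain k1 : (10 : ℝ) ≤ K := by exact_mod_cast h.hK
  obtain k3 : (1000 : ℝ) ≤ (K : ℝ) ^ 3 := by
    obtain this := pow_le_pow_left₀ (by norm_num) k1 3
    linarith only [this]
  obtain ⟨t0, t1⟩ := h.hθ
  obtain a1 : 10 ^ 7 * (K : ℝ) ^ 3 ≤ 10 ^ 6 * (K : ℝ) ^ 3 * (c.κ + 1) := by
    have := h.hκ
    nlinarith only [k3, t0, t1, this]
  obtain a2 : 10 ^ 6 * (K : ℝ) ^ 3 * (c.κ + 1) ≤ c.C0 * (1 - c.θb) :=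
    (le_mul_of_one_le_right (by linarith only [k3, t0, t1, a1]) h.hG).trans h.hC0
  obtain a3 : 0 < c.C0 := (mul_pos_iff_of_pos_right (sub_pos.2 t1)).1 (by linarith only [k3, t0, t1, a1, a2])
  obtain a4 : 10 ^ 7 * (K : ℝ) ^ 3 ≤ c.C0 := by nlinarith only [a1, a2, t0, a3]
  obtain a5 : c.C0 ≤ c.C1 := by nlinarith only [k1, t0, t1, k3, a4, a3, h.hC1]
  obtain ⟨e0, e1⟩ := h.he
  obtain a6 : 0 < c.C0 * c.C1 * c.e3 := mul_pos (mul_pos a3 (by linarith only [k3, t0, t1, a4, a5])) e0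
  obtain a7 : 10 ^ 7 * (K : ℝ) ^ 3 * c.C0 * c.C1 * c.e3 ≤ 1 := by
    have := mul_le_mul_of_nonneg_right a1 a6.le
    linarith only [t0, e1, this]
  obtain a8 : 1 ≤ c.C0 * c.C1 := one_le_mul_of_one_le_of_one_le (by linarith only [k3, t0, t1, a4]) (by linarith only [k3, t0, t1, a4, a5])
  obtain a9 : c.e3 ≤ 1 / 10 ^ 10 := by
    have b1 := mul_le_mul_of_nonneg_right a8 e0.le
    have b2 := mul_le_mul_of_nonneg_right k3 a6.le
    linarith only [a7, b1, b2]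
  obtain p25 : c.e3 ^ 25 ≤ 1 := pow_le_one₀ e0.le (by linarith only [e0, a9])
  have q25 : 0 < c.e3 ^ 25 := pow_pos e0 25
  obtain m1 : 1 ≤ c.M1 * c.e3 ^ 25 := by linarith only [k3, a4, e0, a9, h.hM]
  obtain m0 : 0 < c.M1 := (mul_pos_iff_of_pos_right q25).1 (by linarith only [e0, a9, m1])
  obtain b1 : c.C0 * c.C1 ≤ c.β * c.e3 ^ 50 := by
    have b2 := mul_le_mul_of_nonneg_right h.hβ q25.le
    obtain b3 := mul_le_mul_of_nonneg_left m1 (show 0 ≤ c.C0 * c.C1 by linarith only [e0, a8, a9])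
    obtain e : c.β * c.e3 ^ 25 * c.e3 ^ 25 = c.β * c.e3 ^ 50 := by ring
    linarith only [e0, a8, a9, b2, b3]
  have q50 : 0 < c.e3 ^ 50 := pow_pos e0 50
  obtain b0 : 0 < c.β := (mul_pos_iff_of_pos_right q50).1 (by linarith only [e0, a8, a9, b1])
  obtain b4 : 1 ≤ c.β := by
    obtain this := mul_le_mul_of_nonneg_left (pow_le_one₀ (n := 50) e0.le (by linarith only [e0, a9])) b0.le
    linarith only [a8, b1, this]
  obtain ⟨l1, l2⟩ := h.hl
  obtain l3 : 1000 * c.β ≤ c.lam * c.e3 ^ 25 := by nlinarith only [k3, a1, a2, e1, b1, l2, t0, a3, a4, a6, e0, a9, a5, a8, q50, l1]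
  obtain l0 : 0 < c.lam := (mul_pos_iff_of_pos_right q25).1 (by linarith only [e0, a9, b4, l3])
  exact ⟨k1, a4, by linarith only [k3, a4], a5, e0, a7, a9, b1, b4, l3, by nlinarith only [l3, p25, l0]⟩

end FMACH

open FMACH in
theorem mach (K : ℕ) (c : Cs) (hS : SC_s K c) (h1 : MACH1_s K c) : MACH_s K c := by
  intro M sd hx y tU nu lab π C σ w0 θ dd N0 E Sr dl I H
  rcases C.eq_empty_or_nonempty with rfl | ⟨z0, hz0⟩
  · simp
  have g := mag hx.num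
  obtain N0' : 0 ≤ N0 := by
    obtain ⟨T, h, -⟩ := H.cov
    exact (Nat.cast_nonneg _).trans h
  set n := ⌊y / 100⌋₊ with hn
  set B := N0 * Real.exp (45 * σ / c.e3 + MachB K c w0 θ dd E Sr I) with hB
  obtain hcov : Dat.tt '' C ⊆ ⋃ f ∈ Fintype.piFinset fun _ : Fin (I + 1) => range (n + 1),
      Dat.tt '' {z ∈ C | ∀ i : Fin (I + 1), z.ks K c M sd σ (w0 * (1 + c.io K) ^ (i : ℕ)) = f i} := by
    rintro _ ⟨z, hz, rfl⟩
    refine Set.mem_iUnion₂.2 ⟨fun i => z.ks K c M sd σ (w0 * (1 + c.io K) ^ (i : ℕ)), ?_,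
      z, ⟨hz, fun _ => rfl⟩, rfl⟩
    refine Fintype.mem_piFinset.2 fun i => mem_range.2 (Nat.lt_succ_of_le (Nat.le_floor ?_))
    have := (hS M sd hx z σ _ (H.fam.gd z hz) (H.lev z hz i (Nat.lt_succ_iff.1 i.2))).rng.2
    rwa [(H.fam.lvl z hz).1] at this
  refine (measure_mono hcov).trans ((measure_biUnion_finset_le _ _).trans ?_)
  refine (sum_le_card_nsmul _ _ (ENNReal.ofReal B) fun f _ => ?_).trans ?_
  · refine h1 M sd hx y tU nu lab π _ σ w0 θ dd N0 E Sr dl I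
      ⟨H.fam.mono fun _ h => h.1, H.hI, fun z hz => H.lev z hz.1, fun z hz => H.top z hz.1,
        fun z hz => H.ev z hz.1, H.sr, H.reg, H.cov.mono_set (Set.image_mono fun _ h => h.1)⟩
      (fun i => if h : i < I + 1 then f ⟨i, h⟩ else 0) fun z hz i hi => ?_
    rw [dif_pos (Nat.lt_succ_of_le hi)]
    exact hz.2 ⟨i, Nat.lt_succ_of_le hi⟩
  rw [Fintype.card_piFinset, prod_const, card_range, card_univ, Fintype.card_fin, nsmul_eq_mul,
    ← ENNReal.ofReal_natCast, ← ENNReal.ofReal_mul (Nat.cast_nonneg _)]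
  refine ENNReal.ofReal_le_ofReal ?_
  have fe := (H.fam.gd z0 hz0).fe
  have l0 := (H.lev z0 hz0 0 I.zero_le).s
  obtain ⟨v1, -, v3⟩ := fe.lev
  rw [(H.fam.lvl z0 hz0).1] at v1
  have s1 := fe.sl.1
  obtain c0 : 0 < c.C0 := by linarith only [g.C0']
  obtain lam0 : 0 < c.lam := by linarith only [g.lam1, g.β1]
  obtain V0 : 0 ≤ z0.V c M := le_trans (by unfold Cs.bl; have := g.β1; (clear * - this lam0 c0; positivity)) v3
  set V := z0.V c M
  obtain u0 : 0 ≤ c.e3 ^ 22 * V := by have := g.e0; (clear * - this V0; positivity)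
  obtain hy : y ≤ c.lam * (c.e3 ^ 22 * V) := by
    rw [div_le_iff₀ c0] at v1
    obtain a1 : c.C0 ≤ c.β := by
      obtain b1 := mul_le_mul_of_nonneg_left (pow_le_one₀ (n := 50) g.e0.le (by linarith only [g.e2]))
        (show 0 ≤ c.β by linarith only [g.β1])
      obtain b2 := mul_le_mul_of_nonneg_left (show 1 ≤ c.C1 by linarith only [c0, g.C1, g.C0']) c0.le
      linarith only [b1, b2, g.β]
    obtain a2 : c.e3 ^ 25 ≤ c.e3 ^ 22 :=
      pow_le_pow_of_le_one g.e0.le (by linarith only [g.e2]) (by norm_num)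
    have a3 := mul_le_mul_of_nonneg_left a2 lam0.le
    obtain a4 : c.C0 ≤ c.lam * c.e3 ^ 22 := by linarith only [c0, a1, a3, g.lam, g.β1]
    have a5 := mul_le_mul_of_nonneg_left a4 V0
    linarith only [v1, a5]
  obtain hσ : c.lam + c.e3 ^ 22 * V ≤ σ := by
    obtain this := mul_le_mul_of_nonneg_right (show 1 ≤ c.C1 by linarith only [c0, g.C1, g.C0']) lam0.le
    linarith only [l0, s1, this]
  obtain hn1 : ((n + 1 : ℕ) : ℝ) ≤ Real.exp σ := by
    obtain a1 : (n : ℝ) ≤ c.lam * (c.e3 ^ 22 * V) := by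
      have a0 : 0 ≤ c.lam * (c.e3 ^ 22 * V) := mul_nonneg lam0.le u0
      rcases le_total 0 (y / 100) with a | a
      · linarith only [hy, a0, Nat.floor_le a]
      · rw [hn, Nat.floor_of_nonpos a]
        simpa using a0
    obtain a2 := mul_le_mul (Real.add_one_le_exp c.lam) (Real.add_one_le_exp (c.e3 ^ 22 * V))
      (by linarith only [u0]) (Real.exp_pos _).le
    rw [← Real.exp_add] at a2
    have a3 := Real.exp_le_exp.2 hσ
    push_cast
    linarith only [lam0, u0, a1, a2, a3]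
  obtain hc : (((n + 1) ^ (I + 1) : ℕ) : ℝ) ≤ Real.exp (5 * σ / c.e3) := by
    rw [Nat.cast_pow]
    refine (pow_le_pow_left₀ (Nat.cast_nonneg _) hn1 _).trans ?_
    rw [← Real.exp_nat_mul, Real.exp_le_exp]
    obtain a1 : ((I + 1 : ℕ) : ℝ) ≤ 5 / c.e3 := by
      obtain a2 : 1 ≤ 1 / c.e3 := by
        rw [le_div_iff₀ g.e0]
        linarith only [g.e2]
      obtain e : 5 / c.e3 = 5 * (1 / c.e3) := by ring
      push_cast
      linarith only [a2, e, H.hI]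
    refine (mul_le_mul_of_nonneg_right a1 (by linarith only [lam0, u0, hσ])).trans (le_of_eq ?_)
    ring
  refine (mul_le_mul_of_nonneg_right hc (by (clear * - N0'; positivity))).trans (le_of_eq ?_)
  rw [hB, mul_left_comm, ← Real.exp_add]
  congr 2
  ring

end Pool.Agent.MP_9cbfe4_an

end

/-! ### Part FDEC -/

section

/-! Row DEC: decomposition of one level into families. -/

namespace Pool.Agent.MP_9cbfe4_an

open Finset MeasureTheory

namespace FDEC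

lemma vol_fin {Z ι : Type} (t : Z → ℝ) {C : Set Z} (S : Finset ι) (A : ι → Set Z) {N v : ℝ}
    (hv : 0 ≤ v) (hN : (S.card : ℝ) ≤ N) (hA : ∀ z ∈ C, ∃ i ∈ S, z ∈ A i)
    (hs : ∀ i ∈ S, volume (t '' A i) ≤ ENNReal.ofReal v) :
    volume (t '' C) ≤ ENNReal.ofReal (N * v) :=
  calc volume (t '' C) ≤ volume (⋃ i ∈ S, t '' A i) := by
        refine measure_mono ?_
        rintro _ ⟨z, hz, rfl⟩
        obtain ⟨i, hi, h1⟩ := hA z hz
        exact Set.mem_biUnion (Finset.mem_coe.2 hi) ⟨z, h1, rfl⟩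
    _ ≤ ∑ i ∈ S, volume (t '' A i) := measure_biUnion_finset_le _ _
    _ ≤ ∑ _i ∈ S, ENNReal.ofReal v := Finset.sum_le_sum hs
    _ = ENNReal.ofReal (S.card * v) := by
        rw [Finset.sum_const, nsmul_eq_mul, ENNReal.ofReal_mul (Nat.cast_nonneg _),
          ENNReal.ofReal_natCast]
    _ ≤ _ := ENNReal.ofReal_le_ofReal (mul_le_mul_of_nonneg_right hN hv)

lemma num {K : ℕ} {c : Cs} (h : FNum K c) {y V : ℝ} (h1 : V ≤ y / c.C0 + 1)
    (h2 : c.bl / (2 * c.C0) ≤ V) : 0 ≤ y ∧ 0 ≤ y / c.C0 ∧ (1 / 2 / c.rU y + 1) *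
      (c.S0 y ^ 8 * Real.exp (400 * c.del * (y / c.C0 + 1 + c.lam))) ≤
      Real.exp (c.e3 ^ 21 * (y / c.C0)) := by
  obtain hK : (10 : ℝ) ≤ K := by exact_mod_cast h.hK
  obtain K3 : (1 : ℝ) ≤ (K : ℝ) ^ 3 := one_le_pow₀ (by linarith only [hK])
  obtain ⟨t0, t1⟩ := h.hθ
  obtain κ1 : 1 ≤ c.κ + 1 := by linarith only [t0, t1, h.hκ]
  obtain A : 1 ≤ 10 ^ 6 * (K : ℝ) ^ 3 * (c.κ + 1) :=
    one_le_mul_of_one_le_of_one_le (by linarith only [K3, t0, t1]) κ1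
  obtain C0 : 1 ≤ c.C0 := by
    have := (one_le_mul_of_one_le_of_one_le A h.hG).trans h.hC0
    nlinarith only [this, t0, t1]
  obtain C1 : 1 ≤ c.C1 := by nlinarith only [hK, t0, t1, C0, h.hC1]
  obtain ⟨e0, e1⟩ := h.he
  obtain e2 : c.e3 ≤ 1 := by
    have := mul_le_mul_of_nonneg_right (one_le_mul_of_one_le_of_one_le
      (one_le_mul_of_one_le_of_one_le A C0) C1) e0.le
    linarith only [t0, e1, this]
  obtain e25 : c.e3 ^ 25 ≤ c.e3 ^ 21 := pow_le_pow_of_le_one e0.le e2 (by norm_num)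
  have e21 : c.e3 ^ 21 ≤ 1 := pow_le_one₀ e0.le e2
  obtain e0' : 0 < c.e3 ^ 25 := by positivity
  obtain M1 : 1 ≤ c.M1 := by nlinarith only [C0, e25, e21, t0, t1, e0', h.hM]
  obtain CC : c.C0 ≤ c.C0 * c.C1 * c.M1 := by
    rw [mul_assoc]
    exact le_mul_of_one_le_right (by linarith only [t0, t1, C0]) (one_le_mul_of_one_le_of_one_le C1 M1)
  obtain hβ : 1000 * c.C0 ≤ c.β := by nlinarith only [e25, e21, CC, C0, e0', h.hβ]
  obtain l1 : 1 ≤ c.lam := by nlinarith only [C0, e25, e21, hβ, t0, t1, e0', h.hl.1, h.hl.2]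
  obtain b1 : 500 * c.lam ≤ V := by
    refine le_trans ?_ h2
    rw [le_div_iff₀ (by linarith only [t0, t1, C0]), Cs.bl]; nlinarith only [hβ, t0, t1, l1]
  set Y := y / c.C0 with hY
  obtain ey : y = c.C0 * Y := by rw [hY]; field_simp
  obtain Y1 : 1 + c.lam ≤ Y := by linarith only [t0, t1, l1, b1, h1]
  have sa := Real.sqrt_nonneg c.a
  obtain s1 : 1000 ≤ Real.sqrt c.a * y :=
    h.hS.trans (mul_le_mul_of_nonneg_left (by rw [ey]; nlinarith only [C0, l1, b1, h1, t0, t1]) sa)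
  obtain s2 : 1000 * (Real.sqrt c.a * y) ≤ c.e3 ^ 25 * Y := by
    obtain this := mul_le_mul_of_nonneg_right h.ha.2 (show 0 ≤ Y by linarith only [t0, t1, l1, b1, h1])
    rw [ey]; linarith only [this]
  obtain s3 : 400 * c.del * (Y + 1 + c.lam) ≤ 8 / 10 * (c.e3 ^ 25 * Y) := by
    have := h.hdel.1; have := h.hdel.2
    (rename_i zq0; nlinarith only [e25, e21, s1, s2, this, t0, zq0, t1, e0', b1, h1, l1])
  obtain s4 : c.e3 ^ 25 * Y ≤ c.e3 ^ 21 * Y := mul_le_mul_of_nonneg_right e25 (by linarith only [t0, t1, l1, b1, h1])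
  obtain S3 : 3 ≤ c.S0 y := by unfold Cs.S0; linarith only [t0, t1, s1, Real.add_one_le_exp (Real.sqrt c.a * y)]
  obtain q : 1 / 2 / c.rU y + 1 ≤ c.S0 y ^ 4 := by
    obtain this : 1 ≤ c.S0 y ^ 3 := one_le_pow₀ (by linarith only [t0, t1, S3])
    rw [Cs.rU, div_div_eq_mul_div, div_one, pow_succ _ 3]; nlinarith only [S3, this, t0, t1]
  refine ⟨by rw [ey]; nlinarith only [C0, l1, b1, h1, t0, t1], by linarith only [t0, t1, l1, b1, h1],
    (mul_le_mul_of_nonneg_right q (by positivity)).trans ?_⟩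
  simp only [Cs.S0, ← Real.exp_nat_mul, ← Real.exp_add]
  push_cast
  exact Real.exp_le_exp.2 (by linarith only [t0, t1, s1, s2, s3, s4])

end FDEC

open FDEC in
theorem dec (K : ℕ) (c : Cs) (hP : PRC_s K c) : DEC_s K c := by
  intro M sd hx y B P B0 h1 h2
  classical
  rcases P.eq_empty_or_nonempty with rfl | ⟨z0, hz0⟩
  · simp
  have lv := (h1 z0 hz0).1.fe.lev
  rw [(h1 z0 hz0).2] at lv
  obtain ⟨yy, y0, cnt⟩ := num hx.num lv.2.1 lv.2.2
  obtain r0 : 0 < c.rU y := by unfold Cs.rU Cs.S0; positivity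
  have S0 : 0 < c.S0 y := Real.exp_pos _
  obtain ⟨T, cT, pT⟩ := Cov.sub_Icc (1 / 4) (h := 1 / 2) (by norm_num) r0
  obtain ⟨U, cU, pU⟩ := hP hx.first M hx.okk.ok (y / c.C0 + 1) (by linarith only [y0])
  refine (vol_fin _ T (fun x => {z | z ∈ P ∧ |z.t - x| ≤ c.rU y})
    (v := c.S0 y ^ 8 * Real.exp (400 * c.del * (y / c.C0 + 1 + c.lam)) * B) (by positivity) cT
    (fun z hz => ?_) fun tU _ => ?_).trans (ENNReal.ofReal_le_ofReal ?_)
  · have ht := (h1 z hz).1.pre.ht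
    obtain ⟨x, hx, a1, a2⟩ := pT z.t ⟨ht.1, by linarith only [ht.2]⟩
    exact ⟨x, hx, hz, abs_le.2 ⟨by linarith only [r0, a1], by linarith only [a2]⟩⟩
  swap
  · rw [← mul_assoc]; exact mul_le_mul_of_nonneg_right (by rwa [mul_assoc] at *) B0
  obtain ⟨N, cl, nu, lab, H⟩ := hx.seeds.cls y tU yy
  have fo : ∀ z ∈ P, z.toFd.OK c (Ex2 K c M) M y := fun z hz => (h1 z hz).2 ▸ (h1 z hz).1.fe.fok
  obtain se : ∀ z ∈ P, z.seed c M sd = sd z.toFd y := fun z hz => by rw [Dat.seed, (h1 z hz).2]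
  refine vol_fin _ ((univ : Finset (Fin N)) ×ˢ U) (fun a => {z | (z ∈ P ∧ |z.t - tU| ≤ c.rU y) ∧
    cl z.toFd = a.1 ∧ z.prof c M = a.2}) B0 ?_ (fun z hz => ⟨(cl z.toFd, z.prof c M),
      mem_product.2 ⟨mem_univ _, pU z (h1 z hz.1).1.pre ?_⟩, hz, rfl, rfl⟩) fun a _ => ?_
  · rw [card_product, card_univ, Fintype.card_fin]; push_cast
    exact mul_le_mul H.card cU (by (clear * -; positivity)) (by positivity)
  · exact (h1 z hz.1).2 ▸ (h1 z hz.1).1.fe.lev.2.1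
  refine h2 tU (nu a.1) (fun z => lab z.toFd) a.2 _ (fun z hz => hz.1.1)
    ⟨fun z hz => (h1 z hz.1.1).1, fun z hz => ⟨(h1 z hz.1.1).2, hz.1.2, hz.2.2⟩, fun z hz => ?_,
      fun z hz z' hz' => ?_, fun x l1 l2 a1 a2 => ?_, fun l a1 => ?_⟩
  · rw [Dat.nuJ, se z hz.1.1, ← hz.2.1]
    exact H.nu_eq _ (fo z hz.1.1) hz.1.2
  · rw [se z hz.1.1, se z' hz'.1.1, ← hz.2.1]
    exact H.two _ _ (fo z hz.1.1) (fo z' hz'.1.1) hz.1.2 hz'.1.2 (hz.2.1.trans hz'.2.1.symm)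
  · obtain ⟨W, w1, w2⟩ := H.loc a.1 x l1 l2 a1 a2
    refine ⟨W, w1, Set.Subset.trans ?_ w2⟩
    rintro u ⟨hu, z, hz, e⟩
    exact ⟨hu, z.toFd, fo z hz.1.1, hz.1.2, hz.2.1, e⟩
  · obtain ⟨W, w1, w2⟩ := H.low a.1 l a1
    refine ⟨W, w1, Set.Subset.trans ?_ w2⟩
    rintro u ⟨z, hz, hl, e⟩
    exact ⟨z.toFd, fo z hz.1.1, hz.1.2, hz.2.1, hl, e⟩

end Pool.Agent.MP_9cbfe4_an

end

/-! ### Part FF3 -/

section

/-! Section F, row F3: the violations of C3 at high level. -/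

namespace Pool.Agent.MP_9cbfe4_an

open Finset Filter Topology MeasureTheory

namespace FF3
open FMACH
variable {K : ℕ} {c : Cs}

theorem lam_le (g : Mag K c) {U : ℝ} (hU : c.bl / (2 * c.C0) ≤ U) :
    c.C1 * c.lam ≤ c.e3 ^ 22 * U := by
  obtain c0 : 0 < c.C0 := by linarith only [g.C0']
  obtain l0 : 0 < c.lam := by linarith only [g.lam1, g.β1]
  have q : 0 < c.e3 ^ 22 := pow_pos g.e0 22
  obtain a1 : c.e3 ^ 50 ≤ c.e3 ^ 22 / 2 := by
    obtain b1 : c.e3 ^ 50 ≤ c.e3 ^ 23 := pow_le_pow_of_le_one g.e0.le (by linarith only [g.e2]) (by norm_num)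
    obtain b2 := mul_le_mul_of_nonneg_left (show c.e3 ≤ 1 / 2 by linarith only [g.e2]) q.le
    rw [pow_succ] at b1
    linarith only [b1, b2]
  obtain a2 : 2 * (c.C0 * c.C1) ≤ c.β * c.e3 ^ 22 := by
    obtain this := mul_le_mul_of_nonneg_left a1 (show 0 ≤ c.β by linarith only [g.β1])
    linarith only [this, g.β]
  rw [div_le_iff₀ (by linarith only [c0])] at hU
  unfold Cs.bl at hU
  have a3 := mul_le_mul_of_nonneg_right a2 l0.le
  have a4 := mul_le_mul_of_nonneg_left hU q.le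
  refine le_of_mul_le_mul_left ?_ (show 0 < 2 * c.C0 by linarith only [c0])
  linarith only [a3, a4]

theorem Ke (g : Mag K c) : 10 ^ 6 * (K * c.e3) ≤ 1 := by
  have k := g.K10
  obtain a1 : 1 ≤ c.C0 * c.C1 :=
    one_le_mul_of_one_le_of_one_le (by linarith only [g.C0']) (by linarith only [g.C0', g.C1])
  obtain a2 : (K : ℝ) ≤ (K : ℝ) ^ 3 := le_self_pow₀ (by linarith only [k]) (by norm_num)
  have a3 := mul_le_mul_of_nonneg_right a2 g.e0.le
  obtain a4 := mul_le_mul_of_nonneg_left a1 (show 0 ≤ (K : ℝ) ^ 3 * c.e3 by have := g.e0; positivity)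
  have a5 := g.e1
  obtain a6 : 0 ≤ K * c.e3 := by have := g.e0; positivity
  linarith only [a3, a4, a5]

/-- the exponent given by the machine -/
theorem expo (g : Mag K c) {x σ w0 : ℝ} (I : ℕ) (hx : 0 ≤ x) (hσ : σ ≤ 2 * c.e3 ^ 2 * x)
    (hw : w0 ≤ x / 5) :
    50 * σ / c.e3 + MachB K c w0 0 0 (9 / 10 * x) (16 * x) I ≤ -(x / (2 * K)) := by
  have k := g.K10
  obtain k0 : (0 : ℝ) < K := by linarith only [k]
  obtain c0 : 0 < c.C0 := by linarith only [g.C0']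
  obtain u0 : 0 ≤ x / K := by positivity
  obtain a1 : 50 * σ / c.e3 ≤ x / K / 100 := by
    rw [div_le_iff₀ g.e0]
    obtain e : 2 * c.e3 ^ 2 * x = 2 * (K * c.e3) * (x / K * c.e3) := by field_simp
    have b := mul_le_mul_of_nonneg_right (Ke g) (mul_nonneg u0 g.e0.le)
    have b' := mul_nonneg (mul_nonneg k0.le g.e0.le) (mul_nonneg u0 g.e0.le)
    linarith only [hσ, e, b, b']
  obtain a2 : 210 * c.th * K * (16 * x) ≤ x / K / 100 := by
    obtain e : 210 * c.th * K * (16 * x) = 3360 * (K ^ 2 / c.C0) * (x / K) := by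
      unfold Cs.th
      field_simp
      ring
    obtain b : (K : ℝ) ^ 2 / c.C0 ≤ 1 / 10 ^ 7 := by
      rw [div_le_iff₀ c0]
      obtain this := pow_le_pow_right₀ (show (1 : ℝ) ≤ K by linarith only [k]) (show 2 ≤ 3 by norm_num)
      linarith only [this, g.C0]
    have b' := mul_le_mul_of_nonneg_right b u0
    linarith only [u0, e, b']
  obtain a3 : 6 / 10 * (x / K) ≤ 1 / K * ((1 - 7 * c.e3) * (9 / 10 * x) - w0) := by
    have b := mul_le_mul_of_nonneg_right g.e2 hx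
    obtain e : 6 / 10 * (x / K) = 1 / K * (6 / 10 * x) := by ring
    rw [e]
    exact mul_le_mul_of_nonneg_left (by linarith only [hx, hw, b]) (by positivity)
  obtain e : x / (2 * K) = x / K / 2 := by ring
  unfold MachB
  rw [zero_div, add_zero, zero_mul, zero_add, e]
  linarith only [u0, a1, a2, a3]

/-- the entropy factors are absorbed -/
theorem total (h : FNum K c) (g : Mag K c) (n l : ℕ) :
    Real.exp (c.e3 ^ 21 * (n / c.C0)) * (c.S0 n * 2 ^ (l : ℝ) *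
      Real.exp (-((c.C1 * l + c.ε * (n / c.C0 + 1) + c.cc) / (2 * K)))) ≤
    Real.exp (-(c.ε / (4 * K * c.C0) * n)) * Real.exp (-(1 * l)) := by
  have k := g.K10
  obtain k0 : (0 : ℝ) < K := by linarith only [k]
  obtain c0 : 0 < c.C0 := by linarith only [g.C0']
  obtain l0 : 0 < c.lam := by linarith only [g.lam1, g.β1]
  have e0 := g.e0
  obtain ε0 : 0 < c.ε := by rw [h.hε]; positivity
  obtain cc0 : 0 ≤ c.cc := by unfold Cs.cc; (clear * - ε0 l0; positivity)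
  obtain n0 : (0 : ℝ) ≤ n / c.C0 := by positivity
  have l1 : (0 : ℝ) ≤ l := Nat.cast_nonneg l
  rw [Real.rpow_def_of_pos two_pos]
  unfold Cs.S0
  simp only [← Real.exp_add, Real.exp_le_exp]
  set V := (n : ℝ) / c.C0 with hV
  obtain a1 : Real.log 2 * l ≤ l := mul_le_of_le_one_left l1 (by linarith only [Real.log_two_lt_d9])
  obtain a2 : Real.sqrt c.a * n ≤ c.e3 ^ 21 * V := by
    obtain e : Real.sqrt c.a * n = c.C0 * Real.sqrt c.a * V := by rw [hV]; field_simp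
    obtain b1 : c.e3 ^ 25 ≤ c.e3 ^ 21 := pow_le_pow_of_le_one e0.le (by linarith only [g.e2]) (by norm_num)
    obtain b2 : 0 ≤ c.C0 * Real.sqrt c.a := by positivity
    rw [e]
    exact mul_le_mul_of_nonneg_right (by linarith only [b1, b2, h.ha.2]) n0
  obtain u0 : 0 ≤ c.ε * V / K := by (clear * - ε0 c0 k; positivity)
  obtain a3 : c.e3 ^ 21 * V ≤ c.ε * V / K / 8 := by
    obtain e : c.e3 ^ 21 * V = K * c.e3 * (c.ε * V / K) := by rw [h.hε]; field_simp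
    have b := mul_le_mul_of_nonneg_right (Ke g) u0
    have b' := mul_nonneg (mul_nonneg k0.le e0.le) u0
    linarith only [u0, e, b]
  obtain a4 : 2 * l + c.ε * V / K / 2 ≤ (c.C1 * l + c.ε * (V + 1) + c.cc) / (2 * K) := by
    rw [le_div_iff₀ (by linarith only [k])]
    obtain e : (2 * l + c.ε * V / K / 2) * (2 * K) = 4 * K * l + c.ε * V := by field_simp; ring
    obtain b1 : 4 * (K : ℝ) ≤ c.C1 := by
      obtain this := le_self_pow₀ (show (1 : ℝ) ≤ K by linarith only [k]) (show 3 ≠ 0 by norm_num)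
      linarith only [k, this, g.C0, g.C1]
    have b2 := mul_le_mul_of_nonneg_right b1 l1
    linarith only [ε0, cc0, e, b2]
  obtain e : c.ε / (4 * K * c.C0) * n = c.ε * V / K / 4 := by rw [hV]; field_simp
  linarith only [a1, a2, a3, a4, e]

/-- the levels of the machine -/
theorem levels (h : FNum K c) (g : Mag K c) {x V T : ℝ} (hx : 0 < x) (hT : x / 10 ≤ T) (hV : T ≤ V)
    (hε : c.ε * V ≤ x) : ∃ (w0 : ℝ) (I : ℕ), (I : ℝ) ≤ 1 / c.e3 ∧ w0 ≤ x / 5 ∧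
      w0 * (1 + c.io K) ^ I = T ∧
      ∀ i ≤ I, x / 10 ≤ w0 * (1 + c.io K) ^ i ∧ w0 * (1 + c.io K) ^ i ≤ T := by
  have k := g.K10
  obtain c0 : 0 < c.C0 := by linarith only [g.C0']
  have e0 := g.e0
  obtain i0 : 0 < c.io K := by unfold Cs.io Cs.th; positivity
  obtain ei : c.io K = 1 / (20 * K * c.C0) := by unfold Cs.io Cs.th; field_simp
  obtain i1 : c.io K ≤ 1 := by
    rw [ei, div_le_one (by (clear * - k c0; positivity))]
    exact one_le_mul_of_one_le_of_one_le (by linarith only [k]) (by linarith only [c0, g.C0'])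
  obtain ⟨I, h1, h2, h3⟩ := fn_count (w0 := x / 10) (by linarith only [hx]) i0 i1 hT
  obtain p0 : 0 < (1 + c.io K) ^ I := by positivity
  have w1 : x / 10 ≤ T / (1 + c.io K) ^ I := (le_div_iff₀ p0).2 h1
  refine ⟨T / (1 + c.io K) ^ I, I, ?_, ?_, div_mul_cancel₀ _ p0.ne', fun i hi => ⟨?_, ?_⟩⟩
  · obtain a1 : T / (x / 10) ≤ 100 / (c.e3 ^ 20 * (1 - c.θb)) := by
      obtain ⟨t0, t1⟩ := h.hθ
      obtain b0 : 0 < c.e3 ^ 20 := by positivity
      rw [div_le_div_iff₀ (by linarith only [hx]) (mul_pos b0 (by linarith only [t1])), ← mul_assoc]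
      have b1 := mul_le_mul_of_nonneg_left hV b0.le
      rw [h.hε] at hε
      obtain b2 : 0 ≤ T * c.e3 ^ 20 := mul_nonneg (by linarith only [hx, hT]) b0.le
      obtain b3 := mul_le_mul_of_nonneg_left (show 1 - c.θb ≤ 1 by linarith only [t0]) b2
      linarith only [hx, hε, b1, b3]
    obtain a2 := Real.log_le_log (div_pos (by linarith only [hx, hT]) (by linarith only [hx])) a1
    obtain a3 := mul_le_mul_of_nonneg_left a2 (show 0 ≤ 40 * K * c.C0 by positivity)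
    obtain e : 2 * Real.log (T / (x / 10)) / c.io K = 40 * K * c.C0 * Real.log (T / (x / 10)) := by
      rw [ei]
      field_simp
      ring
    rw [le_div_iff₀' e0]
    exact (mul_le_mul_of_nonneg_left (h3.trans (e.le.trans a3)) e0.le).trans h.hI
  · rw [div_le_iff₀ p0]
    rw [pow_succ] at h2
    have := mul_le_mul_of_nonneg_left i1 (mul_pos hx p0).le
    linarith only [h2, this]
  · exact w1.trans (le_mul_of_one_le_right (by linarith only [hx, w1]) (one_le_pow₀ (by linarith only [i0])))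
  · refine le_trans ?_ (div_mul_cancel₀ _ p0.ne').le
    exact mul_le_mul_of_nonneg_left (pow_le_pow_right₀ (by linarith only [i0]) hi) (by linarith only [hx, w1])

/-- one level `n`, one load `l` -/
theorem cell (hM : MACH_s K c) (hD : DEC_s K c) (hP : PRD_s c) {M sd} (hx : Ctx K c M sd) (n l : ℕ) :
    volume (Dat.tt '' {d | d.Gd K c M sd ∧ d.Bad3 c M ∧ d.y c M = n ∧ ⌈d.ld c M⌉₊ = l}) ≤
      ENNReal.ofReal (Real.exp (-(c.ε / (4 * K * c.C0) * n)) * Real.exp (-(1 * l))) := by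
  have h := hx.num
  have g := mag h
  obtain c0 : 0 < c.C0 := by linarith only [g.C0']
  obtain c1 : 1 ≤ c.C1 := by linarith only [g.C0', g.C1]
  obtain l0 : 1000 ≤ c.lam := by linarith only [g.lam1, g.β1]
  have e0 := g.e0
  obtain e1 : c.e3 ≤ 1 := by linarith only [g.e2]
  obtain ε0 : 0 < c.ε := by rw [h.hε]; positivity
  obtain ε1 : c.ε ≤ 1 := by rw [h.hε]; exact pow_le_one₀ e0.le e1
  obtain cc0 : 0 ≤ c.cc := by unfold Cs.cc; positivity
  set V := (n : ℝ) / c.C0 with hV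
  set x := c.C1 * l + c.ε * (V + 1) + c.cc with hx'
  refine (hD M sd hx n (c.S0 n * 2 ^ (l : ℝ) * Real.exp (-(x / (2 * K)))) _
    (by unfold Cs.S0; positivity) (fun z hz => ⟨hz.1, hz.2.2.1⟩) ?_).trans
    (ENNReal.ofReal_le_ofReal (total h g n l))
  intro tU nu lab π C hC hF
  rcases C.eq_empty_or_nonempty with rfl | ⟨z0, hz0⟩
  · simp
  obtain V0 : 0 ≤ V := by (clear * - c0; positivity)
  obtain l1 : 0 ≤ c.C1 * l := by (clear * - c1; positivity)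
  obtain lv : ∀ z ∈ C, V ≤ z.V c M ∧ z.V c M ≤ V + 1 := fun z hz => by
    have := (hC hz).1.fe.lev
    rw [(hC hz).2.2.1] at this
    exact ⟨this.1, this.2.1⟩
  obtain ld : ∀ z ∈ C, z.ld c M ≤ l ∧ l ≤ z.ld c M + 1 := fun z hz => by
    rw [← (hC hz).2.2.2]
    exact ⟨Nat.le_ceil _, (Nat.ceil_lt_add_one (hC hz).1.fe.ld.1).le⟩
  have a1 := lam_le g ((hC hz0).1.fe.lev.2.2.trans (lv z0 hz0).2)
  obtain a2 : c.C1 * c.lam ≤ c.e3 ^ 2 * x := by
    obtain e : c.e3 ^ 22 * (V + 1) = c.e3 ^ 2 * (c.ε * (V + 1)) := by rw [h.hε]; ring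
    exact a1.trans (e.le.trans (mul_le_mul_of_nonneg_left (by linarith only [cc0, l1]) (sq_nonneg _)))
  obtain a3 : 1000 * c.C1 ≤ c.C1 * c.lam := by
    rw [mul_comm]
    exact mul_le_mul_of_nonneg_left l0 (by linarith only [c1])
  obtain x0 : 0 ≤ x := by (clear * - c1 ε0 c0 cc0; positivity)
  obtain a4 : c.e3 ^ 2 * x ≤ c.e3 * x / 100 := by
    have := mul_le_mul_of_nonneg_right g.e2 (mul_nonneg e0.le x0)
    have b := mul_nonneg e0.le x0
    linarith only [c1, a2, a3, this, sq c.e3 ▸ mul_assoc c.e3 c.e3 x]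
  have a5 : c.e3 * x ≤ x := mul_le_of_le_one_left x0 e1
  obtain a6 : 1000 ≤ V + 1 := by
    obtain this := mul_le_of_le_one_left (show 0 ≤ V + 1 by linarith only [V0]) (pow_le_one₀ (n := 22) e0.le e1)
    linarith only [c1, a1, a3, this]
  obtain xv : ∀ z ∈ C, z.xV c M ≤ x ∧ 9 / 10 * x ≤ z.xV c M := fun z hz => by
    have e : z.xV c M = c.C1 * z.ld c M + c.ε * z.V c M + c.cc := rfl
    obtain b1 := mul_le_mul_of_nonneg_left (ld z hz).1 (show 0 ≤ c.C1 by linarith only [c1])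
    obtain b2 := mul_le_mul_of_nonneg_left (ld z hz).2 (show 0 ≤ c.C1 by linarith only [c1])
    have b3 := mul_le_mul_of_nonneg_left (lv z hz).1 ε0.le
    have b4 := mul_le_mul_of_nonneg_left (lv z hz).2 ε0.le
    constructor <;> linarith only [e, b1, b4, c1, ε1, a2, a3, a4, a5, b2, b3]
  have ev : ∀ z ∈ C, 9 / 10 * x ≤ z.ev c M := fun z hz => (xv z hz).2.trans (hC hz).2.1.le
  obtain a7 : 9 / 10 * x ≤ 2 * (V + 1) := by
    have := (hP _ M z0 _ hx.okk.ok (hC hz0).1.pre rfl).2.2.2.2.2.2.2.2.1.2.1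
    linarith only [this, ev z0 hz0, (lv z0 hz0).2]
  set σ := c.e3 ^ 2 * x + c.C1 * c.lam with hσ
  obtain σ0 : 0 ≤ σ := by (clear * - e0 c1 ε0 c0 cc0 l0; positivity)
  obtain ⟨w0, I, i1, i2, i3, i4⟩ := levels h g (x := x) (V := V) (T := V - 3 * σ) (by linarith only [c1, a2, a3, a4, a5])
    (by linarith only [c1, a2, a3, a4, a5, a7]) (by linarith only [c1, a2, a3]) (by linarith only [ε0, cc0, l1])
  refine (hM M sd hx n tU nu lab π C σ w0 0 0 (c.S0 n * 2 ^ (l : ℝ)) (9 / 10 * x) (16 * x)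
    (fun _ => tiny n) I ⟨hF, i1, fun z hz i hi => ⟨?_, ?_, ?_⟩, fun z hz => ?_, ev, ?_,
      .inr ⟨rfl, rfl, rfl⟩, (hF.low l (Nat.cast_nonneg l)).mono_set ?_⟩).trans
    (ENNReal.ofReal_le_ofReal (mul_le_mul_of_nonneg_left
      (Real.exp_le_exp.2 (expo g I x0 (by linarith only [a2]) i2)) (by unfold Cs.S0; positivity)))
  · have := mul_le_mul_of_nonneg_left ((min_le_right (z.V c M) _).trans (xv z hz).1) (sq_nonneg c.e3)
    unfold Dat.s0
    unfold Dat.xV at this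
    linarith only [this]
  · have := mul_le_mul_of_nonneg_left (i4 i hi).1 e0.le
    have b := mul_nonneg e0.le x0
    linarith only [c1, a2, a3, a4, this]
  · linarith only [(i4 i hi).2, (lv z hz).1]
  · linarith only [i3, (lv z hz).2]
  · have := (hC hz0).1.fe.sr
    rw [(hF.lvl z0 hz0).2.2] at this
    linarith only [this, min_le_left (z0.xV c M) (z0.V c M + c.lam), (xv z0 hz0).1]
  · rintro _ ⟨z, hz, rfl⟩
    have := (hC hz).1.fe.ld.2
    rw [(hC hz).2.2.1] at this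
    exact ⟨z, hz, this.trans (ld z hz).1, rfl⟩

theorem start (h : FNum K c) (g : Mag K c) :
    30 * (1 + 1 / (c.ε / (8 * K * c.C0))) ≤ Real.exp (c.ε / (8 * K * c.C0) * (c.bl / 2 - 1)) := by
  have k := g.K10
  obtain c0 : 1 ≤ c.C0 := by linarith only [g.C0']
  have e0 := g.e0
  obtain e1 : c.e3 ≤ 1 := by linarith only [g.e2]
  have b1 := g.β1
  obtain l0 : 1000 ≤ c.lam := by linarith only [b1, g.lam1]
  obtain ε0 : 0 < c.ε := by rw [h.hε]; positivity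
  obtain ε1 : c.ε ≤ 1 := by rw [h.hε]; exact pow_le_one₀ e0.le e1
  obtain d1 : 1 ≤ 8 * K * c.C0 := one_le_mul_of_one_le_of_one_le (by linarith only [k]) c0
  set q := c.ε / (8 * K * c.C0) with hq
  obtain q0 : 0 < q := by positivity
  obtain q1 : q ≤ 1 := by
    rw [hq, div_le_one (by linarith only [d1])]
    linarith only [ε1, d1]
  obtain a1 : c.bl / 4 ≤ c.bl / 2 - 1 := by
    obtain this := mul_le_mul b1 l0 (by norm_num) (by linarith only [b1])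
    unfold Cs.bl
    linarith only [this]
  obtain a2 : c.C0 ^ 2 ≤ c.β * c.ε ^ 2 := by
    obtain f1 : c.e3 ^ 50 ≤ c.ε ^ 2 := by
      rw [h.hε, ← pow_mul]
      exact pow_le_pow_of_le_one e0.le e1 (by norm_num)
    obtain f2 := mul_le_mul_of_nonneg_left f1 (show 0 ≤ c.β by linarith only [b1])
    obtain f3 := mul_le_mul_of_nonneg_left g.C1 (show 0 ≤ c.C0 by linarith only [c0])
    linarith only [f2, f3, g.β, sq c.C0]
  obtain a3 : 20000 * (K : ℝ) ^ 2 ≤ c.lam := by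
    obtain f1 := pow_le_pow_right₀ (show (1 : ℝ) ≤ K by linarith only [k]) (show 2 ≤ 3 by norm_num)
    obtain f2 := mul_le_of_le_one_right (show 0 ≤ c.β by linarith only [b1]) (pow_le_one₀ (n := 50) e0.le e1)
    obtain f3 := mul_le_mul_of_nonneg_left (c0.trans g.C1) (show 0 ≤ c.C0 by linarith only [c0])
    linarith only [l0, f1, f2, f3, g.β, g.C0, g.lam1, sq_nonneg (K : ℝ)]
  obtain a4 : 60 ≤ q ^ 2 * (c.bl / 4) := by
    obtain f1 := mul_le_mul a2 a3 (by positivity) (by positivity)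
    obtain e : q ^ 2 * (c.bl / 4) = c.β * c.ε ^ 2 * c.lam / (256 * (c.C0 ^ 2 * K ^ 2)) := by
      rw [hq]
      unfold Cs.bl
      field_simp
      norm_num
    rw [e, le_div_iff₀ (by positivity)]
    obtain f2 : 0 ≤ c.C0 ^ 2 * K ^ 2 := by positivity
    linarith only [f1, f2]
  obtain a5 : 60 / q ≤ q * (c.bl / 2 - 1) := by
    rw [div_le_iff₀ q0]
    have := mul_le_mul_of_nonneg_left a1 (sq_nonneg q)
    linarith only [a4, this, sq q]
  obtain a6 : 1 ≤ 1 / q := by rwa [le_div_iff₀ q0, one_mul]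
  obtain e : 60 / q = 60 * (1 / q) := by ring
  linarith only [a5, a6, e, Real.add_one_le_exp (q * (c.bl / 2 - 1))]

end FF3

open FF3 FMACH in
theorem f3g (K : ℕ) (c : Cs) (hM : MACH_s K c) (hD : DEC_s K c) (hP : PRD_s c) : F3G_s K c := by
  intro M sd hx
  have h := hx.num
  have g := mag h
  have k := g.K10
  obtain c0 : 0 < c.C0 := by linarith only [g.C0']
  obtain ε0 : 0 < c.ε := by rw [h.hε]; exact pow_pos g.e0 _
  obtain q0 : 0 < c.ε / (8 * K * c.C0) := by positivity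
  have hs := start h g
  refine FGEO.geo30 _ (fun n => Dat.tt '' {d | d.Gd K c M sd ∧ d.Bad3 c M ∧ d.y c M = n}) q0 hs
    ?_ fun n hn => ?_
  · rintro _ ⟨d, ⟨h1, h2⟩, rfl⟩
    have a1 : c.bl / 2 < c.C0 * d.V c M := h1.high
    obtain a2 : 0 ≤ c.bl := mul_nonneg (by linarith only [g.β1]) (by linarith only [g.lam1, g.β1])
    obtain ⟨n, n1, n2, -⟩ := FGEO.floor_nat (x := c.C0 * d.V c M) (by linarith only [a1, a2])
    exact ⟨n, by linarith only [a1, n2], d, ⟨h1, h2, n1⟩, rfl⟩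
  · refine (FGEO.geo (y0 := 0) _ (fun l => Dat.tt ''
      {d | d.Gd K c M sd ∧ d.Bad3 c M ∧ d.y c M = n ∧ ⌈d.ld c M⌉₊ = l}) one_pos
      (Real.exp_pos (-(c.ε / (4 * K * c.C0) * n))).le ?_ fun l _ => cell hM hD hP hx n l).trans
      (ENNReal.ofReal_le_ofReal ?_)
    · rintro _ ⟨d, ⟨h1, h2, h3⟩, rfl⟩
      exact ⟨_, Nat.cast_nonneg _, d, ⟨h1, h2, h3, rfl⟩, rfl⟩
    · obtain e : c.ε / (4 * K * c.C0) * n =
          c.ε / (8 * K * c.C0) * n + c.ε / (8 * K * c.C0) * n := by ring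
      have a1 := Real.exp_le_exp.2 (mul_le_mul_of_nonneg_left hn q0.le)
      obtain a2 : 0 < 1 / (c.ε / (8 * K * c.C0)) := by (clear * - ε0 k c0; positivity)
      rw [e, neg_add, Real.exp_add, mul_zero, neg_zero, Real.exp_zero, mul_one, mul_assoc]
      refine mul_le_of_le_one_right (Real.exp_pos _).le ?_
      rw [Real.exp_neg, inv_mul_le_iff₀ (Real.exp_pos _)]
      linarith only [hs, a1, a2]

end Pool.Agent.MP_9cbfe4_an

end
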