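import Pool.Agent.MP_9cbfe4_an.M10
import Pool.Agent.MP_9cbfe4_an.M14

set_option linter.all false

attribute [-instance] AddQuantale.instAddLeftMono IdemSemiring.toCanonicallyOrderedAdd
  NumberField.to_charZero AddQuantale.instAddRightMono IdemSemiring.toMulLeftMono RKHS.instFunLike
  Quantale.instMulRightMono Quantale.instMulLeftMono IsOrderedCancelMonoid.toIsOrderedMonoid
  LinearOrderedCommMonoidWithZero.toPosMulStrictMono
  Group.IsPerfect.subsingleton_of_isMulCommutative CanonicallyOrderedAdd.toMulLeftMono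
  Valued.toUniformSpace IdemSemiring.toMulRightMono TotallySeparatedSpace.t2Space
  LinearOrderedCommMonoidWithZero.toIsOrderedMonoid IsScalarTower.complexToReal
  Order.Coframe.toCompleteLattice OmegaCompletePartialOrder.toPartialOrder Invertible.toNeZero
  GrpTypeEquivalenceGrp.grpGroup littleWedderburn CanonicallyOrderedMul.toMulLeftMono
  CoalgHomClass.toSemilinearMapClass TestFunctionClass.toDFunLike
  ContDiffMapSupportedInClass.toDFunLike Order.Frame.toCompleteLattice RightPreLieAlgebra.toModule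
  CategoryTheory.Limits.Concrete.instUniqueToTypeTerminal LeftPreLieAlgebra.toModule
  CStarAlgebra.instOrderClosedTopology IdemSemiring.toSemiring
  LieAdmissibleRing.toNonUnitalNonAssocRing NonUnitalAlgSemiHomClass.toDistribMulActionSemiHomClass
  CStarAlgebra.toNormedRing

/-! ### Part TA -/

section

/-! Rows TA and HVY: orbit-free tables of a skeleton. -/

namespace Pool.Agent.MP_9cbfe4_an

open Finset Real

namespace TA

structure KC (c : Cs) : Prop where
  κ : 0 < c.κ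
  C0 : 200 * (5 * (2 + c.κ) + 1) ≤ c.C0
  lam : 400 ≤ c.lam
  β : 1 ≤ c.β
  e0 : 0 < c.e3
  e1 : c.e3 ≤ 1 / 3
  e2 : c.e3 ≤ 1 / ((2 + c.κ) * c.C0 ^ 2 + 1)

theorem hK : Hier KC := by
  have h1 := Hier.base
  have h2 := Hier.C0_ge fun _ _ κ _ => 200 * (5 * (2 + κ) + 1)
  have h3 := Hier.lam_ge (fun _ => 400) fun _ _ => rfl
  have h4 := Hier.β_ge (fun _ => 1) fun _ _ _ => rfl
  obtain h5 := Hier.e3_le (fun _ => 1 / 3) (fun _ _ _ _ _ _ _ _ => rfl) (Hier.of_all fun _ => by norm_num)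
  obtain h6 := Hier.e3_le (fun c => 1 / ((2 + c.κ) * c.C0 ^ 2 + 1)) (fun _ _ _ _ _ _ _ _ => rfl)
    (h1.mono fun c h => by have := h.2.2.2.2.1; (clear * - this; positivity))
  refine (h1.and (h2.and (h3.and (h4.and (h5.and h6))))).mono ?_
  rintro c ⟨a1, a2, a3, a4, a5, a6⟩
  exact ⟨a1.2.2.2.2.1, a2, a3, a4, a5.1, a5.2, a6.2⟩

variable {c : Cs} {k : Sk}

theorem KC.bl (hc : KC c) : 400 ≤ c.bl := by
  have := hc.lam; have := hc.β
  unfold Cs.bl; (rename_i zq0; nlinarith only [zq0, this])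

theorem KC.ck (hc : KC c) : 2 ≤ c.ck := by have := hc.κ; unfold Cs.ck; linarith only [this]

theorem KC.C0' (hc : KC c) : 200 * (5 * c.ck + 1) ≤ c.C0 := hc.C0

theorem chi_add (k : Sk) {i j l : ℤ} (h1 : i ≤ j) (h2 : j ≤ l) : k.chi i l = k.chi i j + k.chi j l := by
  unfold Sk.chi
  rw [← Ioc_union_Ioc_eq_Ioc h1 h2, sum_union]
  rw [disjoint_left]
  intro x hx hx'
  simp only [mem_Ioc] at hx hx'
  omega

theorem chi_nonneg (h : k.OK1 c) (i j : ℤ) : 0 ≤ k.chi i j :=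
  sum_nonneg fun l _ => by linarith only [(h.ch_mem l).1]

theorem chi_mono (h : k.OK1 c) {i j l : ℤ} (h1 : i ≤ j) (h2 : j ≤ l) : k.chi i j ≤ k.chi i l := by
  rw [chi_add k h1 h2]; linarith only [chi_nonneg h j l]

theorem chi01 (h : k.OK1 c) : k.chi 0 1 = c.bl := by
  obtain this : Ioc (0 : ℤ) 1 = {1} := by decide
  unfold Sk.chi
  rw [this, sum_singleton, h.ch_one.1]

theorem nxF (h : k.OK1 c) {i : ℤ} (hi : i ≤ k.N) : k.nx i ∈ k.F := by
  rcases hi.eq_or_lt with e | e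
  · rw [e, h.nx_N]; exact h.last
  · exact (h.nx_mem i e).1

theorem le_nx (h : k.OK1 c) {i : ℤ} (hi : i ≤ k.N) : i ≤ k.nx i := by
  rcases hi.eq_or_lt with e | e
  · rw [e, h.nx_N]
  · exact (h.nx_mem i e).2.1.le

theorem nx_le (h : k.OK1 c) {i m : ℤ} (hm : m ∈ k.F) (hi : i < m) : k.nx i ≤ m :=
  (h.nx_mem i (by have := (h.F_mem m hm).2; omega)).2.2 m hm hi

theorem nx_mono (h : k.OK1 c) {i j : ℤ} (h1 : i ≤ j) (h2 : j ≤ k.N) : k.nx i ≤ k.nx j := by
  rcases h1.eq_or_lt with e | e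
  · rw [e]
  · exact nx_le h (nxF h h2) (e.trans_le (le_nx h h2))

theorem one_le_nx (h : k.OK1 c) {i : ℤ} (hi : i ≤ k.N) : 1 ≤ k.nx i := (h.F_mem _ (nxF h hi)).1

theorem σ_mono (h : k.OK1 c) {i j : ℤ} (h1 : i ≤ j) (h2 : j ≤ k.N) : k.σ i ≤ k.σ j :=
  h.sl_mono _ _ (one_le_nx h (h1.trans h2)) (nx_mono h h1 h2)

theorem lam_le_sl (h : k.OK1 c) {i : ℤ} (hi : 1 ≤ i) : c.lam ≤ k.sl i :=
  h.sl1.trans (h.sl_mono 1 i le_rfl hi)

theorem lam_le_σ (h : k.OK1 c) {i : ℤ} (hi : i ≤ k.N) : c.lam ≤ k.σ i :=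
  lam_le_sl h (one_le_nx h hi)

theorem σ_le_sl (h : k.OK1 c) {n i : ℤ} (hn : n ∈ k.F) (hi : i < n) : k.σ i ≤ k.sl n :=
  h.sl_mono _ _ (one_le_nx h (by have := (h.F_mem n hn).2; omega)) (nx_le h hn hi)

theorem sl_le_σ (h : k.OK1 c) {i : ℤ} (h1 : 1 ≤ i) (hi : i ≤ k.N) : k.sl i ≤ k.σ i :=
  h.sl_mono _ _ h1 (le_nx h hi)

theorem W_nonneg (h : k.OK1 c) {i : ℤ} (hi : 1 ≤ i) : 0 ≤ k.W i := by
  rw [← h.W1]; exact h.W_mono 1 i le_rfl hi

theorem w_nonneg (h : k.OK1 c) {i : ℤ} (hi : 0 ≤ i) : 0 ≤ k.w i := by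
  rcases hi.eq_or_lt with e | e
  · rw [← e, h.w0]
  · exact (h.w_pos i e).le

theorem D_bd (h : k.OK1 c) {x : ℤ} (hx : x ∈ k.D) : x ∈ k.F ∧ 1 ≤ x ∧ x < k.N :=
  ⟨(h.D_mem x hx).1, (h.F_mem x (h.D_mem x hx).1).1, (h.D_mem x hx).2⟩

/-- the last free time `≤ i` -/
theorem prev (h : k.OK1 c) {i : ℤ} (h1 : 1 ≤ i) (hi : i ≤ k.N) :
    ∃ m ∈ k.F, m ≤ i ∧ k.nx m = k.nx i := by
  obtain ⟨m, hm, hmax⟩ := exists_max_image (k.F.filter fun m => m ≤ i) id ⟨1, by simp [h.one, h1]⟩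
  simp only [mem_filter, id] at hm hmax
  refine ⟨m, hm.1, hm.2, ?_⟩
  rcases hm.2.eq_or_lt with e | e
  · rw [e]
  obtain hmN : m < k.N := by omega
  obtain h3 : i < k.nx m := by
    by_contra h4
    obtain this := hmax _ ⟨(h.nx_mem m hmN).1, by omega⟩
    have := (h.nx_mem m hmN).2.1
    omega
  exact le_antisymm (nx_mono h hm.2 hi) (nx_le h (h.nx_mem m hmN).1 h3)

theorem blk_uniq (h : k.OK1 c) {x y i : ℤ} (hx : x ∈ k.D) (hy : y ∈ k.D) (h1 : x < i)
    (h2 : i < k.nx x) (h3 : y < i) (h4 : i < k.nx y) : y = x := by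
  rcases lt_trichotomy x y with e | e | e
  · have := nx_le h (D_bd h hy).1 e; omega
  · exact e.symm
  · have := nx_le h (D_bd h hx).1 e; omega

theorem w_le_w4 (k : Sk) (i : ℤ) : k.w i ≤ k.w4 i := (le_fold_max _).2 (Or.inl le_rfl)

theorem w4_out (k : Sk) {i : ℤ} (hi : ∀ x ∈ k.D, x < i → k.nx x ≤ i) : k.w4 i = k.w i := by
  refine le_antisymm ((fold_max_le _).2 ⟨le_rfl, fun x hx => ?_⟩) (w_le_w4 k i)
  rw [mem_filter] at hx
  have := hi x hx.1 hx.2.1
  omega

theorem w4_F (h : k.OK1 c) {m : ℤ} (hm : m ∈ k.F) : k.w4 m = k.w m :=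
  w4_out k fun _ _ hx => nx_le h hm hx

theorem w4_zero (h : k.OK1 c) : k.w4 0 = 0 := by
  rw [w4_out k fun x hx h0 => by have := (D_bd h hx).2.1; omega, h.w0]

theorem w4_nonneg (h : k.OK1 c) {i : ℤ} (hi : 0 ≤ i) : 0 ≤ k.w4 i :=
  (w_nonneg h hi).trans (w_le_w4 k i)

theorem om_pos_in (h : k.OK1 c) (h2 : k.OK2) {x i : ℤ} (hx : x ∈ k.D) (h1 : x < i) (h3 : i < k.nx x) :
    0 < k.om i := by
  have a := (h2.om_in x hx i h1 h3).1
  have b := mul_pos (h.w_pos x (D_bd h hx).2.1) (h.η_mem x hx).1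
  exact (mul_pos_iff_of_pos_left (exp_pos _)).1 (b.trans_le a)

theorem w4_in (h : k.OK1 c) (h2 : k.OK2) {x i : ℤ} (hx : x ∈ k.D) (h1 : x < i) (h3 : i < k.nx x) :
    k.w4 i ≤ k.om i + k.w x * exp (-k.chi x i / 4) ∧ k.w x * exp (-k.chi x i / 4) ≤ k.w4 i := by
  have hw := h.w_pos x (D_bd h hx).2.1
  refine ⟨(fold_max_le _).2 ⟨?_, fun y hy => ?_⟩, (le_fold_max _).2 (Or.inr ⟨x, ?_, le_rfl⟩)⟩
  · have a := (h2.om_in x hx i h1 h3).2.2.1
    obtain b : exp (-k.chi x i / 2) ≤ exp (-k.chi x i / 4) :=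
      exp_le_exp.2 (by linarith only [chi_nonneg h x i])
    nlinarith only [a, hw, b]
  · rw [mem_filter] at hy
    rw [blk_uniq h hx hy.1 h1 h3 hy.2.1 hy.2.2]
    linarith only [om_pos_in h h2 hx h1 h3]
  · exact mem_filter.2 ⟨hx, h1, h3⟩

theorem w_le (h : k.OK1 c) {m i : ℤ} (hm : m ∈ k.F) (h1 : 1 ≤ i) (hi : i ≤ m) :
    k.w i ≤ exp (k.W m + k.sl 1) := by
  have a := h.hi i h1 (hi.trans (h.F_mem m hm).2)
  have b := h.W_mono i m h1 hi
  rw [← exp_log (h.w_pos i h1)]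
  exact exp_le_exp.2 (by linarith only [a, b])

theorem w4_le (h : k.OK1 c) {m i : ℤ} (hm : m ∈ k.F) (h0 : 0 ≤ i) (hi : i ≤ m) :
    k.w4 i ≤ exp (k.W m + k.sl 1) := by
  rcases h0.eq_or_lt with e | e
  · rw [← e, w4_zero h]; exact (exp_pos _).le
  refine (fold_max_le _).2 ⟨w_le h hm e hi, fun x hx => ?_⟩
  rw [mem_filter] at hx
  have hx1 := (D_bd h hx.1).2.1
  obtain a := w_le h hm hx1 (by omega)
  obtain b : exp (-k.chi x i / 4) ≤ 1 := exp_le_one_iff.2 (by linarith only [chi_nonneg h x i])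
  exact (mul_le_of_le_one_right (h.w_pos x hx1).le b).trans a

theorem w_lo (h : k.OK1 c) {m : ℤ} (hm : m ∈ k.F) : exp (k.W m - k.sl m) ≤ k.w m := by
  rw [← exp_log (h.w_pos m (h.F_mem m hm).1)]
  exact exp_le_exp.2 (h.lo m hm)

theorem w4_le' (h : k.OK1 c) {m i : ℤ} (hm : m ∈ k.F) (h0 : 0 ≤ i) (hi : i ≤ m) :
    k.w4 i ≤ exp (2 * k.sl m) * k.w m := by
  refine (w4_le h hm h0 hi).trans (le_trans ?_ (mul_le_mul_of_nonneg_left (w_lo h hm) (exp_pos _).le))
  rw [← exp_add]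
  exact exp_le_exp.2 (by linarith only [h.sl_mono 1 m le_rfl (h.F_mem m hm).1])

theorem w4_le'' (h : k.OK1 c) (h2 : k.OK2) {m i : ℤ} (hm : m ∈ k.F) (h0 : 0 ≤ i) (hi : i ≤ m) :
    k.w4 i ≤ 2 * exp (k.chi i m / 100) * k.w m := by
  have hw := h.w_pos m (h.F_mem m hm).1
  rcases h0.eq_or_lt with e | e
  · rw [← e, w4_zero h]; positivity
  refine (fold_max_le _).2 ⟨(h2.i2 m hm i e hi).2, fun x hx => ?_⟩
  rw [mem_filter] at hx
  have hx1 := (D_bd h hx.1).2.1
  obtain a := (h2.i2 m hm x hx1 (by omega)).2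
  rw [chi_add k hx.2.1.le hi] at a
  calc k.w x * exp (-k.chi x i / 4)
      ≤ 2 * exp ((k.chi x i + k.chi i m) / 100) * k.w m * exp (-k.chi x i / 4) :=
        mul_le_mul_of_nonneg_right a (exp_pos _).le
    _ = 2 * exp ((k.chi x i + k.chi i m) / 100 + -k.chi x i / 4) * k.w m := by rw [exp_add]; ring
    _ ≤ _ := by gcongr; linarith only [chi_nonneg h x i]

/-- `w x / η x ≤ exp (W n)` -/
theorem wη (h : k.OK1 c) {x n : ℤ} (hx : x ∈ k.D) (hn : n ∈ k.F) (hxn : x < n) :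
    k.w x / k.η x ≤ exp (k.W n) := by
  have a := (h.maj x hx).1
  have hx1 := D_bd h hx
  have b := h.W_mono _ n (one_le_nx h hx1.2.2.le) (nx_le h hn hxn)
  rw [← exp_log (div_pos (h.w_pos x hx1.2.1) (h.η_mem x hx).1),
    log_div (h.w_pos x hx1.2.1).ne' (h.η_mem x hx).1.ne']
  exact exp_le_exp.2 (by linarith only [a, b])

theorem ηinv (h : k.OK1 c) {x n : ℤ} (hx : x ∈ k.D) (hn : n ∈ k.F) (hxn : x < n) :
    1 / k.η x ≤ exp (k.W n + k.sl n) := by
  have a := (h.maj x hx).1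
  have hx1 := D_bd h hx
  have b := h.W_mono _ n (one_le_nx h hx1.2.2.le) (nx_le h hn hxn)
  have d := h.lo x hx1.1
  have e := W_nonneg h hx1.2.1
  have f := h.sl_mono x n hx1.2.1 hxn.le
  rw [one_div, ← exp_log (h.η_mem x hx).1, ← exp_neg]
  exact exp_le_exp.2 (by linarith only [a, b, d, e, f])

theorem V1_le (h : k.OK1 c) {x n : ℤ} (hx : x ∈ k.D) (hn : n ∈ k.F) (hxn : x < n) :
    k.V x 1 ≤ exp (k.W n + 2 * k.sl n) := by
  have hx1 := D_bd h hx
  have a := ηinv h hx hn hxn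
  have d := h.lo x hx1.1
  have e := W_nonneg h hx1.2.1
  have f := h.sl_mono x n hx1.2.1 hxn.le
  obtain b : 1 / k.w x ≤ exp (k.sl n) := by
    rw [one_div, ← exp_log (h.w_pos x hx1.2.1), ← exp_neg]
    exact exp_le_exp.2 (by linarith only [d, e, f])
  have hw := h.w_pos x hx1.2.1
  calc k.V x 1 = 1 / k.η x * (1 / k.w x) := by unfold Sk.V; rw [pow_one, one_div_mul_one_div]
    _ ≤ exp (k.W n + k.sl n) * exp (k.sl n) := by (clear * - a b hw; gcongr)
    _ = _ := by rw [← exp_add]; ring_nf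

theorem V_pos (h : k.OK1 c) {x : ℤ} (hx : x ∈ k.D) (e : ℕ) : 0 < k.V x e := by
  have := h.w_pos x (D_bd h hx).2.1
  have := (h.η_mem x hx).1
  unfold Sk.V; positivity

theorem an_nonneg (k : Sk) (n i : ℤ) : 0 ≤ k.an n i := (le_fold_max _).2 (Or.inl le_rfl)

theorem ηchi (hc : KC c) (h : k.OK1 c) {x : ℤ} (hx : x ∈ k.D) : 1 / k.η x ≤ exp (k.chi 0 x / c.C0) := by
  obtain h0 : 0 < c.C0 := by linarith only [hc.C0', hc.ck]
  have a := h.d0 x hx
  rw [one_div, ← exp_log (h.η_mem x hx).1, ← exp_neg]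
  refine exp_le_exp.2 ?_
  rw [le_div_iff₀ h0]; linarith only [a]

theorem σ_chi (hc : KC c) (h : k.OK1 c) {i : ℤ} (h1 : 1 ≤ i) (hi : i ≤ k.N) :
    c.C0 * k.σ i ≤ c.ck * k.chi 0 i := by
  obtain ⟨m, hm, hmi, e⟩ := prev h h1 hi
  obtain h0 : 0 < c.C0 := by linarith only [hc.C0', hc.ck]
  have a := h.jump m hm
  have b := h.d10 m hm
  obtain d := chi_mono h (i := 0) (by linarith only [(h.F_mem m hm).1]) hmi
  obtain e' : k.σ i = k.σ m := by unfold Sk.σ; rw [e]
  have hk := hc.ck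
  rw [e']
  linarith only [hk, mul_le_mul_of_nonneg_left a h0.le, mul_le_mul_of_nonneg_left (b.trans d) (by linarith only [hk] : 0 ≤ c.ck)]

/-- trichotomy for a time -/
theorem cases3 (k : Sk) (i : ℤ) :
    (∀ x ∈ k.D, x < i → k.nx x ≤ i) ∨ ∃ x ∈ k.D, x < i ∧ i < k.nx x := by
  by_cases h : ∃ x ∈ k.D, x < i ∧ i < k.nx x
  · exact Or.inr h
  · push Not at h; exact Or.inl h

theorem exp_big {s : ℝ} (hs : 2 ≤ s) : 6 ≤ exp s := by
  have a := add_one_le_exp (1 : ℝ)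
  have b := exp_one_gt_d9
  obtain e : exp 2 = exp 1 * exp 1 := by rw [← exp_add]; norm_num
  have := exp_le_exp.2 hs
  nlinarith only [b, e, this, a]

theorem an_mul_le (k : Sk) {n i : ℤ} {a B : ℝ} (ha : 0 ≤ a) (hB : 0 ≤ B)
    (h : ∀ x ∈ k.D, i < x → x < n → exp (-k.chi i x / 2) * k.V x 1 * a ≤ B) : k.an n i * a ≤ B := by
  rcases (le_fold_max _).1 (le_refl (k.an n i)) with e | ⟨x, hx, e⟩
  · exact (mul_nonpos_of_nonpos_of_nonneg e ha).trans hB
  · rw [mem_filter] at hx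
    exact (mul_le_mul_of_nonneg_right e ha).trans (h x hx.1 hx.2.1 hx.2.2)

theorem E_lo (hc : KC c) (h : k.OK1 c) (h2 : k.OK2) (n : ℤ) {i : ℤ} (h1 : 1 ≤ i) (hi : i < k.N) :
    1 / 2 ≤ k.E n i * k.w i := by
  have hw := h.w_pos i h1
  obtain hs : 1 ≤ exp (4 * k.σ i) := one_le_exp (by linarith only [lam_le_σ h hi.le, hc.lam])
  obtain a : 0 ≤ exp (4 * k.σ i) * k.an n i * k.w i := by have := an_nonneg k n i; (clear * - this hw; positivity)
  unfold Sk.E
  rw [add_mul]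
  split_ifs with hD
  · have := h.η_mem i hD
    obtain e : 4 * k.V i 1 * k.w i = 4 / k.η i := by unfold Sk.V; field_simp
    obtain this : 4 ≤ 4 / k.η i := by rw [le_div_iff₀ this.1]; linarith only [this]
    linarith only [a, e, this]
  · obtain b : 0 < k.om i ∧ k.om i ≤ 2 * k.w i := by
      rcases cases3 k i with o | ⟨x, hx, x1, x2⟩
      · rw [h2.om_out i o]; exact ⟨hw, by linarith only [hw]⟩
      · exact ⟨om_pos_in h h2 hx x1 x2, (h2.om_in x hx i x1 x2).2.1⟩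
    obtain this : 1 / 2 ≤ exp (4 * k.σ i) / k.om i * k.w i := by
      rw [div_mul_eq_mul_div, le_div_iff₀ b.1]; nlinarith only [b, hw, hs]
    linarith only [a, this]

theorem E_mono (k : Sk) {n n' : ℤ} (i : ℤ) (hn : n ≤ n') : k.E n i ≤ k.E n' i := by
  obtain this : k.an n i ≤ k.an n' i := by
    refine (fold_max_le _).2 ⟨an_nonneg k n' i, fun x hx => (le_fold_max _).2 (Or.inr ⟨x, ?_, le_rfl⟩)⟩
    rw [mem_filter] at hx ⊢
    exact ⟨hx.1, hx.2.1, by omega⟩
  unfold Sk.E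
  gcongr

theorem E_w4 (hc : KC c) (h : k.OK1 c) (h2 : k.OK2) (n : ℤ) {i : ℤ} (h1 : 1 ≤ i) (hi : i < k.N) :
    k.E n i * k.w4 i ≤ 6 * exp (k.chi 0 i / 200) := by
  have hw := h.w_pos i h1
  have hk := hc.ck
  have hC := hc.C0'
  obtain h0 : 0 < c.C0 := by linarith only [hk, hC]
  have hχ := chi_nonneg h 0 i
  obtain hσ0 : 0 ≤ k.σ i := by linarith only [lam_le_σ h hi.le, hc.lam]
  obtain ⟨y, hy⟩ : ∃ y, y = k.chi 0 i / c.C0 := ⟨_, rfl⟩
  obtain hy0 : 0 ≤ y := by rw [hy]; (clear * - hχ h0; positivity)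
  obtain hy1 : k.chi 0 i = c.C0 * y := by rw [hy]; field_simp
  obtain hσ : k.σ i ≤ c.ck * y := by
    have := σ_chi hc h h1 hi.le
    rw [hy1] at this
    exact le_of_mul_le_mul_left (by linarith only [this]) h0
  obtain hfin : 5 * k.σ i + y ≤ k.chi 0 i / 200 := by rw [hy1]; nlinarith only [hσ, hC, hy0]
  obtain hw4 := w4_nonneg h (i := i) (by omega)
  obtain a : exp (4 * k.σ i) * k.an n i * k.w4 i ≤ 2 * exp (k.chi 0 i / 200) := by
    obtain this : k.an n i * k.w4 i ≤ 2 * exp y := by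
      refine an_mul_le k hw4 (by positivity) fun x hx x1 _ => ?_
      have hx1 := D_bd h hx
      obtain b := w4_le'' h h2 hx1.1 (by omega : 0 ≤ i) x1.le
      have d := ηchi hc h hx
      have hwx := h.w_pos x hx1.2.1
      have hη := (h.η_mem x hx).1
      have hz := chi_nonneg h i x
      rw [chi_add k (by omega : 0 ≤ i) x1.le, add_div, ← hy] at d
      obtain d2 : k.chi i x / c.C0 ≤ k.chi i x / 100 := div_le_div_of_nonneg_left hz (by norm_num) (by linarith only [hk, hC])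
      calc exp (-k.chi i x / 2) * k.V x 1 * k.w4 i
          ≤ exp (-k.chi i x / 2) * k.V x 1 * (2 * exp (k.chi i x / 100) * k.w x) := by
            have := V_pos h hx 1; (clear * - b this; gcongr)
        _ = 2 * (exp (-k.chi i x / 2) * exp (k.chi i x / 100) * (1 / k.η x)) := by
            unfold Sk.V; field_simp
        _ ≤ 2 * (exp (-k.chi i x / 2) * exp (k.chi i x / 100) * exp (y + k.chi i x / c.C0)) := by (clear * - d; gcongr)
        _ ≤ _ := by rw [← exp_add, ← exp_add]; gcongr; linarith only [hz, d2]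
    calc exp (4 * k.σ i) * k.an n i * k.w4 i ≤ exp (4 * k.σ i) * (2 * exp y) := by
          rw [mul_assoc]; gcongr
      _ = 2 * exp (4 * k.σ i + y) := by rw [exp_add]; ring
      _ ≤ _ := by gcongr; linarith only [hσ0, hfin]
  unfold Sk.E
  rw [add_mul]
  split_ifs with hD
  · have hη := h.η_mem i hD
    obtain e : 4 * k.V i 1 * k.w4 i = 4 * (1 / k.η i) := by
      rw [w4_F h (D_bd h hD).1]; unfold Sk.V; field_simp
    have b := ηchi hc h hD
    obtain d : exp (k.chi 0 i / c.C0) ≤ exp (k.chi 0 i / 200) := exp_le_exp.2 (by linarith only [hσ0, hy, hfin])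
    linarith only [a, e, b, d]
  · obtain this : exp (4 * k.σ i) / k.om i * k.w4 i ≤ 2 * exp (k.chi 0 i / 200) := by
      rcases cases3 k i with o | ⟨x, hx, x1, x2⟩
      · rw [h2.om_out i o, w4_out k o, div_mul_cancel₀ _ hw.ne']
        obtain this : exp (4 * k.σ i) ≤ exp (k.chi 0 i / 200) := exp_le_exp.2 (by linarith only [hχ, hy0, hfin])
        linarith only [this, exp_pos (k.chi 0 i / 200)]
      · have hx1 := D_bd h hx
        have ho := om_pos_in h h2 hx x1 x2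
        have b := (w4_in h h2 hx x1 x2).1
        have d := (h2.om_in x hx i x1 x2).1
        have hη := (h.η_mem x hx).1
        have hwx := h.w_pos x hx1.2.1
        have f := ηchi hc h hx
        obtain f2 : k.chi 0 x / c.C0 ≤ y := by
          rw [hy]; exact div_le_div_of_nonneg_right (chi_mono h (by omega) x1.le) h0.le
        have f3 := σ_mono h x1.le hi.le
        obtain g1 : exp (-k.chi x i / 4) ≤ 1 := exp_le_one_iff.2 (by linarith only [chi_nonneg h x i])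
        obtain g2 : k.w x ≤ exp (k.σ i + y) * k.om i := by
          calc k.w x = k.w x * k.η x * (1 / k.η x) := by field_simp
            _ ≤ exp (k.σ x) * k.om i * exp y := by
              gcongr; exact f.trans (exp_le_exp.2 f2)
            _ ≤ exp (k.σ i) * k.om i * exp y := by gcongr
            _ = _ := by rw [exp_add]; ring
        obtain g3 : 1 ≤ exp (k.σ i + y) := one_le_exp (by linarith only [hσ0, hy0])
        obtain g4 : k.w4 i ≤ 2 * exp (k.σ i + y) * k.om i := by nlinarith only [b, g2, ho, g3, hwx, g1]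
        calc exp (4 * k.σ i) / k.om i * k.w4 i
            ≤ exp (4 * k.σ i) / k.om i * (2 * exp (k.σ i + y) * k.om i) := by (clear * - g4 ho; gcongr)
          _ = 2 * exp (4 * k.σ i + (k.σ i + y)) := by rw [exp_add _ (k.σ i + y)]; field_simp
          _ ≤ _ := by gcongr; linarith only [hfin]
    linarith only [a, this, exp_pos (k.chi 0 i / 200)]

theorem E_w4sq (hc : KC c) (h : k.OK1 c) (h2 : k.OK2) {n i : ℤ} (hn : n ∈ k.F) (h1 : 1 ≤ i) (hi : i < n) :
    k.E n i * k.w4 i ^ 2 ≤ exp (k.W n + 12 * k.sl n) := by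
  have hw := h.w_pos i h1
  have hnN := h.F_mem n hn
  have hs : 400 ≤ k.sl n := hc.lam.trans (lam_le_sl h hnN.1)
  have hσ := σ_le_sl h hn hi
  obtain hw4 := w4_nonneg h (i := i) (by omega)
  have hs1 := h.sl_mono 1 n le_rfl hnN.1
  obtain ⟨R, hR⟩ : ∃ R, R = exp (k.W n + 5 * k.sl n) := ⟨_, rfl⟩
  have hR0 : 0 < R := hR ▸ exp_pos _
  obtain a : exp (4 * k.σ i) * k.an n i * k.w4 i ^ 2 ≤ 4 * R := by
    obtain this : k.an n i * k.w4 i ^ 2 ≤ 4 * exp (k.W n) := by
      refine an_mul_le k (by (clear * -; positivity)) (by positivity) fun x hx x1 x2 => ?_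
      have hx1 := D_bd h hx
      obtain b := w4_le'' h h2 hx1.1 (by omega : 0 ≤ i) x1.le
      have d := wη h hx hn x2
      have hwx := h.w_pos x hx1.2.1
      have hη := (h.η_mem x hx).1
      have hz := chi_nonneg h i x
      obtain g : exp (-k.chi i x / 2) * exp (k.chi i x / 100) * exp (k.chi i x / 100) ≤ 1 := by
        rw [← exp_add, ← exp_add]; exact exp_le_one_iff.2 (by linarith only [hz])
      calc exp (-k.chi i x / 2) * k.V x 1 * k.w4 i ^ 2
          ≤ exp (-k.chi i x / 2) * k.V x 1 * (2 * exp (k.chi i x / 100) * k.w x) ^ 2 := by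
            have := V_pos h hx 1; (clear * - hw4 b this; gcongr)
        _ = 4 * (exp (-k.chi i x / 2) * exp (k.chi i x / 100) * exp (k.chi i x / 100) * (k.w x / k.η x)) := by
            unfold Sk.V; field_simp; norm_num
        _ ≤ 4 * (1 * exp (k.W n)) := by (clear * - g d hwx hη; gcongr)
        _ = _ := by ring
    calc exp (4 * k.σ i) * k.an n i * k.w4 i ^ 2 ≤ exp (4 * k.σ i) * (4 * exp (k.W n)) := by
          rw [mul_assoc]; gcongr
      _ = 4 * exp (4 * k.σ i + k.W n) := by rw [exp_add]; ring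
      _ ≤ _ := by
          rw [hR]; exact mul_le_mul_of_nonneg_left (exp_le_exp.2 (by linarith only [hs, hσ])) (by norm_num)
  obtain fin : 10 * R ≤ exp (k.W n + 12 * k.sl n) := by
    obtain e : exp (k.W n + 12 * k.sl n) = exp (7 * k.sl n) * R := by rw [hR, ← exp_add]; ring_nf
    have := add_one_le_exp (7 * k.sl n)
    rw [e]; gcongr; linarith only [hs, this]
  unfold Sk.E
  rw [add_mul]
  split_ifs with hD
  · have hη := h.η_mem i hD
    obtain e : 4 * k.V i 1 * k.w4 i ^ 2 = 4 * (k.w i / k.η i) := by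
      rw [w4_F h (D_bd h hD).1]; unfold Sk.V; field_simp
    have b := wη h hD hn hi
    obtain d : exp (k.W n) ≤ R := by rw [hR]; exact exp_le_exp.2 (by linarith only [hs])
    linarith only [hR0, a, fin, e, b, d]
  · obtain hwi : k.w i ≤ exp (k.W n + k.sl n) :=
      (w_le h hn h1 hi.le).trans (exp_le_exp.2 (by linarith only [hs1]))
    obtain hR' : exp (4 * k.σ i) * exp (k.W n + k.sl n) ≤ R := by
      rw [hR, ← exp_add]; exact exp_le_exp.2 (by linarith only [hσ])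
    obtain this : k.w4 i ^ 2 / k.om i ≤ 6 * exp (k.W n + k.sl n) := by
      rcases cases3 k i with o | ⟨x, hx, x1, x2⟩
      · rw [h2.om_out i o, w4_out k o, sq, mul_div_assoc, div_self hw.ne']
        linarith only [hw, hwi]
      · have hx1 := D_bd h hx
        have ho := om_pos_in h h2 hx x1 x2
        have b := (w4_in h h2 hx x1 x2).1
        obtain ⟨d, d', -⟩ := h2.om_in x hx i x1 x2
        have hη := (h.η_mem x hx).1
        have hwx := h.w_pos x hx1.2.1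
        obtain f := wη h hx hn (by omega)
        obtain f3 := σ_le_sl h hn (by omega : x < n)
        obtain g1 : exp (-k.chi x i / 4) ≤ 1 := exp_le_one_iff.2 (by linarith only [chi_nonneg h x i])
        obtain g0 : k.w4 i ≤ k.om i + k.w x := by nlinarith only [b, hwx, g1]
        obtain g2 : k.w x ^ 2 ≤ exp (k.W n + k.sl n) * k.om i := by
          calc k.w x ^ 2 = k.w x * k.η x * (k.w x / k.η x) := by field_simp
            _ ≤ exp (k.σ x) * k.om i * exp (k.W n) := by (clear * - d f hwx hη ho; gcongr)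
            _ ≤ exp (k.sl n) * k.om i * exp (k.W n) := by (clear * - f3 ho; gcongr)
            _ = _ := by rw [exp_add]; ring
        obtain g3 : k.w4 i ^ 2 ≤ (k.om i + k.w x) ^ 2 := by (clear * - hw4 g0; gcongr)
        obtain g5 : k.om i * k.om i ≤ 2 * exp (k.W n + k.sl n) * k.om i := by gcongr; linarith only [hwi, d']
        rw [div_le_iff₀ ho]
        linarith only [g2, g3, g5, sq_nonneg (k.om i - k.w x)]
    obtain e : exp (4 * k.σ i) / k.om i * k.w4 i ^ 2 = exp (4 * k.σ i) * (k.w4 i ^ 2 / k.om i) := by ring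
    have := mul_le_mul_of_nonneg_left this (exp_pos (4 * k.σ i)).le
    linarith only [a, fin, hR', e, this]

theorem E_le (hc : KC c) (h : k.OK1 c) (h2 : k.OK2) {n i : ℤ} (hn : n ∈ k.F) (h1 : 1 ≤ i) (hi : i < n) :
    k.E n i ≤ exp (k.W n + 8 * k.sl n) := by
  have hw := h.w_pos i h1
  have hnN := h.F_mem n hn
  have hs : 400 ≤ k.sl n := hc.lam.trans (lam_le_sl h hnN.1)
  have hσ := σ_le_sl h hn hi
  have hW := W_nonneg h hnN.1
  obtain ⟨R, hR⟩ : ∃ R, R = exp (k.W n + 7 * k.sl n) := ⟨_, rfl⟩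
  have hR0 : 0 < R := hR ▸ exp_pos _
  obtain a : exp (4 * k.σ i) * k.an n i ≤ R := by
    obtain this : k.an n i * 1 ≤ exp (k.W n + 2 * k.sl n) := by
      refine an_mul_le k zero_le_one (by positivity) fun x hx x1 x2 => ?_
      obtain g : exp (-k.chi i x / 2) ≤ 1 := exp_le_one_iff.2 (by linarith only [chi_nonneg h i x])
      rw [mul_one]
      exact (mul_le_of_le_one_left (V_pos h hx 1).le g).trans (V1_le h hx hn x2)
    rw [mul_one] at this
    calc exp (4 * k.σ i) * k.an n i ≤ exp (4 * k.σ i) * exp (k.W n + 2 * k.sl n) := by (clear * - this; gcongr)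
      _ ≤ _ := by rw [hR, ← exp_add]; exact exp_le_exp.2 (by linarith only [hs, hσ])
  obtain fin : 5 * R ≤ exp (k.W n + 8 * k.sl n) := by
    obtain e : exp (k.W n + 8 * k.sl n) = exp (k.sl n) * R := by rw [hR, ← exp_add]; ring_nf
    have := add_one_le_exp (k.sl n)
    rw [e]; gcongr; linarith only [hs, this]
  unfold Sk.E
  split_ifs with hD
  · have b := V1_le h hD hn hi
    obtain d : exp (k.W n + 2 * k.sl n) ≤ R := by rw [hR]; exact exp_le_exp.2 (by linarith only [hs])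
    linarith only [a, fin, b, d]
  · obtain this : 1 / k.om i ≤ exp (k.W n + 3 * k.sl n) := by
      rcases cases3 k i with o | ⟨x, hx, x1, x2⟩
      · obtain ⟨m, hm, hmi, e⟩ := prev h h1 (by omega)
        obtain hlt := (h.nx_mem i (by omega)).2.1
        obtain hmD : m ∉ k.D := fun hmD => by
          have : m ≠ i := fun e => hD (e ▸ hmD)
          obtain this := o m hmD (by omega)
          omega
        obtain b := h2.nlo m hm hmD i hmi (by omega)
        have d := W_nonneg h (h.F_mem m hm).1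
        obtain f := σ_le_sl h hn (by omega : m < n)
        rw [h2.om_out i o, one_div, ← exp_log hw, ← exp_neg]
        exact exp_le_exp.2 (by linarith only [hs, hW, b, d, f])
      · have hx1 := D_bd h hx
        have ho := om_pos_in h h2 hx x1 x2
        have d := (h2.om_in x hx i x1 x2).1
        have hη := (h.η_mem x hx).1
        have hwx := h.w_pos x hx1.2.1
        obtain f := V1_le h hx hn (by omega)
        obtain f3 := σ_le_sl h hn (by omega : x < n)
        rw [div_le_iff₀ ho]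
        calc (1 : ℝ) = k.w x * k.η x * k.V x 1 := by unfold Sk.V; field_simp
          _ ≤ exp (k.σ x) * k.om i * exp (k.W n + 2 * k.sl n) := by have := V_pos h hx 1; (clear * - d f this ho; gcongr)
          _ ≤ exp (k.sl n) * k.om i * exp (k.W n + 2 * k.sl n) := by gcongr
          _ = _ := by rw [mul_right_comm, ← exp_add]; ring_nf
    obtain b : exp (4 * k.σ i) / k.om i ≤ R := by
      calc exp (4 * k.σ i) / k.om i = exp (4 * k.σ i) * (1 / k.om i) := by ring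
        _ ≤ exp (4 * k.σ i) * exp (k.W n + 3 * k.sl n) := by (clear * - this; gcongr)
        _ ≤ _ := by rw [hR, ← exp_add]; exact exp_le_exp.2 (by linarith only [hσ])
    linarith only [hR0, a, fin, b]

theorem chi0_ge (hc : KC c) (h : k.OK1 c) {i : ℤ} (h1 : 1 ≤ i) : 400 ≤ k.chi 0 i := by
  obtain this := chi_mono h (i := 0) (j := 1) (by norm_num) h1
  rw [chi01 h] at this
  linarith only [this, hc.bl]

theorem em_pos (h : k.OK1 c) (n i : ℤ) : 0 < k.em n i :=
  (lt_fold_min _).2 ⟨one_pos, fun x hx => (h.η_mem x (mem_filter.1 hx).1).1⟩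

theorem em_le_one (k : Sk) (n i : ℤ) : k.em n i ≤ 1 := (fold_min_le _).2 (Or.inl le_rfl)

theorem em_le (k : Sk) {n i x : ℤ} (hx : x ∈ k.D) (h1 : x < n) (h2 : i < k.nx x) : k.em n i ≤ k.η x :=
  (fold_min_le _).2 (Or.inr ⟨x, mem_filter.2 ⟨hx, h1, h2⟩, le_rfl⟩)

theorem one_le_rh (k : Sk) (n : ℤ) : 1 ≤ k.rh n := (le_fold_max _).2 (Or.inl le_rfl)

theorem em_rh (h : k.OK1 c) (n i : ℤ) : 1 / k.em n i ^ 2 ≤ k.rh n := by
  have h0 := em_pos h n i
  rcases (fold_min_le _).1 (le_refl (k.em n i)) with e | ⟨x, hx, e⟩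
  · rw [le_antisymm (em_le_one k n i) e]; simpa using one_le_rh k n
  · rw [mem_filter] at hx
    have := (h.η_mem x hx.1).1
    refine le_trans ?_ ((le_fold_max _).2 (Or.inr ⟨x, mem_filter.2 ⟨hx.1, hx.2.1⟩, le_rfl⟩))
    (clear * - this e; gcongr)

theorem em_mono (k : Sk) (n : ℤ) {i i' : ℤ} (hi : i ≤ i') : k.em n i ≤ k.em n i' :=
  (le_fold_min _).2 ⟨em_le_one k n i, fun x hx => by
    rw [mem_filter] at hx
    exact em_le k hx.1 hx.2.1 (by omega)⟩

theorem rh_le (hc : KC c) (h : k.OK1 c) {n : ℤ} (hn : n ∈ k.F) :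
    k.rh n ≤ exp (2 * k.W n + 2 * k.sl n) := by
  have hnN := h.F_mem n hn
  have hs : 400 ≤ k.sl n := hc.lam.trans (lam_le_sl h hnN.1)
  have hW := W_nonneg h hnN.1
  refine (fold_max_le _).2 ⟨one_le_exp (by linarith only [hs, hW]), fun x hx => ?_⟩
  rw [mem_filter] at hx
  have a := ηinv h hx.1 hn hx.2
  have := (h.η_mem x hx.1).1
  calc 1 / k.η x ^ 2 = (1 / k.η x) ^ 2 := by rw [one_div_pow]
    _ ≤ exp (k.W n + k.sl n) ^ 2 := by gcongr
    _ = _ := by rw [← exp_nat_mul]; congr 1; push_cast; ring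

/-- the term of the major `x` in `NN` -/
noncomputable def tm (k : Sk) (e : ℕ) (g : ℝ) (i x : ℤ) : ℝ :=
  if x < i then exp (g * k.σ i) * exp (-k.chi x i / 4) / k.η x ^ e
  else k.w4 i * exp (g * k.σ x) * k.V x e

theorem floor_le (k : Sk) (n : ℤ) (e : ℕ) (g : ℝ) (i : ℤ) : exp (g * k.σ i) ≤ k.NN n e g i :=
  (le_fold_max _).2 (Or.inl le_rfl)

theorem tm_le (k : Sk) {n : ℤ} (e : ℕ) (g : ℝ) {i x : ℤ} (hx : x ∈ k.D) (h1 : x < n) (h2 : i < k.nx x) :
    tm k e g i x ≤ k.NN n e g i :=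
  (le_fold_max _).2 (Or.inr ⟨x, mem_filter.2 ⟨hx, h1, h2⟩, le_rfl⟩)

theorem NN_cases (k : Sk) (n : ℤ) (e : ℕ) (g : ℝ) (i : ℤ) : k.NN n e g i = exp (g * k.σ i) ∨
    ∃ x ∈ k.D, x < n ∧ i < k.nx x ∧ k.NN n e g i = tm k e g i x := by
  rcases (le_fold_max _).1 (le_refl (k.NN n e g i)) with a | ⟨x, hx, a⟩
  · exact Or.inl (le_antisymm a (floor_le k n e g i))
  · rw [mem_filter] at hx
    exact Or.inr ⟨x, hx.1, hx.2.1, hx.2.2, le_antisymm a (tm_le k e g hx.1 hx.2.1 hx.2.2)⟩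

theorem tm_add (k : Sk) (e : ℕ) (g g' : ℝ) (i x : ℤ) :
    tm k e (g + g') i x = exp (g' * if x < i then k.σ i else k.σ x) * tm k e g i x := by
  unfold tm
  split_ifs <;> rw [add_mul, exp_add] <;> ring

theorem tm_add' (k : Sk) (e e' : ℕ) (g : ℝ) (i x : ℤ) :
    tm k (e + e') g i x = tm k e g i x / k.η x ^ e' := by
  unfold tm Sk.V
  split_ifs <;> rw [pow_add] <;> ring

theorem tm_nonneg (h : k.OK1 c) (e : ℕ) (g : ℝ) {i x : ℤ} (hi : 0 ≤ i) (hx : x ∈ k.D) :
    0 ≤ tm k e g i x := by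
  have := (h.η_mem x hx).1
  have := V_pos h hx e
  have := w4_nonneg h hi
  unfold tm
  split_ifs <;> positivity

theorem NN_pos (k : Sk) (n : ℤ) (e : ℕ) (g : ℝ) (i : ℤ) : 0 < k.NN n e g i :=
  (exp_pos _).trans_le (floor_le k n e g i)

theorem NN_shift (h : k.OK1 c) (n : ℤ) (e : ℕ) (g : ℝ) {g' : ℝ} {i : ℤ} (hg : 0 ≤ g') (h0 : 0 ≤ i) :
    exp (g' * k.σ i) * k.NN n e g i ≤ k.NN n e (g + g') i := by
  rcases NN_cases k n e g i with a | ⟨x, hx, x1, x2, a⟩
  · rw [a, ← exp_add]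
    refine le_trans (le_of_eq ?_) (floor_le k n e (g + g') i)
    congr 1; ring
  · refine le_trans ?_ (tm_le k e (g + g') hx x1 x2)
    rw [a, tm_add]
    have := tm_nonneg h e g h0 hx
    gcongr
    split_ifs with b
    · exact le_rfl
    · exact σ_mono h (by omega) (D_bd h hx).2.2.le

theorem NN_shift' (h : k.OK1 c) {n : ℤ} (hn : n ∈ k.F) (e : ℕ) (g : ℝ) {g' : ℝ} {i : ℤ} (hg : 0 ≤ g')
    (h0 : 0 ≤ i) (hi : i < n) : k.NN n e (g + g') i ≤ exp (g' * k.sl n) * k.NN n e g i := by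
  rcases NN_cases k n e (g + g') i with a | ⟨x, hx, x1, x2, a⟩
  · rw [a, add_mul, exp_add, mul_comm]
    have := σ_le_sl h hn hi
    gcongr
    exact floor_le k n e g i
  · rw [a, tm_add]
    have := tm_nonneg h e g h0 hx
    gcongr
    · split_ifs
      · exact σ_le_sl h hn hi
      · exact σ_le_sl h hn x1
    · exact tm_le k e g hx x1 x2

theorem NN_em (h : k.OK1 c) (n : ℤ) (e e' : ℕ) (g : ℝ) (i : ℤ) :
    k.NN n (e + e') g i ≤ k.NN n e g i / k.em n i ^ e' := by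
  have hp := em_pos h n i
  rcases NN_cases k n (e + e') g i with a | ⟨x, hx, x1, x2, a⟩
  · rw [a]
    exact (floor_le k n e g i).trans
      (le_div_self (NN_pos k n e g i).le (by positivity) (pow_le_one₀ hp.le (em_le_one k n i)))
  · rw [a, tm_add']
    have := (NN_pos k n e g i).le
    gcongr
    · exact tm_le k e g hx x1 x2
    · exact em_le k hx x1 x2

theorem NN_mono (hc : KC c) (h : k.OK1 c) {n n' : ℤ} {e e' : ℕ} {g g' : ℝ} {i : ℤ} (h0 : 0 ≤ i)
    (hi : i ≤ k.N) (hn : n ≤ n') (he : e ≤ e') (hg : g ≤ g') : k.NN n e g i ≤ k.NN n' e' g' i := by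
  obtain hσ : 0 ≤ k.σ i := by linarith only [lam_le_σ h hi, hc.lam]
  obtain s1 : k.NN n e g i ≤ k.NN n' e' g i := by
    rcases NN_cases k n e g i with a | ⟨x, hx, x1, x2, a⟩
    · rw [a]; exact floor_le k n' e' g i
    · obtain ⟨d, rfl⟩ := Nat.exists_eq_add_of_le he
      refine le_trans ?_ (tm_le k (e + d) g hx (by omega) x2)
      rw [a, tm_add']
      have := h.η_mem x hx
      exact le_div_self (tm_nonneg h e g h0 hx) (pow_pos this.1 d) (pow_le_one₀ this.1.le this.2)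
  have s2 := NN_shift h n' e' g (sub_nonneg.2 hg) h0
  rw [add_sub_cancel] at s2
  refine s1.trans (le_trans ?_ s2)
  exact le_mul_of_one_le_left (NN_pos k n' e' g i).le (one_le_exp (mul_nonneg (sub_nonneg.2 hg) hσ))

theorem NN_le (hc : KC c) (h : k.OK1 c) {n : ℤ} (hn : n ∈ k.F) (e : ℕ) {g : ℝ} {i : ℤ} (hg : 0 ≤ g)
    (h0 : 0 ≤ i) (hi : i < n) : k.NN n e g i ≤ exp ((g + 2) * k.sl n) / k.em n i ^ e := by
  have hs : 400 ≤ k.sl n := hc.lam.trans (lam_le_sl h (h.F_mem n hn).1)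
  have hσ := σ_le_sl h hn hi
  obtain s0 : k.NN n 0 g i ≤ exp ((g + 2) * k.sl n) := by
    obtain f : exp (g * k.σ i) ≤ exp ((g + 2) * k.sl n) := exp_le_exp.2 (by nlinarith only [hs, hg, hσ])
    rcases NN_cases k n 0 g i with a | ⟨x, hx, x1, x2, a⟩
    · rw [a]; exact f
    · rw [a]
      unfold tm
      have hx1 := D_bd h hx
      split_ifs with b
      · rw [pow_zero, div_one]
        exact (mul_le_of_le_one_right (exp_pos _).le
          (exp_le_one_iff.2 (by linarith only [chi_nonneg h x i]))).trans f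
      · have hw := h.w_pos x hx1.2.1
        obtain d := w4_le' h hx1.1 h0 (by omega)
        have d1 := σ_le_sl h hn x1
        have d2 := h.sl_mono x n hx1.2.1 x1.le
        calc k.w4 i * exp (g * k.σ x) * k.V x 0
            ≤ exp (2 * k.sl x) * k.w x * exp (g * k.σ x) * k.V x 0 := by
              have := V_pos h hx 0; gcongr
          _ = exp (2 * k.sl x + g * k.σ x) := by rw [exp_add]; unfold Sk.V; field_simp
          _ ≤ _ := exp_le_exp.2 (by nlinarith only [d2, hg, d1])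
  have s1 := NN_em h n 0 e g i
  rw [zero_add] at s1
  have := em_pos h n i
  exact s1.trans (by gcongr)

theorem ta (hc : KC c) : TA_s c := by
  rintro k ⟨h, h2⟩
  have hk := hc.ck
  have hC := hc.C0'
  have he0 := hc.e0
  have he1 := hc.e1
  refine ⟨fun i _ => w_le_w4 k i, w4_zero h, fun m => w4_F h, fun i j => σ_mono h,
    fun i => lam_le_σ h, fun n hn i => σ_le_sl h hn, fun i h1 hi => ⟨?_, σ_chi hc h h1 hi⟩,
    fun x hx => ?_, fun x hx i => w4_in h h2 hx,
    fun m hm i h0 hi => ⟨w4_le h hm h0 hi, w4_le' h hm h0 hi, w4_le'' h h2 hm h0 hi⟩,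
    fun m hm y hy hmy G hG hG' => ?_, fun n i => E_lo hc h h2 n, fun n n' i => E_mono k i,
    fun n hn i h1 hi => ⟨E_w4sq hc h h2 hn h1 hi, ?_, E_le hc h h2 hn h1 hi⟩, fun n hN => ?_,
    fun n i => ⟨em_pos h n i, em_le_one k n i, em_rh h n i, fun i' => em_mono k n⟩,
    fun n hn => ⟨one_le_rh k n, rh_le hc h hn⟩,
    fun n e g i hg h0 hi => ⟨?_, fun n' e' g' => NN_mono hc h h0 hi,
      fun g' hg' => NN_shift h n e g hg' h0,
      fun hn hin => ⟨fun g' hg' => NN_shift' h hn e g hg' h0 hin, NN_le hc h hn e hg h0 hin,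
        fun e' => NN_em h n e e' g i⟩⟩⟩
  · refine le_trans ?_ (h.time _ (nxF h hi))
    obtain a : (i : ℝ) ≤ k.nx i := by exact_mod_cast le_nx h hi
    obtain b : (1 : ℝ) ≤ i := by exact_mod_cast h1
    gcongr
  · have hx1 := D_bd h hx
    have a := (h.maj x hx).1
    have b := h.lo x hx1.1
    have d := W_nonneg h hx1.2.1
    have f := sl_le_σ h hx1.2.1 hx1.2.2.le
    have g := h.d9 x hx
    have g1 := W_nonneg h (one_le_nx h hx1.2.2.le)
    obtain g2 : c.e3 ^ 2 ≤ 1 := pow_le_one₀ he0.le (by linarith only [he0, he1])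
    nlinarith only [a, b, d, f, g, he0, he1, g1, g2]
  · have hm1 := (h.F_mem m hm).1
    have a := h.jump y hy
    have b := h.lip m y hm1 hmy
    have d := h.lo y hy
    have f := h.W_mono m y hm1 hmy
    obtain g : (c.ck * G + 1) * c.ths ≤ 1 := by
      obtain p : 0 < c.ck * c.C0 ^ 2 + 1 := by positivity
      have q : c.e3 * (c.ck * c.C0 ^ 2 + 1) ≤ 1 := (le_div_iff₀ p).1 hc.e2
      obtain r : c.ths ≤ c.e3 := by
        obtain this : c.e3 ^ 2 ≤ 1 := pow_le_one₀ he0.le (by linarith only [he0, he1])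
        unfold Cs.ths; nlinarith
      obtain r0 : 0 ≤ c.ths := by unfold Cs.ths; positivity
      calc (c.ck * G + 1) * c.ths ≤ (c.ck * c.C0 ^ 2 + 1) * c.e3 := by (clear * - hG' hk r r0; gcongr)
        _ ≤ 1 := by linarith only [q]
    obtain p : 0 ≤ c.ck * G + 1 := by positivity
    have q1 := mul_le_mul_of_nonneg_left a hG
    have q2 := mul_le_mul_of_nonneg_left b p
    have q3 := mul_le_mul_of_nonneg_right g (sub_nonneg.2 f)
    linarith only [d, q1, q2, q3]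
  · obtain a := E_w4 hc h h2 n h1 (by have := (h.F_mem n hn).2; omega)
    have b := chi0_ge hc h h1
    have d := exp_big (s := k.chi 0 i / 200) (by linarith only [b])
    calc k.E n i * k.w4 i * exp (-k.chi 0 i / 100)
        ≤ exp (k.chi 0 i / 200) * exp (k.chi 0 i / 200) * exp (-k.chi 0 i / 100) :=
          mul_le_mul_of_nonneg_right (a.trans (by (clear * - d; gcongr))) (exp_pos _).le
      _ = 1 := by rw [← exp_add, ← exp_add, exp_eq_one_iff]; ring
  · have a := E_w4 hc h h2 n le_rfl hN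
    rw [w4_F h h.one, h.w1, mul_one, chi01 h] at a
    have b := hc.bl
    have d := exp_big (s := c.bl / 200) (by linarith only [b])
    rw [h.ch_one.2]
    calc exp (-c.bl) * k.E n 1 ≤ exp (-c.bl) * (exp (c.bl / 200) * exp (c.bl / 200)) := by
          gcongr; exact a.trans (by (clear * - d; gcongr))
      _ ≤ _ := by rw [← exp_add, ← exp_add]; exact exp_le_exp.2 (by linarith only [he0, he1, b])
  · exact (one_le_exp (mul_nonneg hg (by linarith only [he0, he1, lam_le_σ h hi, hc.lam]))).trans (floor_le k n e g i)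

theorem hvy (K : ℕ) (hc : KC c) (h3 : c.e3 ≤ 1 / (2 * (Cw K + 1) * c.C0 ^ 3)) : HVY_s K c := by
  rintro k ⟨h, -⟩ x hx hS
  have hk := hc.ck
  have hC := hc.C0'
  have he0 := hc.e0
  have he1 := hc.e1
  have hx1 := D_bd h hx
  have hη := h.η_mem x hx
  have hH : 0 ≤ -log (k.η x) := neg_nonneg.2 (log_nonpos hη.1.le hη.2)
  obtain hw : 0 ≤ Cw K := by unfold Cw; (clear * -; positivity)
  have a := (h.maj x hx).2
  have b := h.hi x hx1.2.1 hx1.2.2.le
  have d := (h.sl_mono 1 x le_rfl hx1.2.1).trans (sl_le_σ h hx1.2.1 hx1.2.2.le)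
  have g := h.d9 x hx
  have hσ : 0 ≤ k.σ x := by linarith only [he0, he1, lam_le_σ h hx1.2.2.le, hc.lam]
  unfold Sk.Strong at hS
  have p : 0 < 2 * (Cw K + 1) * c.C0 ^ 3 := by have : 0 < c.C0 := by linarith only [hk, hC, he0, he1]
                                               (clear * - hw this; positivity)
  have q := (le_div_iff₀ p).1 h3
  obtain e2 : c.e3 ^ 2 ≤ 1 / 9 := by nlinarith only [he1, he0]
  obtain e3 : c.e3 ^ 2 ≤ c.e3 := by nlinarith only [he0, he1]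
  obtain s1 : k.W (k.nx x) ≤ (Cw K + 1) * -log (k.η x) + 3 * k.σ x := by linarith only [hS, a, b, d]
  have s2 := mul_le_mul_of_nonneg_left s1 (sq_nonneg c.e3)
  obtain s3 : c.e3 ^ 2 * ((Cw K + 1) * -log (k.η x)) ≤ c.e3 * ((Cw K + 1) * -log (k.η x)) := by (clear * - e3 hw hH; gcongr)
  obtain s4 : k.σ x ≤ 2 * (c.e3 * ((Cw K + 1) * -log (k.η x))) := by nlinarith only [g, s2, s3, he0, hσ, he1, e2]
  have s5 := mul_le_mul_of_nonneg_left s4 (by have : 0 < c.C0 := by linarith only [hk, hC, he0, he1]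
                                              positivity : 0 ≤ c.C0 ^ 3)
  have s6 := mul_le_mul_of_nonneg_right q hH
  rw [← exp_log hη.1]
  exact exp_le_exp.2 (by linarith only [s5, s6])

end TA

theorem ta : Hier TA_s := TA.hK.mono fun _ => TA.ta

theorem hvy (K : ℕ) : Hier (HVY_s K) :=
  (TA.hK.and (Hier.e3_le (fun c => 1 / (2 * (Cw K + 1) * c.C0 ^ 3)) (fun _ _ _ _ _ _ _ _ => rfl)
    (TA.hK.mono fun c h => by
      have : 0 < c.C0 := by linarith only [h.C0', h.ck]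
      have : 0 ≤ Cw K := by unfold Cw; positivity
      positivity))).mono fun _ h => TA.hvy K h.1 h.2.2

end Pool.Agent.MP_9cbfe4_an

end

/-! ### Part J2n -/

section

/-! Row J2: numeric lemmas. -/

namespace Pool.Agent.MP_9cbfe4_an.J2

open Finset Real

/-- a supermultiplicative majorant that is sharp in the pair products -/
lemma hull {r : ℕ} {z G G' : ℕ → ℝ} {Λ B R : ℝ} (hΛ : 1 ≤ Λ) (z0 : ∀ a, 0 ≤ z a)
    (h0 : ∀ a, 1 ≤ a → 0 ≤ G' a ∧ G' a ≤ G a) (hz : ∀ a, 1 ≤ a → a < r → z a ≤ G a)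
    (hG : ∀ a b, 1 ≤ a → 1 ≤ b → a + b < r → G a * G b ≤ Λ * G' (a + b))
    (hB : ∀ a b, 1 ≤ a → 1 ≤ b → a + b = r →
      (z a + (4 * Λ) ^ r * G' a) * (z b + (4 * Λ) ^ r * G' b) ≤ B)
    (hQ : ∀ m : ℕ → ℝ, (∀ a, 1 ≤ a → a < r → z a ≤ m a) →
      (∀ a b, 1 ≤ a → 1 ≤ b → a + b < r → m a * m b ≤ 1 * m (a + b)) →
      (∀ a b, 1 ≤ a → 1 ≤ b → a + b = r → m a * m b ≤ B) → R ≤ B) : R ≤ B := by
  obtain l1 : 1 ≤ 4 * Λ := by linarith only [hΛ]
  have p1 (a : ℕ) : 1 ≤ (4 * Λ) ^ a := one_le_pow₀ l1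
  have n0 (a) (ha : 1 ≤ a) (i : ℕ) : 0 ≤ (4 * Λ) ^ i * G' a := mul_nonneg (by positivity) (h0 a ha).1
  refine hQ (fun a => z a + (4 * Λ) ^ (a - 1) * G' a)
    (fun a ha _ => le_add_of_nonneg_right (n0 a ha _)) (fun a b ha hb h => ?_) fun a b ha hb h => ?_
  · have k (a) (ha : 1 ≤ a) (h : a < r) :
        z a + (4 * Λ) ^ (a - 1) * G' a ≤ 2 * (4 * Λ) ^ (a - 1) * G a := by
      have := mul_le_mul_of_nonneg_left (h0 a ha).2 (zero_le_one.trans (p1 (a - 1)))
      have := mul_le_mul_of_nonneg_right (p1 (a - 1)) ((h0 a ha).1.trans (h0 a ha).2)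
      (rename_i zq0; linarith only [zq0, this, hz a ha h])
    obtain k1 := mul_le_mul (k a ha (by omega)) (k b hb (by omega)) (add_nonneg (z0 b) (n0 b hb _))
      ((add_nonneg (z0 a) (n0 a ha _)).trans (k a ha (by omega)))
    obtain k2 := mul_le_mul_of_nonneg_left (hG a b ha hb h)
      (show 0 ≤ 4 * ((4 * Λ) ^ (a - 1) * (4 * Λ) ^ (b - 1)) by positivity)
    rw [show a + b - 1 = a - 1 + (b - 1) + 1 by omega, pow_succ, pow_add]
    linarith only [z0 (a + b), k1, k2]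
  · have k (a) (ha : 1 ≤ a) (h : a < r) :
        z a + (4 * Λ) ^ (a - 1) * G' a ≤ z a + (4 * Λ) ^ r * G' a :=
      add_le_add_right (mul_le_mul_of_nonneg_right (pow_le_pow_right₀ l1 (by omega)) (h0 a ha).1) _
    exact (mul_le_mul (k a ha (by omega)) (k b hb (by omega)) (add_nonneg (z0 b) (n0 b hb _))
      (add_nonneg (z0 a) (n0 a ha _))).trans (hB a b ha hb h)

/-- the multiplication table at the fold -/
structure Tb (r : ℕ) (y η : ℝ) (m n : ℕ → ℝ) : Prop where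
  η0 : 0 < η
  η1 : η ≤ 1
  y1 : 10000 ≤ y
  lo : ∀ a, 1 ≤ a → (1 / η) ^ (2 * a - 2) ≤ η * m a
  mn : ∀ a, 1 ≤ a → η * m a ≤ n a
  nm : ∀ a, 1 ≤ a → n a ≤ m a
  mm : ∀ a b, 1 ≤ a → 1 ≤ b → a + b ≤ r → m a * m b ≤ 4 * y * (η * m (a + b))
  nn : ∀ a b, 1 ≤ a → 1 ≤ b → a + b ≤ r → n a * n b ≤ 4 * y * (η * n (a + b))

lemma tb {r : ℕ} {y η : ℝ} {τ : ℕ → ℝ} (η0 : 0 < η) (η1 : η ≤ 1) (y1 : 10000 ≤ y)
    (τ0 : ∀ a, 0 ≤ τ a) (cl : ∀ a b, 1 ≤ a → 1 ≤ b → a + b ≤ r →
      τ a * τ b ≤ y * η * (τ (a + b) + (1 / η) ^ (2 * (a + b) - 2)) ∧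
      τ a * (1 / η) ^ (2 * b - 1) ≤ y * (η * τ (a + b) + (1 / η) ^ (2 * (a + b) - 2))) :
    Tb r y η (fun a => τ a + (1 / η) ^ (2 * a - 1)) fun a => τ a + (1 / η) ^ (2 * a - 2) := by
  have e (a : ℕ) (ha : 1 ≤ a) : η * (1 / η) ^ (2 * a - 1) = (1 / η) ^ (2 * a - 2) := by
    rw [show 2 * a - 1 = 2 * a - 2 + 1 by omega, pow_succ]; field_simp
  have p (i : ℕ) : 0 < (1 / η) ^ i := by (clear * - η0; positivity)
  have s {x : ℝ} (h : 0 ≤ x) : η * x ≤ x := mul_le_of_le_one_left h η1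
  have e2 (a b : ℕ) (ha : 1 ≤ a) (hb : 1 ≤ b) :
      (1 / η) ^ (2 * a - 1) * (1 / η) ^ (2 * b - 1) = (1 / η) ^ (2 * (a + b) - 2) := by
    rw [← pow_add]; congr 1; omega
  refine ⟨η0, η1, y1, fun a ha => ?_, fun a ha => ?_, fun a ha => ?_, fun a b ha hb h => ?_,
    fun a b ha hb h => ?_⟩
  · rw [mul_add, e a ha]; exact le_add_of_nonneg_left (mul_nonneg η0.le (τ0 a))
  · rw [mul_add, e a ha]; linarith only [s (τ0 a)]
  · rw [← e a ha]; linarith only [s (p (2 * a - 1)).le]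
  · obtain ⟨h1, h2⟩ := cl a b ha hb h
    obtain ⟨-, h3⟩ := cl b a hb ha (by omega)
    rw [add_comm b a] at h3
    obtain h4 := mul_le_mul_of_nonneg_left (s (p (2 * (a + b) - 2)).le) (show 0 ≤ y by linarith only [y1])
    obtain h5 := mul_le_mul_of_nonneg_right (show 1 ≤ y by linarith only [y1]) (p (2 * (a + b) - 2)).le
    obtain h6 := mul_nonneg (show 0 ≤ y by linarith only [y1]) (mul_nonneg η0.le (τ0 (a + b)))
    rw [mul_add η, e _ (by omega), add_mul, mul_add, mul_add, e2 a b ha hb]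
    linarith only [h1, h2, h3, h4, h5, h6]
  · obtain ⟨h1, h2⟩ := cl a b ha hb h
    obtain ⟨-, h3⟩ := cl b a hb ha (by omega)
    rw [add_comm b a] at h3
    have h2 := mul_le_mul_of_nonneg_left h2 η0.le
    have h3 := mul_le_mul_of_nonneg_left h3 η0.le
    obtain yη : 0 ≤ y * η := mul_nonneg (by linarith only [y1]) η0.le
    have h4 := mul_le_mul_of_nonneg_left (s (τ0 (a + b))) yη
    obtain h5 := mul_le_mul_of_nonneg_right (show η ≤ y by linarith only [η1, y1])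
      (mul_pos η0 (p (2 * (a + b) - 2))).le
    have h6 := mul_nonneg yη (τ0 (a + b))
    rw [← e a ha, ← e b hb]
    rw [← e2 a b ha hb] at *
    linarith only [h1, h2, h3, h4, h5, h6]

namespace Tb
variable {r : ℕ} {y η : ℝ} {m n : ℕ → ℝ} (h : Tb r y η m n)
include h

lemma one_le {a : ℕ} (ha : 1 ≤ a) : 1 ≤ η * m a :=
  (one_le_pow₀ (one_le_one_div h.η0 h.η1)).trans (h.lo a ha)
lemma n0 {a : ℕ} (ha : 1 ≤ a) : 1 ≤ n a := (h.one_le ha).trans (h.mn a ha)
lemma m0 {a : ℕ} (ha : 1 ≤ a) : 1 ≤ m a := (h.n0 ha).trans (h.nm a ha)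
lemma mm' {a b : ℕ} (ha : 1 ≤ a) (hb : 1 ≤ b) (hr : a + b ≤ r) : m a * m b ≤ 4 * y * n (a + b) :=
  (h.mm a b ha hb hr).trans (mul_le_mul_of_nonneg_left (h.mn _ (by omega)) (by linarith only [h.y1]))

/-- pair products before and at the fold -/
lemma pre {a b : ℕ} (ha : 1 ≤ a) (hb : 1 ≤ b) (hr : a + b = r) {α β ua ub : ℝ} (α0 : 0 ≤ α)
    (αβ : α ≤ β) (h1 : ua ≤ y * m a) (h2 : ub ≤ y * m b) :
    (α * ua + β * (η * m a)) * (α * ub + β * (η * m b))
      ≤ α ^ 2 * (ua * ub) + β ^ 2 * y ^ 3 * (η * n r) := by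
  have β0 := α0.trans αβ
  have y1 := h.y1
  have η0 := h.η0
  have ma := h.m0 ha
  have mb := h.m0 hb
  obtain nr := h.n0 (show 1 ≤ r by omega)
  have k := h.mm' ha hb hr.le
  rw [hr] at k
  obtain a1 : α * ua ≤ β * (y * m a) :=
    (mul_le_mul_of_nonneg_left h1 α0).trans (mul_le_mul_of_nonneg_right αβ (by positivity))
  obtain a2 : α * ub ≤ β * (y * m b) :=
    (mul_le_mul_of_nonneg_left h2 α0).trans (mul_le_mul_of_nonneg_right αβ (by (clear * - y1 mb; positivity)))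
  obtain b1 := mul_le_mul_of_nonneg_right a1 (show 0 ≤ β * (η * m b) by positivity)
  obtain b2 := mul_le_mul_of_nonneg_right a2 (show 0 ≤ β * (η * m a) by positivity)
  obtain b3 := mul_le_mul_of_nonneg_left h.η1 (show 0 ≤ β ^ 2 * η * (m a * m b) by positivity)
  obtain b4 := mul_le_mul_of_nonneg_left k (show 0 ≤ β ^ 2 * η * (2 * y + 1) by positivity)
  obtain b5 := mul_le_mul_of_nonneg_left (show (2 * y + 1) * (4 * y) ≤ y ^ 3 by
    nlinarith only [mul_le_mul_of_nonneg_right y1 (sq_nonneg y), y1])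
    (show 0 ≤ β ^ 2 * (η * n r) by (clear * - η0 nr; positivity))
  linarith only [b1, b2, b3, b4, b5]

variable {d o v : ℝ}

lemma vb (v1 : 1 ≤ v) (v2 : v ^ 2 * η ≤ 1) {b : ℕ} (hb : 1 ≤ b) :
    v ^ b ≤ v * (η * m b) ∧ v * v ^ b ≤ m b ∧ v ^ b ≤ m b ∧ (2 ≤ b → v ^ b ≤ η * n b) := by
  have η0 := h.η0
  have k (i j : ℕ) (e : i ≤ 2 * j) : v ^ i ≤ (1 / η) ^ j := by
    refine (pow_le_pow_right₀ v1 e).trans ?_
    rw [pow_mul]
    exact pow_le_pow_left₀ (by positivity) ((le_div_iff₀ η0).2 v2) j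
  obtain a1 : v ^ b ≤ v * (η * m b) := by
    obtain this := (k (b - 1) (2 * b - 2) (by omega)).trans (h.lo b hb)
    rw [show b = b - 1 + 1 by omega, pow_succ', show b - 1 + 1 = b by omega]
    exact mul_le_mul_of_nonneg_left this (by linarith only [v1])
  obtain a2 : v * v ^ b ≤ m b := by
    obtain this := mul_le_mul_of_nonneg_left a1 (show 0 ≤ v by linarith only [v1])
    have := mul_le_mul_of_nonneg_right v2 (zero_le_one.trans (h.m0 hb))
    (rename_i zq0; linarith only [zq0, this])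
  refine ⟨a1, a2, (le_mul_of_one_le_left (by positivity) v1).trans a2, fun b2 => ?_⟩
  refine (k b (2 * b - 3) (by omega)).trans (le_trans (le_of_eq ?_)
    (mul_le_mul_of_nonneg_left ((h.lo b hb).trans (h.mn b hb)) η0.le))
  rw [show 2 * b - 2 = 2 * b - 3 + 1 by omega, pow_succ]
  field_simp

/-- closure of the majorant inside the block -/
lemma blkA (v1 : 1 ≤ v) (v2 : v ^ 2 * η ≤ 1) (d0 : 0 ≤ d) (d1 : d ≤ 1) (o0 : 0 ≤ o)
    (o1 : o * η ≤ 3 * y ^ 3) {a b : ℕ} (ha : 1 ≤ a) (hb : 1 ≤ b) (hr : a + b ≤ r) :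
    (d * m a + o * n a + v ^ a) * (d * m b + o * n b + v ^ b)
      ≤ y ^ 5 * (d * (η * m (a + b)) + o * n (a + b) + v ^ (a + b)) := by
  let cv0 := (); let cv1 := ()
  have y1 := h.y1
  have η0 := h.η0
  have ma := h.m0 ha
  have mb := h.m0 hb
  have na := h.n0 ha
  have nb := h.n0 hb
  obtain m2 := h.m0 (show 1 ≤ a + b by omega)
  obtain n2 := h.n0 (show 1 ≤ a + b by omega)
  have va := (h.vb v1 v2 ha).2.2.1
  have vb := (h.vb v1 v2 hb).2.2.1
  have k1 := mul_le_mul_of_nonneg_left (h.mm a b ha hb hr) d0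
  have k2 := mul_le_mul_of_nonneg_left (h.mm' ha hb hr) o0
  have k3 := mul_le_mul_of_nonneg_left (h.nn a b ha hb hr) (mul_nonneg o0 o0)
  clear_value cv1
  obtain k4 := mul_le_mul_of_nonneg_right o1 (show 0 ≤ 4 * y * (o * n (a + b)) by positivity)
  obtain xx := mul_le_mul_of_nonneg_right d1 (show 0 ≤ d * (m a * m b) by positivity)
  obtain xy : d * m a * (o * n b) ≤ 1 * m a * (o * m b) := by gcongr; exact h.nm b hb
  obtain yx : o * n a * (d * m b) ≤ o * m a * (1 * m b) := by gcongr; exact h.nm a ha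
  obtain xz : d * m a * v ^ b ≤ d * m a * m b := by (clear * - vb d0 ma; gcongr)
  obtain zx : v ^ a * (d * m b) ≤ m a * (d * m b) := by gcongr
  obtain yz : o * n a * v ^ b ≤ o * m a * m b := by gcongr; exact h.nm a ha
  obtain zy : v ^ a * (o * n b) ≤ m a * (o * m b) := by gcongr; exact h.nm b hb
  obtain y4 : y ≤ y ^ 4 := le_self_pow₀ (by linarith only [y1]) (by norm_num)
  obtain y5 : 28 * y ^ 4 ≤ y ^ 5 := by rw [pow_succ' y 4]; gcongr; linarith only [y1]
  obtain e1 := mul_le_mul_of_nonneg_right (show 12 * y ≤ y ^ 5 by linarith only [y1, y4, y5])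
    (show 0 ≤ d * (η * m (a + b)) by positivity)
  obtain e2 := mul_le_mul_of_nonneg_right (show 16 * y + 12 * y ^ 4 ≤ y ^ 5 by linarith only [y4, y5])
    (show 0 ≤ o * n (a + b) by positivity)
  clear_value cv0
  obtain e3 := mul_le_mul_of_nonneg_right (show 1 ≤ y ^ 5 by linarith only [y1, y4, y5])
    (show 0 ≤ v ^ a * v ^ b by positivity)
  rw [pow_add v]
  linarith only [k1, k2, k3, k4, xx, xy, yx, xz, zx, yz, zy, e1, e2, e3]

/-- weighted pair products inside the block -/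
lemma blkB (v1 : 1 ≤ v) (v2 : v ^ 2 * η ≤ 1) (d0 : 0 ≤ d) (d1 : d ≤ 1) (o0 : 0 ≤ o)
    {a b : ℕ} (ha : 1 ≤ a) (hb : 1 ≤ b) (hr : a + b = r) {ω f δ C ua ub : ℝ}
    (ω1 : ω ≤ 256 * f) (ω2 : ω ≤ y ^ 6) (ω3 : ω * o ≤ 2 * y ^ 6 * (v * η))
    (ω4 : ω * o ^ 2 ≤ 6 * y ^ 8) (of : o ≤ 2 * f * η) (vf : v ≤ f) (δ0 : 0 ≤ δ)
    (δf : δ * f ^ 2 ≤ 1) (C1 : 1 ≤ C) (u1 : 0 ≤ ua) (u2 : 0 ≤ ub) (h1 : ua ≤ y * m a)
    (h2 : ub ≤ y * m b) :
    ω * ((1000 * δ * ua + C * (d * (η * m a) + o * n a + v ^ a)) *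
        (1000 * δ * ub + C * (d * (η * m b) + o * n b + v ^ b)))
      ≤ 256000000 * (f * δ ^ 2) * (ua * ub) + C ^ 2 * y ^ 10 * (η * n r) := by
  let cv0 := (); let cv1 := (); let cv2 := (); let cv3 := ()
  have y1 := h.y1
  have η0 := h.η0
  have η1 := h.η1
  have ma := h.m0 ha
  have mb := h.m0 hb
  have na := h.n0 ha
  have nb := h.n0 hb
  obtain nr := h.n0 (show 1 ≤ r by omega)
  have f1 := v1.trans vf
  obtain ⟨t, ht⟩ : ∃ t, t = η * n r := ⟨_, rfl⟩
  obtain t0 : 0 ≤ t := by rw [ht]; positivity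
  obtain P : η * (m a * m b) ≤ 4 * y * t := by
    have := mul_le_mul_of_nonneg_left (h.mm' ha hb hr.le) η0.le
    rw [hr] at this
    rw [ht]; linarith only [this]
  clear_value cv3
  obtain N : n a * n b ≤ 4 * y * t := by simpa only [hr, ht] using h.nn a b ha hb hr.le
  have g (a) (ha : 1 ≤ a) : d * (η * m a) + o * n a + v ^ a ≤ 4 * f * (η * m a) := by
    have ma := h.m0 ha
    obtain i1 : d * (η * m a) ≤ f * (η * m a) := by gcongr; linarith only [v1, d1, vf]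
    obtain i2 : o * n a ≤ 2 * f * η * m a :=
      mul_le_mul of (h.nm a ha) (zero_le_one.trans (h.n0 ha)) (by positivity)
    obtain i3 : v * (η * m a) ≤ f * (η * m a) := by (clear * - vf η0 ma; gcongr)
    linarith only [(h.vb v1 v2 ha).1, i1, i2, i3]
  have cr {a b : ℕ} (ha : 1 ≤ a) (hb : 1 ≤ b) {u : ℝ} (u0 : 0 ≤ u) (hu : u ≤ y * m a)
      (P : η * (m a * m b) ≤ 4 * y * t) :
      ω * δ * u * (d * (η * m b) + o * n b + v ^ b) ≤ 4096 * y ^ 2 * t := by
    have ma := h.m0 ha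
    have mb := h.m0 hb
    have nb := h.n0 hb
    obtain i1 : ω * δ * u * (d * (η * m b) + o * n b + v ^ b)
        ≤ 256 * f * δ * (y * m a) * (4 * f * (η * m b)) := by gcongr; exact g b hb
    obtain i2 := mul_le_mul δf P (by positivity) zero_le_one
    obtain i3 := mul_le_mul_of_nonneg_left i2 (show 0 ≤ 1024 * y by positivity)
    linarith only [i1, i3]
  clear_value cv2
  have c1 := cr ha hb u1 h1 P
  obtain c2 := cr hb ha u2 h2 (by rwa [mul_comm (m b)])
  obtain vη : v * η ≤ 1 := le_trans (by rw [sq]; gcongr; exact le_mul_of_one_le_left (by linarith only [v1]) v1) v2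
  obtain ⟨-, a2, a3, -⟩ := h.vb v1 v2 ha
  obtain ⟨-, b2, b3, -⟩ := h.vb v1 v2 hb
  obtain y6 : 0 ≤ y ^ 6 := by positivity
  have P6 := mul_le_mul_of_nonneg_left P y6
  obtain xx : ω * (d * (η * m a) * (d * (η * m b))) ≤ y ^ 6 * (1 * (η * m a) * (1 * (1 * m b))) := by
    (clear * - ω2 d1 η0 ma η1 mb d0 y1; gcongr)
  have xy {a b : ℕ} (ha : 1 ≤ a) (hb : 1 ≤ b) :
      ω * o * (d * (η * m a) * n b) ≤ 2 * y ^ 6 * 1 * (1 * (η * m a) * m b) := by
    have ma := h.m0 ha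
    have nb := h.n0 hb
    refine mul_le_mul (ω3.trans (by (clear * - vη y1; gcongr))) (by gcongr; exact h.nm b hb) (by positivity)
      (by positivity)
  clear_value cv1
  have xz {a b : ℕ} (ha : 1 ≤ a) (b3 : v ^ b ≤ m b) :
      ω * (d * (η * m a) * v ^ b) ≤ y ^ 6 * (1 * (η * m a) * m b) := by
    have ma := h.m0 ha
    (clear * - ω2 d1 η0 ma b3 v1 d0 y1; gcongr)
  have yz {a b : ℕ} (ha : 1 ≤ a) (b2 : v * v ^ b ≤ m b) :
      ω * o * (n a * v ^ b) ≤ 2 * y ^ 6 * (η * (m a * m b)) := by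
    have na := h.n0 ha
    obtain i1 := mul_le_mul_of_nonneg_right ω3 (show 0 ≤ n a * v ^ b by positivity)
    obtain i2 := mul_le_mul_of_nonneg_left (mul_le_mul (h.nm a ha) b2 (by positivity)
      (zero_le_one.trans (h.m0 ha))) (show 0 ≤ 2 * y ^ 6 * η by positivity)
    linarith only [i1, i2]
  obtain yy := mul_le_mul ω4 N (by positivity) (by positivity)
  obtain zz : ω * (v ^ a * v ^ b) ≤ y ^ 6 * t := by
    rw [← pow_add, hr, ht]
    exact mul_le_mul ω2 ((h.vb v1 v2 (by omega)).2.2.2 (by omega)) (by positivity) y6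
  clear_value cv0
  have p {i j : ℕ} (e : i ≤ j) : y ^ i * t ≤ y ^ j * t :=
    mul_le_mul_of_nonneg_right (pow_le_pow_right₀ (by linarith only [y1]) e) t0
  obtain gg : ω * ((d * (η * m a) + o * n a + v ^ a) * (d * (η * m b) + o * n b + v ^ b))
      ≤ 69 * (y ^ 9 * t) := by
    linarith only [xy ha hb, xy hb ha, xz ha b3, xz hb a3, yz ha b2, yz hb a2, p (show 7 ≤ 9 by norm_num), p (show 6 ≤ 9 by norm_num), P6, xx, yy, zz]
  obtain e1 := mul_le_mul_of_nonneg_right ω1 (show 0 ≤ δ ^ 2 * (ua * ub) by (clear * - u1 u2; positivity))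
  obtain e2 := mul_le_mul_of_nonneg_left (add_le_add c1 c2) (show 0 ≤ C by linarith only [C1])
  have e3 := mul_le_mul_of_nonneg_left gg (sq_nonneg C)
  obtain e4 : C * (y ^ 2 * t) * 10000 * 10000 ≤ C ^ 2 * (y ^ 2 * t) * y * y := by
    gcongr; exact le_self_pow₀ C1 (by norm_num)
  obtain e5 := mul_le_mul_of_nonneg_left (p (show 4 ≤ 9 by norm_num)) (sq_nonneg C)
  obtain e6 := mul_le_mul_of_nonneg_left y1 (show 0 ≤ C ^ 2 * (y ^ 9 * t) by positivity)
  obtain e7 : 0 ≤ C * (y ^ 2 * t) := by (clear * - C1 y1 t0; positivity)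
  obtain e8 : 0 ≤ C ^ 2 * (y ^ 9 * t) := by (clear * - C1 y1 t0; positivity)
  rw [← ht]
  linarith only [e1, e2, e3, e4, e5, e6, e7]

end Tb

variable {k : Sk}

lemma chi_add {i j l : ℤ} (h1 : i ≤ j) (h2 : j ≤ l) : k.chi i l = k.chi i j + k.chi j l :=
  sum_Ioc_add _ h1 h2
lemma chi_one (i : ℤ) : k.chi (i - 1) i = k.ch i := by
  have := Ioc_succ_self (i - 1)
  rw [sub_add_cancel] at this
  rw [Sk.chi, this, sum_singleton]
lemma chi_nn (h : ∀ l, 1 / 2 ≤ k.ch l) (i j : ℤ) : 0 ≤ k.chi i j :=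
  sum_nonneg fun l _ => by linarith only [h l]
lemma exp_ch (h : ∀ l, 1 / 2 ≤ k.ch l) (l : ℤ) : exp (-k.ch l / 4) ≤ 8 / 9 := by
  have := add_one_le_exp (k.ch l / 4)
  rw [neg_div, exp_neg, inv_le_comm₀ (exp_pos _) (by norm_num)]
  linarith only [this, h l]

lemma geo1 (h : ∀ l, 1 / 2 ≤ k.ch l) {s x : ℤ} (hx : s ≤ x) :
    ∑ i ∈ Ico s x, exp (-k.chi i x / 4) ≤ 8 := by
  induction x, hx using Int.leInduction with
  | base => simp
  | succ x hx ih =>
    obtain e : ∀ i ∈ Ico s (x + 1), exp (-k.chi i (x + 1) / 4)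
        = exp (-k.chi i x / 4) * exp (-k.ch (x + 1) / 4) := fun i hi => by
      rw [chi_add (j := x) (by have := (mem_Ico.1 hi).2; omega) (by omega), ← chi_one (x + 1),
        add_sub_cancel_right, ← exp_add]
      congr 1; ring
    rw [sum_congr rfl e, ← sum_mul, sum_Ico_succ _ hx]
    obtain this : exp (-k.chi x x / 4) = 1 := by simp [Sk.chi]
    nlinarith only [exp_ch h (x + 1), exp_pos (-k.ch (x + 1) / 4), ih, this]

lemma geo2 (h : ∀ l, 1 / 2 ≤ k.ch l) {x J : ℤ} (hx : x + 1 ≤ J) :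
    ∑ i ∈ Ico (x + 1) J, exp (-k.chi x i / 4) + 8 * exp (-k.chi x (J - 1) / 4) ≤ 8 := by
  induction J, hx using Int.leInduction with
  | base => simp [Sk.chi]
  | succ J hx ih =>
    obtain e : exp (-k.chi x J / 4) = exp (-k.chi x (J - 1) / 4) * exp (-k.ch J / 4) := by
      rw [chi_add (j := J - 1) (by omega) (by omega), chi_one, ← exp_add]
      congr 1; ring
    rw [sum_Ico_succ _ hx, add_sub_cancel_right, e]
    nlinarith only [exp_ch h J, exp_pos (-k.chi x (J - 1) / 4), ih]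

variable {c : Cs} {x : ℤ}

lemma only (h : k.OK1 c) (hx : x ∈ k.D) {z l : ℤ} (hz : z ∈ k.D) (h1 : z < k.nx x) (h2 : l < k.nx z)
    (hl : x ≤ l) : z = x := by
  have a := (h.nx_mem x (h.D_mem x hx).2).2.2 z (h.D_mem z hz).1
  have b := (h.nx_mem z (h.D_mem z hz).2).2.2 x (h.D_mem x hx).1
  omega

lemma nn_pre (h : k.OK1 c) (hx : x ∈ k.D) (e : ℕ) {l : ℤ} (hl : l ≤ x)
    (h0 : 0 ≤ k.w4 l * k.V x e) : k.NN (k.nx x) e 0 l ≤ k.NN x e 0 l + k.w4 l * k.V x e := by
  have b : exp (0 * k.σ l) ≤ k.NN x e 0 l := (le_fold_max _).2 (.inl le_rfl)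
  refine (fold_max_le _).2 ⟨by linarith only [h0, b], fun z hz => ?_⟩
  obtain ⟨z1, z2, z3⟩ := mem_filter.1 hz
  have a := (h.nx_mem x (h.D_mem x hx).2).2.2 z (h.D_mem z z1).1
  rcases (by omega : z = x ∨ z < x) with rfl | hz
  · rw [if_neg (by omega), zero_mul, exp_zero, mul_one]
    linarith only [exp_pos (0 * k.σ l), b]
  · exact le_trans ((le_fold_max _).2 (.inr ⟨z, mem_filter.2 ⟨z1, hz, z3⟩, le_rfl⟩))
      (le_add_of_nonneg_right h0)

lemma nn_x (h : k.OK1 c) (hx : x ∈ k.D) (e : ℕ) : k.NN x e 0 x ≤ 1 := by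
  refine (fold_max_le _).2 ⟨by simp, fun z hz => ?_⟩
  obtain ⟨z1, z2, z3⟩ := mem_filter.1 hz
  have b := (h.nx_mem z (h.D_mem z z1).2).2.2 x (h.D_mem x hx).1
  omega

lemma nn_in (h : k.OK1 c) (hx : x ∈ k.D) (e : ℕ) {l : ℤ} (hl : x < l) :
    k.NN (k.nx x) e 0 l ≤ 1 + exp (-k.chi x l / 4) * (1 / k.η x) ^ e := by
  have η0 := (h.η_mem x hx).1
  refine (fold_max_le _).2 ⟨by simp; positivity, fun z hz => ?_⟩
  obtain ⟨z1, z2, z3⟩ := mem_filter.1 hz
  obtain rfl := only h hx z1 z2 z3 hl.le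
  rw [if_pos hl, zero_mul, exp_zero, one_mul, one_div_pow, mul_one_div]
  linarith only []

lemma E_in (h : k.OK1 c) (hx : x ∈ k.D) {i : ℤ} (h1 : x < i) (h2 : i < k.nx x) :
    k.E (k.nx x) i ≤ exp (4 * k.σ x) / k.om i := by
  obtain ⟨a1, a2, a3⟩ := h.nx_mem x (h.D_mem x hx).2
  obtain ⟨b1, b2, b3⟩ := h.nx_mem i (h2.trans_le (h.F_mem _ a1).2)
  obtain e : k.nx i = k.nx x := le_antisymm (b3 _ a1 h2) (a3 _ b1 (by omega))
  obtain nD : i ∉ k.D := fun hi => by have := a3 i (h.D_mem i hi).1 h1; omega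
  obtain an : k.an (k.nx x) i ≤ 0 := (fold_max_le _).2 ⟨le_rfl, fun z hz => by
    obtain ⟨z1, z2, z3⟩ := mem_filter.1 hz
    obtain this := a3 z (h.D_mem z z1).1 (by omega)
    omega⟩
  rw [Sk.E, if_neg nD, Sk.σ, e]
  exact add_le_of_nonpos_right (mul_nonpos_of_nonneg_of_nonpos (exp_pos _).le an)

end Pool.Agent.MP_9cbfe4_an.J2

end

/-! ### Part J2 -/

section

/-! Row J2: the block identity. -/

namespace Pool.Agent.MP_9cbfe4_an

open Finset Real

noncomputable section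

namespace J2

structure Cx (K : ℕ) (c : Cs) (M : Mdl) (σ : Seed) (t g : ℝ) (k : Sk) (n x : ℤ) (r : ℕ)
    (γ ls : ℝ) (T : ℕ → ℝ) : Prop where
  ta : TA_s c
  tb : TB_s c
  qb : QB_s K c
  ja : J2A_s K c
  jb : J2B_s K c
  bud : c.Bud K (K + 1)
  jc : JC K c M σ t g k n
  xn : x < n
  r2 : 2 ≤ r
  rK : r ≤ K + 1
  H : J2H c M σ t k x r γ ls T
  L : 10 ^ 10 * ((K + 1).factorial * c.CG) ≤ c.L
  CG : 1 ≤ c.CG
  β : 5 ≤ c.β
  κ : 0 < c.κ

def mm (k : Sk) (x : ℤ) (T : ℕ → ℝ) (a : ℕ) : ℝ := k.w x * T a + (1 / k.η x) ^ (2 * a - 1)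
def nn (k : Sk) (x : ℤ) (T : ℕ → ℝ) (a : ℕ) : ℝ := k.w x * T a + (1 / k.η x) ^ (2 * a - 2)
def CC (K r : ℕ) (γ ls : ℝ) : ℝ := exp (g2 K γ / 10 * ls) * exp (γ * ls) ^ (10 * r)
def UU (M : Mdl) (σ : Seed) (t : ℝ) (x : ℤ) (r : ℕ) : ℝ :=
  ∑ a ∈ Ioo 0 r, (r.choose a : ℝ) * (|σ.pj M t a x| * |σ.pj M t (r - a) x|)

lemma le_UU {M : Mdl} {σ : Seed} {t : ℝ} {x : ℤ} {r a b : ℕ} (ha : 1 ≤ a) (hb : 1 ≤ b)
    (h : a + b = r) : |σ.pj M t a x| * |σ.pj M t b x| ≤ UU M σ t x r := by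
  obtain this := single_le_sum (s := Ioo 0 r)
    (f := fun a => (r.choose a : ℝ) * (|σ.pj M t a x| * |σ.pj M t (r - a) x|))
    (fun _ _ => by (clear * -; (clear * -; positivity))) (mem_Ioo.2 ⟨ha, by omega⟩ : a ∈ _)
  rw [show r - a = b by omega] at this
  exact (le_mul_of_one_le_left (by (clear * -; positivity))
    (Nat.one_le_cast.2 (Nat.choose_pos (by omega)))).trans this

lemma gz_le {M : Mdl} {σ : Seed} {t q B : ℝ} {a : ℕ} {l : ℤ} (h0 : 1 ≤ B)
    (h1 : |σ.pj M t a l| ≤ B) (h2 : q * |σ.pj M t a (l - 1)| ≤ B) : σ.gz M t q a l ≤ B :=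
  max_le (by split_ifs <;> linarith only [h0]) (max_le h1 h2)

lemma gz_nn {M : Mdl} {σ : Seed} {t q : ℝ} (a : ℕ) (l : ℤ) : 0 ≤ σ.gz M t q a l :=
  (abs_nonneg _).trans ((le_max_left _ _).trans (le_max_right _ _))

namespace Cx
variable {K : ℕ} {c : Cs} {M : Mdl} {σ : Seed} {t g : ℝ} {k : Sk} {n x : ℤ} {r : ℕ}
  {γ ls : ℝ} {T : ℕ → ℝ} (h : Cx K c M σ t g k n x r γ ls T)
include h

lemma o1 : k.OK1 c := h.jc.oc.sk.1
lemma xF : x ∈ k.F := (h.o1.D_mem x h.H.hx).1
lemma x1 : 1 ≤ x := (h.o1.F_mem x h.xF).1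
lemma JF : k.nx x ∈ k.F := (h.o1.nx_mem x (h.o1.D_mem x h.H.hx).2).1
lemma xJ : x < k.nx x := (h.o1.nx_mem x (h.o1.D_mem x h.H.hx).2).2.1
lemma Jn : k.nx x ≤ n := (h.o1.nx_mem x (h.o1.D_mem x h.H.hx).2).2.2 n h.jc.oc.hn h.xn
lemma η0 : 0 < k.η x := (h.o1.η_mem x h.H.hx).1
lemma w0 : 0 < k.w x := h.o1.w_pos x h.x1
lemma ch (l : ℤ) : 1 / 2 ≤ k.ch l := (h.o1.ch_mem l).1
lemma fac : 10 ^ 10 * (r.factorial * c.CG) ≤ c.L ∧ 10 ^ 10 ≤ c.L := by
  have a : (r.factorial : ℝ) ≤ (K + 1).factorial := Nat.cast_le.2 (Nat.factorial_le h.rK)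
  have b : (1 : ℝ) ≤ r.factorial := Nat.one_le_cast.2 (Nat.factorial_pos r)
  have := mul_le_mul_of_nonneg_right a (zero_le_one.trans h.CG)
  have := one_le_mul_of_one_le_of_one_le b h.CG
  constructor <;> (rename_i zq0; linarith only [zq0, this, h.L])
lemma lam0 : 0 ≤ c.lam := log_nonneg (by linarith only [h.fac.2])
lemma sl {i : ℤ} (h1 : 1 ≤ i) (h2 : i ≤ k.nx x) : k.sl i ≤ γ * ls ∧ 0 ≤ ls := by
  have a := h.o1.sl_mono i _ h1 h2
  have b := h.o1.sl_mono 1 (k.nx x) le_rfl (h1.trans h2)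
  have d : k.sl (k.nx x) ≤ ls := h.H.hls
  obtain e : 0 ≤ ls := by linarith only [h.o1.sl1, h.lam0, b, d]
  exact ⟨by nlinarith only [h.H.hγ, a, d, e], e⟩
lemma es {i : ℤ} (h1 : 1 ≤ i) (h2 : i ≤ k.nx x) (j : ℕ) :
    exp (j * k.sl i) ≤ exp (γ * ls) ^ j := by
  rw [exp_nat_mul]
  exact pow_le_pow_left₀ (exp_pos _).le (exp_le_exp.2 (h.sl h1 h2).1) j
lemma Ly : c.L ≤ exp (γ * ls) := by
  rw [← exp_log (show 0 < c.L by linarith only [h.fac.2]), exp_le_exp]
  exact h.o1.sl1.trans (h.sl le_rfl (h.x1.trans h.xJ.le)).1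
lemma y1 : 10 ^ 10 ≤ exp (γ * ls) := h.fac.2.trans h.Ly
lemma sp1 : 1 ≤ exp (g2 K γ / 10 * ls) := by
  have := h.H.hγ
  have := (h.sl le_rfl (h.x1.trans h.xJ.le)).2
  exact one_le_exp (by unfold g2; (rename_i zq0; clear * - zq0 this; positivity))
lemma C0 : 1000 * ((K : ℝ) + 1) ≤ c.C0 := by
  obtain a : 1 ≤ c.Cg := by unfold Cs.Cg Cs.ck; nlinarith only [h.κ]
  obtain b : 1 ≤ c.gm (K + 1) (K + 3) :=
    one_le_mul_of_one_le_of_one_le (by linarith only []) (one_le_pow₀ a)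
  exact (le_mul_of_one_le_right (by (clear * -; positivity)) b).trans h.bud.2
lemma wV (e : ℕ) : k.w x * k.V x e = (1 / k.η x) ^ e := by
  have := h.w0
  have := h.η0
  rw [Sk.V, one_div_pow]; field_simp
lemma WJ : k.w x ≤ k.η x * exp (k.W (k.nx x)) ∧
    k.η x * exp (k.W (k.nx x)) ≤ k.w x * exp (γ * ls) ^ 2 := by
  obtain ⟨a, b⟩ := h.o1.maj x h.H.hx
  have e := h.es (h.x1.trans h.xJ.le) le_rfl 2
  refine ⟨?_, le_trans ?_ (mul_le_mul_of_nonneg_left e h.w0.le)⟩ <;>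
    rw [← exp_log h.w0, ← exp_log h.η0, ← exp_add]
  · exact exp_le_exp.2 (by linarith only [a])
  · rw [← exp_add, exp_le_exp]
    unfold Sk.σ at b
    push_cast
    linarith only [b]

lemma tab : Tb r (exp (γ * ls)) (k.η x) (mm k x T) (nn k x T) := by
  have w0 := h.w0
  have η0 := h.η0
  have T0 := h.H.pos
  refine J2.tb η0 (h.o1.η_mem x h.H.hx).2 (by linarith only [h.y1]) (fun a => mul_nonneg w0.le (T0 a))
    fun a b ha hb hr => ?_
  obtain ⟨h1, h2⟩ := h.H.cl a b ha hb hr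
  obtain V0 : 0 ≤ k.V x (2 * (a + b) - 2) := by unfold Sk.V; (clear * - w0 η0; positivity)
  have y0 := (exp_pos (γ * ls)).le
  have h3 := h1.trans (mul_le_mul_of_nonneg_left (max_le_add_of_nonneg (T0 _) V0) y0)
  have h4 := h2.trans
    (mul_le_mul_of_nonneg_left (max_le_add_of_nonneg (mul_nonneg η0.le (T0 _)) V0) y0)
  rw [← h.wV (2 * (a + b) - 2), one_div_pow]
  constructor
  · have i1 := mul_le_mul_of_nonneg_left h3 (mul_pos w0 η0).le
    have i2 := mul_le_mul_of_nonneg_left h.WJ.1 (mul_nonneg w0.le (mul_nonneg (T0 a) (T0 b)))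
    linarith only [i1, i2]
  · have i1 := mul_le_mul_of_nonneg_left h4 w0.le
    rw [mul_one_div, mul_div_assoc]
    linarith only [i1]

lemma lo2 (a : ℕ) (ha : 1 ≤ a) : lo2 k x T a = k.η x * mm k x T a := by
  have := h.η0
  rw [Pool.Agent.MP_9cbfe4_an.lo2, mm, show 2 * a - 1 = 2 * a - 2 + 1 by omega, pow_succ,
    one_div_pow]
  field_simp

/-- crude bound before the fold -/
lemma crude {a : ℕ} (ha : 1 ≤ a) (har : a < r) {l : ℤ} (l0 : 0 ≤ l) (lx : l ≤ x) :
    |σ.pj M t a l| ≤ 2 * exp (γ * ls) ^ 3 * (exp (a * (8 / c.C0 * k.chi l x)) * mm k x T a) := by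
  let cv0 := (); let cv1 := ()
  obtain ⟨-, -, -, -, -, -, -, -, -, t10, -⟩ := h.ta k h.jc.oc.sk
  have y1 := h.y1
  have C0 := h.C0
  obtain aK : (a : ℝ) ≤ K := Nat.cast_le.2 (by have := h.rK; omega)
  obtain C1 : 0 < c.C0 := lt_of_lt_of_le (by (clear * -; (clear * -; positivity))) C0
  have e2 := h.es h.x1 h.xJ.le 2
  obtain w4 : k.w4 l ≤ exp (γ * ls) ^ 2 * k.w x :=
    (t10 x h.xF l l0 lx).2.1.trans (mul_le_mul_of_nonneg_right (by exact_mod_cast e2) h.w0.le)
  obtain w40 : 0 ≤ k.w4 l := le_trans (by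
    rcases l0.eq_or_lt with rfl | l1
    exacts [h.o1.w0.ge, (h.o1.w_pos l l1).le]) ((le_fold_max _).2 (.inl le_rfl))
  obtain V0 : 0 ≤ k.V x (2 * a - 1) := by have := h.w0; have := h.η0; unfold Sk.V; (rename_i zq0; clear * - this zq0; positivity)
  obtain Z1 : 1 ≤ exp (a * (8 / c.C0 * k.chi l x)) :=
    one_le_exp (by have := chi_nn h.ch l x; (clear * - ha C1 this; positivity))
  clear_value cv1
  obtain y2 : 1 ≤ exp (γ * ls) ^ 2 := one_le_pow₀ (by linarith only [y1])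
  obtain N : k.NN x (2 * a - 1) 0 l ≤ exp (γ * ls) ^ 2 * exp (a * (8 / c.C0 * k.chi l x)) := by
    rcases lx.eq_or_lt with rfl | lx
    · exact (nn_x h.o1 h.H.hx _).trans (one_le_mul_of_one_le_of_one_le y2 Z1)
    obtain ee : ((2 * a - 1 : ℕ) : ℝ) ≤ 2 * a := by exact_mod_cast Nat.sub_le _ _
    obtain this := (h.tb k h.jc.oc.sk x h.xF (2 * a - 1) 0 (by linarith only [C0, aK, ee]) le_rfl C1.le).2.2.2 l
      (a * (8 / c.C0)) l0 lx (by rw [mul_assoc, div_mul_cancel₀ _ C1.ne']; linarith only [ee])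
    rw [neg_mul, exp_neg, inv_mul_le_iff₀ (exp_pos _), mul_assoc, zero_add,
      mul_comm (exp _)] at this
    exact this.trans (mul_le_mul_of_nonneg_right (by exact_mod_cast e2) (exp_pos _).le)
  have b1 := h.H.bd a l ha har l0 (lx.trans h.xJ.le)
  have b2 := mul_le_mul_of_nonneg_left ((nn_pre h.o1 h.H.hx _ lx (mul_nonneg w40 V0)).trans
    (add_le_add N (mul_le_mul_of_nonneg_right w4 V0))) (exp_pos (γ * ls)).le
  have b3 := mul_le_mul_of_nonneg_right w4 (h.H.pos a)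
  clear_value cv0
  have m1 := h.tab.m0 ha
  obtain b4 := mul_le_mul_of_nonneg_left (show 1 ≤ exp (γ * ls) by linarith only [y1])
    (show 0 ≤ exp (γ * ls) ^ 2 * (k.w x * T a) by have := h.w0; have := h.H.pos a; (rename_i zq0; clear * - zq0 this; positivity))
  obtain b5 := mul_le_mul_of_nonneg_left Z1 (show 0 ≤ exp (γ * ls) ^ 3 * mm k x T a by (clear * - m1; positivity))
  obtain b6 := mul_le_mul_of_nonneg_left m1
    (show 0 ≤ exp (γ * ls) ^ 3 * exp (a * (8 / c.C0 * k.chi l x)) by positivity)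
  rw [mul_assoc (_ ^ 2), h.wV] at b2
  have e : mm k x T a = k.w x * T a + (1 / k.η x) ^ (2 * a - 1) := rfl
  have := congrArg (exp (γ * ls) ^ 3 * ·) e
  linarith only [b1, b2, b3, b4, b5, b6, this]

lemma ua {a : ℕ} (ha : 1 ≤ a) (har : a < r) : |σ.pj M t a x| ≤ exp (γ * ls) * mm k x T a := by
  obtain ⟨-, -, t3, -⟩ := h.ta k h.jc.oc.sk
  have b1 := h.H.bd a x ha har (zero_le_one.trans h.x1) h.xJ.le
  obtain N : k.NN (k.nx x) (2 * a - 1) 0 x ≤ (1 / k.η x) ^ (2 * a - 1) := by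
    refine (fold_max_le _).2 ⟨?_, fun z hz => ?_⟩
    · rw [zero_mul, exp_zero]
      exact one_le_pow₀ (one_le_one_div h.η0 h.tab.η1)
    · obtain ⟨z1, z2, z3⟩ := mem_filter.1 hz
      obtain rfl := only h.o1 h.H.hx z1 z2 z3 le_rfl
      rw [if_neg (lt_irrefl _), zero_mul, exp_zero, mul_one, t3 _ h.xF, h.wV]
  have b2 := mul_le_mul_of_nonneg_left N (exp_pos (γ * ls)).le
  obtain b3 := mul_le_mul_of_nonneg_right (show 1 ≤ exp (γ * ls) by linarith only [h.y1])
    (mul_nonneg h.w0.le (h.H.pos a))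
  rw [t3 _ h.xF] at b1
  unfold mm
  linarith only [b1, b2, b3]

lemma gz1 {a : ℕ} (ha : 1 ≤ a) (har : a < r) {i : ℤ} (i1 : 1 ≤ i) (ix : i ≤ x) :
    σ.gz M t (exp (-k.ch i / 2)) a i
      ≤ 2 * exp (γ * ls) ^ 3 * (exp (a * (8 / c.C0 * k.chi i x)) * mm k x T a) := by
  have C0 := h.C0
  obtain aK : (a : ℝ) ≤ K := Nat.cast_le.2 (by have := h.rK; omega)
  obtain C1 : 0 < c.C0 := lt_of_lt_of_le (by (clear * -; positivity)) C0
  have m1 := h.tab.m0 ha
  obtain Z1 : 1 ≤ exp (a * (8 / c.C0 * k.chi i x)) :=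
    one_le_exp (by have := chi_nn h.ch i x; (clear * - ha C1 this; (clear * - ha C1 this; positivity)))
  obtain y3 : 1 ≤ exp (γ * ls) ^ 3 := one_le_pow₀ (by linarith only [h.y1])
  refine gz_le (one_le_mul_of_one_le_of_one_le (by linarith only [y3])
    (one_le_mul_of_one_le_of_one_le Z1 m1)) (h.crude ha har (by omega) ix) ?_
  refine (mul_le_mul_of_nonneg_left (h.crude ha har (by omega) (by omega)) (exp_pos _).le).trans ?_
  rw [mul_left_comm, ← mul_assoc (exp _), ← exp_add, chi_add (j := i) (by omega) ix, chi_one]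
  obtain this : a * (8 / c.C0) ≤ 1 / 2 := by rw [← mul_div_assoc, div_le_iff₀ C1]; linarith only [C0, aK]
  obtain this := mul_le_mul_of_nonneg_right this (show 0 ≤ k.ch i by linarith only [h.ch i])
  gcongr
  linarith only [this]

lemma sharp {a : ℕ} (ha : 1 ≤ a) (har : a < r) {l : ℤ} (l0 : 0 ≤ l) (lx : l ≤ x) :
    |σ.pj M t a l| ≤ 512 * exp (k.chi l x / 100) * |σ.pj M t a x|
      + exp (k.chi l x / 4) * exp (g2 K γ / 10 * ls) * (k.η x * mm k x T a) := by
  have a1 := h.ja h.bud M σ t g k n h.jc x r γ ls T h.xn h.rK h.H a l ha har l0 lx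
  rw [h.lo2 a ha, neg_div, exp_neg, inv_mul_le_iff₀ (exp_pos _), ← mul_assoc] at a1
  have F := h.jc.oc.fit
  have g1 := h.jc.oc.g1
  have g16 := h.jc.oc.g16
  obtain a2 : |(σ.orb M t).fr 1 l / (σ.orb M t).fr 1 x| ≤ 512 * exp (k.chi l x / 100) := by
    rcases l0.eq_or_lt with rfl | l1
    · rw [Sq.fr_lt _ one_pos, zero_div, abs_zero]; positivity
    have b1 := F.f2 x h.xF h.xn.le
    have b2 := F.f1 l l1 (lx.trans h.xn.le)
    have b3 := (h.jc.oc.sk.2.i2 x h.xF l l1 lx).2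
    obtain b4 : 0 < |(σ.orb M t).fr 1 x| := pos_of_mul_pos_right (h.w0.trans_le b1) (by linarith only [g1])
    rw [abs_div, div_le_iff₀ b4]
    obtain b5 : k.w l ≤ 2 * exp (k.chi l x / 100) * (16 * |(σ.orb M t).fr 1 x|) :=
      b3.trans (by gcongr; exact b1.trans (by gcongr))
    obtain b6 := mul_le_mul g16 b5 (h.o1.w_pos l l1).le (by norm_num)
    linarith only [b2, b6]
  have a3 := abs_sub_abs_le_abs_sub (σ.pj M t a l)
    ((σ.orb M t).fr 1 l / (σ.orb M t).fr 1 x * σ.pj M t a x)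
  rw [abs_mul] at a3
  linarith only [mul_le_mul_of_nonneg_right a2 (abs_nonneg (σ.pj M t a x)), a1, a3]

lemma gz2 {a : ℕ} (ha : 1 ≤ a) (har : a < r) {i : ℤ} (i1 : 1 ≤ i) (ix : i ≤ x) :
    σ.gz M t (exp (-k.ch i / 2)) a i ≤ 512 * exp (k.chi i x / 100) * |σ.pj M t a x|
      + exp (k.chi i x / 4) * exp (g2 K γ / 10 * ls) * (k.η x * mm k x T a) := by
  have m1 := h.tab.one_le ha
  have s1 := h.sp1
  have c0 := chi_nn h.ch i x
  have c1 := h.ch i
  refine gz_le (le_add_of_nonneg_of_le (by (clear * -; (clear * -; positivity))) (one_le_mul_of_one_le_of_one_le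
    (one_le_mul_of_one_le_of_one_le (one_le_exp (by linarith only [c0])) s1) m1))
    (h.sharp ha har (by omega) ix) ?_
  refine (mul_le_mul_of_nonneg_left (h.sharp ha har (by omega) (by omega)) (exp_pos _).le).trans ?_
  obtain e1 : exp (-k.ch i / 2) * exp (k.chi (i - 1) x / 100) ≤ exp (k.chi i x / 100) := by
    rw [← exp_add, chi_add (j := i) (by omega) ix, chi_one, exp_le_exp]; linarith only [c1]
  obtain e2 : exp (-k.ch i / 2) * exp (k.chi (i - 1) x / 4) ≤ exp (k.chi i x / 4) := by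
    rw [← exp_add, chi_add (j := i) (by omega) ix, chi_one, exp_le_exp]; linarith only [c1]
  have e3 := mul_le_mul_of_nonneg_right e1 (abs_nonneg (σ.pj M t a x))
  obtain e4 := mul_le_mul_of_nonneg_right e2
    (show 0 ≤ exp (g2 K γ / 10 * ls) * (k.η x * mm k x T a) by (clear * - m1; positivity))
  linarith only [e3, e4]

lemma CC1 {j : ℕ} (hj : j + 1 ≤ 10 * r) :
    exp (g2 K γ / 10 * ls) * exp (γ * ls) + exp (γ * ls) ^ j ≤ CC K r γ ls ∧
    10 ^ 10 ≤ CC K r γ ls := by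
  have y1 := h.y1
  have s1 := h.sp1
  have r2 := h.r2
  have p {i j : ℕ} (e : i ≤ j) : exp (γ * ls) ^ i ≤ exp (γ * ls) ^ j :=
    pow_le_pow_right₀ (by linarith only [y1]) e
  obtain a1 := p (show j ≤ 10 * r - 1 by omega)
  obtain a2 := p (show 1 ≤ 10 * r - 1 by omega)
  have a3 := mul_le_mul_of_nonneg_left a2 (zero_le_one.trans s1)
  obtain a4 := mul_le_mul_of_nonneg_right s1 (show 0 ≤ exp (γ * ls) ^ (10 * r - 1) by positivity)
  obtain a5 := mul_le_mul_of_nonneg_left y1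
    (show 0 ≤ exp (g2 K γ / 10 * ls) * exp (γ * ls) ^ (10 * r - 1) by positivity)
  rw [CC, show 10 * r = 10 * r - 1 + 1 by omega, pow_succ]
  rw [pow_one] at a2 a3
  constructor <;> linarith only [y1, a1, a2, a3, a4, a5]

/-- `QB` with trivial scaling -/
lemma hq {i : ℤ} (i1 : 1 ≤ i) (h2 : i < n) {B : ℝ} (B0 : 0 ≤ B) (m : ℕ → ℝ)
    (h1 : ∀ a, 1 ≤ a → a < r → σ.gz M t (exp (-k.ch i / 2)) a i ≤ m a)
    (h3 : ∀ a b, 1 ≤ a → 1 ≤ b → a + b < r → m a * m b ≤ 1 * m (a + b))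
    (h4 : ∀ a b, 1 ≤ a → 1 ≤ b → a + b = r → m a * m b ≤ B) :
    |σ.Qj M t r i| / (r.factorial * c.CG * c.L) ≤ B := by
  obtain this := ((h.qb M σ t g k n h.jc).2.2.2 i r m 1 1 B i1 h2 h.r2 h.rK one_pos le_rfl le_rfl B0
    (fun a ha har => by rw [one_mul]; exact h1 a ha har) h3).1 h4
  obtain L0 : 0 < c.L := by linarith only [h.fac.2]
  have CG := h.CG
  rw [div_le_iff₀ (by (clear * - CG L0; positivity))]
  simpa [mul_comm B] using this

/-- the sources before the fold -/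
lemma Qpre {i : ℤ} (i1 : 1 ≤ i) (ix : i < x) : |σ.Qj M t r i| / (r.factorial * c.CG * c.L) ≤
    (512 * exp (k.chi i x / 100)) ^ 2 * UU M σ t x r + (exp (k.chi i x / 4) * CC K r γ ls) ^ 2 *
      exp (γ * ls) ^ 3 * (k.η x * nn k x T r) := by
  have tb := h.tab
  have y1 := h.y1
  have η0 := h.η0
  have c0 := chi_nn h.ch i x
  have C0 := h.C0
  obtain C1 : 0 < c.C0 := lt_of_lt_of_le (by (clear * -; (clear * -; positivity))) C0
  obtain nr := tb.n0 (show 1 ≤ r by have := h.r2; omega)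
  obtain U0 : 0 ≤ UU M σ t x r := sum_nonneg fun _ _ => by (clear * -; positivity)
  obtain ⟨c1, c2⟩ := h.CC1 (j := 5 * r + 4) (by have := h.r2; omega)
  refine hull (r := r) (Λ := 8 * exp (γ * ls) ^ 4)
    (G := fun a => 2 * exp (γ * ls) ^ 3 * (exp (a * (8 / c.C0 * k.chi i x)) * mm k x T a))
    (G' := fun a => 2 * exp (γ * ls) ^ 3 * (exp (a * (8 / c.C0 * k.chi i x)) * (k.η x * mm k x T a)))
    (by linarith only [one_le_pow₀ (n := 4) (show 1 ≤ exp (γ * ls) by linarith only [y1])]) (gz_nn · i)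
    (fun a ha => ?_) (fun a ha har => h.gz1 ha har i1 ix.le) (fun a b ha hb hr => ?_)
    (fun a b ha hb hr => ?_) (h.hq i1 (ix.trans h.xn) (by (clear * - η0 nr U0 c2; (clear * - η0 nr U0 c2; positivity))))
  · have m1 := tb.m0 ha
    exact ⟨by (clear * - η0 m1; positivity), by gcongr; exact mul_le_of_le_one_left (by linarith only [m1]) tb.η1⟩
  · obtain this := mul_le_mul_of_nonneg_left (tb.mm a b ha hb hr.le) (show 0 ≤ 4 * exp (γ * ls) ^ 6 *
      (exp (a * (8 / c.C0 * k.chi i x)) * exp (b * (8 / c.C0 * k.chi i x))) by positivity)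
    rw [Nat.cast_add, add_mul, exp_add]
    linarith only [this]
  · have key (a : ℕ) (ha : 1 ≤ a) (har : a < r) : σ.gz M t (exp (-k.ch i / 2)) a i +
        (4 * (8 * exp (γ * ls) ^ 4)) ^ r * (2 * exp (γ * ls) ^ 3 *
          (exp (a * (8 / c.C0 * k.chi i x)) * (k.η x * mm k x T a)))
        ≤ 512 * exp (k.chi i x / 100) * |σ.pj M t a x|
          + exp (k.chi i x / 4) * CC K r γ ls * (k.η x * mm k x T a) := by
      have m1 := tb.one_le ha
      obtain aK : (a : ℝ) ≤ K := Nat.cast_le.2 (by have := h.rK; omega)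
      obtain e1 : exp (a * (8 / c.C0 * k.chi i x)) ≤ exp (k.chi i x / 4) := by
        obtain this : a * (8 / c.C0) ≤ 1 / 4 := by rw [← mul_div_assoc, div_le_iff₀ C1]; linarith only [C0, aK]
        exact exp_le_exp.2 (by linarith only [mul_le_mul_of_nonneg_right this c0])
      obtain e2 : (4 * (8 * exp (γ * ls) ^ 4)) ^ r * (2 * exp (γ * ls) ^ 3 *
          (exp (a * (8 / c.C0 * k.chi i x)) * (k.η x * mm k x T a))) ≤
          (exp (γ * ls) ^ 5) ^ r * (exp (γ * ls) * exp (γ * ls) ^ 3 *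
          (exp (k.chi i x / 4) * (k.η x * mm k x T a))) := by
        gcongr
        · rw [← mul_assoc, pow_succ' _ 4]; gcongr; linarith only [y1]
        · linarith only [y1]
      obtain e3 := mul_le_mul_of_nonneg_left (show exp (g2 K γ / 10 * ls) + exp (γ * ls) ^ (5 * r + 4)
        ≤ CC K r γ ls by nlinarith only [h.sp1, y1, c1])
        (show 0 ≤ exp (k.chi i x / 4) * (k.η x * mm k x T a) by (clear * - m1; positivity))
      rw [pow_add, pow_mul] at e3
      linarith only [h.gz2 ha har i1 ix.le, e2, e3]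
    have ma := tb.m0 ha
    have mb := tb.m0 hb
    have z1 := gz_nn (M := M) (σ := σ) (t := t) (q := exp (-k.ch i / 2)) b i
    refine (mul_le_mul (key a ha (by omega)) (key b hb (by omega)) (by (clear * - η0 mb z1; (clear * - η0 mb z1; positivity)))
      (by (clear * - η0 c2 ma; positivity))).trans ((tb.pre ha hb hr (by positivity) ?_ (h.ua ha (by omega))
        (h.ua hb (by omega))).trans ?_)
    · rw [mul_comm]
      exact mul_le_mul (exp_le_exp.2 (by linarith only [c0])) (by linarith only [c2]) (by norm_num) (exp_pos _).le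
    · gcongr
      exact le_UU ha hb hr

/-- the sources inside the block, with their weights -/
lemma Qblk {i : ℤ} (xi : x < i) (iJ : i < k.nx x) :
    |(σ.orb M t).fr (i + 1) (k.nx x) / (σ.orb M t).fr (x + 1) (k.nx x)| *
      (|σ.Qj M t r i| / (r.factorial * c.CG * c.L)) ≤
    256000000 * exp (-(99 / 100) * k.chi x i) * UU M σ t x r +
      CC K r γ ls ^ 2 * exp (γ * ls) ^ 10 * (k.η x * nn k x T r) := by
  let z1 := (); let z2 := (); let z3 := (); let z4 := (); let z5 := (); let z6 := ()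
  obtain ⟨-, -, -, -, -, -, -, -, t9, -⟩ := h.ta k h.jc.oc.sk
  have tb := h.tab
  have y1 := h.y1
  have η0 := h.η0
  have η1 := tb.η1
  have w0 := h.w0
  have x1 := h.x1
  obtain nr := tb.n0 (show 1 ≤ r by have := h.r2; omega)
  obtain U0 : 0 ≤ UU M σ t x r := sum_nonneg fun _ _ => by (clear * -; (clear * -; positivity))
  obtain ⟨c1, c2⟩ := h.CC1 (j := 7 * r + 1) (by have := h.r2; omega)
  have s1 := h.sp1
  have F := h.jc.oc.fit
  have g1 := h.jc.oc.g1
  have g16 := h.jc.oc.g16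
  have O := h.jc.oc.sk.2.om_in x h.H.hx
  have e1 : exp (k.σ x) ≤ exp (γ * ls) := exp_le_exp.2 (h.sl (x1.trans h.xJ.le) le_rfl).1
  obtain e4 : exp (4 * k.σ x) ≤ exp (γ * ls) ^ 4 := by
    exact_mod_cast h.es (x1.trans h.xJ.le) le_rfl 4
  have e0 : exp (k.sl 1) ≤ exp (γ * ls) := exp_le_exp.2 (h.sl le_rfl (x1.trans h.xJ.le)).1
  have WJ := h.WJ.2
  have lo := tb.lo
  have ua := @h.ua
  have wV := h.wV
  have bd := h.H.bd
  have T0 := h.H.pos
  have jb := h.jb h.bud M σ t g k n h.jc x r γ ls T h.xn h.rK h.H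
  generalize exp (γ * ls) = y at *
  have om0 {l} (h1 : x < l) (h2 : l < k.nx x) : 0 < k.om l :=
    pos_of_mul_pos_right ((mul_pos w0 η0).trans_le (O l h1 h2).1) (exp_pos _).le
  have v1 {l} : 1 ≤ vr k x l := le_min (one_le_exp (by linarith only [chi_nn h.ch x l]))
    (one_le_one_div (sqrt_pos.2 η0) (sqrt_le_one.2 η1))
  obtain v2 : vr k x i ^ 2 * k.η x ≤ 1 := by
    refine (mul_le_mul_of_nonneg_right (pow_le_pow_left₀ (zero_le_one.trans v1) (min_le_right _ _) 2)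
      η0.le).trans_eq ?_
    rw [one_div_pow, sq_sqrt η0.le, one_div_mul_cancel η0.ne']
  have vf : vr k x i ≤ exp (k.chi x i / 100) := min_le_left _ _
  have ch := h.ch i
  obtain ce : k.chi x i = k.chi x (i - 1) + k.ch i := by
    rw [chi_add (j := i - 1) (by omega) (by omega), chi_one]
  have c0 := chi_nn h.ch x i
  have c0' := chi_nn h.ch x (i - 1)
  obtain vm : vr k x (i - 1) ≤ vr k x i := min_le_min_right _ (exp_le_exp.2 (by linarith only [ch, ce]))
  obtain ⟨O1, O2, -, O4, O5⟩ := O i xi iJ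
  have omi := om0 xi iJ
  have HQ {B : ℝ} := h.hq (i := i) (B := B) (by omega) (iJ.trans_le h.Jn)
  replace v1 : 1 ≤ vr k x i := v1
  obtain ⟨κ, hκ⟩ : ∃ κ, κ = k.om i / k.w x := ⟨_, rfl⟩
  generalize hv : vr k x i = v at v1 v2 vf vm
  obtain ⟨d, hd⟩ : ∃ d, d = exp (-k.chi x i / 8) := ⟨_, rfl⟩
  obtain ⟨q, hq⟩ : ∃ q, q = exp (-k.ch i / 2) := ⟨_, rfl⟩
  obtain ⟨ω, hω⟩ : ∃ ω, ω =
    |(σ.orb M t).fr (i + 1) (k.nx x) / (σ.orb M t).fr (x + 1) (k.nx x)| := ⟨_, rfl⟩
  rw [← hq] at HQ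
  rw [← hω]
  have κ0 : 0 < κ := hκ ▸ div_pos omi w0
  have v0 : 0 < v := one_pos.trans_le v1
  have d0 : 0 < d := hd ▸ exp_pos _
  obtain d1 : d ≤ 1 := hd ▸ exp_le_one_iff.2 (by linarith only [ch, ce, c0'])
  have q0 : 0 < q := hq ▸ exp_pos _
  obtain q1 : q ≤ 1 := hq ▸ exp_le_one_iff.2 (by linarith only [ch])
  obtain κ1 : k.η x ≤ y * κ := by
    rw [hκ, ← mul_div_assoc, le_div_iff₀ w0, mul_comm]
    exact O1.trans (by (clear * - e1 omi; gcongr))
  obtain κ2 : κ * k.η x ≤ 2 * y ^ 3 := by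
    obtain a1 := h.o1.hi i (by omega) (iJ.le.trans (h.o1.F_mem _ h.JF).2)
    obtain a2 := h.o1.W_mono i _ (by omega) iJ.le
    obtain a3 : k.w i ≤ exp (k.W (k.nx x)) * y := by
      rw [← exp_log (h.o1.w_pos i (by omega))]
      refine le_trans ?_ (mul_le_mul_of_nonneg_left e0 (exp_pos _).le)
      rw [← exp_add, exp_le_exp]; linarith only [a1, a2]
    have a4 := mul_le_mul_of_nonneg_right (O2.trans (mul_le_mul_of_nonneg_left a3 zero_le_two)) η0.le
    obtain a5 := mul_le_mul_of_nonneg_right WJ (show 0 ≤ 2 * y by linarith only [y1])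
    rw [hκ, div_mul_eq_mul_div, div_le_iff₀ w0]
    linarith only [a4, a5]
  obtain κ3 : κ ≤ exp (k.chi x i / 100) * k.η x := by rw [hκ, div_le_iff₀ w0]; linarith only [O4]
  obtain V0 : 0 < k.V x 1 := by unfold Sk.V; (clear * - η0 w0; positivity)
  have wJ := h.o1.w_pos _ (x1.trans h.xJ.le)
  have fl := F.flo x h.H.hx h.xn
  obtain f0 : 0 < |(σ.orb M t).fr (x + 1) (k.nx x)| :=
    pos_of_mul_pos_right ((mul_pos V0 wJ).trans_le fl) (by linarith only [g1])
  obtain fl' : k.V x 1 * k.w (k.nx x) ≤ 16 * |(σ.orb M t).fr (x + 1) (k.nx x)| :=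
    fl.trans (by (clear * - g16 f0; gcongr))
  have ω0 : 0 ≤ ω := hω ▸ abs_nonneg _
  obtain ω1 : ω ≤ 256 * exp (k.chi x i / 100) := by
    have a1 := F.fblk x h.H.hx h.xn i _ xi iJ le_rfl
    obtain a2 := mul_le_mul g16 (mul_le_mul_of_nonneg_left fl' (exp_pos (k.chi x i / 100)).le)
      (by (clear * - V0 wJ; positivity)) (by norm_num)
    rw [hω, abs_div, div_le_iff₀ f0]
    linarith only [a1, a2]
  obtain ω5 : ω * κ ≤ y ^ 5 * k.η x := by
    obtain a1 := (F.fE _ h.JF h.Jn i _ (by omega) iJ le_rfl).trans (mul_le_mul_of_nonneg_right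
      (mul_le_mul_of_nonneg_left (E_in h.o1 h.H.hx xi iJ) (by linarith only [g1])) wJ.le)
    obtain a2 : g * (exp (4 * k.σ x) / k.om i) * k.w (k.nx x) * κ
        = g * exp (4 * k.σ x) * k.η x * (k.V x 1 * k.w (k.nx x)) := by
      rw [hκ, Sk.V]; field_simp
    obtain a3 : g * exp (4 * k.σ x) * k.η x * (k.V x 1 * k.w (k.nx x))
        ≤ 16 * y ^ 4 * k.η x * (16 * |(σ.orb M t).fr (x + 1) (k.nx x)|) := by (clear * - g16 e4 η0 fl' V0 wJ y1; gcongr)
    obtain a4 := mul_le_mul_of_nonneg_left y1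
      (show 0 ≤ y ^ 4 * k.η x * |(σ.orb M t).fr (x + 1) (k.nx x)| by (clear * - η0 y1 f0; (clear * - η0 y1 f0; positivity)))
    obtain a5 : 0 ≤ y ^ 4 * k.η x * |(σ.orb M t).fr (x + 1) (k.nx x)| := by (clear * - y1 η0 f0; positivity)
    rw [hω, abs_div, div_mul_eq_mul_div, div_le_iff₀ f0]
    linarith only [mul_le_mul_of_nonneg_right a1 κ0.le, a2, a3, a4, a5]
  clear_value z6
  obtain y0 : 0 < y := by linarith only [y1]
  obtain ω2 : ω ≤ y ^ 6 := le_of_mul_le_mul_right (by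
    linarith only [mul_le_mul_of_nonneg_left κ1 ω0, mul_le_mul_of_nonneg_left ω5 y0.le]) η0
  have p {i j : ℕ} (e : i ≤ j) : y ^ i ≤ y ^ j := pow_le_pow_right₀ (by linarith only [y1]) e
  obtain vη : v * k.η x ≤ 1 := le_trans (by
    rw [sq]; gcongr; exact le_mul_of_one_le_left v0.le v1) v2
  obtain ω3 : ω * (κ + v * k.η x) ≤ 2 * y ^ 6 * (v * k.η x) := by
    obtain a1 : y ^ 5 * k.η x ≤ y ^ 6 * (v * k.η x) :=
      mul_le_mul (p (by norm_num)) (le_mul_of_one_le_left η0.le v1) η0.le (by (clear * - y1; positivity))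
    linarith only [mul_le_mul_of_nonneg_right ω2 (mul_pos v0 η0).le, ω5, a1]
  obtain ω4 : ω * (κ + v * k.η x) ^ 2 ≤ 6 * y ^ 8 := by
    have a1 := mul_le_mul_of_nonneg_right ω5 κ0.le
    obtain a2 := mul_le_mul_of_nonneg_left κ2 (show 0 ≤ y ^ 5 by (clear * - y1; positivity))
    obtain a3 := mul_le_mul ω2 (mul_le_one₀ vη (mul_pos v0 η0).le vη) (by (clear * - v1 η0; positivity)) (by (clear * - y1; positivity))
    linarith only [mul_nonneg ω0 (sq_nonneg (κ - v * k.η x)), p (show 6 ≤ 8 by norm_num), a1, a2, a3]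
  obtain o1 : (κ + v * k.η x) * k.η x ≤ 3 * y ^ 3 := by
    linarith only [mul_le_one₀ vη η0.le η1, one_le_pow₀ (n := 3) (show 1 ≤ y by linarith only [y1]), κ2]
  obtain of : κ + v * k.η x ≤ 2 * exp (k.chi x i / 100) * k.η x := by
    linarith only [mul_le_mul_of_nonneg_right vf η0.le, κ3]
  obtain ⟨o, ho⟩ : ∃ o, o = κ + v * k.η x := ⟨_, rfl⟩
  rw [← ho] at ω3 ω4 o1 of
  have o0 : 0 < o := ho ▸ add_pos κ0 (mul_pos v0 η0)
  have oml {l} (h1 : x < l) (h2 : l ≤ i) : k.om l ≤ y * (κ * k.w x) := by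
    rw [hκ, div_mul_cancel₀ _ w0.ne']
    exact (O5 l h1 h2).trans (by (clear * - e1 omi; gcongr))
  obtain y1' : 1 ≤ y := by linarith only [y1]
  obtain xi' : x = i - 1 → q = exp (-k.chi x i / 2) := fun e => by rw [hq, e, chi_one]
  have G0 {a} (ha : 1 ≤ a) : 1 ≤ d * (k.η x * mm k x T a) + o * nn k x T a + v ^ a ∧
      d * (k.η x * mm k x T a) + o * nn k x T a + v ^ a
        ≤ d * mm k x T a + o * nn k x T a + v ^ a := by
    have := tb.m0 ha
    have := tb.n0 ha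
    exact ⟨le_add_of_nonneg_of_le (by (rename_i zq0; clear * - d0 η0 zq0 o0 this; positivity)) (one_le_pow₀ v1),
      by gcongr; exact mul_le_of_le_one_left (by (rename_i zq0; linarith only [zq0])) η1⟩
  clear_value z5
  -- the crude majorant
  have cr {a l} (ha : 1 ≤ a) (har : a < r) (h1 : x < l) (h2 : l ≤ i) {q : ℝ} (q0 : 0 ≤ q)
      (q1 : q ≤ 1) (hd : q * exp (-k.chi x l / 4) ≤ d) :
      q * |σ.pj M t a l| ≤ y * (d * mm k x T a + o * nn k x T a + v ^ a) := by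
    have Ta := T0 a
    obtain b1 : |σ.pj M t a l| ≤ (y * (κ * k.w x) + k.w x * exp (-k.chi x l / 4)) * T a
        + y * (1 + exp (-k.chi x l / 4) * (1 / k.η x) ^ (2 * a - 1)) :=
      (bd a l ha har (by (clear * - x1 h1; omega)) (by omega)).trans (add_le_add (mul_le_mul_of_nonneg_right
        ((t9 x h.H.hx l h1 (by omega)).1.trans (add_le_add_left (oml h1 h2) _)) Ta)
        (mul_le_mul_of_nonneg_left (nn_in h.o1 h.H.hx _ h1) y0.le))
    obtain b2 := mul_le_mul_of_nonneg_right q1 (show 0 ≤ y * (κ * (k.w x * T a)) + y by (clear * - y1 κ0 w0 Ta; positivity))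
    obtain b3 := mul_le_mul_of_nonneg_right hd
      (show 0 ≤ k.w x * T a + y * (1 / k.η x) ^ (2 * a - 1) by (clear * - w0 Ta y1 η0; positivity))
    obtain b4 := mul_le_mul_of_nonneg_right y1' (show 0 ≤ d * (k.w x * T a) by (clear * - d0 w0 Ta; positivity))
    obtain b5 : y * (κ * (k.w x * T a)) ≤ y * (o * nn k x T a) := by
      gcongr
      · exact ho ▸ le_add_of_nonneg_right (mul_pos v0 η0).le
      · exact le_add_of_nonneg_right (by positivity)
    have b6 := mul_le_mul_of_nonneg_left (one_le_pow₀ (n := a) v1) y0.le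
    unfold mm
    linarith only [mul_le_mul_of_nonneg_left b1 q0, b2, b3, b4, b5, b6]
  have g1 {a} (ha : 1 ≤ a) (har : a < r) :
      σ.gz M t q a i ≤ y * (d * mm k x T a + o * nn k x T a + v ^ a) := by
    refine gz_le (one_le_mul_of_one_le_of_one_le y1' ((G0 ha).1.trans (G0 ha).2)) ?_ ?_
    · simpa using cr ha har xi le_rfl zero_le_one le_rfl
        (by rw [one_mul, hd]; exact exp_le_exp.2 (by linarith only [ch, ce, c0']))
    rcases (by omega : x = i - 1 ∨ x < i - 1) with e | e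
    · have m1 := tb.m0 ha
      have n1 := tb.n0 ha
      obtain this : q ≤ d := by rw [xi' e, hd]; exact exp_le_exp.2 (by linarith only [ch, ce, c0'])
      have := mul_le_mul this (ua ha har) (abs_nonneg _) d0.le
      obtain this : 0 ≤ y * (o * nn k x T a + v ^ a) := by (clear * - y1 o0 n1 v1; positivity)
      rw [← e]
      (rename_i zq0; linarith only [zq0, this])
    · exact cr ha har e (by omega) q0.le q1 (by rw [hq, hd, ← exp_add]; exact exp_le_exp.2 (by linarith only [ch, ce, c0']))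
  clear_value z4
  -- the sharp majorant
  have sh {a l} (ha : 1 ≤ a) (har : a < r) (h1 : x < l) (h2 : l ≤ i) {q : ℝ} (q0 : 0 ≤ q)
      (q1 : q ≤ 1) (hd : q * exp (-k.chi x l / 8) ≤ d) (hv : vr k x l ≤ v)
      (hδ : q * exp (-(9 / 10) * k.chi x l) ≤ exp (-k.chi x i / 2)) :
      q * |σ.pj M t a l| ≤ 1000 * exp (-k.chi x i / 2) * |σ.pj M t a x| + exp (g2 K γ / 10 * ls) *
        y * (d * (k.η x * mm k x T a) + o * nn k x T a + v ^ a) := by
    have Ta := T0 a
    have m1 := tb.one_le ha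
    have n1 := tb.n0 ha
    obtain V0 : 0 < k.V x (2 * a - 2) := by unfold Sk.V; positivity
    obtain b1 : (k.om l + vr k x l * (k.w x * k.η x)) * (T a + k.V x (2 * a - 2))
        ≤ y * (o * nn k x T a) := by
      obtain i1 : vr k x l * (k.w x * k.η x) ≤ y * (v * (k.w x * k.η x)) :=
        (mul_le_mul_of_nonneg_right hv (by positivity)).trans
          (le_mul_of_one_le_left (by positivity) y1')
      obtain i2 := mul_le_mul_of_nonneg_right (add_le_add (oml h1 h2) i1) (show 0 ≤ T a + _ by linarith)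
      rw [nn, ← wV, ho]
      linarith
    obtain b2 : q * (exp (-k.chi x l / 8) / k.η x ^ (2 * a - 2)) ≤ y * (d * (k.η x * mm k x T a)) := by
      rw [← mul_div_assoc, div_eq_mul_one_div, ← one_div_pow]
      exact (mul_le_mul hd (lo a ha) (by positivity) d0.le).trans
        (le_mul_of_one_le_left (by (clear * - d0 m1; positivity)) y1')
    obtain b3 : vr k x l ≤ y * v ^ a := (hv.trans (le_self_pow₀ v1 (by omega))).trans
      (le_mul_of_one_le_left (by positivity) y1')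
    obtain b4 := mul_le_mul_of_nonneg_right q1 (show 0 ≤ y * (o * nn k x T a) + y * v ^ a by (clear * - y1 o0 n1 v1; positivity))
    have b5 := mul_le_mul_of_nonneg_left (add_le_add b1 b3) q0
    obtain b6 := mul_le_mul_of_nonneg_left (show q * ((k.om l + vr k x l * (k.w x * k.η x)) *
      (T a + k.V x (2 * a - 2)) + exp (-k.chi x l / 8) / k.η x ^ (2 * a - 2) + vr k x l) ≤
      y * (d * (k.η x * mm k x T a) + o * nn k x T a + v ^ a) by linarith only [b2, b4, b5]) (zero_le_one.trans s1)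
    have b7 := mul_le_mul_of_nonneg_right hδ (abs_nonneg (σ.pj M t a x))
    linarith only [b6, b7, iJ, h2, mul_le_mul_of_nonneg_left (jb a l ha har h1 (by omega)) q0]
  clear_value z3
  have g2' {a} (ha : 1 ≤ a) (har : a < r) : σ.gz M t q a i ≤ 1000 * exp (-k.chi x i / 2) *
      |σ.pj M t a x| + exp (g2 K γ / 10 * ls) *
        y * (d * (k.η x * mm k x T a) + o * nn k x T a + v ^ a) := by
    have i0 := one_le_mul_of_one_le_of_one_le (one_le_mul_of_one_le_of_one_le s1 y1') (G0 ha).1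
    refine gz_le (le_add_of_nonneg_of_le (by (clear * -; positivity)) i0) ?_ ?_
    · simpa using sh ha har xi le_rfl zero_le_one le_rfl (by rw [one_mul, hd]) hv.le
        (by rw [one_mul]; exact exp_le_exp.2 (by linarith only [ch, ce, c0']))
    rcases (by omega : x = i - 1 ∨ x < i - 1) with e | e
    · obtain this : 0 ≤ exp (-k.chi x i / 2) * |σ.pj M t a x| := by (clear * -; positivity)
      rw [xi' e, ← e]
      linarith only [i0, this]
    · exact sh ha har e (by omega) q0.le q1 (by rw [hq, hd, ← exp_add]; exact exp_le_exp.2 (by linarith only [ch, ce]))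
        vm (by rw [hq, ← exp_add]; exact exp_le_exp.2 (by linarith only [ce, c0']))
  clear_value z2
  rcases ω0.eq_or_lt with e | ω0'
  · rw [← e, zero_mul]; (clear * - U0 c2 y1 η0 nr; positivity)
  rw [← le_div_iff₀' ω0']
  refine hull (r := r) (Λ := y ^ 6) (G := fun a => y * (d * mm k x T a + o * nn k x T a + v ^ a))
    (G' := fun a => y * (d * (k.η x * mm k x T a) + o * nn k x T a + v ^ a)) (one_le_pow₀ y1')
    (gz_nn · i) (fun a ha => ⟨mul_nonneg y0.le (zero_le_one.trans (G0 ha).1),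
      mul_le_mul_of_nonneg_left (G0 ha).2 y0.le⟩) (fun a => g1) (fun a b ha hb hr => ?_)
    (fun a b ha hb hr => ?_) (HQ (by (clear * - η0 nr U0 c2 y1 ω0'; positivity)))
  · linarith only [mul_le_mul_of_nonneg_left (tb.blkA v1 v2 d0.le d1 o0.le o1 ha hb hr.le) (sq_nonneg y)]
  have key (a : ℕ) (ha : 1 ≤ a) (har : a < r) : σ.gz M t q a i + (4 * y ^ 6) ^ r *
      (y * (d * (k.η x * mm k x T a) + o * nn k x T a + v ^ a)) ≤ 1000 * exp (-k.chi x i / 2) *
      |σ.pj M t a x| + CC K r γ ls * (d * (k.η x * mm k x T a) + o * nn k x T a + v ^ a) := by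
    have i0 := zero_le_one.trans (G0 ha).1
    obtain i1 : (4 * y ^ 6) ^ r ≤ (y ^ 7) ^ r := by rw [pow_succ' y 6]; gcongr; linarith only [y1]
    have i2 := mul_le_mul_of_nonneg_right i1 (mul_nonneg y0.le i0)
    have i3 := mul_le_mul_of_nonneg_right c1 i0
    rw [pow_succ, pow_mul] at i3
    linarith only [g2' ha har, i2, i3]
  clear_value z1
  have z1 := gz_nn (M := M) (σ := σ) (t := t) (q := q) b i
  have ib := (G0 hb).1
  have ia := (G0 ha).1
  rw [le_div_iff₀' ω0']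
  refine (mul_le_mul_of_nonneg_left (mul_le_mul (key a ha (by omega)) (key b hb (by omega))
    (by (clear * - z1 y1 ib; positivity)) (by (clear * - c2 ia; positivity))) ω0).trans ((tb.blkB v1 v2 d0.le d1 o0.le ha hb hr ω1 ω2 ω3 ω4
      of vf (exp_pos _).le ?_ (by linarith only [c2]) (abs_nonneg _) (abs_nonneg _) (ua ha (by omega))
      (ua hb (by omega))).trans ?_)
  · rw [← exp_nat_mul, ← exp_add, exp_le_one_iff]; push_cast; linarith only [ch, ce, c0']
  · rw [← exp_nat_mul, ← exp_add]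
    gcongr
    · push_cast; linarith only []
    · exact le_UU ha hb hr

lemma yC {j : ℕ} (hj : j + 1 ≤ 10 * r) : exp (γ * ls) ^ j ≤ CC K r γ ls :=
  le_trans (le_add_of_nonneg_left (by positivity)) (h.CC1 hj).1
lemma κ0 : r.factorial * c.CG * c.L ≤ exp (γ * ls) ^ 2 ∧ 0 < r.factorial * c.CG * c.L := by
  obtain ⟨a, b⟩ := h.fac
  have := h.CG
  obtain L0 : 0 < c.L := by linarith only [b]
  obtain this : 0 < r.factorial * c.CG := by (clear * - this; positivity)
  exact ⟨by rw [sq]; exact mul_le_mul (by linarith only [h.Ly, a, b]) h.Ly L0.le (exp_pos _).le, by (rename_i zq0; clear * - zq0 b; positivity)⟩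
lemma t1 : 1 ≤ k.η x * nn k x T r := by
  have := h.η0
  have := mul_nonneg h.w0.le (h.H.pos r)
  rw [nn, mul_add, show 2 * r - 2 = 2 * r - 3 + 1 by have := h.r2; omega, pow_succ,
    mul_left_comm _ (_ ^ _), mul_one_div_cancel h.η0.ne', mul_one]
  exact le_add_of_nonneg_of_le (by (rename_i zq0; clear * - zq0 this; positivity)) (one_le_pow₀ (one_le_one_div h.η0 h.tab.η1))
lemma bl0 : 0 ≤ c.bl := mul_nonneg (by linarith only [h.β]) h.lam0

/-- the source at the fold -/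
lemma Qx : |σ.Qj M t r x - σ.Lt M c t x / 2 *
      ∑ a ∈ Ioo 0 r, (r.choose a : ℝ) * (σ.pj M t a x * σ.pj M t (r - a) x)|
    ≤ exp (-2 * c.bl) * 512 ^ 2 * UU M σ t x r + 2 * CC K r γ ls ^ 3 * (k.η x * nn k x T r) := by
  let cv0 := ()
  have tb := h.tab
  have t1 := h.t1
  have r2 := h.r2
  have η0 := h.η0
  have y1 := h.y1
  obtain cx : k.chi x x = 0 := by simp [Sk.chi]
  have g1 {a} (ha : 1 ≤ a) (har : a < r) := h.gz1 ha har h.x1 le_rfl
  have g2' {a} (ha : 1 ≤ a) (har : a < r) := h.gz2 ha har h.x1 le_rfl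
  simp only [cx, mul_zero, zero_div, exp_zero, one_mul, mul_one] at g1 g2'
  obtain ⟨c1, c2⟩ := h.CC1 (j := 0) (by omega)
  obtain c3 := h.yC (j := 5 * r) (by omega)
  obtain c4 := h.yC (j := 14) (by omega)
  obtain c5 := h.yC (j := r + 3) (by omega)
  clear_value cv0
  have s1 := h.sp1
  obtain ⟨k1, k2⟩ := h.κ0
  have ua := @h.ua
  have a1 := ((h.qb M σ t g k n h.jc).2.2.2 x r (fun a => 2 * exp (γ * ls) ^ 3 * mm k x T a) 1
    (8 * exp (γ * ls) ^ 4) (128 * exp (γ * ls) ^ 11 * (k.η x * nn k x T r)) h.x1 h.xn r2 h.rK one_pos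
    le_rfl (by linarith only [one_le_pow₀ (n := 4) (show 1 ≤ exp (γ * ls) by linarith only [y1])]) (by (clear * - t1; positivity))
    (fun a ha har => by rw [one_mul]; exact g1 ha har) fun a b ha hb hr => ?_).2
    (fun a b e ha hb he hr => ?_) h.H.hx
  · rw [(h.o1.ch_D x h.H.hx).1] at g2'
    generalize exp (γ * ls) = y at *
    generalize hu : k.η x * nn k x T r = u at *
    generalize CC K r γ ls = C at *
    obtain y0 : 0 < y := by linarith only [y1]
    obtain b1 : (8 * y ^ 4) ^ (r - 2) ≤ y ^ (5 * r) := by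
      rw [pow_mul]
      refine le_trans ?_ (pow_le_pow_right₀ (one_le_pow₀ (by linarith only [y1])) (Nat.sub_le r 2))
      rw [pow_succ' y 4]; gcongr; linarith only [y1]
    obtain b2 : r.factorial * c.CG * c.L / 1 ^ r * (8 * y ^ 4) ^ (r - 2) * (128 * y ^ 11 * u)
        ≤ y ^ 2 * C * (y * y ^ 11 * u) := by
      rw [one_pow, div_one]; gcongr
      · exact b1.trans c3
      · linarith only [y1]
    obtain b3 := mul_le_mul_of_nonneg_right c4 (show 0 ≤ C * u by (clear * - c2 t1; positivity))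
    obtain b4 := mul_le_mul_of_nonneg_right (show 1 ≤ C by linarith only [c2]) (show 0 ≤ C * C * u by (clear * - c2 t1; positivity))
    obtain b5 : ∑ a ∈ Ioo 0 r, (r.choose a : ℝ) * (σ.gz M t (exp (-c.bl / 2)) a x *
        σ.gz M t (exp (-c.bl / 2)) (r - a) x) ≤ 512 ^ 2 * UU M σ t x r +
        (∑ a ∈ Ioo 0 r, (r.choose a : ℝ)) * (C ^ 2 * y ^ 3 * u) := by
      rw [UU, mul_sum, sum_mul, ← sum_add_distrib]
      refine sum_le_sum fun a ha => ?_
      obtain ⟨ha, har⟩ := mem_Ioo.1 ha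
      have g (a) (ha : 1 ≤ a) (har : a < r) : σ.gz M t (exp (-c.bl / 2)) a x ≤
          512 * |σ.pj M t a x| + C * (k.η x * mm k x T a) := (g2' ha har).trans (by
        have := tb.one_le ha
        gcongr
        nlinarith only [s1, y1, c2, c1])
      have m1 := tb.one_le ha
      obtain this := (mul_le_mul (g a ha har) (g (r - a) (by omega) (by omega)) (gz_nn _ _)
        (by (clear * - c2 m1; (clear * - c2 m1; positivity)))).trans (tb.pre ha (show 1 ≤ r - a by omega) (by omega) (by norm_num)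
          (by linarith only [c2]) (ua ha har) (ua (by omega) (by omega)))
      rw [hu] at this
      linarith only [mul_le_mul_of_nonneg_left this (Nat.cast_nonneg (r.choose a))]
    obtain b6 : ∑ a ∈ Ioo 0 r, (r.choose a : ℝ) ≤ y ^ r := by
      refine (sum_le_sum_of_subset_of_nonneg (t := range (r + 1)) (fun a ha => ?_)
        fun _ _ _ => Nat.cast_nonneg _).trans ?_
      · have := mem_Ioo.1 ha
        exact mem_range.2 (by omega)
      · rw [← Nat.cast_sum, Nat.sum_range_choose, Nat.cast_pow]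
        gcongr
        push_cast; linarith only [y1]
    obtain b7 := mul_le_mul_of_nonneg_right b6 (show 0 ≤ C ^ 2 * y ^ 3 * u by (clear * - c2 y1 t1; positivity))
    obtain b8 := mul_le_mul_of_nonneg_right c5 (show 0 ≤ C ^ 2 * u by (clear * - c2 t1; positivity))
    obtain b9 := mul_le_mul_of_nonneg_right (exp_le_one_iff.2 (show -2 * c.bl ≤ 0 by linarith only [h.bl0]))
      (show 0 ≤ C ^ 3 * u by (clear * - c2 t1; positivity))
    rw [pow_add] at b8
    linarith only [mul_le_mul_of_nonneg_left (b5.trans (show _ ≤ 512 ^ 2 * UU M σ t x r + C ^ 3 * u by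
      linarith only [b7, b8])) (exp_pos (-2 * c.bl)).le, a1, b2, b3, b4, b9]
  · obtain m1 := tb.m0 (show 1 ≤ a + b by omega)
    obtain this := mul_le_mul_of_nonneg_left ((tb.mm' ha hb hr.le).trans (mul_le_mul_of_nonneg_left
      (tb.nm _ (by omega)) (by positivity))) (show 0 ≤ 4 * exp (γ * ls) ^ 6 by positivity)
    linarith only [this]
  · have me := tb.m0 he
    obtain i1 := mul_le_mul_of_nonneg_right (tb.mm a b ha hb (by omega))
      (show 0 ≤ 8 * exp (γ * ls) ^ 9 * mm k x T e by (clear * - me; positivity))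
    obtain i2 := mul_le_mul_of_nonneg_left (tb.mm' (show 1 ≤ a + b by omega) he hr.le)
      (show 0 ≤ 32 * exp (γ * ls) ^ 10 * k.η x by (clear * - η0; positivity))
    rw [hr] at i2
    linarith only [i1, i2]

/-- summing the sources against a geometric weight -/
lemma Qw {s : Finset ℤ} {e f : ℤ → ℝ} {A B : ℝ} (A0 : 0 ≤ A) {j : ℕ}
    (hj : j + 3 ≤ 10 * r) (he : ∑ i ∈ s, e i ≤ 8) {p : ℤ → ℝ}
    (hn : ∑ i ∈ s, p i * B ≤ exp (γ * ls) ^ j)
    (hf : ∀ i ∈ s, f i ≤ r.factorial * c.CG * c.L * (e i * (A * exp (-(7 / 10) * c.bl) *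
      UU M σ t x r) + p i * B * (CC K r γ ls ^ 2 * (k.η x * nn k x T r)))) :
    ∑ i ∈ s, f i ≤ 8 * A * (r.factorial * c.CG * c.L) * exp (-(7 / 10) * c.bl) * UU M σ t x r
      + CC K r γ ls ^ 3 * (k.η x * nn k x T r) := by
  obtain U0 : 0 ≤ UU M σ t x r := sum_nonneg fun _ _ => by (clear * -; (clear * -; positivity))
  have t1 := h.t1
  obtain ⟨k1, k2⟩ := h.κ0
  obtain c1 := h.yC (j := 2 + j) (by omega)
  have a1 := sum_le_sum hf
  rw [← mul_sum, sum_add_distrib, ← sum_mul, ← sum_mul] at a1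
  obtain a2 := mul_le_mul_of_nonneg_right he (show 0 ≤ r.factorial * c.CG * c.L *
    (A * exp (-(7 / 10) * c.bl) * UU M σ t x r) by (clear * - A0 U0 k2; positivity))
  obtain a3 := mul_le_mul_of_nonneg_right ((mul_le_mul_of_nonneg_left hn k2.le).trans
    ((mul_le_mul_of_nonneg_right k1 (by positivity)).trans ((pow_add _ _ _).ge.trans c1)))
    (show 0 ≤ CC K r γ ls ^ 2 * (k.η x * nn k x T r) by (clear * - t1; positivity))
  linarith only [a1, a2, a3]

/-- the Wronskian at the fold -/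
lemma Wx : |(σ.orb M t).Wr (σ.pj M t r) ((σ.orb M t).fr 1) x / (σ.orb M t).fr 1 x|
    ≤ 8 * 512 ^ 3 * (r.factorial * c.CG * c.L) * exp (-(7 / 10) * c.bl) * UU M σ t x r
      + 2 * CC K r γ ls ^ 3 * (k.η x * nn k x T r) := by
  let cv0 := (); let cv1 := ()
  have F := h.jc.oc.fit
  have g1 := h.jc.oc.g1
  have g16 := h.jc.oc.g16
  have xn := h.xn
  have x1 := h.x1
  have w0 := h.w0
  have t1 := h.t1
  have y1 := h.y1
  obtain U0 : 0 ≤ UU M σ t x r := sum_nonneg fun _ _ => by (clear * -; positivity)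
  obtain ⟨k1, k2⟩ := h.κ0
  obtain c2 := (h.CC1 (j := 0) (by have := h.r2; omega)).2
  have b1 := F.f2 x h.xF xn.le
  obtain b4 : 0 < |(σ.orb M t).fr 1 x| := pos_of_mul_pos_right (w0.trans_le b1) (by linarith only [g1])
  clear_value cv1
  obtain b2 : k.w x ≤ 16 * |(σ.orb M t).fr 1 x| := b1.trans (by (clear * - g16 b4; gcongr))
  have P {i} (i1 : 1 ≤ i) : |(σ.orb M t).Pb i x| ≤ k.PB i x := by
    have (l) (hl : l ∈ Ioc i x) := F.b l (by have := mem_Ioc.1 hl; omega)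
      (by have := mem_Ioc.1 hl; omega)
    rw [Sq.Pb, abs_of_nonneg (prod_nonneg fun l hl => (this l hl).1)]
    exact prod_le_prod (fun l hl => (this l hl).1) fun l hl => (this l hl).2
  have I {i} (i1 : 1 ≤ i) (ix : i ≤ x) : k.PB i x * k.w i ≤
      32 * exp (-(99 / 100) * k.chi i x) * |(σ.orb M t).fr 1 x| := by
    linarith only [(h.jc.oc.sk.2.i2 x h.xF i i1 ix).1, mul_le_mul_of_nonneg_left b2 (exp_pos (-(99 / 100) * k.chi i x)).le]
  obtain W := Sq.Wr_le (S := σ.orb M t) (P := σ.pj M t r) (Q := σ.Qj M t r) (ξ := (σ.orb M t).fr 1)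
    x1 (B := (k.PB · x)) (w := fun i => g * k.w i) (q := fun i => |σ.Qj M t r i|)
    (fun j _ _ => by rw [Seed.Qj]; ring) (fun j h1 _ => Sq.fr_succ _ h1) (fun i i1 _ => P i1)
    (fun i i1 ix => F.f1 i i1 (by omega)) fun _ _ _ => le_rfl
  obtain W1 : |(σ.orb M t).Wr (σ.pj M t r) ((σ.orb M t).fr 1) 1| ≤ 1 := by
    obtain ⟨u0, u1⟩ := F.b 1 le_rfl (by omega)
    obtain u2 := h.jc.at'.cj r (by have := h.r2; omega) h.rK
    rw [h.o1.ch_one.2] at u1
    rw [Sq.Wr, Sq.fr_pred, Sq.fr_self, mul_zero, one_mul, zero_sub, abs_mul, abs_neg, sub_self,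
      ((h.qb M σ t g k n h.jc).2.1 r).1, abs_of_nonneg u0]
    exact mul_le_one₀ (u1.trans (exp_le_one_iff.2 (by linarith only [h.bl0]))) (abs_nonneg _) (by linarith only [u2])
  clear_value cv0
  obtain W2 : |(σ.orb M t).Pb 1 x| ≤ 32 * |(σ.orb M t).fr 1 x| := by
    have := I le_rfl x1
    rw [h.o1.w1, mul_one] at this
    obtain e : exp (-(99 / 100) * k.chi 1 x) ≤ 1 := exp_le_one_iff.2 (by linarith only [chi_nn h.ch 1 x])
    linarith only [P le_rfl, mul_le_mul_of_nonneg_right e b4.le, this]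
  have W3 := h.Qw (s := Ico 1 x) (A := 512 ^ 3) (B := 512 * exp (γ * ls) ^ 3) (j := 5)
    (f := fun i => k.PB i x * (g * k.w i) * |σ.Qj M t r i| / |(σ.orb M t).fr 1 x|)
    (p := fun i => exp (-k.chi i x / 4)) (by norm_num) (by have := h.r2; omega)
    (geo1 h.ch x1) ?_ fun i hi => ?_
  · rw [← sum_div, div_le_iff₀ b4] at W3
    rw [abs_div, div_le_iff₀ b4]
    obtain e1 : 32 ≤ CC K r γ ls ^ 3 * (k.η x * nn k x T r) :=
      (le_self_pow₀ (by linarith only [c2]) three_ne_zero |>.trans' (by linarith only [c2])).trans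
        (le_mul_of_one_le_right (by (clear * - c2; positivity)) t1)
    linarith only [mul_le_mul W2 W1 (abs_nonneg _) (by (clear * - b4; positivity)), mul_le_mul_of_nonneg_right e1 b4.le, W, W3]
  · rw [← sum_mul]
    refine (mul_le_mul_of_nonneg_right (geo1 h.ch x1) (by positivity)).trans ?_
    rw [← mul_assoc, pow_add _ 2 3]
    gcongr
    nlinarith only [y1]
  · obtain ⟨i1, ix⟩ := mem_Ico.1 hi
    have q := h.Qpre i1 ix
    obtain cb : c.bl ≤ k.chi i x := by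
      rw [chi_add (j := x - 1) (by omega) (by omega), chi_one, (h.o1.ch_D x h.H.hx).1]
      linarith only [chi_nn h.ch i (x - 1)]
    have bl := h.bl0
    obtain e1 : exp (-(99 / 100) * k.chi i x) * exp (k.chi i x / 100) ^ 2 ≤
        exp (-k.chi i x / 4) * exp (-(7 / 10) * c.bl) := by
      rw [← exp_nat_mul, ← exp_add, ← exp_add, exp_le_exp]; push_cast; linarith only [cb, bl]
    obtain e2 : exp (-(99 / 100) * k.chi i x) * exp (k.chi i x / 4) ^ 2 ≤ exp (-k.chi i x / 4) := by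
      rw [← exp_nat_mul, ← exp_add, exp_le_exp]; push_cast; linarith only [cb, bl]
    have P0 := mul_nonneg ((abs_nonneg _).trans (P i1)) (h.o1.w_pos i i1).le
    obtain e3 : k.PB i x * (g * k.w i) / |(σ.orb M t).fr 1 x|
        ≤ 512 * exp (-(99 / 100) * k.chi i x) := by
      rw [div_le_iff₀ b4]
      linarith only [I i1 ix.le, mul_le_mul_of_nonneg_right g16 P0]
    rw [div_le_iff₀' k2] at q
    rw [mul_div_right_comm]
    refine (mul_le_mul e3 q (abs_nonneg _) (by positivity)).trans ?_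
    rw [mul_left_comm]
    refine mul_le_mul_of_nonneg_left ?_ k2.le
    linarith only [mul_le_mul_of_nonneg_right e1 U0, mul_le_mul_of_nonneg_right e2 (show 0 ≤
      CC K r γ ls ^ 2 * exp (γ * ls) ^ 3 * (k.η x * nn k x T r) by (clear * - c2 t1; positivity))]

/-- the sum over the block -/
lemma Bx : |∑ i ∈ Ico (x + 1) (k.nx x), (σ.orb M t).fr (i + 1) (k.nx x) /
      (σ.orb M t).fr (x + 1) (k.nx x) * σ.Qj M t r i|
    ≤ 8 * 256000000 * (r.factorial * c.CG * c.L) * exp (-(7 / 10) * c.bl) * UU M σ t x r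
      + CC K r γ ls ^ 3 * (k.η x * nn k x T r) := by
  obtain U0 : 0 ≤ UU M σ t x r := sum_nonneg fun _ _ => by (clear * -; (clear * -; positivity))
  obtain ⟨k1, k2⟩ := h.κ0
  have xJ := h.xJ
  have x1 := h.x1
  refine (abs_sum_le_sum_abs _ _).trans (h.Qw (B := exp (γ * ls) ^ 10) (j := 11) (p := fun _ => 1)
    (e := fun i => exp (-k.chi x i / 4)) (by norm_num) (by have := h.r2; omega)
    (le_trans (le_add_of_nonneg_right (by positivity)) (geo2 h.ch xJ)) ?_ fun i hi => ?_)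
  · rw [one_mul, sum_const, nsmul_eq_mul, pow_succ' _ 10, Int.card_Ico]
    gcongr
    obtain a1 := (h.o1.time _ h.JF).trans (exp_le_exp.2 (h.sl (by omega) le_rfl).1)
    obtain a2 : (((k.nx x - (x + 1)).toNat : ℤ) : ℝ) ≤ k.nx x := Int.cast_le.2 (by omega)
    obtain a3 : (1 : ℝ) ≤ k.nx x := by exact_mod_cast x1.trans xJ.le
    exact (a2.trans (le_self_pow₀ a3 two_ne_zero)).trans a1
  · obtain ⟨i1, ix⟩ := mem_Ico.1 hi
    have q := h.Qblk i1 ix
    obtain cb : c.bl ≤ k.chi x i := by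
      have := chi_one (k := k) (x + 1)
      rw [add_sub_cancel_right, (h.o1.ch_D x h.H.hx).2] at this
      rw [chi_add (j := x + 1) (by omega) i1, this]
      linarith only [chi_nn h.ch (x + 1) i]
    have bl := h.bl0
    obtain e1 : exp (-(99 / 100) * k.chi x i) ≤ exp (-k.chi x i / 4) * exp (-(7 / 10) * c.bl) := by
      rw [← exp_add, exp_le_exp]; linarith only [cb, bl]
    rw [← mul_div_assoc, div_le_iff₀' k2, ← abs_mul] at q
    refine q.trans (mul_le_mul_of_nonneg_left ?_ k2.le)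
    linarith only [mul_le_mul_of_nonneg_right e1 U0]

lemma fin : |(σ.orb M t).rho ((σ.orb M t).fr 1) x (k.nx x) * σ.pj M t r x + σ.Lt M c t x / 2 *
        ∑ a ∈ Ioo 0 r, (r.choose a : ℝ) * (σ.pj M t a x * σ.pj M t (r - a) x)
      - σ.pj M t r (k.nx x) / (σ.orb M t).fr (x + 1) (k.nx x)|
    ≤ c.ep * c.L * UU M σ t x r
      + exp (g2 K γ * ls) * (1 / k.η x ^ (2 * r - 3) + k.w x * k.η x * T r) := by
  let cv0 := (); let cv1 := ()
  have F := h.jc.oc.fit
  have g1 := h.jc.oc.g1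
  have x1 := h.x1
  have w0 := h.w0
  have η0 := h.η0
  have t1 := h.t1
  have y1 := h.y1
  have bl := h.bl0
  obtain U0 : 0 ≤ UU M σ t x r := sum_nonneg fun _ _ => by (clear * -; (clear * -; positivity))
  obtain b4 : 0 < |(σ.orb M t).fr 1 x| :=
    pos_of_mul_pos_right (w0.trans_le (F.f2 x h.xF h.xn.le)) (by linarith only [g1])
  obtain f0 : 0 < |(σ.orb M t).fr (x + 1) (k.nx x)| := pos_of_mul_pos_right ((mul_pos
    (show 0 < k.V x 1 by unfold Sk.V; (clear * - w0 η0; positivity)) (h.o1.w_pos _ (x1.trans h.xJ.le))).trans_le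
      (F.flo x h.H.hx h.xn)) (by linarith only [g1])
  clear_value cv1
  rw [Sq.blk_id (S := σ.orb M t) (P := σ.pj M t r) (Q := σ.Qj M t r) (ξ := (σ.orb M t).fr 1) h.xJ
    (abs_pos.1 b4) (abs_pos.1 f0) (fun j _ _ => by rw [Seed.Qj]; ring)
    fun j h1 _ => Sq.fr_succ _ (x1.trans h1)]
  obtain e1 : 1 / k.η x ^ (2 * r - 3) + k.w x * k.η x * T r = k.η x * nn k x T r := by
    rw [nn, show 2 * r - 2 = 2 * r - 3 + 1 by have := h.r2; omega, pow_succ, one_div_pow]
    field_simp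
    ring
  obtain e2 : 5 * CC K r γ ls ^ 3 ≤ exp (g2 K γ * ls) := by
    obtain rK : (r : ℝ) ≤ K + 1 := by exact_mod_cast h.rK
    have l0 := (h.sl le_rfl (x1.trans h.xJ.le)).2
    have γ1 := h.H.hγ
    have K0 : (0 : ℝ) ≤ K := Nat.cast_nonneg K
    obtain i1 := mul_le_mul_of_nonneg_right rK (show 0 ≤ γ * ls by (clear * - γ1 l0; positivity))
    obtain i2 : 0 ≤ K * (γ * ls) := by (clear * - γ1 l0; positivity)
    obtain i3 : 0 ≤ (K + 1) * (K + 10) * ls := by (clear * - l0; positivity)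
    obtain i4 : 0 ≤ γ * ls := by (clear * - γ1 l0; positivity)
    refine (mul_le_mul_of_nonneg_right (show 5 ≤ exp (γ * ls) by linarith only [y1])
      (by unfold CC; positivity)).trans ?_
    rw [CC, ← exp_nat_mul, ← exp_add, ← exp_nat_mul, ← exp_add, exp_le_exp, g2]
    push_cast
    linarith only [i1, i2, i3, i4]
  clear_value cv0
  obtain e3 : exp (-2 * c.bl) * 512 ^ 2 + 8 * (512 ^ 3 + 256000000) * (r.factorial * c.CG * c.L) *
      exp (-(7 / 10) * c.bl) ≤ c.ep * c.L := by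
    obtain ⟨a, b⟩ := h.fac
    obtain i1 : c.L * exp (-(7 / 10) * c.bl) ≤ c.ep := by
      rw [← exp_log (show 0 < c.L by linarith only [b]), ← exp_add, Cs.ep, exp_le_exp]
      linarith only [mul_le_mul_of_nonneg_right h.β h.lam0, show c.bl = c.β * c.lam from rfl, show c.lam = log c.L from rfl]
    obtain i2 : exp (-2 * c.bl) ≤ c.ep := exp_le_exp.2 (by linarith only [bl])
    obtain i3 := mul_le_mul a i1 (by positivity) (by linarith only [b])
    have i4 : 0 < c.ep := exp_pos _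
    linarith only [mul_le_mul_of_nonneg_left b i4.le, i2, i3, i4]
  rw [e1]
  have a1 := abs_le.1 h.Qx
  have a2 := abs_le.1 h.Wx
  have a3 := abs_le.1 h.Bx
  have a4 := mul_le_mul_of_nonneg_right e3 U0
  have a5 := mul_le_mul_of_nonneg_right e2 (zero_le_one.trans t1)
  rw [abs_le]
  constructor <;> linarith only [a1, a2, a3, a4, a5]

end Cx

end J2

theorem j2 (K : ℕ) :
    Hier fun c => TA_s c → TB_s c → QB_s K c → J2A_s K c → J2B_s K c → J2_s K c :=
  (Hier.base.and ((Hier.L_ge (fun c => 10 ^ 10 * ((K + 1).factorial * c.CG)) fun _ _ => rfl).and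
    (Hier.β_ge (fun _ => 5) fun _ _ _ => rfl))).mono
    fun _ h ta tb qb ja jb bud _ _ _ _ _ _ jc _ _ _ _ _ xn r2 rK H =>
      J2.Cx.fin ⟨ta, tb, qb, ja, jb, bud, jc, xn, r2, rK, H, h.2.1, h.1.2.2.2.2.2, h.2.2,
        h.1.2.2.2.2.1⟩

end
end Pool.Agent.MP_9cbfe4_an

end

/-! ### Part TSa -/

section

/-! Row TS, part a: estimates in absolute time for two orbits at the same parameter. -/

namespace Pool.Agent.MP_9cbfe4_an

open Finset

noncomputable section

namespace BMap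

variable {c : Cs} {M : Mdl} {t t' : ℝ} {S S' : Sq} {ξ : ℤ → ℝ} {n : ℤ} {Ls : List (ℤ × ℝ)} {J : ℤ}
  {η D1 v : ℝ}

structure N2 (c : Cs) : Prop where
  be : 8 ≤ c.β
  L : 10 ^ 6 * c.CG ≤ c.L

theorem hier_N2 : Hier N2 :=
  ((Hier.β_ge (fun _ => 8) fun _ _ _ => rfl).and
    (Hier.L_ge (fun c => 10 ^ 6 * c.CG) fun _ _ => rfl)).mono fun _ h => ⟨h.1, h.2⟩

theorem N2.big (h : Nm c) (h2 : N2 c) : 10 ^ 6 * c.CG * c.L ≤ Real.exp (c.bl / 4) := by
  obtain e1 : c.L * c.L ≤ Real.exp (c.bl / 4) := by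
    rw [← h.expL, ← Real.exp_add]
    refine Real.exp_le_exp.2 ?_
    have := h2.be; have := h.lam
    unfold Cs.bl; (rename_i zq0; nlinarith only [zq0, this])
  exact (mul_le_mul_of_nonneg_right h2.L (by linarith only [h.L])).trans e1

theorem N2.small (h : Nm c) (h2 : N2 c) : 10 ^ 6 * c.CG * c.L * Real.exp (-c.bl / 4) ≤ 1 := by
  have e1 := mul_le_mul_of_nonneg_right (h2.big h) (Real.exp_pos (-c.bl / 4)).le
  rwa [← Real.exp_add, show c.bl / 4 + -c.bl / 4 = 0 by ring, Real.exp_zero] at e1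

theorem S3_eq (S : Sq) {n J : ℤ} (h : n < J) (y : ℝ) :
    ∑ i ∈ Ico (n + 1) J, S.PB c (2 / 100) i J * (S.wp c n i * (0 + y * S.wp c n i ^ 2)) =
      y * S.wp c n J ^ 3 * S.S3 c n J := by
  have hW := (wp_pos (c := c) S h).ne'
  unfold Sq.S3
  rw [mul_sum]
  refine sum_congr rfl fun i _ => ?_
  field_simp
  ring

theorem Hy.s3 (h : Nm c) (N : FD.Nm c) (H : Hy c M t t' S S' ξ n Ls J η D1 v) :
    S.S3 c n J ≤ 40 ∧ (S.kk J = 0 → S.S3 c n J ≤ Real.exp (-c.bl / 2)) := by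
  have hle := H.hR.le
  obtain hW := wp_pos (c := c) S (n := n) (j := J) (by omega)
  refine ⟨?_, fun hJ => ?_⟩
  · obtain k4 := geob h S (s := n + 1) (m := J) (by omega)
    obtain k5 : S.S3 c n J ≤ ∑ i ∈ Ico (n + 1) J, 8 * Real.exp (-(3 / 8 * S.chi c i J)) := by
      refine sum_le_sum fun i hi => ?_
      obtain ⟨i1, i2⟩ := mem_Ico.1 hi
      obtain ⟨a1, a2⟩ := H.i2 (i := i) (by omega) i2
      obtain a0 := wp_pos (c := c) S (n := n) (j := i) (by omega)
      have a3 := chi_nonneg h S i2.le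
      obtain a5 : Real.exp (-(1 - c.a) * S.chi c i J) * Real.exp (c.a * S.chi c i J) ^ 2 ≤
          Real.exp (-(3 / 8 * S.chi c i J)) := by
        rw [sq_exp, ← Real.exp_add]
        exact Real.exp_le_exp.2 (by linarith only [a3, mul_nonneg (sub_nonneg.2 N.a1) a3])
      rw [div_le_iff₀ (by positivity)]
      calc _ = S.PB c (2 / 100) i J * S.wp c n i * S.wp c n i ^ 2 := by ring
        _ ≤ 2 * Real.exp (-(1 - c.a) * S.chi c i J) * S.wp c n J *
            (2 * Real.exp (c.a * S.chi c i J) * S.wp c n J) ^ 2 := by gcongr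
        _ = 8 * (Real.exp (-(1 - c.a) * S.chi c i J) * Real.exp (c.a * S.chi c i J) ^ 2) *
            S.wp c n J ^ 3 := by ring
        _ ≤ _ := by (clear * - a5 hW; gcongr)
    rw [← mul_sum] at k5
    obtain k6 : ∑ i ∈ Ico (n + 1) J, Real.exp (-(3 / 8 * S.chi c i J)) ≤
        ∑ i ∈ Ico (n + 1) (J + 1), Real.exp (-(3 / 8 * S.chi c i J)) :=
      sum_le_sum_of_subset_of_nonneg (Ico_subset_Ico_right (by omega))
        fun _ _ _ => (Real.exp_pos _).le
    linarith only [k4, k5, k6]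
  · have k2 := H.wsum h N hJ (x := 0) (y := 1) le_rfl zero_le_one
    obtain k3 := FD.fin c N (C := 1) (T := S.wp c n J ^ 3) (by linarith only [h.cg]) (by positivity)
    rw [S3_eq S (by omega)] at k2
    refine le_of_mul_le_mul_right ?_ (show 0 < S.wp c n J ^ 3 by positivity)
    exact le_trans (le_of_eq (by ring)) (k2.trans (le_trans (le_of_eq (by ring)) k3))

theorem Hy.PBn (h : Nm c) (H : Hy c M t t' S S' ξ n Ls J η D1 v) {j : ℤ} (h1 : n < j) (h2 : j ≤ J) :
    S.PB c (2 / 100) n j ≤ Real.exp (-(1 - c.a / 8) * S.chi c n j) := by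
  obtain ⟨a1, -⟩ := H.hB.i6 j h1 h2
  obtain a4 : 1 ≤ c.k0 * c.L := by
    have := Real.add_one_le_exp c.lam
    rw [h.expL] at this
    nlinarith only [this, h.k0, h.lam]
  exact (S.PB_le c (by linarith only [h.k0]) a4 h.chK_bl (i := n) (j := j) h1.le
    (by linarith only [h.lam])).trans (Real.exp_le_exp.2 (by linarith only [a1]))

theorem Hy.ts2 (h : Nm c) (N : FD.Nm c) (hk : SOK_s c) (hs : SH_s c) (hρ : RHO_s c)
    (H : Hy c M t t S S' ξ n Ls J η D1 v) :
    S.bb c (2 / 100) J * |S'.X (J - 1) - S.X (J - 1)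
        - S.fr (n + 1) (J - 1) / S.fr (n + 1) J * (S'.X J - S.X J)| ≤
      60000 * c.CG * c.L * (v * S.wp c n J) ^ 2 * S.S3 c n J
        + 2 * η * Real.exp (-S.chi c n J / 2) := by
  have hη := H.η0; have hv := H.v0 h; have hL := h.L; have hG := h.cg; have hle := H.hR.le
  have hsh := H.shh h hk hρ
  obtain ⟨s1, s2, -⟩ := hs _ _ _ _ _ _ _ _ _ _ _ _ hsh
  have sq := fun i a b => FD.src N hk hsh (fun j a b => (s1 j a b).1) (fun j a b => (s2 j a b).1)
    (i := i) a b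
  obtain hW := wp_pos (c := c) S (n := n) (j := J) (by omega)
  have k := FD.wr c S (2 / 100) (s := n) (n := J)
    (W := fun j => S.fr (n + 1) j * (S'.X (j - 1) - S.X (j - 1))
      - S.fr (n + 1) (j - 1) * (S'.X j - S.X j))
    (g := fun i => if i = n then η else
      S.wp c n i * (0 + 60000 * (c.CG * c.L * v ^ 2) * S.wp c n i ^ 2) +
        60000 * (c.CG * c.L * η ^ 2) * (S.wp c n i * Real.exp (-S.chi c n i / 2) ^ 2))
    (fun j a _ => H.bb hk a.le) ?_ ?_ J hle le_rfl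
  rotate_left
  · simp only [add_sub_cancel_right, if_true]
    rw [S.fr_self, S.fr_lt (j := n) (by omega)]
    simpa using H.hu
  · intro j a b
    obtain e1 : S.fr (n + 1) (j + 1) * (S'.X (j + 1 - 1) - S.X (j + 1 - 1)) -
        S.fr (n + 1) (j + 1 - 1) * (S'.X (j + 1) - S.X (j + 1)) =
        -(S.b j * (S.fr (n + 1) j * (S'.X (j - 1) - S.X (j - 1)) -
            S.fr (n + 1) (j - 1) * (S'.X j - S.X j)) +
          S.fr (n + 1) j * (S'.X (j + 1) - S.X (j + 1) - S.a j * (S'.X j - S.X j)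
          - S.b j * (S'.X (j - 1) - S.X (j - 1)))) := by
      rw [add_sub_cancel_right, S.fr_sol (n + 1) j (by omega)]; ring
    simp only [if_neg a.ne']
    rw [e1, abs_neg]
    refine (abs_add_le _ _).trans ?_
    rw [abs_mul, abs_mul, abs_of_nonneg (H.bb hk a.le).1]
    refine add_le_add le_rfl ?_
    have p1 := wp_pos (c := c) S a
    obtain e2 := mul_le_mul (S.abs_le_wh c (S.fr (n + 1)) (s := n + 1) (j := j) (by omega))
      (sq j (by omega) b) (abs_nonneg _) p1.le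
    refine e2.trans ?_
    rw [ww_eq S n hη, sub_self, abs_zero]
    obtain e3 : (v * S.wp c n j + η * Real.exp (-S.chi c n j / 2)) ^ 2 ≤
        2 * (v * S.wp c n j) ^ 2 + 2 * (η * Real.exp (-S.chi c n j / 2)) ^ 2 := by
      linarith only [sq_nonneg (v * S.wp c n j - η * Real.exp (-S.chi c n j / 2))]
    obtain e4 := mul_le_mul_of_nonneg_left e3
      (show 0 ≤ S.wp c n j * (30000 * (c.CG * c.L)) by (clear * - p1 hG hL; positivity))
    have e5 : S.wh c (S.fr (n + 1)) (n + 1) j = S.wp c n j := rfl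
    rw [e5]
    linarith only [e4]
  rw [sum_split _ hle, if_pos rfl] at k
  obtain k1 : ∑ i ∈ Ico (n + 1) J, S.PB c (2 / 100) i J * (if i = n then η else
      S.wp c n i * (0 + 60000 * (c.CG * c.L * v ^ 2) * S.wp c n i ^ 2) +
        60000 * (c.CG * c.L * η ^ 2) * (S.wp c n i * Real.exp (-S.chi c n i / 2) ^ 2)) ≤
      ∑ i ∈ Ico (n + 1) J, S.PB c (2 / 100) i J *
        (S.wp c n i * (0 + 60000 * (c.CG * c.L * v ^ 2) * S.wp c n i ^ 2)) +
      120000 * (c.CG * c.L * η ^ 2) * (S.wp c n J * Real.exp (-S.chi c n J / 2)) *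
        ∑ i ∈ Ico (n + 1) J, Real.exp (-(3 / 8 * S.chi c n i)) := by
    rw [mul_sum, ← sum_add_distrib]
    refine sum_le_sum fun i hi => ?_
    obtain ⟨i1, i2⟩ := mem_Ico.1 hi
    rw [if_neg (by omega), mul_add]
    refine add_le_add le_rfl ?_
    obtain a1 := (H.i2 (i := i) (by omega) i2).1
    obtain a2 := S.chi_add c (i := n) (j := i) (l := J) (by omega) i2.le
    have a3 := chi_nonneg h S i2.le
    obtain a4 := chi_nonneg h S (i := n) (j := i) (by omega)
    obtain a5 : Real.exp (-(1 - c.a) * S.chi c i J) * Real.exp (-S.chi c n i / 2) ^ 2 ≤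
        Real.exp (-S.chi c n J / 2) * Real.exp (-(3 / 8 * S.chi c n i)) := by
      rw [sq_exp, ← Real.exp_add, ← Real.exp_add]
      exact Real.exp_le_exp.2 (by nlinarith only [a2, a4, a3, h.a1])
    calc _ = 60000 * (c.CG * c.L * η ^ 2) * (S.PB c (2 / 100) i J * S.wp c n i *
          Real.exp (-S.chi c n i / 2) ^ 2) := by ring
      _ ≤ 60000 * (c.CG * c.L * η ^ 2) * (2 * Real.exp (-(1 - c.a) * S.chi c i J) * S.wp c n J *
          Real.exp (-S.chi c n i / 2) ^ 2) := by (clear * - a1 hG hL hη; gcongr)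
      _ = 120000 * (c.CG * c.L * η ^ 2) * S.wp c n J *
          (Real.exp (-(1 - c.a) * S.chi c i J) * Real.exp (-S.chi c n i / 2) ^ 2) := by ring
      _ ≤ 120000 * (c.CG * c.L * η ^ 2) * S.wp c n J *
          (Real.exp (-S.chi c n J / 2) * Real.exp (-(3 / 8 * S.chi c n i))) := by gcongr
      _ = _ := by ring
  rw [S3_eq S (by omega)] at k1
  have k4 := geo h H.hB.kz.1 hle
  obtain k5 : c.L * Real.exp (-c.bl / 3) ≤ 1 := by
    rw [← h.expL, ← Real.exp_add]; exact Real.exp_le_one_iff.2 (by linarith only [h.bl_ge, h.lam])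
  obtain k6 : 120000 * (c.CG * c.L * η) * Real.exp (-c.bl / 3) ≤ 1 := by
    obtain e1 : c.CG * η ≤ 1 / 10 ^ 6 :=
      (mul_le_mul_of_nonneg_left H.η1 (by linarith only [hG])).trans h.ilc
    obtain e2 := mul_le_mul e1 k5 (by positivity) (by norm_num)
    linarith only [e2]
  obtain k7 : S.PB c (2 / 100) n J ≤ S.wp c n J * Real.exp (-S.chi c n J / 2) := by
    obtain ⟨-, a2, -⟩ := H.hB.i6 J (by omega) le_rfl
    obtain a3 := chi_nonneg h S (i := n) (j := J) (by omega)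
    refine (H.PBn h (by omega) le_rfl).trans (le_trans ?_
        (mul_le_mul_of_nonneg_right a2 (Real.exp_pos _).le))
    rw [← Real.exp_add]; exact Real.exp_le_exp.2 (by nlinarith only [a3, h.a1])
  have hE := Real.exp_pos (-S.chi c n J / 2)
  obtain k8 : 120000 * (c.CG * c.L * η ^ 2) * (S.wp c n J * Real.exp (-S.chi c n J / 2)) *
      ∑ i ∈ Ico (n + 1) J, Real.exp (-(3 / 8 * S.chi c n i)) ≤
      η * (S.wp c n J * Real.exp (-S.chi c n J / 2)) := by
    refine (mul_le_mul_of_nonneg_left k4 (by positivity)).trans ?_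
    exact le_trans (le_of_eq (by ring)) ((mul_le_mul_of_nonneg_right k6
      (show 0 ≤ η * (S.wp c n J * Real.exp (-S.chi c n J / 2)) by (clear * - hη hW; positivity))).trans_eq (by ring))
  have hf : S.fr (n + 1) J ≠ 0 := H.hR.ne
  obtain e1 : S'.X (J - 1) - S.X (J - 1) - S.fr (n + 1) (J - 1) / S.fr (n + 1) J * (S'.X J - S.X J) =
      (S.fr (n + 1) J * (S'.X (J - 1) - S.X (J - 1)) - S.fr (n + 1) (J - 1) * (S'.X J - S.X J)) /
        S.fr (n + 1) J := by field_simp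
  rw [e1, abs_div, ← mul_div_assoc, ← H.wpJ, div_le_iff₀ hW]
  have k11 := mul_le_mul_of_nonneg_right k7 hη.le
  refine k.trans ((add_le_add k11 (k1.trans (add_le_add le_rfl k8))).trans_eq ?_)
  ring

theorem Hy.ts3 (h : Nm c) (N : FD.Nm c) (h2 : N2 c) (hk : SOK_s c) (hs : SH_s c) (hρ : RHO_s c)
    (H : Hy c M t t' S S' ξ n Ls J η D1 v) :
    S.bb c (2 / 100) J *
      |S'.fr (n + 1) (J - 1) / S'.fr (n + 1) J - S.fr (n + 1) (J - 1) / S.fr (n + 1) J| ≤
      8000 * c.CG * c.L * (v * S.wp c n J) * S.S3 c n J + η * Real.exp (-S.chi c n J / 4) := by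
  have hη := H.η0; have hv := H.v0 h; have hL := h.L; have hG := h.cg; have hle := H.hR.le
  obtain hW := wp_pos (c := c) S (n := n) (j := J) (by omega)
  have hE := Real.exp_pos (-S.chi c n J / 2)
  have k := FD.wr c S (2 / 100) (s := n) (n := J)
    (W := fun j => S.fr (n + 1) j * S'.fr (n + 1) (j - 1) - S.fr (n + 1) (j - 1) * S'.fr (n + 1) j)
    (g := fun i => if i = n then 0 else
      S.wp c n i * (0 + 4000 * (c.CG * c.L * v) * S.wp c n i ^ 2) +
        4000 * (c.CG * c.L * η) * (S.wp c n i * S.wp c n i * Real.exp (-S.chi c n i / 2)))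
    (fun j a _ => H.bb hk a.le) ?_ ?_ J hle le_rfl
  rotate_left
  · simp only [add_sub_cancel_right, if_true]
    rw [S'.fr_lt (j := n) (by omega), S.fr_lt (j := n) (by omega)]
    simp
  · intro j a b
    obtain e1 : S.fr (n + 1) (j + 1) * S'.fr (n + 1) (j + 1 - 1) -
        S.fr (n + 1) (j + 1 - 1) * S'.fr (n + 1) (j + 1) =
        -(S.b j * (S.fr (n + 1) j * S'.fr (n + 1) (j - 1) - S.fr (n + 1) (j - 1) * S'.fr (n + 1) j) +
          S.fr (n + 1) j *
            ((S'.a j - S.a j) * S'.fr (n + 1) j + (S'.b j - S.b j) * S'.fr (n + 1) (j - 1))) := by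
      rw [add_sub_cancel_right, S.fr_sol (n + 1) j (by omega), S'.fr_sol (n + 1) j (by omega)]; ring
    simp only [if_neg a.ne']
    rw [e1, abs_neg]
    refine (abs_add_le _ _).trans ?_
    rw [abs_mul, abs_mul, abs_of_nonneg (H.bb hk a.le).1]
    refine add_le_add le_rfl ?_
    obtain e2 : |S.fr (n + 1) j| ≤ S.wp c n j := S.abs_le_wh c _ (by omega)
    refine (mul_le_mul e2 (H.src2 h hk hs hρ a b) (abs_nonneg _) (wp_pos S a).le).trans_eq ?_
    rw [ww_eq S n hη]; ring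
  rw [sum_split _ hle, if_pos rfl, mul_zero, zero_add] at k
  obtain k1 : ∑ i ∈ Ico (n + 1) J, S.PB c (2 / 100) i J * (if i = n then 0 else
      S.wp c n i * (0 + 4000 * (c.CG * c.L * v) * S.wp c n i ^ 2) +
        4000 * (c.CG * c.L * η) * (S.wp c n i * S.wp c n i * Real.exp (-S.chi c n i / 2))) ≤
      ∑ i ∈ Ico (n + 1) J, S.PB c (2 / 100) i J *
        (S.wp c n i * (0 + 4000 * (c.CG * c.L * v) * S.wp c n i ^ 2)) +
      16000 * (c.CG * c.L * η) * (S.wp c n J ^ 2 * Real.exp (-S.chi c n J / 2)) *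
        ∑ i ∈ Ico (n + 1) J, Real.exp (-(3 / 8 * S.chi c i J)) := by
    rw [mul_sum, ← sum_add_distrib]
    refine sum_le_sum fun i hi => ?_
    obtain ⟨i1, i2⟩ := mem_Ico.1 hi
    rw [if_neg (by omega), mul_add]
    refine add_le_add le_rfl ?_
    obtain ⟨a1, a1'⟩ := H.i2 (i := i) (by omega) i2
    obtain a0 := wp_pos (c := c) S (n := n) (j := i) (by omega)
    obtain a2 := S.chi_add c (i := n) (j := i) (l := J) (by omega) i2.le
    have a3 := chi_nonneg h S i2.le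
    obtain a5 : Real.exp (-(1 - c.a) * S.chi c i J) * Real.exp (c.a * S.chi c i J) *
        Real.exp (-S.chi c n i / 2) ≤ Real.exp (-S.chi c n J / 2) *
          Real.exp (-(3 / 8 * S.chi c i J)) := by
      rw [← Real.exp_add, ← Real.exp_add, ← Real.exp_add]
      refine Real.exp_le_exp.2 ?_
      rw [a2]
      linarith only [a3, mul_nonneg (sub_nonneg.2 N.a1) a3]
    calc _ = 4000 * (c.CG * c.L * η) * (S.PB c (2 / 100) i J * S.wp c n i * S.wp c n i *
          Real.exp (-S.chi c n i / 2)) := by ring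
      _ ≤ 4000 * (c.CG * c.L * η) * (2 * Real.exp (-(1 - c.a) * S.chi c i J) * S.wp c n J *
          (2 * Real.exp (c.a * S.chi c i J) * S.wp c n J) * Real.exp (-S.chi c n i / 2)) := by
        gcongr
      _ = 16000 * (c.CG * c.L * η) * S.wp c n J ^ 2 * (Real.exp (-(1 - c.a) * S.chi c i J) *
          Real.exp (c.a * S.chi c i J) * Real.exp (-S.chi c n i / 2)) := by ring
      _ ≤ 16000 * (c.CG * c.L * η) * S.wp c n J ^ 2 * (Real.exp (-S.chi c n J / 2) *
          Real.exp (-(3 / 8 * S.chi c i J))) := by (clear * - a5 hG hL hη hW; gcongr)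
      _ = _ := by ring
  rw [S3_eq S (by omega)] at k1
  obtain k4 : ∑ i ∈ Ico (n + 1) J, Real.exp (-(3 / 8 * S.chi c i J)) ≤ 5 :=
    (sum_le_sum_of_subset_of_nonneg (Ico_subset_Ico_right (by omega))
      fun _ _ _ => (Real.exp_pos _).le).trans (geob h S (s := n + 1) (m := J) (by omega))
  obtain k5 : 160000 * (c.CG * c.L) * Real.exp (-S.chi c n J / 2) ≤ Real.exp (-S.chi c n J / 4) := by
    obtain e0 := S.chi_add c (i := n) (j := n + 1) (l := J) (by omega) hle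
    have e1 := chi_nonneg h S hle
    rw [chi_one H.hB.kz.1] at e0
    obtain e2 : Real.exp (-S.chi c n J / 2) ≤ Real.exp (-c.bl / 4) * Real.exp (-S.chi c n J / 4) := by
      rw [← Real.exp_add]; exact Real.exp_le_exp.2 (by linarith only [e0, e1])
    have e3 := mul_le_mul_of_nonneg_right (h2.small h) (Real.exp_pos (-S.chi c n J / 4)).le
    obtain e4 := mul_le_mul_of_nonneg_left e2 (show 0 ≤ 160000 * (c.CG * c.L) by positivity)
    obtain e5 : 0 ≤ c.CG * c.L * (Real.exp (-c.bl / 4) * Real.exp (-S.chi c n J / 4)) := by positivity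
    linarith only [e3, e4, e5]
  obtain d := H.close h hk hs hρ (j := J) (by omega) le_rfl
  obtain d3 : S.wp c n J ≤ 2 * |S'.fr (n + 1) J| := by
    have := abs_sub_abs_le_abs_sub (S.fr (n + 1) J) (S'.fr (n + 1) J)
    rw [abs_sub_comm, ← H.wpJ] at this
    linarith only [hW, d, this]
  obtain hf' : 0 < |S'.fr (n + 1) J| := by linarith only [hW, d3]
  have hf0' : S'.fr (n + 1) J ≠ 0 := abs_pos.1 hf'
  have hf : S.fr (n + 1) J ≠ 0 := H.hR.ne
  obtain e1 : S'.fr (n + 1) (J - 1) / S'.fr (n + 1) J - S.fr (n + 1) (J - 1) / S.fr (n + 1) J =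
      (S.fr (n + 1) J * S'.fr (n + 1) (J - 1) - S.fr (n + 1) (J - 1) * S'.fr (n + 1) J) /
        (S.fr (n + 1) J * S'.fr (n + 1) J) := by field_simp
  rw [e1, abs_div, ← mul_div_assoc, abs_mul, ← H.wpJ, div_le_iff₀ (mul_pos hW hf')]
  obtain k8 : 16000 * (c.CG * c.L * η) * (S.wp c n J ^ 2 * Real.exp (-S.chi c n J / 2)) *
      ∑ i ∈ Ico (n + 1) J, Real.exp (-(3 / 8 * S.chi c i J)) ≤
      Real.exp (-S.chi c n J / 4) * (η * S.wp c n J ^ 2 / 2) :=
    (mul_le_mul_of_nonneg_left k4 (by (clear * - hG hL hη hW; positivity))).trans (le_trans (le_of_eq (by ring))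
      (mul_le_mul_of_nonneg_right k5 (by positivity)))
  refine k.trans ((k1.trans (add_le_add le_rfl k8)).trans ?_)
  obtain s0 : 0 ≤ S.S3 c n J := sum_nonneg fun i hi => by
    obtain this := wp_pos (c := c) S (n := n) (j := i) (by have := (mem_Ico.1 hi).1; omega)
    obtain this := S.PB_pos c (by nlinarith only [hL, h.k0]) (2 / 100) i J
    (rename_i zq0; clear * - this zq0 hW; positivity)
  obtain k11 := mul_le_mul_of_nonneg_left d3 (show 0 ≤ (8000 * c.CG * c.L * (v * S.wp c n J) *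
    S.S3 c n J + η * Real.exp (-S.chi c n J / 4)) * (S.wp c n J / 2) by (clear * - hG hL hv hW s0 hη; positivity))
  exact le_trans (le_of_eq (by ring)) (k11.trans_eq (by ring))

/-- `Gt` is Lipschitz, from the Taylor bounds alone -/
theorem gt_lip (hM : M.OK c) (ht : TI t) {x y x' y' m τ : ℝ} (b1 : Box c x) (b2 : Box c y)
    (b3 : Box c x') (b4 : Box c y') (hp : Pair c x y x' y' m) (τ0 : 0 < τ) (τ1 : τ ≤ 1 / 2) :
    |M.Gt t x' y' - M.Gt t x y| * τ ≤
      2 * (c.CG * c.L * (x' - x) ^ 2 + m * (|x' - x| * |y' - y| + (y' - y) ^ 2))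
        + c.dl * (2 * τ ^ 2 + τ * (|x' - x| + |y' - y|)) := by
  obtain ⟨s, hs, hτ⟩ : ∃ s, TI s ∧ |s - t| = τ := by
    rcases le_total t (1 / 2) with e | e
    · exact ⟨t + τ, ⟨by linarith only [τ0, ht.1], by linarith only [τ1, e]⟩, by rw [add_sub_cancel_left, abs_of_pos τ0]⟩
    · exact ⟨t - τ, ⟨by linarith only [τ1, e], by linarith only [τ0, ht.2]⟩, by
        rw [sub_sub_cancel_left, abs_neg, abs_of_pos τ0]⟩
  obtain hp' : Pair c x' y' x' y' m := by
    refine ⟨by norm_num, ?_⟩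
    rcases hp.2 with ⟨e, e1 | e1⟩ | ⟨e, -, e2, -⟩
    · exact Or.inl ⟨e, Or.inl (by
        rw [sub_self, abs_zero]; linarith only [e1, (abs_le.1 (dP_lip x' x)).1])⟩
    · exact Or.inl ⟨e, Or.inr (by
        rw [sub_self, abs_zero]; linarith only [e1, (abs_le.1 (dP_lip y' y)).1])⟩
    · exact Or.inr ⟨e, e2, e2, by norm_num⟩
  have r1 := abs_le.1 (hM.tay t s x y x' y' m ht hs b1 b2 b3 b4 hp).1
  have r2 := abs_le.1 (hM.tay t t x y x' y' m ht ht b1 b2 b3 b4 hp).1
  have r3 := abs_le.1 (hM.tay t s x' y' x' y' m ht hs b3 b4 b3 b4 hp').1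
  rw [← sq_abs (s - t), hτ] at r1 r3
  simp only [sub_self, abs_zero, mul_zero, zero_mul, add_zero, ne_eq, OfNat.ofNat_ne_zero,
    not_false_eq_true, zero_pow, zero_add, sub_zero] at r2 r3
  rw [← hτ, ← abs_mul, hτ, abs_le]
  constructor <;> linarith only [r1.1, r1.2, r2.1, r2.2, r3.1, r3.2]

theorem Hy.dg (h : Nm c) (N : FD.Nm c) (h2 : N2 c) (hk : SOK_s c) (hs : SH_s c) (hρ : RHO_s c)
    (H : Hy c M t t S S' ξ n Ls J η D1 v) {l : ℤ} (l1 : n < l) (l2 : l < J) :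
    |M.gt t S' l - M.gt t S l| ≤ η * ww c S n η v l := by
  have hsh := H.shh h hk hρ
  obtain ⟨s1, s2, -⟩ := hs _ _ _ _ _ _ _ _ _ _ _ _ hsh
  obtain ⟨m, p1, p2, p3⟩ := FD.pair N hk hsh (fun j a b => (s1 j a b).1) (fun j a b => (s2 j a b).1)
    (i := l) (by omega) l2
  obtain b1 := H.ho.box l (by omega); have b2 := H.ho.box (l - 1) (by omega)
  obtain b3 := H.ho'.box l (by omega); have b4 := H.ho'.box (l - 1) (by omega)
  obtain z0 : 0 < η * ww c S n η v l := mul_pos H.η0 (hsh.cert.pos' l (by omega) l2.le)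
  obtain hx := (s1 l (by omega) l2.le).1
  rw [mul_assoc] at hx
  obtain hb : 0 ≤ c.bl := by linarith only [h.bl_ge, h.lam]
  have he := Real.exp_pos (-c.bl)
  obtain hE : Real.exp c.bl * Real.exp (-c.bl) = 1 := by rw [← Real.exp_add]; simp
  obtain hy : Real.exp (-c.bl) * |S'.X (l - 1) - S.X (l - 1)| ≤ 16 * (η * ww c S n η v l) := by
    obtain e0 : Real.exp (-c.bl) * Real.exp (c.bl / 2) ≤ 1 := by
      rw [← Real.exp_add]; exact Real.exp_le_one_iff.2 (by linarith only [hb])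
    obtain e1 : |S'.X (l - 1) - S.X (l - 1)| ≤ 16 * Real.exp (c.bl / 2) * (η * ww c S n η v l) := by
      rcases (show n + 1 ≤ l by omega).eq_or_lt with e | e
      · subst e
        rw [add_sub_cancel_right, ww_eq S n H.η0, wp_one, chi_one H.hB.kz.1]
        obtain e2 : Real.exp (c.bl / 2) * Real.exp (-c.bl / 2) = 1 := by
          rw [← Real.exp_add, ← Real.exp_zero]; congr 1; ring
        have e3 := mul_pos (Real.exp_pos (c.bl / 2)) (H.v0 h)
        obtain e4 : Real.exp (c.bl / 2) * (η * Real.exp (-c.bl / 2)) = η := by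
          rw [mul_left_comm, e2, mul_one]
        linarith only [e3, e4, H.hu, H.η0]
      · obtain e2 := (s1 (l - 1) (by omega) (by omega)).1
        have e3 := mul_le_mul_of_nonneg_left (hsh.cert.back l e l2.le) H.η0.le
        linarith only [e2, e3]
    have e5 := mul_le_mul_of_nonneg_left e1 he.le
    have e6 := mul_le_mul_of_nonneg_right e0 z0.le
    linarith only [e5, e6]
  unfold Mdl.gt
  generalize η * ww c S n η v l = z at *
  obtain hK : 1 ≤ c.CG * c.L := by nlinarith only [h.cg, h.L]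
  obtain sm : 10 ^ 6 * (c.CG * c.L) * Real.exp (-c.bl) ≤ 1 := by
    obtain e1 : Real.exp (-c.bl) ≤ Real.exp (-c.bl / 4) := Real.exp_le_exp.2 (by linarith only [hb])
    obtain e2 := mul_le_mul_of_nonneg_left e1 (show 0 ≤ 10 ^ 6 * (c.CG * c.L) by (clear * - hK; positivity))
    linarith only [e2, h2.small h]
  have eb := h.eb
  rcases le_total (z * Real.exp c.bl) (1 / 2) with e | e
  · obtain τ0 : 0 < z * Real.exp c.bl := by (clear * - z0; positivity)
    have g := gt_lip H.hM H.ht b1 b2 b3 b4 p1 τ0 e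
    rw [← sq_abs (S'.X l - S.X l), dl_eq] at g
    generalize |M.Gt t (S'.X l) (S'.X (l - 1)) - M.Gt t (S.X l) (S.X (l - 1))| = d at *
    generalize (S'.X (l - 1) - S.X (l - 1)) ^ 2 = y2 at *
    generalize |S'.X (l - 1) - S.X (l - 1)| = y at *
    have x0 := abs_nonneg (S'.X l - S.X l)
    generalize |S'.X l - S.X l| = x at *
    obtain q1 : c.CG * c.L * x ^ 2 ≤ c.CG * c.L * (4 * z) ^ 2 := by (clear * - x0 hx hK; gcongr)
    obtain q2 : x * (m * y) ≤ 4 * z * (5000 * (c.CG * c.L * z)) :=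
      (mul_le_mul_of_nonneg_left p2 x0).trans (mul_le_mul_of_nonneg_right hx (by (clear * - hK z0; positivity)))
    obtain q3 : Real.exp (-c.bl) ^ 2 * (2 * (z * Real.exp c.bl) ^ 2) = 2 * z ^ 2 := by
      rw [show Real.exp (-c.bl) ^ 2 * (2 * (z * Real.exp c.bl) ^ 2) =
        2 * z ^ 2 * (Real.exp c.bl * Real.exp (-c.bl)) ^ 2 by ring, hE]; ring
    obtain q4 : Real.exp (-c.bl) ^ 2 * (z * Real.exp c.bl * (x + y)) =
        z * (Real.exp (-c.bl) * x + Real.exp (-c.bl) * y) := by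
      rw [show Real.exp (-c.bl) ^ 2 * (z * Real.exp c.bl * (x + y)) = z * (Real.exp (-c.bl) * x +
        Real.exp (-c.bl) * y) * (Real.exp c.bl * Real.exp (-c.bl)) by ring, hE]; ring
    obtain q5 : Real.exp (-c.bl) * x ≤ 4 * z := by nlinarith only [z0, he, hx, eb]
    have q6 := mul_le_mul_of_nonneg_left (add_le_add q5 hy) z0.le
    have q7 := mul_le_mul_of_nonneg_right hK (sq_nonneg z)
    obtain q8 : d * (z * Real.exp c.bl) ≤ 60000 * (c.CG * c.L) * z ^ 2 := by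
      linarith only [p3, g, q1, q2, q3, q4, q6, q7, sq_nonneg z]
    have q9 := mul_le_mul_of_nonneg_right q8 he.le
    rw [mul_assoc, mul_assoc, hE, mul_one] at q9
    have q10 := mul_le_mul_of_nonneg_right sm (sq_nonneg z)
    obtain q11 : 0 ≤ c.CG * c.L * Real.exp (-c.bl) * z ^ 2 := by positivity
    refine le_of_mul_le_mul_right ?_ z0
    linarith only [q9, q10, q11]
  · have g1 := abs_le.1 (H.hM.t_all t _ _ H.ht b1 b2)
    have g2 := abs_le.1 (H.hM.t_all t _ _ H.ht b3 b4)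
    have e1 := mul_le_mul_of_nonneg_right e he.le
    rw [mul_assoc, hE, mul_one] at e1
    obtain e2 : 2 * c.dl ≤ z := by rw [dl_eq]; nlinarith only [z0, e1, hK, he, sm]
    rw [abs_le]; constructor <;> linarith only [g1, g2, e2]

theorem frc_sol (S : Sq) (q : ℤ → ℝ) {s j : ℤ} (h : s ≤ j) :
    ∑ i ∈ Ico s (j + 1), S.fr (i + 1) (j + 1) * q i =
      S.a j * ∑ i ∈ Ico s j, S.fr (i + 1) j * q i +
        S.b j * ∑ i ∈ Ico s (j - 1), S.fr (i + 1) (j - 1) * q i + q j := by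
  obtain h2 : ∑ i ∈ Ico s (j - 1), S.fr (i + 1) (j - 1) * q i =
      ∑ i ∈ Ico s j, S.fr (i + 1) (j - 1) * q i := by
    refine sum_subset (Ico_subset_Ico_right (by omega)) fun i hi hi' => ?_
    rw [mem_Ico] at hi hi'
    rw [S.fr_lt (by omega), zero_mul]
  rw [FD.sum_succ _ h, S.fr_self, one_mul, h2, mul_sum, mul_sum, ← sum_add_distrib]
  congr 1
  refine sum_congr rfl fun i hi => ?_
  rw [S.fr_sol (i + 1) j (by have := mem_Ico.1 hi; omega)]; ring

theorem Hy.dbw (h : Nm c) (hk : SOK_s c) (hs : SH_s c) (hρ : RHO_s c)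
    (H : Hy c M t t' S S' ξ n Ls J η D1 v) {l : ℤ} (l1 : n < l) (l2 : l < J) :
    |S'.b l - S.b l| * S.wp c n (l - 1) ≤
      1000 * c.CG * c.L * (η * ww c S n η v l) * S.wp c n l := by
  have hη := H.η0; have hL := h.L; have hG := h.cg
  have hsh := H.shh h hk hρ
  obtain ⟨-, -, d2⟩ := (hs _ _ _ _ _ _ _ _ _ _ _ _ hsh).2.1 l (by omega) l2
  have p1 := wp_pos (c := c) S l1
  obtain p2 := hsh.cert.pos' l (by omega) l2.le
  rcases (show n + 1 ≤ l by omega).eq_or_lt with e | e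
  · rw [← e, add_sub_cancel_right, wp_self, mul_zero, e]; positivity
  · rw [if_neg (by omega)] at d2
    obtain p3 := hsh.cert.pos' (l - 1) (by omega) (by omega)
    obtain p4 := wp_pos (c := c) S (n := n) (j := l - 1) (by omega)
    have r := ww_ratio (c := c) S l1 (η := η) (v := v)
    refine le_of_mul_le_mul_right ?_ p3
    calc _ = |S'.b l - S.b l| * ww c S n η v (l - 1) * S.wp c n (l - 1) := by ring
      _ ≤ 1000 * c.CG * c.L * (η * ww c S n η v l ^ 2) * S.wp c n (l - 1) := by (clear * - d2 p4; gcongr)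
      _ = 1000 * c.CG * c.L * (η * ww c S n η v l) *
          (ww c S n η v l * S.wp c n (l - 1)) := by ring
      _ ≤ 1000 * c.CG * c.L * (η * ww c S n η v l) *
          (S.wp c n l * ww c S n η v (l - 1)) := by (clear * - r hG hL hη p2; gcongr)
      _ = _ := by ring

theorem Hy.eps (h : Nm c) (H : Hy c M t t' S S' ξ n Ls J η D1 v) {j : ℤ} (hj : j ≤ J) :
    c.CG * (v * Real.exp (S.Wp c n j) + η) ≤ 2 / 10 ^ 6 := by
  have e1 := H.smj h hj
  obtain e4 : v * Real.exp (S.Wp c n j) + η ≤ 2 * (1 / c.lam ^ 2) := by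
    obtain this : 0 ≤ 1 / c.lam ^ 2 := by (clear * -; positivity)
    linarith only [e1, this, H.η1]
  obtain e5 := mul_le_mul_of_nonneg_left e4 (show 0 ≤ c.CG by linarith only [h.cg])
  linarith only [e5, h.ilc]

/-- the forced solutions with sources `∂_t G` -/
theorem Hy.frc (h : Nm c) (N : FD.Nm c) (h2 : N2 c) (hk : SOK_s c) (hs : SH_s c) (hρ : RHO_s c)
    (H : Hy c M t t S S' ξ n Ls J η D1 v) {Sg : ℝ} (g1 : 1 ≤ Sg)
    (hg : ∀ j, n < j → j ≤ J → ∑ i ∈ Ico (n + 1) j, |S.fr (i + 1) j| ≤ Sg * S.wp c n j) :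
    ∀ j, n < j → j ≤ J → |∑ i ∈ Ico (n + 1) j, S.fr (i + 1) j * M.gt t S i| ≤ 2 * Sg * S.wp c n j ∧
      |∑ i ∈ Ico (n + 1) j, S'.fr (i + 1) j * M.gt t S' i
        - ∑ i ∈ Ico (n + 1) j, S.fr (i + 1) j * M.gt t S i| ≤
      10000 * (c.CG * (v * Real.exp (S.Wp c n j) + η)) * (Sg * S.wp c n j) := by
  have hη := H.η0; have hv := H.v0 h; have hL := h.L; have hG := h.cg
  have hsh := H.shh h hk hρ
  have hd := (hs _ _ _ _ _ _ _ _ _ _ _ _ hsh).2.1
  obtain hV : ∀ j, n < j → j ≤ J →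
      |∑ i ∈ Ico (n + 1) j, S.fr (i + 1) j * M.gt t S i| ≤ 2 * Sg * S.wp c n j := by
    intro j a b
    refine (abs_sum_le_sum_abs _ _).trans (le_trans (sum_le_sum fun i hi => ?_)
      (le_trans (le_of_eq (mul_sum _ _ _).symm) ((mul_le_mul_of_nonneg_left (hg j a b)
        (zero_le_two (α := ℝ))).trans_eq (by ring))))
    have i1 := (mem_Ico.1 hi).1
    obtain e1 := abs_le.1 (H.hM.t_all t _ _ H.ht (H.ho.box i (by omega)) (H.ho.box (i - 1) (by omega)))
    obtain e2 : c.dl ≤ 1 := by rw [dl_eq]; nlinarith only [h.eb, Real.exp_pos (-c.bl)]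
    obtain e3 : |M.gt t S i| ≤ 2 := by unfold Mdl.gt; rw [abs_le]; constructor <;> linarith only [e1, e2]
    rw [abs_mul, mul_comm]
    exact mul_le_mul_of_nonneg_right e3 (abs_nonneg _)
  obtain key : ∀ m, n + 1 ≤ m → ∀ j, n < j → j ≤ m → j ≤ J →
      |∑ i ∈ Ico (n + 1) j, S'.fr (i + 1) j * M.gt t S' i
        - ∑ i ∈ Ico (n + 1) j, S.fr (i + 1) j * M.gt t S i| ≤
      10000 * (c.CG * (v * Real.exp (S.Wp c n j) + η)) * (Sg * S.wp c n j) := by
    intro m hm
    induction m, hm using Int.leInduction with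
    | base =>
      intro j a b _
      obtain rfl : j = n + 1 := by omega
      have := wp_pos (c := c) S a
      rw [Ico_self, sum_empty, sum_empty, sub_self, abs_zero]; (clear * - hG hv hη g1 this; positivity)
    | succ m hm ih =>
      intro j a1 a2 a3
      obtain U : ∀ l, n ≤ l → l < j →
          |∑ i ∈ Ico (n + 1) l, S'.fr (i + 1) l * M.gt t S' i| ≤ 4 * Sg * S.wp c n l := by
        intro l e1 e2
        rcases e1.eq_or_lt with rfl | e1
        · rw [Ico_eq_empty_of_le (by omega), sum_empty, abs_zero, wp_self, mul_zero]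
        obtain e3 := ih l e1 (by omega) (by omega)
        obtain e4 := hV l e1 (by omega)
        obtain e5 : 0 < Sg * S.wp c n l := mul_pos (by linarith only [g1]) (wp_pos S e1)
        obtain e6 := mul_le_mul_of_nonneg_right (H.eps h (j := l) (by omega)) e5.le
        have e7 := abs_sub_abs_le_abs_sub (∑ i ∈ Ico (n + 1) l, S'.fr (i + 1) l * M.gt t S' i)
          (∑ i ∈ Ico (n + 1) l, S.fr (i + 1) l * M.gt t S i)
        linarith only [e3, e4, e5, e6, e7]
      obtain V := S.voc (Z := fun l => ∑ i ∈ Ico (n + 1) l, S'.fr (i + 1) l * M.gt t S' i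
          - ∑ i ∈ Ico (n + 1) l, S.fr (i + 1) l * M.gt t S i)
        (q := fun l => (S'.a l - S.a l) * ∑ i ∈ Ico (n + 1) l, S'.fr (i + 1) l * M.gt t S' i
          + (S'.b l - S.b l) * ∑ i ∈ Ico (n + 1) (l - 1), S'.fr (i + 1) (l - 1) * M.gt t S' i
          + (M.gt t S' l - M.gt t S l))
        (s := n + 1) (n := j) (fun l e1 _ => by
          rw [frc_sol S _ e1, frc_sol S' _ e1]; ring) (j := j) (by omega) le_rfl
      rw [Ico_self, Ico_eq_empty_of_le (show n + 1 - 1 ≤ n + 1 by omega)] at V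
      simp only [sum_empty, sub_self, zero_mul, mul_zero, zero_add] at V
      rw [V]
      refine (abs_sum_le_sum_abs _ _).trans ?_
      have hw := wp_pos (c := c) S a1
      have R := H.res h (i := n) le_rfl a1 a3
      obtain T : ∀ l ∈ Ico (n + 1) j, |S.fr (l + 1) j * ((S'.a l - S.a l) *
            ∑ i ∈ Ico (n + 1) l, S'.fr (i + 1) l * M.gt t S' i
          + (S'.b l - S.b l) * ∑ i ∈ Ico (n + 1) (l - 1), S'.fr (i + 1) (l - 1) * M.gt t S' i
          + (M.gt t S' l - M.gt t S l))| ≤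
          8000 * c.CG * Sg * (|S.fr (l + 1) j| * c.L * (η * ww c S n η v l * S.wp c n l))
            + (v + η) * |S.fr (l + 1) j| + v * (|S.fr (l + 1) j| * c.L * S.wp c n l ^ 2) := by
        intro l hl
        obtain ⟨l1, l2⟩ := mem_Ico.1 hl
        obtain ⟨-, d1, -⟩ := hd l l1 (by omega)
        obtain d2 := H.dbw h hk hs hρ (l := l) (by omega) (by omega)
        obtain d3 := H.dg h N h2 hk hs hρ (l := l) (by omega) (by omega)
        obtain p1 := wp_pos (c := c) S (n := n) (j := l) (by omega)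
        obtain p2 := hsh.cert.pos' l l1 (by omega)
        obtain b1 := mul_le_mul d1 (U l (by omega) l2) (abs_nonneg _) (by (clear * - hG hL hη p2; positivity))
        obtain b2 := mul_le_mul_of_nonneg_left (U (l - 1) (by omega) (by omega))
          (abs_nonneg (S'.b l - S.b l))
        obtain b3 := mul_le_mul_of_nonneg_left d2 (show 0 ≤ 4 * Sg by linarith only [g1])
        rw [← abs_mul] at b1 b2
        obtain b4 : η * ww c S n η v l ≤ v + η + v * (c.L * S.wp c n l ^ 2) := by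
          rw [ww_eq S n hη]
          obtain c1 : Real.exp (-S.chi c n l / 2) ≤ 1 := Real.exp_le_one_iff.2
            (by linarith only [l1, chi_nonneg h S (i := n) (j := l) (by omega)])
          obtain c2 : S.wp c n l ≤ 1 + c.L * S.wp c n l ^ 2 := by
            nlinarith only [p1, hL, sq_nonneg (S.wp c n l - 1), sq_nonneg (S.wp c n l)]
          have c3 := mul_le_mul_of_nonneg_left c2 hv.le
          have c4 := mul_le_mul_of_nonneg_left c1 hη.le
          linarith only [c3, c4]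
        obtain b5 : |(S'.a l - S.a l) * ∑ i ∈ Ico (n + 1) l, S'.fr (i + 1) l * M.gt t S' i
            + (S'.b l - S.b l) * ∑ i ∈ Ico (n + 1) (l - 1), S'.fr (i + 1) (l - 1) * M.gt t S' i
            + (M.gt t S' l - M.gt t S l)| ≤
            8000 * c.CG * Sg * (c.L * (η * ww c S n η v l * S.wp c n l))
              + (v + η + v * (c.L * S.wp c n l ^ 2)) := by
          refine (abs_add_three _ _ _).trans ?_
          linarith only [d3, b1, b2, b3, b4]
        rw [abs_mul]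
        exact (mul_le_mul_of_nonneg_left b5 (abs_nonneg _)).trans_eq (by ring)
      refine (sum_le_sum T).trans ?_
      rw [sum_add_distrib, sum_add_distrib, ← mul_sum, ← mul_sum, ← mul_sum]
      obtain g3 : S.DD c (S.wp c n) (n + 1) j ≤ Real.exp (S.Wp c n j) * S.wp c n j := by
        rw [exp_Wp]; exact S.DD_le_AA c (by rw [S.fr_self]; exact one_ne_zero) (by omega)
      obtain hA : 1 ≤ Real.exp (S.Wp c n j) := by rw [exp_Wp]; exact S.one_le_AA c _ _ _
      obtain e2 : Real.exp (-c.bl / 3) ≤ 1 := Real.exp_le_one_iff.2 (by linarith only [h.bl_ge, h.lam])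
      obtain r1 : ∑ l ∈ Ico (n + 1) j, |S.fr (l + 1) j| * c.L * (η * ww c S n η v l * S.wp c n l) ≤
          (v * Real.exp (S.Wp c n j) + η) * S.wp c n j := R.trans (by gcongr; nlinarith only [hη, e2])
      obtain r2 := mul_le_mul_of_nonneg_left r1 (show 0 ≤ 8000 * c.CG * Sg by positivity)
      obtain r3 := mul_le_mul (show v + η ≤ v * Real.exp (S.Wp c n j) + η by nlinarith only [hv, hA]) (hg j a1 a3)
        (sum_nonneg fun _ _ => abs_nonneg _) (by positivity)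
      obtain r4 : v * S.DD c (S.wp c n) (n + 1) j ≤
          (v * Real.exp (S.Wp c n j) + η) * (Sg * S.wp c n j) := by
        refine (mul_le_mul_of_nonneg_left g3 hv.le).trans ?_
        rw [← mul_assoc]
        exact mul_le_mul (by linarith only [hη]) (le_mul_of_one_le_left hw.le g1) hw.le (by positivity)
      obtain r6 : 0 ≤ (v * Real.exp (S.Wp c n j) + η) * (Sg * S.wp c n j) := by (clear * - hv hη g1 hw; positivity)
      have r5 := mul_le_mul_of_nonneg_right hG r6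
      unfold Sq.DD at r4
      linarith only [r2, r3, r4, r6, r5]
  exact fun j a b => ⟨hV j a b, key j (by omega) j a le_rfl b⟩

theorem Hy.lo (h : Nm c) (hk : SOK_s c) (hs : SH_s c) (hρ : RHO_s c)
    (H : Hy c M t t' S S' ξ n Ls J η D1 v) {j : ℤ} (h1 : n < j) (h2 : j ≤ J)
    (hw : S.wp c n j = |S.fr (n + 1) j|) : S.wp c n j ≤ 2 * |S'.fr (n + 1) j| := by
  have d := H.close h hk hs hρ h1 h2
  have := abs_sub_abs_le_abs_sub (S.fr (n + 1) j) (S'.fr (n + 1) j)
  rw [abs_sub_comm, ← hw] at this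
  linarith only [d, this, wp_pos (c := c) S h1]

theorem Hy.spd (h : Nm c) (N : FD.Nm c) (h2 : N2 c) (hk : SOK_s c) (hs : SH_s c) (hρ : RHO_s c)
    (H : Hy c M t t S S' ξ n Ls J η D1 v) {Sg : ℝ} (g1 : 1 ≤ Sg)
    (hg : ∀ j, n < j → j ≤ J → ∑ i ∈ Ico (n + 1) j, |S.fr (i + 1) j| ≤ Sg * S.wp c n j) :
    |∑ i ∈ Ioo n J, S'.fr (i + 1) J / S'.fr (n + 1) J * M.gt t S' i
      - ∑ i ∈ Ioo n J, S.fr (i + 1) J / S.fr (n + 1) J * M.gt t S i| ≤
      c.KS * (v * Real.exp (S.Wp c n J) + η) * Sg := by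
  have hη := H.η0; have hv := H.v0 h; have hG := h.cg; have hle := H.hR.le
  obtain hW := wp_pos (c := c) S (n := n) (j := J) (by omega)
  obtain ⟨a1, a2⟩ := H.frc h N h2 hk hs hρ g1 hg J (by omega) le_rfl
  obtain a3 := H.tan h hk hs hρ (i := n) (B := 1) le_rfl
    (fun l a _ => by rw [one_mul]; exact S.abs_le_wh c _ (by omega)) (j := J) (by omega) le_rfl
  obtain a4 := H.lo h hk hs hρ (j := J) (by omega) le_rfl H.wpJ
  obtain hf' : 0 < |S'.fr (n + 1) J| := by linarith only [hW, a4]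
  have hf0' : S'.fr (n + 1) J ≠ 0 := abs_pos.1 hf'
  have hf : S.fr (n + 1) J ≠ 0 := H.hR.ne
  obtain eI : Ioo n J = Ico (n + 1) J := by ext x; simp only [mem_Ioo, mem_Ico]; omega
  obtain e1 : ∀ T : Sq, ∑ i ∈ Ioo n J, T.fr (i + 1) J / T.fr (n + 1) J * M.gt t T i =
      (∑ i ∈ Ico (n + 1) J, T.fr (i + 1) J * M.gt t T i) / T.fr (n + 1) J := fun T => by
    rw [eI, sum_div]; exact sum_congr rfl fun i _ => by ring
  rw [e1, e1]
  generalize ∑ i ∈ Ico (n + 1) J, S'.fr (i + 1) J * M.gt t S' i = U at *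
  generalize ∑ i ∈ Ico (n + 1) J, S.fr (i + 1) J * M.gt t S i = V at *
  obtain e2 : U / S'.fr (n + 1) J - V / S.fr (n + 1) J =
      ((U - V) * S.fr (n + 1) J - V * (S'.fr (n + 1) J - S.fr (n + 1) J)) /
        (S.fr (n + 1) J * S'.fr (n + 1) J) := by field_simp; ring
  obtain e3 : Real.exp (-c.bl / 3) ≤ 1 := Real.exp_le_one_iff.2 (by linarith only [h.bl_ge, h.lam])
  obtain a5 : |S'.fr (n + 1) J - S.fr (n + 1) J| ≤
      4000 * (c.CG * (v * Real.exp (S.Wp c n J) + η)) * S.wp c n J := by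
    refine a3.trans ?_
    rw [mul_one, mul_assoc 4000]
    gcongr; nlinarith only [hη, e3]
  rw [e2, abs_div, abs_mul, ← H.wpJ, div_le_iff₀ (mul_pos hW hf')]
  refine (abs_sub _ _).trans ?_
  rw [abs_mul, abs_mul, ← H.wpJ]
  have b1 := mul_le_mul_of_nonneg_right a2 hW.le
  obtain b2 := mul_le_mul a1 a5 (abs_nonneg _) (by (clear * - g1 hW; positivity))
  obtain b0 : 0 ≤ c.CG * (v * Real.exp (S.Wp c n J) + η) * Sg * S.wp c n J := by (clear * - hG hv hη g1 hW; positivity)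
  have b3 := mul_le_mul_of_nonneg_left a4 b0
  have b4 := mul_nonneg b0 hf'.le
  unfold Cs.KS
  linarith only [b1, b2, b3, b4]

theorem Hy.bbl (h : Nm c) (hk : SOK_s c) (hs : SH_s c) (hρ : RHO_s c)
    (H : Hy c M t t' S S' ξ n Ls J η D1 v) {l : ℤ} (l1 : n < l) (l2 : l < J) :
    |S'.ch1 c l - S.ch1 c l| ≤ c.a / 10 * S.ch1 c l ∧
      S'.bb c (19 / 1000) l ≤ S.bb c (2 / 100) l := by
  rcases (show n + 1 ≤ l by omega).eq_or_lt with e | e
  · subst e
    have z := H.hB.kz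
    obtain z1 : 4 / 100 ≤ dP (S'.X n) := by
      linarith only [(abs_le.1 (dP_lip (S'.X n) (S.X n))).1, H.hu, H.η1, h.il, z.2.1]
    obtain z2 : S'.kk (n + 1) = 0 := S'.kk_eq_zero.2 (Or.inr (by rw [add_sub_cancel_right]; exact z1))
    refine ⟨?_, ?_⟩
    · rw [Sq.ch1, Sq.ch1, z.1, z2, sub_self, abs_zero]
      obtain this := h.a0; have : 0 ≤ c.bl := by linarith only [h.bl_ge, h.lam]
      simp only [zero_mul, sub_zero, one_mul, zero_add]; (rename_i zq0; clear * - zq0 this; positivity)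
    · unfold Sq.bb
      rw [if_neg (fun x => by rw [add_sub_cancel_right] at x; linarith only [z1, x.2]),
        if_neg (fun x => by linarith only [x.1, z.2.2])]
  · obtain ⟨a, -, b⟩ := (hs _ _ _ _ _ _ _ _ _ _ _ _ (H.shh h hk hρ)).2.2.1 l e l2
    exact ⟨a, by rwa [show (2 / 100 - 1 / 1000 : ℝ) = 19 / 1000 by norm_num] at b⟩

theorem Hy.nu (h : Nm c) (hk : SOK_s c) (hs : SH_s c) (hρ : RHO_s c)
    (H : Hy c M t t' S S' ξ n Ls J η D1 v) {j : ℤ} (h1 : n < j) (h2 : j ≤ J)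
    (hw : S.wp c n j = |S.fr (n + 1) j|) :
    |S'.b (n + 1) * S'.fr (n + 2) J / S'.fr (n + 1) J
      - S'.b (n + 1) * S'.fr (n + 2) j / S'.fr (n + 1) j| ≤ Real.exp (-S.chi c n j / 2) := by
  rcases h2.eq_or_lt with rfl | h2
  · rw [sub_self, abs_zero]; exact (Real.exp_pos _).le
  have hL := h.L
  have a1 := H.lo h hk hs hρ h1 h2.le hw
  obtain a2 := H.lo h hk hs hρ (j := J) (by omega) le_rfl H.wpJ
  have p1 := wp_pos (c := c) S h1
  obtain p2 := wp_pos (c := c) S (n := n) (j := J) (by omega)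
  obtain f1 : 0 < |S'.fr (n + 1) j| := by linarith only [a1, p1]
  obtain f2 : 0 < |S'.fr (n + 1) J| := by linarith only [a2, p2]
  have f1' := abs_pos.1 f1
  have f2' := abs_pos.1 f2
  obtain eu := S'.euler (ξ := fun l => if l = n then 1 else S'.b (n + 1) * S'.fr (n + 2) l)
    (i := n) (s := j) (j := J) h1 h2.le (fun l a _ => by
      rcases (show n + 1 ≤ l by omega).eq_or_lt with e | e
      · subst e
        rw [if_neg (by omega), if_neg (by omega), if_pos (by omega), S'.fr_lt (j := n + 1) (by omega),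
          show n + 1 + 1 = n + 2 by ring, S'.fr_self]; ring
      · rw [if_neg (by omega), if_neg (by omega), if_neg (by omega), S'.fr_sol (n + 2) l (by omega)]
        ring)
  rw [if_neg (by omega), if_neg (by omega), if_pos rfl, abs_one, mul_one] at eu
  obtain hb : ∀ l, n < l → l < J → 0 ≤ S'.b l ∧ S'.b l ≤ S.bb c (2 / 100) l := fun l a b => by
    have q := (hk M H.hM t' H.ht').2.2 S' n l H.ho' a.le
    exact ⟨le_trans (by positivity) q.2.2.1,
      (q.2.1 _ (by norm_num)).trans (H.bbl h hk hs hρ a b).2⟩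
  obtain b1 : |S'.Pb n j| ≤ Real.exp (-(1 - c.a / 8) * S.chi c n j) := by
    refine le_trans ?_ (H.PBn h h1 h2.le)
    unfold Sq.Pb Sq.PB
    rw [abs_of_nonneg (prod_nonneg fun l hl => (hb l (mem_Ioc.1 hl).1
      (by have := (mem_Ioc.1 hl).2; omega)).1)]
    exact prod_le_prod (fun l hl => (hb l (mem_Ioc.1 hl).1 (by have := (mem_Ioc.1 hl).2; omega)).1)
      fun l hl => (hb l (mem_Ioc.1 hl).1 (by have := (mem_Ioc.1 hl).2; omega)).2
  obtain hB : ∀ l, j < l → l ≤ J → |S.fr (j + 1) l| ≤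
      Real.exp (c.a / 8 * S.chi c n j) / (c.L * S.wp c n j) * S.wp c n l := fun l a b => by
    rw [div_mul_eq_mul_div, le_div_iff₀ (by (clear * - hL p1; positivity)), ← mul_assoc]
    exact fr_le H.hB h1 a b
  have b2 := H.tan h hk hs hρ h1.le hB h2 le_rfl
  have b3 := hB J h2 le_rfl
  obtain e3 : Real.exp (-c.bl / 3) ≤ 1 := Real.exp_le_one_iff.2 (by linarith only [h.bl_ge, h.lam])
  obtain b4 : 4000 * c.CG * (v * Real.exp (S.Wp c n J) + η * Real.exp (-c.bl / 3)) ≤ 1 := by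
    have c1 := H.eps h le_rfl
    obtain c2 := mul_le_mul_of_nonneg_left (mul_le_mul_of_nonneg_left e3 H.η0.le)
      (show 0 ≤ c.CG by linarith only [h.cg])
    linarith only [c1, c2]
  have w1 := (H.hB.i6 j h1 h2.le).2.1
  have x0 := chi_nonneg h S h1.le
  generalize S.chi c n j = x at *
  obtain b5 := mul_le_mul_of_nonneg_right b4
    (show 0 ≤ Real.exp (c.a / 8 * x) / (c.L * S.wp c n j) * S.wp c n J by (clear * - hL p1 p2; positivity))
  obtain b6 : |S'.fr (j + 1) J| ≤ 2 * (Real.exp (c.a / 8 * x) / (c.L * S.wp c n j) * S.wp c n J) := by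
    have := abs_sub_abs_le_abs_sub (S'.fr (j + 1) J) (S.fr (j + 1) J)
    linarith only [b2, b3, b5, this]
  obtain e1 : S'.b (n + 1) * S'.fr (n + 2) J / S'.fr (n + 1) J
      - S'.b (n + 1) * S'.fr (n + 2) j / S'.fr (n + 1) j =
      -(S'.fr (n + 1) J * (S'.b (n + 1) * S'.fr (n + 2) j)
        - S'.b (n + 1) * S'.fr (n + 2) J * S'.fr (n + 1) j) / (S'.fr (n + 1) J * S'.fr (n + 1) j) := by
    field_simp; ring
  rw [e1, abs_div, abs_neg, eu, abs_mul, div_le_iff₀ (mul_pos f2 f1)]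
  refine (mul_le_mul b1 b6 (abs_nonneg _) (Real.exp_pos _).le).trans ?_
  obtain L8 : 8 ≤ c.L := by
    have := Real.add_one_le_exp c.lam
    rw [h.expL] at this; linarith only [this, h.lam]
  obtain c1 : Real.exp (-(1 - c.a / 8) * x) * Real.exp (c.a / 8 * x) ≤
      Real.exp (-x / 2) * S.wp c n j ^ 2 := by
    refine le_trans ?_ (mul_le_mul_of_nonneg_left (pow_le_pow_left₀ (Real.exp_pos _).le w1 2)
      (Real.exp_pos _).le)
    rw [sq_exp, ← Real.exp_add, ← Real.exp_add]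
    exact Real.exp_le_exp.2 (by nlinarith only [x0, h.a1])
  obtain c2 := mul_le_mul a2 a1 p1.le (by (clear * - f2'; positivity))
  calc _ = Real.exp (-(1 - c.a / 8) * x) * Real.exp (c.a / 8 * x) *
        (2 * S.wp c n J / (c.L * S.wp c n j)) := by ring
    _ ≤ Real.exp (-x / 2) * S.wp c n j ^ 2 * (2 * S.wp c n J / (8 * S.wp c n j)) := by (clear * - c1 p2 p1 L8 hL; gcongr)
    _ = Real.exp (-x / 2) * (S.wp c n J * S.wp c n j / 4) := by field_simp; ring
    _ ≤ _ := by gcongr; linarith only [c2]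

end BMap

end
end Pool.Agent.MP_9cbfe4_an

end

/-! ### Part TS -/

section

/-! Row TS: transfer from the true orbit to the seed orbit. -/

namespace Pool.Agent.MP_9cbfe4_an

open Finset

noncomputable section

namespace BMap

variable {c : Cs} {M : Mdl} {t : ℝ} {S : Sq} {ξ : ℤ → ℝ} {n : ℤ} {Ls : List (ℤ × ℝ)} {m : ℤ}
  {cv cc η h0 : ℝ}

theorem seedX (n : ℤ) (e : cv = M.G t cc h0) {l : ℤ} (hl : n ≤ l) :
    (M.orb t 1 (cv, cc)).X (l - n) = (M.orb t n (cc, h0)).X l := by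
  obtain ⟨k, rfl⟩ := Int.le.dest hl
  simp only [Mdl.orb, Mdl.pos]
  rw [if_pos hl, add_sub_cancel_left, Int.toNat_natCast]
  cases k with
  | zero => simp
  | succ k =>
    rw [if_pos (by omega), Function.iterate_succ_apply,
      show ((k + 1 : ℕ) : ℤ) - 1 = (k : ℕ) by omega, Int.toNat_natCast, e]
    rfl

theorem seedX' (n : ℤ) (e : cv = M.G t cc h0) {l : ℤ} (hl : n < l) :
    (M.orb t 1 (cv, cc)).X (l - n - 1) = (M.orb t n (cc, h0)).X (l - 1) := by
  rw [← seedX n e (l := l - 1) (by omega)]; congr 1; ring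

theorem seeda (n : ℤ) (e : cv = M.G t cc h0) {l : ℤ} (hl : n < l) :
    (M.orb t 1 (cv, cc)).a (l - n) = (M.orb t n (cc, h0)).a l :=
  congrArg₂ (M.Ga t) (seedX n e hl.le) (seedX' n e hl)

theorem seedb (n : ℤ) (e : cv = M.G t cc h0) {l : ℤ} (hl : n < l) :
    (M.orb t 1 (cv, cc)).b (l - n) = (M.orb t n (cc, h0)).b l :=
  congrArg₂ (M.Gb t) (seedX n e hl.le) (seedX' n e hl)

theorem seedg (n : ℤ) (e : cv = M.G t cc h0) {l : ℤ} (hl : n < l) :
    M.gt t (M.orb t 1 (cv, cc)) (l - n) = M.gt t (M.orb t n (cc, h0)) l :=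
  congrArg₂ (M.Gt t) (seedX n e hl.le) (seedX' n e hl)

theorem seedk (n : ℤ) (e : cv = M.G t cc h0) {l : ℤ} (hl : n < l) :
    (M.orb t 1 (cv, cc)).kk (l - n) = (M.orb t n (cc, h0)).kk l := by
  unfold Sq.kk; rw [seedX n e hl.le, seedX' n e hl]

theorem seedfr (n : ℤ) (e : cv = M.G t cc h0) {i : ℤ} (hi : n < i) (j : ℤ) :
    (M.orb t 1 (cv, cc)).fr (i - n) (j - n) = (M.orb t n (cc, h0)).fr i j := by
  obtain key : ∀ k : ℕ, (M.orb t 1 (cv, cc)).frP (i - n) k = (M.orb t n (cc, h0)).frP i k := by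
    intro k
    induction k with
    | zero => rfl
    | succ k ih =>
      simp only [Sq.frP]
      rw [ih, show i - n + (k : ℤ) = i + k - n by ring, seeda n e (by omega), seedb n e (by omega)]
  unfold Sq.fr
  rw [key, show j - n - (i - n) = j - i by ring]
  exact if_congr (by omega) rfl rfl

theorem hy (h : Nm c) (hk : SOK_s c) (H : TSH c M t S ξ n Ls m cv cc η) (b0 : Box c h0)
    (hd : S.b n * |h0 - S.X (n - 1) - ξ (n - 1) / ξ n * (cc - S.X n)| ≤
      Real.exp (-c.bl / 4) * (cc - S.X n) ^ 2) :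
    Hy c M t t S (M.orb t n (cc, h0)) ξ n Ls m η (Real.exp (-c.bl / 4) * η ^ 2)
      (4 * c.CG * c.L * η ^ 2) := by
  obtain x0 : (M.orb t n (cc, h0)).X n = cc := by simp [Mdl.orb, Mdl.pos]
  obtain x1 : (M.orb t n (cc, h0)).X (n - 1) = h0 := by simp [Mdl.orb, Mdl.pos]
  have hη := H.η0; have hG := h.cg; have hL := h.L; have hl := h.lam
  obtain hK : 1 ≤ c.CG * c.L := by nlinarith only [hG, hL]
  obtain hA : 1 ≤ Real.exp (S.Wp c n m) := by rw [exp_Wp]; exact S.one_le_AA c _ _ _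
  obtain e1 : Real.exp (-c.bl / 4) ≤ 1 / 2 := by
    obtain h4 : 1 / (2 * c.lam ^ 2) = 1 / c.lam ^ 2 / 2 := by rw [div_div, mul_comm]
    linarith only [h4, h.ebl, h.il]
  obtain e2 : (cc - S.X n) ^ 2 ≤ η ^ 2 := by
    rw [← sq_abs]; exact pow_le_pow_left₀ (abs_nonneg _) H.d0 2
  obtain η1 : η ≤ 1 / c.lam ^ 2 := by
    have a1 := h.ex
    rw [one_mul, h.expL] at a1
    obtain a2 : c.lam ^ 2 * η ^ 2 ≤ 1 / c.lam ^ 2 := by
      refine le_trans ?_ H.small
      obtain a3 : c.lam ^ 2 ≤ 40 * c.CG * c.L := by nlinarith only [hG, hK, a1, hL]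
      exact (mul_le_mul_of_nonneg_right a3 (sq_nonneg η)).trans
        (le_mul_of_one_le_right (by positivity) hA)
    rw [le_div_iff₀ (by positivity)] at a2 ⊢
    exact (abs_le_of_sq_le_sq' (a := η * c.lam ^ 2) (b := 1) (by linarith only [a2]) zero_le_one).2
  obtain η2 : η ^ 2 ≤ η := by nlinarith only [hη, η1, h.il]
  refine ⟨H.hM, H.ht, H.ht, H.ho, (hk M H.hM t H.ht).1 n (cc, h0) H.box b0
    (fun a _ => by linarith only [a, H.far]), H.hS, H.hO, H.hR, H.hB, by rw [x0]; exact H.d0, hη, η1, ?_, ?_,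
    ?_, fun j a b => ?_, ?_⟩
  · rw [x0, x1]; exact hd.trans (mul_le_mul_of_nonneg_left e2 (Real.exp_pos _).le)
  · linarith only [hη, η1, η2, mul_le_mul_of_nonneg_right e1 (sq_nonneg η), sq_nonneg η]
  · rw [sub_self, abs_zero]
    have a1 := mul_le_mul_of_nonneg_right H.rho hη.le
    have a2 := mul_le_mul_of_nonneg_right e1 (sq_nonneg η)
    have a3 := mul_le_mul_of_nonneg_right hK (sq_nonneg η)
    linarith only [a1, a2, a3]
  · rw [sub_self, abs_zero, zero_mul]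
    obtain this := wp_pos (c := c) S (n := n) (j := j) (by omega)
    (clear * - hG hL hη this; positivity)
  · have a1 := H.small
    rw [mul_comm 10, ← div_div]; linarith only [a1]

theorem ts_main (h : Nm c) (N : FD.Nm c) (h2 : N2 c) (hk : SOK_s c) (hs : SH_s c) (hρ : RHO_s c) :
    TS_s c := by
  intro M t S ξ n Ls m cv cc η H
  obtain ⟨h0, b0, e, hd⟩ := H.near
  have Y := hy h hk H b0 hd
  have hsh := Y.shh h hk hρ
  obtain ⟨s1, s2, -⟩ := hs _ _ _ _ _ _ _ _ _ _ _ _ hsh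
  have hle := H.hR.le
  have hη := H.η0
  obtain f1 : ∀ j, (M.orb t 1 (cv, cc)).fr 1 (j - n) = (M.orb t n (cc, h0)).fr (n + 1) j := fun j => by
    rw [← seedfr n e (i := n + 1) (by omega), add_sub_cancel_left]
  obtain f2 : ∀ j, (M.orb t 1 (cv, cc)).fr 2 (j - n) = (M.orb t n (cc, h0)).fr (n + 2) j := fun j => by
    rw [← seedfr n e (i := n + 2) (by omega), add_sub_cancel_left]
  obtain fb : (M.orb t 1 (cv, cc)).b 1 = (M.orb t n (cc, h0)).b (n + 1) := by
    rw [← seedb n e (l := n + 1) (by omega), add_sub_cancel_left]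
  refine ⟨(hk M H.hM t H.ht).1 1 (cv, cc) (by rw [e]; exact H.hM.box t _ _ H.ht H.box b0) H.box
      (fun _ a => by linarith only [a, H.far]), fun l a b => ?_, fun l a b => ?_, fun l a b => ?_, ⟨?_, ?_⟩,
    fun i B a hB j b d => ?_, fun j a b => ?_, ?_, ?_, Y.s3 h N, fun Sg g1 hg => ?_,
    fun j a b d => ?_⟩
  · rw [seedX n e a]
    rcases a.eq_or_lt with rfl | a
    · rw [wp_self, S.chi_self]; simp only [mul_zero, neg_zero, zero_div, Real.exp_zero]
      linarith only [hη, Y.hu]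
    · obtain this := (s1 l (by omega) b).1
      rwa [mul_assoc, ww_eq S n hη] at this
  · rw [seedX n e a]
    obtain a0 : 0 ≤ 1 / c.lam ^ 2 := by (clear * -; positivity)
    rw [div_eq_mul_one_div]
    rcases a.eq_or_lt with rfl | a
    · linarith only [hη, Y.hu, Y.η1]
    · linarith only [a, (s1 l (by omega) b.le).1, (s2 l (by omega) b).1, hsh.small]
  · obtain ⟨a1, a2⟩ := Y.bbl h hk hs hρ a b
    rw [← ww_eq S n hη, seeda n e a, seedb n e a, seedg n e a]
    refine ⟨(s2 l (by omega) b).2.1, Y.dbw h hk hs hρ a b, Y.dg h N h2 hk hs hρ a b, ?_, ?_⟩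
    · rw [Sq.ch1, seedk n e a]; exact a1
    · rw [Sq.bb, seedX n e a.le, seedX' n e a]; exact a2
  · rw [fb]; exact Y.db h hρ
  · refine (Sq.kk_eq_zero _).2 (Or.inr ?_)
    obtain this : (M.orb t 1 (cv, cc)).X (1 - 1) = cc := by simp [Mdl.orb, Mdl.pos]
    rw [this]; linarith only [H.far]
  · rw [seedfr n e (by omega)]; exact Y.tan h hk hs hρ a hB b d
  · rw [f1]; exact Y.close h hk hs hρ a b
  · rw [seedX n e (by omega), seedX' n e (by omega)]; exact Y.ts2 h N hk hs hρ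
  · rw [show m - n - 1 = m - 1 - n by ring, f1, f1]; exact Y.ts3 h N h2 hk hs hρ
  · obtain e1 : ∑ i ∈ Ioo 0 (m - n), (M.orb t 1 (cv, cc)).fr (i + 1) (m - n) /
        (M.orb t 1 (cv, cc)).fr 1 (m - n) * M.gt t (M.orb t 1 (cv, cc)) i =
        ∑ i ∈ Ioo n m, (M.orb t n (cc, h0)).fr (i + 1) m / (M.orb t n (cc, h0)).fr (n + 1) m *
          M.gt t (M.orb t n (cc, h0)) i := by
      symm
      refine sum_bij' (fun i _ => i - n) (fun i _ => i + n) ?_ ?_ ?_ ?_ ?_
      · intro i hi; rw [mem_Ioo] at hi ⊢; omega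
      · intro i hi; rw [mem_Ioo] at hi ⊢; omega
      · intro i _; ring
      · intro i _; ring
      · intro i hi
        have := mem_Ioo.1 hi
        rw [f1, seedg n e this.1, show i - n + 1 = i + 1 - n by ring, seedfr n e (by omega)]
    rw [e1]; exact Y.spd h N h2 hk hs hρ g1 hg
  · unfold Sq.nu1
    rw [f1, f1, f2, f2, fb, neg_sub_neg, abs_sub_comm]
    exact Y.nu h hk hs hρ a b d

end BMap

theorem ts : Hier fun c => SOK_s c → SH_s c → RHO_s c → TS_s c :=
  (BMap.hier_Nm.and (FD.nm.and BMap.hier_N2)).mono fun _ h hk hs hρ =>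
    BMap.ts_main h.1 h.2.1 h.2.2 hk hs hρ

end
end Pool.Agent.MP_9cbfe4_an

end

/-! ### Part XC -/

section

/-! Rows XC and JX: the seed orbit fits the skeleton of its datum; parameter speed at `p`. -/

namespace Pool.Agent.MP_9cbfe4_an

open Finset Real

noncomputable section

namespace XC
open BMap

structure K1 (c : Cs) : Prop where
  nm : Nm c
  big : SOK.Big c
  κ : 0 < c.κ
  C0 : 64 ≤ c.C0
  C1 : 100 ≤ c.C1
  e3 : 0 < c.e3
  ε : 0 < c.ε
  a8 : c.a ≤ 1 / 8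
  aC : c.a ≤ (1 / (4 * (c.C0 * (2 + c.κ)))) ^ 2
  M1 : 2 * (c.C0 * (2 + c.κ)) ≤ c.M1
  β : 4 * (c.C0 * (2 + c.κ)) ≤ c.β
  βa : 4 / sqrt c.a ≤ c.β
  l3 : 1 * c.lam ^ 3 ≤ exp (1 * c.lam)
  LG : 10 ^ 8 * c.CG ≤ c.L

theorem hK1 : Hier K1 := by
  have h1 := Hier.base
  have h2 := Hier.C0_ge fun _ _ _ _ => 64
  have h3 := Hier.C1_ge fun _ _ _ _ _ => 100
  have h4 := Hier.e3_le (fun _ => 1) (fun _ _ _ _ _ _ _ _ => rfl) (Hier.of_all fun _ => one_pos)
  obtain h5 := Hier.ε_le_pow (fun _ => 1) 0 (by norm_num) (fun _ _ _ _ _ _ _ _ => rfl)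
    (Hier.of_all fun _ => one_pos)
  obtain h6 := Hier.a_le (fun _ => 1 / 8) (fun _ _ _ _ _ _ => rfl) (Hier.of_all fun _ => by norm_num)
  obtain h7 := Hier.a_le (fun c => (1 / (4 * (c.C0 * (2 + c.κ)))) ^ 2) (fun _ _ _ _ _ _ => rfl)
    ((h1.and h2).mono fun c h => by
      have := h.1.2.2.2.2.1
      obtain this : 0 < c.C0 := by linarith only [h.2]
      positivity)
  have h8 := Hier.M1_ge (fun c => 2 * (c.C0 * (2 + c.κ))) fun _ _ _ _ => rfl
  have h9 := Hier.β_ge (fun c => 4 * (c.C0 * (2 + c.κ))) fun _ _ _ => rfl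
  have h10 := Hier.β_ge (fun c => 4 / sqrt c.a) fun _ _ _ => rfl
  have h11 := Hier.pow_le_exp (fun _ => 1) (fun _ => 1) 3 (fun _ _ => rfl) (fun _ _ => rfl)
    (Hier.of_all fun _ => one_pos)
  have h12 := Hier.L_ge (fun c => 10 ^ 8 * c.CG) fun _ _ => rfl
  refine (hier_Nm.and (SOK.big.and (h1.and (h2.and (h3.and (h4.and (h5.and (h6.and (h7.and (h8.and
    (h9.and (h10.and (h11.and h12))))))))))))).mono ?_
  rintro c ⟨a0, a0', a1, a2, a3, a4, a5, a6, a7, a8, a9, a10, a11, a12⟩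
  exact ⟨a0, a0', a1.2.2.2.2.1, a2, a3, a4.1, a5.1, a6.2, a7.2, a8, a9, a10, a11, a12⟩

variable {c : Cs} {K : ℕ} {Ex : ExT} {M : Mdl} {d : Dat} {σ : Seed} {y U : ℝ}

theorem K1.lam (h : K1 c) : 10000 ≤ c.lam := by linarith only [h.nm.lcg, h.nm.cg]
theorem K1.L0 (h : K1 c) : 0 < c.L := by linarith only [h.nm.L]
theorem K1.cb0 (h : K1 c) : 0 < c.cb := by have := h.lam; unfold Cs.cb; positivity

theorem K1.cbL (h : K1 c) : 1 ≤ c.cb * c.L := by
  have h1 := h.lam
  have h2 := h.l3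
  simp only [one_mul] at h2
  rw [h.nm.expL] at h2
  unfold Cs.cb
  rw [div_mul_eq_mul_div, one_mul, le_div_iff₀ (by positivity)]
  linarith only [h2]

/-- `CG * cb * lam ^ 2 ≤ 1 / 10000` -/
theorem K1.cb1 (h : K1 c) : c.CG * c.cb ≤ 1 / c.lam ^ 2 / 10000 := by
  have h1 := h.lam
  have h2 := h.nm.lcg
  unfold Cs.cb
  rw [mul_one_div, div_div, div_le_div_iff₀ (by positivity) (by positivity)]
  linarith only [mul_le_mul_of_nonneg_right h2 (sq_nonneg c.lam)]

theorem K1.il (h : K1 c) : c.CG * (1 / c.lam ^ 2) ≤ 1 / 10 ^ 8 := by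
  have h1 := h.lam; have h2 := h.nm.lcg; have h3 := h.nm.cg
  rw [mul_one_div, div_le_div_iff₀ (by positivity) (by positivity)]
  nlinarith only [h1, h2]

theorem K1.il1 (h : K1 c) : 1 / c.lam ^ 2 ≤ 1 / 10 ^ 8 :=
  (le_mul_of_one_le_left (by positivity) h.nm.cg).trans h.il

theorem K1.ck (h : K1 c) : 128 ≤ c.C0 * (2 + c.κ) := by nlinarith only [h.C0, h.κ]

theorem K1.bl (h : K1 c) : 4 * (c.C0 * (2 + c.κ)) * c.lam ≤ c.bl :=
  mul_le_mul_of_nonneg_right h.β (by linarith only [h.lam])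

def eta (c : Cs) (U : ℝ) : ℝ := 6 * sqrt (c.cb / c.L) * exp (-U / 2)

theorem eta_pos (h : K1 c) (U : ℝ) : 0 < eta c U := by
  have := h.cb0; have := h.L0
  unfold eta; positivity

theorem eta_sq (h : K1 c) (U : ℝ) : c.L * eta c U ^ 2 = 36 * c.cb * exp (-U) := by
  have h1 := h.cb0; have h2 := h.L0
  obtain e : exp (-U / 2) ^ 2 = exp (-U) := by rw [← exp_nat_mul]; congr 1; push_cast; ring
  unfold eta
  rw [mul_pow, mul_pow, sq_sqrt (by positivity), e]
  field_simp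
  norm_num

theorem eta_le (h : K1 c) (U : ℝ) : eta c U ≤ exp (-U / 2) / 100000 := by
  have h1 := h.cb0; have h2 := h.nm.L; have h3 := h.cb1; have h4 := h.il1; have h5 := h.nm.cg
  obtain a : sqrt (c.cb / c.L) ≤ 1 / 10 ^ 6 := by
    refine sqrt_le_iff.2 ⟨by norm_num, (div_le_self h1.le h2).trans ?_⟩
    nlinarith only [h3, h4, h1, h5]
  have := exp_pos (-U / 2)
  unfold eta
  nlinarith only [this, a]

theorem rho_le (h : K1 c) {ρ : ℝ} (hρ : ρ ^ 2 * exp U ≤ 4 * (c.cb * c.L)) :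
    3 * |ρ| ≤ c.L * eta c U := by
  have h1 := h.L0; have h2 := eta_pos h U
  refine le_of_sq_le_sq ?_ (by positivity)
  obtain e1 : exp (-U) * exp U = 1 := by rw [← exp_add]; simp
  have e2 := mul_le_mul_of_nonneg_right hρ (exp_pos (-U)).le
  obtain e3 : (c.L * eta c U) ^ 2 = c.L * (36 * c.cb * exp (-U)) := by rw [← eta_sq h]; ring
  obtain e4 : ρ ^ 2 * exp U * exp (-U) = ρ ^ 2 := by rw [mul_assoc, mul_comm (exp U), e1, mul_one]
  rw [e3, mul_pow, sq_abs]
  linarith only [e2, e4]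

theorem vv (h : K1 c) (U : ℝ) : 4 * c.CG * c.L * eta c U ^ 2 = 144 * (c.CG * c.cb) * exp (-U) := by
  rw [mul_assoc _ c.L, eta_sq h]; ring

theorem rU_small (h : K1 c) (hy : c.bl / 4 < y) : 0 < c.rU y ∧ 3 * c.rU y ≤ 1 / 4 := by
  have h1 := h.lam
  have a0 : 0 < sqrt c.a := sqrt_pos.2 h.nm.a0
  have h2 := h.βa
  rw [div_le_iff₀ a0] at h2
  obtain h3 : c.β ≤ c.bl := le_mul_of_one_le_right (by linarith only [h.nm.be]) (by linarith only [h1])
  obtain h4 : 1 ≤ sqrt c.a * y := by nlinarith only [h2, hy, a0, h3]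
  obtain h5 : (5 / 2 : ℝ) ≤ c.S0 y := le_trans (by linarith only [exp_one_gt_d9]) (exp_le_exp.2 h4)
  obtain h6 : (5 / 2 : ℝ) ^ 3 ≤ c.S0 y ^ 3 := pow_le_pow_left₀ (by norm_num) h5 3
  unfold Cs.rU
  refine ⟨by positivity, ?_⟩
  rw [mul_one_div, div_le_iff₀ (by positivity)]
  linarith only [h6]

/-- hypotheses of TS at the horizon `H` -/
theorem tsh (h : K1 c) (hS : SOK_s c) (hM : M.OK c) (hσ : σ.OK K c Ex M y d.toFd) {H : ℤ}
    (fr : d.toFd.Fr c M H) (hW : (d.S M).Wp c d.n H ≤ U)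
    (r1 : (d.S M).rho d.ξ d.n H ^ 2 * exp U ≤ 4 * (c.cb * c.L))
    (r2 : (d.S M).rho d.ξ d.n σ.J ^ 2 * exp U ≤ 4 * (c.cb * c.L)) :
    ∃ Ls, TSH c M d.t (d.S M) d.ξ d.n Ls H (σ.v d.t) (σ.c d.t) (eta c U) := by
  obtain ⟨Ls, bi⟩ := fr.binv
  obtain ⟨g, bg, e, leaf, cl⟩ := hσ.near
  obtain rU : 0 < c.rU y := by unfold Cs.rU Cs.S0; positivity
  obtain ⟨-, -, -, -, j1, -, j2⟩ := hσ.jets d.t ⟨by linarith only [rU], by linarith only [rU]⟩
  obtain ⟨o1, o2⟩ := (hS M hM d.t fr.ht).2.1 d.v fr.hv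
  have L0 := h.L0
  have e0 := eta_pos h U
  refine ⟨Ls, hM, fr.ht, ((hS M hM d.t fr.ht).2.2 _ _ _ o1 fr.out.1).1, o2, fr.out, fr.rinv, bi,
    by unfold Box; linarith only [j1, L0], j2, ⟨g, bg, e, leaf⟩, ?_, e0, ?_, ?_⟩
  · exact le_of_mul_le_mul_left (cl.trans (rho_le h r2)) L0
  · have a := rho_le h r1
    have b := abs_nonneg ((d.S M).rho d.ξ d.n H)
    have := mul_le_mul_of_nonneg_right h.nm.cg (mul_pos L0 e0).le
    linarith only [a, b, this]
  · obtain a : exp (-U) * exp ((d.S M).Wp c d.n H) ≤ 1 := by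
      rw [← exp_add]; exact exp_le_one_iff.2 (by linarith only [hW])
    obtain b : 40 * c.CG * c.L * eta c U ^ 2 = 1440 * (c.CG * c.cb) * exp (-U) := by
      rw [mul_assoc _ c.L, eta_sq h]; ring
    have b1 := h.cb1
    obtain b2 : 0 ≤ c.CG * c.cb := mul_nonneg (by linarith only [h.nm.cg]) h.cb0.le
    obtain b3 : (0 : ℝ) ≤ 1 / c.lam ^ 2 := by (clear * -; positivity)
    rw [b, mul_assoc]
    nlinarith only [b1, b2, a]

theorem Wp0 (S : Sq) (n m : ℤ) : 0 ≤ S.Wp c n m := log_nonneg (S.one_le_AA c _ _ _)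

theorem chi_p (h : K1 c) (hF : FR_s K c) (hM : M.OK c) (P : d.Pre c Ex M)
    (hV : d.V c M ≤ (2 + c.κ) * ((d.S M).Wp c d.n d.p + c.lam)) :
    c.C0 * d.V c M ≤ (d.S M).chi c d.n d.p := by
  obtain ⟨c1, c2⟩ := ((hF Ex M d hM P).1 _ List.mem_cons_self).chi
  obtain a1 := mul_le_mul_of_nonneg_left hV (show 0 ≤ c.C0 by linarith only [h.C0])
  have a2 := h.bl; have a3 := h.ck; have a4 := h.lam; have a5 := h.M1
  change c.M1 * ((d.S M).Wp c d.n d.p - 5) ≤ (d.S M).chi c d.n d.p at c2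
  change c.bl ≤ (d.S M).chi c d.n d.p at c1
  rw [← mul_assoc] at a1
  set q := c.C0 * (2 + c.κ)
  rcases le_total ((d.S M).Wp c d.n d.p) 5 with w | w
  · nlinarith only [a4, c1, a1, a2, a3, w]
  · nlinarith only [a4, c2, c1, a1, a2, a3, mul_le_mul_of_nonneg_right a5 (sub_nonneg.2 w)]

/-- a later free time with level at most `U` and contraction at least `4 U` -/
theorem hor (h : K1 c) (hF : FR_s K c) (hM : M.OK c) (P : d.Pre c Ex M)
    (hp : 4 * U ≤ (d.S M).chi c d.n d.p) {x : ℤ × ℝ} (hx : x ∈ (d.p, d.r) :: d.Ls)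
    (hW : (d.S M).Wp c d.n x.1 ≤ U) :
    ∃ H, x.1 ≤ H ∧ H ≤ d.p ∧ d.toFd.Fr c M H ∧ (d.S M).Wp c d.n H ≤ U ∧
      4 * U ≤ (d.S M).chi c d.n H := by
  classical
  obtain ⟨T, hT⟩ : ∃ T : Finset (ℤ × ℝ), ∀ z : ℤ × ℝ, z ∈ T ↔
      z ∈ (d.p, d.r) :: d.Ls ∧ (d.S M).Wp c d.n z.1 ≤ U :=
    ⟨((d.p, d.r) :: d.Ls).toFinset.filter fun z => (d.S M).Wp c d.n z.1 ≤ U,
      fun z => by rw [mem_filter, List.mem_toFinset]⟩
  obtain ⟨z, hz, mx⟩ := exists_max_image T Prod.fst ⟨x, (hT x).2 ⟨hx, hW⟩⟩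
  obtain ⟨z1, z2⟩ := (hT z).1 hz
  have E := (hF Ex M d hM P).1 z z1
  refine ⟨z.1, mx x ((hT x).2 ⟨hx, hW⟩), E.lt.2, E.fr, z2, ?_⟩
  rcases List.mem_cons.1 z1 with rfl | z3
  · exact hp
  obtain ⟨-, s1, w, w1, w2, -, w3⟩ := E.step z3
  obtain w4 : U < (d.S M).Wp c d.n w.1 := by
    by_contra hh
    exact absurd (mx w ((hT w).2 ⟨w1, not_lt.1 hh⟩)) (not_le.2 w2)
  change (d.S M).Wp c d.n w.1 ≤ _ at w3
  have w5 : 0 ≤ (d.S M).Wt c (d.toFd.f M) (d.n + 1) z.1 z.2 :=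
    (Wp0 (d.S M) d.n z.1).trans (le_max_left _ _)
  have c1 := E.chi.1
  have a2 := h.bl; have a3 := h.ck; have a4 := h.lam; have a5 := h.M1
  nlinarith only [s1, w4, w3, c1, a2, a3, a4, a5, mul_le_mul_of_nonneg_right (show 8 ≤ c.M1 by linarith only [a3, a5]) w5]

theorem mem_F {n : ℤ} (hn : n ∈ (d.sk c M).F) : ∃ x ∈ (d.p, d.r) :: d.Ls, x.1 = n + d.n := by
  obtain ⟨m, hm, e⟩ := mem_image.1 hn
  rcases mem_insert.1 hm with rfl | hm
  · exact ⟨_, List.mem_cons_self, by simp only; omega⟩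
  · obtain ⟨x, hx, e'⟩ := List.mem_map.1 (List.mem_toFinset.1 hm)
    exact ⟨x, List.mem_cons_of_mem _ hx, by omega⟩

theorem F_mem {x : ℤ × ℝ} (hx : x ∈ (d.p, d.r) :: d.Ls) : x.1 - d.n ∈ (d.sk c M).F := by
  refine mem_image.2 ⟨x.1, ?_, rfl⟩
  rcases List.mem_cons.1 hx with rfl | hx
  · exact mem_insert_self _ _
  · exact mem_insert_of_mem (List.mem_toFinset.2 (List.mem_map.2 ⟨x, hx, rfl⟩))

theorem chi_sk (l : ℤ) : (d.sk c M).chi 0 l = (d.S M).chi c d.n (l + d.n) := by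
  have := (d.S M).chi_shift c d.n 0 l
  rw [zero_add] at this
  rw [← this]
  refine sum_congr rfl fun i _ => ?_
  simp only [Dat.sk, Sq.ch1, Sq.kk_shift]

theorem OC_mono {t g : ℝ} {S : Sq} {k : Sk} {N n : ℤ} (H : OC K c M t g S k N) (hn : n ∈ k.F)
    (le : n ≤ N) : OC K c M t g S k n :=
  ⟨H.ok, H.sk, hn, H.t0, H.t1, H.orb, H.box0, H.g1, H.g16,
    fun i a b => H.fit.f1 i a (b.trans le), fun m a b => H.fit.f2 m a (b.trans le),
    fun m a b => H.fit.fE m a (b.trans le), fun x a b => H.fit.fblk x a (b.trans_le le),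
    fun x a b => H.fit.fx x a (b.trans_le le), fun x a b => H.fit.flo x a (b.trans_le le),
    fun j a b => H.fit.d8 j a (b.trans le), fun l a b => H.fit.b l a (b.trans le),
    fun l a b => H.fit.zone l a (b.trans le), fun x a b => H.fit.fold x a (b.trans_le le)⟩

theorem win (h : K1 c) (P : d.Pre c Ex M) (hy : c.bl / 4 < y) (hσ : σ.OK K c Ex M y d.toFd)
    (t : ℝ) (ht : |t - d.t| < 3 * c.rU y) : σ.At K c t := by
  obtain ⟨t1, t2⟩ := abs_lt.1 ht
  obtain ⟨-, r1⟩ := rU_small h hy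
  obtain m : t ∈ Set.Ioo (d.t - 3 * c.rU y) (d.t + 3 * c.rU y) := ⟨by linarith only [t1], by linarith only [t2]⟩
  obtain ⟨j1, j2, j3, j4, j5, j6, -⟩ := hσ.jets t m
  exact ⟨by linarith only [t1, r1, P.ht.1], by linarith only [t2, r1, P.ht.2], hσ.sv.contDiffAt (isOpen_Ioo.mem_nhds m),
    hσ.sc.contDiffAt (isOpen_Ioo.mem_nhds m), j1, j2, j3, j4, j5, j6⟩

section
variable {S T : Sq} {t : ℝ} {n H : ℤ} {Ls : List (ℤ × ℝ)}

/-- the summed perturbation of the coefficients, absolute time -/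
theorem coef_sum (h : K1 c) (bi : S.BInv c n Ls H) (hU : 0 ≤ U) (hW : S.Wp c n H ≤ U)
    (C : TSC c M t S n H T (eta c U) (4 * c.CG * c.L * eta c U ^ 2)) {j : ℤ} (h1 : n < j)
    (h2 : j ≤ H) : ∑ i ∈ Ico (n + 1) j, |S.fr (i + 1) j| *
      (|T.a (i - n) - S.a i| * S.wp c n i + |T.b (i - n) - S.b i| * S.wp c n (i - 1))
      ≤ 1 / 10000 * S.wp c n j := by
  set v := 4 * c.CG * c.L * eta c U ^ 2 with hv
  have e0 := eta_pos h U
  have cg := h.nm.cg
  have L0 := h.L0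
  obtain v0 : 0 ≤ v := by (clear * - cg L0 e0; positivity)
  have wj := wp_pos (c := c) S h1
  obtain a1 : ∀ i ∈ Ico (n + 1) j, |S.fr (i + 1) j| *
      (|T.a (i - n) - S.a i| * S.wp c n i + |T.b (i - n) - S.b i| * S.wp c n (i - 1)) ≤
      2000 * c.CG * v * (|S.fr (i + 1) j| * c.L * S.wp c n i ^ 2) +
        2000 * c.CG * eta c U * S.wp c n j * exp (-(3 / 8 * S.chi c n i)) := by
    intro i hi
    obtain ⟨i1, i2⟩ := mem_Ico.1 hi
    obtain ⟨b1, b2, -⟩ := C.coef i (by omega) (by omega)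
    obtain wi := wp_pos (c := c) S (n := n) (j := i) (by omega)
    obtain b3 := fr_le bi (i := i) (by omega) i2 h2
    obtain b4 := chi_nonneg h.nm S (i := n) (j := i) (by omega)
    obtain b5 : exp (c.a / 8 * S.chi c n i) * exp (-S.chi c n i / 2) ≤
        exp (-(3 / 8 * S.chi c n i)) := by
      rw [← exp_add]; exact exp_le_exp.2 (by nlinarith only [b4, h.a8])
    obtain b6 : |S.fr (i + 1) j| * c.L * S.wp c n i * exp (-S.chi c n i / 2) ≤
        S.wp c n j * exp (-(3 / 8 * S.chi c n i)) := by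
      have := mul_le_mul_of_nonneg_right b3 (exp_pos (-S.chi c n i / 2)).le
      linarith only [this, mul_le_mul_of_nonneg_left b5 wj.le]
    have b7 := mul_le_mul_of_nonneg_left
      (add_le_add (mul_le_mul_of_nonneg_right b1 wi.le) b2) (abs_nonneg (S.fr (i + 1) j))
    obtain b8 := mul_le_mul_of_nonneg_left b6 (show 0 ≤ 2000 * c.CG * eta c U by positivity)
    linarith only [b7, b8]
  refine (sum_le_sum a1).trans ?_
  rw [sum_add_distrib, ← mul_sum, ← mul_sum]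
  obtain a2 : ∑ i ∈ Ico (n + 1) j, |S.fr (i + 1) j| * c.L * S.wp c n i ^ 2 ≤ exp U * S.wp c n j := by
    refine (S.DD_le_AA c (ξ := S.fr (n + 1)) (by rw [S.fr_self]; exact one_ne_zero)
      (show n + 1 ≤ j by omega)).trans (mul_le_mul_of_nonneg_right ?_ wj.le)
    exact (S.AA_mono c _ _ h2).trans ((exp_Wp S n H).symm.trans_le (exp_le_exp.2 hW))
  obtain a3 := (geo h.nm bi.kz.1 (show n + 1 ≤ j by omega)).trans
    ((exp_le_exp.2 (by linarith only [h.nm.bl_ge, h.lam])).trans h.nm.ebl)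
  obtain a4 : v * exp U = 144 * (c.CG * c.cb) := by
    rw [hv, vv h, mul_assoc, ← exp_add]; simp
  obtain a5 : eta c U ≤ 1 := (eta_le h U).trans (by
    obtain this : exp (-U / 2) ≤ 1 := exp_le_one_iff.2 (by linarith only [hU])
    linarith only [this])
  have a6 := h.il
  obtain a7 := mul_le_mul_of_nonneg_left h.cb1 (show 0 ≤ c.CG by linarith only [cg])
  obtain a8 : 1 / (2 * c.lam ^ 2) = 1 / c.lam ^ 2 / 2 := by rw [div_div, mul_comm]
  obtain a9 := mul_le_mul_of_nonneg_left a2 (show 0 ≤ 2000 * c.CG * v by positivity)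
  obtain a10 := mul_le_mul_of_nonneg_left a3
    (show 0 ≤ 2000 * c.CG * eta c U * S.wp c n j by positivity)
  obtain a11 : 2000 * c.CG * v * (exp U * S.wp c n j) ≤ 1 / 20000 * S.wp c n j := by
    rw [show 2000 * c.CG * v * (exp U * S.wp c n j) = 2000 * c.CG * (v * exp U) * S.wp c n j by ring,
      a4]
    exact mul_le_mul_of_nonneg_right (by linarith only [a6, a7]) wj.le
  obtain a12 : 2000 * c.CG * eta c U * S.wp c n j * (1 / (2 * c.lam ^ 2)) ≤
      1 / 20000 * S.wp c n j := by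
    rw [a8, show 2000 * c.CG * eta c U * S.wp c n j * (1 / c.lam ^ 2 / 2) =
      1000 * (c.CG * (1 / c.lam ^ 2)) * eta c U * S.wp c n j by ring]
    refine mul_le_mul_of_nonneg_right ?_ wj.le
    obtain this : 0 ≤ c.CG * (1 / c.lam ^ 2) := by (clear * - cg; positivity)
    nlinarith only [a5, e0, a6]
  linarith only [a9, a10, a11, a12]
end

/-- the tube -/
theorem tube (h : K1 c) {H n : ℤ} (hn : n + d.n ≤ H)
    (C : TSC c M d.t (d.S M) d.n H (σ.orb M d.t) (eta c U) (4 * c.CG * c.L * eta c U ^ 2)) :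
    JTube (d.sk c M) n (exp (-U)) 0 (exp (-U / 2)) 0 d.t d.t (d.O M) (σ.orb M d.t) := by
  refine ⟨(exp_pos _).le, (exp_pos _).le, by simp, fun l l0 l1 => ?_⟩
  obtain a1 := C.ts1 (l + d.n) (by omega) (by omega)
  rw [add_sub_cancel_right, vv h] at a1
  have a2 : (d.S M).wp c d.n (l + d.n) ≤ (d.sk c M).w4 l := (le_fold_max _).2 (Or.inl le_rfl)
  have a3 : 0 ≤ (d.S M).wp c d.n (l + d.n) := (d.S M).wh_nonneg c _ _ _
  obtain a4 : exp (-(d.S M).chi c d.n (l + d.n) / 2) ≤ exp (-(d.sk c M).chi 0 l / 4) := by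
    rw [chi_sk]
    exact exp_le_exp.2 (by linarith only [l0, chi_nonneg h.nm (d.S M) (show d.n ≤ l + d.n by omega)])
  have a5 := eta_le h U
  obtain a6 : 144 * (c.CG * c.cb) ≤ 1 / 4 := by linarith only [h.cb1, h.il1]
  obtain a7 := mul_le_mul (mul_le_mul_of_nonneg_right a6 (exp_pos (-U)).le) a2 a3 (by positivity)
  obtain a8 := mul_le_mul a5 a4 (exp_pos _).le (by positivity)
  have a9 := mul_pos (exp_pos (-U / 2)) (exp_pos (-(d.sk c M).chi 0 l / 4))
  refine a1.trans ?_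
  unfold Sk.mu
  linarith only [a7, a8, a9]

theorem tcs (h : K1 c) {H n : ℤ} {Ls} (bi : (d.S M).BInv c d.n Ls H) (hn : n + d.n ≤ H)
    (hW : (d.S M).Wp c d.n H ≤ U) (h1 : 1 ≤ n) (hw : log ((d.sk c M).w n) ≤ U + 2)
    (C : TSC c M d.t (d.S M) d.n H (σ.orb M d.t) (eta c U) (4 * c.CG * c.L * eta c U ^ 2)) :
    TCs (d.O M) (σ.orb M d.t) (d.sk c M) n (1 / 10000) := by
  have hU := (Wp0 _ _ _).trans hW
  refine ⟨fun j j1 j2 => ?_, fun l l0 l1 => ?_⟩
  · obtain a := coef_sum h bi hU hW C (j := j + d.n) (by omega) (by omega)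
    rw [add_comm d.n 1, ← sum_Ico_add'] at a
    refine le_of_eq_of_le (sum_congr rfl fun l _ => ?_) a
    simp only [Dat.O, Dat.sk, Sq.fr_shift, add_sub_cancel_right]
    simp only [Sq.shift, add_right_comm l 1 d.n, sub_add_eq_add_sub]
  · rcases lt_or_ge (l + d.n) H with l2 | l2
    · obtain a := C.tube (l + d.n) (by omega) l2
      rw [add_sub_cancel_right, div_eq_mul_one_div] at a
      exact a.trans (by linarith only [h.il1])
    obtain rfl : l = n := by omega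
    obtain a1 := C.ts1 (l + d.n) (by omega) hn
    rw [add_sub_cancel_right, vv h] at a1
    obtain w0 := wp_pos (c := c) (d.S M) (show d.n < l + d.n by omega)
    have a2 : (d.S M).wp c d.n (l + d.n) ≤ exp (U + 2) := (log_le_iff_le_exp w0).1 hw
    obtain a3 : exp (-U) * exp (U + 2) ≤ 9 := by
      rw [← exp_add, show -U + (U + 2) = 1 + 1 by ring, exp_add]
      nlinarith only [exp_one_lt_d9, exp_pos 1]
    obtain a4 : exp (-(d.S M).chi c d.n (l + d.n) / 2) ≤ 1 := exp_le_one_iff.2 (by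
      linarith only [l2, hn, h1, chi_nonneg h.nm (d.S M) (show d.n ≤ l + d.n by omega)])
    obtain a5 : exp (-U / 2) ≤ 1 := exp_le_one_iff.2 (by linarith only [hU])
    obtain a6 := mul_le_mul (eta_le h U) a4 (exp_pos _).le (by positivity)
    have a7 := (mul_le_mul_of_nonneg_left a2 (exp_pos (-U)).le).trans a3
    obtain a8 : 0 ≤ c.CG * c.cb := mul_nonneg (by linarith only [h.nm.cg]) h.cb0.le
    have a9 := mul_le_mul_of_nonneg_left a7 a8
    refine a1.trans ?_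
    linarith only [a5, a6, a9, h.cb1, h.il1]

theorem TCp_mono {t t' : ℝ} {S S' : Sq} {k : Sk} {n : ℤ} {δ δ' : ℝ} (H : TCp M t t' S S' k n δ)
    (le : δ ≤ δ') : TCp M t t' S S' k n δ' :=
  ⟨fun l a b => (H.ab l a b).trans le, fun l a b => (H.gt l a b).trans le⟩

/-- the horizon of the seed -/
theorem frJ (hB : B1_s c) {H : ℤ} (fr : d.toFd.Fr c M H) (ok : (d.S M).OK c)
    (hσ : σ.OK K c Ex M y d.toFd) : d.toFd.Fr c M σ.J ∧
    (d.S M).rho d.ξ d.n σ.J ^ 2 * exp ((d.S M).Wp c d.n σ.J) ≤ c.cb * c.L := by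
  obtain ⟨-, -, ⟨LJ, rJ, br⟩, -⟩ := hσ.hor
  refine ⟨⟨fr.ht, fr.hv, fr.out, ((hB Ex _ ok).1 _ _ _ _ _ (st_fr fr.out.1) br.1).2, _,
    (hB Ex _ ok).2.1 _ _ _ _ _ fr.out br.1 br.2.1⟩, le_trans ?_ br.2.1⟩
  exact mul_le_mul_of_nonneg_left (exp_le_exp.2 (le_max_left _ _)) (sq_nonneg _)

/-- the transfer at a horizon `H ≥ x` -/
theorem core (h : K1 c) (hS : SOK_s c) (hB : B1_s c) (hR : RHO_s c) (hT : TS_s c) (hF : FR_s K c)
    (hM : M.OK c) (P : d.Pre c Ex M)
    (hV : d.V c M ≤ (2 + c.κ) * ((d.S M).Wp c d.n d.p + c.lam)) (hy : y ≤ c.C0 * d.V c M)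
    (hσ : σ.OK K c Ex M y d.toFd) {x : ℤ × ℝ} (hx : x ∈ (d.p, d.r) :: d.Ls)
    (hW : (d.S M).Wp c d.n x.1 ≤ U)
    (hρ : (d.S M).rho d.ξ d.n d.p ^ 2 * exp U ≤ c.cb * c.L) (hU : 4 * U ≤ y) :
    (∃ H Ls, x.1 ≤ H ∧ H ≤ d.p ∧ (d.S M).BInv c d.n Ls H ∧ (d.S M).Wp c d.n H ≤ U ∧
      TSC c M d.t (d.S M) d.n H (σ.orb M d.t) (eta c U) (4 * c.CG * c.L * eta c U ^ 2)) ∧
    |σ.c d.t - (d.S M).X d.n| ≤ eta c U ∧
    |(σ.orb M d.t).nu1 (x.1 - d.n) - (σ.orb M d.t).nu1 (σ.J - d.n)|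
      ≤ exp (-(d.S M).chi c d.n x.1 / 2) + exp (-y / 2) := by
  have U0 := (Wp0 _ _ _).trans hW
  have cp := hy.trans (chi_p h hF hM P hV)
  obtain ⟨H, H1, H0, fr, H2, H3⟩ := hor h hF hM P (hU.trans cp) hx hW
  have ok : (d.S M).OK c := ((hS M hM d.t fr.ht).2.1 d.v fr.hv).2
  obtain ⟨fJ, bJ⟩ := frJ hB fr ok hσ
  have fp := ((hF Ex M d hM P).1 _ List.mem_cons_self).fr
  have E := (hF Ex M d hM P).1 x hx
  obtain ⟨Lp, bp⟩ := fp.binv
  obtain ⟨LH, bH⟩ := fr.binv
  obtain ⟨LJ, bj⟩ := fJ.binv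
  obtain a4 : c.a ≤ 1 / 4 := by linarith only [h.a8]
  have r1 := FR.rho_sq a4 h.cbL hR ok fr.out U0 fp.rinv bp fr.rinv bH (hU.trans cp) H3 hρ
  have r2 := FR.rho_sq a4 h.cbL hR ok fr.out U0 fp.rinv bp fJ.rinv bj (hU.trans cp)
    (hU.trans hσ.hor.1) hρ
  obtain ⟨Ls, T1⟩ := tsh h hS hM hσ fr H2 r1 r2
  have C := hT _ _ _ _ _ _ _ _ _ _ T1
  refine ⟨⟨H, Ls, H1, H0, T1.hB, H2, C⟩, T1.d0, ?_⟩
  rcases le_total x.1 σ.J with le | le
  · obtain b : (d.S M).rho d.ξ d.n σ.J ^ 2 * exp ((d.S M).Wp c d.n σ.J) ≤ 4 * (c.cb * c.L) := by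
      linarith only [bJ, h.cbL]
    obtain ⟨L2, T2⟩ := tsh h hS hM hσ fJ le_rfl b b
    have := (hT _ _ _ _ _ _ _ _ _ _ T2).nu x.1 E.lt.1 le E.fr.rinv.whm
    rw [abs_sub_comm]
    exact this.trans (le_add_of_nonneg_right (exp_pos _).le)
  · have b1 := C.nu x.1 E.lt.1 H1 E.fr.rinv.whm
    have b2 := C.nu σ.J fJ.rinv.le (le.trans H1) fJ.rinv.whm
    obtain b3 : exp (-(d.S M).chi c d.n σ.J / 2) ≤ exp (-y / 2) :=
      exp_le_exp.2 (by linarith only [show y ≤ (d.S M).chi c d.n σ.J from hσ.hor.1])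
    rw [abs_sub_comm] at b1
    exact (abs_sub_le _ _ _).trans (add_le_add b1 (b2.trans b3))

theorem xcu_of (h : K1 c) (hS : SOK_s c) (hB : B1_s c) (hR : RHO_s c) (hT : TS_s c) (hF : FR_s K c)
    (hH : HIV_s c) (hI : FIT_s K c) (h2 : R2_s K c) (hb : TUBE_s K c) (h7 : D7_s K c)
    (h8 : D7S_s K c) : XCU_s K c := by
  intro f1 M hM d P y σ y0 y1 hσ n hn U hW hw hρ hU
  obtain ⟨x, hx, e⟩ := mem_F hn
  have hV := (hH f1.2.1 _ (fun _ _ _ _ _ _ a => a.1) M hM.ok d P).2.2.2.1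
  obtain ⟨⟨H, Ls, H1, -, bi, H2, C⟩, -, nu⟩ := core h hS hB hR hT hF hM.ok P hV y1 hσ hx
    (U := U) (by rw [e]; exact hW) hρ hU
  have O := hI f1 M hM d P
  obtain ⟨n1, n2⟩ := O.sk.1.F_mem n hn
  have On := OC_mono O hn n2
  obtain A := win h P y0 hσ d.t (by simpa using (rU_small h y0).1)
  have o2 : O2 c M d.t (σ.orb M d.t) := ⟨A.t0, A.t1, C.orb, A.bc, A.bv⟩
  have tb := tube h (e ▸ H1) C
  obtain O' := (h2 M _ _ _ _ _ On (by norm_num) _ _ o2 _ le_rfl (tcs h bi (e ▸ H1) H2 n1 hw C)).1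
  rw [mul_one] at O'
  refine ⟨⟨O', A⟩, tb, win h P y0 hσ, fun hs z hz zn hη => ?_, ?_⟩
  · have s1 := O.sk.1.sl1.trans (O.sk.1.sl_mono 1 n le_rfl n1)
    have s2 := h.lam
    have W0 : 0 ≤ (d.sk c M).W n := Wp0 _ _ _
    set s := (d.sk c M).sl n
    obtain z1 : (d.sk c M).sz n (exp (-U)) 0 (exp (-U / 2)) ≤ exp (-99 * s) := by
      obtain b1 : exp (-U) * exp ((d.sk c M).W n) ≤ exp (-100 * s) := by
        rw [← exp_add]; exact exp_le_exp.2 (by linarith only [s2, hs, s1])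
      obtain b2 : exp (-U / 2) ≤ exp (-100 * s) := exp_le_exp.2 (by linarith only [W0, hs])
      obtain b3 : exp (-99 * s) = exp (-100 * s) * exp s := by rw [← exp_add]; congr 1; ring
      have b4 := add_one_le_exp s
      unfold Sk.sz
      nlinarith only [b1, b2, b3, s2, s1, b4, exp_pos (-100 * s)]
    obtain z0 : 0 ≤ (d.sk c M).sz n (exp (-U)) 0 (exp (-U / 2)) := by
      unfold Sk.sz; rw [zero_mul]; positivity
    obtain ⟨t1, t2⟩ := hb M _ _ _ _ _ On _ _ o2 _ _ _ 0 le_rfl (by linarith only [h.C0]) tb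
      (z1.trans (exp_le_exp.2 (by linarith only [s2, s1])))
    obtain z2 : (d.sk c M).sz n (exp (-U)) 0 (exp (-U / 2)) * exp ((0 + 32) * s) ≤ exp (-25 * s) := by
      refine (mul_le_mul_of_nonneg_right z1 (exp_pos _).le).trans ?_
      rw [← exp_add]; exact exp_le_exp.2 (by linarith only [s2, s1])
    obtain this := (h8 M _ _ _ _ _ On (by norm_num) _ _ o2 _ z2
      (TCp_mono t1 (mul_le_mul_of_nonneg_left (exp_le_exp.2 (by linarith only [s2, s1])) z0)) t2 z hz zn).2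
      (h7 f1 M hM.ok d P z hz hη)
    rwa [mul_one] at this
  · rw [e, add_sub_cancel_right] at nu
    rw [chi_sk]; exact nu

theorem xc2_of (h : K1 c) (hI : FIT_s K c) (hX : XCU_s K c) : XC2_s K c := by
  intro f1 M hM d P y σ y0 y1 hσ n hn G G0 G1 ad hU
  have O := hI f1 M hM d P
  obtain ⟨n1, n2⟩ := O.sk.1.F_mem n hn
  have s0 := O.sk.1.sl_mono 1 n le_rfl n1
  have s1 := O.sk.1.sl1.trans s0
  have s2 := h.lam
  have s3 := O.sk.1.hi n n1 n2
  have W0 : 0 ≤ (d.sk c M).W n := Wp0 _ _ _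
  obtain s4 : 300 * (d.sk c M).sl n ≤ G * (d.sk c M).sl n :=
    mul_le_mul_of_nonneg_right G0 (by linarith only [s1, s2])
  obtain X := hX f1 M hM d P y σ y0 y1 hσ n hn ((d.sk c M).W n + G * (d.sk c M).sl n) (by linarith only [s1, s2, s4])
    (by linarith only [s0, s1, s2, s3, s4]) (by
      have := mul_le_mul_of_nonneg_right ad (exp_pos (G * (d.sk c M).sl n)).le
      rw [← exp_add, neg_mul, neg_add_cancel, exp_zero, mul_assoc, ← exp_add] at this
      exact this.trans h.cbL) hU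
  refine ⟨X.jc, ⟨_, _, X.tube, ?_⟩, X.win, X.d7 (by linarith only [s1, s2, s4]), X.nu.trans (add_le_add
    (exp_le_exp.2 ?_) (exp_le_exp.2 (by linarith only [hU, s1, s2, W0, s4, h.nm.bl_ge])))⟩
  · unfold Sk.sz
    rw [zero_mul, add_zero, ← exp_add, neg_mul, div_mul_eq_mul_div]
    set q := G * (d.sk c M).sl n
    obtain b1 : exp (-((d.sk c M).W n + q) + (d.sk c M).W n) ≤ exp (-(q / 2)) :=
      exp_le_exp.2 (by linarith only [s1, s2, s4])
    obtain b2 : exp (-((d.sk c M).W n + q) / 2) ≤ exp (-(q / 2)) := exp_le_exp.2 (by linarith only [W0])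
    obtain b3 : exp (-(q / 3)) = exp (-(q / 2)) * exp (q / 6) := by rw [← exp_add]; congr 1; ring
    have b4 := add_one_le_exp (q / 6)
    nlinarith only [b1, b2, b3, s1, s2, s4, b4, exp_pos (-(q / 2))]
  · rw [chi_sk]
    linarith only [n1, chi_nonneg h.nm (d.S M) (show d.n ≤ n + d.n by omega)]

/-- the history sum depends little on the level -/
theorem hist_tail (h : K1 c) (hM : M.OK c) {t : ℝ} (ht : TI t) {S : Sq} (o : IsOrb c M t S 0)
    (ok : S.OK c) {ξ : ℤ → ℝ} {n : ℤ} {y' : ℝ} (hn : 0 ≤ n) (y0 : 0 ≤ y) (le : y ≤ y')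
    (h1 : c.bl / 4 < y') (tm : S.Tame c ξ n y') :
    |M.hist c t S ξ n y' - M.hist c t S ξ n y| ≤ 4000 * exp (-y / 2) := by
  obtain ⟨x0, -, tm⟩ := tm
  obtain ⟨s, w, A, Rg, s0, s1, -, s2, -, mj, -, wn, -, dc, -⟩ := tm.resolve_left (not_le.2 h1)
  obtain k0 : 0 < c.chK := by linarith only [h.nm.chK_lo]
  obtain ⟨N1, N2⟩ := S.Nw_spec c k0 h.nm.chK_bl n y
  obtain ⟨N3, N4⟩ := S.Nw_spec c k0 h.nm.chK_bl n y'
  obtain N5 : (S.Nw c n y : ℤ) ≤ S.Nw c n y' := by exact_mod_cast N2 _ (le.trans N3)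
  obtain e1 : S.st c n y' ≤ S.st c n y := max_le_max le_rfl (by omega)
  obtain e2 : S.st c n y ≤ n := max_le hn (by omega)
  obtain e3 : s ≤ S.st c n y' := by
    rcases s2 with s2 | s2
    · obtain this : (S.Nw c n y' : ℤ) ≤ ((n - s).toNat : ℕ) := by
        exact_mod_cast N4 (n - s).toNat (by rw [show n - ((n - s).toNat : ℤ) = s by omega]; exact s2)
      exact le_max_of_le_right (by omega)
    · rw [s2.1]; exact le_max_left _ _
  have x1 : 0 < |ξ n| := abs_pos.2 x0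
  unfold Mdl.hist
  rw [← Ico_union_Ico_eq_Ico e1 e2, sum_union (Ico_disjoint_Ico_consecutive _ _ _),
    add_sub_add_left_eq_sub, add_sub_cancel_right]
  refine (abs_sum_le_sum_abs _ _).trans ?_
  obtain g := geob h.nm S (s := S.st c n y') (m := S.st c n y - 1) (by omega)
  rw [sub_add_cancel] at g
  refine le_trans (sum_le_sum (g := fun i => 800 * exp (-y / 2) *
    exp (-(3 / 8 * S.chi c i (S.st c n y - 1)))) fun i hi => ?_) ?_
  · obtain ⟨i1, i2⟩ := mem_Ico.1 hi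
    obtain e4 : S.st c n y = n - S.Nw c n y := by
      unfold Sq.st at i2 ⊢
      omega
    have c1 := S.chi_add c (i := i) (j := S.st c n y) (l := n) i2.le e2
    obtain c2 := S.chi_mono c k0.le h.nm.chK_bl (i := i) (i' := i) (j := S.st c n y - 1)
      (j' := S.st c n y) le_rfl (by omega)
    obtain c3 := chi_nonneg h.nm S (i := i) (j := S.st c n y - 1) (by omega)
    rw [← e4] at N1
    obtain c4 : exp (-(1 - 3 * c.a) * S.chi c i n) ≤
        exp (-y / 2) * exp (-(3 / 8 * S.chi c i (S.st c n y - 1))) := by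
      rw [← exp_add]
      exact exp_le_exp.2 (by nlinarith only [y0, N1, c1, c2, c3, h.a8])
    obtain ⟨p0, p1⟩ := ok.Pb_le (θ := 15 / 1000) (by norm_num) (i := i) (j := n) (by omega)
    obtain m1 := mj.2 i (by omega) (by omega)
    rw [one_mul] at m1
    obtain d1 := (dc i (by omega) (by omega)).1
    obtain g1 : |M.gt t S i| ≤ 2 := by
      obtain a := abs_le.1 (hM.t_all t _ _ ht (o.box i (by omega)) (o.box (i - 1) (by omega)))
      obtain b : c.dl ≤ 1 := exp_le_one_iff.2 (by linarith only [h.nm.bl_ge, h.lam])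
      unfold Mdl.gt
      rw [abs_le]; constructor <;> linarith only [b, a.1, a.2]
    obtain d2 : S.Pb i n * |ξ i| ≤ 400 * exp (-(1 - 3 * c.a) * S.chi c i n) * |ξ n| := by
      have := mul_le_mul p1 m1 (abs_nonneg _) (p0.le.trans p1)
      linarith only [d1, this, mul_le_mul_of_nonneg_left wn (exp_pos (-(1 - 3 * c.a) * S.chi c i n)).le]
    rw [abs_mul, abs_mul, abs_mul, abs_pow, abs_neg, abs_one, one_pow, one_mul, abs_of_pos p0,
      abs_div, ← mul_div_assoc]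
    have d3 := (div_le_iff₀ x1).2 d2
    obtain d4 := mul_le_mul d3 g1 (abs_nonneg _) (by positivity)
    linarith only [c4, d4]
  · rw [← mul_sum]
    nlinarith only [g, exp_pos (-y / 2)]

theorem d8_le {k : Sk} (o : k.OK1 c) (j : ℤ) :
    k.d8 j ≤ exp (k.W k.N + 10 * k.sl k.N) := by
  refine (fold_max_le _).2 ⟨(exp_pos _).le, fun x hx => ?_⟩
  have xD := (mem_filter.1 hx).1
  obtain ⟨xF, xN⟩ := o.D_mem x xD
  obtain ⟨x1, -⟩ := o.F_mem x xF
  obtain ⟨nF, n1, -⟩ := o.nx_mem x xN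
  obtain ⟨-, n2⟩ := o.F_mem _ nF
  obtain a1 : k.σ x ≤ k.sl k.N := o.sl_mono _ _ (by omega) n2
  obtain a2 := (o.maj x xD).1.trans (o.W_mono _ _ (by omega) n2)
  have a3 := o.lo x xF
  have a4 := o.W_mono 1 x le_rfl x1
  have a5 := o.sl_mono x k.N x1 xN.le
  have e0 := (o.η_mem x xD).1
  have w0 := o.w_pos x x1
  rw [o.W1] at a4
  obtain e : k.V x 1 = exp (-log (k.η x) - log (k.w x)) := by
    rw [Sk.V, pow_one, exp_sub, exp_neg, exp_log e0, exp_log w0]; field_simp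
  rw [e, ← exp_add]
  exact exp_le_exp.2 (by linarith only [a1, a2, a3, a4, a5])

/-- the first jet of the seed orbit -/
theorem jet1 (h : K1 c) {k : ℕ} (hM : M.OKk c k) {t : ℝ} (A : σ.At K c t) {N : ℤ} (h1 : 1 ≤ N)
    (h0 : (σ.orb M t).fr 1 N ≠ 0) :
    deriv (fun s => (σ.orb M s).X N) t = (deriv σ.v t - (σ.orb M t).nu1 N * deriv σ.c t +
      ∑ i ∈ Ioo 0 N, (σ.orb M t).fr (i + 1) N / (σ.orb M t).fr 1 N * M.gt t (σ.orb M t) i) *
        (σ.orb M t).fr 1 N := by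
  have L0 := h.L0
  obtain key := (σ.orb M t).voc (Z := fun j => iteratedDeriv 1 (M.fam 1 σ.v σ.c j) t)
    (q := M.gt t (σ.orb M t)) (s := 1) (n := N) (fun j j1 _ => by
      obtain this := Mdl.fam_jet (s := 1) (m := 1) h.big hM (by exact_mod_cast le_top) ⟨A.t0, A.t1⟩
        (by linarith only [L0, A.bv]) (by linarith only [L0, A.bc]) A.sv A.sc one_pos
        (by exact_mod_cast Nat.le_add_left 1 K) j1
      rw [rest_one, add_zero, if_pos rfl] at this
      exact this) h1 le_rfl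
  simp only [iteratedDeriv_one] at key
  rw [Mdl.fam_self, Mdl.fam_lt (j := 1 - 1) (by norm_num)] at key
  refine key.trans ?_
  rw [add_mul, sum_mul, show Ioo 0 N = Ico 1 N from by ext i; simp only [mem_Ioo, mem_Ico]; omega]
  congr 1
  · rw [Sq.nu1, one_add_one_eq_two]
    field_simp
    ring
  · exact sum_congr rfl fun i _ => by field_simp

theorem num5 (h : K1 c) {W sl : ℝ} (W0 : 0 ≤ W) (s1 : c.lam ≤ sl) :
    c.KS * (4 * c.CG * c.L * eta c (4 * W) ^ 2 * exp W + eta c (4 * W)) *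
      (2 * exp (W + 10 * sl)) ≤ exp (-W) * exp (11 * sl) := by
  obtain et : eta c (4 * W) ≤ exp (-2 * W) / 100000 := by
    have := eta_le h (4 * W)
    rwa [show -(4 * W) / 2 = -2 * W by ring] at this
  obtain b1 : exp (-(4 * W)) * exp W ≤ exp (-2 * W) := by
    rw [← exp_add]; exact exp_le_exp.2 (by linarith only [W0])
  obtain b2 : 144 * (c.CG * c.cb) ≤ 1 := by linarith only [h.cb1, h.il1]
  obtain b3 : 4 * c.CG * c.L * eta c (4 * W) ^ 2 * exp W + eta c (4 * W) ≤ 2 * exp (-2 * W) := by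
    rw [vv h, mul_assoc]
    nlinarith only [et, b1, b2, mul_pos (exp_pos (-(4 * W))) (exp_pos W), exp_pos (-2 * W)]
  obtain b4 : 4 * c.KS ≤ exp sl := by
    refine le_trans ?_ (exp_le_exp.2 s1)
    rw [h.nm.expL]; unfold Cs.KS; linarith only [h.LG, h.nm.cg]
  obtain b5 : exp (-W) * exp (11 * sl) = exp sl * (exp (-2 * W) * exp (W + 10 * sl)) := by
    simp only [← exp_add]; congr 1; ring
  obtain b6 : 0 ≤ c.KS := by unfold Cs.KS; linarith only [h.nm.cg]
  obtain b7 := mul_le_mul_of_nonneg_right (mul_le_mul_of_nonneg_left b3 b6)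
    (show 0 ≤ 2 * exp (W + 10 * sl) by positivity)
  rw [b5]
  nlinarith only [b7, b4, mul_pos (exp_pos (-2 * W)) (exp_pos (W + 10 * sl))]

theorem num1 (h : K1 c) {W V d0 : ℝ} (y0 : 0 ≤ y) (y1 : y ≤ c.C0 * V)
    (hV : V ≤ (2 + c.κ) * (W + c.lam)) (hW : c.lam ≤ W) (h0 : |d0| ≤ eta c (4 * W)) :
    c.S0 y * |d0| ≤ exp (-W) := by
  have ck := h.ck
  have l1 := h.lam
  obtain b1 : sqrt c.a ≤ 1 / (4 * (c.C0 * (2 + c.κ))) := sqrt_le_iff.2 ⟨by positivity, h.aC⟩
  obtain b2 : y ≤ c.C0 * (2 + c.κ) * (W + c.lam) := by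
    rw [mul_assoc]; exact y1.trans (mul_le_mul_of_nonneg_left hV (by linarith only [h.C0]))
  obtain b3 := mul_le_mul b1 b2 y0 (by positivity)
  generalize c.C0 * (2 + c.κ) = q at *
  rw [show 1 / (4 * q) * (q * (W + c.lam)) = (W + c.lam) / 4 by field_simp] at b3
  obtain b4 : c.S0 y ≤ exp W := exp_le_exp.2 (by linarith only [hW, l1, b3])
  obtain b5 : eta c (4 * W) ≤ exp (-(4 * W) / 2) := (eta_le h _).trans (by
    linarith only [exp_pos (-(4 * W) / 2)])
  refine (mul_le_mul b4 (h0.trans b5) (abs_nonneg _) (exp_pos _).le).trans ?_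
  rw [← exp_add]; exact exp_le_exp.2 (by linarith only [])

theorem fin {v1 c1 n1 n2 h1 h2 s1 s2 e F G : ℝ} (t1 : |v1 - n2 * c1 - h1| ≤ e)
    (t2 : |(n1 - n2) * c1| ≤ e) (t3 : |h2 - h1| ≤ e) (t4 : |s1 - s2| ≤ e * F) (e0 : 0 ≤ e)
    (t7 : 1 ≤ F) (t6 : 8 * F ≤ G) : |v1 - n1 * c1 + s1 - (h2 + s2)| ≤ G * e / 2 := by
  obtain ⟨u1, u2⟩ := abs_le.1 t1
  obtain ⟨u3, u4⟩ := abs_le.1 t2
  obtain ⟨u5, u6⟩ := abs_le.1 t3
  obtain ⟨u7, u8⟩ := abs_le.1 t4
  have u9 := mul_le_mul_of_nonneg_left t6 e0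
  have u10 := mul_le_mul_of_nonneg_left t7 e0
  rw [abs_le]
  constructor <;> linarith only [u1, u4, u6, u7, u9, u10, u2, u3, u5, u8]

theorem jx_of (h : K1 c) (hS : SOK_s c) (hB : B1_s c) (hR : RHO_s c) (hT : TS_s c) (hF : FR_s K c)
    (hH : HIV_s c) (hI : FIT_s K c) (hG : BIG_s K c) : JX_s K c := by
  intro f1 M hM sd d P hi hσ
  obtain ⟨ok, out, WV, hV, -⟩ := hH f1.2.1 _ (fun _ _ _ _ _ _ a => a.1) M hM.ok d P
  have l1 := h.lam
  have l2 := h.nm.bl_ge
  have y1 : d.y c M ≤ c.C0 * d.V c M := Int.floor_le _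
  have y2 : c.C0 * d.V c M < d.y c M + 1 := Int.lt_floor_add_one _
  have y3 : c.bl / 2 < c.C0 * d.V c M := hi
  obtain y0 : c.bl / 4 < d.y c M := by linarith only [l1, l2, y2, y3]
  have W0 := Wp0 (c := c) (d.S M) d.n d.p
  obtain y4 : 16 * d.V c M ≤ d.y c M := by nlinarith only [l1, l2, y2, y3, WV, W0, h.C0]
  have O := hI f1 M hM d P
  have G := (hG f1 M hM.ok d P).2.1
  have s1 : c.lam ≤ (d.sk c M).sl (d.sk c M).N :=
    O.sk.1.sl1.trans (O.sk.1.sl_mono 1 _ le_rfl (O.sk.1.F_mem _ O.hn).1)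
  obtain s2 : 64 * (d.sk c M).sl (d.sk c M).N ≤ d.s0 c M :=
    (mul_le_mul_of_nonneg_right h.C0 (by linarith only [l1, s1])).trans (G _ O.hn).2
  refine ⟨fun m _ t ht => ?_, fun s m D ν R v => ?_, fun s a1 a2 a3 => ?_⟩
  · obtain A := win h P y0 hσ t (abs_lt.2 ⟨by linarith only [ht.1], by linarith only [ht.2]⟩)
    exact (Mdl.fam_smooth (s := 1) h.big hM (by exact_mod_cast le_top) ⟨A.t0, A.t1⟩
      (by linarith only [A.bv, h.L0]) (by linarith only [A.bc, h.L0]) A.sv A.sc (m - d.n)).contDiffWithinAt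
  · obtain ⟨r, hx⟩ := v.free
    have E := (hF _ M d hM.ok P).1 _ hx
    obtain ⟨⟨H, Ls, H1, -, -, -, C⟩, -⟩ := core h hS hB hR hT hF hM.ok P hV y1 hσ hx
      (U := d.W c M m) le_rfl
      (v.adm.trans ((exp_le_one_iff.2 (by linarith only [l1, s1, s2, v.sl.1])).trans h.cbL))
      (by linarith only [WV, W0, y4, show d.W c M m ≤ d.V c M from E.lev.2])
    have a : |d.xs c M sd m - d.toFd.f M m| ≤ (d.S M).wp c d.n m / 100 := C.close m E.lt.1 H1
    rw [show (d.S M).wp c d.n m = d.wq M m from E.fr.rinv.whm] at a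
    have b1 := abs_sub_abs_le_abs_sub (d.xs c M sd m) (d.toFd.f M m)
    have b2 := abs_sub_abs_le_abs_sub (d.toFd.f M m) (d.xs c M sd m)
    rw [abs_sub_comm] at b2
    have b3 : 0 ≤ d.wq M m := abs_nonneg _
    unfold Dat.wq at *
    constructor <;> linarith only [a, b1, b2]
  change s ≤ (d.S M).Wp c d.n d.p at a2
  change _ ≤ exp (-2 * (d.S M).Wp c d.n d.p) at a3
  change _ ≤ exp (s - (d.S M).Wp c d.n d.p) * _
  obtain WN : (d.sk c M).W (d.sk c M).N = (d.S M).Wp c d.n d.p := by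
    simp only [Dat.sk, sub_add_cancel]
  set W := (d.S M).Wp c d.n d.p with hW
  set sl := (d.sk c M).sl (d.sk c M).N
  have E := (hF _ M d hM.ok P).1 _ List.mem_cons_self
  obtain ⟨⟨H, Ls, H1, H2, -, -, C⟩, d0, nu⟩ := core h hS hB hR hT hF hM.ok P hV y1 hσ
    List.mem_cons_self (U := 4 * W) (by simp only; linarith only [l1, a1, a2, s1, s2]) (by
      have b := pow_le_pow_left₀ (abs_nonneg _) a3 2
      rw [sq_abs, ← exp_nat_mul] at b
      refine (mul_le_mul_of_nonneg_right b (exp_pos _).le).trans (le_trans ?_ h.cbL)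
      rw [← exp_add]; exact exp_le_one_iff.2 (by push_cast; linarith only [])) (by linarith only [y4, WV])
  obtain rfl : H = d.p := le_antisymm H2 H1
  have np : d.n < d.p := E.lt.1
  have cl : |d.xs c M sd d.p - d.toFd.f M d.p| ≤ (d.S M).wp c d.n d.p / 100 :=
    C.close d.p np le_rfl
  rw [show (d.S M).wp c d.n d.p = d.wq M d.p from E.fr.rinv.whm] at cl
  have q0 : 0 < d.wq M d.p := abs_pos.2 E.fr.rinv.ne
  obtain x1 : |d.xs c M sd d.p| ≤ 2 * d.wq M d.p := by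
    have := abs_sub_abs_le_abs_sub (d.xs c M sd d.p) (d.toFd.f M d.p)
    unfold Dat.wq at *
    linarith only [cl, q0, this]
  obtain x0 : d.xs c M sd d.p ≠ 0 := by
    intro e
    rw [e, zero_sub, abs_neg] at cl
    unfold Dat.wq at *
    linarith only [cl, q0]
  obtain A := win h P y0 hσ d.t (by simpa using (rU_small h y0).1)
  obtain j1 : deriv (d.g c M sd d.p) d.t = _ * d.xs c M sd d.p :=
    jet1 h hM A (N := d.p - d.n) (by omega) x0
  -- the four errors
  obtain t1 : |deriv (d.seed c M sd).v d.t - ((d.seed c M sd).orb M d.t).nu1 ((d.seed c M sd).J - d.n)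
      * deriv (d.seed c M sd).c d.t - M.hist c d.t (d.S M) d.ξ d.n (d.y c M)| ≤ exp (-W) := by
    exact hσ.speed.trans (num1 h (by linarith only [l1, y4, a1, WV, a2, s1, s2]) y1 hV (by linarith only [l1, a1, a2, s1, s2]) d0)
  obtain t2 : |(((d.seed c M sd).orb M d.t).nu1 (d.p - d.n) -
      ((d.seed c M sd).orb M d.t).nu1 ((d.seed c M sd).J - d.n)) * deriv (d.seed c M sd).c d.t|
      ≤ exp (-W) := by
    have cp := y1.trans (chi_p h hF hM.ok P hV)
    obtain b1 : exp (-(d.S M).chi c d.n d.p / 2) ≤ exp (-W) := exp_le_exp.2 (by linarith only [l1, y4, a1, WV, a2, s1, s2, cp])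
    obtain b2 : exp (-d.y c M / 2) ≤ exp (-W) := exp_le_exp.2 (by linarith only [l1, y4, a1, WV, a2, s1, s2])
    obtain b3 := A.cj 1 le_rfl (by omega)
    rw [iteratedDeriv_one] at b3
    rw [abs_mul]
    obtain this := mul_le_mul (nu.trans (add_le_add b1 b2)) b3 (abs_nonneg _) (by positivity)
    linarith only [this, exp_pos (-W)]
  obtain t3 : |M.hist c d.t (d.S M) d.ξ d.n (c.C0 * d.V c M) - M.hist c d.t (d.S M) d.ξ d.n (d.y c M)|
      ≤ exp (-W) := by
    refine (hist_tail h hM.ok E.fr.ht ((hS M hM.ok d.t E.fr.ht).2.1 d.v P.hv).1 ok P.hn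
      (by linarith only [l1, y4, a1, WV, a2, s1, s2]) y1 (by linarith only [l1, y1, y3, y4, a1, WV, a2, s1, s2]) (P.tame _ le_rfl)).trans ?_
    obtain b1 : exp (-d.y c M / 2) * exp W ≤ exp (-W) := by
      rw [← exp_add]; exact exp_le_exp.2 (by linarith only [l1, y4, a1, WV, a2, s1, s2])
    nlinarith only [b1, l1, a1, a2, s1, s2, add_one_le_exp W, exp_pos (-d.y c M / 2)]
  have t4 := C.spd (2 * exp (W + 10 * sl))
    (by linarith only [l1, a1, a2, s1, s2, one_le_exp (show 0 ≤ W + 10 * sl by linarith only [l1, a1, a2, s1, s2])]) fun j j0 j2 => by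
      obtain b1 := O.fit.d8 (j - d.n) (by omega) (by simp only [Dat.sk]; omega)
      have b2 := d8_le O.sk.1 (j - d.n)
      rw [WN] at b2
      obtain b3 : (d.sk c M).w (j - d.n) = (d.S M).wp c d.n j := by simp only [Dat.sk, sub_add_cancel]
      rw [b3] at b1
      rw [show Ico (d.n + 1) j = Ico (1 + d.n) (j - d.n + d.n) by congr 1 <;> ring, ← sum_Ico_add']
      refine le_of_eq_of_le (sum_congr rfl fun l _ => ?_) (b1.trans
        (mul_le_mul_of_nonneg_right ?_ (wp_pos _ j0).le))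
      · simp only [Dat.O, Sq.fr_shift, sub_add_cancel, add_right_comm l 1 d.n]
      · linarith only [b2, l1, a1, a2, s1, s2, one_le_exp (show 0 ≤ W + 10 * sl by linarith only [l1, a1, a2, s1, s2])]
  have t5 := num5 h W0 s1
  obtain t6 : 8 * exp (11 * sl) ≤ exp s := by
    obtain b1 : exp (11 * sl) * exp sl ≤ exp s := by rw [← exp_add]; exact exp_le_exp.2 (by linarith only [l1, a1, s1, s2])
    nlinarith only [b1, l1, s1, add_one_le_exp sl, exp_pos (11 * sl)]
  obtain t7 := one_le_exp (show 0 ≤ 11 * sl by linarith only [l1, s1])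
  rw [j1, ← sub_mul, abs_mul, sub_eq_add_neg s, exp_add]
  exact (mul_le_mul (fin t1 t2 t3 (t4.trans t5) (exp_pos _).le t7 t6) x1 (abs_nonneg _)
    (by positivity)).trans_eq (by ring)

end XC

theorem xcu (K : ℕ) : Hier fun c => SOK_s c → B1_s c → RHO_s c → TS_s c → FR_s K c → HIV_s c →
    FIT_s K c → R2_s K c → TUBE_s K c → D7_s K c → D7S_s K c → XCU_s K c :=
  XC.hK1.mono fun _ h => XC.xcu_of h

theorem xc2 (K : ℕ) : Hier fun c => FIT_s K c → XCU_s K c → XC2_s K c :=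
  XC.hK1.mono fun _ h => XC.xc2_of h

theorem jx (K : ℕ) : Hier fun c => SOK_s c → B1_s c → RHO_s c → TS_s c → FR_s K c → HIV_s c →
    FIT_s K c → BIG_s K c → JX_s K c :=
  XC.hK1.mono fun _ h => XC.jx_of h

end
end Pool.Agent.MP_9cbfe4_an

end
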