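import Pool.Agent.MP_9cbfe4_an.M03
import Pool.Agent.MP_9cbfe4_an.M09
import Pool.Agent.MP_9cbfe4_an.M12
import Pool.Agent.MP_9cbfe4_an.M13
import Pool.Agent.MP_9cbfe4_an.M14

set_option linter.all false

attribute [-instance] AddQuantale.instAddLeftMono IdemSemiring.toCanonicallyOrderedAdd
  NumberField.to_charZero AddQuantale.instAddRightMono IdemSemiring.toMulLeftMono RKHS.instFunLike
  Quantale.instMulRightMono Quantale.instMulLeftMono IsOrderedCancelMonoid.toIsOrderedMonoid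
  LinearOrderedCommMonoidWithZero.toPosMulStrictMono
  Group.IsPerfect.subsingleton_of_isMulCommutative CanonicallyOrderedAdd.toMulLeftMono
  Valued.toUniformSpace IdemSemiring.toMulRightMono TotallySeparatedSpace.t2Space
  LinearOrderedCommMonoidWithZero.toIsOrderedMonoid IsScalarTower.complexToReal
  Order.Coframe.toCompleteLattice OmegaCompletePartialOrder.toPartialOrder Invertible.toNeZero
  GrpTypeEquivalenceGrp.grpGroup littleWedderburn CanonicallyOrderedMul.toMulLeftMono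
  CoalgHomClass.toSemilinearMapClass TestFunctionClass.toDFunLike
  ContDiffMapSupportedInClass.toDFunLike Order.Frame.toCompleteLattice RightPreLieAlgebra.toModule
  CategoryTheory.Limits.Concrete.instUniqueToTypeTerminal LeftPreLieAlgebra.toModule
  CStarAlgebra.instOrderClosedTopology IdemSemiring.toSemiring
  LieAdmissibleRing.toNonUnitalNonAssocRing NonUnitalAlgSemiHomClass.toDistribMulActionSemiHomClass
  CStarAlgebra.toNormedRing

/-! ### Part Ak -/

section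

/-! Section A for THM-2: `C^k` bounds for the normal form. -/

namespace Pool.Agent.MP_9cbfe4_an

open Set Metric Filter Topology AN
open scoped ContDiff

noncomputable section

namespace A

/-- weighted size of a tangent vector -/
def nw (d q : ℝ) (v : ℝ × ℝ × ℝ) : ℝ := max (d * |v.1|) (max |v.2.1| (q * |v.2.2|))

lemma nw_nn (d q : ℝ) (v : ℝ × ℝ × ℝ) : 0 ≤ nw d q v :=
  (abs_nonneg _).trans ((le_max_left _ _).trans (le_max_right _ _))

lemma comp_clm {E : Type} [NormedAddCommGroup E] [NormedSpace ℝ E] (T : E →L[ℝ] ℝ) {f : ℝ → ℝ}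
    (hf : ContDiff ℝ ∞ f) (i : ℕ) (p : E) {b : ℝ} (hb : ‖T‖ ≤ b) :
    ‖iteratedFDeriv ℝ i (fun z => f (T z)) p‖ ≤ |iteratedDeriv i f (T p)| * b ^ i := by
  have := T.iteratedFDeriv_comp_right hf p (le_inf i)
  rw [show (fun z => f (T z)) = f ∘ T from rfl, this]
  refine (ContinuousMultilinearMap.norm_compContinuousLinearMap_le _ _).trans ?_
  rw [norm_iteratedFDeriv_eq_norm_iteratedDeriv, Finset.prod_const, Finset.card_univ,
    Fintype.card_fin, Real.norm_eq_abs]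
  (clear * - hb; gcongr)

lemma prodq {f g : ℝ → ℝ} (hf : ContDiff ℝ ∞ f) (hg : ContDiff ℝ ∞ g) (d : ℝ) {q B : ℝ}
    (hq : 0 < q) {m : ℕ} (z : ℝ × ℝ × ℝ)
    (h : ∀ i ≤ m, |iteratedDeriv i f z.2.1| * |iteratedDeriv (m - i) g z.2.2| ≤ B * q ^ (m - i))
    (v : Fin m → ℝ × ℝ × ℝ) :
    |iteratedFDeriv ℝ m (fun z : ℝ × ℝ × ℝ => f z.2.1 * g z.2.2) z v|
      ≤ 2 ^ m * B * ∏ i, nw d q (v i) := by
  let X := ContinuousLinearMap.fst ℝ ℝ ℝ
  let Y := ContinuousLinearMap.snd ℝ ℝ ℝ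
  let T : ℝ × ℝ × ℝ →L[ℝ] ℝ × ℝ := (X.prod (q • Y)).comp (ContinuousLinearMap.snd ℝ ℝ (ℝ × ℝ))
  have hT (w : ℝ × ℝ × ℝ) : T w = (w.2.1, q * w.2.2) := rfl
  have s1 : ContDiff ℝ ∞ fun p => f (X p) := hf.comp X.contDiff
  have s2 : ContDiff ℝ ∞ fun p => g ((q⁻¹ • Y) p) := hg.comp (q⁻¹ • Y).contDiff
  obtain e : (fun z : ℝ × ℝ × ℝ => f z.2.1 * g z.2.2) = (fun p => f (X p) * g ((q⁻¹ • Y) p)) ∘ T := by
    funext w
    simp [hT, X, Y, hq.ne']
  obtain b : ‖iteratedFDeriv ℝ m (fun p => f (X p) * g ((q⁻¹ • Y) p)) (T z)‖ ≤ 2 ^ m * B := by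
    refine (norm_iteratedFDeriv_mul_le s1 s2 _ (le_inf m)).trans ?_
    rw [show (2 : ℝ) ^ m = ∑ i ∈ Finset.range (m + 1), (m.choose i : ℝ) by
      exact_mod_cast (Nat.sum_range_choose m).symm, Finset.sum_mul]
    refine Finset.sum_le_sum fun i hi => ?_
    rw [mul_assoc]
    refine mul_le_mul_of_nonneg_left ?_ (Nat.cast_nonneg _)
    have a1 := comp_clm X hf i (T z) (ContinuousLinearMap.norm_fst_le ..)
    obtain a2 := comp_clm (q⁻¹ • Y) hg (m - i) (T z) (b := q⁻¹) ((norm_smul_le q⁻¹ Y).trans (by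
      rw [Real.norm_of_nonneg (by (clear * - hq; positivity))]
      exact mul_le_of_le_one_right (by positivity) (ContinuousLinearMap.norm_snd_le ..)))
    refine (mul_le_mul a1 a2 (norm_nonneg _) (by (clear * -; positivity))).trans ?_
    obtain a3 : (q⁻¹ • Y) (T z) = z.2.2 := by simp [hT, Y, hq.ne']
    rw [a3, one_pow, mul_one, ← mul_assoc, inv_pow, mul_inv_le_iff₀ (by positivity)]
    exact h i (Nat.lt_succ_iff.1 (Finset.mem_range.1 hi))
  rw [e, T.iteratedFDeriv_comp_right (s1.mul s2) z (le_inf m),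
    ContinuousMultilinearMap.compContinuousLinearMap_apply]
  refine (ContinuousMultilinearMap.le_opNorm _ _).trans (mul_le_mul b
    (Finset.prod_le_prod (fun _ _ => norm_nonneg _) fun i _ => ?_)
    (Finset.prod_nonneg fun _ _ => norm_nonneg _) ((norm_nonneg _).trans b))
  rw [hT, Prod.norm_def, Real.norm_eq_abs, Real.norm_eq_abs, abs_mul, abs_of_pos hq]
  exact le_max_right _ _

lemma xstep {f g : ℝ → ℝ} (hf : ContDiff ℝ ∞ f) (hg : ContDiff ℝ ∞ g) {n : ℕ}
    (m : Fin (n + 1) → ℝ × ℝ × ℝ) {r : ℝ}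
    (h : ∀ z, iteratedFDeriv ℝ n (fun z : ℝ × ℝ × ℝ => f z.2.1 * g z.2.2) z (Fin.tail m)
      = iteratedDeriv n f z.2.1 * g z.2.2 * r) (z : ℝ × ℝ × ℝ) :
    iteratedFDeriv ℝ (n + 1) (fun z : ℝ × ℝ × ℝ => f z.2.1 * g z.2.2) z m
      = (iteratedDeriv (n + 1) f z.2.1 * g z.2.2 * (m 0).2.1
        + iteratedDeriv n f z.2.1 * deriv g z.2.2 * (m 0).2.2) * r := by
  obtain lt : (n : WithTop ℕ∞) < ∞ := by exact_mod_cast ENat.natCast_lt_top n
  obtain s : ContDiff ℝ ∞ fun z : ℝ × ℝ × ℝ => f z.2.1 * g z.2.2 := by fun_prop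
  have h2 := hasFDerivAt_snd (𝕜 := ℝ) (p := z)
  obtain d := (((hf.differentiable_iteratedDeriv n lt z.2.1).hasDerivAt.comp_hasFDerivAt z
    h2.fst).mul ((hg.differentiable (by simp) z.2.2).hasDerivAt.comp_hasFDerivAt z
    h2.snd)).mul_const r
  rw [iteratedFDeriv_succ_apply_left, ← fderiv_continuousMultilinear_apply_const_apply
    (s.differentiable_iteratedFDeriv lt z), funext h]
  refine (congrArg (· (m 0)) d.fderiv).trans ?_
  simp [iteratedDeriv_succ]
  ring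

lemma xall {f g : ℝ → ℝ} (hf : ContDiff ℝ ∞ f) (hg : ContDiff ℝ ∞ g) {n : ℕ}
    (v : Fin n → ℝ × ℝ × ℝ) (h : ∀ i, (v i).2.2 = 0) (z : ℝ × ℝ × ℝ) :
    iteratedFDeriv ℝ n (fun z : ℝ × ℝ × ℝ => f z.2.1 * g z.2.2) z v
      = iteratedDeriv n f z.2.1 * g z.2.2 * ∏ i, (v i).2.1 := by
  induction n generalizing z with
  | zero => simp
  | succ n ih =>
    rw [xstep hf hg v (ih _ fun i => h i.succ), h 0, Fin.prod_univ_succ]
    simp only [Fin.tail]
    ring

lemma dP_cont : Continuous dP := by unfold dP; fun_prop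

lemma van {f : ℝ → ℝ} {x κ : ℝ} (h : ∀ᶠ z in 𝓝 x, f z = κ) {i : ℕ} (hi : i ≠ 0 ∨ κ = 0) :
    iteratedDeriv i f x = 0 := by
  rw [EventuallyEq.iteratedDeriv_eq i (g := fun _ => κ) h, iteratedDeriv_const]
  rcases hi with h | h <;> simp [h]

lemma van_far {f : ℝ → ℝ} {r x : ℝ} (h : ∀ z, r ≤ dP z → f z = 0) (hx : r < dP x) (i : ℕ) :
    iteratedDeriv i f x = 0 :=
  van ((dP_cont.continuousAt.eventually (lt_mem_nhds hx)).mono fun z hz => h z hz.le) (Or.inr rfl)

lemma van_core {f : ℝ → ℝ} (hf : ContDiff ℝ ∞ f) {w κ y : ℝ} (hw : 0 < w)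
    (h : ∀ z, dP z ≤ w → f z = κ) (hy : dP y ≤ w) {i : ℕ} (hi : i ≠ 0) :
    iteratedDeriv i f y = 0 := by
  have cl := isClosed_eq (hf.continuous_iteratedDeriv i (le_inf i)) (continuous_const (y := (0 : ℝ)))
  have key (p : ℝ) (hp : ∀ z, dP z ≤ dist z p) (hy : y ∈ closedBall p w) :
      iteratedDeriv i f y = 0 := by
    rw [← closure_ball _ hw.ne'] at hy
    exact cl.closure_subset_iff.2 (fun z hz => van ((dP_cont.continuousAt.eventually
      (gt_mem_nhds ((hp z).trans_lt hz))).mono fun u hu => h u hu.le) (Or.inl hi)) hy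
  rcases min_le_iff.1 hy with a | a
  · exact key (Real.pi / 2) (fun z => min_le_left _ _) a
  · refine key (-(Real.pi / 2)) (fun z => ?_) ?_
    · rw [Real.dist_eq, sub_neg_eq_add]; exact min_le_right _ _
    · rwa [mem_closedBall, Real.dist_eq, sub_neg_eq_add]

lemma bd_all {f : ℝ → ℝ} (hf : ContDiff ℝ ∞ f) (h : ∀ z, 2 / 1000 ≤ dP z → f z = 0) (k : ℕ) :
    ∃ C, 1 ≤ C ∧ ∀ j ≤ k, ∀ x, |iteratedDeriv j f x| ≤ C := by
  obtain ⟨C, h1, h2⟩ := exists_bd hf (isCompact_closedBall (0 : ℝ) 3) k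
  refine ⟨C, h1, fun j hj x => ?_⟩
  by_cases hx : x ∈ closedBall (0 : ℝ) 3
  · simpa [norm_iteratedFDeriv_eq_norm_iteratedDeriv] using h2 j hj x hx
  · rw [van_far h, abs_zero]
    · linarith only [h1]
    · rw [mem_closedBall_zero_iff, not_le, Real.norm_eq_abs, lt_abs] at hx
      have := Real.pi_lt_four
      have := Real.pi_pos
      refine lt_min ?_ ?_ <;> rw [lt_abs] <;> rcases hx with hx | hx
      exacts [.inl (by (rename_i zq0; linarith only [zq0, hx])), .inr (by linarith only [this, hx]), .inl (by linarith only [this, hx]), .inr (by (rename_i zq0; linarith only [zq0, hx]))]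

/-- a flat cut-off -/
lemma exists_thk (k : ℕ) : ∃ (th : ℝ → ℝ) (C : ℝ) (D : ℝ → ℝ), 1 ≤ C ∧
    (∀ C', C ≤ C' → Th th (deriv th) C') ∧ (∀ j ≤ k, ∀ x, |iteratedDeriv j th x| ≤ C) ∧
    ∀ ε, 0 < ε → 0 ≤ D ε ∧ ∀ j ≤ k, ∀ x, |iteratedDeriv j th x| ≤ D ε * th x ^ (1 - ε) := by
  obtain ⟨f, f', _, T⟩ := exists_th
  obtain ⟨B, -, hB⟩ := bd_all T.sm (fun z hz => (T.zero z hz).1) k
  choose! D hD using fun ε (hε : 0 < ε) =>
    FLAT60.flat_le k (T.sm.of_le (le_inf k)) (fun i _ hi => ⟨B, hB i hi⟩) hε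
  have sm : ContDiff ℝ ∞ fun x => FLAT60.fl (f x) := FLAT60.fl_contDiff.comp T.sm
  have z0 (z) (hz : 2 / 1000 ≤ dP z) : FLAT60.fl (f z) = 0 := FLAT60.fl_zero (T.zero z hz).1.le
  obtain ⟨C, h1, hC⟩ := bd_all sm z0 (k + 2)
  obtain ⟨d1, s1⟩ := contDiff_infty_iff_deriv.1 sm
  refine ⟨_, C, D, h1, fun C' h => ⟨sm, fun x => (d1 x).hasDerivAt, by linarith only [h1, h],
    fun x => FLAT60.fl_nonneg _, fun x => FLAT60.fl_le_one (T.le x),
    fun x hx => by rw [T.one x hx, FLAT60.fl_one], fun x hx => ⟨z0 x hx, IsLocalMin.deriv_eq_zero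
      (.of_forall fun z => (z0 x hx).trans_le (FLAT60.fl_nonneg _))⟩, fun x => ?_,
    lip1 (fun z => (s1.differentiable (by simp) z).hasDerivAt) fun z => ?_⟩,
    fun j hj => hC j (by omega), hD⟩
  · simpa using (hC 1 (by omega) x).trans h
  · simpa [iteratedDeriv_succ] using (hC 2 (by omega) z).trans h

variable {c : Cs} {C C' : ℝ} {th ψ ψ' : ℝ → ℝ} {G : ℝ × P2 → ℝ} {k : ℕ}

lemma der3 (T : Th th (deriv th) C') (P : Ps c.k0 c.e0 c.w0 ψ ψ') (z v : ℝ × P2) :
    fderiv ℝ (G0 c th ψ) z v = v.1 + (M0 c th (deriv th) ψ ψ').Ga 0 z.2.1 z.2.2 * v.2.1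
      + (M0 c th (deriv th) ψ ψ').Gb 0 z.2.1 z.2.2 * v.2.2 := by
  have h := ((der0 T P 0 z.2.1 z.2.2).comp z hasFDerivAt_snd).add
    (hasFDerivAt_fst (𝕜 := ℝ) (p := z))
  obtain e : G0 c th ψ = ((fun p : ℝ × ℝ => G0 c th ψ (0, p.1, p.2)) ∘ Prod.snd) + Prod.fst := by
    funext p; simp [G0]
  rw [e, h.fderiv]
  simp
  ring

theorem okk (N : Num c C') (T : Th th (deriv th) C') (P : Ps c.k0 c.e0 c.w0 ψ ψ') (C1 : 1 ≤ C)
    (hC : ∀ j ≤ k, ∀ x, |iteratedDeriv j th x| ≤ C)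
    (hfl : ∀ j ≤ k, ∀ x, |iteratedDeriv j th x| ≤ Real.exp (c.a * c.bl) * ((th x + c.dl) / 16))
    (hCG : 2 ^ k * (4 * C + 1) + 1 ≤ c.CG) (a0 : 0 ≤ c.a) (a1 : c.a ≤ 1 / 2)
    (g1 : ∀ p ∈ Dm (2 * c.L), ContDiffAt ℝ ∞ G p)
    (g2 : ∀ j ≤ k + 2, ∀ p ∈ Dm (2 * c.L),
      ‖iteratedFDeriv ℝ j (G - G0 c th ψ) p‖ ≤ c.dl ^ (k + 2)) :
    ((M0 c th (deriv th) ψ ψ').add (mdl (G - G0 c th ψ))).OKk c k := by
  let cv0 := (); let cv1 := (); let cv2 := (); let cv3 := ()
  have hL := N.L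
  obtain L0 : 0 < c.L := by linarith only [hL]
  have hw := N.w
  have hd : 0 < c.dl := Real.exp_pos _
  obtain d1 : c.dl ≤ 1 := by linarith only [N.dw, hw]
  obtain ⟨s, hs⟩ : ∃ s, s = Real.exp (-c.bl / 2) := ⟨_, rfl⟩
  have s0 : 0 < s := hs ▸ Real.exp_pos _
  have s1 : c.L * s ≤ 1 / 2 := hs ▸ N.q
  obtain s2 : Real.exp (-c.bl) = s * s := by rw [hs, ← Real.exp_add]; congr 1; ring
  obtain s3 : c.dl = s * s * (s * s) := by rw [← s2, ← Real.exp_add, Cs.dl]; congr 1; ring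
  obtain s4 : s ≤ 1 / 40 := by nlinarith only [hL, s0, s1]
  obtain s5 : c.L * c.dl ≤ s * s / 80 := by
    rw [s3, show c.L * (s * s * (s * s)) = s * s * (c.L * s * s) by ring, div_eq_mul_one_div]
    exact mul_le_mul_of_nonneg_left (by nlinarith only [s0, s1, s4]) (by positivity)
  clear_value cv3
  obtain s6 : 20 * c.dl ≤ c.L * c.dl := by (clear * - hL hd; gcongr)
  obtain b0 : 0 ≤ c.bl := by
    obtain this : Real.exp (-c.bl / 2) ≤ 1 := by linarith only [hs, s0, s4]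
    linarith only [Real.exp_le_one_iff.1 this]
  have ex : 1 ≤ Real.exp (c.a * c.bl) := Real.one_le_exp (mul_nonneg a0 b0)
  have sm := G0_sm T P
  obtain pe := pert c c.dl (G - G0 c th ψ) L0 (fun p hp => (g1 p hp).sub sm.contDiffAt)
    fun j hj p hp => (g2 j (by omega) p hp).trans (pow_le_of_le_one hd.le d1 (by omega))
  have ok := ok N T P pe
  set M := (M0 c th (deriv th) ψ ψ').add (mdl (G - G0 c th ψ)) with hM
  obtain e : M.GG = G := by funext z; simp [hM, Mdl.GG, Mdl.add, M0, mdl]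
  have ob {z : ℝ × ℝ × ℝ} (h : z ∈ OB c) : TI z.1 ∧ Box c z.2.1 ∧ Box c z.2.2 :=
    ⟨⟨h.1.le, h.2.1.le⟩, h.2.2.1.le, h.2.2.2.le⟩
  have dm {z : ℝ × ℝ × ℝ} (h : z ∈ OB c) : z ∈ Dm (2 * c.L) := ⟨(ob h).1, mem_BoxS.1 (ob h).2⟩
  let l : ℝ × P2 →L[ℝ] ℝ := (Real.exp (-c.bl) / 2) • (ContinuousLinearMap.snd ℝ ℝ ℝ).comp
    (ContinuousLinearMap.snd ℝ ℝ P2) + ContinuousLinearMap.fst ℝ ℝ P2
  let A : ℝ × P2 → ℝ := fun z => Real.cos z.2.1 * 1
  let B : ℝ × P2 → ℝ := fun z => th z.2.1 * ψ z.2.2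
  let W : ℝ × P2 → ℝ := l + (G - G0 c th ψ)
  clear_value cv2
  obtain sA : ContDiff ℝ ∞ A := by fun_prop
  obtain sB : ContDiff ℝ ∞ B := by have := T.sm; have := P.sm; fun_prop
  have sW {z} (h : z ∈ OB c) : ContDiffAt ℝ ∞ W z :=
    l.contDiff.contDiffAt.add ((g1 z (dm h)).sub sm.contDiffAt)
  have bW {j : ℕ} (h2 : 2 ≤ j) (hj : j ≤ k) {z} (h : z ∈ OB c) :
      ‖iteratedFDeriv ℝ j W z‖ ≤ c.dl ^ (k + 2) := by
    refine (add_le l.contDiff.contDiffAt ((g1 z (dm h)).sub sm.contDiffAt) j).trans ?_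
    obtain ⟨i, rfl⟩ := Nat.exists_eq_add_of_le' (one_le_two.trans h2)
    rw [← norm_iteratedFDeriv_fderiv, show fderiv ℝ l = fun _ => l from funext fun _ => l.fderiv,
      iteratedFDeriv_const_of_ne (by omega), Pi.zero_apply, norm_zero, zero_add]
    exact g2 _ (by omega) z (dm h)
  have sp (j : ℕ) {z} (hz : z ∈ OB c) (v : Fin j → ℝ × ℝ × ℝ) : iteratedFDeriv ℝ j G z v
      = c.L * iteratedFDeriv ℝ j A z v + (c.L * iteratedFDeriv ℝ j B z v
        + iteratedFDeriv ℝ j W z v) := by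
    obtain eG : G = c.L • A + (c.L • B + W) := by
      funext p; simp [A, B, W, l, G0]; ring
    rw [eG, iteratedFDeriv_add_apply (f := c.L • A) (g := c.L • B + W)
      ((sA.const_smul c.L).contDiffAt.of_le (le_inf j))
      (((sB.const_smul c.L).contDiffAt.add (sW hz)).of_le (le_inf j)),
      iteratedFDeriv_add_apply (f := c.L • B) ((sB.const_smul c.L).contDiffAt.of_le (le_inf j))
      ((sW hz).of_le (le_inf j)), iteratedFDeriv_const_smul_apply (sA.contDiffAt.of_le (le_inf j)),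
      iteratedFDeriv_const_smul_apply (sB.contDiffAt.of_le (le_inf j))]
    rfl
  clear_value cv1
  have dψ : deriv ψ = ψ' := funext fun y => (P.der y).deriv
  have sψ : ContDiff ℝ ∞ ψ' := dψ ▸ (contDiff_infty_iff_deriv.1 P.sm).2
  obtain bd' : ∀ j : ℕ, 2 ≤ j → j ≤ k → ∀ z ∈ OB c,
      (1 / 100 ≤ dP z.2.1 ∨ 1 / 100 ≤ dP z.2.2 ∨ dP z.2.2 ≤ c.w0) → ∀ v : Fin j → ℝ × ℝ × ℝ,
      |iteratedFDeriv ℝ j G z v| ≤ c.CG * c.L * ∏ i, nw c.dl
        (min (1 / 4) (Real.exp (c.a * c.bl) * M.Gb z.1 z.2.1 z.2.2 / c.L)) (v i) := by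
    intro j h2 hj z hz h v
    obtain ⟨ht, hx, hy⟩ := ob hz
    set q := min (1 / 4) (Real.exp (c.a * c.bl) * M.Gb z.1 z.2.1 z.2.2 / c.L) with hq
    obtain dq : c.dl ≤ q := le_min (by linarith only [N.dw, hw, s0, s4]) (by
      have := ok.b_lo _ _ _ ht hx hy
      rw [le_div_iff₀ L0]
      nlinarith only [hd, s0, s2, s3, s4, s5, s6, ex, this])
    have q0 := hd.trans_le dq
    obtain a1 := prodq Real.contDiff_cos (g := fun _ => 1) contDiff_const c.dl (B := 1) q0 z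
      (fun i _ => by
        rw [iteratedDeriv_const]
        split_ifs with h
        · simpa [h] using Real.abs_iteratedDeriv_cos_le_one i z.2.1
        · simp [q0.le]) v
    have a2 := prodq T.sm P.sm c.dl (B := 4 * C) q0 z (fun i hi => by
      obtain i1 := hC i (by omega) z.2.1
      rcases h with h | h
      · rw [van_far (fun z hz => (T.zero z hz).1) (by linarith only [s0, s4, h]), abs_zero, zero_mul]
        (clear * - C1 q0; positivity)
      generalize j - i = n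
      rcases n with _ | n
      · obtain this : |ψ z.2.2| ≤ 1 := (P.bd _).trans (by
          nlinarith only [N.w_pos, N.k_lo, N.k_hi, show c.e0 = 1 / 2 - c.k0 from rfl, hw])
        rw [iteratedDeriv_zero, pow_zero]
        nlinarith only [abs_nonneg (ψ z.2.2), C1, s0, s4, i1, this]
      rw [iteratedDeriv_succ', dψ]
      rcases h with h | h
      · rw [van_far P.far (by linarith only [hw, s0, s4, h]), abs_zero, mul_zero]
        (clear * - C1 q0; positivity)
      rcases eq_or_ne n 0 with rfl | n0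
      · obtain i2 := hfl i (by omega) z.2.1
        have i3 := (abs_le.1 (pe.sz _ _ _ ht hx hy).2.2.1).1
        obtain i4 : c.L * ((th z.2.1 + c.dl) / 16) ≤ M.Gb z.1 z.2.1 z.2.2 := by
          have := mul_le_mul_of_nonneg_left N.k_lo (mul_nonneg L0.le (T.nn z.2.1))
          simp only [hM, Mdl.add, M0, P.core _ h, s2]
          linarith only [hd, s5, s6, i3, this]
        obtain i5 : |iteratedDeriv i th z.2.1|
            ≤ Real.exp (c.a * c.bl) * M.Gb z.1 z.2.1 z.2.2 / c.L := by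
          rw [le_div_iff₀ L0]
          nlinarith only [mul_le_mul_of_nonneg_left i4 (Real.exp_pos (c.a * c.bl)).le, hL, i2]
        rw [iteratedDeriv_zero, P.core _ h, abs_of_nonneg (by linarith only [N.k_lo, s0, s4] : 0 ≤ c.k0)]
        refine (mul_le_of_le_one_right (abs_nonneg _) (by linarith only [N.k_hi, s0, s4])).trans ?_
        rw [zero_add, pow_one, hq, mul_min_of_nonneg _ _ (by linarith only [C1, s0, s4])]
        exact le_min (by linarith only [i1])
          (i5.trans (le_mul_of_one_le_left ((abs_nonneg _).trans i5) (by linarith only [C1, s0, s4])))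
      · rw [van_core sψ N.w_pos P.core h n0, abs_zero, mul_zero]
        (clear * - C1 q0; positivity)) v
    have P0 : 0 ≤ ∏ i, nw c.dl q (v i) := Finset.prod_nonneg fun _ _ => nw_nn _ _ _
    obtain a3 : |iteratedFDeriv ℝ j W z v| ≤ ∏ i, nw c.dl q (v i) := by
      refine (ContinuousMultilinearMap.le_of_opNorm_le ((bW h2 hj hz).trans
        (pow_le_pow_of_le_one hd.le d1 (show j ≤ k + 2 by omega))) v).trans ?_
      rw [show c.dl ^ j = ∏ _ : Fin j, c.dl by simp, ← Finset.prod_mul_distrib]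
      refine Finset.prod_le_prod (fun _ _ => by (clear * - hd; positivity)) fun i _ => ?_
      simp only [Prod.norm_def, mul_max_of_nonneg _ _ hd.le, Real.norm_eq_abs]
      exact max_le_max le_rfl (max_le_max (mul_le_of_le_one_left (abs_nonneg _) d1) (by (clear * - dq; gcongr)))
    have t2 : (2 : ℝ) ^ j ≤ 2 ^ k := pow_le_pow_right₀ one_le_two hj
    rw [sp j hz]
    refine (abs_add_le _ _).trans ((add_le_add_right (abs_add_le _ _) _).trans ?_)
    rw [abs_mul, abs_mul, abs_of_pos L0]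
    have a4 := mul_le_mul_of_nonneg_left a1 L0.le
    have a5 := mul_le_mul_of_nonneg_left a2 L0.le
    obtain a6 := mul_le_mul_of_nonneg_right (show 2 ^ j * (4 * C + 1) + 1 ≤ c.CG from
      le_trans (by (clear * - t2 C1; gcongr)) hCG) (mul_nonneg L0.le P0)
    obtain a7 := mul_le_mul_of_nonneg_right (show 1 ≤ c.L by linarith only [hL, s0, s4]) P0
    linarith only [a3, a4, a5, a6, a7]
  clear_value cv0
  refine
    { ok := ok
      smooth := e ▸ fun z hz => (g1 z (dm hz)).contDiffWithinAt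
      d1 := fun z hz v => ?_
      bd := fun j h2 hj z hz q hq h v => ?_
      bd' := e ▸ bd'
      bd2 := fun j h1 hj z hz v hv => ?_
      fold := fun j h2 hj z hz h => ?_ }
  · obtain dG := (g1 z (dm hz)).differentiableAt (by simp)
    obtain d0 := sm.differentiable (by simp) z
    have := der3 T P z
    rw [e, lin (fderiv ℝ G z) v.1 v.2.1 v.2.2]
    simp only [hM, Mdl.add, mdl, Prod.mk.eta, fderiv_sub dG d0, sub_apply, this]
    simp only [M0]
    ring
  · obtain ⟨ht, hx, hy⟩ := ob hz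
    rw [e]
    refine (bd' j h2 hj z hz (h.imp_right (Or.imp_right And.left)) v).trans
      (mul_le_mul_of_nonneg_left (Finset.prod_le_prod (fun _ _ => nw_nn _ _ _) fun i _ =>
        max_le_max (mul_le_of_le_one_left (abs_nonneg _) d1) (max_le_max le_rfl
          (mul_le_mul_of_nonneg_right ?_ (abs_nonneg _))))
        (mul_nonneg (le_trans (by positivity) hCG) L0.le))
    rcases or_assoc.2 h with h | h
    · refine (min_le_right _ _).trans (le_trans ?_ hq)
      have h1 := mul_le_mul_of_nonneg_left (ok.b_N _ _ _ ht hx hy h) (Real.exp_pos (c.a * c.bl)).le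
      rw [← Real.exp_add] at h1
      obtain h3 : Real.exp (c.a * c.bl + -c.bl) ≤ Real.exp (-c.bl / 2) :=
        Real.exp_le_exp.2 (by nlinarith only [a1, b0])
      rw [div_le_iff₀ L0]
      nlinarith only [hL, hs, s0, h1, h3]
    · exact (min_le_left _ _).trans h.2
  · obtain ⟨ht, hx, hy⟩ := ob hz
    set r := ∏ i, max |(v i).1| |(v i).2.1|
    obtain r0 : |∏ i, (v i).2.1| ≤ r := by
      rw [Finset.abs_prod]
      exact Finset.prod_le_prod (fun _ _ => abs_nonneg _) fun _ _ => le_max_right _ _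
    have r1 := (abs_nonneg _).trans r0
    obtain a3 : |iteratedFDeriv ℝ (j + 1) W z (Fin.cons (0, 0, 1) v)| ≤ c.dl * r := by
      refine (ContinuousMultilinearMap.le_of_opNorm_le ((bW (by omega) hj hz).trans
        (pow_le_of_le_one hd.le d1 (by omega))) _).trans_eq ?_
      simp [Fin.prod_univ_succ, Prod.norm_def, hv, r]
    have i3 := (abs_le.1 (pe.sz _ _ _ ht hx hy).2.2.1).1
    have p0 := P.nn z.2.2
    obtain p1 : ψ' z.2.2 ≤ 1 := by linarith only [P.le z.2.2, N.k_hi, s0, s4]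
    have tp := mul_nonneg L0.le (mul_nonneg (T.nn z.2.1) p0)
    obtain i4 : c.L * ((th z.2.1 + c.dl) / 16 * ψ' z.2.2) + c.dl ≤ M.Gb z.1 z.2.1 z.2.2 := by
      have := mul_le_of_le_one_right (mul_pos L0 hd).le p1
      simp only [hM, Mdl.add, M0, s2]
      linarith only [hd, s5, s6, i3, tp, this]
    obtain i5 := mul_le_mul_of_nonneg_left (mul_le_mul (mul_le_mul_of_nonneg_right
      (hfl j (by omega) z.2.1) p0) r0 (abs_nonneg _) (by have := T.nn z.2.1; (clear * - hd p0 this; positivity))) L0.le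
    have i6 := mul_le_mul_of_nonneg_right (mul_le_mul_of_nonneg_left i4 (zero_le_one.trans ex)) r1
    have i7 := mul_le_mul_of_nonneg_right ex (mul_nonneg hd.le r1)
    obtain i8 := mul_le_mul_of_nonneg_right (show 1 ≤ c.CG from le_trans (le_add_of_nonneg_left
      (by positivity)) hCG) (mul_nonneg (mul_nonneg (zero_le_one.trans ex)
        ((by positivity : 0 ≤ Real.exp (-c.bl) / 4).trans (ok.b_lo _ _ _ ht hx hy))) r1)
    rw [e, sp _ hz, xstep Real.contDiff_cos (g := fun _ => 1) contDiff_const _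
      (xall Real.contDiff_cos contDiff_const _ hv), xstep T.sm P.sm _ (xall T.sm P.sm _ hv), dψ]
    simp only [Fin.cons_zero, Fin.tail, Fin.cons_succ, deriv_const, mul_zero, zero_mul, add_zero,
      zero_add, mul_one]
    refine (abs_add_le _ _).trans ?_
    rw [abs_mul, abs_mul, abs_mul, abs_of_pos L0, abs_of_nonneg p0]
    linarith only [a3, i5, i6, i7, i8]
  · obtain ev : (fun z : ℝ × ℝ × ℝ => M.GG z - c.L * Real.cos z.2.1) =ᶠ[𝓝 z] W := by
      filter_upwards [(dP_cont.comp (continuous_fst.comp continuous_snd)).continuousAt.eventually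
        (lt_mem_nhds (show 2 / 1000 < dP z.2.1 by linarith only [s0, s4, h]))] with p hp
      simp [e, W, l, G0, (T.zero p.2.1 hp.le).1]
      ring
    rw [(ev.iteratedFDeriv ℝ j).eq_of_nhds]
    refine (bW h2 hj hz).trans ?_
    rw [Cs.dl, ← Real.exp_nat_mul, Real.exp_le_exp]
    push_cast
    linarith only [mul_nonneg (show (0 : ℝ) ≤ k + 2 by (clear * -; positivity)) b0]

end A

/-- `Ak_s` with an explicit order `r` of the topology -/
def AkR_s (k r : ℕ) : Prop := ∃ CG : ℝ, 1 ≤ CG ∧ Hier fun c => c.CG = CG →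
  ∃ (F0 : ℝ × P2 → P2) (R δ : ℝ), 0 < δ ∧ SmoothFamily F0 ∧ ∀ F, SmoothFamily F →
    (∀ j ≤ r, ∀ p ∈ Set.Icc (-1 : ℝ) 2 ×ˢ Metric.closedBall (0 : P2) R,
      ‖iteratedFDeriv ℝ j (F - F0) p‖ < δ) → ∃ M, NormalForm c F M ∧ M.OKk c k

open A in
theorem akR {k r : ℕ} (hr : k + 2 ≤ r) : AkR_s k r := by
  let cv0 := ()
  obtain ⟨th, C, D, C1, T, hC, hD⟩ := exists_thk k
  obtain p : (0 : ℝ) ≤ 2 ^ k * (4 * C + 1) := by (clear * - C1; positivity)
  refine ⟨2 ^ k * (4 * C + 1) + 1 + (C + 2), by linarith only [C1, p], (Hier.base.and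
    ((Hier.L_ge (fun _ => 20) fun _ _ => rfl).and
    ((Hier.L_ge (fun c => 40 / (1 / 2 - c.k0)) fun _ _ => rfl).and
    ((Hier.lam_ge (fun c => c.CG - 2 + 3) fun _ _ => rfl).and
    ((Hier.β_ge (fun _ => 4) fun _ _ _ => rfl).and
    ((Hier.a_le (fun _ => 1 / 2) (fun _ _ _ _ _ _ => rfl) (.of_all fun _ => one_half_pos)).and
    (Hier.lam_ge (fun c => 16 * D (c.a / 4) / (c.a * c.β / 2)) fun _ _ => rfl))))))).mono
    fun c ⟨h1, h2, h3, h4, h5, h6, h7⟩ e => ?_⟩
  obtain T := T (c.CG - 2) (by (rename_i zq0; linarith only [p, zq0, e]))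
  obtain N := num h1.1 h1.2.1 (C := c.CG - 2) (by ring) T.C0 h2 h3 h4 h5
  obtain hL : 0 < c.L := by (rename_i zq0; linarith only [zq0])
  clear_value cv0
  obtain ⟨ψ, ψ', P⟩ := exists_ps (k := c.k0) (e := c.e0) (by (rename_i zq0; linarith only [zq0, h1.1]))
    (sub_pos.2 h1.2.1) rfl N.w_pos (by (rename_i zq0; linarith only [zq0, N.w]))
  obtain ⟨R, δ, hδ, H⟩ := nf _ (G0_sm T P) (k + 2) (2 * c.L) (c.dl ^ (k + 2)) (by omega)
    (by positivity) (pow_pos (Real.exp_pos _) _)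
  refine ⟨_, R, δ, hδ, fam hL.le T P, fun F hF hc => ?_⟩
  obtain ⟨G, g1, g2, g3⟩ := H F hF.1 fun j hj p hp =>
    hc j (hj.trans hr) p ⟨Icc_subset_Icc (by norm_num) (by norm_num) hp.1, hp.2⟩
  obtain ⟨D0, hD⟩ := hD (c.a / 4) (by (rename_i zq0; linarith only [zq0, h6.1]))
  obtain ok := okk N T P C1 hC (fun j hj x => by
    obtain a1 := FLAT60.rpow_le_split (y := 2 * c.bl) (T.nn x) (show 0 < c.a / 4 by (rename_i zq0; linarith only [zq0, h6.1]))
      (by (rename_i zq0; linarith only [zq0, h6.2]))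
    rw [div_le_iff₀ (by have := h6.1; positivity)] at h7
    obtain a2 : 16 * D (c.a / 4) ≤ Real.exp (c.a / 4 * (2 * c.bl)) := by
      (rename_i zq0; linarith only [zq0, h7, Real.add_one_le_exp (c.a / 4 * (2 * c.bl)),
        show c.a / 4 * (2 * c.bl) = c.lam * (c.a * c.β / 2) by unfold Cs.bl; ring])
    obtain a3 : Real.exp (c.a * c.bl)
        = Real.exp (c.a / 4 * (2 * c.bl)) * Real.exp (c.a / 4 * (2 * c.bl)) := by
      rw [← Real.exp_add]; congr 1; ring
    have a4 := mul_le_mul_of_nonneg_right a2 ((Real.rpow_nonneg (T.nn x) _).trans a1)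
    rw [a3, show c.dl = Real.exp (-(2 * c.bl)) by rw [Cs.dl, neg_mul]]
    linarith only [hD j hj x, mul_le_mul_of_nonneg_left a1 D0, a4]) (by (rename_i zq0; linarith only [C1, zq0, e])) h6.1.le h6.2 g1 g2
  refine ⟨_, ⟨ok.ok, fun t ht => ?_⟩, ok⟩
  obtain ⟨Ψ, p1, p2, ⟨K, p3⟩, p4⟩ := g3 t ht
  have e (p : P2) : ((M0 c th (deriv th) ψ ψ').add (mdl (G - G0 c th ψ))).f t p
      = (G (t, p), p.1) := by
    simp [Mdl.f, Mdl.add, mdl, M0]
  refine ⟨Ψ, p1, fun p hp => ?_,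
    ⟨K, fun p hp q hq => p3 p (mem_BoxS.1 hp) q (mem_BoxS.1 hq)⟩,
    fun p hp => p4 p (mem_BoxS.1 hp)⟩
  rw [e]
  refine p2 p (mem_BoxS.1 hp) (mem_BoxS.1 ?_)
  rw [← e]
  exact ⟨ok.ok.box t _ _ ht hp.1 hp.2, hp.1⟩

end
end Pool.Agent.MP_9cbfe4_an

end

/-! ### Part Fin2 -/

section

/-! THM-2 with the explicit order `r = 10 ^ 9`. -/

namespace Pool.Agent.MP_9cbfe4_an

open MeasureTheory

theorem main2R {d : ℝ} (hd : d < 2) (hE : ∀ K, Hier (E2_s K)) (hG : Hier (GAll_s d)) :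
    Main (10 ^ 9) d := by
  have hK : KBig (99 * 10 ^ 7) := kbig_ge le_rfl
  generalize hk : 99 * 10 ^ 7 = K at hK
  obtain ⟨k0, θb, κ, h1, h2, h3, h4, h5, h6⟩ := first_exists hK hd
  obtain ⟨CG, hCG, hA⟩ := akR (k := K + 6) (r := 10 ^ 9) (by omega)
  obtain ⟨c, e1, e2, e3, e4, a, e, g, hL⟩ :=
    (hA.and ((hE K).and (hG.and (Hier.L_ge (fun _ => 1) fun _ _ => rfl)))).exists
      h1 h2 h3 h4 h5 hCG
  obtain ⟨h7, h8⟩ := h6 c e1 e2 e3
  obtain ⟨F0, R, δ, hδ, hF0, hF⟩ := a e4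
  refine ⟨F0, R, δ, hδ, hF0, fun F hS hc => ?_⟩
  obtain ⟨M, hN, hM⟩ := hF F hS hc
  refine good_set2 (Ex := Ex2 K c M) (by linarith only [h3, h4, hL]) hS hN h7 g tr ((e h8 M hM).trans_lt ?_)
  rw [ENNReal.div_lt_iff (by norm_num) (by norm_num)]
  norm_num

end Pool.Agent.MP_9cbfe4_an

end

/-! ### Part SH -/

section

/-! Row SH: the shadowing lemma S and the tube corollary S1. -/

namespace Pool.Agent.MP_9cbfe4_an

open Finset Filter Topology

noncomputable section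

namespace SHr

theorem fr_self (S : Sq) (i : ℤ) : S.fr i i = 1 := by simp [Sq.fr, Sq.frP]

theorem fr_lt (S : Sq) {i j : ℤ} (h : j < i) : S.fr i j = 0 := by simp [Sq.fr, not_le.2 h]

theorem fr_nat (S : Sq) (i : ℤ) (k : ℕ) : S.fr i (i + k) = (S.frP i k).2 := by simp [Sq.fr]

theorem fr_nat' (S : Sq) (i : ℤ) (k : ℕ) : S.fr i (i + k - 1) = (S.frP i k).1 := by
  cases k with
  | zero =>
    rw [fr_lt S (by simp)]; rfl
  | succ k =>
    obtain this : i + ((k + 1 : ℕ) : ℤ) - 1 = i + k := by push_cast; ring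
    rw [this, fr_nat]; rfl

theorem fr_rec (S : Sq) {i j : ℤ} (h : i ≤ j) :
    S.fr i (j + 1) = S.a j * S.fr i j + S.b j * S.fr i (j - 1) := by
  obtain ⟨k, rfl⟩ := Int.le.dest h
  obtain this : i + (k : ℤ) + 1 = i + ((k + 1 : ℕ) : ℤ) := by push_cast; ring
  rw [this, fr_nat, fr_nat, fr_nat']; rfl

/-- strong induction on `[s, ∞)` -/
theorem sind {P : ℤ → Prop} {s : ℤ} (h : ∀ j, s ≤ j → (∀ i, s ≤ i → i < j → P i) → P j) :
    ∀ j, s ≤ j → P j := by
  obtain key : ∀ k : ℕ, ∀ i, s ≤ i → i < s + k → P i := by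
    intro k
    induction k with
    | zero => intro i h1 h2; omega
    | succ k ih =>
      intro i h1 h2
      exact h i h1 fun l hl hl' => ih l hl (by omega)
  intro j hj
  exact key ((j - s).toNat + 1) j hj (by omega)

/-- the solution of the forced recursion with zero data at `s` -/
def VV (S : Sq) (q : ℤ → ℝ) (s j : ℤ) : ℝ := ∑ i ∈ Ico s j, S.fr (i + 1) j * q i

theorem VV_le (S : Sq) (q : ℤ → ℝ) {s j : ℤ} (h : j ≤ s) : VV S q s j = 0 := by
  simp [VV, Ico_eq_empty_of_le h]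

theorem VV_rec (S : Sq) (q : ℤ → ℝ) {s j : ℤ} (h : s ≤ j) :
    VV S q s (j + 1) = S.a j * VV S q s j + S.b j * VV S q s (j - 1) + q j := by
  obtain h1 : Ico s (j + 1) = insert j (Ico s j) := by
    ext x; simp only [mem_Ico, mem_insert]; omega
  obtain h2 : VV S q s (j - 1) = ∑ i ∈ Ico s j, S.fr (i + 1) (j - 1) * q i := by
    refine sum_subset (fun x hx => ?_) fun x hx hx' => ?_
    · simp only [mem_Ico] at hx ⊢; omega
    · simp only [mem_Ico] at hx hx'
      rw [fr_lt S (by omega), zero_mul]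
  rw [h2]
  unfold VV
  rw [h1, sum_insert (by simp), fr_self, mul_sum, mul_sum, ← sum_add_distrib, one_mul, add_comm]
  congr 1
  refine sum_congr rfl fun i hi => ?_
  rw [fr_rec S (by simp only [mem_Ico] at hi; omega)]; ring

/-- the forcing term of a sequence, for the recursion of `S` started at `s` -/
def qq (S : Sq) (y : ℤ → ℝ) (s i : ℤ) : ℝ :=
  y (i + 1) - S.a i * y i - if i = s then 0 else S.b i * y (i - 1)

/-- variation of constants -/
theorem voc (S : Sq) {y : ℤ → ℝ} {s : ℤ} (hy : y s = 0) :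
    ∀ j, s ≤ j → y j = VV S (qq S y s) s j := by
  refine sind fun j hj ih => ?_
  rcases hj.eq_or_lt with rfl | hj'
  · rw [VV_le _ _ le_rfl, hy]
  · obtain ⟨l, rfl⟩ : ∃ l, j = l + 1 := ⟨j - 1, by ring⟩
    obtain hl : s ≤ l := by omega
    rw [VV_rec _ _ hl, ← ih l hl (by omega)]
    by_cases h : l = s
    · rw [VV_le _ _ (by omega)]; simp [qq, h]
    · rw [← ih (l - 1) (by omega) (by omega)]; simp [qq, h]

theorem voc_le (c : Cs) (S : Sq) (w : ℤ → ℝ) {y : ℤ → ℝ} {s j : ℤ} (hy : y s = 0) (hj : s ≤ j)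
    (r : ℤ → ℝ) {D : ℝ}
    (hq : ∀ i, s ≤ i → i < j → |qq S y s i - r i| ≤ D * (c.L * w i ^ 2)) :
    |y j - VV S r s j| ≤ D * S.DD c w s j := by
  rw [voc S hy j hj]
  unfold VV Sq.DD
  rw [← sum_sub_distrib, mul_sum]
  refine (abs_sum_le_sum_abs _ _).trans (sum_le_sum fun i hi => ?_)
  rw [mem_Ico] at hi
  rw [← mul_sub, abs_mul]
  calc _ ≤ |S.fr (i + 1) j| * (D * (c.L * w i ^ 2)) :=
        mul_le_mul_of_nonneg_left (hq i hi.1 hi.2) (abs_nonneg _)
    _ = _ := by ring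

theorem DD_nonneg {c : Cs} (hL : 0 ≤ c.L) (S : Sq) (w : ℤ → ℝ) (s j : ℤ) : 0 ≤ S.DD c w s j :=
  sum_nonneg fun _ _ => by positivity

theorem DD_anti {c : Cs} (hL : 0 ≤ c.L) (S : Sq) (w : ℤ → ℝ) {s s' : ℤ} (h : s ≤ s') (j : ℤ) :
    S.DD c w s' j ≤ S.DD c w s j :=
  sum_le_sum_of_subset_of_nonneg (Ico_subset_Ico_left h) fun _ _ _ => by (clear * - hL; positivity)

theorem dP_lip (x y : ℝ) : dP x ≤ dP y + |x - y| := by
  unfold dP
  have h1 := abs_sub_abs_le_abs_sub (x - Real.pi / 2) (y - Real.pi / 2)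
  have h2 := abs_sub_abs_le_abs_sub (x + Real.pi / 2) (y + Real.pi / 2)
  rw [show x - Real.pi / 2 - (y - Real.pi / 2) = x - y by ring] at h1
  rw [show x + Real.pi / 2 - (y + Real.pi / 2) = x - y by ring] at h2
  rcases le_total |y - Real.pi / 2| |y + Real.pi / 2| with h | h
  · rw [min_eq_left h]; exact (min_le_left _ _).trans (by linarith only [h1])
  · rw [min_eq_right h]; exact (min_le_right _ _).trans (by linarith only [h2])

theorem dP_lip' (x y : ℝ) : dP y ≤ dP x + |x - y| := by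
  rw [abs_sub_comm]; exact dP_lip y x

theorem vt_mem (x : ℝ) : 0 ≤ vt x ∧ vt x ≤ 1 :=
  ⟨le_max_left _ _, max_le zero_le_one (min_le_left _ _)⟩

theorem vt_lip (x y : ℝ) : |vt x - vt y| ≤ 50 * |x - y| := by
  have h1 := dP_lip x y
  have h2 := dP_lip' x y
  have h3 := abs_nonneg (x - y)
  unfold vt
  rw [abs_le]
  constructor <;> simp only [max_def, min_def] <;> split_ifs <;> linarith

theorem kk_mem (S : Sq) (j : ℤ) : 0 ≤ S.kk j ∧ S.kk j ≤ 1 :=
  ⟨mul_nonneg (vt_mem _).1 (vt_mem _).1, mul_le_one₀ (vt_mem _).2 (vt_mem _).1 (vt_mem _).2⟩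

theorem kk_lip (S S' : Sq) (j : ℤ) :
    |S'.kk j - S.kk j| ≤ 50 * (|S'.X j - S.X j| + |S'.X (j - 1) - S.X (j - 1)|) := by
  unfold Sq.kk
  have h1 := vt_lip (S'.X j) (S.X j)
  have h2 := vt_lip (S'.X (j - 1)) (S.X (j - 1))
  obtain e : vt (S'.X j) * vt (S'.X (j - 1)) - vt (S.X j) * vt (S.X (j - 1)) =
      (vt (S'.X j) - vt (S.X j)) * vt (S'.X (j - 1)) +
        vt (S.X j) * (vt (S'.X (j - 1)) - vt (S.X (j - 1))) := by ring
  rw [e]
  refine (abs_add_le _ _).trans ?_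
  rw [abs_mul, abs_mul, abs_of_nonneg (vt_mem _).1, abs_of_nonneg (vt_mem (S.X j)).1]
  have h3 := mul_le_of_le_one_right (abs_nonneg (vt (S'.X j) - vt (S.X j))) (vt_mem (S'.X (j - 1))).2
  have h4 := mul_le_of_le_one_left (abs_nonneg (vt (S'.X (j - 1)) - vt (S.X (j - 1))))
    (vt_mem (S.X j)).2
  linarith only [h1, h2, h3, h4]

/-- the numerical facts used in this row -/
structure Num (c : Cs) : Prop where
  CG : 1 ≤ c.CG
  L : 1000 ≤ c.L
  lam : 10 ^ 6 * c.CG ≤ c.lam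
  lam2 : 800000 * c.β / c.a ≤ c.lam
  β : 4 ≤ c.β
  a : 0 < c.a
  k0 : 1 / 16 ≤ c.k0
  k1 : c.k0 < 1 / 2

theorem num : Hier Num := by
  have h1 := Hier.base
  have h2 := Hier.L_ge (fun _ => 1000) fun _ _ => rfl
  have h3 := Hier.lam_ge (fun c => 10 ^ 6 * c.CG) fun _ _ => rfl
  have h4 := Hier.lam_ge (fun c => 800000 * c.β / c.a) fun _ _ => rfl
  have h5 := Hier.β_ge (fun _ => 4) fun _ _ _ => rfl
  have h6 := Hier.a_le (fun _ => 1) (fun _ _ _ _ _ _ => rfl) (Hier.of_all fun _ => one_pos)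
  exact (h1.and (h2.and (h3.and (h4.and (h5.and h6))))).mono
    fun c ⟨a1, a2, a3, a4, a5, a6⟩ => ⟨a1.2.2.2.2.2, a2, a3, a4, a5, a6.1, a1.1, a1.2.1⟩

namespace Num
variable {c : Cs} (N : Num c)
include N

theorem lam6 : 10 ^ 6 ≤ c.lam := by have := N.CG; have := N.lam; (rename_i zq0; linarith only [zq0, this])
theorem L0 : 0 < c.L := by have := N.L; linarith only [this]
theorem LG : c.L ≤ c.CG * c.L := le_mul_of_one_le_left N.L0.le N.CG
theorem bl4 : 4 * c.lam ≤ c.bl := mul_le_mul_of_nonneg_right N.β (by have := N.lam6; linarith only [this])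

theorem E_ge : c.L ^ 2 ≤ Real.exp (c.bl / 2) := by
  obtain h : c.L ^ 2 = Real.exp (2 * c.lam) := by
    rw [show (2 : ℝ) * c.lam = ((2 : ℕ) : ℝ) * c.lam by norm_num, Real.exp_nat_mul, Cs.lam,
      Real.exp_log N.L0]
  rw [h]
  exact Real.exp_le_exp.2 (by have := N.bl4; linarith only [this])

omit N in
theorem dlE : c.dl * Real.exp (c.bl / 2) ^ 4 = 1 := by
  rw [← Real.exp_nat_mul, Cs.dl, ← Real.exp_add, ← Real.exp_zero]; congr 1; push_cast; ring

omit N in
theorem dl0 : 0 < c.dl := Real.exp_pos _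

theorem E6 : 10 ^ 6 ≤ Real.exp (c.bl / 2) := by
  have := N.E_ge; have := N.L; (rename_i zq0; nlinarith only [zq0, this])

theorem dlE2 : c.dl * Real.exp (c.bl / 2) ^ 2 ≤ 1 / 10 ^ 12 := by
  have h := dlE (c := c)
  have h6 := N.E6
  have h0 := dl0 (c := c)
  set E := Real.exp (c.bl / 2)
  obtain h1 : 10 ^ 12 ≤ E ^ 2 := by nlinarith only [h6]
  obtain h2 : 0 ≤ c.dl * E ^ 2 := by positivity
  have h3 : c.dl * E ^ 2 * 10 ^ 12 ≤ c.dl * E ^ 2 * E ^ 2 := mul_le_mul_of_nonneg_left h1 h2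
  obtain h4 : c.dl * E ^ 2 * E ^ 2 = 1 := by rw [← h]; ring
  rw [le_div_iff₀ (by norm_num)]; linarith only [h, h3]

theorem dlE1 : c.dl * Real.exp (c.bl / 2) ≤ 1 / 10 ^ 12 := by
  refine le_trans (mul_le_mul_of_nonneg_left ?_ dl0.le) N.dlE2
  have h6 := N.E6
  nlinarith only [h6]

theorem dl1 : c.dl ≤ 1 / 10 ^ 12 := by
  refine le_trans (le_mul_of_one_le_right dl0.le ?_) N.dlE1
  have h6 := N.E6
  linarith only [h6]

theorem dlL : c.dl * c.L ^ 2 ≤ 1 / 10 ^ 12 :=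
  (mul_le_mul_of_nonneg_left N.E_ge dl0.le).trans N.dlE1

theorem dlG : c.dl ≤ c.CG * c.L := by have := N.dl1; have := N.LG; have := N.L; (rename_i zq1 zq0; linarith only [zq1, zq0, this])

theorem sm1 {x : ℝ} (h : x ≤ 1 / c.lam ^ 2) : c.CG * x ≤ 1 / 10 ^ 6 * (1 / c.lam) := by
  have h6 := N.lam6
  obtain h0 : 0 < c.lam := by linarith only [h6]
  have h1 := N.CG
  calc c.CG * x ≤ c.CG * (1 / c.lam ^ 2) := mul_le_mul_of_nonneg_left h (by linarith only [h1])
    _ = c.CG / c.lam * (1 / c.lam) := by field_simp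
    _ ≤ _ := by
      refine mul_le_mul_of_nonneg_right ?_ (by positivity)
      rw [div_le_iff₀ h0]; have := N.lam; linarith only [this]

theorem il : 1 / c.lam ≤ 1 / 10 ^ 6 := one_div_le_one_div_of_le (by norm_num) N.lam6

theorem sm2 {x : ℝ} (h : x ≤ 1 / c.lam ^ 2) : c.CG * x ≤ 1 / 10 ^ 12 := by
  have := N.sm1 h; have := N.il; (rename_i zq0; linarith only [zq0, this])

theorem w0 : 0 ≤ c.w0 := by have := N.lam6; unfold Cs.w0; positivity

theorem chK : 1 / 2 ≤ c.chK ∧ c.chK ≤ c.bl := by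
  obtain h0 : 0 < c.k0 := by have := N.k0; linarith only [this]
  constructor
  · obtain h1 : (2 : ℝ) ≤ 1 / c.k0 := by rw [le_div_iff₀ h0]; have := N.k1; linarith only [this]
    obtain h2 := Real.log_le_log (by norm_num) h1
    have := Real.log_two_gt_d9
    unfold Cs.chK; linarith only [h2, this]
  · obtain h1 : 1 / c.k0 ≤ 16 := by rw [div_le_iff₀ h0]; have := N.k0; linarith only [this]
    obtain h2 := Real.log_le_sub_one_of_pos (show 0 < 1 / c.k0 by positivity)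
    have := N.bl4; have := N.lam6
    unfold Cs.chK; (rename_i zq0; linarith only [h1, h2, zq0, this])
end Num

theorem real1 {u z z' m G L dl τ : ℝ} (hu : 0 ≤ u) (hz0 : 0 ≤ z) (hz : z ≤ 7 / 2 * u) (hz' : 0 ≤ z')
    (hd0 : 0 ≤ dl) (hdm : dl ≤ m) (hm : m ≤ G) (h1 : m * z' ≤ 100 * G * u)
    (h2 : m * z' ^ 2 ≤ 3200 * G * u ^ 2) (hτ0 : 0 ≤ τ) (hτ : τ ≤ 100 * L * u)
    (hd : dl * L ^ 2 ≤ 1 / 10 ^ 12) (hL : 1 ≤ L) (hG : L ≤ G) :
    G * z ^ 2 + m * (z * z' + z' ^ 2) + dl * (τ ^ 2 + τ * (z + z')) ≤ 5500 * G * u ^ 2 ∧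
    G * z + m * z' + dl * τ ≤ 1000 * G * u := by
  have hG1 : 1 ≤ G := hL.trans hG
  have hu2 : u ^ 2 ≤ G * u ^ 2 := le_mul_of_one_le_left (sq_nonneg _) hG1
  have hz2 : z ^ 2 ≤ (7 / 2 * u) ^ 2 := pow_le_pow_left₀ hz0 hz 2
  obtain a1 : G * z ^ 2 ≤ G * (7 / 2 * u) ^ 2 := mul_le_mul_of_nonneg_left hz2 (by linarith only [hL, hG])
  obtain a2 : z * (m * z') ≤ (7 / 2 * u) * (100 * G * u) :=
    mul_le_mul hz h1 (mul_nonneg (by linarith only [hd0, hdm]) hz') (by linarith only [hu])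
  obtain a3 : dl * τ ^ 2 ≤ u ^ 2 := by
    calc dl * τ ^ 2 ≤ dl * (100 * L * u) ^ 2 :=
          mul_le_mul_of_nonneg_left (pow_le_pow_left₀ hτ0 hτ 2) hd0
      _ = 10000 * (dl * L ^ 2) * u ^ 2 := by ring
      _ ≤ 1 * u ^ 2 := mul_le_mul_of_nonneg_right (by linarith only [hd]) (sq_nonneg _)
      _ = _ := one_mul _
  have a4 : dl * z ^ 2 ≤ G * z ^ 2 := mul_le_mul_of_nonneg_right (hdm.trans hm) (sq_nonneg _)
  have a5 : dl * z' ^ 2 ≤ m * z' ^ 2 := mul_le_mul_of_nonneg_right hdm (sq_nonneg _)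
  obtain a6 : dl * (τ * z) ≤ dl * ((τ ^ 2 + z ^ 2) / 2) :=
    mul_le_mul_of_nonneg_left (by linarith only [sq_nonneg (τ - z)]) hd0
  obtain a7 : dl * (τ * z') ≤ dl * ((τ ^ 2 + z' ^ 2) / 2) :=
    mul_le_mul_of_nonneg_left (by linarith only [sq_nonneg (τ - z')]) hd0
  obtain hGu : 0 ≤ G * u ^ 2 := by positivity
  obtain hGu' : 0 ≤ G * u := by positivity
  constructor
  · nlinarith only [h2, hu2, a1, a2, a3, a4, a5, a6, a7]
  · obtain b1 : G * z ≤ G * (7 / 2 * u) := mul_le_mul_of_nonneg_left hz (by linarith only [hL, hG])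
    obtain hd1 : dl ≤ 1 := by
      have : dl ≤ dl * L ^ 2 := le_mul_of_one_le_right hd0 (one_le_pow₀ hL)
      linarith only [hd, this]
    have b2 : dl * τ ≤ τ := mul_le_of_le_one_left hτ0 hd1
    have b3 : L * u ≤ G * u := mul_le_mul_of_nonneg_right hG hu
    linarith only [h1, hτ, hGu', b1, b2, b3]

theorem real2 {η w w' z z' m G L dl τ ρ : ℝ} (hη : 0 ≤ η) (hw : 0 ≤ w) (hw' : w' ≤ ρ * w)
    (hρ : 0 ≤ ρ) (hz0 : 0 ≤ z) (hz : z ≤ 7 / 2 * (η * w)) (hz0' : 0 ≤ z') (hz' : z' ≤ 7 / 2 * (η * w'))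
    (hd0 : 0 ≤ dl) (hm : 0 ≤ m) (h1 : m * ρ ≤ 16 * G) (h2 : m * ρ ^ 2 ≤ 256 * G)
    (h3 : dl * ρ ≤ 1 / 1000) (hτ0 : 0 ≤ τ) (hτ : τ ≤ 100 * L * (η * w)) (hL : 0 ≤ L) (hG : L ≤ G) :
    m * z' ≤ 100 * G * (η * w) ∧ m * z' ^ 2 ≤ 3200 * G * (η * w) ^ 2 ∧
    (m * (z + z') + dl * τ) * w' ≤ 1000 * G * (η * w ^ 2) := by
  have hu : 0 ≤ η * w := mul_nonneg hη hw
  obtain hz'' : z' ≤ 7 / 2 * (ρ * (η * w)) := by
    have := mul_le_mul_of_nonneg_left hw' hη
    linarith only [hz', this]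
  set u := η * w with hu'
  have hG0 : 0 ≤ G := hL.trans hG
  have hGu : 0 ≤ G * u := mul_nonneg hG0 hu
  have a1 : m * z' ≤ m * (7 / 2 * (ρ * u)) := mul_le_mul_of_nonneg_left hz'' hm
  have a2 : m * ρ * u ≤ 16 * G * u := mul_le_mul_of_nonneg_right h1 hu
  have a3 : m * z' ^ 2 ≤ m * (7 / 2 * (ρ * u)) ^ 2 :=
    mul_le_mul_of_nonneg_left (pow_le_pow_left₀ hz0' hz'' 2) hm
  have a4 : m * ρ ^ 2 * u ^ 2 ≤ 256 * G * u ^ 2 := mul_le_mul_of_nonneg_right h2 (sq_nonneg _)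
  obtain hGu2 : 0 ≤ G * u ^ 2 := by (clear * - hG0; positivity)
  refine ⟨by linarith only [hGu, a1, a2], by linarith only [a3, a4, hGu2], ?_⟩
  obtain b0 : 0 ≤ m * (z + z') + dl * τ := by (clear * - hm hz0 hz0' hd0 hτ0; positivity)
  obtain b1 : m * ρ * z ≤ 16 * G * (7 / 2 * u) := mul_le_mul h1 hz hz0 (by linarith only [hL, hG])
  have b2 : m * ρ * z' ≤ m * ρ * (7 / 2 * (ρ * u)) := mul_le_mul_of_nonneg_left hz'' (mul_nonneg hm hρ)
  have b3 : m * ρ ^ 2 * u ≤ 256 * G * u := mul_le_mul_of_nonneg_right h2 hu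
  obtain b4 : dl * ρ * τ ≤ 1 / 1000 * (100 * L * u) := mul_le_mul h3 hτ hτ0 (by norm_num)
  have b5 : L * u ≤ G * u := mul_le_mul_of_nonneg_right hG hu
  obtain b6 : (m * (z + z') + dl * τ) * ρ ≤ 1000 * G * u := by linarith only [hGu, b1, b2, b3, b4, b5]
  calc _ ≤ (m * (z + z') + dl * τ) * (ρ * w) := mul_le_mul_of_nonneg_left hw' b0
    _ = (m * (z + z') + dl * τ) * ρ * w := by ring
    _ ≤ 1000 * G * u * w := mul_le_mul_of_nonneg_right b6 hw
    _ = _ := by rw [hu']; ring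

section main
variable {c : Cs} {M : Mdl} {t t' : ℝ} {S S' : Sq} {θ : ℝ} {w A ζ : ℤ → ℝ} {η : ℝ} {s n : ℤ}
  (N : Num c) (hS : SOK_s c) (h : ShH c M t t' S S' θ w A ζ η s n)

include h in
theorem A_pos {j : ℤ} (h1 : s ≤ j) (h2 : j ≤ n) : 0 < A j ∧ A j ≤ A n :=
  ⟨h.cert.Apos.trans_le (h.cert.mono s j le_rfl h1 h2), h.cert.mono j n h1 h2 le_rfl⟩

include h in
theorem sig_le {j : ℤ} (h1 : s ≤ j) (h2 : j ≤ n) : 0 ≤ η * A j ∧ η * A j ≤ 1 / c.lam ^ 2 :=
  ⟨mul_nonneg h.η0 (A_pos h h1 h2).1.le,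
    (mul_le_mul_of_nonneg_left (A_pos h h1 h2).2 h.η0).trans h.small⟩

include N h in
theorem w_le {i : ℤ} (h1 : s ≤ i) (h2 : i < n) : η * w i ≤ 100 * (η * A n) := by
  have hw := h.cert.pos' i h1 h2.le
  have hL := N.L0
  obtain a1 : |S.fr (i + 1) (i + 1)| * c.L * w i ^ 2 ≤ S.DD c w s (i + 1) :=
    single_le_sum (f := fun l => |S.fr (l + 1) (i + 1)| * c.L * w l ^ 2)
      (fun _ _ => by (clear * - hL; positivity)) (mem_Ico.2 ⟨h1, by omega⟩)
  rw [fr_self, abs_one, one_mul] at a1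
  obtain a2 := h.cert.dd (i + 1) (by omega) (by omega)
  obtain ⟨a3, a4⟩ := A_pos h (show s ≤ i + 1 by omega) (show i + 1 ≤ n by omega)
  obtain a5 : A (i + 1) * w (i + 1) ≤ A n * (100 * c.L * w i) :=
    mul_le_mul a4 (h.cert.fwd i h1 h2) (h.cert.pos' _ (by omega) (by omega)).le (by linarith only [a3, a4])
  obtain a6 : w i * (c.L * w i) ≤ 100 * A n * (c.L * w i) := by linarith only [a1, a2, a5]
  obtain a7 : w i ≤ 100 * A n := le_of_mul_le_mul_right a6 (by positivity)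
  have := mul_le_mul_of_nonneg_left a7 h.η0
  linarith only [this]

include N h in
theorem u_le {i : ℤ} (h1 : s ≤ i) (h2 : i < n) : η * w i ≤ 1 / 10 ^ 10 := by
  have a1 := w_le N h h1 h2
  obtain ⟨a2, a3⟩ := sig_le h h.sn le_rfl
  have a4 := N.sm2 a3
  have a5 : η * A n ≤ c.CG * (η * A n) := le_mul_of_one_le_left a2 N.CG
  linarith only [a1, a4, a5]

include h in
theorem tau_le {i : ℤ} (h1 : s ≤ i) (h2 : i < n) : |t' - t| ≤ 100 * c.L * (η * w i) := by
  obtain a1 := h.par (i + 1) (by omega) (by omega)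
  obtain a2 : |S.fr (i + 1) (i + 1)| ≤ ∑ l ∈ Ico s (i + 1), |S.fr (l + 1) (i + 1)| :=
    single_le_sum (f := fun l => |S.fr (l + 1) (i + 1)|) (fun _ _ => abs_nonneg _)
      (mem_Ico.2 ⟨h1, by omega⟩)
  rw [fr_self, abs_one] at a2
  have a3 := le_mul_of_one_le_right (abs_nonneg (t' - t)) a2
  have a4 := mul_le_mul_of_nonneg_left (h.cert.fwd i h1 h2) h.η0
  linarith only [a1, a3, a4]

include N hS h in
theorem pairm {i : ℤ} (h1 : s ≤ i) (h2 : i < n) (z1 : |S'.X i - S.X i| ≤ 7 / 2 * (η * w i))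
    (z2 : s < i → |S'.X (i - 1) - S.X (i - 1)| ≤ 7 / 2 * (η * w (i - 1))) :
    ∃ m, Pair c (S.X i) (S.X (i - 1)) (S'.X i) (S'.X (i - 1)) m ∧
      m * |S'.X (i - 1) - S.X (i - 1)| ≤ 100 * (c.CG * c.L) * (η * w i) ∧
      m * |S'.X (i - 1) - S.X (i - 1)| ^ 2 ≤ 3200 * (c.CG * c.L) * (η * w i) ^ 2 ∧
      (s < i → (m * (|S'.X i - S.X i| + |S'.X (i - 1) - S.X (i - 1)|) + c.dl * |t' - t|) * w (i - 1)
        ≤ 1000 * (c.CG * c.L) * (η * w i ^ 2)) := by
  have hG : 0 ≤ c.CG * c.L := N.L0.le.trans N.LG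
  rcases h1.eq_or_lt with rfl | h1'
  · obtain ⟨m, p1, p2, p3⟩ := h.pair
    refine ⟨m, p1, by linarith only [p2], ?_, fun h => absurd h (lt_irrefl _)⟩
    rw [sq_abs]
    obtain this : 0 ≤ c.CG * c.L * (η * w s) ^ 2 := by (clear * - hG; positivity)
    linarith only [p3, this]
  have z2' := z2 h1'
  have u1 := u_le N h h1 h2
  obtain u2 := u_le N h (show s ≤ i - 1 by omega) (by omega)
  obtain key : ∃ m ρ, Pair c (S.X i) (S.X (i - 1)) (S'.X i) (S'.X (i - 1)) m ∧ 0 ≤ m ∧ 0 ≤ ρ ∧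
      w (i - 1) ≤ ρ * w i ∧ m * ρ ≤ 16 * (c.CG * c.L) ∧ m * ρ ^ 2 ≤ 256 * (c.CG * c.L) ∧
      c.dl * ρ ≤ 1 / 1000 := by
    have hθ := h.θ_hi
    have hθ' := h.θ_lo
    by_cases hK : dP (S.X i) ≤ θ ∧ dP (S.X (i - 1)) ≤ θ
    · obtain e0 : (1 - 3 * c.e0 / 4) * c.w0 ≤ c.w0 :=
        mul_le_of_le_one_left N.w0 (by have := N.k1; unfold Cs.e0; linarith only [this])
      obtain c1 := ((hS M h.ok t h.ht).2.2 S s (i - 1) h.orb (by omega)).2.2.2.2
      obtain c2 := ((hS M h.ok t' h.ht').2.2 S' s (i - 1) h.orb' (by omega)).2.2.2.2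
      rw [sub_add_cancel] at c1 c2
      have d1 := dP_lip (S'.X i) (S.X i)
      have d2 := dP_lip (S'.X (i - 1)) (S.X (i - 1))
      refine ⟨c.CG * c.L, 16, ⟨by linarith only [z1, u1], Or.inr ⟨rfl,
        (c1 (by linarith only [hθ, hK.1]) (by linarith only [hθ, hK.2])).trans e0,
        (c2 (by linarith only [z1, u1, hθ, d1, hK.1]) (by linarith only [z2', u2, hθ, d2, hK.2])).trans e0, by linarith only [z2', u2]⟩⟩, hG, by norm_num,
        h.cert.backK i h1' h2 hK.1 hK.2, by linarith only [], by linarith only [], by have := N.dl1; linarith only [this]⟩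
    · have hL := N.L
      have hLG := N.LG
      have e1 := N.dlE1
      have e2 := N.dlE2
      refine ⟨c.dl, 4 * Real.exp (c.bl / 2), ⟨by linarith only [z1, u1], Or.inl ⟨rfl, ?_⟩⟩, Num.dl0.le,
        by positivity, h.cert.back i h1' h2.le, by linarith only [hL, hLG, e1], by linarith only [hL, hLG, e2], by linarith only [e1]⟩
      rw [not_and_or, not_le, not_le] at hK
      rcases hK with hK | hK
      · exact Or.inl (by linarith only [z1, u1, hθ', hK])
      · exact Or.inr (by linarith only [z2', u2, hθ', hK])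
  obtain ⟨m, ρ, p1, p2, p3, p4, p5, p6, p7⟩ := key
  obtain ⟨r1, r2, r3⟩ := real2 h.η0 (h.cert.pos' i h1 h2.le).le p4 p3 (abs_nonneg _) z1 (abs_nonneg _)
    z2' Num.dl0.le p2 p5 p6 p7 (abs_nonneg _) (tau_le h h1 h2) N.L0.le N.LG
  exact ⟨m, p1, r1, r2, fun _ => r3⟩

include N hS h in
theorem loc {i : ℤ} (h1 : s ≤ i) (h2 : i < n) (z1 : |S'.X i - S.X i| ≤ 7 / 2 * (η * w i))
    (z2 : s < i → |S'.X (i - 1) - S.X (i - 1)| ≤ 7 / 2 * (η * w (i - 1))) :
    |qq S (fun j => S'.X j - S.X j - ζ j) s i - (t' - t) * M.Gt t (S.X i) (S.X (i - 1))|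
      ≤ 6000 * c.CG * η ^ 2 * (c.L * w i ^ 2) ∧
    |S'.a i - S.a i| ≤ 1000 * c.CG * c.L * (η * w i) ∧
    |S'.b i - S.b i| * (if i = s then 0 else w (i - 1)) ≤ 1000 * c.CG * c.L * (η * w i ^ 2) := by
  obtain ⟨m, p1, p2, p3, p4⟩ := pairm N hS h h1 h2 z1 z2
  have hG : 0 ≤ c.CG * c.L := N.L0.le.trans N.LG
  have hw := h.cert.pos' i h1 h2.le
  have hη := h.η0
  obtain hm : c.dl ≤ m ∧ m ≤ c.CG * c.L := by
    rcases p1.2 with p | p <;> rw [p.1]
    exacts [⟨le_rfl, N.dlG⟩, ⟨N.dlG, le_rfl⟩]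
  obtain ⟨t1, t2, t3⟩ := h.ok.tay t t' _ _ _ _ m h.ht h.ht' (h.orb.box i (by omega))
    (h.orb.box (i - 1) (by omega)) (h.orb'.box i (by omega)) (h.orb'.box (i - 1) (by omega)) p1
  rw [← h.orb.step i h1, ← h.orb'.step i h1, ← h.orb.ha i h1, ← h.orb.hb i h1,
    ← sq_abs (S'.X i - S.X i), ← sq_abs (S'.X (i - 1) - S.X (i - 1)), ← sq_abs (t' - t)] at t1
  rw [← h.orb.ha i h1, ← h.orb'.ha i h1] at t2
  rw [← h.orb.hb i h1, ← h.orb'.hb i h1] at t3
  obtain ⟨r1, r2⟩ := real1 (mul_nonneg hη hw.le) (abs_nonneg _) z1 (abs_nonneg _) Num.dl0.le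
    hm.1 hm.2 p2 p3 (abs_nonneg _) (tau_le h h1 h2) N.dlL (by have := N.L; linarith only [this]) N.LG
  have hζ := h.maj.1 i h1 h2
  obtain hGu : 0 ≤ c.CG * c.L * (η * w i) ^ 2 := by (clear * - hG; positivity)
  refine ⟨?_, by linarith only [t2, r2], ?_⟩
  · by_cases e : i = s
    · subst e
      obtain hb : 0 ≤ S.b i :=
        le_trans (by positivity) ((hS M h.ok t h.ht).2.2 S i i h.orb le_rfl).2.2.1
      obtain e1 : qq S (fun j => S'.X j - S.X j - ζ j) i i - (t' - t) * M.Gt t (S.X i) (S.X (i - 1)) =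
          (S'.X (i + 1) - S.X (i + 1) - S.a i * (S'.X i - S.X i) -
            S.b i * (S'.X (i - 1) - S.X (i - 1)) - M.Gt t (S.X i) (S.X (i - 1)) * (t' - t)) +
          S.b i * (S'.X (i - 1) - S.X (i - 1) - ζ (i - 1)) := by
        simp only [qq, if_true, hζ]; ring
      rw [e1]
      refine (abs_add_le _ _).trans ?_
      rw [abs_mul (S.b i), abs_of_nonneg hb]
      have := h.init'
      linarith only [t1, r1, hGu, this]
    · obtain e1 : qq S (fun j => S'.X j - S.X j - ζ j) s i - (t' - t) * M.Gt t (S.X i) (S.X (i - 1)) =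
          S'.X (i + 1) - S.X (i + 1) - S.a i * (S'.X i - S.X i) -
            S.b i * (S'.X (i - 1) - S.X (i - 1)) - M.Gt t (S.X i) (S.X (i - 1)) * (t' - t) := by
        simp only [qq, if_neg e, hζ]; ring
      rw [e1]
      linarith only [t1, r1, hGu]
  · by_cases e : i = s
    · rw [if_pos e, mul_zero]; have := N.CG; have := N.L0; (rename_i zq0; clear * - zq0 this hη hw; positivity)
    · rw [if_neg e]
      have hs : s < i := lt_of_le_of_ne h1 (Ne.symm e)
      obtain this := mul_le_mul_of_nonneg_right t3 (h.cert.pos' (i - 1) (by omega) (by omega)).le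
      have := p4 hs
      (rename_i zq0; linarith only [zq0, this])

include N hS h in
theorem main1 : ∀ j, s ≤ j → j ≤ n → |S'.X j - S.X j| ≤ 7 / 2 * (η * w j) ∧
    |S'.X j - S.X j - ζ j
      - (t' - t) * ∑ i ∈ Ico s j, S.fr (i + 1) j * M.Gt t (S.X i) (S.X (i - 1))|
      ≤ 6000 * c.CG * (η * A j) * (η * w j) := by
  refine sind fun j hj ih hn => ?_
  have hη := h.η0
  have hCG := N.CG
  have hw := h.cert.pos' j hj hn
  obtain v1 := voc_le c S w (y := fun j => S'.X j - S.X j - ζ j) (by simp [h.init]) hj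
    (fun i => (t' - t) * M.Gt t (S.X i) (S.X (i - 1))) (D := 6000 * c.CG * η ^ 2)
    fun i a b => (loc N hS h a (by omega) (ih i a b (by omega)).1
      fun a' => (ih (i - 1) (by omega) (by omega) (by omega)).1).1
  obtain e : VV S (fun i => (t' - t) * M.Gt t (S.X i) (S.X (i - 1))) s j =
      (t' - t) * ∑ i ∈ Ico s j, S.fr (i + 1) j * M.Gt t (S.X i) (S.X (i - 1)) := by
    unfold VV; rw [mul_sum]; exact sum_congr rfl fun _ _ => by ring
  rw [e] at v1
  obtain v2 : 6000 * c.CG * η ^ 2 * S.DD c w s j ≤ 6000 * c.CG * η ^ 2 * (A j * w j) :=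
    mul_le_mul_of_nonneg_left (h.cert.dd j hj hn) (by (clear * - hCG; positivity))
  obtain v3 : |S'.X j - S.X j - ζ j
      - (t' - t) * ∑ i ∈ Ico s j, S.fr (i + 1) j * M.Gt t (S.X i) (S.X (i - 1))|
      ≤ 6000 * c.CG * (η * A j) * (η * w j) := by linarith only [v1, v2]
  refine ⟨?_, v3⟩
  obtain hu : 0 ≤ η * w j := by positivity
  obtain v4 : |(t' - t) * ∑ i ∈ Ico s j, S.fr (i + 1) j * M.Gt t (S.X i) (S.X (i - 1))| ≤
      11 / 10 * (η * w j) := by
    rcases hj.eq_or_lt with rfl | hj'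
    · simp only [Ico_self, sum_empty, mul_zero, abs_zero]; (clear * - hη hw; positivity)
    obtain b1 : |∑ i ∈ Ico s j, S.fr (i + 1) j * M.Gt t (S.X i) (S.X (i - 1))| ≤
        11 / 10 * ∑ i ∈ Ico s j, |S.fr (i + 1) j| := by
      rw [mul_sum]
      refine (abs_sum_le_sum_abs _ _).trans (sum_le_sum fun i hi => ?_)
      rw [mem_Ico] at hi
      obtain b2 := abs_le.1 (h.ok.t_all t _ _ h.ht (h.orb.box i (by omega)) (h.orb.box (i - 1) (by omega)))
      have b3 := N.dl1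
      rw [abs_mul, mul_comm]
      exact mul_le_mul_of_nonneg_right (abs_le.2 ⟨by linarith only [b2, b3], by linarith only [b2, b3]⟩) (abs_nonneg _)
    rw [abs_mul]
    have := mul_le_mul_of_nonneg_left b1 (abs_nonneg (t' - t))
    have := h.par j hj' hn
    (rename_i zq0; linarith only [zq0, this])
  obtain v5 := h.maj.2 j (by omega) hn
  have v6 : c.CG * (η * A j) * (η * w j) ≤ 1 / 10 ^ 12 * (η * w j) :=
    mul_le_mul_of_nonneg_right (N.sm2 (sig_le h hj hn).2) hu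
  have v7 := abs_le.1 v3
  have v8 := abs_le.1 v4
  have v9 := abs_le.1 v5
  rw [abs_le]
  constructor <;> linarith only [hu, v6, v7.1, v7.2, v8.1, v8.2, v9.1, v9.2]

include N hS h in
theorem dab {i : ℤ} (h1 : s ≤ i) (h2 : i < n) :
    |S'.a i - S.a i| ≤ 1000 * c.CG * c.L * (η * w i) ∧
    |S'.b i - S.b i| * (if i = s then 0 else w (i - 1)) ≤ 1000 * c.CG * c.L * (η * w i ^ 2) :=
  (loc N hS h h1 h2 (main1 N hS h i h1 h2.le).1
    fun _ => (main1 N hS h (i - 1) (by omega) (by omega)).1).2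

include N hS h in
theorem z_le {i : ℤ} (h1 : s ≤ i) (h2 : i < n) : |S'.X i - S.X i| ≤ 1 / 1000 := by
  have := (main1 N hS h i h1 h2.le).1
  have := u_le N h h1 h2
  (rename_i zq0; linarith only [zq0, this])

include N hS h in
/-- perturbation term of a sequence majorised by `K w` -/
theorem pert {i : ℤ} (h1 : s < i) (h2 : i < n) {x x' K : ℝ} (hK : 0 ≤ K) (hx : |x| ≤ K * w i)
    (hx' : |x'| ≤ K * w (i - 1)) :
    |(S'.a i - S.a i) * x + (S'.b i - S.b i) * x'| ≤ 2000 * c.CG * η * K * (c.L * w i ^ 2) := by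
  obtain ⟨d1, d2⟩ := dab N hS h h1.le h2
  rw [if_neg h1.ne'] at d2
  refine (abs_add_le _ _).trans ?_
  rw [abs_mul, abs_mul]
  have a1 := mul_le_mul d1 hx (abs_nonneg _) ((abs_nonneg _).trans d1)
  have a2 := mul_le_mul_of_nonneg_left hx' (abs_nonneg (S'.b i - S.b i))
  have a3 := mul_le_mul_of_nonneg_left d2 hK
  linarith only [a1, a2, a3]

include N hS h in
theorem tangent {s1 : ℤ} (hs : s ≤ s1) {ξ ξ' : ℤ → ℝ} {K : ℝ} (hK : 0 ≤ K)
    (r1 : ∀ j, s1 ≤ j → j < n → ξ (j + 1) = S.a j * ξ j + S.b j * ξ (j - 1))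
    (r2 : ∀ j, s1 ≤ j → j < n → ξ' (j + 1) = S'.a j * ξ' j + S'.b j * ξ' (j - 1))
    (hm : ∀ j, s1 ≤ j → j ≤ n → |ξ j| ≤ K * w j) (h0 : ξ' s1 = ξ s1)
    (hi : |S'.b s1 * ξ' (s1 - 1) - S.b s1 * ξ (s1 - 1)| ≤ 200 * c.CG * c.L * K * (η * w s1 ^ 2)) :
    ∀ j, s1 ≤ j → j ≤ n → |ξ' j - ξ j| ≤ 4000 * c.CG * (η * A j) * K * w j := by
  refine sind fun j hj ih hn => ?_
  have hη := h.η0
  have hCG := N.CG
  have hL := N.L0
  obtain two : ∀ i, s1 ≤ i → i < j → |ξ' i| ≤ 2 * K * w i := fun i a b => by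
    obtain a1 := abs_le.1 (ih i a b (by omega))
    obtain a2 := abs_le.1 (hm i a (by omega))
    obtain hw := h.cert.pos' i (by omega) (by omega)
    obtain a3 : c.CG * (η * A i) * (K * w i) ≤ 1 / 10 ^ 12 * (K * w i) :=
      mul_le_mul_of_nonneg_right (N.sm2 (sig_le h (by omega) (by omega)).2) (by (clear * - hK hw; positivity))
    obtain a4 : 0 ≤ K * w i := by positivity
    rw [abs_le]
    constructor <;> linarith only [a3, a1.1, a1.2, a2.1, a2.2]
  have v1 := voc_le c S w (y := fun j => ξ' j - ξ j) (by simp [h0]) hj (fun _ => 0)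
    (D := 4000 * c.CG * η * K) fun i a b => by
      by_cases e : i = s1
      · subst e
        obtain e1 : qq S (fun j => ξ' j - ξ j) i i - 0 =
            (S'.a i - S.a i) * ξ i + (S'.b i * ξ' (i - 1) - S.b i * ξ (i - 1)) := by
          simp only [qq, if_true, r1 i a (by omega), r2 i a (by omega), h0]; ring
        rw [e1]
        refine (abs_add_le _ _).trans ?_
        rw [abs_mul]
        obtain d1 := (dab N hS h hs (show i < n by omega)).1
        obtain a1 := mul_le_mul d1 (hm i a (by omega)) (abs_nonneg _) ((abs_nonneg _).trans d1)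
        obtain a2 : 0 ≤ c.CG * η * K * (c.L * w i ^ 2) := by (clear * - hCG hη hK hL; positivity)
        linarith only [hi, a1, a2]
      · obtain e1 : qq S (fun j => ξ' j - ξ j) s1 i - 0 =
            (S'.a i - S.a i) * ξ' i + (S'.b i - S.b i) * ξ' (i - 1) := by
          simp only [qq, if_neg e, r1 i a (by omega), r2 i a (by omega)]; ring
        rw [e1]
        obtain this := pert N hS h (show s < i by omega) (show i < n by omega) (by linarith only [hK])
          (two i a b) (two (i - 1) (by omega) (by omega))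
        linarith only [this]
  obtain e : VV S (fun _ => 0) s1 j = 0 := by simp [VV]
  rw [e, sub_zero] at v1
  obtain v2 : 4000 * c.CG * η * K * S.DD c w s1 j ≤ 4000 * c.CG * η * K * (A j * w j) :=
    mul_le_mul_of_nonneg_left ((DD_anti hL.le S w hs j).trans (h.cert.dd j (by omega) hn))
      (by (clear * - hCG hη hK; positivity))
  linarith only [v1, v2]

include N hS h in
theorem dd' {s' : ℤ} {A' : ℤ → ℝ} (hs : s ≤ s') (mono : ∀ i j, s' ≤ i → i ≤ j → j ≤ n → A' i ≤ A' j)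
    (hd : ∀ j, s' ≤ j → j ≤ n → S.DD c w s' j ≤ A' j * w j) :
    ∀ j, s' ≤ j → j ≤ n → S'.DD c w s' j ≤ (1 + 1 / c.lam) * A' j * w j := by
  refine sind fun j hj ih hn => ?_
  have hη := h.η0
  have hCG := N.CG
  have hL := N.L0
  obtain hA : ∀ i, s' ≤ i → i ≤ n → 0 ≤ A' i := fun i a b =>
    nonneg_of_mul_nonneg_left ((DD_nonneg hL.le S w s' i).trans (hd i a b))
      (h.cert.pos' i (by omega) b)
  have hAj := hA j hj hn
  obtain ⟨q, hq1, hq2⟩ : ∃ q : ℤ → ℝ, (∀ i, |q i| ≤ c.L * w i ^ 2) ∧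
      VV S' q s' j = S'.DD c w s' j := by
    refine ⟨fun i => if 0 ≤ S'.fr (i + 1) j then c.L * w i ^ 2 else -(c.L * w i ^ 2), fun i => ?_, ?_⟩
    · beta_reduce
      split_ifs
      · rw [abs_of_nonneg (by positivity)]
      · rw [abs_neg, abs_of_nonneg (by (clear * - hL; positivity))]
    · refine sum_congr rfl fun i _ => ?_
      beta_reduce
      split_ifs with e
      · rw [abs_of_nonneg e]; ring
      · rw [abs_of_neg (not_le.1 e)]; ring
  obtain two : ∀ i, s' ≤ i → i < j → |VV S' q s' i| ≤ 2 * A' j * w i := fun i a b => by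
    obtain a1 : |VV S' q s' i| ≤ S'.DD c w s' i := by
      refine (abs_sum_le_sum_abs _ _).trans (sum_le_sum fun l _ => ?_)
      rw [abs_mul, mul_assoc]
      exact mul_le_mul_of_nonneg_left (hq1 l) (abs_nonneg _)
    refine a1.trans ((ih i a b (by omega)).trans ?_)
    refine mul_le_mul_of_nonneg_right ?_ (h.cert.pos' i (by omega) (by omega)).le
    exact mul_le_mul (by have := N.il; linarith only [this]) (mono i j a b.le hn) (hA i a (by omega)) (by norm_num)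
  have v1 := voc_le c S w (y := VV S' q s') (VV_le _ _ le_rfl) hj (fun _ => 0)
    (D := 1 + 4000 * c.CG * η * A' j) fun i a b => by
      obtain a2 : 0 ≤ c.CG * η * A' j * (c.L * w i ^ 2) := by (clear * - hCG hη hAj hL; positivity)
      have a3 := hq1 i
      by_cases e : i = s'
      · subst e
        obtain e1 : qq S (VV S' q i) i i - 0 = q i := by
          simp only [qq, if_true, VV_rec S' q le_rfl, VV_le S' q le_rfl,
            VV_le S' q (show i - 1 ≤ i by omega)]; ring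
        rw [e1]
        linarith only [a2, a3]
      · obtain e1 : qq S (VV S' q s') s' i - 0 =
            (S'.a i - S.a i) * VV S' q s' i + (S'.b i - S.b i) * VV S' q s' (i - 1) + q i := by
          simp only [qq, if_neg e, VV_rec S' q a]; ring
        rw [e1]
        refine (abs_add_le _ _).trans ?_
        obtain this := pert N hS h (show s < i by omega) (show i < n by omega) (by linarith only [hAj])
          (two i a b) (two (i - 1) (by omega) (by omega))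
        linarith only [a3, this]
  obtain e : VV S (fun _ => 0) s' j = 0 := by simp [VV]
  rw [e, sub_zero, hq2] at v1
  obtain hw := h.cert.pos' j (by omega) hn
  obtain v2 : c.CG * η * A' j * S.DD c w s' j ≤ c.CG * η * A' j * (A j * w j) :=
    mul_le_mul_of_nonneg_left ((DD_anti hL.le S w hs j).trans (h.cert.dd j (by omega) hn))
      (by (clear * - hCG hη hAj; positivity))
  obtain v3 : c.CG * (η * A j) * (A' j * w j) ≤ 1 / 10 ^ 6 * (1 / c.lam) * (A' j * w j) :=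
    mul_le_mul_of_nonneg_right (N.sm1 (sig_le h (by omega) hn).2) (by (clear * - hAj hw; positivity))
  obtain v4 : 0 ≤ 1 / c.lam * (A' j * w j) := by have := N.lam6; (clear * - this hAj hw; positivity)
  have v5 := hd j hj hn
  have v6 := le_abs_self (S'.DD c w s' j)
  linarith only [v1, v2, v3, v4, v5, v6]

include N hS h in
theorem wts {j : ℤ} (h1 : s < j) (h2 : j < n) :
    |S'.ch1 c j - S.ch1 c j| ≤ c.a / 10 * S.ch1 c j ∧
    |S'.kk j - S.kk j| ≤ 40000 * (η * w j + η * w (j - 1)) ∧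
    S'.bb c (θ - 1 / 1000) j ≤ S.bb c θ j := by
  have k1 := kk_lip S S' j
  have z1 := (main1 N hS h j h1.le h2.le).1
  obtain z2 := (main1 N hS h (j - 1) (by omega) (by omega)).1
  have u1 : 0 ≤ η * w j := mul_nonneg h.η0 (h.cert.pos' j h1.le h2.le).le
  obtain u2 : 0 ≤ η * w (j - 1) := mul_nonneg h.η0 (h.cert.pos' _ (by omega) (by omega)).le
  refine ⟨?_, by linarith only [k1, z1, z2, u1, u2], ?_⟩
  · obtain ⟨c1, c2⟩ := N.chK
    obtain ⟨m1, m2⟩ := kk_mem S j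
    obtain e : S'.ch1 c j - S.ch1 c j = (S'.kk j - S.kk j) * (c.chK - c.bl) := by
      unfold Sq.ch1; ring
    obtain lo : 1 / 2 ≤ S.ch1 c j := by unfold Sq.ch1; nlinarith only [c1, c2, m2]
    have w1 := w_le N h h1.le h2
    obtain w2 := w_le N h (show s ≤ j - 1 by omega) (by omega)
    have sm := h.small
    have l6 := N.lam6
    obtain l0 : 0 < c.lam := by linarith only [l6]
    have ha := N.a
    obtain b1 : |S'.kk j - S.kk j| * |c.chK - c.bl| ≤ 40000 * (1 / c.lam ^ 2) * c.bl := by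
      refine mul_le_mul ?_ (abs_le.2 ⟨by linarith only [c1], by linarith only [c1, c2]⟩) (abs_nonneg _) (by positivity)
      obtain this : 0 ≤ 1 / c.lam ^ 2 := by positivity
      linarith only [k1, z1, z2, u1, w1, w2, sm]
    obtain b2 : 40000 * (1 / c.lam ^ 2) * c.bl = 40000 * c.β / c.lam := by
      unfold Cs.bl; field_simp
    obtain b3 : 40000 * c.β / c.lam ≤ c.a / 20 := by
      have := N.lam2
      rw [div_le_iff₀ ha] at this
      rw [div_le_iff₀ l0]; linarith only [this]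
    obtain b4 : c.a / 10 * (1 / 2) ≤ c.a / 10 * S.ch1 c j := mul_le_mul_of_nonneg_left lo (by linarith only [ha])
    rw [e, abs_mul]
    linarith only [b1, b2, b3, b4]
  · have y1 := z_le N hS h h1.le h2
    obtain y2 := z_le N hS h (show s ≤ j - 1 by omega) (by omega)
    have d1 := dP_lip' (S'.X j) (S.X j)
    have d2 := dP_lip' (S'.X (j - 1)) (S.X (j - 1))
    obtain ex : Real.exp (-c.bl) ≤ c.k0 * c.L + 1 := by
      obtain a1 : Real.exp (-c.bl) ≤ 1 :=
        Real.exp_le_one_iff.2 (by have := N.bl4; have := N.lam6; (rename_i zq0; linarith only [zq0, this]))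
      obtain a2 : 0 ≤ c.k0 * c.L := mul_nonneg (by have := N.k0; linarith only [this]) N.L0.le
      linarith only [a1, a2]
    unfold Sq.bb
    split_ifs with a b b
    · exact le_rfl
    · exact absurd ⟨by linarith only [y1, d1, a.1], by linarith only [y2, d2, a.2]⟩ b
    · exact ex
    · exact le_rfl
end main

theorem sh_of {c : Cs} (N : Num c) (hS : SOK_s c) : SH_s c := by
  intro M t t' S S' θ w A ζ η s n h
  have hCG := N.CG
  obtain KS : ∀ x, 0 ≤ x → 6000 * c.CG * x ≤ c.KS * x := fun x hx =>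
    mul_le_mul_of_nonneg_right (by unfold Cs.KS; linarith only [hCG]) hx
  obtain tg : ∀ {s1 : ℤ} {ξ ξ' : ℤ → ℝ} {K : ℝ}, s ≤ s1 → 0 ≤ K →
      (∀ j, s1 ≤ j → j ≤ n → |ξ' j - ξ j| ≤ 4000 * c.CG * (η * A j) * K * w j) →
      ∀ j, s1 ≤ j → j ≤ n → |ξ' j - ξ j| ≤ c.KS * (η * A j) * K * w j := by
    intro s1 ξ ξ' K hs hK H j a b
    obtain a1 := (sig_le h (show s ≤ j by omega) b).1
    obtain a2 := h.cert.pos' j (by omega) b
    obtain a3 : 0 ≤ η * A j * K * w j := by positivity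
    have a4 := KS _ a3
    obtain a5 : 0 ≤ c.CG * (η * A j * K * w j) := by (clear * - hCG a1 hK a2; positivity)
    have := H j a b
    linarith only [a4, a5, this]
  refine ⟨fun j a b => ?_, fun j a b => ⟨w_le N h a b, dab N hS h a b⟩, fun j a b => wts N hS h a b,
    fun ξ ξ' K hK hm r2 h0 hi => tg le_rfl hK
      (tangent N hS h le_rfl hK hm.1 r2 (fun j a b => hm.2 j (by omega) b) h0 hi),
    fun i B hi hB j a b => ?_, ?_, fun s' A' hs mono hd => dd' N hS h hs mono hd⟩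
  · obtain ⟨m1, m2⟩ := main1 N hS h j a b
    have u : 0 ≤ η * w j := mul_nonneg h.η0 (h.cert.pos' j a b).le
    have := KS _ (mul_nonneg (sig_le h a b).1 u)
    exact ⟨by linarith only [m1, u], by linarith only [m2, this]⟩
  · obtain hw := h.cert.pos' (i + 1) hi (by omega)
    obtain hB0 : 0 ≤ B :=
      nonneg_of_mul_nonneg_left ((abs_nonneg _).trans (hB (i + 1) (by omega) (by omega))) hw
    refine tg hi hB0 (tangent N hS h hi hB0 (fun j a _ => fr_rec S a) (fun j a _ => fr_rec S' a)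
      (fun l a b => hB l (by omega) b) (by rw [fr_self, fr_self]) ?_) j (by omega) b
    rw [fr_lt S (by omega), fr_lt S' (by omega), mul_zero, mul_zero, sub_zero, abs_zero]
    have := h.η0
    have := N.L0
    (rename_i zq0; clear * - hCG this hB0 zq0 hw; positivity)
  · refine ⟨h.cert.pos, h.cert.pos', fun j a b d1 d2 => h.cert.backK j a b ?_ ?_, h.cert.back,
      h.cert.fwd, fun i j a b d => by have := h.cert.mono i j a b d; linarith only [this],
      by have := h.cert.Apos; linarith only [this], fun j a b => ?_⟩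
    · have := z_le N hS h a.le b
      have := dP_lip' (S'.X j) (S.X j)
      (rename_i zq0; linarith only [d1, zq0, this])
    · obtain this := z_le N hS h (show s ≤ j - 1 by omega) (by omega)
      have := dP_lip' (S'.X (j - 1)) (S.X (j - 1))
      (rename_i zq0; linarith only [d2, zq0, this])
    · refine (dd' N hS h le_rfl h.cert.mono h.cert.dd j a b).trans ?_
      refine mul_le_mul_of_nonneg_right ?_ (h.cert.pos' j a b).le
      exact mul_le_mul_of_nonneg_right (by have := N.il; linarith only [this]) (A_pos h a b).1.le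

end SHr

theorem sh : Hier fun c => SOK_s c → SH_s c := SHr.num.mono fun _ N hS => SHr.sh_of N hS

end
end Pool.Agent.MP_9cbfe4_an

end

/-! ### Part YA -/

section

/-! Two `l^∞`-close windows ending at folds: a priori comparison (core of row YCMP). -/

namespace Pool.Agent.MP_9cbfe4_an

open Finset Filter Topology

noncomputable section

namespace YA

structure Nm (c : Cs) : Prop extends SHr.Num c where
  a1 : c.a ≤ 1 / 200
  β8 : 8 ≤ c.β

/-- hypotheses of the comparison on the window `[p, n]`; `κ = 0` is the truncated case -/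
structure CH (c : Cs) (M : Mdl) (t t' : ℝ) (S S' : Sq) (ξ ξ' : ℤ → ℝ) (p n : ℤ) (E x e κ : ℝ) :
    Prop where
  ok : M.OK c
  ht : TI t
  ht' : TI t'
  orb : IsOrb c M t S (p + 1)
  orb' : IsOrb c M t' S' (p + 1)
  pn : p < n
  sol : ∀ j, p < j → j < n → ξ (j + 1) = S.a j * ξ j + S.b j * ξ (j - 1)
  sol' : ∀ j, p < j → j < n → ξ' (j + 1) = S'.a j * ξ' j + S'.b j * ξ' (j - 1)
  ne : ξ n ≠ 0
  ne' : ξ' n ≠ 0
  d1 : ∀ i, p ≤ i → i < n → S.Pb i n * |ξ i| ≤ 400 * Real.exp (-(1 - 3 * c.a) * S.chi c i n) * |ξ n|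
  d2 : ∀ i, p ≤ i → i < n → |ξ i| ≤ 400 * Real.exp (3 * c.a * S.chi c i n) * |ξ n|
  d3 : ∀ i, p ≤ i → i < n → |ξ' i| ≤ 400 * Real.exp (7 / 2 * c.a * S.chi c i n) * |ξ' n|
  gr : ∀ i j, p ≤ i → i < n → p < j → j < n → |S.fr (i + 1) j - S.fr (i + 1) n * (ξ j / ξ n)| ≤
    4 * E ^ 80 * Real.exp (-(1 - 3 * c.a) * S.chi c i j)
  kk : S.kk n = 0
  cl : ∀ j, p ≤ j → j ≤ n → |S'.X j - S.X j| ≤ x
  EL : c.L ≤ E
  EN : ((n - p : ℤ) : ℝ) ≤ E
  hx : x * E ^ 400 ≤ 1
  hτ : |t' - t| * E ^ 900 ≤ 1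
  e0 : 0 < e
  he : e * E ^ 900 ≤ 1
  κ01 : (κ = 0 ∧ ξ p = 0 ∧ ξ' p = 0 ∧ S'.X p = S.X p) ∨ κ = 1
  κe : κ * Real.exp (-(1 - 13 / 2 * c.a) * S.chi c p n) * E ^ 3 ≤ e

section main
variable {c : Cs} {M : Mdl} {t t' : ℝ} {S S' : Sq} {ξ ξ' : ℤ → ℝ} {p n : ℤ} {E x e κ : ℝ}
  (N : Nm c) (hS : SOK_s c) (h : CH c M t t' S S' ξ ξ' p n E x e κ)

end main

end YA

end
end Pool.Agent.MP_9cbfe4_an

end

/-! ### Part YCMP -/

section

/-! Row YCMP: uniformly close tame windows lie on nearby leaves. -/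

namespace Pool.Agent.MP_9cbfe4_an

open Finset Filter Topology

noncomputable section

namespace YA

structure Nm2 (c : Cs) : Prop extends Nm c where
  a2 : c.a ≤ 1 / 1000
  βa : 3 / c.a ≤ c.β

section tw
variable {c : Cs} {M : Mdl} {ρ t : ℝ} {S : Sq} {ξ w A : ℤ → ℝ} {Rg : Finset ℤ} {n : ℤ}
  (N : Nm c) (hS : SOK_s c) (ok : M.OK c) (T : TW c M ρ t S ξ w A Rg n)

end tw

end YA

end
end Pool.Agent.MP_9cbfe4_an

end

/-! ### Part EBAll -/

section

/-! Section E-B of THM-2 assembled: one class of candidates has small measure. -/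

namespace Pool.Agent.MP_9cbfe4_an.E

theorem run : RUN_s :=
  run_of runa runb runc sd (pst sd dich low (term jmp) (next jmp) aa) (yb core) psi ent box
    (tl core) (base jmp)

end Pool.Agent.MP_9cbfe4_an.E

end

/-! ### Part GEO -/

section

/-! Row GEO: box and gauge on segments along an orbit that fits. -/

namespace Pool.Agent.MP_9cbfe4_an

open Finset Filter Topology Real

/-- an orbit from time `1` stays well inside the box -/
theorem orb_abs {c : Cs} {M : Mdl} {t : ℝ} {S : Sq} (h : SOK.Big c) (hM : M.OK c) (ht : TI t)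
    (hS : IsOrb c M t S 1) (h0 : |S.X 0| ≤ 3 / 2 * c.L ∧ |S.X 1| ≤ 3 / 2 * c.L) {l : ℤ}
    (hl : 0 ≤ l) : |S.X l| ≤ 3 / 2 * c.L := by
  rcases hl.eq_or_lt with rfl | hl
  · exact h0.1
  rcases (show 1 ≤ l by omega).eq_or_lt with rfl | hl
  · exact h0.2
  have e := hS.step (l - 1) (by omega)
  rw [sub_add_cancel] at e
  rw [e]
  exact G_lt h hM ht (hS.box _ (by omega)) (hS.box _ (by omega))

theorem dP_seg {y y' a b w : ℝ} (ha : 0 ≤ a) (hb : 0 ≤ b) (hab : a + b = 1) (hy : dP y ≤ w)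
    (hy' : dP y' ≤ w) (hw : w ≤ 1 / 2) (hd : |y' - y| ≤ 1) : dP (a * y + b * y') ≤ w := by
  have hp := Real.pi_gt_three
  have hd := abs_le.1 hd
  obtain key : ∀ u : ℝ, |y - u| ≤ w → |y' - u| ≤ w → |a * y + b * y' - u| ≤ w := fun u h1 h2 => by
    obtain e : a * y + b * y' - u = a * (y - u) + b * (y' - u) := by linear_combination u * hab
    have h1 := abs_le.1 h1
    have h2 := abs_le.1 h2
    obtain e2 : w = a * w + b * w := by linear_combination -w * hab
    rw [e, abs_le]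
    constructor <;> linarith only [e2, mul_le_mul_of_nonneg_left h1.1 ha, mul_le_mul_of_nonneg_left h1.2 ha,
      mul_le_mul_of_nonneg_left h2.1 hb, mul_le_mul_of_nonneg_left h2.2 hb]
  unfold dP at *
  rcases min_le_iff.1 hy with h1 | h1 <;> rcases min_le_iff.1 hy' with h2 | h2
  · exact min_le_of_left_le (key _ h1 h2)
  · have := abs_le.1 h1; have := abs_le.1 h2; linarith [this.1, this.2]
  · have := abs_le.1 h1; have := abs_le.1 h2; linarith [this.1, this.2]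
  · refine min_le_of_right_le ?_
    simpa using key (-(π / 2)) (by simpa using h1) (by simpa using h2)

theorem geo_of {K : ℕ} {c : Cs} (h : SOK.Big c) : GEO_s K c := by
  intro M t g S k n H t' S' H' l l1 ln d1 d0 z hz
  obtain ⟨a, b, ha, hb, hab, rfl⟩ := hz
  have hM := H.ok.ok
  have ht : TI t := ⟨H.t0.le, H.t1.le⟩
  have ht' : TI t' := ⟨H'.t0.le, H'.t1.le⟩
  have hL := h.L
  have g16 := H.g16
  obtain near : ∀ y y' : ℝ, |y' - y| ≤ 1 / 10000 → |a * y + b * y' - y| ≤ 1 / 10000 := fun y y' hd => by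
    obtain e : a * y + b * y' - y = b * (y' - y) := by linear_combination y * hab
    rw [e, abs_mul, abs_of_nonneg hb]
    nlinarith only [ha, hab, hb, hd, abs_nonneg (y' - y)]
  have n1 := near _ _ d1
  have n0 := near _ _ d0
  have p1 := abs_le.1 ((dP_lip _ _).trans n1)
  have p0 := abs_le.1 ((dP_lip _ _).trans n0)
  have q1 := abs_le.1 ((dP_lip _ _).trans d1)
  have q0 := abs_le.1 ((dP_lip _ _).trans d0)
  obtain ob : a • ((t, S.X l, S.X (l - 1)) : ℝ × ℝ × ℝ) + b • (t', S'.X l, S'.X (l - 1)) ∈ OB c := by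
    have x1 := abs_le.1 (orb_abs h hM ht H.orb H.box0 (l := l) (by omega))
    have x0 := abs_le.1 (orb_abs h hM ht H.orb H.box0 (l := l - 1) (by omega))
    have n1 := abs_le.1 n1
    have n0 := abs_le.1 n0
    have m := convex_Ioo (0 : ℝ) 1 ⟨H.t0, H.t1⟩ ⟨H'.t0, H'.t1⟩ ha hb hab
    refine ⟨m.1, m.2, ?_, ?_⟩
    · show |a * S.X l + b * S'.X l| < _
      rw [abs_lt]; constructor <;> linarith only [hL, x1.1, x1.2, n1.1, n1.2]
    · show |a * S.X (l - 1) + b * S'.X (l - 1)| < _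
      rw [abs_lt]; constructor <;> linarith only [hL, x0.1, x0.2, n0.1, n0.2]
  refine ⟨ob, fun hD hn => ?_, fun j j2 jK v => H.ok.bd j j2 jK _ ob _ ?_ ?_ v⟩
  · show 1 ≤ dP (a * S.X l + b * S'.X l)
    have f1 := H.fit.fold l hD hn
    have f2 := SOK.sin_lo (S.X l)
    have f3 := SOK.dP_nn (S.X l)
    obtain this : 5 / 4 ≤ dP (S.X l) := by
      by_contra hc
      nlinarith only [g16, f1, f2, f3, not_le.1 hc]
    linarith only [this, p1.1]
  · exact exp_le_exp.2 (by linarith only [(H.sk.1.ch_mem l).2])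
  · show 1 / 100 ≤ dP (a * S.X l + b * S'.X l) ∨ 1 / 100 ≤ dP (a * S.X (l - 1) + b * S'.X (l - 1)) ∨
      dP (a * S.X (l - 1) + b * S'.X (l - 1)) ≤ c.w0 ∧ 1 / 4 ≤ exp (-k.ch l / 2)
    by_cases c1 : 1 / 100 ≤ dP (a * S.X l + b * S'.X l)
    · exact .inl c1
    by_cases c0 : 1 / 100 ≤ dP (a * S.X (l - 1) + b * S'.X (l - 1))
    · exact .inr (.inl c0)
    rw [not_le] at c1 c0
    have w0 := h.w0_pos
    have w1 := h.w0_le
    have e0 := h.e0_pos
    obtain k1 : dP (S.X (l - 1)) ≤ (1 - c.e0 / 2) * c.w0 :=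
      (SOK.later h hM ht H.orb l1).1.core (by linarith only [c1, w0, w1, p1.1]) (by linarith only [c0, w0, w1, p0.1])
    obtain k2 : dP (S'.X (l - 1)) ≤ (1 - c.e0 / 2) * c.w0 :=
      (SOK.later h hM ht' H'.orb l1).1.core (by linarith only [c1, w0, w1, p1.1, q1.2]) (by linarith only [c0, w0, w1, p0.1, q0.2])
    refine .inr (.inr ⟨dP_seg ha hb hab (by nlinarith only [k1, w0, e0]) (by nlinarith only [k2, w0, e0]) (by linarith only [w0, w1])
      (by linarith only [d0, w0, w1]), ?_⟩)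
    have z1 := (H.fit.zone l l1 ln (by linarith only [g16, c1, w0, w1, p1.1]) (by linarith only [g16, c0, w0, w1, p0.1])).1
    obtain z2 : log 16 = 2 * log 4 := by
      rw [show (16 : ℝ) = 4 ^ 2 by norm_num, log_pow]; norm_num
    calc (1 / 4 : ℝ) = exp (-log 4) := by rw [exp_neg, exp_log (by norm_num)]; norm_num
      _ ≤ _ := exp_le_exp.2 (by linarith only [z1, z2])

theorem geo (K : ℕ) : Hier fun c => GEO_s K c := SOK.big.mono fun _ h => geo_of h

end Pool.Agent.MP_9cbfe4_an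

end

/-! ### Part D8C -/

section

/-! Row D8C: the first jet. -/

namespace Pool.Agent.MP_9cbfe4_an

open Finset Filter Topology Real
open scoped ContDiff

section
variable {K : ℕ} {c : Cs} {M : Mdl} {σ : Seed} {t g : ℝ} {k : Sk} {n : ℤ}

/-- the recursion of the first jet -/
theorem d8c_rec (h : SOK.Big c) (hM : M.OKk c (K + 6)) (A : σ.At K c t) :
    σ.pj M t 1 0 = deriv σ.c t ∧ σ.pj M t 1 1 = deriv σ.v t ∧ ∀ j, 1 ≤ j → σ.pj M t 1 (j + 1) =
      (σ.orb M t).a j * σ.pj M t 1 j + (σ.orb M t).b j * σ.pj M t 1 (j - 1)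
        + M.gt t (σ.orb M t) j := by
  have hL := h.L
  have e : ∀ l, σ.pj M t 1 l = iteratedDeriv 1 (M.fam 1 σ.v σ.c l) t := fun l => rfl
  refine ⟨by rw [e, Mdl.fam_lt (by omega), iteratedDeriv_one],
    by rw [e, Mdl.fam_self, iteratedDeriv_one], fun j hj => ?_⟩
  obtain this := Mdl.fam_jet (m := 1) h hM (by exact_mod_cast le_top) ⟨A.t0, A.t1⟩
    (by linarith only [hL, A.bv]) (by linarith only [hL, A.bc]) A.sv A.sc one_pos (by exact_mod_cast Nat.le_add_left 1 K) hj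
  rw [rest_one, if_pos rfl, add_zero] at this
  exact this

/-- times of a major before the free time `n` -/
theorem OC.maj_times {S : Sq} (H : OC K c M t g S k n) {x : ℤ} (hx : x ∈ k.D) (hn : x < n) :
    x ∈ k.F ∧ 1 ≤ x ∧ x < k.nx x ∧ k.nx x ∈ k.F ∧ k.nx x ≤ n ∧ k.E (k.nx x) x = 4 * k.V x 1 := by
  obtain ⟨xF, xN⟩ := H.sk.1.D_mem x hx
  obtain ⟨a1, a2, a3⟩ := H.sk.1.nx_mem x xN
  refine ⟨xF, (H.sk.1.F_mem x xF).1, a2, a1, a3 n H.hn hn, ?_⟩
  obtain this : (k.D.filter fun y => x < y ∧ y < k.nx x) = ∅ := filter_eq_empty_iff.2 fun y hy hc => by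
    have := a3 y (H.sk.1.D_mem y hy).1 hc.1
    omega
  simp [Sk.E, Sk.an, this, hx]

/-- the depth of a major is `η` up to a power of `g` -/
theorem OC.rho_eta {S : Sq} (H : OC K c M t g S k n) {x : ℤ} (hx : x ∈ k.D) (hn : x < n) :
    S.fr 1 x ≠ 0 ∧ S.fr (x + 1) (k.nx x) ≠ 0 ∧
    k.η x ≤ 4 * g ^ 3 * |S.rho (S.fr 1) x (k.nx x)| ∧ |S.rho (S.fr 1) x (k.nx x)| ≤ g ^ 3 * k.η x := by
  obtain ⟨xF, x1, xJ, JF, Jn, eE⟩ := H.maj_times hx hn
  obtain g0 : 0 < g := by linarith only [H.g1]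
  have wx := H.sk.1.w_pos x x1
  obtain wJ := H.sk.1.w_pos (k.nx x) (by omega)
  have η0 := (H.sk.1.η_mem x hx).1
  have a1 := H.fit.f1 x x1 hn.le
  have a2 := H.fit.f2 x xF hn.le
  obtain b1 := H.fit.f1 (k.nx x) (by omega) Jn
  have b2 := H.fit.f2 (k.nx x) JF Jn
  have c1 := H.fit.fE (k.nx x) JF Jn x (k.nx x) x1 xJ le_rfl
  have c2 := H.fit.flo x hx hn
  rw [eE] at c1
  obtain eV : k.V x 1 * (k.η x * k.w x) = 1 := by unfold Sk.V; field_simp
  obtain V0 : 0 < k.V x 1 := by unfold Sk.V; positivity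
  set u := |S.fr 1 x| with hu
  set v := |S.fr 1 (k.nx x)| with hv
  set f := |S.fr (x + 1) (k.nx x)| with hf
  obtain u0 : 0 < u := by by_contra hc; nlinarith only [wx, a2, g0, not_lt.1 hc]
  obtain f0 : 0 < f := by
    by_contra hc; nlinarith only [c2, g0, not_lt.1 hc, mul_pos V0 wJ]
  obtain e : |S.rho (S.fr 1) x (k.nx x)| = v / (u * f) := by unfold Sq.rho; rw [abs_div, abs_mul]
  refine ⟨abs_pos.1 u0, abs_pos.1 f0, ?_, ?_⟩
  · rw [e, ← mul_div_assoc, le_div_iff₀ (by (clear * - u0 f0; positivity))]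
    calc k.η x * (u * f) ≤ k.η x * (g * k.w x * (g * (4 * k.V x 1) * k.w (k.nx x))) := by gcongr
      _ = 4 * g ^ 2 * k.w (k.nx x) * (k.V x 1 * (k.η x * k.w x)) := by ring
      _ ≤ 4 * g ^ 2 * (g * v) * 1 := by rw [eV]; gcongr
      _ = _ := by ring
  · rw [e, div_le_iff₀ (by (clear * - u0 f0; positivity))]
    calc v ≤ g * k.w (k.nx x) * (k.V x 1 * (k.η x * k.w x)) := by rw [eV, mul_one]; exact b1
      _ = g * k.η x * (k.w x * (k.V x 1 * k.w (k.nx x))) := by ring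
      _ ≤ g * k.η x * (g * u * (g * f)) := by gcongr
      _ = _ := by ring

theorem d8c_of (h : SOK.Big c) (hβ : 1 ≤ c.β) : D8C_s K c := by
  intro M σ t g k n ⟨H, A⟩
  obtain ⟨p0, p1, rc⟩ := d8c_rec (M := M) h H.ok A
  set S := σ.orb M t with hS
  set P := σ.pj M t 1 with hP
  obtain hbl : 10 ≤ c.bl := by unfold Cs.bl; nlinarith only [hβ, h.lam]
  obtain eb : exp (-c.bl / 2) ≤ 1 / 6 := by
    have := add_one_le_exp (c.bl / 2)
    rw [neg_div, exp_neg, inv_le_comm₀ (exp_pos _) (by norm_num)]; linarith only [hbl, this]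
  obtain eb2 : exp (-c.bl) = exp (-c.bl / 2) * exp (-c.bl / 2) := by rw [← exp_add]; congr 1; ring
  have ep := exp_pos (-c.bl / 2)
  have g1 := H.g1
  have g16 := H.g16
  have n1 := (H.sk.1.F_mem n H.hn).1
  have b1 := H.fit.b 1 le_rfl n1
  rw [H.sk.1.ch_one.2] at b1
  obtain c1 : |P 0| ≤ 1 / 10 := by
    rw [p0, ← iteratedDeriv_one]; exact A.cj 1 le_rfl (by omega)
  refine ⟨?_, fun x hx hn => ?_⟩
  · have wn := H.sk.1.w_pos n n1
    have f2 := H.fit.f2 n H.hn le_rfl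
    obtain u0 : 0 < |S.fr 1 n| := by by_contra hc; nlinarith only [f2, eb, wn, ep, g1, not_lt.1 hc]
    have d0 : 0 ≤ k.d8 n := (le_fold_max _).2 (.inl le_rfl)
    obtain d8 : ∑ i ∈ Ico 1 n, |S.fr (i + 1) n| ≤ 256 * (1 / 10000 + k.d8 n) * |S.fr 1 n| :=
      (H.fit.d8 n n1 le_rfl).trans (by
        calc _ ≤ g * (1 / 10000 + k.d8 n) * (g * |S.fr 1 n|) := by (clear * - f2 g1 d0; gcongr)
          _ = g * g * ((1 / 10000 + k.d8 n) * |S.fr 1 n|) := by ring
          _ ≤ 16 * 16 * ((1 / 10000 + k.d8 n) * |S.fr 1 n|) := by (clear * - g16 g1 d0 u0; gcongr)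
          _ = _ := by ring)
    have s0 : 0 ≤ ∑ i ∈ Ico 1 n, |S.fr (i + 1) n| := sum_nonneg fun _ _ => abs_nonneg _
    obtain f2n : |S.fr (1 + 1) n| ≤ ∑ i ∈ Ico 1 n, |S.fr (i + 1) n| := by
      rcases n1.eq_or_lt with rfl | hl
      · rw [S.fr_succ_self]; simp
      · exact single_le_sum (f := fun i => |S.fr (i + 1) n|) (fun _ _ => abs_nonneg _)
          (mem_Ico.2 ⟨le_rfl, hl⟩)
    obtain dl : c.dl ≤ 1 / 36 := by
      obtain this : c.dl ≤ exp (-c.bl) := exp_le_exp.2 (by linarith only [hbl, eb, ep])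
      nlinarith only [eb, eb2, this, ep]
    obtain q : |∑ i ∈ Ico 1 n, S.fr (i + 1) n * M.gt t S i| ≤
        (∑ i ∈ Ico 1 n, |S.fr (i + 1) n|) * (37 / 36) := by
      rw [sum_mul]
      refine (abs_sum_le_sum_abs _ _).trans (sum_le_sum fun i hi => ?_)
      rw [abs_mul]
      refine mul_le_mul_of_nonneg_left ?_ (abs_nonneg _)
      have i1 := (mem_Ico.1 hi).1
      obtain this := abs_le.1 (H.ok.ok.t_all t _ _ ⟨H.t0.le, H.t1.le⟩ (H.orb.box i (by omega))
        (H.orb.box (i - 1) (by omega)))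
      unfold Mdl.gt
      rw [abs_le]; constructor <;> linarith only [eb, ep, dl, this.1, this.2]
    have v := S.voc (Z := P) (s := 1) (n := n) (fun j h1 _ => rc j h1) n1 le_rfl
    obtain e : σ.La M t 1 n - 1 = ((P 1 - 1) * S.fr 1 n + S.b 1 * P 0 * S.fr (1 + 1) n
        + ∑ i ∈ Ico 1 n, S.fr (i + 1) n * M.gt t S i) / S.fr 1 n := by
      have := abs_pos.1 u0
      unfold Seed.La
      rw [← hS, ← hP, v]
      simp only [sub_self]
      field_simp
      ring
    rw [e, abs_div, div_le_iff₀ u0]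
    obtain t1 : |(P 1 - 1) * S.fr 1 n| ≤ 1 / 10 * |S.fr 1 n| := by
      rw [abs_mul, p1]; exact mul_le_mul_of_nonneg_right A.v1 u0.le
    obtain t2 : |S.b 1 * P 0 * S.fr (1 + 1) n| ≤ 1 / 36 * (1 / 10) * ∑ i ∈ Ico 1 n, |S.fr (i + 1) n| := by
      rw [abs_mul, abs_mul, abs_of_nonneg b1.1]
      obtain this : S.b 1 ≤ 1 / 36 := by nlinarith only [eb, eb2, ep, b1.2]
      (clear * - this c1 f2n; gcongr)
    have := (abs_add_three _ _ _).trans (add_le_add (add_le_add t1 t2) q)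
    linarith only [u0, d8, s0, this, mul_nonneg d0 u0.le]
  · obtain ⟨xF, x1, xJ, JF, Jn, -⟩ := H.maj_times hx hn
    obtain ⟨ne1, ne2, r1, r2⟩ := H.rho_eta hx hn
    refine ⟨?_, r1, r2, ?_⟩
    · obtain e1 := Sq.blk_id (S := S) (P := P) (Q := M.gt t S) (ξ := S.fr 1) xJ ne1 ne2
        (fun j h1 _ => rc j (by omega)) fun j h1 _ => S.fr_succ (by omega)
      have e2 := Sq.Wr_eq (S := S) (P := P) (Q := M.gt t S) (ξ := S.fr 1) x1
        (fun j h1 _ => rc j h1) fun j h1 _ => S.fr_succ h1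
      obtain e3 : S.Wr P (S.fr 1) 1 = -(S.b 1 * P 0) := by
        rw [Sq.Wr, S.fr_pred, S.fr_self, sub_self]; ring
      obtain e4 : Ioo x (k.nx x) = Ico (x + 1) (k.nx x) := by ext; simp only [mem_Ioo, mem_Ico]; omega
      obtain e5 : ∑ i ∈ Ico 1 x, (-1) ^ (x - i).toNat * S.Pb i x * (S.fr 1 i / S.fr 1 x) * M.gt t S i =
          (∑ i ∈ Ico 1 x, (-1) ^ (x - i).toNat * S.Pb i x * S.fr 1 i * M.gt t S i) / S.fr 1 x := by
        rw [sum_div]; exact sum_congr rfl fun i _ => by ring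
      obtain e : S.rho (S.fr 1) x (k.nx x) * P x + M.sgO t S x (k.nx x)
          - P (k.nx x) / S.fr (x + 1) (k.nx x) =
          (-1) ^ (x - 1).toNat * S.Pb 1 x * -(S.b 1 * P 0) / S.fr 1 x := by
        rw [e1, e2, e3]; unfold Mdl.sgO; rw [e4, e5]; ring
      have u0 := abs_pos.2 ne1
      obtain pb : |S.Pb 1 x| ≤ k.PB 1 x := by
        unfold Sq.Pb Sk.PB
        rw [abs_prod]
        exact prod_le_prod (fun _ _ => abs_nonneg _) fun l hl => by
          obtain this := H.fit.b l (by have := (mem_Ioc.1 hl).1; omega) (by have := (mem_Ioc.1 hl).2; omega)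
          rw [abs_of_nonneg this.1]; exact this.2
      have i2 := (H.sk.2.i2 x xF 1 le_rfl x1).1
      rw [H.sk.1.w1, mul_one] at i2
      obtain ch0 : 0 ≤ k.chi 1 x := sum_nonneg fun l _ => by linarith only [eb, ep, (H.sk.1.ch_mem l).1]
      obtain ch : k.chi 0 x = c.bl + k.chi 1 x := by
        unfold Sk.chi
        rw [sum_Ioc_add k.ch (show (0 : ℤ) ≤ 1 by omega) x1, ← H.sk.1.ch_one.1]
        simp [show Ioc (0 : ℤ) 1 = {1} by decide]
      obtain e6 : exp (-k.chi 0 x / 2) = exp (-c.bl / 2) * exp (-k.chi 1 x / 2) := by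
        rw [← exp_add, ch]; congr 1; ring
      obtain e7 : exp (-(99 / 100) * k.chi 1 x) ≤ exp (-k.chi 1 x / 2) := exp_le_exp.2 (by linarith only [ch0])
      have f2 := H.fit.f2 x xF hn.le
      rw [e, abs_div, abs_mul, abs_mul, abs_neg, abs_mul, abs_pow, abs_neg, abs_one, one_pow, one_mul,
        abs_of_nonneg b1.1, div_le_iff₀ u0, e6]
      calc |S.Pb 1 x| * (S.b 1 * |P 0|)
          ≤ 2 * exp (-k.chi 1 x / 2) * (16 * |S.fr 1 x|) * (exp (-c.bl) * (1 / 10)) := by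
            refine mul_le_mul (pb.trans (i2.trans ?_)) (by gcongr; exact b1.2)
              (mul_nonneg b1.1 (abs_nonneg _)) (by positivity)
            have := (H.sk.1.w_pos x x1).le
            gcongr
            exact f2.trans (by gcongr)
        _ = exp (-c.bl / 2) * exp (-k.chi 1 x / 2) * |S.fr 1 x| * (16 / 5 * exp (-c.bl / 2)) := by
            rw [eb2]; ring
        _ ≤ _ := mul_le_of_le_one_right (by (clear * - ne1; positivity)) (by linarith only [eb, ep])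
    · have f1 := H.fit.fold x hx hn
      have hL := h.L
      unfold Seed.Lt
      rw [← hS, abs_neg, abs_mul, abs_of_nonneg (by linarith only [eb, ep, hL] : 0 ≤ c.L)]
      obtain this : 1 / 2 ≤ |cos (S.X x)| := by
        by_contra hc
        have a := sin_sq_add_cos_sq (S.X x)
        rw [← sq_abs (sin _), ← sq_abs (cos _)] at a
        nlinarith only [eb, g16, f1, a, ep, g1, abs_nonneg (sin (S.X x)), abs_nonneg (cos (S.X x)), not_le.1 hc]
      nlinarith only [this, eb, ep, hL]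
end

theorem d8c (K : ℕ) : Hier fun c => D8C_s K c :=
  (SOK.big.and (Hier.β_ge (fun _ => 1) fun _ _ _ => rfl)).mono fun _ h => d8c_of h.1 h.2

end Pool.Agent.MP_9cbfe4_an

end

/-! ### Part J3 -/

section

/-! Row J3: the universal lower bound for the jets. -/

namespace Pool.Agent.MP_9cbfe4_an

open Finset Filter Topology Real

noncomputable section

namespace J3

theorem interp {E e d g ck th C R ωx ωy ρ σx σy W : ℝ} (hd : E = e + d) (e0 : 0 ≤ e) (d2 : 2 ≤ d)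
    (hth : E * th ≤ 1) (R0 : 0 ≤ R) (σ1 : 1 ≤ σx) (hC : ck * (E * g) + 4 * E ≤ C)
    (hR : C * σx ≤ R) (hW : ωx + R ≤ W)
    (ml : E * g / d * σy + W ≤ (ck * (E * g / d) + 1) * σx + ωy) (h : E * ρ - ωy ≤ E * R - ωx) :
    g * σy + e * ρ - ωy ≤ (e - th) * R - ωx - 3 := by
  obtain d0 : 0 < d := by linarith only [d2]
  obtain E0 : 0 < E := by linarith only [hd, e0, d2]
  have a1 := mul_le_mul_of_nonneg_left ml d0.le
  obtain b1 : d * (E * g / d * σy + W) = E * g * σy + d * W := by field_simp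
  obtain b2 : d * ((ck * (E * g / d) + 1) * σx + ωy) = (ck * (E * g) + d) * σx + d * ωy := by
    field_simp
  rw [b1, b2] at a1
  have a2 := mul_le_mul_of_nonneg_left h e0
  have a3 := mul_le_mul_of_nonneg_left hW d0.le
  obtain a4 := mul_le_mul_of_nonneg_right hC (by linarith only [σ1] : 0 ≤ σx)
  have a5 := mul_le_mul_of_nonneg_right hth R0
  have a6 := mul_le_mul_of_nonneg_right d2 R0
  have a7 := mul_le_mul_of_nonneg_left σ1 E0.le
  obtain a8 : d * σx ≤ E * σx := mul_le_mul_of_nonneg_right (by linarith only [hd, e0]) (by linarith only [σ1])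
  refine le_of_mul_le_mul_left ?_ E0
  subst hd
  linarith only [hR, a3, a6, a1, a2, a4, a5, a7, a8]

variable {K : ℕ} {c : Cs}

structure Pa (K : ℕ) (c : Cs) : Prop where
  κ : 0 < c.κ
  lam : 1000 ≤ c.lam
  e3 : c.e3 ^ 2 ≤ 1 / (100 * (K + 1))

theorem hier_Pa (K : ℕ) : Hier (Pa K) :=
  (Hier.base.and ((Hier.lam_ge (fun _ => 1000) fun _ _ => rfl).and
    (Hier.e3_le (fun _ => 1 / (100 * (K + 1))) (fun _ _ _ _ _ _ _ _ => rfl)
      (Hier.of_all fun _ => by positivity)))).mono fun c ⟨h, h1, h2, h3⟩ =>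
    ⟨h.2.2.2.2.1, h1, by
      have : (1 : ℝ) / (100 * (K + 1)) ≤ 1 := by
        rw [div_le_one (by positivity)]; (rename_i zq0; linarith only [zq0, (Nat.cast_nonneg K : (0 : ℝ) ≤ K)])
      (rename_i zq0; nlinarith only [zq0, this])⟩

theorem bud (h : Pa K c) {γ : ℝ} (b : c.Bud K γ) :
    (∀ j, j ≤ K + 3 → 1 ≤ c.gm γ j ∧ 1000 * (K + 1) * c.gm γ j ≤ c.C0) ∧ 2 ≤ c.ck ∧
      1000 * c.ck ≤ c.C0 ∧ 15 ≤ c.gm γ (K + 2) := by
  have K0 : (0 : ℝ) ≤ K := Nat.cast_nonneg K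
  obtain k2 : 2 ≤ c.ck := by rw [Cs.ck]; linarith only [h.κ]
  obtain g1 : 1000 * c.ck ≤ c.Cg := by rw [Cs.Cg]; nlinarith only [k2]
  obtain g2 : 1 ≤ c.Cg := by linarith only [k2, g1]
  obtain γ1 : 1 ≤ γ := by linarith only [b.1]
  obtain p : ∀ j, 1 ≤ j → c.Cg ≤ c.gm γ j := fun j hj =>
    (le_self_pow₀ g2 (by omega)).trans (le_mul_of_one_le_left (by positivity) γ1)
  refine ⟨fun j hj => ⟨one_le_mul_of_one_le_of_one_le γ1 (one_le_pow₀ g2), le_trans ?_ b.2⟩, k2,
    ?_, by linarith only [k2, g1, p (K + 2) (by omega)]⟩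
  · exact mul_le_mul_of_nonneg_left (mul_le_mul_of_nonneg_left (pow_le_pow_right₀ g2 hj)
      (by linarith only [γ1])) (by positivity)
  · obtain this := p (K + 3) (by omega)
    nlinarith only [k2, g1, this, b.2]

theorem V_eq {k : Sk} (ok : k.OK1 c) {x : ℤ} (hx : x ∈ k.D) (e : ℕ) :
    k.V x e = exp (e * -log (k.η x) - log (k.w x)) := by
  have h1 := (ok.η_mem x hx).1
  have h2 := ok.w_pos x (ok.F_mem x (ok.D_mem x hx).1).1
  rw [Sk.V, exp_sub, exp_log h2, mul_neg, exp_neg, ← log_pow, exp_log (by positivity)]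
  field_simp

theorem le_Vm (k : Sk) {n x : ℤ} (hx : x ∈ k.D) (hn : x < n) (e : ℕ) : k.V x e ≤ k.Vm n e :=
  (le_fold_max _).2 (.inr ⟨x, mem_filter.2 ⟨hx, hn⟩, le_rfl⟩)
theorem le_rh (k : Sk) {n x : ℤ} (hx : x ∈ k.D) (hn : x < n) : 1 / k.η x ^ 2 ≤ k.rh n :=
  (le_fold_max _).2 (.inr ⟨x, mem_filter.2 ⟨hx, hn⟩, le_rfl⟩)

/-- the slack of a major against its level -/
theorem sig (h : Pa K c) {k : Sk} (ok : k.OK1 c) {x : ℤ} (hx : x ∈ k.D) (h0 : 0 < k.σ x) :
    100 * (K + 1) * k.σ x ≤ log (k.w x) + -log (k.η x) + 2 * k.σ x := by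
  have a := ok.d9 x hx
  have b := (ok.maj x hx).2
  obtain W0 : 0 ≤ k.W (k.nx x) := by
    by_contra hn
    linarith only [h0, a, sq_nonneg c.e3, mul_nonneg (sq_nonneg c.e3) (neg_nonneg.2 (not_le.1 hn).le)]
  have a2 := a.trans (mul_le_mul_of_nonneg_right h.e3 W0)
  rw [one_div, inv_mul_eq_div, le_div_iff₀ (by (clear * -; positivity))] at a2
  linarith only [b, a2]

/-- the tail of a window -/
def tl (D u ν : ℝ) (j : ℕ) : ℝ := if j = 1 then u / D else ν / D ^ j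
theorem tl1 (D u ν : ℝ) : tl D u ν 1 = u / D := if_pos rfl
theorem tl2 (D u ν : ℝ) {j : ℕ} (hj : 2 ≤ j) : tl D u ν j = ν / D ^ j := if_neg (by omega)

theorem tl_adm {D u ν W X Y q : ℝ} (D0 : 0 < D) (u0 : 0 ≤ u) (ν0 : 0 ≤ ν) (W0 : 0 < W) (X0 : 0 < X)
    (q1 : 1 ≤ q) (XY : X ≤ Y) (hν : Y * (u ^ 2 * W + u * D * q) ≤ ν) (uW : u * W * X ≤ 1)
    (νW : ν * W * X ≤ 1) (hD : D * q * X ≤ 1) (hq : D * q ≤ 1) {a b : ℕ} (a1 : 1 ≤ a) (b1 : 1 ≤ b) :
    tl D u ν a * tl D u ν b * (W * X) ≤ tl D u ν (a + b) ∧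
      tl D u ν a * q ^ b * X ≤ tl D u ν (a + b) := by
  obtain q0 : 0 ≤ D * q := by positivity
  obtain p1 : 0 ≤ u ^ 2 * W := by positivity
  obtain p2 : 0 ≤ u * D * q := by positivity
  rw [tl2 _ _ _ (show 2 ≤ a + b by omega)]
  obtain pb : (D * q) ^ b ≤ D * q := pow_le_of_le_one q0 hq (by omega)
  constructor
  · rw [le_div_iff₀ (by positivity)]
    rcases a1.eq_or_lt with rfl | a2
    · rcases b1.eq_or_lt with rfl | b2
      · rw [tl1]
        calc _ = X * (u ^ 2 * W) := by field_simp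
          _ ≤ Y * (u ^ 2 * W + u * D * q) :=
            mul_le_mul XY (le_add_of_nonneg_right p2) p1 (by linarith only [X0, XY])
          _ ≤ ν := hν
      · rw [tl1, tl2 _ _ _ b2]
        calc _ = u * W * X * ν := by field_simp; ring
          _ ≤ 1 * ν := mul_le_mul_of_nonneg_right uW ν0
          _ = ν := one_mul _
    · rcases b1.eq_or_lt with rfl | b2
      · rw [tl1, tl2 _ _ _ a2]
        calc _ = u * W * X * ν := by field_simp; ring
          _ ≤ 1 * ν := mul_le_mul_of_nonneg_right uW ν0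
          _ = ν := one_mul _
      · rw [tl2 _ _ _ a2, tl2 _ _ _ b2]
        calc _ = ν * W * X * ν := by field_simp; ring
          _ ≤ 1 * ν := mul_le_mul_of_nonneg_right νW ν0
          _ = ν := one_mul _
  · rw [le_div_iff₀ (by positivity)]
    rcases a1.eq_or_lt with rfl | a2
    · rw [tl1]
      calc _ = X * (u * (D * q) ^ b) := by field_simp; ring
        _ ≤ Y * (u ^ 2 * W + u * D * q) :=
          mul_le_mul XY ((mul_le_mul_of_nonneg_left pb u0).trans (by linarith only [p1])) (by positivity)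
            (by linarith only [X0, XY])
        _ ≤ ν := hν
    · rw [tl2 _ _ _ a2]
      calc _ = (D * q) ^ b * X * ν := by field_simp; ring
        _ ≤ 1 * ν := mul_le_mul_of_nonneg_right
          ((mul_le_mul_of_nonneg_right pb X0.le).trans hD) ν0
        _ = ν := one_mul _

/-- the tail against the maximal major -/
theorem tl_le {D u ν X η w P : ℝ} {K j : ℕ} (K2 : 2 ≤ K) (j1 : 1 ≤ j) (jK : j ≤ K) (D0 : 0 < D)
    (X0 : 0 < X) (η0 : 0 < η) (w0 : 0 < w) (Q1 : D / η ^ 2 ≤ 1) (Q2 : X * (D / η ^ 2) ≤ P)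
    (uν : u * (D / η ^ 2) ≤ ν) (hν : ν ≤ X * (1 / (η ^ (2 * K + 1) * w)) * D ^ (K + 1)) :
    tl D u ν j ≤ P * (1 / (η ^ (2 * j - 1) * w)) := by
  obtain fin : ∀ i : ℕ, 1 ≤ i → X * (1 / (η ^ (2 * j - 1) * w)) * (D / η ^ 2) ^ i ≤
      P * (1 / (η ^ (2 * j - 1) * w)) := by
    intro i hi
    calc _ ≤ X * (1 / (η ^ (2 * j - 1) * w)) * (D / η ^ 2) :=
          mul_le_mul_of_nonneg_left (pow_le_of_le_one (by positivity) Q1 (by omega)) (by (clear * - X0 η0 w0; positivity))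
      _ = X * (D / η ^ 2) * (1 / (η ^ (2 * j - 1) * w)) := by ring
      _ ≤ _ := mul_le_mul_of_nonneg_right Q2 (by positivity)
  rcases j1.eq_or_lt with rfl | j2
  · obtain ⟨i, rfl⟩ : ∃ i, K = i + 2 := ⟨K - 2, by omega⟩
    refine le_trans ?_ (fin (i + 1) (by omega))
    rw [tl1, div_le_iff₀ D0]
    refine le_of_mul_le_mul_right ?_ (show 0 < D / η ^ 2 by positivity)
    refine (uν.trans hν).trans (le_of_eq ?_)
    rw [div_pow]
    field_simp
    ring
  · obtain ⟨i, rfl⟩ : ∃ i, j = i + 1 := ⟨j - 1, by omega⟩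
    obtain ⟨l, rfl⟩ : ∃ l, K = i + 1 + l := ⟨K - (i + 1), by omega⟩
    refine le_trans ?_ (fin (l + 1) (by omega))
    rw [tl2 _ _ _ j2, div_le_iff₀ (by positivity)]
    refine hν.trans (le_of_eq ?_)
    rw [show 2 * (i + 1) - 1 = 2 * i + 1 by omega, div_pow]
    field_simp
    ring

theorem R0 {k : Sk} (o : k.OK1 c) {x : ℤ} (hx : x ∈ k.D) : 0 ≤ -log (k.η x) :=
  neg_nonneg.2 (log_nonpos (o.η_mem x hx).1.le (o.η_mem x hx).2)

theorem d8_le (h : Pa K c) (K3 : 3 ≤ K) {k : Sk} (o : k.OK1 c) (σ1 : ∀ x ∈ k.D, 1000 ≤ k.σ x) {n : ℤ}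
    (hm : k.Vm n (2 * K + 1) ≤ 1) : k.d8 n ≤ 1 / 1000 := by
  obtain K3' : (3 : ℝ) ≤ K := by exact_mod_cast K3
  refine (fold_max_le _).2 ⟨by norm_num, fun x hx => ?_⟩
  obtain ⟨hx, hxn⟩ := mem_filter.1 hx
  have v := (le_Vm k hx hxn (2 * K + 1)).trans hm
  rw [V_eq o hx, exp_le_one_iff] at v
  have sx := σ1 x hx
  obtain sg := sig h o hx (by linarith only [sx])
  have r := R0 o hx
  push_cast at v
  rw [V_eq o hx, ← exp_add]
  have a1 := mul_le_mul_of_nonneg_right K3' r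
  obtain a2 := mul_le_mul_of_nonneg_right K3' (show 0 ≤ k.σ x by linarith only [sx])
  refine (exp_le_exp.2 (show _ ≤ -(1000 : ℝ) by push_cast; linarith only [sx, sg, v, a1, a2])).trans ?_
  rw [exp_neg, one_div]
  exact inv_anti₀ (by norm_num) (by linarith only [add_one_le_exp (1000 : ℝ)])

theorem strong (h : Pa K c) (K3 : 3 ≤ K) {k : Sk} (o : k.OK1 c) {x : ℤ} (hx : x ∈ k.D)
    (sx : 1000 ≤ k.σ x) (v1 : 1 ≤ k.V x (2 * K + 1)) : k.σ x ≤ -log (k.η x) ∧ k.Strong K x := by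
  obtain K3' : (3 : ℝ) ≤ K := by exact_mod_cast K3
  have xm := o.D_mem x hx
  have r := R0 o hx
  rw [V_eq o hx, one_le_exp_iff] at v1
  push_cast at v1
  obtain sg := sig h o hx (by linarith only [sx])
  obtain σR : k.σ x ≤ -log (k.η x) := by
    by_contra hn
    obtain a1 := mul_le_mul_of_nonneg_left (not_le.1 hn).le (show (0 : ℝ) ≤ 2 * K + 2 by linarith only [K3'])
    obtain a2 := mul_le_mul_of_nonneg_right K3' (show 0 ≤ k.σ x by linarith only [sx])
    linarith only [sx, v1, sg, a1, a2]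
  refine ⟨σR, ?_⟩
  have a1 := o.lo x xm.1
  have a2 : k.sl x ≤ k.σ x := o.sl_mono x (k.nx x) (o.F_mem x xm.1).1 (o.nx_mem x xm.2).2.1.le
  have a3 := mul_le_mul_of_nonneg_right K3' r
  rw [Sk.Strong, Cw]
  linarith only [sx, v1, σR, a1, a2, a3]

/-- floor and later majors against the maximal major -/
theorem nn_le (h : Pa K c) (hA : TA_s c) {γ : ℝ} (bd : c.Bud K γ) {k : Sk} (ok : k.OK c) {n x : ℤ}
    (hx : x ∈ k.D) (hm : k.Vm n (2 * K + 1) ≤ k.V x (2 * K + 1)) (sx : 1000 ≤ k.σ x)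
    (σR : k.σ x ≤ -log (k.η x)) (hv : c.C0 ^ 3 * k.σ x ≤ -log (k.η x)) {j : ℕ} (j1 : 1 ≤ j)
    (jK : j ≤ K) : k.NN n (2 * j - 1) (c.gm γ j / 2) (k.nx x) / k.w (k.nx x) ≤
      k.η x ^ c.th * k.V x (2 * j - 1) / 4 := by
  have o := ok.1
  obtain ⟨-, -, t3, -, -, -, -, -, -, -, ml, -⟩ := hA k ok
  obtain ⟨bj, ck2, ckC, -⟩ := bud h bd
  have xm := o.D_mem x hx
  obtain ⟨mF, xm', mn⟩ := o.nx_mem x xm.2
  have η0 := (o.η_mem x hx).1
  have r := R0 o hx
  obtain jK' : (j : ℝ) ≤ K := by exact_mod_cast jK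
  obtain j1' : (1 : ℝ) ≤ j := by exact_mod_cast j1
  obtain gj := bj j (by omega)
  obtain C0 : 1000 * (K + 1) ≤ c.C0 :=
    (le_mul_of_one_le_right (by (clear * -; positivity)) gj.1).trans gj.2
  set T := k.η x ^ c.th * k.V x (2 * j - 1) with hT
  obtain je : ((2 * j - 1 : ℕ) : ℝ) = 2 * j - 1 := by
    rw [Nat.cast_sub (by omega)]; push_cast; ring
  obtain Te : T = exp ((2 * j - 1 - c.th) * -log (k.η x) - log (k.w x)) := by
    rw [hT, V_eq o hx, rpow_def_of_pos η0, ← exp_add, je]; congr 1; ring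
  obtain T0 : 0 < T := by rw [Te]; exact exp_pos _
  have wm := o.w_pos _ (o.F_mem _ mF).1
  obtain Eg0 : 0 ≤ (2 * K + 1) * (c.gm γ j / 2) := mul_nonneg (by linarith only [jK', j1']) (by linarith only [gj.1])
  obtain Eg : (2 * K + 1) * (c.gm γ j / 2) ≤ c.C0 := by
    obtain this := mul_nonneg (show (0 : ℝ) ≤ K by linarith only [jK', j1']) (show 0 ≤ c.gm γ j by linarith only [gj.1])
    linarith only [ck2, ckC, gj.1, gj.2]
  obtain CC : 1000 * c.C0 ≤ c.C0 * c.C0 := mul_le_mul_of_nonneg_right (by linarith only [ck2, ckC]) (by linarith only [ck2, ckC])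
  obtain b3 : c.ck * ((2 * K + 1) * (c.gm γ j / 2)) + 4 * (2 * K + 1) ≤ c.C0 ^ 3 := by
    obtain b1 : c.ck * ((2 * K + 1) * (c.gm γ j / 2)) ≤ c.C0 * c.C0 :=
      mul_le_mul (by linarith only [ck2, ckC]) Eg Eg0 (by linarith only [ck2, ckC])
    obtain b2 : 2 * (c.C0 * c.C0) ≤ c.C0 * (c.C0 * c.C0) :=
      mul_le_mul_of_nonneg_right (by linarith only [ck2, ckC]) (by linarith only [ck2, ckC, CC])
    obtain e : c.C0 ^ 3 = c.C0 * (c.C0 * c.C0) := by ring
    linarith only [ck2, ckC, C0, CC, b1, b2]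
  obtain key : ∀ y ∈ k.F, k.nx x ≤ y → ∀ ρ : ℝ,
      (2 * K + 1) * ρ - log (k.w y) ≤ (2 * K + 1) * -log (k.η x) - log (k.w x) →
      exp (c.gm γ j / 2 * k.σ y + (2 * j - 1) * ρ - log (k.w y)) ≤ T / 4 := by
    intro y hy my ρ hρ
    obtain i := interp (E := 2 * K + 1) (e := 2 * j - 1) (d := 2 * K + 2 - 2 * j) (g := c.gm γ j / 2)
      (ck := c.ck) (th := c.th) (C := c.C0 ^ 3) (σy := k.σ y) (W := k.W (k.nx x)) (by ring)
      (by linarith only [j1']) (by linarith only [jK'])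
      (by rw [Cs.th, mul_one_div, div_le_one (by linarith only [ck2, ckC])]; linarith only [ck2, ckC, C0]) r (by linarith only [sx]) b3
      hv (by linarith only [(o.maj x hx).1])
      (ml _ mF y hy my _ (div_nonneg Eg0 (by linarith only [jK']))
        ((div_le_self Eg0 (by linarith only [jK'])).trans (by rw [sq]; linarith only [ck2, ckC, gj, CC]))) hρ
    refine (exp_le_exp.2 i).trans ?_
    rw [exp_sub, ← Te]
    exact div_le_div_of_nonneg_left T0.le four_pos (by linarith only [add_one_le_exp (3 : ℝ)])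
  rw [div_le_iff₀ wm]
  refine (fold_max_le _).2 ⟨?_, fun y hy => ?_⟩
  · obtain m0 := ml _ mF _ mF le_rfl 0 le_rfl (by (clear * -; positivity))
    have e : k.σ x = k.sl (k.nx x) := rfl
    obtain a1 := mul_nonneg (show (0 : ℝ) ≤ K by linarith only [jK', j1']) r
    obtain this := key _ mF le_rfl 0 (by linarith only [sx, σR, m0, e, a1, (o.maj x hx).1])
    rwa [mul_zero, add_zero, exp_sub, exp_log wm, div_le_iff₀ wm] at this
  · obtain ⟨hy, yn, my⟩ := mem_filter.1 hy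
    have ym := o.D_mem y hy
    have hxy : ¬ y < k.nx x := fun hlt =>
      absurd ((o.nx_mem y ym.2).2.2 _ mF hlt) (not_le.2 my)
    rw [if_neg hxy, t3 _ mF, mul_assoc, mul_comm]
    refine mul_le_mul_of_nonneg_right ?_ wm.le
    have v := (le_Vm k hy yn (2 * K + 1)).trans hm
    rw [V_eq o hy, V_eq o hx, exp_le_exp] at v
    push_cast at v
    have := key y ym.1 (not_lt.1 hxy) _ v
    rwa [V_eq o hy, ← exp_add, je, ← add_sub_assoc]

theorem j3_of (h : Pa K c) (hA : TA_s c) (hV : HVY_s K c) (hD : AD1_s K c) (h1 : J1_s K c)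
    (h8 : D8C_s K c) : J3_s K c := by
  intro K3 M σ t g k n jc γ bd nc D u ν G1 G2 G3 wi a1 a2 a3 a4 hc
  by_contra hn
  rw [not_le] at hn
  have ok := jc.oc.sk
  have o := ok.1
  have nF := jc.oc.hn
  obtain ⟨-, -, -, -, t5, -, -, -, -, -, -, -, -, -, -, -, t17, -⟩ := hA k ok
  obtain ⟨bj, -, -, Γ15⟩ := bud h bd
  have lam := h.lam
  have hD' := wi.hD
  have hA' := wi.hA
  have hν' := wi.hν
  have s1 : 1000 ≤ k.sl n := lam.trans (o.sl1.trans (o.sl_mono 1 n le_rfl (o.F_mem n nF).1))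
  set Γ := c.gm γ (K + 2) with hΓ
  set s := k.sl n with hs
  obtain s0 : 0 ≤ s := by linarith only [s1]
  have rh1 := (t17 n nF).1
  have D0 := wi.D0
  have u0 := wi.u0
  have eW := exp_pos (k.W n)
  obtain p1 : 0 ≤ u ^ 2 * exp (k.W n) := by (clear * -; positivity)
  obtain p2 : 0 ≤ u * D * k.rh n := by (clear * - u0 D0 rh1; positivity)
  obtain ν0 : 0 ≤ ν := le_trans (by (clear * - u0 D0 rh1; positivity)) hν'
  have m1 := mul_le_mul_of_nonneg_right a1 s0
  have m2 := mul_le_mul_of_nonneg_right a2 s0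
  have m3 := mul_le_mul_of_nonneg_right Γ15 s0
  have m4 := mul_le_mul_of_nonneg_right a4 s0
  obtain x4 : exp (4 * Γ * s) ≤ exp (G2 * s) := exp_le_exp.2 (by linarith only [m2, m3, s0])
  obtain x5 : exp (-G1 * s) * exp (4 * Γ * s) ≤ 1 := by
    rw [← exp_add]; exact exp_le_one_iff.2 (by linarith only [m1, m3, s0])
  obtain x6 : exp (G3 * s) * exp (-G1 * s) ≤ 1 := by
    rw [← exp_add]; exact exp_le_one_iff.2 (by linarith only [m4, s0])
  obtain x7 : 1 ≤ exp (G2 * s) := one_le_exp (by linarith only [m2, m3, s0])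
  obtain x8 : exp (-G1 * s) ≤ 1 := exp_le_one_iff.2 (by linarith only [m1, m3, s0])
  obtain q0 : 0 ≤ D * k.rh n := by (clear * - D0 rh1; positivity)
  have q1 : D * k.rh n ≤ 1 := hD'.trans x8
  have DD : D ≤ D * k.rh n := le_mul_of_one_le_right D0.le rh1
  obtain uν : u * (D * k.rh n) ≤ ν := by
    refine le_trans ?_ hν'
    rw [← mul_assoc]
    exact (le_add_of_nonneg_left p1).trans (le_mul_of_one_le_left (add_nonneg p1 p2) x7)
  have σ1 : ∀ x ∈ k.D, 1000 ≤ k.σ x := fun x hx => lam.trans (t5 x (o.D_mem x hx).2.le)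
  rcases (le_fold_max _).1 (le_refl (k.Vm n (2 * K + 1))) with hm | ⟨x, hx, hm⟩
  · have d8 := d8_le h K3 o σ1 hm
    obtain l := abs_le.1 ((h8 M σ t g k n jc).1.trans (show _ ≤ 1 / 2 by linarith only [d8]))
    obtain l2 : 1 / 2 ≤ |σ.La M t 1 n| := le_trans (by linarith only [l.1]) (le_abs_self _)
    obtain l3 : D ≤ u := by
      linarith only [wi.l1, mul_le_mul_of_nonneg_right l2 D0.le, D0]
    have b1 : D * D ≤ ν := le_trans (mul_le_mul l3 DD D0.le u0) uν
    obtain b2 : D ^ (K + 1) ≤ D ^ 3 := pow_le_pow_of_le_one D0.le (DD.trans q1) (by omega)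
    have b3 : exp (G3 * s) * D ≤ 1 :=
      (mul_le_mul_of_nonneg_left (DD.trans hD') (exp_pos _).le).trans x6
    refine absurd hn (not_lt.2 ?_)
    calc exp (G3 * s) * k.Vm n (2 * K + 1) * D ^ (K + 1) ≤ exp (G3 * s) * 1 * D ^ 3 :=
          mul_le_mul (mul_le_mul_of_nonneg_left hm (exp_pos _).le) b2 (by positivity) (by positivity)
      _ = exp (G3 * s) * D * (D * D) := by ring
      _ ≤ 1 * ν := mul_le_mul b3 b1 (by positivity) zero_le_one
      _ = ν := one_mul _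
  obtain ⟨hx, hxn⟩ := mem_filter.1 hx
  have xm := o.D_mem x hx
  obtain ⟨mF, -, mn⟩ := o.nx_mem x xm.2
  have η0 := (o.η_mem x hx).1
  have η1 := (o.η_mem x hx).2
  have wx := o.w_pos x (o.F_mem x xm.1).1
  have sx := σ1 x hx
  obtain ⟨σR, st⟩ := strong h K3 o hx sx (((le_fold_max _).2 (.inl le_rfl)).trans hm)
  obtain hv : c.C0 ^ 3 * k.σ x ≤ -log (k.η x) := by
    have := log_le_log η0 (hV k ok x hx st)
    rw [log_exp] at this
    linarith only [this]
  refine nc x hx hxn st fun j j1 jK => ?_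
  obtain τ0 : ∀ j, 0 ≤ tl D u ν j := fun j => by
    unfold tl; split_ifs <;> (clear * - u0 D0 ν0; positivity)
  obtain adm := hD k ok n nF γ K (tl D u ν) bd (by omega) τ0 fun a b a1' b1 _ => by
    rw [exp_add]
    exact tl_adm D0 u0 ν0 eW (exp_pos _) rh1 x4 hν'
      ((mul_le_mul_of_nonneg_right ((mul_le_mul_of_nonneg_right (le_add_of_nonneg_right ν0)
        eW.le).trans hA') (exp_pos _).le).trans x5)
      ((mul_le_mul_of_nonneg_right ((mul_le_mul_of_nonneg_right (le_add_of_nonneg_left u0)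
        eW.le).trans hA') (exp_pos _).le).trans x5)
      ((mul_le_mul_of_nonneg_right hD' (exp_pos _).le).trans x5) q1 a1' b1
  obtain tb : ∀ j, 1 ≤ j → j ≤ K → 32 * |σ.La M t j n| ≤ tl D u ν j := fun j j1 jK => by
    rcases j1.eq_or_lt with rfl | j2
    · rw [tl1, le_div_iff₀ D0]; exact wi.l1
    · rw [tl2 _ _ _ j2, le_div_iff₀ (by positivity)]; exact wi.lj j j2 jK
  obtain inc := (h1 M σ t g k n jc γ K _ _ bd (by omega) adm tb).2 j j1 (by omega) (by omega) _ mF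
    (mn n nF hxn)
  obtain C1 := bj 0 (by omega)
  obtain th0 : 0 ≤ c.th := div_nonneg zero_le_one
    (le_trans (mul_nonneg (by (clear * - K3; positivity)) (by linarith only [C1.1])) C1.2)
  have rx := le_rh k hx hxn
  obtain Q1 : D / k.η x ^ 2 ≤ D * k.rh n := by
    rw [div_eq_mul_one_div]; exact mul_le_mul_of_nonneg_left rx D0.le
  have i3 : 0 ≤ k.η x ^ c.th := rpow_nonneg η0.le _
  obtain Q2 : exp (G3 * s) * (D / k.η x ^ 2) ≤ k.η x ^ c.th := by
    obtain i1 : 1 / k.η x ≤ k.rh n := le_trans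
      (one_div_le_one_div_of_le (by positivity) (pow_le_of_le_one η0.le η1 two_ne_zero)) rx
    obtain i2 : 1 ≤ k.η x ^ c.th * k.rh n ^ c.th := by
      rw [← mul_rpow η0.le (by linarith only [rh1])]
      refine one_le_rpow ?_ th0
      rwa [div_le_iff₀' η0] at i1
    rw [rpow_add (by linarith only [rh1]), rpow_one] at hc
    calc _ ≤ exp (G3 * s) * (D * k.rh n * (k.η x ^ c.th * k.rh n ^ c.th)) :=
          mul_le_mul_of_nonneg_left (Q1.trans (le_mul_of_one_le_right q0 i2)) (exp_pos _).le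
      _ = exp (G3 * s) * (D * (k.rh n * k.rh n ^ c.th)) * k.η x ^ c.th := by ring
      _ ≤ 1 * k.η x ^ c.th := mul_le_mul_of_nonneg_right
          ((mul_le_mul_of_nonneg_left hc (exp_pos _).le).trans x6) i3
      _ = _ := one_mul _
  obtain τT : tl D u ν j ≤ k.η x ^ c.th * k.V x (2 * j - 1) :=
    tl_le (by omega) j1 jK D0 (exp_pos (G3 * s)) η0 wx (Q1.trans q1) Q2
      ((mul_le_mul_of_nonneg_left Q1 u0).trans uν) (hn.le.trans (mul_le_mul_of_nonneg_right
        (mul_le_mul_of_nonneg_left hm (exp_pos _).le) (by positivity)))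
  have n2 := nn_le h hA bd ok hx hm sx σR hv j1 jK
  obtain n3 : exp (15 * s) * (if j ≤ 1 then 0 else exp (-2 * Γ * s) * tl D u ν j) ≤
      tl D u ν j / 8 := by
    split_ifs
    · rw [mul_zero]; linarith only [τ0 j]
    · rw [← mul_assoc, ← exp_add]
      obtain this : exp (15 * s + -2 * Γ * s) ≤ 1 / 8 := by
        refine (exp_le_exp.2 (show _ ≤ -(8 : ℝ) by linarith only [m3, s1])).trans ?_
        rw [exp_neg, one_div]
        exact inv_anti₀ (by norm_num) (by linarith only [add_one_le_exp (8 : ℝ)])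
      linarith only [mul_le_mul_of_nonneg_right this (τ0 j)]
  have n4 := tb j j1 jK
  have n5 := abs_sub_abs_le_abs_sub (σ.La M t j (k.nx x)) (σ.La M t j n)
  linarith only [inc, n2, n3, n4, n5, τT, τ0 j]

end J3

theorem j3 (K : ℕ) : Hier fun c => TA_s c → HVY_s K c → AD1_s K c → J1_s K c → D8C_s K c →
    J3_s K c := (J3.hier_Pa K).mono fun _ => J3.j3_of

end
end Pool.Agent.MP_9cbfe4_an

end

/-! ### Part PN5 -/

section

/-! Sub-rows PN5 and EL5 of J5. -/

namespace Pool.Agent.MP_9cbfe4_an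

open Finset Real

namespace PN5

variable {K : ℕ} {c : Cs} {d : D5} {k : Sk}

theorem chi0 (o : k.OK1 c) (i j : ℤ) : 0 ≤ k.chi i j :=
  sum_nonneg fun l _ => le_trans (by norm_num) (o.ch_mem l).1

theorem chi_add (k : Sk) {i j l : ℤ} (a : i ≤ j) (b : j ≤ l) : k.chi i l = k.chi i j + k.chi j l := by
  rw [Sk.chi, Sk.chi, Sk.chi, ← sum_union (Ioc_disjoint_Ioc_of_le le_rfl), Ioc_union_Ioc_eq_Ioc a b]

theorem le_em {μ : ℝ} {n i : ℤ} (h1 : μ ≤ 1) (h : ∀ x ∈ k.D, x < n → i < k.nx x → μ ≤ k.η x) :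
    μ ≤ k.em n i :=
  (le_fold_min _).2 ⟨h1, fun x hx => by
    obtain ⟨a, b, e⟩ := mem_filter.1 hx
    exact h x a b e⟩

theorem num (N : d.Num K c) (hγ : 1 ≤ d.γ) : 2 ≤ d.ls ∧ d.θ K ≤ 1 ∧ d.η ≤ d.θ K ∧
    ∀ x, x ≤ (d.γ + 10) * d.ls → 4 * exp x ≤ d.S K := by
  obtain ⟨-, a, b⟩ := N.sl
  obtain l : 2 ≤ d.ls := by linarith only [a, b]
  obtain s : 1 ≤ d.S K ^ 500 := one_le_pow₀ (le_trans (by norm_num) N.S1)
  obtain t : d.θ K ≤ 1 := by nlinarith only [s, N.θS.1, N.θS.2, N.θ0]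
  refine ⟨l, t, by nlinarith only [t, N.ηθ, N.θ0], fun x hx => le_trans ?_ N.big⟩
  have := add_one_le_exp (2 * d.ls)
  calc 4 * exp x ≤ exp (2 * d.ls) * exp x := by gcongr; linarith only [a, b, this]
    _ = exp (2 * d.ls + x) := (exp_add _ _).symm
    _ ≤ _ := exp_le_exp.2 (by nlinarith only [hγ, a, b, hx])

theorem pbd (ta : TA_s c) (tb : TB_s c) (h0 : 0 ≤ c.C0) (H : d.H K c) (N : d.Num K c) {a : ℕ} {l : ℤ}
    (a1 : 1 ≤ a) (a3 : a ≤ 3) (l1 : 1 ≤ l) (lm : l < d.m) :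
    d.P a l ≤ 2 * d.k.w4 l * d.T a + exp ((d.γ + 1) * d.ls) * (d.η * d.be ^ a) := by
  obtain ⟨-, -, J⟩ := H
  have ok := J.jc.oc.sk
  have mF := J.jc.oc.hn
  obtain ⟨t1, -, -, -, -, -, -, -, -, -, -, -, -, -, -, -, -, t18⟩ := ta _ ok
  obtain ⟨l2, θ1, ηθ, -⟩ := num N J.hγ
  have η0 := N.η0
  have mN := (ok.1.F_mem _ mF).2
  obtain e : d.η * d.be ^ a = 1 / d.η ^ (2 * a - 1) := by
    obtain ⟨b, rfl⟩ := Nat.exists_eq_add_of_le' a1
    rw [show 2 * (b + 1) - 1 = 2 * b + 1 by omega, D5.be, ← D5.η, one_div_pow, ← pow_mul]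
    field_simp
    ring
  have w0 : 0 ≤ d.k.w4 l := (ok.1.w_pos l l1).le.trans (t1 l l1)
  have T0 := J.pos a
  obtain R1 : 1 ≤ exp ((d.γ + 1) * d.ls) * (d.η * d.be ^ a) := by
    rw [e]
    refine one_le_mul_of_one_le_of_one_le (one_le_exp (by nlinarith only [l2, J.hγ])) ?_
    exact one_le_one_div (by positivity) (pow_le_one₀ η0.le (ηθ.trans θ1))
  obtain b : ∀ i, 0 ≤ i → i < d.m → |d.σ.pj d.M d.t a i| ≤
      d.k.w4 i * d.T a + exp ((d.γ + 1) * d.ls) * (d.η * d.be ^ a) := fun i i0 im => by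
    refine (J.bd a i a1 a3 i0 im.le).trans (add_le_add le_rfl ?_)
    obtain u := ((t18 (d.k.nx d.B) (2 * a - 1) 0 i le_rfl i0 (by omega)).2.1 d.m _ 0 J.hB.2 le_rfl le_rfl).trans
      ((t18 d.m (2 * a - 1) 0 i le_rfl i0 (by omega)).2.2.2 mF im).2.1
    have v : d.η ≤ d.k.em d.m i := le_em (ηθ.trans θ1) fun x hx xm _ => J.hst.2.2 x hx xm
    rw [e, add_mul, one_mul, exp_add, mul_assoc, mul_one_div]
    refine mul_le_mul_of_nonneg_left (u.trans ?_) (exp_pos _).le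
    gcongr
    linarith only [N.sl.1]
  obtain q := ((tb _ ok _ mF 0 0 (by simpa using h0) le_rfl h0).1 l l1 lm.le).1
  obtain q1 : exp (-d.k.ch l / 2) ≤ 1 := exp_le_one_iff.2 (by linarith only [(ok.1.ch_mem l).1])
  obtain b1 := b l (by omega) lm
  obtain b2 := mul_le_mul_of_nonneg_left (b (l - 1) (by omega) (by omega)) (exp_pos (-d.k.ch l / 2)).le
  have wT := mul_nonneg w0 T0
  refine max_le ?_ (max_le (by linarith only [b1, wT]) ?_)
  · split_ifs <;> linarith only [R1, wT]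
  · nlinarith only [q1, b2, R1, mul_le_mul_of_nonneg_right q T0]

theorem pn (ta : TA_s c) (tb : TB_s c) (h0 : 0 ≤ c.C0) : PN5_s K c := fun d H N => by
  have P := fun a l => @pbd K c d ta tb h0 H N a l
  obtain ⟨-, -, J⟩ := H
  have ok := J.jc.oc.sk
  have mF := J.jc.oc.hn
  obtain ⟨t1, -, -, -, -, -, -, -, -, t10, -⟩ := ta _ ok
  obtain ⟨l2, θ1, ηθ, S4⟩ := num N J.hγ
  have η0 := N.η0
  have θ0 := N.θ0
  have S1 : 10 ≤ d.S K := le_trans (by norm_num) N.S1
  have be0 : 0 ≤ d.be := by rw [D5.be]; positivity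
  have wb0 : 0 ≤ d.wb := (exp_pos _).le
  have x1 : exp ((d.γ + 1) * d.ls) ≤ d.S K := by
    linarith only [S1, l2, S4 ((d.γ + 1) * d.ls) (by linarith only [l2]), exp_pos ((d.γ + 1) * d.ls)]
  obtain g : ∀ a l (e τ : ℝ), 1 ≤ a → a ≤ 3 → 1 ≤ l → l < d.m → 0 ≤ e → 0 ≤ τ →
      e * d.k.w4 l * d.η ≤ d.S K * τ → e * d.k.w4 l ^ 2 ≤ d.S K * d.wb →
      e * d.k.w l * d.P a l ≤ d.S K ^ 3 * (d.wb * d.U a + τ * d.be ^ a) := by
    intro a l e τ a1 a3 l1 lm e0 τ0 u v
    have w0 := (ok.1.w_pos l l1).le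
    have w1 := t1 l l1
    have U0 := N.U0 a
    have T0 := J.pos a
    have P0 : 0 ≤ d.P a l := le_max_of_le_right (le_max_of_le_left (abs_nonneg _))
    calc e * d.k.w l * d.P a l
        ≤ e * d.k.w4 l * (2 * d.k.w4 l * d.T a + exp ((d.γ + 1) * d.ls) * (d.η * d.be ^ a)) := by
          gcongr
          exacts [mul_nonneg e0 (w0.trans w1), P a l a1 a3 l1 lm]
      _ = 2 * (e * d.k.w4 l ^ 2) * d.T a + exp ((d.γ + 1) * d.ls) * (e * d.k.w4 l * d.η) * d.be ^ a := by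
          ring
      _ ≤ d.S K ^ 2 * (d.S K * d.wb) * d.U a + d.S K ^ 2 * (d.S K * τ) * d.be ^ a := by
          have := mul_nonneg (mul_nonneg e0 (w0.trans w1)) η0.le
          gcongr
          exacts [by nlinarith only [S1], N.TU a a1 a3, by nlinarith only [S1, x1]]
      _ = _ := by ring
  refine ⟨fun a l a1 a3 l1 lm => (P a l a1 a3 l1 lm).trans ?_, fun a l e a1 a3 l1 lm e0 u v => ?_,
    fun a l e a1 a3 l1 lm e0 u v => g a l e _ a1 a3 l1 lm e0 θ0.le u v⟩
  · obtain u := (t10 _ mF l (by omega) lm.le).1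
    have s := ok.1.sl_mono 1 d.m le_rfl N.m1.le
    obtain v := S4 (d.k.sl 1) (by nlinarith only [l2, s, N.sl.1, J.hγ])
    have T0 := J.pos a
    rw [exp_add, ← D5.wb] at u
    obtain w : 2 * d.k.w4 l ≤ d.S K * d.wb := by nlinarith only [wb0, u, S1, v, exp_pos (d.k.sl 1)]
    rw [D5.Ym, mul_add, ← mul_assoc (d.S K) d.wb]
    gcongr
    exact N.TU a a1 a3
  · obtain this := g a l e 1 a1 a3 l1 lm e0 zero_le_one (by rwa [mul_one]) v
    rwa [one_mul] at this

section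
variable (ta : TA_s c) (tc : TC_s c) (hκ : 0 < c.ck) (hC : 4 * c.ck ≤ c.C0) (H : d.H K c) (N : d.Num K c)
include H

theorem w_lo {a : ℤ} (aF : a ∈ d.k.F) : exp (-d.k.chi 0 a / 100) ≤ 2 * d.k.w a := by
  have ok := H.2.2.jc.oc.sk
  have a1 := (ok.1.F_mem _ aF).1
  have u := (ok.2.i2 a aF 1 le_rfl a1).2
  have v := chi_add d.k (zero_le_one' ℤ) a1
  have w0 := (ok.1.w_pos a a1).le
  rw [ok.1.w1] at u
  calc exp (-d.k.chi 0 a / 100) ≤ exp (-d.k.chi 0 a / 100) * (2 * exp (d.k.chi 1 a / 100) * d.k.w a) :=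
        le_mul_of_one_le_right (exp_pos _).le u
    _ = exp (-d.k.chi 0 a / 100 + d.k.chi 1 a / 100) * (2 * d.k.w a) := by rw [exp_add]; ring
    _ ≤ _ := mul_le_of_le_one_left (by positivity) (exp_le_one_iff.2 (by linarith only [v, chi0 ok.1 0 1]))

include ta tc N

/-- the weight with horizon `n ≤ m` -/
theorem core {n i : ℤ} (nF : n ∈ d.k.F) (nm : n ≤ d.m) (i1 : 1 ≤ i) (h : i < n) :
    0 ≤ d.k.E n i ∧ d.k.E n i * d.k.w4 i ^ 2 ≤ exp (6 * d.ls) * d.wb ∧
    ∀ μ, 0 < μ → μ ≤ d.k.em n i → d.k.E n i * d.k.w4 i * μ ≤ exp (5 * d.ls) := by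
  have ok := H.2.2.jc.oc.sk
  obtain ⟨-, -, -, -, -, -, -, -, -, -, -, t12, -, t14, -, -, -, t18⟩ := ta _ ok
  obtain ⟨n1, nN⟩ := ok.1.F_mem _ nF
  have s := ok.1.sl_mono n d.m n1 nm
  have s' := N.sl.1
  refine ⟨?_, (t14 n nF i i1 h).1.trans ?_, fun μ μ0 u => ?_⟩
  · by_contra u
    nlinarith only [h, nN, u, t12 n i i1 (by omega), ok.1.w_pos i i1]
  · rw [D5.wb, ← exp_add]
    exact exp_le_exp.2 (by linarith only [s, s', ok.1.W_mono n d.m n1 nm])
  · obtain v := ((tc _ ok n nF).1 i i1 h).trans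
      ((t18 n 1 8 i (by norm_num) (by omega) (by omega)).2.2.2 nF h).2.1
    rw [← le_div_iff₀ μ0]
    refine v.trans ?_
    rw [pow_one]
    exact div_le_div₀ (exp_pos _).le (exp_le_exp.2 (by linarith only [s, s'])) μ0 u

include hκ hC

theorem fwd {a i : ℤ} (aF : a ∈ d.k.F) (am : a < d.m) (ai : a ≤ i) (h : i < d.k.nx a) :
    0 ≤ d.k.E (d.k.nx a) i ∧ d.k.E (d.k.nx a) i * exp (-(2 / 5) * d.k.chi 0 i) ≤ 8 ∧
    d.k.E (d.k.nx a) i * d.k.w4 i * d.η ≤ exp (5 * d.ls) ∧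
    d.k.E (d.k.nx a) i * d.k.w4 i ^ 2 ≤ exp (6 * d.ls) * d.wb ∧
    (a ∉ d.D' → d.k.E (d.k.nx a) i * d.k.w4 i * d.η ≤ exp (5 * d.ls) * d.θ K) := by
  have J := H.2.2
  have ok := J.jc.oc.sk
  have mF := J.jc.oc.hn
  have mN := (ok.1.F_mem _ mF).2
  have a1 := (ok.1.F_mem _ aF).1
  obtain ⟨nF, -, nl⟩ := ok.1.nx_mem a (by omega)
  have nm := nl _ mF am
  obtain ⟨E0, E2, E1⟩ := core ta tc H N nF nm (by omega : 1 ≤ i) h
  have wl := w_lo H aF
  obtain ⟨t1, -, t3, t4, t5, -, t7, -, t9, -, -, -, -, t14, -⟩ := ta _ ok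
  obtain ⟨l2, θ1, ηθ, -⟩ := num N J.hγ
  have η0 := N.η0
  have θ0 := N.θ0
  have c0 := chi0 ok.1 0 i
  refine ⟨E0, ?_, E1 _ η0 (le_em (ηθ.trans θ1) fun x hx xm _ => J.hst.2.2 x hx (by omega)), E2, fun u => ?_⟩
  · obtain lo : exp (-d.k.chi 0 i / 4) ≤ 2 * d.k.w4 i := by
      have ca := chi0 ok.1 0 a
      by_cases aD : a ∈ d.k.D
      · rcases ai.eq_or_lt with rfl | ai'
        · exact (exp_le_exp.2 (by linarith only [ca])).trans (wl.trans (by linarith only [t1 a a1]))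
        · have v := (t9 a aD i ai' h).2
          obtain e := chi_add d.k (by omega : 0 ≤ a) ai
          calc exp (-d.k.chi 0 i / 4) ≤ exp (-d.k.chi 0 a / 100 + -d.k.chi a i / 4) :=
                exp_le_exp.2 (by linarith only [ca, e])
            _ ≤ 2 * d.k.w a * exp (-d.k.chi a i / 4) := by rw [exp_add]; (clear * - wl; gcongr)
            _ ≤ _ := by linarith only [v]
      · have v := ok.2.nlo a aF aD i ai h
        obtain w0 := ok.1.w_pos i (by omega)
        obtain s := t4 a i ai (by omega)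
        have W := ok.1.W_mono 1 a le_rfl a1
        obtain b := (t7 i (by omega) (by omega)).2
        obtain σ0 : 0 ≤ d.k.σ i := by linarith only [h, mN, nm, t5 i (by omega), N.sl.2.2]
        obtain this : d.k.σ i ≤ d.k.chi 0 i / 4 := by
          refine le_of_mul_le_mul_left ?_ hκ
          linarith only [b, mul_le_mul_of_nonneg_right hC σ0]
        rw [ok.1.W1] at W
        obtain this : exp (-d.k.chi 0 i / 4) ≤ d.k.w i := (le_log_iff_exp_le w0).1 (by linarith only [v, s, W, this])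
        linarith only [w0, this, ai, a1, t1 i (by omega)]
    obtain v := (t14 _ nF i (by omega) h).2.1
    calc d.k.E (d.k.nx a) i * exp (-(2 / 5) * d.k.chi 0 i)
        ≤ d.k.E (d.k.nx a) i * exp (-d.k.chi 0 i / 4 + -d.k.chi 0 i / 100) := by
          gcongr
          linarith only [c0]
      _ ≤ d.k.E (d.k.nx a) i * (2 * d.k.w4 i * exp (-d.k.chi 0 i / 100)) := by
          rw [exp_add]
          gcongr
      _ ≤ _ := by linarith only [v]
  · have v := E1 (d.η / d.θ K) (by (clear * - η0 θ0; positivity)) (le_em ((div_le_one θ0).2 ηθ) fun x hx xn ix => ?_)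
    · rwa [← mul_div_assoc, div_le_iff₀ θ0] at v
    obtain ⟨xF, xN⟩ := ok.1.D_mem x hx
    obtain this : x = a := by
      rcases lt_trichotomy x a with r | r | r
      · have := (ok.1.nx_mem x xN).2.2 a aF r
        omega
      · exact r
      · have := nl x xF r
        omega
    subst this
    have b : d.η < d.k.η x ^ 2 := not_le.1 fun r => u ((N.mem x).2 ⟨hx, am, r⟩)
    have x0 := (ok.1.η_mem x hx).1
    rw [div_le_iff₀ θ0]
    refine (pow_le_pow_iff_left₀ η0.le (by (clear * - x0 θ0; positivity)) two_ne_zero).1 ?_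
    rw [mul_pow, sq d.η]
    exact mul_le_mul b.le N.ηθ η0.le (by (clear * - x0; positivity))

theorem el' : d.El K := by
  have J := H.2.2
  have ok := J.jc.oc.sk
  have mF := J.jc.oc.hn
  have mN := (ok.1.F_mem _ mF).2
  obtain ⟨l2, θ1, ηθ, S4⟩ := num N J.hγ
  have η0 := N.η0
  have θ0 := N.θ0
  have wb0 : 0 ≤ d.wb := (exp_pos _).le
  obtain s5 := S4 (5 * d.ls) (by nlinarith only [l2, J.hγ])
  obtain s6 := S4 (6 * d.ls) (by nlinarith only [l2, J.hγ])
  have p5 := exp_pos (5 * d.ls)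
  have p6 := exp_pos (6 * d.ls)
  have f := fun a i => @fwd K c d ta tc hκ hC H N a i
  have wl := fun a => @w_lo K c d H a
  refine ⟨fun i i1 im => ?_, fun a aF am i i1 h => ?_, fun x hx => ?_⟩
  · obtain ⟨E0, E2, E1⟩ := core ta tc H N mF le_rfl i1 im
    exact ⟨E0, (E1 _ η0 (le_em (ηθ.trans θ1) fun x hx xm _ => J.hst.2.2 x hx xm)).trans (by linarith only [s5, p5]),
      E2.trans (by gcongr; linarith only [s5, s6, p5])⟩
  · obtain ⟨t1, -, t3, -, -, -, -, -, -, t10, -, -, -, t14, -⟩ := ta _ ok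
    have a1 := (ok.1.F_mem _ aF).1
    have w0 : 0 ≤ d.k.w4 i := (ok.1.w_pos i i1).le.trans (t1 i i1)
    have wa := ok.1.w_pos a a1
    by_cases ia : i < a
    · obtain ⟨nF, an, -⟩ := ok.1.nx_mem a (by omega)
      obtain ⟨E0, -, E1, E2, E3⟩ := f a a aF am le_rfl an
      obtain u := (t10 a aF i (by omega) ia.le).2.2
      have v := (t14 _ nF a a1 an).2.1
      have c0 := chi0 ok.1 0 i
      have c1 := chi0 ok.1 i a
      obtain e := chi_add d.k (by omega : 0 ≤ i) ia.le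
      rw [t3 a aF] at E1 E2 E3 v
      rw [Sk.ew, if_pos ia]
      generalize d.k.E (d.k.nx a) a = E at *
      obtain x1 : exp (-(99 / 100) * d.k.chi i a) * exp (d.k.chi i a / 100) ^ 2 ≤ 1 := by
        rw [sq, ← exp_add, ← exp_add]
        exact exp_le_one_iff.2 (by linarith only [c1])
      obtain x2 : exp (-(99 / 100) * d.k.chi i a) * exp (d.k.chi i a / 100) ≤ 1 := by
        rw [← exp_add]
        exact exp_le_one_iff.2 (by linarith only [c1])
      obtain y1 : E * exp (-(99 / 100) * d.k.chi i a) * d.k.w4 i ≤ 2 * (E * d.k.w a) :=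
        calc _ ≤ E * exp (-(99 / 100) * d.k.chi i a) * (2 * exp (d.k.chi i a / 100) * d.k.w a) := by (clear * - u E0; gcongr)
          _ = 2 * (E * d.k.w a) * (exp (-(99 / 100) * d.k.chi i a) * exp (d.k.chi i a / 100)) := by ring
          _ ≤ _ := mul_le_of_le_one_right (by (clear * - E0 wa; positivity)) x2
      obtain y2 : E * exp (-(99 / 100) * d.k.chi i a) * d.k.w4 i ^ 2 ≤ 4 * (E * d.k.w a ^ 2) :=
        calc _ ≤ E * exp (-(99 / 100) * d.k.chi i a) * (2 * exp (d.k.chi i a / 100) * d.k.w a) ^ 2 := by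
              (clear * - w0 u E0; gcongr)
          _ = 4 * (E * d.k.w a ^ 2) * (exp (-(99 / 100) * d.k.chi i a) * exp (d.k.chi i a / 100) ^ 2) := by
              ring
          _ ≤ _ := mul_le_of_le_one_right (by (clear * - E0 wa; positivity)) x1
      have y3 := mul_le_mul_of_nonneg_right y1 η0.le
      refine ⟨by (clear * - E0; positivity), ?_, by linarith only [s5, p5, E1, y3], y2.trans (by nlinarith only [E2, wb0, s6]), fun r => ?_⟩
      · calc E * exp (-(99 / 100) * d.k.chi i a) * exp (-(2 / 5) * d.k.chi 0 i)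
            = E * exp (-(99 / 100) * d.k.chi i a + -(2 / 5) * d.k.chi 0 i) := by rw [exp_add, mul_assoc]
          _ ≤ E * exp (-d.k.chi 0 a / 100 + -d.k.chi 0 a / 100) := by
            exact mul_le_mul_of_nonneg_left (exp_le_exp.2 (by linarith only [c0, c1, e])) E0
          _ ≤ E * (2 * d.k.w a * exp (-d.k.chi 0 a / 100)) := by
            rw [exp_add]
            gcongr
            exact wl a aF
          _ ≤ _ := by linarith only [v]
      · nlinarith only [y3, ηθ, s5, p5, η0, E3 r]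
    · obtain ⟨E0, E4, E1, E2, E3⟩ := f a i aF am (not_lt.1 ia) h
      obtain b : 0 ≤ d.k.ew a i ∧ d.k.ew a i ≤ d.k.E (d.k.nx a) i := by
        rw [Sk.ew, if_neg ia]
        split_ifs with r
        · have := (ok.1.η_mem a r.2).1
          exact ⟨le_min E0 (by rw [Sk.V]; positivity), min_le_left _ _⟩
        · exact ⟨E0, le_rfl⟩
      obtain y : d.k.ew a i * d.k.w4 i * d.η ≤ d.k.E (d.k.nx a) i * d.k.w4 i * d.η := by
        gcongr
        exact b.2
      refine ⟨b.1, le_trans (by gcongr; exact b.2) E4, by linarith only [s5, p5, E1, y],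
        le_trans (by gcongr; exact b.2) (E2.trans (by gcongr; linarith only [s5, s6, p5])), fun r => ?_⟩
      exact y.trans ((E3 r).trans (by gcongr; linarith only [s5, p5]))
  · obtain ⟨xF, xN⟩ := ok.1.D_mem x hx
    obtain this : (d.k.D.filter fun y => x < y ∧ y < d.k.nx x) = ∅ := filter_eq_empty_iff.2 fun y hy r => by
      have := (ok.1.nx_mem x xN).2.2 y (ok.1.D_mem y hy).1 r.1
      omega
    rw [Sk.ew, if_neg (lt_irrefl _), if_neg (fun r => lt_irrefl _ r.1), Sk.E, if_pos hx, Sk.an, this,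
      fold_empty, mul_zero, add_zero]
end

end PN5

theorem pn5 : ∀ K, Hier fun c => TA_s c → TB_s c → PN5_s K c := fun _ =>
  (Hier.C0_ge fun _ _ _ _ => 0).mono fun _ h ta tb => PN5.pn ta tb h

theorem el5 : ∀ K, Hier fun c => TA_s c → TC_s c → EL5_s K c := fun _ =>
  ((Hier.C0_ge fun _ _ κ _ => 4 * (2 + κ)).and Hier.base).mono fun _ h ta tc _ H N =>
    PN5.el' ta tc (by rw [Cs.ck]; linarith only [h.2.2.2.2.2.1]) h.1 H N

end Pool.Agent.MP_9cbfe4_an

end

/-! ### Part H2a -/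

section

/-! Row H2, first part: comparison of an orbit with a reference orbit on a good segment. -/

namespace Pool.Agent.MP_9cbfe4_an

open Finset

noncomputable section

/-- `(S', ξ', v)` is close to `(S, ξ, w)` on `[s, n]` -/
structure Tube (c : Cs) (S S' : Sq) (ξ ξ' w v : ℤ → ℝ) (s n : ℤ) : Prop where
  X : ∀ j, s ≤ j → j < n → |S'.X j - S.X j| ≤ 1 / 1000
  chi : ∀ i j, s ≤ i → i ≤ j → j ≤ n → 0 ≤ S.chi c i j ∧
    S'.chi c i j ≤ (1 + c.a / 10) * S.chi c i j ∧ S.chi c i j ≤ 2 * S'.chi c i j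
  PB : ∀ i j, s ≤ i → j ≤ n → 0 ≤ S'.PB c (18 / 1000) i j ∧
    S'.PB c (18 / 1000) i j ≤ S.PB c (2 / 100) i j
  pos : ∀ j, s ≤ j → j ≤ n → 0 < w j
  xi : ∀ j, s ≤ j → j ≤ n → |ξ' j - ξ j| ≤ w j / 100
  v : ∀ j, v j = w j + (|ξ' j| - |ξ j|)
  fr : ∀ i p B, s ≤ i → p ≤ n → (∀ l, i < l → l ≤ p → |S.fr (i + 1) l| ≤ B * w l) →
    ∀ j, i < j → j ≤ p → |S'.fr (i + 1) j| ≤ 101 / 100 * (B * w j)
  dd : ∀ (s' p : ℤ) (A : ℤ → ℝ), s ≤ s' → s' ≤ p → p ≤ n →
    (∀ i j, s' ≤ i → i ≤ j → j ≤ p → A i ≤ A j) → (∀ j, s' ≤ j → j ≤ p → S.DD c w s' j ≤ A j * w j) →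
    ∀ j, s' ≤ j → j ≤ p → S'.DD c w s' j ≤ 101 / 100 * (A j * w j)

theorem ShH.restrict {c : Cs} {M t t' S S' θ w A ζ η s n p} (h : ShH c M t t' S S' θ w A ζ η s n)
    (h1 : s ≤ p) (h2 : p ≤ n) : ShH c M t t' S S' θ w A ζ η s p :=
  have k := h.cert
  { h with
    sn := h1
    cert := ⟨k.pos, fun j a b => k.pos' j a (b.trans h2), fun j a b => k.backK j a (b.trans_le h2),
      fun j a b => k.back j a (b.trans h2), fun j a b => k.fwd j a (b.trans_le h2),
      fun i j a b d => k.mono i j a b (d.trans h2), k.Apos, fun j a b => k.dd j a (b.trans h2)⟩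
    small := (mul_le_mul_of_nonneg_left (k.mono p n h1 h2 le_rfl) h.η0).trans h.small
    maj := ⟨fun j a b => h.maj.1 j a (b.trans_le h2), fun j a b => h.maj.2 j a (b.trans h2)⟩
    par := fun j a b => h.par j a (b.trans h2) }

theorem DD_nonneg {c : Cs} (hL : 0 ≤ c.L) (S : Sq) (w : ℤ → ℝ) (s j : ℤ) : 0 ≤ S.DD c w s j :=
  sum_nonneg fun _ _ => by positivity

theorem ch1_far {c : Cs} {S : Sq} {j : ℤ} (h : 4 / 100 ≤ dP (S.X (j - 1))) : S.ch1 c j = c.bl := by
  rw [Sq.ch1, S.kk_eq_zero.2 (.inr h)]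
  ring

theorem tube_of {c : Cs} (h : WC c) (ha : c.a ≤ 1) (hH : SH_s c) {M t S S' ξ ξ' ζ η s n w A}
    (sh : ShH c M t t S S' (2 / 100) w A ζ η s n) (hm : S.Maj ξ 1 w s n) (hsn : s < n)
    (hn : 5 / 100 ≤ dP (S.X (n - 1))) (h1 : S'.Sol ξ' s) (h2 : ξ' s = ξ s) (hw : 1 ≤ w s)
    (h3 : |S'.b s * ξ' (s - 1) - S.b s * ξ (s - 1)| ≤ 200 * c.CG * c.L * η) :
    Tube c S S' ξ ξ' w (fun j => w j + (|ξ' j| - |ξ j|)) s n := by
  obtain ⟨s1, s2, s3, s4, -⟩ := hH _ _ _ _ _ _ _ _ _ _ _ _ sh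
  have l8 := h.lam8
  have p := sh.cert.pos'
  obtain e1 : 1 / c.lam ^ 2 ≤ 1 / c.lam / 10 ^ 8 := by
    rw [div_div, sq]
    exact one_div_le_one_div_of_le (by (clear * - l8; positivity)) (by (clear * - l8; gcongr))
  obtain e2 : 1 / c.lam ≤ 1 / 10 ^ 8 := one_div_le_one_div_of_le (by norm_num) l8
  obtain e3 : c.KS * (1 / c.lam) ≤ 1 / 100 := by
    rw [mul_one_div, div_le_iff₀ (by positivity), Cs.KS]
    linarith only [h.lam]
  have kk (j) (a : s ≤ j) (b : j ≤ n) : c.KS * (η * A j) ≤ 1 / 100 := by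
    have := (mul_le_mul_of_nonneg_left (sh.cert.mono j n a b le_rfl) sh.η0).trans sh.small
    exact (mul_le_mul_of_nonneg_left (by linarith only [e1, this, l8, one_div_pos.2 (show 0 < c.lam by linarith only [l8])])
      h.KS).trans e3
  have hX (j) (a : s ≤ j) (b : j < n) : |S'.X j - S.X j| ≤ 1 / 1000 := by
    linarith only [e1, e2, (s1 j a b.le).1, (s2 j a b).1, sh.small]
  obtain hn' : 4 / 100 ≤ dP (S'.X (n - 1)) := by
    linarith only [hn, hsn, (abs_le.1 ((dP_lip _ _).trans (hX (n - 1) (by omega) (by omega)))).1]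
  have hc (j) (a : s < j) (b : j ≤ n) : 0 ≤ S.ch1 c j ∧
      S'.ch1 c j ≤ (1 + c.a / 10) * S.ch1 c j ∧ S.ch1 c j ≤ 2 * S'.ch1 c j := by
    have q := h.chp.le.trans (S.ch1_mem c h.chb j).1
    obtain this : |S'.ch1 c j - S.ch1 c j| ≤ c.a / 10 * S.ch1 c j := by
      rcases b.lt_or_eq with b | rfl
      · exact (s3 j a b).1
      · rw [ch1_far hn', ch1_far (S := S) (by linarith only [hn])] at *
        rw [sub_self, abs_zero]
        exact mul_nonneg (by linarith only [h.a]) q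
    have := abs_le.1 this
    exact ⟨q, by linarith only [this.2], by nlinarith only [q, ha, this.1]⟩
  obtain kL : 0 ≤ c.k0 * c.L := mul_nonneg (by linarith only [h.k1]) (by linarith only [h.L])
  have b0 (T : Sq) (θ j) : 0 ≤ T.bb c θ j := by
    unfold Sq.bb
    split_ifs <;> positivity
  refine ⟨hX, fun i j a b d => ?_, fun i j a b => ⟨prod_nonneg fun l _ => b0 _ _ _,
    prod_le_prod (fun l _ => b0 _ _ _) fun l hl => ?_⟩, p, fun j a b => ?_, fun _ => rfl,
    fun i q B a b hB j d e => ?_, fun s' q A' a b d m1 m2 j e f => ?_⟩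
  · have g (l) (hl : l ∈ Ioc i j) := hc l (by have := mem_Ioc.1 hl; omega) ((mem_Ioc.1 hl).2.trans d)
    simp only [Sq.chi, mul_sum]
    exact ⟨sum_nonneg fun l hl => (g l hl).1, sum_le_sum fun l hl => (g l hl).2.1,
      sum_le_sum fun l hl => (g l hl).2.2⟩
  · have hl := mem_Ioc.1 hl
    rcases (hl.2.trans b).lt_or_eq with d | rfl
    · refine le_trans ?_ (s3 l (by omega) d).2.2
      unfold Sq.bb
      split_ifs with x y
      · rfl
      · exact (y ⟨by linarith only [x.1], by linarith only [x.2]⟩).elim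
      · linarith only [kL, l8, Real.exp_le_one_iff.2 (show -c.bl ≤ 0 by linarith only [l8, h.bl4])]
      · rfl
    · rw [Sq.bb, Sq.bb, if_neg fun x => by linarith only [hn', x.2], if_neg fun x => by linarith only [hn, x.2]]
  · obtain this := s4 ξ ξ' 1 zero_le_one hm (fun j a _ => h1 j a) h2 (h3.trans (by
      have : η ≤ η * w s ^ 2 := le_mul_of_one_le_right sh.η0 (one_le_pow₀ hw)
      have := h.gl
      (rename_i zq0; nlinarith only [zq0, this]))) j a b
    nlinarith only [this, kk j a b, p j a b]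
  · obtain this := (hH _ _ _ _ _ _ _ _ _ _ _ _ (sh.restrict (p := q) (by omega) b)).2.2.2.2.1 i B (by omega)
      hB j d e
    have g := hB j d e
    have g0 := (abs_nonneg _).trans g
    nlinarith only [this, g, g0, a, d, kk j (by omega) (e.trans b), abs_sub_abs_le_abs_sub (S'.fr (i + 1) j) (S.fr (i + 1) j)]
  · obtain this := (hH _ _ _ _ _ _ _ _ _ _ _ _ (sh.restrict (p := q) (by omega) d)).2.2.2.2.2.2 s' A' a m1
      m2 j e f
    obtain g0 := (DD_nonneg (by linarith only [h.L]) S w s' j).trans (m2 j e f)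
    nlinarith only [this, g0, e2]

namespace Tube
variable {c : Cs} {S S' : Sq} {ξ ξ' w v : ℤ → ℝ} {s n : ℤ} (T : Tube c S S' ξ ξ' w v s n)
include T

theorem v_mem {j : ℤ} (a : s ≤ j) (b : j ≤ n) :
    0 < w j ∧ 99 / 100 * w j ≤ v j ∧ v j ≤ 101 / 100 * w j := by
  have := abs_le.1 ((abs_abs_sub_abs_le_abs_sub _ _).trans (T.xi j a b))
  rw [T.v]
  exact ⟨T.pos j a b, by linarith only [this.1], by linarith only [this.2]⟩

theorem dd' (hL : 0 ≤ c.L) {s' p : ℤ} {A : ℤ → ℝ} (a : s ≤ s') (d : p ≤ n)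
    (m1 : ∀ i j, s' ≤ i → i ≤ j → j ≤ p → A i ≤ A j)
    (m2 : ∀ j, s' ≤ j → j ≤ p → S.DD c w s' j ≤ A j * w j) {j : ℤ} (e : s' ≤ j) (f : j ≤ p) :
    S'.DD c v s' j ≤ 2 * A j * v j := by
  have h1 := T.dd s' p A a (e.trans f) d m1 m2 j e f
  obtain h2 : S'.DD c v s' j ≤ (101 / 100) ^ 2 * S'.DD c w s' j := by
    rw [Sq.DD, Sq.DD, mul_sum]
    refine sum_le_sum fun i hi => ?_
    have hi := mem_Ico.1 hi
    obtain ⟨x, y, z⟩ := T.v_mem (j := i) (by omega) (by omega)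
    calc _ ≤ |S'.fr (i + 1) j| * c.L * (101 / 100 * w i) ^ 2 := by gcongr; linarith only [x, y]
      _ = _ := by ring
  obtain ⟨x, y, -⟩ := T.v_mem (j := j) (by omega) (by omega)
  have g0 := (DD_nonneg hL S w s' j).trans (m2 j e f)
  have g1 : 0 ≤ A j := nonneg_of_mul_nonneg_left g0 x
  nlinarith only [h1, x, h2, g0, y]

/-- transport of a bound `w i ≤ K e^x w j` -/
theorem w_le {i j : ℤ} {K K' x y P P' : ℝ} (a : s ≤ i) (b : i ≤ n) (a' : s ≤ j) (b' : j ≤ n)
    (hP : 0 ≤ P' ∧ P' ≤ P) (h : P * w i ≤ K * Real.exp x * w j) (hK : 0 ≤ K) (hK' : 2 * K ≤ K')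
    (hx : x ≤ y) : P' * v i ≤ K' * Real.exp y * v j := by
  obtain ⟨x1, y1, z1⟩ := T.v_mem a b
  obtain ⟨x2, y2, z2⟩ := T.v_mem a' b'
  have e := Real.exp_pos x
  calc _ ≤ P * (101 / 100 * w i) := mul_le_mul hP.2 z1 (by linarith only [x1, y1]) (hP.1.trans hP.2)
    _ ≤ 2 * K * Real.exp x * (99 / 100 * w j) := by linarith only [h, mul_nonneg (mul_nonneg hK e.le) x2.le]
    _ ≤ _ := by
      obtain this : 0 ≤ K' := by linarith only [hK, hK']
      gcongr

theorem fr' (hL : 0 < c.L) {i p : ℤ} {B : ℝ} (a : s ≤ i) (b : p ≤ n)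
    (h : ∀ l, i < l → l ≤ p → |S.fr (i + 1) l| * c.L * w i ≤ B * w l) {j : ℤ} (d : i < j)
    (e : j ≤ p) : |S'.fr (i + 1) j| * c.L * v i ≤ 2 * B * v j := by
  obtain ⟨x1, y1, z1⟩ := T.v_mem (j := i) a (by omega)
  obtain ⟨x2, y2, -⟩ := T.v_mem (j := j) (by omega) (by omega)
  obtain h1 := T.fr i p (B / (c.L * w i)) a b (fun l f g => by
    rw [div_mul_eq_mul_div, le_div_iff₀ (by positivity), ← mul_assoc]
    exact h l f g) j d e
  obtain hB : 0 ≤ B := nonneg_of_mul_nonneg_left (le_trans (by (clear * - hL x1; positivity)) (h j d e)) x2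
  calc _ ≤ 101 / 100 * (B / (c.L * w i) * w j) * c.L * (101 / 100 * w i) := by gcongr; linarith only [x1, y1]
    _ = (101 / 100) ^ 2 * (B * w j) := by field_simp
    _ ≤ _ := by nlinarith only [x2, hB, y2]

theorem suf (h : WC c) (hn : 5 / 100 ≤ dP (S.X n)) {A : ℤ → ℝ} {Rg : Finset ℤ} {s' m : ℤ}
    (a : s ≤ s') (b : s' ≤ m) (d : m ≤ n) (k : S.SufC c 1 ξ w A Rg s' m) :
    S'.SufC c 2 ξ' v (fun j => 2 * A j) Rg s' m := by
  obtain ⟨x1, y1, z1⟩ := T.v_mem a (b.trans d)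
  obtain ⟨x2, y2, z2⟩ := T.v_mem (a.trans b) d
  obtain ⟨c0, -, c2⟩ := T.chi s' m a b d
  have l8 := h.lam8
  have hA := x1.trans_le k.lo
  refine ⟨fun i j e f g => by linarith only [k.mono i j e f g], by linarith only [z1, hA, k.lo],
    by linarith only [x2, z2, k.lo'], fun j e f => T.dd' (by linarith only [h.L]) a d k.mono k.dd e f, k.sub,
    fun i hi => ?_, k.runs.trans ?_, ?_⟩
  · have e := mem_Ico.1 (k.sub hi)
    obtain ⟨r1, r2, r3, r4⟩ := k.reg i hi
    obtain ⟨x, y, z⟩ := T.v_mem (j := i) (by omega) (by omega)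
    obtain f : i + 1 < n := lt_of_le_of_ne (by omega) fun f => by rw [f] at r2; linarith only [hn, r2]
    obtain g := T.xi i (by omega) (by omega)
    refine ⟨by linarith only [r1, a, e, f, (abs_le.1 ((dP_lip _ _).trans (T.X i (by omega) (by omega)))).2],
      by linarith only [r2, a, e, (abs_le.1 ((dP_lip _ _).trans (T.X (i + 1) (by omega) f))).2], ?_, by nlinarith only [r4, x, y, l8]⟩
    rw [abs_sub_comm] at g
    linarith only [r3, x, z, g, abs_sub_abs_le_abs_sub (ξ i) (ξ' i)]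
  · obtain this : 0 < c.bl := by linarith only [l8, h.bl4]
    exact add_le_add_left (div_le_div_of_nonneg_right (by linarith only [c2]) this.le) _
  · have e := k.cost
    obtain f : Real.log (2 * A s' / v s') ≤ Real.log (A s' / w s') + 3 := by
      obtain g : 2 * A s' / v s' ≤ A s' / w s' * 4 := by
        rw [div_mul_eq_mul_div, div_le_div_iff₀ (by linarith only [x1, y1]) x1]
        nlinarith only [x1, hA, y1]
      refine (Real.log_le_log (div_pos (by linarith only [hA]) (by linarith only [x1, y1])) g).trans ?_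
      rw [Real.log_mul (by positivity) (by norm_num)]
      linarith only [Real.log_le_sub_one_of_pos (show (0 : ℝ) < 4 by norm_num)]
    simp only [mul_div_mul_left _ _ (two_ne_zero' ℝ)]
    nlinarith only [e, f, c2, h.a]

end Tube

end
end Pool.Agent.MP_9cbfe4_an

end

/-! ### Part H2b -/

section

/-! Row H2, second part: `HPERT_s`. -/

namespace Pool.Agent.MP_9cbfe4_an

open Finset

noncomputable section

theorem ff_mem {c : Cs} {S : Sq} {s i : ℤ} (h : 0 ≤ S.chi c s i) : 1 ≤ S.ff c s i ∧ S.ff c s i ≤ 2 := by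
  obtain this := Real.exp_le_one_iff.2 (show -S.chi c s i / 24 ≤ 0 by linarith only [h])
  have := Real.exp_pos (-S.chi c s i / 24)
  unfold Sq.ff
  constructor <;> (rename_i zq0; linarith only [zq0, this])

namespace Tube
variable {c : Cs} {S S' : Sq} {ξ ξ' v : ℤ → ℝ} {s n : ℤ}
  (T : Tube c S S' ξ ξ' (S.wh c ξ s) v s n) (h : WC c) (ha : c.a ≤ 1 / 4)
include T

theorem v_eq {m : ℤ} (r : S.RInv c ξ s m) : v m = |ξ' m| := by rw [T.v, r.whm]; ring

include h ha

theorem ex {i j : ℤ} (a : s ≤ i) (b : i ≤ j) (d : j ≤ n) :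
    -(1 - 2 * c.a) * S.chi c i j ≤ -(1 - 3 * c.a) * S'.chi c i j ∧
    c.a * S.chi c i j ≤ 2 * c.a * S'.chi c i j ∧ 0 ≤ c.a * S.chi c i j := by
  obtain ⟨x, y, z⟩ := T.chi i j a b d
  have := h.a
  obtain k := mul_le_mul_of_nonneg_left y (show 0 ≤ 1 - 3 * c.a by linarith only [ha, this])
  exact ⟨by linarith only [k, mul_nonneg this.le x, mul_nonneg (mul_nonneg this.le this.le) x],
    by nlinarith only [z, this], by positivity⟩

theorem dec {m i : ℤ} (r : S.RInv c ξ s m) (d : m ≤ n) (a : s ≤ i) (b : i < m) :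
    S'.PB c (18 / 1000) i m * v i ≤
      4 * Real.exp (-(1 - 3 * c.a) * S'.chi c i m - c.a * S.chi c i m) * v m ∧
    v i ≤ 50 * Real.exp (3 * c.a * S'.chi c i m) * v m := by
  obtain ⟨x, y⟩ := r.i2 i a b
  obtain ⟨e1, e2, e3⟩ := T.ex h ha a b.le d
  obtain f := ff_mem (T.chi s i le_rfl a (by omega)).1
  rw [← r.whm] at x y
  refine ⟨T.w_le a (by omega) r.le d (T.PB i m a d) x (by linarith only [f]) (by linarith only [f]) (by linarith only [e1]), ?_⟩
  simpa using T.w_le a (by omega) r.le d ⟨zero_le_one, le_rfl⟩ ((one_mul _).trans_le y)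
    (by linarith only [f]) (K' := 50) (by linarith only [f]) (y := 3 * c.a * S'.chi c i m) (by linarith only [e2, e3])

theorem dec' {m i : ℤ} (r : S.RInv c ξ s m) (d : m ≤ n) (a : s ≤ i) (b : i < m) :
    S'.PB c (18 / 1000) i m * v i ≤ 50 * Real.exp (-(1 - 3 * c.a) * S'.chi c i m) * v m := by
  refine (T.dec h ha r d a b).1.trans ?_
  have := (T.ex h ha a b.le d).2.2
  obtain ⟨x, y, -⟩ := T.v_mem r.le d
  gcongr
  · linarith only [x, y]
  · norm_num
  · linarith only [this]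

theorem hstep (hn : 5 / 100 ≤ dP (S.X n)) {Ex : ExT} {m p : ℤ} {r : ℝ} (k : S.Step c Ex ξ s m r p)
    (r1 : S.RInv c ξ s m) (r2 : S.RInv c ξ s p) (d : p ≤ n)
    (sf : ∀ s', s ≤ s' → s' ≤ p → ∃ A Rg, S.SufC c 1 ξ (S.wh c ξ s) A Rg s' p) :
    S'.HStep c ξ' v s m r p := by
  have lt := k.lt
  have l8 := h.lam8
  obtain hL : 0 < c.L := by linarith only [h.L]
  obtain ⟨x1, y1, z1⟩ := T.v_mem r1.le (by omega)
  obtain ⟨x2, y2, z2⟩ := T.v_mem r2.le d
  rw [r1.whm] at x1 y1 z1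
  rw [r2.whm] at x2 y2 z2
  have er := Real.exp_pos r
  have one (e : p = m + 1) : Real.exp r * |ξ p| = c.L * |ξ m| := by
    rw [k.hr, Sq.dep, e, S.rho_one, abs_div, Real.exp_log (by rw [← e]; (clear * - hL x2 x1; positivity)), ← e]
    field_simp
  refine ⟨lt, T.v_eq r1, by linarith only [k.r_lo], k.dch.imp (fun e => by linarith only [e]) fun e => ?_,
    fun e => ?_, fun j a b => ⟨?_, ?_⟩, fun s' a b => ?_, ?_,
    fun i a b => ⟨T.dec' h ha r1 (by omega) a b, (T.dec h ha r1 (by omega) a b).2⟩⟩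
  · linarith only [e, (T.ex h ha r1.le lt.le d).2.1]
  · obtain ⟨e1, e2⟩ := k.zone (by
      linarith only [e, d, lt, (abs_le.1 ((dP_lip _ _).trans (T.X m r1.le (by omega)))).1])
    refine ⟨e1, by linarith only [e2], ?_⟩
    obtain e3 : Real.exp r ≤ 3 := (Real.exp_le_exp.2 e2).trans (by linarith only [Real.exp_one_lt_d9])
    linarith only [x2, y2, e1, z1, hL, e3, one e1, mul_le_mul_of_nonneg_left z1 hL.le, mul_le_mul_of_nonneg_right e3 x2.le]
  · obtain ⟨x, y, -⟩ := T.v_mem (j := j) (by linarith only [a, r1.le]) (by omega)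
    refine (T.dd' hL.le (A := fun _ => 3 * Real.exp r * |ξ m|) r1.le d (fun _ _ _ _ _ => le_rfl)
      (fun l e f => ?_) a.le b).trans ?_
    · rcases e.eq_or_lt with rfl | e
      · rw [Sq.DD, Ico_self, sum_empty, r1.whm]
        (clear * - x1; positivity)
      · exact k.ins2 l e f
    · exact mul_le_mul_of_nonneg_right (by nlinarith only [er, x1, y1, mul_pos er x1]) (by linarith only [x, y])
  · obtain ⟨x, y, -⟩ := T.v_mem (j := j) (by linarith only [a, r1.le]) (by omega)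
    refine (T.fr' hL (B := 2 * Real.exp r) r1.le d (fun l e f => ?_) a b).trans ?_
    · rw [r1.whm]
      exact k.ins1 l e f
    · exact mul_le_mul_of_nonneg_right (by linarith only [er]) (by linarith only [x, y])
  · obtain ⟨A, Rg, e⟩ := sf s' (by linarith only [a, r1.le]) b.le
    exact ⟨_, Rg, T.suf h hn (by linarith only [a, r1.le]) b.le d e⟩
  · obtain e : |ξ p| ≤ Real.exp (r + c.lam + 5) * |ξ m| := by
      rw [← div_le_iff₀ x1, ← Real.log_le_iff_le_exp (by (clear * - x2 x1; positivity)), Real.log_div x2.ne' x1.ne']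
      rcases k.kind with e | e
      · have := congrArg Real.log (one e.1)
        rw [Real.log_mul er.ne' x2.ne', Real.log_mul hL.ne' x1.ne', Real.log_exp] at this
        linarith only [this, k.r_lo, show c.lam = Real.log c.L from rfl]
      · exact e.2.2.1
    obtain f : Real.exp (r + c.lam + 5) * 3 ≤ Real.exp (r + c.lam + 7) := by
      rw [show r + c.lam + 7 = r + c.lam + 5 + 2 by ring, Real.exp_add _ 2]
      gcongr
      linarith only [Real.add_one_le_exp 2]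
    have g := Real.exp_pos (r + c.lam + 5)
    calc v p ≤ Real.exp (r + c.lam + 5) * 3 * (99 / 100 * |ξ m|) := by linarith only [x2, z2, e]
      _ ≤ _ := by (clear * - f y1 x1; gcongr)

end Tube

theorem pert_of {c : Cs} (h : WC c) (ha : c.a ≤ 1 / 4) (hb : 2 ≤ c.a * c.bl) (hH : SH_s c)
    (hB : B1_s c) (hS : SUF_s c) : HPERT_s c := by
  intro Ex M t S S' ξ ξ' ζ η s n ok st ⟨lt, ⟨Ls, hR⟩, sg, _, g1, g2⟩ sh _ h1 h2 h3
  have l8 := h.lam8
  obtain hL : 0 < c.L := by linarith only [h.L]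
  obtain ⟨hc, hm, hf⟩ := Sq.cert_wh ok h.k1 h.k2 (by linarith only [l8]) h.chb st lt.le
  obtain T := tube_of h (by linarith only [ha]) hH sh hm lt g2 h1 (h2.trans st.2.2.1.symm) (one_le_wh st) h3
  generalize hv : (fun j => S.wh c ξ s j + (|ξ' j| - |ξ j|)) = v at T
  have ri {Ls m} (k : S.Run c Ex ξ s (fun _ _ _ => True) Ls m) := (hB Ex S ok).1 _ _ _ _ _ st k
  have r := (ri hR).2
  obtain ch : ∀ Ls m, S.Run c Ex ξ s (fun _ _ _ => True) Ls m → m ≤ n → S'.HChain c ξ' v s m := by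
    intro Ls
    induction Ls with
    | nil => exact fun m k _ => k.nil ▸ .nil
    | cons x Ls ih =>
      intro m k d
      obtain ⟨k1, -, k2, -⟩ := k.tail
      cases (ri k).1 with
      | cons _ k3 k4 =>
        exact .cons (ih _ k1 (by omega)) (T.hstep h ha g1 k3 (ri k1).2 k4 d (hS _ _ _ _ _ _ _ ok st k))
  obtain ⟨xn, yn, zn⟩ := T.v_mem lt.le le_rfl
  have vn := T.v_eq r
  have ab (j) (a : s - 1 ≤ j) : |ξ' j| ≤ v j := by linarith only [T.v j, S.abs_le_wh c ξ a]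
  obtain e6 : ∀ x : ℝ, x + c.lam / 100 ≤ -c.lam / 5 → 7 * Real.exp x ≤ Real.exp (-c.lam / 5) :=
    fun x hx => by
      refine le_trans ?_ (Real.exp_le_exp.2 hx)
      rw [Real.exp_add, mul_comm]
      gcongr
      linarith only [l8, Real.add_one_le_exp (c.lam / 100)]
  have bk (j) (a : s < j) (b : j ≤ n) (K : ℝ) (hK : Real.exp (S.ch1 c j / 2) ≤ K) :
      v (j - 1) ≤ 4 * K * v j := by
    obtain ⟨x1, -, z1⟩ := T.v_mem (j := j - 1) (by omega) (by omega)
    obtain ⟨x2, y2, -⟩ := T.v_mem a.le b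
    obtain e := S.wh_decay c ξ (s := s) (i := j - 1) (j := j) (by omega) (by omega)
    have e' := S.chi_succ c (j - 1)
    rw [sub_add_cancel] at e'
    rw [e', neg_div, Real.exp_neg, ← div_eq_mul_inv, div_le_iff₀ (Real.exp_pos _)] at e
    have := (Real.exp_pos _).trans_le hK
    nlinarith only [x1, z1, e, y2, this, mul_le_mul_of_nonneg_left hK x2.le]
  have bc (i j) (a : s ≤ i) (b : i < j) (d : j ≤ n) :
      S'.Bc c v i j ≤ 100 * Real.exp (2 * c.a * S'.chi c i n) := by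
    obtain ⟨x, y, -⟩ := T.v_mem (j := j) (by omega) d
    obtain f := ff_mem (T.chi s i le_rfl a (by omega)).1
    rw [Sq.Bc, div_le_iff₀ (by linarith only [x, y])]
    refine (T.fr' hL (B := 10 * S.ff c s i * Real.exp (c.a * S.chi c i n)) a le_rfl
      (fun l e g => ?_) b d).trans ?_
    · exact (div_le_iff₀ (T.pos l (by omega) g)).1 (r.i3 i l a e g)
    · obtain this := Real.exp_le_exp.2 (T.ex h ha a (by omega) le_rfl).2.1
      have := Real.exp_pos (c.a * S.chi c i n)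
      exact mul_le_mul_of_nonneg_right (by (rename_i zq0; nlinarith only [zq0, this, f])) (by linarith only [x, y])
  have far (U : Sq) (i) (b : i < n) (e : 4 / 100 ≤ dP (U.X (n - 1))) : 2 ≤ c.a * U.chi c i n := by
    have e' := U.chi_succ c (n - 1)
    rw [sub_add_cancel, ch1_far e] at e'
    rw [U.chi_add c (show i ≤ n - 1 by omega) (by omega), e']
    obtain this := mul_nonneg h.chp.le (show (0 : ℝ) ≤ (n - 1 - i : ℤ) by exact_mod_cast (by omega))
    nlinarith only [hb, ha, this, b, U.chi_ge c h.chb (show i ≤ n - 1 by omega), h.a]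
  refine ⟨v, by rw [T.v_eq (ri (.start ..)).2, h2, abs_one], ⟨st.1, ch _ _ hR le_rfl, vn, ?_,
    fun j a b => by linarith only [T.v_mem a b], ⟨fun j a _ => h1 j a, fun j a _ => by linarith only [ab j a]⟩,
    fun j a b d e => ?_, fun j a b => ?_, fun j a b => ?_, fun i j a b d => ⟨?_, ?_, ?_⟩,
    fun i a b => T.dec' h ha r le_rfl a b⟩, fun i a b => ?_, fun i a b => ?_,
    fun i a b => bc i n a b le_rfl, fun i a b => ?_⟩
  · obtain ⟨x, -, z⟩ := T.v_mem (j := n - 1) (by omega) (by omega)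
    have e := r.i1 lt
    obtain f := e6 (-c.lam / 3) (by linarith only [l8])
    have g := Real.exp_pos (-c.lam / 3)
    have g' := Real.exp_pos (-S.chi c s n / 10)
    rw [← r.whm] at e
    rw [← vn]
    calc _ ≤ 7 * Real.exp (-c.lam / 3) * (99 / 100 * S.wh c ξ s n) := by
          linarith only [z, e, lt, ab (n - 1) (by omega), mul_pos g xn, mul_pos (mul_pos g g') xn]
      _ ≤ _ := by (clear * - f yn xn; gcongr)
  · refine (bk j a b.le 4 ?_).trans_eq (by ring)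
    have e1 := (abs_le.1 ((dP_lip _ _).trans (T.X j a.le b))).1
    obtain e2 := (abs_le.1 ((dP_lip _ _).trans (T.X (j - 1) (by omega) (by omega)))).1
    rw [Sq.ch1, S.kk_eq_one.2 ⟨by linarith only [d, e1], by linarith only [e, e2]⟩, sub_self, zero_mul, add_zero, one_mul,
      ← Real.le_log_iff_exp_le (by norm_num), div_le_iff₀' two_pos, ← Nat.cast_ofNat (n := 2),
      ← Real.log_pow]
    refine Real.log_le_log (one_div_pos.2 (by linarith only [h.k1])) ?_
    rw [div_le_iff₀ (by linarith only [h.k1])]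
    linarith only [h.k1]
  · exact bk j a b _ (Real.exp_le_exp.2 (by linarith only [(S.ch1_mem c h.chb j).2]))
  · obtain ⟨x1, y1, -⟩ := T.v_mem a b.le
    obtain ⟨-, -, z2⟩ := T.v_mem (j := j + 1) (by omega) (by omega)
    linarith only [z2, (hf j a).1, mul_pos hL x1, mul_le_mul_of_nonneg_left y1 hL.le]
  · obtain f := ff_mem (T.chi s i le_rfl a (by omega)).1
    simpa using T.w_le a (by omega) (by omega) d ⟨zero_le_one, le_rfl⟩
      ((one_mul _).trans_le (r.i2p i j a b d).1) (by (clear * -; positivity)) (K' := 50) (by nlinarith only [f])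
      (T.ex h ha a (by omega) le_rfl).2.1
  · obtain f := ff_mem (T.chi s i le_rfl a (by omega)).1
    exact T.w_le a (by omega) (by omega) d (T.PB i j a d) (r.i2p i j a b d).2 (by (clear * -; positivity))
      (by nlinarith only [f]) (by linarith only [(T.ex h ha a (by omega) le_rfl).2.1, (T.ex h ha a b.le d).1])
  · exact (bc i j a b d).trans (by gcongr; norm_num)
  · obtain ⟨x, -, z⟩ := T.v_mem a b.le
    obtain e : S.AA c ξ s n ≤ Real.exp (-c.lam / 4) * S.wh c ξ s n := by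
      rw [← div_le_iff₀ xn, ← Real.log_le_iff_le_exp (div_pos (by linarith only [S.one_le_AA c ξ s n]) xn),
        Real.log_div (by linarith only [S.one_le_AA c ξ s n]) xn.ne', r.whm]
      exact sg
    obtain f := e6 (-c.lam / 4) (by linarith only [l8])
    have g := Real.exp_pos (-c.lam / 4)
    calc _ ≤ 7 * Real.exp (-c.lam / 4) * (99 / 100 * S.wh c ξ s n) := by
          linarith only [x, z, e, b, (hf i a).2, S.AA_mono c ξ s (show i + 1 ≤ n by omega), mul_pos g xn]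
      _ ≤ _ := by (clear * - f yn xn; gcongr)
  · refine (T.dec h ha r le_rfl a b).1.trans ?_
    obtain e := far S i b (by linarith only [g2])
    obtain f : 4 ≤ Real.exp (c.a * S.chi c i n) := by
      refine le_trans ?_ (Real.exp_le_exp.2 e)
      rw [show (2 : ℝ) = 1 + 1 by norm_num, Real.exp_add]
      nlinarith only [Real.add_one_le_exp 1]
    rw [Real.exp_sub, ← mul_div_assoc, mul_comm 4, mul_div_assoc]
    gcongr
    · linarith only [xn, yn]
    · exact mul_le_of_le_one_right (Real.exp_pos _).le ((div_le_one (Real.exp_pos _)).2 f)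
  · linarith only [g2, lt, far S' i b (by
      linarith only [g2, lt, (abs_le.1 ((dP_lip _ _).trans (T.X (n - 1) (by omega) (by omega)))).1])]

end
end Pool.Agent.MP_9cbfe4_an

end
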