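import Pool.Agent.MP_9cbfe4_an.M03
import Pool.Agent.MP_9cbfe4_an.M23

set_option linter.all false

attribute [-instance] AddQuantale.instAddLeftMono IdemSemiring.toCanonicallyOrderedAdd
  NumberField.to_charZero AddQuantale.instAddRightMono IdemSemiring.toMulLeftMono RKHS.instFunLike
  Quantale.instMulRightMono Quantale.instMulLeftMono IsOrderedCancelMonoid.toIsOrderedMonoid
  LinearOrderedCommMonoidWithZero.toPosMulStrictMono
  Group.IsPerfect.subsingleton_of_isMulCommutative CanonicallyOrderedAdd.toMulLeftMono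
  Valued.toUniformSpace IdemSemiring.toMulRightMono TotallySeparatedSpace.t2Space
  LinearOrderedCommMonoidWithZero.toIsOrderedMonoid IsScalarTower.complexToReal
  Order.Coframe.toCompleteLattice OmegaCompletePartialOrder.toPartialOrder Invertible.toNeZero
  GrpTypeEquivalenceGrp.grpGroup littleWedderburn CanonicallyOrderedMul.toMulLeftMono
  CoalgHomClass.toSemilinearMapClass TestFunctionClass.toDFunLike
  ContDiffMapSupportedInClass.toDFunLike Order.Frame.toCompleteLattice RightPreLieAlgebra.toModule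
  CategoryTheory.Limits.Concrete.instUniqueToTypeTerminal LeftPreLieAlgebra.toModule
  CStarAlgebra.instOrderClosedTopology IdemSemiring.toSemiring
  LieAdmissibleRing.toNonUnitalNonAssocRing NonUnitalAlgSemiHomClass.toDistribMulActionSemiHomClass
  CStarAlgebra.toNormedRing

/-! ### Part EGD -/

section

/-! Row EGD: a cancelled datum is a candidate of some run. -/

namespace Pool.Agent.MP_9cbfe4_an

open Finset Filter Topology Real MeasureTheory

noncomputable section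

namespace EGD

structure Nm (K : ℕ) (c : Cs) : Prop where
  bud : c.Bud K (K + 1)
  C0 : 2400 ≤ c.C0
  e3 : 0 < c.e3 ∧ c.e3 ≤ 1
  C1 : 1 ≤ c.C1
  β : 100 * c.C1 ≤ c.β
  lam : 1 ≤ c.lam
  κ : 0 < c.κ

theorem nm (K : ℕ) : Hier (Nm K) := by
  have a := Hier.C0_ge fun _ _ κ _ =>
    1000 * ((K : ℝ) + 1) * (((K : ℝ) + 1) * (1000 * (2 + κ) ^ 2) ^ (K + 3))
  have b := Hier.C0_ge fun _ _ _ _ => 2400
  have e := Hier.e3_le (fun _ => 1) (fun _ _ _ _ _ _ _ _ => rfl) (Hier.of_all fun _ => one_pos)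
  have f := Hier.C1_ge fun _ _ _ _ _ => 1
  have g := Hier.β_ge (fun c => 100 * c.C1) fun _ _ _ => rfl
  have h := Hier.lam_ge (fun _ => 1) fun _ _ => rfl
  refine ((((((a.and b).and e).and f).and g).and h).and Hier.base).mono ?_
  rintro c ⟨⟨⟨⟨⟨⟨a, b⟩, e⟩, f⟩, g⟩, h⟩, i⟩
  exact ⟨⟨le_rfl, a⟩, b, e, f, g, h, i.2.2.2.2.1⟩

theorem Nm.gm_le {K c} (h : Nm K c) : c.gm (K + 1) (K + 2) ≤ c.eg K := by
  obtain h1 : 0 ≤ c.gm (K + 1) (K + 2) := by unfold Cs.gm Cs.Cg; (clear * -; positivity)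
  obtain h2 : (1 : ℝ) ≤ 10 ^ 6 * (K + 1) ^ 2 * c.ck := by
    obtain this : (1 : ℝ) ≤ ((K : ℝ) + 1) ^ 2 := one_le_pow₀ (by linarith only [Nat.cast_nonneg (α := ℝ) K])
    obtain this : 1 ≤ c.ck := by unfold Cs.ck; linarith only [h.κ]
    (rename_i zq0; nlinarith only [zq0, this])
  unfold Cs.eg
  nlinarith only [h1, h2]
end EGD

open EGD in
theorem egd (K : ℕ) (hEA : ∀ k S La, E.Sk.EA_s k S La) : Hier fun c => ESK_s K c → EDI_s c →
    EPC_s K c → ECLO_s K c → ENUM_s K c → JET_s K c → XC2_s K c → HI_s K c → BIG_s K c →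
    HVY_s K c → SK1_s K c → SK2_s K c → EGD_s K c := by
  refine (nm K).mono fun c N esk edi epc eclo enum jet xc2 hi big hvy sk1 sk2 hF M hM sd hsd d hd
    hh hc => ?_
  obtain ⟨x, hx, hadm, hstr, hcan⟩ := hc
  have hs : (d.sk c M).OK c := ⟨sk1 hF M hM.ok d hd, sk2 hF M hM.ok d hd⟩
  obtain ⟨hxF, hxN⟩ := hs.1.D_mem x hx
  obtain ⟨hn, hxn, hmin⟩ := hs.1.nx_mem x hxN
  obtain ⟨f, S, en, sok, jmp⟩ := esk hF M hM.ok d hd _ hn
  have dic := edi _ _ f _ S hs hn en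
  obtain ⟨b1, b2, b3⟩ := big hF M hM.ok d hd
  obtain ⟨ekok, pn⟩ := enum hF
  obtain hbl : 100 * (c.C1 * c.lam) ≤ c.bl := by unfold Cs.bl; nlinarith only [N.β, N.lam]
  obtain hC1 : 1 ≤ c.C1 * c.lam := by nlinarith only [N.C1, N.lam]
  have hH : c.bl / 2 < c.C0 * d.V c M := hh
  obtain hV : 0 < d.V c M := by
    by_contra h
    nlinarith only [hbl, hC1, hH, h, N.C0]
  have hy1 : d.y c M ≤ c.C0 * d.V c M := Int.floor_le _
  have hy2 : c.C0 * d.V c M - 1 < d.y c M := Int.sub_one_lt_floor _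
  obtain hy0 : c.bl / 4 < d.y c M := by linarith only [hbl, hC1, hH, hy2]
  have hφ := hi hF M hM.ok d hd _ hy0 hy1
  have hσ := hsd.ok _ _ hφ
  obtain hmono : ∀ m ∈ (d.sk c M).F, 0 ≤ (d.sk c M).sl m := fun m hm =>
    le_trans (by linarith only [N.lam]) (b1 m (hs.1.F_mem m hm).1).2
  obtain hadm' : d.Adm c M 300 ((d.sk c M).nx x) :=
    hadm.trans (exp_le_exp.2 (by nlinarith only [hmono _ hn, N.C0]))
  obtain h4 : 4 * ((d.sk c M).W ((d.sk c M).nx x) + 300 * (d.sk c M).sl ((d.sk c M).nx x))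
      ≤ d.y c M := by
    obtain ⟨u1, u2⟩ := b2 _ hn
    obtain u3 : d.s0 c M ≤ d.V c M + c.C1 * c.lam := by
      unfold Dat.s0
      have := min_le_left (d.V c M) ((d.S M).xx c d.n (d.V c M))
      have e1 : c.e3 ^ 2 ≤ 1 := pow_le_one₀ N.e3.1.le N.e3.2
      nlinarith only [this, hV, e1, sq_nonneg c.e3]
    nlinarith only [hbl, hC1, hH, hV, hy2, u1, u2, u3, hmono _ hn, N.C0]
  obtain ⟨jc, -, -, d7, -⟩ := xc2 hF M hM d hd _ _ hy0 hy1 hσ _ hn 300 le_rfl (by linarith only [N.C0])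
    hadm' h4
  have hth : 0 < c.th := ekok.θpos
  obtain hj := jet N.bud M _ d.t 2 _ _ jc d7 f (c.ek K) S en rfl (by show _ ≤ c.th; linarith only [hth]) N.gm_le
  -- the cancelled index
  obtain ⟨i, hiN, hfi⟩ := dic.onto S.N le_rfl x hxF (by rw [en.fN]; exact hxn.le)
  obtain hi' : i < S.N := lt_of_le_of_ne hiN fun h => by
    rw [h, en.fN] at hfi; exact absurd hfi hxn.ne'
  obtain hRi : S.R i = -log ((d.sk c M).η x) := by rw [en.R i hi', hfi, if_pos hx]
  have hη := hs.1.η_mem x hx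
  obtain hR0 : 0 < S.R i := by
    have h1 := hvy _ hs x hx hstr
    obtain h2 : 0 < (d.sk c M).σ x := lt_of_lt_of_le (by linarith only [N.lam]) (b1 _ (hs.1.F_mem _ hn).1).2
    have h3 := (log_le_iff_le_exp hη.1).2 h1
    obtain h4 : 0 < c.C0 ^ 3 := pow_pos (by linarith only [N.C0]) 3
    rw [hRi]; nlinarith only [h3, h2, h4]
  obtain hNC : S.NC (c.ek K) (fun j l => (d.seed c M sd).La M d.t j (f l)) 1 i := by
    refine ⟨hi', hR0, ?_, fun j j1 jK => ?_⟩
    · rw [en.W i hiN, hfi, hRi]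
      obtain this : (c.ek K).Cw = Cw K := by unfold E.EK.Cw Cw Cs.ek; norm_num
      rw [this]; exact hstr
    · show |(d.seed c M sd).La M d.t j (f (i + 1))| ≤ _
      rw [en.nx i hi', hfi]
      refine (hcan j j1 jK).trans_eq ?_
      have e1 := dic.V i hi' (hfi ▸ hx) (2 * j - 1)
      have e2 := dic.eta i hi' (hfi ▸ hx)
      rw [hfi] at e1 e2
      rw [e1, e2, ← exp_mul, ← exp_add, one_mul]
      congr 1
      unfold E.Sk.V
      obtain this : ((2 * j - 1 : ℕ) : ℝ) = 2 * j - 1 := by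
        rw [Nat.cast_sub (by omega)]; push_cast; ring
      rw [this]; show _ = (2 * j - 1 - c.th) * _ - _; ring
  obtain ⟨ρ, j, cd, hjJ, hΛ, ⟨A, hA, hRA, hSA, hAρ, hρA⟩, -, hcd⟩ :=
    hEA (c.ek K) S _ ekok sok jmp hj ⟨i, hNC⟩
  have hAD := dic.maj A hA hRA
  obtain hRA' : S.R A = -log ((d.sk c M).η (f A)) := by rw [en.R A hA, if_pos hAD]
  obtain hCw : (c.ek K).Cw = Cw K := by unfold E.EK.Cw Cw Cs.ek; norm_num
  obtain hblρ : c.bl ≤ 10 * c.C0 * (Cw K + 1) * (ρ : ℝ) := by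
    obtain h1 : (d.sk c M).Strong K (f A) := by
      unfold Sk.Strong; rw [← hRA', ← en.W A hA.le, ← hCw]; exact hSA
    refine (b3 _ hAD h1).trans ?_
    rw [← hRA']
    obtain this : 0 ≤ Cw K := by unfold Cw; (clear * -; positivity)
    obtain this : 0 ≤ c.C0 := by linarith only [N.C0]
    (rename_i zq0; clear * - hAρ this zq0; gcongr)
  obtain ⟨hpn, hΛρ, -⟩ := pn ρ j hjJ hΛ hblρ
  refine ⟨ρ, j, hjJ, hΛ, hblρ, hd, ?_⟩
  -- the level of the run is below the level of the datum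
  obtain hρV : (ρ : ℝ) / 2 ≤ d.V c M := by
    have h1 := sok.up A hA
    have h2 := sok.lo A hA.le
    have h3 := (b2 _ (dic.mem (A + 1) hA)).1
    rw [← en.W (A + 1) hA] at h3
    obtain h4 : 0 ≤ S.W A := by
      rw [en.W A hA.le, ← hs.1.W1]
      exact hs.1.W_mono 1 _ le_rfl (hs.1.F_mem _ (dic.mem A hA.le)).1
    obtain h5 : (c.ek K).θ ^ 2 ≤ 1 := by
      obtain this : c.th ≤ 1 := by unfold Cs.th; rw [div_le_one (by linarith only [N.C0])]; linarith only [N.C0]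
      exact pow_le_one₀ hth.le this
    obtain h6 : 100 ≤ (c.ek K).Λ := by
      show 100 ≤ 100 * c.ck * c.lam
      nlinarith only [hpn.ck2, N.lam]
    unfold E.EK.sl at h2
    nlinarith only [hρA, hΛρ, h1, h2, h3, h6, h4, h5]
  obtain hlev : c.lev ρ ≤ d.y c M := by
    unfold Cs.lev
    exact max_le (by linarith only [hbl, hC1, hH, hy2]) (by nlinarith only [hV, hρV, hbl, hC1, hH, hy2, N.C0])
  have hφ' := hi hF M hM.ok d hd _ hpn.bl.2 (hlev.trans hy1)
  refine ⟨hφ', f, S, cd, fun lab => ?_⟩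
  have pc := epc hF M hM d hd _ _ _ hpn (hlev.trans hy1) (hsd.ok _ _ hφ') _ hn hadm f S lab en sok jmp
  refine ⟨pc, hcd _ fun j' j1 jK m hm hW => ?_⟩
  have hin : (mkPr M (sd d.toFd (c.lev ρ)) d.t lab f S).InR ((c.ek K).par ρ j) m := ⟨hm, hW⟩
  have hcr := hsd.cross _ _ _ hφ hφ' hlev
  have hok := hpn.ok
  obtain hςW : ((c.ek K).par ρ j).ς ≤ ((c.ek K).par ρ j).Wc := by
    have a1 := hok.small
    obtain a2 : (10 : ℝ) ≤ ((c.ek K).par ρ j).K := by exact_mod_cast hok.K10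
    have a3 := hok.g10
    have a4 := hpn.C1.2
    obtain a5 : 0 ≤ ((c.ek K).par ρ j).ς := by linarith only [hC1, a4]
    obtain a6 : (100 : ℝ) ≤ ((c.ek K).par ρ j).K * ((c.ek K).par ρ j).g := by nlinarith only [a2, a3]
    obtain a7 : ((c.ek K).par ρ j).ς ≤ ((c.ek K).par ρ j).ρ := by nlinarith only [hC1, a1, a2, a4, a3, a6]
    unfold E.Par.Wc
    nlinarith only [a2, hC1, a4, a7]
  obtain this := eclo N.bud M _ d.t _ _ (pc.jc m hin) (d.seed c M sd) (tiny (c.lev ρ))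
    ((c.ek K).par ρ j).Wc jc.at' (fun j hj => hcr j hj) (by rw [← en.W m hm]; exact hW)
    ((pc.sl m hin _ le_rfl).trans hςW)
    (exp_le_exp.2 (by
      have := hpn.tiny
      obtain this : 0 ≤ ((K : ℝ) + 2) * ((c.ek K).par ρ j).Wc :=
        mul_nonneg (by (clear * -; positivity)) (by linarith only [hC1, hςW, hpn.C1.2])
      (rename_i zq0; linarith only [zq0, this]))) j' j1 jK
  rw [abs_sub_comm] at this
  exact this

end
end Pool.Agent.MP_9cbfe4_an

end

/-! ### Part EVC -/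

section

/-! Glue E, row EVC: a valid scale at a deep index. -/

namespace Pool.Agent.MP_9cbfe4_an

open Finset Filter Topology Real

noncomputable section

namespace EVC

/-- the numbers of a run -/
structure Nm (K : ℕ) (c : Cs) (k : E.Par) : Prop where
  kK : k.K = K
  K10 : 10 ≤ K
  th : k.θ = c.th
  th0 : 0 < k.θ
  g10 : 10 ≤ k.g
  u0 : 0 < k.u
  Lu : k.Λ < k.u
  s100 : 100 ≤ k.ς
  C0 : 1000 ≤ c.C0
  gs : 300 * (k.g * k.ς) ≤ c.C0 * k.u
  gm1 : 1 ≤ c.gm (K + 1) (K + 2)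
  gm6 : 6 * c.gm (K + 1) (K + 2) ≤ c.C0
  lam : 0 < c.lam

theorem nm {K : ℕ} {c : Cs} {k : E.Par} {y : ℝ} (h : PN K c k y) : Nm K c k := by
  obtain kK : k.K = K := by
    have := congrArg E.EK.K h.hk
    exact this
  obtain th : k.θ = c.th := by
    have := congrArg E.EK.θ h.hk
    exact this
  have K10 : 10 ≤ K := kK ▸ h.ok.K10
  obtain hK : (10 : ℝ) ≤ K := by exact_mod_cast K10
  have hg := h.ok.g10
  have hb := h.ok.big
  rw [kK] at hb
  obtain hK2 : (10 : ℝ) * 10 ≤ (K : ℝ) ^ 2 := by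
    rw [sq]; exact mul_le_mul hK hK (by norm_num) (by linarith only [hK])
  obtain hu : 100 ≤ k.u := by linarith only [hb, hK2]
  obtain hs : k.ς = 4 * K * k.u := by rw [E.Par.ς, kK]
  obtain hKu : (10 : ℝ) * 100 ≤ K * k.u := mul_le_mul hK hu (by norm_num) (by linarith only [hK])
  obtain s100 : 100 ≤ k.ς := by rw [hs]; linarith only [hKu]
  obtain hK1 : (K : ℝ) * 1 ≤ ((K : ℝ) + 1) ^ 2 := by nlinarith only [hK]
  obtain hKg : (K : ℝ) * k.g ≤ ((K : ℝ) + 1) ^ 2 * k.g :=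
    mul_le_mul_of_nonneg_right (by linarith only [hK1]) (by linarith only [hg])
  obtain hKg' : (1 : ℝ) * k.g ≤ K * k.g :=
    mul_le_mul_of_nonneg_right (by linarith only [hK]) (by linarith only [hg])
  have hC := h.C0g
  obtain hC1 : 10 ^ 12 * ((K : ℝ) * k.g) ≤ c.C0 := by linarith only [hC, hKg]
  obtain C0 : 1000 ≤ c.C0 := by linarith only [hC1, hKg', hg]
  have hck := h.ck2
  obtain gm1 : 1 ≤ c.gm (K + 1) (K + 2) := by
    obtain h1 : 1 ≤ c.Cg := by unfold Cs.Cg; nlinarith only [hck]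
    have h2 : 1 ≤ c.Cg ^ (K + 2) := one_le_pow₀ h1
    obtain h3 : (1 : ℝ) * 1 ≤ ((K : ℝ) + 1) * c.Cg ^ (K + 2) :=
      mul_le_mul (by linarith only [hK]) h2 zero_le_one (by linarith only [hK])
    unfold Cs.gm
    linarith only [h3]
  obtain h4 : 2 * c.gm (K + 1) (K + 2) ≤ c.ck * c.gm (K + 1) (K + 2) :=
    mul_le_mul_of_nonneg_right hck (by linarith only [gm1])
  have hg1 := h.g1
  refine ⟨kK, K10, th, h.ok.θpos, hg, by linarith only [hu], ?_, s100, C0, ?_, gm1, ?_, ?_⟩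
  · have hf := h.ok.fine
    have hsm := h.ok.small
    rw [kK] at hf hsm
    obtain h5 : 0 ≤ (K : ℝ) * k.g * k.ς :=
      mul_nonneg (by linarith only [hKg', hg]) (by linarith only [s100])
    obtain hρ : 0 ≤ k.ρ := by linarith only [hsm, h5]
    obtain hW : 0 ≤ k.Wc := by unfold E.Par.Wc; positivity
    obtain hφ : k.Λ ≤ k.φ := by
      unfold E.Par.φ E.EK.sl
      linarith only [mul_nonneg (sq_nonneg k.θ) hW]
    have hΛ := h.ok.Λ1
    obtain h6 : 10 * k.φ ≤ (K : ℝ) * k.g * k.φ :=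
      mul_le_mul_of_nonneg_right (by linarith only [hKg', hg]) (by linarith only [hφ, hΛ])
    linarith only [hf, h6, hφ, hΛ]
  · obtain h5 : 10 ^ 12 * ((K : ℝ) * k.g) * k.u ≤ c.C0 * k.u :=
      mul_le_mul_of_nonneg_right hC1 (by linarith only [hu])
    obtain h6 : 0 ≤ (K : ℝ) * k.g * k.u :=
      mul_nonneg (by linarith only [hKg', hg]) (by linarith only [hu])
    rw [hs]
    linarith only [h5, h6]
  · linarith only [hg1, h4, gm1, hC1, hKg', hg]
  · have := h.lam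
    nlinarith only [this, C0]

theorem chi_mono {c : Cs} {s : Sk} (h : s.OK1 c) {x n : ℤ} (hx : x ≤ n) : s.chi 0 x ≤ s.chi 0 n :=
  sum_le_sum_of_subset_of_nonneg (Ioc_subset_Ioc_right hx) fun l _ _ => by
    linarith only [(h.ch_mem l).1]

theorem rst0 (S : E.Sk) (n : ℕ) : 0 ≤ S.Rst n := (le_fold_max _).2 (Or.inl le_rfl)

variable {K : ℕ} {c : Cs} {M : Mdl} {k : E.Par} {y : ℝ} {σ : Seed} {d : Dat} {f : ℕ → ℤ} {p : E.Pr}

/-- every depth up to `e` is paid by the contraction -/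
theorem depth (h : PC K c M k y σ d f p) {e l : ℕ} (he : e < p.N) (hl : l ≤ e) :
    c.C0 * p.R l ≤ (d.sk c M).chi 0 (f e) := by
  obtain h1 : f l ≤ f e := by
    rcases eq_or_lt_of_le hl with rfl | h2
    · exact le_rfl
    · exact (h.dic.mono l e h2 he.le).1.le
  have h2 := chi_mono h.sk.1 h1
  rcases eq_or_lt_of_le (h.ok.R0 l) with h3 | h3
  · obtain h4 : 0 ≤ (d.sk c M).chi 0 (f e) :=
      sum_nonneg fun l _ => by linarith only [(h.sk.1.ch_mem l).1]
    rw [← h3, mul_zero]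
    exact h4
  · obtain hD := h.dic.maj l (by omega) h3
    have h4 := h.sk.1.d0 _ hD
    rw [h.dic.eta l (by omega) hD, log_exp, neg_neg] at h4
    exact h4.trans h2

theorem chi_big (n : Nm K c k) (h : PC K c M k y σ d f p) {e : ℕ} (he : e < p.N)
    (hu : k.u ≤ p.R e) : 100 * (k.g * k.ς + p.Rst e + p.R e) ≤ (d.sk c M).chi 0 (f e) := by
  obtain hC : 0 < c.C0 := by linarith only [n.C0]
  have h1 := depth h he le_rfl
  have hR : 0 ≤ p.R e := h.ok.R0 e
  obtain h2 : c.C0 * p.Rst e ≤ (d.sk c M).chi 0 (f e) := by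
    rw [← le_div_iff₀' hC]
    refine (fold_max_le _).2 ⟨div_nonneg ((mul_nonneg hC.le hR).trans h1) hC.le, fun l hl => ?_⟩
    rw [le_div_iff₀' hC]
    exact depth h he (mem_range.1 hl).le
  have h3 : c.C0 * k.u ≤ c.C0 * p.R e := mul_le_mul_of_nonneg_left hu hC.le
  have h4 : 1000 * p.R e ≤ c.C0 * p.R e := mul_le_mul_of_nonneg_right n.C0 hR
  have h5 : 1000 * p.Rst e ≤ c.C0 * p.Rst e := mul_le_mul_of_nonneg_right n.C0 (rst0 _ e)
  linarith only [h1, h2, h3, h4, h5, n.gs, hR, rst0 p.toSk e]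

theorem la_eq (h : PC K c M k y σ d f p) (j l : ℕ) : p.La j l = σ.La M d.t j (f l) := by
  have h1 : p.Fd = (mkPr M σ d.t p.lab f p.toSk).Fd := congrArg E.Pr.Fd h.eq
  have h2 : p.t = d.t := congrArg E.Pr.t h.eq
  unfold E.Pr.La
  rw [h1, h2]
  rfl

/-- no strong cancelled major before `f e` -/
theorem nocanc (n : Nm K c k) (hV : HVY_s K c) (h : PC K c M k y σ d f p) {e : ℕ} (he : e < p.N)
    (hn : p.NoNC k e) : ∀ x ∈ (d.sk c M).D, x < f e → (d.sk c M).Strong K x →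
      ¬ σ.Canc M c d.t (1 / 2) (d.sk c M) K x := by
  intro x hx hlt hs hc
  obtain ⟨nn, -, en⟩ := h.en
  have o := h.sk.1
  obtain ⟨l, hl, rfl⟩ := h.dic.onto e he.le x (o.D_mem x hx).1 hlt.le
  obtain hl' : l < e := by
    rcases eq_or_lt_of_le hl with rfl | h2
    · exact absurd hlt (lt_irrefl _)
    · exact h2
  obtain hN : l < p.N := by omega
  have hη := h.dic.eta l hN hx
  refine hn l hl' ⟨hN, ?_, ?_, fun j hj1 hj2 => ?_⟩
  · have h1 := hV _ h.sk _ hx hs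
    rw [hη, exp_le_exp] at h1
    obtain ⟨h2, -, -⟩ := o.nx_mem (f l) (o.D_mem _ hx).2
    have h3 : c.lam ≤ (d.sk c M).σ (f l) :=
      o.sl1.trans (o.sl_mono 1 _ le_rfl (o.F_mem _ h2).1)
    obtain h4 : 0 < c.C0 ^ 3 * (d.sk c M).σ (f l) :=
      mul_pos (pow_pos (by linarith only [n.C0]) 3) (by linarith only [h3, n.lam])
    linarith only [h1, h4]
  · have h1 : (d.sk c M).W (f l) ≤ Cw K * (-log ((d.sk c M).η (f l))) := hs
    rw [hη, log_exp, neg_neg, ← en.W l hN.le] at h1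
    obtain h2 : k.toEK.Cw = Cw K := by
      unfold E.EK.Cw Cw
      rw [n.kK]; norm_num
    rw [h2]
    exact h1
  · have h1 := hc j hj1 (n.kK ▸ hj2)
    rw [← en.nx l hN, ← la_eq h, h.dic.V l hN hx, hη, ← exp_mul, ← exp_add] at h1
    refine h1.trans (le_of_eq ?_)
    congr 2
    obtain h2 : ((2 * j - 1 : ℕ) : ℝ) = 2 * j - 1 := by
      rw [Nat.cast_sub (by omega)]; push_cast; ring
    unfold E.Sk.V
    rw [h2, ← n.th]
    ring

theorem one_lt (n : Nm K c k) (h : PC K c M k y σ d f p) {e : ℕ} (he : e < p.N)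
    (hu : k.u ≤ p.R e) : 1 < f e := by
  obtain ⟨nn, -, en⟩ := h.en
  rcases Nat.eq_zero_or_pos e with rfl | h0
  · have h1 := h.jump 0 he
    rw [en.W 0 he.le, en.f0, h.sk.1.W1, mul_zero, zero_add] at h1
    linarith only [h1, hu, n.Lu]
  · have h1 := (h.dic.mono 0 e h0 he.le).1
    rwa [en.f0] at h1

/-- the window -/
theorem win (n : Nm K c k) (h : PC K c M k y σ d f p) {e : ℕ} {D μ : ℝ} (a : p.Adm k e D μ μ) :
    Win K M σ d.t (d.sk c M) (f e) D (64 * μ) (64 * μ) (6 * c.gm (K + 1) (K + 2))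
      (6 * c.gm (K + 1) (K + 2)) ∧
    D * (d.sk c M).rh (f e) ^ (1 + c.th) ≤ exp (-(6 * c.gm (K + 1) (K + 2)) * (d.sk c M).sl (f e)) ∧
    D * exp (2 * p.Rst e) ≤ exp (-k.ς) ∧ μ * exp ((d.sk c M).W (f e)) ≤ exp (-k.ς) ∧ 0 ≤ μ := by
  obtain ⟨nn, -, en⟩ := h.en
  have o := h.sk.1
  have he := a.inr.1
  have hμ : 0 ≤ μ := (mul_nonneg (abs_nonneg _) a.D0.le).trans a.j1
  have hR := rst0 p.toSk e
  have hsl : 0 ≤ (d.sk c M).sl (f e) :=
    n.lam.le.trans (o.sl1.trans (o.sl_mono 1 _ le_rfl (o.F_mem _ (h.dic.mem e he)).1))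
  have hG : 6 * c.gm (K + 1) (K + 2) * (d.sk c M).sl (f e) ≤ k.ς :=
    (mul_le_mul_of_nonneg_right n.gm6 hsl).trans (h.sl e a.inr _ le_rfl)
  obtain hG' : exp (-k.ς) ≤ exp (-(6 * c.gm (K + 1) (K + 2)) * (d.sk c M).sl (f e)) :=
    exp_le_exp.2 (by linarith only [hG])
  obtain hgs : 10 * k.ς ≤ k.g * k.ς := mul_le_mul_of_nonneg_right n.g10 (by linarith only [n.s100])
  obtain h64 : 64 * exp k.ς ≤ exp (k.g * k.ς) := by
    obtain h1 : 64 ≤ exp k.ς := by linarith only [add_one_le_exp k.ς, n.s100]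
    obtain h2 : exp k.ς * exp k.ς ≤ exp (k.g * k.ς) := by
      rw [← exp_add]; exact exp_le_exp.2 (by linarith only [hgs, n.s100])
    exact (mul_le_mul_of_nonneg_right h1 (exp_pos _).le).trans h2
  obtain h64' : 64 * exp (-(k.g * k.ς)) ≤ exp (-k.ς) := by
    rw [exp_neg, exp_neg, ← div_eq_mul_inv, inv_eq_one_div, div_le_div_iff₀ (exp_pos _) (exp_pos _)]
    linarith only [h64]
  have hD : D ≤ exp (-(2 + 2 * k.θ) * p.Rst e - k.g * k.ς) := (log_le_iff_le_exp a.D0).1 a.clip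
  have hθR : 0 ≤ k.θ * p.Rst e := mul_nonneg n.th0.le hR
  obtain hD1 : D * exp (2 * p.Rst e) ≤ exp (-k.ς) := by
    refine (mul_le_mul_of_nonneg_right hD (exp_pos _).le).trans ?_
    rw [← exp_add]
    exact exp_le_exp.2 (by linarith only [hθR, hgs, n.s100])
  have hrh := h.dic.rh e he
  have hW := en.W e he
  have hval := a.val
  have hmix := a.mix
  rw [hW] at hval hmix
  obtain hA : (64 * μ + 64 * μ) * exp ((d.sk c M).W (f e)) ≤ exp (-k.ς) := by
    linarith only [hval, h64']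
  have hμW : 0 ≤ μ * exp ((d.sk c M).W (f e)) := mul_nonneg hμ (exp_pos _).le
  refine ⟨⟨a.D0, by linarith only [hμ], ?_, hA.trans hG', ?_, ?_, fun j h1 h2 => ?_⟩, ?_, hD1,
    by linarith only [hA, hμW], hμ⟩
  · rw [hrh]; exact hD1.trans hG'
  · rw [hrh]
    obtain h0 : 0 ≤ μ ^ 2 * exp ((d.sk c M).W (f e)) := by (clear * -; positivity)
    have h1 : 0 ≤ μ * D * exp (2 * p.Rst e) := mul_nonneg (mul_nonneg hμ a.D0.le) (exp_pos _).le
    obtain h2 : 64 * exp (6 * c.gm (K + 1) (K + 2) * (d.sk c M).sl (f e)) ≤ exp (k.g * k.ς) := by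
      linarith only [h64, exp_le_exp.2 hG]
    have h3 := mul_le_mul_of_nonneg_right h2 (add_nonneg h0 h1)
    have h4 := mul_nonneg (exp_pos (6 * c.gm (K + 1) (K + 2) * (d.sk c M).sl (f e))).le h1
    linarith only [h3, h4, hmix]
  · rw [← la_eq h]
    linarith only [a.j1, hμ]
  · rw [← la_eq h]
    linarith only [a.jj j h1 (n.kK ▸ h2), hμ]
  · rw [hrh, ← exp_mul]
    refine le_trans ?_ hG'
    refine (mul_le_mul_of_nonneg_right hD (exp_pos _).le).trans ?_
    rw [← exp_add, ← n.th]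
    exact exp_le_exp.2 (by linarith only [hgs, n.s100])

theorem evc_of (h3 : J3_s K c) (h4 : J4_s K c) (hV : HVY_s K c) : EVC_s K c := by
  intro M k y σ d f p hN h e D μ a inr hu
  have n := nm hN
  have he : e < p.N := inr.1
  have hchi := chi_big n h he hu
  refine ⟨?_, hchi⟩
  obtain ⟨w, hrθ, hD, hν, hμ⟩ := win n h a
  have jc := h.jc e a.inr
  have hR := rst0 p.toSk e
  obtain hgs : 10 * k.ς ≤ k.g * k.ς := mul_le_mul_of_nonneg_right n.g10 (by linarith only [n.s100])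
  obtain j3 := h3 (by have := n.K10; omega) M σ d.t 2 _ _ jc (K + 1) hN.bud (nocanc n hV h he a.nonc)
    D _ _ _ _ (2 * c.gm (K + 1) (K + 2)) w (by linarith only [n.gm1]) (by linarith only [n.gm1])
    (by linarith only [n.gm1]) (by linarith only [n.gm1]) hrθ
  obtain hat : ∀ τ ∈ Set.Icc (d.t - D) (d.t + D), σ.At K c τ := by
    intro τ hτ
    refine h.win τ ?_
    obtain h1 : |τ - d.t| ≤ D := abs_le.2 ⟨by linarith only [hτ.1], by linarith only [hτ.2]⟩
    obtain h2 : D * 1 ≤ D * exp (2 * p.Rst e) :=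
      mul_le_mul_of_nonneg_left (one_le_exp (by linarith only [hR])) a.D0.le
    obtain h5 : c.rU y = exp (-(3 * (sqrt c.a * y))) := by
      unfold Cs.rU Cs.S0
      rw [← exp_nat_mul, exp_neg, one_div]; norm_num
    obtain h6 : exp (-k.ς) ≤ exp (-(3 * (sqrt c.a * y))) :=
      exp_le_exp.2 (by linarith only [hN.S0.1, hN.S0.2])
    rw [h5]
    linarith only [h1, h2, hD, h6, exp_pos (-(3 * (sqrt c.a * y)))]
  obtain j4 := h4 M σ d.t 2 _ _ jc (by norm_num) (K + 1) hN.bud D _ _ _ _ w le_rfl le_rfl j3 hat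
  refine ⟨jc, one_lt n h he hu, hN.bud, h.sl e a.inr, hN.C1.2, a.D0, hR, hμ, le_max_left _ _, ?_,
    (h.dic.rh e he.le).le, hν, j3, hat, fun τ hτ => ?_, h.tru e a.inr, ⟨?_, ?_⟩, ?_, le_max_right _ _⟩
  · rcases max_cases D (exp (-(d.sk c M).chi 0 (f e) / 5)) with h1 | h1
    · rw [h1.1]; exact hD
    · rw [h1.1, ← exp_add]
      exact exp_le_exp.2 (by linarith only [hchi, hgs, hR, h.ok.R0 e, n.s100])
  · obtain ⟨b1, b2, -, b4, b5, -⟩ := j4 τ hτ
    rw [show (2 * 2 : ℝ) = 4 by norm_num] at b1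
    rw [show 4 * (64 * μ + 64 * μ) = 512 * μ by ring] at b2
    exact ⟨b1, b2, b4, b5⟩
  · simp only [Dat.sk, Dat.O, Sq.bb, Sq.shift, sub_add_eq_add_sub]
  · simp only [Dat.sk, Dat.O, Sq.ch1, Sq.kk, Sq.shift, sub_add_eq_add_sub]
  · rw [sub_self, abs_zero]
    linarith only [le_max_left D (exp (-(d.sk c M).chi 0 (f e) / 5)), a.D0]

end EVC

theorem evc (K : ℕ) : Hier fun c => J3_s K c → J4_s K c → HVY_s K c → EVC_s K c :=
  Hier.of_all fun _ => EVC.evc_of

end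
end Pool.Agent.MP_9cbfe4_an

end

/-! ### Part ECLO -/

section

/-! Row ECLO: the normalised jets of two close seeds are close. -/

namespace Pool.Agent.MP_9cbfe4_an
open Finset Real

def ECLO.Gen_s (K : ℕ) (c : Cs) : Prop := c.Bud K (K + 1) → ∀ M (σ σ' : Seed) t k n th,
  JC K c M σ t 2 k n → σ'.At K c t → σ.Near σ' t (K + 1) th →
  th * exp (k.W n) ≤ exp (-200 * k.sl n) → ∀ m ∈ k.F, m ≤ n → ∀ j : ℕ, 1 ≤ j → j ≤ K →
  |σ'.La M t j m - σ.La M t j m| ≤ th * exp ((K + 2) * (10 * k.W n + c.C0 * k.sl n))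

namespace ECLO

theorem quot {p p' x x' w a b P : ℝ} (hw : 0 < w) (h1 : w ≤ 2 * |x|) (h2 : w ≤ 4 * |x'|)
    (hp : |p' - p| ≤ a) (hx : |x' - x| ≤ b * w) (hP : |p| ≤ P) :
    |p' / x' - p / x| * w ≤ 4 * a + 8 * (b * P) := by
  obtain x0 : 0 < |x| := by linarith only [hw, h1]
  obtain x0' : 0 < |x'| := by linarith only [hw, h2]
  have n0 := abs_pos.1 x0
  have n0' := abs_pos.1 x0'
  have a0 : 0 ≤ a := (abs_nonneg _).trans hp
  have b0 : 0 ≤ b := nonneg_of_mul_nonneg_left ((abs_nonneg _).trans hx) hw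
  have P0 : 0 ≤ P := (abs_nonneg _).trans hP
  obtain e : p' / x' - p / x = (p' - p) / x' - p * (x' - x) / (x * x') := by field_simp; ring
  obtain t1 : |(p' - p) / x'| * w ≤ 4 * a := by
    rw [abs_div, div_mul_eq_mul_div, div_le_iff₀ x0']
    calc _ ≤ a * (4 * |x'|) := by gcongr
      _ = _ := by ring
  obtain t2 : |p * (x' - x) / (x * x')| * w ≤ 8 * (b * P) := by
    rw [abs_div, abs_mul, abs_mul, div_mul_eq_mul_div, div_le_iff₀ (mul_pos x0 x0')]
    calc _ ≤ P * (b * w) * w := by gcongr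
      _ ≤ P * (b * (2 * |x|)) * (4 * |x'|) := by gcongr
      _ = _ := by ring
  rw [e]
  have := mul_le_mul_of_nonneg_right (abs_sub ((p' - p) / x') (p * (x' - x) / (x * x'))) hw.le
  linarith only [t1, t2, this]

theorem big {y : ℝ} (h : 124 ≤ y) : 1000000 ≤ exp y := by
  have h2 := add_one_le_exp (y / 4)
  obtain h3 : exp y = exp (y / 4) ^ 4 := by rw [← exp_nat_mul]; congr 1; push_cast; ring
  rw [h3]
  calc (1000000 : ℝ) ≤ 32 ^ 4 := by norm_num
    _ ≤ _ := pow_le_pow_left₀ (by norm_num) (by linarith only [h, h2]) 4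

theorem bud {K : ℕ} {c : Cs} (hκ : 0 < c.κ) (h : c.Bud K (K + 1)) :
    0 ≤ c.ck * c.gm (K + 1) (K + 2) ∧ 10 * (c.ck * c.gm (K + 1) (K + 2)) ≤ c.C0 ∧ 157 ≤ c.C0 := by
  have hK : (0 : ℝ) ≤ K := K.cast_nonneg
  obtain c2 : 2 ≤ c.ck := by unfold Cs.ck; linarith only [hκ]
  obtain g1 : 1 ≤ c.Cg := by unfold Cs.Cg; nlinarith only [c2]
  obtain m1 : 1 ≤ c.gm (K + 1) (K + 2) :=
    one_le_mul_of_one_le_of_one_le (by linarith only []) (one_le_pow₀ g1)
  obtain e : c.gm (K + 1) (K + 3) = c.gm (K + 1) (K + 2) * (1000 * c.ck ^ 2) := by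
    unfold Cs.gm Cs.Cg; ring
  have h2 := h.2
  rw [e] at h2
  generalize c.gm (K + 1) (K + 2) = G at *
  obtain a1 : c.ck * G ≤ G * (1000 * c.ck ^ 2) := by
    rw [mul_comm]; exact mul_le_mul_of_nonneg_left (by nlinarith only [c2]) (by linarith only [m1])
  obtain a2 : 2 ≤ c.ck * G := by nlinarith only [c2, m1]
  obtain a3 : 0 ≤ (K : ℝ) * (G * (1000 * c.ck ^ 2)) := by (clear * - m1 c2; positivity)
  refine ⟨by linarith only [a2], by linarith only [h2, a1, a2, a3], by linarith only [h2, a1, a2, a3]⟩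

end ECLO

/-- general form -/
theorem ECLO.gen (K : ℕ) : Hier fun c => SHD_s K c → TUBE_s K c → R2_s K c → J1F_s K c → J1C_s K c →
    ECLO.Gen_s K c := by
  refine (Hier.base.and (Hier.lam_ge (fun _ => 1) fun _ _ => rfl)).mono ?_
  rintro c ⟨⟨-, -, -, -, hκ, -⟩, hlam⟩ shd tube r2 j1f j1c hγ M σ σ' t k n th jc a' near small m hm mn
    j j1 jK
  obtain ⟨X0, X1, X2⟩ := ECLO.bud hκ hγ
  have oc := jc.oc
  have k1 := oc.sk.1
  obtain ⟨n1, nN⟩ := k1.F_mem n oc.hn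
  obtain ⟨m1, -⟩ := k1.F_mem m hm
  have hs : 1 ≤ k.sl n := hlam.trans (k1.sl1.trans (k1.sl_mono 1 n le_rfl n1))
  obtain hW : 0 ≤ k.W n := by have := k1.W_mono 1 n le_rfl n1; rwa [k1.W1] at this
  obtain hWm : 0 ≤ k.W m := by have := k1.W_mono 1 m le_rfl m1; rwa [k1.W1] at this
  obtain h0 : 0 ≤ th := (abs_nonneg _).trans (near 0 (by omega)).1
  obtain ⟨jc', dp⟩ := j1c M σ t 2 k n jc (by norm_num) _ hγ σ' th a' near
    (small.trans (exp_le_exp.2 (by linarith only [hs])))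
  obtain dp := dp j m (by omega) (by omega) mn
  obtain bp := (j1f M σ t 2 k n jc _ hγ).2 j m j1 (by omega) (by omega) mn
  have o2 : O2 c M t (σ'.orb M t) := ⟨jc'.oc.t0, jc'.oc.t1, jc'.oc.orb, jc'.oc.box0⟩
  obtain n0 := near 0 (by omega)
  simp only [iteratedDeriv_zero] at n0
  obtain ⟨tb, -⟩ := (shd M t 2 _ k n oc).2 _ o2 th
    (by simpa [Seed.orb, Mdl.orb, Mdl.pos] using n0.2)
    (by simpa [Seed.orb, Mdl.orb, Mdl.pos] using n0.1) (small.trans (exp_le_exp.2 (by linarith only [hs])))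
  obtain hsz : k.sz n (2 * 2 * th) 0 th ≤ 5 * (th * exp (k.W n)) := by
    have := le_mul_of_one_le_right h0 (one_le_exp hW)
    unfold Sk.sz; linarith only [this]
  obtain ⟨-, tcs⟩ := tube M t 2 _ k n oc t _ o2 _ 0 th 0 le_rfl (by linarith only [X2]) tb (by
    obtain h1 := ECLO.big (show 124 ≤ 140 * k.sl n by linarith only [hs])
    obtain h2 : exp (-(c.ck * 0 + 60) * k.sl n) = exp (140 * k.sl n) * exp (-200 * k.sl n) := by
      rw [← exp_add]; congr 1; ring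
    rw [h2]; nlinarith only [small, hsz, h1, exp_pos (-200 * k.sl n)])
  have hδ := mul_le_mul_of_nonneg_right hsz (exp_pos ((0 + 32) * k.sl n)).le
  obtain ⟨-, cl⟩ := r2 M t 2 _ k n oc (by norm_num) t _ o2 _ (by
    obtain h1 := ECLO.big (show 124 ≤ 168 * k.sl n by linarith only [hs])
    obtain h2 : exp (-200 * k.sl n) * exp ((0 + 32) * k.sl n) * exp (168 * k.sl n) = 1 := by
      rw [← exp_add, ← exp_add, ← exp_zero]; congr 1; ring
    have h3 := mul_le_mul_of_nonneg_right small (exp_pos ((0 + 32) * k.sl n)).le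
    obtain h4 : 0 < exp (-200 * k.sl n) * exp ((0 + 32) * k.sl n) := by positivity
    have h5 := (mul_le_mul_of_nonneg_left h1 h4.le).trans_eq h2
    refine hδ.trans ?_
    rw [mul_assoc 5]
    generalize exp (-200 * k.sl n) * exp ((0 + 32) * k.sl n) = A at h3 h5
    generalize th * exp (k.W n) * exp ((0 + 32) * k.sl n) = B at h3 ⊢
    linarith only [h3, h5]) tcs
  obtain dx := cl 0 m 2 le_rfl (by omega) mn fun l a b => by
    simpa using oc.fit.f1 l (by omega) (by omega)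
  have hw := k1.w_pos m m1
  have f2 := jc'.oc.fit.f2 m hm mn
  obtain q := ECLO.quot (b := 20 * (th * exp (k.W n) * exp (32 * k.sl n))) hw (oc.fit.f2 m hm mn)
    (by linarith only [f2]) dp (by
      simp only [zero_add] at dx hδ
      exact dx.trans (mul_le_mul_of_nonneg_right (by linarith only [hδ]) hw.le)) bp
  obtain wl : 1 ≤ exp (k.sl n) * k.w m := by
    rw [← exp_log hw, ← exp_add]
    exact one_le_exp (by linarith only [hWm, k1.lo m hm, k1.sl_mono m n m1 mn])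
  obtain jK' : (j : ℝ) ≤ K := by exact_mod_cast jK
  have j0 : (0 : ℝ) ≤ j := j.cast_nonneg
  obtain b := ECLO.big (show 124 ≤ 124 * k.sl n by linarith only [hs])
  rw [mul_assoc 10, mul_assoc 7] at q
  unfold Seed.La
  generalize c.ck * c.gm (K + 1) (K + 2) = X at *
  generalize k.sl n = s at *
  generalize k.W n = W at *
  obtain u0 : 0 ≤ X * s := by positivity
  obtain u1 : 10 * (X * s) ≤ c.C0 * s := by nlinarith only [X1, hs]
  obtain u2 : 157 * s ≤ c.C0 * s := by nlinarith only [X2, hs]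
  obtain e1 : exp (124 * s) * (exp s * exp ((j + 1) * (4 * W + 10 * X * s))) ≤
      exp ((K + 2) * (10 * W + c.C0 * s)) := by
    rw [← exp_add, ← exp_add]
    obtain this : (j + 1) * (4 * W + 10 * X * s) ≤ (K + 1) * (10 * W + c.C0 * s) :=
      mul_le_mul (by linarith only [jK']) (by linarith only [hW, u1]) (by linarith only [hW, u0]) (by linarith only [])
    exact exp_le_exp.2 (by linarith only [hs, hW, u2, this])
  obtain e2 : exp (124 * s) * (exp s * (exp W * exp (32 * s) * exp (j * (2 * W + 7 * X * s)))) ≤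
      exp ((K + 2) * (10 * W + c.C0 * s)) := by
    rw [← exp_add, ← exp_add, ← exp_add, ← exp_add]
    obtain this : j * (2 * W + 7 * X * s) ≤ (K + 1) * (10 * W + c.C0 * s) :=
      mul_le_mul (by linarith only [jK']) (by linarith only [hs, hW, u1, u2]) (by linarith only [hW, u0]) (by linarith only [])
    exact exp_le_exp.2 (by linarith only [hW, u2, this])
  generalize exp ((K + 2) * (10 * W + c.C0 * s)) = E at *
  have q2 := mul_le_mul_of_nonneg_left q (exp_pos s).le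
  have q3 := le_mul_of_one_le_right (abs_nonneg (σ'.pj M t j m / (σ'.orb M t).fr 1 m -
    σ.pj M t j m / (σ.orb M t).fr 1 m)) wl
  obtain p1 : 0 ≤ exp s * exp ((j + 1) * (4 * W + 10 * X * s)) := by positivity
  obtain p2 : 0 ≤ exp s * (exp W * exp (32 * s) * exp (j * (2 * W + 7 * X * s))) := by positivity
  have r1 := mul_le_mul_of_nonneg_left ((mul_le_mul_of_nonneg_right b p1).trans e1) h0
  have r2 := mul_le_mul_of_nonneg_left ((mul_le_mul_of_nonneg_right b p2).trans e2) h0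
  have r3 := mul_nonneg h0 p1
  have r4 := mul_nonneg h0 p2
  linarith only [q2, q3, r1, r2, r3]

/-- row ECLO -/
theorem eclo (K : ℕ) : Hier fun c => SHD_s K c → TUBE_s K c → R2_s K c → J1F_s K c → J1C_s K c →
    ECLO_s K c := by
  refine ((Hier.base.and (Hier.lam_ge (fun _ => 1) fun _ _ => rfl)).and (ECLO.gen K)).mono ?_
  rintro c ⟨⟨⟨-, -, -, -, hκ, -⟩, hlam⟩, h⟩ a1 a2 a3 a4 a5 hγ M σ t s m jc σ' ϑ X a' near hW hs hϑ j j1 jK
  obtain ⟨-, -, X2⟩ := ECLO.bud hκ hγ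
  have k1 := jc.oc.sk.1
  obtain ⟨n1, -⟩ := k1.F_mem m jc.oc.hn
  have s1 : 1 ≤ s.sl m := hlam.trans (k1.sl1.trans (k1.sl_mono 1 m le_rfl n1))
  obtain s2 : 157 * s.sl m ≤ X := le_trans (by nlinarith only [X2, s1]) hs
  obtain hK : (0 : ℝ) ≤ K * X := mul_nonneg K.cast_nonneg (by linarith only [s1, s2])
  refine (h a1 a2 a3 a4 a5 hγ M σ σ' t s m ϑ jc a' near ?_ m jc.oc.hn le_rfl j j1 jK).trans ?_ <;>
    refine (mul_le_mul_of_nonneg_right hϑ (exp_pos _).le).trans ?_ <;> rw [← exp_add] <;>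
    refine exp_le_exp.2 ?_
  · linarith only [hW, s1, s2, hK]
  · obtain this : (K + 2) * (10 * s.W m + c.C0 * s.sl m) ≤ (K + 2) * (11 * X) :=
      mul_le_mul_of_nonneg_left (by linarith only [hW, hs]) (by (clear * -; positivity))
    linarith only [s1, s2, hK, this]

end Pool.Agent.MP_9cbfe4_an

end

/-! ### Part ENUM -/

section

/-! Glue of section E, row ENUM: the numbers of one run. -/

namespace Pool.Agent.MP_9cbfe4_an

open Real

noncomputable section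

namespace ENUM

/-- constants with the given `κ` -/
def cz (κ : ℝ) : Cs := ⟨0, 0, κ, 0, 0, 0, 0, 0, 0, 0, 0, 0, 0⟩
/-- least relative threshold -/
def vm (K : ℕ) (c : Cs) : ℝ := (c.ek K).θ0 / 2 ^ (c.ek K).J0

variable {K : ℕ} {c : Cs}

theorem gm_ge (hκ : 0 < c.κ) (j : ℕ) : 2 ≤ c.ck ∧ (K : ℝ) + 1 ≤ c.gm (K + 1) j := by
  obtain k2 : 2 ≤ c.ck := by unfold Cs.ck; linarith only [hκ]
  obtain a : 1 ≤ c.Cg := by unfold Cs.Cg; nlinarith only [k2]
  exact ⟨k2, le_mul_of_one_le_right (by positivity) (one_le_pow₀ a)⟩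

theorem eg_ge (hκ : 0 < c.κ) : 10 ^ 6 * c.ck * c.gm (K + 1) (K + 2) ≤ c.eg K ∧
    10 ^ 6 * ((K : ℝ) + 1) ^ 3 ≤ c.eg K := by
  obtain ⟨k2, g1⟩ := gm_ge (K := K) hκ (K + 2)
  have K0 : (0 : ℝ) ≤ K := Nat.cast_nonneg _
  obtain K1 : (1 : ℝ) ≤ (K + 1) ^ 2 := one_le_pow₀ (by linarith only [])
  obtain g0 : 0 ≤ c.gm (K + 1) (K + 2) := by linarith only [g1]
  unfold Cs.eg
  constructor
  · obtain this : 0 ≤ c.ck * c.gm (K + 1) (K + 2) := by positivity
    nlinarith only [K1, this]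
  · obtain a : (K : ℝ) + 1 ≤ c.ck * c.gm (K + 1) (K + 2) := by nlinarith only [k2, g1]
    obtain this := mul_le_mul_of_nonneg_left a (show 0 ≤ 10 ^ 6 * ((K : ℝ) + 1) ^ 2 by positivity)
    linarith only [this]

theorem vm_pos (hK : 10 ≤ K) (hκ : 0 < c.κ) : 0 < vm K c := by
  obtain K1 : (10 : ℝ) ≤ K := by exact_mod_cast hK
  obtain g : 0 < c.eg K := lt_of_lt_of_le (by (clear * - hK; positivity)) (eg_ge hκ).2
  change 0 < 1 / (10 ^ 12 * (K : ℝ) ^ 2 * c.eg K) / _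
  positivity

theorem main (hκ : 0 < c.κ)
    (c1 : 10 ^ 40 * (K : ℝ) ^ 6 * c.eg K ^ 4 * 2 ^ (c.ek K).J0 ≤ c.C0)
    (c2 : 1000 * ((K : ℝ) + 1) * c.gm (K + 1) (K + 3) ≤ c.C0)
    (c3 : 10 ^ 12 * ((K : ℝ) + 1) ^ 2 * c.eg K ≤ c.C0) (c4 : c.C0 ≤ c.C1)
    (e0 : 0 < c.e3) (e1 : c.e3 ≤ 1) (e2 : c.e3 ≤ vm K c / (10 ^ 7 * c.C0))
    (a1 : c.a ≤ (vm K c / (100 * c.C0 * (Cw K + 1))) ^ 2)
    (b1 : 100 ≤ c.β) (b2 : 10 * c.C1 * (10 * c.C0 * (Cw K + 1)) / vm K c ≤ c.β)
    (l1 : c.C0 ^ 2 ≤ c.lam) (l2 : ((c.ek K).J0 : ℝ) ≤ c.lam) (a0 : 0 < c.a)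
    (l3 : 1 / sqrt c.a ≤ c.lam) : ENUM_s K c := by
  intro hF
  have hK := hF.1.1
  obtain K1 : (10 : ℝ) ≤ K := by exact_mod_cast hK
  obtain ⟨g1, g2⟩ := eg_ge (K := K) hκ
  have k2 := (gm_ge (K := K) hκ 0).1
  obtain K3 : ((K : ℝ) + 1) ^ 2 ≤ (K + 1) ^ 3 := pow_le_pow_right₀ (by linarith only [K1]) (by norm_num)
  obtain g10 : 10 ≤ c.eg K := by nlinarith only [K3, g2, K1]
  obtain C0 : 10 ^ 13 * ((K : ℝ) + 1) ^ 2 ≤ c.C0 := by nlinarith only [g10, c3, K1]
  obtain C1 : 1 ≤ c.C0 := by nlinarith only [C0, K1]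
  obtain lam1 : 1 ≤ c.lam := by nlinarith only [C1, l1]
  have v0 := vm_pos hK hκ
  obtain ok : (c.ek K).OK := by
    refine ⟨hK, hF.1.2, g10, show 0 < 1 / c.C0 by positivity, ?_, ?_⟩
    · change 1 / c.C0 * (10 ^ 40 * (K : ℝ) ^ 6 * c.eg K ^ 4 * 2 ^ (c.ek K).J0) ≤ 1
      rw [one_div, inv_mul_le_iff₀ (by linarith only [C1])]
      linarith only [c1]
    · change 1 / (1 / c.C0) ^ 2 ≤ 100 * c.ck * c.lam
      rw [one_div_pow, one_div_one_div]
      nlinarith only [l1, lam1, k2]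
  refine ⟨ok, fun ρ j hj hρ hb => ?_⟩
  have Λe : (c.ek K).Λ = 100 * c.ck * c.lam := rfl
  obtain Λ1 : 200 * c.lam ≤ (c.ek K).Λ := by rw [Λe]; nlinarith only [lam1, k2]
  obtain ρ0 : 0 ≤ ρ := by
    by_contra hn
    obtain this : 10 ^ 7 * (K : ℝ) * c.th ^ 2 * ρ ≤ 0 :=
      mul_nonpos_of_nonneg_of_nonpos (by (clear * - hK; positivity)) (not_le.1 hn).le
    linarith only [lam1, hρ, Λ1, this]
  obtain Λρ : 10 * (c.ek K).Λ ≤ ρ := by
    obtain a : 10 ^ 8 * (K : ℝ) * c.th ^ 2 ≤ 1 := by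
      unfold Cs.th
      rw [one_div_pow, mul_one_div, div_le_one (by positivity)]
      nlinarith only [C0, C1, K1]
    have := mul_le_mul_of_nonneg_right a ρ0
    linarith only [hρ, this]
  obtain Cw0 : 0 ≤ Cw K := by unfold Cw; positivity
  obtain A0 : 0 < 10 * c.C0 * (Cw K + 1) := by positivity
  obtain ςv : 4 * K * (vm K c * ρ) ≤ ((c.ek K).par ρ j).ς := by
    change _ ≤ 4 * K * ((c.ek K).θ0 / 2 ^ j * ρ)
    obtain t0 : 0 ≤ (c.ek K).θ0 := by
      change 0 ≤ 1 / (10 ^ 12 * (K : ℝ) ^ 2 * c.eg K)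
      positivity
    exact mul_le_mul_of_nonneg_left (mul_le_mul_of_nonneg_right (div_le_div_of_nonneg_left t0
      (by positivity) (pow_le_pow_right₀ (by norm_num) hj.le)) ρ0) (by positivity)
  obtain vρ : 0 ≤ vm K c * ρ := by positivity
  obtain lv : 10 * c.C1 * c.lam ≤ vm K c * ρ := by
    obtain a := mul_le_mul_of_nonneg_right ((div_le_iff₀ v0).1 b2) (show 0 ≤ c.lam by linarith only [lam1])
    have b := mul_le_mul_of_nonneg_right hb v0.le
    unfold Cs.bl at b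
    refine le_of_mul_le_mul_right ?_ A0
    linarith only [a, b]
  obtain bl : 100 * c.lam ≤ c.bl := mul_le_mul_of_nonneg_right b1 (by linarith only [lam1])
  have y1 : c.bl / 3 ≤ c.lev ρ := le_max_left _ _
  have y2 : c.C0 * ρ / 3 ≤ c.lev ρ := le_max_right _ _
  obtain y3 : c.lev ρ ≤ 10 * c.C0 * (Cw K + 1) * ρ / 3 := by
    refine max_le (by linarith only [hb]) ?_
    obtain this : 0 ≤ c.C0 * ρ := by positivity
    nlinarith only [this, Cw0]
  have s0 := sqrt_pos.2 a0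
  obtain CL : c.C0 * c.lam ≤ c.C1 * c.lam := mul_le_mul_of_nonneg_right c4 (by linarith only [lam1])
  obtain CL0 : 0 ≤ c.C0 * c.lam := by positivity
  have Kv : 10 * (vm K c * ρ) ≤ K * (vm K c * ρ) := mul_le_mul_of_nonneg_right K1 vρ
  refine ⟨⟨E.par _ ok ρ hρ j hj, rfl, ⟨le_rfl, c2⟩, k2, g1, ?_, c3, l1, ⟨c4, by linarith only [ςv, vρ, lv, Kv]⟩,
    ⟨by linarith only [bl], by linarith only [lam1, bl, y1]⟩, ?_, ⟨?_, ?_⟩, ?_⟩, Λρ, ?_⟩
  · change _ ≤ c.eg K
    unfold gm5 _root_.Pool.Agent.MP_9cbfe4_an.g2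
    nlinarith only [K3, g2, K1]
  · change c.C0 * (c.e3 ^ 3 * (10 ^ 7 * K * ρ) + 10 * c.lam) ≤ _
    obtain a : c.e3 ^ 3 ≤ c.e3 := pow_le_of_le_one e0.le e1 (by norm_num)
    have b := a.trans e2
    rw [le_div_iff₀ (by positivity)] at b
    obtain this := mul_le_mul_of_nonneg_right b (show 0 ≤ K * ρ by positivity)
    linarith only [ςv, vρ, lv, CL, Kv, this]
  · have a := (div_le_iff₀ s0).1 l3
    obtain this := mul_le_mul_of_nonneg_left (show 10 * c.lam ≤ c.lev ρ by linarith only [lam1, bl, y1]) s0.le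
    linarith only [a, this]
  · obtain a : sqrt c.a ≤ vm K c / (100 * c.C0 * (Cw K + 1)) := sqrt_le_iff.2 ⟨by positivity, a1⟩
    rw [le_div_iff₀ (by positivity)] at a
    have b := mul_le_mul_of_nonneg_left y3 s0.le
    have := mul_le_mul_of_nonneg_right a ρ0
    linarith only [ςv, vρ, Kv, b, this]
  · change 1000 * ((K : ℝ) + 2) * (10 ^ 7 * K * ρ) ≤ _
    obtain a : 3 * 10 ^ 10 * (((K : ℝ) + 2) * K) ≤ c.C0 := by nlinarith only [C0, K1]
    have := mul_le_mul_of_nonneg_right a ρ0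
    linarith only [y2, this]
  · linarith only [l2, lam1, Λ1, Λρ, add_one_le_exp (ρ / 4)]

end ENUM

open ENUM in
theorem enum (K : ℕ) : Hier (ENUM_s K) := by
  by_cases hK : 10 ≤ K
  swap
  · exact .of_all fun _ h => absurd h.1.1 hK
  have c0 := Hier.C0_ge fun _ _ _ _ => 1
  have c1 := Hier.C0_ge fun _ _ κ _ =>
    10 ^ 40 * (K : ℝ) ^ 6 * (cz κ).eg K ^ 4 * 2 ^ ((cz κ).ek K).J0
  have c2 := Hier.C0_ge fun _ _ κ _ => 1000 * ((K : ℝ) + 1) * (cz κ).gm (K + 1) (K + 3)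
  have c3 := Hier.C0_ge fun _ _ κ _ => 10 ^ 12 * ((K : ℝ) + 1) ^ 2 * (cz κ).eg K
  have c4 := Hier.C1_ge fun _ _ _ _ C0 => C0
  obtain Cw0 : 0 ≤ Cw K := by unfold Cw; positivity
  have b := (Hier.base.and c0).mono (Q := fun c => 0 < vm K c ∧ 0 < c.C0) fun c h =>
    ⟨vm_pos hK h.1.2.2.2.2.1, lt_of_lt_of_le one_pos h.2⟩
  have e1 := Hier.e3_le (fun _ => 1) (fun _ _ _ _ _ _ _ _ => rfl) (.of_all fun _ => one_pos)
  obtain e2 := Hier.e3_le (fun c => vm K c / (10 ^ 7 * c.C0)) (fun _ _ _ _ _ _ _ _ => rfl)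
    (b.mono fun c ⟨_, _⟩ => by positivity)
  obtain a1 := Hier.a_le (fun c => (vm K c / (100 * c.C0 * (Cw K + 1))) ^ 2) (fun _ _ _ _ _ _ => rfl)
    (b.mono fun c ⟨_, _⟩ => by positivity)
  have b1 := Hier.β_ge (fun _ => 100) fun _ _ _ => rfl
  have b2 := Hier.β_ge (fun c => 10 * c.C1 * (10 * c.C0 * (Cw K + 1)) / vm K c) fun _ _ _ => rfl
  have l1 := Hier.lam_ge (fun c => c.C0 ^ 2) fun _ _ => rfl
  have l2 := Hier.lam_ge (fun c => ((c.ek K).J0 : ℝ)) fun _ _ => rfl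
  have l3 := Hier.lam_ge (fun c => 1 / sqrt c.a) fun _ _ => rfl
  refine (Hier.base.and <| c1.and <| c2.and <| c3.and <| c4.and <| e1.and <| e2.and <| a1.and <|
    b1.and <| b2.and <| l1.and <| l2.and l3).mono ?_
  rintro c ⟨h, c1, c2, c3, c4, ⟨e0, e1⟩, ⟨-, e2⟩, ⟨a0, a1⟩, b1, b2, l1, l2, l3⟩
  exact main h.2.2.2.2.1 c1 c2 c3 c4 e0 e1 e2 a1 b1 b2 l1 l2 a0 l3

end
end Pool.Agent.MP_9cbfe4_an

end

/-! ### Part EPC -/

section

/-! Row EPC: everything the rows of section E need to know about one pair. -/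

namespace Pool.Agent.MP_9cbfe4_an

open Finset Real

namespace EPC
variable {K : ℕ} {c : Cs} {k : E.Par} {y : ℝ}

theorem num (h : PN K c k y) : 0 ≤ k.Wc ∧ k.ς ≤ k.Wc ∧ 2000 * k.Wc ≤ y ∧ 300 ≤ c.C0 ∧ 1 ≤ c.lam := by
  obtain K0 : (10 : ℝ) ≤ k.K := by exact_mod_cast h.ok.K10
  have K1 : (0 : ℝ) ≤ K := Nat.cast_nonneg K
  have g := h.ok.g10
  obtain u : 0 ≤ k.u := le_trans (by (clear * - K0; positivity)) h.ok.big
  obtain s0 : 0 ≤ k.ς := by unfold E.Par.ς; (clear * - K0 u; positivity)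
  obtain kg : 1 ≤ 10 ^ 11 * (k.K : ℝ) * k.g := by nlinarith only [K0, g]
  obtain s1 : k.ς ≤ k.ρ := le_trans (by nlinarith only [s0, kg]) h.ok.small
  obtain s2 : k.ρ ≤ k.Wc := by unfold E.Par.Wc; nlinarith only [s0, s1, K0]
  obtain c0 : 300 ≤ c.C0 := le_trans (by nlinarith [sq_nonneg (K : ℝ)]) h.C0g
  exact ⟨by linarith only [s0, s1, s2], by linarith only [s1, s2], le_trans (by nlinarith only [s0, s1, s2]) h.tiny, c0, by nlinarith only [c0, h.lam]⟩

theorem W_mono (M : Mdl) (d : Dat) {i j : ℤ} (h : i ≤ j) : (d.sk c M).W i ≤ (d.sk c M).W j :=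
  log_le_log (zero_lt_one.trans_le ((d.S M).one_le_AA c _ _ _))
    ((d.S M).AA_mono c _ _ (by omega))

theorem sl_le (e3 : 0 ≤ c.e3) (M : Mdl) (d : Dat) (i : ℤ) :
    (d.sk c M).sl i ≤ c.ths * (d.sk c M).W i + 10 * c.lam :=
  add_le_add (mul_le_mul_of_nonneg_left (min_le_left _ _) (by unfold Cs.ths; positivity)) le_rfl

/-- the radius of a thin tube is small -/
theorem mu_le (hT : TA_s c) {s : Sk} (o : s.OK c) (l1 : 1 ≤ c.lam) {m : ℤ} (hm : m ∈ s.F)
    {α z : ℝ} (a0 : 0 ≤ α) (z0 : 0 ≤ z) (h : s.sz m α 0 z ≤ exp (-(300 / 3) * s.sl m)) {i : ℤ}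
    (i0 : 0 ≤ i) (i1 : i ≤ m) : s.mu m α 0 z 0 i ≤ 1 / 1000 := by
  obtain ⟨-, -, -, -, -, -, -, -, -, t, -⟩ := hT s o
  have t := (t m hm i i0 i1).1
  have s0 := o.1.sl_mono 1 m le_rfl (o.1.F_mem m hm).1
  have s1 := o.1.sl1
  obtain x0 : 0 ≤ s.chi 0 i := sum_nonneg fun l _ => by linarith only [(o.1.ch_mem l).1]
  obtain x1 : exp (-s.chi 0 i / 4) ≤ exp (s.sl m) := exp_le_exp.2 (by linarith only [l1, s0, s1, x0])
  obtain x2 : s.w4 i ≤ exp (s.W m) * exp (s.sl m) := by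
    rw [← exp_add]; exact t.trans (exp_le_exp.2 (by linarith only [s0]))
  have x3 := mul_le_mul_of_nonneg_right h (exp_pos (s.sl m)).le
  obtain x4 : exp (-(300 / 3) * s.sl m) * exp (s.sl m) ≤ exp (-99) := by
    rw [← exp_add]; exact exp_le_exp.2 (by linarith only [l1, s0, s1])
  obtain x5 : exp (-99) ≤ 1 / 1000 := by
    have := quadratic_le_exp_of_nonneg (show (0 : ℝ) ≤ 99 by norm_num)
    rw [exp_neg, ← one_div]
    exact one_div_le_one_div_of_le (by norm_num) (by linarith only [this])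
  have x6 := mul_le_mul_of_nonneg_right x2 a0
  have x7 := mul_le_mul_of_nonneg_left x1 z0
  unfold Sk.sz at x3
  unfold Sk.mu
  linarith only [x3, x4, x5, x6, x7]

theorem epc_of (e3 : 0 ≤ c.e3) (hX : XC2_s K c) (h1 : SK1_s K c) (h2 : SK2_s K c) (hD : EDI_s c)
    (hN : ENR_s K c) (hT : TA_s c) : EPC_s K c := by
  intro f1 M hM d P k y σ N y1 hσ n hn ad f S lab en ok ju
  have o : (d.sk c M).OK c := ⟨h1 f1 M hM.ok d P, h2 f1 M hM.ok d P⟩
  have D := hD _ n f _ S o hn en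
  obtain ⟨w0, w1, w2, c0, l1⟩ := num N
  obtain th0 : 0 ≤ c.ths := by unfold Cs.ths; (clear * - e3; positivity)
  have hW : ∀ l, (mkPr M σ d.t lab f S).InR k l → (d.sk c M).W (f l) ≤ k.Wc := fun l h =>
    (en.W l h.1).symm.trans_le h.2
  obtain sl : ∀ l, (mkPr M σ d.t lab f S).InR k l → ∀ i ≤ f l, c.C0 * (d.sk c M).sl i ≤ k.ς := by
    intro l h i hi
    have a1 := mul_le_mul_of_nonneg_left ((W_mono M d hi).trans (hW l h)) th0
    exact (mul_le_mul_of_nonneg_left (by linarith only [a1, sl_le e3 M d i]) (by linarith only [c0])).trans N.slς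
  have X := fun l (h : (mkPr M σ d.t lab f S).InR k l) => hX f1 M hM d P y σ N.bl.2 y1 hσ (f l)
    (D.mem l h.1) 300 le_rfl c0 (by
      have m1 := (o.1.F_mem _ (D.mem l h.1)).1
      obtain m2 : f l ≤ n := by
        rcases (show l ≤ S.N from h.1).eq_or_lt with e | e
        · rw [e, en.fN]
        · exact (en.lt l e).le
      have a1 := o.1.sl_mono _ _ m1 m2
      have a2 := o.1.sl1.trans (o.1.sl_mono _ _ le_rfl m1)
      exact (mul_le_mul_of_nonneg_left (exp_le_exp.2 (W_mono M d m2)) (sq_nonneg _)).trans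
        (ad.trans (exp_le_exp.2 (by nlinarith only [c0, a1, l1, a2])))) (by
      have a1 := sl l h _ le_rfl
      have a2 := o.1.sl1.trans (o.1.sl_mono _ _ le_rfl (o.1.F_mem _ (D.mem l h.1)).1)
      nlinarith only [w1, w2, c0, l1, a1, a2, hW l h])
  obtain i0 : (mkPr M σ d.t lab f S).InR k 0 := ⟨Nat.zero_le _, by
    obtain this : S.W 0 = 0 := by rw [en.W 0 (Nat.zero_le _), en.f0, o.1.W1]
    exact this.trans_le w0⟩
  refine ⟨rfl, o, ⟨n, hn, en⟩, D, ok, ju, fun l h => (X l h).1, sl, (X 0 i0).2.2.1,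
    fun l h => (X l h).2.2.2.1, fun l h => (X l h).2.2.2.2, fun l h i a b => ?_, fun l h r0 => ?_⟩
  · obtain ⟨-, ⟨α, z, T, sz⟩, -⟩ := X l h
    exact (T.2.2.2 i a b).trans (mu_le hT o l1 (D.mem l h.1) T.1 T.2.1 sz a b)
  · have lN : l < S.N := h.1
    have m := D.maj l lN r0
    have a := hN f1 M hM d P σ y hσ (f l) m (by rw [← en.nx l lN]; linarith only [w0, w2, hW _ h])
    rw [D.eta l lN m, log_exp, sub_neg_eq_add] at a
    exact a

end EPC

theorem epc (K : ℕ) : Hier fun c => XC2_s K c → SK1_s K c → SK2_s K c → EDI_s c → ENR_s K c →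
    TA_s c → EPC_s K c :=
  (Hier.e3_le (fun _ => 1) (fun _ _ _ _ _ _ _ _ => rfl) (Hier.of_all fun _ => one_pos)).mono
    fun _ h => EPC.epc_of h.1.le

end Pool.Agent.MP_9cbfe4_an

end

/-! ### Part VJ6 -/

section

/-! Row VJ6: the relation between the seed orbit and a nearby orbit. -/

namespace Pool.Agent.MP_9cbfe4_an

open Finset Filter Topology Real

namespace VJ6

structure Num (c : Cs) : Prop where
  big : SOK.Big c
  κ : 0 < c.κ
  CG : 1 ≤ c.CG
  C0 : 10 ^ 6 ≤ c.C0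
  β : 1 ≤ c.β
  lam : 10 ^ 12 * c.CG ≤ c.lam
  ex : 10 ^ 12 * c.CG * c.lam ^ 1 ≤ exp (1 / 2 * c.lam)

theorem num : Hier Num :=
  (((((SOK.big.and Hier.base).and (Hier.C0_ge fun _ _ _ _ => 10 ^ 6)).and
    (Hier.β_ge (fun _ => 1) fun _ _ _ => rfl)).and
    (Hier.lam_ge (fun c => 10 ^ 12 * c.CG) fun _ _ => rfl)).and
    (Hier.pow_le_exp (fun c => 10 ^ 12 * c.CG) (fun _ => 1 / 2) 1 (fun _ _ => rfl) (fun _ _ => rfl)
      (Hier.of_all fun _ => by norm_num))).mono fun _ h =>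
    ⟨h.1.1.1.1.1, h.1.1.1.1.2.2.2.2.2.1, h.1.1.1.1.2.2.2.2.2.2, h.1.1.1.2, h.1.1.2, h.1.2, h.2⟩

theorem NN_at {c : Cs} {k : Sk} (h : k.OK1 c) {n : ℤ} (hn : n ∈ k.F) (e : ℕ) (g : ℝ) :
    k.NN n e g n = exp (g * k.σ n) := by
  obtain this : (k.D.filter fun x => x < n ∧ n < k.nx x) = ∅ := by
    refine Finset.filter_eq_empty_iff.2 fun x hx h' => ?_
    have := (h.nx_mem x (h.D_mem x hx).2).2.2 n hn h'.1
    omega
  simp [Sk.NN, this]

theorem bud {K : ℕ} {c : Cs} (h : Num c) (hb : c.Bud K (K + 1)) :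
    1 ≤ c.gm (K + 1) 1 ∧ 2 ≤ c.ck ∧ 1000 * (c.ck * c.gm (K + 1) 1) ≤ c.gm (K + 1) (K + 2) ∧
    1000 * c.gm (K + 1) (K + 2) ≤ c.C0 := by
  obtain k2 : 2 ≤ c.ck := by unfold Cs.ck; linarith only [h.κ]
  obtain g1 : 1000 * c.ck ≤ c.Cg := by unfold Cs.Cg; nlinarith only [k2]
  obtain K1 : (1 : ℝ) ≤ K + 1 := by linarith only [Nat.cast_nonneg (α := ℝ) K]
  obtain g0 : 1 ≤ c.gm (K + 1) 1 := by unfold Cs.gm; nlinarith only [k2, g1]
  obtain mono : ∀ i j : ℕ, i ≤ j → c.gm (K + 1) i ≤ c.gm (K + 1) j := fun i j hij =>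
    mul_le_mul_of_nonneg_left (pow_le_pow_right₀ (by linarith only [k2, g1]) hij) (by linarith only [])
  obtain g2 : c.gm (K + 1) 2 = c.Cg * c.gm (K + 1) 1 := by unfold Cs.gm; ring
  have g3 := hb.2
  obtain g4 := mono 2 (K + 2) (by omega)
  obtain g5 := mono (K + 2) (K + 3) (by omega)
  obtain g6 := mono 1 (K + 3) (by omega)
  refine ⟨g0, k2, by nlinarith only [g1, g2, g4, g0], by nlinarith only [g3, g5, g0, g6]⟩

/-- the curvature constant -/
theorem kap {c : Cs} (h : Num c) (T : Sq) (n : ℤ) (hc : 0 ≤ T.ch1 c n ∧ T.ch1 c n ≤ c.bl) {κ : ℝ}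
    (hκ : (5 / 100 ≤ dP (T.X n) ∧ κ = 1 / (100 * c.lam)) ∨ κ = c.lam / 20) :
    10 ^ 10 * c.CG * exp (-(9 / 10) * T.ch1 c n) ≤ κ ∧ 2 ≤ κ * c.L ∧
    256 * T.bb c (2 / 100) n ≤ κ * c.L * exp (-T.ch1 c n / 2) ^ 2 := by
  have l0 := h.big.lam
  have hL := h.big.L
  have CG := h.CG
  have hl := h.lam
  have ex := h.ex
  obtain eL : exp (1 / 2 * c.lam) ≤ c.L := by
    calc _ ≤ exp c.lam := exp_le_exp.2 (by linarith only [CG, hl])
      _ = _ := exp_log (by linarith only [hL])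
  obtain e2 : exp (-T.ch1 c n / 2) ^ 2 = exp (-T.ch1 c n) := by
    rw [← exp_nat_mul]; congr 1; push_cast; ring
  rw [e2]
  rcases hκ with ⟨hd, rfl⟩ | rfl
  · obtain e : T.ch1 c n = c.bl := by
      unfold Sq.ch1; rw [T.kk_eq_zero.2 (.inl (by linarith only [hd]))]; ring
    obtain eb : T.bb c (2 / 100) n = exp (-c.bl) := if_neg fun hh => by linarith only [hd, hh.1]
    obtain hbl : c.lam ≤ c.bl := by unfold Cs.bl; nlinarith only [l0, h.β]
    obtain k1 : 256 ≤ 1 / (100 * c.lam) * c.L := by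
      rw [one_div, ← div_eq_inv_mul, le_div_iff₀ (by linarith only [CG, hl])]; nlinarith only [CG, hl, ex, eL, l0]
    rw [e, eb]
    refine ⟨?_, by linarith only [k1], mul_le_mul_of_nonneg_right k1 (exp_pos _).le⟩
    rw [le_div_iff₀ (by linarith only [CG, hl])]
    obtain e3 : exp (1 / 2 * c.lam) * exp (-(9 / 10) * c.bl) ≤ 1 := by
      rw [← exp_add]; exact exp_le_one_iff.2 (by linarith only [CG, hl, hbl])
    linarith only [e3, mul_le_mul_of_nonneg_right ex (exp_pos (-(9 / 10) * c.bl)).le]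
  · obtain e3 : exp (-(9 / 10) * T.ch1 c n) ≤ 1 := exp_le_one_iff.2 (by linarith only [hc.1])
    refine ⟨by nlinarith only [CG, hl, e3], by nlinarith only [hL, CG, hl, l0], ?_⟩
    obtain b : T.bb c (2 / 100) n ≤ 2 * c.L * exp (-T.ch1 c n) := by
      unfold Sq.bb; split_ifs with hb
      · have k0 := h.big.k_lo
        obtain this : T.ch1 c n = c.chK := by unfold Sq.ch1; rw [T.kk_eq_one.2 hb]; ring
        rw [this, Cs.chK, exp_neg, exp_log (by positivity), one_div, inv_inv]; nlinarith only [CG, hl, ex, eL, k0, l0, hL]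
      · obtain h1 : exp (-c.bl) ≤ exp (-T.ch1 c n) := exp_le_exp.2 (by linarith only [hc.2])
        nlinarith only [h1, hL, e2, exp_pos (-T.ch1 c n)]
    obtain this : 512 ≤ c.lam / 20 := by linarith only [CG, hl]
    linarith only [b, hL, mul_le_mul_of_nonneg_right this (by positivity : 0 ≤ c.L * exp (-T.ch1 c n))]

/-- general form: slack only at `n`, separate scale `D2` for the resolution -/
theorem gen {K : ℕ} {c : Cs} (h : Num c) (sok : SOK_s c) (ta : TA_s c) (tb : TB_s c)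
    (shd : SHD_s K c) (j6 : J6_s K c) {M : Mdl} {s : Seed} {k : Sk} {n : ℤ}
    {t σ D D2 ν δ τ v1 c1 κ : ℝ} (jc : JC K c M s t 2 k n) (n1 : 1 < n) (hb : c.Bud K (K + 1))
    (hsl : 1000 * c.gm (K + 1) (K + 2) * k.sl n ≤ σ) (D0 : 0 < D) (DD : D ≤ D2) (D1 : D2 ≤ 1)
    (ν0 : 0 ≤ ν) (Drh : D * k.rh n ≤ exp (-σ)) (hν : ν * exp (k.W n) ≤ exp (-σ))
    (J : JC K c M s τ 4 k n)
    (tu : JTube k n (512 * ν) D 0 (c.gm (K + 1) 1) t τ (s.orb M t) (s.orb M τ))
    (hchi : exp (-k.chi 0 n / 5) ≤ D2) (C : VCl c s t k n σ D δ τ v1 c1)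
    (bS : (s.orb M t).bb c (15 / 1000) n ≤ k.B n)
    (k1 : 10 ^ 10 * c.CG * exp (-(9 / 10) * k.ch n) ≤ κ) (k2 : 2 ≤ κ * c.L)
    (k3 : 256 * k.B n ≤ κ * c.L * exp (-k.ch n / 2) ^ 2) :
    (∀ l, 0 ≤ l → l ≤ n → |(M.orb τ 1 (v1, c1)).X l - (s.orb M t).X l| ≤ exp (-σ / 2)) ∧
    (s.orb M t).Rel c (M.orb τ 1 (v1, c1)) ((s.orb M t).fr 1) ((M.orb τ 1 (v1, c1)).fr 1) n n
      (15 / 1000) κ (exp σ * sqrt D2) (1 / 2000) := by
  have H := jc.oc
  have hk := H.sk
  obtain ⟨-, -, w4F, -, -, -, -, -, -, w4b, -, -, -, -, -, emb, rhb, NNb⟩ := ta k hk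
  obtain ⟨nN1, nN⟩ := hk.1.F_mem n H.hn
  have C0 := h.C0
  have l0 := h.big.lam
  have hL := h.big.L
  obtain ⟨γ0, ck2, γ1, γ2⟩ := bud h hb
  set γ := c.gm (K + 1) 1 with hγ
  set Γ := c.gm (K + 1) (K + 2) with hΓ
  obtain γ3 : 2 * γ ≤ c.ck * γ := by nlinarith only [γ0, ck2]
  obtain γ4 : c.ck ≤ c.ck * γ := by nlinarith only [γ0, ck2]
  have s1n := hk.1.sl_mono 1 n le_rfl nN1
  obtain sl0 : 10 ≤ k.sl n := by linarith only [l0, s1n, hk.1.sl1]
  obtain slb : ∀ g, g ≤ Γ → g * k.sl n ≤ σ / 1000 := fun g hg => by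
    nlinarith only [mul_le_mul_of_nonneg_right hg (by linarith only [sl0] : 0 ≤ k.sl n), hsl]
  obtain σb : 10000 ≤ σ := by linarith only [sl0, γ0, γ1, γ3, slb 1000 (by linarith only [γ0, γ1, γ3])]
  obtain σn : ∀ g, 0 ≤ g → g ≤ γ → g * k.σ n ≤ σ / 1000 := fun g g0 hg => by
    have a := mul_le_mul_of_nonneg_left (hk.1.jump n H.hn) g0
    obtain b := slb (g * c.ck) (by nlinarith only [hg, ck2, γ1, γ3, γ0])
    linarith only [a, b]
  obtain W0 : 1 ≤ exp (k.W n) := one_le_exp (by linarith only [hk.1.W1, hk.1.W_mono 1 n le_rfl nN1])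
  have δ0 : 0 ≤ δ := (abs_nonneg _).trans C.hv
  obtain δ1 : δ ≤ exp (-σ) := le_trans (by nlinarith only [W0, δ0]) C.hδ
  have rh1 := (rhb n H.hn).1
  have p0 := exp_pos (-σ / 4)
  obtain p1 : exp (-σ / 4) ≤ 1 / 2500 := by
    have := add_one_le_exp (σ / 4)
    rw [neg_div, exp_neg, inv_le_comm₀ (exp_pos _) (by norm_num)]; linarith only [σb, this]
  obtain p2 : exp (-σ / 2) = exp (-σ / 4) * exp (-σ / 4) := by rw [← exp_add]; congr 1; ring
  obtain p3 : exp (-σ) * exp (σ / 100) ≤ exp (-σ / 4) * exp (-σ / 2) := by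
    rw [← exp_add, ← exp_add]; exact exp_le_exp.2 (by linarith only [σb, p0, p1])
  obtain p4 : 1 ≤ exp (σ / 100) := one_le_exp (by linarith only [σb, p0, p1])
  have p5 := exp_pos (-σ)
  have p6 := exp_pos (-σ / 2)
  obtain p7 : exp (-σ / 2) ≤ 1 / 2000 := by nlinarith only [DD, D1, p1, p2, D0, p0]
  have A := J.at'
  set S := s.orb M t with hS
  set O := M.orb τ 1 (v1, c1) with hO
  obtain O0 : O.X 0 = c1 := by simp [hO, Mdl.orb, Mdl.pos]
  obtain O1 : O.X 1 = v1 := by simp [hO, Mdl.orb, Mdl.pos]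
  obtain s0 : (s.orb M τ).X 0 = s.c τ := by simp [Seed.orb, Mdl.orb, Mdl.pos]
  obtain s1 : (s.orb M τ).X 1 = s.v τ := by simp [Seed.orb, Mdl.orb, Mdl.pos]
  obtain o2 : O2 c M τ O := by
    refine ⟨A.t0, A.t1, (sok M H.ok.ok τ ⟨A.t0.le, A.t1.le⟩).1 1 (v1, c1)
      (C.bx.1.trans (by linarith only [hL, p0, p1])) (C.bx.2.trans (by linarith only [hL, p0, p1])) fun a _ => ?_,
      by rw [O0, O1]; exact ⟨C.bx.2, C.bx.1⟩⟩
    have x1 := (abs_le.1 ((dP_lip v1 (s.v τ)).trans C.hv)).1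
    have x2 := A.far
    exfalso
    simp only at a
    linarith only [x1, x2, a, δ1, p3, p7, p6, mul_le_mul_of_nonneg_right p1 p6.le,
      mul_le_mul_of_nonneg_left p4 p5.le]
  obtain sh := ((shd M τ 4 _ k n J.oc).2 O o2 δ (by rw [O0, s0]; exact C.hc) (by rw [O1, s1]; exact C.hv)
    (C.hδ.trans (exp_le_exp.2 (by linarith only [σb, p0, p1, γ0, γ1, γ3, slb 20 (by linarith only [γ0, γ1, γ3, p0, p1])])))).1
  obtain tube : JTube k n (512 * ν + 8 * δ) D δ γ t τ S O := by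
    refine ⟨by (clear * - ν0 δ0; positivity), δ0, C.ht, fun l h0 h1 => ?_⟩
    have a := tu.2.2.2 l h0 h1
    have b := sh.2.2.2 l h0 h1
    have := abs_sub_le (O.X l) ((s.orb M τ).X l) (S.X l)
    unfold Sk.mu at *
    linarith only [a, b, this]
  obtain αb : (512 * ν + 8 * δ) * exp (k.W n) ≤ 520 * exp (-σ) := by linarith only [hν, C.hδ]
  obtain NNl : ∀ l, 0 ≤ l → l ≤ n → k.NN n 1 γ l ≤ exp (σ / 100) * k.rh n := fun l h0 h1 => by
    rcases h1.eq_or_lt with rfl | h1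
    · rw [NN_at hk.1 H.hn]
      obtain this : exp (γ * k.σ l) ≤ exp (σ / 100) :=
        exp_le_exp.2 (by linarith only [σb, p0, p1, γ0, σn γ (by linarith only [γ0, p0, p1]) le_rfl])
      nlinarith only [rh1, this, p0, p1, p4]
    · refine ((NNb n 1 γ l (by linarith only [γ0, p0, p1]) h0 (by omega)).2.2.2 H.hn h1).2.1.trans ?_
      obtain ⟨e0, e1, e2, -⟩ := emb n l
      rw [div_eq_mul_one_div]
      refine mul_le_mul (exp_le_exp.2 (by linarith only [σb, p0, p1, γ0, γ1, γ3, slb (γ + 2) (by linarith only [γ0, γ1, γ3, p0, p1])])) (le_trans ?_ e2)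
        (by positivity) (by positivity)
      exact one_div_le_one_div_of_le (by positivity) (pow_le_pow_of_le_one e0.le e1 (by norm_num))
  obtain chi0 : ∀ i j, 0 ≤ k.chi i j := fun i j =>
    sum_nonneg fun l _ => by linarith only [p0, p1, (hk.1.ch_mem l).1]
  obtain sup : ∀ l, 0 ≤ l → l ≤ n → |O.X l - S.X l| ≤ exp (-σ / 2) := fun l h0 h1 => by
    refine (tube.2.2.2 l h0 h1).trans ?_
    obtain a1 : k.w4 l ≤ exp (k.W n) * exp (σ / 100) := by
      refine (w4b n H.hn l h0 h1).1.trans ?_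
      rw [← exp_add]
      exact exp_le_exp.2 (by linarith only [s1n, σb, p0, p1, γ0, γ1, γ3, slb 1 (by linarith only [γ0, γ1, γ3, p0, p1])])
    have a2 := mul_le_mul_of_nonneg_right a1 tube.1
    have a3 := mul_le_mul_of_nonneg_right αb (exp_pos (σ / 100)).le
    have a4 := mul_le_mul_of_nonneg_left (NNl l h0 h1) D0.le
    have a5 := mul_le_mul_of_nonneg_right Drh (exp_pos (σ / 100)).le
    obtain a6 : δ * exp (-k.chi 0 l / 4) ≤ exp (-σ) * exp (σ / 100) :=
      mul_le_mul δ1 ((exp_le_one_iff.2 (by linarith only [chi0 0 l])).trans p4) (exp_pos _).le p5.le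
    have a7 := mul_le_mul_of_nonneg_right p1 p6.le
    unfold Sk.mu
    linarith only [p3, p6, a2, a3, a4, a5, a6, a7]
  obtain szb : k.sz n (512 * ν + 8 * δ) D δ ≤ exp (-(c.ck * γ + 100) * k.sl n) := by
    obtain a1 : exp (-σ / 2) ≤ exp (-(c.ck * γ + 100) * k.sl n) :=
      exp_le_exp.2 (by linarith only [σb, p0, p1, γ0, γ1, γ3, slb (c.ck * γ + 100) (by linarith only [γ0, γ1, γ3, p0, p1])])
    have a7 := mul_le_mul_of_nonneg_right p1 p6.le
    have a8 := mul_le_mul_of_nonneg_left p4 p5.le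
    unfold Sk.sz
    linarith only [Drh, δ1, p3, p5, αb, a1, a7, a8]
  obtain ⟨jA, jB, jC⟩ := j6 M t 2 S k n H (by norm_num) n1 τ O o2 _ D δ γ (by linarith only [γ0, p0, p1]) (by linarith only [γ0, γ2, γ1, γ3, p0, p1])
    tube szb
  refine ⟨sup, ?_⟩
  have chn := hk.1.ch_mem n
  set u := |O.X n - S.X n| with hu
  have u0 : 0 ≤ u := abs_nonneg _
  have D20 : 0 ≤ D2 := D0.le.trans DD
  have sq0 := sqrt_nonneg D2
  obtain sq1 : D2 ≤ sqrt D2 := by rw [le_sqrt D20 D20]; nlinarith only [D20, D1]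
  obtain eσ : 1 ≤ exp σ := one_le_exp (by linarith only [σb, p0, p1])
  obtain add : ∀ y, y ≤ σ → |τ - t| * exp y + exp (-k.chi 0 n / 5) ≤ 2 * (exp σ * D2) := fun y hy => by
    have a1 : |τ - t| * exp y ≤ D2 * exp σ :=
      mul_le_mul (C.ht.trans DD) (exp_le_exp.2 hy) (exp_pos _).le D20
    nlinarith only [hchi, a1, eσ, D20]
  obtain ad := add (30 * k.sl n) (by linarith only [σb, p0, p1, γ0, γ1, γ3, slb 30 (by linarith only [γ0, γ1, γ3, p0, p1])])
  have l1 : exp σ * D2 ≤ exp σ * sqrt D2 := mul_le_mul_of_nonneg_left sq1 (exp_pos _).le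
  obtain l2 : exp σ * D2 ≤ (exp σ * sqrt D2) ^ 2 := by
    obtain this : (exp σ * sqrt D2) ^ 2 = exp σ * (exp σ * D2) := by rw [mul_pow, sq_sqrt D20]; ring
    rw [this]; exact le_mul_of_one_le_left (by positivity) eσ
  set ℓ := exp σ * sqrt D2 with hℓ
  obtain ℓ0 : 0 ≤ ℓ := by (clear * -; positivity)
  obtain kL : 10 ^ 10 * c.CG * c.L * exp (-(9 / 10) * k.ch n) ≤ κ * c.L := by
    obtain this := mul_le_mul_of_nonneg_right k1 (by linarith only [hL, p0, p1] : 0 ≤ c.L); linarith only [this]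
  refine ⟨⟨(sup n (by omega) le_rfl).trans p7, (sup (n - 1) (by omega) (by omega)).trans p7⟩, ?_, ?_, ?_⟩
  · obtain a := jA (n - 1) (by omega) (by omega)
    obtain ⟨b1, b2⟩ := (tb k hk n H.hn 1 0 (by push_cast; linarith only [γ0, γ2, γ1, γ3, p0, p1]) le_rfl (by linarith only [γ0, γ2, γ1, γ3, p0, p1])).1 n nN1 le_rfl
    rw [w4F n H.hn] at b1
    rw [NN_at hk.1 H.hn] at b2
    have wn := hk.1.w_pos n nN1
    set q := exp (-k.ch n / 2) with hq
    have q0 : 0 < q := exp_pos _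
    obtain b3 : q * exp (-k.chi 0 (n - 1) / 4) ≤ exp (-k.chi 0 n / 5) := by
      obtain e : k.chi 0 n = k.chi 0 (n - 1) + k.ch n := by
        unfold Sk.chi
        rw [sum_Ioc_add k.ch (show (0 : ℤ) ≤ n - 1 by omega) (show n - 1 ≤ n by omega)]
        simp [show Ioc (n - 1) n = {n} by ext; simp only [mem_Ioc, mem_singleton]; omega]
      rw [hq, ← exp_add]
      exact exp_le_exp.2 (by linarith only [p0, p1, e, chi0 0 (n - 1), chn.1])
    obtain b4 : 2 * |O.X 0 - S.X 0| ≤ 1 := by linarith only [p0, p1, p7, n1, sup 0 le_rfl (by omega)]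
    obtain b5 : q * (k.w4 (n - 1) * (2 * 2 ^ 2 * u / k.w n)) ≤ 16 * u := by
      rw [← mul_assoc]
      refine (mul_le_mul_of_nonneg_right b1 (by (clear * - wn; positivity))).trans (le_of_eq ?_)
      field_simp; ring
    obtain b6 : q * (|τ - t| * exp (20 * k.sl n) * k.NN n 1 0 (n - 1)) ≤
        |τ - t| * exp (20 * k.sl n + (0 + 1) * k.σ n) := by
      rw [exp_add, ← mul_assoc |τ - t|, mul_left_comm]
      exact mul_le_mul_of_nonneg_left b2 (by (clear * -; positivity))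
    obtain b7 : q * (2 * |O.X 0 - S.X 0| * exp (-k.chi 0 (n - 1) / 4)) ≤ exp (-k.chi 0 n / 5) := by
      rw [mul_left_comm]
      exact (mul_le_of_le_one_left (by positivity) b4).trans b3
    obtain b8 := add (20 * k.sl n + (0 + 1) * k.σ n) (by
      linarith only [σb, p0, p1, γ1, γ3, σn 1 zero_le_one γ0, slb 20 (by linarith only [γ0, γ1, γ3, p0, p1])])
    obtain b9 : q * |O.X (n - 1) - S.X (n - 1)| ≤ 16 * (u + ℓ) := by
      have := mul_le_mul_of_nonneg_left a q0.le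
      unfold Sk.mu at this
      rw [mul_add, mul_add] at this
      refine (this.trans (add_le_add (add_le_add b5 b6) b7)).trans ?_
      linarith only [b8, l1, ℓ0]
    obtain b10 := pow_le_pow_left₀ (by (clear * -; positivity)) b9 2
    rw [mul_pow, sq_abs] at b10
    obtain b11 := mul_le_mul_of_nonneg_right (bS.trans (show k.B n ≤ κ * c.L * q ^ 2 / 256 by linarith only [k3]))
      (sq_nonneg (O.X (n - 1) - S.X (n - 1)))
    obtain b12 := mul_le_mul_of_nonneg_left b10 (show 0 ≤ κ * c.L / 256 by linarith only [k2])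
    linarith only [b11, b12]
  · refine (mul_le_mul_of_nonneg_right bS (abs_nonneg _)).trans (jB.trans ?_)
    rw [← sq_abs (O.X n - S.X n), ← hu]
    have a1 := mul_le_mul_of_nonneg_right kL (sq_nonneg u)
    have a2 := mul_le_mul_of_nonneg_right k2 (sq_nonneg ℓ)
    obtain a3 : 0 ≤ κ * c.L * (u * ℓ) := mul_nonneg (by linarith only [k2, p0, p1]) (mul_nonneg u0 ℓ0)
    linarith only [a1, a2, a3, ad, l2]
  · refine (mul_le_mul_of_nonneg_right bS (abs_nonneg _)).trans (jC.trans ?_)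
    have a1 := mul_le_mul_of_nonneg_right kL u0
    have a2 := mul_le_mul_of_nonneg_right k2 ℓ0
    linarith only [a1, a2, ad, l1]

theorem main {K : ℕ} {c : Cs} (h : Num c) (sok : SOK_s c) (ta : TA_s c) (tb : TB_s c)
    (shd : SHD_s K c) (j6 : J6_s K c) : VJ6_s K c := by
  intro M s t k T nuJ n σ D D2 ν R δ τ v1 c1 V C
  have hk := V.jc.oc.sk
  obtain ⟨nN1, nN⟩ := hk.1.F_mem n V.jc.oc.hn
  have n1 := V.n1
  obtain sl0 : 0 ≤ k.sl n := by linarith only [hk.1.sl1, hk.1.sl_mono 1 n le_rfl nN1, h.big.lam]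
  have hsl := (mul_le_mul_of_nonneg_right (bud h V.bud).2.2.2 sl0).trans (V.sl n le_rfl)
  obtain σ0 : 0 ≤ σ := (mul_nonneg (by linarith only [h.C0]) sl0).trans (V.sl n le_rfl)
  have D20 : 0 ≤ D2 := V.D0.le.trans V.DD
  obtain D1 : D2 ≤ 1 := by
    nlinarith only [σ0, D20, V.hD, one_le_exp (by linarith only [V.R0] : 0 ≤ 2 * R),
      exp_le_one_iff.2 (by linarith only [σ0] : -σ ≤ 0)]
  obtain hτ : τ ∈ Set.Icc (t - D) (t + D) := by
    obtain this := abs_le.1 C.ht; exact ⟨by linarith only [this.1], by linarith only [this.2]⟩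
  obtain ⟨J, tu, -⟩ := V.j4 τ hτ
  generalize hκ : (if 5 / 100 ≤ dP (T.X n) then 1 / (100 * c.lam) else c.lam / 20) = κ
  have chn := hk.1.ch_mem n
  obtain ⟨k1, k2, k3⟩ := kap h T n (κ := κ) (by rw [← V.hB.2]; exact ⟨by linarith only [chn], chn.2⟩) (by
    rw [← hκ]; split_ifs with hd
    · exact .inl ⟨hd, rfl⟩
    · exact .inr rfl)
  rw [← V.hB.2] at k1 k3
  rw [← V.hB.1] at k3
  refine gen h sok ta tb shd j6 V.jc n1 V.bud hsl V.D0 V.DD D1 V.ν0
    ((mul_le_mul V.DD V.rh (zero_le_one.trans ((le_fold_max _).2 (.inl le_rfl))) D20).trans V.hD) V.hν J tu V.chi C ?_ k1 k2 k3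
  unfold Sq.bb; split_ifs with hb
  · obtain a0 := (abs_le.1 ((dP_lip _ _).trans (V.tru n (by omega) le_rfl))).1
    obtain a1 := (abs_le.1 ((dP_lip _ _).trans (V.tru (n - 1) (by omega) (by omega)))).1
    rw [V.hB.1, Sq.bb, if_pos ⟨by linarith only [a0, hb.1], by linarith only [a1, hb.2]⟩]
  · exact hk.1.B_lo n
end VJ6

theorem vj6 (K : ℕ) : Hier fun c =>
    SOK_s c → TA_s c → TB_s c → SHD_s K c → J6_s K c → VJ6_s K c :=
  VJ6.num.mono fun _ h => VJ6.main h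

end Pool.Agent.MP_9cbfe4_an

end

/-! ### Part FCMP -/

section

/-! Row CMP of section F: two consecutive scales. -/

namespace Pool.Agent.MP_9cbfe4_an

namespace FCMP

variable {K : ℕ} {c : Cs} {M : Mdl} {sd : Fd → ℝ → Seed} {d : Dat} {σ w w' : ℝ}

theorem nums (h : FNum K c) : 0 < c.th ∧ 0 < c.e3 ∧ 2 * c.e3 ≤ c.io K ∧ K * c.io K ≤ 1 / 100 ∧
    (K : ℝ) ≤ c.C1 * c.lam ∧ c.cc ≤ c.C1 * c.lam / 2 := by
  obtain hK : (10 : ℝ) ≤ K := by exact_mod_cast h.hK
  have h1 := h.hθ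
  have h2 := h.hκ
  have h3 := h.hG
  have he := h.he.1
  obtain a0 : (40 : ℝ) * K ≤ 10 ^ 6 * (K : ℝ) ^ 3 * (c.κ + 1) := by
    obtain this : (K : ℝ) ≤ K ^ 3 := le_self_pow₀ (by linarith only [hK, h1]) (by norm_num)
    nlinarith only [hK, this, h2, h1]
  obtain a1 : 40 * K ≤ c.C0 * (1 - c.θb) := (a0.trans (le_mul_of_one_le_right (by linarith only [hK, h1, a0]) h3)).trans h.hC0
  obtain a2 : 0 < c.C0 := by
    by_contra hc
    linarith only [hK, a1, mul_nonneg (neg_nonneg.2 (not_lt.1 hc)) (sub_nonneg.2 h1.2.le)]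
  obtain a3 : 40 * K ≤ c.C0 := by linarith only [a1, mul_pos a2 h1.1]
  obtain a4 : (K : ℝ) ≤ c.C1 := by nlinarith only [hK, h1, a3, h.hC1]
  obtain a5 : 40 * K * c.C0 * c.e3 ≤ 1 := by
    obtain b1 : 40 * K * (c.C0 * c.e3) ≤ 10 ^ 6 * (K : ℝ) ^ 3 * (c.κ + 1) * (c.C0 * c.e3) :=
      mul_le_mul_of_nonneg_right a0 (by positivity)
    obtain b2 : 10 ^ 6 * (K : ℝ) ^ 3 * (c.κ + 1) * (c.C0 * c.e3) ≤
        10 ^ 6 * (K : ℝ) ^ 3 * (c.κ + 1) * (c.C0 * c.e3) * c.C1 :=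
      le_mul_of_one_le_right (by positivity) (by linarith only [hK, h1, a4])
    linarith only [h1, b1, b2, h.he.2]
  obtain a6 : 0 < c.lam := by
    by_contra hc
    linarith only [h1, h.hS, mul_nonneg (Real.sqrt_nonneg c.a) (neg_nonneg.2 (not_lt.1 hc))]
  obtain a7 : 1 ≤ c.lam := by linarith only [h1, Real.log_le_sub_one_of_pos a6, h.hl.2]
  obtain a8 : c.e3 ≤ 1 := by
    obtain this : 1 ≤ 40 * K * c.C0 := by nlinarith only [hK, h1, a3]
    nlinarith only [a5, h1, he, this]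
  obtain a9 : c.ε ≤ 1 := by rw [h.hε]; exact pow_le_one₀ he.le a8
  refine ⟨by unfold Cs.th; positivity, he, ?_, ?_, by nlinarith only [a7, h1, a4, a6], ?_⟩
  · unfold Cs.io Cs.th
    rw [div_div, le_div_iff₀ (by positivity)]
    linarith only [a5]
  · obtain this : K * c.io K = 1 / (20 * c.C0) := by unfold Cs.io Cs.th; field_simp
    rw [this]
    exact one_div_le_one_div_of_le (by norm_num) (by linarith only [hK, h1, a3])
  · unfold Cs.cc
    nlinarith only [hK, a7, a6, h1, a4, a9]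

theorem Rb_ge {π : Prof} {i j : ℤ} (hi : i ∈ π.T) (h : i < j) : max c.cc (π.sr i) ≤ π.Rb c j :=
  max_le ((Finset.le_fold_max _).2 (.inl le_rfl))
    ((Finset.le_fold_max _).2 (.inr ⟨i, Finset.mem_filter.2 ⟨hi, h⟩, le_rfl⟩))

theorem cl_mono {π : Prof} {i j : ℤ} (hθ : 0 < c.th) (h : i ≤ j) : π.cl c σ i ≤ π.cl c σ j := by
  have : π.Rb c i ≤ π.Rb c j := (Finset.fold_max_le _).2 ⟨(Finset.le_fold_max _).2 (.inl le_rfl),
    fun k hk => (le_max_right _ _).trans
      (Rb_ge (Finset.mem_filter.1 hk).1 ((Finset.mem_filter.1 hk).2.trans_le h))⟩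
  exact Nat.ceil_mono (by (clear * - this hθ; gcongr))

/-- the jets at an earlier base time on the window of a later one -/
theorem key (hd : d.Gd K c M sd) {j j' : ℤ} {k k' : ℕ} {B B' a : ℝ}
    (h : d.Sc K c M sd σ w j k (Real.exp (-(k : ℝ))) B)
    (h' : d.Sc K c M sd σ w' j' k' (Real.exp (-(k' : ℝ))) B') (hj : j ∈ (d.prof c M).T)
    (hj' : j' ∈ (d.prof c M).T) (hlt : j < j') (hσ : 0 ≤ σ) (hk : σ ≤ k')
    (h1 : ∀ i ∈ (d.prof c M).T, j ≤ i → i < j' →
      max c.cc ((d.prof c M).sr i) - k' ≤ a + (d.prof c M).lw i)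
    (h2 : -(k' : ℝ) ≤ a + (d.prof c M).lw j') (h3 : -w' ≤ a) :
    Nj K (d.ph c M sd j) d.t (Real.exp (-(k' : ℝ))) ≤ Real.exp (σ + 4 + (d.prof c M).lw j + a) ∧
    ∀ τ, |τ - d.t| ≤ Real.exp (-(k' : ℝ)) →
      |d.ph c M sd j τ - d.ph c M sd j d.t| ≤ Real.exp (σ + 4 + (d.prof c M).lw j + a) := by
  set D := Real.exp (-(k' : ℝ)) with hD
  have D0 : 0 < D := Real.exp_pos _
  obtain ⟨r, hr⟩ := (hd.fe.mem j hj).1
  obtain ⟨r', hr'⟩ := (hd.fe.mem j' hj').1
  obtain ⟨-, q0, -, -, q1, q2, -⟩ := hd.fe.ent _ hr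
  obtain ⟨-, p0, -, -, p1, -⟩ := hd.fe.ent _ hr'
  simp only [add_sub_cancel_left] at q0 q1 q2 p0 p1
  set A := d.wq M (d.n + j) * Real.exp a with hA
  obtain A0 : 0 < A := by positivity
  obtain e1 : D ≤ A := by
    refine le_trans ?_ (mul_le_mul_of_nonneg_right q1 (Real.exp_pos a).le)
    rw [← Real.exp_add]
    have := (le_max_right c.cc _).trans (sub_le_iff_le_add.1 (h1 j hj le_rfl hlt))
    exact Real.exp_le_exp.2 (by linarith only [this, (Nat.cast_nonneg ((d.prof c M).sr j) : (0 : ℝ) ≤ _)])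
  obtain e2 : D / d.wq M (d.n + j') ≤ Real.exp a := by
    rw [div_le_iff₀ p0]
    refine le_trans ?_ (mul_le_mul_of_nonneg_left p1 (Real.exp_pos a).le)
    rw [← Real.exp_add]
    exact Real.exp_le_exp.2 h2
  obtain ⟨g1, g2⟩ := hd.jf.j1 σ _ D _ _ h'.val _ hr (by simp only; omega) (A / D)
    ((one_le_div D0).2 e1) fun z hz z1 z2 => by
      obtain ⟨t0, -, -, -, t1, -, t2, -⟩ := hd.fe.ent z (List.mem_cons_of_mem _ hz)
      obtain t3 := h1 _ t0 (by simp only at z1; omega) (by omega)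
      rw [div_mul_eq_mul_div, le_div_iff₀ D0, hA, mul_assoc, mul_assoc]
      refine mul_le_mul_of_nonneg_left
        (le_trans ?_ (mul_le_mul_of_nonneg_left t1 (Real.exp_pos a).le)) q0.le
      rw [hD, ← Real.exp_add, ← Real.exp_add]
      exact Real.exp_le_exp.2 (by linarith only [t2, t3])
  simp only at g1 g2
  obtain e3 : Real.exp σ * (d.wq M (d.n + j) * (Real.exp (-w') + D / d.wq M (d.n + j')) + D * (A / D))
      + D / 10 ≤ Real.exp (σ + 4 + (d.prof c M).lw j + a) := by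
    obtain s1 : d.wq M (d.n + j) * (Real.exp (-w') + D / d.wq M (d.n + j')) ≤ 2 * A := by
      have := mul_le_mul_of_nonneg_left (add_le_add (Real.exp_le_exp.2 h3) e2) q0.le
      linarith only [this]
    have s2 : A ≤ Real.exp σ * A := le_mul_of_one_le_left A0.le (Real.one_le_exp hσ)
    obtain s3 : Real.exp σ * A * 4 ≤ Real.exp σ * (Real.exp ((d.prof c M).lw j + 1) * Real.exp a)
        * Real.exp 3 := by
      have := Real.add_one_le_exp (3 : ℝ)
      rw [hA]; gcongr; linarith only [this]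
    rw [← Real.exp_add, ← Real.exp_add, ← Real.exp_add] at s3
    rw [mul_div_cancel₀ _ D0.ne', show σ + 4 + (d.prof c M).lw j + a =
      σ + ((d.prof c M).lw j + 1 + a) + 3 by ring]
    linarith only [A0, e1, s2, s3, mul_le_mul_of_nonneg_left s1 (Real.exp_pos σ).le]
  obtain D1 : D ≤ Real.exp (-σ) := Real.exp_le_exp.2 (by linarith only [hk])
  refine ⟨?_, fun τ hτ => ?_⟩
  · linarith only [g1, e3, hσ, (abs_le.1 (h.jg D D0.le (D1.trans (Real.exp_le_one_iff.2 (by linarith only [hσ]))))).2]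
  · obtain l1 := h.lip τ d.t (hτ.trans D1) (by simpa using (Real.exp_pos _).le)
    have l2 := g2 τ hτ
    have l3 := abs_sub (d.g c M sd (d.n + j) τ - d.g c M sd (d.n + j) d.t)
      (d.cf c M sd j τ - d.cf c M sd j d.t)
    unfold Dat.ph
    rw [sub_sub_sub_comm]
    linarith only [e3, hτ, l1, l2, l3]

end FCMP

open FCMP in
theorem cmp (K : ℕ) (c : Cs) (hNB : NB_s K c) (hSC : SC_s K c) : CMP_s K c := by
  intro M sd hc d σ w w' hd hw hl hl'
  obtain ⟨hθ, he, n1, n2, n3, n4⟩ := nums hc.num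
  obtain hK : (10 : ℝ) ≤ K := by exact_mod_cast hc.num.hK
  have ok := hd.fe.ok σ hl.s
  have V0 : 0 ≤ d.V c M := (ok.rng 1 ok.one.1).2.1.trans (ok.rng 1 ok.one.1).2.2
  obtain s1 : c.C1 * c.lam ≤ σ := by
    obtain this : 0 ≤ c.e3 ^ 22 * d.V c M := by (clear * - he V0; positivity)
    linarith only [this, hd.fe.sl.1, hl.s]
  obtain w0 : 0 < w := by
    by_contra h
    linarith only [n3, hK, s1, hl.lo, mul_nonneg he.le (neg_nonneg.2 (not_lt.1 h))]
  obtain s2 : 2 * σ ≤ c.io K * w := by nlinarith only [n1, w0, hl.lo]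
  obtain ⟨nb, nb2⟩ := hNB hc.num _ σ _ w ok s1 hl.lo hl.hi
  replace nb2 := nb2 (hw ▸ hl'.hi)
  obtain ⟨nb', -⟩ := hNB hc.num _ σ _ w' ok s1 hl'.lo hl'.hi
  have sc := hSC M sd hc d σ w hd hl
  have sc' := hSC M sd hc d σ w' hd hl'
  unfold Dat.ScAt at sc sc'
  have ord := nb2.ord
  rw [← hw] at ord
  obtain hww : w' = w + c.io K * w := by rw [hw]; ring
  have cm := (cl_mono (σ := σ) (π := d.prof c M) hθ ord.1).trans sc'.rng.1
  have inf : ∀ k : ℕ, d.ks K c M sd σ w' ≤ k →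
      Nj K (d.ph c M sd ((d.prof c M).bs K c w)) d.t (Real.exp (-k))
        ≤ Real.exp ((d.prof c M).lw ((d.prof c M).bs K c w) - w) → d.ks K c M sd σ w ≤ k :=
    fun k h1 h2 => Nat.sInf_le ⟨cm.trans h1, h2⟩
  have mem' := nb'.mem
  unfold Dat.Waste Prof.Cross
  set k' := d.ks K c M sd σ w' with hk'
  set j := (d.prof c M).bs K c w with hj
  set j' := (d.prof c M).bs K c w' with hj'
  rcases ord.1.eq_or_lt with e | hlt
  · rw [← e] at sc'
    obtain kk := inf k' le_rfl (sc'.up.trans (Real.exp_le_exp.2 (by linarith only [hw, n3, hK, s1, s2])))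
    obtain kk' : (d.ks K c M sd σ w : ℝ) ≤ k' := by exact_mod_cast kk
    refine ⟨by linarith only [n3, hK, s1, s2, kk'], fun _ => ⟨kk, fun τ hτ => ?_⟩⟩
    have D0 : 0 < Real.exp (-(k' : ℝ)) := Real.exp_pos _
    obtain m := TW.mvt (g := iteratedDeriv 0 (d.ph c M sd j)) TW.ordConnected_Win
      (B := (K + 2) * Nj K (d.ph c M sd j) d.t (Real.exp (-(k' : ℝ))) / Real.exp (-(k' : ℝ)))
      (sc'.chain 0 (by omega)) (fun t ht => (le_div_iff₀ D0).2 (by
        simpa using TW.full (j1 := 1) (a := 1) D0 Nj_nonneg sc'.chain (fun i => le_Nj) sc'.rem le_rfl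
          (by omega) ht)) (TW.center_mem D0.le) (TW.mem_Win.2 hτ)
    rw [iteratedDeriv_zero] at m
    refine (m.trans (mul_le_mul_of_nonneg_left hτ
      (div_nonneg (mul_nonneg (by positivity) Nj_nonneg) D0.le))).trans ?_
    rw [div_mul_cancel₀ _ D0.ne', add_sub_assoc, Real.exp_add]
    exact mul_le_mul (by linarith only [n3, hK, s1, Real.add_one_le_exp (2 * σ)]) sc'.up Nj_nonneg (by positivity)
  have R0 : 0 ≤ (d.prof c M).Rb c j' :=
    ((Nat.cast_nonneg _).trans (le_max_right _ _)).trans (Rb_ge nb.mem hlt)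
  obtain k1 : 2 * (d.prof c M).Rb c j' + 4 * σ ≤ k' := by
    have := (Nat.ceil_le.1 sc'.rng.1)
    linarith only [this, mul_nonneg hθ.le R0]
  have a' := nb.aft j' mem' hlt
  have l' := (ok.lw j' mem').1
  refine ⟨?_, fun hW => ?_⟩
  · obtain K1 := (key (a := 3 * c.io K * w + 1 - w) hd sc sc' nb.mem mem' hlt (by linarith only [n3, hK, s1])
      (by linarith only [n3, hK, s1, R0, k1]) (fun i hi i1 i2 => by
        obtain ⟨l, l1, l2, -, l3⟩ := ok.next i hi
          (i2.trans_le ((Finset.le_fold_max _).2 (.inr ⟨j', mem', le_rfl⟩)))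
        have r1 := Rb_ge (c := c) hi i2
        linarith only [n3, hK, s1, k1, l3, r1, nb.aft l l1 (i1.trans_lt l2), le_max_right c.cc ((d.prof c M).sr i : ℝ)])
      (by linarith only [n3, hK, s1, R0, k1, a', l']) (by linarith only [hw, n3, hK, s1, s2])).1
    have c1 := Nat.le_ceil (σ + 5 + 3 * c.io K * w)
    obtain c2 := Nat.ceil_lt_add_one (show 0 ≤ σ + 5 + 3 * c.io K * w by linarith only [n3, hK, s1, s2])
    obtain kk := inf (k' + ⌈σ + 5 + 3 * c.io K * w⌉₊) (Nat.le_add_right _ _)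
      ((Nj_exp_le (a := k') (by push_cast; linarith only [n3, hK, s1, s2, c1])).trans
        ((mul_le_mul_of_nonneg_left K1 (Real.exp_pos _).le).trans (by
          rw [← Real.exp_add]; exact Real.exp_le_exp.2 (by push_cast; linarith only [c1]))))
    obtain kk' : (d.ks K c M sd σ w : ℝ) ≤ k' + ⌈σ + 5 + 3 * c.io K * w⌉₊ := by exact_mod_cast kk
    linarith only [n3, hK, s1, c2, kk']
  have nc : (d.prof c M).Wr ((d.prof c M).tp K c w) - (d.prof c M).Wr j ≤ w / (100 * K) :=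
    not_lt.1 fun h => hW (.inr ⟨hlt.trans_le ord.2, h⟩)
  have m1 := ok.mono j' mem' _ nb2.mem ord.2
  have k2 : w' / (2 * K) ≤ k' := neg_le_neg_iff.1 (Real.exp_le_exp.1 sc'.small.1)
  obtain k3 : 50 * (w / (100 * K)) ≤ w' / (2 * K) := by
    rw [show 50 * (w / (100 * K)) = w / (2 * K) by field_simp; ring]
    gcongr; linarith only [hw, n3, hK, s1, s2]
  obtain k4 : c.io K * w ≤ w / (100 * K) := by
    rw [le_div_iff₀ (by positivity)]; nlinarith only [n2, w0]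
  obtain ⟨K1, K2⟩ := key (a := -w') hd sc sc' nb.mem mem' hlt (by linarith only [n3, hK, s1]) (by linarith only [n3, hK, s1, s2, k2, k3, k4])
    (fun i hi i1 i2 => by
      have r1 := ok.later i hi j' mem' i2
      have r2 := ok.mono j nb.mem i hi i1
      have r3 := (ok.lw i hi).1
      rw [sub_le_iff_le_add]
      exact max_le (by linarith only [hw, n3, n4, hK, s1, s2, a', nc, m1, k2, k3, k4, r2, r3]) (by linarith only [hw, n3, hK, s1, s2, a', nc, m1, k2, k3, k4, r1, r2, r3])) (by linarith only [hw, n3, hK, s1, s2, a', l', k2, k3, k4]) le_rfl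
  exact ⟨inf k' le_rfl (K1.trans (Real.exp_le_exp.2 (by linarith only [hw, n3, hK, s1, s2]))),
    fun τ hτ => (K2 τ hτ).trans (Real.exp_le_exp.2 (by linarith only [n3, hK, s1]))⟩

end Pool.Agent.MP_9cbfe4_an

end

/-! ### Part FVOLS -/

section

/-! Row VOLS: the target set of a short stage. -/

namespace Pool.Agent.MP_9cbfe4_an

open Finset MeasureTheory
open Real (exp log sqrt sqrt_nonneg log_le_sub_one_of_pos exp_pos exp_le_exp exp_add exp_sub
  exp_le_one_iff add_one_le_exp pow_div_factorial_le_exp exp_nat_mul)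

namespace FVOLS

theorem num {K : ℕ} {c : Cs} (N : FNum K c) {σ w : ℝ} (h1 : c.C1 * c.lam ≤ σ)
    (h2 : σ ≤ c.e3 * w) :
    1 ≤ c.lam ∧ 100 ≤ σ ∧ 2 * σ ≤ c.io K * w ∧ σ ≤ w / (2 * K) ∧
      w / (2 * K) = 25 * (w / (50 * K)) ∧ w / (100 * K) = w / (50 * K) / 2 := by
  obtain hK : (10 : ℝ) ≤ K := by exact_mod_cast N.hK
  have hκ := N.hκ
  obtain ⟨t0, t1⟩ := N.hθ
  have hG := N.hG
  obtain l0 : 0 < c.lam := by
    by_contra h
    nlinarith only [t0, t1, h, N.hS, sqrt_nonneg c.a]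
  obtain l1 : 1 ≤ c.lam := by linarith only [t0, t1, log_le_sub_one_of_pos l0, N.hl.2]
  obtain a1 : (1 : ℝ) ≤ 10 ^ 6 * (K : ℝ) ^ 3 * (c.κ + 1) * c.CG := by
    obtain this : (1 : ℝ) ≤ (K : ℝ) ^ 3 := one_le_pow₀ (by linarith only [hK, t0, t1])
    exact one_le_mul_of_one_le_of_one_le (one_le_mul_of_one_le_of_one_le (by linarith only [t0, t1, this])
      (by linarith only [hκ, t0, t1])) hG
  obtain c0 : 1 ≤ c.C0 := by
    by_contra h
    nlinarith only [a1, t0, t1, h, N.hC0]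
  obtain c1 : 10000 ≤ c.C1 := by nlinarith only [hK, c0, N.hC1]
  have e0 := N.he.1
  obtain e1 : 40 * K * c.C0 * c.e3 ≤ 1 := by
    refine le_trans ?_ (N.he.2.trans (by linarith only [t0]))
    obtain p1 : 40 * (K : ℝ) ≤ 10 ^ 6 * (K : ℝ) ^ 3 := by nlinarith only [hK, t0, t1, sq_nonneg (K : ℝ)]
    calc 40 * K * c.C0 * c.e3 = 40 * K * 1 * c.C0 * 1 * c.e3 := by ring
      _ ≤ _ := by gcongr <;> linarith only [hκ, t0, t1, c1]
  obtain s0 : 100 ≤ σ := by nlinarith only [h1, l1, t0, t1, l0, c1]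
  obtain w0 : 0 < w := by
    by_contra h
    nlinarith only [h1, h2, l1, t0, t1, l0, c1, e0, h]
  refine ⟨l1, s0, ?_, ?_, by field_simp; norm_num, by field_simp; norm_num⟩
  · obtain this : 2 * c.e3 ≤ c.io K := by
      unfold Cs.io Cs.th
      rw [div_div, le_div_iff₀ (by positivity)]; linarith only [e1]
    nlinarith only [this, h2, e0, s0]
  · obtain this : c.e3 ≤ 1 / (2 * K) := by
      rw [le_div_iff₀ (by positivity)]
      obtain this : 0 ≤ K * c.e3 := by positivity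
      nlinarith only [e1, hK, e0, t0, t1, c0, this]
    calc σ ≤ 1 / (2 * K) * w := h2.trans (by gcongr)
      _ = _ := by ring

end FVOLS

theorem vols (K : ℕ) (c : Cs) (hS : SOK_s c) (hNB : NB_s K c) (hSC : SC_s K c) (hCM : CMP_s K c)
    (hR : REL_s K c) (hCC : CC_s c) (hP : PAR_s c) (hD : PRD_s c) : VOLS_s K c := by
  classical
  intro M sd X y tU nu lab π C σ w w' k k' Z hk hx hl a ha
  have hM := X.okk.ok
  have gd := Z.fam.gd
  have hπ : ∀ z ∈ C, z.prof c M = π := fun z hz => (Z.fam.lvl z hz).2.2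
  have prd := fun z hz => hD _ M z π hM (gd z hz).pre (hπ z hz).symm
  obtain ⟨La, La'⟩ := Z.lev a ha
  have Fa := (gd a ha).fe
  have ok : π.OK c σ (a.V c M) := hπ a ha ▸ Fa.ok σ La.s
  have e0 := X.num.he.1
  have V0 : 0 ≤ a.V c M := ok.one.2 ▸ (ok.rng 1 ok.one.1).2.2
  obtain s1 : c.C1 * c.lam ≤ σ := by
    obtain this : 0 ≤ c.e3 ^ 22 * a.V c M := by positivity
    linarith only [this, Fa.sl.1, La.s]
  obtain ⟨l1, s0, n1, n2, n3, n4⟩ := FVOLS.num X.num s1 La.lo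
  obtain ⟨nb, nb2⟩ := hNB X.num π σ _ w ok s1 La.lo La.hi
  replace nb2 := nb2 (Z.hw ▸ La'.hi)
  obtain ⟨sh1, sh2⟩ := nb2.short hx hl
  have mx := nb2.mx
  rw [← Z.hw] at sh1 mx
  obtain ww : w' = w + c.io K * w := by rw [Z.hw]; ring
  obtain sc : ∀ z ∈ C, z.Sc K c M sd σ w (π.bs K c w) k (exp (-(k : ℝ)))
      (exp (π.lw (π.bs K c w) - w)) := fun z hz => by
    have := hSC M sd X z σ w (gd z hz) (Z.lev z hz).1
    unfold Dat.ScAt at this
    rwa [hπ z hz, (Z.ks z hz).1] at this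
  have rel := hR M sd X y tU nu lab π C σ w w' k k' Z
  have hi := nb.hi
  have jT := nb.mem
  set j := π.bs K c w with hj
  set q := w / (50 * K)
  set D := exp (-(k : ℝ)) with hDd
  have D0 : 0 < D := exp_pos _
  have D1 : D ≤ exp (-(25 * q)) := n3 ▸ (sc a ha).small.1
  obtain D2 : D ≤ exp (-σ) := D1.trans (exp_le_exp.2 (by linarith only [n2, n3]))
  obtain D3 : D ≤ exp (π.lw j - w') := D1.trans (exp_le_exp.2 (by linarith only [s0, n2, n3, sh1]))
  obtain ⟨lw1, lw2⟩ := ok.lw j jT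
  refine ⟨?_, fun z hz τ hτ => ?_⟩
  · have H := hCC (Ex2 K c M) M C (fun z => z.1.toFd) j (exp (π.lw j)) (w - 6 * σ) (w' - 6 * σ)
      (14 / 1000) (if j ∈ π.Ev ∧ π.kd j = true then 1 / (5 * c.lam) else c.lam)
      (exp (π.lw j) * exp (-(w' - 6 * σ) - 10)) π.Ev (π.a c) π.b π.lw π.rr π.kd hM (exp_pos _)
      (by linarith only [s0, n1, ww]) (prd a ha).2.2.2.2.2.2.1 (by norm_num) (by norm_num)
      (by
        split_ifs
        · rw [div_le_iff₀ (by positivity)]; nlinarith only [l1]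
        · exact le_rfl)
      (by positivity) le_rfl
      (fun h1 _ h2 => by
        rw [if_pos ⟨h1, h2⟩]; exact one_div_le_one_div_of_le (by positivity) (by linarith only [l1]))
      (fun z => (prd z z.2).2.2.2.2.2.2.2.2.2 j jT _ _ (by linarith only [n1, hi]) _ Subset.rfl)
      (fun z z' => by
        obtain ⟨r1, r2⟩ := ((rel z z.2).2 z' z'.2).2 sh1
        refine ⟨r2 _ ?_, r1.trans ?_, fun i hi' ov => ?_⟩
        · split_ifs with h
          · exact Or.inr ⟨((prd z z.2).2.2.2.2.2.1 j h.1).2.2.2 h.2, le_rfl⟩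
          · exact Or.inl le_rfl
        · rw [← exp_add]; exact exp_le_exp.2 (by linarith only [s0])
        have iT : i ∈ π.T := (mem_filter.1 hi').1
        obtain ji := (((prd z z.2).2.2.2.2.2.2.2.2.2 j jT _ (w' - 6 * σ)
          (show π.Wr j ≤ w - 6 * σ by linarith only [n1, hi]) _ Subset.rfl).ev i hi' ov).1
        have tt : |z'.1.t - z.1.t| ≤ D / 8 := Z.tt _ z'.2 _ z.2
        have m1 := ok.mono j jT i iT ji
        refine ⟨fun l l1' l2 => ?_, fun _ => ?_⟩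
        · have Fz := (gd z z.2).fe
          have pz := (gd z z.2).pre
          have mem := Fz.mem
          have top := Fz.top
          rw [hπ z z.2] at mem top
          obtain ⟨w1, -, -, -, -, -, -⟩ := (prd z z.2).2.2.1 j jT
          obtain ⟨-, w2, -, -, -, w3, -⟩ := (prd z z.2).2.2.1 i iT
          obtain ⟨r, hr⟩ := (mem i iT).1
          obtain ⟨r', hr'⟩ := (mem j jT).2 (by omega)
          have E := Fz.el _ hr
          obtain ⟨L, g1, g2, g3⟩ := E.run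
          have hok : (z.1.S M).OK c := ((hS M hM z.1.t E.fr.ht).2.1 z.1.v pz.hv).2
          obtain g4 := hP _ _ _ _ _ _ _ (z.1.n + j) hok E.fr.out g1 g2
            ⟨_, g3 _ hr' (by simp only; omega), rfl⟩ l l1' l2
          have g5 := Fz.xp _ hr
          have g6 := (Z.lev z z.2).1.s
          obtain a1 : π.Wr i + 1 ≤ π.a c i := by
            have := X.num.hl.2
            unfold Prof.a
            split_ifs
            · linarith only [this, le_max_left (π.Wr i) (π.lw i)]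
            · linarith only [this]
          have a2 := (le_max_left _ _).trans (ov.le.trans (min_le_right _ _))
          obtain a3 := ok.mono i iT _ nb2.mem (mx i iT (by linarith only [s0, a1, a2]))
          obtain wp : 0 ≤ (z.1.S M).wp c z.1.n l := by
            unfold Sq.wp Sq.wh; exact (le_fold_max _).2 (Or.inl le_rfl)
          obtain g7 : |z'.1.t - z.1.t| * exp (4 * ((z.1.S M).Wp c z.1.n (z.1.n + i) -
              (z.1.S M).Wp c z.1.n (z.1.n + j)) - (z.1.S M).Wp c z.1.n (z.1.n + j) +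
              100 * c.ε' * (z.1.S M).xp c z.1.n (z.1.n + i)) ≤
              exp (π.lw j) * exp (-(w' - 6 * σ) - 10) / (3 * exp (π.lw j)) := by
            rw [mul_comm 3, mul_div_mul_left _ _ (exp_pos _).ne']
            refine (mul_le_mul_of_nonneg_right (tt.trans (show D / 8 ≤ exp (-(25 * q)) / 3 by
              linarith only [D0, D1])) (exp_pos _).le).trans ?_
            rw [div_mul_eq_mul_div, ← exp_add]
            refine div_le_div_of_nonneg_right (exp_le_exp.2 ?_) (by norm_num)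
            unfold Fd.W at w1 w2
            simp only at g5
            unfold Dat.S at g5 ⊢
            linarith only [s0, n1, ww, hi, sh1, lw2, w1, w2, g5, g6, a1, a2]
          exact (mul_le_mul_of_nonneg_left g4 (abs_nonneg _)).trans
            (by rw [← mul_assoc]; exact mul_le_mul_of_nonneg_right g7 wp)
        · refine (mul_le_mul_of_nonneg_right (tt.trans (show D / 8 ≤ exp (-(25 * q)) by
            linarith only [D0, D1])) (exp_pos _).le).trans ?_
          rw [← exp_add, exp_le_one_iff]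
          linarith only [s0, n1, ww, hi, sh1, lw2, m1, min_le_right (π.b i) (w' - 6 * σ), (ok.lw i iT).1])
    obtain sub : (⋃ z ∈ C, Metric.closedBall (a.tg c M sd j z) (exp (π.lw j - w' + 6 * σ - 1))) ⊆
        (fun x => x + a.cf c M sd j a.t) ⁻¹' ⋃ z : C, Metric.closedBall
          ((z.1.toFd.S M).X (z.1.n + j)) (exp (π.lw j) * exp (-(w' - 6 * σ))) := by
      intro x hx'
      simp only [Set.mem_iUnion, Set.mem_preimage, Metric.mem_closedBall, Real.dist_eq] at hx' ⊢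
      obtain ⟨z, hz, hx'⟩ := hx'
      refine ⟨⟨z, hz⟩, ?_⟩
      have tt : |z.t - a.t| ≤ D / 8 := Z.tt _ hz _ ha
      obtain g1 := (sc a ha).lip z.t a.t (by linarith only [D0, D2, tt]) (by simpa using (exp_pos _).le)
      obtain g2 : exp (π.lw j - w') ≤ exp (π.lw j - w' + 6 * σ) := exp_le_exp.2 (by linarith only [s0])
      obtain g3 : exp (π.lw j - w' + 6 * σ - 1) * 2 ≤ exp (π.lw j - w' + 6 * σ) := by
        rw [exp_sub, div_mul_eq_mul_div, div_le_iff₀ (exp_pos _)]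
        gcongr; linarith only [add_one_le_exp 1]
      rw [← exp_add, show π.lw j + -(w' - 6 * σ) = π.lw j - w' + 6 * σ by ring]
      unfold Dat.tg Dat.S at hx'
      rw [abs_le] at hx' g1 ⊢
      simp only
      constructor <;> linarith only [D0, D3, tt, g2, g3, hx'.1, hx'.2, g1.1, g1.2]
    refine (measure_mono sub).trans ?_
    rw [measure_preimage_add_right]
    refine H.trans (ENNReal.ofReal_le_ofReal ?_)
    obtain c1 : (π.Ev.card : ℝ) ≤ a.Lf.length := by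
      obtain this : π.Ev.card ≤ a.Lf.length := by
        refine (card_filter_le _ _).trans ((List.toFinset_card_le _).trans ?_)
        rw [← hπ a ha]; simp [Dat.prof]
      exact_mod_cast this
    obtain c2 : (20 : ℝ) ^ π.Ev.card ≤ exp (σ / 2) := by
      obtain this : (20 : ℝ) ≤ exp 5 := by
        obtain this := pow_div_factorial_le_exp (5 : ℝ) (by norm_num) 3
        norm_num [Nat.factorial] at this; linarith only [this]
      calc _ ≤ exp 5 ^ π.Ev.card := by (clear * - this; gcongr)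
        _ = exp (π.Ev.card * 5) := (exp_nat_mul _ _).symm
        _ ≤ _ := exp_le_exp.2 (by linarith only [c1, Fa.sl.2.2.2, La.s])
    obtain c3 : 4 ≤ exp (σ / 2) := by linarith only [s0, add_one_le_exp (σ / 2)]
    calc _ ≤ exp (σ / 2) * exp (π.lw j) * exp (σ / 2) * exp (-(w - 6 * σ) - π.LocS K c σ w) := by
          unfold Prof.LocS Prof.Loc
          rw [← Z.hw]
          (clear * - c3 c2; gcongr)
      _ = _ := by rw [← exp_add, ← exp_add, ← exp_add]; congr 1; ring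
  · obtain ⟨Lz, Lz'⟩ := Z.lev z hz
    obtain ⟨k1, k2⟩ := Z.ks z hz
    obtain cm := (hCM M sd X z σ w w' (gd z hz) Z.hw Lz Lz').2 (by
      unfold Dat.Waste
      rw [hπ z hz, k1]
      exact not_or.2 ⟨hk, hx⟩)
    rw [hπ z hz, k1, k2] at cm
    obtain kk : exp (-(k' : ℝ)) ≤ D := exp_le_exp.2 (neg_le_neg (by exact_mod_cast cm.1))
    have k0 := exp_pos (-(k' : ℝ))
    obtain g1 := cm.2 τ (by linarith only [hτ, k0])
    have tt : |z.t - a.t| ≤ D / 8 := Z.tt _ hz _ ha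
    obtain g2 := (sc z hz).lip τ z.t (by linarith only [D0, D2, hτ, kk]) (by simpa using (exp_pos _).le)
    obtain g3 := (sc a ha).lip τ z.t (by linarith only [D0, D2, hτ, kk, tt, abs_sub_le τ z.t a.t]) (by linarith only [D0, D2, tt])
    have g4 := (rel z hz).1
    obtain g5 : exp (π.lw j - w') ≤ exp (2 * σ + π.lw j - w') := exp_le_exp.2 (by linarith only [s0])
    obtain g6 : 4 * exp (2 * σ + π.lw j - w') ≤ exp (3 * σ + π.lw j - w') := by
      rw [show 3 * σ + π.lw j - w' = σ + (2 * σ + π.lw j - w') by ring, exp_add σ]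
      gcongr; linarith only [s0, add_one_le_exp σ]
    unfold Dat.ph at g1
    unfold Dat.tg
    rw [abs_le] at g1 g2 g3 g4 ⊢
    constructor <;> linarith only [D0, D3, hτ, kk, g5, g6, g1.1, g1.2, g2.1, g2.2, g3.1, g3.2, g4.1, g4.2]

end Pool.Agent.MP_9cbfe4_an

end

/-! ### Part FCEL5 -/

section

/-! Row CEL5 of section F: one cell of violations of C5. -/

namespace Pool.Agent.MP_9cbfe4_an

open Finset Filter Topology MeasureTheory

namespace FCEL5

/-- second order Taylor bound on a window -/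
theorem tay {F : ℕ → ℝ → ℝ} {K : ℕ} {a t s D B : ℝ} (hK : 1 ≤ K) (hD : 0 < D) (hB : 0 ≤ B)
    (hF : DChain F (K + 1) (TW.Win a D)) (hp : ∀ j, 1 ≤ j → j ≤ K → |F j a| * D ^ j ≤ B)
    (hR : ∀ τ ∈ TW.Win a D, |F (K + 1) τ| * D ^ (K + 1) ≤ B) (ht : t ∈ TW.Win a D)
    (hs : s ∈ TW.Win a D) :
    |F 0 s - F 0 t - F 1 t * (s - t)| ≤ (K + 2) * B / D ^ 2 * |s - t| ^ 2 := by
  obtain h := TW.taylor TW.ordConnected_Win ht (B := (K + 2) * B / D ^ 2) 2
    (hF.mono (by omega) subset_rfl)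
    (fun τ hτ => (le_div_iff₀ (by positivity)).2
      (TW.full (j1 := 1) hD hB hF hp hR (by omega) (by omega) hτ)) s hs
  obtain e : ∑ l ∈ Finset.range 2, F l t * (s - t) ^ l / (l.factorial : ℝ)
      = F 0 t + F 1 t * (s - t) := by
    simp [Finset.sum_range_succ]
  rw [e] at h
  rwa [sub_sub]

/-- close functions with bounded jets have close derivatives -/
theorem core {F G : ℕ → ℝ → ℝ} {K : ℕ} {a t D B η e : ℝ} (hK : 1 ≤ K) (hD : 0 < D) (hB : 0 ≤ B)
    (hη : 0 < η) (hη1 : η ≤ 7 / 8)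
    (hF : DChain F (K + 1) (TW.Win a D)) (hp : ∀ j, 1 ≤ j → j ≤ K → |F j a| * D ^ j ≤ B)
    (hR : ∀ τ ∈ TW.Win a D, |F (K + 1) τ| * D ^ (K + 1) ≤ B)
    (hG : DChain G (K + 1) (TW.Win t D)) (gp : ∀ j, 1 ≤ j → j ≤ K → |G j t| * D ^ j ≤ B)
    (gR : ∀ τ ∈ TW.Win t D, |G (K + 1) τ| * D ^ (K + 1) ≤ B) (ht : |t - a| ≤ D / 8)
    (hc : ∀ τ, |τ - a| ≤ D → |G 0 τ - F 0 τ| ≤ e) (he : 2 * e ≤ η ^ 2 * B)
    (h1 : |G 1 t| * D ≤ η * B) : |F 1 t| * D ≤ (2 * K + 6) * (η * B) := by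
  have l0 : 0 < η * D := mul_pos hη hD
  have lD : η * D ≤ 7 / 8 * D := mul_le_mul_of_nonneg_right hη1 hD.le
  obtain ta : |t - a| ≤ D := by linarith only [ht, l0, lD]
  obtain sa : |t + η * D - a| ≤ D := by
    rw [abs_le] at ht ⊢; constructor <;> linarith only [l0, lD, ht.1, ht.2]
  obtain st : |t + η * D - t| = η * D := by rw [add_sub_cancel_left, abs_of_pos l0]
  have A := tay hK hD hB hF hp hR (TW.mem_Win.2 ta) (TW.mem_Win.2 sa)
  obtain A' := tay hK hD hB hG gp gR (TW.center_mem hD.le) (s := t + η * D)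
    (TW.mem_Win.2 (by rw [st]; linarith only [l0, lD]))
  rw [st, add_sub_cancel_left] at A A'
  obtain e2 : (K + 2) * B / D ^ 2 * (η * D) ^ 2 = (K + 2) * (η * (η * B)) := by
    field_simp
  rw [e2] at A A'
  have c1 := abs_le.1 (hc t ta)
  have c2 := abs_le.1 (hc _ sa)
  obtain g1 : |G 1 t * (η * D)| ≤ η * (η * B) := by
    rw [abs_mul, abs_of_pos l0]
    have := mul_le_mul_of_nonneg_left h1 hη.le
    linarith only [this]
  have g2 := abs_le.1 g1
  have A1 := abs_le.1 A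
  have A2 := abs_le.1 A'
  obtain k : |F 1 t * (η * D)| ≤ (2 * K + 6) * (η * (η * B)) := by
    rw [abs_le]
    constructor <;> linarith only [he, A1.1, A1.2, A2.1, A2.2, c1.1, c1.2, c2.1, c2.2, g2.1, g2.2]
  rw [abs_mul, abs_of_pos l0] at k
  refine le_of_mul_le_mul_left ?_ hη
  linarith only [k]

/-- sizes of the constants -/
theorem num {K : ℕ} {c : Cs} (h : FNum K c) : 10 ^ 6 ≤ c.C0 ∧ Real.sqrt c.a ≤ 1 / 1000 ∧
    0 ≤ c.bl ∧ c.e3 ≤ 1 / 1000 ∧ 10 ^ 6 * (K : ℝ) ^ 3 * ((c.κ + 1) * c.e3) ≤ 1 := by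
  obtain K10 : (10 : ℝ) ≤ K := by exact_mod_cast h.hK
  obtain K3 : (1 : ℝ) ≤ (K : ℝ) ^ 3 := one_le_pow₀ (by linarith only [K10])
  have hκ := h.hκ
  obtain ⟨θ0, θ1⟩ := h.hθ
  obtain a1 : (1 : ℝ) ≤ (K : ℝ) ^ 3 * (c.κ + 1) := one_le_mul_of_one_le_of_one_le K3 (by linarith only [hκ, θ0, θ1])
  have a2 : (1 : ℝ) ≤ (K : ℝ) ^ 3 * (c.κ + 1) * c.CG := one_le_mul_of_one_le_of_one_le a1 h.hG
  obtain a3 : (10 : ℝ) ^ 6 ≤ c.C0 * (1 - c.θb) := by linarith only [a2, h.hC0]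
  obtain C0p : 0 < c.C0 := by
    by_contra hh
    obtain this := mul_nonpos_of_nonpos_of_nonneg (not_lt.1 hh) (show 0 ≤ 1 - c.θb by linarith only [θ1])
    linarith only [θ0, θ1, a3, this]
  obtain C0 : (10 : ℝ) ^ 6 ≤ c.C0 := by nlinarith only [a3, θ0, C0p]
  obtain C1 : 1 ≤ c.C1 := by nlinarith only [K10, θ0, θ1, C0, h.hC1]
  obtain ⟨e0, e1⟩ := h.he
  obtain b1 : (1 : ℝ) ≤ c.C0 * c.C1 := one_le_mul_of_one_le_of_one_le (by linarith only [θ0, θ1, C0]) C1
  obtain b0 : 0 ≤ 10 ^ 6 * (K : ℝ) ^ 3 * ((c.κ + 1) * c.e3) := by positivity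
  obtain b2 : 10 ^ 6 * (K : ℝ) ^ 3 * ((c.κ + 1) * c.e3) ≤ 1 := by
    have := mul_le_mul_of_nonneg_left b1 b0
    linarith only [θ0, e1, this]
  obtain b3 : c.e3 ≤ 1 / 1000 := by
    have := mul_le_mul_of_nonneg_right a1 e0.le
    linarith only [e0, b2, this]
  obtain p1 : c.e3 ^ 25 ≤ 1 := pow_le_one₀ e0.le (by linarith only [e0, b3])
  have p0 : 0 < c.e3 ^ 25 := pow_pos e0 25
  obtain sa : Real.sqrt c.a ≤ 1 / 1000 := by
    obtain this := mul_le_mul_of_nonneg_right (show 1 ≤ c.C0 by linarith only [C0, e0, b3]) (Real.sqrt_nonneg c.a)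
    linarith only [p1, this, h.ha.2]
  obtain M1 : 0 < c.M1 := (pos_iff_pos_of_mul_pos (show 0 < c.M1 * c.e3 ^ 25 by linarith only [C0, e0, b3, h.hM])).2 p0
  obtain β : 0 < c.β := by
    obtain this : 0 < 1000 * c.C0 * c.C1 * c.M1 := by positivity
    exact (pos_iff_pos_of_mul_pos (show 0 < c.β * c.e3 ^ 25 by linarith only [this, h.hβ])).2 p0
  obtain lam : 0 < c.lam := by
    by_contra hh
    have := mul_nonpos_of_nonneg_of_nonpos (Real.sqrt_nonneg c.a) (not_lt.1 hh)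
    linarith only [e0, b3, this, h.hS]
  exact ⟨C0, sa, (mul_pos β lam).le, b3, b2⟩

/-- the numbers of one cell -/
theorem sizes {K : ℕ} {c : Cs} (h : FNum K c) {y V W σ : ℝ} (h1 : 10 ≤ σ) (h2 : σ ≤ 2 * c.e3 * V)
    (h3 : V ≤ y / c.C0 + 1) (h4 : V ≤ (2 * c.κ + 4) * W) :
    100 * (K : ℝ) ^ 2 ≤ W ∧ σ ≤ V ∧ 10 ^ 5 * V ≤ y ∧ Real.sqrt c.a * y ≤ y / 1000 := by
  obtain ⟨C0, sa, -, e1, e2⟩ := num h
  obtain K10 : (10 : ℝ) ≤ K := by exact_mod_cast h.hK
  have e0 := h.he.1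
  have hκ := h.hκ
  obtain V0 : 0 < V := by
    by_contra hh
    have := mul_nonpos_of_nonneg_of_nonpos e0.le (not_lt.1 hh)
    linarith only [h1, h2, e1, e0, this]
  have eV : c.e3 * V ≤ 1 / 1000 * V := mul_le_mul_of_nonneg_right e1 V0.le
  obtain W0 : 0 < W := (pos_iff_pos_of_mul_pos (show 0 < (2 * c.κ + 4) * W by linarith only [h1, h2, h4, e1, e0, eV])).1 (by linarith only [e1, e0, hκ])
  obtain yV : 10 ^ 5 * V ≤ y := by
    obtain a : (V - 1) * c.C0 ≤ y := (le_div_iff₀ (by linarith only [C0, e1, e0])).1 (by linarith only [h3])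
    obtain b : (V - 1) * 10 ^ 6 ≤ (V - 1) * c.C0 := mul_le_mul_of_nonneg_left C0 (by linarith only [h1, h2, e1, e0, eV])
    linarith only [h1, h2, e1, e0, eV, a, b]
  refine ⟨?_, by linarith only [h1, h2, e1, e0, eV], yV, ?_⟩
  · have a : c.e3 * V ≤ c.e3 * ((2 * c.κ + 4) * W) := mul_le_mul_of_nonneg_left h4 e0.le
    obtain b : c.e3 * W * 2 ≤ c.e3 * W * (2 * c.κ) :=
      mul_le_mul_of_nonneg_left (by linarith only [e1, e0, hκ]) (mul_pos e0 W0).le
    obtain d : 1 ≤ (c.κ + 1) * c.e3 * W := by linarith only [h1, h2, e1, e0, a, b]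
    obtain K2 : (0 : ℝ) ≤ (K : ℝ) ^ 2 := by positivity
    have f : (K : ℝ) ^ 2 * 10 ≤ (K : ℝ) ^ 2 * K := mul_le_mul_of_nonneg_left K10 K2
    obtain g := mul_le_mul_of_nonneg_left d (show (0 : ℝ) ≤ 10 ^ 6 * (K : ℝ) ^ 3 by positivity)
    have i := mul_le_mul_of_nonneg_right e2 W0.le
    linarith only [W0, f, g, i]
  · obtain this := mul_le_mul_of_nonneg_right sa (show 0 ≤ y by linarith only [h1, h2, e1, e0, eV, yV])
    linarith only [this]

theorem fin_ineq {K : ℕ} {W : ℝ} (hK : 10 ≤ K) (hW : 100 * (K : ℝ) ^ 2 ≤ W) :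
    (2 * K + 6) * Real.exp (-(W / (3 * K))) ≤
      Real.exp (-(W / (4 * K ^ 2))) ^ (K - 1) / 2 * Real.exp (-K) := by
  obtain K10 : (10 : ℝ) ≤ K := by exact_mod_cast hK
  obtain K0 : (0 : ℝ) < K := by linarith only [K10]
  obtain W0 : 0 ≤ W := le_trans (by positivity) hW
  obtain ⟨x, hx⟩ : ∃ x, x = W / K := ⟨_, rfl⟩
  obtain x1 : 100 * (K : ℝ) ≤ x := by
    rw [hx, le_div_iff₀ K0]; linarith only [hW]
  obtain a : W / (3 * K) = x / 3 := by rw [hx]; field_simp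
  obtain b : ((K - 1 : ℕ) : ℝ) * (W / (4 * K ^ 2)) ≤ x / 4 := by
    obtain b1 : ((K - 1 : ℕ) : ℝ) ≤ K := by exact_mod_cast Nat.sub_le K 1
    obtain b2 : (K : ℝ) * (W / (4 * K ^ 2)) = x / 4 := by rw [hx]; field_simp
    rw [← b2]
    exact mul_le_mul_of_nonneg_right b1 (by (clear * - W0 hK; positivity))
  obtain d : 2 * (2 * (K : ℝ) + 6) ≤ Real.exp (2 * (2 * K + 6)) := by
    linarith only [Real.add_one_le_exp (2 * (2 * (K : ℝ) + 6))]
  obtain e : Real.exp (2 * (2 * K + 6)) * Real.exp (-(W / (3 * K))) ≤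
      Real.exp (-(W / (4 * K ^ 2))) ^ (K - 1) * Real.exp (-K) := by
    rw [← Real.exp_nat_mul, ← Real.exp_add, ← Real.exp_add]
    refine Real.exp_le_exp.2 ?_
    rw [a, mul_neg]
    linarith only [K10, x1, b]
  have := mul_le_mul_of_nonneg_right d (Real.exp_pos (-(W / (3 * K)))).le
  linarith only [e, this]

theorem eta {K : ℕ} {W : ℝ} (hK : 10 ≤ K) (hW : 100 * (K : ℝ) ^ 2 ≤ W) :
    Real.exp (-(W / (3 * K))) < Real.exp (-K) ∧ Real.exp (-(W / (3 * K))) ≤ 7 / 8 := by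
  obtain K10 : (10 : ℝ) ≤ K := by exact_mod_cast hK
  obtain WK3 : 30 * (K : ℝ) ≤ W / (3 * K) := by
    rw [le_div_iff₀ (by linarith only [K10])]; nlinarith only [hW]
  obtain ηK : Real.exp (-(W / (3 * K))) < Real.exp (-K) := Real.exp_lt_exp.2 (by linarith only [K10, WK3])
  obtain b : Real.exp (-(K : ℝ)) * Real.exp K = 1 := by rw [← Real.exp_add]; simp
  obtain d := mul_le_mul_of_nonneg_left (show 11 ≤ Real.exp K by linarith only [K10, Real.add_one_le_exp (K : ℝ)])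
    (Real.exp_pos (-(K : ℝ))).le
  exact ⟨ηK, by linarith only [ηK, b, d]⟩

end FCEL5

open FCEL5 in
theorem cel5 (K : ℕ) (c : Cs) (h5 : SC5_s K c) : CEL5_s K c := by
  intro M sd cx y tU nu lab π C σ k x y0 fam hz
  rcases C.eq_empty_or_nonempty with rfl | ⟨a, ha⟩
  · exact Cov.empty (by positivity)
  have hn := cx.num
  have hK := hn.hK
  obtain K10 : (10 : ℝ) ≤ K := by exact_mod_cast hK
  obtain ⟨W, hW⟩ : ∃ W, W = π.Wr π.top := ⟨_, rfl⟩
  obtain ⟨D, hD⟩ : ∃ D, D = Real.exp (-(k : ℝ)) := ⟨_, rfl⟩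
  obtain ⟨B, hB⟩ : ∃ B, B = Real.exp (π.lw π.top - (W + 1 + 3 * σ)) := ⟨_, rfl⟩
  have D0 : 0 < D := hD ▸ Real.exp_pos _
  have B0 : 0 < B := hB ▸ Real.exp_pos _
  obtain top : ∀ z ∈ C, z.p - z.n = π.top := fun z h => by
    rw [← (fam.gd z h).fe.top, (fam.lvl z h).2.2]
  obtain sc : ∀ z ∈ C, z.Sc5 K c M sd σ W D B k := fun z h => by
    obtain ⟨b, s1, s2, kk, -⟩ := hz z h
    have := h5 M sd cx z σ (fam.gd z h) b s1 s2
    unfold Dat.Sc5At Dat.B5 at this
    rwa [kk, (fam.lvl z h).2.2, top z h, ← hW, ← hD, ← hB] at this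
  rw [← hW, ← hD]
  rw [← hD] at hz
  have sa := sc a ha
  have fe := (fam.gd a ha).fe
  obtain ⟨ya, tUa, pa⟩ := fam.lvl a ha
  obtain ⟨-, s1, s2, -, ta, la⟩ := hz a ha
  obtain σ10 : 10 ≤ σ := by
    obtain l1 : (1 : ℝ) ≤ (a.Lf.length : ℝ) := by
      unfold Dat.Lf; simp
    linarith only [s1, l1, fe.sl.2.2.2]
  have lv := fe.lev.2.1
  rw [ya] at lv
  obtain ⟨WK, σV, Vy, ay⟩ := sizes hn σ10 s2 lv sa.lev.1
  obtain ⟨C0, -, bl, -, -⟩ := num hn
  obtain ent := fe.ent (a.p, a.r) (by unfold Dat.Lf; simp)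
  simp only [pa, top a ha, ← hW] at ent
  obtain ⟨mT, wq0, -, Wle, -, wq1, -⟩ := ent
  obtain WV : W ≤ a.V c M := by
    have := ((fe.ok σ s1).rng π.top (pa ▸ mT)).2.2
    rwa [pa, ← hW] at this
  obtain W0 : 0 ≤ W := le_trans (by positivity) WK
  obtain ay0 : 0 ≤ Real.sqrt c.a * y := mul_nonneg (Real.sqrt_nonneg _) (by linarith only [σ10, σV, Vy])
  obtain ayσ : 30 * (Real.sqrt c.a * y) ≤ σ := by
    have := fe.sl.2.2.1
    rw [ya] at this
    linarith only [s1, this]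
  obtain ⟨δ, hδ⟩ : ∃ δ, δ = c.S0 y * tiny y + tiny y := ⟨_, rfl⟩
  have S1 : 1 ≤ c.S0 y := Real.one_le_exp ay0
  have t0 : 0 < tiny y := Real.exp_pos _
  obtain δ0 : 0 < δ := by rw [hδ]; positivity
  obtain δ1 : δ ≤ Real.exp (1 + Real.sqrt c.a * y - y / 4) := by
    obtain e : Real.exp (1 + Real.sqrt c.a * y - y / 4) = Real.exp 1 * (c.S0 y * tiny y) := by
      unfold Cs.S0 tiny
      rw [← Real.exp_add, ← Real.exp_add]; congr 1; ring
    obtain b : 2 ≤ Real.exp 1 := by linarith only [Real.add_one_le_exp (1 : ℝ)]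
    have d := mul_le_mul_of_nonneg_right S1 t0.le
    obtain f := mul_le_mul_of_nonneg_right b (show 0 ≤ c.S0 y * tiny y by positivity)
    rw [e, hδ]; linarith only [d, f]
  have va := sa.val
  obtain ⟨R, hR⟩ : ∃ R, R = (a.prof c M).Rb c (a.p - a.n) := ⟨_, rfl⟩
  rw [← hR] at va
  have R0 := va.dep.1
  obtain th0 : 0 ≤ c.th := by unfold Cs.th; positivity
  obtain hi : D ≤ Real.exp (-(2 * R) - σ) :=
    va.hi.trans (Real.exp_le_exp.2 (by linarith only [mul_nonneg th0 R0]))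
  obtain DrU : D ≤ c.rU y / 2 := by
    obtain e : c.rU y = Real.exp (-(3 * (Real.sqrt c.a * y))) := by
      unfold Cs.rU Cs.S0
      rw [← Real.exp_nat_mul, one_div, ← Real.exp_neg]; norm_num
    obtain b : 2 ≤ Real.exp 1 := by linarith only [Real.add_one_le_exp (1 : ℝ)]
    obtain d : Real.exp 1 * Real.exp (-(2 * R) - σ) ≤ c.rU y := by
      rw [e, ← Real.exp_add]; exact Real.exp_le_exp.2 (by linarith only [σ10, ayσ, R0])
    have f := mul_le_mul_of_nonneg_right b (Real.exp_pos (-(2 * R) - σ)).le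
    linarith only [hi, d, f]
  obtain δW : δ * Real.exp (a.W c M a.p) ≤ Real.exp (-σ) := by
    refine (mul_le_mul_of_nonneg_right δ1 (Real.exp_pos _).le).trans ?_
    rw [← Real.exp_add]; exact Real.exp_le_exp.2 (by linarith only [σ10, σV, Vy, Wle, WV, ayσ])
  obtain nuJ : |a.nuJ c M sd| ≤ 3 / 2 := by
    obtain ⟨n1, n2⟩ := fam.nu_eq a ha
    obtain b : Real.exp (-c.bl / 4) ≤ 1 := Real.exp_le_one_iff.2 (by linarith only [bl])
    obtain d : 1 / (2 * c.S0 y ^ 2) ≤ 1 / 2 :=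
      one_div_le_one_div_of_le (by norm_num) (by nlinarith only [S1])
    have := abs_add_le (a.nuJ c M sd - nu) nu
    rw [sub_add_cancel] at this
    linarith only [n1, n2, b, d, this]
  obtain ⟨-, xs⟩ := (fam.gd a ha).jf.xi σ a.p D _ R va
  -- the leaves are close
  obtain close : ∀ z ∈ C, ∀ τ, |τ - a.t| ≤ D →
      |z.g c M sd z.p τ - a.g c M sd a.p τ| ≤ 8 * (δ * a.wq M a.p) := fun z h τ hτ => by
    obtain ⟨-, -, -, -, -, lz⟩ := hz z h
    obtain ll : |lab z - lab a| ≤ tiny y := by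
      rw [abs_le]; constructor <;> linarith only [lz.1, lz.2, la.1, la.2]
    obtain τU : |τ - tU| ≤ 3 / 2 * c.rU y := by
      have := abs_add_le (τ - a.t) (a.t - tU)
      rw [sub_add_sub_cancel] at this
      linarith only [tUa, DrU, hτ, this]
    obtain ⟨hv, hc⟩ := (((fam.two z h a ha).2 τ τU).2 0 (by omega))
    rw [iteratedDeriv_zero, iteratedDeriv_zero] at hv hc
    obtain Sl := mul_le_mul_of_nonneg_left ll (show 0 ≤ c.S0 y by linarith only [S1])
    obtain hv' : |(z.seed c M sd).v τ - (a.seed c M sd).v τ| ≤ δ := by linarith only [hδ, hv, Sl]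
    obtain hc' : |(z.seed c M sd).c τ - (a.seed c M sd).c τ| ≤ δ := by linarith only [hδ, hc, Sl]
    obtain bx := (fam.gd z h).fe.sok.jets τ (by
      obtain ⟨yz, tz, -⟩ := fam.lvl z h
      rw [yz]
      rw [abs_le] at tz τU
      constructor <;> linarith only [D0, DrU, tz.1, tz.2, τU.1, τU.2])
    have st := (fam.gd a ha).jf.st σ a.p D _ R δ τ _ _ va
      ⟨hτ, hv', hc', δW, bx.2.2.2.1, bx.2.2.2.2.1⟩
    obtain eg : (M.orb τ 1 ((z.seed c M sd).v τ, (z.seed c M sd).c τ)).X (a.p - a.n)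
        = z.g c M sd z.p τ := by
      unfold Dat.g Seed.orb
      rw [top a ha, top z h]
    rw [eg] at st
    obtain f1 : Real.exp σ * (D * Real.exp (2 * R)) ≤ 1 := by
      have := mul_le_mul_of_nonneg_right hi (Real.exp_pos (2 * R)).le
      refine (mul_le_mul_of_nonneg_left this (Real.exp_pos σ).le).trans_eq ?_
      rw [← Real.exp_add, ← Real.exp_add, Real.exp_eq_one_iff]; ring
    obtain ee : Real.exp σ * Real.exp (-σ) = 1 := by rw [← Real.exp_add]; simp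
    have f2 := mul_le_mul_of_nonneg_left va.nu (Real.exp_pos σ).le
    have f3 := mul_le_mul_of_nonneg_left δW (Real.exp_pos σ).le
    obtain f4 : Real.exp σ * (D * Real.exp (2 * R) +
        (Real.exp (-(W + 1 + 3 * σ)) + δ) * Real.exp (a.W c M a.p)) ≤ 3 := by linarith only [f1, ee, f2, f3]
    have f5 := mul_le_mul_of_nonneg_right f4 (mul_pos δ0 wq0).le
    obtain ⟨u, hu⟩ : ∃ u, u = (z.seed c M sd).v τ - (a.seed c M sd).v τ
      - a.nuJ c M sd * ((z.seed c M sd).c τ - (a.seed c M sd).c τ) := ⟨_, rfl⟩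
    rw [← hu] at st
    obtain u1 : |u| ≤ 5 / 2 * δ := by
      have b := abs_sub ((z.seed c M sd).v τ - (a.seed c M sd).v τ)
        (a.nuJ c M sd * ((z.seed c M sd).c τ - (a.seed c M sd).c τ))
      rw [← hu, abs_mul] at b
      obtain d := mul_le_mul nuJ hc' (abs_nonneg _) (by norm_num)
      linarith only [hδ, hv, Sl, b, d]
    obtain u2 : |u * a.xs c M sd a.p| ≤ 5 / 2 * δ * (2 * a.wq M a.p) := by
      rw [abs_mul]
      exact mul_le_mul u1 xs (abs_nonneg _) (by positivity)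
    have := abs_add_le (z.g c M sd z.p τ - a.g c M sd a.p τ - u * a.xs c M sd a.p)
      (u * a.xs c M sd a.p)
    rw [sub_add_cancel] at this
    linarith only [f5, st, u2, this]
  obtain ⟨η, hη⟩ : ∃ η, η = Real.exp (-(W / (3 * K))) := ⟨_, rfl⟩
  have η0 : 0 < η := hη ▸ Real.exp_pos _
  obtain WK4 : W / (3 * K) ≤ W := div_le_self W0 (by linarith only [K10])
  obtain ⟨ηK, η1⟩ := eta hK WK
  rw [← hη] at ηK η1
  obtain eB : 2 * (8 * (δ * a.wq M a.p)) ≤ η ^ 2 * B := by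
    obtain b : 16 ≤ Real.exp 15 := by linarith only [Real.add_one_le_exp (15 : ℝ)]
    have d := mul_le_mul δ1 wq1 wq0.le (Real.exp_pos _).le
    have f := mul_le_mul b d (mul_pos δ0 wq0).le (Real.exp_pos _).le
    obtain g : Real.exp 15 * (Real.exp (1 + Real.sqrt c.a * y - y / 4) * Real.exp (π.lw π.top + 1))
        ≤ η ^ 2 * B := by
      rw [hη, hB, ← Real.exp_nat_mul, ← Real.exp_add, ← Real.exp_add, ← Real.exp_add]
      refine Real.exp_le_exp.2 ?_
      push_cast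
      linarith only [σ10, σV, Vy, WV, ayσ, η0, WK4, η1]
    linarith only [f, g]
  obtain slow : ∀ z ∈ C, |iteratedDeriv 1 (a.g c M sd a.p) z.t| * D ≤ (2 * K + 6) * (η * B) :=
    fun z h => by
      have sz := sc z h
      obtain ⟨-, -, -, -, tz, -⟩ := hz z h
      refine core (F := fun i => iteratedDeriv i (a.g c M sd a.p))
        (G := fun i => iteratedDeriv i (z.g c M sd z.p)) (a := a.t) (t := z.t) (by omega) D0 B0.le η0 η1
        sa.chain (fun j h1 h2 => (le_Nj h1 h2).trans sa.up) (fun τ hτ => (sa.rem τ hτ).trans sa.up)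
        sz.chain (fun j h1 h2 => (le_Nj h1 h2).trans sz.up) (fun τ hτ => (sz.rem τ hτ).trans sz.up)
        ?_ (fun τ hτ => ?_) eB ?_
      · rw [abs_le]; constructor <;> linarith only [tz.1, tz.2, ta.1, ta.2]
      · simpa only [iteratedDeriv_zero] using close z h τ hτ
      · rw [hη]; simpa only [iteratedDeriv_one] using sz.slow
  obtain N0 : 0 < Nj K (a.g c M sd a.p) a.t D := lt_of_lt_of_le (by positivity) sa.lo
  obtain sub : TW.Win a.t (D / 4) ⊆ TW.Win a.t D := TW.Win_mono (by linarith only [D0])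
  obtain hj : ∃ j, 2 ≤ j ∧ j ≤ K ∧
      Nj K (a.g c M sd a.p) a.t D ≤ |iteratedDeriv j (a.g c M sd a.p) a.t| * D ^ j := by
    obtain ⟨j, j1, j2, hj⟩ := Nj_att N0
    refine ⟨j, ?_, j2, hj⟩
    by_contra hh
    obtain rfl : j = 1 := by omega
    rw [iteratedDeriv_one, pow_one] at hj
    have b := sa.slow
    rw [← hη] at b
    have := mul_lt_mul_of_pos_right ηK B0
    linarith only [hj, b, this, sa.lo]
  obtain ⟨T, hT, hT'⟩ := TW.sublevel (F := fun i => iteratedDeriv i (a.g c M sd a.p)) (K := K)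
    (j1 := 2) (j0 := 1) (t0 := a.t) D0 N0 (sa.chain.mono le_rfl sub) hj
    (fun τ hτ => sa.rem τ (sub hτ)) (by omega) (Real.exp_pos (-(W / (4 * K ^ 2))))
    (Real.exp_le_one_iff.2 (neg_nonpos.2 (by (clear * - W0 hK; positivity))))
  classical
  refine (Cov.of_prod (T.image fun s => s - 2 * (Real.exp (-(W / (4 * K ^ 2))) * D)) {y0}
    (fun z h => ?_) (fun z h => ⟨y0, Finset.mem_singleton_self _, (hz z h).2.2.2.2.2⟩)).mono
    subset_rfl le_rfl le_rfl ?_
  · obtain ⟨-, -, -, -, tz, -⟩ := hz z h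
    obtain ⟨s, hs, h1⟩ := hT' z.t (TW.mem_Win.2 (by
      rw [abs_le]; constructor <;> linarith only [D0, tz.1, tz.2, ta.1, ta.2])) (by
      have b := mul_le_mul_of_nonneg_right (fin_ineq hK WK) B0.le
      obtain d := mul_le_mul_of_nonneg_left sa.lo
        (show 0 ≤ Real.exp (-(W / (4 * K ^ 2))) ^ (K - 1) / 2 by positivity)
      have f := slow z h
      rw [← hη] at b
      rw [pow_one]
      linarith only [b, d, f])
    refine ⟨_, Finset.mem_image_of_mem _ hs, ?_⟩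
    rw [abs_le] at h1
    unfold Dat.tt
    constructor <;> linarith only [h1.1, h1.2]
  · obtain b : (T.image fun s => s - 2 * (Real.exp (-(W / (4 * K ^ 2))) * D)).card ≤ 2 ^ K :=
      Finset.card_image_le.trans (hT.le.trans (Nat.pow_le_pow_right (by norm_num) (Nat.sub_le _ _)))
    rw [Finset.card_singleton, Nat.cast_one, mul_one]
    exact_mod_cast b

end Pool.Agent.MP_9cbfe4_an

end

/-! ### Part FVOLL -/

section

/-! Row VOLL: the target set of a long stage. -/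

namespace Pool.Agent.MP_9cbfe4_an

open Finset MeasureTheory
open Real (exp log sqrt sqrt_nonneg exp_pos exp_le_exp exp_add exp_sub exp_neg add_one_le_exp
  exp_nat_mul)

theorem voll (K : ℕ) (c : Cs) (hNB : NB_s K c) (hSC : SC_s K c) (hCM : CMP_s K c)
    (hR : REL_s K c) (hT : RETD_s K c) (hD : PRD_s c) : VOLL_s K c := by
  classical
  intro M sd X y tU nu lab π C σ w w' k k' Z hk hl a ha
  have hM := X.okk.ok
  have gd := Z.fam.gd
  have hπ : ∀ z ∈ C, z.prof c M = π := fun z hz => (Z.fam.lvl z hz).2.2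
  have prd := hD _ M a π hM (gd a ha).pre (hπ a ha).symm
  obtain ⟨La, La'⟩ := Z.lev a ha
  have Fa := (gd a ha).fe
  have ok : π.OK c σ (a.V c M) := hπ a ha ▸ Fa.ok σ La.s
  have e0 := X.num.he.1
  have V0 : 0 ≤ a.V c M := ok.one.2 ▸ (ok.rng 1 ok.one.1).2.2
  obtain s1 : c.C1 * c.lam ≤ σ := by
    obtain this : 0 ≤ c.e3 ^ 22 * a.V c M := by positivity
    linarith only [this, Fa.sl.1, La.s]
  obtain ⟨l1, s0, n1, n2, n3, n4⟩ := FVOLS.num X.num s1 La.lo
  obtain ⟨nb, nb2⟩ := hNB X.num π σ _ w ok s1 La.lo La.hi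
  replace nb2 := nb2 (Z.hw ▸ La'.hi)
  obtain ⟨r3, r4⟩ := nb2.long hl
  have hx : ¬ π.Cross K c w := fun h => h.1.ne' hl.1
  rw [← Z.hw] at r4
  obtain ww : w' = w + c.io K * w := by rw [Z.hw]; ring
  obtain sc : ∀ z ∈ C, exp (-(k : ℝ)) ≤ exp (-(w / (2 * K))) := fun z hz => by
    have := (hSC M sd X z σ w (gd z hz) (Z.lev z hz).1).small.1
    rwa [(Z.ks z hz).1] at this
  have rel := hR M sd X y tU nu lab π C σ w w' k k' Z
  have jT := nb.mem
  obtain loc : π.LocS K c σ w ≤ w' - w := by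
    refine (ovl_sum π.Ev (π.a c) π.b (w - 6 * σ) prd.2.2.2.2.2.2.1
      ((1 + c.io K) * w - 6 * σ)).trans (max_le (by linarith only [s0, n1, ww]) (by linarith only [ww]))
  set j := π.bs K c w with hj
  set r := π.rr j with hr
  set D := exp (-(k : ℝ)) with hDd
  have D0 : 0 < D := exp_pos _
  obtain U1 : exp (-σ / 3) ≤ c.rU (3 * r) := by
    rw [Cs.rU, Cs.S0, ← exp_nat_mul, one_div, ← exp_neg]
    refine exp_le_exp.2 ?_
    obtain ⟨c0, a1, -⟩ := FCEL5.num X.num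
    have a0 := sqrt_nonneg c.a
    obtain b1 : r ≤ a.y c M / c.C0 + 1 + 2 * σ := by
      have := ok.lev j jT
      have := (ok.lw j jT).1
      have := (ok.rng j jT).2.1
      have := Fa.lev.2.1
      simp only [hr, Prof.rr]; linarith
    obtain b2 : sqrt c.a * (a.y c M / c.C0) ≤ σ / 100 := by
      rw [← mul_div_assoc, div_le_iff₀ (by linarith only [c0])]
      nlinarith only [s0, c0, Fa.sl.2.2.1, La.s]
    have b3 := mul_le_mul_of_nonneg_left b1 a0
    push_cast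
    nlinarith only [s0, a1, b2, b3]
  obtain U2 : D ≤ c.rU (3 * r) :=
    ((sc a ha).trans (exp_le_exp.2 (by linarith only [s0, n2]))).trans U1
  obtain dp : ∀ z ∈ C, z.toFd.Deep c (Ex2 K c M) M (z.n + j) r := fun z hz => by
    have := (gd z hz).fe.deep j (by rwa [hπ z hz]) (by rwa [hπ z hz])
    rwa [hπ z hz] at this
  obtain cf : ∀ z ∈ C, z.cf c M sd j = z.toFd.crt c M sd (z.n + j) r := fun z hz => by
    unfold Dat.cf
    rw [hπ z hz, if_pos r3]
  obtain E1 : exp (-r) ≤ exp (σ + 2 + π.lw j - w') := exp_le_exp.2 (by linarith only [r4])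
  obtain d1 : ∀ z ∈ C, ∀ t, |t - z.t| ≤ D →
      |a.cf c M sd j t - z.cf c M sd j t| ≤ exp (-r) := fun z hz t ht => by
    rw [cf a ha, cf z hz]
    have tt : |z.t - a.t| ≤ D / 8 := Z.tt _ hz _ ha
    exact (hT _ M sd hM X.seeds _ _ _ (dp a ha)).2.2.2 _ _ (dp z hz) (by simp)
      (tt.trans (by linarith only [D0, U2])) (fun i i1 i2 => (((rel a ha).2 z hz).1 i i1 i2).trans U1) t
      (ht.trans U2)
  refine ⟨?_, fun z hz τ hτ => ?_⟩
  · set ρ := exp (π.lw j - w' + 6 * σ - 1) with hρ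
    obtain g1 : 11 * exp (σ + 2 + π.lw j - w') ≤ ρ := by
      rw [hρ, show π.lw j - w' + 6 * σ - 1 = (5 * σ - 3) + (σ + 2 + π.lw j - w') by ring,
        exp_add (5 * σ - 3)]
      gcongr; linarith only [s0, add_one_le_exp (5 * σ - 3)]
    obtain sub : (⋃ z ∈ C, Metric.closedBall (a.tg c M sd j z) ρ) ⊆ Metric.closedBall 0 (2 * ρ) := by
      intro x hx'
      simp only [Set.mem_iUnion, Metric.mem_closedBall, Real.dist_eq, sub_zero] at hx' ⊢
      obtain ⟨z, hz, hx'⟩ := hx'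
      have g2 := d1 z hz z.t (by simpa using D0.le)
      obtain g3 : |(z.S M).X (z.n + j) - z.cf c M sd j z.t| ≤ 10 * exp (-r) := by
        rw [cf z hz]; exact (hT _ M sd hM X.seeds _ _ _ (dp z hz)).2.2.1
      unfold Dat.tg at hx'
      rw [abs_le] at hx' g2 g3 ⊢
      constructor <;> linarith only [E1, g1, hx'.1, hx'.2, g2.1, g2.2, g3.1, g3.2]
    refine (measure_mono sub).trans ?_
    rw [Real.volume_closedBall]
    refine ENNReal.ofReal_le_ofReal ?_
    calc _ = 4 * ρ := by ring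
      _ ≤ exp (σ + 1) * ρ := by gcongr; linarith only [s0, add_one_le_exp (σ + 1)]
      _ ≤ _ := by rw [hρ, ← exp_add]; exact exp_le_exp.2 (by linarith only [loc])
  · obtain ⟨Lz, Lz'⟩ := Z.lev z hz
    obtain ⟨k1, k2⟩ := Z.ks z hz
    have cm := (hCM M sd X z σ w w' (gd z hz) Z.hw Lz Lz').2 (by
      unfold Dat.Waste
      rw [hπ z hz, k1]
      exact not_or.2 ⟨hk, hx⟩)
    rw [hπ z hz, k1, k2] at cm
    obtain kk : exp (-(k' : ℝ)) ≤ D := exp_le_exp.2 (neg_le_neg (by exact_mod_cast cm.1))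
    have k0 := exp_pos (-(k' : ℝ))
    have g1 := cm.2 τ (by linarith only [hτ, k0])
    have g2 := d1 z hz τ (by linarith only [D0, hτ, kk])
    have g3 := d1 z hz z.t (by simpa using D0.le)
    have g4 := (rel z hz).1
    obtain g5 : exp (π.lw j - w') ≤ exp (2 * σ + π.lw j - w') := exp_le_exp.2 (by linarith only [s0])
    obtain g7 : exp (σ + 2 + π.lw j - w') ≤ exp (2 * σ + π.lw j - w') := exp_le_exp.2 (by linarith only [s0])
    obtain g6 : 4 * exp (2 * σ + π.lw j - w') ≤ exp (3 * σ + π.lw j - w') := by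
      rw [show 3 * σ + π.lw j - w' = σ + (2 * σ + π.lw j - w') by ring, exp_add σ]
      gcongr; linarith only [s0, add_one_le_exp σ]
    unfold Dat.ph at g1
    unfold Dat.tg
    rw [abs_le] at g1 g2 g3 g4 ⊢
    constructor <;> linarith only [E1, g5, g7, g6, g1.1, g1.2, g2.1, g2.2, g3.1, g3.2, g4.1, g4.2]

end Pool.Agent.MP_9cbfe4_an

end

/-! ### Part FREG -/

section

/-! Row REG of section F: one regular stage. -/

namespace Pool.Agent.MP_9cbfe4_an
open Finset MeasureTheory Real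

namespace FREG

theorem two_pow_le (n : ℕ) : (2 : ℝ) ^ n ≤ exp n := by
  obtain h : (2 : ℝ) ≤ exp 1 := by linarith only [add_one_le_exp (1 : ℝ)]
  obtain this := pow_le_pow_left₀ (by norm_num) h n
  rwa [← exp_nat_mul, mul_one] at this

theorem le_exp {x y : ℝ} (h : x ≤ y) : x ≤ exp y := by linarith only [h, add_one_le_exp y]

open Classical in
theorem core {Z : Type} {t lab dlf tg : Z → ℝ} {C : Set Z} {F : ℕ → ℝ → ℝ} {K i : ℕ}
    {xs x D D' σ lw w w' Loc θ dd l' S0 ty : ℝ} (hK : 10 ≤ K) (hσ : 10 * (K : ℝ) ≤ σ)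
    (hD' : 0 < D') (hD : D' ≤ D) (hC : ∀ z ∈ C, t z ∈ Set.Icc x (x + D / 8))
    (i1 : 1 ≤ i) (iK : i ≤ K) (hF : DChain F i (Set.Icc (x - D / 8) (x + 2 * (D / 8))))
    (hlo : ∀ τ ∈ Set.Icc (x - D / 8) (x + 2 * (D / 8)), exp (-K) * exp (lw - w) / 2 ≤ |F i τ| * D ^ i)
    (hvol : volume (⋃ z ∈ C, Metric.closedBall (tg z) (exp (lw - w' + 6 * σ - 1)))
      ≤ ENNReal.ofReal (exp (7 * σ + lw - w - Loc)))
    (hz : ∀ z ∈ C, ∀ τ, |τ - t z| ≤ D' / 8 →
      |F 0 τ + dlf z * xs - tg z| ≤ exp (lw - w') + exp (3 * σ + lw - w'))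
    (hdl : ∀ z ∈ C, ∀ z' ∈ C, |dlf z - dlf z' - (lab z - lab z')| ≤ |lab z - lab z'| / 50 + 2 * ty)
    (hty : ty ≤ exp (-w') / 100) (x1 : exp lw / 2 ≤ |xs|) (x2 : |xs| ≤ 2 * exp (lw + 1))
    (hS : S0 ≤ exp σ)
    (hr : (θ = 1 ∧ 0 ≤ dd ∧ l' = exp (-w')) ∨ (θ = 0 ∧ dd = 0 ∧ 0 < l' ∧ l' ≤ exp (-w')))
    (hcov : CovI (lab '' C) (S0 * exp (dd * (w' - w))) l') :
    Cov t lab C (D' / 8) l' (exp (20 * σ + θ * (w' - w - Loc) + (dd * (w' - w) - Loc) / K)
      * (D / D')) := by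
  obtain K0 : (10 : ℝ) ≤ K := by exact_mod_cast hK
  have D0 : 0 < D := hD'.trans_le hD
  obtain hl : 0 < l' ∧ l' ≤ exp (-w') := by
    rcases hr with ⟨-, -, h⟩ | ⟨-, -, h⟩
    · exact ⟨h ▸ exp_pos _, h.le⟩
    · exact h
  obtain ⟨T, hT, hTc⟩ := hcov
  obtain ⟨G, hG, hGz, sep, hGc⟩ := grid_cover hl.1 T hTc
  obtain hex : ∀ y ∈ G, ∃ z ∈ C, lab z ∈ Set.Icc y (y + l') := fun y hy => by
    obtain ⟨_, ⟨z, hz1, rfl⟩, hz2⟩ := hGz y hy
    exact ⟨z, hz1, hz2⟩
  choose! zz hz1 hz2 using fun (y : G) => hex y.1 y.2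
  set sh : ℝ → ℝ := fun y => if h : y ∈ G then dlf (zz ⟨y, h⟩) * xs else 0 with hsh
  obtain hsh' : ∀ y ∈ G, ∃ z ∈ C, lab z ∈ Set.Icc y (y + l') ∧ sh y = dlf z * xs := fun y hy =>
    ⟨zz ⟨y, hy⟩, hz1 _, hz2 ⟨y, hy⟩, by simp [hsh, hy]⟩
  obtain hcard : (G.card : ℝ) ≤ 2 * (exp σ * exp (dd * (w' - w))) := by
    obtain h1 : (G.card : ℝ) ≤ 2 * T.card := by exact_mod_cast hG
    have h2 := mul_le_mul_of_nonneg_right hS (exp_pos (dd * (w' - w))).le
    linarith only [hT, h1, h2]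
  set B := exp (lw - w') with hB
  have B0 : 0 < B := exp_pos _
  obtain eB : exp lw * exp (-w') = B := by rw [← exp_add]; rfl
  obtain e4 : exp (4 * σ + lw - w') = exp σ * exp (3 * σ) * B := by
    rw [hB, ← exp_add, ← exp_add]; congr 1; ring
  obtain e3 : exp (3 * σ + lw - w') = exp (3 * σ) * B := by rw [hB, ← exp_add]; congr 1; ring
  obtain e6 : exp (lw - w' + 6 * σ - 1) = exp (2 * σ - 1) * exp (4 * σ + lw - w') := by
    rw [← exp_add]; congr 1; ring
  obtain s1 : 100 ≤ exp σ := le_exp (by linarith only [hσ, K0])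
  obtain s3 : 100 ≤ exp (3 * σ) := le_exp (by linarith only [hσ, K0])
  obtain s2 : 2 ≤ exp (2 * σ - 1) := le_exp (by linarith only [hσ, K0])
  obtain r1 : B ≤ exp (4 * σ + lw - w') := exp_le_exp.2 (by linarith only [hσ, K0])
  obtain r2 : exp (4 * σ + lw - w') + B ≤ exp (lw - w' + 6 * σ - 1) := by
    have := mul_le_mul_of_nonneg_right s2 (exp_pos (4 * σ + lw - w')).le
    rw [e6]; linarith only [r1, this]
  set E : Set ℝ := ⋃ z ∈ C, Metric.closedBall (tg z) (exp (4 * σ + lw - w')) with hE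
  obtain hEv : volume E ≤ ENNReal.ofReal (exp (7 * σ + lw - w - Loc)) :=
    (measure_mono (Set.iUnion₂_mono fun z _ => Metric.closedBall_subset_closedBall
      (by linarith only [B0, r2]))).trans hvol
  obtain hm : ∀ u : ℝ, ((G.filter fun y => u + sh y ∈ E).card : ℝ) ≤
      exp (8 * σ + θ * (w' - w - Loc)) := fun u => by
    rcases hr with ⟨h1, -, h3⟩ | ⟨h1, h2, -⟩
    · have m := mult_le (G.filter fun y => u + sh y ∈ E) (fun y => u + sh y) (ρ := B / 8) hl.1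
        (by positivity) (exp_pos _).le
        (fun y hy y' hy' => sep y (mem_filter.1 hy).1 y' (mem_filter.1 hy').1)
        (fun y hy y' hy' hp => by
          obtain ⟨z, a1, a2, a3⟩ := hsh' y (mem_filter.1 hy).1
          obtain ⟨z', b1, b2, b3⟩ := hsh' y' (mem_filter.1 hy').1
          rw [a3, b3, show u + dlf z * xs - (u + dlf z' * xs) = (dlf z - dlf z') * xs by ring,
            abs_mul, ← eB, ← h3] at hp
          have c1 := mul_le_mul_of_nonneg_left x1 (abs_nonneg (dlf z - dlf z'))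
          obtain c2 : |dlf z - dlf z'| ≤ l' / 4 :=
            le_of_mul_le_mul_right (by linarith only [hp, c1]) (exp_pos lw)
          have c3 := hdl z a1 z' b1
          have c4 := abs_sub_abs_le_abs_sub (lab z - lab z') (dlf z - dlf z')
          rw [abs_sub_comm (lab z - lab z')] at c4
          obtain c5 : |lab z - lab z'| ≤ l' := by rw [← h3] at hty; linarith only [hty, c2, c3, c4, hl.1]
          have c6 := abs_le.1 c5
          rw [abs_le]
          constructor <;> linarith only [a2.1, a2.2, b2.1, b2.2, c6.1, c6.2, hl.1])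
        (fun y hy => by
          obtain ⟨z, a1, a2⟩ := Set.mem_iUnion₂.1 (mem_filter.1 hy).2
          refine (Metric.closedBall_subset_closedBall' ?_).trans (Set.subset_biUnion_of_mem
            (u := fun z => Metric.closedBall (tg z) (exp (lw - w' + 6 * σ - 1))) a1)
          have := Metric.mem_closedBall.1 a2
          linarith only [B0, r2, this]) hvol
      refine m.trans ?_
      rw [div_le_iff₀ (by positivity), h1]
      obtain e : exp (8 * σ + 1 * (w' - w - Loc)) * B = exp σ * exp (7 * σ + lw - w - Loc) := by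
        rw [hB, ← exp_add, ← exp_add]; congr 1; ring
      have := mul_le_mul_of_nonneg_right s1 (exp_pos (7 * σ + lw - w - Loc)).le
      have := exp_pos (7 * σ + lw - w - Loc)
      linarith
    · obtain a1 : ((G.filter fun y => u + sh y ∈ E).card : ℝ) ≤ G.card := by
        exact_mod_cast card_filter_le _ _
      rw [h2, zero_mul, exp_zero, mul_one] at hcard
      obtain e : exp (8 * σ + θ * (w' - w - Loc)) = exp (7 * σ) * exp σ := by
        rw [h1, ← exp_add]; congr 1; ring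
      obtain a2 : 2 ≤ exp (7 * σ) := le_exp (by linarith only [hσ, K0])
      have := mul_le_mul_of_nonneg_right a2 (exp_pos σ).le
      linarith only [hcard, a1, e, this]
  have R := reg_stage (t := t) (lab := lab) (C := C) (h := D / 8) (h' := D' / 8) (d' := l')
    (L0 := exp (-K) * exp (lw - w) / (2 * 8 ^ K)) i1 iK (by positivity) (by linarith only [hD]) hC hF
    (by positivity) (fun τ hτ => by
      have a1 := hlo τ hτ
      obtain a2 : (8 : ℝ) ^ i ≤ 8 ^ K := pow_le_pow_right₀ (by norm_num) iK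
      rw [div_le_iff₀ (by positivity), div_le_iff₀ (by positivity), div_pow]
      obtain a3 : 1 ≤ (8 : ℝ) ^ K / 8 ^ i := (one_le_div (by positivity)).2 a2
      obtain a4 := mul_le_mul_of_nonneg_left a3 (show 0 ≤ |F i τ| * D ^ i by positivity)
      calc _ ≤ 2 * (|F i τ| * D ^ i * (8 ^ K / 8 ^ i)) := by linarith only [a1, a4]
        _ = _ := by ring)
    (exp_pos _) hEv G sh (exp_pos _).le hm fun z hzC => by
      obtain ⟨y, hy, hy2⟩ := Set.mem_iUnion₂.1 (hGc ⟨z, hzC, rfl⟩)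
      refine ⟨y, hy, hy2, fun τ hτ => Set.mem_iUnion₂.2 ⟨z, hzC, ?_⟩⟩
      obtain ⟨z', a1, a2, a3⟩ := hsh' y hy
      obtain c1 : |lab z' - lab z| ≤ exp (-w') := by
        rw [abs_le]; constructor <;> linarith only [a2.1, a2.2, hy2.1, hy2.2, hl.2]
      have c2 := hdl z' a1 z hzC
      have c3 := abs_sub_abs_le_abs_sub (dlf z' - dlf z) (lab z' - lab z)
      obtain c4 : |dlf z' - dlf z| ≤ 2 * exp (-w') := by linarith only [hty, hl, c1, c2, c3, exp_pos (-w')]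
      obtain c5 : exp (lw + 1) ≤ 3 * exp lw := by
        rw [exp_add, mul_comm]
        exact mul_le_mul_of_nonneg_right (by linarith only [exp_one_lt_d9]) (exp_pos _).le
      obtain c6 : |(dlf z' - dlf z) * xs| ≤ 2 * exp (-w') * (6 * exp lw) := by
        rw [abs_mul]
        exact mul_le_mul c4 (by linarith only [x2, c5]) (abs_nonneg _) (by positivity)
      have c7 := hz z hzC τ hτ
      rw [Metric.mem_closedBall, Real.dist_eq, a3, show F 0 τ + dlf z' * xs - tg z =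
        (F 0 τ + dlf z * xs - tg z) + (dlf z' - dlf z) * xs by ring]
      refine (abs_add_le _ _).trans ?_
      obtain c8 := mul_le_mul_of_nonneg_right s1 (show 0 ≤ exp (3 * σ) * B by positivity)
      have c9 := mul_le_mul_of_nonneg_right s3 B0.le
      rw [e4]; rw [e3] at c7
      linarith only [B0, eB, c6, c7, c8, c9]
  refine R.mono subset_rfl le_rfl le_rfl ?_
  obtain n1 : (2 : ℝ) ^ (K + 10) ≤ exp (2 * σ) :=
    (two_pow_le _).trans (exp_le_exp.2 (by push_cast; linarith only [hσ, K0]))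
  obtain n2 : (G.card : ℝ) * exp (7 * σ + lw - w - Loc) / (exp (-K) * exp (lw - w) / (2 * 8 ^ K)) ≤
      exp (9 * σ + (dd * (w' - w) - Loc)) := by
    obtain a1 : (8 : ℝ) ^ K ≤ exp (3 * K) := by
      have := two_pow_le (3 * K)
      rw [pow_mul] at this
      norm_num at this
      exact this
    obtain a2 : (4 : ℝ) ≤ exp K := le_exp (by linarith only [K0])
    obtain a3 := mul_le_mul a2 a1 (by positivity) (exp_pos _).le
    obtain a4 : exp K * exp (3 * K) * (exp σ * exp (dd * (w' - w)) * exp (7 * σ + lw - w - Loc)) ≤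
        exp (9 * σ + (dd * (w' - w) - Loc)) * (exp (-K) * exp (lw - w)) := by
      simp only [← exp_add]
      exact exp_le_exp.2 (by linarith only [hσ, K0])
    obtain a5 := mul_le_mul_of_nonneg_right a3
      (show 0 ≤ exp σ * exp (dd * (w' - w)) * exp (7 * σ + lw - w - Loc) by positivity)
    obtain a6 := mul_le_mul_of_nonneg_right hcard
      (show 0 ≤ exp (7 * σ + lw - w - Loc) * (2 * 8 ^ K) by positivity)
    rw [div_le_iff₀ (by positivity), ← mul_div_assoc, le_div_iff₀ (by positivity)]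
    linarith only [a4, a5, a6]
  obtain n3 := rpow_le_rpow (by (clear * -; positivity)) n2 (show 0 ≤ 1 / (K : ℝ) by positivity)
  rw [← exp_mul] at n3
  obtain n4 : (9 * σ + (dd * (w' - w) - Loc)) * (1 / (K : ℝ)) ≤ σ + (dd * (w' - w) - Loc) / K := by
    obtain a1 : 9 * σ / K ≤ σ := by
      rw [div_le_iff₀ (by linarith only [K0])]; nlinarith only [K0, hσ]
    calc _ = 9 * σ / K + (dd * (w' - w) - Loc) / K := by ring
      _ ≤ _ := by linarith only [a1]
  obtain n5 := mul_le_mul (mul_le_mul_of_nonneg_right n1 (exp_pos (8 * σ + θ * (w' - w - Loc))).le)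
    (n3.trans (exp_le_exp.2 n4)) (by (clear * -; positivity)) (by positivity)
  rw [show D / 8 / (D' / 8) = D / D' by field_simp]
  refine mul_le_mul_of_nonneg_right (n5.trans ?_) (by positivity)
  simp only [← exp_add]
  exact exp_le_exp.2 (by linarith only [hσ, K0])

/-- sizes of the slack -/
theorem slack {K : ℕ} {c : Cs} (h : FNum K c) : 4 ≤ c.C0 ∧ 10 * (K : ℝ) ≤ c.C1 * c.lam := by
  obtain K0 : (10 : ℝ) ≤ K := by exact_mod_cast h.hK
  obtain a1 : (1 : ℝ) ≤ (K : ℝ) ^ 3 := one_le_pow₀ (by linarith only [K0])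
  obtain a2 : 1 ≤ (K : ℝ) ^ 3 * (c.κ + 1) := one_le_mul_of_one_le_of_one_le a1 (by linarith only [h.hκ])
  have a3 := one_le_mul_of_one_le_of_one_le a2 h.hG
  have a4 := h.hC0
  obtain ⟨t0, t1⟩ := h.hθ
  obtain a5 : 4 ≤ c.C0 := by
    by_contra hn
    obtain this : c.C0 * (1 - c.θb) ≤ 4 * (1 - c.θb) :=
      mul_le_mul_of_nonneg_right (not_le.1 hn).le (by linarith only [t1])
    linarith only [a3, a4, t0, t1, this]
  obtain l0 : 0 < c.lam := by
    by_contra hn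
    have := mul_nonpos_of_nonneg_of_nonpos (sqrt_nonneg c.a) (not_lt.1 hn)
    linarith only [t0, t1, this, h.hS]
  obtain l1 : 1 ≤ c.lam := by linarith only [t0, t1, log_le_sub_one_of_pos l0, h.hl.2]
  obtain a6 : 10 * (K : ℝ) ≤ c.C1 := by nlinarith only [K0, t0, t1, a5, h.hC1]
  exact ⟨a5, a6.trans (le_mul_of_one_le_right (by linarith only [K0, t0, t1, a6]) l1)⟩

end FREG

theorem reg (K : ℕ) (c : Cs) : NB_s K c → SC_s K c → CMP_s K c → ZON_s K c → VOLS_s K c →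
    VOLL_s K c → REG_s K c := by
  intro _ hSC hCMP hZ hVS hVL M sd ctx y tU nu lab pf C σ w w' k k' Z hk hcr x θ dd l' hx hr hcov
  rcases C.eq_empty_or_nonempty with rfl | ⟨a, ha⟩
  · exact Cov.empty (by positivity)
  have gd := Z.fam.gd a ha
  obtain ⟨ey, -, ep⟩ := Z.fam.lvl a ha
  obtain ⟨lv, lv'⟩ := Z.lev a ha
  obtain ⟨ek, ek'⟩ := Z.ks a ha
  have sc := hSC M sd ctx a σ w gd lv
  unfold Dat.ScAt at sc
  rw [ek, ep] at sc
  obtain kk : k ≤ k' := by
    obtain this := ((hCMP M sd ctx a σ w w' gd Z.hw lv lv').2 (by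
      unfold Dat.Waste; rw [ek, ep]; exact fun h => h.elim hk hcr)).1
    rwa [ek, ek'] at this
  obtain hD : exp (-(k' : ℝ)) ≤ exp (-(k : ℝ)) :=
    exp_le_exp.2 (neg_le_neg (by exact_mod_cast kk))
  have D0 := exp_pos (-(k : ℝ))
  obtain vc : VolC K c M sd pf C σ w w' k' a := by
    by_cases hL : pf.Long K c w
    · exact hVL M sd ctx y tU nu lab pf C σ w w' k k' Z hk hL a ha
    · exact hVS M sd ctx y tU nu lab pf C σ w w' k k' Z hk hcr hL a ha
  obtain fr := (sc.free (by rw [ep]; exact hk)).1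
  have N0 := (mul_pos (exp_pos _) (exp_pos _)).trans_le fr
  obtain ⟨i, i1, iK, hlo, -⟩ := work_window (j0 := 1) D0 N0 sc.chain
    (fun j h1 h2 => le_Nj h1 h2) (Nj_att N0) sc.rem
  obtain ⟨xa1, xa2⟩ := hx a ha
  obtain sub : Set.Icc (x - exp (-(k : ℝ)) / 8) (x + 2 * (exp (-(k : ℝ)) / 8)) ⊆
      Set.Icc (a.t - exp (-(k : ℝ)) / 4) (a.t + exp (-(k : ℝ)) / 4) :=
    Set.Icc_subset_Icc (by linarith only [xa2]) (by linarith only [xa1])
  obtain ⟨C0, sl⟩ := FREG.slack ctx.num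
  obtain ⟨f1, -, f3, f4⟩ := gd.fe.sl
  obtain ⟨v1, v2, -⟩ := gd.fe.lev
  rw [ey] at f3 v1 v2
  obtain K0 : (10 : ℝ) ≤ K := by exact_mod_cast ctx.num.hK
  have e0 := ctx.num.he.1
  obtain s0 : 0 ≤ σ := by
    have : (0 : ℝ) ≤ a.Lf.length := Nat.cast_nonneg _
    linarith only [f4, lv.s]
  have w0 : 0 ≤ w' := (mul_nonneg_iff_of_pos_left e0).1 (s0.trans lv'.lo)
  obtain V0 : 0 ≤ c.e3 ^ 22 * a.V c M := mul_nonneg (by positivity) (by linarith only [s0, w0, lv'.hi])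
  obtain hσ : 10 * (K : ℝ) ≤ σ := by linarith only [sl, f1, V0, lv.s]
  obtain hy : y / c.C0 ≤ y / 4 := by
    obtain this : 0 < y / c.C0 := by linarith only [v2, K0, w0, hσ, lv'.hi]
    obtain y0 : 0 < y := (div_pos_iff_of_pos_right (by linarith only [C0])).1 this
    exact div_le_div_of_nonneg_left y0.le (by norm_num) C0
  obtain y0 : 0 ≤ y := by linarith only [v2, K0, w0, hσ, hy, lv'.hi]
  obtain hty : tiny y ≤ exp (-w') / 100 := by
    obtain a1 : exp (-y / 4) * exp σ ≤ exp (-w') := by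
      rw [← exp_add]; exact exp_le_exp.2 (by linarith only [v2, K0, hσ, hy, lv'.hi])
    obtain a2 := mul_le_mul_of_nonneg_left (FREG.le_exp (show (100 : ℝ) ≤ σ by linarith only [K0, hσ]))
      (exp_pos (-y / 4)).le
    unfold tiny; linarith only [a1, a2]
  obtain hS : c.S0 y ≤ exp σ := by
    have := mul_nonneg (sqrt_nonneg c.a) y0
    exact exp_le_exp.2 (by linarith only [f3, K0, hσ, lv.s])
  obtain ⟨r, hr'⟩ := sc.val.free
  obtain ⟨-, -, -, -, q1, q2, -⟩ := gd.fe.ent _ hr'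
  rw [ep, add_sub_cancel_left] at q1 q2
  obtain ⟨x1, x2⟩ := gd.jf.xi _ _ _ _ _ sc.val
  obtain ⟨z1, z2⟩ : (∀ z ∈ C, _) ∧ ∀ z ∈ C, _ :=
    ⟨fun z hz => (hZ M sd ctx y tU nu lab pf C σ w w' k k' Z a ha z hz).1,
      fun z hz => (hZ M sd ctx y tU nu lab pf C σ w w' k k' Z a ha z hz).2⟩
  refine FREG.core (F := fun i => iteratedDeriv i (a.ph c M sd (pf.bs K c w)))
    (dlf := a.dl c M sd) (xs := a.xs c M sd (a.n + pf.bs K c w)) ctx.num.hK hσ (exp_pos _) hD hx i1 iK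
    (sc.chain.mono (by omega) (sub.trans (Set.Icc_subset_Icc (by linarith only [D0]) (by linarith only [D0]))))
    (fun τ hτ => by linarith only [fr, hlo τ (sub hτ)]) vc.1 (fun z hz τ hτ => ?_) z2 hty (by linarith only [q1, x1])
    (by linarith only [q2, x2]) hS hr hcov
  obtain ⟨b1, b2⟩ := hx z hz
  have b3 := abs_le.1 (show |τ - z.t| ≤ _ from hτ)
  obtain b4 := abs_le.1 (z1 z hz τ (by rw [abs_le]; constructor <;> linarith only [hD, D0, xa2, b1, xa1, b2, b3.1, b3.2]))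
  have b5 := abs_le.1 (vc.2 z hz τ hτ)
  simp only [iteratedDeriv_zero, Dat.ph]
  rw [abs_le]
  constructor <;> linarith only [b4.1, b4.2, b5.1, b5.2]

end Pool.Agent.MP_9cbfe4_an

end
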