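import Pool.Agent.MP_9cbfe4_an.M23

set_option linter.all false

attribute [-instance] AddQuantale.instAddLeftMono IdemSemiring.toCanonicallyOrderedAdd
  NumberField.to_charZero AddQuantale.instAddRightMono IdemSemiring.toMulLeftMono RKHS.instFunLike
  Quantale.instMulRightMono Quantale.instMulLeftMono IsOrderedCancelMonoid.toIsOrderedMonoid
  LinearOrderedCommMonoidWithZero.toPosMulStrictMono
  Group.IsPerfect.subsingleton_of_isMulCommutative CanonicallyOrderedAdd.toMulLeftMono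
  Valued.toUniformSpace IdemSemiring.toMulRightMono TotallySeparatedSpace.t2Space
  LinearOrderedCommMonoidWithZero.toIsOrderedMonoid IsScalarTower.complexToReal
  Order.Coframe.toCompleteLattice OmegaCompletePartialOrder.toPartialOrder Invertible.toNeZero
  GrpTypeEquivalenceGrp.grpGroup littleWedderburn CanonicallyOrderedMul.toMulLeftMono
  CoalgHomClass.toSemilinearMapClass TestFunctionClass.toDFunLike
  ContDiffMapSupportedInClass.toDFunLike Order.Frame.toCompleteLattice RightPreLieAlgebra.toModule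
  CategoryTheory.Limits.Concrete.instUniqueToTypeTerminal LeftPreLieAlgebra.toModule
  CStarAlgebra.instOrderClosedTopology IdemSemiring.toSemiring
  LieAdmissibleRing.toNonUnitalNonAssocRing NonUnitalAlgSemiHomClass.toDistribMulActionSemiHomClass
  CStarAlgebra.toNormedRing

/-! ### Part FZON -/

section

/-! Row ZON of section F: static leaves. -/

namespace Pool.Agent.MP_9cbfe4_an

open Finset Filter Topology
open Real

namespace FZON

theorem pr' {a b : ℝ} (h : 0 < a * b) (hb : 0 ≤ b) : 0 < a := pos_of_mul_pos_left h hb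
theorem pl' {a b : ℝ} (h : 0 < a * b) (ha : 0 ≤ a) : 0 < b := pos_of_mul_pos_right h ha

theorem nums {K : ℕ} {c : Cs} (N : FNum K c) : 4 ≤ c.C0 ∧ 1 ≤ c.C1 ∧ 100 * c.e3 ≤ c.io K ∧
    1 ≤ c.lam ∧ 0 ≤ c.bl := by
  obtain K10 : (10 : ℝ) ≤ K := by exact_mod_cast N.hK
  have hκ := N.hκ
  have hG := N.hG
  have θ0 := N.hθ.1
  have θ1 := N.hθ.2
  have e0 := N.he.1
  obtain a1 : (10 : ℝ) ^ 6 * 10 ^ 3 * 1 * 1 ≤ 10 ^ 6 * (K : ℝ) ^ 3 * (c.κ + 1) * c.CG := by
    gcongr; linarith only [hκ, θ0, θ1]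
  obtain C0 : 0 < c.C0 := pr' (b := 1 - c.θb) (by linarith only [θ0, θ1, a1, N.hC0]) (by linarith only [θ1])
  obtain C4 : 4 ≤ c.C0 := by nlinarith only [θ1, a1, θ0, C0, N.hC0]
  obtain C1 : 1 ≤ c.C1 := by nlinarith only [K10, θ0, θ1, C4, N.hC1]
  obtain a2 : 2000 * (K : ℝ) ^ 1 * 1 * c.C0 * 1 * c.e3 ≤
      10 ^ 6 * (K : ℝ) ^ 3 * (c.κ + 1) * c.C0 * c.C1 * c.e3 := by
    gcongr <;> linarith only [θ0, θ1, K10, hκ]
  obtain l0 : 0 < c.lam := pl' (by linarith only [θ0, θ1, N.hS]) (sqrt_nonneg c.a)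
  obtain M0 : 0 < c.M1 := pr' (by linarith only [θ0, θ1, C4, N.hM]) (pow_pos e0 25).le
  obtain β0 : 0 < c.β := pr'
    (lt_of_lt_of_le (by positivity) N.hβ) (pow_pos e0 25).le
  refine ⟨C4, C1, ?_, by linarith only [θ0, θ1, log_le_sub_one_of_pos l0, N.hl.2], (mul_pos β0 l0).le⟩
  unfold Cs.io Cs.th
  rw [div_div, le_div_iff₀ (by positivity)]
  linarith only [θ0, a2, N.he.2]

theorem inc {f g : ℝ → ℝ} {n : ℕ} {a b r t D δ τ : ℝ} (hn : n ≠ 0)
    (hf : ContDiffOn ℝ n f (Set.Ioo (a - r) (a + r))) (hg : ContDiffOn ℝ n g (Set.Ioo (b - r) (b + r)))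
    (h : ∀ s, |s - t| ≤ D → |s - a| < r ∧ |s - b| < r ∧
      |iteratedDeriv 1 f s - iteratedDeriv 1 g s| ≤ δ) (hτ : |τ - t| ≤ D) :
    |f τ - g τ - (f t - g t)| ≤ δ * D := by
  have D0 : 0 ≤ D := (abs_nonneg _).trans hτ
  obtain k : ∀ {f : ℝ → ℝ} {a s : ℝ}, ContDiffOn ℝ n f (Set.Ioo (a - r) (a + r)) → |s - a| < r →
      HasDerivAt f (iteratedDeriv 1 f s) s := fun hf hs => by
    have := abs_lt.1 hs
    rw [iteratedDeriv_one]
    exact ((hf.contDiffAt (Ioo_mem_nhds (by linarith only [this]) (by linarith only [this]))).differentiableAt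
      (by exact_mod_cast hn)).hasDerivAt
  have := TW.mvt (g := fun s => f s - g s) (TW.ordConnected_Win (t0 := t) (h := D))
    (fun s hs => (k hf (h s (TW.mem_Win.1 hs)).1).sub (k hg (h s (TW.mem_Win.1 hs)).2.1))
    (fun s hs => (h s (TW.mem_Win.1 hs)).2.2) (TW.center_mem D0) (TW.mem_Win.2 hτ)
  exact this.trans (mul_le_mul_of_nonneg_left hτ
    ((abs_nonneg _).trans (h t (by simpa using D0)).2.2))

end FZON

open FZON in
theorem zon (K : ℕ) (c : Cs) (sc : SC_s K c) : ZON_s K c := by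
  intro M sd X y tU nu lab pr C σ w w' k k' Z a ha z hz
  obtain ⟨C4, C1, io, l1, bl⟩ := nums X.num
  have F := Z.fam
  have ga := F.gd a ha
  have fa := ga.fe
  obtain ⟨ya, ta, pa⟩ := F.lvl a ha
  obtain ⟨yz, tz, -⟩ := F.lvl z hz
  have L := (Z.lev a ha).1
  have s := sc M sd X a σ w ga L
  unfold Dat.ScAt at s
  rw [(Z.ks a ha).1, pa] at s
  have e0 := X.num.he.1
  obtain σ10 : 10 ≤ σ := by
    obtain h1 : (1 : ℝ) ≤ a.Lf.length := by exact_mod_cast Nat.succ_le_succ (Nat.zero_le _)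
    linarith only [h1, fa.sl.2.2.2, L.s]
  obtain w0 : 0 < w := pl' (by linarith only [σ10, L.lo]) e0.le
  obtain iw : 100 * σ ≤ c.io K * w := by linarith only [mul_le_mul_of_nonneg_right io w0.le, L.lo]
  obtain V0 : 0 ≤ a.V c M := by linarith only [σ10, w0, L.hi]
  obtain σl : c.lam ≤ σ := by
    have := mul_nonneg (pow_pos e0 22).le V0
    obtain this := mul_le_mul_of_nonneg_right C1 (show 0 ≤ c.lam by linarith only [l1])
    linarith [fa.sl.1, L.s]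
  have hV : w + 3 * σ ≤ y / c.C0 + 1 := ya ▸ L.hi.trans fa.lev.2.1
  obtain y4 : 4 * (w + σ) ≤ y := by
    obtain this := (le_div_iff₀ (show 0 < c.C0 by linarith only [C4])).1 (show w + σ ≤ y / c.C0 by linarith only [σ10, hV])
    nlinarith only [C4, this, σ10, w0]
  obtain ay : √c.a * y ≤ σ / 30 := by
    have := fa.sl.2.2.1
    rw [ya] at this
    linarith only [this, L.s]
  obtain S50 : 50 ≤ c.S0 y := by
    obtain h1 := mul_le_mul_of_nonneg_left (show c.lam ≤ y by linarith only [σ10, w0, σl, y4]) (sqrt_nonneg c.a)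
    have h2 := add_one_le_exp (√c.a * y)
    unfold Cs.S0
    linarith only [h1, h2, X.num.hS]
  have Sσ : c.S0 y ≤ exp (σ / 30) := exp_le_exp.2 ay
  have t0 : 0 < tiny y := exp_pos _
  obtain tw : tiny y ≤ exp (-w) := exp_le_exp.2 (by linarith only [σ10, y4])
  obtain rU : 0 < c.rU y := by unfold Cs.rU; positivity
  have nuJ := F.nu_eq a ha
  obtain S2 : 1 / (2 * c.S0 y ^ 2) * c.S0 y ≤ 1 / 100 ∧ 1 / (2 * c.S0 y ^ 2) ≤ 1 := by
    constructor
    · rw [div_mul_eq_mul_div, div_le_div_iff₀ (by positivity) (by norm_num)]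
      nlinarith only [S50]
    · rw [div_le_one (by positivity)]
      nlinarith only [S50]
  refine ⟨fun τ hτ => ?_, fun z' hz' => ?_⟩
  swap
  · obtain ⟨h1, h2⟩ := (F.two z hz z' hz').2 a.t (by linarith only [ta, rU])
    obtain h3 := (h2 0 (by norm_num)).2
    simp only [iteratedDeriv_zero] at h3
    obtain h4 := mul_le_mul nuJ.1 h3 (abs_nonneg _) (by positivity)
    rw [← abs_mul] at h4
    have h5 := mul_le_mul_of_nonneg_right S2.1 (abs_nonneg (lab z - lab z'))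
    have h6 := mul_le_mul_of_nonneg_right S2.2 t0.le
    have h7 := abs_sub _ _ |>.trans (add_le_add h1 h4)
    unfold Dat.dl
    refine le_trans (le_of_eq ?_) (h7.trans (by linarith only [h5, h6]))
    congr 1
    ring
  set j := pr.bs K c w
  set D := exp (-(k : ℝ))
  set R := pr.Rb c j
  set G := exp (-(3 * c.io K * w))
  set δ := c.S0 y * exp (-w) + tiny y with hδ
  have v := s.val
  rw [pa] at v
  have R0 : 0 ≤ R := v.dep.1
  have D0 : 0 < D := exp_pos _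
  obtain DG : D * exp (2 * R) ≤ G := by have := s.small.2; rwa [pa] at this
  obtain DG' : D ≤ G := (le_mul_of_one_le_right D0.le (one_le_exp (by linarith only [R0]))).trans DG
  obtain Dr : D ≤ c.rU y / 2 := by
    obtain h1 : c.rU y = exp (-(3 * (√c.a * y))) := by
      unfold Cs.rU Cs.S0
      rw [← exp_nat_mul, exp_neg, one_div]
      norm_num
    obtain h2 : 2 * G ≤ exp 1 * G := by
      have := add_one_le_exp 1
      exact mul_le_mul_of_nonneg_right (by linarith only [this]) (exp_pos _).le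
    obtain h3 : exp 1 * G ≤ c.rU y := by
      rw [h1, ← exp_add]
      exact exp_le_exp.2 (by linarith only [σ10, iw, ay])
    linarith only [DG', h2, h3]
  obtain win : ∀ t, |t - a.t| ≤ D → |t - tU| ≤ 3 / 2 * c.rU y ∧ |t - z.t| < 3 * c.rU y ∧
      |t - a.t| < 3 * c.rU y := fun t ht => by
    have h1 := abs_le.1 ht
    have h2 := abs_le.1 ta
    have h3 := abs_le.1 tz
    exact ⟨abs_le.2 ⟨by linarith only [Dr, h1, h2], by linarith only [Dr, h1, h2]⟩, abs_lt.2 ⟨by linarith only [D0, Dr, h1, h2, h3], by linarith only [D0, Dr, h1, h2, h3]⟩, by linarith only [D0, Dr, ht]⟩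
  obtain two : ∀ t, |t - a.t| ≤ D → ∀ i : ℕ, i ≤ 3 →
      |iteratedDeriv i (z.seed c M sd).v t - iteratedDeriv i (a.seed c M sd).v t| ≤ δ ∧
      |iteratedDeriv i (z.seed c M sd).c t - iteratedDeriv i (a.seed c M sd).c t| ≤ δ :=
    fun t ht i hi => by
      have h1 := ((F.two z hz a ha).2 t (win t ht).1).2 i hi
      obtain h2 := mul_le_mul_of_nonneg_left (Z.ll z hz a ha) (show 0 ≤ c.S0 y by linarith only [S50])
      exact ⟨by linarith only [h2, h1.1], by linarith only [h2, h1.2]⟩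
  have oz := (F.gd z hz).fe.sok
  have oa := fa.sok
  rw [yz] at oz
  rw [ya] at oa
  have ew := exp_pos (-w)
  obtain δ0 : 0 ≤ δ := by positivity
  obtain δ2 : δ ≤ 2 * (c.S0 y * exp (-w)) := by linarith only [t0, tw, mul_le_mul_of_nonneg_right S50 ew.le]
  obtain ⟨r, hr⟩ := v.free
  obtain ⟨-, q0, -, -, -, q1, -⟩ := fa.ent _ hr
  simp only [add_sub_cancel_left, pa] at q0 q1
  have eW := exp_pos (a.W c M (a.n + j))
  have nuA := s.nuA
  obtain a1 : exp (-w) * exp (a.W c M (a.n + j)) ≤ 2 * G := by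
    obtain this : 0 ≤ D / a.wq M (a.n + j) * exp (a.W c M (a.n + j)) := by positivity
    linarith only [nuA, this]
  obtain a2 : δ * exp (a.W c M (a.n + j)) ≤ 4 * (c.S0 y * G) := by
    have h1 := mul_le_mul_of_nonneg_right δ2 eW.le
    obtain h2 := mul_le_mul_of_nonneg_left a1 (show 0 ≤ c.S0 y by linarith only [S50])
    linarith only [h1, h2]
  have G0 : 0 < G := exp_pos _
  obtain e4 : (26 : ℝ) ≤ exp 4 := by
    obtain h4 : exp 4 = exp 1 ^ 4 := by rw [← exp_nat_mul]; norm_num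
    have h5 := exp_one_gt_d9
    rw [h4]
    calc (26 : ℝ) ≤ 2.7 ^ 4 := by norm_num
      _ ≤ _ := pow_le_pow_left₀ (by norm_num) (by linarith only [h5]) 4
  obtain bx := oz.jets τ (by have := abs_lt.1 (win τ hτ).2.1; constructor <;> linarith only [this])
  obtain z0 := two τ hτ 0 (by norm_num)
  simp only [iteratedDeriv_zero] at z0
  obtain st := ga.jf.st σ _ _ _ _ δ τ _ _ v ⟨hτ, z0.1, z0.2, a2.trans (by
    calc 4 * (c.S0 y * G) ≤ exp 4 * (exp (σ / 30) * G) := by gcongr; linarith only [e4]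
      _ ≤ _ := by
        rw [← exp_add, ← exp_add]
        exact exp_le_exp.2 (by linarith only [σ10, iw])), bx.2.2.2.1, bx.2.2.2.2.1⟩
  obtain iv := inc (Nat.succ_ne_zero K) oz.sv oa.sv
    (fun t ht => ⟨(win t ht).2.1, (win t ht).2.2, (two t ht 1 (by norm_num)).1⟩) hτ
  obtain ic := inc (Nat.succ_ne_zero K) oz.sc oa.sc
    (fun t ht => ⟨(win t ht).2.1, (win t ht).2.2, (two t ht 1 (by norm_num)).2⟩) hτ
  obtain n2 : |a.nuJ c M sd| ≤ 2 := by
    have h1 := abs_sub_abs_le_abs_sub (a.nuJ c M sd) nu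
    obtain h2 : exp (-c.bl / 4) ≤ 1 := exp_le_one_iff.2 (by linarith only [bl])
    linarith only [h1, h2, nuJ.1, nuJ.2, S2.2]
  have b1 := mul_le_mul n2 ic (abs_nonneg _) zero_le_two
  rw [← abs_mul] at b1
  obtain b2 := mul_le_mul ((abs_sub _ _).trans (add_le_add iv b1)) (ga.jf.xi σ _ _ _ _ v).2
    (abs_nonneg _) (by (clear * - S50 t0; positivity))
  rw [← abs_mul] at b2
  have b3 := (abs_add_le _ _).trans (add_le_add st b2)
  obtain eσ : 1 ≤ exp σ := one_le_exp (by linarith only [σ10])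
  refine le_trans (le_of_eq ?_) (b3.trans ?_)
  · unfold Dat.dl Dat.g Seed.orb
    simp only [add_sub_cancel_left]
    congr 1
    ring
  obtain c1 : D * exp (2 * R) + (exp (-w) + D / a.wq M (a.n + j) + δ) * exp (a.W c M (a.n + j))
      ≤ 7 * (c.S0 y * G) := by
    linarith only [D0, DG, DG', nuA, a2, mul_le_mul_of_nonneg_right S50 G0.le]
  obtain c2 : D ≤ exp σ * (c.S0 y * G) := DG'.trans (by
    rw [← mul_assoc]
    exact le_mul_of_one_le_left G0.le (one_le_mul_of_one_le_of_one_le eσ (by linarith only [S50])))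
  calc _ ≤ exp σ * (7 * (c.S0 y * G)) * δ * a.wq M (a.n + j) + (δ * (exp σ * (c.S0 y * G))
        + 2 * (δ * (exp σ * (c.S0 y * G)))) * (2 * a.wq M (a.n + j)) := by gcongr
    _ = 13 * (exp σ * (c.S0 y * G)) * δ * a.wq M (a.n + j) := by ring
    _ ≤ 13 * (exp σ * (exp (σ / 30) * G)) * (2 * (exp (σ / 30) * exp (-w))) * exp (pr.lw j + 1) := by
        gcongr
        exact δ2.trans (by (clear * - Sσ; gcongr))
    _ = 26 * (exp σ * exp (σ / 30) * G * exp (σ / 30) * exp (-w) * exp (pr.lw j + 1)) := by ring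
    _ ≤ exp 4 * (exp σ * exp (σ / 30) * G * exp (σ / 30) * exp (-w) * exp (pr.lw j + 1)) := by (clear * - e4; gcongr)
    _ ≤ _ := by
        simp only [G, ← exp_add]
        exact exp_le_exp.2 (by rw [Z.hw]; linarith only [σ10, iw])

end Pool.Agent.MP_9cbfe4_an

end

/-! ### Part FREL -/

section

/-! Row REL: the true orbits of one zone. -/

namespace Pool.Agent.MP_9cbfe4_an

theorem FREL_dnn {a b : ℝ} (ha : 0 ≤ a) (hb : 0 < b) : 0 ≤ a / b := div_nonneg ha hb.le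

open Finset Filter Topology MeasureTheory

noncomputable section

namespace FREL

variable {K : ℕ} {c : Cs} {M : Mdl} {sd : Fd → ℝ → Seed}

theorem nums (h : FNum K c) : 4 ≤ c.C0 ∧ 1 ≤ c.C1 ∧ c.e3 ≤ c.io K ∧ 0 < c.io K := by
  obtain hK : (10 : ℝ) ≤ K := by exact_mod_cast h.hK
  have hκ := h.hκ; have hG := h.hG; obtain ⟨t0, t1⟩ := h.hθ; obtain ⟨e0, e1⟩ := h.he
  obtain K3 : 20 * (K : ℝ) ≤ 10 ^ 6 * (K : ℝ) ^ 3 * (c.κ + 1) := by
    obtain a : (K : ℝ) ≤ (K : ℝ) ^ 3 := le_self_pow₀ (by linarith only [hK, t0, t1]) (by norm_num)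
    nlinarith only [hK, hκ, t0, t1, a]
  obtain a1 : 20 * (K : ℝ) ≤ c.C0 * (1 - c.θb) :=
    (K3.trans (le_mul_of_one_le_right (by linarith only [hK, t0, t1, K3]) hG)).trans h.hC0
  obtain C0 : 0 < c.C0 := by
    by_contra hn
    nlinarith only [hK, t0, t1, a1, hn]
  obtain C4 : 4 ≤ c.C0 := by nlinarith only [hK, t0, t1, a1, C0]
  obtain C1 : 1 ≤ c.C1 := by have := h.hC1; nlinarith only [hK, t0, t1, C4, this]
  refine ⟨C4, C1, ?_, by unfold Cs.io Cs.th; exact div_pos (div_pos (one_pos : (0 : ℝ) < 1) C0) (mul_pos (Nat.ofNat_pos : (0 : ℝ) < 20) (lt_of_lt_of_le (Nat.ofNat_pos : (0 : ℝ) < 10) hK))⟩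
  unfold Cs.io Cs.th
  rw [div_div, le_div_iff₀ (by exact mul_pos C0 (mul_pos (Nat.ofNat_pos : (0 : ℝ) < 20) (lt_of_lt_of_le (Nat.ofNat_pos : (0 : ℝ) < 10) hK)))]
  obtain p : 0 ≤ c.C0 * c.e3 := by exact le_of_lt (mul_pos C0 e0)
  have a2 := mul_le_mul_of_nonneg_right K3 p
  obtain a3 : 10 ^ 6 * (K : ℝ) ^ 3 * (c.κ + 1) * (c.C0 * c.e3) ≤
      10 ^ 6 * (K : ℝ) ^ 3 * (c.κ + 1) * (c.C0 * c.e3) * c.C1 :=
    le_mul_of_one_le_right (by exact le_of_lt (mul_pos (mul_pos (mul_pos (pow_pos (Nat.ofNat_pos : (0 : ℝ) < 10) (6 : ℕ)) (pow_pos (lt_of_lt_of_le (Nat.ofNat_pos : (0 : ℝ) < 10) hK) (3 : ℕ))) (add_pos' (lt_of_lt_of_le (Nat.ofNat_pos : (0 : ℝ) < 10) hκ) (one_pos : (0 : ℝ) < 1))) (mul_pos C0 e0))) C1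
  nlinarith only [t0, e1, a2, a3]

theorem rel_mono {S S' : Sq} {ξ ξ' : ℤ → ℝ} {s s' : ℤ} {θ κ κ' l l' μ : ℝ} (hL : 0 ≤ c.L)
    (h0 : 0 ≤ κ) (hκ : κ ≤ κ') (l0 : 0 ≤ l) (hl : l ≤ l') (R : S.Rel c S' ξ ξ' s s' θ κ l μ) :
    S.Rel c S' ξ ξ' s s' θ κ' l' μ := by
  have u := abs_nonneg (S'.X s' - S.X s)
  have h1 : 0 ≤ κ' := h0.trans hκ
  refine ⟨R.sm, R.prev.trans ?_, R.d1.trans ?_, R.d2.trans ?_⟩ <;> (clear * - hκ hL l0 hl h1; gcongr)

/-- what one member of a zone provides; `j` base time, `q = lw j` -/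
structure One (K : ℕ) (c : Cs) (M : Mdl) (sd : Fd → ℝ → Seed) (y σ w w' q D : ℝ) (j : ℤ)
    (z : Dat) : Prop where
  s0 : 4000 ≤ σ
  s1 : σ ≤ c.io K * w
  ww : 0 ≤ w ∧ w ≤ w'
  ty : tiny y ≤ Real.exp (-w)
  S0 : c.S0 y ≤ Real.exp (σ / 30)
  mem : ∃ r, (z.n + j, r) ∈ z.Lf
  W : z.W c M (z.n + j) ≤ w - 3 * c.io K * w
  wq : z.wq M (z.n + j) ≤ Real.exp (q + 1) ∧ 0 < z.wq M (z.n + j)
  val : ∃ R, z.Val K c M sd σ (z.n + j) D (Real.exp (-w) + D / z.wq M (z.n + j)) R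
  D : D ≤ Real.exp (-(w / (2 * K)))
  near : ∃ h, (z.seed c M sd).orb M z.t = z.toFd.R M ((z.seed c M sd).c z.t) h ∧
    z.toFd.Near c M ((z.seed c M sd).c z.t) h (z.n + j) (z.V c M)
  res : z.toFd.res M (z.n + j) (z.V c M) ≤ Real.exp (q - w' - 19)
  pos : |(z.S M).X (z.n + j) - z.g c M sd (z.n + j) z.t| ≤ Real.exp (q - w')
  orb : ∀ i, z.n < i → i ≤ z.n + j →
    |((z.seed c M sd).orb M z.t).X (i - z.n) - (z.S M).X i| ≤ 2 * Real.exp (-σ / 2)

theorem one (hN : TRU.Num c) (hS : SOK_s c) (nb : NB_s K c) (sc : SC_s K c) (ts : TSN_s c)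
    (X : Ctx K c M sd) {y tU nu lab π C σ w w' k k'}
    (Z : Zone K c M sd y tU nu lab π C σ w w' k k') {z : Dat} (hz : z ∈ C) :
    One K c M sd y σ w w' (π.lw (π.bs K c w)) (Real.exp (-(k : ℝ))) (π.bs K c w) z := by
  obtain ⟨C4, C1, e3, io⟩ := nums X.num
  have G := Z.fam.gd z hz
  have F := G.fe
  obtain ⟨hy, -, hπ⟩ := Z.fam.lvl z hz
  obtain ⟨L1, L2⟩ := Z.lev z hz
  have l0 := hN.l0
  have V0 : 0 ≤ z.V c M :=
    (Real.log_nonneg ((z.S M).one_le_AA c _ _ _)).trans (le_max_left _ _)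
  obtain s1 : c.C1 * c.lam ≤ z.s0 c M := by
    have := mul_nonneg (pow_nonneg X.num.he.1.le 22) V0
    linarith only [this, F.sl.1]
  obtain s2 : 4000 ≤ z.s0 c M := by nlinarith only [C1, l0, s1]
  have s3 : 4000 ≤ σ := s2.trans L1.s
  obtain w0 : 0 ≤ w := by
    by_contra hn
    have := L1.lo; have := X.num.he.1
    (rename_i zq0; nlinarith only [s3, zq0, hn, this])
  have s4 : σ ≤ c.io K * w := L1.lo.trans (mul_le_mul_of_nonneg_right e3 w0)
  obtain ww : w ≤ w' := by rw [Z.hw]; nlinarith only [s3, s4]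
  have ok := F.ok σ L1.s
  rw [hπ] at ok
  have N := (nb X.num π σ _ w ok (s1.trans L1.s) L1.lo L1.hi).1
  have S := sc M sd X z σ w G L1
  unfold Dat.ScAt at S
  rw [hπ, (Z.ks z hz).1] at S
  obtain ⟨j, hj⟩ : ∃ j, j = π.bs K c w := ⟨_, rfl⟩
  have N1 := N.hi; have N2 := N.mem
  rw [← hj] at S N1 N2 ⊢
  obtain ⟨r, hr⟩ := S.val.free
  obtain ⟨-, q0, q1, q2, -, q3, -⟩ := F.ent _ hr
  simp only [hπ, add_sub_cancel_left] at q0 q1 q2 q3
  have hW : z.W c M (z.n + j) ≤ w - 3 * c.io K * w := q2.trans N1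
  obtain ⟨h, e, nr⟩ := F.near _ hr (S.val.sl.1.trans S.val.sl.2)
    (by have := L1.s; have := L1.hi; simp only; (rename_i zq0; linarith only [s3, s4, N1, q2, zq0, this]))
  obtain ⟨t1, -, t3, -⟩ := ts M _ _ _ _ _ X.okk.ok nr
  obtain l2 : 1 ≤ c.lam ^ 2 := one_le_pow₀ (by linarith only [l0])
  have hV := L2.hi
  obtain res : z.toFd.res M (z.n + j) (z.V c M) ≤ Real.exp (π.lw j - w' - 19) := by
    refine (mul_le_mul_of_nonneg_left q3 (Real.exp_pos _).le).trans ?_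
    rw [← Real.exp_add]; exact Real.exp_le_exp.2 (by linarith only [s3, hV])
  refine ⟨s3, s4, ⟨w0, ww⟩, Real.exp_le_exp.2 ?_, Real.exp_le_exp.2 ?_, ⟨r, hr⟩, hW, ⟨q3, q0⟩,
    ⟨_, S.val⟩, S.small.1, ⟨h, e, nr⟩, res, ?_, fun i h1 h2 => ?_⟩
  · have a := F.lev.2.1
    rw [hy] at a
    obtain b : w ≤ y / c.C0 := by linarith only [s3, ww, hV, a, L1.hi]
    rw [le_div_iff₀ (by linarith only [C4])] at b
    nlinarith only [C4, w0, b]
  · have a := F.sl.2.2.1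
    rw [hy] at a
    linarith only [a, L1.s]
  · rw [abs_sub_comm]; unfold Dat.g; rw [e]
    refine t3.trans ((div_le_self (TRU.res_le hN nr).1 l2).trans (res.trans ?_))
    exact Real.exp_le_exp.2 (by linarith only [])
  · rw [e]
    refine (t1 i h1.le h2).trans ?_
    have ok' : (z.toFd.S M).OK c := ((hS M X.okk.ok z.t nr.fr.ht).2.1 z.v nr.fr.hv).2
    have hn : 0 ≤ z.n := nr.fr.out.1
    obtain wp : (z.toFd.S M).wp c z.n i ≤ 6 * Real.exp (w + σ) := by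
      rcases h2.eq_or_lt with rfl | h3
      · have a : (z.toFd.S M).wp c z.n (z.n + j) = z.wq M (z.n + j) := nr.fr.rinv.whm
        obtain b : Real.exp (π.lw j + 1) ≤ Real.exp (w + σ) :=
          Real.exp_le_exp.2 (by linarith only [s3, s4, N1, (ok.lw j N2).2])
        have := Real.exp_pos (w + σ)
        linarith only [q0, q3, a, b]
      · obtain a := ((Sq.cert_wh (ξ := (z.toFd.S M).fr (z.n + 1)) (s := z.n + 1) (n := z.n + 1) ok'
          hN.k0 hN.k1 (by linarith only [l0]) hN.chK.2.1 ⟨by omega, Sq.fr_sol _ _, Sq.fr_self _ _, by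
            rw [Sq.fr_pred, abs_zero]; exact (Real.exp_pos _).le⟩ le_rfl).2.2 i h1).2
        have b := (z.toFd.S M).AA_mono c ((z.toFd.S M).fr (z.n + 1)) (z.n + 1)
          (show i + 1 ≤ z.n + j from h3)
        obtain d : (z.toFd.S M).AA c ((z.toFd.S M).fr (z.n + 1)) (z.n + 1) (z.n + j)
            ≤ Real.exp (w + σ) :=
          (Real.log_le_iff_le_exp (lt_of_lt_of_le one_pos ((z.toFd.S M).one_le_AA c _ _ _))).1
            (le_trans hW (by linarith only [s3, s4]))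
        exact a.trans (by linarith only [b, d])
    have a1 : Real.exp (-z.V c M - 20) / c.lam ^ 2 ≤ Real.exp (-z.V c M - 20) :=
      div_le_self (Real.exp_pos _).le l2
    have a2 := mul_le_mul a1 wp ((z.toFd.S M).wh_nonneg c _ _ _) (Real.exp_pos _).le
    obtain a3 : Real.exp (-z.V c M - 20) * (6 * Real.exp (w + σ)) ≤ Real.exp (-σ / 2) := by
      obtain b : (6 : ℝ) ≤ Real.exp 20 := by linarith only [Real.add_one_le_exp 20]
      calc _ ≤ Real.exp (-z.V c M - 20) * (Real.exp 20 * Real.exp (w + σ)) := by exact mul_le_mul_of_nonneg_left (mul_le_mul_of_nonneg_right b (le_of_lt (Real.exp_pos (w + σ)))) (le_of_lt (Real.exp_pos (-Dat.V c M z - (20 : ℝ))))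
        _ ≤ _ := by
          rw [← Real.exp_add, ← Real.exp_add]; exact Real.exp_le_exp.2 (by linarith only [s3, ww, hV])
    obtain a4 : Real.exp (-z.V c M / 2 - (z.toFd.S M).chi c z.n i / 2 - c.lam / 3)
        ≤ Real.exp (-σ / 2) :=
      Real.exp_le_exp.2 (by linarith only [l0, s3, w0, ww, hV, (z.toFd.S M).chi_nonneg c hN.chK.1 hN.chK.2.1 z.n i])
    linarith only [a2, a3, a4]

theorem rel0 (hN : TRU.Num c) (hS : SOK_s c) (nb : NB_s K c) (sc : SC_s K c) (zo : ZON_s K c)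
    (ts : TSN_s c) (tr : TRU_s c) : REL_s K c := by
  intro M sd X y tU nu lab π C σ w w' k k' Z z hz
  have O := one hN hS nb sc ts X Z hz
  refine ⟨O.pos, fun z' hz' => ?_⟩
  have O' := one hN hS nb sc ts X Z hz'
  obtain ⟨z1, z2⟩ := zo M sd X y tU nu lab π C σ w w' k k' Z z hz z' hz'
  have J := (Z.fam.gd z hz).jf
  obtain ⟨j, hj⟩ : ∃ j, j = π.bs K c w := ⟨_, rfl⟩
  rw [← hj] at O O' z1 ⊢
  obtain ⟨q, hq⟩ : ∃ q, q = π.lw j := ⟨_, rfl⟩
  rw [← hq] at O O' z1 ⊢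
  obtain ⟨R, v⟩ := O.val
  have s0 := O.s0; have s1 := O.s1; have l0 := hN.l0
  have ew := Real.exp_pos (-w)
  have ll := Z.ll z' hz' z hz
  obtain tt : |z'.t - z.t| ≤ Real.exp (-(k : ℝ)) := by
    linarith only [Z.tt z' hz' z hz, Real.exp_pos (-(k : ℝ))]
  obtain cl : z.Cl c M sd σ (z.n + j) (Real.exp (-(k : ℝ))) (2 * Real.exp (σ / 30 - w)) z'.t
      ((z'.seed c M sd).v z'.t) ((z'.seed c M sd).c z'.t) := by
    have r0 : 0 ≤ c.rU y := (abs_nonneg _).trans (Z.fam.lvl z hz).2.1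
    obtain ⟨a1, a2⟩ := ((Z.fam.two z' hz' z hz).2 z'.t
      (by linarith only [r0, (Z.fam.lvl z' hz').2.1])).2 0 (by norm_num)
    simp only [iteratedDeriv_zero] at a1 a2
    obtain b1 : c.S0 y * |lab z' - lab z| ≤ Real.exp (σ / 30 - w) := by
      rw [sub_eq_add_neg (σ / 30), Real.exp_add]
      exact mul_le_mul O.S0 ll (abs_nonneg _) (Real.exp_pos _).le
    obtain b2 : tiny y ≤ Real.exp (σ / 30 - w) := O.ty.trans (Real.exp_le_exp.2 (by linarith only [s0]))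
    have r1 : 0 < c.rU (z'.y c M) := one_div_pos.2 (pow_pos (Real.exp_pos _) 3)
    obtain ⟨-, -, -, x1, x2, -⟩ := (Z.fam.gd z' hz').fe.sok.jets z'.t ⟨by linarith only [r1], by linarith only [r1]⟩
    refine ⟨tt, by linarith only [a1, b1, b2], by linarith only [a2, b1, b2], ?_, x1, x2⟩
    obtain b3 : (2 : ℝ) ≤ Real.exp σ := by linarith only [s0, Real.add_one_le_exp σ]
    calc _ ≤ Real.exp σ * Real.exp (σ / 30 - w) * Real.exp (z.W c M (z.n + j)) := by exact mul_le_mul_of_nonneg_right (mul_le_mul_of_nonneg_right b3 (le_of_lt (Real.exp_pos (σ / (30 : ℝ) - w)))) (le_of_lt (Real.exp_pos (Dat.W c M z (Fd.n (Dat.toFd z) + j))))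
      _ ≤ _ := by
        rw [← Real.exp_add, ← Real.exp_add]; exact Real.exp_le_exp.2 (by linarith only [s0, s1, O.W])
  obtain ⟨j1, j2⟩ := J.j6 _ _ _ _ _ _ _ _ _ v cl
  refine ⟨fun i h1 h2 => ?_, fun hw => ⟨?_, fun κ hκ => ?_⟩⟩
  · have a1 := O.orb i h1 h2
    obtain a2 := O'.orb (i - z.n + z'.n) (by omega) (by omega)
    obtain a3 := j1 (i - z.n) (by omega) (by omega)
    rw [add_sub_cancel_right] at a2
    change |((z'.seed c M sd).orb M z'.t).X (i - z.n) - _| ≤ _ at a3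
    obtain a4 : 5 * Real.exp (-σ / 2) ≤ Real.exp (-σ / 3) := by
      rw [show -σ / 3 = σ / 6 + -σ / 2 by ring, Real.exp_add]
      exact mul_le_mul_of_nonneg_right (by linarith only [s0, Real.add_one_le_exp (σ / 6)]) (Real.exp_pos _).le
    rw [abs_le] at a1 a2 a3 ⊢
    constructor <;> linarith only [a4, a1.1, a1.2, a2.1, a2.2, a3.1, a3.2]
  · obtain hK : (10 : ℝ) ≤ K := by exact_mod_cast X.num.hK
    have E0 := Real.exp_pos (q - w)
    obtain E1 : Real.exp (q - w') ≤ Real.exp (q - w) := Real.exp_le_exp.2 (by linarith only [O.ww.2])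
    obtain hD : Real.exp (-(k : ℝ)) ≤ Real.exp (q - w) := by
      refine O.D.trans (le_trans (Real.exp_le_exp.2 ?_) E1)
      obtain this : w / (50 * K) ≤ w / (2 * K) :=
        div_le_div_of_nonneg_left O.ww.1 (by linarith only [hK]) (by linarith only [hK])
      linarith only [hw, this]
    obtain e3 : Real.exp (q + 1) * Real.exp (-w) ≤ 3 * Real.exp (q - w) := by
      rw [← Real.exp_add, show q + 1 + -w = 1 + (q - w) by ring, Real.exp_add]
      exact mul_le_mul_of_nonneg_right (by linarith only [Real.exp_one_lt_d9]) E0.le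
    have wq : z.wq M (z.n + j) * Real.exp (-w) ≤ 3 * Real.exp (q - w) :=
      (mul_le_mul_of_nonneg_right O.wq.1 ew.le).trans e3
    have a1 := O.pos
    have a2 := O'.pos
    have a3 := z1 _ tt
    obtain a4 : |z.dl c M sd z'| ≤ 4 * Real.exp (-w) := by
      have b := z2 z hz
      rw [show z.dl c M sd z = 0 by simp [Dat.dl], sub_zero] at b
      linarith only [ew, ll, b, abs_sub_abs_le_abs_sub (z.dl c M sd z') (lab z' - lab z), O.ty]
    obtain a5 : |z.dl c M sd z' * z.xs c M sd (z.n + j)| ≤ 24 * Real.exp (q - w) := by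
      rw [abs_mul]
      obtain this := mul_le_mul a4 (J.xi _ _ _ _ _ v).2 (abs_nonneg _) (by exact le_of_lt (mul_pos (Nat.ofNat_pos : (0 : ℝ) < 4) (Real.exp_pos (-w))))
      linarith only [wq, this]
    obtain ⟨r, hr⟩ := O.mem
    have a6 := (J.j1 _ _ _ _ _ v _ hr le_rfl 1 le_rfl
      (fun u _ h1 h2 => absurd h1 (not_le.2 h2))).2 _ tt
    simp only at a6
    rw [mul_add (z.wq M _), mul_div_cancel₀ _ O.wq.2.ne', mul_one] at a6
    obtain a7 : 32 ≤ Real.exp σ := by linarith only [s0, Real.add_one_le_exp σ]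
    obtain a8 : Real.exp σ * (z.wq M (z.n + j) * Real.exp (-w) + Real.exp (-(k : ℝ))
        + Real.exp (-(k : ℝ))) ≤ Real.exp σ * (5 * Real.exp (q - w)) :=
      mul_le_mul_of_nonneg_left (by linarith only [hD, wq]) (by linarith only [a7])
    obtain a9 : 27 * Real.exp (q - w) + Real.exp σ * (5 * Real.exp (q - w))
        ≤ Real.exp (2 * σ + q - w) := by
      rw [show 2 * σ + q - w = σ + σ + (q - w) by ring, Real.exp_add, Real.exp_add]
      obtain this : 27 + Real.exp σ * 5 ≤ Real.exp σ * Real.exp σ := by nlinarith only [a7]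
      nlinarith only [E0, this]
    rw [abs_le] at a1 a2 a3 a5 a6 ⊢
    constructor <;> linarith only [E1, a8, a9, a1.1, a1.2, a2.1, a2.2, a3.1, a3.2, a5.1, a5.2, a6.1, a6.2]
  · obtain hK : (10 : ℝ) ≤ K := by exact_mod_cast X.num.hK
    obtain ⟨h, e, nr⟩ := O.near
    obtain ⟨h', e', nr'⟩ := O'.near
    change ((z.seed c M sd).orb M z.t).Rel c ((z'.seed c M sd).orb M z'.t) _
      (((z'.seed c M sd).orb M z'.t).fr 1) _ _ _ _ _ _ at j2
    rw [e, e', add_sub_cancel_left] at j2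
    obtain hL : 0 ≤ c.L := by linarith only [hN.L0]
    obtain hl : 0 < c.lam := by linarith only [l0]
    rw [← Real.exp_add]
    obtain r1 : Real.exp (q - w' - 19) ≤ Real.exp (q + (-(w' - 6 * σ) - 10)) :=
      Real.exp_le_exp.2 (by linarith only [s0])
    obtain r2 : Real.exp σ * Real.sqrt (Real.exp (-(k : ℝ)))
        ≤ Real.exp (q + (-(w' - 6 * σ) - 10)) := by
      obtain a : Real.sqrt (Real.exp (-(k : ℝ))) ≤ Real.exp (-(w / (50 * K))) := by
        refine Real.sqrt_le_iff.2 ⟨(Real.exp_pos _).le, O.D.trans ?_⟩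
        rw [← Real.exp_nat_mul]
        refine Real.exp_le_exp.2 ?_
        obtain this : w / (25 * K) ≤ w / (2 * K) :=
          div_le_div_of_nonneg_left O.ww.1 (by linarith only [hK]) (by linarith only [hK])
        obtain e : w / (25 * K) = 2 * (w / (50 * K)) := by field_simp; ring
        push_cast; linarith only [this, e]
      refine (mul_le_mul_of_nonneg_left a (Real.exp_pos _).le).trans ?_
      rw [← Real.exp_add]; exact Real.exp_le_exp.2 (by linarith only [s0, hw])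
    obtain k1 : 1 / c.lam ^ 2 ≤ 1 / (100 * c.lam) :=
      one_div_le_one_div_of_le (by exact mul_pos (Nat.ofNat_pos : (0 : ℝ) < 100) (lt_of_lt_of_le (Nat.ofNat_pos : (0 : ℝ) < 4000) l0)) (by nlinarith only [l0])
    obtain k2 : 1 / (100 * c.lam) ≤ c.lam / 20 := by
      rw [div_le_div_iff₀ (by exact mul_pos (Nat.ofNat_pos : (0 : ℝ) < 100) (lt_of_lt_of_le (Nat.ofNat_pos : (0 : ℝ) < 4000) l0)) (by positivity)]; nlinarith only [l0]
    obtain k3 : 20 * (1 / (100 * c.lam)) = 1 / (5 * c.lam) := by field_simp; ring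
    obtain ⟨κ0, hκ0⟩ : ∃ κ0, κ0 = if 5 / 100 ≤ dP ((z.S M).X (z.n + j)) then 1 / (100 * c.lam)
      else c.lam / 20 := ⟨_, rfl⟩
    rw [← hκ0] at j2
    obtain k4 : 1 / (100 * c.lam) ≤ κ0 ∧ 20 * κ0 ≤ κ := by
      rw [hκ0]; split_ifs with hb
      · exact ⟨le_rfl, hκ.elim (fun a => by linarith only [k2, a]) fun a => by linarith only [k3, a.2]⟩
      · exact ⟨k2, hκ.elim (fun a => by linarith only [a]) fun a => absurd a.1 hb⟩
    obtain k0 : 0 ≤ κ0 := le_trans (by exact le_of_lt (div_pos (one_pos : (0 : ℝ) < 1) (mul_pos (Nat.ofNat_pos : (0 : ℝ) < 100) (lt_of_lt_of_le (Nat.ofNat_pos : (0 : ℝ) < 4000) l0)))) k4.1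
    obtain T := (tr M _ _ _ _ _ _ j _ _ _ κ0 _ _ X.okk.ok nr nr' (by norm_num) (k1.trans k4.1) le_rfl
      (O.res.trans r1) (O'.res.trans r1) (rel_mono hL k0 le_rfl (by exact le_of_lt (mul_pos (Real.exp_pos σ) (Real.sqrt_pos_of_pos (Real.exp_pos (-(↑k : ℝ)))))) r2 j2)).1
    rw [show (15 / 1000 - 1 / 1000 : ℝ) = 14 / 1000 by norm_num] at T
    exact rel_mono hL (by linarith only [k0]) k4.2 (Real.exp_pos _).le le_rfl T

end FREL

theorem rel (K : ℕ) : Hier fun c => SOK_s c → NB_s K c → SC_s K c → ZON_s K c → TSN_s c →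
    TRU_s c → REL_s K c := TRU.num.mono fun _ h => FREL.rel0 h

end
end Pool.Agent.MP_9cbfe4_an

end

/-! ### Part FFS -/

section

/-! Row FS of section F (helper9): the measure of the data with too many events. -/

namespace Pool.Agent.MP_9cbfe4_an

open Finset MeasureTheory

namespace FFS
variable {K : ℕ} {c : Cs}

/-- elementary consequences of `FNum` -/
structure Fa (K : ℕ) (c : Cs) : Prop where
  K10 : (10 : ℝ) ≤ K
  C0 : 1 ≤ c.C0
  KC : 10 ^ 9 * (K : ℝ) ≤ c.C0 * (1 - c.θb)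
  C1 : c.C0 ≤ c.C1
  e3 : 10 ^ 6 * c.e3 ≤ 1 - c.θb
  lam : 1 ≤ c.lam
  β : 10 ^ 6 * (c.C0 * c.C1) ≤ c.β * c.e3 ^ 25

theorem fa (h : FNum K c) : Fa K c := by
  obtain K10 : (10 : ℝ) ≤ K := by exact_mod_cast h.hK
  obtain ⟨θ0, θ1⟩ := h.hθ
  obtain ⟨e0, e1⟩ := h.he
  have hκ := h.hκ
  have hG := h.hG
  obtain K3 : 100 * (K : ℝ) ≤ (K : ℝ) ^ 3 := by nlinarith only [mul_le_mul K10 K10 (by norm_num) (by linarith only [K10, θ0, θ1])]
  obtain a1 : 1000 * (K : ℝ) ≤ (K : ℝ) ^ 3 * (c.κ + 1) := by nlinarith only [K10, K3, hκ, θ0, θ1]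
  obtain a2 : 1000 * (K : ℝ) ≤ (K : ℝ) ^ 3 * (c.κ + 1) * c.CG := by nlinarith only [K10, K3, hκ, hG, θ0, θ1, a1]
  obtain KC : 10 ^ 9 * (K : ℝ) ≤ c.C0 * (1 - c.θb) := by linarith only [a2, h.hC0]
  obtain C0 : 1 ≤ c.C0 := by
    by_contra hc
    push Not at hc
    nlinarith only [K10, KC, θ0, θ1, hc]
  obtain C1 : c.C0 ≤ c.C1 := by nlinarith only [K10, θ0, θ1, C0, h.hC1]
  obtain a3 : 1 ≤ c.C0 * c.C1 := by nlinarith only [K10, KC, C1, C0, θ0, θ1]
  obtain a4 : 1 ≤ (K : ℝ) ^ 3 * (c.κ + 1) * (c.C0 * c.C1) := by nlinarith only [K10, K3, hκ, a3, θ0, θ1, a1]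
  obtain e3 : 10 ^ 6 * c.e3 ≤ 1 - c.θb := by nlinarith only [e1, e0, a4]
  obtain l0 : 0 < c.lam := by
    by_contra hc
    push Not at hc
    nlinarith only [hc, h.hS, Real.sqrt_nonneg c.a]
  obtain p1 : c.e3 ^ 25 ≤ 1 := pow_le_one₀ e0.le (by linarith only [θ0, e0, e3])
  have p0 : 0 < c.e3 ^ 25 := pow_pos e0 _
  obtain M0 : 0 < c.M1 := by
    by_contra hc
    push Not at hc
    nlinarith only [K10, θ0, KC, e3, e0, C0, p0, hc, h.hM]
  obtain M1 : 1000 ≤ c.M1 := by nlinarith only [K10, θ0, KC, e3, e0, C0, p1, M0, h.hM]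
  exact ⟨K10, C0, KC, C1, e3, by linarith only [θ0, e0, e3, h.hl.2, Real.log_le_sub_one_of_pos l0],
    by nlinarith only [M1, θ0, θ1, a3, h.hβ]⟩

/-- the exponent of one level -/
theorem expo {Vh top w0 ik δ η e u s sa e21 : ℝ} (hV : 0 ≤ Vh) (ht : top ≤ Vh)
    (ik0 : 0 ≤ ik) (ik1 : ik ≤ 1) (d0 : 100 * δ ≤ ik) (hη : η ≤ δ) (η0 : 0 ≤ η) (e0 : 0 ≤ e)
    (he : 10 ^ 6 * e ≤ η) (hu : 10 ^ 9 * u ≤ η) (w00 : 0 ≤ w0) (hw : w0 ≤ 2 * (δ * Vh))
    (h1 : 1 ≤ η * Vh) (hs : s ≤ 150 * (e * Vh)) (hsa : sa ≤ e * Vh) (h21 : e21 ≤ e * Vh) :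
    e21 + ((sa + 1 + w0) + (s + ((1 + (ik - 100 * δ)) * top
      - (1 + ik) * ((1 - 7 * e) * ((1 - η) * Vh) - w0) + 210 * u * (17 * Vh)))) ≤ -(η * Vh) := by
  obtain a1 : (1 + (ik - 100 * δ)) * top ≤ (1 + (ik - 100 * δ)) * Vh :=
    mul_le_mul_of_nonneg_left ht (by linarith only [d0])
  obtain a2 : (1 + ik) * (1 - (1 - 7 * e) * (1 - η)) ≤ 2 * (η + 7 * e) :=
    mul_le_mul (by linarith only [ik1]) (by nlinarith only [η0, e0]) (by nlinarith only [η0, e0, ik0, he, ik1, d0, hη]) (by norm_num)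
  have a3 := mul_le_mul_of_nonneg_right a2 hV
  have a4 := mul_le_mul_of_nonneg_right ik1 w00
  have a5 := mul_le_mul_of_nonneg_right hη hV
  have a6 := mul_le_mul_of_nonneg_right he hV
  have a7 := mul_le_mul_of_nonneg_right hu hV
  linarith only [hw, h1, hs, hsa, h21, a1, a3, a4, a5, a6, a7]

/-- one level -/
theorem level (hM : MACH_s K c) (hD : DEC_s K c) {M : Mdl} {sd : Fd → ℝ → Seed} (cx : Ctx K c M sd)
    {y : ℝ} (hy : c.bl / 4 ≤ y) :
    volume (Dat.tt '' {d | (d.Gd K c M sd ∧ d.BadS c M) ∧ d.y c M = y})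
      ≤ ENNReal.ofReal (Real.exp (-((1 - c.θb) / c.C0 * y))) := by
  have h := cx.num
  obtain ⟨K10, C0, KC, C1, e3, lam, hβ⟩ := fa h
  obtain ⟨θ0, θ1⟩ := h.hθ
  obtain ⟨d0, d1, d2⟩ := h.hd
  have e0 := h.he.1
  obtain e1 : c.e3 ≤ 1 := by linarith only [e3, θ0, e0]
  obtain K0 : (0 : ℝ) < K := by linarith only [K10, e3, θ0, e0]
  obtain C00 : 0 < c.C0 := by linarith only [C0, e3, θ0, e0]
  obtain p2 : c.e3 ^ 25 ≤ c.e3 ^ 2 := pow_le_pow_of_le_one e0.le e1 (by norm_num)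
  obtain p1 : c.e3 ^ 2 ≤ c.e3 := by nlinarith only [e0, e3, θ0]
  have p0 : 0 < c.e3 ^ 25 := pow_pos e0 _
  obtain ⟨Vh, hVh⟩ : ∃ Vh, Vh = y / c.C0 := ⟨_, rfl⟩
  obtain yV : y = c.C0 * Vh := by rw [hVh]; field_simp
  obtain X1 : c.lam ≤ c.C1 * c.lam := le_mul_of_one_le_left (by linarith only [e3, lam, θ0, e0]) (by linarith only [C0, C1])
  obtain hX : 1000 * (c.C1 * c.lam) ≤ c.e3 ^ 25 * Vh := by
    have a := mul_le_mul_of_nonneg_left hy p0.le
    obtain b := mul_le_mul_of_nonneg_right hβ (show 0 ≤ c.lam by linarith only [e3, lam, θ0, e0])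
    unfold Cs.bl at a
    obtain X0 : 0 ≤ c.C0 * (c.C1 * c.lam) := mul_nonneg C00.le (by linarith only [e3, lam, θ0, e0, X1])
    obtain this : c.C0 * (1000 * (c.C1 * c.lam)) ≤ c.C0 * (c.e3 ^ 25 * Vh) := by rw [yV] at a; linarith only [a, b, X0]
    exact le_of_mul_le_mul_left this C00
  obtain V0 : 0 < Vh := (mul_pos_iff_of_pos_left p0).1 (by linarith only [e3, lam, θ0, e0, X1, hX])
  have q2 := mul_le_mul_of_nonneg_right p2 V0.le
  have q1 := mul_le_mul_of_nonneg_right p1 V0.le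
  have q0 := mul_le_mul_of_nonneg_right e3 V0.le
  obtain qη : (1 - c.θb) * Vh ≤ Vh := mul_le_of_le_one_left V0.le (by linarith only [θ0])
  obtain ⟨σ, hσ⟩ : ∃ σ, σ = c.e3 ^ 2 * (Vh + 1) + c.C1 * c.lam := ⟨_, rfl⟩
  obtain σ0 : 0 ≤ σ := by rw [hσ]; exact add_nonneg (by (clear * - e0 V0; positivity)) (by linarith only [e3, lam, θ0, e0, X1])
  obtain σ1 : σ ≤ 3 * (c.e3 ^ 2 * Vh) := by
    obtain this : c.e3 ^ 2 ≤ c.e3 ^ 2 * Vh := le_mul_of_one_le_right (by positivity) (by linarith only [e3, lam, θ0, e0, X1, hX, q2, q1, q0, qη])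
    rw [hσ]; linarith only [e3, lam, θ0, e0, p1, X1, hX, q2]
  obtain ⟨δ, hδ⟩ : ∃ δ, δ = (1 - c.dpl) / (100 * K) := ⟨_, rfl⟩
  obtain δη : 1 - c.θb ≤ δ := by rw [hδ, le_div_iff₀ (by positivity)]; linarith only [d2]
  obtain δk : c.dpl / K = 1 / K - 100 * δ := by rw [hδ]; field_simp; ring
  obtain ik1 : 1 / (K : ℝ) ≤ 1 / 10 := one_div_le_one_div_of_le (by norm_num) K10
  obtain δ1 : 100 * δ ≤ 1 / K := by linarith only [δk, div_pos d0 K0]
  have qδ := mul_le_mul_of_nonneg_right δη V0.le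
  obtain qδ1 : δ * Vh ≤ Vh / 1000 := by
    linarith only [mul_le_mul_of_nonneg_right (δ1.trans ik1) V0.le]
  obtain ηV : 0 < (1 - c.θb) * Vh := mul_pos (by linarith only [e3, e0]) V0
  obtain io0 : 0 < c.io K := by unfold Cs.io Cs.th; positivity
  obtain io1 : c.io K ≤ 1 := by
    unfold Cs.io Cs.th
    rw [div_le_one (by (clear * - K10; positivity)), div_le_iff₀ C00]
    linarith only [K10, e3, e0, δη, ik1, δ1, mul_le_mul_of_nonneg_left C0 K0.le]
  obtain ⟨I, I1, I2, I3⟩ := fn_count (w0 := δ * Vh) (V := Vh - 3 * σ) (by linarith only [e3, lam, e0, X1, hX, q2, q1, q0, δη, ik1, δ1, qδ]) io0 io1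
    (by linarith only [e3, lam, e0, p1, X1, hX, q2, q1, q0, hσ, δη, ik1, δ1, qδ, qδ1])
  obtain pI : 0 < (1 + c.io K) ^ I := by positivity
  obtain ⟨w0, hw0⟩ : ∃ w0, w0 = (Vh - 3 * σ) / (1 + c.io K) ^ I := ⟨_, rfl⟩
  obtain wt : w0 * (1 + c.io K) ^ I = Vh - 3 * σ := by rw [hw0]; field_simp
  obtain w1 : δ * Vh ≤ w0 := by rw [hw0, le_div_iff₀ pI]; exact I1
  obtain w2 : w0 ≤ 2 * (δ * Vh) := by
    rw [hw0, div_le_iff₀ pI]
    obtain this : δ * Vh * (1 + c.io K) ^ I * (1 + c.io K) ≤ δ * Vh * (1 + c.io K) ^ I * 2 :=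
      mul_le_mul_of_nonneg_left (by linarith only [io1]) (mul_nonneg (by linarith only [e3, lam, e0, X1, hX, q2, q1, q0, δη, ik1, δ1, qδ]) pI.le)
    rw [pow_succ] at I2
    linarith only [I2, this]
  obtain w00 : 0 < w0 := by linarith only [e3, lam, e0, X1, hX, q2, q1, q0, δη, ik1, δ1, qδ, w1]
  obtain hI : (I : ℝ) ≤ 1 / c.e3 := by
    obtain a : (Vh - 3 * σ) / (δ * Vh) ≤ 100 / (c.e3 ^ 20 * (1 - c.θb)) := by
      have r0 : 0 < c.e3 ^ 20 := pow_pos e0 _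
      have r1 : c.e3 ^ 20 ≤ 1 := pow_le_one₀ e0.le e1
      obtain r2 : c.e3 ^ 20 * (1 - c.θb) ≤ δ := (mul_le_of_le_one_left (by linarith only [e3, e0]) r1).trans δη
      obtain r3 : 0 < c.e3 ^ 20 * (1 - c.θb) := mul_pos r0 (by linarith only [e3, e0])
      rw [div_le_div_iff₀ (by linarith only [e3, lam, e0, X1, hX, q2, q1, q0, δη, ik1, δ1, qδ]) r3]
      obtain this := mul_le_mul (show Vh - 3 * σ ≤ Vh by linarith only [e3, lam, e0, p2, p0, X1, hX, q2, hσ, δη, ik1, δ1]) r2 r3.le V0.le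
      linarith only [e3, lam, e0, X1, hX, q2, q1, q0, δη, ik1, δ1, qδ, this]
    obtain b := Real.log_le_log (div_pos (by linarith only [e3, lam, e0, p1, X1, hX, q2, q1, q0, hσ, δη, ik1, δ1, qδ, qδ1]) (by linarith only [e3, lam, e0, X1, hX, q2, q1, q0, δη, ik1, δ1, qδ])) a
    obtain e : 2 * Real.log ((Vh - 3 * σ) / (δ * Vh)) / c.io K
        = 40 * K * c.C0 * Real.log ((Vh - 3 * σ) / (δ * Vh)) := by
      unfold Cs.io Cs.th; field_simp; ring
    obtain f := mul_le_mul_of_nonneg_left b (show 0 ≤ 40 * K * c.C0 by positivity)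
    rw [le_div_iff₀ e0]
    have g := mul_le_mul_of_nonneg_left ((I3.trans e.le).trans f) e0.le
    linarith only [g, h.hI]
  obtain S1 : 1 ≤ c.S0 y := Real.one_le_exp (mul_nonneg (Real.sqrt_nonneg _) (by rw [yV]; positivity))
  refine (hD M sd cx y (Real.exp (Real.sqrt c.a * y + 1 + w0) * Real.exp (50 * σ / c.e3
    + MachB K c w0 1 c.dpl (c.θb * Vh) (17 * Vh) I)) _ (by positivity)
    (fun z hz => ⟨hz.1.1, hz.2⟩) ?_).trans (ENNReal.ofReal_le_ofReal ?_)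
  · intro tU nu lab π C hC fam
    rcases C.eq_empty_or_nonempty with rfl | ⟨z0, hz0⟩
    · simp
    obtain lv : ∀ z ∈ C, Vh ≤ z.V c M ∧ z.V c M ≤ Vh + 1 := fun z hz => by
      have a := (fam.gd z hz).fe.lev
      rw [(fam.lvl z hz).1, ← hVh] at a
      exact ⟨a.1, a.2.1⟩
    refine hM M sd cx y tU nu lab π C σ w0 1 c.dpl _ _ _ (fun w => Real.exp (-w)) I
      ⟨fam, hI, fun z hz i hi => ⟨?_, ?_, ?_⟩, fun z hz => ?_, fun z hz => ?_, ?_,
        .inl ⟨rfl, rfl, rfl⟩, ?_⟩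
    · unfold Dat.s0
      have := mul_le_mul_of_nonneg_left
        ((min_le_left _ ((z.S M).xx c z.n (z.V c M))).trans (lv z hz).2) (pow_pos e0 2).le
      linarith only [hσ, this]
    · obtain a : w0 ≤ w0 * (1 + c.io K) ^ i :=
        le_mul_of_one_le_right w00.le (one_le_pow₀ (by linarith only [io0]))
      obtain b : 3 * (c.e3 * Vh) ≤ w0 * (1 + c.io K) ^ i := by linarith only [e3, lam, e0, X1, hX, q2, q1, q0, δη, ik1, δ1, qδ, w1, a]
      have := mul_le_mul_of_nonneg_left b e0.le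
      linarith only [e3, lam, e0, p1, X1, hX, q2, hσ, δη, ik1, δ1, this]
    · obtain a : w0 * (1 + c.io K) ^ i ≤ w0 * (1 + c.io K) ^ I :=
        mul_le_mul_of_nonneg_left (pow_le_pow_right₀ (by linarith only [io0]) hi) w00.le
      linarith only [wt, a, (lv z hz).1]
    · linarith only [wt, (lv z hz).2]
    · have a : c.θb * z.V c M + c.cc < z.ev c M := (hC hz).1.2
      obtain b : 0 ≤ c.cc := by
        unfold Cs.cc; rw [h.hε]
        exact div_nonneg (mul_nonneg (pow_pos e0 _).le (by linarith only [e3, lam, e0, δη, ik1, δ1])) (by norm_num)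
      have := mul_le_mul_of_nonneg_left (lv z hz).1 θ0.le
      linarith only [a, b, this]
    · have a := (fam.gd z0 hz0).fe.sr
      rw [(fam.lvl z0 hz0).2.2] at a
      linarith only [e3, lam, e0, X1, hX, q2, q1, q0, δη, ik1, δ1, qδ, qδ1, a, min_le_right (z0.xV c M) (z0.V c M + c.lam), (lv z0 hz0).2]
    · obtain x1 : Real.exp (-w0) ≤ 1 := Real.exp_le_one_iff.2 (by linarith only [e3, lam, e0, X1, hX, q2, q1, q0, δη, ik1, δ1, qδ, w1])
      obtain ⟨T, T1, T2⟩ := fam.loc (lab z0 - 1) 2 (Real.exp (-w0))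
        (Real.exp_le_exp.2 (by rw [yV]; linarith only [e3, lam, e0, X1, hX, q2, q1, q0, δη, ik1, δ1, qδ, qδ1, w2, mul_le_mul_of_nonneg_right C0 V0.le])) (by linarith only [e3, e0, δη, ik1, δ1, x1])
      refine ⟨T, T1.trans ?_, subset_trans ?_ T2⟩
      · obtain x2 : 1 ≤ 2 / Real.exp (-w0) := by rw [le_div_iff₀ (Real.exp_pos _)]; linarith only [e3, e0, δη, ik1, δ1, x1]
        obtain x3 : (2 / Real.exp (-w0)) ^ c.dpl ≤ Real.exp (1 + w0) := by
          refine (Real.rpow_le_rpow_of_exponent_le x2 d1.le).trans ?_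
          rw [Real.rpow_one, Real.exp_neg, div_inv_eq_mul, Real.exp_add]
          exact mul_le_mul_of_nonneg_right (by linarith only [Real.add_one_le_exp 1]) (Real.exp_pos _).le
        rw [add_assoc, Real.exp_add]
        exact mul_le_mul_of_nonneg_left x3 (Real.exp_pos _).le
      · rintro _ ⟨z, hz, rfl⟩
        have a := (fam.two z hz z0 hz0).1
        obtain b : c.rU y ≤ 1 := by
          unfold Cs.rU; rw [div_le_one (by positivity)]; exact one_le_pow₀ S1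
        obtain ⟨a1, a2⟩ := abs_le.1 (a.trans b)
        exact ⟨⟨by linarith only [a1], by linarith only [a2]⟩, z, hz, rfl⟩
  · rw [← Real.exp_add, ← Real.exp_add, ← hVh]
    refine Real.exp_le_exp.2 ?_
    obtain hu : 10 ^ 9 * (c.th * K) ≤ 1 - c.θb := by
      unfold Cs.th
      rw [one_div, inv_mul_eq_div, ← mul_div_assoc, div_le_iff₀ C00]; linarith only [KC]
    obtain hs : 50 * σ / c.e3 ≤ 150 * (c.e3 * Vh) := by rw [div_le_iff₀ e0]; linarith only [e3, lam, e0, p1, X1, hX, q2, hσ, δη, ik1, δ1]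
    obtain hsa : Real.sqrt c.a * y ≤ c.e3 * Vh := by
      have := mul_le_mul_of_nonneg_right h.ha.2 V0.le
      have := mul_pos e0 V0
      rw [yV]; linarith
    obtain h21 : c.e3 ^ 21 * Vh ≤ c.e3 * Vh :=
      mul_le_mul_of_nonneg_right (pow_le_of_le_one e0.le e1 (by norm_num)) V0.le
    obtain key := expo (top := Vh - 3 * σ) V0.le (by linarith only [e3, lam, e0, p2, p0, X1, hX, q2, hσ, δη, ik1, δ1]) (div_pos one_pos K0).le (by linarith only [e3, e0, δη, ik1, δ1]) δ1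
      δη (by linarith only [e3, e0]) e0.le e3 hu w00.le w2 (by linarith only [e3, lam, X1, hX, q2, q1, q0, δη, ik1, δ1, mul_pos e0 V0]) hs hsa h21
    obtain e : (1 - c.θb) / c.C0 * y = (1 - c.θb) * Vh := by rw [hVh]; ring
    unfold MachB
    rw [wt, δk, e]
    rw [sub_sub_cancel] at key
    linarith only [key]

end FFS

theorem fsg : ∀ (K : ℕ) (c : Cs), MACH_s K c → DEC_s K c → FSG_s K c := by
  intro K c hM hD M sd cx
  have h := cx.num
  obtain ⟨K10, C0, KC, C1, e3, lam, hβ⟩ := FFS.fa h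
  obtain ⟨θ0, θ1⟩ := h.hθ
  have e0 := h.he.1
  obtain C00 : 0 < c.C0 := by linarith only [C0, e3, θ0, e0]
  obtain η0 : 0 < 1 - c.θb := by linarith only [e3, e0]
  obtain p2 : c.e3 ^ 25 ≤ (1 - c.θb) ^ 2 :=
    (pow_le_pow_of_le_one e0.le (by linarith only [e3, θ0, e0]) (by norm_num)).trans
      (pow_le_pow_left₀ e0.le (by linarith only [e3, e0]) 2)
  obtain p1 : (1 - c.θb) ^ 2 ≤ 1 := pow_le_one₀ η0.le (by linarith only [θ0])
  have p0 : 0 < c.e3 ^ 25 := pow_pos e0 _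
  have CC : c.C0 * c.C0 ≤ c.C0 * c.C1 := mul_le_mul_of_nonneg_left C1 C00.le
  obtain C2 : 1 ≤ c.C0 * c.C0 := by nlinarith only [C0]
  obtain β0 : 0 < c.β := by
    by_contra hc
    push Not at hc
    nlinarith only [K10, KC, e3, hβ, CC, C0, θ0, e0, C2, p0, hc]
  have b1 : c.β ≤ c.bl := le_mul_of_one_le_right β0.le lam
  obtain b2 : 10 ^ 6 * (c.C0 * c.C0) ≤ c.β * (1 - c.θb) ^ 2 := by
    linarith only [hβ, CC, mul_le_mul_of_nonneg_left p2 β0.le]
  obtain b3 : 4 ≤ c.bl := by linarith only [e3, θ0, e0, C2, b1, b2, mul_le_mul_of_nonneg_left p1 β0.le]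
  refine FGEO.geo30 _ (fun n => Dat.tt '' {d | (d.Gd K c M sd ∧ d.BadS c M) ∧ d.y c M = n})
    (q := (1 - c.θb) / c.C0) (y0 := c.bl / 4) (div_pos η0 C00) ?_ ?_
    fun n hn => FFS.level hM hD cx hn
  · refine le_trans ?_ (Real.add_one_le_exp _)
    rw [one_div_div]
    obtain a1 : 1 ≤ c.C0 / (1 - c.θb) := by rw [le_div_iff₀ η0]; linarith only [C0, θ0]
    obtain a2 : 60 * (c.C0 / (1 - c.θb)) ≤ (1 - c.θb) / c.C0 * (c.bl / 4) := by
      rw [← mul_div_assoc, div_mul_eq_mul_div, div_le_div_iff₀ η0 C00]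
      linarith only [e3, θ0, e0, C2, b2, mul_le_mul_of_nonneg_right b1 (pow_pos η0 2).le]
    linarith only [e3, θ0, e0, a1, a2]
  · rintro _ ⟨d, hd, rfl⟩
    have a : c.bl / 2 < c.C0 * d.V c M := hd.1.high
    obtain ⟨n, n1, n2, -⟩ := FGEO.floor_nat (x := c.C0 * d.V c M) (by linarith only [e3, θ0, e0, b3, a])
    exact ⟨n, by linarith only [b3, a, n2], d, ⟨hd, n1⟩, rfl⟩

end Pool.Agent.MP_9cbfe4_an

end

/-! ### Part FSC5 -/

section

/-! Row SC5: the scale of a violation of C5. -/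

namespace Pool.Agent.MP_9cbfe4_an

open Finset Filter Topology Real

noncomputable section

namespace FSC5
variable {K : ℕ} {c : Cs}

theorem cst (h : FNum K c) : (10 : ℝ) ≤ K ∧ 10 ^ 6 ≤ c.C0 ∧ 1000 ≤ c.C1 ∧ 1 ≤ c.lam ∧
    10 ^ 6 * ((K : ℝ) ^ 3 * (c.κ + 1) * c.e3) ≤ 1 ∧ c.e3 ≤ 1 := by
  obtain K0 : (10 : ℝ) ≤ K := by exact_mod_cast h.hK
  have κ := h.hκ
  have e0 := h.he.1
  obtain K3 : (1 : ℝ) ≤ K ^ 3 := one_le_pow₀ (by linarith only [K0])
  obtain a1 : 1 ≤ (K : ℝ) ^ 3 * (c.κ + 1) := one_le_mul_of_one_le_of_one_le K3 (by linarith only [κ])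
  have a2 : 1 ≤ (K : ℝ) ^ 3 * (c.κ + 1) * c.CG := one_le_mul_of_one_le_of_one_le a1 h.hG
  obtain a3 : 10 ^ 6 ≤ c.C0 * (1 - c.θb) := le_trans (by linarith only [a2]) h.hC0
  obtain C0 : 0 < c.C0 := by
    by_contra hn
    nlinarith only [a3, hn, h.hθ.2]
  obtain C1 : 10 ^ 6 ≤ c.C0 := by nlinarith only [a3, C0, h.hθ.1]
  obtain C2 : 1000 ≤ c.C1 := le_trans (by nlinarith only [K0, C1]) h.hC1
  obtain a4 : 1 ≤ c.C0 * c.C1 := one_le_mul_of_one_le_of_one_le (by linarith only [C1]) (by linarith only [C2])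
  obtain a5 : 10 ^ 6 * ((K : ℝ) ^ 3 * (c.κ + 1) * c.e3) ≤ 1 := by
    obtain p : 0 ≤ 10 ^ 6 * ((K : ℝ) ^ 3 * (c.κ + 1) * c.e3) := by (clear * - K0 κ e0; positivity)
    have := mul_le_mul_of_nonneg_left a4 p
    linarith only [this, h.he.2, h.hθ.1]
  obtain e1 : c.e3 ≤ 1 := by nlinarith only [a5, e0, a1]
  refine ⟨K0, C1, C2, ?_, a5, e1⟩
  have s0 := sqrt_nonneg c.a
  obtain s1 : sqrt c.a ≤ 1 := by
    have := h.ha.2.trans (pow_le_one₀ e0.le e1)
    nlinarith only [e0, C1, a5, this, a1, C0]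
  by_contra hn
  nlinarith only [e0, a5, s1, a1, s0, hn, h.hS]

/-- the numeric part -/
theorem num {K κ e C0 C1 lam ε th V W σ lw sr l R y : ℝ} (K0 : 10 ≤ K) (κ0 : 10 ≤ κ)
    (C00 : 10 ^ 6 ≤ C0) (C10 : 1000 ≤ C1) (l0 : 1 ≤ lam) (e0 : 0 < e)
    (he : 10 ^ 6 * (K ^ 3 * (κ + 1) * e) ≤ 1) (ε0 : 0 ≤ ε) (ε1 : ε ≤ e) (e1 : e ≤ 1) (th1 : th ≤ 1)
    (W0 : 0 ≤ W) (WV : W ≤ V) (σ0 : C1 * lam ≤ σ) (σ1 : σ ≤ 2 * e * V) (a1 : V ≤ lw + sr + σ)
    (a2 : lw ≤ W + σ / 2) (a3 : sr ≤ (κ + 1) * (W + σ)) (a4 : 100 * K ^ 2 * C1 * l ≤ W + 1)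
    (R0 : 0 ≤ R) (a5 : R ≤ 3 * (C1 * l + ε * V + ε * lam / 20)) (a6 : V ≤ y / C0 + 1) :
    V ≤ (2 * κ + 4) * W ∧ 1000 ≤ σ ∧ 10 ^ 5 * (K ^ 3 * σ) ≤ W ∧
      K ^ 2 * ((2 + 2 * th) * R + 4 * σ + 1) ≤ W / 5 ∧ 1000 * W ≤ y := by
  have V0 : 0 ≤ V := W0.trans WV
  obtain s1 : 1000 ≤ σ := le_trans (by nlinarith only [C10, l0]) σ0
  obtain ls : lam ≤ σ := le_trans (by nlinarith only [C10, l0]) σ0
  obtain K2 : 1 ≤ K ^ 2 := one_le_pow₀ (by linarith only [K0])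
  obtain K23 : K ^ 2 ≤ K ^ 3 := pow_le_pow_right₀ (by linarith only [K0]) (by norm_num)
  obtain p0 : 0 ≤ (κ + 1) * e := by positivity
  obtain b1 : (κ + 1) * e ≤ K ^ 3 * (κ + 1) * e := by
    rw [mul_assoc]; exact le_mul_of_one_le_left p0 (by linarith only [K2, K23])
  obtain b2 : (κ + 1) * σ ≤ 2 * ((κ + 1) * e) * V := by
    linarith only [κ0, mul_le_mul_of_nonneg_left σ1 (show 0 ≤ κ + 1 by linarith only [κ0])]
  obtain b3 : (κ + 1) * e * V ≤ 1 / 10 ^ 6 * V := mul_le_mul_of_nonneg_right (by linarith only [he, b1]) V0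
  obtain b4 : 11 * σ ≤ (κ + 1) * σ := mul_le_mul_of_nonneg_right (by linarith only [κ0]) (by linarith only [s1])
  obtain r1 : V ≤ (2 * κ + 4) * W := by linarith only [a1, a2, a3, s1, b2, b3, b4]
  obtain b5 : V ≤ 4 * ((κ + 1) * W) := by nlinarith only [e0, he, a1, a2, a3, s1, b1, b2, b3, b4, κ0, W0]
  obtain b6 : K ^ 3 * (e * V) ≤ 4 / 10 ^ 6 * W := by
    obtain c1 := mul_le_mul_of_nonneg_left b5 (show 0 ≤ K ^ 3 * e by positivity)
    have c2 := mul_le_mul_of_nonneg_right he W0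
    linarith only [c1, c2]
  obtain b7 : K ^ 3 * σ ≤ 2 * (K ^ 3 * (e * V)) := by
    linarith only [K0, mul_le_mul_of_nonneg_left σ1 (show 0 ≤ K ^ 3 by positivity)]
  obtain b8 : K ^ 2 * σ ≤ K ^ 3 * σ := mul_le_mul_of_nonneg_right K23 (by linarith only [s1])
  obtain b9 : σ ≤ K ^ 2 * σ := le_mul_of_one_le_left (by linarith only [s1]) K2
  refine ⟨r1, s1, by linarith only [W0, b6, b7], ?_, ?_⟩
  · have c1 : ε * V ≤ e * V := mul_le_mul_of_nonneg_right ε1 V0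
    obtain c2 : ε * lam ≤ σ := (mul_le_of_le_one_left (by linarith only [l0]) (by linarith only [ε1, e1])).trans ls
    have c3 : th * R ≤ R := mul_le_of_le_one_left R0 th1
    obtain c4 : (2 + 2 * th) * R + 4 * σ + 1 ≤ 12 * (C1 * l) + 12 * (e * V) + 6 * σ := by linarith only [a5, s1, c1, c2, c3]
    obtain c5 := mul_le_mul_of_nonneg_left c4 (show 0 ≤ K ^ 2 by positivity)
    obtain c6 : K ^ 2 * (e * V) ≤ K ^ 3 * (e * V) := mul_le_mul_of_nonneg_right K23 (by positivity)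
    linarith only [W0, a4, s1, b6, b7, b8, b9, c5, c6]
  · obtain c1 : W - 1 ≤ y / C0 := by linarith only [WV, a6]
    rw [le_div_iff₀ (by linarith only [C00])] at c1
    obtain c2 := mul_le_mul_of_nonneg_left C00 (show 0 ≤ W - 1 by linarith only [s1, b6, b7, b8, b9])
    linarith only [s1, b6, b7, b8, b9, c1, c2]

theorem slow {K W σ k : ℝ} (K0 : 10 ≤ K) (σ1 : 1000 ≤ σ) (h : 10 ^ 5 * (K ^ 3 * σ) ≤ W)
    (hk : W ≤ (K + 1) * k) : K * σ ≤ W / 2 ∧ W / (2 * K) + W / (3 * K) + 3 + 3 * σ ≤ k := by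
  obtain a1 : K * σ ≤ K ^ 3 * σ :=
    mul_le_mul_of_nonneg_right (le_self_pow₀ (by linarith only [K0]) (by norm_num)) (by linarith only [σ1])
  obtain a2 : 10 * σ ≤ K * σ := mul_le_mul_of_nonneg_right K0 (by linarith only [σ1])
  refine ⟨by linarith only [σ1, h, a1, a2], ?_⟩
  obtain ⟨u, rfl⟩ : ∃ u, W = K * u := ⟨W / K, by field_simp⟩
  obtain e1 : K * u / (2 * K) = u / 2 := by field_simp
  obtain e2 : K * u / (3 * K) = u / 3 := by field_simp
  rw [e1, e2]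
  obtain u1 : 10 ^ 5 * σ ≤ u := le_of_mul_le_mul_left (a := K) (by linarith only [a1, h]) (by linarith only [K0])
  refine le_of_mul_le_mul_left (a := K + 1) (le_trans ?_ hk) (by linarith only [K0])
  obtain a3 := mul_le_mul_of_nonneg_left u1 (show 0 ≤ K by linarith only [K0])
  obtain a4 := mul_le_mul_of_nonneg_right K0 (show 0 ≤ u by linarith only [σ1, u1])
  obtain a5 := mul_le_mul_of_nonneg_left σ1 (show 0 ≤ K by linarith only [K0])
  linarith only [σ1, a1, a2, h, a4, a5]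

end FSC5

theorem sc5 (K : ℕ) (c : Cs) : SC5_s K c := by
  intro M sd cx d σ gd bad s0 s1
  obtain ⟨K0, C0, C1, lam, he, e1⟩ := FSC5.cst cx.num
  have fe := gd.fe
  have jf := gd.jf
  have e0 := cx.num.he.1
  obtain ⟨b1, b2, b3⟩ : c.C7 K * d.ld c M ≤ d.W c M d.p ∧
      |(d.S M).rho d.ξ d.n d.p| ≤ exp (-2 * d.W c M d.p) ∧
      |M.sgm c d.t (d.S M) d.ξ d.n d.p (c.C0 * d.V c M)| <
        exp (-(1 - 1 / (2 * K)) * d.W c M d.p) / 2 := by
    by_contra hn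
    refine bad fun h1 h2 => not_lt.1 fun h3 => hn ⟨h1, h2, h3⟩
  have pm : (d.p, d.r) ∈ d.Lf := List.mem_cons_self
  obtain ⟨jT, w0, W1, W2, w1, w2, -⟩ := fe.ent _ pm
  have ok := fe.ok σ s0
  have last := ok.last
  rw [fe.top] at last
  have np := (fe.el _ pm).lt.1
  unfold Dat.Sc5At
  simp only at jT w0 W1 W2 w1 w2 np
  have rg := ok.rng _ jT
  have lw := ok.lw _ jT
  obtain ε0 : 0 ≤ c.ε := by rw [cx.num.hε]; positivity
  obtain ε1 : c.ε ≤ c.e3 := by rw [cx.num.hε]; exact pow_le_of_le_one e0.le e1 (by norm_num)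
  have V0 : 0 ≤ d.V c M := rg.2.1.trans rg.2.2
  obtain th0 : 0 ≤ c.th := div_nonneg zero_le_one (by linarith only [C0])
  obtain th1 : c.th ≤ 1 := (div_le_one (by linarith only [C0])).2 (by linarith only [C0])
  obtain R0 : 0 ≤ (d.prof c M).Rb c (d.p - d.n) := le_trans
    (show 0 ≤ c.cc by rw [Cs.cc]; (clear * - ε0 lam; positivity)) ((le_fold_max _).2 (.inl le_rfl))
  obtain ⟨n1, n2, n3, n4, n5⟩ := FSC5.num K0 cx.num.hκ C0 C1 lam e0 he ε0 ε1 e1 th1 rg.2.1 rg.2.2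
    (le_trans (le_add_of_nonneg_left (by (clear * - e0 V0; positivity))) (fe.sl.1.trans s0)) s1 last lw.2
    (ok.cap _ jT) (b1.trans W2) R0 (fe.rx _ le_rfl) fe.lev.2.1
  set W := (d.prof c M).Wr (d.p - d.n) with hW
  set R := (d.prof c M).Rb c (d.p - d.n) with hR
  set y := d.y c M with hy
  set F := d.g c M sd d.p with hF
  set B := d.B5 c M σ with hB
  have Be : B = exp ((d.prof c M).lw (d.p - d.n) - (W + 1 + 3 * σ)) := rfl
  set lo := (d.prof c M).lw (d.p - d.n) with hlo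
  obtain K1 : (1 : ℝ) ≤ K ^ 2 := one_le_pow₀ (by linarith only [K0])
  obtain K3 : σ ≤ (K : ℝ) ^ 3 * σ :=
    le_mul_of_one_le_left (by linarith only [n2]) (one_le_pow₀ (by linarith only [K0]))
  obtain σW : 10 ^ 5 * σ ≤ W := by linarith only [K3, n3]
  obtain x0 : 0 ≤ (2 + 2 * c.th) * R + 4 * σ :=
    add_nonneg (by (clear * - th0 R0; positivity)) (by linarith only [n2])
  have c1 : (2 + 2 * c.th) * R + 4 * σ ≤ (d.prof c M).cl c σ (d.p - d.n) := Nat.le_ceil _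
  have c2 : ((d.prof c M).cl c σ (d.p - d.n) : ℝ) ≤ (2 + 2 * c.th) * R + 4 * σ + 1 :=
    (Nat.ceil_lt_add_one x0).le
  set cl := (d.prof c M).cl c σ (d.p - d.n) with hcl
  obtain c3 : (K : ℝ) ^ 2 * cl ≤ W / 5 := (mul_le_mul_of_nonneg_left c2 (by (clear * - K0; positivity))).trans n4
  obtain c4 : (cl : ℝ) ≤ W / 5 := (le_mul_of_one_le_left (by (clear * -; positivity)) K1).trans c3
  obtain adm : ∀ s, s ≤ σ → (d.S M).rho d.ξ d.n d.p ^ 2 * exp (d.W c M d.p) ≤ exp (-s) := by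
    intro s hs
    have := pow_le_pow_left₀ (abs_nonneg _) b2 2
    rw [sq_abs] at this
    refine (mul_le_mul_of_nonneg_right this (exp_pos _).le).trans ?_
    rw [sq, ← exp_add, ← exp_add]
    exact exp_le_exp.2 (by linarith only [hs, σW, W1, n2])
  have y1 : y / 200 ≤ (⌈y / 200⌉₊ : ℝ) := Nat.le_ceil _
  obtain y2 : (⌈y / 200⌉₊ : ℝ) ≤ y / 200 + 1 :=
    (Nat.ceil_lt_add_one (by linarith only [n5, σW, n2])).le
  obtain km : ⌈y / 200⌉₊ ∈ {k : ℕ | cl ≤ k ∧ Nj K F d.t (exp (-k)) ≤ B} := by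
    refine ⟨by exact_mod_cast (show (cl : ℝ) ≤ (⌈y / 200⌉₊ : ℝ) by
      linarith only [c4, y1, n5, σW, n2]), Nj_le (exp_pos _).le fun i i1 i2 => ?_⟩
    refine (mul_le_mul_of_nonneg_right (jf.crude _ pm (adm _ s0) i i1 i2) (by positivity)).trans ?_
    rw [← exp_nat_mul, ← exp_add]
    obtain i1' : (1 : ℝ) ≤ i := by exact_mod_cast i1
    obtain a1 := mul_le_mul_of_nonneg_left y1 (show (0 : ℝ) ≤ i by positivity)
    obtain a2 := mul_le_mul_of_nonneg_right i1' (show 0 ≤ y by linarith only [n5, σW, n2])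
    exact exp_le_exp.2 (by linarith only [a1, a2, lw.1, n5, σW, n2])
  have kd : d.k5 K c M sd σ = sInf {k : ℕ | cl ≤ k ∧ Nj K F d.t (exp (-k)) ≤ B} := rfl
  have k1 : d.k5 K c M sd σ ≤ ⌈y / 200⌉₊ := Nat.sInf_le km
  obtain ⟨k2, up⟩ : d.k5 K c M sd σ ∈ {k : ℕ | cl ≤ k ∧ Nj K F d.t (exp (-k)) ≤ B} :=
    Nat.sInf_mem ⟨_, km⟩
  set k := d.k5 K c M sd σ with hk
  obtain k1' : (k : ℝ) ≤ y / 100 := by
    obtain this : (k : ℝ) ≤ (⌈y / 200⌉₊ : ℝ) := by exact_mod_cast k1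
    linarith only [this, y2, n5, σW, n2]
  obtain k2' : (cl : ℝ) ≤ k := by exact_mod_cast k2
  obtain Bν : B ≤ exp (-(W + 1 + 3 * σ)) * d.wq M d.p := by
    rw [Be, sub_eq_neg_add, exp_add]; exact mul_le_mul_of_nonneg_left w1 (exp_pos _).le
  obtain val : ∀ ν, ν ≤ exp (-(W + 1 + 3 * σ)) → Nj K F d.t (exp (-(k : ℝ))) ≤ ν * d.wq M d.p →
      d.Val K c M sd σ d.p (exp (-(k : ℝ))) ν R := fun ν h1 h2 =>
    ⟨⟨_, pm⟩, ⟨s0, by linarith only [σW, W1, n2]⟩, adm _ le_rfl,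
      ⟨R0, fun x hx h => fe.rb x hx _ (by omega)⟩,
      exp_le_exp.2 (by linarith only [k1']), exp_le_exp.2 (by linarith only [c1, k2', n2]),
      (mul_le_mul_of_nonneg_right h1 (exp_pos _).le).trans (by
        rw [← exp_add]; exact exp_le_exp.2 (by linarith only [W2, n2])), h2⟩
  have v1 := val _ le_rfl (up.trans Bν)
  have v2 := val (Nj K F d.t (exp (-(k : ℝ))) / d.wq M d.p) ((div_le_iff₀ w0).2 (up.trans Bν))
    (div_mul_cancel₀ _ w0.ne').ge
  have j3 := (jf.j3 _ _ _ _ _ v1).1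
  rw [← exp_nat_mul, exp_le_exp] at j3
  push_cast at j3
  obtain ⟨q1, q2⟩ := FSC5.slow (k := k) K0 n2 n3 (by linarith only [j3, n2])
  obtain k3 : cl < k := by
    by_contra hn
    obtain a1 : (k : ℝ) ≤ cl := by exact_mod_cast not_lt.1 hn
    obtain a2 : (K : ℝ) + 1 ≤ K ^ 2 := by nlinarith only [K0]
    obtain a3 := mul_le_mul a2 a1 (by (clear * -; positivity)) (by (clear * - K0; positivity))
    linarith only [a3, c3, j3, σW, n2]
  refine ⟨⟨n1, b1.trans W2, k1'⟩, v1, up, ?_, ?_, fun τ hτ => ?_, ?_⟩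
  · obtain ⟨i, hi⟩ : ∃ i, k = i + 1 := ⟨k - 1, by omega⟩
    obtain a1 : i ∉ {k : ℕ | cl ≤ k ∧ Nj K F d.t (exp (-k)) ≤ B} :=
      Nat.notMem_of_lt_sInf (by rw [← kd]; omega)
    obtain a2 : B ≤ Nj K F d.t (exp (-(i : ℝ))) := (not_le.1 fun h => a1 ⟨by omega, h⟩).le
    obtain a3 := Nj_exp_ge (K := K) (F := F) (t := d.t) (a := i) (b := k) (by rw [hi]; push_cast; linarith only [])
    rw [show (k : ℝ) - i = 1 by rw [hi]; push_cast; ring, mul_one] at a3
    rw [exp_neg, inv_mul_le_iff₀ (exp_pos _)]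
    exact a2.trans a3
  · refine (DChain.of_contDiffOn isOpen_Ioo (jf.sm d.p np.le)).mono le_rfl fun τ hτ => ?_
    obtain r0 : exp (-(k : ℝ)) ≤ c.rU y := by
      rw [Cs.rU, Cs.S0, ← exp_nat_mul, one_div, ← exp_neg]
      have := fe.sl.2.2.1.trans s0
      obtain x1 : 0 ≤ (2 + 2 * c.th) * R := by (clear * - th0 R0; positivity)
      exact exp_le_exp.2 (by push_cast; linarith only [this, x1, c1, k2', n2])
    have r1 := exp_pos (-(k : ℝ))
    exact ⟨by linarith only [hτ.1, r0, r1], by linarith only [hτ.2, r0, r1]⟩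
  · refine (jf.j4 _ _ _ _ _ v2 τ (abs_le.2 ⟨by linarith only [hτ.1], by linarith only [hτ.2]⟩)).trans ?_
    rw [div_mul_cancel₀ _ w0.ne']
    exact div_le_self Nj_nonneg (by norm_num)
  · have a1 := jf.spd σ s0 v1.sl.2 b2
    have a2 := (jf.xi _ _ _ _ _ v1).2
    obtain K2 : (0 : ℝ) < 2 * K := by linarith only [K0]
    obtain a3 : exp (σ - d.W c M d.p) ≤ exp (-(1 - 1 / (2 * K)) * d.W c M d.p) := by
      obtain this : σ ≤ d.W c M d.p / (2 * K) := by rw [le_div_iff₀ K2]; linarith only [q1, W1]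
      exact exp_le_exp.2 (by rw [div_eq_mul_one_div] at this; linarith only [this])
    obtain a4 : exp (-(1 - 1 / (2 * K)) * d.W c M d.p) ≤ exp (W / (2 * K) - W) := by
      obtain t1 : 1 / (2 * (K : ℝ)) ≤ 1 := (div_le_one K2).2 (by linarith only [K0])
      have := mul_le_mul_of_nonneg_left W1 (sub_nonneg.2 t1)
      exact exp_le_exp.2 (by rw [div_eq_mul_one_div W]; linarith only [this])
    obtain a5 := mul_le_mul b3.le a2 (abs_nonneg _) (by positivity)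
    rw [← abs_mul] at a5
    have a6 := abs_sub_abs_le_abs_sub (deriv F d.t)
      (M.sgm c d.t (d.S M) d.ξ d.n d.p (c.C0 * d.V c M) * d.xs c M sd d.p)
    have a7 := mul_le_mul_of_nonneg_right a3 w0.le
    have a8 := mul_le_mul a4 w2 w0.le (exp_pos _).le
    obtain a9 : |deriv F d.t| ≤ exp 1 * (exp (W / (2 * K) - W) * exp (lo + 1)) := by
      obtain this := mul_le_mul_of_nonneg_right (show 2 ≤ exp 1 by linarith only [add_one_le_exp (1 : ℝ)])
        (show 0 ≤ exp (W / (2 * K) - W) * exp (lo + 1) by positivity)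
      linarith only [a1, a5, a6, a7, a8, this]
    refine (mul_le_mul_of_nonneg_right a9 (exp_pos _).le).trans ?_
    rw [Be, ← exp_add, ← exp_add, ← exp_add, ← exp_add]
    exact exp_le_exp.2 (by linarith only [q2])

end
end Pool.Agent.MP_9cbfe4_an

end

/-! ### Part FF5 -/

section

/-! Section F, row F5: the violations of C5 are rare. -/

namespace Pool.Agent.MP_9cbfe4_an

open Finset Filter Topology MeasureTheory

namespace FF5

lemma fam_mono {K : ℕ} {c : Cs} {M : Mdl} {sd : Fd → ℝ → Seed} {y tU nu : ℝ} {lab : Dat → ℝ}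
    {π : Prof} {C C' : Set Dat} (h : Fam K c M sd y tU nu lab π C) (s : C' ⊆ C) :
    Fam K c M sd y tU nu lab π C' where
  gd z hz := h.gd z (s hz)
  lvl z hz := h.lvl z (s hz)
  nu_eq z hz := h.nu_eq z (s hz)
  two z hz z' hz' := h.two z (s hz) z' (s hz')
  loc x l1 l2 h1 h2 := (h.loc x l1 l2 h1 h2).imp fun _ H =>
    ⟨H.1, fun _ ⟨a, z, hz, e⟩ => H.2 ⟨a, z, s hz, e⟩⟩
  low l hl := (h.low l hl).imp fun _ H => ⟨H.1, fun _ ⟨z, hz, e⟩ => H.2 ⟨z, s hz, e⟩⟩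

lemma geo {A : ℕ → Set ℝ} {e y0 : ℝ} (e0 : 0 < e) (e1 : e ≤ 1) (hy : 100 ≤ e ^ 2 * y0)
    (h : ∀ n : ℕ, A n = ∅ ∨ (y0 ≤ n ∧ volume (A n) ≤ ENNReal.ofReal (Real.exp (-(2 * e * n))))) :
    volume (⋃ n, A n) ≤ 1 / 30 := by
  have r0 : 0 ≤ Real.exp (-e) := (Real.exp_pos _).le
  obtain r1 : Real.exp (-e) ≤ 1 - e / 2 := by
    have h1 := Real.add_one_le_exp e
    obtain h2 : Real.exp (-e) * Real.exp e = 1 := by rw [← Real.exp_add]; simp
    nlinarith only [h2, e0, e1, r0, h1]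
  obtain hs := hasSum_geometric_of_lt_one r0 (by linarith only [e0, r1])
  obtain h1 : ∀ n, volume (A n) ≤ ENNReal.ofReal (e / 100 * Real.exp (-e) ^ n) := fun n => by
    rcases h n with h | ⟨a, b⟩
    · simp [h]
    · refine b.trans (ENNReal.ofReal_le_ofReal ?_)
      rw [← Real.exp_nat_mul, show -(2 * e * n) = -(e * n) + n * -e by ring, Real.exp_add]
      refine mul_le_mul_of_nonneg_right ?_ (Real.exp_pos _).le
      obtain h2 : Real.exp (-(e * n)) * Real.exp (e * n) = 1 := by rw [← Real.exp_add]; simp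
      have h3 := Real.add_one_le_exp (e * n)
      obtain h4 : 100 ≤ e * Real.exp (e * n) := by nlinarith only [e0, hy, h3, mul_le_mul_of_nonneg_left a (sq_nonneg e)]
      nlinarith only [e0, h2, h4, Real.exp_pos (-(e * n))]
  refine (measure_iUnion_le A).trans ((ENNReal.tsum_le_tsum h1).trans ?_)
  rw [← ENNReal.ofReal_tsum_of_nonneg (fun n => by positivity) (hs.mul_left _).summable,
    (hs.mul_left _).tsum_eq, show (1 / 30 : ENNReal) = ENNReal.ofReal (1 / 30) by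
      rw [ENNReal.ofReal_div_of_pos (by norm_num)]; simp]
  refine ENNReal.ofReal_le_ofReal ?_
  rw [← div_eq_mul_inv, div_le_iff₀ (by linarith only [e0, r1])]
  linarith only [e0, r1]

variable {K : ℕ} {c : Cs}

lemma nums (h : FNum K c) : 0 < c.e3 ∧ c.e3 ≤ 1 / 2 ∧ K * c.e3 ≤ 1 ∧ 1 ≤ c.C0 ∧ 1 ≤ c.C1 ∧
    1 ≤ c.lam ∧ 400 * K ^ 2 * (2 * c.κ + 4) * c.C0 * c.e3 ≤ 1 ∧ Real.sqrt c.a ≤ c.e3 ∧
    100 ≤ c.e3 ^ 2 * (c.bl / 2 - 1) := by
  obtain hK : (10 : ℝ) ≤ K := by exact_mod_cast h.hK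
  have e0 := h.he.1
  have hκ := h.hκ
  obtain k1 : (1 : ℝ) ≤ K := by linarith only [hK]
  obtain k3 : (K : ℝ) ^ 2 ≤ K ^ 3 := pow_le_pow_right₀ k1 (by norm_num)
  obtain k2 : (K : ℝ) ≤ K ^ 2 := le_self_pow₀ k1 (by norm_num)
  obtain a1 : 1 ≤ (K : ℝ) ^ 3 * (c.κ + 1) := one_le_mul_of_one_le_of_one_le (by linarith only [hK, k3, k2]) (by linarith only [hκ])
  obtain C0 : 1 ≤ c.C0 := by
    have a2 := one_le_mul_of_one_le_of_one_le a1 h.hG
    have a3 := h.hC0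
    by_contra hc
    nlinarith only [a2, a3, hc, h.hθ.1, h.hθ.2]
  obtain C1 : 1 ≤ c.C1 := by nlinarith only [hK, C0, h.hC1]
  obtain a4 : 10 ^ 6 * ((K : ℝ) ^ 3 * (c.κ + 1) * c.C0 * c.e3) ≤ 1 := by
    obtain this := mul_le_mul_of_nonneg_left C1
      (show 0 ≤ (K : ℝ) ^ 3 * (c.κ + 1) * c.C0 * c.e3 by (clear * - hK hκ C0 e0; positivity))
    linarith only [this, h.he.2, h.hθ.1]
  obtain a5 : (K : ℝ) ^ 3 * c.e3 ≤ K ^ 3 * (c.κ + 1) * c.C0 * c.e3 := by
    obtain this := mul_le_mul_of_nonneg_left (one_le_mul_of_one_le_of_one_le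
      (show 1 ≤ c.κ + 1 by linarith only [hκ]) C0) (show 0 ≤ (K : ℝ) ^ 3 * c.e3 by positivity)
    linarith only [this]
  have a6 := mul_le_mul_of_nonneg_right (k2.trans k3) e0.le
  have a7 := mul_le_mul_of_nonneg_right k1 e0.le
  obtain e1 : c.e3 ≤ 1 / 2 := by linarith only [e0, a4, a5, a6, a7]
  obtain lam : 1 ≤ c.lam := by
    by_contra hc
    have := h.hl.2
    rcases le_or_gt c.lam 0 with h0 | h0
    · have hS := h.hS
      nlinarith only [hS, h0, Real.sqrt_nonneg c.a]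
    · linarith only [e0, a4, a5, a6, a7, hc, this, Real.log_le_sub_one_of_pos h0]
  obtain p1 : c.e3 ^ 25 ≤ c.e3 ^ 2 := pow_le_pow_of_le_one e0.le (by linarith only [e0, a4, a5, a6, a7]) (by norm_num)
  obtain p2 : c.e3 ^ 2 ≤ c.e3 := pow_le_of_le_one e0.le (by linarith only [e0, a4, a5, a6, a7]) (by norm_num)
  obtain p3 : 0 < c.e3 ^ 25 := by positivity
  obtain M1 : 1 ≤ c.M1 := by
    by_contra hc
    nlinarith only [C0, a4, a5, p1, hK, k3, a6, a7, e0, p3, k2, hc, h.hM]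
  obtain b1 : 1000 ≤ c.β * c.e3 ^ 25 := by
    have := one_le_mul_of_one_le_of_one_le (one_le_mul_of_one_le_of_one_le C0 C1) M1
    linarith only [this, h.hβ]
  obtain b0 : 0 < c.β := by
    by_contra hc
    nlinarith only [a4, a5, b1, hK, k3, a6, a7, e0, p1, p3, k2, hc]
  refine ⟨e0, e1, by linarith only [e0, a4, a5, a6, a7], C0, C1, lam, ?_, ?_, ?_⟩
  · obtain this := mul_le_mul_of_nonneg_right k3 (show 0 ≤ (c.κ + 1) * c.C0 * c.e3 by positivity)
    obtain this := mul_le_mul_of_nonneg_left (show 2 * c.κ + 4 ≤ 4 * (c.κ + 1) by linarith only [e0, hκ, a4, a5, a6, a7])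
      (show 0 ≤ (K : ℝ) ^ 2 * c.C0 * c.e3 by positivity)
    (rename_i zq0; linarith only [e0, a4, a5, a6, a7, zq0, this])
  · nlinarith only [p1, hK, k3, k2, a4, a5, a6, a7, e0, C0, p3, h.ha.2, Real.sqrt_nonneg c.a]
  · have := mul_le_mul_of_nonneg_left p1 b0.le
    obtain this := mul_le_mul_of_nonneg_left lam (show 0 ≤ c.β * c.e3 ^ 2 by positivity)
    unfold Cs.bl
    (rename_i zq0; linarith only [e0, a4, a5, a6, a7, p2, b1, zq0, this])

variable {M : Mdl} {sd : Fd → ℝ → Seed}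

lemma sig (h : FNum K c) {z : Dat} (g : z.Gd K c M sd) :
    z.s0 c M ≤ c.e3 ^ 2 * (z.y c M / c.C0 + 1) + c.C1 * c.lam ∧
    c.e3 ^ 2 * (z.y c M / c.C0 + 1) + c.C1 * c.lam ≤ 2 * c.e3 * z.V c M ∧ 1 ≤ z.V c M := by
  obtain ⟨e0, e1, -, -, C1, lam, -⟩ := nums h
  obtain ⟨l1, l2, -⟩ := g.fe.lev
  obtain ⟨s1, s2, -⟩ := g.fe.sl
  have a1 := one_le_mul_of_one_le_of_one_le C1 lam
  obtain V0 : 0 ≤ z.V c M := by
    by_contra hc
    obtain p : c.e3 ^ 22 ≤ c.e3 := pow_le_of_le_one e0.le (by linarith only [e0, e1]) (by norm_num)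
    nlinarith only [e1, s1, s2, a1, e0, hc, p]
  obtain a2 : c.C1 * c.lam ≤ c.e3 * z.V c M := by
    obtain this : 0 ≤ c.e3 ^ 22 * z.V c M := by (clear * - e0 V0; positivity)
    linarith only [s1, s2, this]
  obtain V1 : 2 ≤ z.V c M := by nlinarith only [e1, a1, a2, e0]
  refine ⟨?_, ?_, by linarith only [e0, e1, V1]⟩
  · have := mul_le_mul_of_nonneg_left ((min_le_left _ ((z.S M).xx c z.n (z.V c M))).trans l2)
      (sq_nonneg c.e3)
    unfold Dat.s0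
    linarith only [this]
  · have h1 := mul_le_mul_of_nonneg_left (add_le_add_left l1 1) (sq_nonneg c.e3)
    obtain h2 : c.e3 * (z.V c M + 1) ≤ z.V c M := by nlinarith only [e1, V1, e0, V0]
    have h3 := mul_le_mul_of_nonneg_left h2 e0.le
    linarith only [a2, h1, h3]

lemma fin {y u l : ℝ} (e0 : 0 < c.e3) (Ke : K * c.e3 ≤ 1) (y0 : 0 < y) (y2 : 100 ≤ c.e3 ^ 2 * y)
    (y3 : 400 ≤ y) (sa : Real.sqrt c.a ≤ c.e3) (u1 : 100 * (c.e3 * y) ≤ u) (l0 : 0 ≤ l)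
    (l1 : l ≤ u / 2) : ((⌊y / 100⌋₊ + 1 : ℕ) : ℝ) * (36 * (c.S0 y * 2 ^ l) * 2 ^ K * Real.exp (-u))
      ≤ Real.exp (-(3 * c.e3 * y)) := by
  have S0 : 0 < c.S0 y := Real.exp_pos _
  have := mul_pos e0 y0
  obtain two : (2 : ℝ) ≤ Real.exp 1 := by linarith only [Real.add_one_le_exp 1]
  obtain h1 : ((⌊y / 100⌋₊ + 1 : ℕ) : ℝ) * 36 ≤ Real.exp (c.e3 * y) := by
    obtain a := Nat.floor_le (show 0 ≤ y / 100 by positivity)
    obtain b := Real.quadratic_le_exp_of_nonneg (show 0 ≤ c.e3 * y by positivity)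
    have d := mul_le_mul_of_nonneg_right y2 y0.le
    push_cast
    linarith only [y3, this, a, b, d]
  have h2 : c.S0 y ≤ Real.exp (c.e3 * y) :=
    Real.exp_le_exp.2 (mul_le_mul_of_nonneg_right sa y0.le)
  obtain h3 : (2 : ℝ) ^ l ≤ Real.exp (u / 2) :=
    (Real.rpow_le_rpow (by norm_num) two l0).trans (by
      rw [Real.exp_one_rpow]; exact Real.exp_le_exp.2 l1)
  obtain h4 : (2 : ℝ) ^ K ≤ Real.exp (c.e3 * y) :=
    (pow_le_pow_left₀ (by norm_num) two K).trans (by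
      rw [← Real.exp_nat_mul, mul_one]
      refine Real.exp_le_exp.2 (le_of_mul_le_mul_left ?_ e0)
      linarith only [Ke, y2])
  calc _ = ((⌊y / 100⌋₊ + 1 : ℕ) : ℝ) * 36 * c.S0 y * 2 ^ l * 2 ^ K * Real.exp (-u) := by ring
    _ ≤ Real.exp (c.e3 * y) * Real.exp (c.e3 * y) * Real.exp (u / 2) * Real.exp (c.e3 * y) *
        Real.exp (-u) := by gcongr
    _ ≤ _ := by
      simp only [← Real.exp_add]
      exact Real.exp_le_exp.2 (by linarith only [u1, this])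

/-- one family -/
lemma one (hS : SC5_s K c) (hC : CEL5_s K c) (x : Ctx K c M sd) {y tU nu : ℝ} {lab : Dat → ℝ}
    {π : Prof} {C : Set Dat} (hy : c.bl / 2 - 1 ≤ y) (F : Fam K c M sd y tU nu lab π C)
    (bad : ∀ z ∈ C, z.Bad5 c M K) :
    volume (Dat.tt '' C) ≤ ENNReal.ofReal (Real.exp (-(3 * c.e3 * y))) := by
  rcases C.eq_empty_or_nonempty with rfl | ⟨z0, h0⟩
  · simp
  obtain ⟨e0, e1, Ke, C0, C1, lam, hA, sa, hb⟩ := nums x.num
  obtain hK : (10 : ℝ) ≤ K := by exact_mod_cast x.num.hK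
  have hκ := x.num.hκ
  obtain ⟨σ, hσ⟩ : ∃ σ, σ = c.e3 ^ 2 * (y / c.C0 + 1) + c.C1 * c.lam := ⟨_, rfl⟩
  obtain ⟨W, hW⟩ : ∃ W : ℝ, W = π.Wr π.top := ⟨_, rfl⟩
  obtain sg : ∀ z ∈ C, z.s0 c M ≤ σ ∧ σ ≤ 2 * c.e3 * z.V c M ∧ 1 ≤ z.V c M := fun z hz => by
    have := sig x.num (F.gd z hz)
    rwa [(F.lvl z hz).1, ← hσ] at this
  obtain lev : ∀ z ∈ C, z.V c M ≤ (2 * c.κ + 4) * W ∧ c.C7 K * z.ld c M ≤ W + 1 ∧
      (z.k5 K c M sd σ : ℝ) ≤ y / 100 := fun z hz => by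
    have := (hS M sd x z σ (F.gd z hz) (bad z hz) (sg z hz).1 (sg z hz).2.1).lev
    rwa [← (F.gd z hz).fe.top, (F.lvl z hz).2.2, ← hW, (F.lvl z hz).1] at this
  have y2 : 100 ≤ c.e3 ^ 2 * y := hb.trans (mul_le_mul_of_nonneg_left hy (sq_nonneg _))
  obtain y0 : 0 < y := by
    by_contra hc
    nlinarith only [e0, e1, y2, hc, sq_nonneg c.e3]
  obtain y1 : 200 ≤ c.e3 * y := by nlinarith only [hK, Ke, y2, mul_pos e0 y0]
  obtain y3 : 400 ≤ y := by nlinarith only [e1, y2, hK, e0, Ke]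
  obtain W1 : y ≤ c.C0 * ((2 * c.κ + 4) * W) := by
    have := (F.gd z0 h0).fe.lev.1.trans (lev z0 h0).1
    rwa [(F.lvl z0 h0).1, div_le_iff₀' (by linarith only [e0, e1, C0])] at this
  obtain W0 : 0 ≤ W := by
    by_contra hc
    nlinarith only [Ke, hK, e0, hc, e1, hκ, (lev z0 h0).1, (sg z0 h0).2.2]
  obtain K2 : (100 : ℝ) ≤ K ^ 2 := by nlinarith only [hK]
  obtain ⟨u, hu⟩ : ∃ u : ℝ, u = W / (4 * K ^ 2) := ⟨_, rfl⟩
  obtain hu' : W = 4 * K ^ 2 * u := by rw [hu]; field_simp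
  obtain u1 : 100 * (c.e3 * y) ≤ u := by
    obtain h1 := mul_le_mul_of_nonneg_left W1 (show 0 ≤ 400 * (K : ℝ) ^ 2 * c.e3 by positivity)
    have h2 := mul_le_mul_of_nonneg_right hA W0
    refine le_of_mul_le_mul_left (a := 4 * (K : ℝ) ^ 2) ?_ (by positivity)
    linarith only [hu', h1, h2]
  obtain C7 : 0 < c.C7 K := by unfold Cs.C7; positivity
  obtain ⟨l, hl⟩ : ∃ l, l = (W + 1) / c.C7 K := ⟨_, rfl⟩
  obtain l0 : 0 ≤ l := by rw [hl]; (clear * - W0 C7; positivity)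
  obtain l1 : l ≤ u / 2 := by
    rw [hl, div_le_iff₀ C7]
    obtain u0 : 0 ≤ u := by linarith only [e0, e1, y1, u1]
    obtain h1 := mul_le_mul_of_nonneg_left C1 (show 0 ≤ (K : ℝ) ^ 2 * u by (clear * - hK u0; positivity))
    have h2 := mul_le_mul_of_nonneg_right K2 u0
    unfold Cs.C7
    linarith only [e0, e1, y1, hu', u1, h1, h2]
  obtain ⟨T2, c2, p2⟩ := F.low l l0
  obtain q2 : ∀ z ∈ C, ∃ a ∈ T2, lab z ∈ Set.Icc a (a + tiny y) := fun z hz => by
    have h1 := (F.gd z hz).fe.ld.2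
    rw [(F.lvl z hz).1] at h1
    simpa only [Set.mem_iUnion, exists_prop] using p2 ⟨z, hz, h1.trans (by
      rw [hl, le_div_iff₀' C7]; exact (lev z hz).2.1), rfl⟩
  have S0 : 0 < c.S0 y := Real.exp_pos _
  have step (k : ℕ) : volume (Dat.tt '' {z | z ∈ C ∧ z.k5 K c M sd σ = k}) ≤
      ENNReal.ofReal (36 * (c.S0 y * 2 ^ l) * 2 ^ K * Real.exp (-u)) := by
    have k0 := Real.exp_pos (-(k : ℝ))
    obtain k1 : Real.exp (-(k : ℝ)) ≤ 1 := Real.exp_le_one_iff.2 (by simp)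
    obtain ⟨T1, c1, p1⟩ := Cov.sub_Icc (h := 1) (h' := Real.exp (-(k : ℝ)) / 8) 0 zero_le_one
      (by positivity)
    obtain H := (Cov.of_prod (t := Dat.tt) (lab := lab) (C := {z | z ∈ C ∧ z.k5 K c M sd σ = k}) T1 T2
      (fun z hz => p1 _ ⟨by linarith only [e0, e1, (F.gd z hz.1).pre.ht.1, show z.tt = z.t from rfl],
        by linarith only [e0, e1, (F.gd z hz.1).pre.ht.2, show z.tt = z.t from rfl]⟩)
      fun z hz => q2 z hz.1).step (by positivity) fun a b => hC M sd x y tU nu lab π _ σ k a b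
        (fam_mono F fun z hz => hz.1.1) fun z hz =>
          ⟨bad z hz.1.1, (sg z hz.1.1).1, (sg z hz.1.1).2.1, hz.1.2, hz.2.1, hz.2.2⟩
    refine (H.vol (by positivity)).trans (ENNReal.ofReal_le_ofReal ?_)
    rw [← hW, ← hu]
    obtain h1 : (T1.card : ℝ) * Real.exp (-(k : ℝ)) ≤ 9 := by
      have := mul_le_mul_of_nonneg_right c1 k0.le
      rw [add_mul, one_div_div, div_mul_cancel₀ _ k0.ne'] at this
      linarith only [k1, this]
    obtain h2 := mul_le_mul h1 c2 (Nat.cast_nonneg _) (by norm_num)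
    obtain h3 := mul_le_mul_of_nonneg_right h2
      (show 0 ≤ 4 * (2 : ℝ) ^ K * Real.exp (-u) by positivity)
    linarith only [h3]
  calc volume (Dat.tt '' C)
      ≤ volume (⋃ k ∈ range (⌊y / 100⌋₊ + 1), Dat.tt '' {z | z ∈ C ∧ z.k5 K c M sd σ = k}) := by
        refine measure_mono ?_
        rintro _ ⟨z, hz, rfl⟩
        exact Set.mem_biUnion (mem_coe.2 (mem_range.2 (Nat.lt_succ_of_le
          (Nat.le_floor (lev z hz).2.2)))) ⟨z, ⟨hz, rfl⟩, rfl⟩
    _ ≤ _ := measure_biUnion_finset_le _ _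
    _ ≤ _ := sum_le_card_nsmul _ _ _ fun k _ => step k
    _ ≤ _ := by
      rw [card_range, nsmul_eq_mul, ← ENNReal.ofReal_natCast,
        ← ENNReal.ofReal_mul (Nat.cast_nonneg _)]
      refine ENNReal.ofReal_le_ofReal ?_
      exact fin e0 Ke y0 y2 y3 sa u1 l0 l1

end FF5

open FF5 in
theorem f5g (K : ℕ) (c : Cs) (hS : SC5_s K c) (hC : CEL5_s K c) (hD : DEC_s K c) : F5G_s K c := by
  intro M sd x
  obtain ⟨e0, e1, -, C0, -, -, -, -, hb⟩ := nums x.num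
  obtain key : ∀ d : Dat, d.Gd K c M sd → c.bl / 2 - 1 ≤ d.y c M := fun d g => by
    have h1 : c.bl / 2 < c.C0 * d.V c M := g.high
    have h2 := Int.sub_one_lt_floor (c.C0 * d.V c M)
    unfold Dat.y
    linarith only [h1, h2]
  refine le_trans (measure_mono ?_) (geo (A := fun n : ℕ =>
    Dat.tt '' {d | (d.Gd K c M sd ∧ d.Bad5 c M K) ∧ d.y c M = n}) e0 (by linarith only [e0, e1]) hb fun n => ?_)
  · rintro _ ⟨d, hd, rfl⟩
    obtain h1 : (0 : ℝ) ≤ (⌊c.C0 * d.V c M⌋ : ℤ) := by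
      have := key d hd.1
      by_contra hc
      unfold Dat.y at this
      nlinarith only [e0, e1, hb, this, hc, sq_nonneg c.e3]
    obtain ⟨n, hn⟩ := Int.eq_ofNat_of_zero_le (Int.cast_nonneg_iff.1 h1)
    exact Set.mem_iUnion.2 ⟨n, d, ⟨hd, by unfold Dat.y; rw [hn]; simp⟩, rfl⟩
  · by_cases hn : c.bl / 2 - 1 ≤ n
    · refine .inr ⟨hn, (hD M sd x n _ _ (Real.exp_pos _).le (fun z hz => ⟨hz.1.1, hz.2⟩)
        fun tU nu lab π C s F => one hS hC x hn F fun z hz => (s hz).1.2).trans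
          (ENNReal.ofReal_le_ofReal ?_)⟩
      rw [← Real.exp_add]
      obtain p : c.e3 ^ 21 ≤ c.e3 := pow_le_of_le_one e0.le (by linarith only [e0, e1]) (by norm_num)
      have q : (n : ℝ) / c.C0 ≤ n := div_le_self (Nat.cast_nonneg _) C0
      obtain this := mul_le_mul p q (by positivity) e0.le
      exact Real.exp_le_exp.2 (by linarith only [this])
    · refine .inl (Set.image_eq_empty.2 (Set.eq_empty_of_forall_notMem fun d hd => hn ?_))
      exact hd.2 ▸ key d hd.1.1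

end Pool.Agent.MP_9cbfe4_an

end

/-! ### Part FSCa -/

section

/-! Row SC, part a: constants and the abstract scale lemma. -/

namespace Pool.Agent.MP_9cbfe4_an.FSC

open Finset Real

variable {K : ℕ} {c : Cs} {σ w : ℝ}

structure Nm (K : ℕ) (c : Cs) (σ w : ℝ) : Prop where
  K10 : (10 : ℝ) ≤ K
  κ10 : 10 ≤ c.κ
  th0 : 0 < c.th
  thK : c.th * K ≤ 1 / 1000
  σK : 1000 * K ≤ σ
  lam : c.lam ≤ σ / 1000
  cc : 0 ≤ c.cc ∧ c.cc ≤ c.lam
  Tw : 1000 * (K : ℝ) ^ 2 * (c.κ + 1) * σ ≤ c.th * w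
  C0 : 10 ^ 4 ≤ c.C0

theorem nm (N : FNum K c) (h1 : c.C1 * c.lam ≤ σ) (h2 : σ ≤ c.e3 * w) : Nm K c σ w := by
  obtain hK : (10 : ℝ) ≤ K := by exact_mod_cast N.hK
  have hκ := N.hκ
  obtain ⟨t0, t1⟩ := N.hθ
  obtain ⟨e0, he⟩ := N.he
  obtain hK3 : (1000 : ℝ) ≤ (K : ℝ) ^ 3 := by
    calc (1000 : ℝ) = 10 ^ 3 := by norm_num
      _ ≤ _ := pow_le_pow_left₀ (by norm_num) hK 3
  obtain hP : 10 ^ 6 * (K : ℝ) ^ 3 ≤ 10 ^ 6 * (K : ℝ) ^ 3 * (c.κ + 1) * c.CG := by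
    obtain this : (1 : ℝ) ≤ (c.κ + 1) * c.CG := by nlinarith only [hκ, t0, t1, N.hG]
    nlinarith only [this, t0, t1, hK3]
  obtain hC : 0 < c.C0 := by
    by_contra h
    obtain this : c.C0 * (1 - c.θb) ≤ 0 := mul_nonpos_of_nonpos_of_nonneg (not_lt.1 h) (by linarith only [t1])
    linarith only [t0, t1, hK3, hP, this, N.hC0]
  obtain hC' : 10 ^ 6 * (K : ℝ) ^ 3 ≤ c.C0 := by nlinarith only [hP, t0, hC, N.hC0]
  obtain hl : 1 ≤ c.lam := by
    obtain h0 : 0 < c.lam := by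
      by_contra h
      have h3 := N.hS
      nlinarith only [h3, t0, t1, h, sqrt_nonneg c.a]
    linarith only [t0, t1, log_le_sub_one_of_pos h0, N.hl.2]
  obtain hC1 : 1000 * K ≤ c.C1 := by nlinarith only [hK, t0, t1, hK3, hC', N.hC1]
  obtain hσ : 1000 * K ≤ σ := by nlinarith only [h1, hC1, hl, t0, t1]
  obtain hKK : (K : ℝ) ≤ (K : ℝ) ^ 3 := le_self_pow₀ (by linarith only [hK, t0, t1]) (by norm_num)
  obtain hQ : 1 ≤ 10 ^ 6 * (K : ℝ) ^ 3 * (c.κ + 1) * c.C0 * c.C1 := by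
    obtain a1 : (1 : ℝ) ≤ 10 ^ 6 * (K : ℝ) ^ 3 * (c.κ + 1) := by nlinarith only [hκ, t0, t1, hK3]
    obtain a2 : (1 : ℝ) ≤ c.C0 * c.C1 := by nlinarith only [hK, hK3, hC', t0, t1, hC, hC1]
    nlinarith only [hK, hκ, hK3, hC', t0, t1, hC, hC1, a1, a2]
  obtain e1 : c.e3 ≤ 1 := by nlinarith only [he, t0, t1, e0, hQ]
  obtain hw : 0 ≤ w := by
    by_contra h
    nlinarith only [h2, hK, hσ, t0, t1, e0, h]
  refine ⟨hK, hκ, by unfold Cs.th; positivity, ?_, hσ, by nlinarith only [h1, hK, hC1, hσ, hl, t0, t1], ⟨?_, ?_⟩, ?_, by linarith only [t0, t1, hK3, hC']⟩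
  · unfold Cs.th
    rw [div_mul_eq_mul_div, div_le_iff₀ hC]
    linarith only [t0, t1, hK3, hC', hKK]
  · unfold Cs.cc
    rw [N.hε]; positivity
  · unfold Cs.cc
    rw [N.hε]
    have : c.e3 ^ 20 ≤ 1 := pow_le_one₀ e0.le e1
    nlinarith only [hl, this, t0, t1]
  · unfold Cs.th
    rw [div_mul_eq_mul_div, le_div_iff₀ hC, one_mul]
    obtain a1 : 1000 * (K : ℝ) ^ 2 * (c.κ + 1) * c.C0 ≤
        10 ^ 6 * (K : ℝ) ^ 3 * (c.κ + 1) * c.C0 * c.C1 := by
      obtain a2 : 0 ≤ (K : ℝ) ^ 2 * (c.κ + 1) * c.C0 := by positivity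
      obtain a3 : (1000 : ℝ) ≤ 10 ^ 6 * K * c.C1 := by nlinarith only [hK, t0, t1, hC1]
      nlinarith only [t0, t1, a2, a3]
    obtain a4 : 0 ≤ 1000 * (K : ℝ) ^ 2 * (c.κ + 1) * c.C0 := by positivity
    obtain a5 : 1000 * (K : ℝ) ^ 2 * (c.κ + 1) * c.C0 * c.e3 ≤ 1 := by nlinarith only [he, t0, t1, e0, a1]
    calc 1000 * (K : ℝ) ^ 2 * (c.κ + 1) * σ * c.C0
        = 1000 * (K : ℝ) ^ 2 * (c.κ + 1) * c.C0 * σ := by ring
      _ ≤ 1000 * (K : ℝ) ^ 2 * (c.κ + 1) * c.C0 * (c.e3 * w) := mul_le_mul_of_nonneg_left h2 a4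
      _ = 1000 * (K : ℝ) ^ 2 * (c.κ + 1) * c.C0 * c.e3 * w := by ring
      _ ≤ 1 * w := mul_le_mul_of_nonneg_right a5 hw
      _ = w := one_mul w

theorem Nm.σ0 (n : Nm K c σ w) : 10000 ≤ σ := by linarith only [n.σK, n.K10]

theorem Nm.wσ (n : Nm K c σ w) : 10 ^ 6 * (K : ℝ) ^ 2 * (c.κ + 1) * σ ≤ w := by
  have h1 := n.Tw
  obtain h2 : 0 ≤ (K : ℝ) ^ 2 * (c.κ + 1) * σ := by
    have := n.κ10; have := n.σ0; (rename_i zq0; clear * - zq0 this; positivity)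
  obtain h3 : c.th ≤ 1 / 1000 := by nlinarith only [n.thK, n.K10, n.th0]
  obtain hw : 0 ≤ w := by
    by_contra h
    have := n.κ10; have := n.σ0; have := n.K10
    obtain h4 : 0 < 1000 * (K : ℝ) ^ 2 * (c.κ + 1) * σ := by positivity
    nlinarith only [h1, h4, h, n.th0]
  nlinarith only [h1, h3, hw]

theorem Nm.io (n : Nm K c σ w) : 100 * σ ≤ c.io K * w ∧ 1000 * K * (c.io K * w) ≤ w ∧
    20 * K * (c.io K * w) = c.th * w := by
  have hK := n.K10
  obtain e : 20 * K * (c.io K * w) = c.th * w := by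
    unfold Cs.io; field_simp
  have h1 := n.Tw
  have hσ := n.σ0
  have hκ := n.κ10
  obtain hw : 0 ≤ w := le_trans (by positivity) n.wσ
  refine ⟨?_, ?_, e⟩
  · obtain h2 : 20 * K * (100 * σ) ≤ 1000 * (K : ℝ) ^ 2 * (c.κ + 1) * σ := by
      obtain this : 0 ≤ K * σ := by positivity
      obtain h3 : (2 : ℝ) ≤ K * (c.κ + 1) := by nlinarith only [hK, hκ]
      nlinarith only [this, h3]
    exact le_of_mul_le_mul_left (by linarith only [e, h1, h2] : 20 * K * (100 * σ) ≤ 20 * K * (c.io K * w))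
      (by positivity)
  · obtain h3 : c.th ≤ 1 / 1000 := by nlinarith only [hK, n.thK, n.th0]
    nlinarith only [e, hw, h3]

theorem Nm.Wσ (n : Nm K c σ w) {Wr : ℝ} (h : w / (2 * c.κ + 4) ≤ Wr) :
    1000 * (K : ℝ) ^ 2 * σ ≤ Wr := by
  have hκ := n.κ10
  refine le_trans ?_ h
  rw [le_div_iff₀ (by linarith only [hκ])]
  have h1 := n.wσ
  obtain h2 : 0 ≤ (K : ℝ) ^ 2 * σ := by have := n.σ0; (clear * - this; positivity)
  nlinarith only [h1, h2, hκ]

theorem scale (n : Nm K c σ w) {Ng Np : ℕ → ℝ} {W Wr lw wq R li : ℝ} {cl ks : ℕ} (kst : ℕ)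
    (hW2 : W ≤ Wr + 1) (hW3 : Wr + 1 ≤ w - 3 * c.io K * w)
    (hW4 : w / (2 * c.κ + 4) ≤ Wr) (hl1 : Wr - σ / 2 ≤ lw) (hq : exp lw ≤ wq) (hR : 0 ≤ R)
    (hc1 : (2 + 2 * c.th) * R + 4 * σ ≤ cl) (hc2 : (cl : ℝ) ≤ (2 + 2 * c.th) * R + 4 * σ + 1)
    (hli : li + R ≤ Wr + 2)
    (hsub : ∀ k : ℕ, |Np k - Ng k| ≤ exp (-k) / 10)
    (gg : ∀ a b : ℕ, a ≤ b → Ng a ≤ exp (K * ((b : ℝ) - a)) * Ng b)
    (gp : ∀ a b : ℕ, a ≤ b → Np a ≤ exp (K * ((b : ℝ) - a)) * Np b)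
    (hk1 : cl ≤ kst) (hk2 : Ng kst * exp W ≤ wq * exp (-σ)) (hk3 : Np kst ≤ exp (lw - w))
    (J : ∀ k : ℕ, cl ≤ k → k ≤ kst → Ng k * exp W ≤ wq * exp (-σ) →
      exp (-((K + 1) * k)) * wq ≤ Ng k ∧ (R ≤ c.cc ∨
        exp ((2 * K + 1) * (R - 1)) * exp (-((K + 1) * k)) * wq ≤ exp (σ + li + 1) * Ng k))
    (hks : ks = sInf {k : ℕ | cl ≤ k ∧ Np k ≤ exp (lw - w)}) :
    ∃ k1 : ℕ, cl ≤ k1 ∧ k1 ≤ ks ∧ ks ≤ kst ∧ Ng k1 * exp W ≤ wq * exp (-σ) ∧
      exp (-(k1 : ℝ)) ≤ Ng k1 ∧ Np ks ≤ exp (lw - w) ∧ w / (2 * K) ≤ ks ∧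
      Ng k1 * exp (-((K + 1) * ((ks : ℝ) - k1))) ≤ 2 * Np ks ∧
      (ks ≠ cl → 1 ≤ ks ∧ exp (lw - w) < Np (ks - 1)) ∧
      (ks = cl → c.cc < R ∧ w ≤ 4 * K * R ∧ w ≤ li + R + 10 * c.th * K * R) := by
  have hK := n.K10
  have hσ := n.σ0
  have hσK := n.σK
  have th0 := n.th0
  have thK := n.thK
  have hWσ := n.Wσ hW4
  obtain ⟨io1, io2, io3⟩ := n.io
  have hwq : 0 < wq := (exp_pos _).trans_le hq
  obtain hK0 : (0 : ℝ) ≤ K := by linarith only [hK]
  obtain hσ0 : 0 ≤ σ := by linarith only [hσ]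
  have hKσ : 10 * σ ≤ K * σ := mul_le_mul_of_nonneg_right hK hσ0
  obtain hKK : 10 * (K * σ) ≤ (K : ℝ) ^ 2 * σ := by
    linarith only [mul_le_mul_of_nonneg_right hK (mul_nonneg hK0 hσ0)]
  obtain hthR : 0 ≤ c.th * R := by (clear * - th0 hR; positivity)
  have hKR : 10 * R ≤ K * R := mul_le_mul_of_nonneg_right hK hR
  obtain hthKR : c.th * K * R ≤ R / 1000 := by linarith only [mul_le_mul_of_nonneg_right thK hR]
  obtain hthKR' : 10 * (c.th * R) ≤ c.th * K * R := by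
    linarith only [mul_le_mul_of_nonneg_right hK hthR]
  obtain hcσ : 4 * σ ≤ cl := by linarith only [hR, hc1, hthR]
  obtain hKc : K * (cl : ℝ) ≤ 2 * (K * R) + 2 * (c.th * K * R) + 4 * (K * σ) + K := by
    linarith only [mul_le_mul_of_nonneg_left hc2 hK0]
  -- the two infima
  obtain m2 : ks ∈ {k : ℕ | cl ≤ k ∧ Np k ≤ exp (lw - w)} := by
    rw [hks]; exact Nat.sInf_mem ⟨kst, hk1, hk3⟩
  obtain l2 : ks ≤ kst := by rw [hks]; exact Nat.sInf_le ⟨hk1, hk3⟩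
  obtain n2 : ∀ k, cl ≤ k → k < ks → exp (lw - w) < Np k := fun k a b => by
    rw [hks] at b
    exact not_le.1 fun h => Nat.notMem_of_lt_sInf b ⟨a, h⟩
  obtain ⟨k1, hk⟩ : ∃ k1, k1 = sInf {k : ℕ | cl ≤ k ∧ Ng k * exp W ≤ wq * exp (-σ)} := ⟨_, rfl⟩
  obtain m1 : k1 ∈ {k : ℕ | cl ≤ k ∧ Ng k * exp W ≤ wq * exp (-σ)} := by
    rw [hk]; exact Nat.sInf_mem ⟨kst, hk1, hk2⟩
  obtain l1 : k1 ≤ kst := by rw [hk]; exact Nat.sInf_le ⟨hk1, hk2⟩
  obtain n1 : ∀ k, cl ≤ k → k < k1 → wq * exp (-σ) < Ng k * exp W := fun k a b => by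
    rw [hk] at b
    exact not_le.1 fun h => Nat.notMem_of_lt_sInf b ⟨a, h⟩
  obtain ⟨c1, v1⟩ := m1
  obtain ⟨c2, v2⟩ := m2
  obtain ⟨J1, J2⟩ := J k1 c1 l1 v1
  obtain c1' : (cl : ℝ) ≤ k1 := by exact_mod_cast c1
  obtain c2' : (cl : ℝ) ≤ ks := by exact_mod_cast c2
  obtain hN : exp (-(k1 : ℝ)) ≤ Ng k1 := by
    rcases c1.lt_or_eq with h | h
    · obtain ⟨k0, rfl⟩ : ∃ k0, k1 = k0 + 1 := ⟨k1 - 1, by omega⟩
      obtain a1 := n1 k0 (by omega) (by omega)
      obtain a2 := gg k0 (k0 + 1) (by omega)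
      rw [show (K : ℝ) * (((k0 + 1 : ℕ) : ℝ) - k0) = K by push_cast; ring] at a2
      obtain a3 : exp (-((k0 + 1 : ℕ) : ℝ)) * (exp K * exp W) ≤ wq * exp (-σ) := by
        refine le_trans ?_ (mul_le_mul_of_nonneg_right hq (exp_pos _).le)
        rw [← exp_add, ← exp_add, ← exp_add, exp_le_exp]
        linarith only [hW2, hl1, hR, hc1, hσ, hσK, hthR, c1']
      have a4 := mul_le_mul_of_nonneg_right a2 (exp_pos W).le
      exact le_of_mul_le_mul_right (a := exp K * exp W) (by linarith only [a1, a3, a4]) (by positivity)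
    · subst h
      rcases le_total (4 * (K * R)) Wr with h | h
      · refine le_trans ?_ (le_trans (mul_le_mul_of_nonneg_left hq (exp_pos _).le) J1)
        rw [← exp_add, exp_le_exp]
        linarith only [hl1, hσ, hσK, hWσ, hKσ, hKK, hKR, hthKR, hKc, h]
      · obtain hRσ : 100 * (K * σ) ≤ R := by
          refine le_of_mul_le_mul_left (a := (K : ℝ)) ?_ (by linarith only [hK])
          linarith only [hσ, hWσ, hKσ, hKK, h]
        rcases J2 with J2 | J2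
        · linarith only [hσ, hKσ, hRσ, J2, n.cc.2, n.lam]
        refine le_of_mul_le_mul_left (a := exp (σ + li + 1)) (le_trans ?_ J2) (exp_pos _)
        refine le_trans ?_ (mul_le_mul_of_nonneg_left hq (by positivity))
        rw [← exp_add, ← exp_add, ← exp_add, exp_le_exp]
        linarith only [hl1, hli, hσ, hσK, hKσ, hthKR, hKc, hRσ]
  obtain hP : 9 / 10 * Ng k1 ≤ Np k1 := by linarith only [hN, (abs_le.1 (hsub k1)).1]
  obtain h12 : k1 ≤ ks := by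
    by_contra h
    have a1 := n1 ks c2 (not_le.1 h)
    obtain a2 : Ng ks ≤ exp (lw - w) + exp (-(ks : ℝ)) / 10 := by linarith only [v2, (abs_le.1 (hsub ks)).1]
    obtain a3 : exp (lw - w) * exp W * 2 ≤ wq * exp (-σ) := by
      refine le_trans ?_ (mul_le_mul_of_nonneg_right hq (exp_pos _).le)
      obtain this : (2 : ℝ) ≤ exp 1 := by linarith only [add_one_le_exp (1 : ℝ)]
      refine le_trans (mul_le_mul_of_nonneg_left this (by positivity)) ?_
      rw [← exp_add, ← exp_add, ← exp_add, exp_le_exp]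
      linarith only [hW2, hW3, hσ, io1]
    obtain a4 : exp (-(ks : ℝ)) * exp W ≤ wq * exp (-σ) := by
      refine le_trans ?_ (mul_le_mul_of_nonneg_right hq (exp_pos _).le)
      rw [← exp_add, ← exp_add, exp_le_exp]
      linarith only [hW2, hl1, hR, hc1, hσ, hthR, c2']
    have a5 := mul_le_mul_of_nonneg_right a2 (exp_pos W).le
    obtain a6 : 0 < wq * exp (-σ) := by positivity
    linarith only [a1, a3, a4, a5, a6]
  obtain h12' : (k1 : ℝ) ≤ ks := by exact_mod_cast h12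
  have hN0 : 0 < Ng k1 := (exp_pos _).trans_le hN
  obtain hs : Ng k1 * exp (-(K * ((ks : ℝ) - k1))) ≤ 2 * Np ks := by
    have a1 := gp k1 ks h12
    obtain a2 : exp (-(K * ((ks : ℝ) - k1))) * exp (K * ((ks : ℝ) - k1)) = 1 := by
      rw [← exp_add]; simp
    have a3 := mul_le_mul_of_nonneg_left (hP.trans a1) (exp_pos (-(K * ((ks : ℝ) - k1)))).le
    rw [← mul_assoc (exp _) (exp _), a2] at a3
    obtain a4 : 0 < Ng k1 * exp (-(K * ((ks : ℝ) - k1))) := by positivity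
    linarith only [a3, a4]
  obtain e1 : (2 : ℝ) ≤ exp 1 := by linarith only [add_one_le_exp (1 : ℝ)]
  refine ⟨k1, c1, h12, l2, v1, hN, v2, ?_, ?_, fun h => ?_, fun h => ?_⟩
  · obtain a1 : exp (-((K + 1) * k1)) * exp lw * exp (-(K * ((ks : ℝ) - k1))) ≤
        exp 1 * exp (lw - w) := by
      have b1 := (mul_le_mul_of_nonneg_left hq (exp_pos (-((K + 1) * (k1 : ℝ)))).le).trans J1
      have b2 := mul_le_mul_of_nonneg_right b1 (exp_pos (-(K * ((ks : ℝ) - k1)))).le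
      linarith only [v2, hs, b2, mul_le_mul_of_nonneg_right e1 (exp_pos (lw - w)).le]
    rw [← exp_add, ← exp_add, ← exp_add, exp_le_exp] at a1
    rw [div_le_iff₀ (by linarith only [hK])]
    linarith only [hW3, hσ, hWσ, io1, hKσ, hKK, h12', a1, mul_le_mul_of_nonneg_right hK (show (0 : ℝ) ≤ ks by (clear * -; positivity))]
  · refine le_trans (mul_le_mul_of_nonneg_left (exp_le_exp.2 ?_) hN0.le) hs
    linarith only [h12']
  · exact ⟨by omega, n2 _ (by omega) (by omega)⟩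
  · subst h
    obtain rfl : k1 = ks := le_antisymm h12 c1
    obtain a0 : Ng k1 ≤ exp 1 * exp (-w) * wq := by
      obtain b1 : exp (lw - w) ≤ exp (-w) * wq := by
        rw [sub_eq_add_neg, exp_add, mul_comm]
        exact mul_le_mul_of_nonneg_left hq (exp_pos _).le
      obtain b2 : 0 < exp (-w) * wq := by positivity
      linarith only [hP, v2, b1, b2, e1, mul_le_mul_of_nonneg_right e1 b2.le]
    have a1 : exp (-((K + 1) * (k1 : ℝ))) ≤ exp 1 * exp (-w) :=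
      le_of_mul_le_mul_right (J1.trans a0) hwq
    rw [← exp_add, exp_le_exp] at a1
    have hw := n.wσ
    obtain hw' : 10 ^ 6 * ((K : ℝ) ^ 2 * σ) ≤ w := by
      obtain this : 0 ≤ (K : ℝ) ^ 2 * σ := by positivity
      linarith only [hσ, hKσ, hKK, hw, mul_le_mul_of_nonneg_right n.κ10 this]
    obtain a2 : w ≤ 4 * K * R := by linarith only [hσ, hσK, hKσ, hKK, hKR, hthKR, hthKR', hc2, hKc, a1, hw']
    obtain a3 : σ < R := by
      refine lt_of_mul_lt_mul_left (a := 4 * (K : ℝ)) ?_ (by linarith only [hK])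
      linarith only [hσ, hσK, hKσ, hKK, hKR, hthKR, hthKR', hc2, hKc, a1, hw']
    obtain a4 : c.cc < R := by linarith only [hσ, a3, n.cc.2, n.lam]
    refine ⟨a4, a2, ?_⟩
    rcases J2 with J2 | J2
    · linarith only [a4, J2]
    obtain a5 : exp ((2 * K + 1) * (R - 1)) * exp (-((K + 1) * (k1 : ℝ))) ≤
        exp (σ + li + 1) * (exp 1 * exp (-w)) := by
      refine le_of_mul_le_mul_right (J2.trans ?_) hwq
      rw [mul_assoc]
      exact mul_le_mul_of_nonneg_left a0 (exp_pos _).le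
    rw [← exp_add, ← exp_add, ← exp_add, exp_le_exp] at a5
    obtain a6 : c.th * w ≤ 4 * (c.th * K * R) := by
      linarith only [mul_le_mul_of_nonneg_left a2 th0.le]
    obtain a7 : 1000 * ((K : ℝ) ^ 2 * σ) ≤ c.th * w := by
      obtain this : 0 ≤ (K : ℝ) ^ 2 * σ := by positivity
      linarith only [hσ, hKσ, hKK, mul_le_mul_of_nonneg_right n.κ10 this, n.Tw]
    linarith only [hσ, hσK, hKσ, hKK, hthKR', hc2, hKc, a5, a6, a7]

end Pool.Agent.MP_9cbfe4_an.FSC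

end

/-! ### Part FSC -/

section

/-! Row SC: the scale of one level. -/

namespace Pool.Agent.MP_9cbfe4_an

open Finset Real

namespace FSC
variable {K : ℕ} {c : Cs} {M : Mdl} {sd : Fd → ℝ → Seed} {d : Dat} {σ w : ℝ}

theorem rU_ge {y : ℝ} (h : 3 * (sqrt c.a * y) ≤ σ) : exp (-σ) ≤ c.rU y := by
  unfold Cs.rU Cs.S0
  rw [← exp_nat_mul, one_div, ← exp_neg, exp_le_exp]
  push_cast
  linarith only [h]

theorem sub_win {t r : ℝ} (h : exp (-σ) ≤ r) :
    Set.Ioo (t - 2 * exp (-σ)) (t + 2 * exp (-σ)) ⊆ Set.Ioo (t - 3 * r) (t + 3 * r) :=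
  Set.Ioo_subset_Ioo (by linarith only [h, exp_pos (-σ)]) (by linarith only [h, exp_pos (-σ)])

/-- the subtracted curve on the window -/
theorem cf_facts (hR : RETD_s K c) (cx : Ctx K c M sd) (fe : d.Fe K c M sd) {j : ℤ}
    (hj : j ∈ (d.prof c M).T) (h : 9 * (sqrt c.a * (d.prof c M).rr j) ≤ σ) :
    ContDiffOn ℝ (K + 1 : ℕ) (d.cf c M sd j)
      (Set.Ioo (d.t - 2 * exp (-σ)) (d.t + 2 * exp (-σ))) ∧
    ∀ t ∈ Set.Ioo (d.t - 2 * exp (-σ)) (d.t + 2 * exp (-σ)), ∀ i : ℕ, 1 ≤ i → i ≤ K + 1 →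
      |iteratedDeriv i (d.cf c M sd j) t| ≤ 1 / 10 := by
  unfold Dat.cf
  split_ifs with h3
  · obtain ⟨a1, a2, -⟩ := hR _ M sd cx.okk.ok cx.seeds d.toFd _ _ (fe.deep j hj h3)
    obtain s := sub_win (t := d.t) (rU_ge (c := c) (y := 3 * (d.prof c M).rr j) (σ := σ) (by linarith only [h]))
    exact ⟨a1.mono s, fun t ht => a2 t (s ht)⟩
  · refine ⟨contDiffOn_const, fun t _ i _ _ => ?_⟩
    rw [iteratedDeriv_fun_const_zero]
    norm_num
end FSC

open FSC in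
theorem sc (K : ℕ) (c : Cs) (hR : RETD_s K c) : SC_s K c := by
  intro M sd cx d σ w gd lev
  have N := cx.num
  have fe := gd.fe
  have jf := gd.jf
  obtain ⟨s1, s2, s3, s4⟩ := fe.sl
  obtain ⟨v1, v2, v3⟩ := fe.lev
  have ok := fe.ok σ lev.s
  have e0 := N.he.1
  have hV0 : 0 ≤ d.V c M := (ok.rng 1 ok.one.1).2.1.trans (ok.rng 1 ok.one.1).2.2
  obtain hC1 : c.C1 * c.lam ≤ σ := by
    obtain this : 0 ≤ c.e3 ^ 22 * d.V c M := by (clear * - e0 hV0; positivity)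
    linarith only [s1, this, lev.s]
  have n := nm N hC1 lev.lo
  have nb := (Pool.Agent.MP_9cbfe4_an.nb K c N (d.prof c M) σ (d.V c M) w ok hC1 lev.lo lev.hi).1
  unfold Dat.ScAt
  obtain ⟨j, hj⟩ : ∃ j, j = (d.prof c M).bs K c w := ⟨_, rfl⟩
  obtain hks : d.ks K c M sd σ w = sInf {k : ℕ | (d.prof c M).cl c σ j ≤ k ∧
      Nj K (d.ph c M sd j) d.t (exp (-k)) ≤ exp ((d.prof c M).lw j - w)} := by rw [hj]; rfl
  obtain ⟨b1, b2, -, -, b5⟩ := nb
  rw [← hj] at b1 b2 b5 ⊢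
  generalize d.ks K c M sd σ w = ks at hks ⊢
  obtain ⟨r, hx⟩ := (fe.mem j b1).1
  obtain ⟨-, q0, w1, w2, q1, q2, -, -⟩ := fe.ent _ hx
  simp only [add_sub_cancel_left] at q0 w1 w2 q1 q2
  have hK := n.K10
  have hσ := n.σ0
  have th0 := n.th0
  obtain hth : c.th ≤ 1 / 1000 := by linarith only [n.thK, mul_le_mul_of_nonneg_left hK th0.le]
  obtain ⟨io1, io2, io3⟩ := n.io
  have hWσ := n.Wσ b5
  obtain hKK : 100 * σ ≤ (K : ℝ) ^ 2 * σ := mul_le_mul_of_nonneg_right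
    (by linarith only [th0, hth, mul_le_mul hK hK (by norm_num) (by linarith only [hK, th0, hth])]) (by linarith only [hσ, th0, hth])
  obtain ⟨l1, l2⟩ := ok.lw j b1
  have hwV := lev.hi
  obtain hw : 0 ≤ w := by linarith only [b2, hσ, th0, hth, io1, hWσ, hKK]
  have hC0 := n.C0
  obtain hy : 1600 * d.V c M ≤ d.y c M := by
    obtain a1 : d.V c M - 1 ≤ d.y c M / c.C0 := by linarith only [v2]
    rw [le_div_iff₀ (by linarith only [th0, hth, hC0])] at a1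
    linarith only [b2, hσ, th0, hth, io1, hWσ, hKK, hwV, a1, mul_le_mul_of_nonneg_left hC0 (show 0 ≤ d.V c M - 1 by linarith only [b2, hσ, th0, hth, io1, hWσ, hKK, hwV])]
  obtain hsr : ∀ k ∈ (d.prof c M).T, ((d.prof c M).sr k : ℝ) ≤ 2 * d.V c M := fun k hk => by
    linarith only [b2, hσ, th0, hth, io1, hWσ, hKK, hwV, ok.lev k hk, (ok.lw k hk).1, (ok.rng k hk).2.1]
  have hcc := n.cc
  have hlam := n.lam
  have hR0 : 0 ≤ (d.prof c M).Rb c j := hcc.1.trans (FNB.cc_le_Rb j)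
  obtain hRV : (d.prof c M).Rb c j ≤ 2 * d.V c M :=
    FNB.Rb_le (by linarith only [b2, hσ, th0, hth, io1, hWσ, hKK, hwV, hlam, hcc.2]) fun k hk _ => hsr k hk
  have hc1 : (2 + 2 * c.th) * (d.prof c M).Rb c j + 4 * σ ≤ (d.prof c M).cl c σ j := Nat.le_ceil _
  obtain hc2 : ((d.prof c M).cl c σ j : ℝ) ≤ (2 + 2 * c.th) * (d.prof c M).Rb c j + 4 * σ + 1 :=
    (Nat.ceil_lt_add_one (by (clear * - th0 hR0 hσ; positivity))).le
  obtain hthR : c.th * (d.prof c M).Rb c j ≤ (d.prof c M).Rb c j / 1000 := by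
    linarith only [mul_le_mul_of_nonneg_right hth hR0]
  obtain hthR0 : 0 ≤ c.th * (d.prof c M).Rb c j := by (clear * - th0 hR0; positivity)
  -- windows
  have sa := sqrt_nonneg c.a
  obtain say : sqrt c.a * d.V c M ≤ sqrt c.a * d.y c M := mul_le_mul_of_nonneg_left (by linarith only [b2, hσ, th0, hth, io1, hWσ, hKK, hwV, hy]) sa
  obtain say0 : 0 ≤ sqrt c.a * d.V c M := by (clear * - hV0; positivity)
  obtain ⟨f1, f2⟩ := cf_facts (σ := σ) hR cx fe b1 (by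
    obtain this : (d.prof c M).rr j ≤ 2 * d.V c M := by
      unfold Prof.rr; linarith only [th0, hth, hsr j b1]
    linarith only [s3, hσ, th0, hth, say, mul_le_mul_of_nonneg_left this sa, lev.s])
  obtain g1 := (jf.sm (d.n + j) (by linarith only [(ok.rng j b1).1])).mono
    (sub_win (σ := σ) (rU_ge (by linarith only [s3, hσ, th0, hth, lev.s])))
  obtain ⟨U, hU⟩ : ∃ U, U = Set.Ioo (d.t - 2 * exp (-σ)) (d.t + 2 * exp (-σ)) := ⟨_, rfl⟩
  rw [← hU] at f1 f2 g1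
  have oU : IsOpen U := hU ▸ isOpen_Ioo
  obtain mU : ∀ τ, |τ - d.t| ≤ exp (-σ) → τ ∈ U := fun τ h => by
    rw [hU]
    constructor <;> linarith only [abs_le.1 h, exp_pos (-σ)]
  have p1 : ContDiffOn ℝ (K + 1 : ℕ) (d.ph c M sd j) U := g1.sub f1
  obtain p2 : ∀ τ ∈ U, ∀ i : ℕ, i ≤ K + 1 → iteratedDeriv i (d.ph c M sd j) τ =
      iteratedDeriv i (d.g c M sd (d.n + j)) τ - iteratedDeriv i (d.cf c M sd j) τ := by
    intro τ hτ i hi
    exact iteratedDeriv_sub ((g1.contDiffAt (oU.mem_nhds hτ)).of_le (by exact_mod_cast hi))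
      ((f1.contDiffAt (oU.mem_nhds hτ)).of_le (by exact_mod_cast hi))
  obtain tU : d.t ∈ U := mU _ (by simpa using (exp_pos _).le)
  obtain jg : ∀ D', 0 ≤ D' → D' ≤ 1 →
      |Nj K (d.ph c M sd j) d.t D' - Nj K (d.g c M sd (d.n + j)) d.t D'| ≤ D' / 10 := by
    intro D' h0 h1
    obtain this := Nj_sub (K := K) (F := d.ph c M sd j) (G := d.g c M sd (d.n + j)) (t := d.t)
      (e := 1 / 10) h0 h1 (by norm_num) fun i i1 i2 => by
        rw [p2 _ tU i (by omega), sub_sub_cancel_left, abs_neg]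
        exact f2 _ tU i i1 (by omega)
    linarith only [this]
  -- admissibility and the crude scale
  obtain adm : (d.S M).rho d.ξ d.n d.p ^ 2 * exp (d.W c M (d.n + j)) ≤ exp (-σ) := by
    obtain a1 : exp (d.W c M (d.n + j)) = exp (d.V c M) * exp (d.W c M (d.n + j) - d.V c M) := by
      rw [← exp_add]; congr 1; ring
    rw [a1, ← mul_assoc]
    refine (mul_le_mul_of_nonneg_right fe.rho (exp_pos _).le).trans ?_
    rw [← N.hL, ← exp_add, exp_le_exp]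
    linarith only [b2, w2, hσ, th0, hth, io1, hwV, hlam]
  obtain ⟨kst, hkst⟩ : ∃ k : ℕ, k = ⌈d.y c M / 200⌉₊ := ⟨_, rfl⟩
  have k1' : d.y c M / 200 ≤ kst := hkst ▸ Nat.le_ceil _
  obtain k2' : (kst : ℝ) ≤ d.y c M / 100 := by
    obtain this := (Nat.ceil_lt_add_one (show 0 ≤ d.y c M / 200 by linarith only [b2, hσ, th0, hth, io1, hWσ, hKK, hwV, hy])).le
    rw [← hkst] at this
    linarith only [b2, hσ, th0, hth, io1, hWσ, hKK, hwV, hy, this]
  obtain crude : Nj K (d.g c M sd (d.n + j)) d.t (exp (-kst)) ≤ exp (-(d.y c M / 250)) := by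
    refine Nj_le (exp_pos _).le fun i i1 i2 => ?_
    obtain a1 := jf.crude _ hx (adm.trans (exp_le_exp.2 (by linarith only [lev.s]))) i i1 i2
    refine (mul_le_mul_of_nonneg_right a1 (by positivity)).trans ?_
    rw [← exp_nat_mul, ← exp_add, exp_le_exp]
    obtain a2 : (1 : ℝ) ≤ i := by exact_mod_cast i1
    linarith only [th0, hth, b2, hσ, io1, hWσ, hKK, hwV, hy, mul_le_mul_of_nonneg_left k1' (show (0 : ℝ) ≤ i by linarith only [th0, hth, a2]),
      mul_le_mul_of_nonneg_right a2 (show 0 ≤ d.y c M by linarith only [b2, hσ, th0, hth, io1, hWσ, hKK, hwV, hy])]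
  -- valid scales
  obtain val : ∀ (k : ℕ) (ν : ℝ), (d.prof c M).cl c σ j ≤ k → k ≤ kst →
      ν * exp (d.W c M (d.n + j)) ≤ exp (-σ) →
      Nj K (d.g c M sd (d.n + j)) d.t (exp (-k)) ≤ ν * d.wq M (d.n + j) →
      d.Val K c M sd σ (d.n + j) (exp (-k)) ν ((d.prof c M).Rb c j) := by
    intro k ν h1 h2 h3 h4
    obtain h1' : ((d.prof c M).cl c σ j : ℝ) ≤ k := by exact_mod_cast h1
    obtain h2' : (k : ℝ) ≤ kst := by exact_mod_cast h2
    exact ⟨⟨r, hx⟩, ⟨lev.s, by linarith only [w1, hσ, th0, hth, hWσ, hKK]⟩, adm, ⟨hR0, fun x h h' => fe.rb x h j h'⟩,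
      exp_le_exp.2 (by linarith only [k2', h2']), exp_le_exp.2 (by linarith only [hσ, th0, hth, hc1, h1']), h3, h4⟩
  obtain val0 : ∀ k : ℕ, (d.prof c M).cl c σ j ≤ k → k ≤ kst →
      Nj K (d.g c M sd (d.n + j)) d.t (exp (-k)) * exp (d.W c M (d.n + j))
        ≤ d.wq M (d.n + j) * exp (-σ) →
      d.Val K c M sd σ (d.n + j) (exp (-k))
        (Nj K (d.g c M sd (d.n + j)) d.t (exp (-k)) / d.wq M (d.n + j)) ((d.prof c M).Rb c j) := by
    intro k h1 h2 h3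
    refine val k _ h1 h2 ?_ (by rw [div_mul_cancel₀ _ q0.ne'])
    rw [div_mul_eq_mul_div, div_le_iff₀ q0]
    linarith only [h3]
  obtain epow : ∀ k : ℕ, exp (-(k : ℝ)) ^ (K + 1) = exp (-((K + 1) * k)) := fun k => by
    rw [← exp_nat_mul]; congr 1; push_cast; ring
  -- the deepest earlier step
  obtain ⟨li, i, hli, hi⟩ : ∃ (li : ℝ) (i : ℤ), li + (d.prof c M).Rb c j ≤ (d.prof c M).Wr j + 2 ∧
      ((d.prof c M).Rb c j ≤ c.cc ∨ (i ∈ (d.prof c M).T ∧ i < j ∧ li = (d.prof c M).lw i ∧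
        (d.prof c M).Rb c j = (d.prof c M).sr i ∧ ∃ z ∈ d.Ls, z.1 < d.n + j ∧
          (d.prof c M).Rb c j - 1 ≤ z.2 ∧ d.wq M z.1 ≤ exp (li + 1))) := by
    by_cases h : (d.prof c M).Rb c j ≤ c.cc
    · exact ⟨(d.prof c M).Wr j + 2 - (d.prof c M).Rb c j, 0, by linarith only [], .inl h⟩
    rcases @FNB.Rb_cases c (d.prof c M) j with h' | ⟨i, i1, i2, i3⟩
    · exact absurd h'.le h
    obtain ⟨r', hz⟩ := (fe.mem i i1).2 (i2.trans_le (FNB.le_top b1))
    obtain ⟨-, -, -, -, -, z2, -, z4⟩ := fe.ent _ (List.mem_cons_of_mem _ hz)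
    simp only [add_sub_cancel_left] at z2 z4
    refine ⟨(d.prof c M).lw i, i, by rw [i3]; exact ok.later i i1 j b1 i2,
      .inr ⟨i1, i2, rfl, i3, _, hz, by simpa using i2, ?_, z2⟩⟩
    rw [i3]
    refine z4 fun h0 => h ?_
    rw [i3, h0]
    simpa using hcc.1
  obtain ⟨k1, c1, c2, c3, c4, c5, c6, c7, c8, c9, c10⟩ := scale n
    (Ng := fun k => Nj K (d.g c M sd (d.n + j)) d.t (exp (-k)))
    (Np := fun k => Nj K (d.ph c M sd j) d.t (exp (-k))) (W := d.W c M (d.n + j))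
    (wq := d.wq M (d.n + j)) kst w2 b2 b5 l1 q1 hR0 hc1 hc2 hli
    (fun k => jg _ (exp_pos _).le (exp_le_one_iff.2 (by simp)))
    (fun a b h => Nj_exp_ge (by exact_mod_cast h)) (fun a b h => Nj_exp_ge (by exact_mod_cast h))
    (by
      obtain this : ((d.prof c M).cl c σ j : ℝ) ≤ kst := by linarith only [b2, hσ, th0, hth, io1, hWσ, hKK, hwV, hy, hRV, hc2, hthR, k1']
      exact_mod_cast this)
    (by
      refine (mul_le_mul_of_nonneg_right crude (exp_pos _).le).trans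
        (le_trans ?_ (mul_le_mul_of_nonneg_right q1 (exp_pos _).le))
      rw [← exp_add, ← exp_add, exp_le_exp]
      linarith only [b2, w2, hσ, th0, hth, io1, hWσ, hKK, l1, hwV, hy])
    (by
      obtain a1 := (abs_le.1 (jg _ (exp_pos (-(kst : ℝ))).le (exp_le_one_iff.2 (by simp)))).2
      obtain a2 : exp (-(kst : ℝ)) ≤ exp (-(d.y c M / 250)) := exp_le_exp.2 (by linarith only [b2, hσ, th0, hth, io1, hWσ, hKK, hwV, hy, k1'])
      obtain a3 : exp (-(d.y c M / 250)) * exp 1 ≤ exp ((d.prof c M).lw j - w) := by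
        rw [← exp_add, exp_le_exp]
        linarith only [b2, hσ, th0, hth, io1, hWσ, hKK, l1, hwV, hy]
      obtain a4 : (2 : ℝ) ≤ exp 1 := by linarith only [add_one_le_exp (1 : ℝ)]
      have a5 := mul_le_mul_of_nonneg_left a4 (exp_pos (-(d.y c M / 250))).le
      linarith only [crude, a1, a2, a3, a5, exp_pos (-(d.y c M / 250))])
    (fun k h1 h2 h3 => by
      obtain ⟨a1, a2⟩ := jf.j3 _ _ _ _ _ (val0 k h1 h2 h3)
      rw [epow] at a1 a2
      refine ⟨(le_div_iff₀ q0).1 a1, ?_⟩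
      rcases hi with hi | ⟨-, -, -, -, z, z1, z2, z3, z4⟩
      · exact .inl hi
      refine .inr ?_
      have a3 := a2 z z1 z2
      rw [← mul_div_assoc, le_div_iff₀ q0] at a3
      refine le_trans ?_ (a3.trans ?_)
      · refine mul_le_mul_of_nonneg_right (mul_le_mul_of_nonneg_right (exp_le_exp.2 ?_)
          (exp_pos _).le) q0.le
        exact mul_le_mul_of_nonneg_left z3 (by positivity)
      · refine mul_le_mul_of_nonneg_right ?_ Nj_nonneg
        rw [add_assoc, exp_add]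
        exact mul_le_mul_of_nonneg_left z4 (exp_pos _).le) hks
  obtain c1' : ((d.prof c M).cl c σ j : ℝ) ≤ k1 := by exact_mod_cast c1
  obtain c2' : (k1 : ℝ) ≤ ks := by exact_mod_cast c2
  obtain c3' : (ks : ℝ) ≤ kst := by exact_mod_cast c3
  obtain hwK : 500 * (c.io K * w) ≤ w / (2 * K) := by
    rw [le_div_iff₀ (by linarith only [hK, th0, hth])]
    linarith only [io2]
  obtain nuA : (exp (-w) + exp (-(ks : ℝ)) / d.wq M (d.n + j)) * exp (d.W c M (d.n + j))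
      ≤ 2 * exp (-(3 * c.io K * w)) := by
    obtain a1 : exp (-w) * exp (d.W c M (d.n + j)) ≤ exp (-(3 * c.io K * w)) := by
      rw [← exp_add, exp_le_exp]
      linarith only [b2, w2]
    obtain a2 : exp (-(ks : ℝ)) / d.wq M (d.n + j) * exp (d.W c M (d.n + j))
        ≤ exp (-(3 * c.io K * w)) := by
      rw [div_mul_eq_mul_div, div_le_iff₀ q0]
      refine le_trans ?_ (mul_le_mul_of_nonneg_left q1 (exp_pos _).le)
      rw [← exp_add, ← exp_add, exp_le_exp]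
      linarith only [w2, hσ, th0, hth, io1, l1, c7, hwK]
    linarith only [a1, a2]
  obtain win : ∀ τ ∈ Set.Icc (d.t - exp (-(ks : ℝ))) (d.t + exp (-(ks : ℝ))),
      |τ - d.t| ≤ exp (-(ks : ℝ)) := fun τ h => abs_le.2 ⟨by linarith only [h.1], by linarith only [h.2]⟩
  obtain dσ : exp (-(ks : ℝ)) ≤ exp (-σ) := exp_le_exp.2 (by linarith only [hσ, th0, hth, io1, c7, hwK])
  refine ⟨⟨c1.trans c2, by linarith only [k2', c3']⟩, ⟨exp_le_exp.2 (by linarith only [c7]), ?_⟩,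
    val ks _ (c1.trans c2) c3 ?_ ?_, nuA, c6,
    (DChain.of_contDiffOn oU p1).mono le_rfl fun τ h => mU τ ((win τ h).trans dσ),
    fun τ h => ?_, fun h => ?_, fun h => ?_, fun τ τ' h h' => ?_, jg⟩
  · rw [← exp_add, exp_le_exp]
    rcases le_total (3 * (c.io K * w)) (2 * (c.th * (d.prof c M).Rb c j)) with h | h
    · linarith only [hσ, th0, hth, hc1, c1', c2', h]
    · obtain a1 : K * (d.prof c M).Rb c j * 40 ≤ 3 * w := by
        refine le_of_mul_le_mul_left (a := c.th) ?_ th0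
        linarith only [io3, hK, th0, hth, mul_le_mul_of_nonneg_left h (show (0 : ℝ) ≤ K by linarith only [hK, th0, hth])]
      obtain a2 : 20 * (d.prof c M).Rb c j ≤ 3 * (w / (2 * K)) := by
        rw [← mul_div_assoc, le_div_iff₀ (by linarith only [hK, th0, hth])]
        linarith only [a1]
      linarith only [hσ, th0, hth, io1, c7, hwK, a2]
  · refine nuA.trans ?_
    obtain a4 : (2 : ℝ) ≤ exp 1 := by linarith only [add_one_le_exp (1 : ℝ)]
    refine (mul_le_mul_of_nonneg_right a4 (exp_pos _).le).trans ?_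
    rw [← exp_add, exp_le_exp]
    linarith only [hσ, th0, hth, io1]
  · obtain a1 := (abs_le.1 (jg _ (exp_pos (-(ks : ℝ))).le (exp_le_one_iff.2 (by simp)))).1
    obtain a2 : exp ((d.prof c M).lw j - w) ≤ exp (-w) * d.wq M (d.n + j) := by
      rw [sub_eq_add_neg, exp_add, mul_comm]
      exact mul_le_mul_of_nonneg_left q1 (exp_pos _).le
    rw [add_mul, div_mul_cancel₀ _ q0.ne']
    linarith only [c6, a1, a2, exp_pos (-(ks : ℝ))]
  · have a0 := win τ h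
    obtain a1 := jf.j4 _ _ _ _ _ (val0 k1 c1 (c2.trans c3) c4) τ
      (a0.trans (exp_le_exp.2 (by linarith only [c2'])))
    rw [div_mul_cancel₀ _ q0.ne', epow] at a1
    obtain a2 := f2 τ (mU τ (a0.trans dσ)) (K + 1) (by omega) le_rfl
    obtain a3 : exp (-((K + 1) * (k1 : ℝ))) ≤ exp (-(k1 : ℝ)) :=
      exp_le_exp.2 (by linarith only [hK, show (0 : ℝ) ≤ K * k1 by (clear * - hK; positivity)])
    obtain a4 : |iteratedDeriv (K + 1) (d.ph c M sd j) τ| * exp (-((K + 1) * (k1 : ℝ))) ≤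
        Nj K (d.g c M sd (d.n + j)) d.t (exp (-k1)) / 5 := by
      rw [p2 τ (mU τ (a0.trans dσ)) _ le_rfl]
      have a5 := mul_le_mul_of_nonneg_right ((abs_sub _ _).trans (add_le_add le_rfl a2) :
        |iteratedDeriv (K + 1) (d.g c M sd (d.n + j)) τ - iteratedDeriv (K + 1) (d.cf c M sd j) τ|
          ≤ _) (exp_pos (-((K + 1) * (k1 : ℝ)))).le
      linarith only [c5, a1, a3, a5]
    obtain a6 : exp (-((K + 1) * (ks : ℝ))) =
        exp (-((K + 1) * (k1 : ℝ))) * exp (-((K + 1) * ((ks : ℝ) - k1))) := by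
      rw [← exp_add]; congr 1; ring
    rw [epow, a6, ← mul_assoc]
    have a7 := mul_le_mul_of_nonneg_right a4 (exp_pos (-((K + 1) * ((ks : ℝ) - k1)))).le
    linarith only [c8, a7, Nj_nonneg (K := K) (F := d.ph c M sd j) (t := d.t) (D := exp (-(ks : ℝ)))]
  · obtain ⟨a1, a2⟩ := c9 h
    obtain a3 : exp 1 * exp (-(ks : ℝ)) = exp (-((ks - 1 : ℕ) : ℝ)) := by
      rw [← exp_add, Nat.cast_sub a1]; congr 1; push_cast; ring
    rw [a3]
    refine ⟨?_, a2⟩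
    obtain a4 := Nj_exp_ge (K := K) (F := d.ph c M sd j) (t := d.t) (a := ((ks - 1 : ℕ) : ℝ))
      (b := ks) (by exact_mod_cast Nat.sub_le _ _)
    rw [show (K : ℝ) * ((ks : ℝ) - ((ks - 1 : ℕ) : ℝ)) = K by
      rw [Nat.cast_sub a1]; push_cast; ring] at a4
    have a5 := mul_le_mul_of_nonneg_left (a2.le.trans a4) (exp_pos (-(K : ℝ))).le
    rwa [← mul_assoc (exp _) (exp _), ← exp_add (-(K : ℝ)) K, neg_add_cancel, exp_zero,
      one_mul] at a5
  · obtain ⟨a1, a2, a3⟩ := c10 h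
    rcases hi with hi | ⟨i1, i2, i3, i4, -⟩
    · linarith only [a1, hi]
    obtain a4 : 0 ≤ c.th * K * (d.prof c M).Rb c j := by (clear * - th0 hK hR0; positivity)
    refine ⟨i, i1, i2.trans_le (FNB.le_top b1), ?_, ?_⟩
    · rw [← i3, ← i4, abs_le]
      constructor <;> linarith only [b2, hσ, th0, hth, io1, hli, a3]
    · rw [← i4]
      obtain a5 : 200 * (c.io K * w) ≤ 20 * K * (c.io K * w) := by
        linarith only [hσ, th0, hth, io1, mul_le_mul_of_nonneg_right hK (show 0 ≤ c.io K * w by linarith only [hσ, th0, hth, io1])]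
      linarith only [b2, hσ, hth, io1, hli, a3, mul_le_mul_of_nonneg_left a2 th0.le]
  · obtain a1 := Convex.norm_image_sub_le_of_norm_deriv_le (𝕜 := ℝ) (f := d.cf c M sd j) (s := U)
      (C := 1 / 10) (x := τ') (y := τ)
      (fun x hx => (f1.contDiffAt (oU.mem_nhds hx)).differentiableAt (by simp))
      (fun x hx => by simpa using f2 x hx 1 le_rfl (by omega)) (hU ▸ convex_Ioo _ _)
      (mU _ h') (mU _ h)
    rw [Real.norm_eq_abs, Real.norm_eq_abs] at a1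
    linarith only [a1]

end Pool.Agent.MP_9cbfe4_an

end
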