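import Pool.Agent.MP_9cbfe4_an.M04
import Pool.Agent.MP_9cbfe4_an.M08
import Pool.Agent.MP_9cbfe4_an.M11
import Pool.Agent.MP_9cbfe4_an.M15
import Pool.Agent.MP_9cbfe4_an.M16
import Pool.Agent.MP_9cbfe4_an.M17
import Pool.Agent.MP_9cbfe4_an.M18
import Pool.Agent.MP_9cbfe4_an.M19
import Pool.Agent.MP_9cbfe4_an.M20
import Pool.Agent.MP_9cbfe4_an.M21
import Pool.Agent.MP_9cbfe4_an.M22
import Pool.Agent.MP_9cbfe4_an.M24
import Pool.Agent.MP_9cbfe4_an.M25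
import Pool.Agent.MP_9cbfe4_an.M26
import Pool.Agent.MP_9cbfe4_an.M27

set_option linter.all false

attribute [-instance] AddQuantale.instAddLeftMono IdemSemiring.toCanonicallyOrderedAdd
  NumberField.to_charZero AddQuantale.instAddRightMono IdemSemiring.toMulLeftMono RKHS.instFunLike
  Quantale.instMulRightMono Quantale.instMulLeftMono IsOrderedCancelMonoid.toIsOrderedMonoid
  LinearOrderedCommMonoidWithZero.toPosMulStrictMono
  Group.IsPerfect.subsingleton_of_isMulCommutative CanonicallyOrderedAdd.toMulLeftMono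
  Valued.toUniformSpace IdemSemiring.toMulRightMono TotallySeparatedSpace.t2Space
  LinearOrderedCommMonoidWithZero.toIsOrderedMonoid IsScalarTower.complexToReal
  Order.Coframe.toCompleteLattice OmegaCompletePartialOrder.toPartialOrder Invertible.toNeZero
  GrpTypeEquivalenceGrp.grpGroup littleWedderburn CanonicallyOrderedMul.toMulLeftMono
  CoalgHomClass.toSemilinearMapClass TestFunctionClass.toDFunLike
  ContDiffMapSupportedInClass.toDFunLike Order.Frame.toCompleteLattice RightPreLieAlgebra.toModule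
  CategoryTheory.Limits.Concrete.instUniqueToTypeTerminal LeftPreLieAlgebra.toModule
  CStarAlgebra.instOrderClosedTopology IdemSemiring.toSemiring
  LieAdmissibleRing.toNonUnitalNonAssocRing NonUnitalAlgSemiHomClass.toDistribMulActionSemiHomClass
  CStarAlgebra.toNormedRing

/-! ### Part SUF -/

section

/-! Rows SUFc, SUF (suffix certificates of runs) and the assembly of BINV. -/

namespace Pool.Agent.MP_9cbfe4_an

open Finset Filter Topology

namespace SUF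

/-- the constants used in this file -/
structure K (c : Cs) : Prop where
  k1 : 1 / 16 ≤ c.k0
  k2 : c.k0 < 1 / 2
  lam : 10 ≤ c.lam
  L : 1 ≤ c.L
  a0 : 0 < c.a
  a1 : c.a ≤ 1
  M : 100 / c.a + 12 ≤ c.M1
  β : 100 ≤ c.β

theorem hK : Hier K := by
  have h1 := Hier.lam_ge (fun _ => 10) fun _ _ => rfl
  have h2 := Hier.L_ge (fun _ => 1) fun _ _ => rfl
  have h3 := Hier.a_le (fun _ => 1) (fun _ _ _ _ _ _ => rfl) (Hier.of_all fun _ => one_pos)
  have h4 := Hier.M1_ge (fun c => 100 / c.a + 12) fun _ _ _ _ => rfl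
  have h5 := Hier.β_ge (fun _ => 100) fun _ _ _ => rfl
  exact (Hier.base.and (h1.and (h2.and (h3.and (h4.and h5))))).mono fun c h =>
    ⟨h.1.1, h.1.2.1, h.2.1, h.2.2.1, h.2.2.2.1.1, h.2.2.2.1.2, h.2.2.2.2.1, h.2.2.2.2.2⟩

variable {c : Cs}

theorem K.chK (h : K c) : 0 < c.chK ∧ c.chK ≤ c.bl := by
  obtain h0 : 0 < c.k0 := by linarith only [h.k1]
  refine ⟨Real.log_pos (by rw [lt_div_iff₀ h0]; linarith only [h0, h.k2]), ?_⟩
  obtain h1 : c.chK ≤ 1 / c.k0 - 1 := Real.log_le_sub_one_of_pos (by positivity)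
  obtain h2 : 1 / c.k0 ≤ 16 := by rw [div_le_iff₀ h0]; linarith only [h.k1]
  have : c.bl = c.β * c.lam := rfl
  nlinarith only [h1, h2, this, h.β, h.lam]

theorem K.chi_nonneg (h : K c) (S : Sq) {i j : ℤ} (hij : i ≤ j) : 0 ≤ S.chi c i j :=
  le_trans (mul_nonneg h.chK.1.le (by exact_mod_cast sub_nonneg.2 hij)) (S.chi_ge c h.chK.2 hij)

theorem K.ff (h : K c) (S : Sq) {i j : ℤ} (hij : i ≤ j) : 1 ≤ S.ff c i j ∧ S.ff c i j ≤ 2 := by
  obtain h1 : Real.exp (-S.chi c i j / 24) ≤ 1 :=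
    Real.exp_le_one_iff.2 (by linarith only [h.chi_nonneg S hij])
  have h2 := Real.exp_pos (-S.chi c i j / 24)
  unfold Sq.ff
  constructor <;> linarith only [h1, h2]

/-- the empty window -/
theorem triv (S : Sq) {φ : ℝ} (hφ : 1 ≤ φ) (ξ w : ℤ → ℝ) (m : ℤ) (hw : 0 < w m) :
    S.SufI c φ ξ w (fun _ => w m) ∅ m m where
  mono _ _ _ _ _ := le_rfl
  lo := le_rfl
  dd j h1 h2 := by
    obtain rfl : j = m := le_antisymm h2 h1
    simp only [Sq.DD, Ico_self, sum_empty]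
    (clear * - hw; positivity)
  sub := empty_subset _
  reg i hi := absurd hi (notMem_empty i)
  runs := by simp [Sq.chi_self]
  cost := by
    have := Real.log_nonneg hφ
    simp only [div_self hw.ne', Real.log_one, Ico_self, empty_sdiff, sum_empty, Sq.chi_self]
    linarith only [this]

theorem mono (h : K c) {S : Sq} {φ φ' : ℝ} {ξ w A : ℤ → ℝ} {Rg : Finset ℤ} {s' m : ℤ}
    (h1 : 1 ≤ φ) (h2 : φ ≤ φ') (hw : ∀ i, 0 ≤ w i) (H : S.SufI c φ ξ w A Rg s' m) :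
    S.SufI c φ' ξ w A Rg s' m where
  mono := H.mono
  lo := H.lo
  dd := H.dd
  sub := H.sub
  reg i hi := by
    obtain ⟨a, b, d, e⟩ := H.reg i hi
    have := h.lam
    have := hw i
    exact ⟨a, b, d.trans (by gcongr), e.trans (by gcongr)⟩
  runs := H.runs
  cost := H.cost.trans (by gcongr)

/-- from the inductive certificate to the exported one -/
theorem toC (h : K c) {S : Sq} (hS : S.OK c) {φ : ℝ} {ξ A : ℤ → ℝ} {Rg : Finset ℤ} {s s' m : ℤ}
    (hs : S.St c ξ s) (h0 : s ≤ s') (hm : s' ≤ m) (h1 : 1 ≤ φ) (h2 : φ ≤ 2)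
    (H : S.SufI c φ ξ (S.wh c ξ s) A Rg s' m) : S.SufC c 1 ξ (S.wh c ξ s) A Rg s' m := by
  obtain hξ : ξ s ≠ 0 := by rw [hs.2.2.1]; exact one_ne_zero
  have H2 := mono h h1 h2 (S.wh_nonneg c ξ s) H
  have hL := h.L
  have hp : 0 < S.wh c ξ s m := S.wh_pos c hξ (h0.trans hm)
  refine ⟨H.mono, H.lo, ?_, H.dd, H.sub, fun i hi => ?_, ?_, ?_⟩
  · rcases hm.eq_or_lt with rfl | hlt
    · nlinarith only [hp, hL, H.lo]
    · obtain h3 := ((Sq.cert_wh hS h.k1 h.k2 (by linarith only [h.lam]) h.chK.2 hs le_rfl).2.2 (m - 1)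
        (by omega)).1
      rw [sub_add_cancel] at h3
      obtain h4 : c.L * S.wh c ξ s (m - 1) ^ 2 ≤ S.DD c (S.wh c ξ s) s' m := by
        obtain this := single_le_sum (f := fun i => |S.fr (i + 1) m| * c.L * S.wh c ξ s i ^ 2)
          (fun i _ => by (clear * - hL; positivity)) (mem_Ico.2 ⟨by omega, by omega⟩ : m - 1 ∈ Ico s' m)
        simpa only [Sq.DD, sub_add_cancel, S.fr_self, abs_one, one_mul] using this
      have h5 := h4.trans (H.dd m hm le_rfl)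
      obtain h6 : S.wh c ξ s m * S.wh c ξ s m ≤ 36 * c.L * A m * S.wh c ξ s m := by
        have := mul_self_le_mul_self hp.le h3
        nlinarith only [h5, this, hL]
      have h7 := le_of_mul_le_mul_right h6 hp
      obtain h8 : 0 ≤ c.L * A m := by linarith only [hp, h7]
      linarith only [hp, h7]
  · obtain ⟨a, b, d, e⟩ := H2.reg i hi
    refine ⟨by linarith only [a], by linarith only [b], by linarith only [d], e.trans (le_of_eq (by ring))⟩
  · have := H.runs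
    rw [one_mul]
    convert this.trans (by linarith only [] : S.chi c s' m / c.bl + 1 ≤ S.chi c s' m / c.bl + 2)
  · have h3 : Real.log 2 ≤ 2 - 1 := Real.log_le_sub_one_of_pos two_pos
    have := H2.cost
    linarith only [h3, this]

end SUF

open SUF in
theorem sufc : Hier SUFc_s := hK.mono fun c h Ex S ξ s n r p s' hS hs hn st hp h1 h2 h3 => by
  have hξ : ξ s ≠ 0 := by rw [hs.2.2.1]; exact one_ne_zero
  have hL := h.L
  have hl := h.lam
  have hsn := hn.le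
  have hw : 0 < |ξ n| := abs_pos.2 hn.ne
  have hw' : 0 < S.wh c ξ s s' := S.wh_pos c hξ (by omega)
  obtain ⟨k1, -, -, k4, -⟩ := st.kind.resolve_left fun e => by omega
  have hb : c.bl ≤ S.chi c n s' := by
    obtain this := h.chi_nonneg S (show n + 1 ≤ s' by omega)
    rw [S.chi_add c (show n ≤ n + 1 by omega) (show n + 1 ≤ s' by omega), S.chi_succ, Sq.ch1,
      st.kz (by linarith only [hl, k1])]
    linarith only [this]
  obtain hr : 2 * c.lam ≤ r := by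
    have : c.bl = c.β * c.lam := rfl
    nlinarith only [h3, hl, hb, this, h.β]
  obtain hc : 7 * r + 17 ≤ 3 * c.a * S.chi c s' p := by
    have e1 := S.chi_add c h1.le h2.le
    obtain e2 : 0 < 100 / c.a := div_pos (by norm_num) h.a0
    obtain e3 : 100 / c.a * r ≤ S.chi c s' p := by nlinarith only [h3, k4, hr, e1, k1, e2, h.M]
    obtain e4 : c.a * (100 / c.a * r) = 100 * r := by field_simp [h.a0.ne']
    linarith only [hl, hr, e4, mul_le_mul_of_nonneg_left e3 h.a0.le]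
  have hE := Real.exp_pos r
  refine ⟨fun _ => 18 * Real.exp r * |ξ n|, fun _ _ _ _ _ => le_rfl, ?_, fun j a b => ?_,
    empty_subset _, fun i hi => absurd hi (notMem_empty i), ?_, ?_⟩
  · obtain h4 := ((Sq.cert_wh hS h.k1 h.k2 (by linarith only [hl]) h.chK.2 hs le_rfl).2.2 s' (by omega)).1
    obtain h5 : c.L * S.wh c ξ s s' ^ 2 ≤ S.DD c (S.wh c ξ s) n (s' + 1) := by
      obtain this := single_le_sum (f := fun i => |S.fr (i + 1) (s' + 1)| * c.L * S.wh c ξ s i ^ 2)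
        (fun i _ => by (clear * - hL; positivity)) (mem_Ico.2 ⟨by omega, by omega⟩ : s' ∈ Ico n (s' + 1))
      simpa only [Sq.DD, S.fr_self, abs_one, one_mul] using this
    obtain h6 := h5.trans ((st.ins2 (s' + 1) (by omega) (by omega)).trans
      (mul_le_mul_of_nonneg_left h4 (by positivity)))
    refine le_of_mul_le_mul_right ?_ (show 0 < c.L * S.wh c ξ s s' by positivity)
    linarith only [h6]
  · obtain h4 : S.DD c (S.wh c ξ s) s' j ≤ S.DD c (S.wh c ξ s) n j :=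
      sum_le_sum_of_subset_of_nonneg (Ico_subset_Ico_left h1.le) fun i _ _ => by (clear * - hL; positivity)
    obtain h5 := st.ins2 j (by omega) b
    obtain h6 : 0 ≤ Real.exp r * |ξ n| * S.wh c ξ s j := by
      have := S.wh_nonneg c ξ s j
      (clear * - hw this; positivity)
    linarith only [h4, h5, h6]
  · have h4 : 0 ≤ S.chi c s' p / c.bl := div_nonneg (h.chi_nonneg S h2.le) (h.chK.1.le.trans h.chK.2)
    obtain h5 : ((Ico s' p).filter fun i => i ∉ (∅ : Finset ℤ) ∧ (i - 1 ∈ (∅ : Finset ℤ) ∨ i = s')).card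
        ≤ 1 := card_le_one.2 fun a ha b hb => by
      simp only [mem_filter, notMem_empty, false_or] at ha hb
      rw [ha.2.2, hb.2.2]
    have h6 : _ ≤ ((1 : ℕ) : ℝ) := Nat.cast_le.2 h5
    rw [Nat.cast_one] at h6
    linarith only [h4, h6]
  · obtain h4 := S.wh_decay c ξ (show s - 1 ≤ n by omega) h1.le
    rw [hn.whm] at h4
    obtain h5 : 18 * Real.exp r * |ξ n| / S.wh c ξ s s' ≤ Real.exp (7 * r + 17) := by
      rw [div_le_iff₀ hw']
      obtain e1 : Real.exp (7 * r + 17) = Real.exp 17 * Real.exp r * Real.exp (6 * r) := by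
        rw [← Real.exp_add, ← Real.exp_add]; congr 1; ring
      obtain e2 : 1 ≤ Real.exp (6 * r) * Real.exp (-S.chi c n s' / 2) := by
        rw [← Real.exp_add]; exact Real.one_le_exp (by linarith only [h3])
      obtain e3 : |ξ n| ≤ Real.exp (6 * r) * S.wh c ξ s s' := by
        nlinarith only [hw, e2, mul_le_mul_of_nonneg_left h4 (Real.exp_pos (6 * r)).le]
      obtain e4 : 18 ≤ Real.exp 17 := by linarith only [Real.add_one_le_exp 17]
      rw [e1, mul_assoc (Real.exp 17 * Real.exp r)]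
      (clear * - e4 e3 hw; gcongr)
    obtain h6 := (Real.log_le_iff_le_exp (by (clear * - hw hw'; positivity))).2 h5
    simp only [div_self (show 18 * Real.exp r * |ξ n| ≠ 0 by positivity), Real.log_one,
      sum_const_zero]
    linarith only [hc, h6]

open SUF in
theorem suf : Hier fun c => B1_s c → SUFa_s c → SUFb_s c → SUF_s c :=
  (hK.and sufc).mono fun c ⟨h, hc⟩ hB ha hb Ex S ξ s P Ls m hS hs hR s' h1 h2 => by
  suffices H : ∃ A Rg, S.SufI c (S.ff c s s') ξ (S.wh c ξ s) A Rg s' m ∧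
      (s' = m → A m = S.wh c ξ s m) by
    obtain ⟨A, Rg, H, -⟩ := H
    exact ⟨A, Rg, toC h hS hs h1 h2 (h.ff S h1).1 (h.ff S h1).2 H⟩
  have tr : ∀ {ξ s} m, S.St c ξ s → s ≤ m → ∃ A Rg,
      S.SufI c (S.ff c s m) ξ (S.wh c ξ s) A Rg m m ∧ (m = m → A m = S.wh c ξ s m) :=
    fun {ξ s} m hs hm => ⟨_, _, triv S (h.ff S hm).1 ξ _ m
      (S.wh_pos c (by rw [hs.2.2.1]; exact one_ne_zero) hm), fun _ => rfl⟩
  have stp : ∀ {ξ s P Ls n r p}, S.St c ξ s → S.Run c Ex ξ s P ((n, r) :: Ls) p →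
      S.Step c Ex ξ s n r p ∧ S.RInv c ξ s p := fun hs hR => by
    obtain ⟨h1, h2⟩ := (hB Ex S hS).1 _ _ _ _ _ hs hR
    cases h1 with
    | cons _ st _ => exact ⟨st, h2⟩
  induction hR generalizing s' with
  | start ξ s P =>
    obtain rfl : s' = s := le_antisymm h2 h1
    exact tr _ hs le_rfl
  | @shallow ξ s P Ls n hR e1 e2 ih =>
    rcases h2.eq_or_lt with rfl | h3
    · exact tr _ hs h1
    obtain ⟨A, Rg, H, e⟩ := ih hs s' h1 (by omega)
    obtain ⟨A', Rg', H'⟩ := ha Ex S ξ s n _ _ s' _ A Rg hS hs ((hB Ex S hS).1 _ _ _ _ _ hs hR).2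
      (stp hs (hR.shallow e1 e2)).1 h1 (by omega) (h.ff S h1).1 (h.ff S h1).2 e H
    exact ⟨A', Rg', H', fun e => absurd e h3.ne⟩
  | @block ξ s P Ls n Ls' p r' hR hR' e1 e2 e3 ih ih' =>
    rcases h2.eq_or_lt with rfl | h3
    · exact tr _ hs h1
    have hn := ((hB Ex S hS).1 _ _ _ _ _ hs hR).2
    obtain ⟨st, hp⟩ := stp hs (hR.block hR' e1 e2 e3)
    rcases le_or_gt s' n with h4 | h4
    · obtain ⟨A, Rg, H, e⟩ := ih hs s' h1 h4
      obtain ⟨A', Rg', H'⟩ := ha Ex S ξ s n _ _ s' _ A Rg hS hs hn st h1 h4 (h.ff S h1).1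
        (h.ff S h1).2 e H
      exact ⟨A', Rg', H', fun e => absurd e h3.ne⟩
    rcases le_or_gt (12 * S.dep c ξ n p) (S.chi c n s') with h5 | h5
    · have hs' := B1.st_fr c S (show 0 ≤ n + 1 by linarith only [hs.1, hn.le])
      have hp' := ((hB Ex S hS).1 _ _ _ _ _ hs' hR').2
      obtain ⟨A, Rg, H, -⟩ := ih' hs' s' h4 h2
      obtain ⟨A', H'⟩ := hb S ξ s n Ls' p s' A Rg hS hs hn hp'
        ((hB Ex S hS).2.1 ξ n Ls' p r' (B1.out_of_rinv h.lam hs hn) hR' e1.1)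
        (div_ne_zero hp.ne (mul_ne_zero hn.ne hp'.ne)) h4 h2 h5 H
      exact ⟨A', Rg, H', fun e => absurd e h3.ne⟩
    · obtain ⟨A, H⟩ := hc Ex S ξ s n _ p s' hS hs hn st hp h4 h3 h5
      exact ⟨A, ∅, mono h le_rfl (h.ff S h1).1 (S.wh_nonneg c ξ s) H, fun e => absurd e h3.ne⟩

end Pool.Agent.MP_9cbfe4_an

end

/-! ### Part BINV -/

section

/-! Row BINV: the start of a bound run and the assembly of the step. -/

namespace Pool.Agent.MP_9cbfe4_an

open Finset Filter Topology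

namespace BINV

theorem start {c : Cs} (h : SUF.K c) (hL : 400 ≤ c.L) (he : 0 < c.e3) (hε : 0 < c.ε)
    (hC : 0 ≤ c.C1) (hl : 20 ≤ c.lam) {S : Sq} {ξ : ℤ → ℝ} {n : ℤ} {r : ℝ} (hS : S.OK c)
    (ho : S.Out c ξ n) (hb : S.Bd c ξ n (n + 1) r) : S.BInv c n [] (n + 1) := by
  obtain hW : S.Wp c n (n + 1) = 0 := by rw [Sq.Wp, Sq.WW, S.AA_self, Real.log_one]
  obtain hw : S.wp c n (n + 1) = 1 := by
    rw [Sq.wp, S.wh_succ c _ le_rfl, S.fr_self, abs_one, add_sub_cancel_right]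
    obtain ⟨i, h1, h2, h3, -⟩ := S.wh_attained c (S.fr (n + 1)) (s := n + 1) (j := n) (by omega)
    rw [h3, S.fr_lt (by omega : i < n + 1)]
    simp
  obtain hx : 0 ≤ S.xp c n (n + 1) := by
    have := S.load_nonneg c n (S.Wp c n (n + 1))
    rw [Sq.xp, Sq.xx, Cs.cc]
    rw [hW] at this ⊢
    (clear * - hC this hε hl; positivity)
  obtain ha : |S.a n| ≤ c.L / 2 := by
    obtain h1 : S.rho ξ n (n + 1) ^ 2 ≤ c.L := by
      have e1 : 1 ≤ Real.exp (S.Wt c (S.fr (n + 1)) (n + 1) (n + 1) r) :=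
        Real.one_le_exp (hW.ge.trans (le_max_left _ _))
      obtain e2 : c.cb ≤ 1 := by
        rw [Cs.cb, div_le_one (by positivity)]; exact one_le_pow₀ (by linarith only [hl])
      have e3 := mul_le_mul_of_nonneg_left e1 (sq_nonneg (S.rho ξ n (n + 1)))
      have e4 : S.rho ξ n (n + 1) ^ 2 * _ ≤ c.cb * c.L := hb
      nlinarith only [e2, e3, e4, hL]
    obtain h2 : |S.rho ξ n (n + 1)| ≤ c.L / 20 := abs_le_of_sq_le_sq' (by nlinarith only [hL, h1]) (by linarith only [hL])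
      |> abs_le.2
    obtain h3 : S.a n = S.rho ξ n (n + 1) - S.b n * (ξ (n - 1) / ξ n) := by
      rw [S.rho_one, ho.2.1 n le_rfl]; field_simp [ho.2.2.1]; ring
    obtain h4 : |ξ (n - 1) / ξ n| ≤ 1 / 5 := by
      rw [abs_div, div_le_iff₀ (abs_pos.2 ho.2.2.1)]
      refine ho.2.2.2.trans (mul_le_mul_of_nonneg_right ?_ (abs_nonneg _))
      have e1 := Real.add_one_le_exp (c.lam / 5)
      rw [neg_div, Real.exp_neg, inv_le_comm₀ (Real.exp_pos _) (by norm_num)]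
      linarith only [hl, e1]
    obtain h5 : |S.b n| ≤ c.L := by
      have e1 := hS.b_hi n (1 / 100) ho.1 le_rfl
      obtain e2 : Real.exp (-c.bl) ≤ 1 := Real.exp_le_one_iff.2 (by linarith only [h.chK.1, h.chK.2])
      have e3 := (Real.exp_pos (-c.bl)).le
      rw [abs_of_nonneg (by linarith only [e3, hS.b_lo n ho.1])]
      unfold Sq.bb at e1
      split_ifs at e1 <;> nlinarith only [hL, e1, e2, h.k2]
    rw [h3]
    refine (abs_sub _ _).trans ?_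
    rw [abs_mul]
    nlinarith only [hL, h2, h5, h4, abs_nonneg (S.b n), abs_nonneg (ξ (n - 1) / ξ n)]
  obtain hd : 5 / 100 ≤ dP (S.X n) := not_lt.1 fun e => by linarith only [hL, ha, hS.a_Z n ho.1 e]
  obtain hk : S.kk (n + 1) = 0 := S.kk_eq_zero.2 (Or.inr (by rw [add_sub_cancel_right]; linarith only [hd]))
  obtain hN : S.NK n (n + 1) = 0 := by
    rw [Sq.NK, show Ioc n (n + 1) = {n + 1} by ext; simp only [mem_Ioc, mem_singleton]; omega,
      sum_singleton, hk]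
  have hc := h.chi_nonneg S (show n ≤ n + 1 by omega)
  have a0 := h.a0
  refine ⟨⟨hk, hd, hS.far n ho.1 ha⟩, hx, ?_, ?_, ?_, ?_, ?_, fun x hx => absurd hx List.not_mem_nil,
    fun i h1 h2 => ?_, by simp, fun j h1 h2 => ?_, fun j h1 h2 => ?_⟩
  · obtain this : 0 < 100 / c.a := by positivity
    rw [hW]
    linarith only [hc, this, h.M]
  · obtain this : S.sg c (S.fr (n + 1)) (n + 1) (n + 1) = 0 := by
      rw [Sq.sg, Sq.sig, show S.WW c (S.fr (n + 1)) (n + 1) (n + 1) = 0 from hW, S.fr_self]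
      simp
    rw [this, Cs.ε']
    positivity
  · rw [hW, List.length_nil, Nat.cast_zero]
    positivity
  · exact le_trans (le_of_eq rfl) (mul_nonneg (by norm_num) hx)
  · rw [hN, mul_zero, Cs.CN]
    positivity
  · obtain rfl : i = n + 1 := by omega
    rw [hN, hw, mul_zero]
    exact ⟨by (clear * - a0 hc; positivity), Real.exp_le_one_iff.2 (neg_nonpos.2 (by (clear * - a0 hc; positivity))),
      Real.one_le_exp (by (clear * - a0 hc; positivity)), fun j h3 h4 => absurd h4 (by omega)⟩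
  · obtain rfl : j = n + 1 := by omega
    simp
  · obtain rfl : j = n + 1 := by omega
    rw [Ico_self, sum_empty, hw]
    positivity

theorem len_le {l W x : ℝ} (hl : 20 ≤ l) (hW : 0 ≤ W) (hx : x ≤ 10 * (W + l) / l) (y : ℝ) :
    x * Real.exp (W + 8 * y - l / 2) ≤ Real.exp (2 * (W + 4 * y)) := by
  obtain h1 : x ≤ Real.exp (W + l / 2) := by
    refine hx.trans (le_trans ?_ (Real.add_one_le_exp _))
    rw [div_le_iff₀ (by linarith only [hl])]
    nlinarith only [hl, hW]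
  refine (mul_le_mul_of_nonneg_right h1 (Real.exp_pos _).le).trans (le_of_eq ?_)
  rw [← Real.exp_add]
  congr 1
  ring

end BINV

theorem binv : Hier fun c => BINVa_s c → BINVb_s c → BINVc_s c → BINVd_s c → BINV_s c := by
  have h1 := Hier.L_ge (fun _ => 400) fun _ _ => rfl
  have h2 := Hier.e3_le (fun _ => 1) (fun _ _ _ _ _ _ _ _ => rfl) (Hier.of_all fun _ => one_pos)
  have h3 := Hier.ε_le_pow (fun _ => 1) 0 (by norm_num) (fun _ _ _ _ _ _ _ _ => rfl)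
    (Hier.of_all fun _ => one_pos)
  have h4 := Hier.C1_ge fun _ _ _ _ _ => 0
  have h5 := Hier.lam_ge (fun _ => 20) fun _ _ => rfl
  refine (SUF.hK.and (h1.and (h2.and (h3.and (h4.and h5))))).mono
    fun c ⟨h, h1, h2, h3, h4, h5⟩ ha hb hc hd Ex S ξ n hS ho =>
      ⟨fun r e => BINV.start h h1 h2.1 h3.1 h4 h5 hS ho e, fun Ls m r p e1 e2 e3 e4 e5 e6 => ?_⟩
  have H : S.BH c Ex ξ n Ls m r p := ⟨hS, ho, e1, e2, e3, e4, e5, e6⟩
  have F := ha _ _ _ _ _ _ _ _ H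
  have B := hb _ _ _ _ _ _ _ _ H F
  refine ⟨e2.kz, F.ev_le, F.chi_ge, F.sg_le, F.len, F.sumr, F.nk, F.loads,
    fun i a b => ⟨(B.1 i a b).1, (B.1 i a b).2.1, (B.1 i a b).2.2, hc _ _ _ _ _ _ _ _ H F i a⟩,
    by rw [div_mul_eq_mul_div]; exact B.2, hd _ _ _ _ _ _ _ _ H F, fun j a b =>
    (hd _ _ _ _ _ _ _ _ H F j a b).trans (mul_le_mul_of_nonneg_right ?_ (S.wh_nonneg c _ _ _))⟩
  rw [mul_assoc 8, mul_assoc 4]
  exact BINV.len_le h5 (Real.log_nonneg (S.one_le_AA c _ _ _)) F.len _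

end Pool.Agent.MP_9cbfe4_an

end

/-! ### Part BAll -/

section

/-! Assembly of parts L and B. -/

namespace Pool.Agent.MP_9cbfe4_an.BAll

theorem hSOK : Hier SOK_s := sok
theorem hSH : Hier SH_s := sh.mp sok
theorem hFD : Hier FD_s := (fd.mp sok).mp hSH
theorem hNUM : Hier NUM_s := num
theorem hRHO : Hier RHO_s := rho
theorem hBLK : Hier BLK_s := blk
theorem hSTEP : Hier STEP_s := step.mp blk
theorem hRINV : Hier RINV_s := rinv.mp blk
theorem hBINV : Hier BINV_s :=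
  (((binv.mp (binva.mp num)).mp (binvb.mp blk)).mp (binvc.mp blk)).mp (binvd.mp blk)
theorem hB1 : Hier B1_s := ((b1.mp hRINV).mp hSTEP).mp hBINV
theorem hSUF : Hier SUF_s := ((suf.mp hB1).mp sufa).mp (sufb.mp blk)
theorem hH1 : Hier H1_s := (h1.mp hB1).mp hSUF
theorem hTG : Hier TG_s := tg
theorem hB3 : Hier B3_s := (b3.mp hH1).mp tg
theorem hB2 : Hier B2_s := (((((b2.mp sok).mp hB1).mp hB3).mp hSTEP).mp hBINV).mp rho
theorem hB5 : Hier B5_s := ((b5.mp hB1).mp num).mp blk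
theorem hBM : Hier BM_s := ((bm.mp sok).mp hSH).mp rho

end Pool.Agent.MP_9cbfe4_an.BAll

end

/-! ### Part E0All -/

section

/-! Assembly of section E0. -/

namespace Pool.Agent.MP_9cbfe4_an.E0All

open BAll

theorem hT1 : Hier T1_s := ((((t1.mp hSOK).mp hSH).mp hRHO).mp hB1).mp hBM
theorem hEEL : Hier EEL_s := (((eel.mp hSOK).mp hB1).mp hB5).mp hRHO
theorem hEPAT : Hier EPAT_s := (((epat.mp hSOK).mp hB1).mp hB5).mp hEEL
theorem hELOC : Hier ELOC_s := (eloc.mp hSOK).mp hT1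
theorem hECV : Hier ECV_s := (((ecv.mp (Hier.of_all fun _ => VIT)).mp hEEL).mp hEPAT).mp hELOC
theorem hEPL : Hier EPL_s := ((((epl.mp hSOK).mp hSH).mp hFD).mp hRHO).mp hEEL
theorem hE0L20 : Hier E0L20_s := (((e0l20.mp KR).mp hEPAT).mp hEPL).mp hECV
end Pool.Agent.MP_9cbfe4_an.E0All

end

/-! ### Part SAll -/

section

/-! Section S closed. -/

namespace Pool.Agent.MP_9cbfe4_an.SS

theorem hLS : LS_s := ls aph apf1 apf2
theorem hAP0 : AP0_s := ap0 st0 aph apf2 hLS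
theorem hD0 : D0_s := d0 st0 hLS
theorem hDIFF : DIFF_s := diff hD0 (std mg) hLS

theorem hY5 : Hier Y5_s :=
  (y5.mp (subw.mp BAll.hSOK)).mp
    ((y4.mp BAll.hSOK).mp (ycov.mp ((yloc.mp BAll.hSOK).mp BAll.hSH)))

/-- section S -/
theorem hS (K : ℕ) : Hier (S_s K) := by
  obtain ⟨e, E1, h1⟩ := pkg (ex0 mg st0 aph apf1 apf2) (sm mg (stj mg) hLS hAP0 hD0) hAP0
    (jet (stj mg) hLS hAP0) K
  obtain ⟨E2, h2⟩ := rcr (fwdj (stj mg) apf1) (dcl hDIFF) K e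
  obtain ⟨E3, h3⟩ := rta (dcl hDIFF) K e
  obtain ⟨E4, h4⟩ := rtb (sep st0 apb) (sepd mg (sts mg) hDIFF) K e
  obtain ⟨E, e1, e2, e3, e4, e5, e6⟩ :
      ∃ E, E1 ≤ E ∧ E2 ≤ E ∧ E3 ≤ E ∧ E4 ≤ E ∧ e ≤ E ∧ 200 ≤ E :=
    ⟨E1 + E2 + E3 + E4 + e + 200, by omega, by omega, by omega, by omega, by omega, by omega⟩
  have hJ : Hier JS_s := ((js.mp BAll.hSOK).mp BAll.hB1).mp BAll.hRHO
  have hT : Hier (TBR_s K E) := ((ns K E).and SOK.big).mono fun c h => tbr K E c h.1 h.2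
  have hC : Hier (CERT_s K E) := ((((((cert K E).mp (ns K E)).mp BAll.hSOK).mp
    ((hcr' ns K E).mp BAll.hSOK)).mp hJ).mp (fcr K E)).mp hT
  refine (((((((ns K E).and (ns K (10 * E))).and hJ).and hT).and hC).and
    ((cloc.mp BAll.hSOK).mp hY5)).and ((clow.mp BAll.hSOK).mp hY5)).mono ?_
  rintro c ⟨⟨⟨⟨⟨⟨n1, n2⟩, j⟩, t⟩, ce⟩, lo⟩, lw⟩
  have p := rpre muc K E e c e6 e5 n1
  have a := h3 E e3 c n1 p
  have b := h4 E e4 c n1 t p
  exact asm n1 (h1 E e1 c n1 ce)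
    (rok hAP0 (near st0 aph hAP0) (spd mg st0 hAP0 apw) K E e c e6 n1 t) (rnu K E e c e6 n1 t)
    (h2 E e2 c n1 j) (rsm hAP0 muc K E e c e6 n1) p a b (rtw K E e c n1 p a b) (rll K E c n2 lo lw)

end Pool.Agent.MP_9cbfe4_an.SS

end

/-! ### Part ESK -/

section

/-! Glue E, row ESK: the skeleton indexed by the free times. -/

namespace Pool.Agent.MP_9cbfe4_an

open Finset Real

noncomputable section

namespace Sk
variable (k : Sk)
/-- the `l`-th free time -/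
def ft (l : ℕ) : ℤ := k.nx^[l] 1
open Classical in
/-- the skeleton of section E with last index `N` -/
def esk (N : ℕ) : E.Sk where
  N := N
  W l := k.W (k.ft l)
  ω l := log (k.w (k.ft l))
  R l := if k.ft l ∈ k.D then -log (k.η (k.ft l)) else 0

theorem ft_succ (l : ℕ) : k.ft (l + 1) = k.nx (k.ft l) := Function.iterate_succ_apply' _ _ _

variable {k} {c : Cs}

theorem OK1.ft_mem (h : k.OK1 c) (l : ℕ) : k.ft l ∈ k.F := by
  induction l with
  | zero => exact h.one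
  | succ l ih =>
    rw [ft_succ]
    rcases (h.F_mem _ ih).2.lt_or_eq with a | a
    · exact (h.nx_mem _ a).1
    · rw [a, h.nx_N]; exact h.last

/-- every free time has an index -/
theorem OK1.ft_surj (h : k.OK1 c) {n : ℤ} (hn : n ∈ k.F) :
    ∃ N, k.ft N = n ∧ ∀ l < N, k.ft l < n := by
  obtain key : ∀ l : ℕ, (∃ N, k.ft N = n ∧ ∀ l < N, k.ft l < n) ∨
      ((l : ℤ) + 1 ≤ k.ft l ∧ k.ft l ≤ n ∧ ∀ l' < l, k.ft l' < n) := by
    intro l
    induction l with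
    | zero => exact .inr ⟨le_rfl, (h.F_mem n hn).1, fun _ h => absurd h (Nat.not_lt_zero _)⟩
    | succ l ih =>
      rcases ih with a | ⟨a1, a2, a3⟩
      · exact .inl a
      rcases a2.lt_or_eq with b | b
      · obtain ⟨-, b1, b2⟩ := h.nx_mem _ (b.trans_le (h.F_mem n hn).2)
        refine .inr ⟨?_, ?_, fun l' hl => ?_⟩
        · rw [ft_succ]; push_cast; omega
        · rw [ft_succ]; exact b2 n hn b
        · rcases (Nat.lt_succ_iff.1 hl).lt_or_eq with e | e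
          · exact a3 l' e
          · rw [e]; exact b
      · exact .inl ⟨l, b, a3⟩
  rcases key n.toNat with a | ⟨a1, a2, -⟩
  · exact a
  · omega

theorem OK1.esk_R (h : k.OK1 c) (N l : ℕ) : 0 ≤ (k.esk N).R l := by
  simp only [esk]
  split_ifs with a
  · exact neg_nonneg.2 (log_nonpos (h.η_mem _ a).1.le (h.η_mem _ a).2)
  · exact le_rfl

theorem esk_enum {n : ℤ} {N : ℕ} {e : E.EK} (h1 : k.ft N = n) (h2 : ∀ l < N, k.ft l < n)
    (h3 : ∀ l ≤ N, 2 * k.sl (k.ft l) ≤ e.sl (k.W (k.ft l))) : Enum k n k.ft e (k.esk N) :=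
  ⟨rfl, h1, fun l _ => k.ft_succ l, h2, fun _ _ => rfl, fun _ _ => rfl, fun _ _ => by
    simp only [esk], h3⟩
end Sk

namespace Enum
variable {k : Sk} {c : Cs} {n : ℤ} {f : ℕ → ℤ} {e : E.EK} {S : E.Sk}

theorem mem (en : Enum k n f e S) (h : k.OK1 c) (hn : n ∈ k.F) {l : ℕ} (hl : l ≤ S.N) :
    f l ∈ k.F ∧ (l : ℤ) + 1 ≤ f l := by
  induction l with
  | zero => rw [en.f0]; exact ⟨h.one, le_rfl⟩
  | succ l ih =>
    obtain ⟨-, a2⟩ := ih (by omega)
    obtain ⟨b0, b1, -⟩ := h.nx_mem _ ((en.lt l hl).trans_le (h.F_mem n hn).2)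
    rw [en.nx l hl]
    exact ⟨b0, by push_cast; omega⟩

theorem lt_succ (en : Enum k n f e S) (h : k.OK1 c) (hn : n ∈ k.F) {l : ℕ} (hl : l < S.N) :
    f l < f (l + 1) := by
  rw [en.nx l hl]
  exact (h.nx_mem _ ((en.lt l hl).trans_le (h.F_mem n hn).2)).2.1

theorem ok (en : Enum k n f e S) (h : k.OK1 c) (hn : n ∈ k.F) (hR : ∀ l, S.N ≤ l → 0 ≤ S.R l)
    (l0 : 0 < c.lam) (hΛ : k.sl 1 ≤ e.Λ) (hθ : e.Λ * c.e3 ^ 2 ≤ e.θ ^ 2 * c.lam) : S.OK e := by
  have s1 := h.sl1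
  have one : ∀ l ≤ S.N, 1 ≤ f l := fun l hl => (h.F_mem _ (en.mem h hn hl).1).1
  have sl0 : ∀ l ≤ S.N, c.lam ≤ k.sl (f l) := fun l hl => s1.trans (h.sl_mono 1 _ le_rfl (one l hl))
  obtain mono : ∀ l < S.N, S.W l ≤ S.W (l + 1) := fun l hl => by
    rw [en.W l hl.le, en.W (l + 1) hl]
    exact h.W_mono _ _ (one l hl.le) (en.lt_succ h hn hl).le
  obtain hi : ∀ l ≤ S.N, S.ω l ≤ S.W l + e.Λ := fun l hl => by
    rw [en.ω l hl, en.W l hl]
    linarith only [hΛ, h.hi _ (one l hl) (h.F_mem _ (en.mem h hn hl).1).2]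
  refine ⟨?_, ?_, mono, fun l => ?_, fun l hl => ?_, hi, fun l hl => ?_, fun l hl => ?_,
    fun l hl h0 => ?_, fun l hl => ?_⟩
  · rw [en.W 0 (Nat.zero_le _), en.f0, h.W1]
  · rw [en.ω 0 (Nat.zero_le _), en.f0, h.w1, log_one, abs_zero]; linarith only [l0, hΛ, s1]
  · rcases Nat.lt_or_ge l S.N with a | a
    · rw [en.R l a]
      split_ifs with b
      · exact neg_nonneg.2 (log_nonpos (h.η_mem _ b).1.le (h.η_mem _ b).2)
      · exact le_rfl
    · exact hR l a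
  · have a1 := h.lo _ (en.mem h hn hl).1
    have a2 := en.sl l hl
    have a3 := sl0 l hl
    rw [← en.ω l hl, ← en.W l hl] at a1
    linarith only [l0, a1, a2, a3]
  · rw [en.R l hl]
    split_ifs with b
    · have a1 := (h.maj _ b).1
      rw [← en.nx l hl, ← en.W (l + 1) hl, ← en.ω l hl.le] at a1
      linarith only [l0, hΛ, s1, a1]
    · linarith only [hi l hl.le, mono l hl]
  · have a2 := en.sl (l + 1) hl
    unfold E.Sk.σ
    rw [en.R l hl]
    split_ifs with b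
    · have a1 := (h.maj _ b).2
      unfold Sk.σ at a1
      rw [← en.nx l hl, ← en.W (l + 1) hl, ← en.ω l hl.le] at a1
      linarith only [a2, a1]
    · have a1 := h.nmaj _ (en.mem h hn hl.le).1 b
      have a3 := h.lo _ (en.mem h hn hl.le).1
      have a4 := h.sl_mono _ _ (one l hl.le) (en.lt_succ h hn hl).le
      rw [← en.nx l hl, ← en.W (l + 1) hl] at a1
      rw [← en.ω l hl.le] at a3
      linarith only [a2, a1, a3, a4]
  · rw [en.R l hl] at h0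
    split_ifs at h0 with b
    · have a1 := h.d9 _ b
      unfold Sk.σ at a1
      rw [← en.nx l hl, ← en.W (l + 1) hl] at a1
      have a2 := (sl0 (l + 1) hl).trans a1
      obtain a3 : 0 < c.e3 ^ 2 := by
        refine lt_of_le_of_ne (sq_nonneg _) fun a => ?_
        rw [← a, zero_mul] at a2
        linarith only [l0, a2]
      refine le_of_mul_le_mul_right (hθ.trans ?_) a3
      have a4 := mul_le_mul_of_nonneg_left a2 (sq_nonneg e.θ)
      linarith only [a4]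
    · exact absurd h0 (lt_irrefl _)
  · obtain ⟨a1, a2⟩ := en.mem h hn hl
    have a3 := h.time _ a1
    obtain a4 : (l : ℝ) + 1 ≤ (f l : ℝ) := by exact_mod_cast a2
    have a5 : (0 : ℝ) ≤ l := Nat.cast_nonneg l
    obtain a6 : exp (k.sl (f l)) ≤ exp (e.sl (S.W l)) :=
      exp_le_exp.2 (by linarith only [l0, en.sl l hl, sl0 l hl])
    nlinarith only [a3, a4, a6]

theorem jump (en : Enum k n f e S) (h : k.OK1 c) (hn : n ∈ k.F) {κ b : ℝ}
    (hJ : ∀ x ∈ k.D, -log (k.η x) ≤ κ * k.W x + b) (g0 : 0 ≤ e.g) (hg : κ ≤ e.g) (Λ0 : 0 ≤ e.Λ)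
    (hb : b ≤ e.Λ) : S.Jump e := by
  intro l hl
  obtain w0 : 0 ≤ k.W (f l) := by
    rw [← h.W1]
    exact h.W_mono _ _ le_rfl (h.F_mem _ (en.mem h hn hl.le).1).1
  rw [en.R l hl, en.W l hl.le]
  split_ifs with a
  · linarith only [hb, hJ _ a, mul_le_mul_of_nonneg_right hg w0]
  · linarith only [Λ0, mul_nonneg g0 w0]
end Enum

/-- the depth of a major in terms of its level -/
def JMPD_s (K : ℕ) (c : Cs) : Prop := First K c → ∀ M : Mdl, M.OK c → ∀ d : Dat,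
  d.Pre c (Ex2 K c M) M → ∀ x ∈ (d.sk c M).D,
    -log ((d.sk c M).η x) ≤ c.κ * (d.sk c M).W x + 2 * c.κ * c.lam

theorem jmpd (K : ℕ) : Hier fun c => CTX_s K c → JMPD_s K c := by
  refine DRP.hK.mono fun c k hX hK M hM d v x hx => ?_
  have X := hX hK M hM d v
  obtain ⟨m1, m2, m3⟩ := Dat.mem_mj.1 (Dat.mem_D.1 hx)
  have A := (X.fr _ m1).st m2
  obtain hL : 0 < c.L := by linarith only [k.L]
  obtain e : -log ((d.sk c M).η x) = d.dp c M (x + d.n) - c.lam := by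
    rw [Dat.sk_η, A.blk.eta, log_mul hL.ne' (exp_pos _).ne', log_exp]
    unfold Cs.lam; ring
  have a1 := A.st0.r_hi
  have κ0 := hK.2.2.1
  obtain a2 : c.c1 ≤ c.lam := by
    unfold Cs.c1
    nlinarith only [k.ε0, k.ε1, k.lam]
  obtain a3 : c.κ * 4 ≤ c.κ * c.lam := mul_le_mul_of_nonneg_left (by linarith only [k.lam]) (by linarith only [κ0])
  rw [e, Dat.sk_W]
  linarith only [a1, a2, a3]

theorem ESK.num : Hier fun c => 1 ≤ c.C0 ∧ c.e3 ≤ 1 / (100 * (2 + |c.κ|) * c.C0 ^ 2) := by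
  have h1 := Hier.C0_ge fun _ _ _ _ => 1
  refine (h1.and (Hier.e3_le (fun c => 1 / (100 * (2 + |c.κ|) * c.C0 ^ 2))
    (fun _ _ _ _ _ _ _ _ => rfl) (h1.mono fun c h => ?_))).mono fun c h => ⟨h.1, h.2.2⟩
  obtain this : 0 < c.C0 := by linarith only [h]
  positivity

theorem esk (K : ℕ) : Hier fun c => SK1_s K c → BIG_s K c → CTX_s K c → ESK_s K c := by
  refine ((DRP.hK.and ESK.num).and (jmpd K)).mono ?_
  rintro c ⟨⟨k, C1, e3⟩, hJ⟩ h1 hB hX hK M hM d v n hn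
  have h := h1 hK M hM d v
  have B := (hB hK M hM d v).1
  have J := hJ hX hK M hM d v
  have κ0 := hK.2.2.1
  have l0 := k.lam
  have e0 := k.e0
  have e1 := k.e1
  rw [abs_of_nonneg (by linarith only [κ0, e0, e1] : 0 ≤ c.κ), le_div_iff₀ (by positivity)] at e3
  have ck : c.ck = 2 + c.κ := rfl
  obtain C0 : 0 < c.C0 := by linarith only [C1, e0, e1]
  obtain th : c.th ^ 2 * c.C0 ^ 2 = 1 := by unfold Cs.th; field_simp
  obtain C2 : 0 < c.C0 ^ 2 := by positivity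
  obtain a1 : 100 * c.ck * c.e3 ≤ c.th ^ 2 := by
    refine le_of_mul_le_mul_right ?_ C2
    rw [th, ck]; linarith only [e3]
  obtain a2 : 100 * c.ck * c.e3 ^ 2 ≤ c.th ^ 2 := by
    obtain this : 0 ≤ 100 * c.ck * c.e3 := by rw [ck]; positivity
    nlinarith only [a1, e1, κ0, e0, ck]
  obtain a3 : 2 * c.ths ≤ c.th ^ 2 := by
    unfold Cs.ths
    obtain b1 : c.e3 ^ 3 ≤ c.e3 := by nlinarith only [e0, e1, mul_pos e0 e0]
    rw [ck] at a1
    nlinarith only [a2, κ0, e1, ck]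
  obtain a4 : 20 * c.lam ≤ 100 * c.ck * c.lam ∧ 2 * c.κ * c.lam ≤ 100 * c.ck * c.lam := by
    rw [ck]; constructor <;> nlinarith only [κ0, l0, e0, e1]
  obtain a5 : c.κ ≤ c.eg K := by
    obtain b1 : 1 ≤ c.Cg := by unfold Cs.Cg; rw [ck]; nlinarith only [κ0, e0, e1]
    obtain b2 : (1 : ℝ) ≤ K + 1 := by linarith only [(Nat.cast_nonneg K : (0 : ℝ) ≤ K)]
    have b3 : 1 ≤ c.gm (K + 1) (K + 2) := one_le_mul_of_one_le_of_one_le b2 (one_le_pow₀ b1)
    obtain b4 : (1 : ℝ) ≤ 10 ^ 6 * (K + 1) ^ 2 :=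
      one_le_mul_of_one_le_of_one_le (by norm_num) (one_le_pow₀ b2)
    obtain b5 : c.ck ≤ 10 ^ 6 * (K + 1) ^ 2 * c.ck := le_mul_of_one_le_left (by linarith only [κ0, e0, e1, ck]) b4
    obtain b6 := le_mul_of_one_le_right (by linarith only [κ0, e0, e1, ck, b5] : 0 ≤ 10 ^ 6 * ((K : ℝ) + 1) ^ 2 * c.ck) b3
    unfold Cs.eg
    linarith only [e0, e1, ck, b5, b6]
  obtain ⟨N, n1, n2⟩ := h.ft_surj hn
  obtain en : Enum (d.sk c M) n (d.sk c M).ft (c.ek K) ((d.sk c M).esk N) := by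
    refine Sk.esk_enum n1 n2 fun l _ => ?_
    have o := (h.F_mem _ (h.ft_mem l)).1
    obtain w0 : 0 ≤ (d.sk c M).W ((d.sk c M).ft l) := by
      rw [← h.W1]; exact h.W_mono _ _ le_rfl o
    have b1 := (B _ o).1
    have b2 := mul_le_mul_of_nonneg_right a3 w0
    simp only [E.EK.sl, Cs.ek]
    linarith only [b1, b2, a4.1]
  refine ⟨_, _, en, en.ok h hn (fun l _ => h.esk_R N l) (by linarith only [l0, e0, e1]) ?_ ?_,
    en.jump h hn J (le_trans (by linarith only [κ0, e0, e1]) a5) a5 (le_trans (by linarith only [l0, e0, e1]) a4.1) a4.2⟩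
  · have b1 := (B 1 le_rfl).1
    rw [h.W1] at b1
    exact le_trans (by linarith only [l0, e0, e1, b1]) a4.1
  · obtain b1 := mul_le_mul_of_nonneg_right a2 (by linarith only [l0, e0, e1] : 0 ≤ c.lam)
    simp only [Cs.ek]
    linarith only [b1]

end
end Pool.Agent.MP_9cbfe4_an

end

/-! ### Part EGRow -/

section

/-! Section E from the rows of the other sections. -/

namespace Pool.Agent.MP_9cbfe4_an

theorem eg_row (K : ℕ) (hEA : ∀ k S La, E.Sk.EA_s k S La) : Hier fun c => JET_s K c → EJ5_s K c →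
    SOK_s c → EXT_s c → CTX_s K c → SK1_s K c → SK2_s K c → BIG_s K c → TA_s c → HVY_s K c →
    TUBE_s K c → R2_s K c → SHD_s K c → QB_s K c → AD5_s K c → J1_s K c → J1F_s K c → J1C_s K c →
    J3_s K c → J4_s K c → XC2_s K c → HI_s K c → FR_s K c → PRC_s K c → PRD_s c → VST_s K c →
    VJ6_s K c → RET_s c → E_s K c := by
  refine (((((((((((egd K hEA).and (ela K)).and (evc K)).and (ebx K)).and (eclo K)).and (esk K)).and
    (trc K)).and (key K)).and (enr K)).and (enum K)).and (epc K)).mono ?_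
  rintro c ⟨⟨⟨⟨⟨⟨⟨⟨⟨⟨egd, ela⟩, evc⟩, ebx⟩, eclo⟩, esk⟩, trc⟩, key⟩, enr⟩, enum⟩, epc⟩ jet ej5 sok ext
    ctx sk1 sk2 big ta hvy tube r2 shd qb ad5 j1 j1f j1c j3 j4 xc2 hi fr prc prd vst vj6 ret
  exact ESUM.main K c enum
    (egd (esk sk1 big ctx) (edi c) (epc xc2 sk1 sk2 (edi c) (enr sok ext (trc fr) fr sk1) ta)
      (eclo shd tube r2 j1f j1c) enum jet xc2 hi big hvy sk1 sk2)
    (ecl' K c E.run (key sok ext (trc fr) fr prc prd) (ENEAR.row c)
      (ela ta hvy tube r2 qb ad5 j1 j1f j3 j4) ej5 (ebx ta (evc j3 j4 hvy) vst vj6 ret))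

end Pool.Agent.MP_9cbfe4_an

end

/-! ### Part EJET32 -/

section

/-! Glue from section J to section E-A: the jet hypotheses `Sk.Jet`. -/

namespace Pool.Agent.MP_9cbfe4_an

open Finset Real

namespace EJET
variable {K : ℕ} {c : Cs} {M : Mdl} {σ : Seed} {t g : ℝ} {k : Sk} {n : ℤ} {f : ℕ → ℤ} {e : E.EK}
  {S : E.Sk}

theorem restr (J : JC K c M σ t g k n) {m : ℤ} (hm : m ∈ k.F) (h : m ≤ n) :
    JC K c M σ t g k m :=
  have F := J.oc.fit
  ⟨{ J.oc with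
    hn := hm
    fit := ⟨fun i a b => F.f1 i a (b.trans h), fun i a b => F.f2 i a (b.trans h),
      fun i a b => F.fE i a (b.trans h), fun i a b => F.fblk i a (b.trans_le h),
      fun i a b => F.fx i a (b.trans_le h), fun i a b => F.flo i a (b.trans_le h),
      fun i a b => F.d8 i a (b.trans h), fun i a b => F.b i a (b.trans h),
      fun i a b => F.zone i a (b.trans h), fun i a b => F.fold i a (b.trans_le h)⟩ }, J.at'⟩

structure H (K : ℕ) (c : Cs) (M : Mdl) (σ : Seed) (t g : ℝ) (k : Sk) (n : ℤ) (f : ℕ → ℤ) (e : E.EK)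
    (S : E.Sk) : Prop where
  κ : 0 < c.κ
  lam : 10 ≤ c.lam
  e3 : c.e3 ^ 2 ≤ 1 / 100
  bud : c.Bud K (K + 1)
  ta : TA_s c
  jc : JC K c M σ t g k n
  en : Enum k n f e S
  eK : e.K = K
  eg : c.gm (K + 1) (K + 2) ≤ e.g

namespace H
variable (h : H K c M σ t g k n f e S)
include h

theorem dic : Dic k f S := edi c _ _ _ _ _ h.jc.oc.sk h.jc.oc.hn h.en

theorem le {l m : ℕ} (a : l ≤ m) (b : m ≤ S.N) : f l ≤ f m :=
  h.en.l_le h.jc.oc.sk.1 h.jc.oc.hn a b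

theorem J {l : ℕ} (a : l ≤ S.N) : JC K c M σ t g k (f l) :=
  restr h.jc (h.dic.mem l a) (h.en.fN ▸ h.le a le_rfl)

theorem sg {l : ℕ} (a : l < S.N) : 10 ≤ k.sl (f l) ∧ k.sl (f l) ≤ k.σ (f l) ∧
    2 * k.σ (f l) ≤ S.σ e l := by
  have ok := h.jc.oc.sk.1
  have b := (ok.F_mem _ (h.dic.mem l a.le)).1
  rw [Sk.σ, ← h.en.nx l a]
  exact ⟨h.lam.trans (ok.sl1.trans (ok.sl_mono _ _ le_rfl b)),
    ok.sl_mono _ _ b (h.le (by omega) a), h.en.sl _ a⟩

theorem gm {j : ℕ} (j1 : 1 ≤ j) (j2 : j ≤ K) : 1000 * ((K : ℝ) + 1) ≤ c.gm (K + 1) j ∧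
    c.ck * c.gm (K + 1) j + 2 ≤ e.g ∧ 1000 * c.gm (K + 1) j ≤ e.g ∧ c.gm (K + 1) j ≤ c.C0 ^ 2 := by
  obtain ⟨a, b, d⟩ := ELA.Cg h.κ
  have K0 : (0 : ℝ) ≤ K := K.cast_nonneg
  have a1 := (ELA.gm_lo (K := K) h.κ).1.trans (ELA.gm_mono h.κ j1)
  obtain a2 : ∀ i, c.gm (K + 1) (i + 1) = c.gm (K + 1) i * c.Cg := fun i => by unfold Cs.gm; ring
  obtain a3 := (ELA.gm_mono (K := K) h.κ (by omega : j + 1 + 1 ≤ K + 2)).trans h.eg
  obtain a4 := ELA.gm_mono (K := K) h.κ (by omega : j ≤ K + 3)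
  have a5 := h.bud.2
  obtain a6 := mul_le_mul_of_nonneg_left a (show 0 ≤ c.gm (K + 1) j by linarith only [a1])
  obtain a7 := mul_le_mul_of_nonneg_left d (show 0 ≤ c.gm (K + 1) j by linarith only [a1])
  obtain a8 := mul_le_mul_of_nonneg_left a (show 0 ≤ c.gm (K + 1) j * c.Cg by linarith only [a1, a6])
  obtain a9 := mul_nonneg K0 (show 0 ≤ c.gm (K + 1) (K + 3) by linarith only [a1, a4])
  rw [a2, a2] at a3
  exact ⟨a1, by linarith only [a1, a3, a6, a7, a8], by linarith only [a1, a3, a6, a8], by nlinarith only [a1, a4, a5, a9]⟩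

theorem nn {m l a j : ℕ} (hm : m < l) (hl : l ≤ S.N) (j1 : 1 ≤ j) (j2 : j ≤ K) {G c' b : ℝ}
    (G0 : 0 ≤ G) (G1 : G ≤ c.gm (K + 1) j) (c1 : 1 ≤ c')
    (hx : ∀ x, m ≤ x → x < l → 0 < S.R x → e.g * c' * S.σ e x + S.V a x ≤ b)
    (h0 : e.g * c' * S.σ e m - S.ω m ≤ b) : k.NN (f l) a G (f m) / k.w (f m) ≤ exp (b - 4) := by
  obtain ⟨g1, g2, g3, g4⟩ := h.gm j1 j2
  have K0 : (0 : ℝ) ≤ K := K.cast_nonneg
  have ok := h.jc.oc.sk.1
  have ck := (ELA.Cg h.κ).2.1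
  obtain key : ∀ x < S.N, ∀ z, 0 ≤ z → z ≤ k.σ (f x) → e.g * z + 4 ≤ e.g * c' * S.σ e x :=
    fun x hx z z0 z1 => by
      obtain ⟨s1, s2, s3⟩ := h.sg hx
      obtain a1 := mul_le_mul_of_nonneg_right c1 (show 0 ≤ S.σ e x by linarith only [s1, s2, s3])
      obtain a2 : z + 4 ≤ c' * S.σ e x := by linarith only [z1, s1, s2, s3, a1]
      obtain this := mul_le_mul_of_nonneg_left a2 (show 0 ≤ e.g by linarith only [g1, g3])
      linarith only [g1, g3, this]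
  obtain key2 : ∀ x < S.N, G * k.σ (f x) + 4 ≤ e.g * c' * S.σ e x := fun x hx => by
    obtain ⟨s1, s2, s3⟩ := h.sg hx
    obtain this := mul_le_mul_of_nonneg_right (show G ≤ e.g by linarith only [G1, g1, g3]) (show 0 ≤ k.σ (f x) by linarith only [s1, s2])
    linarith only [this, s1, s2, key x hx _ (by linarith only [s1, s2]) le_rfl]
  refine h.dic.NN m l hm.le hl a G _ G0 (by linarith only [h0, hm, hl, key2 m (by omega)]) fun x x1 x2 => ?_
  rcases (h.en.l_R0 ok (show x < S.N by omega)).eq_or_lt with r | r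
  · obtain ⟨s1, s2, s3⟩ := h.sg (show m < S.N by omega)
    obtain mF := h.dic.mem m (by omega)
    obtain a1 := (h.ta k h.jc.oc.sk).2.2.2.2.2.2.2.2.2.2.1 _ mF _ (h.dic.mem x (by omega))
      (h.le x1 (by omega)) G G0 (G1.trans g4)
    have a2 := ok.hi _ (ok.F_mem _ mF).1 (ok.F_mem _ mF).2
    have a3 := ok.sl_mono _ _ le_rfl (ok.F_mem _ mF).1
    rw [← h.en.ω x (by omega)] at a1
    rw [← h.en.ω m (by omega)] at a2
    obtain a4 := mul_le_mul_of_nonneg_left G1 (show 0 ≤ c.ck by linarith only [ck])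
    obtain a5 := mul_le_mul_of_nonneg_right (show c.ck * G + 2 ≤ e.g by linarith only [g2, a4])
      (show 0 ≤ k.sl (f m) by linarith only [s1])
    rw [ELA.V_def, ← r]
    linarith only [h0, a1, a2, a3, a5, hl, x1, x2, s1, key m (by omega) _ (by linarith only [s1]) s2]
  · linarith only [hl, hx x x1 x2 r, key2 x (by omega)]

theorem xi {l : ℕ} (a : l ≤ S.N) : exp (S.ω l) ≤ 16 * |(σ.orb M t).fr 1 (f l)| ∧
    |(σ.orb M t).fr 1 (f l)| ≤ 16 * exp (S.ω l) := by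
  have O := (h.J a).oc
  rw [← h.dic.w l a]
  exact ⟨(O.fit.f2 _ O.hn le_rfl).trans (mul_le_mul_of_nonneg_right O.g16 (abs_nonneg _)),
    (O.fit.f1 _ (O.sk.1.F_mem _ O.hn).1 le_rfl).trans
      (mul_le_mul_of_nonneg_right O.g16 (O.sk.1.w_pos _ (O.sk.1.F_mem _ O.hn).1).le)⟩

theorem e4 : ∀ x : ℝ, 32 * exp (x - 4) ≤ exp x := fun x => by
  have a : (32 : ℝ) ≤ exp 4 := by
    obtain this := pow_le_pow_left₀ (by norm_num) (show (2.7 : ℝ) ≤ exp 1 by linarith only [exp_one_gt_d9]) 4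
    rw [← exp_nat_mul] at this
    norm_num at this ⊢; linarith only [this]
  rw [exp_sub, ← mul_div_assoc, div_le_iff₀ (exp_pos _), mul_comm]
  exact mul_le_mul_of_nonneg_left a (exp_pos _).le

theorem d8 (hD : D8C_s K c) {m : ℕ} (hm : m < S.N)
    (hx : ∀ x < m, 0 < S.R x → e.g * S.σ e x + S.V 1 x ≤ 0) : 1 / 2 ≤ |σ.La M t 1 (f m)| := by
  have a := (hD M σ t g k _ (h.J hm.le)).1
  have ok := h.jc.oc.sk.1
  obtain b : k.d8 (f m) ≤ 1 / 1000 := by
    refine (fold_max_le _).2 ⟨by norm_num, fun x hx' => ?_⟩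
    obtain ⟨x1, x2⟩ := mem_filter.1 hx'
    obtain ⟨l, l1, rfl⟩ := h.en.l_onto ok h.jc.oc.hn (ok.D_mem _ x1).1 m hm.le x2
    obtain lN : l < S.N := by omega
    obtain ⟨s1, s2, s3⟩ := h.sg lN
    obtain g1 := ((ELA.gm_lo (K := K) h.κ).1.trans (ELA.gm_mono h.κ (by omega : 1 ≤ K + 2))).trans h.eg
    have K0 : (0 : ℝ) ≤ K := K.cast_nonneg
    rw [h.dic.V l lN x1, ← exp_add, Nat.cast_one]
    refine le_trans (exp_le_exp.2 (show _ ≤ -900 from ?_)) ?_
    · rcases (h.en.l_R0 ok lN).eq_or_lt with r | r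
      · have a1 := ok.d9 _ x1
        have a2 := (ok.maj _ x1).2
        rw [h.dic.eta l lN x1, ← r, neg_zero, exp_zero, log_one, ← h.en.ω l lN.le] at a2
        obtain a3 : 0 ≤ k.W (k.nx (f l)) := by
          by_contra hn
          nlinarith only [s1, s2, a1, hn, sq_nonneg c.e3]
        have a4 := mul_le_mul_of_nonneg_right h.e3 a3
        rw [ELA.V_def, ← r]
        linarith only [s1, s2, a1, a2, a4]
      · obtain this := mul_le_mul (show 1000 ≤ e.g by linarith only [g1]) s3 (by linarith only [s1, s2]) (by linarith only [g1])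
        linarith only [s1, s2, this, hx l l1 r]
    · rw [exp_neg, inv_le_comm₀ (exp_pos _) (by norm_num), show (900 : ℝ) = 450 + 450 by norm_num,
        exp_add]
      nlinarith only [add_one_le_exp (450 : ℝ)]
  have := abs_sub_abs_le_abs_sub 1 (σ.La M t 1 (f m))
  rw [abs_sub_comm, abs_one] at this
  linarith only [a, b, this]

theorem j2 (hV : HVY_s K c) (hC : J2C_s K c) (hθ : c.th / 2 ≤ e.θ)
    (h7 : ∀ x ∈ k.D, x < n → k.η x ≤ exp (-3 * k.σ x) → D7 M t g (σ.orb M t) k x) {z i : ℕ}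
    (hi : i ≤ K) (hz : S.Maj z) (hs : S.Strong e z)
    (hc : S.Canc e (fun j l => σ.La M t j (f l)) i z) {j : ℕ} (j1 : 1 ≤ j) (j2 : j ≤ i) :
    exp (S.V (2 * j - 1) z - e.g * S.σ e z) ≤ |σ.La M t j (f z)| ∧
    |σ.La M t j (f z)| ≤ exp (S.V (2 * j - 1) z + e.g * S.σ e z) := by
  obtain ⟨zN, r0⟩ := hz
  have zD := h.dic.maj z zN r0
  have eη := h.dic.eta z zN zD
  obtain ⟨s1, s2, s3⟩ := h.sg zN
  obtain ⟨g1, -, g3, -⟩ := h.gm j1 (j2.trans hi)
  have K0 : (0 : ℝ) ≤ K := K.cast_nonneg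
  obtain st : k.Strong K (f z) := by
    have : S.W z ≤ e.Cw * S.R z := hs
    rw [Sk.Strong, eη, log_exp, neg_neg, ← h.en.W z zN.le]
    refine this.trans_eq ?_
    unfold Cw E.EK.Cw; rw [h.eK]; ring
  have hv := hV k h.jc.oc.sk _ zD st
  rw [eη, exp_le_exp] at hv
  obtain G1 := (ELA.gm_lo (K := K) h.κ).1.trans (ELA.gm_mono h.κ (by omega : 1 ≤ K + 2))
  obtain G2 := ELA.gm_mono (K := K) h.κ (by omega : K + 2 ≤ K + 3)
  obtain C1 : g2 K (c.gm (K + 1) (K + 2)) ≤ c.C0 := by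
    refine le_trans ?_ h.bud.2
    unfold g2
    obtain this := mul_le_mul_of_nonneg_left (show c.gm (K + 1) (K + 2) + K + 10 ≤
      10 * c.gm (K + 1) (K + 3) by linarith only [G1, G2]) (show (0 : ℝ) ≤ 100 * (K + 1) by (clear * -; positivity))
    linarith only [this]
  obtain C2 : 1000 ≤ c.C0 := le_trans (by nlinarith only [G1, G2]) h.bud.2
  obtain σ0 : 0 ≤ k.σ (f z) := by linarith only [s1, s2]
  have C3 := mul_le_mul_of_nonneg_right C1 σ0
  obtain C4 := mul_le_mul_of_nonneg_right C2 (show 0 ≤ c.C0 * k.σ (f z) by (clear * - C2 σ0; positivity))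
  obtain C5 := mul_le_mul_of_nonneg_right C2 (show 0 ≤ c.C0 ^ 2 * k.σ (f z) by (clear * - C2 σ0; positivity))
  have C6 := mul_le_mul_of_nonneg_right C2 σ0
  obtain C7 : c.C0 ^ 2 * k.σ (f z) ≤ c.th * S.R z := by
    rw [Cs.th, one_div, le_inv_mul_iff₀ (by linarith only [C2])]; linarith only [hv]
  have C8 := mul_le_mul_of_nonneg_right hθ r0.le
  obtain ⟨lo, hi'⟩ := hC M σ t g k n h.jc _ h.bud _ zD (h.en.lt z zN) (h7 _ zD (h.en.lt z zN)
    (by rw [eη]; exact exp_le_exp.2 (by linarith only [s1, s2, hv, C4, C5, C6]))) i (exp (-(e.θ * S.R z))) (by omega)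
    (exp_le_exp.2 (by linarith only [s1, s2, C3, C4, C6, C7, C8])) (by rw [eη]; exact exp_le_exp.2 (by linarith only [s1, s2, hv, C3, C4, C5, C6]))
    (fun a a1 a2 => by
      rw [← h.en.nx z zN, h.dic.V z zN zD, ← exp_add, ELA.V_def, Nat.cast_sub (by omega)]
      exact (hc a a1 a2).trans_eq (by congr 1; push_cast; ring)) j j1 j2
  obtain ⟨x1, x2⟩ := h.xi zN.le
  obtain x0 : 0 < |(σ.orb M t).fr 1 (f z)| := by linarith only [x1, exp_pos (S.ω z)]
  obtain jK : (j : ℝ) ≤ K := by exact_mod_cast j2.trans hi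
  obtain a1 := mul_le_mul_of_nonneg_left s3 (show 0 ≤ e.g by linarith only [g1, g3])
  have a2 := mul_le_mul_of_nonneg_right g3 σ0
  have a3 := mul_le_mul_of_nonneg_right g1 σ0
  have a4 := mul_le_mul_of_nonneg_right jK σ0
  have a5 := mul_nonneg K0 σ0
  rw [eη, ← exp_nat_mul, Nat.cast_sub (by omega), mul_neg, exp_neg, ← div_eq_mul_inv] at lo hi'
  push_cast at lo hi'
  rw [le_div_iff₀ (exp_pos _), ← exp_add] at lo
  rw [div_le_iff₀ (exp_pos _), mul_assoc, ← exp_add] at hi'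
  rw [Seed.La, abs_div, le_div_iff₀ x0, div_le_iff₀ x0, ELA.V_def]
  constructor
  · refine le_trans (mul_le_mul_of_nonneg_left x2 (exp_pos _).le) (le_trans ?_ lo)
    rw [mul_left_comm, ← exp_add]
    refine le_trans (mul_le_mul (by norm_num) (exp_le_exp.2 ?_) (exp_pos _).le (by norm_num))
      (h.e4 _)
    linarith only [s1, s2, a1, a2, a3, a4, a5]
  · refine le_of_mul_le_mul_left (le_trans ?_ (mul_le_mul_of_nonneg_left x1 (exp_pos
      ((2 * j - 1) * S.R z - S.ω z + e.g * S.σ e z)).le |>.trans_eq (mul_left_comm _ _ _)))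
      (by norm_num : (0 : ℝ) < 16)
    rw [← exp_add]
    refine le_trans ?_ (h.e4 _)
    refine le_trans (by linarith only [hi']) (mul_le_mul_of_nonneg_left (exp_le_exp.2 (show c.gm (K + 1) j *
      k.σ (f z) + (2 * j - 1) * S.R z ≤ _ by linarith only [s1, s2, a1, a2, a3, a5])) (by norm_num))

theorem two (h1 : J1_s K c) (h2 : AD2_s K c) {c' r b ρ : ℝ} (c1 : 1 ≤ c') {y i m j : ℕ}
    (hy : y < S.N) (r0 : 0 ≤ r) (hi : i ≤ K) (hf : S.Flat e (fun j l => σ.La M t j (f l)) c' i y r)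
    (hm : m ≤ y) (j1 : 1 ≤ j) (j2 : j ≤ i) (ρ0 : 0 ≤ ρ)
    (hρ : r ≤ ρ ∨ ∀ x, m ≤ x → x < y → S.R x ≤ ρ)
    (b1 : e.g * c' * S.σ e y + (2 * j - 2) * r + ρ - S.ω y ≤ b)
    (b2 : ∀ x, m ≤ x → x < y → 0 < S.R x → e.g * c' * S.σ e x + S.V (2 * j - 1) x ≤ b)
    (b3 : e.g * c' * S.σ e m - S.ω m ≤ b) : |σ.La M t j (f m) - σ.La M t j (f y)| ≤ exp b := by
  rcases hm.eq_or_lt with rfl | hlt
  · rw [sub_self, abs_zero]; exact (exp_pos _).le
  have J := h.J hy.le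
  have ok := J.oc.sk.1
  obtain ⟨s1, s2, s3⟩ := h.sg hy
  obtain ⟨g1, -, g3, -⟩ := h.gm j1 (j2.trans hi)
  have K0 : (0 : ℝ) ≤ K := K.cast_nonneg
  obtain jK : (j : ℝ) ≤ K := by exact_mod_cast j2.trans hi
  obtain j1' : (1 : ℝ) ≤ j := by exact_mod_cast j1
  obtain a0 := mul_le_mul_of_nonneg_right c1 (show 0 ≤ S.σ e y by linarith only [s1, s2, s3])
  set A := c' * S.σ e y with hA
  obtain ad := h2 k J.oc.sk _ J.oc.hn _ (exp (-(r + A))) 1 (k.sl (f y)) i h.bud (by omega) (exp_pos _)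
    (exp_le_one_iff.2 (by linarith only [r0, s1, s2, s3, a0])) zero_le_one le_rfl le_rfl
    (le_mul_of_one_le_left (by linarith only [s1]) (by linarith only [(ELA.Cg h.κ).2.1]))
  have inc := (h1 M σ t g k _ J _ i _ _ h.bud (by omega) ad fun a a1 a2 => by
    obtain ⟨q1, -⟩ := h.gm a1 (a2.trans hi)
    obtain q2 : (1 : ℝ) ≤ a := by exact_mod_cast a1
    obtain q3 := mul_le_mul q1 s1 (by norm_num) (by linarith only [jK, j1', q1])
    obtain q4 := mul_le_mul_of_nonneg_right q2 (show 0 ≤ A by linarith only [s1, s2, s3, a0])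
    rw [one_mul, h.dic.w y hy.le, ← exp_nat_mul, ← exp_add, ← exp_sub, Nat.cast_sub (by omega)]
    refine le_trans (mul_le_mul_of_nonneg_left ((hf a a1 a2).trans (exp_le_exp.2 ?_)) (by norm_num))
      (h.e4 _)
    push_cast; linarith only [jK, j1', q3, q4]).2 j j1 (by omega) (by omega) (f m) (h.dic.mem m (by omega)) (h.le hm hy.le)
  obtain nn := h.nn (a := 2 * j - 1) (G := c.gm (K + 1) j / 2) hlt hy.le j1 (j2.trans hi) (by linarith only [g1, jK, j1'])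
    (by linarith only [g1, jK, j1']) c1 (by rw [Nat.cast_sub (by omega)]; push_cast; exact b2) b3
  obtain mx : exp (-(ρ + A)) ≤ max (exp (-(r + A))) (k.em (f y) (f m)) := by
    rcases hρ with a | a
    · exact le_max_of_le_left (exp_le_exp.2 (by linarith only [a]))
    · refine le_max_of_le_right ((le_fold_min _).2 ⟨exp_le_one_iff.2 (by linarith only [ρ0, s1, s2, s3, a0]), fun x hx => ?_⟩)
      obtain ⟨x1, x2, x3⟩ := mem_filter.1 hx
      obtain ⟨l, l1, rfl⟩ := h.en.l_onto ok h.jc.oc.hn (ok.D_mem _ x1).1 y hy.le x2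
      obtain ml : m ≤ l := not_lt.1 fun q => by
        rw [← h.en.nx l (by omega)] at x3
        exact x3.not_ge (h.le q (by omega))
      rw [h.dic.eta l (by omega) x1]
      exact exp_le_exp.2 (by linarith only [s1, s2, s3, a0, a l ml l1])
  refine inc.trans (le_trans (add_le_add (?_ : _ ≤ exp (b - 4)) nn)
    (by linarith only [h.e4 b, exp_pos (b - 4)]))
  split_ifs with q
  · rw [mul_zero]; exact (exp_pos _).le
  have w0 := exp_pos (S.ω y)
  rw [one_mul, h.dic.w y hy.le]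
  refine (mul_le_mul_of_nonneg_left (div_le_div_of_nonneg_left (exp_pos _).le (by positivity)
    (mul_le_mul_of_nonneg_right (mul_le_mul_of_nonneg_left mx (by positivity)) w0.le))
    (exp_pos _).le).trans ?_
  rw [← exp_nat_mul, ← exp_add, ← exp_add, ← exp_sub, ← exp_add, Nat.cast_sub (by omega)]
  obtain a1 := mul_le_mul_of_nonneg_left (show k.sl (f y) ≤ A by linarith only [s1, s2, s3, a0])
    (show 0 ≤ c.gm (K + 1) j by linarith only [g1, jK, j1'])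
  obtain a2 := mul_le_mul_of_nonneg_right g3 (show 0 ≤ A by linarith only [s1, s2, s3, a0])
  obtain a3 := mul_le_mul_of_nonneg_right g1 (show 0 ≤ A by linarith only [s1, s2, s3, a0])
  obtain a4 := mul_le_mul_of_nonneg_right jK (show 0 ≤ A by linarith only [s1, s2, s3, a0])
  obtain a5 := mul_nonneg K0 (show 0 ≤ A by linarith only [s1, s2, s3, a0])
  rw [mul_assoc, ← hA] at b1
  exact exp_le_exp.2 (by push_cast; linarith only [s1, s2, s3, b1, a0, a1, a2, a3, a4, a5])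

theorem four (h1 : J1_s K c) (h4 : AD4_s K c) {c' b : ℝ} (c1 : 1 ≤ c') {y i m j : ℕ}
    (hy : S.Maj y) (hi : i ≤ K) (hf : ∀ j : ℕ, 1 ≤ j → j ≤ i →
      |σ.La M t j (f (y + 1))| ≤ exp (c' * S.σ e y + S.V (2 * j - 1) y))
    (hm : m ≤ y) (j1 : 1 ≤ j) (j2 : j ≤ i)
    (b2 : ∀ x, m ≤ x → x ≤ y → 0 < S.R x → e.g * c' * S.σ e x + S.V (2 * j - 1) x ≤ b)
    (b3 : e.g * c' * S.σ e m - S.ω m ≤ b) : |σ.La M t j (f m)| ≤ exp b := by
  obtain ⟨yN, r0⟩ := hy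
  have yD := h.dic.maj y yN r0
  have J := h.J (l := y + 1) yN
  obtain ⟨s1, s2, s3⟩ := h.sg yN
  obtain ⟨g1, -, g3, -⟩ := h.gm j1 (j2.trans hi)
  have K0 : (0 : ℝ) ≤ K := K.cast_nonneg
  obtain jK : (j : ℝ) ≤ K := by exact_mod_cast j2.trans hi
  obtain a0 := mul_le_mul_of_nonneg_right c1 (show 0 ≤ S.σ e y by linarith only [s1, s2, s3])
  have b1 := b2 y hm le_rfl r0
  set A := c' * S.σ e y with hA
  obtain ad := h4 k J.oc.sk _ yD _ (exp (-(S.R y + A))) i h.bud (by omega) (exp_pos _)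
    (by rw [h.dic.eta y yN yD]; exact exp_le_exp.2 (by linarith only [s1, s2, s3, a0]))
  rw [← h.en.nx y yN] at ad
  obtain eτ : ∀ a : ℕ, 1 ≤ a → exp (c.gm (K + 1) a * k.σ (f y)) / (exp (-(S.R y + A)) ^ (2 * a - 1) *
      k.w (f y)) = exp (c.gm (K + 1) a * k.σ (f y) + (2 * a - 1) * A + S.V (2 * a - 1) y) :=
    fun a a1 => by
      rw [h.dic.w y yN.le, ← exp_nat_mul, ← exp_add, ← exp_sub, Nat.cast_sub (by omega), ELA.V_def]
      congr 1; push_cast; ring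
  obtain mF := h.dic.mem m (by omega)
  have bd := (h1 M σ t g k _ J _ i _ _ h.bud (by omega) ad fun a a1 a2 => by
    obtain ⟨q1, -⟩ := h.gm a1 (a2.trans hi)
    obtain q2 : (1 : ℝ) ≤ a := by exact_mod_cast a1
    obtain q3 := mul_le_mul q1 (s1.trans s2) (by norm_num) (by linarith only [q1])
    obtain q4 := mul_le_mul_of_nonneg_right q2 (show 0 ≤ A by linarith only [s1, s2, s3, a0])
    rw [eτ a a1]
    refine le_trans (mul_le_mul_of_nonneg_left ((hf a a1 a2).trans (exp_le_exp.2 ?_)) (by norm_num))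
      (h.e4 _)
    linarith only [q3, q4]).1 j (f m) j1 j2 (by linarith only [(J.oc.sk.1.F_mem _ mF).1]) (h.le (by omega) yN)
  obtain nn := h.nn (a := 2 * j - 1) (l := y + 1) (by omega : m < y + 1) yN j1 (j2.trans hi)
    (by linarith only [g1]) le_rfl c1 (by
      rw [Nat.cast_sub (by omega)]; push_cast; exact fun x a b => b2 x a (by omega)) b3
  obtain ⟨x1, -⟩ := h.xi (l := m) (by omega)
  have w0 := exp_pos (S.ω m)
  rw [Sk.MJ, eτ j j1, (h.ta k J.oc.sk).2.2.1 _ mF] at bd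
  rw [h.dic.w m (by omega)] at bd nn
  rw [div_le_iff₀ w0] at nn
  obtain a1 := mul_le_mul_of_nonneg_left (show k.σ (f y) ≤ A by linarith only [s1, s2, s3, a0])
    (show 0 ≤ c.gm (K + 1) j by linarith only [g1])
  obtain a2 := mul_le_mul_of_nonneg_right g3 (show 0 ≤ A by linarith only [s1, s2, s3, a0])
  obtain a3 := mul_le_mul_of_nonneg_right g1 (show 0 ≤ A by linarith only [s1, s2, s3, a0])
  obtain a4 := mul_le_mul_of_nonneg_right jK (show 0 ≤ A by linarith only [s1, s2, s3, a0])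
  obtain a5 := mul_nonneg K0 (show 0 ≤ A by linarith only [s1, s2, s3, a0])
  rw [mul_assoc, ← hA] at b1
  obtain a6 := mul_le_mul_of_nonneg_left (exp_le_exp.2 (show c.gm (K + 1) j * k.σ (f y) +
    (2 * j - 1) * A + S.V (2 * j - 1) y ≤ b - 4 by linarith only [s1, s2, s3, b1, a0, a1, a2, a3, a4, a5])) w0.le
  have a7 := mul_le_mul_of_nonneg_left x1 (exp_pos (b - 4)).le
  have a8 := mul_le_mul_of_nonneg_right (h.e4 b) (abs_nonneg ((σ.orb M t).fr 1 (f m)))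
  rw [Seed.La, abs_div, div_le_iff₀ (by linarith only [x1, w0])]
  linarith only [bd, nn, a6, a7, a8]

end H
end EJET

theorem ejet32 (K : ℕ) : Hier fun c => TA_s c → HVY_s K c → D8C_s K c → J2C_s K c → J1_s K c →
    AD2_s K c → AD4_s K c → JET_s K c := by
  obtain e1 := Hier.e3_le (fun _ => 1 / 10) (fun _ _ _ _ _ _ _ _ => rfl) (.of_all fun _ => by norm_num)
  refine (Hier.base.and ((Hier.lam_ge (fun _ => 10) fun _ _ => rfl).and e1)).mono
    fun c ⟨⟨_, _, _, _, hκ, _⟩, hl, e30, e31⟩ hT hV hD hC h1 h2 h4 hb M σ t g k n J h7 f e S en eK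
      eθ eg => ?_
  obtain h : EJET.H K c M σ t g k n f e S := ⟨hκ, hl, by (rename_i zq5 _ _ _ _ _; nlinarith only [zq5]), hb, hT, J, en, eK, eg⟩
  refine ⟨fun j j1 j2 => ?_, fun m hm hx => h.d8 hD hm hx,
    fun z i hi hz hs hc j j1 j2 => h.j2 hV hC eθ h7 (eK ▸ hi) hz.1 hs hc j1 j2,
    fun c' c1 _ y hy r r0 i hi hf m hm j j1 j2 b ρ ρ0 hρ b1 b2 b3 =>
      h.two h1 h2 c1 hy r0 (eK ▸ hi) hf hm j1 j2 ρ0 hρ b1 b2 b3,
    fun c' c1 _ y hy i hi hf m hm j j1 j2 b b2 b3 => h.four h1 h4 c1 hy (eK ▸ hi) hf hm j1 j2 b2 b3⟩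
  obtain e1 : (fun s => (σ.orb M s).X 1) = σ.v := by
    funext s; simp [Seed.orb, Mdl.orb, Mdl.pos]
  rw [en.f0, Seed.La, Sq.fr_self, div_one, Seed.pj, e1]
  rcases j1.eq_or_lt with rfl | j3
  · rw [iteratedDeriv_one]
    obtain ⟨a, b⟩ := abs_le.1 J.at'.v1
    exact abs_le.2 ⟨by (rename_i zq5 _ _ _ _ _; linarith only [zq5, a]), by (rename_i zq5 _ _ _ _ _; linarith only [zq5, b])⟩
  · (rename_i zq5 _ _ _ _ _; linarith only [zq5, eK, j2, J.at'.vj j j3 (by omega)])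

end Pool.Agent.MP_9cbfe4_an

end

/-! ### Part JAll -/

section

/-! Assembly: every row with its hypotheses discharged. -/

namespace Pool.Agent.MP_9cbfe4_an.JAll

theorem hTA : Hier TA_s :=
  ta
theorem hTB : Hier TB_s :=
  tb.mp hTA
theorem hTC : Hier TC_s :=
  tc.mp hTA
theorem hAD1 (K : ℕ) : Hier (AD1_s K) :=
  ((AD1 K).mp hTA).mp hTC
theorem hAD2 (K : ℕ) : Hier (AD2_s K) :=
  ((AD2 K).mp hTA).mp hTC
theorem hAD3 (K : ℕ) : Hier (AD3_s K) :=
  ((AD3 K).mp hTA).mp hTC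
theorem hAD4 (K : ℕ) : Hier (AD4_s K) :=
  ((AD4 K).mp hTA).mp hTC
theorem hAD5 (K : ℕ) : Hier (AD5_s K) :=
  ((AD5 K).mp hTA).mp hTC
theorem hGEO (K : ℕ) : Hier (GEO_s K) :=
  geo K
theorem hTUBE (K : ℕ) : Hier (TUBE_s K) :=
  ((((tube K).mp hTA).mp hTB).mp hTC).mp (hGEO K)
theorem hR2 (K : ℕ) : Hier (R2_s K) :=
  r2 K
theorem hD7S (K : ℕ) : Hier (D7S_s K) :=
  ((d7s K).mp hTA).mp (hR2 K)
theorem hSHD (K : ℕ) : Hier (SHD_s K) :=
  ((shd K).mp hTA).mp (hGEO K)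
theorem hJ6 (K : ℕ) : Hier (J6_s K) :=
  ((((((j6 K).mp hTA).mp hTB).mp hTC).mp (hGEO K)).mp (hTUBE K)).mp (hR2 K)
theorem hQB (K : ℕ) : Hier (QB_s K) :=
  (qb K).mp (hGEO K)
theorem hJ1 (K : ℕ) : Hier (J1_s K) :=
  ((((j1 K).mp hTA).mp hTB).mp hTC).mp (hQB K)
theorem hD8C (K : ℕ) : Hier (D8C_s K) :=
  d8c K
theorem hJ1F (K : ℕ) : Hier (J1F_s K) :=
  (((j1f K).mp hTA).mp (hAD1 K)).mp (hJ1 K)
theorem hJ1C (K : ℕ) : Hier (J1C_s K) :=
  ((((((j1c K).mp hTA).mp (hGEO K)).mp (hTUBE K)).mp (hR2 K)).mp (hSHD K)).mp (hJ1F K)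
theorem hJ2A (K : ℕ) : Hier (J2A_s K) :=
  ((((j2a K).mp hTA).mp hTB).mp hTC).mp (hQB K)
theorem hJ2B (K : ℕ) : Hier (J2B_s K) :=
  (j2b K).mp (hQB K)
theorem hJ2 (K : ℕ) : Hier (J2_s K) :=
  (((((j2 K).mp hTA).mp hTB).mp (hQB K)).mp (hJ2A K)).mp (hJ2B K)
theorem hJ2C (K : ℕ) : Hier (J2C_s K) :=
  (((((j2c K).mp hTA).mp (hAD3 K)).mp (hJ1 K)).mp (hD8C K)).mp (hJ2 K)
theorem hHVY (K : ℕ) : Hier (HVY_s K) :=
  hvy K
theorem hJ3 (K : ℕ) : Hier (J3_s K) :=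
  (((((j3 K).mp hTA).mp (hHVY K)).mp (hAD1 K)).mp (hJ1 K)).mp (hD8C K)
theorem hJ4 (K : ℕ) : Hier (J4_s K) :=
  ((((j4 K).mp (hAD1 K)).mp (hTUBE K)).mp (hR2 K)).mp (hJ1 K)
theorem hFW5 (K : ℕ) : Hier (FW5_s K) :=
  (fw5 K).mp hTA
theorem hNUM5 (K : ℕ) : Hier (NUM5_s K) :=
  (num5 K).mp hTA
theorem hPN5 (K : ℕ) : Hier (PN5_s K) :=
  ((pn5 K).mp hTA).mp hTB
theorem hEL5 (K : ℕ) : Hier (EL5_s K) :=
  ((el5 K).mp hTA).mp hTC
theorem hZ05 (K : ℕ) : Hier (Z05_s K) :=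
  ((z05 K).mp hTA).mp (hSHD K)
theorem hSRC5 (K : ℕ) : Hier (SRC5_s K) :=
  ((src5 K).mp BAll.hSOK).mp (hGEO K)
theorem hCRU5 (K : ℕ) : Hier (CRU5_s K) :=
  ((cru5 K).mp hTA).mp (hFW5 K)
theorem hLOC5 (K : ℕ) : Hier (LOC5_s K) :=
  (((loc5 K).mp hTA).mp (hJ2A K)).mp (hJ2B K)
theorem hBET5 (K : ℕ) : Hier (BET5_s K) :=
  (((bet5 K).mp hTA).mp (hD8C K)).mp (hJ2 K)
theorem hJ5 (K : ℕ) : Hier (J5_s K) :=
  (((((((((j5_of K).mp (hFW5 K)).mp (hNUM5 K)).mp (hPN5 K)).mp (hEL5 K)).mp (hZ05 K)).mp (hSRC5 K)).mp (hCRU5 K)).mp (hLOC5 K)).mp (hBET5 K)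
theorem hEXT : Hier EXT_s :=
  (ext_row.mp BAll.hSTEP).mp BAll.hB1
theorem hDRP : Hier DRP_s :=
  (drp.mp BAll.hB1).mp BAll.hBLK
theorem hDS0 : Hier DS0_s :=
  ((ds0.mp BAll.hB1).mp BAll.hNUM).mp BAll.hB5
theorem hDS1 : Hier DS1_s :=
  (((((ds1.mp BAll.hB1).mp BAll.hNUM).mp BAll.hRHO).mp BAll.hB5).mp hDRP).mp hDS0
theorem hCTX (K : ℕ) : Hier (CTX_s K) :=
  (((((ctx K).mp BAll.hSOK).mp BAll.hB1).mp hEXT).mp hDRP).mp hDS0
theorem hSK1 (K : ℕ) : Hier (SK1_s K) :=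
  (sk1 K).mp (hCTX K)
theorem hSK2 (K : ℕ) : Hier (SK2_s K) :=
  (sk2 K).mp (hCTX K)
theorem hDFE (K : ℕ) : Hier (DFE_s K) :=
  (((dfe K).mp (hCTX K)).mp hDRP).mp hDS1
theorem hD8 (K : ℕ) : Hier (D8_s K) :=
  (((((((d8 K).mp BAll.hSOK).mp BAll.hB5).mp hEXT).mp hTA).mp (hSK1 K)).mp (hSK2 K)).mp (hDFE K)
theorem hFIT (K : ℕ) : Hier (FIT_s K) :=
  (((((((fit K).mp (hSK1 K)).mp (hSK2 K)).mp (hDFE K)).mp (hD8 K)).mp hEXT).mp BAll.hBLK).mp BAll.hSOK
theorem hD7 (K : ℕ) : Hier (D7_s K) :=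
  ((((((d7 K).mp BAll.hSOK).mp BAll.hB1).mp BAll.hBLK).mp BAll.hRHO).mp hEXT).mp hDS0
theorem hBIG (K : ℕ) : Hier (BIG_s K) :=
  (big K).mp (hCTX K)
theorem hTS : Hier TS_s :=
  ((ts.mp BAll.hSOK).mp BAll.hSH).mp BAll.hRHO
theorem hFR (K : ℕ) : Hier (FR_s K) :=
  (((fr_row K).mp BAll.hSOK).mp BAll.hB1).mp BAll.hRHO
theorem hHIV : Hier HIV_s :=
  ((hiv.mp BAll.hB1).mp BAll.hB5).mp BAll.hSOK
theorem hHI (K : ℕ) : Hier (HI_s K) :=
  (((hi K).mp BAll.hB1).mp BAll.hB5).mp BAll.hSOK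
theorem hXCU (K : ℕ) : Hier (XCU_s K) :=
  (((((((((((xcu K).mp BAll.hSOK).mp BAll.hB1).mp BAll.hRHO).mp hTS).mp (hFR K)).mp hHIV).mp (hFIT K)).mp (hR2 K)).mp (hTUBE K)).mp (hD7 K)).mp (hD7S K)
theorem hXC2 (K : ℕ) : Hier (XC2_s K) :=
  ((xc2 K).mp (hFIT K)).mp (hXCU K)
theorem hJX (K : ℕ) : Hier (JX_s K) :=
  ((((((((jx K).mp BAll.hSOK).mp BAll.hB1).mp BAll.hRHO).mp hTS).mp (hFR K)).mp hHIV).mp (hFIT K)).mp (hBIG K)

end Pool.Agent.MP_9cbfe4_an.JAll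

end

/-! ### Part H2 -/

section

/-! Row H2, third part: the invariant `HInv` along admissible curves. -/

namespace Pool.Agent.MP_9cbfe4_an

noncomputable section

theorem hinv_base (c : Cs) (M : Mdl) (t : ℝ) : HInv c M t 0 id := fun u _ => by
  have e : M.tg t (id u) 0 0 = 1 := by rw [Mdl.tg, Sq.fr_self, div_one]
  refine ⟨fun j => |M.tg t (id u) 0 j|, ⟨le_rfl, .nil, rfl, ?_, fun j a b => ?_,
    ⟨fun j a b => by omega, fun j _ _ => (one_mul _).ge⟩, fun j a b => by omega,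
    fun j a b => by omega, fun j a b => by omega, fun i j a b d => by omega,
    fun j a b => by omega⟩, fun j a b => by omega, fun j a b => by omega, fun j a b => by omega,
    fun j a b => by omega⟩
  · rw [Mdl.tg, Sq.fr_lt _ (by omega), zero_div, abs_zero]
    positivity
  · rw [le_antisymm b a, e, abs_one]
    exact one_pos

theorem hinv_run {c : Cs} (hS : SOK_s c) (hB : B1_s c) (h1 : H1_s c) (hC : CONC_s c) (Ex : ExT)
    (M : Mdl) (t : ℝ) (s : ℤ) (φ : ℝ → ℝ) (hM : M.OK c) (ht : TI t) (hI : HInv c M t s φ) :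
    ∀ u ∈ Set.Icc (0 : ℝ) 100, φ u ∈ Set.Icc (0 : ℝ) 100 →
      (M.O t (φ u)).St c (M.tg t (φ u) s) s → ∀ Ls n,
      (M.O t (φ u)).Run c Ex (M.tg t (φ u) s) s (fun _ _ _ => True) Ls n →
      ∃ w, (M.O t (φ u)).Hist c (M.tg t (φ u) s) w 0 n := fun u hu hφ st Ls n hR => by
  obtain ⟨w, hw⟩ := hI u hu
  have ok := ((hS M hM t ht).2.1 _ hφ).2
  exact ⟨_, (hC _ _ _ _ _ _ _ ok st.1 hR.le hw
    ((hB Ex _ ok).1 _ _ (fun _ _ _ => True) _ _ st (.start ..)).2.whm).1 (h1 _ _ _ _ _ _ _ ok st hR)⟩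

theorem hinv_step {c : Cs} (h : WC c) (he : 5000 * c.lam ^ 4 ≤ Real.exp (1 / 4 * c.lam))
    (hS : SOK_s c) (hW : WIN_s c) (hP : HPERT_s c) (hC : CONC_s c) (hL : SCL_s c) (Ex : ExT)
    (M : Mdl) (t : ℝ) (s : ℤ) (x0 : ℝ) (φ : ℝ → ℝ) (u0 : ℝ) (n : ℤ) (x1 : ℝ) (g : ℝ → ℝ)
    (hM : M.OK c) (ht : TI t) (hA : AdmP c Ex M t s x0 φ) (hI : HInv c M t s φ)
    (hu0 : u0 ∈ Set.Icc (0 : ℝ) 100) (hG : (M.O t (φ u0)).Good c Ex (M.tg t (φ u0) s) s n)
    (_ : ContinuousOn g (Set.Icc 0 100))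
    (hg : ∀ u ∈ Set.Icc (0 : ℝ) 100, g u ∈ Set.Icc (0 : ℝ) 100 ∧
      |g u - u0| ≤ 5000 / |M.tg t (φ u0) s n| ∧ (M.O t (φ (g u))).X n = x1 + u) :
    HInv c M t n (φ ∘ g) := fun u hu => by
  obtain ⟨hu', hη, -⟩ := hg u hu
  obtain ⟨w1, hw1⟩ := hI _ hu'
  obtain ⟨-, ok, -, -⟩ := adm_orb hS hM ht hA hu0
  obtain ⟨-, ok', -, -⟩ := adm_orb hS hM ht hA hu'
  obtain ⟨-, -, st, -⟩ := hA.mem _ hu0
  obtain ⟨-, -, st', -⟩ := hA.mem _ hu'
  obtain ⟨lt, ⟨Ls, hR⟩, sg, -⟩ := id hG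
  have l8 := h.lam8
  have A1 := (M.O t (φ u0)).one_le_AA c (M.tg t (φ u0) s) s n
  have p0 := abs_nonneg (g u - u0)
  have e1 : |g u - u0| * |M.tg t (φ u0) s n| ≤ 5000 := mul_le_of_le_div₀ (by norm_num) (abs_nonneg _) hη
  have e2 : |g u - u0| * (M.O t (φ u0)).AA c (M.tg t (φ u0) s) s n ≤ c.cw := by
    rcases (abs_nonneg (M.tg t (φ u0) s n)).eq_or_lt with e | e
    · rw [← e, div_zero] at hη
      rw [le_antisymm hη p0, zero_mul]
      exact h.cw3.1.le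
    obtain f : (M.O t (φ u0)).AA c (M.tg t (φ u0) s) s n ≤
        Real.exp (-c.lam / 4) * |M.tg t (φ u0) s n| := by
      rw [← div_le_iff₀ e, ← Real.log_le_iff_le_exp (div_pos (by linarith only [A1]) e),
        Real.log_div (by linarith only [A1]) e.ne']
      exact sg
    obtain f' : 5000 * Real.exp (-c.lam / 4) ≤ c.cw := by
      rw [Cs.cw, le_div_iff₀ (by positivity), neg_div, Real.exp_neg, mul_right_comm,
        ← div_eq_mul_inv, div_le_one (Real.exp_pos _)]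
      exact he.trans_eq (by ring_nf)
    nlinarith only [f', e1, mul_le_mul_of_nonneg_left f p0, Real.exp_pos (-c.lam / 4)]
  obtain e3 : |g u - u0| ≤ 1 / 1000 := by nlinarith only [e2, A1, p0, h.cw3.2]
  obtain ⟨w2, e4, hw2⟩ := hP Ex M t _ _ _ _ _ _ s n ok st hG
    (hW Ex M t s x0 φ hM ht hA u0 hu0 _ hu' Ls n hR e2).1 e1 st'.2.1 st'.2.2.1
    ((adm_near h hS hM ht hA hu0 hu' e3).2.2.2.2.2.trans (by nlinarith only [p0, h.gl]))
  have k := (hC _ _ _ _ _ _ _ ok' hA.s0 lt.le hw1 (by rw [e4, st'.2.2.1, abs_one])).2 hw2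
  have n0 : M.tg t (φ (g u)) s n ≠ 0 :=
    abs_pos.1 (hw2.hist.wn ▸ hw2.hist.pos n lt.le le_rfl)
  refine ⟨_, (congrArg (fun ξ => Sq.GHist c _ ξ _ 0 n) (funext fun j => ?_)).mp
    ((hL _ _ _ _ _ _ (inv_ne_zero n0)).2 k)⟩
  have := (div_ne_zero_iff.1 n0).2
  simp only [Mdl.tg, Function.comp]
  field_simp

/-- the constants of row H2 -/
theorem hier_H2 : Hier fun c => WC c ∧ c.a ≤ 1 / 4 ∧ 2 ≤ c.a * c.bl ∧
    5000 * c.lam ^ 4 ≤ Real.exp (1 / 4 * c.lam) :=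
  (hier_WC.and ((Hier.a_le (fun _ => 1 / 4) (fun _ _ _ _ _ _ => rfl)
    (Hier.of_all fun _ => by norm_num)).and ((Hier.β_ge (fun c => 2 / c.a) fun _ _ _ => rfl).and
    (Hier.pow_le_exp (fun _ => 5000) (fun _ => 1 / 4) 4 (fun _ _ => rfl) (fun _ _ => rfl)
      (Hier.of_all fun _ => by norm_num))))).mono fun c ⟨h, h1, h2, h3⟩ => ⟨h, h1.2, by
    rw [div_le_iff₀' h1.1] at h2
    rw [Cs.bl, ← mul_assoc]
    (rename_i zq0; nlinarith only [zq0, h2, h.lam8]), h3⟩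

theorem h2 : Hier fun c => SOK_s c → SH_s c → B1_s c → SUF_s c → H1_s c → WIN_s c →
    HIs c (HInv c) :=
  (hier_H2.and conc).mono fun c ⟨h, hC⟩ hS hH hB hF h1 hW => ⟨fun M t _ _ => hinv_base c M t,
    hinv_step h.1 h.2.2.2 hS hW (pert_of h.1 h.2.1 h.2.2.1 hH hB hF) hC (scl c),
    hinv_run hS hB h1 hC⟩

theorem t0h2 : Hier fun c => SOK_s c → SH_s c → FD_s c → B1_s c → SUF_s c → H1_s c → TG_s c →
    T0_s c ∧ H2_s c :=
  (t0.and (h2.and win)).mono fun _ ⟨a, b, d⟩ hS hH hD hB hF h1 hT =>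
    a hS hH hD hB hT ⟨_, b hS hH hB hF h1 (d hS hH hB)⟩

end
end Pool.Agent.MP_9cbfe4_an

end

/-! ### Part TAll -/

section

/-! Assembly of part T. -/

namespace Pool.Agent.MP_9cbfe4_an.TAll

open BAll

theorem hWIN : Hier WIN_s := ((win.mp hSOK).mp hSH).mp hB1
theorem hT1 : Hier T1_s := ((((t1.mp hSOK).mp hSH).mp hRHO).mp hB1).mp hBM
theorem hT0H2 : Hier fun c => T0_s c ∧ H2_s c :=
  ((((((t0h2.mp hSOK).mp hSH).mp hFD).mp hB1).mp hSUF).mp hH1).mp hTG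
theorem hT0 : Hier T0_s := hT0H2.mono fun _ h => h.1
theorem hT2 : Hier T2_s := t2.mp hNUM
theorem hKR : Hier KR_s := KR
theorem hT3 : Hier T3_s := ((((((t3.mp hSOK).mp hB1).mp hWIN).mp hFD).mp hT1).mp hT2).mp hKR
theorem hCRN : Hier CRN_s := ((((crn.mp hSOK).mp hB1).mp hFD).mp hT1).mp hWIN
theorem hT4 : Hier T4_s :=
  (((((((t4.mp hSOK).mp hB1).mp hB2).mp hT0).mp hWIN).mp hT2).mp hT3).mp hCRN

end Pool.Agent.MP_9cbfe4_an.TAll

end

/-! ### Part EGAll -/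

section

/-! Section E without hypotheses. -/

namespace Pool.Agent.MP_9cbfe4_an.EGAll
open BAll JAll

variable (K : ℕ)

theorem hJET : Hier (JET_s K) :=
  (((((((ejet32 K).mp hTA).mp (hHVY K)).mp (hD8C K)).mp (hJ2C K)).mp (hJ1 K)).mp (hAD2 K)).mp (hAD4 K)
theorem hEJ5 : Hier (EJ5_s K) := ((((ej5 K).mp hTA).mp (hAD1 K)).mp (hJ1 K)).mp (hJ5 K)
theorem hPRC : Hier (PRC_s K) := ((((prc K).mp hSOK).mp hB1).mp hB5).mp TAll.hKR
theorem hPRD : Hier PRD_s := ((prd.mp hSOK).mp hB1).mp (hFR 0)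
theorem hVST : Hier (VST_s K) := (((((vst K).mp hSOK).mp hTA).mp (hTUBE K)).mp (hR2 K)).mp (hSHD K)
theorem hVJ6 : Hier (VJ6_s K) := (((((vj6 K).mp hSOK).mp hTA).mp hTB).mp (hSHD K)).mp (hJ6 K)
theorem hRET : Hier RET_s :=
  (ret.mp ((tru.mp hSOK).mp ((tsn.mp hSOK).mp hTS))).mp ((ret0.mp hSOK).mp TAll.hT1)

theorem hE : Hier (E_s K) :=
  ((((((((((((((((((((((((((((eg_row K E.ea).mp (hJET K)).mp (hEJ5 K)).mp hSOK).mp hEXT).mp
    (hCTX K)).mp (hSK1 K)).mp (hSK2 K)).mp (hBIG K)).mp hTA).mp (hHVY K)).mp (hTUBE K)).mp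
    (hR2 K)).mp (hSHD K)).mp (hQB K)).mp (hAD5 K)).mp (hJ1 K)).mp (hJ1F K)).mp (hJ1C K)).mp
    (hJ3 K)).mp (hJ4 K)).mp (hXC2 K)).mp (hHI K)).mp (hFR K)).mp (hPRC K)).mp hPRD).mp
    (hVST K)).mp (hVJ6 K)).mp hRET

end Pool.Agent.MP_9cbfe4_an.EGAll

end

/-! ### Part FAll -/

section

/-! Section F of THM-2 without hypotheses. -/

namespace Pool.Agent.MP_9cbfe4_an.FAll
open BAll TAll

theorem hTS : Hier TS_s := ((ts.mp hSOK).mp hSH).mp hRHO
theorem hTSN : Hier TSN_s := (tsn.mp hSOK).mp hTS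
theorem hTRU : Hier TRU_s := (tru.mp hSOK).mp hTSN
theorem hRET0 : Hier RET0_s := (ret0.mp hSOK).mp hT1
theorem hLOC : Hier LOC_s :=
  ((((((loc.mp hSOK).mp hSH).mp hFD).mp hB1).mp hT1).mp shs).mp hRET0
theorem hCC : Hier CC_s := cc.mp hLOC
theorem hPAR : Hier PAR_s := (par.mp hB1).mp hBLK

variable (K : ℕ)

theorem hRETD : Hier (RETD_s K) := ((((retd K).mp hSOK).mp hB1).mp hB3).mp hRHO
theorem hFR : Hier (FR_s K) := (((fr_row K).mp hSOK).mp hB1).mp hRHO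
theorem hPRC : Hier (PRC_s K) := ((((prc K).mp hSOK).mp hB1).mp hB5).mp hKR
theorem hPRD : Hier PRD_s := ((prd.mp hSOK).mp hB1).mp (hFR 0)
theorem hHI : Hier (HI_s K) := (((hi K).mp hB1).mp hB5).mp hSOK
theorem hFFE : Hier (FFE_s K) :=
  ((((((ffe K).mp hSOK).mp hB1).mp hB5).mp (hFR K)).mp hPRD).mp (hHI K)
theorem hSC : Hier (SC_s K) := (hRETD K).mono (sc K)
theorem hREL : Hier (REL_s K) :=
  ((((((rel K).mp hSOK).mp (Hier.of_all (nb K))).mp (hSC K)).mp ((hSC K).mono (zon K))).mp hTSN).mp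
    hTRU
theorem hMACH : Hier (MACH_s K) :=
  ((((((hSOK.and (hSC K)).and (hREL K)).and hCC).and hPAR).and hPRD).and (hRETD K)).mono
    fun c ⟨⟨⟨⟨⟨⟨a, s⟩, r⟩, k⟩, p⟩, d⟩, t⟩ =>
      have n := nb K c
      have m := cmp K c n s
      mach K c s (mach1 K c n s m
        (reg K c n s m (zon K c s) (vols K c a n s m r k p d) (voll K c n s m r t d)) d)
theorem hDEC : Hier (DEC_s K) := (hPRC K).mono (dec K)

theorem hFS : Hier (FS_s K) := ((((fnum K).and (hFFE K)).and (hMACH K)).and (hDEC K)).mono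
  fun c ⟨⟨⟨n, e⟩, m⟩, d⟩ => fs_of n e (fsg K c m d)
theorem hF3 : Hier (F3_s K) :=
  (((((fnum K).and (hFFE K)).and (hMACH K)).and (hDEC K)).and hPRD).mono
    fun c ⟨⟨⟨⟨n, e⟩, m⟩, d⟩, p⟩ => f3_of n e (f3g K c m d p)
theorem hF5 : Hier (F5_s K) := (((fnum K).and (hFFE K)).and (hDEC K)).mono
  fun c ⟨⟨n, e⟩, d⟩ => f5_of n e (f5g K c (sc5 K c) (cel5 K c (sc5 K c)) d)

end Pool.Agent.MP_9cbfe4_an.FAll

end

/-! ### Part All2 -/

section

/-! The parameter exclusion with free returns, all sections discharged. -/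

namespace Pool.Agent.MP_9cbfe4_an

open BAll JAll

theorem hRED (K : ℕ) : Hier (RED_s K) := ((red K).mp hB5).mp hSOK
theorem hLOW (K : ℕ) : Hier (LOW_s K) := ((((low K).mp hSOK).mp hB1).mp hB5).mp E0All.hE0L20
theorem hVAL (K : ℕ) : Hier (VAL_s K) :=
  (((((((((val K).mp hSOK).mp (hFR K)).mp hEXT).mp (hHI K)).mp (hBIG K)).mp hTA).mp
    (hXC2 K)).mp (hJ3 K)).mp (hJ4 K)
theorem hJFR (K : ℕ) : Hier (JFR_s K) :=
  ((((((((((((jfr K).mp hSOK).mp (hFR K)).mp hEXT).mp (hHI K)).mp (hBIG K)).mp (hXC2 K)).mp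
    (hJ1F K)).mp (hJX K)).mp (hVAL K)).mp (EGAll.hVST K)).mp (EGAll.hVJ6 K)).mp ((vj1 K).mp hTA)

theorem E2All (K : ℕ) : Hier (E2_s K) :=
  ((((((((e2_row K).mp (hRED K)).mp (hLOW K)).mp (SS.hS K)).mp (hJFR K)).mp (EGAll.hE K)).mp
    (FAll.hFS K)).mp (FAll.hF3 K)).mp (FAll.hF5 K)

theorem main2All {d : ℝ} (hd : d < 2) : Main (10 ^ 9) d :=
  main2R hd E2All ((((((gall d).mp TAll.hT0).mp TAll.hT4).mp hB1).mp hB2).mp hRHO)

end Pool.Agent.MP_9cbfe4_an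

end
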