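import Mathlib

/-! The hand-in statement for MP_9cbfe4_an. The plane is `ℝ × ℝ`, the parameter interval is `ℝ`. -/

namespace Pool.Agent.MP_9cbfe4_an.Spec

open MeasureTheory ProbabilityTheory Filter Topology
open scoped ContDiff

/-- `f` is a smooth diffeomorphism of the plane with smooth inverse `g` -/
def Diffeo (f g : ℝ × ℝ → ℝ × ℝ) : Prop :=
  ContDiff ℝ ∞ f ∧ ContDiff ℝ ∞ g ∧ Function.LeftInverse g f ∧ Function.RightInverse g f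

/-- a smooth one-parameter family of diffeomorphisms of the plane -/
def Family (F : ℝ × (ℝ × ℝ) → ℝ × ℝ) : Prop :=
  ContDiff ℝ ∞ F ∧ ∀ t, ∃ g, Diffeo (fun z => F (t, z)) g

/-- `U` is a set of families, open for uniform convergence of the derivatives of order `≤ r` on
compact sets -/
def OpenSet (r : ℕ) (U : Set (ℝ × (ℝ × ℝ) → ℝ × ℝ)) : Prop :=
  ∀ F ∈ U, Family F ∧ ∃ (K : Set (ℝ × (ℝ × ℝ))) (δ : ℝ), IsCompact K ∧ 0 < δ ∧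
    ∀ F', Family F' → (∀ k ≤ r, ∀ p ∈ K, ‖iteratedFDeriv ℝ k (F' - F) p‖ < δ) → F' ∈ U

/-- the vector `v ≠ 0` at `z` has Lyapunov exponent `l` -/
def Exponent (f : ℝ × ℝ → ℝ × ℝ) (z v : ℝ × ℝ) (l : ℝ) : Prop :=
  v ≠ 0 ∧ Tendsto (fun n : ℕ => Real.log ‖fderiv ℝ (f^[n]) z v‖ / n) atTop (𝓝 l)

/-- almost every point has one positive and one negative Lyapunov exponent -/
def Hyperbolic (f : ℝ × ℝ → ℝ × ℝ) (μ : Measure (ℝ × ℝ)) : Prop :=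
  ∀ᵐ z ∂μ, (∃ v, ∃ l > 0, Exponent f z v l) ∧ ∃ w, ∃ l < 0, Exponent f z w l

/-- the unstable manifold of `x`; `g` is the inverse map -/
def Wu (g : ℝ × ℝ → ℝ × ℝ) (x : ℝ × ℝ) : Set (ℝ × ℝ) :=
  {y | ∃ C c : ℝ, 0 < c ∧ ∀ n : ℕ, dist (g^[n] x) (g^[n] y) ≤ C * Real.exp (-c * n)}

/-- the atoms `π ⁻¹ {π x}` through the points `x` of a set `G` of full measure lie in `W^u(x)`, and
countably many atoms cover `G ∩ W^u(x)` -/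
def Subordinate (g : ℝ × ℝ → ℝ × ℝ) (μ : Measure (ℝ × ℝ)) (π : ℝ × ℝ → ℝ) : Prop :=
  ∃ G : Set (ℝ × ℝ), (∀ᵐ x ∂μ, x ∈ G) ∧
    ∀ x ∈ G, π ⁻¹' {π x} ⊆ Wu g x ∧ (π '' (G ∩ Wu g x)).Countable

/-- `κ` is the system of conditional measures of `μ` on the atoms `π ⁻¹ {y}` -/
def Cond (μ : Measure (ℝ × ℝ)) (π : ℝ × ℝ → ℝ) (κ : Kernel ℝ (ℝ × ℝ)) : Prop :=
  Measurable π ∧ IsMarkovKernel κ ∧ κ ∘ₘ (μ.map π) = μ ∧ ∀ᵐ y ∂(μ.map π), κ y (π ⁻¹' {y})ᶜ = 0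

/-- the conditional measures are absolutely continuous with respect to length on the atoms -/
def AC (μ : Measure (ℝ × ℝ)) (π : ℝ × ℝ → ℝ) (κ : Kernel ℝ (ℝ × ℝ)) : Prop :=
  ∀ᵐ y ∂(μ.map π), κ y ≪ (μH[1] : Measure (ℝ × ℝ)).restrict (π ⁻¹' {y})

/-- some measurable partition into pieces of unstable manifolds, and every subordinate measurable
partition, has absolutely continuous conditional measures -/
def SRB (g : ℝ × ℝ → ℝ × ℝ) (μ : Measure (ℝ × ℝ)) : Prop :=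
  (∃ π κ, Cond μ π κ ∧ (∀ x, π ⁻¹' {π x} ⊆ Wu g x) ∧ AC μ π κ) ∧
  ∀ π κ, Cond μ π κ → Subordinate g μ π → AC μ π κ

/-- uniform hyperbolicity of `K` (continuity of the splitting is not required) -/
def UnifHyp (f : ℝ × ℝ → ℝ × ℝ) (K : Set (ℝ × ℝ)) : Prop :=
  ∃ (Es Eu : ℝ × ℝ → Submodule ℝ (ℝ × ℝ)) (C c : ℝ), 0 < C ∧ 0 < c ∧ ∀ z ∈ K,
    IsCompl (Es z) (Eu z) ∧ (Es z).map (fderiv ℝ f z : ℝ × ℝ →ₗ[ℝ] ℝ × ℝ) = Es (f z) ∧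
    (Eu z).map (fderiv ℝ f z : ℝ × ℝ →ₗ[ℝ] ℝ × ℝ) = Eu (f z) ∧
    (∀ v ∈ Es z, ∀ n : ℕ, ‖fderiv ℝ (f^[n]) z v‖ ≤ C * Real.exp (-c * n) * ‖v‖) ∧
    (∀ v ∈ Eu z, ∀ n : ℕ, Real.exp (c * n) * ‖v‖ ≤ C * ‖fderiv ℝ (f^[n]) z v‖)

end Pool.Agent.MP_9cbfe4_an.Spec
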