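import Mathlib

/-! The statement for MP_9cbfe4_an. The plane is `ℝ × ℝ`, the parameter interval is `ℝ`. -/

namespace Pool.Agent.MP_9cbfe4_an

open MeasureTheory ProbabilityTheory Filter Topology
open scoped ContDiff

noncomputable section

abbrev P2 := ℝ × ℝ

/-- `g` is a smooth inverse of the smooth map `f` -/
structure IsDiffeo (f g : P2 → P2) : Prop where
  smooth : ContDiff ℝ ∞ f
  smooth_inv : ContDiff ℝ ∞ g
  left : Function.LeftInverse g f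
  right : Function.RightInverse g f

/-- a smooth one-parameter family of diffeomorphisms of the plane -/
def SmoothFamily (F : ℝ × P2 → P2) : Prop :=
  ContDiff ℝ ∞ F ∧ ∀ t, ∃ g, IsDiffeo (fun z => F (t, z)) g

/-- global unstable manifold of `x`; `g` is the inverse map -/
def Wu (g : P2 → P2) (x : P2) : Set P2 :=
  {y | ∃ C c : ℝ, 0 < c ∧ ∀ n : ℕ, dist (g^[n] x) (g^[n] y) ≤ C * Real.exp (-c * n)}

/-- at almost every point one vector grows and one vector decays exponentially -/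
def HypMeasure (f : P2 → P2) (μ : Measure P2) : Prop :=
  ∀ᵐ z ∂μ, (∃ (v : P2) (C c : ℝ), 0 < C ∧ 0 < c ∧
      ∀ n : ℕ, C * Real.exp (c * n) ≤ ‖fderiv ℝ (f^[n]) z v‖) ∧
    (∃ (w : P2) (C c : ℝ), w ≠ 0 ∧ 0 < c ∧ ∀ n : ℕ, ‖fderiv ℝ (f^[n]) z w‖ ≤ C * Real.exp (-c * n))

/-- the partition into the fibres of `π` is subordinate to the unstable manifolds: almost every
fibre lies in `W^u(x)` and contains, for every rate `c`, a local unstable set of `x` of rate `c` -/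
def Subordinate (g : P2 → P2) (μ : Measure P2) (π : P2 → ℝ) : Prop :=
  ∀ᵐ x ∂μ, π ⁻¹' {π x} ⊆ Wu g x ∧ ∀ c > (0 : ℝ), ∃ ε > (0 : ℝ),
    {y | ∀ n : ℕ, dist (g^[n] x) (g^[n] y) ≤ ε * Real.exp (-c * n)} ⊆ π ⁻¹' {π x}

/-- SRB property: (i) sets of zero length on every unstable manifold are null; (ii) for every
measurable partition subordinate to the unstable manifolds the conditional measures are
absolutely continuous with respect to length on the atoms -/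
def IsSRB (g : P2 → P2) (μ : Measure P2) : Prop :=
  (∀ A, MeasurableSet A → (∀ x, μH[1] (A ∩ Wu g x) = 0) → μ A = 0) ∧
  ∀ (π : P2 → ℝ) (κ : Kernel ℝ P2), Measurable π → IsMarkovKernel κ → Subordinate g μ π →
    κ ∘ₘ (μ.map π) = μ → (∀ᵐ y ∂(μ.map π), κ y (π ⁻¹' {y})ᶜ = 0) →
    ∀ᵐ y ∂(μ.map π), κ y ≪ (μH[1] : Measure P2).restrict (π ⁻¹' {y})

/-- uniform hyperbolicity of `K` (continuity of the splitting is not even required) -/
def UnifHyp (f : P2 → P2) (K : Set P2) : Prop :=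
  ∃ (Es Eu : P2 → Submodule ℝ P2) (C c : ℝ), 0 < C ∧ 0 < c ∧ ∀ z ∈ K,
    IsCompl (Es z) (Eu z) ∧ (Es z).map (fderiv ℝ f z : P2 →ₗ[ℝ] P2) = Es (f z) ∧
    (Eu z).map (fderiv ℝ f z : P2 →ₗ[ℝ] P2) = Eu (f z) ∧
    (∀ v ∈ Es z, ∀ n : ℕ, ‖fderiv ℝ (f^[n]) z v‖ ≤ C * Real.exp (-c * n) * ‖v‖) ∧
    (∀ v ∈ Eu z, ∀ n : ℕ, Real.exp (c * n) * ‖v‖ ≤ C * ‖fderiv ℝ (f^[n]) z v‖)

/-- `f` has a non-uniformly hyperbolic ergodic SRB measure with support of dimension `≥ d` -/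
def HasNUH (d : ℝ) (f : P2 → P2) : Prop :=
  ∀ g, IsDiffeo f g → ∃ μ : Measure P2, IsProbabilityMeasure μ ∧ Ergodic f μ ∧ HypMeasure f μ ∧
    IsSRB g μ ∧ IsCompact μ.support ∧ ENNReal.ofReal d ≤ dimH μ.support ∧ ¬ UnifHyp f μ.support

/-- the statement for dimension `d` and the `C^r` topology -/
def Main (r : ℕ) (d : ℝ) : Prop :=
  ∃ (F0 : ℝ × P2 → P2) (R δ : ℝ), 0 < δ ∧ SmoothFamily F0 ∧
    ∀ F, SmoothFamily F →
      (∀ k ≤ r, ∀ p ∈ Set.Icc (-1 : ℝ) 2 ×ˢ Metric.closedBall (0 : P2) R,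
        ‖iteratedFDeriv ℝ k (F - F0) p‖ < δ) →
      ∃ T ⊆ Set.Icc (0 : ℝ) 1, MeasurableSet T ∧ 0 < volume T ∧ ∀ t ∈ T, HasNUH d fun z => F (t, z)

end
end Pool.Agent.MP_9cbfe4_an
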